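import Pool.Agent.H18.GGT.M12

/-! The parts of this file: GA.Ger, GB.Max, GB.Wt. -/

section

/-!
# GA Ger: the field of the germs of meromorphic functions
-/

set_option autoImplicit false

open MvPolynomial Topology Filter Metric

noncomputable section

namespace Pool.Agent.GA

section Ger

variable {z₀ : ℂ}

theorem gm_inj {f g : ℂ → ℂ} {hf : AnalyticAt ℂ f z₀} {hg : AnalyticAt ℂ g z₀} : gm z₀ f hf = gm z₀ g hg ↔ f =ᶠ[𝓝 z₀] g := by
  constructor
  · intro h
    have h1 := IsFractionRing.injective (AnG z₀) (Gm z₀) h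
    exact Filter.Germ.coe_eq.1 (congrArg Subtype.val h1)
  · intro h
    exact congrArg (algebraMap (AnG z₀) (Gm z₀)) (Subtype.ext (Filter.Germ.coe_eq.2 h))

theorem gm_add {f g h : ℂ → ℂ} (hf : AnalyticAt ℂ f z₀) (hg : AnalyticAt ℂ g z₀) (hh : AnalyticAt ℂ h z₀) (he : h =ᶠ[𝓝 z₀] fun z => f z + g z) :
    gm z₀ h hh = gm z₀ f hf + gm z₀ g hg := by
  have h1 : gm z₀ h hh = gm z₀ (f + g) (hf.add hg) := gm_inj.2 he
  rw [h1, gm, gm, gm, ← map_add]
  rfl

theorem gm_mul {f g h : ℂ → ℂ} (hf : AnalyticAt ℂ f z₀) (hg : AnalyticAt ℂ g z₀) (hh : AnalyticAt ℂ h z₀) (he : h =ᶠ[𝓝 z₀] fun z => f z * g z) :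
    gm z₀ h hh = gm z₀ f hf * gm z₀ g hg := by
  have h1 : gm z₀ h hh = gm z₀ (f * g) (hf.mul hg) := gm_inj.2 he
  rw [h1, gm, gm, gm, ← map_mul]
  rfl

theorem gm_const (c : ℂ) {h : ℂ → ℂ} (hh : AnalyticAt ℂ h z₀) (he : h =ᶠ[𝓝 z₀] fun _ => c) : gm z₀ h hh = algebraMap ℂ (Gm z₀) c := by
  have h1 : gm z₀ h hh = gm z₀ (fun _ => c) analyticAt_const := gm_inj.2 he
  rw [h1, gm, IsScalarTower.algebraMap_apply ℂ (AnG z₀) (Gm z₀)]
  rfl

private def dfun (a : AnG z₀) : AnG z₀ := ⟨((deriv a.2.choose : ℂ → ℂ) : Filter.Germ (𝓝 z₀) ℂ), deriv a.2.choose, a.2.choose_spec.1.deriv, rfl⟩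

private theorem dfun_mk (f : ℂ → ℂ) (hf : AnalyticAt ℂ f z₀) :
    dfun ⟨(f : Filter.Germ (𝓝 z₀) ℂ), f, hf, rfl⟩ = ⟨((deriv f : ℂ → ℂ) : Filter.Germ (𝓝 z₀) ℂ), deriv f, hf.deriv, rfl⟩ := by
  have h1 := (⟨(f : Filter.Germ (𝓝 z₀) ℂ), f, hf, rfl⟩ : AnG z₀).2.choose_spec.2
  exact Subtype.ext (Filter.Germ.coe_eq.2 (Filter.EventuallyEq.deriv (Filter.Germ.coe_eq.1 h1)))

private theorem mk_congr {f g : ℂ → ℂ} (hf : AnalyticAt ℂ f z₀) (hg : AnalyticAt ℂ g z₀) (h : f =ᶠ[𝓝 z₀] g) :
    (⟨(f : Filter.Germ (𝓝 z₀) ℂ), f, hf, rfl⟩ : AnG z₀) = ⟨(g : Filter.Germ (𝓝 z₀) ℂ), g, hg, rfl⟩ :=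
  Subtype.ext (Filter.Germ.coe_eq.2 h)

private def dA (z₀ : ℂ) : Derivation ℂ (AnG z₀) (AnG z₀) :=
  Derivation.mk'
    ({ toFun := dfun
       map_add' := by
        rintro ⟨_, f, hf, rfl⟩ ⟨_, g, hg, rfl⟩
        have h1 : ((⟨(f : Filter.Germ (𝓝 z₀) ℂ), f, hf, rfl⟩ : AnG z₀) + ⟨(g : Filter.Germ (𝓝 z₀) ℂ), g, hg, rfl⟩) =
          ⟨((f + g : ℂ → ℂ) : Filter.Germ (𝓝 z₀) ℂ), f + g, hf.add hg, rfl⟩ := rfl
        rw [h1, dfun_mk (f + g) (hf.add hg), dfun_mk f hf, dfun_mk g hg]
        have h2 : deriv (f + g) =ᶠ[𝓝 z₀] deriv f + deriv g := by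
          filter_upwards [hf.eventually_analyticAt, hg.eventually_analyticAt] with z h3 h4
          exact deriv_add h3.differentiableAt h4.differentiableAt
        rw [mk_congr (hf.add hg).deriv (hf.deriv.add hg.deriv) h2]
        rfl
       map_smul' := by
        rintro c ⟨_, f, hf, rfl⟩
        have h1 : (c • (⟨(f : Filter.Germ (𝓝 z₀) ℂ), f, hf, rfl⟩ : AnG z₀)) =
          ⟨(((fun z => c * f z) : ℂ → ℂ) : Filter.Germ (𝓝 z₀) ℂ), fun z => c * f z, analyticAt_const.mul hf, rfl⟩ := rfl
        have h4 : AnalyticAt ℂ (fun z => c * f z) z₀ := analyticAt_const.mul hf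
        have h5 : AnalyticAt ℂ (fun z => c * deriv f z) z₀ := analyticAt_const.mul hf.deriv
        rw [h1, dfun_mk (fun z => c * f z) h4, dfun_mk f hf]
        have h2 : deriv (fun z => c * f z) =ᶠ[𝓝 z₀] fun z => c * deriv f z := by
          filter_upwards [hf.eventually_analyticAt] with z h3
          exact deriv_const_mul c h3.differentiableAt
        rw [mk_congr h4.deriv h5 h2]
        rfl } : AnG z₀ →ₗ[ℂ] AnG z₀)
    (by
      rintro ⟨_, f, hf, rfl⟩ ⟨_, g, hg, rfl⟩
      have h1 : ((⟨(f : Filter.Germ (𝓝 z₀) ℂ), f, hf, rfl⟩ : AnG z₀) * ⟨(g : Filter.Germ (𝓝 z₀) ℂ), g, hg, rfl⟩) =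
        ⟨((f * g : ℂ → ℂ) : Filter.Germ (𝓝 z₀) ℂ), f * g, hf.mul hg, rfl⟩ := rfl
      show dfun _ = _ • dfun _ + _ • dfun _
      rw [h1, dfun_mk (f * g) (hf.mul hg), dfun_mk f hf, dfun_mk g hg]
      have h2 : deriv (f * g) =ᶠ[𝓝 z₀] f * deriv g + g * deriv f := by
        filter_upwards [hf.eventually_analyticAt, hg.eventually_analyticAt] with z h3 h4
        rw [deriv_mul h3.differentiableAt h4.differentiableAt]
        simp only [Pi.add_apply, Pi.mul_apply]
        ring
      rw [mk_congr (hf.mul hg).deriv ((hf.mul hg.deriv).add (hg.mul hf.deriv)) h2]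
      rfl)

/-- the derivation `d / dz` of the field of the germs of meromorphic functions -/
theorem exists_dz (z₀ : ℂ) : ∃ d : Derivation ℂ (Gm z₀) (Gm z₀), ∀ f (hf : AnalyticAt ℂ f z₀), d (gm z₀ f hf) = gm z₀ (deriv f) hf.deriv := by
  have : Algebra.FormallyEtale (AnG z₀) (Gm z₀) :=
    Algebra.FormallyEtale.of_isLocalization (nonZeroDivisors (AnG z₀))
  let l : Ω[AnG z₀⁄ℂ] →ₗ[AnG z₀] (Gm z₀) :=
    (Algebra.linearMap (AnG z₀) (Gm z₀)).comp (dA z₀).liftKaehlerDifferential
  let e := KaehlerDifferential.tensorKaehlerEquivOfFormallyEtale ℂ (AnG z₀) (Gm z₀)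
  let l' : Ω[Gm z₀⁄ℂ] →ₗ[Gm z₀] (Gm z₀) :=
    (l.liftBaseChange (Gm z₀)).comp e.symm.toLinearMap
  refine ⟨l'.compDer (KaehlerDifferential.D ℂ (Gm z₀)), fun f hf => ?_⟩
  change l.liftBaseChange (Gm z₀) (e.symm (KaehlerDifferential.D ℂ (Gm z₀)
    (algebraMap (AnG z₀) (Gm z₀) ⟨(f : Filter.Germ (𝓝 z₀) ℂ), f, hf, rfl⟩))) = _
  rw [KaehlerDifferential.tensorKaehlerEquivOfFormallyEtale_symm_D_algebraMap,
    LinearMap.liftBaseChange_tmul, one_smul]
  change algebraMap (AnG z₀) (Gm z₀)
    ((dA z₀).liftKaehlerDifferential (KaehlerDifferential.D ℂ (AnG z₀) ⟨(f : Filter.Germ (𝓝 z₀) ℂ), f, hf, rfl⟩)) = _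
  rw [Derivation.liftKaehlerDifferential_comp_D]
  change algebraMap (AnG z₀) (Gm z₀) (dfun ⟨(f : Filter.Germ (𝓝 z₀) ℂ), f, hf, rfl⟩) = _
  rw [dfun_mk f hf]
  rfl

private def ofO {OO : Subalgebra ℂ (ℂ → ℂ)} (hO : ∀ g ∈ OO, AnalyticAt ℂ g z₀) : OO →+* Gm z₀ where
  toFun g := gm z₀ g (hO g g.2)
  map_one' := by
    rw [gm_const (z₀ := z₀) 1 (hO _ (1 : OO).2) (Eventually.of_forall fun _ => rfl), map_one]
  map_zero' := by
    rw [gm_const (z₀ := z₀) 0 (hO _ (0 : OO).2) (Eventually.of_forall fun _ => rfl), map_zero]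
  map_add' f g := gm_add (hO f f.2) (hO g g.2) (hO _ (f + g : OO).2) (Eventually.of_forall fun _ => rfl)
  map_mul' f g := gm_mul (hO f f.2) (hO g g.2) (hO _ (f * g : OO).2) (Eventually.of_forall fun _ => rfl)

/-- polynomials over `OO` and germs -/
theorem gm_evO {σ : Type} [Fintype σ] {OO : Subalgebra ℂ (ℂ → ℂ)} (hO : ∀ g ∈ OO, AnalyticAt ℂ g z₀) {y : ℂ → σ → ℂ} (hy : AnalyticAt ℂ y z₀) :
    ∃ φ : OO →+* Gm z₀, (∀ g : OO, φ g = gm z₀ g (hO g g.2)) ∧ ∀ R : MvPolynomial σ OO, ∃ h : AnalyticAt ℂ (evO OO y R) z₀,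
      eval₂ φ (fun s => gm z₀ (fun z => y z s) ((analyticAt_pi_iff.mp hy) s)) R = gm z₀ (evO OO y R) h := by
  refine ⟨ofO hO, fun g => rfl, fun R => ?_⟩
  induction R using MvPolynomial.induction_on with
  | C a =>
    have h1 : evO OO y (C a) = (a : ℂ → ℂ) := funext fun w => by
      rw [evO, eval₂_C]
      rfl
    refine ⟨by rw [h1]; exact hO a a.2, ?_⟩
    rw [eval₂_C]
    exact (gm_inj (hf := hO a a.2)).2 (by rw [h1])
  | add p q hp hq =>
    obtain ⟨hp1, hp2⟩ := hp
    obtain ⟨hq1, hq2⟩ := hq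
    have h1 : evO OO y (p + q) = fun w => evO OO y p w + evO OO y q w := funext fun w => by
      rw [evO, eval₂_add]
      rfl
    have h2 : AnalyticAt ℂ (evO OO y (p + q)) z₀ := by
      rw [h1]
      exact hp1.add hq1
    refine ⟨h2, ?_⟩
    rw [eval₂_add, hp2, hq2]
    exact (gm_add hp1 hq1 h2 (by rw [h1])).symm
  | mul_X p s hp =>
    obtain ⟨hp1, hp2⟩ := hp
    have h1 : evO OO y (p * X s) = fun w => evO OO y p w * y w s := funext fun w => by
      rw [evO, eval₂_mul, eval₂_X]
      rfl
    have h3 := (analyticAt_pi_iff.mp hy) s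
    have h2 : AnalyticAt ℂ (evO OO y (p * X s)) z₀ := by
      rw [h1]
      exact hp1.mul h3
    refine ⟨h2, ?_⟩
    rw [eval₂_mul, eval₂_X, hp2]
    exact (gm_mul hp1 h3 h2 (by rw [h1])).symm

/-- polynomials over `ℂ` and germs -/
theorem gm_eval {σ : Type} [Fintype σ] {y : ℂ → σ → ℂ} (hy : AnalyticAt ℂ y z₀) (R : MvPolynomial σ ℂ) : ∃ h : AnalyticAt ℂ (fun z => eval (y z) R) z₀,
    aeval (fun s => gm z₀ (fun z => y z s) ((analyticAt_pi_iff.mp hy) s)) R = gm z₀ (fun z => eval (y z) R) h := by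
  induction R using MvPolynomial.induction_on with
  | C a =>
    have h1 : (fun z => eval (y z) (C a)) = fun _ => a := funext fun w => eval_C a
    have h2 : AnalyticAt ℂ (fun z => eval (y z) (C a)) z₀ := by
      rw [h1]
      exact analyticAt_const
    refine ⟨h2, ?_⟩
    rw [aeval_C]
    exact (gm_const a h2 (by rw [h1])).symm
  | add p q hp hq =>
    obtain ⟨hp1, hp2⟩ := hp
    obtain ⟨hq1, hq2⟩ := hq
    have h1 : (fun z => eval (y z) (p + q)) = fun w => eval (y w) p + eval (y w) q := funext fun w => map_add _ _ _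
    have h2 : AnalyticAt ℂ (fun z => eval (y z) (p + q)) z₀ := by
      rw [h1]
      exact hp1.add hq1
    refine ⟨h2, ?_⟩
    rw [map_add, hp2, hq2]
    exact (gm_add hp1 hq1 h2 (by rw [h1])).symm
  | mul_X p s hp =>
    obtain ⟨hp1, hp2⟩ := hp
    have h1 : (fun z => eval (y z) (p * X s)) = fun w => eval (y w) p * y w s := funext fun w => by rw [map_mul, eval_X]
    have h3 := (analyticAt_pi_iff.mp hy) s
    have h2 : AnalyticAt ℂ (fun z => eval (y z) (p * X s)) z₀ := by
      rw [h1]
      exact hp1.mul h3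
    refine ⟨h2, ?_⟩
    rw [map_mul, aeval_X, hp2]
    exact (gm_mul hp1 h3 h2 (by rw [h1])).symm

end Ger

end Pool.Agent.GA

end
end

section

/-!
# GB Max: the field of the quotients of pluricanonical forms

PROOF.  `regF_mul`, `regF_one`: clear.  `RegF z l f → PoleAtMost 0 E l f (Form.mk 1 z)`: `H23.exists_divisorCoords` (for `ofFano E`, same `ord`) gives `b` with
`DC E b`; `Form.mk 1 z = jac z b • (∧ b)` (`H23.eq_fc_smul`, `fc_ιMulti`, `Module.Basis.det_apply`), as in `LG.exists_fv`.
Let `κ` be maximal such that there are `l`, `s` with `s 0 ≠ 0`, `RegF z l (s i)` and `s (i+1) / s 0` algebraically independent (`κ = 0`: `l = 0`, `s = 1`; `κ ≤ k`).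
If `κ = k`: the forms `u s_i` of weight `M + l ≥ 1` show that `K` is of general type.  If `u' / v'` is transcendental over `ℂ(s_i / s_0)`: the forms
`s_0 v', s_i v', s_0 u'` of weight `l + M'` contradict the maximality.  So `u' / v'` is algebraic over `ℂ(s_i / s_0)`, and `D` kills it (char 0).
-/

set_option autoImplicit false

open MvPolynomial
open Pool.Agent.H23 (dualDer)
open Pool.Agent.H23.Fano (PrimeDivisorOver Form)
open Pool.Agent.H17LG.Variety (IsLogGeneralType)

namespace Pool.Agent.GB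

variable {K : Type} [Field K] [Algebra ℂ K] {k : ℕ}

theorem regF_one (z : Fin k → K) : RegF z 0 1 := by
  intro E b _
  rw [pow_zero, mul_one, E.ord.map_one]

private lemma max_regF_mul {z : Fin k → K} {l l' : ℕ} {f f' : K} (h : RegF z l f) (h' : RegF z l' f') : RegF z (l + l') (f * f') := by
  intro E b hb
  have h1 : f * f' * jac z b ^ (l + l') = (f * jac z b ^ l) * (f' * jac z b ^ l') := by
    rw [pow_add]; ring
  rw [h1, E.ord.map_mul]
  exact add_nonneg (h E b hb) (h' E b hb)

/-- the subfield of the constants of a derivation -/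
private def cst (D : Derivation ℂ K K) : IntermediateField ℂ K where
  carrier := {f | D f = 0}
  mul_mem' := by
    intro a b ha hb
    simp only [Set.mem_ofPred_eq] at ha hb ⊢
    rw [Derivation.leibniz, ha, hb, smul_zero, smul_zero, add_zero]
  add_mem' := by
    intro a b ha hb
    simp only [Set.mem_ofPred_eq] at ha hb ⊢
    rw [map_add, ha, hb, add_zero]
  algebraMap_mem' := by
    intro c
    simp only [Set.mem_ofPred_eq]
    exact D.map_algebraMap c
  inv_mem' := by
    intro a ha
    simp only [Set.mem_ofPred_eq] at ha ⊢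
    rw [Derivation.leibniz_inv, ha, smul_zero]

/-- a derivation kills the elements which are algebraic over its field of constants -/
private lemma max_der_alg {D : Derivation ℂ K K} {x : K} (hx : IsAlgebraic (cst D) x) : D x = 0 := by
  let D' : Derivation (cst D) K K := Derivation.mk' (R := cst D) (M := K)
    { toFun := fun f => D f
      map_add' := fun a b => map_add D a b
      map_smul' := by
        intro c f
        rw [RingHom.id_apply, Algebra.smul_def, Algebra.smul_def, Derivation.leibniz]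
        have : D (algebraMap (cst D) K c) = 0 := c.2
        rw [this, smul_zero, add_zero, smul_eq_mul] }
    (fun a b => D.leibniz a b)
  have hD' : ∀ f, D' f = D f := fun f => rfl
  have : CharZero (cst D) := charZero_of_injective_algebraMap (algebraMap ℂ (cst D)).injective
  have hint : IsIntegral (cst D) x := hx.isIntegral
  have hsep : IsSeparable (cst D) x := (minpoly.irreducible hint).separable
  have h1 := Derivation.map_aeval (minpoly (cst D) x) x (D := D')
  rw [minpoly.aeval, map_zero, hD', smul_eq_mul] at h1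
  rcases mul_eq_zero.1 h1.symm with h2 | h2
  · exact absurd h2 (hsep.aeval_derivative_ne_zero (minpoly.aeval _ _))
  · exact h2

private lemma max_ord_form [Algebra.EssFiniteType ℂ K] (hk : 1 ≤ k) {z : Fin k → K} (hz : IsTranscendenceBasis ℂ z) {l : ℕ} {f : K} (hf : RegF z l f)
    (E : PrimeDivisorOver K k) : Pool.Agent.H17LG.Variety.PoleAtMost 0 E l f (Form.mk 1 z) := by
  obtain ⟨k, rfl⟩ : ∃ k', k = k' + 1 := ⟨k - 1, by omega⟩
  obtain ⟨g, b, hb, -, hg, hD⟩ := Pool.Agent.H23.exists_divisorCoords hz (Pool.Agent.H23.ofFano E)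
  have hDC : DC E b := ⟨g, hb, hg, hD⟩
  refine ⟨jac z b, Form.mk 1 g, ?_, ?_, ?_⟩
  · apply AddSubgroup.subset_closure
    refine ⟨1, g, ?_, hg, rfl⟩
    change 0 ≤ E.ord 1
    rw [E.ord.map_one]
  · have h1 := Pool.Agent.H23.eq_fc_smul b (exteriorPower.ιMulti K (k + 1) fun i => KaehlerDifferential.D ℂ K (z i))
    rw [Pool.Agent.H23.fc_ιMulti, Module.Basis.det_apply] at h1
    have h2 : (b.toMatrix fun i => KaehlerDifferential.D ℂ K (z i)).det = jac z b := rfl
    rw [h2] at h1
    have h3 : (exteriorPower.ιMulti K (k + 1) fun i => b i) = exteriorPower.ιMulti K (k + 1) fun i => KaehlerDifferential.D ℂ K (g i) := by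
      simp only [hb]
    rw [h3] at h1
    change (1 : K) • (exteriorPower.ιMulti K (k + 1) fun i => KaehlerDifferential.D ℂ K (z i)) =
      jac z b • ((1 : K) • (exteriorPower.ιMulti K (k + 1) fun i => KaehlerDifferential.D ℂ K (g i)))
    rw [one_smul, one_smul]
    exact h1
  · have := hf E b hDC
    simpa using this

private lemma max_form_ne {z : Fin k → K} (hz : IsTranscendenceBasis ℂ z) : (Form.mk 1 z : Form K k) ≠ 0 := by
  obtain ⟨b, hb⟩ := Pool.Agent.H23.exists_basis_kaehler hz
  intro h0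
  have h1 : (1 : K) • (exteriorPower.ιMulti K k fun i => KaehlerDifferential.D ℂ K (z i)) = 0 := h0
  have h2 := Pool.Agent.H23.fc_self b
  simp only [hb] at h2
  rw [one_smul] at h1
  rw [h1, map_zero] at h2
  exact zero_ne_one h2

/-- there are `κ + 1` forms of the same weight with algebraically independent quotients -/
private def MaxP (z : Fin k → K) (κ : ℕ) : Prop :=
  ∃ (l : ℕ) (s : Fin (κ + 1) → K), s 0 ≠ 0 ∧ (∀ i, RegF z l (s i)) ∧ AlgebraicIndependent ℂ (fun i : Fin κ => s i.succ / s 0)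

private lemma maxP_zero (z : Fin k → K) : MaxP z 0 :=
  ⟨0, fun _ => 1, one_ne_zero, fun _ => regF_one z, algebraicIndependent_empty_type⟩

private lemma maxP_le {z : Fin k → K} (hz : IsTranscendenceBasis ℂ z) {κ : ℕ} (h : MaxP z κ) : κ ≤ k := by
  obtain ⟨l, s, -, -, h⟩ := h
  have h1 := h.cardinalMk_le_trdeg
  rw [← hz.cardinalMk_eq_trdeg] at h1
  simpa using h1

theorem exists_max [Algebra.EssFiniteType ℂ K] (hk : 1 ≤ k) {z : Fin k → K} (hz : IsTranscendenceBasis ℂ z)
    (hn : ¬ IsLogGeneralType (K := K) (k := k) fun _ => False) {M : ℕ} {u : K} (hM : 1 ≤ M) (hu : RegF z M u) (hu0 : u ≠ 0) :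
    ∃ (κ l : ℕ) (s : Fin (κ + 1) → K), κ < k ∧ s 0 ≠ 0 ∧ (∀ i, RegF z l (s i)) ∧
      AlgebraicIndependent ℂ (fun i : Fin κ => s i.succ / s 0) ∧
      ∀ (M' : ℕ) (u' v' : K), RegF z M' u' → RegF z M' v' → v' ≠ 0 →
        ∀ D : Derivation ℂ K K, (∀ i : Fin κ, D (s i.succ / s 0) = 0) → D (u' / v') = 0 := by
  classical
  set κ := Nat.findGreatest (MaxP z) k with hκ
  have hP : MaxP z κ := Nat.findGreatest_spec (P := MaxP z) (m := 0) (Nat.zero_le _) (maxP_zero z)
  have hmax : ∀ κ', κ < κ' → ¬ MaxP z κ' := by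
    intro κ' h h'
    exact Nat.findGreatest_is_greatest h (maxP_le hz h') h'
  have hle : κ ≤ k := maxP_le hz hP
  obtain ⟨l, s, hs0, hs, hind⟩ := hP
  refine ⟨κ, l, s, lt_of_le_of_ne hle ?_, hs0, hs, hind, ?_⟩
  · intro hκk
    apply hn
    refine ⟨M + l, by omega, Form.mk 1 z, max_form_ne hz, κ, fun i => u * s i, mul_ne_zero hu0 hs0, ?_, ?_⟩
    · intro i E
      refine ⟨fun _ => max_ord_form hk hz (max_regF_mul hu (hs i)) E, fun h => h.elim⟩
    · have hb : IsTranscendenceBasis ℂ (fun i : Fin κ => s i.succ / s 0) := by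
        apply hind.isTranscendenceBasis_of_trdeg_le_of_finite
        rw [← hz.cardinalMk_eq_trdeg]
        simp [hκk]
      have hq : ∀ i, u * s i / (u * s 0) = s i / s 0 := fun i => mul_div_mul_left _ _ hu0
      have hsub : IntermediateField.adjoin ℂ (Set.range fun i : Fin κ => s i.succ / s 0) ≤
          IntermediateField.adjoin ℂ (Set.range fun i => u * s i / (u * s 0)) := by
        rw [IntermediateField.adjoin_le_iff]
        rintro _ ⟨i, rfl⟩
        apply IntermediateField.subset_adjoin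
        exact ⟨i.succ, hq _⟩
      refine ⟨fun x => ?_⟩
      obtain ⟨p, hp0, hp⟩ := (hb.isAlgebraic_field).isAlgebraic x
      letI : Algebra (IntermediateField.adjoin ℂ (Set.range fun i : Fin κ => s i.succ / s 0))
        (IntermediateField.adjoin ℂ (Set.range fun i => u * s i / (u * s 0))) := (IntermediateField.inclusion hsub).toRingHom.toAlgebra
      refine ⟨p.map (IntermediateField.inclusion hsub).toRingHom, ?_, ?_⟩
      · rwa [Ne, Polynomial.map_eq_zero_iff (IntermediateField.inclusion hsub).toRingHom.injective]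
      · rw [Polynomial.aeval_def, Polynomial.eval₂_map]
        exact hp
  · intro M' u' v' hu' hv' hv0 D hD
    by_cases halg : IsAlgebraic (Algebra.adjoin ℂ (Set.range fun i : Fin κ => s i.succ / s 0)) (u' / v')
    · apply max_der_alg
      obtain ⟨p, hp0, hp⟩ := halg
      have hsub : Algebra.adjoin ℂ (Set.range fun i : Fin κ => s i.succ / s 0) ≤ (cst D).toSubalgebra := by
        rw [Algebra.adjoin_le_iff]
        rintro _ ⟨i, rfl⟩
        exact hD i
      refine ⟨p.map (Subalgebra.inclusion hsub).toRingHom, ?_, ?_⟩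
      · rwa [Ne, Polynomial.map_eq_zero_iff]
        exact Subalgebra.inclusion_injective hsub
      · rw [Polynomial.aeval_def]
        erw [Polynomial.eval₂_map]
        exact hp
    · exfalso
      have h1 := (hind.option_iff_transcendental (u' / v')).2 halg
      apply hmax (κ + 1) (Nat.lt_succ_self _)
      let s' : Fin (κ + 1 + 1) → K := Fin.snoc (fun i => s i * v') (s 0 * u')
      have hs'0 : s' 0 = s 0 * v' := by
        have : (0 : Fin (κ + 1 + 1)) = Fin.castSucc 0 := rfl
        rw [this]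
        exact Fin.snoc_castSucc (α := fun _ => K) _ _ _
      refine ⟨l + M', s', ?_, ?_, ?_⟩
      · rw [hs'0]; exact mul_ne_zero hs0 hv0
      · intro i
        refine Fin.lastCases ?_ (fun j => ?_) i
        · have : s' (Fin.last _) = s 0 * u' := Fin.snoc_last (α := fun _ => K) _ _
          rw [this]
          exact max_regF_mul (hs 0) hu'
        · have : s' (Fin.castSucc j) = s j * v' := Fin.snoc_castSucc (α := fun _ => K) _ _ _
          rw [this]
          exact max_regF_mul (hs j) hv'
      · refine (algebraicIndependent_equiv' (finSuccEquivLast (n := κ)) (f := fun o : Option (Fin κ) => o.elim (u' / v') fun i => s i.succ / s 0) ?_).2 h1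
        funext i
        refine Fin.lastCases ?_ (fun j => ?_) i
        · rw [Function.comp_apply, finSuccEquivLast_last, Option.elim_none, hs'0]
          have : s' (Fin.last κ).succ = s 0 * u' := Fin.snoc_last (α := fun _ => K) _ _
          rw [this, mul_div_mul_left _ _ hs0]
        · rw [Function.comp_apply, finSuccEquivLast_castSucc, Option.elim_some, hs'0]
          have : s' (Fin.castSucc j).succ = s j.succ * v' := by
            rw [Fin.succ_castSucc]
            exact Fin.snoc_castSucc (α := fun _ => K) _ _ _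
          rw [this, mul_div_mul_right _ _ hv0]

end Pool.Agent.GB

end

section

/-!
# GB Wt: the determinant of the symmetric power of a matrix is a power of its determinant

PROOF.  `S^M (g)`: the matrix of `sbs g` on the monomials of degree `M`; `cdet (sbs g ∘ p) = χ (g) cdet p`, `χ (g) = det S^M (g)`, `χ (g g') = χ (g) χ (g')`.
Transvections: `diag t (c) diag⁻¹ = t (2 c) = t (c)^2`, so `χ (t) = χ (t)^2`, `χ (t) = 1`.  Diagonal matrices: `χ = ∏ j, t_j ^ (∑ α, α j)`, and `∑ α, α j`
does not depend on `j` (permute the variables): this is `a`; `a ≥ 1` since some `α j ≥ 1`.  `Matrix.diagonal_transvection_induction_of_det_ne_zero`.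
-/

set_option autoImplicit false

open MvPolynomial Matrix

namespace Pool.Agent.GB

theorem Mon.sum_eq {d m : ℕ} (α : Mon d m) : ∑ k, α.1 k = m := by
  have h := (Finset.mem_finsuppAntidiag.1 α.2).1
  simpa using h

theorem Mon.degree_eq {d m : ℕ} (α : Mon d m) : α.1.degree = m := by
  rw [Finsupp.degree_eq_sum, Mon.sum_eq]

/-- constructor -/
def Mon.mk {d m : ℕ} (α : Fin d →₀ ℕ) (h : ∑ k, α k = m) : Mon d m :=
  ⟨α, Finset.mem_finsuppAntidiag.2 ⟨by simpa using h, Finset.subset_univ _⟩⟩

variable {R : Type} [Field R] {d : ℕ}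

theorem sbs_X (A : Matrix (Fin d) (Fin d) R) (k : Fin d) : sbs A (X k) = ∑ l, C (A l k) * X l := aeval_X _ _

/-- the matrix of the substitution on the forms of degree `m` -/
noncomputable def symMat (m : ℕ) (A : Matrix (Fin d) (Fin d) R) : Matrix (Mon d m) (Mon d m) R := fun α β =>
  coeff β.1 (sbs A (monomial α.1 1))

theorem sbs_isHomogeneous (A : Matrix (Fin d) (Fin d) R) {m : ℕ} {q : MvPolynomial (Fin d) R} (hq : q.IsHomogeneous m) :
    (sbs A q).IsHomogeneous m := by
  have h := hq.aeval (fun k => ∑ l, C (A l k) * X l) (n := 1) (fun k => IsHomogeneous.sum _ _ _ fun l _ => by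
    have h1 := (isHomogeneous_C (Fin d) (A l k)).mul (isHomogeneous_X R l)
    rwa [zero_add] at h1)
  rwa [one_mul] at h

theorem sum_mon {M : Type*} [AddCommMonoid M] {m : ℕ} {q : MvPolynomial (Fin d) R} (hq : q.IsHomogeneous m)
    (F : (Fin d →₀ ℕ) → R → M) (hF : ∀ α, F α 0 = 0) : ∑ α ∈ q.support, F α (coeff α q) = ∑ α : Mon d m, F α.1 (coeff α.1 q) := by
  classical
  rw [Finset.sum_coe_sort ((Finset.univ : Finset (Fin d)).finsuppAntidiag m) fun α => F α (coeff α q)]
  refine Finset.sum_subset (fun α hα => ?_) fun α _ hα => ?_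
  · rw [Finset.mem_finsuppAntidiag]
    refine ⟨?_, Finset.subset_univ _⟩
    have h2 : α.degree = m := by
      by_contra h3
      exact mem_support_iff.1 hα (hq.coeff_eq_zero h3)
    rw [Finsupp.degree_eq_sum] at h2
    simpa using h2
  · rw [notMem_support_iff.1 hα, hF]

/-- the coefficients after the substitution -/
theorem coeff_sbs (A : Matrix (Fin d) (Fin d) R) {m : ℕ} {q : MvPolynomial (Fin d) R} (hq : q.IsHomogeneous m) (β : Mon d m) :
    coeff β.1 (sbs A q) = ∑ α : Mon d m, coeff α.1 q * symMat m A α β := by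
  refine Eq.trans ?_ (sum_mon hq (fun α c => c * coeff β.1 (sbs A (monomial α 1))) fun α => zero_mul _)
  conv_lhs => rw [q.as_sum, map_sum, coeff_sum]
  refine Finset.sum_congr rfl fun α _ => ?_
  have h : monomial α (coeff α q) = (coeff α q) • monomial α (1 : R) := by rw [smul_monomial, smul_eq_mul, mul_one]
  rw [h, map_smul, coeff_smul, smul_eq_mul]

theorem monomial_isHomogeneous {m : ℕ} (α : Mon d m) : (monomial α.1 (1 : R)).IsHomogeneous m :=
  isHomogeneous_monomial _ α.degree_eq

theorem symMat_mul (m : ℕ) (A B : Matrix (Fin d) (Fin d) R) : symMat m (A * B) = symMat m B * symMat m A := by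
  have h : sbs (A * B) = (sbs A).comp (sbs B) := by
    refine MvPolynomial.algHom_ext fun k => ?_
    rw [AlgHom.comp_apply, sbs_X, sbs_X, map_sum]
    simp only [map_mul, algHom_C, algebraMap_eq, sbs_X, Finset.mul_sum]
    rw [Finset.sum_comm]
    refine Finset.sum_congr rfl fun l _ => ?_
    rw [Matrix.mul_apply, map_sum, Finset.sum_mul]
    refine Finset.sum_congr rfl fun j _ => ?_
    rw [map_mul]
    ring
  ext α β
  rw [Matrix.mul_apply]
  show coeff β.1 (sbs (A * B) (monomial α.1 1)) = _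
  rw [h, AlgHom.comp_apply, coeff_sbs A (sbs_isHomogeneous B (monomial_isHomogeneous α))]
  rfl

theorem symMat_diagonal (m : ℕ) (D : Fin d → R) : symMat m (diagonal D) = diagonal fun α => ∏ k, D k ^ α.1 k := by
  classical
  ext α β
  have h : sbs (diagonal D) (monomial α.1 1) = monomial α.1 (∏ k, D k ^ α.1 k) := by
    unfold sbs
    rw [aeval_monomial, map_one, one_mul, Finsupp.prod_fintype _ _ fun k => pow_zero _, monomial_eq,
      Finsupp.prod_fintype _ _ fun k => pow_zero _, map_prod, ← Finset.prod_mul_distrib]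
    refine Finset.prod_congr rfl fun k _ => ?_
    rw [Finset.sum_eq_single k (fun l _ hl => by rw [diagonal_apply_ne _ hl, map_zero, zero_mul])
      (fun hk => absurd (Finset.mem_univ k) hk), diagonal_apply_eq, mul_pow, map_pow]
  show coeff β.1 (sbs (diagonal D) (monomial α.1 1)) = _
  rw [h, coeff_monomial, diagonal_apply]
  simp only [Subtype.ext_iff]

theorem symMat_one (m : ℕ) : symMat m (1 : Matrix (Fin d) (Fin d) R) = 1 := by
  rw [← diagonal_one, symMat_diagonal]
  simp

/-- the exponent -/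
def symExp (d m : ℕ) (k : Fin d) : ℕ := ∑ α : Mon d m, α.1 k

theorem symExp_eq (d m : ℕ) (k l : Fin d) : symExp d m k = symExp d m l := by
  let σ : Fin d ≃ Fin d := Equiv.swap k l
  let e : Mon d m ≃ Mon d m :=
    { toFun := fun α => Mon.mk (Finsupp.equivMapDomain σ α.1) (by
        simp only [Finsupp.equivMapDomain_apply]
        rw [Equiv.sum_comp σ.symm fun k => α.1 k, α.sum_eq])
      invFun := fun α => Mon.mk (Finsupp.equivMapDomain σ.symm α.1) (by
        simp only [Finsupp.equivMapDomain_apply]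
        rw [Equiv.sum_comp σ.symm.symm fun k => α.1 k, α.sum_eq])
      left_inv := fun α => Subtype.ext (by
        show Finsupp.equivMapDomain σ.symm (Finsupp.equivMapDomain σ α.1) = α.1
        rw [← Finsupp.equivMapDomain_trans, Equiv.self_trans_symm, Finsupp.equivMapDomain_refl])
      right_inv := fun α => Subtype.ext (by
        show Finsupp.equivMapDomain σ (Finsupp.equivMapDomain σ.symm α.1) = α.1
        rw [← Finsupp.equivMapDomain_trans, Equiv.symm_trans_self, Finsupp.equivMapDomain_refl]) }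
  unfold symExp
  refine Fintype.sum_equiv e _ _ fun α => ?_
  show α.1 k = Finsupp.equivMapDomain σ α.1 l
  rw [Finsupp.equivMapDomain_apply]
  congr 1
  exact (Equiv.swap_apply_right k l).symm

theorem sum_symExp (d m : ℕ) : ∑ k, symExp d m k = m * Fintype.card (Mon d m) := by
  unfold symExp
  rw [Finset.sum_comm]
  simp only [Mon.sum_eq, Finset.sum_const, Finset.card_univ, smul_eq_mul]
  exact mul_comm _ _

/-- **The determinant of a symmetric power.** -/
theorem det_symMat (h2 : (2 : R) ≠ 0) (m : ℕ) (k₀ : Fin d) (A : Matrix (Fin d) (Fin d) R) (hA : A.det ≠ 0) :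
    (symMat m A).det = A.det ^ symExp d m k₀ := by
  have hdiag : ∀ D : Fin d → R, (symMat m (diagonal D)).det = (diagonal D).det ^ symExp d m k₀ := by
    intro D
    rw [symMat_diagonal, det_diagonal, det_diagonal, Finset.prod_comm, ← Finset.prod_pow]
    refine Finset.prod_congr rfl fun k _ => ?_
    rw [Finset.prod_pow_eq_pow_sum]
    exact congrArg (fun e => D k ^ e) (symExp_eq d m k k₀)
  have htr : ∀ t : TransvectionStruct (Fin d) R, (symMat m t.toMatrix).det = 1 := by
    intro t
    obtain ⟨i, j, hij, c⟩ := t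
    show (symMat m (transvection i j c)).det = 1
    let D : Fin d → R := fun k => if k = i then 2 else 1
    have hD : ∀ k, D k ≠ 0 := fun k => by
      show (if k = i then (2 : R) else 1) ≠ 0
      split_ifs
      · exact h2
      · exact one_ne_zero
    have h1 : diagonal D * transvection i j c = (transvection i j c * transvection i j c) * diagonal D := by
      rw [transvection_mul_transvection_same _ _ hij]
      ext k l
      rw [diagonal_mul, mul_diagonal, transvection, transvection, Matrix.add_apply, Matrix.add_apply, Matrix.one_apply]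
      show (if k = i then (2 : R) else 1) * _ = _ * (if l = i then (2 : R) else 1)
      rw [Matrix.single_apply, Matrix.single_apply]
      by_cases hk : k = i
      · subst hk
        by_cases hl : l = k
        · subst hl
          rw [if_neg fun h : l = l ∧ j = l => hij h.2.symm, if_neg fun h : l = l ∧ j = l => hij h.2.symm]
          simp
        · by_cases hj : j = l
          · subst hj
            simp [hl, Ne.symm hl]
            ring
          · rw [if_neg fun h : k = k ∧ j = l => hj h.2, if_neg fun h : k = k ∧ j = l => hj h.2]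
            simp [Ne.symm hl]
      · rw [if_neg fun h : i = k ∧ j = l => hk h.1.symm, if_neg fun h : i = k ∧ j = l => hk h.1.symm]
        by_cases hkl : k = l
        · subst hkl
          simp [hk]
        · simp [hkl]
    have h4 := congrArg (fun M => (symMat m M).det) h1
    simp only [symMat_mul, det_mul] at h4
    have h5 : (symMat m (diagonal D)).det ≠ 0 := by
      rw [hdiag, det_diagonal]
      exact pow_ne_zero _ (Finset.prod_ne_zero_iff.2 fun k _ => hD k)
    have h6 : (symMat m (transvection i j c)).det ≠ 0 := by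
      intro h
      have h7 : transvection i j (-c) * transvection i j c = 1 := by
        rw [transvection_mul_transvection_same _ _ hij, neg_add_cancel, transvection_zero]
      have h8 := congrArg (fun M => (symMat m M).det) h7
      simp only [symMat_mul, det_mul, symMat_one, det_one, h, zero_mul] at h8
      exact zero_ne_one h8
    have h7 : (symMat m (transvection i j c)).det * ((symMat m (diagonal D)).det * (symMat m (transvection i j c)).det) =
        1 * ((symMat m (diagonal D)).det * (symMat m (transvection i j c)).det) := by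
      rw [one_mul]
      linear_combination -h4
    exact mul_right_cancel₀ (mul_ne_zero h5 h6) h7
  refine diagonal_transvection_induction_of_det_ne_zero (fun A => (symMat m A).det = A.det ^ symExp d m k₀) A hA (fun D _ => hdiag D)
    (fun t => ?_) fun A B _ _ h3 h4 => ?_
  · show (symMat m t.toMatrix).det = t.toMatrix.det ^ symExp d m k₀
    rw [htr, TransvectionStruct.det, one_pow]
  · show (symMat m (A * B)).det = (A * B).det ^ symExp d m k₀
    rw [symMat_mul, det_mul, det_mul, mul_pow, h3, h4, mul_comm]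

theorem exists_weight {d M : ℕ} (hd : 1 ≤ d) (hM : 1 ≤ M) : ∃ a, 1 ≤ a ∧ IsWeight d M a := by
  let k₀ : Fin d := ⟨0, hd⟩
  have ha : d * symExp d M k₀ = M * Fintype.card (Mon d M) := by
    rw [← sum_symExp, Finset.sum_congr rfl fun k _ => symExp_eq d M k k₀, Finset.sum_const, Finset.card_univ, Fintype.card_fin,
      smul_eq_mul]
  refine ⟨symExp d M k₀, ?_, fun F _ _ g hg p hp => ?_⟩
  · have h1 : 0 < Fintype.card (Mon d M) := by
      rw [Fintype.card_pos_iff]
      refine ⟨Mon.mk (Finsupp.single k₀ M) ?_⟩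
      rw [← Finsupp.degree_eq_sum, Finsupp.degree_single]
    rcases Nat.eq_zero_or_pos (symExp d M k₀) with h | h
    · rw [h, mul_zero] at ha
      exact absurd ha (Nat.mul_pos hM h1).ne
    · exact h
  · have h1 : (Matrix.of fun α β : Mon d M => coeff β.1 (sbs g (p α))) = (Matrix.of fun α β : Mon d M => coeff β.1 (p α)) * symMat M g := by
      ext α β
      rw [Matrix.mul_apply]
      exact coeff_sbs g (hp α) β
    have h2 := congrArg Matrix.det h1
    rw [det_mul, det_symMat two_ne_zero M k₀ g hg, mul_comm] at h2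
    unfold cdet
    convert h2

end Pool.Agent.GB

end
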