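import Mathlib

/-! The parts of this file: H23.Defs, H36.BP.Defs, H92.GGL.AnnJensen, H62.FC.NevDefs, H62.FC.Nev0. -/

section

/-!
# K-semistability of Fano varieties over the complex numbers: definitions

Smooth projective varieties with ample anticanonical divisor, pluri-anticanonical sections,
prime divisors over a variety, log discrepancies, the invariant `S`, and the valuative criterion
of Fujita and Li.
-/

open AlgebraicGeometry CategoryTheory MeasureTheory Filter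
open scoped ENNReal

noncomputable section

namespace Pool.Agent.H23

/-! ## Birational algebra in a function field -/

section FunctionField

variable (K : Type) [Field K] [Algebra ℂ K] (n : ℕ)

/-- Rational `n`-forms of the function field `K` over `ℂ`: the `K`-vector space `⋀ⁿ Ω_{K/ℂ}`. -/
abbrev RatForm : Type := ⋀[K]^n Ω[K⁄ℂ]

variable {K}

/-- The regular `n`-forms of a `ℂ`-subalgebra `A` of `K`, that is the image of
`⋀ⁿ Ω_{A/ℂ}` in `⋀ⁿ Ω_{K/ℂ}`: all finite sums of forms `c da₁ ∧ ⋯ ∧ daₙ` with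
`c, a₁, …, aₙ ∈ A`. -/
def regularForms (A : Subalgebra ℂ K) : AddSubgroup (RatForm K n) :=
  AddSubgroup.closure {ω | ∃ (c : K) (a : Fin n → K), c ∈ A ∧ (∀ i, a i ∈ A) ∧
    ω = c • exteriorPower.ιMulti K n (fun i => KaehlerDifferential.D ℂ K (a i))}

variable {ι : Type} (O : ι → Subalgebra ℂ K)

/-- Let `O x`, `x : ι`, be the local rings of a smooth variety `X` of dimension `n` with function
field `K`. A rational section of `-m K_X` is a function `φ` on rational `n`-forms with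
`φ (g • ω) = g ^ m * φ ω`; it is regular at `x` if it takes the regular `n`-forms at `x` to
`O x`. This is the space `H⁰(X, -m K_X)` of everywhere regular sections. -/
def antiSections (m : ℕ) : Submodule ℂ (RatForm K n → K) where
  carrier := {φ | (∀ (g : K) (ω : RatForm K n), φ (g • ω) = g ^ m * φ ω) ∧
    ∀ x, ∀ ω ∈ regularForms n (O x), φ ω ∈ O x}
  add_mem' := by
    rintro φ ψ ⟨h1, h2⟩ ⟨h3, h4⟩
    refine ⟨fun g ω => ?_, fun x ω hω => ?_⟩
    · simp only [Pi.add_apply, h1, h3, mul_add]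
    · exact (O x).add_mem (h2 x ω hω) (h4 x ω hω)
  zero_mem' := ⟨fun g ω => by simp, fun x ω _ => (O x).zero_mem⟩
  smul_mem' := by
    rintro c φ ⟨h1, h2⟩
    refine ⟨fun g ω => ?_, fun x ω hω => ?_⟩
    · simp only [Pi.smul_apply, h1, mul_smul_comm]
    · exact (O x).smul_mem (h2 x ω hω) c

/-- The valuation ring of a valuation which is trivial on `ℂ`. -/
def valRing (v : AddValuation K (WithTop ℤ)) (hv : ∀ c : ℂ, 0 ≤ v (algebraMap ℂ K c)) :
    Subalgebra ℂ K where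
  carrier := {f | 0 ≤ v f}
  mul_mem' := fun {a b} ha hb => by
    simp only [Set.mem_ofPred_eq, AddValuation.map_mul] at *
    exact add_nonneg ha hb
  add_mem' := fun {a b} ha hb => by
    simp only [Set.mem_ofPred_eq] at *
    exact le_trans (le_min ha hb) (v.map_add a b)
  algebraMap_mem' := hv

variable (K) in
/-- A prime divisor over a variety of dimension `n` with function field `K`, given by its order
function: a discrete valuation of `K`, normalised to have value group `ℤ`, trivial on `ℂ`, whose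
residue field has transcendence degree `n - 1` over `ℂ` (that is, there are `n - 1` elements of
the valuation ring whose residue classes are algebraically independent over `ℂ`). -/
structure PrimeDivisorOver where
  /-- the order of vanishing along the divisor -/
  ord : AddValuation K (WithTop ℤ)
  ord_const : ∀ c : ℂ, 0 ≤ ord (algebraMap ℂ K c)
  exists_uniformizer : ∃ t : K, ord t = 1
  residue_trdeg : ∃ s : Fin (n - 1) → K, (∀ i, 0 ≤ ord (s i)) ∧
    ∀ p : MvPolynomial (Fin (n - 1)) ℂ, p ≠ 0 → ord (MvPolynomial.aeval s p) = 0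

variable {n}

/-- The local ring of the generic point of a prime divisor over `X`. -/
def PrimeDivisorOver.localRing (E : PrimeDivisorOver K n) : Subalgebra ℂ K :=
  valRing E.ord E.ord_const

variable (n)

end FunctionField

/-! ## Varieties -/

section Scheme

variable {X : Scheme.{0}} (s : X ⟶ Spec (.of ℂ)) [IsIntegral X]

/-- The function field of a complex variety is a `ℂ`-algebra. -/
@[reducible]
def functionFieldAlgebra : Algebra ℂ X.functionField :=
  RingHom.toAlgebra ((Scheme.ΓSpecIso (.of ℂ)).inv ≫ s.appTop ≫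
    X.presheaf.germ ⊤ (genericPoint X) (TopologicalSpace.Opens.mem_top _)).hom

/-- The local ring of a complex variety at a point, as a subalgebra of the function field. -/
def localRingAt (x : X) :
    letI := functionFieldAlgebra s
    Subalgebra ℂ X.functionField :=
  letI := functionFieldAlgebra s
  { (algebraMap (X.presheaf.stalk x) X.functionField).range with
    algebraMap_mem' := fun c => by
      refine ⟨((Scheme.ΓSpecIso (.of ℂ)).inv ≫ s.appTop ≫
        X.presheaf.germ ⊤ x (TopologicalSpace.Opens.mem_top _)).hom c, ?_⟩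
      change (((Scheme.ΓSpecIso (.of ℂ)).inv ≫ s.appTop ≫
        X.presheaf.germ ⊤ x (TopologicalSpace.Opens.mem_top _)) ≫
          X.presheaf.stalkSpecializes ((genericPoint_spec X).specializes trivial)).hom c =
        ((Scheme.ΓSpecIso (.of ℂ)).inv ≫ s.appTop ≫
          X.presheaf.germ ⊤ (genericPoint X) (TopologicalSpace.Opens.mem_top _)).hom c
      rw [Category.assoc, Category.assoc, X.presheaf.germ_stalkSpecializes] }

/-- `-K_X` is ample: every point of `X` has an open affine neighbourhood of the form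
`X_φ = {y | φ generates the sheaf of sections of -m K_X at y}` with `m ≥ 1` and
`φ ∈ H⁰(X, -m K_X)`. -/
def AntiAmple (n : ℕ) : Prop :=
  letI := functionFieldAlgebra s
  ∀ x : X, ∃ m : ℕ, 1 ≤ m ∧ ∃ φ ∈ antiSections n (localRingAt s) m, ∃ U : X.Opens,
    IsAffineOpen U ∧ x ∈ U ∧ ∀ y : X, y ∈ U ↔
      ∃ ω ∈ regularForms n (localRingAt s y), φ ω ≠ 0 ∧ (φ ω)⁻¹ ∈ localRingAt s y

end Scheme

/-- A Fano variety of dimension `n` over `ℂ`: a smooth projective variety of dimension `n` with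
ample anticanonical divisor. -/
structure FanoVariety (n : ℕ) where
  /-- the underlying scheme -/
  X : Scheme.{0}
  /-- the structure morphism -/
  str : X ⟶ Spec (.of ℂ)
  [integral : IsIntegral X]
  proper : IsProper str
  smooth : SmoothOfRelativeDimension n str
  ample : AntiAmple str n


end Pool.Agent.H23

end
end

section

/-!
# Project BP (MP_64ff02_ag): definitions for the function theory half

`Sub u z₀ c`: `u z₀ > 0` and `log u` has Laplacian at least `4 c` at `z₀` in the sense of lower supports: for every `c' < c` there is a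
holomorphic `h` near `z₀` with `|h z₀| = u z₀` and `|h z| exp(c' |z - z₀|²) ≤ u z` near `z₀`.

The ambient space is `E = EN N = ℂ^(N+1)` with the Euclidean norm.  `wd x v = |x ∧ v|`, `fs x v = |x ∧ v|/|x|²` is the Fubini-Study length
of the vector `v` at `[x]`.  A subset of projective space is described by its cone `K` (without `0`).  `mt G F z = G (F z) (F' z)`.
-/

set_option autoImplicit false

namespace Pool.Agent.H36.BP

open Filter Topology

/-- `ℂ^(N+1)` with the Euclidean norm -/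
abbrev EN (N : ℕ) : Type := EuclideanSpace ℂ (Fin (N + 1))

/-- lower support of exponent `c` at `z₀` -/
def Sub (u : ℂ → ℝ) (z₀ : ℂ) (c : ℝ) : Prop :=
  0 < u z₀ ∧ ∀ c' : ℝ, c' < c → ∃ h : ℂ → ℂ, AnalyticAt ℂ h z₀ ∧ ‖h z₀‖ = u z₀ ∧
    ∀ᶠ z in 𝓝 z₀, ‖h z‖ * Real.exp (c' * ‖z - z₀‖ ^ 2) ≤ u z

variable {N : ℕ}

/-- `|x ∧ v|` -/
noncomputable def wd (x v : EN N) : ℝ := Real.sqrt (‖x‖ ^ 2 * ‖v‖ ^ 2 - ‖inner ℂ x v‖ ^ 2)

/-- the Fubini-Study length of `v` at `x` -/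
noncomputable def fs (x v : EN N) : ℝ := wd x v / ‖x‖ ^ 2

/-- `F` is a holomorphic curve in the cone `K` over the set `U` -/
def Curve (K : Set (EN N)) (U : Set ℂ) (F : ℂ → EN N) : Prop :=
  DifferentiableOn ℂ F U ∧ ∀ z ∈ U, F z ∈ K

/-- the length of `F'` -/
noncomputable def mt (G : EN N → EN N → ℝ) (F : ℂ → EN N) (z : ℂ) : ℝ := G (F z) (deriv F z)

/-- the properties of the metric `G` on the cone `K` (of a projective surface, or of the complement of a curve in it) with exceptional cone `B`;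
`ρ` measures the distance to `B`.  `rel_open`, `hur`, `lim` are automatic if `K` is closed, see `Cl.lean`; `hur` follows from Hurwitz' theorem if `K` is the
set of points of a closed cone where a homogeneous polynomial does not vanish (`ClP.lean`). -/
structure MetricData (K B : Set (EN N)) (G : EN N → EN N → ℝ) (ρ : EN N → ℝ) (M : ℕ) (c₀ C : ℝ) : Prop where
  ne : ∀ x ∈ K, x ≠ 0
  smul : ∀ x ∈ K, ∀ c : ℂ, c ≠ 0 → c • x ∈ K
  c₀_pos : 0 < c₀
  C_nonneg : 0 ≤ C
  nonneg : ∀ x ∈ K, ∀ v, 0 ≤ G x v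
  usc : ∀ x ∈ K, ∀ v, ∀ a : ℝ, G x v < a → ∀ᶠ p in 𝓝 (x, v), p.1 ∈ K → G p.1 p.2 < a
  inv : ∀ x ∈ K, ∀ v (c a : ℂ), c ≠ 0 → G (c • x) (c • v + a • x) = G x v
  hom : ∀ x ∈ K, ∀ v (c : ℂ), G x (c • v) = ‖c‖ * G x v
  zero : ∀ (F : ℂ → EN N) (z₀ : ℂ), AnalyticAt ℂ F z₀ → (∀ᶠ z in 𝓝 z₀, F z ∈ K ∧ F z ∈ B) → mt G F z₀ = 0
  sub : ∀ (F : ℂ → EN N) (z₀ : ℂ), AnalyticAt ℂ F z₀ → (∀ᶠ z in 𝓝 z₀, F z ∈ K) → 0 < mt G F z₀ →
    Sub (fun z => mt G F z * ‖F z‖ ^ (-c₀)) z₀ (-(C * mt G F z₀ ^ 2))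
  ρ_nonneg : ∀ x ∈ K, 0 ≤ ρ x
  lower : ∀ x ∈ K, ∀ v, ρ x ^ M * fs x v ≤ G x v
  ρ_zero : ∀ (F : ℂ → EN N) (z₀ : ℂ), AnalyticAt ℂ F z₀ → (∀ᶠ z in 𝓝 z₀, F z ∈ K) →
    (∃ᶠ z in 𝓝[≠] z₀, ρ (F z) = 0) → ∀ᶠ z in 𝓝 z₀, F z ∈ B
  rel_open : ∀ x ∈ K, ∀ᶠ y in 𝓝 x, y ∈ closure K → y ∈ K
  hur : ∀ (l : Filter ℕ), l.NeBot → ∀ (F : ℕ → ℂ → EN N) (H : ℂ → EN N) (k : ℕ) (z₀ : ℂ) (s : ℝ), 0 < s →
    (∀ᶠ n in l, Curve K (Metric.ball z₀ s) (F n)) → DifferentiableOn ℂ H (Metric.ball z₀ s) →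
    TendstoLocallyUniformlyOn F (fun z => (z - z₀) ^ k • H z) l (Metric.ball z₀ s) → H z₀ ≠ 0 → H z₀ ∉ K → ∀ᶠ z in 𝓝 z₀, H z ∉ K
  lim : ∀ (l : Filter ℕ), l.NeBot → ∀ (F : ℕ → ℂ → EN N) (H : ℂ → EN N) (z₀ : ℂ) (s : ℝ), 0 < s →
    (∀ᶠ n in l, Curve K (Metric.ball z₀ s) (F n)) → TendstoLocallyUniformlyOn F H l (Metric.ball z₀ s) → H z₀ ≠ 0 →
    (∀ z ∈ Metric.ball z₀ s, H z ∉ K) → ∀ ε : ℝ, 0 < ε → ∀ᶠ n in l, mt G (F n) z₀ < ε

/-- every entire curve in `K` which is not constant as a map into projective space lies in `B` -/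
def BrodyMod (K B : Set (EN N)) : Prop :=
  ∀ F : ℂ → EN N, Differentiable ℂ F → (∀ z, F z ∈ K) → (∃ z w, ∀ c : ℂ, F z ≠ c • F w) → ∀ z, F z ∈ B

end Pool.Agent.H36.BP

end

section

/-!
# Jensen's formula on a punctured disc
-/

open Complex MeasureTheory Metric Set Topology Filter

namespace Pool.Agent.H92.GGL

/-- The order of a meromorphic function as an integer. -/
noncomputable def ordZ (u : ℂ → ℂ) (s : ℂ) : ℤ := (meromorphicOrderAt u s).untop₀

lemma ordZ_cast {u : ℂ → ℂ} {s : ℂ} (h : meromorphicOrderAt u s ≠ ⊤) :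
    (ordZ u s : WithTop ℤ) = meromorphicOrderAt u s := by
  unfold ordZ
  exact WithTop.coe_untop₀_of_ne_top h

/-- There are finitely many zeros and poles in an annulus. -/
lemma finite_ordZ {u : ℂ → ℂ} {R₀ a b : ℝ} (ha : 0 < a) (hb : b < R₀)
    (hu : ∀ z, 0 < ‖z‖ → ‖z‖ < R₀ → MeromorphicAt u z) :
    {s : ℂ | a ≤ ‖s‖ ∧ ‖s‖ ≤ b ∧ ordZ u s ≠ 0}.Finite := by
  set K : Set ℂ := {s : ℂ | a ≤ ‖s‖ ∧ ‖s‖ ≤ b} with hK
  have hKc : IsCompact K := by
    refine (isCompact_closedBall (0 : ℂ) b).of_isClosed_subset ?_ ?_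
    · exact (isClosed_le continuous_const continuous_norm).inter
        (isClosed_le continuous_norm continuous_const)
    · intro s hs
      rw [mem_closedBall_zero_iff]
      exact hs.2
  have hm : MeromorphicOn u K := fun z hz => hu z (ha.trans_le hz.1) (hz.2.trans_lt hb)
  refine ((MeromorphicOn.divisor u K).finiteSupport hKc).subset ?_
  rintro s ⟨h1, h2, h3⟩
  rw [Function.mem_support, MeromorphicOn.divisor_apply hm ⟨h1, h2⟩]
  exact h3

end Pool.Agent.H92.GGL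

end

section

/-!
# Nevanlinna theory at a puncture: definitions

Circle means and counting functions near the puncture `0`, with the variable `x = log (1 / r)`.
-/

open Filter Topology MeasureTheory
open Pool.Agent.H92.GGL (ordZ)

noncomputable section

namespace Pool.Agent.H62.FC

/-- `u` is meromorphic and not identically zero on the punctured disc of radius `R₀`. -/
structure MeroPunct (R₀ : ℝ) (u : ℂ → ℂ) : Prop where
  mero : ∀ z, 0 < ‖z‖ → ‖z‖ < R₀ → MeromorphicAt u z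
  ord : ∀ z, 0 < ‖z‖ → ‖z‖ < R₀ → meromorphicOrderAt u z ≠ ⊤

/-- The weighted counting function of the annulus `r < ‖s‖ < R₁`. -/
def cnt (w : ℂ → ℝ) (R₁ r : ℝ) : ℝ :=
  ∑ᶠ s ∈ {s : ℂ | r < ‖s‖ ∧ ‖s‖ < R₁}, w s * Real.log (‖s‖ / r)

/-- The weight `w` has locally finite support in the punctured disc of radius `R₀`. -/
def LocFin (R₀ : ℝ) (w : ℂ → ℝ) : Prop :=
  ∀ r b : ℝ, 0 < r → b < R₀ → {s : ℂ | r ≤ ‖s‖ ∧ ‖s‖ ≤ b ∧ w s ≠ 0}.Finite

/-- The mean on the circle of radius `exp (-x)`. -/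
def mean (g : ℂ → ℝ) (x : ℝ) : ℝ := Real.circleAverage g 0 (Real.exp (-x))

/-- The characteristic function near the puncture. -/
def nevT (u : ℂ → ℂ) (R₁ x : ℝ) : ℝ :=
  mean (fun z => Real.posLog ‖u z‖) x + cnt (fun s => max (-(ordZ u s : ℝ)) 0) R₁ (Real.exp (-x))

/-- `S` is negligible with respect to `T`, outside a set of finite measure. -/
def Negl (R₁ : ℝ) (T S : ℝ → ℝ) : Prop :=
  ∀ ε : ℝ, 0 < ε → ∃ (C : ℝ) (E : Set ℝ), volume E ≠ ⊤ ∧
    ∀ x, Real.exp (-x) < R₁ → x ∉ E → S x ≤ ε * T x + C * (1 + |x|)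

/-- The Wronskian. -/
def wronsk {n : ℕ} (u : Fin n → ℂ → ℂ) (z : ℂ) : ℂ :=
  (Matrix.of fun i j : Fin n => iteratedDeriv i (u j) z).det

/-- `f` is, up to a discrete set, meromorphic at `0`. -/
def PunctMero (f : ℂ → ℂ) : Prop :=
  ∃ v : ℂ → ℂ, MeromorphicAt v 0 ∧ ∀ᶠ z in 𝓝[≠] (0 : ℂ), f =ᶠ[𝓝[≠] z] v

end Pool.Agent.H62.FC

end
end

section

/-!
# Nevanlinna theory at a puncture: counting functions and the first main theorem
-/

noncomputable section

namespace Pool.Agent.H62.FC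

open Filter Topology MeasureTheory
open Pool.Agent.H92.GGL (ordZ finite_ordZ)

variable {R₀ R₁ : ℝ}

theorem cnt_eq_sum {w : ℂ → ℝ} {r : ℝ} {T : Finset ℂ}
    (hT : ∀ s, r < ‖s‖ → ‖s‖ < R₁ → w s ≠ 0 → s ∈ T) (hr : 0 < r) :
    cnt w R₁ r = ∑ s ∈ T with r < ‖s‖ ∧ ‖s‖ < R₁, w s * Real.log (‖s‖ / r) := by
  unfold cnt
  apply finsum_mem_eq_sum_of_inter_support_eq
  ext s
  simp only [Set.mem_inter_iff, Set.mem_ofPred_eq, Finset.coe_filter, Function.mem_support]
  constructor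
  · rintro ⟨⟨h1, h2⟩, h3⟩
    exact ⟨⟨hT s h1 h2 (fun h => h3 (by rw [h, zero_mul])), h1, h2⟩, h3⟩
  · rintro ⟨⟨_, h1, h2⟩, h3⟩
    exact ⟨⟨h1, h2⟩, h3⟩

theorem Nev0_exists {w : ℂ → ℝ} (h : R₁ < R₀) (hw : LocFin R₀ w) {r : ℝ} (hr : 0 < r) :
    ∃ T : Finset ℂ, ∀ s, r < ‖s‖ → ‖s‖ < R₁ → w s ≠ 0 → s ∈ T :=
  ⟨(hw r R₁ hr h).toFinset, fun _ h1 h2 h3 => (hw r R₁ hr h).mem_toFinset.mpr ⟨h1.le, h2.le, h3⟩⟩

/-- change of the outer radius -/
theorem cnt_radius {w : ℂ → ℝ} {R₂ : ℝ} (h1 : 0 < R₁) (h12 : R₁ ≤ R₂) (h : R₂ < R₀)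
    (hw : LocFin R₀ w) :
    ∃ C : ℝ, ∀ x, Real.exp (-x) < R₁ →
      |cnt w R₂ (Real.exp (-x)) - cnt w R₁ (Real.exp (-x))| ≤ C * (1 + |x|) := by
  classical
  set T₀ : Finset ℂ := (hw R₁ R₂ h1 h).toFinset with hT₀
  refine ⟨∑ s ∈ T₀, |w s| * (|Real.log ‖s‖| + 1), fun x hx => ?_⟩
  have hr : 0 < Real.exp (-x) := Real.exp_pos _
  obtain ⟨T', hT'⟩ := Nev0_exists h hw hr
  set T : Finset ℂ := T' ∪ T₀ with hTdef
  have hT : ∀ s, Real.exp (-x) < ‖s‖ → ‖s‖ < R₂ → w s ≠ 0 → s ∈ T :=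
    fun s h3 h4 h5 => Finset.mem_union_left _ (hT' s h3 h4 h5)
  rw [cnt_eq_sum hT hr, cnt_eq_sum (R₁ := R₁) (T := T)
    (fun s h3 h4 h5 => hT s h3 (h4.trans_le h12) h5) hr, Finset.sum_filter, Finset.sum_filter,
    ← Finset.sum_sub_distrib]
  refine (Finset.abs_sum_le_sum_abs _ _).trans ?_
  have hsub : T₀ ⊆ T := Finset.subset_union_right
  have hz : ∀ s ∈ T, s ∉ T₀ →
      |(if Real.exp (-x) < ‖s‖ ∧ ‖s‖ < R₂ then w s * Real.log (‖s‖ / Real.exp (-x)) else 0) -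
        (if Real.exp (-x) < ‖s‖ ∧ ‖s‖ < R₁ then w s * Real.log (‖s‖ / Real.exp (-x)) else 0)| =
        0 := by
    intro s _ hs
    by_cases hws : w s = 0
    · simp [hws]
    by_cases hs1 : ‖s‖ < R₁
    · have hs2 : ‖s‖ < R₂ := hs1.trans_le h12
      simp [hs1, hs2]
    · by_cases hs2 : ‖s‖ < R₂
      · exact absurd ((hw R₁ R₂ h1 h).mem_toFinset.mpr ⟨not_lt.mp hs1, hs2.le, hws⟩) hs
      · simp [hs1, hs2]
  rw [← Finset.sum_subset hsub hz, Finset.sum_mul]
  refine Finset.sum_le_sum fun s hs => ?_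
  obtain ⟨hs1, hs2, hs3⟩ := (hw R₁ R₂ h1 h).mem_toFinset.mp hs
  have hs0 : 0 < ‖s‖ := h1.trans_le hs1
  have hb : |w s * Real.log (‖s‖ / Real.exp (-x))| ≤
      |w s| * (|Real.log ‖s‖| + 1) * (1 + |x|) := by
    rw [Real.log_div hs0.ne' hr.ne', Real.log_exp, sub_neg_eq_add, abs_mul, mul_assoc]
    refine mul_le_mul_of_nonneg_left ((abs_add_le _ _).trans ?_) (abs_nonneg _)
    have h4 := abs_nonneg (Real.log ‖s‖)
    have h5 := abs_nonneg x
    nlinarith [mul_nonneg h4 h5]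
  have hnn : 0 ≤ |w s| * (|Real.log ‖s‖| + 1) * (1 + |x|) := by positivity
  have hns : ¬ (Real.exp (-x) < ‖s‖ ∧ ‖s‖ < R₁) := fun h6 => not_lt.mpr hs1 h6.2
  rw [if_neg hns, sub_zero]
  split_ifs with h6
  · exact hb
  · rw [abs_zero]
    exact hnn

theorem MeroPunct.locFin {u : ℂ → ℂ} (hu : MeroPunct R₀ u) : LocFin R₀ (fun s => (ordZ u s : ℝ)) := by
  intro r b hr hb
  refine (finite_ordZ hr hb hu.mero).subset ?_
  rintro s ⟨h1, h2, h3⟩
  exact ⟨h1, h2, fun h => h3 (by change ((ordZ u s : ℤ) : ℝ) = 0; rw [h]; simp)⟩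

theorem Nev0_mem {u : ℂ → ℂ} (hu : MeroPunct R₀ u) {x : ℝ} (hx : Real.exp (-x) < R₀) :
    MeromorphicOn u (Metric.sphere 0 |Real.exp (-x)|) := by
  intro z hz
  rw [mem_sphere_zero_iff_norm, abs_of_pos (Real.exp_pos _)] at hz
  exact hu.mero z (by rw [hz]; exact Real.exp_pos _) (by rw [hz]; exact hx)

theorem MeroPunct.circleIntegrable_log {u : ℂ → ℂ} (hu : MeroPunct R₀ u) {x : ℝ}
    (hx : Real.exp (-x) < R₀) : CircleIntegrable (fun z => Real.log ‖u z‖) 0 (Real.exp (-x)) :=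
  (Nev0_mem hu hx).circleIntegrable_log_norm

end Pool.Agent.H62.FC

end
end
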