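import Mathlib

/-! The parts of this file: G3.C.Ode, H17.LinePoly, H23.Omega. -/

section

/-!
# G3 C Ode: real solutions of holomorphic differential equations extend to complex time

Let `V` be holomorphic and bounded by `M` on `ball (s₁, y₁) R ⊆ ℂ × ℂ^n` (sup norm).
`ode_hol`: PICARD ITERATION on the complex disc.  By the Cauchy estimates `V` is `K`-Lipschitz in `y` on `ball (s₁, y₁) (R / 2)` with `K = K (R, M, n)` (or: use the
Schwarz-type bound `Complex.norm_deriv_le_of_forall_mem_sphere_norm_le` on complex lines, or `dist_le_mul_dist_of_mapsTo_ball`).  `ε = min (R / 2) (R / (4 (M + 1))) …` with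
`K ε ≤ 1 / 2`.  For a holomorphic `Y : ball s₁ ε → closedBall y₁ (R / 4)` let `T Y` be the primitive of `s ↦ V (s, Y s)` on the ball with value `y₁` at `s₁`
(`DifferentiableOn.isExactOn_ball` or `Complex.IsExactOn`; mean value inequality `Convex.norm_image_sub_le_of_norm_hasDerivWithin_le` for the bounds).  The iterates
`Y_0 = y₁`, `Y_{m+1} = T Y_m` satisfy `‖Y_{m+1} - Y_m‖ ≤ 2^(-m) R` on the ball, so they converge uniformly to a holomorphic `Y` (`TendstoLocallyUniformlyOn.differentiableOn`,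
derivatives converge: `TendstoLocallyUniformlyOn.deriv`), and `Y' = V (s, Y)`.
`ode_real`: `ε` as in `ode_hol` (made smaller such that `M ε ≤ R / 4`); the restriction of `Y` to the real interval and `y` solve the same real differential equation with the
same value at `s₁`, and both stay in `ball y₁ (R / 2)` for `|s - s₁| < ε` (for `y`: `ODE_solution_unique_of_mem_Ioo` or a Gronwall / continuity argument: the set of `t < ε` such that
`Y = y` on `[s₁ - t, s₁ + t]` is open and closed; where `Y = y` the value lies in `ball y₁ (R / 2)`, a neighbourhood in which `V` is Lipschitz in `y`).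
-/

set_option autoImplicit false

open Topology Filter Metric

namespace Pool.Agent.G3.C

private theorem ode_comp {n : ℕ} {f : ℂ → Fin n → ℂ} {f' : Fin n → ℂ} {t : ℝ} (h : HasDerivAt f f' (t : ℂ)) :
    HasDerivAt (fun t : ℝ => f (t : ℂ)) f' t := by
  have h1 : HasDerivAt (fun t : ℝ => (t : ℂ)) 1 t := Complex.ofRealCLM.hasDerivAt
  have h2 := HasDerivAt.scomp (g₁ := f) (h := fun t : ℝ => (t : ℂ)) t h h1
  rw [one_smul] at h2
  exact h2

/-- Lipschitz bound in `y` -/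
private theorem ode_lip {n : ℕ} {R M : ℝ} (hR : 0 < R) (V : ℂ × (Fin n → ℂ) → Fin n → ℂ) (s₁ : ℂ) (y₁ : Fin n → ℂ)
    (hV : DifferentiableOn ℂ V (ball (s₁, y₁) R)) (hM : ∀ q ∈ ball (s₁, y₁) R, ‖V q‖ ≤ M) {s : ℂ} (hs : s ∈ ball s₁ R)
    {y y' : Fin n → ℂ} (hy : y ∈ ball y₁ (R / 2)) (hy' : y' ∈ ball y₁ (R / 2)) :
    ‖V (s, y') - V (s, y)‖ ≤ 4 * M / R * ‖y' - y‖ := by
  rcases eq_or_ne y' y with rfl | hne
  · simp
  have hv : 0 < ‖y' - y‖ := norm_pos_iff.2 (sub_ne_zero.2 hne)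
  -- the points of the segment
  have hseg : ∀ t ∈ Set.Icc (0 : ℝ) 1, y + (t : ℂ) • (y' - y) ∈ ball y₁ (R / 2) := by
    intro t ht
    have h := (convex_ball y₁ (R / 2)).add_smul_sub_mem hy hy' ht
    have e : (t : ℂ) • (y' - y) = t • (y' - y) := by
      funext i
      simp
    rw [e]
    exact h
  have hmem : ∀ t ∈ Set.Icc (0 : ℝ) 1, ∀ τ : ℂ, ‖τ‖ ≤ R / (4 * ‖y' - y‖) →
      (s, y + ((t : ℂ) + τ) • (y' - y)) ∈ ball (s₁, y₁) R := by
    intro t ht τ hτ
    rw [← ball_prod_same]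
    refine ⟨hs, ?_⟩
    have h1 := hseg t ht
    rw [mem_ball, dist_eq_norm] at h1 ⊢
    show ‖y + ((t : ℂ) + τ) • (y' - y) - y₁‖ < R
    have e : y + ((t : ℂ) + τ) • (y' - y) - y₁ = (y + (t : ℂ) • (y' - y) - y₁) + τ • (y' - y) := by
      rw [add_smul]
      abel
    rw [e]
    have h2 : ‖τ • (y' - y)‖ ≤ R / 4 := by
      rw [norm_smul]
      calc ‖τ‖ * ‖y' - y‖ ≤ R / (4 * ‖y' - y‖) * ‖y' - y‖ := by gcongr
        _ = R / 4 := by field_simp
    calc ‖(y + (t : ℂ) • (y' - y) - y₁) + τ • (y' - y)‖ ≤ ‖y + (t : ℂ) • (y' - y) - y₁‖ + ‖τ • (y' - y)‖ := norm_add_le _ _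
      _ < R := by linarith
  have hρ : 0 < R / (4 * ‖y' - y‖) := by positivity
  -- the complex line
  obtain ⟨G, hG⟩ : ∃ G : ℂ → Fin n → ℂ, G = fun τ => V (s, y + τ • (y' - y)) := ⟨_, rfl⟩
  have hGd : ∀ t ∈ Set.Icc (0 : ℝ) 1, ∀ τ : ℂ, ‖τ‖ ≤ R / (4 * ‖y' - y‖) → DifferentiableAt ℂ G ((t : ℂ) + τ) := by
    intro t ht τ hτ
    rw [hG]
    have h1 : DifferentiableAt ℂ V (s, y + ((t : ℂ) + τ) • (y' - y)) :=
      hV.differentiableAt (isOpen_ball.mem_nhds (hmem t ht τ hτ))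
    refine DifferentiableAt.comp (g := V) (f := fun τ : ℂ => (s, y + τ • (y' - y))) ((t : ℂ) + τ) h1 ?_
    exact (differentiableAt_const s).prodMk ((differentiableAt_const y).add (differentiableAt_id.smul_const _))
  have hGM : ∀ t ∈ Set.Icc (0 : ℝ) 1, ∀ τ : ℂ, ‖τ‖ ≤ R / (4 * ‖y' - y‖) → ‖G ((t : ℂ) + τ)‖ ≤ M := by
    intro t ht τ hτ
    rw [hG]
    exact hM _ (hmem t ht τ hτ)
  have hder : ∀ t ∈ Set.Icc (0 : ℝ) 1, ‖deriv G (t : ℂ)‖ ≤ 4 * M / R * ‖y' - y‖ := by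
    intro t ht
    have h := Complex.norm_deriv_le_of_forall_mem_sphere_norm_le (f := G) (c := (t : ℂ)) (C := M) hρ
      (DifferentiableOn.diffContOnCl (by
        intro z hz
        have hz' := closure_ball_subset_closedBall hz
        rw [mem_closedBall, dist_eq_norm] at hz'
        have := hGd t ht (z - t) hz'
        rw [add_sub_cancel] at this
        exact this.differentiableWithinAt))
      (by
        intro z hz
        rw [mem_sphere, dist_eq_norm] at hz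
        have := hGM t ht (z - t) hz.le
        rwa [add_sub_cancel] at this)
    refine h.trans (le_of_eq ?_)
    field_simp
  have key := norm_image_sub_le_of_norm_deriv_le_segment_01' (f := fun t : ℝ => G (t : ℂ)) (f' := fun t : ℝ => deriv G (t : ℂ))
    (C := 4 * M / R * ‖y' - y‖)
    (fun t ht => by
      have h0 := hGd t ht 0 (by rw [norm_zero]; exact hρ.le)
      rw [add_zero] at h0
      exact (ode_comp h0.hasDerivAt).hasDerivWithinAt)
    (fun t ht => hder t ⟨ht.1, ht.2.le⟩)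
  have e1 : G ((1 : ℝ) : ℂ) = V (s, y') := by
    rw [hG]
    simp
  have e0 : G ((0 : ℝ) : ℂ) = V (s, y) := by
    rw [hG]
    simp
  rw [e1, e0] at key
  exact key

/-- the functions of the iteration -/
private def OdeS {n : ℕ} (s₁ : ℂ) (y₁ : Fin n → ℂ) (ε R : ℝ) : Type :=
  {Y : ℂ → Fin n → ℂ // Y s₁ = y₁ ∧ (∀ s ∈ ball s₁ ε, ‖Y s - y₁‖ ≤ R / 8) ∧ DifferentiableOn ℂ Y (ball s₁ ε)}

private theorem ode_hol' {n : ℕ} {R M ε : ℝ} (hR : 0 < R) (hM : 0 < M) (hε : 0 < ε) (hεR : ε ≤ R) (hεM : M * ε ≤ R / 8)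
    (V : ℂ × (Fin n → ℂ) → Fin n → ℂ) (s₁ : ℂ) (y₁ : Fin n → ℂ) (hV : DifferentiableOn ℂ V (ball (s₁, y₁) R))
    (hVM : ∀ q ∈ ball (s₁, y₁) R, ‖V q‖ ≤ M) :
    ∃ Y : ℂ → Fin n → ℂ, Y s₁ = y₁ ∧ ∀ s ∈ ball s₁ ε, Y s ∈ ball y₁ (R / 2) ∧ HasDerivAt Y (V (s, Y s)) s := by
  have hs₁ : s₁ ∈ ball s₁ ε := mem_ball_self hε
  have hsub : ∀ s ∈ ball s₁ ε, s ∈ ball s₁ R := fun s hs => ball_subset_ball hεR hs
  have hin : ∀ {s : ℂ} {y : Fin n → ℂ}, s ∈ ball s₁ ε → ‖y - y₁‖ ≤ R / 8 → (s, y) ∈ ball (s₁, y₁) R := by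
    intro s y hs hy
    rw [← ball_prod_same]
    refine ⟨hsub s hs, ?_⟩
    rw [mem_ball, dist_eq_norm]
    show ‖y - y₁‖ < R
    linarith
  have hin2 : ∀ {y : Fin n → ℂ}, ‖y - y₁‖ ≤ R / 8 → y ∈ ball y₁ (R / 2) := by
    intro y hy
    rw [mem_ball, dist_eq_norm]
    linarith
  -- mean value inequality on the ball
  have hmv : ∀ (f f' : ℂ → Fin n → ℂ) (C : ℝ), (∀ s ∈ ball s₁ ε, HasDerivAt f (f' s) s) → (∀ s ∈ ball s₁ ε, ‖f' s‖ ≤ C) →
      ∀ s ∈ ball s₁ ε, ‖f s - f s₁‖ ≤ C * ε := by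
    intro f f' C hf hC s hs
    have hC0 : 0 ≤ C := (norm_nonneg _).trans (hC s₁ hs₁)
    have h := (convex_ball s₁ ε).norm_image_sub_le_of_norm_hasDerivWithin_le (𝕜 := ℂ) (f := f) (f' := f')
      (fun x hx => (hf x hx).hasDerivWithinAt) hC hs₁ hs
    rw [mem_ball, dist_eq_norm] at hs
    exact h.trans (mul_le_mul_of_nonneg_left hs.le hC0)
  -- the step
  have hstep : ∀ Y : OdeS s₁ y₁ ε R, ∃ Y' : OdeS s₁ y₁ ε R, ∀ s ∈ ball s₁ ε, HasDerivAt Y'.1 (V (s, Y.1 s)) s := by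
    rintro ⟨Y, hY1, hY2, hY3⟩
    have hd : DifferentiableOn ℂ (fun s => V (s, Y s)) (ball s₁ ε) := by
      refine DifferentiableOn.comp (g := V) (f := fun s => (s, Y s)) (t := ball (s₁, y₁) R) hV
        (differentiableOn_id.prodMk hY3) ?_
      intro s hs
      exact hin hs (hY2 s hs)
    obtain ⟨g, hg1, hg⟩ := (hd.isExactOn_ball).with_val_at s₁ y₁
    refine ⟨⟨g, hg1, ?_, fun s hs => (hg s hs).differentiableAt.differentiableWithinAt⟩, hg⟩
    intro s hs
    have h := hmv g _ M hg (fun s hs => hVM _ (hin hs (hY2 s hs))) s hs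
    rw [hg1] at h
    exact h.trans hεM
  choose T hT using hstep
  obtain ⟨Y, hY0⟩ : ∃ Y : ℕ → OdeS s₁ y₁ ε R, ∀ m, Y (m + 1) = T (Y m) := by
    have h0 : (fun _ : ℂ => y₁) s₁ = y₁ ∧ (∀ s ∈ ball s₁ ε, ‖(fun _ : ℂ => y₁) s - y₁‖ ≤ R / 8) ∧
        DifferentiableOn ℂ (fun _ : ℂ => y₁) (ball s₁ ε) := by
      refine ⟨rfl, fun s _ => ?_, differentiableOn_const _⟩
      show ‖y₁ - y₁‖ ≤ R / 8
      rw [sub_self, norm_zero]
      positivity
    exact ⟨fun m => T^[m] ⟨fun _ => y₁, h0⟩, fun m => Function.iterate_succ_apply' T m _⟩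
  have hder : ∀ m, ∀ s ∈ ball s₁ ε, HasDerivAt (Y (m + 1)).1 (V (s, (Y m).1 s)) s := by
    intro m s hs
    rw [hY0]
    exact hT (Y m) s hs
  have hK : 4 * M / R * ε ≤ 1 / 2 := by
    rw [div_mul_eq_mul_div, div_le_iff₀ hR]
    linarith
  -- geometric convergence
  have hgeo : ∀ m, ∀ s ∈ ball s₁ ε, ‖(Y (m + 1)).1 s - (Y m).1 s‖ ≤ R / 4 * (1 / 2) ^ m := by
    intro m
    induction m with
    | zero =>
      intro s hs
      have h1 := (Y 1).2.2.1 s hs
      have h0 := (Y 0).2.2.1 s hs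
      rw [pow_zero, mul_one]
      have e : (Y (0 + 1)).1 s - (Y 0).1 s = ((Y 1).1 s - y₁) - ((Y 0).1 s - y₁) := by abel_nf
      rw [e]
      refine (norm_sub_le _ _).trans ?_
      linarith
    | succ m ih =>
      intro s hs
      have h := hmv (fun s => (Y (m + 1 + 1)).1 s - (Y (m + 1)).1 s)
        (fun s => V (s, (Y (m + 1)).1 s) - V (s, (Y m).1 s)) (4 * M / R * (R / 4 * (1 / 2) ^ m))
        (fun s hs => (hder (m + 1) s hs).sub (hder m s hs))
        (fun s hs => (ode_lip hR V s₁ y₁ hV hVM (hsub s hs) (hin2 ((Y m).2.2.1 s hs))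
          (hin2 ((Y (m + 1)).2.2.1 s hs))).trans (by
            have := ih s hs
            gcongr)) s hs
      have e : (Y (m + 1 + 1)).1 s₁ - (Y (m + 1)).1 s₁ = 0 := by
        rw [(Y (m + 1 + 1)).2.1, (Y (m + 1)).2.1, sub_self]
      simp only [e, sub_zero] at h
      refine h.trans ?_
      have h2 : 0 ≤ R / 4 * (1 / 2 : ℝ) ^ m := by positivity
      calc 4 * M / R * (R / 4 * (1 / 2) ^ m) * ε = (4 * M / R * ε) * (R / 4 * (1 / 2) ^ m) := by ring
        _ ≤ 1 / 2 * (R / 4 * (1 / 2) ^ m) := mul_le_mul_of_nonneg_right hK h2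
        _ = R / 4 * (1 / 2) ^ (m + 1) := by ring
  have hdist : ∀ s ∈ ball s₁ ε, ∀ m, dist ((Y m).1 s) ((Y (m + 1)).1 s) ≤ R / 4 * (1 / 2) ^ m := by
    intro s hs m
    rw [dist_comm, dist_eq_norm]
    exact hgeo m s hs
  have hlim : ∀ s : ℂ, ∃ y : Fin n → ℂ, s ∈ ball s₁ ε → Tendsto (fun m => (Y m).1 s) atTop (𝓝 y) := by
    intro s
    by_cases hs : s ∈ ball s₁ ε
    · obtain ⟨y, hy⟩ := cauchySeq_tendsto_of_complete (cauchySeq_of_le_geometric (1 / 2) (R / 4) (by norm_num) (hdist s hs))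
      exact ⟨y, fun _ => hy⟩
    · exact ⟨0, fun h => absurd h hs⟩
  choose Z hZ using hlim
  have hrate : ∀ s ∈ ball s₁ ε, ∀ m, ‖(Y m).1 s - Z s‖ ≤ R / 2 * (1 / 2) ^ m := by
    intro s hs m
    have h := dist_le_of_le_geometric_of_tendsto (1 / 2) (R / 4) (by norm_num) (hdist s hs) (hZ s hs) m
    rw [dist_eq_norm] at h
    refine h.trans (le_of_eq ?_)
    ring
  have hZb : ∀ s ∈ ball s₁ ε, ‖Z s - y₁‖ ≤ R / 8 := by
    intro s hs
    have h : Tendsto (fun m => ‖(Y m).1 s - y₁‖) atTop (𝓝 ‖Z s - y₁‖) := ((hZ s hs).sub_const y₁).norm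
    exact le_of_tendsto' h fun m => (Y m).2.2.1 s hs
  have hZ1 : Z s₁ = y₁ := by
    have h := hZ s₁ hs₁
    have e : (fun m => (Y m).1 s₁) = fun _ => y₁ := by
      funext m
      exact (Y m).2.1
    rw [e] at h
    exact tendsto_nhds_unique h tendsto_const_nhds
  refine ⟨Z, hZ1, fun s hs => ⟨hin2 (hZb s hs), ?_⟩⟩
  refine hasDerivAt_of_tendstoUniformlyOn (l := atTop) (f := fun m s => (Y (m + 1)).1 s)
    (f' := fun m s => V (s, (Y m).1 s)) (g' := fun s => V (s, Z s)) (s := ball s₁ ε) isOpen_ball ?_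
    (Eventually.of_forall fun m s hs => hder m s hs) (fun s hs => (tendsto_add_atTop_iff_nat 1).2 (hZ s hs)) hs
  rw [Metric.tendstoUniformlyOn_iff]
  intro η hη
  have h0 : Tendsto (fun m : ℕ => 4 * M / R * (R / 2 * (1 / 2 : ℝ) ^ m)) atTop (𝓝 (4 * M / R * (R / 2 * 0))) :=
    ((tendsto_pow_atTop_nhds_zero_of_lt_one (by norm_num) (by norm_num)).const_mul _).const_mul _
  rw [mul_zero, mul_zero] at h0
  filter_upwards [h0.eventually_lt_const hη] with m hm s hs
  rw [dist_eq_norm, norm_sub_rev]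
  refine lt_of_le_of_lt ((ode_lip hR V s₁ y₁ hV hVM (hsub s hs) (hin2 (hZb s hs)) (hin2 ((Y m).2.2.1 s hs))).trans ?_) hm
  have := hrate s hs m
  gcongr

/-- the holomorphic solution of the initial value problem -/
theorem ode_hol {n : ℕ} {R M : ℝ} (hR : 0 < R) (hM : 0 < M) :
    ∃ ε : ℝ, 0 < ε ∧ ε ≤ R ∧ ∀ (V : ℂ × (Fin n → ℂ) → Fin n → ℂ) (s₁ : ℂ) (y₁ : Fin n → ℂ), DifferentiableOn ℂ V (ball (s₁, y₁) R) →
      (∀ q ∈ ball (s₁, y₁) R, ‖V q‖ ≤ M) →
      ∃ Y : ℂ → Fin n → ℂ, Y s₁ = y₁ ∧ ∀ s ∈ ball s₁ ε, Y s ∈ ball y₁ (R / 2) ∧ HasDerivAt Y (V (s, Y s)) s := by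
  have h1 : 0 < R / (8 * M) := by positivity
  refine ⟨min R (R / (8 * M)), lt_min hR h1, min_le_left _ _, fun V s₁ y₁ hV hVM => ?_⟩
  refine ode_hol' hR hM (lt_min hR h1) (min_le_left _ _) ?_ V s₁ y₁ hV hVM
  calc M * min R (R / (8 * M)) ≤ M * (R / (8 * M)) := mul_le_mul_of_nonneg_left (min_le_right _ _) hM.le
    _ = R / 8 := by field_simp

end Pool.Agent.G3.C

end

section

/-!
# Restriction of a polynomial to the lines through a point
-/

open MvPolynomial

namespace Pool.Agent.H17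

variable {σ : Type}

/-- Evaluation of a homogeneous polynomial at a multiple of a vector. -/
lemma eval_smul_of_isHomogeneous {P : MvPolynomial σ ℂ} {d : ℕ} (hP : P.IsHomogeneous d)
    (c : ℂ) (x : σ → ℂ) : eval (fun i => c * x i) P = c ^ d * eval x P := by
  classical
  rw [eval_eq, eval_eq, Finset.mul_sum]
  refine Finset.sum_congr rfl ?_
  intro m hm
  have hdeg : m.degree = d := by
    by_contra hne
    exact (mem_support_iff.mp hm) (hP.coeff_eq_zero hne)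
  have : ∏ i ∈ m.support, (c * x i) ^ m i = c ^ d * ∏ i ∈ m.support, x i ^ m i := by
    simp_rw [mul_pow]
    rw [Finset.prod_mul_distrib, Finset.prod_pow_eq_pow_sum]
    congr 2
  rw [this]
  ring

end Pool.Agent.H17

end

section

set_option linter.style.haveILetI false

noncomputable section

namespace Pool.Agent.H23

open scoped TensorProduct

variable {K : Type*} [Field K] [Algebra ℂ K]

lemma exists_poly_of_basis {σ : Type*} {g : σ → K} (hg : IsTranscendenceBasis ℂ g) (a : K) :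
    ∃ F : Polynomial (MvPolynomial σ ℂ), F ≠ 0 ∧
      F.eval₂ (MvPolynomial.aeval g).toRingHom a = 0 := by
  have h1 := hg.isAlgebraic
  obtain ⟨p, hp, hpa⟩ := h1.isAlgebraic a
  let e : Algebra.adjoin ℂ (Set.range g) →+* MvPolynomial σ ℂ :=
    (hg.1.aevalEquiv.symm : Algebra.adjoin ℂ (Set.range g) →+* MvPolynomial σ ℂ)
  have he : (MvPolynomial.aeval g).toRingHom.comp e =
      algebraMap (Algebra.adjoin ℂ (Set.range g)) K := by
    ext x
    have h2 := hg.1.algebraMap_aevalEquiv (hg.1.aevalEquiv.symm x)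
    rw [AlgEquiv.apply_symm_apply] at h2
    exact h2.symm
  refine ⟨p.map e, ?_, ?_⟩
  · rwa [Ne, Polynomial.map_eq_zero_iff]
    exact hg.1.aevalEquiv.symm.injective
  · rw [Polynomial.eval₂_map, he]
    exact hpa

/-- For a transcendence basis `g` of `K/ℂ`, the differentials `dg i` form a basis of `Ω_{K/ℂ}`. -/
theorem exists_basis_kaehler {σ : Type*} {g : σ → K} (hg : IsTranscendenceBasis ℂ g) :
    ∃ b : Module.Basis σ K Ω[K⁄ℂ], ∀ i, b i = KaehlerDifferential.D ℂ K (g i) := by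
  classical
  letI alg1 : Algebra (MvPolynomial σ ℂ) K := (MvPolynomial.aeval g).toRingHom.toAlgebra
  have hmap : ∀ r, algebraMap (MvPolynomial σ ℂ) K r = MvPolynomial.aeval g r := fun _ => rfl
  haveI : FaithfulSMul (MvPolynomial σ ℂ) K := by
    rw [faithfulSMul_iff_algebraMap_injective]
    exact hg.1
  haveI : IsScalarTower ℂ (MvPolynomial σ ℂ) K := by
    apply IsScalarTower.of_algebraMap_eq
    intro c
    rw [hmap, MvPolynomial.algebraMap_eq, MvPolynomial.aeval_C]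
  letI alg2 : Algebra (FractionRing (MvPolynomial σ ℂ)) K := FractionRing.liftAlgebra _ K
  haveI : IsScalarTower (MvPolynomial σ ℂ) (FractionRing (MvPolynomial σ ℂ)) K :=
    inferInstance
  haveI : Algebra.IsAlgebraic (MvPolynomial σ ℂ) K := by
    refine ⟨fun a => ?_⟩
    obtain ⟨F, h1, h2⟩ := exists_poly_of_basis hg a
    exact ⟨F, h1, h2⟩
  haveI : Algebra.IsAlgebraic (FractionRing (MvPolynomial σ ℂ)) K :=
    (IsFractionRing.comap_isAlgebraic_iff (A := (MvPolynomial σ ℂ))).1 this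
  haveI : CharZero (FractionRing (MvPolynomial σ ℂ)) :=
    algebraRat.charZero _
  haveI : Algebra.IsSeparable (FractionRing (MvPolynomial σ ℂ)) K := inferInstance
  haveI : Algebra.FormallyEtale (MvPolynomial σ ℂ) (FractionRing (MvPolynomial σ ℂ)) :=
    Algebra.FormallyEtale.of_isLocalization (nonZeroDivisors _)
  haveI : Algebra.FormallyEtale (FractionRing (MvPolynomial σ ℂ)) K :=
    Algebra.FormallyEtale.of_isSeparable _ K
  haveI : Algebra.FormallyEtale (MvPolynomial σ ℂ) K :=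
    Algebra.FormallyEtale.comp _ (FractionRing (MvPolynomial σ ℂ)) _
  let e := KaehlerDifferential.tensorKaehlerEquivOfFormallyEtale ℂ (MvPolynomial σ ℂ) K
  let b := ((KaehlerDifferential.mvPolynomialBasis ℂ σ).baseChange K).map e
  refine ⟨b, fun i => ?_⟩
  simp only [b, Module.Basis.map_apply, Module.Basis.baseChange_apply,
    KaehlerDifferential.mvPolynomialBasis_apply]
  rw [KaehlerDifferential.tensorKaehlerEquivOfFormallyEtale_apply]
  rw [KaehlerDifferential.mapBaseChange_tmul, one_smul, KaehlerDifferential.map_D, hmap,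
    MvPolynomial.aeval_X]

end Pool.Agent.H23

end
end
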