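import Pool.Agent.H18.GGT.H17BP.Surf
import Pool.Agent.H18.GGT.M01
import Pool.Agent.H18.GGT.M02

/-! The parts of this file: H17.Projective, H17BP.Germ, H17BP.Model, H17BP.Conv, H17EF.PNDefs_1, H17R.Defs, H17BP.Final, H23.Bridge, H14.PP.Defs, H36.BP.OrdDefs. -/

section

/-!
# Separation of points and charts of projective space
-/

open Topology Filter

namespace Pool.Agent.H17

variable {N : ℕ}

/-- The vector of the `2 × 2` minors. -/
def minors (v w : Fin (N + 1) → ℂ) : Fin (N + 1) × Fin (N + 1) → ℂ :=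
  fun p => v p.1 * w p.2 - v p.2 * w p.1

/-- The separation of two vectors. -/
noncomputable def sepv (v w : Fin (N + 1) → ℂ) : ℝ := ‖minors v w‖ / (‖v‖ * ‖w‖)

/-- The separation of two points of projective space. -/
noncomputable def sep (p q : PN N) : ℝ := sepv p.rep q.rep

lemma minors_smul (a b : ℂ) (v w : Fin (N + 1) → ℂ) :
    minors (a • v) (b • w) = (a * b) • minors v w := by
  funext p
  simp only [minors, Pi.smul_apply, smul_eq_mul]
  ring

lemma sepv_smul {a b : ℂ} (ha : a ≠ 0) (hb : b ≠ 0) (v w : Fin (N + 1) → ℂ) :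
    sepv (a • v) (b • w) = sepv v w := by
  unfold sepv
  rw [minors_smul, norm_smul, norm_smul, norm_smul, norm_mul]
  have h1 := norm_pos_iff.mpr ha
  have h2 := norm_pos_iff.mpr hb
  rw [show ‖a‖ * ‖v‖ * (‖b‖ * ‖w‖) = (‖a‖ * ‖b‖) * (‖v‖ * ‖w‖) by ring]
  rw [mul_div_mul_left _ _ (by positivity)]

lemma exists_smul_rep (v : Fin (N + 1) → ℂ) (hv : v ≠ 0) :
    ∃ a : ℂ, a ≠ 0 ∧ (Projectivization.mk ℂ v hv).rep = a • v := by
  obtain ⟨a, ha⟩ := Projectivization.exists_smul_eq_mk_rep ℂ v hv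
  exact ⟨a, a.ne_zero, by rw [← ha]; rfl⟩

lemma sep_mk (v w : Fin (N + 1) → ℂ) (hv : v ≠ 0) (hw : w ≠ 0) :
    sep (Projectivization.mk ℂ v hv) (Projectivization.mk ℂ w hw) = sepv v w := by
  obtain ⟨a, ha, h1⟩ := exists_smul_rep v hv
  obtain ⟨b, hb, h2⟩ := exists_smul_rep w hw
  unfold sep
  rw [h1, h2, sepv_smul ha hb]

lemma minors_self (v : Fin (N + 1) → ℂ) : minors v v = 0 := by
  funext p
  simp only [minors, Pi.zero_apply]
  ring

/-- Vectors with vanishing minors are proportional. -/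
lemma mk_eq_of_minors {v w : Fin (N + 1) → ℂ} (hv : v ≠ 0) (hw : w ≠ 0) (h : minors v w = 0) :
    Projectivization.mk ℂ v hv = Projectivization.mk ℂ w hw := by
  obtain ⟨i, hi⟩ : ∃ i, w i ≠ 0 := by
    by_contra hcon
    push Not at hcon
    exact hw (funext hcon)
  have hcross : ∀ j, v i * w j = v j * w i := fun j => by
    have := congrFun h (i, j)
    simp only [minors, Pi.zero_apply] at this
    exact sub_eq_zero.mp this
  have hvi : v i ≠ 0 := by
    intro h0
    apply hv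
    funext j
    have h1 := hcross j
    rw [h0, zero_mul] at h1
    exact (mul_eq_zero.mp h1.symm).resolve_right hi
  rw [Projectivization.mk_eq_mk_iff]
  refine ⟨Units.mk0 (v i / w i) (div_ne_zero hvi hi), ?_⟩
  funext j
  change v i / w i * w j = v j
  have h1 := hcross j
  field_simp
  linear_combination h1

lemma eq_of_sepv_eq_zero {v w : Fin (N + 1) → ℂ} (hv : v ≠ 0) (hw : w ≠ 0) (h : sepv v w = 0) :
    Projectivization.mk ℂ v hv = Projectivization.mk ℂ w hw := by
  apply mk_eq_of_minors hv hw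
  unfold sepv at h
  have h1 : ‖v‖ * ‖w‖ ≠ 0 := mul_ne_zero (norm_ne_zero_iff.mpr hv) (norm_ne_zero_iff.mpr hw)
  rcases div_eq_zero_iff.mp h with h2 | h2
  · exact norm_eq_zero.mp h2
  · exact absurd h2 h1

/-- Continuity of the separation. -/
lemma continuousAt_sepv {v w : Fin (N + 1) → ℂ} (hv : v ≠ 0) (hw : w ≠ 0) :
    ContinuousAt (fun p : (Fin (N + 1) → ℂ) × (Fin (N + 1) → ℂ) => sepv p.1 p.2) (v, w) := by
  unfold sepv
  refine ContinuousAt.div ?_ ?_ ?_
  · apply Continuous.continuousAt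
    refine Continuous.norm ?_
    refine continuous_pi fun q => ?_
    unfold minors
    fun_prop
  · fun_prop
  · exact mul_ne_zero (norm_ne_zero_iff.mpr hv) (norm_ne_zero_iff.mpr hw)

/-- The affine coordinates with respect to the `i`-th coordinate hyperplane. -/
noncomputable def chart (i : Fin (N + 1)) (p : PN N) : Fin (N + 1) → ℂ := (p.rep i)⁻¹ • p.rep

/-- Holomorphic maps into projective space are continuous for the separation. -/
lemma tendsto_sep {f : ℂ → PN N} {U : Set ℂ} (hf : HolomorphicInto f U) {z₀ : ℂ} (hz₀ : z₀ ∈ U) :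
    Tendsto (fun p : ℂ × ℂ => sep (f p.1) (f p.2)) (𝓝 (z₀, z₀)) (𝓝 0) := by
  obtain ⟨φ, hφ, he⟩ := hf z₀ hz₀
  obtain ⟨h0, -⟩ := he.self_of_nhds
  have h1 := continuousAt_sepv h0 h0
  have h2 : Tendsto (fun p : ℂ × ℂ => (φ p.1, φ p.2)) (𝓝 (z₀, z₀)) (𝓝 (φ z₀, φ z₀)) := by
    have h3 := hφ.continuousAt
    exact (h3.tendsto.comp (continuous_fst.tendsto' (z₀, z₀) z₀ rfl)).prodMk_nhds
      (h3.tendsto.comp (continuous_snd.tendsto' (z₀, z₀) z₀ rfl))
  have h3 := h1.tendsto.comp h2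
  have h4 : sepv (φ z₀) (φ z₀) = 0 := by
    unfold sepv
    rw [minors_self]
    simp
  simp only [h4] at h3
  refine h3.congr' ?_
  have h5 : ∀ᶠ p : ℂ × ℂ in 𝓝 (z₀, z₀), (∃ h : φ p.1 ≠ 0, f p.1 = Projectivization.mk ℂ (φ p.1) h) ∧
      (∃ h : φ p.2 ≠ 0, f p.2 = Projectivization.mk ℂ (φ p.2) h) := by
    rw [nhds_prod_eq]
    exact (he.prod_mk he)
  filter_upwards [h5] with p hp
  obtain ⟨⟨h6, h7⟩, h8, h9⟩ := hp
  rw [h7, h9, sep_mk]
  rfl

end Pool.Agent.H17

end

section

/-!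
# Germs of analytic functions in two variables: definitions for the resolution theorem

Germs at `0` of analytic functions on `ℂ × ℂ`; local biholomorphic maps, point blow-ups.
-/

open Topology Filter

noncomputable section

namespace Pool.Agent.H17BP

/-- The germ of `θ` at `0` is biholomorphic and fixes `0`. -/
structure Bihol (θ : ℂ × ℂ → ℂ × ℂ) : Prop where
  an : AnalyticAt ℂ θ 0
  zero : θ 0 = 0
  inv : ∃ θ' : ℂ × ℂ → ℂ × ℂ, AnalyticAt ℂ θ' 0 ∧ θ' 0 = 0 ∧ (∀ᶠ x in 𝓝 0, θ' (θ x) = x) ∧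
    ∀ᶠ x in 𝓝 0, θ (θ' x) = x

/-- `S, T` are local coordinates at `0`. -/
def Coord (S T : ℂ × ℂ → ℂ) : Prop := Bihol fun x => (S x, T x)

/-- The germ `g` is a monomial in local coordinates times a unit. -/
def Mono (g : ℂ × ℂ → ℂ) : Prop :=
  ∃ (S T : ℂ × ℂ → ℂ) (a b : ℕ) (u : ℂ × ℂ → ℂ), Coord S T ∧ AnalyticAt ℂ u 0 ∧ u 0 ≠ 0 ∧
    ∀ᶠ x in 𝓝 0, g x = S x ^ a * T x ^ b * u x

/-- The chart of the blow-up of `0` at the point `c` of the exceptional curve. -/
def bl (c : ℂ) (x : ℂ × ℂ) : ℂ × ℂ := (x.1, x.1 * (c + x.2))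

/-- The germs of charts of the blow-up of `0`. -/
def BChart (β : ℂ × ℂ → ℂ × ℂ) : Prop :=
  ∃ θ θ' : ℂ × ℂ → ℂ × ℂ, Bihol θ ∧ Bihol θ' ∧ ∀ᶠ x in 𝓝 0, β x = θ (bl 0 (θ' x))

/-- After at most `n` point blow-ups over every point the germ `g` is a monomial times a unit. -/
def ResN : ℕ → (ℂ × ℂ → ℂ) → Prop
  | 0 => Mono
  | n + 1 => fun g => Mono g ∨ ∀ β, BChart β → ResN n (g ∘ β)

/-! ### simple facts -/

end Pool.Agent.H17BP

end
end

section

/-!
# Holomorphic curves in a closed surface, the induction hypothesis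

Holomorphic maps into `ℙ(V)` are given by functions with values in `V ∖ {0}`, which are not required to be
continuous, see `HolP`.
-/

open Topology Filter

noncomputable section

namespace Pool.Agent.H17BP

variable {V : Type} [NormedAddCommGroup V] [NormedSpace ℂ V]

/-- The two vectors are proportional. -/
def Pr (x y : V) : Prop := ∃ c : ℂ, c ≠ 0 ∧ x = c • y

/-- The function `f` is, near `z₀`, proportional to a holomorphic function without zeros, that is, `f` defines a
holomorphic map to `ℙ(V)`. -/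
def HolP (f : ℂ → V) (z₀ : ℂ) : Prop :=
  ∃ F : ℂ → V, AnalyticAt ℂ F z₀ ∧ F z₀ ≠ 0 ∧ ∀ᶠ z in 𝓝 z₀, Pr (f z) (F z)

/-- The subset `B` of `X` is the set of the common zeros of the forms `Q i` of degree `D`, and near every point
it is the set of the zeros of one of these forms. -/
structure Eqs (X B : Set V) {κ : Type} (Q : κ → V → ℂ) (D : ℕ) : Prop where
  pos : 1 ≤ D
  an : ∀ i x, AnalyticAt ℂ (Q i) x
  smul : ∀ i (c : ℂ) x, Q i (c • x) = c ^ D * Q i x
  mem_iff : ∀ x, x ∈ B ↔ x ∈ X ∧ ∀ i, Q i x = 0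
  gen : ∀ x ∈ X, ∃ i, ∀ᶠ y in 𝓝 x, y ∈ X → Q i y = 0 → y ∈ B

/-- At the point `x` the curve `B` has a local equation which becomes a monomial after at most `n` blow-ups over
every point. -/
def ResAt (X B : Set V) (x : V) (n : ℕ) : Prop :=
  ∃ σ τ g, IsChart X σ τ ∧ σ 0 = x ∧ LocalEq B σ g ∧ ResN n g

end Pool.Agent.H17BP

end
end

section

/-!
# The two sets of definitions agree
-/

open Topology Filter

noncomputable section

namespace Pool.Agent.H17BP

variable {V : Type} [NormedAddCommGroup V] [NormedSpace ℂ V] {X B : Set V}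

theorem Eqs.cone {κ : Type} {Q : κ → V → ℂ} {D : ℕ} (h : Eqs X B Q D)
    (hX : ∀ x ∈ X, ∀ c : ℂ, c ≠ 0 → c • x ∈ X) : ∀ x ∈ B, ∀ c : ℂ, c ≠ 0 → c • x ∈ B := by
  intro x hx c hc
  have h1 := (h.mem_iff x).1 hx
  exact (h.mem_iff _).2 ⟨hX x h1.1 c hc, fun i => by rw [h.smul, h1.2 i, mul_zero]⟩

end Pool.Agent.H17BP

end
end

section

/-!
# EF PNDefs: holomorphic maps from a projective surface to a complex torus
-/

set_option autoImplicit false

open Topology Filter MvPolynomial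

noncomputable section

namespace Pool.Agent.H17EF

open Pool.Agent.H17 (PN VanishesAt HolomorphicInto)

variable {N : ℕ}

/-- The entire curves `f` in `X` with `u (f z) = z` modulo `Λ`. -/
def sections (X : Set (PN N)) (Λ : AddSubgroup ℂ) (u : PN N → ℂ ⧸ Λ) : Set (ℂ → PN N) :=
  {f | HolomorphicInto f Set.univ ∧ (∀ z, f z ∈ X) ∧ ∀ z, u (f z) = (z : ℂ ⧸ Λ)}

end Pool.Agent.H17EF

end
end

section

/-!
# Varieties with a relation between forms: definitions

Locally closed subvarieties of `ℙ^N`, relations between forms on them, and the four properties of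
the Green–Griffiths–Lang conjecture with a given exceptional set.
-/

open MvPolynomial Topology Filter
open Pool.Agent.H17 (PN VanishesAt ZariskiClosedIn HolomorphicInto puncturedDisc)

noncomputable section

namespace Pool.Agent.H17R

variable {N : ℕ}

/-- The points of the zero locus of the homogeneous ideal `P` at which none of the forms `H m`
vanishes. -/
def openVar (P : Ideal (MvPolynomial (Fin (N + 1)) ℂ)) {b : ℕ}
    (H : Fin b → MvPolynomial (Fin (N + 1)) ℂ) : Set (PN N) :=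
  {x | (∀ Q ∈ P, ∀ n, Q.IsHomogeneous n → VanishesAt Q x) ∧ ∀ m, ¬ VanishesAt (H m) x}

/-- The hypersurface `F = 0` in `ℙ^N` is smooth: the form `F` and its partial derivatives have no
common zero. -/
def IsSmooth (F : MvPolynomial (Fin (N + 1)) ℂ) : Prop :=
  ∀ v : Fin (N + 1) → ℂ, v ≠ 0 → eval v F = 0 → ∃ i, eval v (pderiv i F) ≠ 0

end Pool.Agent.H17R

end
end

section

/-!
# From the extension theorem for models to projective surfaces
-/

open Topology Filter MvPolynomial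

noncomputable section

namespace Pool.Agent.H17BP

open Pool.Agent.H17 (PN VanishesAt ZariskiClosedIn HolomorphicInto puncturedDisc)
open Pool.Agent.H17R (openVar)

variable {N : ℕ} {P : Ideal (MvPolynomial (Fin (N + 1)) ℂ)}

/-- The affine cone of the projective variety, without the vertex. -/
def cone (P : Ideal (MvPolynomial (Fin (N + 1)) ℂ)) : Set (Fin (N + 1) → ℂ) :=
  {x | x ≠ 0 ∧ ∀ Q ∈ P, eval x Q = 0}

/-- The projective variety. -/
abbrev variety (P : Ideal (MvPolynomial (Fin (N + 1)) ℂ)) : Set (PN N) :=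
  openVar P (Fin.elim0 : Fin 0 → MvPolynomial (Fin (N + 1)) ℂ)

theorem rep_mk_fin {x : Fin (N + 1) → ℂ} (hx : x ≠ 0) :
    ∃ a : ℂ, a ≠ 0 ∧ (Projectivization.mk ℂ x hx).rep = a • x := by
  obtain ⟨a, ha⟩ := Projectivization.exists_smul_eq_mk_rep ℂ x hx
  exact ⟨a, a.ne_zero, by rw [← ha]; rfl⟩

theorem eval_smul_form {d : ℕ} {Q : MvPolynomial (Fin (N + 1)) ℂ} (hQ : Q.IsHomogeneous d) (c : ℂ)
    (x : Fin (N + 1) → ℂ) : eval (c • x) Q = c ^ d * eval x Q := by
  rw [MvPolynomial.eval_eq', MvPolynomial.eval_eq', Finset.mul_sum]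
  apply Finset.sum_congr rfl
  intro m hm
  have hdeg : ∑ i, m i = d := by
    have := hQ (MvPolynomial.mem_support_iff.1 hm)
    rw [Finsupp.weight_apply] at this
    simpa [Finsupp.sum_fintype] using this
  have h1 : ∏ i, (c • x) i ^ m i = c ^ d * ∏ i, x i ^ m i := by
    rw [← hdeg, ← Finset.prod_pow_eq_pow_sum, ← Finset.prod_mul_distrib]
    exact Finset.prod_congr rfl fun i _ => by simp [mul_pow]
  rw [h1]
  ring

theorem vanishesAt_mk {d : ℕ} {Q : MvPolynomial (Fin (N + 1)) ℂ} (hQ : Q.IsHomogeneous d)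
    {x : Fin (N + 1) → ℂ} (hx : x ≠ 0) : VanishesAt Q (Projectivization.mk ℂ x hx) ↔ eval x Q = 0 := by
  obtain ⟨a, ha, h⟩ := rep_mk_fin hx
  unfold VanishesAt
  rw [h, eval_smul_form hQ, mul_eq_zero]
  exact ⟨fun h => h.resolve_left (pow_ne_zero _ ha), Or.inr⟩

end Pool.Agent.H17BP

end
end

section

/-!
# Comparison of two forms of the definitions

The definitions in `Fano.lean` (with subsets of the function field) agree with those in
`Defs.lean` (with subalgebras of the function field).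
-/

open AlgebraicGeometry CategoryTheory MeasureTheory Filter
open scoped ENNReal

set_option linter.style.haveILetI false

noncomputable section

namespace Pool.Agent.H23

section FunctionField

variable {K : Type} [Field K] [Algebra ℂ K] {n : ℕ} {ι : Type} (O : ι → Subalgebra ℂ K)

variable {O' : ι → Set K} (hO : ∀ x, O' x = (O x : Set K))

include hO

omit hO in
/-- the same prime divisor, in the other form of the definition -/
def ofFano (E : Fano.PrimeDivisorOver K n) : PrimeDivisorOver K n :=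
  ⟨E.ord, E.ord_const, E.exists_uniformizer, E.residue_trdeg⟩

end FunctionField

section Scheme

variable {X : Scheme.{0}} (s : X ⟶ Spec (.of ℂ)) [IsIntegral X]

end Scheme

end Pool.Agent.H23

end
end

section

/-!
# Project BP, metric half: definitions

`X` is the cone (without `0`) over a compact surface in `ℙ^N`, `K ⊆ X` the cone over the complement
of a curve (`K = X` in the compact case), `T` the cone over the total curve: it contains `X \ K`,
and `K ∩ T` is the exceptional set.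
-/

open Topology Filter Metric

namespace Pool.Agent.H14.PP

open Pool.Agent.H36.BP (EN Sub fs wd)

variable {N : ℕ}

/-- `X` is the cone (without the vertex) over a closed subset of projective space. -/
structure IsCone (X : Set (EN N)) : Prop where
  zero_notMem : (0 : EN N) ∉ X
  smul_mem : ∀ x ∈ X, ∀ c : ℂ, c ≠ 0 → c • x ∈ X
  closed : IsClosed (insert 0 X)

/-- `K` is the cone over a relatively open subset. -/
structure IsOpenPart (X K : Set (EN N)) : Prop where
  subset : K ⊆ X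
  smul_mem : ∀ x ∈ K, ∀ c : ℂ, c ≠ 0 → c • x ∈ K
  rel_open : ∀ x ∈ K, ∀ᶠ y in 𝓝 x, y ∈ X → y ∈ K

/-- `F` is a holomorphic curve in `X` near `z₀`. -/
def CurveAt (X : Set (EN N)) (F : ℂ → EN N) (z₀ : ℂ) : Prop :=
  AnalyticAt ℂ F z₀ ∧ ∀ᶠ z in 𝓝 z₀, F z ∈ X

/-- `v` is a tangent vector of `X` at `x`: the derivative of a holomorphic curve in `X`. -/
def Tan (X : Set (EN N)) (x v : EN N) : Prop :=
  ∃ F : ℂ → EN N, CurveAt X F 0 ∧ F 0 = x ∧ deriv F 0 = v

/-- A chart of the surface whose cone is `X`: `σ` is a lift of the inverse of the chart, defined on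
the bidisc of radius `2`, `U` is an open cone, and `q` the chart, a pair of holomorphic functions on
`U` which are invariant under scaling. -/
structure Chart (X : Set (EN N)) where
  /-- the parametrization -/
  σ : ℂ × ℂ → EN N
  /-- the domain -/
  U : Set (EN N)
  /-- the coordinates -/
  q : EN N → ℂ × ℂ
  isOpen_U : IsOpen U
  smul_U : ∀ x ∈ U, ∀ c : ℂ, c ≠ 0 → c • x ∈ U
  σ_an : ∀ p ∈ ball (0 : ℂ × ℂ) 2, AnalyticAt ℂ σ p
  q_an : ∀ x ∈ U, AnalyticAt ℂ q x
  q_smul : ∀ x ∈ U, ∀ c : ℂ, c ≠ 0 → q (c • x) = q x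
  σ_mem : ∀ p ∈ ball (0 : ℂ × ℂ) 2, σ p ∈ X ∧ σ p ∈ U ∧ q (σ p) = p
  surj : ∀ x ∈ X, x ∈ U → q x ∈ ball (0 : ℂ × ℂ) 2 ∧ ∃ c : ℂ, c ≠ 0 ∧ x = c • σ (q x)

/-- A section of `m K (-j)` over the surface whose cone is `K`. -/
structure Form (K : Set (EN N)) (m j : ℕ) where
  /-- the form -/
  toFun : EN N → EN N → EN N → ℂ
  add_smul : ∀ x ∈ K, ∀ v w, Tan K x v → Tan K x w → ∀ a b : ℂ,
    toFun x (v + a • x) (w + b • x) = toFun x v w
  det : ∀ x ∈ K, ∀ v w, Tan K x v → Tan K x w → ∀ a b c d : ℂ,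
    toFun x (a • v + b • w) (c • v + d • w) = (a * d - b * c) ^ m * toFun x v w
  scale : ∀ x ∈ K, ∀ v w, Tan K x v → Tan K x w → ∀ c : ℂ, c ≠ 0 →
    c ^ j * toFun (c • x) (c • v) (c • w) = toFun x v w
  analytic : ∀ (φ : ℂ × ℂ → EN N) (p : ℂ × ℂ), AnalyticAt ℂ φ p → (∀ᶠ y in 𝓝 p, φ y ∈ K) →
    AnalyticAt ℂ (fun y => toFun (φ y) (fderiv ℂ φ y (1, 0)) (fderiv ℂ φ y (0, 1))) p

/-- The function measuring the distance to `T` in a chart. -/
noncomputable def small (nd : Bool) (p : ℂ × ℂ) : ℝ := if nd = true then ‖p.1‖ * ‖p.2‖ else ‖p.1‖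

/-- The Jacobian determinant. -/
noncomputable def jac (τ : ℂ × ℂ → ℂ × ℂ) (p : ℂ × ℂ) : ℂ :=
  (fderiv ℂ τ p (1, 0)).1 * (fderiv ℂ τ p (0, 1)).2 -
    (fderiv ℂ τ p (0, 1)).1 * (fderiv ℂ τ p (1, 0)).2

section metric

variable {W : Type*} [NormedAddCommGroup W] [InnerProductSpace ℂ W]

/-- The size of the equations of `T`. -/
noncomputable def rho (Q : EN N → W) (D : ℕ) (x : EN N) : ℝ := ‖Q x‖ / ‖x‖ ^ D

end metric

end Pool.Agent.H14.PP

end

section

/-!
# BP OrdDefs: entire curves of order at most two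

The characteristic function of an entire curve `f` in `ℙ(V)` is `T_f(r) = inf (-log |F 0|)` over the holomorphic lifts `F` of `f` to the disc of radius `r` (zeros allowed) with
`|F| ≤ 1`.  `OrdTwo f`: `T_f(r) ≤ C (1 + r²)` for all `r > 0`.
-/

set_option autoImplicit false

namespace Pool.Agent.H36.BP

open Metric

/-- `f` is an entire curve in `ℙ(V)` of order at most two and of finite type: `T_f(r) ≤ C₀ (1 + r²)` -/
def OrdTwo {V : Type} [NormedAddCommGroup V] [NormedSpace ℂ V] (f : ℂ → V) : Prop :=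
  ∃ C₀ : ℝ, ∀ r : ℝ, 0 < r → ∃ F : ℂ → V, DifferentiableOn ℂ F (ball 0 r) ∧ (∀ z ∈ ball (0 : ℂ) r, ‖F z‖ ≤ 1) ∧
    Real.exp (-(C₀ * (1 + r ^ 2))) ≤ ‖F 0‖ ∧ ∀ z ∈ ball (0 : ℂ) r, F z = 0 ∨ ∃ c : ℂ, c ≠ 0 ∧ f z = c • F z

/-- every entire curve of order at most two in `K` which is not constant as a map into projective space lies in `B` -/
def BrodyMod2 {N : ℕ} (K B : Set (EN N)) : Prop :=
  ∀ F : ℂ → EN N, Differentiable ℂ F → (∀ z, F z ∈ K) → (∃ z w, ∀ c : ℂ, F z ≠ c • F w) → OrdTwo F → ∀ z, F z ∈ B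

/-- the image under a linear map which does not decrease the norm of the normalised lifts at `0` too much -/
theorem OrdTwo.map {V W : Type} [NormedAddCommGroup V] [NormedSpace ℂ V] [NormedAddCommGroup W] [NormedSpace ℂ W] (L : V →L[ℂ] W) {f : ℂ → V} (h : OrdTwo f)
    {c : ℝ} (hc : 0 < c) (hL : ∀ x, c * ‖x‖ ≤ ‖L x‖) : OrdTwo fun z => L (f z) := by
  obtain ⟨C₀, h⟩ := h
  set M : ℝ := max ‖L‖ 1 with hM
  have hM1 : 1 ≤ M := le_max_right _ _
  have hM0 : 0 < M := lt_of_lt_of_le one_pos hM1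
  refine ⟨max C₀ 0 + |Real.log (c / M)|, fun r hr => ?_⟩
  obtain ⟨F, h1, h2, h3, h4⟩ := h r hr
  have hMc : (M : ℂ) ≠ 0 := by exact_mod_cast hM0.ne'
  refine ⟨fun z => (M : ℂ)⁻¹ • L (F z), ?_, ?_, ?_, ?_⟩
  · exact (L.differentiable.comp_differentiableOn h1).const_smul _
  · intro z hz
    rw [norm_smul, norm_inv, Complex.norm_real, Real.norm_of_nonneg hM0.le, inv_mul_le_iff₀ hM0, mul_one]
    calc ‖L (F z)‖ ≤ ‖L‖ * ‖F z‖ := L.le_opNorm _
      _ ≤ M * 1 := mul_le_mul (le_max_left _ _) (h2 z hz) (norm_nonneg _) hM0.le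
      _ = M := mul_one _
  · rw [norm_smul, norm_inv, Complex.norm_real, Real.norm_of_nonneg hM0.le]
    have hcM : 0 < c / M := div_pos hc hM0
    have h5 : Real.exp (-((max C₀ 0 + |Real.log (c / M)|) * (1 + r ^ 2))) ≤ (c / M) * Real.exp (-(C₀ * (1 + r ^ 2))) := by
      conv_rhs => rw [← Real.exp_log hcM, ← Real.exp_add]
      apply Real.exp_le_exp.mpr
      have h6 : C₀ * (1 + r ^ 2) ≤ max C₀ 0 * (1 + r ^ 2) := mul_le_mul_of_nonneg_right (le_max_left _ _) (by positivity)
      have h7 : |Real.log (c / M)| * 1 ≤ |Real.log (c / M)| * (1 + r ^ 2) := mul_le_mul_of_nonneg_left (by nlinarith [sq_nonneg r]) (abs_nonneg _)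
      have h8 := neg_abs_le (Real.log (c / M))
      nlinarith
    refine h5.trans ?_
    calc c / M * Real.exp (-(C₀ * (1 + r ^ 2))) ≤ c / M * ‖F 0‖ := mul_le_mul_of_nonneg_left h3 hcM.le
      _ = M⁻¹ * (c * ‖F 0‖) := by rw [div_eq_inv_mul]; ring
      _ ≤ M⁻¹ * ‖L (F 0)‖ := mul_le_mul_of_nonneg_left (hL _) (inv_nonneg.mpr hM0.le)
  · intro z hz
    rcases h4 z hz with h5 | ⟨k, hk, h5⟩
    · left
      simp only
      rw [h5, map_zero, smul_zero]
    · right
      refine ⟨k * M, mul_ne_zero hk hMc, ?_⟩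
      simp only
      rw [h5, map_smul, smul_smul, mul_assoc, mul_inv_cancel₀ hMc, mul_one]

end Pool.Agent.H36.BP

end
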