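import Mathlib

/-! The parts of this file: H17.AhlforsGlobal, H17.EntireRing, H17.Weierstrass, H17GT.ModTRANS, H22.W.Pow, H30M.Green, H36.BP.Nodal, H68.KR.HZ, MQ.GDefs, MQ.Green, MQ.Ker. -/

section

/-!
# A vanishing theorem of Ahlfors–Schwarz type

`r i` are entire functions (without identically vanishing ones), `U = ∑ |r i|`, and `V` is the
variance of the logarithmic derivatives `r i' / r i` with weights `|r i| / U`.  If an entire
function `g` satisfies `|g|^2 U^a ≤ C ∏ |r i| V^ρ` with `a > 0`, and `V` is locally bounded, then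
`g = 0`.
-/

open Topology Filter Complex

namespace Pool.Agent.H17

section

variable {ι : Type} [Fintype ι]

/-- Zeros of a nonzero entire function are isolated. -/
lemma eventually_ne_zero_of_entire {f : ℂ → ℂ} (hf : Differentiable ℂ f) (h0 : ∃ z, f z ≠ 0)
    (s : ℂ) : ∀ᶠ z in 𝓝[≠] s, f z ≠ 0 := by
  rcases (hf.analyticAt s).eventually_eq_zero_or_eventually_ne_zero with h | h
  · exfalso
    obtain ⟨z, hz⟩ := h0
    have hana : AnalyticOnNhd ℂ f Set.univ := fun z _ => hf.analyticAt z
    exact hz (hana.eqOn_zero_of_preconnected_of_eventuallyEq_zero isPreconnected_univ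
      (Set.mem_univ s) h (Set.mem_univ z))
  · exact h

end

end Pool.Agent.H17

end

section

/-!
# The ring of entire functions
-/

open Polynomial Topology Filter

namespace Pool.Agent.H17

/-- The algebra of entire functions. -/
def entire : Subalgebra ℂ (ℂ → ℂ) where
  carrier := {f | Differentiable ℂ f}
  mul_mem' hf hg := hf.mul hg
  add_mem' hf hg := hf.add hg
  algebraMap_mem' c := differentiable_const c

/-- Entire functions. -/
abbrev EntFun : Type := ↥entire

namespace EntFun

lemma diff (f : EntFun) : Differentiable ℂ (f : ℂ → ℂ) := f.2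

lemma analyticAt (f : EntFun) (z : ℂ) : AnalyticAt ℂ (f : ℂ → ℂ) z := f.2.analyticAt z

@[ext] lemma ext' {f g : EntFun} (h : ∀ z, (f : ℂ → ℂ) z = (g : ℂ → ℂ) z) : f = g :=
  Subtype.ext (funext h)

lemma ne_zero_iff (f : EntFun) : f ≠ 0 ↔ ∃ z, (f : ℂ → ℂ) z ≠ 0 := by
  constructor
  · intro h
    by_contra h1
    push Not at h1
    exact h (ext' fun z => by simpa using h1 z)
  · rintro ⟨z, hz⟩ rfl
    exact hz rfl

instance : Nontrivial EntFun := ⟨⟨0, 1, fun h => by
  have := congrArg (fun f : EntFun => (f : ℂ → ℂ) 0) h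
  simp at this⟩⟩

instance : NoZeroDivisors EntFun := ⟨by
  intro f g hfg
  by_contra h
  push Not at h
  have h1 := eventually_ne_zero_of_entire f.2 ((ne_zero_iff f).mp h.1) 0
  have h2 := eventually_ne_zero_of_entire g.2 ((ne_zero_iff g).mp h.2) 0
  obtain ⟨z, hz1, hz2⟩ := (h1.and h2).exists
  have h3 : (f * g : EntFun).1 z = 0 := by rw [hfg]; rfl
  have h4 : (f : ℂ → ℂ) z * (g : ℂ → ℂ) z = 0 := h3
  rcases mul_eq_zero.mp h4 with h | h
  · exact hz1 h
  · exact hz2 h⟩

instance : IsDomain EntFun := NoZeroDivisors.to_isDomain _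

/-- Evaluation at a point. -/
def ev (z : ℂ) : EntFun →+* ℂ := (Pi.evalRingHom (fun _ : ℂ => ℂ) z).comp entire.subtype

@[simp] lemma ev_apply (z : ℂ) (f : EntFun) : ev z f = (f : ℂ → ℂ) z := rfl

@[simp] lemma ev_algebraMap (z c : ℂ) : ev z (algebraMap ℂ EntFun c) = c := rfl

@[simp] lemma coe_algebraMap (c z : ℂ) : ((algebraMap ℂ EntFun c : EntFun) : ℂ → ℂ) z = c := rfl

open Differential

/-- The coordinate function centred at `s`. -/
def coord (s : ℂ) : EntFun := ⟨fun z => z - s, by
  change Differentiable ℂ fun z : ℂ => z - s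
  fun_prop⟩

@[simp] lemma coord_apply (s z : ℂ) : ((coord s : EntFun) : ℂ → ℂ) z = z - s := rfl

lemma coord_ne_zero (s : ℂ) : coord s ≠ 0 := (ne_zero_iff _).mpr ⟨s + 1, by simp⟩

/-- Division by the coordinate function. -/
lemma exists_coord_mul {f : EntFun} {s : ℂ} (h : (f : ℂ → ℂ) s = 0) : ∃ g, f = coord s * g := by
  refine ⟨⟨dslope (f : ℂ → ℂ) s, ?_⟩, ?_⟩
  · intro z
    have h1 : DifferentiableOn ℂ (dslope (f : ℂ → ℂ) s) Set.univ :=
      (Complex.differentiableOn_dslope Filter.univ_mem).mpr f.diff.differentiableOn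
    exact (h1 z (Set.mem_univ z)).differentiableAt Filter.univ_mem
  · ext z
    have h2 := sub_smul_dslope (f : ℂ → ℂ) s z
    rw [h, sub_zero, smul_eq_mul] at h2
    exact h2.symm

/-- The order of a nonzero entire function is finite. -/
lemma order_ne_top {f : EntFun} (hf : f ≠ 0) (s : ℂ) : analyticOrderAt (f : ℂ → ℂ) s ≠ ⊤ := by
  intro h
  rw [analyticOrderAt_eq_top] at h
  have h1 := eventually_ne_zero_of_entire f.2 ((ne_zero_iff f).mp hf) s
  obtain ⟨z, hz1, hz2⟩ := ((h.filter_mono nhdsWithin_le_nhds).and h1).exists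
  exact hz2 hz1

lemma order_mul (f g : EntFun) (s : ℂ) : analyticOrderAt ((f * g : EntFun) : ℂ → ℂ) s =
    analyticOrderAt (f : ℂ → ℂ) s + analyticOrderAt (g : ℂ → ℂ) s :=
  analyticOrderAt_mul (f.analyticAt s) (g.analyticAt s)

lemma order_pow (f : EntFun) (n : ℕ) (s : ℂ) : analyticOrderAt ((f ^ n : EntFun) : ℂ → ℂ) s =
    n * analyticOrderAt (f : ℂ → ℂ) s := by
  have h : ((f ^ n : EntFun) : ℂ → ℂ) = (f : ℂ → ℂ) ^ n := rfl
  rw [h, analyticOrderAt_pow (f.analyticAt s), nsmul_eq_mul]

lemma order_prod {ι : Type*} (S : Finset ι) (f : ι → EntFun) (s : ℂ) :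
    analyticOrderAt ((∏ i ∈ S, f i : EntFun) : ℂ → ℂ) s =
      ∑ i ∈ S, analyticOrderAt ((f i : EntFun) : ℂ → ℂ) s := by
  classical
  induction S using Finset.induction_on with
  | empty =>
    rw [Finset.prod_empty, Finset.sum_empty, analyticOrderAt_eq_zero]
    right
    simp
  | insert a S ha ih => rw [Finset.prod_insert ha, Finset.sum_insert ha, order_mul, ih]

lemma order_eq_zero_iff (f : EntFun) (s : ℂ) :
    analyticOrderAt (f : ℂ → ℂ) s = 0 ↔ (f : ℂ → ℂ) s ≠ 0 :=
  (f.analyticAt s).analyticOrderAt_eq_zero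

lemma order_coord (s : ℂ) : analyticOrderAt ((coord s : EntFun) : ℂ → ℂ) s = 1 :=
  analyticOrderAt_id_sub_const_self

end EntFun

open EntFun

end Pool.Agent.H17

end

section

/-!
# Weierstrass' theorem: entire functions with prescribed zeros
-/

open Topology Filter

namespace Pool.Agent.H17

open EntFun

/-- The Taylor polynomial of the logarithm, as an entire function. -/
lemma differentiable_logTaylor (n : ℕ) : Differentiable ℂ (Complex.logTaylor n) := by
  have h : Complex.logTaylor n =
      fun z : ℂ => ∑ j ∈ Finset.range n, (-1 : ℂ) ^ (j + 1) * z ^ j / (j : ℂ) := rfl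
  rw [h]
  fun_prop

/-- `1 - z / s`. -/
noncomputable def linFac (s : ℂ) : EntFun := ⟨fun z => 1 - z / s, by
  change Differentiable ℂ fun z : ℂ => 1 - z / s
  fun_prop⟩

/-- The exponential factor. -/
noncomputable def expFac (m : ℕ) (s : ℂ) : EntFun :=
  ⟨fun z => Complex.exp (-Complex.logTaylor (m + 1) (-(z / s))), by
    change Differentiable ℂ fun z : ℂ => Complex.exp (-Complex.logTaylor (m + 1) (-(z / s)))
    have h := differentiable_logTaylor (m + 1)
    fun_prop⟩

lemma linFac_apply (s z : ℂ) : ((linFac s : EntFun) : ℂ → ℂ) z = 1 - z / s := rfl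

lemma expFac_apply (m : ℕ) (s z : ℂ) : ((expFac m s : EntFun) : ℂ → ℂ) z =
    Complex.exp (-Complex.logTaylor (m + 1) (-(z / s))) := rfl

lemma order_coord_of_ne {s z : ℂ} (h : s ≠ z) :
    analyticOrderAt ((coord s : EntFun) : ℂ → ℂ) z = 0 := by
  rw [order_eq_zero_iff, coord_apply]
  exact sub_ne_zero.mpr h.symm

lemma linFac_eq {s : ℂ} (hs : s ≠ 0) : linFac s = algebraMap ℂ EntFun (-s⁻¹) * coord s := by
  ext z
  have h1 : ((algebraMap ℂ EntFun (-s⁻¹) * coord s : EntFun) : ℂ → ℂ) z = -s⁻¹ * (z - s) := rfl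
  rw [h1, linFac_apply]
  field_simp
  ring

lemma order_algebraMap {c : ℂ} (hc : c ≠ 0) (z : ℂ) :
    analyticOrderAt ((algebraMap ℂ EntFun c : EntFun) : ℂ → ℂ) z = 0 := by
  rw [order_eq_zero_iff, coe_algebraMap]
  exact hc

lemma order_linFac {s : ℂ} (hs : s ≠ 0) (z : ℂ) :
    analyticOrderAt ((linFac s : EntFun) : ℂ → ℂ) z = if s = z then 1 else 0 := by
  rw [linFac_eq hs, order_mul, order_algebraMap (by simpa using hs), zero_add]
  split_ifs with h
  · rw [h, order_coord]
  · exact order_coord_of_ne h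

lemma order_expFac (m : ℕ) (s z : ℂ) :
    analyticOrderAt ((expFac m s : EntFun) : ℂ → ℂ) z = 0 := by
  rw [order_eq_zero_iff, expFac_apply]
  exact Complex.exp_ne_zero _

/-- The elementary estimate. -/
lemma norm_log_sub_logTaylor_le_half {u : ℂ} (hu : ‖u‖ ≤ 1 / 2) (m : ℕ) :
    ‖Complex.log (1 + u) - Complex.logTaylor (m + 1) u‖ ≤ (1 / 2) ^ m := by
  refine (Complex.norm_log_sub_logTaylor_le m (by linarith)).trans ?_
  have h0 := norm_nonneg u
  have h1 : ‖u‖ ^ (m + 1) ≤ (1 / 2) ^ (m + 1) := by gcongr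
  have h2 : (1 - ‖u‖)⁻¹ ≤ 2 := by
    rw [inv_le_comm₀ (by linarith) (by norm_num)]
    linarith
  have h3 : 0 ≤ (1 - ‖u‖)⁻¹ := by
    rw [inv_nonneg]
    linarith
  calc ‖u‖ ^ (m + 1) * (1 - ‖u‖)⁻¹ / (m + 1) ≤ (1 / 2) ^ (m + 1) * 2 / 1 := by
        gcongr
        · have : (0 : ℝ) ≤ m := by positivity
          linarith
    _ = (1 / 2) ^ m := by rw [pow_succ]; ring

section

variable (D : ℂ → ℕ) (hD : ∀ R : ℝ, {z ∈ Metric.closedBall (0 : ℂ) R | D z ≠ 0}.Finite)

open scoped Classical in
/-- The zeros with `k ≤ |s| < k + 1`. -/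
noncomputable def shell (k : ℕ) : Finset ℂ :=
  (hD (k + 1)).toFinset.filter fun s => (k : ℝ) ≤ ‖s‖ ∧ ‖s‖ < k + 1

lemma mem_shell {k : ℕ} {s : ℂ} :
    s ∈ shell D hD k ↔ D s ≠ 0 ∧ (k : ℝ) ≤ ‖s‖ ∧ ‖s‖ < k + 1 := by
  unfold shell
  rw [Finset.mem_filter, Set.Finite.mem_toFinset]
  constructor
  · rintro ⟨h1, h2⟩
    exact ⟨h1.2, h2⟩
  · rintro ⟨h1, h2⟩
    exact ⟨⟨by rw [mem_closedBall_zero_iff]; exact h2.2.le, h1⟩, h2⟩

/-- The number of zeros in a shell. -/
noncomputable def shellCard (k : ℕ) : ℕ := ∑ s ∈ shell D hD k, D s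

/-- The partial product over a shell. -/
noncomputable def shellProd (k : ℕ) : EntFun :=
  if k = 0 then ∏ s ∈ shell D hD k, coord s ^ D s
  else ∏ s ∈ shell D hD k, (linFac s * expFac (k + shellCard D hD k) s) ^ D s

/-- The logarithm of the partial product over a shell. -/
noncomputable def shellLog (k : ℕ) (z : ℂ) : ℂ :=
  ∑ s ∈ shell D hD k, (D s : ℂ) * (Complex.log (1 + -(z / s)) -
    Complex.logTaylor (k + shellCard D hD k + 1) (-(z / s)))

lemma shell_ne_zero {k : ℕ} (hk : k ≠ 0) {s : ℂ} (hs : s ∈ shell D hD k) : s ≠ 0 := by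
  rintro rfl
  have h := ((mem_shell D hD).mp hs).2.1
  rw [norm_zero] at h
  have : (k : ℝ) ≤ 0 := h
  exact hk (by exact_mod_cast le_antisymm (by exact_mod_cast this) (Nat.zero_le k))

lemma norm_div_le_half {k : ℕ} (hk : k ≠ 0) {s : ℂ} (hs : s ∈ shell D hD k) {z : ℂ}
    (hz : ‖z‖ < k / 2) : ‖-(z / s)‖ ≤ 1 / 2 := by
  have h := ((mem_shell D hD).mp hs).2.1
  have hkpos : (0 : ℝ) < k := by positivity
  rw [norm_neg, norm_div, div_le_iff₀ (hkpos.trans_le h)]
  linarith

lemma exp_shellLog {k : ℕ} (hk : k ≠ 0) {z : ℂ} (hz : ‖z‖ < k / 2) :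
    Complex.exp (shellLog D hD k z) = ((shellProd D hD k : EntFun) : ℂ → ℂ) z := by
  unfold shellLog shellProd
  rw [if_neg hk, Complex.exp_sum]
  have h1 : ((∏ s ∈ shell D hD k, (linFac s * expFac (k + shellCard D hD k) s) ^ D s : EntFun) :
      ℂ → ℂ) z = ev z (∏ s ∈ shell D hD k, (linFac s * expFac (k + shellCard D hD k) s) ^ D s) := rfl
  rw [h1, map_prod]
  refine Finset.prod_congr rfl fun s hs => ?_
  rw [map_pow, map_mul, ev_apply, ev_apply, linFac_apply, expFac_apply, Complex.exp_nat_mul,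
    Complex.exp_sub, Complex.exp_log, Complex.exp_neg]
  · rfl
  · have h2 := norm_div_le_half D hD hk hs hz
    intro h3
    have h4 : -(z / s) = -1 := by linear_combination h3
    rw [h4] at h2
    norm_num at h2

lemma norm_shellLog_le {k : ℕ} (hk : k ≠ 0) {z : ℂ} (hz : ‖z‖ < k / 2) :
    ‖shellLog D hD k z‖ ≤ (1 / 2) ^ k := by
  unfold shellLog
  refine (norm_sum_le _ _).trans ?_
  have h1 : ∀ s ∈ shell D hD k, ‖(D s : ℂ) * (Complex.log (1 + -(z / s)) -
      Complex.logTaylor (k + shellCard D hD k + 1) (-(z / s)))‖ ≤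
      D s * (1 / 2) ^ (k + shellCard D hD k) := by
    intro s hs
    rw [norm_mul, Complex.norm_natCast]
    gcongr
    exact norm_log_sub_logTaylor_le_half (norm_div_le_half D hD hk hs hz) _
  refine (Finset.sum_le_sum h1).trans ?_
  rw [← Finset.sum_mul]
  have h2 : (∑ s ∈ shell D hD k, (D s : ℝ)) = (shellCard D hD k : ℝ) := by
    unfold shellCard
    push_cast
    rfl
  rw [h2, pow_add]
  have h3 : (shellCard D hD k : ℝ) ≤ 2 ^ shellCard D hD k := by
    exact_mod_cast Nat.lt_two_pow_self.le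
  have h4 : (shellCard D hD k : ℝ) * (1 / 2) ^ shellCard D hD k ≤ 1 := by
    rw [one_div, inv_pow, ← div_eq_mul_inv, div_le_one (by positivity)]
    exact h3
  calc (shellCard D hD k : ℝ) * ((1 / 2) ^ k * (1 / 2) ^ shellCard D hD k)
      = ((shellCard D hD k : ℝ) * (1 / 2) ^ shellCard D hD k) * (1 / 2) ^ k := by ring
    _ ≤ 1 * (1 / 2) ^ k := by gcongr
    _ = _ := one_mul _

lemma differentiableOn_shellLog {k : ℕ} (hk : k ≠ 0) :
    DifferentiableOn ℂ (shellLog D hD k) (Metric.ball 0 (k / 2)) := by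
  intro z hz
  rw [mem_ball_zero_iff] at hz
  apply DifferentiableAt.differentiableWithinAt
  unfold shellLog
  refine DifferentiableAt.fun_sum fun s hs => ?_
  refine DifferentiableAt.const_mul ?_ _
  have h1 : DifferentiableAt ℂ (fun z : ℂ => 1 + -(z / s)) z := by fun_prop
  have h2 : DifferentiableAt ℂ (fun z : ℂ => -(z / s)) z := by fun_prop
  refine DifferentiableAt.sub ?_ ?_
  · refine h1.clog ?_
    apply Complex.mem_slitPlane_of_norm_lt_one
    have := norm_div_le_half D hD hk hs hz
    linarith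
  · exact (differentiable_logTaylor _ _).comp z h2

/-- The partial products. -/
noncomputable def partProd (K : ℕ) : EntFun := ∏ k ∈ Finset.range K, shellProd D hD k

/-- The remainder. -/
noncomputable def remLog (K : ℕ) (z : ℂ) : ℂ := ∑' k, shellLog D hD (K + k) z

lemma remLog_bound {K : ℕ} (hK : K ≠ 0) (k : ℕ) {z : ℂ} (hz : z ∈ Metric.ball (0 : ℂ) (K / 2)) :
    ‖shellLog D hD (K + k) z‖ ≤ (1 / 2) ^ k := by
  rw [mem_ball_zero_iff] at hz
  refine (norm_shellLog_le D hD (by omega) (hz.trans_le ?_)).trans ?_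
  · push_cast
    have : (0 : ℝ) ≤ k := by positivity
    linarith
  · exact pow_le_pow_of_le_one (by norm_num) (by norm_num) (by omega)

lemma summable_half : Summable fun k : ℕ => (1 / 2 : ℝ) ^ k :=
  summable_geometric_of_lt_one (by norm_num) (by norm_num)

lemma differentiableOn_remLog {K : ℕ} (hK : K ≠ 0) :
    DifferentiableOn ℂ (remLog D hD K) (Metric.ball 0 (K / 2)) := by
  refine Complex.differentiableOn_tsum_of_summable_norm summable_half (fun k => ?_)
    Metric.isOpen_ball (fun k z hz => remLog_bound D hD hK k hz)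
  refine (differentiableOn_shellLog D hD (k := K + k) (by omega)).mono ?_
  apply Metric.ball_subset_ball
  push_cast
  have : (0 : ℝ) ≤ k := by positivity
  linarith

lemma tendsto_partProd {K : ℕ} (hK : K ≠ 0) {z : ℂ} (hz : z ∈ Metric.ball (0 : ℂ) (K / 2)) :
    Tendsto (fun m => ((partProd D hD m : EntFun) : ℂ → ℂ) z) atTop
      (𝓝 (((partProd D hD K : EntFun) : ℂ → ℂ) z * Complex.exp (remLog D hD K z))) := by
  have hsum : Summable fun k => shellLog D hD (K + k) z :=
    Summable.of_norm_bounded summable_half fun k => remLog_bound D hD hK k hz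
  have h1 := hsum.hasSum.tendsto_sum_nat
  have h2 : Tendsto (fun m => ((partProd D hD K : EntFun) : ℂ → ℂ) z *
      Complex.exp (∑ k ∈ Finset.range m, shellLog D hD (K + k) z)) atTop
      (𝓝 (((partProd D hD K : EntFun) : ℂ → ℂ) z * Complex.exp (remLog D hD K z))) :=
    (h1.cexp).const_mul _
  have h3 : ∀ m, ((partProd D hD (m + K) : EntFun) : ℂ → ℂ) z =
      ((partProd D hD K : EntFun) : ℂ → ℂ) z *
      Complex.exp (∑ k ∈ Finset.range m, shellLog D hD (K + k) z) := by
    intro m
    rw [mem_ball_zero_iff] at hz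
    have h4 : partProd D hD (m + K) = partProd D hD K *
        ∏ k ∈ Finset.range m, shellProd D hD (K + k) := by
      unfold partProd
      rw [add_comm m K, Finset.prod_range_add]
    rw [h4, Complex.exp_sum]
    have h5 : ((partProd D hD K * ∏ k ∈ Finset.range m, shellProd D hD (K + k) : EntFun) :
        ℂ → ℂ) z = ((partProd D hD K : EntFun) : ℂ → ℂ) z *
        ev z (∏ k ∈ Finset.range m, shellProd D hD (K + k)) := rfl
    rw [h5, map_prod]
    congr 1
    refine Finset.prod_congr rfl fun k _ => ?_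
    rw [exp_shellLog D hD (by omega)]
    · rfl
    · refine hz.trans_le ?_
      push_cast
      have : (0 : ℝ) ≤ k := by positivity
      linarith
  rw [← tendsto_add_atTop_iff_nat K]
  exact h2.congr fun m => (h3 m).symm

include hD in
/-- **Weierstrass' theorem.** -/
theorem exists_entire_with_orders : ∃ w : EntFun, ∀ z, analyticOrderAt (w : ℂ → ℂ) z = D z := by
  classical
  set Kz : ℂ → ℕ := fun z => ⌈2 * ‖z‖⌉₊ + 1 with hKz
  have hKz0 : ∀ z, Kz z ≠ 0 := fun z => by simp [hKz]
  have hKzball : ∀ z, z ∈ Metric.ball (0 : ℂ) (Kz z / 2) := by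
    intro z
    rw [mem_ball_zero_iff, hKz]
    push_cast
    have := Nat.le_ceil (2 * ‖z‖)
    linarith
  set w : ℂ → ℂ := fun z => ((partProd D hD (Kz z) : EntFun) : ℂ → ℂ) z *
    Complex.exp (remLog D hD (Kz z) z) with hw
  have hweq : ∀ (K : ℕ), K ≠ 0 → ∀ z ∈ Metric.ball (0 : ℂ) (K / 2),
      w z = ((partProd D hD K : EntFun) : ℂ → ℂ) z * Complex.exp (remLog D hD K z) := by
    intro K hK z hz
    exact tendsto_nhds_unique (tendsto_partProd D hD (hKz0 z) (hKzball z))
      (tendsto_partProd D hD hK hz)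
  have hlocal : ∀ z, w =ᶠ[𝓝 z] fun y => ((partProd D hD (Kz z) : EntFun) : ℂ → ℂ) y *
      Complex.exp (remLog D hD (Kz z) y) := by
    intro z
    filter_upwards [Metric.isOpen_ball.mem_nhds (hKzball z)] with y hy
    exact hweq (Kz z) (hKz0 z) y hy
  have hremAn : ∀ z, AnalyticAt ℂ (remLog D hD (Kz z)) z := fun z =>
    (differentiableOn_remLog D hD (hKz0 z)).analyticAt
      (Metric.isOpen_ball.mem_nhds (hKzball z))
  have hexpAn : ∀ z, AnalyticAt ℂ (fun y => Complex.exp (remLog D hD (Kz z) y)) z := fun z =>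
    (hremAn z).cexp
  have hwdiff : Differentiable ℂ w := by
    intro z
    have h1 := (((partProd D hD (Kz z)).analyticAt z).mul (hexpAn z)).differentiableAt
    exact (hlocal z).differentiableAt_iff.mpr h1
  refine ⟨⟨w, hwdiff⟩, fun z => ?_⟩
  change analyticOrderAt w z = D z
  rw [analyticOrderAt_congr (hlocal z)]
  have h1 : analyticOrderAt (fun y => ((partProd D hD (Kz z) : EntFun) : ℂ → ℂ) y *
      Complex.exp (remLog D hD (Kz z) y)) z =
      analyticOrderAt ((partProd D hD (Kz z) : EntFun) : ℂ → ℂ) z +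
        analyticOrderAt (fun y => Complex.exp (remLog D hD (Kz z) y)) z :=
    analyticOrderAt_mul ((partProd D hD (Kz z)).analyticAt z) (hexpAn z)
  have h2 : analyticOrderAt (fun y => Complex.exp (remLog D hD (Kz z) y)) z = 0 := by
    rw [(hexpAn z).analyticOrderAt_eq_zero]
    exact Complex.exp_ne_zero _
  rw [h1, h2, add_zero]
  have h3 : ∀ k, analyticOrderAt ((shellProd D hD k : EntFun) : ℂ → ℂ) z =
      if z ∈ shell D hD k then (D z : ℕ∞) else 0 := by
    intro k
    unfold shellProd
    split_ifs with hk hz hz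
    · rw [order_prod, Finset.sum_eq_single z]
      · rw [order_pow, order_coord, mul_one]
      · intro s _ hs
        rw [order_pow, order_coord_of_ne hs, mul_zero]
      · intro h
        exact absurd hz h
    · rw [order_prod, Finset.sum_eq_zero]
      intro s hs
      rw [order_pow, order_coord_of_ne, mul_zero]
      rintro rfl
      exact hz hs
    · rw [order_prod, Finset.sum_eq_single z]
      · rw [order_pow, order_mul, order_expFac, order_linFac (shell_ne_zero D hD hk hz),
          if_pos rfl, add_zero, mul_one]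
      · intro s hs' hs
        rw [order_pow, order_mul, order_expFac, order_linFac (shell_ne_zero D hD hk hs'),
          if_neg hs, add_zero, mul_zero]
      · intro h
        exact absurd hz h
    · rw [order_prod, Finset.sum_eq_zero]
      intro s hs
      rw [order_pow, order_mul, order_expFac, order_linFac (shell_ne_zero D hD hk hs),
        if_neg, add_zero, mul_zero]
      rintro rfl
      exact hz hs
  unfold partProd
  rw [order_prod, Finset.sum_congr rfl fun k _ => h3 k]
  by_cases hDz : D z = 0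
  · rw [hDz, Finset.sum_eq_zero]
    · rfl
    · intro k _
      rw [if_neg]
      intro h
      exact ((mem_shell D hD).mp h).1 hDz
  · rw [Finset.sum_eq_single ⌊‖z‖⌋₊]
    · rw [if_pos]
      exact (mem_shell D hD).mpr ⟨hDz, Nat.floor_le (norm_nonneg z), Nat.lt_floor_add_one _⟩
    · intro k _ hk
      rw [if_neg]
      intro h
      obtain ⟨-, h1, h2⟩ := (mem_shell D hD).mp h
      apply hk
      exact ((Nat.floor_eq_iff (norm_nonneg z)).mpr ⟨h1, h2⟩).symm
    · intro h
      exfalso
      apply h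
      rw [Finset.mem_range]
      have h5 : ⌊‖z‖⌋₊ ≤ ⌈2 * ‖z‖⌉₊ := by
        refine (Nat.floor_le_ceil _).trans (Nat.ceil_mono ?_)
        have := norm_nonneg z
        linarith
      simp only [hKz]
      omega

end

end Pool.Agent.H17

end

section

/-!
# Generic translations
-/

open MvPolynomial Cardinal

noncomputable section

namespace Pool.Agent.H17GT

variable {K : Type} [Field K] [Algebra ℂ K]

/-- linear substitution -/
def subst {N : ℕ} (h : Matrix (Fin (N + 1)) (Fin (N + 1)) ℂ) (G : MvPolynomial (Fin (N + 1)) ℂ) :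
    MvPolynomial (Fin (N + 1)) ℂ :=
  aeval (fun i => ∑ j, C (h i j) * X j) G

/-! ### Algebraically independent families over a countable subfield -/

/-! ### Substitutions -/

/-! ### Derivations and coefficients -/

/-! ### Smoothness -/

end Pool.Agent.H17GT

end
end

section

/-!
# W Pow: powers of the modulus of a holomorphic function have the sub-mean value property
-/

set_option autoImplicit false

open Topology Filter Metric

namespace Pool.Agent.H22.W

theorem log_le_avg {h : ℂ → ℂ} {c : ℂ} {r : ℝ} (hr : 0 < r) (hh : AnalyticOnNhd ℂ h (closedBall c r)) (h0 : h c ≠ 0) :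
    Real.log ‖h c‖ ≤ Real.circleAverage (fun z => Real.log ‖h z‖) c r := by
  have hr' : |r| = r := abs_of_pos hr
  rw [AnalyticOnNhd.circleAverage_log_norm hr.ne' (by rwa [hr']) h0]
  have h1 : 0 ≤ ∑ᶠ u, MeromorphicOn.divisor h (closedBall c |r|) u * Real.log (r * ‖c - u‖⁻¹) := by
    refine finsum_nonneg fun u => ?_
    rw [hr']
    by_cases hu : u ∈ closedBall c r
    · refine mul_nonneg ?_ ?_
      · have := MeromorphicOn.AnalyticOnNhd.divisor_nonneg hh u
        exact_mod_cast this
      · rcases eq_or_ne u c with rfl | huc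
        · rw [sub_self, norm_zero, inv_zero, mul_zero, Real.log_zero]
        · have h2 : 0 < ‖c - u‖ := norm_pos_iff.2 (sub_ne_zero.2 huc.symm)
          have h3 : ‖c - u‖ ≤ r := by
            rw [← dist_eq_norm, dist_comm]
            exact hu
          apply Real.log_nonneg
          rw [← div_eq_mul_inv, one_le_div h2]
          exact h3
    · have h4 : MeromorphicOn.divisor h (closedBall c r) u = 0 := Function.locallyFinsuppWithin.apply_eq_zero_of_notMem _ hu
      rw [h4, Int.cast_zero, zero_mul]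
  linarith

theorem rpow_le_avg {h : ℂ → ℂ} {c : ℂ} {r p : ℝ} (hr : 0 < r) (hp : 0 < p) (hh : AnalyticOnNhd ℂ h (closedBall c r)) :
    ‖h c‖ ^ p ≤ Real.circleAverage (fun z => ‖h z‖ ^ p) c r := by
  have hr' : |r| = r := abs_of_pos hr
  rcases eq_or_ne (h c) 0 with h0 | h0
  · rw [h0, norm_zero, Real.zero_rpow hp.ne']
    exact Real.circleAverage_nonneg_of_nonneg fun x _ => Real.rpow_nonneg (norm_nonneg _) _
  obtain ⟨a, ha⟩ : ∃ a : ℝ, a = ‖h c‖ := ⟨_, rfl⟩
  have ha0 : 0 < a := by rw [ha]; exact norm_pos_iff.2 h0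
  have hlog := log_le_avg hr hh h0
  obtain ⟨f₂, hf₂⟩ : ∃ f₂ : ℂ → ℝ, f₂ = fun z => (a ^ p * (1 - p * Real.log a)) + (a ^ p * p) * Real.log ‖h z‖ := ⟨_, rfl⟩
  obtain ⟨f₃, hf₃⟩ : ∃ f₃ : ℂ → ℝ, ∀ z, f₃ z = if h z = 0 then 0 else f₂ z := ⟨_, fun _ => rfl⟩
  have hsub : sphere c |r| ⊆ closedBall c r := by
    rw [hr']
    exact sphere_subset_closedBall
  have hci : CircleIntegrable (fun z => Real.log ‖h z‖) c r :=
    (hh.mono hsub).meromorphicOn.circleIntegrable_log_norm
  have hci2 : CircleIntegrable (fun z => (a ^ p * p) * Real.log ‖h z‖) c r := hci.const_mul (a ^ p * p)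
  have hf₂i : CircleIntegrable f₂ c r := by
    rw [hf₂]
    exact (circleIntegrable_const _ _ _).add hci2
  have hco : f₂ =ᶠ[codiscreteWithin (sphere c |r|)] f₃ := by
    have h1 := hh.preimage_zero_mem_codiscreteWithin h0 (mem_closedBall_self hr.le)
      ⟨⟨c, mem_closedBall_self hr.le⟩, (convex_closedBall c r).isPreconnected⟩
    filter_upwards [codiscreteWithin_mono hsub h1] with z hz
    have hz' : h z ≠ 0 := hz
    rw [hf₃, if_neg hz']
  have hf₃i : CircleIntegrable f₃ c r := hf₂i.congr_codiscreteWithin hco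
  have hcont : ContinuousOn (fun z => ‖h z‖ ^ p) (sphere c |r|) := by
    have h1 : ContinuousOn h (sphere c |r|) := hh.continuousOn.mono hsub
    exact h1.norm.rpow_const fun x _ => Or.inr hp.le
  have h1 : Real.circleAverage f₃ c r ≤ Real.circleAverage (fun z => ‖h z‖ ^ p) c r := by
    refine Real.circleAverage_mono hf₃i hcont.circleIntegrable' fun z _ => ?_
    rw [hf₃]
    split_ifs with hz
    · exact Real.rpow_nonneg (norm_nonneg _) _
    · rw [hf₂]
      have hz0 : 0 < ‖h z‖ := norm_pos_iff.2 hz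
      have h2 : ‖h z‖ ^ p = a ^ p * Real.exp (p * (Real.log ‖h z‖ - Real.log a)) := by
        rw [Real.rpow_def_of_pos hz0, Real.rpow_def_of_pos ha0, ← Real.exp_add]
        congr 1
        ring
      have h3 := Real.add_one_le_exp (p * (Real.log ‖h z‖ - Real.log a))
      have h4 : 0 < a ^ p := Real.rpow_pos_of_pos ha0 p
      have h5 := mul_le_mul_of_nonneg_left h3 h4.le
      show (a ^ p * (1 - p * Real.log a)) + (a ^ p * p) * Real.log ‖h z‖ ≤ ‖h z‖ ^ p
      rw [h2]
      refine le_trans (le_of_eq ?_) h5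
      ring
  refine le_trans ?_ h1
  rw [← Real.circleAverage_congr_codiscreteWithin hco hr.ne', hf₂]
  have h2 : Real.circleAverage (fun z => (a ^ p * (1 - p * Real.log a)) + (a ^ p * p) * Real.log ‖h z‖) c r =
      (a ^ p * (1 - p * Real.log a)) + (a ^ p * p) * Real.circleAverage (fun z => Real.log ‖h z‖) c r := by
    rw [Real.circleAverage_fun_add (circleIntegrable_const _ _ _) hci2, Real.circleAverage_const]
    have h3 : (fun z => (a ^ p * p) * Real.log ‖h z‖) = fun z => (a ^ p * p) • (fun z => Real.log ‖h z‖) z := rfl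
    rw [h3, Real.circleAverage_fun_smul, smul_eq_mul]
  rw [h2, ← ha]
  rw [← ha] at hlog
  have h4 : 0 < a ^ p := Real.rpow_pos_of_pos ha0 p
  have h5 := mul_le_mul_of_nonneg_left hlog (by positivity : 0 ≤ a ^ p * p)
  linarith

end Pool.Agent.H22.W

end

section

/-!
# Green's identities for test functions on the complex plane
-/

set_option autoImplicit false

open MeasureTheory Complex Set Filter Topology Laplacian InnerProductSpace

namespace Pool.Agent.H30M

theorem integrable_of_ts {f : ℂ → ℝ} (hf : ∀ z ∈ tsupport f, ContinuousAt f z) (hc : HasCompactSupport f) :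
    Integrable f := by
  have h : Continuous f := by
    rw [continuous_iff_continuousAt]
    intro z
    by_cases hz : z ∈ tsupport f
    · exact hf z hz
    · have h0 : f =ᶠ[𝓝 z] fun _ => 0 := by
        have := (isClosed_tsupport f).isOpen_compl.mem_nhds hz
        filter_upwards [this] with w hw
        exact image_eq_zero_of_notMem_tsupport hw
      exact (continuousAt_const (y := (0 : ℝ))).congr h0.symm
  exact h.integrable_of_hasCompactSupport hc

theorem hcs_of_sub {a f : ℂ → ℝ} (hc : HasCompactSupport a) (h : tsupport f ⊆ tsupport a) : HasCompactSupport f :=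
  IsCompact.of_isClosed_subset hc (isClosed_tsupport f) h

theorem ts_fderiv (a : ℂ → ℝ) (v : ℂ) : tsupport (fun z => fderiv ℝ a z v) ⊆ tsupport a :=
  closure_minimal (fun z hz => by
    apply support_fderiv_subset ℝ (f := a)
    intro h
    exact hz (by simp [h])) (isClosed_tsupport a)

/-- **Integration by parts** in the direction `v`; `b` has only to be `C¹` near the support of `a`. -/
theorem ibp {a b : ℂ → ℝ} (ha : ContDiff ℝ 1 a) (hc : HasCompactSupport a)
    (hb : ∀ z ∈ tsupport a, ContDiffAt ℝ 1 b z) (v : ℂ) :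
    ∫ z, a z * fderiv ℝ b z v = - ∫ z, fderiv ℝ a z v * b z := by
  have ha1 : Continuous fun z => fderiv ℝ a z v := (ha.continuous_fderiv (by norm_num)).clm_apply continuous_const
  apply integral_mul_fderiv_eq_neg_fderiv_mul_of_integrable
  · have hs : tsupport (fun z => fderiv ℝ a z v * b z) ⊆ tsupport a :=
      (tsupport_mul_subset_left (f := fun z => fderiv ℝ a z v) (g := b)).trans (ts_fderiv a v)
    exact integrable_of_ts (fun z hz => ha1.continuousAt.mul (hb z (hs hz)).continuousAt) (hcs_of_sub hc hs)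
  · have hs : tsupport (fun z => a z * fderiv ℝ b z v) ⊆ tsupport a :=
      tsupport_mul_subset_left (f := a) (g := fun z => fderiv ℝ b z v)
    exact integrable_of_ts (fun z hz => ha.continuous.continuousAt.mul
      (((hb z (hs hz)).fderiv_right (m := 0) (by norm_num)).continuousAt.clm_apply continuousAt_const))
      (hcs_of_sub hc hs)
  · have hs : tsupport (fun z => a z * b z) ⊆ tsupport a := tsupport_mul_subset_left (f := a) (g := b)
    exact integrable_of_ts (fun z hz => ha.continuous.continuousAt.mul (hb z (hs hz)).continuousAt)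
      (hcs_of_sub hc hs)
  · exact fun z _ => ha.contDiffAt.differentiableAt (by norm_num)
  · exact fun z hz => (hb z hz).differentiableAt (by norm_num)

/-- The Laplacian of a `C²` function by partial derivatives. -/
theorem lap_eq {u : ℂ → ℝ} {z : ℂ} (hu : ContDiffAt ℝ 2 u z) :
    Δ u z = fderiv ℝ (fun w => fderiv ℝ u w 1) z 1 + fderiv ℝ (fun w => fderiv ℝ u w I) z I := by
  have hd : DifferentiableAt ℝ (fderiv ℝ u) z := (hu.fderiv_right (m := 1) (by norm_num)).differentiableAt (by norm_num)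
  have key : ∀ v : ℂ, fderiv ℝ (fun w => fderiv ℝ u w v) z v = iteratedFDeriv ℝ 2 u z ![v, v] := by
    intro v
    rw [iteratedFDeriv_two_apply]
    rw [fderiv_clm_apply hd (by fun_prop)]
    simp
  rw [laplacian_eq_iteratedFDeriv_complexPlane, key, key]

theorem contDiffAt_d {u : ℂ → ℝ} {z : ℂ} (hu : ContDiffAt ℝ 2 u z) (v : ℂ) :
    ContDiffAt ℝ 1 (fun w => fderiv ℝ u w v) z :=
  (hu.fderiv_right (m := 1) (by norm_num)).clm_apply contDiffAt_const

theorem lap_of_not_ts {a : ℂ → ℝ} {z : ℂ} (hz : z ∉ tsupport a) : Δ a z = 0 := by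
  have h0 : a =ᶠ[𝓝 z] fun _ => 0 := by
    have := (isClosed_tsupport a).isOpen_compl.mem_nhds hz
    filter_upwards [this] with w hw
    exact image_eq_zero_of_notMem_tsupport hw
  rw [laplacian_congr_nhds h0 |>.eq_of_nhds]
  simp [laplacian_const]

theorem ts_lap (a : ℂ → ℝ) : tsupport (Δ a) ⊆ tsupport a :=
  closure_minimal (fun z hz => by
    by_contra h
    exact hz (lap_of_not_ts h)) (isClosed_tsupport a)

/-- **Green's first identity** -/
theorem green1 {a u : ℂ → ℝ} (ha : ContDiff ℝ 1 a) (hc : HasCompactSupport a)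
    (hu : ∀ z ∈ tsupport a, ContDiffAt ℝ 2 u z) :
    ∫ z, a z * Δ u z = - ∫ z, (fderiv ℝ a z 1 * fderiv ℝ u z 1 + fderiv ℝ a z I * fderiv ℝ u z I) := by
  have h1 := ibp ha hc (fun z hz => contDiffAt_d (hu z hz) 1) 1
  have h2 := ibp ha hc (fun z hz => contDiffAt_d (hu z hz) I) I
  have e : ∀ z, a z * Δ u z = a z * fderiv ℝ (fun w => fderiv ℝ u w 1) z 1
      + a z * fderiv ℝ (fun w => fderiv ℝ u w I) z I := by
    intro z
    by_cases hz : z ∈ tsupport a
    · rw [lap_eq (hu z hz)]; ring
    · rw [image_eq_zero_of_notMem_tsupport hz]; ring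
  have i1 : ∀ v : ℂ, Integrable fun z => a z * fderiv ℝ (fun w => fderiv ℝ u w v) z v := by
    intro v
    have hs : tsupport (fun z => a z * fderiv ℝ (fun w => fderiv ℝ u w v) z v) ⊆ tsupport a :=
      tsupport_mul_subset_left (f := a) (g := fun z => fderiv ℝ (fun w => fderiv ℝ u w v) z v)
    refine integrable_of_ts (fun z hz => ha.continuous.continuousAt.mul ?_) (hcs_of_sub hc hs)
    exact (((contDiffAt_d (hu z (hs hz)) v).fderiv_right (m := 0) (by norm_num)).continuousAt.clm_apply
      continuousAt_const)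
  have i2 : ∀ v : ℂ, Integrable fun z => fderiv ℝ a z v * fderiv ℝ u z v := by
    intro v
    have hs : tsupport (fun z => fderiv ℝ a z v * fderiv ℝ u z v) ⊆ tsupport a :=
      (tsupport_mul_subset_left (f := fun z => fderiv ℝ a z v) (g := fun z => fderiv ℝ u z v)).trans (ts_fderiv a v)
    refine integrable_of_ts (fun z hz => ?_) (hcs_of_sub hc hs)
    exact ((ha.continuous_fderiv (by norm_num)).clm_apply continuous_const).continuousAt.mul
      (contDiffAt_d (hu z (hs hz)) v).continuousAt
  rw [integral_congr_ae (Eventually.of_forall e), integral_add (i1 1) (i1 I), h1, h2,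
    integral_add (i2 1) (i2 I)]
  ring

/-- **Green's second identity** -/
theorem green2 {a u : ℂ → ℝ} (ha : ContDiff ℝ 2 a) (hc : HasCompactSupport a)
    (hu : ∀ z ∈ tsupport a, ContDiffAt ℝ 2 u z) :
    ∫ z, a z * Δ u z = ∫ z, Δ a z * u z := by
  rw [green1 (ha.of_le (by norm_num)) hc hu]
  have hu1 : ∀ z ∈ tsupport a, ContDiffAt ℝ 1 u z := fun z hz => (hu z hz).of_le (by norm_num)
  have hd : ∀ v : ℂ, ContDiff ℝ 1 fun z => fderiv ℝ a z v := fun v =>
    (ha.fderiv_right (m := 1) (by norm_num)).clm_apply contDiff_const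
  have h1 : ∀ v : ℂ, ∫ z, fderiv ℝ a z v * fderiv ℝ u z v
      = - ∫ z, fderiv ℝ (fun w => fderiv ℝ a w v) z v * u z := fun v =>
    ibp (hd v) (hcs_of_sub hc (ts_fderiv a v)) (fun z hz => hu1 z (ts_fderiv a v hz)) v
  have e : ∀ z, Δ a z * u z = fderiv ℝ (fun w => fderiv ℝ a w 1) z 1 * u z
      + fderiv ℝ (fun w => fderiv ℝ a w I) z I * u z := by
    intro z
    rw [lap_eq ha.contDiffAt]; ring
  have i1 : ∀ v : ℂ, Integrable fun z => fderiv ℝ (fun w => fderiv ℝ a w v) z v * u z := by
    intro v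
    have hs : tsupport (fun z => fderiv ℝ (fun w => fderiv ℝ a w v) z v * u z) ⊆ tsupport a :=
      (tsupport_mul_subset_left (f := fun z => fderiv ℝ (fun w => fderiv ℝ a w v) z v) (g := u)).trans
        ((ts_fderiv _ v).trans (ts_fderiv a v))
    refine integrable_of_ts (fun z hz => ?_) (hcs_of_sub hc hs)
    exact (((hd v).continuous_fderiv (by norm_num)).clm_apply continuous_const).continuousAt.mul
      (hu1 z (hs hz)).continuousAt
  have i2 : ∀ v : ℂ, Integrable fun z => fderiv ℝ a z v * fderiv ℝ u z v := by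
    intro v
    have hs : tsupport (fun z => fderiv ℝ a z v * fderiv ℝ u z v) ⊆ tsupport a :=
      (tsupport_mul_subset_left (f := fun z => fderiv ℝ a z v) (g := fun z => fderiv ℝ u z v)).trans (ts_fderiv a v)
    refine integrable_of_ts (fun z hz => ?_) (hcs_of_sub hc hs)
    exact (hd v).continuous.continuousAt.mul (contDiffAt_d (hu z (hs hz)) v).continuousAt
  rw [integral_congr_ae (Eventually.of_forall e), integral_add (i1 1) (i1 I), integral_add (i2 1) (i2 I),
    h1, h1]
  ring

end Pool.Agent.H30M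

end

section

/-!
# BP Nodal: the nodal theorem for surfaces in `ℙ(V)`

Transport of the metric theorem and of `picard_cone` along a linear isomorphism `V ≃ EN N`.
-/

set_option autoImplicit false

namespace Pool.Agent.H36.BP

open Filter Topology Metric

variable {V : Type} [NormedAddCommGroup V] [NormedSpace ℂ V] {N : ℕ}

theorem rep_mk {x : V} (hx : x ≠ 0) : ∃ a : ℂ, a ≠ 0 ∧ (Projectivization.mk ℂ x hx).rep = a • x := by
  obtain ⟨a, ha⟩ := Projectivization.exists_smul_eq_mk_rep ℂ x hx
  exact ⟨a, a.ne_zero, by rw [← ha]; rfl⟩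

/-! ### transport of the surface -/

end Pool.Agent.H36.BP

end

section

/-!
# KR HZ: homogenisation with respect to a variable

`hmz l n G = ∑_{d ≤ n} X_l^(n-d) G_d`, `G_d` the homogeneous component.

Proofs.
* `hmz_isHomogeneous`: `X_l^(n-d)` has degree `n - d`, `G_d` degree `d` (`homogeneousComponent_isHomogeneous`,
  `isHomogeneous_X_pow`, `IsHomogeneous.mul`, `IsHomogeneous.sum`).
* `eval₂_of_isHomogeneous`: `Q (c y) = c^d Q (y)`: expand `eval₂_eq`, for every monomial in the support the sum of the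
  exponents is `d` (compare the proof in `Pt.lean`).
* `eval₂_hmz`: for every `d`: `G_d (y) = y_l^d G_d (y / y_l)`, so `y_l^(n-d) G_d (y) = y_l^n G_d (y / y_l)` (`d ≤ n`), and
  `∑_{d ≤ n} G_d = G` (`sum_homogeneousComponent`, the components of degree `> totalDegree` vanish).
-/

set_option autoImplicit false

open MvPolynomial

noncomputable section

namespace Pool.Agent.H68.KR

variable {m : ℕ}

/-- The homogenisation of `G` in degree `n` with respect to the variable `X l`. -/
def hmz (l : Fin m) (n : ℕ) (G : MvPolynomial (Fin m) ℂ) : MvPolynomial (Fin m) ℂ :=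
  ∑ d ∈ Finset.range (n + 1), X l ^ (n - d) * homogeneousComponent d G

theorem hmz_isHomogeneous (l : Fin m) (n : ℕ) (G : MvPolynomial (Fin m) ℂ) :
    (hmz l n G).IsHomogeneous n := by
  unfold hmz
  apply MvPolynomial.IsHomogeneous.sum
  intro d hd
  have h1 : d ≤ n := Nat.lt_succ_iff.1 (Finset.mem_range.1 hd)
  have h2 := (MvPolynomial.isHomogeneous_X_pow (R := ℂ) l (n - d)).mul
    (MvPolynomial.homogeneousComponent_isHomogeneous d G)
  rwa [Nat.sub_add_cancel h1] at h2

/-- Scaling of a homogeneous polynomial. -/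
theorem eval₂_of_isHomogeneous {F : Type} [Field F] (ι : ℂ →+* F) {d : ℕ} {Q : MvPolynomial (Fin m) ℂ}
    (hQ : Q.IsHomogeneous d) (c : F) (y : Fin m → F) :
    eval₂ ι (fun i => c * y i) Q = c ^ d * eval₂ ι y Q := by
  rw [eval₂_eq, eval₂_eq, Finset.mul_sum]
  refine Finset.sum_congr rfl fun m hm => ?_
  have h5 : ∑ i ∈ m.support, m i = d := by
    have := hQ (mem_support_iff.1 hm)
    rw [Finsupp.weight_apply, Finsupp.sum] at this
    simpa using this
  simp only [mul_pow, Finset.prod_mul_distrib]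
  rw [Finset.prod_pow_eq_pow_sum, h5]
  ring

theorem eval₂_hmz {F : Type} [Field F] (ι : ℂ →+* F) {l : Fin m} {n : ℕ} {G : MvPolynomial (Fin m) ℂ}
    (hn : G.totalDegree ≤ n) {y : Fin m → F} (hy : y l ≠ 0) :
    eval₂ ι y (hmz l n G) = y l ^ n * eval₂ ι (fun i => y i / y l) G := by
  have h1 : G = ∑ d ∈ Finset.range (n + 1), homogeneousComponent d G := by
    conv_lhs => rw [← MvPolynomial.sum_homogeneousComponent G]
    apply Finset.sum_subset
    · intro d hd
      rw [Finset.mem_range] at hd ⊢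
      omega
    · intro d _ hd
      apply MvPolynomial.homogeneousComponent_eq_zero
      rw [Finset.mem_range] at hd
      omega
  have h2 : eval₂ ι (fun i => y i / y l) G =
      ∑ d ∈ Finset.range (n + 1), eval₂ ι (fun i => y i / y l) (homogeneousComponent d G) := by
    conv_lhs => rw [h1]
    exact MvPolynomial.eval₂_sum _ _ _ _
  have h3 : eval₂ ι y (hmz l n G) =
      ∑ d ∈ Finset.range (n + 1), eval₂ ι y (X l ^ (n - d) * homogeneousComponent d G) :=
    MvPolynomial.eval₂_sum _ _ _ _
  rw [h2, h3, Finset.mul_sum]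
  refine Finset.sum_congr rfl fun d hd => ?_
  have h4 : d ≤ n := Nat.lt_succ_iff.1 (Finset.mem_range.1 hd)
  have h5 := eval₂_of_isHomogeneous ι (MvPolynomial.homogeneousComponent_isHomogeneous d G) (y l)
    (fun i => y i / y l)
  have h6 : (fun i => y l * (y i / y l)) = y := by
    funext i
    field_simp
  rw [h6] at h5
  rw [eval₂_mul, eval₂_pow, eval₂_X, h5, ← mul_assoc, ← pow_add, Nat.sub_add_cancel h4]

end Pool.Agent.H68.KR

end
end

section

/-!
Real calculus on the complex plane for the project MQ: gradient, divergence, Laplacian,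
integration by parts against compactly supported functions.
-/

namespace Pool.Agent.MQ

open MeasureTheory Complex

/-- Gradient of a real function of a complex variable, as a complex number. -/
noncomputable def gr (u : ℂ → ℝ) (z : ℂ) : ℂ := ⟨fderiv ℝ u z 1, fderiv ℝ u z Complex.I⟩

/-- The real inner product of the plane. -/
def ip (a b : ℂ) : ℝ := a.re * b.re + a.im * b.im

/-- Divergence of a vector field. -/
noncomputable def dv (V : ℂ → ℂ) (z : ℂ) : ℝ :=
  (fderiv ℝ V z 1).re + (fderiv ℝ V z Complex.I).im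

/-- Laplacian. -/
noncomputable def lp (u : ℂ → ℝ) (z : ℂ) : ℝ := dv (gr u) z

lemma ip_self (a : ℂ) : ip a a = ‖a‖ ^ 2 := by
  unfold ip; rw [Complex.sq_norm, Complex.normSq_apply]

@[simp] lemma gr_re (u : ℂ → ℝ) (z : ℂ) : (gr u z).re = fderiv ℝ u z 1 := rfl
@[simp] lemma gr_im (u : ℂ → ℝ) (z : ℂ) : (gr u z).im = fderiv ℝ u z Complex.I := rfl

/-- The gradient as a continuous linear image of the derivative. -/
noncomputable def grL : (ℂ →L[ℝ] ℝ) →L[ℝ] ℂ :=
  LinearMap.toContinuousLinearMap
    { toFun := fun L => (⟨L 1, L Complex.I⟩ : ℂ)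
      map_add' := fun a b => by apply Complex.ext <;> simp
      map_smul' := fun c a => by apply Complex.ext <;> simp }

lemma grL_apply (L : ℂ →L[ℝ] ℝ) : grL L = ⟨L 1, L Complex.I⟩ := rfl

lemma gr_eq (u : ℂ → ℝ) (z : ℂ) : gr u z = grL (fderiv ℝ u z) := rfl

lemma _root_.HasFDerivAt.gr {u : ℂ → ℝ} {z : ℂ} {L : ℂ →L[ℝ] ℝ} (h : HasFDerivAt u L z) :
    gr u z = grL L := by rw [gr_eq, h.fderiv]

lemma dv_congr {V W : ℂ → ℂ} {z : ℂ} (h : V =ᶠ[nhds z] W) : dv V z = dv W z := by
  unfold dv; rw [h.fderiv_eq]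

/-! ### algebra of gradients -/

/-- Chain rule for the gradient. -/
lemma gr_comp {u : ℂ → ℝ} {z : ℂ} {K : ℝ → ℝ} {k : ℝ} (hK : HasDerivAt K k (u z))
    (hu : DifferentiableAt ℝ u z) : gr (fun w => K (u w)) z = (k : ℂ) * gr u z := by
  have h : HasFDerivAt (fun w => K (u w)) (k • fderiv ℝ u z) z :=
    hK.comp_hasFDerivAt z hu.hasFDerivAt
  rw [h.gr]
  apply Complex.ext <;> simp [grL_apply]

/-! ### algebra of divergences -/

end Pool.Agent.MQ

end

section

/-!
Integration by parts against compactly supported functions on the complex plane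
(first and second Green identity), for the project MQ.
-/

namespace Pool.Agent.MQ

open MeasureTheory Complex

/-! ### regularity -/

lemma contDiffAt_gr {u : ℂ → ℝ} {z : ℂ} {m n : WithTop ℕ∞} (hu : ContDiffAt ℝ n u z)
    (hmn : m + 1 ≤ n) : ContDiffAt ℝ m (gr u) z :=
  grL.contDiff.contDiffAt.comp z (hu.fderiv_right hmn)

lemma differentiableAt_gr {u : ℂ → ℝ} {z : ℂ} (hu : ContDiffAt ℝ 2 u z) :
    DifferentiableAt ℝ (gr u) z :=
  (contDiffAt_gr (m := 1) hu (by norm_num)).differentiableAt (by norm_num)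

/-! ### integration by parts -/

end Pool.Agent.MQ

end

section

/-!
# MQ Ker: the Jensen kernel `2 ε² / (|w|² + ε²)²` on `ℂ`: mass `2 π`, approximate identity
-/

set_option autoImplicit false

open MeasureTheory Filter Topology Set

namespace Pool.Agent.MQ

/-! ### Polar coordinates with a logarithmic radius -/

private theorem polar_integrable {f : ℂ → ℝ} (hf : Integrable f) :
    IntegrableOn (fun p : ℝ × ℝ => p.1 * f (Complex.polarCoord.symm p)) (Ioi (0 : ℝ) ×ˢ Ioo (-Real.pi) Real.pi) (volume.prod volume) := by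
  have h1 : Integrable (fun p : ℝ × ℝ => f (Complex.measurableEquivRealProd.symm p)) :=
    (Complex.volume_preserving_equiv_real_prod.symm).integrable_comp_of_integrable hf
  have h2 := (integrableOn_image_iff_integrableOn_abs_det_fderiv_smul (volume : Measure (ℝ × ℝ))
    (s := polarCoord.target) (f := polarCoord.symm) (f' := fderivPolarCoordSymm) polarCoord.open_target.measurableSet
    (fun p _ => (hasFDerivAt_polarCoord_symm p).hasFDerivWithinAt) polarCoord.symm.injOn
    (fun p : ℝ × ℝ => f (Complex.measurableEquivRealProd.symm p))).1 h1.integrableOn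
  have h3 : IntegrableOn (fun p : ℝ × ℝ => p.1 * f (Complex.polarCoord.symm p)) polarCoord.target volume := by
    refine h2.congr_fun ?_ polarCoord.open_target.measurableSet
    intro p hp
    have hp1 : (0 : ℝ) < p.1 := hp.1
    simp only [det_fderivPolarCoordSymm, smul_eq_mul, abs_of_pos hp1]
    rfl
  exact h3

theorem polar_radial (g : ℝ → ℝ) (u : ℂ → ℝ) (hint : Integrable (fun z : ℂ => g (Real.log ‖z‖) / ‖z‖ ^ 2 * u z)) :
    ∫ z : ℂ, g (Real.log ‖z‖) / ‖z‖ ^ 2 * u z = 2 * Real.pi * ∫ s : ℝ, g s * Real.circleAverage u 0 (Real.exp s) := by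
  have h1 := Complex.integral_comp_polarCoord_symm (fun z : ℂ => g (Real.log ‖z‖) / ‖z‖ ^ 2 * u z)
  rw [← h1]
  have h2 := setIntegral_prod _ (polar_integrable hint)
  have h3 : ∫ p in polarCoord.target, p.1 • (g (Real.log ‖Complex.polarCoord.symm p‖) / ‖Complex.polarCoord.symm p‖ ^ 2 * u (Complex.polarCoord.symm p)) =
      ∫ r in Ioi (0 : ℝ), ∫ θ in Ioo (-Real.pi) Real.pi,
        r * (g (Real.log ‖Complex.polarCoord.symm (r, θ)‖) / ‖Complex.polarCoord.symm (r, θ)‖ ^ 2 * u (Complex.polarCoord.symm (r, θ))) := h2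
  rw [h3]
  have h4 : ∀ r ∈ Ioi (0 : ℝ), ∫ θ in Ioo (-Real.pi) Real.pi,
        r * (g (Real.log ‖Complex.polarCoord.symm (r, θ)‖) / ‖Complex.polarCoord.symm (r, θ)‖ ^ 2 * u (Complex.polarCoord.symm (r, θ))) =
      r⁻¹ * (2 * Real.pi * (g (Real.log r) * Real.circleAverage u 0 r)) := by
    intro r hr
    have hr0 : (0 : ℝ) < r := hr
    have e1 : ∀ θ : ℝ, r * (g (Real.log ‖Complex.polarCoord.symm (r, θ)‖) / ‖Complex.polarCoord.symm (r, θ)‖ ^ 2 * u (Complex.polarCoord.symm (r, θ))) =
        r⁻¹ * g (Real.log r) * u (circleMap 0 r θ) := by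
      intro θ
      have e2 : Complex.polarCoord.symm (r, θ) = circleMap 0 r θ := by
        rw [Complex.polarCoord_symm_apply, circleMap, Complex.exp_mul_I]
        simp
      have e3 : ‖circleMap 0 r θ‖ = r := by simp [abs_of_pos hr0]
      rw [e2, e3]
      field_simp
    simp only [e1]
    rw [integral_const_mul, ← integral_Ioc_eq_integral_Ioo, ← intervalIntegral.integral_of_le (by linarith [Real.pi_pos])]
    have e4 : ∫ θ in (-Real.pi)..Real.pi, u (circleMap 0 r θ) = 2 * Real.pi * Real.circleAverage u 0 r := by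
      have hper : (fun θ => u (circleMap 0 r θ)).Periodic (2 * Real.pi) := fun x => by simp [periodic_circleMap 0 r x]
      have e5 := hper.intervalIntegral_add_eq (-Real.pi) 0
      rw [show -Real.pi + 2 * Real.pi = Real.pi by ring, zero_add] at e5
      rw [e5, Real.circleAverage_def, smul_eq_mul]
      have := Real.pi_ne_zero
      field_simp
    rw [e4]
    ring
  rw [setIntegral_congr_fun measurableSet_Ioi h4]
  have h5 := integral_image_eq_integral_abs_deriv_smul (s := univ) (f := Real.exp) (f' := Real.exp) MeasurableSet.univ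
    (fun x _ => (Real.hasDerivAt_exp x).hasDerivWithinAt) Real.exp_injective.injOn
    (fun r : ℝ => r⁻¹ * (2 * Real.pi * (g (Real.log r) * Real.circleAverage u 0 r)))
  rw [image_univ, Real.range_exp, setIntegral_univ] at h5
  rw [h5, ← integral_const_mul]
  refine integral_congr_ae (Eventually.of_forall fun s => ?_)
  have := Real.exp_pos s
  simp only [smul_eq_mul, Real.log_exp, abs_of_pos this]
  field_simp

theorem polar_radial_one (g : ℝ → ℝ) (hint : Integrable (fun z : ℂ => g (Real.log ‖z‖) / ‖z‖ ^ 2)) :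
    ∫ z : ℂ, g (Real.log ‖z‖) / ‖z‖ ^ 2 = 2 * Real.pi * ∫ s : ℝ, g s := by
  have h := polar_radial g (fun _ => 1) (by simpa using hint)
  simpa [Real.circleAverage_const] using h

end Pool.Agent.MQ

end
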