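import Pool.Agent.H18.GGT.M03
import Pool.Agent.H18.GGT.M04
import Pool.Agent.H18.GGT.M05
import Pool.Agent.H18.GGT.M06

/-! The parts of this file: H17.BrodyLimit, H17.GlobalLift, H17LG.Variety_1. -/

section

/-!
# Limits of holomorphic curves in families of projective algebraic sets
-/

open Topology Filter

namespace Pool.Agent.H17

variable {N : ℕ}

/-- The common zero locus of a family of forms. -/
def zeroLocus {κ : Type} (G : κ → MvPolynomial (Fin (N + 1)) ℂ) : Set (PN N) :=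
  {x | ∀ l, VanishesAt (G l) x}

lemma vanishesAt_mk_iff {P : MvPolynomial (Fin (N + 1)) ℂ} {d : ℕ} (hP : P.IsHomogeneous d)
    (v : Fin (N + 1) → ℂ) (hv : v ≠ 0) :
    VanishesAt P (Projectivization.mk ℂ v hv) ↔ MvPolynomial.eval v P = 0 := by
  obtain ⟨a, ha, h1⟩ := exists_smul_rep v hv
  unfold VanishesAt
  have h2 : (a • v) = fun k => a * v k := by
    funext k
    simp
  rw [h1, h2, eval_smul_of_isHomogeneous hP]
  constructor
  · intro h
    exact (mul_eq_zero.mp h).resolve_left (pow_ne_zero _ ha)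
  · intro h
    rw [h, mul_zero]

end Pool.Agent.H17

end

section

/-!
# Global lifts of entire curves in projective space
-/

open Topology Filter

namespace Pool.Agent.H17

open EntFun

/-- Two vectors representing the same point are proportional. -/
lemma mk_eq_mk_cross {N : ℕ} {v w : Fin (N + 1) → ℂ} {hv : v ≠ 0} {hw : w ≠ 0}
    (h : Projectivization.mk ℂ v hv = Projectivization.mk ℂ w hw) :
    ∃ c : ℂ, c ≠ 0 ∧ ∀ j, v j = c * w j := by
  obtain ⟨a, ha⟩ := (Projectivization.mk_eq_mk_iff ℂ v w hv hw).mp h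
  refine ⟨(a : ℂ), a.ne_zero, fun j => ?_⟩
  rw [← ha]
  rfl

/-- If `f` is analytic and `g` is analytic of the same finite order, then `f / g` is analytic and
does not vanish. -/
lemma exists_unit_quotient {f g : ℂ → ℂ} {z₀ : ℂ} (hf : AnalyticAt ℂ f z₀) (hg : AnalyticAt ℂ g z₀)
    {n : ℕ} (hfn : analyticOrderAt f z₀ = n) (hgn : analyticOrderAt g z₀ = n) :
    ∃ q : ℂ → ℂ, AnalyticAt ℂ q z₀ ∧ q z₀ ≠ 0 ∧ ∀ᶠ z in 𝓝 z₀, f z = q z * g z := by
  obtain ⟨u, hu, hu0, hfu⟩ := hf.analyticOrderAt_eq_natCast.mp hfn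
  obtain ⟨v, hv, hv0, hgv⟩ := hg.analyticOrderAt_eq_natCast.mp hgn
  refine ⟨fun z => u z / v z, hu.div hv hv0, div_ne_zero hu0 hv0, ?_⟩
  filter_upwards [hfu, hgv, hv.continuousAt.eventually_ne hv0] with z h1 h2 h3
  rw [h1, h2, smul_eq_mul, smul_eq_mul]
  field_simp

/-- **Global lifts.** Every holomorphic map `ℂ → ℙ^N` is given by entire functions without common
zeros. -/
theorem exists_global_lift {N : ℕ} {f : ℂ → PN N} (hf : HolomorphicInto f Set.univ) :
    ∃ x : Fin (N + 1) → EntFun, ∀ z, ∃ h : (fun j => (x j : ℂ → ℂ) z) ≠ 0,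
      f z = Projectivization.mk ℂ _ h := by
  classical
  choose φ hφa hφe using fun z₀ => hf z₀ (Set.mem_univ _)
  have hφj : ∀ z₀ j, AnalyticAt ℂ (fun z => φ z₀ z j) z₀ := fun z₀ j =>
    (analyticAt_pi_iff.mp (hφa z₀)) j
  -- comparison of lifts
  have hcmp : ∀ z₀, ∀ᶠ z in 𝓝 z₀, ∃ c : ℂ, c ≠ 0 ∧ ∀ j, φ z₀ z j = c * φ z z j := by
    intro z₀
    filter_upwards [hφe z₀] with z hz
    obtain ⟨h1, h2⟩ := hz
    obtain ⟨h3, h4⟩ := (hφe z).self_of_nhds
    exact mk_eq_mk_cross (h2.symm.trans h4)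
  have hφ0 : ∀ z₀, φ z₀ z₀ ≠ 0 := fun z₀ => (hφe z₀).self_of_nhds.1
  obtain ⟨j₀, hj₀⟩ : ∃ j₀, φ 0 0 j₀ ≠ 0 := by
    by_contra h
    push Not at h
    exact hφ0 0 (funext h)
  -- the coordinate `j₀` does not vanish identically near any point
  set A : Set ℂ := {z₀ | ∀ᶠ z in 𝓝 z₀, φ z₀ z j₀ = 0} with hA
  have hAopen : IsOpen A := by
    rw [isOpen_iff_mem_nhds]
    intro z₀ hz₀
    have h1 : ∀ᶠ z in 𝓝 z₀, φ z z j₀ = 0 := by
      filter_upwards [hz₀, hcmp z₀] with z h1 h2
      obtain ⟨c, hc, h3⟩ := h2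
      have := h3 j₀
      rw [h1] at this
      exact (mul_eq_zero.mp this.symm).resolve_left hc
    filter_upwards [h1.eventually_nhds] with z₁ h2
    filter_upwards [h2, hcmp z₁] with z h3 h4
    obtain ⟨c, hc, h5⟩ := h4
    rw [h5, h3, mul_zero]
  have hAclosed : IsClosed A := by
    rw [← isOpen_compl_iff, isOpen_iff_mem_nhds]
    intro z₀ hz₀
    have h1 : ∀ᶠ z in 𝓝[≠] z₀, φ z₀ z j₀ ≠ 0 := by
      rcases (hφj z₀ j₀).eventually_eq_zero_or_eventually_ne_zero with h | h
      · exact absurd h hz₀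
      · exact h
    have h2 : ∀ᶠ z in 𝓝 z₀, z ≠ z₀ → z ∈ Aᶜ := by
      have h3 := eventually_nhdsWithin_iff.mp h1
      filter_upwards [h3, hcmp z₀] with z h4 h5 hne
      obtain ⟨c, hc, h6⟩ := h5
      intro h7
      have h7' : ∀ᶠ y in 𝓝 z, φ z y j₀ = 0 := h7
      have h8 : φ z z j₀ = 0 := h7'.self_of_nhds
      apply h4 hne
      rw [h6, h8, mul_zero]
    filter_upwards [h2] with z h3
    by_cases hz : z = z₀
    · rw [hz]; exact hz₀
    · exact h3 hz
  have hAempty : A = ∅ := by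
    rcases isClopen_iff.mp ⟨hAclosed, hAopen⟩ with h | h
    · exact h
    · exfalso
      have h0 : (0 : ℂ) ∈ A := by rw [h]; trivial
      have h0' : ∀ᶠ y in 𝓝 (0 : ℂ), φ 0 y j₀ = 0 := h0
      exact hj₀ h0'.self_of_nhds
  have hne : ∀ z₀, ∀ᶠ z in 𝓝[≠] z₀, φ z₀ z j₀ ≠ 0 := by
    intro z₀
    rcases (hφj z₀ j₀).eventually_eq_zero_or_eventually_ne_zero with h | h
    · have : z₀ ∈ A := h
      rw [hAempty] at this
      exact absurd this (Set.notMem_empty _)
    · exact h
  have hfin : ∀ z₀, analyticOrderAt (fun z => φ z₀ z j₀) z₀ ≠ ⊤ := by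
    intro z₀ h
    rw [analyticOrderAt_eq_top] at h
    have : z₀ ∈ A := h
    rw [hAempty] at this
    exact absurd this (Set.notMem_empty _)
  set D : ℂ → ℕ := fun z => analyticOrderNatAt (fun y => φ z y j₀) z with hD
  have hDord : ∀ z, analyticOrderAt (fun y => φ z y j₀) z = D z := fun z =>
    (Nat.cast_analyticOrderNatAt (hfin z)).symm
  have hDfin : ∀ R : ℝ, {z ∈ Metric.closedBall (0 : ℂ) R | D z ≠ 0}.Finite := by
    intro R
    by_contra hinf
    obtain ⟨y, -, hy⟩ := Set.Infinite.exists_accPt_of_subset_isCompact hinf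
      (isCompact_closedBall (0 : ℂ) R) (fun z hz => hz.1)
    rw [accPt_iff_frequently_nhdsNE] at hy
    obtain ⟨z, hz1, hz2, hz3⟩ := (hy.and_eventually ((hne y).and
      ((hcmp y).filter_mono nhdsWithin_le_nhds))).exists
    obtain ⟨c, hc, h4⟩ := hz3
    apply hz1.2
    have h5 : φ z z j₀ ≠ 0 := by
      intro h
      apply hz2
      rw [h4, h, mul_zero]
    have h6 := hDord z
    rw [(hφj z j₀).analyticOrderAt_eq_zero.mpr h5] at h6
    exact_mod_cast h6.symm
  obtain ⟨w, hw⟩ := exists_entire_with_orders D hDfin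
  choose q hqa hq0 hqe using fun z₀ => exists_unit_quotient (w.analyticAt z₀) (hφj z₀ j₀) (hw z₀)
    (hDord z₀)
  set X : Fin (N + 1) → ℂ → ℂ := fun j z => q z z * φ z z j with hX
  have hXloc : ∀ z₀ j, X j =ᶠ[𝓝 z₀] fun z => q z₀ z * φ z₀ z j := by
    intro z₀ j
    have h1 := eventually_nhdsWithin_iff.mp (hne z₀)
    filter_upwards [h1, hcmp z₀, hqe z₀] with z h2 h3 h4
    by_cases hz : z = z₀
    · rw [hz]
    · obtain ⟨c, hc, h5⟩ := h3
      have h6 := h2 hz
      have h7 : (w : ℂ → ℂ) z = q z z * φ z z j₀ := (hqe z).self_of_nhds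
      have h8 : φ z z j₀ ≠ 0 := by
        intro h
        apply h6
        rw [h5, h, mul_zero]
      have h9 : q z₀ z * c = q z z := by
        apply mul_right_cancel₀ h8
        rw [← h7, h4, h5]
        ring
      simp only [hX]
      rw [h5, ← h9]
      ring
  have hXdiff : ∀ j, Differentiable ℂ (X j) := by
    intro j z₀
    exact (hXloc z₀ j).differentiableAt_iff.mpr ((hqa z₀).mul (hφj z₀ j)).differentiableAt
  refine ⟨fun j => ⟨X j, hXdiff j⟩, fun z => ?_⟩
  obtain ⟨h1, h2⟩ := (hφe z).self_of_nhds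
  have h3 : (fun j => X j z) = q z z • φ z z := by
    funext j
    rfl
  have h4 : (fun j => X j z) ≠ 0 := by
    rw [h3]
    exact smul_ne_zero (hq0 z) h1
  refine ⟨h4, ?_⟩
  rw [h2, Projectivization.mk_eq_mk_iff]
  refine ⟨(Units.mk0 (q z z) (hq0 z))⁻¹, ?_⟩
  change (Units.mk0 (q z z) (hq0 z))⁻¹ • (fun j => X j z) = φ z z
  rw [h3, Units.smul_def, smul_smul]
  simp [hq0 z]

end Pool.Agent.H17

end

section

/-!
# Varieties of log general type, in terms of their function field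

The definitions of `Pool.Agent.H17GT.Defs` and `Pool.Agent.H17LG.Defs` in terms of the definitions of
`Pool.Agent.H23.Fano` (rational forms `Form K k`, regular forms, prime divisors).
-/

open MvPolynomial
open Pool.Agent.H23.Fano (Form regularForms PrimeDivisorOver)
open Pool.Agent.H17GT (coordFun functionField)

noncomputable section

namespace Pool.Agent.H17LG.Variety

section FunctionField

end FunctionField

section Subvariety

variable {N : ℕ} (P : Ideal (MvPolynomial (Fin (N + 1)) ℂ)) [P.IsPrime]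

/-- The centre of the prime divisor `E` on the closed subvariety of `ℙ^N` given by `P` lies in the
union of the hypersurfaces `H m = 0`. -/
def OnBoundary {b : ℕ} (H : Fin b → MvPolynomial (Fin (N + 1)) ℂ) {k : ℕ}
    (E : PrimeDivisorOver (FunField P) k) : Prop :=
  ∃ j, coordFun P j ≠ 0 ∧ (∀ i, 0 ≤ E.ord (ratio P i j)) ∧
    ∃ m, 0 < E.ord (aeval (fun i => ratio P i j) (H m))

end Subvariety

end Pool.Agent.H17LG.Variety

end
end
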