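import Pool.Agent.H18.GGT.M01
import Pool.Agent.H18.GGT.M02

/-! The parts of this file: H17GT.Defs_1, H17LG.Defs, H36.BP.MaxP, H36.BP.SubA, H36.BP.SubB. -/

section

/-!
# Varieties of general type, in terms of their function field
-/

open MvPolynomial
open Pool.Agent.H23 (RatForm regularForms PrimeDivisorOver)

noncomputable section

namespace Pool.Agent.H17GT

section FunctionField

variable {K : Type} [Field K] [Algebra ℂ K] {k : ℕ}

/-- Let `K` be the function field of a variety of dimension `k`, let `ω` be a rational `k`-form and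
`f ∈ K`. The rational `m`-canonical form `f ω^m` is regular along the prime divisor `E`: one has
`ω = g η` with `η` regular along `E` and `f g ^ m` regular along `E`. -/
def RegularAlong (E : PrimeDivisorOver K k) (m : ℕ) (f : K) (ω : RatForm K k) : Prop :=
  ∃ (g : K) (η : RatForm K k), η ∈ regularForms k E.localRing ∧ ω = g • η ∧ 0 ≤ E.ord (f * g ^ m)

variable (K k) in
/-- A variety of dimension `k` with function field `K` is of general type: for some `m ≥ 1` there
are `m`-canonical forms `f₀ ω^m, …, f_r ω^m`, regular along all prime divisors, which define a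
generically finite rational map, that is, `K` is algebraic over `ℂ(f₁/f₀, …, f_r/f₀)`. -/
def IsGeneralType : Prop :=
  ∃ m : ℕ, 1 ≤ m ∧ ∃ ω : RatForm K k, ω ≠ 0 ∧ ∃ (r : ℕ) (f : Fin (r + 1) → K), f 0 ≠ 0 ∧
    (∀ i, ∀ E : PrimeDivisorOver K k, RegularAlong E m (f i) ω) ∧
    Algebra.IsAlgebraic (IntermediateField.adjoin ℂ (Set.range fun i => f i / f 0)) K

end FunctionField

end Pool.Agent.H17GT

end
end

section

/-!
# Varieties of log general type, in terms of their function field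
-/

open MvPolynomial
open Pool.Agent.H23 (RatForm regularForms PrimeDivisorOver)
open Pool.Agent.H17GT (RegularAlong coordFun functionField)

noncomputable section

namespace Pool.Agent.H17LG

section FunctionField

variable {K : Type} [Field K] [Algebra ℂ K] {k : ℕ}

/-- The rational `m`-canonical form `f ω^m` has at most logarithmic poles along the prime divisor
`E`: one has `ω = g η` with `η` regular along `E` and `f g ^ m` has a pole of order at most `m`
along `E`. -/
def LogRegularAlong (E : PrimeDivisorOver K k) (m : ℕ) (f : K) (ω : RatForm K k) : Prop :=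
  ∃ (g : K) (η : RatForm K k), η ∈ regularForms k E.localRing ∧ ω = g • η ∧
    0 ≤ E.ord (f * g ^ m) + m

/-- Let `U` be a variety of dimension `k` with function field `K`, and let `B` be the set of the
prime divisors over `K` whose centre lies in the boundary of a compactification of `U`. The variety
`U` is of log general type: for some `m ≥ 1` there are `m`-canonical forms `f₀ ω^m, …, f_r ω^m`,
regular along all prime divisors outside `B`, with at most logarithmic poles along the prime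
divisors in `B`, which define a generically finite rational map. -/
def IsLogGeneralType (B : PrimeDivisorOver K k → Prop) : Prop :=
  ∃ m : ℕ, 1 ≤ m ∧ ∃ ω : RatForm K k, ω ≠ 0 ∧ ∃ (r : ℕ) (f : Fin (r + 1) → K), f 0 ≠ 0 ∧
    (∀ i, ∀ E : PrimeDivisorOver K k, (¬ B E → RegularAlong E m (f i) ω) ∧
      (B E → LogRegularAlong E m (f i) ω)) ∧
    Algebra.IsAlgebraic (IntermediateField.adjoin ℂ (Set.range fun i => f i / f 0)) K

end FunctionField

/-- The function `x_i / x_j` on the subvariety of `ℙ^N` given by `P`. -/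
def ratio {N : ℕ} (P : Ideal (MvPolynomial (Fin (N + 1)) ℂ)) [P.IsPrime] (i j : Fin (N + 1)) :
    functionField P :=
  ⟨coordFun P i / coordFun P j, IntermediateField.subset_adjoin _ _ ⟨i, j, rfl⟩⟩

/-- The centre of the prime divisor `E` on the closed subvariety of `ℙ^N` given by `P` lies in the
union of the hypersurfaces `H m = 0`. -/
def OnBoundary {N b : ℕ} (P : Ideal (MvPolynomial (Fin (N + 1)) ℂ)) [P.IsPrime]
    (H : Fin b → MvPolynomial (Fin (N + 1)) ℂ) {k : ℕ}
    (E : PrimeDivisorOver (functionField P) k) : Prop :=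
  ∃ j, coordFun P j ≠ 0 ∧ (∀ i, 0 ≤ E.ord (ratio P i j)) ∧
    ∃ m, 0 < E.ord (aeval (fun i => ratio P i j) (H m))

end Pool.Agent.H17LG

end
end

section

/-!
# BP MaxP: the maximum principle

* `not_isLocalMax`: with `0 < c' < c`: `|h z| exp(c'|z - z₀|²) ≤ u z ≤ u z₀ = |h z₀|` near `z₀`, so `|h|` has a local maximum at `z₀`, hence `h` is constant near
  `z₀` (`Complex.eventually_eq_of_isLocalMax_norm`), and `|h z₀| exp(c'|z - z₀|²) ≤ |h z₀|` for `z ≠ z₀` near `z₀`: contradiction.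
* `max_principle`: otherwise the maximum of `u` over the compact set (`UpperSemicontinuousOn.exists_isMaxOn`) is `> A ≥ 0` and is attained in `U`.
-/

set_option autoImplicit false

namespace Pool.Agent.H36.BP

open Filter Topology Metric

variable {N : ℕ}

theorem Sub.not_isLocalMax {u : ℂ → ℝ} {z₀ : ℂ} {c : ℝ} (h : Sub u z₀ c) (hc : 0 < c) : ¬ IsLocalMax u z₀ := by
  intro hmax
  obtain ⟨hpos, hsup⟩ := h
  obtain ⟨f, hf, hf0, hfu⟩ := hsup (c / 2) (by linarith)
  have hmax' : ∀ᶠ z in 𝓝 z₀, u z ≤ u z₀ := hmax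
  have h1 : IsLocalMax (norm ∘ f) z₀ := by
    filter_upwards [hfu, hmax'] with z hz1 hz2
    simp only [Function.comp_apply]
    rw [hf0]
    refine le_trans ?_ (hz1.trans hz2)
    refine le_mul_of_one_le_right (norm_nonneg _) ?_
    exact Real.one_le_exp (by positivity)
  have h2 : ∀ᶠ z in 𝓝 z₀, DifferentiableAt ℂ f z :=
    hf.eventually_analyticAt.mono fun z hz => hz.differentiableAt
  have h3 := Complex.eventually_eq_of_isLocalMax_norm h2 h1
  have h4 : ∀ᶠ z in 𝓝 z₀, z = z₀ := by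
    filter_upwards [hfu, hmax', h3] with z hz1 hz2 hz3
    by_contra hne
    rw [hz3, hf0] at hz1
    have h5 : u z₀ * Real.exp (c / 2 * ‖z - z₀‖ ^ 2) ≤ u z₀ * 1 := by
      rw [mul_one]
      exact hz1.trans hz2
    have h6 := le_of_mul_le_mul_left h5 hpos
    rw [Real.exp_le_one_iff] at h6
    have h7 : 0 < ‖z - z₀‖ := norm_pos_iff.2 (sub_ne_zero.2 hne)
    have h8 : 0 < c / 2 * ‖z - z₀‖ ^ 2 := by positivity
    linarith
  have h9 : ∀ᶠ z in 𝓝[≠] z₀, z = z₀ := h4.filter_mono nhdsWithin_le_nhds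
  have h10 : ∀ᶠ z in 𝓝[≠] z₀, z ≠ z₀ := eventually_mem_nhdsWithin
  obtain ⟨z, hz1, hz2⟩ := (h9.and h10).exists
  exact hz2 hz1

theorem max_principle {S U : Set ℂ} (hS : IsCompact S) (hU : IsOpen U) (hUS : U ⊆ S) {u : ℂ → ℝ}
    (husc : UpperSemicontinuousOn u S) (hsub : ∀ z ∈ U, 0 < u z → ∃ c, 0 < c ∧ Sub u z c) {A : ℝ} (hA : 0 ≤ A)
    (hbd : ∀ z ∈ S \ U, u z ≤ A) : ∀ z ∈ S, u z ≤ A := by
  intro z hz
  by_contra hlt
  push Not at hlt
  obtain ⟨a, haS, hmax⟩ := UpperSemicontinuousOn.exists_isMaxOn ⟨z, hz⟩ hS husc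
  have h1 : u z ≤ u a := hmax hz
  have haU : a ∈ U := by
    by_contra haU
    have := hbd a ⟨haS, haU⟩
    linarith
  obtain ⟨c, hc, hs⟩ := hsub a haU (by linarith)
  refine hs.not_isLocalMax hc ?_
  filter_upwards [hU.mem_nhds haU] with w hw
  exact hmax (hUS hw)

end Pool.Agent.H36.BP

end

section

/-!
# BP SubA: calculus of lower supports

* `mul`: for `c'' < c + d` take `c' < c`, `d' < d` with `c' + d' = c''` and multiply the supports.
* `rpow`: `h z₀ ≠ 0`; near `z₀` the function `k z = (u z₀)^r * (h z/h z₀)^(r : ℂ)` is holomorphic (`h z/h z₀` is in the slit plane) and `|k| = |h|^r`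
  (`Complex.norm_cpow_real`...), exponent `r c'`; for `r = 0` trivial; for `r > 0` use `c'/r`.
* `of_holo`: `exp(c' |z - z₀|²) ≤ 1` for `c' < 0`.
-/

set_option autoImplicit false

namespace Pool.Agent.H36.BP

open Filter Topology Metric

variable {N : ℕ}

theorem Sub.mono {u v : ℂ → ℝ} {z₀ : ℂ} {c : ℝ} (h : Sub u z₀ c) (h0 : u z₀ = v z₀) (h1 : ∀ᶠ z in 𝓝 z₀, u z ≤ v z) : Sub v z₀ c := by
  refine ⟨h0 ▸ h.1, fun c' hc' => ?_⟩
  obtain ⟨g, hg, hg0, hge⟩ := h.2 c' hc'
  refine ⟨g, hg, hg0.trans h0, ?_⟩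
  filter_upwards [hge, h1] with z a b using a.trans b

theorem Sub.congr {u v : ℂ → ℝ} {z₀ : ℂ} {c : ℝ} (h : Sub u z₀ c) (h1 : ∀ᶠ z in 𝓝 z₀, u z = v z) : Sub v z₀ c := by
  exact h.mono h1.self_of_nhds (h1.mono fun z hz => hz.le)

theorem Sub.mul {u v : ℂ → ℝ} {z₀ : ℂ} {c d : ℝ} (h : Sub u z₀ c) (h' : Sub v z₀ d) : Sub (fun z => u z * v z) z₀ (c + d) := by
  refine ⟨mul_pos h.1 h'.1, fun c'' hc'' => ?_⟩
  obtain ⟨g, hg, hg0, hge⟩ := h.2 (c - (c + d - c'') / 2) (by linarith)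
  obtain ⟨k, hk, hk0, hke⟩ := h'.2 (d - (c + d - c'') / 2) (by linarith)
  refine ⟨fun z => g z * k z, hg.mul hk, ?_, ?_⟩
  · rw [norm_mul, hg0, hk0]
  · filter_upwards [hge, hke] with z h1 h2
    have e : ‖g z * k z‖ * Real.exp (c'' * ‖z - z₀‖ ^ 2) =
        (‖g z‖ * Real.exp ((c - (c + d - c'') / 2) * ‖z - z₀‖ ^ 2)) *
          (‖k z‖ * Real.exp ((d - (c + d - c'') / 2) * ‖z - z₀‖ ^ 2)) := by
      rw [norm_mul]
      have e1 : Real.exp (c'' * ‖z - z₀‖ ^ 2) =
          Real.exp ((c - (c + d - c'') / 2) * ‖z - z₀‖ ^ 2) *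
            Real.exp ((d - (c + d - c'') / 2) * ‖z - z₀‖ ^ 2) := by
        rw [← Real.exp_add]
        congr 1
        ring
      rw [e1]
      ring
    rw [e]
    have p1 : 0 ≤ ‖g z‖ * Real.exp ((c - (c + d - c'') / 2) * ‖z - z₀‖ ^ 2) := by positivity
    have p2 : 0 ≤ ‖k z‖ * Real.exp ((d - (c + d - c'') / 2) * ‖z - z₀‖ ^ 2) := by positivity
    exact mul_le_mul h1 h2 p2 (p1.trans h1)

theorem Sub.of_holo {h : ℂ → ℂ} {z₀ : ℂ} (hh : AnalyticAt ℂ h z₀) (h0 : h z₀ ≠ 0) : Sub (fun z => ‖h z‖) z₀ 0 := by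
  refine ⟨norm_pos_iff.2 h0, fun c' hc' => ⟨h, hh, rfl, Filter.Eventually.of_forall fun z => ?_⟩⟩
  have h1 : Real.exp (c' * ‖z - z₀‖ ^ 2) ≤ 1 := by
    rw [Real.exp_le_one_iff]
    exact mul_nonpos_of_nonpos_of_nonneg hc'.le (by positivity)
  exact mul_le_of_le_one_right (norm_nonneg _) h1

end Pool.Agent.H36.BP

end

section

/-!
# BP SubB: exponentials of squares

`|t|² = |t₀|² + 2 Re(conj t₀ (t - t₀)) + |t - t₀|²`, so `exp(a|t|²) = |exp(a(|t₀|² + 2 conj t₀ (t - t₀)))| exp(a|t - t₀|²)`, and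
`|t z - t₀|²/|z - z₀|² → |t'(z₀)|²` (for every `a`, positive or negative).
-/

set_option autoImplicit false

namespace Pool.Agent.H36.BP

open Filter Topology Metric

variable {N : ℕ}

theorem Sub.exp_sq {t : ℂ → ℂ} {z₀ : ℂ} (ht : AnalyticAt ℂ t z₀) (a : ℝ) :
    Sub (fun z => Real.exp (a * ‖t z‖ ^ 2)) z₀ (a * ‖deriv t z₀‖ ^ 2) := by
  refine ⟨Real.exp_pos _, fun c' hc' => ?_⟩
  refine ⟨fun z => Complex.exp (((a * ‖t z₀‖ ^ 2 : ℝ) : ℂ) +
    2 * a * (starRingEnd ℂ (t z₀)) * (t z - t z₀)), ?_, ?_, ?_⟩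
  · refine AnalyticAt.cexp ?_
    exact analyticAt_const.add (analyticAt_const.mul (ht.sub analyticAt_const))
  · change ‖Complex.exp _‖ = _
    rw [sub_self, mul_zero, add_zero, Complex.norm_exp, Complex.ofReal_re]
  · have hd : HasDerivAt t (deriv t z₀) z₀ := ht.differentiableAt.hasDerivAt
    have hsl := hasDerivAt_iff_tendsto_slope.mp hd
    have hlim : Tendsto (fun z => a * ‖slope t z₀ z‖ ^ 2) (𝓝[≠] z₀) (𝓝 (a * ‖deriv t z₀‖ ^ 2)) :=
      (hsl.norm.pow 2).const_mul a
    have hev := hlim.eventually (lt_mem_nhds hc')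
    have hev' : ∀ᶠ z in 𝓝 z₀, c' * ‖z - z₀‖ ^ 2 ≤ a * ‖t z - t z₀‖ ^ 2 := by
      rw [eventually_nhdsWithin_iff] at hev
      filter_upwards [hev] with z hz'
      rcases eq_or_ne z z₀ with h | h
      · rw [h]
        simp
      · have h1 := hz' h
        have h2 : 0 < ‖z - z₀‖ := norm_pos_iff.mpr (sub_ne_zero.mpr h)
        rw [slope_def_field, norm_div, div_pow] at h1
        have h3 : c' * ‖z - z₀‖ ^ 2 < a * (‖t z - t z₀‖ ^ 2 / ‖z - z₀‖ ^ 2) * ‖z - z₀‖ ^ 2 :=
          mul_lt_mul_of_pos_right h1 (by positivity)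
        have h4 : a * (‖t z - t z₀‖ ^ 2 / ‖z - z₀‖ ^ 2) * ‖z - z₀‖ ^ 2 =
            a * ‖t z - t z₀‖ ^ 2 := by
          field_simp
        rw [h4] at h3
        exact h3.le
    filter_upwards [hev'] with z hz
    rw [Complex.norm_exp, ← Real.exp_add]
    apply Real.exp_le_exp.mpr
    have key : ‖t z‖ ^ 2 = ‖t z₀‖ ^ 2 + 2 * ((starRingEnd ℂ (t z₀)) * (t z - t z₀)).re +
        ‖t z - t z₀‖ ^ 2 := by
      rw [Complex.sq_norm, Complex.sq_norm, Complex.sq_norm]
      simp only [Complex.normSq_apply, Complex.mul_re, Complex.conj_re, Complex.conj_im,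
        Complex.sub_re, Complex.sub_im]
      ring
    have e2 : (((a * ‖t z₀‖ ^ 2 : ℝ) : ℂ) + 2 * a * (starRingEnd ℂ (t z₀)) * (t z - t z₀)).re =
        a * ‖t z₀‖ ^ 2 + 2 * a * ((starRingEnd ℂ (t z₀)) * (t z - t z₀)).re := by
      rw [Complex.add_re, Complex.ofReal_re, mul_assoc]
      congr 1
      rw [show (2 * (a : ℂ)) = (((2 * a : ℝ)) : ℂ) by push_cast; ring, Complex.re_ofReal_mul]
    rw [e2, key]
    linarith

end Pool.Agent.H36.BP

end
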