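import Pool.Agent.H18.GGT.H17BP.Surf

/-! The parts of this file: H68.KR.D2, H68.KR.Ch. -/

section

/-!
# KR D2: partial derivatives of functions of two variables

Proofs.
* `analyticAt_dx`, `analyticAt_dy`: `AnalyticAt.fderiv`, then evaluation at a vector
  (`ContinuousLinearMap.apply`, a continuous linear map composed with an analytic one:
  `ContinuousLinearMap.comp_analyticAt`).
* `dx_congr`, `dy_congr`: `Filter.EventuallyEq.fderiv` (equality near `p` gives equality of the derivatives near `p`).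
* `dx_mul`, `dy_mul`, `dx_add`, `dy_add`: near `p` the functions are differentiable (`AnalyticAt.eventually_analyticAt`,
  `AnalyticAt.differentiableAt`), then `fderiv_fun_mul`, `fderiv_fun_add`.
* `dx_dy_comm`: symmetry of the second derivative: `ContDiffAt.isSymmSndFDerivAt` (with `minSmoothness ℂ 2`: over `ℂ` use
  the analytic version, `AnalyticAt.contDiffAt`), and `fderiv` of `fun u => fderiv ℂ f u w` is
  `fderiv ℂ (fderiv ℂ f) u · w` (`HasFDerivAt.clm_apply` or `fderiv_clm_apply`).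
* `deriv_slice_x`, `deriv_slice_y`: chain rule for `x ↦ (x, b)`, resp. `y ↦ (a, y)`.
* `dx_comp`, `dy_comp`: chain rule `fderiv (f ∘ θ) u (1, 0) = fderiv f (θ u) (fderiv θ u (1, 0))` with
  `fderiv θ u (1, 0) = (dx θ₁ u, dx θ₂ u)`, and linearity of `fderiv f (θ u)`: `(a, b) = a (1, 0) + b (0, 1)`.
* `iterate_dy_slice`: induction on `n` (for all points `p` at which `f` is analytic), `iteratedDeriv_succ`,
  `dy (dy^[n] f)`: near `p.2` one has `dy^[n] f (p.1, y) = iteratedDeriv n (f (p.1, ·)) y` because `f` is analytic at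
  `(p.1, y)`; then `deriv_slice_y`.
-/

set_option autoImplicit false

open Topology Filter

noncomputable section

namespace Pool.Agent.H68.KR

/-- The partial derivative in the first variable. -/
def dx (f : ℂ × ℂ → ℂ) (u : ℂ × ℂ) : ℂ := fderiv ℂ f u (1, 0)

/-- The partial derivative in the second variable. -/
def dy (f : ℂ × ℂ → ℂ) (u : ℂ × ℂ) : ℂ := fderiv ℂ f u (0, 1)

variable {f g : ℂ × ℂ → ℂ} {p : ℂ × ℂ}

theorem analyticAt_dx (hf : AnalyticAt ℂ f p) : AnalyticAt ℂ (dx f) p := by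
  have h := hf.fderiv
  exact ((ContinuousLinearMap.apply ℂ ℂ ((1, 0) : ℂ × ℂ)).analyticAt _).comp h

theorem analyticAt_dy (hf : AnalyticAt ℂ f p) : AnalyticAt ℂ (dy f) p := by
  have h := hf.fderiv
  exact ((ContinuousLinearMap.apply ℂ ℂ ((0, 1) : ℂ × ℂ)).analyticAt _).comp h

theorem analyticAt_iterate_dy (hf : AnalyticAt ℂ f p) (n : ℕ) : AnalyticAt ℂ (dy^[n] f) p := by
  induction n with
  | zero => simpa using hf
  | succ n ih =>
    rw [Function.iterate_succ_apply']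
    exact analyticAt_dy ih

theorem dx_congr (h : ∀ᶠ u in 𝓝 p, f u = g u) : ∀ᶠ u in 𝓝 p, dx f u = dx g u := by
  have h' : f =ᶠ[𝓝 p] g := h
  have h2 := h'.fderiv (𝕜 := ℂ)
  filter_upwards [h2] with u hu
  simp only [dx, hu]

theorem dy_congr (h : ∀ᶠ u in 𝓝 p, f u = g u) : ∀ᶠ u in 𝓝 p, dy f u = dy g u := by
  have h' : f =ᶠ[𝓝 p] g := h
  have h2 := h'.fderiv (𝕜 := ℂ)
  filter_upwards [h2] with u hu
  simp only [dy, hu]

theorem iterate_dy_congr (h : ∀ᶠ u in 𝓝 p, f u = g u) (n : ℕ) :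
    ∀ᶠ u in 𝓝 p, (dy^[n] f) u = (dy^[n] g) u := by
  induction n with
  | zero => simpa using h
  | succ n ih =>
    simp only [Function.iterate_succ_apply']
    exact dy_congr ih

theorem dy_add (hf : AnalyticAt ℂ f p) (hg : AnalyticAt ℂ g p) :
    ∀ᶠ u in 𝓝 p, dy (fun u => f u + g u) u = dy f u + dy g u := by
  filter_upwards [hf.eventually_analyticAt, hg.eventually_analyticAt] with u hu hv
  simp only [dy]
  rw [fderiv_fun_add hu.differentiableAt hv.differentiableAt]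
  rfl

theorem dx_mul (hf : AnalyticAt ℂ f p) (hg : AnalyticAt ℂ g p) :
    ∀ᶠ u in 𝓝 p, dx (fun u => f u * g u) u = dx f u * g u + f u * dx g u := by
  filter_upwards [hf.eventually_analyticAt, hg.eventually_analyticAt] with u hu hv
  simp only [dx]
  rw [fderiv_fun_mul hu.differentiableAt hv.differentiableAt]
  simp only [add_apply, smul_apply, smul_eq_mul]
  ring

theorem dy_mul (hf : AnalyticAt ℂ f p) (hg : AnalyticAt ℂ g p) :
    ∀ᶠ u in 𝓝 p, dy (fun u => f u * g u) u = dy f u * g u + f u * dy g u := by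
  filter_upwards [hf.eventually_analyticAt, hg.eventually_analyticAt] with u hu hv
  simp only [dy]
  rw [fderiv_fun_mul hu.differentiableAt hv.differentiableAt]
  simp only [add_apply, smul_apply, smul_eq_mul]
  ring

/-- Second derivatives as values of `fderiv (fderiv f)`. -/
private theorem D2_fderiv_apply (hf : AnalyticAt ℂ f p) (v w : ℂ × ℂ) :
    fderiv ℂ (fun u => fderiv ℂ f u w) p v = fderiv ℂ (fderiv ℂ f) p v w := by
  have h := hf.fderiv.differentiableAt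
  have h1 : HasFDerivAt (fun u => fderiv ℂ f u w) ((ContinuousLinearMap.apply ℂ ℂ w).comp (fderiv ℂ (fderiv ℂ f) p)) p :=
    (ContinuousLinearMap.apply ℂ ℂ w).hasFDerivAt.comp p h.hasFDerivAt
  rw [h1.fderiv]
  rfl

theorem dx_dy_comm (hf : AnalyticAt ℂ f p) : ∀ᶠ u in 𝓝 p, dx (dy f) u = dy (dx f) u := by
  filter_upwards [hf.eventually_analyticAt] with u hu
  have hs : IsSymmSndFDerivAt ℂ f u := by
    refine ContDiffAt.isSymmSndFDerivAt (n := minSmoothness ℂ 2) hu.contDiffAt le_rfl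
  have h1 := D2_fderiv_apply hu (1, 0) (0, 1)
  have h2 := D2_fderiv_apply hu (0, 1) (1, 0)
  simp only [dx, dy]
  rw [show fderiv ℂ (dy f) u (1, 0) = fderiv ℂ (fun u => fderiv ℂ f u (0, 1)) u (1, 0) from rfl,
    show fderiv ℂ (dx f) u (0, 1) = fderiv ℂ (fun u => fderiv ℂ f u (1, 0)) u (0, 1) from rfl, h1, h2]
  exact hs (1, 0) (0, 1)

theorem dx_iterate_dy_comm (hf : AnalyticAt ℂ f p) (n : ℕ) :
    ∀ᶠ u in 𝓝 p, dx (dy^[n] f) u = (dy^[n] (dx f)) u := by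
  induction n with
  | zero => simp
  | succ n ih =>
    simp only [Function.iterate_succ_apply']
    have h1 := dx_dy_comm (analyticAt_iterate_dy hf n)
    have h2 := dy_congr ih
    filter_upwards [h1, h2] with u hu hv
    rw [hu, hv]

theorem deriv_slice_x (hf : AnalyticAt ℂ f p) : deriv (fun x => f (x, p.2)) p.1 = dx f p := by
  have h1 : HasFDerivAt f (fderiv ℂ f p) (p.1, p.2) := hf.differentiableAt.hasFDerivAt
  have h2 : HasDerivAt (fun x : ℂ => (x, p.2)) ((1 : ℂ), (0 : ℂ)) p.1 :=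
    (hasDerivAt_id p.1).prodMk (hasDerivAt_const p.1 p.2)
  have h3 := h1.comp_hasDerivAt p.1 h2
  exact h3.deriv

theorem deriv_slice_y (hf : AnalyticAt ℂ f p) : deriv (fun y => f (p.1, y)) p.2 = dy f p := by
  have h1 : HasFDerivAt f (fderiv ℂ f p) (p.1, p.2) := hf.differentiableAt.hasFDerivAt
  have h2 : HasDerivAt (fun y : ℂ => (p.1, y)) ((0 : ℂ), (1 : ℂ)) p.2 :=
    (hasDerivAt_const p.2 p.1).prodMk (hasDerivAt_id p.2)
  have h3 := h1.comp_hasDerivAt p.2 h2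
  exact h3.deriv

theorem iterate_dy_slice (hf : AnalyticAt ℂ f p) (n : ℕ) :
    (dy^[n] f) p = iteratedDeriv n (fun y => f (p.1, y)) p.2 := by
  induction n generalizing p with
  | zero => simp
  | succ n ih =>
    rw [Function.iterate_succ_apply', iteratedDeriv_succ]
    rw [← deriv_slice_y (analyticAt_iterate_dy hf n)]
    apply Filter.EventuallyEq.deriv_eq
    have hc : Tendsto (fun y : ℂ => (p.1, y)) (𝓝 p.2) (𝓝 p) := by
      have : Continuous (fun y : ℂ => (p.1, y)) := by fun_prop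
      exact this.tendsto p.2
    filter_upwards [hc.eventually hf.eventually_analyticAt] with y hy
    exact ih hy

/-- The chain rule in coordinates. -/
private theorem D2_chain {θ : ℂ × ℂ → ℂ × ℂ} {u : ℂ × ℂ} (hθ : AnalyticAt ℂ θ u) (hf : AnalyticAt ℂ f (θ u)) (v : ℂ × ℂ) :
    fderiv ℂ (fun u => f (θ u)) u v =
      fderiv ℂ f (θ u) (1, 0) * fderiv ℂ (fun u => (θ u).1) u v + fderiv ℂ f (θ u) (0, 1) * fderiv ℂ (fun u => (θ u).2) u v := by
  have h0 := hθ.differentiableAt.hasFDerivAt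
  have h1 : HasFDerivAt (fun u => f (θ u)) ((fderiv ℂ f (θ u)).comp (fderiv ℂ θ u)) u :=
    hf.differentiableAt.hasFDerivAt.comp u h0
  have h2 : HasFDerivAt (fun u => (θ u).1) ((ContinuousLinearMap.fst ℂ ℂ ℂ).comp (fderiv ℂ θ u)) u := h0.fst
  have h3 : HasFDerivAt (fun u => (θ u).2) ((ContinuousLinearMap.snd ℂ ℂ ℂ).comp (fderiv ℂ θ u)) u := h0.snd
  rw [h1.fderiv, h2.fderiv, h3.fderiv]
  simp only [ContinuousLinearMap.comp_apply, ContinuousLinearMap.coe_fst', ContinuousLinearMap.coe_snd']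
  set w := fderiv ℂ θ u v with hw
  have hsplit : w = w.1 • ((1 : ℂ), (0 : ℂ)) + w.2 • ((0 : ℂ), (1 : ℂ)) := by
    ext <;> simp
  conv_lhs => rw [hsplit]
  rw [map_add, map_smul, map_smul, smul_eq_mul, smul_eq_mul]
  ring

theorem dx_comp {θ : ℂ × ℂ → ℂ × ℂ} (hθ : AnalyticAt ℂ θ p) (hf : AnalyticAt ℂ f (θ p)) :
    ∀ᶠ u in 𝓝 p, dx (fun u => f (θ u)) u =
      dx f (θ u) * dx (fun u => (θ u).1) u + dy f (θ u) * dx (fun u => (θ u).2) u := by
  filter_upwards [hθ.eventually_analyticAt, hθ.continuousAt.eventually hf.eventually_analyticAt] with u hu hv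
  exact D2_chain hu hv (1, 0)

theorem dy_comp {θ : ℂ × ℂ → ℂ × ℂ} (hθ : AnalyticAt ℂ θ p) (hf : AnalyticAt ℂ f (θ p)) :
    ∀ᶠ u in 𝓝 p, dy (fun u => f (θ u)) u =
      dx f (θ u) * dy (fun u => (θ u).1) u + dy f (θ u) * dy (fun u => (θ u).2) u := by
  filter_upwards [hθ.eventually_analyticAt, hθ.continuousAt.eventually hf.eventually_analyticAt] with u hu hv
  exact D2_chain hu hv (0, 1)

end Pool.Agent.H68.KR

end
end

section

/-!
# KR Ch: charts of a cone by coordinate ratios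

`CChart P x t σ`: `σ` is the chart at the point `x` of the cone of `P` whose coordinates are the ratios
`x_(t 1) / x_(t 0)`, `x_(t 2) / x_(t 0)`.  `D3 t x v w` is the `3 × 3` minor `t` of the matrix with the rows `x, v, w`.
`d1 φ u`, `d2 φ u` are the partial derivatives of `φ : ℂ × ℂ → V`.

Proofs.
* `D3_add_smul`, `D3_det`, `D3_smul`: `simp only [D3, Pi.add_apply, Pi.smul_apply, smul_eq_mul]; ring`.
* `analyticAt_d1`, `analyticAt_d2`, `analyticAt_D3`: as in `D2` (`AnalyticAt.fderiv`); components by `analyticAt_pi_iff`.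
* `d1_apply`, `d2_apply`: `(d1 φ u) i = dx (fun v => φ v i) u` if `φ` is differentiable at `u` (`fderiv_apply`-lemma of pi
  types: `fderiv_pi`/`HasFDerivAt` composed with the projection `ContinuousLinearMap.proj i`).
* `CChart.D3_eq`: near `0` (`eventually_eventually_nhds`) the components `t 0, t 1, t 2` of `σ` are the affine functions of
  `c0, c1, c2`, so by `d1_apply` `d1 σ u` has the components `0, x (t 0), 0` and `d2 σ u` the components `0, 0, x (t 0)` at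
  `t 0, t 1, t 2`; `D3 = x (t 0) ^ 3`.
* `CChart.param`: `κ u = (φ u (t 1) / φ u (t 0) - x (t 1) / x (t 0), …)`, `c u = φ u (t 0) / x (t 0)`, `surj` at `y = φ u`
  (`φ` is continuous at `p`, `φ p = x`).
* `d1_smul_comp`: product and chain rule at `u`: `d1 φ u = (dx c u) • σ (κ u) + c u • (dx κ₁ u • d1 σ (κ u) + dx κ₂ u • d2 σ (κ u))`
  for `φ = c • σ ∘ κ` near `u`.
* `D3_comp`: from `d1_smul_comp`, `d2_smul_comp`: with `y = σ (κ u)`, `v, w` the derivatives: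
  `D3 s (c y) (c_x y + c (a v + b w)) (c_y y + c (a' v + b' w)) = c ^ 3 (a b' - b a') D3 s y v w` (`simp only [D3, …]; ring`).
* `tan_of_analytic`: the curves `z ↦ φ (p + z (1, 0))`.
* `CChart.tan`: for `v = γ' (0)`: with `κ z = (γ z (t 1) / γ z (t 0) - …, …)`, `c z = γ z (t 0) / x (t 0)`:
  `γ z = c z • σ (κ z)` near `0` by `surj`; differentiate at `0` (`c 0 = 1`, `κ 0 = 0`, `σ 0 = x`):
  `v = c' (0) • x + fderiv σ 0 (κ' 0)` and `fderiv σ 0 (a, b) = a • d1 σ 0 + b • d2 σ 0`.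
* `CChart.nd_near`: `σ` is analytic on a ball about `0` (`AnalyticAt.eventually_analyticAt`); if `eval (σ u) Q = 0` near a point
  `p` of the ball, it vanishes on the ball (identity theorem,
  `AnalyticOnNhd.eqOn_zero_of_preconnected_of_eventuallyEq_zero`), against `nd`.  (`u ↦ eval (σ u) Q` is analytic:
  `analyticAt_eval`, by `MvPolynomial.induction_on`.)
* `CChart.smul_mem`, `cone_smul`: for a homogeneous ideal `eval (c • x) Q = ∑ c ^ d eval x Q_d = 0`, because `Q_d ∈ P`.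
-/

set_option autoImplicit false

open MvPolynomial Topology Filter
open Pool.Agent.H17BP (Tan)

noncomputable section

namespace Pool.Agent.H68.KR

variable {N : ℕ}

/-- The cone (without the vertex) of the zero set of `P`. -/
def cone (P : Ideal (MvPolynomial (Fin (N + 1)) ℂ)) : Set (Fin (N + 1) → ℂ) :=
  {x | x ≠ 0 ∧ ∀ Q ∈ P, eval x Q = 0}

/-- The chart at `x` by the coordinate ratios `x_(t 1) / x_(t 0)`, `x_(t 2) / x_(t 0)`. -/
structure CChart (P : Ideal (MvPolynomial (Fin (N + 1)) ℂ)) (x : Fin (N + 1) → ℂ)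
    (t : Fin 3 → Fin (N + 1)) (σ : ℂ × ℂ → Fin (N + 1) → ℂ) : Prop where
  an : AnalyticAt ℂ σ 0
  zero : σ 0 = x
  ne : x (t 0) ≠ 0
  mem : ∀ᶠ u in 𝓝 (0 : ℂ × ℂ), ∀ Q ∈ P, eval (σ u) Q = 0
  c0 : ∀ᶠ u in 𝓝 (0 : ℂ × ℂ), σ u (t 0) = x (t 0)
  c1 : ∀ᶠ u in 𝓝 (0 : ℂ × ℂ), σ u (t 1) = x (t 1) + x (t 0) * u.1
  c2 : ∀ᶠ u in 𝓝 (0 : ℂ × ℂ), σ u (t 2) = x (t 2) + x (t 0) * u.2
  surj : ∀ᶠ y in 𝓝 x, (∀ Q ∈ P, eval y Q = 0) → y = (y (t 0) / x (t 0)) •
    σ (y (t 1) / y (t 0) - x (t 1) / x (t 0), y (t 2) / y (t 0) - x (t 2) / x (t 0))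
  nd : ∀ (d : ℕ) (Q : MvPolynomial (Fin (N + 1)) ℂ), Q.IsHomogeneous d → Q ∉ P →
    ¬ ∀ᶠ u in 𝓝 (0 : ℂ × ℂ), eval (σ u) Q = 0

/-- The minor `t` of the matrix with the rows `x, v, w`. -/
def D3 {F : Type} [Field F] (t : Fin 3 → Fin (N + 1)) (x v w : Fin (N + 1) → F) : F :=
  x (t 0) * (v (t 1) * w (t 2) - v (t 2) * w (t 1)) -
    x (t 1) * (v (t 0) * w (t 2) - v (t 2) * w (t 0)) +
    x (t 2) * (v (t 0) * w (t 1) - v (t 1) * w (t 0))

/-- The partial derivative in the first variable. -/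
def d1 (φ : ℂ × ℂ → Fin (N + 1) → ℂ) (u : ℂ × ℂ) : Fin (N + 1) → ℂ := fderiv ℂ φ u (1, 0)

/-- The partial derivative in the second variable. -/
def d2 (φ : ℂ × ℂ → Fin (N + 1) → ℂ) (u : ℂ × ℂ) : Fin (N + 1) → ℂ := fderiv ℂ φ u (0, 1)

/-- The Jacobian determinant. -/
def jac (κ : ℂ × ℂ → ℂ × ℂ) (u : ℂ × ℂ) : ℂ :=
  dx (fun v => (κ v).1) u * dy (fun v => (κ v).2) u - dy (fun v => (κ v).1) u * dx (fun v => (κ v).2) u

theorem D3_add_smul {F : Type} [Field F] (t : Fin 3 → Fin (N + 1)) (x v w : Fin (N + 1) → F) (a b : F) :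
    D3 t x (v + a • x) (w + b • x) = D3 t x v w := by
  simp only [D3, Pi.add_apply, Pi.smul_apply, smul_eq_mul]
  ring

theorem D3_det {F : Type} [Field F] (t : Fin 3 → Fin (N + 1)) (x v w : Fin (N + 1) → F) (a b c d : F) :
    D3 t x (a • v + b • w) (c • v + d • w) = (a * d - b * c) * D3 t x v w := by
  simp only [D3, Pi.add_apply, Pi.smul_apply, smul_eq_mul]
  ring

section

variable {φ : ℂ × ℂ → Fin (N + 1) → ℂ} {p : ℂ × ℂ}

theorem analyticAt_d1 (h : AnalyticAt ℂ φ p) : AnalyticAt ℂ (d1 φ) p := by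
  have h1 := ContinuousLinearMap.analyticAt
    (ContinuousLinearMap.apply ℂ (Fin (N + 1) → ℂ) ((1, 0) : ℂ × ℂ)) (fderiv ℂ φ p)
  exact AnalyticAt.comp (f := fderiv ℂ φ) h1 h.fderiv

theorem analyticAt_d2 (h : AnalyticAt ℂ φ p) : AnalyticAt ℂ (d2 φ) p := by
  have h1 := ContinuousLinearMap.analyticAt
    (ContinuousLinearMap.apply ℂ (Fin (N + 1) → ℂ) ((0, 1) : ℂ × ℂ)) (fderiv ℂ φ p)
  exact AnalyticAt.comp (f := fderiv ℂ φ) h1 h.fderiv

theorem analyticAt_D3 (t : Fin 3 → Fin (N + 1)) (h : AnalyticAt ℂ φ p) :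
    AnalyticAt ℂ (fun u => D3 t (φ u) (d1 φ u) (d2 φ u)) p := by
  have hx : ∀ i, AnalyticAt ℂ (fun u => φ u i) p := analyticAt_pi_iff.1 h
  have hv : ∀ i, AnalyticAt ℂ (fun u => d1 φ u i) p := analyticAt_pi_iff.1 (analyticAt_d1 h)
  have hw : ∀ i, AnalyticAt ℂ (fun u => d2 φ u i) p := analyticAt_pi_iff.1 (analyticAt_d2 h)
  unfold D3
  exact (((hx _).mul (((hv _).mul (hw _)).sub ((hv _).mul (hw _)))).sub
    ((hx _).mul (((hv _).mul (hw _)).sub ((hv _).mul (hw _))))).add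
    ((hx _).mul (((hv _).mul (hw _)).sub ((hv _).mul (hw _))))

theorem analyticAt_eval (h : AnalyticAt ℂ φ p) (Q : MvPolynomial (Fin (N + 1)) ℂ) :
    AnalyticAt ℂ (fun u => eval (φ u) Q) p := by
  have hi : ∀ i, AnalyticAt ℂ (fun u => φ u i) p := analyticAt_pi_iff.1 h
  induction Q using MvPolynomial.induction_on with
  | C a =>
    simp only [MvPolynomial.eval_C]
    exact analyticAt_const
  | add q r hq hr =>
    simp only [map_add]
    exact hq.add hr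
  | mul_X q i hq =>
    simp only [map_mul, MvPolynomial.eval_X]
    exact hq.mul (hi i)

theorem analyticAt_jac {κ : ℂ × ℂ → ℂ × ℂ} (h : AnalyticAt ℂ κ p) : AnalyticAt ℂ (jac κ) p := by
  have h1 : AnalyticAt ℂ (fun v => (κ v).1) p := 
    AnalyticAt.fun_comp (ContinuousLinearMap.analyticAt (ContinuousLinearMap.fst ℂ ℂ ℂ) _) h
  have h2 : AnalyticAt ℂ (fun v => (κ v).2) p := 
    AnalyticAt.fun_comp (ContinuousLinearMap.analyticAt (ContinuousLinearMap.snd ℂ ℂ ℂ) _) h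
  exact ((analyticAt_dx h1).mul (analyticAt_dy h2)).sub ((analyticAt_dy h1).mul (analyticAt_dx h2))

theorem d1_apply (h : AnalyticAt ℂ φ p) (i : Fin (N + 1)) : d1 φ p i = dx (fun v => φ v i) p := by
  have h1 := (hasFDerivAt_pi'.1 h.differentiableAt.hasFDerivAt) i
  unfold dx d1
  rw [h1.fderiv]
  rfl

theorem d2_apply (h : AnalyticAt ℂ φ p) (i : Fin (N + 1)) : d2 φ p i = dy (fun v => φ v i) p := by
  have h1 := (hasFDerivAt_pi'.1 h.differentiableAt.hasFDerivAt) i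
  unfold dy d2
  rw [h1.fderiv]
  rfl

theorem d1_smul_comp {σ : ℂ × ℂ → Fin (N + 1) → ℂ} {c : ℂ × ℂ → ℂ} {κ : ℂ × ℂ → ℂ × ℂ}
    (hc : AnalyticAt ℂ c p) (hκ : AnalyticAt ℂ κ p) (hσ : AnalyticAt ℂ σ (κ p))
    (h : ∀ᶠ u in 𝓝 p, φ u = c u • σ (κ u)) :
    ∀ᶠ u in 𝓝 p, d1 φ u = dx c u • σ (κ u) +
      c u • (dx (fun v => (κ v).1) u • d1 σ (κ u) + dx (fun v => (κ v).2) u • d2 σ (κ u)) := by
  have hφ : AnalyticAt ℂ φ p := by
    have h1 : AnalyticAt ℂ (fun u => c u • σ (κ u)) p := hc.smul (AnalyticAt.fun_comp hσ hκ)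
    exact h1.congr (h.mono fun u hu => hu.symm)
  have hκc : ∀ᶠ u in 𝓝 p, AnalyticAt ℂ σ (κ u) :=
    hκ.continuousAt.eventually hσ.eventually_analyticAt
  have hall : ∀ i : Fin (N + 1), ∀ᶠ u in 𝓝 p, d1 φ u i = (dx c u • σ (κ u) +
      c u • (dx (fun v => (κ v).1) u • d1 σ (κ u) + dx (fun v => (κ v).2) u • d2 σ (κ u))) i := by
    intro i
    have hσi : AnalyticAt ℂ (fun v => σ v i) (κ p) := analyticAt_pi_iff.1 hσ i
    have hσκ : AnalyticAt ℂ (fun u => σ (κ u) i) p :=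
      AnalyticAt.fun_comp (f := κ) (g := fun v => σ v i) hσi hκ
    have e1 : ∀ᶠ u in 𝓝 p, φ u i = c u * σ (κ u) i := h.mono fun u hu => by
      rw [hu, Pi.smul_apply, smul_eq_mul]
    have e2 := dx_congr e1
    have e3 := dx_mul hc hσκ
    have e4 := dx_comp (f := fun v => σ v i) hκ hσi
    filter_upwards [e2, e3, e4, hκc, hφ.eventually_analyticAt] with u u2 u3 u4 u5 u6
    rw [d1_apply u6, u2, u3, u4, Pi.add_apply, Pi.smul_apply, Pi.smul_apply, Pi.add_apply,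
      Pi.smul_apply, Pi.smul_apply, d1_apply u5, d2_apply u5]
    simp only [smul_eq_mul]
    ring
  filter_upwards [eventually_all.2 hall] with u hu
  funext i
  exact hu i

theorem d2_smul_comp {σ : ℂ × ℂ → Fin (N + 1) → ℂ} {c : ℂ × ℂ → ℂ} {κ : ℂ × ℂ → ℂ × ℂ}
    (hc : AnalyticAt ℂ c p) (hκ : AnalyticAt ℂ κ p) (hσ : AnalyticAt ℂ σ (κ p))
    (h : ∀ᶠ u in 𝓝 p, φ u = c u • σ (κ u)) :
    ∀ᶠ u in 𝓝 p, d2 φ u = dy c u • σ (κ u) +
      c u • (dy (fun v => (κ v).1) u • d1 σ (κ u) + dy (fun v => (κ v).2) u • d2 σ (κ u)) := by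
  have hφ : AnalyticAt ℂ φ p := by
    have h1 : AnalyticAt ℂ (fun u => c u • σ (κ u)) p := hc.smul (AnalyticAt.fun_comp hσ hκ)
    exact h1.congr (h.mono fun u hu => hu.symm)
  have hκc : ∀ᶠ u in 𝓝 p, AnalyticAt ℂ σ (κ u) :=
    hκ.continuousAt.eventually hσ.eventually_analyticAt
  have hall : ∀ i : Fin (N + 1), ∀ᶠ u in 𝓝 p, d2 φ u i = (dy c u • σ (κ u) +
      c u • (dy (fun v => (κ v).1) u • d1 σ (κ u) + dy (fun v => (κ v).2) u • d2 σ (κ u))) i := by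
    intro i
    have hσi : AnalyticAt ℂ (fun v => σ v i) (κ p) := analyticAt_pi_iff.1 hσ i
    have hσκ : AnalyticAt ℂ (fun u => σ (κ u) i) p :=
      AnalyticAt.fun_comp (f := κ) (g := fun v => σ v i) hσi hκ
    have e1 : ∀ᶠ u in 𝓝 p, φ u i = c u * σ (κ u) i := h.mono fun u hu => by
      rw [hu, Pi.smul_apply, smul_eq_mul]
    have e2 := dy_congr e1
    have e3 := dy_mul hc hσκ
    have e4 := dy_comp (f := fun v => σ v i) hκ hσi
    filter_upwards [e2, e3, e4, hκc, hφ.eventually_analyticAt] with u u2 u3 u4 u5 u6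
    rw [d2_apply u6, u2, u3, u4, Pi.add_apply, Pi.smul_apply, Pi.smul_apply, Pi.add_apply,
      Pi.smul_apply, Pi.smul_apply, d1_apply u5, d2_apply u5]
    simp only [smul_eq_mul]
    ring
  filter_upwards [eventually_all.2 hall] with u hu
  funext i
  exact hu i

theorem D3_comp (s : Fin 3 → Fin (N + 1)) {σ : ℂ × ℂ → Fin (N + 1) → ℂ} {c : ℂ × ℂ → ℂ}
    {κ : ℂ × ℂ → ℂ × ℂ} (hc : AnalyticAt ℂ c p) (hκ : AnalyticAt ℂ κ p) (hσ : AnalyticAt ℂ σ (κ p))
    (h : ∀ᶠ u in 𝓝 p, φ u = c u • σ (κ u)) :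
    ∀ᶠ u in 𝓝 p, D3 s (φ u) (d1 φ u) (d2 φ u) =
      c u ^ 3 * jac κ u * D3 s (σ (κ u)) (d1 σ (κ u)) (d2 σ (κ u)) := by
  filter_upwards [h, d1_smul_comp hc hκ hσ h, d2_smul_comp hc hκ hσ h] with u h0 h1 h2
  rw [h1, h2, h0]
  simp only [D3, jac, Pi.add_apply, Pi.smul_apply, smul_eq_mul]
  ring

theorem tan_d1 {X : Set (Fin (N + 1) → ℂ)} (h : AnalyticAt ℂ φ p) (hX : ∀ᶠ u in 𝓝 p, φ u ∈ X) :
    d1 φ p ∈ Tan X (φ p) := by
  have hl : HasDerivAt (fun z : ℂ => p + z • ((1, 0) : ℂ × ℂ)) ((1, 0)) 0 := by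
    have h1 := ((hasDerivAt_id (0 : ℂ)).smul_const ((1, 0) : ℂ × ℂ)).const_add p
    rw [one_smul] at h1
    exact h1
  have h0 : p + (0 : ℂ) • ((1, 0) : ℂ × ℂ) = p := by rw [zero_smul, add_zero]
  have hla : AnalyticAt ℂ (fun z : ℂ => p + z • ((1, 0) : ℂ × ℂ)) 0 :=
    analyticAt_const.add (analyticAt_id.smul analyticAt_const)
  refine ⟨fun z => φ (p + z • ((1, 0) : ℂ × ℂ)), ?_, ?_, ?_, ?_⟩
  · refine AnalyticAt.fun_comp (g := φ) ?_ hla
    rw [h0]
    exact h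
  · have h2 := hla.continuousAt
    have h3 : Tendsto (fun z : ℂ => p + z • ((1, 0) : ℂ × ℂ)) (𝓝 0) (𝓝 p) := by
      have h4 := h2.tendsto
      rwa [h0] at h4
    exact h3.eventually hX
  · dsimp only
    rw [h0]
  · have hφ : HasFDerivAt φ (fderiv ℂ φ p) (p + (0 : ℂ) • ((1, 0) : ℂ × ℂ)) := by
      rw [h0]
      exact h.differentiableAt.hasFDerivAt
    exact (hφ.comp_hasDerivAt 0 hl).deriv

theorem tan_d2 {X : Set (Fin (N + 1) → ℂ)} (h : AnalyticAt ℂ φ p) (hX : ∀ᶠ u in 𝓝 p, φ u ∈ X) :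
    d2 φ p ∈ Tan X (φ p) := by
  have hl : HasDerivAt (fun z : ℂ => p + z • ((0, 1) : ℂ × ℂ)) ((0, 1)) 0 := by
    have h1 := ((hasDerivAt_id (0 : ℂ)).smul_const ((0, 1) : ℂ × ℂ)).const_add p
    rw [one_smul] at h1
    exact h1
  have h0 : p + (0 : ℂ) • ((0, 1) : ℂ × ℂ) = p := by rw [zero_smul, add_zero]
  have hla : AnalyticAt ℂ (fun z : ℂ => p + z • ((0, 1) : ℂ × ℂ)) 0 :=
    analyticAt_const.add (analyticAt_id.smul analyticAt_const)
  refine ⟨fun z => φ (p + z • ((0, 1) : ℂ × ℂ)), ?_, ?_, ?_, ?_⟩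
  · refine AnalyticAt.fun_comp (g := φ) ?_ hla
    rw [h0]
    exact h
  · have h2 := hla.continuousAt
    have h3 : Tendsto (fun z : ℂ => p + z • ((0, 1) : ℂ × ℂ)) (𝓝 0) (𝓝 p) := by
      have h4 := h2.tendsto
      rwa [h0] at h4
    exact h3.eventually hX
  · dsimp only
    rw [h0]
  · have hφ : HasFDerivAt φ (fderiv ℂ φ p) (p + (0 : ℂ) • ((0, 1) : ℂ × ℂ)) := by
      rw [h0]
      exact h.differentiableAt.hasFDerivAt
    exact (hφ.comp_hasDerivAt 0 hl).deriv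

end

section

variable {P : Ideal (MvPolynomial (Fin (N + 1)) ℂ)} {x : Fin (N + 1) → ℂ} {t : Fin 3 → Fin (N + 1)}
  {σ : ℂ × ℂ → Fin (N + 1) → ℂ}

private theorem Ch_eval_smul {Q : MvPolynomial (Fin (N + 1)) ℂ} {n : ℕ} (hQ : Q.IsHomogeneous n) (c : ℂ)
    (x : Fin (N + 1) → ℂ) : eval (c • x) Q = c ^ n * eval x Q := by
  rw [eval_eq, eval_eq, Finset.mul_sum]
  refine Finset.sum_congr rfl fun d hd => ?_
  have h1 : ∑ i ∈ d.support, d i = n := by
    have h2 := hQ (mem_support_iff.1 hd)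
    rw [← h2, Finsupp.weight_apply, Finsupp.sum]
    refine Finset.sum_congr rfl fun i _ => ?_
    simp
  have h3 : ∏ i ∈ d.support, (c • x) i ^ d i = c ^ n * ∏ i ∈ d.support, x i ^ d i := by
    rw [← h1, ← Finset.prod_pow_eq_pow_sum, ← Finset.prod_mul_distrib]
    refine Finset.prod_congr rfl fun i _ => ?_
    rw [Pi.smul_apply, smul_eq_mul, mul_pow]
  rw [h3]
  ring

theorem cone_smul (hP : ∀ p ∈ P, ∀ n, homogeneousComponent n p ∈ P) (hx : x ∈ cone P) {c : ℂ}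
    (hc : c ≠ 0) : c • x ∈ cone P := by
  obtain ⟨h1, h2⟩ := hx
  refine ⟨smul_ne_zero hc h1, fun Q hQ => ?_⟩
  rw [← sum_homogeneousComponent Q, map_sum]
  refine Finset.sum_eq_zero fun i _ => ?_
  rw [Ch_eval_smul (homogeneousComponent_isHomogeneous i Q), h2 _ (hP Q hQ i), mul_zero]

theorem CChart.mem_cone (h : CChart P x t σ) : ∀ᶠ u in 𝓝 (0 : ℂ × ℂ), σ u ∈ cone P := by
  filter_upwards [h.mem, h.c0] with u h1 h2
  refine ⟨fun h3 => h.ne ?_, h1⟩
  rw [← h2, h3]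
  rfl

theorem CChart.D3_eq (h : CChart P x t σ) :
    ∀ᶠ u in 𝓝 (0 : ℂ × ℂ), D3 t (σ u) (d1 σ u) (d2 σ u) = x (t 0) ^ 3 := by
  filter_upwards [h.an.eventually_analyticAt, eventually_eventually_nhds.2 h.c0,
    eventually_eventually_nhds.2 h.c1, eventually_eventually_nhds.2 h.c2] with u hu h0 h1 h2
  have a0 : HasFDerivAt (fun v => σ v (t 0)) (0 : ℂ × ℂ →L[ℂ] ℂ) u :=
    (hasFDerivAt_const (x (t 0)) u).congr_of_eventuallyEq h0
  have a1 : HasFDerivAt (fun v => σ v (t 1)) (x (t 0) • ContinuousLinearMap.fst ℂ ℂ ℂ) u := by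
    have h3 : HasFDerivAt (fun v : ℂ × ℂ => x (t 1) + x (t 0) * v.1)
        (x (t 0) • ContinuousLinearMap.fst ℂ ℂ ℂ) u :=
      (hasFDerivAt_fst.const_mul (x (t 0))).const_add (x (t 1))
    exact h3.congr_of_eventuallyEq h1
  have a2 : HasFDerivAt (fun v => σ v (t 2)) (x (t 0) • ContinuousLinearMap.snd ℂ ℂ ℂ) u := by
    have h3 : HasFDerivAt (fun v : ℂ × ℂ => x (t 2) + x (t 0) * v.2)
        (x (t 0) • ContinuousLinearMap.snd ℂ ℂ ℂ) u :=
      (hasFDerivAt_snd.const_mul (x (t 0))).const_add (x (t 2))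
    exact h3.congr_of_eventuallyEq h2
  unfold D3
  rw [d1_apply hu, d1_apply hu, d1_apply hu, d2_apply hu, d2_apply hu, d2_apply hu]
  unfold dx dy
  rw [a0.fderiv, a1.fderiv, a2.fderiv, h0.self_of_nhds]
  simp only [ContinuousLinearMap.zero_apply, ContinuousLinearMap.smul_apply, ContinuousLinearMap.coe_fst',
    ContinuousLinearMap.coe_snd', smul_eq_mul]
  ring

private theorem Ch_proj {E : Type} [NormedAddCommGroup E] [NormedSpace ℂ E] {φ : E → Fin (N + 1) → ℂ} {p : E}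
    (h : AnalyticAt ℂ φ p) (i : Fin (N + 1)) : AnalyticAt ℂ (fun u => φ u i) p :=
  analyticAt_pi_iff.1 h i

private theorem Ch_param (h : CChart P x t σ) {E : Type} [NormedAddCommGroup E] [NormedSpace ℂ E]
    {φ : E → Fin (N + 1) → ℂ} {p : E}
    (hφ : AnalyticAt ℂ φ p) (hφx : φ p = x) (hφP : ∀ᶠ u in 𝓝 p, ∀ Q ∈ P, eval (φ u) Q = 0) :
    ∃ (κ : E → ℂ × ℂ) (c : E → ℂ), AnalyticAt ℂ κ p ∧ AnalyticAt ℂ c p ∧ κ p = 0 ∧ c p = 1 ∧
      ∀ᶠ u in 𝓝 p, φ u = c u • σ (κ u) := by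
  have hne : φ p (t 0) ≠ 0 := by
    rw [hφx]
    exact h.ne
  refine ⟨fun u => (φ u (t 1) / φ u (t 0) - x (t 1) / x (t 0), φ u (t 2) / φ u (t 0) - x (t 2) / x (t 0)),
    fun u => φ u (t 0) / x (t 0), ?_, ?_, ?_, ?_, ?_⟩
  · exact (((Ch_proj hφ _).div (Ch_proj hφ _) hne).sub analyticAt_const).prod
      (((Ch_proj hφ _).div (Ch_proj hφ _) hne).sub analyticAt_const)
  · exact (Ch_proj hφ _).div analyticAt_const h.ne
  · simp only [hφx, sub_self]
    rfl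
  · simp only [hφx]
    exact div_self h.ne
  · have h1 : Tendsto φ (𝓝 p) (𝓝 x) := by
      have := hφ.continuousAt.tendsto
      rwa [hφx] at this
    filter_upwards [h1.eventually h.surj, hφP] with u h2 h3
    exact h2 h3

theorem CChart.param (h : CChart P x t σ) {φ : ℂ × ℂ → Fin (N + 1) → ℂ} {p : ℂ × ℂ}
    (hφ : AnalyticAt ℂ φ p) (hφx : φ p = x) (hφP : ∀ᶠ u in 𝓝 p, ∀ Q ∈ P, eval (φ u) Q = 0) :
    ∃ (κ : ℂ × ℂ → ℂ × ℂ) (c : ℂ × ℂ → ℂ), AnalyticAt ℂ κ p ∧ AnalyticAt ℂ c p ∧ κ p = 0 ∧ c p = 1 ∧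
      ∀ᶠ u in 𝓝 p, φ u = c u • σ (κ u) := by
  exact Ch_param h hφ hφx hφP

theorem CChart.tan (h : CChart P x t σ) {v : Fin (N + 1) → ℂ} (hv : v ∈ Tan (cone P) x) :
    ∃ a b c : ℂ, v = a • d1 σ 0 + b • d2 σ 0 + c • x := by
  obtain ⟨γ, hγ, hγP, hγ0, hγv⟩ := hv
  obtain ⟨κ, c, hκ, hc, hκ0, hc0, he⟩ := Ch_param h hγ hγ0 (hγP.mono fun z hz => hz.2)
  have h1 : HasDerivAt γ v 0 := by
    rw [← hγv]
    exact hγ.differentiableAt.hasDerivAt
  have h2 : HasDerivAt κ (deriv κ 0) 0 := hκ.differentiableAt.hasDerivAt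
  have h3 : HasDerivAt c (deriv c 0) 0 := hc.differentiableAt.hasDerivAt
  have h4 : HasFDerivAt σ (fderiv ℂ σ 0) (κ 0) := by
    rw [hκ0]
    exact h.an.differentiableAt.hasFDerivAt
  have h5 : HasDerivAt (fun z => σ (κ z)) (fderiv ℂ σ 0 (deriv κ 0)) 0 := h4.comp_hasDerivAt 0 h2
  have h6 : HasDerivAt (fun z => c z • σ (κ z)) (c 0 • fderiv ℂ σ 0 (deriv κ 0) + deriv c 0 • σ (κ 0)) 0 :=
    h3.smul h5
  have h7 := h1.unique (h6.congr_of_eventuallyEq he)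
  rw [hc0, one_smul, hκ0, h.zero] at h7
  refine ⟨(deriv κ 0).1, (deriv κ 0).2, deriv c 0, ?_⟩
  have h8 : deriv κ 0 = (deriv κ 0).1 • ((1 : ℂ), (0 : ℂ)) + (deriv κ 0).2 • ((0 : ℂ), (1 : ℂ)) := by
    ext <;> simp
  rw [h7]
  congr 1
  conv_lhs => rw [h8]
  rw [map_add, map_smul, map_smul]
  rfl

theorem CChart.nd_near (h : CChart P x t σ) :
    ∀ᶠ p in 𝓝 (0 : ℂ × ℂ), ∀ (d : ℕ) (Q : MvPolynomial (Fin (N + 1)) ℂ), Q.IsHomogeneous d → Q ∉ P →
      ¬ ∀ᶠ u in 𝓝 p, eval (σ u) Q = 0 := by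
  obtain ⟨r, hr, hB⟩ := Metric.eventually_nhds_iff_ball.1 h.an.eventually_analyticAt
  filter_upwards [Metric.ball_mem_nhds (0 : ℂ × ℂ) hr] with p hp d Q hQ hQP hcon
  have h1 : AnalyticOnNhd ℂ (fun u => eval (σ u) Q) (Metric.ball (0 : ℂ × ℂ) r) :=
    fun u hu => analyticAt_eval (hB u hu) Q
  have h2 := h1.eqOn_zero_of_preconnected_of_eventuallyEq_zero
    (convex_ball (0 : ℂ × ℂ) r).isPreconnected hp hcon
  refine h.nd d Q hQ hQP ?_
  filter_upwards [Metric.ball_mem_nhds (0 : ℂ × ℂ) hr] with u hu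
  exact h2 hu

end

end Pool.Agent.H68.KR

end
end
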