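import Pool.Agent.H18.GGT.M03
import Pool.Agent.H18.GGT.M09

/-! The parts of this file: GG.Defs, GB.Defs. -/

section

/-!
# GG Defs: symmetric differentials in polar position, sections of `K^M (-1)`, arcs

`P` is a homogeneous prime ideal, `X` the projective variety given by it, `cone P` its affine cone without the vertex, `conTan P x` the tangent space of the
cone at `x` (so `T_x X = conTan P x / ℂ x`).  The theorem (PROJECT GG, notes 4542, 4547, 4549, message 69251 of helper9): if `X` has symmetric differentials
with the property `Polar` (e.g. if `S^m Ω_X` is globally generated) and `K^M (-1)` has a nonzero section, then all nonconstant entire curves of order two lie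
in a hypersurface section `R = 0` of `X`.
-/

set_option autoImplicit false

open MvPolynomial Topology Filter Metric
open Pool.Agent.H13.SM (conTan cone)
open Pool.Agent.H17 (PN VanishesAt)

noncomputable section

namespace Pool.Agent.GG

variable {N : ℕ}

/-- A symmetric differential of degree `m` on the projective variety of `P`: a function of a point `x` of the cone and a tangent vector `v` of the cone at
`x`, homogeneous of degree `m` in `v`, which is given, up to powers of `x i`, by a polynomial in `(x, v)`, and which descends to the variety. -/
structure SymSec (P : Ideal (MvPolynomial (Fin (N + 1)) ℂ)) (m : ℕ) where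
  /-- the section -/
  toFun : (Fin (N + 1) → ℂ) → (Fin (N + 1) → ℂ) → ℂ
  regular : ∀ i, ∃ (e : ℕ) (A : MvPolynomial (Fin (N + 1) ⊕ Fin (N + 1)) ℂ),
    ∀ x ∈ cone P, ∀ v ∈ conTan P x, x i ^ e * toFun x v = eval (Sum.elim x v) A
  add_smul : ∀ x ∈ cone P, ∀ v ∈ conTan P x, ∀ a : ℂ, toFun x (v + a • x) = toFun x v
  smul : ∀ x ∈ cone P, ∀ v ∈ conTan P x, ∀ a : ℂ, toFun x (a • v) = a ^ m * toFun x v
  scale : ∀ x ∈ cone P, ∀ v ∈ conTan P x, ∀ c : ℂ, c ≠ 0 → toFun (c • x) (c • v) = toFun x v

/-! ## phase space: the polynomial family `G` of functions which are constant along the curves -/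

/-! ## the family of functions in the chart `x_a = 1` -/

end Pool.Agent.GG

end
end

section

/-!
# GB Defs: subvarieties which are not of general type (Theorem B of GG-ALL)

`K` is the function field of a variety of dimension `k`, `z` a transcendence basis.

* `DC E b`: `b` is a basis of the differentials of coordinates at the prime divisor `E`: `b i = d g_i`, and the dual derivations preserve the local ring of `E`.
* `jac z b = det (∂z_j / ∂g_i)`, `RegF z l f`: the form `f (dz_1 ∧ … ∧ dz_k)^l` is regular along all prime divisors.
* `Mon d M`: the monomials of degree `M` in `d` variables, `cdet p`: the determinant of the coefficients of the polynomials `p α`, `α ∈ Mon d M`.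
* `sbs g`: the linear substitution of variables.
* `SymFam`: a family of symmetric differentials of degree `M`, as a function of frames `e` (tuples of `d` derivations).
-/

set_option autoImplicit false

open MvPolynomial
open Pool.Agent.H13.SM (conTan cone)

noncomputable section

namespace Pool.Agent.GB

/-! ## globally generated symmetric powers -/

/-- The symmetric differentials `θ k` of degree `m` generate `S^m Ω_X` at every point: every homogeneous polynomial of degree `m` on the tangent space at
`x` is a linear combination of them. -/
def Generated {N : ℕ} {P : Ideal (MvPolynomial (Fin (N + 1)) ℂ)} {J m : ℕ} (θ : Fin J → Pool.Agent.GG.SymSec P m) : Prop :=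
  ∀ x ∈ cone P, ∀ G : MvPolynomial (Fin (N + 1)) ℂ, G.IsHomogeneous m → (∀ (v : Fin (N + 1) → ℂ) (a : ℂ), eval (v + a • x) G = eval v G) →
    ∃ c : Fin J → ℂ, ∀ v ∈ conTan P x, eval v G = ∑ k, c k * (θ k).toFun x v

/-! ## forms -/

section

end

/-! ## homogeneous polynomials -/

/-! ## relations -/

section

end

/-! ## the polynomials of the symmetric differentials in a frame -/

section

end

end Pool.Agent.GB

end
end
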