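import Mathlib

/-! The parts of this file: GA.Sel, GB.Trf, H13.SM.Null, H62.FC.Place, H99.Cover.Defs. -/

section

/-!
# GA Sel: the selection of good levels

`A` is continuous, monotone, unbounded and `T X = ∫_1^X A`.  Then there are `X n → ∞` with `X n * A (X n) ≤ ε n * T (X n) ^ 2`, `ε n → 0`.
-/

set_option autoImplicit false

open Filter Topology MeasureTheory intervalIntegral Set

namespace Pool.Agent.GA

/-- the integral of `A` -/
noncomputable def TT (A : ℝ → ℝ) (X : ℝ) : ℝ := ∫ t in (1 : ℝ)..X, A t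

variable {A : ℝ → ℝ}

theorem TT_sub (hc : Continuous A) (a b : ℝ) : TT A b - TT A a = ∫ t in a..b, A t := by
  unfold TT
  rw [integral_interval_sub_left (hc.intervalIntegrable _ _) (hc.intervalIntegrable _ _)]

theorem hasDerivAt_TT (hc : Continuous A) (X : ℝ) : HasDerivAt (TT A) (A X) X :=
  integral_hasDerivAt_right (hc.intervalIntegrable _ _) (hc.stronglyMeasurableAtFilter _ _) hc.continuousAt

theorem TT_sub_le (hc : Continuous A) (hm : Monotone A) {a b : ℝ} (hab : a ≤ b) : TT A b - TT A a ≤ (b - a) * A b := by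
  rw [TT_sub hc]
  have h := intervalIntegral.integral_mono_on (μ := volume) hab (hc.intervalIntegrable _ _)
    (g := fun _ => A b) intervalIntegrable_const (fun x hx => hm hx.2)
  simpa using h

theorem le_TT_sub (hc : Continuous A) (hm : Monotone A) {a b : ℝ} (hab : a ≤ b) : (b - a) * A a ≤ TT A b - TT A a := by
  rw [TT_sub hc]
  have h := intervalIntegral.integral_mono_on (μ := volume) hab (f := fun _ => A a) intervalIntegrable_const (hc.intervalIntegrable _ _)
    (fun x hx => hm hx.1)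
  simpa using h

/-- `T X / X → ∞` -/
theorem tendsto_TT_div (hc : Continuous A) (hm : Monotone A) (hA : Tendsto A atTop atTop) :
    Tendsto (fun X => TT A X / X) atTop atTop := by
  rw [tendsto_atTop]
  intro C
  obtain ⟨a, ha⟩ := (hA.eventually_ge_atTop (2 * |C| + 2)).exists_forall_of_atTop
  have h2 : ∀ᶠ X in atTop, |TT A a| + (2 * |C| + 2) * |a| ≤ X := eventually_ge_atTop _
  filter_upwards [h2, eventually_ge_atTop a, eventually_ge_atTop 1] with X hX haX h1
  have h3 := le_TT_sub hc hm haX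
  have h4 := ha a le_rfl
  have h5 : (X - a) * (2 * |C| + 2) ≤ (X - a) * A a := mul_le_mul_of_nonneg_left h4 (by linarith)
  have hXpos : 0 < X := by linarith
  rw [le_div_iff₀ hXpos]
  have h6 : C ≤ |C| := le_abs_self C
  have h7 : -|TT A a| ≤ TT A a := neg_abs_le _
  have h8 : a ≤ |a| := le_abs_self a
  nlinarith [abs_nonneg C, abs_nonneg a, mul_nonneg (abs_nonneg C) (abs_nonneg a), mul_le_mul_of_nonneg_left h8 (abs_nonneg C),
    mul_le_mul_of_nonneg_right h6 hXpos.le]

/-- for every `ε` there are arbitrarily large `X` with `X A(X) < ε T(X)^2` -/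
theorem exists_sel (hc : Continuous A) (hm : Monotone A) (hA : Tendsto A atTop atTop) {ε : ℝ} (hε : 0 < ε) (X₀ : ℝ) :
    ∃ X, X₀ ≤ X ∧ X * A X < ε * TT A X ^ 2 := by
  by_contra hcon
  push Not at hcon
  have hT := tendsto_TT_div hc hm hA
  obtain ⟨a, ha⟩ := (hT.eventually_ge_atTop 1).exists_forall_of_atTop
  set X₁ := max (max X₀ a) 1 with hX1
  have h1 : ∀ X, X₁ ≤ X → X ≤ TT A X := by
    intro X hX
    have h2 := ha X (le_trans (le_trans (le_max_right _ _) (le_max_left _ _)) hX)
    have h3 : 0 < X := lt_of_lt_of_le one_pos (le_trans (le_max_right _ _) hX)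
    rwa [le_div_iff₀ h3, one_mul] at h2
  have hpos : ∀ X, X₁ ≤ X → 0 < X := fun X hX => lt_of_lt_of_le one_pos (le_trans (le_max_right _ _) hX)
  have hTpos : ∀ X, X₁ ≤ X → 0 < TT A X := fun X hX => lt_of_lt_of_le (hpos X hX) (h1 X hX)
  have hder : ∀ X, X₁ ≤ X → HasDerivAt (fun X => -(TT A X)⁻¹ - ε * Real.log X) (A X / TT A X ^ 2 - ε * X⁻¹) X := by
    intro X hX
    have e1 := (hasDerivAt_TT hc X).inv (hTpos X hX).ne'
    have e2 := (Real.hasDerivAt_log (hpos X hX).ne').const_mul ε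
    have e3 := e1.neg.sub e2
    exact e3.congr_deriv (by rw [neg_div, neg_neg])
  have hmono : MonotoneOn (fun X => -(TT A X)⁻¹ - ε * Real.log X) (Ici X₁) := by
    apply monotoneOn_of_deriv_nonneg (convex_Ici X₁)
    · exact fun X hX => (hder X hX).continuousAt.continuousWithinAt
    · intro X hX
      rw [interior_Ici] at hX
      exact (hder X (le_of_lt hX)).differentiableAt.differentiableWithinAt
    · intro X hX
      rw [interior_Ici] at hX
      have hX' : X₁ ≤ X := le_of_lt hX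
      rw [(hder X hX').deriv]
      have h4 := hcon X (le_trans (le_trans (le_max_left _ _) (le_max_left _ _)) hX')
      have h5 := hpos X hX'
      have h6 := hTpos X hX'
      have h7 : ε * X⁻¹ ≤ A X / TT A X ^ 2 := by
        rw [le_div_iff₀ (by positivity), mul_assoc, inv_mul_eq_div, ← mul_div_assoc, div_le_iff₀ h5]
        linarith
      linarith
  have hlog : Tendsto (fun X => ε * Real.log X) atTop atTop := Tendsto.const_mul_atTop hε Real.tendsto_log_atTop
  obtain ⟨X, hX, hX2⟩ := ((hlog.eventually_gt_atTop ((TT A X₁)⁻¹ + ε * Real.log X₁)).and (eventually_ge_atTop X₁)).exists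
  have h8 := hmono (mem_Ici.mpr le_rfl) hX2 hX2
  simp only at h8
  have h9 : 0 < (TT A X)⁻¹ := inv_pos.mpr (hTpos X hX2)
  linarith

/-- **The selection of levels.** -/
theorem sel (hc : Continuous A) (hm : Monotone A) (hA : Tendsto A atTop atTop) :
    ∃ X : ℕ → ℝ, (∀ n : ℕ, (n : ℝ) + 4 ≤ X n) ∧ (∀ n : ℕ, ((n : ℝ) + 1) * (X n * A (X n)) ≤ TT A (X n) ^ 2) ∧
      (∀ n : ℕ, ((n : ℝ) + 1) * X n ≤ TT A (X n)) ∧ (∀ n : ℕ, TT A (X n) ≤ 2 * TT A (X n - 2 / TT A (X n))) := by
  have hT := tendsto_TT_div hc hm hA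
  have key : ∀ n : ℕ, ∃ X : ℝ, (n : ℝ) + 4 ≤ X ∧ ((n : ℝ) + 1) * (X * A X) ≤ TT A X ^ 2 ∧ ((n : ℝ) + 1) * X ≤ TT A X ∧
      TT A X ≤ 2 * TT A (X - 2 / TT A X) := by
    intro n
    obtain ⟨a, ha⟩ := (hT.eventually_ge_atTop ((n : ℝ) + 1)).exists_forall_of_atTop
    obtain ⟨b, hb⟩ := (hA.eventually_ge_atTop 0).exists_forall_of_atTop
    have hn : (0 : ℝ) < (n : ℝ) + 1 := by positivity
    obtain ⟨X, hX, hX2⟩ := exists_sel hc hm hA (ε := ((n : ℝ) + 1)⁻¹) (inv_pos.mpr hn) (max (max a b) ((n : ℝ) + 4))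
    have hX4 : (n : ℝ) + 4 ≤ X := le_trans (le_max_right _ _) hX
    have hXa : a ≤ X := le_trans (le_trans (le_max_left _ _) (le_max_left _ _)) hX
    have hXb : b ≤ X := le_trans (le_trans (le_max_right _ _) (le_max_left _ _)) hX
    have hXpos : 0 < X := by linarith
    have h1 := ha X hXa
    rw [le_div_iff₀ hXpos] at h1
    have hT0 : 0 < TT A X := lt_of_lt_of_le (by positivity) h1
    have hAX : 0 ≤ A X := hb X hXb
    have h2 : ((n : ℝ) + 1) * (X * A X) ≤ TT A X ^ 2 := by
      have h3 : X * A X ≤ ((n : ℝ) + 1)⁻¹ * TT A X ^ 2 := hX2.le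
      calc ((n : ℝ) + 1) * (X * A X) ≤ ((n : ℝ) + 1) * (((n : ℝ) + 1)⁻¹ * TT A X ^ 2) := mul_le_mul_of_nonneg_left h3 hn.le
        _ = TT A X ^ 2 := by field_simp
    refine ⟨X, hX4, h2, h1, ?_⟩
    have h4 := TT_sub_le hc hm (a := X - 2 / TT A X) (b := X) (by linarith [div_pos two_pos hT0])
    have h5 : X - (X - 2 / TT A X) = 2 / TT A X := by ring
    rw [h5] at h4
    -- 4 A(X) ≤ X A(X) ≤ T^2
    have h6 : 4 * A X ≤ TT A X ^ 2 := by
      have h7 : X * A X ≤ TT A X ^ 2 := by
        have : 1 * (X * A X) ≤ ((n : ℝ) + 1) * (X * A X) :=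
          mul_le_mul_of_nonneg_right (by linarith [Nat.cast_nonneg (α := ℝ) n]) (mul_nonneg hXpos.le hAX)
        linarith
      have : 4 * A X ≤ X * A X := mul_le_mul_of_nonneg_right (by linarith [Nat.cast_nonneg (α := ℝ) n]) hAX
      linarith
    have h8 : 2 / TT A X * A X ≤ TT A X / 2 := by
      rw [div_mul_eq_mul_div, div_le_div_iff₀ hT0 two_pos]
      nlinarith
    linarith
  choose X h1 h2 h3 h4 using key
  exact ⟨X, h1, h2, h3, h4⟩

end Pool.Agent.GA

end

section

/-!
# GB Trf: a closed condition on complex points holds at all points with values in reduced rings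

PROOF.  Nullstellensatz (`MvPolynomial.vanishingIdeal_zeroLocus_eq_radical`): a power of `G` is in the ideal generated by `S`.
-/

set_option autoImplicit false

open MvPolynomial

namespace Pool.Agent.GB

theorem transfer {σ : Type} [Finite σ] {S : Set (MvPolynomial σ ℂ)} {G : MvPolynomial σ ℂ}
    (h : ∀ y : σ → ℂ, (∀ s ∈ S, eval y s = 0) → eval y G = 0) {F : Type} [CommRing F] [IsReduced F] [Algebra ℂ F] (y : σ → F)
    (hy : ∀ s ∈ S, aeval y s = 0) : aeval y G = 0 := by
  have h0 : ∀ (x : σ → ℂ) (g : MvPolynomial σ ℂ), aeval x g = eval x g := fun x g => by rw [← coe_aeval_eq_eval]; rfl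
  have h1 : G ∈ vanishingIdeal ℂ (zeroLocus ℂ (Ideal.span S)) := by
    intro x hx
    rw [h0]
    refine h x fun s hs => ?_
    have := hx s (Ideal.subset_span hs)
    rwa [h0] at this
  rw [MvPolynomial.vanishingIdeal_zeroLocus_eq_radical] at h1
  obtain ⟨n, hn⟩ := h1
  have h2 : Ideal.span S ≤ RingHom.ker (aeval (R := ℂ) y) := Ideal.span_le.2 fun s hs => by
    simpa [RingHom.mem_ker] using hy s hs
  have h3 : aeval y (G ^ n) = 0 := h2 hn
  rw [map_pow] at h3
  exact eq_zero_of_pow_eq_zero h3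

end Pool.Agent.GB

end

section

/-!
# The zero set of an analytic function is a null set

PROOF.  `h` is analytic on a ball of radius `r` around `0` (`AnalyticAt.eventually_analyticAt`; sup norm,
the ball is convex), and since it is not eventually `0` there is `v` with `‖v‖ < r / 2`, `h v ≠ 0`;
`v ≠ 0` since `h 0 = 0`.  By continuity there is `0 < δ ≤ r / 2` with `h (p + v) ≠ 0` for `‖p‖ < δ`.  Take
`W = Metric.ball 0 δ`, `Z' = {x ∈ W | h x = 0}`, measurable since `W \ Z' = {x ∈ W | h x ≠ 0}` is open.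
By `MeasureTheory.ae_mem_of_ae_add_linearMap_mem` for `L : ℂ →ₗ[ℝ] (Fin n → ℂ)`, `t ↦ t • v`, and
`s = Z'ᶜ`, it is enough that for every `y` the set `{t : ℂ | y + t • v ∈ Z'}` is null.  If it is not
empty, let `p = y + t₀ • v ∈ Z'`; the set is the translate by `t₀` of a subset of
`{s ∈ D | h (p + s • v) = 0}`, `D = {s : ℂ | ‖p + s • v‖ < r}`.  `D` is open and convex, contains `0` and
`1`, and `g s = h (p + s • v)` is analytic on `D` with `g 1 ≠ 0`.  So the zeros of `g` in `D` are
isolated (`AnalyticOnNhd.eqOn_zero_of_preconnected_of_frequently_eq_zero`,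
`AnalyticAt.eventually_eq_zero_or_eventually_ne_zero`) and the zero set is null: it is codiscrete in `D`
(`AnalyticOnNhd.preimage_zero_mem_codiscreteWithin` or similar) and
`MeasureTheory.ae_restrict_le_codiscreteWithin`; or it is countable.
-/

open Topology MeasureTheory

noncomputable section

namespace Pool.Agent.H13.SM

private theorem Null_line {n : ℕ} {h : (Fin n → ℂ) → ℂ} {r : ℝ} {v p : Fin n → ℂ}
    (hball : ∀ y ∈ Metric.ball (0 : Fin n → ℂ) r, AnalyticAt ℂ h y)
    (hpv : p + v ∈ Metric.ball (0 : Fin n → ℂ) r) (hv : h (p + v) ≠ 0) :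
    ∀ᵐ s : ℂ, p + s • v ∈ Metric.ball (0 : Fin n → ℂ) r → h (p + s • v) ≠ 0 := by
  have hline : Continuous fun s : ℂ => p + s • v :=
    continuous_const.add (continuous_id.smul continuous_const)
  have hDo : IsOpen {s : ℂ | p + s • v ∈ Metric.ball (0 : Fin n → ℂ) r} :=
    Metric.isOpen_ball.preimage hline
  have hDc : Convex ℝ {s : ℂ | p + s • v ∈ Metric.ball (0 : Fin n → ℂ) r} := by
    intro x hx y hy a b ha hb hab
    have h1 := (convex_ball (0 : Fin n → ℂ) r) hx hy ha hb hab
    have h2 : a • (p + x • v) + b • (p + y • v) = p + (a • x + b • y) • v := by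
      have h3 : (a + b) • p = p := by rw [hab, one_smul]
      calc a • (p + x • v) + b • (p + y • v) = (a + b) • p + (a • x + b • y) • v := by
            rw [smul_add, smul_add, add_smul, add_smul, smul_assoc, smul_assoc]
            abel
        _ = _ := by rw [h3]
    rw [h2] at h1
    exact h1
  have hg : AnalyticOnNhd ℂ (fun s : ℂ => h (p + s • v))
      {s : ℂ | p + s • v ∈ Metric.ball (0 : Fin n → ℂ) r} := by
    intro s hs
    have h1 : AnalyticAt ℂ (fun s : ℂ => p + s • v) s :=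
      analyticAt_const.add (analyticAt_id.smul analyticAt_const)
    exact AnalyticAt.comp (g := h) (f := fun s : ℂ => p + s • v) (hball _ hs) h1
  have h1D : (1 : ℂ) ∈ {s : ℂ | p + s • v ∈ Metric.ball (0 : Fin n → ℂ) r} := by
    show p + (1 : ℂ) • v ∈ Metric.ball (0 : Fin n → ℂ) r
    rw [one_smul]
    exact hpv
  rcases hg.eqOn_zero_or_eventually_ne_zero_of_preconnected hDc.isPreconnected with h2 | h2
  · exfalso
    have h3 := h2 h1D
    apply hv
    simpa using h3
  · have h3 := ae_restrict_le_codiscreteWithin (μ := (volume : Measure ℂ)) hDo.measurableSet h2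
    exact (ae_restrict_iff' hDo.measurableSet).1 h3

theorem exists_null {n : ℕ} {h : (Fin n → ℂ) → ℂ} (hh : AnalyticAt ℂ h 0) (h0 : h 0 = 0)
    (hne : ¬ ∀ᶠ u in 𝓝 0, h u = 0) :
    ∃ W ∈ 𝓝 (0 : Fin n → ℂ), volume {u | u ∈ W ∧ h u = 0} = 0 := by
  obtain ⟨r, hr, hball⟩ := Metric.eventually_nhds_iff_ball.1 hh.eventually_analyticAt
  have hex : ∃ v ∈ Metric.ball (0 : Fin n → ℂ) (r / 2), h v ≠ 0 := by
    by_contra hcon
    push Not at hcon
    exact hne (Filter.mem_of_superset (Metric.ball_mem_nhds 0 (half_pos hr)) fun u hu => hcon u hu)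
  obtain ⟨v, hvr, hv⟩ := hex
  have hvr' : v ∈ Metric.ball (0 : Fin n → ℂ) r := Metric.ball_subset_ball (by linarith) hvr
  have hcont : ContinuousAt (fun p : Fin n → ℂ => h (p + v)) 0 := by
    have h1 : ContinuousAt h ((0 : Fin n → ℂ) + v) := by
      rw [zero_add]
      exact (hball v hvr').continuousAt
    exact ContinuousAt.comp (g := h) (f := fun p : Fin n → ℂ => p + v) h1
      (continuousAt_id.add continuousAt_const)
  have hev : ∀ᶠ p in 𝓝 (0 : Fin n → ℂ), h (p + v) ≠ 0 := hcont.eventually_ne (by rwa [zero_add])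
  obtain ⟨δ0, hδ0, hδ⟩ := Metric.eventually_nhds_iff_ball.1 hev
  have hδpos : 0 < min δ0 (r / 2) := lt_min hδ0 (half_pos hr)
  have hsub : Metric.ball (0 : Fin n → ℂ) (min δ0 (r / 2)) ⊆ Metric.ball 0 r :=
    Metric.ball_subset_ball ((min_le_right _ _).trans (by linarith))
  refine ⟨Metric.ball 0 (min δ0 (r / 2)), Metric.ball_mem_nhds 0 hδpos, ?_⟩
  have hZm : MeasurableSet {u : Fin n → ℂ | u ∈ Metric.ball (0 : Fin n → ℂ) (min δ0 (r / 2)) ∧ h u = 0} := by
    have hc : ContinuousOn h (Metric.ball (0 : Fin n → ℂ) (min δ0 (r / 2))) :=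
      fun u hu => (hball u (hsub hu)).continuousAt.continuousWithinAt
    have ho : IsOpen (Metric.ball (0 : Fin n → ℂ) (min δ0 (r / 2)) ∩ h ⁻¹' {0}ᶜ) :=
      hc.isOpen_inter_preimage Metric.isOpen_ball isOpen_compl_singleton
    have he : {u : Fin n → ℂ | u ∈ Metric.ball (0 : Fin n → ℂ) (min δ0 (r / 2)) ∧ h u = 0} =
        Metric.ball (0 : Fin n → ℂ) (min δ0 (r / 2)) \
          (Metric.ball (0 : Fin n → ℂ) (min δ0 (r / 2)) ∩ h ⁻¹' {0}ᶜ) := by
      ext u
      constructor
      · rintro ⟨h1, h2⟩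
        exact ⟨h1, fun h3 => h3.2 h2⟩
      · rintro ⟨h1, h2⟩
        refine ⟨h1, ?_⟩
        by_contra h3
        exact h2 ⟨h1, h3⟩
    rw [he]
    exact Metric.isOpen_ball.measurableSet.diff ho.measurableSet
  have key : ∀ᵐ y : Fin n → ℂ, y ∈ {u : Fin n → ℂ | u ∈ Metric.ball (0 : Fin n → ℂ) (min δ0 (r / 2)) ∧ h u = 0}ᶜ := by
    refine ae_mem_of_ae_add_linearMap_mem (LinearMap.toSpanSingleton ℂ (Fin n → ℂ) v) volume volume
      hZm.compl fun y => ?_
    by_cases hy : ∃ t0 : ℂ, y + t0 • v ∈ {u : Fin n → ℂ | u ∈ Metric.ball (0 : Fin n → ℂ) (min δ0 (r / 2)) ∧ h u = 0}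
    · obtain ⟨t0, hp1, -⟩ := hy
      have hp2 : ‖y + t0 • v‖ < min δ0 (r / 2) := by simpa using hp1
      have hpv : (y + t0 • v) + v ∈ Metric.ball (0 : Fin n → ℂ) r := by
        rw [mem_ball_zero_iff]
        have h1 := norm_add_le (y + t0 • v) v
        have h2 : ‖v‖ < r / 2 := by simpa using hvr
        have h3 : min δ0 (r / 2) ≤ r / 2 := min_le_right _ _
        linarith
      have hne1 : h ((y + t0 • v) + v) ≠ 0 :=
        hδ _ (Metric.ball_subset_ball (min_le_left _ _) hp1)
      have h1 := Null_line hball hpv hne1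
      have h2 := (measurePreserving_sub_right (volume : Measure ℂ) t0).quasiMeasurePreserving.ae h1
      filter_upwards [h2] with t ht hZ
      have h3 : y + t0 • v + (t - t0) • v = y + t • v := by
        rw [sub_smul]
        abel
      rw [h3] at ht
      have h4 : y + (LinearMap.toSpanSingleton ℂ (Fin n → ℂ) v) t = y + t • v := by
        rw [LinearMap.toSpanSingleton_apply]
      rw [h4] at hZ
      exact ht (hsub hZ.1) hZ.2
    · refine Filter.Eventually.of_forall fun t hZ => hy ⟨t, ?_⟩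
      have h4 : y + (LinearMap.toSpanSingleton ℂ (Fin n → ℂ) v) t = y + t • v := by
        rw [LinearMap.toSpanSingleton_apply]
      rw [h4] at hZ
      exact hZ
  have h5 := mem_ae_iff.1 key
  have h6 : {y : Fin n → ℂ | y ∈ {u : Fin n → ℂ | u ∈ Metric.ball (0 : Fin n → ℂ) (min δ0 (r / 2)) ∧ h u = 0}ᶜ}ᶜ =
      {u : Fin n → ℂ | u ∈ Metric.ball (0 : Fin n → ℂ) (min δ0 (r / 2)) ∧ h u = 0} :=
    compl_compl _
  rw [h6] at h5
  exact h5

end Pool.Agent.H13.SM

end
end

section

/-! Prime divisors of `L(t)`. -/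

noncomputable section

namespace Pool.Agent.H62.FC

open WithZero Cardinal

/-- The additive form of the value group. -/
def Place_phi (x : WithZero (Multiplicative ℤ)) : WithTop ℤ :=
  if x = 0 then ⊤ else ((-(WithZero.log x) : ℤ) : WithTop ℤ)

lemma Place_phi_zero : Place_phi 0 = ⊤ := by simp [Place_phi]

lemma Place_phi_one : Place_phi 1 = 0 := by simp [Place_phi]

lemma Place_phi_exp (n : ℤ) : Place_phi (WithZero.exp n) = ((-n : ℤ) : WithTop ℤ) := by
  simp [Place_phi]

lemma Place_phi_mul (x y : WithZero (Multiplicative ℤ)) :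
    Place_phi (x * y) = Place_phi x + Place_phi y := by
  by_cases hx : x = 0
  · simp [Place_phi, hx]
  by_cases hy : y = 0
  · simp [Place_phi, hy]
  rw [Place_phi, Place_phi, Place_phi, if_neg hx, if_neg hy, if_neg (mul_ne_zero hx hy),
    WithZero.log_mul hx hy, ← WithTop.coe_add]
  congr 1
  ring

lemma Place_phi_anti {x y : WithZero (Multiplicative ℤ)} (h : x ≤ y) :
    Place_phi y ≤ Place_phi x := by
  by_cases hx : x = 0
  · simp [Place_phi, hx]
  have hy : y ≠ 0 := by
    rintro rfl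
    exact hx (le_antisymm h (by simp))
  rw [Place_phi, Place_phi, if_neg hx, if_neg hy, WithTop.coe_le_coe, neg_le_neg_iff,
    WithZero.log_le_log hx hy]
  exact h

lemma Place_phi_nonneg_iff {x : WithZero (Multiplicative ℤ)} : 0 ≤ Place_phi x ↔ x ≤ 1 := by
  refine ⟨fun h => ?_, fun h => by simpa [Place_phi_one] using Place_phi_anti h⟩
  by_cases hx : x = 0
  · rw [hx]; simp
  rw [Place_phi, if_neg hx] at h
  have h1 : (0 : ℤ) ≤ -(WithZero.log x) := by exact_mod_cast h
  have h2 : WithZero.log x ≤ WithZero.log (1 : WithZero (Multiplicative ℤ)) := by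
    rw [WithZero.log_one]; linarith
  exact (WithZero.log_le_log hx one_ne_zero).mp h2

/-- The additive valuation of a `ℤᵐ⁰`-valuation. -/
def Place_add {R : Type*} [CommRing R] (v : Valuation R (WithZero (Multiplicative ℤ))) :
    AddValuation R (WithTop ℤ) :=
  AddValuation.of (fun x => Place_phi (v x)) (by simp [Place_phi_zero])
    (by simp [Place_phi_one])
    (fun x y => by
      rcases le_total (v x) (v y) with h | h
      · exact (min_le_right _ _).trans (Place_phi_anti ((v.map_add x y).trans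
          (max_le h le_rfl)))
      · exact (min_le_left _ _).trans (Place_phi_anti ((v.map_add x y).trans
          (max_le le_rfl h))))
    (fun x y => by rw [map_mul, Place_phi_mul])

lemma Place_add_apply {R : Type*} [CommRing R] (v : Valuation R (WithZero (Multiplicative ℤ)))
    (x : R) : Place_add v x = Place_phi (v x) := rfl

end Pool.Agent.H62.FC

end
end

section

set_option autoImplicit false

/-!
# Hyperbolicity notions for multiple cyclic covers

The ambient space is the total space of the vector bundle `⊕ O (e j)` over `ℙ^N (ℂ)`, that is, the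
open subset `x ≠ 0` of the weighted projective space with coordinates `x 0, …, x N` of weight one
and `y j` of weight `e j`.
-/

open MvPolynomial Topology

namespace Pool.Agent.H99.Cover

variable {N : ℕ} {ι : Type}

/-- Homogeneous coordinates `(x, y)`. -/
abbrev Coord (N : ℕ) (ι : Type) : Type := (Fin (N + 1) → ℂ) × (ι → ℂ)

/-- The relation `(x, y) ~ (c x, c ^ (e j) y j)`, for `c ≠ 0`. -/
def Rel (e : ι → ℕ) (q q' : Coord N ι) : Prop :=
  ∃ c : ℂ, c ≠ 0 ∧ (∀ i, q'.1 i = c * q.1 i) ∧ ∀ j, q'.2 j = c ^ e j * q.2 j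

lemma Rel.refl (e : ι → ℕ) (q : Coord N ι) : Rel e q q :=
  ⟨1, one_ne_zero, by simp, by simp⟩

lemma Rel.symm {e : ι → ℕ} {q q' : Coord N ι} (h : Rel e q q') : Rel e q' q := by
  obtain ⟨c, hc, h1, h2⟩ := h
  refine ⟨c⁻¹, inv_ne_zero hc, fun i => ?_, fun j => ?_⟩
  · rw [h1 i, inv_mul_cancel_left₀ hc]
  · rw [h2 j, inv_pow, inv_mul_cancel_left₀ (pow_ne_zero _ hc)]

lemma Rel.trans {e : ι → ℕ} {q q' q'' : Coord N ι} (h : Rel e q q') (h' : Rel e q' q'') :
    Rel e q q'' := by
  obtain ⟨c, hc, h1, h2⟩ := h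
  obtain ⟨c', hc', h1', h2'⟩ := h'
  refine ⟨c' * c, mul_ne_zero hc' hc, fun i => ?_, fun j => ?_⟩
  · rw [h1' i, h1 i, mul_assoc]
  · rw [h2' j, h2 j, mul_pow, mul_assoc]

/-- Homogeneous coordinates with `x ≠ 0`. -/
abbrev CoordNZ (N : ℕ) (ι : Type) : Type := {q : Coord N ι // q.1 ≠ 0}

/-- The equivalence relation on homogeneous coordinates. -/
def relSetoid (N : ℕ) (e : ι → ℕ) : Setoid (CoordNZ N ι) where
  r q q' := Rel e q.1 q'.1
  iseqv := ⟨fun q => Rel.refl e q.1, fun h => h.symm, fun h h' => h.trans h'⟩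

/-- The total space of `⊕ O (e j)` over `ℙ^N (ℂ)`. -/
def Tot (N : ℕ) (e : ι → ℕ) : Type := Quotient (relSetoid N e)

/-- The point with homogeneous coordinates `q`. -/
def mk (e : ι → ℕ) (q : Coord N ι) (h : q.1 ≠ 0) : Tot N e := Quotient.mk (relSetoid N e) ⟨q, h⟩

/-- `f` is holomorphic on `U ⊆ ℂ` as a map into the total space: near every point of `U` it is
given by holomorphic homogeneous coordinates `(x, y)` with `x ≠ 0`. -/
def HolomorphicInto {e : ι → ℕ} [Fintype ι] (f : ℂ → Tot N e) (U : Set ℂ) : Prop :=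
  ∀ z₀ ∈ U, ∃ φ : ℂ → Coord N ι, AnalyticAt ℂ φ z₀ ∧
    ∀ᶠ z in 𝓝 z₀, ∃ h : (φ z).1 ≠ 0, f z = mk e (φ z) h

/-- The weights of the variables `x i` and `y j`. -/
def weights (N : ℕ) (e : ι → ℕ) : Fin (N + 1) ⊕ ι → ℕ := Sum.elim (fun _ => 1) e

/-- The polynomial `P (x, y)` vanishes at the point `x`.  For weighted homogeneous `P` this does
not depend on the homogeneous coordinates. -/
def VanishesAt {e : ι → ℕ} (P : MvPolynomial (Fin (N + 1) ⊕ ι) ℂ) (x : Tot N e) : Prop :=
  ∀ (q : Coord N ι) (h : q.1 ≠ 0), x = mk e q h → eval (Sum.elim q.1 q.2) P = 0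

/-- `Ξ` is a Zariski closed subset of the subset `X` of the total space. -/
def ZariskiClosedIn {e : ι → ℕ} (X Ξ : Set (Tot N e)) : Prop :=
  ∃ S : Set (MvPolynomial (Fin (N + 1) ⊕ ι) ℂ),
    (∀ P ∈ S, ∃ n, IsWeightedHomogeneous (weights N e) P n) ∧
    Ξ = {x | x ∈ X ∧ ∀ P ∈ S, VanishesAt P x}

/-- The punctured open unit disc. -/
def puncturedDisc : Set ℂ := Metric.ball 0 1 \ {0}

end Pool.Agent.H99.Cover

end
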