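import Pool.Agent.H18.GGT.H23.Forms
import Pool.Agent.H18.GGT.M05
import Pool.Agent.H18.GGT.M08
import Pool.Agent.H18.GGT.M10
import Pool.Agent.H18.GGT.M11

/-! The parts of this file: GG.Defs_1, GA.ADefs, GA.Defs, GB.Defs_1. -/

section

/-!
# GG Defs: symmetric differentials in polar position, sections of `K^M (-1)`, arcs

`P` is a homogeneous prime ideal, `X` the projective variety given by it, `cone P` its affine cone without the vertex, `conTan P x` the tangent space of the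
cone at `x` (so `T_x X = conTan P x / ℂ x`).  The theorem (PROJECT GG, notes 4542, 4547, 4549, message 69251 of helper9): if `X` has symmetric differentials
with the property `Polar` (e.g. if `S^m Ω_X` is globally generated) and `K^M (-1)` has a nonzero section, then all nonconstant entire curves of order two lie
in a hypersurface section `R = 0` of `X`.
-/

set_option autoImplicit false

open MvPolynomial Topology Filter Metric
open Pool.Agent.H13.SM (conTan cone)
open Pool.Agent.H17 (PN VanishesAt)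

noncomputable section

namespace Pool.Agent.GG

variable {N : ℕ}

/-- For all nonzero tangent vectors `v`, `w` at a point one of the polar forms `θ_k (v, …, v, w)` is not `0`. -/
def Polar {P : Ideal (MvPolynomial (Fin (N + 1)) ℂ)} {J : ℕ} {m : Fin J → ℕ} (θ : ∀ k, SymSec P (m k)) : Prop :=
  ∀ x ∈ cone P, ∀ v ∈ conTan P x, ∀ w ∈ conTan P x, v ∉ Submodule.span ℂ {x} → w ∉ Submodule.span ℂ {x} →
    ∃ k, deriv (fun t : ℂ => (θ k).toFun x (v + t • w)) 0 ≠ 0

/-! ## phase space: the polynomial family `G` of functions which are constant along the curves -/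

/-- the variables of the phase space: `inl b` is `x_b`, `inr b` is `v_b` -/
abbrev Ph (N : ℕ) : Type := Fin (N + 1) ⊕ Fin (N + 1)

/-- the point `(x, v)` of the phase space -/
abbrev pt (x v : Fin (N + 1) → ℂ) : Ph N → ℂ := Sum.elim x v

variable {ι : Type}

/-- the matrix of the derivatives in `v` of `N + 1` members of the family -/
def vmat (G : ι → MvPolynomial (Ph N) ℂ) (J : Fin (N + 1) → ι) : Matrix (Fin (N + 1)) (Fin (N + 1)) (MvPolynomial (Ph N) ℂ) :=
  fun l b => pderiv (Sum.inr b) (G (J l))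

/-- its determinant -/
def vdet (G : ι → MvPolynomial (Ph N) ℂ) (J : Fin (N + 1) → ι) : MvPolynomial (Ph N) ℂ := (vmat G J).det

/-- the right side of the linear system for the acceleration -/
def rhs (G : ι → MvPolynomial (Ph N) ℂ) (J : Fin (N + 1) → ι) : Fin (N + 1) → MvPolynomial (Ph N) ℂ :=
  fun l => -∑ b, pderiv (Sum.inl b) (G (J l)) * X (Sum.inr b)

/-- the vector field, times the determinant -/
def fld (G : ι → MvPolynomial (Ph N) ℂ) (J : Fin (N + 1) → ι) : Ph N → MvPolynomial (Ph N) ℂ :=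
  Sum.elim (fun b => vdet G J * X (Sum.inr b)) ((vmat G J).adjugate.mulVec (rhs G J))

/-- the derivation given by it -/
def Dt (G : ι → MvPolynomial (Ph N) ℂ) (J : Fin (N + 1) → ι) : Derivation ℂ (MvPolynomial (Ph N) ℂ) (MvPolynomial (Ph N) ℂ) :=
  mkDerivation ℂ (fld G J)

/-- the vector field of the differential equation -/
def W (G : ι → MvPolynomial (Ph N) ℂ) (J : Fin (N + 1) → ι) (y : Ph N → ℂ) : Ph N → ℂ :=
  fun s => eval y (fld G J s) / eval y (vdet G J)

/-- The functions of the family `G` are constant along the holomorphic curve `x` near `t`. -/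
def ArcV (G : ι → MvPolynomial (Ph N) ℂ) (x : ℂ → Fin (N + 1) → ℂ) (t : ℂ) : Prop :=
  AnalyticAt ℂ x t ∧ ∀ l, ∀ᶠ s in 𝓝 t, eval (pt (x s) (deriv x s)) (G l) = eval (pt (x t) (deriv x t)) (G l)

/-- the algebraic criterion for the initial vectors of arcs -/
def Crit (G : ι → MvPolynomial (Ph N) ℂ) (J : Fin (N + 1) → ι) (y : Ph N → ℂ) : Prop :=
  eval y (vdet G J) ≠ 0 ∧ ∀ (l : ι) (k : ℕ), eval y ((⇑(Dt G J))^[k + 1] (G l)) = 0

/-- `y` is the initial vector of an arc -/
def IsInit (G : ι → MvPolynomial (Ph N) ℂ) (y : Ph N → ℂ) : Prop :=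
  ∃ x : ℂ → Fin (N + 1) → ℂ, ArcV G x 0 ∧ pt (x 0) (deriv x 0) = y

/-- A flow box: `H (z, y)` is the point at time `z` of the arc with the initial vector `y`; `K` bounds `H` and the derivatives of `(H, ∂H/∂z)`. -/
structure Flow (G : ι → MvPolynomial (Ph N) ℂ) (Y : Ph N → ℂ) (r ε K : ℝ) (H : ℂ × (Ph N → ℂ) → Fin (N + 1) → ℂ) : Prop where
  an : ∀ q ∈ ball (0 : ℂ) r ×ˢ ball Y ε, AnalyticAt ℂ H q
  zero : ∀ y ∈ ball Y ε, H (0, y) = fun b => y (Sum.inl b)
  der : ∀ y ∈ ball Y ε, deriv (fun z => H (z, y)) 0 = fun b => y (Sum.inr b)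
  const : ∀ y ∈ ball Y ε, IsInit G y → ∀ z ∈ ball (0 : ℂ) r, ∀ l,
    eval (pt (H (z, y)) (deriv (fun z => H (z, y)) z)) (G l) = eval y (G l)
  uniq : ∀ (x : ℂ → Fin (N + 1) → ℂ) (t : ℂ), ArcV G x t → pt (x t) (deriv x t) ∈ ball Y ε →
    ∀ᶠ s in 𝓝 t, x s = H (s - t, pt (x t) (deriv x t))
  bound : ∀ q ∈ ball (0 : ℂ) r ×ˢ ball Y ε, ‖H q‖ ≤ K ∧ ‖deriv (fun z => H (z, q.2)) q.1‖ ≤ K ∧
    ‖fderiv ℂ (fun q : ℂ × (Ph N → ℂ) => pt (H q) (deriv (fun z => H (z, q.2)) q.1)) q‖ ≤ K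

/-! ## the family of functions in the chart `x_a = 1` -/

/-- generators of the ideal, and polynomials for the symmetric differentials in the charts -/
structure Frame {P : Ideal (MvPolynomial (Fin (N + 1)) ℂ)} {J : ℕ} {m : Fin J → ℕ} (θ : ∀ k, SymSec P (m k)) where
  /-- the number of the generators -/
  q : ℕ
  /-- the generators -/
  Q : Fin q → MvPolynomial (Fin (N + 1)) ℂ
  span : Ideal.span (Set.range Q) = P
  /-- the polynomials -/
  A : Fin (N + 1) → Fin J → MvPolynomial (Ph N) ℂ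
  hA : ∀ a k, ∀ x ∈ cone P, x a = 1 → ∀ v ∈ conTan P x, (θ k).toFun x v = eval (pt x v) (A a k)

/-- the functions `x_a`, `v_a`, `Q_j (x)`, `dQ_j (x) v`, `θ_k (x, v)` -/
def gfam {P : Ideal (MvPolynomial (Fin (N + 1)) ℂ)} {J : ℕ} {m : Fin J → ℕ} {θ : ∀ k, SymSec P (m k)} (f : Frame θ) (a : Fin (N + 1)) :
    (Unit ⊕ Unit) ⊕ (Fin f.q ⊕ Fin f.q) ⊕ Fin J → MvPolynomial (Ph N) ℂ :=
  Sum.elim (Sum.elim (fun _ => X (Sum.inl a)) fun _ => X (Sum.inr a))
    (Sum.elim (Sum.elim (fun j => rename Sum.inl (f.Q j)) fun j => ∑ b, rename Sum.inl (pderiv b (f.Q j)) * X (Sum.inr b)) (f.A a))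

variable {P : Ideal (MvPolynomial (Fin (N + 1)) ℂ)} {J : ℕ} {m : Fin J → ℕ}

/-- `(x, v)` is a tangent vector of the variety in the chart `x_a = 1`, with `θ (x, v) = c` -/
def IsTan (θ : ∀ k, SymSec P (m k)) (a : Fin (N + 1)) (c : Fin J → ℂ) (x v : Fin (N + 1) → ℂ) : Prop :=
  x ∈ cone P ∧ x a = 1 ∧ v ∈ conTan P x ∧ v a = 0 ∧ ∀ k, (θ k).toFun x v = c k

/-- the tangent vectors `(x, v)` in the chart `x_a = 1`, with `|x_b| ≤ 1` for all `b` and `θ (x, v) ∈ C` -/
def Kset (θ : ∀ k, SymSec P (m k)) (a : Fin (N + 1)) (C : Set (Fin J → ℂ)) : Set (Ph N → ℂ) :=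
  {y | ∃ x v c, y = pt x v ∧ IsTan θ a c x v ∧ (∀ b, ‖x b‖ ≤ 1) ∧ c ∈ C}

/-- `x` is an arc in the chart `x_a = 1` with `θ (x, x') = c` near `z` -/
def NArc (θ : ∀ k, SymSec P (m k)) (a : Fin (N + 1)) (c : Fin J → ℂ) (x : ℂ → Fin (N + 1) → ℂ) (z : ℂ) : Prop :=
  AnalyticAt ℂ x z ∧ ∀ᶠ w in 𝓝 z, x w ∈ cone P ∧ x w a = 1 ∧ ∀ k, (θ k).toFun (x w) (deriv x w) = c k

/-- `x` represents `f` near `z` -/
def Rep (f : ℂ → PN N) (x : ℂ → Fin (N + 1) → ℂ) (z : ℂ) : Prop :=
  ∀ᶠ w in 𝓝 z, ∃ h : x w ≠ 0, f w = Projectivization.mk ℂ (x w) h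

/-- `f` is a holomorphic curve in the variety with `θ (f') = c` near `z` -/
def ArcAt (θ : ∀ k, SymSec P (m k)) (c : Fin J → ℂ) (f : ℂ → PN N) (z : ℂ) : Prop :=
  ∃ F : ℂ → Fin (N + 1) → ℂ, AnalyticAt ℂ F z ∧ Rep f F z ∧ ∀ᶠ w in 𝓝 z, F w ∈ cone P ∧ ∀ k, (θ k).toFun (F w) (deriv F w) = c k

/-- the length of `v` at `x` in the Fubini–Study metric, up to bounded factors -/
def wl (x v : Fin (N + 1) → ℂ) : ℝ := ‖fun p : Fin (N + 1) × Fin (N + 1) => x p.1 * v p.2 - x p.2 * v p.1‖ / ‖x‖ ^ 2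

/-- `F` represents `Φ` near `q`, with values in the cone of `P` -/
def RepN (P : Ideal (MvPolynomial (Fin (N + 1)) ℂ)) {d : ℕ} (Φ : ℂ × (Fin d → ℂ) → PN N) (F : ℂ × (Fin d → ℂ) → Fin (N + 1) → ℂ)
    (q : ℂ × (Fin d → ℂ)) : Prop :=
  AnalyticAt ℂ F q ∧ ∀ᶠ p in 𝓝 q, F p ∈ cone P ∧ ∃ h : F p ≠ 0, Φ p = Projectivization.mk ℂ (F p) h

end Pool.Agent.GG

end
end

section

/-!
# GA ADefs: the algebraic half of GG-ALL (notes 4577, 4590, 4594, 4598)

`U` is a connected open subset of `ℂ` (the half-plane), `F : ℂ → ℂ^(N+1)` is analytic on `U` without zeros, with values in the cone of `P`; `OO` is a ring of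
functions `ℂ → ℂ` which are analytic on `U` (the small functions), closed under `deriv`.
-/

set_option autoImplicit false

open MvPolynomial Topology Filter Metric
open Pool.Agent.H13.SM (conTan cone)
open Pool.Agent.H17 (PN)
open Pool.Agent.GG (SymSec Ph pt Frame gfam)

noncomputable section

namespace Pool.Agent.GA

variable {N : ℕ}

/-! ## germs -/

/-- the constant germs -/
instance (z₀ : ℂ) : Algebra ℂ (Filter.Germ (𝓝 z₀) ℂ) :=
  ((Filter.Germ.coeRingHom (𝓝 z₀)).comp (Pi.constRingHom ℂ ℂ)).toAlgebra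

/-- the ring of the germs of analytic functions at `z₀` -/
def AnG (z₀ : ℂ) : Subalgebra ℂ (Filter.Germ (𝓝 z₀) ℂ) where
  carrier := {g | ∃ f : ℂ → ℂ, AnalyticAt ℂ f z₀ ∧ (f : Filter.Germ (𝓝 z₀) ℂ) = g}
  mul_mem' := by
    rintro _ _ ⟨f, hf, rfl⟩ ⟨g, hg, rfl⟩
    exact ⟨f * g, hf.mul hg, rfl⟩
  add_mem' := by
    rintro _ _ ⟨f, hf, rfl⟩ ⟨g, hg, rfl⟩
    exact ⟨f + g, hf.add hg, rfl⟩
  algebraMap_mem' := fun c => ⟨fun _ => c, analyticAt_const, rfl⟩

instance (z₀ : ℂ) : IsDomain (AnG z₀) := by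
  have h1 : NoZeroDivisors (AnG z₀) := by
    refine ⟨?_⟩
    rintro ⟨_, f, hf, rfl⟩ ⟨_, g, hg, rfl⟩ h
    have h2 : ∀ᶠ z in 𝓝 z₀, f z * g z = 0 := Filter.Germ.coe_eq.1 (congrArg Subtype.val h)
    rcases hf.eventually_eq_zero_or_eventually_ne_zero with h3 | h3
    · exact Or.inl (Subtype.ext (Filter.Germ.coe_eq.2 h3))
    · right
      rcases hg.eventually_eq_zero_or_eventually_ne_zero with h4 | h4
      · exact Subtype.ext (Filter.Germ.coe_eq.2 h4)
      · exfalso
        obtain ⟨z, hz1, hz2, hz3⟩ := (h3.and (h4.and (h2.filter_mono nhdsWithin_le_nhds))).exists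
        exact mul_ne_zero hz1 hz2 hz3
  exact NoZeroDivisors.to_isDomain _

/-- the field of the germs of meromorphic functions at `z₀` -/
abbrev Gm (z₀ : ℂ) : Type := FractionRing (AnG z₀)

/-- the germ of a function which is analytic at `z₀` -/
def gm (z₀ : ℂ) (f : ℂ → ℂ) (hf : AnalyticAt ℂ f z₀) : Gm z₀ := algebraMap (AnG z₀) (Gm z₀) ⟨(f : Filter.Germ (𝓝 z₀) ℂ), f, hf, rfl⟩

/-! ## rings of functions -/

/-- evaluation at `w` -/
def ev0 (OO : Subalgebra ℂ (ℂ → ℂ)) (w : ℂ) : OO →+* ℂ := (Pi.evalRingHom (fun _ : ℂ => ℂ) w).comp OO.val.toRingHom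

/-- the value at `w` of a polynomial with coefficients in `OO` -/
def evO {σ : Type} (OO : Subalgebra ℂ (ℂ → ℂ)) (y : ℂ → σ → ℂ) (P : MvPolynomial σ OO) (w : ℂ) : ℂ := eval₂ (ev0 OO w) (y w) P

/-- `OO` consists of functions which are analytic on `U`, and is closed under differentiation. -/
structure IsSmallRing (OO : Subalgebra ℂ (ℂ → ℂ)) (U : Set ℂ) : Prop where
  an : ∀ g ∈ OO, ∀ w ∈ U, AnalyticAt ℂ g w
  deriv_mem : ∀ g ∈ OO, deriv g ∈ OO

/-- Near `w₀` the vector field `V` along `x` comes from a derivation over `OO`: it satisfies the linearised equation of every algebraic relation of `x` over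
`OO`. -/
def RelX (OO : Subalgebra ℂ (ℂ → ℂ)) (x V : ℂ → Fin (N + 1) → ℂ) (w₀ : ℂ) : Prop :=
  ∀ R : MvPolynomial (Fin (N + 1)) OO, (∀ᶠ w in 𝓝 w₀, evO OO x R w = 0) → ∀ᶠ w in 𝓝 w₀, ∑ b, evO OO x (pderiv b R) w * V w b = 0

/-- Near `w₀` the vector field `(V, V')` along `(x, x')` comes from a derivation over `OO`: it satisfies the linearised equation of every algebraic relation of
`(x, x')` over `OO`. -/
def RelP (OO : Subalgebra ℂ (ℂ → ℂ)) (x V : ℂ → Fin (N + 1) → ℂ) (w₀ : ℂ) : Prop :=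
  ∀ R : MvPolynomial (Ph N) OO, (∀ᶠ w in 𝓝 w₀, evO OO (fun w => pt (x w) (deriv x w)) R w = 0) →
    ∀ᶠ w in 𝓝 w₀, ∑ s, evO OO (fun w => pt (x w) (deriv x w)) (pderiv s R) w * pt (V w) (deriv V w) s = 0

/-- The data at `z₁`: `Y / s` are the values of the dual derivations at `(x, x')`, `C / s` the coefficients of the differential equation. -/
structure Dual (OO : Subalgebra ℂ (ℂ → ℂ)) (x : ℂ → Fin (N + 1) → ℂ) (z₁ : ℂ) (r : ℕ) (σ : Fin (r + 1) → Ph N) (s : ℂ → ℂ)
    (Y : Fin (r + 1) → Ph N → ℂ → ℂ) (C : Fin (r + 1) → Fin (r + 1) → ℂ → ℂ) : Prop where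
  an : AnalyticAt ℂ s z₁
  ne : ¬ ∀ᶠ w in 𝓝 z₁, s w = 0
  anY : ∀ m i, AnalyticAt ℂ (Y m i) z₁
  anC : ∀ l m, AnalyticAt ℂ (C l m) z₁
  unit : ∀ m l, ∀ᶠ w in 𝓝 z₁, Y m (σ l) w = if m = l then s w else 0
  rel : ∀ m (R : MvPolynomial (Ph N) OO), (∀ᶠ w in 𝓝 z₁, evO OO (fun w => pt (x w) (deriv x w)) R w = 0) →
    ∀ᶠ w in 𝓝 z₁, ∑ i, evO OO (fun w => pt (x w) (deriv x w)) (pderiv i R) w * Y m i w = 0
  der : ∀ m b, ∀ᶠ w in 𝓝 z₁, s w ≠ 0 →
    Y m (Sum.inr b) w / s w = deriv (fun w => Y m (Sum.inl b) w / s w) w + ∑ l, C l m w / s w * (Y l (Sum.inl b) w / s w)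

/-! ## variation fields along the curve -/

/-- the curve in the chart `x_b = 1` -/
def xb (F : ℂ → Fin (N + 1) → ℂ) (b : Fin (N + 1)) (w : ℂ) : Fin (N + 1) → ℂ := (F w b)⁻¹ • F w

/-- the variation in the chart `x_b = 1` which belongs to the bivector field `Z = F ∧ V` -/
def Vb (F : ℂ → Fin (N + 1) → ℂ) (Z : ℂ → Fin (N + 1) × Fin (N + 1) → ℂ) (b : Fin (N + 1)) (w : ℂ) : Fin (N + 1) → ℂ := fun j => Z w (b, j) / F w b ^ 2

/-- the left side of the linearised equation of `G (x, x') = const`, for the variation `V` of the curve `x` -/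
def lhs (G : MvPolynomial (Ph N) ℂ) (x V : ℂ → Fin (N + 1) → ℂ) (w : ℂ) : ℂ :=
  ∑ s, eval (pt (x w) (deriv x w)) (pderiv s G) * pt (V w) (deriv V w) s

variable {P : Ideal (MvPolynomial (Fin (N + 1)) ℂ)} {J : ℕ} {m : Fin J → ℕ} {θ : ∀ k, SymSec P (m k)}

/-- `Z = F ∧ V` for a variation field `V`, near `z`: the linearised equations hold in all charts -/
def IsVar (f : Frame θ) (F : ℂ → Fin (N + 1) → ℂ) (Z : ℂ → Fin (N + 1) × Fin (N + 1) → ℂ) (z : ℂ) : Prop :=
  AnalyticAt ℂ Z z ∧ ∀ᶠ w in 𝓝 z, ∀ b, F w b ≠ 0 → (∀ i j, Z w (i, j) = F w i * F w b * Vb F Z b w j - F w j * F w b * Vb F Z b w i) ∧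
    ∀ l, lhs (gfam f b l) (xb F b) (Vb F Z b) w = 0

/-- `F` is a lift of a holomorphic curve in the variety, not constant, on `U` -/
structure IsCurve (P : Ideal (MvPolynomial (Fin (N + 1)) ℂ)) (F : ℂ → Fin (N + 1) → ℂ) (U : Set ℂ) : Prop where
  isOpen : IsOpen U
  conn : IsPreconnected U
  an : ∀ w ∈ U, AnalyticAt ℂ F w
  mem : ∀ w ∈ U, F w ∈ cone P
  ne : ∃ w ∈ U, deriv F w ∉ Submodule.span ℂ {F w}

end Pool.Agent.GA

end
end

section

/-!
# GA Defs: holomorphic curves in the half-plane, levels, small functions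

PROJECT GG-ALL (notes 4577, 4590, 4594, 4598).  A holomorphic map `f` of the punctured disc is studied by `F w = (lift of f) (r exp (-w))` on the right half-plane
`HP`; it has the period `per = 2 π i`.  The levels and the ring of the small functions only depend on the speed `s : ℂ → ℝ` (here `sp F`), see `GA/Sel` for `TT`.
-/

set_option autoImplicit false

open MvPolynomial Topology Filter Metric
open Pool.Agent.H13.SM (conTan cone)
open Pool.Agent.H17 (PN VanishesAt)
open Pool.Agent.GG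

noncomputable section

namespace Pool.Agent.GA

variable {N : ℕ}

/-- the right half-plane -/
def HP : Set ℂ := {w | 0 < w.re}

/-- the period -/
def per : ℂ := 2 * Real.pi * Complex.I

/-- `F` is a holomorphic periodic map from the half-plane to the cone of `P` -/
structure HCurve (P : Ideal (MvPolynomial (Fin (N + 1)) ℂ)) (F : ℂ → Fin (N + 1) → ℂ) : Prop where
  an : ∀ w ∈ HP, AnalyticAt ℂ F w
  cone : ∀ w ∈ HP, F w ∈ cone P
  periodic : ∀ w ∈ HP, F (w + per) = F w

/-- the mean over a vertical segment of length `2 π` (times `2 π`) -/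
def mn (h : ℂ → ℝ) (t : ℝ) : ℝ := ∫ y in (0 : ℝ)..2 * Real.pi, h (t + y * Complex.I)

/-- the speed of `F` -/
def sp (F : ℂ → Fin (N + 1) → ℂ) (w : ℂ) : ℝ := wl (F w) (deriv F w)

/-- a speed function: continuous, nonnegative and periodic on the half-plane -/
structure Speed (s : ℂ → ℝ) : Prop where
  cont : ContinuousOn s HP
  nonneg : ∀ w ∈ HP, 0 ≤ s w
  periodic : ∀ w ∈ HP, s (w + per) = s w

/-- the area of `1 < Re w < X` for the speed `s` -/
def AA (s : ℂ → ℝ) (X : ℝ) : ℝ := ∫ t in (1 : ℝ)..max X 1, mn (fun w => s w ^ 2) t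

/-- the characteristic function at the level `X n` -/
def tau (s : ℂ → ℝ) (X : ℕ → ℝ) (n : ℕ) : ℝ := TT (AA s) (X n)

/-- the inner level -/
def xi (s : ℂ → ℝ) (X : ℕ → ℝ) (n : ℕ) : ℝ := X n - 2 / tau s X n

/-- the selected levels -/
structure Lev (s : ℂ → ℝ) (X : ℕ → ℝ) : Prop where
  big : ∀ n : ℕ, (n : ℝ) + 4 ≤ X n
  area : ∀ n : ℕ, ((n : ℝ) + 1) * (X n * AA s (X n)) ≤ tau s X n ^ 2
  sub : ∀ n : ℕ, ((n : ℝ) + 1) * X n ≤ tau s X n
  half : ∀ n : ℕ, tau s X n ≤ 2 * TT (AA s) (xi s X n)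

/-- `a` is holomorphic and periodic on the half-plane, and small with all its derivatives on the selected levels -/
structure IsOO (s : ℂ → ℝ) (X : ℕ → ℝ) (a : ℂ → ℂ) : Prop where
  an : ∀ w ∈ HP, AnalyticAt ℂ a w
  periodic : ∀ w ∈ HP, a (w + per) = a w
  small : ∀ j : ℕ, Tendsto (fun n => mn (fun w => Real.posLog ‖iteratedDeriv j a w‖) (xi s X n) / tau s X n) atTop (𝓝 0)

/-- a nonnegative function of the level is small -/
def SmallN (s : ℂ → ℝ) (X : ℕ → ℝ) (η : ℕ → ℝ) : Prop := Tendsto (fun n => η n / tau s X n) atTop (𝓝 0)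

variable {P : Ideal (MvPolynomial (Fin (N + 1)) ℂ)} {J : ℕ} {m : Fin J → ℕ}

/-- the values of the symmetric differentials on `F'` -/
def sth (θ : ∀ k, SymSec P (m k)) (F : ℂ → Fin (N + 1) → ℂ) (k : Fin J) (w : ℂ) : ℂ := (θ k).toFun (F w) (deriv F w)

end Pool.Agent.GA

end
end

section

/-!
# GB Defs: subvarieties which are not of general type (Theorem B of GG-ALL)

`K` is the function field of a variety of dimension `k`, `z` a transcendence basis.

* `DC E b`: `b` is a basis of the differentials of coordinates at the prime divisor `E`: `b i = d g_i`, and the dual derivations preserve the local ring of `E`.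
* `jac z b = det (∂z_j / ∂g_i)`, `RegF z l f`: the form `f (dz_1 ∧ … ∧ dz_k)^l` is regular along all prime divisors.
* `Mon d M`: the monomials of degree `M` in `d` variables, `cdet p`: the determinant of the coefficients of the polynomials `p α`, `α ∈ Mon d M`.
* `sbs g`: the linear substitution of variables.
* `SymFam`: a family of symmetric differentials of degree `M`, as a function of frames `e` (tuples of `d` derivations).
-/

set_option autoImplicit false

open MvPolynomial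
open Pool.Agent.H23 (dualDer)
open Pool.Agent.H23.Fano (PrimeDivisorOver Form)
open Pool.Agent.H17LG.Variety (FunField ratio IsLogGeneralType)
open Pool.Agent.H13.SM (conTan cone)

noncomputable section

namespace Pool.Agent.GB

/-! ## globally generated symmetric powers -/

/-! ## forms -/

section

variable {K : Type} [Field K] [Algebra ℂ K] {k d κ M : ℕ} {ι : Type}

/-- the basis `b` of the differentials comes from coordinates at `E` -/
def DC (E : PrimeDivisorOver K k) (b : Module.Basis (Fin k) K Ω[K⁄ℂ]) : Prop :=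
  ∃ g : Fin k → K, (∀ i, b i = KaehlerDifferential.D ℂ K (g i)) ∧ (∀ i, 0 ≤ E.ord (g i)) ∧ ∀ i f, 0 ≤ E.ord f → 0 ≤ E.ord (dualDer b i f)

/-- the determinant of the derivatives of `z` with respect to the coordinates of `b` -/
def jac (z : Fin k → K) (b : Module.Basis (Fin k) K Ω[K⁄ℂ]) : K := (Matrix.of fun i j => dualDer b i (z j)).det

/-- the form `f (dz_1 ∧ … ∧ dz_k)^l` is regular along all prime divisors -/
def RegF (z : Fin k → K) (l : ℕ) (f : K) : Prop :=
  ∀ (E : PrimeDivisorOver K k) (b : Module.Basis (Fin k) K Ω[K⁄ℂ]), DC E b → 0 ≤ E.ord (f * jac z b ^ l)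

/-- the value of `dz_1 ∧ … ∧ dz_k` at the derivations `e`, `h` -/
def vol (z : Fin k → K) (ε : Fin d ⊕ Fin κ ≃ Fin k) (e : Fin d → Derivation ℂ K K) (h : Fin κ → Derivation ℂ K K) : K :=
  (Matrix.of fun r s : Fin d ⊕ Fin κ => (Sum.elim e h r) (z (ε s))).det

/-- the value of `dφ_1 ∧ … ∧ dφ_κ` at `h` -/
def dph (φ : Fin κ → K) (h : Fin κ → Derivation ℂ K K) : K := (Matrix.of fun i l => h i (φ l)).det

end

/-! ## homogeneous polynomials -/

/-- the monomials of degree `M` in `d` variables -/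
abbrev Mon (d M : ℕ) : Type := ↥((Finset.univ : Finset (Fin d)).finsuppAntidiag M)

/-- the determinant of the coefficients -/
def cdet {F : Type} [Field F] {d M : ℕ} (p : Mon d M → MvPolynomial (Fin d) F) : F := by
  classical exact (Matrix.of fun α β : Mon d M => coeff β.1 (p α)).det

/-- the linear substitution `X j ↦ ∑ i, g i j X i` -/
def sbs {F : Type} [Field F] {d : ℕ} (g : Matrix (Fin d) (Fin d) F) : MvPolynomial (Fin d) F →ₐ[F] MvPolynomial (Fin d) F :=
  aeval fun j => ∑ i, C (g i j) * X i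

/-- the weight of the determinant of the symmetric power -/
def IsWeight (d M a : ℕ) : Prop :=
  ∀ (F : Type) [Field F] [CharZero F] (g : Matrix (Fin d) (Fin d) F), g.det ≠ 0 → ∀ p : Mon d M → MvPolynomial (Fin d) F,
    (∀ α, (p α).IsHomogeneous M) → cdet (fun α => sbs g (p α)) = g.det ^ a * cdet p

/-- A family of symmetric differentials of degree `M`: for every frame `e` of `d` derivations homogeneous polynomials of degree `M` in the coordinates with
respect to the frame. -/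
structure SymFam (K : Type) [Field K] [Algebra ℂ K] (k d M : ℕ) (ι : Type) where
  /-- the polynomials -/
  fn : ι → (Fin d → Derivation ℂ K K) → MvPolynomial (Fin d) K
  hom : ∀ i e, (fn i e).IsHomogeneous M
  subst : ∀ i e (g : Matrix (Fin d) (Fin d) K), fn i (fun r => ∑ s, g r s • e s) = sbs g (fn i e)
  reg : ∀ i e (E : PrimeDivisorOver K k), (∀ j f, 0 ≤ E.ord f → 0 ≤ E.ord (e j f)) → ∀ α, 0 ≤ E.ord (coeff α (fn i e))

/-! ## relations -/

section

variable {K : Type} [Field K] [Algebra ℂ K] {d M : ℕ} {ι : Type}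

/-- The polynomials `p i` are combinations of those with the indices `I α`, a basis, with coefficients which are killed by the derivations `e j`. -/
structure Rel (e : Fin d → Derivation ℂ K K) (p : ι → MvPolynomial (Fin d) K) (I : Mon d M → ι) (c : ι → Mon d M → K) : Prop where
  hom : ∀ i, (p i).IsHomogeneous M
  ne : cdet (fun α => p (I α)) ≠ 0
  eq : ∀ i, p i = ∑ α, C (c i α) * p (I α)
  ker : ∀ i α j, e j (c i α) = 0

end

/-! ## the polynomials of the symmetric differentials in a frame -/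

section

variable {N : ℕ} {P Q : Ideal (MvPolynomial (Fin (N + 1)) ℂ)} [Q.IsPrime] {J m : ℕ} {θ : Fin J → Pool.Agent.GG.SymSec P m} {d : ℕ}

/-- the tangent vector `∑ X j e_j` in the chart `x_a = 1` -/
def tv (Q : Ideal (MvPolynomial (Fin (N + 1)) ℂ)) [Q.IsPrime] (a : Fin (N + 1)) (e : Fin d → Derivation ℂ (FunField Q) (FunField Q)) :
    Pool.Agent.GG.Ph N → MvPolynomial (Fin d) (FunField Q) :=
  Sum.elim (fun b => C (ratio Q b a)) fun b => ∑ j, X j * C (e j (ratio Q b a))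

/-- `θ k` at this tangent vector -/
def psi (f : Pool.Agent.GG.Frame (m := fun _ => m) θ) (Q : Ideal (MvPolynomial (Fin (N + 1)) ℂ)) [Q.IsPrime] (a : Fin (N + 1)) (k : Fin J)
    (e : Fin d → Derivation ℂ (FunField Q) (FunField Q)) : MvPolynomial (Fin d) (FunField Q) :=
  aeval (tv Q a e) (f.A a k)

end

end Pool.Agent.GB

end
end
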