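import Pool.Agent.H18.GGT.M03
import Pool.Agent.H18.GGT.M05

/-! The parts of this file: H17EF.PNDefs, H62.SA.Defs, H7.Bir.Map, H62.Qe.Defs. -/

section

/-!
# EF PNDefs: holomorphic maps from a projective surface to a complex torus
-/

set_option autoImplicit false

open Topology Filter MvPolynomial

noncomputable section

namespace Pool.Agent.H17EF

open Pool.Agent.H17 (PN VanishesAt HolomorphicInto)

variable {N : ℕ}

/-- The closed subvariety of `ℙ^N` given by the homogeneous ideal `P`. -/
def projVar (P : Ideal (MvPolynomial (Fin (N + 1)) ℂ)) : Set (PN N) :=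
  {x | ∀ Q ∈ P, ∀ n, Q.IsHomogeneous n → VanishesAt Q x}

end Pool.Agent.H17EF

end
end

section

/-!
# SA Defs: locally closed subvarieties of `ℙ^N`

The complement in a closed subvariety of the common zero set of some forms, and its properness over an affine variety.
-/

set_option autoImplicit false

open MvPolynomial
open Pool.Agent.H23.Fano (PrimeDivisorOver)
open Pool.Agent.H17 (PN VanishesAt)
open Pool.Agent.H17GT (coordFun)
open Pool.Agent.H17LG.Variety (FunField ratio)

noncomputable section

namespace Pool.Agent.H62.SA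

variable {N : ℕ}

/-- The points of the zero locus of the homogeneous ideal `P` at which some of the forms `G m` does not
vanish. -/
def locVar (P : Ideal (MvPolynomial (Fin (N + 1)) ℂ)) {s : ℕ}
    (G : Fin s → MvPolynomial (Fin (N + 1)) ℂ) : Set (PN N) :=
  {x | (∀ Q ∈ P, ∀ n, Q.IsHomogeneous n → VanishesAt Q x) ∧ ∃ m, ¬ VanishesAt (G m) x}

/-- The centre of the prime divisor `E` on the closed subvariety of `ℙ^N` given by `P` lies in the
common zero set of the forms `G m`. -/
def OnBd (P : Ideal (MvPolynomial (Fin (N + 1)) ℂ)) [P.IsPrime] {s : ℕ}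
    (G : Fin s → MvPolynomial (Fin (N + 1)) ℂ) {k : ℕ} (E : PrimeDivisorOver (FunField P) k) : Prop :=
  ∃ j, coordFun P j ≠ 0 ∧ (∀ i, 0 ≤ E.ord (ratio P i j)) ∧
    ∀ m, 0 < E.ord (aeval (fun i => ratio P i j) (G m))

end Pool.Agent.H62.SA

end
end

section

/-!
# Bir Map: composition of holomorphic maps with rational maps

* `exists_comp`: the composition of a holomorphic map `f` into `ℙ^M` with the rational map given by forms `γ i` of the same degree, not all of them
  zero on `f`, is holomorphic: near every point divide the functions `γ i (φ z)` by their common zeros.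
* `pn_identity`: the identity theorem for maps into projective space.
-/

set_option autoImplicit false

open Topology Filter Metric MvPolynomial

noncomputable section

namespace Pool.Agent.H7.Bir

open Pool.Agent.H17 (PN VanishesAt HolomorphicInto)

variable {N M : ℕ}

/-- The values of the forms `γ i` at `x`. -/
def vals (γ : Fin (N + 1) → MvPolynomial (Fin (M + 1)) ℂ) (x : Fin (M + 1) → ℂ) : Fin (N + 1) → ℂ := fun i => eval x (γ i)

/-- The rational map given by the forms `γ i` (arbitrary value where it is not defined). -/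
def rmap (γ : Fin (N + 1) → MvPolynomial (Fin (M + 1)) ℂ) (x : PN M) : PN N :=
  open Classical in
  if h : vals γ x.rep ≠ 0 then Projectivization.mk ℂ _ h
  else Projectivization.mk ℂ (fun _ => 1) fun h => one_ne_zero (congrFun h 0)

end Pool.Agent.H7.Bir

end
end

section

/-!
# Qe Defs: coverings of quasi-projective varieties
-/

set_option autoImplicit false

open Topology Filter MvPolynomial

noncomputable section

namespace Pool.Agent.H62.Qe

open Pool.Agent.H17 (PN VanishesAt)
open Pool.Agent.H17EF (projVar)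
open Pool.Agent.H7.Bir (vals rmap)
open Pool.Agent.H62.SA (locVar)

variable {N M : ℕ}

/-- `p` is a surjective regular map `X' → X` of projective varieties. -/
structure IsReg (P : Ideal (MvPolynomial (Fin (N + 1)) ℂ)) (P' : Ideal (MvPolynomial (Fin (M + 1)) ℂ)) (p : PN M → PN N) : Prop where
  maps : ∀ y ∈ projVar P', p y ∈ projVar P
  surj : ∀ x ∈ projVar P, ∃ y ∈ projVar P', p y = x
  regular : ∀ y ∈ projVar P', ∃ (D : ℕ) (γ : Fin (N + 1) → MvPolynomial (Fin (M + 1)) ℂ), (∀ i, (γ i).IsHomogeneous D) ∧
    vals γ y.rep ≠ 0 ∧ ∀ y' ∈ projVar P', vals γ y'.rep ≠ 0 → p y' = rmap γ y'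

/-- `p : X' → X` is surjective and regular, and over the open subset `U` of `X` it is locally injective and has local holomorphic sections. -/
structure IsEtaleOver (P : Ideal (MvPolynomial (Fin (N + 1)) ℂ)) (P' : Ideal (MvPolynomial (Fin (M + 1)) ℂ)) {s s' : ℕ}
    (G : Fin s → MvPolynomial (Fin (N + 1)) ℂ) (G' : Fin s' → MvPolynomial (Fin (M + 1)) ℂ) (p : PN M → PN N) : Prop where
  reg : IsReg P P' p
  inv : ∀ y ∈ projVar P', p y ∈ locVar P G ↔ y ∈ locVar P' G'
  locInj : ∀ (y : Fin (M + 1) → ℂ) (hy : y ≠ 0), Projectivization.mk ℂ y hy ∈ locVar P' G' → ∀ᶠ q in 𝓝 (y, y), ∀ (h : q.1 ≠ 0) (h' : q.2 ≠ 0),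
    Projectivization.mk ℂ q.1 h ∈ projVar P' → Projectivization.mk ℂ q.2 h' ∈ projVar P' →
      p (Projectivization.mk ℂ q.1 h) = p (Projectivization.mk ℂ q.2 h') → Projectivization.mk ℂ q.1 h = Projectivization.mk ℂ q.2 h'
  locSec : ∀ (y : Fin (M + 1) → ℂ) (hy : y ≠ 0), Projectivization.mk ℂ y hy ∈ locVar P' G' →
    ∃ (x : Fin (N + 1) → ℂ) (hx : x ≠ 0) (τ : (Fin (N + 1) → ℂ) → Fin (M + 1) → ℂ), p (Projectivization.mk ℂ y hy) = Projectivization.mk ℂ x hx ∧
      AnalyticAt ℂ τ x ∧ τ x = y ∧ ∀ᶠ x' in 𝓝 x, ∀ h : x' ≠ 0, Projectivization.mk ℂ x' h ∈ projVar P →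
        ∃ h' : τ x' ≠ 0, Projectivization.mk ℂ (τ x') h' ∈ projVar P' ∧ p (Projectivization.mk ℂ (τ x') h') = Projectivization.mk ℂ x' h

end Pool.Agent.H62.Qe

end
end
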