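import Pool.Agent.H18.GGT.M06
import Pool.Agent.H18.GGT.M12
import Pool.Agent.H18.GGT.M13

/-! The parts of this file: H13.OT.Wrap, GL.Defs, H7.Bir.Open. -/

section

/-!
# Entire curves of order two in projective spaces
-/

set_option autoImplicit false

namespace Pool.Agent.H13.OT

open Filter Topology Metric
open Pool.Agent.H17 (PN HolomorphicInto EntFun ZariskiClosedIn)

variable {N : ℕ}

/-- The entire curve `f : ℂ → ℙ^N` has `T_f(r) = O(r²)`, so that it has order at most two. Here
`T_f(r)` is the characteristic function, that is, the mean value of `log ‖F‖` over the circle of radius `r` minus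
`log ‖F 0‖`, where `F : ℂ → ℂ^(N+1)` is an entire function without zeros which represents `f`. -/
def OrderTwo (f : ℂ → PN N) : Prop :=
  ∃ (F : ℂ → Fin (N + 1) → ℂ) (A : ℝ), Differentiable ℂ F ∧ (∀ z, ∃ h : F z ≠ 0, f z = Projectivization.mk ℂ (F z) h) ∧
    ∀ r : ℝ, 0 < r → Real.circleAverage (fun z => Real.log ‖F z‖) 0 r ≤ A * (1 + r ^ 2)

end Pool.Agent.H13.OT

end

section

/-!
# GL Defs: logarithmic symmetric differentials on the complement of hyperplane sections

PROJECT GG-LOG (note 4599).  `P` is a homogeneous prime ideal, `X` its projective variety, `B` a finite set of coordinates; `D` is the union of the hyperplane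
sections `x i = 0`, `i ∈ B`, and `U = X \ D`.  A logarithmic tangent vector of `(X, D)` at a point `x` of the cone (on `D` too) is given by its coordinates `ξ`:
`ξ i = v i / x i` for `i ∈ B` and `ξ i = v i` otherwise, where `v = act B x ξ` is a tangent vector of the cone.  For `B = ∅` this is `GG.Defs`.

In the affine case one works in the chart `x b = 1` for one fixed `b ∈ B`: `Uc P B b` is the set of the points, `Tc P b x` the tangent space.
To get polynomials one adds the coordinate `1 / ∏ x i` (`emb`, `embV`), so the phase space is `Ph (N + 1)`.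
-/

set_option autoImplicit false

open MvPolynomial Topology Filter Metric
open Pool.Agent.H13.SM (conTan cone)
open Pool.Agent.H17 (PN VanishesAt)
open Pool.Agent.GG
open Pool.Agent.GA

noncomputable section

namespace Pool.Agent.GL

variable {N : ℕ}

/-- the tangent vector with the logarithmic coordinates `ξ` -/
def act (B : Finset (Fin (N + 1))) (x ξ : Fin (N + 1) → ℂ) : Fin (N + 1) → ℂ := fun i => if i ∈ B then x i * ξ i else ξ i

/-- the logarithmic coordinates of the radial vector `x` -/
def eul (B : Finset (Fin (N + 1))) (x : Fin (N + 1) → ℂ) : Fin (N + 1) → ℂ := fun i => if i ∈ B then 1 else x i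

/-- the logarithmic coordinates at `c • x` of the tangent vector `c • v`, if `ξ` are those of `v` at `x` -/
def lsc (B : Finset (Fin (N + 1))) (c : ℂ) (ξ : Fin (N + 1) → ℂ) : Fin (N + 1) → ℂ := fun i => if i ∈ B then ξ i else c * ξ i

/-- A logarithmic symmetric differential of degree `m` on the projective variety of `P`, with poles on the hyperplane sections `x i = 0`, `i ∈ B`. -/
structure LogSec (P : Ideal (MvPolynomial (Fin (N + 1)) ℂ)) (B : Finset (Fin (N + 1))) (m : ℕ) where
  /-- the section -/
  toFun : (Fin (N + 1) → ℂ) → (Fin (N + 1) → ℂ) → ℂ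
  regular : ∀ i, ∃ (e : ℕ) (A : MvPolynomial (Fin (N + 1) ⊕ Fin (N + 1)) ℂ),
    ∀ x ∈ cone P, ∀ ξ, act B x ξ ∈ conTan P x → x i ^ e * toFun x ξ = eval (Sum.elim x ξ) A
  add_smul : ∀ x ∈ cone P, ∀ ξ, act B x ξ ∈ conTan P x → ∀ a : ℂ, toFun x (ξ + a • eul B x) = toFun x ξ
  smul : ∀ x ∈ cone P, ∀ ξ, act B x ξ ∈ conTan P x → ∀ a : ℂ, toFun x (a • ξ) = a ^ m * toFun x ξ
  scale : ∀ x ∈ cone P, ∀ ξ, act B x ξ ∈ conTan P x → ∀ c : ℂ, c ≠ 0 → toFun (c • x) (lsc B c ξ) = toFun x ξ

/-! ## the chart `x b = 1`, `b ∈ B` -/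

/-! ## nonautonomous equations -/

/-! ## curves in the half-plane -/

end Pool.Agent.GL

end
end

section

/-!
# Bir Open: the four properties for Zariski open subsets of projective varieties

`open_four`: if the closed subvariety `X` of `ℙ^N` has the properties of the conjecture with the exceptional set `Ξ`, then every nonempty Zariski
open subset `U` of `X` has them with the exceptional set `Ξ ∩ U`.  `bir_open_four`: if `X` has the properties, then every quasi-projective variety
which is birational to `X` has them.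
-/

set_option autoImplicit false

open Topology Filter MvPolynomial

noncomputable section

namespace Pool.Agent.H7.Bir

open Pool.Agent.H17 (PN VanishesAt HolomorphicInto puncturedDisc ZariskiClosedIn)
open Pool.Agent.H17GT (coordFun)
open Pool.Agent.H17LG.Variety (FunField IsLogGeneralType)
open Pool.Agent.H62.FC (Homog)
open Pool.Agent.H62.SA (locVar OnBd)

variable {N M : ℕ}

/-- The properties of the conjecture for the quasi-projective variety `U = locVar P G`, with the exceptional set `Ξ`. -/
structure GGLOpen (P : Ideal (MvPolynomial (Fin (N + 1)) ℂ)) [P.IsPrime] {s : ℕ} (G : Fin s → MvPolynomial (Fin (N + 1)) ℂ)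
    (Ξ : Set (PN N)) : Prop where
  closed : ZariskiClosedIn (locVar P G) Ξ
  proper : Ξ ≠ locVar P G
  logGeneralType : ∀ w, 1 ≤ w → (∃ z : Fin w → FunField P, IsTranscendenceBasis ℂ z) → IsLogGeneralType (OnBd P G (k := w))
  picard : ∀ f : ℂ → PN N, HolomorphicInto f puncturedDisc → (∀ z ∈ puncturedDisc, f z ∈ locVar P G) →
    (∃ z ∈ puncturedDisc, f z ∉ Ξ) →
    ∃ g : ℂ → PN N, HolomorphicInto g (Metric.ball 0 1) ∧ ∀ z ∈ puncturedDisc, g z = f z
  brody : ∀ f : ℂ → PN N, HolomorphicInto f Set.univ → (∀ z, f z ∈ locVar P G) → (∃ z w, f z ≠ f w) → ∀ z, f z ∈ Ξ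
  strongly : ∀ (Q : Ideal (MvPolynomial (Fin (N + 1)) ℂ)) [Q.IsPrime], Homog Q → P ≤ Q → ¬ locVar Q G ⊆ Ξ →
    ∀ w, 1 ≤ w → (∃ z : Fin w → FunField Q, IsTranscendenceBasis ℂ z) → IsLogGeneralType (OnBd Q G (k := w))

end Pool.Agent.H7.Bir

end
end
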