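import Pool.Agent.H18.GGT.M05
import Pool.Agent.H18.GGT.M06

/-! The parts of this file: GA.Strip, H30M.Calc, H13.SM.Homog, AD.G.Spec, MQ.Bridge, MQ.FS. -/

section

/-!
# Integrals over vertical periods of functions on a half plane

For a function `u` of class `C²` on `{Re w > 0}` with `u (w + 2πi) = u w`, the second derivative in `X` of `∫_0^{2π} u (X + i y) dy` is
`∫_0^{2π} Δ u (X + i y) dy`.
-/

set_option autoImplicit false

open Complex Topology Filter MeasureTheory Set Laplacian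
open scoped Real

noncomputable section

namespace Pool.Agent.GA.StripN

/-- Taylor's formula of order two. -/
theorem taylor2 {g g' g'' : ℝ → ℝ} {a b : ℝ} (h1 : ∀ t ∈ uIcc a b, HasDerivAt g (g' t) t)
    (h2 : ∀ t ∈ uIcc a b, HasDerivAt g' (g'' t) t) (hc : ContinuousOn g'' (uIcc a b)) :
    g b = g a + (b - a) * g' a + ∫ t in a..b, (b - t) * g'' t := by
  have h : ∀ t ∈ uIcc a b, HasDerivAt (fun t => (b - t) * g' t + g t) ((b - t) * g'' t) t := by
    intro t ht
    have h3 : HasDerivAt (fun t : ℝ => b - t) (-1) t := by simpa using (hasDerivAt_id t).const_sub b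
    exact ((h3.mul (h2 t ht)).add (h1 t ht)).congr_deriv (by ring)
  rw [intervalIntegral.integral_eq_sub_of_hasDerivAt h
    ((ContinuousOn.mul (by fun_prop) hc).intervalIntegrable)]
  ring

variable {u : ℂ → ℝ}

/-- the point `t + i y` -/
abbrev pp (t y : ℝ) : ℂ := (t : ℂ) + (y : ℂ) * I

theorem pp_re (t y : ℝ) : (pp t y).re = t := by simp [pp]

theorem hasDerivAt_pp_left (t y : ℝ) : HasDerivAt (fun t => pp t y) 1 t := by
  have h := (Complex.ofRealCLM.hasDerivAt (x := t)).add_const ((y : ℂ) * I)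
  simpa [pp] using h

theorem hasDerivAt_pp_right (t y : ℝ) : HasDerivAt (fun y => pp t y) I y := by
  have h := ((Complex.ofRealCLM.hasDerivAt (x := y)).mul_const I).const_add (t : ℂ)
  simpa [pp] using h

theorem continuous_pp : Continuous fun p : ℝ × ℝ => pp p.1 p.2 := by unfold pp; fun_prop

/-- the second derivative of `u` in the direction `e` -/
def dd (u : ℂ → ℝ) (e : ℂ) (w : ℂ) : ℝ := fderiv ℝ (fun z => fderiv ℝ u z e) w e

theorem contDiffAt_fderiv_apply (e : ℂ) {w : ℂ} (hu : ContDiffAt ℝ 2 u w) : ContDiffAt ℝ 1 (fun z => fderiv ℝ u z e) w := by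
  have h1 : ContDiffAt ℝ 1 (fderiv ℝ u) w := hu.fderiv_right (by norm_num)
  exact h1.clm_apply contDiffAt_const

theorem continuousAt_dd (e : ℂ) {w : ℂ} (hu : ContDiffAt ℝ 2 u w) : ContinuousAt (dd u e) w := by
  have h1 := contDiffAt_fderiv_apply e hu
  have h2 : ContDiffAt ℝ 0 (fderiv ℝ fun z => fderiv ℝ u z e) w := h1.fderiv_right (by norm_num)
  exact (h2.clm_apply contDiffAt_const).continuousAt

theorem hasDerivAt_left {t y : ℝ} (hu : DifferentiableAt ℝ u (pp t y)) :
    HasDerivAt (fun t => u (pp t y)) (fderiv ℝ u (pp t y) 1) t :=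
  hu.hasFDerivAt.comp_hasDerivAt t (hasDerivAt_pp_left t y)

theorem hasDerivAt_right {t y : ℝ} (hu : DifferentiableAt ℝ u (pp t y)) :
    HasDerivAt (fun y => u (pp t y)) (fderiv ℝ u (pp t y) I) y :=
  hu.hasFDerivAt.comp_hasDerivAt y (hasDerivAt_pp_right t y)

/-- functions which are continuous on the half plane are integrable along vertical segments -/
theorem vint {φ : ℂ → ℝ} (hφ : ∀ w : ℂ, 0 < w.re → ContinuousAt φ w) {t : ℝ} (ht : 0 < t) (a b : ℝ) :
    IntervalIntegrable (fun y => φ (pp t y)) volume a b := by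
  apply Continuous.intervalIntegrable
  rw [continuous_iff_continuousAt]
  intro y
  exact ContinuousAt.comp (f := fun y => pp t y) (hφ _ (by rwa [pp_re])) (hasDerivAt_pp_right t y).continuousAt

/-- their integrals over a period are continuous functions of `t` -/
theorem continuousOn_vint {φ : ℂ → ℝ} (hφ : ∀ w : ℂ, 0 < w.re → ContinuousAt φ w) (a b : ℝ) :
    ContinuousOn (fun t => ∫ y in a..b, φ (pp t y)) (Ioi 0) := by
  have h : ContinuousOn (Function.uncurry fun t y : ℝ => φ (pp t y)) (Ioi 0 ×ˢ univ) := by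
    rintro ⟨t, y⟩ ⟨ht, -⟩
    exact (ContinuousAt.comp (f := fun p : ℝ × ℝ => pp p.1 p.2) (x := (t, y)) (hφ _ (by rw [pp_re]; exact ht))
      continuous_pp.continuousAt).continuousWithinAt
  rw [continuousOn_iff_continuous_restrict]
  have h2 : Continuous (Function.uncurry fun (t : Ioi (0 : ℝ)) (y : ℝ) => φ (pp t y)) := by
    rw [continuous_iff_continuousAt]
    rintro ⟨t, y⟩
    refine ContinuousAt.comp (f := fun p : Ioi (0 : ℝ) × ℝ => pp p.1 p.2) (x := (t, y)) (hφ _ (by rw [pp_re]; exact t.2)) ?_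
    exact (continuous_pp.comp (by fun_prop : Continuous fun p : Ioi (0 : ℝ) × ℝ => ((p.1 : ℝ), p.2))).continuousAt
  exact intervalIntegral.continuous_parametric_intervalIntegral_of_continuous' h2 a b

theorem fderiv_periodic (hp : ∀ w : ℂ, 0 < w.re → u (w + 2 * π * I) = u w) {w : ℂ} (hw : 0 < w.re) :
    fderiv ℝ u (w + 2 * π * I) = fderiv ℝ u w := by
  rw [← fderiv_comp_add_right]
  apply Filter.EventuallyEq.fderiv_eq
  have : {z : ℂ | 0 < z.re} ∈ 𝓝 w := (isOpen_lt continuous_const continuous_re).mem_nhds hw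
  filter_upwards [this] with z hz using hp z hz

theorem int_dd_I (hu : ∀ w : ℂ, 0 < w.re → ContDiffAt ℝ 2 u w) (hp : ∀ w : ℂ, 0 < w.re → u (w + 2 * π * I) = u w) {t : ℝ}
    (ht : 0 < t) : ∫ y in (0 : ℝ)..2 * π, dd u I (pp t y) = 0 := by
  have h : ∀ y ∈ uIcc (0 : ℝ) (2 * π), HasDerivAt (fun y => fderiv ℝ u (pp t y) I) (dd u I (pp t y)) y := by
    intro y _
    exact hasDerivAt_right ((contDiffAt_fderiv_apply I (hu _ (by rwa [pp_re]))).differentiableAt (by norm_num))
  rw [intervalIntegral.integral_eq_sub_of_hasDerivAt h (vint (fun w hw => continuousAt_dd I (hu w hw)) ht _ _)]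
  have e : pp t (2 * π) = pp t 0 + 2 * π * I := by simp [pp]
  rw [e, fderiv_periodic hp (by rwa [pp_re])]
  simp

/-- **The second derivative of the integrals over the periods.** -/
theorem strip (hu : ∀ w : ℂ, 0 < w.re → ContDiffAt ℝ 2 u w) (hp : ∀ w : ℂ, 0 < w.re → u (w + 2 * π * I) = u w) {a b : ℝ}
    (ha : 0 < a) (hab : a ≤ b) :
    ∫ y in (0 : ℝ)..2 * π, u (pp b y) = (∫ y in (0 : ℝ)..2 * π, u (pp a y)) + (b - a) * (∫ y in (0 : ℝ)..2 * π, fderiv ℝ u (pp a y) 1) +
      ∫ t in a..b, (b - t) * ∫ y in (0 : ℝ)..2 * π, Δ u (pp t y) := by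
  have hb : 0 < b := ha.trans_le hab
  have hpos : ∀ t ∈ uIcc a b, 0 < t := fun t ht => by rw [uIcc_of_le hab] at ht; exact ha.trans_le ht.1
  have hu0 : ∀ w : ℂ, 0 < w.re → ContinuousAt u w := fun w hw => (hu w hw).continuousAt
  have hu1 : ∀ w : ℂ, 0 < w.re → ContinuousAt (fun z => fderiv ℝ u z 1) w := fun w hw => (contDiffAt_fderiv_apply 1 (hu w hw)).continuousAt
  have hu2 : ∀ w : ℂ, 0 < w.re → ContinuousAt (dd u 1) w := fun w hw => continuousAt_dd 1 (hu w hw)
  -- Taylor's formula on every horizontal line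
  have h1 : ∀ y : ℝ, u (pp b y) = u (pp a y) + (b - a) * fderiv ℝ u (pp a y) 1 + ∫ t in a..b, (b - t) * dd u 1 (pp t y) := by
    intro y
    refine taylor2 (g := fun t => u (pp t y)) (g' := fun t => fderiv ℝ u (pp t y) 1) (g'' := fun t => dd u 1 (pp t y)) ?_ ?_ ?_
    · exact fun t ht => hasDerivAt_left ((hu _ (by rw [pp_re]; exact hpos t ht)).differentiableAt (by norm_num))
    · exact fun t ht => hasDerivAt_left (u := fun z => fderiv ℝ u z 1)
        ((contDiffAt_fderiv_apply 1 (hu _ (by rw [pp_re]; exact hpos t ht))).differentiableAt (by norm_num))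
    · intro t ht
      exact (ContinuousAt.comp (f := fun t => pp t y) (hu2 _ (by rw [pp_re]; exact hpos t ht))
        (hasDerivAt_pp_left t y).continuousAt).continuousWithinAt
  have hcF : ContinuousOn (Function.uncurry fun t y : ℝ => (b - t) * dd u 1 (pp t y)) (Ioi 0 ×ˢ univ) := by
    rintro ⟨t, y⟩ ⟨ht, -⟩
    apply ContinuousAt.continuousWithinAt
    exact (by fun_prop : ContinuousAt (fun p : ℝ × ℝ => b - p.1) (t, y)).mul
      (ContinuousAt.comp (f := fun p : ℝ × ℝ => pp p.1 p.2) (x := (t, y)) (hu2 _ (by rw [pp_re]; exact ht)) continuous_pp.continuousAt)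
  have hint : IntegrableOn (Function.uncurry fun t y : ℝ => (b - t) * dd u 1 (pp t y)) (uIoc a b ×ˢ uIoc 0 (2 * π)) := by
    have hK : IsCompact (Icc a b ×ˢ Icc (0 : ℝ) (2 * π)) := isCompact_Icc.prod isCompact_Icc
    have := (hcF.mono (s := Ioi 0 ×ˢ univ) (t := Icc a b ×ˢ Icc (0 : ℝ) (2 * π)) fun p hp =>
      ⟨ha.trans_le hp.1.1, mem_univ _⟩).integrableOn_compact (μ := volume) hK
    apply this.mono_set
    rw [uIoc_of_le hab, uIoc_of_le (by positivity)]
    exact prod_mono Ioc_subset_Icc_self Ioc_subset_Icc_self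
  have h2 : ∫ t in a..b, (b - t) * ∫ y in (0 : ℝ)..2 * π, Δ u (pp t y) = ∫ t in a..b, ∫ y in (0 : ℝ)..2 * π, (b - t) * dd u 1 (pp t y) := by
    apply intervalIntegral.integral_congr
    intro t ht
    have ht0 := hpos t ht
    have e1 : ∫ y in (0 : ℝ)..2 * π, Δ u (pp t y) = ∫ y in (0 : ℝ)..2 * π, dd u 1 (pp t y) := by
      have e2 : ∀ y ∈ uIcc (0 : ℝ) (2 * π), Δ u (pp t y) = dd u 1 (pp t y) + dd u I (pp t y) := by
        intro y _
        rw [Pool.Agent.H30M.lap_eq (hu _ (by rwa [pp_re]))]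
        rfl
      rw [intervalIntegral.integral_congr e2, intervalIntegral.integral_add (vint hu2 ht0 _ _)
        (vint (fun w hw => continuousAt_dd I (hu w hw)) ht0 _ _), int_dd_I hu hp ht0, add_zero]
    simp only [e1]
    rw [intervalIntegral.integral_const_mul]
  rw [h2, intervalIntegral_intervalIntegral_swap hint]
  rw [intervalIntegral.integral_congr (fun y _ => h1 y)]
  have i1 := vint hu0 ha 0 (2 * π)
  have i2 := (vint hu1 ha 0 (2 * π)).const_mul (b - a)
  have i3 : IntervalIntegrable (fun y => ∫ t in a..b, (b - t) * dd u 1 (pp t y)) volume 0 (2 * π) := by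
    have i4 : ∀ y, ∫ t in a..b, (b - t) * dd u 1 (pp t y) = u (pp b y) - u (pp a y) - (b - a) * fderiv ℝ u (pp a y) 1 := fun y => by
      rw [h1 y]; ring
    simp only [i4]
    exact ((vint hu0 hb _ _).sub i1).sub i2
  rw [intervalIntegral.integral_add (i1.add i2) i3, intervalIntegral.integral_add i1 i2, intervalIntegral.integral_const_mul]

end Pool.Agent.GA.StripN

end
end

section

/-!
# Calculus of gradients and Laplacians on the complex plane
-/

set_option autoImplicit false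

open MeasureTheory Complex Set Filter Topology Laplacian InnerProductSpace

namespace Pool.Agent.H30M

/-- scalar product of gradients -/
noncomputable def gg (u v : ℂ → ℝ) (z : ℂ) : ℝ :=
  fderiv ℝ u z 1 * fderiv ℝ v z 1 + fderiv ℝ u z I * fderiv ℝ v z I

theorem fderiv_comp_real {φ : ℝ → ℝ} {u : ℂ → ℝ} {z : ℂ} (hφ : DifferentiableAt ℝ φ (u z))
    (hu : DifferentiableAt ℝ u z) (v : ℂ) :
    fderiv ℝ (fun w => φ (u w)) z v = deriv φ (u z) * fderiv ℝ u z v := by
  have h := hφ.hasDerivAt.comp_hasFDerivAt z hu.hasFDerivAt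
  have h' : HasFDerivAt (fun w => φ (u w)) (deriv φ (u z) • fderiv ℝ u z) z := h
  rw [h'.fderiv]
  simp

/-- **Laplacian of a composition** -/
theorem lap_comp {φ : ℝ → ℝ} {u : ℂ → ℝ} {z : ℂ} (hφ : ContDiffAt ℝ 2 φ (u z)) (hu : ContDiffAt ℝ 2 u z) :
    Δ (fun w => φ (u w)) z = deriv φ (u z) * Δ u z + deriv (deriv φ) (u z) * gg u u z := by
  have hc : ContDiffAt ℝ 2 (fun w => φ (u w)) z := hφ.comp z hu
  have hφ1 : ∀ᶠ w in 𝓝 z, DifferentiableAt ℝ φ (u w) ∧ DifferentiableAt ℝ u w := by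
    have h1 := hu.continuousAt.eventually (hφ.eventually (by simp))
    have h2 := hu.eventually (by simp)
    filter_upwards [h1, h2] with w hw hw'
    exact ⟨hw.differentiableAt (by norm_num), hw'.differentiableAt (by norm_num)⟩
  have hev : ∀ v : ℂ, (fun w => fderiv ℝ (fun w => φ (u w)) w v) =ᶠ[𝓝 z] fun w => deriv φ (u w) * fderiv ℝ u w v := by
    intro v
    filter_upwards [hφ1] with w hw
    exact fderiv_comp_real hw.1 hw.2 v
  have hd : DifferentiableAt ℝ (deriv φ) (u z) := by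
    have h1 : ContDiffAt ℝ 1 (deriv φ) (u z) := by
      have h2 : ContDiffAt ℝ 1 (fun x => fderiv ℝ φ x 1) (u z) :=
        (hφ.fderiv_right (m := 1) (by norm_num)).clm_apply contDiffAt_const
      have e : deriv φ = fun x => fderiv ℝ φ x 1 := by
        funext x; exact fderiv_apply_one_eq_deriv.symm
      rw [e]; exact h2
    exact h1.differentiableAt (by norm_num)
  have key : ∀ v : ℂ, fderiv ℝ (fun w => fderiv ℝ (fun w => φ (u w)) w v) z v =
      deriv φ (u z) * fderiv ℝ (fun w => fderiv ℝ u w v) z v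
      + deriv (deriv φ) (u z) * (fderiv ℝ u z v * fderiv ℝ u z v) := by
    intro v
    rw [(hev v).fderiv_eq]
    have h1 : DifferentiableAt ℝ (fun w => deriv φ (u w)) z := hd.comp z (hu.differentiableAt (by norm_num))
    have h2 : DifferentiableAt ℝ (fun w => fderiv ℝ u w v) z := (contDiffAt_d hu v).differentiableAt (by norm_num)
    rw [fderiv_fun_mul h1 h2]
    simp only [add_apply, smul_apply, smul_eq_mul]
    rw [fderiv_comp_real hd (hu.differentiableAt (by norm_num))]
    ring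
  rw [lap_eq hc, key, key, lap_eq hu]
  unfold gg
  ring

theorem lap_add {u v : ℂ → ℝ} {z : ℂ} (hu : ContDiffAt ℝ 2 u z) (hv : ContDiffAt ℝ 2 v z) :
    Δ (fun w => u w + v w) z = Δ u z + Δ v z := hu.laplacian_add hv

theorem lap_sub {u v : ℂ → ℝ} {z : ℂ} (hu : ContDiffAt ℝ 2 u z) (hv : ContDiffAt ℝ 2 v z) :
    Δ (fun w => u w - v w) z = Δ u z - Δ v z := hu.laplacian_sub hv

theorem lap_congr {u v : ℂ → ℝ} {z : ℂ} (h : u =ᶠ[𝓝 z] v) : Δ u z = Δ v z :=
  (laplacian_congr_nhds h).eq_of_nhds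

/-- The real part of `a(z) dz` applied to a vector: the gradient of `log ‖g‖`. -/
theorem fderiv_log_norm {g : ℂ → ℂ} {w : ℂ} (hg : DifferentiableAt ℂ g w) (h0 : g w ≠ 0) (v : ℂ) :
    fderiv ℝ (fun z => Real.log ‖g z‖) w v = (deriv g w / g w * v).re := by
  have h1 : HasFDerivAt g ((ContinuousLinearMap.toSpanSingleton ℂ (deriv g w)).restrictScalars ℝ) w :=
    hg.hasDerivAt.hasFDerivAt.restrictScalars ℝ
  have h2 := h1.norm_sq
  have hne : ‖g w‖ ^ 2 ≠ 0 := by
    have := norm_pos_iff.2 h0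
    positivity
  have h3 := (h2.log hne).const_mul (1 / 2 : ℝ)
  have e : (fun z => Real.log ‖g z‖) = fun z => (1 / 2 : ℝ) * Real.log (‖g z‖ ^ 2) := by
    funext z
    rw [Real.log_pow]
    push_cast
    ring
  rw [e, h3.fderiv]
  have hn : (g w).re ^ 2 + (g w).im ^ 2 ≠ 0 := by
    rw [← Complex.normSq_eq_norm_sq, Complex.normSq_apply] at hne
    intro h
    apply hne
    rw [← h]
    ring
  simp only [smul_apply, smul_eq_mul, ContinuousLinearMap.comp_apply, innerSL_apply_apply,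
    ContinuousLinearMap.coe_restrictScalars', ContinuousLinearMap.toSpanSingleton_apply]
  rw [← Complex.normSq_eq_norm_sq, Complex.normSq_apply, Complex.inner]
  have h5 : (deriv g w / g w * v).re = ((v * deriv g w) / g w).re := by
    congr 1
    ring
  rw [h5, Complex.div_re, Complex.normSq_apply]
  have hn' : (g w).re * (g w).re + (g w).im * (g w).im ≠ 0 := by
    intro h
    apply hn
    rw [← h]
    ring
  simp only [mul_re, conj_re, conj_im, mul_im]
  field_simp
  ring

end Pool.Agent.H30M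

end

section

/-!
# The affine part of the cone of a homogeneous prime ideal

PROOF of `mem_pts_iff`.  Write `a i = ratio P i l`, so `aeval a Q = gen P l Q` and `a l = 1`
(`ratio_self`).
(→) `aeval a (X l - 1) = 0` gives `w l = 1`.  For `Q ∈ P` its components `Q_d` are in `P` (`Homog P`), so
`gen P l Q_d = 0` (`gen_eq_zero_iff`) and `aeval a Q = ∑ aeval a Q_d = 0`; hence `eval w Q = 0`.
(←) Let `aeval a R = 0`, `D = R.totalDegree` and `R' = ∑ d ∈ range (D + 1), X l ^ (D - d) * R_d`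
(`R_d = homogeneousComponent d R`), homogeneous of degree `D`.  Since `a l = 1`,
`gen P l R' = ∑ aeval a R_d = aeval a R = 0`, so `R' ∈ P` (`gen_eq_zero_iff`), and
`0 = eval w R' = ∑ w l ^ (D - d) * eval w R_d = eval w R` since `w l = 1`
(`MvPolynomial.sum_homogeneousComponent`).

PROOF of `euler`.  For the component `Q_d ∈ P`: `∑ x i * eval x (pderiv i Q_d) = d * eval x Q_d = 0`
(`IsHomogeneous.sum_X_mul_pderiv`); sum over `d`.
-/

open MvPolynomial
open Pool.Agent.H62.FC (Homog)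

noncomputable section

namespace Pool.Agent.H13.SM

variable {N : ℕ} {P : Ideal (MvPolynomial (Fin (N + 1)) ℂ)}

private theorem hg_smul {d : ℕ} {Q : MvPolynomial (Fin (N + 1)) ℂ} (hQ : Q.IsHomogeneous d) (c : ℂ)
    (x : Fin (N + 1) → ℂ) : eval (c • x) Q = c ^ d * eval x Q := by
  rw [eval_eq', eval_eq', Finset.mul_sum]
  refine Finset.sum_congr rfl fun m hm => ?_
  have h1 : ∏ i, (c • x) i ^ m i = c ^ d * ∏ i, x i ^ m i := by
    simp only [Pi.smul_apply, smul_eq_mul, mul_pow, Finset.prod_mul_distrib]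
    rw [Finset.prod_pow_eq_pow_sum]
    have h2 := hQ (mem_support_iff.1 hm)
    rw [Finsupp.weight_apply, Finsupp.sum_fintype _ _ (by simp)] at h2
    simp only [Pi.one_apply, smul_eq_mul, mul_one] at h2
    rw [h2]
  rw [h1]
  ring

theorem euler (hP : Homog P) {x : Fin (N + 1) → ℂ} (hx : ∀ Q ∈ P, eval x Q = 0)
    {Q : MvPolynomial (Fin (N + 1)) ℂ} (hQ : Q ∈ P) : ∑ i, x i * eval x (pderiv i Q) = 0 := by
  have h1 : ∀ d, ∑ i, x i * eval x (pderiv i (homogeneousComponent d Q)) = 0 := by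
    intro d
    have h2 := congrArg (eval x) (homogeneousComponent_isHomogeneous d Q).sum_X_mul_pderiv
    rw [map_sum, map_nsmul, hx _ (hP Q hQ d), smul_zero] at h2
    simpa only [map_mul, eval_X] using h2
  rw [← sum_homogeneousComponent Q]
  simp only [map_sum, Finset.mul_sum]
  rw [Finset.sum_comm]
  exact Finset.sum_eq_zero fun d _ => h1 d

/-- The affine cone of `P` is a cone. -/
theorem cone_smul (hP : Homog P) {x : Fin (N + 1) → ℂ} (hx : ∀ Q ∈ P, eval x Q = 0) (c : ℂ) :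
    ∀ Q ∈ P, eval (c • x) Q = 0 := by
  intro Q hQ
  rw [← sum_homogeneousComponent Q, map_sum]
  refine Finset.sum_eq_zero fun d _ => ?_
  rw [hg_smul (homogeneousComponent_isHomogeneous d Q), hx _ (hP Q hQ d), mul_zero]

end Pool.Agent.H13.SM

end
end

section

/-!
# AD G Spec: specialisation

`exists_spec`: `R = Algebra.adjoin ℂ (s ∪ {h, h⁻¹})` is a finitely generated `ℂ`-algebra; a maximal ideal has the residue field `ℂ` (Zariski's lemma).

`transfer`: otherwise apply `exists_spec` to the coordinates of `ξ`, `v`, `w`, `u` and `h = ξ i₀ * aeval H`: at the closed point `x = φ ξ` is in `cone P`, `φ v`, `φ w` are in `conTan P x`, and `H` does not vanish there.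

`BSec.val`: the value of a section at a `K`-point, by the representation on `x i ≠ 0`; `val_indep`, `val_add_smul`, `val_scale` by `transfer` (for `val_scale` with the additional variable `c`).
`BSec.restrict`: restriction to a smaller cone.
-/

set_option autoImplicit false

open MvPolynomial
open Pool.Agent.H13.SM (conTan cone)
open Pool.Agent.H62.FC (Homog)

noncomputable section

namespace Pool.Agent.AD.G

variable {N : ℕ} {K : Type} [Field K] [Algebra ℂ K]

variable {P : Ideal (MvPolynomial (Fin (N + 1)) ℂ)}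

/-! ### The polynomial of a section -/

/-! ### Cones -/

theorem aeval_smul_of_homog {S : Type*} [CommRing S] [Algebra ℂ S] {d : ℕ} {Q : MvPolynomial (Fin (N + 1)) ℂ}
    (hQ : Q.IsHomogeneous d) (c : S) (x : Fin (N + 1) → S) : aeval (c • x) Q = c ^ d * aeval x Q := by
  rw [aeval_def, aeval_def, eval₂_eq', eval₂_eq', Finset.mul_sum]
  refine Finset.sum_congr rfl fun m hm => ?_
  have h1 : ∏ i, (c • x) i ^ m i = c ^ d * ∏ i, x i ^ m i := by
    simp only [Pi.smul_apply, smul_eq_mul, mul_pow, Finset.prod_mul_distrib]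
    rw [Finset.prod_pow_eq_pow_sum]
    have h2 := hQ (mem_support_iff.1 hm)
    rw [Finsupp.weight_apply, Finsupp.sum_fintype _ _ (by simp)] at h2
    simp only [Pi.one_apply, smul_eq_mul, mul_one] at h2
    rw [h2]
  rw [h1]
  ring

theorem tan_smulK (hP : Homog P) {S : Type*} [CommRing S] [Algebra ℂ S] {x v : Fin (N + 1) → S}
    (hv : ∀ Q ∈ P, ∑ i, v i * aeval x (pderiv i Q) = 0) (c : S) : ∀ Q ∈ P, ∑ i, (c • v) i * aeval (c • x) (pderiv i Q) = 0 := by
  intro Q hQ
  have h1 : ∀ d, ∑ i, (c • v) i * aeval (c • x) (pderiv i (homogeneousComponent d Q)) = 0 := by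
    intro d
    have h2 := hv _ (hP Q hQ d)
    have h3 : ∑ i, (c • v) i * aeval (c • x) (pderiv i (homogeneousComponent d Q)) =
        c ^ (d - 1) * c * ∑ i, v i * aeval x (pderiv i (homogeneousComponent d Q)) := by
      rw [Finset.mul_sum]
      refine Finset.sum_congr rfl fun i _ => ?_
      rw [aeval_smul_of_homog ((homogeneousComponent_isHomogeneous d Q).pderiv), Pi.smul_apply, smul_eq_mul]
      ring
    rw [h3, h2, mul_zero]
  rw [← sum_homogeneousComponent Q]
  simp only [map_sum, Finset.mul_sum]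
  rw [Finset.sum_comm]
  exact Finset.sum_eq_zero fun d _ => h1 d

theorem cone_smulC (hP : Homog P) {x : Fin (N + 1) → ℂ} (hx : x ∈ cone P) {c : ℂ} (hc : c ≠ 0) : c • x ∈ cone P :=
  ⟨smul_ne_zero hc hx.1, Pool.Agent.H13.SM.cone_smul hP hx.2 c⟩

theorem conTan_smulC (hP : Homog P) {x v : Fin (N + 1) → ℂ} (hv : v ∈ conTan P x) (c : ℂ) : c • v ∈ conTan P (c • x) := by
  intro Q hQ
  have h1 := tan_smulK (S := ℂ) hP (x := x) (v := v) (fun Q hQ => by
    have := hv Q hQ
    rw [← coe_aeval_eq_eval] at this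
    exact this) c Q hQ
  rw [← coe_aeval_eq_eval]
  exact h1

theorem self_mem_conTan (hP : Homog P) {x : Fin (N + 1) → ℂ} (hx : x ∈ cone P) : x ∈ conTan P x :=
  fun _ hQ => Pool.Agent.H13.SM.euler hP hx.2 hQ

/-! ### Values of sections -/

section aux

variable {f : (Fin (N + 1) → ℂ) → (Fin (N + 1) → ℂ) → (Fin (N + 1) → ℂ) → ℂ} {i j : Fin (N + 1)} {e e' : ℕ}
  {A B : MvPolynomial (Fin (N + 1) × Fin (N + 1)) (MvPolynomial (Fin (N + 1)) ℂ)} {ξ v w : Fin (N + 1) → K}

end aux

/-! ### Restriction -/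

end Pool.Agent.AD.G

end
end

section

/-!
Bridges between `gr`, `ip`, `dv`, `lp` and Mathlib's Laplacian, `gg` of H30M; holomorphic
vector fields; chain rules.
-/

namespace Pool.Agent.MQ

open MeasureTheory Complex Laplacian

open Pool.Agent.H30M (gg)

/-- The scalar product of two gradients. -/
theorem gg_eq_ip (u v : ℂ → ℝ) (z : ℂ) : gg u v z = ip (gr u z) (gr v z) := rfl

theorem gg_self (u : ℂ → ℝ) (z : ℂ) : gg u u z = ‖gr u z‖ ^ 2 := by
  rw [gg_eq_ip, ip_self]

/-- `lp` is Mathlib's Laplacian at points of class `C²`. -/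
theorem lp_eq_lap {u : ℂ → ℝ} {z : ℂ} (hu : ContDiffAt ℝ 2 u z) : lp u z = Δ u z := by
  rw [Pool.Agent.H30M.lap_eq hu]
  have hd : DifferentiableAt ℝ (gr u) z := differentiableAt_gr hu
  unfold lp dv
  have h1 : HasFDerivAt (fun w => fderiv ℝ u w 1) (Complex.reCLM.comp (fderiv ℝ (gr u) z)) z :=
    Complex.reCLM.hasFDerivAt.comp z hd.hasFDerivAt
  have h2 : HasFDerivAt (fun w => fderiv ℝ u w Complex.I)
      (Complex.imCLM.comp (fderiv ℝ (gr u) z)) z :=
    Complex.imCLM.hasFDerivAt.comp z hd.hasFDerivAt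
  rw [h1.fderiv, h2.fderiv]
  rfl

/-! ### holomorphic vector fields -/

/-- The gradient of the logarithm of the modulus. -/
theorem gr_log_norm {h : ℂ → ℂ} {z : ℂ} (hh : DifferentiableAt ℂ h z) (h0 : h z ≠ 0) :
    gr (fun w => Real.log ‖h w‖) z = (starRingEnd ℂ) (deriv h z / h z) := by
  apply Complex.ext
  · rw [gr_re, Pool.Agent.H30M.fderiv_log_norm hh h0, mul_one, Complex.conj_re]
  · rw [gr_im, Pool.Agent.H30M.fderiv_log_norm hh h0, Complex.mul_I_re, Complex.conj_im]

end Pool.Agent.MQ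

end

section

/-!
The Fubini-Study density: gradient and Laplacian of `log ‖F‖` for a holomorphic map `F` into a
complex inner product space.
-/

namespace Pool.Agent.MQ

open Complex Laplacian Topology Filter

open Pool.Agent.H30M (gg)

section

variable {V : Type*} [NormedAddCommGroup V] [InnerProductSpace ℂ V]

lemma hasFDerivAt_holoV {F : ℂ → V} {F' : V} {z : ℂ} (hF : HasDerivAt F F' z) :
    HasFDerivAt F ((ContinuousLinearMap.toSpanSingleton ℂ F').restrictScalars ℝ) z :=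
  hF.hasFDerivAt.restrictScalars ℝ

lemma hasFDerivAt_inner_holo {F G : ℂ → V} {F' G' : V} {z : ℂ} (hF : HasDerivAt F F' z)
    (hG : HasDerivAt G G' z) :
    HasFDerivAt (fun w => inner ℂ (F w) (G w)) ((fderivInnerCLM ℂ (F z, G z)).comp
      (((ContinuousLinearMap.toSpanSingleton ℂ F').restrictScalars ℝ).prod
        ((ContinuousLinearMap.toSpanSingleton ℂ G').restrictScalars ℝ))) z :=
  (hasFDerivAt_holoV hF).inner ℂ (hasFDerivAt_holoV hG)

lemma fderiv_inner_holo {F G : ℂ → V} {F' G' : V} {z : ℂ} (hF : HasDerivAt F F' z)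
    (hG : HasDerivAt G G' z) (v : ℂ) :
    fderiv ℝ (fun w => inner ℂ (F w) (G w)) z v =
      v * inner ℂ (F z) G' + (starRingEnd ℂ) v * inner ℂ F' (G z) := by
  rw [(hasFDerivAt_inner_holo hF hG).fderiv]
  simp [fderivInnerCLM_apply, inner_smul_left, inner_smul_right]

/-- The gradient of the square of the norm. -/
theorem gr_sqnorm {F : ℂ → V} {F' : V} {z : ℂ} (hF : HasDerivAt F F' z) :
    gr (fun w => ‖F w‖ ^ 2) z = 2 * (starRingEnd ℂ) (inner ℂ (F z) F') := by
  have e : (fun w => ‖F w‖ ^ 2) = fun w => (inner ℂ (F w) (F w)).re := by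
    funext w
    rw [← inner_self_eq_norm_sq (𝕜 := ℂ)]; rfl
  have h : HasFDerivAt (fun w => (inner ℂ (F w) (F w)).re)
      (Complex.reCLM.comp (fderiv ℝ (fun w => inner ℂ (F w) (F w)) z)) z :=
    Complex.reCLM.hasFDerivAt.comp z
      (hasFDerivAt_inner_holo hF hF).differentiableAt.hasFDerivAt
  rw [e, h.gr, grL_apply]
  simp only [ContinuousLinearMap.coe_comp, Function.comp_apply]
  rw [fderiv_inner_holo hF hF, fderiv_inner_holo hF hF]
  have hs : inner ℂ F' (F z) = (starRingEnd ℂ) (inner ℂ (F z) F') := (inner_conj_symm _ _).symm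
  rw [hs]
  generalize inner ℂ (F z) F' = c
  apply Complex.ext
  · simp; ring
  · simp; ring

theorem differentiableAt_sqnorm {F : ℂ → V} {F' : V} {z : ℂ} (hF : HasDerivAt F F' z) :
    DifferentiableAt ℝ (fun w => ‖F w‖ ^ 2) z := by
  have e : (fun w => ‖F w‖ ^ 2) = fun w => (inner ℂ (F w) (F w)).re := by
    funext w
    rw [← inner_self_eq_norm_sq (𝕜 := ℂ)]; rfl
  rw [e]
  exact (Complex.reCLM.hasFDerivAt.comp z
      (hasFDerivAt_inner_holo hF hF).differentiableAt.hasFDerivAt).differentiableAt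

theorem contDiffAt_sqnorm {F : ℂ → V} {z : ℂ} [CompleteSpace V] (hF : AnalyticAt ℂ F z)
    {n : WithTop ℕ∞} : ContDiffAt ℝ n (fun w => ‖F w‖ ^ 2) z :=
  ((hF.contDiffAt (n := n)).restrict_scalars ℝ).norm_sq ℂ

theorem contDiffAt_log_norm {F : ℂ → V} {z : ℂ} [CompleteSpace V] (hF : AnalyticAt ℂ F z)
    (h0 : F z ≠ 0) {n : WithTop ℕ∞} : ContDiffAt ℝ n (fun w => Real.log ‖F w‖) z := by
  have h1 : ContDiffAt ℝ n (fun w => Real.log (‖F w‖ ^ 2) / 2) z :=
    ((contDiffAt_sqnorm hF).log (by simpa using h0)).div_const 2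
  refine h1.congr_of_eventuallyEq ?_
  filter_upwards with w
  rw [Real.log_pow]; push_cast; ring

/-- The Laplacian of the square of the norm. -/
theorem lp_sqnorm {F : ℂ → V} {z : ℂ} [CompleteSpace V] (hF : AnalyticAt ℂ F z) :
    lp (fun w => ‖F w‖ ^ 2) z = 4 * ‖deriv F z‖ ^ 2 := by
  have hd : AnalyticAt ℂ (deriv F) z := hF.deriv
  have h1 : HasDerivAt F (deriv F z) z := hF.differentiableAt.hasDerivAt
  have h2 : HasDerivAt (deriv F) (deriv (deriv F) z) z := hd.differentiableAt.hasDerivAt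
  have e : gr (fun w => ‖F w‖ ^ 2) =ᶠ[𝓝 z]
      fun w => 2 * (starRingEnd ℂ) (inner ℂ (F w) (deriv F w)) := by
    filter_upwards [hF.eventually_analyticAt] with w hw
    exact gr_sqnorm hw.differentiableAt.hasDerivAt
  have h3 := (hasFDerivAt_inner_holo h1 h2).differentiableAt
  have h4 : HasFDerivAt (fun w => 2 * (starRingEnd ℂ) (inner ℂ (F w) (deriv F w)))
      ((2 : ℂ) • ((Complex.conjCLE : ℂ →L[ℝ] ℂ).comp
        (fderiv ℝ (fun w => inner ℂ (F w) (deriv F w)) z))) z := by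
    have h5 : HasFDerivAt (fun w => (starRingEnd ℂ) (inner ℂ (F w) (deriv F w)))
        ((Complex.conjCLE : ℂ →L[ℝ] ℂ).comp
        (fderiv ℝ (fun w => inner ℂ (F w) (deriv F w)) z)) z :=
      (Complex.conjCLE : ℂ →L[ℝ] ℂ).hasFDerivAt.comp z h3.hasFDerivAt
    exact h5.const_mul 2
  unfold lp
  rw [dv_congr e]
  unfold dv
  rw [h4.fderiv]
  simp only [FunLike.coe_smul, Pi.smul_apply, ContinuousLinearMap.coe_comp,
    Function.comp_apply, ContinuousLinearEquiv.coe_coe, Complex.conjCLE_apply]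
  rw [fderiv_inner_holo h1 h2, fderiv_inner_holo h1 h2]
  have hn : inner ℂ (deriv F z) (deriv F z) = ((‖deriv F z‖ ^ 2 : ℝ) : ℂ) := by
    rw [inner_self_eq_norm_sq_to_K]; simp
  rw [hn]
  generalize ‖deriv F z‖ ^ 2 = t
  generalize inner ℂ (F z) (deriv (deriv F) z) = c
  simp only [smul_eq_mul, Complex.mul_re, Complex.mul_im, Complex.conj_re, Complex.conj_im,
    Complex.add_re, Complex.add_im, Complex.ofReal_re, Complex.ofReal_im, Complex.one_re,
    Complex.one_im, Complex.I_re, Complex.I_im, map_one]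
  norm_num
  ring

/-- The gradient of `log ‖F‖`. -/
theorem gr_log_normV {F : ℂ → V} {F' : V} {z : ℂ} (hF : HasDerivAt F F' z) (h0 : F z ≠ 0) :
    gr (fun w => Real.log ‖F w‖) z =
      (((‖F z‖ ^ 2)⁻¹ : ℝ) : ℂ) * (starRingEnd ℂ) (inner ℂ (F z) F') := by
  have hp : 0 < ‖F z‖ ^ 2 := by have := norm_pos_iff.2 h0; positivity
  have hK : HasDerivAt (fun t : ℝ => Real.log t / 2) ((‖F z‖ ^ 2)⁻¹ / 2) (‖F z‖ ^ 2) :=
    (Real.hasDerivAt_log hp.ne').div_const 2
  have hd : DifferentiableAt ℝ (fun w => ‖F w‖ ^ 2) z := differentiableAt_sqnorm hF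
  have h := gr_comp hK hd
  have e : (fun w => Real.log ‖F w‖) = fun w => Real.log (‖F w‖ ^ 2) / 2 := by
    funext w
    rw [Real.log_pow]; push_cast; ring
  rw [e, h, gr_sqnorm hF]
  push_cast
  ring

/-- The Fubini-Study density of `F` with derivative `F'`. -/
noncomputable def fsd (x v : V) : ℝ :=
  2 * (‖x‖ ^ 2 * ‖v‖ ^ 2 - ‖inner ℂ x v‖ ^ 2) / ‖x‖ ^ 4

theorem fsd_nonneg (x v : V) : 0 ≤ fsd x v := by
  unfold fsd
  apply div_nonneg _ (by positivity)
  have h := norm_inner_le_norm (𝕜 := ℂ) x v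
  have h2 : ‖inner ℂ x v‖ ^ 2 ≤ (‖x‖ * ‖v‖) ^ 2 := pow_le_pow_left₀ (norm_nonneg _) h 2
  nlinarith

/-- **The Laplacian of `log ‖F‖`.** -/
theorem lap_log_normV {F : ℂ → V} {z : ℂ} [CompleteSpace V] (hF : AnalyticAt ℂ F z)
    (h0 : F z ≠ 0) : Δ (fun w => Real.log ‖F w‖) z = fsd (F z) (deriv F z) := by
  have hn : 0 < ‖F z‖ := norm_pos_iff.2 h0
  have hp : 0 < ‖F z‖ ^ 2 := by positivity
  have hF' : HasDerivAt F (deriv F z) z := hF.differentiableAt.hasDerivAt
  have e : (fun w => Real.log ‖F w‖) = fun w => (fun t => Real.log t / 2) (‖F w‖ ^ 2) := by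
    funext w
    simp only
    rw [Real.log_pow]; push_cast; ring
  have hu : ContDiffAt ℝ 2 (fun w => ‖F w‖ ^ 2) z := contDiffAt_sqnorm hF
  have hφ : ContDiffAt ℝ 2 (fun t : ℝ => Real.log t / 2) (‖F z‖ ^ 2) :=
    (Real.contDiffAt_log.2 hp.ne').div_const 2
  have d1 : deriv (fun t : ℝ => Real.log t / 2) = fun t => t⁻¹ / 2 := by
    funext t
    rw [deriv_div_const, Real.deriv_log]
  have d2 : deriv (deriv (fun t : ℝ => Real.log t / 2)) (‖F z‖ ^ 2) =
      - ((‖F z‖ ^ 2) ^ 2)⁻¹ / 2 := by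
    rw [d1, deriv_div_const, deriv_inv]
  rw [e, Pool.Agent.H30M.lap_comp hφ hu, d2, d1, ← lp_eq_lap hu, lp_sqnorm hF, gg_self,
    gr_sqnorm hF', norm_mul, RCLike.norm_conj]
  unfold fsd
  simp only [Complex.norm_ofNat]
  field_simp
  ring

/-- The density does not change under `F ↦ g F`. -/
theorem fsd_smul (x v : V) (a c : ℂ) (ha : a ≠ 0) : fsd (a • x) (a • v + c • x) = fsd x v := by
  have ha' : 0 < ‖a‖ := norm_pos_iff.2 ha
  by_cases hx : x = 0
  · simp [fsd, hx]
  have hx' : 0 < ‖x‖ := norm_pos_iff.2 hx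
  -- the Gram determinant
  have key : ‖a • x‖ ^ 2 * ‖a • v + c • x‖ ^ 2 - ‖inner ℂ (a • x) (a • v + c • x)‖ ^ 2 =
      ‖a‖ ^ 4 * (‖x‖ ^ 2 * ‖v‖ ^ 2 - ‖inner ℂ x v‖ ^ 2) := by
    have e1 : ‖a • v + c • x‖ ^ 2 = ‖a‖ ^ 2 * ‖v‖ ^ 2 + ‖c‖ ^ 2 * ‖x‖ ^ 2 +
        2 * ((starRingEnd ℂ) a * c * inner ℂ v x).re := by
      rw [norm_add_sq (𝕜 := ℂ), norm_smul, norm_smul, inner_smul_left, inner_smul_right]
      simp only [RCLike.re_to_complex]
      ring_nf
    have e2 : inner ℂ (a • x) (a • v + c • x) =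
        (starRingEnd ℂ) a * (a * inner ℂ x v + c * ((‖x‖ ^ 2 : ℝ) : ℂ)) := by
      rw [inner_add_right, inner_smul_left, inner_smul_left, inner_smul_right, inner_smul_right,
        inner_self_eq_norm_sq_to_K]
      simp only [Complex.coe_algebraMap, Complex.ofReal_pow]
      ring
    rw [e1, e2, norm_smul, norm_mul, RCLike.norm_conj, mul_pow, mul_pow]
    have e3 : inner ℂ v x = (starRingEnd ℂ) (inner ℂ x v) := (inner_conj_symm _ _).symm
    rw [e3]
    generalize inner ℂ x v = y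
    generalize ‖x‖ ^ 2 = s
    generalize ‖v‖ ^ 2 = t
    have n1 : ‖a * y + c * (s : ℂ)‖ ^ 2 = Complex.normSq (a * y + c * (s : ℂ)) :=
      Complex.sq_norm _
    rw [n1]
    have n2 : ‖a‖ ^ 4 = (‖a‖ ^ 2) ^ 2 := by ring
    rw [n2, Complex.sq_norm, Complex.sq_norm, Complex.sq_norm]
    simp only [Complex.normSq_apply, Complex.add_re, Complex.add_im, Complex.mul_re,
      Complex.mul_im, Complex.conj_re, Complex.conj_im, Complex.ofReal_re, Complex.ofReal_im]
    ring
  unfold fsd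
  rw [key, norm_smul]
  field_simp

end

end Pool.Agent.MQ

end
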