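import Pool.Agent.H18.GGT.M07
import Pool.Agent.H18.GGT.M14
import Pool.Agent.H18.GGT.M15
import Pool.Agent.H18.GGT.M16

/-! The parts of this file: H13.OT.Wrap_1, GA.DetA, GG.ArcOde, GG.Bd, GG.Chart, GG.FamD, GL.Defs_1, GBL.Defs_1. -/

section

/-!
# Entire curves of order two in projective spaces
-/

set_option autoImplicit false

namespace Pool.Agent.H13.OT

open Filter Topology Metric
open Pool.Agent.H17BP (Pr HolP)
open Pool.Agent.H17 (PN HolomorphicInto EntFun exists_global_lift ZariskiClosedIn)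
open Pool.Agent.H36.BP (OrdTwo)

variable {N : ℕ}

theorem mk_eq_of_pr {x y : Fin (N + 1) → ℂ} (h : Pr x y) (hx : x ≠ 0) (hy : y ≠ 0) :
    Projectivization.mk ℂ x hx = Projectivization.mk ℂ y hy := by
  obtain ⟨c, hc, h⟩ := h
  rw [Projectivization.mk_eq_mk_iff']
  exact ⟨c, h.symm⟩

theorem pr_of_mk_eq {x y : Fin (N + 1) → ℂ} (hx : x ≠ 0) (hy : y ≠ 0)
    (h : Projectivization.mk ℂ x hx = Projectivization.mk ℂ y hy) : Pr x y := by
  rw [Projectivization.mk_eq_mk_iff'] at h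
  obtain ⟨a, ha⟩ := h
  refine ⟨a, ?_, ha.symm⟩
  rintro rfl
  rw [zero_smul] at ha
  exact hx ha.symm

/-- the map into the projective space of a map into the cone is holomorphic -/
theorem holomorphicInto_mk {f : ℂ → Fin (N + 1) → ℂ} (hf0 : ∀ z, f z ≠ 0) (hf : ∀ z, HolP f z) :
    HolomorphicInto (fun z => Projectivization.mk ℂ (f z) (hf0 z)) Set.univ := by
  intro z₀ _
  obtain ⟨G, hG, hG0, he⟩ := hf z₀
  refine ⟨G, hG, ?_⟩
  filter_upwards [he, hG.continuousAt.eventually_ne hG0] with z h1 h2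
  exact ⟨h2, mk_eq_of_pr h1 (hf0 z) h2⟩

/-- the definition with bounded lifts on discs implies the definition with the characteristic function -/
theorem OrdTwo.orderTwo {f : ℂ → Fin (N + 1) → ℂ} (hf0 : ∀ z, f z ≠ 0) (hf : ∀ z, HolP f z) (h : OrdTwo f) :
    OrderTwo (fun z => Projectivization.mk ℂ (f z) (hf0 z)) := by
  obtain ⟨x, hx⟩ := exists_global_lift (holomorphicInto_mk hf0 hf)
  set F₀ : ℂ → Fin (N + 1) → ℂ := fun z j => (x j : ℂ → ℂ) z with hF₀
  have hdiff : Differentiable ℂ F₀ := by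
    rw [differentiable_pi]
    intro j
    exact (x j).2
  have hlift : ∀ z, F₀ z ≠ 0 ∧ Pr (f z) (F₀ z) := by
    intro z
    obtain ⟨h1, h2⟩ := hx z
    exact ⟨h1, pr_of_mk_eq (hf0 z) h1 h2⟩
  obtain ⟨C0, hC0⟩ := h
  refine ⟨F₀, |Real.log ‖F₀ 0‖| + 3 * |C0|, hdiff, hx, fun r hr => ?_⟩
  obtain ⟨F, hF, hF1, hF0, hFf⟩ := hC0 (r + 1) (by linarith)
  have hF0' : F 0 ≠ 0 := by
    intro h0
    rw [h0, norm_zero] at hF0
    exact absurd hF0 (not_le.2 (Real.exp_pos _))
  have h1 := average_le hr (lt_add_one r) hF hF1 hF0' hFf hdiff.differentiableOn fun z _ => hlift z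
  have h2 : -(C0 * (1 + (r + 1) ^ 2)) ≤ Real.log ‖F 0‖ := by
    rw [Real.le_log_iff_exp_le (norm_pos_iff.2 hF0')]
    exact hF0
  have h3 : C0 * (1 + (r + 1) ^ 2) ≤ 3 * |C0| * (1 + r ^ 2) := by
    have h4 : C0 ≤ |C0| := le_abs_self _
    have h5 : 0 ≤ |C0| := abs_nonneg _
    have h6 : 1 + (r + 1) ^ 2 ≤ 3 * (1 + r ^ 2) := by nlinarith [sq_nonneg (r - 1)]
    calc C0 * (1 + (r + 1) ^ 2) ≤ |C0| * (1 + (r + 1) ^ 2) := mul_le_mul_of_nonneg_right h4 (by positivity)
      _ ≤ |C0| * (3 * (1 + r ^ 2)) := mul_le_mul_of_nonneg_left h6 h5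
      _ = _ := by ring
  have h7 : Real.log ‖F₀ 0‖ ≤ |Real.log ‖F₀ 0‖| * (1 + r ^ 2) := by
    have h8 : Real.log ‖F₀ 0‖ ≤ |Real.log ‖F₀ 0‖| := le_abs_self _
    have h9 : 0 ≤ |Real.log ‖F₀ 0‖| := abs_nonneg _
    nlinarith [sq_nonneg r]
  have h10 : (|Real.log ‖F₀ 0‖| + 3 * |C0|) * (1 + r ^ 2) = |Real.log ‖F₀ 0‖| * (1 + r ^ 2) + 3 * |C0| * (1 + r ^ 2) := by
    ring
  rw [h10]
  linarith

end Pool.Agent.H13.OT

end

section

/-!
# GA DetA: a variation field with a zero vanishes, from the linear equation in a chart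
-/

set_option autoImplicit false

open MvPolynomial Topology Filter Metric
open Pool.Agent.H13.SM (conTan cone)
open Pool.Agent.GG (SymSec Ph pt Frame gfam)

noncomputable section

namespace Pool.Agent.GA

variable {N : ℕ} {P : Ideal (MvPolynomial (Fin (N + 1)) ℂ)} {J : ℕ} {m : Fin J → ℕ} {θ : ∀ k, SymSec P (m k)}
  {F : ℂ → Fin (N + 1) → ℂ} {U : Set ℂ} {Z : ℂ → Fin (N + 1) × Fin (N + 1) → ℂ}

/-- a solution of a linear equation with a zero vanishes near the zero -/
theorem DetA.lin_zero {E : Type*} [NormedAddCommGroup E] [NormedSpace ℂ E] [CompleteSpace E] {z : ℂ} {B : ℂ → E →L[ℂ] E} {V : ℂ → E} (hB : AnalyticAt ℂ B z)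
    (hV : AnalyticAt ℂ V z) (h : ∀ᶠ w in 𝓝 z, deriv V w = B w (V w)) (h0 : V z = 0) : ∀ᶠ w in 𝓝 z, V w = 0 := by
  by_contra hne
  obtain ⟨n, g, hg, hg0, he⟩ := (hV.exists_eventuallyEq_pow_smul_nonzero_iff).2 hne
  have hn : n ≠ 0 := by
    intro hn
    have := he.self_of_nhds
    rw [hn, h0] at this
    simp at this
    exact hg0 this.symm
  obtain ⟨k, rfl⟩ := Nat.exists_eq_succ_of_ne_zero hn
  have hB' : Tendsto (fun w => (w - z) • (B w (g w) - deriv g w)) (𝓝 z) (𝓝 0) := by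
    have h1 : ContinuousAt (fun w => (w - z) • (B w (g w) - deriv g w)) z := by
      have h2 : ContinuousAt (fun w => B w (g w)) z := hB.continuousAt.clm_apply hg.continuousAt
      exact (continuousAt_id.sub continuousAt_const).smul (h2.sub hg.deriv.continuousAt)
    have h3 := h1.tendsto
    simpa using h3
  have hl : Tendsto (fun w => ((k : ℂ) + 1) • g w) (𝓝 z) (𝓝 (((k : ℂ) + 1) • g z)) := hg.continuousAt.tendsto.const_smul _
  have heq : ∀ᶠ w in 𝓝[≠] z, ((k : ℂ) + 1) • g w = (w - z) • (B w (g w) - deriv g w) := by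
    have hga := hg.eventually_analyticAt
    filter_upwards [(eventually_eventually_nhds.2 he).filter_mono nhdsWithin_le_nhds, h.filter_mono nhdsWithin_le_nhds,
      hga.filter_mono nhdsWithin_le_nhds, self_mem_nhdsWithin] with w hw1 hw2 hw3 hw4
    have hwz : w - z ≠ 0 := sub_ne_zero.2 hw4
    have e1 : V w = (w - z) ^ (k + 1) • g w := hw1.self_of_nhds
    have d1 : HasDerivAt (fun w => (w - z) ^ (k + 1) • g w) ((w - z) ^ (k + 1) • deriv g w + ((k + 1 : ℕ) * (w - z) ^ k * 1) • g w) w := by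
      have h3 : HasDerivAt (fun w => (w - z) ^ (k + 1)) (((k + 1 : ℕ) : ℂ) * (w - z) ^ k * 1) w := by
        exact ((hasDerivAt_id w).sub_const z).fun_pow (k + 1)
      exact h3.smul hw3.differentiableAt.hasDerivAt
    have e2 : deriv V w = (w - z) ^ (k + 1) • deriv g w + ((k + 1 : ℕ) * (w - z) ^ k * 1) • g w := by
      rw [EventuallyEq.deriv_eq hw1, d1.deriv]
    rw [e2, e1, map_smul] at hw2
    have e3 : (w - z) ^ k • (((k : ℂ) + 1) • g w) = (w - z) ^ k • ((w - z) • (B w (g w) - deriv g w)) := by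
      rw [smul_smul, smul_smul, smul_sub, ← pow_succ, ← hw2]
      push_cast
      rw [mul_one, mul_comm ((k : ℂ) + 1)]
      abel
    exact smul_right_injective E (pow_ne_zero k hwz) e3
  have h5 := tendsto_nhds_unique ((hl.mono_left nhdsWithin_le_nhds).congr' heq) (hB'.mono_left nhdsWithin_le_nhds)
  have h6 : ((k : ℂ) + 1) ≠ 0 := by exact_mod_cast Nat.succ_ne_zero k
  rcases smul_eq_zero.1 h5 with h7 | h7
  · exact h6 h7
  · exact hg0 h7

theorem isVar_zero_of_lin (f : Frame θ) (hF : IsCurve P F U) (hZ : ∀ w ∈ U, IsVar f F Z w) {w₀ : ℂ} (hw : w₀ ∈ U)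
    (h0 : Z w₀ = 0) {b : Fin (N + 1)} (hb : F w₀ b ≠ 0)
    (hL : ∃ ρ > 0, ball w₀ ρ ⊆ U ∧ (∀ w ∈ ball w₀ ρ, F w b ≠ 0) ∧ ∃ B : ℂ → (Fin (N + 1) → ℂ) →L[ℂ] (Fin (N + 1) → ℂ), (∀ w ∈ ball w₀ ρ, AnalyticAt ℂ B w) ∧
      ∀ z₂ ∈ ball w₀ ρ, ∀ V : ℂ → Fin (N + 1) → ℂ, AnalyticAt ℂ V z₂ → (∀ᶠ w in 𝓝 z₂, ∀ l, lhs (gfam f b l) (xb F b) V w = 0) →
        ∀ᶠ w in 𝓝 z₂, deriv V w = B w (V w)) : ∀ w ∈ U, Z w = 0 := by
  obtain ⟨ρ, hρ, hρU, hρb, B, hB, hode⟩ := hL
  have hwm : w₀ ∈ ball w₀ ρ := mem_ball_self hρ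
  have hFa : AnalyticAt ℂ F w₀ := hF.an w₀ hw
  have hFb : AnalyticAt ℂ (fun w => F w b) w₀ := analyticAt_pi_iff.1 hFa b
  have hZa : AnalyticAt ℂ Z w₀ := (hZ w₀ hw).1
  have hV : AnalyticAt ℂ (Vb F Z b) w₀ := by
    rw [analyticAt_pi_iff]
    intro j
    exact (analyticAt_pi_iff.1 hZa (b, j)).div (hFb.pow 2) (pow_ne_zero 2 hb)
  have hne : ∀ᶠ w in 𝓝 w₀, F w b ≠ 0 := hFb.continuousAt.eventually_ne hb
  have h1 : ∀ᶠ w in 𝓝 w₀, ∀ l, lhs (gfam f b l) (xb F b) (Vb F Z b) w = 0 := by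
    filter_upwards [(hZ w₀ hw).2, hne] with w hw1 hw2 using (hw1 b hw2).2
  have h2 := hode w₀ hwm (Vb F Z b) hV h1
  have h3 : Vb F Z b w₀ = 0 := by
    funext j
    show Z w₀ (b, j) / F w₀ b ^ 2 = 0
    rw [h0]
    simp
  have h4 := DetA.lin_zero (hB w₀ hwm) hV h2 h3
  have h5 : Z =ᶠ[𝓝 w₀] 0 := by
    filter_upwards [(hZ w₀ hw).2, hne, h4] with w hw1 hw2 hw3
    funext p
    obtain ⟨i, j⟩ := p
    rw [(hw1 b hw2).1 i j, hw3]
    simp
  have hZan : AnalyticOnNhd ℂ Z U := fun w hw' => (hZ w hw').1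
  exact fun w hw' => hZan.eqOn_zero_of_preconnected_of_eventuallyEq_zero hF.conn hw h5 hw'

end Pool.Agent.GA

end
end

section

/-!
# GG ArcOde: arcs solve the differential equation, and satisfy the algebraic criterion

PROOF.  `y s = (x s, x' s)`.  `vdet (y s) ≠ 0` near `t`.  The derivative of `G (J l) (y s) = const` is `∑_b ∂G/∂x_b v_b + ∑_b ∂G/∂v_b w_b = 0`, `w = x''`,
i.e. `(vmat (y s)) w = rhs (y s)`; multiply by the adjugate.  For a polynomial `g` let `Dt g = ∑ fld_s ∂g/∂s`: `d/ds g (y s) = (Dt g)(y s) / vdet (y s)`.  So if `g (y s)` is constant near `t` then `(Dt g)(y s) = 0` near `t`, hence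
all `Dt^(k+1) (G l) (y s) = 0` near `t`.
-/

set_option autoImplicit false

open MvPolynomial Topology Filter Metric

namespace Pool.Agent.GG

/-- the chain rule for polynomials -/
private theorem hasDerivAt_evalG {σ : Type*} [Fintype σ] [DecidableEq σ] {y : ℂ → σ → ℂ} {y' : σ → ℂ} {s : ℂ} (hy : HasDerivAt y y' s)
    (g : MvPolynomial σ ℂ) : HasDerivAt (fun s => eval (y s) g) (∑ i, eval (y s) (pderiv i g) * y' i) s := by
  induction g using MvPolynomial.induction_on with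
  | C a =>
    simp only [eval_C, pderiv_C, map_zero, zero_mul, Finset.sum_const_zero]
    exact hasDerivAt_const s a
  | add p q hp hq =>
    simp only [map_add, add_mul, Finset.sum_add_distrib]
    exact hp.add hq
  | mul_X p i hp =>
    have h1 : HasDerivAt (fun s => y s i) (y' i) s := hasDerivAt_pi.1 hy i
    have h2 := hp.mul h1
    have h3 : (∑ j, eval (y s) (pderiv j (p * X i)) * y' j) = (∑ j, eval (y s) (pderiv j p) * y' j) * y s i + eval (y s) p * y' i := by
      have h4 : ∀ j, eval (y s) (pderiv j (p * X i)) * y' j =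
          eval (y s) (pderiv j p) * y' j * y s i + (if j = i then eval (y s) p * y' j else 0) := by
        intro j
        rw [Derivation.leibniz, pderiv_X]
        by_cases hj : j = i
        · subst hj
          simp
          ring
        · rw [Pi.single_eq_of_ne (Ne.symm hj)]
          simp [hj]
          ring
      rw [Finset.sum_congr rfl fun j _ => h4 j, Finset.sum_add_distrib, ← Finset.sum_mul]
      simp
    rw [h3]
    have h5 : (fun s => eval (y s) (p * X i)) = (fun s => eval (y s) p) * fun s => y s i := by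
      funext s
      simp
    rw [h5]
    exact h2

variable {N : ℕ} {ι : Type} {G : ι → MvPolynomial (Ph N) ℂ} {J : Fin (N + 1) → ι}

/-- the derivative of a polynomial along a solution -/
theorem hasDerivAt_eval {y : ℂ → Ph N → ℂ} {s : ℂ} (hy : HasDerivAt y (W G J (y s)) s) (g : MvPolynomial (Ph N) ℂ) :
    HasDerivAt (fun s => eval (y s) g) (eval (y s) (Dt G J g) / eval (y s) (vdet G J)) s := by
  induction g using MvPolynomial.induction_on with
  | C a =>
    have h1 : Dt G J (C a) = 0 := by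
      rw [← algebraMap_eq]
      exact Derivation.map_algebraMap _ _
    simp only [eval_C, h1, map_zero, zero_div]
    exact hasDerivAt_const s a
  | add p q hp hq =>
    simp only [map_add, add_div]
    exact hp.add hq
  | mul_X p i hp =>
    have h1 : HasDerivAt (fun s => y s i) (W G J (y s) i) s := hasDerivAt_pi.1 hy i
    have h2 := hp.mul h1
    have h3 : Dt G J (X i) = fld G J i := mkDerivation_X _ _ _
    have h4 : eval (y s) (Dt G J (p * X i)) / eval (y s) (vdet G J) =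
        eval (y s) (Dt G J p) / eval (y s) (vdet G J) * y s i + eval (y s) p * W G J (y s) i := by
      rw [Derivation.leibniz, h3, smul_eq_mul, smul_eq_mul, map_add, map_mul, map_mul, eval_X, W]
      ring
    rw [h4]
    have h5 : (fun s => eval (y s) (p * X i)) = (fun s => eval (y s) p) * fun s => y s i := by
      funext s
      simp
    rw [h5]
    exact h2

/-- the path in the phase space -/
private theorem path_hasDerivAt {x : ℂ → Fin (N + 1) → ℂ} {s : ℂ} (h : AnalyticAt ℂ x s) :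
    HasDerivAt (fun s => pt (x s) (deriv x s)) (pt (deriv x s) (deriv (deriv x) s)) s := by
  rw [hasDerivAt_pi]
  rintro (b | b)
  · exact hasDerivAt_pi.1 h.differentiableAt.hasDerivAt b
  · exact hasDerivAt_pi.1 h.deriv.differentiableAt.hasDerivAt b

private theorem path_cont {x : ℂ → Fin (N + 1) → ℂ} {t : ℂ} (h : AnalyticAt ℂ x t)
    (hΔ : eval (pt (x t) (deriv x t)) (vdet G J) ≠ 0) : ∀ᶠ s in 𝓝 t, eval (pt (x s) (deriv x s)) (vdet G J) ≠ 0 := by
  have h1 := (hasDerivAt_evalG (path_hasDerivAt h) (vdet G J)).continuousAt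
  exact h1.eventually_ne hΔ

theorem arc_ode {x : ℂ → Fin (N + 1) → ℂ} {t : ℂ} (h : ArcV G x t) (hΔ : eval (pt (x t) (deriv x t)) (vdet G J) ≠ 0) :
    ∀ᶠ s in 𝓝 t, HasDerivAt (fun s => pt (x s) (deriv x s)) (W G J (pt (x s) (deriv x s))) s := by
  obtain ⟨hx, hc⟩ := h
  have h1 : ∀ᶠ s in 𝓝 t, ∀ l, ∀ᶠ r in 𝓝 s, eval (pt (x r) (deriv x r)) (G (J l)) = eval (pt (x t) (deriv x t)) (G (J l)) := by
    rw [eventually_all]
    exact fun l => (hc (J l)).eventually_nhds
  filter_upwards [hx.eventually_analyticAt, h1, path_cont hx hΔ] with s hs hcs hΔs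
  have hy := path_hasDerivAt hs
  refine hy.congr_deriv ?_
  obtain ⟨A, hA⟩ : ∃ A : Matrix (Fin (N + 1)) (Fin (N + 1)) ℂ, A = (vmat G J).map (eval (pt (x s) (deriv x s))) := ⟨_, rfl⟩
  have h2 : A.mulVec (deriv (deriv x) s) = (eval (pt (x s) (deriv x s))) ∘ rhs G J := by
    funext l
    have h3 := hasDerivAt_evalG hy (G (J l))
    have h4 := h3.unique ((hasDerivAt_const s (eval (pt (x t) (deriv x t)) (G (J l)))).congr_of_eventuallyEq (hcs l))
    rw [Fintype.sum_sum_type] at h4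
    have h5 : A.mulVec (deriv (deriv x) s) l =
        ∑ b, eval (pt (x s) (deriv x s)) (pderiv (Sum.inr b) (G (J l))) * deriv (deriv x) s b := by
      rw [hA]
      rfl
    rw [h5, Function.comp_apply, rhs, map_neg, map_sum]
    have h6 : (∑ b, eval (pt (x s) (deriv x s)) (pderiv (Sum.inl b) (G (J l)) * X (Sum.inr b))) =
        ∑ b, eval (pt (x s) (deriv x s)) (pderiv (Sum.inl b) (G (J l))) * deriv x s b := by
      refine Finset.sum_congr rfl fun b _ => ?_
      rw [map_mul, eval_X]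
      rfl
    rw [h6]
    exact eq_neg_of_add_eq_zero_right h4
  have hdet : A.det = eval (pt (x s) (deriv x s)) (vdet G J) := by
    rw [hA, vdet]
    exact ((eval (pt (x s) (deriv x s))).map_det (vmat G J)).symm
  have h3 : A.adjugate.mulVec ((eval (pt (x s) (deriv x s))) ∘ rhs G J) = A.det • deriv (deriv x) s := by
    rw [← h2, Matrix.mulVec_mulVec, Matrix.adjugate_mul, Matrix.smul_mulVec, Matrix.one_mulVec]
  funext i
  rcases i with b | b
  · show deriv x s b = W G J (pt (x s) (deriv x s)) (Sum.inl b)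
    rw [W, fld, Sum.elim_inl, map_mul, eval_X, mul_div_cancel_left₀ _ hΔs]
    rfl
  · show deriv (deriv x) s b = W G J (pt (x s) (deriv x s)) (Sum.inr b)
    rw [W, fld, Sum.elim_inr, RingHom.map_mulVec]
    have h4 : (vmat G J).adjugate.map (eval (pt (x s) (deriv x s))) = A.adjugate := by
      rw [hA]
      exact (eval (pt (x s) (deriv x s))).map_adjugate (vmat G J)
    rw [h4, h3, Pi.smul_apply, hdet, smul_eq_mul, mul_div_cancel_left₀ _ hΔs]

theorem crit_of_arc {x : ℂ → Fin (N + 1) → ℂ} {t : ℂ} (h : ArcV G x t) (hΔ : eval (pt (x t) (deriv x t)) (vdet G J) ≠ 0) :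
    Crit G J (pt (x t) (deriv x t)) := by
  refine ⟨hΔ, fun l k => ?_⟩
  have h1 := arc_ode h hΔ
  have h2 := path_cont h.1 hΔ
  have key : ∀ (g : MvPolynomial (Ph N) ℂ) (c : ℂ), (∀ᶠ s in 𝓝 t, eval (pt (x s) (deriv x s)) g = c) →
      ∀ᶠ s in 𝓝 t, eval (pt (x s) (deriv x s)) (Dt G J g) = 0 := by
    intro g c hg
    filter_upwards [h1, h2, hg.eventually_nhds] with s hs1 hs2 hs3
    have h3 := hasDerivAt_eval hs1 g
    have h4 := h3.unique ((hasDerivAt_const s c).congr_of_eventuallyEq hs3)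
    exact (div_eq_zero_iff.1 h4).resolve_right hs2
  have h3 : ∀ᶠ s in 𝓝 t, eval (pt (x s) (deriv x s)) ((⇑(Dt G J))^[k + 1] (G l)) = 0 := by
    induction k with
    | zero =>
      rw [zero_add, Function.iterate_one]
      exact key _ _ (h.2 l)
    | succ k ih =>
      rw [Function.iterate_succ_apply']
      exact key _ _ ih
  exact h3.self_of_nhds

end Pool.Agent.GG

end

section

/-!
# GG Bd: the bound for a section of `K^M (-1)`

PROOF.  Both sides are invariant under `(x, v) ↦ (c x, c v)` (`scale`), `v_j ↦ v_j + a_j x` (`add_smul`; `wl` is invariant), and homogeneous of degree `M` in each `v_j` (`det` for diagonal matrices).  Take `a` with `|x_a|` maximal, `x_a = 1` (so `‖x‖ = 1`),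
`v_j a = 0`, then `wl x (v j) ≥ ‖v j‖`; if some `v j = 0` the left side is `0`; otherwise `‖v j‖ = 1`, and the left side is `|A (x, v)| ≤ C` (`regular` at `a`, a polynomial on a bounded set), the right side is `≥ C`.
-/

set_option autoImplicit false

open MvPolynomial Topology Filter Metric
open Pool.Agent.H13.SM (conTan cone)

namespace Pool.Agent.GG

variable {N : ℕ} {P : Ideal (MvPolynomial (Fin (N + 1)) ℂ)}

theorem wl_smul {x v : Fin (N + 1) → ℂ} {c : ℂ} (hc : c ≠ 0) : wl (c • x) (c • v) = wl x v := by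
  have h1 : (fun p : Fin (N + 1) × Fin (N + 1) => (c • x) p.1 * (c • v) p.2 - (c • x) p.2 * (c • v) p.1) =
      (c ^ 2) • fun p : Fin (N + 1) × Fin (N + 1) => x p.1 * v p.2 - x p.2 * v p.1 := by
    funext p
    simp only [Pi.smul_apply, smul_eq_mul]
    ring
  have h2 : ‖c‖ ^ 2 ≠ 0 := pow_ne_zero _ (norm_ne_zero_iff.2 hc)
  rw [wl, wl, h1, norm_smul, norm_smul, norm_pow, mul_pow, mul_div_mul_left _ _ h2]

theorem wl_add_smul (x v : Fin (N + 1) → ℂ) (a : ℂ) : wl x (v + a • x) = wl x v := by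
  have h1 : (fun p : Fin (N + 1) × Fin (N + 1) => x p.1 * (v + a • x) p.2 - x p.2 * (v + a • x) p.1) =
      fun p : Fin (N + 1) × Fin (N + 1) => x p.1 * v p.2 - x p.2 * v p.1 := by
    funext p
    simp only [Pi.add_apply, Pi.smul_apply, smul_eq_mul]
    ring
  rw [wl, wl, h1]

theorem wl_smul_right (x v : Fin (N + 1) → ℂ) (c : ℂ) : wl x (c • v) = ‖c‖ * wl x v := by
  have h1 : (fun p : Fin (N + 1) × Fin (N + 1) => x p.1 * (c • v) p.2 - x p.2 * (c • v) p.1) =
      c • fun p : Fin (N + 1) × Fin (N + 1) => x p.1 * v p.2 - x p.2 * v p.1 := by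
    funext p
    simp only [Pi.smul_apply, smul_eq_mul]
    ring
  rw [wl, wl, h1, norm_smul, mul_div_assoc]

theorem wl_nonneg (x v : Fin (N + 1) → ℂ) : 0 ≤ wl x v := div_nonneg (norm_nonneg _) (by positivity)

/-- If `x a = 1`, `‖x‖ = 1` and `v a = 0`, then `‖v‖ ≤ wl x v`. -/
private theorem norm_le_wl {x v : Fin (N + 1) → ℂ} {a : Fin (N + 1)} (hx : ‖x‖ = 1) (hxa : x a = 1) (hva : v a = 0) : ‖v‖ ≤ wl x v := by
  rw [wl, hx, one_pow, div_one]
  refine (pi_norm_le_iff_of_nonneg (norm_nonneg _)).2 fun b => ?_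
  have h1 := norm_le_pi_norm (fun p : Fin (N + 1) × Fin (N + 1) => x p.1 * v p.2 - x p.2 * v p.1) (a, b)
  simp only [hxa, hva, one_mul, mul_zero, sub_zero] at h1
  exact h1

end Pool.Agent.GG

end

section

/-!
# GG Chart: arcs in `X` and in the charts `x_a = 1`

PROOFS.  `arcV_of_nArc`: the derivatives of `Q_j (x) = 0`, `x_a = 1` (near `z`) give `dQ_j v = 0`, `v_a = 0`; `A_(a,k) (x, v) = θ_k (x, v) = c_k`.  `nArc_of_const`: read the values of `gfam` at `(x₀, v₀)`: `x_a = 1`, `Q_j = 0`, so `x w ∈ cone P`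
(`Ideal.span`), `x' w ∈ conTan P (x w)` (values of `dQ_j v`, or the derivative of `Q (x) = 0`), `θ_k = A_(a,k) = c_k`.  `exists_nArc`: divide a local lift `F` by a coordinate `F_a` of the largest modulus at `z`; `add_smul` and `scale` show that `θ_k` does not change.
-/

set_option autoImplicit false

open MvPolynomial Topology Filter Metric
open Pool.Agent.H13.SM (conTan cone)
open Pool.Agent.H17 (PN)
open Pool.Agent.H62.FC (Homog)

namespace Pool.Agent.GG

variable {N : ℕ} {P : Ideal (MvPolynomial (Fin (N + 1)) ℂ)} {J : ℕ} {m : Fin J → ℕ} {θ : ∀ k, SymSec P (m k)} {a : Fin (N + 1)} {c : Fin J → ℂ}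

/-- chain rule for polynomials -/
theorem Chart_hasDerivAt {σ : Type*} [Fintype σ] (Q : MvPolynomial σ ℂ) {y : ℂ → σ → ℂ} {y' : σ → ℂ} {s : ℂ} (hy : HasDerivAt y y' s) :
    HasDerivAt (fun s => eval (y s) Q) (∑ i, y' i * eval (y s) (pderiv i Q)) s := by
  classical
  induction Q using MvPolynomial.induction_on with
  | C r => simpa using hasDerivAt_const s r
  | add p q hp hq =>
    have h1 := hp.add hq
    have h2 : (∑ i, y' i * eval (y s) (pderiv i p)) + (∑ i, y' i * eval (y s) (pderiv i q)) =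
        ∑ i, y' i * eval (y s) (pderiv i (p + q)) := by
      rw [← Finset.sum_add_distrib]
      refine Finset.sum_congr rfl fun i _ => ?_
      rw [map_add, map_add, mul_add]
    rw [← h2]
    refine h1.congr_of_eventuallyEq (Eventually.of_forall fun t => ?_)
    simp
  | mul_X p i hp =>
    have h0 := (hasDerivAt_pi.mp hy) i
    have h1 := hp.mul h0
    have h2 : (∑ j, y' j * eval (y s) (pderiv j p)) * y s i + eval (y s) p * y' i =
        ∑ j, y' j * eval (y s) (pderiv j (p * X i)) := by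
      have h3 : ∀ j, y' j * eval (y s) (pderiv j (p * X i)) =
          y' j * eval (y s) (pderiv j p) * y s i + (if j = i then eval (y s) p * y' i else 0) := by
        intro j
        rw [Derivation.leibniz, map_add, smul_eq_mul, smul_eq_mul, map_mul, map_mul, eval_X, pderiv_X]
        by_cases hj : j = i
        · subst hj
          simp
          ring
        · rw [if_neg hj, Pi.single_eq_of_ne (Ne.symm hj)]
          simp
          ring
      simp only [h3]
      rw [Finset.sum_add_distrib, ← Finset.sum_mul]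
      simp
    rw [← h2]
    refine h1.congr_of_eventuallyEq (Eventually.of_forall fun t => ?_)
    simp

/-- the derivative of a curve in the cone is tangent to the cone -/
theorem Chart_tan {x : ℂ → Fin (N + 1) → ℂ} {w : ℂ} (hx : DifferentiableAt ℂ x w) (h : ∀ᶠ s in 𝓝 w, x s ∈ cone P) :
    deriv x w ∈ conTan P (x w) := by
  intro Q hQ
  have h1 := Chart_hasDerivAt Q hx.hasDerivAt
  have h2 : HasDerivAt (fun s => eval (x s) Q) 0 w := by
    refine (hasDerivAt_const w (0 : ℂ)).congr_of_eventuallyEq ?_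
    filter_upwards [h] with s hs using hs.2 Q hQ
  exact h1.unique h2

/-- the common values of the family -/
def gvals (c : Fin J → ℂ) (q : ℕ) : (Unit ⊕ Unit) ⊕ (Fin q ⊕ Fin q) ⊕ Fin J → ℂ :=
  Sum.elim (Sum.elim (fun _ => 1) fun _ => 0) (Sum.elim (fun _ => 0) c)

/-- the value of the derivative of a generator -/
theorem Chart_eval_dQ (f : Frame θ) (a : Fin (N + 1)) (j : Fin f.q) (x v : Fin (N + 1) → ℂ) :
    eval (pt x v) (gfam f a (Sum.inr (Sum.inl (Sum.inr j)))) = ∑ b, v b * eval x (pderiv b (f.Q j)) := by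
  simp only [gfam, Sum.elim_inr, Sum.elim_inl, map_sum, map_mul, eval_X, eval_rename, pt]
  refine Finset.sum_congr rfl fun b _ => ?_
  rw [mul_comm]
  rfl

/-- the value of a generator -/
theorem Chart_eval_Q (f : Frame θ) (a : Fin (N + 1)) (j : Fin f.q) (x v : Fin (N + 1) → ℂ) :
    eval (pt x v) (gfam f a (Sum.inr (Sum.inl (Sum.inl j)))) = eval x (f.Q j) := by
  simp only [gfam, Sum.elim_inr, Sum.elim_inl, eval_rename, pt]
  rfl

theorem gval_of_isTan (f : Frame θ) {x v : Fin (N + 1) → ℂ} (h : IsTan θ a c x v) (l : (Unit ⊕ Unit) ⊕ (Fin f.q ⊕ Fin f.q) ⊕ Fin J) :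
    eval (pt x v) (gfam f a l) = gvals c f.q l := by
  obtain ⟨h1, h2, h3, h4, h5⟩ := h
  have hQ : ∀ j, f.Q j ∈ P := fun j => by
    have := Ideal.subset_span (s := Set.range f.Q) ⟨j, rfl⟩
    rwa [f.span] at this
  rcases l with (_ | _) | (j | j) | k
  · simp [gfam, gvals, pt, h2]
  · simp [gfam, gvals, pt, h4]
  · rw [Chart_eval_Q]
    exact h1.2 _ (hQ j)
  · rw [Chart_eval_dQ]
    exact h3 _ (hQ j)
  · have h6 := f.hA a k x h1 h2 v h3
    show eval (pt x v) (f.A a k) = c k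
    rw [← h6, h5 k]

theorem isTan_of_gval (f : Frame θ) {x v : Fin (N + 1) → ℂ} (h : ∀ l, eval (pt x v) (gfam f a l) = gvals c f.q l) : IsTan θ a c x v := by
  have h1 : x a = 1 := by simpa [gfam, gvals, pt] using h (Sum.inl (Sum.inl ()))
  have h2 : v a = 0 := by simpa [gfam, gvals, pt] using h (Sum.inl (Sum.inr ()))
  have h3 : ∀ j, eval x (f.Q j) = 0 := fun j => by
    have := h (Sum.inr (Sum.inl (Sum.inl j)))
    rwa [Chart_eval_Q] at this
  have h4 : ∀ j, ∑ b, v b * eval x (pderiv b (f.Q j)) = 0 := fun j => by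
    have := h (Sum.inr (Sum.inl (Sum.inr j)))
    rwa [Chart_eval_dQ] at this
  have h5 : ∀ Q ∈ P, eval x Q = 0 ∧ ∑ b, v b * eval x (pderiv b Q) = 0 := by
    intro Q hQ
    rw [← f.span] at hQ
    induction hQ using Submodule.span_induction with
    | mem Q hQ =>
      obtain ⟨j, rfl⟩ := hQ
      exact ⟨h3 j, h4 j⟩
    | zero => simp
    | add p q _ _ hp hq =>
      refine ⟨by rw [map_add, hp.1, hq.1, add_zero], ?_⟩
      simp only [map_add, mul_add, Finset.sum_add_distrib]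
      rw [hp.2, hq.2, add_zero]
    | smul r p _ hp =>
      refine ⟨by rw [smul_eq_mul, map_mul, hp.1, mul_zero], ?_⟩
      have h6 : ∀ b, v b * eval x (pderiv b (r • p)) = eval x r * (v b * eval x (pderiv b p)) := by
        intro b
        rw [smul_eq_mul, Derivation.leibniz, map_add, smul_eq_mul, smul_eq_mul, map_mul, map_mul, hp.1]
        ring
      simp only [h6]
      rw [← Finset.mul_sum, hp.2, mul_zero]
  have hx : x ∈ cone P := ⟨fun h0 => by rw [h0] at h1; simp at h1, fun Q hQ => (h5 Q hQ).1⟩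
  have hv : v ∈ conTan P x := fun Q hQ => (h5 Q hQ).2
  refine ⟨hx, h1, hv, h2, fun k => ?_⟩
  have h6 := f.hA a k x hx h1 v hv
  have h7 := h (Sum.inr (Sum.inr k))
  rw [h6]
  exact h7

/-- all nearby vectors are tangent vectors -/
theorem Chart_isTan {x : ℂ → Fin (N + 1) → ℂ} {z : ℂ} (h : NArc θ a c x z) : ∀ᶠ w in 𝓝 z, IsTan θ a c (x w) (deriv x w) := by
  obtain ⟨hx, h⟩ := h
  filter_upwards [h.eventually_nhds, hx.eventually_analyticAt] with w hw hxw
  have h1 := hw.self_of_nhds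
  refine ⟨h1.1, h1.2.1, Chart_tan hxw.differentiableAt (hw.mono fun s hs => hs.1), ?_, h1.2.2⟩
  have h2 : HasDerivAt (fun s => x s a) (deriv x w a) w := (hasDerivAt_pi.mp hxw.differentiableAt.hasDerivAt) a
  have h3 : HasDerivAt (fun s => x s a) 0 w := by
    refine (hasDerivAt_const w (1 : ℂ)).congr_of_eventuallyEq ?_
    filter_upwards [hw] with s hs using hs.2.1
  exact h2.unique h3

theorem arcV_of_nArc (f : Frame θ) {x : ℂ → Fin (N + 1) → ℂ} {z : ℂ} (h : NArc θ a c x z) :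
    ArcV (gfam f a) x z ∧ IsTan θ a c (x z) (deriv x z) := by
  have h1 := Chart_isTan h
  refine ⟨⟨h.1, fun l => ?_⟩, h1.self_of_nhds⟩
  filter_upwards [h1] with w hw
  rw [gval_of_isTan f hw, gval_of_isTan f h1.self_of_nhds]

theorem isInit_of_nArc (f : Frame θ) {x : ℂ → Fin (N + 1) → ℂ} {z : ℂ} (h : NArc θ a c x z) : IsInit (gfam f a) (pt (x z) (deriv x z)) := by
  obtain ⟨h1, h2⟩ := (arcV_of_nArc f h).1
  have hd : ∀ s, deriv (fun s => x (z + s)) s = deriv x (z + s) := fun s => deriv_comp_const_add x z s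
  have ht : Tendsto (fun s : ℂ => z + s) (𝓝 0) (𝓝 z) := by
    have : ContinuousAt (fun s : ℂ => z + s) 0 := by fun_prop
    simpa [ContinuousAt] using this
  refine ⟨fun s => x (z + s), ⟨?_, fun l => ?_⟩, ?_⟩
  · refine AnalyticAt.fun_comp (f := fun s : ℂ => z + s) (g := x) ?_ (by fun_prop)
    simpa using h1
  · filter_upwards [ht.eventually (h2 l)] with s hs
    simp only [hd, add_zero]
    exact hs
  · simp only [hd, add_zero]

theorem nArc_of_const (f : Frame θ) {x₀ v₀ : Fin (N + 1) → ℂ} (h : IsTan θ a c x₀ v₀) {x : ℂ → Fin (N + 1) → ℂ} {z : ℂ} (hx : AnalyticAt ℂ x z)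
    (he : ∀ l, ∀ᶠ w in 𝓝 z, eval (pt (x w) (deriv x w)) (gfam f a l) = eval (pt x₀ v₀) (gfam f a l)) : NArc θ a c x z := by
  refine ⟨hx, ?_⟩
  filter_upwards [Filter.eventually_all.mpr he] with w hw
  have h1 : IsTan θ a c (x w) (deriv x w) := isTan_of_gval f fun l => by rw [hw l, gval_of_isTan f h]
  exact ⟨h1.1, h1.2.1, h1.2.2.2.2⟩

theorem arcAt_of_nArc {x : ℂ → Fin (N + 1) → ℂ} {z : ℂ} {g : ℂ → PN N} (h : NArc θ a c x z) (hr : Rep g x z) : ArcAt θ c g z :=
  ⟨x, h.1, hr, h.2.mono fun _ hw => ⟨hw.1, hw.2.2⟩⟩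

/-- normalising a lift -/
theorem nArc_of_lift (hP : Homog P) {g : ℂ → PN N} {z : ℂ} (h : ArcAt θ c g z) {F : ℂ → Fin (N + 1) → ℂ} (hF : AnalyticAt ℂ F z) (hr : Rep g F z)
    (ha : F z a ≠ 0) : NArc θ a c (fun w => (F w a)⁻¹ • F w) z ∧ Rep g (fun w => (F w a)⁻¹ • F w) z := by
  have hFa : AnalyticAt ℂ (fun w => F w a) z := (analyticAt_pi_iff.mp hF) a
  have han : AnalyticAt ℂ (fun w => (F w a)⁻¹ • F w) z := (hFa.inv ha).smul hF
  have hane : ∀ᶠ w in 𝓝 z, F w a ≠ 0 := hFa.continuousAt.eventually_ne ha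
  refine ⟨⟨han, ?_⟩, ?_⟩
  · obtain ⟨F₁, hF₁, hr₁, h₁⟩ := h
    -- the two lifts are proportional
    have hpar : ∀ᶠ w in 𝓝 z, ∃ u : ℂ, u ≠ 0 ∧ F w = u • F₁ w := by
      filter_upwards [hr, hr₁] with w hw hw₁
      obtain ⟨hw0, hw⟩ := hw
      obtain ⟨hw10, hw₁⟩ := hw₁
      rw [hw] at hw₁
      obtain ⟨u, hu⟩ := (Projectivization.mk_eq_mk_iff' ℂ _ _ hw0 hw10).mp hw₁
      refine ⟨u, fun h0 => hw0 ?_, hu.symm⟩
      rw [← hu, h0, zero_smul]
    have heq : ∀ᶠ w in 𝓝 z, F₁ w a ≠ 0 ∧ (F w a)⁻¹ • F w = (F₁ w a)⁻¹ • F₁ w := by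
      filter_upwards [hpar, hane] with w hw hwa
      obtain ⟨u, hu0, hu⟩ := hw
      have h1 : F₁ w a ≠ 0 := fun h0 => hwa (by rw [hu, Pi.smul_apply, h0, smul_zero])
      refine ⟨h1, ?_⟩
      rw [hu, smul_smul, Pi.smul_apply, smul_eq_mul, mul_inv, mul_comm u⁻¹, mul_assoc, inv_mul_cancel₀ hu0, mul_one]
    have hF₁a : AnalyticAt ℂ (fun w => F₁ w a) z := (analyticAt_pi_iff.mp hF₁) a
    filter_upwards [heq.eventually_nhds, h₁.eventually_nhds, hF₁.eventually_analyticAt] with w hw hcw hanw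
    have hw0 := hw.self_of_nhds
    have hc0 := hcw.self_of_nhds
    have hanwa : AnalyticAt ℂ (fun w => F₁ w a) w := (analyticAt_pi_iff.mp hanw) a
    obtain ⟨u, hu⟩ : ∃ u : ℂ → ℂ, u = fun w => (F₁ w a)⁻¹ := ⟨_, rfl⟩
    have huan : AnalyticAt ℂ u w := by
      rw [hu]
      exact hanwa.inv hw0.1
    have hu0 : u w ≠ 0 := by
      rw [hu]
      exact inv_ne_zero hw0.1
    have hev : (fun s => (F s a)⁻¹ • F s) =ᶠ[𝓝 w] fun s => u s • F₁ s := by
      filter_upwards [hw] with s hs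
      rw [hs.2, hu]
    have hcone : ∀ᶠ s in 𝓝 w, u s • F₁ s ∈ cone P := by
      filter_upwards [hw, hcw] with s hs hcs
      have hus : u s ≠ 0 := by
        rw [hu]
        exact inv_ne_zero hs.1
      exact ⟨smul_ne_zero hus hcs.1.1, Pool.Agent.H13.SM.cone_smul hP hcs.1.2 _⟩
    have hdiff : DifferentiableAt ℂ (fun s => u s • F₁ s) w := huan.differentiableAt.fun_smul hanw.differentiableAt
    have hd : deriv (fun s => u s • F₁ s) w = u w • deriv F₁ w + deriv u w • F₁ w :=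
      deriv_fun_smul huan.differentiableAt hanw.differentiableAt
    have htan : deriv (fun s => u s • F₁ s) w ∈ conTan P (u w • F₁ w) := Chart_tan (x := fun s => u s • F₁ s) hdiff hcone
    have hself : u w • F₁ w ∈ conTan P (u w • F₁ w) := fun Q hQ => Pool.Agent.H13.SM.euler hP hcone.self_of_nhds.2 hQ
    have hsplit : deriv (fun s => u s • F₁ s) w = u w • deriv F₁ w + (deriv u w * (u w)⁻¹) • (u w • F₁ w) := by
      rw [hd, smul_smul, mul_assoc, inv_mul_cancel₀ hu0, mul_one]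
    have htan' : u w • deriv F₁ w ∈ conTan P (u w • F₁ w) := by
      have h5 : u w • deriv F₁ w = deriv (fun s => u s • F₁ s) w - (deriv u w * (u w)⁻¹) • (u w • F₁ w) := by
        rw [hsplit, add_sub_cancel_right]
      rw [h5]
      exact Submodule.sub_mem _ htan (Submodule.smul_mem _ _ hself)
    have htan₁ : deriv F₁ w ∈ conTan P (F₁ w) := Chart_tan hanw.differentiableAt (hcw.mono fun s hs => hs.1)
    have hev0 : (F w a)⁻¹ • F w = u w • F₁ w := hev.self_of_nhds
    refine ⟨?_, ?_, fun k => ?_⟩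
    · rw [hev0]
      exact hcone.self_of_nhds
    · rw [hw0.2, Pi.smul_apply, smul_eq_mul, inv_mul_cancel₀ hw0.1]
    · rw [hev0, hev.deriv_eq, hsplit, (θ k).add_smul _ hcone.self_of_nhds _ htan',
        (θ k).scale _ hc0.1 _ htan₁ _ hu0]
      exact hc0.2 k
  · filter_upwards [hr, hane] with w hw hwa
    obtain ⟨hw0, hw⟩ := hw
    have h1 : (F w a)⁻¹ • F w ≠ 0 := smul_ne_zero (inv_ne_zero hwa) hw0
    refine ⟨h1, ?_⟩
    rw [hw, Projectivization.mk_eq_mk_iff']
    exact ⟨F w a, by rw [smul_inv_smul₀ hwa]⟩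

theorem exists_nArc (hP : Homog P) {g : ℂ → PN N} {z : ℂ} (h : ArcAt θ c g z) : ∃ (a : Fin (N + 1)) (x : ℂ → Fin (N + 1) → ℂ),
    NArc θ a c x z ∧ Rep g x z ∧ ∀ b, ‖x z b‖ ≤ 1 := by
  obtain ⟨F, hF, hr, h₁⟩ := id h
  have hF0 : F z ≠ 0 := h₁.self_of_nhds.1.1
  obtain ⟨a, -, ha⟩ := Finset.exists_max_image (Finset.univ : Finset (Fin (N + 1))) (fun b => ‖F z b‖) Finset.univ_nonempty
  have ha0 : F z a ≠ 0 := by
    intro h0
    apply hF0
    funext b
    have := ha b (Finset.mem_univ b)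
    rw [h0, norm_zero] at this
    exact norm_le_zero_iff.mp this
  obtain ⟨h1, h2⟩ := nArc_of_lift (a := a) hP h hF hr ha0
  refine ⟨a, _, h1, h2, fun b => ?_⟩
  show ‖((F z a)⁻¹ • F z) b‖ ≤ 1
  rw [Pi.smul_apply, smul_eq_mul, norm_mul, norm_inv, inv_mul_le_one₀ (norm_pos_iff.mpr ha0)]
  exact ha b (Finset.mem_univ b)

end Pool.Agent.GG

end

section

/-!
# GG FamD: families of arcs, definition
-/

set_option autoImplicit false

open MvPolynomial Topology Filter Metric
open Pool.Agent.H13.SM (conTan cone)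
open Pool.Agent.H17 (PN)

namespace Pool.Agent.GG

variable {N : ℕ} {P : Ideal (MvPolynomial (Fin (N + 1)) ℂ)} {J : ℕ} {m : Fin J → ℕ}

/-- For `s` near `0` the curve `Φ (·, s)` is an arc in the chart `x_a = 1` near `z`, with position and velocity `Y s` at `z`, holomorphic in `s`. -/
def FamAt (θ : ∀ k, SymSec P (m k)) {d : ℕ} (Φ : ℂ × (Fin d → ℂ) → PN N) (a : Fin (N + 1)) (Y : (Fin d → ℂ) → Ph N → ℂ) (z : ℂ) : Prop :=
  AnalyticAt ℂ Y 0 ∧ ∀ᶠ s in 𝓝 (0 : Fin d → ℂ), ∃ (c : Fin J → ℂ) (x : ℂ → Fin (N + 1) → ℂ),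
    NArc θ a c x z ∧ Rep (fun w => Φ (w, s)) x z ∧ Y s = pt (x z) (deriv x z)

end Pool.Agent.GG

end

section

/-!
# GL Defs: logarithmic symmetric differentials on the complement of hyperplane sections

PROJECT GG-LOG (note 4599).  `P` is a homogeneous prime ideal, `X` its projective variety, `B` a finite set of coordinates; `D` is the union of the hyperplane
sections `x i = 0`, `i ∈ B`, and `U = X \ D`.  A logarithmic tangent vector of `(X, D)` at a point `x` of the cone (on `D` too) is given by its coordinates `ξ`: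
`ξ i = v i / x i` for `i ∈ B` and `ξ i = v i` otherwise, where `v = act B x ξ` is a tangent vector of the cone.  For `B = ∅` this is `GG.Defs`.

In the affine case one works in the chart `x b = 1` for one fixed `b ∈ B`: `Uc P B b` is the set of the points, `Tc P b x` the tangent space.
To get polynomials one adds the coordinate `1 / ∏ x i` (`emb`, `embV`), so the phase space is `Ph (N + 1)`.
-/

set_option autoImplicit false

open MvPolynomial Topology Filter Metric
open Pool.Agent.H13.SM (conTan cone)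
open Pool.Agent.H17 (PN VanishesAt)
open Pool.Agent.GG
open Pool.Agent.GA

noncomputable section

namespace Pool.Agent.GL

variable {N : ℕ}

/-- the logarithmic coordinates of the tangent vector `v` -/
def lv (B : Finset (Fin (N + 1))) (x v : Fin (N + 1) → ℂ) : Fin (N + 1) → ℂ := fun i => if i ∈ B then (x i)⁻¹ * v i else v i

/-- For all nonzero logarithmic tangent vectors `ξ`, `η` at a point of `X` one of the polar forms `θ_k (ξ, …, ξ, η)` is not `0`. -/
def LogPolar {P : Ideal (MvPolynomial (Fin (N + 1)) ℂ)} {B : Finset (Fin (N + 1))} {J : ℕ} {m : Fin J → ℕ} (θ : ∀ k, LogSec P B (m k)) : Prop :=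
  ∀ x ∈ cone P, ∀ ξ, act B x ξ ∈ conTan P x → ∀ η, act B x η ∈ conTan P x → ξ ∉ Submodule.span ℂ {eul B x} → η ∉ Submodule.span ℂ {eul B x} →
    ∃ k, deriv (fun t : ℂ => (θ k).toFun x (ξ + t • η)) 0 ≠ 0

/-! ## the chart `x b = 1`, `b ∈ B` -/

/-- the points of `U` in the chart `x b = 1` -/
def Uc (P : Ideal (MvPolynomial (Fin (N + 1)) ℂ)) (B : Finset (Fin (N + 1))) (b : Fin (N + 1)) : Set (Fin (N + 1) → ℂ) :=
  {x | x ∈ cone P ∧ x b = 1 ∧ ∀ i ∈ B, x i ≠ 0}

/-- the tangent vectors of `U` in the chart `x b = 1` -/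
def Tc (P : Ideal (MvPolynomial (Fin (N + 1)) ℂ)) (b : Fin (N + 1)) (x : Fin (N + 1) → ℂ) : Set (Fin (N + 1) → ℂ) :=
  {v | v ∈ conTan P x ∧ v b = 0}

/-- the logarithmic length, up to bounded factors (in the chart) -/
def LL (B : Finset (Fin (N + 1))) (x v : Fin (N + 1) → ℂ) : ℝ := ‖v‖ / ‖x‖ + ∑ i ∈ B, ‖v i‖ / ‖x i‖

/-- the height: it is `≥ 0` in the chart, and proper -/
def Rho (B : Finset (Fin (N + 1))) (x : Fin (N + 1) → ℂ) : ℝ := Real.log ‖x‖ + ∑ i ∈ B, (Real.log ‖x‖ - Real.log ‖x i‖)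

/-- the point with the additional coordinate `1 / ∏ x i` -/
def emb (B : Finset (Fin (N + 1))) (x : Fin (N + 1) → ℂ) : Fin (N + 2) → ℂ := Fin.snoc (α := fun _ => ℂ) x (∏ i ∈ B, x i)⁻¹

/-- the tangent vector of `emb` -/
def embV (B : Finset (Fin (N + 1))) (x v : Fin (N + 1) → ℂ) : Fin (N + 2) → ℂ :=
  Fin.snoc (α := fun _ => ℂ) v (-((∏ i ∈ B, x i)⁻¹ * ∑ i ∈ B, (x i)⁻¹ * v i))

/-- the point `(x, v)` of the tangent bundle of `U`, as a point of the phase space -/
def ePt (B : Finset (Fin (N + 1))) (x v : Fin (N + 1) → ℂ) : Ph (N + 1) → ℂ := pt (emb B x) (embV B x v)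

variable {P : Ideal (MvPolynomial (Fin (N + 1)) ℂ)} {B : Finset (Fin (N + 1))} {J : ℕ} {m : Fin J → ℕ}

/-- generators of the ideal, and polynomials for the logarithmic symmetric differentials in the chart -/
structure LFrame (θ : ∀ k, LogSec P B (m k)) (b : Fin (N + 1)) where
  /-- the number of the generators -/
  q : ℕ
  /-- the generators -/
  Q : Fin q → MvPolynomial (Fin (N + 1)) ℂ
  span : Ideal.span (Set.range Q) = P
  /-- the polynomials -/
  A : Fin J → MvPolynomial (Ph N) ℂ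
  hA : ∀ k, ∀ x ∈ cone P, x b = 1 → ∀ ξ, act B x ξ ∈ conTan P x → (θ k).toFun x ξ = eval (pt x ξ) (A k)
  hom : ∀ k, IsWeightedHomogeneous (Sum.elim (fun _ => 0) (fun _ => 1) : Ph N → ℕ) (A k) (m k)

/-- the logarithmic coordinates as polynomials in the coordinates of `ePt` -/
def lsub (B : Finset (Fin (N + 1))) : Ph N → MvPolynomial (Ph (N + 1)) ℂ :=
  Sum.elim (fun j => X (Sum.inl j.castSucc)) fun i =>
    if i ∈ B then X (Sum.inr i.castSucc) * (X (Sum.inl (Fin.last (N + 1))) * ∏ l ∈ B.erase i, X (Sum.inl l.castSucc)) else X (Sum.inr i.castSucc)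

/-- the index set of the family -/
abbrev GIx (q J : ℕ) : Type := ((Unit ⊕ Unit) ⊕ (Fin q ⊕ Fin q)) ⊕ ((Unit ⊕ Unit) ⊕ Fin J)

/-- the functions `x_b`, `v_b`, `Q_j (x)`, `dQ_j (x) v`, `y ∏ x_i`, `d (y ∏ x_i)`, `θ_k (x, v)` on the phase space, `y` is the last coordinate -/
def gfamL {θ : ∀ k, LogSec P B (m k)} {b : Fin (N + 1)} (f : LFrame θ b) : GIx f.q J → MvPolynomial (Ph (N + 1)) ℂ :=
  Sum.elim
    (Sum.elim (Sum.elim (fun _ => X (Sum.inl b.castSucc)) fun _ => X (Sum.inr b.castSucc))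
      (Sum.elim (fun j => rename (fun i : Fin (N + 1) => (Sum.inl i.castSucc : Ph (N + 1))) (f.Q j))
        fun j => ∑ i, rename (fun i : Fin (N + 1) => (Sum.inl i.castSucc : Ph (N + 1))) (pderiv i (f.Q j)) * X (Sum.inr i.castSucc)))
    (Sum.elim
      (Sum.elim (fun _ => X (Sum.inl (Fin.last (N + 1))) * ∏ l ∈ B, X (Sum.inl l.castSucc)) fun _ =>
        X (Sum.inr (Fin.last (N + 1))) * ∏ l ∈ B, X (Sum.inl l.castSucc) +
          X (Sum.inl (Fin.last (N + 1))) * ∑ i ∈ B, X (Sum.inr i.castSucc) * ∏ l ∈ B.erase i, X (Sum.inl l.castSucc))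
      fun k => aeval (lsub B) (f.A k))

/-- the values of the family at `ePt B x v`, `x ∈ Uc`, `v ∈ Tc`, `θ (x, v) = c` -/
def gval {q J : ℕ} (c : Fin J → ℂ) : GIx q J → ℂ :=
  Sum.elim (Sum.elim (Sum.elim (fun _ => 1) fun _ => 0) (Sum.elim (fun _ => 0) fun _ => 0)) (Sum.elim (Sum.elim (fun _ => 1) fun _ => 0) c)

/-- the values of the logarithmic symmetric differentials on `v`, in the chart -/
def thv (θ : ∀ k, LogSec P B (m k)) (x v : Fin (N + 1) → ℂ) : Fin J → ℂ := fun k => (θ k).toFun x (lv B x v)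

/-! ## nonautonomous equations -/

/-- `Φ` is near `q = (z, s)` a holomorphic family of solutions of `G_l (x, x') = C_l (z, s)` -/
def NSol {ι : Type} {d : ℕ} (G : ι → MvPolynomial (Ph N) ℂ) (C : ι → ℂ × (Fin d → ℂ) → ℂ) (Φ : ℂ × (Fin d → ℂ) → Fin (N + 1) → ℂ)
    (q : ℂ × (Fin d → ℂ)) : Prop :=
  AnalyticAt ℂ Φ q ∧ ∀ᶠ p in 𝓝 q, ∀ l, eval (pt (Φ p) (deriv (fun z => Φ (z, p.2)) p.1)) (G l) = C l p

/-- `Φ` is near `q` a holomorphic family of curves in `U` (in the chart), with `θ (∂Φ/∂z) = c` -/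
def LFam (θ : ∀ k, LogSec P B (m k)) (b : Fin (N + 1)) {d : ℕ} (c : ℂ × (Fin d → ℂ) → Fin J → ℂ) (Φ : ℂ × (Fin d → ℂ) → Fin (N + 1) → ℂ)
    (q : ℂ × (Fin d → ℂ)) : Prop :=
  AnalyticAt ℂ Φ q ∧ ∀ᶠ p in 𝓝 q, Φ p ∈ Uc P B b ∧ thv θ (Φ p) (deriv (fun z => Φ (z, p.2)) p.1) = c p

/-! ## curves in the half-plane -/

/-- a holomorphic periodic curve in `U`, in the chart `x b = 1` -/
structure LCurve (P : Ideal (MvPolynomial (Fin (N + 1)) ℂ)) (B : Finset (Fin (N + 1))) (b : Fin (N + 1)) (F : ℂ → Fin (N + 1) → ℂ) : Prop where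
  curve : HCurve P F
  one : ∀ w, F w b = 1
  ne : ∀ w ∈ HP, ∀ i ∈ B, F w i ≠ 0

/-- the curve with the additional coordinate -/
def eF (B : Finset (Fin (N + 1))) (F : ℂ → Fin (N + 1) → ℂ) (w : ℂ) : Fin (N + 2) → ℂ := emb B (F w)

end Pool.Agent.GL

end
end

section

/-!
# GBL Defs: Theorem B in the logarithmic case (see GB Defs, and the note with the plan)

`K` is the function field of a variety `Z` of dimension `k`, `Bd` the set of the prime divisors on the boundary.

* `LFr Bd E e`: the derivations `e` are a logarithmic frame at `E`: the dual derivations of coordinates at `E`, where the derivation of the uniformizer `t` is multiplied with `t` if `E` is on the boundary.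
* `RegL Bd z l f`: the form `f (dz_1 ∧ … ∧ dz_k)^l` is regular along all prime divisors off `Bd` and has at most poles of order `l` along those in `Bd`.
* `LDer Bd E e`: `e` is a logarithmic derivation at `E`.
* `SymFamL`: families of logarithmic symmetric differentials.
-/

set_option autoImplicit false

open MvPolynomial
open Pool.Agent.H23 (dualDer)
open Pool.Agent.H23.Fano (PrimeDivisorOver Form)
open Pool.Agent.H17GT (coordFun)
open Pool.Agent.H17LG.Variety (FunField ratio IsLogGeneralType)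
open Pool.Agent.H13.SM (conTan cone)
open Pool.Agent.GL
open Pool.Agent.GB (Mon cdet sbs IsWeight Rel vol dph)

noncomputable section

namespace Pool.Agent.GBL

section

variable {K : Type} [Field K] [Algebra ℂ K] {k d κ M : ℕ} {ι : Type}

/-- a logarithmic frame at `E` -/
def LFr (Bd : PrimeDivisorOver K k → Prop) (E : PrimeDivisorOver K k) (e : Fin k → Derivation ℂ K K) : Prop :=
  ∃ (g : Fin k → K) (b : Module.Basis (Fin k) K Ω[K⁄ℂ]), (∀ i, b i = KaehlerDifferential.D ℂ K (g i)) ∧ (∀ i, 0 ≤ E.ord (g i)) ∧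
    (∀ i f, 0 ≤ E.ord f → 0 ≤ E.ord (dualDer b i f)) ∧
    ((¬ Bd E ∧ ∀ i, e i = dualDer b i) ∨ (Bd E ∧ ∃ i₀, E.ord (g i₀) = 1 ∧ ∀ i, e i = if i = i₀ then g i₀ • dualDer b i₀ else dualDer b i))

/-- the determinant of the values of the frame on `z` -/
def jacL (z : Fin k → K) (e : Fin k → Derivation ℂ K K) : K := (Matrix.of fun i j => e i (z j)).det

/-- the form `f (dz_1 ∧ … ∧ dz_k)^l` is regular off the boundary, and has poles of order at most `l` on it -/
def RegL (Bd : PrimeDivisorOver K k → Prop) (z : Fin k → K) (l : ℕ) (f : K) : Prop :=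
  ∀ (E : PrimeDivisorOver K k) (e : Fin k → Derivation ℂ K K), LFr Bd E e → 0 ≤ E.ord (f * jacL z e ^ l)

/-- `e` is a logarithmic derivation at `E` -/
def LDer (Bd : PrimeDivisorOver K k → Prop) (E : PrimeDivisorOver K k) (e : Derivation ℂ K K) : Prop :=
  (∀ f, 0 ≤ E.ord f → 0 ≤ E.ord (e f)) ∧ (Bd E → ∀ f, f ≠ 0 → 0 ≤ E.ord (e f / f))

/-- A family of logarithmic symmetric differentials of degree `M`, see `GB.SymFam`. -/
structure SymFamL (K : Type) [Field K] [Algebra ℂ K] (k : ℕ) (Bd : PrimeDivisorOver K k → Prop) (d M : ℕ) (ι : Type) where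
  /-- the polynomials -/
  fn : ι → (Fin d → Derivation ℂ K K) → MvPolynomial (Fin d) K
  hom : ∀ i e, (fn i e).IsHomogeneous M
  subst : ∀ i e (g : Matrix (Fin d) (Fin d) K), fn i (fun r => ∑ s, g r s • e s) = sbs g (fn i e)
  reg : ∀ i e (E : PrimeDivisorOver K k), (∀ j, LDer Bd E (e j)) → ∀ α, 0 ≤ E.ord (coeff α (fn i e))

end

section

variable {N : ℕ} {P Q : Ideal (MvPolynomial (Fin (N + 1)) ℂ)} [Q.IsPrime] {B : Finset (Fin (N + 1))} {J m : ℕ} {θ : Fin J → LogSec P B m} {b : Fin (N + 1)} {d : ℕ}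

/-- the prime divisor `E` lies over the hyperplane sections `x i = 0`, `i ∈ B` -/
def BdB (Q : Ideal (MvPolynomial (Fin (N + 1)) ℂ)) [Q.IsPrime] (B : Finset (Fin (N + 1))) {k : ℕ} (E : PrimeDivisorOver (FunField Q) k) : Prop :=
  ∃ j, coordFun Q j ≠ 0 ∧ (∀ i, 0 ≤ E.ord (ratio Q i j)) ∧ ∃ i ∈ B, 0 < E.ord (ratio Q i j)

/-- the point `x` in the chart `x_a = 1`, and the logarithmic coordinates of the tangent vector `∑ X j e_j` -/
def tvL (Q : Ideal (MvPolynomial (Fin (N + 1)) ℂ)) [Q.IsPrime] (B : Finset (Fin (N + 1))) (a : Fin (N + 1)) (e : Fin d → Derivation ℂ (FunField Q) (FunField Q)) :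
    Pool.Agent.GG.Ph N → MvPolynomial (Fin d) (FunField Q) :=
  Sum.elim (fun i => C (ratio Q i a)) fun i => ∑ j, X j * C (if i ∈ B then (ratio Q i a)⁻¹ * e j (ratio Q i a) else e j (ratio Q i a))

/-- `θ k` at this tangent vector -/
def psiL (f : LFrame (m := fun _ => m) θ b) (Q : Ideal (MvPolynomial (Fin (N + 1)) ℂ)) [Q.IsPrime] (k : Fin J)
    (e : Fin d → Derivation ℂ (FunField Q) (FunField Q)) : MvPolynomial (Fin d) (FunField Q) :=
  aeval (tvL Q B b e) (f.A k)

end

end Pool.Agent.GBL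

end
end
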