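import Mathlib

/-! The parts of this file: GB.Cmb, GG.Kd.Defs, GG.Kd.Ev, H13.SM.Inv, H17EF.Ord, H5.DG.CoverDefs, H68.KR.CB1, H68.KR.CB2, H7.Gtu.Res, H92.GT.Index, H94.Jac. -/

section

/-!
# GB Cmb: a function on the monomials of degree `M`

PROOF.  `l (α - e_i + e_j) - l (α)` does not depend on `α` (with `α i ≥ 1`); start from `M e_0`, `μ 0 = l (M e_0) / M`, and move one unit after the other.
-/

set_option autoImplicit false

namespace Pool.Agent.GB

theorem exists_mu {F : Type} [Field F] [CharZero F] {d M : ℕ} (hM : 1 ≤ M) {l : (Fin d →₀ ℕ) → F}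
    (h : ∀ α β α' β' : Fin d →₀ ℕ, α.degree = M → β.degree = M → α'.degree = M → β'.degree = M → α + β = α' + β' → l α + l β = l α' + l β') :
    ∃ μ : Fin d → F, ∀ α : Fin d →₀ ℕ, α.degree = M → l α = ∑ j, (α j : F) * μ j := by
  classical
  rcases d with _ | d
  · refine ⟨fun _ => 0, fun α hα => ?_⟩
    exfalso
    have : α = 0 := Subsingleton.elim _ _
    rw [this, map_zero] at hα
    omega
  obtain ⟨N, rfl⟩ : ∃ N, M = N + 1 := ⟨M - 1, by omega⟩
  set e : Fin (d + 1) → (Fin (d + 1) →₀ ℕ) := fun j => Finsupp.single j 1 with he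
  set b : Fin (d + 1) →₀ ℕ := Finsupp.single 0 N with hb
  have de : ∀ j, (e j).degree = 1 := fun j => by simp [he]
  have db : b.degree = N := by simp [hb]
  set D : Fin (d + 1) → F := fun j => l (b + e j) - l (b + e 0) with hD
  have hD0 : D 0 = 0 := by simp [hD]
  -- one move
  have move : ∀ (γ : Fin (d + 1) →₀ ℕ) (j : Fin (d + 1)), γ.degree = N → l (γ + e j) = l (γ + e 0) + D j := by
    intro γ j hγ
    have := h (γ + e j) (b + e 0) (γ + e 0) (b + e j) (by rw [map_add, hγ, de]) (by rw [map_add, db, de])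
      (by rw [map_add, hγ, de]) (by rw [map_add, db, de]) (by abel)
    simp only [hD]
    linear_combination this
  have main : ∀ (n : ℕ) (α : Fin (d + 1) →₀ ℕ), α.degree = N + 1 → N + 1 - α 0 = n → l α = l (b + e 0) + ∑ j, (α j : F) * D j := by
    intro n
    induction n with
    | zero =>
      intro α hα hn
      have hsum : ∑ i, α i = N + 1 := by rw [← Finsupp.degree_eq_sum, hα]
      have h0 : α 0 + ∑ i : Fin d, α i.succ = N + 1 := by rw [← hsum, Fin.sum_univ_succ]
      have hα0 : α 0 = N + 1 := by omega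
      have hz : ∑ i : Fin d, α i.succ = 0 := by omega
      have hz' : ∀ i : Fin d, α i.succ = 0 := fun i => by
        have := Finset.sum_eq_zero_iff.1 hz i (Finset.mem_univ _)
        exact this
      have e1 : α = b + e 0 := by
        ext i
        refine Fin.cases ?_ (fun i => ?_) i
        · simp [hb, he, hα0]
        · simp [hb, he, hz']
      rw [Fin.sum_univ_succ, hD0, mul_zero, zero_add]
      have e2 : ∑ i : Fin d, (α i.succ : F) * D i.succ = 0 := Finset.sum_eq_zero fun i _ => by rw [hz', Nat.cast_zero, zero_mul]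
      rw [e2, add_zero, e1]
    | succ n ih =>
      intro α hα hn
      have hsum : ∑ i, α i = N + 1 := by rw [← Finsupp.degree_eq_sum, hα]
      have h0 : α 0 + ∑ i : Fin d, α i.succ = N + 1 := by rw [← hsum, Fin.sum_univ_succ]
      have hne : ∑ i : Fin d, α i.succ ≠ 0 := by omega
      obtain ⟨i, -, hi⟩ := Finset.exists_ne_zero_of_sum_ne_zero hne
      set j := i.succ with hj
      have hle : e j ≤ α := by
        rw [he]
        simp only [Finsupp.single_le_iff]
        omega
      set γ := α - e j with hγ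
      have hαγ : α = γ + e j := (tsub_add_cancel_of_le hle).symm
      have dγ : γ.degree = N := by
        have h3 : (γ + e j).degree = N + 1 := by rw [← hαγ, hα]
        rw [map_add, de] at h3
        omega
      have hj0 : e j 0 = 0 := by
        rw [he]
        simp [hj]
      have hγ0 : γ 0 = α 0 := by rw [hγ, Finsupp.tsub_apply, hj0, Nat.sub_zero]
      have hβ0 : (γ + e 0) 0 = α 0 + 1 := by
        rw [Finsupp.add_apply, hγ0]
        simp [he]
      have h1 := ih (γ + e 0) (by rw [map_add, dγ, de]) (by rw [hβ0]; omega)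
      have s1 : ∀ (k : Fin (d + 1)), ∑ i, ((γ + e k) i : F) * D i = (∑ i, (γ i : F) * D i) + D k := by
        intro k
        have : ∀ i, ((γ + e k) i : F) * D i = (γ i : F) * D i + (if i = k then D i else 0) := by
          intro i
          rw [Finsupp.add_apply, Nat.cast_add, add_mul]
          congr 1
          simp only [he]
          rw [Finsupp.single_apply]
          by_cases hik : i = k
          · rw [if_pos hik, if_pos hik.symm]; simp
          · rw [if_neg hik, if_neg (Ne.symm hik)]; simp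
        rw [Finset.sum_congr rfl fun i _ => this i, Finset.sum_add_distrib]
        simp
      rw [hαγ, move γ j dγ, h1, s1, s1, hD0]
      ring
  refine ⟨fun j => D j + l (b + e 0) / (N + 1 : ℕ), fun α hα => ?_⟩
  rw [main _ α hα rfl]
  have hsum : ∑ i, α i = N + 1 := by rw [← Finsupp.degree_eq_sum, hα]
  have hN : ((N + 1 : ℕ) : F) ≠ 0 := by exact_mod_cast Nat.succ_ne_zero N
  have : ∑ j, (α j : F) * (D j + l (b + e 0) / (N + 1 : ℕ)) = (∑ j, (α j : F) * D j) + (∑ j, (α j : F)) * (l (b + e 0) / (N + 1 : ℕ)) := by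
    rw [Finset.sum_mul, ← Finset.sum_add_distrib]
    exact Finset.sum_congr rfl fun j _ => by ring
  rw [this, ← Nat.cast_sum, hsum, mul_div_cancel₀ _ hN]
  ring

end Pool.Agent.GB

end

section

/-!
# GG Kd Defs: affine varieties given by a generic point, linear Noether normalisations

`K` is a field over `ℂ` (the function field), `y : Fin r → K` the generic point of an affine variety `V` in `ℂ^r`, `k` the transcendence degree of `K`.

`Dat y k` (a linear Noether normalisation with equations): `t j` are linear forms in `y`, a transcendence basis, all `y i` are integral over `ℂ[t]`; `G i`,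
`i = 1, …, r`, are polynomials each of which is one of the linear forms `t j` or vanishes on `V`; `J = det (∂ G i / ∂ Y j)`.  At the points of `V` with `J ≠ 0`
the functions `t j` are local coordinates of `V`.
-/

set_option autoImplicit false

open MvPolynomial

noncomputable section

namespace Pool.Agent.GG.Kd

variable {K : Type} [Field K] [Algebra ℂ K] {r k : ℕ}

/-- `w` is a point of the affine variety with the generic point `y`. -/
def IsPt (y : Fin r → K) (w : Fin r → ℂ) : Prop := ∀ G : MvPolynomial (Fin r) ℂ, aeval y G = 0 → eval w G = 0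

/-- the tangent space at the point `w` -/
def tan (y : Fin r → K) (w : Fin r → ℂ) : Submodule ℂ (Fin r → ℂ) where
  carrier := {v | ∀ G : MvPolynomial (Fin r) ℂ, aeval y G = 0 → ∑ j, eval w (pderiv j G) * v j = 0}
  add_mem' := by
    intro a b ha hb G hG
    simp only [Pi.add_apply, mul_add, Finset.sum_add_distrib]
    rw [ha G hG, hb G hG, add_zero]
  zero_mem' := by
    intro G _
    simp
  smul_mem' := by
    intro c a ha G hG
    have h1 : ∀ j, eval w (pderiv j G) * (c • a) j = c * (eval w (pderiv j G) * a j) := fun j => by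
      simp only [Pi.smul_apply, smul_eq_mul]
      ring
    simp only [h1, ← Finset.mul_sum]
    rw [ha G hG, mul_zero]

/-- the linear form with the coefficients `l` -/
def lf (l : Fin r → ℂ) : MvPolynomial (Fin r) ℂ := ∑ i, C (l i) * X i

theorem eval_lf (l w : Fin r → ℂ) : eval w (lf l) = ∑ i, l i * w i := by
  simp [lf]

theorem aeval_lf (l : Fin r → ℂ) (y : Fin r → K) : aeval y (lf l) = ∑ i, l i • y i := by
  simp [lf, Algebra.smul_def]

theorem pderiv_lf (l : Fin r → ℂ) (j : Fin r) : pderiv j (lf l) = C (l j) := by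
  classical
  rw [lf, map_sum, Finset.sum_eq_single j]
  · rw [Derivation.leibniz, pderiv_C, pderiv_X_self]
    simp
  · intro i _ hij
    rw [Derivation.leibniz, pderiv_C, pderiv_X_of_ne hij]
    simp
  · intro h
    exact absurd (Finset.mem_univ j) h

/-- A linear Noether normalisation with equations. -/
structure Dat (y : Fin r → K) (k : ℕ) where
  /-- the coefficients of the linear forms -/
  L : Fin k → Fin r → ℂ
  basis : IsTranscendenceBasis ℂ fun j => aeval y (lf (L j))
  int : ∀ i, IsIntegral (Algebra.adjoin ℂ (Set.range fun j => aeval y (lf (L j)))) (y i)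
  /-- the equations -/
  G : Fin r → MvPolynomial (Fin r) ℂ
  hG : ∀ i, (∃ j, G i = lf (L j)) ∨ aeval y (G i) = 0

/-- the coordinate functions -/
def Dat.t {y : Fin r → K} (d : Dat y k) (j : Fin k) : K := aeval y (lf (d.L j))

/-- the Jacobian determinant -/
def Dat.J {y : Fin r → K} (d : Dat y k) : MvPolynomial (Fin r) ℂ := Matrix.det fun i j => pderiv j (d.G i)

end Pool.Agent.GG.Kd

end
end

section

/-!
# GG Kd Ev: values of rational functions at points with coordinates in an algebra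

`Ev y w f c`: the element `f` of `K = ℂ(y)` is regular at the `B`-valued point `w` of the variety with generic point `y`, with the value `c`.  For `B = ℂ[ε]` and
the point `w + ε v` the value is `f (w) + ε df (w) v`.
-/

set_option autoImplicit false

open MvPolynomial

noncomputable section

namespace Pool.Agent.GG.Kd

variable {K : Type} [Field K] [Algebra ℂ K] {r r' k : ℕ} {B : Type} [CommRing B] [Algebra ℂ B]

/-- `w` is a `B`-valued point of the affine variety with the generic point `y`. -/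
def IsPtB (y : Fin r → K) (w : Fin r → B) : Prop := ∀ G : MvPolynomial (Fin r) ℂ, aeval y G = 0 → aeval w G = 0

/-- `f` is regular at `w`, with the value `c`. -/
def Ev (y : Fin r → K) (w : Fin r → B) (f : K) (c : B) : Prop :=
  ∃ A D : MvPolynomial (Fin r) ℂ, IsUnit (aeval w D) ∧ f * aeval y D = aeval y A ∧ c * aeval w D = aeval w A

theorem isPtB_iff {y : Fin r → K} {w : Fin r → ℂ} : IsPtB y w ↔ IsPt y w := by
  unfold IsPtB IsPt
  simp only [MvPolynomial.aeval_eq_eval]

section Basic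

variable {y : Fin r → K} {w : Fin r → B}

theorem IsPtB.ne [Nontrivial B] (hw : IsPtB y w) {D : MvPolynomial (Fin r) ℂ} (h : IsUnit (aeval w D)) : aeval y D ≠ 0 := by
  intro h0
  rw [hw D h0] at h
  exact not_isUnit_zero h

/-- The value is unique. -/
theorem Ev.unique (hw : IsPtB y w) {f : K} {c c' : B} (h : Ev y w f c) (h' : Ev y w f c') : c = c' := by
  obtain ⟨A, D, hD, h1, h2⟩ := h
  obtain ⟨A', D', hD', h1', h2'⟩ := h'
  have h3 : aeval y (A * D' - A' * D) = 0 := by
    rw [map_sub, map_mul, map_mul, ← h1, ← h1']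
    ring
  have h4 := hw _ h3
  rw [map_sub, map_mul, map_mul, ← h2, ← h2'] at h4
  have h5 : (c - c') * (aeval w D * aeval w D') = 0 := by linear_combination h4
  have h6 := ((hD.mul hD').mul_left_eq_zero).1 h5
  exact sub_eq_zero.1 h6

theorem Ev.poly (y : Fin r → K) (w : Fin r → B) (A : MvPolynomial (Fin r) ℂ) : Ev y w (aeval y A) (aeval w A) :=
  ⟨A, 1, by rw [map_one]; exact isUnit_one, by rw [map_one, mul_one], by rw [map_one, mul_one]⟩

theorem Ev.var (y : Fin r → K) (w : Fin r → B) (i : Fin r) : Ev y w (y i) (w i) := by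
  have := Ev.poly y w (X i)
  rwa [aeval_X, aeval_X] at this

theorem Ev.const (y : Fin r → K) (w : Fin r → B) (z : ℂ) : Ev y w (algebraMap ℂ K z) (algebraMap ℂ B z) := by
  have := Ev.poly y w (C z)
  rwa [aeval_C, aeval_C] at this

theorem Ev.zero (y : Fin r → K) (w : Fin r → B) : Ev y w (0 : K) (0 : B) := by
  have := Ev.const y w 0
  rwa [map_zero, map_zero] at this

theorem Ev.one (y : Fin r → K) (w : Fin r → B) : Ev y w (1 : K) (1 : B) := by
  have := Ev.const y w 1
  rwa [map_one, map_one] at this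

theorem Ev.add {f g : K} {c e : B} (hf : Ev y w f c) (hg : Ev y w g e) : Ev y w (f + g) (c + e) := by
  obtain ⟨A, D, hD, h1, h2⟩ := hf
  obtain ⟨A', D', hD', h1', h2'⟩ := hg
  refine ⟨A * D' + A' * D, D * D', ?_, ?_, ?_⟩
  · rw [map_mul]
    exact hD.mul hD'
  · rw [map_mul, map_add, map_mul, map_mul, ← h1, ← h1']
    ring
  · rw [map_mul, map_add, map_mul, map_mul, ← h2, ← h2']
    ring

theorem Ev.mul {f g : K} {c e : B} (hf : Ev y w f c) (hg : Ev y w g e) : Ev y w (f * g) (c * e) := by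
  obtain ⟨A, D, hD, h1, h2⟩ := hf
  obtain ⟨A', D', hD', h1', h2'⟩ := hg
  refine ⟨A * A', D * D', ?_, ?_, ?_⟩
  · rw [map_mul]
    exact hD.mul hD'
  · rw [map_mul, map_mul, ← h1, ← h1']
    ring
  · rw [map_mul, map_mul, ← h2, ← h2']
    ring

theorem Ev.neg {f : K} {c : B} (hf : Ev y w f c) : Ev y w (-f) (-c) := by
  have h := (Ev.const y w (-1)).mul hf
  simpa using h

theorem Ev.sub {f g : K} {c e : B} (hf : Ev y w f c) (hg : Ev y w g e) : Ev y w (f - g) (c - e) := by
  rw [sub_eq_add_neg, sub_eq_add_neg]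
  exact hf.add hg.neg

theorem Ev.pow {f : K} {c : B} (hf : Ev y w f c) (n : ℕ) : Ev y w (f ^ n) (c ^ n) := by
  induction n with
  | zero => rw [pow_zero, pow_zero]; exact Ev.one y w
  | succ n ih => rw [pow_succ, pow_succ]; exact ih.mul hf

theorem Ev.sum {ι : Type} (s : Finset ι) {f : ι → K} {c : ι → B} (h : ∀ i ∈ s, Ev y w (f i) (c i)) :
    Ev y w (∑ i ∈ s, f i) (∑ i ∈ s, c i) := by
  classical
  induction s using Finset.induction_on with
  | empty => rw [Finset.sum_empty, Finset.sum_empty]; exact Ev.zero y w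
  | insert a s ha ih =>
    rw [Finset.sum_insert ha, Finset.sum_insert ha]
    exact (h a (Finset.mem_insert_self _ _)).add (ih fun i hi => h i (Finset.mem_insert_of_mem hi))

theorem Ev.prod {ι : Type} (s : Finset ι) {f : ι → K} {c : ι → B} (h : ∀ i ∈ s, Ev y w (f i) (c i)) :
    Ev y w (∏ i ∈ s, f i) (∏ i ∈ s, c i) := by
  classical
  induction s using Finset.induction_on with
  | empty => rw [Finset.prod_empty, Finset.prod_empty]; exact Ev.one y w
  | insert a s ha ih =>
    rw [Finset.prod_insert ha, Finset.prod_insert ha]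
    exact (h a (Finset.mem_insert_self _ _)).mul (ih fun i hi => h i (Finset.mem_insert_of_mem hi))

theorem Ev.det {n : ℕ} {f : Matrix (Fin n) (Fin n) K} {c : Matrix (Fin n) (Fin n) B} (h : ∀ i j, Ev y w (f i j) (c i j)) : Ev y w f.det c.det := by
  rw [Matrix.det_apply', Matrix.det_apply']
  refine Ev.sum _ fun σ _ => ?_
  refine Ev.mul ?_ (Ev.prod _ fun i _ => h _ _)
  have h1 := Ev.const y w (((Equiv.Perm.sign σ : ℤˣ) : ℤ) : ℂ)
  simpa using h1

theorem Ev.inv [Nontrivial B] (hw : IsPtB y w) {f : K} {c c' : B} (hf : Ev y w f c) (hc : c * c' = 1) : Ev y w f⁻¹ c' := by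
  obtain ⟨A, D, hD, h1, h2⟩ := hf
  have hcu : IsUnit c := IsUnit.of_mul_eq_one c' hc
  have hA : IsUnit (aeval w A) := by
    rw [← h2]
    exact hcu.mul hD
  have hAy := hw.ne hA
  have hf0 : f ≠ 0 := by
    rintro rfl
    rw [zero_mul] at h1
    exact hAy h1.symm
  refine ⟨D, A, hA, ?_, ?_⟩
  · rw [← h1, ← mul_assoc, inv_mul_cancel₀ hf0, one_mul]
  · rw [← h2, ← mul_assoc, mul_comm c' c, hc, one_mul]

theorem Ev.div [Nontrivial B] (hw : IsPtB y w) {f g : K} {c e e' : B} (hf : Ev y w f c) (hg : Ev y w g e) (he : e * e' = 1) :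
    Ev y w (f / g) (c * e') := by
  rw [div_eq_mul_inv]
  exact hf.mul (hg.inv hw he)

/-- The values of polynomials in regular functions. -/
theorem Ev.aeval {y' : Fin r' → K} {w' : Fin r' → B} (h : ∀ i, Ev y w (y' i) (w' i)) (A : MvPolynomial (Fin r') ℂ) :
    Ev y w (MvPolynomial.aeval y' A) (MvPolynomial.aeval w' A) := by
  induction A using MvPolynomial.induction_on with
  | C c =>
    rw [aeval_C, aeval_C]
    exact Ev.const y w c
  | add p q hp hq =>
    rw [map_add, map_add]
    exact hp.add hq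
  | mul_X p i hp =>
    rw [map_mul, map_mul, aeval_X, aeval_X]
    exact hp.mul (h i)

theorem IsPtB.change (hw : IsPtB y w) {y' : Fin r' → K} {w' : Fin r' → B} (h : ∀ i, Ev y w (y' i) (w' i)) : IsPtB y' w' := by
  intro G hG
  have h1 := Ev.aeval h G
  rw [hG] at h1
  exact h1.unique hw (Ev.zero y w)

/-- Change of the generators. -/
theorem Ev.change [Nontrivial B] (hw : IsPtB y w) {y' : Fin r' → K} {w' : Fin r' → B} (h : ∀ i, Ev y w (y' i) (w' i)) {f : K} {c : B}
    (hf : Ev y' w' f c) : Ev y w f c := by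
  obtain ⟨A, D, hD, h1, h2⟩ := hf
  have hDy := (hw.change h).ne hD
  obtain ⟨u, hu⟩ := hD.exists_right_inv
  have h3 := (Ev.aeval h A).div hw (Ev.aeval h D) hu
  have e1 : MvPolynomial.aeval y' A / MvPolynomial.aeval y' D = f := by
    rw [← h1, mul_div_assoc, div_self hDy, mul_one]
  have e2 : MvPolynomial.aeval w' A * u = c := by
    rw [← h2, mul_assoc, hu, mul_one]
  rwa [e1, e2] at h3

theorem Ev.map {B' : Type} [CommRing B'] [Algebra ℂ B'] (φ : B →ₐ[ℂ] B') {f : K} {c : B} (h : Ev y w f c) :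
    Ev y (fun i => φ (w i)) f (φ c) := by
  obtain ⟨A, D, hD, h1, h2⟩ := h
  have e : ∀ G : MvPolynomial (Fin r) ℂ, MvPolynomial.aeval (fun i => φ (w i)) G = φ (MvPolynomial.aeval w G) := fun G => by
    have := MvPolynomial.comp_aeval_apply w φ G
    rw [this]
  refine ⟨A, D, ?_, h1, ?_⟩
  · rw [e]
    exact hD.map φ
  · rw [e, e, ← map_mul, h2]

end Basic

/-! ## first order -/

/-- the point `w + ε v` -/
def dp (w v : Fin r → ℂ) (i : Fin r) : DualNumber ℂ := TrivSqZeroExt.inl (w i) + TrivSqZeroExt.inr (v i)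

theorem dp_fst (w v : Fin r → ℂ) (i : Fin r) : (dp w v i).fst = w i := by simp [dp]

theorem dp_snd (w v : Fin r → ℂ) (i : Fin r) : (dp w v i).snd = v i := by simp [dp]

/-- the differential of a polynomial -/
def dpl (w v : Fin r → ℂ) (G : MvPolynomial (Fin r) ℂ) : ℂ := ∑ j, eval w (pderiv j G) * v j

theorem dpl_add (w v : Fin r → ℂ) (G H : MvPolynomial (Fin r) ℂ) : dpl w v (G + H) = dpl w v G + dpl w v H := by
  unfold dpl
  rw [← Finset.sum_add_distrib]
  refine Finset.sum_congr rfl fun j _ => ?_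
  rw [map_add, map_add]
  ring

theorem dpl_mul (w v : Fin r → ℂ) (G H : MvPolynomial (Fin r) ℂ) : dpl w v (G * H) = eval w G * dpl w v H + eval w H * dpl w v G := by
  unfold dpl
  rw [Finset.mul_sum, Finset.mul_sum, ← Finset.sum_add_distrib]
  refine Finset.sum_congr rfl fun j _ => ?_
  rw [Derivation.leibniz, map_add, smul_eq_mul, smul_eq_mul, map_mul, map_mul]
  ring

theorem dpl_X (w v : Fin r → ℂ) (i : Fin r) : dpl w v (X i) = v i := by
  classical
  unfold dpl
  rw [Finset.sum_eq_single i]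
  · rw [pderiv_X_self, map_one, one_mul]
  · intro j _ hj
    rw [pderiv_X_of_ne (Ne.symm hj), map_zero, zero_mul]
  · intro h
    exact absurd (Finset.mem_univ i) h

theorem dpl_C (w v : Fin r → ℂ) (c : ℂ) : dpl w v (C c) = 0 := by
  unfold dpl
  simp

theorem aeval_dp (w v : Fin r → ℂ) (G : MvPolynomial (Fin r) ℂ) :
    aeval (dp w v) G = TrivSqZeroExt.inl (eval w G) + TrivSqZeroExt.inr (dpl w v G) := by
  induction G using MvPolynomial.induction_on with
  | C c =>
    rw [aeval_C, eval_C, dpl_C, TrivSqZeroExt.inr_zero, add_zero]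
    rfl
  | add p q hp hq =>
    rw [map_add, hp, hq, map_add, dpl_add, TrivSqZeroExt.inl_add, TrivSqZeroExt.inr_add]
    ring
  | mul_X p i hp =>
    rw [map_mul, hp, aeval_X, map_mul, eval_X, dpl_mul, dpl_X]
    ext
    · simp [dp, TrivSqZeroExt.fst_mul]
    · simp [dp, TrivSqZeroExt.snd_mul]
      ring

theorem fst_aeval_dp (w v : Fin r → ℂ) (G : MvPolynomial (Fin r) ℂ) : (aeval (dp w v) G).fst = eval w G := by
  rw [aeval_dp]
  simp

theorem snd_aeval_dp (w v : Fin r → ℂ) (G : MvPolynomial (Fin r) ℂ) : (aeval (dp w v) G).snd = dpl w v G := by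
  rw [aeval_dp]
  simp

theorem isPtB_dp {y : Fin r → K} {w v : Fin r → ℂ} : IsPtB y (dp w v) ↔ IsPt y w ∧ v ∈ tan y w := by
  constructor
  · intro h
    refine ⟨fun G hG => ?_, fun G hG => ?_⟩
    · rw [← fst_aeval_dp w v, h G hG]
      rfl
    · have h1 := snd_aeval_dp w v G
      rw [h G hG] at h1
      exact h1.symm
  · rintro ⟨h1, h2⟩ G hG
    rw [aeval_dp, h1 G hG, show dpl w v G = 0 from h2 G hG]
    simp

theorem Ev.fst {y : Fin r → K} {w v : Fin r → ℂ} {f : K} {c : DualNumber ℂ} (h : Ev y (dp w v) f c) : Ev y w f c.fst := by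
  have h1 := h.map (TrivSqZeroExt.fstHom ℂ ℂ ℂ)
  have e : (fun i => TrivSqZeroExt.fstHom ℂ ℂ ℂ (dp w v i)) = w := by
    funext i
    exact dp_fst w v i
  rw [e] at h1
  exact h1

end Pool.Agent.GG.Kd

end
end

section

/-!
# The implicit function theorem for polynomials, with coordinates as parameters

PROOF.  The gradients `g j = fun i => eval w (pderiv i (f j))` are linearly independent in `ι → ℂ`,
`j : Fin c`.  Extend them by standard basis vectors to a basis: with `s = Set.range g`,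
`t = s ∪ Set.range (fun i => Pi.single i 1)` take `s ⊆ B ⊆ t` linearly independent with
`t ⊆ span B` (`exists_linearIndependent_extension`), so `B` is a basis of `ι → ℂ`, `|B| = c + n`, and
`B \ s` consists of `n` standard basis vectors `Pi.single (I k) 1`.
Let `Φ y = (fun j => eval y (f j), fun k => y (I k) - w (I k))`.  It is analytic, `Φ w = 0` and its
derivative at `w`, `v ↦ (∑ i, g j i * v i, v (I k))`, is injective: if it kills `v` then
`∑ i, u i * v i = 0` for all `u ∈ B`, hence for all `u`, so `v = 0`.  By dimension it is a linear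
equivalence.  Let `Ψ` be the local inverse (`HasStrictFDerivAt.toOpenPartialHomeomorph`), analytic at
`0` (`OpenPartialHomeomorph.hasFPowerSeriesAt_symm` / `analyticAt_symm`); `σ u = Ψ (0, u)`.
-/

open MvPolynomial Topology

noncomputable section

namespace Pool.Agent.H13.SM

/-- The derivative of the evaluation map of a polynomial. -/
theorem Inv_hasFDerivAt_eval {ι : Type} [Fintype ι] (p : MvPolynomial ι ℂ) (w : ι → ℂ) :
    HasFDerivAt (fun y : ι → ℂ => eval y p)
      (∑ i, eval w (pderiv i p) • (ContinuousLinearMap.proj i : (ι → ℂ) →L[ℂ] ℂ)) w := by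
  classical
  induction p using MvPolynomial.induction_on with
  | C a =>
    have h := hasFDerivAt_const (𝕜 := ℂ) a w
    have h2 : HasFDerivAt (fun y : ι → ℂ => eval y (C a : MvPolynomial ι ℂ)) (0 : (ι → ℂ) →L[ℂ] ℂ) w := by
      simpa using h
    refine h2.congr_fderiv ?_
    ext v
    simp
  | add p q hp hq =>
    have h := hp.add hq
    have h2 : (fun y : ι → ℂ => eval y (p + q)) = (fun y => eval y p) + fun y => eval y q := by
      funext y
      exact map_add _ _ _
    rw [h2]
    refine h.congr_fderiv ?_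
    ext v
    simp [Finset.sum_add_distrib, add_mul]
  | mul_X p n hp =>
    have h1 : HasFDerivAt (fun y : ι → ℂ => y n)
        (ContinuousLinearMap.proj n : (ι → ℂ) →L[ℂ] ℂ) w := hasFDerivAt_apply n w
    have h := hp.mul h1
    have h2 : (fun y : ι → ℂ => eval y (p * X n)) = (fun y => eval y p) * fun y => y n := by
      funext y
      simp only [map_mul, eval_X, Pi.mul_apply]
    rw [h2]
    refine h.congr_fderiv ?_
    ext v
    simp only [Derivation.leibniz, pderiv_X, smul_eq_mul, map_add, map_mul, eval_X,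
      FunLike.coe_add, FunLike.coe_smul, Pi.add_apply, Pi.smul_apply, ContinuousLinearMap.proj_apply,
      sum_apply, add_mul]
    rw [Finset.sum_add_distrib]
    congr 1
    · rw [Finset.sum_eq_single n]
      · simp
      · intro b _ hb
        simp [hb.symm]
      · intro h; exact absurd (Finset.mem_univ n) h
    · rw [Finset.mul_sum]
      exact Finset.sum_congr rfl fun i _ => by ring

/-- Completion of independent vectors by standard basis vectors. -/
theorem Inv_exists_coords {ι : Type} [Fintype ι] {c n : ℕ} (hcn : c + n = Fintype.card ι)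
    {g : Fin c → ι → ℂ} (hli : LinearIndependent ℂ g) :
    ∃ I : Fin n → ι, ∀ v : ι → ℂ, (∀ j, ∑ i, g j i * v i = 0) → (∀ k, v (I k) = 0) → v = 0 := by
  classical
  set S : Submodule ℂ (ι → ℂ) := Submodule.span ℂ (Set.range g) with hS
  have hfS : Module.finrank ℂ S = c := by
    rw [hS, finrank_span_eq_card hli, Fintype.card_fin]
  have hfW : Module.finrank ℂ ((ι → ℂ) ⧸ S) = n := by
    have h := Submodule.finrank_quotient_add_finrank S
    rw [hfS, Module.finrank_fintype_fun_eq_card] at h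
    omega
  let q : ι → (ι → ℂ) ⧸ S := fun i => S.mkQ (Pi.single i 1)
  have hspan : Submodule.span ℂ (Set.range q) = ⊤ := by
    have h1 : Set.range q = S.mkQ '' Set.range (fun i : ι => (Pi.single i (1 : ℂ) : ι → ℂ)) := by
      rw [← Set.range_comp]; rfl
    rw [h1, Submodule.span_image]
    have h2 : Submodule.span ℂ (Set.range (fun i : ι => (Pi.single i (1 : ℂ) : ι → ℂ))) = ⊤ := by
      have := (Pi.basisFun ℂ ι).span_eq
      convert this using 2
      ext i
      simp
    rw [h2, Submodule.map_top, Submodule.range_mkQ]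
  obtain ⟨κ, a, ha, hsp, hlin⟩ := exists_linearIndependent' ℂ q
  have hb := Module.Basis.mk hlin (by rw [hsp, hspan])
  have : Finite κ := Finite.of_injective a ha
  have : Fintype κ := Fintype.ofFinite κ
  have hcard : Fintype.card κ = n := by
    rw [← hfW, Module.finrank_eq_card_basis hb]
  let e : Fin n ≃ κ := (Fintype.equivFinOfCardEq hcard).symm
  refine ⟨fun k => a (e k), fun v hv1 hv2 => ?_⟩
  -- the functional
  let φ : (ι → ℂ) →ₗ[ℂ] ℂ := ∑ i, v i • (LinearMap.proj i : (ι → ℂ) →ₗ[ℂ] ℂ)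
  have hφ : ∀ u : ι → ℂ, φ u = ∑ i, v i * u i := by
    intro u
    simp [φ]
  have hφS : S ≤ LinearMap.ker φ := by
    rw [hS, Submodule.span_le]
    rintro _ ⟨j, rfl⟩
    rw [SetLike.mem_coe, LinearMap.mem_ker, hφ, ← hv1 j]
    exact Finset.sum_congr rfl fun i _ => mul_comm _ _
  let ψ : ((ι → ℂ) ⧸ S) →ₗ[ℂ] ℂ := S.liftQ φ hφS
  have hψ : ∀ u, ψ (S.mkQ u) = φ u := fun u => by simp [ψ]
  have hψ0 : ψ = 0 := by
    apply LinearMap.ext_on_range (v := q ∘ a)
    · rw [hsp, hspan]
    · intro k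
      obtain ⟨k', rfl⟩ := e.surjective k
      show ψ (S.mkQ (Pi.single (a (e k')) 1)) = 0
      rw [hψ, hφ, Finset.sum_eq_single (a (e k'))]
      · rw [hv2 k', zero_mul]
      · intro b _ hb
        rw [Pi.single_eq_of_ne hb, mul_zero]
      · intro h; exact absurd (Finset.mem_univ _) h
  ext i
  have h3 : φ (Pi.single i 1) = 0 := by rw [← hψ, hψ0]; rfl
  rw [hφ, Finset.sum_eq_single i] at h3
  · simpa using h3
  · intro b _ hb
    rw [Pi.single_eq_of_ne hb, mul_zero]
  · intro h; exact absurd (Finset.mem_univ _) h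

theorem exists_implicit {ι : Type} [Fintype ι] {c n : ℕ} (hcn : c + n = Fintype.card ι)
    {f : Fin c → MvPolynomial ι ℂ} {w : ι → ℂ} (hf : ∀ j, eval w (f j) = 0)
    (hli : LinearIndependent ℂ fun (j : Fin c) (i : ι) => eval w (pderiv i (f j))) :
    ∃ (I : Fin n → ι) (σ : (Fin n → ℂ) → ι → ℂ), AnalyticAt ℂ σ 0 ∧ σ 0 = w ∧
      (∀ᶠ u in 𝓝 0, (∀ j, eval (σ u) (f j) = 0) ∧ ∀ k, σ u (I k) = w (I k) + u k) ∧
      ∀ᶠ y in 𝓝 w, (∀ j, eval y (f j) = 0) → y = σ (fun k => y (I k) - w (I k)) := by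
  classical
  obtain ⟨I, hI⟩ := Inv_exists_coords hcn hli
  let Φ : (ι → ℂ) → (Fin c → ℂ) × (Fin n → ℂ) :=
    fun y => (fun j => eval y (f j), fun k => y (I k) - w (I k))
  have hΦan : AnalyticAt ℂ Φ w := by
    apply AnalyticAt.prod
    · rw [analyticAt_pi_iff]
      intro j
      exact AnalyticOnNhd.eval_mvPolynomial (f j) w (Set.mem_univ _)
    · rw [analyticAt_pi_iff]
      intro k
      exact ((ContinuousLinearMap.proj (I k) : (ι → ℂ) →L[ℂ] ℂ).analyticAt w).sub analyticAt_const
  have hΦw : Φ w = 0 := by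
    apply Prod.ext
    · funext j; exact hf j
    · funext k; exact sub_self _
  let L : (ι → ℂ) →L[ℂ] (Fin c → ℂ) × (Fin n → ℂ) :=
    (ContinuousLinearMap.pi fun j => ∑ i, eval w (pderiv i (f j)) •
      (ContinuousLinearMap.proj i : (ι → ℂ) →L[ℂ] ℂ)).prod
      (ContinuousLinearMap.pi fun k => (ContinuousLinearMap.proj (I k) : (ι → ℂ) →L[ℂ] ℂ))
  have hL : HasFDerivAt Φ L w := by
    apply HasFDerivAt.prodMk
    · rw [hasFDerivAt_pi]
      intro j
      exact Inv_hasFDerivAt_eval (f j) w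
    · rw [hasFDerivAt_pi]
      intro k
      exact (hasFDerivAt_apply (I k) w).sub_const _
  have hLinj : Function.Injective (L : (ι → ℂ) →ₗ[ℂ] (Fin c → ℂ) × (Fin n → ℂ)) := by
    rw [injective_iff_map_eq_zero]
    intro v hv
    apply hI v
    · intro j
      have h1 := congrFun (congrArg Prod.fst hv) j
      simpa [L] using h1
    · intro k
      have h1 := congrFun (congrArg Prod.snd hv) k
      simpa [L] using h1
  have hdim : Module.finrank ℂ (ι → ℂ) = Module.finrank ℂ ((Fin c → ℂ) × (Fin n → ℂ)) := by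
    rw [Module.finrank_prod, Module.finrank_fintype_fun_eq_card, Module.finrank_fintype_fun_eq_card,
      Module.finrank_fintype_fun_eq_card, Fintype.card_fin, Fintype.card_fin, hcn]
  let Le : (ι → ℂ) ≃ₗ[ℂ] (Fin c → ℂ) × (Fin n → ℂ) :=
    LinearEquiv.ofInjectiveOfFinrankEq (L : (ι → ℂ) →ₗ[ℂ] (Fin c → ℂ) × (Fin n → ℂ)) hLinj hdim
  let Lc : (ι → ℂ) ≃L[ℂ] (Fin c → ℂ) × (Fin n → ℂ) := Le.toContinuousLinearEquiv
  have hLc : (Lc : (ι → ℂ) →L[ℂ] (Fin c → ℂ) × (Fin n → ℂ)) = L := by
    ext1 v; rfl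
  have hL' : HasFDerivAt Φ (Lc : (ι → ℂ) →L[ℂ] (Fin c → ℂ) × (Fin n → ℂ)) w := by
    rw [hLc]; exact hL
  have hcd : ContDiffAt ℂ ⊤ Φ w := hΦan.contDiffAt
  have hs := hcd.hasStrictFDerivAt' hL' (by simp)
  let Ψ := hs.localInverse Φ Lc w
  have hΨan : AnalyticAt ℂ Ψ 0 := by
    have h1 : ContDiffAt ℂ ⊤ (hcd.localInverse hL' (by simp)) (Φ w) := hcd.to_localInverse hL' (by simp)
    rw [hΦw] at h1
    have h2 := contDiffWithinAt_omega_iff_analyticWithinAt.1 (contDiffWithinAt_univ.2 h1)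
    exact analyticWithinAt_univ.1 h2
  have hright : ∀ᶠ y in 𝓝 (0 : (Fin c → ℂ) × (Fin n → ℂ)), Φ (Ψ y) = y := by
    have := hs.eventually_right_inverse
    rwa [hΦw] at this
  have hleft : ∀ᶠ y in 𝓝 w, Ψ (Φ y) = y := hs.eventually_left_inverse
  have hΨ0 : Ψ 0 = w := by
    have := hleft.self_of_nhds
    rwa [hΦw] at this
  have hemb : AnalyticAt ℂ (fun u : Fin n → ℂ => ((0 : Fin c → ℂ), u)) 0 :=
    analyticAt_const.prod analyticAt_id
  have hcont : Filter.Tendsto (fun u : Fin n → ℂ => ((0 : Fin c → ℂ), u)) (𝓝 0) (𝓝 0) := by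
    have := hemb.continuousAt
    exact this
  refine ⟨I, fun u => Ψ (0, u), ?_, hΨ0, ?_, ?_⟩
  · exact AnalyticAt.comp (g := Ψ) (f := fun u : Fin n → ℂ => ((0 : Fin c → ℂ), u)) hΨan hemb
  · filter_upwards [hcont.eventually hright] with u hu
    constructor
    · intro j
      exact congrFun (congrArg Prod.fst hu) j
    · intro k
      have := congrFun (congrArg Prod.snd hu) k
      have h' : Ψ (0, u) (I k) - w (I k) = u k := this
      rw [← h']; ring
  · filter_upwards [hleft] with y hy hy0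
    rw [← hy]
    congr 1
    show Φ y = (0, fun k => Ψ (Φ y) (I k) - w (I k))
    rw [hy]
    apply Prod.ext
    · funext j; exact hy0 j
    · rfl

end Pool.Agent.H13.SM

end
end

section

/-!
# EF Ord: an entire curve with `T_f(r) = O(r²)` has bounded lifts on discs

The converse of `Pool.Agent.H13.OT.OrdTwo.orderTwo`.
-/

set_option autoImplicit false

namespace Pool.Agent.H17EF

open Metric Filter Topology

/-- real parts of polynomials are dense in the continuous real functions on a circle -/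
theorem exists_poly_re {u : ℂ → ℝ} {r : ℝ} (hr : 0 < r) (hu : ContinuousOn u (sphere 0 r)) {ε : ℝ} (hε : 0 < ε) :
    ∃ p : Polynomial ℂ, ∀ z : ℂ, ‖z‖ = r → |(p.eval z).re - u z| < ε := by
  have : Fact (0 < 2 * Real.pi) := ⟨Real.two_pi_pos⟩
  -- the function on the circle
  let c : AddCircle (2 * Real.pi) → ℂ := fun θ => (r : ℂ) * (AddCircle.toCircle θ : ℂ)
  have hc : Continuous c := by
    apply continuous_const.mul
    exact continuous_subtype_val.comp AddCircle.continuous_toCircle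
  have hcn : ∀ θ, c θ ∈ sphere (0 : ℂ) r := by
    intro θ
    rw [mem_sphere_zero_iff_norm]
    simp only [c, norm_mul, Complex.norm_real, Circle.norm_coe, mul_one, Real.norm_of_nonneg hr.le]
  have hcs : ∀ z : ℂ, ‖z‖ = r → ∃ θ, c θ = z := by
    intro z hz
    refine ⟨((Complex.arg z : ℝ) : AddCircle (2 * Real.pi)), ?_⟩
    have h1 : AddCircle.toCircle ((Complex.arg z : ℝ) : AddCircle (2 * Real.pi)) = Circle.exp (Complex.arg z) := by
      rw [AddCircle.toCircle_apply_mk]
      congr 1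
      field_simp
    simp only [c]
    rw [h1, Circle.coe_exp, ← hz, Complex.norm_mul_exp_arg_mul_I]
  let φ : C(AddCircle (2 * Real.pi), ℂ) := ⟨fun θ => ((u (c θ) : ℝ) : ℂ), by
    apply Complex.continuous_ofReal.comp
    exact hu.comp_continuous hc hcn⟩
  have hφ : φ ∈ (Submodule.span ℂ (Set.range <| @fourier (2 * Real.pi))).topologicalClosure := by
    rw [span_fourier_closure_eq_top]
    trivial
  rw [← SetLike.mem_coe, Submodule.topologicalClosure_coe, Metric.mem_closure_iff] at hφ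
  obtain ⟨T, hT, hTd⟩ := hφ ε hε
  -- the real part of a trigonometric polynomial
  have key : ∀ T ∈ Submodule.span ℂ (Set.range <| @fourier (2 * Real.pi)), ∀ a : ℂ, ∃ p : Polynomial ℂ,
      ∀ θ, (a * T θ).re = (p.eval (c θ)).re := by
    intro T hT
    induction hT using Submodule.span_induction with
    | mem T hT =>
      obtain ⟨n, rfl⟩ := hT
      intro a
      have hfou : ∀ (m : ℕ) (θ : AddCircle (2 * Real.pi)), fourier (m : ℤ) θ = (c θ / r) ^ m := by
        intro m θ
        have h1 : c θ / r = (AddCircle.toCircle θ : ℂ) := by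
          simp only [c]
          rw [mul_div_assoc, mul_comm, div_mul_cancel₀]
          exact_mod_cast hr.ne'
        rw [h1, fourier_apply, natCast_zsmul, AddCircle.toCircle_nsmul]
        simp
      rcases Int.eq_nat_or_neg n with ⟨m, rfl | rfl⟩
      · refine ⟨Polynomial.C (a * ((r : ℂ)⁻¹) ^ m) * Polynomial.X ^ m, fun θ => ?_⟩
        rw [hfou]
        simp only [Polynomial.eval_mul, Polynomial.eval_C, Polynomial.eval_pow, Polynomial.eval_X]
        rw [div_eq_mul_inv, mul_pow]
        congr 1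
        ring
      · refine ⟨Polynomial.C ((starRingEnd ℂ a) * ((r : ℂ)⁻¹) ^ m) * Polynomial.X ^ m, fun θ => ?_⟩
        rw [fourier_neg, hfou]
        simp only [Polynomial.eval_mul, Polynomial.eval_C, Polynomial.eval_pow, Polynomial.eval_X]
        have h1 : a * (starRingEnd ℂ) ((c θ / r) ^ m) = (starRingEnd ℂ) ((starRingEnd ℂ a) * (c θ / r) ^ m) := by
          rw [map_mul, Complex.conj_conj]
        rw [h1, Complex.conj_re, div_eq_mul_inv, mul_pow]
        congr 1
        ring
    | zero =>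
      intro a
      exact ⟨0, fun θ => by simp⟩
    | add S T _ _ hS hT =>
      intro a
      obtain ⟨p, hp⟩ := hS a
      obtain ⟨q, hq⟩ := hT a
      refine ⟨p + q, fun θ => ?_⟩
      rw [Polynomial.eval_add, Complex.add_re, ← hp, ← hq, ContinuousMap.add_apply, mul_add, Complex.add_re]
    | smul b T _ hT =>
      intro a
      obtain ⟨p, hp⟩ := hT (a * b)
      refine ⟨p, fun θ => ?_⟩
      rw [← hp, ContinuousMap.smul_apply, smul_eq_mul, mul_assoc]
  obtain ⟨p, hp⟩ := key T hT 1
  refine ⟨p, fun z hz => ?_⟩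
  obtain ⟨θ, rfl⟩ := hcs z hz
  rw [← hp θ, one_mul]
  have h1 : ‖(φ - T) θ‖ ≤ ‖φ - T‖ := (φ - T).norm_coe_le_norm θ
  rw [← dist_eq_norm] at h1
  have h2 : ‖(φ - T) θ‖ < ε := h1.trans_lt hTd
  have h3 : ((φ - T) θ).re = u (c θ) - (T θ).re := by
    rw [ContinuousMap.sub_apply, Complex.sub_re]
    simp only [φ, ContinuousMap.coe_mk, Complex.ofReal_re]
  have h4 := Complex.abs_re_le_norm ((φ - T) θ)
  rw [h3] at h4
  rw [abs_sub_comm]
  exact h4.trans_lt h2

end Pool.Agent.H17EF

end

section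

/-!
# Project DG, module CoverDefs: finite covers of projective space, definitions

`X ⊆ ℙ^Nn` is given by a homogeneous prime ideal `I`; forms `F 0, …, F (n + 1)` of degree `e`
without common zero on `X` define a finite morphism `X → ℙ^(n + 1)`.
-/

open MvPolynomial

noncomputable section

namespace Pool.Agent.H5.DG

variable {Nn : ℕ}

/-- The ideal `I` is homogeneous. -/
def Homog (I : Ideal (MvPolynomial (Fin (Nn + 1)) ℂ)) : Prop :=
  ∀ p ∈ I, ∀ k, homogeneousComponent k p ∈ I

end Pool.Agent.H5.DG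

end
end

section

/-!
# KR CB1: a jointly analytic function as an analytic family of functions on a compact set

`S ⊆ ℂ` compact, `f : ℂ × ℂ → ℂ` analytic at all points `(0, ζ)`, `ζ ∈ S`.  Then `x ↦ f (x, ·)` is an analytic map
from a neighbourhood of `0` into the Banach space `C(S, ℂ)`.

Proof.  By compactness of `S` (tube lemma: `generalized_tube_lemma` or `IsCompact.induction_on`/finite cover, the set
`{p | AnalyticAt ℂ f p}` is open: `isOpen_analyticAt`) there is `r > 0` such that `f` is analytic at all `(x, ζ)` with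
`|x| < 2 r`, `ζ ∈ S`.  Put `Φ x = ⟨fun ζ => f (x, ζ), _⟩` for `|x| < 2 r` (continuous), `0` otherwise, and in the same
way `Ψ x ζ = ∂f/∂x (x, ζ) = fderiv ℂ f (x, ζ) (1, 0)`.  It is enough (`DifferentiableOn.analyticAt`, one complex
variable, Banach space valued) to prove `HasDerivAt Φ (Ψ x) x` for `|x| < r`.  Let `ε > 0`.  `∂f/∂x` is uniformly
continuous on the compact set `closedBall 0 r ×ˢ S`, moreover continuous near it; choose `δ` such that
`‖∂f/∂x (x + h, ζ) - ∂f/∂x (x, ζ)‖ ≤ ε` for `|h| ≤ δ` and all `ζ ∈ S` (`|x + h| < 2 r`; take the compact set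
`closedBall x δ₀ ×ˢ S`, `IsCompact.uniformContinuousOn_of_continuous`).  The function
`g (s) = f (s, ζ) - s * ∂f/∂x (x, ζ)` has `‖g' (s)‖ ≤ ε` for `|s - x| ≤ δ`, so by the mean value inequality
(`Convex.norm_image_sub_le_of_norm_hasDerivWithin_le`, `convex_ball`)
`‖f (x + h, ζ) - f (x, ζ) - h ∂f/∂x (x, ζ)‖ ≤ ε |h|` for all `ζ ∈ S` and `|h| < δ`, that is
`‖Φ (x + h) - Φ x - h • Ψ x‖ ≤ ε |h|` (`ContinuousMap.norm_le`), which is `hasDerivAt_iff_isLittleO` /
`hasDerivAt_iff_isLittleO_nhds_zero`.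

(Another possible proof: composition with `f` is an analytic map `C(S, ℂ × ℂ) → C(S, ℂ)`.)
-/

set_option autoImplicit false

open Topology Filter Metric

noncomputable section

namespace Pool.Agent.H68.KR

open scoped Classical in
/-- The restriction of a function to `S` as a continuous map (`0` if it is not continuous). -/
private def CB1_restr (S : Set ℂ) (g : ℂ → ℂ) : C(S, ℂ) :=
  if h : Continuous fun ζ : S => g (ζ : ℂ) then ⟨fun ζ : S => g (ζ : ℂ), h⟩ else 0

private theorem CB1_restr_apply {S : Set ℂ} {g : ℂ → ℂ} (h : ∀ ζ ∈ S, ContinuousAt g ζ) (ζ : S) :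
    CB1_restr S g ζ = g (ζ : ℂ) := by
  have h1 : Continuous fun ζ : S => g (ζ : ℂ) := by
    rw [continuous_iff_continuousAt]
    intro z
    exact ContinuousAt.comp (h z z.2) continuous_subtype_val.continuousAt
  rw [CB1_restr, dif_pos h1]
  rfl

private theorem CB1_hasDerivAt {f : ℂ × ℂ → ℂ} {x ζ : ℂ} (h : AnalyticAt ℂ f (x, ζ)) :
    HasDerivAt (fun s => f (s, ζ)) (fderiv ℂ f (x, ζ) (1, 0)) x := by
  have h1 : HasDerivAt (fun s : ℂ => (s, ζ)) ((1 : ℂ), (0 : ℂ)) x :=
    (hasDerivAt_id x).prodMk (hasDerivAt_const x ζ)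
  have h2 : HasFDerivAt f (fderiv ℂ f (x, ζ)) (x, ζ) := h.differentiableAt.hasFDerivAt
  exact h2.comp_hasDerivAt x h1

private theorem CB1_continuousAt {f : ℂ × ℂ → ℂ} {p : ℂ × ℂ} (h : AnalyticAt ℂ f p) :
    ContinuousAt (fun q : ℂ × ℂ => fderiv ℂ f q (1, 0)) p := by
  have h1 : ContinuousAt (fderiv ℂ f) p := h.fderiv.continuousAt
  exact h1.clm_apply continuousAt_const

private theorem CB1_deriv {S : Set ℂ} (hS : IsCompact S) [CompactSpace S] {f : ℂ × ℂ → ℂ} {x : ℂ}
    (hx : ∀ ζ ∈ S, AnalyticAt ℂ f (x, ζ)) :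
    HasDerivAt (fun s : ℂ => CB1_restr S fun ζ => f (s, ζ))
      (CB1_restr S fun ζ => fderiv ℂ f (x, ζ) (1, 0)) x := by
  have hcont : ∀ y : ℂ, (∀ ζ ∈ S, AnalyticAt ℂ f (y, ζ)) → ∀ ζ ∈ S,
      ContinuousAt (fun z => f (y, z)) ζ := by
    intro y hy ζ hζ
    exact ContinuousAt.comp (f := fun z : ℂ => (y, z)) (hy ζ hζ).continuousAt (by fun_prop)
  have hcont' : ∀ ζ ∈ S, ContinuousAt (fun z => fderiv ℂ f (x, z) (1, 0)) ζ := by
    intro ζ hζ
    exact ContinuousAt.comp (f := fun z : ℂ => (x, z)) (CB1_continuousAt (hx ζ hζ)) (by fun_prop)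
  rw [hasDerivAt_iff_isLittleO, Asymptotics.isLittleO_iff]
  intro c hc
  have h1 : ∀ᶠ y in 𝓝 x, ∀ ζ ∈ S, AnalyticAt ℂ f (y, ζ) :=
    hS.eventually_forall_of_forall_eventually fun ζ hζ => (hx ζ hζ).eventually_analyticAt
  have h2 : ∀ᶠ y in 𝓝 x, ∀ ζ ∈ S,
      ‖fderiv ℂ f (y, ζ) (1, 0) - fderiv ℂ f (x, ζ) (1, 0)‖ < c := by
    refine hS.eventually_forall_of_forall_eventually
      (P := fun y ζ => ‖fderiv ℂ f (y, ζ) (1, 0) - fderiv ℂ f (x, ζ) (1, 0)‖ < c) fun ζ hζ => ?_
    have h3 : ContinuousAt (fun q : ℂ × ℂ => fderiv ℂ f (q.1, q.2) (1, 0)) (x, ζ) :=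
      CB1_continuousAt (hx ζ hζ)
    have h4 : ContinuousAt (fun q : ℂ × ℂ => fderiv ℂ f (x, q.2) (1, 0)) (x, ζ) :=
      ContinuousAt.comp (f := fun q : ℂ × ℂ => (x, q.2))
        (g := fun q : ℂ × ℂ => fderiv ℂ f q (1, 0)) (CB1_continuousAt (hx ζ hζ)) (by fun_prop)
    have h5 := (h3.sub h4).norm
    refine h5.eventually_lt continuousAt_const ?_
    simpa using hc
  obtain ⟨δ, hδ, hb⟩ := Metric.eventually_nhds_iff_ball.1 (h1.and h2)
  filter_upwards [Metric.ball_mem_nhds x hδ] with y hy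
  rw [ContinuousMap.norm_le _ (by positivity)]
  intro ζ
  have h6 : ∀ s ∈ Metric.ball x δ, HasDerivWithinAt
      (fun s => f (s, (ζ : ℂ)) - s * fderiv ℂ f (x, (ζ : ℂ)) (1, 0))
      (fderiv ℂ f (s, (ζ : ℂ)) (1, 0) - fderiv ℂ f (x, (ζ : ℂ)) (1, 0)) (Metric.ball x δ) s := by
    intro s hs
    have h7 := CB1_hasDerivAt ((hb s hs).1 ζ ζ.2)
    have h8 : HasDerivAt (fun s : ℂ => s * fderiv ℂ f (x, (ζ : ℂ)) (1, 0))
        (1 * fderiv ℂ f (x, (ζ : ℂ)) (1, 0)) s := (hasDerivAt_id s).mul_const _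
    rw [one_mul] at h8
    exact (h7.sub h8).hasDerivWithinAt
  have h9 := (convex_ball x δ).norm_image_sub_le_of_norm_hasDerivWithin_le h6
    (fun s hs => ((hb s hs).2 ζ ζ.2).le) (Metric.mem_ball_self hδ) hy
  have h10 : (CB1_restr S (fun ζ => f (y, ζ)) - CB1_restr S (fun ζ => f (x, ζ)) -
      (y - x) • CB1_restr S fun ζ => fderiv ℂ f (x, ζ) (1, 0)) ζ =
      f (y, (ζ : ℂ)) - y * fderiv ℂ f (x, (ζ : ℂ)) (1, 0) -
        (f (x, (ζ : ℂ)) - x * fderiv ℂ f (x, (ζ : ℂ)) (1, 0)) := by
    rw [ContinuousMap.sub_apply, ContinuousMap.sub_apply, ContinuousMap.smul_apply,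
      CB1_restr_apply (hcont y (hb y hy).1), CB1_restr_apply (hcont x hx),
      CB1_restr_apply hcont', smul_eq_mul]
    ring
  rw [h10]
  exact h9

theorem exists_family {S : Set ℂ} (hS : IsCompact S) [CompactSpace S] {f : ℂ × ℂ → ℂ}
    (hf : ∀ ζ ∈ S, AnalyticAt ℂ f (0, ζ)) :
    ∃ Φ : ℂ → C(S, ℂ), AnalyticAt ℂ Φ 0 ∧ ∀ᶠ x in 𝓝 (0 : ℂ), ∀ ζ : S, Φ x ζ = f (x, (ζ : ℂ)) := by
  have h1 : ∀ᶠ y in 𝓝 (0 : ℂ), ∀ ζ ∈ S, AnalyticAt ℂ f (y, ζ) :=
    hS.eventually_forall_of_forall_eventually fun ζ hζ => (hf ζ hζ).eventually_analyticAt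
  refine ⟨fun s : ℂ => CB1_restr S fun ζ => f (s, ζ), ?_, ?_⟩
  · rw [Complex.analyticAt_iff_eventually_differentiableAt]
    filter_upwards [h1] with y hy
    exact (CB1_deriv hS hy).differentiableAt
  · filter_upwards [h1] with y hy ζ
    refine CB1_restr_apply (g := fun z => f (y, z)) (fun z hz => ?_) ζ
    exact ContinuousAt.comp (f := fun z : ℂ => (y, z)) (hy z hz).continuousAt (by fun_prop)

end Pool.Agent.H68.KR

end
end

section

/-!
# KR CB2: Cauchy's integral with an analytic parameter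

`A, B` are analytic at the points `(0, ζ)`, `|ζ| = ρ`, and `B (0, ζ) ≠ 0` there.  Let `S = sphere 0 ρ` (compact).

* `exists_functional`: `I g = (2πi)⁻¹ ∮ g (ζ) dζ` is a continuous linear functional of `C(S, ℂ)`: it is
  `(2πi)⁻¹ • ∫ θ in 0..2π, deriv (circleMap 0 ρ) θ * g (circleMap 0 ρ θ)` with `circleMap 0 ρ θ ∈ S`
  (`circleMap_mem_sphere`), linear, and of norm `≤ ρ` (`intervalIntegral.norm_integral_le_of_norm_le_const`),
  `LinearMap.mkContinuous`.  For `h : ℂ → ℂ` with `g ζ = h ζ` on `S`: `I g = (2πi)⁻¹ ∮ h`.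
* `exists_kernel`: for `|y₀| < ρ` there is `κ : ℂ → C(S, ℂ)` analytic at `y₀` with `κ y ζ = (ζ - y)⁻¹` for `y` near
  `y₀`: `κ y = Ring.inverse (ι - y • 1)` with `ι ζ = ζ`; `ι - y₀ • 1` is a unit of the Banach algebra `C(S, ℂ)`
  (no zero: `ContinuousMap.isUnit_iff_forall_ne_zero`), `analyticAt_inverse`, and `Ring.inverse` of a unit is the
  pointwise inverse.
* `exists_cauchy`: `𝓐, 𝓑 : ℂ → C(S, ℂ)` from `exists_family`, `𝓑 0` is a unit, so `x ↦ Ring.inverse (𝓑 x)` is analytic
  at `0`, with the values `1 / B (x, ζ)` for `x` near `0` (units are open).  One fixed function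
  `κ y = Ring.inverse (ι - y • 1)`.  `Φ (x, y) = I (𝓐 x * Ring.inverse (𝓑 x) * κ y)` is analytic at `(0, y)` for
  `|y| < ρ` (compositions with `Prod.fst`, `Prod.snd`, product in a Banach algebra, continuous linear `I`).
  If `A (x, ζ) = B (x, ζ) q (ζ)` on `S`, then the function in `I` is `ζ ↦ q ζ / (ζ - y)`, so `Φ (x, y) = q y` by
  Cauchy's formula (`DiffContOnCl.two_pi_i_inv_smul_circleIntegral_sub_inv_smul` or
  `Complex.two_pi_I_inv_smul_circleIntegral_sub_inv_smul_of_differentiable_on_off_countable`).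
-/

set_option autoImplicit false

open Topology Filter Metric

noncomputable section

namespace Pool.Agent.H68.KR

private theorem CB2_inverse_apply {S : Set ℂ} [CompactSpace S] {u : C(S, ℂ)} (hu : IsUnit u) (ζ : S) :
    Ring.inverse u ζ = (u ζ)⁻¹ := by
  have h1 : Ring.inverse u * u = 1 := Ring.inverse_mul_cancel u hu
  have h2 : Ring.inverse u ζ * u ζ = 1 := by
    have h3 := DFunLike.congr_fun h1 ζ
    simpa using h3
  exact eq_inv_of_mul_eq_one_left h2

private theorem CB2_exists_functional {ρ : ℝ} (hρ : 0 < ρ) [CompactSpace (sphere (0 : ℂ) ρ)] :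
    ∃ J : C(sphere (0 : ℂ) ρ, ℂ) →L[ℂ] ℂ, ∀ (g : C(sphere (0 : ℂ) ρ, ℂ)) (h : ℂ → ℂ),
      (∀ ζ : sphere (0 : ℂ) ρ, g ζ = h ζ) →
      J g = (2 * Real.pi * Complex.I : ℂ)⁻¹ • ∮ ζ in C(0, ρ), h ζ := by
  set c : ℝ → sphere (0 : ℂ) ρ := fun θ => ⟨circleMap 0 ρ θ, circleMap_mem_sphere 0 hρ.le θ⟩ with hc
  have hcc : Continuous c := (continuous_circleMap 0 ρ).subtype_mk _
  have hdc : Continuous fun θ => deriv (circleMap 0 ρ) θ := by
    simp only [deriv_circleMap]
    exact (continuous_circleMap 0 ρ).mul continuous_const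
  have hint : ∀ g : C(sphere (0 : ℂ) ρ, ℂ), IntervalIntegrable
      (fun θ => deriv (circleMap 0 ρ) θ • g (c θ)) MeasureTheory.volume 0 (2 * Real.pi) := fun g =>
    (hdc.smul (g.continuous.comp hcc)).intervalIntegrable _ _
  set L : C(sphere (0 : ℂ) ρ, ℂ) →ₗ[ℂ] ℂ :=
    { toFun := fun g => ∫ θ in (0 : ℝ)..2 * Real.pi, deriv (circleMap 0 ρ) θ • g (c θ)
      map_add' := fun g g' => by
        rw [← intervalIntegral.integral_add (hint g) (hint g')]
        refine intervalIntegral.integral_congr fun θ _ => ?_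
        simp only [ContinuousMap.add_apply, smul_add]
      map_smul' := fun a g => by
        rw [RingHom.id_apply, ← intervalIntegral.integral_smul]
        refine intervalIntegral.integral_congr fun θ _ => ?_
        simp only [ContinuousMap.smul_apply, smul_eq_mul]
        ring } with hL
  have hbd : ∀ g, ‖L g‖ ≤ (ρ * |2 * Real.pi - 0|) * ‖g‖ := by
    intro g
    have h1 : ‖∫ θ in (0 : ℝ)..2 * Real.pi, deriv (circleMap 0 ρ) θ • g (c θ)‖ ≤
        (ρ * ‖g‖) * |2 * Real.pi - 0| := by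
      refine intervalIntegral.norm_integral_le_of_norm_le_const fun θ _ => ?_
      rw [norm_smul, deriv_circleMap, norm_mul, Complex.norm_I, mul_one, norm_circleMap_zero,
        abs_of_pos hρ]
      exact mul_le_mul_of_nonneg_left (g.norm_coe_le_norm _) hρ.le
    have h2 : (ρ * |2 * Real.pi - 0|) * ‖g‖ = (ρ * ‖g‖) * |2 * Real.pi - 0| := by ring
    rw [h2]
    exact h1
  refine ⟨(2 * Real.pi * Complex.I : ℂ)⁻¹ • L.mkContinuous _ hbd, fun g h hgh => ?_⟩
  have h1 : L g = ∮ ζ in C(0, ρ), h ζ := by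
    show (∫ θ in (0 : ℝ)..2 * Real.pi, deriv (circleMap 0 ρ) θ • g (c θ)) = _
    unfold circleIntegral
    refine intervalIntegral.integral_congr fun θ _ => ?_
    exact congrArg (fun w => deriv (circleMap 0 ρ) θ • w) (hgh (c θ))
  rw [_root_.smul_apply, LinearMap.mkContinuous_apply, h1]

theorem exists_cauchy {ρ : ℝ} (hρ : 0 < ρ) {A B : ℂ × ℂ → ℂ}
    (hA : ∀ ζ ∈ sphere (0 : ℂ) ρ, AnalyticAt ℂ A (0, ζ))
    (hB : ∀ ζ ∈ sphere (0 : ℂ) ρ, AnalyticAt ℂ B (0, ζ))
    (hB0 : ∀ ζ ∈ sphere (0 : ℂ) ρ, B (0, ζ) ≠ 0) :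
    ∃ Φ : ℂ × ℂ → ℂ, (∀ y ∈ ball (0 : ℂ) ρ, AnalyticAt ℂ Φ (0, y)) ∧
      ∀ᶠ x in 𝓝 (0 : ℂ), ∀ q : ℂ → ℂ, (∀ y ∈ closedBall (0 : ℂ) ρ, AnalyticAt ℂ q y) →
        (∀ y ∈ sphere (0 : ℂ) ρ, A (x, y) = B (x, y) * q y) →
        ∀ y ∈ ball (0 : ℂ) ρ, Φ (x, y) = q y := by
  haveI hcs : CompactSpace (sphere (0 : ℂ) ρ) := isCompact_iff_compactSpace.1 (isCompact_sphere _ _)
  obtain ⟨J, hJ⟩ := CB2_exists_functional hρ
  obtain ⟨𝓐, hA1, hA2⟩ := exists_family (isCompact_sphere (0 : ℂ) ρ) hA
  obtain ⟨𝓑, hB1, hB2⟩ := exists_family (isCompact_sphere (0 : ℂ) ρ) hB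
  set ι : C(sphere (0 : ℂ) ρ, ℂ) := ⟨fun ζ => (ζ : ℂ), continuous_subtype_val⟩ with hι
  have hunit : IsUnit (𝓑 0) := by
    rw [ContinuousMap.isUnit_iff_forall_ne_zero]
    intro ζ
    rw [hB2.self_of_nhds ζ]
    exact hB0 _ ζ.2
  have hκunit : ∀ y ∈ ball (0 : ℂ) ρ, IsUnit (ι - y • (1 : C(sphere (0 : ℂ) ρ, ℂ))) := by
    intro y hy
    rw [ContinuousMap.isUnit_iff_forall_ne_zero]
    intro ζ h0
    have h1 : (ζ : ℂ) - y = 0 := by
      have h2 : (ι - y • (1 : C(sphere (0 : ℂ) ρ, ℂ))) ζ = (ζ : ℂ) - y := by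
        simp [hι]
      rw [← h2]
      exact h0
    have h3 : (ζ : ℂ) = y := sub_eq_zero.1 h1
    have h4 : ‖(ζ : ℂ)‖ = ρ := mem_sphere_zero_iff_norm.1 ζ.2
    have h5 : ‖y‖ < ρ := mem_ball_zero_iff.1 hy
    rw [h3] at h4
    linarith
  refine ⟨fun p => J (𝓐 p.1 * Ring.inverse (𝓑 p.1) *
    Ring.inverse (ι - p.2 • (1 : C(sphere (0 : ℂ) ρ, ℂ)))), ?_, ?_⟩
  · intro y hy
    have h1 : AnalyticAt ℂ (fun p : ℂ × ℂ => 𝓐 p.1) (0, y) :=
      AnalyticAt.comp (g := 𝓐) (f := Prod.fst) (x := ((0 : ℂ), y)) hA1 analyticAt_fst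
    have h2 : AnalyticAt ℂ (fun p : ℂ × ℂ => 𝓑 p.1) (0, y) :=
      AnalyticAt.comp (g := 𝓑) (f := Prod.fst) (x := ((0 : ℂ), y)) hB1 analyticAt_fst
    have h3 : AnalyticAt ℂ (Ring.inverse : C(sphere (0 : ℂ) ρ, ℂ) → _) (𝓑 0) :=
      analyticOnNhd_inverse (𝕜 := ℂ) (𝓑 0) hunit
    have h4 : AnalyticAt ℂ (fun p : ℂ × ℂ => Ring.inverse (𝓑 p.1)) (0, y) :=
      AnalyticAt.comp (g := Ring.inverse) (f := fun p : ℂ × ℂ => 𝓑 p.1) (x := ((0 : ℂ), y)) h3 h2
    have h5 : AnalyticAt ℂ (fun p : ℂ × ℂ => ι - p.2 • (1 : C(sphere (0 : ℂ) ρ, ℂ))) (0, y) :=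
      analyticAt_const.sub (analyticAt_snd.smul analyticAt_const)
    have h6 : AnalyticAt ℂ (Ring.inverse : C(sphere (0 : ℂ) ρ, ℂ) → _)
        (ι - y • (1 : C(sphere (0 : ℂ) ρ, ℂ))) :=
      analyticOnNhd_inverse (𝕜 := ℂ) _ (hκunit y hy)
    have h7 : AnalyticAt ℂ (fun p : ℂ × ℂ => Ring.inverse (ι - p.2 • (1 : C(sphere (0 : ℂ) ρ, ℂ))))
        (0, y) :=
      AnalyticAt.comp (g := Ring.inverse)
        (f := fun p : ℂ × ℂ => ι - p.2 • (1 : C(sphere (0 : ℂ) ρ, ℂ))) (x := ((0 : ℂ), y)) h6 h5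
    exact (J.analyticAt _).comp ((h1.mul h4).mul h7)
  · have hopen : ∀ᶠ x in 𝓝 (0 : ℂ), IsUnit (𝓑 x) :=
      hB1.continuousAt.eventually (Units.isOpen.mem_nhds hunit)
    filter_upwards [hA2, hB2, hopen] with x hx1 hx2 hx3 q hq hAB y hy
    have hne := (ContinuousMap.isUnit_iff_forall_ne_zero _).1 hx3
    show J (𝓐 x * Ring.inverse (𝓑 x) * Ring.inverse (ι - y • (1 : C(sphere (0 : ℂ) ρ, ℂ)))) = q y
    rw [hJ _ (fun ζ => (ζ - y)⁻¹ • q ζ)]
    · have hd : DifferentiableOn ℂ q (closedBall 0 ρ) := fun z hz =>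
        (hq z hz).differentiableAt.differentiableWithinAt
      exact (hd.mono closure_ball_subset_closedBall).diffContOnCl.two_pi_i_inv_smul_circleIntegral_sub_inv_smul
        hy
    · intro ζ
      rw [ContinuousMap.mul_apply, ContinuousMap.mul_apply, CB2_inverse_apply hx3,
        CB2_inverse_apply (hκunit y hy), hx1, hx2, hAB _ ζ.2]
      have h1 : B (x, (ζ : ℂ)) ≠ 0 := by
        rw [← hx2 ζ]
        exact hne ζ
      have h2 : (ι - y • (1 : C(sphere (0 : ℂ) ρ, ℂ))) ζ = (ζ : ℂ) - y := by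
        simp [hι]
      rw [h2, smul_eq_mul]
      field_simp

end Pool.Agent.H68.KR

end
end

section

/-!
# Gtu Res: residue fields of discrete valuations and algebraic extensions

Let `L` be an algebraic extension of `K`, and let `v` be a valuation of `L` which is nonnegative on `ℂ`.  If there are `n` elements of the valuation
ring of `L` with algebraically independent residue classes, then there are `n` such elements in `K`.
-/

set_option autoImplicit false

open Polynomial

noncomputable section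

namespace Pool.Agent.H7.Gtu

variable {K L : Type} [Field K] [Algebra ℂ K] [Field L] [Algebra ℂ L]

/-- Transcendence degrees of algebraic extensions. -/
theorem exists_indep {κ κ' : Type} [CommRing κ] [IsDomain κ] [CommRing κ'] [IsDomain κ'] [Algebra ℂ κ] [Algebra ℂ κ'] (f : κ →ₐ[ℂ] κ')
    (hf : Function.Injective f) (halg : ∀ y, ∃ q : κ[X], q ≠ 0 ∧ q.eval₂ (f : κ →+* κ') y = 0) {n : ℕ} {s : Fin n → κ'}
    (hs : AlgebraicIndependent ℂ s) : ∃ t : Fin n → κ, AlgebraicIndependent ℂ t := by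
  let _ : Algebra κ κ' := f.toRingHom.toAlgebra
  have _ : IsScalarTower ℂ κ κ' := IsScalarTower.of_algebraMap_eq fun c => (f.commutes c).symm
  have _ : FaithfulSMul κ κ' := (faithfulSMul_iff_algebraMap_injective _ _).2 hf
  have _ : Algebra.IsAlgebraic κ κ' := by
    refine ⟨fun y => ?_⟩
    obtain ⟨q, hq0, hq⟩ := halg y
    exact ⟨q, hq0, hq⟩
  have _ : FaithfulSMul ℂ κ := (faithfulSMul_iff_algebraMap_injective _ _).2 (algebraMap ℂ _).injective
  obtain ⟨ι, x, hx⟩ := exists_isTranscendenceBasis' ℂ κ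
  have hx' : IsTranscendenceBasis ℂ (algebraMap κ κ' ∘ x) := hx.algebraMap_comp
  have h1 := hs.lift_cardinalMk_le_trdeg
  have h2 := hx'.lift_cardinalMk_eq_trdeg
  rw [← h2] at h1
  obtain ⟨φ⟩ := Cardinal.lift_mk_le'.1 h1
  exact ⟨x ∘ φ, hx.1.comp φ φ.injective⟩

/-- The valuation ring. -/
def vring (v : AddValuation L (WithTop ℤ)) (hv : ∀ c : ℂ, 0 ≤ v (algebraMap ℂ L c)) : Subalgebra ℂ L where
  carrier := {x | 0 ≤ v x}
  mul_mem' := by
    intro a b ha hb
    change 0 ≤ v (a * b)
    rw [v.map_mul]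
    exact add_nonneg ha hb
  add_mem' := by
    intro a b ha hb
    exact (le_min ha hb).trans (v.map_add a b)
  algebraMap_mem' := hv

/-- The maximal ideal. -/
def vmax (v : AddValuation L (WithTop ℤ)) (hv : ∀ c : ℂ, 0 ≤ v (algebraMap ℂ L c)) : Ideal (vring v hv) where
  carrier := {x | 0 < v (x : L)}
  add_mem' := by
    intro a b ha hb
    exact (lt_min ha hb).trans_le (v.map_add a b)
  zero_mem' := by
    change 0 < v (0 : L)
    rw [v.map_zero]
    exact WithTop.coe_lt_top 0
  smul_mem' := by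
    intro c x hx
    change 0 < v ((c : L) * x)
    rw [v.map_mul]
    exact lt_of_lt_of_le hx (le_add_of_nonneg_left c.2)

instance vmax_isPrime (v : AddValuation L (WithTop ℤ)) (hv : ∀ c : ℂ, 0 ≤ v (algebraMap ℂ L c)) : (vmax v hv).IsPrime where
  ne_top' := by
    rw [Ideal.ne_top_iff_one]
    intro h
    have h1 : 0 < v (1 : L) := h
    rw [v.map_one] at h1
    exact lt_irrefl _ h1
  mem_or_mem' := by
    intro x y hxy
    have h1 : 0 < v ((x : L) * y) := hxy
    rw [v.map_mul] at h1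
    by_contra hcon
    push Not at hcon
    have h2 : v (x : L) = 0 := le_antisymm (not_lt.1 hcon.1) x.2
    have h3 : v (y : L) = 0 := le_antisymm (not_lt.1 hcon.2) y.2
    rw [h2, h3, add_zero] at h1
    exact lt_irrefl _ h1

/-- The residue field. -/
abbrev vres (v : AddValuation L (WithTop ℤ)) (hv : ∀ c : ℂ, 0 ≤ v (algebraMap ℂ L c)) : Type := vring v hv ⧸ vmax v hv

section Ext

variable [Algebra K L] [IsScalarTower ℂ K L]

/-- The restriction of the valuation. -/
def vcom (K : Type) [Field K] [Algebra K L] (v : AddValuation L (WithTop ℤ)) : AddValuation K (WithTop ℤ) := v.comap (algebraMap K L)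

omit [Algebra ℂ K] [Algebra ℂ L] [IsScalarTower ℂ K L] in
theorem vcom_apply (v : AddValuation L (WithTop ℤ)) (x : K) : vcom K v x = v (algebraMap K L x) := rfl

theorem vcom_const {v : AddValuation L (WithTop ℤ)} (hv : ∀ c : ℂ, 0 ≤ v (algebraMap ℂ L c)) (c : ℂ) :
    0 ≤ vcom K v (algebraMap ℂ K c) := by
  rw [vcom_apply, ← IsScalarTower.algebraMap_apply]
  exact hv c

/-- The map of the valuation rings. -/
def vmap (v : AddValuation L (WithTop ℤ)) (hv : ∀ c : ℂ, 0 ≤ v (algebraMap ℂ L c)) :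
    vring (vcom K v) (vcom_const hv) →ₐ[ℂ] vring v hv where
  toFun x := ⟨algebraMap K L x, x.2⟩
  map_one' := Subtype.ext (map_one (algebraMap K L))
  map_mul' _ _ := Subtype.ext (map_mul (algebraMap K L) _ _)
  map_zero' := Subtype.ext (map_zero (algebraMap K L))
  map_add' _ _ := Subtype.ext (map_add (algebraMap K L) _ _)
  commutes' c := Subtype.ext (IsScalarTower.algebraMap_apply ℂ K L c).symm

/-- The map of the residue fields. -/
def rmap (v : AddValuation L (WithTop ℤ)) (hv : ∀ c : ℂ, 0 ≤ v (algebraMap ℂ L c)) :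
    vres (vcom K v) (vcom_const hv) →ₐ[ℂ] vres v hv :=
  Ideal.quotientMapₐ (vmax v hv) (vmap v hv) fun _ hx => hx

theorem rmap_mk (v : AddValuation L (WithTop ℤ)) (hv : ∀ c : ℂ, 0 ≤ v (algebraMap ℂ L c)) (x : vring (vcom K v) (vcom_const hv)) :
    rmap (K := K) v hv (Ideal.Quotient.mk _ x) = Ideal.Quotient.mk _ (vmap v hv x) := rfl

theorem rmap_injective (v : AddValuation L (WithTop ℤ)) (hv : ∀ c : ℂ, 0 ≤ v (algebraMap ℂ L c)) :
    Function.Injective (rmap (K := K) v hv) := by
  rw [injective_iff_map_eq_zero]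
  intro x hx
  obtain ⟨x, rfl⟩ := Ideal.Quotient.mk_surjective x
  rw [rmap_mk, Ideal.Quotient.eq_zero_iff_mem] at hx
  rw [Ideal.Quotient.eq_zero_iff_mem]
  exact hx

/-- The extension of the residue fields is algebraic. -/
theorem rmap_algebraic [Algebra.IsAlgebraic K L] (v : AddValuation L (WithTop ℤ)) (hv : ∀ c : ℂ, 0 ≤ v (algebraMap ℂ L c)) (y : vres v hv) :
    ∃ q : (vres (vcom K v) (vcom_const hv))[X], q ≠ 0 ∧ q.eval₂ (rmap (K := K) v hv : vres (vcom K v) (vcom_const hv) →+* vres v hv) y = 0 := by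
  obtain ⟨x, rfl⟩ := Ideal.Quotient.mk_surjective y
  obtain ⟨p, hp0, hp⟩ := Algebra.IsAlgebraic.isAlgebraic (R := K) (x : L)
  obtain ⟨i, hi, hmin⟩ := Finset.exists_min_image p.support (fun i => vcom K v (p.coeff i)) (Polynomial.support_nonempty.2 hp0)
  have hc0 : p.coeff i ≠ 0 := Polynomial.mem_support_iff.1 hi
  have hq : C (p.coeff i)⁻¹ * p ∈ Polynomial.lifts (algebraMap (vring (vcom K v) (vcom_const hv)) K) := by
    rw [Polynomial.lifts_iff_coeff_lifts]
    intro n
    rw [Polynomial.coeff_C_mul]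
    have h1 : 0 ≤ vcom K v ((p.coeff i)⁻¹ * p.coeff n) := by
      by_cases hn : p.coeff n = 0
      · rw [hn, mul_zero, AddValuation.map_zero]
        exact le_top
      · have h2 := hmin n (Polynomial.mem_support_iff.2 hn)
        have h3 : vcom K v (p.coeff i) + vcom K v ((p.coeff i)⁻¹ * p.coeff n) = vcom K v (p.coeff n) := by
          rw [← AddValuation.map_mul, mul_inv_cancel_left₀ hc0]
        rw [← h3] at h2
        have h4 : vcom K v (p.coeff i) ≠ ⊤ := (AddValuation.ne_top_iff _).2 hc0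
        have h5 : vcom K v (p.coeff i) + 0 ≤ vcom K v (p.coeff i) + vcom K v ((p.coeff i)⁻¹ * p.coeff n) := by rwa [add_zero]
        exact (WithTop.add_le_add_iff_left h4).1 h5
    exact ⟨⟨_, h1⟩, rfl⟩
  obtain ⟨Q, hQ⟩ := (Polynomial.mem_lifts _).1 hq
  refine ⟨Q.map (Ideal.Quotient.mk _), ?_, ?_⟩
  · intro h0
    have h1 : (Q.map (Ideal.Quotient.mk (vmax (vcom K v) (vcom_const hv)))).coeff i = 0 := by rw [h0, Polynomial.coeff_zero]
    have h2 : (Q.coeff i : K) = 1 := by
      have h3 : (Q.map (algebraMap (vring (vcom K v) (vcom_const hv)) K)).coeff i = (C (p.coeff i)⁻¹ * p).coeff i := by rw [hQ]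
      rw [Polynomial.coeff_map, Polynomial.coeff_C_mul, inv_mul_cancel₀ hc0] at h3
      exact h3
    have h4 : Q.coeff i = 1 := Subtype.ext h2
    rw [Polynomial.coeff_map, h4, map_one] at h1
    exact one_ne_zero h1
  · rw [Polynomial.eval₂_map]
    have h1 : (rmap (K := K) v hv : vres (vcom K v) (vcom_const hv) →+* vres v hv).comp (Ideal.Quotient.mk _) =
        (Ideal.Quotient.mk (vmax v hv)).comp (vmap (K := K) v hv : _ →+* vring v hv) := rfl
    rw [h1, ← Polynomial.hom_eval₂]
    have h2 : Q.eval₂ (vmap (K := K) v hv : vring (vcom K v) (vcom_const hv) →+* vring v hv) x = 0 := by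
      apply Subtype.ext
      have h3 : ((Q.eval₂ (vmap (K := K) v hv : vring (vcom K v) (vcom_const hv) →+* vring v hv) x : vring v hv) : L) =
          Q.eval₂ ((algebraMap K L).comp (algebraMap (vring (vcom K v) (vcom_const hv)) K)) (x : L) :=
        Polynomial.hom_eval₂ Q (vmap (K := K) v hv : vring (vcom K v) (vcom_const hv) →+* vring v hv) (algebraMap (vring v hv) L) x
      rw [h3, ← Polynomial.eval₂_map, hQ, Polynomial.eval₂_mul]
      have h4 : p.eval₂ (algebraMap K L) (x : L) = 0 := hp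
      rw [h4, mul_zero]
      rfl
    rw [h2, map_zero]

/-- **Residual independence goes down.** -/
theorem exists_residue [Algebra.IsAlgebraic K L] (v : AddValuation L (WithTop ℤ)) (hv : ∀ c : ℂ, 0 ≤ v (algebraMap ℂ L c)) {n : ℕ}
    (h : ∃ s : Fin n → L, (∀ i, 0 ≤ v (s i)) ∧ ∀ p : MvPolynomial (Fin n) ℂ, p ≠ 0 → v (MvPolynomial.aeval s p) = 0) :
    ∃ s : Fin n → K, (∀ i, 0 ≤ v (algebraMap K L (s i))) ∧
      ∀ p : MvPolynomial (Fin n) ℂ, p ≠ 0 → v (algebraMap K L (MvPolynomial.aeval s p)) = 0 := by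
  obtain ⟨s, hs, hp⟩ := h
  -- the residue classes of the given elements
  have hs' : AlgebraicIndependent ℂ (fun i => (Ideal.Quotient.mk (vmax v hv) (⟨s i, hs i⟩ : vring v hv))) := by
    rw [algebraicIndependent_iff]
    intro p hp0
    by_contra hne
    have h1 : MvPolynomial.aeval (fun i => (Ideal.Quotient.mk (vmax v hv) (⟨s i, hs i⟩ : vring v hv))) p =
        Ideal.Quotient.mk (vmax v hv) (MvPolynomial.aeval (fun i => (⟨s i, hs i⟩ : vring v hv)) p) := by
      have h2 := MvPolynomial.comp_aeval (fun i => (⟨s i, hs i⟩ : vring v hv)) (Ideal.Quotient.mkₐ ℂ (vmax v hv))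
      exact (DFunLike.congr_fun h2 p).symm
    rw [h1, Ideal.Quotient.eq_zero_iff_mem] at hp0
    have h3 : ((MvPolynomial.aeval (fun i => (⟨s i, hs i⟩ : vring v hv)) p : vring v hv) : L) = MvPolynomial.aeval s p := by
      have h2 := MvPolynomial.comp_aeval (fun i => (⟨s i, hs i⟩ : vring v hv)) (vring v hv).val
      exact DFunLike.congr_fun h2 p
    have h4 : 0 < v ((MvPolynomial.aeval (fun i => (⟨s i, hs i⟩ : vring v hv)) p : vring v hv) : L) := hp0
    rw [h3, hp p hne] at h4
    exact lt_irrefl _ h4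
  obtain ⟨x, h3⟩ := exists_indep (rmap (K := K) v hv) (rmap_injective v hv) (rmap_algebraic (K := K) v hv) hs'
  choose y hy using fun i => Ideal.Quotient.mk_surjective (x i)
  refine ⟨fun i => (y i : K), fun i => (y i).2, fun p hp0 => ?_⟩
  have h4 : Ideal.Quotient.mk (vmax (vcom K v) (vcom_const hv)) (MvPolynomial.aeval y p) ≠ 0 := by
    have h5 := MvPolynomial.comp_aeval y (Ideal.Quotient.mkₐ ℂ (vmax (vcom K v) (vcom_const hv)))
    have h6 : Ideal.Quotient.mk (vmax (vcom K v) (vcom_const hv)) (MvPolynomial.aeval y p) =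
        MvPolynomial.aeval (fun i => Ideal.Quotient.mkₐ ℂ (vmax (vcom K v) (vcom_const hv)) (y i)) p := DFunLike.congr_fun h5 p
    have h7 : (fun i => Ideal.Quotient.mkₐ ℂ (vmax (vcom K v) (vcom_const hv)) (y i)) = x := funext hy
    rw [h6, h7]
    intro h8
    exact hp0 ((algebraicIndependent_iff.1 h3) p h8)
  have h5 : ((MvPolynomial.aeval y p : vring (vcom K v) (vcom_const hv)) : K) = MvPolynomial.aeval (fun i => (y i : K)) p := by
    have h2 := MvPolynomial.comp_aeval y (vring (vcom K v) (vcom_const hv)).val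
    exact DFunLike.congr_fun h2 p
  rw [← h5]
  refine le_antisymm (not_lt.1 fun h6 => h4 ?_) (MvPolynomial.aeval y p : vring (vcom K v) (vcom_const hv)).2
  rw [Ideal.Quotient.eq_zero_iff_mem]
  exact h6

end Ext

end Pool.Agent.H7.Gtu

end
end

section

/-!
# Transcendence bases among the coordinates
-/

noncomputable section

namespace Pool.Agent.H92.GT

open scoped IntermediateField.algebraAdjoinAdjoin in
/-- If `K` is algebraic over `ℂ(x)` there is a transcendence basis among the coordinates. -/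
theorem exists_index {K : Type} [Field K] [Algebra ℂ K] {k n : ℕ} {x : Fin n → K}
    (halg : Algebra.IsAlgebraic (IntermediateField.adjoin ℂ (Set.range x)) K) {z : Fin k → K}
    (hz : IsTranscendenceBasis ℂ z) :
    ∃ J : Fin k → Fin n, IsTranscendenceBasis ℂ fun i => x (J i) := by
  have h1 : Algebra.IsAlgebraic (Algebra.adjoin ℂ (Set.range x)) K :=
    (IsFractionRing.comap_isAlgebraic_iff (A := Algebra.adjoin ℂ (Set.range x))
      (K := IntermediateField.adjoin ℂ (Set.range x)) (C := K)).mpr halg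
  obtain ⟨u, hu, hub⟩ := exists_isTranscendenceBasis_subset (R := ℂ) (Set.range x)
  have h2 := hub.cardinalMk_eq hz
  rw [Cardinal.mk_fin] at h2
  have h3 : Finite u := by
    rw [← Cardinal.lt_aleph0_iff_finite, h2]
    exact Cardinal.natCast_lt_aleph0
  have h4 : Nat.card u = k := by
    rw [Nat.card, h2]
    simp
  let eqv : Fin k ≃ u := (finCongr h4.symm).trans (Finite.equivFin u).symm
  choose J hJ using fun i : Fin k => hu (eqv i).2
  refine ⟨J, ?_⟩
  have h5 : (fun i => x (J i)) = (Subtype.val : u → K) ∘ eqv := funext hJ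
  rw [h5, isTranscendenceBasis_equiv]
  exact hub

end Pool.Agent.H92.GT

end
end

section

/-!
# A Jacobian criterion for algebraic independence

* `algebraicIndependent_of_jacobian`: polynomials with nonzero Jacobian determinant at a point are
  algebraically independent (characteristic zero).
* `exists_algebraicIndependent_of_injective`: from a family `c j` of polynomials whose differential
  at a point is injective one obtains linear combinations, as many as there are variables, that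
  are algebraically independent.
-/

namespace Pool.Agent.H94

open MvPolynomial

variable {k : Type*} [Field k]

lemma eq_C_of_pderiv_eq_zero [CharZero k] {ι : Type*} (P : MvPolynomial ι k)
    (h : ∀ i, pderiv i P = 0) : P = C (coeff 0 P) := by
  classical
  ext m
  rw [coeff_C]
  by_cases hm : m = 0
  · subst hm; simp
  · rw [if_neg (Ne.symm hm)]
    obtain ⟨i, hi⟩ : ∃ i, m i ≠ 0 := by
      by_contra hcon
      push Not at hcon
      exact hm (Finsupp.ext hcon)
    have h1 := congrArg (coeff (m - Finsupp.single i 1)) (h i)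
    rw [coeff_pderiv, coeff_zero] at h1
    have h2 : m - Finsupp.single i 1 + Finsupp.single i 1 = m :=
      Finsupp.sub_add_single_one_cancel hi
    rw [h2] at h1
    rcases mul_eq_zero.1 h1 with h1 | h1
    · exact h1
    · exfalso
      have : ((((m - Finsupp.single i 1 : ι →₀ ℕ)) i + 1 : ℕ) : k) = 0 := by push_cast; exact h1
      exact Nat.cast_ne_zero.2 (Nat.succ_ne_zero _) this

lemma totalDegree_pderiv_lt {ι : Type*} (P : MvPolynomial ι k) (i : ι) (h : pderiv i P ≠ 0) :
    (pderiv i P).totalDegree < P.totalDegree := by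
  classical
  obtain ⟨m, hm, hmd⟩ := Finset.exists_mem_eq_sup (pderiv i P).support
    (support_nonempty.2 h) (fun s => s.sum fun _ e => e)
  rw [mem_support_iff, coeff_pderiv] at hm
  have h1 : coeff (m + Finsupp.single i 1) P ≠ 0 := left_ne_zero_of_mul hm
  have h2 := le_totalDegree (mem_support_iff.2 h1)
  have h3 : (m + Finsupp.single i 1).degree = m.degree + 1 := by
    rw [map_add, Finsupp.degree_single]
  have h4 : (m + Finsupp.single i 1).sum (fun _ e => e) = (m + Finsupp.single i 1).degree := rfl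
  have h5 : m.sum (fun _ e => e) = m.degree := rfl
  have h6 : (pderiv i P).totalDegree = m.degree := hmd
  rw [h4, h3] at h2
  omega

end Pool.Agent.H94

end
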