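import Pool.Agent.H18.GGT.M12
import Pool.Agent.H18.GGT.M15
import Pool.Agent.H18.GGT.M16
import Pool.Agent.H18.GGT.M19

/-! The parts of this file: GA.Bas, GA.PshA, GA.Ring. -/

section

/-!
# GA Bas: the speed of a curve and the values of the symmetric differentials (helper92; `theta_bd` is in `BasB`)
-/

set_option autoImplicit false

open MvPolynomial Topology Filter Metric
open Pool.Agent.H13.SM (conTan cone Inv_hasFDerivAt_eval)
open Pool.Agent.H17 (PN VanishesAt)
open Pool.Agent.GG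

namespace Pool.Agent.GA

variable {N : ℕ} {P : Ideal (MvPolynomial (Fin (N + 1)) ℂ)} {J : ℕ} {m : Fin J → ℕ} {θ : ∀ k, SymSec P (m k)} {F : ℂ → Fin (N + 1) → ℂ}

theorem isOpen_HP : IsOpen HP := isOpen_lt continuous_const Complex.continuous_re

theorem HCurve.deriv_mem (hF : HCurve P F) {w : ℂ} (hw : w ∈ HP) : deriv F w ∈ conTan P (F w) := by
  intro Q hQ
  have h1 : HasDerivAt ((fun y : Fin (N + 1) → ℂ => eval y Q) ∘ F) _ w :=
    (Inv_hasFDerivAt_eval Q (F w)).comp_hasDerivAt w (hF.an w hw).differentiableAt.hasDerivAt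
  have h2 : HasDerivAt ((fun y : Fin (N + 1) → ℂ => eval y Q) ∘ F) (0 : ℂ) w := by
    refine (hasDerivAt_const w (0 : ℂ)).congr_of_eventuallyEq ?_
    filter_upwards [isOpen_HP.mem_nhds hw] with z hz
    exact (hF.cone z hz).2 Q hQ
  have h4 := h1.unique h2
  simp only [sum_apply, FunLike.coe_smul, Pi.smul_apply, ContinuousLinearMap.proj_apply, smul_eq_mul] at h4
  rw [← h4]
  exact Finset.sum_congr rfl fun i _ => mul_comm _ _

theorem HCurve.deriv_add_per (hF : HCurve P F) {w : ℂ} (hw : w ∈ HP) : deriv F (w + per) = deriv F w := by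
  have h1 : (fun z => F (z + per)) =ᶠ[𝓝 w] F := by
    filter_upwards [isOpen_HP.mem_nhds hw] with z hz
    exact hF.periodic z hz
  rw [← h1.deriv_eq, deriv_comp_add_const]

theorem HCurve.speed (hF : HCurve P F) : Speed (sp F) := by
  have hd : ∀ w ∈ HP, ContinuousAt (deriv F) w := fun w hw => (hF.an w hw).deriv.continuousAt
  refine ⟨fun w hw => ContinuousAt.continuousWithinAt ?_, fun w _ => by unfold sp wl; positivity, fun w hw => ?_⟩
  · have h1 : ContinuousAt (fun w => fun p : Fin (N + 1) × Fin (N + 1) => F w p.1 * deriv F w p.2 - F w p.2 * deriv F w p.1) w := by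
      refine continuousAt_pi.2 fun p => ?_
      have h2 : ∀ i, ContinuousAt (fun w => F w i) w := fun i => (continuousAt_pi.1 (hF.an w hw).continuousAt) i
      have h3 : ∀ i, ContinuousAt (fun w => deriv F w i) w := fun i => (continuousAt_pi.1 (hd w hw)) i
      exact ((h2 _).mul (h3 _)).sub ((h2 _).mul (h3 _))
    exact h1.norm.div ((hF.an w hw).continuousAt.norm.pow 2) (pow_ne_zero 2 (norm_ne_zero_iff.2 (hF.cone w hw).1))
  · unfold sp
    rw [hF.periodic w hw, hF.deriv_add_per hw]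

theorem sth_an (hF : HCurve P F) (k : Fin J) {w : ℂ} (hw : w ∈ HP) : AnalyticAt ℂ (sth θ F k) w := by
  obtain ⟨b, hb⟩ : ∃ b, F w b ≠ 0 := by
    by_contra h
    push Not at h
    exact (hF.cone w hw).1 (funext h)
  obtain ⟨e, A, hA⟩ := (θ k).regular b
  have hFb : AnalyticAt ℂ (fun z => F z b) w := (analyticAt_pi_iff.1 (hF.an w hw)) b
  have h3 : AnalyticAt ℂ (fun z => aeval (Sum.elim (F z) (deriv F z)) A) w := by
    refine AnalyticAt.aeval_mvPolynomial (fun i => ?_) A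
    cases i with
    | inl i => exact (analyticAt_pi_iff.1 (hF.an w hw)) i
    | inr i => exact (analyticAt_pi_iff.1 (hF.an w hw).deriv) i
  refine (h3.div (hFb.pow e) (pow_ne_zero e hb)).congr ?_
  filter_upwards [isOpen_HP.mem_nhds hw, hFb.continuousAt.eventually_ne hb] with z hz h6
  have h7 := hA (F z) (hF.cone z hz) (deriv F z) (hF.deriv_mem hz)
  show aeval _ A / F z b ^ e = _
  rw [div_eq_iff (pow_ne_zero e h6), mul_comm]
  unfold sth
  rw [h7]
  exact congrArg (fun φ : MvPolynomial (Fin (N + 1) ⊕ Fin (N + 1)) ℂ →+* ℂ => φ A) (coe_aeval_eq_eval _)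

theorem sth_periodic (hF : HCurve P F) (k : Fin J) {w : ℂ} (hw : w ∈ HP) : sth θ F k (w + per) = sth θ F k w := by
  unfold sth
  rw [hF.periodic w hw, hF.deriv_add_per hw]

end Pool.Agent.GA

end

section

/-!
# GA PshA: lower bound for the mean of `log⁺ ‖H‖` on vertical segments

`H` is a holomorphic, `2πi`-periodic map from the right half-plane to a Hermitian space, not identically zero.  If the continuous function `e ≥ 0` is at most
the Fubini–Study density of `H` off the zeros of `H`, then `∫_1^X (X - t) ∫_0^{2π} e (t + i y) dy dt ≤ ∫_0^{2π} log⁺ ‖H (X + i y)‖ dy + C (1 + X)`.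
-/

set_option autoImplicit false

open Complex Topology Filter MeasureTheory Set Laplacian
open scoped Real
open Pool.Agent.MQ
open Pool.Agent.H30M (gg)

noncomputable section

namespace Pool.Agent.GA.StripN

variable {V : Type*} [NormedAddCommGroup V] [InnerProductSpace ℂ V] [CompleteSpace V]

/-- the regularised logarithm of the norm -/
def ue (H : ℂ → V) (δ : ℝ) (w : ℂ) : ℝ := Real.log (‖H w‖ ^ 2 + δ) / 2

variable {H : ℂ → V} {z : ℂ} {δ : ℝ}

theorem contDiffAt_ue (hH : AnalyticAt ℂ H z) (hδ : 0 < δ) : ContDiffAt ℝ 2 (ue H δ) z := by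
  have h1 : ContDiffAt ℝ 2 (fun w => ‖H w‖ ^ 2 + δ) z := (contDiffAt_sqnorm hH).add contDiffAt_const
  have h2 : ‖H z‖ ^ 2 + δ ≠ 0 := by positivity
  exact (h1.log h2).div_const 2

theorem lap_ue (hH : AnalyticAt ℂ H z) (hδ : 0 < δ) :
    Δ (ue H δ) z = 2 * ((‖H z‖ ^ 2 + δ) * ‖deriv H z‖ ^ 2 - ‖inner ℂ (H z) (deriv H z)‖ ^ 2) / (‖H z‖ ^ 2 + δ) ^ 2 := by
  have hp : 0 < ‖H z‖ ^ 2 + δ := by positivity
  have hF' : HasDerivAt H (deriv H z) z := hH.differentiableAt.hasDerivAt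
  have e : ue H δ = fun w => (fun t => Real.log (t + δ) / 2) (‖H w‖ ^ 2) := rfl
  have hu : ContDiffAt ℝ 2 (fun w => ‖H w‖ ^ 2) z := contDiffAt_sqnorm hH
  have hφ : ContDiffAt ℝ 2 (fun t : ℝ => Real.log (t + δ) / 2) (‖H z‖ ^ 2) :=
    (ContDiffAt.log (contDiffAt_id.add contDiffAt_const) hp.ne').div_const 2
  have d1 : deriv (fun t : ℝ => Real.log (t + δ) / 2) = fun t => (t + δ)⁻¹ / 2 := by
    funext t
    rw [deriv_div_const, deriv_comp_add_const, Real.deriv_log]
  have d2 : deriv (deriv (fun t : ℝ => Real.log (t + δ) / 2)) (‖H z‖ ^ 2) = - ((‖H z‖ ^ 2 + δ) ^ 2)⁻¹ / 2 := by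
    rw [d1, deriv_div_const, deriv_comp_add_const (fun t : ℝ => t⁻¹), deriv_inv]
  rw [e, Pool.Agent.H30M.lap_comp hφ hu, d2, d1, ← lp_eq_lap hu, lp_sqnorm hH, gg_self,
    gr_sqnorm hF', norm_mul, RCLike.norm_conj]
  simp only [Complex.norm_ofNat]
  field_simp
  ring

theorem fderiv_ue (hH : AnalyticAt ℂ H z) (hδ : 0 < δ) :
    fderiv ℝ (ue H δ) z 1 = (inner ℂ (H z) (deriv H z)).re / (‖H z‖ ^ 2 + δ) := by
  have hp : 0 < ‖H z‖ ^ 2 + δ := by positivity
  have hF' : HasDerivAt H (deriv H z) z := hH.differentiableAt.hasDerivAt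
  have hK : HasDerivAt (fun t : ℝ => Real.log (t + δ) / 2) ((‖H z‖ ^ 2 + δ)⁻¹ / 2) (‖H z‖ ^ 2) := by
    have := ((Real.hasDerivAt_log hp.ne').comp_add_const (‖H z‖ ^ 2) δ).div_const 2
    exact this
  have h := gr_comp hK (differentiableAt_sqnorm hF')
  have h2 := congrArg Complex.re h
  rw [gr_sqnorm hF'] at h2
  have h3 : (gr (fun w => (fun t : ℝ => Real.log (t + δ) / 2) (‖H w‖ ^ 2)) z).re = fderiv ℝ (ue H δ) z 1 := rfl
  rw [← h3]
  refine h2.trans ?_
  rw [Complex.re_ofReal_mul]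
  have h4 : (2 * (starRingEnd ℂ) (inner ℂ (H z) (deriv H z))).re = 2 * (inner ℂ (H z) (deriv H z)).re := by
    generalize inner ℂ (H z) (deriv H z) = c
    simp [Complex.mul_re]
  rw [h4]
  field_simp

theorem abs_fderiv_ue_le (hH : AnalyticAt ℂ H z) (hδ : 0 < δ) (h0 : H z ≠ 0) :
    -(‖deriv H z‖ / ‖H z‖) ≤ fderiv ℝ (ue H δ) z 1 := by
  rw [fderiv_ue hH hδ]
  have hn : 0 < ‖H z‖ := norm_pos_iff.2 h0
  have h1 : |(inner ℂ (H z) (deriv H z)).re| ≤ ‖H z‖ * ‖deriv H z‖ :=
    (Complex.abs_re_le_norm _).trans (norm_inner_le_norm _ _)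
  have h2 : -(‖H z‖ * ‖deriv H z‖) ≤ (inner ℂ (H z) (deriv H z)).re := (abs_le.1 h1).1
  have h3 : ‖H z‖ * ‖deriv H z‖ / (‖H z‖ ^ 2 + δ) ≤ ‖deriv H z‖ / ‖H z‖ := by
    rw [div_le_div_iff₀ (by positivity) hn]
    nlinarith [mul_nonneg (norm_nonneg (deriv H z)) hδ.le]
  calc -(‖deriv H z‖ / ‖H z‖) ≤ -(‖H z‖ * ‖deriv H z‖ / (‖H z‖ ^ 2 + δ)) := neg_le_neg h3
    _ = -(‖H z‖ * ‖deriv H z‖) / (‖H z‖ ^ 2 + δ) := by ring
    _ ≤ _ := by gcongr

theorem log_norm_le_ue (hδ : 0 < δ) (h0 : H z ≠ 0) : Real.log ‖H z‖ ≤ ue H δ z := by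
  have hn : 0 < ‖H z‖ := norm_pos_iff.2 h0
  unfold ue
  have h1 : Real.log (‖H z‖ ^ 2) ≤ Real.log (‖H z‖ ^ 2 + δ) := Real.log_le_log (by positivity) (by linarith)
  rw [Real.log_pow] at h1
  push_cast at h1
  linarith

theorem ue_le (hδ : 0 < δ) (hδ1 : δ ≤ 1) : ue H δ z ≤ Real.posLog ‖H z‖ + 1 := by
  have hm1 : (1 : ℝ) ≤ max 1 ‖H z‖ := le_max_left _ _
  have h1 : ‖H z‖ ^ 2 + δ ≤ 2 * (max 1 ‖H z‖) ^ 2 := by
    have h2 : ‖H z‖ ^ 2 ≤ (max 1 ‖H z‖) ^ 2 := pow_le_pow_left₀ (norm_nonneg _) (le_max_right _ _) 2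
    nlinarith
  have h2 : Real.log (‖H z‖ ^ 2 + δ) ≤ Real.log (2 * (max 1 ‖H z‖) ^ 2) := Real.log_le_log (by positivity) h1
  rw [Real.log_mul (by norm_num) (by positivity), Real.log_pow, ← Real.posLog_eq_log_max_one (norm_nonneg _)] at h2
  have h3 : Real.log 2 ≤ 1 := by
    have := Real.log_le_sub_one_of_pos (show (0 : ℝ) < 2 by norm_num)
    linarith
  unfold ue
  push_cast at h2
  linarith

/-- the regularised density -/
def wt (H : ℂ → V) (δ : ℝ) (w : ℂ) : ℝ := (‖H w‖ ^ 2 / (‖H w‖ ^ 2 + δ)) ^ 2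

theorem wt_nonneg (w : ℂ) : 0 ≤ wt H δ w := sq_nonneg _

theorem wt_le_one (hδ : 0 < δ) (w : ℂ) : wt H δ w ≤ 1 := by
  unfold wt
  have h1 : ‖H w‖ ^ 2 / (‖H w‖ ^ 2 + δ) ≤ 1 := by
    rw [div_le_one (by positivity)]
    linarith
  exact pow_le_one₀ (by positivity) h1

theorem mul_wt_le_lap (hH : AnalyticAt ℂ H z) (hδ : 0 < δ) {e : ℝ} (he0 : 0 ≤ e) (he : H z ≠ 0 → e ≤ fsd (H z) (deriv H z)) :
    e * wt H δ z ≤ Δ (ue H δ) z := by
  rw [lap_ue hH hδ]
  have hp : 0 < ‖H z‖ ^ 2 + δ := by positivity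
  have h1 : ‖inner ℂ (H z) (deriv H z)‖ ^ 2 ≤ (‖H z‖ * ‖deriv H z‖) ^ 2 :=
    pow_le_pow_left₀ (norm_nonneg _) (norm_inner_le_norm _ _) 2
  by_cases h0 : H z = 0
  · have : wt H δ z = 0 := by simp [wt, h0]
    rw [this, mul_zero]
    apply div_nonneg _ (by positivity)
    rw [h0]
    simp only [norm_zero, inner_zero_left]
    have h2 : 0 ≤ δ * ‖deriv H z‖ ^ 2 := by positivity
    nlinarith
  · have hn : 0 < ‖H z‖ := norm_pos_iff.2 h0
    refine (mul_le_mul_of_nonneg_right (he h0) (wt_nonneg z)).trans ?_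
    have e1 : fsd (H z) (deriv H z) * wt H δ z =
        2 * (‖H z‖ ^ 2 * ‖deriv H z‖ ^ 2 - ‖inner ℂ (H z) (deriv H z)‖ ^ 2) / (‖H z‖ ^ 2 + δ) ^ 2 := by
      unfold fsd wt
      field_simp
    rw [e1]
    gcongr
    linarith

section zeros

variable (hH : ∀ w : ℂ, 0 < w.re → AnalyticAt ℂ H w) (h0 : ∃ w : ℂ, 0 < w.re ∧ H w ≠ 0)
include hH h0

theorem countable_zeros : {w : ℂ | 0 < w.re ∧ H w = 0}.Countable := by
  obtain ⟨w₀, hw₀, hne⟩ := h0
  have hU : IsPreconnected {w : ℂ | 0 < w.re} := (convex_halfSpace_re_gt 0).isPreconnected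
  have hA : AnalyticOnNhd ℂ H {w : ℂ | 0 < w.re} := fun w hw => hH w hw
  have hev : ∀ w : ℂ, 0 < w.re → ∀ᶠ v in 𝓝[≠] w, H v ≠ 0 := by
    intro w hw
    rcases (hH w hw).eventually_eq_zero_or_eventually_ne_zero with h | h
    · exact absurd (hA.eqOn_zero_of_preconnected_of_eventuallyEq_zero hU hw h hw₀) hne
    · exact h
  have hd : DiscreteTopology {w : ℂ | 0 < w.re ∧ H w = 0} := by
    rw [discreteTopology_subtype_iff]
    rintro w ⟨hw, -⟩
    rw [← _root_.disjoint_iff, Filter.disjoint_principal_right]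
    filter_upwards [hev w hw] with v hv hv2 using hv hv2.2
  exact Set.countable_coe_iff.1 (countable_of_Lindelof_of_discrete (X := {w : ℂ | 0 < w.re ∧ H w = 0}))

theorem exists_line : ∃ a : ℝ, 1 / 2 < a ∧ a < 1 ∧ ∀ y : ℝ, H (pp a y) ≠ 0 := by
  have hc := (countable_zeros hH h0).image Complex.re
  obtain ⟨a, ha, ha2⟩ := (hc.dense_compl ℝ).exists_mem_open (isOpen_Ioo (a := (1 / 2 : ℝ)) (b := 1)) ⟨3 / 4, by norm_num, by norm_num⟩
  refine ⟨a, ha2.1, ha2.2, fun y hy => ha ⟨pp a y, ⟨?_, hy⟩, pp_re a y⟩⟩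
  rw [pp_re]
  linarith [ha2.1]

theorem ae_line {t : ℝ} (ht : 0 < t) : ∀ᵐ y : ℝ, H (pp t y) ≠ 0 := by
  have hc : {y : ℝ | H (pp t y) = 0}.Countable := by
    refine ((countable_zeros hH h0).preimage_of_injOn (f := fun y : ℝ => pp t y) ?_).mono ?_
    · intro y _ y' _ h
      simpa [pp] using h
    · intro y hy
      exact ⟨by rwa [pp_re], hy⟩
  exact hc.ae_notMem volume

end zeros

/-- continuity of a function along the line `Re w = t` -/
theorem cont_line {φ : ℂ → ℝ} {t : ℝ} (hφ : ∀ y : ℝ, ContinuousAt φ (pp t y)) : Continuous fun y => φ (pp t y) := by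
  rw [continuous_iff_continuousAt]
  intro y
  exact ContinuousAt.comp (f := fun y => pp t y) (hφ y) (hasDerivAt_pp_right t y).continuousAt

/-- **The lower bound for the means of `log⁺ ‖H‖`.** -/
theorem core (hH : ∀ w : ℂ, 0 < w.re → AnalyticAt ℂ H w) (h0 : ∃ w : ℂ, 0 < w.re ∧ H w ≠ 0)
    (hp : ∀ w : ℂ, 0 < w.re → H (w + 2 * π * I) = H w) {e : ℂ → ℝ} (he : ∀ w : ℂ, 0 < w.re → ContinuousAt e w)
    (he0 : ∀ w : ℂ, 0 < w.re → 0 ≤ e w) (hle : ∀ w : ℂ, 0 < w.re → H w ≠ 0 → e w ≤ fsd (H w) (deriv H w)) :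
    ∃ C : ℝ, 0 ≤ C ∧ ∀ X : ℝ, 1 ≤ X →
      ∫ t in (1 : ℝ)..X, (X - t) * ∫ y in (0 : ℝ)..2 * π, e (pp t y) ≤ (∫ y in (0 : ℝ)..2 * π, Real.posLog ‖H (pp X y)‖) + C * (1 + X) := by
  obtain ⟨a, ha1, ha2, hane⟩ := exists_line hH h0
  have ha : 0 < a := by linarith
  have h2π : (0 : ℝ) ≤ 2 * π := by positivity
  have hpa : ∀ y, 0 < (pp a y).re := fun y => by rw [pp_re]; exact ha
  set C₁ : ℝ := ∫ y in (0 : ℝ)..2 * π, Real.log ‖H (pp a y)‖ with hC₁
  set C₂ : ℝ := ∫ y in (0 : ℝ)..2 * π, -(‖deriv H (pp a y)‖ / ‖H (pp a y)‖) with hC₂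
  refine ⟨2 * π + |C₁| + |C₂|, by positivity, fun X hX => ?_⟩
  have hX0 : 0 < X := by linarith
  have haX : a ≤ X := by linarith
  have hpX : ∀ y, 0 < (pp X y).re := fun y => by rw [pp_re]; exact hX0
  -- the estimate for every `δ ∈ (0, 1]`
  have key : ∀ δ : ℝ, 0 < δ → δ ≤ 1 → ∫ t in a..X, (X - t) * ∫ y in (0 : ℝ)..2 * π, e (pp t y) * wt H δ (pp t y) ≤
      (∫ y in (0 : ℝ)..2 * π, Real.posLog ‖H (pp X y)‖) + (2 * π + |C₁| + |C₂|) * (1 + X) := by
    intro δ hδ hδ1
    have hu : ∀ w : ℂ, 0 < w.re → ContDiffAt ℝ 2 (ue H δ) w := fun w hw => contDiffAt_ue (hH w hw) hδ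
    have hup : ∀ w : ℂ, 0 < w.re → ue H δ (w + 2 * π * I) = ue H δ w := fun w hw => by unfold ue; rw [hp w hw]
    have hs := strip hu hup ha haX
    have hcu : ∀ w : ℂ, 0 < w.re → ContinuousAt (ue H δ) w := fun w hw => (hu w hw).continuousAt
    have hclap : ∀ w : ℂ, 0 < w.re → ContinuousAt (Δ (ue H δ)) w := by
      intro w hw
      have h1 : (fun w => dd (ue H δ) 1 w + dd (ue H δ) I w) =ᶠ[𝓝 w] Δ (ue H δ) := by
        have : {z : ℂ | 0 < z.re} ∈ 𝓝 w := (isOpen_lt continuous_const continuous_re).mem_nhds hw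
        filter_upwards [this] with z hz
        rw [Pool.Agent.H30M.lap_eq (hu z hz)]
        rfl
      exact ((continuousAt_dd 1 (hu w hw)).add (continuousAt_dd I (hu w hw))).congr h1
    have hcwt : ∀ w : ℂ, 0 < w.re → ContinuousAt (fun w => e w * wt H δ w) w := by
      intro w hw
      have h1 : ContinuousAt (fun w => ‖H w‖ ^ 2) w := ((hH w hw).continuousAt.norm).pow 2
      have h2 : ‖H w‖ ^ 2 + δ ≠ 0 := by positivity
      exact (he w hw).mul ((h1.div (h1.add continuousAt_const) h2).pow 2)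
    -- the three terms
    have b1 : ∫ y in (0 : ℝ)..2 * π, ue H δ (pp X y) ≤ (∫ y in (0 : ℝ)..2 * π, Real.posLog ‖H (pp X y)‖) + 2 * π := by
      have hcp : Continuous fun y => Real.posLog ‖H (pp X y)‖ :=
        cont_line (φ := fun w => Real.posLog ‖H w‖) fun y => Real.continuous_posLog.continuousAt.comp (hH _ (hpX y)).continuousAt.norm
      have h1 : ∫ y in (0 : ℝ)..2 * π, ue H δ (pp X y) ≤ ∫ y in (0 : ℝ)..2 * π, (Real.posLog ‖H (pp X y)‖ + 1) :=
        intervalIntegral.integral_mono_on h2π (vint hcu hX0 _ _) ((hcp.add continuous_const).intervalIntegrable _ _)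
          fun y _ => ue_le hδ hδ1
      rw [intervalIntegral.integral_add (hcp.intervalIntegrable _ _) (by simp)] at h1
      simpa using h1
    have b2 : C₁ ≤ ∫ y in (0 : ℝ)..2 * π, ue H δ (pp a y) := by
      refine intervalIntegral.integral_mono_on h2π ?_ (vint hcu ha _ _) fun y _ => log_norm_le_ue hδ (hane y)
      exact (cont_line (φ := fun w => Real.log ‖H w‖) fun y =>
        (hH _ (hpa y)).continuousAt.norm.log (norm_ne_zero_iff.2 (hane y))).intervalIntegrable _ _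
    have b3 : C₂ ≤ ∫ y in (0 : ℝ)..2 * π, fderiv ℝ (ue H δ) (pp a y) 1 := by
      refine intervalIntegral.integral_mono_on h2π ?_ (vint (fun w hw => (contDiffAt_fderiv_apply 1 (hu w hw)).continuousAt) ha _ _)
        fun y _ => abs_fderiv_ue_le (hH _ (hpa y)) hδ (hane y)
      exact (cont_line (φ := fun w => -(‖deriv H w‖ / ‖H w‖)) fun y =>
        ((hH _ (hpa y)).deriv.continuousAt.norm.div (hH _ (hpa y)).continuousAt.norm (norm_ne_zero_iff.2 (hane y))).neg).intervalIntegrable _ _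
    have b4 : ∫ t in a..X, (X - t) * ∫ y in (0 : ℝ)..2 * π, e (pp t y) * wt H δ (pp t y) ≤
        ∫ t in a..X, (X - t) * ∫ y in (0 : ℝ)..2 * π, Δ (ue H δ) (pp t y) := by
      have hsub : uIcc a X ⊆ Ioi 0 := by
        rw [uIcc_of_le haX]
        exact fun t ht => ha.trans_le ht.1
      refine intervalIntegral.integral_mono_on haX ?_ ?_ ?_
      · exact (ContinuousOn.mul (by fun_prop) ((continuousOn_vint hcwt 0 (2 * π)).mono hsub)).intervalIntegrable
      · exact (ContinuousOn.mul (by fun_prop) ((continuousOn_vint hclap 0 (2 * π)).mono hsub)).intervalIntegrable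
      · intro t ht
        have ht0 : 0 < t := ha.trans_le ht.1
        apply mul_le_mul_of_nonneg_left _ (sub_nonneg.2 ht.2)
        refine intervalIntegral.integral_mono_on h2π (vint hcwt ht0 _ _) (vint hclap ht0 _ _) fun y _ => ?_
        have hpt : 0 < (pp t y).re := by rwa [pp_re]
        exact mul_wt_le_lap (hH _ hpt) hδ (he0 _ hpt) (hle _ hpt)
    have b5 : -(|C₂| * X) ≤ (X - a) * ∫ y in (0 : ℝ)..2 * π, fderiv ℝ (ue H δ) (pp a y) 1 := by
      have h1 : (X - a) * C₂ ≤ (X - a) * ∫ y in (0 : ℝ)..2 * π, fderiv ℝ (ue H δ) (pp a y) 1 :=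
        mul_le_mul_of_nonneg_left b3 (sub_nonneg.2 haX)
      have h2 : -|C₂| ≤ C₂ := neg_abs_le _
      nlinarith [abs_nonneg C₂, mul_le_mul_of_nonneg_left h2 (sub_nonneg.2 haX)]
    have h3 : -|C₁| ≤ C₁ := neg_abs_le _
    have h4 : 0 ≤ |C₁| * X := by positivity
    have h5 : 0 ≤ 2 * π * X := by positivity
    have h6 := abs_nonneg C₂
    nlinarith
  -- the limit
  have hsub : uIcc a X ⊆ Ioi 0 := by
    rw [uIcc_of_le haX]
    exact fun t ht => ha.trans_le ht.1
  have hcI : ContinuousOn (fun t => ∫ y in (0 : ℝ)..2 * π, e (pp t y)) (Ioi 0) := continuousOn_vint he _ _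
  let δ : ℕ → ℝ := fun n => 1 / ((n : ℝ) + 1)
  have hδ : ∀ n, 0 < δ n := fun n => by positivity
  have hδ1 : ∀ n, δ n ≤ 1 := fun n => by
    simp only [δ]
    rw [div_le_one (by positivity)]
    have : (0 : ℝ) ≤ n := Nat.cast_nonneg n
    linarith
  have hδt : Tendsto δ atTop (𝓝 0) := tendsto_one_div_add_atTop_nhds_zero_nat
  have hcwt : ∀ n, ∀ w : ℂ, 0 < w.re → ContinuousAt (fun w => e w * wt H (δ n) w) w := by
    intro n w hw
    have h1 : ContinuousAt (fun w => ‖H w‖ ^ 2) w := ((hH w hw).continuousAt.norm).pow 2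
    have h3 := hδ n
    have h2 : ‖H w‖ ^ 2 + δ n ≠ 0 := by positivity
    exact (he w hw).mul ((h1.div (h1.add continuousAt_const) h2).pow 2)
  have hb : ∀ n, ∀ w : ℂ, 0 < w.re → ‖e w * wt H (δ n) w‖ ≤ e w := by
    intro n w hw
    rw [Real.norm_eq_abs, abs_of_nonneg (mul_nonneg (he0 w hw) (wt_nonneg w))]
    exact mul_le_of_le_one_right (he0 w hw) (wt_le_one (hδ n) w)
  have hlim1 : ∀ t : ℝ, 0 < t → Tendsto (fun n => ∫ y in (0 : ℝ)..2 * π, e (pp t y) * wt H (δ n) (pp t y)) atTop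
      (𝓝 (∫ y in (0 : ℝ)..2 * π, e (pp t y))) := by
    intro t ht
    have hpt : ∀ y, 0 < (pp t y).re := fun y => by rwa [pp_re]
    refine intervalIntegral.tendsto_integral_filter_of_dominated_convergence (fun y => e (pp t y)) ?_ ?_ (vint he ht _ _) ?_
    · exact Eventually.of_forall fun n => (cont_line (φ := fun w => e w * wt H (δ n) w) fun y => hcwt n _ (hpt y)).aestronglyMeasurable
    · exact Eventually.of_forall fun n => Eventually.of_forall fun y _ => hb n _ (hpt y)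
    · filter_upwards [ae_line hH h0 ht] with y hy _
      have hn : 0 < ‖H (pp t y)‖ := norm_pos_iff.2 hy
      have h1 : Tendsto (fun n => wt H (δ n) (pp t y)) atTop (𝓝 ((‖H (pp t y)‖ ^ 2 / (‖H (pp t y)‖ ^ 2 + 0)) ^ 2)) :=
        ((tendsto_const_nhds.div (tendsto_const_nhds.add hδt) (by positivity))).pow 2
      have h2 : (‖H (pp t y)‖ ^ 2 / (‖H (pp t y)‖ ^ 2 + 0)) ^ 2 = 1 := by
        rw [add_zero, div_self (by positivity), one_pow]
      rw [h2] at h1
      simpa using h1.const_mul (e (pp t y))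
  have hlim2 : Tendsto (fun n => ∫ t in a..X, (X - t) * ∫ y in (0 : ℝ)..2 * π, e (pp t y) * wt H (δ n) (pp t y)) atTop
      (𝓝 (∫ t in a..X, (X - t) * ∫ y in (0 : ℝ)..2 * π, e (pp t y))) := by
    refine intervalIntegral.tendsto_integral_filter_of_dominated_convergence (fun t => (X - t) * ∫ y in (0 : ℝ)..2 * π, e (pp t y)) ?_ ?_ ?_ ?_
    · refine Eventually.of_forall fun n => ?_
      have h1 : ContinuousOn (fun t => (X - t) * ∫ y in (0 : ℝ)..2 * π, e (pp t y) * wt H (δ n) (pp t y)) (uIcc a X) :=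
        ContinuousOn.mul (by fun_prop) ((continuousOn_vint (hcwt n) 0 (2 * π)).mono hsub)
      exact (h1.mono uIoc_subset_uIcc).aestronglyMeasurable measurableSet_uIoc
    · refine Eventually.of_forall fun n => Eventually.of_forall fun t ht => ?_
      rw [uIoc_of_le haX] at ht
      have ht0 : 0 < t := ha.trans ht.1
      have hpt : ∀ y, 0 < (pp t y).re := fun y => by rwa [pp_re]
      rw [norm_mul, Real.norm_eq_abs, abs_of_nonneg (sub_nonneg.2 ht.2)]
      apply mul_le_mul_of_nonneg_left _ (sub_nonneg.2 ht.2)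
      exact intervalIntegral.norm_integral_le_of_norm_le h2π (Eventually.of_forall fun y _ => hb n _ (hpt y)) (vint he ht0 _ _)
    · exact (ContinuousOn.mul (by fun_prop) (hcI.mono hsub)).intervalIntegrable
    · refine Eventually.of_forall fun t ht => ?_
      rw [uIoc_of_le haX] at ht
      exact (hlim1 t (ha.trans ht.1)).const_mul _
  have hfin := le_of_tendsto' hlim2 fun n => key (δ n) (hδ n) (hδ1 n)
  refine le_trans ?_ hfin
  have hint : ∀ c d : ℝ, 0 < c → 0 < d → IntervalIntegrable (fun t => (X - t) * ∫ y in (0 : ℝ)..2 * π, e (pp t y)) volume c d := by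
    intro c d hc hd
    refine (ContinuousOn.mul (by fun_prop) (hcI.mono ?_)).intervalIntegrable
    intro t ht
    rcases le_total c d with h | h
    · rw [uIcc_of_le h] at ht; exact hc.trans_le ht.1
    · rw [uIcc_of_ge h] at ht; exact hd.trans_le ht.1
  rw [← intervalIntegral.integral_add_adjacent_intervals (hint a 1 ha one_pos) (hint 1 X one_pos hX0)]
  have hpos : 0 ≤ ∫ t in a..1, (X - t) * ∫ y in (0 : ℝ)..2 * π, e (pp t y) := by
    refine intervalIntegral.integral_nonneg ha2.le fun t ht => ?_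
    have ht0 : 0 < t := ha.trans_le ht.1
    refine mul_nonneg (by linarith [ht.2]) (intervalIntegral.integral_nonneg h2π fun y _ => he0 _ (by rwa [pp_re]))
  linarith

end Pool.Agent.GA.StripN

end
end

section

/-!
# GA Ring: the ring `OO` of small periodic functions on the half-plane, as a subalgebra of `ℂ → ℂ`
-/

set_option autoImplicit false

open Filter Topology MeasureTheory intervalIntegral Set Complex
open scoped Real

noncomputable section

namespace Pool.Agent.GA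

theorem Rg.isOpen_HP : IsOpen HP := isOpen_lt continuous_const continuous_re

variable {s : ℂ → ℝ} {X : ℕ → ℝ}

/-! ## elementary facts on the levels -/

theorem Lev.tau_ge (L : Lev s X) (n : ℕ) : ((n : ℝ) + 1) * ((n : ℝ) + 4) ≤ tau s X n :=
  (mul_le_mul_of_nonneg_left (L.big n) (by positivity)).trans (L.sub n)

theorem Lev.tau_ge' (L : Lev s X) (n : ℕ) : (n : ℝ) + 4 ≤ tau s X n := by
  have h1 := L.tau_ge n
  have h2 : (0 : ℝ) ≤ n := Nat.cast_nonneg n
  nlinarith

theorem Lev.tau_pos (L : Lev s X) (n : ℕ) : 0 < tau s X n := by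
  have h1 := L.tau_ge' n
  have h2 : (0 : ℝ) ≤ n := Nat.cast_nonneg n
  linarith

theorem Lev.tau_atTop (L : Lev s X) : Tendsto (tau s X) atTop atTop := by
  refine tendsto_atTop_mono (f := fun n : ℕ => (n : ℝ)) (fun n => ?_) tendsto_natCast_atTop_atTop
  have := L.tau_ge' n
  linarith

theorem Lev.two_div (L : Lev s X) (n : ℕ) : 2 / tau s X n ≤ 1 / 2 := by
  rw [div_le_div_iff₀ (L.tau_pos n) two_pos]
  have h1 := L.tau_ge' n
  have h2 : (0 : ℝ) ≤ n := Nat.cast_nonneg n
  linarith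

theorem Lev.xi_ge (L : Lev s X) (n : ℕ) : (n : ℝ) + 3 ≤ xi s X n := by
  have h1 := L.two_div n
  have h2 := L.big n
  unfold xi
  linarith

theorem Lev.xi_pos (L : Lev s X) (n : ℕ) : 0 < xi s X n := by
  have h1 := L.xi_ge n
  have h2 : (0 : ℝ) ≤ n := Nat.cast_nonneg n
  linarith

theorem Lev.xi_lt (L : Lev s X) (n : ℕ) : xi s X n < X n := by
  have h1 := div_pos two_pos (L.tau_pos n)
  unfold xi
  linarith

/-- `X n = o (tau n)` -/
theorem Lev.smallX (L : Lev s X) : SmallN s X X := by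
  unfold SmallN
  have h0 : Tendsto (fun n : ℕ => 1 / ((n : ℝ) + 1)) atTop (𝓝 0) := tendsto_one_div_add_atTop_nhds_zero_nat
  refine squeeze_zero (fun n => ?_) (fun n => ?_) h0
  · have h1 := L.big n
    have h2 : (0 : ℝ) ≤ n := Nat.cast_nonneg n
    exact div_nonneg (by linarith) (L.tau_pos n).le
  · rw [div_le_div_iff₀ (L.tau_pos n) (by positivity), one_mul, mul_comm]
    exact L.sub n

theorem SmallN.mono (L : Lev s X) {η ζ : ℕ → ℝ} (h : SmallN s X η) (h0 : ∀ n, 0 ≤ ζ n) (h1 : ∀ n, ζ n ≤ η n) : SmallN s X ζ :=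
  squeeze_zero (fun n => div_nonneg (h0 n) (L.tau_pos n).le) (fun n => div_le_div_of_nonneg_right (h1 n) (L.tau_pos n).le) h

theorem SmallN.add {η ζ : ℕ → ℝ} (h : SmallN s X η) (h' : SmallN s X ζ) : SmallN s X fun n => η n + ζ n := by
  unfold SmallN at *
  have := h.add h'
  simp only [add_zero] at this
  exact this.congr fun n => (add_div _ _ _).symm

theorem SmallN.const_mul {η : ℕ → ℝ} (h : SmallN s X η) (c : ℝ) : SmallN s X fun n => c * η n := by
  unfold SmallN at *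
  have := Tendsto.const_mul c h
  simp only [mul_zero] at this
  exact this.congr fun n => by ring

theorem smallN_const (L : Lev s X) (c : ℝ) : SmallN s X fun _ => c := tendsto_const_nhds.div_atTop L.tau_atTop

/-- `log tau n = o (tau n)` -/
theorem smallN_log (L : Lev s X) : SmallN s X fun n => Real.log (tau s X n) := by
  have h1 : Tendsto (fun x : ℝ => Real.log x / x) atTop (𝓝 0) := by
    have := Real.isLittleO_log_id_atTop.tendsto_div_nhds_zero
    simpa using this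
  exact h1.comp L.tau_atTop

/-! ## means -/

theorem Rg.line_mem {t : ℝ} (ht : 0 < t) (y : ℝ) : (t + y * I : ℂ) ∈ HP := by
  simp [HP, ht]

theorem Rg.continuous_line {E : Type} [TopologicalSpace E] {g : ℂ → E} (hg : ContinuousOn g HP) {t : ℝ} (ht : 0 < t) :
    Continuous fun y : ℝ => g (t + y * I) := by
  rw [continuous_iff_continuousAt]
  intro y
  have h1 : ContinuousAt g (t + y * I) := hg.continuousAt (Rg.isOpen_HP.mem_nhds (Rg.line_mem ht y))
  exact ContinuousAt.comp (f := fun y : ℝ => (t + y * I : ℂ)) (g := g) h1 (by fun_prop)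

theorem Rg.cont_of_an {g : ℂ → ℂ} (hg : ∀ w ∈ HP, AnalyticAt ℂ g w) : ContinuousOn g HP :=
  fun w hw => (hg w hw).continuousAt.continuousWithinAt

theorem Rg.cont_posLog {g : ℂ → ℂ} (hg : ContinuousOn g HP) : ContinuousOn (fun w => Real.posLog ‖g w‖) HP :=
  Real.continuous_posLog.comp_continuousOn hg.norm

theorem mn_nonneg {h : ℂ → ℝ} {t : ℝ} (h0 : ∀ y : ℝ, 0 ≤ h (t + y * I)) : 0 ≤ mn h t :=
  intervalIntegral.integral_nonneg (by positivity) fun y _ => h0 y

theorem mn_mono {g h : ℂ → ℝ} (hg : ContinuousOn g HP) (hh : ContinuousOn h HP) {t : ℝ} (ht : 0 < t)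
    (hle : ∀ y : ℝ, g (t + y * I) ≤ h (t + y * I)) : mn g t ≤ mn h t :=
  intervalIntegral.integral_mono_on (μ := volume) (by positivity) ((Rg.continuous_line hg ht).intervalIntegrable _ _)
    ((Rg.continuous_line hh ht).intervalIntegrable _ _) fun y _ => hle y

theorem mn_congr {g h : ℂ → ℝ} (e : EqOn g h HP) {t : ℝ} (ht : 0 < t) : mn g t = mn h t := by
  unfold mn
  congr 1
  funext y
  exact e (Rg.line_mem ht y)

theorem mn_add {g h : ℂ → ℝ} (hg : ContinuousOn g HP) (hh : ContinuousOn h HP) {t : ℝ} (ht : 0 < t) :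
    mn (fun w => g w + h w) t = mn g t + mn h t :=
  intervalIntegral.integral_add ((Rg.continuous_line hg ht).intervalIntegrable _ _) ((Rg.continuous_line hh ht).intervalIntegrable _ _)

theorem mn_const (c t : ℝ) : mn (fun _ => c) t = 2 * π * c := by
  unfold mn
  rw [intervalIntegral.integral_const, sub_zero, smul_eq_mul]

theorem mn_posLog_nonneg (g : ℂ → ℂ) (t : ℝ) : 0 ≤ mn (fun w => Real.posLog ‖g w‖) t := mn_nonneg fun _ => Real.posLog_nonneg

theorem mn_posLog_add {g h : ℂ → ℂ} (hg : ContinuousOn g HP) (hh : ContinuousOn h HP) {t : ℝ} (ht : 0 < t) :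
    mn (fun w => Real.posLog ‖g w + h w‖) t ≤ 2 * π * Real.log 2 + (mn (fun w => Real.posLog ‖g w‖) t + mn (fun w => Real.posLog ‖h w‖) t) := by
  have e1 := mn_add (Rg.cont_posLog hg) (Rg.cont_posLog hh) ht
  have e2 := mn_add (g := fun _ => Real.log 2) (h := fun w => Real.posLog ‖g w‖ + Real.posLog ‖h w‖) continuousOn_const
    ((Rg.cont_posLog hg).add (Rg.cont_posLog hh)) ht
  rw [mn_const, e1] at e2
  rw [← e2]
  refine mn_mono (Rg.cont_posLog (hg.add hh)) (continuousOn_const.add ((Rg.cont_posLog hg).add (Rg.cont_posLog hh))) ht fun y => ?_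
  have := Real.posLog_norm_add_le (g (t + y * I)) (h (t + y * I))
  simp only [Pi.add_apply]
  linarith

theorem mn_posLog_mul {g h : ℂ → ℂ} (hg : ContinuousOn g HP) (hh : ContinuousOn h HP) {t : ℝ} (ht : 0 < t) :
    mn (fun w => Real.posLog ‖g w * h w‖) t ≤ mn (fun w => Real.posLog ‖g w‖) t + mn (fun w => Real.posLog ‖h w‖) t := by
  rw [← mn_add (Rg.cont_posLog hg) (Rg.cont_posLog hh) ht]
  refine mn_mono (Rg.cont_posLog (hg.mul hh)) ((Rg.cont_posLog hg).add (Rg.cont_posLog hh)) ht fun y => ?_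
  simp only [Pi.mul_apply, norm_mul]
  exact Real.posLog_mul

/-! ## the ring -/

/-- the mean of `log⁺ |g|` is small -/
def SmM (s : ℂ → ℝ) (X : ℕ → ℝ) (g : ℂ → ℂ) : Prop := SmallN s X fun n => mn (fun w => Real.posLog ‖g w‖) (xi s X n)

theorem SmM.congr (L : Lev s X) {g h : ℂ → ℂ} (hg : SmM s X g) (e : EqOn g h HP) : SmM s X h := by
  unfold SmM SmallN at *
  refine hg.congr fun n => ?_
  have := mn_congr (g := fun w => Real.posLog ‖g w‖) (h := fun w => Real.posLog ‖h w‖) (fun w hw => by simp only [e hw]) (L.xi_pos n)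
  simp only [this]

theorem SmM.add (L : Lev s X) {g h : ℂ → ℂ} (ag : ContinuousOn g HP) (ah : ContinuousOn h HP) (hg : SmM s X g) (hh : SmM s X h) :
    SmM s X (g + h) :=
  SmallN.mono L ((smallN_const L (2 * π * Real.log 2)).add (SmallN.add hg hh)) (fun _ => mn_posLog_nonneg _ _)
    fun n => mn_posLog_add ag ah (L.xi_pos n)

theorem SmM.mul (L : Lev s X) {g h : ℂ → ℂ} (ag : ContinuousOn g HP) (ah : ContinuousOn h HP) (hg : SmM s X g) (hh : SmM s X h) :
    SmM s X (g * h) :=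
  SmallN.mono L (SmallN.add hg hh) (fun _ => mn_posLog_nonneg _ _) fun n => mn_posLog_mul ag ah (L.xi_pos n)

theorem smM_const (L : Lev s X) (c : ℂ) : SmM s X (fun _ => c) :=
  SmallN.mono L (smallN_const L (2 * π * Real.posLog ‖c‖)) (fun _ => mn_posLog_nonneg _ _) fun _ => (mn_const _ _).le

theorem Rg.iter_congr {g h : ℂ → ℂ} (e : EqOn g h HP) (j : ℕ) : EqOn (iteratedDeriv j g) (iteratedDeriv j h) HP := by
  intro w hw
  have : g =ᶠ[𝓝 w] h := by
    filter_upwards [Rg.isOpen_HP.mem_nhds hw] with z hz using e hz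
  exact this.iteratedDeriv_eq j

theorem Rg.an_iter {g : ℂ → ℂ} (hg : ∀ w ∈ HP, AnalyticAt ℂ g w) (j : ℕ) : ∀ w ∈ HP, AnalyticAt ℂ (iteratedDeriv j g) w := by
  have h1 : AnalyticOnNhd ℂ (iteratedDeriv j g) HP := by
    induction j with
    | zero => rw [iteratedDeriv_zero]; exact hg
    | succ j ih => rw [iteratedDeriv_succ]; exact ih.deriv
  exact h1

theorem Rg.iter_add {g h : ℂ → ℂ} (hg : ∀ w ∈ HP, AnalyticAt ℂ g w) (hh : ∀ w ∈ HP, AnalyticAt ℂ h w) (j : ℕ) :
    EqOn (iteratedDeriv j (g + h)) (iteratedDeriv j g + iteratedDeriv j h) HP := by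
  intro w hw
  rw [Pi.add_apply, iteratedDeriv_add ((hg w hw).contDiffAt) ((hh w hw).contDiffAt)]

theorem Rg.all_mul (L : Lev s X) (j : ℕ) : ∀ {g h : ℂ → ℂ}, (∀ w ∈ HP, AnalyticAt ℂ g w) → (∀ w ∈ HP, AnalyticAt ℂ h w) →
    (∀ j, SmM s X (iteratedDeriv j g)) → (∀ j, SmM s X (iteratedDeriv j h)) → SmM s X (iteratedDeriv j (g * h)) := by
  induction j with
  | zero =>
    intro g h ag ah hg hh
    simpa using SmM.mul L (Rg.cont_of_an ag) (Rg.cont_of_an ah) (by simpa using hg 0) (by simpa using hh 0)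
  | succ j ih =>
    intro g h ag ah hg hh
    have e : EqOn (deriv (g * h)) (deriv g * h + g * deriv h) HP := by
      intro w hw
      rw [deriv_mul (ag w hw).differentiableAt (ah w hw).differentiableAt]
      rfl
    have hg' : ∀ j, SmM s X (iteratedDeriv j (deriv g)) := fun j => by
      have := hg (j + 1)
      rwa [iteratedDeriv_succ'] at this
    have hh' : ∀ j, SmM s X (iteratedDeriv j (deriv h)) := fun j => by
      have := hh (j + 1)
      rwa [iteratedDeriv_succ'] at this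
    have adg : ∀ w ∈ HP, AnalyticAt ℂ (deriv g) w := fun w hw => (ag w hw).deriv
    have adh : ∀ w ∈ HP, AnalyticAt ℂ (deriv h) w := fun w hw => (ah w hw).deriv
    have a1 : ∀ w ∈ HP, AnalyticAt ℂ (deriv g * h) w := fun w hw => (adg w hw).mul (ah w hw)
    have a2 : ∀ w ∈ HP, AnalyticAt ℂ (g * deriv h) w := fun w hw => (ag w hw).mul (adh w hw)
    rw [iteratedDeriv_succ']
    have h1 := ih adg ah hg' hh
    have h2 := ih ag adh hg hh'
    have h3 := SmM.add L (Rg.cont_of_an (Rg.an_iter a1 j)) (Rg.cont_of_an (Rg.an_iter a2 j)) h1 h2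
    refine SmM.congr L h3 ?_
    intro w hw
    rw [← Rg.iter_add a1 a2 j hw]
    exact (Rg.iter_congr e j hw).symm

theorem Rg.iter_const (c : ℂ) (j : ℕ) : iteratedDeriv j (fun _ : ℂ => c) = fun _ => if j = 0 then c else 0 := by
  induction j with
  | zero => simp
  | succ j ih =>
    rw [iteratedDeriv_succ, ih]
    funext w
    simp

/-- The ring of small functions. -/
def OO (L : Lev s X) : Subalgebra ℂ (ℂ → ℂ) where
  carrier := {g | IsOO s X g}
  mul_mem' := by
    rintro g h ⟨ag, pg, sg⟩ ⟨ah, ph, sh⟩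
    exact ⟨fun w hw => (ag w hw).mul (ah w hw), fun w hw => by rw [Pi.mul_apply, Pi.mul_apply, pg w hw, ph w hw],
      fun j => Rg.all_mul L j ag ah sg sh⟩
  add_mem' := by
    rintro g h ⟨ag, pg, sg⟩ ⟨ah, ph, sh⟩
    refine ⟨fun w hw => (ag w hw).add (ah w hw), fun w hw => by rw [Pi.add_apply, Pi.add_apply, pg w hw, ph w hw], fun j => ?_⟩
    exact SmM.congr L (SmM.add L (Rg.cont_of_an (Rg.an_iter ag j)) (Rg.cont_of_an (Rg.an_iter ah j)) (sg j) (sh j))
      fun w hw => (Rg.iter_add ag ah j hw).symm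
  algebraMap_mem' := by
    intro c
    refine ⟨fun w _ => analyticAt_const, fun w _ => rfl, fun j => ?_⟩
    have h1 : (algebraMap ℂ (ℂ → ℂ) c) = fun _ => c := rfl
    rw [h1, Rg.iter_const]
    exact smM_const L _

theorem mem_OO {L : Lev s X} {g : ℂ → ℂ} : g ∈ OO L ↔ IsOO s X g := Iff.rfl

theorem deriv_mem {L : Lev s X} {g : ℂ → ℂ} (h : g ∈ OO L) : deriv g ∈ OO L := by
  obtain ⟨ag, pg, sg⟩ := h
  refine ⟨fun w hw => (ag w hw).deriv, fun w hw => ?_, fun j => ?_⟩
  · have h1 : (fun z => g (z + per)) =ᶠ[𝓝 w] g := by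
      filter_upwards [Rg.isOpen_HP.mem_nhds hw] with z hz using pg z hz
    have h2 := h1.deriv_eq
    rwa [deriv_comp_add_const] at h2
  · have := sg (j + 1)
    rwa [iteratedDeriv_succ'] at this

/-- A periodic holomorphic function whose means near the levels are small is in the ring. -/
theorem IsOO.of_mean (hX : Lev s X) {a : ℂ → ℂ} (han : ∀ w ∈ HP, AnalyticAt ℂ a w) (hper : ∀ w ∈ HP, a (w + per) = a w) {η : ℕ → ℝ}
    (hη : SmallN s X η)
    (h : ∀ᶠ n in atTop, ∀ t ∈ Set.Icc (xi s X n - 1 / tau s X n) (xi s X n + 1 / tau s X n), mn (fun w => Real.posLog ‖a w‖) t ≤ η n) :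
    IsOO s X a := by
  refine ⟨han, hper, fun j => ?_⟩
  have hs : SmallN s X fun n => 2 * π * Real.posLog (j.factorial : ℝ) + 2 * π * (j * Real.log (2 * tau s X n)) + 6 * η n := by
    refine ((smallN_const hX _).add (SmallN.const_mul (SmallN.const_mul ?_ j) _)).add (hη.const_mul 6)
    have h1 : SmallN s X fun n => Real.log 2 + Real.log (tau s X n) := (smallN_const hX _).add (smallN_log hX)
    have h2 : (fun n => Real.log (2 * tau s X n)) = fun n => Real.log 2 + Real.log (tau s X n) := by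
      funext n
      rw [Real.log_mul two_ne_zero (hX.tau_pos n).ne']
    rw [h2]
    exact h1
  refine squeeze_zero' (Eventually.of_forall fun n => div_nonneg (mn_posLog_nonneg _ _) (hX.tau_pos n).le) ?_ hs
  filter_upwards [h] with n h
  refine div_le_div_of_nonneg_right ?_ (hX.tau_pos n).le
  have hτ := hX.tau_pos n
  have h2 : 2 * (1 / (2 * tau s X n)) = 1 / tau s X n := by field_simp
  have hd : 1 / tau s X n ≤ 1 := by
    have := hX.tau_ge' n
    have h5 : (0 : ℝ) ≤ n := Nat.cast_nonneg n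
    rw [div_le_one hτ]
    linarith
  have hsub : ∀ z : ℂ, |z.re - xi s X n| ≤ 2 * (1 / (2 * tau s X n)) → z ∈ HP := by
    intro z hz
    rw [h2] at hz
    have h3 := hX.xi_ge n
    have h5 : (0 : ℝ) ≤ n := Nat.cast_nonneg n
    have h6 := (abs_le.mp hz).1
    show 0 < z.re
    linarith
  have h1 := rcore (g := a) (t := xi s X n) (r := 1 / (2 * tau s X n)) (B := η n) (by positivity) (fun z hz => han z (hsub z hz))
    (fun z hz => hper z (hsub z hz)) (fun t' ht' => h t' (by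
      rw [h2] at ht'
      have := abs_le.mp ht'
      exact ⟨by linarith [this.1], by linarith [this.2]⟩)) j
  refine h1.trans ?_
  have h7 : Real.posLog (j.factorial / (1 / (2 * tau s X n)) ^ j) ≤ Real.posLog (j.factorial : ℝ) + j * Real.log (2 * tau s X n) := by
    rw [one_div, inv_pow, div_inv_eq_mul]
    refine Real.posLog_mul.trans (add_le_add le_rfl ?_)
    rw [Real.posLog_pow, Real.posLog_eq_log]
    have := hX.tau_ge' n
    have h5 : (0 : ℝ) ≤ n := Nat.cast_nonneg n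
    rw [abs_of_pos (by positivity)]
    linarith
  have h8 : (0 : ℝ) ≤ 2 * π := by positivity
  nlinarith [mul_le_mul_of_nonneg_left h7 h8]

end Pool.Agent.GA

end
end
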