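import Pool.Agent.H18.GGT.H17GT.Point
import Pool.Agent.H18.GGT.H23.Forms
import Pool.Agent.H18.GGT.M07
import Pool.Agent.H18.GGT.M09
import Pool.Agent.H18.GGT.M13
import Pool.Agent.H18.GGT.M19

/-! The parts of this file: H17GT.Main, GB.Lat, GG.Kd.Chn, H17EF.Bridge, H17EF.Closed, H68.KR.GL. -/

section

/-!
# Subvarieties of generic complete intersections are of general type
-/

open MvPolynomial

noncomputable section

namespace Pool.Agent.H17GT

variable {N c : ℕ}

theorem essFiniteType_functionField (P : Ideal (MvPolynomial (Fin (N + 1)) ℂ)) [P.IsPrime] :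
    Algebra.EssFiniteType ℂ (functionField P) := by
  rw [IntermediateField.essFiniteType_iff]
  have hfin : {y | ∃ i j, y = coordFun P i / coordFun P j}.Finite := by
    have : {y | ∃ i j, y = coordFun P i / coordFun P j} =
        Set.range fun q : Fin (N + 1) × Fin (N + 1) => coordFun P q.1 / coordFun P q.2 := by
      ext y
      constructor
      · rintro ⟨i, j, rfl⟩
        exact ⟨(i, j), rfl⟩
      · rintro ⟨⟨i, j⟩, rfl⟩
        exact ⟨i, j, rfl⟩
    rw [this]
    exact Set.finite_range _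
  refine ⟨hfin.toFinset, ?_⟩
  rw [functionField, Set.Finite.coe_toFinset]

end Pool.Agent.H17GT

end
end

section

/-!
# GB Lat: adapted coordinates at a prime divisor

PROOF.  `A i l = dualDer b i (φ l)`, a `k × κ` matrix of rank `κ` (the `dφ l` are independent, `A` are their coordinates in the basis `b`).  Among the
bijections `σ` with `det (A (σ (inr i)) l) ≠ 0` choose one with `E.ord` of this determinant minimal.  Cramer: the row `σ (inl j)` is `∑ i, n j i • (row σ (inr i))`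
with `n j i =` (determinant with the row `i` replaced) `/` (determinant), the numerator is `0` or the determinant of `σ ∘ swap (inl j) (inr i)`: `E.ord ≥ 0`.
-/

set_option autoImplicit false

open MvPolynomial
open Pool.Agent.H23 (dualDer)
open Pool.Agent.H23.Fano (PrimeDivisorOver Form)

namespace Pool.Agent.GB

/-- independent rows of a matrix with independent columns -/
private theorem exists_rows {K : Type} [Field K] {k d κ : ℕ} (hk : d + κ = k) (A : Fin k → Fin κ → K)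
    (hA : LinearIndependent K fun l i => A i l) :
    ∃ σ : Fin d ⊕ Fin κ ≃ Fin k, (Matrix.of fun i l => A (σ (Sum.inr i)) l).det ≠ 0 := by
  classical
  -- the rows span
  have hrank : (Matrix.of A).rank = κ := by
    have h1 : LinearIndependent K (Matrix.of A).col := hA
    simpa using h1.rank_matrix
  have hspan : Submodule.span K (Set.range A) = ⊤ := by
    apply Submodule.eq_top_of_finrank_eq
    have h2 := Matrix.rank_eq_finrank_span_row (Matrix.of A)
    rw [hrank] at h2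
    have h3 : Module.finrank K (Fin κ → K) = κ := by simp
    rw [h3]
    exact h2.symm
  obtain ⟨ι, a, ha, hs, hli⟩ := exists_linearIndependent' K A
  have hsp : ⊤ ≤ Submodule.span K (Set.range (A ∘ a)) := by rw [hs, hspan]
  let b := Module.Basis.mk hli hsp
  have : Finite ι := Finite.of_injective a ha
  have : Fintype ι := Fintype.ofFinite ι
  have hcard : Fintype.card ι = κ := by
    have := Module.finrank_eq_card_basis b
    simpa using this.symm
  let e : Fin κ ≃ ι := (Fintype.equivFinOfCardEq hcard).symm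
  -- the injection of the indices
  let r : Fin κ → Fin k := fun i => a (e i)
  have hr : Function.Injective r := ha.comp e.injective
  have hli' : LinearIndependent K fun i => A (r i) := hli.comp e e.injective
  -- extend it to a bijection
  have hc : Fintype.card {x : Fin k // x ∉ Set.range r} = d := by
    have h1 : Fintype.card {x : Fin k // x ∈ Set.range r} = κ := by
      rw [← Fintype.card_congr (Equiv.ofInjective r hr)]
      simp
    have h2 := Fintype.card_subtype_compl (fun x : Fin k => x ∈ Set.range r)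
    rw [h1, Fintype.card_fin] at h2
    rw [h2]
    omega
  let e₁ : Fin κ ≃ {x : Fin k // x ∈ Set.range r} := Equiv.ofInjective r hr
  let e₂ : Fin d ≃ {x : Fin k // x ∉ Set.range r} := (Fintype.equivFinOfCardEq hc).symm
  let σ : Fin d ⊕ Fin κ ≃ Fin k :=
    ((Equiv.sumCongr e₂ e₁).trans (Equiv.sumComm _ _)).trans (Equiv.sumCompl fun x => x ∈ Set.range r)
  refine ⟨σ, ?_⟩
  have hσ : ∀ i, σ (Sum.inr i) = r i := fun i => rfl
  have h1 : (Matrix.of fun i l => A (σ (Sum.inr i)) l) = Matrix.of fun i l => A (r i) l := by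
    ext i l
    simp only [Matrix.of_apply, hσ]
  rw [h1]
  intro h0
  have h2 : LinearIndependent K (Matrix.of fun i l => A (r i) l).row := hli'
  rw [Matrix.linearIndependent_rows_iff_isUnit, Matrix.isUnit_iff_isUnit_det, isUnit_iff_ne_zero] at h2
  exact h2 h0

theorem exists_lat {K : Type} [Field K] [Algebra ℂ K] {k d κ : ℕ} (hk : d + κ = k) {E : PrimeDivisorOver K k}
    {b : Module.Basis (Fin k) K Ω[K⁄ℂ]} {φ : Fin κ → K} (hφ : LinearIndependent K fun i => KaehlerDifferential.D ℂ K (φ i)) :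
    ∃ (σ : Fin d ⊕ Fin κ ≃ Fin k) (n : Fin d → Fin κ → K), (∀ j i, 0 ≤ E.ord (n j i)) ∧
      (Matrix.of fun i l => dualDer b (σ (Sum.inr i)) (φ l)).det ≠ 0 ∧
      ∀ j l, dualDer b (σ (Sum.inl j)) (φ l) = ∑ i, n j i * dualDer b (σ (Sum.inr i)) (φ l) := by
  classical
  have hA : LinearIndependent K fun (l : Fin κ) (i : Fin k) => dualDer b i (φ l) := by
    have h1 := hφ.map' (b.equivFun : Ω[K⁄ℂ] →ₗ[K] (Fin k → K)) (LinearEquiv.ker _)
    exact h1
  obtain ⟨σ₀, hσ₀⟩ := exists_rows hk (fun i l => dualDer b i (φ l)) hA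
  -- the choice of a minimal minor
  let S : Finset (Fin d ⊕ Fin κ ≃ Fin k) :=
    Finset.univ.filter fun σ => (Matrix.of fun i l => dualDer b (σ (Sum.inr i)) (φ l)).det ≠ 0
  obtain ⟨σ, hσS, hmin⟩ := S.exists_min_image
    (fun σ => E.ord (Matrix.of fun i l => dualDer b (σ (Sum.inr i)) (φ l)).det)
    ⟨σ₀, Finset.mem_filter.2 ⟨Finset.mem_univ _, hσ₀⟩⟩
  have hσ : (Matrix.of fun i l => dualDer b (σ (Sum.inr i)) (φ l)).det ≠ 0 := (Finset.mem_filter.1 hσS).2
  set B : Matrix (Fin κ) (Fin κ) K := Matrix.of fun i l => dualDer b (σ (Sum.inr i)) (φ l) with hB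
  refine ⟨σ, fun j i => (B.updateRow i fun l => dualDer b (σ (Sum.inl j)) (φ l)).det / B.det, ?_, hσ, ?_⟩
  · intro j i
    by_cases h0 : (B.updateRow i fun l => dualDer b (σ (Sum.inl j)) (φ l)).det = 0
    · show 0 ≤ E.ord (_ / B.det)
      rw [h0, zero_div, AddValuation.map_zero]
      exact le_top
    · have h1 : (Matrix.of fun i' l => dualDer b ((Equiv.swap (Sum.inl j) (Sum.inr i)).trans σ (Sum.inr i')) (φ l)) =
          B.updateRow i fun l => dualDer b (σ (Sum.inl j)) (φ l) := by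
        ext i' l
        rw [Matrix.updateRow_apply, Matrix.of_apply, Equiv.trans_apply]
        by_cases hi : i' = i
        · subst hi
          rw [Equiv.swap_apply_right, if_pos rfl]
        · rw [if_neg hi, Equiv.swap_apply_of_ne_of_ne (by simp) (by simpa using hi), hB, Matrix.of_apply]
      have h2 := hmin ((Equiv.swap (Sum.inl j) (Sum.inr i)).trans σ)
        (Finset.mem_filter.2 ⟨Finset.mem_univ _, by rw [h1]; exact h0⟩)
      simp only [h1] at h2
      have h3 : E.ord ((B.updateRow i fun l => dualDer b (σ (Sum.inl j)) (φ l)).det / B.det) + E.ord B.det =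
          E.ord (B.updateRow i fun l => dualDer b (σ (Sum.inl j)) (φ l)).det := by
        rw [← AddValuation.map_mul, div_mul_cancel₀ _ hσ]
      have h4 : E.ord B.det ≠ ⊤ := by
        intro h
        exact hσ ((AddValuation.top_iff _).1 h)
      have h5 : (0 : WithTop ℤ) + E.ord B.det ≤
          E.ord ((B.updateRow i fun l => dualDer b (σ (Sum.inl j)) (φ l)).det / B.det) + E.ord B.det := by
        rw [h3, zero_add]
        exact h2
      exact (WithTop.add_le_add_iff_right h4).1 h5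
  · intro j l
    have h1 := congrFun (Matrix.mulVec_cramer B.transpose fun l => dualDer b (σ (Sum.inl j)) (φ l)) l
    rw [Matrix.mulVec, dotProduct, Matrix.det_transpose, Pi.smul_apply, smul_eq_mul] at h1
    have h2 : dualDer b (σ (Sum.inl j)) (φ l) = (∑ i, B.transpose l i *
        (Matrix.cramer B.transpose fun l => dualDer b (σ (Sum.inl j)) (φ l)) i) / B.det := by
      rw [h1, mul_div_cancel_left₀ _ hσ]
    rw [h2, Finset.sum_div]
    refine Finset.sum_congr rfl fun i _ => ?_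
    rw [Matrix.cramer_transpose_apply, Matrix.transpose_apply, hB, Matrix.of_apply]
    ring

end Pool.Agent.GB

end

section

/-!
# GG Kd Chn: the chain rule at a point with `J ≠ 0`, and the comparison of two systems of local coordinates
-/

set_option autoImplicit false

open MvPolynomial
open Pool.Agent.H23 (dualDer dualDer_coord fc)
open Pool.Agent.H23.Fano (Form)

noncomputable section

namespace Pool.Agent.GG.Kd

variable {K : Type} [Field K] [Algebra ℂ K] {r r' k : ℕ}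

/-- the chain rule for a derivation -/
theorem der_aeval (D : Derivation ℂ K K) (y : Fin r → K) (G : MvPolynomial (Fin r) ℂ) :
    D (aeval y G) = ∑ l, aeval y (pderiv l G) * D (y l) := by
  classical
  induction G using MvPolynomial.induction_on with
  | C c => simp
  | add p q hp hq =>
    rw [map_add, map_add, hp, hq, ← Finset.sum_add_distrib]
    refine Finset.sum_congr rfl fun l _ => ?_
    rw [map_add, map_add]
    ring
  | mul_X p i hp =>
    rw [map_mul, aeval_X, Derivation.leibniz, hp, smul_eq_mul, smul_eq_mul]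
    have h1 : ∀ l, aeval y (pderiv l (p * X i)) * D (y l) =
        y i * (aeval y (pderiv l p) * D (y l)) + aeval y p * (aeval y (pderiv l (X i : MvPolynomial (Fin r) ℂ)) * D (y l)) := by
      intro l
      rw [Derivation.leibniz, map_add, smul_eq_mul, smul_eq_mul, map_mul, map_mul, aeval_X]
      ring
    simp only [h1, Finset.sum_add_distrib, ← Finset.mul_sum]
    rw [Finset.sum_eq_single (s := Finset.univ) (f := fun l => aeval y (pderiv l (X i : MvPolynomial (Fin r) ℂ)) * D (y l)) i]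
    · rw [pderiv_X_self, map_one, one_mul]
      ring
    · intro j _ hj
      rw [pderiv_X_of_ne (Ne.symm hj), map_zero, zero_mul]
    · intro h
      exact absurd (Finset.mem_univ i) h

/-- the differential of `t j` -/
def Dat.tau {y : Fin r → K} (d : Dat y k) (v : Fin r → ℂ) (j : Fin k) : ℂ := ∑ i, d.L j i * v i

theorem dpl_lf (w v l : Fin r → ℂ) : dpl w v (lf l) = ∑ i, l i * v i := by
  unfold dpl
  refine Finset.sum_congr rfl fun i _ => ?_
  rw [pderiv_lf, eval_C]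

section Chain

variable {y : Fin r → K} {w : Fin r → ℂ}

private theorem chn_gamma (d : Dat y k) {b : Module.Basis (Fin k) K Ω[K⁄ℂ]} (hb : ∀ j, b j = KaehlerDifferential.D ℂ K (d.t j)) (i : Fin r) :
    ∃ γ : Fin k → ℂ, (∀ j, dualDer b j (aeval y (d.G i)) = algebraMap ℂ K (γ j)) ∧
      ∀ v ∈ tan y w, dpl w v (d.G i) = ∑ j, γ j * d.tau v j := by
  classical
  rcases d.hG i with ⟨j₀, h⟩ | h
  · refine ⟨fun j => if j = j₀ then 1 else 0, fun j => ?_, fun v _ => ?_⟩
    · rw [h]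
      have h1 := dualDer_coord b hb j j₀
      rw [show aeval y (lf (d.L j₀)) = d.t j₀ from rfl]
      refine h1.trans ?_
      by_cases hj : j = j₀
      · simp [hj]
      · simp [hj]
    · rw [h, dpl_lf]
      simp [Dat.tau]
  · refine ⟨fun _ => 0, fun j => ?_, fun v hv => ?_⟩
    · rw [h, map_zero, map_zero]
    · rw [show dpl w v (d.G i) = 0 from hv _ h]
      simp

/-- The differentials of the generic coordinates at a point with `J ≠ 0`. -/
private theorem chn_coord (d : Dat y k) (hw : IsPt y w) (hJ : eval w d.J ≠ 0) {b : Module.Basis (Fin k) K Ω[K⁄ℂ]}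
    (hb : ∀ j, b j = KaehlerDifferential.D ℂ K (d.t j)) :
    ∃ e : Fin r → Fin k → ℂ, (∀ l j, Ev y w (dualDer b j (y l)) (e l j)) ∧ ∀ v ∈ tan y w, ∀ l, v l = ∑ j, e l j * d.tau v j := by
  classical
  choose γ hγ hγ' using fun i => chn_gamma (w := w) d hb i
  have hwB : IsPtB y w := isPtB_iff.2 hw
  set PM : Matrix (Fin r) (Fin r) (MvPolynomial (Fin r) ℂ) := fun i l => pderiv l (d.G i) with hPM
  have hdet : PM.det = d.J := rfl
  set My : Matrix (Fin r) (Fin r) K := fun i l => aeval y (PM i l) with hMy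
  set Mw : Matrix (Fin r) (Fin r) ℂ := fun i l => eval w (PM i l) with hMw
  have hMydet : My.det = aeval y d.J := by
    rw [← hdet]
    exact ((aeval y : MvPolynomial (Fin r) ℂ →ₐ[ℂ] K).toRingHom.map_det PM).symm
  have hMwdet : Mw.det = eval w d.J := by
    rw [← hdet]
    exact ((eval w).map_det PM).symm
  have hMyadj : ∀ i j, My.adjugate i j = aeval y (PM.adjugate i j) := fun i j =>
    (congrFun (congrFun ((aeval y : MvPolynomial (Fin r) ℂ →ₐ[ℂ] K).toRingHom.map_adjugate PM) i) j).symm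
  have hMwadj : ∀ i j, Mw.adjugate i j = eval w (PM.adjugate i j) := fun i j =>
    (congrFun (congrFun ((eval w).map_adjugate PM) i) j).symm
  have hJy : aeval y d.J ≠ 0 := by
    intro h
    exact hJ (hw _ h)
  refine ⟨fun l j => (∑ i, eval w (PM.adjugate l i) * γ i j) * (eval w d.J)⁻¹, fun l j => ?_, fun v hv l => ?_⟩
  · -- the derivative of `y l`
    have h1 : My.mulVec (fun l => dualDer b j (y l)) = fun i => algebraMap ℂ K (γ i j) := by
      funext i
      rw [← hγ i j, der_aeval]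
      rfl
    have h2 : My.det * dualDer b j (y l) = ∑ i, My.adjugate l i * algebraMap ℂ K (γ i j) := by
      have h3 := congrArg (fun u => My.adjugate.mulVec u) h1
      simp only [Matrix.mulVec_mulVec, Matrix.adjugate_mul] at h3
      have h4 := congrFun h3 l
      rw [Matrix.smul_mulVec, Matrix.one_mulVec] at h4
      exact h4
    have h5 : dualDer b j (y l) = (∑ i, aeval y (PM.adjugate l i) * algebraMap ℂ K (γ i j)) / aeval y d.J := by
      rw [eq_div_iff hJy, ← hMydet, mul_comm, h2]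
      exact Finset.sum_congr rfl fun i _ => by rw [hMyadj]
    rw [h5]
    refine Ev.div hwB (Ev.sum _ fun i _ => ?_) ?_ (mul_inv_cancel₀ hJ)
    · have h6 := (Ev.poly y w (PM.adjugate l i)).mul (Ev.const y w (γ i j))
      rw [MvPolynomial.aeval_eq_eval] at h6
      exact h6
    · have h6 := Ev.poly y w d.J
      rw [MvPolynomial.aeval_eq_eval] at h6
      exact h6
  · have h1 : Mw.mulVec v = fun i => ∑ j, γ i j * d.tau v j := by
      funext i
      rw [← hγ' i v hv]
      rfl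
    have h2 : Mw.det * v l = ∑ i, Mw.adjugate l i * ∑ j, γ i j * d.tau v j := by
      have h3 := congrArg (fun u => Mw.adjugate.mulVec u) h1
      simp only [Matrix.mulVec_mulVec, Matrix.adjugate_mul] at h3
      have h4 := congrFun h3 l
      rw [Matrix.smul_mulVec, Matrix.one_mulVec] at h4
      exact h4
    have h3 : v l = (∑ i, Mw.adjugate l i * ∑ j, γ i j * d.tau v j) * (eval w d.J)⁻¹ := by
      rw [← h2, hMwdet]
      field_simp
    rw [h3, Finset.sum_mul]
    simp only [Finset.mul_sum, Finset.sum_mul]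
    rw [Finset.sum_comm]
    refine Finset.sum_congr rfl fun j _ => Finset.sum_congr rfl fun i _ => ?_
    rw [hMwadj]
    ring

/-- **The chain rule** for the function `f`, regular at `w`. -/
theorem Dat.chain (d : Dat y k) (hw : IsPt y w) (hJ : eval w d.J ≠ 0) {b : Module.Basis (Fin k) K Ω[K⁄ℂ]}
    (hb : ∀ j, b j = KaehlerDifferential.D ℂ K (d.t j)) {f : K} {c₀ : ℂ} (hf : Ev y w f c₀) :
    ∃ e : Fin k → ℂ, (∀ j, Ev y w (dualDer b j f) (e j)) ∧
      ∀ v ∈ tan y w, ∀ c : DualNumber ℂ, Ev y (dp w v) f c → c.snd = ∑ j, e j * d.tau v j := by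
  classical
  obtain ⟨e0, he0, he0'⟩ := chn_coord d hw hJ hb
  have hwB : IsPtB y w := isPtB_iff.2 hw
  -- polynomials
  have hpoly : ∀ A : MvPolynomial (Fin r) ℂ, ∃ a : Fin k → ℂ, (∀ j, Ev y w (dualDer b j (aeval y A)) (a j)) ∧
      ∀ v ∈ tan y w, dpl w v A = ∑ j, a j * d.tau v j := by
    intro A
    refine ⟨fun j => ∑ l, eval w (pderiv l A) * e0 l j, fun j => ?_, fun v hv => ?_⟩
    · rw [der_aeval]
      refine Ev.sum _ fun l _ => Ev.mul ?_ (he0 l j)
      have h6 := Ev.poly y w (pderiv l A)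
      rw [MvPolynomial.aeval_eq_eval] at h6
      exact h6
    · unfold dpl
      have h1 : ∀ l, eval w (pderiv l A) * v l = ∑ j, eval w (pderiv l A) * e0 l j * d.tau v j := by
        intro l
        rw [he0' v hv l, Finset.mul_sum]
        exact Finset.sum_congr rfl fun j _ => by ring
      simp only [h1]
      rw [Finset.sum_comm]
      exact Finset.sum_congr rfl fun j _ => by rw [Finset.sum_mul]
  obtain ⟨A, D, hD, h1, h2⟩ := id hf
  rw [MvPolynomial.aeval_eq_eval] at hD h2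
  have hDw : eval w D ≠ 0 := hD.ne_zero
  have hDy : aeval y D ≠ 0 := fun h => hDw (hw _ h)
  obtain ⟨a, ha, ha'⟩ := hpoly A
  obtain ⟨δ, hδ, hδ'⟩ := hpoly D
  refine ⟨fun j => (a j - c₀ * δ j) * (eval w D)⁻¹, fun j => ?_, fun v hv c hc => ?_⟩
  · have h3 : dualDer b j f = (dualDer b j (aeval y A) - f * dualDer b j (aeval y D)) / aeval y D := by
      rw [eq_div_iff hDy, ← h1, Derivation.leibniz, smul_eq_mul, smul_eq_mul]
      ring
    rw [h3]
    refine Ev.div hwB ((ha j).sub (hf.mul (hδ j))) ?_ (mul_inv_cancel₀ hDw)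
    have h6 := Ev.poly y w D
    rw [MvPolynomial.aeval_eq_eval] at h6
    exact h6
  · have hdp : IsPtB y (dp w v) := isPtB_dp.2 ⟨hw, hv⟩
    have h3 : c * aeval (dp w v) D = aeval (dp w v) A := by
      have h4 := hc.mul (Ev.poly y (dp w v) D)
      rw [h1] at h4
      exact h4.unique hdp (Ev.poly y (dp w v) A)
    have h5 : c.fst = c₀ := hc.fst.unique hwB hf
    have h6 := congrArg TrivSqZeroExt.snd h3
    rw [TrivSqZeroExt.snd_mul, fst_aeval_dp, snd_aeval_dp, snd_aeval_dp, h5] at h6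
    simp only [smul_eq_mul, MulOpposite.smul_eq_mul_unop, MulOpposite.unop_op] at h6
    rw [ha' v hv, hδ' v hv] at h6
    have h7 : c.snd = (∑ j, a j * d.tau v j - c₀ * ∑ j, δ j * d.tau v j) * (eval w D)⁻¹ := by
      rw [← h6]
      field_simp
      ring
    rw [h7, Finset.mul_sum, ← Finset.sum_sub_distrib, Finset.sum_mul]
    exact Finset.sum_congr rfl fun j _ => by ring

end Chain

/-- Comparison of the coefficients of a form. -/
theorem form_change {t t' : Fin k → K} {b : Module.Basis (Fin k) K Ω[K⁄ℂ]} (hb : ∀ j, b j = KaehlerDifferential.D ℂ K (t j)) {W W' : K}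
    (h : (Form.mk W t : Form K k) = Form.mk W' t') : W = W' * (Matrix.of fun i j => dualDer b i (t' j)).det := by
  have h1 : fc b (Form.mk W t) = W := by
    have h2 : (Form.mk W t : Form K k) = W • exteriorPower.ιMulti K k (fun i => b i) := by
      have h3 : (fun i => b i) = fun i => Pool.Agent.H23.Fano.d (t i) := funext hb
      rw [h3]
      rfl
    rw [h2, map_smul, Pool.Agent.H23.fc_self, smul_eq_mul, mul_one]
  have h4 : fc b (Form.mk W' t') = W' * (Matrix.of fun i j => dualDer b i (t' j)).det := by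
    have h2 : (Form.mk W' t' : Form K k) = W' • exteriorPower.ιMulti K k (fun i => KaehlerDifferential.D ℂ K (t' i)) := rfl
    rw [h2, map_smul, Pool.Agent.H23.fc_ιMulti, smul_eq_mul, Module.Basis.det_apply]
    rfl
  rw [← h1, h, h4]

/-- **Comparison.** -/
theorem Dat.compare {y : Fin r → K} {w : Fin r → ℂ} (d : Dat y k) (hw : IsPt y w) (hJ : eval w d.J ≠ 0) {y' : Fin r' → K} {w' : Fin r' → ℂ}
    (d' : Dat y' k) (h0 : ∀ i, Ev y w (y' i) (w' i)) {v : Fin k → Fin r → ℂ} {v' : Fin k → Fin r' → ℂ} (hv : ∀ l, v l ∈ tan y w)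
    (h : ∀ l i, Ev y (dp w (v l)) (y' i) (dp w' (v' l) i)) {M : ℕ} {H H' φ W W' : K} (hH : H' = φ * H)
    (hW : (Form.mk W d.t : Form K k) = Form.mk W' d'.t) {c c' φw : ℂ} (hc : Ev y w (H * W ^ M) c) (hc' : Ev y' w' (H' * W' ^ M) c')
    (hφ : Ev y w φ φw) :
    φw * (c * (Matrix.of fun l j => d.tau (v l) j).det ^ M) = c' * (Matrix.of fun l j => d'.tau (v' l) j).det ^ M := by
  classical
  have hwB : IsPtB y w := isPtB_iff.2 hw
  obtain ⟨b, hb⟩ := Pool.Agent.H23.exists_basis_kaehler d.basis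
  have hb' : ∀ j, b j = KaehlerDifferential.D ℂ K (d.t j) := hb
  have hD := form_change hb' hW
  -- values of the derivatives of the new coordinates
  have h1 : ∀ j : Fin k, ∃ e : Fin k → ℂ, (∀ i, Ev y w (dualDer b i (d'.t j)) (e i)) ∧
      ∀ v ∈ tan y w, ∀ c : DualNumber ℂ, Ev y (dp w v) (d'.t j) c → c.snd = ∑ i, e i * d.tau v i := fun j =>
    d.chain hw hJ hb' (Ev.aeval h0 (lf (d'.L j)))
  choose e he he' using h1
  have h2 : Ev y w (Matrix.of fun i j => dualDer b i (d'.t j)).det (Matrix.of fun i j => e j i).det := Ev.det fun i j => he j i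
  have h3 : (Matrix.of fun l j => d'.tau (v' l) j) = (Matrix.of fun l j => d.tau (v l) j) * (Matrix.of fun i j => e j i) := by
    ext l j
    rw [Matrix.mul_apply]
    have h4 := he' j (v l) (hv l) _ (Ev.aeval (h l) (lf (d'.L j)))
    rw [snd_aeval_dp, dpl_lf] at h4
    rw [Matrix.of_apply]
    show (∑ i, d'.L j i * v' l i) = _
    rw [h4]
    exact Finset.sum_congr rfl fun i _ => by rw [Matrix.of_apply, Matrix.of_apply]; ring
  rw [h3, Matrix.det_mul]
  have h5 : φ * (H * W ^ M) = H' * W' ^ M * (Matrix.of fun i j => dualDer b i (d'.t j)).det ^ M := by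
    rw [hH, hD]
    ring
  have h6 : φw * c = c' * (Matrix.of fun i j => e j i).det ^ M := by
    have h7 := hφ.mul hc
    rw [h5] at h7
    exact h7.unique hwB ((hc'.change hwB h0).mul (h2.pow M))
  rw [← mul_assoc, h6]
  ring

end Pool.Agent.GG.Kd

end
end

section

/-!
# EF Bridge: from the projective space to the cone
-/

set_option autoImplicit false

open Topology Filter MvPolynomial Metric

noncomputable section

namespace Pool.Agent.H17EF

open Pool.Agent.H17 (PN VanishesAt HolomorphicInto ZariskiClosedIn)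
open Pool.Agent.H62.FC (Homog)
open Pool.Agent.H13.SM (cone)
open Pool.Agent.H36.BP (EN fs wd)

variable {N : ℕ}

/-- homogeneous coordinates as a Euclidean vector -/
def LE (N : ℕ) : (Fin (N + 1) → ℂ) ≃L[ℂ] EN N := (EuclideanSpace.equiv (Fin (N + 1)) ℂ).symm

/-- the cone in the Euclidean space -/
def coneE (P : Ideal (MvPolynomial (Fin (N + 1)) ℂ)) : Set (EN N) := (LE N).symm ⁻¹' cone P

theorem mk_mem_projVar {P : Ideal (MvPolynomial (Fin (N + 1)) ℂ)} (hP : Homog P) {x : Fin (N + 1) → ℂ} (hx : x ≠ 0) :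
    Projectivization.mk ℂ x hx ∈ projVar P ↔ x ∈ cone P := by
  obtain ⟨a, ha, hrep⟩ := Pool.Agent.H36.BP.rep_mk hx
  constructor
  · intro h
    refine ⟨hx, fun Q hQ => ?_⟩
    rw [← MvPolynomial.sum_homogeneousComponent Q, map_sum]
    refine Finset.sum_eq_zero fun i _ => ?_
    have h1 := h _ (hP Q hQ i) i (homogeneousComponent_isHomogeneous i Q)
    unfold VanishesAt at h1
    rw [hrep, eval_smul_form' (homogeneousComponent_isHomogeneous i Q)] at h1
    exact (mul_eq_zero.1 h1).resolve_left (pow_ne_zero i ha)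
  · intro h Q hQ n hn
    unfold VanishesAt
    rw [hrep, eval_smul_form' hn, h.2 Q hQ, mul_zero]
where
  eval_smul_form' {d : ℕ} {Q : MvPolynomial (Fin (N + 1)) ℂ} (hQ : Q.IsHomogeneous d) (c : ℂ)
      (x : Fin (N + 1) → ℂ) : eval (c • x) Q = c ^ d * eval x Q := by
    rw [MvPolynomial.eval_eq', MvPolynomial.eval_eq', Finset.mul_sum]
    apply Finset.sum_congr rfl
    intro m hm
    have hdeg : ∑ i, m i = d := by
      have := hQ (MvPolynomial.mem_support_iff.1 hm)
      rw [Finsupp.weight_apply] at this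
      simpa [Finsupp.sum_fintype] using this
    have h1 : ∏ i, (c • x) i ^ m i = c ^ d * ∏ i, x i ^ m i := by
      rw [← hdeg, ← Finset.prod_pow_eq_pow_sum, ← Finset.prod_mul_distrib]
      exact Finset.prod_congr rfl fun i _ => by simp [mul_pow]
    rw [h1]
    ring

theorem mem_coneE {P : Ideal (MvPolynomial (Fin (N + 1)) ℂ)} (hP : Homog P) {y : EN N} :
    y ∈ coneE P ↔ ∃ h : (LE N).symm y ≠ 0, Projectivization.mk ℂ ((LE N).symm y) h ∈ projVar P := by
  constructor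
  · intro h
    exact ⟨h.1, (mk_mem_projVar hP h.1).2 h⟩
  · rintro ⟨h, h'⟩
    exact (mk_mem_projVar hP h).1 h'

theorem sub_mem_iff {Λ : AddSubgroup ℂ} {a b : ℂ} : a - b ∈ Λ ↔ ((a : ℂ) : ℂ ⧸ Λ) = (b : ℂ ⧸ Λ) := by
  rw [QuotientAddGroup.eq, ← neg_mem_iff]
  constructor
  · intro h
    convert h using 1
    ring
  · intro h
    convert h using 1
    ring

/-- a lift -/
theorem exists_lift {f : ℂ → PN N} (hf : HolomorphicInto f Set.univ) :
    ∃ F : ℂ → EN N, Differentiable ℂ F ∧ ∀ z, ∃ h : (LE N).symm (F z) ≠ 0, f z = Projectivization.mk ℂ ((LE N).symm (F z)) h := by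
  obtain ⟨x, hx⟩ := Pool.Agent.H17.exists_global_lift hf
  refine ⟨fun z => (LE N) (fun j => (x j : ℂ → ℂ) z), ?_, fun z => ?_⟩
  · have h1 : Differentiable ℂ fun z => fun j => (x j : ℂ → ℂ) z := differentiable_pi.2 fun j => (x j).2
    exact (LE N).differentiable.comp h1
  · obtain ⟨h, h'⟩ := hx z
    have h2 : (LE N).symm ((LE N) (fun j => (x j : ℂ → ℂ) z)) = fun j => (x j : ℂ → ℂ) z := ContinuousLinearEquiv.symm_apply_apply _ _
    refine ⟨by rw [h2]; exact h, ?_⟩
    rw [h']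
    congr 1

end Pool.Agent.H17EF

end
end

section

/-!
# EF Closed: unions of closed subsets of a projective variety
-/

set_option autoImplicit false

open Topology Filter MvPolynomial

noncomputable section

namespace Pool.Agent.H17EF

open Pool.Agent.H17 (PN VanishesAt HolomorphicInto ZariskiClosedIn)
open Pool.Agent.H62.FC (Homog)

variable {N : ℕ} {P : Ideal (MvPolynomial (Fin (N + 1)) ℂ)}

/-- A form which is not in the homogeneous prime ideal `P` does not vanish at some point of the variety of `P`. -/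
theorem exists_point [hPp : P.IsPrime] (hP : Homog P) (hX : ∃ i, (X i : MvPolynomial (Fin (N + 1)) ℂ) ∉ P)
    {Q : MvPolynomial (Fin (N + 1)) ℂ} (hQP : Q ∉ P) {n : ℕ} (hQ : Q.IsHomogeneous n) : ∃ x ∈ projVar P, ¬ VanishesAt Q x := by
  obtain ⟨i, hi⟩ := hX
  have h1 : Q * X i ∉ P := fun h => (hPp.mem_or_mem h).elim hQP hi
  obtain ⟨x, hx, hx'⟩ : ∃ x : Fin (N + 1) → ℂ, (∀ R ∈ P, eval x R = 0) ∧ eval x (Q * X i) ≠ 0 := by
    by_contra hcon
    push Not at hcon
    apply h1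
    rw [← hPp.radical, ← MvPolynomial.vanishingIdeal_zeroLocus_eq_radical (K := ℂ) P, MvPolynomial.mem_vanishingIdeal_iff]
    intro x hx
    rw [MvPolynomial.mem_zeroLocus_iff] at hx
    rw [MvPolynomial.aeval_eq_eval]
    exact hcon x fun R hR => by
      have := hx R hR
      rwa [MvPolynomial.aeval_eq_eval] at this
  rw [map_mul, eval_X] at hx'
  have hx0 : x ≠ 0 := by
    rintro rfl
    simp at hx'
  refine ⟨Projectivization.mk ℂ x hx0, (mk_mem_projVar hP hx0).2 ⟨hx0, hx⟩, ?_⟩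
  unfold VanishesAt
  obtain ⟨a, ha, hrep⟩ := Pool.Agent.H36.BP.rep_mk hx0
  rw [hrep, mk_mem_projVar.eval_smul_form' hQ]
  exact mul_ne_zero (pow_ne_zero n ha) (left_ne_zero_of_mul hx')

/-- if the variety of `P` is not empty, some coordinate is not in `P` -/
theorem exists_coord {x : PN N} (hx : x ∈ projVar P) : ∃ i, (X i : MvPolynomial (Fin (N + 1)) ℂ) ∉ P := by
  by_contra hcon
  push Not at hcon
  apply x.rep_nonzero
  funext i
  have := hx _ (hcon i) 1 (isHomogeneous_X ℂ i)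
  unfold VanishesAt at this
  simpa using this

/-- a product of forms -/
theorem exists_prod [hPp : P.IsPrime] {ι : Type*} {I : Set ι} (hI : I.Finite) {A : ι → Set (PN N)}
    (hA : ∀ i ∈ I, ∃ (R : MvPolynomial (Fin (N + 1)) ℂ) (n : ℕ), R.IsHomogeneous n ∧ R ∉ P ∧ ∀ x ∈ A i, VanishesAt R x) :
    ∃ (R : MvPolynomial (Fin (N + 1)) ℂ) (n : ℕ), R.IsHomogeneous n ∧ R ∉ P ∧ ∀ x ∈ ⋃ i ∈ I, A i, VanishesAt R x := by
  induction I, hI using Set.Finite.induction_on with
  | empty =>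
    refine ⟨1, 0, isHomogeneous_one _ _, fun h => hPp.ne_top ((Ideal.eq_top_iff_one P).2 h), ?_⟩
    intro x hx
    simp at hx
  | @insert a s _ _ ih =>
    obtain ⟨R, n, hR, hRP, h⟩ := ih fun i hi => hA i (Set.mem_insert_of_mem _ hi)
    obtain ⟨R', n', hR', hRP', h'⟩ := hA a (Set.mem_insert _ _)
    refine ⟨R' * R, n' + n, hR'.mul hR, fun hm => (hPp.mem_or_mem hm).elim hRP' hRP, ?_⟩
    rw [Set.biUnion_insert]
    rintro x (hx | hx)
    · have := h' x hx
      unfold VanishesAt at this ⊢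
      rw [map_mul, this, zero_mul]
    · have := h x hx
      unfold VanishesAt at this ⊢
      rw [map_mul, this, mul_zero]

end Pool.Agent.H17EF

end
end

section

/-!
# KR GL: gluing the local extensions to a form on the cone

`Ext M t₀ A B φ Φ p`: near `p` the function `Φ` is the analytic extension of
`A (φ) / B (φ) * D3 t₀ (φ, φ_x, φ_y) ^ M`.

* `Ext.unique`: `g = Φ - Φ'` is analytic and `eval (φ u) B * g u = 0` near `p`.  If `g p ≠ 0` then `g ≠ 0` near `p` and
  `eval (φ u) B = 0` near `p`.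
* `Ext.comp`: near `p` (`κ u → κ p`): `eval (φ u) B = c^b eval (σ (κ u)) B` (homogeneous of degree `b`; scaling:
  `MvPolynomial.IsHomogeneous` lemma or `eval₂_of_isHomogeneous` of file `HZ` may be imported),
  `D3_comp`: `D3 t₀ (φ …) = c^3 jac κ D3 t₀ (σ …) (κ u)`.  With `b = a + 3 M + 1`:
  `eval (φ u) B * (c⁻¹ jac^M Φ (κ u)) = c^(b-1) jac^M (eval (σκ) B Φ (κ u)) = c^(b-1) jac^M eval (σκ) A D3^M
   = c^(b - 1 - a - 3 M) eval (φ u) A * D3 t₀ (φ …) ^ M`.
* `exists_om`: for `x ∈ cone P` choose `t, σ` (`hsm`) and `Φ` (`hext`), and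
  `Om x v w = Φ 0 * (D3 t x v w / x (t 0) ^ 3) ^ M` (`0` for `x ∉ cone P`).
  Second clause: `C = Φ 0 / x (t 0) ^ (3 M)`.
  First clause: let `φ p = x`.  `CChart.param`: `φ = c • σ ∘ κ` near `p`, `κ p = 0`, `c p = 1`.  By `Ext.comp`
  `Φ'' u = (c u)⁻¹ * jac κ u ^ M * Φ_x (κ u)` is an extension for `φ`, so by `Ext.unique`
  `Φ p = Φ'' p = jac κ p ^ M * Φ_x 0`.  `D3_comp` (with `s = t`, at `u = p`) and `CChart.D3_eq` (at `0`):
  `D3 t x (d1 φ p) (d2 φ p) = jac κ p * x (t 0) ^ 3`.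
* `isForm_om`.  `add_smul`, `det`: from the second clause and `D3_add_smul`, `D3_det`.
  Claim (*): for `x ∈ cone P` with its chart `t, σ, Φ` (any `CChart` with an extension): for `u` near `0`:
  `Om (σ u) (d1 σ u) (d2 σ u) = Φ u`: the first clause at the points `p` near `0` (`Ext` holds at all nearby points:
  `eventually_eventually_nhds`, `AnalyticAt.eventually_analyticAt`; `nd_near` for the non-degeneracy; `mem_cone`).
  `scale` (`j = 1`, write `c * Om (c x) (c v) (c w) = Om x v w`): by `CChart.tan` `v = a d1 σ 0 + b d2 σ 0 + e x`,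
  `w = a' … + b' … + e' x`; by `add_smul` and `det` at `x` and at `c x` (where `c v = a (c d1 σ 0) + …`; note that
  the second clause gives these rules for all vectors) it is enough to compare
  `Om (c x) (c d1 σ 0) (c d2 σ 0)` and `c⁻¹ Om x (d1 σ 0) (d2 σ 0)`: the first clause for `φ = c • σ`, `p = 0` and its
  extension `c⁻¹ Φ` (`Ext.comp` with `κ = id`).  (`jac id = 1`.)
  `analytic`: let `φ` be analytic at `p` with values in `cone P`, `x = φ p`, chart `t, σ, Φ` at `x`, `φ = c • σ ∘ κ` near `p`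
  (`param`).  For `u` near `p` let `c = c u ≠ 0`, `y = σ (κ u) ∈ cone P`, `v₁ = d1 σ (κ u)`, `v₂ = d2 σ (κ u)` (tangent at `y` by
  `tan_d1`, `tan_d2`).  `d1_smul_comp`, `d2_smul_comp`: `d1 φ u = c_x y + c (a v₁ + b v₂)`, `d2 φ u = c_y y + c (a' v₁ + b' v₂)` with
  `a b' - b a' = jac κ u`.  By the second clause at the point `c y` of the cone the rules `add_smul` and `det` hold there
  for ALL vectors: `c_x y = (c_x / c) (c y)`, `c (a v₁ + b v₂) = a (c v₁) + b (c v₂)`, so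
  `Om (c y) (d1 φ u) (d2 φ u) = jac κ u ^ M * Om (c y) (c v₁) (c v₂) = jac κ u ^ M * (c u)⁻¹ * Om y v₁ v₂` (`scale`)
  `= jac κ u ^ M * (c u)⁻¹ * Φ (κ u)` by (*).  This is analytic in `u` at `p`.
-/

set_option autoImplicit false

open MvPolynomial Topology Filter
open Pool.Agent.H17BP (Tan IsForm)

noncomputable section

namespace Pool.Agent.H68.KR

variable {N : ℕ}

/-- `Φ` is, near `p`, the analytic extension of `A (φ) / B (φ) * D3 t₀ (φ, φ_x, φ_y) ^ M`. -/
def Ext (M : ℕ) (t₀ : Fin 3 → Fin (N + 1)) (A B : MvPolynomial (Fin (N + 1)) ℂ)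
    (φ : ℂ × ℂ → Fin (N + 1) → ℂ) (Φ : ℂ × ℂ → ℂ) (p : ℂ × ℂ) : Prop :=
  AnalyticAt ℂ Φ p ∧
    ∀ᶠ u in 𝓝 p, eval (φ u) B * Φ u = eval (φ u) A * D3 t₀ (φ u) (d1 φ u) (d2 φ u) ^ M

variable {M a : ℕ} {t₀ : Fin 3 → Fin (N + 1)} {A B : MvPolynomial (Fin (N + 1)) ℂ}

theorem Ext.unique {φ : ℂ × ℂ → Fin (N + 1) → ℂ} {Φ Φ' : ℂ × ℂ → ℂ} {p : ℂ × ℂ}
    (h : Ext M t₀ A B φ Φ p) (h' : Ext M t₀ A B φ Φ' p)
    (hnd : ¬ ∀ᶠ u in 𝓝 p, eval (φ u) B = 0) : Φ p = Φ' p := by
  by_contra hne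
  apply hnd
  have hg : ContinuousAt (fun u => Φ u - Φ' u) p := h.1.continuousAt.sub h'.1.continuousAt
  have hg0 : ∀ᶠ u in 𝓝 p, Φ u - Φ' u ≠ 0 := hg.eventually_ne (sub_ne_zero.2 hne)
  filter_upwards [hg0, h.2, h'.2] with u h1 h2 h3
  have h4 : eval (φ u) B * (Φ u - Φ' u) = 0 := by
    rw [mul_sub, h2, h3, sub_self]
  exact (mul_eq_zero.1 h4).resolve_right h1

private theorem GL_eval_smul {n : ℕ} {Q : MvPolynomial (Fin (N + 1)) ℂ} (hQ : Q.IsHomogeneous n) (c : ℂ)
    (y : Fin (N + 1) → ℂ) : eval (c • y) Q = c ^ n * eval y Q :=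
  eval₂_of_isHomogeneous (RingHom.id ℂ) hQ c y

theorem Ext.comp (hA : A.IsHomogeneous a) (hB : B.IsHomogeneous (a + 3 * M + 1))
    {φ σ : ℂ × ℂ → Fin (N + 1) → ℂ} {Φ c : ℂ × ℂ → ℂ} {κ : ℂ × ℂ → ℂ × ℂ} {p : ℂ × ℂ}
    (hc : AnalyticAt ℂ c p) (hc0 : c p ≠ 0) (hκ : AnalyticAt ℂ κ p) (hσ : AnalyticAt ℂ σ (κ p))
    (h : Ext M t₀ A B σ Φ (κ p)) (hφ : ∀ᶠ u in 𝓝 p, φ u = c u • σ (κ u)) :
    Ext M t₀ A B φ (fun u => (c u)⁻¹ * jac κ u ^ M * Φ (κ u)) p := by
  refine ⟨((hc.inv hc0).mul ((analyticAt_jac hκ).pow M)).mul (h.1.comp hκ), ?_⟩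
  have h2 : ∀ᶠ u in 𝓝 p, eval (σ (κ u)) B * Φ (κ u) =
      eval (σ (κ u)) A * D3 t₀ (σ (κ u)) (d1 σ (κ u)) (d2 σ (κ u)) ^ M :=
    hκ.continuousAt.eventually h.2
  filter_upwards [h2, hφ, D3_comp t₀ hc hκ hσ hφ, hc.continuousAt.eventually_ne hc0] with u e1 e2 e3 e4
  rw [e3, e2, GL_eval_smul hB, GL_eval_smul hA]
  have e5 : c u ^ (a + 3 * M + 1) * eval (σ (κ u)) B * ((c u)⁻¹ * jac κ u ^ M * Φ (κ u)) =
      c u ^ (a + 3 * M) * jac κ u ^ M * (eval (σ (κ u)) B * Φ (κ u)) := by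
    rw [pow_succ]
    field_simp
  rw [e5, e1, mul_pow, mul_pow, pow_add, pow_mul]
  ring

variable {P : Ideal (MvPolynomial (Fin (N + 1)) ℂ)}

theorem exists_om (hA : A.IsHomogeneous a) (hB : B.IsHomogeneous (a + 3 * M + 1))
    (hsm : ∀ x ∈ cone P, ∃ t σ, CChart P x t σ)
    (hext : ∀ x t σ, CChart P x t σ → ∃ Φ, Ext M t₀ A B σ Φ 0) :
    ∃ Om : (Fin (N + 1) → ℂ) → (Fin (N + 1) → ℂ) → (Fin (N + 1) → ℂ) → ℂ,
      (∀ x ∈ cone P, ∀ (φ : ℂ × ℂ → Fin (N + 1) → ℂ) (p : ℂ × ℂ) (Φ : ℂ × ℂ → ℂ), AnalyticAt ℂ φ p →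
        (∀ᶠ u in 𝓝 p, ∀ Q ∈ P, eval (φ u) Q = 0) → φ p = x → Ext M t₀ A B φ Φ p →
        (¬ ∀ᶠ u in 𝓝 p, eval (φ u) B = 0) → Om x (d1 φ p) (d2 φ p) = Φ p) ∧
      ∀ x ∈ cone P, ∃ (t : Fin 3 → Fin (N + 1)) (C : ℂ), ∀ v w, Om x v w = C * D3 t x v w ^ M := by
  classical
  choose t σ hch using hsm
  choose Φx hΦx using fun (x : Fin (N + 1) → ℂ) (hx : x ∈ cone P) => hext x (t x hx) (σ x hx) (hch x hx)
  refine ⟨fun x v w => if hx : x ∈ cone P then Φx x hx 0 * (D3 (t x hx) x v w / x (t x hx 0) ^ 3) ^ M else 0,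
    ?_, ?_⟩
  · intro x hx φ p Φ hφ hφP hφx hE hnd
    obtain ⟨κ, c, hκ, hc, hκ0, hc1, he⟩ := (hch x hx).param hφ hφx hφP
    have hc0 : c p ≠ 0 := by
      rw [hc1]
      exact one_ne_zero
    have hσ : AnalyticAt ℂ (σ x hx) (κ p) := by
      rw [hκ0]
      exact (hch x hx).an
    have hE' : Ext M t₀ A B (σ x hx) (Φx x hx) (κ p) := by
      rw [hκ0]
      exact hΦx x hx
    have hcomp := Ext.comp hA hB hc hc0 hκ hσ hE' he
    have h1 := Ext.unique hE hcomp hnd
    have h1' : Φ p = (c p)⁻¹ * jac κ p ^ M * Φx x hx (κ p) := h1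
    rw [hc1, hκ0, inv_one, one_mul] at h1'
    have h2 := (D3_comp (t x hx) hc hκ hσ he).self_of_nhds
    have h3 := (hch x hx).D3_eq.self_of_nhds
    rw [hκ0, hc1, h3, one_pow, one_mul, hφx] at h2
    have h4 : x (t x hx 0) ≠ 0 := (hch x hx).ne
    simp only [hx, dif_pos]
    rw [h2, h1', mul_div_cancel_right₀ _ (pow_ne_zero 3 h4), mul_comm]
  · intro x hx
    refine ⟨t x hx, Φx x hx 0 / (x (t x hx 0) ^ 3) ^ M, fun v w => ?_⟩
    simp only [hx, dif_pos]
    rw [div_pow]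
    ring

/-- The local form of `Om` in a chart. -/
private theorem GL_star (hB : B.IsHomogeneous (a + 3 * M + 1)) (hBP : B ∉ P)
    {Om : (Fin (N + 1) → ℂ) → (Fin (N + 1) → ℂ) → (Fin (N + 1) → ℂ) → ℂ}
    (h1 : ∀ x ∈ cone P, ∀ (φ : ℂ × ℂ → Fin (N + 1) → ℂ) (p : ℂ × ℂ) (Φ : ℂ × ℂ → ℂ), AnalyticAt ℂ φ p →
        (∀ᶠ u in 𝓝 p, ∀ Q ∈ P, eval (φ u) Q = 0) → φ p = x → Ext M t₀ A B φ Φ p →
        (¬ ∀ᶠ u in 𝓝 p, eval (φ u) B = 0) → Om x (d1 φ p) (d2 φ p) = Φ p)
    {x : Fin (N + 1) → ℂ} {t : Fin 3 → Fin (N + 1)} {σ : ℂ × ℂ → Fin (N + 1) → ℂ}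
    (hch : CChart P x t σ) {Φ : ℂ × ℂ → ℂ} (hΦ : Ext M t₀ A B σ Φ 0) :
    ∀ᶠ u in 𝓝 (0 : ℂ × ℂ), Om (σ u) (d1 σ u) (d2 σ u) = Φ u := by
  filter_upwards [hch.an.eventually_analyticAt, hch.mem.eventually_nhds, hΦ.1.eventually_analyticAt,
    hΦ.2.eventually_nhds, hch.nd_near, hch.mem_cone] with u a1 a2 a3 a4 a5 a6
  exact h1 (σ u) a6 σ u Φ a1 a2 rfl ⟨a3, a4⟩ (a5 _ B hB hBP)

private theorem GL_d1_const_smul {σ : ℂ × ℂ → Fin (N + 1) → ℂ} {p : ℂ × ℂ} (h : AnalyticAt ℂ σ p) (c : ℂ) :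
    d1 (fun u => c • σ u) p = c • d1 σ p := by
  unfold d1
  rw [fderiv_fun_const_smul h.differentiableAt]
  rfl

private theorem GL_d2_const_smul {σ : ℂ × ℂ → Fin (N + 1) → ℂ} {p : ℂ × ℂ} (h : AnalyticAt ℂ σ p) (c : ℂ) :
    d2 (fun u => c • σ u) p = c • d2 σ p := by
  unfold d2
  rw [fderiv_fun_const_smul h.differentiableAt]
  rfl

private theorem GL_jac_id (p : ℂ × ℂ) : jac (fun u => u) p = 1 := by
  have e1 : fderiv ℂ (fun v : ℂ × ℂ => v.1) p = ContinuousLinearMap.fst ℂ ℂ ℂ := fderiv_fst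
  have e2 : fderiv ℂ (fun v : ℂ × ℂ => v.2) p = ContinuousLinearMap.snd ℂ ℂ ℂ := fderiv_snd
  simp only [jac, dx, dy]
  rw [e1, e2]
  simp

theorem isForm_om (hP : ∀ p ∈ P, ∀ n, homogeneousComponent n p ∈ P) (hA : A.IsHomogeneous a)
    (hB : B.IsHomogeneous (a + 3 * M + 1)) (hBP : B ∉ P) (hsm : ∀ x ∈ cone P, ∃ t σ, CChart P x t σ)
    (hext : ∀ x t σ, CChart P x t σ → ∃ Φ, Ext M t₀ A B σ Φ 0)
    {Om : (Fin (N + 1) → ℂ) → (Fin (N + 1) → ℂ) → (Fin (N + 1) → ℂ) → ℂ}
    (h1 : ∀ x ∈ cone P, ∀ (φ : ℂ × ℂ → Fin (N + 1) → ℂ) (p : ℂ × ℂ) (Φ : ℂ × ℂ → ℂ), AnalyticAt ℂ φ p →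
        (∀ᶠ u in 𝓝 p, ∀ Q ∈ P, eval (φ u) Q = 0) → φ p = x → Ext M t₀ A B φ Φ p →
        (¬ ∀ᶠ u in 𝓝 p, eval (φ u) B = 0) → Om x (d1 φ p) (d2 φ p) = Φ p)
    (h2 : ∀ x ∈ cone P, ∃ (t : Fin 3 → Fin (N + 1)) (C : ℂ), ∀ v w, Om x v w = C * D3 t x v w ^ M) :
    IsForm (cone P) M 1 Om := by
  -- the rules for all vectors
  have r1 : ∀ x ∈ cone P, ∀ v w : Fin (N + 1) → ℂ, ∀ α β : ℂ,
      Om x (v + α • x) (w + β • x) = Om x v w := by
    intro x hx v w α β
    obtain ⟨t, C, hC⟩ := h2 x hx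
    rw [hC, hC, D3_add_smul]
  have r2 : ∀ x ∈ cone P, ∀ v w : Fin (N + 1) → ℂ, ∀ α β γ δ : ℂ,
      Om x (α • v + β • w) (γ • v + δ • w) = (α * δ - β * γ) ^ M * Om x v w := by
    intro x hx v w α β γ δ
    obtain ⟨t, C, hC⟩ := h2 x hx
    rw [hC, hC, D3_det, mul_pow]
    ring
  have hscale : ∀ x ∈ cone P, ∀ v ∈ Tan (cone P) x, ∀ w ∈ Tan (cone P) x, ∀ c : ℂ, c ≠ 0 →
      c ^ 1 * Om (c • x) (c • v) (c • w) = Om x v w := by
    intro x hx v hv w hw c hc
    obtain ⟨t, σ, hch⟩ := hsm x hx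
    obtain ⟨Φ, hΦ⟩ := hext x t σ hch
    obtain ⟨α, β, e, hv'⟩ := hch.tan hv
    obtain ⟨γ, δ, e', hw'⟩ := hch.tan hw
    have hcx : c • x ∈ cone P := cone_smul hP hx hc
    have k1 : Om x (d1 σ 0) (d2 σ 0) = Φ 0 := by
      have := (GL_star hB hBP h1 hch hΦ).self_of_nhds
      rwa [hch.zero] at this
    have hσ' : AnalyticAt ℂ (fun u => c • σ u) 0 := by
      show AnalyticAt ℂ (c • σ) 0
      exact hch.an.const_smul
    have k2 : Om (c • x) (c • d1 σ 0) (c • d2 σ 0) = c⁻¹ * Φ 0 := by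
      have hE : Ext M t₀ A B (fun u => c • σ u) (fun u => c⁻¹ * jac (fun u => u) u ^ M * Φ u) 0 :=
        Ext.comp (c := fun _ => c) (κ := fun u => u) hA hB analyticAt_const hc analyticAt_id
          hch.an hΦ (Eventually.of_forall fun _ => rfl)
      have hm : ∀ᶠ u in 𝓝 (0 : ℂ × ℂ), ∀ Q ∈ P, eval (c • σ u) Q = 0 := by
        filter_upwards [hch.mem_cone] with u hu
        exact (cone_smul hP hu hc).2
      have hn : ¬ ∀ᶠ u in 𝓝 (0 : ℂ × ℂ), eval (c • σ u) B = 0 := by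
        intro hall
        apply hch.nd _ B hB hBP
        filter_upwards [hall] with u hu
        rw [GL_eval_smul hB] at hu
        exact (mul_eq_zero.1 hu).resolve_left (pow_ne_zero _ hc)
      have h3 := h1 (c • x) hcx (fun u => c • σ u) 0 _ hσ' hm (by rw [hch.zero]) hE hn
      rw [GL_d1_const_smul hch.an, GL_d2_const_smul hch.an] at h3
      rw [h3, GL_jac_id, one_pow, mul_one]
    have hv2 : c • v = (α • (c • d1 σ 0) + β • (c • d2 σ 0)) + e • (c • x) := by
      rw [hv']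
      module
    have hw2 : c • w = (γ • (c • d1 σ 0) + δ • (c • d2 σ 0)) + e' • (c • x) := by
      rw [hw']
      module
    rw [hv2, hw2, r1 _ hcx, r2 _ hcx, k2, hv', hw', r1 _ hx, r2 _ hx, k1]
    field_simp
  refine ⟨fun x hx v _ w _ α β => r1 x hx v w α β, fun x hx v _ w _ α β γ δ => r2 x hx v w α β γ δ,
    hscale, ?_⟩
  intro φ p hφ hφX
  have hx : φ p ∈ cone P := hφX.self_of_nhds
  obtain ⟨t, σ, hch⟩ := hsm (φ p) hx
  obtain ⟨Φ, hΦ⟩ := hext (φ p) t σ hch
  have hφP : ∀ᶠ u in 𝓝 p, ∀ Q ∈ P, eval (φ u) Q = 0 := hφX.mono fun u hu => hu.2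
  obtain ⟨κ, c, hκ, hc, hκ0, hc1, he⟩ := hch.param hφ rfl hφP
  have hσ : AnalyticAt ℂ σ (κ p) := by
    rw [hκ0]
    exact hch.an
  have hΦκ : AnalyticAt ℂ Φ (κ p) := by
    rw [hκ0]
    exact hΦ.1
  have hc0 : c p ≠ 0 := by
    rw [hc1]
    exact one_ne_zero
  have hκt : Tendsto κ (𝓝 p) (𝓝 0) := by
    have := hκ.continuousAt.tendsto
    rwa [hκ0] at this
  have hF : AnalyticAt ℂ (fun u => jac κ u ^ M * ((c u)⁻¹ * Φ (κ u))) p :=
    ((analyticAt_jac hκ).pow M).mul ((hc.inv hc0).mul (hΦκ.comp hκ))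
  refine hF.congr ?_
  filter_upwards [he, d1_smul_comp hc hκ hσ he, d2_smul_comp hc hκ hσ he,
    hc.continuousAt.eventually_ne hc0, hκt.eventually hch.mem_cone,
    hκt.eventually (GL_star hB hBP h1 hch hΦ), hκt.eventually hch.an.eventually_analyticAt,
    hκt.eventually hch.mem_cone.eventually_nhds] with u e1 e2 e3 e4 e5 e6 e7 e8
  have hcy : c u • σ (κ u) ∈ cone P := cone_smul hP e5 e4
  have ht1 : d1 σ (κ u) ∈ Tan (cone P) (σ (κ u)) := tan_d1 e7 e8
  have ht2 : d2 σ (κ u) ∈ Tan (cone P) (σ (κ u)) := tan_d2 e7 e8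
  have hs := hscale _ e5 _ ht1 _ ht2 (c u) e4
  rw [pow_one, e6] at hs
  show jac κ u ^ M * ((c u)⁻¹ * Φ (κ u)) = Om (φ u) (d1 φ u) (d2 φ u)
  have f1 : d1 φ u = (dx (fun v => (κ v).1) u • (c u • d1 σ (κ u)) +
      dx (fun v => (κ v).2) u • (c u • d2 σ (κ u))) + (dx c u / c u) • (c u • σ (κ u)) := by
    rw [e2, smul_smul (dx c u / c u), div_mul_cancel₀ _ e4]
    module
  have f2 : d2 φ u = (dy (fun v => (κ v).1) u • (c u • d1 σ (κ u)) +
      dy (fun v => (κ v).2) u • (c u • d2 σ (κ u))) + (dy c u / c u) • (c u • σ (κ u)) := by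
    rw [e3, smul_smul (dy c u / c u), div_mul_cancel₀ _ e4]
    module
  rw [f1, f2, e1, r1 _ hcy, r2 _ hcy, ← hs]
  unfold jac
  rw [inv_mul_cancel_left₀ e4]
  ring

end Pool.Agent.H68.KR

end
end
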