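import Pool.Agent.H18.GGT.M01

/-! The parts of this file: H36.BP.WdA, H62.FC.LogDeriv. -/

section

/-!
# BP WdA: the wedge norm

`wd x v = |x ∧ v|`, square root of the Gram determinant.  `gram_proj` : for orthonormal `a, b` the determinant of the projections is at most the
Gram determinant: with `x = Px + x'`, `v = Pv + v'` (orthogonal decomposition along the span of `a, b`), `A = |Px|²`, `B = |Pv|²`, `C = ⟨Px,Pv⟩`,
`(A + a')(B + b') - |C + c'|² ≥ AB - |C|²` because `a'b' ≥ |c'|²` and `A b' + a' B ≥ 2 (A B a' b')^(1/2) ≥ 2 |C||c'|`; and `AB - |C|² = |det|²`.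
`wd_norming` : for `x, v` with `wd x v > 0` take `a = x/|x|`, `b` = normalised component of `v` orthogonal to `x`.
-/

set_option autoImplicit false

namespace Pool.Agent.H36.BP

open Filter Topology Metric

variable {N : ℕ}

private theorem le_of_sq_le_sq' {a b : ℝ} (h : a ^ 2 ≤ b ^ 2) (hb : 0 ≤ b) : a ≤ b :=
  abs_le_of_sq_le_sq' h hb |>.2

private theorem WdA_rad (x v : EN N) : 0 ≤ ‖x‖ ^ 2 * ‖v‖ ^ 2 - ‖inner ℂ x v‖ ^ 2 := by
  have h := norm_inner_le_norm (𝕜 := ℂ) x v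
  have h2 : ‖inner ℂ x v‖ ^ 2 ≤ (‖x‖ * ‖v‖) ^ 2 := pow_le_pow_left₀ (norm_nonneg _) h 2
  rw [mul_pow] at h2
  linarith

private theorem WdA_nn (x : EN N) : (inner ℂ x x : ℂ) = ((‖x‖ : ℝ) : ℂ) ^ 2 := by
  exact inner_self_eq_norm_sq_to_K x

private theorem WdA_symm (x v : EN N) : (inner ℂ x v : ℂ) * inner ℂ v x = (((‖inner ℂ x v‖ : ℝ)) : ℂ) ^ 2 := by
  rw [← inner_conj_symm v x]
  exact Complex.mul_conj' _

theorem wd_nonneg (x v : EN N) : 0 ≤ wd x v := by
  exact Real.sqrt_nonneg _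

/-- Cauchy-Schwarz -/
theorem wd_sq (x v : EN N) : wd x v ^ 2 = ‖x‖ ^ 2 * ‖v‖ ^ 2 - ‖inner ℂ x v‖ ^ 2 := by
  unfold wd
  rw [Real.sq_sqrt (WdA_rad x v)]

/-- the square of the wedge norm as a complex Gram determinant -/
private theorem WdA_gram (x v : EN N) : (((wd x v : ℝ)) : ℂ) ^ 2 =
    (inner ℂ x x : ℂ) * inner ℂ v v - (inner ℂ x v : ℂ) * inner ℂ v x := by
  have h := wd_sq x v
  have h2 : (((wd x v ^ 2 : ℝ)) : ℂ) = ((‖x‖ ^ 2 * ‖v‖ ^ 2 - ‖inner ℂ x v‖ ^ 2 : ℝ) : ℂ) := by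
    rw [h]
  rw [WdA_nn, WdA_nn, WdA_symm]
  push_cast at h2
  exact h2

theorem wd_le (x v : EN N) : wd x v ≤ ‖x‖ * ‖v‖ := by
  have h := wd_sq x v
  have h2 : wd x v ^ 2 ≤ (‖x‖ * ‖v‖) ^ 2 := by
    rw [mul_pow]
    nlinarith [sq_nonneg ‖inner ℂ x v‖]
  exact le_of_sq_le_sq' h2 (by positivity)

theorem wd_inv (x v : EN N) (c a : ℂ) : wd (c • x) (c • v + a • x) = ‖c‖ ^ 2 * wd x v := by
  have h1 := WdA_gram (c • x) (c • v + a • x)
  have h2 := WdA_gram x v
  have hc : (starRingEnd ℂ) c * c = (((‖c‖ : ℝ)) : ℂ) ^ 2 := Complex.conj_mul' c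
  have h3 : (((wd (c • x) (c • v + a • x) : ℝ)) : ℂ) ^ 2 = (((‖c‖ ^ 2 * wd x v : ℝ)) : ℂ) ^ 2 := by
    rw [h1]
    push_cast
    rw [mul_pow, h2, ← hc]
    simp only [inner_add_left, inner_add_right, inner_smul_left, inner_smul_right]
    ring
  have h4 : wd (c • x) (c • v + a • x) ^ 2 = (‖c‖ ^ 2 * wd x v) ^ 2 := by
    exact_mod_cast h3
  have h5 : 0 ≤ ‖c‖ ^ 2 * wd x v := mul_nonneg (by positivity) (wd_nonneg x v)
  exact (pow_left_inj₀ (wd_nonneg _ _) h5 two_ne_zero).mp h4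

theorem wd_smul_right (x v : EN N) (c : ℂ) : wd x (c • v) = ‖c‖ * wd x v := by
  have h1 := WdA_gram x (c • v)
  have h2 := WdA_gram x v
  have hc : (starRingEnd ℂ) c * c = (((‖c‖ : ℝ)) : ℂ) ^ 2 := Complex.conj_mul' c
  have h3 : (((wd x (c • v) : ℝ)) : ℂ) ^ 2 = (((‖c‖ * wd x v : ℝ)) : ℂ) ^ 2 := by
    rw [h1]
    push_cast
    rw [mul_pow, h2, ← hc]
    simp only [inner_smul_left, inner_smul_right]
    ring
  have h4 : wd x (c • v) ^ 2 = (‖c‖ * wd x v) ^ 2 := by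
    exact_mod_cast h3
  have h5 : 0 ≤ ‖c‖ * wd x v := mul_nonneg (by positivity) (wd_nonneg x v)
  exact (pow_left_inj₀ (wd_nonneg _ _) h5 two_ne_zero).mp h4

private theorem WdA_add (x v : EN N) (a : ℂ) : wd x (v + a • x) = wd x v := by
  have h := wd_inv x v 1 a
  rw [one_smul, one_smul, norm_one] at h
  rw [h]
  ring

private theorem WdA_orth {x w : EN N} (h : inner ℂ x w = (0 : ℂ)) : wd x w = ‖x‖ * ‖w‖ := by
  unfold wd
  rw [h, norm_zero, ← mul_pow]
  rw [show (‖x‖ * ‖w‖) ^ 2 - (0 : ℝ) ^ 2 = (‖x‖ * ‖w‖) ^ 2 by ring]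
  exact Real.sqrt_sq (by positivity)

theorem wd_eq_zero {x v : EN N} (hx : x ≠ 0) : wd x v = 0 ↔ ∃ a : ℂ, v = a • x := by
  constructor
  · intro h
    set s : ℂ := inner ℂ x v / inner ℂ x x with hs
    have hxx : (inner ℂ x x : ℂ) ≠ 0 := by
      rw [Ne, inner_self_eq_zero]
      exact hx
    refine ⟨s, ?_⟩
    have ho : inner ℂ x (v + (-s) • x) = (0 : ℂ) := by
      rw [inner_add_right, inner_smul_right, hs]
      field_simp
      ring
    have h1 := WdA_orth ho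
    rw [WdA_add, h] at h1
    have h2 : ‖v + (-s) • x‖ = 0 := by
      have hxn : ‖x‖ ≠ 0 := norm_ne_zero_iff.mpr hx
      rcases mul_eq_zero.mp h1.symm with h3 | h3
      · exact absurd h3 hxn
      · exact h3
    have h3 : v + (-s) • x = 0 := norm_eq_zero.mp h2
    rw [neg_smul, ← sub_eq_add_neg, sub_eq_zero] at h3
    exact h3
  · rintro ⟨a, rfl⟩
    have h := WdA_add x 0 a
    rw [zero_add] at h
    rw [h]
    unfold wd
    simp

theorem wd_cont : Continuous (fun p : EN N × EN N => wd p.1 p.2) := by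
  unfold wd
  have h1 : Continuous (fun p : EN N × EN N => (inner ℂ p.1 p.2 : ℂ)) := continuous_fst.inner continuous_snd
  exact Real.continuous_sqrt.comp (((continuous_fst.norm.pow 2).mul (continuous_snd.norm.pow 2)).sub (h1.norm.pow 2))

theorem fs_nonneg (x v : EN N) : 0 ≤ fs x v := by
  exact div_nonneg (wd_nonneg x v) (by positivity)

theorem fs_inv {x : EN N} (hx : x ≠ 0) (v : EN N) {c : ℂ} (hc : c ≠ 0) (a : ℂ) : fs (c • x) (c • v + a • x) = fs x v := by
  unfold fs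
  rw [wd_inv, norm_smul]
  have hc' : ‖c‖ ≠ 0 := norm_ne_zero_iff.mpr hc
  have hx' : ‖x‖ ≠ 0 := norm_ne_zero_iff.mpr hx
  field_simp

theorem fs_smul_right (x v : EN N) (c : ℂ) : fs x (c • v) = ‖c‖ * fs x v := by
  unfold fs
  rw [wd_smul_right, mul_div_assoc]

/-- real form of the inequality between the two Gram determinants -/
private theorem WdA_ineq {A B a' b' : ℝ} {C c' : ℂ} (hA : 0 ≤ A) (hB : 0 ≤ B) (ha : 0 ≤ a') (hb : 0 ≤ b')
    (hC : ‖C‖ ^ 2 ≤ A * B) (hc : ‖c'‖ ^ 2 ≤ a' * b') :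
    A * B - ‖C‖ ^ 2 ≤ (A + a') * (B + b') - ‖C + c'‖ ^ 2 := by
  have h1 : ‖C + c'‖ ≤ ‖C‖ + ‖c'‖ := norm_add_le _ _
  have h2 : ‖C + c'‖ ^ 2 ≤ (‖C‖ + ‖c'‖) ^ 2 := pow_le_pow_left₀ (norm_nonneg _) h1 2
  have h3 : 2 * (‖C‖ * ‖c'‖) ≤ A * b' + a' * B := by
    refine le_of_sq_le_sq' ?_ (by positivity)
    have h4 : (‖C‖ * ‖c'‖) ^ 2 ≤ (A * B) * (a' * b') := by
      rw [mul_pow]
      exact mul_le_mul hC hc (by positivity) (by positivity)
    nlinarith [sq_nonneg (A * b' - a' * B)]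
  nlinarith

theorem gram_proj {a b : EN N} (ha : ‖a‖ = 1) (hb : ‖b‖ = 1) (hab : inner ℂ a b = (0 : ℂ)) (x v : EN N) :
    ‖(inner ℂ a x : ℂ) * inner ℂ b v - inner ℂ b x * inner ℂ a v‖ ≤ wd x v := by
  have haa : (inner ℂ a a : ℂ) = 1 := by rw [WdA_nn, ha]; norm_num
  have hbb : (inner ℂ b b : ℂ) = 1 := by rw [WdA_nn, hb]; norm_num
  have hba : (inner ℂ b a : ℂ) = 0 := by
    rw [← inner_conj_symm, hab, map_zero]
  set x1 : ℂ := inner ℂ a x with hx1
  set x2 : ℂ := inner ℂ b x with hx2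
  set v1 : ℂ := inner ℂ a v with hv1
  set v2 : ℂ := inner ℂ b v with hv2
  set x' : EN N := x - x1 • a - x2 • b with hx'
  set v' : EN N := v - v1 • a - v2 • b with hv'
  have hxa : (inner ℂ x a : ℂ) = (starRingEnd ℂ) x1 := by rw [hx1, inner_conj_symm]
  have hxb : (inner ℂ x b : ℂ) = (starRingEnd ℂ) x2 := by rw [hx2, inner_conj_symm]
  have hva : (inner ℂ v a : ℂ) = (starRingEnd ℂ) v1 := by rw [hv1, inner_conj_symm]
  have hvb : (inner ℂ v b : ℂ) = (starRingEnd ℂ) v2 := by rw [hv2, inner_conj_symm]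
  have key : ∀ y z : EN N, ∀ y1 y2 z1 z2 : ℂ, inner ℂ a y = y1 → inner ℂ b y = y2 → inner ℂ a z = z1 → inner ℂ b z = z2 →
      (inner ℂ y z : ℂ) = (starRingEnd ℂ) y1 * z1 + (starRingEnd ℂ) y2 * z2 +
        inner ℂ (y - y1 • a - y2 • b) (z - z1 • a - z2 • b) := by
    intro y z y1 y2 z1 z2 h1 h2 h3 h4
    have h5 : (inner ℂ y a : ℂ) = (starRingEnd ℂ) y1 := by rw [← h1, inner_conj_symm]
    have h6 : (inner ℂ y b : ℂ) = (starRingEnd ℂ) y2 := by rw [← h2, inner_conj_symm]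
    simp only [inner_sub_left, inner_sub_right, inner_smul_left, inner_smul_right, haa, hbb, hab, hba, h3, h4, h5, h6]
    ring
  have hxx := key x x x1 x2 x1 x2 hx1.symm hx2.symm hx1.symm hx2.symm
  have hvv := key v v v1 v2 v1 v2 hv1.symm hv2.symm hv1.symm hv2.symm
  have hxv := key x v x1 x2 v1 v2 hx1.symm hx2.symm hv1.symm hv2.symm
  rw [← hx'] at hxx hxv
  rw [← hv'] at hvv hxv
  have hnx : ‖x‖ ^ 2 = (‖x1‖ ^ 2 + ‖x2‖ ^ 2) + ‖x'‖ ^ 2 := by
    have h := hxx
    rw [WdA_nn, WdA_nn, Complex.conj_mul', Complex.conj_mul'] at h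
    exact_mod_cast h
  have hnv : ‖v‖ ^ 2 = (‖v1‖ ^ 2 + ‖v2‖ ^ 2) + ‖v'‖ ^ 2 := by
    have h := hvv
    rw [WdA_nn, WdA_nn, Complex.conj_mul', Complex.conj_mul'] at h
    exact_mod_cast h
  have hdet : ‖x1 * v2 - x2 * v1‖ ^ 2 = (‖x1‖ ^ 2 + ‖x2‖ ^ 2) * (‖v1‖ ^ 2 + ‖v2‖ ^ 2) -
      ‖(starRingEnd ℂ) x1 * v1 + (starRingEnd ℂ) x2 * v2‖ ^ 2 := by
    have h : (((‖x1 * v2 - x2 * v1‖ ^ 2 : ℝ)) : ℂ) = (((‖x1‖ ^ 2 + ‖x2‖ ^ 2) * (‖v1‖ ^ 2 + ‖v2‖ ^ 2) -
      ‖(starRingEnd ℂ) x1 * v1 + (starRingEnd ℂ) x2 * v2‖ ^ 2 : ℝ) : ℂ) := by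
      push_cast
      rw [← Complex.conj_mul', ← Complex.conj_mul', ← Complex.conj_mul', ← Complex.conj_mul', ← Complex.conj_mul',
        ← Complex.conj_mul']
      simp only [map_add, map_sub, map_mul, Complex.conj_conj]
      ring
    exact_mod_cast h
  have hC : ‖(starRingEnd ℂ) x1 * v1 + (starRingEnd ℂ) x2 * v2‖ ^ 2 ≤ (‖x1‖ ^ 2 + ‖x2‖ ^ 2) * (‖v1‖ ^ 2 + ‖v2‖ ^ 2) := by
    have := sq_nonneg ‖x1 * v2 - x2 * v1‖
    linarith
  have hc : ‖(inner ℂ x' v' : ℂ)‖ ^ 2 ≤ ‖x'‖ ^ 2 * ‖v'‖ ^ 2 := by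
    have := WdA_rad x' v'
    linarith
  have hfin := WdA_ineq (by positivity) (by positivity) (by positivity) (by positivity) hC hc
  refine le_of_sq_le_sq' ?_ (wd_nonneg x v)
  rw [wd_sq, hxv, hnx, hnv, hdet]
  exact hfin

theorem wd_norming {x v : EN N} (h : 0 < wd x v) : ∃ a b : EN N, ‖a‖ = 1 ∧ ‖b‖ = 1 ∧ inner ℂ a b = (0 : ℂ) ∧
    ‖(inner ℂ a x : ℂ) * inner ℂ b v - inner ℂ b x * inner ℂ a v‖ = wd x v := by
  have hx : x ≠ 0 := by
    rintro rfl
    have h1 := wd_le (0 : EN N) v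
    rw [norm_zero, zero_mul] at h1
    linarith
  have hxn : ‖x‖ ≠ 0 := norm_ne_zero_iff.mpr hx
  have hxx : (inner ℂ x x : ℂ) ≠ 0 := by
    rw [Ne, inner_self_eq_zero]
    exact hx
  set s : ℂ := inner ℂ x v / inner ℂ x x with hs
  set w : EN N := v + (-s) • x with hw
  have ho : inner ℂ x w = (0 : ℂ) := by
    rw [hw, inner_add_right, inner_smul_right, hs]
    field_simp
    ring
  have ho' : inner ℂ w x = (0 : ℂ) := by
    rw [← inner_conj_symm, ho, map_zero]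
  have hwd : wd x v = ‖x‖ * ‖w‖ := by
    rw [← WdA_orth ho, hw, WdA_add]
  have hwn : ‖w‖ ≠ 0 := by
    intro h0
    rw [hwd, h0, mul_zero] at h
    exact lt_irrefl _ h
  have hvw : v = w + s • x := by
    rw [hw, neg_smul]
    abel
  have hwv : (inner ℂ w v : ℂ) = (((‖w‖ : ℝ)) : ℂ) ^ 2 := by
    conv_lhs => rw [hvw]
    rw [inner_add_right, inner_smul_right, ho', WdA_nn]
    ring
  refine ⟨((((‖x‖ : ℝ)) : ℂ)⁻¹) • x, ((((‖w‖ : ℝ)) : ℂ)⁻¹) • w, ?_, ?_, ?_, ?_⟩
  · rw [norm_smul, norm_inv, Complex.norm_real, norm_norm]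
    exact inv_mul_cancel₀ hxn
  · rw [norm_smul, norm_inv, Complex.norm_real, norm_norm]
    exact inv_mul_cancel₀ hwn
  · rw [inner_smul_left, inner_smul_right, ho]
    ring
  · have hxC : (((‖x‖ : ℝ)) : ℂ) ≠ 0 := Complex.ofReal_ne_zero.mpr hxn
    have hwC : (((‖w‖ : ℝ)) : ℂ) ≠ 0 := Complex.ofReal_ne_zero.mpr hwn
    rw [inner_smul_left, inner_smul_left, inner_smul_left, inner_smul_left, ho', hwv, WdA_nn, map_inv₀, map_inv₀, Complex.conj_ofReal,
      Complex.conj_ofReal]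
    have h1 : ((((‖x‖ : ℝ)) : ℂ)⁻¹) * (((‖x‖ : ℝ)) : ℂ) ^ 2 * (((((‖w‖ : ℝ)) : ℂ)⁻¹) * (((‖w‖ : ℝ)) : ℂ) ^ 2) -
        ((((‖w‖ : ℝ)) : ℂ)⁻¹) * 0 * (((((‖x‖ : ℝ)) : ℂ)⁻¹) * inner ℂ x v) = (((‖x‖ * ‖w‖ : ℝ)) : ℂ) := by
      push_cast
      field_simp
      ring
    rw [h1, Complex.norm_real, Real.norm_of_nonneg (by positivity), hwd]

end Pool.Agent.H36.BP

end

section

/-!
# The lemma on the logarithmic derivative at a puncture
-/

open Filter Topology MeasureTheory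
open Pool.Agent.H92.GGL (ordZ)

noncomputable section

namespace Pool.Agent.H62.FC

/-! ### The weights -/

private def wt (t : ℝ) : ℝ := 1 / (1 + |t|) ^ 2

def wn (n : ℕ) (t : ℝ) : ℝ := max 0 (wt t - wt n)

private lemma one_add_abs_pos (t : ℝ) : 0 < 1 + |t| := by positivity

private lemma wt_cont : Continuous wt := by
  unfold wt
  exact continuous_const.div₀ (by fun_prop) fun t => (pow_pos (one_add_abs_pos t) 2).ne'

lemma wn_cont (n : ℕ) : Continuous (wn n) := by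
  unfold wn
  exact continuous_const.max (wt_cont.sub continuous_const)

lemma wn_nonneg (n : ℕ) (t : ℝ) : 0 ≤ wn n t := le_max_left _ _

private lemma wt_nonneg (t : ℝ) : 0 ≤ wt t := by unfold wt; positivity

lemma wn_neg (n : ℕ) (t : ℝ) : wn n (-t) = wn n t := by
  simp only [wn, wt, abs_neg]

private lemma wt_le {s t : ℝ} (h : |s| ≤ |t|) : wt t ≤ wt s := by
  unfold wt
  have h1 := one_add_abs_pos s
  exact one_div_le_one_div_of_le (by positivity) (pow_le_pow_left₀ h1.le (by linarith) 2)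

lemma wn_zero {n : ℕ} {t : ℝ} (h : (n : ℝ) ≤ |t|) : wn n t = 0 := by
  unfold wn
  refine max_eq_left ?_
  have := wt_le (s := (n : ℝ)) (t := t) (by rwa [Nat.abs_cast])
  linarith

private lemma wn_le_wt (n : ℕ) (t : ℝ) : wn n t ≤ wt t := by
  unfold wn
  have := wt_nonneg (n : ℝ)
  have := wt_nonneg t
  exact max_le (by assumption) (by linarith)

lemma wn_mono {n m : ℕ} (h : n ≤ m) (t : ℝ) : wn n t ≤ wn m t := by
  unfold wn
  refine max_le_max le_rfl ?_
  have : wt (m : ℝ) ≤ wt (n : ℝ) := wt_le (by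
    rw [Nat.abs_cast, Nat.abs_cast]
    exact_mod_cast h)
  linarith

private lemma wt_tendsto : Tendsto (fun n : ℕ => wt (n : ℝ)) atTop (𝓝 0) := by
  have h1 : Tendsto (fun n : ℕ => 1 / ((n : ℝ) + 1)) atTop (𝓝 0) :=
    tendsto_one_div_add_atTop_nhds_zero_nat
  have h2 := h1.pow 2
  rw [zero_pow two_ne_zero] at h2
  refine h2.congr fun n => ?_
  unfold wt
  rw [Nat.abs_cast, one_div_pow, add_comm]

private lemma wn_tendsto (t : ℝ) : Tendsto (fun n : ℕ => wn n t) atTop (𝓝 (wt t)) := by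
  have h : Tendsto (fun n : ℕ => wt t - wt (n : ℝ)) atTop (𝓝 (wt t - 0)) :=
    tendsto_const_nhds.sub wt_tendsto
  rw [sub_zero] at h
  have h2 : Tendsto (fun n : ℕ => max 0 (wt t - wt (n : ℝ))) atTop (𝓝 (max 0 (wt t))) :=
    (tendsto_const_nhds (x := (0 : ℝ))).max h
  rwa [max_eq_right (wt_nonneg t)] at h2

lemma wn_integral (n : ℕ) : (∫ t in (0 : ℝ)..n, wn n t) ≤ 1 := by
  have hn : (0 : ℝ) ≤ n := Nat.cast_nonneg n
  have h1 : (∫ t in (0 : ℝ)..n, wn n t) ≤ ∫ t in (0 : ℝ)..n, wt t :=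
    intervalIntegral.integral_mono_on hn ((wn_cont n).intervalIntegrable _ _)
      (wt_cont.intervalIntegrable _ _) fun t _ => wn_le_wt n t
  have h2 : ∀ t ∈ Set.uIcc (0 : ℝ) n, HasDerivAt (fun t : ℝ => -(1 + t)⁻¹) (wt t) t := by
    intro t ht
    rw [Set.uIcc_of_le hn] at ht
    have h0 : (1 : ℝ) + t ≠ 0 := by have := ht.1; positivity
    have h3 : HasDerivAt (fun t : ℝ => (1 + t)⁻¹) (-1 / (1 + t) ^ 2) t := by
      exact ((hasDerivAt_id' t).const_add 1).fun_inv h0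
    have h4 := h3.neg
    have h5 : wt t = -(-1 / (1 + t) ^ 2) := by
      unfold wt
      rw [abs_of_nonneg ht.1]
      ring
    rw [h5]
    exact h4
  have h3 := intervalIntegral.integral_eq_sub_of_hasDerivAt h2 (wt_cont.intervalIntegrable _ _)
  rw [h3] at h1
  refine h1.trans ?_
  have : 0 ≤ (1 + (n : ℝ))⁻¹ := by positivity
  norm_num
  linarith

/-! ### Integrability on circles -/

private lemma circleIntegrable_of_local {f : ℂ → ℝ} {r : ℝ} (hr : 0 < r)
    (h : ∀ s, ‖s‖ = r → ∃ g : ℂ → ℝ, (∀ᶠ z in 𝓝 s, ContinuousAt g z) ∧ f =ᶠ[𝓝[≠] s] g) :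
    CircleIntegrable f 0 r := by
  have hl : LocallyIntegrable (fun θ : ℝ => f (circleMap 0 r θ)) volume := by
    intro θ
    obtain ⟨g, hg1, hg2⟩ := h (circleMap 0 r θ) (by simp [abs_of_pos hr])
    have hc : ContinuousAt (circleMap 0 r) θ := (continuous_circleMap 0 r).continuousAt
    have h1 : ∀ᶠ φ in 𝓝 θ, ContinuousAt (fun φ => g (circleMap 0 r φ)) φ := by
      filter_upwards [hc.eventually hg1] with φ hφ
      exact hφ.comp (continuous_circleMap 0 r).continuousAt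
    have h2 : ∀ᶠ φ in 𝓝 θ, φ ≠ θ → f (circleMap 0 r φ) = g (circleMap 0 r φ) := by
      have h3 : ∀ᶠ z in 𝓝 (circleMap 0 r θ), z ≠ circleMap 0 r θ → f z = g z :=
        eventually_nhdsWithin_iff.1 hg2
      have h4 : ∀ᶠ φ in 𝓝 θ, |φ - θ| < 2 * Real.pi := by
        have : ContinuousAt (fun φ : ℝ => |φ - θ|) θ := by fun_prop
        have h5 := this.tendsto
        rw [sub_self, abs_zero] at h5
        exact h5.eventually (gt_mem_nhds (by positivity))
      filter_upwards [hc.eventually h3, h4] with φ h5 h6 hne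
      refine h5 fun h7 => hne ?_
      exact eq_of_circleMap_eq hr.ne' h6 h7
    obtain ⟨ε, hε, hball⟩ := Metric.eventually_nhds_iff_ball.1 (h1.and h2)
    refine ⟨Set.Icc (θ - ε / 2) (θ + ε / 2), Icc_mem_nhds (by linarith) (by linarith), ?_⟩
    have hsub : ∀ φ ∈ Set.Icc (θ - ε / 2) (θ + ε / 2), φ ∈ Metric.ball θ ε := by
      intro φ hφ
      rw [Metric.mem_ball, Real.dist_eq, abs_lt]
      constructor <;> linarith [hφ.1, hφ.2]
    have hcont : ContinuousOn (fun φ => g (circleMap 0 r φ)) (Set.Icc (θ - ε / 2) (θ + ε / 2)) :=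
      fun φ hφ => (hball φ (hsub φ hφ)).1.continuousWithinAt
    refine hcont.integrableOn_Icc.congr_fun_ae ?_
    rw [EventuallyEq, ae_restrict_iff' measurableSet_Icc]
    have hne : ∀ᵐ φ : ℝ, φ ≠ θ := by
      rw [ae_iff]
      simp
    filter_upwards [hne] with φ h3 h4
    exact ((hball φ (hsub φ h4)).2 h3).symm
  unfold CircleIntegrable
  rw [intervalIntegrable_iff_integrableOn_Icc_of_le (by positivity)]
  exact hl.integrableOn_isCompact isCompact_Icc

lemma circleIntegrable_wn {R₀ : ℝ} {u : ℂ → ℂ} (hu : MeroPunct R₀ u) (n : ℕ) {x : ℝ}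
    (hx : Real.exp (-x) < R₀) :
    CircleIntegrable (fun z => wn n (Real.log ‖u z‖) * ‖z * deriv u z / u z‖ ^ 2) 0
      (Real.exp (-x)) := by
  refine circleIntegrable_of_local (Real.exp_pos _) fun s hs => ?_
  have hs0 : 0 < ‖s‖ := by rw [hs]; exact Real.exp_pos _
  have hs1 : ‖s‖ < R₀ := by rw [hs]; exact hx
  have hm := hu.mero s hs0 hs1
  have ho := hu.ord s hs0 hs1
  rcases eq_or_ne (meromorphicOrderAt u s) 0 with h0 | h0
  · obtain ⟨g, hg, hgs, hug⟩ := (meromorphicOrderAt_ne_top_iff hm).1 ho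
    rw [h0] at hug
    have hug' : u =ᶠ[𝓝[≠] s] g := by
      filter_upwards [hug] with z hz
      rw [hz]
      simp
    refine ⟨fun z => wn n (Real.log ‖g z‖) * ‖z * deriv g z / g z‖ ^ 2, ?_, ?_⟩
    · have h1 : ∀ᶠ z in 𝓝 s, g z ≠ 0 := hg.continuousAt.eventually_ne hgs
      filter_upwards [h1, hg.eventually_analyticAt] with z h2 h3
      have h4 := h3.continuousAt
      have h5 := h3.deriv.continuousAt
      refine ((wn_cont n).continuousAt.comp ?_).mul ?_
      · exact h4.norm.log (norm_ne_zero_iff.2 h2)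
      · exact ((continuousAt_id.mul h5).div h4 h2).norm.pow 2
    · filter_upwards [hug', hug'.nhdsNE_deriv] with z h1 h2
      rw [h1, h2]
  · refine ⟨fun _ => 0, Eventually.of_forall fun _ => continuousAt_const, ?_⟩
    have key : ∀ᶠ z in 𝓝[≠] s, (n : ℝ) ≤ |Real.log ‖u z‖| := by
      rcases lt_or_gt_of_ne h0 with h1 | h1
      · have h2 := (tendsto_cobounded_iff_meromorphicOrderAt_neg hm).2 h1
        have h3 : Tendsto (fun z => Real.log ‖u z‖) (𝓝[≠] s) atTop :=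
          Real.tendsto_log_atTop.comp (tendsto_norm_cobounded_atTop.comp h2)
        filter_upwards [h3.eventually_ge_atTop (n : ℝ)] with z hz
        exact hz.trans (le_abs_self _)
      · have h2 := (tendsto_zero_iff_meromorphicOrderAt_pos hm).2 h1
        have hne := (meromorphicOrderAt_ne_top_iff_eventually_ne_zero hm).1 ho
        have h3 : Tendsto (fun z => ‖u z‖) (𝓝[≠] s) (𝓝[>] 0) := by
          rw [tendsto_nhdsWithin_iff]
          refine ⟨by simpa using h2.norm, ?_⟩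
          filter_upwards [hne] with z hz
          exact norm_pos_iff.2 hz
        have h4 : Tendsto (fun z => Real.log ‖u z‖) (𝓝[≠] s) atBot :=
          Real.tendsto_log_nhdsGT_zero.comp h3
        filter_upwards [h4.eventually_le_atBot (-(n : ℝ))] with z hz
        exact (by linarith : (n : ℝ) ≤ -Real.log ‖u z‖).trans (neg_le_abs _)
    filter_upwards [key] with z hz
    rw [wn_zero hz, zero_mul]

/-! ### Pointwise inequality -/

private lemma posLog_le_half_log (y : ℝ) : Real.posLog y ≤ 1 / 2 * Real.log (1 + y ^ 2) := by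
  unfold Real.posLog
  refine max_le (mul_nonneg (by norm_num) (Real.log_nonneg (by nlinarith [sq_nonneg y]))) ?_
  rcases eq_or_ne y 0 with rfl | hy
  · simp
  · have h : Real.log (y ^ 2) ≤ Real.log (1 + y ^ 2) :=
      Real.log_le_log (by positivity) (by linarith)
    rw [Real.log_pow] at h
    push_cast at h
    linarith

private lemma log_tangent {a A : ℝ} (ha : 0 ≤ a) (hA : 0 ≤ A) :
    Real.log (1 + a) ≤ Real.log (1 + A) + (a - A) / (1 + A) := by
  have h1 : 0 < 1 + a := by linarith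
  have h2 : 0 < 1 + A := by linarith
  have h3 := Real.log_le_sub_one_of_pos (div_pos h1 h2)
  rw [Real.log_div h1.ne' h2.ne'] at h3
  have h4 : (1 + a) / (1 + A) - 1 = (a - A) / (1 + A) := by
    field_simp
    ring
  linarith

/-- The pointwise inequality. -/
private lemma pointwise {z : ℂ} {x : ℝ} (hz : ‖z‖ = Real.exp (-x)) (w d : ℂ) {A B : ℝ}
    (hA : 0 ≤ A) (hB : 0 ≤ B) :
    Real.posLog ‖d / w‖ ≤ 1 / 2 * (Real.log (1 + A) +
      (wt (Real.log ‖w‖) * ‖z * d / w‖ ^ 2 - A) / (1 + A)) +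
      (Real.log (1 + B) + (|Real.log ‖w‖| - B) / (1 + B)) + |x| := by
  set L := Real.log ‖w‖ with hL
  set y := ‖z * d / w‖ with hy
  have hzpos : 0 < ‖z‖ := by rw [hz]; exact Real.exp_pos _
  have e1 : ‖d / w‖ = y * Real.exp x := by
    rw [hy, mul_div_assoc, norm_mul, hz, Real.exp_neg]
    field_simp
  have h1 : Real.posLog ‖d / w‖ ≤ Real.posLog y + |x| := by
    rw [e1]
    refine Real.posLog_mul.trans ?_
    have : Real.posLog (Real.exp x) ≤ |x| := by
      unfold Real.posLog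
      rw [Real.log_exp]
      exact max_le (abs_nonneg _) (le_abs_self _)
    linarith
  have hy0 : 0 ≤ y := norm_nonneg _
  have hL1 : 0 < 1 + |L| := by positivity
  have hg0 : 0 ≤ wt L * y ^ 2 := mul_nonneg (wt_nonneg _) (sq_nonneg _)
  have h2 : Real.log (1 + y ^ 2) ≤ Real.log (1 + wt L * y ^ 2) + 2 * Real.log (1 + |L|) := by
    have h3 : (1 : ℝ) + y ^ 2 ≤ (1 + wt L * y ^ 2) * (1 + |L|) ^ 2 := by
      have h4 : (1 + wt L * y ^ 2) * (1 + |L|) ^ 2 = (1 + |L|) ^ 2 + y ^ 2 := by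
        unfold wt
        field_simp
      rw [h4]
      have : 0 ≤ |L| := abs_nonneg L
      nlinarith
    have h5 := Real.log_le_log (by positivity) h3
    rw [Real.log_mul (by positivity) (by positivity), Real.log_pow] at h5
    push_cast at h5
    exact h5
  have h3 := posLog_le_half_log y
  have h4 := log_tangent hg0 hA
  have h5 := log_tangent (abs_nonneg L) hB
  linarith

/-! ### Bounds of logarithms -/

lemma log_le_eps {η : ℝ} (hη : 0 < η) {t : ℝ} (ht : 0 ≤ t) :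
    Real.log (1 + t) ≤ η * t + (η + |Real.log η|) := by
  have h1 : 0 < 1 + t := by linarith
  have h2 := Real.log_le_sub_one_of_pos (mul_pos hη h1)
  rw [Real.log_mul hη.ne' h1.ne'] at h2
  have := neg_abs_le (Real.log η)
  have h3 : η * (1 + t) = η * t + η := by ring
  rw [h3] at h2
  have := le_abs_self (Real.log η)
  have := neg_le_abs (Real.log η)
  linarith

/-! ### The limit of the weights -/

private lemma limit_wn {R₀ : ℝ} {u : ℂ → ℂ} (hu : MeroPunct R₀ u) {x A : ℝ}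
    (hx : Real.exp (-x) < R₀) (hA : 0 ≤ A)
    (h : ∀ n : ℕ, mean (fun z => wn n (Real.log ‖u z‖) * ‖z * deriv u z / u z‖ ^ 2) x ≤ A) :
    CircleIntegrable (fun z => wt (Real.log ‖u z‖) * ‖z * deriv u z / u z‖ ^ 2) 0
      (Real.exp (-x)) ∧
    mean (fun z => wt (Real.log ‖u z‖) * ‖z * deriv u z / u z‖ ^ 2) x ≤ A := by
  set r := Real.exp (-x) with hr
  set F : ℕ → ℝ → ℝ := fun n θ => wn n (Real.log ‖u (circleMap 0 r θ)‖) *
    ‖circleMap 0 r θ * deriv u (circleMap 0 r θ) / u (circleMap 0 r θ)‖ ^ 2 with hF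
  set G : ℝ → ℝ := fun θ => wt (Real.log ‖u (circleMap 0 r θ)‖) *
    ‖circleMap 0 r θ * deriv u (circleMap 0 r θ) / u (circleMap 0 r θ)‖ ^ 2 with hG
  set μ : Measure ℝ := volume.restrict (Set.Ioc 0 (2 * Real.pi)) with hμ
  have hpi : (0 : ℝ) < 2 * Real.pi := by positivity
  have hFi : ∀ n, Integrable (F n) μ := by
    intro n
    have h1 := circleIntegrable_wn hu n hx
    unfold CircleIntegrable at h1
    rw [intervalIntegrable_iff_integrableOn_Ioc_of_le hpi.le] at h1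
    exact h1
  have hF0 : ∀ n θ, 0 ≤ F n θ := fun n θ => mul_nonneg (wn_nonneg _ _) (sq_nonneg _)
  have hG0 : ∀ θ, 0 ≤ G θ := fun θ => mul_nonneg (wt_nonneg _) (sq_nonneg _)
  have hlim : ∀ θ, Tendsto (fun n => F n θ) atTop (𝓝 (G θ)) := fun θ =>
    (wn_tendsto _).mul_const _
  have hFint : ∀ n, ∫ θ, F n θ ∂μ ≤ 2 * Real.pi * A := by
    intro n
    have h1 := h n
    unfold mean at h1
    rw [Real.circleAverage_def, smul_eq_mul, intervalIntegral.integral_of_le hpi.le] at h1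
    have h2 := mul_le_mul_of_nonneg_left h1 hpi.le
    rw [← mul_assoc, mul_inv_cancel₀ hpi.ne', one_mul] at h2
    exact h2
  have hmeas : AEStronglyMeasurable G μ :=
    aestronglyMeasurable_of_tendsto_ae atTop (fun n => (hFi n).aestronglyMeasurable)
      (Eventually.of_forall hlim)
  have hlint : ∫⁻ θ, ENNReal.ofReal (G θ) ∂μ ≤ ENNReal.ofReal (2 * Real.pi * A) := by
    have h1 := lintegral_liminf_le' (μ := μ) (f := fun n θ => ENNReal.ofReal (F n θ))
      (u := atTop) fun n => (hFi n).aestronglyMeasurable.aemeasurable.ennreal_ofReal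
    have h2 : ∀ θ, liminf (fun n => ENNReal.ofReal (F n θ)) atTop = ENNReal.ofReal (G θ) :=
      fun θ => (ENNReal.tendsto_ofReal (hlim θ)).liminf_eq
    simp only [h2] at h1
    refine h1.trans ?_
    have h3 : liminf (fun n => ∫⁻ θ, ENNReal.ofReal (F n θ) ∂μ) atTop ≤
        liminf (fun _ : ℕ => ENNReal.ofReal (2 * Real.pi * A)) atTop := by
      refine liminf_le_liminf (Eventually.of_forall fun n => ?_)
      rw [← ofReal_integral_eq_lintegral_ofReal (hFi n) (Eventually.of_forall (hF0 n))]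
      exact ENNReal.ofReal_le_ofReal (hFint n)
    rwa [liminf_const] at h3
  have hGi : Integrable G μ := by
    refine ⟨hmeas, ?_⟩
    rw [hasFiniteIntegral_iff_ofReal (Eventually.of_forall hG0)]
    exact hlint.trans_lt ENNReal.ofReal_lt_top
  refine ⟨?_, ?_⟩
  · unfold CircleIntegrable
    rw [intervalIntegrable_iff_integrableOn_Ioc_of_le hpi.le]
    exact hGi
  · unfold mean
    rw [Real.circleAverage_def, smul_eq_mul, intervalIntegral.integral_of_le hpi.le]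
    have h1 : ∫ θ, G θ ∂μ ≤ 2 * Real.pi * A := by
      rw [integral_eq_lintegral_of_nonneg_ae (Eventually.of_forall hG0) hmeas]
      have h2 := ENNReal.toReal_mono ENNReal.ofReal_ne_top hlint
      rwa [ENNReal.toReal_ofReal (by positivity)] at h2
    have h2 := mul_le_mul_of_nonneg_left h1 (inv_nonneg.2 hpi.le)
    rw [← mul_assoc, inv_mul_cancel₀ hpi.ne', one_mul] at h2
    exact h2

/-- The bound of the mean of `posLog ‖u' / u‖`. -/
lemma mean_bound {R₀ : ℝ} {u : ℂ → ℂ} (hu : MeroPunct R₀ u) {x A B : ℝ}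
    (hx : Real.exp (-x) < R₀) (hA : 0 ≤ A)
    (h : ∀ n : ℕ, mean (fun z => wn n (Real.log ‖u z‖) * ‖z * deriv u z / u z‖ ^ 2) x ≤ A)
    (hB : mean (fun z => |Real.log ‖u z‖|) x ≤ B) :
    mean (fun z => Real.posLog ‖deriv u z / u z‖) x ≤
      1 / 2 * Real.log (1 + A) + Real.log (1 + B) + |x| := by
  obtain ⟨hgi, hgm⟩ := limit_wn hu hx hA h
  have hB0 : 0 ≤ B := (Real.circleAverage_nonneg_of_nonneg fun z _ => abs_nonneg _).trans hB
  have hR0 : 0 ≤ 1 / 2 * Real.log (1 + A) + Real.log (1 + B) + |x| := by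
    have h1 := Real.log_nonneg (by linarith : (1 : ℝ) ≤ 1 + A)
    have h2 := Real.log_nonneg (by linarith : (1 : ℝ) ≤ 1 + B)
    have := abs_nonneg x
    linarith
  by_cases hP : CircleIntegrable (fun z => Real.posLog ‖deriv u z / u z‖) 0 (Real.exp (-x))
  swap
  · unfold mean
    rw [Real.circleAverage.integral_undef hP]
    exact hR0
  have hL : CircleIntegrable (fun z => |Real.log ‖u z‖|) 0 (Real.exp (-x)) :=
    (MeroPunct.circleIntegrable_log hu hx).abs
  set g : ℂ → ℝ := fun z => wt (Real.log ‖u z‖) * ‖z * deriv u z / u z‖ ^ 2 with hg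
  set l : ℂ → ℝ := fun z => |Real.log ‖u z‖| with hl
  -- the upper bound as a linear combination
  set c : ℝ := 1 / 2 * (Real.log (1 + A) - A / (1 + A)) + (Real.log (1 + B) - B / (1 + B)) + |x|
    with hc
  have hci : CircleIntegrable (fun _ : ℂ => c) 0 (Real.exp (-x)) := circleIntegrable_const c 0 _
  have h1i : CircleIntegrable (fun z => (1 / (2 * (1 + A))) • g z) 0 (Real.exp (-x)) :=
    hgi.const_smul
  have h2i : CircleIntegrable (fun z => (1 / (1 + B)) • l z) 0 (Real.exp (-x)) :=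
    hL.const_smul
  have hsi : CircleIntegrable (fun z => (1 / (2 * (1 + A))) • g z + (1 / (1 + B)) • l z) 0
      (Real.exp (-x)) := h1i.add h2i
  have hti : CircleIntegrable
      (fun z => ((1 / (2 * (1 + A))) • g z + (1 / (1 + B)) • l z) + c) 0
      (Real.exp (-x)) := hsi.add hci
  have hmono : Real.circleAverage (fun z => Real.posLog ‖deriv u z / u z‖) 0 (Real.exp (-x)) ≤
      Real.circleAverage (fun z => ((1 / (2 * (1 + A))) • g z + (1 / (1 + B)) • l z) + c) 0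
        (Real.exp (-x)) := by
    refine Real.circleAverage_mono hP hti fun z hz => ?_
    rw [abs_of_pos (Real.exp_pos _), mem_sphere_zero_iff_norm] at hz
    have h1 := pointwise hz (u z) (deriv u z) hA hB0
    refine h1.trans (le_of_eq ?_)
    rw [hc, hg, hl, smul_eq_mul, smul_eq_mul]
    have hA1 : (1 : ℝ) + A ≠ 0 := by linarith
    have hB1 : (1 : ℝ) + B ≠ 0 := by linarith
    field_simp
    ring
  unfold mean at hgm hB ⊢
  rw [Real.circleAverage_fun_add hsi hci, Real.circleAverage_fun_add h1i h2i,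
    Real.circleAverage_fun_smul, Real.circleAverage_fun_smul, Real.circleAverage_const,
    smul_eq_mul, smul_eq_mul] at hmono
  refine hmono.trans ?_
  have hA1 : (0 : ℝ) < 1 + A := by linarith
  have hB1 : (0 : ℝ) < 1 + B := by linarith
  have e1 : 1 / (2 * (1 + A)) * Real.circleAverage g 0 (Real.exp (-x)) ≤
      1 / (2 * (1 + A)) * A := mul_le_mul_of_nonneg_left hgm (by positivity)
  have e2 : 1 / (1 + B) * Real.circleAverage l 0 (Real.exp (-x)) ≤ 1 / (1 + B) * B :=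
    mul_le_mul_of_nonneg_left hB (by positivity)
  have e3 : 1 / (2 * (1 + A)) * A = 1 / 2 * (A / (1 + A)) := by field_simp
  have e4 : 1 / (1 + B) * B = B / (1 + B) := by field_simp
  rw [hc]
  linarith

private lemma locFin_neg {R₀ : ℝ} {u : ℂ → ℂ} (hu : MeroPunct R₀ u) :
    LocFin R₀ (fun s => max (-(ordZ u s : ℝ)) 0) := by
  intro r b hr hb
  refine (MeroPunct.locFin hu r b hr hb).subset fun s hs => ?_
  refine ⟨hs.1, hs.2.1, fun h => hs.2.2 ?_⟩
  simp only [h, neg_zero, max_self]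

lemma nevT_radius {R₀ R₁ R' : ℝ} (h1 : 0 < R₁) (h : R₁ < R₀) (h1' : 0 < R') (h' : R' < R₀)
    {u : ℂ → ℂ} (hu : MeroPunct R₀ u) :
    ∃ C : ℝ, ∀ x, Real.exp (-x) < R₁ → Real.exp (-x) < R' →
      nevT u R' x ≤ nevT u R₁ x + C * (1 + |x|) := by
  rcases le_total R₁ R' with hle | hle
  · obtain ⟨C, hC⟩ := cnt_radius h1 hle h' (locFin_neg hu)
    refine ⟨C, fun x hx _ => ?_⟩
    have h2 := (abs_le.1 (hC x hx)).2
    unfold nevT
    linarith
  · obtain ⟨C, hC⟩ := cnt_radius h1' hle h (locFin_neg hu)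
    refine ⟨C, fun x _ hx => ?_⟩
    have h2 := (abs_le.1 (hC x hx)).1
    unfold nevT
    linarith

end Pool.Agent.H62.FC

end
end
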