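import Pool.Agent.H18.GGT.M07
import Pool.Agent.H18.GGT.M08
import Pool.Agent.H18.GGT.M13
import Pool.Agent.H18.GGT.M23

/-! The parts of this file: H36.BP.MainA, H62.FC.Defs_1, H62.FC.Eval, H62.FC.Dense, H7.Bir.Map_1, H7.Bir.Open_2, H62.FC.Cartan. -/

section

/-!
# BP MainA: identity theorems for maps into projective space
-/

set_option autoImplicit false

namespace Pool.Agent.H36.BP

open Filter Topology Metric

variable {N : ℕ}

open Pool.Agent.H17 (PN HolomorphicInto puncturedDisc VanishesAt vanishesAt_mk_iff)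

theorem analyticAt_ofLp {F : ℂ → EN N} {z : ℂ} (h : AnalyticAt ℂ F z) : AnalyticAt ℂ (fun w => (F w).ofLp) z :=
  ((EuclideanSpace.equiv (Fin (N + 1)) ℂ) : EN N →L[ℂ] (Fin (N + 1) → ℂ)).analyticAt (F z) |>.comp h

/-- identity theorem for the vanishing of forms -/
theorem vanish_identity {f : ℂ → PN N} {U : Set ℂ} (hUc : IsPreconnected U) (hf : HolomorphicInto f U)
    {S : Set (MvPolynomial (Fin (N + 1)) ℂ)} (hS : ∀ P ∈ S, ∃ n, P.IsHomogeneous n) {z₀ : ℂ} (hz₀ : z₀ ∈ U)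
    (h : ∀ᶠ w in 𝓝 z₀, ∀ P ∈ S, VanishesAt P (f w)) : ∀ z ∈ U, ∀ P ∈ S, VanishesAt P (f z) := by
  set A : Set ℂ := {z | ∀ᶠ w in 𝓝 z, ∀ P ∈ S, VanishesAt P (f w)} with hA
  have hAo : IsOpen A := by
    rw [isOpen_iff_mem_nhds]
    intro z hz
    exact hz.eventually_nhds
  have hcl : closure A ∩ U ⊆ A := by
    rintro z ⟨hz1, hz2⟩
    obtain ⟨φ, hφ, he⟩ := hf z hz2
    obtain ⟨r, hr, hr1⟩ := Metric.eventually_nhds_iff_ball.mp (hφ.eventually_analyticAt.and he)
    obtain ⟨z', hz'1, hz'2⟩ := mem_closure_iff_nhds.mp hz1 (ball z r) (ball_mem_nhds z hr)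
    have hvan : ∀ P ∈ S, ∀ w ∈ ball z r, MvPolynomial.eval (φ w) P = 0 := by
      intro P hP
      obtain ⟨n, hn⟩ := hS P hP
      have han : AnalyticOnNhd ℂ (fun w => MvPolynomial.aeval (φ w) P) (ball z r) :=
        AnalyticOnNhd.aeval_mvPolynomial (fun i w hw => analyticAt_pi_iff.mp (hr1 w hw).1 i) P
      have h0 : (fun w => MvPolynomial.aeval (φ w) P) =ᶠ[𝓝 z'] 0 := by
        have hz'A : ∀ᶠ w in 𝓝 z', ∀ P ∈ S, VanishesAt P (f w) := hz'2
        filter_upwards [hz'A, isOpen_ball.mem_nhds hz'1] with w hw1 hw2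
        obtain ⟨h1, h2⟩ := (hr1 w hw2).2
        have h3 := hw1 P hP
        rw [h2, vanishesAt_mk_iff hn] at h3
        exact h3
      intro w hw
      exact han.eqOn_zero_of_preconnected_of_eventuallyEq_zero (convex_ball z r).isPreconnected hz'1 h0 hw
    show ∀ᶠ w in 𝓝 z, ∀ P ∈ S, VanishesAt P (f w)
    filter_upwards [ball_mem_nhds z hr] with w hw P hP
    obtain ⟨n, hn⟩ := hS P hP
    obtain ⟨h1, h2⟩ := (hr1 w hw).2
    rw [h2, vanishesAt_mk_iff hn]
    exact hvan P hP w hw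
  have hsub : U ⊆ A := hUc.subset_of_closure_inter_subset hAo ⟨z₀, hz₀, h⟩ hcl
  intro z hz
  have h1 : ∀ᶠ w in 𝓝 z, ∀ P ∈ S, VanishesAt P (f w) := hsub hz
  exact h1.self_of_nhds

theorem preconnected_puncturedDisc : IsPreconnected puncturedDisc := by
  have h : puncturedDisc = Complex.exp '' {z : ℂ | z.re < 0} := by
    ext z
    constructor
    · rintro ⟨h1, h2⟩
      have h3 : z ≠ 0 := h2
      refine ⟨Complex.log z, ?_, Complex.exp_log h3⟩
      rw [mem_ball_zero_iff] at h1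
      change (Complex.log z).re < 0
      rw [Complex.log_re]
      exact Real.log_neg (norm_pos_iff.mpr h3) h1
    · rintro ⟨w, hw, rfl⟩
      refine ⟨?_, Complex.exp_ne_zero w⟩
      rw [mem_ball_zero_iff, Complex.norm_exp]
      have h1 := Real.exp_lt_exp.mpr hw
      rwa [Real.exp_zero] at h1
  rw [h]
  exact (convex_halfSpace_re_lt 0).isPreconnected.image _ Complex.continuous_exp.continuousOn

end Pool.Agent.H36.BP

end

section

/-!
# Fermat covers: definitions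

Locally closed subsets of `ℙ^N` given by forms and by the condition that some homogeneous
coordinates are not zero, and the monomial curves `t ↦ (a_i t ^ (n_i))` contained in them.
-/

open MvPolynomial
open Pool.Agent.H17 (PN VanishesAt zeroLocus ZariskiClosedIn)
open Pool.Agent.H17GT (coordFun)
open Pool.Agent.H17LG.Variety (FunField ratio IsLogGeneralType)
open Pool.Agent.H23.Fano (PrimeDivisorOver)

noncomputable section

namespace Pool.Agent.H62.FC

variable {N : ℕ}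

/-- The points of the common zero locus of the forms `A l` with `x i ≠ 0` for `i ∈ O`. -/
def openLocus {κ : Type} (A : κ → MvPolynomial (Fin (N + 1)) ℂ) (O : Finset (Fin (N + 1))) :
    Set (PN N) :=
  {x | x ∈ zeroLocus A ∧ ∀ i ∈ O, x.rep i ≠ 0}

/-- The points of the zero locus of the homogeneous ideal `P` with `x i ≠ 0` for `i ∈ O`. -/
def primeLocus (P : Ideal (MvPolynomial (Fin (N + 1)) ℂ)) (O : Finset (Fin (N + 1))) :
    Set (PN N) :=
  {x | (∀ Q ∈ P, ∀ n, Q.IsHomogeneous n → VanishesAt Q x) ∧ ∀ i ∈ O, x.rep i ≠ 0}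

/-- The union of the images of the non-constant maps `t ↦ (a_i t ^ (n_i))`, `t ≠ 0`, into `X`. -/
def monomialCurves (X : Set (PN N)) : Set (PN N) :=
  {x | ∃ (a : Fin (N + 1) → ℂ) (ha : a ≠ 0) (n : Fin (N + 1) → ℤ),
    x = Projectivization.mk ℂ a ha ∧ (∃ i j, a i ≠ 0 ∧ a j ≠ 0 ∧ n i ≠ n j) ∧
    ∀ (t : ℂ) (h : (fun i => a i * t ^ n i) ≠ 0), t ≠ 0 →
      Projectivization.mk ℂ (fun i => a i * t ^ n i) h ∈ X}

/-- The exceptional set of `X`. -/
def excSet (X : Set (PN N)) : Set (PN N) := closureIn X (monomialCurves X)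

/-- The centre of the prime divisor `E` on the closed subvariety of `ℙ^N` given by `P` lies in one
of the hyperplanes `x i = 0`, `i ∈ O`. -/
def OnBoundary (P : Ideal (MvPolynomial (Fin (N + 1)) ℂ)) [P.IsPrime] (O : Finset (Fin (N + 1)))
    {w : ℕ} (E : PrimeDivisorOver (FunField P) w) : Prop :=
  ∃ j, coordFun P j ≠ 0 ∧ (∀ i, 0 ≤ E.ord (ratio P i j)) ∧ ∃ i ∈ O, 0 < E.ord (ratio P i j)

end Pool.Agent.H62.FC

end
end

section

/-!
# Evaluation along one-parameter groups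
-/

open MvPolynomial Topology Filter
open Pool.Agent.H17 (PN VanishesAt zeroLocus ZariskiClosedIn vanishesAt_mk_iff)

noncomputable section

namespace Pool.Agent.H62.FC

variable {N : ℕ} {κ : Type} {A : κ → MvPolynomial (Fin (N + 1)) ℂ} {e : κ → ℕ}
  {O : Finset (Fin (N + 1))} {P : Ideal (MvPolynomial (Fin (N + 1)) ℂ)}

/-- The condition on the coordinates does not depend on the representative. -/
lemma rep_ne_zero_iff (a : Fin (N + 1) → ℂ) (ha : a ≠ 0) (i : Fin (N + 1)) :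
    (Projectivization.mk ℂ a ha).rep i ≠ 0 ↔ a i ≠ 0 := by
  obtain ⟨c, hc, h⟩ := Pool.Agent.H17.exists_smul_rep a ha
  rw [h, Pi.smul_apply, smul_eq_mul]
  constructor
  · intro h1 h2
    exact h1 (by rw [h2, mul_zero])
  · intro h1
    exact mul_ne_zero hc h1

lemma mk_mem_primeLocus (a : Fin (N + 1) → ℂ) (ha : a ≠ 0) :
    Projectivization.mk ℂ a ha ∈ primeLocus P O ↔
      (∀ Q ∈ P, ∀ n, Q.IsHomogeneous n → eval a Q = 0) ∧ ∀ i ∈ O, a i ≠ 0 := by
  constructor
  · rintro ⟨h1, h2⟩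
    exact ⟨fun Q hQ n hn => (vanishesAt_mk_iff hn a ha).mp (h1 Q hQ n hn),
      fun i hi => (rep_ne_zero_iff a ha i).mp (h2 i hi)⟩
  · rintro ⟨h1, h2⟩
    exact ⟨fun Q hQ n hn => (vanishesAt_mk_iff hn a ha).mpr (h1 Q hQ n hn),
      fun i hi => (rep_ne_zero_iff a ha i).mpr (h2 i hi)⟩

end Pool.Agent.H62.FC

end
end

section

/-!
# The Nullstellensatz for loci with nonzero coordinates and the exceptional set
-/

noncomputable section

namespace Pool.Agent.H62.FC

open MvPolynomial Topology Filter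
open Pool.Agent.H17 (PN VanishesAt zeroLocus ZariskiClosedIn HolomorphicInto puncturedDisc vanishesAt_mk_iff)
open Pool.Agent.H17GT (coordFun)
open Pool.Agent.H17LG.Variety (FunField ratio IsLogGeneralType)
open Pool.Agent.H23.Fano (PrimeDivisorOver)

variable {N : ℕ} {κ : Type} {A : κ → MvPolynomial (Fin (N + 1)) ℂ} {e : κ → ℕ}
  {O : Finset (Fin (N + 1))} {P : Ideal (MvPolynomial (Fin (N + 1)) ℂ)}

/-! D-V -/
theorem mem_of_vanishes [P.IsPrime] (hP : Homog P) {S : Finset (Fin (N + 1))}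
    (hS : ∀ i ∈ S, X i ∉ P) (hne : ∃ i, X i ∉ P) {m : ℕ} {F : MvPolynomial (Fin (N + 1)) ℂ}
    (hF : F.IsHomogeneous m) (h : ∀ x ∈ primeLocus P S, VanishesAt F x) : F ∈ P := by
  obtain ⟨i1, hi1⟩ := hne
  have hG : F * (∏ i ∈ S, X i) * X i1 ∈ P := by
    rw [← MvPolynomial.IsPrime.vanishingIdeal_zeroLocus (K := ℂ) P,
      MvPolynomial.mem_vanishingIdeal_iff]
    intro v hv
    rw [MvPolynomial.aeval_eq_eval]
    have hv' : ∀ Q ∈ P, eval v Q = 0 := fun Q hQ => by
      have h1 := hv Q hQ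
      rwa [MvPolynomial.aeval_eq_eval] at h1
    change eval v (F * (∏ i ∈ S, X i) * X i1) = 0
    rw [map_mul, map_mul, map_prod]
    simp only [eval_X]
    by_cases hv0 : v = 0
    · rw [hv0]
      simp
    · by_cases hz : ∃ i ∈ S, v i = 0
      · obtain ⟨i, hi, hvi⟩ := hz
        rw [Finset.prod_eq_zero hi hvi]
        simp
      · push Not at hz
        have h1 : Projectivization.mk ℂ v hv0 ∈ primeLocus P S :=
          (mk_mem_primeLocus v hv0).2 ⟨fun Q hQ _ _ => hv' Q hQ, hz⟩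
        have h2 := h _ h1
        rw [vanishesAt_mk_iff hF v hv0] at h2
        rw [h2]
        simp
  have hpr : P.IsPrime := inferInstance
  rcases hpr.mem_or_mem hG with h1 | h1
  · rcases hpr.mem_or_mem h1 with h2 | h2
    · exact h2
    · exfalso
      obtain ⟨i, hi, h3⟩ := (hpr.prod_mem_iff).1 h2
      exact hS i hi h3
  · exact absurd h1 hi1

/-! D-A -/

end Pool.Agent.H62.FC

end
end

section

/-!
# Bir Map: composition of holomorphic maps with rational maps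

* `exists_comp`: the composition of a holomorphic map `f` into `ℙ^M` with the rational map given by forms `γ i` of the same degree, not all of them
  zero on `f`, is holomorphic: near every point divide the functions `γ i (φ z)` by their common zeros.
* `pn_identity`: the identity theorem for maps into projective space.
-/

set_option autoImplicit false

open Topology Filter Metric MvPolynomial

noncomputable section

namespace Pool.Agent.H7.Bir

open Pool.Agent.H17 (PN VanishesAt HolomorphicInto vanishesAt_mk_iff)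

variable {N M : ℕ}

theorem vals_smul {γ : Fin (N + 1) → MvPolynomial (Fin (M + 1)) ℂ} {D : ℕ} (hγ : ∀ i, (γ i).IsHomogeneous D)
    (c : ℂ) (x : Fin (M + 1) → ℂ) : vals γ (c • x) = c ^ D • vals γ x := by
  funext i
  exact Pool.Agent.H17BP.eval_smul_form (hγ i) c x

theorem rmap_mk {γ : Fin (N + 1) → MvPolynomial (Fin (M + 1)) ℂ} {D : ℕ} (hγ : ∀ i, (γ i).IsHomogeneous D)
    {x : Fin (M + 1) → ℂ} (hx : x ≠ 0) (h : vals γ x ≠ 0) :
    rmap γ (Projectivization.mk ℂ x hx) = Projectivization.mk ℂ (vals γ x) h := by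
  obtain ⟨a, ha⟩ := Projectivization.exists_smul_eq_mk_rep ℂ x hx
  have h1 : (Projectivization.mk ℂ x hx).rep = (a : ℂ) • x := ha.symm
  have h2 : vals γ (Projectivization.mk ℂ x hx).rep = (a : ℂ) ^ D • vals γ x := by
    rw [h1, vals_smul hγ]
  have h3 : vals γ (Projectivization.mk ℂ x hx).rep ≠ 0 := by
    rw [h2]
    exact smul_ne_zero (pow_ne_zero _ a.ne_zero) h
  unfold rmap
  rw [dif_pos h3, Projectivization.mk_eq_mk_iff']
  exact ⟨(a : ℂ) ^ D, h2.symm⟩

private theorem Map_analytic {φ : ℂ → Fin (M + 1) → ℂ} {z : ℂ} (hφ : AnalyticAt ℂ φ z)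
    (γ : Fin (N + 1) → MvPolynomial (Fin (M + 1)) ℂ) : AnalyticAt ℂ (fun w => vals γ (φ w)) z := by
  rw [analyticAt_pi_iff]
  intro i
  have h1 : AnalyticAt ℂ (fun w => MvPolynomial.aeval (φ w) (γ i)) z :=
    AnalyticAt.aeval_mvPolynomial (fun i => analyticAt_pi_iff.mp hφ i) (γ i)
  exact h1

/-- A lift of the composition near a point. -/
private theorem Map_lift {γ : Fin (N + 1) → MvPolynomial (Fin (M + 1)) ℂ} {D : ℕ} (hγ : ∀ i, (γ i).IsHomogeneous D)
    {f : ℂ → PN M} {U : Set ℂ} (hUc : IsPreconnected U) (hf : HolomorphicInto f U) {z₀ : ℂ} (hz₀ : z₀ ∈ U)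
    {i₀ : Fin (N + 1)} (h : ¬ VanishesAt (γ i₀) (f z₀)) {z : ℂ} (hz : z ∈ U) :
    ∃ ψ : ℂ → Fin (N + 1) → ℂ, AnalyticAt ℂ ψ z ∧ ψ z ≠ 0 ∧
      (∀ᶠ w in 𝓝[≠] z, ∃ h : ψ w ≠ 0, rmap γ (f w) = Projectivization.mk ℂ (ψ w) h ∧ vals γ (f w).rep ≠ 0) ∧
      (vals γ (f z).rep ≠ 0 → ∃ h : ψ z ≠ 0, rmap γ (f z) = Projectivization.mk ℂ (ψ z) h) := by
  obtain ⟨φ, hφ, he⟩ := hf z hz
  have hΨ := Map_analytic hφ γ
  -- not identically zero
  have hne : ¬ ∀ᶠ w in 𝓝 z, vals γ (φ w) = 0 := by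
    intro h0
    have h1 : ∀ᶠ w in 𝓝 z, ∀ P ∈ ({γ i₀} : Set (MvPolynomial (Fin (M + 1)) ℂ)), VanishesAt P (f w) := by
      filter_upwards [h0, he] with w h2 h3 P hP
      rw [Set.mem_singleton_iff] at hP
      subst hP
      obtain ⟨h4, h5⟩ := h3
      rw [h5, vanishesAt_mk_iff (hγ i₀)]
      exact congrFun h2 i₀
    exact h (Pool.Agent.H36.BP.vanish_identity hUc hf (S := {γ i₀}) (by
      rintro P hP
      rw [Set.mem_singleton_iff] at hP
      subst hP
      exact ⟨D, hγ i₀⟩) hz h1 z₀ hz₀ _ rfl)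
  obtain ⟨n, ψ, hψ, hψ0, hψe⟩ := (hΨ.exists_eventuallyEq_pow_smul_nonzero_iff).2 hne
  have hrep : ∀ w, (∃ h : φ w ≠ 0, f w = Projectivization.mk ℂ (φ w) h) → ∃ c : ℂ, c ≠ 0 ∧ (f w).rep = c • φ w := by
    rintro w ⟨h1, h2⟩
    obtain ⟨a, ha⟩ := Projectivization.exists_smul_eq_mk_rep ℂ (φ w) h1
    exact ⟨a, a.ne_zero, by rw [h2]; exact ha.symm⟩
  have hkey : ∀ w, (∃ h : φ w ≠ 0, f w = Projectivization.mk ℂ (φ w) h) → vals γ (φ w) = (w - z) ^ n • ψ w →
      vals γ (φ w) ≠ 0 → ∃ h : ψ w ≠ 0, rmap γ (f w) = Projectivization.mk ℂ (ψ w) h := by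
    rintro w ⟨h1, h2⟩ h3 h4
    have h5 : ψ w ≠ 0 := by
      intro h6
      rw [h6, smul_zero] at h3
      exact h4 h3
    refine ⟨h5, ?_⟩
    rw [h2, rmap_mk hγ h1 h4, Projectivization.mk_eq_mk_iff']
    exact ⟨(w - z) ^ n, h3.symm⟩
  have hrepv : ∀ w, (∃ h : φ w ≠ 0, f w = Projectivization.mk ℂ (φ w) h) → (vals γ (f w).rep ≠ 0 ↔ vals γ (φ w) ≠ 0) := by
    intro w hw
    obtain ⟨c, hc, h1⟩ := hrep w hw
    rw [h1, vals_smul hγ, smul_ne_zero_iff]
    exact ⟨fun h => h.2, fun h => ⟨pow_ne_zero _ hc, h⟩⟩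
  refine ⟨ψ, hψ, hψ0, ?_, ?_⟩
  · have h1 : ∀ᶠ w in 𝓝[≠] z, w ≠ z := self_mem_nhdsWithin
    filter_upwards [h1, he.filter_mono nhdsWithin_le_nhds, hψe.filter_mono nhdsWithin_le_nhds,
      (hψ.continuousAt.eventually_ne hψ0).filter_mono nhdsWithin_le_nhds] with w h2 h3 h4 h5
    have h6 : vals γ (φ w) ≠ 0 := by
      rw [h4]
      exact smul_ne_zero (pow_ne_zero _ (sub_ne_zero.2 h2)) h5
    obtain ⟨h7, h8⟩ := hkey w h3 h4 h6
    exact ⟨h7, h8, (hrepv w h3).2 h6⟩
  · intro h1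
    have h2 := he.self_of_nhds
    exact hkey z h2 hψe.self_of_nhds ((hrepv z h2).1 h1)

theorem exists_comp {γ : Fin (N + 1) → MvPolynomial (Fin (M + 1)) ℂ} {D : ℕ} (hγ : ∀ i, (γ i).IsHomogeneous D)
    {f : ℂ → PN M} {U : Set ℂ} (hUo : IsOpen U) (hUc : IsPreconnected U) (hf : HolomorphicInto f U) {z₀ : ℂ} (hz₀ : z₀ ∈ U)
    {i₀ : Fin (N + 1)} (h : ¬ VanishesAt (γ i₀) (f z₀)) :
    ∃ g : ℂ → PN N, HolomorphicInto g U ∧ (∀ z ∈ U, vals γ (f z).rep ≠ 0 → g z = rmap γ (f z)) ∧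
      ∀ z ∈ U, ∀ᶠ w in 𝓝[≠] z, vals γ (f w).rep ≠ 0 ∧ g w = rmap γ (f w) := by
  classical
  choose ψ hψ hψ0 hψ1 hψ2 using fun z (hz : z ∈ U) => Map_lift hγ hUc hf hz₀ h hz
  let g : ℂ → PN N := fun z => if hz : z ∈ U then Projectivization.mk ℂ (ψ z hz z) (hψ0 z hz) else rmap γ (f z)
  have hg : ∀ z ∈ U, vals γ (f z).rep ≠ 0 → g z = rmap γ (f z) := by
    intro z hz h1
    obtain ⟨h2, h3⟩ := hψ2 z hz h1
    simp only [g, dif_pos hz]
    exact h3.symm
  refine ⟨g, ?_, hg, ?_⟩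
  · intro z hz
    refine ⟨ψ z hz, hψ z hz, ?_⟩
    have h1 : ∀ᶠ w in 𝓝[≠] z, ∃ h : ψ z hz w ≠ 0, g w = Projectivization.mk ℂ (ψ z hz w) h := by
      filter_upwards [hψ1 z hz, mem_nhdsWithin_of_mem_nhds (hUo.mem_nhds hz)] with w h2 h3
      obtain ⟨h4, h5, h6⟩ := h2
      exact ⟨h4, by rw [hg w h3 h6, h5]⟩
    have h2 : ∃ h : ψ z hz z ≠ 0, g z = Projectivization.mk ℂ (ψ z hz z) h := ⟨hψ0 z hz, by simp only [g, dif_pos hz]⟩
    rw [eventually_nhdsWithin_iff] at h1
    filter_upwards [h1] with w h3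
    by_cases hw : w = z
    · rw [hw]
      exact h2
    · exact h3 hw
  · intro z hz
    filter_upwards [hψ1 z hz, mem_nhdsWithin_of_mem_nhds (hUo.mem_nhds hz)] with w h2 h3
    obtain ⟨h4, h5, h6⟩ := h2
    exact ⟨h6, hg w h3 h6⟩

/-- The identity theorem for maps into projective space. -/
theorem pn_identity {f g : ℂ → PN N} {U : Set ℂ} (hUc : IsPreconnected U) (hf : HolomorphicInto f U) (hg : HolomorphicInto g U)
    {z₀ : ℂ} (hz₀ : z₀ ∈ U) (h : ∀ᶠ z in 𝓝 z₀, f z = g z) : ∀ z ∈ U, f z = g z := by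
  set A : Set ℂ := {z | ∀ᶠ w in 𝓝 z, f w = g w} with hA
  have hAo : IsOpen A := by
    rw [isOpen_iff_mem_nhds]
    intro z hz
    exact hz.eventually_nhds
  have hcl : closure A ∩ U ⊆ A := by
    rintro z ⟨hz1, hz2⟩
    obtain ⟨φ, hφ, he⟩ := hf z hz2
    obtain ⟨χ, hχ, he'⟩ := hg z hz2
    obtain ⟨r, hr, hr1⟩ := Metric.eventually_nhds_iff_ball.mp
      ((hφ.eventually_analyticAt.and hχ.eventually_analyticAt).and (he.and he'))
    obtain ⟨z', hz'1, hz'2⟩ := mem_closure_iff_nhds.mp hz1 (ball z r) (ball_mem_nhds z hr)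
    have hz'A : ∀ᶠ w in 𝓝 z', f w = g w := hz'2
    have hprop : ∀ i j, ∀ w ∈ ball z r, φ w i * χ w j - φ w j * χ w i = 0 := by
      intro i j
      have han : AnalyticOnNhd ℂ (fun w => φ w i * χ w j - φ w j * χ w i) (ball z r) := by
        intro w hw
        have h1 := analyticAt_pi_iff.mp (hr1 w hw).1.1
        have h2 := analyticAt_pi_iff.mp (hr1 w hw).1.2
        exact ((h1 i).mul (h2 j)).sub ((h1 j).mul (h2 i))
      have h0 : (fun w => φ w i * χ w j - φ w j * χ w i) =ᶠ[𝓝 z'] 0 := by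
        filter_upwards [hz'A, isOpen_ball.mem_nhds hz'1] with w hw1 hw2
        obtain ⟨⟨h1, h2⟩, h3, h4⟩ := (hr1 w hw2).2
        rw [h2, h4, Projectivization.mk_eq_mk_iff'] at hw1
        obtain ⟨a, ha⟩ := hw1
        simp only [← ha, Pi.smul_apply, smul_eq_mul, Pi.zero_apply]
        ring
      exact han.eqOn_zero_of_preconnected_of_eventuallyEq_zero (convex_ball z r).isPreconnected hz'1 h0
    show ∀ᶠ w in 𝓝 z, f w = g w
    filter_upwards [ball_mem_nhds z hr] with w hw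
    obtain ⟨⟨h1, h2⟩, h3, h4⟩ := (hr1 w hw).2
    rw [h2, h4, Projectivization.mk_eq_mk_iff']
    obtain ⟨j, hj⟩ : ∃ j, χ w j ≠ 0 := by
      by_contra hcon
      push Not at hcon
      exact h3 (funext hcon)
    refine ⟨φ w j / χ w j, ?_⟩
    funext i
    have h5 := hprop i j w hw
    simp only [Pi.smul_apply, smul_eq_mul]
    field_simp
    linear_combination -h5
  have hAU : U ⊆ A := hUc.subset_of_closure_inter_subset hAo ⟨z₀, hz₀, h⟩ hcl
  intro z hz
  have h1 : ∀ᶠ w in 𝓝 z, f w = g w := hAU hz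
  exact h1.self_of_nhds

end Pool.Agent.H7.Bir

end
end

section

/-!
# Bir Open: the four properties for Zariski open subsets of projective varieties

`open_four`: if the closed subvariety `X` of `ℙ^N` has the properties of the conjecture with the exceptional set `Ξ`, then every nonempty Zariski
open subset `U` of `X` has them with the exceptional set `Ξ ∩ U`.  `bir_open_four`: if `X` has the properties, then every quasi-projective variety
which is birational to `X` has them.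
-/

set_option autoImplicit false

open Topology Filter MvPolynomial

noncomputable section

namespace Pool.Agent.H7.Bir

open Pool.Agent.H17 (PN VanishesAt HolomorphicInto puncturedDisc vanishesAt_mk_iff ZariskiClosedIn)
open Pool.Agent.H17GT (coordFun)
open Pool.Agent.H17LG.Variety (FunField IsLogGeneralType)
open Pool.Agent.H62.FC (Homog)
open Pool.Agent.H62.SA (locVar OnBd)

variable {N M : ℕ}

/-- A variety of general type is of log general type with respect to every boundary. -/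
theorem logGT_of_gt {K : Type} [Field K] [Algebra ℂ K] {k : ℕ}
    (h : IsLogGeneralType (K := K) (k := k) fun _ => False) (B : Pool.Agent.H23.Fano.PrimeDivisorOver K k → Prop) : IsLogGeneralType (K := K) (k := k) B := by
  obtain ⟨m, hm, ω, hω, r, f, hf, h1, h2⟩ := h
  refine ⟨m, hm, ω, hω, r, f, hf, fun i E => ⟨fun _ => (h1 i E).1 (fun h => h), fun _ => ?_⟩, h2⟩
  obtain ⟨g, η, hη, hg, ho⟩ := (h1 i E).1 (fun h => h)
  refine ⟨g, η, hη, hg, ?_⟩
  exact le_trans ho (add_le_add le_rfl (by exact_mod_cast Nat.zero_le m))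

/-- A form which vanishes on a nonempty Zariski open subset belongs to the ideal. -/
theorem mem_of_open {P : Ideal (MvPolynomial (Fin (N + 1)) ℂ)} [P.IsPrime] (hP : Homog P) {s : ℕ}
    {G : Fin s → MvPolynomial (Fin (N + 1)) ℂ} (hG : ∀ m, ∃ n, (G m).IsHomogeneous n) (hne : (locVar P G).Nonempty)
    {R : MvPolynomial (Fin (N + 1)) ℂ} {n : ℕ} (hR : R.IsHomogeneous n) (h : ∀ x ∈ locVar P G, VanishesAt R x) : R ∈ P := by
  obtain ⟨x, hx, m, hm⟩ := hne
  obtain ⟨d, hd⟩ := hG m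
  have hGm : G m ∉ P := fun h1 => hm (hx _ h1 d hd)
  have hX : ∃ i, X i ∉ P := by
    by_contra hcon
    push Not at hcon
    have h1 : ∀ i, x.rep i = 0 := by
      intro i
      have h2 := hx _ (hcon i) 1 (isHomogeneous_X ℂ i)
      unfold VanishesAt at h2
      rwa [eval_X] at h2
    exact x.rep_nonzero (funext h1)
  have h1 : R * G m ∈ P := by
    refine Pool.Agent.H62.FC.mem_of_vanishes hP (S := ∅) (fun i hi => absurd hi (Finset.notMem_empty i)) hX (hR.mul hd) ?_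
    intro y hy
    unfold VanishesAt
    rw [map_mul]
    by_cases h2 : VanishesAt (G m) y
    · rw [show eval y.rep (G m) = 0 from h2, mul_zero]
    · rw [show eval y.rep R = 0 from h y ⟨hy.1, m, h2⟩, zero_mul]
  exact ((inferInstance : P.IsPrime).mem_or_mem h1).resolve_right hGm

end Pool.Agent.H7.Bir

end
end

section

/-!
# Cartan's theorem at a puncture, for functions with orders divisible by `d`
-/

noncomputable section

namespace Pool.Agent.H62.FC

open Filter Topology MeasureTheory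
open Pool.Agent.H92.GGL (ordZ)

/-! ### Determinants -/

private theorem posLog_prod_perm {n : ℕ} (A : Matrix (Fin n) (Fin n) ℂ) (B : Fin n → Fin n → ℝ)
    (hB : ∀ i j, Real.posLog ‖A i j‖ ≤ B i j) (σ : Equiv.Perm (Fin n)) :
    Real.posLog ‖Equiv.Perm.sign σ • ∏ i, A (σ i) i‖ ≤ ∑ i, ∑ j, B i j := by
  have h1 : ‖Equiv.Perm.sign σ • ∏ i, A (σ i) i‖ = ∏ i, ‖A (σ i) i‖ := by
    rcases Int.units_eq_one_or (Equiv.Perm.sign σ) with h | h
    · rw [h, one_smul, norm_prod]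
    · rw [h, Units.neg_smul, one_smul, norm_neg, norm_prod]
  rw [h1, Finset.sum_comm]
  refine (Real.posLog_prod _ _).trans (Finset.sum_le_sum fun i _ => ?_)
  refine (hB (σ i) i).trans (Finset.single_le_sum (f := fun k => B k i) (fun k _ => ?_)
    (Finset.mem_univ (σ i)))
  exact Real.posLog_nonneg.trans (hB k i)

private theorem posLog_det_le {n : ℕ} (A : Matrix (Fin n) (Fin n) ℂ) (B : Fin n → Fin n → ℝ)
    (hB : ∀ i j, Real.posLog ‖A i j‖ ≤ B i j) :
    Real.posLog ‖A.det‖ ≤ Real.log n.factorial + (n.factorial : ℝ) * ∑ i, ∑ j, B i j := by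
  rw [Matrix.det_apply]
  refine (Real.posLog_norm_sum_le _ _).trans ?_
  have hcard : (Finset.univ : Finset (Equiv.Perm (Fin n))).card = n.factorial := by
    rw [Finset.card_univ, Fintype.card_perm, Fintype.card_fin]
  rw [hcard]
  have h2 : ∑ σ : Equiv.Perm (Fin n), Real.posLog ‖Equiv.Perm.sign σ • ∏ i, A (σ i) i‖ ≤
      ∑ _σ : Equiv.Perm (Fin n), ∑ i, ∑ j, B i j :=
    Finset.sum_le_sum fun σ _ => posLog_prod_perm A B hB σ
  rw [Finset.sum_const, hcard, nsmul_eq_mul] at h2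
  linarith

/-- The sum of the logarithmic derivatives. -/
def Cartan_Q {n : ℕ} (u : Fin n → ℂ → ℂ) (z : ℂ) : ℝ :=
  ∑ i : Fin n, ∑ j : Fin n, Real.posLog ‖iteratedDeriv i (u j) z / u j z‖

private theorem det_star {n : ℕ} {u : Fin n → ℂ → ℂ} {z : ℂ} (h0 : ∀ j, u j z ≠ 0) :
    wronsk u z = (∏ j, u j z) *
      (Matrix.of fun i j : Fin n => iteratedDeriv i (u j) z / u j z).det := by
  rw [← Matrix.det_mul_row]
  unfold wronsk
  congr 1
  ext i j
  simp only [Matrix.of_apply]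
  rw [mul_div_cancel₀ _ (h0 j)]

private theorem det_col {n : ℕ} {u : Fin n → ℂ → ℂ} {z : ℂ} (h0 : ∀ j, u j z ≠ 0)
    (hs : ∀ i : Fin n, ∑ j, iteratedDeriv i (u j) z = if (i : ℕ) = 0 then -1 else 0)
    (j₀ : Fin n) :
    wronsk u z = (∏ j, if j = j₀ then 1 else u j z) *
      (Matrix.of fun i j : Fin n => if j = j₀ then (if (i : ℕ) = 0 then (-1 : ℂ) else 0) else
        iteratedDeriv i (u j) z / u j z).det := by
  rw [← Matrix.det_mul_row]
  unfold wronsk
  have h1 := Matrix.det_updateCol_sum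
    (Matrix.of fun i j : Fin n => iteratedDeriv i (u j) z) j₀ (fun _ => 1)
  rw [one_smul] at h1
  rw [← h1]
  congr 1
  ext i j
  by_cases hj : j = j₀
  · subst hj
    rw [Matrix.updateCol_self]
    simp only [Matrix.of_apply, one_smul, if_true, one_mul]
    exact hs i
  · rw [Matrix.updateCol_ne hj]
    simp only [Matrix.of_apply, if_neg hj]
    rw [mul_div_cancel₀ _ (h0 j)]

private theorem pointwise {n : ℕ} {u : Fin n → ℂ → ℂ} {z : ℂ} (h0 : ∀ j, u j z ≠ 0)
    (hW : wronsk u z ≠ 0)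
    (hs : ∀ i : Fin n, ∑ j, iteratedDeriv i (u j) z = if (i : ℕ) = 0 then -1 else 0)
    (j₀ : Fin n) :
    Real.posLog ‖u j₀ z‖ ≤ (∑ j, Real.log ‖u j z‖) - Real.log ‖wronsk u z‖ +
      (Real.log n.factorial + (n.factorial : ℝ) * Cartan_Q u z) := by
  have hlogu : ∀ j, ‖u j z‖ ≠ 0 := fun j => norm_ne_zero_iff.2 (h0 j)
  rw [Real.posLog_apply]
  refine max_le ?_ ?_
  · have h1 := det_star h0
    have hD : (Matrix.of fun i j : Fin n => iteratedDeriv i (u j) z / u j z).det ≠ 0 := by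
      intro h
      rw [h, mul_zero] at h1
      exact hW h1
    have h2 : Real.log ‖wronsk u z‖ = (∑ j, Real.log ‖u j z‖) +
        Real.log ‖(Matrix.of fun i j : Fin n => iteratedDeriv i (u j) z / u j z).det‖ := by
      rw [h1, norm_mul, norm_prod, Real.log_mul (Finset.prod_ne_zero_iff.2 fun j _ => hlogu j)
        (norm_ne_zero_iff.2 hD), Real.log_prod fun j _ => hlogu j]
    have h3 := posLog_det_le (Matrix.of fun i j : Fin n => iteratedDeriv i (u j) z / u j z)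
      (fun i j => Real.posLog ‖iteratedDeriv i (u j) z / u j z‖) (fun i j => le_rfl)
    have h4 : Real.log ‖(Matrix.of fun i j : Fin n => iteratedDeriv i (u j) z / u j z).det‖ ≤
        Real.posLog ‖(Matrix.of fun i j : Fin n => iteratedDeriv i (u j) z / u j z).det‖ :=
      le_max_right _ _
    unfold Cartan_Q
    linarith
  · have h1 := det_col h0 hs j₀
    set N := (Matrix.of fun i j : Fin n => if j = j₀ then (if (i : ℕ) = 0 then (-1 : ℂ) else 0)
      else iteratedDeriv i (u j) z / u j z) with hN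
    have hD : N.det ≠ 0 := by
      intro h
      rw [h, mul_zero] at h1
      exact hW h1
    have hne : ∀ j ∈ (Finset.univ : Finset (Fin n)),
        ‖(if j = j₀ then (1 : ℂ) else u j z)‖ ≠ 0 := by
      intro j _
      split_ifs
      · simp
      · exact hlogu j
    have h5 : ∑ j, Real.log ‖(if j = j₀ then (1 : ℂ) else u j z)‖ =
        (∑ j, Real.log ‖u j z‖) - Real.log ‖u j₀ z‖ := by
      rw [← Finset.add_sum_erase _ _ (Finset.mem_univ j₀),
        ← Finset.add_sum_erase _ (fun j => Real.log ‖u j z‖) (Finset.mem_univ j₀)]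
      rw [if_pos rfl, norm_one, Real.log_one, zero_add, add_sub_cancel_left]
      refine Finset.sum_congr rfl fun j hj => ?_
      rw [if_neg (Finset.ne_of_mem_erase hj)]
    have h2 : Real.log ‖wronsk u z‖ = (∑ j, Real.log ‖u j z‖) - Real.log ‖u j₀ z‖ +
        Real.log ‖N.det‖ := by
      rw [h1, norm_mul, norm_prod, Real.log_mul (Finset.prod_ne_zero_iff.2 hne)
        (norm_ne_zero_iff.2 hD), Real.log_prod hne, h5]
    have h3 := posLog_det_le N
      (fun i j => Real.posLog ‖iteratedDeriv i (u j) z / u j z‖) (by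
        intro i j
        rw [hN, Matrix.of_apply]
        split_ifs
        · rw [norm_neg, norm_one, Real.posLog_one]
          exact Real.posLog_nonneg
        · rw [norm_zero, Real.posLog_zero]
          exact Real.posLog_nonneg
        · exact le_rfl)
    have h4 : Real.log ‖N.det‖ ≤ Real.posLog ‖N.det‖ := le_max_right _ _
    unfold Cartan_Q
    linarith

/-! ### Means -/

theorem circleIntegrable_sup {f g : ℂ → ℝ} {c : ℂ} {R : ℝ} (hf : CircleIntegrable f c R)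
    (hg : CircleIntegrable g c R) : CircleIntegrable (f ⊔ g) c R := by
  have h : f ⊔ g = (1 / 2 : ℝ) • (f + g + |g - f|) := by
    funext z
    simp only [Pi.sup_apply, Pi.smul_apply, Pi.add_apply, Pi.abs_apply, Pi.sub_apply, smul_eq_mul]
    rw [max_def]
    split_ifs with h1
    · rw [abs_of_nonneg (by linarith)]
      ring
    · rw [abs_of_nonpos (by linarith)]
      ring
  rw [h]
  exact ((hf.add hg).add (hg.sub hf).abs).const_smul

theorem mean_mono {f g : ℂ → ℝ} {x : ℝ} (hf : CircleIntegrable f 0 (Real.exp (-x)))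
    (hg : CircleIntegrable g 0 (Real.exp (-x)))
    (h : ∀ z ∈ Metric.sphere (0 : ℂ) |Real.exp (-x)|, ∀ᶠ ζ in 𝓝[≠] z, f ζ ≤ g ζ) :
    mean f x ≤ mean g x := by
  have h1 : g =ᶠ[codiscreteWithin (Metric.sphere (0 : ℂ) |Real.exp (-x)|)]
      fun z => max (f z) (g z) := by
    rw [Filter.EventuallyEq, Filter.Eventually, mem_codiscreteWithin_iff_forall_mem_nhdsNE]
    intro z hz
    filter_upwards [h z hz] with ζ hζ
    left
    show g ζ = max (f ζ) (g ζ)
    rw [max_eq_right hζ]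
  have h2 : mean g x = mean (fun z => max (f z) (g z)) x :=
    Real.circleAverage_congr_codiscreteWithin h1 (Real.exp_ne_zero _)
  rw [h2]
  exact Real.circleAverage_mono hf (CircleIntegrable.congr_codiscreteWithin h1 hg)
    fun z _ => le_max_left _ _

/-! ### Generic points -/

theorem generic {n : ℕ} {R₀ : ℝ} {u : Fin n → ℂ → ℂ} (hu : ∀ j, MeroPunct R₀ (u j))
    (hW : MeroPunct R₀ (wronsk u))
    (hrel : ∀ z, 0 < ‖z‖ → ‖z‖ < R₀ → ∀ᶠ ζ in 𝓝[≠] z, ∑ j, u j ζ = -1) {z : ℂ}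
    (h0 : 0 < ‖z‖) (hz : ‖z‖ < R₀) (j₀ : Fin n) :
    ∀ᶠ ζ in 𝓝[≠] z, Real.posLog ‖u j₀ ζ‖ ≤
      (∑ j, Real.log ‖u j ζ‖) - Real.log ‖wronsk u ζ‖ +
        (Real.log n.factorial + (n.factorial : ℝ) * Cartan_Q u ζ) := by
  have h1 : ∀ᶠ ζ in 𝓝[≠] z, ∀ j, u j ζ ≠ 0 :=
    Filter.eventually_all.2 fun j =>
      (meromorphicOrderAt_ne_top_iff_eventually_ne_zero ((hu j).mero z h0 hz)).1
        ((hu j).ord z h0 hz)
  have h2 : ∀ᶠ ζ in 𝓝[≠] z, wronsk u ζ ≠ 0 :=
    (meromorphicOrderAt_ne_top_iff_eventually_ne_zero (hW.mero z h0 hz)).1 (hW.ord z h0 hz)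
  have h3 : ∀ᶠ ζ in 𝓝[≠] z, ∀ j, AnalyticAt ℂ (u j) ζ :=
    Filter.eventually_all.2 fun j => ((hu j).mero z h0 hz).eventually_analyticAt
  have h4 : ∀ᶠ ζ in 𝓝[≠] z, ∀ᶠ y in 𝓝 ζ, ∑ j, u j y = -1 := by
    have := eventually_eventually_nhdsWithin.2 (hrel z h0 hz)
    filter_upwards [this, self_mem_nhdsWithin] with ζ hζ hne
    rwa [IsOpen.nhdsWithin_eq isOpen_compl_singleton hne] at hζ
  filter_upwards [h1, h2, h3, h4] with ζ a1 a2 a3 a4
  refine pointwise a1 a2 (fun i => ?_) j₀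
  have e : iteratedDeriv i (fun y => ∑ j, u j y) ζ = ∑ j, iteratedDeriv i (u j) ζ :=
    iteratedDeriv_fun_sum fun j _ => (a3 j).contDiffAt
  rw [← e]
  have h5 : (fun y => ∑ j, u j y) =ᶠ[𝓝 ζ] fun _ => -1 := a4
  rw [(h5.iteratedDeriv i).eq_of_nhds, iteratedDeriv_const]

/-! ### Counting functions -/

theorem exists_T {ι : Type*} [Finite ι] {R₀ R₁ : ℝ} (h : R₁ < R₀) {w : ι → ℂ → ℝ}
    (hw : ∀ i, LocFin R₀ (w i)) {r : ℝ} (hr : 0 < r) :
    ∃ (T : Finset ℂ) (l : ℂ → ℝ), (∀ s ∈ T, r < ‖s‖ ∧ ‖s‖ < R₁ ∧ 0 ≤ l s) ∧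
      ∀ w' : ℂ → ℝ, (∀ s, (∀ i, w i s = 0) → w' s = 0) →
        cnt w' R₁ r = ∑ s ∈ T, w' s * l s := by
  classical
  have hfin : (⋃ i, {s : ℂ | r ≤ ‖s‖ ∧ ‖s‖ ≤ R₁ ∧ w i s ≠ 0}).Finite :=
    Set.finite_iUnion fun i => hw i r R₁ hr h
  refine ⟨hfin.toFinset.filter fun s => r < ‖s‖ ∧ ‖s‖ < R₁, fun s => Real.log (‖s‖ / r),
    fun s hs => ?_, fun w' hw' => ?_⟩
  · rw [Finset.mem_filter] at hs
    refine ⟨hs.2.1, hs.2.2, Real.log_nonneg ?_⟩
    rw [le_div_iff₀ hr, one_mul]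
    exact hs.2.1.le
  · refine cnt_eq_sum (fun s h1 h2 h3 => ?_) hr
    rw [Set.Finite.mem_toFinset, Set.mem_iUnion]
    by_contra hcon
    refine h3 (hw' s fun i => ?_)
    by_contra hi
    exact hcon ⟨i, h1.le, h2.le, hi⟩

theorem linear_bound (A B x : ℝ) : |A + B * x| ≤ (|A| + |B|) * (1 + |x|) := by
  have h1 : |A + B * x| ≤ |A| + |B| * |x| := by
    rw [← abs_mul]
    exact abs_add_le A (B * x)
  have h2 : 0 ≤ |A| * |x| := mul_nonneg (abs_nonneg A) (abs_nonneg x)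
  have h3 : (|A| + |B|) * (1 + |x|) = |A| + |B| * |x| + (|B| + |A| * |x|) := by ring
  rw [h3]
  linarith [abs_nonneg B]

end Pool.Agent.H62.FC

end
end
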