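import Pool.Agent.H18.GGT.M17
import Pool.Agent.H18.GGT.M18
import Pool.Agent.H18.GGT.M20
import Pool.Agent.H18.GGT.M21
import Pool.Agent.H18.GGT.M22
import Pool.Agent.H18.GGT.M24

/-! The parts of this file: GA.BasB, GG.Kd.Prj, GQ.Defs, GB.Psi, H39.SY.ChartAt, GG.Cst, GA.Psh. -/

section

/-!
# GA BasB: the symmetric differentials and the length of a tangent vector

`theta_bd`: scale (`x` to `x_a = 1 = ‖x‖`, `v` modulo `x` to `v_a = 0`); the set of these `(x, v)` with `‖v‖ = 1` is compact, and the sum of the `|θ_k|` is continuous and positive there (`Polar` with `w = v`).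
-/

set_option autoImplicit false

open MvPolynomial Topology Filter Metric
open Pool.Agent.H13.SM (conTan cone)
open Pool.Agent.H17 (PN VanishesAt)
open Pool.Agent.H62.FC (Homog)
open Pool.Agent.GG

namespace Pool.Agent.GA

variable {N : ℕ} {P : Ideal (MvPolynomial (Fin (N + 1)) ℂ)} {J : ℕ} {m : Fin J → ℕ} {θ : ∀ k, SymSec P (m k)}

private theorem nz (hθ : Polar θ) {x v : Fin (N + 1) → ℂ} (hx : x ∈ cone P) (hv : v ∈ conTan P x)
    (h : v ∉ Submodule.span ℂ {x}) : ∃ k, (θ k).toFun x v ≠ 0 := by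
  obtain ⟨k, hk⟩ := hθ x hx v hv v hv h h
  refine ⟨k, fun h0 => hk ?_⟩
  have h1 : (fun t : ℂ => (θ k).toFun x (v + t • v)) = fun _ => 0 := by
    funext t
    have h2 : v + t • v = (1 + t) • v := by rw [add_smul, one_smul]
    rw [h2, (θ k).smul x hx v hv, h0, mul_zero]
  rw [h1, deriv_const]

/-- the normalised tangent vectors -/
private def KK (P : Ideal (MvPolynomial (Fin (N + 1)) ℂ)) (a : Fin (N + 1)) :
    Set ((Fin (N + 1) → ℂ) × (Fin (N + 1) → ℂ)) :=
  {q | (∀ Q ∈ P, eval q.1 Q = 0) ∧ (∀ Q ∈ P, ∑ i, q.2 i * eval q.1 (pderiv i Q) = 0) ∧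
    (q.1 a = 1 ∧ q.2 a = 0) ∧ ‖q.1‖ ≤ 1 ∧ ‖q.2‖ = 1}

private theorem isCompact_KK (a : Fin (N + 1)) : IsCompact (KK P a) := by
  refine IsCompact.of_isClosed_subset (isCompact_closedBall (0 : (Fin (N + 1) → ℂ) × (Fin (N + 1) → ℂ)) 1) ?_ ?_
  · have c1 : ∀ Q : MvPolynomial (Fin (N + 1)) ℂ, Continuous fun q : (Fin (N + 1) → ℂ) × (Fin (N + 1) → ℂ) => eval q.1 Q :=
      fun Q => (MvPolynomial.continuous_eval Q).comp continuous_fst
    have e : KK P a = (⋂ Q ∈ P, {q | eval q.1 Q = 0}) ∩ ((⋂ Q ∈ P, {q | ∑ i, q.2 i * eval q.1 (pderiv i Q) = 0}) ∩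
        (({q | q.1 a = 1} ∩ {q | q.2 a = 0}) ∩ ({q | ‖q.1‖ ≤ 1} ∩ {q | ‖q.2‖ = 1}))) := by
      ext q
      simp only [KK, Set.mem_ofPred_eq, Set.mem_inter_iff, Set.mem_iInter]
    rw [e]
    refine (isClosed_biInter fun Q _ => isClosed_eq (c1 Q) continuous_const).inter
      ((isClosed_biInter fun Q _ => isClosed_eq (continuous_finsetSum _ fun i _ =>
        ((continuous_apply i).comp continuous_snd).mul (c1 _)) continuous_const).inter
      (((isClosed_eq ((continuous_apply a).comp continuous_fst) continuous_const).inter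
        (isClosed_eq ((continuous_apply a).comp continuous_snd) continuous_const)).inter
      ((isClosed_le (continuous_norm.comp continuous_fst) continuous_const).inter
        (isClosed_eq (continuous_norm.comp continuous_snd) continuous_const))))
  · rintro q ⟨-, -, -, h1, h2⟩
    rw [mem_closedBall_zero_iff, Prod.norm_def]
    exact max_le h1 h2.le

/-- If `x a = 1`, `‖x‖ = 1` and `v a = 0`, then `‖v‖ ≤ wl x v`. -/
private theorem norm_le_wl {x v : Fin (N + 1) → ℂ} {a : Fin (N + 1)} (hx : ‖x‖ = 1) (hxa : x a = 1) (hva : v a = 0) : ‖v‖ ≤ wl x v := by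
  rw [wl, hx, one_pow, div_one]
  refine (pi_norm_le_iff_of_nonneg (norm_nonneg _)).2 fun b => ?_
  have h1 := norm_le_pi_norm (fun p : Fin (N + 1) × Fin (N + 1) => x p.1 * v p.2 - x p.2 * v p.1) (a, b)
  simp only [hxa, hva, one_mul, mul_zero, sub_zero] at h1
  exact h1

private theorem wl_le {x v : Fin (N + 1) → ℂ} (hx : ‖x‖ = 1) : wl x v ≤ 2 * ‖v‖ := by
  rw [wl, hx, one_pow, div_one]
  refine (pi_norm_le_iff_of_nonneg (by positivity)).2 fun p => ?_
  have h1 : ∀ i j, ‖x i * v j‖ ≤ ‖v‖ := fun i j => by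
    rw [norm_mul]
    calc ‖x i‖ * ‖v j‖ ≤ 1 * ‖v‖ := mul_le_mul ((norm_le_pi_norm x i).trans hx.le) (norm_le_pi_norm v j) (norm_nonneg _) zero_le_one
      _ = ‖v‖ := one_mul _
  calc ‖x p.1 * v p.2 - x p.2 * v p.1‖ ≤ ‖x p.1 * v p.2‖ + ‖x p.2 * v p.1‖ := norm_sub_le _ _
    _ ≤ 2 * ‖v‖ := by linarith [h1 p.1 p.2, h1 p.2 p.1]

/-- the bounds on the compact sets -/
theorem bd_one (hθ : Polar θ) (a : Fin (N + 1)) : ∃ δ > 0, ∃ C > 0, ∀ x ∈ cone P, ∀ v ∈ conTan P x,
    x a = 1 → v a = 0 → ‖x‖ ≤ 1 → ‖v‖ = 1 → (∀ k, ‖(θ k).toFun x v‖ ≤ C) ∧ δ ≤ ∑ k, ‖(θ k).toFun x v‖ := by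
  classical
  choose e A hA using fun k => (θ k).regular a
  have hKc := isCompact_KK (P := P) a
  have hin : ∀ q ∈ KK P a, q.1 ∈ cone P := by
    rintro q ⟨h1, -, ⟨h3, -⟩, -, -⟩
    exact ⟨fun h0 => by rw [h0] at h3; exact zero_ne_one h3, h1⟩
  have hval : ∀ q ∈ KK P a, ∀ k, (θ k).toFun q.1 q.2 = eval (Sum.elim q.1 q.2) (A k) := by
    intro q hq k
    have h1 := hA k q.1 (hin q hq) q.2 hq.2.1
    rw [hq.2.2.1.1, one_pow, one_mul] at h1
    exact h1
  have hcont : ∀ k, Continuous fun q : (Fin (N + 1) → ℂ) × (Fin (N + 1) → ℂ) => ‖eval (Sum.elim q.1 q.2 : Ph N → ℂ) (A k)‖ := by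
    intro k
    refine continuous_norm.comp ((MvPolynomial.continuous_eval (A k)).comp ?_)
    refine continuous_pi fun s => ?_
    rcases s with b | b
    · exact (continuous_apply b).comp continuous_fst
    · exact (continuous_apply b).comp continuous_snd
  have hsum : Continuous fun q : (Fin (N + 1) → ℂ) × (Fin (N + 1) → ℂ) => ∑ k, ‖eval (Sum.elim q.1 q.2 : Ph N → ℂ) (A k)‖ :=
    continuous_finsetSum _ fun k _ => hcont k
  have hpos : ∀ q ∈ KK P a, 0 < ∑ k, ‖eval (Sum.elim q.1 q.2 : Ph N → ℂ) (A k)‖ := by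
    intro q hq
    have hns : q.2 ∉ Submodule.span ℂ {q.1} := by
      intro h
      obtain ⟨s, hs⟩ := Submodule.mem_span_singleton.mp h
      have h1 := congrFun hs a
      rw [Pi.smul_apply, hq.2.2.1.1, hq.2.2.1.2, smul_eq_mul, mul_one] at h1
      rw [h1, zero_smul] at hs
      have h2 := hq.2.2.2.2
      rw [← hs, norm_zero] at h2
      exact zero_ne_one h2
    obtain ⟨k, hk⟩ := nz hθ (hin q hq) hq.2.1 hns
    rw [hval q hq] at hk
    exact Finset.sum_pos' (fun k _ => norm_nonneg _) ⟨k, Finset.mem_univ k, norm_pos_iff.2 hk⟩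
  obtain ⟨δ, hδ, hδ'⟩ := hKc.exists_forall_le' hsum.continuousOn hpos
  obtain ⟨C, hC⟩ := hKc.exists_bound_of_continuousOn hsum.continuousOn
  refine ⟨δ, hδ, max C 1, lt_of_lt_of_le one_pos (le_max_right _ _), ?_⟩
  intro x hx v hv hxa hva hxn hvn
  have hq : ((x, v) : (Fin (N + 1) → ℂ) × (Fin (N + 1) → ℂ)) ∈ KK P a := ⟨hx.2, hv, ⟨hxa, hva⟩, hxn, hvn⟩
  have hv1 := hval _ hq
  have h1 : (∑ k, ‖(θ k).toFun x v‖) = ∑ k, ‖eval (Sum.elim x v : Ph N → ℂ) (A k)‖ :=
    Finset.sum_congr rfl fun k _ => by rw [← hv1 k]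
  have h5 : δ ≤ ∑ k, ‖eval (Sum.elim x v : Ph N → ℂ) (A k)‖ := hδ' (x, v) hq
  have h6 : ∑ k, ‖eval (Sum.elim x v : Ph N → ℂ) (A k)‖ ≤ C := by
    have h7 := hC (x, v) hq
    rw [Real.norm_eq_abs] at h7
    exact (le_abs_self _).trans h7
  refine ⟨fun k => ?_, ?_⟩
  · calc ‖(θ k).toFun x v‖ ≤ ∑ k, ‖(θ k).toFun x v‖ := Finset.single_le_sum (f := fun k => ‖(θ k).toFun x v‖) (fun k _ => norm_nonneg _) (Finset.mem_univ k)
      _ ≤ C := by
        rw [h1]
        exact h6
      _ ≤ max C 1 := le_max_left _ _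
  · rw [h1]
    exact h5

theorem theta_bd (hP : Homog P) (hθ : Polar θ) (hm : ∀ k, 1 ≤ m k) : ∃ c > 0, ∃ C > 0, ∀ x ∈ cone P, ∀ v ∈ conTan P x,
    (∀ k, ‖(θ k).toFun x v‖ ≤ C * wl x v ^ m k) ∧ (v ∉ Submodule.span ℂ {x} → ∃ k, c * wl x v ^ m k ≤ ‖(θ k).toFun x v‖) := by
  classical
  choose δ hδ C hC hb using fun a => bd_one (P := P) hθ a
  obtain ⟨a₀, -, ha₀⟩ := Finset.exists_min_image (Finset.univ : Finset (Fin (N + 1))) δ Finset.univ_nonempty
  obtain ⟨a₁, -, ha₁⟩ := Finset.exists_max_image (Finset.univ : Finset (Fin (N + 1))) C Finset.univ_nonempty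
  have hJ : (0 : ℝ) < J + 1 := by positivity
  refine ⟨δ a₀ / ((J + 1) * 2 ^ (∑ k, m k)), by have := hδ a₀; positivity, C a₁, hC a₁, fun x hx v hv => ?_⟩
  -- the coordinate of maximal absolute value
  obtain ⟨a, ha⟩ : ∃ a, ‖x a‖ = ‖x‖ := by
    obtain ⟨a, -, ha⟩ := Finset.exists_max_image (Finset.univ : Finset (Fin (N + 1))) (fun a => ‖x a‖) Finset.univ_nonempty
    refine ⟨a, le_antisymm (norm_le_pi_norm x a) ?_⟩
    exact (pi_norm_le_iff_of_nonneg (norm_nonneg _)).2 fun b => ha b (Finset.mem_univ _)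
  have hxn : ‖x‖ ≠ 0 := norm_ne_zero_iff.2 hx.1
  have hxa : x a ≠ 0 := norm_ne_zero_iff.1 (by rw [ha]; exact hxn)
  obtain ⟨c, hc⟩ : ∃ c : ℂ, c = (x a)⁻¹ := ⟨_, rfl⟩
  have hc0 : c ≠ 0 := by rw [hc]; exact inv_ne_zero hxa
  have hcn : ‖c‖ * ‖x‖ = 1 := by rw [hc, norm_inv, ha, inv_mul_cancel₀ hxn]
  obtain ⟨x', hx'⟩ : ∃ x' : Fin (N + 1) → ℂ, x' = c • x := ⟨_, rfl⟩
  have hx'n : ‖x'‖ = 1 := by rw [hx', norm_smul, hcn]
  have hx'a : x' a = 1 := by rw [hx', Pi.smul_apply, smul_eq_mul, hc, inv_mul_cancel₀ hxa]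
  have hx'c : x' ∈ cone P := by rw [hx']; exact Pool.Agent.AD.G.cone_smulC hP hx hc0
  have hx't : x' ∈ conTan P x' := Pool.Agent.AD.G.self_mem_conTan hP hx'c
  have hcv : c • v ∈ conTan P x' := by rw [hx']; exact Pool.Agent.AD.G.conTan_smulC hP hv c
  obtain ⟨v', hv'⟩ : ∃ v' : Fin (N + 1) → ℂ, v' = c • v + (-((c • v) a)) • x' := ⟨_, rfl⟩
  have hv't : v' ∈ conTan P x' := by
    rw [hv']
    exact (conTan P x').add_mem hcv ((conTan P x').smul_mem _ hx't)
  have hv'a : v' a = 0 := by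
    rw [hv', Pi.add_apply, Pi.smul_apply (-((c • v) a)) x', hx'a, smul_eq_mul, mul_one, add_neg_cancel]
  have h1 : ∀ k, (θ k).toFun x v = (θ k).toFun x' v' := fun k => by
    rw [hv', (θ k).add_smul x' hx'c (c • v) hcv, hx', (θ k).scale x hx v hv c hc0]
  have h2 : wl x v = wl x' v' := by
    rw [hv', wl_add_smul, hx', wl_smul hc0]
  have h3 : ‖v'‖ ≤ wl x' v' := norm_le_wl hx'n hx'a hv'a
  have h4 : wl x' v' ≤ 2 * ‖v'‖ := wl_le hx'n
  by_cases h0 : v' = 0
  · have h5 : wl x v = 0 := by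
      rw [h2]
      refine le_antisymm ?_ (wl_nonneg _ _)
      rw [h0, norm_zero, mul_zero] at h4
      rw [h0]
      exact h4
    refine ⟨fun k => ?_, fun hns => ?_⟩
    · have h6 : (θ k).toFun x' v' = 0 := by
        have h7 := (θ k).smul x' hx'c v' hv't 0
        rw [zero_smul, zero_pow (by have := hm k; omega), zero_mul] at h7
        rw [h0]
        exact h7
      rw [h1, h6, norm_zero]
      exact mul_nonneg (hC a₁).le (pow_nonneg (wl_nonneg _ _) _)
    · exfalso
      apply hns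
      rw [Submodule.mem_span_singleton]
      refine ⟨(c • v) a, ?_⟩
      have h8 : c • v = ((c • v) a) • (c • x) := by
        have h9 : c • v + (-((c • v) a)) • x' = 0 := hv'.symm.trans h0
        rw [neg_smul, add_neg_eq_zero, hx'] at h9
        exact h9
      have h10 : c • v = c • (((c • v) a) • x) := by
        conv_lhs => rw [h8]
        rw [smul_comm]
      exact (smul_right_injective _ hc0 h10).symm
  · have hn0 : ‖v'‖ ≠ 0 := norm_ne_zero_iff.2 h0
    obtain ⟨u, hu⟩ : ∃ u : Fin (N + 1) → ℂ, u = ((‖v'‖⁻¹ : ℝ) : ℂ) • v' := ⟨_, rfl⟩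
    have hun : ‖u‖ = 1 := by
      rw [hu, norm_smul, Complex.norm_real, norm_inv, norm_norm, inv_mul_cancel₀ hn0]
    have hut : u ∈ conTan P x' := by
      rw [hu]
      exact (conTan P x').smul_mem _ hv't
    have hua : u a = 0 := by rw [hu, Pi.smul_apply, hv'a, smul_zero]
    have hvu : v' = ((‖v'‖ : ℝ) : ℂ) • u := by
      rw [hu, smul_smul, ← Complex.ofReal_mul, mul_inv_cancel₀ hn0, Complex.ofReal_one, one_smul]
    have hnorm : ∀ k, ‖(θ k).toFun x v‖ = ‖v'‖ ^ m k * ‖(θ k).toFun x' u‖ := fun k => by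
      rw [h1 k]
      conv_lhs => rw [hvu]
      rw [(θ k).smul x' hx'c u hut, norm_mul, norm_pow, Complex.norm_real, norm_norm]
    obtain ⟨hb1, hb2⟩ := hb a x' hx'c u hut hx'a hua hx'n.le hun
    have hw0 : 0 ≤ ‖v'‖ := norm_nonneg _
    refine ⟨fun k => ?_, fun _ => ?_⟩
    · rw [hnorm k, h2, mul_comm (C a₁)]
      exact mul_le_mul (pow_le_pow_left₀ hw0 h3 _) ((hb1 k).trans (ha₁ a (Finset.mem_univ _))) (norm_nonneg _) (pow_nonneg (wl_nonneg _ _) _)
    · obtain ⟨k, hk⟩ : ∃ k, δ a₀ / (J + 1) ≤ ‖(θ k).toFun x' u‖ := by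
        by_contra hcon
        push Not at hcon
        have h5 : ∑ k, ‖(θ k).toFun x' u‖ ≤ ∑ _k : Fin J, δ a₀ / (J + 1) := Finset.sum_le_sum fun k _ => (hcon k).le
        rw [Finset.sum_const, Finset.card_univ, Fintype.card_fin, nsmul_eq_mul] at h5
        have h6 : (J : ℝ) * (δ a₀ / (J + 1)) < δ a₀ := by
          rw [mul_div_assoc', div_lt_iff₀ hJ]
          have := hδ a₀
          nlinarith
        have h7 := ha₀ a (Finset.mem_univ _)
        linarith
      refine ⟨k, ?_⟩
      rw [hnorm k, h2]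
      have h5 : wl x' v' ^ m k ≤ 2 ^ (∑ k, m k) * ‖v'‖ ^ m k := by
        calc wl x' v' ^ m k ≤ (2 * ‖v'‖) ^ m k := pow_le_pow_left₀ (wl_nonneg _ _) h4 _
          _ = 2 ^ m k * ‖v'‖ ^ m k := mul_pow _ _ _
          _ ≤ 2 ^ (∑ k, m k) * ‖v'‖ ^ m k := by
            refine mul_le_mul_of_nonneg_right ?_ (pow_nonneg hw0 _)
            exact pow_le_pow_right₀ one_le_two (Finset.single_le_sum (f := m) (fun k _ => Nat.zero_le _) (Finset.mem_univ k))
      have h6 : 0 < (2 : ℝ) ^ (∑ k, m k) := by positivity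
      calc δ a₀ / ((J + 1) * 2 ^ (∑ k, m k)) * wl x' v' ^ m k ≤ δ a₀ / ((J + 1) * 2 ^ (∑ k, m k)) * (2 ^ (∑ k, m k) * ‖v'‖ ^ m k) :=
            mul_le_mul_of_nonneg_left h5 (by have := hδ a₀; positivity)
        _ = ‖v'‖ ^ m k * (δ a₀ / (J + 1)) := by
            field_simp
        _ ≤ ‖v'‖ ^ m k * ‖(θ k).toFun x' u‖ := mul_le_mul_of_nonneg_left hk (pow_nonneg hw0 _)

end Pool.Agent.GA

end

section

/-!
# GG Kd Prj: the affine charts of a projective variety

`ya P a` is the generic point of the chart `x_a = 1` of the variety of `P`, `wa a x` the coordinates of the point `x` in this chart, `va a x v` those of the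
tangent vector `v` at `x`.
-/

set_option autoImplicit false

open MvPolynomial
open Pool.Agent.H17LG.Variety (FunField ratio)
open Pool.Agent.H62.FC (Homog)
open Pool.Agent.H68.KR (hmz hmz_isHomogeneous exists_point coordFun_eq_zero_iff)

noncomputable section

namespace Pool.Agent.GG.Kd

variable {N : ℕ} (P : Ideal (MvPolynomial (Fin (N + 1)) ℂ)) [P.IsPrime]

/-- the generic point of the chart `x_a = 1` -/
def ya (a i : Fin (N + 1)) : FunField P := ratio P i a

section Scale

variable {B : Type} [CommRing B] [Algebra ℂ B] {m : ℕ}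

/-- scaling of a homogeneous polynomial -/
theorem aeval_scale {d : ℕ} {Q : MvPolynomial (Fin m) ℂ} (hQ : Q.IsHomogeneous d) (c : B) (y : Fin m → B) :
    aeval (fun i => c * y i) Q = c ^ d * aeval y Q := by
  rw [aeval_def, aeval_def, eval₂_eq, eval₂_eq, Finset.mul_sum]
  refine Finset.sum_congr rfl fun m hm => ?_
  have h5 : ∑ i ∈ m.support, m i = d := by
    have := hQ (mem_support_iff.1 hm)
    rw [Finsupp.weight_apply, Finsupp.sum] at this
    simpa using this
  simp only [mul_pow, Finset.prod_mul_distrib]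
  rw [Finset.prod_pow_eq_pow_sum, h5]
  ring

/-- homogenisation at a point with `X a` invertible -/
theorem aeval_hmz {l : Fin m} {n : ℕ} {G : MvPolynomial (Fin m) ℂ} (hn : G.totalDegree ≤ n) {y : Fin m → B} {u : B} (hu : y l * u = 1) :
    aeval y (hmz l n G) = y l ^ n * aeval (fun i => u * y i) G := by
  have h1 : G = ∑ d ∈ Finset.range (n + 1), homogeneousComponent d G := by
    conv_lhs => rw [← MvPolynomial.sum_homogeneousComponent G]
    apply Finset.sum_subset
    · intro d hd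
      rw [Finset.mem_range] at hd ⊢
      omega
    · intro d _ hd
      apply MvPolynomial.homogeneousComponent_eq_zero
      rw [Finset.mem_range] at hd
      omega
  have h2 : aeval (fun i => u * y i) G = ∑ d ∈ Finset.range (n + 1), u ^ d * aeval y (homogeneousComponent d G) := by
    conv_lhs => rw [h1]
    rw [map_sum]
    exact Finset.sum_congr rfl fun d _ => aeval_scale (homogeneousComponent_isHomogeneous d G) u y
  rw [h2, hmz, map_sum, Finset.mul_sum]
  refine Finset.sum_congr rfl fun d hd => ?_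
  have h4 : d ≤ n := Nat.lt_succ_iff.1 (Finset.mem_range.1 hd)
  rw [map_mul, map_pow, aeval_X]
  have h5 : y l ^ n * u ^ d = y l ^ (n - d) := by
    obtain ⟨e, rfl⟩ := Nat.exists_eq_add_of_le h4
    rw [Nat.add_sub_cancel_left, pow_add, mul_assoc, mul_comm (y l ^ e), ← mul_assoc, ← mul_pow, hu, one_pow, one_mul]
  rw [← h5]
  ring

end Scale

variable {P} {k : ℕ}

/-- the generic point of the chart -/
theorem exists_gen (hz : ∃ z : Fin (k + 1) → FunField P, IsTranscendenceBasis ℂ z) {a : Fin (N + 1)} (ha : X a ∉ P) :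
    ∃ x : Fin (N + 1) → FunField P, x a ≠ 0 ∧ IntermediateField.adjoin ℂ {y | ∃ i j, y = x i / x j} = ⊤ ∧
      (∀ (d : ℕ) (G : MvPolynomial (Fin (N + 1)) ℂ), G.IsHomogeneous d → (aeval x G = 0 ↔ G ∈ P)) ∧ ∀ i j, ratio P i j = x i / x j := by
  obtain ⟨z, hz⟩ := hz
  obtain ⟨x, -, h1, -, h2, h3, h4⟩ := exists_point P z hz
  refine ⟨x, ?_, h1, h2, fun i j => (h4 i j).symm⟩
  intro h
  rw [h3, coordFun_eq_zero_iff] at h
  exact ha h

theorem adjoin_ya (hz : ∃ z : Fin (k + 1) → FunField P, IsTranscendenceBasis ℂ z) {a : Fin (N + 1)} (ha : X a ∉ P) :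
    IntermediateField.adjoin ℂ (Set.range (ya P a)) = ⊤ := by
  obtain ⟨x, hxa, h1, -, h3⟩ := exists_gen hz ha
  rw [← top_le_iff, ← h1, IntermediateField.adjoin_le_iff]
  rintro y ⟨i, j, rfl⟩
  have hi : ∀ i, x i / x a ∈ IntermediateField.adjoin ℂ (Set.range (ya P a)) := fun i =>
    IntermediateField.subset_adjoin _ _ ⟨i, h3 i a⟩
  have e : x i / x j = (x i / x a) / (x j / x a) := by
    by_cases hj : x j = 0
    · rw [hj, zero_div, div_zero, div_zero]
    · field_simp
  rw [e]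
  exact div_mem (hi i) (hi j)

/-- the relations between the coordinates in the chart -/
theorem hmz_mem (hz : ∃ z : Fin (k + 1) → FunField P, IsTranscendenceBasis ℂ z) {a : Fin (N + 1)} (ha : X a ∉ P)
    {G : MvPolynomial (Fin (N + 1)) ℂ} {n : ℕ} (hn : G.totalDegree ≤ n) : aeval (ya P a) G = 0 ↔ hmz a n G ∈ P := by
  obtain ⟨x, hxa, -, h2, h3⟩ := exists_gen hz ha
  rw [← h2 _ _ (hmz_isHomogeneous a n G), aeval_hmz hn (mul_inv_cancel₀ hxa)]
  have e : (fun i => (x a)⁻¹ * x i) = ya P a := by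
    funext i
    rw [ya, h3, div_eq_inv_mul]
  rw [e]
  constructor
  · intro h
    rw [h, mul_zero]
  · intro h
    exact (mul_eq_zero.1 h).resolve_left (pow_ne_zero _ hxa)

theorem aeval_ya_mem (hP : Homog P) (hz : ∃ z : Fin (k + 1) → FunField P, IsTranscendenceBasis ℂ z) {a : Fin (N + 1)} (ha : X a ∉ P)
    {Q : MvPolynomial (Fin (N + 1)) ℂ} (hQ : Q ∈ P) : aeval (ya P a) Q = 0 := by
  obtain ⟨x, hxa, -, h2, h3⟩ := exists_gen hz ha
  have e : (fun i => (x a)⁻¹ * x i) = ya P a := by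
    funext i
    rw [ya, h3, div_eq_inv_mul]
  rw [← MvPolynomial.sum_homogeneousComponent Q, map_sum]
  refine Finset.sum_eq_zero fun d _ => ?_
  rw [← e, aeval_scale (homogeneousComponent_isHomogeneous d Q), (h2 d _ (homogeneousComponent_isHomogeneous d Q)).2 (hP Q hQ d), mul_zero]

section Point

variable {B : Type} [CommRing B] [Algebra ℂ B]

end Point

end Pool.Agent.GG.Kd

end
end

section

/-!
# GQ Defs: singular varieties with symmetric differentials in polar position (GG-SING)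

`X` the variety of a homogeneous prime ideal `P`, singular allowed, `θ` symmetric differentials with `Polar θ`.  `L` is a finite extension of the function field
`FunField P` with a derivation `u`; `ph P u b` is the point `(x, x')`, `x = (x_i / x_b)`, `x' = u x`, of the phase space with coordinates in `L`.  `IsSol f u`:
all `θ_k (x, x')` are constants for `u`.  The variety with the generic point `ph P u b` is invariant under the vector field of the arcs.
-/

set_option autoImplicit false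

open MvPolynomial Topology Filter Metric
open Pool.Agent.H13.SM (conTan cone)
open Pool.Agent.H17 (PN)
open Pool.Agent.H17LG.Variety (FunField ratio PoleAtMost IsLogGeneralType)
open Pool.Agent.H23.Fano (Form PrimeDivisorOver)
open Pool.Agent.GG

noncomputable section

namespace Pool.Agent.GQ

/-! ## affine varieties -/

section Affine

variable {τ : Type} {L : Type} [Field L] [Algebra ℂ L]

/-- the ideal of the affine variety with the generic point `y` -/
def rel (y : τ → L) : Ideal (MvPolynomial τ ℂ) := RingHom.ker (aeval y : MvPolynomial τ ℂ →ₐ[ℂ] L)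

theorem mem_rel {y : τ → L} {g : MvPolynomial τ ℂ} : g ∈ rel y ↔ aeval y g = 0 := RingHom.mem_ker

instance rel_prime (y : τ → L) : (rel y).IsPrime := RingHom.ker_isPrime _

/-- `w` is a zero of the ideal `I` -/
def Pt (I : Ideal (MvPolynomial τ ℂ)) (w : τ → ℂ) : Prop := ∀ g ∈ I, eval w g = 0

/-- the tangent space at `w` -/
def Tn [Fintype τ] (I : Ideal (MvPolynomial τ ℂ)) (w : τ → ℂ) : Submodule ℂ (τ → ℂ) where
  carrier := {t | ∀ g ∈ I, ∑ s, eval w (pderiv s g) * t s = 0}
  add_mem' := by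
    intro a b ha hb G hG
    simp only [Pi.add_apply, mul_add, Finset.sum_add_distrib]
    rw [ha G hG, hb G hG, add_zero]
  zero_mem' := by
    intro G _
    simp
  smul_mem' := by
    intro c a ha G hG
    have h1 : ∀ j, eval w (pderiv j G) * (c • a) j = c * (eval w (pderiv j G) * a j) := fun j => by
      simp only [Pi.smul_apply, smul_eq_mul]
      ring
    simp only [h1, ← Finset.mul_sum]
    rw [ha G hG, mul_zero]

/-- the ideal of the points of `V (I)` where the tangent space has dimension `> k` -/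
def sgl [Fintype τ] (I : Ideal (MvPolynomial τ ℂ)) (k : ℕ) : Ideal (MvPolynomial τ ℂ) where
  carrier := {g | ∀ w, Pt I w → k < Module.finrank ℂ (Tn I w) → eval w g = 0}
  add_mem' := by
    intro a b ha hb w hw hk
    rw [map_add, ha w hw hk, hb w hw hk, add_zero]
  zero_mem' := by
    intro w _ _
    exact map_zero _
  smul_mem' := by
    intro c a ha w hw hk
    rw [smul_eq_mul, map_mul, ha w hw hk, mul_zero]

end Affine

/-! ## the phase space -/

variable {N : ℕ}

/-- position and velocity of `x / x_a` -/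
def nm {A : Type} [Field A] (a : Fin (N + 1)) (p : Ph N → A) : Ph N → A :=
  Sum.elim (fun b => p (Sum.inl b) / p (Sum.inl a))
    fun b => p (Sum.inr b) / p (Sum.inl a) - p (Sum.inl b) * p (Sum.inr a) / p (Sum.inl a) ^ 2

/-- the phase space with the index set `Fin (2 N + 2)` -/
def fr {A : Type} (p : Ph N → A) (i : Fin ((N + 1) + (N + 1))) : A := p (finSumFinEquiv.symm i)

section Sol

variable (P : Ideal (MvPolynomial (Fin (N + 1)) ℂ)) [P.IsPrime] {L : Type} [Field L] [Algebra ℂ L] [Algebra (FunField P) L]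

/-- the coordinates of the generic point in the chart `x_b = 1` -/
def ph (u : Derivation ℂ L L) (b : Fin (N + 1)) : Ph N → L :=
  Sum.elim (fun i => algebraMap (FunField P) L (ratio P i b)) fun i => u (algebraMap (FunField P) L (ratio P i b))

variable {P} {J : ℕ} {m : Fin J → ℕ} {θ : ∀ k, SymSec P (m k)}

/-- `L` is algebraic over the function field, `L = ℂ (x, x')`, and the symmetric differentials are constants. -/
structure IsSol (f : Frame θ) (u : Derivation ℂ L L) : Prop where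
  alg : Algebra.IsAlgebraic (FunField P) L
  gen : ∀ b, X b ∉ P → IntermediateField.adjoin ℂ (Set.range (ph P u b)) = ⊤
  const : ∀ b, X b ∉ P → ∀ k, u (aeval (ph P u b) (f.A b k)) = 0

variable (P L)

/-- a section of `K^M (-1)` on `L`: a form `ω` and functions `h b`, with `h b ω^M` regular along all prime divisors -/
structure Sec (k M : ℕ) where
  /-- the form -/
  ω : Form L k
  ne : ω ≠ 0
  /-- the factors -/
  h : Fin (N + 1) → L
  h_ne : ∀ b, X b ∉ P → h b ≠ 0
  h_ch : ∀ a b, X a ∉ P → X b ∉ P → h b = algebraMap (FunField P) L (ratio P b a) * h a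
  pole : ∀ b, X b ∉ P → ∀ E : PrimeDivisorOver L k, PoleAtMost 0 E M (h b) ω

variable {P L}

/-- `s` is the value of the section in the chart `x_b = 1` at the point `w` of the phase space, with the tangent vectors `T`. -/
def Sec.VL {k M : ℕ} (S : Sec P L k M) (u : Derivation ℂ L L) (b : Fin (N + 1)) (w : Ph N → ℂ) (T : Fin k → Ph N → ℂ) (s : ℂ) : Prop :=
  ∃ (d : Kd.Dat (fr (ph P u b)) k) (W : L) (c : ℂ), eval (fr w) d.J ≠ 0 ∧ S.ω = Form.mk W d.t ∧
    Kd.Ev (fr (ph P u b)) (fr w) (S.h b * W ^ M) c ∧ s = c * (Matrix.of fun l j => d.tau (fr (T l)) j).det ^ M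

end Sol

/-! ## curves -/

/-- position and velocity of the curve `g` in the chart `x_a = 1` -/
def ps (g : ℂ → PN N) (a : Fin (N + 1)) (z : ℂ) : Ph N → ℂ :=
  pt (fun i => (g z).rep i / (g z).rep a) (deriv (fun w i => (g w).rep i / (g w).rep a) z)

/-- `x_a` is the largest coordinate of `g z` -/
def Gd (g : ℂ → PN N) (a : Fin (N + 1)) (z : ℂ) : Prop := ∀ b, ‖(g z).rep b‖ ≤ ‖(g z).rep a‖

/-- position and velocity of a family of curves -/
def psi {n : ℕ} (Φ : ℂ × (Fin n → ℂ) → PN N) (a : Fin (N + 1)) (p : ℂ × (Fin n → ℂ)) : Ph N → ℂ := ps (fun w => Φ (w, p.2)) a p.1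

/-- the coordinate directions -/
def dir (n : ℕ) : Fin (n + 1) → ℂ × (Fin n → ℂ) := Fin.cons (1, 0) fun i => (0, Pi.single i 1)

/-- the tangent vectors of a family of curves in the phase space, at `s = 0` -/
def tvs {n : ℕ} (Φ : ℂ × (Fin n → ℂ) → PN N) (a : Fin (N + 1)) (z : ℂ) (j : Fin (n + 1)) : Ph N → ℂ := fderiv ℂ (psi Φ a) (z, 0) (dir n j)

end Pool.Agent.GQ

end
end

section

/-!
# GB Psi: the polynomials of symmetric differentials in a frame

PROOF.  `Q_j (x) = 0` and `dQ_j (x) v = 0` at `tv Q a e` (a derivation applied to `Q_j (x_b / x_a) = 0`), `x_a = 1`, `v_a = 0`.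
`hom`: the identity `A (x, 2 v) = 2^m A (x, v)` holds at all complex tangent vectors in the chart `x_a = 1` (`Frame.hA`, `SymSec.smul`), so at the point
`tv Q a e` with values in `K[X]` (`Trf.transfer`); compare the coefficients.  `subst`: composition of `aeval`s.
`reg`: `H17R.exists_center`: a chart `c` with `E.ord (x_b / x_c) ≥ 0` for all `b`; there the coefficients of `psi f Q c i e` are values of polynomials over `ℂ` at
elements with `E.ord ≥ 0`; `psi f Q c i e = psi f Q a i e` by `Trf.transfer` for `A_a (x y, v y - v_a y^2 x) = A_c (x, v)` on `x_c = 1`, `x_a y = 1` (`SymSec.scale`, `add_smul`).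
-/

set_option autoImplicit false

open MvPolynomial
open Pool.Agent.H17LG.Variety (FunField ratio)
open Pool.Agent.H62.FC (Homog)
open Pool.Agent.H13.SM (conTan cone)
open Pool.Agent.H17GT (coordFun)
open Pool.Agent.H23.Fano (PrimeDivisorOver)

namespace Pool.Agent.GB

variable {N : ℕ} {P Q : Ideal (MvPolynomial (Fin (N + 1)) ℂ)} {J m : ℕ} {θ : Fin J → Pool.Agent.GG.SymSec P m}

/-! ## auxiliary facts -/

/-- the chain rule -/
private theorem Psi_chain {σ : Type} [Fintype σ] {K : Type} [Field K] [Algebra ℂ K] (D : Derivation ℂ K K) (y : σ → K) (p : MvPolynomial σ ℂ) :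
    D (aeval y p) = ∑ b, aeval y (pderiv b p) * D (y b) := by
  classical
  induction p using MvPolynomial.induction_on with
  | C a =>
    rw [aeval_C, D.map_algebraMap]
    refine (Finset.sum_eq_zero fun b _ => ?_).symm
    rw [pderiv_C, map_zero, zero_mul]
  | add p q hp hq =>
    rw [map_add, map_add, hp, hq, ← Finset.sum_add_distrib]
    refine Finset.sum_congr rfl fun b _ => ?_
    rw [map_add, map_add, add_mul]
  | mul_X p i hp =>
    have h : ∀ b, aeval y (pderiv b (p * X i)) * D (y b) = (if b = i then aeval y p * D (y b) else 0) + y i * (aeval y (pderiv b p) * D (y b)) := by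
      intro b
      rw [pderiv_mul, pderiv_X, map_add, map_mul, map_mul, aeval_X]
      by_cases hb : b = i
      · subst hb
        rw [if_pos rfl, Pi.single_eq_same, map_one]
        ring
      · rw [if_neg hb, Pi.single_eq_of_ne (Ne.symm hb), map_zero]
        ring
    rw [map_mul, aeval_X, D.leibniz, hp, Finset.sum_congr rfl fun b _ => h b, Finset.sum_add_distrib, Finset.sum_ite_eq' Finset.univ i,
      if_pos (Finset.mem_univ _), ← Finset.mul_sum, smul_eq_mul, smul_eq_mul]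

/-- the coefficients of the values of polynomials over `ℂ` -/
private theorem Psi_coeff {K : Type} [Field K] [Algebra ℂ K] {w d : ℕ} (E : PrimeDivisorOver K w) {σ : Type} (y : σ → MvPolynomial (Fin d) K)
    (hy : ∀ s α, 0 ≤ E.ord (coeff α (y s))) (p : MvPolynomial σ ℂ) : ∀ α, 0 ≤ E.ord (coeff α (aeval y p)) := by
  classical
  induction p using MvPolynomial.induction_on with
  | C a =>
    intro α
    rw [aeval_C, IsScalarTower.algebraMap_apply ℂ K (MvPolynomial (Fin d) K), algebraMap_eq, coeff_C]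
    split_ifs
    · exact E.ord_const a
    · rw [E.ord.map_zero]
      exact le_top
  | add p q hp hq =>
    intro α
    rw [map_add, coeff_add]
    exact (le_min (hp α) (hq α)).trans (E.ord.map_add _ _)
  | mul_X p i hp =>
    intro α
    rw [map_mul, aeval_X, coeff_mul]
    refine E.ord.map_le_sum fun β _ => ?_
    rw [E.ord.map_mul]
    exact add_nonneg (hp _) (hy _ _)

/-- the substitution `X ↦ c X` -/
private theorem Psi_scale {K : Type} [Field K] {d : ℕ} (c : K) (p : MvPolynomial (Fin d) K) (α : Fin d →₀ ℕ) :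
    coeff α (aeval (fun j => C c * X j : Fin d → MvPolynomial (Fin d) K) p) = c ^ (∑ j, α j) * coeff α p := by
  classical
  induction p using MvPolynomial.induction_on' with
  | monomial β r =>
    have h1 : aeval (fun j => C c * X j : Fin d → MvPolynomial (Fin d) K) (monomial β r) = monomial β (c ^ (∑ j, β j) * r) := by
      rw [aeval_monomial, algebraMap_eq, Finsupp.prod_fintype _ _ (fun i => pow_zero _), monomial_eq (s := β) (a := c ^ (∑ j, β j) * r),
        Finsupp.prod_fintype _ _ (fun i => pow_zero _)]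
      simp only [mul_pow, Finset.prod_mul_distrib]
      rw [Finset.prod_pow_eq_pow_sum, C_mul, C_pow]
      ring
    rw [h1, coeff_monomial, coeff_monomial]
    split_ifs with h
    · rw [h]
    · rw [mul_zero]
  | add p q hp hq => rw [map_add, coeff_add, coeff_add, hp, hq, mul_add]

private theorem Psi_hg {d : ℕ} {G : MvPolynomial (Fin (N + 1)) ℂ} (hG : G.IsHomogeneous d) (c : ℂ) (x : Fin (N + 1) → ℂ) :
    eval (c • x) G = c ^ d * eval x G := by
  rw [eval_eq', eval_eq', Finset.mul_sum]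
  refine Finset.sum_congr rfl fun m hm => ?_
  have h1 : ∏ i, (c • x) i ^ m i = c ^ d * ∏ i, x i ^ m i := by
    simp only [Pi.smul_apply, smul_eq_mul, mul_pow, Finset.prod_mul_distrib]
    rw [Finset.prod_pow_eq_pow_sum]
    have h2 := hG (mem_support_iff.1 hm)
    rw [Finsupp.weight_apply, Finsupp.sum_fintype _ _ (by simp)] at h2
    simp only [Pi.one_apply, smul_eq_mul, mul_one] at h2
    rw [h2]
  rw [h1]
  ring

private theorem Psi_conTan (hQ : Homog Q) (c : ℂ) (x : Fin (N + 1) → ℂ) : conTan Q x ≤ conTan Q (c • x) := by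
  intro v hv G hG
  have h1 : ∀ d, ∑ i, v i * eval (c • x) (pderiv i (homogeneousComponent d G)) = 0 := by
    intro d
    have h2 := hv _ (hQ G hG d)
    have h4 : ∑ i, v i * eval (c • x) (pderiv i (homogeneousComponent d G)) =
        c ^ (d - 1) * ∑ i, v i * eval x (pderiv i (homogeneousComponent d G)) := by
      rw [Finset.mul_sum]
      refine Finset.sum_congr rfl fun i _ => ?_
      rw [Psi_hg ((homogeneousComponent_isHomogeneous d G).pderiv)]
      ring
    rw [h4, h2, mul_zero]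
  have h5 : ∀ i, eval (c • x) (pderiv i G) = ∑ d ∈ Finset.range (G.totalDegree + 1),
      eval (c • x) (pderiv i (homogeneousComponent d G)) := by
    intro i
    conv_lhs => rw [← sum_homogeneousComponent G]
    rw [map_sum, map_sum]
  simp only [h5, Finset.mul_sum]
  rw [Finset.sum_comm]
  exact Finset.sum_eq_zero fun d _ => h1 d

private theorem Psi_eval {σ τ : Type} (y : τ → ℂ) (g : σ → MvPolynomial τ ℂ) (p : MvPolynomial σ ℂ) :
    eval y (aeval g p) = eval (fun s => eval y (g s)) p := by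
  induction p using MvPolynomial.induction_on with
  | C a => rw [aeval_C, algebraMap_eq, eval_C, eval_C]
  | add p q hp hq => rw [map_add, map_add, map_add, hp, hq]
  | mul_X p i hp => rw [map_mul, map_mul, map_mul, hp, aeval_X, eval_X]

private theorem Psi_cone_le (hPQ : P ≤ Q) {x : Fin (N + 1) → ℂ} (hx : x ∈ cone Q) : x ∈ cone P := ⟨hx.1, fun G hG => hx.2 G (hPQ hG)⟩

private theorem Psi_conTan_le (hPQ : P ≤ Q) {x : Fin (N + 1) → ℂ} : conTan Q x ≤ conTan P x := fun _ hv G hG => hv G (hPQ hG)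

/-! ## the equations -/

private theorem Psi_inl [Q.IsPrime] {a : Fin (N + 1)} {d : ℕ} (e : Fin d → Derivation ℂ (FunField Q) (FunField Q)) (q : MvPolynomial (Fin (N + 1)) ℂ) :
    aeval (tv Q a e) (rename Sum.inl q) = C (aeval (fun b => ratio Q b a) q) := by
  rw [aeval_rename]
  induction q using MvPolynomial.induction_on with
  | C r => rw [aeval_C, aeval_C, IsScalarTower.algebraMap_apply ℂ (FunField Q) (MvPolynomial (Fin d) (FunField Q)), algebraMap_eq]
  | add p q hp hq => rw [map_add, map_add, map_add, hp, hq]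
  | mul_X p i hp =>
    rw [map_mul, map_mul, map_mul, hp, aeval_X, aeval_X]
    rfl

private theorem Psi_zero [Q.IsPrime] (hQ : Homog Q) {a : Fin (N + 1)} (ha : X a ∉ Q) {q : MvPolynomial (Fin (N + 1)) ℂ} (hq : q ∈ Q) :
    aeval (fun b => ratio Q b a) q = 0 := by
  have hc : coordFun Q a ≠ 0 := Pool.Agent.H17R.coordFun_ne_zero_iff.2 ha
  rw [← sum_homogeneousComponent q, map_sum]
  refine Finset.sum_eq_zero fun n _ => ?_
  exact (Pool.Agent.H17R.gen_eq_zero_iff hc (homogeneousComponent_isHomogeneous n q)).2 (hQ q hq n)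

/-- the equations of the tangent bundle at the tangent vector `tv` -/
theorem tv_eqs [P.IsPrime] (f : Pool.Agent.GG.Frame (m := fun _ => m) θ) [Q.IsPrime] (hQ : Homog Q) (hPQ : P ≤ Q) {a : Fin (N + 1)} (ha : X a ∉ Q) {d : ℕ}
    (e : Fin d → Derivation ℂ (FunField Q) (FunField Q)) :
    tv Q a e (Sum.inl a) = 1 ∧ tv Q a e (Sum.inr a) = 0 ∧ (∀ q ∈ Q, aeval (tv Q a e) (rename Sum.inl q) = 0) ∧
      ∀ q ∈ Q, aeval (tv Q a e) (∑ b, rename Sum.inl (pderiv b q) * X (Sum.inr b)) = 0 := by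
  have hc : coordFun Q a ≠ 0 := Pool.Agent.H17R.coordFun_ne_zero_iff.2 ha
  have h1 : ratio Q a a = 1 := Pool.Agent.H17R.ratio_self hc
  refine ⟨?_, ?_, fun q hq => ?_, fun q hq => ?_⟩
  · show C (ratio Q a a) = _
    rw [h1, C_1]
  · show ∑ j, X j * C (e j (ratio Q a a)) = _
    rw [h1]
    refine Finset.sum_eq_zero fun j _ => ?_
    rw [(e j).map_one_eq_zero, C_0, mul_zero]
  · rw [Psi_inl, Psi_zero hQ ha hq, C_0]
  · rw [map_sum]
    have h2 : ∀ b, aeval (tv Q a e) (rename Sum.inl (pderiv b q) * X (Sum.inr b)) =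
        ∑ j, X j * C (aeval (fun b => ratio Q b a) (pderiv b q) * e j (ratio Q b a)) := by
      intro b
      rw [map_mul, Psi_inl, aeval_X]
      show C _ * ∑ j, X j * C (e j (ratio Q b a)) = _
      rw [Finset.mul_sum]
      refine Finset.sum_congr rfl fun j _ => ?_
      rw [C_mul]
      ring
    rw [Finset.sum_congr rfl fun b _ => h2 b, Finset.sum_comm]
    refine Finset.sum_eq_zero fun j _ => ?_
    rw [← Finset.mul_sum, ← map_sum, ← Psi_chain (e j) (fun b => ratio Q b a) q, Psi_zero hQ ha hq, map_zero, C_0, mul_zero]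

/-- the equations of the tangent vectors in the chart `x_c = 1` -/
private def Eqs (Q : Ideal (MvPolynomial (Fin (N + 1)) ℂ)) (c : Fin (N + 1)) : Set (MvPolynomial (Pool.Agent.GG.Ph N) ℂ) :=
  {s | s = X (Sum.inl c) - 1 ∨ (∃ q ∈ Q, s = rename Sum.inl q) ∨ ∃ q ∈ Q, s = ∑ b, rename Sum.inl (pderiv b q) * X (Sum.inr b)}

private theorem Eqs_complex {c : Fin (N + 1)} {y : Pool.Agent.GG.Ph N → ℂ} (hy : ∀ s ∈ Eqs Q c, eval y s = 0) :
    (fun b => y (Sum.inl b)) ∈ cone Q ∧ y (Sum.inl c) = 1 ∧ (fun b => y (Sum.inr b)) ∈ conTan Q fun b => y (Sum.inl b) := by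
  have h1 : y (Sum.inl c) = 1 := by
    have := hy _ (Or.inl rfl)
    rw [map_sub, eval_X, map_one] at this
    exact sub_eq_zero.1 this
  refine ⟨⟨fun h => ?_, fun q hq => ?_⟩, h1, fun q hq => ?_⟩
  · have := congrFun h c
    simp only [h1, Pi.zero_apply] at this
    exact one_ne_zero this
  · have := hy _ (Or.inr (Or.inl ⟨q, hq, rfl⟩))
    rw [eval_rename] at this
    exact this
  · have := hy _ (Or.inr (Or.inr ⟨q, hq, rfl⟩))
    rw [map_sum] at this
    rw [← this]
    refine Finset.sum_congr rfl fun b _ => ?_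
    rw [map_mul, eval_rename, eval_X, mul_comm]
    rfl

private theorem Eqs_tv [P.IsPrime] (f : Pool.Agent.GG.Frame (m := fun _ => m) θ) [Q.IsPrime] (hQ : Homog Q) (hPQ : P ≤ Q) {c : Fin (N + 1)} (hc : X c ∉ Q) {d : ℕ}
    (e : Fin d → Derivation ℂ (FunField Q) (FunField Q)) : ∀ s ∈ Eqs Q c, aeval (tv Q c e) s = 0 := by
  obtain ⟨h1, -, h2, h3⟩ := tv_eqs f hQ hPQ hc e
  rintro s (rfl | ⟨q, hq, rfl⟩ | ⟨q, hq, rfl⟩)
  · rw [map_sub, aeval_X, h1, map_one, sub_self]
  · exact h2 q hq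
  · exact h3 q hq

/-! ## homogeneity -/

private theorem Psi_hom [P.IsPrime] (f : Pool.Agent.GG.Frame (m := fun _ => m) θ) [Q.IsPrime] (hQ : Homog Q) (hPQ : P ≤ Q) {a : Fin (N + 1)} (ha : X a ∉ Q)
    {d : ℕ} (i : Fin J) (e : Fin d → Derivation ℂ (FunField Q) (FunField Q)) : (psi f Q a i e).IsHomogeneous m := by
  set g : Pool.Agent.GG.Ph N → MvPolynomial (Pool.Agent.GG.Ph N) ℂ := Sum.elim (fun b => X (Sum.inl b)) (fun b => C 2 * X (Sum.inr b)) with hg
  have key : aeval (tv Q a e) (aeval g (f.A a i) - C (2 ^ m) * f.A a i) = 0 := by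
    refine transfer (S := Eqs Q a) (fun y hy => ?_) _ (Eqs_tv f hQ hPQ ha e)
    obtain ⟨h1, h2, h3⟩ := Eqs_complex hy
    have h4 := f.hA a i _ (Psi_cone_le hPQ h1) h2 _ (Psi_conTan_le hPQ h3)
    have h5 := f.hA a i _ (Psi_cone_le hPQ h1) h2 _ ((conTan P _).smul_mem 2 (Psi_conTan_le hPQ h3))
    rw [(θ i).smul _ (Psi_cone_le hPQ h1) _ (Psi_conTan_le hPQ h3) 2, h4] at h5
    have h6 : eval y (aeval g (f.A a i)) = eval (Pool.Agent.GG.pt (fun b => y (Sum.inl b)) ((2 : ℂ) • fun b => y (Sum.inr b))) (f.A a i) := by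
      rw [Psi_eval]
      congr 2
      funext s
      cases s with
      | inl b => rw [hg, Sum.elim_inl, eval_X]; rfl
      | inr b => rw [hg, Sum.elim_inr, map_mul, eval_C, eval_X]; rfl
    have h7 : eval y (f.A a i) = eval (Pool.Agent.GG.pt (fun b => y (Sum.inl b)) fun b => y (Sum.inr b)) (f.A a i) := by
      congr 2
      funext s
      cases s <;> rfl
    rw [map_sub, map_mul, eval_C, h6, h7, ← h5, sub_self]
  have h2 : aeval (fun j => C 2 * X j : Fin d → MvPolynomial (Fin d) (FunField Q)) (psi f Q a i e) = C (2 ^ m) * psi f Q a i e := by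
    have h3 : aeval (tv Q a e) (aeval g (f.A a i)) =
        aeval (fun j => C 2 * X j : Fin d → MvPolynomial (Fin d) (FunField Q)) (psi f Q a i e) := by
      have h4 : ∀ p : MvPolynomial (Pool.Agent.GG.Ph N) ℂ, aeval (fun j => C 2 * X j : Fin d → MvPolynomial (Fin d) (FunField Q)) (aeval (tv Q a e) p) =
          aeval (fun s => aeval (fun j => C 2 * X j : Fin d → MvPolynomial (Fin d) (FunField Q)) (tv Q a e s)) p := by
        intro p
        exact DFunLike.congr_fun (comp_aeval (tv Q a e) ((aeval (fun j => C 2 * X j : Fin d → MvPolynomial (Fin d) (FunField Q))).restrictScalars ℂ)) p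
      unfold psi
      rw [h4, ← AlgHom.comp_apply, comp_aeval]
      congr 2
      funext s
      cases s with
      | inl b =>
        rw [hg, Sum.elim_inl, aeval_X]
        show C (ratio Q b a) = aeval _ (C (ratio Q b a))
        rw [aeval_C, algebraMap_eq]
      | inr b =>
        rw [hg, Sum.elim_inr, map_mul, aeval_C, aeval_X]
        show _ * ∑ j, X j * C (e j (ratio Q b a)) = aeval _ (∑ j, X j * C (e j (ratio Q b a)))
        rw [map_sum, Finset.mul_sum]
        refine Finset.sum_congr rfl fun j _ => ?_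
        rw [map_mul, aeval_X, aeval_C, algebraMap_eq, IsScalarTower.algebraMap_apply ℂ (FunField Q) (MvPolynomial (Fin d) (FunField Q)), algebraMap_eq,
          map_ofNat]
        ring
    rw [← h3]
    rw [map_sub, map_mul, sub_eq_zero] at key
    rw [key, aeval_C, IsScalarTower.algebraMap_apply ℂ (FunField Q) (MvPolynomial (Fin d) (FunField Q)), algebraMap_eq, map_pow, map_ofNat]
    rfl
  intro α hα
  have h3 := congrArg (coeff α) h2
  rw [Psi_scale, coeff_C_mul] at h3
  have h4 : (2 : FunField Q) ^ (∑ j, α j) = 2 ^ m := mul_right_cancel₀ hα h3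
  have h5 : CharZero (FunField Q) := charZero_of_injective_algebraMap (algebraMap ℂ (FunField Q)).injective
  have h6 : ∑ j, α j = m := by
    have : (2 : ℕ) ^ (∑ j, α j) = 2 ^ m := by exact_mod_cast h4
    exact Nat.pow_right_injective le_rfl this
  rw [Finsupp.weight_apply, Finsupp.sum_fintype _ _ (by simp)]
  simpa using h6

/-! ## substitutions -/

private theorem Psi_subst [Q.IsPrime] (f : Pool.Agent.GG.Frame (m := fun _ => m) θ) {a : Fin (N + 1)} {d : ℕ} (i : Fin J)
    (e : Fin d → Derivation ℂ (FunField Q) (FunField Q)) (g : Matrix (Fin d) (Fin d) (FunField Q)) :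
    psi f Q a i (fun r => ∑ s, g r s • e s) = sbs g (psi f Q a i e) := by
  have h4 : ∀ p : MvPolynomial (Pool.Agent.GG.Ph N) ℂ, sbs g (aeval (tv Q a e) p) = aeval (fun s => sbs g (tv Q a e s)) p := by
    intro p
    exact DFunLike.congr_fun (comp_aeval (tv Q a e) ((sbs g).restrictScalars ℂ)) p
  unfold psi
  rw [h4]
  congr 2
  funext s
  cases s with
  | inl b =>
    show C (ratio Q b a) = sbs g (C (ratio Q b a))
    unfold sbs
    rw [aeval_C, algebraMap_eq]
  | inr b =>
    show ∑ r, X r * C ((∑ s, g r s • e s) (ratio Q b a)) = sbs g (∑ j, X j * C (e j (ratio Q b a)))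
    unfold sbs
    have h5 : ∀ r, X r * C ((∑ s, g r s • e s) (ratio Q b a)) = ∑ s, C (g r s) * X r * C (e s (ratio Q b a)) := by
      intro r
      have h6 : (∑ s, g r s • e s) (ratio Q b a) = ∑ s, g r s * e s (ratio Q b a) := by
        rw [← Derivation.coeFnAddMonoidHom_apply, map_sum, Finset.sum_apply]
        rfl
      rw [h6, map_sum, Finset.mul_sum]
      refine Finset.sum_congr rfl fun s _ => ?_
      rw [C_mul]
      ring
    rw [Finset.sum_congr rfl fun r _ => h5 r, Finset.sum_comm, map_sum]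
    refine Finset.sum_congr rfl fun j _ => ?_
    rw [map_mul, aeval_X, aeval_C, algebraMap_eq, Finset.sum_mul]

/-! ## change of the chart -/

private theorem Psi_change [P.IsPrime] (f : Pool.Agent.GG.Frame (m := fun _ => m) θ) [Q.IsPrime] (hQ : Homog Q) (hPQ : P ≤ Q) {a c : Fin (N + 1)}
    (ha : X a ∉ Q) (hc : X c ∉ Q) {d : ℕ} (i : Fin J) (e : Fin d → Derivation ℂ (FunField Q) (FunField Q)) : psi f Q a i e = psi f Q c i e := by
  set g : Pool.Agent.GG.Ph N → MvPolynomial (Pool.Agent.GG.Ph N ⊕ Unit) ℂ := Sum.elim (fun b => X (Sum.inr ()) * X (Sum.inl (Sum.inl b)))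
    (fun b => X (Sum.inr ()) * X (Sum.inl (Sum.inr b)) + -(X (Sum.inr ()) * X (Sum.inl (Sum.inr a))) * (X (Sum.inr ()) * X (Sum.inl (Sum.inl b)))) with hg
  have hca : coordFun Q a ≠ 0 := Pool.Agent.H17R.coordFun_ne_zero_iff.2 ha
  have hcc : coordFun Q c ≠ 0 := Pool.Agent.H17R.coordFun_ne_zero_iff.2 hc
  have hra : ∀ b, ratio Q b a = ratio Q c a * ratio Q b c := by
    intro b
    apply Subtype.ext
    change coordFun Q b / coordFun Q a = coordFun Q c / coordFun Q a * (coordFun Q b / coordFun Q c)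
    rw [div_mul_div_comm, mul_comm (coordFun Q c) (coordFun Q b), mul_div_mul_right _ _ hcc]
  have hrr : ratio Q c a * ratio Q a c = 1 := by rw [← hra a, Pool.Agent.H17R.ratio_self hca]
  set Y : Pool.Agent.GG.Ph N ⊕ Unit → MvPolynomial (Fin d) (FunField Q) := Sum.elim (tv Q c e) (fun _ => C (ratio Q c a)) with hY
  have key : aeval Y (rename Sum.inl (f.A c i) - aeval g (f.A a i)) = 0 := by
    refine transfer (S := {s | s = X (Sum.inr ()) * X (Sum.inl (Sum.inl a)) - 1 ∨ ∃ t ∈ Eqs Q c, s = rename Sum.inl t}) (fun y hy => ?_) _ ?_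
    · have hy1 : ∀ s ∈ Eqs Q c, eval (fun s => y (Sum.inl s)) s = 0 := by
        intro s hs
        have := hy _ (Or.inr ⟨s, hs, rfl⟩)
        rw [eval_rename] at this
        exact this
      obtain ⟨h1, h2, h3⟩ := Eqs_complex hy1
      have h0 : y (Sum.inr ()) * y (Sum.inl (Sum.inl a)) = 1 := by
        have := hy _ (Or.inl rfl)
        rw [map_sub, map_mul, eval_X, eval_X, map_one] at this
        exact sub_eq_zero.1 this
      obtain ⟨t, ht⟩ : ∃ t : ℂ, t = y (Sum.inr ()) := ⟨_, rfl⟩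
      obtain ⟨x, hx⟩ : ∃ x : Fin (N + 1) → ℂ, x = fun b => y (Sum.inl (Sum.inl b)) := ⟨_, rfl⟩
      obtain ⟨v, hv⟩ : ∃ v : Fin (N + 1) → ℂ, v = fun b => y (Sum.inl (Sum.inr b)) := ⟨_, rfl⟩
      have h1' : x ∈ cone Q := by rw [hx]; exact h1
      have h2' : x c = 1 := by rw [hx]; exact h2
      have h3' : v ∈ conTan Q x := by rw [hx, hv]; exact h3
      have h0' : t * x a = 1 := by rw [hx, ht]; exact h0
      have ht0 : t ≠ 0 := left_ne_zero_of_mul_eq_one h0'
      have hx' : t • x ∈ cone Q := ⟨smul_ne_zero ht0 h1'.1, Pool.Agent.H13.SM.cone_smul hQ h1'.2 t⟩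
      have hv' : t • v ∈ conTan Q (t • x) := (conTan Q _).smul_mem t (Psi_conTan hQ t x h3')
      have hxx : t • x ∈ conTan Q (t • x) := fun _ h => Pool.Agent.H13.SM.euler hQ hx'.2 h
      have hw' : t • v + (-(t * v a)) • (t • x) ∈ conTan Q (t • x) := (conTan Q _).add_mem hv' ((conTan Q _).smul_mem _ hxx)
      have e1 : (θ i).toFun (t • x) (t • v + (-(t * v a)) • (t • x)) = (θ i).toFun x v := by
        rw [(θ i).add_smul _ (Psi_cone_le hPQ hx') _ (Psi_conTan_le hPQ hv'),
          (θ i).scale _ (Psi_cone_le hPQ h1') _ (Psi_conTan_le hPQ h3') _ ht0]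
      have e2 := f.hA a i _ (Psi_cone_le hPQ hx') (by rw [Pi.smul_apply, smul_eq_mul]; exact h0') _ (Psi_conTan_le hPQ hw')
      have e3 := f.hA c i _ (Psi_cone_le hPQ h1') h2' _ (Psi_conTan_le hPQ h3')
      have h6 : eval y (aeval g (f.A a i)) = eval (Pool.Agent.GG.pt (t • x) (t • v + (-(t * v a)) • (t • x))) (f.A a i) := by
        rw [Psi_eval]
        congr 2
        funext s
        cases s with
        | inl b =>
          rw [hg, Sum.elim_inl, map_mul, eval_X, eval_X, ht, hx]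
          rfl
        | inr b =>
          rw [hg, Sum.elim_inr, map_add, map_mul, map_mul, map_neg, map_mul, map_mul, eval_X, eval_X, eval_X, eval_X, ht, hx, hv]
          rfl
      have h7 : eval y (rename Sum.inl (f.A c i)) = eval (Pool.Agent.GG.pt x v) (f.A c i) := by
        rw [eval_rename]
        congr 2
        funext s
        cases s with
        | inl b => rw [hx]; rfl
        | inr b => rw [hv]; rfl
      rw [map_sub, h6, h7, ← e2, ← e3, e1, sub_self]
    · rintro s (rfl | ⟨t, ht, rfl⟩)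
      · rw [map_sub, map_mul, aeval_X, aeval_X, map_one]
        show C (ratio Q c a) * C (ratio Q a c) - 1 = 0
        rw [← C_mul, hrr, C_1, sub_self]
      · rw [aeval_rename]
        exact Eqs_tv f hQ hPQ hc e t ht
  rw [map_sub, sub_eq_zero, aeval_rename] at key
  have h1 : psi f Q c i e = aeval (Y ∘ Sum.inl) (f.A c i) := rfl
  rw [h1, key, ← AlgHom.comp_apply, comp_aeval]
  unfold psi
  congr 2
  funext s
  cases s with
  | inl b =>
    rw [hg, Sum.elim_inl, map_mul, aeval_X, aeval_X]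
    show C (ratio Q b a) = C (ratio Q c a) * C (ratio Q b c)
    rw [← C_mul, ← hra]
  | inr b =>
    rw [hg, Sum.elim_inr, map_add, map_mul, map_mul, map_neg, map_mul, map_mul, aeval_X, aeval_X, aeval_X, aeval_X]
    show ∑ j, X j * C (e j (ratio Q b a)) = C (ratio Q c a) * (∑ j, X j * C (e j (ratio Q b c))) +
      -(C (ratio Q c a) * ∑ j, X j * C (e j (ratio Q a c))) * (C (ratio Q c a) * C (ratio Q b c))
    have h2 : ∀ j, e j (ratio Q b a) = ratio Q c a * e j (ratio Q b c) + -(ratio Q c a * e j (ratio Q a c)) * (ratio Q c a * ratio Q b c) := by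
      intro j
      have h3 := (e j).leibniz (ratio Q c a) (ratio Q b c)
      have h4 := (e j).leibniz (ratio Q c a) (ratio Q a c)
      rw [hrr, (e j).map_one_eq_zero, smul_eq_mul, smul_eq_mul] at h4
      rw [← hra b, smul_eq_mul, smul_eq_mul] at h3
      have h5 : e j (ratio Q c a) = -(ratio Q c a * e j (ratio Q a c)) * ratio Q c a := by
        linear_combination -ratio Q c a * h4 + (-e j (ratio Q c a)) * hrr
      rw [h3, h5]
      ring
    rw [Finset.mul_sum, Finset.mul_sum, ← Finset.sum_neg_distrib, Finset.sum_mul, ← Finset.sum_add_distrib]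
    refine Finset.sum_congr rfl fun j _ => ?_
    rw [h2 j, C_add, C_mul, C_mul, C_neg, C_mul, C_mul]
    ring

private theorem Psi_reg [P.IsPrime] (f : Pool.Agent.GG.Frame (m := fun _ => m) θ) [Q.IsPrime] (hQ : Homog Q) (hPQ : P ≤ Q) {a : Fin (N + 1)}
    (ha : X a ∉ Q) {k d : ℕ} (i : Fin J) (e : Fin d → Derivation ℂ (FunField Q) (FunField Q)) (E : PrimeDivisorOver (FunField Q) k)
    (he : ∀ j f, 0 ≤ E.ord f → 0 ≤ E.ord (e j f)) : ∀ α, 0 ≤ E.ord (coeff α (psi f Q a i e)) := by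
  classical
  obtain ⟨c, hc, h⟩ := Pool.Agent.H17R.exists_center E (Pool.Agent.H17R.coordFun_ne_zero_iff.2 ha)
  rw [Psi_change f hQ hPQ ha (Pool.Agent.H17R.coordFun_ne_zero_iff.1 hc) i e]
  refine Psi_coeff E _ (fun s α => ?_) _
  cases s with
  | inl b =>
    show 0 ≤ E.ord (coeff α (C (ratio Q b c)))
    rw [coeff_C]
    split_ifs
    · exact h b
    · rw [E.ord.map_zero]
      exact le_top
  | inr b =>
    show 0 ≤ E.ord (coeff α (∑ j, X j * C (e j (ratio Q b c))))
    rw [coeff_sum]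
    refine E.ord.map_le_sum fun j _ => ?_
    rw [mul_comm, coeff_C_mul, coeff_X]
    split_ifs
    · rw [mul_one]
      exact he j _ (h b)
    · rw [mul_zero, E.ord.map_zero]
      exact le_top

theorem exists_psiFam [P.IsPrime] (f : Pool.Agent.GG.Frame (m := fun _ => m) θ) [Q.IsPrime] (hQ : Homog Q) (hPQ : P ≤ Q) {a : Fin (N + 1)} (ha : X a ∉ Q)
    (k d : ℕ) : ∃ Ψ : SymFam (FunField Q) k d m (Fin J), ∀ i e, Ψ.fn i e = psi f Q a i e :=
  ⟨{ fn := fun i e => psi f Q a i e
     hom := fun i e => Psi_hom f hQ hPQ ha i e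
     subst := fun i e g => Psi_subst f i e g
     reg := fun i e E he => Psi_reg f hQ hPQ ha i e E he }, fun _ _ => rfl⟩

end Pool.Agent.GB

end

section

/-!
# Project SY, module ChartAt: charts at smooth points

The proof of `Pool.Agent.H13.SM.exists_coneChart`, with the hypothesis on the tangent space only at
the given point.
-/

open MvPolynomial Topology
open Pool.Agent.H17GT (coordFun)
open Pool.Agent.H5.DG (Homog)
open Pool.Agent.H13.SM (conTan)

noncomputable section

namespace Pool.Agent.H39.SY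

variable {N : ℕ} {P : Ideal (MvPolynomial (Fin (N + 1)) ℂ)}

private theorem ChartAt_eval_smul {Q : MvPolynomial (Fin (N + 1)) ℂ} {d : ℕ} (hQ : Q.IsHomogeneous d)
    (c : ℂ) (y : Fin (N + 1) → ℂ) : eval (c • y) Q = c ^ d * eval y Q := by
  have h1 := Pool.Agent.H92.GT.Proj.aeval_scale hQ (c := c) (x := y)
  have h2 : ∀ z : Fin (N + 1) → ℂ, aeval z Q = eval z Q := fun z => by
    rw [MvPolynomial.aeval_eq_eval]
  rw [h2, h2] at h1
  exact h1

private theorem ChartAt_le (hP : Homog P) {c : ℂ} (hc : c ≠ 0) (x : Fin (N + 1) → ℂ) :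
    conTan P x ≤ conTan P (c • x) := by
  intro v hv Q hQ
  have h1 : ∀ d, ∑ i, v i * eval (c • x) (pderiv i (homogeneousComponent d Q)) = 0 := by
    intro d
    have h2 := hv _ (hP Q hQ d)
    have h3 : ∀ i, eval (c • x) (pderiv i (homogeneousComponent d Q)) =
        c ^ (d - 1) * eval x (pderiv i (homogeneousComponent d Q)) := fun i =>
      ChartAt_eval_smul ((homogeneousComponent_isHomogeneous d Q).pderiv) c x
    have h4 : ∑ i, v i * eval (c • x) (pderiv i (homogeneousComponent d Q)) =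
        c ^ (d - 1) * ∑ i, v i * eval x (pderiv i (homogeneousComponent d Q)) := by
      rw [Finset.mul_sum]
      refine Finset.sum_congr rfl fun i _ => ?_
      rw [h3]
      ring
    rw [h4, h2, mul_zero]
  have h5 : ∀ i, eval (c • x) (pderiv i Q) = ∑ d ∈ Finset.range (Q.totalDegree + 1),
      eval (c • x) (pderiv i (homogeneousComponent d Q)) := by
    intro i
    conv_lhs => rw [← sum_homogeneousComponent Q]
    rw [map_sum, map_sum]
  simp only [h5, Finset.mul_sum]
  rw [Finset.sum_comm]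
  exact Finset.sum_eq_zero fun d _ => h1 d

theorem conTan_smul (hP : Homog P) {c : ℂ} (hc : c ≠ 0) (x : Fin (N + 1) → ℂ) :
    conTan P (c • x) = conTan P x := by
  refine le_antisymm ?_ (ChartAt_le hP hc x)
  have h1 := ChartAt_le hP (inv_ne_zero hc) (c • x)
  rwa [inv_smul_smul₀ hc] at h1

end Pool.Agent.H39.SY

end
end

section

/-!
# GG Cst: symmetric differentials are constant along the entire curves of order two

`bound`: in the chart `x_i = 1`, `i` = a coordinate of the largest modulus, `θ (x, v) = A_i (x', v'')` with `x' = x / x_i`, `v'' = v / x_i - (v_i / x_i) x'`,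
`‖v''‖ ≤ wl x v`.  So `|θ (F, F')| ≤ C fs (F, F')^m`, and `θ (F, F')` is entire: constant (`H15/V/Liou`).
-/

set_option autoImplicit false

open MvPolynomial Topology Filter Metric
open Pool.Agent.H13.SM (conTan cone)
open Pool.Agent.H17 (PN VanishesAt HolomorphicInto)
open Pool.Agent.H62.FC (Homog)
open Pool.Agent.H36.BP (EN fs wd)

noncomputable section

namespace Pool.Agent.GG

variable {N : ℕ} {P : Ideal (MvPolynomial (Fin (N + 1)) ℂ)}

/-- a coordinate of the largest modulus -/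
theorem cst_max_coord (x : Fin (N + 1) → ℂ) : ∃ i, ‖x i‖ = ‖x‖ := by
  obtain ⟨i, -, hi⟩ := Finset.exists_max_image (Finset.univ : Finset (Fin (N + 1))) (fun i => ‖x i‖) ⟨0, Finset.mem_univ _⟩
  refine ⟨i, le_antisymm (norm_le_pi_norm x i) ?_⟩
  exact (pi_norm_le_iff_of_nonneg (norm_nonneg _)).2 fun j => hi j (Finset.mem_univ _)

/-- the normalised vector in the chart `x_i = 1` -/
def cst_nv (x v : Fin (N + 1) → ℂ) (i : Fin (N + 1)) : Fin (N + 1) → ℂ := (x i)⁻¹ • v + (-((x i)⁻¹ * (v i))) • ((x i)⁻¹ • x)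

theorem cst_nv_norm {x v : Fin (N + 1) → ℂ} {i : Fin (N + 1)} (hx : x ≠ 0) (hi : ‖x i‖ = ‖x‖) : ‖cst_nv x v i‖ ≤ wl x v := by
  have hx0 : x i ≠ 0 := norm_ne_zero_iff.1 (by rw [hi]; exact norm_ne_zero_iff.2 hx)
  unfold wl
  refine (pi_norm_le_iff_of_nonneg (by positivity)).2 fun j => ?_
  have h1 : cst_nv x v i j = (x i * v j - x j * v i) / (x i) ^ 2 := by
    simp only [cst_nv, Pi.add_apply, Pi.smul_apply, smul_eq_mul]
    field_simp
    ring
  rw [h1, norm_div, norm_pow, hi]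
  gcongr
  exact norm_le_pi_norm (fun p : Fin (N + 1) × Fin (N + 1) => x p.1 * v p.2 - x p.2 * v p.1) (i, j)

namespace SymSec

variable {m : ℕ} (θ : SymSec P m)

/-- the value in the chart `x_i = 1` -/
theorem cst_val (hP : Homog P) {x v : Fin (N + 1) → ℂ} (hx : x ∈ cone P) (hv : v ∈ conTan P x) {i : Fin (N + 1)} (hi : x i ≠ 0) :
    θ.toFun x v = θ.toFun ((x i)⁻¹ • x) (cst_nv x v i) := by
  have hi' : (x i)⁻¹ ≠ 0 := inv_ne_zero hi
  have hx' : (x i)⁻¹ • x ∈ cone P := Pool.Agent.AD.G.cone_smulC hP hx hi'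
  have hv' : (x i)⁻¹ • v ∈ conTan P ((x i)⁻¹ • x) := by
    rw [Pool.Agent.H39.SY.conTan_smul hP hi']
    exact (conTan P x).smul_mem _ hv
  unfold cst_nv
  rw [θ.add_smul _ hx' _ hv' _, θ.scale x hx v hv _ hi']

theorem cst_nv_mem (hP : Homog P) {x v : Fin (N + 1) → ℂ} (hx : x ∈ cone P) (hv : v ∈ conTan P x) {i : Fin (N + 1)} (hi : x i ≠ 0) :
    cst_nv x v i ∈ conTan P ((x i)⁻¹ • x) := by
  have hi' : (x i)⁻¹ ≠ 0 := inv_ne_zero hi
  have hx' : (x i)⁻¹ • x ∈ cone P := Pool.Agent.AD.G.cone_smulC hP hx hi'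
  refine (conTan P _).add_mem ?_ ((conTan P _).smul_mem _ (Pool.Agent.AD.G.self_mem_conTan hP hx'))
  rw [Pool.Agent.H39.SY.conTan_smul hP hi']
  exact (conTan P x).smul_mem _ hv

end SymSec

/-- the two lengths -/
theorem cst_wl_le_fs (x v : Fin (N + 1) → ℂ) (hx : x ≠ 0) :
    wl x v ≤ 2 * (N + 1) * fs (WithLp.toLp 2 x : EN N) (WithLp.toLp 2 v) := by
  obtain ⟨X, hX⟩ : ∃ X : EN N, X = WithLp.toLp 2 x := ⟨_, rfl⟩
  obtain ⟨V, hV⟩ : ∃ V : EN N, V = WithLp.toLp 2 v := ⟨_, rfl⟩
  have hX0 : X ≠ 0 := by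
    rw [hX]
    intro h
    exact hx (WithLp.toLp_injective 2 h)
  have hXn : 0 < ‖X‖ := norm_pos_iff.2 hX0
  -- the component of `v` orthogonal to `x`
  obtain ⟨a, ha⟩ : ∃ a : ℂ, a = inner ℂ X V / ((‖X‖ : ℂ) ^ 2) := ⟨_, rfl⟩
  obtain ⟨w, hw⟩ : ∃ w : EN N, w = V + (-a) • X := ⟨_, rfl⟩
  have hXX : (inner ℂ X X : ℂ) = (‖X‖ : ℂ) ^ 2 := inner_self_eq_norm_sq_to_K X
  have hXc : ((‖X‖ : ℂ) ^ 2) ≠ 0 := by
    have : (‖X‖ : ℂ) ≠ 0 := by exact_mod_cast hXn.ne'
    positivity
  have hort : inner ℂ X w = (0 : ℂ) := by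
    rw [hw, inner_add_right, inner_smul_right, hXX, ha, neg_mul, div_mul_cancel₀ _ hXc]
    ring
  have hwd : wd X V = ‖X‖ * ‖w‖ := by
    have h1 := Pool.Agent.H36.BP.wd_inv X V 1 (-a)
    rw [one_smul, one_smul, ← hw, norm_one, one_pow, one_mul] at h1
    have h2 := Pool.Agent.H36.BP.wd_sq X w
    rw [hort, norm_zero] at h2
    have h3 : wd X w ^ 2 = (‖X‖ * ‖w‖) ^ 2 := by rw [h2]; ring
    rw [← h1]
    exact (pow_left_inj₀ (Pool.Agent.H36.BP.wd_nonneg _ _) (by positivity) two_ne_zero).1 h3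
  have hcoord : ∀ (Y : EN N) (i : Fin (N + 1)), ‖Y i‖ ≤ ‖Y‖ := fun Y i => PiLp.norm_apply_le Y i
  have hnum : ‖fun p : Fin (N + 1) × Fin (N + 1) => x p.1 * v p.2 - x p.2 * v p.1‖ ≤ 2 * wd X V := by
    refine (pi_norm_le_iff_of_nonneg (by have := Pool.Agent.H36.BP.wd_nonneg X V; positivity)).2 fun p => ?_
    have e1 : x p.1 * v p.2 - x p.2 * v p.1 = X p.1 * w p.2 - X p.2 * w p.1 := by
      rw [hw, hX, hV]
      simp only [PiLp.add_apply, PiLp.smul_apply, smul_eq_mul]
      ring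
    rw [e1, hwd]
    calc ‖X p.1 * w p.2 - X p.2 * w p.1‖ ≤ ‖X p.1 * w p.2‖ + ‖X p.2 * w p.1‖ := norm_sub_le _ _
      _ ≤ ‖X‖ * ‖w‖ + ‖X‖ * ‖w‖ := by
        rw [norm_mul, norm_mul]
        gcongr <;> exact hcoord _ _
      _ = 2 * (‖X‖ * ‖w‖) := by ring
  have hden : ‖X‖ ^ 2 ≤ (N + 1) * ‖x‖ ^ 2 := by
    rw [EuclideanSpace.norm_sq_eq]
    calc ∑ i, ‖X i‖ ^ 2 ≤ ∑ _i : Fin (N + 1), ‖x‖ ^ 2 := by
          refine Finset.sum_le_sum fun i _ => pow_le_pow_left₀ (norm_nonneg _) ?_ 2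
          rw [hX]
          exact norm_le_pi_norm x i
      _ = (N + 1) * ‖x‖ ^ 2 := by simp
  have hxn : 0 < ‖x‖ := norm_pos_iff.2 hx
  rw [← hX, ← hV]
  unfold wl fs
  have hwdn := Pool.Agent.H36.BP.wd_nonneg X V
  rw [div_le_iff₀ (by positivity), mul_div_assoc', div_mul_eq_mul_div, le_div_iff₀ (by positivity)]
  calc ‖fun p : Fin (N + 1) × Fin (N + 1) => x p.1 * v p.2 - x p.2 * v p.1‖ * ‖X‖ ^ 2 ≤ (2 * wd X V) * ((N + 1) * ‖x‖ ^ 2) := by
        gcongr
    _ = 2 * (N + 1) * wd X V * ‖x‖ ^ 2 := by ring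

/-- the derivative of a curve in the cone is tangent to it -/
theorem cst_deriv_mem {F : ℂ → Fin (N + 1) → ℂ} {z : ℂ} (hF : DifferentiableAt ℂ F z) (h : ∀ᶠ w in 𝓝 z, F w ∈ cone P) :
    deriv F z ∈ conTan P (F z) := by
  intro Q hQ
  have h3 := (Pool.Agent.H13.SM.Inv_hasFDerivAt_eval Q (F z)).comp_hasDerivAt z hF.hasDerivAt
  have h4 : HasDerivAt ((fun y : Fin (N + 1) → ℂ => eval y Q) ∘ F) 0 z := by
    refine (hasDerivAt_const z (0 : ℂ)).congr_of_eventuallyEq ?_
    filter_upwards [h] with w hw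
    exact hw.2 Q hQ
  have h5 := h3.unique h4
  simp only [sum_apply, FunLike.coe_smul, Pi.smul_apply, ContinuousLinearMap.proj_apply, smul_eq_mul] at h5
  rw [← h5]
  exact Finset.sum_congr rfl fun i _ => mul_comm _ _

/-- symmetric differentials are holomorphic along curves -/
theorem SymSec.analyticAt_curve {m : ℕ} (θ : SymSec P m) {F : ℂ → Fin (N + 1) → ℂ} {z : ℂ} (hF : AnalyticAt ℂ F z)
    (h : ∀ᶠ w in 𝓝 z, F w ∈ cone P) : AnalyticAt ℂ (fun w => θ.toFun (F w) (deriv F w)) z := by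
  have h0 : F z ≠ 0 := h.self_of_nhds.1
  obtain ⟨i, hi⟩ : ∃ i, F z i ≠ 0 := by
    by_contra hcon
    push Not at hcon
    exact h0 (funext hcon)
  obtain ⟨e, A, hA⟩ := θ.regular i
  have hFi : AnalyticAt ℂ (fun w => F w i) z := (analyticAt_pi_iff.1 hF) i
  have hFd : AnalyticAt ℂ (deriv F) z := hF.deriv
  have hnum : AnalyticAt ℂ (fun w => eval (Sum.elim (F w) (deriv F w)) A) z := by
    have h1 : AnalyticAt ℂ (fun w => Sum.elim (F w) (deriv F w)) z := by
      refine analyticAt_pi_iff.2 fun s => ?_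
      cases s with
      | inl b => exact (analyticAt_pi_iff.1 hF) b
      | inr b => exact (analyticAt_pi_iff.1 hFd) b
    have h2 : AnalyticAt ℂ (fun w => aeval (fun s => Sum.elim (F w) (deriv F w) s) A) z :=
      AnalyticAt.aeval_mvPolynomial (fun s => (analyticAt_pi_iff.1 h1) s) A
    simpa only [MvPolynomial.aeval_eq_eval] using h2
  have hq : AnalyticAt ℂ (fun w => eval (Sum.elim (F w) (deriv F w)) A / (F w i) ^ e) z := hnum.div (hFi.pow e) (pow_ne_zero _ hi)
  refine hq.congr ?_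
  have hne : ∀ᶠ w in 𝓝 z, F w i ≠ 0 := hFi.continuousAt.eventually_ne hi
  filter_upwards [hne, h, h.eventually_nhds, hF.eventually_analyticAt] with w h1 h2 h3 h4
  have h5 := hA _ h2 _ (cst_deriv_mem h4.differentiableAt h3)
  rw [div_eq_iff (pow_ne_zero _ h1), mul_comm, ← h5]

variable {J : ℕ} {m : Fin J → ℕ} {θ : ∀ k, SymSec P (m k)}

end Pool.Agent.GG

end
end

section

/-!
# GA Psh: Jensen's inequality on the cylinder, without a reduced lift

`u = log (|H|² + ε²)` (Euclidean norm) is smooth and periodic, `φ X = mn u X` has `φ'' = mn (Δ u)`, `Δ u ≥ 4 (|H|²|H'|² - |⟨H, H'⟩|²) / (|H|² + ε²)²`,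
and this is `≥ c (sp F)² (|H|² / (|H|² + ε²))²`.  Take a base level `X₀` in `(1/2, 1)` without zeros of `H`, let `ε → 0` (see `GA/PshA`, `core`).
-/

set_option autoImplicit false

open Topology Filter Metric Set MeasureTheory
open Pool.Agent.GG
open Pool.Agent.H36.BP (EN wd fs)
open Pool.Agent.MQ (fsd)
open Pool.Agent.GA.StripN

noncomputable section

namespace Pool.Agent.GA

variable {N : ℕ} {F H : ℂ → Fin (N + 1) → ℂ}

/-- `TT (AA s)` as one integral -/
theorem psh_TT_AA {s : ℂ → ℝ} (hs : ∀ w : ℂ, 0 < w.re → ContinuousAt s w) {X : ℝ} (hX : 1 ≤ X) :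
    TT (AA s) X = ∫ t in (1 : ℝ)..X, (X - t) * mn (fun w => s w ^ 2) t := by
  have hc : ContinuousOn (fun t => mn (fun w => s w ^ 2) t) (Ioi 0) :=
    continuousOn_vint (φ := fun w => s w ^ 2) (fun w hw => (hs w hw).pow 2) 0 (2 * Real.pi)
  have hint : ∀ c d : ℝ, 0 < c → 0 < d → IntervalIntegrable (fun t => mn (fun w => s w ^ 2) t) volume c d := by
    intro c d hc' hd
    refine (hc.mono ?_).intervalIntegrable
    intro t ht
    rcases le_total c d with h | h
    · rw [uIcc_of_le h] at ht; exact hc'.trans_le ht.1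
    · rw [uIcc_of_ge h] at ht; exact hd.trans_le ht.1
  -- the primitive without the maximum
  have h1 : ∀ t ∈ Ioi (0 : ℝ), HasDerivAt (fun t => ∫ x in (1 : ℝ)..t, mn (fun w => s w ^ 2) x) (mn (fun w => s w ^ 2) t) t := by
    intro t ht
    have hnt : Ioi (0 : ℝ) ∈ 𝓝 t := isOpen_Ioi.mem_nhds ht
    exact intervalIntegral.integral_hasDerivAt_right (hint 1 t one_pos ht)
      ((hc.stronglyMeasurableAtFilter isOpen_Ioi) t ht) (hc.continuousAt hnt)
  have hc1 : ContinuousOn (fun t => ∫ x in (1 : ℝ)..t, mn (fun w => s w ^ 2) x) (Ioi 0) :=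
    fun t ht => (h1 t ht).continuousAt.continuousWithinAt
  have hsub : uIcc 1 X ⊆ Ioi (0 : ℝ) := by
    rw [uIcc_of_le hX]
    exact fun t ht => one_pos.trans_le ht.1
  have h2 : ∀ t ∈ uIcc 1 X, HasDerivAt (fun t => ∫ x in (1 : ℝ)..t, ∫ y in (1 : ℝ)..x, mn (fun w => s w ^ 2) y)
      (∫ x in (1 : ℝ)..t, mn (fun w => s w ^ 2) x) t := by
    intro t ht
    have ht0 : 0 < t := hsub ht
    have hnt : Ioi (0 : ℝ) ∈ 𝓝 t := isOpen_Ioi.mem_nhds ht0
    refine intervalIntegral.integral_hasDerivAt_right ((hc1.mono ?_).intervalIntegrable)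
      ((hc1.stronglyMeasurableAtFilter isOpen_Ioi) t ht0) (hc1.continuousAt hnt)
    intro x hx
    rw [uIcc_of_le hX] at ht
    rw [uIcc_of_le ht.1] at hx
    exact one_pos.trans_le hx.1
  have h3 := taylor2 h2 (fun t ht => h1 t (hsub ht)) (hc.mono hsub)
  simp only [intervalIntegral.integral_same, mul_zero, add_zero, zero_add] at h3
  rw [← h3]
  unfold TT AA
  refine intervalIntegral.integral_congr fun t ht => ?_
  rw [uIcc_of_le hX] at ht
  simp only [max_eq_left ht.1]

theorem psh_continuousAt_sp {w : ℂ} (hF : AnalyticAt ℂ F w) (h0 : F w ≠ 0) : ContinuousAt (sp F) w := by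
  have hn : ‖F w‖ ^ 2 ≠ 0 := by have := norm_pos_iff.2 h0; positivity
  have hc : ∀ i, ContinuousAt (fun z => F z i) w := fun i => (continuous_apply i).continuousAt.comp hF.continuousAt
  have hd : ∀ i, ContinuousAt (fun z => deriv F z i) w := fun i => (continuous_apply i).continuousAt.comp hF.deriv.continuousAt
  unfold sp wl
  refine ContinuousAt.div ?_ (hF.continuousAt.norm.pow 2) hn
  have h : ContinuousAt (fun z => fun p : Fin (N + 1) × Fin (N + 1) => F z p.1 * deriv F z p.2 - F z p.2 * deriv F z p.1) w :=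
    continuousAt_pi.2 fun p => ((hc p.1).mul (hd p.2)).sub ((hc p.2).mul (hd p.1))
  exact h.norm

/-- proportional curves have the same speed -/
theorem psh_wl_par {w : ℂ} (hF : AnalyticAt ℂ F w) (hF0 : F w ≠ 0) (hH : AnalyticAt ℂ H w) (hH0 : H w ≠ 0)
    (hpar : ∀ᶠ z in 𝓝 w, ∀ i j, H z i * F z j = H z j * F z i) : wl (H w) (deriv H w) = sp F w := by
  obtain ⟨j, hj⟩ : ∃ j, F w j ≠ 0 := by
    by_contra h
    push Not at h
    exact hF0 (funext h)
  have hFc : ∀ i, AnalyticAt ℂ (fun z => F z i) w := fun i => (analyticAt_pi_iff.1 hF) i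
  have hHc : ∀ i, AnalyticAt ℂ (fun z => H z i) w := fun i => (analyticAt_pi_iff.1 hH) i
  have hlam : AnalyticAt ℂ (fun z => H z j / F z j) w := (hHc j).div (hFc j) hj
  have hne : ∀ᶠ z in 𝓝 w, F z j ≠ 0 := (hFc j).continuousAt.eventually_ne hj
  have heq : H =ᶠ[𝓝 w] fun z => (H z j / F z j) • F z := by
    filter_upwards [hpar, hne] with z hz hz0
    funext i
    rw [Pi.smul_apply, smul_eq_mul, div_mul_eq_mul_div, eq_div_iff hz0]
    exact hz i j
  have h1 : deriv H w = (H w j / F w j) • deriv F w + deriv (fun z => H z j / F z j) w • F w := by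
    rw [heq.deriv_eq]
    exact (hlam.differentiableAt.hasDerivAt.smul hF.differentiableAt.hasDerivAt).deriv
  have hl0 : H w j / F w j ≠ 0 := by
    intro h
    apply hH0
    rw [heq.eq_of_nhds, h, zero_smul]
  rw [h1]
  nth_rewrite 1 [heq.eq_of_nhds]
  have e : deriv (fun z => H z j / F z j) w • F w = (deriv (fun z => H z j / F z j) w / (H w j / F w j)) • ((H w j / F w j) • F w) := by
    rw [smul_smul, div_mul_cancel₀ _ hl0]
  rw [e, wl_add_smul, wl_smul hl0]
  rfl

theorem psh_lower (hF : ∀ w ∈ HP, AnalyticAt ℂ F w) (hF0 : ∀ w ∈ HP, F w ≠ 0) (hFp : ∀ w ∈ HP, F (w + per) = F w)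
    (hH : ∀ w ∈ HP, AnalyticAt ℂ H w) (hHp : ∀ w ∈ HP, H (w + per) = H w) (h0 : ∃ w ∈ HP, H w ≠ 0)
    (hpar : ∀ w ∈ HP, ∀ i j, H w i * F w j = H w j * F w i) :
    ∃ c > 0, ∃ C, ∀ t : ℝ, 1 ≤ t → c * TT (AA (sp F)) t ≤ (∑ i, mn (fun w => Real.posLog ‖H w i‖) t) + C * t := by
  have hopen : IsOpen HP := isOpen_lt continuous_const Complex.continuous_re
  let G : ℂ → EN N := fun w => WithLp.toLp 2 (H w)
  have hG : ∀ w : ℂ, 0 < w.re → AnalyticAt ℂ G w := fun w hw =>
    ((PiLp.continuousLinearEquiv 2 ℂ (fun _ : Fin (N + 1) => ℂ)).symm.toContinuousLinearMap.analyticAt _).comp (hH w hw)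
  have hG' : ∀ w : ℂ, 0 < w.re → deriv G w = WithLp.toLp 2 (deriv H w) := fun w hw =>
    ((PiLp.continuousLinearEquiv 2 ℂ (fun _ : Fin (N + 1) => ℂ)).symm.toContinuousLinearMap.hasFDerivAt.comp_hasDerivAt w
      (hH w hw).differentiableAt.hasDerivAt).deriv
  have hGp : ∀ w : ℂ, 0 < w.re → G (w + 2 * Real.pi * Complex.I) = G w := fun w hw => by
    show WithLp.toLp 2 (H (w + per)) = WithLp.toLp 2 (H w)
    rw [hHp w hw]
  have hG0 : ∃ w : ℂ, 0 < w.re ∧ G w ≠ 0 := by
    obtain ⟨w, hw, hne⟩ := h0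
    exact ⟨w, hw, fun h => hne (WithLp.toLp_injective 2 h)⟩
  have hspc : ∀ w : ℂ, 0 < w.re → ContinuousAt (sp F) w := fun w hw => psh_continuousAt_sp (hF w hw) (hF0 w hw)
  let c₀ : ℝ := 1 / (2 * (N + 1) ^ 2)
  have hc₀ : 0 < c₀ := by positivity
  obtain ⟨C, hC0, hC⟩ := core (e := fun w => c₀ * sp F w ^ 2) hG hG0 hGp (fun w hw => continuousAt_const.mul ((hspc w hw).pow 2))
    (fun w _ => by positivity) (by
      intro w hw hne
      have hne' : H w ≠ 0 := fun h => hne (by show WithLp.toLp 2 (H w) = 0; rw [h]; rfl)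
      have h1 : wl (H w) (deriv H w) = sp F w := psh_wl_par (hF w hw) (hF0 w hw) (hH w hw) hne'
        (by filter_upwards [hopen.mem_nhds (show w ∈ HP from hw)] with z hz using hpar z hz)
      have h2 := cst_wl_le_fs (H w) (deriv H w) hne'
      rw [h1] at h2
      rw [hG' w hw]
      have h3 : fsd (WithLp.toLp 2 (H w) : EN N) (WithLp.toLp 2 (deriv H w)) = 2 * fs (WithLp.toLp 2 (H w) : EN N) (WithLp.toLp 2 (deriv H w)) ^ 2 := by
        unfold fsd fs
        rw [div_pow, Pool.Agent.H36.BP.wd_sq]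
        ring
      have h4 : 0 ≤ sp F w := wl_nonneg _ _
      have h5 : sp F w ^ 2 ≤ (2 * (N + 1) * fs (WithLp.toLp 2 (H w) : EN N) (WithLp.toLp 2 (deriv H w))) ^ 2 := pow_le_pow_left₀ h4 h2 2
      show c₀ * sp F w ^ 2 ≤ fsd (WithLp.toLp 2 (H w) : EN N) (WithLp.toLp 2 (deriv H w))
      rw [h3]
      calc c₀ * sp F w ^ 2 ≤ c₀ * (2 * (N + 1) * fs (WithLp.toLp 2 (H w) : EN N) (WithLp.toLp 2 (deriv H w))) ^ 2 := by gcongr
        _ = 2 * fs (WithLp.toLp 2 (H w) : EN N) (WithLp.toLp 2 (deriv H w)) ^ 2 := by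
          simp only [c₀]
          field_simp)
  refine ⟨c₀, hc₀, 2 * Real.pi * Real.log (N + 1) + 2 * C, fun t ht => ?_⟩
  have ht0 : 0 < t := by linarith
  have hpt : ∀ y, 0 < (pp t y).re := fun y => by rw [pp_re]; exact ht0
  rw [psh_TT_AA hspc ht]
  have h1 := hC t ht
  have h2 : ∫ x in (1 : ℝ)..t, (t - x) * ∫ y in (0 : ℝ)..2 * Real.pi, c₀ * sp F (pp x y) ^ 2 =
      c₀ * ∫ x in (1 : ℝ)..t, (t - x) * mn (fun w => sp F w ^ 2) x := by
    rw [← intervalIntegral.integral_const_mul]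
    refine intervalIntegral.integral_congr fun x _ => ?_
    show (t - x) * (∫ y in (0 : ℝ)..2 * Real.pi, c₀ * sp F (pp x y) ^ 2) = c₀ * ((t - x) * mn (fun w => sp F w ^ 2) x)
    rw [intervalIntegral.integral_const_mul]
    show (t - x) * (c₀ * mn (fun w => sp F w ^ 2) x) = _
    ring
  rw [← h2]
  refine h1.trans ?_
  have hcont : ∀ i : Fin (N + 1), Continuous fun y => Real.posLog ‖H (pp t y) i‖ := fun i =>
    cont_line (φ := fun w => Real.posLog ‖H w i‖) fun y => Real.continuous_posLog.continuousAt.comp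
      (((continuous_apply i).continuousAt.comp (hH _ (hpt y)).continuousAt).norm)
  have h3 : ∫ y in (0 : ℝ)..2 * Real.pi, Real.posLog ‖G (pp t y)‖ ≤
      ∫ y in (0 : ℝ)..2 * Real.pi, (Real.log (N + 1) + ∑ i, Real.posLog ‖H (pp t y) i‖) := by
    refine intervalIntegral.integral_mono_on (by positivity) ?_ ?_ fun y _ => ?_
    · exact (cont_line (φ := fun w => Real.posLog ‖G w‖) fun y => Real.continuous_posLog.continuousAt.comp
        (hG _ (hpt y)).continuousAt.norm).intervalIntegrable _ _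
    · exact (continuous_const.add (continuous_finsetSum _ fun i _ => hcont i)).intervalIntegrable _ _
    · have e1 : ‖G (pp t y)‖ ≤ ∑ i, ‖H (pp t y) i‖ := by
        rw [EuclideanSpace.norm_eq]
        refine Real.sqrt_le_iff.2 ⟨by positivity, ?_⟩
        exact Finset.sum_sq_le_sq_sum_of_nonneg fun i _ => norm_nonneg _
      refine (Real.posLog_le_posLog (norm_nonneg _) e1).trans ?_
      have e2 := Real.posLog_sum Finset.univ fun i => ‖H (pp t y) i‖
      simpa using e2
  rw [intervalIntegral.integral_add (by simp) ((continuous_finsetSum _ fun i _ => hcont i).intervalIntegrable _ _),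
    intervalIntegral.integral_finset_sum fun i _ => (hcont i).intervalIntegrable _ _] at h3
  have h4 : ∫ _y in (0 : ℝ)..2 * Real.pi, Real.log (N + 1) = 2 * Real.pi * Real.log (N + 1) := by simp
  rw [h4] at h3
  have h5 : 0 ≤ 2 * Real.pi * Real.log ((N : ℝ) + 1) := by
    have : 0 ≤ Real.log ((N : ℝ) + 1) := Real.log_nonneg (by have := Nat.cast_nonneg (α := ℝ) N; linarith)
    positivity
  have h6 : ∑ i, ∫ y in (0 : ℝ)..2 * Real.pi, Real.posLog ‖H (pp t y) i‖ = ∑ i, mn (fun w => Real.posLog ‖H w i‖) t := rfl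
  rw [h6] at h3
  nlinarith

end Pool.Agent.GA

end
end
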