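import Pool.Agent.H18.GGT.M25

/-! The parts of this file: GQ.Psi, H19OL.Norm, H7.Qup.Rel. -/

section

/-!
# GQ Psi: position and velocity of curves and families of curves in the charts (helper44)

`p.rep i / p.rep a = G i / G a` for all representatives `G` of `p`.
-/

set_option autoImplicit false

open MvPolynomial Topology Filter Metric
open Pool.Agent.H13.SM (conTan cone)
open Pool.Agent.H17 (PN)
open Pool.Agent.H62.FC (Homog)
open Pool.Agent.GG

noncomputable section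

namespace Pool.Agent.GQ

variable {N : ℕ} {P : Ideal (MvPolynomial (Fin (N + 1)) ℂ)} {J : ℕ} {m : Fin J → ℕ} {θ : ∀ k, SymSec P (m k)}

private theorem rep_mk {G : Fin (N + 1) → ℂ} (h : G ≠ 0) : ∃ u : ℂ, u ≠ 0 ∧ (Projectivization.mk ℂ G h).rep = u • G := by
  obtain ⟨u, hu⟩ := Projectivization.exists_smul_eq_mk_rep ℂ G h
  exact ⟨(u : ℂ), u.ne_zero, hu.symm⟩

/-- the quotients of the coordinates -/
private theorem rep_div {p : PN N} {G : Fin (N + 1) → ℂ} (h : ∃ h : G ≠ 0, p = Projectivization.mk ℂ G h) (i a : Fin (N + 1)) :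
    p.rep i / p.rep a = G i / G a := by
  obtain ⟨h0, hp⟩ := h
  obtain ⟨u, hu0, hu⟩ := rep_mk h0
  rw [hp, hu, Pi.smul_apply, Pi.smul_apply, smul_eq_mul, smul_eq_mul, mul_div_mul_left _ _ hu0]

private theorem rep_ne {p : PN N} {G : Fin (N + 1) → ℂ} (h : ∃ h : G ≠ 0, p = Projectivization.mk ℂ G h) (a : Fin (N + 1)) :
    p.rep a ≠ 0 ↔ G a ≠ 0 := by
  obtain ⟨h0, hp⟩ := h
  obtain ⟨u, hu0, hu⟩ := rep_mk h0
  rw [hp, hu, Pi.smul_apply, smul_eq_mul]
  exact ⟨fun h1 h2 => h1 (by rw [h2, mul_zero]), fun h1 => mul_ne_zero hu0 h1⟩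

private theorem quot_an {V : Type*} [NormedAddCommGroup V] [NormedSpace ℂ V] {F : V → Fin (N + 1) → ℂ} {q : V} (hF : AnalyticAt ℂ F q) {a : Fin (N + 1)}
    (ha : F q a ≠ 0) : AnalyticAt ℂ (fun p i => F p i / F p a) q := by
  rw [analyticAt_pi_iff]
  intro i
  exact ((analyticAt_pi_iff.1 hF) i).div ((analyticAt_pi_iff.1 hF) a) ha

private theorem rep_quot {g : ℂ → PN N} {F : ℂ → Fin (N + 1) → ℂ} {z : ℂ} (hr : Rep g F z) (a : Fin (N + 1)) :
    (fun w i => (g w).rep i / (g w).rep a) =ᶠ[𝓝 z] fun w i => F w i / F w a := by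
  filter_upwards [hr] with w hw
  funext i
  exact rep_div hw i a

private theorem ps_eq {g : ℂ → PN N} {F : ℂ → Fin (N + 1) → ℂ} {z : ℂ} (hr : Rep g F z) (a : Fin (N + 1)) :
    ps g a z = pt (fun i => F z i / F z a) (deriv (fun w i => F w i / F w a) z) := by
  unfold ps
  rw [(rep_quot hr a).deriv_eq]
  have h1 : (fun i => (g z).rep i / (g z).rep a) = fun i => F z i / F z a := (rep_quot hr a).self_of_nhds
  rw [h1]

/-- the change of the charts, for a curve with a holomorphic representative -/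
private theorem ps_chg' {g : ℂ → PN N} {F : ℂ → Fin (N + 1) → ℂ} {z : ℂ} (hF : AnalyticAt ℂ F z) (hr : Rep g F z) {a b : Fin (N + 1)}
    (ha : (g z).rep a ≠ 0) (hb : (g z).rep b ≠ 0) : ps g b z = nm b (ps g a z) := by
  have ha' : F z a ≠ 0 := (rep_ne hr.self_of_nhds a).1 ha
  have hb' : F z b ≠ 0 := (rep_ne hr.self_of_nhds b).1 hb
  have hd : ∀ c : Fin (N + 1), F z c ≠ 0 → ∀ i, deriv (fun w i => F w i / F w c) z i = (deriv F z i * F z c - F z i * deriv F z c) / F z c ^ 2 := by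
    intro c hc i
    have h1 : HasDerivAt F (deriv F z) z := hF.differentiableAt.hasDerivAt
    have h2 : HasDerivAt (fun w i => F w i / F w c) (fun i => (deriv F z i * F z c - F z i * deriv F z c) / F z c ^ 2) z := by
      rw [hasDerivAt_pi]
      intro i
      exact (hasDerivAt_pi.1 h1 i).fun_div (hasDerivAt_pi.1 h1 c) hc
    rw [h2.deriv]
  rw [ps_eq hr b, ps_eq hr a]
  funext s
  rcases s with i | i
  · simp only [nm, Sum.elim_inl]
    field_simp
  · simp only [nm, Sum.elim_inl, Sum.elim_inr, hd a ha', hd b hb']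
    field_simp
    ring

private theorem nArc_congr {a : Fin (N + 1)} {c : Fin J → ℂ} {x y : ℂ → Fin (N + 1) → ℂ} {z : ℂ} (h : NArc θ a c x z) (he : y =ᶠ[𝓝 z] x) :
    NArc θ a c y z := by
  refine ⟨h.1.congr he.symm, ?_⟩
  filter_upwards [h.2, he.eventuallyEq_nhds] with w hw hw'
  rw [hw'.deriv_eq, hw'.self_of_nhds]
  exact hw

/-- one curve in the chart `x_a = 1` (`nArc_of_lift`, or `ArcAt` directly; `rep = c • F`) -/
theorem ps_arc (hP : Homog P) {c : Fin J → ℂ} {g : ℂ → PN N} {z : ℂ} (hg : ArcAt θ c g z) {a : Fin (N + 1)} (ha : (g z).rep a ≠ 0) :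
    NArc θ a c (fun w i => (g w).rep i / (g w).rep a) z ∧ Rep g (fun w i => (g w).rep i / (g w).rep a) z ∧ X a ∉ P ∧
      IsTan θ a c (fun i => (g z).rep i / (g z).rep a) (deriv (fun w i => (g w).rep i / (g w).rep a) z) ∧ ∀ᶠ w in 𝓝 z, (g w).rep a ≠ 0 := by
  obtain ⟨F, hF, hr, hc⟩ := id hg
  have ha' : F z a ≠ 0 := (rep_ne hr.self_of_nhds a).1 ha
  obtain ⟨h1, h2⟩ := nArc_of_lift (a := a) hP hg hF hr ha'
  have he : (fun w i => (g w).rep i / (g w).rep a) =ᶠ[𝓝 z] fun w => (F w a)⁻¹ • F w := by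
    filter_upwards [rep_quot hr a] with w hw
    rw [hw]
    funext i
    rw [Pi.smul_apply, smul_eq_mul, div_eq_inv_mul]
  have h3 := nArc_congr h1 he
  refine ⟨h3, ?_, ?_, (Chart_isTan h3).self_of_nhds, ?_⟩
  · filter_upwards [h2, he] with w hw hw'
    rw [hw']
    exact hw
  · intro h4
    have h5 := (hc.self_of_nhds).1.2 _ h4
    rw [eval_X] at h5
    exact ha' h5
  · have h4 : ContinuousAt (fun w => F w a) z := (continuous_apply a).continuousAt.comp hF.continuousAt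
    filter_upwards [hr, h4.eventually_ne ha'] with w hw hw'
    exact (rep_ne hw a).2 hw'

theorem ps_chg (hP : Homog P) {c : Fin J → ℂ} {g : ℂ → PN N} {z : ℂ} (hg : ArcAt θ c g z) {a b : Fin (N + 1)} (ha : (g z).rep a ≠ 0)
    (hb : (g z).rep b ≠ 0) : ps g b z = nm b (ps g a z) := by
  obtain ⟨F, hF, hr, -⟩ := hg
  exact ps_chg' hF hr ha hb

private theorem slice_rep {d : ℕ} {Φ : ℂ × (Fin d → ℂ) → PN N} {F : ℂ × (Fin d → ℂ) → Fin (N + 1) → ℂ} {q : ℂ × (Fin d → ℂ)} (hR : RepN P Φ F q) :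
    ∀ᶠ p in 𝓝 q, AnalyticAt ℂ F p ∧ AnalyticAt ℂ (fun w => F (w, p.2)) p.1 ∧ Rep (fun w => Φ (w, p.2)) (fun w => F (w, p.2)) p.1 ∧
      ∃ h : F p ≠ 0, Φ p = Projectivization.mk ℂ (F p) h := by
  filter_upwards [hR.1.eventually_analyticAt, hR.2.eventually_nhds] with p hp hp'
  have h1 : AnalyticAt ℂ (fun w : ℂ => (w, p.2)) p.1 := analyticAt_id.prod analyticAt_const
  refine ⟨hp, AnalyticAt.comp_of_eq (f := fun w : ℂ => (w, p.2)) hp h1 rfl, ?_, hp'.self_of_nhds.2⟩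
  have h2 : Tendsto (fun w : ℂ => (w, p.2)) (𝓝 p.1) (𝓝 p) := (continuous_id.prodMk continuous_const).tendsto' _ _ rfl
  filter_upwards [h2.eventually hp'] with w hw
  exact hw.2

theorem psi_an {d : ℕ} {Φ : ℂ × (Fin d → ℂ) → PN N} {z : ℂ} (hR : ∃ F, RepN P Φ F (z, 0)) {a : Fin (N + 1)} (ha : (Φ (z, 0)).rep a ≠ 0) :
    AnalyticAt ℂ (psi Φ a) (z, 0) := by
  obtain ⟨F, hR⟩ := hR
  have ha' : F (z, 0) a ≠ 0 := (rep_ne hR.2.self_of_nhds.2 a).1 ha
  have hG : AnalyticAt ℂ (fun p i => F p i / F p a) (z, (0 : Fin d → ℂ)) := quot_an hR.1 ha'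
  have hGd : AnalyticAt ℂ (fun p => fderiv ℂ (fun p i => F p i / F p a) p (1, 0)) (z, (0 : Fin d → ℂ)) :=
    ((ContinuousLinearMap.apply ℂ (Fin (N + 1) → ℂ) ((1 : ℂ), (0 : Fin d → ℂ))).analyticAt _).comp hG.fderiv
  have hpt : AnalyticAt ℂ (fun p => pt (fun i => F p i / F p a) (fderiv ℂ (fun p i => F p i / F p a) p (1, 0))) (z, (0 : Fin d → ℂ)) := by
    rw [analyticAt_pi_iff]
    rintro (i | i)
    · exact (analyticAt_pi_iff.1 hG) i
    · exact (analyticAt_pi_iff.1 hGd) i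
  refine hpt.congr ?_
  filter_upwards [slice_rep hR, hG.eventually_analyticAt] with p hp hGp
  unfold psi
  rw [ps_eq hp.2.2.1 a]
  have h1 : HasDerivAt (fun w : ℂ => (w, p.2)) ((1 : ℂ), (0 : Fin d → ℂ)) p.1 := (hasDerivAt_id p.1).prodMk (hasDerivAt_const p.1 p.2)
  have h2 : HasFDerivAt (fun p i => F p i / F p a) (fderiv ℂ (fun p i => F p i / F p a) p) (p.1, p.2) := hGp.differentiableAt.hasFDerivAt
  have h3 := HasFDerivAt.comp_hasDerivAt p.1 h2 h1
  have h4 : HasDerivAt (fun w i => F (w, p.2) i / F (w, p.2) a) (fderiv ℂ (fun p i => F p i / F p a) p (1, 0)) p.1 := h3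
  rw [h4.deriv]

/-- if the coordinate `x_a` does not vanish at `Φ (z, 0)` it does not vanish near it, and the charts are related by `nm` -/
theorem psi_chg {d : ℕ} {Φ : ℂ × (Fin d → ℂ) → PN N} {z : ℂ} (hR : ∃ F, RepN P Φ F (z, 0)) {a b : Fin (N + 1)} (ha : (Φ (z, 0)).rep a ≠ 0)
    (hb : (Φ (z, 0)).rep b ≠ 0) : ∀ᶠ p in 𝓝 (z, (0 : Fin d → ℂ)), (Φ p).rep a ≠ 0 ∧ (Φ p).rep b ≠ 0 ∧ psi Φ b p = nm b (psi Φ a p) := by
  obtain ⟨F, hR⟩ := hR
  have hc : ∀ c : Fin (N + 1), (Φ (z, 0)).rep c ≠ 0 → ∀ᶠ p in 𝓝 (z, (0 : Fin d → ℂ)), F p c ≠ 0 := by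
    intro c hc
    have h1 : ContinuousAt (fun p => F p c) (z, (0 : Fin d → ℂ)) := (continuous_apply c).continuousAt.comp hR.1.continuousAt
    exact h1.eventually_ne ((rep_ne hR.2.self_of_nhds.2 c).1 hc)
  filter_upwards [slice_rep hR, hc a ha, hc b hb] with p hp hpa hpb
  have h1 := (rep_ne hp.2.2.2 a).2 hpa
  have h2 := (rep_ne hp.2.2.2 b).2 hpb
  exact ⟨h1, h2, ps_chg' hp.2.1 hp.2.2.1 h1 h2⟩

theorem psi_fam {d : ℕ} {Φ : ℂ × (Fin d → ℂ) → PN N} {a : Fin (N + 1)} {Y : (Fin d → ℂ) → Ph N → ℂ} {z : ℂ} (h : FamAt θ Φ a Y z) :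
    ∀ᶠ s in 𝓝 (0 : Fin d → ℂ), (Φ (z, s)).rep a ≠ 0 ∧ psi Φ a (z, s) = Y s := by
  filter_upwards [h.2] with s hs
  obtain ⟨c, x, hN, hr, hY⟩ := hs
  have ha : x z a = 1 := hN.2.self_of_nhds.2.1
  refine ⟨(rep_ne (G := x z) hr.self_of_nhds a).2 (by rw [ha]; exact one_ne_zero), ?_⟩
  have he : (fun w i => x w i / x w a) =ᶠ[𝓝 z] x := by
    filter_upwards [hN.2] with w hw
    rw [hw.2.1]
    funext i
    rw [div_one]
  unfold psi
  rw [ps_eq (F := x) hr a, hY, he.deriv_eq]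
  have h1 : (fun i => x z i / x z a) = x z := he.self_of_nhds
  rw [h1]

end Pool.Agent.GQ

end
end

section

/-!
# OL Norm: the norm of a form under a generically finite rational map

`exists_norm_form`: let `X'` and `X` be the varieties of the prime ideals `P'` and `P`, of the same dimension, and let forms `γ i` define a dominant
rational map from `X'` to `X`.  For each form `R'` which does not vanish on `X'` there is a form `R` which does not vanish on `X`, with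
`R (γ y) = 0` for all points `y` of `X'` with `R' y = 0`.
-/

set_option autoImplicit false

open MvPolynomial

noncomputable section

namespace Pool.Agent.H19OL

open Pool.Agent.H17GT (coordFun functionField)
open Pool.Agent.H17LG.Variety (FunField ratio)
open Pool.Agent.H62.FC (Homog)
open Pool.Agent.H17R (gen gen_eq_zero_iff ratio_self adjoin_ratio coordFun_ne_zero_iff)
open Pool.Agent.H7.Bir (aeval_comp aeval_div funIso exists_quot vals)

/-- An extension of fields with the same finite transcendence degree is algebraic. -/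
theorem alg_of_trdeg {K L : Type} [Field K] [Field L] [Algebra ℂ K] [Algebra ℂ L] [Algebra K L] [IsScalarTower ℂ K L] {k : ℕ}
    {z : Fin k → K} (hz : IsTranscendenceBasis ℂ z) {z' : Fin k → L} (hz' : IsTranscendenceBasis ℂ z') :
    Algebra.IsAlgebraic K L := by
  have h1 := trdeg_add_eq ℂ K (A := L)
  rw [← hz.cardinalMk_eq_trdeg, ← hz'.cardinalMk_eq_trdeg] at h1
  rw [← trdeg_eq_zero_iff]
  have h2 : Cardinal.mk (Fin k) < Cardinal.aleph0 := Cardinal.mk_lt_aleph0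
  have h3 : Cardinal.mk (Fin k) + Algebra.trdeg K L = Cardinal.mk (Fin k) + 0 := by rw [h1, add_zero]
  exact Cardinal.eq_of_add_eq_add_left h3 h2

variable {N M : ℕ}

/-- The field generated by the coordinates. -/
theorem adjoin_self {L : Type} [Field L] [Algebra ℂ L] (x : Fin (N + 1) → L) :
    IntermediateField.adjoin ℂ (Set.range fun i => (⟨x i, IntermediateField.subset_adjoin ℂ _ ⟨i, rfl⟩⟩ :
      IntermediateField.adjoin ℂ (Set.range x))) = ⊤ := by
  apply IntermediateField.lift_injective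
  rw [IntermediateField.lift_adjoin, IntermediateField.lift_top]
  congr 1
  ext y
  constructor
  · rintro ⟨_, ⟨i, rfl⟩, rfl⟩
    exact ⟨i, rfl⟩
  · rintro ⟨i, rfl⟩
    exact ⟨_, ⟨i, rfl⟩, rfl⟩

/-- The norm of a form, for the points with `y j ≠ 0`. -/
theorem exists_norm_aux {P : Ideal (MvPolynomial (Fin (N + 1)) ℂ)} [P.IsPrime] {P' : Ideal (MvPolynomial (Fin (M + 1)) ℂ)}
    [P'.IsPrime] {k : ℕ} {z : Fin k → FunField P} (hz : IsTranscendenceBasis ℂ z) {z' : Fin k → FunField P'}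
    (hz' : IsTranscendenceBasis ℂ z') {D : ℕ} {γ : Fin (N + 1) → MvPolynomial (Fin (M + 1)) ℂ} (hγ : ∀ i, (γ i).IsHomogeneous D)
    (hmaps : ∀ n Q, Q.IsHomogeneous n → (aeval γ Q ∈ P' ↔ Q ∈ P)) {i₀ : Fin (N + 1)} (hi₀ : X i₀ ∉ P)
    {n : ℕ} {R' : MvPolynomial (Fin (M + 1)) ℂ} (hR' : R'.IsHomogeneous n) (hR'P : R' ∉ P') {j : Fin (M + 1)} (hj : X j ∉ P') :
    ∃ (R : MvPolynomial (Fin (N + 1)) ℂ) (d : ℕ), R.IsHomogeneous d ∧ R ∉ P ∧
      ∀ y : Fin (M + 1) → ℂ, y j ≠ 0 → (∀ Q ∈ P', eval y Q = 0) → eval y R' = 0 → eval (vals γ y) R = 0 := by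
  have hcj : coordFun P' j ≠ 0 := coordFun_ne_zero_iff.2 hj
  set η : Fin (M + 1) → FunField P' := fun i => ratio P' i j with hη
  have hη1 : η j = 1 := ratio_self hcj
  have hγ₀ : γ i₀ ∉ P' := by
    intro h
    apply hi₀
    rw [← hmaps 1 _ (isHomogeneous_X ℂ i₀), aeval_X]
    exact h
  have hc : aeval η (γ i₀) ≠ 0 := fun h0 => hγ₀ ((gen_eq_zero_iff hcj (hγ i₀)).1 h0)
  set x : Fin (N + 1) → FunField P' := fun i => aeval η (γ i) / aeval η (γ i₀) with hx
  have hx1 : x i₀ = 1 := div_self hc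
  have hcomp : ∀ (n : ℕ) (R : MvPolynomial (Fin (N + 1)) ℂ), R.IsHomogeneous n →
      aeval η (aeval γ R) = aeval η (γ i₀) ^ n * aeval x R := by
    intro n R hR
    rw [aeval_comp, aeval_div hR hc]
  have hker : ∀ (n : ℕ) (G : MvPolynomial (Fin (N + 1)) ℂ), G.IsHomogeneous n → (aeval x G = 0 ↔ G ∈ P) := by
    intro n G hG
    rw [← hmaps n G hG, ← gen_eq_zero_iff hcj (hG.aeval γ hγ)]
    change _ ↔ aeval η (aeval γ G) = 0
    rw [hcomp n G hG, mul_eq_zero]
    exact ⟨Or.inr, fun h => h.resolve_left (pow_ne_zero _ hc)⟩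
  -- the subfield generated by the coordinates of the image
  set F : IntermediateField ℂ (FunField P') := IntermediateField.adjoin ℂ (Set.range x) with hF
  set x' : Fin (N + 1) → F := fun i => ⟨x i, IntermediateField.subset_adjoin ℂ _ ⟨i, rfl⟩⟩ with hx'
  have hadj : IntermediateField.adjoin ℂ (Set.range x') = ⊤ := adjoin_self x
  have hval : ∀ G : MvPolynomial (Fin (N + 1)) ℂ, ((aeval x' G : F) : FunField P') = aeval x G := by
    intro G
    have h1 := DFunLike.congr_fun (MvPolynomial.comp_aeval x' F.val) G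
    exact h1
  have hx'1 : x' i₀ = 1 := Subtype.ext hx1
  obtain ⟨e⟩ := funIso (coordFun_ne_zero_iff.2 hi₀) hx'1 hadj fun n G hG => by
    rw [← hker n G hG, ← hval G]
    exact Subtype.ext_iff
  have halg : Algebra.IsAlgebraic F (FunField P') := alg_of_trdeg (e.isTranscendenceBasis hz) hz'
  -- the equation of `R'`
  set s : FunField P' := aeval η R' with hs
  have hs0 : s ≠ 0 := fun h0 => hR'P ((gen_eq_zero_iff hcj hR').1 h0)
  have hint : IsIntegral F s := (halg.isAlgebraic s).isIntegral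
  set p := minpoly F s with hp
  set m := p.natDegree with hm
  obtain ⟨D₁, α, hα, hα0, hα1⟩ := exists_quot hx'1 hadj (fun i : Fin (m + 1) => p.coeff (i : ℕ)) (j' := Fin.last m) (by
    have h1 := minpoly.monic hint
    exact h1)
  have hα0' : aeval x (α (Fin.last m)) ≠ 0 := by
    rw [← hval]
    exact fun h => hα0 (Subtype.ext h)
  have hrel : ∑ i : Fin (m + 1), aeval x (α i) * s ^ (i : ℕ) = 0 := by
    have h1 := minpoly.aeval F s
    rw [Polynomial.aeval_eq_sum_range, ← Fin.sum_univ_eq_sum_range (fun i => p.coeff i • s ^ i)] at h1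
    have h2 : ∀ i : Fin (m + 1), aeval x (α i) * s ^ (i : ℕ) = aeval x (α (Fin.last m)) * (p.coeff (i : ℕ) • s ^ (i : ℕ)) := by
      intro i
      have h3 := congrArg (fun t : F => (t : FunField P')) (hα1 i)
      simp only [MulMemClass.coe_mul, hval] at h3
      rw [← h3, Algebra.smul_def]
      change _ = _ * (((p.coeff (i : ℕ) : F) : FunField P') * _)
      ring
    have h4 : ∑ i : Fin (m + 1), aeval x (α (Fin.last m)) * (p.coeff (i : ℕ) • s ^ (i : ℕ)) =
        aeval x (α (Fin.last m)) * ∑ i : Fin (m + 1), p.coeff (i : ℕ) • s ^ (i : ℕ) := (Finset.mul_sum _ _ _).symm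
    rw [Finset.sum_congr rfl fun i _ => h2 i, h4, h1, mul_zero]
  have hα00 : aeval x (α 0) ≠ 0 := by
    have h3 := congrArg (fun t : F => (t : FunField P')) (hα1 0)
    simp only [MulMemClass.coe_mul, hval] at h3
    rw [← h3]
    refine mul_ne_zero ?_ hα0'
    have h4 : p.coeff 0 ≠ 0 := minpoly.coeff_zero_ne_zero hint hs0
    intro h5
    exact h4 (Subtype.ext h5)
  -- the form
  set G : MvPolynomial (Fin (M + 1)) ℂ := ∑ i : Fin (m + 1), aeval γ (α i) * R' ^ (i : ℕ) * X j ^ (n * (m - i)) with hG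
  have hGhom : G.IsHomogeneous (D * D₁ + n * m) := by
    refine IsHomogeneous.sum _ _ _ fun i _ => ?_
    have h1 := ((((hα i).aeval γ hγ).mul (hR'.pow (i : ℕ))).mul ((isHomogeneous_X ℂ j).pow (n * (m - i))))
    have h2 : D * D₁ + n * (i : ℕ) + 1 * (n * (m - i)) = D * D₁ + n * m := by
      have h3 : (i : ℕ) ≤ m := Nat.lt_succ_iff.1 i.2
      rw [one_mul, add_assoc, ← mul_add, Nat.add_sub_cancel' h3]
    rw [h2] at h1
    exact h1
  have hGP : G ∈ P' := by
    rw [← gen_eq_zero_iff hcj hGhom]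
    change aeval η G = 0
    rw [hG, map_sum]
    have h1 : ∀ i : Fin (m + 1), aeval η (aeval γ (α i) * R' ^ (i : ℕ) * X j ^ (n * (m - i))) =
        aeval η (γ i₀) ^ D₁ * (aeval x (α i) * s ^ (i : ℕ)) := by
      intro i
      rw [map_mul, map_mul, map_pow, map_pow, aeval_X, hη1, one_pow, mul_one, hcomp D₁ _ (hα i)]
      ring
    have h2 : ∑ i : Fin (m + 1), aeval η (γ i₀) ^ D₁ * (aeval x (α i) * s ^ (i : ℕ)) =
        aeval η (γ i₀) ^ D₁ * ∑ i : Fin (m + 1), aeval x (α i) * s ^ (i : ℕ) := (Finset.mul_sum _ _ _).symm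
    rw [Finset.sum_congr rfl fun i _ => h1 i, h2, hrel, mul_zero]
  refine ⟨α 0, D₁, hα 0, fun h => hα00 ((hker D₁ _ (hα 0)).2 h), fun y hyj hy hyR => ?_⟩
  have h1 := hy G hGP
  rw [hG, map_sum, Fin.sum_univ_succ] at h1
  have h2 : ∀ i : Fin m, eval y (aeval γ (α i.succ) * R' ^ ((i.succ : Fin (m + 1)) : ℕ) * X j ^ (n * (m - (i.succ : Fin (m + 1))))) = 0 := by
    intro i
    rw [map_mul, map_mul, map_pow, hyR, Fin.val_succ, zero_pow (Nat.succ_ne_zero _), mul_zero, zero_mul]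
  rw [Finset.sum_eq_zero fun i _ => h2 i, add_zero, map_mul, map_mul, map_pow, map_pow, eval_X, Fin.val_zero, pow_zero,
    mul_one, mul_eq_zero] at h1
  have h3 : eval y (aeval γ (α 0)) = 0 := h1.resolve_right (pow_ne_zero _ hyj)
  have h4 : eval y (aeval γ (α 0)) = eval (vals γ y) (α 0) := aeval_comp (K := ℂ) y γ (α 0)
  rw [← h4]
  exact h3

/-- **The norm of a form.** -/
theorem exists_norm_form {P : Ideal (MvPolynomial (Fin (N + 1)) ℂ)} [P.IsPrime] {P' : Ideal (MvPolynomial (Fin (M + 1)) ℂ)}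
    [P'.IsPrime] {k : ℕ} (hz : ∃ z : Fin (k + 1) → FunField P, IsTranscendenceBasis ℂ z)
    (hz' : ∃ z : Fin (k + 1) → FunField P', IsTranscendenceBasis ℂ z) {D : ℕ}
    {γ : Fin (N + 1) → MvPolynomial (Fin (M + 1)) ℂ} (hγ : ∀ i, (γ i).IsHomogeneous D)
    (hmaps : ∀ n Q, Q.IsHomogeneous n → (aeval γ Q ∈ P' ↔ Q ∈ P))
    {n : ℕ} {R' : MvPolynomial (Fin (M + 1)) ℂ} (hR' : R'.IsHomogeneous n) (hR'P : R' ∉ P') :
    ∃ (R : MvPolynomial (Fin (N + 1)) ℂ) (d : ℕ), R.IsHomogeneous d ∧ R ∉ P ∧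
      ∀ y : Fin (M + 1) → ℂ, y ≠ 0 → (∀ Q ∈ P', eval y Q = 0) → eval y R' = 0 → eval (vals γ y) R = 0 := by
  classical
  obtain ⟨z, hz⟩ := hz
  obtain ⟨z', hz'⟩ := hz'
  obtain ⟨i₀, hi₀⟩ := Pool.Agent.H92.GT.Proj.exists_coordFun_ne_zero P z hz
  have hi₀' : X i₀ ∉ P := coordFun_ne_zero_iff.1 hi₀
  have h1 : ∀ j : Fin (M + 1), ∃ (R : MvPolynomial (Fin (N + 1)) ℂ) (d : ℕ), R.IsHomogeneous d ∧ R ∉ P ∧
      ∀ y : Fin (M + 1) → ℂ, y j ≠ 0 → (∀ Q ∈ P', eval y Q = 0) → eval y R' = 0 → eval (vals γ y) R = 0 := by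
    intro j
    by_cases hj : X j ∈ P'
    · refine ⟨1, 0, isHomogeneous_one _ _, fun h => (Ideal.ne_top_iff_one P).1 (Ideal.IsPrime.ne_top inferInstance) h, fun y hyj hy => ?_⟩
      have h2 := hy _ hj
      rw [eval_X] at h2
      exact absurd h2 hyj
    · exact exists_norm_aux hz hz' hγ hmaps hi₀' hR' hR'P hj
  choose R d hR hRP hRy using h1
  refine ⟨∏ j, R j, ∑ j, d j, IsHomogeneous.prod _ _ _ fun j _ => hR j, ?_, fun y hy hyP hyR => ?_⟩
  · intro h
    obtain ⟨j, -, hj⟩ := (Ideal.IsPrime.prod_mem_iff (p := P)).1 h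
    exact hRP j hj
  · obtain ⟨j, hj⟩ := Function.ne_iff.1 hy
    rw [map_prod]
    exact Finset.prod_eq_zero (Finset.mem_univ j) (hRy j y hj hyP hyR)

end Pool.Agent.H19OL

end
end

section

/-!
# Qup Rel: the equations of the coordinates of a point over its image
-/

set_option autoImplicit false

open MvPolynomial

noncomputable section

namespace Pool.Agent.H7.Qup

open Pool.Agent.H17 (PN VanishesAt)
open Pool.Agent.H17GT (coordFun functionField)
open Pool.Agent.H17LG.Variety (FunField ratio)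
open Pool.Agent.H62.FC (Homog)
open Pool.Agent.H17R (gen gen_eq_zero_iff ratio_self coordFun_ne_zero_iff)
open Pool.Agent.H7.Bir (aeval_comp aeval_div funIso exists_quot vals rmap)
open Pool.Agent.H19OL (alg_of_trdeg adjoin_self)

variable {N M : ℕ}

/-- The equation of the ratio `X i / X j` over the function field of the image. -/
theorem exists_eq_aux {P : Ideal (MvPolynomial (Fin (N + 1)) ℂ)} [P.IsPrime] {P' : Ideal (MvPolynomial (Fin (M + 1)) ℂ)}
    [P'.IsPrime] {k : ℕ} {z : Fin k → FunField P} (hz : IsTranscendenceBasis ℂ z) {z' : Fin k → FunField P'}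
    (hz' : IsTranscendenceBasis ℂ z') {D : ℕ} {γ : Fin (N + 1) → MvPolynomial (Fin (M + 1)) ℂ} (hγ : ∀ i, (γ i).IsHomogeneous D)
    (hmaps : ∀ n Q, Q.IsHomogeneous n → (aeval γ Q ∈ P' ↔ Q ∈ P)) {i₀ : Fin (N + 1)} (hi₀ : X i₀ ∉ P)
    {j : Fin (M + 1)} (hj : X j ∉ P') (i : Fin (M + 1)) :
    ∃ (m D₁ : ℕ) (α : Fin (m + 1) → MvPolynomial (Fin (N + 1)) ℂ), (∀ l, (α l).IsHomogeneous D₁) ∧ α (Fin.last m) ∉ P ∧
      ∑ l : Fin (m + 1), aeval γ (α l) * X i ^ (l : ℕ) * X j ^ (m - (l : ℕ)) ∈ P' := by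
  have hcj : coordFun P' j ≠ 0 := coordFun_ne_zero_iff.2 hj
  set η : Fin (M + 1) → FunField P' := fun i => ratio P' i j with hη
  have hη1 : η j = 1 := ratio_self hcj
  have hγ₀ : γ i₀ ∉ P' := by
    intro h
    apply hi₀
    rw [← hmaps 1 _ (isHomogeneous_X ℂ i₀), aeval_X]
    exact h
  have hc : aeval η (γ i₀) ≠ 0 := fun h0 => hγ₀ ((gen_eq_zero_iff hcj (hγ i₀)).1 h0)
  set x : Fin (N + 1) → FunField P' := fun i => aeval η (γ i) / aeval η (γ i₀) with hx
  have hx1 : x i₀ = 1 := div_self hc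
  have hcomp : ∀ (n : ℕ) (R : MvPolynomial (Fin (N + 1)) ℂ), R.IsHomogeneous n →
      aeval η (aeval γ R) = aeval η (γ i₀) ^ n * aeval x R := by
    intro n R hR
    rw [aeval_comp, aeval_div hR hc]
  have hker : ∀ (n : ℕ) (G : MvPolynomial (Fin (N + 1)) ℂ), G.IsHomogeneous n → (aeval x G = 0 ↔ G ∈ P) := by
    intro n G hG
    rw [← hmaps n G hG, ← gen_eq_zero_iff hcj (hG.aeval γ hγ)]
    change _ ↔ aeval η (aeval γ G) = 0
    rw [hcomp n G hG, mul_eq_zero]
    exact ⟨Or.inr, fun h => h.resolve_left (pow_ne_zero _ hc)⟩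
  -- the subfield generated by the coordinates of the image
  set F : IntermediateField ℂ (FunField P') := IntermediateField.adjoin ℂ (Set.range x) with hF
  set x' : Fin (N + 1) → F := fun i => ⟨x i, IntermediateField.subset_adjoin ℂ _ ⟨i, rfl⟩⟩ with hx'
  have hadj : IntermediateField.adjoin ℂ (Set.range x') = ⊤ := adjoin_self x
  have hval : ∀ G : MvPolynomial (Fin (N + 1)) ℂ, ((aeval x' G : F) : FunField P') = aeval x G := by
    intro G
    have h1 := DFunLike.congr_fun (MvPolynomial.comp_aeval x' F.val) G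
    exact h1
  have hx'1 : x' i₀ = 1 := Subtype.ext hx1
  obtain ⟨e⟩ := funIso (coordFun_ne_zero_iff.2 hi₀) hx'1 hadj fun n G hG => by
    rw [← hker n G hG, ← hval G]
    exact Subtype.ext_iff
  have halg : Algebra.IsAlgebraic F (FunField P') := alg_of_trdeg (e.isTranscendenceBasis hz) hz'
  -- the equation
  set s : FunField P' := η i with hs
  have hint : IsIntegral F s := (halg.isAlgebraic s).isIntegral
  set p := minpoly F s with hp
  set m := p.natDegree with hm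
  obtain ⟨D₁, α, hα, hα0, hα1⟩ := exists_quot hx'1 hadj (fun i : Fin (m + 1) => p.coeff (i : ℕ)) (j' := Fin.last m) (by
    have h1 := minpoly.monic hint
    exact h1)
  have hα0' : aeval x (α (Fin.last m)) ≠ 0 := by
    rw [← hval]
    exact fun h => hα0 (Subtype.ext h)
  have hrel : ∑ i : Fin (m + 1), aeval x (α i) * s ^ (i : ℕ) = 0 := by
    have h1 := minpoly.aeval F s
    rw [Polynomial.aeval_eq_sum_range, ← Fin.sum_univ_eq_sum_range (fun i => p.coeff i • s ^ i)] at h1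
    have h2 : ∀ i : Fin (m + 1), aeval x (α i) * s ^ (i : ℕ) = aeval x (α (Fin.last m)) * (p.coeff (i : ℕ) • s ^ (i : ℕ)) := by
      intro i
      have h3 := congrArg (fun t : F => (t : FunField P')) (hα1 i)
      simp only [MulMemClass.coe_mul, hval] at h3
      rw [← h3, Algebra.smul_def]
      change _ = _ * (((p.coeff (i : ℕ) : F) : FunField P') * _)
      ring
    have h4 : ∑ i : Fin (m + 1), aeval x (α (Fin.last m)) * (p.coeff (i : ℕ) • s ^ (i : ℕ)) =
        aeval x (α (Fin.last m)) * ∑ i : Fin (m + 1), p.coeff (i : ℕ) • s ^ (i : ℕ) := (Finset.mul_sum _ _ _).symm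
    rw [Finset.sum_congr rfl fun i _ => h2 i, h4, h1, mul_zero]
  refine ⟨m, D₁, α, hα, fun h => hα0' ((hker D₁ _ (hα _)).2 h), ?_⟩
  -- the form
  set G : MvPolynomial (Fin (M + 1)) ℂ := ∑ l : Fin (m + 1), aeval γ (α l) * X i ^ (l : ℕ) * X j ^ (m - (l : ℕ)) with hG
  have hGhom : G.IsHomogeneous (D * D₁ + m) := by
    refine IsHomogeneous.sum _ _ _ fun l _ => ?_
    have h1 := ((((hα l).aeval γ hγ).mul ((isHomogeneous_X ℂ i).pow (l : ℕ))).mul ((isHomogeneous_X ℂ j).pow (m - l)))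
    have h2 : D * D₁ + 1 * (l : ℕ) + 1 * (m - l) = D * D₁ + m := by
      have h3 : (l : ℕ) ≤ m := Nat.lt_succ_iff.1 l.2
      omega
    rw [h2] at h1
    exact h1
  rw [← gen_eq_zero_iff hcj hGhom]
  change aeval η G = 0
  rw [hG, map_sum]
  have h1 : ∀ l : Fin (m + 1), aeval η (aeval γ (α l) * X i ^ (l : ℕ) * X j ^ (m - (l : ℕ))) =
      aeval η (γ i₀) ^ D₁ * (aeval x (α l) * s ^ (l : ℕ)) := by
    intro l
    rw [map_mul, map_mul, map_pow, map_pow, aeval_X, aeval_X, hη1, one_pow, mul_one, hcomp D₁ _ (hα l)]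
    ring
  have h2 : ∑ l : Fin (m + 1), aeval η (γ i₀) ^ D₁ * (aeval x (α l) * s ^ (l : ℕ)) =
      aeval η (γ i₀) ^ D₁ * ∑ l : Fin (m + 1), aeval x (α l) * s ^ (l : ℕ) := (Finset.mul_sum _ _ _).symm
  rw [Finset.sum_congr rfl fun l _ => h1 l, h2, hrel, mul_zero]

variable {P : Ideal (MvPolynomial (Fin (N + 1)) ℂ)} {P' : Ideal (MvPolynomial (Fin (M + 1)) ℂ)} {s s' : ℕ}
  {G : Fin s → MvPolynomial (Fin (N + 1)) ℂ} {G' : Fin s' → MvPolynomial (Fin (M + 1)) ℂ} {p : PN M → PN N}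

end Pool.Agent.H7.Qup

end
end
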