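import Pool.Agent.H18.GGT.M04
import Pool.Agent.H18.GGT.M08
import Pool.Agent.H18.GGT.M11
import Pool.Agent.H18.GGT.M23

/-! The parts of this file: GB.Dex, H36.BP.SubC, GG.Kd.Int, H68.KR.FT. -/

section

/-!
# GB Dex: derivations of rational function fields

PROOF.  Characteristic `0`: `F = K (t_1, …, t_d)`.  A transcendence basis of `K` and the `t_j` are a transcendence basis of `F`, `H23.exists_basis_kaehler`, and a
derivation of `K` is determined by its values on a transcendence basis.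
-/

set_option autoImplicit false

open MvPolynomial

namespace Pool.Agent.GB

/-- A derivation of `K` is determined by its values on a transcendence basis. -/
private theorem der_ext {K : Type} [Field K] [Algebra ℂ K] {k : ℕ} {z : Fin k → K} (hz : IsTranscendenceBasis ℂ z) {M : Type} [AddCommGroup M]
    [Module ℂ M] [Module K M] [IsScalarTower ℂ K M] (δ δ' : Derivation ℂ K M) (h : ∀ i, δ (z i) = δ' (z i)) : δ = δ' := by
  obtain ⟨b, hb⟩ := Pool.Agent.H23.exists_basis_kaehler hz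
  have h1 : δ.liftKaehlerDifferential = δ'.liftKaehlerDifferential := by
    apply b.ext
    intro i
    rw [hb, Derivation.liftKaehlerDifferential_comp_D, Derivation.liftKaehlerDifferential_comp_D, h]
  ext x
  rw [← δ.liftKaehlerDifferential_comp_D, ← δ'.liftKaehlerDifferential_comp_D, h1]

theorem exists_der {K : Type} [Field K] [Algebra ℂ K] {k : ℕ} {z : Fin k → K} (hz : IsTranscendenceBasis ℂ z) {d : ℕ}
    (δ : Derivation ℂ K (FractionRing (MvPolynomial (Fin d) K))) (W : Fin d → FractionRing (MvPolynomial (Fin d) K)) :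
    ∃ D : Derivation ℂ (FractionRing (MvPolynomial (Fin d) K)) (FractionRing (MvPolynomial (Fin d) K)),
      (∀ f : K, D (algebraMap K _ f) = δ f) ∧ ∀ j, D (algebraMap (MvPolynomial (Fin d) K) _ (X j)) = W j := by
  have h1 : IsTranscendenceBasis K (X : Fin d → MvPolynomial (Fin d) K) := IsTranscendenceBasis.mvPolynomial (Fin d) K
  have h0 : Algebra.IsAlgebraic (MvPolynomial (Fin d) K) (FractionRing (MvPolynomial (Fin d) K)) :=
    IsLocalization.isAlgebraic _ (nonZeroDivisors (MvPolynomial (Fin d) K))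
  have h2 : IsTranscendenceBasis K (algebraMap (MvPolynomial (Fin d) K) (FractionRing (MvPolynomial (Fin d) K)) ∘ (X : Fin d → MvPolynomial (Fin d) K)) :=
    h1.algebraMap_comp
  have h3 := hz.sumElim_comp h2
  obtain ⟨b, hb⟩ := Pool.Agent.H23.exists_basis_kaehler h3
  let L : Ω[FractionRing (MvPolynomial (Fin d) K)⁄ℂ] →ₗ[FractionRing (MvPolynomial (Fin d) K)] FractionRing (MvPolynomial (Fin d) K) :=
    b.constr ℕ (Sum.elim W fun i => δ (z i))
  let D : Derivation ℂ (FractionRing (MvPolynomial (Fin d) K)) (FractionRing (MvPolynomial (Fin d) K)) :=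
    L.compDer (KaehlerDifferential.D ℂ (FractionRing (MvPolynomial (Fin d) K)))
  have hD : ∀ r, D (Sum.elim (algebraMap (MvPolynomial (Fin d) K) (FractionRing (MvPolynomial (Fin d) K)) ∘ X) (algebraMap K (FractionRing (MvPolynomial (Fin d) K)) ∘ z) r) =
      Sum.elim W (fun i => δ (z i)) r := by
    intro r
    change L (KaehlerDifferential.D ℂ (FractionRing (MvPolynomial (Fin d) K)) _) = _
    rw [← hb, Module.Basis.constr_basis]
  refine ⟨D, fun f => ?_, fun j => hD (Sum.inl j)⟩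
  have h4 : D.compAlgebraMap K = δ := by
    apply der_ext hz
    intro i
    exact hD (Sum.inr i)
  rw [← h4]
  rfl

end Pool.Agent.GB

end

section

/-!
# BP SubC: norms and wedge norms of holomorphic curves

* `norm_rpow`: `x₀ = F z₀`, `α z = ⟨x₀, F z⟩/|x₀|²` (holomorphic), `W = F - α x₀ ⊥ x₀`, `|F|² = |α|²|x₀|² + |W|²`, `W z = (z - z₀)(W₁ + o(1))`,
  `|W₁| = wd x₀ F'(z₀)/|x₀|`; so `|F|^a = |α x₀|^a (1 + |W|²/|α x₀|²)^(a/2)` and `log(1+y) ~ y`; exponent `(a/2)|W₁|²/|x₀|² = a e²/2`, `e = fs x₀ F'(z₀)`.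
  Valid for every real `a` (for `a < 0`: `(1+y)^(a/2) ≥ exp(a y/2)`).
* `wedge`: `wd_norming` at `z₀`, `h z = ⟨a,F⟩⟨b,F'⟩ - ⟨b,F⟩⟨a,F'⟩` is holomorphic, `|h| ≤ wd F F'` (`gram_proj`), equality at `z₀`.
* `fs_curve`: `fs F F' = wd F F' * ‖F‖^(-2)`: exponent `0 - e²`.
-/

set_option autoImplicit false

namespace Pool.Agent.H36.BP

open Filter Topology Metric

variable {N : ℕ}

/-- the coefficient of the projection of `v` to the line of `x` -/
private noncomputable def SubC_c (x v : EN N) : ℂ := (((‖x‖ ^ 2 : ℝ) : ℂ))⁻¹ * inner ℂ x v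

/-- the projection orthogonal to `x` -/
private noncomputable def SubC_P (x : EN N) : EN N →L[ℂ] EN N :=
  ContinuousLinearMap.id ℂ (EN N) - (((((‖x‖ ^ 2 : ℝ) : ℂ))⁻¹) • innerSL ℂ x).smulRight x

private theorem SubC_P_apply (x v : EN N) : SubC_P x v = v - SubC_c x v • x := by
  simp [SubC_P, SubC_c]

private theorem SubC_inner {F : ℂ → EN N} {z₀ : ℂ} (hF : AnalyticAt ℂ F z₀) (x : EN N) :
    AnalyticAt ℂ (fun z => (innerSL ℂ x) (F z)) z₀ :=
  ((innerSL ℂ x).analyticAt (F z₀)).comp hF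

private theorem SubC_self {x : EN N} (hx : x ≠ 0) : SubC_c x x = 1 := by
  unfold SubC_c
  rw [inner_self_eq_norm_sq_to_K]
  have h : (((‖x‖ ^ 2 : ℝ) : ℂ)) ≠ 0 := by
    have := norm_ne_zero_iff.mpr hx
    exact_mod_cast pow_ne_zero 2 this
  have h2 : ((‖x‖ : ℂ)) ^ 2 = (((‖x‖ ^ 2 : ℝ) : ℂ)) := by push_cast; rfl
  show (((‖x‖ ^ 2 : ℝ) : ℂ))⁻¹ * ((‖x‖ : ℂ)) ^ 2 = 1
  rw [h2, inv_mul_cancel₀ h]

private theorem SubC_orth {x : EN N} (hx : x ≠ 0) (v : EN N) :
    inner ℂ x (SubC_P x v) = (0 : ℂ) := by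
  rw [SubC_P_apply, inner_sub_right, inner_smul_right]
  have h1 := SubC_self hx
  unfold SubC_c at h1 ⊢
  have h3 : (((‖x‖ ^ 2 : ℝ) : ℂ))⁻¹ * inner ℂ x v * inner ℂ x x =
      inner ℂ x v * ((((‖x‖ ^ 2 : ℝ) : ℂ))⁻¹ * inner ℂ x x) := by ring
  rw [h3, h1, mul_one, sub_self]

private theorem SubC_norm {x : EN N} (hx : x ≠ 0) (v : EN N) :
    ‖v‖ ^ 2 = ‖SubC_c x v‖ ^ 2 * ‖x‖ ^ 2 + ‖SubC_P x v‖ ^ 2 := by
  have h1 : inner ℂ (SubC_c x v • x) (SubC_P x v) = (0 : ℂ) := by
    rw [inner_smul_left, SubC_orth hx, mul_zero]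
  have h2 := norm_add_sq_eq_norm_sq_add_norm_sq_of_inner_eq_zero _ _ h1
  have h3 : SubC_c x v • x + SubC_P x v = v := by rw [SubC_P_apply]; abel
  rw [h3, norm_smul] at h2
  nlinarith [h2]

private theorem SubC_wd {x : EN N} (hx : x ≠ 0) (v : EN N) :
    wd x v ^ 2 = ‖x‖ ^ 2 * ‖SubC_P x v‖ ^ 2 := by
  rw [wd_sq]
  have h1 := SubC_norm hx v
  have hn : 0 < ‖x‖ := norm_pos_iff.mpr hx
  have h2 : ‖SubC_c x v‖ = (‖x‖ ^ 2)⁻¹ * ‖(inner ℂ x v : ℂ)‖ := by
    unfold SubC_c
    rw [norm_mul, norm_inv, Complex.norm_real, Real.norm_of_nonneg (by positivity)]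
  rw [h2] at h1
  have h3 : ((‖x‖ ^ 2)⁻¹ * ‖(inner ℂ x v : ℂ)‖) ^ 2 * ‖x‖ ^ 2 * ‖x‖ ^ 2 =
      ‖(inner ℂ x v : ℂ)‖ ^ 2 := by field_simp
  have h4 : ‖x‖ ^ 2 * ‖v‖ ^ 2 = ((‖x‖ ^ 2)⁻¹ * ‖(inner ℂ x v : ℂ)‖) ^ 2 * ‖x‖ ^ 2 * ‖x‖ ^ 2 +
      ‖x‖ ^ 2 * ‖SubC_P x v‖ ^ 2 := by rw [h1]; ring
  rw [h4, h3]
  ring

private theorem SubC_fs {x : EN N} (hx : x ≠ 0) (v : EN N) :
    fs x v ^ 2 = ‖SubC_P x v‖ ^ 2 / ‖x‖ ^ 2 := by
  have hn : 0 < ‖x‖ := norm_pos_iff.mpr hx
  unfold fs
  rw [div_pow, SubC_wd hx]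
  field_simp

theorem Sub.norm_rpow {F : ℂ → EN N} {z₀ : ℂ} (hF : AnalyticAt ℂ F z₀) (h0 : F z₀ ≠ 0) (a : ℝ) :
    Sub (fun z => ‖F z‖ ^ a) z₀ (a * fs (F z₀) (deriv F z₀) ^ 2 / 2) := by
  obtain ⟨x₀, hx₀⟩ : ∃ x₀, x₀ = F z₀ := ⟨_, rfl⟩
  rw [← hx₀] at h0 ⊢
  have hn : 0 < ‖x₀‖ := norm_pos_iff.mpr h0
  obtain ⟨α, hα⟩ : ∃ α : ℂ → ℂ, ∀ z, α z = SubC_c x₀ (F z) := ⟨_, fun _ => rfl⟩
  obtain ⟨W, hW⟩ : ∃ W : ℂ → EN N, ∀ z, W z = SubC_P x₀ (F z) := ⟨_, fun _ => rfl⟩
  have hαan : AnalyticAt ℂ α z₀ := by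
    have h1 : α = fun z => (((‖x₀‖ ^ 2 : ℝ) : ℂ))⁻¹ * (innerSL ℂ x₀) (F z) := by
      funext z
      rw [hα]
      rfl
    rw [h1]
    exact analyticAt_const.mul (SubC_inner hF x₀)
  have hα0 : α z₀ = 1 := by rw [hα, ← hx₀, SubC_self h0]
  have hW0 : W z₀ = 0 := by
    rw [hW, ← hx₀, SubC_P_apply, SubC_self h0, one_smul, sub_self]
  have hWd : HasDerivAt W (SubC_P x₀ (deriv F z₀)) z₀ := by
    have h1 := (SubC_P x₀).hasFDerivAt.comp_hasDerivAt z₀ hF.differentiableAt.hasDerivAt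
    have h2 : W = (SubC_P x₀) ∘ F := by
      funext z
      exact hW z
    rw [h2]
    exact h1
  obtain ⟨y, hy⟩ : ∃ y : ℂ → ℝ, ∀ z, y z = ‖W z‖ ^ 2 / (‖α z‖ ^ 2 * ‖x₀‖ ^ 2) :=
    ⟨_, fun _ => rfl⟩
  have hαt : Tendsto α (𝓝 z₀) (𝓝 1) := by
    have := hαan.continuousAt.tendsto
    rwa [hα0] at this
  have hαne : ∀ᶠ z in 𝓝 z₀, α z ≠ 0 := hαt.eventually_ne one_ne_zero
  have hden : Tendsto (fun z => ‖α z‖ ^ 2 * ‖x₀‖ ^ 2) (𝓝 z₀) (𝓝 (‖x₀‖ ^ 2)) := by
    have h1 := (hαt.norm.pow 2).mul_const (‖x₀‖ ^ 2)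
    rw [norm_one, one_pow, one_mul] at h1
    exact h1
  have hsq : ‖x₀‖ ^ 2 ≠ 0 := by positivity
  have hyt : Tendsto y (𝓝 z₀) (𝓝 0) := by
    have h1 : Tendsto (fun z => ‖W z‖ ^ 2) (𝓝 z₀) (𝓝 0) := by
      have h2 := (hWd.continuousAt.tendsto.norm.pow 2)
      rw [hW0, norm_zero] at h2
      simpa using h2
    have h3 := h1.div hden hsq
    rw [zero_div] at h3
    exact h3.congr fun z => (hy z).symm
  have hyq : Tendsto (fun z => y z / ‖z - z₀‖ ^ 2) (𝓝[≠] z₀)
      (𝓝 (fs x₀ (deriv F z₀) ^ 2)) := by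
    have h1 := hWd.tendsto_slope
    have h2 := (h1.norm.pow 2).div (hden.mono_left nhdsWithin_le_nhds) hsq
    rw [SubC_fs h0]
    refine h2.congr' ?_
    filter_upwards [self_mem_nhdsWithin] with z hz
    have hz' : z - z₀ ≠ 0 := sub_ne_zero.mpr hz
    show ‖slope W z₀ z‖ ^ 2 / (‖α z‖ ^ 2 * ‖x₀‖ ^ 2) = y z / ‖z - z₀‖ ^ 2
    rw [hy, slope_def_module, hW0, sub_zero, norm_smul, norm_inv]
    have h3 : ‖z - z₀‖ ≠ 0 := norm_ne_zero_iff.mpr hz'
    rw [mul_pow, inv_pow]
    simp only [div_eq_mul_inv]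
    ring
  have hy0 : ∀ z, 0 ≤ y z := fun z => by rw [hy]; positivity
  -- the lower bound of the logarithm
  have hlog : ∀ c' : ℝ, c' < a * fs x₀ (deriv F z₀) ^ 2 / 2 →
      ∀ᶠ z in 𝓝 z₀, c' * ‖z - z₀‖ ^ 2 ≤ a / 2 * Real.log (1 + y z) := by
    intro c' hc'
    have hmain : ∀ᶠ z in 𝓝[≠] z₀, c' * ‖z - z₀‖ ^ 2 ≤ a / 2 * Real.log (1 + y z) := by
      rcases le_or_gt 0 a with ha | ha
      · have h1 : Tendsto (fun z => a / 2 * (y z / ‖z - z₀‖ ^ 2 / (1 + y z))) (𝓝[≠] z₀)
            (𝓝 (a / 2 * (fs x₀ (deriv F z₀) ^ 2 / (1 + 0)))) :=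
          (hyq.div ((hyt.mono_left nhdsWithin_le_nhds).const_add 1) (by norm_num)).const_mul _
        have h2 : c' < a / 2 * (fs x₀ (deriv F z₀) ^ 2 / (1 + 0)) := by
          rw [add_zero, div_one]; linarith
        filter_upwards [h1.eventually_const_lt h2, self_mem_nhdsWithin] with z hz hz'
        have h3 : 0 < ‖z - z₀‖ := norm_pos_iff.mpr (sub_ne_zero.mpr hz')
        have h4 : 0 < 1 + y z := by linarith [hy0 z]
        have h5 : y z / (1 + y z) ≤ Real.log (1 + y z) := by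
          have h6 := Real.one_sub_inv_le_log_of_pos h4
          have h7 : 1 - (1 + y z)⁻¹ = y z / (1 + y z) := by field_simp; ring
          rwa [h7] at h6
        have h8 : c' * ‖z - z₀‖ ^ 2 ≤ a / 2 * (y z / (1 + y z)) := by
          have h9 := mul_le_mul_of_nonneg_right hz.le (sq_nonneg ‖z - z₀‖)
          have h10 : a / 2 * (y z / ‖z - z₀‖ ^ 2 / (1 + y z)) * ‖z - z₀‖ ^ 2 =
              a / 2 * (y z / (1 + y z)) := by field_simp
          rwa [h10] at h9
        exact h8.trans (mul_le_mul_of_nonneg_left h5 (by linarith))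
      · have h1 : Tendsto (fun z => a / 2 * (y z / ‖z - z₀‖ ^ 2)) (𝓝[≠] z₀)
            (𝓝 (a / 2 * fs x₀ (deriv F z₀) ^ 2)) := hyq.const_mul _
        have h2 : c' < a / 2 * fs x₀ (deriv F z₀) ^ 2 := by linarith
        filter_upwards [h1.eventually_const_lt h2, self_mem_nhdsWithin] with z hz hz'
        have h3 : 0 < ‖z - z₀‖ := norm_pos_iff.mpr (sub_ne_zero.mpr hz')
        have h4 : 0 < 1 + y z := by linarith [hy0 z]
        have h5 : Real.log (1 + y z) ≤ y z := by
          have h6 := Real.log_le_sub_one_of_pos h4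
          linarith
        have h8 : c' * ‖z - z₀‖ ^ 2 ≤ a / 2 * y z := by
          have h9 := mul_le_mul_of_nonneg_right hz.le (sq_nonneg ‖z - z₀‖)
          have h10 : a / 2 * (y z / ‖z - z₀‖ ^ 2) * ‖z - z₀‖ ^ 2 = a / 2 * y z := by field_simp
          rwa [h10] at h9
        refine h8.trans ?_
        exact mul_le_mul_of_nonpos_left h5 (by linarith)
    have h2 : ∀ᶠ z in 𝓝 z₀, z ∈ ({z₀}ᶜ : Set ℂ) →
        c' * ‖z - z₀‖ ^ 2 ≤ a / 2 * Real.log (1 + y z) :=
      eventually_nhdsWithin_iff.mp hmain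
    filter_upwards [h2] with z hz
    by_cases h3 : z = z₀
    · subst h3
      rw [hy, hW0]
      simp
    · exact hz h3
  refine ⟨?_, fun c' hc' => ⟨fun z => ((‖x₀‖ ^ a : ℝ) : ℂ) * (α z) ^ (a : ℂ), ?_, ?_, ?_⟩⟩
  · show 0 < ‖F z₀‖ ^ a
    rw [← hx₀]
    exact Real.rpow_pos_of_pos hn a
  · refine analyticAt_const.mul (hαan.cpow analyticAt_const ?_)
    rw [hα0]
    exact Complex.one_mem_slitPlane
  · show ‖((‖x₀‖ ^ a : ℝ) : ℂ) * (α z₀) ^ (a : ℂ)‖ = ‖F z₀‖ ^ a
    rw [← hx₀, hα0, Complex.one_cpow, mul_one, Complex.norm_real,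
      Real.norm_of_nonneg (Real.rpow_nonneg hn.le a)]
  · filter_upwards [hlog c' hc', hαne] with z hz hz'
    have hα1 : 0 < ‖α z‖ := norm_pos_iff.mpr hz'
    have h1 : ‖((‖x₀‖ ^ a : ℝ) : ℂ) * (α z) ^ (a : ℂ)‖ = (‖α z‖ * ‖x₀‖) ^ a := by
      rw [norm_mul, Complex.norm_real, Real.norm_of_nonneg (Real.rpow_nonneg hn.le a),
        Complex.norm_cpow_of_ne_zero hz']
      simp only [Complex.ofReal_re, Complex.ofReal_im, mul_zero, Real.exp_zero, div_one]
      rw [Real.mul_rpow hα1.le hn.le, mul_comm]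
    have h4 : 0 < 1 + y z := by linarith [hy0 z]
    have h2 : ‖F z‖ ^ 2 = (‖α z‖ * ‖x₀‖) ^ 2 * (1 + y z) := by
      rw [SubC_norm h0 (F z), ← hα, ← hW, hy]
      field_simp
    have h3 : ‖F z‖ = (‖α z‖ * ‖x₀‖) * Real.sqrt (1 + y z) := by
      have h5 : ‖F z‖ = Real.sqrt (‖F z‖ ^ 2) := (Real.sqrt_sq (norm_nonneg _)).symm
      rw [h5, h2, Real.sqrt_mul (by positivity), Real.sqrt_sq (by positivity)]
    have h5 : ‖F z‖ ^ a = (‖α z‖ * ‖x₀‖) ^ a * Real.exp (a / 2 * Real.log (1 + y z)) := by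
      rw [h3, Real.mul_rpow (by positivity) (Real.sqrt_nonneg _)]
      congr 1
      rw [Real.sqrt_eq_rpow, ← Real.rpow_mul h4.le, Real.rpow_def_of_pos h4]
      congr 1
      ring
    show ‖((‖x₀‖ ^ a : ℝ) : ℂ) * (α z) ^ (a : ℂ)‖ * Real.exp (c' * ‖z - z₀‖ ^ 2) ≤ ‖F z‖ ^ a
    rw [h1, h5]
    exact mul_le_mul_of_nonneg_left (Real.exp_le_exp.mpr hz) (Real.rpow_nonneg (by positivity) a)

theorem Sub.wedge {F : ℂ → EN N} {z₀ : ℂ} (hF : AnalyticAt ℂ F z₀) (h0 : 0 < wd (F z₀) (deriv F z₀)) :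
    Sub (fun z => wd (F z) (deriv F z)) z₀ 0 := by
  obtain ⟨a, b, ha, hb, hab, h1⟩ := wd_norming h0
  refine ⟨h0, fun c' hc' => ⟨fun z => (innerSL ℂ a) (F z) * (innerSL ℂ b) (deriv F z) -
    (innerSL ℂ b) (F z) * (innerSL ℂ a) (deriv F z), ?_, h1, ?_⟩⟩
  · have hd := hF.deriv
    exact ((SubC_inner hF a).mul (SubC_inner hd b)).sub ((SubC_inner hF b).mul (SubC_inner hd a))
  · refine Filter.Eventually.of_forall fun z => ?_
    have h2 := gram_proj ha hb hab (F z) (deriv F z)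
    have h3 : Real.exp (c' * ‖z - z₀‖ ^ 2) ≤ 1 := by
      rw [Real.exp_le_one_iff]
      exact mul_nonpos_of_nonpos_of_nonneg hc'.le (sq_nonneg _)
    refine le_trans ?_ h2
    calc ‖(innerSL ℂ a) (F z) * (innerSL ℂ b) (deriv F z) -
          (innerSL ℂ b) (F z) * (innerSL ℂ a) (deriv F z)‖ * Real.exp (c' * ‖z - z₀‖ ^ 2)
        ≤ ‖(innerSL ℂ a) (F z) * (innerSL ℂ b) (deriv F z) -
          (innerSL ℂ b) (F z) * (innerSL ℂ a) (deriv F z)‖ * 1 :=
          mul_le_mul_of_nonneg_left h3 (norm_nonneg _)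
      _ = _ := mul_one _

theorem Sub.fs_curve {F : ℂ → EN N} {z₀ : ℂ} (hF : AnalyticAt ℂ F z₀) (h0 : 0 < fs (F z₀) (deriv F z₀)) :
    Sub (fun z => fs (F z) (deriv F z)) z₀ (-(fs (F z₀) (deriv F z₀)) ^ 2) := by
  have hx : F z₀ ≠ 0 := by
    intro h
    unfold fs at h0
    rw [h, norm_zero] at h0
    simp at h0
  have hw : 0 < wd (F z₀) (deriv F z₀) := by
    refine lt_of_le_of_ne (wd_nonneg _ _) fun h => ?_
    unfold fs at h0
    rw [← h, zero_div] at h0
    exact lt_irrefl _ h0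
  have h1 := (Sub.wedge hF hw).mul (Sub.norm_rpow hF hx (-2))
  have h2 : (0 : ℝ) + -2 * fs (F z₀) (deriv F z₀) ^ 2 / 2 = -(fs (F z₀) (deriv F z₀)) ^ 2 := by
    ring
  rw [h2] at h1
  refine h1.congr (Filter.Eventually.of_forall fun z => ?_)
  show wd (F z) (deriv F z) * ‖F z‖ ^ (-2 : ℝ) = fs (F z) (deriv F z)
  unfold fs
  rw [Real.rpow_neg (norm_nonneg _), div_eq_mul_inv]
  norm_num

end Pool.Agent.H36.BP

end

section

/-!
# GG Kd Int: an element which is regular along all prime divisors over `Spec ℂ[t]` is integral over `ℂ[t]`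

For every `i` the integral closure of `k[t i]`, `k = ℂ(t j : j ≠ i)`, in `K` is a Dedekind domain (finite extension of a principal ideal domain), and its
height one primes give prime divisors; so `c` is integral over `k[t i]` (`Int_place`), and `E c` is integral over `ℂ[t]` for some `E ≠ 0` which does not
contain the variable `t i` (`Int_clear`).  `Int_ufd`: then `c` is integral over `ℂ[t]` (minimal polynomials, unique factorisation).
-/

set_option autoImplicit false

open MvPolynomial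
open Pool.Agent.H23.Fano (Form regularForms PrimeDivisorOver)

noncomputable section

namespace Pool.Agent.GG.Kd

/-! ## one variable over a field -/

section Val

variable {k K : Type} [Field k] [Field K] [Algebra k K]

private theorem Int_pid (x : K) : IsPrincipalIdealRing (Algebra.adjoin k {x}) := by
  refine IsPrincipalIdealRing.of_surjective
    ((Polynomial.aeval (⟨x, Algebra.self_mem_adjoin_singleton k x⟩ : Algebra.adjoin k {x}) : Polynomial k →ₐ[k] Algebra.adjoin k {x}) :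
      Polynomial k →+* Algebra.adjoin k {x}) fun a => ?_
  obtain ⟨p, hp⟩ : (a : K) ∈ (Polynomial.aeval x : Polynomial k →ₐ[k] K).range := by
    rw [← Algebra.adjoin_singleton_eq_range_aeval]
    exact a.2
  refine ⟨p, Subtype.ext ?_⟩
  have h1 := (Polynomial.aeval_algebraMap_apply K (⟨x, Algebra.self_mem_adjoin_singleton k x⟩ : Algebra.adjoin k {x}) p).symm
  exact h1.trans hp

open scoped IntermediateField.algebraAdjoinAdjoin in
private theorem Int_val [CharZero k] (x : K) (hfin : FiniteDimensional (IntermediateField.adjoin k {x}) K) {c : K}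
    (hc : ¬ IsIntegral (Algebra.adjoin k {x}) c) :
    ∃ ord : AddValuation K (WithTop ℤ), (∃ u, ord u = 1) ∧ (∀ b, IsIntegral (Algebra.adjoin k {x}) b → 0 ≤ ord b) ∧
      (∀ b, 0 ≤ ord b → ∃ b₁ b₂, IsIntegral (Algebra.adjoin k {x}) b₁ ∧ IsIntegral (Algebra.adjoin k {x}) b₂ ∧ ord b₂ = 0 ∧ b * b₂ = b₁) ∧
      ord c < 0 := by
  have hpid : IsPrincipalIdealRing (Algebra.adjoin k {x}) := Int_pid x
  have hded : IsDedekindDomain (Algebra.adjoin k {x}) := inferInstance
  have hcz : CharZero (IntermediateField.adjoin k {x}) := charZero_of_injective_algebraMap (algebraMap k _).injective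
  have hsep : Algebra.IsSeparable (IntermediateField.adjoin k {x}) K :=
    Algebra.IsAlgebraic.isSeparable_of_perfectField
  have hC : IsDedekindDomain (integralClosure (Algebra.adjoin k {x}) K) :=
    integralClosure.isDedekindDomain (Algebra.adjoin k {x}) (IntermediateField.adjoin k {x}) K
  have hfr : IsFractionRing (integralClosure (Algebra.adjoin k {x}) K) K :=
    integralClosure.isFractionRing_of_finite_extension (IntermediateField.adjoin k {x}) K
  obtain ⟨v, hv⟩ : ∃ v : IsDedekindDomain.HeightOneSpectrum (integralClosure (Algebra.adjoin k {x}) K),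
      ¬ v.valuation K c ≤ 1 := by
    by_contra hcon
    push Not at hcon
    obtain ⟨y, hy⟩ := IsDedekindDomain.HeightOneSpectrum.mem_integers_of_valuation_le_one K c hcon
    refine hc ?_
    rw [← hy]
    exact y.2
  have hle : ∀ g : K, IsIntegral (Algebra.adjoin k {x}) g → v.valuation K g ≤ 1 := fun g hg =>
    v.valuation_le_one (K := K) (⟨g, hg⟩ : integralClosure (Algebra.adjoin k {x}) K)
  refine ⟨Pool.Agent.H62.FC.Place_add (v.valuation K), ?_, fun b hb => ?_, fun b hb => ?_, ?_⟩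
  · obtain ⟨π, hπ⟩ := v.valuation_exists_uniformizer K
    refine ⟨π, ?_⟩
    rw [Pool.Agent.H62.FC.Place_add_apply, hπ, Pool.Agent.H62.FC.Place_phi_exp]
    simp
  · rw [Pool.Agent.H62.FC.Place_add_apply, Pool.Agent.H62.FC.Place_phi_nonneg_iff]
    exact hle b hb
  · rw [Pool.Agent.H62.FC.Place_add_apply, Pool.Agent.H62.FC.Place_phi_nonneg_iff] at hb
    obtain ⟨m, d, hmd⟩ := v.exists_primeCompl_mul_eq_of_integer b hb
    refine ⟨(m : K), ((d : integralClosure (Algebra.adjoin k {x}) K) : K), m.2, (d : integralClosure (Algebra.adjoin k {x}) K).2, ?_, hmd⟩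
    have h1 : v.valuation K (algebraMap (integralClosure (Algebra.adjoin k {x}) K) K d) = 1 := v.valuation_eq_one_iff_notMem.2 d.2
    rw [Pool.Agent.H62.FC.Place_add_apply]
    have h2 : v.valuation K ((d : integralClosure (Algebra.adjoin k {x}) K) : K) = 1 := h1
    rw [h2, Pool.Agent.H62.FC.Place_phi_one]
  · rw [Pool.Agent.H62.FC.Place_add_apply]
    refine lt_of_not_ge fun h => hv ?_
    exact Pool.Agent.H62.FC.Place_phi_nonneg_iff.1 h

end Val

/-! ## unique factorisation -/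

section Ufd

variable {A K : Type} [CommRing A] [IsDomain A] [UniqueFactorizationMonoid A] [Field K] [Algebra A K] [FaithfulSMul A K]

private theorem Int_dvd {I : Type} {D U : A} {E : I → A} (hD : D ≠ 0) (hcop : ∀ D' : A, D' ≠ 0 → (∀ i, D' ∣ E i) → IsUnit D')
    (h : ∀ i, D ∣ U * E i) : D ∣ U := by
  obtain ⟨a', b', c', hrel, h1, h2⟩ := UniqueFactorizationMonoid.exists_reduced_factors D hD U
  have hc' : c' ≠ 0 := by
    rintro rfl
    exact hD (by rw [← h1, zero_mul])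
  have ha' : a' ≠ 0 := by
    rintro rfl
    exact hD (by rw [← h1, mul_zero])
  have h3 : ∀ i, a' ∣ E i := by
    intro i
    have h4 := h i
    rw [← h1, ← h2, mul_assoc] at h4
    exact hrel.dvd_of_dvd_mul_left ((mul_dvd_mul_iff_left hc').1 h4)
  obtain ⟨w, hw⟩ := hcop a' ha' h3
  rw [← h1, ← h2, ← hw]
  exact mul_dvd_mul_left c' (w.isUnit.dvd)

private theorem Int_ufd {I : Type} {c : K} {D : A} {E : I → A} (hD : D ≠ 0) (hDc : IsIntegral A (D • c)) (hE : ∀ i, E i ≠ 0)
    (hEc : ∀ i, IsIntegral A (E i • c)) (hcop : ∀ (D' : A) (m : ℕ), D' ≠ 0 → (∀ i, D' ∣ E i ^ m) → IsUnit D') : IsIntegral A c := by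
  have hinj : Function.Injective (algebraMap A K) := FaithfulSMul.algebraMap_injective A K
  obtain ⟨P, hP⟩ : ∃ P, P = minpoly A (D • c) := ⟨_, rfl⟩
  have hmon : P.Monic := hP ▸ minpoly.monic hDc
  have hkey : ∀ (i : I) (j : ℕ), D ^ (P.natDegree - j) ∣ P.coeff j * E i ^ (P.natDegree - j) := by
    intro i j
    have h1 : (minpoly A (D • c)).scaleRoots (E i) = (minpoly A (E i • c)).scaleRoots D := by
      rw [← IsIntegrallyClosed.minpoly_smul (hE i) hDc, ← IsIntegrallyClosed.minpoly_smul hD (hEc i), smul_comm]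
    rw [← hP] at h1
    have h2 : P.natDegree = (minpoly A (E i • c)).natDegree := by
      have := congrArg Polynomial.natDegree h1
      rwa [Polynomial.natDegree_scaleRoots, Polynomial.natDegree_scaleRoots] at this
    have h3 := congrArg (fun q => Polynomial.coeff q j) h1
    simp only [Polynomial.coeff_scaleRoots] at h3
    rw [h3, ← h2]
    exact dvd_mul_left _ _
  have hdvd : ∀ j, D ^ (P.natDegree - j) ∣ P.coeff j := fun j =>
    Int_dvd (pow_ne_zero _ hD) (fun D' h1 h2 => hcop D' _ h1 h2) (fun i => hkey i j)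
  choose q hq using hdvd
  -- the polynomial
  obtain ⟨Q, hQ⟩ : ∃ Q : Polynomial A, Q = Polynomial.X ^ P.natDegree + ∑ j ∈ Finset.range P.natDegree, Polynomial.C (q j) * Polynomial.X ^ j := ⟨_, rfl⟩
  have hQm : Q.Monic := by
    rw [hQ]
    refine Polynomial.monic_X_pow_add ?_
    refine (Polynomial.degree_sum_le _ _).trans_lt ?_
    rw [Finset.sup_lt_iff (by exact WithBot.bot_lt_coe _)]
    intro j hj
    refine (Polynomial.degree_C_mul_X_pow_le _ _).trans_lt ?_
    exact_mod_cast Finset.mem_range.1 hj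
  refine ⟨Q, hQm, ?_⟩
  have h1 : (algebraMap A K D) ^ P.natDegree * Polynomial.aeval c Q = Polynomial.aeval (D • c) P := by
    rw [hQ, map_add, map_sum, map_pow, Polynomial.aeval_X]
    conv_rhs => rw [Polynomial.aeval_eq_sum_range, Finset.sum_range_succ, hmon.coeff_natDegree, one_smul]
    rw [mul_add, add_comm, Finset.mul_sum]
    congr 1
    · refine Finset.sum_congr rfl fun j hj => ?_
      have h2 : P.natDegree = j + (P.natDegree - j) := by
        have := Finset.mem_range.1 hj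
        omega
      rw [map_mul, map_pow, Polynomial.aeval_X, Polynomial.aeval_C, Algebra.smul_def, Algebra.smul_def, hq j, map_mul, map_pow, mul_pow]
      conv_lhs => rw [h2, pow_add]
      ring
    · rw [Algebra.smul_def, mul_pow]
  have h2 : Polynomial.aeval (D • c) P = 0 := hP ▸ minpoly.aeval A (D • c)
  rw [h2] at h1
  have h3 : (algebraMap A K D) ^ P.natDegree ≠ 0 := pow_ne_zero _ ((map_ne_zero_iff _ hinj).2 hD)
  exact (mul_eq_zero.1 h1).resolve_left h3

end Ufd

/-! ## the rings -/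

section Main

variable {K : Type} [Field K] [Algebra ℂ K]

/-- integrality over the image of the polynomial ring -/
private theorem Int_iff {n : ℕ} {t : Fin n → K} (ht : AlgebraicIndependent ℂ t) {b : K} :
    IsIntegral (Algebra.adjoin ℂ (Set.range t)) b ↔ (aeval t : MvPolynomial (Fin n) ℂ →ₐ[ℂ] K).toRingHom.IsIntegralElem b := by
  constructor
  · intro h
    have h1 : (algebraMap (Algebra.adjoin ℂ (Set.range t)) K) =
        (aeval t : MvPolynomial (Fin n) ℂ →ₐ[ℂ] K).toRingHom.comp (ht.aevalEquiv.symm : Algebra.adjoin ℂ (Set.range t) →+* MvPolynomial (Fin n) ℂ) := by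
      ext a
      have h2 := ht.algebraMap_aevalEquiv (ht.aevalEquiv.symm a)
      rw [AlgEquiv.apply_symm_apply] at h2
      exact h2
    have h2 : (algebraMap (Algebra.adjoin ℂ (Set.range t)) K).IsIntegralElem b := h
    rw [h1] at h2
    exact h2.of_comp
  · intro h
    have h1 : (aeval t : MvPolynomial (Fin n) ℂ →ₐ[ℂ] K).toRingHom =
        (algebraMap (Algebra.adjoin ℂ (Set.range t)) K).comp (ht.aevalEquiv : MvPolynomial (Fin n) ℂ →+* Algebra.adjoin ℂ (Set.range t)) :=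
      RingHom.ext fun a => (ht.algebraMap_aevalEquiv a).symm
    rw [h1] at h
    exact h.of_comp

private theorem deg_zero {n : ℕ} {i : Fin n} {p : MvPolynomial (Fin n) ℂ} : degreeOf i p = 0 ↔ i ∉ p.vars := by
  classical
  rw [degreeOf_def, Multiset.count_eq_zero, vars_def, Multiset.mem_toFinset]

/-- the polynomials without the variable `i` -/
private def Mi {n : ℕ} (i : Fin n) : Submonoid (MvPolynomial (Fin n) ℂ) where
  carrier := {E | E ≠ 0 ∧ degreeOf i E = 0}
  one_mem' := ⟨one_ne_zero, by simp [degreeOf_one]⟩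
  mul_mem' := fun {a b} ha hb => ⟨mul_ne_zero ha.1 hb.1, by rw [degreeOf_mul_eq ha.1 hb.1, ha.2, hb.2]⟩

variable {m : ℕ} (t : Fin (m + 1) → K) (i : Fin (m + 1))

/-- the field generated by the other elements -/
private abbrev ki : IntermediateField ℂ K := IntermediateField.adjoin ℂ (Set.range (t ∘ i.succAbove))

/-- the polynomials in `t i` over it -/
private abbrev Ai : Subalgebra (ki t i) K := Algebra.adjoin (ki t i) {t i}

private theorem t_mem (j : Fin (m + 1)) : t j ∈ Ai t i := by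
  rcases eq_or_ne j i with rfl | hj
  · exact Algebra.self_mem_adjoin_singleton _ _
  · obtain ⟨l, rfl⟩ := Fin.exists_succAbove_eq hj
    have h1 : t (i.succAbove l) ∈ ki t i := IntermediateField.subset_adjoin _ _ ⟨l, rfl⟩
    exact (Ai t i).algebraMap_mem ⟨_, h1⟩

private theorem aeval_mem (p : MvPolynomial (Fin (m + 1)) ℂ) : aeval t p ∈ Ai t i := by
  induction p using MvPolynomial.induction_on with
  | C a =>
    rw [aeval_C]
    have h1 : algebraMap ℂ K a ∈ ki t i := (ki t i).algebraMap_mem a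
    exact (Ai t i).algebraMap_mem ⟨_, h1⟩
  | add p q hp hq => rw [map_add]; exact (Ai t i).add_mem hp hq
  | mul_X p j hp => rw [map_mul, aeval_X]; exact (Ai t i).mul_mem hp (t_mem t i j)

/-- polynomials without the variable `i` have values in the field -/
private theorem aeval_mem_ki {p : MvPolynomial (Fin (m + 1)) ℂ} (hp : degreeOf i p = 0) : aeval t p ∈ ki t i := by
  have h1 : p ∈ supported ℂ {j | j ≠ i} := by
    rw [mem_supported]
    intro j hj hji
    rw [hji] at hj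
    exact deg_zero.1 hp (Finset.mem_coe.1 hj)
  rw [supported] at h1
  clear hp
  induction h1 using Algebra.adjoin_induction with
  | mem x hx =>
    obtain ⟨j, hj, rfl⟩ := hx
    rw [aeval_X]
    obtain ⟨l, rfl⟩ := Fin.exists_succAbove_eq hj
    exact IntermediateField.subset_adjoin _ _ ⟨l, rfl⟩
  | algebraMap r => rw [AlgHom.commutes]; exact (ki t i).algebraMap_mem r
  | add x y _ _ hx hy => rw [map_add]; exact (ki t i).add_mem hx hy
  | mul x y _ _ hx hy => rw [map_mul]; exact (ki t i).mul_mem hx hy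

/-- the map of the polynomial ring into `Ai` -/
private def toAi : MvPolynomial (Fin (m + 1)) ℂ →+* Ai t i :=
  ((aeval t : MvPolynomial (Fin (m + 1)) ℂ →ₐ[ℂ] K) : MvPolynomial (Fin (m + 1)) ℂ →+* K).codRestrict (Ai t i) (aeval_mem t i)

private theorem ki_frac {a : K} (ha : a ∈ ki t i) : ∃ E ∈ Mi i, ∃ P : MvPolynomial (Fin (m + 1)) ℂ, aeval t E ≠ 0 ∧ a * aeval t E = aeval t P := by
  obtain ⟨u, hu, w, hw, rfl⟩ := IntermediateField.mem_adjoin_iff_div.1 ha
  have hex : ∀ u ∈ Algebra.adjoin ℂ (Set.range (t ∘ i.succAbove)), ∃ U : MvPolynomial (Fin (m + 1)) ℂ, degreeOf i U = 0 ∧ aeval t U = u := by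
    intro u hu
    rw [Algebra.adjoin_range_eq_range_aeval] at hu
    obtain ⟨U, hU⟩ := hu
    refine ⟨rename i.succAbove U, ?_, ?_⟩
    · rw [deg_zero]
      intro hi
      obtain ⟨l, _, hl⟩ := mem_vars_rename _ _ hi
      exact Fin.succAbove_ne i l hl
    · rw [aeval_rename]
      exact hU
  obtain ⟨U, _, hU⟩ := hex u hu
  obtain ⟨W, hW, hW'⟩ := hex w hw
  rcases eq_or_ne w 0 with h0 | h0
  · refine ⟨1, (Mi i).one_mem, 0, by simp, by simp [h0]⟩
  · have hW0 : W ≠ 0 := by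
      rintro rfl
      exact h0 (by rw [← hW', map_zero])
    exact ⟨W, ⟨hW0, hW⟩, U, by rw [hW']; exact h0, by rw [hW', hU, div_mul_cancel₀ _ h0]⟩

private theorem Ai_loc (ht : AlgebraicIndependent ℂ t) : @IsLocalization _ _ (Mi i) (Ai t i) _ (toAi t i).toAlgebra := by
  let _ : Algebra (MvPolynomial (Fin (m + 1)) ℂ) (Ai t i) := (toAi t i).toAlgebra
  have hinj : Function.Injective (aeval t : MvPolynomial (Fin (m + 1)) ℂ →ₐ[ℂ] K) := ht
  have hne : ∀ E : MvPolynomial (Fin (m + 1)) ℂ, E ≠ 0 → aeval t E ≠ 0 := fun E hE => (map_ne_zero_iff _ hinj).2 hE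
  refine ⟨⟨?_, ?_, ?_⟩⟩
  · rintro ⟨E, hE⟩
    have h1 : aeval t E ∈ ki t i := aeval_mem_ki t i hE.2
    have h2 : (aeval t E)⁻¹ ∈ ki t i := (ki t i).inv_mem h1
    refine IsUnit.of_mul_eq_one (⟨(aeval t E)⁻¹, (Ai t i).algebraMap_mem ⟨_, h2⟩⟩ : Ai t i) (Subtype.ext ?_)
    show aeval t E * (aeval t E)⁻¹ = 1
    exact mul_inv_cancel₀ (hne E hE.1)
  · rintro ⟨z, hz⟩
    have hz' : ∃ E ∈ Mi i, ∃ P : MvPolynomial (Fin (m + 1)) ℂ, z * aeval t E = aeval t P := by
      induction hz using Algebra.adjoin_induction with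
      | mem x hx =>
        rw [Set.mem_singleton_iff] at hx
        exact ⟨1, (Mi i).one_mem, X i, by rw [map_one, mul_one, aeval_X, hx]⟩
      | algebraMap r =>
        obtain ⟨E, hE, P, _, hP⟩ := ki_frac t i r.2
        exact ⟨E, hE, P, hP⟩
      | add x y _ _ hx hy =>
        obtain ⟨E, hE, P, hP⟩ := hx
        obtain ⟨E', hE', P', hP'⟩ := hy
        refine ⟨E * E', (Mi i).mul_mem hE hE', P * E' + P' * E, ?_⟩
        simp only [map_add, map_mul]
        rw [← hP, ← hP']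
        ring
      | mul x y _ _ hx hy =>
        obtain ⟨E, hE, P, hP⟩ := hx
        obtain ⟨E', hE', P', hP'⟩ := hy
        refine ⟨E * E', (Mi i).mul_mem hE hE', P * P', ?_⟩
        simp only [map_mul]
        rw [← hP, ← hP']
        ring
    obtain ⟨E, hE, P, hP⟩ := hz'
    exact ⟨(P, ⟨E, hE⟩), Subtype.ext hP⟩
  · intro x y hxy
    refine ⟨1, ?_⟩
    have h1 : aeval t x = aeval t y := congrArg Subtype.val hxy
    rw [hinj h1]

/-- an element which is integral over `Ai` becomes integral over `ℂ[t]` -/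
private theorem Int_clear (ht : AlgebraicIndependent ℂ t) {s : K} (hs : IsIntegral (Ai t i) s) :
    ∃ E ∈ Mi i, (aeval t : MvPolynomial (Fin (m + 1)) ℂ →ₐ[ℂ] K).toRingHom.IsIntegralElem (aeval t E * s) := by
  let _ : Algebra (MvPolynomial (Fin (m + 1)) ℂ) (Ai t i) := (toAi t i).toAlgebra
  let _ : Algebra (MvPolynomial (Fin (m + 1)) ℂ) K := (aeval t : MvPolynomial (Fin (m + 1)) ℂ →ₐ[ℂ] K).toRingHom.toAlgebra
  have : IsScalarTower (MvPolynomial (Fin (m + 1)) ℂ) (Ai t i) K := IsScalarTower.of_algebraMap_eq fun p => rfl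
  have : IsLocalization (Mi i) (Ai t i) := Ai_loc t i ht
  obtain ⟨E, hE⟩ := IsIntegral.exists_multiple_integral_of_isLocalization (Mi i) s hs
  refine ⟨E, E.2, ?_⟩
  have h1 : (E : MvPolynomial (Fin (m + 1)) ℂ) • s = aeval t (E : MvPolynomial (Fin (m + 1)) ℂ) * s := Algebra.smul_def _ _
  rw [← h1]
  exact hE

private theorem Int_fin (hfin : FiniteDimensional (IntermediateField.adjoin ℂ (Set.range t)) K) :
    FiniteDimensional (IntermediateField.adjoin (ki t i) {t i}) K := by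
  have h1 : IntermediateField.adjoin ℂ (Set.range t) ≤ (IntermediateField.adjoin (ki t i) {t i}).restrictScalars ℂ := by
    rw [IntermediateField.adjoin_le_iff]
    rintro _ ⟨j, rfl⟩
    show t j ∈ IntermediateField.adjoin (ki t i) {t i}
    exact IntermediateField.algebra_adjoin_le_adjoin _ _ (t_mem t i j)
  let ι : IntermediateField.adjoin ℂ (Set.range t) →+* IntermediateField.adjoin (ki t i) {t i} :=
    (algebraMap (IntermediateField.adjoin ℂ (Set.range t)) K).codRestrict (IntermediateField.adjoin (ki t i) {t i}) fun x => h1 x.2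
  let _ : Algebra (IntermediateField.adjoin ℂ (Set.range t)) (IntermediateField.adjoin (ki t i) {t i}) := ι.toAlgebra
  have : IsScalarTower (IntermediateField.adjoin ℂ (Set.range t)) (IntermediateField.adjoin (ki t i) {t i}) K :=
    IsScalarTower.of_algebraMap_eq fun x => rfl
  exact Module.Finite.of_restrictScalars_finite (IntermediateField.adjoin ℂ (Set.range t)) (IntermediateField.adjoin (ki t i) {t i}) K

/-- `ord = 0` for the nonzero elements of the field -/
private theorem ord_ki {ord : AddValuation K (WithTop ℤ)} (h : ∀ b, IsIntegral (Ai t i) b → 0 ≤ ord b) {a : K} (ha : a ∈ ki t i) (h0 : a ≠ 0) :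
    ord a = 0 := by
  have hk : ∀ a ∈ ki t i, 0 ≤ ord a := fun a ha => h a (by
    have h1 : a = algebraMap (Ai t i) K (algebraMap (ki t i) (Ai t i) ⟨a, ha⟩) := rfl
    rw [h1]
    exact isIntegral_algebraMap)
  have h1 := hk a ha
  have h2 := hk a⁻¹ ((ki t i).inv_mem ha)
  have h3 : ord a + ord a⁻¹ = 0 := by
    rw [← AddValuation.map_mul, mul_inv_cancel₀ h0, AddValuation.map_one]
  refine le_antisymm ?_ h1
  rw [← h3]
  exact le_add_of_nonneg_right h2

private theorem Int_place (ht : IsTranscendenceBasis ℂ t) (hfin : FiniteDimensional (IntermediateField.adjoin ℂ (Set.range t)) K) {c : K}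
    (hc : ¬ IsIntegral (Ai t i) c) :
    ∃ E : PrimeDivisorOver K (m + 1), (∀ b, IsIntegral (Algebra.adjoin ℂ (Set.range t)) b → 0 ≤ E.ord b) ∧
      (∀ b, 0 ≤ E.ord b → ∃ b₁ b₂, IsIntegral (Algebra.adjoin ℂ (Set.range t)) b₁ ∧ IsIntegral (Algebra.adjoin ℂ (Set.range t)) b₂ ∧
        E.ord b₂ = 0 ∧ b * b₂ = b₁) ∧ E.ord c < 0 := by
  have : CharZero (ki t i) := charZero_of_injective_algebraMap (algebraMap ℂ _).injective
  obtain ⟨ord, h1, h2, h3, h4⟩ := Int_val (k := ki t i) (t i) (Int_fin t i hfin) hc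
  have hinj : Function.Injective (aeval t : MvPolynomial (Fin (m + 1)) ℂ →ₐ[ℂ] K) := ht.1
  -- the prime divisor
  have hconst : ∀ a : ℂ, 0 ≤ ord (algebraMap ℂ K a) := fun a => by
    rcases eq_or_ne a 0 with h0 | h0
    · rw [h0, map_zero, AddValuation.map_zero]; exact le_top
    · exact (ord_ki t i h2 ((ki t i).algebraMap_mem a) ((map_ne_zero_iff _ (algebraMap ℂ K).injective).2 h0)).ge
  have hres : ∃ s : Fin (m + 1 - 1) → K, (∀ j, 0 ≤ ord (s j)) ∧
      ∀ p : MvPolynomial (Fin (m + 1 - 1)) ℂ, p ≠ 0 → ord (MvPolynomial.aeval s p) = 0 := by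
    refine ⟨t ∘ i.succAbove, fun j => ?_, fun p hp => ?_⟩
    · have hne : t (i.succAbove j) ≠ 0 := by
        intro h0
        have h5 : aeval t (X (i.succAbove j) : MvPolynomial (Fin (m + 1)) ℂ) = aeval t (0 : MvPolynomial (Fin (m + 1)) ℂ) := by
          rw [aeval_X, map_zero, h0]
        exact X_ne_zero _ (hinj h5)
      exact (ord_ki t i h2 (IntermediateField.subset_adjoin _ _ ⟨j, rfl⟩) hne).ge
    · have h5 : aeval (t ∘ i.succAbove) p = aeval t (rename i.succAbove p) := (aeval_rename _ _ _).symm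
      have h6 : (rename i.succAbove p : MvPolynomial (Fin (m + 1)) ℂ) ≠ 0 := by
        intro h0
        exact hp (rename_injective _ Fin.succAbove_right_injective (by rw [h0, map_zero]))
      have h7 : aeval (t ∘ i.succAbove) p ≠ 0 := by
        rw [h5]
        exact (map_ne_zero_iff _ hinj).2 h6
      refine ord_ki t i h2 ?_ h7
      rw [h5]
      refine aeval_mem_ki t i ?_
      rw [deg_zero]
      intro hi
      obtain ⟨l, _, hl⟩ := mem_vars_rename _ _ hi
      exact Fin.succAbove_ne i l hl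
  -- integral elements
  have hint : ∀ b : K, IsIntegral (Algebra.adjoin ℂ (Set.range t)) b → IsIntegral (Ai t i) b := by
    intro b hb
    have h5 := (Int_iff ht.1).1 hb
    have h6 : (aeval t : MvPolynomial (Fin (m + 1)) ℂ →ₐ[ℂ] K).toRingHom = (algebraMap (Ai t i) K).comp (toAi t i) := RingHom.ext fun p => rfl
    rw [h6] at h5
    have h7 : (algebraMap (Ai t i) K).IsIntegralElem b := h5.of_comp
    exact h7
  refine ⟨⟨ord, hconst, h1, hres⟩, fun b hb => h2 b (hint b hb), fun b hb => ?_, h4⟩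
  obtain ⟨s₁, s₂, hs₁, hs₂, ho, hb⟩ := h3 b hb
  obtain ⟨E₁, hE₁, hE₁'⟩ := Int_clear t i ht.1 hs₁
  obtain ⟨E₂, hE₂, hE₂'⟩ := Int_clear t i ht.1 hs₂
  have hmul : ∀ (E : MvPolynomial (Fin (m + 1)) ℂ) (s : K), (aeval t : MvPolynomial (Fin (m + 1)) ℂ →ₐ[ℂ] K).toRingHom.IsIntegralElem s →
      (aeval t : MvPolynomial (Fin (m + 1)) ℂ →ₐ[ℂ] K).toRingHom.IsIntegralElem (aeval t E * s) := fun E s hs =>
    RingHom.IsIntegralElem.mul _ (RingHom.isIntegralElem_map _) hs
  have hord : ∀ E ∈ Mi i, ord (aeval t E) = 0 := fun E hE => ord_ki t i h2 (aeval_mem_ki t i hE.2) ((map_ne_zero_iff _ hinj).2 hE.1)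
  refine ⟨aeval t E₂ * (aeval t E₁ * s₁), aeval t E₁ * (aeval t E₂ * s₂), (Int_iff ht.1).2 (hmul _ _ hE₁'), (Int_iff ht.1).2 (hmul _ _ hE₂'), ?_, ?_⟩
  · show ord (aeval t E₁ * (aeval t E₂ * s₂)) = 0
    rw [AddValuation.map_mul, AddValuation.map_mul, hord _ hE₁, hord _ hE₂, ho]
    rfl
  · rw [← hb]
    ring

end Main

/-- If `c` is regular along all prime divisors over `Spec ℂ[t]` which are finite over a hypersurface of it, then it is integral over `ℂ[t]`. -/
theorem isIntegral_of_ord {K : Type} [Field K] [Algebra ℂ K] {n : ℕ} {t : Fin n → K} (ht : IsTranscendenceBasis ℂ t)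
    (hfin : FiniteDimensional (IntermediateField.adjoin ℂ (Set.range t)) K) {c : K}
    (h : ∀ E : PrimeDivisorOver K n, (∀ b, IsIntegral (Algebra.adjoin ℂ (Set.range t)) b → 0 ≤ E.ord b) →
      (∀ b, 0 ≤ E.ord b → ∃ b₁ b₂, IsIntegral (Algebra.adjoin ℂ (Set.range t)) b₁ ∧ IsIntegral (Algebra.adjoin ℂ (Set.range t)) b₂ ∧
        E.ord b₂ = 0 ∧ b * b₂ = b₁) → 0 ≤ E.ord c) :
    IsIntegral (Algebra.adjoin ℂ (Set.range t)) c := by
  have key : ∀ i : Fin n, ∃ E ∈ Mi i, (aeval t : MvPolynomial (Fin n) ℂ →ₐ[ℂ] K).toRingHom.IsIntegralElem (aeval t E * c) := by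
    cases n with
    | zero => exact fun i => i.elim0
    | succ m =>
      intro i
      refine Int_clear t i ht.1 ?_
      by_contra hc
      obtain ⟨E, h1, h2, h3⟩ := Int_place t i ht hfin hc
      exact absurd (h E h1 h2) (not_le.2 h3)
  let _ : Algebra (MvPolynomial (Fin n) ℂ) K := (aeval t : MvPolynomial (Fin n) ℂ →ₐ[ℂ] K).toRingHom.toAlgebra
  have hinj : Function.Injective (algebraMap (MvPolynomial (Fin n) ℂ) K) := ht.1
  have : FaithfulSMul (MvPolynomial (Fin n) ℂ) K := (faithfulSMul_iff_algebraMap_injective _ _).2 hinj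
  obtain ⟨D, hD, hDc⟩ : ∃ D : MvPolynomial (Fin n) ℂ, D ≠ 0 ∧ IsIntegral (MvPolynomial (Fin n) ℂ) (D • c) := by
    have halg := ht.isAlgebraic
    obtain ⟨y, hy, hyc⟩ := (Algebra.IsAlgebraic.isAlgebraic (R := Algebra.adjoin ℂ (Set.range t)) c).exists_integral_multiple
    refine ⟨ht.1.aevalEquiv.symm y, ?_, ?_⟩
    · rw [Ne, EmbeddingLike.map_eq_zero_iff]
      exact hy
    · have h1 := (Int_iff ht.1).1 hyc
      have h2 : (ht.1.aevalEquiv.symm y) • c = y • c := by
        have h3 := ht.1.algebraMap_aevalEquiv (ht.1.aevalEquiv.symm y)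
        rw [AlgEquiv.apply_symm_apply] at h3
        rw [Algebra.smul_def, Algebra.smul_def, h3]
        rfl
      rw [h2]
      exact h1
  choose E hE hE' using key
  rw [Int_iff ht.1]
  show IsIntegral (MvPolynomial (Fin n) ℂ) c
  refine Int_ufd hD hDc (fun i => (hE i).1) (fun i => ?_) ?_
  · rw [Algebra.smul_def]
    exact hE' i
  · intro D' N hD' hdvd
    have h1 : ∀ i, degreeOf i D' = 0 := by
      intro i
      obtain ⟨w, hw⟩ := hdvd i
      have h2 : E i ^ N ≠ 0 := pow_ne_zero _ (hE i).1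
      have h3 : w ≠ 0 := by
        rintro rfl
        exact h2 (by rw [hw, mul_zero])
      have h4 : degreeOf i (E i ^ N) = 0 := by
        rw [degreeOf_pow_eq _ _ _ (hE i).1, (hE i).2, mul_zero]
      rw [hw, degreeOf_mul_eq hD' h3] at h4
      omega
    have h2 : D'.vars = ∅ := by
      ext i
      simp only [Finset.notMem_empty, iff_false]
      exact deg_zero.1 (h1 i)
    obtain ⟨a, rfl⟩ : ∃ a, D' = C a := ⟨_, vars_eq_empty_iff_eq_C.1 h2⟩
    have ha : a ≠ 0 := by
      rintro rfl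
      exact hD' (map_zero _)
    exact (isUnit_iff_ne_zero.2 ha).map C

end Pool.Agent.GG.Kd

end
end

section

/-!
# KR FT: top forms

Let `b` be the basis of `Ω[K⁄ℂ]` with `b i = d (a i)` (`Pool.Agent.H23.exists_basis_kaehler`).  `⋀[K]^2 Ω` is spanned by the
elements `ιMulti v` (`exteriorPower.ιMulti_span`), and `ιMulti v = b.det v • ιMulti b` for `v : Fin 2 → Ω` (two
alternating maps which agree on the basis, `Module.Basis.ext_alternating`; the right hand side is an alternating map of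
`v`, e.g. `(b.det).smulRight`-like; or expand `v 0`, `v 1` in the basis by hand).  So every element is `W • ιMulti b`,
which is `Form.mk W a` (unfold `Form`, `ExtPow`, `Form.mk`, `ExtPow.wedge`, `d`).
-/

set_option autoImplicit false

open Pool.Agent.H23.Fano (Form)

noncomputable section

namespace Pool.Agent.H68.KR

private theorem FT_ext_smul {K V : Type} [Field K] [AddCommGroup V] [Module K V] {n : ℕ}
    (b : Module.Basis (Fin n) K V) (v : Fin n → V) :
    exteriorPower.ιMulti K n v = b.det v • exteriorPower.ιMulti K n b := by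
  have h : exteriorPower.ιMulti K n (M := V) =
      ((LinearMap.toSpanSingleton K (⋀[K]^n V) (exteriorPower.ιMulti K n b)).compAlternatingMap
        b.det) := by
    refine Module.Basis.ext_alternating b fun i hi => ?_
    let σ : Equiv.Perm (Fin n) := Equiv.ofBijective i (Finite.injective_iff_bijective.1 hi)
    change exteriorPower.ιMulti K n (b ∘ σ) = _
    change _ = (LinearMap.toSpanSingleton K (⋀[K]^n V) (exteriorPower.ιMulti K n b))
      (b.det (b ∘ σ))
    rw [AlternatingMap.map_perm, AlternatingMap.map_perm, b.det_self,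
      LinearMap.toSpanSingleton_apply]
    rcases Int.units_eq_one_or (Equiv.Perm.sign σ) with h1 | h1 <;> simp [h1]
  have h2 := congrArg (fun f => f v) h
  simpa using h2

private theorem FT_exists_smul {K V : Type} [Field K] [AddCommGroup V] [Module K V] {n : ℕ}
    (b : Module.Basis (Fin n) K V) (ω : ⋀[K]^n V) :
    ∃ W : K, ω = W • exteriorPower.ιMulti K n b := by
  have h : ω ∈ Submodule.span K (Set.range (exteriorPower.ιMulti K n (M := V))) := by
    rw [exteriorPower.ιMulti_span]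
    exact Submodule.mem_top
  induction h using Submodule.span_induction with
  | mem x hx =>
    obtain ⟨v, rfl⟩ := hx
    exact ⟨b.det v, FT_ext_smul b v⟩
  | zero => exact ⟨0, by simp⟩
  | add x y hx hy h1 h2 =>
    obtain ⟨W1, h1⟩ := h1
    obtain ⟨W2, h2⟩ := h2
    exact ⟨W1 + W2, by rw [h1, h2, add_smul]⟩
  | smul c x hx h1 =>
    obtain ⟨W1, h1⟩ := h1
    exact ⟨c * W1, by rw [h1, mul_smul]⟩

private theorem FT_exists_form {K : Type} [Field K] [Algebra ℂ K] {a : Fin 2 → K}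
    (b : Module.Basis (Fin 2) K Ω[K⁄ℂ]) (hb : ∀ i, b i = KaehlerDifferential.D ℂ K (a i))
    (ω : Form K 2) : ∃ W : K, ω = Form.mk W a := by
  obtain ⟨W, hW⟩ := FT_exists_smul b (show ⋀[K]^2 Ω[K⁄ℂ] from ω)
  refine ⟨W, ?_⟩
  have h1 : (b : Fin 2 → Ω[K⁄ℂ]) = fun i => KaehlerDifferential.D ℂ K (a i) := funext hb
  rw [h1] at hW
  exact hW

theorem exists_form_mk {K : Type} [Field K] [Algebra ℂ K] {a : Fin 2 → K}
    (ha : IsTranscendenceBasis ℂ a) (ω : Form K 2) : ∃ W : K, ω = Form.mk W a := by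
  obtain ⟨b, hb⟩ := Pool.Agent.H23.exists_basis_kaehler ha
  exact FT_exists_form b hb ω

end Pool.Agent.H68.KR

end
end
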