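import Pool.Agent.H18.GGT.M05
import Pool.Agent.H18.GGT.M06

/-! The parts of this file: H7.Bir.Iso, GA.SmlCore. -/

section

/-!
# Bir Iso: varieties of general type and isomorphisms of function fields

The property `IsLogGeneralType` (with empty boundary) depends only on the function field up to `ℂ`-isomorphism.
-/

set_option autoImplicit false

open Pool.Agent.H23.Fano (Form Diff ExtPow regularForms PrimeDivisorOver)
open Pool.Agent.H17LG.Variety (PoleAtMost IsLogGeneralType)

noncomputable section

namespace Pool.Agent.H7.Bir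

variable {K L : Type} [Field K] [Algebra ℂ K] [Field L] [Algebra ℂ L]

/-- The map of rational forms induced by an isomorphism of fields. -/
theorem exists_formMap (e : K ≃ₐ[ℂ] L) (k : ℕ) : ∃ Φ : Form K k →+ Form L k, (∀ c ω, Φ (c • ω) = e c • Φ ω) ∧
    ∀ c a, Φ (Form.mk c a) = Form.mk (e c) fun i => e (a i) := by
  let _ : Algebra K L := e.toRingHom.toAlgebra
  have _ : IsScalarTower ℂ K L := by
    refine IsScalarTower.of_algebraMap_eq fun r => ?_
    exact (e.commutes r).symm
  let D : Ω[K⁄ℂ] →ₗ[K] Ω[L⁄ℂ] := KaehlerDifferential.map ℂ ℂ K L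
  let _ : Module K (⋀[L]^k Ω[L⁄ℂ]) := Module.compHom _ e.toRingHom
  have hD : ∀ (c : K) (x : Ω[K⁄ℂ]), D (c • x) = e c • D x := by
    intro c x
    rw [map_smul]
    exact algebra_compatible_smul L c (D x)
  have hup : ∀ [DecidableEq (Fin k)] (v : Fin k → Ω[K⁄ℂ]) (i : Fin k) (t : Ω[K⁄ℂ]),
      (fun j => D (Function.update v i t j)) = Function.update (fun j => D (v j)) i (D t) := by
    intro _ v i t
    funext j
    by_cases hj : j = i
    · subst hj
      simp
    · simp [Function.update_of_ne hj]
  let A : Ω[K⁄ℂ] [⋀^Fin k]→ₗ[K] (⋀[L]^k Ω[L⁄ℂ]) :=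
    { toFun := fun v => exteriorPower.ιMulti L k fun i => D (v i)
      map_update_add' := by
        intro _ v i x y
        rw [hup, hup, hup, map_add, (exteriorPower.ιMulti L k).map_update_add]
      map_update_smul' := by
        intro _ v i c x
        rw [hup, hup, hD, (exteriorPower.ιMulti L k).map_update_smul]
        rfl
      map_eq_zero_of_eq' := by
        intro v i j h hij
        exact (exteriorPower.ιMulti L k).map_eq_zero_of_eq _ (by simp only [h]) hij }
  let F : (⋀[K]^k Ω[K⁄ℂ]) →ₗ[K] (⋀[L]^k Ω[L⁄ℂ]) := exteriorPower.alternatingMapLinearEquiv A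
  refine ⟨F.toAddMonoidHom, fun c ω => ?_, fun c a => ?_⟩
  · exact F.map_smul c ω
  · have h1 : F (c • exteriorPower.ιMulti K k fun i => KaehlerDifferential.D ℂ K (a i)) =
        e c • exteriorPower.ιMulti L k fun i => D (KaehlerDifferential.D ℂ K (a i)) := by
      rw [F.map_smul]
      change e c • F _ = _
      congr 1
      exact exteriorPower.alternatingMapLinearEquiv_apply_ιMulti A _
    have h2 : ∀ x : K, D (KaehlerDifferential.D ℂ K x) = KaehlerDifferential.D ℂ L (e x) :=
      fun x => KaehlerDifferential.map_D ℂ ℂ K L x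
    simp only [h2] at h1
    exact h1

/-- Every rational form is a sum of forms `c da₁ ∧ ⋯ ∧ da_k`. -/
theorem closure_mk (k : ℕ) : AddSubgroup.closure {ω : Form K k | ∃ (c : K) (a : Fin k → K), ω = Form.mk c a} = ⊤ := by
  rw [eq_top_iff]
  rintro (ω : ⋀[K]^k Ω[K⁄ℂ]) -
  have hs : ∀ (c : K) (η : Form K k), η ∈ AddSubgroup.closure {ω : Form K k | ∃ (c : K) (a : Fin k → K), ω = Form.mk c a} →
      c • η ∈ AddSubgroup.closure {ω : Form K k | ∃ (c : K) (a : Fin k → K), ω = Form.mk c a} := by
    intro c η hη
    induction hη using AddSubgroup.closure_induction with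
    | mem x hx =>
      obtain ⟨c', a, rfl⟩ := hx
      exact AddSubgroup.subset_closure ⟨c * c', a,
        smul_smul c c' (exteriorPower.ιMulti K k fun i => KaehlerDifferential.D ℂ K (a i))⟩
    | zero =>
      rw [smul_zero]
      exact zero_mem _
    | add x y _ _ hx hy =>
      rw [smul_add]
      exact add_mem hx hy
    | neg x _ hx =>
      rw [smul_neg]
      exact neg_mem hx
  have hω : ω ∈ Submodule.span K (exteriorPower.ιMulti K k '' {a | Set.range a ⊆ Set.range (KaehlerDifferential.D ℂ K)}) := by
    rw [exteriorPower.ιMulti_span_of_span _ _ _ (KaehlerDifferential.span_range_derivation ℂ K)]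
    trivial
  refine Submodule.span_induction (p := fun (η : ⋀[K]^k Ω[K⁄ℂ]) _ =>
    (η : Form K k) ∈ AddSubgroup.closure {ω : Form K k | ∃ (c : K) (a : Fin k → K), ω = Form.mk c a}) ?_ ?_ ?_ ?_ hω
  · rintro _ ⟨a, ha, rfl⟩
    choose b hb using fun i => ha ⟨i, rfl⟩
    refine AddSubgroup.subset_closure ⟨1, b, ?_⟩
    unfold Form.mk
    rw [one_smul]
    change exteriorPower.ιMulti K k a = exteriorPower.ιMulti K k fun i => KaehlerDifferential.D ℂ K (b i)
    congr 1
    funext i
    exact (hb i).symm
  · exact zero_mem _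
  · exact fun x y _ _ hx hy => add_mem hx hy
  · exact fun c x _ hx => hs c x hx

theorem formMap_injective (e : K ≃ₐ[ℂ] L) {k : ℕ} {Φ : Form K k →+ Form L k}
    (hΦ : ∀ c a, Φ (Form.mk c a) = Form.mk (e c) fun i => e (a i)) : Function.Injective Φ := by
  obtain ⟨Ψ, -, hΨ⟩ := exists_formMap e.symm k
  have h : ∀ ω, Ψ (Φ ω) = ω := by
    intro ω
    have hω : ω ∈ AddSubgroup.closure {ω : Form K k | ∃ (c : K) (a : Fin k → K), ω = Form.mk c a} := by
      rw [closure_mk]
      trivial
    induction hω using AddSubgroup.closure_induction with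
    | mem x hx =>
      obtain ⟨c, a, rfl⟩ := hx
      rw [hΦ, hΨ]
      simp
    | zero => simp
    | add x y _ _ hx hy => rw [map_add, map_add, hx, hy]
    | neg x _ hx => rw [map_neg, map_neg, hx]
  exact Function.LeftInverse.injective h

theorem formMap_regular (e : K ≃ₐ[ℂ] L) {k : ℕ} {Φ : Form K k →+ Form L k}
    (hΦ : ∀ c a, Φ (Form.mk c a) = Form.mk (e c) fun i => e (a i)) {A : Set K} {B : Set L}
    (hAB : ∀ x ∈ A, e x ∈ B) {η : Form K k} (hη : η ∈ regularForms k A) : Φ η ∈ regularForms k B := by
  unfold regularForms at hη ⊢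
  induction hη using AddSubgroup.closure_induction with
  | mem x hx =>
    obtain ⟨c, a, hc, ha, rfl⟩ := hx
    rw [hΦ]
    exact AddSubgroup.subset_closure ⟨e c, fun i => e (a i), hAB c hc, fun i => hAB _ (ha i), rfl⟩
  | zero =>
    rw [map_zero]
    exact zero_mem _
  | add x y _ _ hx hy =>
    rw [map_add]
    exact add_mem hx hy
  | neg x _ hx =>
    rw [map_neg]
    exact neg_mem hx

/-- The prime divisor of `K` given by a prime divisor of `L`. -/
def pull (e : K ≃ₐ[ℂ] L) {k : ℕ} (E : PrimeDivisorOver L k) : PrimeDivisorOver K k where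
  ord := E.ord.comap (e : K →+* L)
  ord_const c := by
    change 0 ≤ E.ord (e (algebraMap ℂ K c))
    rw [e.commutes]
    exact E.ord_const c
  exists_uniformizer := by
    obtain ⟨t, ht⟩ := E.exists_uniformizer
    refine ⟨e.symm t, ?_⟩
    change E.ord (e (e.symm t)) = 1
    rw [e.apply_symm_apply, ht]
  residue_trdeg := by
    obtain ⟨s, hs, hp⟩ := E.residue_trdeg
    refine ⟨fun i => e.symm (s i), fun i => ?_, fun p hp0 => ?_⟩
    · change 0 ≤ E.ord (e (e.symm (s i)))
      rw [e.apply_symm_apply]
      exact hs i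
    · change E.ord (e (MvPolynomial.aeval (fun i => e.symm (s i)) p)) = 0
      have h : e (MvPolynomial.aeval (fun i => e.symm (s i)) p) = MvPolynomial.aeval s p := by
        have h1 := MvPolynomial.comp_aeval (fun i => e.symm (s i)) (e : K →ₐ[ℂ] L)
        have h2 := DFunLike.congr_fun h1 p
        have h3 : (fun i => (e : K →ₐ[ℂ] L) (e.symm (s i))) = s := by
          funext i
          exact e.apply_symm_apply _
        rw [h3] at h2
        exact h2
      rw [h]
      exact hp p hp0

theorem isGT_of_equiv (e : K ≃ₐ[ℂ] L) {k : ℕ} (h : IsLogGeneralType (K := K) (k := k) fun _ => False) :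
    IsLogGeneralType (K := L) (k := k) fun _ => False := by
  obtain ⟨Φ, hsm, hmk⟩ := exists_formMap e k
  obtain ⟨m, hm, ω, hω, r, f, hf0, hf, halg⟩ := h
  refine ⟨m, hm, Φ ω, ?_, r, fun i => e (f i), ?_, ?_, ?_⟩
  · intro h0
    exact hω (formMap_injective e hmk (by rw [h0, map_zero]))
  · intro h0
    exact hf0 ((map_eq_zero_iff e e.injective).1 h0)
  · intro i E
    refine ⟨fun _ => ?_, fun h => h.elim⟩
    obtain ⟨g, η, hη, hωg, hord⟩ := (hf i (pull e E)).1 not_false
    refine ⟨e g, Φ η, formMap_regular e hmk (fun x hx => hx) hη, ?_, ?_⟩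
    · rw [hωg, hsm]
    · have h1 : e (f i) * e g ^ m = e (f i * g ^ m) := by
        rw [map_mul e, map_pow e]
      have h2 : E.ord (e (f i) * e g ^ m) = (pull e E).ord (f i * g ^ m) := by
        rw [h1]
        rfl
      rw [h2]
      exact hord
  · have hsub : ∀ x : K, x ∈ IntermediateField.adjoin ℂ (Set.range fun i => f i / f 0) →
        e x ∈ IntermediateField.adjoin ℂ (Set.range fun i => e (f i) / e (f 0)) := by
      intro x hx
      have h1 : e x ∈ (IntermediateField.adjoin ℂ (Set.range fun i => f i / f 0)).map (e : K →ₐ[ℂ] L) := ⟨x, hx, rfl⟩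
      rw [IntermediateField.adjoin_map] at h1
      refine IntermediateField.adjoin.mono _ _ _ ?_ h1
      rintro _ ⟨_, ⟨i, rfl⟩, rfl⟩
      exact ⟨i, (map_div₀ e (f i) (f 0)).symm⟩
    refine ⟨fun y => ?_⟩
    let φ : IntermediateField.adjoin ℂ (Set.range fun i => f i / f 0) →+*
        IntermediateField.adjoin ℂ (Set.range fun i => e (f i) / e (f 0)) :=
      { toFun := fun x => ⟨e x, hsub x x.2⟩
        map_one' := Subtype.ext (map_one e)
        map_mul' := fun x y => Subtype.ext (map_mul e _ _)
        map_zero' := Subtype.ext (map_zero e)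
        map_add' := fun x y => Subtype.ext (map_add e _ _) }
    have h1 := (halg.isAlgebraic (e.symm y)).ringHom_of_comp_eq φ (e : K →+* L) φ.injective (by
      ext x
      rfl)
    have h2 : (e : K →+* L) (e.symm y) = y := e.apply_symm_apply y
    rwa [h2] at h1

end Pool.Agent.H7.Bir

end
end

section

/-!
# GA SmlCore: a holomorphic function is bounded by the area mean of its powers
-/

set_option autoImplicit false

open Topology Filter Metric MeasureTheory Set

noncomputable section

namespace Pool.Agent.GA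

private theorem area_mean' {u : ℂ → ℝ} {c : ℂ} {h : ℝ} (hh : 0 < h) (hu : Continuous u)
    (hle : ∀ r, 0 < r → r < h → u c ≤ Real.circleAverage u c r) : Real.pi * h ^ 2 * u c ≤ ∫ z in ball c h, u z := by
  obtain ⟨g, hg⟩ : ∃ g : ℝ → ℝ, g = (Iio (Real.log h)).indicator fun s => Real.exp (2 * s) := ⟨_, rfl⟩
  have hgz : ∀ z : ℂ, z ≠ 0 → g (Real.log ‖z‖) / ‖z‖ ^ 2 * u (c + z) = (ball (0 : ℂ) h).indicator (fun z => u (c + z)) z := by
    intro z hz
    have hz0 : 0 < ‖z‖ := norm_pos_iff.2 hz
    by_cases hzh : ‖z‖ < h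
    · have h1 : Real.log ‖z‖ ∈ Iio (Real.log h) := Real.log_lt_log hz0 hzh
      have h2 : z ∈ ball (0 : ℂ) h := by simpa using hzh
      rw [hg, indicator_of_mem h1, indicator_of_mem h2, two_mul, Real.exp_add, Real.exp_log hz0]
      field_simp
    · have h1 : Real.log ‖z‖ ∉ Iio (Real.log h) := by
        simp only [mem_Iio, not_lt]
        exact Real.log_le_log hh (not_lt.1 hzh)
      have h2 : z ∉ ball (0 : ℂ) h := by simpa using hzh
      rw [hg, indicator_of_notMem h1, indicator_of_notMem h2]
      simp
  have hae : (fun z : ℂ => g (Real.log ‖z‖) / ‖z‖ ^ 2 * u (c + z)) =ᵐ[volume] (ball (0 : ℂ) h).indicator (fun z => u (c + z)) := by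
    have : ∀ᵐ z : ℂ, z ≠ 0 := by
      rw [ae_iff]
      simp
    filter_upwards [this] with z hz using hgz z hz
  have hcont : ContinuousOn (fun z => u (c + z)) (closedBall (0 : ℂ) h) := (hu.comp (by fun_prop)).continuousOn
  have hint' : IntegrableOn (fun z => u (c + z)) (ball (0 : ℂ) h) :=
    (hcont.integrableOn_compact (isCompact_closedBall _ _)).mono_set ball_subset_closedBall
  have hint : Integrable (fun z : ℂ => g (Real.log ‖z‖) / ‖z‖ ^ 2 * u (c + z)) := by
    rw [integrable_congr hae]
    exact hint'.integrable_indicator measurableSet_ball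
  have h1 := Pool.Agent.MQ.polar_radial g (fun z => u (c + z)) hint
  rw [integral_congr_ae hae, integral_indicator measurableSet_ball] at h1
  have h2 : ∫ z in ball c h, u z = ∫ z in ball (0 : ℂ) h, u (c + z) := by
    have hpre : (fun z => c + z) ⁻¹' (ball c h) = ball (0 : ℂ) h := by
      ext z
      simp [dist_eq_norm]
    have := (measurePreserving_add_left volume c).setIntegral_preimage_emb (measurableEmbedding_addLeft c) u (ball c h)
    rw [hpre] at this
    exact this.symm
  rw [h2, h1]
  have hc : ∀ r, Real.circleAverage (fun z => u (c + z)) 0 r = Real.circleAverage u c r := by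
    intro r
    simp only [Real.circleAverage_def]
    congr 1
    refine intervalIntegral.integral_congr fun θ _ => ?_
    simp [circleMap]
  simp only [hc]
  -- the integral over the radii
  have hrad : ∀ s : ℝ, g s * u c ≤ g s * Real.circleAverage u c (Real.exp s) := by
    intro s
    by_cases hs : s ∈ Iio (Real.log h)
    · have h3 : Real.exp s < h := by
        have := Real.exp_lt_exp.2 hs
        rwa [Real.exp_log hh] at this
      have h4 : 0 ≤ g s := by rw [hg, indicator_of_mem hs]; exact (Real.exp_pos _).le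
      exact mul_le_mul_of_nonneg_left (hle _ (Real.exp_pos _) h3) h4
    · rw [hg, indicator_of_notMem hs]
      simp
  have hgint : Integrable g := by
    rw [hg]
    refine IntegrableOn.integrable_indicator ?_ measurableSet_Iio
    exact (integrableOn_exp_mul_Iic (by norm_num : (0 : ℝ) < 2) (Real.log h)).mono_set Iio_subset_Iic_self
  have hgi : ∫ s, g s = h ^ 2 / 2 := by
    rw [hg, integral_indicator measurableSet_Iio, ← integral_Iic_eq_integral_Iio, integral_exp_mul_Iic (by norm_num : (0 : ℝ) < 2) (Real.log h)]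
    rw [show 2 * Real.log h = Real.log h + Real.log h by ring, Real.exp_add, Real.exp_log hh]
    ring
  have hF : Continuous fun r : ℝ => Real.circleAverage u c r := by
    have h0 : (fun r : ℝ => Real.circleAverage u c r) = fun r : ℝ => (2 * Real.pi)⁻¹ * ∫ θ in (0 : ℝ)..2 * Real.pi, u (circleMap c r θ) := by
      funext r
      rw [Real.circleAverage_def, smul_eq_mul]
    rw [h0]
    refine continuous_const.mul ?_
    refine intervalIntegral.continuous_parametric_intervalIntegral_of_continuous' ?_ _ _
    have : Continuous fun p : ℝ × ℝ => circleMap c p.1 p.2 := by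
      unfold circleMap
      fun_prop
    exact hu.comp this
  obtain ⟨M, hM⟩ : ∃ M, ∀ r ∈ Icc (0 : ℝ) h, |Real.circleAverage u c r| ≤ M := by
    obtain ⟨M, hM⟩ := (isCompact_Icc (a := (0 : ℝ)) (b := h)).exists_bound_of_continuousOn hF.continuousOn
    exact ⟨M, fun r hr => by simpa using hM r hr⟩
  have hgm : Measurable g := by
    rw [hg]
    exact (by fun_prop : Measurable fun s : ℝ => Real.exp (2 * s)).indicator measurableSet_Iio
  have hgF : Integrable fun s => g s * Real.circleAverage u c (Real.exp s) := by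
    refine Integrable.mono' (hgint.mul_const M) ((hgm.mul (hF.comp Real.continuous_exp).measurable).aestronglyMeasurable) (Eventually.of_forall fun s => ?_)
    by_cases hs : s ∈ Iio (Real.log h)
    · have h3 : Real.exp s < h := by
        have := Real.exp_lt_exp.2 hs
        rwa [Real.exp_log hh] at this
      have h4 : 0 ≤ g s := by rw [hg, indicator_of_mem hs]; exact (Real.exp_pos _).le
      rw [Real.norm_eq_abs, abs_mul, abs_of_nonneg h4]
      exact mul_le_mul_of_nonneg_left (hM _ ⟨(Real.exp_pos _).le, h3.le⟩) h4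
    · have h4 : g s = 0 := by rw [hg, indicator_of_notMem hs]
      rw [h4]
      simp
  have h5 := integral_mono (hgint.mul_const (u c)) hgF hrad
  simp only [integral_mul_const] at h5
  rw [hgi] at h5
  have hpi := Real.pi_pos
  nlinarith

/-- the area mean over a disc, from the means over the circles -/
theorem area_mean {u : ℂ → ℝ} {c : ℂ} {h : ℝ} (hh : 0 < h) (hu : ContinuousOn u (closedBall c h))
    (hle : ∀ r, 0 < r → r < h → u c ≤ Real.circleAverage u c r) : Real.pi * h ^ 2 * u c ≤ ∫ z in ball c h, u z := by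
  obtain ⟨G, hG⟩ := ContinuousMap.exists_restrict_eq (isClosed_closedBall (x := c) (ε := h)) ⟨(closedBall c h).domRestrict u, hu.domRestrict⟩
  have hGu : ∀ z ∈ closedBall c h, G z = u z := by
    intro z hz
    exact congrArg (fun f => f ⟨z, hz⟩) hG
  have hc : c ∈ closedBall c h := mem_closedBall_self hh.le
  have h1 := area_mean' (u := fun z => G z) hh G.continuous (c := c) (by
    intro r hr hrh
    rw [hGu c hc]
    refine (hle r hr hrh).trans_eq (Real.circleAverage_congr_sphere ?_)
    intro z hz
    have hz' : z ∈ closedBall c h := by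
      rw [abs_of_pos hr] at hz
      exact sphere_subset_closedBall.trans (closedBall_subset_closedBall hrh.le) hz
    exact (hGu z hz').symm)
  rw [hGu c hc] at h1
  rwa [setIntegral_congr_fun measurableSet_ball fun z hz => hGu z (ball_subset_closedBall hz)] at h1

/-- the power of a holomorphic function is at most its area mean -/
theorem rpow_le_area {s : ℂ → ℂ} {c : ℂ} {h p : ℝ} (hh : 0 < h) (hp : 0 < p) (hs : AnalyticOnNhd ℂ s (closedBall c h)) :
    Real.pi * h ^ 2 * ‖s c‖ ^ p ≤ ∫ z in ball c h, ‖s z‖ ^ p := by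
  refine area_mean (u := fun z => ‖s z‖ ^ p) hh ?_ fun r hr hrh => ?_
  · exact (hs.continuousOn.norm).rpow_const fun z _ => Or.inr hp.le
  · exact Pool.Agent.H22.W.rpow_le_avg hr hp (hs.mono (closedBall_subset_closedBall hrh.le))

/-- The power of a holomorphic function is bounded by the integral of a majorant over a square. -/
theorem rpow_le_square {s : ℂ → ℂ} {e : ℂ → ℝ} {c : ℂ} {h p C : ℝ} (hh : 0 < h) (hp : 0 < p) (hC : 0 ≤ C) (hs : AnalyticOnNhd ℂ s (closedBall c h))
    (he : ContinuousOn e (Icc (c.re - h) (c.re + h) ×ℂ Icc (c.im - h) (c.im + h))) (he0 : ∀ z ∈ Icc (c.re - h) (c.re + h) ×ℂ Icc (c.im - h) (c.im + h), 0 ≤ e z)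
    (hle : ∀ z ∈ closedBall c h, ‖s z‖ ^ p ≤ C * e z) :
    Real.pi * h ^ 2 * ‖s c‖ ^ p ≤ C * ∫ x in (c.re - h)..(c.re + h), ∫ y in (c.im - h)..(c.im + h), e (x + y * Complex.I) := by
  have hsub : ball c h ⊆ Icc (c.re - h) (c.re + h) ×ℂ Icc (c.im - h) (c.im + h) := by
    intro z hz
    have h1 : ‖z - c‖ < h := by simpa [dist_eq_norm] using hz
    have h2 := (Complex.abs_re_le_norm (z - c)).trans h1.le
    have h3 := (Complex.abs_im_le_norm (z - c)).trans h1.le
    rw [Complex.sub_re, abs_le] at h2
    rw [Complex.sub_im, abs_le] at h3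
    exact ⟨⟨by linarith, by linarith⟩, ⟨by linarith, by linarith⟩⟩
  have hK : IsCompact (Icc (c.re - h) (c.re + h) ×ℂ Icc (c.im - h) (c.im + h)) := isCompact_Icc.reProdIm isCompact_Icc
  have hei : IntegrableOn e (Icc (c.re - h) (c.re + h) ×ℂ Icc (c.im - h) (c.im + h)) := he.integrableOn_compact hK
  have h1 := rpow_le_area hh hp hs
  have h2 : ∫ z in ball c h, ‖s z‖ ^ p ≤ ∫ z in ball c h, C * e z := by
    refine setIntegral_mono_on ?_ ((hei.mono_set hsub).const_mul C) measurableSet_ball fun z hz => hle z (ball_subset_closedBall hz)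
    exact (((hs.continuousOn.norm).rpow_const fun z _ => Or.inr hp.le).integrableOn_compact (isCompact_closedBall _ _)).mono_set ball_subset_closedBall
  have h3 : ∫ z in ball c h, C * e z ≤ C * ∫ z in Icc (c.re - h) (c.re + h) ×ℂ Icc (c.im - h) (c.im + h), e z := by
    rw [integral_const_mul]
    refine mul_le_mul_of_nonneg_left ?_ hC
    refine setIntegral_mono_set hei ?_ (LE.le.eventuallyLE hsub)
    exact (ae_restrict_iff' hK.measurableSet).2 (Eventually.of_forall fun z hz => he0 z hz)
  have h4 : ∫ z in Icc (c.re - h) (c.re + h) ×ℂ Icc (c.im - h) (c.im + h), e z =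
      ∫ x in (c.re - h)..(c.re + h), ∫ y in (c.im - h)..(c.im + h), e (x + y * Complex.I) := by
    have h5 := (Complex.volume_preserving_equiv_real_prod.symm).setIntegral_preimage_emb Complex.measurableEquivRealProd.symm.measurableEmbedding e
      (Icc (c.re - h) (c.re + h) ×ℂ Icc (c.im - h) (c.im + h))
    have h6 : Complex.measurableEquivRealProd.symm ⁻¹' (Icc (c.re - h) (c.re + h) ×ℂ Icc (c.im - h) (c.im + h)) =
        Icc (c.re - h) (c.re + h) ×ˢ Icc (c.im - h) (c.im + h) := by
      ext p
      simp [Complex.mem_reProdIm, Complex.measurableEquivRealProd, Prod.le_def]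
      tauto
    rw [h6] at h5
    rw [← h5]
    have h7 : IntegrableOn (fun p : ℝ × ℝ => e (Complex.measurableEquivRealProd.symm p)) (Icc (c.re - h) (c.re + h) ×ˢ Icc (c.im - h) (c.im + h))
        (volume.prod volume) := by
      have := ((Complex.volume_preserving_equiv_real_prod.symm).integrableOn_comp_preimage Complex.measurableEquivRealProd.symm.measurableEmbedding
        (f := e) (s := Icc (c.re - h) (c.re + h) ×ℂ Icc (c.im - h) (c.im + h))).2 hei
      rw [h6] at this
      exact this
    have h8 := setIntegral_prod (fun p : ℝ × ℝ => e (Complex.measurableEquivRealProd.symm p)) h7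
    have h9 : ∀ x y : ℝ, Complex.measurableEquivRealProd.symm (x, y) = x + y * Complex.I := fun x y => by
      exact Complex.equivRealProdCLM_symm_apply (x, y)
    refine h8.trans ?_
    simp only [h9]
    rw [integral_Icc_eq_integral_Ioc, ← intervalIntegral.integral_of_le (by linarith)]
    refine intervalIntegral.integral_congr fun x _ => ?_
    rw [integral_Icc_eq_integral_Ioc, ← intervalIntegral.integral_of_le (by linarith)]
  rw [← h4]
  exact h1.trans (h2.trans h3)

end Pool.Agent.GA

end
end
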