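import Pool.Agent.H18.GGT.M12
import Pool.Agent.H18.GGT.M16
import Pool.Agent.H18.GGT.M19
import Pool.Agent.H18.GGT.M44

/-! The parts of this file: GA.BndD, GA.EndA, GG.Kcpt, GG.Row, GA.BndB, GA.SmlArea. -/

section

/-!
# GA BndD: definitions of `Bnd`
-/

set_option autoImplicit false

open MvPolynomial Topology Filter Metric
open Pool.Agent.H13.SM (conTan cone)
open Pool.Agent.GG

namespace Pool.Agent.GA

variable {N : ℕ} {P : Ideal (MvPolynomial (Fin (N + 1)) ℂ)} {J : ℕ} {m : Fin J → ℕ} {θ : ∀ k, SymSec P (m k)}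

/-- the polynomials of the frame are homogeneous of degree `m k` in `v` -/
def HomFr (f : Frame θ) : Prop :=
  ∀ a k, IsWeightedHomogeneous (Sum.elim (fun _ => 0) (fun _ => 1) : Ph N → ℕ) (f.A a k) (m k)

/-- `(x, v)` is a tangent vector in the chart of the largest coordinate `b` -/
def InCh (P : Ideal (MvPolynomial (Fin (N + 1)) ℂ)) (b : Fin (N + 1)) (x v : Fin (N + 1) → ℂ) : Prop :=
  x ∈ cone P ∧ x b = 1 ∧ (∀ c, ‖x c‖ ≤ 1) ∧ v ∈ conTan P x ∧ v b = 0

end Pool.Agent.GA

end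

section

/-!
# GA EndA: the algebraic criterion from a derivation

`aeval (Dt p) = vdet * D (aeval p)` for all `p`, by Cramer; induction on `k`.
-/

set_option autoImplicit false

open MvPolynomial Topology Filter Metric
open Pool.Agent.GG

namespace Pool.Agent.GA

variable {N : ℕ}

/-- the chain rule for a derivation -/
private theorem der_aeval {E σ : Type*} [CommRing E] [Algebra ℂ E] [Fintype σ] (D : Derivation ℂ E E) (y : σ → E) (p : MvPolynomial σ ℂ) :
    D (aeval y p) = ∑ s, aeval y (pderiv s p) * D (y s) := by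
  classical
  induction p using MvPolynomial.induction_on with
  | C a => simp
  | add p q hp hq => simp [hp, hq, add_mul, Finset.sum_add_distrib]
  | mul_X p i hp =>
    have e : ∀ s, aeval y (pderiv s (p * X i)) * D (y s) =
        y i * (aeval y (pderiv s p) * D (y s)) + aeval y p * (if s = i then D (y i) else 0) := by
      intro s
      rw [Derivation.leibniz, pderiv_X]
      by_cases h : s = i
      · subst h
        simp
        ring
      · have h' : i ≠ s := fun h' => h h'.symm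
        simp [h, h']
        ring
    rw [Finset.sum_congr rfl fun s _ => e s, Finset.sum_add_distrib, ← Finset.mul_sum, ← Finset.mul_sum, ← hp]
    simp only [Finset.sum_ite_eq', Finset.mem_univ, if_true, map_mul, aeval_X, Derivation.leibniz, smul_eq_mul]
    ring

/-- MODULE EndA.  `aeval (Dt p) = vdet * D (aeval p)` for all `p`, by Cramer; induction on `k`. -/
theorem crit_alg {ι : Type} {E : Type*} [Field E] [Algebra ℂ E] (G : ι → MvPolynomial (Ph N) ℂ) (I : Fin (N + 1) → ι) (D : Derivation ℂ E E)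
    {x V : Fin (N + 1) → E} (hx : ∀ b, D (x b) = V b) (hG : ∀ l, D (aeval (Sum.elim x V) (G l)) = 0)
    (hI : aeval (Sum.elim x V) (vdet G I) ≠ 0) : ∀ l k, aeval (Sum.elim x V) ((⇑(Dt G I))^[k + 1] (G l)) = 0 := by
  classical
  set e : MvPolynomial (Ph N) ℂ →ₐ[ℂ] E := aeval (Sum.elim x V) with he
  -- the chain rule in the two kinds of variables
  have chain : ∀ p, D (e p) = ∑ b, e (pderiv (Sum.inl b) p) * V b + ∑ b, e (pderiv (Sum.inr b) p) * D (V b) := by
    intro p
    rw [he, der_aeval, Fintype.sum_sum_type]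
    simp [hx]
  have hX : ∀ b, e (X (Sum.inr b)) = V b := fun b => by rw [he, aeval_X, Sum.elim_inr]
  clear_value e
  -- Cramer
  have sys : (e.mapMatrix (vmat G I)).mulVec (fun b => D (V b)) = fun l => e (rhs G I l) := by
    funext l
    have h1 := hG (I l)
    rw [chain] at h1
    have h2 : (e.mapMatrix (vmat G I)).mulVec (fun b => D (V b)) l = ∑ b, e (pderiv (Sum.inr b) (G (I l))) * D (V b) := rfl
    have h3 : e (rhs G I l) = -∑ b, e (pderiv (Sum.inl b) (G (I l))) * V b := by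
      simp only [rhs, map_neg, map_sum, map_mul, hX]
    rw [h2, h3]
    exact eq_neg_of_add_eq_zero_right h1
  have cramer : ∀ b, e (vdet G I) * D (V b) = e ((vmat G I).adjugate.mulVec (rhs G I) b) := by
    intro b
    have h1 : (e.mapMatrix (vmat G I)).adjugate.mulVec ((e.mapMatrix (vmat G I)).mulVec (fun b => D (V b))) =
        (e.mapMatrix (vmat G I)).det • fun b => D (V b) := by
      rw [Matrix.mulVec_mulVec, Matrix.adjugate_mul, Matrix.smul_mulVec, Matrix.one_mulVec]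
    have h2 : (e.mapMatrix (vmat G I)).det = e (vdet G I) := (AlgHom.map_det e (vmat G I)).symm
    have h3 : (e.mapMatrix (vmat G I)).adjugate = e.mapMatrix (vmat G I).adjugate := (AlgHom.map_adjugate e (vmat G I)).symm
    rw [h2, sys, h3] at h1
    have h4 := congrFun h1 b
    simp only [Pi.smul_apply, smul_eq_mul] at h4
    rw [← h4]
    simp only [Matrix.mulVec, dotProduct, AlgHom.mapMatrix_apply, Matrix.map_apply, map_sum, map_mul]
  have key : ∀ p, e (Dt G I p) = e (vdet G I) * D (e p) := by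
    intro p
    have h1 : Dt G I p = ∑ s, pderiv s p * fld G I s := by
      have h2 := der_aeval (Dt G I) (X : Ph N → MvPolynomial (Ph N) ℂ) p
      simp only [aeval_X_left, AlgHom.id_apply] at h2
      rw [h2]
      refine Finset.sum_congr rfl fun s _ => ?_
      rw [Dt, mkDerivation_X]
    rw [h1, map_sum, Fintype.sum_sum_type, chain, mul_add, Finset.mul_sum, Finset.mul_sum]
    congr 1
    · refine Finset.sum_congr rfl fun b _ => ?_
      simp only [fld, Sum.elim_inl, map_mul, hX]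
      ring
    · refine Finset.sum_congr rfl fun b _ => ?_
      simp only [fld, Sum.elim_inr, map_mul]
      rw [← cramer]
      ring
  intro l k
  induction k with
  | zero =>
    rw [Function.iterate_succ_apply', Function.iterate_zero_apply]
    exact (key _).trans (by rw [hG l, mul_zero])
  | succ k ih =>
    rw [Function.iterate_succ_apply']
    exact (key _).trans (by rw [ih, map_zero, mul_zero])

end Pool.Agent.GA

end

section

/-!
# GG Kcpt: compactness, bounds of the lengths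

PROOF.  `Polar` with `w = v`: `d/dt θ_k (x, (1 + t) v) = m_k θ_k (x, v) ≠ 0` for some `k` if `v ∉ ℂ x` (`no_common_zero`).  The set of the `(x, v)` with `x ∈ cone P`, `x_a = 1`, `|x_b| ≤ 1`, `v ∈ conTan P x`, `v_a = 0`, `‖v‖ = 1` is compact, and
`max_k |θ_k|` (continuous there: `= |A_(a,k)|`) is `≥ δ > 0` on it; so `|θ (x, v)| ≥ δ ‖v‖^(m_k)` for some `k`: `v` is bounded if `θ (x, v) ∈ C`.  Closed: all conditions are polynomial or closed.
`wl_bounds`: by homogeneity (`scale`, `add_smul`) one may take `x_a = 1` the largest coordinate and `v_a = 0`; there `wl x v` and `‖v‖` are comparable (`N` fixed): `‖v‖ ≤ wl x v ≤ 2 ‖v‖` (sup norms, `‖x‖ = 1`).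
-/

set_option autoImplicit false

open MvPolynomial Topology Filter Metric
open Pool.Agent.H13.SM (conTan cone)
open Pool.Agent.H62.FC (Homog)

namespace Pool.Agent.GG

variable {N : ℕ} {P : Ideal (MvPolynomial (Fin (N + 1)) ℂ)} {J : ℕ} {m : Fin J → ℕ} {θ : ∀ k, SymSec P (m k)}

theorem no_common_zero (hθ : Polar θ) (hm : ∀ k, 1 ≤ m k) {x v : Fin (N + 1) → ℂ} (hx : x ∈ cone P) (hv : v ∈ conTan P x)
    (h : ∀ k, (θ k).toFun x v = 0) : v ∈ Submodule.span ℂ {x} := by
  by_contra hne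
  obtain ⟨k, hk⟩ := hθ x hx v hv v hv hne hne
  apply hk
  have h1 : (fun t : ℂ => (θ k).toFun x (v + t • v)) = fun _ => 0 := by
    funext t
    have h2 : v + t • v = (1 + t) • v := by rw [add_smul, one_smul]
    rw [h2, (θ k).smul x hx v hv, h k, mul_zero]
  rw [h1]
  simp

/-- the section `θ_k` in the chart `x_a = 1` is a polynomial -/
private theorem Kcpt_poly (θ : ∀ k, SymSec P (m k)) (a : Fin (N + 1)) :
    ∃ A : Fin J → MvPolynomial (Ph N) ℂ, ∀ k, ∀ x ∈ cone P, x a = 1 → ∀ v ∈ conTan P x,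
      (θ k).toFun x v = eval (pt x v) (A k) := by
  choose e A hA using fun k => (θ k).regular a
  refine ⟨A, fun k x hx hxa v hv => ?_⟩
  have h1 := hA k x hx v hv
  rwa [hxa, one_pow, one_mul] at h1

/-- the closed conditions -/
private def KcptSet (P : Ideal (MvPolynomial (Fin (N + 1)) ℂ)) (a : Fin (N + 1)) : Set (Ph N → ℂ) :=
  {y | y (Sum.inl a) = 1 ∧ y (Sum.inr a) = 0 ∧ (∀ b, ‖y (Sum.inl b)‖ ≤ 1) ∧
    (∀ Q ∈ P, eval (fun b => y (Sum.inl b)) Q = 0) ∧
    ∀ Q ∈ P, ∑ i, y (Sum.inr i) * eval (fun b => y (Sum.inl b)) (pderiv i Q) = 0}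

private theorem Kcpt_cont (Q : MvPolynomial (Fin (N + 1)) ℂ) :
    Continuous fun y : Ph N → ℂ => eval (fun b => y (Sum.inl b)) Q :=
  (MvPolynomial.continuous_eval Q).comp (continuous_pi fun b => continuous_apply _)

private theorem Kcpt_closed (a : Fin (N + 1)) : IsClosed (KcptSet P a) := by
  have h1 : IsClosed {y : Ph N → ℂ | y (Sum.inl a) = 1} := isClosed_eq (continuous_apply _) continuous_const
  have h2 : IsClosed {y : Ph N → ℂ | y (Sum.inr a) = 0} := isClosed_eq (continuous_apply _) continuous_const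
  have h3 : IsClosed {y : Ph N → ℂ | ∀ b, ‖y (Sum.inl b)‖ ≤ 1} := by
    simp only [Set.ofPred_forall]
    exact isClosed_iInter fun b => isClosed_le (continuous_apply _).norm continuous_const
  have h4 : IsClosed {y : Ph N → ℂ | ∀ Q ∈ P, eval (fun b => y (Sum.inl b)) Q = 0} := by
    simp only [Set.ofPred_forall]
    exact isClosed_iInter fun Q => isClosed_iInter fun _ => isClosed_eq (Kcpt_cont Q) continuous_const
  have h5 : IsClosed {y : Ph N → ℂ | ∀ Q ∈ P, ∑ i, y (Sum.inr i) * eval (fun b => y (Sum.inl b)) (pderiv i Q) = 0} := by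
    simp only [Set.ofPred_forall]
    refine isClosed_iInter fun Q => isClosed_iInter fun _ => isClosed_eq ?_ continuous_const
    exact continuous_finsetSum _ fun i _ => (continuous_apply _).mul (Kcpt_cont _)
  exact h1.inter (h2.inter (h3.inter (h4.inter h5)))

private theorem Kcpt_mem {a : Fin (N + 1)} {y : Ph N → ℂ} (hy : y ∈ KcptSet P a) :
    (fun b => y (Sum.inl b)) ∈ cone P ∧ (fun b => y (Sum.inr b)) ∈ conTan P (fun b => y (Sum.inl b)) := by
  obtain ⟨h1, h2, h3, h4, h5⟩ := hy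
  refine ⟨⟨fun h0 => ?_, h4⟩, h5⟩
  have h6 := congrFun h0 a
  simp only [Pi.zero_apply] at h6
  rw [h1] at h6
  exact one_ne_zero h6

private theorem Kcpt_pt (y : Ph N → ℂ) : pt (fun b => y (Sum.inl b)) (fun b => y (Sum.inr b)) = y := by
  funext s
  rcases s with b | b <;> rfl

private theorem Kcpt_eq (a : Fin (N + 1)) (C : Set (Fin J → ℂ)) {A : Fin J → MvPolynomial (Ph N) ℂ}
    (hA : ∀ k, ∀ x ∈ cone P, x a = 1 → ∀ v ∈ conTan P x, (θ k).toFun x v = eval (pt x v) (A k)) :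
    Kset θ a C = KcptSet P a ∩ {y | (fun k => eval y (A k)) ∈ C} := by
  ext y
  constructor
  · rintro ⟨x, v, c, rfl, ⟨hx, hxa, hv, hva, hc⟩, hb, hcC⟩
    refine ⟨⟨hxa, hva, hb, hx.2, hv⟩, ?_⟩
    have h1 : (fun k => eval (pt x v) (A k)) = c := by
      funext k
      rw [← hA k x hx hxa v hv, hc]
    change (fun k => eval (pt x v) (A k)) ∈ C
    rw [h1]
    exact hcC
  · rintro ⟨hy, hC⟩
    obtain ⟨h1, h2⟩ := Kcpt_mem hy
    refine ⟨fun b => y (Sum.inl b), fun b => y (Sum.inr b), fun k => eval y (A k), (Kcpt_pt y).symm,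
      ⟨h1, hy.1, h2, hy.2.1, fun k => ?_⟩, hy.2.2.1, hC⟩
    rw [hA k _ h1 hy.1 _ h2, Kcpt_pt]

/-- the norm of the vector part -/
private noncomputable def Kcpt_vn (y : Ph N → ℂ) : ℝ := ‖fun b : Fin (N + 1) => y (Sum.inr b)‖

private theorem Kcpt_vn_cont : Continuous (Kcpt_vn : (Ph N → ℂ) → ℝ) :=
  (continuous_pi fun b => continuous_apply (Sum.inr b)).norm

private theorem Kcpt_norm_le {y : Ph N → ℂ} {R : ℝ} (h1 : ∀ b, ‖y (Sum.inl b)‖ ≤ 1) (h2 : Kcpt_vn y ≤ R) :
    ‖y‖ ≤ max 1 R := by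
  rw [pi_norm_le_iff_of_nonneg (le_trans zero_le_one (le_max_left _ _))]
  rintro (b | b)
  · exact (h1 b).trans (le_max_left _ _)
  · exact ((norm_le_pi_norm (fun b : Fin (N + 1) => y (Sum.inr b)) b).trans h2).trans (le_max_right _ _)

private theorem Kcpt_span {a : Fin (N + 1)} {x v : Fin (N + 1) → ℂ} (hx : x a = 1) (hv : v a = 0)
    (h : v ∈ Submodule.span ℂ {x}) : v = 0 := by
  obtain ⟨c, rfl⟩ := Submodule.mem_span_singleton.1 h
  rw [Pi.smul_apply, hx, smul_eq_mul, mul_one] at hv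
  rw [hv, zero_smul]

theorem isCompact_Kset (hθ : Polar θ) (hm : ∀ k, 1 ≤ m k) (a : Fin (N + 1)) {C : Set (Fin J → ℂ)} (hC : IsCompact C) : IsCompact (Kset θ a C) := by
  obtain ⟨A, hA⟩ := Kcpt_poly θ a
  have hcl : IsClosed (Kset θ a C) := by
    rw [Kcpt_eq a C hA]
    refine (Kcpt_closed a).inter (hC.isClosed.preimage ?_)
    exact continuous_pi fun k => MvPolynomial.continuous_eval (A k)
  -- the unit vectors
  have hS : IsCompact (KcptSet P a ∩ {y | Kcpt_vn y = 1}) := by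
    refine Metric.isCompact_of_isClosed_isBounded ((Kcpt_closed a).inter (isClosed_eq Kcpt_vn_cont continuous_const)) ?_
    refine (isBounded_closedBall (x := (0 : Ph N → ℂ)) (r := max 1 1)).subset ?_
    rintro y ⟨h1, h2⟩
    rw [mem_closedBall_zero_iff]
    exact Kcpt_norm_le h1.2.2.1 (le_of_eq h2)
  obtain ⟨δ, hδ, hδ1⟩ : ∃ δ > 0, ∀ y ∈ KcptSet P a ∩ {y | Kcpt_vn y = 1}, δ ≤ ∑ k, ‖eval y (A k)‖ := by
    rcases (KcptSet P a ∩ {y | Kcpt_vn y = 1}).eq_empty_or_nonempty with h0 | h0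
    · exact ⟨1, one_pos, fun y hy => by rw [h0] at hy; exact hy.elim⟩
    · obtain ⟨y0, hy0, hmin⟩ := hS.exists_isMinOn h0 (f := fun y => ∑ k, ‖eval y (A k)‖)
        (continuous_finsetSum _ fun k _ => (MvPolynomial.continuous_eval (A k)).norm).continuousOn
      refine ⟨∑ k, ‖eval y0 (A k)‖, ?_, fun y hy => hmin hy⟩
      obtain ⟨h1, h2⟩ := hy0
      obtain ⟨h3, h4⟩ := Kcpt_mem h1
      by_contra hneg
      have h5 : ∑ k, ‖eval y0 (A k)‖ = 0 := le_antisymm (not_lt.1 hneg) (Finset.sum_nonneg fun k _ => norm_nonneg _)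
      have h6 : ∀ k, (θ k).toFun (fun b => y0 (Sum.inl b)) (fun b => y0 (Sum.inr b)) = 0 := by
        intro k
        rw [hA k _ h3 h1.1 _ h4, Kcpt_pt]
        exact norm_eq_zero.1 ((Finset.sum_eq_zero_iff_of_nonneg fun k _ => norm_nonneg _).1 h5 k (Finset.mem_univ k))
      have h7 := Kcpt_span h1.1 h1.2.1 (no_common_zero hθ hm h3 h4 h6)
      have h8 : Kcpt_vn y0 = 0 := by
        unfold Kcpt_vn
        rw [h7, norm_zero]
      have h9 : Kcpt_vn y0 = 1 := h2
      rw [h8] at h9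
      exact zero_ne_one h9
  obtain ⟨B, hB⟩ := hC.isBounded.exists_norm_le
  refine Metric.isCompact_of_isClosed_isBounded hcl ?_
  refine (isBounded_closedBall (x := (0 : Ph N → ℂ)) (r := max 1 (max 1 ((J : ℝ) * B / δ)))).subset ?_
  rintro y ⟨x, v, c, rfl, ⟨hx, hxa, hv, hva, hc⟩, hb, hcC⟩
  rw [mem_closedBall_zero_iff]
  refine Kcpt_norm_le hb ?_
  have hvn : Kcpt_vn (pt x v) = ‖v‖ := rfl
  rw [hvn]
  rcases le_total ‖v‖ 1 with h1 | h1
  · exact h1.trans (le_max_left _ _)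
  · refine le_trans ?_ (le_max_right _ _)
    have hpos : 0 < ‖v‖ := lt_of_lt_of_le one_pos h1
    have hvc : ((‖v‖⁻¹ : ℝ) : ℂ) • v ∈ conTan P x := (conTan P x).smul_mem _ hv
    have hn1 : ‖((‖v‖⁻¹ : ℝ) : ℂ) • v‖ = 1 := by
      rw [norm_smul, Complex.norm_real, norm_inv, norm_norm, inv_mul_cancel₀ hpos.ne']
    have h2 := hδ1 (pt x (((‖v‖⁻¹ : ℝ) : ℂ) • v)) ⟨⟨hxa, by
      change (((‖v‖⁻¹ : ℝ) : ℂ) • v) a = 0
      rw [Pi.smul_apply, hva, smul_zero], hb, hx.2, hvc⟩, hn1⟩
    have h3 : ∀ k, ‖eval (pt x (((‖v‖⁻¹ : ℝ) : ℂ) • v)) (A k)‖ ≤ B * ‖v‖⁻¹ := by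
      intro k
      rw [← hA k x hx hxa _ hvc, (θ k).smul x hx v hv, hc, norm_mul, norm_pow, Complex.norm_real, norm_inv, norm_norm]
      have h4 : ‖c k‖ ≤ B := (norm_le_pi_norm c k).trans (hB c hcC)
      have h5 : ‖v‖⁻¹ ^ m k ≤ ‖v‖⁻¹ := by
        have h6 : ‖v‖⁻¹ ≤ 1 := inv_le_one_of_one_le₀ h1
        calc ‖v‖⁻¹ ^ m k ≤ ‖v‖⁻¹ ^ 1 := pow_le_pow_of_le_one (inv_nonneg.2 hpos.le) h6 (hm k)
          _ = ‖v‖⁻¹ := pow_one _
      calc ‖v‖⁻¹ ^ m k * ‖c k‖ ≤ ‖v‖⁻¹ * B := mul_le_mul h5 h4 (norm_nonneg _) (inv_nonneg.2 hpos.le)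
        _ = B * ‖v‖⁻¹ := mul_comm _ _
    have h4 : δ ≤ (J : ℝ) * (B * ‖v‖⁻¹) := by
      refine h2.trans ((Finset.sum_le_sum fun k _ => h3 k).trans (le_of_eq ?_))
      rw [Finset.sum_const, Finset.card_univ, Fintype.card_fin, nsmul_eq_mul]
    rw [le_div_iff₀ hδ]
    have h5 := mul_le_mul_of_nonneg_left h4 hpos.le
    have h6 : ‖v‖ * ((J : ℝ) * (B * ‖v‖⁻¹)) = (J : ℝ) * B := by
      field_simp
    rw [h6] at h5
    exact h5

theorem ne_zero_of_isTan (hm : ∀ k, 1 ≤ m k) {a : Fin (N + 1)} {c : Fin J → ℂ} {x v : Fin (N + 1) → ℂ} (h : IsTan θ a c x v) (hc : c ≠ 0) : v ≠ 0 := by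
  rintro rfl
  apply hc
  obtain ⟨hx, hxa, hv, hva, h1⟩ := h
  funext k
  have h2 := (θ k).smul x hx 0 hv 0
  rw [zero_smul, zero_pow (by have := hm k; omega), zero_mul] at h2
  rw [← h1 k, h2, Pi.zero_apply]

private theorem Kcpt_hg {d : ℕ} {Q : MvPolynomial (Fin (N + 1)) ℂ} (hQ : Q.IsHomogeneous d) (c : ℂ)
    (x : Fin (N + 1) → ℂ) : eval (c • x) Q = c ^ d * eval x Q := by
  rw [eval_eq', eval_eq', Finset.mul_sum]
  refine Finset.sum_congr rfl fun m hm => ?_
  have h1 : ∏ i, (c • x) i ^ m i = c ^ d * ∏ i, x i ^ m i := by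
    simp only [Pi.smul_apply, smul_eq_mul, mul_pow, Finset.prod_mul_distrib]
    rw [Finset.prod_pow_eq_pow_sum]
    have h2 := hQ (mem_support_iff.1 hm)
    rw [Finsupp.weight_apply, Finsupp.sum_fintype _ _ (by simp)] at h2
    simp only [Pi.one_apply, smul_eq_mul, mul_one] at h2
    rw [h2]
  rw [h1]
  ring

private theorem Kcpt_le (hP : Homog P) {c : ℂ} (x : Fin (N + 1) → ℂ) : conTan P x ≤ conTan P (c • x) := by
  intro v hv Q hQ
  have h1 : ∀ d, ∑ i, v i * eval (c • x) (pderiv i (homogeneousComponent d Q)) = 0 := by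
    intro d
    have h2 := hv _ (hP Q hQ d)
    have h3 : ∀ i, eval (c • x) (pderiv i (homogeneousComponent d Q)) =
        c ^ (d - 1) * eval x (pderiv i (homogeneousComponent d Q)) := fun i =>
      Kcpt_hg ((homogeneousComponent_isHomogeneous d Q).pderiv) c x
    have h4 : ∑ i, v i * eval (c • x) (pderiv i (homogeneousComponent d Q)) =
        c ^ (d - 1) * ∑ i, v i * eval x (pderiv i (homogeneousComponent d Q)) := by
      rw [Finset.mul_sum]
      refine Finset.sum_congr rfl fun i _ => ?_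
      rw [h3]
      ring
    rw [h4, h2, mul_zero]
  have h5 : ∀ i, eval (c • x) (pderiv i Q) = ∑ d ∈ Finset.range (Q.totalDegree + 1),
      eval (c • x) (pderiv i (homogeneousComponent d Q)) := by
    intro i
    conv_lhs => rw [← sum_homogeneousComponent Q]
    rw [map_sum, map_sum]
  simp only [h5, Finset.mul_sum]
  rw [Finset.sum_comm]
  exact Finset.sum_eq_zero fun d _ => h1 d

/-- the normal form of a tangent vector: `x_a = 1` is the largest coordinate, `v_a = 0` -/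
private theorem Kcpt_norm (hP : Homog P) {c₀ : Fin J → ℂ} {x : Fin (N + 1) → ℂ} (hx : x ∈ cone P) {v : Fin (N + 1) → ℂ}
    (hv : v ∈ conTan P x) (hc : ∀ k, (θ k).toFun x v = c₀ k) :
    ∃ (a : Fin (N + 1)) (y : Ph N → ℂ), y ∈ Kset θ a {c₀} ∧ Kcpt_vn y ≤ wl x v ∧ wl x v ≤ 2 * Kcpt_vn y := by
  obtain ⟨a, -, ha⟩ := Finset.exists_max_image Finset.univ (fun b => ‖x b‖) ⟨0, Finset.mem_univ _⟩
  have hxn : ‖x‖ = ‖x a‖ := le_antisymm ((pi_norm_le_iff_of_nonneg (norm_nonneg _)).2 fun b => ha b (Finset.mem_univ b))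
    (norm_le_pi_norm x a)
  have hpos : 0 < ‖x‖ := norm_pos_iff.2 hx.1
  have hxa : x a ≠ 0 := by
    rw [← norm_pos_iff, ← hxn]
    exact hpos
  obtain ⟨x', hx'⟩ : ∃ x' : Fin (N + 1) → ℂ, x' = (x a)⁻¹ • x := ⟨_, rfl⟩
  obtain ⟨v', hv'⟩ : ∃ v' : Fin (N + 1) → ℂ, v' = (x a)⁻¹ • v + (-((x a)⁻¹ * v a)) • x' := ⟨_, rfl⟩
  have hx'a : x' a = 1 := by rw [hx', Pi.smul_apply, smul_eq_mul, inv_mul_cancel₀ hxa]
  have hx'c : x' ∈ cone P := by
    refine ⟨fun h0 => ?_, ?_⟩
    · rw [h0, Pi.zero_apply] at hx'a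
      exact zero_ne_one hx'a
    · rw [hx']
      exact Pool.Agent.H13.SM.cone_smul hP hx.2 _
  have hself : x' ∈ conTan P x' := fun Q hQ => Pool.Agent.H13.SM.euler hP hx'c.2 hQ
  have hv1 : (x a)⁻¹ • v ∈ conTan P x' := by
    rw [hx']
    exact (conTan P _).smul_mem _ (Kcpt_le hP x hv)
  have hv'c : v' ∈ conTan P x' := by
    rw [hv']
    exact (conTan P x').add_mem hv1 ((conTan P x').smul_mem _ hself)
  have hv'a : v' a = 0 := by
    rw [hv', Pi.add_apply, Pi.smul_apply, Pi.smul_apply, hx'a, smul_eq_mul, smul_eq_mul, mul_one]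
    ring
  have hx'b : ∀ b, ‖x' b‖ ≤ 1 := by
    intro b
    rw [hx', Pi.smul_apply, norm_smul, norm_inv, ← hxn]
    rw [inv_mul_le_iff₀ hpos, mul_one]
    exact norm_le_pi_norm x b
  have hθ' : ∀ k, (θ k).toFun x' v' = c₀ k := by
    intro k
    rw [hv', (θ k).add_smul x' hx'c _ hv1, hx', (θ k).scale x hx v hv _ (inv_ne_zero hxa), hc]
  have hxe : ∀ p, x p = x a * x' p := by
    intro p
    rw [hx', Pi.smul_apply, smul_eq_mul, mul_inv_cancel_left₀ hxa]
  have hve : ∀ p, v p = x a * v' p + v a * x' p := by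
    intro p
    have h1 : v' p = (x a)⁻¹ * v p + (-((x a)⁻¹ * v a)) * x' p := by
      rw [hv']
      simp only [Pi.add_apply, Pi.smul_apply, smul_eq_mul]
    rw [h1]
    field_simp
    ring
  have hcr : ∀ p q, x p * v q - x q * v p = x a ^ 2 * (x' p * v' q - x' q * v' p) := by
    intro p q
    rw [hxe p, hxe q, hve p, hve q]
    ring
  have hwl : wl x v = ‖fun p : Fin (N + 1) × Fin (N + 1) => x' p.1 * v' p.2 - x' p.2 * v' p.1‖ := by
    unfold wl
    have h1 : (fun p : Fin (N + 1) × Fin (N + 1) => x p.1 * v p.2 - x p.2 * v p.1) =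
        (x a ^ 2) • fun p : Fin (N + 1) × Fin (N + 1) => x' p.1 * v' p.2 - x' p.2 * v' p.1 := by
      funext p
      rw [hcr, Pi.smul_apply, smul_eq_mul]
    rw [h1, norm_smul, norm_pow, ← hxn]
    rw [mul_div_assoc, mul_comm, div_mul_cancel₀]
    exact pow_ne_zero _ hpos.ne'
  refine ⟨a, pt x' v', ⟨x', v', c₀, rfl, ⟨hx'c, hx'a, hv'c, hv'a, hθ'⟩, hx'b, rfl⟩, ?_, ?_⟩
  · change ‖v'‖ ≤ _
    rw [hwl, pi_norm_le_iff_of_nonneg (norm_nonneg _)]
    intro q
    have h1 := norm_le_pi_norm (fun p : Fin (N + 1) × Fin (N + 1) => x' p.1 * v' p.2 - x' p.2 * v' p.1) (a, q)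
    simp only [hx'a, hv'a, one_mul, mul_zero, sub_zero] at h1
    exact h1
  · change _ ≤ 2 * ‖v'‖
    rw [hwl, pi_norm_le_iff_of_nonneg (by positivity)]
    rintro ⟨p, q⟩
    calc ‖x' p * v' q - x' q * v' p‖ ≤ ‖x' p * v' q‖ + ‖x' q * v' p‖ := norm_sub_le _ _
      _ ≤ 1 * ‖v'‖ + 1 * ‖v'‖ := by
          rw [norm_mul, norm_mul]
          exact add_le_add (mul_le_mul (hx'b p) (norm_le_pi_norm v' q) (norm_nonneg _) zero_le_one)
            (mul_le_mul (hx'b q) (norm_le_pi_norm v' p) (norm_nonneg _) zero_le_one)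
      _ = 2 * ‖v'‖ := by ring

theorem wl_bounds (hP : Homog P) (hθ : Polar θ) (hm : ∀ k, 1 ≤ m k) {c₀ : Fin J → ℂ} (hc : c₀ ≠ 0) :
    ∃ c₁ > 0, ∃ C₁ : ℝ, ∀ x ∈ cone P, ∀ v ∈ conTan P x, (∀ k, (θ k).toFun x v = c₀ k) → c₁ ≤ wl x v ∧ wl x v ≤ C₁ := by
  have hK : IsCompact (⋃ a, Kset θ a {c₀}) := isCompact_iUnion fun a => isCompact_Kset hθ hm a isCompact_singleton
  have hpos : ∀ y ∈ ⋃ a, Kset θ a {c₀}, 0 < Kcpt_vn y := by
    intro y hy
    obtain ⟨a, x, v, c, rfl, h1, h2, h3⟩ := Set.mem_iUnion.1 hy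
    have h4 : c ≠ 0 := by
      rw [Set.mem_singleton_iff.1 h3]
      exact hc
    exact norm_pos_iff.2 (ne_zero_of_isTan hm h1 h4)
  obtain ⟨c₁, hc₁, h1⟩ : ∃ c₁ > 0, ∀ y ∈ ⋃ a, Kset θ a {c₀}, c₁ ≤ Kcpt_vn y := by
    rcases (⋃ a, Kset θ a {c₀}).eq_empty_or_nonempty with h0 | h0
    · exact ⟨1, one_pos, fun y hy => by rw [h0] at hy; exact hy.elim⟩
    · obtain ⟨y0, hy0, hmin⟩ := hK.exists_isMinOn h0 Kcpt_vn_cont.continuousOn
      exact ⟨Kcpt_vn y0, hpos y0 hy0, fun y hy => hmin hy⟩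
  obtain ⟨C₁, h2⟩ : ∃ C₁, ∀ y ∈ ⋃ a, Kset θ a {c₀}, Kcpt_vn y ≤ C₁ := by
    obtain ⟨C₁, hC₁⟩ := hK.exists_bound_of_continuousOn Kcpt_vn_cont.continuousOn
    exact ⟨C₁, fun y hy => (le_abs_self _).trans (hC₁ y hy)⟩
  refine ⟨c₁, hc₁, 2 * C₁, fun x hx v hv h => ?_⟩
  obtain ⟨a, y, hy, h3, h4⟩ := Kcpt_norm hP hx hv h
  have hy' : y ∈ ⋃ a, Kset θ a {c₀} := Set.mem_iUnion.2 ⟨a, hy⟩
  exact ⟨(h1 y hy').trans h3, h4.trans (mul_le_mul_of_nonneg_left (h2 y hy') zero_le_two)⟩

end Pool.Agent.GG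

end

section

/-!
# GG Row: `N + 1` of the rows are independent

PROOF.  The rows `(∂G_l/∂v_b (x, v))_b` of `gfam`: `0` for `x_a` and `Q_j`; `e_a` for `v_a`; `dQ_j (x)` for `dQ_j v`; `∂A_(a,k)/∂v (x, v)`.  A common zero `w` of all rows has `w_a = 0`, `w ∈ conTan P x` (the `Q_j` generate `P`),
and `d/dt θ_k (x, v + t w) = d/dt A_(a,k) (x, v + t w) = 0` at `t = 0` for all `k`; `v ∉ ℂ x` since `v_a = 0`, `x_a = 1`, `v ≠ 0`; so `w ∈ ℂ x` by `Polar`, and `w = 0` since `w_a = 0`.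
So the rows span the dual space, and `N + 1` of them are independent: the determinant is not `0`.
-/

set_option autoImplicit false

open MvPolynomial Topology Filter Metric
open Pool.Agent.H13.SM (conTan cone)

namespace Pool.Agent.GG

variable {N : ℕ} {P : Ideal (MvPolynomial (Fin (N + 1)) ℂ)} {J : ℕ} {m : Fin J → ℕ} {θ : ∀ k, SymSec P (m k)}

/-- the derivative of a polynomial in the direction of `v` -/
theorem hasDerivAt_evalV (p : MvPolynomial (Ph N) ℂ) (x v w : Fin (N + 1) → ℂ) :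
    HasDerivAt (fun t : ℂ => eval (pt x (v + t • w)) p) (∑ b, eval (pt x v) (pderiv (Sum.inr b) p) * w b) 0 := by
  have h1 : HasDerivAt (fun t : ℂ => (pt x (v + t • w) : Ph N → ℂ)) (pt 0 w) 0 := by
    rw [hasDerivAt_pi]
    rintro (b | b)
    · simpa using hasDerivAt_const (0 : ℂ) (x b)
    · have h2 : HasDerivAt (fun t : ℂ => v b + t * w b) (w b) 0 := by
        simpa using ((hasDerivAt_id (0 : ℂ)).mul_const (w b)).const_add (v b)
      simpa using h2
  have h3 := Pool.Agent.H13.SM.Inv_hasFDerivAt_eval p (pt x (v + (0 : ℂ) • w))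
  have h4 := h3.comp_hasDerivAt (0 : ℂ) h1
  have h5 : (v + (0 : ℂ) • w) = v := by simp
  rw [h5] at h4
  refine (h4.congr_deriv ?_)
  simp [Fintype.sum_sum_type]

theorem pderiv_inr_rename (p : MvPolynomial (Fin (N + 1)) ℂ) (b : Fin (N + 1)) :
    pderiv (Sum.inr b : Ph N) (rename Sum.inl p) = 0 := by
  classical
  apply pderiv_eq_zero_of_notMem_vars
  intro h
  have := vars_rename (Sum.inl : Fin (N + 1) → Ph N) p h
  simp at this

/-- the rows span -/
theorem row_zero (hθ : Polar θ) (f : Frame θ) {a : Fin (N + 1)} {c : Fin J → ℂ} {x v : Fin (N + 1) → ℂ} (h : IsTan θ a c x v) (hv : v ≠ 0)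
    (w : Fin (N + 1) → ℂ) (hw : ∀ l, ∑ b, eval (pt x v) (pderiv (Sum.inr b) (gfam f a l)) * w b = 0) : w = 0 := by
  classical
  obtain ⟨hx, hxa, hvT, hva, -⟩ := h
  have hwa : w a = 0 := by
    have h1 := hw (Sum.inl (Sum.inr ()))
    simpa [gfam, pderiv_X, Pi.single_apply] using h1
  have hwQ : ∀ j, ∑ b, w b * eval x (pderiv b (f.Q j)) = 0 := by
    intro j
    have h1 := hw (Sum.inr (Sum.inl (Sum.inr j)))
    have h2 : ∀ b, eval (pt x v) (pderiv (Sum.inr b) (gfam f a (Sum.inr (Sum.inl (Sum.inr j))))) = eval x (pderiv b (f.Q j)) := by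
      intro b
      have h3 : gfam f a (Sum.inr (Sum.inl (Sum.inr j))) = ∑ b, rename Sum.inl (pderiv b (f.Q j)) * X (Sum.inr b) := rfl
      rw [h3, map_sum, map_sum, Finset.sum_eq_single b]
      · rw [Derivation.leibniz, pderiv_inr_rename]
        simp only [pderiv_X, Pi.single_eq_same, smul_eq_mul, mul_one, mul_zero, add_zero]
        rw [eval_rename]
        rfl
      · intro b' _ hb'
        rw [Derivation.leibniz, pderiv_inr_rename]
        have : (Sum.inr b : Ph N) ≠ Sum.inr b' := fun h => hb' (Sum.inr_injective h).symm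
        simp [pderiv_X, Ne.symm this]
      · intro h
        exact absurd (Finset.mem_univ b) h
    simp only [h2] at h1
    rw [← h1]
    exact Finset.sum_congr rfl fun b _ => mul_comm _ _
  have hwT : w ∈ conTan P x := by
    intro Q hQ
    rw [← f.span] at hQ
    induction hQ using Submodule.span_induction with
    | mem Q hQ =>
      obtain ⟨j, rfl⟩ := hQ
      exact hwQ j
    | zero => simp
    | add Q R _ _ hQ hR =>
      simp only [map_add, mul_add, Finset.sum_add_distrib, hQ, hR, add_zero]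
    | smul g Q hQm hQ =>
      have hQ0 : eval x Q = 0 := by
        apply hx.2
        rw [← f.span]
        exact hQm
      simp only [smul_eq_mul, Derivation.leibniz, map_add, map_mul, hQ0, zero_mul, add_zero]
      rw [show (∑ i, w i * (eval x g * eval x (pderiv i Q))) = eval x g * ∑ i, w i * eval x (pderiv i Q) by
        rw [Finset.mul_sum]; exact Finset.sum_congr rfl fun b _ => by ring]
      rw [hQ, mul_zero]
  have hvx : v ∉ Submodule.span ℂ {x} := by
    intro h
    obtain ⟨s, rfl⟩ := Submodule.mem_span_singleton.mp h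
    simp [hxa] at hva
    simp [hva] at hv
  by_contra hw0
  have hwx : w ∉ Submodule.span ℂ {x} := by
    intro h
    obtain ⟨s, rfl⟩ := Submodule.mem_span_singleton.mp h
    simp [hxa] at hwa
    simp [hwa] at hw0
  obtain ⟨k, hk⟩ := hθ x hx v hvT w hwT hvx hwx
  apply hk
  have h1 : (fun t : ℂ => (θ k).toFun x (v + t • w)) = fun t : ℂ => eval (pt x (v + t • w)) (f.A a k) := by
    funext t
    exact f.hA a k x hx hxa _ ((conTan P x).add_mem hvT ((conTan P x).smul_mem t hwT))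
  rw [h1, (hasDerivAt_evalV (f.A a k) x v w).deriv]
  exact hw (Sum.inr (Sum.inr k))

theorem exists_row (hθ : Polar θ) (f : Frame θ) {a : Fin (N + 1)} {c : Fin J → ℂ} {x v : Fin (N + 1) → ℂ} (h : IsTan θ a c x v) (hv : v ≠ 0) :
    ∃ I : Fin (N + 1) → (Unit ⊕ Unit) ⊕ (Fin f.q ⊕ Fin f.q) ⊕ Fin J, eval (pt x v) (vdet (gfam f a) I) ≠ 0 := by
  classical
  set r : (Unit ⊕ Unit) ⊕ (Fin f.q ⊕ Fin f.q) ⊕ Fin J → Fin (N + 1) → ℂ :=
    fun l b => eval (pt x v) (pderiv (Sum.inr b) (gfam f a l)) with hr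
  have hspan : Submodule.span ℂ (Set.range r) = ⊤ := by
    by_contra hne
    obtain ⟨φ, hφ, hle⟩ := Submodule.exists_le_ker_of_lt_top _ (lt_top_iff_ne_top.mpr hne)
    apply hφ
    have h1 : (fun b => φ (Pi.single b 1)) = (0 : Fin (N + 1) → ℂ) := by
      apply row_zero hθ f h hv
      intro l
      have h2 : φ (r l) = 0 := hle (Submodule.subset_span ⟨l, rfl⟩)
      rw [← h2]
      conv_rhs => rw [pi_eq_sum_univ' (r l), map_sum]
      exact Finset.sum_congr rfl fun b _ => by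
        rw [map_smul, smul_eq_mul]
    refine LinearMap.pi_ext' fun b => ?_
    ext
    simpa using congrFun h1 b
  obtain ⟨κ, g, -, hg, hli⟩ := exists_linearIndependent' ℂ r
  have : Finite κ := hli.finite
  have : Fintype κ := Fintype.ofFinite κ
  rw [hspan] at hg
  have hcard : Fintype.card κ = N + 1 := by
    have hb := Module.finrank_eq_card_basis (Module.Basis.mk hli hg.ge)
    simpa using hb.symm
  let e : Fin (N + 1) ≃ κ := (Fintype.equivFinOfCardEq hcard).symm
  refine ⟨g ∘ e, ?_⟩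
  have h2 : LinearIndependent ℂ ((vmat (gfam f a) (g ∘ e)).map (eval (pt x v))).row := by
    have h3 := hli.comp e e.injective
    exact h3
  have h4 := Matrix.linearIndependent_rows_iff_isUnit.mp h2
  rw [vdet, RingHom.map_det]
  exact ((Matrix.isUnit_iff_isUnit_det _).mp h4).ne_zero

/-- there are frames -/
theorem exists_frame (θ : ∀ k, SymSec P (m k)) : Nonempty (Frame θ) := by
  classical
  obtain ⟨q, Q, hQ⟩ := Submodule.fg_iff_exists_fin_generating_family.mp (IsNoetherian.noetherian P)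
  choose e A hA using fun (a : Fin (N + 1)) (k : Fin J) => (θ k).regular a
  exact ⟨⟨q, Q, hQ, A, fun a k x hx hxa v hv => by
    have := hA a k x hx v hv
    rwa [hxa, one_pow, one_mul] at this⟩⟩

end Pool.Agent.GG

end

section

/-!
# GA BndB: homogeneous frames, `wl` in the chart of the largest coordinate, the bound of the polar forms

`exists_homFr`: take the part of degree `m k` in `v` of the polynomials of a frame (compare the coefficients of `t ^ m` in `θ (x, t v) = t ^ m θ (x, v)`).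
`alpha_of_le`: the derivatives of a polynomial of degree `n` in `v` are homogeneous of degree `n` resp. `n - 1` in `v`.
-/

set_option autoImplicit false

open MvPolynomial Topology Filter Metric
open Pool.Agent.H13.SM (conTan cone)
open Pool.Agent.GG

namespace Pool.Agent.GA

variable {N : ℕ} {P : Ideal (MvPolynomial (Fin (N + 1)) ℂ)} {J : ℕ} {m : Fin J → ℕ} {θ : ∀ k, SymSec P (m k)}

/-- the weights: degree in `v` -/
abbrev wv (N : ℕ) : Ph N → ℕ := Sum.elim (fun _ => 0) (fun _ => 1)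

theorem weight_wv (d : Ph N →₀ ℕ) : Finsupp.weight (wv N) d = ∑ b, d (Sum.inr b) := by
  rw [Finsupp.weight_apply, Finsupp.sum_fintype _ _ (by simp), Fintype.sum_sum_type]
  simp [wv]

theorem prod_pt (x v : Fin (N + 1) → ℂ) (d : Ph N →₀ ℕ) :
    ∏ i, pt x v i ^ d i = (∏ b, x b ^ d (Sum.inl b)) * ∏ b, v b ^ d (Sum.inr b) := by
  rw [Fintype.prod_sum_type]
  rfl

theorem prod_pt_smul (x v : Fin (N + 1) → ℂ) (t : ℂ) (d : Ph N →₀ ℕ) :
    ∏ i, pt x (t • v) i ^ d i = t ^ Finsupp.weight (wv N) d * ∏ i, pt x v i ^ d i := by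
  rw [prod_pt, prod_pt, weight_wv, ← Finset.prod_pow_eq_pow_sum]
  simp only [Pi.smul_apply, smul_eq_mul, mul_pow, Finset.prod_mul_distrib]
  ring

/-- the part of degree `n` in `v` -/
theorem eval_component {A : MvPolynomial (Ph N) ℂ} {x v : Fin (N + 1) → ℂ} {a : ℂ} {n : ℕ} (h : ∀ t : ℂ, eval (pt x (t • v)) A = t ^ n * a) :
    eval (pt x v) (weightedHomogeneousComponent (wv N) n A) = a := by
  classical
  set q : Polynomial ℂ := ∑ d ∈ A.support, Polynomial.C (A.coeff d * ∏ i, pt x v i ^ d i) * Polynomial.X ^ Finsupp.weight (wv N) d with hq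
  have h1 : q = Polynomial.C a * Polynomial.X ^ n := by
    apply Polynomial.funext
    intro t
    rw [hq, Polynomial.eval_finsetSum]
    simp only [Polynomial.eval_mul, Polynomial.eval_C, Polynomial.eval_pow, Polynomial.eval_X]
    rw [mul_comm, ← h t, eval_eq']
    refine Finset.sum_congr rfl fun d _ => ?_
    rw [prod_pt_smul]
    ring
  have h2 := congrArg (fun p : Polynomial ℂ => p.coeff n) h1
  simp only [Polynomial.coeff_C_mul, Polynomial.coeff_X_pow, if_true, mul_one] at h2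
  rw [hq, Polynomial.finsetSum_coeff] at h2
  simp only [Polynomial.coeff_C_mul, Polynomial.coeff_X_pow] at h2
  rw [weightedHomogeneousComponent_apply, map_sum, Finset.sum_filter, ← h2]
  refine Finset.sum_congr rfl fun d _ => ?_
  by_cases hd : Finsupp.weight (wv N) d = n
  · rw [if_pos hd, if_pos hd.symm, mul_one, eval_monomial, Finsupp.prod_fintype _ _ (by simp)]
  · rw [if_neg hd, if_neg (Ne.symm hd), mul_zero]

theorem exists_homFr (θ : ∀ k, SymSec P (m k)) : ∃ f : Frame θ, HomFr f := by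
  obtain ⟨f⟩ := exists_frame θ
  refine ⟨⟨f.q, f.Q, f.span, fun a k => weightedHomogeneousComponent (wv N) (m k) (f.A a k), ?_⟩, ?_⟩
  · intro a k x hx hxa v hv
    refine (eval_component fun t => ?_).symm
    rw [← f.hA a k x hx hxa (t • v) ((conTan P x).smul_mem t hv), (θ k).smul x hx v hv t]
  · intro a k
    exact weightedHomogeneousComponent_isWeightedHomogeneous (w := wv N) (m k) (f.A a k)

/-- a polynomial which is homogeneous of degree `n` in `v` is bounded by `C ‖v‖ ^ n` for `‖x‖ ≤ 1` -/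
theorem hom_bound {A : MvPolynomial (Ph N) ℂ} {n : ℕ} (h : IsWeightedHomogeneous (wv N) A n) :
    ∃ C : ℝ, 0 ≤ C ∧ ∀ x v : Fin (N + 1) → ℂ, (∀ c, ‖x c‖ ≤ 1) → ‖eval (pt x v) A‖ ≤ C * ‖v‖ ^ n := by
  refine ⟨∑ d ∈ A.support, ‖A.coeff d‖, Finset.sum_nonneg fun _ _ => norm_nonneg _, fun x v hx => ?_⟩
  rw [eval_eq', Finset.sum_mul]
  refine (norm_sum_le _ _).trans (Finset.sum_le_sum fun d hd => ?_)
  have h1 : Finsupp.weight (wv N) d = n := h (mem_support_iff.1 hd)
  rw [norm_mul, prod_pt, norm_mul, norm_prod, norm_prod]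
  refine mul_le_mul_of_nonneg_left ?_ (norm_nonneg _)
  have h2 : ∏ b, ‖x b ^ d (Sum.inl b)‖ ≤ 1 := by
    refine Finset.prod_le_one (fun _ _ => norm_nonneg _) fun b _ => ?_
    rw [norm_pow]
    exact pow_le_one₀ (norm_nonneg _) (hx b)
  have h3 : ∏ b, ‖v b ^ d (Sum.inr b)‖ ≤ ‖v‖ ^ n := by
    rw [← h1, weight_wv, ← Finset.prod_pow_eq_pow_sum]
    refine Finset.prod_le_prod (fun _ _ => norm_nonneg _) fun b _ => ?_
    rw [norm_pow]
    exact pow_le_pow_left₀ (norm_nonneg _) (norm_le_pi_norm v b) _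
  calc _ ≤ 1 * ‖v‖ ^ n := mul_le_mul h2 h3 (Finset.prod_nonneg fun _ _ => norm_nonneg _) zero_le_one
    _ = _ := one_mul _

/-- in the chart of the largest coordinate `wl` is comparable to the norm -/
theorem wl_chart {b : Fin (N + 1)} {x v : Fin (N + 1) → ℂ} (h : InCh P b x v) : ‖v‖ ≤ wl x v ∧ wl x v ≤ 2 * ‖v‖ := by
  obtain ⟨-, hb, hx, -, hvb⟩ := h
  have hn : ‖x‖ = 1 := by
    refine le_antisymm ((pi_norm_le_iff_of_nonneg zero_le_one).2 hx) ?_
    calc (1 : ℝ) = ‖x b‖ := by rw [hb, norm_one]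
      _ ≤ ‖x‖ := norm_le_pi_norm x b
  have hw : wl x v = ‖fun p : Fin (N + 1) × Fin (N + 1) => x p.1 * v p.2 - x p.2 * v p.1‖ := by
    rw [wl, hn, one_pow, div_one]
  rw [hw]
  constructor
  · refine (pi_norm_le_iff_of_nonneg (norm_nonneg _)).2 fun c => ?_
    have h1 := norm_le_pi_norm (fun p : Fin (N + 1) × Fin (N + 1) => x p.1 * v p.2 - x p.2 * v p.1) (b, c)
    simp only [hb, hvb, one_mul, mul_zero, sub_zero] at h1
    exact h1
  · refine (pi_norm_le_iff_of_nonneg (by positivity)).2 fun p => ?_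
    calc ‖x p.1 * v p.2 - x p.2 * v p.1‖ ≤ ‖x p.1‖ * ‖v p.2‖ + ‖x p.2‖ * ‖v p.1‖ := by
          refine (norm_sub_le _ _).trans ?_
          rw [norm_mul, norm_mul]
      _ ≤ 1 * ‖v‖ + 1 * ‖v‖ := by
          gcongr
          · exact hx _
          · exact norm_le_pi_norm v _
          · exact hx _
          · exact norm_le_pi_norm v _
      _ = 2 * ‖v‖ := by ring

/-- `alpha_bound` from the conclusion of `le_bound` -/
theorem alpha_of_le (hm : ∀ k, 1 ≤ m k) (f : Frame θ) (hf : HomFr f)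
    (hle : ∃ C : ℝ, ∀ (b : Fin (N + 1)) (x v V U : Fin (N + 1) → ℂ),
      InCh P b x v → v ≠ 0 → V ∈ conTan P x → V b = 0 → (∀ l, ∑ s, eval (pt x v) (pderiv s (gfam f b l)) * pt V U s = 0) → ‖U‖ ≤ C * ‖v‖ * ‖V‖) :
    ∃ C : ℝ, ∀ (b : Fin (N + 1)) (x v V U : Fin (N + 1) → ℂ),
      InCh P b x v → v ≠ 0 → V ∈ conTan P x → V b = 0 → (∀ l, ∑ s, eval (pt x v) (pderiv s (gfam f b l)) * pt V U s = 0) →
      ∀ k, ‖∑ s, eval (pt x V) (pderiv s (f.A b k)) * pt v U s‖ ≤ C * ‖v‖ * ‖V‖ ^ m k := by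
  obtain ⟨C₀, hC₀⟩ := hle
  have hx : ∀ (b : Fin (N + 1)) (k : Fin J) (c : Fin (N + 1)), ∃ C : ℝ, 0 ≤ C ∧ ∀ x v : Fin (N + 1) → ℂ, (∀ c, ‖x c‖ ≤ 1) →
      ‖eval (pt x v) (pderiv (Sum.inl c) (f.A b k))‖ ≤ C * ‖v‖ ^ m k := fun b k c =>
    hom_bound ((hf b k).pderiv (n' := m k) (by simp))
  have hv : ∀ (b : Fin (N + 1)) (k : Fin J) (c : Fin (N + 1)), ∃ C : ℝ, 0 ≤ C ∧ ∀ x v : Fin (N + 1) → ℂ, (∀ c, ‖x c‖ ≤ 1) →
      ‖eval (pt x v) (pderiv (Sum.inr c) (f.A b k))‖ ≤ C * ‖v‖ ^ (m k - 1) := fun b k c =>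
    hom_bound ((hf b k).pderiv (n' := m k - 1) (by simpa using Nat.sub_add_cancel (hm k)))
  choose C₁ h1 h1' using hx
  choose C₂ h2 h2' using hv
  refine ⟨∑ b, ∑ k, ((∑ c, C₁ b k c) + (∑ c, C₂ b k c) * max C₀ 0), fun b x v V U hI hv0 hV hVb hU k => ?_⟩
  have hUb := hC₀ b x v V U hI hv0 hV hVb hU
  have hxc := hI.2.2.1
  have hUb' : ‖U‖ ≤ max C₀ 0 * ‖v‖ * ‖V‖ := by
    refine hUb.trans ?_
    gcongr
    exact le_max_left _ _
  have hterm : ‖∑ s, eval (pt x V) (pderiv s (f.A b k)) * pt v U s‖ ≤ ((∑ c, C₁ b k c) + (∑ c, C₂ b k c) * max C₀ 0) * (‖v‖ * ‖V‖ ^ m k) := by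
    rw [Fintype.sum_sum_type, add_mul]
    refine (norm_add_le _ _).trans (add_le_add ?_ ?_)
    · refine (norm_sum_le _ _).trans ?_
      rw [Finset.sum_mul]
      refine Finset.sum_le_sum fun c _ => ?_
      rw [norm_mul]
      calc _ ≤ (C₁ b k c * ‖V‖ ^ m k) * ‖v‖ := by
            have h5 : 0 ≤ C₁ b k c := h1 b k c
            exact mul_le_mul (h1' b k c x V hxc) (norm_le_pi_norm v c) (norm_nonneg _) (by positivity)
        _ = _ := by ring
    · refine (norm_sum_le _ _).trans ?_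
      rw [Finset.sum_mul, Finset.sum_mul]
      refine Finset.sum_le_sum fun c _ => ?_
      rw [norm_mul]
      calc _ ≤ (C₂ b k c * ‖V‖ ^ (m k - 1)) * (max C₀ 0 * ‖v‖ * ‖V‖) := by
            have h3 : ‖U c‖ ≤ max C₀ 0 * ‖v‖ * ‖V‖ := (norm_le_pi_norm U c).trans hUb'
            have h4 := h2' b k c x V hxc
            have h5 : 0 ≤ C₂ b k c := h2 b k c
            exact mul_le_mul h4 h3 (norm_nonneg _) (by positivity)
        _ = C₂ b k c * max C₀ 0 * (‖v‖ * (‖V‖ ^ (m k - 1) * ‖V‖)) := by ring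
        _ = _ := by
          rw [← pow_succ, Nat.sub_add_cancel (hm k)]
  have hnn : ∀ b k, 0 ≤ (∑ c, C₁ b k c) + (∑ c, C₂ b k c) * max C₀ 0 := fun b k =>
    add_nonneg (Finset.sum_nonneg fun c _ => h1 b k c) (mul_nonneg (Finset.sum_nonneg fun c _ => h2 b k c) (le_max_right _ _))
  refine hterm.trans ?_
  rw [mul_assoc]
  refine mul_le_mul_of_nonneg_right ?_ (by positivity)
  refine (Finset.single_le_sum (f := fun k => (∑ c, C₁ b k c) + (∑ c, C₂ b k c) * max C₀ 0) (fun k _ => hnn b k) (Finset.mem_univ k)).trans ?_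
  exact Finset.single_le_sum (f := fun b => ∑ k, ((∑ c, C₁ b k c) + (∑ c, C₂ b k c) * max C₀ 0)) (fun b _ => Finset.sum_nonneg fun k _ => hnn b k)
    (Finset.mem_univ b)

end Pool.Agent.GA

end

section

/-!
# GA SmlArea: a holomorphic function which is dominated by the speed is bounded by the area
-/

set_option autoImplicit false

open Topology Filter Metric MeasureTheory Set

noncomputable section

namespace Pool.Agent.GA

/-- the integrals over the vertical segments are continuous -/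
theorem sml_continuousOn_int {h : ℂ → ℝ} (hc : ContinuousOn h HP) (a b : ℝ) :
    ContinuousOn (fun t : ℝ => ∫ y in a..b, h (t + y * Complex.I)) (Ioi 0) := by
  intro t₀ ht₀
  have ht₀ : 0 < t₀ := ht₀
  have ha : 0 < t₀ / 2 := by positivity
  obtain ⟨k, hk⟩ : ∃ k : ℂ → ℝ, k = fun z => h ((max z.re (t₀ / 2) : ℝ) + z.im * Complex.I) := ⟨_, rfl⟩
  have hkc : Continuous k := by
    rw [hk]
    refine hc.comp_continuous (by fun_prop) fun z => ?_
    simp only [HP, mem_ofPred_eq, Complex.add_re, Complex.ofReal_re, Complex.mul_re, Complex.I_re, mul_zero, Complex.ofReal_im, Complex.I_im, mul_one, sub_self,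
      add_zero]
    exact lt_of_lt_of_le ha (le_max_right _ _)
  have h1 : Continuous (fun t : ℝ => ∫ y in a..b, k (t + y * Complex.I)) := by
    refine intervalIntegral.continuous_parametric_intervalIntegral_of_continuous' ?_ _ _
    exact hkc.comp (by fun_prop)
  have h2 : (fun t : ℝ => ∫ y in a..b, h (t + y * Complex.I)) =ᶠ[𝓝 t₀] fun t : ℝ => ∫ y in a..b, k (t + y * Complex.I) := by
    filter_upwards [eventually_gt_nhds (show t₀ / 2 < t₀ by linarith)] with t ht
    refine intervalIntegral.integral_congr fun y _ => ?_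
    simp only [hk]
    congr 1
    simp [max_eq_left ht.le]
  exact (h1.continuousAt.congr h2.symm).continuousWithinAt

/-- the means over the vertical segments are continuous -/
theorem sml_continuousOn_mn {h : ℂ → ℝ} (hc : ContinuousOn h HP) : ContinuousOn (mn h) (Ioi 0) := sml_continuousOn_int hc 0 (2 * Real.pi)

/-- a holomorphic function which is dominated by the speed is bounded by the area -/
theorem sml_area {s : ℂ → ℝ} (hs : Speed s) {g : ℂ → ℂ} (hg : ∀ w ∈ HP, AnalyticAt ℂ g w) {p C : ℝ} (hp : 0 < p) (hC : 0 ≤ C)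
    (hle : ∀ w ∈ HP, ‖g w‖ ^ p ≤ C * s w ^ 2) {w : ℂ} {h : ℝ} (hh : 0 < h) (hh1 : h ≤ Real.pi) (hw : 1 ≤ w.re - h) :
    Real.pi * h ^ 2 * ‖g w‖ ^ p ≤ C * AA s (w.re + h) := by
  have hsc : ContinuousOn (fun w => s w ^ 2) HP := hs.cont.pow 2
  have hball : closedBall w h ⊆ HP := by
    intro z hz
    have h1 : ‖z - w‖ ≤ h := by simpa [dist_eq_norm] using hz
    have h2 := (Complex.abs_re_le_norm (z - w)).trans h1
    rw [Complex.sub_re, abs_le] at h2
    change 0 < z.re
    linarith [h2.1]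
  have hsq : (Icc (w.re - h) (w.re + h) ×ℂ Icc (w.im - h) (w.im + h)) ⊆ HP := by
    intro z hz
    have h1 : w.re - h ≤ z.re := hz.1.1
    change 0 < z.re
    linarith
  have h1 := rpow_le_square (s := g) (e := fun w => s w ^ 2) (c := w) hh hp hC (fun z hz => hg z (hball hz)) (hsc.mono hsq) (fun z _ => sq_nonneg _)
    (fun z hz => hle z (hball hz))
  refine h1.trans (mul_le_mul_of_nonneg_left ?_ hC)
  have hline : ∀ x : ℝ, 0 < x → ∀ y : ℝ, (x + y * Complex.I : ℂ) ∈ HP := by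
    intro x hx y
    simpa [HP] using hx
  have hcy : ∀ x : ℝ, 0 < x → Continuous fun y : ℝ => s (x + y * Complex.I) ^ 2 := fun x hx =>
    hsc.comp_continuous (by fun_prop) (hline x hx)
  -- the inner integral
  have hin : ∀ x : ℝ, 0 < x → (∫ y in (w.im - h)..(w.im + h), s (x + y * Complex.I) ^ 2) ≤ mn (fun w => s w ^ 2) x := by
    intro x hx
    have hper : Function.Periodic (fun y : ℝ => s (x + y * Complex.I) ^ 2) (2 * Real.pi) := by
      intro y
      have h2 : (x + (y + 2 * Real.pi : ℝ) * Complex.I : ℂ) = (x + y * Complex.I) + per := by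
        rw [per]
        push_cast
        ring
      simp only
      rw [h2, hs.periodic _ (hline x hx y)]
    have h3 : mn (fun w => s w ^ 2) x = ∫ y in (w.im - Real.pi)..(w.im + Real.pi), s (x + y * Complex.I) ^ 2 := by
      have := hper.intervalIntegral_add_eq 0 (w.im - Real.pi)
      rw [zero_add, show w.im - Real.pi + 2 * Real.pi = w.im + Real.pi by ring] at this
      exact this
    rw [h3]
    refine intervalIntegral.integral_mono_interval (by linarith) (by linarith) (by linarith) (Eventually.of_forall fun y => sq_nonneg _)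
      ((hcy x hx).intervalIntegrable _ _)
  have hmc : ContinuousOn (mn fun w => s w ^ 2) (Ioi 0) := sml_continuousOn_mn hsc
  have hmi : ∀ a b : ℝ, 1 ≤ a → 1 ≤ b → IntervalIntegrable (mn fun w => s w ^ 2) volume a b := by
    intro a b ha hb
    refine (hmc.mono ?_).intervalIntegrable
    intro x hx
    have : min a b ≤ x := hx.1
    have h2 : 1 ≤ min a b := le_min ha hb
    change 0 < x
    linarith
  have hmn0 : ∀ x, 0 ≤ mn (fun w => s w ^ 2) x := fun x =>
    intervalIntegral.integral_nonneg (by positivity) fun y _ => sq_nonneg _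
  have hle1 : (∫ x in (w.re - h)..(w.re + h), ∫ y in (w.im - h)..(w.im + h), s (x + y * Complex.I) ^ 2) ≤ ∫ x in (w.re - h)..(w.re + h), mn (fun w => s w ^ 2) x := by
    refine intervalIntegral.integral_mono_on (by linarith) ?_ (hmi _ _ hw (by linarith)) fun x hx => hin x (by linarith [hx.1])
    refine ((sml_continuousOn_int hsc (w.im - h) (w.im + h)).mono ?_).intervalIntegrable
    intro x hx
    rw [uIcc_of_le (by linarith)] at hx
    change 0 < x
    linarith [hx.1]
  refine hle1.trans ?_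
  rw [AA, max_eq_left (by linarith)]
  exact intervalIntegral.integral_mono_interval hw (by linarith) le_rfl (Eventually.of_forall fun x => hmn0 x) (hmi _ _ le_rfl (by linarith))

/-- the area is monotone -/
theorem sml_AA_mono {s : ℂ → ℝ} (hs : Speed s) : Monotone (AA s) := by
  intro a b hab
  have hmc : ContinuousOn (mn fun w => s w ^ 2) (Ioi 0) := sml_continuousOn_mn (hs.cont.pow 2)
  have hmn0 : ∀ x, 0 ≤ mn (fun w => s w ^ 2) x := fun x =>
    intervalIntegral.integral_nonneg (by positivity) fun y _ => sq_nonneg _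
  refine intervalIntegral.integral_mono_interval le_rfl (le_max_right _ _) (max_le_max_right _ hab) (Eventually.of_forall fun x => hmn0 x) ?_
  refine (hmc.mono ?_).intervalIntegrable
  intro x hx
  rw [uIcc_of_le (le_max_right _ _)] at hx
  change 0 < x
  linarith [hx.1]

end Pool.Agent.GA

end
end
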