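import Pool.Agent.H18.GGT.M04

/-! The parts of this file: GA.DerExt, GA.EndC0, GA.GroCore, GG.Kd.Tr, TN.Osg, GG.Ode, GG.OdeG. -/

section

/-!
# GA DerExt: extension of a derivation of a domain to a field which contains it (characteristic `0`)
-/

set_option autoImplicit false

open scoped TensorProduct

noncomputable section

namespace Pool.Agent.GA

private theorem derExt_smooth {A E : Type} [CommRing A] [IsDomain A] [Field E] [Algebra ℂ A] [Algebra ℂ E] [Algebra A E] [IsScalarTower ℂ A E]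
    (hinj : Function.Injective (algebraMap A E)) : Algebra.FormallySmooth A E := by
  have : FaithfulSMul A E := (faithfulSMul_iff_algebraMap_injective A E).2 hinj
  let K := FractionRing A
  let _ : Algebra K E := FractionRing.liftAlgebra A E
  have : IsScalarTower A K E := FractionRing.isScalarTower_liftAlgebra A E
  have : CharZero E := charZero_of_injective_algebraMap (algebraMap ℂ E).injective
  have : CharZero A := charZero_of_injective_algebraMap (FaithfulSMul.algebraMap_injective ℂ A)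
  have : CharZero K := charZero_of_injective_algebraMap (FaithfulSMul.algebraMap_injective A K)
  have h1 : Algebra.FormallySmooth A K := .of_isLocalization (nonZeroDivisors A)
  obtain ⟨s, hs⟩ := exists_isTranscendenceBasis K E
  have h2 : Algebra.IsAlgebraic (IntermediateField.adjoin K (Set.range ((↑) : s → E))) E := hs.isAlgebraic_field
  have h3 : Algebra.IsSeparable (IntermediateField.adjoin K (Set.range ((↑) : s → E))) E := inferInstance
  have h4 : Algebra.FormallySmooth K E := .of_algebraicIndependent_of_isSeparable hs.1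
  exact .comp A K E

/-- MODULE DerExt -/
theorem exists_ext {A E : Type} [CommRing A] [IsDomain A] [Field E] [Algebra ℂ A] [Algebra ℂ E] [Algebra A E] [IsScalarTower ℂ A E]
    (hinj : Function.Injective (algebraMap A E)) (d : Derivation ℂ A E) : ∃ D : Derivation ℂ E E, ∀ a, D (algebraMap A E a) = d a := by
  have := derExt_smooth (A := A) (E := E) hinj
  have h1 : Function.Injective (KaehlerDifferential.mapBaseChange ℂ A E) := by
    rw [← LinearMap.ker_eq_bot, LinearMap.ker_eq_bot']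
    intro x hx
    obtain ⟨y, hy⟩ := (Algebra.H1Cotangent.exact_δ_mapBaseChange ℂ A E x).1 hx
    rw [← hy, Subsingleton.elim y 0, map_zero]
  obtain ⟨p, hp⟩ := LinearMap.exists_leftInverse_of_injective (KaehlerDifferential.mapBaseChange ℂ A E) (LinearMap.ker_eq_bot.2 h1)
  let l : Ω[A⁄ℂ] →ₗ[A] E := d.liftKaehlerDifferential
  let l' : Ω[E⁄ℂ] →ₗ[E] E := (l.liftBaseChange E).comp p
  refine ⟨l'.compDer (KaehlerDifferential.D ℂ E), fun a => ?_⟩
  have h2 : p (KaehlerDifferential.D ℂ E (algebraMap A E a)) = 1 ⊗ₜ[A] KaehlerDifferential.D ℂ A a := by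
    have h3 := LinearMap.congr_fun hp (1 ⊗ₜ[A] KaehlerDifferential.D ℂ A a)
    rw [LinearMap.comp_apply, KaehlerDifferential.mapBaseChange_tmul, one_smul, KaehlerDifferential.map_D, LinearMap.id_apply] at h3
    exact h3
  change l.liftBaseChange E (p (KaehlerDifferential.D ℂ E (algebraMap A E a))) = _
  rw [h2, LinearMap.liftBaseChange_tmul, one_smul]
  exact Derivation.liftKaehlerDifferential_comp_D d a

end Pool.Agent.GA

end
end

section

/-!
# GA EndC0: a derivation of a field from a solution of the linearised relations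
-/

set_option autoImplicit false

open MvPolynomial

noncomputable section

namespace Pool.Agent.GA

/-- If `V` satisfies the linearised equation of every algebraic relation of `x` over `O`, then there is a derivation over `O` with `D (x b) = V b`. -/
theorem exists_der_of_rel {σ O E : Type} [Fintype σ] [CommRing O] [Algebra ℂ O] [Field E] [Algebra ℂ E] (φ : O →+* E)
    (hφ : ∀ c : ℂ, φ (algebraMap ℂ O c) = algebraMap ℂ E c) (x V : σ → E)
    (h : ∀ R : MvPolynomial σ O, eval₂ φ x R = 0 → ∑ b, eval₂ φ x (pderiv b R) * V b = 0) :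
    ∃ D : Derivation ℂ E E, (∀ g, D (φ g) = 0) ∧ ∀ b, D (x b) = V b := by
  classical
  let ψ : MvPolynomial σ O →ₐ[ℂ] E :=
    { toRingHom := eval₂Hom φ x
      commutes' := fun c => by
        show eval₂Hom φ x (algebraMap ℂ (MvPolynomial σ O) c) = algebraMap ℂ E c
        rw [IsScalarTower.algebraMap_apply ℂ O (MvPolynomial σ O), MvPolynomial.algebraMap_eq, eval₂Hom_C, hφ] }
  have hψ : ∀ R, ψ R = eval₂ φ x R := fun _ => rfl
  let δ : MvPolynomial σ O → E := fun R => ∑ b, ψ (pderiv b R) * V b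
  have hδ : ∀ R R', ψ R = ψ R' → δ R = δ R' := by
    intro R R' hRR
    have h1 := h (R - R') (by rw [← hψ, map_sub, hRR, sub_self])
    have h2 : δ R - δ R' = 0 := by
      rw [← h1, ← Finset.sum_sub_distrib]
      refine Finset.sum_congr rfl fun b _ => ?_
      rw [← hψ, map_sub, map_sub, sub_mul]
    exact sub_eq_zero.1 h2
  have hadd : ∀ R R', δ (R + R') = δ R + δ R' := by
    intro R R'
    rw [← Finset.sum_add_distrib]
    refine Finset.sum_congr rfl fun b _ => ?_
    rw [map_add, map_add, add_mul]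
  have hmul : ∀ R R', δ (R * R') = ψ R * δ R' + ψ R' * δ R := by
    intro R R'
    rw [Finset.mul_sum, Finset.mul_sum, ← Finset.sum_add_distrib]
    refine Finset.sum_congr rfl fun b _ => ?_
    rw [Derivation.leibniz, smul_eq_mul, smul_eq_mul, map_add, map_mul, map_mul]
    ring
  have hC : ∀ g, δ (C g) = 0 := by
    intro g
    refine Finset.sum_eq_zero fun b _ => ?_
    rw [pderiv_C, map_zero, zero_mul]
  have hX : ∀ b, δ (X b) = V b := by
    intro b
    show ∑ b', ψ (pderiv b' (X b)) * V b' = V b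
    rw [Finset.sum_eq_single b]
    · rw [pderiv_X_self, map_one, one_mul]
    · intro b' _ hb
      rw [pderiv_X_of_ne hb.symm, map_zero, zero_mul]
    · intro hb
      exact absurd (Finset.mem_univ b) hb
  have hsmul : ∀ (c : ℂ) R, δ (c • R) = c • δ R := by
    intro c R
    rw [Finset.smul_sum]
    refine Finset.sum_congr rfl fun b _ => ?_
    have h1 : pderiv b (c • R) = c • pderiv b R := by
      have h2 : c • R = (algebraMap ℂ O c) • R := (algebraMap_smul O c R).symm
      have h3 : c • pderiv b R = (algebraMap ℂ O c) • pderiv b R := (algebraMap_smul O c _).symm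
      rw [h2, h3]
      exact (pderiv b).map_smul _ _
    rw [h1, map_smul, smul_mul_assoc]
  let A : Subalgebra ℂ E := ψ.range
  let r : A → MvPolynomial σ O := fun a => a.2.choose
  have hr : ∀ a : A, ψ (r a) = a := fun a => a.2.choose_spec
  let d : Derivation ℂ A E := Derivation.mk'
    { toFun := fun a => δ (r a)
      map_add' := fun a b => by
        rw [← hadd]
        refine hδ _ _ ?_
        rw [map_add, hr, hr, hr]
        rfl
      map_smul' := fun c a => by
        rw [RingHom.id_apply, ← hsmul]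
        refine hδ _ _ ?_
        rw [map_smul, hr, hr]
        rfl }
    (fun a b => by
      show δ (r (a * b)) = (a : E) * δ (r b) + (b : E) * δ (r a)
      rw [← hr a, ← hr b, ← hmul]
      refine hδ _ _ ?_
      rw [map_mul, hr, hr, hr]
      rfl)
  have hd : ∀ R, d ⟨ψ R, R, rfl⟩ = δ R := fun R => hδ _ _ (hr ⟨ψ R, R, rfl⟩)
  obtain ⟨D, hD⟩ := exists_ext (A := A) (E := E) Subtype.val_injective d
  have hD' : ∀ R, D (ψ R) = δ R := fun R => (hD ⟨ψ R, R, rfl⟩).trans (hd R)
  refine ⟨D, fun g => ?_, fun b => ?_⟩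
  · have h1 := hD' (C g)
    rw [hC, hψ, eval₂_C] at h1
    exact h1
  · have h1 := hD' (X b)
    rw [hX, hψ, eval₂_X] at h1
    exact h1

end Pool.Agent.GA

end
end

section

/-!
# GA GroCore: growth of the solutions of `|a'| ≤ C √e |a|` in the half-plane

`norm_le_exp`: Gronwall's inequality with a variable coefficient.
`gro_core`: if `a` is holomorphic in the half-plane `Re w > 0` and `‖a'‖ ≤ C √e ‖a‖`, then the mean of `log⁺ ‖a‖` over `Re w = X` is at most
`C' + C √(2 π (X - 1)) √(∫_1^X ∫ e)`: Gronwall on the horizontal rays and the Cauchy–Schwarz inequality.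
-/

set_option autoImplicit false

open Filter Topology MeasureTheory intervalIntegral Set

namespace Pool.Agent.GA

variable {E : Type*} [NormedAddCommGroup E] [NormedSpace ℝ E]

private theorem norm_le_exp_aux {f f' : ℝ → E} {k : ℝ → ℝ} {a b : ℝ} (hab : a ≤ b) (hf : ∀ t ∈ Icc a b, HasDerivAt f (f' t) t) (hk : Continuous k)
    (h : ∀ t ∈ Icc a b, ‖f' t‖ ≤ k t * ‖f t‖) {ε : ℝ} (hε : 0 < ε) :
    ‖f b‖ ≤ (‖f a‖ + ε) * Real.exp ((∫ t in a..b, k t) + ε * (b - a)) := by
  have hK : ∀ x, HasDerivAt (fun x => ∫ t in a..x, k t) (k x) x := fun x => (hk.integral_hasStrictDerivAt a x).hasDerivAt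
  have hB : ∀ x, HasDerivAt (fun x => (‖f a‖ + ε) * Real.exp ((∫ t in a..x, k t) + ε * (x - a)))
      ((‖f a‖ + ε) * (Real.exp ((∫ t in a..x, k t) + ε * (x - a)) * (k x + ε * 1))) x := fun x =>
    ((((hK x).add (((hasDerivAt_id x).sub_const a).const_mul ε)).exp).const_mul _)
  refine image_norm_le_of_norm_deriv_right_lt_deriv_boundary (f := f) (f' := f') (a := a) (b := b)
    (fun x hx => (hf x hx).continuousAt.continuousWithinAt) (fun x hx => (hf x ⟨hx.1, hx.2.le⟩).hasDerivWithinAt) ?_ hB ?_ (right_mem_Icc.2 hab)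
  · simp [hε.le]
  · intro x hx hxB
    have h1 := h x ⟨hx.1, hx.2.le⟩
    have h2 : 0 < (‖f a‖ + ε) * Real.exp ((∫ t in a..x, k t) + ε * (x - a)) := by positivity
    calc ‖f' x‖ ≤ k x * ‖f x‖ := h1
      _ = k x * ((‖f a‖ + ε) * Real.exp ((∫ t in a..x, k t) + ε * (x - a))) := by rw [hxB]
      _ < (k x + ε * 1) * ((‖f a‖ + ε) * Real.exp ((∫ t in a..x, k t) + ε * (x - a))) := by
        refine mul_lt_mul_of_pos_right ?_ h2
        linarith
      _ = (‖f a‖ + ε) * (Real.exp ((∫ t in a..x, k t) + ε * (x - a)) * (k x + ε * 1)) := by ring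

/-- **Gronwall's inequality** with a variable coefficient. -/
theorem norm_le_exp {f f' : ℝ → E} {k : ℝ → ℝ} {a b : ℝ} (hab : a ≤ b) (hf : ∀ t ∈ Icc a b, HasDerivAt f (f' t) t) (hk : ContinuousOn k (Icc a b))
    (h : ∀ t ∈ Icc a b, ‖f' t‖ ≤ k t * ‖f t‖) : ‖f b‖ ≤ ‖f a‖ * Real.exp (∫ t in a..b, k t) := by
  have hk' : Continuous (IccExtend hab ((Icc a b).domRestrict k)) := by
    apply Continuous.Icc_extend'
    exact continuousOn_iff_continuous_domRestrict.1 hk
  have he : ∀ t ∈ Icc a b, IccExtend hab ((Icc a b).domRestrict k) t = k t := fun t ht => by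
    rw [IccExtend_of_mem _ _ ht]
    rfl
  have hint : ∫ t in a..b, IccExtend hab ((Icc a b).domRestrict k) t = ∫ t in a..b, k t := by
    refine intervalIntegral.integral_congr fun t ht => ?_
    rw [uIcc_of_le hab] at ht
    exact he t ht
  have h1 : ∀ ε : ℝ, 0 < ε → ‖f b‖ ≤ (‖f a‖ + ε) * Real.exp ((∫ t in a..b, k t) + ε * (b - a)) := by
    intro ε hε
    have h2 := norm_le_exp_aux hab hf hk' (fun t ht => by rw [he t ht]; exact h t ht) hε
    rwa [hint] at h2
  have h3 : Tendsto (fun ε : ℝ => (‖f a‖ + ε) * Real.exp ((∫ t in a..b, k t) + ε * (b - a))) (𝓝[>] 0)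
      (𝓝 ((‖f a‖ + 0) * Real.exp ((∫ t in a..b, k t) + 0 * (b - a)))) := by
    refine Tendsto.mono_left ?_ nhdsWithin_le_nhds
    exact (by fun_prop : Continuous fun ε : ℝ => (‖f a‖ + ε) * Real.exp ((∫ t in a..b, k t) + ε * (b - a))).tendsto 0
  have h4 := ge_of_tendsto h3 (eventually_mem_nhdsWithin.mono fun ε hε => h1 ε hε)
  simpa using h4

open Real in
/-- Gronwall's inequality for `log⁺`. -/
theorem posLog_norm_le {f f' : ℝ → E} {k : ℝ → ℝ} {a b : ℝ} (hab : a ≤ b) (hf : ∀ t ∈ Icc a b, HasDerivAt f (f' t) t) (hk : ContinuousOn k (Icc a b))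
    (hk0 : ∀ t ∈ Icc a b, 0 ≤ k t) (h : ∀ t ∈ Icc a b, ‖f' t‖ ≤ k t * ‖f t‖) : log⁺ ‖f b‖ ≤ log⁺ ‖f a‖ + ∫ t in a..b, k t := by
  have h1 := norm_le_exp hab hf hk h
  have h2 : 0 ≤ ∫ t in a..b, k t := intervalIntegral.integral_nonneg hab hk0
  calc log⁺ ‖f b‖ ≤ log⁺ (‖f a‖ * Real.exp (∫ t in a..b, k t)) := posLog_le_posLog (norm_nonneg _) h1
    _ ≤ log⁺ ‖f a‖ + log⁺ (Real.exp (∫ t in a..b, k t)) := posLog_mul
    _ = log⁺ ‖f a‖ + ∫ t in a..b, k t := by
      rw [posLog_eq_log (x := Real.exp (∫ t in a..b, k t)) (by rw [abs_of_pos (Real.exp_pos _)]; exact Real.one_le_exp h2), Real.log_exp]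

private theorem sqrt_le_aux {x l : ℝ} (hx : 0 ≤ x) (hl : 0 < l) : √x ≤ (l * x + l⁻¹) / 2 := by
  have h1 := Real.sq_sqrt hx
  have h2 : 0 ≤ (l * √x - 1) ^ 2 := sq_nonneg _
  have h4 : (l * √x - 1) ^ 2 = l * (l * √x ^ 2) - l * (2 * √x) + 1 := by ring
  rw [h1] at h4
  have h3 : l * (2 * √x) ≤ l * (l * x + l⁻¹) := by
    rw [mul_add, mul_inv_cancel₀ hl.ne']
    linarith
  linarith [le_of_mul_le_mul_left h3 hl]

private theorem le_sqrt_aux {I A B : ℝ} (hA : 0 ≤ A) (hB : 0 ≤ B) (h : ∀ l : ℝ, 0 < l → I ≤ (l * A + l⁻¹ * B) / 2) : I ≤ √B * √A := by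
  have h1 : ∀ ε : ℝ, 0 < ε → I ≤ √(B + ε) * √(A + ε) := by
    intro ε hε
    have hA' : 0 < √(A + ε) := Real.sqrt_pos.2 (by linarith)
    have hB' : 0 < √(B + ε) := Real.sqrt_pos.2 (by linarith)
    have h2 := h (√(B + ε) / √(A + ε)) (by positivity)
    have hA2 : A ≤ √(A + ε) ^ 2 := by rw [Real.sq_sqrt (by linarith)]; linarith
    have hB2 : B ≤ √(B + ε) ^ 2 := by rw [Real.sq_sqrt (by linarith)]; linarith
    have h3 : √(B + ε) / √(A + ε) * A ≤ √(B + ε) / √(A + ε) * √(A + ε) ^ 2 := mul_le_mul_of_nonneg_left hA2 (by positivity)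
    have h4 : (√(B + ε) / √(A + ε))⁻¹ * B ≤ (√(B + ε) / √(A + ε))⁻¹ * √(B + ε) ^ 2 := mul_le_mul_of_nonneg_left hB2 (by positivity)
    have h5 : √(B + ε) / √(A + ε) * √(A + ε) ^ 2 = √(B + ε) * √(A + ε) := by field_simp
    have h6 : (√(B + ε) / √(A + ε))⁻¹ * √(B + ε) ^ 2 = √(B + ε) * √(A + ε) := by field_simp
    linarith
  have h3 : Tendsto (fun ε : ℝ => √(B + ε) * √(A + ε)) (𝓝[>] 0) (𝓝 (√(B + 0) * √(A + 0))) := by
    refine Tendsto.mono_left ?_ nhdsWithin_le_nhds
    exact (by fun_prop : Continuous fun ε : ℝ => √(B + ε) * √(A + ε)).tendsto 0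
  have h4 := ge_of_tendsto h3 (eventually_mem_nhdsWithin.mono fun ε hε => h1 ε hε)
  simpa using h4

open Real in
/-- **The growth of `a`.** -/
theorem gro_core {F : Type*} [NormedAddCommGroup F] [NormedSpace ℂ F] {a : ℂ → F} {e : ℂ → ℝ} (ha : DifferentiableOn ℂ a {w | 0 < w.re})
    (he : ContinuousOn e {w | 0 < w.re}) (he0 : ∀ w, 0 < w.re → 0 ≤ e w) {C : ℝ} (hC : 0 ≤ C) (h : ∀ w : ℂ, 0 < w.re → ‖deriv a w‖ ≤ C * √(e w) * ‖a w‖) :
    ∀ X : ℝ, 1 ≤ X → ∫ y in (0 : ℝ)..2 * π, log⁺ ‖a (X + y * Complex.I)‖ ≤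
      (∫ y in (0 : ℝ)..2 * π, log⁺ ‖a (1 + y * Complex.I)‖) + C * (√(2 * π * (X - 1)) * √(∫ t in (1 : ℝ)..X, ∫ y in (0 : ℝ)..2 * π, e (t + y * Complex.I))) := by
  intro X hX
  have hopen : IsOpen {w : ℂ | 0 < w.re} := isOpen_lt continuous_const Complex.continuous_re
  have hre : ∀ t y : ℝ, ((t : ℂ) + y * Complex.I).re = t := fun t y => by simp
  have h2π : (0 : ℝ) ≤ 2 * π := by positivity
  -- the continuous extension of `e`
  obtain ⟨e', he'⟩ : ∃ e' : ℝ → ℝ → ℝ, e' = fun t (y : ℝ) => e (((max t 1 : ℝ) : ℂ) + (y : ℂ) * Complex.I) := ⟨_, rfl⟩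
  have he'c : Continuous (Function.uncurry e') := by
    rw [he']
    have h1 : Continuous fun q : ℝ × ℝ => (((max q.1 1 : ℝ) : ℂ) + q.2 * Complex.I) := by fun_prop
    refine continuous_iff_continuousAt.2 fun q => ?_
    have h2 : 0 < ((((max q.1 1 : ℝ) : ℂ) + q.2 * Complex.I)).re := by
      rw [hre]
      exact lt_of_lt_of_le one_pos (le_max_right _ _)
    exact ContinuousAt.comp (f := fun q : ℝ × ℝ => (((max q.1 1 : ℝ) : ℂ) + q.2 * Complex.I)) (g := e)
      (he.continuousAt (hopen.mem_nhds h2)) h1.continuousAt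
  have he'e : ∀ t y : ℝ, 1 ≤ t → e' t y = e (t + y * Complex.I) := fun t y ht => by
    rw [he']
    simp only [max_eq_left ht]
  have he'0 : ∀ t y : ℝ, 0 ≤ e' t y := fun t y => by
    rw [he']
    refine he0 _ ?_
    rw [hre]
    exact lt_of_lt_of_le one_pos (le_max_right _ _)
  have hIe : ∫ t in (1 : ℝ)..X, ∫ y in (0 : ℝ)..2 * π, e (t + y * Complex.I) = ∫ t in (1 : ℝ)..X, ∫ y in (0 : ℝ)..2 * π, e' t y := by
    refine intervalIntegral.integral_congr fun t ht => ?_
    rw [uIcc_of_le hX] at ht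
    exact intervalIntegral.integral_congr fun y _ => (he'e t y ht.1).symm
  -- Fubini
  have hfub : ∫ y in (0 : ℝ)..2 * π, ∫ t in (1 : ℝ)..X, e' t y = ∫ t in (1 : ℝ)..X, ∫ y in (0 : ℝ)..2 * π, e' t y := by
    symm
    refine intervalIntegral_intervalIntegral_swap ?_
    have h1 : IntegrableOn (Function.uncurry e') (uIcc 1 X ×ˢ uIcc 0 (2 * π)) := he'c.continuousOn.integrableOn_compact (isCompact_uIcc.prod isCompact_uIcc)
    exact h1.mono_set (Set.prod_mono uIoc_subset_uIcc uIoc_subset_uIcc)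
  have hc1 : Continuous fun y : ℝ => ∫ t in (1 : ℝ)..X, e' t y :=
    intervalIntegral.continuous_parametric_intervalIntegral_of_continuous' (f := fun y t => e' t y) (he'c.comp continuous_swap) 1 X
  have hA0 : 0 ≤ ∫ t in (1 : ℝ)..X, ∫ y in (0 : ℝ)..2 * π, e' t y :=
    intervalIntegral.integral_nonneg hX fun t _ => intervalIntegral.integral_nonneg h2π fun y _ => he'0 t y
  -- `a` on the vertical lines
  have hac : ∀ t : ℝ, 0 < t → Continuous fun y : ℝ => log⁺ ‖a (t + y * Complex.I)‖ := by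
    intro t ht
    have h1 : Continuous fun y : ℝ => ((t : ℂ) + y * Complex.I) := by fun_prop
    have h2 : Continuous fun y : ℝ => a (t + y * Complex.I) := by
      refine continuous_iff_continuousAt.2 fun y => ?_
      have h3 : 0 < ((t : ℂ) + y * Complex.I).re := by rw [hre]; exact ht
      exact ContinuousAt.comp (f := fun y : ℝ => ((t : ℂ) + y * Complex.I)) (g := a) (ha.continuousOn.continuousAt (hopen.mem_nhds h3)) h1.continuousAt
    exact Real.continuous_posLog.comp h2.norm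
  have hac1 : Continuous fun y : ℝ => log⁺ ‖a (1 + y * Complex.I)‖ := by
    have := hac 1 one_pos
    simpa using this
  -- the estimate on a ray
  have hray : ∀ y : ℝ, log⁺ ‖a (X + y * Complex.I)‖ ≤ log⁺ ‖a (1 + y * Complex.I)‖ + C * ∫ t in (1 : ℝ)..X, √(e' t y) := by
    intro y
    have h1 : ∀ t ∈ Icc (1 : ℝ) X, HasDerivAt (fun t : ℝ => a (t + y * Complex.I)) (deriv a (t + y * Complex.I)) t := by
      intro t ht
      have h2 : 0 < ((t : ℂ) + y * Complex.I).re := by rw [hre]; linarith [ht.1]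
      have h3 : HasDerivAt a (deriv a (t + y * Complex.I)) ((t : ℂ) + y * Complex.I) := (ha.differentiableAt (hopen.mem_nhds h2)).hasDerivAt
      have h4 : HasDerivAt (fun t : ℝ => ((t : ℂ) + y * Complex.I)) 1 t := (Complex.ofRealCLM.hasDerivAt (x := t)).add_const (y * Complex.I)
      have h5 := h3.scomp t h4
      rw [one_smul] at h5
      exact h5
    have hkc : Continuous fun t => C * √(e' t y) := by
      have : Continuous fun t => e' t y := he'c.comp (by fun_prop : Continuous fun t : ℝ => (t, y))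
      fun_prop
    let _ : NormedSpace ℝ F := NormedSpace.complexToReal
    have h2 := posLog_norm_le hX h1 hkc.continuousOn (fun t _ => by positivity) (fun t ht => by
      rw [he'e t y ht.1]
      exact h _ (by rw [hre]; linarith [ht.1]))
    rw [intervalIntegral.integral_const_mul] at h2
    simpa using h2
  -- integrate
  have hlam : ∀ l : ℝ, 0 < l → (∫ y in (0 : ℝ)..2 * π, ∫ t in (1 : ℝ)..X, √(e' t y)) ≤
      (l * (∫ t in (1 : ℝ)..X, ∫ y in (0 : ℝ)..2 * π, e' t y) + l⁻¹ * (2 * π * (X - 1))) / 2 := by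
    intro l hl
    have hc2 : Continuous fun y : ℝ => ∫ t in (1 : ℝ)..X, √(e' t y) :=
      intervalIntegral.continuous_parametric_intervalIntegral_of_continuous' (f := fun y t => √(e' t y)) ((he'c.comp continuous_swap).sqrt) 1 X
    calc (∫ y in (0 : ℝ)..2 * π, ∫ t in (1 : ℝ)..X, √(e' t y)) ≤ ∫ y in (0 : ℝ)..2 * π, (l * (∫ t in (1 : ℝ)..X, e' t y) + l⁻¹ * (X - 1)) / 2 := by
          refine intervalIntegral.integral_mono_on h2π (hc2.intervalIntegrable _ _) (Continuous.intervalIntegrable (by fun_prop) _ _) fun y _ => ?_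
          have hcy : Continuous fun t => e' t y := he'c.comp (by fun_prop : Continuous fun t : ℝ => (t, y))
          have h3 : ∫ t in (1 : ℝ)..X, √(e' t y) ≤ ∫ t in (1 : ℝ)..X, (l * e' t y + l⁻¹) / 2 :=
            intervalIntegral.integral_mono_on hX (hcy.sqrt.intervalIntegrable _ _) (Continuous.intervalIntegrable (by fun_prop) _ _)
              fun t _ => sqrt_le_aux (he'0 t y) hl
          refine h3.trans (le_of_eq ?_)
          rw [intervalIntegral.integral_div, intervalIntegral.integral_add ((hcy.const_mul l).intervalIntegrable _ _) intervalIntegrable_const,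
            intervalIntegral.integral_const_mul, intervalIntegral.integral_const, smul_eq_mul]
          ring
      _ = (l * (∫ t in (1 : ℝ)..X, ∫ y in (0 : ℝ)..2 * π, e' t y) + l⁻¹ * (2 * π * (X - 1))) / 2 := by
          rw [intervalIntegral.integral_div, intervalIntegral.integral_add ((hc1.const_mul l).intervalIntegrable _ _) intervalIntegrable_const,
            intervalIntegral.integral_const_mul, intervalIntegral.integral_const, smul_eq_mul, hfub]
          ring
  have hcs := le_sqrt_aux hA0 (by have := Real.pi_pos; nlinarith : (0 : ℝ) ≤ 2 * π * (X - 1)) hlam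
  have hc2 : Continuous fun y : ℝ => ∫ t in (1 : ℝ)..X, √(e' t y) :=
    intervalIntegral.continuous_parametric_intervalIntegral_of_continuous' (f := fun y t => √(e' t y)) ((he'c.comp continuous_swap).sqrt) 1 X
  calc ∫ y in (0 : ℝ)..2 * π, log⁺ ‖a (X + y * Complex.I)‖ ≤ ∫ y in (0 : ℝ)..2 * π, (log⁺ ‖a (1 + y * Complex.I)‖ + C * ∫ t in (1 : ℝ)..X, √(e' t y)) :=
        intervalIntegral.integral_mono_on h2π ((hac X (by linarith)).intervalIntegrable _ _)
          ((hac1.add (hc2.const_mul C)).intervalIntegrable _ _) fun y _ => hray y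
    _ = (∫ y in (0 : ℝ)..2 * π, log⁺ ‖a (1 + y * Complex.I)‖) + C * ∫ y in (0 : ℝ)..2 * π, ∫ t in (1 : ℝ)..X, √(e' t y) := by
        rw [intervalIntegral.integral_add (hac1.intervalIntegrable _ _) ((hc2.const_mul C).intervalIntegrable _ _), intervalIntegral.integral_const_mul]
    _ ≤ _ := by
        rw [hIe]
        exact add_le_add_right (mul_le_mul_of_nonneg_left hcs hC) _

end Pool.Agent.GA

end

section

/-!
# GG Kd Tr: divided differences and the trace lemma

PROOF of `trace_lemma`.  Let `F = ℂ(t)`, `D = det (q_ij) ∈ ℂ[Y, Y']` with the divided differences `q_ij` of `G_i`.  For an embedding `σ` of `K` over `F` into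
an algebraic closure: `D (y, σ y) = 0` if `σ` is not the inclusion, because `∑_j (y_j - σ y_j) q_ij (y, σ y) = G_i (y) - G_i (σ y) = 0`, and
`D (y, σ y) = J (y)` for the inclusion.  By induction on `p ∈ ℂ[Y, Y']`: `∑_σ σ (c) p (y, σ y) ∈ ℂ[t, y]` for all integral `c`.
-/

set_option autoImplicit false

open MvPolynomial

noncomputable section

namespace Pool.Agent.GG.Kd

/-- Divided differences.  (Induction on `G`; for a product `G (Y) H (Y) - G (Y') H (Y') = G (Y) (H (Y) - H (Y')) + H (Y') (G (Y) - G (Y'))`.) -/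
theorem exists_diff {r : ℕ} (G : MvPolynomial (Fin r) ℂ) : ∃ q : Fin r → MvPolynomial (Fin r ⊕ Fin r) ℂ,
    rename Sum.inl G - rename Sum.inr G = ∑ j, (X (Sum.inl j) - X (Sum.inr j)) * q j ∧
      ∀ j, aeval (Sum.elim X X : Fin r ⊕ Fin r → MvPolynomial (Fin r) ℂ) (q j) = pderiv j G := by
  classical
  induction G using MvPolynomial.induction_on with
  | C a => exact ⟨0, by simp, fun j => by simp⟩
  | add p q hp hq =>
    obtain ⟨a, ha, ha'⟩ := hp
    obtain ⟨b, hb, hb'⟩ := hq
    refine ⟨a + b, ?_, fun j => by simp only [Pi.add_apply, map_add, ha', hb']⟩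
    simp only [map_add, Pi.add_apply, mul_add, Finset.sum_add_distrib]
    rw [← ha, ← hb]
    ring
  | mul_X p i hp =>
    obtain ⟨a, ha, ha'⟩ := hp
    refine ⟨fun j => (if j = i then rename Sum.inl p else 0) + X (Sum.inr i) * a j, ?_, fun j => ?_⟩
    · have h1 : ∑ j, (X (Sum.inl j) - X (Sum.inr j)) * ((if j = i then rename Sum.inl p else 0) + X (Sum.inr i) * a j) =
          (X (Sum.inl i) - X (Sum.inr i)) * rename Sum.inl p + X (Sum.inr i) * ∑ j, (X (Sum.inl j) - X (Sum.inr j)) * a j := by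
        simp only [mul_add, Finset.sum_add_distrib, mul_ite, mul_zero, Finset.sum_ite_eq', Finset.mem_univ, if_true, Finset.mul_sum]
        congr 1
        exact Finset.sum_congr rfl fun j _ => by ring
      rw [h1, ← ha]
      simp only [map_mul, rename_X]
      ring
    · rw [Derivation.leibniz, pderiv_X, map_add, map_mul, ha', aeval_X]
      have h2 : aeval (Sum.elim X X : Fin r ⊕ Fin r → MvPolynomial (Fin r) ℂ) (rename Sum.inl p) = p := by
        rw [aeval_rename]
        exact aeval_X_left_apply p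
      by_cases hij : j = i
      · subst hij
        rw [if_pos rfl, h2, Pi.single_eq_same, smul_eq_mul, smul_eq_mul, mul_one, Sum.elim_inr]
      · rw [if_neg hij, map_zero, zero_add, Pi.single_eq_of_ne (Ne.symm hij), smul_zero, zero_add, smul_eq_mul, Sum.elim_inr]

open scoped IntermediateField.algebraAdjoinAdjoin in
/-- `J c ∈ ℂ[t, y]` for all `c` integral over `ℂ[t]`. -/
theorem trace_lemma {K : Type} [Field K] [Algebra ℂ K] {n r : ℕ} {t : Fin n → K} (ht : IsTranscendenceBasis ℂ t) (y : Fin r → K)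
    (hy : ∀ i, IsIntegral (Algebra.adjoin ℂ (Set.range t)) (y i)) (hgen : IntermediateField.adjoin ℂ (Set.range t ∪ Set.range y) = ⊤)
    (G : Fin r → MvPolynomial (Fin r) ℂ) (hG : ∀ i, aeval y (G i) ∈ Algebra.adjoin ℂ (Set.range t)) {c : K}
    (hc : IsIntegral (Algebra.adjoin ℂ (Set.range t)) c) :
    aeval y (Matrix.det fun i j => pderiv j (G i)) * c ∈ Algebra.adjoin ℂ (Set.range t ∪ Set.range y) := by
  classical
  have hic : IsIntegrallyClosed (Algebra.adjoin ℂ (Set.range t)) := IsIntegrallyClosed.of_equiv (ht.1.aevalEquiv.toRingEquiv)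
  have hyF : ∀ i, IsIntegral (IntermediateField.adjoin ℂ (Set.range t)) (y i) := fun i => (hy i).tower_top
  have htop : IntermediateField.adjoin (IntermediateField.adjoin ℂ (Set.range t)) (Set.range y) = ⊤ := by
    have h1 := IntermediateField.adjoin_adjoin_left ℂ (Set.range t) (Set.range y)
    rw [hgen] at h1
    rw [eq_top_iff]
    intro x _
    have h2 : x ∈ IntermediateField.restrictScalars ℂ (IntermediateField.adjoin (IntermediateField.adjoin ℂ (Set.range t)) (Set.range y)) := by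
      rw [h1]
      trivial
    exact h2
  have hfin : FiniteDimensional (IntermediateField.adjoin ℂ (Set.range t)) K := by
    have h1 : FiniteDimensional (IntermediateField.adjoin ℂ (Set.range t))
        (IntermediateField.adjoin (IntermediateField.adjoin ℂ (Set.range t)) (Set.range y)) :=
      IntermediateField.finiteDimensional_adjoin (by rintro _ ⟨i, rfl⟩; exact hyF i)
    rw [htop] at h1
    exact IntermediateField.topEquiv.toLinearEquiv.finiteDimensional
  have htop' : Algebra.adjoin (IntermediateField.adjoin ℂ (Set.range t)) (Set.range y) = ⊤ := by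
    rw [← IntermediateField.adjoin_toSubalgebra_of_isAlgebraic (by rintro _ ⟨i, rfl⟩; exact (hyF i).isAlgebraic), htop]
    rfl
  have htr : ∀ c : K, IsIntegral (Algebra.adjoin ℂ (Set.range t)) c → ∃ e : Algebra.adjoin ℂ (Set.range t),
      algebraMap K (AlgebraicClosure K) (e : K) = ∑ σ : K →ₐ[IntermediateField.adjoin ℂ (Set.range t)] AlgebraicClosure K, σ c := by
    intro c hc
    have h1 : IsIntegral (Algebra.adjoin ℂ (Set.range t)) (Algebra.trace (IntermediateField.adjoin ℂ (Set.range t)) K c) :=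
      Algebra.isIntegral_trace hc
    obtain ⟨e, he⟩ := IsIntegrallyClosed.isIntegral_iff.1 h1
    refine ⟨e, ?_⟩
    rw [← trace_eq_sum_embeddings (AlgebraicClosure K), ← he]
    rfl
  have hmono1 : Algebra.adjoin ℂ (Set.range t) ≤ Algebra.adjoin ℂ (Set.range t ∪ Set.range y) := Algebra.adjoin_mono Set.subset_union_left
  have hmono2 : ∀ j, y j ∈ Algebra.adjoin ℂ (Set.range t ∪ Set.range y) := fun j => Algebra.subset_adjoin (Or.inr ⟨j, rfl⟩)
  have key : ∀ p : MvPolynomial (Fin r ⊕ Fin r) ℂ, ∀ c : K, IsIntegral (Algebra.adjoin ℂ (Set.range t)) c →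
      ∃ e ∈ Algebra.adjoin ℂ (Set.range t ∪ Set.range y), algebraMap K (AlgebraicClosure K) e =
        ∑ σ : K →ₐ[IntermediateField.adjoin ℂ (Set.range t)] AlgebraicClosure K,
          σ c * aeval (Sum.elim (fun j => algebraMap K (AlgebraicClosure K) (y j)) fun j => σ (y j)) p := by
    intro p
    induction p using MvPolynomial.induction_on with
    | C a =>
      intro c hc
      obtain ⟨e, he⟩ := htr c hc
      refine ⟨(e : K) * algebraMap ℂ K a, mul_mem (hmono1 e.2) (Subalgebra.algebraMap_mem _ _), ?_⟩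
      rw [map_mul, he, Finset.sum_mul]
      refine Finset.sum_congr rfl fun σ _ => ?_
      rw [algHom_C, ← IsScalarTower.algebraMap_apply ℂ K (AlgebraicClosure K)]
    | add p q hp hq =>
      intro c hc
      obtain ⟨e, he, he'⟩ := hp c hc
      obtain ⟨f, hf, hf'⟩ := hq c hc
      refine ⟨e + f, add_mem he hf, ?_⟩
      simp only [map_add, mul_add, Finset.sum_add_distrib, he', hf']
    | mul_X p i hp =>
      intro c hc
      rcases i with i | i
      · obtain ⟨e, he, he'⟩ := hp c hc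
        refine ⟨e * y i, mul_mem he (hmono2 i), ?_⟩
        rw [map_mul, he', Finset.sum_mul]
        refine Finset.sum_congr rfl fun σ _ => ?_
        rw [map_mul, aeval_X, Sum.elim_inl, mul_assoc]
      · obtain ⟨e, he, he'⟩ := hp (c * y i) (hc.mul (hy i))
        refine ⟨e, he, ?_⟩
        rw [he']
        refine Finset.sum_congr rfl fun σ _ => ?_
        rw [map_mul, map_mul, aeval_X, Sum.elim_inr]
        ring
  choose q hq hq' using fun i => exists_diff (G i)
  obtain ⟨e, he, he'⟩ := key (Matrix.det (Matrix.of fun i j => q i j)) c hc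
  have hmem : ∀ i, ∃ g : IntermediateField.adjoin ℂ (Set.range t), (g : K) = aeval y (G i) := fun i =>
    ⟨⟨aeval y (G i), IntermediateField.algebra_adjoin_le_adjoin ℂ _ (hG i)⟩, rfl⟩
  set σ₀ : K →ₐ[IntermediateField.adjoin ℂ (Set.range t)] AlgebraicClosure K := IsScalarTower.toAlgHom _ K (AlgebraicClosure K) with hσ₀
  have hzero : ∀ σ : K →ₐ[IntermediateField.adjoin ℂ (Set.range t)] AlgebraicClosure K, σ ≠ σ₀ →
      aeval (Sum.elim (fun j => algebraMap K (AlgebraicClosure K) (y j)) fun j => σ (y j)) (Matrix.det (Matrix.of fun i j => q i j)) = 0 := by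
    intro σ hσ
    rw [AlgHom.map_det]
    rw [← Matrix.exists_mulVec_eq_zero_iff]
    refine ⟨fun j => algebraMap K (AlgebraicClosure K) (y j) - σ (y j), ?_, ?_⟩
    · intro h
      apply hσ
      apply AlgHom.ext_of_adjoin_eq_top htop'
      rintro _ ⟨j, rfl⟩
      have h1 := congrFun h j
      simp only [Pi.zero_apply] at h1
      exact (sub_eq_zero.1 h1).symm
    · funext i
      have h1 := congrArg (aeval (Sum.elim (fun j => algebraMap K (AlgebraicClosure K) (y j)) fun j => σ (y j))) (hq i)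
      rw [map_sub, aeval_rename, aeval_rename, map_sum] at h1
      obtain ⟨g, hg⟩ := hmem i
      have h2 : aeval ((Sum.elim (fun j => algebraMap K (AlgebraicClosure K) (y j)) fun j => σ (y j)) ∘ Sum.inl) (G i) =
          algebraMap K (AlgebraicClosure K) (aeval y (G i)) := by
        have h3 := comp_aeval_apply (IsScalarTower.toAlgHom ℂ K (AlgebraicClosure K)) (f := y) (G i)
        exact h3.symm
      have h3 : aeval ((Sum.elim (fun j => algebraMap K (AlgebraicClosure K) (y j)) fun j => σ (y j)) ∘ Sum.inr) (G i) =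
          σ (aeval y (G i)) := by
        have h3 := comp_aeval_apply (σ.restrictScalars ℂ) (f := y) (G i)
        exact h3.symm
      have h4 : σ (aeval y (G i)) = algebraMap K (AlgebraicClosure K) (aeval y (G i)) := by
        rw [← hg]
        exact σ.commutes g
      rw [h2, h3, h4, sub_self] at h1
      simp only [map_mul, map_sub, aeval_X, Sum.elim_inl, Sum.elim_inr] at h1
      rw [Pi.zero_apply, Matrix.mulVec, dotProduct, h1]
      refine Finset.sum_congr rfl fun j _ => ?_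
      rw [mul_comm]
      rfl
  have hone : aeval (Sum.elim (fun j => algebraMap K (AlgebraicClosure K) (y j)) fun j => σ₀ (y j)) (Matrix.det (Matrix.of fun i j => q i j)) =
      algebraMap K (AlgebraicClosure K) (aeval y (Matrix.det (Matrix.of fun i j => pderiv j (G i)))) := by
    rw [AlgHom.map_det, AlgHom.map_det, RingHom.map_det]
    congr 1
    ext i j
    have h1 : aeval (Sum.elim (fun j => algebraMap K (AlgebraicClosure K) (y j)) fun j => σ₀ (y j)) (q i j) =
        aeval (fun j => algebraMap K (AlgebraicClosure K) (y j)) (aeval (Sum.elim X X : Fin r ⊕ Fin r → MvPolynomial (Fin r) ℂ) (q i j)) := by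
      rw [comp_aeval_apply]
      congr 2
      funext s
      rcases s with s | s
      · simp
      · simp [hσ₀]
    have h2 : aeval (fun j => algebraMap K (AlgebraicClosure K) (y j)) (pderiv j (G i)) =
        algebraMap K (AlgebraicClosure K) (aeval y (pderiv j (G i))) :=
      (comp_aeval_apply (IsScalarTower.toAlgHom ℂ K (AlgebraicClosure K)) (f := y) (pderiv j (G i))).symm
    show aeval (Sum.elim (fun j => algebraMap K (AlgebraicClosure K) (y j)) fun j => σ₀ (y j)) (q i j) = algebraMap K (AlgebraicClosure K) (aeval y (pderiv j (G i)))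
    rw [h1, hq', h2]
  rw [Finset.sum_eq_single σ₀ (fun σ _ hσ => by rw [hzero σ hσ, mul_zero]) (fun h => absurd (Finset.mem_univ _) h), hone] at he'
  have h5 : σ₀ c = algebraMap K (AlgebraicClosure K) c := rfl
  rw [h5, ← map_mul] at he'
  have h6 := (algebraMap K (AlgebraicClosure K)).injective he'
  rw [mul_comm]
  have h7 : c * aeval y (Matrix.det fun i j => pderiv j (G i)) = e := h6.symm
  rw [h7]
  exact he

end Pool.Agent.GG.Kd

end
end

section

/-!
# TN Osg: bounded separately holomorphic functions of several variables are analytic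

Induction on the number of variables, for all complex Banach spaces `E` at once.  For `f : ℂ × (Fin k → ℂ) → E` put
`G y = (θ ↦ f (a + ρ e^(iθ), y))`, a function with values in the Banach space of the bounded continuous functions `ℝ → E`; it is bounded and separately
holomorphic (`osg_unif`: the Schwarz lemma and the Cauchy formula are uniform in `θ`), so analytic by induction, and
`2 π i f (z, y) = ∫ (D (X - z)⁻¹) (θ) • G y (θ) dθ` with `X - z` in the Banach algebra of the bounded continuous functions `ℝ → ℂ`.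
-/

set_option autoImplicit false

open Topology Filter Metric

namespace Pool.Agent.TN

/-- a bounded function of one variable with values in a space of bounded functions which is pointwise holomorphic is holomorphic -/
private theorem osg_unif {T : Type*} [TopologicalSpace T] {E : Type*} [NormedAddCommGroup E] [NormedSpace ℂ E] [CompleteSpace E]
    {φ : ℂ → BoundedContinuousFunction T E} {s M : ℝ} (hs : 0 < s) (hM : ∀ t ∈ ball (0:ℂ) s, ‖φ t‖ ≤ M)
    (hd : ∀ θ, ∀ t ∈ ball (0:ℂ) s, DifferentiableAt ℂ (fun t => φ t θ) t) : DifferentiableAt ℂ φ 0 := by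
  have hM0 : 0 ≤ M := (norm_nonneg _).trans (hM 0 (mem_ball_self hs))
  have hcont : ContinuousOn φ (ball (0:ℂ) s) := by
    intro t0 ht0
    have ht0' : dist t0 0 < s := ht0
    set s' : ℝ := s - dist t0 0 with hs'
    have hs0 : 0 < s' := by linarith
    have hsub : ball t0 s' ⊆ ball (0:ℂ) s := by
      intro w hw
      have hw' : dist w t0 < s' := hw
      have := dist_triangle w t0 0
      rw [mem_ball]
      linarith
    have key : ∀ t ∈ ball t0 s', dist (φ t) (φ t0) ≤ (2 * M) / s' * dist t t0 := by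
      intro t ht
      rw [BoundedContinuousFunction.dist_le (by positivity)]
      intro θ
      refine Complex.dist_le_div_mul_dist_of_mapsTo_ball (f := fun t => φ t θ)
        (fun x hx => (hd θ x (hsub hx)).differentiableWithinAt) ?_ ht
      intro w hw
      rw [mem_closedBall, dist_eq_norm]
      calc ‖φ w θ - φ t0 θ‖ ≤ ‖φ w θ‖ + ‖φ t0 θ‖ := norm_sub_le _ _
        _ ≤ M + M := add_le_add (((φ w).norm_coe_le_norm θ).trans (hM w (hsub hw))) (((φ t0).norm_coe_le_norm θ).trans (hM t0 ht0))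
        _ = 2 * M := by ring
    refine ContinuousAt.continuousWithinAt ?_
    show Tendsto φ (𝓝 t0) (𝓝 (φ t0))
    rw [tendsto_iff_dist_tendsto_zero]
    have ht : Tendsto (fun t : ℂ => (2 * M) / s' * dist t t0) (𝓝 t0) (𝓝 0) := by
      have e1 : Tendsto (fun t : ℂ => (2 * M) / s' * dist t t0) (𝓝 t0) (𝓝 ((2 * M) / s' * dist t0 t0)) :=
        ((continuous_const.mul (continuous_id.dist continuous_const)).tendsto t0)
      simpa using e1
    refine squeeze_zero' (Eventually.of_forall fun _ => dist_nonneg) ?_ ht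
    filter_upwards [ball_mem_nhds t0 hs0] with t ht
    exact key t ht
  set R : NNReal := ⟨s / 2, by positivity⟩ with hRd
  have hR : (0:ℝ) < R := by show 0 < s / 2; positivity
  have hRs : (R:ℝ) < s := by show s / 2 < s; linarith
  have hsph : closedBall (0:ℂ) R ⊆ ball 0 s := closedBall_subset_ball hRs
  have hci : CircleIntegrable φ 0 R := by
    refine ContinuousOn.circleIntegrable hR.le ?_
    exact hcont.mono (sphere_subset_closedBall.trans hsph)
  have hps := hasFPowerSeriesOn_cauchy_integral hci (by exact_mod_cast hR)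
  have hana : AnalyticAt ℂ (fun w => (2 * Real.pi * Complex.I : ℂ)⁻¹ • ∮ z in C(0, R), (z - w)⁻¹ • φ z) 0 := hps.analyticAt
  refine (hana.congr ?_).differentiableAt
  filter_upwards [ball_mem_nhds (0:ℂ) hR] with w hw
  show (2 * Real.pi * Complex.I : ℂ)⁻¹ • (∮ z in C(0, R), (z - w)⁻¹ • φ z) = φ w
  ext θ
  have hint : CircleIntegrable (fun z => (z - w)⁻¹ • φ z) 0 R := by
    refine ContinuousOn.circleIntegrable hR.le ?_
    have hinv : ContinuousOn (fun z : ℂ => (z - w)⁻¹) (sphere (0:ℂ) (R:ℝ)) := by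
      refine ContinuousOn.inv₀ (by fun_prop) ?_
      intro z hz h0
      have hz' : dist z 0 = (R:ℝ) := hz
      have hw' : dist w 0 < (R:ℝ) := hw
      rw [sub_eq_zero.1 h0] at hz'
      exact absurd hz' hw'.ne
    exact hinv.smul (hcont.mono (sphere_subset_closedBall.trans hsph))
  have hev : (∮ z in C(0, R), (z - w)⁻¹ • φ z) θ = ∮ z in C(0, R), (z - w)⁻¹ • φ z θ := by
    have h := ContinuousLinearMap.intervalIntegral_comp_comm (BoundedContinuousFunction.evalCLM ℂ (β := E) θ) hint.out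
    rw [circleIntegral, circleIntegral]
    exact h.symm
  have hcf : (∮ z in C(0, R), (z - w)⁻¹ • φ z θ) = (2 * Real.pi * Complex.I : ℂ) • φ w θ :=
    DifferentiableOn.circleIntegral_sub_inv_smul (f := fun z => φ z θ)
      (fun x hx => (hd θ x (hsph hx)).differentiableWithinAt) hw
  show (2 * Real.pi * Complex.I : ℂ)⁻¹ • ((∮ z in C(0, R), (z - w)⁻¹ • φ z) θ) = φ w θ
  rw [hev, hcf, smul_smul, inv_mul_cancel₀ Complex.two_pi_I_ne_zero, one_smul]

/-- the bilinear map `(g, h) ↦ ∫ g h` -/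
private theorem osg_bil (E : Type*) [NormedAddCommGroup E] [NormedSpace ℂ E] :
    ∃ B : (BoundedContinuousFunction ℝ ℂ) →L[ℂ] (BoundedContinuousFunction ℝ E) →L[ℂ] E,
      ∀ g h, B g h = ∫ θ in (0:ℝ)..2 * Real.pi, g θ • h θ := by
  have hcont : ∀ (g : BoundedContinuousFunction ℝ ℂ) (h : BoundedContinuousFunction ℝ E), Continuous (fun θ : ℝ => g θ • h θ) :=
    fun g h => g.continuous.smul h.continuous
  let L0 : (BoundedContinuousFunction ℝ ℂ) →ₗ[ℂ] (BoundedContinuousFunction ℝ E) →ₗ[ℂ] E :=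
    LinearMap.mk₂ ℂ (fun g h => ∫ θ in (0:ℝ)..2 * Real.pi, g θ • h θ)
      (by
        intro g g' h
        rw [← intervalIntegral.integral_add ((hcont g h).intervalIntegrable _ _) ((hcont g' h).intervalIntegrable _ _)]
        congr 1
        funext θ
        rw [BoundedContinuousFunction.add_apply, add_smul])
      (by
        intro c g h
        rw [← intervalIntegral.integral_smul]
        congr 1
        funext θ
        rw [BoundedContinuousFunction.smul_apply, smul_assoc])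
      (by
        intro g h h'
        rw [← intervalIntegral.integral_add ((hcont g h).intervalIntegrable _ _) ((hcont g h').intervalIntegrable _ _)]
        congr 1
        funext θ
        rw [BoundedContinuousFunction.add_apply, smul_add])
      (by
        intro c g h
        rw [← intervalIntegral.integral_smul]
        congr 1
        funext θ
        rw [BoundedContinuousFunction.smul_apply, smul_comm])
  have hpi : (0:ℝ) ≤ 2 * Real.pi := by positivity
  refine ⟨L0.mkContinuous₂ (2 * Real.pi) ?_, fun g h => rfl⟩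
  intro g h
  show ‖∫ θ in (0:ℝ)..2 * Real.pi, g θ • h θ‖ ≤ _
  refine (intervalIntegral.norm_integral_le_of_norm_le_const (C := ‖g‖ * ‖h‖) ?_).trans (le_of_eq ?_)
  · intro θ _
    rw [norm_smul]
    exact mul_le_mul (g.norm_coe_le_norm _) (h.norm_coe_le_norm _) (norm_nonneg _) (norm_nonneg _)
  · rw [sub_zero, abs_of_nonneg hpi]
    ring

/-- inversion in the algebra of bounded continuous functions -/
private theorem osg_inv {u : BoundedContinuousFunction ℝ ℂ} (hu : IsUnit u) (p : ℝ) : (Ring.inverse u) p = (u p)⁻¹ := by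
  have h := Ring.mul_inverse_cancel u hu
  have h2 : u p * (Ring.inverse u) p = 1 := by
    rw [← BoundedContinuousFunction.mul_apply, h]; rfl
  exact (inv_eq_of_mul_eq_one_right h2).symm

private theorem osg_unit {c : ℂ} {ρ : ℝ} (hρ : 0 < ρ) :
    ∃ u : BoundedContinuousFunction ℝ ℂ, IsUnit u ∧ ∀ p, u p = circleMap c ρ p - c := by
  have hn : ∀ θ : ℝ, ‖circleMap c ρ θ - c‖ = ρ := by
    intro θ
    rw [← dist_eq_norm]
    have := circleMap_mem_sphere c hρ.le θ
    exact this
  have hne : ∀ θ : ℝ, circleMap c ρ θ - c ≠ 0 := by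
    intro θ h0
    have := hn θ
    rw [h0, norm_zero] at this
    exact hρ.ne this
  have hct : Continuous (fun p : ℝ => circleMap c ρ p - c) := (continuous_circleMap c ρ).sub continuous_const
  let u : BoundedContinuousFunction ℝ ℂ := BoundedContinuousFunction.ofNormedAddCommGroup (fun p => circleMap c ρ p - c) hct ρ
    (fun p => (hn _).le)
  let v : BoundedContinuousFunction ℝ ℂ := BoundedContinuousFunction.ofNormedAddCommGroup (fun p => (circleMap c ρ p - c)⁻¹)
    (hct.inv₀ fun p => hne _) ρ⁻¹ (fun p => by rw [norm_inv, hn])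
  refine ⟨u, ?_, fun p => rfl⟩
  refine IsUnit.of_mul_eq_one v ?_
  ext p
  show (circleMap c ρ p - c) * (circleMap c ρ p - c)⁻¹ = 1
  exact mul_inv_cancel₀ (hne _)

/-- the step of the induction -/
private theorem osg_step {k : ℕ} {E : Type*} [NormedAddCommGroup E] [NormedSpace ℂ E] [CompleteSpace E]
    (IH : ∀ {f : (Fin k → ℂ) → BoundedContinuousFunction ℝ E} {w : Fin k → ℂ} {r M : ℝ}, 0 < r →
      (∀ y ∈ ball w r, ‖f y‖ ≤ M) → (∀ y ∈ ball w r, ∀ l : Fin k, DifferentiableAt ℂ (fun t : ℂ => f (y + t • Pi.single l 1)) 0) →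
      AnalyticAt ℂ f w)
    {f : ℂ × (Fin k → ℂ) → E} {w : ℂ × (Fin k → ℂ)} {r M : ℝ} (hr : 0 < r)
    (hM : ∀ y ∈ ball w r, ‖f y‖ ≤ M) (h1 : ∀ y ∈ ball w r, DifferentiableAt ℂ (fun t : ℂ => f (y.1 + t, y.2)) 0)
    (h2 : ∀ y ∈ ball w r, ∀ l : Fin k, DifferentiableAt ℂ (fun t : ℂ => f (y.1, y.2 + t • Pi.single l 1)) 0) : AnalyticAt ℂ f w := by
  obtain ⟨a, b⟩ := w
  have hmem : ∀ z ∈ ball a r, ∀ y ∈ ball b r, (z, y) ∈ ball (a, b) r := by
    intro z hz y hy
    rw [mem_ball, Prod.dist_eq]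
    exact max_lt hz hy
  have hM' : ∀ z ∈ ball a r, ∀ y ∈ ball b r, ‖f (z, y)‖ ≤ M := fun z hz y hy => hM _ (hmem z hz y hy)
  have h1' : ∀ y ∈ ball b r, DifferentiableOn ℂ (fun z => f (z, y)) (ball a r) := by
    intro y hy z hz
    refine DifferentiableAt.differentiableWithinAt ?_
    have h0 := h1 _ (hmem z hz y hy)
    have e : (fun z' : ℂ => f (z', y)) = (fun t : ℂ => f (z + t, y)) ∘ (fun z' => z' - z) := by
      funext z'
      show f (z', y) = f (z + (z' - z), y)
      rw [add_sub_cancel]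
    rw [e]
    refine DifferentiableAt.comp z ?_ (differentiableAt_id.sub_const z)
    simpa using h0
  set ρ : ℝ := r / 2 with hρd
  have hρ : 0 < ρ := by positivity
  have hρr : ρ < r := by rw [hρd]; linarith
  have ha : ∀ θ, circleMap a ρ θ ∈ ball a r := fun θ => by
    have h := circleMap_mem_sphere a hρ.le θ
    rw [mem_ball, mem_sphere.1 h]; exact hρr
  have hHc : ∀ y ∈ ball b r, Continuous (fun θ : ℝ => f (circleMap a ρ θ, y)) := by
    intro y hy
    exact (h1' y hy).continuousOn.comp_continuous (continuous_circleMap a ρ) ha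
  classical
  let G : (Fin k → ℂ) → BoundedContinuousFunction ℝ E := fun y =>
    if hy : y ∈ ball b r then
      BoundedContinuousFunction.ofNormedAddCommGroup (fun θ => f (circleMap a ρ θ, y)) (hHc y hy) M (fun θ => hM' _ (ha θ) y hy)
    else 0
  have hG : ∀ y ∈ ball b r, ∀ θ, G y θ = f (circleMap a ρ θ, y) := by
    intro y hy θ
    show (if hy : y ∈ ball b r then
      BoundedContinuousFunction.ofNormedAddCommGroup (fun θ => f (circleMap a ρ θ, y)) (hHc y hy) M (fun θ => hM' _ (ha θ) y hy)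
      else 0) θ = _
    rw [dif_pos hy]
    rfl
  have hM0 : 0 ≤ M := (norm_nonneg _).trans (hM (a, b) (mem_ball_self hr))
  have hGM : ∀ y ∈ ball b r, ‖G y‖ ≤ M := by
    intro y hy
    rw [BoundedContinuousFunction.norm_le hM0]
    intro θ
    rw [hG y hy]
    exact hM' _ (ha θ) y hy
  have hGa : AnalyticAt ℂ G b := by
    refine IH hr hGM ?_
    intro y hy l
    have hy' : dist y b < r := hy
    have hsub : ∀ t ∈ ball (0:ℂ) (r - dist y b), y + t • (Pi.single l 1 : Fin k → ℂ) ∈ ball b r := by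
      intro t ht
      have ht' : ‖t‖ < r - dist y b := by simpa using ht
      rw [mem_ball]
      have hd : dist (y + t • (Pi.single l 1 : Fin k → ℂ)) y ≤ ‖t‖ := by
        rw [dist_eq_norm, add_sub_cancel_left, norm_smul]
        have : ‖(Pi.single l 1 : Fin k → ℂ)‖ ≤ 1 := by
          rw [pi_norm_le_iff_of_nonneg zero_le_one]
          intro i
          by_cases hi : i = l
          · subst hi; simp
          · simp [Pi.single_eq_of_ne hi]
        calc ‖t‖ * ‖(Pi.single l 1 : Fin k → ℂ)‖ ≤ ‖t‖ * 1 := mul_le_mul_of_nonneg_left this (norm_nonneg _)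
          _ = ‖t‖ := mul_one _
      have := dist_triangle (y + t • (Pi.single l 1 : Fin k → ℂ)) y b
      linarith
    refine osg_unif (s := r - dist y b) (M := M) (by linarith) (fun t ht => hGM _ (hsub t ht)) ?_
    intro θ t ht
    have h0 := h2 (circleMap a ρ θ, y + t • (Pi.single l 1 : Fin k → ℂ)) (hmem _ (ha θ) _ (hsub t ht)) l
    have e : (fun t' : ℂ => G (y + t' • (Pi.single l 1 : Fin k → ℂ)) θ) =ᶠ[𝓝 t]
        (fun s : ℂ => f (circleMap a ρ θ, y + t • (Pi.single l 1 : Fin k → ℂ) + s • (Pi.single l 1 : Fin k → ℂ))) ∘ (fun t' => t' - t) := by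
      filter_upwards [isOpen_ball.mem_nhds ht] with t' ht'
      rw [hG _ (hsub t' ht')]
      show f _ = f _
      congr 2
      rw [add_assoc, ← add_smul, add_sub_cancel]
    refine DifferentiableAt.congr_of_eventuallyEq ?_ e
    refine DifferentiableAt.comp t ?_ (differentiableAt_id.sub_const t)
    simpa using h0
  obtain ⟨B, hB⟩ := osg_bil E
  obtain ⟨u, hu, hu'⟩ := osg_unit (c := a) hρ
  have hder : Continuous (deriv (circleMap a ρ)) := by
    have : deriv (circleMap a ρ) = fun θ => circleMap 0 ρ θ * Complex.I := by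
      funext θ; exact deriv_circleMap a ρ θ
    rw [this]
    exact (continuous_circleMap 0 ρ).mul continuous_const
  have hdn : ∀ θ : ℝ, ‖deriv (circleMap a ρ) θ‖ ≤ ρ := by
    intro θ
    rw [deriv_circleMap, norm_mul, Complex.norm_I, mul_one, norm_circleMap_zero, abs_of_pos hρ]
  let D : BoundedContinuousFunction ℝ ℂ := BoundedContinuousFunction.ofNormedAddCommGroup (deriv (circleMap a ρ)) hder ρ hdn
  let U : ℂ × (Fin k → ℂ) → BoundedContinuousFunction ℝ ℂ := fun p => u - (p.1 - a) • (1 : BoundedContinuousFunction ℝ ℂ)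
  have hU0 : U (a, b) = u := by show u - (a - a) • _ = u; rw [sub_self, zero_smul, sub_zero]
  have hUa : AnalyticAt ℂ U (a, b) := analyticAt_const.sub ((analyticAt_fst.sub analyticAt_const).smul analyticAt_const)
  have hUi : AnalyticAt ℂ (fun p => Ring.inverse (U p)) (a, b) := by
    have h := analyticAt_inverse (𝕜 := ℂ) hu.unit
    rw [IsUnit.unit_spec, ← hU0] at h
    exact h.comp hUa
  have hGb : AnalyticAt ℂ (fun p : ℂ × (Fin k → ℂ) => G p.2) (a, b) :=
    AnalyticAt.comp (show AnalyticAt ℂ G ((a, b) : ℂ × (Fin k → ℂ)).2 from hGa) analyticAt_snd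
  have hW : AnalyticAt ℂ (fun p : ℂ × (Fin k → ℂ) => B (D * Ring.inverse (U p)) (G p.2)) (a, b) := by
    have hD : AnalyticAt ℂ (fun p : ℂ × (Fin k → ℂ) => D * Ring.inverse (U p)) (a, b) := analyticAt_const.mul hUi
    have hBa : AnalyticAt ℂ (fun q : BoundedContinuousFunction ℝ ℂ × BoundedContinuousFunction ℝ E => B q.1 q.2)
        ((fun p : ℂ × (Fin k → ℂ) => (D * Ring.inverse (U p), G p.2)) (a, b)) := B.analyticAt_bilinear _
    exact AnalyticAt.comp (f := fun p : ℂ × (Fin k → ℂ) => (D * Ring.inverse (U p), G p.2)) hBa (hD.prod hGb)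
  have hWc : AnalyticAt ℂ (fun p : ℂ × (Fin k → ℂ) => (2 * Real.pi * Complex.I : ℂ)⁻¹ • B (D * Ring.inverse (U p)) (G p.2)) (a, b) :=
    analyticAt_const.smul hW
  refine hWc.congr ?_
  have evU : ∀ᶠ p in 𝓝 (a, b), IsUnit (U p) := by
    have h := hUa.continuousAt.eventually (Units.isOpen.mem_nhds (show U (a, b) ∈ {x | IsUnit x} by rw [hU0]; exact hu))
    exact h
  have evB : ∀ᶠ p : ℂ × (Fin k → ℂ) in 𝓝 (a, b), p.1 ∈ ball a ρ ∧ p.2 ∈ ball b r :=
    ((continuous_fst.tendsto (a, b)).eventually (ball_mem_nhds a hρ)).and ((continuous_snd.tendsto (a, b)).eventually (ball_mem_nhds b hr))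
  filter_upwards [evU, evB] with p hpU hpB
  obtain ⟨z, y⟩ := p
  obtain ⟨hz, hy⟩ := hpB
  simp only at hz hy
  have c1 : (∮ ζ in C(a, ρ), (ζ - z)⁻¹ • f (ζ, y)) = (2 * Real.pi * Complex.I : ℂ) • f (z, y) :=
    DifferentiableOn.circleIntegral_sub_inv_smul (f := fun ζ => f (ζ, y)) ((h1' y hy).mono (closedBall_subset_ball hρr)) hz
  have hBv : B (D * Ring.inverse (U (z, y))) (G y) = (2 * Real.pi * Complex.I : ℂ) • f (z, y) := by
    rw [hB, ← c1, circleIntegral]
    congr 1
    funext θ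
    rw [BoundedContinuousFunction.mul_apply, osg_inv hpU, hG y hy]
    have eU : (U (z, y)) θ = circleMap a ρ θ - z := by
      show u θ - (z - a) * 1 = _
      rw [hu' θ]; ring
    rw [eU]
    show (deriv (circleMap a ρ) θ * (circleMap a ρ θ - z)⁻¹) • f (circleMap a ρ θ, y) = _
    rw [mul_smul]
  show _ • B (D * Ring.inverse (U (z, y))) (G y) = f (z, y)
  rw [hBv, smul_smul, inv_mul_cancel₀ Complex.two_pi_I_ne_zero, one_smul]

theorem osgood_pi {n : ℕ} {E : Type*} [NormedAddCommGroup E] [NormedSpace ℂ E] [CompleteSpace E] {f : (Fin n → ℂ) → E} {w : Fin n → ℂ} {r M : ℝ} (hr : 0 < r)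
    (hM : ∀ y ∈ ball w r, ‖f y‖ ≤ M) (h : ∀ y ∈ ball w r, ∀ l : Fin n, DifferentiableAt ℂ (fun t : ℂ => f (y + t • Pi.single l 1)) 0) : AnalyticAt ℂ f w := by
  induction n generalizing E r M with
  | zero =>
    have e : f = fun _ => f w := by
      funext y
      congr 1
      funext i
      exact i.elim0
    rw [e]
    exact analyticAt_const
  | succ k ih =>
    have hmem : ∀ z ∈ ball (w 0) r, ∀ y ∈ ball (fun i : Fin k => w i.succ) r, (Fin.cons z y : Fin (k + 1) → ℂ) ∈ ball w r := by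
      intro z hz y hy
      rw [mem_ball, dist_pi_lt_iff hr]
      rw [mem_ball, dist_pi_lt_iff hr] at hy
      intro i
      refine Fin.cases ?_ ?_ i
      · exact hz
      · intro j
        exact hy j
    have hmem2 : ∀ p ∈ ball ((w 0, fun i : Fin k => w i.succ) : ℂ × (Fin k → ℂ)) r, (Fin.cons p.1 p.2 : Fin (k + 1) → ℂ) ∈ ball w r := by
      intro p hp
      rw [mem_ball, Prod.dist_eq, max_lt_iff] at hp
      exact hmem p.1 hp.1 p.2 hp.2
    have hg : AnalyticAt ℂ (fun p : ℂ × (Fin k → ℂ) => f (Fin.cons p.1 p.2 : Fin (k + 1) → ℂ)) (w 0, fun i : Fin k => w i.succ) := by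
      refine osg_step (fun {_ _ _ _} hr hM h => ih hr hM h) (M := M) hr (fun p hp => hM _ (hmem2 p hp)) ?_ ?_
      · intro p hp
        have h0 := h _ (hmem2 p hp) 0
        have e : (fun t : ℂ => f (Fin.cons (p.1 + t) p.2 : Fin (k + 1) → ℂ)) =
            (fun t : ℂ => f ((Fin.cons p.1 p.2 : Fin (k + 1) → ℂ) + t • Pi.single 0 1)) := by
          funext t
          congr 1
          funext i
          refine Fin.cases ?_ ?_ i
          · simp
          · intro j
            simp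
        show DifferentiableAt ℂ (fun t : ℂ => f (Fin.cons (p.1 + t) p.2 : Fin (k + 1) → ℂ)) 0
        rw [e]
        exact h0
      · intro p hp l
        have h0 := h _ (hmem2 p hp) l.succ
        have e : (fun t : ℂ => f (Fin.cons p.1 (p.2 + t • (Pi.single l 1 : Fin k → ℂ)) : Fin (k + 1) → ℂ)) =
            (fun t : ℂ => f ((Fin.cons p.1 p.2 : Fin (k + 1) → ℂ) + t • Pi.single l.succ 1)) := by
          funext t
          congr 1
          funext i
          refine Fin.cases ?_ ?_ i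
          · simp
          · intro j
            simp [Pi.single_apply]
        show DifferentiableAt ℂ (fun t : ℂ => f (Fin.cons p.1 (p.2 + t • (Pi.single l 1 : Fin k → ℂ)) : Fin (k + 1) → ℂ)) 0
        rw [e]
        exact h0
    let π : (Fin (k + 1) → ℂ) →L[ℂ] ℂ × (Fin k → ℂ) :=
      (ContinuousLinearMap.proj 0).prod (ContinuousLinearMap.pi fun i : Fin k => ContinuousLinearMap.proj i.succ)
    have e : f = (fun p : ℂ × (Fin k → ℂ) => f (Fin.cons p.1 p.2 : Fin (k + 1) → ℂ)) ∘ π := by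
      funext y
      show f y = f (Fin.cons (y 0) (fun i : Fin k => y i.succ) : Fin (k + 1) → ℂ)
      congr 1
      funext i
      refine Fin.cases ?_ ?_ i
      · rfl
      · intro j
        rfl
    rw [e]
    exact AnalyticAt.comp (show AnalyticAt ℂ (fun p : ℂ × (Fin k → ℂ) => f (Fin.cons p.1 p.2 : Fin (k + 1) → ℂ)) (π w) from hg) (π.analyticAt w)

theorem osgood_prod {k : ℕ} {E : Type*} [NormedAddCommGroup E] [NormedSpace ℂ E] [CompleteSpace E] {f : ℂ × (Fin k → ℂ) → E} {w : ℂ × (Fin k → ℂ)} {r M : ℝ} (hr : 0 < r)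
    (hM : ∀ y ∈ ball w r, ‖f y‖ ≤ M) (h1 : ∀ y ∈ ball w r, DifferentiableAt ℂ (fun t : ℂ => f (y.1 + t, y.2)) 0)
    (h2 : ∀ y ∈ ball w r, ∀ l : Fin k, DifferentiableAt ℂ (fun t : ℂ => f (y.1, y.2 + t • Pi.single l 1)) 0) : AnalyticAt ℂ f w :=
  osg_step (fun {_ _ _ _} hr hM h => osgood_pi hr hM h) hr hM h1 h2

end Pool.Agent.TN

end

section

/-!
# GG Ode: the local flow of a holomorphic vector field is holomorphic in the time and in the initial value; uniqueness
-/

set_option autoImplicit false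

open Topology Filter Metric

namespace Pool.Agent.GG

variable {n : ℕ}

/-- a bound which improves itself -/
private theorem ode_self {T E : Type*} [NormedAddCommGroup E] {S : Set T} {u : T → E} {a B₀ : ℝ} (h0 : ∀ z ∈ S, ‖u z‖ ≤ B₀)
    (h : ∀ B : ℝ, (∀ z ∈ S, ‖u z‖ ≤ B) → ∀ z ∈ S, ‖u z‖ ≤ a + B / 2) : ∀ z ∈ S, ‖u z‖ ≤ 2 * a := by
  intro z hz
  have h1 : ∀ k : ℕ, ∀ z ∈ S, ‖u z‖ ≤ 2 * a + (B₀ - 2 * a) * (1 / 2) ^ k := by
    intro k
    induction k with
    | zero =>
      intro z hz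
      have := h0 z hz
      simp only [pow_zero]
      linarith
    | succ k ih =>
      intro z hz
      refine (h _ ih z hz).trans (le_of_eq ?_)
      rw [pow_succ]
      ring
  have h2 : Tendsto (fun k : ℕ => 2 * a + (B₀ - 2 * a) * (1 / 2 : ℝ) ^ k) atTop (𝓝 (2 * a + (B₀ - 2 * a) * 0)) :=
    tendsto_const_nhds.add ((tendsto_pow_atTop_nhds_zero_of_lt_one (by norm_num) (by norm_num)).const_mul _)
  rw [mul_zero, add_zero] at h2
  exact ge_of_tendsto' h2 fun k => h1 k z hz

/-- mean value inequality on a disc -/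
private theorem ode_mv {a : ℂ} {ρ C : ℝ} {f f' : ℂ → Fin n → ℂ} (hf : ∀ z ∈ ball a ρ, HasDerivAt f (f' z) z) (hC : ∀ z ∈ ball a ρ, ‖f' z‖ ≤ C)
    {z : ℂ} (hz : z ∈ ball a ρ) : ‖f z - f a‖ ≤ C * ρ := by
  have ha : a ∈ ball a ρ := mem_ball_self ((dist_nonneg (x := z) (y := a)).trans_lt hz)
  have hC0 : 0 ≤ C := (norm_nonneg _).trans (hC a ha)
  have h := (convex_ball a ρ).norm_image_sub_le_of_norm_hasDerivWithin_le (f := f) (f' := f') (fun x hx => (hf x hx).hasDerivWithinAt) hC ha hz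
  refine h.trans (mul_le_mul_of_nonneg_left ?_ hC0)
  rw [← dist_eq_norm]
  exact (mem_ball.1 hz).le

/-- a good ball: the field and its derivative are bounded, the derivative is Lipschitz -/
private theorem ode_ball {V : (Fin n → ℂ) → (Fin n → ℂ)} {x₀ : Fin n → ℂ} (hV : AnalyticAt ℂ V x₀) {ρ : ℝ} (hρ : 0 < ρ) :
    ∃ R : ℝ, 0 < R ∧ R ≤ ρ ∧ ∃ K : ℝ, 0 < K ∧ (∀ x ∈ ball x₀ R, AnalyticAt ℂ V x) ∧ (∀ x ∈ ball x₀ R, ‖V x‖ ≤ K) ∧
      (∀ x ∈ ball x₀ R, ‖fderiv ℂ V x‖ ≤ K) ∧ ∀ x ∈ ball x₀ R, ∀ y ∈ ball x₀ R, ‖fderiv ℂ V x - fderiv ℂ V y‖ ≤ K * ‖x - y‖ := by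
  have h1 : ∀ᶠ x in 𝓝 x₀, AnalyticAt ℂ V x := hV.eventually_analyticAt
  have h2 : ∀ᶠ x in 𝓝 x₀, ‖V x‖ < ‖V x₀‖ + 1 := hV.continuousAt.norm.eventually_lt_const (lt_add_one _)
  have h3 : ∀ᶠ x in 𝓝 x₀, ‖fderiv ℂ V x‖ < ‖fderiv ℂ V x₀‖ + 1 := hV.fderiv.continuousAt.norm.eventually_lt_const (lt_add_one _)
  have h4 : ∀ᶠ x in 𝓝 x₀, ‖fderiv ℂ (fderiv ℂ V) x‖ < ‖fderiv ℂ (fderiv ℂ V) x₀‖ + 1 :=
    hV.fderiv.fderiv.continuousAt.norm.eventually_lt_const (lt_add_one _)
  obtain ⟨R, hR, hB⟩ := Metric.eventually_nhds_iff_ball.1 (h1.and (h2.and (h3.and h4)))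
  refine ⟨min R ρ, lt_min hR hρ, min_le_right _ _,
    max (‖V x₀‖ + 1) (max (‖fderiv ℂ V x₀‖ + 1) (‖fderiv ℂ (fderiv ℂ V) x₀‖ + 1)), ?_, ?_, ?_, ?_, ?_⟩
  · exact lt_max_of_lt_left (by positivity)
  · exact fun x hx => (hB x (ball_subset_ball (min_le_left _ _) hx)).1
  · exact fun x hx => (hB x (ball_subset_ball (min_le_left _ _) hx)).2.1.le.trans (le_max_left _ _)
  · exact fun x hx => (hB x (ball_subset_ball (min_le_left _ _) hx)).2.2.1.le.trans ((le_max_left _ _).trans (le_max_right _ _))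
  · intro x hx y hy
    refine (convex_ball x₀ (min R ρ)).norm_image_sub_le_of_norm_fderiv_le (𝕜 := ℂ) (f := fderiv ℂ V) ?_ ?_ hy hx
    · exact fun z hz => (hB z (ball_subset_ball (min_le_left _ _) hz)).1.fderiv.differentiableAt
    · exact fun z hz => (hB z (ball_subset_ball (min_le_left _ _) hz)).2.2.2.le.trans ((le_max_right _ _).trans (le_max_right _ _))

/-- the quadratic remainder -/
private theorem ode_quad {V : (Fin n → ℂ) → (Fin n → ℂ)} {x₀ : Fin n → ℂ} {R K : ℝ} (hK : 0 < K) (h1 : ∀ x ∈ ball x₀ R, AnalyticAt ℂ V x)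
    (h4 : ∀ x ∈ ball x₀ R, ∀ y ∈ ball x₀ R, ‖fderiv ℂ V x - fderiv ℂ V y‖ ≤ K * ‖x - y‖) {x y : Fin n → ℂ} (hx : x ∈ ball x₀ R)
    (hy : y ∈ ball x₀ R) : ‖V y - V x - fderiv ℂ V x (y - x)‖ ≤ K * ‖y - x‖ ^ 2 := by
  have hs : Convex ℝ (ball x₀ R ∩ closedBall x ‖y - x‖) := (convex_ball _ _).inter (convex_closedBall _ _)
  have h := hs.norm_image_sub_le_of_norm_fderiv_le' (𝕜 := ℂ) (f := V) (φ := fderiv ℂ V x) (C := K * ‖y - x‖) (x := x) (y := y)
    (fun z hz => (h1 z hz.1).differentiableAt) ?_ ⟨hx, mem_closedBall_self (norm_nonneg _)⟩ ⟨hy, by rw [mem_closedBall, dist_eq_norm]⟩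
  · refine h.trans (le_of_eq ?_)
    ring
  · intro z hz
    refine (h4 z hz.1 x hx).trans (mul_le_mul_of_nonneg_left ?_ hK.le)
    rw [← dist_eq_norm]
    exact mem_closedBall.1 hz.2

/-- **The local flow.** -/
theorem exists_flow {V : (Fin n → ℂ) → (Fin n → ℂ)} {x₀ : Fin n → ℂ} (hV : AnalyticAt ℂ V x₀) {ρ : ℝ} (hρ : 0 < ρ) :
    ∃ r : ℝ, 0 < r ∧ ∃ H : ℂ × (Fin n → ℂ) → (Fin n → ℂ), (∀ z ∈ ball (0 : ℂ) r, ∀ x ∈ ball x₀ r, AnalyticAt ℂ H (z, x)) ∧
      (∀ x ∈ ball x₀ r, H (0, x) = x) ∧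
      ∀ z ∈ ball (0 : ℂ) r, ∀ x ∈ ball x₀ r, H (z, x) ∈ ball x₀ ρ ∧ HasDerivAt (fun t => H (t, x)) (V (H (z, x))) z := by
  classical
  obtain ⟨R, hR, hRρ, K, hK, hVa, hVb, hVd, hVl⟩ := ode_ball hV hρ
  -- the solutions
  obtain ⟨ε₁, hε₁, hε₁R, hsol⟩ := Pool.Agent.G3.C.ode_hol (n := n) (half_pos hR) hK
  have hY : ∀ x ∈ ball x₀ (R / 2), ∃ Y : ℂ → Fin n → ℂ, Y 0 = x ∧ ∀ s ∈ ball (0 : ℂ) ε₁, Y s ∈ ball x₀ R ∧ HasDerivAt Y (V (Y s)) s := by
    intro x hx
    have hsub : ∀ q ∈ ball ((0 : ℂ), x) (R / 2), q.2 ∈ ball x₀ R := by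
      intro q hq
      rw [← ball_prod_same] at hq
      have h1 : dist q.2 x < R / 2 := hq.2
      have h2 : dist x x₀ < R / 2 := hx
      exact (dist_triangle q.2 x x₀).trans_lt (by linarith)
    obtain ⟨Y, hY0, hY⟩ := hsol (fun q => V q.2) 0 x
      (fun q hq => ((hVa q.2 (hsub q hq)).differentiableAt.comp q differentiableAt_snd).differentiableWithinAt) (fun q hq => hVb q.2 (hsub q hq))
    refine ⟨Y, hY0, fun s hs => ⟨?_, (hY s hs).2⟩⟩
    have h1 : dist (Y s) x < R / 2 / 2 := (hY s hs).1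
    have h2 : dist x x₀ < R / 2 := hx
    exact (dist_triangle (Y s) x x₀).trans_lt (by linarith)
  choose! Y hY0 hY using hY
  -- the linear equation
  obtain ⟨ε₂, hε₂, hε₂R, hlin⟩ := Pool.Agent.G3.C.ode_hol (n := n) (R := min ε₁ 1) (M := 2 * K) (lt_min hε₁ one_pos) (by positivity)
  obtain ⟨r, hr⟩ : ∃ r : ℝ, r = min (min ε₂ (R / 2)) (1 / (2 * K)) := ⟨_, rfl⟩
  have hr0 : 0 < r := by rw [hr]; exact lt_min (lt_min hε₂ (half_pos hR)) (by positivity)
  have hr1 : r ≤ ε₂ := by rw [hr]; exact (min_le_left _ _).trans (min_le_left _ _)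
  have hr2 : r ≤ R / 2 := by rw [hr]; exact (min_le_left _ _).trans (min_le_right _ _)
  have hr3 : K * r ≤ 1 / 2 := by
    have : r ≤ 1 / (2 * K) := by rw [hr]; exact min_le_right _ _
    calc K * r ≤ K * (1 / (2 * K)) := mul_le_mul_of_nonneg_left this hK.le
      _ = 1 / 2 := by field_simp
  have hr4 : r ≤ ε₁ := hr1.trans (hε₂R.trans (min_le_left _ _))
  have hxR : ∀ x ∈ ball x₀ r, x ∈ ball x₀ (R / 2) := fun x hx => ball_subset_ball hr2 hx
  have hzε : ∀ z ∈ ball (0 : ℂ) r, z ∈ ball (0 : ℂ) ε₁ := fun z hz => ball_subset_ball hr4 hz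
  refine ⟨r, hr0, fun q => Y q.2 q.1, ?_, fun x hx => hY0 x (hxR x hx), fun z hz x hx =>
    ⟨ball_subset_ball hRρ (hY x (hxR x hx) z (hzε z hz)).1, (hY x (hxR x hx) z (hzε z hz)).2⟩⟩
  -- Lipschitz dependence
  have hlip : ∀ x ∈ ball x₀ r, ∀ y ∈ ball x₀ r, ∀ z ∈ ball (0 : ℂ) r, ‖Y y z - Y x z‖ ≤ 2 * ‖y - x‖ := by
    intro x hx y hy
    refine ode_self (S := ball (0 : ℂ) r) (u := fun z => Y y z - Y x z) (B₀ := 2 * R) ?_ ?_
    · intro z hz
      have h1 := (hY x (hxR x hx) z (hzε z hz)).1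
      have h2 := (hY y (hxR y hy) z (hzε z hz)).1
      rw [← dist_eq_norm]
      calc dist (Y y z) (Y x z) ≤ dist (Y y z) x₀ + dist (Y x z) x₀ := dist_triangle_right _ _ _
        _ ≤ 2 * R := by linarith [mem_ball.1 h1, mem_ball.1 h2]
    · intro B hB z hz
      have hd : ∀ w ∈ ball (0 : ℂ) r, HasDerivAt (fun w => Y y w - Y x w) (V (Y y w) - V (Y x w)) w := fun w hw =>
        (hY y (hxR y hy) w (hzε w hw)).2.sub (hY x (hxR x hx) w (hzε w hw)).2
      have hb : ∀ w ∈ ball (0 : ℂ) r, ‖V (Y y w) - V (Y x w)‖ ≤ K * B := by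
        intro w hw
        have h1 := (hY x (hxR x hx) w (hzε w hw)).1
        have h2 := (hY y (hxR y hy) w (hzε w hw)).1
        refine ((convex_ball x₀ R).norm_image_sub_le_of_norm_fderiv_le (𝕜 := ℂ) (f := V) (fun z hz => (hVa z hz).differentiableAt) hVd h1 h2).trans ?_
        exact mul_le_mul_of_nonneg_left (hB w hw) hK.le
      have h3 := ode_mv hd hb hz
      rw [hY0 x (hxR x hx), hY0 y (hxR y hy)] at h3
      have hB0 : 0 ≤ B := (norm_nonneg _).trans (hB z hz)
      calc ‖Y y z - Y x z‖ ≤ ‖(Y y z - Y x z) - (y - x)‖ + ‖y - x‖ := by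
            have := norm_add_le ((Y y z - Y x z) - (y - x)) (y - x)
            rwa [sub_add_cancel] at this
        _ ≤ K * B * r + ‖y - x‖ := add_le_add h3 le_rfl
        _ = (K * r) * B + ‖y - x‖ := by ring
        _ ≤ 1 / 2 * B + ‖y - x‖ := add_le_add (mul_le_mul_of_nonneg_right hr3 hB0) le_rfl
        _ = ‖y - x‖ + B / 2 := by ring
  -- the derivative with respect to the initial value
  have hder : ∀ x ∈ ball x₀ r, ∀ e : Fin n → ℂ, ‖e‖ ≤ 1 → ∀ z ∈ ball (0 : ℂ) r, DifferentiableAt ℂ (fun t : ℂ => Y (x + t • e) z) 0 := by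
    intro x hx e he z hz
    have hdA : DifferentiableOn ℂ (fun q : ℂ × (Fin n → ℂ) => fderiv ℂ V (Y x q.1) q.2) (ball (((0 : ℂ), e) : ℂ × (Fin n → ℂ)) (min ε₁ 1)) := by
      intro q hq
      have hq1 : q.1 ∈ ball (0 : ℂ) ε₁ := by
        rw [← ball_prod_same] at hq
        exact ball_subset_ball (min_le_left _ _) hq.1
      have h1 := hY x (hxR x hx) q.1 hq1
      have h2 : DifferentiableAt ℂ (fun q : ℂ × (Fin n → ℂ) => fderiv ℂ V (Y x q.1)) q :=
        ((hVa _ h1.1).fderiv.differentiableAt).comp q (h1.2.differentiableAt.comp q differentiableAt_fst)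
      exact (h2.clm_apply differentiableAt_snd).differentiableWithinAt
    have hdB : ∀ q ∈ ball (((0 : ℂ), e) : ℂ × (Fin n → ℂ)) (min ε₁ 1), ‖fderiv ℂ V (Y x q.1) q.2‖ ≤ 2 * K := by
      intro q hq
      have hq1 : q.1 ∈ ball (0 : ℂ) ε₁ := by
        rw [← ball_prod_same] at hq
        exact ball_subset_ball (min_le_left _ _) hq.1
      have hq2 : dist q.2 e < 1 := by
        rw [← ball_prod_same] at hq
        exact (mem_ball.1 hq.2).trans_le (min_le_right _ _)
      have h1 := hY x (hxR x hx) q.1 hq1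
      refine ((fderiv ℂ V (Y x q.1)).le_opNorm _).trans ?_
      have h2 : ‖q.2‖ ≤ 2 := by
        calc ‖q.2‖ ≤ ‖q.2 - e‖ + ‖e‖ := by
              have := norm_add_le (q.2 - e) e
              rwa [sub_add_cancel] at this
          _ ≤ 2 := by
              rw [← dist_eq_norm]
              linarith
      calc ‖fderiv ℂ V (Y x q.1)‖ * ‖q.2‖ ≤ K * 2 := mul_le_mul (hVd _ h1.1) h2 (norm_nonneg _) hK.le
        _ = 2 * K := mul_comm _ _
    obtain ⟨W, hW0, hW⟩ := hlin (fun q => fderiv ℂ V (Y x q.1) q.2) 0 e hdA hdB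
    -- the remainder
    have hev : ∀ᶠ t : ℂ in 𝓝 0, x + t • e ∈ ball x₀ r := by
      have hc : ContinuousAt (fun t : ℂ => x + t • e) 0 := by fun_prop
      refine hc.eventually_mem ?_
      rw [zero_smul, add_zero]
      exact isOpen_ball.mem_nhds hx
    have hWb : ∀ w ∈ ball (0 : ℂ) r, ‖W w‖ ≤ 2 := by
      intro w hw
      have h1 : dist (W w) e < min ε₁ 1 / 2 := (hW w (ball_subset_ball hr1 hw)).1
      have h2 : min ε₁ 1 ≤ 1 := min_le_right _ _
      calc ‖W w‖ ≤ ‖W w - e‖ + ‖e‖ := by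
            have := norm_add_le (W w - e) e
            rwa [sub_add_cancel] at this
        _ ≤ 2 := by
            rw [← dist_eq_norm]
            linarith
    have hrem : ∀ t : ℂ, x + t • e ∈ ball x₀ r → ∀ w ∈ ball (0 : ℂ) r, ‖Y (x + t • e) w - Y x w - t • W w‖ ≤ 2 * (K * (2 * ‖t‖) ^ 2 * r) := by
      intro t ht
      have hl : ∀ w ∈ ball (0 : ℂ) r, ‖Y (x + t • e) w - Y x w‖ ≤ 2 * ‖t‖ := by
        intro w hw
        refine (hlip x hx _ ht w hw).trans ?_
        rw [add_sub_cancel_left, norm_smul]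
        nlinarith [norm_nonneg t, norm_nonneg e]
      refine ode_self (S := ball (0 : ℂ) r) (u := fun w => Y (x + t • e) w - Y x w - t • W w) (B₀ := 2 * ‖t‖ + ‖t‖ * 2) ?_ ?_
      · intro w hw
        refine (norm_sub_le _ _).trans (add_le_add (hl w hw) ?_)
        rw [norm_smul]
        exact mul_le_mul_of_nonneg_left (hWb w hw) (norm_nonneg _)
      · intro B hB w hw
        have hd : ∀ w ∈ ball (0 : ℂ) r, HasDerivAt (fun w => Y (x + t • e) w - Y x w - t • W w)
            (V (Y (x + t • e) w) - V (Y x w) - t • fderiv ℂ V (Y x w) (W w)) w := fun w hw =>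
          ((hY _ (hxR _ ht) w (hzε w hw)).2.sub (hY x (hxR x hx) w (hzε w hw)).2).sub ((hW w (ball_subset_ball hr1 hw)).2.const_smul t)
        have hb : ∀ w ∈ ball (0 : ℂ) r, ‖V (Y (x + t • e) w) - V (Y x w) - t • fderiv ℂ V (Y x w) (W w)‖ ≤ K * (2 * ‖t‖) ^ 2 + K * B := by
          intro w hw
          have h1 := (hY x (hxR x hx) w (hzε w hw)).1
          have h2 := (hY _ (hxR _ ht) w (hzε w hw)).1
          have h3 : V (Y (x + t • e) w) - V (Y x w) - t • fderiv ℂ V (Y x w) (W w) =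
              (V (Y (x + t • e) w) - V (Y x w) - fderiv ℂ V (Y x w) (Y (x + t • e) w - Y x w)) +
                fderiv ℂ V (Y x w) (Y (x + t • e) w - Y x w - t • W w) := by
            rw [map_sub (fderiv ℂ V (Y x w)) (Y (x + t • e) w - Y x w) (t • W w), map_smul]
            abel
          rw [h3]
          refine (norm_add_le _ _).trans (add_le_add ?_ ?_)
          · refine (ode_quad hK hVa hVl h1 h2).trans (mul_le_mul_of_nonneg_left ?_ hK.le)
            exact pow_le_pow_left₀ (norm_nonneg _) (hl w hw) 2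
          · refine ((fderiv ℂ V (Y x w)).le_opNorm _).trans ?_
            exact mul_le_mul (hVd _ h1) (hB w hw) (norm_nonneg _) hK.le
        have h3 := ode_mv hd hb hw
        have h4 : Y (x + t • e) 0 - Y x 0 - t • W 0 = 0 := by
          rw [hY0 x (hxR x hx), hY0 _ (hxR _ ht), hW0]
          abel
        rw [h4, sub_zero] at h3
        have hB0 : 0 ≤ B := (norm_nonneg _).trans (hB w hw)
        refine h3.trans ?_
        calc (K * (2 * ‖t‖) ^ 2 + K * B) * r = K * (2 * ‖t‖) ^ 2 * r + (K * r) * B := by ring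
          _ ≤ K * (2 * ‖t‖) ^ 2 * r + 1 / 2 * B := add_le_add le_rfl (mul_le_mul_of_nonneg_right hr3 hB0)
          _ = K * (2 * ‖t‖) ^ 2 * r + B / 2 := by ring
    have hD : HasDerivAt (fun t : ℂ => Y (x + t • e) z) (W z) 0 := by
      rw [hasDerivAt_iff_isLittleO]
      have hO : (fun t : ℂ => Y (x + t • e) z - Y (x + (0 : ℂ) • e) z - (t - 0) • W z) =O[𝓝 0] fun t : ℂ => (t - 0) ^ 2 := by
        refine Asymptotics.IsBigO.of_bound (2 * (K * 4 * r)) ?_
        filter_upwards [hev] with t ht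
        rw [zero_smul, add_zero, sub_zero]
        refine (hrem t ht z hz).trans (le_of_eq ?_)
        rw [norm_pow]
        ring
      refine hO.trans_isLittleO ?_
      have h5 : (fun t : ℂ => (t - 0) ^ 2) = fun t : ℂ => (t - 0) * (t - 0) := by
        funext t
        ring
      rw [h5]
      have h6 : (fun t : ℂ => t - 0) =o[𝓝 0] fun _ : ℂ => (1 : ℂ) := by
        rw [Asymptotics.isLittleO_one_iff]
        have : Tendsto (fun t : ℂ => t - 0) (𝓝 0) (𝓝 (0 - 0)) := (continuous_id.sub continuous_const).tendsto 0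
        rwa [sub_zero] at this
      have h7 := h6.mul_isBigO (Asymptotics.isBigO_refl (fun t : ℂ => t - 0) (𝓝 0))
      simpa using h7
    exact hD.differentiableAt
  -- analyticity
  intro z hz x hx
  obtain ⟨δ, hδ, hδz, hδx⟩ : ∃ δ : ℝ, 0 < δ ∧ ball z δ ⊆ ball (0 : ℂ) r ∧ ball x δ ⊆ ball x₀ r := by
    obtain ⟨δ₁, h1, h2⟩ := Metric.isOpen_iff.1 (isOpen_ball (x := (0 : ℂ)) (ε := r)) z hz
    obtain ⟨δ₂, h3, h4⟩ := Metric.isOpen_iff.1 (isOpen_ball (x := x₀) (ε := r)) x hx
    exact ⟨min δ₁ δ₂, lt_min h1 h3, (ball_subset_ball (min_le_left _ _)).trans h2, (ball_subset_ball (min_le_right _ _)).trans h4⟩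
  refine Pool.Agent.TN.osgood_prod (f := fun q : ℂ × (Fin n → ℂ) => Y q.2 q.1) (w := (z, x)) (r := δ) (M := ‖x₀‖ + R) hδ ?_ ?_ ?_
  · intro y hy
    rw [← ball_prod_same] at hy
    have h1 := (hY y.2 (hxR _ (hδx hy.2)) y.1 (hzε _ (hδz hy.1))).1
    calc ‖Y y.2 y.1‖ ≤ ‖Y y.2 y.1 - x₀‖ + ‖x₀‖ := by
          have := norm_add_le (Y y.2 y.1 - x₀) x₀
          rwa [sub_add_cancel] at this
      _ ≤ ‖x₀‖ + R := by
          rw [← dist_eq_norm]
          linarith [mem_ball.1 h1]
  · intro y hy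
    rw [← ball_prod_same] at hy
    have h1 := (hY y.2 (hxR _ (hδx hy.2)) y.1 (hzε _ (hδz hy.1))).2.differentiableAt
    have h2 : DifferentiableAt ℂ (fun t : ℂ => y.1 + t) 0 := by fun_prop
    have h3 : DifferentiableAt ℂ (Y y.2) (y.1 + 0) := by rwa [add_zero]
    exact h3.comp (0 : ℂ) h2
  · intro y hy l
    rw [← ball_prod_same] at hy
    exact hder y.2 (hδx hy.2) (Pi.single l 1) (by rw [Pi.norm_single, norm_one]) y.1 (hδz hy.1)

/-- local uniqueness -/
theorem flow_unique_nhds {V : (Fin n → ℂ) → (Fin n → ℂ)} {f g : ℂ → Fin n → ℂ} {a : ℂ} (hV : AnalyticAt ℂ V (f a)) (h0 : f a = g a)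
    (hf : ∀ᶠ z in 𝓝 a, HasDerivAt f (V (f z)) z) (hg : ∀ᶠ z in 𝓝 a, HasDerivAt g (V (g z)) z) : f =ᶠ[𝓝 a] g := by
  obtain ⟨R, hR, -, K, hK, hVa, -, hVd, -⟩ := ode_ball hV one_pos
  have hfc : ContinuousAt f a := hf.self_of_nhds.continuousAt
  have hgc : ContinuousAt g a := hg.self_of_nhds.continuousAt
  have h1 : ∀ᶠ z in 𝓝 a, f z ∈ ball (f a) R := hfc.eventually_mem (ball_mem_nhds _ hR)
  have h2 : ∀ᶠ z in 𝓝 a, g z ∈ ball (f a) R := hgc.eventually_mem (by rw [← h0]; exact ball_mem_nhds _ hR)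
  obtain ⟨δ, hδ, hB⟩ := Metric.eventually_nhds_iff_ball.1 (hf.and (hg.and (h1.and h2)))
  obtain ⟨r, hr⟩ : ∃ r : ℝ, r = min δ (1 / (2 * K)) := ⟨_, rfl⟩
  have hr0 : 0 < r := by rw [hr]; exact lt_min hδ (by positivity)
  have hrδ : r ≤ δ := by rw [hr]; exact min_le_left _ _
  have hr3 : K * r ≤ 1 / 2 := by
    have : r ≤ 1 / (2 * K) := by rw [hr]; exact min_le_right _ _
    calc K * r ≤ K * (1 / (2 * K)) := mul_le_mul_of_nonneg_left this hK.le
      _ = 1 / 2 := by field_simp
  have hB' : ∀ z ∈ ball a r, _ := fun z hz => hB z (ball_subset_ball hrδ hz)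
  have hu : ∀ z ∈ ball a r, ‖f z - g z‖ ≤ 2 * 0 := by
    refine ode_self (S := ball a r) (u := fun z => f z - g z) (B₀ := 2 * R) ?_ ?_
    · intro z hz
      have h3 := (hB' z hz).2.2
      rw [← dist_eq_norm]
      calc dist (f z) (g z) ≤ dist (f z) (f a) + dist (g z) (f a) := dist_triangle_right _ _ _
        _ ≤ 2 * R := by linarith [mem_ball.1 h3.1, mem_ball.1 h3.2]
    · intro B hBB z hz
      have hd : ∀ w ∈ ball a r, HasDerivAt (fun w => f w - g w) (V (f w) - V (g w)) w := fun w hw => (hB' w hw).1.sub (hB' w hw).2.1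
      have hb : ∀ w ∈ ball a r, ‖V (f w) - V (g w)‖ ≤ K * B := by
        intro w hw
        have h3 := (hB' w hw).2.2
        refine ((convex_ball (f a) R).norm_image_sub_le_of_norm_fderiv_le (𝕜 := ℂ) (f := V) (fun z hz => (hVa z hz).differentiableAt) hVd h3.2 h3.1).trans ?_
        exact mul_le_mul_of_nonneg_left (hBB w hw) hK.le
      have h3 := ode_mv hd hb hz
      have h4 : f a - g a = 0 := by rw [h0, sub_self]
      rw [h4, sub_zero] at h3
      have hB0 : 0 ≤ B := (norm_nonneg _).trans (hBB z hz)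
      calc ‖f z - g z‖ ≤ K * B * r := h3
        _ = (K * r) * B := by ring
        _ ≤ 1 / 2 * B := mul_le_mul_of_nonneg_right hr3 hB0
        _ = 0 + B / 2 := by ring
  filter_upwards [ball_mem_nhds a hr0] with z hz
  have h5 := hu z hz
  rw [mul_zero] at h5
  exact sub_eq_zero.1 (norm_le_zero_iff.1 h5)

end Pool.Agent.GG

end

section

/-!
# GG OdeG: `exists_flow` and uniqueness (file `Ode`, helper77) for functions on a finite type

PROOF: transport along `Fintype.equivFin ι` (`LinearEquiv.funCongrLeft`).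
-/

set_option autoImplicit false

open Topology Filter Metric

namespace Pool.Agent.GG

private theorem transport_field {ι : Type} [Fintype ι] {n : ℕ} (L : (ι → ℂ) ≃L[ℂ] (Fin n → ℂ)) {V : (ι → ℂ) → (ι → ℂ)} {x₀ : ι → ℂ}
    (hV : AnalyticAt ℂ V x₀) : AnalyticAt ℂ (fun y => L (V (L.symm y))) (L x₀) := by
  have h1 : AnalyticAt ℂ (fun y : Fin n → ℂ => L.symm y) (L x₀) := L.symm.analyticAt _
  have h2 : AnalyticAt ℂ V (L.symm (L x₀)) := by rwa [L.symm_apply_apply]
  have h3 : AnalyticAt ℂ (fun y : Fin n → ℂ => V (L.symm y)) (L x₀) := AnalyticAt.comp (g := V) (f := fun y : Fin n → ℂ => L.symm y) h2 h1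
  exact AnalyticAt.comp (g := fun y : ι → ℂ => L y) (f := fun y : Fin n → ℂ => V (L.symm y)) (L.analyticAt _) h3

theorem exists_flowG {ι : Type} [Fintype ι] {V : (ι → ℂ) → (ι → ℂ)} {x₀ : ι → ℂ} (hV : AnalyticAt ℂ V x₀) :
    ∃ r > 0, ∃ H : ℂ × (ι → ℂ) → (ι → ℂ), (∀ q ∈ ball (0 : ℂ) r ×ˢ ball x₀ r, AnalyticAt ℂ H q) ∧
      (∀ x ∈ ball x₀ r, H (0, x) = x) ∧
      ∀ x ∈ ball x₀ r, ∀ z ∈ ball (0 : ℂ) r, AnalyticAt ℂ V (H (z, x)) ∧ HasDerivAt (fun z => H (z, x)) (V (H (z, x))) z := by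
  classical
  obtain ⟨L, -⟩ : ∃ L : (ι → ℂ) ≃L[ℂ] (Fin (Fintype.card ι) → ℂ), True :=
    ⟨(LinearEquiv.funCongrLeft ℂ ℂ (Fintype.equivFin ι).symm).toContinuousLinearEquiv, trivial⟩
  have hev : ∀ᶠ y in 𝓝 (L x₀), AnalyticAt ℂ V (L.symm y) := by
    have h1 : ∀ᶠ x in 𝓝 x₀, AnalyticAt ℂ V x := hV.eventually_analyticAt
    have h2 : Tendsto (fun y => L.symm y) (𝓝 (L x₀)) (𝓝 x₀) := by
      have := L.symm.continuous.tendsto (L x₀)
      rwa [L.symm_apply_apply] at this
    exact h2.eventually h1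
  obtain ⟨ρ, hρ, hB⟩ := Metric.eventually_nhds_iff_ball.1 hev
  obtain ⟨r', hr', H, hHa, hH0, hHd⟩ := exists_flow (transport_field L hV) hρ
  obtain ⟨δ, hδ, hδL⟩ : ∃ δ > 0, ∀ x ∈ ball x₀ δ, L x ∈ ball (L x₀) r' := by
    have h1 : ∀ᶠ x in 𝓝 x₀, L x ∈ ball (L x₀) r' := L.continuous.continuousAt.eventually_mem (ball_mem_nhds _ hr')
    exact Metric.eventually_nhds_iff_ball.1 h1
  refine ⟨min r' δ, lt_min hr' hδ, fun q => L.symm (H (q.1, L q.2)), ?_, ?_, ?_⟩
  · rintro ⟨z, x⟩ ⟨hz, hx⟩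
    have h1 : AnalyticAt ℂ H (z, L x) := hHa z (ball_subset_ball (min_le_left _ _) hz) (L x) (hδL x (ball_subset_ball (min_le_right _ _) hx))
    have h2 : AnalyticAt ℂ (fun q : ℂ × (ι → ℂ) => (q.1, L q.2)) (z, x) :=
      AnalyticAt.prod analyticAt_fst (AnalyticAt.comp (g := fun y : ι → ℂ => L y) (f := fun q : ℂ × (ι → ℂ) => q.2) (L.analyticAt _) analyticAt_snd)
    have h3 : AnalyticAt ℂ (fun q : ℂ × (ι → ℂ) => H (q.1, L q.2)) (z, x) :=
      AnalyticAt.comp (g := H) (f := fun q : ℂ × (ι → ℂ) => (q.1, L q.2)) h1 h2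
    exact AnalyticAt.comp (g := fun y => L.symm y) (f := fun q : ℂ × (ι → ℂ) => H (q.1, L q.2)) (L.symm.analyticAt _) h3
  · intro x hx
    show L.symm (H (0, L x)) = x
    rw [hH0 _ (hδL x (ball_subset_ball (min_le_right _ _) hx)), L.symm_apply_apply]
  · intro x hx z hz
    have h1 := hHd z (ball_subset_ball (min_le_left _ _) hz) (L x) (hδL x (ball_subset_ball (min_le_right _ _) hx))
    refine ⟨hB _ h1.1, ?_⟩
    have h2 := (L.symm : (Fin (Fintype.card ι) → ℂ) →L[ℂ] (ι → ℂ)).hasFDerivAt.comp_hasDerivAt z h1.2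
    have h3 : (L.symm : (Fin (Fintype.card ι) → ℂ) →L[ℂ] (ι → ℂ)) (L (V (L.symm (H (z, L x))))) = V (L.symm (H (z, L x))) := L.symm_apply_apply _
    rw [h3] at h2
    exact h2

theorem ode_uniqueG {ι : Type} [Fintype ι] {V : (ι → ℂ) → (ι → ℂ)} {y₁ y₂ : ℂ → ι → ℂ} {t : ℂ} (hV : AnalyticAt ℂ V (y₁ t))
    (e : y₁ t = y₂ t) (d1 : ∀ᶠ s in 𝓝 t, HasDerivAt y₁ (V (y₁ s)) s)
    (d2 : ∀ᶠ s in 𝓝 t, HasDerivAt y₂ (V (y₂ s)) s) : ∀ᶠ s in 𝓝 t, y₁ s = y₂ s := by
  classical
  obtain ⟨L, -⟩ : ∃ L : (ι → ℂ) ≃L[ℂ] (Fin (Fintype.card ι) → ℂ), True :=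
    ⟨(LinearEquiv.funCongrLeft ℂ ℂ (Fintype.equivFin ι).symm).toContinuousLinearEquiv, trivial⟩
  have key : ∀ y : ℂ → ι → ℂ, (∀ᶠ s in 𝓝 t, HasDerivAt y (V (y s)) s) →
      ∀ᶠ s in 𝓝 t, HasDerivAt (fun s => L (y s)) (L (V (L.symm (L (y s))))) s := by
    intro y hy
    filter_upwards [hy] with s hs
    rw [L.symm_apply_apply]
    exact (L : (ι → ℂ) →L[ℂ] (Fin (Fintype.card ι) → ℂ)).hasFDerivAt.comp_hasDerivAt s hs
  have h := flow_unique_nhds (V := fun y => L (V (L.symm y))) (f := fun s => L (y₁ s)) (g := fun s => L (y₂ s)) (a := t)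
    (transport_field L hV) (by rw [e]) (key y₁ d1) (key y₂ d2)
  filter_upwards [h] with s hs
  exact L.injective hs

end Pool.Agent.GG

end
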