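import Pool.Agent.H18.GGT.H23.Forms
import Pool.Agent.H18.GGT.M03
import Pool.Agent.H18.GGT.M05
import Pool.Agent.H18.GGT.M11
import Pool.Agent.H18.GGT.M19

/-! The parts of this file: H62.FC.Place_1, H62.FC.NotLGT, H7.Gtu.Main, H7.Qup.Log. -/

section

/-! Prime divisors of `L(t)`. -/

noncomputable section

namespace Pool.Agent.H62.FC

open Pool.Agent.H23.Fano (PrimeDivisorOver Form)
open WithZero Cardinal

/-- The isomorphism with the rational functions. -/
def Place_rat {K : Type} [Field K] [Algebra ℂ K] (L : IntermediateField ℂ K) {t : K}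
    (ht : Transcendental L t) (htop : IntermediateField.adjoin L {t} = ⊤) : RatFunc L ≃ₐ[L] K :=
  (RatFunc.algEquivOfTranscendental t ht).trans
    ((IntermediateField.equivOfEq htop).trans IntermediateField.topEquiv)

lemma Place_rat_apply {K : Type} [Field K] [Algebra ℂ K] (L : IntermediateField ℂ K) {t : K}
    (ht : Transcendental L t) (htop : IntermediateField.adjoin L {t} = ⊤) (f : RatFunc L) :
    Place_rat L ht htop f = Polynomial.aeval t f.num / Polynomial.aeval t f.denom := by
  rw [← RatFunc.algEquivOfTranscendental_apply t ht]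
  rfl

lemma Place_rat_algebraMap {K : Type} [Field K] [Algebra ℂ K] (L : IntermediateField ℂ K) {t : K}
    (ht : Transcendental L t) (htop : IntermediateField.adjoin L {t} = ⊤) (q : Polynomial L) :
    Place_rat L ht htop (algebraMap (Polynomial L) (RatFunc L) q) = Polynomial.aeval t q := by
  rw [Place_rat_apply, RatFunc.num_algebraMap, RatFunc.denom_algebraMap, map_one, div_one]

/-- The height one prime. -/
def Place_spec {F : Type*} [Field F] {p : Polynomial F} (hp : Irreducible p) :
    IsDedekindDomain.HeightOneSpectrum (Polynomial F) where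
  asIdeal := Ideal.span {p}
  isPrime := (Ideal.span_singleton_prime hp.ne_zero).mpr hp.prime
  ne_bot := by simpa using hp.ne_zero

/-- A transcendence basis of `L`. -/
lemma Place_basis {K : Type} [Field K] [Algebra ℂ K] {w : ℕ}
    (hz : ∃ z : Fin (w + 1) → K, IsTranscendenceBasis ℂ z) (L : IntermediateField ℂ K) {t : K}
    (ht : Transcendental L t) (htop : IntermediateField.adjoin L {t} = ⊤) :
    ∃ x : Fin w → L, AlgebraicIndependent ℂ x := by
  obtain ⟨z, hz⟩ := hz
  have h1 : Algebra.trdeg ℂ K = (w + 1 : ℕ) := by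
    rw [← hz.cardinalMk_eq_trdeg]; simp
  have h2 : Algebra.trdeg ℂ L + Algebra.trdeg L K = Algebra.trdeg ℂ K :=
    trdeg_add_eq ℂ L
  have h3 : Algebra.trdeg L K = 1 := by
    have hb : IsTranscendenceBasis L
        (algebraMap (Polynomial L) (RatFunc L) ∘ fun _ : Unit => (Polynomial.X : Polynomial L)) :=
      have : Algebra.IsAlgebraic (Polynomial L) (RatFunc L) :=
        IsLocalization.isAlgebraic (R := Polynomial L) (S := RatFunc L)
          (M := nonZeroDivisors (Polynomial L))
      IsTranscendenceBasis.algebraMap_comp (A := RatFunc L)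
        (IsTranscendenceBasis.polynomial Unit L)
    rw [← (Place_rat L ht htop).trdeg_eq, ← hb.cardinalMk_eq_trdeg]; simp
  rw [h3, h1] at h2
  have h4 : Algebra.trdeg ℂ L = (w : ℕ) := by
    have : Algebra.trdeg ℂ L < ℵ₀ := by
      refine lt_of_le_of_lt ?_ (Cardinal.natCast_lt_aleph0 (n := w + 1))
      rw [← h2]; exact self_le_add_right _ _
    obtain ⟨m, hm⟩ := Cardinal.lt_aleph0.mp this
    rw [hm] at h2 ⊢
    have : m + 1 = w + 1 := by exact_mod_cast h2
    have : m = w := by omega
    rw [this]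
  obtain ⟨s, hs⟩ := exists_isTranscendenceBasis ℂ L
  have h5 : #s = (w : ℕ) := by rw [hs.cardinalMk_eq_trdeg, h4]
  have h6 : Nonempty (Fin w ≃ s) := by
    rw [← Cardinal.eq]
    simp [h5]
  obtain ⟨e⟩ := h6
  exact ⟨fun i => (e i : L), hs.1.comp e e.injective⟩

theorem exists_place {K : Type} [Field K] [Algebra ℂ K] {w : ℕ}
    (hz : ∃ z : Fin (w + 1) → K, IsTranscendenceBasis ℂ z) (L : IntermediateField ℂ K) {t : K}
    (ht : Transcendental L t) (htop : IntermediateField.adjoin L {t} = ⊤) {p : Polynomial L}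
    (hp : Irreducible p) :
    ∃ E : PrimeDivisorOver K (w + 1), E.ord (Polynomial.aeval t p) = 1 ∧
      (∀ l : L, l ≠ 0 → E.ord (l : K) = 0) ∧
      (∀ q : Polynomial L, ¬ p ∣ q → E.ord (Polynomial.aeval t q) = 0) ∧
      ∀ D : Derivation ℂ K K, (∀ l : L, 0 ≤ E.ord (D (l : K))) → 0 ≤ E.ord (D t) →
        ∀ f, 0 ≤ E.ord f → 0 ≤ E.ord (D f) := by
  set v := Place_spec hp with hv
  set e := Place_rat L ht htop with he
  set V : AddValuation K (WithTop ℤ) :=
    Place_add ((v.valuation (RatFunc L)).comap (e.symm : K →+* RatFunc L)) with hV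
  have hVapp : ∀ f : K, V f = Place_phi (v.valuation (RatFunc L) (e.symm f)) := fun f => rfl
  have hpoly : ∀ q : Polynomial L, V (Polynomial.aeval t q) = Place_phi (v.intValuation q) := by
    intro q
    rw [hVapp, ← Place_rat_algebraMap L ht htop q, ← he, AlgEquiv.symm_apply_apply,
      IsDedekindDomain.HeightOneSpectrum.valuation_of_algebraMap]
  have hp1 : V (Polynomial.aeval t p) = 1 := by
    rw [hpoly, v.intValuation_singleton hp.ne_zero rfl, Place_phi_exp]
    simp
  have hq0 : ∀ q : Polynomial L, ¬ p ∣ q → V (Polynomial.aeval t q) = 0 := by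
    intro q hq
    rw [hpoly, IsDedekindDomain.HeightOneSpectrum.intValuation_eq_one_iff.mpr, Place_phi_one]
    rw [hv]
    simpa [Place_spec, Ideal.mem_span_singleton] using hq
  have hqn : ∀ q : Polynomial L, 0 ≤ V (Polynomial.aeval t q) := by
    intro q
    rw [hpoly, Place_phi_nonneg_iff]
    exact v.intValuation_le_one q
  have hl : ∀ l : L, l ≠ 0 → V (l : K) = 0 := by
    intro l hl
    have h1 : (l : K) = Polynomial.aeval t (Polynomial.C l) := by
      rw [Polynomial.aeval_C]; rfl
    rw [h1]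
    refine hq0 _ fun hdvd => ?_
    obtain ⟨r, hr⟩ := hdvd
    have hu : IsUnit (p * r) := by
      rw [← hr]; exact Polynomial.isUnit_C.mpr (isUnit_iff_ne_zero.mpr hl)
    exact hp.not_isUnit (isUnit_of_mul_isUnit_left hu)
  have hln : ∀ l : L, 0 ≤ V (l : K) := by
    intro l
    by_cases h0 : l = 0
    · rw [h0]; simp
    · rw [hl l h0]
  refine ⟨⟨V, ?_, ⟨_, hp1⟩, ?_⟩, hp1, hl, hq0, ?_⟩
  · intro c
    have := hln (algebraMap ℂ L c)
    rwa [show ((algebraMap ℂ L c : L) : K) = algebraMap ℂ K c from rfl] at this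
  · obtain ⟨x, hx⟩ := Place_basis hz L ht htop
    refine ⟨fun i => (x i : K), fun i => hln _, fun P hP => ?_⟩
    have h1 : MvPolynomial.aeval (fun i : Fin w => (x i : K)) P
        = ((MvPolynomial.aeval x P : L) : K) := by
      exact MvPolynomial.aeval_algebraMap_apply K x P
    have h2 : V (MvPolynomial.aeval (fun i : Fin w => (x i : K)) P) = 0 := by
      rw [h1]
      refine hl _ fun h0 => hP ?_
      have hx' : Function.Injective (MvPolynomial.aeval (R := ℂ) x) := hx
      exact hx' (h0.trans (map_zero _).symm)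
    exact h2
  · intro D hDl hDt f hf
    change 0 ≤ V (D f)
    change 0 ≤ V f at hf
    change 0 ≤ V (D t) at hDt
    have hDl' : ∀ l : L, 0 ≤ V (D (l : K)) := hDl
    have htn : 0 ≤ V t := by simpa using hqn Polynomial.X
    have hadd : ∀ a b : K, 0 ≤ V a → 0 ≤ V b → 0 ≤ V (a + b) := fun a b ha hb =>
      (le_min ha hb).trans (V.map_add a b)
    have hmul : ∀ a b : K, 0 ≤ V a → 0 ≤ V b → 0 ≤ V (a * b) := fun a b ha hb => by
      rw [V.map_mul]; exact add_nonneg ha hb
    have hpow : ∀ (a : K) (n : ℕ), 0 ≤ V a → 0 ≤ V (a ^ n) := by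
      intro a n ha
      induction n with
      | zero => simp
      | succ n ih => rw [pow_succ]; exact hmul _ _ ih ha
    have hnat : ∀ n : ℕ, 0 ≤ V (n : K) := by
      intro n
      have := hln (n : L)
      simpa using this
    have hneg : ∀ a : K, 0 ≤ V a → 0 ≤ V (-a) := fun a ha => by rwa [V.map_neg]
    have hDq : ∀ q : Polynomial L, 0 ≤ V (D (Polynomial.aeval t q)) := by
      intro q
      induction q using Polynomial.induction_on' with
      | add p q hp hq => rw [map_add, map_add]; exact hadd _ _ hp hq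
      | monomial n a =>
        rw [Polynomial.aeval_monomial]
        change 0 ≤ V (D ((a : K) * t ^ n))
        rw [D.leibniz, D.leibniz_pow]
        refine hadd _ _ ?_ ?_
        · simp only [smul_eq_mul, nsmul_eq_mul]
          exact hmul _ _ (hln a) (hmul _ _ (hnat n) (hmul _ _ (hpow _ _ htn) hDt))
        · simp only [smul_eq_mul]
          exact hmul _ _ (hpow _ _ htn) (hDl' a)
    have hval : v.valuation (RatFunc L) (e.symm f) ≤ 1 := by
      rw [← Place_phi_nonneg_iff, ← hVapp]; exact hf
    obtain ⟨a, b, hab⟩ := v.exists_primeCompl_mul_eq_of_integer (e.symm f) hval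
    have hb : V (Polynomial.aeval t (b : Polynomial L)) = 0 := by
      refine hq0 _ fun hdvd => b.2 ?_
      change (b : Polynomial L) ∈ (Place_spec hp).asIdeal
      simpa [Place_spec, Ideal.mem_span_singleton] using hdvd
    have hb0 : Polynomial.aeval t (b : Polynomial L) ≠ 0 := by
      intro h0
      rw [h0, V.map_zero] at hb
      exact absurd hb (by simp)
    have hfa : f * Polynomial.aeval t (b : Polynomial L) = Polynomial.aeval t a := by
      have := congrArg e hab
      rwa [map_mul, AlgEquiv.apply_symm_apply, he, Place_rat_algebraMap, Place_rat_algebraMap]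
        at this
    have hDf : D f = (D (Polynomial.aeval t a) - f * D (Polynomial.aeval t (b : Polynomial L)))
        * (Polynomial.aeval t (b : Polynomial L))⁻¹ := by
      rw [← hfa, D.leibniz]
      simp only [smul_eq_mul]
      field_simp
      ring
    rw [hDf]
    refine hmul _ _ ?_ ?_
    · rw [sub_eq_add_neg]
      exact hadd _ _ (hDq a) (hneg _ (hmul _ _ hf (hDq _)))
    · have h1 : V ((Polynomial.aeval t (b : Polynomial L)) *
          (Polynomial.aeval t (b : Polynomial L))⁻¹) = 0 := by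
        rw [mul_inv_cancel₀ hb0, V.map_one]
      rw [V.map_mul, hb, zero_add] at h1
      rw [h1]

end Pool.Agent.H62.FC

end
end

section

/-! # A function field `K = L(t)` is not of log general type -/

noncomputable section

namespace Pool.Agent.H62.FC

open Pool.Agent.H23.Fano (PrimeDivisorOver Form)
open Pool.Agent.H17LG.Variety (IsLogGeneralType PoleAtMost)
open Polynomial

section der

variable {K : Type} [Field K] [Algebra ℂ K] (L : IntermediateField ℂ K) {ι : Type} {l : ι → L}

private lemma der_aeval_mem (D : Derivation ℂ K K) (hD : ∀ i, D (l i) ∈ L)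
    (p : MvPolynomial ι ℂ) : D ((MvPolynomial.aeval l p : L) : K) ∈ L := by
  induction p using MvPolynomial.induction_on with
  | C a =>
    rw [MvPolynomial.aeval_C]
    have h : ((algebraMap ℂ L a : L) : K) = algebraMap ℂ K a := rfl
    rw [h, D.map_algebraMap]
    exact L.zero_mem
  | add p q hp hq =>
    rw [map_add, L.coe_add, map_add]
    exact L.add_mem hp hq
  | mul_X p i hp =>
    rw [map_mul, L.coe_mul, D.leibniz, MvPolynomial.aeval_X]
    simp only [smul_eq_mul]
    exact L.add_mem (L.mul_mem (SetLike.coe_mem _) (hD i)) (L.mul_mem (SetLike.coe_mem _) hp)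

private lemma der_eval (D : Derivation ℂ K K) (hD : ∀ i, D (l i) ∈ L) (x : L)
    (G : (MvPolynomial ι ℂ)[X]) :
    ∃ r ∈ L, D ((G.eval₂ (MvPolynomial.aeval l).toRingHom x : L) : K) =
      r + ((G.derivative.eval₂ (MvPolynomial.aeval l).toRingHom x : L) : K) * D x := by
  induction G using Polynomial.induction_on' with
  | add p q hp hq =>
    obtain ⟨r, hr, h1⟩ := hp
    obtain ⟨r', hr', h2⟩ := hq
    refine ⟨r + r', L.add_mem hr hr', ?_⟩
    rw [eval₂_add, L.coe_add, map_add, h1, h2, derivative_add, eval₂_add, L.coe_add]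
    ring
  | monomial n a =>
    refine ⟨(x : K) ^ n * D ((MvPolynomial.aeval l a : L) : K),
      L.mul_mem (pow_mem (SetLike.coe_mem x) n) (der_aeval_mem L D hD a), ?_⟩
    rw [eval₂_monomial, derivative_monomial, eval₂_monomial, L.coe_mul, D.leibniz, L.coe_pow,
      D.leibniz_pow]
    have h1 : ((MvPolynomial.aeval l).toRingHom (a * (n : MvPolynomial ι ℂ)) : L) =
        MvPolynomial.aeval l a * (n : L) := by
      change MvPolynomial.aeval l (a * (n : MvPolynomial ι ℂ)) = _
      rw [map_mul, map_natCast]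
    rw [h1]
    change ((MvPolynomial.aeval l a : L) : K) • n • (x : K) ^ (n - 1) • D x +
      (x : K) ^ n • D ((MvPolynomial.aeval l a : L) : K) = _
    push_cast
    simp only [nsmul_eq_mul, smul_eq_mul]
    ring

private lemma der_mem (hl : IsTranscendenceBasis ℂ l) (D : Derivation ℂ K K)
    (hD : ∀ i, D (l i) ∈ L) (x : L) : D x ∈ L := by
  have key : ∀ (n : ℕ) (F : (MvPolynomial ι ℂ)[X]), F ≠ 0 → F.natDegree ≤ n →
      F.eval₂ (MvPolynomial.aeval l).toRingHom x = 0 → D (x : K) ∈ L := by
    intro n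
    induction n with
    | zero =>
      intro F hF hn hx
      exfalso
      rw [Polynomial.eq_C_of_natDegree_le_zero hn, eval₂_C] at hx
      have h1 : F.coeff 0 = 0 := hl.1 (by rw [map_zero]; exact hx)
      apply hF
      rw [Polynomial.eq_C_of_natDegree_le_zero hn, h1, C_0]
    | succ n ih =>
      intro F hF hn hx
      by_cases h0 : F.natDegree ≤ n
      · exact ih F hF h0 hx
      have hdeg : 0 < F.natDegree := by omega
      have hne : F.derivative ≠ 0 := by
        intro h
        have := Polynomial.derivative_eq_zero.1 h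
        omega
      have hlt : F.derivative.natDegree ≤ n := by
        have := Polynomial.natDegree_derivative_lt (p := F) (by omega)
        omega
      by_cases hx' : F.derivative.eval₂ (MvPolynomial.aeval l).toRingHom x = 0
      · exact ih _ hne hlt hx'
      · obtain ⟨r, hr, h⟩ := der_eval L D hD x F
        rw [hx] at h
        have h2 : ((F.derivative.eval₂ (MvPolynomial.aeval l).toRingHom x : L) : K) ≠ 0 := by
          intro h3
          exact hx' (Subtype.ext h3)
        have h4 : D (x : K) =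
            -r / ((F.derivative.eval₂ (MvPolynomial.aeval l).toRingHom x : L) : K) := by
          rw [eq_div_iff h2]
          have h5 : D ((0 : L) : K) = 0 := by
            rw [L.coe_zero, map_zero]
          rw [h5] at h
          linear_combination -h
        rw [h4]
        exact L.div_mem (L.neg_mem hr) (SetLike.coe_mem _)
  obtain ⟨F, hF, hFx⟩ := Pool.Agent.H23.exists_poly_of_basis hl x
  exact key F.natDegree F hF le_rfl hFx

end der

section forms

variable {K : Type} [Field K] [Algebra ℂ K] {w : ℕ}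

private lemma pole_form {E : PrimeDivisorOver K w} {b : Module.Basis (Fin w) K Ω[K⁄ℂ]}
    {g : Fin w → K} (hb : ∀ i, b i = KaehlerDifferential.D ℂ K (g i))
    (hg : ∀ i, 0 ≤ E.ord (g i))
    (hD : ∀ i f, 0 ≤ E.ord f → 0 ≤ E.ord (Pool.Agent.H23.dualDer b i f)) {p m : ℕ} {f : K}
    {ω : Form K w} (h : PoleAtMost p E m f ω) :
    0 ≤ E.ord (f * (Pool.Agent.H23.fc b ω) ^ m) + p := by
  obtain ⟨c, η, hη, rfl, h⟩ := h
  have h1 : 0 ≤ E.ord (Pool.Agent.H23.fc b η) := by
    have h2 := (Pool.Agent.H23.mem_regularForms_iff (Pool.Agent.H23.ofFano E).localRing b hb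
      (fun i => hg i) (fun i f hf => hD i f hf) η).1
    exact h2 hη
  have h2 : Pool.Agent.H23.fc b (c • η) = c * Pool.Agent.H23.fc b η :=
    map_smul (Pool.Agent.H23.fc b) c η
  rw [h2, mul_pow, ← mul_assoc, E.ord.map_mul, E.ord.map_pow]
  refine le_trans h ?_
  rw [add_right_comm]
  exact le_add_of_nonneg_right (nsmul_nonneg h1 _)

private lemma fc_inv {b b' : Module.Basis (Fin w) K Ω[K⁄ℂ]} {t : K} {i₀ : Fin w}
    (hb : b i₀ = KaehlerDifferential.D ℂ K t) (hb' : b' i₀ = KaehlerDifferential.D ℂ K t⁻¹)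
    (h : ∀ i, i ≠ i₀ → b' i = b i) (ω : Pool.Agent.H23.RatForm K w) :
    Pool.Agent.H23.fc b ω = -(t⁻¹ ^ 2) * Pool.Agent.H23.fc b' ω := by
  have h1 : (fun i => b' i) = Function.update (fun i => b i) i₀ (-(t⁻¹ ^ 2) • b i₀) := by
    funext i
    by_cases hi : i = i₀
    · subst hi
      rw [Function.update_self, hb', hb, Derivation.leibniz_inv]
    · rw [Function.update_of_ne hi, h i hi]
  conv_lhs => rw [Pool.Agent.H23.eq_fc_smul b' ω]
  rw [map_smul, Pool.Agent.H23.fc_ιMulti, h1, AlternatingMap.map_update_smul,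
    Function.update_eq_self, smul_eq_mul, smul_eq_mul]
  have h2 : b.det (fun i => b i) = 1 := b.det_self
  rw [h2]
  ring

end forms

section poly

private lemma cast_nonneg_top (m : ℕ) : (0 : WithTop ℤ) ≤ (m : WithTop ℤ) := by
  induction m with
  | zero => rw [Nat.cast_zero]
  | succ n ih =>
    rw [Nat.cast_succ]
    exact add_nonneg ih (by norm_num)

variable {K : Type} [Field K] [Algebra ℂ K] {L : IntermediateField ℂ K} {t : K}

private lemma ord_const_nonneg (v : AddValuation K (WithTop ℤ)) (hL : ∀ l : L, l ≠ 0 → v (l : K) = 0)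
    (l : L) : 0 ≤ v (l : K) := by
  by_cases h : l = 0
  · rw [h, L.coe_zero, v.map_zero]
    exact le_top
  · rw [hL l h]

private lemma ord_aeval_nonneg (v : AddValuation K (WithTop ℤ))
    (hL : ∀ l : L, l ≠ 0 → v (l : K) = 0) (ht : 0 ≤ v t) (q : L[X]) : 0 ≤ v (aeval t q) := by
  induction q using Polynomial.induction_on' with
  | add p q hp hq =>
    rw [map_add]
    exact v.map_le_add hp hq
  | monomial n a =>
    rw [aeval_monomial, v.map_mul, v.map_pow]
    exact add_nonneg (ord_const_nonneg v hL a) (nsmul_nonneg ht n)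

private lemma ord_t_nonneg (v : AddValuation K (WithTop ℤ)) (hL : ∀ l : L, l ≠ 0 → v (l : K) = 0)
    {p : L[X]} (hp : Irreducible p) (hp1 : v (aeval t p) = 1)
    (hq : ∀ q : L[X], ¬ p ∣ q → v (aeval t q) = 0) :
    (p ∣ X ∧ v t = 1) ∨ (¬ p ∣ X ∧ v t = 0) := by
  by_cases h : p ∣ X
  · left
    refine ⟨h, ?_⟩
    obtain ⟨u, hu⟩ := hp.associated_of_dvd irreducible_X h
    obtain ⟨c, hc, hcu⟩ := Polynomial.isUnit_iff.1 u.isUnit
    have h1 : t = aeval t p * (c : K) := by
      have h2 : aeval t (p * (u : L[X])) = aeval t (X : L[X]) := by rw [hu]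
      rw [map_mul, aeval_X, ← hcu, aeval_C] at h2
      exact h2.symm
    rw [h1, v.map_mul, hp1, hL c hc.ne_zero, add_zero]
  · right
    refine ⟨h, ?_⟩
    have := hq X h
    rwa [aeval_X] at this

private lemma eq_poly (htop : IntermediateField.adjoin L {t} = ⊤) (ht : Transcendental L t) {G : K}
    (hG : ∀ p : L[X], Irreducible p → ∃ v : AddValuation K (WithTop ℤ), v (aeval t p) = 1 ∧
      (∀ l : L, l ≠ 0 → v (l : K) = 0) ∧ (∀ q : L[X], ¬ p ∣ q → v (aeval t q) = 0) ∧ 0 ≤ v G) :
    ∃ a : L[X], G = aeval t a := by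
  have h1 : G ∈ IntermediateField.adjoin L {t} := by rw [htop]; trivial
  rw [IntermediateField.mem_adjoin_simple_iff] at h1
  obtain ⟨r, s, hrs⟩ := h1
  by_cases hs : s = 0
  · refine ⟨0, ?_⟩
    rw [hrs, hs, map_zero, div_zero]
  have hinj : ∀ q : L[X], aeval t q = 0 → q = 0 := by
    intro q hq
    by_contra h
    exact ht ⟨q, h, hq⟩
  classical
  have hg : EuclideanDomain.gcd r s ≠ 0 := by
    intro h
    rw [EuclideanDomain.gcd_eq_zero_iff] at h
    exact hs h.2
  obtain ⟨r', hr'⟩ := EuclideanDomain.gcd_dvd_left r s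
  obtain ⟨s', hs'⟩ := EuclideanDomain.gcd_dvd_right r s
  set g := EuclideanDomain.gcd r s with hgdef
  have hcop : IsCoprime r' s' := by
    have h := EuclideanDomain.gcd_eq_gcd_ab r s
    refine ⟨EuclideanDomain.gcdA r s, EuclideanDomain.gcdB r s, ?_⟩
    apply mul_left_cancel₀ hg
    rw [← hgdef] at h
    calc g * (EuclideanDomain.gcdA r s * r' + EuclideanDomain.gcdB r s * s')
        = (g * r') * EuclideanDomain.gcdA r s + (g * s') * EuclideanDomain.gcdB r s := by ring
      _ = g * 1 := by rw [← hr', ← hs', ← h, mul_one]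
  have hs0 : s' ≠ 0 := by
    rintro rfl
    exact hs (by rw [hs', mul_zero])
  have hg' : aeval t g ≠ 0 := fun h => hg (hinj g h)
  have hG' : G = aeval t r' / aeval t s' := by
    rw [hrs, hr', hs', map_mul, map_mul, mul_div_mul_left _ _ hg']
  have hs1 : aeval t s' ≠ 0 := fun h => hs0 (hinj s' h)
  by_cases hu : IsUnit s'
  · obtain ⟨c, hc, hcu⟩ := Polynomial.isUnit_iff.1 hu
    refine ⟨r' * C c⁻¹, ?_⟩
    rw [hG', ← hcu, aeval_C, map_mul, aeval_C, div_eq_mul_inv, map_inv₀]
  · exfalso
    obtain ⟨p, hp, hps⟩ := WfDvdMonoid.exists_irreducible_factor hu hs0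
    obtain ⟨v, hv1, hv2, hv3, hv4⟩ := hG p hp
    have hpr : ¬ p ∣ r' := fun h => hp.not_isUnit (hcop.isUnit_of_dvd' h hps)
    have ht0 : 0 ≤ v t := by
      rcases ord_t_nonneg v hv2 hp hv1 hv3 with h | h
      · rw [h.2]; norm_num
      · rw [h.2]
    obtain ⟨c, rfl⟩ := hps
    have h2 : G * (aeval t p * aeval t c) = aeval t r' := by
      rw [← map_mul, hG', div_mul_cancel₀ _ hs1]
    have h3 : v G + (1 + v (aeval t c)) = 0 := by
      rw [← hv3 r' hpr, ← h2, v.map_mul, v.map_mul, hv1]
    have h4 := ord_aeval_nonneg v hv2 ht0 c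
    have h5 : (1 : WithTop ℤ) ≤ v G + (1 + v (aeval t c)) := by
      calc (1 : WithTop ℤ) ≤ 1 + v (aeval t c) := le_add_of_nonneg_right h4
        _ ≤ _ := le_add_of_nonneg_left hv4
    rw [h3] at h5
    exact absurd h5 (by decide)

private lemma degree_zero (ht0 : t ≠ 0) (v : AddValuation K (WithTop ℤ)) (ht : v t⁻¹ = 1)
    (hq : ∀ q : L[X], ¬ X ∣ q → v (aeval t⁻¹ q) = 0) {a : L[X]} (ha : 0 ≤ v (aeval t a)) :
    ∃ c : L, aeval t a = (c : K) := by
  by_cases ha0 : a = 0
  · exact ⟨0, by rw [ha0, map_zero, L.coe_zero]⟩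
  have h1 : ¬ X ∣ a.reverse := by
    rw [X_dvd_iff, coeff_zero_reverse]
    exact leadingCoeff_ne_zero.2 ha0
  let _ : Invertible t := invertibleOfNonzero ht0
  have h2 := Polynomial.eval₂_reverse_mul_pow (algebraMap L K) t a
  have h3 : v (aeval t a) + a.natDegree • (1 : WithTop ℤ) = 0 := by
    rw [← hq _ h1, ← ht, ← v.map_pow, ← v.map_mul]
    congr 1
    rw [aeval_def, aeval_def, ← h2, invOf_eq_inv, mul_assoc, ← mul_pow, mul_inv_cancel₀ ht0,
      one_pow, mul_one]
  have h4 : a.natDegree = 0 := by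
    by_contra hn
    have h5 : (1 : WithTop ℤ) ≤ a.natDegree • (1 : WithTop ℤ) := by
      obtain ⟨k, hk⟩ := Nat.exists_eq_succ_of_ne_zero hn
      rw [hk, succ_nsmul]
      exact le_add_of_nonneg_left (nsmul_nonneg (by norm_num) k)
    have h6 : (1 : WithTop ℤ) ≤ v (aeval t a) + a.natDegree • (1 : WithTop ℤ) :=
      h5.trans (le_add_of_nonneg_left ha)
    rw [h3] at h6
    exact absurd h6 (by decide)
  refine ⟨a.coeff 0, ?_⟩
  conv_lhs => rw [Polynomial.eq_C_of_natDegree_eq_zero h4]
  rw [aeval_C]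
  rfl

end poly

section bases

variable {K : Type} [Field K] [Algebra ℂ K] {L : IntermediateField ℂ K} {t : K}

private lemma basis_t (ht : Transcendental L t) (htop : IntermediateField.adjoin L {t} = ⊤) :
    IsTranscendenceBasis L (fun _ : Unit => t) := by
  rw [isTranscendenceBasis_iff_algebraicIndependent_isAlgebraic]
  refine ⟨algebraicIndependent_unique_type_iff.2 ht, ⟨fun x => ?_⟩⟩
  have h1 : x ∈ IntermediateField.adjoin L {t} := by rw [htop]; trivial
  rw [IntermediateField.mem_adjoin_simple_iff] at h1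
  obtain ⟨r, s, rfl⟩ := h1
  have h2 : ∀ q : L[X], IsAlgebraic (Algebra.adjoin L (Set.range fun _ : Unit => t)) (aeval t q) := by
    intro q
    have h3 : aeval t q ∈ Algebra.adjoin L (Set.range fun _ : Unit => t) := by
      rw [Set.range_const]
      exact aeval_mem_adjoin_singleton L t
    exact isAlgebraic_algebraMap (⟨aeval t q, h3⟩ : Algebra.adjoin L (Set.range fun _ : Unit => t))
  rw [div_eq_mul_inv]
  exact (h2 r).mul (h2 s).inv

private lemma transc_inv (ht : Transcendental L t) : Transcendental L t⁻¹ := by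
  intro h
  have := h.inv
  rw [inv_inv] at this
  exact ht this

private lemma top_inv (htop : IntermediateField.adjoin L {t} = ⊤) :
    IntermediateField.adjoin L {t⁻¹} = ⊤ := by
  rw [eq_top_iff, ← htop, IntermediateField.adjoin_le_iff, Set.singleton_subset_iff]
  have h := IntermediateField.mem_adjoin_simple_self L t⁻¹
  have h2 := (IntermediateField.adjoin L {t⁻¹}).inv_mem h
  rwa [inv_inv] at h2

private def gen {ι : Type} {w : ℕ} (e : Fin w ≃ Unit ⊕ ι) (l : ι → L) (t : K) (i : Fin w) : K :=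
  Sum.elim (fun _ : Unit => t) (fun j => (l j : K)) (e i)

private lemma exists_basis {ι : Type} {w : ℕ} (e : Fin w ≃ Unit ⊕ ι) {l : ι → L}
    (hl : IsTranscendenceBasis ℂ l) (ht : Transcendental L t)
    (htop : IntermediateField.adjoin L {t} = ⊤) :
    ∃ b : Module.Basis (Fin w) K Ω[K⁄ℂ], (∀ i, b i = KaehlerDifferential.D ℂ K (gen e l t i)) ∧
      (∀ i (x : L), Pool.Agent.H23.dualDer b i (x : K) ∈ L) ∧
      ∀ i, Pool.Agent.H23.dualDer b i t ∈ L := by
  have h1 : IsTranscendenceBasis ℂ (Sum.elim (fun _ : Unit => t) (algebraMap L K ∘ l)) :=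
    hl.sumElim_comp (basis_t ht htop)
  have h2 : IsTranscendenceBasis ℂ (gen e l t) := (isTranscendenceBasis_equiv e).2 h1
  obtain ⟨b, hb⟩ := Pool.Agent.H23.exists_basis_kaehler h2
  have h3 : ∀ i j, Pool.Agent.H23.dualDer b i (gen e l t j) ∈ L := by
    intro i j
    rw [Pool.Agent.H23.dualDer_coord b hb]
    split_ifs
    · exact L.one_mem
    · exact L.zero_mem
  refine ⟨b, hb, fun i x => ?_, fun i => ?_⟩
  · refine der_mem L hl _ (fun j => ?_) x
    have h4 := h3 i (e.symm (Sum.inr j))
    rwa [gen, Equiv.apply_symm_apply] at h4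
  · have h4 := h3 i (e.symm (Sum.inl ()))
    rwa [gen, Equiv.apply_symm_apply] at h4

end bases

theorem not_isLogGeneralType {K : Type} [Field K] [Algebra ℂ K] [Algebra.EssFiniteType ℂ K]
    {w : ℕ} (hz : ∃ z : Fin w → K, IsTranscendenceBasis ℂ z) (L : IntermediateField ℂ K) {t : K}
    (ht : Transcendental L t) (htop : IntermediateField.adjoin L {t} = ⊤)
    (B : PrimeDivisorOver K w → Prop)
    (hB : ∀ E, (∀ l : L, l ≠ 0 → E.ord (l : K) = 0) → E.ord t = 0 → ¬ B E) :
    ¬ IsLogGeneralType B := by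
  rintro ⟨m, hm, ω, hω, r, f, hf0, hpole, halg⟩
  obtain ⟨z, hz'⟩ := id hz
  obtain ⟨ι, l, hl⟩ := exists_isTranscendenceBasis' ℂ L
  have ht0 : t ≠ 0 := by
    rintro rfl
    exact ht isAlgebraic_zero
  have hT : IsTranscendenceBasis ℂ (Sum.elim (fun _ : Unit => t) (algebraMap L K ∘ l)) :=
    hl.sumElim_comp (basis_t ht htop)
  obtain ⟨e⟩ := Cardinal.eq.1 (hz'.cardinalMk_eq hT)
  obtain ⟨w', rfl⟩ : ∃ w', w = w' + 1 :=
    ⟨w - 1, by have := (e.symm (Sum.inl ())).pos; omega⟩
  have ht' := transc_inv ht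
  have htop' := top_inv htop
  obtain ⟨b, hb, hbL, hbt⟩ := exists_basis e hl ht htop
  obtain ⟨b', hb', hbL', hbt'⟩ := exists_basis e hl ht' htop'
  -- the places of `K = L(t₁)`
  have hplace : ∀ (t₁ : K) (b₁ : Module.Basis (Fin (w' + 1)) K Ω[K⁄ℂ])
      (_ : ∀ i, b₁ i = KaehlerDifferential.D ℂ K (gen e l t₁ i))
      (_ : ∀ i (x : L), Pool.Agent.H23.dualDer b₁ i (x : K) ∈ L)
      (_ : ∀ i, Pool.Agent.H23.dualDer b₁ i t₁ ∈ L) (E : PrimeDivisorOver K (w' + 1))
      (_ : ∀ l : L, l ≠ 0 → E.ord (l : K) = 0) (_ : 0 ≤ E.ord t₁)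
      (_ : ∀ D : Derivation ℂ K K, (∀ l : L, 0 ≤ E.ord (D (l : K))) → 0 ≤ E.ord (D t₁) →
        ∀ f, 0 ≤ E.ord f → 0 ≤ E.ord (D f)) (p : ℕ) (g : K), PoleAtMost p E m g ω →
      0 ≤ E.ord (g * (Pool.Agent.H23.fc b₁ ω) ^ m) + p := by
    intro t₁ b₁ h1 h2 h3 E h4 h5 h6 p g h7
    have h8 : ∀ x ∈ L, 0 ≤ E.ord x := fun x hx => ord_const_nonneg E.ord h4 ⟨x, hx⟩
    refine pole_form h1 (fun i => ?_) (fun i => ?_) h7
    · rw [gen]
      rcases e i with u | j
      · exact h5
      · exact h8 _ (SetLike.coe_mem _)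
    · exact h6 _ (fun x => h8 _ (h2 i x)) (h8 _ (h3 i))
  -- the functions `G i` are constant
  set h := Pool.Agent.H23.fc b ω with hh
  have hG : ∀ i, ∃ c : L, f i * h ^ m * t ^ m = (c : K) := by
    intro i
    have h1 : ∃ a : L[X], f i * h ^ m * t ^ m = aeval t a := by
      apply eq_poly htop ht
      intro p hp
      obtain ⟨E, hE1, hE2, hE3, hE4⟩ := exists_place hz L ht htop hp
      refine ⟨E.ord, hE1, hE2, hE3, ?_⟩
      rw [E.ord.map_mul, E.ord.map_pow]
      rcases ord_t_nonneg E.ord hE2 hp hE1 hE3 with ⟨-, h2⟩ | ⟨-, h2⟩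
      · have h3 : 0 ≤ E.ord (f i * h ^ m) + m := by
          by_cases hBE : B E
          · exact hplace t b hb hbL hbt E hE2 (by rw [h2]; norm_num) hE4 m (f i) ((hpole i E).2 hBE)
          · have := hplace t b hb hbL hbt E hE2 (by rw [h2]; norm_num) hE4 0 (f i)
              ((hpole i E).1 hBE)
            rw [Nat.cast_zero, add_zero] at this
            exact add_nonneg this (cast_nonneg_top m)
        rw [h2, nsmul_one]
        exact h3
      · have h3 := hplace t b hb hbL hbt E hE2 h2.ge hE4 0 (f i)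
          ((hpole i E).1 (hB E hE2 h2))
        rw [h2, nsmul_zero]
        simpa using h3
    obtain ⟨a, ha⟩ := h1
    obtain ⟨E, hE1, hE2, hE3, hE4⟩ := exists_place hz L ht' htop' (p := X) irreducible_X
    rw [aeval_X] at hE1
    rw [ha]
    apply degree_zero ht0 E.ord hE1 hE3
    rw [← ha]
    have h3 : 0 ≤ E.ord (f i * (Pool.Agent.H23.fc b' ω) ^ m) + m := by
      by_cases hBE : B E
      · exact hplace t⁻¹ b' hb' hbL' hbt' E hE2 (by rw [hE1]; norm_num) hE4 m (f i)
          ((hpole i E).2 hBE)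
      · have := hplace t⁻¹ b' hb' hbL' hbt' E hE2 (by rw [hE1]; norm_num) hE4 0 (f i)
          ((hpole i E).1 hBE)
        rw [Nat.cast_zero, add_zero] at this
        exact add_nonneg this (cast_nonneg_top m)
    have h4 : h = -(t⁻¹ ^ 2) * Pool.Agent.H23.fc b' ω := by
      refine fc_inv (i₀ := e.symm (Sum.inl ())) (t := t) ?_ ?_ ?_ ω
      · rw [hb, gen, Equiv.apply_symm_apply]; rfl
      · rw [hb', gen, Equiv.apply_symm_apply]; rfl
      · intro j hj
        rw [hb, hb', gen, gen]
        rcases hej : e j with u | k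
        · exact absurd (by rw [← hej, Equiv.symm_apply_apply]) hj
        · rfl
    have h5 : f i * h ^ m * t ^ m =
        (-1) ^ m * ((f i * (Pool.Agent.H23.fc b' ω) ^ m) * t⁻¹ ^ m) := by
      have h7 : (t⁻¹ ^ 2) ^ m * t ^ m = t⁻¹ ^ m := by
        rw [← mul_pow, sq, mul_assoc, inv_mul_cancel₀ ht0, mul_one]
      rw [h4, mul_pow, neg_pow, ← h7]
      ring
    have h6 : E.ord ((-1 : K) ^ m) = 0 := by
      rw [E.ord.map_pow, E.ord.map_neg, E.ord.map_one, nsmul_zero]
    rw [h5, E.ord.map_mul, h6, zero_add, E.ord.map_mul, E.ord.map_pow, hE1, nsmul_one]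
    exact h3
  have hh0 : h ≠ 0 := by
    intro h0
    apply hω
    have h1 := Pool.Agent.H23.eq_fc_smul b ω
    rw [← hh, h0, zero_smul] at h1
    exact h1
  have hth : h ^ m * t ^ m ≠ 0 := mul_ne_zero (pow_ne_zero _ hh0) (pow_ne_zero _ ht0)
  have hfL : IntermediateField.adjoin ℂ (Set.range fun i => f i / f 0) ≤ L := by
    rw [IntermediateField.adjoin_le_iff]
    rintro _ ⟨i, rfl⟩
    obtain ⟨c, hc⟩ := hG i
    obtain ⟨c0, hc0⟩ := hG 0
    have h1 : f i / f 0 = (c : K) / (c0 : K) := by
      rw [← hc, ← hc0, mul_assoc, mul_assoc, mul_div_mul_right _ _ hth]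
    change f i / f 0 ∈ L
    rw [h1]
    exact L.div_mem (SetLike.coe_mem _) (SetLike.coe_mem _)
  obtain ⟨p, hp, hpt⟩ := halg.isAlgebraic t
  refine ht ⟨p.map (IntermediateField.inclusion hfL).toRingHom, ?_, ?_⟩
  · rwa [Ne, Polynomial.map_eq_zero_iff]
    exact (IntermediateField.inclusion hfL).injective
  · rw [aeval_def, eval₂_map]
    exact hpt

end Pool.Agent.H62.FC

end
end

section

/-!
# Gtu Main: varieties of general type and algebraic extensions of function fields

`isGT_of_hom`: let `K` and `L` be function fields of the same transcendence degree `k` over `ℂ`, and let `e : K →ₐ[ℂ] L` be a homomorphism.  If `K` is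
of general type then so is `L`.
-/

set_option autoImplicit false

open Pool.Agent.H23.Fano (Form Diff ExtPow regularForms PrimeDivisorOver)

noncomputable section

namespace Pool.Agent.H7.Gtu

section Div

variable {K L : Type} [Field K] [Field L] [Algebra K L]

/-- A valuation of an algebraic extension of `K` which is not trivial is not trivial on `K`. -/
theorem exists_neg [Algebra.IsAlgebraic K L] (v : AddValuation L (WithTop ℤ)) {t : L} (ht : v t = 1) :
    ∃ x : K, v (algebraMap K L x) < 0 := by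
  by_contra hcon
  push Not at hcon
  have ht0 : t ≠ 0 := by
    rintro rfl
    rw [v.map_zero] at ht
    exact absurd ht (by simp)
  have hi : IsIntegral K t⁻¹ := (Algebra.IsAlgebraic.isAlgebraic (R := K) t⁻¹).isIntegral
  obtain ⟨p, hp, hp0⟩ := hi
  have hinv : v t⁻¹ = ((-1 : ℤ) : WithTop ℤ) := by
    have h1 : v t + v t⁻¹ = 0 := by rw [← v.map_mul, mul_inv_cancel₀ ht0, v.map_one]
    rw [ht] at h1
    obtain ⟨m, hm⟩ : ∃ m : ℤ, v t⁻¹ = m := by
      have h2 := (v.ne_top_iff).2 (inv_ne_zero ht0)
      exact ⟨(v t⁻¹).untop h2, by simp⟩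
    rw [hm] at h1 ⊢
    have h3 : (1 : ℤ) + m = 0 := by exact_mod_cast h1
    have h4 : m = -1 := by omega
    rw [h4]
  have hpow : ∀ n : ℕ, v (t⁻¹ ^ n) = ((-n : ℤ) : WithTop ℤ) := by
    intro n
    induction n with
    | zero => simp
    | succ n ih =>
      rw [pow_succ, v.map_mul, ih, hinv, ← WithTop.coe_add]
      congr 1
      push_cast
      ring
  have hsum : t⁻¹ ^ p.natDegree = -∑ i ∈ Finset.range p.natDegree, algebraMap K L (p.coeff i) * t⁻¹ ^ i := by
    rw [Polynomial.eval₂_eq_sum_range, Finset.sum_range_succ, hp.coeff_natDegree, map_one, one_mul] at hp0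
    linear_combination hp0
  have h1 : ((-p.natDegree + 1 : ℤ) : WithTop ℤ) ≤ v (∑ i ∈ Finset.range p.natDegree, algebraMap K L (p.coeff i) * t⁻¹ ^ i) := by
    refine v.map_le_sum fun i hi => ?_
    rw [v.map_mul, hpow]
    have h2 := hcon (p.coeff i)
    have h3 : ((-p.natDegree + 1 : ℤ) : WithTop ℤ) ≤ ((-i : ℤ) : WithTop ℤ) := by
      have h4 := Finset.mem_range.1 hi
      exact_mod_cast (by omega : (-p.natDegree + 1 : ℤ) ≤ -i)
    exact h3.trans (le_add_of_nonneg_left h2)
  have h2 := hpow p.natDegree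
  rw [hsum, v.map_neg] at h2
  rw [h2] at h1
  have h3 : (-p.natDegree + 1 : ℤ) ≤ -p.natDegree := by exact_mod_cast h1
  omega

/-- A nontrivial valuation can be normalised. -/
theorem exists_normalised (v : AddValuation K (WithTop ℤ)) (hneg : ∃ f : K, v f < 0) :
    ∃ (w : AddValuation K (WithTop ℤ)) (e : ℕ), 0 < e ∧ (∃ t : K, w t = 1) ∧
      ∀ f : K, f ≠ 0 → ∃ n : ℤ, w f = n ∧ v f = ((e * n : ℤ) : WithTop ℤ) := by
  classical
  -- integer values
  have hex : ∀ f : K, f ≠ 0 → ∃ n : ℤ, v f = (n : WithTop ℤ) := by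
    intro f hf
    have h : v f ≠ ⊤ := by
      intro h
      exact hf (v.top_iff.mp h)
    exact ⟨(v f).untop h, (WithTop.coe_untop _ _).symm⟩
  choose! val hval using hex
  have hval_mul : ∀ f g : K, f ≠ 0 → g ≠ 0 → val (f * g) = val f + val g := by
    intro f g hf hg
    have h := v.map_mul f g
    rw [hval f hf, hval g hg, hval (f * g) (mul_ne_zero hf hg)] at h
    exact_mod_cast h
  have hval_one : val 1 = 0 := by
    have h := v.map_one
    rw [hval 1 one_ne_zero] at h
    exact_mod_cast h
  have hval_inv : ∀ f : K, f ≠ 0 → val f⁻¹ = - val f := by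
    intro f hf
    have h := hval_mul f f⁻¹ hf (inv_ne_zero hf)
    rw [mul_inv_cancel₀ hf, hval_one] at h
    omega
  have hval_pow : ∀ (f : K) (n : ℕ), f ≠ 0 → val (f ^ n) = n * val f := by
    intro f n hf
    induction n with
    | zero => simp [hval_one]
    | succ n ih =>
      rw [pow_succ, hval_mul _ _ (pow_ne_zero n hf) hf, ih]
      push_cast
      ring
  have hval_zpow : ∀ (f : K) (n : ℤ), f ≠ 0 → val (f ^ n) = n * val f := by
    intro f n hf
    obtain ⟨m, rfl | rfl⟩ := n.eq_nat_or_neg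
    · rw [zpow_natCast, hval_pow f m hf]
    · rw [zpow_neg, zpow_natCast, hval_inv _ (pow_ne_zero m hf), hval_pow f m hf]
      ring
  -- minimal positive value
  have hpos : ∃ n : ℕ, 0 < n ∧ ∃ t : K, t ≠ 0 ∧ val t = n := by
    obtain ⟨f, hf⟩ := hneg
    have hf0 : f ≠ 0 := by
      rintro rfl
      simp at hf
    have h1 : val f < 0 := by
      have h := hval f hf0
      rw [h] at hf
      exact_mod_cast hf
    refine ⟨(-val f).toNat, by omega, f⁻¹, inv_ne_zero hf0, ?_⟩
    rw [hval_inv f hf0]
    omega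
  set e := Nat.find hpos with he
  obtain ⟨he0, t, ht0, htv⟩ := Nat.find_spec hpos
  rw [← he] at he0 htv
  have hmin : ∀ (n : ℕ) (f : K), 0 < n → f ≠ 0 → val f = n → e ≤ n :=
    fun n f hn hf h => Nat.find_min' hpos ⟨hn, f, hf, h⟩
  have heZ : (0 : ℤ) < e := by exact_mod_cast he0
  have hdvd : ∀ f : K, f ≠ 0 → val f = e * (val f / e) := by
    intro f hf
    have h1 : val (f * t ^ (-(val f / e))) = val f - (val f / e) * e := by
      rw [hval_mul _ _ hf (zpow_ne_zero _ ht0), hval_zpow t _ ht0, htv]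
      ring
    have h2 : val f - (val f / e) * e = val f % e := by
      have := Int.emod_add_mul_ediv (val f) e
      linarith
    have h3 : 0 ≤ val f % e := Int.emod_nonneg _ (ne_of_gt heZ)
    have h4 : val f % e < e := Int.emod_lt_of_pos _ heZ
    rcases h3.eq_or_lt with h5 | h5
    · have := Int.emod_add_mul_ediv (val f) e
      omega
    · exfalso
      have h6 := hmin (val f % e).toNat (f * t ^ (-(val f / e))) (by omega)
        (mul_ne_zero hf (zpow_ne_zero _ ht0)) (by rw [h1, h2]; omega)
      omega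
  set w : K → WithTop ℤ := fun f => if f = 0 then ⊤ else ((val f / e : ℤ) : WithTop ℤ) with hw
  have hw0 : w 0 = ⊤ := by simp [hw]
  have hwn : ∀ f : K, f ≠ 0 → w f = ((val f / e : ℤ) : WithTop ℤ) := by
    intro f hf
    simp [hw, hf]
  let ord : AddValuation K (WithTop ℤ) := AddValuation.of w hw0
    (by rw [hwn 1 one_ne_zero, hval_one]; simp)
    (by
      intro f g
      by_cases hf : f = 0
      · subst hf
        rw [zero_add, hw0]
        simp
      by_cases hg : g = 0
      · subst hg
        rw [add_zero, hw0]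
        simp
      by_cases hfg : f + g = 0
      · rw [hfg, hw0]
        exact le_top
      have h := v.map_add f g
      rw [hval f hf, hval g hg, hval (f + g) hfg] at h
      rw [hwn f hf, hwn g hg, hwn _ hfg]
      have h' : min (val f) (val g) ≤ val (f + g) := by exact_mod_cast h
      have : min (val f / e) (val g / e) ≤ val (f + g) / e := by
        rcases min_le_iff.mp h' with h4 | h4
        · exact le_trans (min_le_left _ _) (Int.ediv_le_ediv heZ h4)
        · exact le_trans (min_le_right _ _) (Int.ediv_le_ediv heZ h4)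
      exact_mod_cast this)
    (by
      intro f g
      by_cases hf : f = 0
      · subst hf
        rw [zero_mul, hw0]
        simp
      by_cases hg : g = 0
      · subst hg
        rw [mul_zero, hw0]
        simp
      rw [hwn _ (mul_ne_zero hf hg), hwn f hf, hwn g hg, hval_mul f g hf hg]
      have h1 := hdvd f hf
      have h2 : (val f + val g) / (e : ℤ) = val f / e + val g / e := by
        rw [Int.add_ediv_of_dvd_left ⟨_, h1⟩]
      rw [h2]
      push_cast
      rfl)
  have hord : ∀ f, ord f = w f := fun f => rfl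
  refine ⟨ord, e, he0, ⟨t, ?_⟩, fun f hf => ⟨val f / e, ?_, ?_⟩⟩
  · rw [hord, hwn t ht0, htv, Int.ediv_self (ne_of_gt heZ)]
    rfl
  · rw [hord, hwn f hf]
  · rw [hval f hf, ← hdvd f hf]

end Div

section Main

variable {K L : Type} [Field K] [Algebra ℂ K] [Field L] [Algebra ℂ L] [Algebra K L] [IsScalarTower ℂ K L]

/-- The prime divisor of `K` under a prime divisor of an algebraic extension. -/
theorem exists_under [Algebra.IsAlgebraic K L] {k : ℕ} (E : PrimeDivisorOver L k) : ∃ (D : PrimeDivisorOver K k) (e : ℕ), 0 < e ∧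
    ∀ f : K, f ≠ 0 → ∃ n : ℤ, D.ord f = n ∧ E.ord (algebraMap K L f) = ((e * n : ℤ) : WithTop ℤ) := by
  obtain ⟨t, ht⟩ := E.exists_uniformizer
  obtain ⟨w, e, he, hu, hw⟩ := exists_normalised (vcom K E.ord) (exists_neg E.ord ht)
  obtain ⟨s, hs, hp⟩ := exists_residue (K := K) E.ord E.ord_const E.residue_trdeg
  have heZ : (0 : ℤ) < e := by exact_mod_cast he
  have hnn : ∀ f : K, 0 ≤ E.ord (algebraMap K L f) → 0 ≤ w f := by
    intro f hf
    by_cases hf0 : f = 0
    · rw [hf0, w.map_zero]
      exact le_top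
    · obtain ⟨n, hn, hn'⟩ := hw f hf0
      rw [vcom_apply] at hn'
      rw [hn'] at hf
      rw [hn]
      have h1 : (0 : ℤ) ≤ e * n := by exact_mod_cast hf
      have h2 : (0 : ℤ) ≤ n := nonneg_of_mul_nonneg_right h1 heZ
      exact_mod_cast h2
  refine ⟨⟨w, fun c => hnn _ (vcom_const E.ord_const c), hu, s, fun i => hnn _ (hs i), fun p hp0 => ?_⟩, e, he, hw⟩
  have h1 := hp p hp0
  have h2 : MvPolynomial.aeval s p ≠ 0 := by
    intro h3
    rw [h3, map_zero, E.ord.map_zero] at h1
    exact WithTop.top_ne_zero h1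
  obtain ⟨n, hn, hn'⟩ := hw _ h2
  rw [vcom_apply, h1] at hn'
  rw [hn]
  have h3 : (0 : ℤ) = e * n := by exact_mod_cast hn'
  have h4 : n = 0 := by
    rcases mul_eq_zero.1 h3.symm with h5 | h5
    · omega
    · exact h5
  rw [h4]
  rfl

/-- The map of rational forms. -/
theorem exists_formMap (k : ℕ) : ∃ Φ : Form K k →+ Form L k, (∀ (c : K) ω, Φ (c • ω) = algebraMap K L c • Φ ω) ∧
    ∀ (c : K) a, Φ (Form.mk c a) = Form.mk (algebraMap K L c) fun i => algebraMap K L (a i) := by
  let D : Ω[K⁄ℂ] →ₗ[K] Ω[L⁄ℂ] := KaehlerDifferential.map ℂ ℂ K L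
  let _ : Module K (⋀[L]^k Ω[L⁄ℂ]) := Module.compHom _ (algebraMap K L)
  have hD : ∀ (c : K) (x : Ω[K⁄ℂ]), D (c • x) = algebraMap K L c • D x := by
    intro c x
    rw [map_smul]
    exact algebra_compatible_smul L c (D x)
  have hup : ∀ [DecidableEq (Fin k)] (v : Fin k → Ω[K⁄ℂ]) (i : Fin k) (t : Ω[K⁄ℂ]),
      (fun j => D (Function.update v i t j)) = Function.update (fun j => D (v j)) i (D t) := by
    intro _ v i t
    funext j
    by_cases hj : j = i
    · subst hj
      simp
    · simp [Function.update_of_ne hj]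
  let A : Ω[K⁄ℂ] [⋀^Fin k]→ₗ[K] (⋀[L]^k Ω[L⁄ℂ]) :=
    { toFun := fun v => exteriorPower.ιMulti L k fun i => D (v i)
      map_update_add' := by
        intro _ v i x y
        rw [hup, hup, hup, map_add, (exteriorPower.ιMulti L k).map_update_add]
      map_update_smul' := by
        intro _ v i c x
        rw [hup, hup, hD, (exteriorPower.ιMulti L k).map_update_smul]
        rfl
      map_eq_zero_of_eq' := by
        intro v i j h hij
        exact (exteriorPower.ιMulti L k).map_eq_zero_of_eq _ (by simp only [h]) hij }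
  let F : (⋀[K]^k Ω[K⁄ℂ]) →ₗ[K] (⋀[L]^k Ω[L⁄ℂ]) := exteriorPower.alternatingMapLinearEquiv A
  refine ⟨F.toAddMonoidHom, fun c ω => ?_, fun c a => ?_⟩
  · exact F.map_smul c ω
  · have h1 : F (c • exteriorPower.ιMulti K k fun i => KaehlerDifferential.D ℂ K (a i)) =
        algebraMap K L c • exteriorPower.ιMulti L k fun i => D (KaehlerDifferential.D ℂ K (a i)) := by
      rw [F.map_smul]
      change algebraMap K L c • F _ = _
      congr 1
      exact exteriorPower.alternatingMapLinearEquiv_apply_ιMulti A _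
    have h2 : ∀ x : K, D (KaehlerDifferential.D ℂ K x) = KaehlerDifferential.D ℂ L (algebraMap K L x) :=
      fun x => KaehlerDifferential.map_D ℂ ℂ K L x
    simp only [h2] at h1
    exact h1

omit [IsScalarTower ℂ K L] in
theorem formMap_regular {k : ℕ} {Φ : Form K k →+ Form L k}
    (hΦ : ∀ (c : K) a, Φ (Form.mk c a) = Form.mk (algebraMap K L c) fun i => algebraMap K L (a i)) {A : Set K} {B : Set L}
    (hAB : ∀ x ∈ A, algebraMap K L x ∈ B) {η : Form K k} (hη : η ∈ regularForms k A) : Φ η ∈ regularForms k B := by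
  unfold regularForms at hη ⊢
  induction hη using AddSubgroup.closure_induction with
  | mem x hx =>
    obtain ⟨c, a, hc, ha, rfl⟩ := hx
    rw [hΦ]
    exact AddSubgroup.subset_closure ⟨_, _, hAB c hc, fun i => hAB _ (ha i), rfl⟩
  | zero =>
    rw [map_zero]
    exact zero_mem _
  | add x y _ _ hx hy =>
    rw [map_add]
    exact add_mem hx hy
  | neg x _ hx =>
    rw [map_neg]
    exact neg_mem hx

theorem formMap_ne_zero [Algebra.IsAlgebraic K L] {k : ℕ} {z : Fin k → K} (hz : IsTranscendenceBasis ℂ z) {Φ : Form K k →+ Form L k}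
    (hsm : ∀ (c : K) ω, Φ (c • ω) = algebraMap K L c • Φ ω)
    (hΦ : ∀ (c : K) a, Φ (Form.mk c a) = Form.mk (algebraMap K L c) fun i => algebraMap K L (a i)) {ω : Form K k} (hω : ω ≠ 0) :
    Φ ω ≠ 0 := by
  obtain ⟨b, hb⟩ := Pool.Agent.H23.exists_basis_kaehler hz
  have hz' : IsTranscendenceBasis ℂ (algebraMap K L ∘ z) := hz.algebraMap_comp
  obtain ⟨b', hb'⟩ := Pool.Agent.H23.exists_basis_kaehler hz'
  have h1 : ω = Pool.Agent.H23.fc b (ω : ⋀[K]^k Ω[K⁄ℂ]) • (Form.mk 1 z : Form K k) := by
    have h2 := Pool.Agent.H23.eq_fc_smul b (ω : ⋀[K]^k Ω[K⁄ℂ])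
    have h3 : (Form.mk 1 z : Form K k) = exteriorPower.ιMulti K k (fun i => b i) := by
      change (1 : K) • exteriorPower.ιMulti K k (fun i => KaehlerDifferential.D ℂ K (z i)) = _
      rw [one_smul]
      simp only [hb]
    rw [h3]
    exact h2
  have h4 : Pool.Agent.H23.fc b (ω : ⋀[K]^k Ω[K⁄ℂ]) ≠ 0 := by
    intro h5
    rw [h5, zero_smul] at h1
    exact hω h1
  rw [h1, hsm, hΦ, map_one]
  intro h6
  rcases smul_eq_zero.1 h6 with h7 | h7
  · exact h4 ((map_eq_zero_iff _ (algebraMap K L).injective).1 h7)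
  · have h8 : Pool.Agent.H23.fc b' (exteriorPower.ιMulti L k (fun i => b' i)) = 1 := Pool.Agent.H23.fc_self b'
    have h9 : exteriorPower.ιMulti L k (fun i => b' i) = 0 := by
      have h10 : (Form.mk 1 (fun i => algebraMap K L (z i)) : Form L k) = exteriorPower.ιMulti L k (fun i => b' i) := by
        change (1 : L) • exteriorPower.ιMulti L k (fun i => KaehlerDifferential.D ℂ L (algebraMap K L (z i))) = _
        rw [one_smul]
        simp only [hb', Function.comp_apply]
      rw [← h10]
      exact h7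
    rw [h9, map_zero] at h8
    exact zero_ne_one h8

end Main

end Pool.Agent.H7.Gtu

end
end

section

/-!
# Qup Log: logarithmic forms and algebraic extensions of function fields

`isLGT_of_algebraic`: let `L` be an algebraic extension of the function field `K`, and let `B` and `B'` be sets of prime divisors over `K` and `L`, such
that a prime divisor over `L` is in `B'` if the prime divisor of `K` under it is in `B`.  If `K` is of log general type with respect to `B`, then `L` is of
log general type with respect to `B'`.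

`form_ramified`: a regular `k`-form of `K` along a prime divisor `D` is, along a prime divisor `E` of `L` above `D` with the ramification index `e`, of the form
`T ^ (e - 1) η'`, where `T` is a uniformizer along `E` and `η'` is regular along `E`.
-/

set_option autoImplicit false

open Pool.Agent.H23.Fano (Form Diff ExtPow regularForms PrimeDivisorOver)
open Pool.Agent.H17LG.Variety (PoleAtMost IsLogGeneralType)

noncomputable section

namespace Pool.Agent.H7.Qup

open Pool.Agent.H7.Gtu

section Res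

variable {K : Type} [Field K] [Algebra ℂ K] {k : ℕ}

theorem ord_nonneg_aeval (D : PrimeDivisorOver K k) {n : ℕ} {a : Fin n → K} (ha : ∀ i, 0 ≤ D.ord (a i)) (p : MvPolynomial (Fin n) ℂ) :
    0 ≤ D.ord (MvPolynomial.aeval a p) := by
  have h1 : ((MvPolynomial.aeval (fun i => (⟨a i, ha i⟩ : vring D.ord D.ord_const)) p : vring D.ord D.ord_const) : K) =
      MvPolynomial.aeval a p := by
    have h2 := MvPolynomial.comp_aeval (fun i => (⟨a i, ha i⟩ : vring D.ord D.ord_const)) (vring D.ord D.ord_const).val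
    exact DFunLike.congr_fun h2 p
  rw [← h1]
  exact (MvPolynomial.aeval (fun i => (⟨a i, ha i⟩ : vring D.ord D.ord_const)) p).2

/-- The residue classes of `k` elements of the local ring of a prime divisor are algebraically dependent. -/
theorem exists_dep {z : Fin k → K} (hz : IsTranscendenceBasis ℂ z) (D : PrimeDivisorOver K k) {a : Fin k → K} (ha : ∀ i, 0 ≤ D.ord (a i)) :
    ∃ p : MvPolynomial (Fin k) ℂ, p ≠ 0 ∧ 0 < D.ord (MvPolynomial.aeval a p) := by
  by_contra hcon
  push Not at hcon
  have h0 : ∀ p : MvPolynomial (Fin k) ℂ, p ≠ 0 → D.ord (MvPolynomial.aeval a p) = 0 := fun p hp =>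
    le_antisymm (hcon p hp) (ord_nonneg_aeval D ha p)
  have hind : AlgebraicIndependent ℂ a := by
    rw [algebraicIndependent_iff]
    intro p hp
    by_contra hne
    have h1 := h0 p hne
    rw [hp, D.ord.map_zero] at h1
    exact WithTop.top_ne_zero h1
  have h2 : Algebra.trdeg ℂ K ≤ Cardinal.mk (Fin k) := by
    have h3 := hz.lift_cardinalMk_eq_trdeg
    simp only [Cardinal.lift_id] at h3
    exact h3.symm.le
  have h3 : IsTranscendenceBasis ℂ a := hind.isTranscendenceBasis_of_trdeg_le_of_finite h2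
  have _ : Algebra.IsAlgebraic (IntermediateField.adjoin ℂ (Set.range a)) K := h3.isAlgebraic_field
  obtain ⟨t, ht⟩ := D.exists_uniformizer
  obtain ⟨x, hx⟩ := exists_neg (K := IntermediateField.adjoin ℂ (Set.range a)) D.ord ht
  obtain ⟨r, s, hrs⟩ := (IntermediateField.mem_adjoin_range_iff ℂ a (x : K)).1 x.2
  have hx0 : (x : K) ≠ 0 := by
    intro h
    have h4 : D.ord (algebraMap (IntermediateField.adjoin ℂ (Set.range a)) K x) = ⊤ := by
      change D.ord (x : K) = ⊤
      rw [h, D.ord.map_zero]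
    rw [h4] at hx
    exact absurd hx (not_lt.2 le_top)
  have hr : r ≠ 0 := by
    rintro rfl
    rw [map_zero, zero_div] at hrs
    exact hx0 hrs
  have hs : s ≠ 0 := by
    rintro rfl
    rw [map_zero, div_zero] at hrs
    exact hx0 hrs
  have hs0 : MvPolynomial.aeval a s ≠ 0 := fun h => hs ((algebraicIndependent_iff.1 hind) s h)
  have h5 : (x : K) * MvPolynomial.aeval a s = MvPolynomial.aeval a r := by
    rw [hrs, div_mul_cancel₀ _ hs0]
  have h6 : D.ord (x : K) = 0 := by
    have h7 := congrArg D.ord h5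
    rw [D.ord.map_mul, h0 s hs, h0 r hr, add_zero] at h7
    exact h7
  have h8 : D.ord (x : K) < 0 := hx
  rw [h6] at h8
  exact lt_irrefl _ h8

/-- A polynomial relation modulo the maximal ideal with a derivative which is a unit. -/
theorem exists_rel {z : Fin k → K} (hz : IsTranscendenceBasis ℂ z) (D : PrimeDivisorOver K k) {a : Fin k → K} (ha : ∀ i, 0 ≤ D.ord (a i)) :
    ∃ (p : MvPolynomial (Fin k) ℂ) (i : Fin k), 0 < D.ord (MvPolynomial.aeval a p) ∧
      D.ord (MvPolynomial.aeval a (MvPolynomial.pderiv i p)) = 0 := by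
  classical
  have hex : ∃ n : ℕ, ∃ p : MvPolynomial (Fin k) ℂ, p.totalDegree = n ∧ p ≠ 0 ∧ 0 < D.ord (MvPolynomial.aeval a p) := by
    obtain ⟨p, hp, hp'⟩ := exists_dep hz D ha
    exact ⟨_, p, rfl, hp, hp'⟩
  obtain ⟨p, hpn, hp0, hp⟩ := Nat.find_spec hex
  have hmin : ∀ q : MvPolynomial (Fin k) ℂ, q.totalDegree < Nat.find hex → q ≠ 0 → ¬ 0 < D.ord (MvPolynomial.aeval a q) :=
    fun q hq hq0 hq1 => Nat.find_min hex hq ⟨q, rfl, hq0, hq1⟩
  have hpd : ∃ i, MvPolynomial.pderiv i p ≠ 0 := by
    by_contra hcon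
    push Not at hcon
    have h1 := Pool.Agent.H94.eq_C_of_pderiv_eq_zero p hcon
    set c := MvPolynomial.coeff 0 p with hc
    have hc0 : c ≠ 0 := by
      intro h
      rw [h, MvPolynomial.C_0] at h1
      exact hp0 h1
    have h2 : D.ord (MvPolynomial.aeval a p) + D.ord (algebraMap ℂ K c⁻¹) = 0 := by
      rw [h1, MvPolynomial.aeval_C, ← D.ord.map_mul, ← map_mul, mul_inv_cancel₀ hc0, map_one, D.ord.map_one]
    have h3 : 0 < D.ord (MvPolynomial.aeval a p) + D.ord (algebraMap ℂ K c⁻¹) := add_pos_of_pos_of_nonneg hp (D.ord_const _)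
    rw [h2] at h3
    exact lt_irrefl _ h3
  obtain ⟨i, hi⟩ := hpd
  refine ⟨p, i, hp, le_antisymm (not_lt.1 (hmin _ ?_ hi)) (ord_nonneg_aeval D ha _)⟩
  rw [← hpn]
  exact Pool.Agent.H94.totalDegree_pderiv_lt p i hi

/-- The chain rule. -/
theorem D_aeval {n : ℕ} (a : Fin n → K) (p : MvPolynomial (Fin n) ℂ) : KaehlerDifferential.D ℂ K (MvPolynomial.aeval a p) =
    ∑ i, MvPolynomial.aeval a (MvPolynomial.pderiv i p) • KaehlerDifferential.D ℂ K (a i) := by
  classical
  induction p using MvPolynomial.induction_on with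
  | C c => simp
  | add p q hp hq =>
    simp only [map_add, hp, hq, add_smul, Finset.sum_add_distrib]
  | mul_X p i hp =>
    have h1 : ∀ j, MvPolynomial.aeval a (MvPolynomial.pderiv j (p * MvPolynomial.X i)) • KaehlerDifferential.D ℂ K (a j) =
        a i • (MvPolynomial.aeval a (MvPolynomial.pderiv j p) • KaehlerDifferential.D ℂ K (a j)) +
          (if i = j then MvPolynomial.aeval a p • KaehlerDifferential.D ℂ K (a j) else 0) := by
      intro j
      rw [MvPolynomial.pderiv_mul, map_add, map_mul, map_mul, MvPolynomial.aeval_X, MvPolynomial.pderiv_X, add_smul, smul_smul,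
        mul_comm (MvPolynomial.aeval a (MvPolynomial.pderiv j p)) (a i)]
      congr 1
      by_cases hij : i = j
      · subst hij
        simp
      · rw [if_neg hij, Pi.single_eq_of_ne hij, map_zero, mul_zero, zero_smul]
    rw [Finset.sum_congr rfl fun j _ => h1 j, Finset.sum_add_distrib, ← Finset.smul_sum, ← hp, Finset.sum_ite_eq, if_pos (Finset.mem_univ i),
      map_mul, MvPolynomial.aeval_X, Derivation.leibniz]
    abel

end Res

section Ram

variable {L : Type} [Field L] [Algebra ℂ L] {k : ℕ}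

/-- The wedge product of the differentials of `a`. -/
def wd (a : Fin k → L) : ⋀[L]^k Ω[L⁄ℂ] := exteriorPower.ιMulti L k fun i => KaehlerDifferential.D ℂ L (a i)

theorem D_update (a : Fin k → L) (i : Fin k) (b : L) : (fun j => KaehlerDifferential.D ℂ L (Function.update a i b j)) =
    Function.update (fun j => KaehlerDifferential.D ℂ L (a j)) i (KaehlerDifferential.D ℂ L b) := by
  funext j
  by_cases hj : j = i
  · subst hj
    simp
  · simp [Function.update_of_ne hj]

theorem wd_rel (a : Fin k → L) (p : MvPolynomial (Fin k) ℂ) (i : Fin k) : wd (Function.update a i (MvPolynomial.aeval a p)) =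
    MvPolynomial.aeval a (MvPolynomial.pderiv i p) • wd a := by
  classical
  unfold wd
  rw [D_update, D_aeval, (exteriorPower.ιMulti L k).map_update_sum, Finset.sum_eq_single i]
  · rw [(exteriorPower.ιMulti L k).map_update_smul, Function.update_eq_self]
  · intro j _ hj
    rw [(exteriorPower.ιMulti L k).map_update_smul, (exteriorPower.ιMulti L k).map_update_self _ (Ne.symm hj), smul_zero]
  · intro h
    exact absurd (Finset.mem_univ i) h

theorem wd_pow (a : Fin k → L) (i : Fin k) (T w : L) (n : ℕ) : wd (Function.update a i (T ^ (n + 1) * w)) =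
    T ^ (n + 1) • wd (Function.update a i w) + ((n + 1 : ℕ) * T ^ n * w) • wd (Function.update a i T) := by
  unfold wd
  rw [D_update, D_update, D_update, Derivation.leibniz, Derivation.leibniz_pow, (exteriorPower.ιMulti L k).map_update_add,
    (exteriorPower.ιMulti L k).map_update_smul, (exteriorPower.ιMulti L k).map_update_smul, Nat.add_sub_cancel]
  congr 1
  rw [← Nat.cast_smul_eq_nsmul L, (exteriorPower.ιMulti L k).map_update_smul, (exteriorPower.ιMulti L k).map_update_smul, smul_smul, smul_smul]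
  congr 1
  ring

end Ram

section Main

variable {K L : Type} [Field K] [Algebra ℂ K] [Field L] [Algebra ℂ L] [Algebra K L] {k : ℕ}

/-- The prime divisor `E` of `L` lies over the prime divisor `D` of `K`, with the ramification index `e`. -/
def Over (D : PrimeDivisorOver K k) (E : PrimeDivisorOver L k) (e : ℕ) : Prop :=
  0 < e ∧ ∀ f : K, f ≠ 0 → ∃ n : ℤ, D.ord f = n ∧ E.ord (algebraMap K L f) = ((e * n : ℤ) : WithTop ℤ)

theorem Over.nonneg {D : PrimeDivisorOver K k} {E : PrimeDivisorOver L k} {e : ℕ} (h : Over D E e) {x : K} (hx : 0 ≤ D.ord x) :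
    0 ≤ E.ord (algebraMap K L x) := by
  by_cases hx0 : x = 0
  · rw [hx0, map_zero, E.ord.map_zero]
    exact le_top
  · obtain ⟨n, hn, hn'⟩ := h.2 x hx0
    rw [hn']
    rw [hn] at hx
    have h1 : (0 : ℤ) ≤ n := by exact_mod_cast hx
    have h2 : (0 : ℤ) ≤ e * n := mul_nonneg (by positivity) h1
    exact_mod_cast h2

theorem Over.eq_zero {D : PrimeDivisorOver K k} {E : PrimeDivisorOver L k} {e : ℕ} (h : Over D E e) {x : K} (hx : D.ord x = 0) :
    E.ord (algebraMap K L x) = 0 := by
  have hx0 : x ≠ 0 := by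
    rintro rfl
    rw [D.ord.map_zero] at hx
    exact WithTop.top_ne_zero hx
  obtain ⟨n, hn, hn'⟩ := h.2 x hx0
  rw [hn] at hx
  have h1 : n = 0 := by exact_mod_cast hx
  rw [hn', h1, mul_zero]
  rfl

theorem Over.pos {D : PrimeDivisorOver K k} {E : PrimeDivisorOver L k} {e : ℕ} (h : Over D E e) {x : K} (hx : 0 < D.ord x) (hx0 : x ≠ 0) :
    ∃ n : ℕ, E.ord (algebraMap K L x) = ((e + n : ℕ) : WithTop ℤ) := by
  obtain ⟨n, hn, hn'⟩ := h.2 x hx0
  rw [hn] at hx
  have h1 : (0 : ℤ) < n := by exact_mod_cast hx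
  obtain ⟨m, rfl⟩ : ∃ m : ℕ, n = m + 1 := ⟨(n - 1).toNat, by omega⟩
  refine ⟨e * m, ?_⟩
  rw [hn']
  have h2 : ((e : ℤ) * (m + 1)) = ((e + e * m : ℕ) : ℤ) := by
    push_cast
    ring
  rw [h2]
  rfl

theorem ord_pow {E : PrimeDivisorOver L k} {T : L} (hT : E.ord T = 1) (n : ℕ) : E.ord (T ^ n) = (n : WithTop ℤ) := by
  rw [E.ord.map_pow, hT, nsmul_one]

theorem cast_nonneg' (n : ℕ) : (0 : WithTop ℤ) ≤ (n : WithTop ℤ) := by
  exact_mod_cast Nat.zero_le n

theorem ord_nat (E : PrimeDivisorOver L k) (n : ℕ) : 0 ≤ E.ord (n : L) := by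
  have h1 := E.ord_const (n : ℂ)
  rwa [map_natCast] at h1

/-- **Regular forms along a ramified divisor.** -/
theorem form_ramified {z : Fin k → K} (hz : IsTranscendenceBasis ℂ z) [IsScalarTower ℂ K L] {D : PrimeDivisorOver K k} {E : PrimeDivisorOver L k}
    {e : ℕ} (h : Over D E e) {T : L} (hT : E.ord T = 1) {Φ : Form K k →+ Form L k}
    (hΦ : ∀ (c : K) a, Φ (Form.mk c a) = Form.mk (algebraMap K L c) fun i => algebraMap K L (a i)) {η : Form K k}
    (hη : η ∈ regularForms k D.localRing) : ∃ η' ∈ regularForms k E.localRing, Φ η = T ^ (e - 1) • η' := by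
  classical
  have he := h.1
  unfold regularForms at hη ⊢
  induction hη using AddSubgroup.closure_induction with
  | mem x hx =>
    obtain ⟨c, a, hc, ha, rfl⟩ := hx
    obtain ⟨p, i, hp, hpi⟩ := exists_rel hz D ha
    set a' : Fin k → L := fun j => algebraMap K L (a j) with ha'
    have hval : ∀ q : MvPolynomial (Fin k) ℂ, MvPolynomial.aeval a' q = algebraMap K L (MvPolynomial.aeval a q) :=
      fun q => MvPolynomial.aeval_algebraMap_apply (B := L) a q
    have hrel := wd_rel a' p i
    set u := MvPolynomial.aeval a' (MvPolynomial.pderiv i p) with hu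
    have hu0 : E.ord u = 0 := by
      rw [hu, hval]
      exact h.eq_zero hpi
    have hune : u ≠ 0 := by
      intro h1
      rw [h1, E.ord.map_zero] at hu0
      exact WithTop.top_ne_zero hu0
    have hui : E.ord u⁻¹ = 0 := by
      have h1 : E.ord u + E.ord u⁻¹ = 0 := by rw [← E.ord.map_mul, mul_inv_cancel₀ hune, E.ord.map_one]
      rwa [hu0, zero_add] at h1
    have hw : wd a' = u⁻¹ • wd (Function.update a' i (MvPolynomial.aeval a' p)) := by
      rw [hrel, smul_smul, inv_mul_cancel₀ hune, one_smul]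
    by_cases hb : MvPolynomial.aeval a' p = 0
    · refine ⟨0, zero_mem _, ?_⟩
      rw [hΦ, smul_zero]
      have h1 : wd a' = 0 := by
        rw [hw, hb]
        have h2 : wd (Function.update a' i (0 : L)) = 0 := by
          unfold wd
          rw [D_update, map_zero]
          exact (exteriorPower.ιMulti L k).map_update_zero _ _
        rw [h2, smul_zero]
      change (algebraMap K L c) • wd a' = 0
      rw [h1, smul_zero]
    · have hb' : MvPolynomial.aeval a p ≠ 0 := by
        intro h1
        apply hb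
        rw [hval, h1, map_zero]
      obtain ⟨n, hn⟩ := h.pos hp hb'
      rw [← hval] at hn
      set b := MvPolynomial.aeval a' p with hbdef
      have hT0 : T ≠ 0 := by
        rintro rfl
        rw [E.ord.map_zero] at hT
        exact absurd hT (by simp)
      set w := b / T ^ (e + n) with hwdef
      have hbw : b = T ^ (e + n - 1 + 1) * w := by
        rw [hwdef, Nat.sub_add_cancel (by omega), mul_div_cancel₀ _ (pow_ne_zero _ hT0)]
      have hw0 : E.ord w = 0 := by
        have h1 := congrArg E.ord hbw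
        rw [E.ord.map_mul, ord_pow hT, hn, Nat.sub_add_cancel (by omega)] at h1
        have h2 : ((e + n : ℕ) : WithTop ℤ) ≠ ⊤ := WithTop.natCast_ne_top _
        have h3 : ((e + n : ℕ) : WithTop ℤ) + 0 = ((e + n : ℕ) : WithTop ℤ) + E.ord w := by rw [add_zero]; exact h1
        exact ((WithTop.add_left_inj h2).1 h3).symm
      have hc' : 0 ≤ E.ord (algebraMap K L c) := h.nonneg hc
      have ha'' : ∀ j, 0 ≤ E.ord (a' j) := fun j => h.nonneg (ha j)
      have hupd : ∀ x : L, 0 ≤ E.ord x → ∀ j, 0 ≤ E.ord (Function.update a' i x j) := by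
        intro x hx j
        by_cases hj : j = i
        · subst hj
          simpa using hx
        · rw [Function.update_of_ne hj]
          exact ha'' j
      have hTn : 0 ≤ E.ord T := by
        rw [hT]
        exact zero_le_one
      refine ⟨Form.mk (algebraMap K L c * u⁻¹ * T ^ (n + 1)) (Function.update a' i w) +
        Form.mk (algebraMap K L c * u⁻¹ * (((e + n - 1 + 1 : ℕ) : L) * T ^ n * w)) (Function.update a' i T), ?_, ?_⟩
      · refine add_mem (AddSubgroup.subset_closure ⟨_, _, ?_, hupd w hw0.ge, rfl⟩) (AddSubgroup.subset_closure ⟨_, _, ?_, hupd T hTn, rfl⟩)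
        · change 0 ≤ E.ord _
          rw [E.ord.map_mul, E.ord.map_mul, hui, ord_pow hT, add_zero]
          exact add_nonneg hc' (cast_nonneg' _)
        · change 0 ≤ E.ord _
          rw [E.ord.map_mul, E.ord.map_mul, E.ord.map_mul, E.ord.map_mul, hui, hw0, ord_pow hT, add_zero, add_zero]
          exact add_nonneg hc' (add_nonneg (ord_nat E _) (cast_nonneg' _))
      · rw [hΦ]
        change (algebraMap K L c) • wd a' = T ^ (e - 1) • ((algebraMap K L c * u⁻¹ * T ^ (n + 1)) • wd (Function.update a' i w) +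
          (algebraMap K L c * u⁻¹ * (((e + n - 1 + 1 : ℕ) : L) * T ^ n * w)) • wd (Function.update a' i T))
        rw [hw, hbw, wd_pow]
        simp only [smul_add, smul_smul]
        obtain ⟨e', rfl⟩ : ∃ e', e = e' + 1 := ⟨e - 1, by omega⟩
        have h4 : e' + 1 + n - 1 = e' + n := by omega
        rw [h4, Nat.add_sub_cancel]
        congr 2
        · ring
        · ring
  | zero =>
    exact ⟨0, zero_mem _, by rw [map_zero, smul_zero]⟩
  | add x y _ _ hx hy =>
    obtain ⟨x', hx', hx⟩ := hx
    obtain ⟨y', hy', hy⟩ := hy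
    exact ⟨x' + y', add_mem hx' hy', by rw [map_add, hx, hy, smul_add]⟩
  | neg x _ hx =>
    obtain ⟨x', hx', hx⟩ := hx
    exact ⟨-x', neg_mem hx', by rw [map_neg, hx, smul_neg]⟩

/-- **Log general type goes up to algebraic extensions.** -/
theorem isLGT_of_algebraic [IsScalarTower ℂ K L] [Algebra.IsAlgebraic K L] (hK : ∃ z : Fin k → K, IsTranscendenceBasis ℂ z)
    {B : PrimeDivisorOver K k → Prop} {B' : PrimeDivisorOver L k → Prop}
    (hB : ∀ (D : PrimeDivisorOver K k) (E : PrimeDivisorOver L k) (e : ℕ), Over D E e → B D → B' E)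
    (h : IsLogGeneralType B) : IsLogGeneralType B' := by
  obtain ⟨z, hz⟩ := hK
  obtain ⟨Φ, hsm, hmk⟩ := exists_formMap (K := K) (L := L) k
  obtain ⟨m, hm, ω, hω, r, f, hf0, hf, halg⟩ := h
  refine ⟨m, hm, Φ ω, formMap_ne_zero hz hsm hmk hω, r, fun i => algebraMap K L (f i), ?_, ?_, ?_⟩
  · intro h0
    exact hf0 ((map_eq_zero_iff _ (algebraMap K L).injective).1 h0)
  · intro i E
    obtain ⟨D, e, he, hD⟩ := exists_under (K := K) E
    have hDE : Over D E e := ⟨he, hD⟩
    have h0 : ¬ B D → PoleAtMost 0 E m (algebraMap K L (f i)) (Φ ω) := by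
      intro hBD
      obtain ⟨g, η, hη, hωg, hord⟩ := (hf i D).1 hBD
      refine ⟨algebraMap K L g, Φ η, formMap_regular hmk (fun x hx => hDE.nonneg hx) hη, ?_, ?_⟩
      · rw [hωg, hsm]
      · have h1 : algebraMap K L (f i) * algebraMap K L g ^ m = algebraMap K L (f i * g ^ m) := by
          rw [map_mul, map_pow]
        rw [h1]
        have h2 : (0 : WithTop ℤ) ≤ D.ord (f i * g ^ m) := by simpa using hord
        simpa using hDE.nonneg h2
    refine ⟨fun hBE => h0 fun hBD => hBE (hB D E e hDE hBD), fun hBE => ?_⟩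
    by_cases hBD : B D
    · obtain ⟨g, η, hη, hωg, hord⟩ := (hf i D).2 hBD
      obtain ⟨T, hT⟩ := E.exists_uniformizer
      obtain ⟨η', hη', hη1⟩ := form_ramified hz hDE hT hmk hη
      refine ⟨algebraMap K L g * T ^ (e - 1), η', hη', ?_, ?_⟩
      · rw [hωg, hsm, hη1, smul_smul]
      · have h1 : algebraMap K L (f i) * (algebraMap K L g * T ^ (e - 1)) ^ m = algebraMap K L (f i * g ^ m) * T ^ ((e - 1) * m) := by
          rw [map_mul, map_pow, mul_pow, pow_mul]
          ring
        rw [h1, E.ord.map_mul, ord_pow hT]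
        by_cases hx0 : f i * g ^ m = 0
        · rw [hx0, map_zero, E.ord.map_zero, top_add, top_add]
          exact le_top
        · obtain ⟨n, hn, hn'⟩ := hD _ hx0
          rw [hn] at hord
          rw [hn']
          have h2 : (0 : ℤ) ≤ n + m := by exact_mod_cast hord
          have h3 : (0 : ℤ) ≤ e * n + ((e - 1) * m : ℕ) + m := by
            obtain ⟨e', rfl⟩ : ∃ e', e = e' + 1 := ⟨e - 1, by omega⟩
            have h4 : ((e' + 1 : ℕ) : ℤ) * n + (((e' + 1 - 1) * m : ℕ) : ℤ) + m = (e' + 1) * (n + m) := by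
              rw [Nat.add_sub_cancel]
              push_cast
              ring
            rw [h4]
            exact mul_nonneg (by positivity) h2
          have h5 : (((e * n : ℤ) : WithTop ℤ) + (((e - 1) * m : ℕ) : WithTop ℤ) + (m : WithTop ℤ)) =
              ((e * n + ((e - 1) * m : ℕ) + m : ℤ) : WithTop ℤ) := rfl
          rw [h5]
          exact_mod_cast h3
    · obtain ⟨g, η, hη, hωg, hord⟩ := h0 hBD
      refine ⟨g, η, hη, hωg, ?_⟩
      exact le_trans hord (add_le_add le_rfl (by exact_mod_cast Nat.zero_le m))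
  · have hsub : ∀ x : K, x ∈ IntermediateField.adjoin ℂ (Set.range fun i => f i / f 0) →
        algebraMap K L x ∈ IntermediateField.adjoin ℂ (Set.range fun i => algebraMap K L (f i) / algebraMap K L (f 0)) := by
      intro x hx
      have h1 : algebraMap K L x ∈ (IntermediateField.adjoin ℂ (Set.range fun i => f i / f 0)).map (IsScalarTower.toAlgHom ℂ K L) :=
        ⟨x, hx, rfl⟩
      rw [IntermediateField.adjoin_map] at h1
      refine IntermediateField.adjoin.mono _ _ _ ?_ h1
      rintro _ ⟨_, ⟨i, rfl⟩, rfl⟩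
      exact ⟨i, (map_div₀ (algebraMap K L) (f i) (f 0)).symm⟩
    let φ : IntermediateField.adjoin ℂ (Set.range fun i => f i / f 0) →+*
        IntermediateField.adjoin ℂ (Set.range fun i => algebraMap K L (f i) / algebraMap K L (f 0)) :=
      { toFun := fun x => ⟨algebraMap K L x, hsub x x.2⟩
        map_one' := Subtype.ext (map_one (algebraMap K L))
        map_mul' := fun x y => Subtype.ext (map_mul (algebraMap K L) _ _)
        map_zero' := Subtype.ext (map_zero (algebraMap K L))
        map_add' := fun x y => Subtype.ext (map_add (algebraMap K L) _ _) }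
    have hL : Algebra.IsAlgebraic (IntermediateField.adjoin ℂ (Set.range fun i => f i / f 0)) L :=
      Algebra.IsAlgebraic.trans _ K _
    refine ⟨fun y => ?_⟩
    exact (hL.isAlgebraic y).ringHom_of_comp_eq φ (RingHom.id L) φ.injective (by
      ext x
      rfl)

end Main

end Pool.Agent.H7.Qup

end
end
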