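import Pool.Agent.H18.GGT.M03
import Pool.Agent.H18.GGT.M23

/-! The parts of this file: H14.PP.CurveBasic, H14.PP.ChartBasic, H14.PP.ChartFs, H62.EF.Defs, H62.EF.PrA, H62.EF.PrLip. -/

section

/-!
# BPm CurveBasic: rules for `rho`, `fs`, `CurveAt`

* `rho_smul`: `‖Q (c x)‖ = ‖c‖^D ‖Q x‖`, `‖c x‖^D = ‖c‖^D ‖x‖^D`.
* `continuousAt_rho`: quotient of continuous functions, `x ≠ 0`.
* `continuousAt_fs`: `fs = wd / ‖x‖^2`, `wd_cont`.
* `fs_eq`: `wd x v = ‖x‖ ‖v - (⟪x,v⟫/‖x‖^2) x‖` for `x ≠ 0`, since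
  `‖v - a x‖^2 = ‖v‖^2 - ‖⟪x,v⟫‖^2/‖x‖^2`, `a = ⟪x,v⟫/‖x‖^2` (`wd_sq`).
* `fs_le`: `fs x v ≤ ‖v‖/‖x‖` (`wd_le`).
* `exists_rho_bound`: `rho` is invariant under scaling and continuous on the compact set
  `{x ∈ X | ‖x‖ = 1}` (`insert 0 X` is closed).
* `IsEq.curve_discrete`: `Q ∘ F` is analytic at `z₀`
  (`AnalyticAt.eventually_eq_zero_or_eventually_ne_zero`).
-/

open Topology Filter Metric

namespace Pool.Agent.H14.PP

open Pool.Agent.H36.BP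

variable {N : ℕ} {W : Type*} [NormedAddCommGroup W] [InnerProductSpace ℂ W]
  {X K T : Set (EN N)} {Q : EN N → W} {D : ℕ}

theorem IsCone.ne_zero (hX : IsCone X) {x : EN N} (hx : x ∈ X) : x ≠ 0 := by
  rintro rfl
  exact hX.zero_notMem hx

theorem CurveAt.mem {F : ℂ → EN N} {z₀ : ℂ} (hF : CurveAt X F z₀) : F z₀ ∈ X :=
  hF.2.self_of_nhds

private theorem CurveBasic_wd {x : EN N} (hx : x ≠ 0) (v : EN N) :
    wd x v = ‖x‖ * ‖v - (inner ℂ x v / (‖x‖ : ℂ) ^ 2) • x‖ := by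
  have hn : ‖x‖ ≠ 0 := norm_ne_zero_iff.2 hx
  have hnc : (‖x‖ : ℂ) ≠ 0 := by exact_mod_cast hn
  set a : ℂ := inner ℂ x v / (‖x‖ : ℂ) ^ 2 with ha
  have horth : inner ℂ (v - a • x) (a • x) = (0 : ℂ) := by
    rw [inner_smul_right, ← inner_conj_symm, inner_sub_right, inner_smul_right,
      inner_self_eq_norm_sq_to_K]
    have e1 : inner ℂ x v - a * ((‖x‖ : ℂ)) ^ 2 = 0 := by
      rw [ha, div_mul_cancel₀ _ (pow_ne_zero 2 hnc), sub_self]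
    have e2 : (inner ℂ x v - a * ((RCLike.ofReal ‖x‖ : ℂ)) ^ 2) = 0 := e1
    rw [e2, map_zero, mul_zero]
  have hpyth := norm_add_sq_eq_norm_sq_add_norm_sq_of_inner_eq_zero (v - a • x) (a • x) horth
  rw [sub_add_cancel] at hpyth
  have hax : ‖a • x‖ * ‖x‖ = ‖inner ℂ x v‖ := by
    rw [norm_smul, ha, norm_div, norm_pow, Complex.norm_real, norm_norm]
    field_simp
  have hsq : wd x v ^ 2 = (‖x‖ * ‖v - a • x‖) ^ 2 := by
    rw [wd_sq, ← hax]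
    have e3 : ‖v‖ ^ 2 = ‖v - a • x‖ ^ 2 + ‖a • x‖ ^ 2 := by
      rw [pow_two, pow_two, pow_two]
      exact hpyth
    rw [e3]
    ring
  exact (pow_left_inj₀ (wd_nonneg x v) (by positivity) two_ne_zero).1 hsq

theorem fs_eq {x : EN N} (hx : x ≠ 0) (v : EN N) :
    fs x v = ‖v - (inner ℂ x v / (‖x‖ : ℂ) ^ 2) • x‖ / ‖x‖ := by
  have hn : ‖x‖ ≠ 0 := norm_ne_zero_iff.2 hx
  unfold fs
  rw [CurveBasic_wd hx v, pow_two ‖x‖, mul_div_mul_left _ _ hn]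

theorem fs_le {x : EN N} (hx : x ≠ 0) (v : EN N) : fs x v ≤ ‖v‖ / ‖x‖ := by
  have hn : ‖x‖ ≠ 0 := norm_ne_zero_iff.2 hx
  have h1 : ‖v‖ / ‖x‖ = ‖x‖ * ‖v‖ / ‖x‖ ^ 2 := by
    rw [pow_two, mul_div_mul_left _ _ hn]
  rw [h1]
  unfold fs
  exact div_le_div_of_nonneg_right (wd_le x v) (sq_nonneg _)

end Pool.Agent.H14.PP

end

section

/-!
# BPm ChartBasic: charts, basic facts

* `Chart.fderiv_q_smul`: `q (c • y) = q y` for `y` near `x ∈ U` (`U` open); differentiate: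
  `Dq(c x) (c v) = Dq(x) v`; and `Dq(x) x = 0` (differentiate `q ((1 + h) • x) = q x` at `h = 0`).
* `Chart.fderiv_sigma`: derivative of `q ∘ σ = id` on the bidisc: `Dq(σ p) (Dσ(p) w) = w`.
* `Chart.tan`: the curve `z ↦ σ (p + z • w)`; if `σ p ∈ K` it stays in `K` (`rel_open`).
* `Chart.curve`: `q ∘ F` is analytic at `z₀` (composition), its derivative is given by the chain
  rule. For `z` near `z₀`, `F z ∈ X ∩ U`, so `q (F z) ∈ ball 0 2` and `F z = c z • σ (q (F z))` with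
  `c z ≠ 0` (`surj`). With `y = σ (q (F z₀)) ≠ 0`: `c z = ⟪y, F z⟫ / ⟪y, σ (q (F z))⟫` near `z₀`:
  analytic.
* `Chart.sigma_mem_iff`: for `x ∈ X ∩ U`, `x = c • σ (q x)`, so `x ∈ K ↔ σ (q x) ∈ K`.
-/

open Topology Filter Metric

namespace Pool.Agent.H14.PP

open Pool.Agent.H36.BP

variable {N : ℕ} {X K T : Set (EN N)}

theorem Chart.sigma_ne_zero (hX : IsCone X) (χ : Chart X) {p : ℂ × ℂ}
    (hp : p ∈ ball (0 : ℂ × ℂ) 2) : χ.σ p ≠ 0 :=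
  hX.ne_zero (χ.σ_mem p hp).1

private theorem ChartBasic_q_self (χ : Chart X) {x : EN N} (hx : x ∈ χ.U) :
    fderiv ℂ χ.q x x = 0 := by
  have hq : HasFDerivAt χ.q (fderiv ℂ χ.q x) x := (χ.q_an x hx).differentiableAt.hasFDerivAt
  have hl : HasDerivAt (fun h : ℂ => (1 + h) • x) x 0 := by
    have h1 : HasDerivAt (fun h : ℂ => 1 + h) 1 0 := by
      simpa using (hasDerivAt_id (0 : ℂ)).const_add (1 : ℂ)
    simpa using h1.smul_const x
  have hx0 : (fun h : ℂ => (1 + h) • x) 0 = x := by simp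
  have hq' : HasFDerivAt χ.q (fderiv ℂ χ.q x) ((fun h : ℂ => (1 + h) • x) 0) := by
    rw [hx0]; exact hq
  have h2 : HasDerivAt (χ.q ∘ fun h : ℂ => (1 + h) • x) (fderiv ℂ χ.q x x) 0 :=
    hq'.comp_hasDerivAt 0 hl
  have h3 : HasDerivAt (χ.q ∘ fun h : ℂ => (1 + h) • x) 0 0 := by
    apply (hasDerivAt_const (0 : ℂ) (χ.q x)).congr_of_eventuallyEq
    have h4 : ∀ᶠ h : ℂ in 𝓝 0, 1 + h ≠ 0 := by
      apply ContinuousAt.eventually_ne
      · fun_prop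
      · simp
    filter_upwards [h4] with h hh
    exact χ.q_smul x hx _ hh
  exact h2.unique h3

theorem Chart.fderiv_q_smul (χ : Chart X) {x : EN N} (hx : x ∈ χ.U) (v : EN N) {c : ℂ}
    (hc : c ≠ 0) (a : ℂ) : fderiv ℂ χ.q (c • x) (c • v + a • x) = fderiv ℂ χ.q x v := by
  have hcx : c • x ∈ χ.U := χ.smul_U x hx c hc
  have h1 : HasFDerivAt χ.q (fderiv ℂ χ.q (c • x)) (c • x) :=
    (χ.q_an _ hcx).differentiableAt.hasFDerivAt
  have h2 : HasFDerivAt (fun y : EN N => c • y) (c • ContinuousLinearMap.id ℂ (EN N)) x :=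
    (hasFDerivAt_id x).const_smul c
  have h3 : HasFDerivAt (χ.q ∘ fun y : EN N => c • y)
      ((fderiv ℂ χ.q (c • x)).comp (c • ContinuousLinearMap.id ℂ (EN N))) x := h1.comp x h2
  have h4 : HasFDerivAt (χ.q ∘ fun y : EN N => c • y) (fderiv ℂ χ.q x) x := by
    apply (χ.q_an x hx).differentiableAt.hasFDerivAt.congr_of_eventuallyEq
    filter_upwards [χ.isOpen_U.mem_nhds hx] with y hy
    exact χ.q_smul y hy c hc
  have h5 := h3.unique h4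
  have h6 : fderiv ℂ χ.q (c • x) (c • v) = fderiv ℂ χ.q x v := by
    rw [← h5]; simp
  have h7 : fderiv ℂ χ.q (c • x) x = 0 := by
    have h8 := ChartBasic_q_self χ hcx
    rw [map_smul] at h8
    exact (smul_eq_zero.1 h8).resolve_left hc
  rw [map_add, h6, map_smul, h7, smul_zero, add_zero]

theorem Chart.fderiv_q_self (χ : Chart X) {x : EN N} (hx : x ∈ χ.U) : fderiv ℂ χ.q x x = 0 :=
  ChartBasic_q_self χ hx

theorem Chart.tan (hK : IsOpenPart X K) (χ : Chart X) {p : ℂ × ℂ}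
    (hp : p ∈ ball (0 : ℂ × ℂ) 2) (hpK : χ.σ p ∈ K) (w : ℂ × ℂ) :
    Tan K (χ.σ p) (fderiv ℂ χ.σ p w) := by
  have hl : AnalyticAt ℂ (fun z : ℂ => p + z • w) 0 := by fun_prop
  have h0 : p + (0 : ℂ) • w = p := by simp
  have hσ : AnalyticAt ℂ χ.σ (p + (0 : ℂ) • w) := by rw [h0]; exact χ.σ_an p hp
  have hF : AnalyticAt ℂ (fun z : ℂ => χ.σ (p + z • w)) 0 :=
    AnalyticAt.comp (g := χ.σ) (f := fun z : ℂ => p + z • w) hσ hl
  refine ⟨fun z => χ.σ (p + z • w), ⟨hF, ?_⟩, by simp, ?_⟩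
  · have h1 : ∀ᶠ z : ℂ in 𝓝 0, χ.σ (p + z • w) ∈ X → χ.σ (p + z • w) ∈ K := by
      have h2 := hF.continuousAt
      have h3 := hK.rel_open _ hpK
      have h4 : χ.σ (p + (0 : ℂ) • w) = χ.σ p := by rw [h0]
      have h5 : Tendsto (fun z : ℂ => χ.σ (p + z • w)) (𝓝 0) (𝓝 (χ.σ p)) := by
        have := h2.tendsto
        rwa [h4] at this
      exact h5.eventually h3
    have h6 : ∀ᶠ z : ℂ in 𝓝 0, p + z • w ∈ ball (0 : ℂ × ℂ) 2 := by
      have h7 := hl.continuousAt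
      apply h7.eventually_mem
      rw [h0]
      exact isOpen_ball.mem_nhds hp
    filter_upwards [h1, h6] with z hz hz'
    exact hz (χ.σ_mem _ hz').1
  · have h1 : HasFDerivAt χ.σ (fderiv ℂ χ.σ p) (p + (0 : ℂ) • w) := by
      rw [h0]
      exact (χ.σ_an p hp).differentiableAt.hasFDerivAt
    have h2 : HasDerivAt (fun z : ℂ => p + z • w) w 0 := by
      have h3 : HasDerivAt (fun z : ℂ => z • w) ((1 : ℂ) • w) 0 :=
        (hasDerivAt_id (0 : ℂ)).smul_const w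
      rw [one_smul] at h3
      exact h3.const_add p
    exact (h1.comp_hasDerivAt (0 : ℂ) h2).deriv

theorem Chart.curve (hX : IsCone X) (χ : Chart X) {F : ℂ → EN N} {z₀ : ℂ} (hF : CurveAt X F z₀)
    (hU : F z₀ ∈ χ.U) :
    AnalyticAt ℂ (fun z => χ.q (F z)) z₀ ∧
    deriv (fun z => χ.q (F z)) z₀ = fderiv ℂ χ.q (F z₀) (deriv F z₀) ∧
    ∃ c : ℂ → ℂ, AnalyticAt ℂ c z₀ ∧ c z₀ ≠ 0 ∧
      ∀ᶠ z in 𝓝 z₀, χ.q (F z) ∈ ball (0 : ℂ × ℂ) 2 ∧ F z = c z • χ.σ (χ.q (F z)) := by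
  have hq : AnalyticAt ℂ χ.q (F z₀) := χ.q_an _ hU
  have hqF : AnalyticAt ℂ (fun z => χ.q (F z)) z₀ := AnalyticAt.comp hq hF.1
  refine ⟨hqF, ?_, ?_⟩
  · have h1 : HasFDerivAt χ.q (fderiv ℂ χ.q (F z₀)) (F z₀) := hq.differentiableAt.hasFDerivAt
    have h2 : HasDerivAt F (deriv F z₀) z₀ := hF.1.differentiableAt.hasDerivAt
    exact (h1.comp_hasDerivAt z₀ h2).deriv
  · have hX0 : F z₀ ∈ X := hF.mem
    obtain ⟨hb, c0, hc0, hF0⟩ := χ.surj _ hX0 hU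
    have hσ : AnalyticAt ℂ (fun z => χ.σ (χ.q (F z))) z₀ :=
      AnalyticAt.comp (g := χ.σ) (f := fun z => χ.q (F z)) (χ.σ_an _ hb) hqF
    set y : EN N := χ.σ (χ.q (F z₀)) with hy
    have hy0 : y ≠ 0 := Chart.sigma_ne_zero hX χ hb
    have hn : AnalyticAt ℂ (fun z => inner ℂ y (F z)) z₀ :=
      AnalyticAt.comp (g := fun x : EN N => (innerSL ℂ y) x) (f := F)
        ((innerSL ℂ y).analyticAt _) hF.1
    have hd : AnalyticAt ℂ (fun z => inner ℂ y (χ.σ (χ.q (F z)))) z₀ :=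
      AnalyticAt.comp (g := fun x : EN N => (innerSL ℂ y) x) (f := fun z => χ.σ (χ.q (F z)))
        ((innerSL ℂ y).analyticAt _) hσ
    have hd0 : (fun z => inner ℂ y (χ.σ (χ.q (F z)))) z₀ ≠ (0 : ℂ) := by
      show inner ℂ y y ≠ (0 : ℂ)
      exact inner_self_ne_zero.2 hy0
    refine ⟨fun z => inner ℂ y (F z) / inner ℂ y (χ.σ (χ.q (F z))), hn.div hd hd0, ?_, ?_⟩
    · refine div_ne_zero ?_ hd0
      rw [hF0, inner_smul_right]
      exact mul_ne_zero hc0 (inner_self_ne_zero.2 hy0)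
    · have hev : ∀ᶠ z in 𝓝 z₀, (fun z => inner ℂ y (χ.σ (χ.q (F z)))) z ≠ (0 : ℂ) :=
        hd.continuousAt.eventually_ne hd0
      have hevU : ∀ᶠ z in 𝓝 z₀, F z ∈ χ.U :=
        hF.1.continuousAt.eventually_mem (χ.isOpen_U.mem_nhds hU)
      filter_upwards [hev, hevU, hF.2] with z h1 h2 h3
      obtain ⟨h4, c, hc, h5⟩ := χ.surj _ h3 h2
      refine ⟨h4, ?_⟩
      have h6 : inner ℂ y (F z) / inner ℂ y (χ.σ (χ.q (F z))) = c := by
        rw [div_eq_iff h1]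
        conv_lhs => rw [h5]
        rw [inner_smul_right]
      rw [h6]
      exact h5

end Pool.Agent.H14.PP

end

section

/-!
# BPm ChartFs: comparison of the Fubini–Study length with the length in a chart

Both sides are invariant under `x ↦ c x`, `v ↦ c v` (`fs_inv`, `Chart.fderiv_q_smul`), so by
`surj` let `x = σ p`, `‖p‖ ≤ 1`.
(a) `Dq(x) v = Dq(x) (v - a x)`, `a = ⟪x,v⟫/‖x‖^2` (`Chart.fderiv_q_self`), so
`‖Dq(x) v‖ ≤ ‖Dq(σ p)‖ ‖σ p‖ fs x v` (`fs_eq`); `p ↦ ‖Dq(σ p)‖ ‖σ p‖` is continuous on the compact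
closed ball of radius `1`.
(b) `F = c • σ (q F)` near `z₀` (`Chart.curve`), so `F' z₀ = c' σ + c Dσ(p) w`, `w = (q ∘ F)' z₀`,
`fs (F z₀) (F' z₀) = fs (σ p) (Dσ(p) w)` (`fs_inv`) `≤ ‖Dσ(p)‖ ‖w‖/‖σ p‖` (`fs_le`); again
compactness.
-/

open Topology Filter Metric

namespace Pool.Agent.H14.PP

open Pool.Agent.H36.BP

variable {N : ℕ} {X K T : Set (EN N)}

private theorem ChartFs_bdd {f : ℂ × ℂ → ℝ} (hf : ContinuousOn f (closedBall (0 : ℂ × ℂ) 1)) :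
    ∃ C : ℝ, ∀ p ∈ closedBall (0 : ℂ × ℂ) 1, f p ≤ C := by
  obtain ⟨C, hC⟩ := (isCompact_closedBall (0 : ℂ × ℂ) 1).bddAbove_image hf
  exact ⟨C, fun p hp => hC (Set.mem_image_of_mem f hp)⟩

private theorem ChartFs_sub {p : ℂ × ℂ} (hp : p ∈ closedBall (0 : ℂ × ℂ) 1) :
    p ∈ ball (0 : ℂ × ℂ) 2 :=
  closedBall_subset_ball (by norm_num) hp

private theorem ChartFs_a (χ : Chart X) :
    ∃ C : ℝ, ∀ p ∈ closedBall (0 : ℂ × ℂ) 1, ‖fderiv ℂ χ.q (χ.σ p)‖ * ‖χ.σ p‖ ≤ C := by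
  apply ChartFs_bdd
  intro p hp
  have hp2 := ChartFs_sub hp
  have h1 : ContinuousAt χ.σ p := (χ.σ_an p hp2).continuousAt
  have h2 : ContinuousAt (fderiv ℂ χ.q) (χ.σ p) :=
    (χ.q_an (χ.σ p) (χ.σ_mem p hp2).2.1).fderiv.continuousAt
  have h3 : ContinuousAt (fun p => fderiv ℂ χ.q (χ.σ p)) p := ContinuousAt.comp (g := fderiv ℂ χ.q) h2 h1
  exact (h3.norm.mul h1.norm).continuousWithinAt

private theorem ChartFs_b (hX : IsCone X) (χ : Chart X) :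
    ∃ C : ℝ, ∀ p ∈ closedBall (0 : ℂ × ℂ) 1, ‖fderiv ℂ χ.σ p‖ / ‖χ.σ p‖ ≤ C := by
  apply ChartFs_bdd
  intro p hp
  have hp2 := ChartFs_sub hp
  have h1 : ContinuousAt χ.σ p := (χ.σ_an p hp2).continuousAt
  have h2 : ContinuousAt (fderiv ℂ χ.σ) p := (χ.σ_an p hp2).fderiv.continuousAt
  exact (h2.norm.div h1.norm (norm_ne_zero_iff.mpr (Chart.sigma_ne_zero hX χ hp2))).continuousWithinAt

theorem Chart.exists_fs_bound (hX : IsCone X) (χ : Chart X) :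
    ∃ C : ℝ, 1 ≤ C ∧
      (∀ x ∈ X, x ∈ χ.U → ‖χ.q x‖ ≤ 1 → ∀ v, ‖fderiv ℂ χ.q x v‖ ≤ C * fs x v) ∧
      ∀ (F : ℂ → EN N) (z₀ : ℂ), CurveAt X F z₀ → F z₀ ∈ χ.U → ‖χ.q (F z₀)‖ ≤ 1 →
        fs (F z₀) (deriv F z₀) ≤ C * ‖deriv (fun z => χ.q (F z)) z₀‖ := by
  obtain ⟨C₁, hC₁⟩ := ChartFs_a χ
  obtain ⟨C₂, hC₂⟩ := ChartFs_b hX χ
  refine ⟨max 1 (max C₁ C₂), le_max_left _ _, ?_, ?_⟩
  · intro x hx hU hq v
    obtain ⟨hb, c, hc, hxc⟩ := χ.surj x hx hU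
    set p := χ.q x with hp
    have hp1 : p ∈ closedBall (0 : ℂ × ℂ) 1 := by
      rw [mem_closedBall, dist_zero_right]; exact hq
    have hp2 : p ∈ ball (0 : ℂ × ℂ) 2 := ChartFs_sub hp1
    have hy0 : χ.σ p ≠ 0 := Chart.sigma_ne_zero hX χ hp2
    have hyU : χ.σ p ∈ χ.U := (χ.σ_mem p hp2).2.1
    set y := χ.σ p with hy
    have hv : v = c • (c⁻¹ • v) + (0 : ℂ) • y := by
      rw [smul_inv_smul₀ hc, zero_smul, add_zero]
    have e1 : fderiv ℂ χ.q x v = fderiv ℂ χ.q y (c⁻¹ • v) := by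
      conv_lhs => rw [hxc, hv]
      exact χ.fderiv_q_smul hyU (c⁻¹ • v) hc 0
    have e2 : fs x v = fs y (c⁻¹ • v) := by
      conv_lhs => rw [hxc, hv]
      exact fs_inv hy0 (c⁻¹ • v) hc 0
    rw [e1, e2]
    set v' := c⁻¹ • v with hv'
    set a : ℂ := inner ℂ y v' / (‖y‖ : ℂ) ^ 2 with ha
    have e3' : fderiv ℂ χ.q y (a • y) = 0 := by
      rw [map_smul, χ.fderiv_q_self hyU, smul_zero]
    have e3 : fderiv ℂ χ.q y v' = fderiv ℂ χ.q y (v' - a • y) := by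
      rw [map_sub, e3', sub_zero]
    have hyn : 0 < ‖y‖ := norm_pos_iff.mpr hy0
    have e4 : ‖v' - a • y‖ = ‖y‖ * fs y v' := by
      rw [fs_eq hy0, ← ha]
      field_simp
    calc ‖fderiv ℂ χ.q y v'‖ = ‖fderiv ℂ χ.q y (v' - a • y)‖ := by rw [e3]
      _ ≤ ‖fderiv ℂ χ.q y‖ * ‖v' - a • y‖ := ContinuousLinearMap.le_opNorm _ _
      _ = (‖fderiv ℂ χ.q y‖ * ‖y‖) * fs y v' := by rw [e4]; ring
      _ ≤ C₁ * fs y v' := mul_le_mul_of_nonneg_right (hC₁ p hp1) (fs_nonneg _ _)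
      _ ≤ max 1 (max C₁ C₂) * fs y v' :=
        mul_le_mul_of_nonneg_right ((le_max_left _ _).trans (le_max_right _ _)) (fs_nonneg _ _)
  · intro F z₀ hF hU hq
    obtain ⟨han, -, c, hcan, hc0, hev⟩ := Chart.curve hX χ hF hU
    have hev0 := hev.self_of_nhds
    set p := χ.q (F z₀) with hp
    have hp1 : p ∈ closedBall (0 : ℂ × ℂ) 1 := by
      rw [mem_closedBall, dist_zero_right]; exact hq
    have hp2 : p ∈ ball (0 : ℂ × ℂ) 2 := ChartFs_sub hp1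
    have hy0 : χ.σ p ≠ 0 := Chart.sigma_ne_zero hX χ hp2
    set w := deriv (fun z => χ.q (F z)) z₀ with hw
    have hq' : HasDerivAt (fun z => χ.q (F z)) w z₀ := han.differentiableAt.hasDerivAt
    have hσ' : HasFDerivAt χ.σ (fderiv ℂ χ.σ p) p := (χ.σ_an p hp2).differentiableAt.hasFDerivAt
    have hcomp : HasDerivAt (fun z => χ.σ (χ.q (F z))) (fderiv ℂ χ.σ p w) z₀ :=
      HasFDerivAt.comp_hasDerivAt (l := χ.σ) z₀ hσ' hq'
    have hprod : HasDerivAt (fun z => c z • χ.σ (χ.q (F z)))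
        (c z₀ • fderiv ℂ χ.σ p w + deriv c z₀ • χ.σ p) z₀ :=
      hcan.differentiableAt.hasDerivAt.smul hcomp
    have hFd : deriv F z₀ = c z₀ • fderiv ℂ χ.σ p w + deriv c z₀ • χ.σ p := by
      have h1 : F =ᶠ[𝓝 z₀] fun z => c z • χ.σ (χ.q (F z)) := hev.mono fun z hz => hz.2
      rw [h1.deriv_eq]
      exact hprod.deriv
    have e1 : fs (F z₀) (deriv F z₀) = fs (χ.σ p) (fderiv ℂ χ.σ p w) := by
      rw [hFd]
      conv_lhs => rw [hev0.2]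
      exact fs_inv hy0 _ hc0 _
    rw [e1]
    calc fs (χ.σ p) (fderiv ℂ χ.σ p w) ≤ ‖fderiv ℂ χ.σ p w‖ / ‖χ.σ p‖ := fs_le hy0 _
      _ ≤ ‖fderiv ℂ χ.σ p‖ * ‖w‖ / ‖χ.σ p‖ := by
        gcongr
        exact ContinuousLinearMap.le_opNorm _ _
      _ = (‖fderiv ℂ χ.σ p‖ / ‖χ.σ p‖) * ‖w‖ := by ring
      _ ≤ C₂ * ‖w‖ := mul_le_mul_of_nonneg_right (hC₂ p hp1) (norm_nonneg _)
      _ ≤ max 1 (max C₁ C₂) * ‖w‖ :=
        mul_le_mul_of_nonneg_right ((le_max_right _ _).trans (le_max_right _ _)) (norm_nonneg _)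

end Pool.Agent.H14.PP

end

section

/-!
# EF Defs: surfaces with a holomorphic map to an elliptic curve

`X` is the cone (without `0`) of a smooth projective surface, in `EN N = ℂ^(N+1)` with the Euclidean norm.  The map to `ℂ / Λ` is
given by a function `u : EN N → ℂ` which is holomorphic modulo `Λ`.  `pr x` is the orthogonal projection to the line of `x`, a
matrix: in this way the projective space is a compact subset of a Euclidean space.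
-/

set_option autoImplicit false

open Topology Filter Metric

namespace Pool.Agent.H62.EF

open Pool.Agent.H36.BP (EN fs wd)
open Pool.Agent.H14.PP (IsCone Chart Form Tan)

variable {N : ℕ}

/-- matrices with the Frobenius norm -/
abbrev MN (N : ℕ) : Type := EuclideanSpace ℂ (Fin (N + 1) × Fin (N + 1))

/-- the orthogonal projection to the line of `x` -/
noncomputable def pr (x : EN N) : MN N :=
  WithLp.toLp 2 fun i => x i.1 * (starRingEnd ℂ) (x i.2) / ((‖x‖ ^ 2 : ℝ) : ℂ)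

/-- `Λ` is a lattice in `ℂ` -/
structure Lat (Λ : AddSubgroup ℂ) : Prop where
  discrete : ∃ δ : ℝ, 0 < δ ∧ ∀ l ∈ Λ, ‖l‖ < δ → l = 0
  cocompact : ∃ R : ℝ, 0 < R ∧ ∀ z : ℂ, ∃ l ∈ Λ, ‖z - l‖ ≤ R

/-- `X` is smooth: there are charts -/
def Charts (X : Set (EN N)) : Prop := ∀ x ∈ X, ∃ χ : Chart X, x ∈ χ.U ∧ χ.q x = 0

/-- the determinant -/
def det2 (a b : ℂ × ℂ) : ℂ := a.1 * b.2 - a.2 * b.1

/-- a vector in the kernel of the derivative of `υ` at `p` -/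
noncomputable def grd (υ : ℂ × ℂ → ℂ) (p : ℂ × ℂ) : ℂ × ℂ := (-(fderiv ℂ υ p (0, 1)), fderiv ℂ υ p (1, 0))

/-- the function which is compared with holomorphic functions -/
noncomputable def rho {Y : Type} [MetricSpace Y] (M : ℕ) (T : Y → ℝ) (f g : ℂ → Y) (z : ℂ) : ℝ := dist (f z) (g z) ^ M * T (f z)

end Pool.Agent.H62.EF

end

section

/-!
# EF PrA: the projection matrix of a line

`pr x = x x^* / ‖x‖²`.  For `x ≠ 0`, `y ≠ 0`: `‖pr x‖ = 1`, `⟨pr x, pr y⟩ = ‖⟨x, y⟩‖² / (‖x‖² ‖y‖²)` (`∑_{i,j} conj (x i conj (x j)) y i conj (y j)`),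
so `‖pr x - pr y‖² = 2 - 2 ‖⟨x, y⟩‖² / (‖x‖² ‖y‖²) = 2 (wd x y)² / (‖x‖² ‖y‖²)` (`wd x y ^ 2 = ‖x‖² ‖y‖² - ‖⟨x, y⟩‖²`, the radicand is
nonnegative by Cauchy-Schwarz).  `pr_eq_iff`: `wd x y = 0` iff `x` is a multiple of `y` (equality in Cauchy-Schwarz, or the
lemmas of `H36/BP/WdA.lean`).
`isCompact_pr`: `pr '' X = pr '' (X ∩ sphere 0 1)` (`smul_mem`), and `X ∩ sphere 0 1` is compact (`IsCone.closed`).
`nm_close`: `‖(‖x₀‖² / ⟨x₀, x⟩) • x - x₀‖² = ‖x₀‖² (wd x₀ x)² / ‖⟨x₀, x⟩‖²`: the vector `(‖x₀‖² / ⟨x₀, x⟩) • x - x₀` is orthogonal to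
`x₀`; and `(wd x₀ x)² = ‖x₀‖² ‖x‖² ‖pr x - pr x₀‖² / 2`, `‖⟨x₀, x⟩‖² = ‖x₀‖² ‖x‖² (1 - ‖pr x - pr x₀‖² / 2)`.
(`inner ℂ x₀ x` is linear in `x`.)
-/

set_option autoImplicit false

open Topology Filter Metric

namespace Pool.Agent.H62.EF

open Pool.Agent.H36.BP (EN fs wd)
open Pool.Agent.H14.PP (IsCone)

variable {N : ℕ}

theorem wd_sq (x y : EN N) : wd x y ^ 2 = ‖x‖ ^ 2 * ‖y‖ ^ 2 - ‖inner ℂ x y‖ ^ 2 := by
  exact Pool.Agent.H36.BP.wd_sq x y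

theorem pr_smul (x : EN N) {c : ℂ} (hc : c ≠ 0) : pr (c • x) = pr x := by
  have h1 : c * (starRingEnd ℂ) c = ((‖c‖ ^ 2 : ℝ) : ℂ) := by
    rw [Complex.mul_conj']
    push_cast
    rfl
  have h2 : ((‖c‖ ^ 2 : ℝ) : ℂ) ≠ 0 := by
    have : ‖c‖ ≠ 0 := norm_ne_zero_iff.mpr hc
    exact_mod_cast pow_ne_zero 2 this
  unfold pr
  congr 1
  funext i
  have h3 : ((‖c • x‖ ^ 2 : ℝ) : ℂ) = ((‖c‖ ^ 2 : ℝ) : ℂ) * ((‖x‖ ^ 2 : ℝ) : ℂ) := by
    rw [norm_smul, mul_pow]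
    push_cast
    rfl
  have h4 : (c • x) i.1 * (starRingEnd ℂ) ((c • x) i.2) =
      ((‖c‖ ^ 2 : ℝ) : ℂ) * (x i.1 * (starRingEnd ℂ) (x i.2)) := by
    rw [← h1]
    simp only [PiLp.smul_apply, smul_eq_mul, map_mul]
    ring
  rw [h3, h4, mul_div_mul_left _ _ h2]

private theorem inner_sum (x y : EN N) : (inner ℂ x y : ℂ) = ∑ i, (starRingEnd ℂ) (x i) * y i := by
  rw [PiLp.inner_apply]
  refine Finset.sum_congr rfl fun i _ => ?_
  rw [RCLike.inner_apply]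
  ring

private theorem sq_ne {x : EN N} (hx : x ≠ 0) : ((‖x‖ ^ 2 : ℝ) : ℂ) ≠ 0 := by
  have : ‖x‖ ≠ 0 := norm_ne_zero_iff.mpr hx
  exact_mod_cast pow_ne_zero 2 this

private theorem inner_pr (x y : EN N) : (inner ℂ (pr x) (pr y) : ℂ) =
    ((‖(inner ℂ x y : ℂ)‖ ^ 2 / (‖x‖ ^ 2 * ‖y‖ ^ 2) : ℝ) : ℂ) := by
  have h1 : ((‖(inner ℂ x y : ℂ)‖ ^ 2 : ℝ) : ℂ) = (inner ℂ x y : ℂ) * (starRingEnd ℂ) (inner ℂ x y : ℂ) := by
    rw [Complex.mul_conj']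
    push_cast
    rfl
  have h2 : (inner ℂ (pr x) (pr y) : ℂ) = ∑ p : Fin (N + 1) × Fin (N + 1),
      ((starRingEnd ℂ) (x p.1) * y p.1) * (x p.2 * (starRingEnd ℂ) (y p.2)) /
        (((‖x‖ ^ 2 : ℝ) : ℂ) * ((‖y‖ ^ 2 : ℝ) : ℂ)) := by
    rw [PiLp.inner_apply]
    refine Finset.sum_congr rfl fun p _ => ?_
    rw [RCLike.inner_apply]
    simp only [pr, map_div₀, map_mul, Complex.conj_conj, Complex.conj_ofReal]
    rw [div_mul_div_comm]
    congr 1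
    · ring
    · ring
  rw [h2, ← Finset.sum_div, Fintype.sum_prod_type]
  have h3 : ∑ i : Fin (N + 1), ∑ j : Fin (N + 1), ((starRingEnd ℂ) (x i) * y i) * (x j * (starRingEnd ℂ) (y j)) =
      (inner ℂ x y : ℂ) * (starRingEnd ℂ) (inner ℂ x y : ℂ) := by
    rw [inner_sum, map_sum, Finset.sum_mul_sum]
    refine Finset.sum_congr rfl fun i _ => Finset.sum_congr rfl fun j _ => ?_
    rw [map_mul, Complex.conj_conj]
  rw [h3, ← h1]
  push_cast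
  rfl

theorem norm_pr {x : EN N} (hx : x ≠ 0) : ‖pr x‖ = 1 := by
  have h0 : ‖x‖ ≠ 0 := norm_ne_zero_iff.mpr hx
  have h1 : ‖pr x‖ ^ 2 = 1 := by
    rw [← inner_self_eq_norm_sq (𝕜 := ℂ), inner_pr, inner_self_eq_norm_sq_to_K]
    simp only [Complex.coe_algebraMap, norm_pow, Complex.norm_real, norm_norm, RCLike.re_to_complex, Complex.ofReal_re]
    field_simp
  have h2 : 0 ≤ ‖pr x‖ := norm_nonneg _
  nlinarith [h1, h2]

theorem dist_pr_sq {x y : EN N} (hx : x ≠ 0) (hy : y ≠ 0) :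
    ‖pr x - pr y‖ ^ 2 = 2 * (wd x y ^ 2 / (‖x‖ ^ 2 * ‖y‖ ^ 2)) := by
  have h0 : ‖x‖ ≠ 0 := norm_ne_zero_iff.mpr hx
  have h0' : ‖y‖ ≠ 0 := norm_ne_zero_iff.mpr hy
  rw [norm_sub_sq (𝕜 := ℂ), inner_pr, norm_pr hx, norm_pr hy, wd_sq]
  simp only [RCLike.re_to_complex, Complex.ofReal_re]
  field_simp
  ring

theorem dist_pr {x y : EN N} (hx : x ≠ 0) (hy : y ≠ 0) :
    dist (pr x) (pr y) = Real.sqrt 2 * (wd x y / (‖x‖ * ‖y‖)) := by
  have h1 : 0 ≤ wd x y := Real.sqrt_nonneg _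
  have h2 : 0 ≤ Real.sqrt 2 * (wd x y / (‖x‖ * ‖y‖)) := by positivity
  have h3 : dist (pr x) (pr y) ^ 2 = (Real.sqrt 2 * (wd x y / (‖x‖ * ‖y‖))) ^ 2 := by
    rw [dist_eq_norm, dist_pr_sq hx hy, mul_pow, Real.sq_sqrt (by norm_num), div_pow, mul_pow]
  exact (pow_left_inj₀ dist_nonneg h2 two_ne_zero).mp h3

/-- the scalar product in terms of the distance -/
theorem norm_inner_sq {x y : EN N} (hx : x ≠ 0) (hy : y ≠ 0) :
    ‖inner ℂ x y‖ ^ 2 = ‖x‖ ^ 2 * ‖y‖ ^ 2 * (1 - dist (pr x) (pr y) ^ 2 / 2) := by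
  have h0 : ‖x‖ ≠ 0 := norm_ne_zero_iff.mpr hx
  have h0' : ‖y‖ ≠ 0 := norm_ne_zero_iff.mpr hy
  rw [dist_eq_norm, dist_pr_sq hx hy, wd_sq]
  field_simp
  ring

theorem pr_eq_iff {x y : EN N} (hx : x ≠ 0) (hy : y ≠ 0) : pr x = pr y ↔ ∃ c : ℂ, c ≠ 0 ∧ x = c • y := by
  constructor
  · intro h
    have h1 := norm_inner_sq hy hx
    rw [h, dist_self] at h1
    have h2 : ‖(inner ℂ y x : ℂ)‖ ^ 2 = (‖y‖ * ‖x‖) ^ 2 := by
      rw [h1]
      ring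
    have h3 : ‖(inner ℂ y x : ℂ)‖ = ‖y‖ * ‖x‖ :=
      (pow_left_inj₀ (norm_nonneg _) (by positivity) two_ne_zero).mp h2
    exact (norm_inner_eq_norm_iff hy hx).mp h3
  · rintro ⟨c, hc, rfl⟩
    exact pr_smul y hc

theorem continuousAt_pr {x : EN N} (hx : x ≠ 0) : ContinuousAt pr x := by
  have h1 : ContinuousAt (fun x : EN N => fun i : Fin (N + 1) × Fin (N + 1) =>
      x i.1 * (starRingEnd ℂ) (x i.2) / ((‖x‖ ^ 2 : ℝ) : ℂ)) x := by
    refine continuousAt_pi.mpr fun i => ?_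
    refine ContinuousAt.div ?_ ?_ (sq_ne hx)
    · refine ContinuousAt.mul ?_ ?_
      · exact (PiLp.continuous_apply 2 _ i.1).continuousAt
      · exact Complex.continuous_conj.continuousAt.comp (PiLp.continuous_apply 2 _ i.2).continuousAt
    · exact Complex.continuous_ofReal.continuousAt.comp (continuous_norm.pow 2).continuousAt
  exact (PiLp.continuous_toLp 2 _).continuousAt.comp h1

theorem isCompact_pr {X : Set (EN N)} (hX : IsCone X) : IsCompact (pr '' X) := by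
  have h1 : X ∩ sphere (0 : EN N) 1 = (insert 0 X) ∩ sphere (0 : EN N) 1 := by
    ext x
    constructor
    · rintro ⟨hx, hs⟩
      exact ⟨Set.mem_insert_of_mem _ hx, hs⟩
    · rintro ⟨hx, hs⟩
      refine ⟨?_, hs⟩
      rcases hx with rfl | hx
      · simp at hs
      · exact hx
  have h2 : IsCompact (X ∩ sphere (0 : EN N) 1) := by
    rw [h1]
    exact (isCompact_sphere (0 : EN N) 1).inter_left hX.closed
  have h3 : pr '' X = pr '' (X ∩ sphere (0 : EN N) 1) := by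
    ext p
    constructor
    · rintro ⟨x, hx, rfl⟩
      have hx0 : x ≠ 0 := fun h => hX.zero_notMem (h ▸ hx)
      have hn : ‖x‖ ≠ 0 := norm_ne_zero_iff.mpr hx0
      have hc : (((‖x‖⁻¹ : ℝ)) : ℂ) ≠ 0 := by
        exact_mod_cast inv_ne_zero hn
      refine ⟨(((‖x‖⁻¹ : ℝ)) : ℂ) • x, ⟨hX.smul_mem x hx _ hc, ?_⟩, pr_smul x hc⟩
      rw [mem_sphere_zero_iff_norm, norm_smul, Complex.norm_real, norm_inv, norm_norm]
      exact inv_mul_cancel₀ hn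
    · rintro ⟨x, hx, rfl⟩
      exact ⟨x, hx.1, rfl⟩
  rw [h3]
  refine h2.image_of_continuousOn fun x hx => ?_
  have hx0 : x ≠ 0 := fun h => hX.zero_notMem (h ▸ hx.1)
  exact (continuousAt_pr hx0).continuousWithinAt

/-- the representative of the line of `x` in the affine space `⟨x₀, x⟩ = ‖x₀‖²` -/
noncomputable def nm (x₀ x : EN N) : EN N := (((‖x₀‖ ^ 2 : ℝ) : ℂ) / inner ℂ x₀ x) • x

theorem nm_close {x₀ : EN N} (hx₀ : x₀ ≠ 0) {ε : ℝ} (hε : 0 < ε) :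
    ∃ δ : ℝ, 0 < δ ∧ ∀ x : EN N, x ≠ 0 → dist (pr x) (pr x₀) < δ → inner ℂ x₀ x ≠ (0 : ℂ) ∧ ‖nm x₀ x - x₀‖ < ε := by
  have hn : 0 < ‖x₀‖ := norm_pos_iff.mpr hx₀
  refine ⟨min 1 (ε / ‖x₀‖), lt_min one_pos (div_pos hε hn), fun x hx hd => ?_⟩
  have hx' : 0 < ‖x‖ := norm_pos_iff.mpr hx
  have hd1 : dist (pr x) (pr x₀) < 1 := lt_of_lt_of_le hd (min_le_left _ _)
  have hd2 : ‖x₀‖ * dist (pr x) (pr x₀) < ε := by
    have := lt_of_lt_of_le hd (min_le_right _ _)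
    rw [lt_div_iff₀ hn] at this
    linarith
  have hi := norm_inner_sq hx₀ hx
  rw [dist_comm] at hi
  set d := dist (pr x) (pr x₀) with hdd
  have hd0 : 0 ≤ d := dist_nonneg
  have hq : 0 < 1 - d ^ 2 / 2 := by nlinarith
  have hi0 : 0 < ‖(inner ℂ x₀ x : ℂ)‖ ^ 2 := by
    rw [hi]
    positivity
  have hne : (inner ℂ x₀ x : ℂ) ≠ 0 := by
    intro h
    rw [h] at hi0
    simp at hi0
  refine ⟨hne, ?_⟩
  have hc0 : (starRingEnd ℂ) (inner ℂ x₀ x : ℂ) ≠ 0 := by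
    intro h
    exact hne ((map_eq_zero _).mp h)
  have h1 : (inner ℂ (nm x₀ x) x₀ : ℂ) = ((‖x₀‖ ^ 2 : ℝ) : ℂ) := by
    unfold nm
    rw [inner_smul_left, map_div₀, Complex.conj_ofReal, ← inner_conj_symm x x₀, div_mul_cancel₀ _ hc0]
  have h2 : ‖nm x₀ x‖ ^ 2 = ‖x₀‖ ^ 2 / (1 - d ^ 2 / 2) := by
    unfold nm
    rw [norm_smul, norm_div, Complex.norm_real, mul_pow, div_pow, hi, Real.norm_of_nonneg (by positivity)]
    field_simp
  have h3 : ‖nm x₀ x - x₀‖ ^ 2 ≤ (‖x₀‖ * d) ^ 2 := by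
    rw [norm_sub_sq (𝕜 := ℂ), h1, h2]
    simp only [RCLike.re_to_complex, Complex.ofReal_re]
    have h4 : ‖x₀‖ ^ 2 / (1 - d ^ 2 / 2) - 2 * ‖x₀‖ ^ 2 + ‖x₀‖ ^ 2 = ‖x₀‖ ^ 2 * ((d ^ 2 / 2) / (1 - d ^ 2 / 2)) := by
      have hdq : d ^ 2 / 2 = 1 - (1 - d ^ 2 / 2) := by ring
      generalize 1 - d ^ 2 / 2 = q at hq hdq ⊢
      rw [hdq]
      have hq' : q ≠ 0 := hq.ne'
      field_simp
      ring
    rw [h4, mul_pow]
    refine mul_le_mul_of_nonneg_left ?_ (by positivity)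
    rw [div_le_iff₀ hq]
    have h6 : d ^ 2 ≤ 1 := by nlinarith
    have h7 : (1 : ℝ) / 2 ≤ 1 - d ^ 2 / 2 := by linarith
    nlinarith [mul_le_mul_of_nonneg_left h7 (sq_nonneg d)]
  have h5 : ‖nm x₀ x - x₀‖ ≤ ‖x₀‖ * d := abs_le_of_sq_le_sq' h3 (by positivity) |>.2
  linarith

/-- a neighbourhood of a point of the cone which is a cone contains the points with near projection -/
theorem near_of_pr {x₀ : EN N} (hx₀ : x₀ ≠ 0) {U : Set (EN N)} (hU : U ∈ 𝓝 x₀) :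
    ∃ δ : ℝ, 0 < δ ∧ ∀ x : EN N, x ≠ 0 → dist (pr x) (pr x₀) < δ → ∃ c : ℂ, c ≠ 0 ∧ c • x ∈ U := by
  obtain ⟨ε, hε, hb⟩ := Metric.mem_nhds_iff.mp hU
  obtain ⟨δ, hδ, h⟩ := nm_close hx₀ hε
  refine ⟨δ, hδ, fun x hx hd => ?_⟩
  obtain ⟨h1, h2⟩ := h x hx hd
  refine ⟨((‖x₀‖ ^ 2 : ℝ) : ℂ) / inner ℂ x₀ x, div_ne_zero (sq_ne hx₀) h1, hb ?_⟩
  rw [mem_ball, dist_eq_norm]
  exact h2

end Pool.Agent.H62.EF

end

section

/-!
# EF PrLip: curves with bounded Fubini-Study derivative are Lipschitz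

Let `F` be holomorphic on the open convex set `U`, without zeros, `fs (F z) (F' z) ≤ L`.  The map `z ↦ pr (F z)` is real differentiable
on `U`, with derivative of norm at most `√2 L`; conclude with the mean value inequality (`Convex.norm_image_sub_le_of_norm_hasFDerivWithin_le`).
The derivative at `z` in the direction `h ∈ ℂ`: by `pr_smul`, `pr (F w) = pr (G w)` with `G w = F w / a(w)` for any holomorphic `a`
without zero; take the constant `a = ‖F z‖`-normalisation and subtract: with `x = F z`, `v = F' z h`, `v' = v - (⟨x, v⟩ / ‖x‖²) x`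
(orthogonal to `x`): the derivative of `pr` at `x` in the direction `v` is `(v' x^* + x v'^*) / ‖x‖²`, of norm
`√2 ‖v'‖ ‖x‖ / ‖x‖² = √2 wd x v / ‖x‖² = √2 fs x v`.
Another way, without computing the derivative: by `dist_pr`, `dist (pr (F z)) (pr (F w)) = √2 wd (F z) (F w) / (‖F z‖ ‖F w‖)` and
`wd (F z) (F w) = wd (F z) (F w - F z)`, so `limsup_{w → z} dist (pr (F z)) (pr (F w)) / ‖w - z‖ ≤ √2 wd (F z) (F' z) / ‖F z‖² ≤ √2 L`;
a map on a segment with this property is Lipschitz with every constant `> √2 L`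
(`image_le_of_liminf_slope_right_lt_deriv_boundary` and variants for the real function `t ↦ dist (f z) (f (z + t (w - z)))`, or
`image_norm_le_of_liminf_right_slope_norm_lt_deriv_boundary`).
-/

set_option autoImplicit false

open Topology Filter Metric

namespace Pool.Agent.H62.EF

open Pool.Agent.H36.BP (EN fs wd wd_cont wd_inv wd_smul_right fs_nonneg)

variable {N : ℕ}

/-- `wd x y = (t - s) wd x (slope)` -/
private theorem wd_slope {G : ℝ → EN N} {s t : ℝ} (h : s < t) :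
    wd (G s) (G t) = (t - s) * wd (G s) (slope G s t) := by
  have h1 : G t = (((t - s : ℝ)) : ℂ) • slope G s t + (1 : ℂ) • G s := by
    have hne : t - s ≠ 0 := by linarith
    rw [slope_def_module, one_smul, Complex.coe_smul, smul_smul, mul_inv_cancel₀ hne, one_smul, sub_add_cancel]
  have h2 : wd (G s) (G t) = wd (G s) ((((t - s : ℝ)) : ℂ) • slope G s t) := by
    have h3 := wd_inv (G s) ((((t - s : ℝ)) : ℂ) • slope G s t) 1 1
    have h4 : (1 : ℂ) • ((((t - s : ℝ)) : ℂ) • slope G s t) + (1 : ℂ) • G s = G t := by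
      rw [one_smul ℂ ((((t - s : ℝ)) : ℂ) • slope G s t), ← h1]
    rw [h4, one_smul, norm_one, one_pow, one_mul] at h3
    exact h3
  rw [h2, wd_smul_right, Complex.norm_real, Real.norm_of_nonneg (by linarith)]

private theorem lim_aux {l : Filter ℝ} {S : ℝ → EN N} {x v : EN N} (h : Tendsto S l (𝓝 v)) :
    Tendsto (fun t => wd x (S t)) l (𝓝 (wd x v)) := by
  have h1 : Tendsto (fun t => (inner ℂ x (S t) : ℂ)) l (𝓝 (inner ℂ x v)) := tendsto_const_nhds.inner h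
  have h2 : Tendsto (fun t => ‖x‖ ^ 2 * ‖S t‖ ^ 2 - ‖(inner ℂ x (S t) : ℂ)‖ ^ 2) l
      (𝓝 (‖x‖ ^ 2 * ‖v‖ ^ 2 - ‖(inner ℂ x v : ℂ)‖ ^ 2)) :=
    ((h.norm.pow 2).const_mul _).sub (h1.norm.pow 2)
  exact h2.sqrt

private theorem lim_aux2 {l : Filter ℝ} {S G : ℝ → EN N} {x v : EN N} (h : Tendsto S l (𝓝 v)) (hG : Tendsto G l (𝓝 x))
    (hx : ‖x‖ ≠ 0) :
    Tendsto (fun t => Real.sqrt 2 * (wd x (S t) / (‖x‖ * ‖G t‖))) l (𝓝 (Real.sqrt 2 * (wd x v / (‖x‖ * ‖x‖)))) := by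
  have h1 := lim_aux (x := x) h
  have h2 : Tendsto (fun t => ‖x‖ * ‖G t‖) l (𝓝 (‖x‖ * ‖x‖)) := hG.norm.const_mul _
  exact (h1.div h2 (mul_ne_zero hx hx)).const_mul _

theorem pr_lipschitz {F : ℂ → EN N} {U : Set ℂ} (hU : IsOpen U) (hUc : Convex ℝ U) (hF : DifferentiableOn ℂ F U)
    (h0 : ∀ z ∈ U, F z ≠ 0) {L : ℝ} (hL : ∀ z ∈ U, fs (F z) (deriv F z) ≤ L) :
    ∀ z ∈ U, ∀ w ∈ U, dist (pr (F z)) (pr (F w)) ≤ 2 * L * ‖z - w‖ := by
  intro z hz w hw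
  have hL0 : 0 ≤ L := le_trans (fs_nonneg _ _) (hL z hz)
  obtain ⟨γ, hγ⟩ : ∃ γ : ℝ → ℂ, γ = fun t : ℝ => z + (t : ℂ) * (w - z) := ⟨_, rfl⟩
  have hγU : ∀ t ∈ Set.Icc (0 : ℝ) 1, γ t ∈ U := by
    intro t ht
    have h1 := hUc hz hw (show 0 ≤ 1 - t by linarith [ht.2]) ht.1 (by ring)
    have h2 : γ t = (1 - t) • z + t • w := by
      rw [hγ]
      simp only [Complex.real_smul]
      push_cast
      ring
    rw [h2]
    exact h1
  have hγ0 : γ 0 = z := by rw [hγ]; simp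
  have hγ1 : γ 1 = w := by rw [hγ]; simp
  have hγd : ∀ t, HasDerivAt γ (w - z) t := by
    intro t
    have h1 : HasDerivAt (fun s : ℝ => (s : ℂ)) 1 t := Complex.ofRealCLM.hasDerivAt
    have h2 := (h1.mul_const (w - z)).const_add z
    rw [one_mul] at h2
    rw [hγ]
    exact h2
  obtain ⟨G, hG⟩ : ∃ G : ℝ → EN N, G = fun t => F (γ t) := ⟨_, rfl⟩
  have hGd : ∀ t ∈ Set.Icc (0 : ℝ) 1, HasDerivAt G ((w - z) • deriv F (γ t)) t := by
    intro t ht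
    have h1 : HasDerivAt F (deriv F (γ t)) (γ t) :=
      (hF.differentiableAt (hU.mem_nhds (hγU t ht))).hasDerivAt
    rw [hG]
    exact h1.scomp t (hγd t)
  have hG0 : ∀ t ∈ Set.Icc (0 : ℝ) 1, G t ≠ 0 := by
    intro t ht
    rw [hG]
    exact h0 _ (hγU t ht)
  have hcont : ContinuousOn (fun t => pr (G t) - pr (G 0)) (Set.Icc 0 1) := by
    intro t ht
    have h1 : ContinuousAt (fun t => pr (G t)) t :=
      ContinuousAt.comp (f := G) (g := pr) (continuousAt_pr (hG0 t ht)) (hGd t ht).continuousAt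
    exact (h1.sub continuousAt_const).continuousWithinAt
  have hslope : ∀ x ∈ Set.Ico (0 : ℝ) 1, ∀ r : ℝ, Real.sqrt 2 * (L * ‖w - z‖) < r →
      ∃ᶠ t in 𝓝[>] x, slope (norm ∘ fun t => pr (G t) - pr (G 0)) x t < r := by
    intro x hx r hr
    have hx1 : x ∈ Set.Icc (0 : ℝ) 1 := ⟨hx.1, hx.2.le⟩
    have hd := hGd x hx1
    have hs : Tendsto (slope G x) (𝓝[>] x) (𝓝 ((w - z) • deriv F (γ x))) :=
      (hasDerivAt_iff_tendsto_slope.1 hd).mono_left (nhdsWithin_mono _ fun t ht => ne_of_gt ht)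
    have hc : Tendsto G (𝓝[>] x) (𝓝 (G x)) := hd.continuousAt.tendsto.mono_left nhdsWithin_le_nhds
    have hxn : ‖G x‖ ≠ 0 := norm_ne_zero_iff.2 (hG0 x hx1)
    have hlim : Tendsto (fun t => Real.sqrt 2 * (wd (G x) (slope G x t) / (‖G x‖ * ‖G t‖))) (𝓝[>] x)
        (𝓝 (Real.sqrt 2 * (wd (G x) ((w - z) • deriv F (γ x)) / (‖G x‖ * ‖G x‖)))) := by
      exact lim_aux2 hs hc hxn
    have hval : Real.sqrt 2 * (wd (G x) ((w - z) • deriv F (γ x)) / (‖G x‖ * ‖G x‖)) ≤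
        Real.sqrt 2 * (L * ‖w - z‖) := by
      refine mul_le_mul_of_nonneg_left ?_ (Real.sqrt_nonneg _)
      have h1 := hL (γ x) (hγU x hx1)
      have h2 : G x = F (γ x) := by rw [hG]
      unfold fs at h1
      rw [wd_smul_right, h2, mul_div_assoc, ← pow_two, mul_comm L]
      exact mul_le_mul_of_nonneg_left h1 (norm_nonneg _)
    have hev : ∀ᶠ t in 𝓝[>] x, Real.sqrt 2 * (wd (G x) (slope G x t) / (‖G x‖ * ‖G t‖)) < r :=
      hlim.eventually (gt_mem_nhds (lt_of_le_of_lt hval hr))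
    have hmem : ∀ᶠ t in 𝓝[>] x, t ∈ Set.Ioc x 1 := Ioc_mem_nhdsGT hx.2
    refine Eventually.frequently ?_
    filter_upwards [hev, hmem] with t ht htm
    have hxt : x < t := htm.1
    have ht1 : t ∈ Set.Icc (0 : ℝ) 1 := ⟨le_trans hx.1 hxt.le, htm.2⟩
    refine lt_of_le_of_lt ?_ ht
    have h1 : ‖pr (G t) - pr (G 0)‖ - ‖pr (G x) - pr (G 0)‖ ≤ dist (pr (G x)) (pr (G t)) := by
      have h2 := norm_sub_norm_le (pr (G t) - pr (G 0)) (pr (G x) - pr (G 0))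
      rw [sub_sub_sub_cancel_right, norm_sub_rev (pr (G t)) (pr (G x)), ← dist_eq_norm (pr (G x)) (pr (G t))] at h2
      exact h2
    rw [dist_pr (hG0 x hx1) (hG0 t ht1), wd_slope hxt] at h1
    rw [slope_def_field]
    show (‖pr (G t) - pr (G 0)‖ - ‖pr (G x) - pr (G 0)‖) / (t - x) ≤ _
    rw [div_le_iff₀ (by linarith)]
    calc ‖pr (G t) - pr (G 0)‖ - ‖pr (G x) - pr (G 0)‖
        ≤ Real.sqrt 2 * ((t - x) * wd (G x) (slope G x t) / (‖G x‖ * ‖G t‖)) := h1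
      _ = Real.sqrt 2 * (wd (G x) (slope G x t) / (‖G x‖ * ‖G t‖)) * (t - x) := by ring
  have key : ∀ ε : ℝ, 0 < ε → ‖pr (G 1) - pr (G 0)‖ ≤ Real.sqrt 2 * (L * ‖w - z‖) + ε := by
    intro ε hε
    have h1 := image_norm_le_of_liminf_right_slope_norm_lt_deriv_boundary (a := 0) (b := 1)
      (f := fun t => pr (G t) - pr (G 0)) (f' := fun _ => Real.sqrt 2 * (L * ‖w - z‖)) hcont hslope
      (B := fun t => (Real.sqrt 2 * (L * ‖w - z‖) + ε) * t) (B' := fun _ => Real.sqrt 2 * (L * ‖w - z‖) + ε)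
      (by simp) (by fun_prop)
      (fun x _ => by
        have h2 := (hasDerivAt_id x).const_mul (Real.sqrt 2 * (L * ‖w - z‖) + ε)
        rw [mul_one] at h2
        exact h2.hasDerivWithinAt)
      (fun x _ _ => by linarith) (x := 1) ⟨zero_le_one, le_refl 1⟩
    rw [mul_one] at h1
    exact h1
  have hfin : ‖pr (G 1) - pr (G 0)‖ ≤ Real.sqrt 2 * (L * ‖w - z‖) := le_of_forall_pos_le_add key
  have hG1 : G 1 = F w := by rw [hG]; show F (γ 1) = F w; rw [hγ1]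
  have hG0' : G 0 = F z := by rw [hG]; show F (γ 0) = F z; rw [hγ0]
  rw [hG1, hG0', ← dist_eq_norm, dist_comm] at hfin
  refine hfin.trans ?_
  have hs2 : Real.sqrt 2 ≤ 2 := by
    rw [Real.sqrt_le_left (by norm_num)]
    norm_num
  rw [norm_sub_rev z w, mul_assoc]
  exact mul_le_mul_of_nonneg_right hs2 (mul_nonneg hL0 (norm_nonneg _))

end Pool.Agent.H62.EF

end
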