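import Pool.Agent.H18.GGT.M17
import Pool.Agent.H18.GGT.M18
import Pool.Agent.H18.GGT.M22
import Pool.Agent.H18.GGT.M24
import Pool.Agent.H18.GGT.M39
import Pool.Agent.H18.GGT.M44
import Pool.Agent.H18.GGT.M51

/-! The parts of this file: H17EF.Up, H17EF.MainE, H7.Bir.Main, H7.Qup.Defs, H14.V.MainV, H92.TH.Bas, H14.V.Fam. -/

section

/-!
# EF Up: an entire curve with bounded derivative has order at most two
-/

set_option autoImplicit false

namespace Pool.Agent.H17EF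

open Pool.Agent.H36.BP Metric Filter Topology

variable {N : ℕ}

/-- an entire curve with bounded derivative has `T_f(r) = O(r²)` -/
theorem ordTwo_of_fs {F : ℂ → EN N} (hF : Differentiable ℂ F) (h0 : ∀ z, F z ≠ 0) {L : ℝ}
    (hL : ∀ z, fs (F z) (deriv F z) ≤ L) : OrdTwo F := by
  obtain ⟨a, ha⟩ : ∃ a : ℝ, a = L ^ 2 / 2 + 1 := ⟨_, rfl⟩
  have ha0 : 0 < a := by rw [ha]; positivity
  refine ⟨a + 2 + |Real.log ‖F 0‖|, fun r hr => ?_⟩
  have hlogc : Continuous fun z => Real.log ‖F z‖ := by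
    refine Continuous.log hF.continuous.norm fun z => ?_
    exact norm_ne_zero_iff.2 (h0 z)
  obtain ⟨p, hp⟩ := exists_poly_re hr (u := fun z => Real.log ‖F z‖ + 1) (hlogc.add continuous_const).continuousOn one_pos
  have hlt : ∀ z : ℂ, ‖z‖ = r → Real.log ‖F z‖ ≤ (p.eval z).re ∧ (p.eval z).re ≤ Real.log ‖F z‖ + 2 := by
    intro z hz
    have := abs_lt.1 (hp z hz)
    constructor <;> linarith [this.1, this.2]
  have hpd : Differentiable ℂ fun z : ℂ => p.eval z := p.differentiable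
  -- the upper bound at the centre
  have hval : (p.eval 0).re ≤ Real.log ‖F 0‖ + 2 + a * r ^ 2 := by
    set u : ℂ → ℝ := fun z => ‖F z‖ ^ (-1 : ℝ) * ‖Complex.exp (p.eval z)‖ * Real.exp (a * ‖z‖ ^ 2) with hu
    have hmax := max_principle (S := closedBall (0 : ℂ) r) (U := ball (0 : ℂ) r) (isCompact_closedBall _ _) isOpen_ball ball_subset_closedBall
      (u := u) ?_ ?_ (A := Real.exp (2 + a * r ^ 2)) (Real.exp_pos _).le ?_ 0 (mem_closedBall_self hr.le)
    · rw [hu] at hmax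
      simp only [norm_zero] at hmax
      rw [Real.rpow_neg_one, Complex.norm_exp, ← Real.exp_log (norm_pos_iff.2 (h0 0)), ← Real.exp_neg, ← Real.exp_add, ← Real.exp_add,
        Real.exp_le_exp] at hmax
      nlinarith
    · apply ContinuousOn.upperSemicontinuousOn
      apply Continuous.continuousOn
      have h1 : Continuous fun z => ‖F z‖ ^ (-1 : ℝ) :=
        hF.continuous.norm.rpow_const fun z => Or.inl (norm_ne_zero_iff.2 (h0 z))
      have h2 : Continuous fun z : ℂ => ‖Complex.exp (p.eval z)‖ := by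
        have := hpd.continuous
        fun_prop
      have h3 : Continuous fun z : ℂ => Real.exp (a * ‖z‖ ^ 2) := by fun_prop
      exact (h1.mul h2).mul h3
    · intro z _ _
      have s1 := Sub.norm_rpow (hF.analyticAt z) (h0 z) (-1)
      have s2 := Sub.of_holo (h := fun z => Complex.exp (p.eval z)) (z₀ := z) ((hpd.analyticAt z).cexp) (Complex.exp_ne_zero _)
      have s3 := Sub.exp_sq (t := fun z => z) (z₀ := z) analyticAt_id a
      refine ⟨_, ?_, (s1.mul s2).mul s3⟩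
      have h10 : deriv (fun z : ℂ => z) z = 1 := deriv_id z
      rw [h10, norm_one]
      have h11 := hL z
      have h12 : fs (F z) (deriv F z) ^ 2 ≤ L ^ 2 := pow_le_pow_left₀ (fs_nonneg _ _) h11 2
      rw [ha]
      nlinarith
    · intro z hz
      have hzn : ‖z‖ = r := by
        have h13 := hz.1
        have h14 := hz.2
        simp only [mem_closedBall, mem_ball, dist_zero_right, not_lt] at h13 h14
        exact le_antisymm h13 h14
      have h1 := (hlt z hzn).2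
      rw [hu]
      simp only
      rw [Real.rpow_neg_one, Complex.norm_exp, hzn]
      have h2 : ‖F z‖⁻¹ = Real.exp (-Real.log ‖F z‖) := by
        rw [Real.exp_neg, Real.exp_log (norm_pos_iff.2 (h0 z))]
      rw [h2, ← Real.exp_add, ← Real.exp_add]
      apply Real.exp_le_exp.2
      linarith
  refine ⟨fun z => Complex.exp (-p.eval z) • F z, ?_, ?_, ?_, ?_⟩
  · have h1 : Differentiable ℂ fun z => Complex.exp (-p.eval z) := by
      fun_prop
    exact (h1.smul hF).differentiableOn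
  · intro z hz
    have hd : DiffContOnCl ℂ (fun z => Complex.exp (-p.eval z) • F z) (ball 0 r) := by
      have h1 : Differentiable ℂ fun z => Complex.exp (-p.eval z) := by
        fun_prop
      exact (h1.smul hF).diffContOnCl
    refine Complex.norm_le_of_forall_mem_frontier_norm_le isBounded_ball hd ?_ (subset_closure hz)
    intro ζ hζ
    rw [frontier_ball _ hr.ne', mem_sphere_zero_iff_norm] at hζ
    rw [norm_smul, Complex.norm_exp, Complex.neg_re]
    have h2 := (hlt ζ hζ).1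
    have h3 : ‖F ζ‖ ≤ Real.exp (p.eval ζ).re := by
      rw [← Real.exp_log (norm_pos_iff.2 (h0 ζ))]
      exact Real.exp_le_exp.2 h2
    calc Real.exp (-(p.eval ζ).re) * ‖F ζ‖ ≤ Real.exp (-(p.eval ζ).re) * Real.exp (p.eval ζ).re :=
          mul_le_mul_of_nonneg_left h3 (Real.exp_pos _).le
      _ = 1 := by rw [← Real.exp_add]; simp
  · rw [norm_smul, Complex.norm_exp, Complex.neg_re]
    have h5 : ‖F 0‖ = Real.exp (Real.log ‖F 0‖) := (Real.exp_log (norm_pos_iff.2 (h0 0))).symm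
    rw [h5, ← Real.exp_add, Real.exp_le_exp, Real.log_exp]
    have h8 : 0 ≤ |Real.log ‖F 0‖| * (1 + r ^ 2) := by positivity
    nlinarith [sq_nonneg r]
  · intro z _
    refine Or.inr ⟨Complex.exp (p.eval z), Complex.exp_ne_zero _, ?_⟩
    rw [smul_smul, ← Complex.exp_add]
    simp

end Pool.Agent.H17EF

end

section

/-!
# EF MainE: surfaces of general type with a map to an elliptic curve
-/

set_option autoImplicit false

open Topology Filter MvPolynomial Metric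

noncomputable section

namespace Pool.Agent.H17EF

attribute [-instance] ProperSMul.toContinuousSMul

open Pool.Agent.H17 (PN VanishesAt HolomorphicInto ZariskiClosedIn)
open Pool.Agent.H62.FC (Homog)
open Pool.Agent.H62.EF
open Pool.Agent.H17LG.Variety (FunField IsLogGeneralType)
open Pool.Agent.H13.SM (cone)
open Pool.Agent.H36.BP (EN fs wd OrdTwo)
open Pool.Agent.H14.PP (IsCone Chart Form)

variable {N : ℕ}

section core

variable {P : Ideal (MvPolynomial (Fin (N + 1)) ℂ)} [P.IsPrime] {z : Fin 2 → FunField P}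

/-- general type -/
def GT (P : Ideal (MvPolynomial (Fin (N + 1)) ℂ)) [P.IsPrime] (k : ℕ) : Prop :=
  IsLogGeneralType (K := FunField P) (k := k) (fun _ => False)

/-- the projection matrix of a point -/
def prP (x : PN N) : MN N := pr ((LE N) x.rep)

theorem prP_mk {x : Fin (N + 1) → ℂ} (hx : x ≠ 0) : prP (Projectivization.mk ℂ x hx) = pr ((LE N) x) := by
  obtain ⟨a, ha, h⟩ := Pool.Agent.H36.BP.rep_mk hx
  unfold prP
  rw [h, map_smul, pr_smul _ ha]

theorem LE_ne_zero {x : Fin (N + 1) → ℂ} (hx : x ≠ 0) : (LE N) x ≠ 0 := fun h => hx ((LE N).map_eq_zero_iff.1 h)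

theorem prP_injective : Function.Injective (prP (N := N)) := by
  intro x y h
  unfold prP at h
  obtain ⟨c, hc, h'⟩ := (pr_eq_iff (LE_ne_zero x.rep_nonzero) (LE_ne_zero y.rep_nonzero)).1 h
  rw [← map_smul] at h'
  have h1 := (LE N).injective h'
  rw [← x.mk_rep, ← y.mk_rep, Projectivization.mk_eq_mk_iff']
  exact ⟨c, h1.symm⟩

theorem mk_symm {F : EN N} (h : (LE N).symm F ≠ 0) : prP (Projectivization.mk ℂ ((LE N).symm F) h) = pr F := by
  rw [prP_mk, ContinuousLinearEquiv.apply_symm_apply]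

/-- orders for the two norms -/
theorem ordTwo_symm {F : ℂ → EN N} (h : OrdTwo F) : OrdTwo fun z => (LE N).symm (F z) := by
  set M : ℝ := max ‖((LE N : (Fin (N + 1) → ℂ) →L[ℂ] EN N))‖ 1 with hM
  have hM0 : 0 < M := lt_of_lt_of_le one_pos (le_max_right _ _)
  refine OrdTwo.map ((LE N).symm : EN N →L[ℂ] (Fin (N + 1) → ℂ)) h (c := M⁻¹) (inv_pos.mpr hM0) fun x => ?_
  rw [inv_mul_le_iff₀ hM0]
  have h1 := (LE N : (Fin (N + 1) → ℂ) →L[ℂ] EN N).le_opNorm ((LE N).symm x)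
  have h2 : (LE N : (Fin (N + 1) → ℂ) →L[ℂ] EN N) ((LE N).symm x) = x := (LE N).apply_symm_apply x
  rw [h2] at h1
  exact h1.trans (mul_le_mul_of_nonneg_right (le_max_left _ _) (norm_nonneg _))

end core

end Pool.Agent.H17EF

end
end

section

/-!
# Bir Main: the properties of the Green–Griffiths–Lang conjecture are birationally invariant

`bir_four`: let `P` and `P'` be homogeneous prime ideals whose function fields are isomorphic over `ℂ`.  If the variety of `P` has the properties of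
the conjecture (with an exceptional set `Ξ`), then so has the variety of `P'`.
-/

set_option autoImplicit false

open Topology Filter MvPolynomial

noncomputable section

namespace Pool.Agent.H7.Bir

open Pool.Agent.H17 (PN VanishesAt HolomorphicInto puncturedDisc vanishesAt_mk_iff ZariskiClosedIn)
open Pool.Agent.H17GT (coordFun)
open Pool.Agent.H17LG.Variety (FunField IsLogGeneralType)
open Pool.Agent.H62.FC (Homog)
open Pool.Agent.H17R (coordFun_ne_zero_iff)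
open Pool.Agent.H17EF (projVar)

variable {N M : ℕ}

/-- The properties of the conjecture for the closed subvariety of `ℙ^N` given by `P`, with the exceptional set `Ξ`. -/
structure GGL (P : Ideal (MvPolynomial (Fin (N + 1)) ℂ)) [P.IsPrime] (Ξ : Set (PN N)) : Prop where
  closed : ZariskiClosedIn (projVar P) Ξ
  proper : Ξ ≠ projVar P
  generalType : ∀ w, 1 ≤ w → (∃ z : Fin w → FunField P, IsTranscendenceBasis ℂ z) →
    IsLogGeneralType (K := FunField P) (k := w) fun _ => False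
  picard : ∀ f : ℂ → PN N, HolomorphicInto f puncturedDisc → (∀ z ∈ puncturedDisc, f z ∈ projVar P) →
    (∃ z ∈ puncturedDisc, f z ∉ Ξ) →
    ∃ g : ℂ → PN N, HolomorphicInto g (Metric.ball 0 1) ∧ ∀ z ∈ puncturedDisc, g z = f z
  brody : ∀ f : ℂ → PN N, HolomorphicInto f Set.univ → (∀ z, f z ∈ projVar P) → (∃ z w, f z ≠ f w) → ∀ z, f z ∈ Ξ
  strongly : ∀ (Q : Ideal (MvPolynomial (Fin (N + 1)) ℂ)) [Q.IsPrime], Homog Q → P ≤ Q → ¬ projVar Q ⊆ Ξ →
    ∀ w, 1 ≤ w → (∃ z : Fin w → FunField Q, IsTranscendenceBasis ℂ z) →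
      IsLogGeneralType (K := FunField Q) (k := w) fun _ => False

theorem punctured_open : IsOpen puncturedDisc := Metric.isOpen_ball.sdiff isClosed_singleton

/-- The value of a composed form. -/
theorem eval_comp (γ : Fin (N + 1) → MvPolynomial (Fin (M + 1)) ℂ) (R : MvPolynomial (Fin (N + 1)) ℂ) (x : Fin (M + 1) → ℂ) :
    eval x (aeval γ R) = eval (vals γ x) R := by
  have h1 := aeval_comp (K := ℂ) x γ R
  exact h1

/-- A form vanishes at the image of a point if and only if its composition with the rational map vanishes. -/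
theorem vanishesAt_rmap {γ : Fin (N + 1) → MvPolynomial (Fin (M + 1)) ℂ} {y : PN M} (hy : vals γ y.rep ≠ 0) {n : ℕ}
    {R : MvPolynomial (Fin (N + 1)) ℂ} (hR : R.IsHomogeneous n) : VanishesAt R (rmap γ y) ↔ VanishesAt (aeval γ R) y := by
  unfold rmap
  rw [dif_pos hy, vanishesAt_mk_iff hR]
  unfold VanishesAt
  rw [eval_comp]

section

variable {P : Ideal (MvPolynomial (Fin (N + 1)) ℂ)} {P' : Ideal (MvPolynomial (Fin (M + 1)) ℂ)} {D D' : ℕ}
  {α : Fin (M + 1) → MvPolynomial (Fin (N + 1)) ℂ} {γ : Fin (N + 1) → MvPolynomial (Fin (M + 1)) ℂ} {j : Fin (N + 1)}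
  {j' : Fin (M + 1)}

/-- The form whose zeros are removed. -/
def badForm (α : Fin (M + 1) → MvPolynomial (Fin (N + 1)) ℂ) (γ : Fin (N + 1) → MvPolynomial (Fin (M + 1)) ℂ) (j : Fin (N + 1))
    (j' : Fin (M + 1)) : MvPolynomial (Fin (M + 1)) ℂ := X j' * (γ j * aeval γ (α j'))

theorem not_bad_iff {y : PN M} : ¬ VanishesAt (badForm α γ j j') y ↔
    ¬ VanishesAt (X j') y ∧ ¬ VanishesAt (γ j) y ∧ ¬ VanishesAt (aeval γ (α j')) y := by
  unfold badForm VanishesAt
  rw [map_mul, map_mul, mul_eq_zero, mul_eq_zero, not_or, not_or]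

theorem IsBir.bad_homog (h : IsBir P P' D D' α γ j j') : (badForm α γ j j').IsHomogeneous (1 + (D' + D' * D)) :=
  (isHomogeneous_X ℂ j').mul ((h.homγ j).mul ((h.homα j').aeval γ h.homγ))

/-- The image of a point. -/
theorem IsBir.mem (h : IsBir P P' D D' α γ j j') {y : PN M} (hy : y ∈ projVar P') (hv : vals γ y.rep ≠ 0) : rmap γ y ∈ projVar P := by
  intro R hR n hRn
  rw [vanishesAt_rmap hv hRn]
  exact hy _ ((h.maps n R hRn).2 hR) _ (hRn.aeval γ h.homγ)

/-- The two rational maps are inverse to each other. -/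
theorem IsBir.comp_eq (h : IsBir P P' D D' α γ j j') {y : PN M} (hy : y ∈ projVar P') (hb : ¬ VanishesAt (badForm α γ j j') y) :
    vals γ y.rep ≠ 0 ∧ vals α (rmap γ y).rep ≠ 0 ∧ rmap α (rmap γ y) = y := by
  obtain ⟨h1, h2, h3⟩ := not_bad_iff.1 hb
  have hv : vals γ y.rep ≠ 0 := fun h0 => h2 (congrFun h0 j)
  have hc : vals α (vals γ y.rep) ≠ 0 := by
    intro h0
    apply h3
    unfold VanishesAt
    rw [eval_comp]
    exact congrFun h0 j'
  have hα : vals α (rmap γ y).rep ≠ 0 := by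
    intro h0
    have h4 : VanishesAt (α j') (rmap γ y) := congrFun h0 j'
    rw [vanishesAt_rmap hv (h.homα j')] at h4
    exact h3 h4
  refine ⟨hv, hα, ?_⟩
  have h5 : rmap γ y = Projectivization.mk ℂ (vals γ y.rep) hv := by
    unfold rmap
    rw [dif_pos hv]
  rw [h5, rmap_mk h.homα hv hc]
  conv_rhs => rw [← y.mk_rep]
  rw [Projectivization.mk_eq_mk_iff']
  have h6 : eval y.rep (aeval γ (α j')) ≠ 0 := h3
  have h7 : eval y.rep (X j') ≠ 0 := h1
  rw [eval_X] at h7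
  refine ⟨eval y.rep (aeval γ (α j')) / y.rep j', ?_⟩
  funext i
  have h8 := hy _ (h.inv i) (D' * D + 1) ((((h.homα i).aeval γ h.homγ).mul (isHomogeneous_X ℂ j')).sub
    (((h.homα j').aeval γ h.homγ).mul (isHomogeneous_X ℂ i)))
  unfold VanishesAt at h8
  rw [map_sub, map_mul, map_mul, eval_X, eval_X] at h8
  change eval y.rep (aeval γ (α j')) / y.rep j' * y.rep i = eval (vals γ y.rep) (α i)
  rw [← eval_comp]
  field_simp
  linear_combination -h8

/-- Holomorphic maps to the variety of `P'`: the composition with the rational map. -/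
theorem IsBir.lift (h : IsBir P P' D D' α γ j j') {f : ℂ → PN M} {U : Set ℂ} (hUo : IsOpen U) (hUc : IsPreconnected U)
    (hf : HolomorphicInto f U) (hfX : ∀ z ∈ U, f z ∈ projVar P') {z₀ : ℂ} (hz₀ : z₀ ∈ U)
    (hb : ¬ VanishesAt (badForm α γ j j') (f z₀)) :
    ∃ g : ℂ → PN N, HolomorphicInto g U ∧ (∀ z ∈ U, g z ∈ projVar P) ∧ g z₀ = rmap γ (f z₀) ∧
      ∀ᶠ z in 𝓝 z₀, vals α (g z).rep ≠ 0 ∧ rmap α (g z) = f z := by
  obtain ⟨h1, h2, h3⟩ := not_bad_iff.1 hb
  obtain ⟨g, hg, hg1, -⟩ := exists_comp h.homγ hUo hUc hf hz₀ h2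
  have hnear : ∀ᶠ z in 𝓝 z₀, z ∈ U ∧ ¬ VanishesAt (badForm α γ j j') (f z) := by
    obtain ⟨φ, hφ, he⟩ := hf z₀ hz₀
    have hcont : ContinuousAt (fun z => eval (φ z) (badForm α γ j j')) z₀ := by
      have h4 : AnalyticAt ℂ (fun w => MvPolynomial.aeval (φ w) (badForm α γ j j')) z₀ :=
        AnalyticAt.aeval_mvPolynomial (fun i => analyticAt_pi_iff.mp hφ i) _
      exact h4.continuousAt
    have h0 : eval (φ z₀) (badForm α γ j j') ≠ 0 := by
      obtain ⟨h4, h5⟩ := he.self_of_nhds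
      rw [h5, vanishesAt_mk_iff h.bad_homog] at hb
      exact hb
    filter_upwards [hUo.mem_nhds hz₀, he, hcont.eventually_ne h0] with z hz h4 h5
    refine ⟨hz, ?_⟩
    obtain ⟨h6, h7⟩ := h4
    rw [h7, vanishesAt_mk_iff h.bad_homog]
    exact h5
  have hnear2 : ∀ᶠ z in 𝓝 z₀, g z = rmap γ (f z) ∧ vals γ (f z).rep ≠ 0 ∧ vals α (rmap γ (f z)).rep ≠ 0 ∧
      rmap α (rmap γ (f z)) = f z := by
    filter_upwards [hnear] with z hz
    obtain ⟨h4, h5, h6⟩ := h.comp_eq (hfX z hz.1) hz.2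
    exact ⟨hg1 z hz.1 h4, h4, h5, h6⟩
  refine ⟨g, hg, ?_, hnear2.self_of_nhds.1, ?_⟩
  · have h4 := Pool.Agent.H36.BP.vanish_identity hUc hg (S := {R | R ∈ P ∧ ∃ n, R.IsHomogeneous n}) (fun R hR => hR.2) hz₀ (by
      filter_upwards [hnear, hnear2] with z hz hz2 R hR
      obtain ⟨hRP, n, hRn⟩ := hR
      rw [hz2.1]
      exact h.mem (hfX z hz.1) hz2.2.1 R hRP n hRn)
    intro z hz R hR n hRn
    exact h4 z hz R ⟨hR, n, hRn⟩
  · filter_upwards [hnear2] with z hz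
    rw [hz.1]
    exact ⟨hz.2.2.1, hz.2.2.2⟩

end

/-- **Birational invariance.** -/
theorem bir_four {P : Ideal (MvPolynomial (Fin (N + 1)) ℂ)} [P.IsPrime] (hP : Homog P)
    (hdim : ∃ (w : ℕ) (z : Fin (w + 1) → FunField P), IsTranscendenceBasis ℂ z)
    {P' : Ideal (MvPolynomial (Fin (M + 1)) ℂ)} [hPp' : P'.IsPrime] (hP' : Homog P') (e : FunField P' ≃ₐ[ℂ] FunField P)
    {Ξ : Set (PN N)} (hΞ : GGL P Ξ) : ∃ Ξ' : Set (PN M), GGL P' Ξ' := by
  obtain ⟨w, z, hz⟩ := hdim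
  obtain ⟨i, hi⟩ := Pool.Agent.H92.GT.Proj.exists_coordFun_ne_zero P z hz
  obtain ⟨i', hi'⟩ := Pool.Agent.H92.GT.Proj.exists_coordFun_ne_zero P' (e.symm ∘ z) (e.symm.isTranscendenceBasis hz)
  obtain ⟨D, D', α, γ, h⟩ := exists_isBir e hi hi'
  obtain ⟨S, hS, hSΞ⟩ := hΞ.closed
  set b : MvPolynomial (Fin (M + 1)) ℂ := badForm α γ i i' with hb
  have hbP : b ∉ P' := by
    intro hcon
    rcases hPp'.mem_or_mem hcon with h1 | h1
    · exact h.hj' h1
    · rcases hPp'.mem_or_mem h1 with h2 | h2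
      · exact h.hγ h2
      · exact h.hα h2
  set S' : Set (MvPolynomial (Fin (M + 1)) ℂ) := {R | ∃ T ∈ S, R = b * aeval γ T} with hS'
  have hS'hom : ∀ R ∈ S', ∃ n, R.IsHomogeneous n := by
    rintro R ⟨T, hT, rfl⟩
    obtain ⟨n, hn⟩ := hS T hT
    exact ⟨_, h.bad_homog.mul (hn.aeval γ h.homγ)⟩
  set Ξ' : Set (PN M) := {y | y ∈ projVar P' ∧ ∀ R ∈ S', VanishesAt R y} with hΞ'
  -- points outside of the exceptional set
  have key : ∀ y ∈ projVar P', y ∉ Ξ' → ¬ VanishesAt b y ∧ rmap γ y ∉ Ξ := by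
    intro y hy hyΞ
    obtain ⟨R, ⟨T, hT, rfl⟩, hR⟩ : ∃ R ∈ S', ¬ VanishesAt R y := by
      by_contra hcon
      push Not at hcon
      exact hyΞ ⟨hy, hcon⟩
    unfold VanishesAt at hR
    rw [map_mul, mul_eq_zero, not_or] at hR
    refine ⟨hR.1, fun hmem => hR.2 ?_⟩
    obtain ⟨n, hn⟩ := hS T hT
    obtain ⟨hv, -, -⟩ := h.comp_eq hy hR.1
    rw [hSΞ] at hmem
    exact (vanishesAt_rmap hv hn).1 (hmem.2 T hT)
  have hcoordP' : ∃ i, (X i : MvPolynomial (Fin (M + 1)) ℂ) ∉ P' := ⟨i', h.hj'⟩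
  refine ⟨Ξ', ⟨S', hS'hom, rfl⟩, ?_, ?_, ?_, ?_, ?_⟩
  · -- proper
    intro heq
    obtain ⟨x, hx, hxΞ⟩ : ∃ x ∈ projVar P, x ∉ Ξ := by
      by_contra hcon
      push Not at hcon
      apply hΞ.proper
      apply Set.Subset.antisymm
      · rw [hSΞ]
        exact fun x hx => hx.1
      · exact hcon
    obtain ⟨T, hT, hTx⟩ : ∃ T ∈ S, ¬ VanishesAt T x := by
      by_contra hcon
      push Not at hcon
      apply hxΞ
      rw [hSΞ]
      exact ⟨hx, hcon⟩
    obtain ⟨n, hn⟩ := hS T hT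
    have hTP : T ∉ P := fun h1 => hTx (hx T h1 n hn)
    have h1 : b * aeval γ T ∉ P' := by
      intro hcon
      rcases hPp'.mem_or_mem hcon with h2 | h2
      · exact hbP h2
      · exact hTP ((h.maps n T hn).1 h2)
    obtain ⟨y, hy, hyb⟩ := Pool.Agent.H17EF.exists_point hP' hcoordP' h1 (h.bad_homog.mul (hn.aeval γ h.homγ))
    rw [← heq] at hy
    exact hyb (hy.2 _ ⟨T, hT, rfl⟩)
  · -- general type
    intro w hw hzw
    obtain ⟨z', hz'⟩ := hzw
    exact isGT_of_equiv e.symm (hΞ.generalType w hw ⟨e ∘ z', e.isTranscendenceBasis hz'⟩)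
  · -- Picard
    rintro f hf hfX ⟨z₀, hz₀, hfz₀⟩
    obtain ⟨h1, h2⟩ := key _ (hfX z₀ hz₀) hfz₀
    obtain ⟨g, hg, hgX, hg0, hgn⟩ := h.lift punctured_open Pool.Agent.H36.BP.preconnected_puncturedDisc hf hfX hz₀ h1
    obtain ⟨G, hG, hGg⟩ := hΞ.picard g hg hgX ⟨z₀, hz₀, by rw [hg0]; exact h2⟩
    have hz₀' : z₀ ∈ Metric.ball (0 : ℂ) 1 := hz₀.1
    obtain ⟨k, hk⟩ : ∃ k, ¬ VanishesAt (α k) (G z₀) := by
      by_contra hcon
      push Not at hcon
      rw [hGg z₀ hz₀] at hcon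
      exact hgn.self_of_nhds.1 (funext hcon)
    obtain ⟨F, hF, hF1, -⟩ := exists_comp h.homα Metric.isOpen_ball (convex_ball (0 : ℂ) 1).isPreconnected hG hz₀' hk
    refine ⟨F, hF, ?_⟩
    refine pn_identity Pool.Agent.H36.BP.preconnected_puncturedDisc (fun z hz => hF z hz.1) hf hz₀ ?_
    filter_upwards [hgn, punctured_open.mem_nhds hz₀] with z h3 h4
    rw [hF1 z h4.1 (by rw [hGg z h4]; exact h3.1), hGg z h4, h3.2]
  · -- Brody
    intro f hf hfX hne z₀
    by_contra hfz₀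
    obtain ⟨h1, h2⟩ := key _ (hfX z₀) hfz₀
    obtain ⟨g, hg, hgX, hg0, hgn⟩ := h.lift isOpen_univ isPreconnected_univ hf (fun z _ => hfX z) (Set.mem_univ z₀) h1
    have hconst : ∀ z w, g z = g w := by
      by_contra hcon
      push Not at hcon
      have h3 := hΞ.brody g hg (fun z => hgX z (Set.mem_univ z)) hcon z₀
      rw [hg0] at h3
      exact h2 h3
    have h3 : ∀ᶠ z in 𝓝 z₀, f z = (fun _ => f z₀) z := by
      filter_upwards [hgn] with z h4
      rw [← h4.2, hconst z z₀, hgn.self_of_nhds.2]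
    have hc : HolomorphicInto (fun _ : ℂ => f z₀) Set.univ := by
      intro z _
      exact ⟨fun _ => (f z₀).rep, analyticAt_const, Eventually.of_forall fun _ => ⟨(f z₀).rep_nonzero, (f z₀).mk_rep.symm⟩⟩
    have h4 := pn_identity isPreconnected_univ hf hc (Set.mem_univ z₀) h3
    obtain ⟨z, w, hzw⟩ := hne
    exact hzw ((h4 z (Set.mem_univ z)).trans (h4 w (Set.mem_univ w)).symm)
  · -- strongly
    intro Q' _ hQ' hPQ hsub w hw hzw
    obtain ⟨y, hyQ, hyΞ⟩ := Set.not_subset.1 hsub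
    have hyP : y ∈ projVar P' := fun R hR n hRn => hyQ R (hPQ hR) n hRn
    obtain ⟨h1, h2⟩ := key y hyP hyΞ
    obtain ⟨h3, h4, h5⟩ := not_bad_iff.1 h1
    obtain ⟨hv, -, -⟩ := h.comp_eq hyP h1
    obtain ⟨Q, hQp, hQ, hPQ', ⟨e'⟩, hmem⟩ := exists_sub hP h hPQ (fun hc => h3 (hyQ _ hc _ (isHomogeneous_X ℂ i')))
      (fun hc => h4 (hyQ _ hc _ (h.homγ i))) (fun hc => h5 (hyQ _ hc _ ((h.homα i').aeval γ h.homγ)))
    obtain ⟨z', hz'⟩ := hzw
    refine isGT_of_equiv e' (hΞ.strongly Q hQ hPQ' ?_ w hw ⟨e'.symm ∘ z', e'.symm.isTranscendenceBasis hz'⟩)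
    intro hcon
    apply h2
    apply hcon
    intro R hR n hRn
    rw [vanishesAt_rmap hv hRn]
    exact hyQ _ ((hmem n R hRn).1 hR) _ (hRn.aeval γ h.homγ)

end Pool.Agent.H7.Bir

end
end

section

/-!
# Qup Defs: dominant regular maps of quasi-projective varieties
-/

set_option autoImplicit false

open Topology Filter MvPolynomial

noncomputable section

namespace Pool.Agent.H7.Qup

open Pool.Agent.H17 (PN VanishesAt)
open Pool.Agent.H62.FC (Homog)
open Pool.Agent.H62.SA (locVar)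
open Pool.Agent.H7.Bir (vals rmap vals_smul mem_of_open)

variable {N M : ℕ}

/-- `p` is a dominant regular map from the quasi-projective variety `U' = locVar P' G'` to the quasi-projective variety `U = locVar P G`. -/
structure IsDominantMap (P : Ideal (MvPolynomial (Fin (N + 1)) ℂ)) (P' : Ideal (MvPolynomial (Fin (M + 1)) ℂ)) {s s' : ℕ}
    (G : Fin s → MvPolynomial (Fin (N + 1)) ℂ) (G' : Fin s' → MvPolynomial (Fin (M + 1)) ℂ) (p : PN M → PN N) : Prop where
  /-- `p` maps `U'` into `U` -/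
  maps : ∀ y ∈ locVar P' G', p y ∈ locVar P G
  /-- near every point of `U'` the map `p` is given by forms of the same degree -/
  regular : ∀ y ∈ locVar P' G', ∃ (D : ℕ) (γ : Fin (N + 1) → MvPolynomial (Fin (M + 1)) ℂ), (∀ i, (γ i).IsHomogeneous D) ∧
    vals γ y.rep ≠ 0 ∧ ∀ y' ∈ locVar P' G', vals γ y'.rep ≠ 0 → p y' = rmap γ y'
  /-- the image is Zariski dense -/
  dense : ∀ (Q : MvPolynomial (Fin (N + 1)) ℂ) (n : ℕ), Q.IsHomogeneous n → (∀ y ∈ locVar P' G', VanishesAt Q (p y)) → Q ∈ P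

variable {P : Ideal (MvPolynomial (Fin (N + 1)) ℂ)} {P' : Ideal (MvPolynomial (Fin (M + 1)) ℂ)} {s s' : ℕ}
  {G : Fin s → MvPolynomial (Fin (N + 1)) ℂ} {G' : Fin s' → MvPolynomial (Fin (M + 1)) ℂ} {p : PN M → PN N}

/-- The forms `γ i` represent `p` on `U'`. -/
structure Rep (P' : Ideal (MvPolynomial (Fin (M + 1)) ℂ)) (G' : Fin s' → MvPolynomial (Fin (M + 1)) ℂ) (p : PN M → PN N) (D : ℕ)
    (γ : Fin (N + 1) → MvPolynomial (Fin (M + 1)) ℂ) : Prop where
  hom : ∀ i, (γ i).IsHomogeneous D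
  rep : ∀ y ∈ locVar P' G', vals γ y.rep ≠ 0 → p y = rmap γ y

theorem IsDominantMap.exists_rep (hp : IsDominantMap P P' G G' p) {y : PN M} (hy : y ∈ locVar P' G') :
    ∃ (D : ℕ) (γ : Fin (N + 1) → MvPolynomial (Fin (M + 1)) ℂ), Rep P' G' p D γ ∧ vals γ y.rep ≠ 0 := by
  obtain ⟨D, γ, h1, h2, h3⟩ := hp.regular y hy
  exact ⟨D, γ, ⟨h1, h3⟩, h2⟩

theorem aeval_homog {γ : Fin (N + 1) → MvPolynomial (Fin (M + 1)) ℂ} {D : ℕ} (hγ : ∀ i, (γ i).IsHomogeneous D) {n : ℕ}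
    {Q : MvPolynomial (Fin (N + 1)) ℂ} (hQ : Q.IsHomogeneous n) : (aeval γ Q).IsHomogeneous (D * n) :=
  hQ.aeval _ hγ

theorem eval_smul {n : ℕ} {Q : MvPolynomial (Fin (N + 1)) ℂ} (hQ : Q.IsHomogeneous n) (c : ℂ) (x : Fin (N + 1) → ℂ) :
    eval (c • x) Q = c ^ n * eval x Q :=
  Pool.Agent.H17BP.eval_smul_form hQ c x

/-- Two systems of forms which represent `p` are proportional at every point. -/
theorem Rep.prop {D D' : ℕ} {γ γ' : Fin (N + 1) → MvPolynomial (Fin (M + 1)) ℂ} (h : Rep P' G' p D γ) (h' : Rep P' G' p D' γ')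
    {y : PN M} (hy : y ∈ locVar P' G') (i j : Fin (N + 1)) :
    eval y.rep (γ i) * eval y.rep (γ' j) = eval y.rep (γ j) * eval y.rep (γ' i) := by
  by_cases h1 : vals γ y.rep = 0
  · have h2 : ∀ i, eval y.rep (γ i) = 0 := fun i => congrFun h1 i
    rw [h2 i, h2 j]
    ring
  by_cases h3 : vals γ' y.rep = 0
  · have h2 : ∀ i, eval y.rep (γ' i) = 0 := fun i => congrFun h3 i
    rw [h2 i, h2 j]
    ring
  have h4 : rmap γ y = rmap γ' y := by
    rw [← h.rep y hy h1, ← h'.rep y hy h3]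
  unfold Pool.Agent.H7.Bir.rmap at h4
  rw [dif_pos h1, dif_pos h3, Projectivization.mk_eq_mk_iff'] at h4
  obtain ⟨a, ha⟩ := h4
  have h5 : ∀ i, eval y.rep (γ i) = a * eval y.rep (γ' i) := fun i => (congrFun ha i).symm
  rw [h5 i, h5 j]
  ring

/-- The value of a form at the image of a point. -/
theorem Rep.vanishes_iff {D : ℕ} {γ : Fin (N + 1) → MvPolynomial (Fin (M + 1)) ℂ} (h : Rep P' G' p D γ) {y : PN M} (hy : y ∈ locVar P' G')
    (hv : vals γ y.rep ≠ 0) {n : ℕ} {Q : MvPolynomial (Fin (N + 1)) ℂ} (hQ : Q.IsHomogeneous n) :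
    VanishesAt Q (p y) ↔ eval y.rep (aeval γ Q) = 0 := by
  rw [h.rep y hy hv, Pool.Agent.H7.Bir.vanishesAt_rmap hv hQ]
  rfl

/-- The forms which represent `p` define a dominant rational map. -/
theorem IsDominantMap.maps_iff [P.IsPrime] [P'.IsPrime] (hp : IsDominantMap P P' G G' p) (hP' : Homog P')
    (hG' : ∀ m, ∃ n, (G' m).IsHomogeneous n) {D : ℕ} {γ : Fin (N + 1) → MvPolynomial (Fin (M + 1)) ℂ} (hγ : Rep P' G' p D γ)
    (hne : ∃ y ∈ locVar P' G', vals γ y.rep ≠ 0) (n : ℕ) (Q : MvPolynomial (Fin (N + 1)) ℂ) (hQ : Q.IsHomogeneous n) :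
    aeval γ Q ∈ P' ↔ Q ∈ P := by
  obtain ⟨y₀, hy₀, hne⟩ := hne
  have hnon : (locVar P' G').Nonempty := ⟨y₀, hy₀⟩
  constructor
  · intro h
    refine hp.dense Q n hQ fun y' hy' => ?_
    obtain ⟨D', γ', hγ', hne'⟩ := hp.exists_rep hy'
    rw [hγ'.vanishes_iff hy' hne' hQ]
    obtain ⟨j, hj⟩ : ∃ j, eval y₀.rep (γ j) ≠ 0 := by
      by_contra hcon
      push Not at hcon
      exact hne (funext hcon)
    have hjP : γ j ∉ P' := fun h1 => hj (hy₀.1 _ h1 D (hγ.hom j))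
    have hmem : γ j ^ n * aeval γ' Q ∈ P' := by
      refine mem_of_open hP' hG' hnon (((hγ.hom j).pow n).mul (aeval_homog hγ'.hom hQ)) fun y hy => ?_
      have h3 : eval y.rep (aeval γ Q) = 0 := hy.1 _ h _ (aeval_homog hγ.hom hQ)
      unfold VanishesAt
      rw [map_mul, map_pow, Pool.Agent.H7.Bir.eval_comp, ← eval_smul hQ]
      have h4 : eval y.rep (γ j) • vals γ' y.rep = eval y.rep (γ' j) • vals γ y.rep := by
        funext i
        have h5 := hγ.prop hγ' hy j i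
        change eval y.rep (γ j) * eval y.rep (γ' i) = eval y.rep (γ' j) * eval y.rep (γ i)
        rw [h5, mul_comm]
      rw [h4, eval_smul hQ, ← Pool.Agent.H7.Bir.eval_comp, h3, mul_zero]
    rcases Ideal.IsPrime.mem_or_mem inferInstance hmem with h1 | h1
    · exact absurd (Ideal.IsPrime.mem_of_pow_mem inferInstance n h1) hjP
    · exact hy'.1 _ h1 _ (aeval_homog hγ'.hom hQ)
  · intro h
    refine mem_of_open hP' hG' hnon (aeval_homog hγ.hom hQ) fun y hy => ?_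
    have h2 : eval (p y).rep Q = 0 := (hp.maps y hy).1 Q h n hQ
    by_cases h1 : vals γ y.rep = 0
    · unfold VanishesAt
      rw [Pool.Agent.H7.Bir.eval_comp, h1]
      have h3 := eval_smul hQ 0 (p y).rep
      rw [zero_smul, h2, mul_zero] at h3
      exact h3
    · exact (hγ.vanishes_iff hy h1 hQ).1 h2

end Pool.Agent.H7.Qup

end
end

section

/-!
# V MainV: entire curves in surfaces of general type, in the projective space
-/

set_option autoImplicit false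

open Topology Filter MvPolynomial Metric

noncomputable section

namespace Pool.Agent.H14.V

open Pool.Agent.H17 (PN VanishesAt HolomorphicInto ZariskiClosedIn puncturedDisc)
open Pool.Agent.H62.FC (Homog)
open Pool.Agent.H17BP (Surface IsForm)
open Pool.Agent.H17LG.Variety (FunField IsLogGeneralType)
open Pool.Agent.H13.SM (cone)
open Pool.Agent.H36.BP (EN fs wd OrdTwo)
open Pool.Agent.H14.PP (IsCone Chart Form)
open Pool.Agent.H13.OT (OrderTwo)
open Pool.Agent.H17EF (projVar coneE LE GT prP prP_injective mk_symm mk_mem_projVar)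
open Pool.Agent.H62.EF (MN pr Charts)
open Pool.Agent.H92.TH (SymDiff)

variable {N : ℕ}

/-- `F` is an entire map to `ℂ^(N+1)` without zeros which represents `f`. -/
def IsLift (F : ℂ → EuclideanSpace ℂ (Fin (N + 1))) (f : ℂ → PN N) : Prop :=
  Differentiable ℂ F ∧ ∀ z, ∃ h : (F z).ofLp ≠ 0, f z = Projectivization.mk ℂ (F z).ofLp h

/-- The entire curve `f` is tangent to the symmetric differential `θ`. -/
def TangentTo {X : Set (EN N)} {m : ℕ} (θ : SymDiff X m) (f : ℂ → PN N) : Prop :=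
  ∃ F, IsLift F f ∧ ∀ z, θ.toFun (F z) (deriv F z) = 0

theorem IsLift.ne_zero {F : ℂ → EN N} {f : ℂ → PN N} (h : IsLift F f) (z : ℂ) : F z ≠ 0 := by
  obtain ⟨h1, -⟩ := h.2 z
  exact fun h2 => h1 (by rw [h2]; rfl)

theorem IsLift.prP {F : ℂ → EN N} {f : ℂ → PN N} (h : IsLift F f) (z : ℂ) : prP (f z) = pr (F z) := by
  obtain ⟨h1, h2⟩ := h.2 z
  rw [h2]
  exact mk_symm (F := F z) h1

variable {P : Ideal (MvPolynomial (Fin (N + 1)) ℂ)} 

/-- curves with bounded derivative have order at most two -/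
theorem orderTwo_of {F : ℂ → EN N} {f : ℂ → PN N} (h : IsLift F f) {L : ℝ} (hL : ∀ z, fs (F z) (deriv F z) ≤ L) : OrderTwo f := by
  have h1 : OrdTwo fun z => (LE N).symm (F z) := Pool.Agent.H17EF.ordTwo_symm (Pool.Agent.H17EF.ordTwo_of_fs h.1 h.ne_zero hL)
  have h2 : Differentiable ℂ fun z => (LE N).symm (F z) := (LE N).symm.differentiable.comp h.1
  have h3 : ∀ z, (LE N).symm (F z) ≠ 0 := fun z => (h.2 z).1
  have h4 : ∀ z, Pool.Agent.H17BP.HolP (fun z => (LE N).symm (F z)) z := by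
    intro z
    exact ⟨fun z => (LE N).symm (F z), h2.analyticAt z, h3 z, Eventually.of_forall fun w => ⟨1, one_ne_zero, by simp⟩⟩
  have h5 := Pool.Agent.H13.OT.OrdTwo.orderTwo h3 h4 h1
  have h6 : f = fun z => Projectivization.mk ℂ ((LE N).symm (F z)) (h3 z) := by
    funext z
    exact (h.2 z).2
  rw [h6]
  exact h5

end Pool.Agent.H14.V

end
end

section

/-!
# TH Bas: basic properties of symmetric differentials

`tC θ χ` is the expression of `θ` in the chart `χ`; `SymDiff.curve` is the value of `θ` on the derivative of a curve, `SymDiff.lift_eq` says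
that it does not depend on the lift, `SymDiff.curve_an` that it is holomorphic, and `SymDiff.bound` compares `θ` with the metric `fs`.
-/

set_option autoImplicit false

open Topology Filter Metric

namespace Pool.Agent.H92.TH

open Pool.Agent.H36.BP (EN fs wd)
open Pool.Agent.H14.PP (IsCone Chart Form Tan CurveAt IsOpenPart)
open Pool.Agent.H62.EF (Charts)

variable {N : ℕ} {X : Set (EN N)} {m : ℕ}

theorem isOpenPart_self (hX : IsCone X) : IsOpenPart X X :=
  ⟨subset_rfl, hX.smul_mem, fun _ _ => Eventually.of_forall fun _ h => h⟩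

theorem tan_smul (hX : IsCone X) {x v : EN N} (h : Tan X x v) {c : ℂ} (hc : c ≠ 0) : Tan X (c • x) (c • v) := by
  obtain ⟨F, ⟨hF, hFX⟩, h0, hd⟩ := h
  have hcF : AnalyticAt ℂ (fun z => c • F z) 0 := by fun_prop
  refine ⟨fun z => c • F z, ⟨hcF, ?_⟩, ?_, ?_⟩
  · filter_upwards [hFX] with z hz
    exact hX.smul_mem _ hz c hc
  · simp only [h0]
  · have h1 := hF.differentiableAt.hasDerivAt.const_smul c
    have h2 : deriv (fun z => c • F z) 0 = c • deriv F 0 := h1.deriv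
    rw [h2, hd]

theorem tan_mem {x v : EN N} (h : Tan X x v) : x ∈ X := by
  obtain ⟨F, hF, h0, _⟩ := h
  rw [← h0]
  exact hF.2.self_of_nhds

theorem tan_sigma (hX : IsCone X) (χ : Chart X) {p : ℂ × ℂ} (hp : p ∈ ball (0 : ℂ × ℂ) 2) (w : ℂ × ℂ) :
    Tan X (χ.σ p) (fderiv ℂ χ.σ p w) :=
  χ.tan (isOpenPart_self hX) hp (χ.σ_mem p hp).1 w

/-- The expression of the differential in a chart. -/
noncomputable def tC (θ : SymDiff X m) (χ : Chart X) (y : (ℂ × ℂ) × (ℂ × ℂ)) : ℂ := θ.toFun (χ.σ y.1) (fderiv ℂ χ.σ y.1 y.2)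

theorem tC_an (θ : SymDiff X m) (χ : Chart X) {p : ℂ × ℂ} (hp : p ∈ ball (0 : ℂ × ℂ) 2) (w : ℂ × ℂ) :
    AnalyticAt ℂ (tC θ χ) (p, w) := by
  refine θ.analytic χ.σ p w (χ.σ_an p hp) ?_
  filter_upwards [isOpen_ball.mem_nhds hp] with y hy
  exact (χ.σ_mem y hy).1

theorem tC_smul (hX : IsCone X) (θ : SymDiff X m) (χ : Chart X) {p : ℂ × ℂ} (hp : p ∈ ball (0 : ℂ × ℂ) 2) (a : ℂ) (w : ℂ × ℂ) :
    tC θ χ (p, a • w) = a ^ m * tC θ χ (p, w) := by
  unfold tC
  simp only [map_smul]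
  exact θ.smul _ (χ.σ_mem p hp).1 _ (tan_sigma hX χ hp w) a

/-- The value of `θ` on the derivative of a curve. -/
theorem SymDiff.curve (hX : IsCone X) (θ : SymDiff X m) (χ : Chart X) {F : ℂ → EN N} {z₀ : ℂ} (hF : CurveAt X F z₀) (hU : F z₀ ∈ χ.U) :
    θ.toFun (F z₀) (deriv F z₀) = tC θ χ (χ.q (F z₀), deriv (fun z => χ.q (F z)) z₀) := by
  obtain ⟨hq, _, c, hc, hc0, hev⟩ := χ.curve hX hF hU
  have hp : χ.q (F z₀) ∈ ball (0 : ℂ × ℂ) 2 := hev.self_of_nhds.1
  have hF0 : F z₀ = c z₀ • χ.σ (χ.q (F z₀)) := hev.self_of_nhds.2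
  have h1 : HasDerivAt (fun z => χ.σ (χ.q (F z))) (fderiv ℂ χ.σ (χ.q (F z₀)) (deriv (fun z => χ.q (F z)) z₀)) z₀ :=
    (χ.σ_an _ hp).differentiableAt.hasFDerivAt.comp_hasDerivAt z₀ hq.differentiableAt.hasDerivAt
  have h2 : HasDerivAt (fun z => c z • χ.σ (χ.q (F z))) (c z₀ • fderiv ℂ χ.σ (χ.q (F z₀)) (deriv (fun z => χ.q (F z)) z₀) +
      deriv c z₀ • χ.σ (χ.q (F z₀))) z₀ := hc.differentiableAt.hasDerivAt.smul h1
  have h3 : F =ᶠ[𝓝 z₀] fun z => c z • χ.σ (χ.q (F z)) := by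
    filter_upwards [hev] with z hz
    exact hz.2
  have h4 : deriv F z₀ = c z₀ • fderiv ℂ χ.σ (χ.q (F z₀)) (deriv (fun z => χ.q (F z)) z₀) +
      (deriv c z₀ * (c z₀)⁻¹) • (c z₀ • χ.σ (χ.q (F z₀))) := by
    rw [h3.deriv_eq, h2.deriv, smul_smul, mul_assoc, inv_mul_cancel₀ hc0, mul_one]
  have ht := tan_sigma hX χ hp (deriv (fun z => χ.q (F z)) z₀)
  have hm := (χ.σ_mem _ hp).1
  unfold tC
  simp only
  generalize χ.q (F z₀) = p at hp hF0 h4 ht hm ⊢
  generalize deriv (fun z => χ.q (F z)) z₀ = w at h4 ht ⊢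
  rw [h4, hF0, θ.add_smul _ (hX.smul_mem _ hm _ hc0) _ (tan_smul hX ht hc0), θ.scale _ hm _ ht _ hc0]

/-- The value of `θ` on a tangent vector. -/
theorem SymDiff.eq_tC (hX : IsCone X) (θ : SymDiff X m) (χ : Chart X) {x v : EN N} (h : Tan X x v) (hU : x ∈ χ.U) :
    θ.toFun x v = tC θ χ (χ.q x, fderiv ℂ χ.q x v) := by
  obtain ⟨F, hF, h0, hd⟩ := h
  subst h0 hd
  rw [SymDiff.curve hX θ χ hF hU, (χ.curve hX hF hU).2.1]

theorem fs_scale {x : EN N} (hx : x ≠ 0) (v : EN N) {c : ℂ} (hc : c ≠ 0) : fs (c • x) (c • v) = fs x v := by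
  have h := Pool.Agent.H36.BP.fs_inv hx v hc 0
  rwa [zero_smul, add_zero] at h

/-- The local bound. -/
theorem SymDiff.bound_chart (hX : IsCone X) (θ : SymDiff X m) (χ : Chart X) :
    ∃ C : ℝ, 0 < C ∧ ∀ x ∈ X, x ∈ χ.U → ‖χ.q x‖ ≤ 1 → ∀ v, Tan X x v → ‖θ.toFun x v‖ ≤ C * fs x v ^ m := by
  obtain ⟨C₂, hC₂, h2, _⟩ := χ.exists_fs_bound hX
  have hsub : closedBall (0 : ℂ × ℂ) 1 ⊆ ball (0 : ℂ × ℂ) 2 := closedBall_subset_ball (by norm_num)
  have hcomp : IsCompact (closedBall (0 : ℂ × ℂ) 1 ×ˢ closedBall (0 : ℂ × ℂ) 1) :=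
    (isCompact_closedBall _ _).prod (isCompact_closedBall _ _)
  obtain ⟨C₁, hC₁⟩ := hcomp.exists_bound_of_continuousOn (f := tC θ χ) (by
    rintro ⟨p, w⟩ ⟨hp, _⟩
    exact (tC_an θ χ (hsub hp) w).continuousAt.continuousWithinAt)
  have hC₁0 : 0 ≤ C₁ := (norm_nonneg _).trans (hC₁ ((0 : ℂ × ℂ), (0 : ℂ × ℂ))
    ⟨mem_closedBall_self zero_le_one, mem_closedBall_self zero_le_one⟩)
  refine ⟨(C₁ + 1) * C₂ ^ m, by positivity, ?_⟩
  intro x hx hU hq v hv
  rw [SymDiff.eq_tC hX θ χ hv hU]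
  set w := fderiv ℂ χ.q x v with hw
  have hp : χ.q x ∈ closedBall (0 : ℂ × ℂ) 1 := by rwa [mem_closedBall_zero_iff]
  have h3 : ‖tC θ χ (χ.q x, w)‖ ≤ C₁ * ‖w‖ ^ m := by
    obtain ⟨u, hu, hwu⟩ : ∃ u : ℂ × ℂ, ‖u‖ ≤ 1 ∧ w = ((‖w‖ : ℝ) : ℂ) • u := by
      by_cases h0 : w = 0
      · exact ⟨0, by simp, by simp [h0]⟩
      · have hn : ‖w‖ ≠ 0 := norm_ne_zero_iff.mpr h0
        refine ⟨((‖w‖⁻¹ : ℝ) : ℂ) • w, ?_, ?_⟩
        · rw [norm_smul, Complex.norm_real, Real.norm_of_nonneg (by positivity), inv_mul_cancel₀ hn]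
        · rw [smul_smul, ← Complex.ofReal_mul, mul_inv_cancel₀ hn, Complex.ofReal_one, one_smul]
    have h4 : tC θ χ (χ.q x, w) = ((‖w‖ : ℝ) : ℂ) ^ m * tC θ χ (χ.q x, u) := by
      conv_lhs => rw [hwu]
      exact tC_smul hX θ χ (hsub hp) _ u
    rw [h4, norm_mul, norm_pow, Complex.norm_real, Real.norm_of_nonneg (norm_nonneg _), mul_comm]
    exact mul_le_mul_of_nonneg_right (hC₁ (χ.q x, u) ⟨hp, by rwa [mem_closedBall_zero_iff]⟩) (by positivity)
  have h5 : ‖w‖ ≤ C₂ * fs x v := h2 x hx hU hq v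
  have h6 : ‖w‖ ^ m ≤ (C₂ * fs x v) ^ m := pow_le_pow_left₀ (norm_nonneg _) h5 m
  have h7 : 0 ≤ (C₂ * fs x v) ^ m := le_trans (by positivity) h6
  calc ‖tC θ χ (χ.q x, w)‖ ≤ C₁ * ‖w‖ ^ m := h3
    _ ≤ C₁ * (C₂ * fs x v) ^ m := mul_le_mul_of_nonneg_left h6 hC₁0
    _ ≤ (C₁ + 1) * (C₂ * fs x v) ^ m := mul_le_mul_of_nonneg_right (by linarith) h7
    _ = (C₁ + 1) * C₂ ^ m * fs x v ^ m := by rw [mul_pow]; ring

/-- `θ` is bounded by the metric. -/
theorem SymDiff.bound (hX : IsCone X) (hch : Charts X) (θ : SymDiff X m) :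
    ∃ C : ℝ, 0 < C ∧ ∀ x ∈ X, ∀ v, Tan X x v → ‖θ.toFun x v‖ ≤ C * fs x v ^ m := by
  have hX0 : ∀ x ∈ X, x ≠ 0 := fun x hx h => hX.zero_notMem (h ▸ hx)
  have hcomp : IsCompact (sphere (0 : EN N) 1 ∩ insert 0 X) := (isCompact_sphere _ _).inter_right hX.closed
  have hloc : ∃ C : ℝ, 0 < C ∧ ∀ x ∈ sphere (0 : EN N) 1 ∩ insert 0 X, x ∈ X → ∀ v, Tan X x v → ‖θ.toFun x v‖ ≤ C * fs x v ^ m := by
    refine hcomp.induction_on (p := fun S => ∃ C : ℝ, 0 < C ∧ ∀ x ∈ S, x ∈ X → ∀ v, Tan X x v → ‖θ.toFun x v‖ ≤ C * fs x v ^ m)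
      ⟨1, one_pos, fun x hx => absurd hx (Set.notMem_empty x)⟩ ?_ ?_ ?_
    · rintro S T hST ⟨C, hC, h⟩
      exact ⟨C, hC, fun x hx => h x (hST hx)⟩
    · rintro S T ⟨C, hC, h⟩ ⟨C', hC', h'⟩
      refine ⟨max C C', lt_max_of_lt_left hC, fun x hx hxX v hv => ?_⟩
      have hf : 0 ≤ fs x v ^ m := pow_nonneg (Pool.Agent.H36.BP.fs_nonneg x v) m
      rcases hx with hx | hx
      · exact (h x hx hxX v hv).trans (mul_le_mul_of_nonneg_right (le_max_left _ _) hf)
      · exact (h' x hx hxX v hv).trans (mul_le_mul_of_nonneg_right (le_max_right _ _) hf)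
    · rintro x ⟨hx1, hx2⟩
      have hx0 : x ≠ 0 := by
        rintro rfl
        simp at hx1
      have hxX : x ∈ X := by
        rcases hx2 with h | h
        · exact absurd h hx0
        · exact h
      obtain ⟨χ, hU, hq⟩ := hch x hxX
      obtain ⟨C, hC, h⟩ := SymDiff.bound_chart hX θ χ
      refine ⟨{y | y ∈ χ.U ∧ ‖χ.q y‖ ≤ 1}, ?_, C, hC, fun y hy hyX v hv => h y hyX hy.1 hy.2 v hv⟩
      refine mem_nhdsWithin_of_mem_nhds ?_
      have h1 : ∀ᶠ y in 𝓝 x, ‖χ.q y‖ < 1 := by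
        have h2 : ContinuousAt (fun y => ‖χ.q y‖) x := (χ.q_an x hU).continuousAt.norm
        exact h2.eventually_lt_const (by simp [hq])
      filter_upwards [χ.isOpen_U.mem_nhds hU, h1] with y hy1 hy2
      exact ⟨hy1, hy2.le⟩
  obtain ⟨C, hC, h⟩ := hloc
  refine ⟨C, hC, fun x hx v hv => ?_⟩
  have hx0 := hX0 x hx
  have hn : ‖x‖ ≠ 0 := norm_ne_zero_iff.mpr hx0
  set c : ℂ := ((‖x‖⁻¹ : ℝ) : ℂ) with hcdef
  have hc : c ≠ 0 := by
    rw [hcdef]
    exact_mod_cast inv_ne_zero hn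
  have hcx : c • x ∈ X := hX.smul_mem x hx c hc
  have h1 : ‖c • x‖ = 1 := by
    rw [norm_smul, hcdef, Complex.norm_real, Real.norm_of_nonneg (by positivity), inv_mul_cancel₀ hn]
  have h2 := h (c • x) ⟨by rwa [mem_sphere_zero_iff_norm], Or.inr hcx⟩ hcx (c • v) (tan_smul hX hv hc)
  rwa [θ.scale x hx v hv c hc, fs_scale hx0 v hc] at h2

end Pool.Agent.H92.TH

end

section

/-!
# V Fam: curves of order two on surfaces with symmetric differentials
-/

set_option autoImplicit false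

open Topology Filter Metric

namespace Pool.Agent.H14.V

open Pool.Agent.H36.BP (EN fs wd)
open Pool.Agent.H14.PP (IsCone Chart Form Tan)
open Pool.Agent.H62.EF (MN pr Charts)
open Pool.Agent.H92.TH (SymDiff)

variable {N : ℕ} {X : Set (EN N)}

theorem tan_of_curve {F : ℂ → EN N} (hF : Differentiable ℂ F) (hFX : ∀ z, F z ∈ X) (z : ℂ) : Tan X (F z) (deriv F z) := by
  refine ⟨fun w => F (z + w), ⟨(hF.comp (differentiable_id.const_add z)).analyticAt 0, Eventually.of_forall fun w => hFX _⟩, by simp, ?_⟩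
  have := deriv_comp_const_add (f := F) z 0
  simpa using this

theorem fs_nonneg' (x v : EN N) : 0 ≤ fs x v := by
  unfold fs wd
  positivity

/-- A lower bound of the derivative. -/
theorem exists_lower (hX : IsCone X) (hch : Charts X) {m : ℕ} (hm : 1 ≤ m) (θ : SymDiff X m) {b : ℂ} (hb : b ≠ 0) :
    ∃ c : ℝ, 0 < c ∧ ∀ F : ℂ → EN N, Differentiable ℂ F → (∀ z, F z ∈ X) →
      (∀ z, θ.toFun (F z) (deriv F z) = b) → ∀ z, c ≤ fs (F z) (deriv F z) := by
  obtain ⟨C, hC, hbd⟩ := θ.bound hX hch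
  refine ⟨(‖b‖ / C) ^ ((m : ℝ)⁻¹), Real.rpow_pos_of_pos (div_pos (norm_pos_iff.2 hb) hC) _, fun F hF hFX h z => ?_⟩
  have h1 := hbd _ (hFX z) _ (tan_of_curve hF hFX z)
  rw [h z] at h1
  have h2 : ‖b‖ / C ≤ fs (F z) (deriv F z) ^ m := by
    rw [div_le_iff₀ hC]
    linarith
  calc (‖b‖ / C) ^ ((m : ℝ)⁻¹) ≤ (fs (F z) (deriv F z) ^ m) ^ ((m : ℝ)⁻¹) :=
        Real.rpow_le_rpow (by positivity) h2 (by positivity)
    _ = fs (F z) (deriv F z) := by
        rw [← Real.rpow_natCast, ← Real.rpow_mul (fs_nonneg' _ _), mul_inv_cancel₀, Real.rpow_one]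
        exact_mod_cast (by omega : m ≠ 0)

theorem fs_smul_right (x v : EN N) (a : ℂ) : fs x (a • v) = ‖a‖ * fs x v := by
  unfold fs wd
  rw [norm_smul, inner_smul_right, norm_mul]
  have : ‖x‖ ^ 2 * (‖a‖ * ‖v‖) ^ 2 - (‖a‖ * ‖inner ℂ x v‖) ^ 2 = ‖a‖ ^ 2 * (‖x‖ ^ 2 * ‖v‖ ^ 2 - ‖inner ℂ x v‖ ^ 2) := by ring
  rw [this, Real.sqrt_mul (by positivity), Real.sqrt_sq (norm_nonneg _)]
  ring

/-- a curve with derivative zero is constant -/
theorem pr_const {F : ℂ → EN N} (hF : Differentiable ℂ F) (h0 : ∀ z, F z ≠ 0) (h : ∀ z, fs (F z) (deriv F z) = 0) (z w : ℂ) :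
    pr (F z) = pr (F w) := by
  have h1 := Pool.Agent.H62.EF.pr_lipschitz isOpen_univ convex_univ hF.differentiableOn (fun z _ => h0 z) (L := 0)
    (fun z _ => (h z).le) z (Set.mem_univ _) w (Set.mem_univ _)
  rw [mul_zero, zero_mul] at h1
  exact dist_le_zero.1 h1

end Pool.Agent.H14.V

end
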