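import Pool.Agent.H18.GGT.M17
import Pool.Agent.H18.GGT.M45
import Pool.Agent.H18.GGT.M46

/-! The parts of this file: GG.Ext, GG.Fam1, GG.CritArc, GG.Loc, GG.Fam2, GG.Unif, GG.Fam0. -/

section

/-!
# GG Ext: arcs extend to entire curves

`arc_unique`: identity theorem for curves with local lifts; `flow_arc`: the flow box at the normalised arc; `extend`: gluing of the curves of
`flow_arc` at the points of the ball (midpoints); `exists_entire`: iteration of `extend`, compatibility by `arc_unique`.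
-/

set_option autoImplicit false

open MvPolynomial Topology Filter Metric
open Pool.Agent.H13.SM (conTan cone)
open Pool.Agent.H17 (PN)
open Pool.Agent.H62.FC (Homog)

namespace Pool.Agent.GG

variable {N : ℕ} {P : Ideal (MvPolynomial (Fin (N + 1)) ℂ)} {J : ℕ} {m : Fin J → ℕ} {θ : ∀ k, SymSec P (m k)} {c c' : Fin J → ℂ}

namespace ExtAux

theorem arcAt_congr {g g' : ℂ → PN N} {z : ℂ} (h : ArcAt θ c g z) (he : ∀ᶠ w in 𝓝 z, g' w = g w) : ArcAt θ c g' z := by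
  obtain ⟨F, hF, hr, hc⟩ := h
  refine ⟨F, hF, ?_, hc⟩
  filter_upwards [hr, he] with w hw hw'
  obtain ⟨h0, h1⟩ := hw
  exact ⟨h0, by rw [hw', h1]⟩

theorem mk_eq_of_cross {x y : Fin (N + 1) → ℂ} (hx : x ≠ 0) (hy : y ≠ 0) (h : ∀ i j, x i * y j - x j * y i = 0) :
    Projectivization.mk ℂ x hx = Projectivization.mk ℂ y hy := by
  rw [Projectivization.mk_eq_mk_iff']
  obtain ⟨j, hj⟩ : ∃ j, y j ≠ 0 := by
    by_contra hcon
    push Not at hcon
    exact hy (funext hcon)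
  refine ⟨x j / y j, ?_⟩
  funext i
  have := h i j
  rw [Pi.smul_apply, smul_eq_mul]
  field_simp
  linear_combination -this

theorem cross_of_mk_eq {x y : Fin (N + 1) → ℂ} {hx : x ≠ 0} {hy : y ≠ 0}
    (h : Projectivization.mk ℂ x hx = Projectivization.mk ℂ y hy) (i j : Fin (N + 1)) : x i * y j - x j * y i = 0 := by
  rw [Projectivization.mk_eq_mk_iff'] at h
  obtain ⟨a, ha⟩ := h
  rw [← ha]
  simp only [Pi.smul_apply, smul_eq_mul]
  ring

end ExtAux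

open ExtAux

theorem arc_unique {g g' : ℂ → PN N} {U : Set ℂ} (hU : IsOpen U) (hU' : IsPreconnected U) (h : ∀ z ∈ U, ArcAt θ c g z) (h' : ∀ z ∈ U, ArcAt θ c' g' z)
    {z₀ : ℂ} (hz : z₀ ∈ U) (he : ∀ᶠ z in 𝓝 z₀, g z = g' z) : ∀ z ∈ U, g z = g' z := by
  set S : Set ℂ := {z | ∀ᶠ w in 𝓝 z, g w = g' w} with hS
  have hSo : IsOpen S := by
    rw [isOpen_iff_eventually]
    intro z hz
    exact eventually_eventually_nhds.2 hz
  have hsub : U ⊆ S := by
    refine hU'.subset_of_closure_inter_subset hSo ⟨z₀, hz, he⟩ ?_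
    rintro z ⟨hzc, hzU⟩
    obtain ⟨F, hF, hr, -⟩ := h z hzU
    obtain ⟨F', hF', hr', -⟩ := h' z hzU
    have hall : ∀ᶠ w in 𝓝 z, (AnalyticAt ℂ F w ∧ AnalyticAt ℂ F' w) ∧ (∃ h : F w ≠ 0, g w = Projectivization.mk ℂ (F w) h) ∧
        ∃ h : F' w ≠ 0, g' w = Projectivization.mk ℂ (F' w) h := by
      filter_upwards [hF.eventually_analyticAt, hF'.eventually_analyticAt, hr, hr'] with w h1 h2 h3 h4
      exact ⟨⟨h1, h2⟩, h3, h4⟩
    obtain ⟨δ, hδ, hball⟩ := Metric.eventually_nhds_iff_ball.1 hall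
    obtain ⟨s, hsb, hsS⟩ := mem_closure_iff.1 hzc (ball z δ) isOpen_ball (mem_ball_self hδ)
    have hcross : ∀ i j, ∀ w ∈ ball z δ, F w i * F' w j - F w j * F' w i = 0 := by
      intro i j
      have han : AnalyticOnNhd ℂ (fun w => F w i * F' w j - F w j * F' w i) (ball z δ) := by
        intro w hw
        have h1 := analyticAt_pi_iff.1 (hball w hw).1.1
        have h2 := analyticAt_pi_iff.1 (hball w hw).1.2
        exact ((h1 i).mul (h2 j)).sub ((h1 j).mul (h2 i))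
      have hzero : (fun w => F w i * F' w j - F w j * F' w i) =ᶠ[𝓝 s] fun _ => 0 := by
        have hsb' : ball z δ ∈ 𝓝 s := isOpen_ball.mem_nhds hsb
        filter_upwards [hsS, hsb'] with w hw1 hw2
        obtain ⟨-, ⟨h3, h3'⟩, ⟨h4, h4'⟩⟩ := hball w hw2
        exact cross_of_mk_eq (h3'.symm.trans (hw1.trans h4')) i j
      have := han.eqOn_of_preconnected_of_eventuallyEq analyticOnNhd_const (convex_ball z δ).isPreconnected hsb hzero
      intro w hw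
      exact this hw
    change ∀ᶠ w in 𝓝 z, g w = g' w
    filter_upwards [ball_mem_nhds z hδ] with w hw
    obtain ⟨-, ⟨h3, h3'⟩, ⟨h4, h4'⟩⟩ := hball w hw
    rw [h3', h4']
    exact mk_eq_of_cross _ _ fun i j => hcross i j w hw
  intro z hz
  exact (hsub hz).self_of_nhds

theorem flow_arc (hP : Homog P) (f : Frame θ) {r K : ℝ} (hr : 0 < r)
    (hU : ∀ a, ∀ Y ∈ Kset θ a {c}, ∃ ε > 0, ∃ H : ℂ × (Ph N → ℂ) → Fin (N + 1) → ℂ, Flow (gfam f a) Y r ε K H)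
    {g : ℂ → PN N} {z₁ : ℂ} (hg : ArcAt θ c g z₁) : ∃ g' : ℂ → PN N, (∀ z ∈ ball z₁ r, ArcAt θ c g' z) ∧ ∀ᶠ z in 𝓝 z₁, g' z = g z := by
  classical
  obtain ⟨a, x, hx, hrx, hxb⟩ := exists_nArc hP hg
  obtain ⟨hV, hT⟩ := arcV_of_nArc f hx
  have hY : pt (x z₁) (deriv x z₁) ∈ Kset θ a {c} := ⟨x z₁, deriv x z₁, c, rfl, hT, hxb, rfl⟩
  obtain ⟨ε, hε, H, hH⟩ := hU a _ hY
  set Y := pt (x z₁) (deriv x z₁) with hYdef
  have hYb : Y ∈ ball Y ε := mem_ball_self hε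
  have hlift : ∀ z ∈ ball z₁ r, NArc θ a c (fun w => H (w - z₁, Y)) z := by
    intro z hz
    have hz' : z - z₁ ∈ ball (0 : ℂ) r := by
      rw [mem_ball_zero_iff, ← dist_eq_norm]
      exact mem_ball.1 hz
    refine nArc_of_const f hT ?_ ?_
    · have h1 : AnalyticAt ℂ H (z - z₁, Y) := hH.an _ ⟨hz', hYb⟩
      have h2 : AnalyticAt ℂ (fun w : ℂ => (w - z₁, Y)) z := (analyticAt_id.sub analyticAt_const).prod analyticAt_const
      exact AnalyticAt.comp_of_eq (f := fun w : ℂ => (w - z₁, Y)) h1 h2 rfl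
    · intro l
      have hn : ∀ᶠ w in 𝓝 z, w ∈ ball z₁ r := isOpen_ball.mem_nhds hz
      filter_upwards [hn] with w hw
      have hw' : w - z₁ ∈ ball (0 : ℂ) r := by
        rw [mem_ball_zero_iff, ← dist_eq_norm]
        exact mem_ball.1 hw
      have h3 := hH.const Y hYb (isInit_of_nArc f hx) (w - z₁) hw' l
      have h4 : deriv (fun w => H (w - z₁, Y)) w = deriv (fun z => H (z, Y)) (w - z₁) :=
        deriv_comp_sub_const (f := fun z => H (z, Y)) z₁ w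
      rw [h4]
      exact h3
  refine ⟨fun z => if h : H (z - z₁, Y) ≠ 0 then Projectivization.mk ℂ (H (z - z₁, Y)) h else g z, ?_, ?_⟩
  · intro z hz
    refine arcAt_of_nArc (hlift z hz) ?_
    filter_upwards [(hlift z hz).2] with w hw
    have h0 : H (w - z₁, Y) ≠ 0 := hw.1.1
    exact ⟨h0, by simp only [dif_pos h0]⟩
  · filter_upwards [hH.uniq x z₁ hV hYb, hrx] with s hs hs'
    obtain ⟨h0, h1⟩ := hs'
    have h2 : H (s - z₁, Y) ≠ 0 := by
      rw [← hs]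
      exact h0
    simp only [dif_pos h2]
    rw [h1]
    congr 1
    exact hs.symm

theorem extend (hP : Homog P) (f : Frame θ) {r K : ℝ} (hr : 0 < r)
    (hU : ∀ a, ∀ Y ∈ Kset θ a {c}, ∃ ε > 0, ∃ H : ℂ × (Ph N → ℂ) → Fin (N + 1) → ℂ, Flow (gfam f a) Y r ε K H)
    {g : ℂ → PN N} {z₀ : ℂ} {ρ : ℝ} (hρ : 0 < ρ) (hg : ∀ z ∈ ball z₀ ρ, ArcAt θ c g z) :
    ∃ g' : ℂ → PN N, (∀ z ∈ ball z₀ (ρ + r / 2), ArcAt θ c g' z) ∧ ∀ z ∈ ball z₀ ρ, g' z = g z := by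
  classical
  have hex : ∀ z₁ : ℂ, ∃ g' : ℂ → PN N, z₁ ∈ ball z₀ ρ → (∀ z ∈ ball z₁ r, ArcAt θ c g' z) ∧ ∀ᶠ z in 𝓝 z₁, g' z = g z := by
    intro z₁
    by_cases h1 : z₁ ∈ ball z₀ ρ
    · obtain ⟨g', h2⟩ := flow_arc hP f hr hU (hg z₁ h1)
      exact ⟨g', fun _ => h2⟩
    · exact ⟨g, fun h => absurd h h1⟩
  choose G hG using hex
  -- equality with `g` on the intersection with the ball
  have heq : ∀ z₁ ∈ ball z₀ ρ, ∀ z ∈ ball z₁ r ∩ ball z₀ ρ, G z₁ z = g z := by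
    intro z₁ h1
    refine arc_unique (θ := θ) (c := c) (c' := c) (isOpen_ball.inter isOpen_ball) ((convex_ball z₁ r).inter (convex_ball z₀ ρ)).isPreconnected
      (fun z hz => (hG z₁ h1).1 z hz.1) (fun z hz => hg z hz.2) ⟨mem_ball_self hr, h1⟩ (hG z₁ h1).2
  have heq2 : ∀ z₁ ∈ ball z₀ ρ, ∀ z₂ ∈ ball z₀ ρ, ∀ z ∈ ball z₁ r ∩ ball z₂ r, G z₁ z = G z₂ z := by
    intro z₁ h1 z₂ h2 z hz
    have hd : dist z₁ z₂ < 2 * r := by
      have h3 := mem_ball'.1 hz.1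
      have h4 := mem_ball.1 hz.2
      linarith [dist_triangle z₁ z z₂]
    have hm1 : midpoint ℝ z₁ z₂ ∈ ball z₁ r := by
      rw [mem_ball, dist_midpoint_left, Real.norm_ofNat]
      linarith
    have hm2 : midpoint ℝ z₁ z₂ ∈ ball z₂ r := by
      rw [mem_ball, dist_midpoint_right, Real.norm_ofNat]
      linarith
    have hm3 : midpoint ℝ z₁ z₂ ∈ ball z₀ ρ := (convex_ball z₀ ρ).midpoint_mem h1 h2
    refine arc_unique (θ := θ) (c := c) (c' := c) (U := ball z₁ r ∩ ball z₂ r) (isOpen_ball.inter isOpen_ball)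
      ((convex_ball z₁ r).inter (convex_ball z₂ r)).isPreconnected
      (fun z hz => (hG z₁ h1).1 z hz.1) (fun z hz => (hG z₂ h2).1 z hz.2) ⟨hm1, hm2⟩ ?_ z hz
    have hn : (ball z₁ r ∩ ball z₂ r) ∩ ball z₀ ρ ∈ 𝓝 (midpoint ℝ z₁ z₂) :=
      ((isOpen_ball.inter isOpen_ball).inter isOpen_ball).mem_nhds ⟨⟨hm1, hm2⟩, hm3⟩
    filter_upwards [hn] with w hw
    rw [heq z₁ h1 w ⟨hw.1.1, hw.2⟩, heq z₂ h2 w ⟨hw.1.2, hw.2⟩]
  set g' : ℂ → PN N := fun z => if h : ∃ z₁ ∈ ball z₀ ρ, z ∈ ball z₁ r then G h.choose z else g z with hg'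
  have hval : ∀ z₁ ∈ ball z₀ ρ, ∀ z ∈ ball z₁ r, g' z = G z₁ z := by
    intro z₁ h1 z hz
    have h : ∃ z₁ ∈ ball z₀ ρ, z ∈ ball z₁ r := ⟨z₁, h1, hz⟩
    have h2 : g' z = G h.choose z := by
      rw [hg']
      simp only [dif_pos h]
    rw [h2]
    exact heq2 _ h.choose_spec.1 _ h1 z ⟨h.choose_spec.2, hz⟩
  refine ⟨g', ?_, ?_⟩
  · intro z hz
    -- a centre
    obtain ⟨z₁, h1, hz1⟩ : ∃ z₁ ∈ ball z₀ ρ, z ∈ ball z₁ r := by
      set t : ℝ := ρ / (ρ + r / 2) with ht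
      have hpos : 0 < ρ + r / 2 := by positivity
      have ht0 : 0 < t := by positivity
      have ht1 : t * (ρ + r / 2) = ρ := by
        rw [ht]
        field_simp
      have ht2 : t < 1 := by
        rw [ht, div_lt_one hpos]
        linarith
      have hzn : ‖z - z₀‖ < ρ + r / 2 := by
        rw [← dist_eq_norm]
        exact mem_ball.1 hz
      refine ⟨z₀ + (t : ℂ) * (z - z₀), ?_, ?_⟩
      · rw [mem_ball, dist_eq_norm, add_sub_cancel_left, norm_mul, Complex.norm_real, Real.norm_of_nonneg ht0.le]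
        calc t * ‖z - z₀‖ < t * (ρ + r / 2) := by
              exact mul_lt_mul_of_pos_left hzn ht0
          _ = ρ := ht1
      · rw [mem_ball, dist_eq_norm]
        have : z - (z₀ + (t : ℂ) * (z - z₀)) = ((1 - t : ℝ) : ℂ) * (z - z₀) := by
          push_cast
          ring
        rw [this, norm_mul, Complex.norm_real, Real.norm_of_nonneg (by linarith)]
        calc (1 - t) * ‖z - z₀‖ ≤ (1 - t) * (ρ + r / 2) := by
              exact mul_le_mul_of_nonneg_left hzn.le (by linarith)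
          _ = r / 2 := by
              rw [sub_mul, one_mul, ht1]
              ring
          _ < r := by linarith
    refine arcAt_congr ((hG z₁ h1).1 z hz1) ?_
    filter_upwards [isOpen_ball.mem_nhds hz1] with w hw
    exact hval z₁ h1 w hw
  · intro z hz
    rw [hval z hz z (mem_ball_self hr)]
    exact heq z hz z ⟨mem_ball_self hr, hz⟩

theorem exists_entire (hP : Homog P) (f : Frame θ) {r K : ℝ} (hr : 0 < r)
    (hU : ∀ a, ∀ Y ∈ Kset θ a {c}, ∃ ε > 0, ∃ H : ℂ × (Ph N → ℂ) → Fin (N + 1) → ℂ, Flow (gfam f a) Y r ε K H)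
    {g : ℂ → PN N} {z₀ : ℂ} (hg : ArcAt θ c g z₀) : ∃ g' : ℂ → PN N, (∀ z, ArcAt θ c g' z) ∧ ∀ᶠ z in 𝓝 z₀, g' z = g z := by
  obtain ⟨ρ, hρ, hball⟩ : ∃ ρ > 0, ∀ z ∈ ball z₀ ρ, ArcAt θ c g z := by
    obtain ⟨F, hF, hrF, hc⟩ := hg
    have : ∀ᶠ z in 𝓝 z₀, ArcAt θ c g z := by
      filter_upwards [hF.eventually_analyticAt, eventually_eventually_nhds.2 hrF, eventually_eventually_nhds.2 hc] with z h1 h2 h3
      exact ⟨F, h1, h2, h3⟩
    exact Metric.eventually_nhds_iff_ball.1 this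
  have hk : ∀ k : ℕ, ∃ g' : ℂ → PN N, (∀ z ∈ ball z₀ (ρ + k * (r / 2)), ArcAt θ c g' z) ∧ ∀ z ∈ ball z₀ ρ, g' z = g z := by
    intro k
    induction k with
    | zero => exact ⟨g, by simpa using hball, fun z _ => rfl⟩
    | succ k ih =>
      obtain ⟨g₁, h1, h2⟩ := ih
      obtain ⟨g₂, h3, h4⟩ := extend hP f hr hU (z₀ := z₀) (ρ := ρ + k * (r / 2)) (by positivity) h1
      refine ⟨g₂, ?_, ?_⟩
      · have e : ρ + ((k + 1 : ℕ) : ℝ) * (r / 2) = ρ + k * (r / 2) + r / 2 := by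
          push_cast
          ring
        rw [e]
        exact h3
      · intro z hz
        have hz' : z ∈ ball z₀ (ρ + k * (r / 2)) := ball_subset_ball (by linarith [show (0:ℝ) ≤ k * (r / 2) by positivity]) hz
        rw [h4 z hz', h2 z hz]
  choose G hG hG' using hk
  have hcomp : ∀ k l : ℕ, k ≤ l → ∀ z ∈ ball z₀ (ρ + k * (r / 2)), G k z = G l z := by
    intro k l hkl
    have hkl' : (k : ℝ) ≤ l := by exact_mod_cast hkl
    have hpos : 0 < ρ + k * (r / 2) := by positivity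
    refine arc_unique (θ := θ) (c := c) (c' := c) isOpen_ball (convex_ball z₀ _).isPreconnected (hG k)
      (fun z hz => hG l z (ball_subset_ball (by nlinarith) hz)) (mem_ball_self hpos) ?_
    filter_upwards [ball_mem_nhds z₀ hρ] with w hw
    rw [hG' k w hw, hG' l w hw]
  set κ : ℂ → ℕ := fun z => ⌈dist z z₀ / (r / 2)⌉₊ with hκ
  have hκ' : ∀ z, z ∈ ball z₀ (ρ + κ z * (r / 2)) := by
    intro z
    rw [mem_ball]
    have h1 : dist z z₀ / (r / 2) ≤ κ z := Nat.le_ceil _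
    rw [div_le_iff₀ (by positivity)] at h1
    linarith
  have hval : ∀ (k : ℕ) (z : ℂ), z ∈ ball z₀ (ρ + k * (r / 2)) → G (κ z) z = G k z := by
    intro k z hz
    rcases le_total (κ z) k with h | h
    · exact hcomp _ _ h z (hκ' z)
    · exact (hcomp _ _ h z hz).symm
  refine ⟨fun z => G (κ z) z, ?_, ?_⟩
  · intro z
    refine arcAt_congr (hG (κ z) z (hκ' z)) ?_
    filter_upwards [isOpen_ball.mem_nhds (hκ' z)] with w hw
    exact hval (κ z) w hw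
  · filter_upwards [ball_mem_nhds z₀ hρ] with w hw
    rw [hval 0 w (by simpa using hw), hG' 0 w hw]

end Pool.Agent.GG

end

section

/-!
# GG Fam1: one time step of a family of arcs, with the bound for the derivative

PROOF.  `Y 0 ∈ Kset θ a C` (`arcV_of_nArc`; `c 0 ∈ C`: the constants of `NArc` and `ArcAt` agree), `H` = the flow box.  For `s` near `0`, `Y s ∈ ball (Y 0) ε`, `IsInit (Y s)` (`isInit_of_nArc`), `x = H (· - z, Y s)` near `z` (`uniq`), so `Φ (w, s) = [H (w - z, Y s)]` near `w = z`, hence for all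
`w ∈ ball z r` (`arc_unique`, `const` + `nArc_of_const` + `arcAt_of_nArc`).  `RepN` at `(z', 0)`: `F (w, s) = H (w - z, Y s)`.  New chart: `a'` with `|x_(a')|` maximal at `x = H (z' - z, Y 0)`; `Y' s` = position and velocity of `x / x_(a')`, an explicit
function of `(H, ∂H/∂z) (z' - z, Y s)`, with derivative bounded in terms of `K` (`|x_(a')| ≥ |x_a| = 1`, `‖H‖, ‖∂H‖ ≤ K`).
-/

set_option autoImplicit false

open MvPolynomial Topology Filter Metric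
open Pool.Agent.H13.SM (conTan cone)
open Pool.Agent.H17 (PN)
open Pool.Agent.H62.FC (Homog)

namespace Pool.Agent.GG

variable {N : ℕ} {P : Ideal (MvPolynomial (Fin (N + 1)) ℂ)} {J : ℕ} {m : Fin J → ℕ} {θ : ∀ k, SymSec P (m k)}

namespace Fam1Aux

/-- position and velocity of `x / x_a` -/
noncomputable def nrm (a : Fin (N + 1)) (p : Ph N → ℂ) : Ph N → ℂ :=
  Sum.elim (fun b => p (Sum.inl b) / p (Sum.inl a))
    fun b => p (Sum.inr b) / p (Sum.inl a) - p (Sum.inl b) * p (Sum.inr a) / p (Sum.inl a) ^ 2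

theorem analyticAt_proj (s : Ph N) (p : Ph N → ℂ) : AnalyticAt ℂ (fun p : Ph N → ℂ => p s) p :=
  (ContinuousLinearMap.proj (R := ℂ) (φ := fun _ : Ph N => ℂ) s).analyticAt p

theorem analyticAt_nrm {a : Fin (N + 1)} {p : Ph N → ℂ} (h : p (Sum.inl a) ≠ 0) : AnalyticAt ℂ (nrm a) p := by
  rw [analyticAt_pi_iff]
  rintro (b | b)
  · exact (analyticAt_proj (Sum.inl b) p).div (analyticAt_proj (Sum.inl a) p) h
  · exact ((analyticAt_proj (Sum.inr b) p).div (analyticAt_proj (Sum.inl a) p) h).sub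
      (((analyticAt_proj (Sum.inl b) p).mul (analyticAt_proj (Sum.inr a) p)).div ((analyticAt_proj (Sum.inl a) p).pow 2) (pow_ne_zero 2 h))

theorem exists_bound_nrm (N : ℕ) (K : ℝ) : ∃ B : ℝ, 0 ≤ B ∧ ∀ (a : Fin (N + 1)) (p : Ph N → ℂ), ‖p‖ ≤ K → 1 ≤ ‖p (Sum.inl a)‖ →
    ‖fderiv ℂ (nrm a) p‖ ≤ B := by
  have key : ∀ a : Fin (N + 1), ∃ B : ℝ, ∀ p : Ph N → ℂ, ‖p‖ ≤ K → 1 ≤ ‖p (Sum.inl a)‖ → ‖fderiv ℂ (nrm a) p‖ ≤ B := by
    intro a
    have hS : IsCompact (closedBall (0 : Ph N → ℂ) K ∩ {p | 1 ≤ ‖p (Sum.inl a)‖}) :=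
      (isCompact_closedBall _ _).inter_right (isClosed_le continuous_const (continuous_apply _).norm)
    have hc : ContinuousOn (fun p => fderiv ℂ (nrm a) p) (closedBall (0 : Ph N → ℂ) K ∩ {p | 1 ≤ ‖p (Sum.inl a)‖}) := by
      rintro p ⟨-, hp⟩
      have h0 : p (Sum.inl a) ≠ 0 := by
        intro h
        have hp' : 1 ≤ ‖p (Sum.inl a)‖ := hp
        rw [h, norm_zero] at hp'
        linarith
      exact (analyticAt_nrm h0).fderiv.continuousAt.continuousWithinAt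
    obtain ⟨B, hB⟩ := hS.exists_bound_of_continuousOn hc
    exact ⟨B, fun p h1 h2 => hB p ⟨mem_closedBall_zero_iff.2 h1, h2⟩⟩
  choose B hB using key
  refine ⟨∑ a, |B a|, Finset.sum_nonneg fun a _ => abs_nonneg _, fun a p h1 h2 => (hB a p h1 h2).trans ((le_abs_self _).trans ?_)⟩
  exact Finset.single_le_sum (f := fun a => |B a|) (fun a _ => abs_nonneg _) (Finset.mem_univ a)

/-- the constants of `ArcAt` and `NArc` agree -/
theorem nArc_of_arcAt (hP : Homog P) {a : Fin (N + 1)} {c c' : Fin J → ℂ} {g : ℂ → PN N} {z : ℂ} {x : ℂ → Fin (N + 1) → ℂ} (hg : ArcAt θ c g z)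
    (hx : NArc θ a c' x z) (hr : Rep g x z) : NArc θ a c x z := by
  have h1 : x z a = 1 := (hx.2.self_of_nhds).2.1
  have h2 := (nArc_of_lift (a := a) hP hg hx.1 hr (by rw [h1]; exact one_ne_zero)).1
  have he : (fun w => (x w a)⁻¹ • x w) =ᶠ[𝓝 z] x := by
    filter_upwards [hx.2] with w hw
    rw [hw.2.1, inv_one, one_smul]
  refine ⟨hx.1, ?_⟩
  have h3 : ∀ᶠ w in 𝓝 z, (fun w => (x w a)⁻¹ • x w) =ᶠ[𝓝 w] x := he.eventuallyEq_nhds
  filter_upwards [h2.2, he, h3] with w hw hw1 hw2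
  have hd : deriv (fun w => (x w a)⁻¹ • x w) w = deriv x w := hw2.deriv_eq
  obtain ⟨h4, h5, h6⟩ := hw
  have hw1' : (x w a)⁻¹ • x w = x w := hw1
  rw [hw1'] at h4 h5
  refine ⟨h4, h5, fun k => ?_⟩
  have h7 := h6 k
  rw [hd, hw1'] at h7
  exact h7

/-- the curve in the flow box -/
theorem flow_rep (f : Frame θ) {a : Fin (N + 1)} {c : Fin J → ℂ} {g : ℂ → PN N} (hg : ∀ z, ArcAt θ c g z) {z : ℂ} {x : ℂ → Fin (N + 1) → ℂ}
    (hx : NArc θ a c x z) (hr : Rep g x z) {Y₀ : Ph N → ℂ} {r ε K : ℝ} (hr0 : 0 < r) {H : ℂ × (Ph N → ℂ) → Fin (N + 1) → ℂ}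
    (hH : Flow (gfam f a) Y₀ r ε K H) (hY : pt (x z) (deriv x z) ∈ ball Y₀ ε) : ∀ w ∈ ball z r,
      NArc θ a c (fun w' => H (w' - z, pt (x z) (deriv x z))) w ∧ Rep g (fun w' => H (w' - z, pt (x z) (deriv x z))) w := by
  classical
  obtain ⟨hV, hT⟩ := arcV_of_nArc f hx
  set y := pt (x z) (deriv x z) with hydef
  have hlift : ∀ w ∈ ball z r, NArc θ a c (fun w' => H (w' - z, y)) w := by
    intro w hw
    have hw' : w - z ∈ ball (0 : ℂ) r := by
      rw [mem_ball_zero_iff, ← dist_eq_norm]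
      exact mem_ball.1 hw
    refine nArc_of_const f hT ?_ ?_
    · have h1 : AnalyticAt ℂ H (w - z, y) := hH.an _ ⟨hw', hY⟩
      have h2 : AnalyticAt ℂ (fun w' : ℂ => (w' - z, y)) w := (analyticAt_id.sub analyticAt_const).prod analyticAt_const
      exact AnalyticAt.comp_of_eq (f := fun w' : ℂ => (w' - z, y)) h1 h2 rfl
    · intro l
      have hn : ∀ᶠ w' in 𝓝 w, w' ∈ ball z r := isOpen_ball.mem_nhds hw
      filter_upwards [hn] with w' hw'
      have hw'' : w' - z ∈ ball (0 : ℂ) r := by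
        rw [mem_ball_zero_iff, ← dist_eq_norm]
        exact mem_ball.1 hw'
      have h3 := hH.const y hY (isInit_of_nArc f hx) (w' - z) hw'' l
      have h4 : deriv (fun w => H (w - z, y)) w' = deriv (fun z => H (z, y)) (w' - z) :=
        deriv_comp_sub_const (f := fun z => H (z, y)) z w'
      rw [h4]
      exact h3
  have hne : ∀ w ∈ ball z r, H (w - z, y) ≠ 0 := fun w hw => ((hlift w hw).2.self_of_nhds).1.1
  set G : ℂ → PN N := fun w => if h : H (w - z, y) ≠ 0 then Projectivization.mk ℂ (H (w - z, y)) h else g w with hG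
  have hGarc : ∀ w ∈ ball z r, ArcAt θ c G w := by
    intro w hw
    refine arcAt_of_nArc (hlift w hw) ?_
    filter_upwards [(hlift w hw).2] with w' hw'
    have h0 : H (w' - z, y) ≠ 0 := hw'.1.1
    refine ⟨h0, ?_⟩
    rw [hG]
    simp only [dif_pos h0]
  have hGe : ∀ᶠ w in 𝓝 z, G w = g w := by
    filter_upwards [hH.uniq x z hV hY, hr] with s hs hs'
    obtain ⟨h0, h1⟩ := hs'
    have h2 : H (s - z, y) ≠ 0 := by
      rw [← hs]
      exact h0
    rw [hG]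
    simp only [dif_pos h2]
    rw [h1]
    congr 1
    exact hs.symm
  have hall := arc_unique (θ := θ) (c := c) (c' := c) isOpen_ball (convex_ball z r).isPreconnected hGarc (fun w _ => hg w) (mem_ball_self hr0) hGe
  intro w hw
  refine ⟨hlift w hw, ?_⟩
  have hn : ∀ᶠ w' in 𝓝 w, w' ∈ ball z r := isOpen_ball.mem_nhds hw
  filter_upwards [hn] with w' hw'
  refine ⟨hne w' hw', ?_⟩
  rw [← hall w' hw', hG]
  simp only [dif_pos (hne w' hw')]

end Fam1Aux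

open Fam1Aux

theorem fam_step (hP : Homog P) (f : Frame θ) {C : Set (Fin J → ℂ)} {r K : ℝ} (hr : 0 < r)
    (hU : ∀ a, ∀ Y ∈ Kset θ a C, ∃ ε > 0, ∃ H : ℂ × (Ph N → ℂ) → Fin (N + 1) → ℂ, Flow (gfam f a) Y r ε K H) :
    ∃ K' : ℝ, 1 ≤ K' ∧ ∀ (d : ℕ) (Φ : ℂ × (Fin d → ℂ) → PN N) (c : (Fin d → ℂ) → Fin J → ℂ), c 0 ∈ C →
      (∀ s z, ArcAt θ (c s) (fun w => Φ (w, s)) z) → ∀ (z : ℂ) (a : Fin (N + 1)) (Y : (Fin d → ℂ) → Ph N → ℂ), FamAt θ Φ a Y z →
      (∀ b, ‖Y 0 (Sum.inl b)‖ ≤ 1) → ∀ z' : ℂ, ‖z' - z‖ < r → (∃ F, RepN P Φ F (z', 0)) ∧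
        ∃ (a' : Fin (N + 1)) (Y' : (Fin d → ℂ) → Ph N → ℂ), FamAt θ Φ a' Y' z' ∧ (∀ b, ‖Y' 0 (Sum.inl b)‖ ≤ 1) ∧ ‖fderiv ℂ Y' 0‖ ≤ K' * ‖fderiv ℂ Y 0‖ := by
  obtain ⟨B, hB0, hB⟩ := exists_bound_nrm N K
  refine ⟨max 1 (B * |K|), le_max_left _ _, ?_⟩
  intro d Φ c hc hΦ z a Y hY hY1 z' hz'
  obtain ⟨hYan, hYev⟩ := hY
  -- the flow box
  obtain ⟨c₀, x₀, hx₀, hr₀, hY₀⟩ := hYev.self_of_nhds
  have hx₀' := nArc_of_arcAt hP (hΦ 0 z) hx₀ hr₀
  obtain ⟨-, hT₀⟩ := arcV_of_nArc f hx₀'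
  have hmem : Y 0 ∈ Kset θ a C := ⟨x₀ z, deriv x₀ z, c 0, hY₀, hT₀, fun b => by
    have := hY1 b
    rw [hY₀] at this
    exact this, hc⟩
  obtain ⟨ε, hε, H, hH⟩ := hU a (Y 0) hmem
  have hYb : ∀ᶠ s in 𝓝 (0 : Fin d → ℂ), Y s ∈ ball (Y 0) ε := hYan.continuousAt.eventually (ball_mem_nhds _ hε)
  have hstar : ∀ᶠ s in 𝓝 (0 : Fin d → ℂ), ∀ w ∈ ball z r,
      NArc θ a (c s) (fun w' => H (w' - z, Y s)) w ∧ Rep (fun w => Φ (w, s)) (fun w' => H (w' - z, Y s)) w := by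
    filter_upwards [hYev, hYb] with s hs hsb
    obtain ⟨c', x, hx, hrx, hYs⟩ := hs
    have hx' := nArc_of_arcAt hP (hΦ s z) hx hrx
    rw [hYs] at hsb ⊢
    exact flow_rep f (hΦ s) hx' hrx hr hH hsb
  have hz'b : z' ∈ ball z r := by
    rw [mem_ball, dist_eq_norm]
    exact hz'
  have hq : z' - z ∈ ball (0 : ℂ) r := by
    rw [mem_ball_zero_iff]
    exact hz'
  have hq0 : (z' - z, Y 0) ∈ ball (0 : ℂ) r ×ˢ ball (Y 0) ε := ⟨hq, mem_ball_self hε⟩
  have hHan : AnalyticAt ℂ H (z' - z, Y 0) := hH.an _ hq0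
  -- the lift
  have hFan : AnalyticAt ℂ (fun p : ℂ × (Fin d → ℂ) => H (p.1 - z, Y p.2)) (z', 0) := by
    have h2 : AnalyticAt ℂ (fun p : ℂ × (Fin d → ℂ) => (p.1 - z, Y p.2)) (z', 0) := by
      refine (analyticAt_fst.sub analyticAt_const).prod ?_
      exact AnalyticAt.comp_of_eq (f := fun p : ℂ × (Fin d → ℂ) => p.2) hYan analyticAt_snd rfl
    exact AnalyticAt.comp_of_eq (f := fun p : ℂ × (Fin d → ℂ) => (p.1 - z, Y p.2)) hHan h2 rfl
  refine ⟨⟨fun p => H (p.1 - z, Y p.2), hFan, ?_⟩, ?_⟩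
  · have hn : ∀ᶠ w in 𝓝 z', w ∈ ball z r := isOpen_ball.mem_nhds hz'b
    have hp : ∀ᶠ p in 𝓝 (z', (0 : Fin d → ℂ)), p.1 ∈ ball z r ∧ ∀ w ∈ ball z r,
        NArc θ a (c p.2) (fun w' => H (w' - z, Y p.2)) w ∧ Rep (fun w => Φ (w, p.2)) (fun w' => H (w' - z, Y p.2)) w := by
      rw [nhds_prod_eq]
      exact hn.prod_mk hstar
    filter_upwards [hp] with p hp
    obtain ⟨h1, h2⟩ := hp
    obtain ⟨h3, h4⟩ := h2 p.1 h1
    exact ⟨(h3.2.self_of_nhds).1, h4.self_of_nhds⟩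
  -- the new chart
  set hh : ℂ × (Ph N → ℂ) → Ph N → ℂ := fun q => pt (H q) (deriv (fun z => H (z, q.2)) q.1) with hhdef
  have hder : ∀ q ∈ ball (0 : ℂ) r ×ˢ ball (Y 0) ε, deriv (fun z => H (z, q.2)) q.1 = fderiv ℂ H q (1, 0) := by
    intro q hq
    have h1 : HasFDerivAt H (fderiv ℂ H q) (q.1, q.2) := (hH.an q hq).differentiableAt.hasFDerivAt
    have h2 : HasDerivAt (fun z : ℂ => (z, q.2)) ((1 : ℂ), (0 : Ph N → ℂ)) q.1 := (hasDerivAt_id q.1).prodMk (hasDerivAt_const _ _)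
    exact (h1.comp_hasDerivAt q.1 h2).deriv
  have hopen : IsOpen (ball (0 : ℂ) r ×ˢ ball (Y 0) ε) := isOpen_ball.prod isOpen_ball
  have hhan : AnalyticAt ℂ hh (z' - z, Y 0) := by
    have h1 : AnalyticAt ℂ (fun q => pt (H q) (fderiv ℂ H q (1, 0))) (z' - z, Y 0) := by
      rw [analyticAt_pi_iff]
      have h2 : AnalyticAt ℂ (fun q => fderiv ℂ H q (1, 0)) (z' - z, Y 0) :=
        ((ContinuousLinearMap.apply ℂ (Fin (N + 1) → ℂ) ((1 : ℂ), (0 : Ph N → ℂ))).analyticAt _).comp hHan.fderiv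
      rintro (b | b)
      · exact analyticAt_pi_iff.1 hHan b
      · exact analyticAt_pi_iff.1 h2 b
    refine h1.congr ?_
    filter_upwards [hopen.mem_nhds hq0] with q hq
    rw [hhdef]
    simp only
    rw [hder q hq]
  -- the point at `s = 0`
  set x₁ : Fin (N + 1) → ℂ := H (z' - z, Y 0) with hx₁
  have hx₁a : x₁ a = 1 := by
    have h1 := (hstar.self_of_nhds z' hz'b).1
    exact (h1.2.self_of_nhds).2.1
  obtain ⟨a', -, ha'⟩ := Finset.exists_max_image (Finset.univ : Finset (Fin (N + 1))) (fun b => ‖x₁ b‖) ⟨a, Finset.mem_univ a⟩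
  have ha1 : 1 ≤ ‖x₁ a'‖ := by
    have := ha' a (Finset.mem_univ a)
    rwa [hx₁a, norm_one] at this
  have ha0 : x₁ a' ≠ 0 := by
    intro h
    rw [h, norm_zero] at ha1
    linarith
  have hsub : AnalyticAt ℂ (fun s : Fin d → ℂ => (z' - z, Y s)) 0 := analyticAt_const.prod hYan
  have hhs : AnalyticAt ℂ (fun s : Fin d → ℂ => hh (z' - z, Y s)) 0 :=
    AnalyticAt.comp_of_eq (f := fun s : Fin d → ℂ => (z' - z, Y s)) hhan hsub rfl
  have hnan : AnalyticAt ℂ (nrm a') (hh (z' - z, Y 0)) := analyticAt_nrm ha0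
  have hYan' : AnalyticAt ℂ (fun s : Fin d → ℂ => nrm a' (hh (z' - z, Y s))) 0 :=
    AnalyticAt.comp_of_eq (f := fun s : Fin d → ℂ => hh (z' - z, Y s)) hnan hhs rfl
  refine ⟨a', fun s => nrm a' (hh (z' - z, Y s)), ⟨hYan', ?_⟩, ?_, ?_⟩
  · have hne : ∀ᶠ s in 𝓝 (0 : Fin d → ℂ), H (z' - z, Y s) a' ≠ 0 := by
      have h1 : ContinuousAt (fun s : Fin d → ℂ => hh (z' - z, Y s) (Sum.inl a')) 0 := (analyticAt_pi_iff.1 hhs (Sum.inl a')).continuousAt
      exact h1.eventually_ne ha0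
    filter_upwards [hstar, hne, hYb] with s hs hs0 hsb
    obtain ⟨h1, h2⟩ := hs z' hz'b
    obtain ⟨h3, h4⟩ := nArc_of_lift (a := a') hP (hΦ s z') h1.1 h2 hs0
    refine ⟨c s, _, h3, h4, ?_⟩
    have hqs : (z' - z, Y s) ∈ ball (0 : ℂ) r ×ˢ ball (Y 0) ε := ⟨hq, hsb⟩
    have hd0 : HasDerivAt (fun w => H (w - z, Y s)) (deriv (fun w => H (w, Y s)) (z' - z)) z' := by
      have h5 : HasDerivAt (fun w => H (w - z, Y s)) (deriv (fun w => H (w - z, Y s)) z') z' := h1.1.differentiableAt.hasDerivAt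
      rwa [deriv_comp_sub_const (f := fun w => H (w, Y s)) z z'] at h5
    have hda := hasDerivAt_pi.1 hd0 a'
    have hdi : HasDerivAt (fun w => (H (w - z, Y s) a')⁻¹) (-(deriv (fun w => H (w, Y s)) (z' - z) a') / (H (z' - z, Y s) a') ^ 2) z' :=
      hda.inv hs0
    have hdd := (hdi.smul hd0).deriv
    funext t
    rcases t with b | b
    · show H (z' - z, Y s) b / H (z' - z, Y s) a' = (H (z' - z, Y s) a')⁻¹ * H (z' - z, Y s) b
      rw [div_eq_inv_mul]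
    · show _ = deriv (fun w => (H (w - z, Y s) a')⁻¹ • H (w - z, Y s)) z' b
      have hdd' : deriv (fun w => (H (w - z, Y s) a')⁻¹ • H (w - z, Y s)) z' = _ := hdd
      rw [hdd']
      show deriv (fun w => H (w, Y s)) (z' - z) b / H (z' - z, Y s) a' -
        H (z' - z, Y s) b * deriv (fun w => H (w, Y s)) (z' - z) a' / H (z' - z, Y s) a' ^ 2 =
        (H (z' - z, Y s) a')⁻¹ * deriv (fun w => H (w, Y s)) (z' - z) b +
          (-(deriv (fun w => H (w, Y s)) (z' - z) a') / (H (z' - z, Y s) a') ^ 2) * H (z' - z, Y s) b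
      ring
  · intro b
    show ‖x₁ b / x₁ a'‖ ≤ 1
    rw [norm_div]
    exact div_le_one_of_le₀ (ha' b (Finset.mem_univ b)) (norm_nonneg _)
  · obtain ⟨hb1, hb2, hb3⟩ := hH.bound _ hq0
    have hpK : ‖hh (z' - z, Y 0)‖ ≤ K := by
      rw [pi_norm_le_iff_of_nonneg ((norm_nonneg _).trans hb1)]
      rintro (b | b)
      · exact (norm_le_pi_norm _ b).trans hb1
      · exact (norm_le_pi_norm _ b).trans hb2
    have hBn := hB a' (hh (z' - z, Y 0)) hpK ha1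
    have hc1 : HasFDerivAt (fun s : Fin d → ℂ => (z' - z, Y s)) ((0 : (Fin d → ℂ) →L[ℂ] ℂ).prod (fderiv ℂ Y 0)) 0 :=
      (hasFDerivAt_const _ _).prodMk hYan.differentiableAt.hasFDerivAt
    have hc2 : HasFDerivAt hh (fderiv ℂ hh (z' - z, Y 0)) (z' - z, Y 0) := hhan.differentiableAt.hasFDerivAt
    have hc3 : HasFDerivAt (nrm a') (fderiv ℂ (nrm a') (hh (z' - z, Y 0))) (hh (z' - z, Y 0)) := hnan.differentiableAt.hasFDerivAt
    have hc4 := (hc3.comp (0 : Fin d → ℂ) (hc2.comp (0 : Fin d → ℂ) hc1)).fderiv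
    have hc5 : fderiv ℂ (fun s : Fin d → ℂ => nrm a' (hh (z' - z, Y s))) 0 = _ := hc4
    rw [hc5]
    have e1 : ‖(0 : (Fin d → ℂ) →L[ℂ] ℂ).prod (fderiv ℂ Y 0)‖ ≤ ‖fderiv ℂ Y 0‖ := by
      refine ContinuousLinearMap.opNorm_le_bound _ (norm_nonneg _) fun v => ?_
      rw [ContinuousLinearMap.prod_apply, Prod.norm_def]
      refine max_le ?_ (ContinuousLinearMap.le_opNorm _ _)
      simp only [ContinuousLinearMap.zero_apply, norm_zero]
      positivity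
    calc ‖(fderiv ℂ (nrm a') (hh (z' - z, Y 0))).comp ((fderiv ℂ hh (z' - z, Y 0)).comp ((0 : (Fin d → ℂ) →L[ℂ] ℂ).prod (fderiv ℂ Y 0)))‖
        ≤ ‖fderiv ℂ (nrm a') (hh (z' - z, Y 0))‖ * (‖fderiv ℂ hh (z' - z, Y 0)‖ * ‖(0 : (Fin d → ℂ) →L[ℂ] ℂ).prod (fderiv ℂ Y 0)‖) := by
          refine (ContinuousLinearMap.opNorm_comp_le _ _).trans ?_
          exact mul_le_mul_of_nonneg_left (ContinuousLinearMap.opNorm_comp_le _ _) (norm_nonneg _)
      _ ≤ B * (|K| * ‖fderiv ℂ Y 0‖) := by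
          refine mul_le_mul hBn ?_ (by positivity) hB0
          refine mul_le_mul ?_ e1 (norm_nonneg _) (abs_nonneg _)
          exact hb3.trans (le_abs_self _)
      _ = (B * |K|) * ‖fderiv ℂ Y 0‖ := by ring
      _ ≤ max 1 (B * |K|) * ‖fderiv ℂ Y 0‖ := mul_le_mul_of_nonneg_right (le_max_right _ _) (norm_nonneg _)

end Pool.Agent.GG

end

section

/-!
# GG CritArc: the algebraic criterion gives arcs

PROOF of `const_of_crit`.  Let `g_k (s) = (Dt^(k+1) (G l)) (y s)`, analytic near `t`, `g_k (t) = 0` for all `k`, `g_k' = g_(k+1) / δ`, `δ (s) = vdet (y s) ≠ 0`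
(`hasDerivAt_eval`).  The order of vanishing of `g_(k+1)` at `t` is the order of `g_k` minus one, so the order of `g_0` is infinite and `(Dt (G l)) (y s) = 0`
near `t`: `G l (y s)` has derivative `0`.
`isInit_of_crit`: the solution of `exists_flowG` for `V = W G J` with the initial value `y₀`; `x = ` its `inl` part, `x' = ` its `inr` part because `W (inl b) = y (inr b)`.
-/

set_option autoImplicit false

open MvPolynomial Topology Filter Metric

namespace Pool.Agent.GG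

variable {N : ℕ} {ι : Type} {G : ι → MvPolynomial (Ph N) ℂ} {J : Fin (N + 1) → ι}

private theorem CritArc_eval {y : ℂ → Ph N → ℂ} {t : ℂ} (hy : AnalyticAt ℂ y t) (g : MvPolynomial (Ph N) ℂ) :
    AnalyticAt ℂ (fun s => eval (y s) g) t :=
  AnalyticAt.comp (g := fun y : Ph N → ℂ => eval y g) (f := y) (AnalyticOnNhd.eval_mvPolynomial g (y t) (Set.mem_univ _)) hy

/-- the vector field is analytic -/
theorem analyticAt_W {y : Ph N → ℂ} (hy : eval y (vdet G J) ≠ 0) : AnalyticAt ℂ (W G J) y := by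
  rw [analyticAt_pi_iff]
  intro s
  exact (AnalyticOnNhd.eval_mvPolynomial (fld G J s) y (Set.mem_univ _)).div
    (AnalyticOnNhd.eval_mvPolynomial (vdet G J) y (Set.mem_univ _)) hy

theorem const_of_crit {y : ℂ → Ph N → ℂ} {t : ℂ} (hy : AnalyticAt ℂ y t) (hd : ∀ᶠ s in 𝓝 t, HasDerivAt y (W G J (y s)) s)
    (hc : Crit G J (y t)) (l : ι) : ∀ᶠ s in 𝓝 t, eval (y s) (G l) = eval (y t) (G l) := by
  set g : ℕ → ℂ → ℂ := fun k s => eval (y s) ((⇑(Dt G J))^[k + 1] (G l)) with hg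
  have hga : ∀ k, AnalyticAt ℂ (g k) t := fun k => CritArc_eval hy _
  have hg0 : ∀ k, g k t = 0 := fun k => hc.2 l k
  have hδa : AnalyticAt ℂ (fun s => eval (y s) (vdet G J)) t := CritArc_eval hy _
  have hgd : ∀ k, deriv (g k) =ᶠ[𝓝 t] fun s => g (k + 1) s * (eval (y s) (vdet G J))⁻¹ := by
    intro k
    filter_upwards [hd] with s hs
    have h1 := hasDerivAt_eval hs ((⇑(Dt G J))^[k + 1] (G l))
    rw [h1.deriv, ← Function.iterate_succ_apply' (⇑(Dt G J)) (k + 1) (G l), div_eq_mul_inv]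
  have hord : ∀ k, analyticOrderAt (g k) t = analyticOrderAt (g (k + 1)) t + 1 := by
    intro k
    have h1 := (hga k).analyticOrderAt_deriv_add_one
    simp only [hg0 k, sub_zero] at h1
    have h2 : analyticOrderAt (deriv (g k)) t = analyticOrderAt (g (k + 1)) t := by
      rw [analyticOrderAt_congr (hgd k)]
      have h3 : AnalyticAt ℂ (fun s => (eval (y s) (vdet G J))⁻¹) t := hδa.inv hc.1
      have h4 : analyticOrderAt (fun s => (eval (y s) (vdet G J))⁻¹) t = 0 := by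
        rw [h3.analyticOrderAt_eq_zero]
        exact inv_ne_zero hc.1
      have h5 := analyticOrderAt_mul (hga (k + 1)) h3
      rw [h4, add_zero] at h5
      exact h5
    rw [← h2, h1]
  have hiter : ∀ n : ℕ, analyticOrderAt (g 0) t = analyticOrderAt (g n) t + n := by
    intro n
    induction n with
    | zero => simp
    | succ n ih =>
      rw [ih, hord n]
      push_cast
      rw [add_assoc, add_comm (1 : ℕ∞) (n : ℕ∞)]
  have htop : analyticOrderAt (g 0) t = ⊤ := by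
    by_contra hne
    obtain ⟨n, hn⟩ := ENat.ne_top_iff_exists.1 hne
    have h1 := hiter (n + 1)
    rw [← hn] at h1
    have h2 : ((n + 1 : ℕ) : ℕ∞) ≤ (n : ℕ∞) := by
      rw [h1]
      exact le_add_self
    have h3 : n + 1 ≤ n := by exact_mod_cast h2
    omega
  rw [analyticOrderAt_eq_top] at htop
  have hder : ∀ᶠ s in 𝓝 t, HasDerivAt (fun s => eval (y s) (G l)) 0 s := by
    filter_upwards [hd, htop] with s hs1 hs2
    have h1 := hasDerivAt_eval hs1 (G l)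
    have h2 : eval (y s) (Dt G J (G l)) = 0 := hs2
    rwa [h2, zero_div] at h1
  obtain ⟨r, hr, hball⟩ := Metric.eventually_nhds_iff_ball.1 hder
  filter_upwards [ball_mem_nhds t hr] with s hs
  have h1 : DifferentiableOn ℂ (fun s => eval (y s) (G l)) (ball t r) := fun z hz => (hball z hz).differentiableAt.differentiableWithinAt
  refine (convex_ball t r).is_const_of_fderivWithin_eq_zero (𝕜 := ℂ) h1 ?_ hs (mem_ball_self hr)
  intro z hz
  rw [fderivWithin_of_isOpen isOpen_ball hz]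
  have h2 := (hball z hz).hasFDerivAt.fderiv
  rw [h2]
  ext
  simp

theorem isInit_of_crit {y₀ : Ph N → ℂ} (hc : Crit G J y₀) : IsInit G y₀ := by
  obtain ⟨r, hr, H, hH, hH0, hHd⟩ := exists_flowG (analyticAt_W hc.1)
  set y : ℂ → Ph N → ℂ := fun s => H (s, y₀) with hy
  have hy0 : y 0 = y₀ := hH0 y₀ (mem_ball_self hr)
  have hya : AnalyticAt ℂ y 0 := by
    have h1 : AnalyticAt ℂ H ((0 : ℂ), y₀) := hH _ ⟨mem_ball_self hr, mem_ball_self hr⟩
    have h2 : AnalyticAt ℂ (fun s : ℂ => (s, y₀)) 0 := analyticAt_id.prod analyticAt_const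
    exact AnalyticAt.comp (g := H) (f := fun s : ℂ => (s, y₀)) h1 h2
  have hyd : ∀ᶠ s in 𝓝 (0 : ℂ), HasDerivAt y (W G J (y s)) s := by
    filter_upwards [ball_mem_nhds (0 : ℂ) hr] with s hs
    exact (hHd y₀ (mem_ball_self hr) s hs).2
  have hΔ : ∀ᶠ s in 𝓝 (0 : ℂ), eval (y s) (vdet G J) ≠ 0 := by
    have h1 : ContinuousAt (fun s => eval (y s) (vdet G J)) 0 := (CritArc_eval hya _).continuousAt
    refine h1.eventually_ne ?_
    rw [hy0]
    exact hc.1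
  set x : ℂ → Fin (N + 1) → ℂ := fun s b => y s (Sum.inl b) with hx
  have hxa : AnalyticAt ℂ x 0 := by
    rw [analyticAt_pi_iff]
    intro b
    exact (analyticAt_pi_iff.1 hya) (Sum.inl b)
  have hxd : ∀ᶠ s in 𝓝 (0 : ℂ), pt (x s) (deriv x s) = y s := by
    filter_upwards [hyd, hΔ] with s hs1 hs2
    have h1 : HasDerivAt x (fun b => y s (Sum.inr b)) s := by
      rw [hasDerivAt_pi]
      intro b
      have h2 := (hasDerivAt_pi.1 hs1) (Sum.inl b)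
      have h3 : W G J (y s) (Sum.inl b) = y s (Sum.inr b) := by
        simp only [W, fld, Sum.elim_inl, map_mul, eval_X]
        rw [mul_comm, mul_div_assoc, div_self hs2, mul_one]
      rwa [h3] at h2
    rw [h1.deriv]
    funext c
    cases c with
    | inl b => rfl
    | inr b => rfl
  refine ⟨x, ⟨hxa, fun l => ?_⟩, ?_⟩
  · have h0 := hxd.self_of_nhds
    have hc' : Crit G J (y 0) := by rwa [hy0]
    filter_upwards [const_of_crit hya hyd hc' l, hxd] with s h1 h2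
    rw [h2, h0]
    exact h1
  · rw [hxd.self_of_nhds, hy0]

end Pool.Agent.GG

end

section

/-!
# GG Loc: flow boxes

PROOF.  `V = W G J` is analytic at `Y`; `H₀` = flow of `exists_flowG`, `H = ` its `inl` part; `∂H/∂z` is its `inr` part (`W (inl b) = y (inr b)` where `vdet ≠ 0`, so shrink `r` such that `vdet ≠ 0` on the values of `H₀`).
`uniq`: `arc_ode` and `ode_uniqueG` for `s ↦ H₀ (s - t, y)`.  `const`: if `y` is the initial vector of an arc `x` then `x = H (·, y)` near `0`, so `G l (H, ∂H/∂z)` is constant near `0`, hence on the ball (identity theorem).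
`bound`: shrink `r` (continuity at `(0, Y)`).
-/

set_option autoImplicit false

open MvPolynomial Topology Filter Metric

namespace Pool.Agent.GG

variable {N : ℕ} {ι : Type} {G : ι → MvPolynomial (Ph N) ℂ} {J : Fin (N + 1) → ι}

private theorem Loc_inl {y : Ph N → ℂ} (h : eval y (vdet G J) ≠ 0) (b : Fin (N + 1)) : W G J y (Sum.inl b) = y (Sum.inr b) := by
  simp only [W, fld, Sum.elim_inl, map_mul, eval_X]
  rw [mul_comm, mul_div_assoc, div_self h, mul_one]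

/-- the box, before the choice of the constant -/
private theorem Loc_box {Y : Ph N → ℂ} (h : eval Y (vdet G J) ≠ 0) :
    ∃ r > 0, ∃ (K : ℝ) (H₀ : ℂ × (Ph N → ℂ) → (Ph N → ℂ)), ∀ q ∈ ball (0 : ℂ) r ×ˢ ball Y r,
      AnalyticAt ℂ H₀ q ∧ H₀ (0, q.2) = q.2 ∧ HasDerivAt (fun z => H₀ (z, q.2)) (W G J (H₀ q)) q.1 ∧ eval (H₀ q) (vdet G J) ≠ 0 ∧
        ‖H₀ q‖ ≤ K ∧ ‖fderiv ℂ H₀ q‖ ≤ K := by
  obtain ⟨r₀, hr₀, H₀, hHa, hH0, hHd⟩ := exists_flowG (analyticAt_W h)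
  have hc : AnalyticAt ℂ H₀ ((0 : ℂ), Y) := hHa _ ⟨mem_ball_self hr₀, mem_ball_self hr₀⟩
  have hY : H₀ ((0 : ℂ), Y) = Y := hH0 Y (mem_ball_self hr₀)
  have h1 : ∀ᶠ q in 𝓝 ((0 : ℂ), Y), eval (H₀ q) (vdet G J) ≠ 0 := by
    have h2 : ContinuousAt (fun q => eval (H₀ q) (vdet G J)) ((0 : ℂ), Y) :=
      (AnalyticAt.comp (g := fun y : Ph N → ℂ => eval y (vdet G J)) (f := H₀)
        (AnalyticOnNhd.eval_mvPolynomial (vdet G J) (H₀ ((0 : ℂ), Y)) (Set.mem_univ _)) hc).continuousAt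
    refine h2.eventually_ne ?_
    rwa [hY]
  have h2 : ∀ᶠ q in 𝓝 ((0 : ℂ), Y), ‖H₀ q‖ < ‖H₀ ((0 : ℂ), Y)‖ + 1 :=
    hc.continuousAt.norm.eventually_lt continuousAt_const (lt_add_one _)
  have h3 : ∀ᶠ q in 𝓝 ((0 : ℂ), Y), ‖fderiv ℂ H₀ q‖ < ‖fderiv ℂ H₀ ((0 : ℂ), Y)‖ + 1 :=
    hc.fderiv.continuousAt.norm.eventually_lt continuousAt_const (lt_add_one _)
  obtain ⟨δ, hδ, hB⟩ := Metric.eventually_nhds_iff_ball.1 (h1.and (h2.and h3))
  refine ⟨min r₀ δ, lt_min hr₀ hδ, max (‖H₀ ((0 : ℂ), Y)‖ + 1) (‖fderiv ℂ H₀ ((0 : ℂ), Y)‖ + 1), H₀, ?_⟩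
  rintro ⟨z, y⟩ ⟨hz, hy⟩
  have hz0 : z ∈ ball (0 : ℂ) r₀ := ball_subset_ball (min_le_left _ _) hz
  have hy0 : y ∈ ball Y r₀ := ball_subset_ball (min_le_left _ _) hy
  have hq : (z, y) ∈ ball ((0 : ℂ), Y) δ := by
    rw [← ball_prod_same]
    exact ⟨ball_subset_ball (min_le_right _ _) hz, ball_subset_ball (min_le_right _ _) hy⟩
  obtain ⟨g1, g2, g3⟩ := hB _ hq
  exact ⟨hHa _ ⟨hz0, hy0⟩, hH0 y hy0, (hHd y hy0 z hz0).2, g1, g2.le.trans (le_max_left _ _), g3.le.trans (le_max_right _ _)⟩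

theorem exists_Flow {Y : Ph N → ℂ} (h : eval Y (vdet G J) ≠ 0) :
    ∃ r > 0, ∃ (K : ℝ) (H : ℂ × (Ph N → ℂ) → Fin (N + 1) → ℂ), Flow G Y r r K H := by
  obtain ⟨r, hr, K, H₀, hH⟩ := Loc_box h
  have h00 : (0 : ℂ) ∈ ball (0 : ℂ) r := mem_ball_self hr
  -- the derivative of the first half
  have hd : ∀ q ∈ ball (0 : ℂ) r ×ˢ ball Y r, HasDerivAt (fun z => fun b => H₀ (z, q.2) (Sum.inl b)) (fun b => H₀ q (Sum.inr b)) q.1 := by
    intro q hq
    obtain ⟨-, -, g3, g4, -⟩ := hH q hq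
    rw [hasDerivAt_pi]
    intro b
    have h2 := (hasDerivAt_pi.1 g3) (Sum.inl b)
    rwa [Loc_inl g4] at h2
  have hpt : ∀ q ∈ ball (0 : ℂ) r ×ˢ ball Y r,
      pt (fun b => H₀ q (Sum.inl b)) (deriv (fun z => fun b => H₀ (z, q.2) (Sum.inl b)) q.1) = H₀ q := by
    intro q hq
    rw [(hd q hq).deriv]
    funext c
    cases c with
    | inl b => rfl
    | inr b => rfl
  have hdet : ∀ y ∈ ball Y r, eval y (vdet G J) ≠ 0 := by
    intro y hy
    obtain ⟨-, g2, -, g4, -⟩ := hH ((0 : ℂ), y) ⟨h00, hy⟩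
    have g2' : H₀ ((0 : ℂ), y) = y := g2
    rwa [g2'] at g4
  -- uniqueness
  have huniq : ∀ (x : ℂ → Fin (N + 1) → ℂ) (t : ℂ), ArcV G x t → pt (x t) (deriv x t) ∈ ball Y r →
      ∀ᶠ s in 𝓝 t, pt (x s) (deriv x s) = H₀ (s - t, pt (x t) (deriv x t)) := by
    intro x t hx hy
    obtain ⟨y, hydef⟩ : ∃ y, y = pt (x t) (deriv x t) := ⟨_, rfl⟩
    rw [← hydef] at hy ⊢
    have hv : eval (pt (x t) (deriv x t)) (vdet G J) ≠ 0 := by rw [← hydef]; exact hdet y hy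
    have d1 := arc_ode hx hv
    have hyt : H₀ (t - t, y) = y := by
      rw [sub_self]
      exact (hH ((0 : ℂ), y) ⟨h00, hy⟩).2.1
    refine ode_uniqueG (V := W G J) (y₁ := fun s => pt (x s) (deriv x s)) (y₂ := fun s => H₀ (s - t, y)) (analyticAt_W hv) ?_ d1 ?_
    · show pt (x t) (deriv x t) = H₀ (t - t, y)
      rw [hyt, hydef]
    · have h1 : ∀ᶠ s in 𝓝 t, s - t ∈ ball (0 : ℂ) r := by
        have h2 : Tendsto (fun s : ℂ => s - t) (𝓝 t) (𝓝 (t - t)) := (continuous_id.sub continuous_const).tendsto t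
        rw [sub_self] at h2
        exact h2.eventually (ball_mem_nhds _ hr)
      filter_upwards [h1] with s hs
      have h2 := (hH (s - t, y) ⟨hs, hy⟩).2.2.1
      have h3 : HasDerivAt (fun s : ℂ => s - t) 1 s := (hasDerivAt_id s).sub_const t
      have h4 := HasDerivAt.scomp s (h := fun s : ℂ => s - t) (g₁ := fun z => H₀ (z, y)) h2 h3
      rw [one_smul] at h4
      exact h4
  refine ⟨r, hr, K, fun q b => H₀ q (Sum.inl b), ⟨?_, ?_, ?_, ?_, ?_, ?_⟩⟩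
  · intro q hq
    rw [analyticAt_pi_iff]
    intro b
    exact (analyticAt_pi_iff.1 (hH q hq).1) (Sum.inl b)
  · intro y hy
    have h1 : H₀ ((0 : ℂ), y) = y := (hH ((0 : ℂ), y) ⟨h00, hy⟩).2.1
    funext b
    show H₀ ((0 : ℂ), y) (Sum.inl b) = y (Sum.inl b)
    rw [h1]
  · intro y hy
    have h1 : H₀ ((0 : ℂ), y) = y := (hH ((0 : ℂ), y) ⟨h00, hy⟩).2.1
    have h2 := (hd ((0 : ℂ), y) ⟨h00, hy⟩).deriv
    rw [h1] at h2
    exact h2
  · intro y hy hini z hz l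
    have h1 := hpt (z, y) ⟨hz, hy⟩
    show eval (pt (fun b => H₀ (z, y) (Sum.inl b)) (deriv (fun z => fun b => H₀ (z, y) (Sum.inl b)) z)) (G l) = eval y (G l)
    rw [h1]
    obtain ⟨x, hx, hxy⟩ := hini
    have h2 := huniq x 0 hx (by rw [hxy]; exact hy)
    rw [hxy] at h2
    have h3 : (fun s => eval (H₀ (s, y)) (G l)) =ᶠ[𝓝 0] fun _ => eval y (G l) := by
      filter_upwards [h2, hx.2 l] with s e1 e2
      rw [sub_zero] at e1
      rw [← e1, e2, hxy]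
    have h4 : AnalyticOnNhd ℂ (fun s => eval (H₀ (s, y)) (G l)) (ball (0 : ℂ) r) := by
      intro s hs
      have h5 : AnalyticAt ℂ H₀ (s, y) := (hH (s, y) ⟨hs, hy⟩).1
      have h6 : AnalyticAt ℂ (fun s : ℂ => (s, y)) s := analyticAt_id.prod analyticAt_const
      have h7 : AnalyticAt ℂ (fun s : ℂ => H₀ (s, y)) s := AnalyticAt.comp (g := H₀) (f := fun s : ℂ => (s, y)) h5 h6
      exact AnalyticAt.comp (g := fun y : Ph N → ℂ => eval y (G l)) (f := fun s : ℂ => H₀ (s, y))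
        (AnalyticOnNhd.eval_mvPolynomial (G l) (H₀ (s, y)) (Set.mem_univ _)) h7
    exact h4.eqOn_of_preconnected_of_eventuallyEq (g := fun _ => eval y (G l)) (fun _ _ => analyticAt_const) (convex_ball (0 : ℂ) r).isPreconnected h00 h3 hz
  · intro x t hx hy
    filter_upwards [huniq x t hx hy] with s hs
    funext b
    show x s b = H₀ (s - t, pt (x t) (deriv x t)) (Sum.inl b)
    rw [← hs]
    rfl
  · intro q hq
    obtain ⟨-, -, -, -, g5, g6⟩ := hH q hq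
    refine ⟨?_, ?_, ?_⟩
    · refine (pi_norm_le_iff_of_nonneg ((norm_nonneg _).trans g5)).2 fun b => (norm_le_pi_norm (H₀ q) (Sum.inl b)).trans g5
    · rw [(hd q hq).deriv]
      refine (pi_norm_le_iff_of_nonneg ((norm_nonneg _).trans g5)).2 fun b => (norm_le_pi_norm (H₀ q) (Sum.inr b)).trans g5
    · have h1 : (fun q : ℂ × (Ph N → ℂ) => pt (fun b => H₀ q (Sum.inl b)) (deriv (fun z => fun b => H₀ (z, q.2) (Sum.inl b)) q.1)) =ᶠ[𝓝 q] H₀ := by
        filter_upwards [(isOpen_ball.prod isOpen_ball).mem_nhds hq] with p hp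
        exact hpt p hp
      rw [h1.fderiv_eq]
      exact g6

end Pool.Agent.GG

end

section

/-!
# GG Fam2: the lengths of the variation, the start of the family

PROOFS.  `wl_of_famAt`: near `s = 0`, `F (z, s) = g (s) • x (s)`, `x (s)` = the `inl` part of `Y s`, `x (s) a = 1`, `g (s) = F (z, s) a`; so `∂F = ∂g • x + g • ∂x`, and `wl` is invariant: `wl (x, ∂x) ≤ 2 ‖∂x‖` (`‖x‖ = 1`).
`fam_start`: (1) new chart `a'` (largest coordinate of `x` at `s = 0`): as in `Fam1`, `x / x_(a')`.  (2) the lift at `(0, 0)` with the prescribed derivatives: `exists_row` and `exists_Flow` at `Y 0` in the chart `a` (`c 0 ≠ 0`, so `v ≠ 0`), `F (w, s) = H (w, Y s)`: `F (0, s) = x (s)`,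
`∂F/∂w (0, 0) = v`; `Φ (w, s) = [H (w, Y s)]` for `(w, s)` near `(0, 0)`: by `uniq` near `w = 0` for every `s` near `0`, and then on a fixed ball (`const`, `nArc_of_const`, `arcAt_of_nArc`, `arc_unique`).
-/

set_option autoImplicit false

open MvPolynomial Topology Filter Metric
open Pool.Agent.H13.SM (conTan cone)
open Pool.Agent.H17 (PN)
open Pool.Agent.H62.FC (Homog)

namespace Pool.Agent.GG

variable {N : ℕ} {P : Ideal (MvPolynomial (Fin (N + 1)) ℂ)} {J : ℕ} {m : Fin J → ℕ} {θ : ∀ k, SymSec P (m k)}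

private theorem fderiv_right {E₁ E₂ E₃ : Type*} [NormedAddCommGroup E₁] [NormedSpace ℂ E₁] [NormedAddCommGroup E₂] [NormedSpace ℂ E₂]
    [NormedAddCommGroup E₃] [NormedSpace ℂ E₃] {F : E₁ × E₂ → E₃} {z : E₁} {s : E₂} (h : DifferentiableAt ℂ F (z, s)) (e : E₂) :
    fderiv ℂ F (z, s) (0, e) = fderiv ℂ (fun s => F (z, s)) s e := by
  have h1 : HasFDerivAt (fun s => F (z, s)) ((fderiv ℂ F (z, s)).comp (ContinuousLinearMap.inr ℂ E₁ E₂)) s :=
    h.hasFDerivAt.comp s (hasFDerivAt_prodMk_right z s)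
  rw [h1.fderiv]
  rfl

private theorem fderiv_left {E₂ E₃ : Type*} [NormedAddCommGroup E₂] [NormedSpace ℂ E₂]
    [NormedAddCommGroup E₃] [NormedSpace ℂ E₃] {F : ℂ × E₂ → E₃} {z : ℂ} {s : E₂} (h : DifferentiableAt ℂ F (z, s)) :
    fderiv ℂ F (z, s) (1, 0) = deriv (fun w => F (w, s)) z := by
  have h1 : HasDerivAt (fun w : ℂ => (w, s)) ((1 : ℂ), (0 : E₂)) z := (hasDerivAt_id z).prodMk (hasDerivAt_const z s)
  have h2 : HasDerivAt (fun w => F (w, s)) (fderiv ℂ F (z, s) (1, 0)) z := h.hasFDerivAt.comp_hasDerivAt z h1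
  exact h2.deriv.symm

private theorem rep_eq {x y : Fin (N + 1) → ℂ} (hx : x ≠ 0) (hy : y ≠ 0) (h : Projectivization.mk ℂ x hx = Projectivization.mk ℂ y hy)
    {a : Fin (N + 1)} (ha : y a = 1) (b : Fin (N + 1)) : x b = x a * y b := by
  rw [Projectivization.mk_eq_mk_iff'] at h
  obtain ⟨t, ht⟩ := h
  rw [← ht]
  simp [ha]

/-- the constants of the arcs of a family -/
private theorem famAt_c (hP : Homog P) {d : ℕ} {Φ : ℂ × (Fin d → ℂ) → PN N} {c : (Fin d → ℂ) → Fin J → ℂ}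
    (hΦ : ∀ s z, ArcAt θ (c s) (fun w => Φ (w, s)) z) {a : Fin (N + 1)} {Y : (Fin d → ℂ) → Ph N → ℂ} {z : ℂ} (h : FamAt θ Φ a Y z) :
    ∀ᶠ s in 𝓝 (0 : Fin d → ℂ), ∃ x : ℂ → Fin (N + 1) → ℂ,
      NArc θ a (c s) x z ∧ Rep (fun w => Φ (w, s)) x z ∧ Y s = pt (x z) (deriv x z) := by
  filter_upwards [h.2] with s hs
  obtain ⟨c₁, x, hN, hR, hY⟩ := hs
  have ha : x z a = 1 := hN.2.self_of_nhds.2.1
  obtain ⟨h1, h2⟩ := nArc_of_lift hP (hΦ s z) hN.1 hR (a := a) (by rw [ha]; exact one_ne_zero)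
  have he : (fun w => (x w a)⁻¹ • x w) =ᶠ[𝓝 z] x := by
    filter_upwards [hN.2] with w hw
    rw [hw.2.1, inv_one, one_smul]
  refine ⟨_, h1, h2, ?_⟩
  rw [he.deriv_eq, hY]
  congr 1
  exact he.self_of_nhds.symm

private theorem hasDerivAt_quot {x : ℂ → Fin (N + 1) → ℂ} {z : ℂ} (h : DifferentiableAt ℂ x z) {a : Fin (N + 1)} (ha : x z a ≠ 0) :
    deriv (fun w => (x w a)⁻¹ • x w) z =
      fun b => (x z a)⁻¹ * deriv x z b - (x z a)⁻¹ * (x z a)⁻¹ * deriv x z a * x z b := by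
  have h1 : HasDerivAt x (deriv x z) z := h.hasDerivAt
  have h2 : HasDerivAt (fun w => (x w a)⁻¹ • x w) (fun b => (x z a)⁻¹ * deriv x z b - (x z a)⁻¹ * (x z a)⁻¹ * deriv x z a * x z b) z := by
    rw [hasDerivAt_pi]
    intro b
    have h3 := hasDerivAt_pi.1 h1 a
    have h4 := hasDerivAt_pi.1 h1 b
    have h5 := (h3.inv ha).mul h4
    have h6 : (fun w => ((x w a)⁻¹ • x w) b) = ((fun w => x w a)⁻¹ * fun w => x w b) := by
      funext w
      simp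
    rw [h6]
    refine h5.congr_deriv ?_
    simp only [Pi.inv_apply]
    field_simp
    ring
  exact h2.deriv

/-- the normalisation of a family -/
private theorem fam_norm (hP : Homog P) {d : ℕ} {Φ : ℂ × (Fin d → ℂ) → PN N} {c : (Fin d → ℂ) → Fin J → ℂ}
    (hΦ : ∀ s z, ArcAt θ (c s) (fun w => Φ (w, s)) z) {a : Fin (N + 1)} {Y : (Fin d → ℂ) → Ph N → ℂ} {z : ℂ} (h : FamAt θ Φ a Y z) :
    ∃ (a' : Fin (N + 1)) (Y' : (Fin d → ℂ) → Ph N → ℂ), FamAt θ Φ a' Y' z ∧ ∀ b, ‖Y' 0 (Sum.inl b)‖ ≤ 1 := by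
  have hx0 : Y 0 (Sum.inl a) = 1 := by
    obtain ⟨c₁, x, hN, hR, hY⟩ := h.2.self_of_nhds
    rw [hY]
    exact hN.2.self_of_nhds.2.1
  obtain ⟨a', -, ha'⟩ := Finset.exists_max_image (Finset.univ : Finset (Fin (N + 1))) (fun b => ‖Y 0 (Sum.inl b)‖) ⟨a, Finset.mem_univ a⟩
  have hpos : 0 < ‖Y 0 (Sum.inl a')‖ := by
    refine lt_of_lt_of_le one_pos ?_
    have h1 := ha' a (Finset.mem_univ a)
    rwa [hx0, norm_one] at h1
  have hne : Y 0 (Sum.inl a') ≠ 0 := norm_pos_iff.1 hpos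
  have hYc : ∀ i, AnalyticAt ℂ (fun s => Y s i) 0 := analyticAt_pi_iff.1 h.1
  refine ⟨a', fun s => pt (fun b => (Y s (Sum.inl a'))⁻¹ * Y s (Sum.inl b))
    (fun b => (Y s (Sum.inl a'))⁻¹ * Y s (Sum.inr b) - (Y s (Sum.inl a'))⁻¹ * (Y s (Sum.inl a'))⁻¹ * Y s (Sum.inr a') * Y s (Sum.inl b)),
    ⟨?_, ?_⟩, ?_⟩
  · have hi : AnalyticAt ℂ (fun s => (Y s (Sum.inl a'))⁻¹) 0 := (hYc _).inv hne
    refine analyticAt_pi_iff.2 ?_
    rintro (b | b)
    · exact hi.mul (hYc _)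
    · exact (hi.mul (hYc _)).sub (((hi.mul hi).mul (hYc _)).mul (hYc _))
  · have hev : ∀ᶠ s in 𝓝 (0 : Fin d → ℂ), Y s (Sum.inl a') ≠ 0 := (hYc _).continuousAt.eventually_ne hne
    filter_upwards [h.2, hev] with s hs hs2
    obtain ⟨c₁, x, hN, hR, hY⟩ := hs
    have hxa : x z a' = Y s (Sum.inl a') := by rw [hY]; rfl
    have hxa0 : x z a' ≠ 0 := by
      rw [hxa]
      exact hs2
    obtain ⟨h1, h2⟩ := nArc_of_lift hP (hΦ s z) hN.1 hR hxa0
    refine ⟨c s, _, h1, h2, ?_⟩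
    rw [hasDerivAt_quot hN.1.differentiableAt hxa0, hY]
    rfl
  · intro b
    show ‖(Y 0 (Sum.inl a'))⁻¹ * Y 0 (Sum.inl b)‖ ≤ 1
    rw [norm_mul, norm_inv, inv_mul_le_iff₀ hpos, mul_one]
    exact ha' b (Finset.mem_univ b)

theorem fam_start (hP : Homog P) (hθ : Polar θ) (hm : ∀ k, 1 ≤ m k) (f : Frame θ) {d : ℕ} {Φ : ℂ × (Fin d → ℂ) → PN N} {c : (Fin d → ℂ) → Fin J → ℂ} (hc : c 0 ≠ 0)
    (hΦ : ∀ s z, ArcAt θ (c s) (fun w => Φ (w, s)) z) {a : Fin (N + 1)} {Y : (Fin d → ℂ) → Ph N → ℂ} (h : FamAt θ Φ a Y 0) :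
    (∃ (a' : Fin (N + 1)) (Y' : (Fin d → ℂ) → Ph N → ℂ), FamAt θ Φ a' Y' 0 ∧ ∀ b, ‖Y' 0 (Sum.inl b)‖ ≤ 1) ∧
    ∃ F, RepN P Φ F (0, 0) ∧ F (0, 0) = (fun b => Y 0 (Sum.inl b)) ∧ fderiv ℂ F (0, 0) (1, 0) = (fun b => Y 0 (Sum.inr b)) ∧
      ∀ i, fderiv ℂ F (0, 0) (0, Pi.single i 1) = fun b => fderiv ℂ Y 0 (Pi.single i 1) (Sum.inl b) := by
  refine ⟨fam_norm hP hΦ h, ?_⟩
  have hfam := famAt_c hP hΦ h
  obtain ⟨x₀, hN₀, -, hY₀⟩ := hfam.self_of_nhds
  obtain ⟨-, hT₀⟩ := arcV_of_nArc f hN₀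
  obtain ⟨I, hI⟩ := exists_row hθ f hT₀ (ne_zero_of_isTan hm hT₀ hc)
  rw [← hY₀] at hI
  obtain ⟨r, hr, K, H, hH⟩ := exists_Flow hI
  have hYc : AnalyticAt ℂ Y 0 := h.1
  have hYb : ∀ᶠ s in 𝓝 (0 : Fin d → ℂ), Y s ∈ ball (Y 0) r := hYc.continuousAt.eventually (ball_mem_nhds _ hr)
  have hmem0 : ((0 : ℂ), Y 0) ∈ ball (0 : ℂ) r ×ˢ ball (Y 0) r := ⟨mem_ball_self hr, mem_ball_self hr⟩
  have hFa : AnalyticAt ℂ (fun q : ℂ × (Fin d → ℂ) => H (q.1, Y q.2)) (0, 0) := by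
    have h2 : AnalyticAt ℂ (fun q : ℂ × (Fin d → ℂ) => (q.1, Y q.2)) (0, 0) := by
      refine analyticAt_fst.prod ?_
      exact AnalyticAt.comp_of_eq hYc analyticAt_snd rfl
    exact AnalyticAt.comp_of_eq (hH.an _ hmem0) h2 rfl
  have hF0 : ∀ᶠ s in 𝓝 (0 : Fin d → ℂ), H (0, Y s) = fun b => Y s (Sum.inl b) := by
    filter_upwards [hYb] with s hs
    exact hH.zero _ hs
  refine ⟨fun q => H (q.1, Y q.2), ⟨hFa, ?_⟩, hH.zero _ (mem_ball_self hr), ?_, ?_⟩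
  · have key : ∀ᶠ s in 𝓝 (0 : Fin d → ℂ), ∀ w ∈ ball (0 : ℂ) r, H (w, Y s) ∈ cone P ∧
        ∃ h : H (w, Y s) ≠ 0, Φ (w, s) = Projectivization.mk ℂ (H (w, Y s)) h := by
      filter_upwards [hfam, hYb] with s hs hsb
      obtain ⟨x, hN, hR, hY⟩ := hs
      obtain ⟨hV, hT⟩ := arcV_of_nArc f hN
      have hlift : ∀ z ∈ ball (0 : ℂ) r, NArc θ a (c s) (fun w => H (w, Y s)) z := by
        intro z hz
        refine nArc_of_const f hT ?_ ?_
        · have h2 : AnalyticAt ℂ (fun w : ℂ => (w, Y s)) z := analyticAt_id.prod analyticAt_const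
          exact AnalyticAt.comp_of_eq (f := fun w : ℂ => (w, Y s)) (hH.an _ ⟨hz, hsb⟩) h2 rfl
        · intro l
          have hn : ∀ᶠ w in 𝓝 z, w ∈ ball (0 : ℂ) r := isOpen_ball.mem_nhds hz
          filter_upwards [hn] with w hw
          rw [← hY]
          refine hH.const (Y s) hsb ?_ w hw l
          rw [hY]
          exact isInit_of_nArc f hN
      have h0 : ∀ w ∈ ball (0 : ℂ) r, H (w, Y s) ∈ cone P := fun w hw => (hlift w hw).2.self_of_nhds.1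
      obtain ⟨g', hg'⟩ : ∃ g' : ℂ → PN N, ∀ w ∈ ball (0 : ℂ) r, ∃ h : H (w, Y s) ≠ 0, g' w = Projectivization.mk ℂ (H (w, Y s)) h := by
        classical
        refine ⟨fun w => if h : H (w, Y s) ≠ 0 then Projectivization.mk ℂ (H (w, Y s)) h else Φ (0, 0), fun w hw => ?_⟩
        have h1 : H (w, Y s) ≠ 0 := (h0 w hw).1
        exact ⟨h1, dif_pos h1⟩
      have hg'' : ∀ z ∈ ball (0 : ℂ) r, ArcAt θ (c s) g' z := by
        intro z hz
        refine arcAt_of_nArc (hlift z hz) ?_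
        filter_upwards [isOpen_ball.mem_nhds hz] with w hw
        exact hg' w hw
      have heq : ∀ᶠ w in 𝓝 (0 : ℂ), Φ (w, s) = g' w := by
        have hu := hH.uniq x 0 hV (by rw [← hY]; exact hsb)
        filter_upwards [hu, hR, ball_mem_nhds (0 : ℂ) hr] with w hw1 hw2 hw3
        obtain ⟨h1, h2⟩ := hw2
        obtain ⟨h3, h4⟩ := hg' w hw3
        rw [h2, h4]
        congr 1
        rw [hw1, sub_zero, hY]
      have hall := arc_unique isOpen_ball (convex_ball (0 : ℂ) r).isPreconnected (fun z _ => hΦ s z) hg'' (mem_ball_self hr) heq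
      intro w hw
      refine ⟨h0 w hw, ?_⟩
      obtain ⟨h1, h2⟩ := hg' w hw
      exact ⟨h1, (hall w hw).trans h2⟩
    rw [nhds_prod_eq]
    have hw : ∀ᶠ w in 𝓝 (0 : ℂ), w ∈ ball (0 : ℂ) r := ball_mem_nhds _ hr
    filter_upwards [hw.prod_mk key] with q hq
    exact hq.2 q.1 hq.1
  · rw [fderiv_left hFa.differentiableAt]
    exact hH.der _ (mem_ball_self hr)
  · intro i
    rw [fderiv_right hFa.differentiableAt]
    have h2 : (fun s => H (0, Y s)) =ᶠ[𝓝 0] fun s b => Y s (Sum.inl b) := hF0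
    have h3 : fderiv ℂ (fun s => H (0, Y s)) 0 = fderiv ℂ (fun s b => Y s (Sum.inl b)) (0 : Fin d → ℂ) := h2.fderiv_eq
    rw [h3]
    funext b
    have h4 : HasFDerivAt Y (fderiv ℂ Y 0) 0 := hYc.differentiableAt.hasFDerivAt
    have h5 : HasFDerivAt (fun (s : Fin d → ℂ) (b : Fin (N + 1)) => Y s (Sum.inl b))
        (ContinuousLinearMap.pi fun b => (ContinuousLinearMap.proj (Sum.inl b)).comp (fderiv ℂ Y 0)) 0 :=
      hasFDerivAt_pi.2 fun b => (hasFDerivAt_pi'.1 h4) (Sum.inl b)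
    rw [h5.fderiv]
    rfl

end Pool.Agent.GG

end

section

/-!
# GG Unif: flow boxes of a uniform size

PROOF.  For `Y ∈ Kset θ a C`: `v ≠ 0` (`ne_zero_of_isTan`), `exists_row` and `exists_Flow` give `r_Y, K_Y, H_Y`.  Finitely many balls `ball Y (r_Y / 2)` cover the compact set, for the finitely many `a`; `r` = the minimum of the `r_Y / 2`, `K` = the maximum.
For `Y' ∈ ball Y (r_Y / 2)`: `ε = r_Y / 2`, `H = H_Y` (`ball Y' ε ⊆ ball Y r_Y`; all fields are monotone).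
-/

set_option autoImplicit false

open MvPolynomial Topology Filter Metric
open Pool.Agent.H13.SM (conTan cone)

namespace Pool.Agent.GG

variable {N : ℕ} {P : Ideal (MvPolynomial (Fin (N + 1)) ℂ)} {J : ℕ} {m : Fin J → ℕ} {θ : ∀ k, SymSec P (m k)}

/-- smaller flow boxes -/
theorem Flow.anti {ι : Type} {G : ι → MvPolynomial (Ph N) ℂ} {Y Y' : Ph N → ℂ} {r r' ε ε' K K' : ℝ} {H : ℂ × (Ph N → ℂ) → Fin (N + 1) → ℂ}
    (h : Flow G Y r ε K H) (hr : r' ≤ r) (hε : ball Y' ε' ⊆ ball Y ε) (hK : K ≤ K') : Flow G Y' r' ε' K' H where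
  an := fun q hq => h.an q ⟨ball_subset_ball hr hq.1, hε hq.2⟩
  zero := fun y hy => h.zero y (hε hy)
  der := fun y hy => h.der y (hε hy)
  const := fun y hy hI z hz l => h.const y (hε hy) hI z (ball_subset_ball hr hz) l
  uniq := fun x t hx hy => h.uniq x t hx (hε hy)
  bound := fun q hq => by
    obtain ⟨h1, h2, h3⟩ := h.bound q ⟨ball_subset_ball hr hq.1, hε hq.2⟩
    exact ⟨h1.trans hK, h2.trans hK, h3.trans hK⟩

theorem unif (hθ : Polar θ) (hm : ∀ k, 1 ≤ m k) (f : Frame θ) {C : Set (Fin J → ℂ)} (hC : IsCompact C) (h0 : (0 : Fin J → ℂ) ∉ C) :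
    ∃ r > 0, ∃ K : ℝ, ∀ a, ∀ Y ∈ Kset θ a C, ∃ ε > 0, ∃ H : ℂ × (Ph N → ℂ) → Fin (N + 1) → ℂ, Flow (gfam f a) Y r ε K H := by
  have key : ∀ a : Fin (N + 1), ∃ r > 0, ∃ K : ℝ, ∀ Y ∈ Kset θ a C, ∃ ε > 0, ∃ H : ℂ × (Ph N → ℂ) → Fin (N + 1) → ℂ,
      Flow (gfam f a) Y r ε K H := by
    intro a
    refine (isCompact_Kset hθ hm a hC).induction_on (p := fun S => ∃ r > 0, ∃ K : ℝ, ∀ Y ∈ S, ∃ ε > 0,
      ∃ H : ℂ × (Ph N → ℂ) → Fin (N + 1) → ℂ, Flow (gfam f a) Y r ε K H) ?_ ?_ ?_ ?_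
    · exact ⟨1, one_pos, 0, fun Y hY => absurd hY (Set.notMem_empty Y)⟩
    · rintro S T hST ⟨r, hr, K, h⟩
      exact ⟨r, hr, K, fun Y hY => h Y (hST hY)⟩
    · rintro S T ⟨r, hr, K, h⟩ ⟨r', hr', K', h'⟩
      refine ⟨min r r', lt_min hr hr', max K K', ?_⟩
      rintro Y (hY | hY)
      · obtain ⟨ε, hε, H, hH⟩ := h Y hY
        exact ⟨ε, hε, H, hH.anti (min_le_left _ _) subset_rfl (le_max_left _ _)⟩
      · obtain ⟨ε, hε, H, hH⟩ := h' Y hY
        exact ⟨ε, hε, H, hH.anti (min_le_right _ _) subset_rfl (le_max_right _ _)⟩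
    · rintro Y ⟨x, v, c, rfl, hT, -, hc⟩
      have hc0 : c ≠ 0 := fun h => h0 (h ▸ hc)
      obtain ⟨I, hI⟩ := exists_row hθ f hT (ne_zero_of_isTan hm hT hc0)
      obtain ⟨r, hr, K, H, hH⟩ := exists_Flow hI
      refine ⟨ball (pt x v) (r / 2), mem_nhdsWithin_of_mem_nhds (ball_mem_nhds _ (by positivity)), r, hr, K, fun Y' hY' => ?_⟩
      refine ⟨r / 2, by positivity, H, hH.anti le_rfl (ball_subset_ball' ?_) le_rfl⟩
      have h1 : dist Y' (pt x v) < r / 2 := hY'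
      linarith
  choose ra hra Ka hKa using key
  have hne : (Finset.univ : Finset (Fin (N + 1))).Nonempty := ⟨0, Finset.mem_univ 0⟩
  refine ⟨Finset.univ.inf' hne ra, (Finset.lt_inf'_iff hne).2 fun a _ => hra a, Finset.univ.sup' hne Ka, fun a Y hY => ?_⟩
  obtain ⟨ε, hε, H, hH⟩ := hKa a Y hY
  exact ⟨ε, hε, H, hH.anti (Finset.inf'_le ra (Finset.mem_univ a)) subset_rfl (Finset.le_sup' Ka (Finset.mem_univ a))⟩

end Pool.Agent.GG

end

section

/-!
# GG Fam0: the family of entire curves with given initial vectors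

PROOF.  `c s = θ (Y s) = (A_(a,k) (Y s))_k` is continuous at `0`, `c 0 ≠ 0`; `C` = a closed ball with centre `c 0` which does not contain `0`; `unif` for `C`.  For `s` near `0` (`c s ∈ C`, `hI`) the arc of `IsInit` is a `NArc` (`nArc_of_const`), its image in `ℙ^N` an `ArcAt`
(`arcAt_of_nArc`), and `exists_entire` gives `Φ (·, s)`; for the other `s` let `Φ (·, s) = Φ (·, 0)`, `c s = c 0`.
-/

set_option autoImplicit false

open MvPolynomial Topology Filter Metric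
open Pool.Agent.H13.SM (conTan cone)
open Pool.Agent.H17 (PN)
open Pool.Agent.H62.FC (Homog)

namespace Pool.Agent.GG

variable {N : ℕ} {P : Ideal (MvPolynomial (Fin (N + 1)) ℂ)} {J : ℕ} {m : Fin J → ℕ} {θ : ∀ k, SymSec P (m k)}

open Classical in
theorem exists_Phi (hP : Homog P) (hθ : Polar θ) (hm : ∀ k, 1 ≤ m k) (f : Frame θ) {d : ℕ} {a : Fin (N + 1)} {Y : (Fin d → ℂ) → Ph N → ℂ}
    (hY : AnalyticAt ℂ Y 0) (hI : ∀ᶠ s in 𝓝 (0 : Fin d → ℂ), ∃ x v c, Y s = pt x v ∧ IsTan θ a c x v ∧ c ≠ 0 ∧ IsInit (gfam f a) (Y s)) :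
    ∃ (Φ : ℂ × (Fin d → ℂ) → PN N) (c : (Fin d → ℂ) → Fin J → ℂ), c 0 ≠ 0 ∧ (∀ s z, ArcAt θ (c s) (fun w => Φ (w, s)) z) ∧ FamAt θ Φ a Y 0 := by
  set cc : (Fin d → ℂ) → Fin J → ℂ := fun s k => eval (Y s) (f.A a k) with hcc
  have hcont : ContinuousAt cc 0 := by
    rw [continuousAt_pi]
    intro k
    exact (AnalyticAt.comp (g := fun y : Ph N → ℂ => eval y (f.A a k)) (f := Y)
      (AnalyticOnNhd.eval_mvPolynomial (f.A a k) (Y 0) (Set.mem_univ _)) hY).continuousAt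
  have hval : ∀ (s : Fin d → ℂ) (x v : Fin (N + 1) → ℂ) (c : Fin J → ℂ), Y s = pt x v → IsTan θ a c x v → c = cc s := by
    intro s x v c hs hT
    funext k
    rw [← hT.2.2.2.2 k, f.hA a k x hT.1 hT.2.1 v hT.2.2.1, hcc]
    simp only [hs]
  have hcc0 : cc 0 ≠ 0 := by
    obtain ⟨x, v, c, h1, h2, h3, -⟩ := hI.self_of_nhds
    rwa [← hval 0 x v c h1 h2]
  have hpos : 0 < ‖cc 0‖ := norm_pos_iff.2 hcc0
  have h0C : (0 : Fin J → ℂ) ∉ closedBall (cc 0) (‖cc 0‖ / 2) := by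
    intro h
    rw [mem_closedBall, dist_eq_norm, zero_sub, norm_neg] at h
    linarith
  obtain ⟨r, hr, K, hU⟩ := unif hθ hm f (isCompact_closedBall (cc 0) (‖cc 0‖ / 2)) h0C
  have key : ∀ᶠ s in 𝓝 (0 : Fin d → ℂ), ∃ (c : Fin J → ℂ) (x : ℂ → Fin (N + 1) → ℂ) (g : ℂ → PN N), c ≠ 0 ∧ (∀ z, ArcAt θ c g z) ∧
      NArc θ a c x 0 ∧ Rep g x 0 ∧ Y s = pt (x 0) (deriv x 0) := by
    filter_upwards [hI, hcont.eventually (closedBall_mem_nhds (cc 0) (by positivity : (0 : ℝ) < ‖cc 0‖ / 2))] with s hs hsC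
    obtain ⟨x₀, v₀, c, h1, h2, h3, x, ⟨hxa, hxc⟩, hx0⟩ := hs
    have hc : c = cc s := hval s x₀ v₀ c h1 h2
    have hn : NArc θ a c x 0 := by
      refine nArc_of_const f h2 hxa fun l => ?_
      filter_upwards [hxc l] with w hw
      rw [hw, hx0, h1]
    have hx1 : x 0 a = 1 := hn.2.self_of_nhds.2.1
    have hxne : x 0 ≠ 0 := by
      intro h
      rw [h] at hx1
      exact zero_ne_one hx1
    set g : ℂ → PN N := fun w => if h : x w ≠ 0 then Projectivization.mk ℂ (x w) h else Projectivization.mk ℂ (x 0) hxne with hg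
    have hrep : Rep g x 0 := by
      filter_upwards [hxa.continuousAt.eventually_ne hxne] with w hw
      exact ⟨hw, by rw [hg]; simp only [dif_pos hw]⟩
    have harc : ArcAt θ c g 0 := arcAt_of_nArc hn hrep
    have hU' : ∀ a, ∀ Y ∈ Kset θ a {c}, ∃ ε > 0, ∃ H : ℂ × (Ph N → ℂ) → Fin (N + 1) → ℂ, Flow (gfam f a) Y r ε K H := by
      rintro a Y ⟨x, v, c', hy, hT, hb, hc'⟩
      refine hU a Y ⟨x, v, c', hy, hT, hb, ?_⟩
      rw [Set.mem_singleton_iff] at hc'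
      rw [hc', hc]
      exact hsC
    obtain ⟨g', hg', he⟩ := exists_entire hP f hr hU' harc
    refine ⟨c, x, g', h3, hg', hn, ?_, hx0.symm⟩
    filter_upwards [he, hrep] with w hw1 hw2
    obtain ⟨h, hw3⟩ := hw2
    exact ⟨h, hw1.trans hw3⟩
  obtain ⟨c₀, x₀, g₀, hc₀, hg₀, -, -, -⟩ := key.self_of_nhds
  have hall : ∀ s : Fin d → ℂ, ∃ (c : Fin J → ℂ) (g : ℂ → PN N), c ≠ 0 ∧ (∀ z, ArcAt θ c g z) ∧
      ((∃ (c : Fin J → ℂ) (x : ℂ → Fin (N + 1) → ℂ) (g : ℂ → PN N), c ≠ 0 ∧ (∀ z, ArcAt θ c g z) ∧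
        NArc θ a c x 0 ∧ Rep g x 0 ∧ Y s = pt (x 0) (deriv x 0)) →
        ∃ x : ℂ → Fin (N + 1) → ℂ, NArc θ a c x 0 ∧ Rep g x 0 ∧ Y s = pt (x 0) (deriv x 0)) := by
    intro s
    by_cases h : ∃ (c : Fin J → ℂ) (x : ℂ → Fin (N + 1) → ℂ) (g : ℂ → PN N), c ≠ 0 ∧ (∀ z, ArcAt θ c g z) ∧
        NArc θ a c x 0 ∧ Rep g x 0 ∧ Y s = pt (x 0) (deriv x 0)
    · obtain ⟨c, x, g, h1, h2, h3, h4, h5⟩ := h
      exact ⟨c, g, h1, h2, fun _ => ⟨x, h3, h4, h5⟩⟩
    · exact ⟨c₀, g₀, hc₀, hg₀, fun h' => absurd h' h⟩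
  choose c g hc hg hx using hall
  refine ⟨fun q => g q.2 q.1, c, hc 0, fun s z => hg s z, hY, ?_⟩
  filter_upwards [key] with s hs
  obtain ⟨x, h1, h2, h3⟩ := hx s hs
  exact ⟨c s, x, h1, h2, h3⟩

end Pool.Agent.GG

end
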