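import Mathlib

/-! The parts of this file: GA.CntA, GA.EigA, GG.Alg, GG.GenA, GQ.Flat, GQ.Gro, H17EF.Alg, H22.TB.OfSheets, H62.Qe.TopQ. -/

section

/-!
# GA CntA: continuation of germs on a convex open set (note 4590 (4))

`Sol σ z` is a property of the germ of `σ` at `z`.  If every point of the convex open set `Ω` has a ball to which all solutions over convex open subsets
extend, then every germ of a solution is the germ of a solution over `Ω`.
-/

set_option autoImplicit false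

open Topology Filter Metric Set

namespace Pool.Agent.GA

variable {Y : Type*}

private theorem seg_subset {z₀ z z' : ℂ} {δ : ℝ} (h : dist z' z < δ) : segment ℝ z₀ z' ⊆ thickening δ (segment ℝ z₀ z) := by
  intro w hw
  obtain ⟨a, b, ha, hb, hab, rfl⟩ := hw
  rw [mem_thickening_iff]
  refine ⟨a • z₀ + b • z, ⟨a, b, ha, hb, hab, rfl⟩, ?_⟩
  rw [dist_add_left, dist_smul₀, Real.norm_of_nonneg hb]
  have hb1 : b ≤ 1 := by linarith
  calc b * dist z' z ≤ 1 * dist z' z := mul_le_mul_of_nonneg_right hb1 dist_nonneg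
    _ = dist z' z := one_mul _
    _ < δ := h

/-- continuation along the segments from `z₀` -/
private theorem exists_segment {Ω : Set ℂ} (hc : Convex ℝ Ω) {Sol : (ℂ → Y) → ℂ → Prop}
    (congr : ∀ (σ σ' : ℂ → Y) (z : ℂ), Sol σ z → σ =ᶠ[𝓝 z] σ' → Sol σ' z)
    (ext : ∀ z ∈ Ω, ∃ r > 0, ball z r ⊆ Ω ∧ ∀ W : Set ℂ, IsOpen W → Convex ℝ W → W ⊆ ball z r → W.Nonempty →
      ∀ σ : ℂ → Y, (∀ w ∈ W, Sol σ w) → ∃ σ' : ℂ → Y, (∀ w ∈ ball z r, Sol σ' w) ∧ EqOn σ σ' W)
    {z₀ : ℂ} (h₀ : z₀ ∈ Ω) {σ₀ : ℂ → Y} {r₀ : ℝ} (hr₀ : 0 < r₀) (hsub : ball z₀ r₀ ⊆ Ω) (hσ : ∀ w ∈ ball z₀ r₀, Sol σ₀ w) {z : ℂ} (hz : z ∈ Ω) :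
    ∃ δ > 0, ∃ σ : ℂ → Y, thickening δ (segment ℝ z₀ z) ⊆ Ω ∧ (∀ w ∈ thickening δ (segment ℝ z₀ z), Sol σ w) ∧ σ =ᶠ[𝓝 z₀] σ₀ := by
  classical
  set γ : ℝ → ℂ := fun t => z₀ + t • (z - z₀) with hγ
  have hγc : Continuous γ := continuous_const.add (continuous_id.smul continuous_const)
  set u : Set ℝ := {t | ∃ δ > 0, ∃ σ : ℂ → Y, thickening δ (segment ℝ z₀ (γ t)) ⊆ Ω ∧
    (∀ w ∈ thickening δ (segment ℝ z₀ (γ t)), Sol σ w) ∧ σ =ᶠ[𝓝 z₀] σ₀} with hu
  have hopen : IsOpen u := by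
    rw [Metric.isOpen_iff]
    rintro t ⟨δ, hδ, σ, h1, h2, h3⟩
    have hcont := hγc.continuousAt (x := t)
    obtain ⟨ε, hε, hb⟩ := Metric.continuousAt_iff.1 hcont (δ / 2) (half_pos hδ)
    refine ⟨ε, hε, fun t' ht' => ?_⟩
    have hd : dist (γ t') (γ t) < δ / 2 := hb ht'
    have hss : thickening (δ / 2) (segment ℝ z₀ (γ t')) ⊆ thickening δ (segment ℝ z₀ (γ t)) := by
      calc thickening (δ / 2) (segment ℝ z₀ (γ t')) ⊆ thickening (δ / 2) (thickening (δ / 2) (segment ℝ z₀ (γ t))) :=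
            thickening_subset_of_subset _ (seg_subset hd)
        _ ⊆ thickening (δ / 2 + δ / 2) (segment ℝ z₀ (γ t)) := thickening_thickening_subset _ _ _
        _ = thickening δ (segment ℝ z₀ (γ t)) := by rw [add_halves]
    exact ⟨δ / 2, half_pos hδ, σ, hss.trans h1, fun w hw => h2 w (hss hw), h3⟩
  have hzero : (0 : ℝ) ∈ u := by
    have e : segment ℝ z₀ (γ 0) = {z₀} := by
      rw [hγ]; simp
    refine ⟨r₀, hr₀, σ₀, ?_, ?_, EventuallyEq.rfl⟩
    · rw [e, thickening_singleton]; exact hsub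
    · rw [e, thickening_singleton]; exact hσ
  have hmemΩ : ∀ t ∈ Icc (0 : ℝ) 1, γ t ∈ Ω := by
    intro t ht
    exact hc.add_smul_sub_mem h₀ hz ht
  have hclosed : closure u ∩ Icc (0 : ℝ) 1 ⊆ u := by
    rintro t ⟨htc, htI⟩
    obtain ⟨r, hr, hrΩ, hext⟩ := ext (γ t) (hmemΩ t htI)
    obtain ⟨ε, hε, hb⟩ := Metric.continuousAt_iff.1 (hγc.continuousAt (x := t)) r hr
    obtain ⟨t', ⟨δ, hδ, σ₁, h1, h2, h3⟩, htt⟩ := Metric.mem_closure_iff.1 htc ε hε
    have hd : γ t' ∈ ball (γ t) r := hb (by rw [dist_comm]; exact htt)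
    set A : Set ℂ := thickening δ (segment ℝ z₀ (γ t')) with hA
    have hAo : IsOpen A := isOpen_thickening
    have hAc : Convex ℝ A := (convex_segment _ _).thickening _
    have hWo : IsOpen (A ∩ ball (γ t) r) := hAo.inter isOpen_ball
    have hWc : Convex ℝ (A ∩ ball (γ t) r) := hAc.inter (convex_ball _ _)
    have hWn : (A ∩ ball (γ t) r).Nonempty :=
      ⟨γ t', self_subset_thickening hδ _ (right_mem_segment ℝ _ _), hd⟩
    obtain ⟨σ₂, h4, h5⟩ := hext _ hWo hWc inter_subset_right hWn σ₁ (fun w hw => h2 w hw.1)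
    set σ₃ : ℂ → Y := fun w => if w ∈ A then σ₁ w else σ₂ w with hσ₃
    have hs1 : ∀ w ∈ A, Sol σ₃ w := by
      intro w hw
      refine congr σ₁ σ₃ w (h2 w hw) ?_
      filter_upwards [hAo.mem_nhds hw] with w' hw'
      rw [hσ₃]
      exact (if_pos hw').symm
    have hs2 : ∀ w ∈ ball (γ t) r, Sol σ₃ w := by
      intro w hw
      refine congr σ₂ σ₃ w (h4 w hw) ?_
      filter_upwards [isOpen_ball.mem_nhds hw] with w' hw'
      show σ₂ w' = if w' ∈ A then σ₁ w' else σ₂ w'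
      by_cases hA' : w' ∈ A
      · rw [if_pos hA']; exact (h5 ⟨hA', hw'⟩).symm
      · rw [if_neg hA']
    -- the segment is in `A ∪ ball`
    have hcomp : IsCompact (segment ℝ z₀ (γ t)) := by
      rw [segment_eq_image]
      exact isCompact_Icc.image (by fun_prop)
    have hsegsub : segment ℝ z₀ (γ t) ⊆ A ∪ ball (γ t) r := by
      intro w hw
      obtain ⟨a, b, ha, hb', hab, rfl⟩ := hw
      -- the points of the segment are on the line through `z₀` and `z`
      by_cases hcase : b * t ≤ t'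
      · left
        refine self_subset_thickening hδ _ ?_
        by_cases ht0 : t' ≤ 0
        · -- then `b t ≤ t' ≤ 0`, so both vanish
          have h6 : 0 ≤ b * t := mul_nonneg hb' htI.1
          have h7 : b * t = 0 := le_antisymm (hcase.trans ht0) h6
          have h8 : a • z₀ + b • γ t = z₀ := by
            rw [hγ]
            simp only [smul_add, smul_smul, h7, zero_smul, add_zero, ← add_smul, hab, one_smul]
          rw [h8]
          exact left_mem_segment ℝ _ _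
        · push Not at ht0
          refine ⟨1 - b * t / t', b * t / t', ?_, ?_, by ring, ?_⟩
          · rw [sub_nonneg, div_le_one ht0]; exact hcase
          · exact div_nonneg (mul_nonneg hb' htI.1) ht0.le
          · have h9 : b * t / t' * t' = b * t := div_mul_cancel₀ _ ht0.ne'
            show (1 - b * t / t') • z₀ + (b * t / t') • (z₀ + t' • (z - z₀)) = a • z₀ + b • (z₀ + t • (z - z₀))
            rw [smul_add, smul_smul, h9, smul_add, smul_smul, ← add_assoc, ← add_assoc, ← add_smul, ← add_smul, hab]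
            congr 2
            ring
      · right
        push Not at hcase
        have hbt : b * t ≤ t := by
          have hb1 : b ≤ 1 := by linarith
          calc b * t ≤ 1 * t := mul_le_mul_of_nonneg_right hb1 htI.1
            _ = t := one_mul t
        have e : a • z₀ + b • γ t = γ (b * t) := by
          show a • z₀ + b • (z₀ + t • (z - z₀)) = z₀ + (b * t) • (z - z₀)
          rw [smul_add, smul_smul, ← add_assoc, ← add_smul, hab, one_smul]
        rw [e]
        refine hb ?_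
        rw [Real.dist_eq, abs_sub_comm, abs_of_nonneg (by linarith)]
        have h10 : |t - t'| < ε := by rwa [← Real.dist_eq]
        have h11 : t - t' ≤ |t - t'| := le_abs_self _
        linarith
    obtain ⟨δ', hδ', hδ''⟩ := hcomp.exists_thickening_subset_open (hAo.union isOpen_ball) hsegsub
    refine ⟨δ', hδ', σ₃, hδ''.trans (union_subset h1 hrΩ), ?_, ?_⟩
    · intro w hw
      rcases hδ'' hw with h | h
      · exact hs1 w h
      · exact hs2 w h
    · have hz₀A : z₀ ∈ A := self_subset_thickening hδ _ (left_mem_segment ℝ _ _)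
      have h12 : σ₃ =ᶠ[𝓝 z₀] σ₁ := by
        filter_upwards [hAo.mem_nhds hz₀A] with w hw
        exact if_pos hw
      exact h12.trans h3
  have hsub2 : Icc (0 : ℝ) 1 ⊆ u :=
    isPreconnected_Icc.subset_of_closure_inter_subset hopen ⟨0, ⟨left_mem_Icc.2 zero_le_one, hzero⟩⟩ hclosed
  have h1 : (1 : ℝ) ∈ u := hsub2 (right_mem_Icc.2 zero_le_one)
  have e1 : γ 1 = z := by rw [hγ]; simp
  obtain ⟨δ, hδ, σ, h2, h3, h4⟩ := h1
  rw [e1] at h2 h3
  exact ⟨δ, hδ, σ, h2, h3, h4⟩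

/-- MODULE CntA: continuation on a convex open set. -/
theorem exists_continuation {Ω : Set ℂ} (hΩ : IsOpen Ω) (hc : Convex ℝ Ω) {Sol : (ℂ → Y) → ℂ → Prop}
    (congr : ∀ (σ σ' : ℂ → Y) (z : ℂ), Sol σ z → σ =ᶠ[𝓝 z] σ' → Sol σ' z)
    (nbhd : ∀ (σ : ℂ → Y), ∀ z ∈ Ω, Sol σ z → ∀ᶠ w in 𝓝 z, Sol σ w)
    (uniq : ∀ W : Set ℂ, IsOpen W → Convex ℝ W → W ⊆ Ω → ∀ σ σ' : ℂ → Y, (∀ w ∈ W, Sol σ w) → (∀ w ∈ W, Sol σ' w) →
      ∀ z ∈ W, σ =ᶠ[𝓝 z] σ' → EqOn σ σ' W)
    (ext : ∀ z ∈ Ω, ∃ r > 0, ball z r ⊆ Ω ∧ ∀ W : Set ℂ, IsOpen W → Convex ℝ W → W ⊆ ball z r → W.Nonempty →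
      ∀ σ : ℂ → Y, (∀ w ∈ W, Sol σ w) → ∃ σ' : ℂ → Y, (∀ w ∈ ball z r, Sol σ' w) ∧ EqOn σ σ' W)
    {z₀ : ℂ} (h₀ : z₀ ∈ Ω) {σ₀ : ℂ → Y} (hσ : Sol σ₀ z₀) :
    ∃ σ : ℂ → Y, (∀ z ∈ Ω, Sol σ z) ∧ σ =ᶠ[𝓝 z₀] σ₀ := by
  classical
  obtain ⟨r₀, hr₀, hball⟩ := Metric.eventually_nhds_iff_ball.1 ((nbhd σ₀ z₀ h₀ hσ).and (hΩ.mem_nhds h₀))
  have key : ∀ z ∈ Ω, ∃ δ > 0, ∃ σ : ℂ → Y, thickening δ (segment ℝ z₀ z) ⊆ Ω ∧ (∀ w ∈ thickening δ (segment ℝ z₀ z), Sol σ w) ∧
      σ =ᶠ[𝓝 z₀] σ₀ := fun z hz =>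
    exists_segment hc congr ext h₀ hr₀ (fun w hw => (hball w hw).2) (fun w hw => (hball w hw).1) hz
  have : Nonempty (ℂ → Y) := ⟨σ₀⟩
  choose! δ hδ τ h1 h2 h3 using key
  have hag : ∀ z ∈ Ω, (fun z => τ z z) =ᶠ[𝓝 z] τ z := by
    intro z hz
    filter_upwards [isOpen_ball.mem_nhds (mem_ball_self (hδ z hz)), hΩ.mem_nhds hz] with z' hz' hz'Ω
    have hz'A : z' ∈ thickening (δ z) (segment ℝ z₀ z) :=
      seg_subset (mem_ball.1 hz') (right_mem_segment ℝ z₀ z')
    have hz'B : z' ∈ thickening (δ z') (segment ℝ z₀ z') := self_subset_thickening (hδ z' hz'Ω) _ (right_mem_segment ℝ _ _)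
    have hz₀A : z₀ ∈ thickening (δ z) (segment ℝ z₀ z) := self_subset_thickening (hδ z hz) _ (left_mem_segment ℝ _ _)
    have hz₀B : z₀ ∈ thickening (δ z') (segment ℝ z₀ z') := self_subset_thickening (hδ z' hz'Ω) _ (left_mem_segment ℝ _ _)
    have h4 := uniq (thickening (δ z) (segment ℝ z₀ z) ∩ thickening (δ z') (segment ℝ z₀ z')) (isOpen_thickening.inter isOpen_thickening)
      (((convex_segment _ _).thickening _).inter ((convex_segment _ _).thickening _)) (inter_subset_left.trans (h1 z hz)) (τ z') (τ z)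
      (fun w hw => h2 z' hz'Ω w hw.2) (fun w hw => h2 z hz w hw.1) z₀ ⟨hz₀A, hz₀B⟩ ((h3 z' hz'Ω).trans (h3 z hz).symm)
    exact h4 ⟨hz'A, hz'B⟩
  refine ⟨fun z => τ z z, fun z hz => ?_, (hag z₀ h₀).trans (h3 z₀ h₀)⟩
  refine congr (τ z) _ z (h2 z hz z ?_) (hag z hz).symm
  exact self_subset_thickening (hδ z hz) _ (right_mem_segment ℝ _ _)

end Pool.Agent.GA

end

section

/-!
# GA EigA: an eigenvector of the shift on a space of functions which are determined by their value at one point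

`VV` is a linear space of functions on `U` with values in a finite-dimensional space, invariant under the shift `w ↦ w + p`, and a function in `VV`
is zero on `U` if it is zero at the point `w₀`.  If `VV` contains a function which is not zero on `U` then there are such a function `Z` and `μ ≠ 0` with
`Z (w + p) = μ Z (w)` on `U`; so `exp (- q w) Z (w)` has the period `p` if `exp (q p) = μ`.
-/

set_option autoImplicit false

namespace Pool.Agent.GA

theorem exists_eig {E : Type*} [AddCommGroup E] [Module ℂ E] [FiniteDimensional ℂ E] {U : Set ℂ} {p w₀ : ℂ} (hp : ∀ w, w + p ∈ U ↔ w ∈ U)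
    (hw₀ : w₀ ∈ U) (VV : Submodule ℂ (ℂ → E)) (hinv : ∀ Z ∈ VV, (fun w => Z (w + p)) ∈ VV) (hdet : ∀ Z ∈ VV, Z w₀ = 0 → ∀ w ∈ U, Z w = 0)
    (hne : ∃ Z ∈ VV, ∃ w ∈ U, Z w ≠ 0) :
    ∃ Z ∈ VV, ∃ μ : ℂ, μ ≠ 0 ∧ Z w₀ ≠ 0 ∧ ∀ w ∈ U, Z (w + p) = μ • Z w := by
  classical
  -- the evaluation
  let ev : VV →ₗ[ℂ] E := (LinearMap.proj w₀).comp VV.subtype
  have hev : ∀ Z : VV, ev Z = (Z : ℂ → E) w₀ := fun Z => rfl
  let W : Submodule ℂ E := LinearMap.range ev
  -- the shift
  let sh : VV →ₗ[ℂ] VV :=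
    { toFun := fun Z => ⟨fun w => (Z : ℂ → E) (w + p), hinv Z Z.2⟩
      map_add' := fun Z Z' => rfl
      map_smul' := fun c Z => rfl }
  have hsh : ∀ (Z : VV) (w : ℂ), (sh Z : ℂ → E) w = (Z : ℂ → E) (w + p) := fun Z w => rfl
  have hker : LinearMap.ker ev ≤ LinearMap.ker (ev.comp sh) := by
    intro Z hZ
    rw [LinearMap.mem_ker] at hZ ⊢
    show (sh Z : ℂ → E) w₀ = 0
    rw [hsh]
    exact hdet Z Z.2 hZ _ ((hp w₀).2 hw₀)
  -- a section of the evaluation on its range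
  obtain ⟨σ, hσ⟩ := ev.rangeRestrict.exists_rightInverse_of_surjective (LinearMap.range_rangeRestrict ev)
  have hσ' : ∀ e : W, ev (σ e) = (e : E) := by
    intro e
    have h1 : ev.rangeRestrict (σ e) = e := by
      have := congrArg (fun f : W →ₗ[ℂ] W => f e) hσ
      exact this
    have h2 := congrArg (Subtype.val) h1
    exact h2
  let M : W →ₗ[ℂ] W := ev.rangeRestrict.comp (sh.comp σ)
  have hM : ∀ e : W, ((M e : W) : E) = ev (sh (σ e)) := fun e => rfl
  have hnt : Nontrivial W := by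
    obtain ⟨Z, hZ, w, hw, hZw⟩ := hne
    refine ⟨⟨⟨ev ⟨Z, hZ⟩, LinearMap.mem_range_self ev _⟩, 0, fun h => hZw ?_⟩⟩
    have h1 : ev ⟨Z, hZ⟩ = 0 := congrArg Subtype.val h
    exact hdet Z hZ h1 w hw
  obtain ⟨μ, hμ⟩ := Module.End.exists_eigenvalue M
  obtain ⟨e, he⟩ := hμ.exists_hasEigenvector
  have he0 : e ≠ 0 := he.2
  have heM : M e = μ • e := he.apply_eq_smul
  obtain ⟨Z, hZdef⟩ : ∃ Z : VV, Z = σ e := ⟨_, rfl⟩
  have hZ0 : (Z : ℂ → E) w₀ ≠ 0 := by
    intro h
    apply he0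
    apply Subtype.ext
    have h1 := hσ' e
    rw [← hZdef, hev, h] at h1
    exact h1.symm
  have hdiff : ∀ w ∈ U, (Z : ℂ → E) (w + p) = μ • (Z : ℂ → E) w := by
    intro w hw
    have h1 : ((sh Z - μ • Z : VV) : ℂ → E) w₀ = 0 := by
      have h2 : ev (sh Z - μ • Z) = 0 := by
        rw [map_sub, map_smul, hZdef, hσ' e, ← hM e, heM]
        show μ • (e : E) - μ • (e : E) = 0
        rw [sub_self]
      exact h2
    have h3 := hdet _ (sh Z - μ • Z : VV).2 h1 w hw
    have h4 : (Z : ℂ → E) (w + p) - μ • (Z : ℂ → E) w = 0 := h3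
    exact sub_eq_zero.1 h4
  refine ⟨Z, Z.2, μ, ?_, hZ0, hdiff⟩
  rintro rfl
  apply hZ0
  have h1 : w₀ - p ∈ U := by
    rw [← hp (w₀ - p), sub_add_cancel]
    exact hw₀
  have h2 := hdiff (w₀ - p) h1
  rw [sub_add_cancel, zero_smul] at h2
  exact h2

/-- the correction by an exponential function -/
theorem exists_per {p μ : ℂ} (hp : p ≠ 0) (hμ : μ ≠ 0) : ∃ q : ℂ, Complex.exp (q * p) = μ :=
  ⟨Complex.log μ / p, by rw [div_mul_cancel₀ _ hp, Complex.exp_log hμ]⟩

end Pool.Agent.GA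

end

section

/-!
# GG Alg: the algebraic dichotomy

PROOF.  If the ideal generated by `S` meets the multiplicative set `{q (φ) Δ^k : q ∉ 𝔓}` then `q` vanishes at the points considered; otherwise `Ideal.exists_le_prime_disjoint`.
-/

set_option autoImplicit false

open MvPolynomial

namespace Pool.Agent.GG

/-- If for every `q ∈ S` there is a point of some `V (a J)` with `D J ≠ 0` and `q ≠ 0` then for some `J` there is a prime ideal `𝔮 ≥ a J` which
does not meet `S` and does not contain `D J`. -/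
theorem exists_prime {s t κ : Type} [Finite κ] (f : s → t) (S : Submonoid (MvPolynomial s ℂ)) (a : κ → Ideal (MvPolynomial t ℂ))
    (D : κ → MvPolynomial t ℂ)
    (h : ∀ q ∈ S, ∃ (J : κ) (y : t → ℂ), (∀ Q ∈ a J, eval y Q = 0) ∧ eval y (D J) ≠ 0 ∧ eval y (rename f q) ≠ 0) :
    ∃ (J : κ) (𝔮 : Ideal (MvPolynomial t ℂ)), 𝔮.IsPrime ∧ a J ≤ 𝔮 ∧ D J ∉ 𝔮 ∧ ∀ q ∈ S, rename f q ∉ 𝔮 := by
  classical
  by_contra hcon
  push Not at hcon
  have := Fintype.ofFinite κ
  have h1 : ∀ J, ∃ q ∈ S, ∃ k : ℕ, rename f q * D J ^ k ∈ a J := by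
    intro J
    obtain ⟨T, hT⟩ : ∃ T : Submonoid (MvPolynomial t ℂ), T = S.map (rename f : MvPolynomial s ℂ →ₐ[ℂ] MvPolynomial t ℂ) ⊔ Submonoid.powers (D J) :=
      ⟨_, rfl⟩
    by_cases hd : Disjoint (a J : Set (MvPolynomial t ℂ)) (T : Set (MvPolynomial t ℂ))
    · obtain ⟨𝔮, h2, h3, h4⟩ := Ideal.exists_le_prime_disjoint (a J) T hd
      exfalso
      have h5 : D J ∉ 𝔮 := by
        intro h6
        have h7 : D J ∈ T := by
          rw [hT]
          exact Submonoid.mem_sup_right (Submonoid.mem_powers _)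
        exact Set.disjoint_left.1 h4 h6 h7
      obtain ⟨q, hq, hq2⟩ := hcon J 𝔮 h2 h3 h5
      have h8 : rename f q ∈ T := by
        rw [hT]
        exact Submonoid.mem_sup_left ⟨q, hq, rfl⟩
      exact Set.disjoint_left.1 h4 hq2 h8
    · rw [Set.not_disjoint_iff] at hd
      obtain ⟨x, hx, hxT⟩ := hd
      rw [SetLike.mem_coe, hT, Submonoid.mem_sup] at hxT
      obtain ⟨y, hy, z, hz, rfl⟩ := hxT
      obtain ⟨q, hq, rfl⟩ := hy
      obtain ⟨k, rfl⟩ := hz
      exact ⟨q, hq, k, hx⟩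
  choose q hq k hk using h1
  obtain ⟨J, y, hy1, hy2, hy3⟩ := h (∏ J, q J) (Submonoid.prod_mem S fun J _ => hq J)
  have h2 := hy1 _ (hk J)
  rw [map_mul, map_pow] at h2
  rcases mul_eq_zero.1 h2 with h3 | h3
  · apply hy3
    rw [map_prod, map_prod]
    exact Finset.prod_eq_zero (Finset.mem_univ J) h3
  · exact hy2 (eq_zero_of_pow_eq_zero h3)

theorem dichotomy {σ τ : Type} (S : Set (MvPolynomial τ ℂ)) (Δ : MvPolynomial τ ℂ) (φ : σ → τ) (𝔓 : Ideal (MvPolynomial σ ℂ)) [𝔓.IsPrime] :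
    (∃ q ∉ 𝔓, ∀ y : τ → ℂ, (∀ g ∈ S, eval y g = 0) → eval y Δ ≠ 0 → eval (fun s => y (φ s)) q = 0) ∨
    ∃ 𝔮 : Ideal (MvPolynomial τ ℂ), 𝔮.IsPrime ∧ S ⊆ 𝔮 ∧ Δ ∉ 𝔮 ∧ ∀ q : MvPolynomial σ ℂ, rename φ q ∈ 𝔮 → q ∈ 𝔓 := by
  by_cases h : ∃ q ∉ 𝔓, ∀ y : τ → ℂ, (∀ g ∈ S, eval y g = 0) → eval y Δ ≠ 0 → eval (fun s => y (φ s)) q = 0
  · exact Or.inl h
  · right
    push Not at h
    obtain ⟨-, 𝔮, h1, h2, h3, h4⟩ := exists_prime (κ := Unit) φ 𝔓.primeCompl (fun _ => Ideal.span S) (fun _ => Δ) fun q hq => by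
      obtain ⟨y, hy1, hy2, hy3⟩ := h q hq
      refine ⟨(), y, fun Q hQ => ?_, hy2, ?_⟩
      · have h5 : Ideal.span S ≤ RingHom.ker (eval y) := Ideal.span_le.2 fun g hg => hy1 g hg
        exact h5 hQ
      · rw [eval_rename]
        exact hy3
    exact ⟨𝔮, h1, fun g hg => h2 (Ideal.subset_span hg), h3, fun q hq => by_contra fun hq' => h4 q hq' hq⟩

end Pool.Agent.GG

end

section

/-!
# GG GenA: a transcendence basis of coordinates, and the equations of the other coordinates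

PROOF.  `exists_isTranscendenceBasis_between` for the range of the independent coordinates and the range of all coordinates.  Another coordinate `l` is a zero
of a polynomial `p ≠ 0` with coefficients in `ℂ[y_(b')]`; for minimal degree its derivative does not vanish there.
-/

set_option autoImplicit false

open MvPolynomial

namespace Pool.Agent.GG

/-- the chain rule for `p (φ, x)` when the derivation kills the coefficients -/
private theorem gena_deriv {S A : Type} [CommRing S] [CommRing A] [Algebra ℂ A] (D : Derivation ℂ A A) (φ : S →+* A) (hφ : ∀ s, D (φ s) = 0) (x : A) (p : Polynomial S) :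
    D (p.eval₂ φ x) = (Polynomial.derivative p).eval₂ φ x * D x := by
  induction p using Polynomial.induction_on' with
  | add p q hp hq => simp only [Polynomial.eval₂_add, map_add, hp, hq, add_mul]
  | monomial n s =>
    rw [Polynomial.eval₂_monomial, Polynomial.derivative_monomial, Polynomial.eval₂_monomial, Derivation.leibniz, hφ, smul_zero, add_zero,
      Derivation.leibniz_pow, map_mul, map_natCast]
    simp only [smul_eq_mul, nsmul_eq_mul]
    ring

theorem exists_basis {τ K : Type} [Fintype τ] [Field K] [Algebra ℂ K] {a : τ → K} (ha : IntermediateField.adjoin ℂ (Set.range a) = ⊤) {n : ℕ} (b : Fin n → τ)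
    (hb : AlgebraicIndependent ℂ fun i => a (b i)) :
    ∃ (d : ℕ) (b' : Fin d → τ), Function.Injective b' ∧ Set.range b ⊆ Set.range b' ∧ IsTranscendenceBasis ℂ (fun i => a (b' i)) ∧
      ∀ l ∉ Set.range b', ∃ f : MvPolynomial τ ℂ, aeval a f = 0 ∧ aeval a (pderiv l f) ≠ 0 ∧ ∀ l' ∉ Set.range b', l' ≠ l → pderiv l' f = 0 := by
  classical
  have halg : Algebra.IsAlgebraic (Algebra.adjoin ℂ (Set.range a)) K := by
    constructor
    intro x
    have hx : x ∈ IntermediateField.adjoin ℂ (Set.range a) := by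
      rw [ha]; exact IntermediateField.mem_top
    induction hx using IntermediateField.adjoin_induction with
    | mem y hy =>
      have h1 : y = algebraMap (Algebra.adjoin ℂ (Set.range a)) K ⟨y, Algebra.subset_adjoin hy⟩ := rfl
      rw [h1]
      exact isAlgebraic_algebraMap _
    | algebraMap y =>
      have h1 : algebraMap ℂ K y = algebraMap (Algebra.adjoin ℂ (Set.range a)) K (algebraMap ℂ (Algebra.adjoin ℂ (Set.range a)) y) := rfl
      rw [h1]
      exact isAlgebraic_algebraMap _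
    | add y z _ _ hy hz => exact hy.add hz
    | inv y _ hy => exact hy.inv
    | mul y z _ _ hy hz => exact hy.mul hz
  have hs : AlgebraicIndepOn ℂ id (Set.range fun i => a (b i)) := hb.coe_range
  obtain ⟨u, hu1, hu2, hu3⟩ := exists_isTranscendenceBasis_between (R := ℂ) (A := K) (Set.range fun i => a (b i)) (Set.range a)
    (by rintro _ ⟨i, rfl⟩; exact ⟨b i, rfl⟩) hs
  have hfin : u.Finite := (Set.finite_range a).subset hu2
  have : Fintype u := hfin.fintype
  -- a section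
  have hsec : ∀ x : u, ∃ i : τ, a i = x ∧ ((∃ j, a (b j) = x) → ∃ j, b j = i) := by
    intro x
    by_cases h : ∃ j, a (b j) = (x : K)
    · obtain ⟨j, hj⟩ := h
      exact ⟨b j, hj, fun _ => ⟨j, rfl⟩⟩
    · obtain ⟨i, hi⟩ := hu2 x.2
      exact ⟨i, hi, fun h' => absurd h' h⟩
  choose g hg1 hg2 using hsec
  obtain ⟨d, ⟨e⟩⟩ : ∃ d : ℕ, Nonempty (Fin d ≃ u) := ⟨Fintype.card u, ⟨(Fintype.equivFin u).symm⟩⟩
  have hinj : Function.Injective (fun i => g (e i)) := by
    intro i j hij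
    have h := congrArg a hij
    simp only [hg1] at h
    exact e.injective (Subtype.ext h)
  have hbinj : Function.Injective fun i => a (b i) := hb.injective
  have htb : IsTranscendenceBasis ℂ (fun i => a (g (e i))) := by
    have h1 : (fun i => a (g (e i))) = (fun x : u => (x : K)) ∘ e := by
      funext i
      simp [hg1]
    rw [h1]
    exact (isTranscendenceBasis_equiv e).2 hu3
  refine ⟨d, fun i => g (e i), hinj, ?_, htb, ?_⟩
  · rintro _ ⟨j, rfl⟩
    have hju : a (b j) ∈ u := hu1 ⟨j, rfl⟩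
    obtain ⟨j', hj'⟩ := hg2 ⟨a (b j), hju⟩ ⟨j, rfl⟩
    refine ⟨e.symm ⟨a (b j), hju⟩, ?_⟩
    simp only [Equiv.apply_symm_apply]
    rw [← hj']
    have : a (b j') = a (b j) := by
      rw [hj']
      exact hg1 _
    rw [hbinj this]
  · intro l hl
    set b' : Fin d → τ := fun i => g (e i) with hb'
    have hzi : AlgebraicIndependent ℂ (fun i => a (b' i)) := htb.1
    let φ : MvPolynomial (Fin d) ℂ →+* MvPolynomial τ ℂ := (rename b' : MvPolynomial (Fin d) ℂ →ₐ[ℂ] MvPolynomial τ ℂ).toRingHom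
    let ψ : MvPolynomial (Fin d) ℂ →+* K := (aeval (fun i => a (b' i)) : MvPolynomial (Fin d) ℂ →ₐ[ℂ] K).toRingHom
    have hψ : Function.Injective ψ := hzi
    have hcomp : ∀ p : Polynomial (MvPolynomial (Fin d) ℂ), aeval a (p.eval₂ φ (X l)) = p.eval₂ ψ (a l) := by
      intro p
      have h := Polynomial.hom_eval₂ p φ ((aeval a : MvPolynomial τ ℂ →ₐ[ℂ] K) : MvPolynomial τ ℂ →+* K) (X l)
      have h2 : ((aeval a : MvPolynomial τ ℂ →ₐ[ℂ] K) : MvPolynomial τ ℂ →+* K).comp φ = ψ := by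
        ext i
        · simp [φ, ψ]
        · simp [φ, ψ]
      rw [h2] at h
      simpa using h
    -- a polynomial relation for `a l`
    have hex : ∃ p : Polynomial (MvPolynomial (Fin d) ℂ), p ≠ 0 ∧ p.eval₂ ψ (a l) = 0 := by
      have h := htb.isAlgebraic.isAlgebraic (a l)
      obtain ⟨p, hp0, hp⟩ := h
      refine ⟨p.map (hzi.aevalEquiv.symm : _ →+* MvPolynomial (Fin d) ℂ), ?_, ?_⟩
      · intro h0
        apply hp0
        refine Polynomial.map_injective _ ?_ (h0.trans (Polynomial.map_zero _).symm)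
        exact hzi.aevalEquiv.symm.injective
      · rw [Polynomial.eval₂_map]
        rw [Polynomial.aeval_def] at hp
        have hring : ψ.comp (hzi.aevalEquiv.symm : _ →+* MvPolynomial (Fin d) ℂ) = algebraMap (Algebra.adjoin ℂ (Set.range fun i => a (b' i))) K := by
          refine RingHom.ext fun x => ?_
          have := hzi.algebraMap_aevalEquiv (hzi.aevalEquiv.symm x)
          rw [AlgEquiv.apply_symm_apply] at this
          exact this.symm
        rw [hring]
        exact hp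
    obtain ⟨p, ⟨hp0, hp⟩, hmin⟩ : ∃ p : Polynomial (MvPolynomial (Fin d) ℂ), (p ≠ 0 ∧ p.eval₂ ψ (a l) = 0) ∧
        ∀ q : Polynomial (MvPolynomial (Fin d) ℂ), q ≠ 0 ∧ q.eval₂ ψ (a l) = 0 → p.natDegree ≤ q.natDegree := by
      obtain ⟨p, hp⟩ := hex
      have hne : ∃ m : ℕ, ∃ q : Polynomial (MvPolynomial (Fin d) ℂ), (q ≠ 0 ∧ q.eval₂ ψ (a l) = 0) ∧ q.natDegree = m := ⟨_, p, hp, rfl⟩
      obtain ⟨q, hq, hqm⟩ := Nat.find_spec hne
      refine ⟨q, hq, fun r hr => ?_⟩
      rw [hqm]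
      exact Nat.find_min' hne ⟨r, hr, rfl⟩
    have hdeg : 1 ≤ p.natDegree := by
      by_contra h
      have h0 : p.natDegree = 0 := by omega
      rw [Polynomial.eq_C_of_natDegree_eq_zero h0, Polynomial.eval₂_C] at hp
      have : p.coeff 0 = 0 := hψ (by rw [hp, map_zero])
      apply hp0
      rw [Polynomial.eq_C_of_natDegree_eq_zero h0, this, map_zero]
    have hder0 : Polynomial.derivative p ≠ 0 := by
      intro h
      have := Polynomial.derivative_eq_zero.1 h
      omega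
    have hder : (Polynomial.derivative p).eval₂ ψ (a l) ≠ 0 := by
      intro h
      have h1 := hmin _ ⟨hder0, h⟩
      have h2 := Polynomial.natDegree_derivative_lt (p := p) (by omega)
      omega
    have hkill : ∀ l' ∉ Set.range b', ∀ s, pderiv l' (φ s) = 0 := by
      intro l' hl' s
      apply pderiv_eq_zero_of_notMem_vars
      intro hmem
      have := vars_rename b' s hmem
      simp only [Finset.mem_image] at this
      obtain ⟨i, -, hi⟩ := this
      exact hl' ⟨i, hi⟩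
    refine ⟨p.eval₂ φ (X l), by rw [hcomp, hp], ?_, ?_⟩
    · rw [gena_deriv (pderiv l) φ (hkill l hl), pderiv_X_self, mul_one, hcomp]
      exact hder
    · intro l' hl' hne
      rw [gena_deriv (pderiv l') φ (hkill l' hl'), pderiv_X_of_ne hne.symm, mul_zero]

end Pool.Agent.GG

end

section

/-!
# GQ Flat: the largest invariant ideal in a prime ideal is prime

`D` is a derivation of a ring `A` which contains `ℚ`, `𝔮` a prime ideal: `flat D 𝔮 = {f | D ^ n f ∈ 𝔮 for all n}` is a prime ideal, `D (flat D 𝔮) ⊆ flat D 𝔮 ⊆ 𝔮`, and it contains every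
ideal `I ⊆ 𝔮` with `D I ⊆ I`.
-/

set_option autoImplicit false

noncomputable section

namespace Pool.Agent.GQ

variable {R A : Type*} [CommRing R] [CommRing A] [Algebra R A] [Algebra ℚ A]

omit [Algebra ℚ A] in
/-- the Leibniz formula -/
theorem iter_mul (D : Derivation R A A) (f g : A) (n : ℕ) :
    (⇑D)^[n] (f * g) = ∑ p ∈ Finset.HasAntidiagonal.antidiagonal n, n.choose p.1 • ((⇑D)^[p.1] f * (⇑D)^[p.2] g) := by
  induction n with
  | zero => simp
  | succ n ih =>
    rw [Function.iterate_succ_apply', ih, map_sum]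
    rw [Finset.sum_antidiagonal_choose_succ_nsmul (M := A) (f := fun i j => (⇑D)^[i] f * (⇑D)^[j] g) n]
    rw [← Finset.sum_add_distrib]
    refine Finset.sum_congr rfl fun p hp => ?_
    have h1 : n.choose p.2 = n.choose p.1 := by
      rw [Finset.HasAntidiagonal.mem_antidiagonal] at hp
      rw [← hp, Nat.choose_symm_add]
    rw [map_nsmul, Derivation.leibniz, h1, ← smul_add]
    congr 1
    rw [Function.iterate_succ_apply', Function.iterate_succ_apply', smul_eq_mul, smul_eq_mul]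
    ring

/-- the largest invariant ideal in `𝔮` -/
def flat (D : Derivation R A A) (𝔮 : Ideal A) : Ideal A where
  carrier := {f | ∀ n, (⇑D)^[n] f ∈ 𝔮}
  add_mem' := by
    intro f g hf hg n
    rw [iterate_map_add]
    exact 𝔮.add_mem (hf n) (hg n)
  zero_mem' := by
    intro n
    rw [iterate_map_zero]
    exact 𝔮.zero_mem
  smul_mem' := by
    intro c f hf n
    rw [smul_eq_mul, iter_mul]
    exact 𝔮.sum_mem fun p _ => 𝔮.nsmul_mem (𝔮.mul_mem_left _ (hf p.2)) _

theorem mem_flat {D : Derivation R A A} {𝔮 : Ideal A} {f : A} : f ∈ flat D 𝔮 ↔ ∀ n, (⇑D)^[n] f ∈ 𝔮 := Iff.rfl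

theorem flat_le (D : Derivation R A A) (𝔮 : Ideal A) : flat D 𝔮 ≤ 𝔮 := fun _ hf => hf 0

theorem D_mem_flat {D : Derivation R A A} {𝔮 : Ideal A} {f : A} (hf : f ∈ flat D 𝔮) : D f ∈ flat D 𝔮 := by
  intro n
  rw [← Function.iterate_succ_apply]
  exact hf (n + 1)

theorem le_flat {D : Derivation R A A} {𝔮 I : Ideal A} (h : I ≤ 𝔮) (hD : ∀ f ∈ I, D f ∈ I) : I ≤ flat D 𝔮 := by
  intro f hf n
  refine h ?_
  induction n with
  | zero => exact hf
  | succ n ih =>
    rw [Function.iterate_succ_apply']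
    exact hD _ ih

instance flat_isPrime (D : Derivation R A A) (𝔮 : Ideal A) [h : 𝔮.IsPrime] : (flat D 𝔮).IsPrime := by
  classical
  refine Ideal.isPrime_iff.2 ⟨fun h1 => h.ne_top (top_le_iff.1 (h1 ▸ flat_le D 𝔮)), fun {f g} hfg => ?_⟩
  by_contra hcon
  push Not at hcon
  obtain ⟨hf, hg⟩ := hcon
  rw [mem_flat] at hf hg
  push Not at hf hg
  obtain ⟨i, hi, hi'⟩ : ∃ i, (⇑D)^[i] f ∉ 𝔮 ∧ ∀ a < i, (⇑D)^[a] f ∈ 𝔮 :=
    ⟨Nat.find hf, Nat.find_spec hf, fun a ha => not_not.1 (Nat.find_min hf ha)⟩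
  obtain ⟨j, hj, hj'⟩ : ∃ j, (⇑D)^[j] g ∉ 𝔮 ∧ ∀ a < j, (⇑D)^[a] g ∈ 𝔮 :=
    ⟨Nat.find hg, Nat.find_spec hg, fun a ha => not_not.1 (Nat.find_min hg ha)⟩
  have h1 := hfg (i + j)
  rw [iter_mul, ← Finset.add_sum_erase _ _ (show (i, j) ∈ Finset.HasAntidiagonal.antidiagonal (i + j) by simp)] at h1
  have h2 : ∑ p ∈ (Finset.HasAntidiagonal.antidiagonal (i + j)).erase (i, j), (i + j).choose p.1 • ((⇑D)^[p.1] f * (⇑D)^[p.2] g) ∈ 𝔮 := by
    refine 𝔮.sum_mem fun p hp => 𝔮.nsmul_mem ?_ _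
    obtain ⟨hne, hp⟩ := Finset.mem_erase.1 hp
    rw [Finset.HasAntidiagonal.mem_antidiagonal] at hp
    by_cases hlt : p.1 < i
    · exact 𝔮.mul_mem_right _ (hi' _ hlt)
    · refine 𝔮.mul_mem_left _ (hj' _ ?_)
      have h3 : p.1 ≠ i := by
        intro h3
        apply hne
        exact Prod.ext h3 (by dsimp only; omega)
      omega
  have h3 : (i + j).choose i • ((⇑D)^[i] f * (⇑D)^[j] g) ∈ 𝔮 := (Submodule.add_mem_iff_left 𝔮 h2).1 h1
  have h4 : (⇑D)^[i] f * (⇑D)^[j] g ∈ 𝔮 := by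
    have hc : (((i + j).choose i : ℕ) : ℚ) ≠ 0 := by
      have := Nat.choose_pos (Nat.le_add_right i j)
      exact_mod_cast this.ne'
    have h5 := 𝔮.mul_mem_left (algebraMap ℚ A ((((i + j).choose i : ℕ) : ℚ)⁻¹)) h3
    have h6 : algebraMap ℚ A ((((i + j).choose i : ℕ) : ℚ)⁻¹) * ((i + j).choose i • ((⇑D)^[i] f * (⇑D)^[j] g)) = (⇑D)^[i] f * (⇑D)^[j] g := by
      rw [nsmul_eq_mul, ← mul_assoc, ← map_natCast (algebraMap ℚ A), ← map_mul, inv_mul_cancel₀ hc, map_one, one_mul]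
    rwa [h6] at h5
  rcases h.mem_or_mem h4 with h5 | h5
  · exact hi h5
  · exact hj h5

end Pool.Agent.GQ

end
end

section

/-!
# GQ Gro: Gronwall along a segment
-/

set_option autoImplicit false

open Topology Filter Metric

noncomputable section

namespace Pool.Agent.GQ

/-- Gronwall along the segment from `z` to `z'` -/
theorem gronwall_seg {s : Type} [Fintype s] {q : ℂ → s → ℂ} {z₀ : ℂ} {r B : ℝ} (hq : ∀ w ∈ ball z₀ r, DifferentiableAt ℂ q w)
    (hB : ∀ w ∈ ball z₀ r, ‖deriv q w‖ ≤ B * ‖q w‖) {z z' : ℂ} (hz : z ∈ ball z₀ r) (hz' : z' ∈ ball z₀ r) : ‖q z'‖ ≤ Real.exp (|B| * ‖z' - z‖) * ‖q z‖ := by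
  set L : ℝ → ℂ := fun t => z + (t : ℂ) * (z' - z) with hL
  have hLm : ∀ t ∈ Set.Icc (0 : ℝ) 1, L t ∈ ball z₀ r := by
    intro t ht
    have h1 := (convex_ball z₀ r) hz hz' (sub_nonneg.2 ht.2) ht.1 (by ring)
    have h2 : (1 - t) • z + t • z' = L t := by
      simp only [hL, Complex.real_smul]
      push_cast
      ring
    rwa [h2] at h1
  have hLd : ∀ t : ℝ, HasDerivAt L (z' - z) t := by
    intro t
    have h1 : HasDerivAt (fun t : ℝ => (t : ℂ) * (z' - z)) (1 * (z' - z)) t := (Complex.ofRealCLM.hasDerivAt (x := t)).mul_const (z' - z)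
    rw [one_mul] at h1
    exact h1.const_add z
  have hd : ∀ t ∈ Set.Icc (0 : ℝ) 1, HasDerivAt (fun t => q (L t)) ((z' - z) • deriv q (L t)) t := by
    intro t ht
    have h1 := HasDerivAt.scomp (g₁ := q) (h := L) t (hq _ (hLm t ht)).hasDerivAt (hLd t)
    exact h1
  have hK := norm_le_gronwallBound_of_norm_deriv_right_le (f := fun t => q (L t)) (f' := fun t => (z' - z) • deriv q (L t)) (δ := ‖q z‖)
    (K := |B| * ‖z' - z‖) (ε := 0) (a := 0) (b := 1) (fun t ht => (hd t ht).continuousAt.continuousWithinAt)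
    (fun t ht => (hd t ⟨ht.1, ht.2.le⟩).hasDerivWithinAt) (by simp [hL])
    (fun t ht => by
      have h1 := hB _ (hLm t ⟨ht.1, ht.2.le⟩)
      have h2 : B * ‖q (L t)‖ ≤ |B| * ‖q (L t)‖ := mul_le_mul_of_nonneg_right (le_abs_self B) (norm_nonneg _)
      rw [norm_smul, add_zero]
      have h3 := mul_le_mul_of_nonneg_left (h1.trans h2) (norm_nonneg (z' - z))
      linarith) 1 ⟨zero_le_one, le_rfl⟩
  rw [gronwallBound_ε0] at hK
  have h1 : L 1 = z' := by simp [hL]
  simp only [h1, sub_zero, mul_one] at hK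
  linarith [mul_comm ‖q z‖ (Real.exp (|B| * ‖z' - z‖))]

end Pool.Agent.GQ

end
end

section

/-!
# EF Alg: doubly periodic entire curves of order two on a surface are algebraically degenerate
-/

set_option autoImplicit false

open MvPolynomial

noncomputable section

namespace Pool.Agent.H17EF

open Metric Filter Topology

variable {N : ℕ}

/-- the quotient of two lifts is holomorphic -/
theorem exists_quot {F G : ℂ → Fin (N + 1) → ℂ} {z₀ : ℂ} (hF : AnalyticAt ℂ F z₀) (hG : AnalyticAt ℂ G z₀) (h0 : F z₀ ≠ 0)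
    (h : ∀ᶠ z in 𝓝 z₀, G z = 0 ∨ ∃ c : ℂ, c ≠ 0 ∧ F z = c • G z) :
    ∃ u : ℂ → ℂ, AnalyticAt ℂ u z₀ ∧ ∀ᶠ z in 𝓝 z₀, G z = u z • F z := by
  obtain ⟨i, hi⟩ : ∃ i, F z₀ i ≠ 0 := by
    by_contra hcon
    push Not at hcon
    exact h0 (_root_.funext hcon)
  have hFi : AnalyticAt ℂ (fun z => F z i) z₀ :=
    ((ContinuousLinearMap.proj (R := ℂ) (φ := fun _ : Fin (N + 1) => ℂ) i).analyticAt (F z₀)).comp hF
  have hGi : AnalyticAt ℂ (fun z => G z i) z₀ :=
    ((ContinuousLinearMap.proj (R := ℂ) (φ := fun _ : Fin (N + 1) => ℂ) i).analyticAt (G z₀)).comp hG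
  refine ⟨fun z => G z i / F z i, hGi.div hFi hi, ?_⟩
  filter_upwards [h, hFi.continuousAt.eventually_ne hi] with z hz hz'
  rcases hz with hz | ⟨c, hc, hz⟩
  · rw [hz]
    simp
  · have h1 : F z i = c * G z i := by rw [hz]; simp
    have h2 : G z i ≠ 0 := by
      intro h3
      rw [h3, mul_zero] at h1
      exact hz' h1
    rw [hz]
    simp only [Pi.smul_apply, smul_eq_mul, smul_smul]
    have h3 : G z i / (c * G z i) * c = 1 := by field_simp
    rw [h3, one_smul]

end Pool.Agent.H17EF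

end
end

section

/-!
# TB OfSheets: from the finitely many maps to the properties (i), (ii), (iii), (iv) for curves; birational invariance
-/

set_option autoImplicit false

open MvPolynomial Topology Filter

noncomputable section

namespace Pool.Agent.H22.TB

variable {N : ℕ}

theorem eq_of_basis {K : Type} [Field K] [Algebra ℂ K] {a b : ℕ} {z : Fin a → K} {z' : Fin b → K} (hz : IsTranscendenceBasis ℂ z)
    (hz' : IsTranscendenceBasis ℂ z') : a = b := by
  have h := hz.cardinalMk_eq hz'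
  simpa using h

end Pool.Agent.H22.TB

end
end

section

/-!
# Qe TopQ: maps which are local homeomorphisms over an open set, and lifts of continuous maps
-/

set_option autoImplicit false

open Topology Filter

namespace Pool.Agent.H62.Qe

/-- A continuous map which is injective near `e` and has a local section through `e` is a homeomorphism near `e`. -/
theorem exists_localHomeo {E Y : Type} [TopologicalSpace E] [TopologicalSpace Y] {p : E → Y} (hp : Continuous p) {e : E}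
    (hinj : ∀ᶠ q in 𝓝 (e, e), p q.1 = p q.2 → q.1 = q.2)
    (hsec : ∃ s : Y → E, s (p e) = e ∧ ∀ᶠ y in 𝓝 (p e), ContinuousAt s y ∧ p (s y) = y) :
    ∃ φ : OpenPartialHomeomorph E Y, e ∈ φ.source ∧ p = φ := by
  obtain ⟨s, hse, hs⟩ := hsec
  obtain ⟨V, hVs, hVo, heV⟩ := eventually_nhds_iff.1 hs
  have h1 : {q : E × E | p q.1 = p q.2 → q.1 = q.2} ∈ 𝓝 e ×ˢ 𝓝 e := by
    rw [← nhds_prod_eq]
    exact hinj
  obtain ⟨U₁, hU₁, hU₁s⟩ := Filter.mem_prod_self_iff.1 h1
  obtain ⟨U, hUU₁, hUo, heU⟩ := mem_nhds_iff.1 hU₁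
  have hU : ∀ e₁ ∈ U, ∀ e₂ ∈ U, p e₁ = p e₂ → e₁ = e₂ := fun e₁ h₁ e₂ h₂ => hU₁s (Set.mk_mem_prod (hUU₁ h₁) (hUU₁ h₂))
  have hsV : ContinuousOn s V := fun y hy => (hVs y hy).1.continuousWithinAt
  have hW : IsOpen (V ∩ s ⁻¹' U) := hsV.isOpen_inter_preimage hVo hUo
  have hU₀ : IsOpen (U ∩ p ⁻¹' (V ∩ s ⁻¹' U)) := hUo.inter (hW.preimage hp)
  have hleft : ∀ e' ∈ U ∩ p ⁻¹' (V ∩ s ⁻¹' U), s (p e') = e' := fun e' he' =>
    hU _ he'.2.2 _ he'.1 (hVs _ he'.2.1).2
  refine ⟨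
    { toFun := p
      invFun := s
      source := U ∩ p ⁻¹' (V ∩ s ⁻¹' U)
      target := V ∩ s ⁻¹' U
      map_source' := fun e' he' => he'.2
      map_target' := fun y hy => by
        refine ⟨hy.2, ?_⟩
        show p (s y) ∈ V ∩ s ⁻¹' U
        rw [(hVs y hy.1).2]
        exact hy
      left_inv' := hleft
      right_inv' := fun y hy => (hVs y hy.1).2
      open_source := hU₀
      open_target := hW
      continuousOn_toFun := hp.continuousOn
      continuousOn_invFun := hsV.mono Set.inter_subset_left }, ?_, rfl⟩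
  refine ⟨heU, heV, ?_⟩
  show s (p e) ∈ U
  rw [hse]
  exact heU

variable {E Y : Type} [TopologicalSpace E] [TopologicalSpace Y] [T2Space E] [T2Space Y] [CompactSpace E] {p : E → Y}

/-- Existence and uniqueness of the lifts of maps of the plane. -/
theorem exists_unique_lift (hp : Continuous p) {s : Set Y}
    (h : ∀ e : E, p e ∈ s → ∃ φ : OpenPartialHomeomorph E Y, e ∈ φ.source ∧ p = φ)
    {f : ℂ → Y} (hf : Continuous f) (hfs : ∀ z, f z ∈ s) {a : ℂ} {e₀ : E} (he : p e₀ = f a) :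
    ∃! F : C(ℂ, E), F a = e₀ ∧ p ∘ F = f := by
  have hl : IsLocalHomeomorphOn p (p ⁻¹' s) := fun e he => h e he
  have hc : IsCoveringMapOn p s := IsCoveringMapOn.of_isLocalHomeomorphOn hp hl
  exact hc.existsUnique_continuousMap_lifts (⟨f, hf⟩ : C(ℂ, Y)) he hfs

/-- Lifts of maps of the plane. -/
theorem exists_lift_plane (hp : Continuous p) {s : Set Y}
    (h : ∀ e : E, p e ∈ s → ∃ φ : OpenPartialHomeomorph E Y, e ∈ φ.source ∧ p = φ)
    {f : ℂ → Y} (hf : Continuous f) (hfs : ∀ z, f z ∈ s) {a : ℂ} {e₀ : E} (he : p e₀ = f a) :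
    ∃ g : ℂ → E, Continuous g ∧ g a = e₀ ∧ ∀ z, p (g z) = f z := by
  obtain ⟨F, ⟨h1, hF⟩, -⟩ := exists_unique_lift hp h hf hfs he
  exact ⟨F, F.continuous, h1, fun z => congrFun hF z⟩

/-- Two lifts which agree at a point are equal. -/
theorem lift_unique (hp : Continuous p) {s : Set Y}
    (h : ∀ e : E, p e ∈ s → ∃ φ : OpenPartialHomeomorph E Y, e ∈ φ.source ∧ p = φ)
    {f : ℂ → Y} (hf : Continuous f) (hfs : ∀ z, f z ∈ s) {g g' : ℂ → E} (hg : Continuous g) (hg' : Continuous g')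
    (h1 : ∀ z, p (g z) = f z) (h2 : ∀ z, p (g' z) = f z) {a : ℂ} (ha : g a = g' a) (z : ℂ) : g z = g' z := by
  have h3 := (exists_unique_lift hp h hf hfs (h1 a)).unique (y₁ := (⟨g, hg⟩ : C(ℂ, E))) (y₂ := (⟨g', hg'⟩ : C(ℂ, E)))
    ⟨rfl, funext h1⟩ ⟨ha.symm, funext h2⟩
  exact congrArg (fun F : C(ℂ, E) => F z) h3

omit [T2Space E] in
/-- The fibres are finite. -/
theorem finite_fibre (hp : Continuous p) {s : Set Y}
    (h : ∀ e : E, p e ∈ s → ∃ φ : OpenPartialHomeomorph E Y, e ∈ φ.source ∧ p = φ) {y : Y} (hy : y ∈ s) :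
    (p ⁻¹' {y}).Finite := by
  refine (isClosed_singleton.preimage hp).isCompact.finite (IsDiscrete.of_openPartialHomeomorph p subset_rfl fun e he => ?_)
  obtain ⟨φ, h1, h2⟩ := h e (by rw [show p e = y from he]; exact hy)
  exact ⟨φ, h1, h2.symm⟩

/-- **Periodic lifts.**  A periodic map has a lift which is periodic for a multiple of the period. -/
theorem exists_lift_periodic (hp : Continuous p) (hsu : Function.Surjective p) {s : Set Y}
    (h : ∀ e : E, p e ∈ s → ∃ φ : OpenPartialHomeomorph E Y, e ∈ φ.source ∧ p = φ)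
    {f : ℂ → Y} (hf : Continuous f) (hfs : ∀ z, f z ∈ s) {c : ℂ} (hfc : ∀ z, f (z + c) = f z) :
    ∃ (g : ℂ → E) (k : ℕ), Continuous g ∧ (∀ z, p (g z) = f z) ∧ 1 ≤ k ∧ ∀ z, g (z + k * c) = g z := by
  obtain ⟨e₀, he₀⟩ := hsu (f 0)
  obtain ⟨g, hg, -, hgf⟩ := exists_lift_plane hp h hf hfs he₀
  have hper : ∀ (n : ℕ) (z : ℂ), f (z + n * c) = f z := by
    intro n
    induction n with
    | zero => intro z; simp
    | succ n ih =>
      intro z
      rw [← hfc z, ← ih (z + c)]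
      congr 1
      push_cast
      ring
  have hfin : (p ⁻¹' {f 0}).Finite := finite_fibre hp h (hfs 0)
  have hmaps : ∀ n : ℕ, g (n * c) ∈ p ⁻¹' {f 0} := by
    intro n
    have h1 := hper n 0
    rw [zero_add] at h1
    change p (g (n * c)) = f 0
    rw [hgf, h1]
  obtain ⟨m, n, hmn, hval⟩ : ∃ m n : ℕ, m < n ∧ g (m * c) = g (n * c) := by
    have : ¬ Function.Injective fun n : ℕ => (⟨g (n * c), hmaps n⟩ : (p ⁻¹' {f 0})) := by
      intro hinj
      have := hfin.to_subtype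
      exact not_injective_infinite_finite _ hinj
    rw [Function.not_injective_iff] at this
    obtain ⟨a, b, hab, hne⟩ := this
    have hab' : g (a * c) = g (b * c) := congrArg Subtype.val hab
    rcases lt_or_gt_of_ne hne with hlt | hlt
    · exact ⟨a, b, hlt, hab'⟩
    · exact ⟨b, a, hlt, hab'.symm⟩
  refine ⟨g, n - m, hg, hgf, by omega, fun z => ?_⟩
  have hgn : ∀ q : ℕ, Continuous fun z => g (z + q * c) := fun q => hg.comp (continuous_id.add continuous_const)
  have h3 : ∀ z, g (z + m * c) = g (z + n * c) := by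
    intro z
    refine lift_unique hp h hf hfs (hgn m) (hgn n) (fun z => ?_) (fun z => ?_) (a := 0) ?_ z
    · rw [hgf, hper]
    · rw [hgf, hper]
    · simpa using hval
  have h4 := h3 (z - m * c)
  rw [sub_add_cancel] at h4
  rw [h4]
  congr 1
  rw [Nat.cast_sub hmn.le]
  ring

end Pool.Agent.H62.Qe

end
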