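import Pool.Agent.H18.GGT.M12
import Pool.Agent.H18.GGT.M19
import Pool.Agent.H18.GGT.M21
import Pool.Agent.H18.GGT.M46

/-! The parts of this file: GA.Lin1, GA.Tr, GB.Pt, GG.Kd.Glu, H68.KR.KOD, GA.CntB, GA.HorC2. -/

section

/-!
# GA Lin1: a variation field in a chart is a variation field
-/

set_option autoImplicit false

open MvPolynomial Topology Filter Metric
open Pool.Agent.H13.SM (conTan cone)
open Pool.Agent.GG (SymSec Ph pt Frame gfam)

noncomputable section

namespace Pool.Agent.GA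

namespace Lin1

variable {N : ℕ}

theorem mero_apply {σ : Type} [Fintype σ] {f : ℂ → σ → ℂ} {z : ℂ} (h : MeromorphicAt f z) (i : σ) : MeromorphicAt (fun w => f w i) z := by
  obtain ⟨n, hn⟩ := h
  exact ⟨n, analyticAt_pi_iff.1 hn i⟩

theorem mero_eval {σ : Type} {y : ℂ → σ → ℂ} {z : ℂ} (hy : ∀ s, MeromorphicAt (fun w => y w s) z) (G : MvPolynomial σ ℂ) :
    MeromorphicAt (fun w => eval (y w) G) z := by
  induction G using MvPolynomial.induction_on with
  | C a =>
    simp only [eval_C]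
    exact MeromorphicAt.const a z
  | add p q hp hq =>
    simp only [map_add]
    exact hp.add hq
  | mul_X p i hp =>
    simp only [map_mul, eval_X]
    exact hp.mul (hy i)

theorem mero_pt {x : ℂ → Fin (N + 1) → ℂ} {z : ℂ} (hx : MeromorphicAt x z) (s : Ph N) : MeromorphicAt (fun w => pt (x w) (deriv x w) s) z := by
  rcases s with b | b
  · exact mero_apply hx b
  · exact mero_apply hx.deriv b

theorem mero_lhs {x V : ℂ → Fin (N + 1) → ℂ} {z : ℂ} (hx : MeromorphicAt x z) (hV : MeromorphicAt V z) (G : MvPolynomial (Ph N) ℂ) :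
    MeromorphicAt (lhs G x V) z :=
  MeromorphicAt.fun_sum fun s _ => (mero_eval (fun t => mero_pt hx t) _).mul (mero_pt hV s)

theorem an_eval {σ : Type} {y : ℂ → σ → ℂ} {z : ℂ} (hy : ∀ s, AnalyticAt ℂ (fun w => y w s) z) (G : MvPolynomial σ ℂ) :
    AnalyticAt ℂ (fun w => eval (y w) G) z := by
  induction G using MvPolynomial.induction_on with
  | C a =>
    simp only [eval_C]
    exact analyticAt_const
  | add p q hp hq =>
    simp only [map_add]
    exact hp.add hq
  | mul_X p i hp =>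
    simp only [map_mul, eval_X]
    exact hp.mul (hy i)

theorem an_pt {x : ℂ → Fin (N + 1) → ℂ} {z : ℂ} (hx : AnalyticAt ℂ x z) (s : Ph N) : AnalyticAt ℂ (fun w => pt (x w) (deriv x w) s) z := by
  rcases s with b | b
  · exact analyticAt_pi_iff.1 hx b
  · exact analyticAt_pi_iff.1 hx.deriv b

theorem an_lhs {x V : ℂ → Fin (N + 1) → ℂ} {z : ℂ} (hx : AnalyticAt ℂ x z) (hV : AnalyticAt ℂ V z) (G : MvPolynomial (Ph N) ℂ) :
    AnalyticAt ℂ (lhs G x V) z := by
  unfold lhs
  exact Finset.analyticAt_fun_sum _ fun s _ => (an_eval (fun t => an_pt hx t) _).mul (an_pt hV s)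

end Lin1

open Lin1

variable {N : ℕ} {P : Ideal (MvPolynomial (Fin (N + 1)) ℂ)} {J : ℕ} {m : Fin J → ℕ} {θ : ∀ k, SymSec P (m k)} {F : ℂ → Fin (N + 1) → ℂ}
  {U : Set ℂ} {Z : ℂ → Fin (N + 1) × Fin (N + 1) → ℂ}

/-- MODULE Lin1.  `Z'_ij = F_i F_b V_j - F_j F_b V_i`; identity theorem for the meromorphic functions `lhs (gfam f b' l) (xb F b') (Vb F Z' b')` on the ball. -/
theorem isVar_of_chart {f : Frame θ} (hF : IsCurve P F U) {z₁ z₂ : ℂ} {ρ : ℝ} (hρ : ball z₁ ρ ⊆ U) {b : Fin (N + 1)} (hb : ∀ w ∈ ball z₁ ρ, F w b ≠ 0)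
    {V : ℂ → Fin (N + 1) → ℂ} (hV : ∀ w ∈ ball z₁ ρ, AnalyticAt ℂ V w) (hz : z₂ ∈ ball z₁ ρ) (hZ : IsVar f F Z z₂) (hVZ : V =ᶠ[𝓝 z₂] Vb F Z b) :
    ∃ Z' : ℂ → Fin (N + 1) × Fin (N + 1) → ℂ, (∀ w ∈ ball z₁ ρ, IsVar f F Z' w) ∧ Z' =ᶠ[𝓝 z₂] Z := by
  set Z' : ℂ → Fin (N + 1) × Fin (N + 1) → ℂ := fun w p => F w p.1 * F w b * V w p.2 - F w p.2 * F w b * V w p.1 with hZ'
  have hFan : ∀ w ∈ ball z₁ ρ, AnalyticAt ℂ F w := fun w hw => hF.an w (hρ hw)
  have hFc : ∀ w ∈ ball z₁ ρ, ∀ c, AnalyticAt ℂ (fun w => F w c) w := fun w hw c => analyticAt_pi_iff.1 (hFan w hw) c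
  have hVc : ∀ w ∈ ball z₁ ρ, ∀ c, AnalyticAt ℂ (fun w => V w c) w := fun w hw c => analyticAt_pi_iff.1 (hV w hw) c
  have hZan : ∀ w ∈ ball z₁ ρ, AnalyticAt ℂ Z' w := fun w hw => analyticAt_pi_iff.2 fun p =>
    (((hFc w hw p.1).mul (hFc w hw b)).mul (hVc w hw p.2)).sub (((hFc w hw p.2).mul (hFc w hw b)).mul (hVc w hw p.1))
  have hZZ : Z' =ᶠ[𝓝 z₂] Z := by
    filter_upwards [hVZ, hZ.2, isOpen_ball.mem_nhds hz] with w h1 h2 h3
    have h4 := (h2 b (hb w h3)).1
    funext p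
    rw [h4 p.1 p.2, ← h1]
  refine ⟨Z', fun w hw => ⟨hZan w hw, ?_⟩, hZZ⟩
  rw [Filter.eventually_all]
  intro c
  -- the points where `F_c` is not `0`
  by_cases hc : ∀ᶠ w' in 𝓝 z₂, F w' c = 0
  · have h1 : Set.EqOn (fun w => F w c) (fun _ => 0) (ball z₁ ρ) :=
      AnalyticOnNhd.eqOn_of_preconnected_of_eventuallyEq (fun w hw => hFc w hw c) (fun w _ => analyticAt_const)
        (convex_ball z₁ ρ).isPreconnected hz hc
    filter_upwards [isOpen_ball.mem_nhds hw] with w' hw' h2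
    exact absurd (h1 hw') h2
  · have hZc : ∀ w ∈ ball z₁ ρ, AnalyticAt ℂ (fun w j => Z' w (c, j)) w := fun w hw => analyticAt_pi_iff.2 fun j => analyticAt_pi_iff.1 (hZan w hw) (c, j)
    have hxm : ∀ w ∈ ball z₁ ρ, MeromorphicAt (xb F c) w := fun w hw => (hFc w hw c).meromorphicAt.inv.smul (hFan w hw).meromorphicAt
    have hVm : ∀ w ∈ ball z₁ ρ, MeromorphicAt (Vb F Z' c) w := by
      intro w hw
      have h1 : MeromorphicAt ((fun w => F w c ^ 2)⁻¹ • fun w (j : Fin (N + 1)) => Z' w (c, j)) w :=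
        ((hFc w hw c).pow 2).meromorphicAt.inv.smul (hZc w hw).meromorphicAt
      refine h1.congr (Eventually.of_forall fun w' => ?_)
      funext j
      show (F w' c ^ 2)⁻¹ * Z' w' (c, j) = Z' w' (c, j) / F w' c ^ 2
      rw [div_eq_inv_mul]
    have hxa : ∀ w ∈ ball z₁ ρ, F w c ≠ 0 → AnalyticAt ℂ (xb F c) w := fun w hw h => ((hFc w hw c).inv h).smul (hFan w hw)
    have hVa : ∀ w ∈ ball z₁ ρ, F w c ≠ 0 → AnalyticAt ℂ (Vb F Z' c) w := fun w hw h =>
      analyticAt_pi_iff.2 fun j => (analyticAt_pi_iff.1 (hZan w hw) (c, j)).div ((hFc w hw c).pow 2) (pow_ne_zero 2 h)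
    have hL : ∀ l, ∀ᶠ w' in 𝓝 w, F w' c ≠ 0 → lhs (gfam f c l) (xb F c) (Vb F Z' c) w' = 0 := by
      intro l
      have hm : MeromorphicOn (lhs (gfam f c l) (xb F c) (Vb F Z' c)) (ball z₁ ρ) := fun w hw => mero_lhs (hxm w hw) (hVm w hw) _
      have hc' : ∀ᶠ w' in 𝓝[≠] z₂, F w' c ≠ 0 := by
        rcases (hFc z₂ hz c).eventually_eq_zero_or_eventually_ne_zero with h1 | h1
        · exact absurd h1 hc
        · exact h1
      have h0 : meromorphicOrderAt (lhs (gfam f c l) (xb F c) (Vb F Z' c)) z₂ = ⊤ := by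
        rw [meromorphicOrderAt_eq_top_iff]
        have h2 : ∀ᶠ w' in 𝓝 z₂, Z' =ᶠ[𝓝 w'] Z := hZZ.eventually_nhds
        filter_upwards [hc', hZ.2.filter_mono nhdsWithin_le_nhds, h2.filter_mono nhdsWithin_le_nhds] with w' h3 h4 h5
        have h6 := (h4 c h3).2 l
        have h7 : Vb F Z' c =ᶠ[𝓝 w'] Vb F Z c := h5.mono fun u hu => by
          funext j
          show Z' u (c, j) / _ = Z u (c, j) / _
          rw [hu]
        unfold lhs at h6 ⊢
        rw [h7.eq_of_nhds, h7.deriv_eq]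
        exact h6
      have h1 : meromorphicOrderAt (lhs (gfam f c l) (xb F c) (Vb F Z' c)) w = ⊤ := by
        by_contra h2
        exact (hm.meromorphicOrderAt_ne_top_of_isPreconnected (convex_ball z₁ ρ).isPreconnected hw hz h2) h0
      rw [meromorphicOrderAt_eq_top_iff] at h1
      by_cases hcw : F w c = 0
      · filter_upwards [eventually_nhdsWithin_iff.1 h1] with w' h2 h3
        exact h2 fun h4 => h3 (by rw [Set.mem_singleton_iff.1 h4]; exact hcw)
      · have h2 : AnalyticAt ℂ (lhs (gfam f c l) (xb F c) (Vb F Z' c)) w := an_lhs (hxa w hw hcw) (hVa w hw hcw) _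
        have h3 : ∀ᶠ w' in 𝓝 w, lhs (gfam f c l) (xb F c) (Vb F Z' c) w' = 0 := by
          rcases h2.eventually_eq_zero_or_eventually_ne_zero with h4 | h4
          · exact h4
          · obtain ⟨w', h5, h6⟩ := (h4.and h1).exists
            exact absurd h6 h5
        exact h3.mono fun w' h4 _ => h4
    filter_upwards [Filter.eventually_all.2 hL, isOpen_ball.mem_nhds hw] with w' h1 h2 h3
    refine ⟨fun i j => ?_, fun l => h1 l h3⟩
    show F w' i * F w' b * V w' j - F w' j * F w' b * V w' i = F w' i * F w' c * ((F w' c * F w' b * V w' j - F w' j * F w' b * V w' c) / F w' c ^ 2) -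
      F w' j * F w' c * ((F w' c * F w' b * V w' i - F w' i * F w' b * V w' c) / F w' c ^ 2)
    field_simp
    ring

end Pool.Agent.GA

end
end

section

/-!
# GA Tr: `RelX` is transported along the curve

Every function of the two sides is meromorphic on `U`: identity theorem for meromorphic functions.
-/

set_option autoImplicit false

open MvPolynomial Topology Filter Metric
open Pool.Agent.H13.SM (conTan cone)
open Pool.Agent.GG

namespace Pool.Agent.GA

variable {N : ℕ}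

/-- the identity theorem for a function which is meromorphic on `U` -/
theorem tr_eq_zero {U : Set ℂ} (hU : IsPreconnected U) {h : ℂ → ℂ} (hm : MeromorphicOn h U) {w₀ w₁ : ℂ} (hw₀ : w₀ ∈ U) (hw₁ : w₁ ∈ U)
    (ha : AnalyticAt ℂ h w₀) (h1 : ∀ᶠ w in 𝓝 w₁, h w = 0) : ∀ᶠ w in 𝓝 w₀, h w = 0 := by
  have h2 : meromorphicOrderAt h w₁ = ⊤ := meromorphicOrderAt_eq_top_iff.2 (h1.filter_mono nhdsWithin_le_nhds)
  have h3 : meromorphicOrderAt h w₀ = ⊤ := by
    by_contra h3
    exact hm.meromorphicOrderAt_ne_top_of_isPreconnected hU hw₀ hw₁ h3 h2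
  have h4 : ∀ᶠ w in 𝓝[≠] w₀, h w = 0 := meromorphicOrderAt_eq_top_iff.1 h3
  exact ha.frequently_zero_iff_eventually_zero.1 h4.frequently

theorem tr_evO_mero {U : Set ℂ} {OO : Subalgebra ℂ (ℂ → ℂ)} (hO : IsSmallRing OO U) {σ : Type} {x : ℂ → σ → ℂ} {w : ℂ} (hw : w ∈ U)
    (hx : ∀ b, MeromorphicAt (fun w => x w b) w) (R : MvPolynomial σ OO) : MeromorphicAt (evO OO x R) w := by
  induction R using MvPolynomial.induction_on with
  | C g =>
    have h1 : evO OO x (C g) = (g : ℂ → ℂ) := by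
      funext z
      exact eval₂_C _ _ _
    rw [h1]
    exact (hO.an g g.2 w hw).meromorphicAt
  | add p q hp hq =>
    have h1 : evO OO x (p + q) = evO OO x p + evO OO x q := by
      funext z
      exact eval₂_add _ _
    rw [h1]
    exact hp.add hq
  | mul_X p b hp =>
    have h1 : evO OO x (p * X b) = evO OO x p * fun z => x z b := by
      funext z
      show eval₂ _ _ _ = _
      rw [eval₂_mul, eval₂_X]
      rfl
    rw [h1]
    exact hp.mul (hx b)

theorem tr_evO_an {U : Set ℂ} {OO : Subalgebra ℂ (ℂ → ℂ)} (hO : IsSmallRing OO U) {σ : Type} {x : ℂ → σ → ℂ} {w : ℂ} (hw : w ∈ U)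
    (hx : ∀ b, AnalyticAt ℂ (fun w => x w b) w) (R : MvPolynomial σ OO) : AnalyticAt ℂ (evO OO x R) w := by
  induction R using MvPolynomial.induction_on with
  | C g =>
    have h1 : evO OO x (C g) = (g : ℂ → ℂ) := by
      funext z
      exact eval₂_C _ _ _
    rw [h1]
    exact hO.an g g.2 w hw
  | add p q hp hq =>
    have h1 : evO OO x (p + q) = evO OO x p + evO OO x q := by
      funext z
      exact eval₂_add _ _
    rw [h1]
    exact hp.add hq
  | mul_X p b hp =>
    have h1 : evO OO x (p * X b) = evO OO x p * fun z => x z b := by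
      funext z
      show eval₂ _ _ _ = _
      rw [eval₂_mul, eval₂_X]
      rfl
    rw [h1]
    exact hp.mul (hx b)

variable {P : Ideal (MvPolynomial (Fin (N + 1)) ℂ)} {F : ℂ → Fin (N + 1) → ℂ} {OO : Subalgebra ℂ (ℂ → ℂ)} {U : Set ℂ}
  {Z : ℂ → Fin (N + 1) × Fin (N + 1) → ℂ}

/-- `F_a ^ e` times a relation is analytic on `U`: identity theorem. -/
theorem relX_transport (hF : IsCurve P F U) (hO : IsSmallRing OO U) {a : Fin (N + 1)} (hZ : ∀ w ∈ U, AnalyticAt ℂ Z w) {w₀ w₁ : ℂ} (hw₀ : w₀ ∈ U)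
    (h₀ : F w₀ a ≠ 0) (hw₁ : w₁ ∈ U) (h₁ : F w₁ a ≠ 0) (h : RelX OO (xb F a) (Vb F Z a) w₀) : RelX OO (xb F a) (Vb F Z a) w₁ := by
  have hFb : ∀ w ∈ U, ∀ b, AnalyticAt ℂ (fun z => F z b) w := fun w hw b => (analyticAt_pi_iff.1 (hF.an w hw)) b
  have hZb : ∀ w ∈ U, ∀ b, AnalyticAt ℂ (fun z => Z z b) w := fun w hw b => (analyticAt_pi_iff.1 (hZ w hw)) b
  have hxm : ∀ w ∈ U, ∀ b, MeromorphicAt (fun z => xb F a z b) w := fun w hw b =>
    ((hFb w hw a).meromorphicAt.inv).mul (hFb w hw b).meromorphicAt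
  have hxa : ∀ w ∈ U, F w a ≠ 0 → ∀ b, AnalyticAt ℂ (fun z => xb F a z b) w := fun w hw h1 b => ((hFb w hw a).inv h1).mul (hFb w hw b)
  have hVm : ∀ w ∈ U, ∀ b, MeromorphicAt (fun z => Vb F Z a z b) w := fun w hw b =>
    (hZb w hw (a, b)).meromorphicAt.div ((hFb w hw a).meromorphicAt.pow 2)
  have hVa : ∀ w ∈ U, F w a ≠ 0 → ∀ b, AnalyticAt ℂ (fun z => Vb F Z a z b) w := fun w hw h1 b =>
    (hZb w hw (a, b)).div ((hFb w hw a).pow 2) (pow_ne_zero 2 h1)
  intro R hR
  have h2 : ∀ᶠ w in 𝓝 w₀, evO OO (xb F a) R w = 0 :=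
    tr_eq_zero hF.conn (fun w hw => tr_evO_mero hO hw (hxm w hw) R) hw₀ hw₁ (tr_evO_an hO hw₀ (hxa w₀ hw₀ h₀) R) hR
  have h3 := h R h2
  refine tr_eq_zero (h := fun w => ∑ b, evO OO (xb F a) (pderiv b R) w * Vb F Z a w b) hF.conn ?_ hw₁ hw₀ ?_ h3
  · intro w hw
    have h4 : (fun w => ∑ b, evO OO (xb F a) (pderiv b R) w * Vb F Z a w b) =
        ∑ b, fun w => evO OO (xb F a) (pderiv b R) w * Vb F Z a w b := by
      funext z
      rw [Finset.sum_apply]
    rw [h4]
    exact MeromorphicAt.sum fun b _ => (tr_evO_mero hO hw (hxm w hw) (pderiv b R)).mul (hVm w hw b)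
  · exact Finset.analyticAt_fun_sum _ fun b _ => (tr_evO_an hO hw₁ (hxa w₁ hw₁ h₁) (pderiv b R)).mul (hVa w₁ hw₁ h₁ b)

end Pool.Agent.GA

end

section

/-!
# GB Pt: the criterion at a point with values in a field with a derivation

PROOF.  `0 = D (G_l (y)) = ∑ ∂G_l/∂x_b (y) y_(inr b) + ∑ ∂G_l/∂v_b (y) D (y_(inr b))`, so `vmat (y) U = rhs (y)`, `U = D ∘ y ∘ inr`; multiply with the adjugate: `fld (y) = vdet (y) (D ∘ y)`.  Chain rule.
-/

set_option autoImplicit false

open MvPolynomial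

namespace Pool.Agent.GB

open Pool.Agent.GG

variable {N : ℕ} {ι : Type} {F : Type} [Field F] [Algebra ℂ F]

/-- the chain rule -/
theorem der_aeval {σ : Type} [Fintype σ] (D : Derivation ℂ F F) (y : σ → F) (p : MvPolynomial σ ℂ) :
    D (aeval y p) = ∑ s, aeval y (pderiv s p) * D (y s) := by
  classical
  induction p using MvPolynomial.induction_on with
  | C c =>
    have h1 : ∀ s : σ, pderiv s (C c : MvPolynomial σ ℂ) = 0 := fun s => pderiv_C
    simp only [h1, map_zero, zero_mul, Finset.sum_const_zero]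
    rw [← MvPolynomial.algebraMap_eq, AlgHom.commutes]
    exact D.map_algebraMap c
  | add p q hp hq =>
    rw [map_add, map_add, hp, hq, ← Finset.sum_add_distrib]
    exact Finset.sum_congr rfl fun s _ => by rw [map_add, map_add, add_mul]
  | mul_X p i hp =>
    rw [map_mul, D.leibniz, hp, aeval_X, smul_eq_mul, smul_eq_mul]
    have h1 : ∀ s, aeval y (pderiv s (p * X i)) * D (y s) =
        y i * (aeval y (pderiv s p) * D (y s)) + (if s = i then aeval y p * D (y i) else 0) := by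
      intro s
      rw [Derivation.leibniz, map_add, smul_eq_mul, smul_eq_mul, map_mul, map_mul, aeval_X, pderiv_X]
      by_cases hs : s = i
      · subst hs
        rw [if_pos rfl, Pi.single_eq_same, map_one]
        ring
      · rw [if_neg hs, Pi.single_eq_of_ne (Ne.symm hs), map_zero]
        ring
    rw [Finset.sum_congr rfl fun s _ => h1 s, Finset.sum_add_distrib, ← Finset.mul_sum, Finset.sum_ite_eq' Finset.univ i, if_pos (Finset.mem_univ i)]
    ring

private theorem Pt_sum {σ τ : Type} [Fintype τ] (D : τ → Derivation ℂ (MvPolynomial σ ℂ) (MvPolynomial σ ℂ)) (p : MvPolynomial σ ℂ) :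
    (∑ s, D s) p = ∑ s, D s p := by
  have h := map_sum (Derivation.coeFnAddMonoidHom (R := ℂ) (A := MvPolynomial σ ℂ) (M := MvPolynomial σ ℂ)) D Finset.univ
  have h1 := congrFun h p
  rw [Finset.sum_apply] at h1
  exact h1

private theorem Pt_mkDer {σ : Type} [Fintype σ] (f : σ → MvPolynomial σ ℂ) (p : MvPolynomial σ ℂ) :
    mkDerivation ℂ f p = ∑ s, pderiv s p * f s := by
  classical
  have h : mkDerivation ℂ f = ∑ s, f s • pderiv (R := ℂ) s := by
    refine MvPolynomial.derivation_ext fun i => ?_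
    rw [mkDerivation_X, Pt_sum]
    simp only [Derivation.smul_apply, pderiv_X, smul_eq_mul]
    rw [Finset.sum_eq_single i]
    · rw [Pi.single_eq_same, mul_one]
    · intro s _ hs
      rw [Pi.single_eq_of_ne (Ne.symm hs), mul_zero]
    · intro h
      exact absurd (Finset.mem_univ i) h
  rw [h, Pt_sum]
  exact Finset.sum_congr rfl fun s _ => by rw [Derivation.smul_apply, smul_eq_mul, mul_comm]

private theorem Pt_fld (G : ι → MvPolynomial (Ph N) ℂ) (J : Fin (N + 1) → ι) (D : Derivation ℂ F F) {y : Ph N → F} (hx : ∀ b, D (y (Sum.inl b)) = y (Sum.inr b))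
    (hG : ∀ l, D (aeval y (G l)) = 0) (s : Ph N) : aeval y (fld G J s) = aeval y (vdet G J) * D (y s) := by
  rcases s with b | b
  · simp only [fld, Sum.elim_inl, map_mul, aeval_X, hx]
  · set M : Matrix (Fin (N + 1)) (Fin (N + 1)) F := (vmat G J).map (aeval y) with hM
    have h1 : aeval y (fld G J (Sum.inr b)) = (M.adjugate.mulVec fun l => aeval y (rhs G J l)) b := by
      simp only [fld, Sum.elim_inr, Matrix.mulVec, dotProduct, map_sum, map_mul]
      refine Finset.sum_congr rfl fun l _ => ?_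
      congr 1
      have := AlgHom.map_adjugate (aeval y : MvPolynomial (Ph N) ℂ →ₐ[ℂ] F) (vmat G J)
      have h2 := congrFun (congrFun this b) l
      simpa [hM, AlgHom.mapMatrix_apply] using h2
    have h3 : (fun l => aeval y (rhs G J l)) = M.mulVec fun c => D (y (Sum.inr c)) := by
      funext l
      have h4 := hG (J l)
      rw [der_aeval, Fintype.sum_sum_type] at h4
      simp only [hx] at h4
      simp only [rhs, map_neg, map_sum, map_mul, aeval_X, Matrix.mulVec, dotProduct, hM, Matrix.map_apply, vmat]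
      linear_combination -h4
    have h5 : aeval y (vdet G J) = M.det := by
      rw [vdet, hM]
      exact AlgHom.map_det (aeval y : MvPolynomial (Ph N) ℂ →ₐ[ℂ] F) (vmat G J)
    rw [h1, h3, h5, Matrix.mulVec_mulVec, Matrix.adjugate_mul, Matrix.smul_mulVec, Matrix.one_mulVec]
    rfl

theorem aeval_Dt (G : ι → MvPolynomial (Ph N) ℂ) (J : Fin (N + 1) → ι) (D : Derivation ℂ F F) {y : Ph N → F} (hx : ∀ b, D (y (Sum.inl b)) = y (Sum.inr b))
    (hG : ∀ l, D (aeval y (G l)) = 0) (p : MvPolynomial (Ph N) ℂ) : aeval y (Dt G J p) = aeval y (vdet G J) * D (aeval y p) := by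
  rw [Dt, Pt_mkDer, map_sum, der_aeval, Finset.mul_sum]
  refine Finset.sum_congr rfl fun s _ => ?_
  rw [map_mul, Pt_fld G J D hx hG]
  ring

theorem aeval_iter (G : ι → MvPolynomial (Ph N) ℂ) (J : Fin (N + 1) → ι) (D : Derivation ℂ F F) {y : Ph N → F} (hx : ∀ b, D (y (Sum.inl b)) = y (Sum.inr b))
    (hG : ∀ l, D (aeval y (G l)) = 0) (l : ι) (k : ℕ) : aeval y ((⇑(Dt G J))^[k + 1] (G l)) = 0 := by
  induction k with
  | zero =>
    rw [zero_add, Function.iterate_one, aeval_Dt G J D hx hG, hG, mul_zero]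
  | succ k ih =>
    rw [Function.iterate_succ_apply', aeval_Dt G J D hx hG, ih, map_zero, mul_zero]

theorem aeval_iter_zero (G : ι → MvPolynomial (Ph N) ℂ) (J : Fin (N + 1) → ι) (D : Derivation ℂ F F) {y : Ph N → F}
    (hx : ∀ b, D (y (Sum.inl b)) = y (Sum.inr b)) (hG : ∀ l, D (aeval y (G l)) = 0) {p : MvPolynomial (Ph N) ℂ} (hp : aeval y p = 0) (k : ℕ) :
    aeval y ((⇑(Dt G J))^[k] p) = 0 := by
  induction k with
  | zero => exact hp
  | succ k ih => rw [Function.iterate_succ_apply', aeval_Dt G J D hx hG, ih, map_zero, mul_zero]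

end Pool.Agent.GB

end

section

/-!
# GG Kd Glu: the section on the cone

`Plc P k M`: a rational form `ω` and a function `H` such that `H (x_l / x_o) ω^M` is regular along all prime divisors, for all `l`.  The section of `K^M (-1)` is
`H ω^M / x_o`; in the chart `x_a = 1` it is `H (x_a / x_o) ω^M / x_a`.
-/

set_option autoImplicit false

open MvPolynomial
open Pool.Agent.H17LG.Variety (FunField ratio PoleAtMost IsLogGeneralType)
open Pool.Agent.H23.Fano (Form PrimeDivisorOver)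
open Pool.Agent.H13.SM (conTan cone)

noncomputable section

namespace Pool.Agent.GG.Kd

variable {N : ℕ}

/-- a section of `K^M (-1)`, regular along all prime divisors -/
structure Plc (P : Ideal (MvPolynomial (Fin (N + 1)) ℂ)) [P.IsPrime] (k M : ℕ) where
  /-- the rational form -/
  ω : Form (FunField P) k
  ne : ω ≠ 0
  /-- the function -/
  H : FunField P
  H_ne : H ≠ 0
  /-- the index of a coordinate which does not vanish -/
  o : Fin (N + 1)
  ho : X o ∉ P
  pole : ∀ l, X l ∉ P → ∀ D : PrimeDivisorOver (FunField P) k, PoleAtMost 0 D M (H * ratio P l o) ω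

variable {P : Ideal (MvPolynomial (Fin (N + 1)) ℂ)} [P.IsPrime] {k M : ℕ}

/-- rational forms in coordinates -/
theorem exists_mk {K : Type} [Field K] [Algebra ℂ K] {r : ℕ} {y : Fin r → K} (d : Dat y k) (ω : Form K k) : ∃ W : K, ω = Form.mk W d.t := by
  obtain ⟨b, hb⟩ := Pool.Agent.H23.exists_basis_kaehler d.basis
  refine ⟨Pool.Agent.H23.fc b ω, ?_⟩
  have h1 := Pool.Agent.H23.eq_fc_smul b (show ⋀[K]^k Ω[K⁄ℂ] from ω)
  have h3 : (fun i => b i) = fun i => KaehlerDifferential.D ℂ K (d.t i) := funext hb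
  rw [h3] at h1
  exact h1

variable (p : Plc P (k + 1) M)

/-! ## the rules -/

end Pool.Agent.GG.Kd

end
end

section

/-!
# KR KOD: Kodaira's lemma

`exists_relation`.  `ξ` is algebraic over the field `ℂ(φ)`, `φ i = f i / f 0`, hence over the ring `ℂ[φ]` (the field is its
fraction field: `IsFractionRing` instance in the scope `algebraAdjoinAdjoin` of
`Mathlib/FieldTheory/IntermediateField/Adjoin/Algebra.lean`, `IsFractionRing.isAlgebraic_iff` or
`IsAlgebraic.of…`/clearing denominators).  So there is a polynomial `p ≠ 0` over `ℂ[φ]` with `p (ξ) = 0`; divide by the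
power of `T` (`Polynomial.exists_eq_X_pow…`, `p.divX`, or choose `p` of minimal degree; `ξ ≠ 0`): `p.coeff 0 ≠ 0`.
`p.coeff k = aeval φ (g k)` (`Algebra.adjoin_range_eq_range_aeval`).  Let `D ≥ 1` be at least all total degrees,
`a k = hmz 0 D (g k)`: homogeneous of degree `D`, `aeval f (a k) = f 0 ^ D * aeval φ (g k)` (`eval₂_hmz`, `aeval` is
`eval₂ (algebraMap …)`).

`exists_good_coordinate`.  Let `x` be the point of `exists_point`, `l` with `D.ord (x l)` minimal (finite set,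
`Finset.exists_min_image`); `x ≠ 0`, so `x l ≠ 0` (its order is not `⊤`) and `X l ∉ P`; `ratio P i l = x i / x l` has order
`≥ 0`: `D.ord (x i) = D.ord (x i / x l) + D.ord (x l)`.

`kodaira`.  Let `m, ω, r, f` be given by `hgt` (`B` is empty: for all `i`, `D` `PoleAtMost 0 D m (f i) ω`).  Choose `o` with
`X o ∉ P`.  For every `l` with `X l ∉ P` let `ξ l = ratio P o l ≠ 0`, and `D_l ≥ 1`, `n_l`, `a^l` be given by
`exists_relation` (for other `l` put the factor `1` and `D_l = 0`).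
`H = ∏_l aeval f (a^l 0)` over `l` with `X l ∉ P`, `M = m * ∑ D_l ≥ 1`.  `H ≠ 0`.
Let `D` be a prime divisor and `l'` with `X l' ∉ P`.  For every `i` there are `g_i, η_i` with `ω = g_i • η_i`,
`0 ≤ D.ord (f i * g_i ^ m)`.  Let `g = g_i, η = η_i` be those with `D.ord g_i` maximal (it is not `⊤`: `g_i ≠ 0` as
`ω ≠ 0`).  Then `0 ≤ D.ord (f i * g ^ m)` for all `i`.  Hence for `a` homogeneous of degree `d`:
`aeval f a * g ^ (m d) = aeval (fun i => f i * g ^ m) a` has order `≥ 0` (`eval₂_of_isHomogeneous`; a polynomial with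
constant coefficients in elements of the valuation ring, `D.ord_const`, `MvPolynomial.induction_on` or `eval₂_eq` and the sum
formula).  Let `l` be the coordinate of `exists_good_coordinate`.
`aeval f (a^l 0) * g^(m D_l) = - ξ_l * ∑_{k ≥ 1} (aeval f (a^l k) * g^(m D_l)) ξ_l^(k-1)` and `ξ_l = ratio P o l` has
order `≥ 0`, so `D.ord (aeval f (a^l 0) * g^(m D_l)) ≥ D.ord ξ_l`, and the other factors of
`H * g ^ M = ∏ (aeval f (a^l 0) * g^(m D_l))` have order `≥ 0`.  So
`D.ord (H * ratio P l' o * g ^ M) ≥ D.ord (ratio P o l * ratio P l' o) = D.ord (ratio P l' l) ≥ 0`.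
-/

set_option autoImplicit false

open MvPolynomial
open Pool.Agent.H23.Fano (Form regularForms PrimeDivisorOver)
open Pool.Agent.H17GT (coordFun functionField)
open Pool.Agent.H17LG.Variety (FunField ratio PoleAtMost IsLogGeneralType)

noncomputable section

namespace Pool.Agent.H68.KR

theorem exists_relation {K : Type} [Field K] [Algebra ℂ K] {r : ℕ} {f : Fin (r + 1) → K} (hf : f 0 ≠ 0)
    {ξ : K} (hξ : ξ ≠ 0)
    (halg : IsAlgebraic (IntermediateField.adjoin ℂ (Set.range fun i => f i / f 0)) ξ) :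
    ∃ (D n : ℕ) (a : ℕ → MvPolynomial (Fin (r + 1)) ℂ), 1 ≤ D ∧ (∀ k, (a k).IsHomogeneous D) ∧
      aeval f (a 0) ≠ 0 ∧ ∑ k ∈ Finset.range (n + 1), aeval f (a k) * ξ ^ k = 0 := by
  classical
  have halg2 : IsAlgebraic (Algebra.adjoin ℂ (Set.range fun i => f i / f 0)) ξ := by
    open scoped IntermediateField.algebraAdjoinAdjoin in
    exact (IsFractionRing.isAlgebraic_iff (Algebra.adjoin ℂ (Set.range fun i => f i / f 0))
      (IntermediateField.adjoin ℂ (Set.range fun i => f i / f 0)) K).2 halg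
  obtain ⟨p, hp0, hp⟩ := halg2
  obtain ⟨q, hpq, hq⟩ := Polynomial.exists_eq_pow_rootMultiplicity_mul_and_not_dvd p hp0 0
  rw [map_zero, sub_zero] at hpq hq
  rw [Polynomial.X_dvd_iff] at hq
  have hq0 : Polynomial.aeval ξ q = 0 := by
    rw [hpq, map_mul, map_pow, Polynomial.aeval_X] at hp
    exact (mul_eq_zero.1 hp).resolve_left (pow_ne_zero _ hξ)
  have hg : ∀ k, ∃ G : MvPolynomial (Fin (r + 1)) ℂ, aeval (fun i => f i / f 0) G =
      ((q.coeff k : Algebra.adjoin ℂ (Set.range fun i => f i / f 0)) : K) := by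
    intro k
    have h1 : ∀ y ∈ Algebra.adjoin ℂ (Set.range fun i => f i / f 0),
        ∃ G : MvPolynomial (Fin (r + 1)) ℂ, aeval (fun i => f i / f 0) G = y := by
      intro y hy
      rw [Algebra.adjoin_range_eq_range_aeval] at hy
      exact hy
    exact h1 _ (q.coeff k).2
  choose G hG using hg
  refine ⟨1 + ∑ k ∈ Finset.range (q.natDegree + 1), (G k).totalDegree, q.natDegree,
    fun k => hmz 0 (1 + ∑ k ∈ Finset.range (q.natDegree + 1), (G k).totalDegree) (G k), by omega,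
    fun k => hmz_isHomogeneous _ _ _, ?_, ?_⟩
  all_goals
    have key : ∀ k ∈ Finset.range (q.natDegree + 1),
        aeval f (hmz 0 (1 + ∑ k ∈ Finset.range (q.natDegree + 1), (G k).totalDegree) (G k)) =
          f 0 ^ (1 + ∑ k ∈ Finset.range (q.natDegree + 1), (G k).totalDegree) *
            ((q.coeff k : Algebra.adjoin ℂ (Set.range fun i => f i / f 0)) : K) := by
      intro k hk
      rw [← hG k]
      have h1 : (G k).totalDegree ≤ 1 + ∑ k ∈ Finset.range (q.natDegree + 1), (G k).totalDegree := by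
        have := Finset.single_le_sum (f := fun k => (G k).totalDegree)
          (fun i _ => Nat.zero_le _) hk
        exact le_trans this (Nat.le_add_left _ _)
      exact eval₂_hmz (algebraMap ℂ K) h1 hf
  · rw [key 0 (by simp)]
    apply mul_ne_zero (pow_ne_zero _ hf)
    intro h
    exact hq (Subtype.ext h)
  · rw [Finset.sum_congr rfl fun k hk => by rw [key k hk, mul_assoc], ← Finset.mul_sum]
    have h2 : ∑ k ∈ Finset.range (q.natDegree + 1),
        ((q.coeff k : Algebra.adjoin ℂ (Set.range fun i => f i / f 0)) : K) * ξ ^ k = 0 := by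
      rw [← hq0, Polynomial.aeval_eq_sum_range]
      refine Finset.sum_congr rfl fun k _ => ?_
      rw [Algebra.smul_def]
      rfl
    rw [h2, mul_zero]

variable {N : ℕ} (P : Ideal (MvPolynomial (Fin (N + 1)) ℂ)) [P.IsPrime]

private theorem X_coordFun_ne {l : Fin (N + 1)} (h : coordFun P l ≠ 0) : X l ∉ P := by
  intro hX
  apply h
  rw [coordFun, Ideal.Quotient.eq_zero_iff_mem.2 hX, map_zero]

private theorem X_coordFun_ne' {l : Fin (N + 1)} (h : X l ∉ P) : coordFun P l ≠ 0 := by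
  intro h0
  apply h
  rw [coordFun] at h0
  have h10 : Ideal.Quotient.mk P (X l) = 0 :=
    (IsFractionRing.injective (MvPolynomial (Fin (N + 1)) ℂ ⧸ P)
      (FractionRing (MvPolynomial (Fin (N + 1)) ℂ ⧸ P))) (by rw [h0, map_zero])
  exact Ideal.Quotient.eq_zero_iff_mem.1 h10

theorem exists_good_coordinate {k : ℕ} (z : Fin (k + 1) → FunField P) (hz : IsTranscendenceBasis ℂ z)
    {n : ℕ} (D : PrimeDivisorOver (FunField P) n) :
    ∃ l, X l ∉ P ∧ ∀ i, 0 ≤ D.ord (ratio P i l) := by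
  obtain ⟨x, hx0, -, -, -, hx5, hx6⟩ := exists_point P z hz
  obtain ⟨l, hl⟩ := Finite.exists_min fun l => D.ord (x l)
  obtain ⟨i₀, hi₀⟩ : ∃ i, x i ≠ 0 := by
    by_contra hcon
    push Not at hcon
    exact hx0 (funext hcon)
  have hl1 : D.ord (x l) ≠ ⊤ := by
    intro h
    have h1 := hl i₀
    rw [h, top_le_iff] at h1
    exact hi₀ (D.ord.top_iff.1 h1)
  have hl2 : x l ≠ 0 := by
    intro h
    exact hl1 (by rw [h]; exact D.ord.map_zero)
  refine ⟨l, X_coordFun_ne P fun h => hl2 ((hx5 l).2 h), fun i => ?_⟩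
  rw [← hx6]
  have h2 : x i = x i / x l * x l := by field_simp
  have h3 : D.ord (x l) ≤ D.ord (x i) := hl i
  rw [h2, D.ord.map_mul] at h3
  obtain ⟨c, hc⟩ := WithTop.ne_top_iff_exists.1 hl1
  rw [← hc] at h3
  rcases h4 : D.ord (x i / x l) with _ | b
  · exact le_top
  · rw [h4] at h3
    have h5 : (c : WithTop ℤ) ≤ ((b + c : ℤ) : WithTop ℤ) := h3
    have h6 : c ≤ b + c := WithTop.coe_le_coe.1 h5
    have h7 : 0 ≤ b := by omega
    exact WithTop.coe_le_coe.2 h7

private theorem X_ord_aeval {K : Type} [Field K] [Algebra ℂ K] {n s : ℕ} (D : PrimeDivisorOver K n)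
    (y : Fin s → K) (hy : ∀ i, 0 ≤ D.ord (y i)) (Q : MvPolynomial (Fin s) ℂ) :
    0 ≤ D.ord (aeval y Q) := by
  induction Q using MvPolynomial.induction_on with
  | C a =>
    rw [aeval_C]
    exact D.ord_const a
  | add p q hp hq =>
    rw [map_add]
    exact D.ord.map_le_add hp hq
  | mul_X p i hp =>
    rw [map_mul, aeval_X, D.ord.map_mul]
    exact add_nonneg hp (hy i)

private theorem X_ord_prod {K : Type} [Field K] [Algebra ℂ K] {n : ℕ} (D : PrimeDivisorOver K n)
    {ι : Type} (S : Finset ι) (y : ι → K) (hy : ∀ i ∈ S, 0 ≤ D.ord (y i)) :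
    0 ≤ D.ord (∏ i ∈ S, y i) := by
  classical
  induction S using Finset.induction_on with
  | empty => rw [Finset.prod_empty, D.ord.map_one]
  | insert a S ha ih =>
    rw [Finset.prod_insert ha, D.ord.map_mul]
    exact add_nonneg (hy a (Finset.mem_insert_self _ _))
      (ih fun i hi => hy i (Finset.mem_insert_of_mem hi))

private theorem X_solve {K : Type} [Field K] {n : ℕ} {A : ℕ → K} {ξ : K} (c : K)
    (h : ∑ j ∈ Finset.range (n + 1), A j * ξ ^ j = 0) :
    c * A 0 = ξ * (-∑ j ∈ Finset.range n, c * A (j + 1) * ξ ^ j) := by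
  rw [Finset.sum_range_succ', pow_zero, mul_one] at h
  have h7 : A 0 = -∑ j ∈ Finset.range n, A (j + 1) * ξ ^ (j + 1) := by
    linear_combination h
  rw [h7, mul_neg, mul_neg, Finset.mul_sum, Finset.mul_sum]
  congr 1
  refine Finset.sum_congr rfl fun j _ => ?_
  ring

/-- Kodaira's lemma. -/
theorem kodaira {k : ℕ} (z : Fin (k + 1) → FunField P) (hz : IsTranscendenceBasis ℂ z) {n : ℕ}
    (hgt : IsLogGeneralType (K := FunField P) (k := n) fun _ => False) :
    ∃ ω : Form (FunField P) n, ω ≠ 0 ∧ ∃ (M : ℕ) (H : FunField P) (o : Fin (N + 1)), 1 ≤ M ∧ H ≠ 0 ∧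
      X o ∉ P ∧ ∀ l, X l ∉ P → ∀ D : PrimeDivisorOver (FunField P) n,
        PoleAtMost 0 D M (H * ratio P l o) ω := by
  classical
  obtain ⟨m, hm, ω, hω, r, f, hf, hpole, halg⟩ := hgt
  obtain ⟨x, hx0, -, -, -, hx5, hx6⟩ := exists_point P z hz
  obtain ⟨o, ho⟩ : ∃ i, x i ≠ 0 := by
    by_contra hcon
    push Not at hcon
    exact hx0 (funext hcon)
  have hoP : X o ∉ P := X_coordFun_ne P fun h => ho ((hx5 o).2 h)
  have hx7 : ∀ l, X l ∉ P → x l ≠ 0 := fun l hl h => X_coordFun_ne' P hl ((hx5 l).1 h)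
  have hξ : ∀ l, X l ∉ P → ratio P o l ≠ 0 := by
    intro l hl
    rw [← hx6]
    exact div_ne_zero ho (hx7 l hl)
  have hex : ∀ l : Fin (N + 1), ∃ (D n : ℕ) (a : ℕ → MvPolynomial (Fin (r + 1)) ℂ),
      (∀ k, (a k).IsHomogeneous D) ∧ aeval f (a 0) ≠ 0 ∧ (X l ∉ P → 1 ≤ D ∧
        ∑ k ∈ Finset.range (n + 1), aeval f (a k) * ratio P o l ^ k = 0) := by
    intro l
    by_cases hl : X l ∈ P
    · refine ⟨0, 0, fun _ => 1, fun _ => isHomogeneous_one _ _, ?_, fun h => absurd hl h⟩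
      rw [map_one]
      exact one_ne_zero
    · obtain ⟨D, n, a, h1, h2, h3, h4⟩ := exists_relation hf (hξ l hl)
        (halg.isAlgebraic (ratio P o l))
      exact ⟨D, n, a, h2, h3, fun _ => ⟨h1, h4⟩⟩
  choose d nn a ha ha0 hrel using hex
  refine ⟨ω, hω, m * ∑ l, d l, ∏ l, aeval f (a l 0), o, ?_, ?_, hoP, ?_⟩
  · have h1 : 1 ≤ d o := (hrel o hoP).1
    have h2 : d o ≤ ∑ l, d l := Finset.single_le_sum (f := d) (fun i _ => Nat.zero_le _)
      (Finset.mem_univ o)
    exact Nat.mul_pos hm (by omega)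
  · exact Finset.prod_ne_zero_iff.2 fun l _ => ha0 l
  · intro l' hl' D
    have h1 : ∀ i, ∃ (g : FunField P) (η : Form (FunField P) n), η ∈ regularForms n D.localRing ∧
        ω = g • η ∧ 0 ≤ D.ord (f i * g ^ m) := by
      intro i
      obtain ⟨g, η, h2, h3, h4⟩ := (hpole i D).1 (fun h => h)
      refine ⟨g, η, h2, h3, ?_⟩
      rw [Nat.cast_zero, add_zero] at h4
      exact h4
    choose g η hη hωg hord using h1
    obtain ⟨i₀, hi₀⟩ := Finite.exists_max fun i => D.ord (g i)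
    have h2 : ∀ i, 0 ≤ D.ord (g i₀ ^ m * f i) := by
      intro i
      refine le_trans (hord i) ?_
      rw [D.ord.map_mul, D.ord.map_mul, D.ord.map_pow, D.ord.map_pow, add_comm]
      gcongr
      exact hi₀ i
    have h3 : ∀ l j, 0 ≤ D.ord (g i₀ ^ (m * d l) * aeval f (a l j)) := by
      intro l j
      have h4 := eval₂_of_isHomogeneous (algebraMap ℂ (FunField P)) (ha l j) (g i₀ ^ m) f
      rw [pow_mul]
      have h5 := X_ord_aeval D (fun i => g i₀ ^ m * f i) h2 (a l j)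
      rw [aeval_def, h4] at h5
      exact h5
    obtain ⟨l, hlP, hl⟩ := exists_good_coordinate P z hz D
    have h4 : D.ord (ratio P o l) ≤ D.ord (g i₀ ^ (m * d l) * aeval f (a l 0)) := by
      have h6 := X_solve (g i₀ ^ (m * d l)) (hrel l hlP).2
      rw [h6, D.ord.map_mul]
      refine le_add_of_nonneg_right ?_
      rw [D.ord.map_neg]
      refine D.ord.map_le_sum fun j _ => ?_
      rw [D.ord.map_mul, D.ord.map_pow]
      exact add_nonneg (h3 l (j + 1)) (nsmul_nonneg (hl o) j)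
    have h5 : D.ord (ratio P o l) ≤ D.ord (g i₀ ^ (m * ∑ l, d l) * ∏ l, aeval f (a l 0)) := by
      have h6 : g i₀ ^ (m * ∑ l, d l) * ∏ l, aeval f (a l 0) =
          ∏ l, (g i₀ ^ (m * d l) * aeval f (a l 0)) := by
        rw [Finset.prod_mul_distrib, Finset.prod_pow_eq_pow_sum, Finset.mul_sum]
      rw [h6, ← Finset.mul_prod_erase _ _ (Finset.mem_univ l), D.ord.map_mul]
      exact le_add_of_le_of_nonneg h4 (X_ord_prod D _ _ fun i _ => h3 i 0)
    refine ⟨g i₀, η i₀, hη i₀, hωg i₀, ?_⟩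
    rw [Nat.cast_zero, add_zero]
    have h6 : (∏ l, aeval f (a l 0)) * ratio P l' o * g i₀ ^ (m * ∑ l, d l) =
        (g i₀ ^ (m * ∑ l, d l) * ∏ l, aeval f (a l 0)) * ratio P l' o := by ring
    rw [h6, D.ord.map_mul]
    have h7 : ratio P o l * ratio P l' o = ratio P l' l := by
      rw [← hx6, ← hx6, ← hx6]
      have := hx7 l hlP
      field_simp
    calc (0 : WithTop ℤ) ≤ D.ord (ratio P l' l) := hl l'
      _ = D.ord (ratio P o l) + D.ord (ratio P l' o) := by rw [← h7, D.ord.map_mul]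
      _ ≤ _ := by gcongr

end Pool.Agent.H68.KR

end
end

section

/-!
# GA CntB: linear differential equations (note 4590 (4))

`exists_linear`: for `B` analytic at `z` there is a ball on which `U' = B U` has a solution with any value at any point of the ball (`exists_flowG` for
`t' = 1`, `U' = B (t) U` at `(z, 0)`, and homogeneity).  `linear_unique`: uniqueness.
-/

set_option autoImplicit false

open Topology Filter Metric Set

namespace Pool.Agent.GA

variable {ι : Type} [Fintype ι]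

/-- the vector field `(1, B (t) u)` -/
private noncomputable def fieldB (B : ℂ → (ι → ℂ) →L[ℂ] (ι → ℂ)) (y : Option ι → ℂ) : Option ι → ℂ :=
  fun o => o.elim 1 fun i => B (y none) (fun j => y (some j)) i

/-- the pair `(t, u)` -/
private def pr (t : ℂ) (u : ι → ℂ) : Option ι → ℂ := fun o => o.elim t u

private theorem analyticAt_fieldB {B : ℂ → (ι → ℂ) →L[ℂ] (ι → ℂ)} {y : Option ι → ℂ} (hB : AnalyticAt ℂ B (y none)) :
    AnalyticAt ℂ (fieldB B) y := by
  have hev : ∀ o : Option ι, AnalyticAt ℂ (fun y : Option ι → ℂ => y o) y := fun o =>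
    (ContinuousLinearMap.proj (R := ℂ) (φ := fun _ : Option ι => ℂ) o).analyticAt y
  have h1 : AnalyticAt ℂ (fun y : Option ι → ℂ => B (y none)) y := AnalyticAt.comp (g := B) (f := fun y : Option ι → ℂ => y none) hB (hev none)
  have h2 : AnalyticAt ℂ (fun y : Option ι → ℂ => (fun j => y (some j) : ι → ℂ)) y := by
    rw [analyticAt_pi_iff]
    exact fun j => hev (some j)
  have h3 : AnalyticAt ℂ (fun y : Option ι → ℂ => B (y none) (fun j => y (some j))) y := by
    have e := ((ContinuousLinearMap.id ℂ ((ι → ℂ) →L[ℂ] (ι → ℂ))).analyticAt_bilinear (B (y none), (fun j => y (some j) : ι → ℂ)))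
    exact AnalyticAt.comp (g := fun p : ((ι → ℂ) →L[ℂ] (ι → ℂ)) × (ι → ℂ) => p.1 p.2) (f := fun y : Option ι → ℂ => (B (y none), (fun j => y (some j) : ι → ℂ)))
      e (h1.prod h2)
  show AnalyticAt ℂ (fun y => fieldB B y) y
  rw [analyticAt_pi_iff]
  rintro (_ | i)
  · exact analyticAt_const
  · exact (ContinuousLinearMap.proj (R := ℂ) (φ := fun _ : ι => ℂ) i).analyticAt _ |>.comp h3

omit [Fintype ι] in
private theorem hasDerivAt_pr [Finite ι] {B : ℂ → (ι → ℂ) →L[ℂ] (ι → ℂ)} {U : ℂ → ι → ℂ} {t : ℂ} (h : HasDerivAt U (B t (U t)) t) :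
    HasDerivAt (fun s => pr s (U s)) (fieldB B (pr t (U t))) t := by
  rw [hasDerivAt_pi]
  rintro (_ | i)
  · exact hasDerivAt_id t
  · exact (hasDerivAt_pi.1 h) i

/-- local uniqueness -/
theorem linear_unique_nhds {B : ℂ → (ι → ℂ) →L[ℂ] (ι → ℂ)} {U V : ℂ → ι → ℂ} {t : ℂ} (hB : AnalyticAt ℂ B t) (e : U t = V t)
    (hU : ∀ᶠ s in 𝓝 t, HasDerivAt U (B s (U s)) s) (hV : ∀ᶠ s in 𝓝 t, HasDerivAt V (B s (V s)) s) : U =ᶠ[𝓝 t] V := by
  have h := Pool.Agent.GG.ode_uniqueG (V := fieldB B) (y₁ := fun s => pr s (U s)) (y₂ := fun s => pr s (V s)) (t := t)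
    (analyticAt_fieldB (by exact hB)) (by show pr t (U t) = pr t (V t); rw [e]) (hU.mono fun s hs => hasDerivAt_pr hs)
    (hV.mono fun s hs => hasDerivAt_pr hs)
  filter_upwards [h] with s hs
  funext i
  exact congrFun hs (some i)

theorem analyticOnNhd_of_linear {B : ℂ → (ι → ℂ) →L[ℂ] (ι → ℂ)} {U : ℂ → ι → ℂ} {W : Set ℂ} (hW : IsOpen W)
    (hU : ∀ t ∈ W, HasDerivAt U (B t (U t)) t) : AnalyticOnNhd ℂ U W :=
  DifferentiableOn.analyticOnNhd (fun t ht => (hU t ht).differentiableAt.differentiableWithinAt) hW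

/-- uniqueness on a connected open set -/
theorem linear_unique {B : ℂ → (ι → ℂ) →L[ℂ] (ι → ℂ)} {U V : ℂ → ι → ℂ} {W : Set ℂ} (hW : IsOpen W) (hc : IsPreconnected W) {t : ℂ} (ht : t ∈ W)
    (hB : AnalyticAt ℂ B t) (e : U t = V t) (hU : ∀ s ∈ W, HasDerivAt U (B s (U s)) s) (hV : ∀ s ∈ W, HasDerivAt V (B s (V s)) s) :
    EqOn U V W :=
  (analyticOnNhd_of_linear hW hU).eqOn_of_preconnected_of_eventuallyEq (analyticOnNhd_of_linear hW hV) hc ht
    (linear_unique_nhds hB e ((hW.eventually_mem ht).mono hU) ((hW.eventually_mem ht).mono hV))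

/-- MODULE CntB: solutions on a ball, with any value at any point of the ball. -/
theorem exists_linear {B : ℂ → (ι → ℂ) →L[ℂ] (ι → ℂ)} {z : ℂ} (hB : AnalyticAt ℂ B z) {R : ℝ} (hR : 0 < R) :
    ∃ r > 0, r ≤ R ∧ (∀ w ∈ ball z r, AnalyticAt ℂ B w) ∧ ∀ w ∈ ball z r, ∀ u₀ : ι → ℂ, ∃ U : ℂ → ι → ℂ, U w = u₀ ∧
      ∀ t ∈ ball z r, HasDerivAt U (B t (U t)) t := by
  classical
  obtain ⟨r, hr, H, hHa, hH0, hHd⟩ := Pool.Agent.GG.exists_flowG (V := fieldB B) (x₀ := pr z 0) (analyticAt_fieldB (by exact hB))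
  obtain ⟨s, hs, hBs⟩ := Metric.eventually_nhds_iff_ball.1 hB.eventually_analyticAt
  refine ⟨min (min R s) (r / 2), lt_min (lt_min hR hs) (half_pos hr), (min_le_left _ _).trans (min_le_left _ _), ?_, ?_⟩
  · intro w hw
    exact hBs w (ball_subset_ball ((min_le_left _ _).trans (min_le_right _ _)) hw)
  intro w hw u₀
  have hwr : dist w z < r / 2 := (mem_ball.1 hw).trans_le (min_le_right _ _)
  -- a small multiple of the initial value
  obtain ⟨c, hc0, hc⟩ : ∃ c : ℂ, c ≠ 0 ∧ ‖c • u₀‖ < r := by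
    refine ⟨((r / (2 * (‖u₀‖ + 1)) : ℝ) : ℂ), ?_, ?_⟩
    · have : (0 : ℝ) < r / (2 * (‖u₀‖ + 1)) := by positivity
      exact_mod_cast this.ne'
    · have h0 : (0 : ℝ) < r / (2 * (‖u₀‖ + 1)) := by positivity
      rw [norm_smul, Complex.norm_real, Real.norm_of_nonneg h0.le, div_mul_eq_mul_div, div_lt_iff₀ (by positivity)]
      nlinarith [norm_nonneg u₀]
  have hx : pr w (c • u₀) ∈ ball (pr z (0 : ι → ℂ)) r := by
    rw [mem_ball, dist_pi_lt_iff hr]
    rintro (_ | i)
    · show dist w z < r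
      linarith
    · show dist ((c • u₀) i) 0 < r
      rw [dist_zero_right]
      exact (norm_le_pi_norm (c • u₀) i).trans_lt hc
  obtain ⟨Y, hYdef⟩ : ∃ Y : ℂ → Option ι → ℂ, Y = fun ζ => H (ζ, pr w (c • u₀)) := ⟨_, rfl⟩
  have hY : ∀ ζ ∈ ball (0 : ℂ) r, HasDerivAt Y (fieldB B (Y ζ)) ζ := by
    intro ζ hζ
    rw [hYdef]
    exact (hHd _ hx ζ hζ).2
  have hY0 : Y 0 = pr w (c • u₀) := by rw [hYdef]; exact hH0 _ hx
  -- the first component
  have hfst : ∀ ζ ∈ ball (0 : ℂ) r, Y ζ none = w + ζ := by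
    intro ζ hζ
    have hd : ∀ x ∈ ball (0 : ℂ) r, HasDerivWithinAt (fun x => Y x none - x) 0 (ball (0 : ℂ) r) x := by
      intro x hx
      have h1 : HasDerivAt (fun x => Y x none) 1 x := (hasDerivAt_pi.1 (hY x hx)) none
      have h2 := h1.sub (hasDerivAt_id x)
      rw [sub_self] at h2
      exact h2.hasDerivWithinAt
    have h3 := (convex_ball (0 : ℂ) r).norm_image_sub_le_of_norm_hasDerivWithin_le (f := fun x => Y x none - x) (f' := fun _ => 0) (C := 0)
      hd (fun x _ => by simp) (mem_ball_self hr) hζ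
    have h4 : Y ζ none - ζ - (Y 0 none - 0) = 0 := by
      have h5 : ‖Y ζ none - ζ - (Y 0 none - 0)‖ ≤ 0 * ‖ζ - 0‖ := h3
      rw [zero_mul] at h5
      exact norm_le_zero_iff.1 h5
    have h6 : Y 0 none = w := by rw [hY0]; rfl
    rw [h6] at h4
    linear_combination h4
  refine ⟨fun t => c⁻¹ • fun i => Y (t - w) (some i), ?_, ?_⟩
  · show c⁻¹ • (fun i => Y (w - w) (some i)) = u₀
    rw [sub_self, hY0]
    show c⁻¹ • (c • u₀) = u₀
    rw [smul_smul, inv_mul_cancel₀ hc0, one_smul]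
  · intro t ht
    have htr : dist t z < r / 2 := (mem_ball.1 ht).trans_le (min_le_right _ _)
    have hm : t - w ∈ ball (0 : ℂ) r := by
      rw [mem_ball, dist_zero_right, ← dist_eq_norm]
      calc dist t w ≤ dist t z + dist w z := dist_triangle_right _ _ _
        _ < r := by linarith
    have h1 : HasDerivAt (fun t => Y (t - w)) (fieldB B (Y (t - w))) t := by
      have h0 := (hY _ hm).scomp t ((hasDerivAt_id t).sub_const w)
      rw [one_smul] at h0
      exact h0
    have h2 : HasDerivAt (fun t => (fun i => Y (t - w) (some i) : ι → ℂ)) (fun i => fieldB B (Y (t - w)) (some i)) t := by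
      rw [hasDerivAt_pi]
      exact fun i => (hasDerivAt_pi.1 h1) (some i)
    have h3 := h2.const_smul c⁻¹
    have e : B t (c⁻¹ • fun i => Y (t - w) (some i)) = c⁻¹ • fun i => fieldB B (Y (t - w)) (some i) := by
      rw [map_smul]
      congr 1
      funext i
      show _ = B (Y (t - w) none) (fun j => Y (t - w) (some j)) i
      rw [hfst _ hm]
      ring_nf
    show HasDerivAt (fun t => c⁻¹ • fun i => Y (t - w) (some i)) (B t (c⁻¹ • fun i => Y (t - w) (some i))) t
    rw [e]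
    exact h3

end Pool.Agent.GA

end

section

/-!
# GA HorC2: a variation field from the dual derivations

The linear differential equation `g_l' = ∑ m, (C l m / s) g_m` and `V_b = ∑ m, g_m Y m (inl b) / s`.
-/

set_option autoImplicit false

open MvPolynomial Topology Filter Metric
open Pool.Agent.GG (Ph pt)

noncomputable section

namespace Pool.Agent.GA

variable {N : ℕ} {U : Set ℂ} {OO : Subalgebra ℂ (ℂ → ℂ)}

/-- the value of a polynomial over `OO` along an analytic curve is analytic -/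
theorem horC2_analyticAt_evO {σ : Type} [Fintype σ] {w : ℂ} (hO : ∀ g ∈ OO, AnalyticAt ℂ g w) {y : ℂ → σ → ℂ} (hy : AnalyticAt ℂ y w)
    (R : MvPolynomial σ OO) : AnalyticAt ℂ (evO OO y R) w := by
  have h1 : evO OO y R = fun w => ∑ d ∈ R.support, ((R.coeff d : OO) : ℂ → ℂ) w * ∏ i, y w i ^ d i := by
    funext w
    unfold evO
    rw [eval₂_eq']
    rfl
  rw [h1]
  refine Finset.analyticAt_fun_sum _ fun d _ => ?_
  refine (hO _ (R.coeff d).2).mul ?_
  exact Finset.analyticAt_fun_prod _ fun i _ => (analyticAt_pi_iff.1 hy i).pow _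

private theorem analyticAt_pt {x : ℂ → Fin (N + 1) → ℂ} {w : ℂ} (hx : AnalyticAt ℂ x w) : AnalyticAt ℂ (fun w => pt (x w) (deriv x w)) w := by
  rw [analyticAt_pi_iff]
  rintro (b | b)
  · exact analyticAt_pi_iff.1 hx b
  · exact analyticAt_pi_iff.1 hx.deriv b

/-- the matrix `A` as a continuous linear map -/
private def mat {r : ℕ} (A : Fin (r + 1) → Fin (r + 1) → ℂ → ℂ) (w : ℂ) : (Fin (r + 1) → ℂ) →L[ℂ] (Fin (r + 1) → ℂ) :=
  ∑ l, ∑ m, A l m w • (ContinuousLinearMap.single ℂ (fun _ : Fin (r + 1) => ℂ) l).comp (ContinuousLinearMap.proj (R := ℂ) (φ := fun _ : Fin (r + 1) => ℂ) m)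

private theorem mat_apply {r : ℕ} (A : Fin (r + 1) → Fin (r + 1) → ℂ → ℂ) (w : ℂ) (u : Fin (r + 1) → ℂ) (l : Fin (r + 1)) :
    mat A w u l = ∑ m, A l m w * u m := by
  unfold mat
  simp only [sum_apply, smul_apply, ContinuousLinearMap.comp_apply, ContinuousLinearMap.proj_apply, Finset.sum_apply,
    Pi.smul_apply, smul_eq_mul]
  rw [Finset.sum_eq_single l]
  · refine Finset.sum_congr rfl fun m _ => ?_
    simp
  · intro k _ hk
    refine Finset.sum_eq_zero fun m _ => ?_
    simp [Ne.symm hk]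
  · intro h
    exact absurd (Finset.mem_univ _) h

private theorem mat_analytic {r : ℕ} {A : Fin (r + 1) → Fin (r + 1) → ℂ → ℂ} {w : ℂ} (hA : ∀ l m, AnalyticAt ℂ (A l m) w) : AnalyticAt ℂ (mat A) w := by
  unfold mat
  refine Finset.analyticAt_fun_sum _ fun l _ => Finset.analyticAt_fun_sum _ fun m _ => ?_
  exact (hA l m).smul analyticAt_const

/-- MODULE HorC2 -/
theorem exists_of_Dual (hO : IsSmallRing OO U) {x : ℂ → Fin (N + 1) → ℂ} {z₁ : ℂ} (hU : IsOpen U) (hz : z₁ ∈ U) (hx : AnalyticAt ℂ x z₁)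
    {r : ℕ} {σ : Fin (r + 1) → Ph N} {s : ℂ → ℂ} {Y : Fin (r + 1) → Ph N → ℂ → ℂ} {C : Fin (r + 1) → Fin (r + 1) → ℂ → ℂ} (h : Dual OO x z₁ r σ s Y C) :
    ∃ᶠ w₀ in 𝓝 z₁, ∃ V : ℂ → Fin (N + 1) → ℂ, AnalyticAt ℂ V w₀ ∧ V w₀ ≠ 0 ∧ RelP OO x V w₀ := by
  classical
  -- a disc on which everything is analytic
  have hs : ∀ᶠ w in 𝓝 z₁, w ≠ z₁ → s w ≠ 0 :=
    eventually_nhdsWithin_iff.1 (h.an.eventually_eq_zero_or_eventually_ne_zero.resolve_left h.ne)
  obtain ⟨ρ, hρ, hD⟩ := Metric.eventually_nhds_iff_ball.1 ((hU.eventually_mem hz).and (hx.eventually_analyticAt.and (h.an.eventually_analyticAt.and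
    ((Filter.eventually_all.2 fun m => Filter.eventually_all.2 fun i => (h.anY m i).eventually_analyticAt).and
    ((Filter.eventually_all.2 fun l => Filter.eventually_all.2 fun m => (h.anC l m).eventually_analyticAt).and
    ((Filter.eventually_all.2 fun m => Filter.eventually_all.2 fun l => h.unit m l).and
    ((Filter.eventually_all.2 fun m => Filter.eventually_all.2 fun b => h.der m b).and hs)))))))
  obtain ⟨y, hy⟩ : ∃ y : ℂ → Ph N → ℂ, y = fun w => pt (x w) (deriv x w) := ⟨_, rfl⟩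
  have hyan : ∀ w ∈ ball z₁ ρ, AnalyticAt ℂ y w := fun w hw => by
    rw [hy]
    exact analyticAt_pt (hD w hw).2.1
  have hev : ∀ R : MvPolynomial (Ph N) OO, AnalyticOnNhd ℂ (evO OO y R) (ball z₁ ρ) := fun R w hw =>
    horC2_analyticAt_evO (fun g hg => hO.an g hg w (hD w hw).1) (hyan w hw) R
  have hpre : IsPreconnected (ball z₁ ρ) := (convex_ball z₁ ρ).isPreconnected
  have hz₁ : z₁ ∈ ball z₁ ρ := mem_ball_self hρ
  -- relations and their linearisations on the disc
  have key : ∀ R : MvPolynomial (Ph N) OO, ∀ w₁ ∈ ball z₁ ρ, (∀ᶠ w in 𝓝 w₁, evO OO y R w = 0) → ∀ m, ∀ w ∈ ball z₁ ρ,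
      ∑ i, evO OO y (pderiv i R) w * Y m i w = 0 := by
    intro R w₁ hw₁ hR m
    have h1 : Set.EqOn (evO OO y R) 0 (ball z₁ ρ) := (hev R).eqOn_zero_of_preconnected_of_eventuallyEq_zero hpre hw₁ hR
    have h2 : ∀ᶠ w in 𝓝 z₁, evO OO y R w = 0 := by
      filter_upwards [isOpen_ball.mem_nhds hz₁] with w hw
      exact h1 hw
    rw [hy] at h2
    have h3 := h.rel m R h2
    rw [← hy] at h3
    have h4 : AnalyticOnNhd ℂ (fun w => ∑ i, evO OO y (pderiv i R) w * Y m i w) (ball z₁ ρ) := fun w hw =>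
      Finset.analyticAt_fun_sum _ fun i _ => (hev _ w hw).mul ((hD w hw).2.2.2.1 m i)
    exact fun w hw => h4.eqOn_zero_of_preconnected_of_eventuallyEq_zero hpre hz₁ h3 hw
  rw [frequently_iff]
  intro W hW
  -- a point near z₁, different from z₁
  have h1 : ∀ᶠ w in 𝓝[≠] z₁, w ∈ interior W ∩ ball z₁ ρ ∧ w ≠ z₁ := by
    rw [eventually_nhdsWithin_iff]
    filter_upwards [(isOpen_interior.inter isOpen_ball).mem_nhds ⟨mem_interior_iff_mem_nhds.2 hW, hz₁⟩] with w hw hne
    exact ⟨hw, hne⟩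
  obtain ⟨z₂, ⟨hz₂W, hz₂⟩, hne⟩ := h1.exists
  obtain ⟨A, hA⟩ : ∃ A : Fin (r + 1) → Fin (r + 1) → ℂ → ℂ, A = fun l m w => C l m w / s w := ⟨_, rfl⟩
  have hs2 : s z₂ ≠ 0 := (hD z₂ hz₂).2.2.2.2.2.2.2 hne
  have hAan : ∀ l m, AnalyticAt ℂ (A l m) z₂ := fun l m => by
    rw [hA]
    exact ((hD z₂ hz₂).2.2.2.2.1 l m).div (hD z₂ hz₂).2.2.1 hs2
  obtain ⟨r', hr', -, -, hsol⟩ := exists_linear (mat_analytic hAan) one_pos
  obtain ⟨g, hg0, hg⟩ := hsol z₂ (mem_ball_self hr') (Pi.single 0 1)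
  have hgan : AnalyticOnNhd ℂ g (ball z₂ r') := analyticOnNhd_of_linear isOpen_ball hg
  obtain ⟨q, hq⟩ : ∃ q : Fin (r + 1) → Ph N → ℂ → ℂ, q = fun m i w => Y m i w / s w := ⟨_, rfl⟩
  obtain ⟨V, hV⟩ : ∃ V : ℂ → Fin (N + 1) → ℂ, V = fun w b => ∑ m, g w m * q m (Sum.inl b) w := ⟨_, rfl⟩
  -- the open set
  obtain ⟨D, hDdef⟩ : ∃ D : Set ℂ, D = (interior W ∩ ball z₁ ρ) ∩ {z₁}ᶜ ∩ ball z₂ r' := ⟨_, rfl⟩
  have hDo : IsOpen D := by
    rw [hDdef]
    exact ((isOpen_interior.inter isOpen_ball).inter isOpen_compl_singleton).inter isOpen_ball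
  have hD1 : ∀ w ∈ D, w ∈ W ∧ w ∈ ball z₁ ρ ∧ w ≠ z₁ ∧ w ∈ ball z₂ r' := by
    intro w hw
    rw [hDdef] at hw
    exact ⟨interior_subset hw.1.1.1, hw.1.1.2, hw.1.2, hw.2⟩
  have hz₂D : z₂ ∈ D := by
    rw [hDdef]
    exact ⟨⟨⟨hz₂W, hz₂⟩, hne⟩, mem_ball_self hr'⟩
  have hsD : ∀ w ∈ D, s w ≠ 0 := fun w hw => (hD w (hD1 w hw).2.1).2.2.2.2.2.2.2 (hD1 w hw).2.2.1
  have hqan : ∀ w ∈ D, ∀ m i, AnalyticAt ℂ (q m i) w := fun w hw m i => by
    rw [hq]
    exact ((hD w (hD1 w hw).2.1).2.2.2.1 m i).div (hD w (hD1 w hw).2.1).2.2.1 (hsD w hw)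
  have hVan : ∀ w ∈ D, AnalyticAt ℂ V w := by
    intro w hw
    rw [hV, analyticAt_pi_iff]
    intro b
    exact Finset.analyticAt_fun_sum _ fun m _ => (analyticAt_pi_iff.1 (hgan w (hD1 w hw).2.2.2) m).mul (hqan w hw m _)
  have hform : ∀ w ∈ D, ∀ i, pt (V w) (deriv V w) i = ∑ m, g w m * q m i w := by
    rintro w hw (b | b)
    · show V w b = _
      rw [hV]
    · show deriv V w b = _
      have h2 : deriv V w b = deriv (fun w => V w b) w := by
        have h3 := hasDerivAt_pi.1 (hVan w hw).differentiableAt.hasDerivAt b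
        exact h3.deriv.symm
      rw [h2]
      have h3 : HasDerivAt (fun w => V w b) (∑ m, (mat A w (g w) m * q m (Sum.inl b) w + g w m * deriv (q m (Sum.inl b)) w)) w := by
        rw [hV]
        refine HasDerivAt.fun_sum fun m _ => ?_
        exact (hasDerivAt_pi.1 (hg w (hD1 w hw).2.2.2) m).mul (hqan w hw m _).differentiableAt.hasDerivAt
      rw [h3.deriv]
      have h4 : ∀ m, q m (Sum.inr b) w = deriv (q m (Sum.inl b)) w + ∑ l, A l m w * q l (Sum.inl b) w := by
        intro m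
        have h5 := (hD w (hD1 w hw).2.1).2.2.2.2.2.2.1 m b (hsD w hw)
        rw [hq, hA]
        exact h5
      have h6 : ∑ m, g w m * q m (Sum.inr b) w = ∑ m, g w m * deriv (q m (Sum.inl b)) w + ∑ m, ∑ l, g w m * (A l m w * q l (Sum.inl b) w) := by
        rw [← Finset.sum_add_distrib]
        refine Finset.sum_congr rfl fun m _ => ?_
        rw [h4 m, mul_add, Finset.mul_sum]
      rw [h6, Finset.sum_comm, Finset.sum_add_distrib, add_comm]
      congr 1
      refine Finset.sum_congr rfl fun m _ => ?_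
      rw [mat_apply, Finset.sum_mul]
      refine Finset.sum_congr rfl fun l _ => ?_
      ring
  -- V is not zero near z₂
  have hne0 : ∃ w ∈ D, V w ≠ 0 := by
    by_contra hcon
    push Not at hcon
    have h2 : V =ᶠ[𝓝 z₂] fun _ => 0 := by
      filter_upwards [hDo.mem_nhds hz₂D] with w hw
      exact hcon w hw
    have h3 : deriv V z₂ = 0 := by
      rw [h2.deriv_eq, deriv_const]
    have h4 := hform z₂ hz₂D (σ 0)
    have h5 : pt (V z₂) (deriv V z₂) (σ 0) = 0 := by
      rw [h3, hcon z₂ hz₂D]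
      rcases σ 0 with b | b <;> rfl
    rw [h5, hg0, Finset.sum_eq_single 0] at h4
    · have h6 : q 0 (σ 0) z₂ = 1 := by
        rw [hq]
        have h7 := (hD z₂ hz₂).2.2.2.2.2.1 0 0
        simp only [if_true] at h7
        show Y 0 (σ 0) z₂ / s z₂ = 1
        rw [h7]
        exact div_self hs2
      rw [h6] at h4
      simp at h4
    · intro m _ hm
      rw [Pi.single_eq_of_ne hm, zero_mul]
    · intro h6
      exact absurd (Finset.mem_univ _) h6
  obtain ⟨w₀, hw₀, hV0⟩ := hne0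
  refine ⟨w₀, (hD1 w₀ hw₀).1, V, hVan w₀ hw₀, hV0, ?_⟩
  intro R hR
  rw [← hy] at hR ⊢
  filter_upwards [hDo.mem_nhds hw₀] with w hw
  have h2 : ∀ m, ∑ i, evO OO y (pderiv i R) w * Y m i w = 0 := fun m => key R w₀ (hD1 w₀ hw₀).2.1 hR m w (hD1 w hw).2.1
  calc ∑ i, evO OO y (pderiv i R) w * pt (V w) (deriv V w) i = ∑ i, ∑ m, evO OO y (pderiv i R) w * (g w m * q m i w) := by
        refine Finset.sum_congr rfl fun i _ => ?_
        rw [hform w hw i, Finset.mul_sum]
    _ = ∑ m, g w m / s w * ∑ i, evO OO y (pderiv i R) w * Y m i w := by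
        rw [Finset.sum_comm]
        refine Finset.sum_congr rfl fun m _ => ?_
        rw [Finset.mul_sum]
        refine Finset.sum_congr rfl fun i _ => ?_
        rw [hq]
        have := hsD w hw
        field_simp
    _ = 0 := by
        refine Finset.sum_eq_zero fun m _ => ?_
        rw [h2 m, mul_zero]

end Pool.Agent.GA

end
end
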