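import Pool.Agent.H18.GGT.M12
import Pool.Agent.H18.GGT.M19

/-! The parts of this file: GB.Crm, GB.Ker, GB.Prd, GB.Vec. -/

section

/-!
# GB Crm: relations with constant coefficients (Cramer's rule)

PROOF.  `c i α = cdet (p ∘ update I α i) / cdet (p ∘ I)`.
-/

set_option autoImplicit false

open MvPolynomial

namespace Pool.Agent.GB

theorem exists_rel {K : Type} [Field K] [Algebra ℂ K] {d M : ℕ} {ι : Type} {e : Fin d → Derivation ℂ K K} {p : ι → MvPolynomial (Fin d) K}
    (hp : ∀ i, (p i).IsHomogeneous M) {I : Mon d M → ι} (hI : cdet (fun α => p (I α)) ≠ 0)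
    (hk : ∀ (I' : Mon d M → ι) (j : Fin d), e j (cdet (fun α => p (I' α)) / cdet (fun α => p (I α))) = 0) :
    ∃ c : ι → Mon d M → K, Rel e p I c := by
  classical
  set A : Matrix (Mon d M) (Mon d M) K := Matrix.of fun α β : Mon d M => coeff β.1 (p (I α)) with hA
  have hdet : cdet (fun α => p (I α)) = A.det := by
    unfold cdet
    rw [hA]
  have hupd : ∀ (i : ι) (α : Mon d M), cdet (fun α' => p (Function.update I α i α')) =
      (A.updateRow α fun β => coeff β.1 (p i)).det := by
    intro i α
    unfold cdet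
    congr 1
    ext α' β
    rw [Matrix.updateRow_apply, Matrix.of_apply]
    show coeff β.1 (p (Function.update I α i α')) = _
    rw [Function.update_apply]
    split_ifs with h
    · rfl
    · rw [hA, Matrix.of_apply]
  refine ⟨fun i α => cdet (fun α' => p (Function.update I α i α')) / cdet (fun α => p (I α)), hp, hI, fun i => ?_, fun i α j => hk _ j⟩
  ext m
  rw [coeff_sum]
  simp only [coeff_C_mul]
  by_cases hm : m ∈ (Finset.univ : Finset (Fin d)).finsuppAntidiag M
  · -- Cramer's rule
    have hc := congrFun (Matrix.mulVec_cramer A.transpose fun β : Mon d M => coeff β.1 (p i)) ⟨m, hm⟩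
    rw [Matrix.mulVec, dotProduct, Matrix.det_transpose, Pi.smul_apply, smul_eq_mul] at hc
    have hd : A.det ≠ 0 := hdet ▸ hI
    apply mul_left_cancel₀ hd
    rw [← hc, Finset.mul_sum]
    refine Finset.sum_congr rfl fun α _ => ?_
    have hAα : A.transpose ⟨m, hm⟩ α = coeff m (p (I α)) := by rw [Matrix.transpose_apply, hA, Matrix.of_apply]
    rw [Matrix.cramer_transpose_apply, ← hupd, hdet, hAα]
    field_simp
  · have hdeg : m.degree ≠ M := by
      intro h
      apply hm
      rw [Finset.mem_finsuppAntidiag]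
      exact ⟨by rw [← h, Finsupp.degree_eq_sum], Finset.subset_univ _⟩
    rw [(hp i).coeff_eq_zero hdeg]
    symm
    refine Finset.sum_eq_zero fun α _ => ?_
    rw [(hp (I α)).coeff_eq_zero hdeg, mul_zero]

end Pool.Agent.GB

end

section

/-!
# GB Ker: derivations which kill given functions

PROOF.  Extend `φ` by `d` elements to a transcendence basis of `K` over `ℂ` (of cardinality `k`); `H23.exists_basis_kaehler` gives a basis of the
differentials, `h` and `e` are the dual derivations (`H23.dualDer`).  `vol`: the matrix of the derivatives of `z` with respect to this transcendence basis,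
invertible because the `dz_j` are a basis, too.
-/

set_option autoImplicit false

open MvPolynomial
open Pool.Agent.H23 (dualDer)

namespace Pool.Agent.GB

variable {K : Type} [Field K] [Algebra ℂ K]

/-- Algebraically independent functions are a part of a transcendence basis. -/
private theorem exists_extend {σ : Type} {φ : σ → K} (hφ : AlgebraicIndependent ℂ φ) :
    ∃ (τ : Type) (ψ : τ → K), IsTranscendenceBasis ℂ (Sum.elim ψ φ) := by
  obtain ⟨t, ht, hb⟩ := exists_isTranscendenceBasis_superset hφ.to_subtype_range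
  refine ⟨↥(t \ Set.range φ), Subtype.val, ?_⟩
  have hinj : Function.Injective (Sum.elim (Subtype.val : ↥(t \ Set.range φ) → K) φ) := by
    refine Subtype.val_injective.sumElim hφ.injective ?_
    intro a b hab
    exact a.2.2 ⟨b, hab.symm⟩
  have hr : Set.range (Sum.elim (Subtype.val : ↥(t \ Set.range φ) → K) φ) = t := by
    rw [Set.Sum.elim_range, Subtype.range_coe, Set.sdiff_union_of_subset ht]
  refine IsTranscendenceBasis.of_subtype_range hinj ?_
  rw [hr]
  exact hb

theorem linearIndependent_D {κ : ℕ} {φ : Fin κ → K} (hφ : AlgebraicIndependent ℂ φ) :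
    LinearIndependent K fun i => KaehlerDifferential.D ℂ K (φ i) := by
  obtain ⟨τ, ψ, hg⟩ := exists_extend hφ
  obtain ⟨b, hb⟩ := Pool.Agent.H23.exists_basis_kaehler hg
  have h1 := b.linearIndependent.comp (Sum.inr : Fin κ → τ ⊕ Fin κ) Sum.inr_injective
  have h2 : (fun i : Fin κ => KaehlerDifferential.D ℂ K (φ i)) = b ∘ (Sum.inr : Fin κ → τ ⊕ Fin κ) := by
    funext i
    rw [Function.comp_apply, hb, Sum.elim_inr]
  rw [h2]
  exact h1

theorem exists_frame_ker {k d κ : ℕ} (hk : d + κ = k) {z : Fin k → K} (hz : IsTranscendenceBasis ℂ z) {φ : Fin κ → K} (hφ : AlgebraicIndependent ℂ φ) :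
    ∃ (e : Fin d → Derivation ℂ K K) (h : Fin κ → Derivation ℂ K K), (∀ j i, e j (φ i) = 0) ∧ ∀ ε : Fin d ⊕ Fin κ ≃ Fin k, vol z ε e h ≠ 0 := by
  classical
  obtain ⟨τ, ψ, hg⟩ := exists_extend hφ
  have hc : Cardinal.mk (τ ⊕ Fin κ) = Cardinal.mk (Fin k) := hg.cardinalMk_eq hz
  obtain ⟨ε0⟩ := Cardinal.eq.1 hc
  have : Finite (τ ⊕ Fin κ) := Finite.of_equiv _ ε0.symm
  have : Finite τ := Finite.of_injective (Sum.inl : τ → τ ⊕ Fin κ) Sum.inl_injective
  let _ : Fintype τ := Fintype.ofFinite τ
  have h1 : Fintype.card τ = d := by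
    have h2 : Fintype.card (τ ⊕ Fin κ) = Fintype.card (Fin k) := Fintype.card_congr ε0
    rw [Fintype.card_sum, Fintype.card_fin, Fintype.card_fin] at h2
    omega
  let η : Fin d ≃ τ := (finCongr h1.symm).trans (Fintype.equivFin τ).symm
  let θ : Fin d ⊕ Fin κ ≃ τ ⊕ Fin κ := Equiv.sumCongr η (Equiv.refl _)
  obtain ⟨b0, hb0⟩ := Pool.Agent.H23.exists_basis_kaehler hg
  let b := b0.reindex θ.symm
  let a : Fin d ⊕ Fin κ → K := fun r => Sum.elim ψ φ (θ r)
  have hb : ∀ r, b r = KaehlerDifferential.D ℂ K (a r) := by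
    intro r
    rw [Module.Basis.reindex_apply, Equiv.symm_symm, hb0]
  refine ⟨fun j => dualDer b (Sum.inl j), fun i => dualDer b (Sum.inr i), fun j i => ?_, fun ε => ?_⟩
  · have h3 : φ i = a (Sum.inr i) := rfl
    rw [h3, Pool.Agent.H23.dualDer_coord b hb, if_neg (by simp)]
  · obtain ⟨bz, hbz⟩ := Pool.Agent.H23.exists_basis_kaehler hz
    have h4 : (Matrix.of fun r s : Fin d ⊕ Fin κ =>
        (Sum.elim (fun j => dualDer b (Sum.inl j)) (fun i => dualDer b (Sum.inr i)) r) (z (ε s))) =
        b.toMatrix (bz.reindex ε.symm) := by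
      ext r s
      rw [Matrix.of_apply, Module.Basis.toMatrix_apply, Module.Basis.reindex_apply, Equiv.symm_symm, hbz]
      rcases r with r | r
      · rfl
      · rfl
    unfold vol
    rw [h4]
    intro h5
    have h6 := (Module.Basis.toMatrix_mul_toMatrix_flip b (bz.reindex ε.symm))
    have h7 := congrArg Matrix.det h6
    rw [Matrix.det_mul, h5, zero_mul, Matrix.det_one] at h7
    exact zero_ne_one h7

end Pool.Agent.GB

end

section

/-!
# GB Prd: products

PROOF.  The coefficients of a product are sums of products of coefficients.  `exists_prd_index`: the `p (I α)` span the polynomials of degree `M`, so the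
products span those of degree `M + M` (a monomial of degree `M + M` is a product of two monomials of degree `M`); choose a basis among them.
-/

set_option autoImplicit false

open MvPolynomial

namespace Pool.Agent.GB

theorem exists_prdFam {K : Type} [Field K] [Algebra ℂ K] {k d M : ℕ} {ι : Type} (Ψ : SymFam K k d M ι) :
    ∃ Ψ₂ : SymFam K k d (M + M) (ι × ι), ∀ i e, Ψ₂.fn i e = Ψ.fn i.1 e * Ψ.fn i.2 e := by
  refine ⟨⟨fun i e => Ψ.fn i.1 e * Ψ.fn i.2 e, fun i e => (Ψ.hom i.1 e).mul (Ψ.hom i.2 e), fun i e g => ?_, fun i e E he α => ?_⟩, fun i e => rfl⟩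
  · rw [Ψ.subst, Ψ.subst, map_mul]
  · rw [coeff_mul]
    have h : ∀ s : Finset ((Fin d →₀ ℕ) × (Fin d →₀ ℕ)), 0 ≤ E.ord (∑ x ∈ s, coeff x.1 (Ψ.fn i.1 e) * coeff x.2 (Ψ.fn i.2 e)) := by
      intro s
      induction s using Finset.cons_induction with
      | empty => simp
      | cons a s ha ih =>
        rw [Finset.sum_cons]
        refine le_trans (le_min ?_ ih) (E.ord.map_add _ _)
        rw [AddValuation.map_mul]
        exact add_nonneg (Ψ.reg i.1 e E he _) (Ψ.reg i.2 e E he _)
    exact h _

section

variable {F : Type} [Field F] {d M : ℕ} {ι : Type}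

/-- the vector of the coefficients -/
private noncomputable def prd_cv (F : Type) [Field F] (d M : ℕ) : MvPolynomial (Fin d) F →ₗ[F] (Mon d M → F) :=
  LinearMap.pi fun β => lcoeff F β.1

private theorem prd_cv_apply (q : MvPolynomial (Fin d) F) (β : Mon d M) : prd_cv F d M q β = coeff β.1 q := rfl

private theorem prd_mem {α : Fin d →₀ ℕ} : α ∈ (Finset.univ : Finset (Fin d)).finsuppAntidiag M ↔ ∑ i, α i = M := by
  rw [Finset.mem_finsuppAntidiag]
  simp

private theorem prd_inj {q q' : MvPolynomial (Fin d) F} (hq : q.IsHomogeneous M) (hq' : q'.IsHomogeneous M) (h : prd_cv F d M q = prd_cv F d M q') :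
    q = q' := by
  ext α
  by_cases hα : ∑ i, α i = M
  · exact congrFun h ⟨α, prd_mem.2 hα⟩
  · have hdeg : α.degree ≠ M := by
      rw [Finsupp.degree_eq_sum]
      exact hα
    rw [hq.coeff_eq_zero hdeg, hq'.coeff_eq_zero hdeg]

private theorem prd_li {p : Mon d M → MvPolynomial (Fin d) F} : cdet p ≠ 0 ↔ LinearIndependent F fun α => prd_cv F d M (p α) := by
  classical
  have h := Matrix.linearIndependent_rows_iff_isUnit (A := (Matrix.of fun α β : Mon d M => coeff β.1 (p α)))
  rw [Matrix.isUnit_iff_isUnit_det, isUnit_iff_ne_zero] at h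
  have e : cdet p = (Matrix.of fun α β : Mon d M => coeff β.1 (p α)).det := by
    unfold cdet
    congr 1
  rw [e, ← h]
  rfl

theorem linearIndependent_of_cdet {p : Mon d M → MvPolynomial (Fin d) F} (h : cdet p ≠ 0) : LinearIndependent F p :=
  LinearIndependent.of_comp (prd_cv F d M) (prd_li.1 h)

/-- a family which spans the homogeneous polynomials of degree `M` contains a basis -/
theorem exists_index_of_span {p : ι → MvPolynomial (Fin d) F} (hp : ∀ i, (p i).IsHomogeneous M)
    (hs : ∀ q : MvPolynomial (Fin d) F, q.IsHomogeneous M → q ∈ Submodule.span F (Set.range p)) :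
    ∃ I : Mon d M → ι, cdet (fun α => p (I α)) ≠ 0 := by
  classical
  have htop : Submodule.span F (Set.range fun i => prd_cv F d M (p i)) = ⊤ := by
    rw [eq_top_iff]
    intro w _
    set q : MvPolynomial (Fin d) F := ∑ β : Mon d M, monomial β.1 (w β) with hq
    have hqh : q.IsHomogeneous M := by
      refine IsHomogeneous.sum _ _ _ fun β _ => isHomogeneous_monomial _ ?_
      rw [Finsupp.degree_eq_sum]
      exact prd_mem.1 β.2
    have hqw : prd_cv F d M q = w := by
      funext β
      rw [prd_cv_apply, hq, coeff_sum]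
      simp only [coeff_monomial]
      rw [Finset.sum_eq_single β]
      · rw [if_pos rfl]
      · intro γ _ hγ
        rw [if_neg fun h => hγ (Subtype.ext h)]
      · intro h
        exact absurd (Finset.mem_univ _) h
    have h1 := Submodule.mem_map_of_mem (f := prd_cv F d M) (hs q hqh)
    rw [hqw, Submodule.map_span, ← Set.range_comp] at h1
    exact h1
  obtain ⟨b, hb, hspan, hli⟩ := exists_linearIndependent F (Set.range fun i => prd_cv F d M (p i))
  rw [htop] at hspan
  let B : Module.Basis b F (Mon d M → F) := Module.Basis.mk hli (by rw [Subtype.range_coe, hspan])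
  let B₀ : Module.Basis (Mon d M) F (Mon d M → F) := Pi.basisFun F (Mon d M)
  let e : Mon d M ≃ b := B₀.indexEquiv B
  choose I hI using fun α : Mon d M => hb (e α).2
  refine ⟨I, prd_li.2 ?_⟩
  have h2 : (fun α => prd_cv F d M (p (I α))) = fun α => ((e α : b) : Mon d M → F) := funext fun α => hI α
  rw [h2]
  exact hli.comp e e.injective

theorem span_of_index {p : ι → MvPolynomial (Fin d) F} (hp : ∀ i, (p i).IsHomogeneous M)
    {I : Mon d M → ι} (hI : cdet (fun α => p (I α)) ≠ 0) {q : MvPolynomial (Fin d) F} (hq : q.IsHomogeneous M) :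
    q ∈ Submodule.span F (Set.range p) := by
  classical
  have hli := prd_li.1 hI
  have hcard : Fintype.card (Mon d M) = Module.finrank F (Mon d M → F) := by rw [Module.finrank_pi]
  have htop := hli.span_eq_top_of_card_eq_finrank' hcard
  have hw : prd_cv F d M q ∈ Submodule.span F (Set.range fun α => prd_cv F d M (p (I α))) := by
    rw [htop]
    trivial
  obtain ⟨c, hc⟩ := (Submodule.mem_span_range_iff_exists_fun F).1 hw
  have h1 : q = ∑ α, c α • p (I α) := by
    refine prd_inj (M := M) hq ?_ ?_
    · exact IsHomogeneous.sum _ _ _ fun α _ => by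
        rw [smul_eq_C_mul]
        simpa using (isHomogeneous_C (Fin d) (c α)).mul (hp (I α))
    · rw [map_sum, ← hc]
      exact Finset.sum_congr rfl fun α _ => by rw [map_smul]
  rw [h1]
  exact Submodule.sum_mem _ fun α _ => Submodule.smul_mem _ _ (Submodule.subset_span ⟨I α, rfl⟩)

private theorem prd_split (n : ℕ) : ∀ β : Fin d →₀ ℕ, n ≤ ∑ i, β i → ∃ β₁ β₂ : Fin d →₀ ℕ, β = β₁ + β₂ ∧ ∑ i, β₁ i = n := by
  classical
  induction n with
  | zero => intro β _; exact ⟨0, β, by simp, by simp⟩
  | succ n ih =>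
    intro β hβ
    obtain ⟨β₁, β₂, h1, h2⟩ := ih β (by omega)
    have h3 : ∑ i, β₂ i ≠ 0 := by
      intro h0
      rw [h1] at hβ
      simp only [Finsupp.add_apply, Finset.sum_add_distrib] at hβ
      omega
    obtain ⟨i, -, hi⟩ := Finset.exists_ne_zero_of_sum_ne_zero h3
    refine ⟨β₁ + Finsupp.single i 1, β₂ - Finsupp.single i 1, ?_, ?_⟩
    · have hle : Finsupp.single i 1 ≤ β₂ := by
        rw [Finsupp.single_le_iff]
        omega
      rw [h1, add_assoc, add_tsub_cancel_of_le hle]
    · simp only [Finsupp.add_apply, Finset.sum_add_distrib, h2]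
      congr 1
      rw [Finset.sum_eq_single i]
      · simp
      · intro j _ hj
        simp [Finsupp.single_apply, hj.symm]
      · simp

theorem exists_prd_index {p : ι → MvPolynomial (Fin d) F} (hp : ∀ i, (p i).IsHomogeneous M)
    {I : Mon d M → ι} (hI : cdet (fun α => p (I α)) ≠ 0) : ∃ I₂ : Mon d (M + M) → ι × ι, cdet (fun α => p (I₂ α).1 * p (I₂ α).2) ≠ 0 := by
  classical
  refine exists_index_of_span (p := fun i : ι × ι => p i.1 * p i.2) (fun i => (hp i.1).mul (hp i.2)) fun q hq => ?_
  have hmul : Submodule.span F (Set.range p) * Submodule.span F (Set.range p) ≤ Submodule.span F (Set.range fun i : ι × ι => p i.1 * p i.2) := by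
    rw [Submodule.span_mul_span]
    refine Submodule.span_mono ?_
    rintro _ ⟨_, ⟨i, rfl⟩, _, ⟨j, rfl⟩, rfl⟩
    exact ⟨(i, j), rfl⟩
  rw [q.as_sum]
  refine Submodule.sum_mem _ fun β hβ => ?_
  have hdeg : ∑ i, β i = M + M := by
    have := hq (mem_support_iff.1 hβ)
    rw [Finsupp.weight_apply] at this
    simpa [Finsupp.sum_fintype] using this
  obtain ⟨β₁, β₂, h1, h2⟩ := prd_split M β (by omega)
  have h3 : ∑ i, β₂ i = M := by
    rw [h1] at hdeg
    simp only [Finsupp.add_apply, Finset.sum_add_distrib] at hdeg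
    omega
  have h4 : ∀ γ : Fin d →₀ ℕ, ∑ i, γ i = M → ∀ c : F, monomial γ c ∈ Submodule.span F (Set.range p) := fun γ hγ c =>
    span_of_index hp hI (isHomogeneous_monomial _ (by rw [Finsupp.degree_eq_sum]; exact hγ))
  have h5 : monomial β (coeff β q) = monomial β₁ (coeff β q) * monomial β₂ 1 := by
    rw [monomial_mul, mul_one, ← h1]
  rw [h5]
  exact hmul (Submodule.mul_mem_mul (h4 β₁ h2 _) (h4 β₂ h3 _))

end

end Pool.Agent.GB

end

section

/-!
# GB Vec: the derivative of the coefficients is a derivative in the direction of a vector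

PROOF.  Let `δ` be the `K`-linear map from the polynomials of degree `M` to `F` with `δ (p (I α)) = D (p (I α) (t))`.  By `Rel` (`D` kills `c`) `δ (p i) = D (p i (t))` for all `i`.  In the same
way `δ₂` on the polynomials of degree `M + M`, and `δ₂ (p_i p_j) = p_i (t) δ (p_j) + p_j (t) δ (p_i)`, so by bilinearity `δ₂ (p q) = p (t) δ (q) + q (t) δ (p)` for all `p`, `q` of degree `M`.
For monomials: `l (α) = δ (X^α) / t^α` satisfies the hypothesis of `Cmb.exists_mu`; `w_l = t_l μ_l`.
-/

set_option autoImplicit false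

open MvPolynomial

namespace Pool.Agent.GB

section

variable {K F : Type} [Field K] [Algebra ℂ K] [Field F] [Algebra ℂ F] [Algebra K F] [IsScalarTower ℂ K F] {d M : ℕ} {ι : Type}

omit [IsScalarTower ℂ K F] in
/-- the linear map `δ` -/
private theorem vec_delta {t : Fin d → F} {e : Fin d → Derivation ℂ K K} {p : ι → MvPolynomial (Fin d) K} {I : Mon d M → ι} {c : ι → Mon d M → K}
    (h₁ : Rel e p I c) (j₀ : Fin d) {D : Derivation ℂ F F} (hD : ∀ f, D (algebraMap K F f) = algebraMap K F (e j₀ f)) :
    ∃ δ : MvPolynomial (Fin d) K →ₗ[K] F, ∀ i, δ (p i) = D (aeval t (p i)) := by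
  classical
  have hli := linearIndependent_of_cdet h₁.ne
  obtain ⟨δ, hδ⟩ := LinearMap.exists_extend ((Module.Basis.span hli).constr K fun α => D (aeval t (p (I α))))
  have h1 : ∀ α, δ (p (I α)) = D (aeval t (p (I α))) := by
    intro α
    have h2 := LinearMap.congr_fun hδ (Module.Basis.span hli α)
    rw [Module.Basis.constr_basis] at h2
    rw [← h2, LinearMap.comp_apply]
    congr 1
    rw [Module.Basis.span_apply hli α]
    rfl
  refine ⟨δ, fun i => ?_⟩
  have h3 : D (aeval t (p i)) = ∑ α, algebraMap K F (c i α) * D (aeval t (p (I α))) := by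
    conv_lhs => rw [h₁.eq i]
    rw [map_sum, map_sum]
    refine Finset.sum_congr rfl fun α _ => ?_
    rw [map_mul, aeval_C, Derivation.leibniz, hD, h₁.ker, map_zero, smul_zero, add_zero, smul_eq_mul]
  have h4 : δ (p i) = ∑ α, algebraMap K F (c i α) * δ (p (I α)) := by
    conv_lhs => rw [h₁.eq i]
    rw [map_sum]
    refine Finset.sum_congr rfl fun α _ => ?_
    rw [← smul_eq_C_mul, map_smul, Algebra.smul_def]
  rw [h3, h4]
  exact Finset.sum_congr rfl fun α _ => by rw [h1]

theorem exists_W (hM : 1 ≤ M)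
    {t : Fin d → F} (ht : ∀ j, t j ≠ 0) {e : Fin d → Derivation ℂ K K} {p : ι → MvPolynomial (Fin d) K} {I : Mon d M → ι} {c : ι → Mon d M → K}
    (h₁ : Rel e p I c) {I₂ : Mon d (M + M) → ι × ι} {c₂ : ι × ι → Mon d (M + M) → K} (h₂ : Rel e (fun q : ι × ι => p q.1 * p q.2) I₂ c₂)
    (j₀ : Fin d) {D : Derivation ℂ F F} (hD : ∀ f, D (algebraMap K F f) = algebraMap K F (e j₀ f)) (hDt : ∀ j, D (t j) = 0) :
    ∃ w : Fin d → F, ∀ i, D (aeval t (p i)) = ∑ l, w l * aeval t (pderiv l (p i)) := by
  classical
  obtain ⟨δ, hδ⟩ := vec_delta (t := t) h₁ j₀ hD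
  obtain ⟨δ₂, hδ₂⟩ := vec_delta (t := t) h₂ j₀ hD
  have hc0 : CharZero F := charZero_of_injective_algebraMap (algebraMap ℂ F).injective
  -- the product rule
  have hb : ∀ i j, δ₂ (p i * p j) = aeval t (p i) * δ (p j) + aeval t (p j) * δ (p i) := by
    intro i j
    rw [hδ₂ (i, j), map_mul, Derivation.leibniz, hδ, hδ, smul_eq_mul, smul_eq_mul]
  have hb1 : ∀ i q, q ∈ Submodule.span K (Set.range p) → δ₂ (p i * q) = aeval t (p i) * δ q + aeval t q * δ (p i) := by
    intro i q hq
    induction hq using Submodule.span_induction with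
    | mem x hx =>
      obtain ⟨j, rfl⟩ := hx
      exact hb i j
    | zero => simp
    | add x y _ _ hx hy =>
      rw [mul_add, map_add, hx, hy, map_add, map_add]
      ring
    | smul a x _ hx =>
      rw [mul_smul_comm, map_smul, hx, map_smul, map_smul, Algebra.smul_def, Algebra.smul_def, Algebra.smul_def]
      ring
  have hb2 : ∀ q q', q ∈ Submodule.span K (Set.range p) → q' ∈ Submodule.span K (Set.range p) →
      δ₂ (q * q') = aeval t q * δ q' + aeval t q' * δ q := by
    intro q q' hq hq'
    induction hq using Submodule.span_induction with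
    | mem x hx =>
      obtain ⟨j, rfl⟩ := hx
      exact hb1 j q' hq'
    | zero => simp
    | add x y _ _ hx hy =>
      rw [add_mul, map_add, hx, hy, map_add, map_add]
      ring
    | smul a x _ hx =>
      rw [smul_mul_assoc, map_smul, hx, map_smul, map_smul, Algebra.smul_def, Algebra.smul_def, Algebra.smul_def]
      ring
  -- the monomials
  have hmono : ∀ α : Fin d →₀ ℕ, α.degree = M → (monomial α (1 : K)) ∈ Submodule.span K (Set.range p) := fun α hα =>
    span_of_index h₁.hom h₁.ne (isHomogeneous_monomial _ hα)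
  have hev : ∀ α : Fin d →₀ ℕ, aeval t (monomial α (1 : K)) = ∏ j, t j ^ α j := by
    intro α
    rw [aeval_monomial, map_one, one_mul, Finsupp.prod_fintype _ _ fun _ => pow_zero _]
  have hne : ∀ α : Fin d →₀ ℕ, (∏ j, t j ^ α j) ≠ 0 := fun α => Finset.prod_ne_zero_iff.2 fun j _ => pow_ne_zero _ (ht j)
  set l : (Fin d →₀ ℕ) → F := fun α => δ (monomial α 1) / ∏ j, t j ^ α j with hl
  have hsum : ∀ α β : Fin d →₀ ℕ, α.degree = M → β.degree = M → l α + l β = δ₂ (monomial (α + β) 1) / ∏ j, t j ^ (α + β) j := by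
    intro α β hα hβ
    have h5 := hb2 _ _ (hmono α hα) (hmono β hβ)
    rw [monomial_mul, mul_one, hev, hev] at h5
    have h6 : (∏ j, t j ^ (α + β) j) = (∏ j, t j ^ α j) * ∏ j, t j ^ β j := by
      rw [← Finset.prod_mul_distrib]
      exact Finset.prod_congr rfl fun j _ => by rw [Finsupp.add_apply, pow_add]
    rw [h5, h6, hl]
    have h7 := hne α
    have h8 := hne β
    field_simp
    ring
  obtain ⟨μ, hμ⟩ := exists_mu (l := l) hM fun α β α' β' hα hβ hα' hβ' h => by rw [hsum α β hα hβ, hsum α' β' hα' hβ', h]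
  refine ⟨fun j => t j * μ j, fun i => ?_⟩
  -- the formula for monomials
  have hm : ∀ α : Fin d →₀ ℕ, α.degree = M → δ (monomial α 1) = ∑ j, t j * μ j * aeval t (pderiv j (monomial α (1 : K))) := by
    intro α hα
    have h9 : δ (monomial α 1) = (∏ j, t j ^ α j) * l α := by
      rw [hl]
      field_simp [hne α]
    rw [h9, hμ α hα, Finset.mul_sum]
    refine Finset.sum_congr rfl fun j _ => ?_
    rw [pderiv_monomial, one_mul]
    rcases Nat.eq_zero_or_pos (α j) with h0 | h0
    · rw [h0]
      simp
    · rw [aeval_monomial, map_natCast, Finsupp.prod_fintype _ _ fun _ => pow_zero _]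
      have h10 : (∏ k, t k ^ α k) = t j * ∏ k, t k ^ (α - Finsupp.single j 1 : Fin d →₀ ℕ) k := by
        rw [← Finset.mul_prod_erase Finset.univ _ (Finset.mem_univ j), ← Finset.mul_prod_erase Finset.univ (fun k => t k ^ (α - Finsupp.single j 1 : Fin d →₀ ℕ) k) (Finset.mem_univ j),
          ← mul_assoc]
        congr 1
        · simp only [Finsupp.coe_tsub, Pi.sub_apply, Finsupp.single_eq_same]
          rw [← pow_succ']
          congr 1
          omega
        · refine Finset.prod_congr rfl fun k hk => ?_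
          have hkj : k ≠ j := Finset.ne_of_mem_erase hk
          simp [Finsupp.single_apply, hkj.symm]
      rw [h10]
      ring
  have hfin : ∀ q : MvPolynomial (Fin d) K, q.IsHomogeneous M → δ q = ∑ j, t j * μ j * aeval t (pderiv j q) := by
    intro q hq
    have h11 : ∀ α ∈ q.support, δ (monomial α (coeff α q)) = ∑ j, t j * μ j * aeval t (pderiv j (monomial α (coeff α q))) := by
      intro α hα
      have hdeg : α.degree = M := by
        have := hq (mem_support_iff.1 hα)
        rw [Finsupp.weight_apply] at this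
        rw [Finsupp.degree_eq_sum]
        simpa [Finsupp.sum_fintype] using this
      have h12 : monomial α (coeff α q) = coeff α q • monomial α (1 : K) := by
        rw [smul_monomial, smul_eq_mul, mul_one]
      rw [h12, map_smul, hm α hdeg, Finset.smul_sum]
      refine Finset.sum_congr rfl fun j _ => ?_
      rw [Derivation.map_smul, map_smul, Algebra.smul_def, Algebra.smul_def]
      ring
    conv_lhs => rw [q.as_sum]
    rw [map_sum, Finset.sum_congr rfl h11, Finset.sum_comm]
    refine Finset.sum_congr rfl fun j _ => ?_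
    rw [← Finset.mul_sum]
    congr 1
    conv_rhs => rw [q.as_sum]
    rw [map_sum, map_sum]
  rw [← hδ i]
  exact hfin _ (h₁.hom i)

end

end Pool.Agent.GB

end
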