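import Pool.Agent.H18.GGT.M12

/-! The parts of this file: GA.AlgD, GB.Inv. -/

section

/-!
# GA AlgD: dual derivations

`K ⊆ M` fields of characteristic `0`, `d` a derivation of `M` with `d K ⊆ K`.  A maximal algebraically independent subfamily `y (σ l)` of the family `y` has dual
derivations `D m` of `M` over `K`; `D m ∘ d - d ∘ D m - ∑ l, C l m • D l` with `C l m = D m (d (y (σ l)))` is a derivation over `K` which vanishes at `y (σ l)`, so at
all elements which are algebraic over `K (y (σ l))`.
-/

set_option autoImplicit false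

open MvPolynomial Topology Filter Metric TensorProduct
open Pool.Agent.GG (Ph)

namespace Pool.Agent.GA

namespace AlgD

/-- derivations of `M` over a subfield with prescribed values on an algebraically independent family -/
theorem exists_derivation {K M : Type*} [Field K] [Field M] [CharZero K] [Algebra K M] {ι : Type*} {a : ι → M} (ha : AlgebraicIndependent K a) (v : ι → M) :
    ∃ D : Derivation K M M, ∀ i, D (a i) = v i := by
  classical
  obtain ⟨s, hs, hB⟩ := exists_isTranscendenceBasis_superset (R := K) (A := M) (s := Set.range a)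
    ((algebraicIndependent_subtype_range ha.injective).2 ha)
  let φ : MvPolynomial s K →ₐ[K] M := MvPolynomial.aeval ((↑) : s → M)
  let : Algebra (MvPolynomial s K) M := φ.toRingHom.toAlgebra
  have hφ : ∀ p : MvPolynomial s K, algebraMap (MvPolynomial s K) M p = φ p := fun p => rfl
  have : IsScalarTower K (MvPolynomial s K) M := IsScalarTower.of_algebraMap_eq fun q => by
    rw [hφ, AlgHom.commutes]
  have hinj : Function.Injective (algebraMap (MvPolynomial s K) M) := hB.1
  have : FaithfulSMul (MvPolynomial s K) M := (faithfulSMul_iff_algebraMap_injective _ _).2 hinj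
  let : Algebra (FractionRing (MvPolynomial s K)) M := FractionRing.liftAlgebra (MvPolynomial s K) M
  have : IsScalarTower (MvPolynomial s K) (FractionRing (MvPolynomial s K)) M :=
    FractionRing.isScalarTower_liftAlgebra (MvPolynomial s K) M
  have : Algebra.IsAlgebraic (MvPolynomial s K) M := by
    have h1 := hB.isAlgebraic
    refine ⟨fun z => ?_⟩
    have h2 := h1.isAlgebraic z
    refine h2.of_ringHom_of_comp_eq (hB.1.aevalEquiv : MvPolynomial s K →+* _) (RingHom.id M) ?_ ?_ ?_
    · exact hB.1.aevalEquiv.surjective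
    · exact Function.injective_id
    · ext p <;> simp [hφ, φ]
  have : Algebra.IsAlgebraic (FractionRing (MvPolynomial s K)) M :=
    (IsFractionRing.comap_isAlgebraic_iff (A := MvPolynomial s K) (K := FractionRing (MvPolynomial s K)) (C := M)).1 inferInstance
  have : CharZero (FractionRing (MvPolynomial s K)) :=
    charZero_of_injective_algebraMap (algebraMap K (FractionRing (MvPolynomial s K))).injective
  have : Algebra.FormallyEtale (FractionRing (MvPolynomial s K)) M := Algebra.FormallyEtale.of_isSeparable _ _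
  have : Algebra.FormallyEtale (MvPolynomial s K) (FractionRing (MvPolynomial s K)) :=
    Algebra.FormallyEtale.of_isLocalization (nonZeroDivisors (MvPolynomial s K))
  have : Algebra.FormallyEtale (MvPolynomial s K) M := Algebra.FormallyEtale.comp _ (FractionRing (MvPolynomial s K)) _
  -- the derivation of the polynomials with values in `M`
  let w : s → M := fun b => if h : ∃ i, a i = b then v h.choose else 0
  let δ : Derivation K (MvPolynomial s K) M := MvPolynomial.mkDerivation K w
  let l : Ω[MvPolynomial s K⁄K] →ₗ[MvPolynomial s K] M := δ.liftKaehlerDifferential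
  let e := KaehlerDifferential.tensorKaehlerEquivOfFormallyEtale K (MvPolynomial s K) M
  let l' : Ω[M⁄K] →ₗ[M] M := (l.liftBaseChange M).comp e.symm.toLinearMap
  refine ⟨l'.compDer (KaehlerDifferential.D K M), fun i => ?_⟩
  have hi : a i = algebraMap (MvPolynomial s K) M (MvPolynomial.X ⟨a i, hs ⟨i, rfl⟩⟩) := by
    rw [hφ]
    simp [φ]
  rw [hi]
  change l.liftBaseChange M (e.symm (KaehlerDifferential.D K M (algebraMap (MvPolynomial s K) M (MvPolynomial.X ⟨a i, hs ⟨i, rfl⟩⟩)))) = _
  rw [KaehlerDifferential.tensorKaehlerEquivOfFormallyEtale_symm_D_algebraMap, LinearMap.liftBaseChange_tmul, one_smul]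
  change δ.liftKaehlerDifferential (KaehlerDifferential.D K (MvPolynomial s K) (MvPolynomial.X ⟨a i, hs ⟨i, rfl⟩⟩)) = _
  rw [Derivation.liftKaehlerDifferential_comp_D, MvPolynomial.mkDerivation_X]
  have h1 : ∃ j, a j = a i := ⟨i, rfl⟩
  change w ⟨a i, _⟩ = v i
  have h2 : w ⟨a i, hs ⟨i, rfl⟩⟩ = v h1.choose := dif_pos h1
  rw [h2, ha.injective h1.choose_spec]

/-- the subfield of the constants of a derivation -/
def cst {M : Type*} [Field M] (E : Derivation ℤ M M) : Subfield M where
  carrier := {x | E x = 0}
  mul_mem' := by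
    intro a b ha hb
    simp only [Set.mem_ofPred_eq] at ha hb ⊢
    rw [E.leibniz, ha, hb, smul_zero, smul_zero, add_zero]
  one_mem' := E.map_one_eq_zero
  add_mem' := by
    intro a b ha hb
    simp only [Set.mem_ofPred_eq] at ha hb ⊢
    rw [map_add, ha, hb, add_zero]
  zero_mem' := map_zero E
  neg_mem' := by
    intro a ha
    simp only [Set.mem_ofPred_eq] at ha ⊢
    rw [map_neg, ha, neg_zero]
  inv_mem' := by
    intro a ha
    simp only [Set.mem_ofPred_eq] at ha ⊢
    rw [E.leibniz_inv, ha, smul_zero]

/-- a derivation kills the elements which are algebraic over its constants -/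
theorem eq_zero_of_isAlgebraic {M : Type*} [Field M] [CharZero M] (E : Derivation ℤ M M) {A : Type*} [CommRing A] [Algebra A M]
    (hA : ∀ a : A, E (algebraMap A M a) = 0) (hi : Function.Injective (algebraMap A M)) {x : M} (hx : IsAlgebraic A x) : E x = 0 := by
  have hx' : IsAlgebraic (cst E) x := by
    let f : A →+* cst E := (algebraMap A M).codRestrict (cst E) hA
    have hf : Function.Injective f := fun a b h => hi (congrArg Subtype.val h)
    obtain ⟨p, hp, hpx⟩ := hx
    refine ⟨p.map f, (Polynomial.map_ne_zero_iff hf).2 hp, ?_⟩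
    rw [Polynomial.aeval_def, Polynomial.eval₂_map]
    rw [Polynomial.aeval_def] at hpx
    exact hpx
  have hsm : ∀ (c : cst E) (y : M), E (c • y) = c • E y := by
    intro c y
    have hc : E (c : M) = 0 := c.2
    have hcy : c • y = (c : M) * y := rfl
    have hcy' : c • E y = (c : M) * E y := rfl
    rw [hcy, hcy', E.leibniz, hc, smul_zero, add_zero, smul_eq_mul]
  let E' : Derivation (cst E) M M :=
    Derivation.mk' { toFun := E, map_add' := map_add E, map_smul' := hsm } fun a b => E.leibniz a b
  have : CharZero (cst E) := (algebraMap (cst E) M).charZero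
  have h1 : IsIntegral (cst E) x := hx'.isIntegral
  have h2 : (minpoly (cst E) x).Separable := (minpoly.irreducible h1).separable
  have h3 := E'.map_aeval (minpoly (cst E) x) x
  rw [minpoly.aeval, map_zero] at h3
  have h4 : Polynomial.aeval x (Polynomial.derivative (minpoly (cst E) x)) ≠ 0 := h2.aeval_derivative_ne_zero (minpoly.aeval _ _)
  exact (smul_eq_zero.1 h3.symm).resolve_left h4

/-- a derivation of the values of polynomials -/
theorem der_aeval {M K : Type*} [Field M] [Field K] [Algebra K M] {σ : Type*} [Fintype σ] (D : Derivation K M M) (y : σ → M) (R : MvPolynomial σ K) :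
    D (aeval y R) = ∑ s, aeval y (pderiv s R) * D (y s) := by
  classical
  induction R using MvPolynomial.induction_on with
  | C a => simp
  | add p q hp hq =>
    rw [map_add, map_add, hp, hq, ← Finset.sum_add_distrib]
    refine Finset.sum_congr rfl fun s _ => ?_
    rw [map_add, map_add, add_mul]
  | mul_X p i hp =>
    rw [map_mul, aeval_X, D.leibniz, hp, smul_eq_mul, smul_eq_mul]
    have h1 : ∀ s, aeval y (pderiv s (p * X i)) * D (y s) = y i * (aeval y (pderiv s p) * D (y s)) + if s = i then aeval y p * D (y i) else 0 := by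
      intro s
      rw [pderiv_mul, map_add, map_mul, map_mul, pderiv_X, aeval_X]
      split_ifs with h
      · subst h
        simp
        ring
      · rw [Pi.single_eq_of_ne (Ne.symm h)]
        simp
        ring
    rw [Finset.sum_congr rfl fun s _ => h1 s, Finset.sum_add_distrib, ← Finset.mul_sum, Finset.sum_ite_eq' Finset.univ i, if_pos (Finset.mem_univ i)]
    ring

end AlgD

variable {N : ℕ}

open AlgD in
/-- MODULE AlgD.  `L = K (y)` is a finitely generated field extension of `K`, not algebraic: choose a transcendence basis `y (σ l)` among the generators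
(`exists_isTranscendenceBasis_subset` or so), the dual derivations `D m` of `L` over `K` (`D m (y (σ l)) = δ`; extension of derivations in characteristic `0`), `Y m s = D m (y s)`,
`C l m = D m (d (y (σ l)))`; `[d, D m]` is a derivation over `K`, so it is `- ∑ l, C l m • D l`. -/
theorem exists_dual {M : Type*} [Field M] [CharZero M] (K : Subfield M) (d : Derivation ℤ M M) (hd : ∀ c ∈ K, d c ∈ K) (y : Ph N → M)
    (h1 : ∀ b, d (y (Sum.inl b)) = y (Sum.inr b)) (h2 : ∀ b, d (y (Sum.inr b)) ∈ IntermediateField.adjoin K (Set.range y))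
    (hT : ∃ s, Transcendental K (y s)) :
    ∃ (r : ℕ) (σ : Fin (r + 1) → Ph N) (Y : Fin (r + 1) → Ph N → M) (C : Fin (r + 1) → Fin (r + 1) → M),
      (∀ m l, Y m (σ l) = if m = l then 1 else 0) ∧
      (∀ m (R : MvPolynomial (Ph N) K), aeval y R = 0 → ∑ s, aeval y (pderiv s R) * Y m s = 0) ∧
      (∀ m b, Y m (Sum.inr b) = d (Y m (Sum.inl b)) + ∑ l, C l m * Y l (Sum.inl b)) := by
  classical
  have : CharZero K := (algebraMap K M).charZero
  -- a maximal algebraically independent subset of the generators
  obtain ⟨s, hs⟩ := (AlgebraicIndependent.matroid K M).exists_isBasis (Set.range y)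
  obtain ⟨hs1, hs2, hs3⟩ := AlgebraicIndependent.matroid_isBasis_iff.1 hs
  have hfin : s.Finite := (Set.finite_range y).subset hs2
  have := hfin.fintype
  have hne : s.Nonempty := by
    by_contra he
    rw [Set.not_nonempty_iff_eq_empty] at he
    obtain ⟨i, hi⟩ := hT
    have h3 := hs3 (y i) ⟨i, rfl⟩
    subst he
    rw [Algebra.adjoin_empty] at h3
    refine hi ?_
    obtain ⟨p, hp, hpx⟩ := h3
    let f : K ≃ₐ[K] (⊥ : Subalgebra K M) := (Algebra.botEquiv K M).symm
    have hf : (algebraMap (⊥ : Subalgebra K M) M).comp (f : K →+* (⊥ : Subalgebra K M)) = algebraMap K M := by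
      ext c
      simp [f]
    refine ⟨p.map (f.symm : (⊥ : Subalgebra K M) →+* K), (Polynomial.map_ne_zero_iff f.symm.injective).2 hp, ?_⟩
    rw [Polynomial.aeval_def, Polynomial.eval₂_map, ← hf, RingHom.comp_assoc]
    rw [Polynomial.aeval_def] at hpx
    have h5 : (f : K →+* (⊥ : Subalgebra K M)).comp (f.symm : (⊥ : Subalgebra K M) →+* K) = RingHom.id _ := by
      ext c
      simp
    rw [h5, RingHom.comp_id]
    exact hpx
  obtain ⟨r, hr⟩ : ∃ r, Fintype.card s = r + 1 := Nat.exists_eq_succ_of_ne_zero (by
    have := hne.to_subtype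
    exact Fintype.card_ne_zero)
  let e : Fin (r + 1) ≃ s := (Fin.castOrderIso hr.symm).toEquiv.trans (Fintype.equivFin s).symm
  choose σ hσ using fun l : Fin (r + 1) => hs2 (e l).2
  have ha : AlgebraicIndependent K fun l => y (σ l) := by
    have h3 : AlgebraicIndependent K ((↑) : s → M) := hs1
    have h4 := h3.comp e e.injective
    have h5 : (fun l => y (σ l)) = ((↑) : s → M) ∘ e := funext fun l => hσ l
    rw [h5]
    exact h4
  choose D hD using fun m : Fin (r + 1) => exists_derivation ha fun l => if m = l then (1 : M) else 0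
  refine ⟨r, σ, fun m i => D m (y i), fun l m => D m (d (y (σ l))), hD, fun m R hR => ?_, fun m b => ?_⟩
  · rw [← der_aeval, hR, map_zero]
  · -- the derivation `D m ∘ d - d ∘ D m - ∑ l, C l m • D l`
    let E : Derivation ℤ M M := Derivation.mk' ((((D m : M →ₗ[K] M).toAddMonoidHom.toIntLinearMap).comp (d : M →ₗ[ℤ] M) -
        (d : M →ₗ[ℤ] M).comp (D m : M →ₗ[K] M).toAddMonoidHom.toIntLinearMap) - ∑ l, D m (d (y (σ l))) • (D l : M →ₗ[K] M).toAddMonoidHom.toIntLinearMap)
      (fun x z => by
        simp only [LinearMap.sub_apply, LinearMap.comp_apply, LinearMap.sum_apply, LinearMap.smul_apply, AddMonoidHom.coe_toIntLinearMap,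
          LinearMap.toAddMonoidHom_coe, Derivation.coeFn_coe, Derivation.leibniz, map_add, smul_eq_mul, mul_add, Finset.sum_add_distrib]
        have k1 : ∀ u w : M, ∑ l, D m (d (y (σ l))) * (u * D l w) = u * ∑ l, D m (d (y (σ l))) * D l w := by
          intro u w
          rw [Finset.mul_sum]
          exact Finset.sum_congr rfl fun l _ => by ring
        rw [k1, k1]
        ring)
    have hE : ∀ x, E x = D m (d x) - d (D m x) - ∑ l, D m (d (y (σ l))) * D l x := by
      intro x
      change ((((D m : M →ₗ[K] M).toAddMonoidHom.toIntLinearMap).comp (d : M →ₗ[ℤ] M) -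
        (d : M →ₗ[ℤ] M).comp (D m : M →ₗ[K] M).toAddMonoidHom.toIntLinearMap) - ∑ l, D m (d (y (σ l))) • (D l : M →ₗ[K] M).toAddMonoidHom.toIntLinearMap) x = _
      simp only [LinearMap.sub_apply, LinearMap.comp_apply, LinearMap.sum_apply, LinearMap.smul_apply, AddMonoidHom.coe_toIntLinearMap,
          LinearMap.toAddMonoidHom_coe, Derivation.coeFn_coe, smul_eq_mul]
    have hK : ∀ c : K, E (c : M) = 0 := by
      intro c
      rw [hE]
      have k1 : ∀ (l : Fin (r + 1)) (c : K), D l (c : M) = 0 := fun l c => (D l).map_algebraMap c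
      rw [k1 m c, map_zero, sub_zero, k1 m ⟨d c, hd c c.2⟩, zero_sub, neg_eq_zero]
      exact Finset.sum_eq_zero fun l _ => by rw [k1 l c, mul_zero]
    have hy : ∀ l, E (y (σ l)) = 0 := by
      intro l
      rw [hE, hD m l]
      have k1 : d (if m = l then (1 : M) else 0) = 0 := by
        split_ifs
        · exact d.map_one_eq_zero
        · exact map_zero d
      rw [k1, sub_zero]
      have k2 : ∑ l', D m (d (y (σ l'))) * D l' (y (σ l)) = D m (d (y (σ l))) := by
        rw [Finset.sum_eq_single l]
        · rw [hD l l, if_pos rfl, mul_one]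
        · intro l' _ h
          rw [hD l' l, if_neg h, mul_zero]
        · intro h
          exact absurd (Finset.mem_univ l) h
      rw [k2, sub_self]
    have hA : ∀ x ∈ Algebra.adjoin K s, E x = 0 := by
      intro x hx
      induction hx using Algebra.adjoin_induction with
      | mem x hx =>
        have h3 : y (σ (e.symm ⟨x, hx⟩)) = x := by
          rw [hσ, Equiv.apply_symm_apply]
        rw [← h3]
        exact hy _
      | algebraMap c => exact hK c
      | add x z _ _ hx hz => rw [map_add, hx, hz, add_zero]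
      | mul x z _ _ hx hz => rw [E.leibniz, hx, hz, smul_zero, smul_zero, add_zero]
    have h3 : E (y (Sum.inl b)) = 0 :=
      eq_zero_of_isAlgebraic E (A := Algebra.adjoin K s) (fun a => hA a a.2) Subtype.val_injective (hs3 _ ⟨_, rfl⟩)
    rw [hE, h1] at h3
    change D m (y (Sum.inr b)) = d (D m (y (Sum.inl b))) + ∑ l, D m (d (y (σ l))) * D l (y (Sum.inl b))
    linear_combination h3

end Pool.Agent.GA

end

section

/-!
# GB Inv: change of the frame

PROOF.  `vol ≠ 0`: the derivations `e, h` are a basis of `Der (K)` (a derivation is determined by its values on the transcendence basis `z`, as `K` is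
algebraic over `ℂ(z)`).  Write `(e', h') = G (e, h)`, `G = ((g, n), (*, m))`; `vol' = det G · vol`.  `0 = e' φ = n (h φ)`, and `dph φ h ≠ 0` (`dph_ne`: the
matrix `((e, h) φ)` has rank `κ`, since the `dφ` are independent, and its rows `e φ` are `0`), so `n = 0`, `det G = det g · det m`, `dph φ h' = det m · dph φ h`.
-/

set_option autoImplicit false

open MvPolynomial
open Pool.Agent.H23 (dualDer)
open Pool.Agent.H23.Fano (PrimeDivisorOver Form)

namespace Pool.Agent.GB

variable {K : Type} [Field K] [Algebra ℂ K] {k d κ : ℕ}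

theorem inv_sum {σ : Type} (s : Finset σ) (c : σ → K) (E : σ → Derivation ℂ K K) (x : K) : (∑ r ∈ s, c r • E r) x = ∑ r ∈ s, c r * E r x := by
  classical
  induction s using Finset.induction_on with
  | empty => simp
  | insert a s ha ih =>
    rw [Finset.sum_insert ha, Finset.sum_insert ha, Derivation.add_apply, ih]
    rfl

/-- a derivation is determined by its values on a transcendence basis -/
theorem inv_ext {z : Fin k → K} (hz : IsTranscendenceBasis ℂ z) {D D' : Derivation ℂ K K} (h : ∀ j, D (z j) = D' (z j)) : D = D' := by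
  obtain ⟨β, hβ⟩ := Pool.Agent.H23.exists_basis_kaehler hz
  have h1 : D.liftKaehlerDifferential = D'.liftKaehlerDifferential := by
    refine β.ext fun j => ?_
    rw [hβ, Derivation.liftKaehlerDifferential_comp_D, Derivation.liftKaehlerDifferential_comp_D, h]
  rw [← Derivation.liftKaehlerDifferential_comp D, ← Derivation.liftKaehlerDifferential_comp D', h1]

/-- the matrix of the frame -/
def ivm (z : Fin k → K) (ε : Fin d ⊕ Fin κ ≃ Fin k) (e : Fin d → Derivation ℂ K K) (h : Fin κ → Derivation ℂ K K) :
    Matrix (Fin d ⊕ Fin κ) (Fin d ⊕ Fin κ) K := Matrix.of fun r s => (Sum.elim e h r) (z (ε s))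

theorem vol_eq (z : Fin k → K) (ε : Fin d ⊕ Fin κ ≃ Fin k) (e : Fin d → Derivation ℂ K K) (h : Fin κ → Derivation ℂ K K) :
    vol z ε e h = (ivm z ε e h).det := rfl

/-- every derivation is a combination of the frame -/
theorem inv_comb {z : Fin k → K} (hz : IsTranscendenceBasis ℂ z) {ε : Fin d ⊕ Fin κ ≃ Fin k} {e : Fin d → Derivation ℂ K K}
    {h : Fin κ → Derivation ℂ K K} (hv : vol z ε e h ≠ 0) (D : Derivation ℂ K K) :
    ∃ c : Fin d ⊕ Fin κ → K, D = ∑ r, c r • Sum.elim e h r := by
  have hu : IsUnit (ivm z ε e h).det := isUnit_iff_ne_zero.2 hv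
  refine ⟨Matrix.vecMul (fun s => D (z (ε s))) (ivm z ε e h)⁻¹, inv_ext hz fun j => ?_⟩
  have h1 : Matrix.vecMul (Matrix.vecMul (fun s => D (z (ε s))) (ivm z ε e h)⁻¹) (ivm z ε e h) = fun s => D (z (ε s)) := by
    rw [Matrix.vecMul_vecMul, Matrix.nonsing_inv_mul _ hu, Matrix.vecMul_one]
  have h2 := congrFun h1 (ε.symm j)
  simp only [Equiv.apply_symm_apply] at h2
  rw [← h2]
  rw [inv_sum]
  simp only [Matrix.vecMul, dotProduct, ivm, Matrix.of_apply, Equiv.apply_symm_apply]

theorem dph_ne {z : Fin k → K} (hz : IsTranscendenceBasis ℂ z) {ε : Fin d ⊕ Fin κ ≃ Fin k} {φ : Fin κ → K}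
    (hφ : LinearIndependent K fun i => KaehlerDifferential.D ℂ K (φ i)) {e : Fin d → Derivation ℂ K K} {h : Fin κ → Derivation ℂ K K}
    (he : ∀ j i, e j (φ i) = 0) (hv : vol z ε e h ≠ 0) : dph φ h ≠ 0 := by
  intro h0
  obtain ⟨c, hc0, hc⟩ := Matrix.exists_mulVec_eq_zero_iff.2 h0
  obtain ⟨β, hβ⟩ := Pool.Agent.H23.exists_basis_kaehler hz
  have hω : ∑ l, c l • KaehlerDifferential.D ℂ K (φ l) = 0 := by
    apply β.ext_elem
    intro j
    rw [map_zero, Finsupp.zero_apply]
    obtain ⟨a, ha⟩ := inv_comb hz hv (dualDer β j)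
    have h1 : ∀ l, β.repr (KaehlerDifferential.D ℂ K (φ l)) j = ∑ r, a r * (Sum.elim e h r) (φ l) := by
      intro l
      rw [← Pool.Agent.H23.dualDer_apply, ha, inv_sum]
    simp only [map_sum, map_smul, Finsupp.coe_finsetSum, Finset.sum_apply, Finsupp.coe_smul, Pi.smul_apply, smul_eq_mul, h1]
    have h2 : ∀ r, ∑ l, c l * (Sum.elim e h r) (φ l) = 0 := by
      rintro (r | r)
      · simp [he]
      · have := congrFun hc r
        simp only [Matrix.mulVec, dotProduct, Matrix.of_apply, Pi.zero_apply] at this
        rw [← this]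
        exact Finset.sum_congr rfl fun l _ => by simp [mul_comm]
    calc ∑ l, c l * ∑ r, a r * (Sum.elim e h r) (φ l) = ∑ r, a r * ∑ l, c l * (Sum.elim e h r) (φ l) := by
          simp only [Finset.mul_sum]
          rw [Finset.sum_comm]
          exact Finset.sum_congr rfl fun r _ => Finset.sum_congr rfl fun l _ => by ring
      _ = 0 := by simp [h2]
  apply hc0
  funext l
  exact Fintype.linearIndependent_iff.1 hφ c hω l

theorem exists_change {z : Fin k → K} (hz : IsTranscendenceBasis ℂ z) {ε : Fin d ⊕ Fin κ ≃ Fin k} {φ : Fin κ → K}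
    (hφ : LinearIndependent K fun i => KaehlerDifferential.D ℂ K (φ i)) {e e' : Fin d → Derivation ℂ K K} {h h' : Fin κ → Derivation ℂ K K}
    (he : ∀ j i, e j (φ i) = 0) (he' : ∀ j i, e' j (φ i) = 0) (hv : vol z ε e h ≠ 0) (hv' : vol z ε e' h' ≠ 0) :
    ∃ g : Matrix (Fin d) (Fin d) K, g.det ≠ 0 ∧ (∀ r, e' r = ∑ s, g r s • e s) ∧
      dph φ h' / vol z ε e' h' = (dph φ h / vol z ε e h) / g.det := by
  have hH := dph_ne hz hφ he hv
  have hcomb := fun r => inv_comb hz hv (Sum.elim e' h' r)
  choose G hG using hcomb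
  have hGe : ∀ (r : Fin d ⊕ Fin κ) (x : K), (Sum.elim e' h' r) x = ∑ s, G r s * (Sum.elim e h s) x := by
    intro r x
    rw [hG r, inv_sum]
  -- the block `n` vanishes
  have hn : ∀ r i, G (Sum.inl r) (Sum.inr i) = 0 := by
    intro r
    have h1 : Matrix.vecMul (fun i => G (Sum.inl r) (Sum.inr i)) (Matrix.of fun i l => h i (φ l)) = 0 := by
      funext l
      have h2 := hGe (Sum.inl r) (φ l)
      rw [Fintype.sum_sum_type] at h2
      simp only [Sum.elim_inl, Sum.elim_inr, he', he, mul_zero, Finset.sum_const_zero, zero_add] at h2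
      simp only [Matrix.vecMul, dotProduct, Matrix.of_apply, Pi.zero_apply]
      exact h2.symm
    have h3 := Matrix.eq_zero_of_vecMul_eq_zero hH h1
    exact fun i => congrFun h3 i
  obtain ⟨g, hg⟩ : ∃ g : Matrix (Fin d) (Fin d) K, g = Matrix.of fun r s => G (Sum.inl r) (Sum.inl s) := ⟨_, rfl⟩
  obtain ⟨m, hm⟩ : ∃ m : Matrix (Fin κ) (Fin κ) K, m = Matrix.of fun r s => G (Sum.inr r) (Sum.inr s) := ⟨_, rfl⟩
  have hGb : Matrix.of G = Matrix.fromBlocks g 0 (Matrix.of fun r s => G (Sum.inr r) (Sum.inl s)) m := by
    ext r s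
    rcases r with r | r <;> rcases s with s | s
    · simp [hg]
    · simp [hn]
    · simp
    · simp [hm]
  have hdet : (Matrix.of G).det = g.det * m.det := by rw [hGb, Matrix.det_fromBlocks_zero₁₂]
  have hvol : vol z ε e' h' = g.det * m.det * vol z ε e h := by
    rw [← hdet, vol_eq, vol_eq, ← Matrix.det_mul]
    congr 1
    ext r s
    simp only [ivm, Matrix.of_apply, Matrix.mul_apply]
    exact hGe r _
  have hdph : dph φ h' = m.det * dph φ h := by
    rw [dph, dph, ← Matrix.det_mul]
    congr 1
    ext i l
    have h2 := hGe (Sum.inr i) (φ l)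
    rw [Fintype.sum_sum_type] at h2
    simp only [Sum.elim_inl, Sum.elim_inr, he, mul_zero, Finset.sum_const_zero, zero_add] at h2
    simp only [Matrix.of_apply, Matrix.mul_apply, hm]
    exact h2
  have hgm : g.det * m.det ≠ 0 := by
    intro h0
    rw [hvol, h0, zero_mul] at hv'
    exact hv' rfl
  have hg0 := left_ne_zero_of_mul hgm
  have hm0 := right_ne_zero_of_mul hgm
  refine ⟨g, hg0, fun r => ?_, ?_⟩
  · have h1 := hG (Sum.inl r)
    rw [Fintype.sum_sum_type] at h1
    simp only [Sum.elim_inl, Sum.elim_inr, hn, zero_smul, Finset.sum_const_zero, add_zero] at h1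
    rw [h1, hg]
    simp
  · rw [hvol, hdph]
    field_simp

/-- the frame is linearly independent -/
theorem indep_of_vol {z : Fin k → K} {ε : Fin d ⊕ Fin κ ≃ Fin k} {e : Fin d → Derivation ℂ K K} {h : Fin κ → Derivation ℂ K K}
    (hv : vol z ε e h ≠ 0) : LinearIndependent K e := by
  rw [Fintype.linearIndependent_iff]
  intro c hc
  have h1 : Matrix.vecMul (Sum.elim c 0) (ivm z ε e h) = 0 := by
    funext s
    have h2 := congrArg (fun D : Derivation ℂ K K => D (z (ε s))) hc
    rw [inv_sum, Derivation.coe_zero, Pi.zero_apply] at h2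
    simp only [Matrix.vecMul, dotProduct, ivm, Matrix.of_apply, Pi.zero_apply, Fintype.sum_sum_type, Sum.elim_inl, Sum.elim_inr, zero_mul,
      Finset.sum_const_zero, add_zero]
    exact h2
  have h3 := Matrix.eq_zero_of_vecMul_eq_zero hv h1
  exact fun i => congrFun h3 (Sum.inl i)

end Pool.Agent.GB

end
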