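import Pool.Agent.H18.GGT.M18
import Pool.Agent.H18.GGT.M22
import Pool.Agent.H18.GGT.M24
import Pool.Agent.H18.GGT.M57

/-! The parts of this file: GB.Reg, GB.Spn, H7.Qup.Hom. -/

section

/-!
# GB Reg: the determinants are pluricanonical forms

PROOF.  `E`, `b` with `DC E b`; `φ_i = s_(i+1) / s_0`.  `Lat.exists_lat`: `σ`, `n`.  Frame at `E`: `e'_j = dualDer b (σ (inl j)) - ∑ i, n j i • dualDer b (σ (inr i))`,
`h'_i = dualDer b (σ (inr i))`: they preserve `E.ord ≥ 0`, `e' φ = 0`, `vol z ε e' h' = ± jac z b` (unimodular change, permutation of the columns), `jac z b ≠ 0`.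
`Inv.exists_change`, `Ψ.subst` and the weight: `cdet (Ψ e) (dph / vol)^a = cdet (Ψ e') (dph' / vol')^a`, `E.ord (cdet (Ψ e')) ≥ 0` (`Ψ.reg`).
With `γ = jac z b`, `τ_i = s_i γ^l`: `E.ord τ_i ≥ 0`, `τ_0^2 ∂ φ_i = τ_0 ∂ τ_(i+1) - τ_(i+1) ∂ τ_0`, so `E.ord (τ_0^(2 κ) dph φ h') ≥ 0`.  The function in the statement times
`γ^(a + 2 κ a l)` is `± cdet (Ψ e') (τ_0^(2 κ) dph φ h')^a`.
-/

set_option autoImplicit false

open MvPolynomial
open Pool.Agent.H23 (dualDer)
open Pool.Agent.H23.Fano (PrimeDivisorOver Form)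

namespace Pool.Agent.GB

private theorem reg_det_mem {K : Type} [Field K] [Algebra ℂ K] {ν : Type*} [Fintype ν] [DecidableEq ν] (O : Subalgebra ℂ K) (A : Matrix ν ν K)
    (hA : ∀ i j, A i j ∈ O) : A.det ∈ O := by
  rw [Matrix.det_apply]
  refine sum_mem fun σ _ => ?_
  rw [Units.smul_def, zsmul_eq_mul]
  exact mul_mem (intCast_mem O _) (prod_mem fun i _ => hA _ _)

private theorem reg_der_sum {K : Type} [Field K] [Algebra ℂ K] {ν : Type*} (t : Finset ν) (D : ν → Derivation ℂ K K) (f : K) :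
    (∑ i ∈ t, D i) f = ∑ i ∈ t, D i f := by
  classical
  induction t using Finset.induction_on with
  | empty => simp
  | insert i t hi ih => rw [Finset.sum_insert hi, Finset.sum_insert hi, Derivation.add_apply, ih]

/-- the determinant of the values of a frame on `z` and the Jacobian -/
private theorem reg_jac_ne {K : Type} [Field K] [Algebra ℂ K] {k d κ : ℕ} {z : Fin k → K} {ε : Fin d ⊕ Fin κ ≃ Fin k} {e : Fin d → Derivation ℂ K K}
    {h : Fin κ → Derivation ℂ K K} (hv : vol z ε e h ≠ 0) (b : Module.Basis (Fin k) K Ω[K⁄ℂ]) : jac z b ≠ 0 := by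
  classical
  have key : ∀ (δ : Derivation ℂ K K) (f : K), δ f = ∑ i, δ.liftKaehlerDifferential (b i) * dualDer b i f := by
    intro δ f
    have h1 : δ.liftKaehlerDifferential (KaehlerDifferential.D ℂ K f) = δ f := δ.liftKaehlerDifferential_comp_D f
    have h2 := b.sum_repr (KaehlerDifferential.D ℂ K f)
    rw [← h1, ← h2, map_sum]
    refine Finset.sum_congr rfl fun i _ => ?_
    rw [map_smul, smul_eq_mul, mul_comm]
    rfl
  have hm : (Matrix.of fun r s : Fin d ⊕ Fin κ => (Sum.elim e h r) (z (ε s))) =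
      (Matrix.of fun r r' : Fin d ⊕ Fin κ => (Sum.elim e h r).liftKaehlerDifferential (b (ε r'))) *
        (Matrix.of fun i j => dualDer b i (z j)).submatrix ε ε := by
    ext r s
    rw [Matrix.mul_apply, Matrix.of_apply, key (Sum.elim e h r) (z (ε s)), ← ε.sum_comp]
    rfl
  intro hj
  apply hv
  unfold vol
  rw [hm, Matrix.det_mul, Matrix.det_submatrix_equiv_self]
  have : (Matrix.of fun i j => dualDer b i (z j)).det = 0 := hj
  rw [this, mul_zero]

theorem reg_cdet {K : Type} [Field K] [Algebra ℂ K] {k d κ M a l : ℕ} {ι : Type} {z : Fin k → K} (hz : IsTranscendenceBasis ℂ z)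
    (Ψ : SymFam K k d M ι) (ha : IsWeight d M a) {s : Fin (κ + 1) → K} (hs0 : s 0 ≠ 0) (hs : ∀ i, RegF z l (s i))
    (hφ : LinearIndependent K fun i : Fin κ => KaehlerDifferential.D ℂ K (s i.succ / s 0))
    {ε : Fin d ⊕ Fin κ ≃ Fin k} {e : Fin d → Derivation ℂ K K} {h : Fin κ → Derivation ℂ K K}
    (he : ∀ (j : Fin d) (i : Fin κ), e j (s i.succ / s 0) = 0) (hv : vol z ε e h ≠ 0) (I : Mon d M → ι) :
    RegF z (a + 2 * κ * a * l)
      (cdet (fun α => Ψ.fn (I α) e) * (dph (fun i : Fin κ => s i.succ / s 0) h / vol z ε e h) ^ a * s 0 ^ (2 * κ * a)) := by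
  classical
  haveI : CharZero K := charZero_of_injective_algebraMap (algebraMap ℂ K).injective
  intro E b hDC
  obtain ⟨g, hg, hgr, hpres⟩ := id hDC
  set φ : Fin κ → K := fun i => s i.succ / s 0 with hφdef
  have hk : d + κ = k := by simpa using Fintype.card_congr ε
  obtain ⟨σ, n, hn, hdet, hrel⟩ := exists_lat hk hφ (E := E) (b := b)
  have hγ : jac z b ≠ 0 := reg_jac_ne hv b
  set γ : K := jac z b with hγdef
  let O : Subalgebra ℂ K := Pool.Agent.H23.valRing E.ord E.ord_const
  have hO : ∀ f : K, f ∈ O ↔ 0 ≤ E.ord f := fun f => Iff.rfl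
  -- the frame at `E`
  let h' : Fin κ → Derivation ℂ K K := fun i => dualDer b (σ (Sum.inr i))
  let e' : Fin d → Derivation ℂ K K := fun j => dualDer b (σ (Sum.inl j)) - ∑ i, n j i • dualDer b (σ (Sum.inr i))
  have e'_apply : ∀ j f, e' j f = dualDer b (σ (Sum.inl j)) f - ∑ i, n j i * dualDer b (σ (Sum.inr i)) f := by
    intro j f
    simp only [e', Derivation.coe_sub, Pi.sub_apply, reg_der_sum, Derivation.coe_smul, Pi.smul_apply, smul_eq_mul]
  have hh'O : ∀ i f, f ∈ O → h' i f ∈ O := fun i f hf => hpres _ f hf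
  have he'O : ∀ j f, f ∈ O → e' j f ∈ O := by
    intro j f hf
    rw [e'_apply]
    exact sub_mem (hpres _ f hf) (sum_mem fun i _ => mul_mem (hn j i) (hpres _ f hf))
  have he' : ∀ (j : Fin d) (i : Fin κ), e' j (φ i) = 0 := by
    intro j i
    rw [e'_apply, hrel j i, sub_self]
  -- `vol z ε e' h' = ± jac z b`
  obtain ⟨u, hu, hu2, huO⟩ : ∃ u : K, vol z ε e' h' = u * γ ∧ u * u = 1 ∧ u ∈ O := by
    have hm : (Matrix.of fun r s : Fin d ⊕ Fin κ => (Sum.elim e' h' r) (z (ε s))) =
        Matrix.fromBlocks 1 (-(Matrix.of n)) 0 1 * (Matrix.of fun i j => dualDer b i (z j)).submatrix σ ε := by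
      ext r s
      rw [Matrix.mul_apply, Fintype.sum_sum_type]
      rcases r with j | i
      · simp only [Matrix.of_apply, Sum.elim_inl, Matrix.fromBlocks_apply₁₁, Matrix.fromBlocks_apply₁₂, Matrix.submatrix_apply, Matrix.neg_apply,
          e'_apply, Matrix.one_apply, ite_mul, one_mul, zero_mul, Finset.sum_ite_eq, Finset.mem_univ, if_true, neg_mul, Finset.sum_neg_distrib]
        ring
      · simp only [Matrix.of_apply, Sum.elim_inr, Matrix.fromBlocks_apply₂₁, Matrix.fromBlocks_apply₂₂, Matrix.submatrix_apply, Matrix.zero_apply,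
          Matrix.one_apply, ite_mul, one_mul, zero_mul, Finset.sum_ite_eq, Finset.mem_univ, if_true, Finset.sum_const_zero, zero_add]
        rfl
    have hσ : ((Matrix.of fun i j => dualDer b i (z j)).submatrix σ ε).det = (Equiv.Perm.sign (σ.symm.trans ε) : ℤ) * γ := by
      have h1 : (Matrix.of fun i j => dualDer b i (z j)).submatrix σ ε =
          ((Matrix.of fun i j => dualDer b i (z j)).submatrix id (σ.symm.trans ε)).submatrix σ σ := by
        ext r s
        simp
      rw [h1, Matrix.det_submatrix_equiv_self, Matrix.det_permute']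
      rfl
    refine ⟨((Equiv.Perm.sign (σ.symm.trans ε) : ℤ) : K), ?_, ?_, intCast_mem O _⟩
    · unfold vol
      rw [hm, Matrix.det_mul, Matrix.det_fromBlocks_zero₂₁, Matrix.det_one, Matrix.det_one, one_mul, one_mul, hσ]
    · rcases Int.units_eq_one_or (Equiv.Perm.sign (σ.symm.trans ε)) with h1 | h1 <;> rw [h1] <;> simp
  have hu0 : u ≠ 0 := by
    rintro rfl
    simp at hu2
  have hv' : vol z ε e' h' ≠ 0 := by
    rw [hu]
    exact mul_ne_zero hu0 hγ
  obtain ⟨G, hG0, hGe, hGd⟩ := exists_change hz hφ he he' hv hv'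
  -- change of the frame in `Ψ`
  have hcd : cdet (fun α => Ψ.fn (I α) e') = G.det ^ a * cdet (fun α => Ψ.fn (I α) e) := by
    rw [← ha K G hG0 (fun α => Ψ.fn (I α) e) fun α => Ψ.hom _ _]
    congr 1
    funext α
    rw [← Ψ.subst]
    congr 1
    funext r
    exact hGe r
  have hcO : cdet (fun α => Ψ.fn (I α) e') ∈ O := by
    unfold cdet
    refine reg_det_mem O _ fun α β => ?_
    exact Ψ.reg (I α) e' E (fun j f hf => he'O j f hf) _
  -- the functions `τ`
  have hτ : ∀ i, s i * γ ^ l ∈ O := fun i => hs i E b hDC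
  have hrow : ∀ (i j : Fin κ), (s 0 * γ ^ l) ^ 2 * h' i (φ j) ∈ O := by
    intro i j
    have hτ0 : s 0 * γ ^ l ≠ 0 := mul_ne_zero hs0 (pow_ne_zero _ hγ)
    have e1 : φ j = s j.succ * γ ^ l / (s 0 * γ ^ l) := by
      rw [mul_div_mul_right _ _ (pow_ne_zero _ hγ)]
    have e2 : (s 0 * γ ^ l) ^ 2 * h' i (φ j) = (s 0 * γ ^ l) * h' i (s j.succ * γ ^ l) - (s j.succ * γ ^ l) * h' i (s 0 * γ ^ l) := by
      rw [e1, Derivation.leibniz_div]
      simp only [smul_eq_mul]
      field_simp
    rw [e2]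
    exact sub_mem (mul_mem (hτ 0) (hh'O i _ (hτ _))) (mul_mem (hτ _) (hh'O i _ (hτ 0)))
  have hdph : (s 0 * γ ^ l) ^ (2 * κ) * dph φ h' ∈ O := by
    have e1 : (s 0 * γ ^ l) ^ (2 * κ) * dph φ h' = (Matrix.of fun i j : Fin κ => (s 0 * γ ^ l) ^ 2 * h' i (φ j)).det := by
      unfold dph
      have e2 : (Matrix.of fun i j : Fin κ => (s 0 * γ ^ l) ^ 2 * h' i (φ j)) = ((s 0 * γ ^ l) ^ 2) • (Matrix.of fun i j : Fin κ => h' i (φ j)) := by
        ext i j
        simp
      rw [e2, Matrix.det_smul, Fintype.card_fin, pow_mul]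
    rw [e1]
    exact reg_det_mem O _ fun i j => hrow i j
  -- the end
  rw [← hO]
  have hfin : cdet (fun α => Ψ.fn (I α) e) * (dph φ h / vol z ε e h) ^ a * s 0 ^ (2 * κ * a) * γ ^ (a + 2 * κ * a * l) =
      cdet (fun α => Ψ.fn (I α) e') * ((s 0 * γ ^ l) ^ (2 * κ) * dph φ h') ^ a * u ^ a := by
    have h1 : dph φ h / vol z ε e h = dph φ h' * u / γ * G.det := by
      rw [eq_div_iff hG0] at hGd
      rw [← hGd, hu]
      field_simp
      rw [pow_two, hu2, one_mul]
    have hq : (dph φ h' * u / γ * G.det) ^ a * γ ^ a = (dph φ h' * u * G.det) ^ a := by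
      rw [← mul_pow]
      congr 1
      field_simp
    rw [h1, hcd]
    calc cdet (fun α => Ψ.fn (I α) e) * (dph φ h' * u / γ * G.det) ^ a * s 0 ^ (2 * κ * a) * γ ^ (a + 2 * κ * a * l) =
          cdet (fun α => Ψ.fn (I α) e) * ((dph φ h' * u / γ * G.det) ^ a * γ ^ a) * (s 0 ^ (2 * κ * a) * γ ^ (2 * κ * a * l)) := by ring
      _ = cdet (fun α => Ψ.fn (I α) e) * (dph φ h' * u * G.det) ^ a * (s 0 ^ (2 * κ * a) * γ ^ (2 * κ * a * l)) := by rw [hq]
      _ = _ := by ring
  rw [hfin]
  exact mul_mem (mul_mem hcO (pow_mem hdph _)) (pow_mem huO _)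

end Pool.Agent.GB

end

section

/-!
# GB Spn: the symmetric differentials span over the function field

PROOF.  If all `cdet (psi (I α) e)` are `0`: they are the values at `(x, u) = (x_b / x_a, e_j (x_b / x_a))` of the polynomials `cdet` in the variables `x_b, u_(j b)` (the
coefficients of `A_k (x, ∑ t_j u_j)` as a polynomial in `t`).  At a complex point with `x_a = 1`, `u_(j a) = 0`, `Q_i (x) = 0`, `dQ_i (x) u_j = 0` where they all vanish the vectors `u_j` are
dependent: otherwise take linear forms with `ℓ_j (u_i) = δ`, `ℓ_j (x) = 0`, `G = ∏ ℓ_j^(α j)` in `Generated`: all monomials `t^α` are combinations of the `A_k (x, ∑ t_j u_j)`.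
By `Trf.transfer` all `d × d` minors of `(e_j (x_b / x_a))` are `0`, so a nonzero combination of the `e_j` kills all `x_b / x_a`, hence is `0` (`H17R.adjoin_ratio`).
-/

set_option autoImplicit false

open MvPolynomial
open Pool.Agent.H17LG.Variety (FunField ratio)
open Pool.Agent.H62.FC (Homog)
open Pool.Agent.H13.SM (conTan cone)

namespace Pool.Agent.GB

/-- a spanning family of vectors contains a basis -/
private theorem exists_det {F ι n : Type} [Field F] [Fintype n] [DecidableEq n] (w : ι → n → F)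
    (hs : Submodule.span F (Set.range w) = ⊤) : ∃ I : n → ι, (Matrix.of fun α β => w (I α) β).det ≠ 0 := by
  obtain ⟨κ, a, -, hsp, hli⟩ := exists_linearIndependent' F w
  have hsp' : ⊤ ≤ Submodule.span F (Set.range (w ∘ a)) := by rw [hsp, hs]
  let b : Module.Basis κ F (n → F) := Module.Basis.mk hli hsp'
  let e : κ ≃ n := b.indexEquiv (Pi.basisFun F n)
  refine ⟨fun α => a (e.symm α), ?_⟩
  have h1 : LinearIndependent F (Matrix.of fun α β => w (a (e.symm α)) β).row :=
    hli.comp e.symm e.symm.injective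
  rw [Matrix.linearIndependent_rows_iff_isUnit, Matrix.isUnit_iff_isUnit_det] at h1
  exact h1.ne_zero

private theorem lin_apply {F n W : Type} [Field F] [Fintype n] [DecidableEq n] [AddCommGroup W] [Module F W] (φ : (n → F) →ₗ[F] W)
    (v : n → F) : φ v = ∑ j, v j • φ (Pi.single j 1) := by
  have h1 : v = ∑ j, v j • Pi.single j (1 : F) := by
    funext i
    simp [Finset.sum_apply, Pi.single_apply]
  conv_lhs => rw [h1]
  rw [map_sum]
  exact Finset.sum_congr rfl fun j _ => map_smul _ _ _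

/-- the chain rule -/
private theorem der_aeval {K : Type} [Field K] [Algebra ℂ K] {n : ℕ} (D : Derivation ℂ K K) (x : Fin n → K) (q : MvPolynomial (Fin n) ℂ) :
    D (aeval x q) = ∑ i, D (x i) * aeval x (pderiv i q) := by
  induction q using MvPolynomial.induction_on with
  | C c =>
    simp
  | add p q hp hq =>
    simp only [map_add, mul_add, Finset.sum_add_distrib, hp, hq]
  | mul_X p i hp =>
    rw [map_mul, aeval_X, Derivation.leibniz, hp, smul_eq_mul, smul_eq_mul]
    have h4 : ∀ j, D (x j) * aeval x (pderiv j (p * X i)) =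
        x i * (D (x j) * aeval x (pderiv j p)) + (if j = i then aeval x p * D (x j) else 0) := by
      intro j
      rw [Derivation.leibniz, pderiv_X]
      by_cases hj : j = i
      · subst hj
        simp
        ring
      · rw [Pi.single_eq_of_ne (Ne.symm hj)]
        simp [hj]
        ring
    rw [Finset.sum_congr rfl fun j _ => h4 j, Finset.sum_add_distrib, ← Finset.mul_sum]
    simp
    ring

/-- independent rows: a minor is not zero -/
private theorem exists_minor {F : Type} [Field F] {d n : ℕ} {r : Fin d → Fin n → F} (hr : LinearIndependent F r) :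
    ∃ μ : Fin d → Fin n, (Matrix.of fun j l => r j (μ l)).det ≠ 0 := by
  have hs : Submodule.span F (Set.range fun (b : Fin n) (j : Fin d) => r j b) = ⊤ := by
    by_contra hne
    obtain ⟨φ, hφ, hle⟩ := Submodule.exists_le_ker_of_lt_top _ (lt_top_iff_ne_top.2 hne)
    apply hφ
    have h1 : ∀ v : Fin d → F, φ v = ∑ j, v j * φ (Pi.single j 1) := fun v => by
      rw [lin_apply φ v]
      simp only [smul_eq_mul]
    have h2 : ∑ j, φ (Pi.single j 1) • r j = 0 := by
      funext b
      have h3 : φ (fun j => r j b) = 0 := hle (Submodule.subset_span ⟨b, rfl⟩)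
      rw [h1] at h3
      rw [Finset.sum_apply, Pi.zero_apply, ← h3]
      refine Finset.sum_congr rfl fun j _ => ?_
      rw [Pi.smul_apply, smul_eq_mul, mul_comm]
    have h3 := Fintype.linearIndependent_iff.1 hr _ h2
    refine LinearMap.ext fun v => ?_
    rw [h1, LinearMap.zero_apply]
    exact Finset.sum_eq_zero fun j _ => by rw [h3 j, mul_zero]
  obtain ⟨μ, hμ⟩ := exists_det _ hs
  refine ⟨μ, ?_⟩
  rw [← Matrix.det_transpose]
  exact hμ

/-- a derivation which kills generators is zero -/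
private theorem der_eq_zero {K : Type} [Field K] [Algebra ℂ K] {s : Set K} (hs : IntermediateField.adjoin ℂ s = ⊤) {D : Derivation ℂ K K}
    (hD : ∀ x ∈ s, D x = 0) : D = 0 := by
  ext x
  have hx : x ∈ IntermediateField.adjoin ℂ s := by
    rw [hs]
    trivial
  rw [Derivation.coe_zero, Pi.zero_apply]
  induction hx using IntermediateField.adjoin_induction with
  | mem x hx => exact hD x hx
  | algebraMap x => exact D.map_algebraMap x
  | add x y _ _ hx hy => rw [map_add, hx, hy, add_zero]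
  | inv x _ hx => rw [Derivation.leibniz_inv, hx, smul_zero]
  | mul x y _ _ hx hy => rw [Derivation.leibniz, hx, hy, smul_zero, smul_zero, add_zero]

private theorem rows_li {K : Type} [Field K] [Algebra ℂ K] {n d : ℕ} {x : Fin n → K} (hx : IntermediateField.adjoin ℂ (Set.range x) = ⊤)
    {e : Fin d → Derivation ℂ K K} (he : LinearIndependent K e) : LinearIndependent K fun (j : Fin d) (b : Fin n) => e j (x b) := by
  rw [Fintype.linearIndependent_iff]
  intro c hc
  refine Fintype.linearIndependent_iff.1 he c ?_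
  refine der_eq_zero hx ?_
  rintro _ ⟨b, rfl⟩
  have h1 := congrFun hc b
  have h2 : (∑ i, c i • e i) (x b) = ∑ i, c i * e i (x b) := by
    have h3 := map_sum (Derivation.coeFnAddMonoidHom : Derivation ℂ K K →+ (K → K)) (fun i => c i • e i) Finset.univ
    have h4 := congrFun h3 (x b)
    rw [Finset.sum_apply] at h4
    exact h4
  rw [h2]
  rw [Finset.sum_apply] at h1
  exact h1

section

variable {N : ℕ} {d : ℕ}

/-- the variables `x_b`, `u_(j b)` -/
private abbrev Vr (N d : ℕ) : Type := Fin (N + 1) ⊕ Fin d × Fin (N + 1)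

/-- the polynomial `A (x, ∑ t_j u_j)` in `t` -/
private noncomputable def gp {F : Type} [CommRing F] [Algebra ℂ F] (A : MvPolynomial (Pool.Agent.GG.Ph N) ℂ) (y : Vr N d → F) :
    MvPolynomial (Fin d) F :=
  aeval (Sum.elim (fun b => C (y (Sum.inl b))) fun b => ∑ j, X j * C (y (Sum.inr (j, b)))) A

/-- the generic one -/
private theorem gp_map {F : Type} [CommRing F] [Algebra ℂ F] (A : MvPolynomial (Pool.Agent.GG.Ph N) ℂ) (y : Vr N d → F) :
    map (aeval y : MvPolynomial (Vr N d) ℂ →ₐ[ℂ] F).toRingHom (gp A (X : Vr N d → MvPolynomial (Vr N d) ℂ)) = gp A y := by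
  have h1 : map (aeval y : MvPolynomial (Vr N d) ℂ →ₐ[ℂ] F).toRingHom (gp A (X : Vr N d → MvPolynomial (Vr N d) ℂ)) =
      mapAlgHom (aeval y : MvPolynomial (Vr N d) ℂ →ₐ[ℂ] F) (gp A (X : Vr N d → MvPolynomial (Vr N d) ℂ)) := rfl
  rw [h1]
  unfold gp
  rw [← AlgHom.comp_apply, comp_aeval]
  congr 2
  funext i
  rcases i with b | b
  · simp
  · simp [map_sum]

/-- the determinant of the coefficients -/
private noncomputable def dt {J m : ℕ} (A : Fin J → MvPolynomial (Pool.Agent.GG.Ph N) ℂ) (I : Mon d m → Fin J) : MvPolynomial (Vr N d) ℂ :=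
  (Matrix.of fun α β : Mon d m => coeff β.1 (gp (A (I α)) (X : Vr N d → MvPolynomial (Vr N d) ℂ))).det

private theorem aeval_dt {J m : ℕ} (A : Fin J → MvPolynomial (Pool.Agent.GG.Ph N) ℂ) (I : Mon d m → Fin J) {F : Type} [CommRing F] [Algebra ℂ F]
    (y : Vr N d → F) : aeval y (dt A I) = (Matrix.of fun α β : Mon d m => coeff β.1 (gp (A (I α)) y)).det := by
  unfold dt
  have h1 := (aeval y : MvPolynomial (Vr N d) ℂ →ₐ[ℂ] F).toRingHom.map_det
    (Matrix.of fun α β : Mon d m => coeff β.1 (gp (A (I α)) (X : Vr N d → MvPolynomial (Vr N d) ℂ)))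
  refine h1.trans ?_
  congr 1
  ext α β
  rw [RingHom.mapMatrix_apply, Matrix.map_apply, Matrix.of_apply, Matrix.of_apply, ← gp_map (A (I α)) y, coeff_map]

private theorem eval_gp (A : MvPolynomial (Pool.Agent.GG.Ph N) ℂ) (y : Vr N d → ℂ) (t : Fin d → ℂ) :
    eval t (gp A y) = eval (Pool.Agent.GG.pt (fun b => y (Sum.inl b)) (∑ j, t j • fun b => y (Sum.inr (j, b)))) A := by
  unfold gp
  have h1 : eval t (aeval (Sum.elim (fun b => C (y (Sum.inl b))) fun b => ∑ j, X j * C (y (Sum.inr (j, b)))) A) =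
      (aeval t : MvPolynomial (Fin d) ℂ →ₐ[ℂ] ℂ) (aeval (Sum.elim (fun b => C (y (Sum.inl b))) fun b => ∑ j, X j * C (y (Sum.inr (j, b)))) A) := rfl
  have h2 : eval (Pool.Agent.GG.pt (fun b => y (Sum.inl b)) (∑ j, t j • fun b => y (Sum.inr (j, b)))) A =
      (aeval (Pool.Agent.GG.pt (fun b => y (Sum.inl b)) (∑ j, t j • fun b => y (Sum.inr (j, b)))) :
        MvPolynomial (Pool.Agent.GG.Ph N) ℂ →ₐ[ℂ] ℂ) A := rfl
  rw [h1, h2, ← AlgHom.comp_apply, comp_aeval]
  congr 2
  funext i
  rcases i with b | b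
  · simp
  · simp [Finset.sum_apply]

end

variable {N : ℕ} {P Q : Ideal (MvPolynomial (Fin (N + 1)) ℂ)} {J m : ℕ} {θ : Fin J → Pool.Agent.GG.SymSec P m}

/-- the complex points: the polynomials span if the vectors are independent -/
private theorem complex_point (hgen : Generated θ) (f : Pool.Agent.GG.Frame (m := fun _ => m) θ) {a : Fin (N + 1)} {d : ℕ} (y : Vr N d → ℂ)
    (h1 : y (Sum.inl a) = 1) (h2 : ∀ j, y (Sum.inr (j, a)) = 0) (h3 : ∀ q ∈ P, eval (fun b => y (Sum.inl b)) q = 0)
    (h4 : ∀ q ∈ P, ∀ j, ∑ i, y (Sum.inr (j, i)) * eval (fun b => y (Sum.inl b)) (pderiv i q) = 0)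
    (hu : LinearIndependent ℂ fun (j : Fin d) (b : Fin (N + 1)) => y (Sum.inr (j, b))) :
    ∃ I : Mon d m → Fin J, aeval y (dt (f.A a) I) ≠ 0 := by
  obtain ⟨x, hx⟩ : ∃ x : Fin (N + 1) → ℂ, x = fun b => y (Sum.inl b) := ⟨_, rfl⟩
  obtain ⟨u, hudef⟩ : ∃ u : Fin d → Fin (N + 1) → ℂ, u = fun j b => y (Sum.inr (j, b)) := ⟨_, rfl⟩
  have hxa : x a = 1 := by rw [hx]; exact h1
  have hua : ∀ j, u j a = 0 := fun j => by rw [hudef]; exact h2 j
  have hxc : x ∈ cone P := by
    refine ⟨fun h => ?_, fun q hq => by rw [hx]; exact h3 q hq⟩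
    rw [h] at hxa
    exact zero_ne_one hxa
  have huc : ∀ j, u j ∈ conTan P x := by
    intro j q hq
    rw [hx, hudef]
    exact h4 q hq j
  rw [← hudef] at hu
  -- dual forms
  obtain ⟨w, hw⟩ : ∃ w : Unit ⊕ Fin d → Fin (N + 1) → ℂ, w = Sum.elim (fun _ => x) u := ⟨_, rfl⟩
  have hwli : LinearIndependent ℂ w := by
    rw [Fintype.linearIndependent_iff]
    intro g hg
    rw [Fintype.sum_sum_type, hw] at hg
    simp only [Sum.elim_inl, Sum.elim_inr, Finset.univ_unique, Finset.sum_singleton] at hg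
    have h5 : g (Sum.inl default) = 0 := by
      have h6 := congrFun hg a
      rw [Pi.add_apply, Finset.sum_apply, Pi.smul_apply, hxa, smul_eq_mul, mul_one] at h6
      rw [Finset.sum_eq_zero fun j _ => by rw [Pi.smul_apply, hua, smul_zero], add_zero] at h6
      exact h6
    rw [h5, zero_smul, zero_add] at hg
    have h6 := Fintype.linearIndependent_iff.1 hu _ hg
    rintro (i | i)
    · exact h5
    · exact h6 i
  obtain ⟨g, hg⟩ := LinearMap.exists_leftInverse_of_injective (Fintype.linearCombination ℂ w)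
    (LinearMap.ker_eq_bot.2 (linearIndependent_iff_injective_fintypeLinearCombination.1 hwli))
  have hgw : ∀ i, g (w i) = Pi.single i 1 := by
    intro i
    have h5 := LinearMap.congr_fun hg (Pi.single i 1)
    rw [LinearMap.comp_apply, Fintype.linearCombination_apply_single, one_smul, LinearMap.id_apply] at h5
    exact h5
  obtain ⟨L, hL⟩ : ∃ L : Fin d → MvPolynomial (Fin (N + 1)) ℂ, L = fun j => ∑ b, C (g (Pi.single b 1) (Sum.inr j)) * X b := ⟨_, rfl⟩
  have hLe : ∀ j v, eval v (L j) = g v (Sum.inr j) := by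
    intro j v
    have h5 : g v = ∑ b, v b • g (Pi.single b 1) := lin_apply g v
    rw [hL, h5, Finset.sum_apply]
    simp only [map_sum, map_mul, eval_C, eval_X]
    refine Finset.sum_congr rfl fun b _ => ?_
    rw [Pi.smul_apply, smul_eq_mul, mul_comm]
  have hLh : ∀ j, (L j).IsHomogeneous 1 := by
    intro j
    rw [hL]
    exact IsHomogeneous.sum _ _ _ fun b _ => isHomogeneous_C_mul_X _ _
  -- the coefficients
  obtain ⟨p, hp⟩ : ∃ p : Fin J → MvPolynomial (Fin d) ℂ, p = fun k => gp (f.A a k) y := ⟨_, rfl⟩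
  have key : ∀ α : Mon d m, ∃ c : Fin J → ℂ, ∀ β : Mon d m, (if α = β then (1 : ℂ) else 0) = ∑ k, c k * coeff β.1 (p k) := by
    intro α
    have hα : (∑ j, α.1 j) = m := (Finset.mem_finsuppAntidiag.1 α.2).1
    obtain ⟨c, hc⟩ := hgen x hxc (∏ j, L j ^ α.1 j) (by
      have h5 := IsHomogeneous.prod Finset.univ (fun j => L j ^ α.1 j) (fun j => 1 * α.1 j) fun j _ => (hLh j).pow _
      simp only [one_mul] at h5
      rw [hα] at h5
      exact h5) (by
      intro v s
      rw [map_prod, map_prod]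
      refine Finset.prod_congr rfl fun j _ => ?_
      rw [map_pow, map_pow, hLe, hLe, map_add, map_smul]
      have h5 : g x = Pi.single (Sum.inl ()) 1 := by
        have h6 := hgw (Sum.inl ())
        rw [hw] at h6
        exact h6
      rw [h5]
      simp)
    refine ⟨c, fun β => ?_⟩
    have h5 : monomial α.1 (1 : ℂ) = ∑ k, C (c k) * p k := by
      refine MvPolynomial.funext fun t => ?_
      have h6 : (∑ j, t j • u j) ∈ conTan P x := Submodule.sum_mem _ fun j _ => Submodule.smul_mem _ _ (huc j)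
      have h7 := hc _ h6
      have h8 : ∀ j, g (∑ i, t i • u i) (Sum.inr j) = t j := by
        intro j
        rw [map_sum, Finset.sum_apply, Finset.sum_eq_single j]
        · have h9 := hgw (Sum.inr j)
          rw [hw, Sum.elim_inr] at h9
          rw [map_smul, h9, Pi.smul_apply, Pi.single_eq_same, smul_eq_mul, mul_one]
        · intro i _ hi
          have h9 := hgw (Sum.inr i)
          rw [hw, Sum.elim_inr] at h9
          rw [map_smul, h9, Pi.smul_apply, Pi.single_eq_of_ne (fun h => hi (Sum.inr.inj h).symm), smul_zero]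
        · intro h
          exact absurd (Finset.mem_univ j) h
      rw [map_prod] at h7
      simp only [map_pow, hLe, h8] at h7
      rw [map_sum]
      simp only [map_mul, eval_C]
      have h9 : ∀ k, eval t (p k) = (θ k).toFun x (∑ j, t j • u j) := by
        intro k
        rw [f.hA a k x hxc hxa _ h6, hp, hx, hudef]
        exact eval_gp _ _ _
      simp only [h9]
      rw [← h7, eval_monomial, one_mul, Finsupp.prod_fintype]
      intro i
      exact pow_zero _
    have h6 := congrArg (coeff β.1) h5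
    rw [coeff_monomial, coeff_sum] at h6
    simp only [coeff_C_mul] at h6
    rw [← h6]
    by_cases h : α = β
    · rw [if_pos h, if_pos (congrArg Subtype.val h)]
    · rw [if_neg h, if_neg fun h7 => h (Subtype.ext h7)]
  have hs : Submodule.span ℂ (Set.range fun (k : Fin J) (β : Mon d m) => coeff β.1 (p k)) = ⊤ := by
    rw [eq_top_iff, ← (Pi.basisFun ℂ (Mon d m)).span_eq, Submodule.span_le]
    rintro _ ⟨α, rfl⟩
    obtain ⟨c, hc⟩ := key α
    have h5 : (Pi.basisFun ℂ (Mon d m)) α = ∑ k, c k • fun β : Mon d m => coeff β.1 (p k) := by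
      funext β
      rw [Pi.basisFun_apply, Finset.sum_apply]
      simp only [Pi.smul_apply, smul_eq_mul]
      rw [← hc β, Pi.single_apply]
      exact if_congr eq_comm rfl rfl
    rw [h5]
    exact Submodule.sum_mem _ fun k _ => Submodule.smul_mem _ _ (Submodule.subset_span ⟨k, rfl⟩)
  obtain ⟨I, hI⟩ := exists_det _ hs
  refine ⟨I, ?_⟩
  rw [aeval_dt]
  rw [hp] at hI
  exact hI

theorem exists_index_psi [P.IsPrime] (hP : Homog P) (hgen : Generated θ) (f : Pool.Agent.GG.Frame (m := fun _ => m) θ) [Q.IsPrime] (hQ : Homog Q)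
    (hPQ : P ≤ Q) {a : Fin (N + 1)} (ha : X a ∉ Q) {d : ℕ} {e : Fin d → Derivation ℂ (FunField Q) (FunField Q)}
    (he : LinearIndependent (FunField Q) e) : ∃ I : Mon d m → Fin J, cdet (fun α => psi f Q a (I α) e) ≠ 0 := by
  by_contra hcon
  push Not at hcon
  have ha' : Pool.Agent.H17GT.coordFun Q a ≠ 0 := Pool.Agent.H17R.coordFun_ne_zero_iff.2 ha
  obtain ⟨y, hy⟩ : ∃ y : Vr N d → FunField Q, y = Sum.elim (fun b => ratio Q b a) fun p => e p.1 (ratio Q p.2 a) := ⟨_, rfl⟩
  have hyl : ∀ b, y (Sum.inl b) = ratio Q b a := fun b => by rw [hy]; rfl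
  have hyr : ∀ j b, y (Sum.inr (j, b)) = e j (ratio Q b a) := fun j b => by rw [hy]; rfl
  have hgp : ∀ k, gp (f.A a k) y = psi f Q a k e := by
    intro k
    unfold gp psi tv
    simp only [hyl, hyr]
  have hgen0 : ∀ q ∈ Q, aeval (fun b => ratio Q b a) q = 0 := by
    intro q hq
    rw [← sum_homogeneousComponent q, map_sum]
    refine Finset.sum_eq_zero fun n _ => ?_
    exact (Pool.Agent.H17R.gen_eq_zero_iff ha' (homogeneousComponent_isHomogeneous n q)).2 (hQ q hq n)
  have hder : ∀ (D : Derivation ℂ (FunField Q) (FunField Q)) (q : MvPolynomial (Fin (N + 1)) ℂ),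
      D (aeval (fun b => ratio Q b a) q) = ∑ i, D (ratio Q i a) * aeval (fun b => ratio Q b a) (pderiv i q) := fun D q => der_aeval D _ q
  -- the transfer
  have hmin : ∀ μ : Fin d → Fin (N + 1), (Matrix.of fun j l => e j (ratio Q (μ l) a)).det = 0 := by
    intro μ
    obtain ⟨S, hS⟩ : ∃ S : Set (MvPolynomial (Vr N d) ℂ), S = {X (Sum.inl a) - 1} ∪ (Set.range fun j : Fin d => X (Sum.inr (j, a))) ∪
        (rename Sum.inl '' (P : Set (MvPolynomial (Fin (N + 1)) ℂ))) ∪
        (⋃ j : Fin d, (fun q => ∑ i, X (Sum.inr (j, i)) * rename Sum.inl (pderiv i q)) '' (P : Set (MvPolynomial (Fin (N + 1)) ℂ))) ∪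
        Set.range fun I : Mon d m → Fin J => dt (f.A a) I := ⟨_, rfl⟩
    obtain ⟨G, hG⟩ : ∃ G : MvPolynomial (Vr N d) ℂ, G = (Matrix.of fun j l : Fin d => X (Sum.inr (j, μ l))).det := ⟨_, rfl⟩
    have hGe : ∀ {F : Type} [CommRing F] [Algebra ℂ F] (z : Vr N d → F), aeval z G = (Matrix.of fun j l : Fin d => z (Sum.inr (j, μ l))).det := by
      intro F _ _ z
      rw [hG]
      have h1 := (aeval z : MvPolynomial (Vr N d) ℂ →ₐ[ℂ] F).toRingHom.map_det (Matrix.of fun j l : Fin d => X (Sum.inr (j, μ l)))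
      refine h1.trans ?_
      congr 1
      ext j l
      rw [RingHom.mapMatrix_apply, Matrix.map_apply, Matrix.of_apply, Matrix.of_apply]
      exact aeval_X _ _
    have h1 := transfer (S := S) (G := G) (fun z hz => ?_) y (fun s hs => ?_)
    · rw [hGe] at h1
      rw [← h1]
      congr 1
      ext j l
      rw [Matrix.of_apply, Matrix.of_apply, hyr]
    · -- complex points
      by_contra hne
      rw [← coe_aeval_eq_eval] at hne
      have hne' : (Matrix.of fun j l : Fin d => z (Sum.inr (j, μ l))).det ≠ 0 := by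
        rw [← hGe]
        exact hne
      have hu : LinearIndependent ℂ fun (j : Fin d) (b : Fin (N + 1)) => z (Sum.inr (j, b)) := by
        have h2 : IsUnit (Matrix.of fun j l : Fin d => z (Sum.inr (j, μ l))) := by
          rw [Matrix.isUnit_iff_isUnit_det]
          exact isUnit_iff_ne_zero.2 hne'
        rw [← Matrix.linearIndependent_rows_iff_isUnit] at h2
        exact LinearIndependent.of_comp (LinearMap.funLeft ℂ ℂ μ) h2
      have e1 : z (Sum.inl a) = 1 := by
        have h2 := hz (X (Sum.inl a) - 1) (by rw [hS]; simp)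
        rw [map_sub, eval_X, map_one, sub_eq_zero] at h2
        exact h2
      have e2 : ∀ j, z (Sum.inr (j, a)) = 0 := by
        intro j
        have h2 := hz (X (Sum.inr (j, a))) (by
          rw [hS]
          exact Or.inl (Or.inl (Or.inl (Or.inr ⟨j, rfl⟩))))
        rw [eval_X] at h2
        exact h2
      have e3 : ∀ q ∈ P, eval (fun b => z (Sum.inl b)) q = 0 := by
        intro q hq
        have h2 := hz (rename Sum.inl q) (by
          rw [hS]
          exact Or.inl (Or.inl (Or.inr ⟨q, hq, rfl⟩)))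
        rw [eval_rename] at h2
        exact h2
      have e4 : ∀ q ∈ P, ∀ j, ∑ i, z (Sum.inr (j, i)) * eval (fun b => z (Sum.inl b)) (pderiv i q) = 0 := by
        intro q hq j
        have h2 := hz (∑ i, X (Sum.inr (j, i)) * rename Sum.inl (pderiv i q)) (by
          rw [hS]
          exact Or.inl (Or.inr (Set.mem_iUnion.2 ⟨j, q, hq, rfl⟩)))
        rw [map_sum] at h2
        simp only [map_mul, eval_X, eval_rename] at h2
        exact h2
      obtain ⟨I, hI⟩ := complex_point hgen f z e1 e2 e3 e4 hu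
      apply hI
      have h2 := hz (dt (f.A a) I) (by
        rw [hS]
        exact Or.inr ⟨I, rfl⟩)
      rw [← coe_aeval_eq_eval] at h2
      exact h2
    · -- the point of the function field
      rw [hS] at hs
      rcases hs with (((hs | hs) | hs) | hs) | hs
      · rw [Set.mem_singleton_iff] at hs
        rw [hs, map_sub, aeval_X, map_one, hyl, Pool.Agent.H17R.ratio_self ha', sub_self]
      · obtain ⟨j, rfl⟩ := hs
        rw [aeval_X, hyr, Pool.Agent.H17R.ratio_self ha', Derivation.map_one_eq_zero]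
      · obtain ⟨q, hq, rfl⟩ := hs
        rw [aeval_rename]
        have h2 : y ∘ Sum.inl = fun b => ratio Q b a := funext hyl
        rw [h2]
        exact hgen0 q (hPQ hq)
      · obtain ⟨j, q, hq, rfl⟩ := Set.mem_iUnion.1 hs
        have h2 : y ∘ Sum.inl = fun b => ratio Q b a := funext hyl
        rw [map_sum]
        simp only [map_mul, aeval_X, aeval_rename, h2, hyr]
        rw [← hder, hgen0 q (hPQ hq), map_zero]
      · obtain ⟨I, rfl⟩ := hs
        rw [aeval_dt]
        simp only [hgp]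
        have h2 := hcon I
        unfold cdet at h2
        convert h2
  -- dependence
  have hrow : LinearIndependent (FunField Q) fun (j : Fin d) (b : Fin (N + 1)) => e j (ratio Q b a) :=
    rows_li (Pool.Agent.H17R.adjoin_ratio ha') he
  obtain ⟨μ, hμ⟩ := exists_minor hrow
  exact hμ (hmin μ)

end Pool.Agent.GB

end

section

/-!
# Qup Hom: the embedding of the function fields given by a dominant regular map
-/

set_option autoImplicit false

open MvPolynomial

noncomputable section

namespace Pool.Agent.H7.Qup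

open Pool.Agent.H17 (PN VanishesAt)
open Pool.Agent.H17GT (coordFun)
open Pool.Agent.H17LG.Variety (FunField ratio)
open Pool.Agent.H62.FC (Homog)
open Pool.Agent.H17R (gen gen_eq_zero_iff ratio_self adjoin_ratio coordFun_ne_zero_iff)
open Pool.Agent.H7.Bir (exists_form aeval_comp aeval_div)

variable {N M : ℕ}

/-- A homomorphism from a function field with given values at the coordinates. -/
theorem exists_hom_val {Q : Ideal (MvPolynomial (Fin (N + 1)) ℂ)} [Q.IsPrime] {j : Fin (N + 1)} (hj : coordFun Q j ≠ 0)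
    {L : Type} [Field L] [Algebra ℂ L] {x : Fin (N + 1) → L} (hx : x j = 1)
    (h : ∀ (n : ℕ) (R : MvPolynomial (Fin (N + 1)) ℂ), R.IsHomogeneous n → (aeval x R = 0 ↔ R ∈ Q)) :
    ∃ e : FunField Q →ₐ[ℂ] L, ∀ i, e (ratio Q i j) = x i := by
  set ξ : Fin (N + 1) → FunField Q := fun i => ratio Q i j with hξ
  have hker : ∀ R : MvPolynomial (Fin (N + 1)) ℂ, aeval ξ R = 0 ↔ aeval x R = 0 := by
    intro R
    obtain ⟨D, h1⟩ := exists_form j R
    obtain ⟨R', h2, h3⟩ := h1 D le_rfl
    rw [← h3 _ ξ (ratio_self hj), ← h3 _ x hx, h D R' h2]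
    exact gen_eq_zero_iff hj h2
  set f : MvPolynomial (Fin (N + 1)) ℂ →ₐ[ℂ] (aeval ξ : MvPolynomial (Fin (N + 1)) ℂ →ₐ[ℂ] FunField Q).range :=
    (aeval ξ : MvPolynomial (Fin (N + 1)) ℂ →ₐ[ℂ] FunField Q).rangeRestrict with hf
  have hfs : Function.Surjective f := AlgHom.rangeRestrict_surjective _
  have hfv : ∀ R, ((f R : (aeval ξ : MvPolynomial (Fin (N + 1)) ℂ →ₐ[ℂ] FunField Q).range) : FunField Q) = aeval ξ R := fun R => rfl
  have hle : RingHom.ker f.toRingHom ≤ RingHom.ker (aeval x : MvPolynomial (Fin (N + 1)) ℂ →ₐ[ℂ] L).toRingHom := by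
    intro R hR
    have h1 : f R = 0 := hR
    have h2 : aeval ξ R = 0 := by
      rw [← hfv, h1]
      rfl
    exact (hker R).1 h2
  set g := AlgHom.liftOfSurjective f hfs (aeval x) hle with hg
  have hgv : ∀ R, g (f R) = aeval x R := fun R => AlgHom.liftOfSurjective_apply f hfs (aeval x) hle R
  have hgi : Function.Injective g := by
    rw [injective_iff_map_eq_zero]
    intro a ha
    obtain ⟨R, rfl⟩ := hfs a
    rw [hgv] at ha
    exact Subtype.ext ((hker R).2 ha)
  have hfr : IsFractionRing (aeval ξ : MvPolynomial (Fin (N + 1)) ℂ →ₐ[ℂ] FunField Q).range (FunField Q) := by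
    refine IsFractionRing.of_field _ _ fun z => ?_
    have hz : z ∈ IntermediateField.adjoin ℂ (Set.range ξ) := by
      rw [adjoin_ratio hj]
      trivial
    obtain ⟨r, s, hrs⟩ := (IntermediateField.mem_adjoin_range_iff ℂ ξ z).1 hz
    exact ⟨f r, f s, hrs⟩
  refine ⟨IsFractionRing.liftAlgHom hgi, fun i => ?_⟩
  rw [IsFractionRing.liftAlgHom_apply]
  have h1 : ratio Q i j = algebraMap (aeval ξ : MvPolynomial (Fin (N + 1)) ℂ →ₐ[ℂ] FunField Q).range (FunField Q) (f (X i)) := by
    change _ = aeval ξ (X i)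
    rw [aeval_X]
  rw [h1, IsFractionRing.lift_algebraMap]
  change g (f (X i)) = _
  rw [hgv, aeval_X]

end Pool.Agent.H7.Qup

end
end
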