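import Pool.Agent.H18.GGT.M25
import Pool.Agent.H18.GGT.M45
import Pool.Agent.H18.GGT.M52
import Pool.Agent.H18.GGT.M54
import Pool.Agent.H18.GGT.M55
import Pool.Agent.H18.GGT.M56
import Pool.Agent.H18.GGT.M58
import Pool.Agent.H18.GGT.M59

/-! The parts of this file: GB.Asm, GA.Lin0, GA.Det, GA.Eig, GA.Ent, GA.Trn, GA.Cnt. -/

section

/-!
# GB Asm: a tangent vector with values in a field

PROOF.  `K = FunField Q`, `a` with `X a ∉ Q`.  A nonzero `u` with `RegF z M u`, `M ≥ 1`: `Reg.reg_cdet` with `κ = 0`, `s = 1`, `l = 0` and the index of `Spn.exists_index_psi`.  `Max.exists_max`: `κ`, `l`, `s`; `d = k - κ ≥ 1`;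
`Ker.exists_frame_ker`: `e`, `h`.  `Reg.reg_cdet` for `psi` and for the products (`Prd`): the quotients of the `cdet` are killed by the `e j`; `Crm.exists_rel` twice.  `F = FractionRing (MvPolynomial (Fin d) K)`, `t_j = X j`:
`Dex.exists_der` for `e j` (`W = 0`), `Vec.exists_W`: `w_j`; `Dex.exists_der` with `δ = ∑ t_j e_j`, `W_l = - ∑ t_j w_(j l)`: `D` kills `psi i e`.  `y = tv Q a e` in `F`.
-/

set_option autoImplicit false

open MvPolynomial
open Pool.Agent.H17LG.Variety (FunField ratio IsLogGeneralType)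
open Pool.Agent.H62.FC (Homog)

namespace Pool.Agent.GB

open Pool.Agent.GG

section Field

variable {K : Type} [Field K] [Algebra ℂ K] {k d κ M l : ℕ} {ι : Type} {z : Fin k → K}

theorem Asm_first (hz : IsTranscendenceBasis ℂ z) (hk : 1 ≤ k) (hM : 1 ≤ M) (Ψ : SymFam K k k M ι)
    (hI : ∀ e : Fin k → Derivation ℂ K K, LinearIndependent K e → ∃ I : Mon k M → ι, cdet (fun α => Ψ.fn (I α) e) ≠ 0) :
    ∃ (M' : ℕ) (u : K), 1 ≤ M' ∧ RegF z M' u ∧ u ≠ 0 := by
  obtain ⟨a, ha, haw⟩ := exists_weight hk hM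
  have hφ : AlgebraicIndependent ℂ (fun i : Fin 0 => ((fun _ : Fin 1 => (1 : K)) i.succ / (fun _ : Fin 1 => (1 : K)) 0)) := by
    rw [algebraicIndependent_empty_type_iff]
    exact (algebraMap ℂ K).injective
  obtain ⟨e, h, he, hv⟩ := exists_frame_ker (d := k) (Nat.add_zero k) hz hφ
  have ε : Fin k ⊕ Fin 0 ≃ Fin k := Equiv.sumEmpty _ _
  obtain ⟨I, hI⟩ := hI e (indep_of_vol (hv ε))
  refine ⟨_, _, ?_, reg_cdet hz Ψ haw (s := fun _ => 1) (l := 0) one_ne_zero (fun _ => regF_one z) (linearIndependent_D hφ) he (hv ε) I, ?_⟩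
  · omega
  · refine mul_ne_zero (mul_ne_zero hI (pow_ne_zero _ (div_ne_zero ?_ (hv ε)))) (pow_ne_zero _ one_ne_zero)
    exact dph_ne hz (linearIndependent_D hφ) he (hv ε)

theorem Asm_rel (hz : IsTranscendenceBasis ℂ z) (hd : 1 ≤ d) (hM : 1 ≤ M) (Ψ : SymFam K k d M ι) {s : Fin (κ + 1) → K} (hs0 : s 0 ≠ 0)
    (hs : ∀ i, RegF z l (s i)) (hφ : LinearIndependent K fun i : Fin κ => KaehlerDifferential.D ℂ K (s i.succ / s 0))
    {ε : Fin d ⊕ Fin κ ≃ Fin k} {e : Fin d → Derivation ℂ K K} {h : Fin κ → Derivation ℂ K K}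
    (he : ∀ (j : Fin d) (i : Fin κ), e j (s i.succ / s 0) = 0) (hv : vol z ε e h ≠ 0)
    (hmax : ∀ (M' : ℕ) (u' v' : K), RegF z M' u' → RegF z M' v' → v' ≠ 0 →
        ∀ D : Derivation ℂ K K, (∀ i : Fin κ, D (s i.succ / s 0) = 0) → D (u' / v') = 0)
    {I : Mon d M → ι} (hI : cdet (fun α => Ψ.fn (I α) e) ≠ 0) : ∃ c : ι → Mon d M → K, Rel e (fun i => Ψ.fn i e) I c := by
  obtain ⟨a, -, haw⟩ := exists_weight hd hM
  refine exists_rel (fun i => Ψ.hom i e) hI fun I' j => ?_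
  have hw : (dph (fun i : Fin κ => s i.succ / s 0) h / vol z ε e h) ^ a ≠ 0 := pow_ne_zero _ (div_ne_zero (dph_ne hz hφ he hv) hv)
  have hs' : s 0 ^ (2 * κ * a) ≠ 0 := pow_ne_zero _ hs0
  have h1 := hmax _ _ _ (reg_cdet hz Ψ haw hs0 hs hφ he hv I') (reg_cdet hz Ψ haw hs0 hs hφ he hv I) (mul_ne_zero (mul_ne_zero hI hw) hs') (e j) (he j)
  rwa [mul_div_mul_right _ _ hs', mul_div_mul_right _ _ hw] at h1

theorem Asm_der_eq_zero {s : Set K} (hs : IntermediateField.adjoin ℂ s = ⊤) {D : Derivation ℂ K K}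
    (hD : ∀ x ∈ s, D x = 0) : D = 0 := by
  ext x
  have hx : x ∈ IntermediateField.adjoin ℂ s := by
    rw [hs]
    trivial
  rw [Derivation.coe_zero, Pi.zero_apply]
  induction hx using IntermediateField.adjoin_induction with
  | mem x hx => exact hD x hx
  | algebraMap x => exact D.map_algebraMap x
  | add x y _ _ hx hy => rw [map_add, hx, hy, add_zero]
  | inv x _ hx => rw [Derivation.leibniz_inv, hx, smul_zero]
  | mul x y _ _ hx hy => rw [Derivation.leibniz, hx, hy, smul_zero, smul_zero, add_zero]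

end Field

section Der

variable {K F : Type} [Field K] [Algebra ℂ K] [Field F] [Algebra ℂ F] [Algebra K F] [IsScalarTower ℂ K F] {d : ℕ}

/-- the chain rule for a derivation which kills the coefficients -/
private theorem Asm_chain (D : Derivation ℂ F F) (hD : ∀ f : K, D (algebraMap K F f) = 0) (t : Fin d → F) (p : MvPolynomial (Fin d) K) :
    D (aeval t p) = ∑ l, aeval t (pderiv l p) * D (t l) := by
  classical
  induction p using MvPolynomial.induction_on with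
  | C c =>
    have h1 : ∀ s : Fin d, pderiv s (C c : MvPolynomial (Fin d) K) = 0 := fun s => pderiv_C
    simp only [h1, map_zero, zero_mul, Finset.sum_const_zero]
    rw [← MvPolynomial.algebraMap_eq, AlgHom.commutes]
    exact hD c
  | add p q hp hq =>
    rw [map_add, map_add, hp, hq, ← Finset.sum_add_distrib]
    exact Finset.sum_congr rfl fun s _ => by rw [map_add, map_add, add_mul]
  | mul_X p i hp =>
    rw [map_mul, D.leibniz, hp, aeval_X, smul_eq_mul, smul_eq_mul]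
    have h1 : ∀ s, aeval t (pderiv s (p * X i)) * D (t s) =
        t i * (aeval t (pderiv s p) * D (t s)) + (if s = i then aeval t p * D (t i) else 0) := by
      intro s
      rw [Derivation.leibniz, map_add, smul_eq_mul, smul_eq_mul, map_mul, map_mul, aeval_X, pderiv_X]
      by_cases hs : s = i
      · subst hs
        rw [if_pos rfl, Pi.single_eq_same, map_one]
        ring
      · rw [if_neg hs, Pi.single_eq_of_ne (Ne.symm hs), map_zero]
        ring
    rw [Finset.sum_congr rfl fun s _ => h1 s, Finset.sum_add_distrib, ← Finset.mul_sum, Finset.sum_ite_eq' Finset.univ i, if_pos (Finset.mem_univ i)]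
    ring

private theorem Asm_sum {κ A : Type} [Fintype κ] [CommRing A] [Algebra ℂ A] {B : Type} [AddCommGroup B] [Module A B] [Module ℂ B]
    (D : κ → Derivation ℂ A B) (f : A) : (∑ j, D j) f = ∑ j, D j f := by
  have h := congrFun (map_sum (Derivation.coeFnAddMonoidHom (R := ℂ) (A := A) (M := B)) D Finset.univ) f
  rw [Finset.sum_apply] at h
  exact h

private theorem Asm_calc {A : Type} [CommRing A] {d : ℕ} (a t : Fin d → A) (w : Fin d → Fin d → A) :
    ∑ l, a l * -∑ j, t j * w j l = -∑ j, t j * ∑ l, w j l * a l := by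
  simp only [mul_neg, Finset.mul_sum, Finset.sum_neg_distrib]
  rw [Finset.sum_comm]
  congr 1
  refine Finset.sum_congr rfl fun j _ => Finset.sum_congr rfl fun l _ => ?_
  ring

end Der

section Main

variable {K : Type} [Field K] [Algebra ℂ K] {k d M : ℕ} {ι : Type} {z : Fin k → K}

/-- the derivation of the rational function field -/
theorem Asm_der (hz : IsTranscendenceBasis ℂ z) (hM : 1 ≤ M) {e : Fin d → Derivation ℂ K K} {p : ι → MvPolynomial (Fin d) K} {I : Mon d M → ι}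
    {c : ι → Mon d M → K} (h₁ : Rel e p I c) {I₂ : Mon d (M + M) → ι × ι} {c₂ : ι × ι → Mon d (M + M) → K}
    (h₂ : Rel e (fun q : ι × ι => p q.1 * p q.2) I₂ c₂) :
    ∃ D : Derivation ℂ (FractionRing (MvPolynomial (Fin d) K)) (FractionRing (MvPolynomial (Fin d) K)),
      (∀ f : K, D (algebraMap K _ f) = ∑ j, algebraMap (MvPolynomial (Fin d) K) _ (X j) * algebraMap K _ (e j f)) ∧
      ∀ i, D (algebraMap (MvPolynomial (Fin d) K) _ (p i)) = 0 := by
  set F := FractionRing (MvPolynomial (Fin d) K) with hF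
  set t : Fin d → F := fun j => algebraMap (MvPolynomial (Fin d) K) F (X j) with ht
  have ht0 : ∀ j, t j ≠ 0 := fun j => by
    rw [ht]
    exact (map_ne_zero_iff _ (IsFractionRing.injective (MvPolynomial (Fin d) K) F)).2 (X_ne_zero j)
  have hat : ∀ q : MvPolynomial (Fin d) K, aeval t q = algebraMap (MvPolynomial (Fin d) K) F q := by
    intro q
    have h := MvPolynomial.aeval_algebraMap_apply (R := K) (A := MvPolynomial (Fin d) K) (B := F) (X : Fin d → MvPolynomial (Fin d) K) q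
    rw [MvPolynomial.aeval_X_left_apply] at h
    exact h
  let δ : Fin d → Derivation ℂ K F := fun j => (Algebra.linearMap K F).compDer (e j)
  have hδ : ∀ j f, δ j f = algebraMap K F (e j f) := fun j f => rfl
  choose D₀ hD₀ hD₀t using fun j => exists_der hz (d := d) (δ j) 0
  choose w hw using fun j => exists_W hM ht0 h₁ h₂ j (D := D₀ j) (fun f => (hD₀ j f).trans (hδ j f)) fun l => by
    rw [hD₀t]
    rfl
  obtain ⟨D, hD, hDt⟩ := exists_der hz (d := d) (∑ j, t j • δ j) fun l => -∑ j, t j * w j l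
  have hD' : ∀ f : K, D (algebraMap K F f) = ∑ j, t j * algebraMap K F (e j f) := by
    intro f
    rw [hD, Asm_sum]
    exact Finset.sum_congr rfl fun j _ => by rw [Derivation.smul_apply, hδ, smul_eq_mul]
  refine ⟨D, hD', fun i => ?_⟩
  set E : Derivation ℂ F F := D - ∑ j, t j • D₀ j with hE
  have hE1 : ∀ x, E x = D x - ∑ j, t j * D₀ j x := by
    intro x
    rw [hE, Derivation.sub_apply, Asm_sum]
    rfl
  have hE2 : ∀ f : K, E (algebraMap K F f) = 0 := by
    intro f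
    rw [hE1, hD', sub_eq_zero]
    exact Finset.sum_congr rfl fun j _ => by rw [hD₀, hδ]
  have h3 := Asm_chain E hE2 t (p i)
  rw [hE1] at h3
  have h4 : ∀ l, E (t l) = -∑ j, t j * w j l := by
    intro l
    rw [hE1, hDt]
    have h5 : ∀ j, D₀ j (t l) = 0 := fun j => by
      rw [hD₀t]
      rfl
    simp only [h5, mul_zero, Finset.sum_const_zero, sub_zero]
  simp only [h4, hw] at h3
  rw [← hat]
  rw [Asm_calc (fun l => aeval t (pderiv l (p i))) t w] at h3
  linear_combination h3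

end Main

variable {N : ℕ} {P Q : Ideal (MvPolynomial (Fin (N + 1)) ℂ)} {J m : ℕ} {θ : Fin J → SymSec P m}

theorem exists_field_point [P.IsPrime] (hP : Homog P) (hm : 1 ≤ m) (hgen : Generated θ) (f : Frame (m := fun _ => m) θ) [Q.IsPrime] (hQ : Homog Q)
    (hPQ : P ≤ Q) {a : Fin (N + 1)} (ha : X a ∉ Q) {k : ℕ} (hk : 1 ≤ k) {z : Fin k → FunField Q} (hz : IsTranscendenceBasis ℂ z)
    (hn : ¬ IsLogGeneralType (K := FunField Q) (k := k) fun _ => False) :
    ∃ (F : Type) (_ : Field F) (_ : Algebra ℂ F) (D : Derivation ℂ F F) (y : Ph N → F), (∀ b, D (y (Sum.inl b)) = y (Sum.inr b)) ∧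
      (∀ l, D (aeval y (gfam f a l)) = 0) ∧ y (Sum.inl a) = 1 ∧ y (Sum.inr a) = 0 ∧ (∀ q ∈ Q, aeval y (rename Sum.inl q) = 0) ∧
      (∀ q ∈ Q, aeval y (∑ b, rename Sum.inl (pderiv b q) * X (Sum.inr b)) = 0) ∧
      (∀ (q : MvPolynomial (Fin (N + 1)) ℂ) (n : ℕ), q.IsHomogeneous n → q ∉ Q → aeval y (rename Sum.inl q) ≠ 0) ∧ ∃ b, y (Sum.inr b) ≠ 0 := by
  haveI : Algebra.EssFiniteType ℂ (FunField Q) := Pool.Agent.H17GT.essFiniteType_functionField Q
  have hac := Pool.Agent.H17R.coordFun_ne_zero_iff.2 ha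
  -- a nonzero pluricanonical form
  obtain ⟨Ψ₀, hΨ₀⟩ := exists_psiFam f hQ hPQ ha k k
  obtain ⟨M', u, hM', hu, hu0⟩ := Asm_first hz hk hm Ψ₀ fun e he => by
    simp only [hΨ₀]
    exact exists_index_psi hP hgen f hQ hPQ ha he
  obtain ⟨κ, l, s, hκ, hs0, hs, hφa, hmax⟩ := exists_max hk hz hn hM' hu hu0
  obtain ⟨d, hd⟩ : ∃ d, d + κ = k := ⟨k - κ, by omega⟩
  have hd1 : 1 ≤ d := by omega
  obtain ⟨e, h, he, hv⟩ := exists_frame_ker hd hz hφa
  have hφ := linearIndependent_D hφa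
  have ε : Fin d ⊕ Fin κ ≃ Fin k := finSumFinEquiv.trans (finCongr hd)
  obtain ⟨Ψ, hΨ⟩ := exists_psiFam f hQ hPQ ha k d
  obtain ⟨Ψ₂, hΨ₂⟩ := exists_prdFam Ψ
  have hei := indep_of_vol (hv ε)
  obtain ⟨I, hI⟩ := exists_index_psi hP hgen f hQ hPQ ha hei
  simp only [← hΨ] at hI
  obtain ⟨I₂, hI₂⟩ := exists_prd_index (fun i => Ψ.hom i e) hI
  simp only [← hΨ₂] at hI₂
  obtain ⟨c, hc⟩ := Asm_rel hz hd1 hm Ψ hs0 hs hφ he (hv ε) hmax hI
  obtain ⟨c₂, hc₂⟩ := Asm_rel hz hd1 (by omega) Ψ₂ hs0 hs hφ he (hv ε) hmax hI₂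
  simp only [hΨ₂] at hc₂
  obtain ⟨D, hD, hDp⟩ := Asm_der hz hm hc hc₂
  simp only [hΨ] at hDp
  set F := FractionRing (MvPolynomial (Fin d) (FunField Q)) with hF
  let φ : MvPolynomial (Fin d) (FunField Q) →ₐ[ℂ] F := IsScalarTower.toAlgHom ℂ _ _
  have hφv : ∀ x, φ x = algebraMap (MvPolynomial (Fin d) (FunField Q)) F x := fun _ => rfl
  obtain ⟨e1, e2, e3, e4⟩ := tv_eqs f hQ hPQ ha e
  have hy : ∀ G : MvPolynomial (Ph N) ℂ, aeval (fun s => φ (tv Q a e s)) G = φ (aeval (tv Q a e) G) := fun G =>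
    (MvPolynomial.comp_aeval_apply (tv Q a e) φ G).symm
  have hx : ∀ b, D (φ (tv Q a e (Sum.inl b))) = φ (tv Q a e (Sum.inr b)) := by
    intro b
    have h1 : φ (tv Q a e (Sum.inl b)) = algebraMap (FunField Q) F (ratio Q b a) := by
      rw [hφv, IsScalarTower.algebraMap_apply (FunField Q) (MvPolynomial (Fin d) (FunField Q)) F, MvPolynomial.algebraMap_eq]
      rfl
    rw [h1, hD]
    simp only [tv, Sum.elim_inr, map_sum, map_mul]
    refine Finset.sum_congr rfl fun j _ => ?_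
    rw [hφv, hφv, IsScalarTower.algebraMap_apply (FunField Q) (MvPolynomial (Fin d) (FunField Q)) F, MvPolynomial.algebraMap_eq]
  have hfQ : ∀ j, f.Q j ∈ P := fun j => f.span.le (Ideal.subset_span ⟨j, rfl⟩)
  have hφi : ∀ x, φ x = 0 → x = 0 := fun x hx0 => by
    rw [hφv] at hx0
    exact (map_eq_zero_iff _ (IsFractionRing.injective (MvPolynomial (Fin d) (FunField Q)) F)).1 hx0
  refine ⟨F, inferInstance, inferInstance, D, fun s => φ (tv Q a e s), hx, ?_, ?_, ?_, ?_, ?_, ?_, ?_⟩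
  · rintro ((_ | _) | ((j | j) | i))
    · rw [hy]
      simp only [gfam, Sum.elim_inl, aeval_X, e1, map_one, Derivation.map_one_eq_zero]
    · rw [hy]
      simp only [gfam, Sum.elim_inl, Sum.elim_inr, aeval_X, e2, map_zero]
    · rw [hy]
      have hj : f.Q j ∈ Q := hPQ (hfQ j)
      simp only [gfam, Sum.elim_inl, Sum.elim_inr, e3 _ hj, map_zero]
    · rw [hy]
      have hj : f.Q j ∈ Q := hPQ (hfQ j)
      simp only [gfam, Sum.elim_inl, Sum.elim_inr]
      rw [e4 _ hj, map_zero, map_zero]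
    · rw [hy]
      exact hDp i
  · simp only [e1, map_one]
  · simp only [e2, map_zero]
  · intro q hq
    rw [hy, e3 q hq, map_zero]
  · intro q hq
    rw [hy, e4 q hq, map_zero]
  · intro q n hqn hq h0
    rw [hy] at h0
    have h1 := hφi _ h0
    have h2 : aeval (tv Q a e) (rename Sum.inl q) = C (aeval (fun b => ratio Q b a) q) := by
      rw [aeval_rename, ← MvPolynomial.algebraMap_eq, ← MvPolynomial.aeval_algebraMap_apply]
      rfl
    rw [h2, C_eq_zero] at h1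
    exact hq ((Pool.Agent.H17R.gen_eq_zero_iff hac hqn).1 h1)
  · by_contra hcon
    push Not at hcon
    have h1 : ∀ b j, e j (ratio Q b a) = 0 := by
      intro b j
      have h2 := hφi _ (hcon b)
      have h3 : coeff (Finsupp.single j 1) (∑ j, (X j : MvPolynomial (Fin d) (FunField Q)) * C (e j (ratio Q b a))) = e j (ratio Q b a) := by
        rw [coeff_sum, Finset.sum_eq_single j]
        · rw [mul_comm, coeff_C_mul, coeff_X', if_pos rfl, mul_one]
        · intro i _ hi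
          rw [mul_comm, coeff_C_mul, coeff_X', if_neg fun h => hi (Finsupp.single_left_injective one_ne_zero h), mul_zero]
        · intro h
          exact absurd (Finset.mem_univ j) h
      rw [← h3]
      have h4 : ∑ j, (X j : MvPolynomial (Fin d) (FunField Q)) * C (e j (ratio Q b a)) = 0 := h2
      rw [h4, coeff_zero]
    refine hei.ne_zero ⟨0, by omega⟩ (Asm_der_eq_zero (Pool.Agent.H17R.adjoin_ratio hac) ?_)
    rintro _ ⟨b, rfl⟩
    exact h1 b _

end Pool.Agent.GB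

end

section

/-!
# GA Lin0: the linear differential equation of the variations, near every point

Near `z₁` write `x' = (z - z₁) ^ p h`, `h (z₁) ≠ 0`, `x = xb F b`; `exists_row` at `(x (z₁), h (z₁))`; `∂_v G_l (x, x') = (z - z₁) ^ (p (e_l - 1)) ∂_v G_l (x, h)`,
`∂_x G_l (x, x') = (z - z₁) ^ (p e_l) ∂_x G_l (x, h)` by homogeneity; divide and solve for `V'`.
-/

set_option autoImplicit false

open MvPolynomial Topology Filter Metric
open Pool.Agent.H13.SM (conTan cone)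
open Pool.Agent.H62.FC (Homog)
open Pool.Agent.GG

namespace Pool.Agent.GA

variable {N : ℕ} {P : Ideal (MvPolynomial (Fin (N + 1)) ℂ)} {J : ℕ} {m : Fin J → ℕ} {θ : ∀ k, SymSec P (m k)} {F : ℂ → Fin (N + 1) → ℂ} {U : Set ℂ}

private theorem Lin0_eval {y : ℂ → Ph N → ℂ} {t : ℂ} (hy : AnalyticAt ℂ y t) (g : MvPolynomial (Ph N) ℂ) :
    AnalyticAt ℂ (fun s => eval (y s) g) t :=
  AnalyticAt.comp (g := fun y : Ph N → ℂ => eval y g) (f := y) (AnalyticOnNhd.eval_mvPolynomial g (y t) (Set.mem_univ _)) hy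

/-- the values of a polynomial which is homogeneous of degree `n` in `v` -/
theorem eval_smul_hom {A : MvPolynomial (Ph N) ℂ} {n : ℕ} (hA : IsWeightedHomogeneous (wv N) A n) (x v : Fin (N + 1) → ℂ) (t : ℂ) :
    eval (pt x (t • v)) A = t ^ n * eval (pt x v) A := by
  rw [eval_eq', eval_eq', Finset.mul_sum]
  refine Finset.sum_congr rfl fun d hd => ?_
  rw [prod_pt_smul, hA (mem_support_iff.1 hd)]
  ring

theorem hom_rename (Q : MvPolynomial (Fin (N + 1)) ℂ) : IsWeightedHomogeneous (wv N) (rename Sum.inl Q : MvPolynomial (Ph N) ℂ) 0 := by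
  classical
  intro d hd
  obtain ⟨u, rfl, -⟩ := coeff_rename_ne_zero _ _ _ hd
  rw [weight_wv]
  refine Finset.sum_eq_zero fun b _ => ?_
  exact Finsupp.mapDomain_of_notMem_range _ _ (by simp)

/-- the functions of the family are homogeneous in `v` -/
theorem gfam_hom {f : Frame θ} (hf : HomFr f) (b : Fin (N + 1)) (l : (Unit ⊕ Unit) ⊕ (Fin f.q ⊕ Fin f.q) ⊕ Fin J) :
    ∃ e, IsWeightedHomogeneous (wv N) (gfam f b l) e := by
  rcases l with (l | l) | (j | j) | k
  · exact ⟨_, isWeightedHomogeneous_X ℂ (wv N) (Sum.inl b)⟩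
  · exact ⟨_, isWeightedHomogeneous_X ℂ (wv N) (Sum.inr b)⟩
  · exact ⟨0, hom_rename _⟩
  · refine ⟨0 + 1, ?_⟩
    show IsWeightedHomogeneous (wv N) (∑ b, rename Sum.inl (pderiv b (f.Q j)) * X (Sum.inr b)) (0 + 1)
    refine (weightedHomogeneousSubmodule ℂ (wv N) (0 + 1)).sum_mem fun c _ => ?_
    exact (hom_rename (pderiv c (f.Q j))).mul (isWeightedHomogeneous_X ℂ (wv N) (Sum.inr c))
  · exact ⟨m k, hf b k⟩

/-- divide the linearised equation by the power of `t` -/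
theorem lin_row {G : MvPolynomial (Ph N) ℂ} {e : ℕ} (hG : IsWeightedHomogeneous (wv N) G e) {x h V V' : Fin (N + 1) → ℂ} {t : ℂ} (ht : t ≠ 0)
    (hz : ∑ s, eval (pt x (t • h)) (pderiv s G) * pt V V' s = 0) :
    t * ∑ c, eval (pt x h) (pderiv (Sum.inl c) G) * V c + ∑ c, eval (pt x h) (pderiv (Sum.inr c) G) * V' c = 0 := by
  classical
  rw [Fintype.sum_sum_type] at hz
  have h1 : ∀ c, eval (pt x (t • h)) (pderiv (Sum.inl c) G) = t ^ e * eval (pt x h) (pderiv (Sum.inl c) G) := fun c =>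
    eval_smul_hom (hG.pderiv (n' := e) (by simp)) x h t
  simp only [h1, Sum.elim_inl, Sum.elim_inr] at hz
  rcases e with _ | e
  · have h2 : ∀ c : Fin (N + 1), pderiv (Sum.inr c : Ph N) G = 0 := by
      intro c
      apply pderiv_eq_zero_of_notMem_vars
      intro hc
      obtain ⟨d, hd, hdc⟩ := (mem_vars_iff_mem_support _).1 hc
      have h3 := hG (mem_support_iff.1 hd)
      rw [weight_wv, Finset.sum_eq_zero_iff] at h3
      exact (Finsupp.mem_support_iff.1 hdc) (h3 c (Finset.mem_univ c))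
    simp only [h2, map_zero, zero_mul, Finset.sum_const_zero, add_zero, pow_zero, one_mul] at hz ⊢
    rw [hz, mul_zero]
  · have h2 : ∀ c, eval (pt x (t • h)) (pderiv (Sum.inr c) G) = t ^ e * eval (pt x h) (pderiv (Sum.inr c) G) := fun c =>
      eval_smul_hom (hG.pderiv (n' := e) (by simp)) x h t
    simp only [h2] at hz
    have h3 : t ^ e * (t * ∑ c, eval (pt x h) (pderiv (Sum.inl c) G) * V c + ∑ c, eval (pt x h) (pderiv (Sum.inr c) G) * V' c) = 0 := by
      rw [← hz, mul_add, Finset.mul_sum, Finset.mul_sum, Finset.mul_sum]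
      congr 1
      · exact Finset.sum_congr rfl fun c _ => by ring
      · exact Finset.sum_congr rfl fun c _ => by ring
    exact (mul_eq_zero.1 h3).resolve_left (pow_ne_zero _ ht)

/-- solve for `V'` -/
theorem lin_solve {ι : Type} {G : ι → MvPolynomial (Ph N) ℂ} {I : Fin (N + 1) → ι} {y : Ph N → ℂ} (hy : eval y (vdet G I) ≠ 0) {V V' : Fin (N + 1) → ℂ} {t : ℂ}
    (h : ∀ l, t * ∑ c, eval y (pderiv (Sum.inl c) (G (I l))) * V c + ∑ c, eval y (pderiv (Sum.inr c) (G (I l))) * V' c = 0) (i : Fin (N + 1)) :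
    V' i = ∑ j, (-t * (eval y (vdet G I))⁻¹ * eval y (∑ k, (vmat G I).adjugate i k * pderiv (Sum.inl j) (G (I k)))) * V j := by
  set M : Matrix (Fin (N + 1)) (Fin (N + 1)) ℂ := (vmat G I).map (eval y) with hM
  have h1 : M.mulVec V' = fun l => -(t * ∑ c, eval y (pderiv (Sum.inl c) (G (I l))) * V c) := by
    funext l
    have h2 := h l
    have h3 : M.mulVec V' l = ∑ c, eval y (pderiv (Sum.inr c) (G (I l))) * V' c := rfl
    rw [h3]
    linear_combination h2
  have hdet : M.det = eval y (vdet G I) := by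
    rw [hM, vdet, RingHom.map_det]
    rfl
  have hadj : ∀ k, M.adjugate i k = eval y ((vmat G I).adjugate i k) := by
    intro k
    have h3 : M.adjugate = (vmat G I).adjugate.map (eval y) := by
      rw [hM]
      exact (RingHom.map_adjugate (eval y) (vmat G I)).symm
    rw [h3]
    rfl
  have h4 : M.adjugate.mulVec (M.mulVec V') = M.det • V' := by
    rw [Matrix.mulVec_mulVec, Matrix.adjugate_mul, Matrix.smul_mulVec, Matrix.one_mulVec]
  have h5 := congrFun h4 i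
  rw [h1, Pi.smul_apply, smul_eq_mul, hdet] at h5
  have h6 : V' i = (eval y (vdet G I))⁻¹ * (eval y (vdet G I) * V' i) := by
    rw [← mul_assoc, inv_mul_cancel₀ hy, one_mul]
  rw [h6, ← h5]
  show (eval y (vdet G I))⁻¹ * ∑ k, M.adjugate i k * -(t * ∑ c, eval y (pderiv (Sum.inl c) (G (I k))) * V c) = _
  simp only [hadj, map_sum, map_mul, Finset.mul_sum, Finset.sum_mul, mul_neg, Finset.sum_neg_distrib]
  rw [Finset.sum_comm, ← Finset.sum_neg_distrib]
  refine Finset.sum_congr rfl fun j _ => ?_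
  rw [← Finset.sum_neg_distrib]
  exact Finset.sum_congr rfl fun k _ => by ring

/-- the curve is not constant near any point -/
theorem deriv_xb_ne (hF : IsCurve P F U) {z₁ : ℂ} (hz : z₁ ∈ U) {b : Fin (N + 1)} (hb : F z₁ b ≠ 0) : ¬ ∀ᶠ w in 𝓝 z₁, deriv (xb F b) w = 0 := by
  intro h
  have hFa : ∀ w ∈ U, AnalyticAt ℂ (fun w => F w b) w := fun w hw => (analyticAt_pi_iff.mp (hF.an w hw)) b
  have hbn : ∀ᶠ w in 𝓝 z₁, F w b ≠ 0 := (hFa z₁ hz).continuousAt.eventually_ne hb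
  obtain ⟨ρ, hρ, hB⟩ := Metric.eventually_nhds_iff_ball.1 (h.and (hbn.and (hF.isOpen.mem_nhds hz)))
  have hxa : ∀ w ∈ ball z₁ ρ, AnalyticAt ℂ (xb F b) w := fun w hw =>
    ((hFa w (hB w hw).2.2).inv (hB w hw).2.1).smul (hF.an w (hB w hw).2.2)
  set c := xb F b z₁ with hc
  have h1 : ∀ w ∈ ball z₁ ρ, xb F b w = c := fun w hw =>
    isOpen_ball.is_const_of_deriv_eq_zero (convex_ball z₁ ρ).isPreconnected (fun w hw => (hxa w hw).differentiableAt.differentiableWithinAt)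
      (fun w hw => (hB w hw).1) hw (mem_ball_self hρ)
  have h2 : Set.EqOn F (fun w => F w b • c) U := by
    have hF1 : AnalyticOnNhd ℂ F U := fun w hw => hF.an w hw
    have hF2 : AnalyticOnNhd ℂ (fun w => F w b • c) U := fun w hw => (hFa w hw).smul analyticAt_const
    refine hF1.eqOn_of_preconnected_of_eventuallyEq hF2 hF.conn hz ?_
    filter_upwards [ball_mem_nhds z₁ hρ] with w hw
    rw [← h1 w hw]
    show F w = F w b • (F w b)⁻¹ • F w
    rw [smul_smul, mul_inv_cancel₀ (hB w hw).2.1, one_smul]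
  obtain ⟨w, hw, hne⟩ := hF.ne
  apply hne
  have h3 : F =ᶠ[𝓝 w] fun w => F w b • c := by
    filter_upwards [hF.isOpen.mem_nhds hw] with w' hw'
    exact h2 hw'
  have h4 : deriv F w = deriv (fun w => F w b) w • c := by
    rw [h3.deriv_eq]
    exact deriv_smul_const (hFa w hw).differentiableAt c
  have h5 : F w b ≠ 0 := by
    intro h6
    have h7 := h2 hw
    simp only [h6, zero_smul] at h7
    exact (hF.mem w hw).1 h7
  rw [h4, Submodule.mem_span_singleton]
  refine ⟨deriv (fun w => F w b) w * (F w b)⁻¹, ?_⟩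
  have h7 : F w = F w b • c := h2 hw
  calc (deriv (fun w => F w b) w * (F w b)⁻¹) • F w = (deriv (fun w => F w b) w * (F w b)⁻¹) • (F w b • c) := congrArg _ h7
    _ = deriv (fun w => F w b) w • c := by rw [smul_smul, mul_assoc, inv_mul_cancel₀ h5, mul_one]

/-- the matrix with coefficients `β` as a continuous linear map -/
noncomputable def linMap (β : Fin (N + 1) → Fin (N + 1) → ℂ) : (Fin (N + 1) → ℂ) →L[ℂ] (Fin (N + 1) → ℂ) :=
  ∑ i, ∑ j, β i j • ((ContinuousLinearMap.proj (R := ℂ) (φ := fun _ : Fin (N + 1) => ℂ) j).smulRight (Pi.single i (1 : ℂ)))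

theorem linMap_apply (β : Fin (N + 1) → Fin (N + 1) → ℂ) (V : Fin (N + 1) → ℂ) (i : Fin (N + 1)) : linMap β V i = ∑ j, β i j * V j := by
  classical
  rw [linMap]
  simp only [sum_apply, smul_apply, ContinuousLinearMap.smulRight_apply, ContinuousLinearMap.proj_apply, Finset.sum_apply,
    Pi.smul_apply, smul_eq_mul]
  rw [Finset.sum_eq_single i]
  · refine Finset.sum_congr rfl fun j _ => ?_
    rw [Pi.single_eq_same, mul_one]
  · intro k _ hk
    refine Finset.sum_eq_zero fun j _ => ?_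
    rw [Pi.single_eq_of_ne hk.symm, mul_zero, mul_zero]
  · intro h
    exact absurd (Finset.mem_univ i) h

theorem analyticAt_linMap {β : ℂ → Fin (N + 1) → Fin (N + 1) → ℂ} {w : ℂ} (hβ : ∀ i j, AnalyticAt ℂ (fun w => β w i j) w) :
    AnalyticAt ℂ (fun w => linMap (β w)) w := by
  unfold linMap
  refine Finset.analyticAt_fun_sum _ fun i _ => Finset.analyticAt_fun_sum _ fun j _ => ?_
  exact (hβ i j).smul analyticAt_const

/-- **Module Lin0.** -/
theorem exists_linODE (hP : Homog P) (hθ : Polar θ) (hm : ∀ k, 1 ≤ m k) (f : Frame θ) (hf : HomFr f) (hF : IsCurve P F U) {z₁ : ℂ} (hz : z₁ ∈ U)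
    {b : Fin (N + 1)} (hb : F z₁ b ≠ 0) :
    ∃ ρ > 0, ball z₁ ρ ⊆ U ∧ (∀ w ∈ ball z₁ ρ, F w b ≠ 0) ∧ ∃ B : ℂ → (Fin (N + 1) → ℂ) →L[ℂ] (Fin (N + 1) → ℂ), (∀ w ∈ ball z₁ ρ, AnalyticAt ℂ B w) ∧
      ∀ z₂ ∈ ball z₁ ρ, ∀ V : ℂ → Fin (N + 1) → ℂ, AnalyticAt ℂ V z₂ → (∀ᶠ w in 𝓝 z₂, ∀ l, lhs (gfam f b l) (xb F b) V w = 0) →
        ∀ᶠ w in 𝓝 z₂, deriv V w = B w (V w) := by
  have hFa : ∀ w ∈ U, AnalyticAt ℂ (fun w => F w b) w := fun w hw => (analyticAt_pi_iff.mp (hF.an w hw)) b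
  have hbn : ∀ᶠ w in 𝓝 z₁, F w b ≠ 0 := (hFa z₁ hz).continuousAt.eventually_ne hb
  have hxa : ∀ w ∈ U, F w b ≠ 0 → AnalyticAt ℂ (xb F b) w := fun w hw hw' => ((hFa w hw).inv hw').smul (hF.an w hw)
  have hxc : ∀ w ∈ U, F w b ≠ 0 → xb F b w ∈ cone P ∧ xb F b w b = 1 := by
    intro w hw hw'
    refine ⟨Pool.Agent.AD.G.cone_smulC hP (hF.mem w hw) (inv_ne_zero hw'), ?_⟩
    show (F w b)⁻¹ * F w b = 1
    exact inv_mul_cancel₀ hw'
  obtain ⟨p, h, hha, hh0, hhx⟩ := ((hxa z₁ hz hb).deriv.exists_eventuallyEq_pow_smul_nonzero_iff).2 (deriv_xb_ne hF hz hb)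
  have hev : ∀ᶠ w in 𝓝 z₁, w ∈ U ∧ F w b ≠ 0 := (hF.isOpen.eventually_mem hz).and hbn
  have hdx : ∀ᶠ w in 𝓝 z₁, deriv (xb F b) w ∈ conTan P (xb F b w) ∧ deriv (xb F b) w b = 0 := by
    filter_upwards [hev.eventually_nhds] with w hw
    have h1 := hw.self_of_nhds
    have h2 := hxa w h1.1 h1.2
    refine ⟨cst_deriv_mem h2.differentiableAt (hw.mono fun w' hw' => (hxc w' hw'.1 hw'.2).1), ?_⟩
    have h3 : (fun w => xb F b w b) =ᶠ[𝓝 w] fun _ => (1 : ℂ) := hw.mono fun w' hw' => (hxc w' hw'.1 hw'.2).2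
    have h4 : HasDerivAt (fun w => xb F b w b) (deriv (xb F b) w b) w := (hasDerivAt_pi.1 h2.differentiableAt.hasDerivAt) b
    rw [← h4.deriv, h3.deriv_eq, deriv_const]
  have hnz : ∀ᶠ w in 𝓝[≠] z₁, (w - z₁) ^ p ≠ 0 := by
    filter_upwards [self_mem_nhdsWithin] with w hw
    exact pow_ne_zero _ (sub_ne_zero.2 hw)
  have hhT : h z₁ ∈ conTan P (xb F b z₁) := by
    intro Q hQ
    have h1 : ContinuousAt (fun w => ∑ i, h w i * eval (xb F b w) (pderiv i Q)) z₁ := by
      refine tendsto_finsetSum _ fun i _ => ?_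
      refine ((continuousAt_pi.1 hha.continuousAt) i).mul ?_
      exact ContinuousAt.comp (g := fun y : Fin (N + 1) → ℂ => eval y (pderiv i Q)) (MvPolynomial.continuous_eval _).continuousAt (hxa z₁ hz hb).continuousAt
    have h2 : Tendsto (fun w => ∑ i, h w i * eval (xb F b w) (pderiv i Q)) (𝓝[≠] z₁) (𝓝 0) := by
      refine tendsto_const_nhds.congr' ?_
      filter_upwards [hnz, hdx.filter_mono nhdsWithin_le_nhds, hhx.filter_mono nhdsWithin_le_nhds] with w hw hw' hw''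
      have h3 := hw'.1 Q hQ
      rw [hw''] at h3
      simp only [Pi.smul_apply, smul_eq_mul, mul_assoc, ← Finset.mul_sum] at h3
      exact ((mul_eq_zero.1 h3).resolve_left hw).symm
    exact tendsto_nhds_unique (h1.tendsto.mono_left nhdsWithin_le_nhds) h2
  have hhb : h z₁ b = 0 := by
    have h1 : ContinuousAt (fun w => h w b) z₁ := (continuousAt_pi.1 hha.continuousAt) b
    have h2 : Tendsto (fun w => h w b) (𝓝[≠] z₁) (𝓝 0) := by
      refine tendsto_const_nhds.congr' ?_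
      filter_upwards [hnz, hdx.filter_mono nhdsWithin_le_nhds, hhx.filter_mono nhdsWithin_le_nhds] with w hw hw' hw''
      have h3 := hw'.2
      rw [hw''] at h3
      simp only [Pi.smul_apply, smul_eq_mul] at h3
      exact ((mul_eq_zero.1 h3).resolve_left hw).symm
    exact tendsto_nhds_unique (h1.tendsto.mono_left nhdsWithin_le_nhds) h2
  obtain ⟨I, hI⟩ := exists_row hθ f (a := b) (c := fun k => (θ k).toFun (xb F b z₁) (h z₁)) (x := xb F b z₁) (v := h z₁)
    ⟨(hxc z₁ hz hb).1, (hxc z₁ hz hb).2, hhT, hhb, fun k => rfl⟩ hh0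
  set y : ℂ → Ph N → ℂ := fun w => pt (xb F b w) (h w) with hy
  have hya : ∀ w, AnalyticAt ℂ (xb F b) w → AnalyticAt ℂ h w → AnalyticAt ℂ y w := by
    intro w h1 h2
    rw [analyticAt_pi_iff]
    rintro (i | i)
    · exact (analyticAt_pi_iff.mp h1) i
    · exact (analyticAt_pi_iff.mp h2) i
  have hdet : ∀ᶠ w in 𝓝 z₁, eval (y w) (vdet (gfam f b) I) ≠ 0 :=
    (Lin0_eval (hya z₁ (hxa z₁ hz hb) hha) (vdet (gfam f b) I)).continuousAt.eventually_ne hI
  obtain ⟨ρ, hρ, hB⟩ := Metric.eventually_nhds_iff_ball.1 (hev.and (hha.eventually_analyticAt.and (hdet.and hhx)))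
  have hy' : ∀ w ∈ ball z₁ ρ, AnalyticAt ℂ y w := fun w hw => hya w (hxa w (hB w hw).1.1 (hB w hw).1.2) (hB w hw).2.1
  set β : ℂ → Fin (N + 1) → Fin (N + 1) → ℂ := fun w i j =>
    -(w - z₁) ^ p * (eval (y w) (vdet (gfam f b) I))⁻¹ * eval (y w) (∑ k, (vmat (gfam f b) I).adjugate i k * pderiv (Sum.inl j) (gfam f b (I k))) with hβ
  have hβa : ∀ w ∈ ball z₁ ρ, AnalyticAt ℂ (fun w => linMap (β w)) w := by
    intro w hw
    refine analyticAt_linMap fun i j => ?_
    have h1 : AnalyticAt ℂ (fun w : ℂ => -(w - z₁) ^ p) w := ((analyticAt_id.sub analyticAt_const).pow p).neg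
    exact (h1.mul ((Lin0_eval (hy' w hw) _).inv (hB w hw).2.2.1)).mul (Lin0_eval (hy' w hw) _)
  refine ⟨ρ, hρ, fun w hw => (hB w hw).1.1, fun w hw => (hB w hw).1.2, fun w => linMap (β w), hβa, fun z₂ hz₂ V hV hl => ?_⟩
  have hcont : ContinuousAt (deriv V) z₂ := hV.deriv.continuousAt
  have hcont' : ContinuousAt (fun w => linMap (β w) (V w)) z₂ := (hβa z₂ hz₂).continuousAt.clm_apply hV.continuousAt
  have hne : ∀ᶠ w in 𝓝[≠] z₂, w ≠ z₁ := by
    rcases eq_or_ne z₂ z₁ with h1 | h1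
    · rw [h1]
      exact self_mem_nhdsWithin
    · exact (continuousAt_id.eventually_ne h1).filter_mono nhdsWithin_le_nhds
  have key : ∀ᶠ w in 𝓝[≠] z₂, deriv V w = linMap (β w) (V w) := by
    filter_upwards [hne, (isOpen_ball.eventually_mem hz₂).filter_mono nhdsWithin_le_nhds, hl.filter_mono nhdsWithin_le_nhds] with w hw hwB hwl
    have ht : (w - z₁) ^ p ≠ 0 := pow_ne_zero _ (sub_ne_zero.2 hw)
    have h1 : ∀ l, (w - z₁) ^ p * ∑ c, eval (y w) (pderiv (Sum.inl c) (gfam f b (I l))) * V w c +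
        ∑ c, eval (y w) (pderiv (Sum.inr c) (gfam f b (I l))) * deriv V w c = 0 := by
      intro l
      obtain ⟨e, he⟩ := gfam_hom hf b (I l)
      refine lin_row he ht ?_
      have h2 := hwl (I l)
      rw [lhs, (hB w hwB).2.2.2] at h2
      exact h2
    funext i
    rw [linMap_apply, lin_solve (hB w hwB).2.2.1 h1 i]
  exact (hcont.eventuallyEq_nhds_iff_eventuallyEq_nhdsNE hcont').1 key

end Pool.Agent.GA

end

section

/-!
# GA Det: a variation field is determined by its value at one point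
-/

set_option autoImplicit false

open MvPolynomial Topology Filter Metric
open Pool.Agent.H13.SM (conTan cone)
open Pool.Agent.H62.FC (Homog)
open Pool.Agent.GG

noncomputable section

namespace Pool.Agent.GA

variable {N : ℕ} {P : Ideal (MvPolynomial (Fin (N + 1)) ℂ)} {J : ℕ} {m : Fin J → ℕ} {θ : ∀ k, SymSec P (m k)}
  {F : ℂ → Fin (N + 1) → ℂ} {U : Set ℂ} {Z : ℂ → Fin (N + 1) × Fin (N + 1) → ℂ}

/-- MODULE Det: a variation field is determined by its value at one point (`exists_linODE`, uniqueness, identity theorem) -/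
theorem isVar_zero (hP : Homog P) (hθ : Polar θ) (hm : ∀ k, 1 ≤ m k) (f : Frame θ) (hf : HomFr f) (hF : IsCurve P F U) (hZ : ∀ w ∈ U, IsVar f F Z w) {w₀ : ℂ} (hw : w₀ ∈ U)
    (h0 : Z w₀ = 0) : ∀ w ∈ U, Z w = 0 := by
  have h1 : F w₀ ≠ 0 := (hF.mem w₀ hw).1
  obtain ⟨b, hb⟩ := Function.ne_iff.1 h1
  exact isVar_zero_of_lin f hF hZ hw h0 hb (exists_linODE hP hθ hm f hf hF hw hb)

end Pool.Agent.GA

end
end

section

/-!
# GA Eig: a variation field which the shift by the period multiplies by a constant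

The variation fields along the periodic curve `F` on the half-plane which come from derivations over `OO` near `w₀` are a linear space, invariant under the
shift by the period (`relX_transport`), and are determined by their value at `w₀` (`isVar_zero`).  So there is an eigenvector (`exists_eig`).
-/

set_option autoImplicit false

open MvPolynomial Topology Filter Metric
open Pool.Agent.H13.SM (conTan cone)
open Pool.Agent.H62.FC (Homog)
open Pool.Agent.GG

namespace Pool.Agent.GA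

variable {N : ℕ} {P : Ideal (MvPolynomial (Fin (N + 1)) ℂ)} {J : ℕ} {m : Fin J → ℕ} {θ : ∀ k, SymSec P (m k)} {F : ℂ → Fin (N + 1) → ℂ}
  {OO : Subalgebra ℂ (ℂ → ℂ)}

theorem HP_isOpen : IsOpen HP := isOpen_lt continuous_const Complex.continuous_re

theorem HP_per (w : ℂ) : w + per ∈ HP ↔ w ∈ HP := by
  have h : (w + per).re = w.re := by simp [per]
  show 0 < (w + per).re ↔ 0 < w.re
  rw [h]

theorem per_ne_zero : per ≠ 0 := by
  simp [per, Real.pi_ne_zero]

/-! ## the linear structure -/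

private theorem Eig_vb_an {Z : ℂ → Fin (N + 1) × Fin (N + 1) → ℂ} {w : ℂ} (hF : AnalyticAt ℂ F w) (hZ : AnalyticAt ℂ Z w) {b : Fin (N + 1)}
    (hb : F w b ≠ 0) : AnalyticAt ℂ (Vb F Z b) w := by
  rw [analyticAt_pi_iff]
  intro j
  exact ((analyticAt_pi_iff.1 hZ) (b, j)).div (((analyticAt_pi_iff.1 hF) b).pow 2) (pow_ne_zero 2 hb)

private theorem Eig_vb_add (Z Z' : ℂ → Fin (N + 1) × Fin (N + 1) → ℂ) (b : Fin (N + 1)) : Vb F (Z + Z') b = Vb F Z b + Vb F Z' b := by
  funext w j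
  show (Z w (b, j) + Z' w (b, j)) / F w b ^ 2 = Z w (b, j) / F w b ^ 2 + Z' w (b, j) / F w b ^ 2
  rw [add_div]

private theorem Eig_vb_smul (c : ℂ) (Z : ℂ → Fin (N + 1) × Fin (N + 1) → ℂ) (b : Fin (N + 1)) : Vb F (c • Z) b = c • Vb F Z b := by
  funext w j
  show (c * Z w (b, j)) / F w b ^ 2 = c * (Z w (b, j) / F w b ^ 2)
  rw [mul_div_assoc]

private theorem Eig_lhs_add {G : MvPolynomial (Ph N) ℂ} {x V V' : ℂ → Fin (N + 1) → ℂ} {w : ℂ} (hV : DifferentiableAt ℂ V w) (hV' : DifferentiableAt ℂ V' w) :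
    lhs G x (V + V') w = lhs G x V w + lhs G x V' w := by
  unfold lhs
  rw [← Finset.sum_add_distrib]
  refine Finset.sum_congr rfl fun s _ => ?_
  rw [← mul_add]
  congr 1
  have hd : deriv (V + V') w = deriv V w + deriv V' w := deriv_add hV hV'
  cases s with
  | inl b => rfl
  | inr b =>
    show deriv (V + V') w b = deriv V w b + deriv V' w b
    rw [hd]
    rfl

private theorem Eig_lhs_smul {G : MvPolynomial (Ph N) ℂ} {x V : ℂ → Fin (N + 1) → ℂ} {w : ℂ} (c : ℂ) (hV : DifferentiableAt ℂ V w) :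
    lhs G x (c • V) w = c * lhs G x V w := by
  unfold lhs
  rw [Finset.mul_sum]
  refine Finset.sum_congr rfl fun s _ => ?_
  rw [mul_left_comm]
  congr 1
  have hd : deriv (c • V) w = c • deriv V w := deriv_const_smul c hV
  cases s with
  | inl b => rfl
  | inr b =>
    show deriv (c • V) w b = c * deriv V w b
    rw [hd]
    rfl

private theorem Eig_zero (f : Frame θ) (z : ℂ) : IsVar f F (0 : ℂ → Fin (N + 1) × Fin (N + 1) → ℂ) z := by
  have h0 : ∀ b, Vb F (0 : ℂ → Fin (N + 1) × Fin (N + 1) → ℂ) b = 0 := by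
    intro b
    funext w j
    show (0 : ℂ) / F w b ^ 2 = 0
    rw [zero_div]
  refine ⟨analyticAt_const, Eventually.of_forall fun w b hb => ⟨fun i j => ?_, fun l => ?_⟩⟩
  · rw [h0]
    show (0 : ℂ) = F w i * F w b * 0 - F w j * F w b * 0
    ring
  · rw [h0]
    unfold lhs
    refine Finset.sum_eq_zero fun s _ => ?_
    have hd : deriv (0 : ℂ → Fin (N + 1) → ℂ) w = 0 := deriv_const w (0 : Fin (N + 1) → ℂ)
    cases s with
    | inl b => simp
    | inr b =>
      show _ * deriv (0 : ℂ → Fin (N + 1) → ℂ) w b = 0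
      rw [hd]
      simp

private theorem Eig_add {f : Frame θ} {Z Z' : ℂ → Fin (N + 1) × Fin (N + 1) → ℂ} {z : ℂ} (hF : AnalyticAt ℂ F z) (h : IsVar f F Z z) (h' : IsVar f F Z' z) :
    IsVar f F (Z + Z') z := by
  refine ⟨h.1.add h'.1, ?_⟩
  filter_upwards [h.2, h'.2, hF.eventually_analyticAt, h.1.eventually_analyticAt, h'.1.eventually_analyticAt] with w e1 e2 a1 a2 a3
  intro b hb
  obtain ⟨p1, q1⟩ := e1 b hb
  obtain ⟨p2, q2⟩ := e2 b hb
  refine ⟨fun i j => ?_, fun l => ?_⟩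
  · rw [Eig_vb_add]
    show Z w (i, j) + Z' w (i, j) = F w i * F w b * (Vb F Z b w j + Vb F Z' b w j) - F w j * F w b * (Vb F Z b w i + Vb F Z' b w i)
    rw [p1 i j, p2 i j]
    ring
  · rw [Eig_vb_add, Eig_lhs_add (Eig_vb_an a1 a2 hb).differentiableAt (Eig_vb_an a1 a3 hb).differentiableAt, q1 l, q2 l, add_zero]

private theorem Eig_smul {f : Frame θ} {Z : ℂ → Fin (N + 1) × Fin (N + 1) → ℂ} {z : ℂ} (hF : AnalyticAt ℂ F z) (c : ℂ) (h : IsVar f F Z z) :
    IsVar f F (c • Z) z := by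
  refine ⟨analyticAt_const.smul h.1, ?_⟩
  filter_upwards [h.2, hF.eventually_analyticAt, h.1.eventually_analyticAt] with w e1 a1 a2
  intro b hb
  obtain ⟨p1, q1⟩ := e1 b hb
  refine ⟨fun i j => ?_, fun l => ?_⟩
  · rw [Eig_vb_smul]
    show c * Z w (i, j) = F w i * F w b * (c * Vb F Z b w j) - F w j * F w b * (c * Vb F Z b w i)
    rw [p1 i j]
    ring
  · rw [Eig_vb_smul, Eig_lhs_smul c (Eig_vb_an a1 a2 hb).differentiableAt, q1 l, mul_zero]

/-! ## the shift -/

private theorem Eig_xb (hFp : ∀ w ∈ HP, F (w + per) = F w) (b : Fin (N + 1)) {w : ℂ} (hw : w ∈ HP) : xb F b (w + per) = xb F b w := by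
  unfold xb
  rw [hFp w hw]

private theorem Eig_vb (hFp : ∀ w ∈ HP, F (w + per) = F w) (Z : ℂ → Fin (N + 1) × Fin (N + 1) → ℂ) (b : Fin (N + 1)) {w : ℂ} (hw : w ∈ HP) :
    Vb F Z b (w + per) = Vb F (fun w => Z (w + per)) b w := by
  unfold Vb
  rw [hFp w hw]

private theorem Eig_deriv {E : Type*} [NormedAddCommGroup E] [NormedSpace ℂ E] {g h : ℂ → E} {w : ℂ} (hw : w ∈ HP) (e : ∀ w ∈ HP, g (w + per) = h w) :
    deriv g (w + per) = deriv h w := by
  have h1 : (fun w => g (w + per)) =ᶠ[𝓝 w] h := by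
    filter_upwards [HP_isOpen.mem_nhds hw] with z hz
    exact e z hz
  rw [← h1.deriv_eq, deriv_comp_add_const]

private theorem Eig_tendsto (w : ℂ) : Tendsto (fun z : ℂ => z + per) (𝓝 w) (𝓝 (w + per)) := (continuous_id.add continuous_const).tendsto w

private theorem Eig_shift {f : Frame θ} (hFp : ∀ w ∈ HP, F (w + per) = F w) {Z : ℂ → Fin (N + 1) × Fin (N + 1) → ℂ} {z : ℂ} (hz : z ∈ HP)
    (h : IsVar f F Z (z + per)) : IsVar f F (fun w => Z (w + per)) z := by
  refine ⟨?_, ?_⟩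
  · exact AnalyticAt.comp (g := Z) (f := fun w : ℂ => w + per) h.1 (analyticAt_id.add analyticAt_const)
  · filter_upwards [(Eig_tendsto z).eventually h.2, HP_isOpen.mem_nhds hz] with w e1 hw
    intro b hb
    have hb' : F (w + per) b ≠ 0 := by rwa [hFp w hw]
    obtain ⟨p1, q1⟩ := e1 b hb'
    refine ⟨fun i j => ?_, fun l => ?_⟩
    · show Z (w + per) (i, j) = _
      rw [p1 i j, hFp w hw, Eig_vb hFp Z b hw]
    · rw [← q1 l]
      unfold lhs
      refine Finset.sum_congr rfl fun s _ => ?_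
      have e2 : xb F b (w + per) = xb F b w := Eig_xb hFp b hw
      have e3 : deriv (xb F b) (w + per) = deriv (xb F b) w := Eig_deriv hw fun w hw => Eig_xb hFp b hw
      have e4 : Vb F Z b (w + per) = Vb F (fun w => Z (w + per)) b w := Eig_vb hFp Z b hw
      have e5 : deriv (Vb F Z b) (w + per) = deriv (Vb F (fun w => Z (w + per)) b) w := Eig_deriv hw fun w hw => Eig_vb hFp Z b hw
      rw [e2, e3, e4, e5]

private theorem Eig_evO (hOp : ∀ g ∈ OO, ∀ w ∈ HP, g (w + per) = g w) {σ : Type} {x : ℂ → σ → ℂ} (hx : ∀ w ∈ HP, x (w + per) = x w)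
    (R : MvPolynomial σ OO) {w : ℂ} (hw : w ∈ HP) : evO OO x R (w + per) = evO OO x R w := by
  unfold evO
  rw [hx w hw]
  have h1 : ev0 OO (w + per) = ev0 OO w := by
    ext g
    exact hOp g g.2 w hw
  rw [h1]

private theorem Eig_rel (hFp : ∀ w ∈ HP, F (w + per) = F w) (hOp : ∀ g ∈ OO, ∀ w ∈ HP, g (w + per) = g w) {Z : ℂ → Fin (N + 1) × Fin (N + 1) → ℂ}
    {a : Fin (N + 1)} {w₀ : ℂ} (hw₀ : w₀ ∈ HP) (h : RelX OO (xb F a) (Vb F Z a) (w₀ + per)) : RelX OO (xb F a) (Vb F (fun w => Z (w + per)) a) w₀ := by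
  intro R hR
  have h1 : ∀ᶠ w in 𝓝 (w₀ + per), evO OO (xb F a) R w = 0 := by
    have h2 : Tendsto (fun z : ℂ => z - per) (𝓝 (w₀ + per)) (𝓝 w₀) := by
      have h3 : Continuous fun z : ℂ => z - per := continuous_id.sub continuous_const
      have h4 := h3.tendsto (w₀ + per)
      rwa [add_sub_cancel_right] at h4
    filter_upwards [h2.eventually hR, h2.eventually (HP_isOpen.mem_nhds hw₀)] with w e1 hw
    have h3 := Eig_evO hOp (fun w hw => Eig_xb hFp a hw) R hw
    rw [sub_add_cancel] at h3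
    rw [h3]
    exact e1
  filter_upwards [(Eig_tendsto w₀).eventually (h R h1), HP_isOpen.mem_nhds hw₀] with w e1 hw
  rw [← e1]
  refine Finset.sum_congr rfl fun b _ => ?_
  rw [Eig_evO hOp (fun w hw => Eig_xb hFp a hw) (pderiv b R) hw, Eig_vb hFp Z a hw]

/-! ## the theorem -/

theorem exists_eigVar (hP : Homog P) (hθ : Polar θ) (hm : ∀ k, 1 ≤ m k) (f : Frame θ) (hf : HomFr f) (hF : IsCurve P F HP)
    (hFp : ∀ w ∈ HP, F (w + per) = F w) (hO : IsSmallRing OO HP) (hOp : ∀ g ∈ OO, ∀ w ∈ HP, g (w + per) = g w) {a : Fin (N + 1)} {w₀ : ℂ}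
    (hw₀ : w₀ ∈ HP) (h₀ : F w₀ a ≠ 0) {Z : ℂ → Fin (N + 1) × Fin (N + 1) → ℂ} (hZ : ∀ w ∈ HP, IsVar f F Z w)
    (hR : RelX OO (xb F a) (Vb F Z a) w₀) (hZ0 : Z w₀ ≠ 0) :
    ∃ (Z' : ℂ → Fin (N + 1) × Fin (N + 1) → ℂ) (q : ℂ), (∀ w ∈ HP, IsVar f F Z' w) ∧ RelX OO (xb F a) (Vb F Z' a) w₀ ∧ Z' w₀ ≠ 0 ∧
      ∀ w ∈ HP, Z' (w + per) = Complex.exp (q * per) • Z' w := by
  let VV : Submodule ℂ (ℂ → Fin (N + 1) × Fin (N + 1) → ℂ) :=
    { carrier := {Z | (∀ w ∈ HP, IsVar f F Z w) ∧ RelX OO (xb F a) (Vb F Z a) w₀}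
      zero_mem' := by
        refine ⟨fun w _ => Eig_zero f w, fun R _ => Eventually.of_forall fun w => Finset.sum_eq_zero fun b _ => ?_⟩
        show _ * ((0 : ℂ) / F w a ^ 2) = 0
        rw [zero_div, mul_zero]
      add_mem' := by
        rintro Z₁ Z₂ ⟨h1, g1⟩ ⟨h2, g2⟩
        refine ⟨fun w hw => Eig_add (hF.an w hw) (h1 w hw) (h2 w hw), fun R hR => ?_⟩
        filter_upwards [g1 R hR, g2 R hR] with w e1 e2
        rw [Eig_vb_add]
        have h3 : ∑ b, evO OO (xb F a) (pderiv b R) w * (Vb F Z₁ a + Vb F Z₂ a) w b =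
            ∑ b, evO OO (xb F a) (pderiv b R) w * Vb F Z₁ a w b + ∑ b, evO OO (xb F a) (pderiv b R) w * Vb F Z₂ a w b := by
          rw [← Finset.sum_add_distrib]
          refine Finset.sum_congr rfl fun b _ => ?_
          rw [← mul_add]
          rfl
        rw [h3, e1, e2, add_zero]
      smul_mem' := by
        rintro c Z₁ ⟨h1, g1⟩
        refine ⟨fun w hw => Eig_smul (hF.an w hw) c (h1 w hw), fun R hR => ?_⟩
        filter_upwards [g1 R hR] with w e1
        rw [Eig_vb_smul]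
        have h3 : ∑ b, evO OO (xb F a) (pderiv b R) w * (c • Vb F Z₁ a) w b = c * ∑ b, evO OO (xb F a) (pderiv b R) w * Vb F Z₁ a w b := by
          rw [Finset.mul_sum]
          refine Finset.sum_congr rfl fun b _ => ?_
          show _ * (c * Vb F Z₁ a w b) = _
          ring
        rw [h3, e1, mul_zero] }
  obtain ⟨Z', hZ', μ, hμ, hZ'0, hsh⟩ := exists_eig (E := Fin (N + 1) × Fin (N + 1) → ℂ) (U := HP) (p := per) (w₀ := w₀) HP_per hw₀ VV
    (by
      rintro Z₁ ⟨h1, g1⟩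
      refine ⟨fun w hw => Eig_shift hFp hw (h1 (w + per) ((HP_per w).2 hw)), Eig_rel hFp hOp hw₀ ?_⟩
      refine relX_transport hF hO (fun w hw => (h1 w hw).1) hw₀ h₀ ((HP_per w₀).2 hw₀) ?_ g1
      rwa [hFp w₀ hw₀])
    (by
      rintro Z₁ ⟨h1, -⟩ h0 w hw
      exact isVar_zero hP hθ hm f hf hF h1 hw₀ h0 w hw)
    ⟨Z, ⟨hZ, hR⟩, w₀, hw₀, hZ0⟩
  obtain ⟨q, hq⟩ := exists_per per_ne_zero hμ
  refine ⟨Z', q, hZ'.1, hZ'.2, hZ'0, fun w hw => ?_⟩
  rw [hq]
  exact hsh w hw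

/-- the functions `α`, corrected by an exponential function, have the period `per` -/
theorem alpha_per (hF : IsCurve P F HP) (hFp : ∀ w ∈ HP, F (w + per) = F w) {Z : ℂ → Fin (N + 1) × Fin (N + 1) → ℂ} {α : ℂ → Fin J → ℂ}
    (hα : ∀ w ∈ HP, ∀ b, F w b ≠ 0 → Vb F Z b w ∈ conTan P (xb F b w) ∧ Vb F Z b w b = 0 ∧ ∀ k, (θ k).toFun (xb F b w) (Vb F Z b w) = α w k)
    (hxb : ∀ w ∈ HP, ∀ b, F w b ≠ 0 → xb F b w ∈ cone P) {q : ℂ} (hq : ∀ w ∈ HP, Z (w + per) = Complex.exp (q * per) • Z w) {w : ℂ} (hw : w ∈ HP)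
    (k : Fin J) : Complex.exp (-(m k * q * (w + per))) * α (w + per) k = Complex.exp (-(m k * q * w)) * α w k := by
  have hFw : F w ≠ 0 := (hF.mem w hw).1
  obtain ⟨b, hb⟩ : ∃ b, F w b ≠ 0 := by
    by_contra h
    push Not at h
    exact hFw (funext h)
  have hwp : w + per ∈ HP := (HP_per w).2 hw
  have hb' : F (w + per) b ≠ 0 := by rwa [hFp w hw]
  obtain ⟨h1, -, h3⟩ := hα w hw b hb
  obtain ⟨-, -, h3'⟩ := hα (w + per) hwp b hb'
  have e1 : xb F b (w + per) = xb F b w := Eig_xb hFp b hw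
  have e2 : Vb F Z b (w + per) = Complex.exp (q * per) • Vb F Z b w := by
    rw [Eig_vb hFp Z b hw]
    funext j
    show Z (w + per) (b, j) / F w b ^ 2 = Complex.exp (q * per) * (Z w (b, j) / F w b ^ 2)
    rw [hq w hw]
    show Complex.exp (q * per) * Z w (b, j) / F w b ^ 2 = _
    rw [mul_div_assoc]
  have e3 : α (w + per) k = Complex.exp (q * per) ^ m k * α w k := by
    rw [← h3' k, e1, e2, (θ k).smul _ (hxb w hw b hb) _ h1, h3 k]
  rw [e3, ← Complex.exp_nat_mul, ← mul_assoc, ← Complex.exp_add]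
  congr 2
  ring

end Pool.Agent.GA

end

section

/-!
# GA Ent: entire curves

`f (1 / z)` on the punctured disc.  If it extends, `θ_k (f')` (in the coordinate of `ℂ`, for a global lift, `H17.exists_global_lift`) is entire and tends to `0` at `∞` (`θ_k (f') = θ_k (df/du) (-1/z²)^(m k)`, `u = 1 / z`): it is `0`, so `f' ∈ span f` (`GG.no_common_zero`) and `f` is
constant.  Otherwise `R (f z) = 0` for `|z| > 1`, so for all `z` (identity theorem).
-/

set_option autoImplicit false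

open MvPolynomial Topology Filter Metric
open Pool.Agent.H13.SM (conTan cone)
open Pool.Agent.H17 (PN VanishesAt HolomorphicInto puncturedDisc)
open Pool.Agent.H17EF (projVar)
open Pool.Agent.H62.FC (Homog)
open Pool.Agent.H36.BP (EN fs wd)
open Pool.Agent.GG

namespace Pool.Agent.GA

variable {N : ℕ} {P : Ideal (MvPolynomial (Fin (N + 1)) ℂ)} {J : ℕ} {m : Fin J → ℕ} {θ : ∀ k, SymSec P (m k)}

/-- the values of a symmetric differential in the coordinates `z` and `u = 1 / z` -/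
private theorem ent_val (hP : Homog P) {n : ℕ} (t : SymSec P n) {F φ : ℂ → Fin (N + 1) → ℂ} (hF : Differentiable ℂ F) (hFX : ∀ z, F z ∈ cone P)
    {u : ℂ} (hu : u ≠ 0) (hφ : DifferentiableAt ℂ φ u) (hφ0 : φ u ≠ 0)
    (hr : ∀ᶠ v in 𝓝 u, ∀ i j, φ v i * F v⁻¹ j - φ v j * F v⁻¹ i = 0) :
    t.toFun (φ u) (deriv φ u) = (-(u ^ 2)⁻¹) ^ n * t.toFun (F u⁻¹) (deriv F u⁻¹) := by
  obtain ⟨x, hx⟩ : ∃ x, x = F u⁻¹ := ⟨_, rfl⟩
  obtain ⟨v, hv⟩ : ∃ v, v = deriv F u⁻¹ := ⟨_, rfl⟩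
  have hxP : x ∈ cone P := hx ▸ hFX _
  have hvP : v ∈ conTan P x := by
    rw [hv, hx]
    exact cst_deriv_mem (hF _) (Eventually.of_forall hFX)
  -- a coordinate
  obtain ⟨j, hj⟩ : ∃ j, x j ≠ 0 := by
    by_contra hcon
    push Not at hcon
    exact hxP.1 (funext hcon)
  -- the lift near `u`
  have hFi : HasDerivAt (fun v : ℂ => F v⁻¹) ((-(u ^ 2)⁻¹) • v) u := by
    rw [hv]
    exact (hF u⁻¹).hasDerivAt.scomp u (hasDerivAt_inv hu)
  have hFj : ∀ᶠ w in 𝓝 u, F w⁻¹ j ≠ 0 := by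
    have h1 : ContinuousAt (fun w : ℂ => F w⁻¹ j) u := (hasDerivAt_pi.1 hFi j).continuousAt
    refine h1.eventually_ne ?_
    rw [← hx]
    exact hj
  obtain ⟨c, hc⟩ : ∃ c : ℂ → ℂ, c = fun w => φ w j / F w⁻¹ j := ⟨_, rfl⟩
  have hcd : DifferentiableAt ℂ c u := by
    rw [hc]
    refine DifferentiableAt.div (differentiableAt_pi.1 hφ j) (hasDerivAt_pi.1 hFi j).differentiableAt ?_
    rw [← hx]
    exact hj
  have hφc : φ =ᶠ[𝓝 u] fun w => c w • F w⁻¹ := by
    filter_upwards [hr, hFj] with w h1 h2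
    funext i
    rw [hc]
    simp only [Pi.smul_apply, smul_eq_mul]
    rw [div_mul_eq_mul_div, eq_div_iff h2]
    linear_combination h1 i j
  have hφu : φ u = c u • x := by
    rw [hx]
    exact hφc.self_of_nhds
  have hcu : c u ≠ 0 := by
    intro h
    rw [h, zero_smul] at hφu
    exact hφ0 hφu
  have hdφ : deriv φ u = c u • ((-(u ^ 2)⁻¹) • v + ((c u)⁻¹ * deriv c u) • x) := by
    rw [hφc.deriv_eq]
    have h1 := (hcd.hasDerivAt.smul hFi).deriv
    have h2 : deriv (fun w => c w • F w⁻¹) u = c u • (-(u ^ 2)⁻¹) • v + deriv c u • F u⁻¹ := h1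
    rw [h2, smul_add, smul_smul (c u) ((c u)⁻¹ * deriv c u) x, ← mul_assoc, mul_inv_cancel₀ hcu, one_mul, ← hx]
  have hvP' : (-(u ^ 2)⁻¹) • v ∈ conTan P x := (conTan P x).smul_mem _ hvP
  have hw : (-(u ^ 2)⁻¹) • v + ((c u)⁻¹ * deriv c u) • x ∈ conTan P x :=
    (conTan P x).add_mem hvP' ((conTan P x).smul_mem _ (Pool.Agent.AD.G.self_mem_conTan hP hxP))
  rw [hφu, hdφ, t.scale x hxP _ hw _ hcu, t.add_smul x hxP _ hvP', t.smul x hxP _ hvP, ← hx, ← hv]

/-- a curve with `θ (f') = 0` is constant -/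
private theorem ent_const (hθ : Polar θ) (hm : ∀ k, 1 ≤ m k) {f : ℂ → PN N} {F : ℂ → Fin (N + 1) → ℂ} (hF : Differentiable ℂ F)
    (hFf : ∀ z, ∃ h : F z ≠ 0, f z = Projectivization.mk ℂ (F z) h) (hFX : ∀ z, F z ∈ cone P)
    (h : ∀ k z, (θ k).toFun (F z) (deriv F z) = 0) (z w : ℂ) : f z = f w := by
  have h0 : ∀ z, F z ≠ 0 := fun z => (hFX z).1
  have hl : Pool.Agent.H14.V.IsLift (fun z => (WithLp.toLp 2 (F z) : EN N)) f :=
    ⟨(Pool.Agent.H17EF.LE N).differentiable.comp hF, fun z => hFf z⟩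
  have hd : ∀ z, deriv (fun z => (WithLp.toLp 2 (F z) : EN N)) z = WithLp.toLp 2 (deriv F z) := by
    intro z
    exact ((Pool.Agent.H17EF.LE N : (Fin (N + 1) → ℂ) →L[ℂ] EN N).hasFDerivAt.comp_hasDerivAt z (hF z).hasDerivAt).deriv
  have hfs : ∀ z, fs (WithLp.toLp 2 (F z) : EN N) (deriv (fun z => (WithLp.toLp 2 (F z) : EN N)) z) = 0 := by
    intro z
    rw [hd]
    have h1 := no_common_zero hθ hm (hFX z) (cst_deriv_mem (hF z) (Eventually.of_forall hFX)) (fun k => h k z)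
    obtain ⟨a, ha⟩ := Submodule.mem_span_singleton.1 h1
    unfold fs
    rw [(Pool.Agent.H36.BP.wd_eq_zero (fun h => h0 z (WithLp.toLp_injective 2 h))).2 ⟨a, by rw [← ha]; rfl⟩, zero_div]
  apply Pool.Agent.H17EF.prP_injective
  rw [hl.prP, hl.prP]
  exact Pool.Agent.H14.V.pr_const hl.1 (fun z => hl.ne_zero z) hfs z w

theorem entire_of_punctured (hP : Homog P) (hθ : Polar θ) (hm : ∀ k, 1 ≤ m k) {R : MvPolynomial (Fin (N + 1)) ℂ} {e : ℕ} (hR : R.IsHomogeneous e)
    (hD : ∀ f : ℂ → PN N, HolomorphicInto f puncturedDisc → (∀ z ∈ puncturedDisc, f z ∈ projVar P) → (∃ z ∈ puncturedDisc, ¬ VanishesAt R (f z)) →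
      ∃ g : ℂ → PN N, HolomorphicInto g (ball 0 1) ∧ ∀ z ∈ puncturedDisc, g z = f z)
    {f : ℂ → PN N} (hf : HolomorphicInto f Set.univ) (hX : ∀ z, f z ∈ projVar P) (hne : ∃ z w, f z ≠ f w) (z : ℂ) : VanishesAt R (f z) := by
  classical
  -- a global lift
  obtain ⟨x, hx⟩ := Pool.Agent.H17.exists_global_lift hf
  obtain ⟨F, hFx⟩ : ∃ F : ℂ → Fin (N + 1) → ℂ, F = fun z j => (x j : ℂ → ℂ) z := ⟨_, rfl⟩
  have hF : Differentiable ℂ F := by
    rw [hFx]
    exact differentiable_pi.2 fun j => (x j).diff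
  have hFf : ∀ z, ∃ h : F z ≠ 0, f z = Projectivization.mk ℂ (F z) h := by
    intro z
    rw [hFx]
    exact hx z
  have hFX : ∀ z, F z ∈ cone P := by
    intro z
    obtain ⟨h, e⟩ := hFf z
    have h1 := hX z
    rw [e] at h1
    exact (Pool.Agent.H17EF.mk_mem_projVar hP h).1 h1
  -- the curve on the punctured disc
  obtain ⟨g, hg⟩ : ∃ g : ℂ → PN N, g = fun z => f z⁻¹ := ⟨_, rfl⟩
  have hgh : HolomorphicInto g puncturedDisc := by
    intro z hz
    have hz0 : z ≠ 0 := hz.2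
    refine ⟨fun w => F w⁻¹, ?_, Eventually.of_forall fun w => ?_⟩
    · exact (hF.analyticAt z⁻¹).fun_comp (analyticAt_inv hz0)
    · rw [hg]
      exact hFf w⁻¹
  by_cases hcase : ∃ z ∈ puncturedDisc, ¬ VanishesAt R (g z)
  · exfalso
    obtain ⟨G, hG, hGg⟩ := hD g hgh (fun z _ => by rw [hg]; exact hX _) hcase
    obtain ⟨φ, hφ, hφG⟩ := hG 0 (mem_ball_self one_pos)
    have hφ0 : φ 0 ≠ 0 := hφG.self_of_nhds.1
    -- near `0`
    have hnear : ∀ᶠ u in 𝓝 (0 : ℂ), u ≠ 0 → ∀ i j, φ u i * F u⁻¹ j - φ u j * F u⁻¹ i = 0 := by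
      filter_upwards [hφG, ball_mem_nhds (0 : ℂ) one_pos] with u h1 h2 h3
      obtain ⟨h4, h5⟩ := h1
      obtain ⟨h6, h7⟩ := hFf u⁻¹
      have h8 := hGg u ⟨h2, h3⟩
      rw [h5, hg] at h8
      have h9 : Projectivization.mk ℂ (φ u) h4 = Projectivization.mk ℂ (F u⁻¹) h6 := by
        rw [h8, ← h7]
      rw [Projectivization.mk_eq_mk_iff'] at h9
      obtain ⟨a, ha⟩ := h9
      intro i j
      rw [← ha]
      simp only [Pi.smul_apply, smul_eq_mul]
      ring
    have hcone' : ∀ᶠ u in 𝓝 (0 : ℂ), u ≠ 0 → φ u ∈ cone P := by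
      filter_upwards [hφG, ball_mem_nhds (0 : ℂ) one_pos] with u h1 h2 h3
      obtain ⟨h4, h5⟩ := h1
      have h8 := hGg u ⟨h2, h3⟩
      rw [h5, hg] at h8
      have h9 := hX u⁻¹
      rw [← (show _ = f u⁻¹ from h8)] at h9
      exact (Pool.Agent.H17EF.mk_mem_projVar hP h4).1 h9
    have hcone : ∀ᶠ u in 𝓝 (0 : ℂ), φ u ∈ cone P := by
      filter_upwards [hcone'] with u h1
      rcases eq_or_ne u 0 with h2 | h2
      · rw [h2]
        refine ⟨hφ0, fun Q hQ => ?_⟩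
        have h3 : Tendsto (fun u => eval (φ u) Q) (𝓝[≠] 0) (𝓝 (eval (φ 0) Q)) :=
          ((MvPolynomial.continuous_eval Q).continuousAt.comp hφ.continuousAt).tendsto.mono_left nhdsWithin_le_nhds
        have h4 : Tendsto (fun u => eval (φ u) Q) (𝓝[≠] 0) (𝓝 0) := by
          refine tendsto_const_nhds.congr' ?_
          filter_upwards [nhdsWithin_le_nhds hcone', self_mem_nhdsWithin] with u h5 h6
          exact ((h5 h6).2 Q hQ).symm
        exact tendsto_nhds_unique h3 h4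
      · exact h1 h2
    -- the symmetric differentials vanish along the curve
    have hzero : ∀ k z, (θ k).toFun (F z) (deriv F z) = 0 := by
      intro k
      have hent : Differentiable ℂ fun z => (θ k).toFun (F z) (deriv F z) := fun z =>
        ((θ k).analyticAt_curve (hF.analyticAt z) (Eventually.of_forall hFX)).differentiableAt
      have hφa := ((θ k).analyticAt_curve hφ hcone).continuousAt
      have hlim : Tendsto (fun z => (θ k).toFun (F z) (deriv F z)) (cocompact ℂ) (𝓝 0) := by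
        have h1 : Tendsto (fun u : ℂ => (-1) ^ (m k) * u ^ (2 * m k) * (θ k).toFun (φ u) (deriv φ u)) (𝓝 0) (𝓝 0) := by
          have h2 : ContinuousAt (fun u : ℂ => (-1) ^ (m k) * u ^ (2 * m k) * (θ k).toFun (φ u) (deriv φ u)) 0 :=
            (by fun_prop : ContinuousAt (fun u : ℂ => (-1) ^ (m k) * u ^ (2 * m k)) 0).mul hφa
          have h3 := h2.tendsto
          have h4 : (2 * m k) ≠ 0 := by
            have := hm k
            omega
          rw [zero_pow h4, mul_zero, zero_mul] at h3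
          exact h3
        have h2 : ∀ᶠ u in 𝓝[≠] (0 : ℂ), (-1) ^ (m k) * u ^ (2 * m k) * (θ k).toFun (φ u) (deriv φ u) = (θ k).toFun (F u⁻¹) (deriv F u⁻¹) := by
          filter_upwards [nhdsWithin_le_nhds hnear.eventually_nhds, nhdsWithin_le_nhds hφ.eventually_analyticAt, nhdsWithin_le_nhds hφG, self_mem_nhdsWithin] with u h3 h4 h5 h6
          have hu : u ≠ 0 := h6
          have h7 : ∀ᶠ v in 𝓝 u, ∀ i j, φ v i * F v⁻¹ j - φ v j * F v⁻¹ i = 0 := by
            filter_upwards [h3, isOpen_ne.mem_nhds hu] with v h8 h9 using h8 h9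
          rw [ent_val hP (θ k) hF hFX hu h4.differentiableAt h5.1 h7]
          have h10 : (-1) ^ (m k) * u ^ (2 * m k) * (-(u ^ 2)⁻¹) ^ (m k) = 1 := by
            rw [pow_mul, ← mul_pow, ← mul_pow]
            have h11 : -1 * u ^ 2 * -(u ^ 2)⁻¹ = 1 := by field_simp
            rw [h11, one_pow]
          rw [← mul_assoc, h10, one_mul]
        have h3 : Tendsto (fun u : ℂ => (θ k).toFun (F u⁻¹) (deriv F u⁻¹)) (𝓝[≠] 0) (𝓝 0) :=
          (h1.mono_left nhdsWithin_le_nhds).congr' h2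
        have h4 := h3.comp Filter.tendsto_inv₀_cobounded'
        rw [← Metric.cobounded_eq_cocompact]
        refine h4.congr fun z => ?_
        simp
      exact fun z => hent.apply_eq_of_tendsto_cocompact z hlim
    obtain ⟨z, w, hzw⟩ := hne
    exact hzw (ent_const hθ hm hF hFf hFX hzero z w)
  · push Not at hcase
    have han : AnalyticOnNhd ℂ (fun z => eval (F z) R) Set.univ := by
      intro z _
      have h2 : AnalyticAt ℂ (fun w => aeval (fun s => F w s) R) z :=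
        AnalyticAt.aeval_mvPolynomial (fun s => (analyticAt_pi_iff.1 (hF.analyticAt z)) s) R
      simpa only [MvPolynomial.aeval_eq_eval] using h2
    have hev : ∀ᶠ z in 𝓝 (2 : ℂ), eval (F z) R = 0 := by
      have h1 : {z : ℂ | 1 < ‖z‖} ∈ 𝓝 (2 : ℂ) := by
        refine (isOpen_lt continuous_const continuous_norm).mem_nhds ?_
        show (1 : ℝ) < ‖(2 : ℂ)‖
        norm_num
      filter_upwards [h1] with z hz
      have hz1 : (1 : ℝ) < ‖z‖ := hz
      have hz0 : z ≠ 0 := by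
        intro h
        rw [h, norm_zero] at hz1
        linarith
      have h2 : z⁻¹ ∈ puncturedDisc := by
        refine ⟨?_, inv_ne_zero hz0⟩
        rw [mem_ball_zero_iff, norm_inv]
        exact inv_lt_one_of_one_lt₀ hz1
      have h3 := hcase _ h2
      rw [hg] at h3
      simp only [inv_inv] at h3
      obtain ⟨h4, h5⟩ := hFf z
      rw [h5, Pool.Agent.H17.vanishesAt_mk_iff hR] at h3
      exact h3
    have h0 := han.eqOn_zero_of_preconnected_of_eventuallyEq_zero isPreconnected_univ (Set.mem_univ (2 : ℂ)) hev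
    obtain ⟨h4, h5⟩ := hFf z
    rw [h5, Pool.Agent.H17.vanishesAt_mk_iff hR]
    exact h0 (Set.mem_univ z)

end Pool.Agent.GA

end

section

/-!
# GA Trn: the coordinates of the curve are not all algebraic over the small functions

Otherwise for every `c` there is `G_c ∈ OO`, `G_c ≠ 0` (the leading coefficient of a relation), such that `G_c x_c`, `x_c = F_c / F_a`, is bounded by the sum of the absolute values
of the coefficients (`exists_y`): it extends to a holomorphic function on the half-plane (`exists_quot`) and is small in the mean.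
`G := ∏ G_c`, `H_c := G x_c` (holomorphic, periodic, `H_c F_a = G F_c`, so `H` is parallel to `F`), `mn log⁺ |H_c| = o (τ_n)` at `ξ_n`.
`psh_lower` at `t = ξ_n`: `c τ_n / 2 ≤ c TT (ξ_n) ≤ o (τ_n) + C ξ_n = o (τ_n)`.
-/

set_option autoImplicit false

open Topology Filter Metric
open Pool.Agent.GG

namespace Pool.Agent.GA

namespace Tr0

theorem hp_preconn : IsPreconnected HP := (convex_halfSpace_re_gt 0).isPreconnected

/-- a holomorphic function which is not identically zero has isolated zeros -/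
theorem ev_ne {f : ℂ → ℂ} (hf : ∀ w ∈ HP, AnalyticAt ℂ f w) (h0 : ∃ w ∈ HP, f w ≠ 0) {w : ℂ} (hw : w ∈ HP) : ∀ᶠ z in 𝓝[≠] w, f z ≠ 0 := by
  rcases (hf w hw).eventually_eq_zero_or_eventually_ne_zero with h | h
  · obtain ⟨z, hz, hz0⟩ := h0
    have h1 : AnalyticOnNhd ℂ f HP := hf
    exact absurd (h1.eqOn_zero_of_preconnected_of_eventuallyEq_zero hp_preconn hw h hz) hz0
  · exact h

/-- cancellation -/
theorem cancel {f g h : ℂ → ℂ} (hf : ContinuousOn f HP) (hg : ContinuousOn g HP) (hh : ∀ w ∈ HP, AnalyticAt ℂ h w) (h0 : ∃ w ∈ HP, h w ≠ 0)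
    (e : ∀ w ∈ HP, f w * h w = g w * h w) : ∀ w ∈ HP, f w = g w := by
  intro w hw
  have h1 := ev_ne hh h0 hw
  have h2 : ∀ᶠ z in 𝓝[≠] w, f z = g z := by
    filter_upwards [h1, mem_nhdsWithin_of_mem_nhds (Rg.isOpen_HP.mem_nhds hw)] with z hz hz'
    exact mul_right_cancel₀ hz (e z hz')
  have h3 : Tendsto f (𝓝[≠] w) (𝓝 (f w)) := (hf.continuousAt (Rg.isOpen_HP.mem_nhds hw)).tendsto.mono_left nhdsWithin_le_nhds
  have h4 : Tendsto g (𝓝[≠] w) (𝓝 (g w)) := (hg.continuousAt (Rg.isOpen_HP.mem_nhds hw)).tendsto.mono_left nhdsWithin_le_nhds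
  exact tendsto_nhds_unique (h3.congr' h2) h4

/-- division of holomorphic functions -/
theorem exists_quot {g f : ℂ → ℂ} (hg : ∀ w ∈ HP, AnalyticAt ℂ g w) (hf : ∀ w ∈ HP, AnalyticAt ℂ f w) (h0 : ∃ w ∈ HP, f w ≠ 0) {B : ℂ → ℝ}
    (hB : ContinuousOn B HP) (hle : ∀ w ∈ HP, f w ≠ 0 → ‖g w‖ ≤ B w * ‖f w‖) :
    ∃ y : ℂ → ℂ, (∀ w ∈ HP, AnalyticAt ℂ y w) ∧ (∀ w ∈ HP, y w * f w = g w) ∧ ∀ w ∈ HP, ‖y w‖ ≤ B w := by
  classical
  obtain ⟨q, hq⟩ : ∃ q : ℂ → ℂ, q = fun z => g z / f z := ⟨_, rfl⟩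
  obtain ⟨y, hy⟩ : ∃ y : ℂ → ℂ, y = fun w => if f w ≠ 0 then q w else limUnder (𝓝[≠] w) q := ⟨_, rfl⟩
  have hqB : ∀ w ∈ HP, f w ≠ 0 → ‖q w‖ ≤ B w := by
    intro w hw hfw
    rw [hq]
    simp only [norm_div]
    rw [div_le_iff₀ (norm_pos_iff.2 hfw)]
    exact hle w hw hfw
  have hqan : ∀ w ∈ HP, f w ≠ 0 → AnalyticAt ℂ q w := fun w hw hfw => by
    rw [hq]
    exact (hg w hw).div (hf w hw) hfw
  have hyan : ∀ w ∈ HP, AnalyticAt ℂ y w := by
    intro w hw
    by_cases hfw : f w = 0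
    · -- a zero of `f`
      have h1 := ev_ne hf h0 hw
      have hBc : ContinuousAt B w := hB.continuousAt (Rg.isOpen_HP.mem_nhds hw)
      have h2 : ∀ᶠ z in 𝓝 w, B z < B w + 1 := hBc.eventually_lt continuousAt_const (by linarith)
      obtain ⟨s, hs, hso, hws⟩ := _root_.mem_nhds_iff.1 ((eventually_nhdsWithin_iff.1 h1).and (h2.and (Rg.isOpen_HP.mem_nhds hw)))
      have h3 : DifferentiableOn ℂ q (s \ {w}) := by
        intro z hz
        have h4 := hs hz.1
        exact (hqan z h4.2.2 (h4.1 hz.2)).differentiableAt.differentiableWithinAt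
      have h5 : BddAbove (norm ∘ q '' (s \ {w})) := by
        refine ⟨B w + 1, ?_⟩
        rintro _ ⟨z, hz, rfl⟩
        have h4 := hs hz.1
        exact (hqB z h4.2.2 (h4.1 hz.2)).trans h4.2.1.le
      have h6 := Complex.differentiableOn_update_limUnder_of_bddAbove (hso.mem_nhds hws) h3 h5
      have h7 : AnalyticAt ℂ (Function.update q w (limUnder (𝓝[≠] w) q)) w := h6.analyticAt (hso.mem_nhds hws)
      refine h7.congr ?_
      filter_upwards [hso.mem_nhds hws] with z hz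
      by_cases hzw : z = w
      · rw [hzw, Function.update_self, hy]
        simp only [hfw, ne_eq, not_true_eq_false, if_false]
      · rw [Function.update_of_ne hzw, hy]
        simp only [(hs hz).1 hzw, ne_eq, not_false_eq_true, if_true]
    · refine (hqan w hw hfw).congr ?_
      filter_upwards [(hf w hw).continuousAt.eventually_ne hfw] with z hz
      rw [hy]
      simp only [hz, ne_eq, not_false_eq_true, if_true]
  have hyq : ∀ w, f w ≠ 0 → y w = q w := fun w hw => by rw [hy]; simp only [hw, ne_eq, not_false_eq_true, if_true]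
  refine ⟨y, hyan, ?_, ?_⟩
  · refine cancel ((Rg.cont_of_an hyan).mul (Rg.cont_of_an hf)) (Rg.cont_of_an hg) hf h0 fun w hw => ?_
    by_cases hfw : f w = 0
    · rw [hfw, mul_zero, mul_zero]
    · rw [hyq w hfw, hq]
      simp only [div_mul_cancel₀ _ hfw]
  · intro w hw
    have h1 := ev_ne hf h0 hw
    have h3 : Tendsto (fun z => ‖y z‖) (𝓝[≠] w) (𝓝 ‖y w‖) := (hyan w hw).continuousAt.norm.tendsto.mono_left nhdsWithin_le_nhds
    have h4 : Tendsto B (𝓝[≠] w) (𝓝 (B w)) := (hB.continuousAt (Rg.isOpen_HP.mem_nhds hw)).tendsto.mono_left nhdsWithin_le_nhds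
    refine le_of_tendsto_of_tendsto h3 h4 ?_
    filter_upwards [h1, mem_nhdsWithin_of_mem_nhds (Rg.isOpen_HP.mem_nhds hw)] with z hz hz'
    rw [hyq z hz]
    exact hqB z hz' hz

/-- the bound of `g u / v` for a root of a polynomial with the leading coefficient `g` -/
theorem root_bound {d : ℕ} {e : Fin (d + 1)} {A : Fin (d + 1) → ℂ} {u v : ℂ} (hv : v ≠ 0) (hA : ∀ i, e < i → A i = 0)
    (h : ∑ i, A i * u ^ (i : ℕ) * v ^ (d - i) = 0) : ‖A e * u‖ ≤ (∑ i, ‖A i‖) * ‖v‖ := by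
  classical
  have hvn : 0 < ‖v‖ := norm_pos_iff.2 hv
  rw [norm_mul]
  rcases le_or_gt ‖u‖ ‖v‖ with huv | huv
  · have h1 : ‖A e‖ ≤ ∑ i, ‖A i‖ := Finset.single_le_sum (fun i _ => norm_nonneg (A i)) (Finset.mem_univ e)
    exact mul_le_mul h1 huv (norm_nonneg _) (Finset.sum_nonneg fun i _ => norm_nonneg _)
  · have hun : 0 < ‖u‖ := hvn.trans huv
    -- the leading term
    have h1 : A e * u ^ (e : ℕ) * v ^ (d - e) = -∑ i ∈ Finset.univ.filter (· < e), A i * u ^ (i : ℕ) * v ^ (d - i) := by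
      have h2 : ∑ i, A i * u ^ (i : ℕ) * v ^ (d - i) = A e * u ^ (e : ℕ) * v ^ (d - e) +
          ∑ i ∈ Finset.univ.filter (· < e), A i * u ^ (i : ℕ) * v ^ (d - i) := by
        rw [← Finset.add_sum_erase _ _ (Finset.mem_univ e)]
        congr 1
        symm
        refine Finset.sum_subset ?_ ?_
        · intro i hi
          rw [Finset.mem_filter] at hi
          exact Finset.mem_erase.2 ⟨hi.2.ne, Finset.mem_univ _⟩
        · intro i hi hi'
          rw [Finset.mem_filter, not_and] at hi'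
          have h3 : e < i := lt_of_le_of_ne (not_lt.1 (hi' (Finset.mem_univ _))) (Ne.symm (Finset.mem_erase.1 hi).1)
          rw [hA i h3, zero_mul, zero_mul]
      rw [h2] at h
      exact eq_neg_of_add_eq_zero_left h
    have h2 : ‖A e‖ * ‖u‖ ^ (e : ℕ) * ‖v‖ ^ (d - e : ℕ) ≤ ∑ i ∈ Finset.univ.filter (· < e), ‖A i‖ * ‖u‖ ^ (i : ℕ) * ‖v‖ ^ (d - i : ℕ) := by
      have h3 := congrArg norm h1
      rw [norm_neg, norm_mul, norm_mul, norm_pow, norm_pow] at h3
      rw [h3]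
      refine (norm_sum_le _ _).trans (le_of_eq ?_)
      refine Finset.sum_congr rfl fun i _ => ?_
      rw [norm_mul, norm_mul, norm_pow, norm_pow]
    rcases Nat.eq_zero_or_pos (e : ℕ) with he | he
    · -- `e = 0`
      have h3 : Finset.univ.filter (· < e) = ∅ := by
        refine Finset.filter_eq_empty_iff.2 fun i _ hi => ?_
        have h4 : (i : ℕ) < (e : ℕ) := hi
        omega
      rw [h3, Finset.sum_empty, he, pow_zero, mul_one] at h2
      have h4 : ‖A e‖ ≤ 0 := by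
        by_contra h5
        push Not at h5
        have h6 : 0 < ‖A e‖ * ‖v‖ ^ (d - 0 : ℕ) := by positivity
        linarith
      have h5 : ‖A e‖ = 0 := le_antisymm h4 (norm_nonneg _)
      rw [h5, zero_mul]
      exact mul_nonneg (Finset.sum_nonneg fun i _ => norm_nonneg _) hvn.le
    · have hed : (e : ℕ) ≤ d := Nat.lt_succ_iff.1 e.2
      have h3 : ∑ i ∈ Finset.univ.filter (· < e), ‖A i‖ * ‖u‖ ^ (i : ℕ) * ‖v‖ ^ (d - i : ℕ) ≤
          (∑ i, ‖A i‖) * (‖u‖ ^ ((e : ℕ) - 1) * ‖v‖ ^ (d - e + 1 : ℕ)) := by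
        rw [Finset.sum_mul]
        refine (Finset.sum_le_sum fun i hi => ?_).trans (Finset.sum_le_sum_of_subset_of_nonneg (Finset.filter_subset _ _) fun i _ _ => by positivity)
        have hie : (i : ℕ) < (e : ℕ) := (Finset.mem_filter.1 hi).2
        rw [mul_assoc]
        refine mul_le_mul_of_nonneg_left ?_ (norm_nonneg _)
        have h4 : ‖v‖ ^ (d - i : ℕ) = ‖v‖ ^ ((e : ℕ) - 1 - i) * ‖v‖ ^ (d - e + 1 : ℕ) := by
          rw [← pow_add]
          congr 1
          omega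
        have h5 : ‖u‖ ^ ((e : ℕ) - 1) = ‖u‖ ^ (i : ℕ) * ‖u‖ ^ ((e : ℕ) - 1 - i) := by
          rw [← pow_add]
          congr 1
          omega
        rw [h4, h5, mul_assoc]
        refine mul_le_mul_of_nonneg_left ?_ (by positivity)
        exact mul_le_mul_of_nonneg_right (pow_le_pow_left₀ hvn.le huv.le _) (by positivity)
      have h4 := h2.trans h3
      have h5 : ‖u‖ ^ (e : ℕ) = ‖u‖ ^ ((e : ℕ) - 1) * ‖u‖ := by
        rw [← pow_succ]
        congr 1
        omega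
      rw [h5, pow_succ ‖v‖ (d - e : ℕ)] at h4
      have h6 : 0 < ‖u‖ ^ ((e : ℕ) - 1) * ‖v‖ ^ (d - e : ℕ) := by positivity
      refine le_of_mul_le_mul_left ?_ h6
      calc ‖u‖ ^ ((e : ℕ) - 1) * ‖v‖ ^ (d - e : ℕ) * (‖A e‖ * ‖u‖) = ‖A e‖ * (‖u‖ ^ ((e : ℕ) - 1) * ‖u‖) * ‖v‖ ^ (d - e : ℕ) := by ring
        _ ≤ (∑ i, ‖A i‖) * (‖u‖ ^ ((e : ℕ) - 1) * (‖v‖ ^ (d - e : ℕ) * ‖v‖)) := h4
        _ = ‖u‖ ^ ((e : ℕ) - 1) * ‖v‖ ^ (d - e : ℕ) * ((∑ i, ‖A i‖) * ‖v‖) := by ring

theorem smM_of_mem {s : ℂ → ℝ} {X : ℕ → ℝ} {L : Lev s X} {g : ℂ → ℂ} (h : g ∈ OO L) : SmM s X g := by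
  have h1 := (mem_OO.1 h).small 0
  simp only [iteratedDeriv_zero] at h1
  exact h1

end Tr0

open Tr0

variable {N : ℕ} {F : ℂ → Fin (N + 1) → ℂ} {X : ℕ → ℝ}

private theorem exists_y (hF : ∀ w ∈ HP, AnalyticAt ℂ F w) (hFp : ∀ w ∈ HP, F (w + per) = F w) (L : Lev (sp F) X) {a c : Fin (N + 1)}
    (ha : ∃ w ∈ HP, F w a ≠ 0) {d : ℕ} {A : Fin (d + 1) → ℂ → ℂ} (hA : ∀ i, A i ∈ OO L)
    (hrel : ∀ w ∈ HP, ∑ i, A i w * F w c ^ (i : ℕ) * F w a ^ (d - i) = 0) (hne : ∃ i, ∃ w ∈ HP, A i w ≠ 0) :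
    ∃ G y : ℂ → ℂ, G ∈ OO L ∧ (∃ w ∈ HP, G w ≠ 0) ∧ (∀ w ∈ HP, AnalyticAt ℂ y w) ∧ (∀ w ∈ HP, y (w + per) = y w) ∧
      (∀ w ∈ HP, y w * F w a = G w * F w c) ∧ SmM (sp F) X y := by
  classical
  -- the degree
  obtain ⟨e, he, hmax⟩ : ∃ e : Fin (d + 1), (∃ w ∈ HP, A e w ≠ 0) ∧ ∀ i, e < i → ∀ w ∈ HP, A i w = 0 := by
    obtain ⟨i₀, hi₀⟩ := hne
    obtain ⟨e, he, hm⟩ := Finset.exists_max_image (Finset.univ.filter fun i : Fin (d + 1) => ∃ w ∈ HP, A i w ≠ 0) (fun i => i)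
      ⟨i₀, Finset.mem_filter.2 ⟨Finset.mem_univ _, hi₀⟩⟩
    refine ⟨e, (Finset.mem_filter.1 he).2, fun i hi w hw => ?_⟩
    by_contra h
    exact absurd (hm i (Finset.mem_filter.2 ⟨Finset.mem_univ _, w, hw, h⟩)) (not_le.2 hi)
  have hFi : ∀ i, ∀ w ∈ HP, AnalyticAt ℂ (fun w => F w i) w := fun i w hw =>
    ((ContinuousLinearMap.proj (R := ℂ) (φ := fun _ : Fin (N + 1) => ℂ) i).analyticAt _).comp (hF w hw)
  have hAan : ∀ i, ∀ w ∈ HP, AnalyticAt ℂ (A i) w := fun i => (mem_OO.1 (hA i)).an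
  have hAc : ∀ i, ContinuousOn (A i) HP := fun i => Rg.cont_of_an (hAan i)
  have hBc : ContinuousOn (fun w => ∑ i, ‖A i w‖) HP := continuousOn_finsetSum _ fun i _ => (hAc i).norm
  obtain ⟨y, hy1, hy2, hy3⟩ := exists_quot (g := fun w => A e w * F w c) (f := fun w => F w a) (B := fun w => ∑ i, ‖A i w‖)
    (fun w hw => (hAan e w hw).mul (hFi c w hw)) (hFi a) ha hBc
    (fun w hw hfw => root_bound hfw (fun i hi => hmax i hi w hw) (hrel w hw))
  have hper : ∀ w ∈ HP, w + per ∈ HP := fun w hw => by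
    have h1 : (w + per).re = w.re := by simp [per]
    show 0 < (w + per).re
    rw [h1]
    exact hw
  refine ⟨A e, y, hA e, he, hy1, ?_, hy2, ?_⟩
  · -- the period
    have hy1' : ContinuousOn (fun w => y (w + per)) HP := (Rg.cont_of_an hy1).comp (by fun_prop) hper
    refine cancel hy1' (Rg.cont_of_an hy1) (hFi a) ha fun w hw => ?_
    have h1 := hy2 (w + per) (hper w hw)
    rw [hFp w hw, (mem_OO.1 (hA e)).periodic w hw] at h1
    rw [h1, hy2 w hw]
  · -- smallness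
    have h1 : SmallN (sp F) X fun n => 2 * Real.pi * Real.log ((d : ℝ) + 1) + ∑ i, mn (fun w => Real.posLog ‖A i w‖) (xi (sp F) X n) := by
      refine (smallN_const L _).add ?_
      have h2 : Tendsto (fun n => ∑ i, mn (fun w => Real.posLog ‖A i w‖) (xi (sp F) X n) / tau (sp F) X n) atTop (𝓝 (∑ _i : Fin (d + 1), (0 : ℝ))) :=
        tendsto_finsetSum _ fun i _ => smM_of_mem (hA i)
      rw [Finset.sum_const_zero] at h2
      refine h2.congr fun n => ?_
      rw [Finset.sum_div]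
    refine h1.mono L (fun n => mn_posLog_nonneg _ _) fun n => ?_
    have hξ := L.xi_pos n
    have hcl : ∀ i, Continuous fun t : ℝ => Real.posLog ‖A i ((xi (sp F) X n : ℂ) + t * Complex.I)‖ := fun i =>
      Rg.continuous_line (Rg.cont_posLog (hAc i)) hξ
    calc mn (fun w => Real.posLog ‖y w‖) (xi (sp F) X n) ≤ mn (fun w => Real.log ((d : ℝ) + 1) + ∑ i, Real.posLog ‖A i w‖) (xi (sp F) X n) := by
          have hc1 : Continuous fun t : ℝ => Real.posLog ‖y ((xi (sp F) X n : ℂ) + t * Complex.I)‖ :=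
            Rg.continuous_line (Rg.cont_posLog (Rg.cont_of_an hy1)) hξ
          have hc2 : Continuous fun t : ℝ => Real.log ((d : ℝ) + 1) + ∑ i, Real.posLog ‖A i ((xi (sp F) X n : ℂ) + t * Complex.I)‖ :=
            continuous_const.add (continuous_finsetSum _ fun i _ => hcl i)
          refine intervalIntegral.integral_mono_on (by positivity) (hc1.intervalIntegrable _ _) (hc2.intervalIntegrable _ _) fun t _ => ?_
          have hmem : ((xi (sp F) X n : ℂ) + t * Complex.I) ∈ HP := Rg.line_mem hξ t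
          have h3 := hy3 _ hmem
          refine (Real.posLog_le_posLog (norm_nonneg _) h3).trans ?_
          have h4 := Real.posLog_sum (Finset.univ : Finset (Fin (d + 1))) fun i => ‖A i ((xi (sp F) X n : ℂ) + t * Complex.I)‖
          rw [Finset.card_univ, Fintype.card_fin] at h4
          push_cast at h4
          exact h4
      _ = 2 * Real.pi * Real.log ((d : ℝ) + 1) + ∑ i, mn (fun w => Real.posLog ‖A i w‖) (xi (sp F) X n) := by
          rw [mn, intervalIntegral.integral_add intervalIntegrable_const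
            ((continuous_finsetSum _ fun i _ => hcl i).intervalIntegrable _ _), intervalIntegral.integral_const, smul_eq_mul,
            intervalIntegral.integral_finsetSum fun i _ => (hcl i).intervalIntegrable _ _]
          simp only [mn, sub_zero]

theorem not_algebraic (hF : ∀ w ∈ HP, AnalyticAt ℂ F w) (hF0 : ∀ w ∈ HP, F w ≠ 0) (hFp : ∀ w ∈ HP, F (w + per) = F w)
    (hX : Lev (sp F) X) {a : Fin (N + 1)} (ha : ∃ w ∈ HP, F w a ≠ 0) :
    ∃ c, ∀ (d : ℕ) (A : Fin (d + 1) → ℂ → ℂ), (∀ i, A i ∈ OO hX) →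
      (∀ w ∈ HP, ∑ i, A i w * F w c ^ (i : ℕ) * F w a ^ (d - i) = 0) → ∀ i, ∀ w ∈ HP, A i w = 0 := by
  classical
  by_contra hcon
  push Not at hcon
  have key : ∀ c, ∃ G y : ℂ → ℂ, G ∈ OO hX ∧ (∃ w ∈ HP, G w ≠ 0) ∧ (∀ w ∈ HP, AnalyticAt ℂ y w) ∧ (∀ w ∈ HP, y (w + per) = y w) ∧
      (∀ w ∈ HP, y w * F w a = G w * F w c) ∧ SmM (sp F) X y := by
    intro c
    obtain ⟨d, A, hA, hrel, i, w, hw, hne⟩ := hcon c
    exact exists_y hF hFp hX ha hA hrel ⟨i, w, hw, hne⟩
  choose G y hG hG0 hy hyp hyG hys using key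
  have hFi : ∀ i, ∀ w ∈ HP, AnalyticAt ℂ (fun w => F w i) w := fun i w hw =>
    ((ContinuousLinearMap.proj (R := ℂ) (φ := fun _ : Fin (N + 1) => ℂ) i).analyticAt _).comp (hF w hw)
  -- the products
  have hprod : ∀ s : Finset (Fin (N + 1)), (∏ j ∈ s, G j) ∈ OO hX := fun s => Subalgebra.prod_mem _ fun j _ => hG j
  obtain ⟨H, hH⟩ : ∃ H : ℂ → Fin (N + 1) → ℂ, H = fun w i => (∏ j ∈ Finset.univ.erase i, G j) w * y i w := ⟨_, rfl⟩
  have hHi : ∀ w i, H w i = (∏ j ∈ Finset.univ.erase i, G j) w * y i w := fun w i => by rw [hH]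
  have hHan : ∀ i, ∀ w ∈ HP, AnalyticAt ℂ (fun w => H w i) w := fun i w hw => by
    simp only [hHi]
    exact ((mem_OO.1 (hprod _)).an w hw).mul (hy i w hw)
  have hHFa : ∀ w ∈ HP, ∀ i, H w i * F w a = (∏ j, G j) w * F w i := fun w hw i => by
    rw [hHi, mul_assoc, hyG i w hw, ← mul_assoc, ← Finset.prod_erase_mul Finset.univ G (Finset.mem_univ i)]
    rfl
  have hper : ∀ w ∈ HP, w + per ∈ HP := fun w hw => by
    have h1 : (w + per).re = w.re := by simp [per]
    show 0 < (w + per).re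
    rw [h1]
    exact hw
  obtain ⟨c, hc, C, hpsh⟩ := psh_lower (F := F) (H := H) hF hF0 hFp (fun w hw => analyticAt_pi_iff.2 fun i => hHan i w hw)
    (fun w hw => by
      funext i
      rw [hHi, hHi, (mem_OO.1 (hprod _)).periodic w hw, hyp i w hw])
    (by
      -- a point where `G` and `F a` are not zero
      have ha' := ha
      obtain ⟨w₀, hw₀, -⟩ := ha'
      have h1 : ∀ᶠ z in 𝓝[≠] w₀, ∀ j, G j z ≠ 0 := eventually_all.2 fun j => ev_ne (mem_OO.1 (hG j)).an (hG0 j) hw₀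
      have h2 := ev_ne (hFi a) ha hw₀
      obtain ⟨z, ⟨hz1, hz2⟩, hz3⟩ := ((h1.and h2).and (mem_nhdsWithin_of_mem_nhds (Rg.isOpen_HP.mem_nhds hw₀))).exists
      refine ⟨z, hz3, fun h0 => ?_⟩
      have h3 := hHFa z hz3 a
      rw [h0, Pi.zero_apply, zero_mul, Finset.prod_apply] at h3
      exact mul_ne_zero (Finset.prod_ne_zero_iff.2 fun j _ => hz1 j) hz2 h3.symm)
    (fun w hw i j => by
      have h1 : ∀ w ∈ HP, (fun w => H w i * F w j) w = (fun w => H w j * F w i) w := by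
        refine cancel (Rg.cont_of_an fun w hw => (hHan i w hw).mul (hFi j w hw)) (Rg.cont_of_an fun w hw => (hHan j w hw).mul (hFi i w hw))
          (hFi a) ha fun w hw => ?_
        have h2 := hHFa w hw i
        have h3 := hHFa w hw j
        calc H w i * F w j * F w a = (H w i * F w a) * F w j := by ring
          _ = (H w j * F w a) * F w i := by rw [h2, h3]; ring
          _ = H w j * F w i * F w a := by ring
      exact h1 w hw)
  -- the contradiction
  have hsm : ∀ i, SmM (sp F) X fun w => H w i := fun i => by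
    have h1 := SmM.mul hX (Rg.cont_of_an (mem_OO.1 (hprod (Finset.univ.erase i))).an) (Rg.cont_of_an (hy i)) (smM_of_mem (hprod _)) (hys i)
    refine h1.congr hX fun w _ => ?_
    rw [hHi]
    rfl
  have h1 : SmallN (sp F) X fun n => (∑ i, mn (fun w => Real.posLog ‖H w i‖) (xi (sp F) X n)) + |C| * X n := by
    refine SmallN.add ?_ (hX.smallX.const_mul _)
    have h2 : Tendsto (fun n => ∑ i, mn (fun w => Real.posLog ‖H w i‖) (xi (sp F) X n) / tau (sp F) X n) atTop (𝓝 (∑ _i : Fin (N + 1), (0 : ℝ))) :=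
      tendsto_finsetSum _ fun i _ => hsm i
    rw [Finset.sum_const_zero] at h2
    refine h2.congr fun n => ?_
    rw [Finset.sum_div]
  have h2 : ∀ n, c / 2 ≤ ((∑ i, mn (fun w => Real.posLog ‖H w i‖) (xi (sp F) X n)) + |C| * X n) / tau (sp F) X n := by
    intro n
    have h3 := hX.tau_pos n
    have h4 := hX.xi_ge n
    have hn : (0 : ℝ) ≤ n := Nat.cast_nonneg n
    have h5 := hpsh (xi (sp F) X n) (by linarith)
    have h6 := hX.half n
    have h7 := hX.xi_lt n
    rw [le_div_iff₀ h3]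
    have h8 : C * xi (sp F) X n ≤ |C| * X n := by
      have h9 : C * xi (sp F) X n ≤ |C| * xi (sp F) X n := mul_le_mul_of_nonneg_right (le_abs_self C) (by linarith)
      have h10 : |C| * xi (sp F) X n ≤ |C| * X n := mul_le_mul_of_nonneg_left h7.le (abs_nonneg C)
      linarith
    have h9 : c * tau (sp F) X n ≤ c * (2 * TT (AA (sp F)) (xi (sp F) X n)) := mul_le_mul_of_nonneg_left h6 hc.le
    linarith
  have h3 := ge_of_tendsto' h1 h2
  linarith

end Pool.Agent.GA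

end

section

/-!
# GA Cnt: a variation field near a point of a convex open set extends to the set

`exists_continuation` (`CntA`) for the property `IsVar f F`; the local extension: `exists_linODE`, `exists_linear`, `linear_unique` (`CntB`), `isVar_of_chart`.
-/

set_option autoImplicit false

open MvPolynomial Topology Filter Metric Set
open Pool.Agent.H13.SM (conTan cone)
open Pool.Agent.H62.FC (Homog)
open Pool.Agent.GG

namespace Pool.Agent.GA

variable {N : ℕ} {P : Ideal (MvPolynomial (Fin (N + 1)) ℂ)} {J : ℕ} {m : Fin J → ℕ} {θ : ∀ k, SymSec P (m k)} {F : ℂ → Fin (N + 1) → ℂ}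
  {U : Set ℂ} {Z Z' : ℂ → Fin (N + 1) × Fin (N + 1) → ℂ}

theorem Vb_congr {w : ℂ} (h : Z =ᶠ[𝓝 w] Z') (b : Fin (N + 1)) : Vb F Z b =ᶠ[𝓝 w] Vb F Z' b := by
  filter_upwards [h] with w' hw'
  unfold Vb
  rw [hw']

theorem lhs_congr {G : MvPolynomial (Ph N) ℂ} {x V V' : ℂ → Fin (N + 1) → ℂ} {w : ℂ} (h : V =ᶠ[𝓝 w] V') : lhs G x V w = lhs G x V' w := by
  unfold lhs
  rw [h.eq_of_nhds, h.deriv_eq]

theorem IsVar.congr {f : Frame θ} {z : ℂ} (h : IsVar f F Z z) (e : Z =ᶠ[𝓝 z] Z') : IsVar f F Z' z := by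
  refine ⟨h.1.congr e, ?_⟩
  filter_upwards [h.2, eventually_eventually_nhds.2 e] with w hw he b hb
  obtain ⟨h1, h2⟩ := hw b hb
  have e1 : Z w = Z' w := he.self_of_nhds
  have he' : Z =ᶠ[𝓝 w] Z' := he
  have e2 := Vb_congr (F := F) he' b
  refine ⟨fun i j => ?_, fun l => ?_⟩
  · rw [← e1, ← e2.eq_of_nhds]
    exact h1 i j
  · rw [← lhs_congr e2]
    exact h2 l

theorem IsVar.eventually {f : Frame θ} {z : ℂ} (h : IsVar f F Z z) : ∀ᶠ w in 𝓝 z, IsVar f F Z w := by
  filter_upwards [h.1.eventually_analyticAt, eventually_eventually_nhds.2 h.2] with w h1 h2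
  exact ⟨h1, h2⟩

theorem analyticAt_Vb {b : Fin (N + 1)} {w : ℂ} (hF : AnalyticAt ℂ F w) (hZ : AnalyticAt ℂ Z w) (hb : F w b ≠ 0) : AnalyticAt ℂ (Vb F Z b) w := by
  show AnalyticAt ℂ (fun w => Vb F Z b w) w
  rw [analyticAt_pi_iff]
  intro j
  have h1 : AnalyticAt ℂ (fun w => Z w (b, j)) w := (analyticAt_pi_iff.1 hZ) (b, j)
  have h2 : AnalyticAt ℂ (fun w => F w b) w := (analyticAt_pi_iff.1 hF) b
  exact h1.div (h2.pow 2) (pow_ne_zero 2 hb)

/-- MODULE Cnt (with CntA, CntB) -/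
theorem exists_cont (hP : Homog P) (hθ : Polar θ) (hm : ∀ k, 1 ≤ m k) (f : Frame θ) (hf : HomFr f) (hF : IsCurve P F U) (hU : Convex ℝ U) {w₀ : ℂ} (hw : w₀ ∈ U)
    (hZ : IsVar f F Z w₀) : ∃ Z' : ℂ → Fin (N + 1) × Fin (N + 1) → ℂ, (∀ w ∈ U, IsVar f F Z' w) ∧ Z' =ᶠ[𝓝 w₀] Z := by
  have huniq : ∀ W : Set ℂ, Convex ℝ W → ∀ σ σ' : ℂ → Fin (N + 1) × Fin (N + 1) → ℂ, (∀ w ∈ W, IsVar f F σ w) →
      (∀ w ∈ W, IsVar f F σ' w) → ∀ z ∈ W, σ =ᶠ[𝓝 z] σ' → EqOn σ σ' W := by
    intro W hWc σ σ' h1 h2 z hz he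
    exact AnalyticOnNhd.eqOn_of_preconnected_of_eventuallyEq (fun w hw => (h1 w hw).1) (fun w hw => (h2 w hw).1) hWc.isPreconnected hz he
  refine exists_continuation hF.isOpen hU (Sol := fun σ z => IsVar f F σ z) (fun σ σ' z h e => h.congr e) (fun σ z _ h => h.eventually)
    (fun W _ hWc _ => huniq W hWc) ?_ hw hZ
  intro z hz
  obtain ⟨b, hb⟩ : ∃ b, F z b ≠ 0 := by
    by_contra hcon
    push Not at hcon
    exact (hF.mem z hz).1 (funext hcon)
  obtain ⟨ρ, hρ, hρU, hρb, B, hB, hBV⟩ := exists_linODE hP hθ hm f hf hF hz hb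
  obtain ⟨r, hr, hrρ, hBr, hsol⟩ := exists_linear (hB z (mem_ball_self hρ)) hρ
  have hsub : ball z r ⊆ ball z ρ := ball_subset_ball hrρ
  refine ⟨r, hr, hsub.trans hρU, fun W hWo hWc hWr hWn σ hσ => ?_⟩
  obtain ⟨w, hwW⟩ := hWn
  have hV₀ : ∀ s ∈ W, HasDerivAt (Vb F σ b) (B s (Vb F σ b s)) s := by
    intro s hs
    have h1 : AnalyticAt ℂ (Vb F σ b) s := analyticAt_Vb (hF.an s (hρU (hsub (hWr hs)))) (hσ s hs).1 (hρb s (hsub (hWr hs)))
    have h2 : ∀ᶠ t in 𝓝 s, ∀ l, lhs (gfam f b l) (xb F b) (Vb F σ b) t = 0 := by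
      have h3 : ∀ᶠ t in 𝓝 s, t ∈ ball z ρ := isOpen_ball.mem_nhds (hsub (hWr hs))
      filter_upwards [(hσ s hs).2, h3] with t ht ht' l
      exact (ht b (hρb t ht')).2 l
    have h4 := (hBV s (hsub (hWr hs)) (Vb F σ b) h1 h2).self_of_nhds
    rw [← h4]
    exact h1.differentiableAt.hasDerivAt
  obtain ⟨V, hVw, hV⟩ := hsol w (hWr hwW) (Vb F σ b w)
  have hVeq : EqOn V (Vb F σ b) W :=
    linear_unique hWo hWc.isPreconnected hwW (hBr w (hWr hwW)) hVw (fun s hs => hV s (hWr hs)) hV₀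
  have hVZ : V =ᶠ[𝓝 w] Vb F σ b := by
    filter_upwards [hWo.mem_nhds hwW] with s hs using hVeq hs
  obtain ⟨Z', hZ', hZZ⟩ := isVar_of_chart (f := f) hF (hsub.trans hρU) (fun s hs => hρb s (hsub hs))
    (fun s hs => analyticOnNhd_of_linear isOpen_ball hV s hs) (hWr hwW) (hσ w hwW) hVZ
  exact ⟨Z', hZ', huniq W hWc σ Z' hσ (fun s hs => hZ' s (hWr hs)) w hwW hZZ.symm⟩

end Pool.Agent.GA

end
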