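import Pool.Agent.H18.GGT.M17
import Pool.Agent.H18.GGT.M24

/-! The parts of this file: GA.RelC, H62.Qe.Ext, H7.Qup.An. -/

section

/-!
# GA RelC: relations of the curve and of its derivative; change of the chart

`evO_lin`: the linearised equation of `R` at `w` is the derivative at `t = 0` of `t ↦ R_w (y + t W)`, `R_w` = `R` with the coefficients evaluated at `w`.  For `relP_chart`: `G' (x, v) = x_b ^ e G (φ (x, v))`,
`φ (x, v) = (x / x_b, v / x_b - v_b x / x_b ^ 2)`, `R = X_b G' - g X_b ^ (e + 1)`: `R_w (y + t W) = (x_b + t V_b) ^ (e + 1) (G (φ (y + t W)) - g w)`.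
-/

set_option autoImplicit false

open MvPolynomial Topology Filter Metric
open Pool.Agent.H13.SM (conTan cone)
open Pool.Agent.H62.FC (Homog)
open Pool.Agent.GG

namespace Pool.Agent.GA

variable {N : ℕ} {OO : Subalgebra ℂ (ℂ → ℂ)}

/-- the linearised equation as a derivative -/
theorem evO_lin {σ : Type} [Fintype σ] (y : ℂ → σ → ℂ) (R : MvPolynomial σ OO) (w : ℂ) (W : σ → ℂ) :
    HasDerivAt (fun t : ℂ => eval (y w + t • W) (map (ev0 OO w) R)) (∑ s, evO OO y (pderiv s R) w * W s) 0 := by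
  have h0 : HasDerivAt (fun t : ℂ => y w + t • W) W 0 := by
    have h1 : HasDerivAt (fun t : ℂ => t • W) ((1 : ℂ) • W) 0 := (hasDerivAt_id (0 : ℂ)).smul_const W
    rw [one_smul] at h1
    exact h1.const_add (y w)
  have h1 := Chart_hasDerivAt (map (ev0 OO w) R) h0
  have h2 : ∑ s, evO OO y (pderiv s R) w * W s = ∑ s, W s * eval (y w + (0 : ℂ) • W) (pderiv s (map (ev0 OO w) R)) := by
    refine Finset.sum_congr rfl fun s _ => ?_
    rw [zero_smul, add_zero, pderiv_map, eval_map, evO, mul_comm]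
  rw [h2]
  exact h1

theorem ev0_algebraMap (w : ℂ) : (ev0 OO w).comp (algebraMap ℂ OO) = RingHom.id ℂ := by
  ext
  rfl

theorem evO_map {σ : Type} (y : ℂ → σ → ℂ) (G : MvPolynomial σ ℂ) (w : ℂ) : evO OO y (map (algebraMap ℂ OO) G) w = eval (y w) G := by
  rw [evO, eval₂_map, ev0_algebraMap]
  rfl

theorem map_map_ev0 {σ : Type} (G : MvPolynomial σ ℂ) (w : ℂ) : map (ev0 OO w) (map (algebraMap ℂ OO) G) = G := by
  rw [MvPolynomial.map_map, ev0_algebraMap, MvPolynomial.map_id]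

theorem RelP.relX {x V : ℂ → Fin (N + 1) → ℂ} {w₀ : ℂ} (h : RelP OO x V w₀) : RelX OO x V w₀ := by
  intro R hR
  have h1 := h (rename Sum.inl R) (by
    filter_upwards [hR] with w hw
    rw [evO, eval₂_rename]
    exact hw)
  filter_upwards [h1] with w hw
  have h2 := evO_lin (fun w => pt (x w) (deriv x w)) (rename Sum.inl R) w (pt (V w) (deriv V w))
  have h3 := evO_lin x R w (V w)
  have h4 : (fun t : ℂ => eval (pt (x w) (deriv x w) + t • pt (V w) (deriv V w)) (map (ev0 OO w) (rename Sum.inl R))) =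
      fun t : ℂ => eval (x w + t • V w) (map (ev0 OO w) R) := by
    funext t
    rw [map_rename, eval_rename]
    rfl
  rw [h4, hw] at h2
  exact h3.unique h2

theorem RelP.lhs {x V : ℂ → Fin (N + 1) → ℂ} {w₀ : ℂ} (h : RelP OO x V w₀) {G : MvPolynomial (Ph N) ℂ} {g : ℂ → ℂ} (hg : g ∈ OO)
    (hG : ∀ᶠ w in 𝓝 w₀, eval (pt (x w) (deriv x w)) G = g w) : ∀ᶠ w in 𝓝 w₀, lhs G x V w = 0 := by
  have h1 := h (map (algebraMap ℂ OO) G - C ⟨g, hg⟩) (by
    filter_upwards [hG] with w hw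
    have h2 : evO OO (fun w => pt (x w) (deriv x w)) (map (algebraMap ℂ OO) G - C ⟨g, hg⟩) w =
        evO OO (fun w => pt (x w) (deriv x w)) (map (algebraMap ℂ OO) G) w - evO OO (fun w => pt (x w) (deriv x w)) (C ⟨g, hg⟩) w := by
      rw [evO, eval₂_sub]
      rfl
    rw [h2, evO_map, hw, evO, eval₂_C]
    exact sub_self (g w))
  filter_upwards [h1] with w hw
  rw [← hw, GA.lhs]
  refine Finset.sum_congr rfl fun s _ => ?_
  have h3 : pderiv s (map (algebraMap ℂ OO) G - C ⟨g, hg⟩) = map (algebraMap ℂ OO) (pderiv s G) := by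
    rw [map_sub, pderiv_C, pderiv_map]
    exact sub_zero (map (algebraMap ℂ OO) (pderiv s G))
  rw [h3, evO_map]

/-- the point in the chart `x_b = 1` -/
noncomputable def chg (b : Fin (N + 1)) (y : Ph N → ℂ) : Ph N → ℂ :=
  Sum.elim (fun j => (y (Sum.inl b))⁻¹ * y (Sum.inl j)) fun j => (y (Sum.inl b))⁻¹ * y (Sum.inr j) - y (Sum.inr b) / y (Sum.inl b) ^ 2 * y (Sum.inl j)

/-- the polynomial in the other coordinates -/
theorem exists_chg (b : Fin (N + 1)) (G : MvPolynomial (Ph N) ℂ) : ∃ (e : ℕ) (G' : MvPolynomial (Ph N) ℂ), ∀ y : Ph N → ℂ, y (Sum.inl b) ≠ 0 →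
    eval y G' = y (Sum.inl b) ^ e * eval (chg b y) G := by
  induction G using MvPolynomial.induction_on with
  | C c => exact ⟨0, C c, fun y _ => by simp⟩
  | add p q hp hq =>
    obtain ⟨e, p', hp⟩ := hp
    obtain ⟨d, q', hq⟩ := hq
    refine ⟨e + d, X (Sum.inl b) ^ d * p' + X (Sum.inl b) ^ e * q', fun y hy => ?_⟩
    rw [map_add, map_mul, map_mul, map_pow, map_pow, eval_X, hp y hy, hq y hy, map_add]
    ring
  | mul_X p i hp =>
    obtain ⟨e, p', hp⟩ := hp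
    cases i with
    | inl j =>
      refine ⟨e + 1, p' * X (Sum.inl j), fun y hy => ?_⟩
      rw [map_mul, eval_X, hp y hy, map_mul, eval_X]
      simp only [chg, Sum.elim_inl]
      field_simp
      ring
    | inr j =>
      refine ⟨e + 2, p' * (X (Sum.inl b) * X (Sum.inr j) - X (Sum.inr b) * X (Sum.inl j)), fun y hy => ?_⟩
      rw [map_mul, map_sub, map_mul, map_mul, eval_X, eval_X, eval_X, eval_X, hp y hy, map_mul, eval_X]
      simp only [chg, Sum.elim_inr]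
      field_simp
      ring

private theorem sc1 {a c : ℂ → ℂ} {a' c' w : ℂ} (ha : HasDerivAt a a' w) (hc : HasDerivAt c c' w) (h : a w ≠ 0) :
    HasDerivAt (fun w => (a w)⁻¹ * c w) ((a w)⁻¹ * c' - a' / a w ^ 2 * c w) w := by
  have h1 := (ha.inv h).mul hc
  have h2 : (a w)⁻¹ * c' - a' / a w ^ 2 * c w = -a' / a w ^ 2 * c w + (a w)⁻¹ * c' := by ring
  rw [h2]
  exact h1

private theorem sc3 {a c u d : ℂ → ℂ} {a' c' u' d' w : ℂ} (ha : HasDerivAt a a' w) (hc : HasDerivAt c c' w) (hu : HasDerivAt u u' w)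
    (hd : HasDerivAt d d' w) (h : a w ≠ 0) : HasDerivAt (fun w => (a w)⁻¹ * c w - u w / a w ^ 2 * d w)
      ((a w)⁻¹ * c' - a' / a w ^ 2 * c w - u' / a w ^ 2 * d w - u w / a w ^ 2 * d' + 2 * (u w * a' / a w ^ 3) * d w) w := by
  have h1 := sc1 ha hc h
  have h2 : HasDerivAt (fun w => a w ^ 2) (2 * a w * a') w := by
    have h3 := ha.pow 2
    have h4 : 2 * a w * a' = ((2 : ℕ) : ℂ) * a w ^ (2 - 1) * a' := by norm_num
    rw [h4]
    exact h3
  have h3 : HasDerivAt (fun w => u w / a w ^ 2) ((u' * a w ^ 2 - u w * (2 * a w * a')) / (a w ^ 2) ^ 2) w := hu.div h2 (pow_ne_zero 2 h)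
  have h4 : HasDerivAt (fun w => u w / a w ^ 2 * d w) ((u' * a w ^ 2 - u w * (2 * a w * a')) / (a w ^ 2) ^ 2 * d w + u w / a w ^ 2 * d') w := h3.mul hd
  have h5 : (a w)⁻¹ * c' - a' / a w ^ 2 * c w - u' / a w ^ 2 * d w - u w / a w ^ 2 * d' + 2 * (u w * a' / a w ^ 3) * d w =
      (a w)⁻¹ * c' - a' / a w ^ 2 * c w - ((u' * a w ^ 2 - u w * (2 * a w * a')) / (a w ^ 2) ^ 2 * d w + u w / a w ^ 2 * d') := by
    field_simp
    ring
  rw [h5]
  exact h1.sub h4

/-- the point in the chart along a curve -/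
theorem chg_curve {x : ℂ → Fin (N + 1) → ℂ} {w : ℂ} (hx : DifferentiableAt ℂ x w) {b : Fin (N + 1)} (hb : x w b ≠ 0) :
    chg b (pt (x w) (deriv x w)) = pt ((x w b)⁻¹ • x w) (deriv (fun w => (x w b)⁻¹ • x w) w) := by
  have hx' := hx.hasDerivAt
  have h1 : HasDerivAt (fun w => (x w b)⁻¹ • x w) (fun j => (x w b)⁻¹ * deriv x w j - deriv x w b / x w b ^ 2 * x w j) w :=
    hasDerivAt_pi.2 fun j => sc1 (hasDerivAt_pi.1 hx' b) (hasDerivAt_pi.1 hx' j) hb
  rw [h1.deriv]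
  rfl

/-- the variation in the chart -/
theorem hasDerivAt_chg {x V : ℂ → Fin (N + 1) → ℂ} {w : ℂ} (hx : DifferentiableAt ℂ x w) (hV : DifferentiableAt ℂ V w) {b : Fin (N + 1)} (hb : x w b ≠ 0) :
    HasDerivAt (fun t : ℂ => chg b (pt (x w) (deriv x w) + t • pt (V w) (deriv V w)))
      (pt ((x w b)⁻¹ • V w - (V w b / x w b ^ 2) • x w) (deriv (fun w => (x w b)⁻¹ • V w - (V w b / x w b ^ 2) • x w) w)) 0 := by
  have hx' := hx.hasDerivAt
  have hV' := hV.hasDerivAt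
  obtain ⟨v, hv⟩ : ∃ v, v = deriv x w := ⟨_, rfl⟩
  obtain ⟨V', hVV⟩ : ∃ V', V' = deriv V w := ⟨_, rfl⟩
  rw [← hv] at hx' ⊢
  rw [← hVV] at hV' ⊢
  have hd : HasDerivAt (fun w => (x w b)⁻¹ • V w - (V w b / x w b ^ 2) • x w)
      (fun j => (x w b)⁻¹ * V' j - v b / x w b ^ 2 * V w j - V' b / x w b ^ 2 * x w j - V w b / x w b ^ 2 * v j + 2 * (V w b * v b / x w b ^ 3) * x w j) w :=
    hasDerivAt_pi.2 fun j => sc3 (hasDerivAt_pi.1 hx' b) (hasDerivAt_pi.1 hV' j) (hasDerivAt_pi.1 hV' b) (hasDerivAt_pi.1 hx' j) hb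
  rw [hd.deriv]
  have hl : ∀ a c : ℂ, HasDerivAt (fun t : ℂ => a + t * c) c 0 := by
    intro a c
    have h1 : HasDerivAt (fun t : ℂ => t * c) (1 * c) 0 := (hasDerivAt_id (0 : ℂ)).mul_const c
    rw [one_mul] at h1
    exact h1.const_add a
  refine hasDerivAt_pi.2 fun s => ?_
  cases s with
  | inl j =>
    have h1 := sc1 (hl (x w b) (V w b)) (hl (x w j) (V w j)) (w := 0) (by simpa using hb)
    have h2 : ((x w b)⁻¹ • V w - (V w b / x w b ^ 2) • x w) j =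
        (x w b + 0 * V w b)⁻¹ * V w j - V w b / (x w b + 0 * V w b) ^ 2 * (x w j + 0 * V w j) := by
      simp only [zero_mul, add_zero]
      rfl
    show HasDerivAt _ (((x w b)⁻¹ • V w - (V w b / x w b ^ 2) • x w) j) 0
    rw [h2]
    exact h1
  | inr j =>
    have h1 := sc3 (hl (x w b) (V w b)) (hl (v j) (V' j)) (hl (v b) (V' b)) (hl (x w j) (V w j)) (w := 0) (by simpa using hb)
    have h2 : (x w b)⁻¹ * V' j - v b / x w b ^ 2 * V w j - V' b / x w b ^ 2 * x w j - V w b / x w b ^ 2 * v j + 2 * (V w b * v b / x w b ^ 3) * x w j =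
        (x w b + 0 * V w b)⁻¹ * V' j - V w b / (x w b + 0 * V w b) ^ 2 * (v j + 0 * V' j) - V' b / (x w b + 0 * V w b) ^ 2 * (x w j + 0 * V w j) -
          (v b + 0 * V' b) / (x w b + 0 * V w b) ^ 2 * V w j + 2 * ((v b + 0 * V' b) * V w b / (x w b + 0 * V w b) ^ 3) * (x w j + 0 * V w j) := by
      simp only [zero_mul, add_zero]
      ring
    show HasDerivAt _ ((x w b)⁻¹ * V' j - v b / x w b ^ 2 * V w j - V' b / x w b ^ 2 * x w j - V w b / x w b ^ 2 * v j + 2 * (V w b * v b / x w b ^ 3) * x w j) 0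
    rw [h2]
    exact h1

theorem relP_chart {x V : ℂ → Fin (N + 1) → ℂ} {w₀ : ℂ} (hx : AnalyticAt ℂ x w₀) (hV : AnalyticAt ℂ V w₀) (h : RelP OO x V w₀) (b : Fin (N + 1))
    {G : MvPolynomial (Ph N) ℂ} {g : ℂ → ℂ} (hg : g ∈ OO)
    (hG : ∀ᶠ w in 𝓝 w₀, x w b ≠ 0 → eval (pt ((x w b)⁻¹ • x w) (deriv (fun w => (x w b)⁻¹ • x w) w)) G = g w) :
    ∀ᶠ w in 𝓝 w₀, x w b ≠ 0 → GA.lhs G (fun w => (x w b)⁻¹ • x w) (fun w => (x w b)⁻¹ • V w - (V w b / x w b ^ 2) • x w) w = 0 := by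
  obtain ⟨e, G', hG'⟩ := exists_chg b G
  obtain ⟨R, hR⟩ : ∃ R : MvPolynomial (Ph N) OO, R = X (Sum.inl b) * map (algebraMap ℂ OO) G' - C ⟨g, hg⟩ * X (Sum.inl b) ^ (e + 1) := ⟨_, rfl⟩
  have hRw : ∀ w, map (ev0 OO w) R = X (Sum.inl b) * G' - C (g w) * X (Sum.inl b) ^ (e + 1) := by
    intro w
    rw [hR, map_sub, map_mul, map_mul, map_pow, map_X, map_C, map_map_ev0]
    rfl
  have hRe : ∀ (w : ℂ) (y : Ph N → ℂ), y (Sum.inl b) ≠ 0 → eval y (map (ev0 OO w) R) = y (Sum.inl b) ^ (e + 1) * (eval (chg b y) G - g w) := by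
    intro w y hy
    rw [hRw, map_sub, map_mul, map_mul, map_pow, eval_X, eval_C, hG' y hy]
    ring
  have hRv : ∀ w (y : ℂ → Ph N → ℂ), evO OO y R w = eval (y w) (map (ev0 OO w) R) := by
    intro w y
    rw [eval_map, evO]
  have h1 := h R (by
    filter_upwards [hG, hx.eventually_analyticAt] with w hw hxw
    rw [hRv]
    by_cases hb : x w b = 0
    · rw [hRw, map_sub, map_mul, map_mul, map_pow, eval_X, eval_C]
      have hb' : pt (x w) (deriv x w) (Sum.inl b) = 0 := hb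
      rw [hb', zero_mul, zero_pow (Nat.succ_ne_zero e), mul_zero, sub_zero]
    · rw [hRe w (pt (x w) (deriv x w)) hb, chg_curve hxw.differentiableAt hb, hw hb, sub_self, mul_zero])
  filter_upwards [h1, hG, hx.eventually_analyticAt, hV.eventually_analyticAt] with w hw hGw hxw hVw hb
  have h2 := evO_lin (fun w => pt (x w) (deriv x w)) R w (pt (V w) (deriv V w))
  rw [hw] at h2
  have h4 := Chart_hasDerivAt G (hasDerivAt_chg hxw.differentiableAt hVw.differentiableAt hb)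
  rw [zero_smul, add_zero, chg_curve hxw.differentiableAt hb] at h4
  have hlin : HasDerivAt (fun t : ℂ => (pt (x w) (deriv x w) + t • pt (V w) (deriv V w)) (Sum.inl b)) (V w b) 0 := by
    have h5 : HasDerivAt (fun t : ℂ => t * V w b) (1 * V w b) 0 := (hasDerivAt_id (0 : ℂ)).mul_const _
    rw [one_mul] at h5
    exact h5.const_add (x w b)
  have h5 := (hlin.pow (e + 1)).mul (h4.sub_const (g w))
  rw [zero_smul, add_zero, chg_curve hxw.differentiableAt hb, hGw hb, sub_self, mul_zero, zero_add] at h5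
  have h6 : (fun t : ℂ => eval (pt (x w) (deriv x w) + t • pt (V w) (deriv V w)) (map (ev0 OO w) R)) =ᶠ[𝓝 0]
      fun t : ℂ => ((pt (x w) (deriv x w) + t • pt (V w) (deriv V w)) (Sum.inl b)) ^ (e + 1) *
        (eval (chg b (pt (x w) (deriv x w) + t • pt (V w) (deriv V w))) G - g w) := by
    have h7 : ∀ᶠ t in 𝓝 (0 : ℂ), (pt (x w) (deriv x w) + t • pt (V w) (deriv V w)) (Sum.inl b) ≠ 0 :=
      hlin.continuousAt.eventually_ne (by rw [zero_smul, add_zero]; exact hb)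
    filter_upwards [h7] with t ht
    exact hRe w _ ht
  have h8 := (h2.congr_of_eventuallyEq h6.symm).unique h5
  have h9 : x w b ^ (e + 1) * GA.lhs G (fun w => (x w b)⁻¹ • x w) (fun w => (x w b)⁻¹ • V w - (V w b / x w b ^ 2) • x w) w = 0 := by
    refine Eq.trans ?_ h8.symm
    have h10 : x w b ^ (e + 1) = (fun t : ℂ => (pt (x w) (deriv x w) + t • pt (V w) (deriv V w)) (Sum.inl b)) 0 ^ (e + 1) := by
      simp
    rw [h10, GA.lhs]
    exact congrArg (fun u : ℂ => _ * u) (Finset.sum_congr rfl fun s _ => mul_comm _ _)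
  exact (mul_eq_zero.1 h9).resolve_left (pow_ne_zero _ hb)

end Pool.Agent.GA

end

section

/-!
# Qe Ext: extension of holomorphic maps of the punctured disc
-/

set_option autoImplicit false

open Topology Filter MvPolynomial

noncomputable section

namespace Pool.Agent.H62.Qe

open Pool.Agent.H17 (PN VanishesAt HolomorphicInto puncturedDisc vanishesAt_mk_iff)
open Pool.Agent.H17EF (projVar)
open Pool.Agent.H7.Bir (vals rmap rmap_mk vals_smul)

variable {N M : ℕ}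

/-- If `f (z ^ k)` is given by holomorphic homogeneous coordinates near `0` then `f` extends to the disc. -/
theorem extend_of_pow {f : ℂ → PN N} (hf : HolomorphicInto f puncturedDisc) {k : ℕ} (hk : 1 ≤ k) {Φ : ℂ → Fin (N + 1) → ℂ}
    (hΦ : ContinuousAt Φ 0) (hΦ0 : Φ 0 ≠ 0) (hΦf : ∀ᶠ z in 𝓝 (0 : ℂ), z ≠ 0 → ∃ h : Φ z ≠ 0, f (z ^ k) = Projectivization.mk ℂ (Φ z) h) :
    ∃ g : ℂ → PN N, HolomorphicInto g (Metric.ball 0 1) ∧ ∀ z ∈ puncturedDisc, g z = f z := by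
  classical
  obtain ⟨j, hj⟩ : ∃ j, Φ 0 j ≠ 0 := by
    by_contra hcon
    push Not at hcon
    exact hΦ0 (funext hcon)
  set S : ℂ → Fin (N + 1) → ℂ := fun w => ((f w).rep j)⁻¹ • (f w).rep with hS
  -- ratios of homogeneous coordinates
  have hSmk : ∀ (w : ℂ) (x : Fin (N + 1) → ℂ) (hx : x ≠ 0), f w = Projectivization.mk ℂ x hx → S w = (x j)⁻¹ • x := by
    intro w x hx h
    obtain ⟨a, ha⟩ := Projectivization.exists_smul_eq_mk_rep ℂ x hx
    have h1 : (f w).rep = (a : ℂ) • x := by rw [h]; exact ha.symm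
    rw [hS]
    simp only [h1, Pi.smul_apply, smul_eq_mul]
    rw [smul_smul, mul_inv, mul_comm (a : ℂ)⁻¹, mul_assoc, inv_mul_cancel₀ a.ne_zero, mul_one]
  -- a punctured neighbourhood on which the coordinates are controlled
  have h1 : ContinuousAt (fun z => (Φ z j)⁻¹ • Φ z) 0 := by
    have h2 : ContinuousAt (fun z => Φ z j) 0 := (continuous_apply j).continuousAt.comp hΦ
    exact (h2.inv₀ hj).smul hΦ
  have h2 : ∀ᶠ z in 𝓝 (0 : ℂ), ‖(Φ z j)⁻¹ • Φ z‖ < ‖(Φ 0 j)⁻¹ • Φ 0‖ + 1 :=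
    h1.norm.eventually_lt continuousAt_const (lt_add_one _)
  have h3 : ∀ᶠ z in 𝓝 (0 : ℂ), Φ z j ≠ 0 := ((continuous_apply j).continuousAt.comp hΦ).eventually_ne hj
  obtain ⟨ρ, hρ, hρb⟩ := Metric.eventually_nhds_iff_ball.1 ((hΦf.and h2).and h3)
  set r : ℝ := min (ρ ^ k) 1 with hr
  have hr0 : 0 < r := lt_min (pow_pos hρ k) one_pos
  have hroot : ∀ w ∈ Metric.ball (0 : ℂ) r \ {0}, ∃ z ∈ Metric.ball (0 : ℂ) ρ, z ≠ 0 ∧ z ^ k = w := by
    intro w hw
    obtain ⟨z, hz⟩ := IsAlgClosed.exists_pow_nat_eq w (by omega : 0 < k)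
    refine ⟨z, ?_, ?_, hz⟩
    · rw [mem_ball_zero_iff]
      by_contra hcon
      push Not at hcon
      have h4 : ρ ^ k ≤ ‖z‖ ^ k := pow_le_pow_left₀ hρ.le hcon k
      rw [← norm_pow, hz] at h4
      have h5 : ‖w‖ < r := by
        rw [← mem_ball_zero_iff]
        exact hw.1
      exact absurd (lt_of_lt_of_le h5 (min_le_left _ _)) (not_lt.2 h4)
    · rintro rfl
      apply hw.2
      rw [Set.mem_singleton_iff, ← hz, zero_pow (by omega)]
  have hmem : ∀ w ∈ Metric.ball (0 : ℂ) r \ {0}, w ∈ puncturedDisc := fun w hw =>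
    ⟨Metric.ball_subset_ball (min_le_right _ _) hw.1, hw.2⟩
  have hval : ∀ w ∈ Metric.ball (0 : ℂ) r \ {0}, (f w).rep j ≠ 0 ∧ ‖S w‖ ≤ ‖(Φ 0 j)⁻¹ • Φ 0‖ + 1 := by
    intro w hw
    obtain ⟨z, hz, hz0, hzw⟩ := hroot w hw
    obtain ⟨⟨h4, h5⟩, h6⟩ := hρb z hz
    obtain ⟨h7, h8⟩ := h4 hz0
    rw [hzw] at h8
    refine ⟨?_, ?_⟩
    · obtain ⟨a, ha⟩ := Projectivization.exists_smul_eq_mk_rep ℂ (Φ z) h7
      have h9 : (f w).rep = (a : ℂ) • Φ z := by rw [h8]; exact ha.symm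
      rw [h9]
      exact mul_ne_zero a.ne_zero h6
    · rw [hSmk w _ h7 h8]
      exact h5.le
  have hd : DifferentiableOn ℂ S (Metric.ball (0 : ℂ) r \ {0}) := by
    intro w hw
    obtain ⟨φ, h4, h5⟩ := hf w (hmem w hw)
    have h6 : φ w j ≠ 0 := by
      obtain ⟨h7, h8⟩ := h5.self_of_nhds
      obtain ⟨a, ha⟩ := Projectivization.exists_smul_eq_mk_rep ℂ (φ w) h7
      have h9 : (f w).rep = (a : ℂ) • φ w := by rw [h8]; exact ha.symm
      have h10 := (hval w hw).1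
      rw [h9] at h10
      exact right_ne_zero_of_mul h10
    have h7 : AnalyticAt ℂ (fun z => (φ z j)⁻¹ • φ z) w := by
      have h8 : AnalyticAt ℂ (fun z => φ z j) w := analyticAt_pi_iff.1 h4 j
      exact (h8.inv h6).smul h4
    refine DifferentiableAt.differentiableWithinAt (h7.differentiableAt.congr_of_eventuallyEq ?_)
    filter_upwards [h5] with z hz
    obtain ⟨h8, h9⟩ := hz
    exact hSmk z _ h8 h9
  have hb : BddAbove (norm ∘ S '' (Metric.ball (0 : ℂ) r \ {0})) := by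
    refine ⟨‖(Φ 0 j)⁻¹ • Φ 0‖ + 1, ?_⟩
    rintro _ ⟨w, hw, rfl⟩
    exact (hval w hw).2
  have hu := Complex.differentiableOn_update_limUnder_of_bddAbove (Metric.ball_mem_nhds (0 : ℂ) hr0) hd hb
  set S' : ℂ → Fin (N + 1) → ℂ := Function.update S 0 (limUnder (𝓝[≠] 0) S) with hS'
  have hS'a : AnalyticAt ℂ S' 0 := hu.analyticAt (Metric.ball_mem_nhds (0 : ℂ) hr0)
  have hS'eq : ∀ w, w ≠ 0 → S' w = S w := fun w hw => Function.update_of_ne hw _ _
  have hS'j : ∀ᶠ w in 𝓝[≠] (0 : ℂ), S' w j = 1 := by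
    have h4 : Metric.ball (0 : ℂ) r \ {0} ∈ 𝓝[≠] (0 : ℂ) := sdiff_mem_nhdsWithin_compl (Metric.ball_mem_nhds _ hr0) _
    filter_upwards [h4] with w hw
    rw [hS'eq w hw.2]
    exact inv_mul_cancel₀ (hval w hw).1
  have hS'0 : S' 0 j = 1 := by
    have h4 : Tendsto (fun w => S' w j) (𝓝[≠] (0 : ℂ)) (𝓝 (S' 0 j)) :=
      ((continuous_apply j).continuousAt.comp hS'a.continuousAt).tendsto.mono_left nhdsWithin_le_nhds
    have h5 : Tendsto (fun w => S' w j) (𝓝[≠] (0 : ℂ)) (𝓝 1) := tendsto_const_nhds.congr' (hS'j.mono fun w hw => hw.symm)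
    exact tendsto_nhds_unique h4 h5
  have hne : S' 0 ≠ 0 := by
    intro h
    rw [h] at hS'0
    exact zero_ne_one hS'0
  have hS'ne : ∀ᶠ w in 𝓝 (0 : ℂ), S' w ≠ 0 := hS'a.continuousAt.eventually_ne hne
  refine ⟨fun w => if w = 0 then Projectivization.mk ℂ (S' 0) hne else f w, fun w₀ hw₀ => ?_, fun w hw => if_neg hw.2⟩
  by_cases h0 : w₀ = 0
  · subst h0
    refine ⟨S', hS'a, ?_⟩
    filter_upwards [hS'ne, Metric.ball_mem_nhds (0 : ℂ) hr0] with w h4 h5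
    refine ⟨h4, ?_⟩
    by_cases hw : w = 0
    · subst hw
      rw [if_pos rfl]
    · rw [if_neg hw, ← Projectivization.mk_rep (f w), Projectivization.mk_eq_mk_iff']
      have h6 := (hval w ⟨h5, hw⟩).1
      refine ⟨(f w).rep j, ?_⟩
      rw [hS'eq w hw]
      show (f w).rep j • (((f w).rep j)⁻¹ • (f w).rep) = (f w).rep
      rw [smul_smul, mul_inv_cancel₀ h6, one_smul]
  · obtain ⟨φ, h4, h5⟩ := hf w₀ ⟨hw₀, h0⟩
    refine ⟨φ, h4, ?_⟩
    filter_upwards [h5, isOpen_ne.mem_nhds h0] with w h6 h7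
    rw [if_neg h7]
    exact h6

/-- If a lift `g` of `f (z ^ k)` extends to the disc, then `f` extends. -/
theorem extend_of_lift {P : Ideal (MvPolynomial (Fin (N + 1)) ℂ)} {P' : Ideal (MvPolynomial (Fin (M + 1)) ℂ)} {p : PN M → PN N}
    (hp : IsReg P P' p) {f : ℂ → PN N} (hf : HolomorphicInto f puncturedDisc) {k : ℕ} (hk : 1 ≤ k) {g ĝ : ℂ → PN M}
    (hgX : ∀ z ∈ puncturedDisc, g z ∈ projVar P') (hgf : ∀ z ∈ puncturedDisc, p (g z) = f (z ^ k))
    (hĝ : HolomorphicInto ĝ (Metric.ball 0 1)) (hgg : ∀ z ∈ puncturedDisc, ĝ z = g z) :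
    ∃ g₀ : ℂ → PN N, HolomorphicInto g₀ (Metric.ball 0 1) ∧ ∀ z ∈ puncturedDisc, g₀ z = f z := by
  obtain ⟨ψ, hψ, hψg⟩ := hĝ 0 (Metric.mem_ball_self one_pos)
  obtain ⟨hψ0, hψ0g⟩ := hψg.self_of_nhds
  have hD : ∀ᶠ z in 𝓝 (0 : ℂ), z ≠ 0 → z ∈ puncturedDisc := by
    filter_upwards [Metric.ball_mem_nhds (0 : ℂ) one_pos] with z h1 h2
    exact ⟨h1, h2⟩
  -- the value at `0` belongs to `X'`
  have h0X : ĝ 0 ∈ projVar P' := by
    intro Q hQ n hn
    rw [hψ0g, vanishesAt_mk_iff hn]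
    have h1 : Tendsto (fun z => eval (ψ z) Q) (𝓝[≠] (0 : ℂ)) (𝓝 (eval (ψ 0) Q)) := by
      have h2 : ContinuousAt (fun z => eval (ψ z) Q) 0 :=
        ContinuousAt.comp (g := fun x => eval x Q) (f := ψ) (MvPolynomial.continuous_eval Q).continuousAt hψ.continuousAt
      exact h2.tendsto.mono_left nhdsWithin_le_nhds
    have h2 : Tendsto (fun z => eval (ψ z) Q) (𝓝[≠] (0 : ℂ)) (𝓝 0) := by
      refine tendsto_const_nhds.congr' ?_
      rw [EventuallyEq, eventually_nhdsWithin_iff]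
      filter_upwards [hψg, hD] with z h3 h4 h5
      obtain ⟨h6, h7⟩ := h3
      have h8 := hgX z (h4 h5)
      rw [← hgg z (h4 h5), h7] at h8
      have h9 := h8 Q hQ n hn
      rw [vanishesAt_mk_iff hn] at h9
      exact h9.symm
    exact tendsto_nhds_unique h1 h2
  obtain ⟨D, γ, hγ, hγ0, hγp⟩ := hp.regular (ĝ 0) h0X
  have hrep : ∀ (x : Fin (M + 1) → ℂ) (hx : x ≠ 0), vals γ (Projectivization.mk ℂ x hx).rep ≠ 0 ↔ vals γ x ≠ 0 := by
    intro x hx
    obtain ⟨a, ha⟩ := Projectivization.exists_smul_eq_mk_rep ℂ x hx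
    have h1 : (Projectivization.mk ℂ x hx).rep = (a : ℂ) • x := ha.symm
    rw [h1, vals_smul hγ]
    constructor
    · intro h h2
      rw [h2, smul_zero] at h
      exact h rfl
    · exact fun h => smul_ne_zero (pow_ne_zero _ a.ne_zero) h
  have hv0 : vals γ (ψ 0) ≠ 0 := by
    rw [← hrep _ hψ0, ← hψ0g]
    exact hγ0
  have hvc : ContinuousAt (fun z => vals γ (ψ z)) 0 := by
    have hc : Continuous fun x : Fin (M + 1) → ℂ => vals γ x := continuous_pi fun i => MvPolynomial.continuous_eval (γ i)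
    exact ContinuousAt.comp (g := fun x => vals γ x) (f := ψ) hc.continuousAt hψ.continuousAt
  refine extend_of_pow hf hk hvc hv0 ?_
  filter_upwards [hψg, hD, hvc.eventually_ne hv0] with z h1 h2 h3 h4
  obtain ⟨h5, h6⟩ := h1
  refine ⟨h3, ?_⟩
  have h7 : ĝ z ∈ projVar P' := by
    rw [hgg z (h2 h4)]
    exact hgX z (h2 h4)
  have h8 : vals γ (ĝ z).rep ≠ 0 := by
    rw [h6, hrep _ h5]
    exact h3
  rw [← hgf z (h2 h4), ← hgg z (h2 h4), hγp _ h7 h8, h6, rmap_mk hγ h5 h3]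

end Pool.Agent.H62.Qe

end
end

section

/-!
# Qup An: holomorphic maps and dominant regular maps
-/

set_option autoImplicit false

open Topology Filter MvPolynomial

noncomputable section

namespace Pool.Agent.H7.Qup

open Pool.Agent.H17 (PN VanishesAt HolomorphicInto puncturedDisc vanishesAt_mk_iff)
open Pool.Agent.H62.SA (locVar)
open Pool.Agent.H7.Bir (vals rmap vals_smul rmap_mk pn_identity)

variable {N M : ℕ} {P : Ideal (MvPolynomial (Fin (N + 1)) ℂ)} {P' : Ideal (MvPolynomial (Fin (M + 1)) ℂ)} {s s' : ℕ}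
  {G : Fin s → MvPolynomial (Fin (N + 1)) ℂ} {G' : Fin s' → MvPolynomial (Fin (M + 1)) ℂ} {p : PN M → PN N}

theorem vals_rep_ne {D : ℕ} {γ : Fin (N + 1) → MvPolynomial (Fin (M + 1)) ℂ} (hγ : ∀ i, (γ i).IsHomogeneous D)
    {y : Fin (M + 1) → ℂ} (hy : y ≠ 0) : vals γ (Projectivization.mk ℂ y hy).rep ≠ 0 ↔ vals γ y ≠ 0 := by
  obtain ⟨a, ha⟩ := Projectivization.exists_smul_eq_mk_rep ℂ y hy
  have h1 : (Projectivization.mk ℂ y hy).rep = (a : ℂ) • y := ha.symm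
  rw [h1, vals_smul hγ, smul_ne_zero_iff]
  exact ⟨fun h => h.2, fun h => ⟨pow_ne_zero _ a.ne_zero, h⟩⟩

/-- A continuous function with values in the roots of a polynomial. -/
theorem const_of_root {m : ℕ} {b : Fin (m + 1) → ℂ} (hb : b (Fin.last m) ≠ 0) {ρ : ℂ → ℂ} {z₀ : ℂ} {r : ℝ}
    (hρ : ContinuousOn ρ (Metric.ball z₀ r)) (h : ∀ z ∈ Metric.ball z₀ r, ∑ l : Fin (m + 1), b l * ρ z ^ (l : ℕ) = 0) :
    ∀ z ∈ Metric.ball z₀ r, ρ z = ρ z₀ := by
  intro z hz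
  have hr : 0 < r := Metric.pos_of_mem_ball hz
  set q : Polynomial ℂ := ∑ l : Fin (m + 1), Polynomial.C (b l) * Polynomial.X ^ (l : ℕ) with hq
  have hq0 : q ≠ 0 := by
    intro h0
    have h1 : q.coeff m = b (Fin.last m) := by
      rw [hq, Polynomial.finsetSum_coeff, Finset.sum_eq_single (Fin.last m)]
      · rw [Polynomial.coeff_C_mul, Polynomial.coeff_X_pow, Fin.val_last, if_pos rfl, mul_one]
      · intro l _ hl
        rw [Polynomial.coeff_C_mul, Polynomial.coeff_X_pow, if_neg, mul_zero]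
        intro h2
        exact hl (Fin.ext (by rw [Fin.val_last]; exact h2.symm))
      · exact fun h2 => absurd (Finset.mem_univ _) h2
    rw [h0, Polynomial.coeff_zero] at h1
    exact hb h1.symm
  have hmaps : Set.MapsTo ρ (Metric.ball z₀ r) (q.roots.toFinset : Set ℂ) := by
    intro w hw
    rw [Finset.mem_coe, Multiset.mem_toFinset, Polynomial.mem_roots hq0, Polynomial.IsRoot.def, hq, Polynomial.eval_finsetSum]
    rw [← h w hw]
    refine Finset.sum_congr rfl fun l _ => ?_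
    rw [Polynomial.eval_mul, Polynomial.eval_C, Polynomial.eval_pow, Polynomial.eval_X]
  exact (convex_ball z₀ r).isPreconnected.constant_of_mapsTo (Finset.finite_toSet _).isDiscrete hρ hmaps hz (Metric.mem_ball_self hr)

/-- If `p ∘ f` is constant near a point then so is `f`. -/
theorem const_near {j : Fin (M + 1)} {m : Fin (M + 1) → ℕ} {α : ∀ i, Fin (m i + 1) → MvPolynomial (Fin (N + 1)) ℂ}
    (hrel : ∀ i (y : Fin (M + 1) → ℂ) (hy : y ≠ 0) (x : Fin (N + 1) → ℂ) (hx : x ≠ 0), Projectivization.mk ℂ y hy ∈ locVar P' G' →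
        p (Projectivization.mk ℂ y hy) = Projectivization.mk ℂ x hx →
        ∑ l : Fin (m i + 1), eval x (α i l) * y i ^ (l : ℕ) * y j ^ (m i - (l : ℕ)) = 0)
    {f : ℂ → PN M} {z₀ : ℂ} {φ : ℂ → Fin (M + 1) → ℂ} (hφ : AnalyticAt ℂ φ z₀)
    (he : ∀ᶠ z in 𝓝 z₀, ∃ h : φ z ≠ 0, f z = Projectivization.mk ℂ (φ z) h) (hfU : ∀ᶠ z in 𝓝 z₀, f z ∈ locVar P' G')
    (hj : φ z₀ j ≠ 0) {x : Fin (N + 1) → ℂ} (hx : x ≠ 0) (hα : ∀ i, eval x (α i (Fin.last (m i))) ≠ 0)
    (hpf : ∀ᶠ z in 𝓝 z₀, p (f z) = Projectivization.mk ℂ x hx) : ∀ᶠ z in 𝓝 z₀, f z = f z₀ := by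
  have hcj : ContinuousAt (fun z => φ z j) z₀ := (continuous_apply j).continuousAt.comp hφ.continuousAt
  obtain ⟨r, hr, hball⟩ := Metric.eventually_nhds_iff_ball.1
    ((((he.and hfU).and hpf).and (hcj.eventually_ne hj)).and hφ.eventually_analyticAt)
  have hz₀ : z₀ ∈ Metric.ball z₀ r := Metric.mem_ball_self hr
  have hconst : ∀ i, ∀ z ∈ Metric.ball z₀ r, φ z i / φ z j = φ z₀ i / φ z₀ j := by
    intro i
    refine const_of_root (b := fun l => eval x (α i l)) (hα i) (ρ := fun z => φ z i / φ z j) (fun z hz => ?_) fun z hz => ?_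
    · have h1 := (hball z hz).2.continuousAt
      exact (((continuous_apply i).continuousAt.comp h1).div ((continuous_apply j).continuousAt.comp h1) (hball z hz).1.2).continuousWithinAt
    · obtain ⟨⟨⟨⟨h1, h2⟩, h3⟩, h4⟩, -⟩ := hball z hz
      obtain ⟨h5, h6⟩ := h1
      rw [h6] at h2 h3
      have h7 := hrel i (φ z) h5 x hx h2 h3
      have h8 : ∀ l : Fin (m i + 1), eval x (α i l) * φ z i ^ (l : ℕ) * φ z j ^ (m i - (l : ℕ)) =
          φ z j ^ m i * (eval x (α i l) * (φ z i / φ z j) ^ (l : ℕ)) := by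
        intro l
        have h9 : (l : ℕ) ≤ m i := Nat.lt_succ_iff.1 l.2
        have h10 : φ z j ^ m i = φ z j ^ (l : ℕ) * φ z j ^ (m i - (l : ℕ)) := by
          rw [← pow_add, Nat.add_sub_cancel' h9]
        rw [h10, div_pow]
        field_simp
      rw [Finset.sum_congr rfl fun l _ => h8 l, ← Finset.mul_sum, mul_eq_zero] at h7
      exact h7.resolve_left (pow_ne_zero _ h4)
  filter_upwards [Metric.ball_mem_nhds z₀ hr] with z hz
  obtain ⟨⟨⟨⟨⟨h5, h6⟩, h2⟩, h3⟩, h4⟩, -⟩ := hball z hz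
  obtain ⟨⟨⟨⟨⟨h5', h6'⟩, h2'⟩, h3'⟩, h4'⟩, -⟩ := hball z₀ hz₀
  rw [h6, h6', Projectivization.mk_eq_mk_iff']
  refine ⟨φ z j / φ z₀ j, ?_⟩
  funext i
  have h7 := hconst i z hz
  change φ z j / φ z₀ j * φ z₀ i = φ z i
  rw [div_eq_div_iff h4 h4'] at h7
  field_simp
  linear_combination -h7

/-- The bound of a root. -/
theorem root_bound {m : ℕ} {b : Fin (m + 1) → ℂ} {C : ℝ} (hb : ∀ l, ‖b l‖ ≤ C) {ρ : ℂ}
    (h : ∑ l : Fin (m + 1), b l * ρ ^ (l : ℕ) = 0) : ‖b (Fin.last m) * ρ‖ ≤ C * (m + 1) := by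
  have hC : 0 ≤ C := (norm_nonneg _).trans (hb 0)
  have hm : (0 : ℝ) ≤ m := Nat.cast_nonneg m
  rcases le_or_gt ‖ρ‖ 1 with h1 | h1
  · rw [norm_mul]
    calc ‖b (Fin.last m)‖ * ‖ρ‖ ≤ C * 1 := mul_le_mul (hb _) h1 (norm_nonneg _) hC
      _ ≤ C * (m + 1) := mul_le_mul_of_nonneg_left (by linarith) hC
  · have hρ : 0 < ‖ρ‖ := zero_lt_one.trans h1
    rcases Nat.eq_zero_or_pos m with rfl | hmp
    · rw [Fin.sum_univ_one, Fin.val_zero, pow_zero, mul_one] at h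
      have h2 : b (Fin.last 0) = 0 := h
      rw [h2, zero_mul, norm_zero]
      exact mul_nonneg hC (by linarith)
    · rw [Fin.sum_univ_castSucc, Fin.val_last, add_comm] at h
      have h2 : b (Fin.last m) * ρ ^ m = -∑ l : Fin m, b l.castSucc * ρ ^ ((l.castSucc : Fin (m + 1)) : ℕ) := eq_neg_of_add_eq_zero_left h
      have h3 : ‖b (Fin.last m) * ρ ^ m‖ ≤ (C * m) * ‖ρ‖ ^ (m - 1) := by
        rw [h2, norm_neg]
        refine (norm_sum_le _ _).trans ?_
        have h4 : ∀ l : Fin m, ‖b l.castSucc * ρ ^ ((l.castSucc : Fin (m + 1)) : ℕ)‖ ≤ C * ‖ρ‖ ^ (m - 1) := by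
          intro l
          rw [norm_mul, norm_pow]
          refine mul_le_mul (hb _) (pow_le_pow_right₀ h1.le ?_) (pow_nonneg hρ.le _) hC
          have := l.2
          rw [Fin.val_castSucc]
          omega
        refine (Finset.sum_le_sum fun l _ => h4 l).trans ?_
        rw [Finset.sum_const, Finset.card_univ, Fintype.card_fin, nsmul_eq_mul]
        nlinarith
      have h5 : ‖b (Fin.last m) * ρ ^ m‖ = ‖b (Fin.last m) * ρ‖ * ‖ρ‖ ^ (m - 1) := by
        rw [norm_mul, norm_mul, norm_pow, mul_assoc, ← pow_succ', Nat.sub_add_cancel hmp]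
      rw [h5] at h3
      have h6 := le_of_mul_le_mul_right h3 (pow_pos hρ _)
      refine h6.trans ?_
      nlinarith

/-- **Extension over the puncture.** -/
theorem extend_of_alg {j : Fin (M + 1)} {m : Fin (M + 1) → ℕ} {α : ∀ i, Fin (m i + 1) → MvPolynomial (Fin (N + 1)) ℂ}
    (hrel : ∀ i (y : Fin (M + 1) → ℂ) (hy : y ≠ 0) (x : Fin (N + 1) → ℂ) (hx : x ≠ 0), Projectivization.mk ℂ y hy ∈ locVar P' G' →
        p (Projectivization.mk ℂ y hy) = Projectivization.mk ℂ x hx →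
        ∑ l : Fin (m i + 1), eval x (α i l) * y i ^ (l : ℕ) * y j ^ (m i - (l : ℕ)) = 0)
    {f : ℂ → PN M} (hf : HolomorphicInto f puncturedDisc) (hfU : ∀ z ∈ puncturedDisc, f z ∈ locVar P' G')
    {ψ : ℂ → Fin (N + 1) → ℂ} (hψ : AnalyticAt ℂ ψ 0)
    (hpf : ∀ᶠ z in 𝓝 (0 : ℂ), z ≠ 0 → ∃ h : ψ z ≠ 0, p (f z) = Projectivization.mk ℂ (ψ z) h)
    (hα : ∀ i, ¬ ∀ᶠ z in 𝓝 (0 : ℂ), eval (ψ z) (α i (Fin.last (m i))) = 0) :
    ∃ g : ℂ → PN M, HolomorphicInto g (Metric.ball 0 1) ∧ ∀ z ∈ puncturedDisc, g z = f z := by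
  classical
  have han : ∀ Q : MvPolynomial (Fin (N + 1)) ℂ, AnalyticAt ℂ (fun z => eval (ψ z) Q) 0 := by
    intro Q
    have h1 : AnalyticAt ℂ (fun w => MvPolynomial.aeval (ψ w) Q) 0 :=
      AnalyticAt.aeval_mvPolynomial (fun i => analyticAt_pi_iff.mp hψ i) Q
    exact h1
  set a : Fin (M + 1) → ℂ → ℂ := fun i z => eval (ψ z) (α i (Fin.last (m i))) with ha
  have hane : ∀ i, ∀ᶠ z in 𝓝[≠] (0 : ℂ), a i z ≠ 0 := by
    intro i
    exact (han _).eventually_eq_zero_or_eventually_ne_zero.resolve_left (hα i)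
  -- bounds of the coefficients
  have hbd : ∀ i, ∃ C : ℝ, ∀ᶠ z in 𝓝 (0 : ℂ), ∀ l, ‖eval (ψ z) (α i l)‖ ≤ C := by
    intro i
    have h1 : ∀ l, ∃ C : ℝ, ∀ᶠ z in 𝓝 (0 : ℂ), ‖eval (ψ z) (α i l)‖ ≤ C := fun l =>
      ⟨‖eval (ψ 0) (α i l)‖ + 1, ((han (α i l)).continuousAt.norm.eventually_lt continuousAt_const (lt_add_one _)).mono fun z hz => hz.le⟩
    choose C hC using h1
    refine ⟨∑ l, |C l|, ?_⟩
    filter_upwards [eventually_all.2 hC] with z hz l
    exact ((hz l).trans (le_abs_self _)).trans (Finset.single_le_sum (f := fun l => |C l|) (fun l _ => abs_nonneg _) (Finset.mem_univ l))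
  choose C hC using hbd
  have hev : ∀ᶠ z in 𝓝[≠] (0 : ℂ), z ∈ puncturedDisc ∧ (∃ h : ψ z ≠ 0, p (f z) = Projectivization.mk ℂ (ψ z) h) ∧
      (∀ i l, ‖eval (ψ z) (α i l)‖ ≤ C i) ∧ ∀ i, a i z ≠ 0 := by
    have h1 : ∀ᶠ z in 𝓝[≠] (0 : ℂ), z ∈ puncturedDisc := by
      have h4 : Metric.ball (0 : ℂ) 1 \ {0} ∈ 𝓝[≠] (0 : ℂ) := sdiff_mem_nhdsWithin_compl (Metric.ball_mem_nhds _ one_pos) _
      exact h4
    have h2 : ∀ᶠ z in 𝓝[≠] (0 : ℂ), ∃ h : ψ z ≠ 0, p (f z) = Projectivization.mk ℂ (ψ z) h :=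
      eventually_nhdsWithin_iff.2 (hpf.mono fun z hz h => hz h)
    filter_upwards [h1, h2, (eventually_all.2 hC).filter_mono nhdsWithin_le_nhds, eventually_all.2 hane] with z h3 h4 h5 h6
    exact ⟨h3, h4, h5, h6⟩
  obtain ⟨r, hr, hball⟩ : ∃ r > 0, ∀ z ∈ Metric.ball (0 : ℂ) r \ {0}, z ∈ puncturedDisc ∧
      (∃ h : ψ z ≠ 0, p (f z) = Projectivization.mk ℂ (ψ z) h) ∧ (∀ i l, ‖eval (ψ z) (α i l)‖ ≤ C i) ∧ ∀ i, a i z ≠ 0 := by
    obtain ⟨r, hr, h1⟩ := Metric.eventually_nhds_iff_ball.1 (eventually_nhdsWithin_iff.1 hev)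
    exact ⟨r, hr, fun z hz => h1 z hz.1 hz.2⟩
  -- the coordinate `j` does not vanish
  have hj : ∀ z ∈ Metric.ball (0 : ℂ) r \ {0}, (f z).rep j ≠ 0 := by
    intro z hz h0
    obtain ⟨h1, ⟨h2, h3⟩, -, h5⟩ := hball z hz
    apply (f z).rep_nonzero
    funext i
    have h6 := hrel i (f z).rep (f z).rep_nonzero (ψ z) h2 (by rw [(f z).mk_rep]; exact hfU z h1) (by rw [(f z).mk_rep]; exact h3)
    rw [Fin.sum_univ_castSucc] at h6
    have h7 : ∀ l : Fin (m i), eval (ψ z) (α i l.castSucc) * (f z).rep i ^ ((l.castSucc : Fin (m i + 1)) : ℕ) *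
        (f z).rep j ^ (m i - ((l.castSucc : Fin (m i + 1)) : ℕ)) = 0 := by
      intro l
      have h8 : m i - ((l.castSucc : Fin (m i + 1)) : ℕ) ≠ 0 := by
        have := l.2
        rw [Fin.val_castSucc]
        omega
      rw [h0, zero_pow h8, mul_zero]
    rw [Finset.sum_eq_zero fun l _ => h7 l, zero_add, Fin.val_last, Nat.sub_self, pow_zero, mul_one, mul_eq_zero] at h6
    exact eq_zero_of_pow_eq_zero (h6.resolve_left (h5 i))
  -- the normalized lift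
  set S : ℂ → Fin (M + 1) → ℂ := fun w => ((f w).rep j)⁻¹ • (f w).rep with hS
  have hSmk : ∀ (w : ℂ) (x : Fin (M + 1) → ℂ) (hx : x ≠ 0), f w = Projectivization.mk ℂ x hx → S w = (x j)⁻¹ • x := by
    intro w x hx h
    obtain ⟨a, ha⟩ := Projectivization.exists_smul_eq_mk_rep ℂ x hx
    have h1 : (f w).rep = (a : ℂ) • x := by rw [h]; exact ha.symm
    rw [hS]
    simp only [h1, Pi.smul_apply, smul_eq_mul]
    rw [smul_smul, mul_inv, mul_comm (a : ℂ)⁻¹, mul_assoc, inv_mul_cancel₀ a.ne_zero, mul_one]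
  set A : ℂ → ℂ := fun z => ∏ i, a i z with hA
  have hAan : AnalyticAt ℂ A 0 := by
    have h1 : AnalyticAt ℂ (fun z => ∏ i, a i z) 0 := Finset.analyticAt_fun_prod _ fun i _ => han _
    exact h1
  -- the function is bounded and holomorphic
  obtain ⟨r', hr', hr'r, haball⟩ : ∃ r' > 0, r' ≤ r ∧ ∀ z ∈ Metric.ball (0 : ℂ) r', AnalyticAt ℂ A z := by
    obtain ⟨ρ, hρ, h1⟩ := Metric.eventually_nhds_iff_ball.1 hAan.eventually_analyticAt
    exact ⟨min ρ r, lt_min hρ hr, min_le_right _ _, fun z hz => h1 z (Metric.ball_subset_ball (min_le_left _ _) hz)⟩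
  have hsub : ∀ z ∈ Metric.ball (0 : ℂ) r' \ {0}, z ∈ Metric.ball (0 : ℂ) r \ {0} := fun z hz =>
    ⟨Metric.ball_subset_ball hr'r hz.1, hz.2⟩
  have hd : DifferentiableOn ℂ (fun z => A z • S z) (Metric.ball (0 : ℂ) r' \ {0}) := by
    intro w hw
    obtain ⟨φ, h4, h5⟩ := hf w (hball w (hsub w hw)).1
    have h6 : φ w j ≠ 0 := by
      obtain ⟨h7, h8⟩ := h5.self_of_nhds
      obtain ⟨a, ha⟩ := Projectivization.exists_smul_eq_mk_rep ℂ (φ w) h7
      have h9 : (f w).rep = (a : ℂ) • φ w := by rw [h8]; exact ha.symm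
      have h10 := hj w (hsub w hw)
      rw [h9] at h10
      exact right_ne_zero_of_mul h10
    have h7 : AnalyticAt ℂ (fun z => (φ z j)⁻¹ • φ z) w := by
      have h8 : AnalyticAt ℂ (fun z => φ z j) w := analyticAt_pi_iff.1 h4 j
      exact (h8.inv h6).smul h4
    have h8 : AnalyticAt ℂ (fun z => A z • ((φ z j)⁻¹ • φ z)) w := (haball w hw.1).smul h7
    refine DifferentiableAt.differentiableWithinAt (h8.differentiableAt.congr_of_eventuallyEq ?_)
    filter_upwards [h5] with z hz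
    obtain ⟨h8, h9⟩ := hz
    rw [hSmk z _ h8 h9]
  have hratio : ∀ z ∈ Metric.ball (0 : ℂ) r \ {0}, ∀ i, ‖a i z * S z i‖ ≤ C i * (m i + 1) := by
    intro z hz i
    obtain ⟨h1, ⟨h2, h3⟩, h4, h5⟩ := hball z hz
    have h6 := hrel i (f z).rep (f z).rep_nonzero (ψ z) h2 (by rw [(f z).mk_rep]; exact hfU z h1) (by rw [(f z).mk_rep]; exact h3)
    have hjz := hj z hz
    have h8 : ∀ l : Fin (m i + 1), eval (ψ z) (α i l) * (f z).rep i ^ (l : ℕ) * (f z).rep j ^ (m i - (l : ℕ)) =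
        (f z).rep j ^ m i * (eval (ψ z) (α i l) * (S z i) ^ (l : ℕ)) := by
      intro l
      have h9 : (l : ℕ) ≤ m i := Nat.lt_succ_iff.1 l.2
      have h10 : (f z).rep j ^ m i = (f z).rep j ^ (l : ℕ) * (f z).rep j ^ (m i - (l : ℕ)) := by
        rw [← pow_add, Nat.add_sub_cancel' h9]
      have h11 : S z i = (f z).rep i / (f z).rep j := by
        change ((f z).rep j)⁻¹ * (f z).rep i = _
        rw [div_eq_inv_mul]
      rw [h10, h11, div_pow]
      field_simp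
    rw [Finset.sum_congr rfl fun l _ => h8 l, ← Finset.mul_sum, mul_eq_zero] at h6
    exact root_bound (h4 i) (h6.resolve_left (pow_ne_zero _ hjz))
  have hb : BddAbove (norm ∘ (fun z => A z • S z) '' (Metric.ball (0 : ℂ) r' \ {0})) := by
    refine ⟨∑ i, (C i * (m i + 1)) * ∏ i' ∈ Finset.univ.erase i, C i', ?_⟩
    rintro _ ⟨w, hw, rfl⟩
    have hw' := hsub w hw
    obtain ⟨-, -, h4, -⟩ := hball w hw'
    have hC0 : ∀ i, 0 ≤ C i := fun i => (norm_nonneg _).trans (h4 i 0)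
    have hterm : ∀ i, 0 ≤ (C i * (m i + 1)) * ∏ i' ∈ Finset.univ.erase i, C i' := fun i =>
      mul_nonneg (mul_nonneg (hC0 i) (by positivity)) (Finset.prod_nonneg fun i' _ => hC0 i')
    change ‖A w • S w‖ ≤ _
    rw [pi_norm_le_iff_of_nonneg (Finset.sum_nonneg fun i _ => hterm i)]
    intro i
    refine le_trans ?_ (Finset.single_le_sum (f := fun i => (C i * (m i + 1)) * ∏ i' ∈ Finset.univ.erase i, C i')
      (fun i _ => hterm i) (Finset.mem_univ i))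
    change ‖A w * S w i‖ ≤ _
    have h5 : A w * S w i = (a i w * S w i) * ∏ i' ∈ Finset.univ.erase i, a i' w := by
      rw [hA]
      simp only
      rw [← Finset.mul_prod_erase Finset.univ (fun i => a i w) (Finset.mem_univ i)]
      ring
    rw [h5, norm_mul, norm_prod]
    refine mul_le_mul (hratio w hw' i) (Finset.prod_le_prod (fun i' _ => norm_nonneg _) fun i' _ => h4 i' _)
      (Finset.prod_nonneg fun i' _ => norm_nonneg _) (mul_nonneg (hC0 i) (by positivity))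
  have hu := Complex.differentiableOn_update_limUnder_of_bddAbove (Metric.ball_mem_nhds (0 : ℂ) hr') hd hb
  set S' : ℂ → Fin (M + 1) → ℂ := Function.update (fun z => A z • S z) 0 (limUnder (𝓝[≠] 0) fun z => A z • S z) with hS'
  have hS'a : AnalyticAt ℂ S' 0 := hu.analyticAt (Metric.ball_mem_nhds (0 : ℂ) hr')
  have hS'eq : ∀ w, w ≠ 0 → S' w = A w • S w := fun w hw => Function.update_of_ne hw _ _
  have hAne : ∀ z ∈ Metric.ball (0 : ℂ) r \ {0}, A z ≠ 0 := fun z hz => Finset.prod_ne_zero_iff.2 fun i _ => (hball z hz).2.2.2 i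
  have hSj : ∀ z ∈ Metric.ball (0 : ℂ) r \ {0}, S z j = 1 := fun z hz => inv_mul_cancel₀ (hj z hz)
  have hS'ne : ∀ z ∈ Metric.ball (0 : ℂ) r \ {0}, S' z ≠ 0 := by
    intro z hz h0
    have h1 := congrFun h0 j
    rw [hS'eq z hz.2] at h1
    change A z * S z j = 0 at h1
    rw [hSj z hz, mul_one] at h1
    exact hAne z hz h1
  have hnz : ¬ ∀ᶠ z in 𝓝 (0 : ℂ), S' z = 0 := by
    intro h0
    have h1 : ∀ᶠ z in 𝓝[≠] (0 : ℂ), z ∈ Metric.ball (0 : ℂ) r \ {0} :=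
      sdiff_mem_nhdsWithin_compl (Metric.ball_mem_nhds _ hr) _
    obtain ⟨z, h2, h3⟩ := ((h0.filter_mono nhdsWithin_le_nhds).and h1).exists
    exact hS'ne z h3 h2
  obtain ⟨n, Φ, hΦ, hΦ0, hΦe⟩ := (hS'a.exists_eventuallyEq_pow_smul_nonzero_iff).2 hnz
  refine Pool.Agent.H62.Qe.extend_of_pow hf le_rfl hΦ.continuousAt hΦ0 ?_
  filter_upwards [hΦe, Metric.ball_mem_nhds (0 : ℂ) hr] with z h1 h2 h3
  have h4 : z ∈ Metric.ball (0 : ℂ) r \ {0} := ⟨h2, h3⟩
  have h5 := hS'ne z h4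
  have h6 : Φ z ≠ 0 := by
    intro h7
    rw [h7, smul_zero] at h1
    exact h5 h1
  refine ⟨h6, ?_⟩
  rw [pow_one, ← (f z).mk_rep, Projectivization.mk_eq_mk_iff']
  rw [hS'eq z h3, sub_zero] at h1
  have h7 : A z ≠ 0 := hAne z h4
  have h8 : (f z).rep j ≠ 0 := hj z h4
  refine ⟨(f z).rep j * (A z)⁻¹ * z ^ n, ?_⟩
  rw [mul_smul, ← h1, smul_smul, mul_assoc, inv_mul_cancel₀ h7, mul_one]
  change (f z).rep j • (((f z).rep j)⁻¹ • (f z).rep) = _
  rw [smul_smul, mul_inv_cancel₀ h8, one_smul]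

end Pool.Agent.H7.Qup

end
end
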