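import Pool.Agent.H18.GGT.M20
import Pool.Agent.H18.GGT.M45
import Pool.Agent.H18.GGT.M46
import Pool.Agent.H18.GGT.M59

/-! The parts of this file: GA.EndC, GA.ArcF, GB.Pol, GB.Vd, GA.Brg, GA.Gro. -/

section

/-!
# GA EndC: the criterion for a variation field with small values
-/

set_option autoImplicit false

open MvPolynomial Topology Filter Metric
open Pool.Agent.GG

noncomputable section

namespace Pool.Agent.GA

variable {N : ℕ}

private theorem gm_add' {z₀ : ℂ} {f g : ℂ → ℂ} (hf : AnalyticAt ℂ f z₀) (hg : AnalyticAt ℂ g z₀) :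
    gm z₀ f hf + gm z₀ g hg = gm z₀ (fun z => f z + g z) (hf.add hg) := (map_add _ _ _).symm

private theorem gm_mul' {z₀ : ℂ} {f g : ℂ → ℂ} (hf : AnalyticAt ℂ f z₀) (hg : AnalyticAt ℂ g z₀) :
    gm z₀ f hf * gm z₀ g hg = gm z₀ (fun z => f z * g z) (hf.mul hg) := (map_mul _ _ _).symm

private theorem gm_zero' {z₀ : ℂ} : gm z₀ (fun _ => 0) analyticAt_const = 0 := map_zero _

private theorem gm_sum' {z₀ : ℂ} {ι : Type} (s : Finset ι) (f : ι → ℂ → ℂ) (hf : ∀ i, AnalyticAt ℂ (f i) z₀)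
    (h : AnalyticAt ℂ (fun z => ∑ i ∈ s, f i z) z₀) : ∑ i ∈ s, gm z₀ (f i) (hf i) = gm z₀ (fun z => ∑ i ∈ s, f i z) h := by
  classical
  induction s using Finset.induction_on with
  | empty => simpa using gm_zero'.symm
  | insert a s ha ih =>
    have h1 : AnalyticAt ℂ (fun z => ∑ i ∈ s, f i z) z₀ := Finset.analyticAt_fun_sum _ fun i _ => hf i
    rw [Finset.sum_insert ha, ih h1, gm_add' (hf a) h1]
    refine gm_inj.2 (Eventually.of_forall fun z => ?_)
    simp only [Finset.sum_insert ha]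

private theorem gm_eq_zero {z₀ : ℂ} {f : ℂ → ℂ} {hf : AnalyticAt ℂ f z₀} : gm z₀ f hf = 0 ↔ ∀ᶠ z in 𝓝 z₀, f z = 0 := by
  rw [← gm_zero', gm_inj]
  rfl

variable {ι : Type} {U : Set ℂ} {OO : Subalgebra ℂ (ℂ → ℂ)}

/-- MODULE EndC.  `E = Gm w₁`; the derivation `R (x) ↦ ∑ b, (∂_b R) (x) V_b` of the ring `OO [x]` is well defined by `RelX` and extends to `E` (`exists_ext`); it kills `OO`; `crit_alg`; value at `w₁`. -/
theorem crit_of_rel (hO : IsSmallRing OO U) (G : ι → MvPolynomial (Ph N) ℂ) (I : Fin (N + 1) → ι) {x V : ℂ → Fin (N + 1) → ℂ} {w₁ : ℂ} (hw : w₁ ∈ U)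
    (hx : AnalyticAt ℂ x w₁) (hV : AnalyticAt ℂ V w₁) (hR : RelX OO x V w₁)
    (hG : ∀ l, ∃ g ∈ OO, ∀ᶠ w in 𝓝 w₁, eval (pt (x w) (V w)) (G l) = g w) (hI : eval (pt (x w₁) (V w₁)) (vdet G I) ≠ 0) :
    Crit G I (pt (x w₁) (V w₁)) := by
  have hO' : ∀ g ∈ OO, AnalyticAt ℂ g w₁ := fun g hg => hO.an g hg w₁ hw
  have hxb : ∀ b, AnalyticAt ℂ (fun z => x z b) w₁ := analyticAt_pi_iff.mp hx
  have hVb : ∀ b, AnalyticAt ℂ (fun z => V z b) w₁ := analyticAt_pi_iff.mp hV
  obtain ⟨φ, hφ, hφx⟩ := gm_evO hO' hx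
  set X' : Fin (N + 1) → Gm w₁ := fun b => gm w₁ (fun z => x z b) (hxb b) with hX'
  set V' : Fin (N + 1) → Gm w₁ := fun b => gm w₁ (fun z => V z b) (hVb b) with hV'
  obtain ⟨D, hD, hDx⟩ := exists_der_of_rel φ (fun c => by rw [hφ]; rfl) X' V' (by
    intro R h0
    obtain ⟨h1, h2⟩ := hφx R
    rw [h2] at h0
    have h3 := hR R (gm_eq_zero.1 h0)
    choose h4 h5 using hφx
    have h6 : ∀ b, eval₂ φ X' (pderiv b R) * V' b = gm w₁ (fun z => evO OO x (pderiv b R) z * V z b) ((h4 (pderiv b R)).mul (hVb b)) := by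
      intro b
      rw [h5, gm_mul']
    rw [Finset.sum_congr rfl fun b _ => h6 b, gm_sum' (f := fun b z => evO OO x (pderiv b R) z * V z b)
      (h := Finset.analyticAt_fun_sum _ fun b _ => (h4 (pderiv b R)).mul (hVb b))]
    exact gm_eq_zero.2 h3)
  have hy : AnalyticAt ℂ (fun z => pt (x z) (V z)) w₁ := by
    rw [analyticAt_pi_iff]
    rintro (b | b)
    · exact hxb b
    · exact hVb b
  have hs : (fun s => gm w₁ (fun z => pt (x z) (V z) s) ((analyticAt_pi_iff.mp hy) s)) = Sum.elim X' V' := by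
    funext s
    rcases s with b | b <;> rfl
  have hev : ∀ p : MvPolynomial (Ph N) ℂ, ∃ h : AnalyticAt ℂ (fun z => eval (pt (x z) (V z)) p) w₁,
      aeval (Sum.elim X' V') p = gm w₁ (fun z => eval (pt (x z) (V z)) p) h := by
    intro p
    obtain ⟨h1, h2⟩ := gm_eval hy p
    rw [hs] at h2
    exact ⟨h1, h2⟩
  have h1 := crit_alg G I D hDx (by
    intro l
    obtain ⟨g, hg, hgl⟩ := hG l
    obtain ⟨h1, h2⟩ := hev (G l)
    have h3 : gm w₁ (fun z => eval (pt (x z) (V z)) (G l)) h1 = φ ⟨g, hg⟩ := by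
      rw [hφ]
      exact gm_inj.2 hgl
    rw [h2, h3, hD]) (by
    obtain ⟨h1, h2⟩ := hev (vdet G I)
    rw [h2]
    intro h3
    exact hI (gm_eq_zero.1 h3).self_of_nhds)
  refine ⟨hI, fun l k => ?_⟩
  obtain ⟨h2, h3⟩ := hev ((⇑(Dt G I))^[k + 1] (G l))
  have h4 := h1 l k
  rw [h3] at h4
  exact (gm_eq_zero.1 h4).self_of_nhds

end Pool.Agent.GA

end
end

section

/-!
# GA ArcF: the final criterion in a chart
-/

set_option autoImplicit false

open MvPolynomial Topology Filter Metric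
open Pool.Agent.H13.SM (conTan cone)
open Pool.Agent.GG

namespace Pool.Agent.GA

variable {N : ℕ} {P : Ideal (MvPolynomial (Fin (N + 1)) ℂ)} {J : ℕ} {m : Fin J → ℕ} {θ : ∀ k, SymSec P (m k)} {U : Set ℂ} {OO : Subalgebra ℂ (ℂ → ℂ)}

theorem ArcF.evO_map (x : ℂ → Fin (N + 1) → ℂ) (Q : MvPolynomial (Fin (N + 1)) ℂ) (w : ℂ) : evO OO x (map (algebraMap ℂ OO) Q) w = eval (x w) Q := by
  unfold evO
  rw [eval₂_map]
  have h1 : (ev0 OO w).comp (algebraMap ℂ OO) = RingHom.id ℂ := by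
    ext c
    rfl
  rw [h1]
  rfl

/-- the linearised equation of a polynomial which vanishes along `x` -/
theorem ArcF.lin {x V : ℂ → Fin (N + 1) → ℂ} {w₁ : ℂ} (hR : RelX OO x V w₁) (Q : MvPolynomial (Fin (N + 1)) ℂ) (hQ : ∀ᶠ w in 𝓝 w₁, eval (x w) Q = 0) :
    ∀ᶠ w in 𝓝 w₁, ∑ b, eval (x w) (pderiv b Q) * V w b = 0 := by
  have h1 := hR (map (algebraMap ℂ OO) Q) (by
    filter_upwards [hQ] with w hw
    rw [ArcF.evO_map]
    exact hw)
  filter_upwards [h1] with w hw
  rw [← hw]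
  refine Finset.sum_congr rfl fun b _ => ?_
  rw [pderiv_map, ArcF.evO_map]

/-- the tangent space is given by the generators -/
theorem ArcF.mem_conTan (f : Frame θ) {x v : Fin (N + 1) → ℂ} (hx : x ∈ cone P) (h : ∀ j, ∑ b, eval x (pderiv b (f.Q j)) * v b = 0) : v ∈ conTan P x := by
  intro Q hQ
  rw [← f.span] at hQ
  induction hQ using Submodule.span_induction with
  | mem Q hQ =>
    obtain ⟨j, rfl⟩ := hQ
    rw [← h j]
    exact Finset.sum_congr rfl fun b _ => mul_comm _ _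
  | zero => simp
  | add Q R _ _ hQ hR =>
    simp only [map_add, mul_add, Finset.sum_add_distrib, hQ, hR, add_zero]
  | smul g Q hQm hQ =>
    have hQ0 : eval x Q = 0 := by
      apply hx.2
      rw [← f.span]
      exact hQm
    simp only [smul_eq_mul, Derivation.leibniz, map_add, map_mul, hQ0, zero_mul, add_zero]
    rw [show (∑ i, v i * (eval x g * eval x (pderiv i Q))) = eval x g * ∑ i, v i * eval x (pderiv i Q) by
      rw [Finset.mul_sum]; exact Finset.sum_congr rfl fun b _ => by ring]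
    rw [hQ, mul_zero]

/-- MODULE ArcF: the final criterion in a chart -/
theorem crit_point (hθ : Polar θ) (f : Frame θ) (hO : IsSmallRing OO U) {a : Fin (N + 1)} {x V : ℂ → Fin (N + 1) → ℂ} {w₁ : ℂ} (hw : w₁ ∈ U)
    (hx : AnalyticAt ℂ x w₁) (hV : AnalyticAt ℂ V w₁) (hxc : ∀ᶠ w in 𝓝 w₁, x w ∈ cone P ∧ x w a = 1) (hR : RelX OO x V w₁)
    (hα : ∀ k, ∃ g ∈ OO, ∀ᶠ w in 𝓝 w₁, (θ k).toFun (x w) (V w) = g w) (h0 : V w₁ ≠ 0) :
    ∃ (I : Fin (N + 1) → (Unit ⊕ Unit) ⊕ (Fin f.q ⊕ Fin f.q) ⊕ Fin J) (c : Fin J → ℂ), IsTan θ a c (x w₁) (V w₁) ∧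
      Crit (gfam f a) I (pt (x w₁) (V w₁)) := by
  -- `Q_j (x) = 0`
  have hQ0 : ∀ j, ∀ᶠ w in 𝓝 w₁, eval (x w) (f.Q j) = 0 := by
    intro j
    have hj : f.Q j ∈ P := by
      have h1 : f.Q j ∈ Ideal.span (Set.range f.Q) := Ideal.subset_span ⟨j, rfl⟩
      exact f.span.le h1
    filter_upwards [hxc] with w hw
    exact hw.1.2 _ hj
  have hQ1 : ∀ j, ∀ᶠ w in 𝓝 w₁, ∑ b, eval (x w) (pderiv b (f.Q j)) * V w b = 0 := fun j => ArcF.lin hR _ (hQ0 j)
  have hQ2 : ∀ᶠ w in 𝓝 w₁, ∀ j, ∑ b, eval (x w) (pderiv b (f.Q j)) * V w b = 0 := eventually_all.2 hQ1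
  have hT : ∀ᶠ w in 𝓝 w₁, V w ∈ conTan P (x w) := by
    filter_upwards [hQ2, hxc] with w h1 h2
    exact ArcF.mem_conTan f h2.1 h1
  have hVa : ∀ᶠ w in 𝓝 w₁, V w a = 0 := by
    have h1 := ArcF.lin hR (X a - C 1) (by
      filter_upwards [hxc] with w hw
      rw [map_sub, eval_X, eval_C, hw.2, sub_self])
    filter_upwards [h1] with w hw
    classical
    simp only [map_sub, pderiv_C, sub_zero, pderiv_X] at hw
    rw [← hw, Finset.sum_eq_single a]
    · simp
    · intro b _ hb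
      simp [Ne.symm hb]
    · intro h
      exact absurd (Finset.mem_univ a) h
  have htan : IsTan θ a (fun k => (θ k).toFun (x w₁) (V w₁)) (x w₁) (V w₁) :=
    ⟨hxc.self_of_nhds.1, hxc.self_of_nhds.2, hT.self_of_nhds, hVa.self_of_nhds, fun k => rfl⟩
  obtain ⟨I, hI⟩ := exists_row hθ f htan h0
  refine ⟨I, _, htan, crit_of_rel hO (gfam f a) I hw hx hV hR ?_ hI⟩
  rintro ((⟨⟩ | ⟨⟩) | ((j | j) | k))
  · refine ⟨1, OO.one_mem, ?_⟩
    filter_upwards [hxc] with w hw
    show eval (pt (x w) (V w)) (X (Sum.inl a)) = 1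
    rw [eval_X]
    exact hw.2
  · refine ⟨0, OO.zero_mem, ?_⟩
    filter_upwards [hVa] with w hw
    show eval (pt (x w) (V w)) (X (Sum.inr a)) = 0
    rw [eval_X]
    exact hw
  · refine ⟨0, OO.zero_mem, ?_⟩
    filter_upwards [hQ0 j] with w hw
    show eval (pt (x w) (V w)) (rename Sum.inl (f.Q j)) = 0
    rw [eval_rename]
    exact hw
  · refine ⟨0, OO.zero_mem, ?_⟩
    filter_upwards [hQ1 j] with w hw
    show eval (pt (x w) (V w)) (∑ b, rename Sum.inl (pderiv b (f.Q j)) * X (Sum.inr b)) = 0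
    rw [map_sum, ← hw]
    refine Finset.sum_congr rfl fun b _ => ?_
    rw [map_mul, eval_rename, eval_X]
    rfl
  · obtain ⟨g, hg, hg'⟩ := hα k
    refine ⟨g, hg, ?_⟩
    filter_upwards [hg', hxc, hT] with w h1 h2 h3
    show eval (pt (x w) (V w)) (f.A a k) = g w
    rw [← f.hA a k (x w) h2.1 h2.2 (V w) h3]
    exact h1

end Pool.Agent.GA

end

section

/-!
# GB Pol: generated symmetric differentials are in polar position

PROOF.  `v`, `w` not in `ℂ x`.  If `w ∉ span (x, v)`: linear forms `ℓ₁`, `ℓ₂` which kill `x`, `ℓ₁ (v) ≠ 0`, `ℓ₂ (v) = 0`, `ℓ₂ (w) ≠ 0`; `G = ℓ₁^(m-1) ℓ₂`.  If `w = c v + b x`, `c ≠ 0`: `G = ℓ₁^m`.  The derivative of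
`G (v + t w)` at `0` is not `0`, and `G = ∑ c_k θ_k (x, ·)` on the tangent space.  (`t ↦ θ_k (x, v + t w)` is a polynomial in `t`: `SymSec.regular`, `x i ≠ 0`.)
-/

set_option autoImplicit false

open MvPolynomial
open Pool.Agent.H13.SM (conTan cone)

namespace Pool.Agent.GB

variable {N : ℕ} {P : Ideal (MvPolynomial (Fin (N + 1)) ℂ)} {J m : ℕ} {θ : Fin J → Pool.Agent.GG.SymSec P m}

/-- the polynomial of a linear form -/
private noncomputable def lf (l : (Fin (N + 1) → ℂ) →ₗ[ℂ] ℂ) : MvPolynomial (Fin (N + 1)) ℂ := ∑ i, C (l (Pi.single i 1)) * X i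

private theorem eval_lf (l : (Fin (N + 1) → ℂ) →ₗ[ℂ] ℂ) (y : Fin (N + 1) → ℂ) : eval y (lf l) = l y := by
  rw [lf, map_sum]
  conv_rhs => rw [pi_eq_sum_univ' y, map_sum]
  refine Finset.sum_congr rfl fun i _ => ?_
  rw [map_mul, eval_C, eval_X, map_smul, smul_eq_mul, mul_comm]

private theorem lf_hom (l : (Fin (N + 1) → ℂ) →ₗ[ℂ] ℂ) : (lf l).IsHomogeneous 1 := by
  refine IsHomogeneous.sum _ _ _ fun i _ => ?_
  simpa using (isHomogeneous_C (Fin (N + 1)) (l (Pi.single i 1))).mul (isHomogeneous_X ℂ i)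

theorem polar_of_generated (hm : 1 ≤ m) (h : Generated θ) : Pool.Agent.GG.Polar (m := fun _ => m) θ := by
  intro x hx v hv w hw hvx hwx
  by_contra hne
  simp only [not_exists, not_not] at hne
  obtain ⟨a, ha⟩ : ∃ a, x a ≠ 0 := by
    by_contra h0
    simp only [not_exists, not_not] at h0
    exact hx.1 (funext h0)
  have hT : ∀ t : ℂ, v + t • w ∈ conTan P x := fun t => (conTan P x).add_mem hv ((conTan P x).smul_mem t hw)
  -- the functions are differentiable
  have hd : ∀ k, HasDerivAt (fun t : ℂ => (θ k).toFun x (v + t • w)) 0 0 := by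
    intro k
    obtain ⟨e, A, hA⟩ := (θ k).regular a
    have h1 : (fun t : ℂ => (θ k).toFun x (v + t • w)) = fun t : ℂ => (x a ^ e)⁻¹ * eval (Pool.Agent.GG.pt x (v + t • w)) A := by
      funext t
      rw [← hA x hx _ (hT t), inv_mul_cancel_left₀ (pow_ne_zero e ha)]
    have h2 : DifferentiableAt ℂ (fun t : ℂ => (θ k).toFun x (v + t • w)) 0 := by
      rw [h1]
      exact ((Pool.Agent.GG.hasDerivAt_evalV A x v w).differentiableAt).const_mul _
    have h3 := h2.hasDerivAt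
    rwa [hne k] at h3
  -- every admissible polynomial has derivative `0`
  have key : ∀ G : MvPolynomial (Fin (N + 1)) ℂ, G.IsHomogeneous m → (∀ (u : Fin (N + 1) → ℂ) (a : ℂ), eval (u + a • x) G = eval u G) →
      HasDerivAt (fun t : ℂ => eval (v + t • w) G) 0 0 := by
    intro G hG hinv
    obtain ⟨c, hc⟩ := h x hx G hG hinv
    have h1 : (fun t : ℂ => eval (v + t • w) G) = fun t : ℂ => ∑ k, c k * (θ k).toFun x (v + t • w) := by
      funext t
      exact hc (v + t • w) (hT t)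
    rw [h1]
    have h3 : ∀ k ∈ (Finset.univ : Finset (Fin J)), HasDerivAt (fun t : ℂ => c k * (θ k).toFun x (v + t • w)) (c k * 0) 0 :=
      fun k _ => (hd k).const_mul (c k)
    have h4 := HasDerivAt.fun_sum h3
    have h5 : (∑ k : Fin J, c k * (0 : ℂ)) = 0 := Finset.sum_eq_zero fun k _ => mul_zero _
    rw [h5] at h4
    exact h4
  -- the product of two linear forms
  have main : ∀ l₁ l₂ : (Fin (N + 1) → ℂ) →ₗ[ℂ] ℂ, l₁ x = 0 → l₂ x = 0 →
      HasDerivAt (fun t : ℂ => (l₁ v + t * l₁ w) ^ (m - 1) * (l₂ v + t * l₂ w)) 0 0 := by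
    intro l₁ l₂ h1 h2
    have h3 := key (lf l₁ ^ (m - 1) * lf l₂) (by
      have h4 := ((lf_hom l₁).pow (m - 1)).mul (lf_hom l₂)
      rwa [one_mul, Nat.sub_add_cancel hm] at h4) (fun u a => by
        rw [map_mul, map_pow, map_mul, map_pow, eval_lf, eval_lf, eval_lf, eval_lf, map_add, map_add, map_smul, map_smul, h1, h2,
          smul_zero, add_zero, add_zero])
    have h5 : (fun t : ℂ => eval (v + t • w) (lf l₁ ^ (m - 1) * lf l₂)) = fun t : ℂ => (l₁ v + t * l₁ w) ^ (m - 1) * (l₂ v + t * l₂ w) := by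
      funext t
      rw [map_mul, map_pow, eval_lf, eval_lf, map_add, map_add, map_smul, map_smul, smul_eq_mul, smul_eq_mul]
    rwa [h5] at h3
  have lin : ∀ l : (Fin (N + 1) → ℂ) →ₗ[ℂ] ℂ, HasDerivAt (fun t : ℂ => l v + t * l w) (l w) 0 := fun l => by
    simpa using ((hasDerivAt_id (0 : ℂ)).mul_const (l w)).const_add (l v)
  -- a linear form which kills a subspace
  have ex : ∀ (p : Submodule ℂ (Fin (N + 1) → ℂ)) (u : Fin (N + 1) → ℂ), u ∉ p → ∃ l : (Fin (N + 1) → ℂ) →ₗ[ℂ] ℂ, l u ≠ 0 ∧ ∀ y ∈ p, l y = 0 := by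
    intro p u hu
    obtain ⟨l, h1, h2⟩ := Submodule.exists_dual_map_eq_bot_of_notMem hu inferInstance
    refine ⟨l, h1, fun y hy => ?_⟩
    have h3 : l y ∈ p.map l := Submodule.mem_map_of_mem hy
    rw [h2] at h3
    exact (Submodule.mem_bot ℂ).1 h3
  obtain ⟨l₁, h1v, h1x⟩ := ex _ v hvx
  have h1x' : l₁ x = 0 := h1x x (Submodule.mem_span_singleton_self x)
  by_cases hsp : w ∈ Submodule.span ℂ {x, v}
  · obtain ⟨b, c, hbc⟩ := Submodule.mem_span_pair.1 hsp
    have hc : c ≠ 0 := by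
      rintro rfl
      rw [zero_smul, add_zero] at hbc
      exact hwx (Submodule.mem_span_singleton.2 ⟨b, hbc⟩)
    have hw1 : l₁ w = c * l₁ v := by
      rw [← hbc, map_add, map_smul, map_smul, h1x', smul_zero, zero_add, smul_eq_mul]
    have h2 := main l₁ l₁ h1x' h1x'
    have h3 : (fun t : ℂ => (l₁ v + t * l₁ w) ^ (m - 1) * (l₁ v + t * l₁ w)) = fun t : ℂ => (l₁ v + t * l₁ w) ^ m := by
      funext t
      rw [← pow_succ, Nat.sub_add_cancel hm]
    rw [h3] at h2
    have h4 := ((lin l₁).fun_pow m).unique h2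
    rw [zero_mul, add_zero, hw1] at h4
    have h5 : (m : ℂ) * l₁ v ^ (m - 1) * (c * l₁ v) ≠ 0 :=
      mul_ne_zero (mul_ne_zero (by exact_mod_cast (by omega : m ≠ 0)) (pow_ne_zero _ h1v)) (mul_ne_zero hc h1v)
    exact h5 h4
  · obtain ⟨l₂, h2w, h2⟩ := ex _ w hsp
    have h2x : l₂ x = 0 := h2 x (Submodule.subset_span (by simp))
    have h2v : l₂ v = 0 := h2 v (Submodule.subset_span (by simp))
    have h3 := main l₁ l₂ h1x' h2x
    have h4 := (((lin l₁).fun_pow (m - 1)).mul (lin l₂)).unique h3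
    simp only [zero_mul, add_zero, h2v, mul_zero, zero_add] at h4
    exact (mul_ne_zero (pow_ne_zero _ h1v) h2w) h4

end Pool.Agent.GB

end

section

/-!
# GB Vd: some minor is not zero

PROOF.  If all `vdet (gfam f a) K` vanish at `y`: `Trf.transfer` with `S` = the equations of the tangent vectors (`X (inl a) - 1`, `X (inr a)`, `Q_j`, `dQ_j`) and all `vdet`, `G = X (inr b)`.  At a complex
tangent vector `(x, v)`, `x_a = 1`, `v_a = 0`, `v ≠ 0`, the matrix of all `∂G_l/∂v_b` is injective (`v_a`, `dQ_j`, polar forms: `Polar`; compare `GG.Row`), so some minor of `N + 1` rows is not `0`.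
-/

set_option autoImplicit false

open MvPolynomial
open Pool.Agent.H62.FC (Homog)

namespace Pool.Agent.GB

open Pool.Agent.GG

variable {N : ℕ} {P : Ideal (MvPolynomial (Fin (N + 1)) ℂ)} {J : ℕ} {m : Fin J → ℕ} {θ : ∀ k, SymSec P (m k)}

theorem exists_vdet_ne [P.IsPrime] (hP : Homog P) (hpol : Polar θ) (f : Frame θ) (a : Fin (N + 1)) {F : Type} [Field F] [Algebra ℂ F] {y : Ph N → F}
    (h1 : y (Sum.inl a) = 1) (h2 : y (Sum.inr a) = 0) (h3 : ∀ q ∈ P, aeval y (rename Sum.inl q) = 0)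
    (h4 : ∀ q ∈ P, aeval y (∑ b, rename Sum.inl (pderiv b q) * X (Sum.inr b)) = 0) (h5 : ∃ b, y (Sum.inr b) ≠ 0) :
    ∃ K : Fin (N + 1) → (Unit ⊕ Unit) ⊕ (Fin f.q ⊕ Fin f.q) ⊕ Fin J, aeval y (vdet (gfam f a) K) ≠ 0 := by
  by_contra hne
  obtain ⟨b, hb⟩ := h5
  apply hb
  -- the equations of the tangent vectors with vanishing minors
  let S : Set (MvPolynomial (Ph N) ℂ) := {s | s = X (Sum.inl a) - 1 ∨ s = X (Sum.inr a) ∨ (∃ q ∈ P, s = rename Sum.inl q) ∨
    (∃ q ∈ P, s = ∑ b, rename Sum.inl (pderiv b q) * X (Sum.inr b)) ∨ ∃ K, s = vdet (gfam f a) K}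
  have hC : ∀ z : Ph N → ℂ, (∀ s ∈ S, eval z s = 0) → eval z (X (Sum.inr b) : MvPolynomial (Ph N) ℂ) = 0 := by
    intro z hz
    have e1 : z (Sum.inl a) = 1 := by
      have h := hz _ (Or.inl rfl)
      rw [map_sub, eval_X, map_one, sub_eq_zero] at h
      exact h
    have e2 : z (Sum.inr a) = 0 := by
      have h := hz _ (Or.inr (Or.inl rfl))
      rwa [eval_X] at h
    have e3 : ∀ q ∈ P, eval (fun c => z (Sum.inl c)) q = 0 := fun q hq => by
      have h := hz _ (Or.inr (Or.inr (Or.inl ⟨q, hq, rfl⟩)))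
      rw [eval_rename] at h
      exact h
    have e4 : ∀ q ∈ P, ∑ c, z (Sum.inr c) * eval (fun c => z (Sum.inl c)) (pderiv c q) = 0 := fun q hq => by
      have h := hz _ (Or.inr (Or.inr (Or.inr (Or.inl ⟨q, hq, rfl⟩))))
      rw [map_sum] at h
      rw [← h]
      refine Finset.sum_congr rfl fun c _ => ?_
      rw [map_mul, eval_rename, eval_X, mul_comm]
      rfl
    have e5 : ∀ K, eval z (vdet (gfam f a) K) = 0 := fun K => hz _ (Or.inr (Or.inr (Or.inr (Or.inr ⟨K, rfl⟩))))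
    rw [eval_X]
    by_contra hzb
    have hpt : pt (fun c => z (Sum.inl c)) (fun c => z (Sum.inr c)) = z := by
      funext s
      rcases s with c | c <;> rfl
    have hT : IsTan θ a (fun k => (θ k).toFun (fun c => z (Sum.inl c)) fun c => z (Sum.inr c)) (fun c => z (Sum.inl c)) fun c => z (Sum.inr c) := by
      refine ⟨⟨fun h0 => ?_, e3⟩, e1, e4, e2, fun k => rfl⟩
      have h6 := congrFun h0 a
      rw [Pi.zero_apply, e1] at h6
      exact one_ne_zero h6
    obtain ⟨K, hK⟩ := exists_row hpol f hT (fun h0 => hzb (congrFun h0 b))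
    rw [hpt] at hK
    exact hK (e5 K)
  have h := transfer hC y (by
    rintro s (rfl | rfl | ⟨q, hq, rfl⟩ | ⟨q, hq, rfl⟩ | ⟨K, rfl⟩)
    · rw [map_sub, aeval_X, h1, map_one, sub_self]
    · rw [aeval_X, h2]
    · exact h3 q hq
    · exact h4 q hq
    · by_contra hK
      exact hne ⟨K, hK⟩)
  rwa [aeval_X] at h

end Pool.Agent.GB

end

section

/-!
# GA Brg: the ring of the small functions and the curves on the half-plane, in the form of the algebraic half
-/

set_option autoImplicit false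

open MvPolynomial Topology Filter Metric
open Pool.Agent.H13.SM (conTan cone)
open Pool.Agent.GG

namespace Pool.Agent.GA

variable {N : ℕ} {P : Ideal (MvPolynomial (Fin (N + 1)) ℂ)} {F : ℂ → Fin (N + 1) → ℂ}

/-- MODULE Brg -/
theorem isSmallRing_OO {s : ℂ → ℝ} {X : ℕ → ℝ} (hX : Lev s X) : IsSmallRing (GA.OO hX) HP where
  an := fun _ hg w hw => IsOO.an hg w hw
  deriv_mem := fun g hg => by
    refine ⟨fun w hw => (IsOO.an hg w hw).deriv, fun w hw => ?_, fun j => ?_⟩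
    · -- the derivative is periodic
      have h1 : (fun z => g (z + per)) =ᶠ[𝓝 w] g := by
        filter_upwards [Rg.isOpen_HP.mem_nhds hw] with z hz
        exact IsOO.periodic hg z hz
      rw [← h1.deriv_eq, deriv_comp_add_const]
    · have h1 := IsOO.small hg (j + 1)
      rw [iteratedDeriv_succ'] at h1
      exact h1

theorem HCurve.isCurve (hF : HCurve P F) (h : ∃ w ∈ HP, deriv F w ∉ Submodule.span ℂ {F w}) : IsCurve P F HP where
  isOpen := Rg.isOpen_HP
  conn := by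
    apply Convex.isPreconnected
    exact convex_halfSpace_re_gt 0
  an := hF.an
  mem := hF.cone
  ne := h

end Pool.Agent.GA

end

section

/-!
# GA Gro: Gronwall and length-area

`log⁺ ‖A (t + i y)‖ ≤ log⁺ ‖A (1 + i y)‖ + C ∫_1^t s (τ + i y) dτ` (horizontal lines; `‖A‖` for the Euclidean norm, or `‖A t‖ ≤ ‖A 1‖ exp (C ∫ s)` by Gronwall),
mean over `y`, Cauchy-Schwarz: `mn log⁺ ‖A‖ (t) ≤ C + C ∫_1^t mn s ≤ C + C' (t AA s t)^(1/2)`, monotone in `t`, at `X_n`: `(X_n AA (X_n))^(1/2) ≤ τ_n / (n + 1)^(1/2)`.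
-/

set_option autoImplicit false

open Topology Filter Metric

namespace Pool.Agent.GA

variable {s : ℂ → ℝ} {X : ℕ → ℝ}

private theorem isOpen_HP' : IsOpen HP := isOpen_lt continuous_const Complex.continuous_re

private theorem re_line (t y : ℝ) : ((t : ℂ) + y * Complex.I).re = t := by simp

private theorem continuous_line {E : Type*} [TopologicalSpace E] {h : ℂ → E} (hh : ContinuousOn h HP) {t : ℝ} (ht : 0 < t) :
    Continuous fun y : ℝ => h (t + y * Complex.I) := by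
  have h1 : Continuous fun y : ℝ => ((t : ℂ) + y * Complex.I) := by fun_prop
  refine continuous_iff_continuousAt.2 fun y => ?_
  have h2 : ((t : ℂ) + y * Complex.I) ∈ HP := by
    show 0 < ((t : ℂ) + y * Complex.I).re
    rw [re_line]
    exact ht
  exact ContinuousAt.comp (f := fun y : ℝ => ((t : ℂ) + y * Complex.I)) (g := h) (hh.continuousAt (isOpen_HP'.mem_nhds h2)) h1.continuousAt

private theorem lev_ge (hX : Lev s X) (n : ℕ) : ((n : ℝ) + 1) * X n ≤ tau s X n ∧ 4 ≤ X n ∧ (n : ℝ) + 1 ≤ tau s X n ∧ 4 ≤ tau s X n := by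
  have h1 := hX.big n
  have h2 := hX.sub n
  have h3 : (0 : ℝ) ≤ n := Nat.cast_nonneg n
  refine ⟨h2, by linarith, ?_, ?_⟩ <;> nlinarith

private theorem tau_tendsto (hX : Lev s X) : Tendsto (tau s X) atTop atTop := by
  refine tendsto_atTop_mono (fun n => (lev_ge hX n).2.2.1) ?_
  exact tendsto_atTop_add_const_right _ _ tendsto_natCast_atTop_atTop

private theorem gro_smallN_const (hX : Lev s X) (c : ℝ) : SmallN s X fun _ => c := (tau_tendsto hX).const_div_atTop c

private theorem SmallN.add' {η μ : ℕ → ℝ} (h₁ : SmallN s X η) (h₂ : SmallN s X μ) : SmallN s X fun n => η n + μ n := by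
  have h := Tendsto.add h₁ h₂
  rw [add_zero] at h
  refine h.congr fun n => ?_
  rw [add_div]

private theorem SmallN.const_mul' {η : ℕ → ℝ} (h₁ : SmallN s X η) (c : ℝ) : SmallN s X fun n => c * η n := by
  have h := Tendsto.const_mul c h₁
  rw [mul_zero] at h
  refine h.congr fun n => ?_
  rw [mul_div_assoc]

private theorem gro_smallN_X (hX : Lev s X) : SmallN s X X := by
  have h1 : Tendsto (fun n : ℕ => 1 / ((n : ℝ) + 1)) atTop (𝓝 0) := tendsto_one_div_add_atTop_nhds_zero_nat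
  refine squeeze_zero (fun n => ?_) (fun n => ?_) h1
  · have h2 := lev_ge hX n
    exact div_nonneg (by linarith) (by linarith)
  · have h2 := lev_ge hX n
    have h3 : (0 : ℝ) < (n : ℝ) + 1 := by positivity
    rw [div_le_div_iff₀ (by linarith) h3]
    linarith

private theorem gro_smallN_sqrt (hX : Lev s X) : SmallN s X fun n => √(X n) * √(AA s (X n)) := by
  have h1 : Tendsto (fun n : ℕ => 1 / √((n : ℝ) + 1)) atTop (𝓝 0) := by
    have h2 : Tendsto (fun n : ℕ => √((n : ℝ) + 1)) atTop atTop :=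
      Real.tendsto_sqrt_atTop.comp (tendsto_atTop_add_const_right _ _ tendsto_natCast_atTop_atTop)
    exact h2.const_div_atTop 1
  refine squeeze_zero (fun n => ?_) (fun n => ?_) h1
  · have h2 := lev_ge hX n
    exact div_nonneg (by positivity) (by linarith)
  · have h2 := lev_ge hX n
    have h3 : (0 : ℝ) < (n : ℝ) + 1 := by positivity
    have h4 : 0 < √((n : ℝ) + 1) := Real.sqrt_pos.2 h3
    rw [div_le_div_iff₀ (by linarith) h4, one_mul]
    show √(X n) * √(AA s (X n)) * √((n : ℝ) + 1) ≤ tau s X n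
    rw [← Real.sqrt_mul (by linarith), ← Real.sqrt_mul' _ h3.le]
    refine Real.sqrt_le_iff.2 ⟨by linarith, ?_⟩
    have h5 := hX.area n
    linarith

/-- the area is monotone -/
private theorem AA_mono (hs : Speed s) {t T : ℝ} (ht : 1 ≤ t) (hT : t ≤ T) : AA s t ≤ AA s T := by
  have hmax : max t 1 = t := max_eq_left ht
  have hmax' : max T 1 = T := max_eq_left (ht.trans hT)
  rw [AA, AA, hmax, hmax']
  have hc : ContinuousOn (fun w => s w ^ 2) HP := hs.cont.pow 2
  -- the continuous extension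
  obtain ⟨e', he'⟩ : ∃ e' : ℝ → ℝ → ℝ, e' = fun t (y : ℝ) => s (((max t 1 : ℝ) : ℂ) + (y : ℂ) * Complex.I) ^ 2 := ⟨_, rfl⟩
  have he'c : Continuous (Function.uncurry e') := by
    rw [he']
    have h1 : Continuous fun q : ℝ × ℝ => (((max q.1 1 : ℝ) : ℂ) + q.2 * Complex.I) := by fun_prop
    refine continuous_iff_continuousAt.2 fun q => ?_
    have h2 : ((((max q.1 1 : ℝ) : ℂ) + q.2 * Complex.I)) ∈ HP := by
      show 0 < ((((max q.1 1 : ℝ) : ℂ) + q.2 * Complex.I)).re
      rw [re_line]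
      exact lt_of_lt_of_le one_pos (le_max_right _ _)
    exact ContinuousAt.comp (f := fun q : ℝ × ℝ => (((max q.1 1 : ℝ) : ℂ) + q.2 * Complex.I)) (g := fun w => s w ^ 2)
      (hc.continuousAt (isOpen_HP'.mem_nhds h2)) h1.continuousAt
  have hmn : ∀ t : ℝ, 1 ≤ t → mn (fun w => s w ^ 2) t = ∫ y in (0 : ℝ)..2 * Real.pi, e' t y := by
    intro t ht
    rw [mn, he']
    refine intervalIntegral.integral_congr fun y _ => ?_
    simp only [max_eq_left ht]
  have hc1 : Continuous fun t : ℝ => ∫ y in (0 : ℝ)..2 * Real.pi, e' t y :=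
    intervalIntegral.continuous_parametric_intervalIntegral_of_continuous' he'c 0 (2 * Real.pi)
  have hcong : ∀ T : ℝ, 1 ≤ T → ∫ t in (1 : ℝ)..T, mn (fun w => s w ^ 2) t = ∫ t in (1 : ℝ)..T, ∫ y in (0 : ℝ)..2 * Real.pi, e' t y := by
    intro T hT
    refine intervalIntegral.integral_congr fun t ht => ?_
    rw [Set.uIcc_of_le hT] at ht
    exact hmn t ht.1
  rw [hcong t ht, hcong T (ht.trans hT), ← sub_nonneg, intervalIntegral.integral_interval_sub_left (hc1.intervalIntegrable _ _) (hc1.intervalIntegrable _ _)]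
  refine intervalIntegral.integral_nonneg hT fun u _ => intervalIntegral.integral_nonneg (by positivity) fun y _ => ?_
  rw [he']
  positivity

theorem gro (hs : Speed s) (hX : Lev s X) {n : ℕ} {A : ℂ → Fin n → ℂ} (hA : ∀ w ∈ HP, AnalyticAt ℂ A w) {C : ℝ}
    (hb : ∀ w ∈ HP, ‖deriv A w‖ ≤ C * s w * ‖A w‖) :
    ∃ η : ℕ → ℝ, SmallN s X η ∧ ∀ n, ∀ t ∈ Set.Icc 1 (X n), mn (fun w => Real.posLog ‖A w‖) t ≤ η n := by
  have hcore := gro_core (a := A) (e := fun w => s w ^ 2) (fun w hw => (hA w hw).differentiableAt.differentiableWithinAt) (hs.cont.pow 2)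
    (fun w _ => sq_nonneg _) (abs_nonneg C) (fun w hw => by
      rw [Real.sqrt_sq (hs.nonneg w hw)]
      refine (hb w hw).trans ?_
      have h1 := hs.nonneg w hw
      gcongr
      exact le_abs_self C)
  refine ⟨fun n => mn (fun w => Real.posLog ‖A w‖) 1 + |C| * √(2 * Real.pi) * (√(X n) * √(AA s (X n))),
    (gro_smallN_const hX _).add' ((gro_smallN_sqrt hX).const_mul' _), fun n t ht => ?_⟩
  refine (hcore t ht.1).trans ?_
  have h1 : ∫ u in (1 : ℝ)..t, ∫ y in (0 : ℝ)..2 * Real.pi, s (u + y * Complex.I) ^ 2 = AA s t := by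
    rw [AA, max_eq_left ht.1]
    rfl
  rw [h1]
  have h2 : √(2 * Real.pi * (t - 1)) * √(AA s t) ≤ √(2 * Real.pi) * (√(X n) * √(AA s (X n))) := by
    rw [Real.sqrt_mul (by positivity), mul_assoc]
    have h3 : √(t - 1) ≤ √(X n) := Real.sqrt_le_sqrt (by linarith [ht.2])
    have h4 : √(AA s t) ≤ √(AA s (X n)) := Real.sqrt_le_sqrt (AA_mono hs ht.1 ht.2)
    gcongr
  have h5 : (∫ y in (0 : ℝ)..2 * Real.pi, Real.posLog ‖A (1 + y * Complex.I)‖) = mn (fun w => Real.posLog ‖A w‖) 1 := by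
    rw [mn]
    simp
  rw [h5]
  have h6 := mul_le_mul_of_nonneg_left h2 (abs_nonneg C)
  linarith

/-- after a multiplication by an exponential a component is small -/
theorem gro_comp (hs : Speed s) (hX : Lev s X) {n : ℕ} {A : ℂ → Fin n → ℂ} (hA : ∀ w ∈ HP, AnalyticAt ℂ A w) {C : ℝ}
    (hb : ∀ w ∈ HP, ‖deriv A w‖ ≤ C * s w * ‖A w‖) {a : ℂ → ℂ} (ha : ∀ w ∈ HP, AnalyticAt ℂ a w) (hap : ∀ w ∈ HP, a (w + per) = a w)
    {q : ℂ} {k : Fin n} {e : ℕ} (he : 1 ≤ e) (hq : ∀ w ∈ HP, ‖a w‖ ^ e ≤ ‖Complex.exp (q * w)‖ * ‖A w k‖) : IsOO s X a := by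
  obtain ⟨η, hη, hη'⟩ := gro hs hX hA hb
  refine IsOO.of_mean hX ha hap (η := fun n => η n + 2 * Real.pi * ‖q‖ * (X n + 2 * Real.pi)) ?_ ?_
  · have h1 : SmallN s X fun n => 2 * Real.pi * ‖q‖ * (X n + 2 * Real.pi) :=
      ((gro_smallN_X hX).add' (gro_smallN_const hX (2 * Real.pi))).const_mul' (2 * Real.pi * ‖q‖)
    exact hη.add' h1
  · refine Filter.Eventually.of_forall fun n t ht => ?_
    have h1 := lev_ge hX n
    have h2 : 1 / tau s X n ≤ 1 / 4 := one_div_le_one_div_of_le (by norm_num) h1.2.2.2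
    have h3 : 0 < 1 / tau s X n := one_div_pos.2 (by linarith)
    have h4 : xi s X n = X n - 2 * (1 / tau s X n) := by rw [xi, mul_one_div]
    rw [h4] at ht
    have ht1 : 1 ≤ t := by linarith [ht.1]
    have ht2 : t ≤ X n := by linarith [ht.2]
    have ht0 : 0 < t := by linarith
    refine le_trans ?_ (add_le_add_left (hη' n t ⟨ht1, ht2⟩) _)
    have hac : ContinuousOn a HP := fun w hw => (ha w hw).continuousAt.continuousWithinAt
    have hAc : ContinuousOn A HP := fun w hw => (hA w hw).continuousAt.continuousWithinAt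
    have hc1 : Continuous fun y : ℝ => Real.posLog ‖a (t + y * Complex.I)‖ := Real.continuous_posLog.comp (continuous_line hac ht0).norm
    have hc2 : Continuous fun y : ℝ => Real.posLog ‖A (t + y * Complex.I)‖ := Real.continuous_posLog.comp (continuous_line hAc ht0).norm
    have hpt : ∀ y ∈ Set.Icc (0 : ℝ) (2 * Real.pi), Real.posLog ‖a (t + y * Complex.I)‖ ≤
        Real.posLog ‖A (t + y * Complex.I)‖ + ‖q‖ * (X n + 2 * Real.pi) := by
      intro y hy
      obtain ⟨w, hw⟩ : ∃ w : ℂ, w = t + y * Complex.I := ⟨_, rfl⟩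
      have hwH : w ∈ HP := by
        show 0 < w.re
        rw [hw, re_line]
        exact ht0
      rw [← hw]
      have h5 : (e : ℝ) * Real.posLog ‖a w‖ ≤ Real.posLog ‖Complex.exp (q * w)‖ + Real.posLog ‖A w k‖ := by
        rw [← Real.posLog_pow]
        exact (Real.posLog_le_posLog (by positivity) (hq w hwH)).trans Real.posLog_mul
      have h6 : Real.posLog ‖a w‖ ≤ (e : ℝ) * Real.posLog ‖a w‖ := by
        have h7 : (1 : ℝ) ≤ e := by exact_mod_cast he
        have h8 : 0 ≤ Real.posLog ‖a w‖ := Real.posLog_nonneg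
        nlinarith
      have h7 : Real.posLog ‖A w k‖ ≤ Real.posLog ‖A w‖ := Real.posLog_le_posLog (norm_nonneg _) (norm_le_pi_norm _ _)
      have h8 : ‖w‖ ≤ X n + 2 * Real.pi := by
        rw [hw]
        refine (norm_add_le _ _).trans ?_
        rw [norm_mul, Complex.norm_I, mul_one, Complex.norm_real, Complex.norm_real, Real.norm_of_nonneg ht0.le, Real.norm_of_nonneg hy.1]
        linarith [hy.2]
      have h9 : Real.posLog ‖Complex.exp (q * w)‖ ≤ ‖q‖ * (X n + 2 * Real.pi) := by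
        rw [Complex.norm_exp, Real.posLog_apply, Real.log_exp]
        refine max_le (by have := Real.pi_pos; have := h1.2.1; positivity) ?_
        calc (q * w).re ≤ ‖q * w‖ := Complex.re_le_norm _
          _ = ‖q‖ * ‖w‖ := norm_mul _ _
          _ ≤ _ := mul_le_mul_of_nonneg_left h8 (norm_nonneg _)
      linarith
    calc mn (fun w => Real.posLog ‖a w‖) t ≤ ∫ y in (0 : ℝ)..2 * Real.pi, (Real.posLog ‖A (t + y * Complex.I)‖ + ‖q‖ * (X n + 2 * Real.pi)) :=
          intervalIntegral.integral_mono_on (by positivity) (hc1.intervalIntegrable _ _) ((hc2.add continuous_const).intervalIntegrable _ _) hpt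
      _ = mn (fun w => Real.posLog ‖A w‖) t + 2 * Real.pi * ‖q‖ * (X n + 2 * Real.pi) := by
          rw [intervalIntegral.integral_add (hc2.intervalIntegrable _ _) intervalIntegrable_const, intervalIntegral.integral_const, smul_eq_mul, mn]
          ring

end Pool.Agent.GA

end
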