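import Pool.Agent.H18.GGT.M25
import Pool.Agent.H18.GGT.M45
import Pool.Agent.H18.GGT.M46

/-! The parts of this file: GA.BndL, GA.Bnd, GA.AlphaD, GA.Alpha, GQ.Fda, GQ.Fld, GQ.Jac, GA.Sml. -/

section

/-!
# GA BndL: the linearised equation gives `‖U‖ ≤ C ‖v‖ ‖V‖`

`g_l (x, ρ v) = ρ ^ e_l g_l (x, v)` for the functions `g_l` of the family: so `(V, U / ρ)` solves the equation at `(x, v / ρ)`, `ρ = ‖v‖`.  On the compact set of the unit vectors the
map `U ↦ (∂G_l/∂v U)_l` is bounded below by `GG.row_zero`.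
-/

set_option autoImplicit false

open MvPolynomial Topology Filter Metric
open Pool.Agent.H13.SM (conTan cone)
open Pool.Agent.GG

noncomputable section

namespace Pool.Agent.GA.BL

variable {N : ℕ} {P : Ideal (MvPolynomial (Fin (N + 1)) ℂ)} {J : ℕ} {m : Fin J → ℕ} {θ : ∀ k, SymSec P (m k)}

/-- the index of the family -/
abbrev Ix {θ : ∀ k, SymSec P (m k)} (f : Frame θ) : Type := (Unit ⊕ Unit) ⊕ (Fin f.q ⊕ Fin f.q) ⊕ Fin J

theorem hasDerivAt_evalA (p : MvPolynomial (Ph N) ℂ) (x v V U : Fin (N + 1) → ℂ) :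
    HasDerivAt (fun t : ℂ => eval (pt (x + t • V) (v + t • U)) p) (∑ s, eval (pt x v) (pderiv s p) * pt V U s) 0 := by
  have h1 : HasDerivAt (fun t : ℂ => (pt (x + t • V) (v + t • U) : Ph N → ℂ)) (pt V U) 0 := by
    rw [hasDerivAt_pi]
    rintro (b | b)
    · have h2 : HasDerivAt (fun t : ℂ => x b + t * V b) (V b) 0 := by
        simpa using ((hasDerivAt_id (0 : ℂ)).mul_const (V b)).const_add (x b)
      simpa using h2
    · have h2 : HasDerivAt (fun t : ℂ => v b + t * U b) (U b) 0 := by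
        simpa using ((hasDerivAt_id (0 : ℂ)).mul_const (U b)).const_add (v b)
      simpa using h2
  have h3 := Pool.Agent.H13.SM.Inv_hasFDerivAt_eval p (pt (x + (0 : ℂ) • V) (v + (0 : ℂ) • U))
  have h4 := h3.comp_hasDerivAt (0 : ℂ) h1
  have h5 : (v + (0 : ℂ) • U) = v := by simp
  have h6 : (x + (0 : ℂ) • V) = x := by simp
  rw [h5, h6] at h4
  refine (h4.congr_deriv ?_)
  simp

/-- a weighted homogeneous polynomial is homogeneous in `v` -/
theorem eval_hom {p : MvPolynomial (Ph N) ℂ} {d : ℕ} (hp : IsWeightedHomogeneous (Sum.elim (fun _ => 0) (fun _ => 1) : Ph N → ℕ) p d)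
    (x v : Fin (N + 1) → ℂ) (ρ : ℂ) : eval (pt x (ρ • v)) p = ρ ^ d * eval (pt x v) p := by
  rw [eval_eq', eval_eq', Finset.mul_sum]
  refine Finset.sum_congr rfl fun μ hμ => ?_
  have h2 := hp (mem_support_iff.1 hμ)
  rw [Finsupp.weight_apply, Finsupp.sum_fintype _ _ (by simp)] at h2
  rw [Fintype.sum_sum_type] at h2
  simp only [Sum.elim_inl, Sum.elim_inr, smul_eq_mul, mul_zero, Finset.sum_const_zero, mul_one, zero_add] at h2
  rw [Fintype.prod_sum_type, Fintype.prod_sum_type]
  simp only [pt, Sum.elim_inl, Sum.elim_inr, Pi.smul_apply, smul_eq_mul, mul_pow, Finset.prod_mul_distrib]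
  rw [Finset.prod_pow_eq_pow_sum, h2]
  ring

/-- the degrees in `v` -/
def deg {θ : ∀ k, SymSec P (m k)} (f : Frame θ) : Ix f → ℕ :=
  Sum.elim (Sum.elim (fun _ => 0) fun _ => 1) (Sum.elim (Sum.elim (fun _ => 0) fun _ => 1) m)

theorem eval_gfam {f : Frame θ} (hf : HomFr f) (b : Fin (N + 1)) (l : Ix f) (x v : Fin (N + 1) → ℂ) (ρ : ℂ) :
    eval (pt x (ρ • v)) (gfam f b l) = ρ ^ deg f l * eval (pt x v) (gfam f b l) := by
  rcases l with ((l | l) | ((j | j) | k))
  · simp [gfam, deg]
  · simp [gfam, deg]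
  · simp only [gfam, deg, Sum.elim_inl, Sum.elim_inr, pow_zero, one_mul, eval_rename]
    rfl
  · simp only [gfam, deg, Sum.elim_inl, Sum.elim_inr, pow_one, map_sum, map_mul, eval_X, eval_rename, pt, Pi.smul_apply, smul_eq_mul, Finset.mul_sum]
    refine Finset.sum_congr rfl fun c _ => ?_
    have : (Sum.elim x (ρ • v) ∘ Sum.inl : Fin (N + 1) → ℂ) = Sum.elim x v ∘ Sum.inl := rfl
    rw [this]
    ring
  · exact eval_hom (hf b k) x v ρ

/-- scaling of the linearised equation -/
theorem lin_scale {f : Frame θ} (hf : HomFr f) (b : Fin (N + 1)) (l : Ix f) (x v V U : Fin (N + 1) → ℂ) (ρ : ℂ) :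
    ∑ s, eval (pt x (ρ • v)) (pderiv s (gfam f b l)) * pt V (ρ • U) s =
      ρ ^ deg f l * ∑ s, eval (pt x v) (pderiv s (gfam f b l)) * pt V U s := by
  have h1 := hasDerivAt_evalA (gfam f b l) x (ρ • v) V (ρ • U)
  have h2 := (hasDerivAt_evalA (gfam f b l) x v V U).const_mul (ρ ^ deg f l)
  refine h1.unique (h2.congr_of_eventuallyEq (Eventually.of_forall fun t => ?_))
  have h3 : ρ • v + t • (ρ • U) = ρ • (v + t • U) := by
    rw [smul_add, smul_comm t ρ]
  simp only [h3]
  exact eval_gfam hf b l _ _ ρ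

/-- the unit vectors in the chart -/
def UnitSet (P : Ideal (MvPolynomial (Fin (N + 1)) ℂ)) (b : Fin (N + 1)) : Set (Ph N → ℂ) :=
  {y | InCh P b (fun c => y (Sum.inl c)) (fun c => y (Sum.inr c)) ∧ ‖fun c => y (Sum.inr c)‖ = 1}

theorem isCompact_UnitSet (P : Ideal (MvPolynomial (Fin (N + 1)) ℂ)) (b : Fin (N + 1)) : IsCompact (UnitSet P b) := by
  have hc : ∀ Q : MvPolynomial (Fin (N + 1)) ℂ, Continuous fun y : Ph N → ℂ => eval (fun b => y (Sum.inl b)) Q := fun Q =>
    (MvPolynomial.continuous_eval Q).comp (continuous_pi fun b => continuous_apply _)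
  have e : UnitSet P b = {y | y (Sum.inl b) = 1} ∩ ({y | y (Sum.inr b) = 0} ∩ ({y | ∀ c, ‖y (Sum.inl c)‖ ≤ 1} ∩
      ({y | ∀ Q ∈ P, eval (fun b => y (Sum.inl b)) Q = 0} ∩
        ({y | ∀ Q ∈ P, ∑ i, y (Sum.inr i) * eval (fun b => y (Sum.inl b)) (pderiv i Q) = 0} ∩ {y | ‖fun c => y (Sum.inr c)‖ = 1})))) := by
    ext y
    constructor
    · rintro ⟨⟨h1, h2, h3, h4, h5⟩, h6⟩
      exact ⟨h2, h5, h3, h1.2, h4, h6⟩
    · rintro ⟨h2, h5, h3, h1, h4, h6⟩
      refine ⟨⟨⟨fun h0 => ?_, h1⟩, h2, h3, h4, h5⟩, h6⟩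
      have h7 := congrFun h0 b
      have h8 : y (Sum.inl b) = 1 := h2
      simp only [Pi.zero_apply] at h7
      rw [h8] at h7
      exact one_ne_zero h7
  have h1 : IsClosed {y : Ph N → ℂ | y (Sum.inl b) = 1} := isClosed_eq (continuous_apply _) continuous_const
  have h2 : IsClosed {y : Ph N → ℂ | y (Sum.inr b) = 0} := isClosed_eq (continuous_apply _) continuous_const
  have h3 : IsClosed {y : Ph N → ℂ | ∀ b, ‖y (Sum.inl b)‖ ≤ 1} := by
    simp only [Set.ofPred_forall]
    exact isClosed_iInter fun b => isClosed_le (continuous_apply _).norm continuous_const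
  have h4 : IsClosed {y : Ph N → ℂ | ∀ Q ∈ P, eval (fun b => y (Sum.inl b)) Q = 0} := by
    simp only [Set.ofPred_forall]
    exact isClosed_iInter fun Q => isClosed_iInter fun _ => isClosed_eq (hc Q) continuous_const
  have h5 : IsClosed {y : Ph N → ℂ | ∀ Q ∈ P, ∑ i, y (Sum.inr i) * eval (fun b => y (Sum.inl b)) (pderiv i Q) = 0} := by
    simp only [Set.ofPred_forall]
    refine isClosed_iInter fun Q => isClosed_iInter fun _ => isClosed_eq ?_ continuous_const
    exact continuous_finsetSum _ fun i _ => (continuous_apply _).mul (hc _)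
  have h6 : IsClosed {y : Ph N → ℂ | ‖fun c : Fin (N + 1) => y (Sum.inr c)‖ = 1} :=
    isClosed_eq (continuous_pi fun b => continuous_apply (Sum.inr b)).norm continuous_const
  have hcl : IsClosed (UnitSet P b) := by
    rw [e]
    exact h1.inter (h2.inter (h3.inter (h4.inter (h5.inter h6))))
  refine Metric.isCompact_of_isClosed_isBounded hcl ?_
  refine (isBounded_closedBall (x := (0 : Ph N → ℂ)) (r := 1)).subset ?_
  rintro y ⟨⟨_, _, h3, _, _⟩, h6⟩
  rw [mem_closedBall_zero_iff, pi_norm_le_iff_of_nonneg zero_le_one]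
  rintro (c | c)
  · exact h3 c
  · rw [← h6]
    exact norm_le_pi_norm (fun c : Fin (N + 1) => y (Sum.inr c)) c

/-- a lower bound on a compact set for injective linear maps -/
theorem lower_bound {ι Y : Type} [Fintype ι] [TopologicalSpace Y] {n : ℕ} {S : Set Y} (hS : IsCompact S) {A : ι → Fin n → Y → ℂ}
    (hA : ∀ l c, Continuous (A l c)) (hinj : ∀ y ∈ S, ∀ U : Fin n → ℂ, (∀ l, ∑ c, A l c y * U c = 0) → U = 0) :
    ∃ δ > 0, ∀ y ∈ S, ∀ U : Fin n → ℂ, δ * ‖U‖ ≤ ∑ l, ‖∑ c, A l c y * U c‖ := by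
  obtain ⟨g, hg⟩ : ∃ g : Y × (Fin n → ℂ) → ℝ, g = fun z => ∑ l, ‖∑ c, A l c z.1 * z.2 c‖ := ⟨_, rfl⟩
  have hcont : Continuous g := by
    rw [hg]
    refine continuous_finsetSum _ fun l _ => (continuous_finsetSum _ fun c _ => ?_).norm
    exact ((hA l c).comp continuous_fst).mul ((continuous_apply c).comp continuous_snd)
  have hK : IsCompact (S ×ˢ sphere (0 : Fin n → ℂ) 1) := hS.prod (isCompact_sphere _ _)
  obtain ⟨δ, hδ, h1⟩ : ∃ δ > 0, ∀ y ∈ S, ∀ U : Fin n → ℂ, ‖U‖ = 1 → δ ≤ g (y, U) := by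
    rcases (S ×ˢ sphere (0 : Fin n → ℂ) 1).eq_empty_or_nonempty with h0 | h0
    · refine ⟨1, one_pos, fun y hy U hU => ?_⟩
      have h2 : (y, U) ∈ S ×ˢ sphere (0 : Fin n → ℂ) 1 := ⟨hy, by simpa using hU⟩
      rw [h0] at h2
      exact h2.elim
    · obtain ⟨z, hz, hmin⟩ := hK.exists_isMinOn h0 hcont.continuousOn
      refine ⟨g z, ?_, fun y hy U hU => ?_⟩
      · obtain ⟨hz1, hz2⟩ := hz
        by_contra hneg
        rw [hg] at hneg
        have h5 : ∑ l, ‖∑ c, A l c z.1 * z.2 c‖ = 0 :=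
          le_antisymm (not_lt.1 hneg) (Finset.sum_nonneg fun k _ => norm_nonneg _)
        have h7 : z.2 = 0 := hinj z.1 hz1 z.2 fun l =>
          norm_eq_zero.1 ((Finset.sum_eq_zero_iff_of_nonneg fun k _ => norm_nonneg _).1 h5 l (Finset.mem_univ l))
        rw [mem_sphere_zero_iff_norm, h7, norm_zero] at hz2
        exact zero_ne_one hz2
      · have h2 : (y, U) ∈ S ×ˢ sphere (0 : Fin n → ℂ) 1 := ⟨hy, by simpa using hU⟩
        exact hmin h2
  refine ⟨δ, hδ, fun y hy U => ?_⟩
  rcases eq_or_ne U 0 with rfl | hU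
  · simp only [norm_zero, mul_zero]
    exact Finset.sum_nonneg fun _ _ => norm_nonneg _
  · have hU0 : 0 < ‖U‖ := norm_pos_iff.2 hU
    have h3 := h1 y hy (((‖U‖⁻¹ : ℝ) : ℂ) • U) (by
      rw [norm_smul, Complex.norm_real, norm_inv, norm_norm, inv_mul_cancel₀ hU0.ne'])
    rw [hg] at h3
    have h4 : ∀ l, ‖∑ c, A l c y * (((‖U‖⁻¹ : ℝ) : ℂ) • U) c‖ = ‖U‖⁻¹ * ‖∑ c, A l c y * U c‖ := by
      intro l
      have h5 : ∑ c, A l c y * (((‖U‖⁻¹ : ℝ) : ℂ) • U) c = ((‖U‖⁻¹ : ℝ) : ℂ) * ∑ c, A l c y * U c := by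
        rw [Finset.mul_sum]
        refine Finset.sum_congr rfl fun c _ => ?_
        rw [Pi.smul_apply, smul_eq_mul]
        ring
      rw [h5, norm_mul, Complex.norm_real, norm_inv, norm_norm]
    simp only [h4] at h3
    rw [← Finset.mul_sum, inv_mul_eq_div, le_div_iff₀ hU0] at h3
    exact h3

theorem upper_bound {ι Y : Type} [Fintype ι] [TopologicalSpace Y] {n : ℕ} {S : Set Y} (hS : IsCompact S) {A : ι → Fin n → Y → ℂ}
    (hA : ∀ l c, Continuous (A l c)) : ∃ B : ℝ, ∀ y ∈ S, ∑ l, ∑ c, ‖A l c y‖ ≤ B := by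
  obtain ⟨g, hg⟩ : ∃ g : Y → ℝ, g = fun y => ∑ l, ∑ c, ‖A l c y‖ := ⟨_, rfl⟩
  have hcont : Continuous g := by
    rw [hg]
    exact continuous_finsetSum _ fun l _ => continuous_finsetSum _ fun c _ => (hA l c).norm
  obtain ⟨B, hB⟩ := hS.exists_bound_of_continuousOn hcont.continuousOn
  refine ⟨B, fun y hy => ?_⟩
  have := (le_abs_self _).trans (hB y hy)
  rwa [hg] at this

theorem abs_bound {ι Y : Type} [Fintype ι] [TopologicalSpace Y] {n : ℕ} {S : Set Y} (hS : IsCompact S) {A E : ι → Fin n → Y → ℂ}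
    (hA : ∀ l c, Continuous (A l c)) (hE : ∀ l c, Continuous (E l c))
    (hinj : ∀ y ∈ S, ∀ U : Fin n → ℂ, (∀ l, ∑ c, A l c y * U c = 0) → U = 0) :
    ∃ C : ℝ, 0 ≤ C ∧ ∀ y ∈ S, ∀ V U : Fin n → ℂ, (∀ l, ∑ c, E l c y * V c + ∑ c, A l c y * U c = 0) → ‖U‖ ≤ C * ‖V‖ := by
  obtain ⟨δ, hδ, h1⟩ := lower_bound hS hA hinj
  obtain ⟨B, hB⟩ := upper_bound hS hE
  refine ⟨|B| / δ, by positivity, fun y hy V U heq => ?_⟩
  have h3 : ∀ l, ‖∑ c, A l c y * U c‖ ≤ (∑ c, ‖E l c y‖) * ‖V‖ := by
    intro l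
    have h5 : ∑ c, A l c y * U c = -∑ c, E l c y * V c := eq_neg_of_add_eq_zero_right (heq l)
    rw [h5, norm_neg, Finset.sum_mul]
    refine (norm_sum_le _ _).trans (Finset.sum_le_sum fun c _ => ?_)
    rw [norm_mul]
    exact mul_le_mul_of_nonneg_left (norm_le_pi_norm V c) (norm_nonneg _)
  have h4 : δ * ‖U‖ ≤ |B| * ‖V‖ := by
    refine (h1 y hy U).trans ((Finset.sum_le_sum fun l _ => h3 l).trans ?_)
    rw [← Finset.sum_mul]
    exact mul_le_mul_of_nonneg_right ((hB _ hy).trans (le_abs_self B)) (norm_nonneg _)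
  rw [div_mul_eq_mul_div, le_div_iff₀ hδ]
  linarith

/-- the bound for unit vectors -/
theorem unit_bound (hθ : Polar θ) (f : Frame θ) (b : Fin (N + 1)) : ∃ C : ℝ, 0 ≤ C ∧ ∀ x v V U : Fin (N + 1) → ℂ,
    InCh P b x v → ‖v‖ = 1 → (∀ l, ∑ s, eval (pt x v) (pderiv s (gfam f b l)) * pt V U s = 0) → ‖U‖ ≤ C * ‖V‖ := by
  obtain ⟨C, hC0, hC⟩ := abs_bound (ι := Ix f) (isCompact_UnitSet P b)
    (A := fun l c y => eval y (pderiv (Sum.inr c) (gfam f b l))) (E := fun l c y => eval y (pderiv (Sum.inl c) (gfam f b l)))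
    (fun l c => MvPolynomial.continuous_eval _) (fun l c => MvPolynomial.continuous_eval _) (fun y hy U hU => by
      have hpt : y = pt (fun c => y (Sum.inl c)) (fun c => y (Sum.inr c)) := by
        funext s
        rcases s with s | s <;> rfl
      obtain ⟨⟨i1, i2, i3, i4, i5⟩, i6⟩ := hy
      refine row_zero hθ f (a := b) (c := fun k => (θ k).toFun (fun c => y (Sum.inl c)) (fun c => y (Sum.inr c)))
        (x := fun c => y (Sum.inl c)) (v := fun c => y (Sum.inr c)) ⟨i1, i2, i4, i5, fun k => rfl⟩ ?_ U (fun l => ?_)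
      · intro h0
        rw [h0, norm_zero] at i6
        exact zero_ne_one i6
      · rw [← hpt]
        exact hU l)
  refine ⟨C, hC0, fun x v V U hin hv heq => ?_⟩
  have hy : pt x v ∈ UnitSet P b := ⟨hin, hv⟩
  refine hC (pt x v) hy V U fun l => ?_
  have h4 := heq l
  rw [Fintype.sum_sum_type] at h4
  exact h4

end Pool.Agent.GA.BL

namespace Pool.Agent.GA

open BL

variable {N : ℕ} {P : Ideal (MvPolynomial (Fin (N + 1)) ℂ)} {J : ℕ} {m : Fin J → ℕ} {θ : ∀ k, SymSec P (m k)}

/-- the linearised equation gives `‖U‖ ≤ C ‖v‖ ‖V‖` -/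
theorem le_bound (hθ : Polar θ) (hm : ∀ k, 1 ≤ m k) (f : Frame θ) (hf : HomFr f) : ∃ C : ℝ, ∀ (b : Fin (N + 1)) (x v V U : Fin (N + 1) → ℂ),
    InCh P b x v → v ≠ 0 → V ∈ conTan P x → V b = 0 → (∀ l, ∑ s, eval (pt x v) (pderiv s (gfam f b l)) * pt V U s = 0) →
    ‖U‖ ≤ C * ‖v‖ * ‖V‖ := by
  have _hm := hm
  choose C hC0 hC using fun b => unit_bound hθ f b
  refine ⟨∑ b, C b, fun b x v V U hin hv _ _ heq => ?_⟩
  have hv0 : 0 < ‖v‖ := norm_pos_iff.2 hv
  have hρ : ((‖v‖ : ℝ) : ℂ) ≠ 0 := by exact_mod_cast hv0.ne'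
  set ρ : ℂ := ((‖v‖ : ℝ) : ℂ) with hρd
  have hρn : ‖ρ‖ = ‖v‖ := by rw [hρd, Complex.norm_real, norm_norm]
  have e1 : ρ • (ρ⁻¹ • v) = v := by rw [smul_smul, mul_inv_cancel₀ hρ, one_smul]
  have e2 : ρ • (ρ⁻¹ • U) = U := by rw [smul_smul, mul_inv_cancel₀ hρ, one_smul]
  have h1 : ∀ l, ∑ s, eval (pt x (ρ⁻¹ • v)) (pderiv s (gfam f b l)) * pt V (ρ⁻¹ • U) s = 0 := by
    intro l
    have h2 := lin_scale hf b l x (ρ⁻¹ • v) V (ρ⁻¹ • U) ρ
    rw [e1, e2, heq l] at h2
    rcases mul_eq_zero.1 h2.symm with h3 | h3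
    · exact absurd h3 (pow_ne_zero _ hρ)
    · exact h3
  obtain ⟨a1, a2, a3, a4, a5⟩ := hin
  have h2 : InCh P b x (ρ⁻¹ • v) := ⟨a1, a2, a3, (conTan P x).smul_mem _ a4, by rw [Pi.smul_apply, a5, smul_zero]⟩
  have h3 : ‖ρ⁻¹ • v‖ = 1 := by rw [norm_smul, norm_inv, hρn, inv_mul_cancel₀ hv0.ne']
  have h4 := hC b x (ρ⁻¹ • v) V (ρ⁻¹ • U) h2 h3 h1
  rw [norm_smul, norm_inv, hρn, inv_mul_eq_div, div_le_iff₀ hv0] at h4
  have h5 : C b ≤ ∑ b, C b := Finset.single_le_sum (fun b _ => hC0 b) (Finset.mem_univ b)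
  calc ‖U‖ ≤ C b * ‖V‖ * ‖v‖ := h4
    _ = C b * (‖v‖ * ‖V‖) := by ring
    _ ≤ (∑ b, C b) * (‖v‖ * ‖V‖) := mul_le_mul_of_nonneg_right h5 (by positivity)
    _ = _ := by ring

end Pool.Agent.GA

end
end

section

/-!
# GA Bnd: the linearised equation gives `|V'| ≤ C |x'| |V|` in the chart of the largest coordinate

Definitions in `BndD`; `exists_homFr`, `wl_chart` and `alpha_of_le` in `BndB`; `le_bound` (helper20) in `BndL`.

The functions `gfam f b l` are homogeneous in `v` (weights `0`, `1`), of degree `e_l` (`0`, `1`, `0`, `1`, `m k`): the derivatives in `v` at `(x, v)` are homogeneous of degree `e_l - 1` in `v`, the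
derivatives in `x` of degree `e_l`.  So scale to `‖v‖ = 1`; the set of the `(x, v)` with `x ∈ cone P`, `x b = 1`, `‖x c‖ ≤ 1`, `v ∈ conTan P x`, `v b = 0`, `‖v‖ = 1` is compact, `GG.exists_row` gives at every
point a minor `vdet ≠ 0`, so (finitely many rows) `U` is bounded by `C ‖V‖` near every point.
-/

set_option autoImplicit false

open MvPolynomial Topology Filter Metric
open Pool.Agent.H13.SM (conTan cone)
open Pool.Agent.GG

namespace Pool.Agent.GA

variable {N : ℕ} {P : Ideal (MvPolynomial (Fin (N + 1)) ℂ)} {J : ℕ} {m : Fin J → ℕ} {θ : ∀ k, SymSec P (m k)}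

theorem alpha_bound (hθ : Polar θ) (hm : ∀ k, 1 ≤ m k) (f : Frame θ) (hf : HomFr f) : ∃ C : ℝ, ∀ (b : Fin (N + 1)) (x v V U : Fin (N + 1) → ℂ),
    InCh P b x v → v ≠ 0 → V ∈ conTan P x → V b = 0 → (∀ l, ∑ s, eval (pt x v) (pderiv s (gfam f b l)) * pt V U s = 0) →
    ∀ k, ‖∑ s, eval (pt x V) (pderiv s (f.A b k)) * pt v U s‖ ≤ C * ‖v‖ * ‖V‖ ^ m k :=
  alpha_of_le hm f hf (le_bound hθ hm f hf)

end Pool.Agent.GA

end

section

/-!
# GA AlphaD: the values `α_k` of the symmetric differentials on a variation satisfy `|A'| ≤ C sp |A|`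

`M = ∏ m k`, `A_k = α_k ^ (M / m k)`.  At `w` with `sp F w ≠ 0`, in the chart `b` of a largest coordinate: `x = xb F b`, `v = x'`, `V = Vb F Z b`, `alpha_bound`: `|α_k'| ≤ C |v| |V| ^ m k`;
`theta_bd` for `(x, V)`: `|α_k| ≤ C |V| ^ m k` and `|V| ^ M ≤ C ‖A‖`; `|v| ≤ wl x v = sp F w`.  The zeros of `sp F` are isolated (identity theorem), so the rest follows by continuity.
-/

set_option autoImplicit false

open MvPolynomial Topology Filter Metric
open Pool.Agent.H13.SM (conTan cone)
open Pool.Agent.H62.FC (Homog)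
open Pool.Agent.GG

namespace Pool.Agent.GA

variable {N : ℕ} {P : Ideal (MvPolynomial (Fin (N + 1)) ℂ)} {J : ℕ} {m : Fin J → ℕ} {θ : ∀ k, SymSec P (m k)} {F : ℂ → Fin (N + 1) → ℂ}
  {Z : ℂ → Fin (N + 1) × Fin (N + 1) → ℂ}

/-- the linearised equations of `x_b = 1` and `Q_j (x) = 0` -/
theorem alphaD_tan (f : Frame θ) {b : Fin (N + 1)} {x v V U : Fin (N + 1) → ℂ} (hx : x ∈ cone P)
    (h : ∀ l, ∑ s, eval (pt x v) (pderiv s (gfam f b l)) * pt V U s = 0) : V b = 0 ∧ V ∈ conTan P x := by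
  classical
  constructor
  · have h1 := h (Sum.inl (Sum.inl ()))
    simpa [gfam, pderiv_X, Pi.single_apply, Fintype.sum_sum_type, pt] using h1
  · have h1 : ∀ j, ∑ c, V c * eval x (pderiv c (f.Q j)) = 0 := by
      intro j
      have h2 := h (Sum.inr (Sum.inl (Sum.inl j)))
      rw [Fintype.sum_sum_type] at h2
      have h3 : ∀ c : Fin (N + 1), eval (pt x v) (pderiv (Sum.inl c) (gfam f b (Sum.inr (Sum.inl (Sum.inl j))))) = eval x (pderiv c (f.Q j)) := by
        intro c
        have h4 : gfam f b (Sum.inr (Sum.inl (Sum.inl j))) = rename Sum.inl (f.Q j) := rfl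
        rw [h4, pderiv_rename Sum.inl_injective, eval_rename]
        rfl
      have h5 : ∀ c : Fin (N + 1), eval (pt x v) (pderiv (Sum.inr c) (gfam f b (Sum.inr (Sum.inl (Sum.inl j))))) = 0 := by
        intro c
        have h4 : gfam f b (Sum.inr (Sum.inl (Sum.inl j))) = rename Sum.inl (f.Q j) := rfl
        rw [h4, pderiv_inr_rename, map_zero]
      simp only [h3, h5, zero_mul, Finset.sum_const_zero, add_zero] at h2
      rw [← h2]
      exact Finset.sum_congr rfl fun c _ => mul_comm _ _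
    intro Q hQ
    rw [← f.span] at hQ
    induction hQ using Submodule.span_induction with
    | mem Q hQ =>
      obtain ⟨j, rfl⟩ := hQ
      exact h1 j
    | zero => simp
    | add Q R _ _ hQ hR =>
      simp only [map_add, mul_add, Finset.sum_add_distrib, hQ, hR, add_zero]
    | smul g Q hQm hQ =>
      have hQ0 : eval x Q = 0 := by
        apply hx.2
        rw [← f.span]
        exact hQm
      simp only [smul_eq_mul, Derivation.leibniz, map_add, map_mul, hQ0, zero_mul, add_zero]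
      rw [show (∑ i, V i * (eval x g * eval x (pderiv i Q))) = eval x g * ∑ i, V i * eval x (pderiv i Q) by
        rw [Finset.mul_sum]; exact Finset.sum_congr rfl fun b _ => by ring]
      rw [hQ, mul_zero]

/-- the speed in a chart -/
theorem alphaD_speed {w : ℂ} (hF : AnalyticAt ℂ F w) {b : Fin (N + 1)} (hb : F w b ≠ 0) : wl (xb F b w) (deriv (xb F b) w) = sp F w := by
  have hFb : AnalyticAt ℂ (fun u => F u b) w := (analyticAt_pi_iff.mp hF) b
  obtain ⟨g, hg⟩ : ∃ g : ℂ → ℂ, g = fun u => (F u b)⁻¹ := ⟨_, rfl⟩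
  have hga : AnalyticAt ℂ g w := by
    rw [hg]
    exact hFb.inv hb
  have hg0 : g w ≠ 0 := by
    rw [hg]
    exact inv_ne_zero hb
  have h1 : xb F b = fun u => g u • F u := by
    rw [hg]
    rfl
  have h2 : deriv (fun u => g u • F u) w = g w • deriv F w + deriv g w • F w := deriv_fun_smul hga.differentiableAt hF.differentiableAt
  have h3 : g w • deriv F w + deriv g w • F w = g w • deriv F w + (deriv g w * (g w)⁻¹) • (g w • F w) := by
    rw [smul_smul, mul_assoc, inv_mul_cancel₀ hg0, mul_one]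
  rw [h1, h2, h3, wl_add_smul, wl_smul hg0]
  rfl

/-- The data at a point with `sp F w ≠ 0`. -/
theorem alphaD_pt (hP : Homog P) (f : Frame θ) {w : ℂ} (hF : AnalyticAt ℂ F w) (hc : ∀ᶠ u in 𝓝 w, F u ∈ cone P) (hZ : IsVar f F Z w) {α : ℂ → Fin J → ℂ}
    (hα : ∀ᶠ u in 𝓝 w, ∀ b, F u b ≠ 0 → ∀ k, (θ k).toFun (xb F b u) (Vb F Z b u) = α u k) (hs : sp F w ≠ 0) :
    ∃ (b : Fin (N + 1)) (x v V U : Fin (N + 1) → ℂ), InCh P b x v ∧ v ≠ 0 ∧ InCh P b x V ∧ (∀ l, ∑ s, eval (pt x v) (pderiv s (gfam f b l)) * pt V U s = 0) ∧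
      wl x v = sp F w ∧ ∀ k, (θ k).toFun x V = α w k ∧ HasDerivAt (fun u => α u k) (∑ s, eval (pt x V) (pderiv s (f.A b k)) * pt v U s) w := by
  classical
  obtain ⟨b, -, hb⟩ := Finset.exists_max_image (Finset.univ : Finset (Fin (N + 1))) (fun b => ‖F w b‖) Finset.univ_nonempty
  have hcw := hc.self_of_nhds
  have hb0 : F w b ≠ 0 := by
    intro h0
    apply hcw.1
    funext c
    have := hb c (Finset.mem_univ c)
    rw [h0, norm_zero] at this
    exact norm_le_zero_iff.mp this
  have hFb : AnalyticAt ℂ (fun u => F u b) w := (analyticAt_pi_iff.mp hF) b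
  have hxa : AnalyticAt ℂ (xb F b) w := (hFb.inv hb0).smul hF
  have hne : ∀ᶠ u in 𝓝 w, F u b ≠ 0 := hFb.continuousAt.eventually_ne hb0
  have hxc : ∀ᶠ u in 𝓝 w, xb F b u ∈ cone P := by
    filter_upwards [hc, hne] with u hu hub using Pool.Agent.AD.G.cone_smulC hP hu (inv_ne_zero hub)
  have hx1 : ∀ᶠ u in 𝓝 w, xb F b u b = 1 := by
    filter_upwards [hne] with u hu
    show (F u b)⁻¹ * F u b = 1
    exact inv_mul_cancel₀ hu
  have hVa : AnalyticAt ℂ (Vb F Z b) w := by
    rw [analyticAt_pi_iff]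
    intro j
    exact AnalyticAt.div ((analyticAt_pi_iff.mp hZ.1) (b, j)) (hFb.pow 2) (pow_ne_zero 2 hb0)
  have hlin : ∀ᶠ u in 𝓝 w, ∀ l, ∑ s, eval (pt (xb F b u) (deriv (xb F b) u)) (pderiv s (gfam f b l)) * pt (Vb F Z b u) (deriv (Vb F Z b) u) s = 0 := by
    filter_upwards [hZ.2, hne] with u hu hub using (hu b hub).2
  have hVt : ∀ᶠ u in 𝓝 w, Vb F Z b u b = 0 ∧ Vb F Z b u ∈ conTan P (xb F b u) := by
    filter_upwards [hlin, hxc] with u hu hux using alphaD_tan f hux hu
  have hle : ∀ c, ‖xb F b w c‖ ≤ 1 := by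
    intro c
    show ‖(F w b)⁻¹ * F w c‖ ≤ 1
    rw [norm_mul, norm_inv, inv_mul_le_one₀ (norm_pos_iff.mpr hb0)]
    exact hb c (Finset.mem_univ c)
  have hvt : deriv (xb F b) w ∈ conTan P (xb F b w) := Chart_tan hxa.differentiableAt hxc
  have hvb : deriv (xb F b) w b = 0 := by
    have h2 : HasDerivAt (fun u => xb F b u b) (deriv (xb F b) w b) w := (hasDerivAt_pi.mp hxa.differentiableAt.hasDerivAt) b
    have h3 : HasDerivAt (fun u => xb F b u b) 0 w := (hasDerivAt_const w (1 : ℂ)).congr_of_eventuallyEq hx1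
    exact h2.unique h3
  have hsp : wl (xb F b w) (deriv (xb F b) w) = sp F w := alphaD_speed hF hb0
  have hv0 : deriv (xb F b) w ≠ 0 := by
    intro h0
    apply hs
    rw [← hsp, h0]
    simp [wl]
  refine ⟨b, xb F b w, deriv (xb F b) w, Vb F Z b w, deriv (Vb F Z b) w, ⟨hxc.self_of_nhds, hx1.self_of_nhds, hle, hvt, hvb⟩, hv0,
    ⟨hxc.self_of_nhds, hx1.self_of_nhds, hle, hVt.self_of_nhds.2, hVt.self_of_nhds.1⟩, hlin.self_of_nhds, hsp, fun k => ⟨hα.self_of_nhds b hb0 k, ?_⟩⟩
  have hy : HasDerivAt (fun u => (pt (xb F b u) (Vb F Z b u) : Ph N → ℂ)) (pt (deriv (xb F b) w) (deriv (Vb F Z b) w)) w := by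
    rw [hasDerivAt_pi]
    rintro (c | c)
    · exact (hasDerivAt_pi.mp hxa.differentiableAt.hasDerivAt) c
    · exact (hasDerivAt_pi.mp hVa.differentiableAt.hasDerivAt) c
  have h1 := Chart_hasDerivAt (f.A b k) hy
  have h2 : (∑ i, pt (deriv (xb F b) w) (deriv (Vb F Z b) w) i * eval (pt (xb F b w) (Vb F Z b w)) (pderiv i (f.A b k))) =
      ∑ s, eval (pt (xb F b w) (Vb F Z b w)) (pderiv s (f.A b k)) * pt (deriv (xb F b) w) (deriv (Vb F Z b) w) s :=
    Finset.sum_congr rfl fun s _ => mul_comm _ _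
  rw [h2] at h1
  refine h1.congr_of_eventuallyEq ?_
  filter_upwards [hα, hne, hxc, hx1, hVt] with u hu hub hux hu1 huV
  rw [← hu b hub k]
  exact f.hA b k _ hux hu1 _ huV.2

/-- the estimate at a point -/
private theorem alphaD_est (hm : ∀ k, 1 ≤ m k) {c C C₁ : ℝ} (hc : 0 < c) (hc1 : c ≤ 1) (hC : 1 ≤ C) (hC₁ : 0 ≤ C₁) {b : Fin (N + 1)} {x v V : Fin (N + 1) → ℂ}
    (hV : InCh P b x V) (hbd : (∀ k, ‖(θ k).toFun x V‖ ≤ C * wl x V ^ m k) ∧ (V ∉ Submodule.span ℂ {x} → ∃ k, c * wl x V ^ m k ≤ ‖(θ k).toFun x V‖))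
    {α : ℂ → Fin J → ℂ} {α' : Fin J → ℂ} {w : ℂ} (hα : ∀ k, (θ k).toFun x V = α w k) (hα' : ∀ k, HasDerivAt (fun u => α u k) (α' k) w)
    (h1 : ∀ k, ‖α' k‖ ≤ C₁ * ‖v‖ * ‖V‖ ^ m k) :
    ‖deriv (fun w k => α w k ^ ((∏ i, m i) / m k)) w‖ ≤ (∏ i, m i : ℕ) * C ^ (∏ i, m i) * 2 ^ (∏ i, m i) * C₁ * (c ^ (∏ i, m i))⁻¹ * ‖v‖ *
      ‖fun k => α w k ^ ((∏ i, m i) / m k)‖ := by
  classical
  obtain ⟨M, hM⟩ : ∃ M, M = ∏ i, m i := ⟨_, rfl⟩
  rw [← hM]
  have hM1 : 1 ≤ M := by
    have h : 0 < ∏ i, m i := Finset.prod_pos fun i _ => hm i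
    rw [hM]
    exact h
  have hE : ∀ k, m k * (M / m k) = M := fun k => Nat.mul_div_cancel' (by rw [hM]; exact Finset.dvd_prod_of_mem m (Finset.mem_univ k))
  have hE1 : ∀ k, 1 ≤ M / m k := by
    intro k
    rcases Nat.eq_zero_or_pos (M / m k) with h | h
    · have := hE k
      rw [h, mul_zero] at this
      omega
    · exact h
  have hEM : ∀ k, M / m k ≤ M := fun k => Nat.div_le_self _ _
  have hwl := wl_chart hV
  -- the lower bound
  have hlow : c ^ M * ‖V‖ ^ M ≤ ‖fun k => α w k ^ (M / m k)‖ := by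
    by_cases hV0 : V = 0
    · rw [hV0, norm_zero, zero_pow (by omega), mul_zero]
      exact norm_nonneg _
    · have hVx : V ∉ Submodule.span ℂ {x} := by
        intro h
        obtain ⟨s, hs⟩ := Submodule.mem_span_singleton.mp h
        have h2 := congrFun hs b
        rw [Pi.smul_apply, hV.2.1, hV.2.2.2.2, smul_eq_mul, mul_one] at h2
        apply hV0
        rw [← hs, h2, zero_smul]
      obtain ⟨k, hk⟩ := hbd.2 hVx
      refine le_trans ?_ (norm_le_pi_norm (fun k => α w k ^ (M / m k)) k)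
      rw [norm_pow, ← hα k]
      calc c ^ M * ‖V‖ ^ M ≤ c ^ (M / m k) * wl x V ^ M :=
            mul_le_mul (pow_le_pow_of_le_one hc.le hc1 (hEM k)) (pow_le_pow_left₀ (norm_nonneg _) hwl.1 _) (by positivity) (by positivity)
        _ = (c * wl x V ^ m k) ^ (M / m k) := by rw [mul_pow, ← pow_mul, hE k]
        _ ≤ _ := pow_le_pow_left₀ (mul_nonneg hc.le (pow_nonneg (wl_nonneg _ _) _)) hk _
  -- the upper bound
  have hup : ∀ k, ‖deriv (fun u => α u k ^ (M / m k)) w‖ ≤ M * C ^ M * 2 ^ M * C₁ * ‖v‖ * ‖V‖ ^ M := by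
    intro k
    obtain ⟨e, he⟩ : ∃ e, M / m k = e + 1 := ⟨M / m k - 1, by have := hE1 k; omega⟩
    have h2 : deriv (fun u => α u k ^ (M / m k)) w = ((e + 1 : ℕ) : ℂ) * α w k ^ e * α' k := by
      rw [he]
      have := ((hα' k).fun_pow (e + 1)).deriv
      simpa using this
    have h3 : ‖α w k‖ ≤ C * (2 * ‖V‖) ^ m k := by
      rw [← hα k]
      exact (hbd.1 k).trans (mul_le_mul_of_nonneg_left (pow_le_pow_left₀ (wl_nonneg _ _) hwl.2 _) (by linarith))
    have h4 : ‖α w k‖ ^ e ≤ C ^ M * 2 ^ M * ‖V‖ ^ (m k * e) := by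
      have h5 : m k * e ≤ M := by
        have := hE k
        rw [he] at this
        rw [← this]
        exact Nat.mul_le_mul_left _ (Nat.le_succ e)
      have h6 : e ≤ M := by
        have := hEM k
        omega
      calc ‖α w k‖ ^ e ≤ (C * (2 * ‖V‖) ^ m k) ^ e := pow_le_pow_left₀ (norm_nonneg _) h3 _
        _ = C ^ e * (2 ^ (m k * e) * ‖V‖ ^ (m k * e)) := by rw [mul_pow, ← pow_mul, mul_pow]
        _ ≤ C ^ M * (2 ^ M * ‖V‖ ^ (m k * e)) :=
            mul_le_mul (pow_le_pow_right₀ hC h6) (mul_le_mul_of_nonneg_right (pow_le_pow_right₀ (by norm_num) h5) (by positivity)) (by positivity) (by positivity)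
        _ = _ := by ring
    rw [h2, norm_mul, norm_mul, norm_pow, Complex.norm_natCast]
    have h7 : ((e + 1 : ℕ) : ℝ) ≤ M := by
      rw [← he]
      exact_mod_cast hEM k
    calc ((e + 1 : ℕ) : ℝ) * ‖α w k‖ ^ e * ‖α' k‖ ≤ M * (C ^ M * 2 ^ M * ‖V‖ ^ (m k * e)) * (C₁ * ‖v‖ * ‖V‖ ^ m k) :=
          mul_le_mul (mul_le_mul h7 h4 (by positivity) (by positivity)) (h1 k) (norm_nonneg _) (by positivity)
      _ = M * C ^ M * 2 ^ M * C₁ * ‖v‖ * ‖V‖ ^ (m k * e + m k) := by
          rw [pow_add]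
          ring
      _ = _ := by
          have h8 : m k * e + m k = M := by
            have := hE k
            rw [he] at this
            rw [← this]
            ring
          rw [h8]
  have hd : deriv (fun w k => α w k ^ (M / m k)) w = fun k => deriv (fun u => α u k ^ (M / m k)) w := by
    rw [deriv_pi]
    intro k
    exact ((hα' k).fun_pow _).differentiableAt
  rw [hd]
  refine (pi_norm_le_iff_of_nonneg (by positivity)).2 fun k => (hup k).trans ?_
  have h9 : ‖V‖ ^ M ≤ (c ^ M)⁻¹ * ‖fun k => α w k ^ (M / m k)‖ := by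
    rw [inv_mul_eq_div, le_div_iff₀ (by positivity), mul_comm]
    exact hlow
  calc M * C ^ M * 2 ^ M * C₁ * ‖v‖ * ‖V‖ ^ M ≤ M * C ^ M * 2 ^ M * C₁ * ‖v‖ * ((c ^ M)⁻¹ * ‖fun k => α w k ^ (M / m k)‖) :=
        mul_le_mul_of_nonneg_left h9 (by positivity)
    _ = _ := by ring

/-- the zeros of the speed are isolated -/
theorem alphaD_freq {U : Set ℂ} (hF : IsCurve P F U) {w : ℂ} (hw : w ∈ U) : ∃ᶠ u in 𝓝 w, sp F u ≠ 0 := by
  intro h
  have h1 : ∀ i j : Fin (N + 1), ∀ u ∈ U, F u i * deriv F u j - F u j * deriv F u i = 0 := by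
    intro i j
    have han : AnalyticOnNhd ℂ (fun u => F u i * deriv F u j - F u j * deriv F u i) U := by
      intro u hu
      have h2 := analyticAt_pi_iff.mp (hF.an u hu)
      have h3 := analyticAt_pi_iff.mp (hF.an u hu).deriv
      exact ((h2 i).mul (h3 j)).sub ((h2 j).mul (h3 i))
    have h4 := han.eqOn_zero_of_preconnected_of_eventuallyEq_zero hF.conn hw ?_
    · exact fun u hu => h4 hu
    · filter_upwards [h, hF.isOpen.mem_nhds hw] with u hu huU
      have h5 : sp F u = 0 := not_not.1 hu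
      have h6 : ‖F u‖ ≠ 0 := norm_ne_zero_iff.2 (hF.mem u huU).1
      rw [sp, wl, div_eq_zero_iff] at h5
      rcases h5 with h5 | h5
      · exact congrFun (norm_eq_zero.1 h5) (i, j)
      · exact absurd h5 (pow_ne_zero 2 h6)
  obtain ⟨u, hu, hu'⟩ := hF.ne
  apply hu'
  have h2 := (hF.mem u hu).1
  obtain ⟨i, hi⟩ : ∃ i, F u i ≠ 0 := by
    by_contra h3
    push Not at h3
    exact h2 (funext h3)
  rw [Submodule.mem_span_singleton]
  refine ⟨deriv F u i / F u i, ?_⟩
  funext j
  rw [Pi.smul_apply, smul_eq_mul]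
  have h3 := h1 i j u hu
  field_simp
  linear_combination -h3

theorem alpha_deriv (hP : Homog P) (hθ : Polar θ) (hm : ∀ k, 1 ≤ m k) (f : Frame θ) (hf : HomFr f) : ∃ C : ℝ, ∀ (U : Set ℂ) (F : ℂ → Fin (N + 1) → ℂ)
    (Z : ℂ → Fin (N + 1) × Fin (N + 1) → ℂ) (α : ℂ → Fin J → ℂ), IsCurve P F U → (∀ w ∈ U, IsVar f F Z w) → (∀ w ∈ U, AnalyticAt ℂ α w) →
    (∀ w ∈ U, ∀ b, F w b ≠ 0 → ∀ k, (θ k).toFun (xb F b w) (Vb F Z b w) = α w k) →
    ∀ w ∈ U, ‖deriv (fun w k => α w k ^ ((∏ i, m i) / m k)) w‖ ≤ C * sp F w * ‖fun k => α w k ^ ((∏ i, m i) / m k)‖ := by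
  classical
  obtain ⟨c, hc, C, hC, hbd⟩ := theta_bd hP hθ hm
  obtain ⟨C₁, hC₁⟩ := alpha_bound hθ hm f hf
  obtain ⟨K, hK⟩ : ∃ K : ℝ, K = (∏ i, m i : ℕ) * (max C 1) ^ (∏ i, m i) * 2 ^ (∏ i, m i) * |C₁| * ((min c 1) ^ (∏ i, m i))⁻¹ := ⟨_, rfl⟩
  have hc' : 0 < min c 1 := lt_min hc one_pos
  have hC' : 1 ≤ max C 1 := le_max_right _ _
  have hK0 : 0 ≤ K := by
    rw [hK]
    positivity
  refine ⟨K, fun U F Z α hF hZ hα hθα w hw => ?_⟩
  -- the points with `sp F ≠ 0`
  have hmain : ∀ u ∈ U, sp F u ≠ 0 → ‖deriv (fun w k => α w k ^ ((∏ i, m i) / m k)) u‖ ≤ K * sp F u * ‖fun k => α u k ^ ((∏ i, m i) / m k)‖ := by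
    intro u hu hs
    have hUn := hF.isOpen.mem_nhds hu
    obtain ⟨b, x, v, V, Y, hv, hv0, hV, hlin, hsp, hk⟩ := alphaD_pt hP f (hF.an u hu) (by filter_upwards [hUn] with s hs using hF.mem s hs) (hZ u hu)
      (α := α) (by filter_upwards [hUn] with s hs using hθα s hs) hs
    have h1 := hC₁ b x v V Y hv hv0 hV.2.2.2.1 hV.2.2.2.2 hlin
    have h2 := hbd x hv.1 V hV.2.2.2.1
    have h3 : (∀ k, ‖(θ k).toFun x V‖ ≤ max C 1 * wl x V ^ m k) ∧ (V ∉ Submodule.span ℂ {x} → ∃ k, min c 1 * wl x V ^ m k ≤ ‖(θ k).toFun x V‖) := by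
      refine ⟨fun k => (h2.1 k).trans (mul_le_mul_of_nonneg_right (le_max_left _ _) (pow_nonneg (wl_nonneg _ _) _)), fun h => ?_⟩
      obtain ⟨k, hk⟩ := h2.2 h
      exact ⟨k, (mul_le_mul_of_nonneg_right (min_le_left _ _) (pow_nonneg (wl_nonneg _ _) _)).trans hk⟩
    have h4 := alphaD_est (v := v) hm hc' (min_le_right _ _) hC' (abs_nonneg C₁) hV h3 (fun k => (hk k).1) (fun k => (hk k).2) (fun k => (h1 k).trans (by
      have := le_abs_self C₁
      gcongr))
    rw [← hK] at h4
    refine h4.trans ?_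
    have h5 : ‖v‖ ≤ sp F u := by
      rw [← hsp]
      exact (wl_chart hv).1
    gcongr
  by_cases hs : sp F w ≠ 0
  · exact hmain w hw hs
  · have hfr := (alphaD_freq hF hw).and_eventually (hF.isOpen.mem_nhds hw)
    have hA : AnalyticAt ℂ (fun w k => α w k ^ ((∏ i, m i) / m k)) w := by
      rw [analyticAt_pi_iff]
      intro k
      exact ((analyticAt_pi_iff.mp (hα w hw)) k).pow _
    have hspc : ContinuousAt (sp F) w := by
      have h1 := (hF.an w hw).continuousAt
      have h2 := (hF.an w hw).deriv.continuousAt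
      have h3 : ‖F w‖ ≠ 0 := norm_ne_zero_iff.2 (hF.mem w hw).1
      have h1' := continuousAt_pi.1 h1
      have h2' := continuousAt_pi.1 h2
      show ContinuousAt (fun u => ‖fun p : Fin (N + 1) × Fin (N + 1) => F u p.1 * deriv F u p.2 - F u p.2 * deriv F u p.1‖ / ‖F u‖ ^ 2) w
      refine ContinuousAt.div (ContinuousAt.norm ?_) (h1.norm.pow 2) (pow_ne_zero 2 h3)
      rw [continuousAt_pi]
      intro p
      exact ((h1' p.1).mul (h2' p.2)).sub ((h1' p.2).mul (h2' p.1))
    have hcont : ContinuousAt (fun u => ‖deriv (fun w k => α w k ^ ((∏ i, m i) / m k)) u‖ - K * sp F u * ‖fun k => α u k ^ ((∏ i, m i) / m k)‖) w :=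
      hA.deriv.continuousAt.norm.sub ((hspc.const_mul K).mul hA.continuousAt.norm)
    have h1 := le_of_tendsto_of_frequently (b := (0 : ℝ)) hcont.tendsto (hfr.mono fun u hu => sub_nonpos.2 (hmain u hu.2 hu.1))
    exact sub_nonpos.1 h1

end Pool.Agent.GA

end

section

/-!
# GA Alpha: the values of the symmetric differentials on a variation field
-/

set_option autoImplicit false

open MvPolynomial Topology Filter Metric
open Pool.Agent.H13.SM (conTan cone)
open Pool.Agent.H62.FC (Homog)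
open Pool.Agent.GG

namespace Pool.Agent.GA

variable {N : ℕ} {P : Ideal (MvPolynomial (Fin (N + 1)) ℂ)} {J : ℕ} {m : Fin J → ℕ} {θ : ∀ k, SymSec P (m k)} {F : ℂ → Fin (N + 1) → ℂ}
  {U : Set ℂ} {Z : ℂ → Fin (N + 1) × Fin (N + 1) → ℂ}

private theorem alpha_cone (hP : Homog P) (hF : IsCurve P F U) {w : ℂ} (hw : w ∈ U) {b : Fin (N + 1)} (hb : F w b ≠ 0) : xb F b w ∈ cone P :=
  ⟨smul_ne_zero (inv_ne_zero hb) (hF.mem w hw).1, Pool.Agent.H13.SM.cone_smul hP (hF.mem w hw).2 _⟩

/-- MODULE Alpha -/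
theorem exists_alpha (hP : Homog P) (f : Frame θ) (hF : IsCurve P F U) (hZ : ∀ w ∈ U, IsVar f F Z w) :
    ∃ α : ℂ → Fin J → ℂ, (∀ w ∈ U, AnalyticAt ℂ α w) ∧ ∀ w ∈ U, ∀ b, F w b ≠ 0 → Vb F Z b w ∈ conTan P (xb F b w) ∧ Vb F Z b w b = 0 ∧
      ∀ k, (θ k).toFun (xb F b w) (Vb F Z b w) = α w k := by
  classical
  have h0 : ∀ w ∈ U, ∀ b, F w b ≠ 0 → Vb F Z b w b = 0 ∧ Vb F Z b w ∈ conTan P (xb F b w) := by
    intro w hw b hb
    exact alphaD_tan f (alpha_cone hP hF hw hb) ((hZ w hw).2.self_of_nhds b hb).2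
  have hself : ∀ w ∈ U, ∀ b, F w b ≠ 0 → xb F b w ∈ conTan P (xb F b w) := fun w hw b hb Q hQ =>
    Pool.Agent.H13.SM.euler hP (alpha_cone hP hF hw hb).2 hQ
  -- independence of the chart
  have hch : ∀ w ∈ U, ∀ b c, F w b ≠ 0 → F w c ≠ 0 → ∀ k, (θ k).toFun (xb F c w) (Vb F Z c w) = (θ k).toFun (xb F b w) (Vb F Z b w) := by
    intro w hw b c hb hc k
    have hx : xb F c w = (F w b / F w c) • xb F b w := by
      unfold xb
      rw [smul_smul]
      congr 1
      field_simp
    have hV : Vb F Z c w = (F w b / F w c) • (Vb F Z b w + (-(F w b / F w c * Vb F Z b w c)) • xb F b w) := by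
      have h1 := ((hZ w hw).2.self_of_nhds b hb).1
      funext j
      have h2 : Vb F Z c w j = Z w (c, j) / F w c ^ 2 := rfl
      rw [h2, h1 c j]
      simp only [xb, Pi.smul_apply, Pi.add_apply, smul_eq_mul]
      field_simp
      ring
    have ht : F w b / F w c ≠ 0 := div_ne_zero hb hc
    have hm1 := (h0 w hw b hb).2
    have hm2 := hself w hw b hb
    rw [hx, hV, (θ k).scale _ (alpha_cone hP hF hw hb) _ (Submodule.add_mem _ hm1 (Submodule.smul_mem _ _ hm2)) _ ht,
      (θ k).add_smul _ (alpha_cone hP hF hw hb) _ hm1]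
  have hne : ∀ w ∈ U, ∃ b, F w b ≠ 0 := by
    intro w hw
    by_contra hcon
    push Not at hcon
    exact (hF.mem w hw).1 (funext hcon)
  set bi : ℂ → Fin (N + 1) := fun w => if h : ∃ b, F w b ≠ 0 then h.choose else 0 with hbi
  have hbi' : ∀ w ∈ U, F w (bi w) ≠ 0 := by
    intro w hw
    have h := hne w hw
    have h1 : bi w = h.choose := dif_pos h
    rw [h1]
    exact h.choose_spec
  refine ⟨fun w k => (θ k).toFun (xb F (bi w) w) (Vb F Z (bi w) w), fun w hw => ?_, fun w hw b hb => ⟨(h0 w hw b hb).2, (h0 w hw b hb).1, fun k => ?_⟩⟩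
  · rw [analyticAt_pi_iff]
    intro k
    obtain ⟨b, hb⟩ := hne w hw
    have hFa := hF.an w hw
    have hFb : AnalyticAt ℂ (fun u => F u b) w := (analyticAt_pi_iff.mp hFa) b
    have hxa : AnalyticAt ℂ (xb F b) w := (hFb.inv hb).smul hFa
    have hVa : AnalyticAt ℂ (Vb F Z b) w := by
      rw [analyticAt_pi_iff]
      intro j
      exact AnalyticAt.div ((analyticAt_pi_iff.mp (hZ w hw).1) (b, j)) (hFb.pow 2) (pow_ne_zero 2 hb)
    have hpt : AnalyticAt ℂ (fun u => (pt (xb F b u) (Vb F Z b u) : Ph N → ℂ)) w := by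
      rw [analyticAt_pi_iff]
      rintro (c | c)
      · exact (analyticAt_pi_iff.mp hxa) c
      · exact (analyticAt_pi_iff.mp hVa) c
    have hA : AnalyticAt ℂ (fun u => eval (pt (xb F b u) (Vb F Z b u)) (f.A b k)) w :=
      AnalyticAt.comp (g := fun y : Ph N → ℂ => eval y (f.A b k)) (f := fun u => (pt (xb F b u) (Vb F Z b u) : Ph N → ℂ))
        (AnalyticOnNhd.eval_mvPolynomial (f.A b k) _ (Set.mem_univ _)) hpt
    refine hA.congr ?_
    filter_upwards [hF.isOpen.mem_nhds hw, hFb.continuousAt.eventually_ne hb] with u hu hub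
    have h1 := hch u hu b (bi u) hub (hbi' u hu) k
    have hx1 : xb F b u b = 1 := inv_mul_cancel₀ hub
    rw [h1, f.hA b k _ (alpha_cone hP hF hu hub) hx1 _ (h0 u hu b hub).2]
  · exact hch w hw (bi w) b (hbi' w hw) hb k

end Pool.Agent.GA

end

section

/-!
# GQ Fda: the field generated by the solution is algebraic over the function field

Let `D` be the universal derivation of `L` over `FunField P`.  It is `0` on the coordinates `x_i` and on the algebraic elements `θ_k (x, v)`, so on all functions `G_l (x, v)` of the family.  For the rows `I` with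
`vdet ≠ 0` the equations `∑_c ∂G_l/∂v_c D (v_c) = 0` give `D (v_c) = 0`.  So `D = 0` on `L = ℂ(x, v)`, the differentials vanish, and `L` is algebraic (`Algebra.FormallyUnramified.isSeparable`).
-/

set_option autoImplicit false

open MvPolynomial
open Pool.Agent.H17LG.Variety (FunField ratio)
open Pool.Agent.GG

noncomputable section

namespace Pool.Agent.GQ

/-- the chain rule for a derivation with values in a module -/
private theorem fda_chain {L M τ : Type} [Fintype τ] [Field L] [Algebra ℂ L] [AddCommGroup M] [Module L M] [Module ℂ M] [IsScalarTower ℂ L M]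
    (D : Derivation ℂ L M) (y : τ → L) (G : MvPolynomial τ ℂ) : D (aeval y G) = ∑ s, aeval y (pderiv s G) • D (y s) := by
  classical
  induction G using MvPolynomial.induction_on with
  | C c => simp
  | add p q hp hq =>
    rw [map_add, map_add, hp, hq, ← Finset.sum_add_distrib]
    refine Finset.sum_congr rfl fun l _ => ?_
    rw [map_add, map_add, add_smul]
  | mul_X p i hp =>
    rw [map_mul, aeval_X, Derivation.leibniz, hp]
    have h1 : ∀ l, aeval y (pderiv l (p * X i)) • D (y l) =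
        y i • (aeval y (pderiv l p) • D (y l)) + aeval y p • (aeval y (pderiv l (X i : MvPolynomial τ ℂ)) • D (y l)) := by
      intro l
      rw [Derivation.leibniz, map_add, smul_eq_mul, smul_eq_mul, map_mul, map_mul, aeval_X, add_smul, mul_smul, mul_smul, add_comm]
    simp only [h1, Finset.sum_add_distrib, ← Finset.smul_sum]
    rw [Finset.sum_eq_single (s := Finset.univ) (f := fun l => aeval y (pderiv l (X i : MvPolynomial τ ℂ)) • D (y l)) i]
    · rw [pderiv_X_self, map_one, one_smul]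
      exact add_comm _ _
    · intro j _ hj
      rw [pderiv_X_of_ne (Ne.symm hj), map_zero, zero_smul]
    · intro h
      exact absurd (Finset.mem_univ i) h

/-- a derivation over `K` is `0` on the elements which are algebraic over `K` -/
private theorem fda_alg {K L M : Type} [Field K] [Field L] [CharZero K] [Algebra K L] [AddCommGroup M] [Module L M] [Module K M] [IsScalarTower K L M]
    (D : Derivation K L M) {x : L} (hx : IsAlgebraic K x) : D x = 0 := by
  have hi := hx.isIntegral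
  have h1 : (minpoly K x).Separable := (minpoly.irreducible hi).separable
  have h2 := D.map_aeval (minpoly K x) x
  rw [minpoly.aeval, map_zero] at h2
  have h3 : Polynomial.aeval x (Polynomial.derivative (minpoly K x)) ≠ 0 := h1.aeval_derivative_ne_zero (minpoly.aeval K x)
  exact (smul_eq_zero.1 h2.symm).resolve_left h3

/-- a field generated by elements on which the differential over `K` is `0` is algebraic over `K` -/
private theorem fda_field {K L τ : Type} [Finite τ] [Field K] [Field L] [Algebra ℂ K] [Algebra ℂ L] [Algebra K L] [IsScalarTower ℂ K L] (y : τ → L)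
    (hgen : IntermediateField.adjoin ℂ (Set.range y) = ⊤) (hD : ∀ s, KaehlerDifferential.D K L (y s) = 0) : Algebra.IsAlgebraic K L := by
  have hc : CharZero K := charZero_of_injective_algebraMap (algebraMap ℂ K).injective
  -- finitely generated
  have hfg : (⊤ : IntermediateField ℂ L).FG := by
    rw [← hgen]
    exact ⟨(Set.finite_range y).toFinset, by rw [Set.Finite.coe_toFinset]⟩
  have h1 : Algebra.EssFiniteType ℂ L := IntermediateField.fg_top_iff.1 hfg
  have h2 : Algebra.EssFiniteType K L := Algebra.EssFiniteType.of_comp ℂ K L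
  -- the differential is `0`
  have h3 : ∀ x : L, KaehlerDifferential.D K L x = 0 := by
    intro x
    have hx : x ∈ IntermediateField.adjoin ℂ (Set.range y) := by
      rw [hgen]
      trivial
    induction hx using IntermediateField.adjoin_induction with
    | mem x hx =>
      obtain ⟨s, rfl⟩ := hx
      exact hD s
    | algebraMap c =>
      rw [IsScalarTower.algebraMap_apply ℂ K L]
      exact Derivation.map_algebraMap _ _
    | add a b _ _ ha hb => rw [map_add, ha, hb, add_zero]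
    | inv a _ ha => rw [Derivation.leibniz_inv, ha, smul_zero]
    | mul a b _ _ ha hb => rw [Derivation.leibniz, ha, hb, smul_zero, smul_zero, add_zero]
  have h4 : Subsingleton Ω[L⁄K] := by
    have h5 := KaehlerDifferential.span_range_derivation K L
    have h6 : Set.range (KaehlerDifferential.D K L) ⊆ {0} := by
      rintro _ ⟨x, rfl⟩
      exact h3 x
    have h7 : (⊤ : Submodule L Ω[L⁄K]) ≤ ⊥ := by
      rw [← h5, Submodule.span_le]
      exact h6
    exact (Submodule.subsingleton_iff L).1 (subsingleton_iff_bot_eq_top.1 (le_antisymm bot_le h7) |> fun h => h)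
  have h5 : Algebra.FormallyUnramified K L := ⟨h4⟩
  have h6 : Algebra.IsSeparable K L := Algebra.FormallyUnramified.isSeparable K L
  infer_instance

variable {N : ℕ} {P : Ideal (MvPolynomial (Fin (N + 1)) ℂ)} {J : ℕ} {m : Fin J → ℕ} {θ : ∀ k, SymSec P (m k)}
variable [P.IsPrime] {L : Type} [Field L] [Algebra ℂ L] [Algebra (FunField P) L]

theorem alg_of (f : Frame θ) {a : Fin (N + 1)} (ha : X a ∉ P) [IsScalarTower ℂ (FunField P) L]
    (I : Fin (N + 1) → (Unit ⊕ Unit) ⊕ (Fin f.q ⊕ Fin f.q) ⊕ Fin J) (u : Derivation ℂ L L) (y : Ph N → L)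
    (hgen : IntermediateField.adjoin ℂ (Set.range y) = ⊤) (hy : ∀ i, y (Sum.inl i) = algebraMap (FunField P) L (ratio P i a))
    (hδ : aeval y (vdet (gfam f a) I) ≠ 0) (hu : ∀ g, aeval y (vdet (gfam f a) I) * u (aeval y g) = aeval y (Dt (gfam f a) I g))
    (hva : y (Sum.inr a) = 0) (hdQ : ∀ j, aeval y (gfam f a (Sum.inr (Sum.inl (Sum.inr j)))) = 0)
    (halg : ∀ k, IsAlgebraic (FunField P) (aeval y (f.A a k))) :
    y = ph P u a ∧ Algebra.IsAlgebraic (FunField P) L := by
  classical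
  constructor
  · funext s
    rcases s with i | i
    · exact hy i
    · have h1 := hu (X (Sum.inl i))
      have h2 : Dt (gfam f a) I (X (Sum.inl i)) = vdet (gfam f a) I * X (Sum.inr i) := mkDerivation_X ℂ _ _
      rw [h2, map_mul, aeval_X, aeval_X] at h1
      have h3 := mul_left_cancel₀ hδ h1
      show y (Sum.inr i) = u (algebraMap (FunField P) L (ratio P i a))
      rw [← h3, hy]
  · have hc : CharZero (FunField P) := charZero_of_injective_algebraMap (algebraMap ℂ (FunField P)).injective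
    refine fda_field y hgen ?_
    -- the differential over the function field
    set D₁ := KaehlerDifferential.D (FunField P) L with hD₁
    let D : Derivation ℂ L Ω[L⁄FunField P] := D₁.restrictScalars ℂ
    have hx : ∀ i, D₁ (y (Sum.inl i)) = 0 := fun i => by
      rw [hy]
      exact Derivation.map_algebraMap _ _
    -- the family
    have hG : ∀ l, D₁ (aeval y (gfam f a l)) = 0 := by
      rintro ((_ | _) | ((j | j) | k))
      · show D₁ (aeval y (X (Sum.inl a))) = 0
        rw [aeval_X, hx]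
      · show D₁ (aeval y (X (Sum.inr a))) = 0
        rw [aeval_X, hva, map_zero]
      · show D₁ (aeval y (rename Sum.inl (f.Q j))) = 0
        rw [aeval_rename]
        have h1 : (y ∘ Sum.inl) = fun i => algebraMap (FunField P) L (ratio P i a) := funext fun i => hy i
        have h2 : aeval (fun i => algebraMap (FunField P) L (ratio P i a)) (f.Q j) = algebraMap (FunField P) L (aeval (fun i => ratio P i a) (f.Q j)) :=
          MvPolynomial.aeval_algebraMap_apply L (fun i => ratio P i a) (f.Q j)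
        rw [h1, h2]
        exact Derivation.map_algebraMap _ _
      · rw [hdQ j, map_zero]
      · exact fda_alg D₁ (halg k)
    -- Cramer's rule
    set A : Matrix (Fin (N + 1)) (Fin (N + 1)) L := (vmat (gfam f a) I).map (aeval y) with hA
    have hAdet : A.det = aeval y (vdet (gfam f a) I) := by
      rw [hA, vdet]
      exact ((aeval y : MvPolynomial (Ph N) ℂ →ₐ[ℂ] L).toRingHom.map_det _).symm
    have hrow : ∀ l, ∑ c, A l c • D₁ (y (Sum.inr c)) = 0 := by
      intro l
      have h1 := fda_chain D y (gfam f a (I l))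
      have h2 : D (aeval y (gfam f a (I l))) = 0 := hG (I l)
      rw [h2, Fintype.sum_sum_type] at h1
      have h3 : ∑ i : Fin (N + 1), aeval y (pderiv (Sum.inl i) (gfam f a (I l))) • D (y (Sum.inl i)) = 0 :=
        Finset.sum_eq_zero fun i _ => by
          have h4 : D (y (Sum.inl i)) = 0 := hx i
          rw [h4, smul_zero]
      rw [h3, zero_add] at h1
      exact h1.symm
    rintro (i | i)
    · exact hx i
    · have h1 : A.det • D₁ (y (Sum.inr i)) = 0 := by
        have h2 : ∀ c, ∑ l, A.adjugate i l * A l c = if i = c then A.det else 0 := by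
          intro c
          have h3 := congrFun (congrFun (Matrix.adjugate_mul A) i) c
          rw [Matrix.mul_apply, Matrix.smul_apply, Matrix.one_apply] at h3
          rw [h3]
          split_ifs <;> simp
        calc A.det • D₁ (y (Sum.inr i)) = ∑ c, (if i = c then A.det else 0) • D₁ (y (Sum.inr c)) := by
              rw [Finset.sum_eq_single i]
              · rw [if_pos rfl]
              · intro c _ hc
                rw [if_neg (Ne.symm hc), zero_smul]
              · intro h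
                exact absurd (Finset.mem_univ i) h
          _ = ∑ c, ∑ l, (A.adjugate i l * A l c) • D₁ (y (Sum.inr c)) := Finset.sum_congr rfl fun c _ => by rw [← h2, Finset.sum_smul]
          _ = ∑ l, A.adjugate i l • ∑ c, A l c • D₁ (y (Sum.inr c)) := by
              rw [Finset.sum_comm]
              refine Finset.sum_congr rfl fun l _ => ?_
              rw [Finset.smul_sum]
              exact Finset.sum_congr rfl fun c _ => mul_smul _ _ _
          _ = 0 := Finset.sum_eq_zero fun l _ => by rw [hrow, smul_zero]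
      rw [hAdet] at h1
      exact (smul_eq_zero.1 h1).resolve_left hδ

end Pool.Agent.GQ

end
end

section

/-!
# GQ Fld: the field of a stable prime ideal of the phase space

PROOF.  `L` is the field of fractions of `A = ℂ[x, v] / 𝔮`; `D` induces a derivation of `A`, which extends to `L` (`GA.exists_ext`), and `u` is the extension
divided by `δ`.  The functions `ratio P i a` generate `FunField P` and satisfy the same polynomial equations as the `y (inl i)`, so `FunField P` is the field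
of fractions of `ℂ[x]` modulo these equations and is embedded into `L`.
-/

set_option autoImplicit false

open MvPolynomial
open Pool.Agent.H17LG.Variety (FunField ratio)
open Pool.Agent.GG

noncomputable section

namespace Pool.Agent.GQ

/-- a homomorphism of fields from equal polynomial relations -/
private theorem exists_hom_of_rel {σ K L : Type} [Field K] [Field L] [Algebra ℂ K] [Algebra ℂ L] (x : σ → K)
    (hx : IntermediateField.adjoin ℂ (Set.range x) = ⊤) (y : σ → L) (h : ∀ g : MvPolynomial σ ℂ, aeval x g = 0 ↔ aeval y g = 0) :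
    ∃ φ : K →ₐ[ℂ] L, ∀ i, φ (x i) = y i := by
  let A := MvPolynomial σ ℂ ⧸ rel x
  let f : A →ₐ[ℂ] K := Ideal.Quotient.liftₐ (rel x) (aeval x) fun g hg => hg
  let f' : A →ₐ[ℂ] L := Ideal.Quotient.liftₐ (rel x) (aeval y) fun g hg => (h g).1 hg
  have hi : Function.Injective f := by
    rw [injective_iff_map_eq_zero]
    intro g hg
    obtain ⟨g, rfl⟩ := Ideal.Quotient.mk_surjective g
    exact Ideal.Quotient.eq_zero_iff_mem.2 hg
  have hi' : Function.Injective f' := by
    rw [injective_iff_map_eq_zero]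
    intro g hg
    obtain ⟨g, rfl⟩ := Ideal.Quotient.mk_surjective g
    exact Ideal.Quotient.eq_zero_iff_mem.2 ((h g).2 hg)
  let _ : Algebra A K := f.toRingHom.toAlgebra
  have : IsScalarTower ℂ A K := IsScalarTower.of_algebraMap_eq fun c => (f.commutes c).symm
  have : FaithfulSMul A K := (faithfulSMul_iff_algebraMap_injective A K).2 hi
  have : IsFractionRing A K := IsFractionRing.of_field A K fun z => by
    have hz : z ∈ IntermediateField.adjoin ℂ (Set.range x) := by
      rw [hx]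
      trivial
    obtain ⟨r, s, e⟩ := (IntermediateField.mem_adjoin_range_iff ℂ x z).1 hz
    exact ⟨Ideal.Quotient.mk _ r, Ideal.Quotient.mk _ s, e⟩
  refine ⟨IsFractionRing.liftAlgHom (K := K) (g := f') hi', fun i => ?_⟩
  have e : x i = algebraMap A K (Ideal.Quotient.mk _ (X i)) := (aeval_X x i).symm
  rw [e, IsFractionRing.liftAlgHom_apply]
  refine (IsFractionRing.lift_algebraMap hi' _).trans ?_
  exact aeval_X y i

variable {N : ℕ} {P : Ideal (MvPolynomial (Fin (N + 1)) ℂ)}

/-- `L = Frac (ℂ[x, v] / 𝔮)`, `u = D / δ`, extended to the field of fractions; the embedding of `FunField P`: it is generated by the `ratio P i a`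
(`Kd.adjoin_ya`), which satisfy the same polynomial equations as the `y (inl i)`. -/
theorem exists_field [P.IsPrime] {n : ℕ} (hdim : ∃ z : Fin (n + 1) → FunField P, IsTranscendenceBasis ℂ z) {a : Fin (N + 1)} (ha : X a ∉ P)
    (𝔮 : Ideal (MvPolynomial (Ph N) ℂ)) [𝔮.IsPrime] (D : Derivation ℂ (MvPolynomial (Ph N) ℂ) (MvPolynomial (Ph N) ℂ)) (hD : ∀ g ∈ 𝔮, D g ∈ 𝔮)
    {δ : MvPolynomial (Ph N) ℂ} (hδ : δ ∉ 𝔮) (h𝔓 : ∀ q, rename Sum.inl q ∈ 𝔮 ↔ aeval (fun i => ratio P i a) q = 0) :
    ∃ (L : Type) (_ : Field L) (_ : Algebra ℂ L) (_ : Algebra (FunField P) L) (_ : IsScalarTower ℂ (FunField P) L) (u : Derivation ℂ L L) (y : Ph N → L),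
      (∀ g, aeval y g = 0 ↔ g ∈ 𝔮) ∧ IntermediateField.adjoin ℂ (Set.range y) = ⊤ ∧
      (∀ i, y (Sum.inl i) = algebraMap (FunField P) L (ratio P i a)) ∧ ∀ g, aeval y δ * u (aeval y g) = aeval y (D g) := by
  let A := MvPolynomial (Ph N) ℂ ⧸ 𝔮
  let L := FractionRing A
  let y : Ph N → L := fun s => algebraMap A L (Ideal.Quotient.mk 𝔮 (X s))
  have hy : ∀ g, aeval y g = algebraMap A L (Ideal.Quotient.mk 𝔮 g) := by
    intro g
    have e : (aeval y : MvPolynomial (Ph N) ℂ →ₐ[ℂ] L) = (IsScalarTower.toAlgHom ℂ A L).comp (Ideal.Quotient.mkₐ ℂ 𝔮) := by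
      apply MvPolynomial.algHom_ext
      intro s
      rw [aeval_X]
      rfl
    rw [e]
    rfl
  have h0 : ∀ g, aeval y g = 0 ↔ g ∈ 𝔮 := by
    intro g
    rw [hy, FaithfulSMul.algebraMap_eq_zero_iff, Ideal.Quotient.eq_zero_iff_mem]
  have h1 : IntermediateField.adjoin ℂ (Set.range y) = ⊤ := by
    rw [eq_top_iff]
    intro z _
    rw [IntermediateField.mem_adjoin_range_iff]
    obtain ⟨r, s, -, e⟩ := IsFractionRing.div_surjective (A := A) z
    obtain ⟨r, rfl⟩ := Ideal.Quotient.mk_surjective r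
    obtain ⟨s, rfl⟩ := Ideal.Quotient.mk_surjective s
    exact ⟨r, s, by rw [hy, hy, e]⟩
  obtain ⟨φ, hφ⟩ := exists_hom_of_rel (fun i => ratio P i a) (Kd.adjoin_ya hdim ha) (fun i => y (Sum.inl i)) fun g => by
    rw [← h𝔓, ← h0, aeval_rename]
    rfl
  let _ : Algebra (FunField P) L := φ.toRingHom.toAlgebra
  have : IsScalarTower ℂ (FunField P) L := IsScalarTower.of_algebraMap_eq fun c => (φ.commutes c).symm
  have hs : Function.Surjective (Ideal.Quotient.mkₐ ℂ 𝔮) := Ideal.Quotient.mk_surjective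
  let D₀ : Derivation ℂ A A := Derivation.liftOfSurjective (d := D) hs fun g hg =>
    Ideal.Quotient.eq_zero_iff_mem.2 (hD g (Ideal.Quotient.eq_zero_iff_mem.1 hg))
  have hD₀ : ∀ g, D₀ (Ideal.Quotient.mk 𝔮 g) = Ideal.Quotient.mk 𝔮 (D g) := fun g =>
    Derivation.liftOfSurjective_apply (d := D) hs (fun g hg => Ideal.Quotient.eq_zero_iff_mem.2 (hD g (Ideal.Quotient.eq_zero_iff_mem.1 hg))) g
  let D₁ : Derivation ℂ A L := (Algebra.linearMap A L).compDer D₀
  obtain ⟨D₂, hD₂⟩ := Pool.Agent.GA.exists_ext (A := A) (E := L) (FaithfulSMul.algebraMap_injective A L) D₁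
  refine ⟨L, inferInstance, inferInstance, inferInstance, inferInstance, (aeval y δ)⁻¹ • D₂, y, h0, h1, fun i => (hφ i).symm, fun g => ?_⟩
  have hne : aeval y δ ≠ 0 := fun h => hδ ((h0 δ).1 h)
  rw [Derivation.smul_apply, smul_eq_mul, mul_inv_cancel_left₀ hne, hy g, hD₂, hy (D g), ← hD₀]
  rfl

end Pool.Agent.GQ

end
end

section

/-!
# GQ Jac: the singular points are invariant under a derivation which preserves the ideal

`sgl 𝔮 k` is the radical of the ideal `jid` generated by `𝔮` and the minors `det (∂_(j β) g_i)` of size `c = card τ - k`, `g_i ∈ 𝔮` (`k < card τ`), and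
`D jid ⊆ jid` (`jac_comm`, `jac_det`, `jac_swap`); the radical of a stable ideal is stable (`jac_radical`: if `a^n ∈ I` then `(D a)^(2n-1) ∈ I`).
-/

set_option autoImplicit false

open MvPolynomial

noncomputable section

namespace Pool.Agent.GQ

/-- the radical of a stable ideal is stable -/
theorem jac_radical {R : Type} [CommRing R] [Algebra ℂ R] (D : Derivation ℂ R R) (I : Ideal R) (hD : ∀ x ∈ I, D x ∈ I) :
    ∀ x ∈ I.radical, D x ∈ I.radical := by
  rintro a ⟨n, hn⟩
  have hdiv : ∀ (m : ℕ) (x : R), ((m + 1 : ℕ) : R) * x ∈ I → x ∈ I := by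
    intro m x hx
    have h1 := I.mul_mem_left (algebraMap ℂ R (((m + 1 : ℕ) : ℂ)⁻¹)) hx
    have e : algebraMap ℂ R (((m + 1 : ℕ) : ℂ)⁻¹) * (((m + 1 : ℕ) : R) * x) = x := by
      rw [← mul_assoc, ← map_natCast (algebraMap ℂ R), ← map_mul, inv_mul_cancel₀ (by exact_mod_cast Nat.succ_ne_zero m), map_one, one_mul]
    rwa [e] at h1
  rcases n with _ | n
  · exact ⟨0, by simpa using hn⟩
  have key : ∀ k m : ℕ, m + k = n → a ^ m * D a ^ (2 * k + 1) ∈ I := by
    intro k
    induction k with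
    | zero =>
      intro m hm
      rw [add_zero] at hm
      subst hm
      refine hdiv m _ ?_
      have h1 := hD _ hn
      rw [Derivation.leibniz_pow] at h1
      convert h1 using 1
      rw [nsmul_eq_mul, smul_eq_mul, Nat.add_sub_cancel, mul_zero, zero_add, pow_one]
    | succ k ih =>
      intro m hm
      have h1 := ih (m + 1) (by omega)
      have h2 := I.mul_mem_left (D a) (hD _ h1)
      have h3 := I.mul_mem_left (((2 * k + 1 : ℕ) : R) * D (D a)) h1
      refine hdiv m _ ?_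
      have h4 := sub_mem h2 h3
      convert h4 using 1
      rw [Derivation.leibniz, Derivation.leibniz_pow, Derivation.leibniz_pow]
      simp only [nsmul_eq_mul, smul_eq_mul, Nat.add_sub_cancel]
      push_cast
      ring
  exact ⟨2 * n + 1, by simpa using key n 0 (zero_add n)⟩

section Det

variable {S : Type} [CommRing S] {I : Type}

private theorem jac_prod [Algebra ℂ S] [DecidableEq I] (θ : Derivation ℂ S S) (s : Finset I) (f : I → S) :
    θ (∏ i ∈ s, f i) = ∑ i ∈ s, ∏ j ∈ s, Function.update f i (θ (f i)) j := by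
  induction s using Finset.induction_on with
  | empty => simp
  | insert a s ha ih =>
    rw [Finset.prod_insert ha, Derivation.leibniz, ih, Finset.sum_insert ha, Finset.prod_insert ha, Function.update_self]
    have h1 : ∏ j ∈ s, Function.update f a (θ (f a)) j = ∏ j ∈ s, f j := by
      refine Finset.prod_congr rfl fun j hj => ?_
      rw [Function.update_of_ne]
      rintro rfl
      exact ha hj
    have h2 : ∑ i ∈ s, ∏ j ∈ insert a s, Function.update f i (θ (f i)) j = f a * ∑ i ∈ s, ∏ j ∈ s, Function.update f i (θ (f i)) j := by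
      rw [Finset.mul_sum]
      refine Finset.sum_congr rfl fun i hi => ?_
      rw [Finset.prod_insert ha, Function.update_of_ne]
      rintro rfl
      exact ha hi
    rw [h1, h2, smul_eq_mul, smul_eq_mul]
    ring

variable [Fintype I] [DecidableEq I]

/-- the derivative of a determinant -/
theorem jac_det [Algebra ℂ S] (θ : Derivation ℂ S S) (M : Matrix I I S) : θ M.det = ∑ i, (M.updateRow i (fun l => θ (M i l))).det := by
  have hrow : ∀ N : Matrix I I S, N.det = ∑ σ : Equiv.Perm I, ((Equiv.Perm.sign σ : ℤ) : S) * ∏ i, N i (σ i) := by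
    intro N
    rw [← Matrix.det_transpose, Matrix.det_apply']
    rfl
  rw [hrow M, map_sum]
  simp_rw [hrow]
  rw [Finset.sum_comm]
  refine Finset.sum_congr rfl fun σ _ => ?_
  rw [Derivation.leibniz]
  have h0 : θ ((Equiv.Perm.sign σ : ℤ) : S) = 0 := by
    rcases Int.units_eq_one_or (Equiv.Perm.sign σ) with h | h
    · rw [h]
      simp
    · rw [h]
      simp
  rw [h0, smul_zero, add_zero, jac_prod, smul_eq_mul, Finset.mul_sum]
  refine Finset.sum_congr rfl fun i _ => ?_
  congr 1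
  refine Finset.prod_congr rfl fun j _ => ?_
  by_cases hj : j = i
  · subst hj
    rw [Function.update_self, Matrix.updateRow_self]
  · rw [Function.update_of_ne hj, Matrix.updateRow_ne hj]

private theorem jac_col (M : Matrix I I S) (i : I) (v : I → S) : (M.updateCol i v).det = ∑ k, M.adjugate i k * v k := by
  rw [← Matrix.cramer_apply, Matrix.cramer_eq_adjugate_mulVec]
  rfl

private theorem jac_row (M : Matrix I I S) (k : I) (v : I → S) : (M.updateRow k v).det = ∑ i, M.adjugate i k * v i := by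
  rw [← Matrix.det_transpose, ← Matrix.updateCol_transpose, jac_col, ← Matrix.adjugate_transpose]
  rfl

theorem jac_swap (M A : Matrix I I S) : ∑ k, (M.updateRow k (A k)).det = ∑ i, (M.updateCol i fun k => A k i).det := by
  simp only [jac_col, jac_row]
  exact Finset.sum_comm

end Det

section Minors

variable {τ : Type}

/-- the minors of the Jacobian matrix -/
def jmin {c : ℕ} (g : Fin c → MvPolynomial τ ℂ) (j : Fin c → τ) : MvPolynomial τ ℂ := (Matrix.of fun i β => pderiv (j β) (g i)).det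

/-- the generators of `jid` -/
def jset (𝔮 : Ideal (MvPolynomial τ ℂ)) (c : ℕ) : Set (MvPolynomial τ ℂ) :=
  (𝔮 : Set (MvPolynomial τ ℂ)) ∪ {M | ∃ (g : Fin c → MvPolynomial τ ℂ) (j : Fin c → τ), (∀ i, g i ∈ 𝔮) ∧ M = jmin g j}

/-- the ideal generated by `𝔮` and the minors -/
def jid (𝔮 : Ideal (MvPolynomial τ ℂ)) (c : ℕ) : Ideal (MvPolynomial τ ℂ) := Ideal.span (jset 𝔮 c)

theorem jmin_mem {𝔮 : Ideal (MvPolynomial τ ℂ)} {c : ℕ} {g : Fin c → MvPolynomial τ ℂ} (hg : ∀ i, g i ∈ 𝔮) (j : Fin c → τ) : jmin g j ∈ jid 𝔮 c :=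
  Ideal.subset_span (Or.inr ⟨g, j, hg, rfl⟩)

variable [Fintype τ]

omit [Fintype τ] in
private theorem der_sum {ι : Type} (F : ι → Derivation ℂ (MvPolynomial τ ℂ) (MvPolynomial τ ℂ)) (s : Finset ι) (g : MvPolynomial τ ℂ) :
    (∑ l ∈ s, F l) g = ∑ l ∈ s, F l g := by
  classical
  induction s using Finset.induction_on with
  | empty => simp
  | insert a s ha ih => rw [Finset.sum_insert ha, Finset.sum_insert ha, Derivation.add_apply, ih]

theorem jac_comm (D : Derivation ℂ (MvPolynomial τ ℂ) (MvPolynomial τ ℂ)) (j : τ) (g : MvPolynomial τ ℂ) :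
    D (pderiv j g) = pderiv j (D g) - ∑ l, pderiv j (D (X l)) * pderiv l g := by
  classical
  have h : (⁅D, pderiv j⁆ : Derivation ℂ (MvPolynomial τ ℂ) (MvPolynomial τ ℂ)) = ∑ l, (-pderiv j (D (X l))) • pderiv l := by
    refine MvPolynomial.derivation_ext fun i => ?_
    rw [Derivation.commutator_apply, der_sum, pderiv_X]
    rw [Finset.sum_eq_single i]
    · rw [Derivation.smul_apply, pderiv_X_self, smul_eq_mul, mul_one]
      have h1 : D ((Pi.single j (1 : MvPolynomial τ ℂ) : τ → MvPolynomial τ ℂ) i) = 0 := by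
        by_cases hij : i = j
        · subst hij
          rw [Pi.single_eq_same]
          exact D.map_one_eq_zero
        · rw [Pi.single_eq_of_ne hij, map_zero]
      rw [h1, zero_sub]
    · intro l _ hl
      rw [Derivation.smul_apply, pderiv_X_of_ne (fun h => hl h.symm), smul_zero]
    · intro h
      exact absurd (Finset.mem_univ i) h
  have h2 := congrArg (fun E : Derivation ℂ (MvPolynomial τ ℂ) (MvPolynomial τ ℂ) => E g) h
  change (⁅D, pderiv j⁆ : Derivation ℂ (MvPolynomial τ ℂ) (MvPolynomial τ ℂ)) g = (∑ l, (-pderiv j (D (X l))) • pderiv l : Derivation ℂ _ _) g at h2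
  rw [Derivation.commutator_apply, der_sum] at h2
  have h3 : ∑ l, ((-pderiv j (D (X l))) • pderiv l : Derivation ℂ (MvPolynomial τ ℂ) (MvPolynomial τ ℂ)) g = -∑ l, pderiv j (D (X l)) * pderiv l g := by
    rw [← Finset.sum_neg_distrib]
    refine Finset.sum_congr rfl fun l _ => ?_
    rw [Derivation.smul_apply, smul_eq_mul, neg_mul]
  rw [h3] at h2
  linear_combination h2

theorem jid_stable {𝔮 : Ideal (MvPolynomial τ ℂ)} {D : Derivation ℂ (MvPolynomial τ ℂ) (MvPolynomial τ ℂ)} (hD : ∀ g ∈ 𝔮, D g ∈ 𝔮) (c : ℕ) :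
    ∀ g ∈ jid 𝔮 c, D g ∈ jid 𝔮 c := by
  classical
  have hgen : ∀ s ∈ jset 𝔮 c, D s ∈ jid 𝔮 c := by
    rintro s (hs | ⟨g, j, hg, rfl⟩)
    · exact Ideal.subset_span (Or.inl (hD s hs))
    · rw [jmin, jac_det]
      have e1 : ∀ i, ((Matrix.of fun i β => pderiv (j β) (g i)).updateRow i fun β => D (pderiv (j β) (g i))).det =
          jmin (Function.update g i (D (g i))) j -
            ((Matrix.of fun i β => pderiv (j β) (g i)).updateRow i fun β => ∑ l, pderiv (j β) (D (X l)) * pderiv l (g i)).det := by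
        intro i
        have e2 : jmin (Function.update g i (D (g i))) j =
            ((Matrix.of fun i β => pderiv (j β) (g i)).updateRow i fun β => pderiv (j β) (D (g i))).det := by
          rw [jmin]
          congr 1
          ext a b : 2
          by_cases ha : a = i
          · subst ha
            rw [Matrix.updateRow_self, Matrix.of_apply, Function.update_self]
          · rw [Matrix.updateRow_ne ha, Matrix.of_apply, Matrix.of_apply, Function.update_of_ne ha]
        rw [e2, jac_row, jac_row, jac_row, ← Finset.sum_sub_distrib]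
        refine Finset.sum_congr rfl fun β _ => ?_
        rw [jac_comm, mul_sub]
      simp only [Matrix.of_apply]
      rw [Finset.sum_congr rfl fun i _ => e1 i, Finset.sum_sub_distrib]
      refine sub_mem (sum_mem fun i _ => jmin_mem (fun i' => ?_) j) ?_
      · by_cases hi : i' = i
        · subst hi
          rw [Function.update_self]
          exact hD _ (hg _)
        · rw [Function.update_of_ne hi]
          exact hg i'
      · have hsw := jac_swap (Matrix.of fun i β => pderiv (j β) (g i)) (Matrix.of fun i β => ∑ l, pderiv (j β) (D (X l)) * pderiv l (g i))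
        refine (congrArg (fun z => z ∈ jid 𝔮 c) hsw).mpr ?_
        refine sum_mem fun β _ => ?_
        have e3 : ((Matrix.of fun i β => pderiv (j β) (g i)).updateCol β fun k =>
            (Matrix.of fun i β => ∑ l, pderiv (j β) (D (X l)) * pderiv l (g i)) k β).det = ∑ l, pderiv (j β) (D (X l)) * jmin g (Function.update j β l) := by
          have e4 : ∀ l, jmin g (Function.update j β l) = ((Matrix.of fun i β => pderiv (j β) (g i)).updateCol β fun k => pderiv l (g k)).det := by
            intro l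
            rw [jmin]
            congr 1
            ext a b : 2
            by_cases hb : b = β
            · subst hb
              rw [Matrix.updateCol_self, Matrix.of_apply, Function.update_self]
            · rw [Matrix.updateCol_ne hb, Matrix.of_apply, Matrix.of_apply, Function.update_of_ne hb]
          simp only [e4, jac_col, Finset.mul_sum, Matrix.of_apply]
          rw [Finset.sum_comm]
          exact Finset.sum_congr rfl fun l _ => Finset.sum_congr rfl fun k _ => by ring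
        rw [e3]
        exact sum_mem fun l _ => Ideal.mul_mem_left _ _ (jmin_mem hg _)
  intro g hg
  refine Submodule.span_induction (p := fun x _ => D x ∈ jid 𝔮 c) (fun s hs => hgen s hs) ?_ ?_ ?_ hg
  · rw [map_zero]
    exact zero_mem _
  · intro x y _ _ hx hy
    rw [map_add]
    exact add_mem hx hy
  · intro a x hx' hx
    rw [smul_eq_mul, Derivation.leibniz, smul_eq_mul, smul_eq_mul]
    exact add_mem (Ideal.mul_mem_left _ _ hx) (Ideal.mul_mem_right _ _ hx')

/-- a matrix of rank `c` has a minor of size `c` which is not `0` -/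
theorem exists_minor {c : ℕ} (v : Fin c → τ → ℂ) (hv : LinearIndependent ℂ v) : ∃ j : Fin c → τ, (Matrix.of fun a b => v a (j b)).det ≠ 0 := by
  classical
  set M : Matrix (Fin c) τ ℂ := Matrix.of v with hM
  have h1 : M.rank = c := by
    have : LinearIndependent ℂ M.row := hv
    rw [this.rank_matrix, Fintype.card_fin]
  rw [Matrix.rank_eq_finrank_span_cols] at h1
  obtain ⟨κ, a, _, hspan, hli⟩ := exists_linearIndependent' ℂ M.col
  have hfin : Finite κ := hli.finite
  have : Fintype κ := Fintype.ofFinite κ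
  have hcard : Fintype.card κ = c := by
    have := finrank_span_eq_card hli
    rw [hspan, h1] at this
    exact this.symm
  let e : Fin c ≃ κ := (Fintype.equivFinOfCardEq hcard).symm
  refine ⟨fun b => a (e b), ?_⟩
  have hli2 : LinearIndependent ℂ ((M.col ∘ a) ∘ e) := hli.comp e e.injective
  have hli3 : LinearIndependent ℂ (Matrix.of fun (a' : Fin c) (b : Fin c) => v a' (a (e b)) : Matrix (Fin c) (Fin c) ℂ).col := hli2
  rw [Matrix.linearIndependent_cols_iff_isUnit, Matrix.isUnit_iff_isUnit_det] at hli3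
  exact hli3.ne_zero

omit [Fintype τ] in
theorem eval_jmin {c : ℕ} (g : Fin c → MvPolynomial τ ℂ) (j : Fin c → τ) (w : τ → ℂ) :
    eval w (jmin g j) = (Matrix.of fun i β => eval w (pderiv (j β) (g i))).det := by
  rw [jmin, RingHom.map_det]
  rfl

private theorem finrank_ker {r : ℕ} (G : Matrix (Fin r) τ ℂ) : Module.finrank ℂ (LinearMap.ker G.mulVecLin) + G.rank = Fintype.card τ := by
  classical
  have h := LinearMap.finrank_range_add_finrank_ker G.mulVecLin
  rw [Module.finrank_fintype_fun_eq_card] at h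
  rw [Matrix.rank]
  omega

/-- the zeros of the minors -/
theorem zero_jid (𝔮 : Ideal (MvPolynomial τ ℂ)) {k c : ℕ} (hc : k + c = Fintype.card τ) (w : τ → ℂ) :
    Pt (jid 𝔮 c) w ↔ Pt 𝔮 w ∧ k < Module.finrank ℂ (Tn 𝔮 w) := by
  classical
  constructor
  · intro h
    refine ⟨fun g hg => h g (Ideal.subset_span (Or.inl hg)), ?_⟩
    by_contra hk
    rw [not_lt] at hk
    set Sg : Set (τ → ℂ) := {u | ∃ g ∈ 𝔮, u = fun s => eval w (pderiv s g)} with hSg
    obtain ⟨r, f, hf, hspan, hli⟩ : ∃ (r : ℕ) (f : Fin r → τ → ℂ), (∀ i, f i ∈ Sg) ∧ Submodule.span ℂ (Set.range f) = Submodule.span ℂ Sg ∧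
        LinearIndependent ℂ f := ⟨_, Submodule.exists_fun_fin_finrank_span_eq ℂ Sg⟩
    have hrk : (Matrix.of f : Matrix (Fin r) τ ℂ).rank = r := by
      have : LinearIndependent ℂ (Matrix.of f : Matrix (Fin r) τ ℂ).row := hli
      rw [this.rank_matrix, Fintype.card_fin]
    have hker : LinearMap.ker (Matrix.of f : Matrix (Fin r) τ ℂ).mulVecLin ≤ Tn 𝔮 w := by
      intro t ht g hg
      have h1 : ∀ u ∈ Submodule.span ℂ (Set.range f), ∑ s, u s * t s = 0 := by
        intro u hu
        refine Submodule.span_induction (p := fun u _ => ∑ s, u s * t s = 0) ?_ ?_ ?_ ?_ hu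
        · rintro _ ⟨i, rfl⟩
          have h2 := congrFun (LinearMap.mem_ker.1 ht) i
          exact h2
        · simp
        · intro x y _ _ hx hy
          simp only [Pi.add_apply, add_mul, Finset.sum_add_distrib, hx, hy, add_zero]
        · intro a x _ hx
          simp only [Pi.smul_apply, smul_eq_mul, mul_assoc, ← Finset.mul_sum, hx, mul_zero]
      exact h1 _ (by rw [hspan]; exact Submodule.subset_span ⟨g, hg, rfl⟩)
    have h3 := finrank_ker (Matrix.of f : Matrix (Fin r) τ ℂ)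
    have h4 := Submodule.finrank_mono hker
    have hcr : c ≤ r := by omega
    obtain ⟨j, hj⟩ := exists_minor (fun i : Fin c => f (Fin.castLE hcr i)) (hli.comp _ (Fin.castLE_injective hcr))
    choose g hg hfg using hf
    refine hj ?_
    have h5 := h _ (jmin_mem (fun i : Fin c => hg (Fin.castLE hcr i)) j)
    rw [eval_jmin] at h5
    rw [← h5]
    congr 1
    ext a b : 2
    rw [Matrix.of_apply, Matrix.of_apply, hfg]
  · rintro ⟨hw, hk⟩ g hg
    have hgen : ∀ s ∈ jset 𝔮 c, eval w s = 0 := by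
      rintro s (hs | ⟨g, j, hg, rfl⟩)
      · exact hw s hs
      · by_contra hne
        rw [eval_jmin] at hne
        set G : Matrix (Fin c) τ ℂ := Matrix.of fun i s => eval w (pderiv s (g i)) with hG
        have h1 : (Matrix.of fun i β => eval w (pderiv (j β) (g i)) : Matrix (Fin c) (Fin c) ℂ) =
            G * (Matrix.of fun s β => if s = j β then (1 : ℂ) else 0 : Matrix τ (Fin c) ℂ) := by
          ext i β
          rw [Matrix.mul_apply, Finset.sum_eq_single (j β)]
          · simp [G]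
          · intro s _ hs
            rw [Matrix.of_apply, if_neg hs, mul_zero]
          · intro h
            exact absurd (Finset.mem_univ _) h
        have h2 : c ≤ G.rank := by
          have h3 := Matrix.rank_of_isUnit _ ((Matrix.isUnit_iff_isUnit_det _).2 (isUnit_iff_ne_zero.2 hne))
          rw [Fintype.card_fin, h1] at h3
          exact h3.symm.le.trans (Matrix.rank_mul_le_left _ _)
        have h4 := finrank_ker G
        have h5 : Tn 𝔮 w ≤ LinearMap.ker G.mulVecLin := by
          intro t ht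
          rw [LinearMap.mem_ker]
          funext i
          exact ht (g i) (hg i)
        have h6 := Submodule.finrank_mono h5
        omega
    refine Submodule.span_induction (p := fun x _ => eval w x = 0) (fun s hs => hgen s hs) ?_ ?_ ?_ hg
    · exact map_zero _
    · intro x y _ _ hx hy
      rw [map_add, hx, hy, add_zero]
    · intro a x _ hx
      rw [smul_eq_mul, map_mul, hx, mul_zero]

end Minors

theorem sgl_eq_radical {τ : Type} [Fintype τ] (𝔮 : Ideal (MvPolynomial τ ℂ)) {k c : ℕ} (hc : k + c = Fintype.card τ) : sgl 𝔮 k = (jid 𝔮 c).radical := by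
  rw [← MvPolynomial.vanishingIdeal_zeroLocus_eq_radical (K := ℂ)]
  ext g
  rw [MvPolynomial.mem_vanishingIdeal_iff]
  constructor
  · intro hg w hw
    have h1 : Pt (jid 𝔮 c) w := fun g hg => by
      have h2 := hw g hg
      rwa [MvPolynomial.aeval_eq_eval] at h2
    obtain ⟨h3, h4⟩ := (zero_jid 𝔮 hc w).1 h1
    rw [MvPolynomial.aeval_eq_eval]
    exact hg w h3 h4
  · intro hg w h3 h4
    have h1 := (zero_jid 𝔮 hc w).2 ⟨h3, h4⟩
    have h2 := hg w fun g hg => by
      rw [MvPolynomial.aeval_eq_eval]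
      exact h1 g hg
    rwa [MvPolynomial.aeval_eq_eval] at h2

theorem sgl_stable {τ : Type} [Fintype τ] (𝔮 : Ideal (MvPolynomial τ ℂ)) (D : Derivation ℂ (MvPolynomial τ ℂ) (MvPolynomial τ ℂ))
    (hD : ∀ g ∈ 𝔮, D g ∈ 𝔮) (k : ℕ) : ∀ g ∈ sgl 𝔮 k, D g ∈ sgl 𝔮 k := by
  intro g hg
  by_cases hk : k ≤ Fintype.card τ
  · obtain ⟨c, hc⟩ := Nat.exists_eq_add_of_le hk
    rw [sgl_eq_radical 𝔮 hc.symm] at hg ⊢
    exact jac_radical D _ (jid_stable hD c) g hg
  · intro w _ h
    have h1 := Submodule.finrank_le (Tn 𝔮 w)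
    rw [Module.finrank_fintype_fun_eq_card] at h1
    omega

end Pool.Agent.GQ

end
end

section

/-!
# GA Sml: the values of the symmetric differentials on the curve are small

`|s_k (w)| ^ (2 / m_k) ≤` mean of `|s_k| ^ (2 / m_k) ≤ C sp²` over the disc of radius `1 / τ_n` around `w` (`GA/SmlArea`), and the integral of `sp²` over the disc is at
most `AA (X_n) ≤ τ_n²`: `log⁺ |s_k (w)| ≤ C (1 + log τ_n)` for `1 + 1 / τ_n ≤ Re w ≤ X_n - 1 / τ_n`; `IsOO.of_mean`.
-/

set_option autoImplicit false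

open MvPolynomial Topology Filter Metric
open Pool.Agent.H13.SM (conTan cone)
open Pool.Agent.H62.FC (Homog)
open Pool.Agent.GG

namespace Pool.Agent.GA

variable {N : ℕ} {P : Ideal (MvPolynomial (Fin (N + 1)) ℂ)} {J : ℕ} {m : Fin J → ℕ} {θ : ∀ k, SymSec P (m k)} {F : ℂ → Fin (N + 1) → ℂ}
  {X : ℕ → ℝ}

/-- a periodic holomorphic function which is bounded by a power of the speed is small -/
theorem IsOO.of_speed {s : ℂ → ℝ} (hs : Speed s) (hX : Lev s X) {a : ℂ → ℂ} (han : ∀ w ∈ HP, AnalyticAt ℂ a w) (hper : ∀ w ∈ HP, a (w + per) = a w)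
    {C : ℝ} {k : ℕ} (hb : ∀ w ∈ HP, ‖a w‖ ≤ C * s w ^ k) : IsOO s X a := by
  obtain ⟨D, hD, hD1⟩ : ∃ D : ℝ, D = max C 1 ∧ 1 ≤ D := ⟨_, rfl, le_max_right _ _⟩
  have hbD : ∀ w ∈ HP, ‖a w‖ ≤ D * s w ^ k := fun w hw =>
    (hb w hw).trans (mul_le_mul_of_nonneg_right (by rw [hD]; exact le_max_left _ _) (pow_nonneg (hs.nonneg w hw) _))
  -- the levels
  have hτ : ∀ n : ℕ, 4 * ((n : ℝ) + 1) ≤ tau s X n := by
    intro n
    have h1 := hX.sub n
    have h2 := hX.big n
    have h3 : (0 : ℝ) ≤ n := Nat.cast_nonneg n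
    nlinarith
  have hτ4 : ∀ n, 4 ≤ tau s X n := fun n => by
    have := hτ n
    have h3 : (0 : ℝ) ≤ n := Nat.cast_nonneg n
    linarith
  have hτlim : Tendsto (tau s X) atTop atTop := by
    refine tendsto_atTop_mono hτ ?_
    exact Tendsto.const_mul_atTop (by norm_num) (tendsto_atTop_add_const_right _ _ tendsto_natCast_atTop_atTop)
  have hAA0 : ∀ t, 0 ≤ AA s t := fun t =>
    intervalIntegral.integral_nonneg (le_max_right _ _) fun x _ => intervalIntegral.integral_nonneg (by positivity) fun y _ => sq_nonneg _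
  have hAAτ : ∀ n, AA s (X n) ≤ tau s X n ^ 2 := by
    intro n
    have h1 := hX.area n
    have h2 := hX.big n
    have h3 : (0 : ℝ) ≤ n := Nat.cast_nonneg n
    have h4 := hAA0 (X n)
    have h5 : AA s (X n) ≤ X n * AA s (X n) := by nlinarith
    have h6 : X n * AA s (X n) ≤ ((n : ℝ) + 1) * (X n * AA s (X n)) := by
      have : 0 ≤ X n * AA s (X n) := mul_nonneg (by linarith) h4
      nlinarith
    linarith
  -- the pointwise bound
  obtain ⟨B, hB0, hB⟩ : ∃ B : ℝ, 0 ≤ B ∧ ∀ n, ∀ w : ℂ, w.re ∈ Set.Icc (xi s X n - 1 / tau s X n) (xi s X n + 1 / tau s X n) →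
      Real.posLog ‖a w‖ ≤ B + 2 * k * Real.log (tau s X n) := by
    refine ⟨Real.log D, Real.log_nonneg hD1, fun n w hw => ?_⟩
    have ht4 := hτ4 n
    have ht0 : 0 < tau s X n := by linarith
    have hlog : 0 ≤ Real.log (tau s X n) := Real.log_nonneg (by linarith)
    have hr : 1 / tau s X n ≤ 1 / 4 := by gcongr
    have hr0 : 0 < 1 / tau s X n := by positivity
    have hxi : xi s X n = X n - 2 * (1 / tau s X n) := by
      rw [xi]
      ring
    rw [hxi] at hw
    have hbig := hX.big n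
    have h3 : (0 : ℝ) ≤ n := Nat.cast_nonneg n
    have hwHP : w ∈ HP := by
      change 0 < w.re
      linarith [hw.1]
    rcases Nat.eq_zero_or_pos k with hk | hk
    · subst hk
      have h1 := hbD w hwHP
      rw [pow_zero, mul_one] at h1
      have h2 : Real.posLog ‖a w‖ ≤ Real.posLog D := Real.posLog_le_posLog (norm_nonneg _) h1
      rw [Real.posLog_eq_log (x := D) (by rw [abs_of_pos (by linarith)]; exact hD1)] at h2
      simpa using h2
    · have hk0 : (0 : ℝ) < k := by exact_mod_cast hk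
      have hp : (0 : ℝ) < 2 / k := by positivity
      have hle : ∀ z ∈ HP, ‖a z‖ ^ ((2 : ℝ) / k) ≤ D ^ ((2 : ℝ) / k) * s z ^ 2 := by
        intro z hz
        have h1 := Real.rpow_le_rpow (norm_nonneg _) (hbD z hz) hp.le
        rw [Real.mul_rpow (by linarith) (pow_nonneg (hs.nonneg z hz) _), ← Real.rpow_natCast (s z) k, ← Real.rpow_mul (hs.nonneg z hz)] at h1
        rwa [show (k : ℝ) * (2 / k) = 2 by field_simp, Real.rpow_two] at h1
      have h1 := sml_area hs han hp (Real.rpow_nonneg (by linarith) _) hle (w := w) (h := 1 / tau s X n) hr0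
        (by linarith [Real.pi_gt_three]) (by linarith [hw.1])
      have h2 : AA s (w.re + 1 / tau s X n) ≤ AA s (X n) := sml_AA_mono hs (by linarith [hw.2])
      have hDp : 0 < D ^ ((2 : ℝ) / k) := Real.rpow_pos_of_pos (by linarith) _
      have h4 : Real.pi * (1 / tau s X n) ^ 2 * ‖a w‖ ^ ((2 : ℝ) / k) ≤ D ^ ((2 : ℝ) / k) * tau s X n ^ 2 :=
        h1.trans (mul_le_mul_of_nonneg_left (h2.trans (hAAτ n)) hDp.le)
      have h5 : ‖a w‖ ^ ((2 : ℝ) / k) ≤ D ^ ((2 : ℝ) / k) * tau s X n ^ 4 := by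
        have hy : 0 ≤ ‖a w‖ ^ ((2 : ℝ) / k) := Real.rpow_nonneg (norm_nonneg _) _
        have h6 : ‖a w‖ ^ ((2 : ℝ) / k) ≤ Real.pi * ‖a w‖ ^ ((2 : ℝ) / k) := by nlinarith [Real.pi_gt_three]
        have h7 : Real.pi * ‖a w‖ ^ ((2 : ℝ) / k) = tau s X n ^ 2 * (Real.pi * (1 / tau s X n) ^ 2 * ‖a w‖ ^ ((2 : ℝ) / k)) := by
          field_simp
        rw [h7] at h6
        refine h6.trans ((mul_le_mul_of_nonneg_left h4 (by positivity)).trans_eq ?_)
        ring
      -- take logarithms
      have h8 : ‖a w‖ ≤ D * tau s X n ^ (2 * k) := by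
        have h9 := Real.rpow_le_rpow (Real.rpow_nonneg (norm_nonneg _) _) h5 (show (0 : ℝ) ≤ k / 2 by positivity)
        rw [← Real.rpow_mul (norm_nonneg _), show (2 : ℝ) / k * (k / 2) = 1 by field_simp, Real.rpow_one, Real.mul_rpow hDp.le (by positivity),
          ← Real.rpow_mul (by linarith), show (2 : ℝ) / k * (k / 2) = 1 by field_simp, Real.rpow_one, ← Real.rpow_natCast (tau s X n) 4,
          ← Real.rpow_mul ht0.le] at h9
        rwa [show ((4 : ℕ) : ℝ) * (k / 2) = ((2 * k : ℕ) : ℝ) by push_cast; ring, Real.rpow_natCast] at h9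
      have h10 : Real.posLog ‖a w‖ ≤ Real.posLog (D * tau s X n ^ (2 * k)) := Real.posLog_le_posLog (norm_nonneg _) h8
      have h11 : 1 ≤ D * tau s X n ^ (2 * k) := by
        have : 1 ≤ tau s X n ^ (2 * k) := one_le_pow₀ (by linarith)
        nlinarith
      rw [Real.posLog_eq_log (x := D * tau s X n ^ (2 * k)) (by rwa [abs_of_pos (by linarith)]), Real.log_mul (by linarith) (by positivity), Real.log_pow] at h10
      push_cast at h10
      exact h10
  refine IsOO.of_mean hX han hper (η := fun n => 2 * Real.pi * (B + 2 * k * Real.log (tau s X n))) ?_ (Eventually.of_forall fun n t ht => ?_)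
  · unfold SmallN
    have h1 : Tendsto (fun n => Real.log (tau s X n) / tau s X n) atTop (𝓝 0) := by
      have := (Real.isLittleO_log_id_atTop.tendsto_div_nhds_zero).comp hτlim
      exact this
    have h2 : Tendsto (fun n => B / tau s X n) atTop (𝓝 0) := hτlim.const_div_atTop _
    have h3 := (h2.add (h1.const_mul (2 * (k : ℝ)))).const_mul (2 * Real.pi)
    simp only [mul_zero, add_zero] at h3
    refine h3.congr fun n => ?_
    ring
  · unfold mn
    have hbd : ∀ y ∈ Set.Icc (0 : ℝ) (2 * Real.pi), Real.posLog ‖a (t + y * Complex.I)‖ ≤ B + 2 * k * Real.log (tau s X n) := by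
      intro y _
      refine hB n _ ?_
      simpa using ht
    have ht0 : 0 < t := by
      have h1 := hτ4 n
      have h2 := hX.big n
      have h3 : (0 : ℝ) ≤ n := Nat.cast_nonneg n
      have h4 : 1 / tau s X n ≤ 1 / 4 := by gcongr
      have h5 := ht.1
      rw [xi, show (2 : ℝ) / tau s X n = 2 * (1 / tau s X n) by ring] at h5
      linarith
    have hcont : Continuous fun y : ℝ => Real.posLog ‖a (t + y * Complex.I)‖ := by
      refine Real.continuous_posLog.comp (continuous_norm.comp (continuous_iff_continuousAt.2 fun y => ?_))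
      have h1 : (t + y * Complex.I : ℂ) ∈ HP := by simpa [HP] using ht0
      exact ContinuousAt.comp (f := fun y : ℝ => (t + y * Complex.I : ℂ)) (g := a) (han _ h1).continuousAt (by fun_prop)
    have h1 := intervalIntegral.integral_mono_on (μ := MeasureTheory.volume) (show (0 : ℝ) ≤ 2 * Real.pi by positivity) (hcont.intervalIntegrable _ _)
      intervalIntegrable_const hbd
    refine h1.trans_eq ?_
    rw [intervalIntegral.integral_const]
    simp

theorem sth_small (hP : Homog P) (hθ : Polar θ) (hm : ∀ k, 1 ≤ m k) (hF : HCurve P F) (hX : Lev (sp F) X) (k : Fin J) : IsOO (sp F) X (sth θ F k) := by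
  obtain ⟨c, -, C, -, h⟩ := theta_bd hP hθ hm
  exact IsOO.of_speed hF.speed hX (fun w hw => sth_an hF k hw) (fun w hw => sth_periodic hF k hw) fun w hw => (h _ (hF.cone w hw) _ (hF.deriv_mem hw)).1 k

end Pool.Agent.GA

end
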