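import Pool.Agent.H18.GGT.M12
import Pool.Agent.H18.GGT.M22
import Pool.Agent.H18.GGT.M24
import Pool.Agent.H18.GGT.M39
import Pool.Agent.H18.GGT.M46
import Pool.Agent.H18.GGT.M51
import Pool.Agent.H18.GGT.M54

/-! The parts of this file: GG.Kod, H36.BP.Lift, GG.OneVar, H62.Et.Defs, H62.Et.Hat, GG.Kd.Drv, GA.HPl, GG.Core, GT.Res, H62.Qe.Loc, H62.Qe.Lift. -/

section

/-!
# GG Kod: a smooth projective variety of general type has a section of `K^M (-1)`
-/

set_option autoImplicit false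

open MvPolynomial
open Pool.Agent.H23.Fano (Form PrimeDivisorOver)

noncomputable section

namespace Pool.Agent.GG

variable {N : ℕ} {P : Ideal (MvPolynomial (Fin (N + 1)) ℂ)} [P.IsPrime] {k M : ℕ}

namespace Kd

/-- the differentials of the coordinates are independent at a point with `J ≠ 0` -/
theorem Dat.det_ne {K : Type} [Field K] [Algebra ℂ K] {r : ℕ} {y : Fin r → K} (d : Dat y k) {w : Fin r → ℂ} (hw : IsPt y w)
    (hJ : eval w d.J ≠ 0) {v : Fin k → Fin r → ℂ} (hv : ∀ l, v l ∈ tan y w) (hind : LinearIndependent ℂ v) :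
    (Matrix.of fun l j => d.tau (v l) j).det ≠ 0 := by
  intro h
  obtain ⟨u, hu, hu0⟩ := Matrix.exists_vecMul_eq_zero_iff.2 h
  -- the combination of the vectors is killed by the differentials
  have h1 : ∀ j, d.tau (∑ l, u l • v l) j = 0 := by
    intro j
    have h2 := congrFun hu0 j
    rw [Matrix.vecMul, dotProduct] at h2
    simp only [Matrix.of_apply, Pi.zero_apply] at h2
    rw [← h2]
    unfold Dat.tau
    simp only [Finset.sum_apply, Pi.smul_apply, smul_eq_mul, Finset.mul_sum]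
    rw [Finset.sum_comm]
    refine Finset.sum_congr rfl fun l _ => Finset.sum_congr rfl fun i _ => ?_
    ring
  have hmem : ∑ l, u l • v l ∈ tan y w := Submodule.sum_mem _ fun l _ => Submodule.smul_mem _ _ (hv l)
  obtain ⟨b, hb⟩ := Pool.Agent.H23.exists_basis_kaehler d.basis
  have h3 : ∑ l, u l • v l = 0 := by
    funext i
    obtain ⟨e, -, he⟩ := d.chain hw hJ hb (Ev.var y w i)
    have h4 := he _ hmem _ (Ev.var y (dp w (∑ l, u l • v l)) i)
    rw [dp_snd] at h4
    rw [h4]
    exact Finset.sum_eq_zero fun j _ => by rw [h1 j, mul_zero]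
  have h5 := Fintype.linearIndependent_iff.1 hind u h3
  exact hu (funext h5)

end Kd

end Pool.Agent.GG

end
end

section

/-!
# BP Lift: lifts on discs and punctured discs

Both follow the proof of `Pool.Agent.H17.exists_global_lift` (Weierstrass' theorem `exists_entire_with_orders`: the orders are required on a closed subset where they are locally finite).
Let `j₀` be a coordinate which does not vanish identically near any point (connectedness) and `D z` the order of vanishing at `z` of the `j₀`-th coordinate of a local lift without common zeros.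
* disc: an entire function `w` with `ord_z w = D z` for `|z| ≤ r`, `0` elsewhere; `F_j = w φ_j/φ_(j₀)`.
* punctured disc: the same for `f(1/ζ)` on `|ζ| > 1`: an entire function `w` with order `D(1/ζ)` for `|ζ| ≥ 1/r` and `0` elsewhere; `F_j(z) = w(1/z) φ_j/φ_(j₀)`.
(The sets `{z : D z ≠ 0, |z| ≤ r}` and `{ζ : D(1/ζ) ≠ 0, |ζ| ≥ 1/r}` are locally finite in `ℂ`.)
-/

set_option autoImplicit false

namespace Pool.Agent.H36.BP

open Filter Topology Metric

variable {N : ℕ}

open Pool.Agent.H17 (PN HolomorphicInto)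

/-- common core of both lifting theorems: `w` is a function with the required orders -/
private lemma Lift_core {f : ℂ → PN N} {U V : Set ℂ} (hU : IsOpen U) (hUc : IsPreconnected U)
    (hV : IsOpen V) (hVU : V ⊆ U) (hne : U.Nonempty) (hf : HolomorphicInto f U)
    (hW : ∀ D : ℂ → ℕ, (∀ K : Set ℂ, IsCompact K → K ⊆ U → {z ∈ K | D z ≠ 0}.Finite) →
      ∃ w : ℂ → ℂ, ∀ z ∈ V, AnalyticAt ℂ w z ∧ analyticOrderAt w z = D z) :
    ∃ F : ℂ → EN N, DifferentiableOn ℂ F V ∧
      ∀ z ∈ V, ∃ h : (F z).ofLp ≠ 0, f z = Projectivization.mk ℂ _ h := by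
  classical
  have hf' : ∀ z₀, ∃ φ : ℂ → Fin (N + 1) → ℂ, z₀ ∈ U → (AnalyticAt ℂ φ z₀ ∧
      ∀ᶠ z in 𝓝 z₀, ∃ h : φ z ≠ 0, f z = Projectivization.mk ℂ (φ z) h) := by
    intro z₀
    by_cases h : z₀ ∈ U
    · obtain ⟨φ, h1, h2⟩ := hf z₀ h
      exact ⟨φ, fun _ => ⟨h1, h2⟩⟩
    · exact ⟨fun _ => 0, fun h' => absurd h' h⟩
  choose φ hφ using hf'
  have hφj : ∀ z₀ ∈ U, ∀ j, AnalyticAt ℂ (fun z => φ z₀ z j) z₀ := fun z₀ hz₀ j =>
    (analyticAt_pi_iff.mp (hφ z₀ hz₀).1) j
  -- comparison of lifts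
  have hcmp : ∀ z₀ ∈ U, ∀ᶠ z in 𝓝 z₀, ∃ c : ℂ, c ≠ 0 ∧ ∀ j, φ z₀ z j = c * φ z z j := by
    intro z₀ hz₀
    filter_upwards [(hφ z₀ hz₀).2, hU.mem_nhds hz₀] with z hz hzU
    obtain ⟨h1, h2⟩ := hz
    obtain ⟨h3, h4⟩ := ((hφ z hzU).2).self_of_nhds
    exact Pool.Agent.H17.mk_eq_mk_cross (h2.symm.trans h4)
  have hφ0 : ∀ z₀ ∈ U, φ z₀ z₀ ≠ 0 := fun z₀ hz₀ => ((hφ z₀ hz₀).2).self_of_nhds.1
  obtain ⟨b, hb⟩ := hne
  obtain ⟨j₀, hj₀⟩ : ∃ j₀, φ b b j₀ ≠ 0 := by
    by_contra h
    push Not at h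
    exact hφ0 b hb (funext h)
  -- the coordinate `j₀` does not vanish identically near any point
  set A : Set ℂ := {z₀ | z₀ ∈ U ∧ ∀ᶠ z in 𝓝 z₀, φ z₀ z j₀ = 0} with hA
  set B : Set ℂ := {z₀ | z₀ ∈ U ∧ ∀ᶠ z in 𝓝[≠] z₀, φ z₀ z j₀ ≠ 0} with hB
  have hAopen : IsOpen A := by
    rw [isOpen_iff_mem_nhds]
    rintro z₀ ⟨hz₀U, hz₀⟩
    have h1 : ∀ᶠ z in 𝓝 z₀, φ z z j₀ = 0 := by
      filter_upwards [hz₀, hcmp z₀ hz₀U] with z h1 h2
      obtain ⟨c, hc, h3⟩ := h2
      have := h3 j₀
      rw [h1] at this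
      exact (mul_eq_zero.mp this.symm).resolve_left hc
    filter_upwards [h1.eventually_nhds, hU.mem_nhds hz₀U] with z₁ h2 hz₁U
    refine ⟨hz₁U, ?_⟩
    filter_upwards [h2, hcmp z₁ hz₁U] with z h3 h4
    obtain ⟨c, hc, h5⟩ := h4
    rw [h5, h3, mul_zero]
  have hBopen : IsOpen B := by
    rw [isOpen_iff_mem_nhds]
    rintro z₀ ⟨hz₀U, hz₀⟩
    have h3 := eventually_nhdsWithin_iff.mp hz₀
    filter_upwards [h3, hcmp z₀ hz₀U, hU.mem_nhds hz₀U] with z h4 h5 hzU
    by_cases hz : z = z₀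
    · rw [hz]; exact ⟨hz₀U, hz₀⟩
    · refine ⟨hzU, ?_⟩
      obtain ⟨c, hc, h6⟩ := h5
      rcases (hφj z hzU j₀).eventually_eq_zero_or_eventually_ne_zero with h | h
      · exfalso
        have h8 : φ z z j₀ = 0 := h.self_of_nhds
        apply h4 hz
        rw [h6, h8, mul_zero]
      · exact h
  have hUB : U ⊆ B := by
    have hdisj : Disjoint B A := by
      rw [Set.disjoint_left]
      rintro z ⟨_, h1⟩ ⟨_, h2⟩
      obtain ⟨y, hy1, hy2⟩ := (h1.and (h2.filter_mono nhdsWithin_le_nhds)).exists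
      exact hy1 hy2
    have hcov : U ⊆ B ∪ A := by
      intro z hz
      rcases (hφj z hz j₀).eventually_eq_zero_or_eventually_ne_zero with h | h
      · exact Or.inr ⟨hz, h⟩
      · exact Or.inl ⟨hz, h⟩
    have hbB : b ∈ B := by
      refine ⟨hb, ?_⟩
      rcases (hφj b hb j₀).eventually_eq_zero_or_eventually_ne_zero with h | h
      · exact absurd h.self_of_nhds hj₀
      · exact h
    exact hUc.subset_left_of_subset_union hBopen hAopen hdisj hcov ⟨b, hb, hbB⟩
  have hne : ∀ z₀ ∈ U, ∀ᶠ z in 𝓝[≠] z₀, φ z₀ z j₀ ≠ 0 := fun z₀ hz₀ => (hUB hz₀).2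
  have hfin : ∀ z₀ ∈ U, analyticOrderAt (fun z => φ z₀ z j₀) z₀ ≠ ⊤ := by
    intro z₀ hz₀ h
    rw [analyticOrderAt_eq_top] at h
    obtain ⟨y, hy1, hy2⟩ := ((hne z₀ hz₀).and (h.filter_mono nhdsWithin_le_nhds)).exists
    exact hy1 hy2
  set D : ℂ → ℕ := fun z => analyticOrderNatAt (fun y => φ z y j₀) z with hD
  have hDord : ∀ z ∈ U, analyticOrderAt (fun y => φ z y j₀) z = D z := fun z hz =>
    (Nat.cast_analyticOrderNatAt (hfin z hz)).symm
  have hDfin : ∀ K : Set ℂ, IsCompact K → K ⊆ U → {z ∈ K | D z ≠ 0}.Finite := by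
    intro K hK hKU
    by_contra hinf
    obtain ⟨y, hyK, hy⟩ := Set.Infinite.exists_accPt_of_subset_isCompact hinf hK (fun z hz => hz.1)
    have hyU := hKU hyK
    rw [accPt_iff_frequently_nhdsNE] at hy
    obtain ⟨z, hz1, hz2, hz3, hzU⟩ := (hy.and_eventually ((hne y hyU).and
      (((hcmp y hyU).filter_mono nhdsWithin_le_nhds).and
        (mem_nhdsWithin_of_mem_nhds (hU.mem_nhds hyU))))).exists
    obtain ⟨c, hc, h4⟩ := hz3
    apply hz1.2
    have h5 : φ z z j₀ ≠ 0 := by
      intro h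
      apply hz2
      rw [h4, h, mul_zero]
    have h6 := hDord z hzU
    rw [(hφj z hzU j₀).analyticOrderAt_eq_zero.mpr h5] at h6
    exact_mod_cast h6.symm
  obtain ⟨w, hw⟩ := hW D hDfin
  have hq : ∀ z₀, ∃ q : ℂ → ℂ, z₀ ∈ V → (AnalyticAt ℂ q z₀ ∧ q z₀ ≠ 0 ∧
      ∀ᶠ z in 𝓝 z₀, w z = q z * φ z₀ z j₀) := by
    intro z₀
    by_cases h : z₀ ∈ V
    · obtain ⟨q, h1⟩ := Pool.Agent.H17.exists_unit_quotient (hw z₀ h).1 (hφj z₀ (hVU h) j₀)
        (hw z₀ h).2 (hDord z₀ (hVU h))
      exact ⟨q, fun _ => h1⟩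
    · exact ⟨fun _ => 0, fun h' => absurd h' h⟩
  choose q hq using hq
  set X : Fin (N + 1) → ℂ → ℂ := fun j z => q z z * φ z z j with hX
  have hXloc : ∀ z₀ ∈ V, ∀ j, X j =ᶠ[𝓝 z₀] fun z => q z₀ z * φ z₀ z j := by
    intro z₀ hz₀ j
    have h1 := eventually_nhdsWithin_iff.mp (hne z₀ (hVU hz₀))
    filter_upwards [h1, hcmp z₀ (hVU hz₀), (hq z₀ hz₀).2.2, hV.mem_nhds hz₀] with z h2 h3 h4 hzV
    by_cases hz : z = z₀
    · rw [hz]
    · obtain ⟨c, hc, h5⟩ := h3
      have h6 := h2 hz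
      have h7 : w z = q z z * φ z z j₀ := ((hq z hzV).2.2).self_of_nhds
      have h8 : φ z z j₀ ≠ 0 := by
        intro h
        apply h6
        rw [h5, h, mul_zero]
      have h9 : q z₀ z * c = q z z := by
        apply mul_right_cancel₀ h8
        rw [← h7, h4, h5]
        ring
      simp only [hX]
      rw [h5, ← h9]
      ring
  have hXdiff : ∀ j, ∀ z₀ ∈ V, DifferentiableAt ℂ (X j) z₀ := by
    intro j z₀ hz₀
    exact (hXloc z₀ hz₀ j).differentiableAt_iff.mpr
      ((hq z₀ hz₀).1.mul (hφj z₀ (hVU hz₀) j)).differentiableAt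
  refine ⟨fun z => WithLp.toLp 2 (fun j => X j z), ?_, fun z hz => ?_⟩
  · intro z hz
    apply DifferentiableAt.differentiableWithinAt
    rw [differentiableAt_euclidean]
    exact fun j => hXdiff j z hz
  · obtain ⟨h1, h2⟩ := ((hφ z (hVU hz)).2).self_of_nhds
    have h3 : (fun j => X j z) = q z z • φ z z := by
      funext j
      rfl
    have h4 : (fun j => X j z) ≠ 0 := by
      rw [h3]
      exact smul_ne_zero (hq z hz).2.1 h1
    refine ⟨h4, ?_⟩
    rw [h2, Projectivization.mk_eq_mk_iff]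
    refine ⟨(Units.mk0 (q z z) (hq z hz).2.1)⁻¹, ?_⟩
    change (Units.mk0 (q z z) (hq z hz).2.1)⁻¹ • (fun j => X j z) = φ z z
    rw [h3, Units.smul_def, smul_smul]
    simp [(hq z hz).2.1]

/-- the punctured disc is preconnected -/
private lemma Lift_preconn : IsPreconnected (ball (0 : ℂ) 1 \ {0}) := by
  have h1 : ball (0 : ℂ) 1 \ {0} = Complex.exp '' {z : ℂ | z.re < 0} := by
    ext z
    constructor
    · rintro ⟨h1, h2⟩
      have h3 : z ≠ 0 := h2
      refine ⟨Complex.log z, ?_, Complex.exp_log h3⟩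
      change (Complex.log z).re < 0
      rw [Complex.log_re]
      exact Real.log_neg (norm_pos_iff.mpr h3) (mem_ball_zero_iff.mp h1)
    · rintro ⟨y, hy, rfl⟩
      refine ⟨?_, Complex.exp_ne_zero y⟩
      rw [mem_ball_zero_iff, Complex.norm_exp]
      exact Real.exp_lt_one_iff.mpr hy
  rw [h1]
  exact ((convex_halfSpace_re_lt 0).isPreconnected).image _ Complex.continuous_exp.continuousOn

theorem lift_punct {f : ℂ → PN N} (hf : HolomorphicInto f (ball 0 1 \ {0})) {r : ℝ} (hr : 0 < r) (hr1 : r < 1) :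
    ∃ F : ℂ → EN N, DifferentiableOn ℂ F (ball 0 r \ {0}) ∧ ∀ z ∈ ball (0 : ℂ) r \ {0}, ∃ h : (F z).ofLp ≠ 0, f z = Projectivization.mk ℂ _ h := by
  classical
  have hopen : ∀ s : ℝ, IsOpen (ball (0 : ℂ) s \ {0}) := fun s =>
    isOpen_ball.sdiff isClosed_singleton
  refine Lift_core (hopen 1) Lift_preconn (hopen r)
    (Set.sdiff_subset_sdiff_left (ball_subset_ball hr1.le)) ⟨1 / 2, ?_, ?_⟩ hf ?_
  · rw [mem_ball_zero_iff]; norm_num
  · norm_num
  intro D hD
  obtain ⟨w, hw⟩ := Pool.Agent.H17.exists_entire_with_orders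
    (fun ζ => if r⁻¹ ≤ ‖ζ‖ then D ζ⁻¹ else 0) (by
      intro R
      set S : ℝ := max R 1 with hS
      have hS1 : 0 < S := lt_of_lt_of_le one_pos (le_max_right _ _)
      have hK : IsCompact (closedBall (0 : ℂ) r \ ball 0 S⁻¹) :=
        (isCompact_closedBall _ _).diff isOpen_ball
      have hKU : closedBall (0 : ℂ) r \ ball 0 S⁻¹ ⊆ ball 0 1 \ {0} := by
        rintro z ⟨h1, h2⟩
        refine ⟨closedBall_subset_ball hr1 h1, ?_⟩
        rintro rfl
        exact h2 (mem_ball_self (inv_pos.mpr hS1))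
      refine ((hD _ hK hKU).image (fun z => z⁻¹)).subset ?_
      rintro z ⟨hz1, hz⟩
      by_cases h : r⁻¹ ≤ ‖z‖
      · simp only [h, if_true] at hz
        have h0 : 0 < ‖z‖ := lt_of_lt_of_le (inv_pos.mpr hr) h
        refine ⟨z⁻¹, ⟨⟨?_, ?_⟩, hz⟩, inv_inv z⟩
        · rw [mem_closedBall_zero_iff, norm_inv]
          exact inv_le_of_inv_le₀ hr h
        · rw [mem_ball_zero_iff, norm_inv, not_lt]
          apply inv_anti₀ h0
          exact le_trans (mem_closedBall_zero_iff.mp hz1) (le_max_left _ _)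
      · simp [h] at hz)
  refine ⟨fun z => (w : ℂ → ℂ) z⁻¹, fun z hz => ?_⟩
  have hz0 : z ≠ 0 := hz.2
  have hinv : AnalyticAt ℂ (fun z : ℂ => z⁻¹) z := analyticAt_inv hz0
  have hd : deriv (fun z : ℂ => z⁻¹) z ≠ 0 := by
    rw [deriv_inv]
    exact neg_ne_zero.mpr (inv_ne_zero (pow_ne_zero 2 hz0))
  refine ⟨(w.analyticAt z⁻¹).comp hinv, ?_⟩
  have h1 : analyticOrderAt ((w : ℂ → ℂ) ∘ fun z : ℂ => z⁻¹) z = analyticOrderAt (w : ℂ → ℂ) z⁻¹ :=
    analyticOrderAt_comp_of_deriv_ne_zero hinv hd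
  have h2 : r⁻¹ ≤ ‖z⁻¹‖ := by
    rw [norm_inv]
    exact inv_anti₀ (norm_pos_iff.mpr hz0) (mem_ball_zero_iff.mp hz.1).le
  have h3 := hw z⁻¹
  rw [if_pos h2, inv_inv] at h3
  rw [← h3, ← h1]
  rfl

end Pool.Agent.H36.BP

end

section

/-!
# GG OneVar: a section of `m K - j H` along an entire curve whose speed is bounded below grows like `exp (a |z|²)`
-/

set_option autoImplicit false

open Topology Filter Metric

namespace Pool.Agent.GG

open Pool.Agent.H36.BP (EN fs Sub max_principle)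

variable {N : ℕ}

/-- There is no entire function `w`, not zero at `0`, with `|w| ‖F‖ ^ j ≤ C exp (C |z|)`, `j ≥ 1`, if the speed of the curve `F` is bounded below. -/
theorem growth_contra {F : ℂ → EN N} {w : ℂ → ℂ} (hF : Differentiable ℂ F) (hF0 : ∀ z, F z ≠ 0) (hw : Differentiable ℂ w) (hw0 : w 0 ≠ 0) {j : ℕ}
    (hj : 1 ≤ j) {c C : ℝ} (hc : 0 < c) (hfs : ∀ z, c ≤ fs (F z) (deriv F z)) (hup : ∀ z, ‖w z‖ * ‖F z‖ ^ j ≤ C * Real.exp (C * ‖z‖)) : False := by
  have hj0 : (0 : ℝ) < j := by exact_mod_cast hj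
  obtain ⟨a, ha⟩ : ∃ a : ℝ, a = j * c ^ 2 / 4 := ⟨_, rfl⟩
  have ha0 : 0 < a := by rw [ha]; positivity
  obtain ⟨u, hu⟩ : ∃ u : ℂ → ℝ, u = fun z => ‖w z‖ * ‖F z‖ ^ (j : ℝ) * Real.exp (-a * ‖z‖ ^ 2) := ⟨_, rfl⟩
  have hcont : Continuous u := by
    rw [hu]
    refine (hw.continuous.norm.mul (hF.continuous.norm.rpow_const fun z => Or.inl (norm_ne_zero_iff.2 (hF0 z)))).mul ?_
    exact Real.continuous_exp.comp (continuous_const.mul (continuous_norm.pow 2))
  have hsub : ∀ z, 0 < u z → ∃ d, 0 < d ∧ Sub u z d := by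
    intro z hz
    have hwz : w z ≠ 0 := by
      rintro h
      rw [hu] at hz
      simp [h] at hz
    refine ⟨0 + j * fs (F z) (deriv F z) ^ 2 / 2 + -a * ‖deriv (fun z : ℂ => z) z‖ ^ 2, ?_, ?_⟩
    · have h1 : c ^ 2 ≤ fs (F z) (deriv F z) ^ 2 := pow_le_pow_left₀ hc.le (hfs z) 2
      have h2 : deriv (fun z : ℂ => z) z = 1 := deriv_id z
      rw [h2, norm_one, ha]
      nlinarith [mul_le_mul_of_nonneg_left h1 hj0.le, mul_pos hj0 (pow_pos hc 2)]
    · rw [hu]
      have h1 := Sub.of_holo (hw.analyticAt z) hwz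
      have h2 := Sub.norm_rpow (hF.analyticAt z) (hF0 z) (j : ℝ)
      have h3 := Sub.exp_sq (t := fun z : ℂ => z) (z₀ := z) analyticAt_id (-a)
      exact (h1.mul h2).mul h3
  have hu0 : 0 < u 0 := by
    rw [hu]
    have := Real.rpow_pos_of_pos (norm_pos_iff.2 (hF0 0)) (j : ℝ)
    have := norm_pos_iff.2 hw0
    positivity
  have hCpos : 0 < C := by
    have h1 := hup 0
    have h2 : 0 < ‖w 0‖ * ‖F 0‖ ^ j := mul_pos (norm_pos_iff.2 hw0) (pow_pos (norm_pos_iff.2 (hF0 0)) j)
    by_contra h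
    push Not at h
    have h3 : C * Real.exp (C * ‖(0 : ℂ)‖) ≤ 0 := mul_nonpos_of_nonpos_of_nonneg h (Real.exp_pos _).le
    linarith
  have hbd : ∀ R : ℝ, 0 < R → u 0 ≤ C * Real.exp (C * R - a * R ^ 2) := by
    intro R hR
    refine max_principle (S := closedBall (0 : ℂ) R) (U := ball (0 : ℂ) R) (isCompact_closedBall 0 R) isOpen_ball ball_subset_closedBall
      (hcont.upperSemicontinuous.upperSemicontinuousOn _) (fun z _ hz => hsub z hz) (by positivity) ?_ 0 (by simp [hR.le])
    rintro z ⟨hz1, hz2⟩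
    have hzR : ‖z‖ = R := by
      rw [mem_closedBall_zero_iff] at hz1
      rw [mem_ball_zero_iff, not_lt] at hz2
      exact le_antisymm hz1 hz2
    rw [hu]
    have h1 := hup z
    rw [hzR] at h1
    show ‖w z‖ * ‖F z‖ ^ (j : ℝ) * Real.exp (-a * ‖z‖ ^ 2) ≤ _
    rw [Real.rpow_natCast, hzR, sub_eq_add_neg, Real.exp_add, ← mul_assoc, ← neg_mul]
    exact mul_le_mul_of_nonneg_right h1 (Real.exp_pos _).le
  -- `C R - a R ^ 2 → -∞`
  have hlim : Tendsto (fun R : ℝ => C * Real.exp (C * R - a * R ^ 2)) atTop (𝓝 0) := by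
    have h1 : Tendsto (fun R : ℝ => C * R - a * R ^ 2) atTop atBot := by
      have h2 : (fun R : ℝ => C * R - a * R ^ 2) = fun R : ℝ => R * (C - a * R) := by
        funext R; ring
      rw [h2]
      refine Tendsto.atTop_mul_atBot₀ tendsto_id ?_
      have h3 : Tendsto (fun R : ℝ => a * R) atTop atTop := Tendsto.const_mul_atTop ha0 tendsto_id
      have h4 : Tendsto (fun R : ℝ => C + -(a * R)) atTop atBot := tendsto_atBot_add_const_left _ C (tendsto_neg_atTop_atBot.comp h3)
      simpa [sub_eq_add_neg] using h4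
    have h5 := (Real.tendsto_exp_atBot.comp h1).const_mul C
    simpa using h5
  have h6 : ∀ᶠ R : ℝ in atTop, C * Real.exp (C * R - a * R ^ 2) < u 0 := hlim.eventually_lt_const hu0
  obtain ⟨R, hR1, hR2⟩ := (h6.and (eventually_gt_atTop (0 : ℝ))).exists
  exact absurd (hbd R hR2) (not_le.2 hR1)

end Pool.Agent.GG

end

section

/-!
# Et Defs: finite etale coverings of projective varieties
-/

set_option autoImplicit false

open Topology Filter MvPolynomial

noncomputable section

namespace Pool.Agent.H62.Et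

open Pool.Agent.H17 (PN VanishesAt HolomorphicInto)
open Pool.Agent.H17EF (projVar LE)
open Pool.Agent.H62.EF (MN pr)

variable {N M : ℕ}

/-- the embedding of the projective space in the space of matrices -/
def pn (x : PN N) : MN N := pr ((LE N) x.rep)

end Pool.Agent.H62.Et

end
end

section

/-!
# Et Hat: the embedding of the projective space in the space of matrices

`pn x = pr ((LE N) x.rep)`.  Everything from Pool.Agent.H62.EF.PrA: `pr_smul`, `pr_eq_iff`, `continuousAt_pr`, `isCompact_pr`, `near_of_pr`.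
* `pn_mk`: `Projectivization.exists_smul_eq_mk_rep` and `pr_smul`.
* `pn_injective`: `pr_eq_iff` and `Projectivization.mk_eq_mk_iff'`, `Projectivization.mk_rep`.
* `pn_near`: `near_of_pr` at `(LE N) x` with the preimage of `U` under `(LE N).symm`; `x' = c • y.rep`.
* `pn_continuousAt`: `pn_mk`, `continuousAt_pr`, congruence near `a` (use `hf.self_of_nhds` for `φ a ≠ 0`).
* `pn_continuous`: `HolomorphicInto f univ` gives local analytic lifts.
* `isCompact_pn`: `pn '' projVar P = pr '' coneE P` (`mem_coneE`), and `coneE P` is a cone which is closed together with `0` (structure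
  `Pool.Agent.H14.PP.IsCone`: zero_notMem, smul_mem, closed; the set `{y | ∀ Q ∈ P, eval ((LE N).symm y) Q = 0}` is closed and equal to `insert 0 (coneE P)`,
  or take closed = zeros of the ideal; if `0` is not a zero of `P` then `P = ⊤` and everything is empty), `isCompact_pr`.
-/

set_option autoImplicit false

open Topology Filter MvPolynomial

noncomputable section

namespace Pool.Agent.H62.Et

open Pool.Agent.H17 (PN VanishesAt HolomorphicInto)
open Pool.Agent.H62.FC (Homog)
open Pool.Agent.H17EF (projVar LE coneE mem_coneE)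
open Pool.Agent.H62.EF (MN pr)

variable {N : ℕ}

private theorem LE_ne {x : Fin (N + 1) → ℂ} (hx : x ≠ 0) : (LE N) x ≠ 0 := by
  intro h
  apply hx
  have := congrArg (LE N).symm h
  rwa [ContinuousLinearEquiv.symm_apply_apply, map_zero] at this

private theorem mk_smul_eq {x : Fin (N + 1) → ℂ} (hx : x ≠ 0) {c : ℂ} (h : c • x ≠ 0) :
    Projectivization.mk ℂ (c • x) h = Projectivization.mk ℂ x hx := by
  rw [Projectivization.mk_eq_mk_iff']
  exact ⟨c, rfl⟩

theorem pn_mk {x : Fin (N + 1) → ℂ} (hx : x ≠ 0) : pn (Projectivization.mk ℂ x hx) = pr ((LE N) x) := by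
  obtain ⟨a, ha, hrep⟩ := Pool.Agent.H36.BP.rep_mk hx
  unfold pn
  rw [hrep, map_smul]
  exact Pool.Agent.H62.EF.pr_smul _ ha

theorem pn_injective : Function.Injective (pn (N := N)) := by
  intro x y h
  have hx := x.rep_nonzero
  have hy := y.rep_nonzero
  obtain ⟨c, hc, e⟩ := (Pool.Agent.H62.EF.pr_eq_iff (LE_ne hx) (LE_ne hy)).1 h
  have e2 : x.rep = c • y.rep := by
    have := congrArg (LE N).symm e
    rwa [map_smul, ContinuousLinearEquiv.symm_apply_apply, ContinuousLinearEquiv.symm_apply_apply] at this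
  rw [← x.mk_rep, ← y.mk_rep, Projectivization.mk_eq_mk_iff']
  exact ⟨c, e2.symm⟩

theorem pn_near {x : Fin (N + 1) → ℂ} (hx : x ≠ 0) {U : Set (Fin (N + 1) → ℂ)} (hU : U ∈ 𝓝 x) :
    ∃ δ : ℝ, 0 < δ ∧ ∀ y : PN N, dist (pn y) (pn (Projectivization.mk ℂ x hx)) < δ → ∃ x' ∈ U, ∃ h : x' ≠ 0, y = Projectivization.mk ℂ x' h := by
  have hU' : (LE N).symm ⁻¹' U ∈ 𝓝 ((LE N) x) := by
    refine (LE N).symm.continuous.continuousAt.preimage_mem_nhds ?_
    rwa [ContinuousLinearEquiv.symm_apply_apply]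
  obtain ⟨δ, hδ, h⟩ := Pool.Agent.H62.EF.near_of_pr (LE_ne hx) hU'
  refine ⟨δ, hδ, fun y hy => ?_⟩
  rw [pn_mk hx] at hy
  obtain ⟨c, hc, hcU⟩ := h ((LE N) y.rep) (LE_ne y.rep_nonzero) hy
  rw [Set.mem_preimage, map_smul, ContinuousLinearEquiv.symm_apply_apply] at hcU
  have h0 : c • y.rep ≠ 0 := smul_ne_zero hc y.rep_nonzero
  refine ⟨c • y.rep, hcU, h0, ?_⟩
  rw [mk_smul_eq y.rep_nonzero h0, y.mk_rep]

theorem pn_continuousAt {A : Type} [TopologicalSpace A] {φ : A → Fin (N + 1) → ℂ} {a : A} (hφ : ContinuousAt φ a) {f : A → PN N}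
    (hf : ∀ᶠ b in 𝓝 a, ∃ h : φ b ≠ 0, f b = Projectivization.mk ℂ (φ b) h) : ContinuousAt (fun b => pn (f b)) a := by
  obtain ⟨h0, -⟩ := hf.self_of_nhds
  have h1 : ContinuousAt (fun b => pr ((LE N) (φ b))) a :=
    ContinuousAt.comp (g := pr) (f := fun b => (LE N) (φ b)) (Pool.Agent.H62.EF.continuousAt_pr (LE_ne h0))
      ((LE N).continuous.continuousAt.comp hφ)
  refine h1.congr ?_
  filter_upwards [hf] with b hb
  obtain ⟨h, e⟩ := hb
  rw [e, pn_mk h]

theorem pn_continuous {f : ℂ → PN N} (hf : HolomorphicInto f Set.univ) : Continuous fun z => pn (f z) := by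
  rw [continuous_iff_continuousAt]
  intro z
  obtain ⟨φ, h1, h2⟩ := hf z (Set.mem_univ z)
  exact pn_continuousAt h1.continuousAt h2

private theorem isCone_coneE {P : Ideal (MvPolynomial (Fin (N + 1)) ℂ)} (hP : Homog P) :
    Pool.Agent.H14.PP.IsCone (coneE P) where
  zero_notMem h := by
    obtain ⟨h1, -⟩ := (mem_coneE hP).1 h
    exact h1 (map_zero _)
  smul_mem x hx c hc := by
    obtain ⟨h1, h2⟩ := (mem_coneE hP).1 hx
    refine (mem_coneE hP).2 ?_
    have h3 : (LE N).symm (c • x) = c • (LE N).symm x := map_smul _ _ _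
    have h4 : (LE N).symm (c • x) ≠ 0 := by
      rw [h3]
      exact smul_ne_zero hc h1
    refine ⟨h4, ?_⟩
    have h5 : Projectivization.mk ℂ ((LE N).symm (c • x)) h4 = Projectivization.mk ℂ ((LE N).symm x) h1 := by
      rw [Projectivization.mk_eq_mk_iff']
      exact ⟨c, h3.symm⟩
    rw [h5]
    exact h2
  closed := by
    by_cases h0 : ∀ Q ∈ P, eval (0 : Fin (N + 1) → ℂ) Q = 0
    · have e : insert 0 (coneE P) = ⋂ Q ∈ P, {y | eval ((LE N).symm y) Q = 0} := by
        ext y
        rw [Set.mem_insert_iff, Set.mem_iInter₂]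
        constructor
        · rintro (rfl | hy)
          · intro Q hQ
            rw [Set.mem_ofPred_eq, map_zero]
            exact h0 Q hQ
          · intro Q hQ
            exact hy.2 Q hQ
        · intro h
          by_cases hy : (LE N).symm y = 0
          · left
            have := congrArg (LE N) hy
            rwa [ContinuousLinearEquiv.apply_symm_apply, map_zero] at this
          · right
            exact ⟨hy, fun Q hQ => h Q hQ⟩
      rw [e]
      refine isClosed_biInter fun Q _ => ?_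
      refine isClosed_eq ?_ continuous_const
      exact (MvPolynomial.continuous_eval Q).comp (LE N).symm.continuous
    · have e : coneE P = ∅ := by
        rw [Set.eq_empty_iff_forall_notMem]
        intro y hy
        apply h0
        intro Q hQ
        have h1 := hP Q hQ 0
        rw [homogeneousComponent_zero] at h1
        have h2 := hy.2 _ h1
        rw [eval_C] at h2
        have h3 : eval (0 : Fin (N + 1) → ℂ) Q = coeff 0 Q := by
          rw [← constantCoeff_eq, MvPolynomial.eval_zero]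
        rw [h3, h2]
      rw [e]
      simp

theorem isCompact_pn {P : Ideal (MvPolynomial (Fin (N + 1)) ℂ)} (hP : Homog P) : IsCompact (pn '' projVar P) := by
  have e : pn '' projVar P = pr '' coneE P := by
    ext m
    constructor
    · rintro ⟨x, hx, rfl⟩
      refine ⟨(LE N) x.rep, (mem_coneE hP).2 ?_, rfl⟩
      have h1 : (LE N).symm ((LE N) x.rep) = x.rep := ContinuousLinearEquiv.symm_apply_apply _ _
      have h2 : (LE N).symm ((LE N) x.rep) ≠ 0 := by
        rw [h1]
        exact x.rep_nonzero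
      refine ⟨h2, ?_⟩
      have h3 : Projectivization.mk ℂ ((LE N).symm ((LE N) x.rep)) h2 = x := by
        refine Eq.trans ?_ x.mk_rep
        rw [Projectivization.mk_eq_mk_iff']
        exact ⟨1, by rw [one_smul, h1]⟩
      rw [h3]
      exact hx
    · rintro ⟨y, hy, rfl⟩
      obtain ⟨h, h'⟩ := (mem_coneE hP).1 hy
      refine ⟨_, h', ?_⟩
      rw [pn_mk h, ContinuousLinearEquiv.apply_symm_apply]
  rw [e]
  exact Pool.Agent.H62.EF.isCompact_pr (isCone_coneE hP)

end Pool.Agent.H62.Et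

end
end

section

/-!
# GG Kd Drv: derivations, and forms regular along all divisors are regular where `J ≠ 0`
-/

set_option autoImplicit false

open MvPolynomial
open Pool.Agent.H23 (dualDer dualDer_coord fc)
open Pool.Agent.H23.Fano (Form regularForms PrimeDivisorOver)
open Pool.Agent.H17LG.Variety (PoleAtMost)

noncomputable section

namespace Pool.Agent.GG.Kd

variable {K : Type} [Field K] [Algebra ℂ K] {r k : ℕ}

/-- `J D a ∈ ℂ[y]` for `a ∈ ℂ[y]`, if `D (t j) ∈ ℂ[y]`. -/
theorem Dat.der_mem {y : Fin r → K} (d : Dat y k) (D : Derivation ℂ K K) (hD : ∀ j, D (d.t j) ∈ Algebra.adjoin ℂ (Set.range y)) {a : K}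
    (ha : a ∈ Algebra.adjoin ℂ (Set.range y)) : aeval y d.J * D a ∈ Algebra.adjoin ℂ (Set.range y) := by
  classical
  have hpol : ∀ A : MvPolynomial (Fin r) ℂ, aeval y A ∈ Algebra.adjoin ℂ (Set.range y) := fun A => by
    rw [Algebra.adjoin_range_eq_range_aeval]
    exact ⟨A, rfl⟩
  set PM : Matrix (Fin r) (Fin r) (MvPolynomial (Fin r) ℂ) := fun i l => pderiv l (d.G i) with hPM
  have hdet : PM.det = d.J := rfl
  set My : Matrix (Fin r) (Fin r) K := fun i l => aeval y (PM i l) with hMy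
  have hMydet : My.det = aeval y d.J := by
    rw [← hdet]
    exact ((aeval y : MvPolynomial (Fin r) ℂ →ₐ[ℂ] K).toRingHom.map_det PM).symm
  have hMyadj : ∀ i j, My.adjugate i j = aeval y (PM.adjugate i j) := fun i j =>
    (congrFun (congrFun ((aeval y : MvPolynomial (Fin r) ℂ →ₐ[ℂ] K).toRingHom.map_adjugate PM) i) j).symm
  have hG : ∀ i, D (aeval y (d.G i)) ∈ Algebra.adjoin ℂ (Set.range y) := by
    intro i
    rcases d.hG i with ⟨j, h⟩ | h
    · rw [h]
      exact hD j
    · rw [h, map_zero]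
      exact zero_mem _
  have hy : ∀ l, aeval y d.J * D (y l) ∈ Algebra.adjoin ℂ (Set.range y) := by
    intro l
    have h1 : My.mulVec (fun l => D (y l)) = fun i => D (aeval y (d.G i)) := by
      funext i
      rw [der_aeval]
      rfl
    have h2 : My.det * D (y l) = ∑ i, My.adjugate l i * D (aeval y (d.G i)) := by
      have h3 := congrArg (fun u => My.adjugate.mulVec u) h1
      simp only [Matrix.mulVec_mulVec, Matrix.adjugate_mul] at h3
      have h4 := congrFun h3 l
      rw [Matrix.smul_mulVec, Matrix.one_mulVec] at h4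
      exact h4
    rw [← hMydet, h2]
    refine sum_mem fun i _ => mul_mem ?_ (hG i)
    rw [hMyadj]
    exact hpol _
  rw [Algebra.adjoin_range_eq_range_aeval] at ha
  obtain ⟨A, rfl⟩ := ha
  have h1 : D (aeval y A) = ∑ l, aeval y (pderiv l A) * D (y l) := der_aeval D y A
  change aeval y d.J * D (aeval y A) ∈ _
  rw [h1, Finset.mul_sum]
  refine sum_mem fun l _ => ?_
  rw [mul_left_comm]
  exact mul_mem (hpol _) (hy l)

/-- the valuation ring -/
def valAlg (E : PrimeDivisorOver K k) : Subalgebra ℂ K where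
  carrier := {f | 0 ≤ E.ord f}
  mul_mem' := by
    intro a b ha hb
    change 0 ≤ E.ord (a * b)
    rw [E.ord.map_mul]
    exact add_nonneg ha hb
  add_mem' := by
    intro a b ha hb
    exact (le_min ha hb).trans (E.ord.map_add a b)
  algebraMap_mem' := fun c => E.ord_const c

theorem mem_valAlg (E : PrimeDivisorOver K k) (f : K) : f ∈ valAlg E ↔ 0 ≤ E.ord f := Iff.rfl

/-- division by an element of order zero -/
theorem valAlg_of_mul (E : PrimeDivisorOver K k) {f g : K} (hg : E.ord g = 0) (h : f * g ∈ valAlg E) : f ∈ valAlg E := by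
  rw [mem_valAlg, E.ord.map_mul, hg, add_zero] at h
  exact h

theorem Dat.t_mem {y : Fin r → K} (d : Dat y k) (j : Fin k) : d.t j ∈ Algebra.adjoin ℂ (Set.range y) := by
  rw [Algebra.adjoin_range_eq_range_aeval]
  exact ⟨lf (d.L j), rfl⟩

theorem Dat.union {y : Fin r → K} (d : Dat y k) : Algebra.adjoin ℂ (Set.range d.t ∪ Set.range y) = Algebra.adjoin ℂ (Set.range y) := by
  refine le_antisymm (Algebra.adjoin_le ?_) (Algebra.adjoin_mono Set.subset_union_right)
  rintro x (⟨j, rfl⟩ | ⟨i, rfl⟩)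
  · exact d.t_mem j
  · exact Algebra.subset_adjoin ⟨i, rfl⟩

theorem Dat.trace {y : Fin r → K} (d : Dat y k) (hgen : IntermediateField.adjoin ℂ (Set.range y) = ⊤) {c : K}
    (hc : IsIntegral (Algebra.adjoin ℂ (Set.range d.t)) c) : aeval y d.J * c ∈ Algebra.adjoin ℂ (Set.range y) := by
  rw [← d.union]
  refine trace_lemma d.basis y d.int ?_ d.G (fun i => ?_) hc
  · rw [eq_top_iff, ← hgen]
    exact IntermediateField.adjoin.mono _ _ _ Set.subset_union_right
  · rcases d.hG i with ⟨j, h⟩ | h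
    · rw [h]
      exact Algebra.subset_adjoin ⟨j, rfl⟩
    · rw [h]
      exact zero_mem _

theorem Dat.fin {y : Fin r → K} (d : Dat y k) (hgen : IntermediateField.adjoin ℂ (Set.range y) = ⊤) :
    FiniteDimensional (IntermediateField.adjoin ℂ (Set.range d.t)) K := by
  set F := IntermediateField.adjoin ℂ (Set.range d.t) with hF
  have h1 : ∀ i, IsIntegral F (y i) := by
    intro i
    obtain ⟨p, hp, hpa⟩ := d.int i
    have hle : Algebra.adjoin ℂ (Set.range fun j => aeval y (lf (d.L j))) ≤ F.toSubalgebra := IntermediateField.algebra_adjoin_le_adjoin ℂ _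
    refine ⟨p.map (Subalgebra.inclusion hle).toRingHom, hp.map _, ?_⟩
    rw [Polynomial.eval₂_map]
    exact hpa
  have h2 : IntermediateField.adjoin F (Set.range y) = ⊤ := by
    rw [eq_top_iff]
    intro x _
    have h3 : x ∈ IntermediateField.adjoin ℂ (Set.range y) := hgen ▸ IntermediateField.mem_top
    have h4 : IntermediateField.adjoin ℂ (Set.range y) ≤ (IntermediateField.adjoin F (Set.range y)).restrictScalars ℂ :=
      IntermediateField.adjoin_le_iff.2 (IntermediateField.subset_adjoin F _)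
    exact h4 h3
  have h3 : FiniteDimensional F (IntermediateField.adjoin F (Set.range y)) := by
    have : Finite (Set.range y) := Set.finite_range y
    exact IntermediateField.finiteDimensional_adjoin fun x hx => by
      obtain ⟨i, rfl⟩ := hx
      exact h1 i
  rw [h2] at h3
  exact Module.Finite.equiv (IntermediateField.topEquiv (F := F) (E := K)).toLinearEquiv

/-- the derivatives along a divisor -/
theorem Dat.der_val {y : Fin r → K} (d : Dat y k) (hgen : IntermediateField.adjoin ℂ (Set.range y) = ⊤) (E : PrimeDivisorOver K k)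
    (hE1 : ∀ b, IsIntegral (Algebra.adjoin ℂ (Set.range d.t)) b → 0 ≤ E.ord b)
    (hE2 : ∀ b, 0 ≤ E.ord b → ∃ b₁ b₂, IsIntegral (Algebra.adjoin ℂ (Set.range d.t)) b₁ ∧ IsIntegral (Algebra.adjoin ℂ (Set.range d.t)) b₂ ∧
        E.ord b₂ = 0 ∧ b * b₂ = b₁)
    (D : Derivation ℂ K K) (hD : ∀ j, D (d.t j) ∈ Algebra.adjoin ℂ (Set.range y)) {a : K} (ha : a ∈ valAlg E) :
    aeval y d.J ^ 2 * D a ∈ valAlg E := by
  have hle : Algebra.adjoin ℂ (Set.range y) ≤ valAlg E := by
    refine Algebra.adjoin_le ?_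
    rintro _ ⟨i, rfl⟩
    exact hE1 _ (d.int i)
  have hJ : aeval y d.J ∈ Algebra.adjoin ℂ (Set.range y) := by
    rw [Algebra.adjoin_range_eq_range_aeval]
    exact ⟨d.J, rfl⟩
  have h1 : ∀ b, IsIntegral (Algebra.adjoin ℂ (Set.range d.t)) b → aeval y d.J ^ 2 * D b ∈ valAlg E := by
    intro b hb
    have h2 := hle (d.der_mem D hD (d.trace hgen hb))
    have h3 := hle (d.der_mem D hD hJ)
    have h4 : aeval y d.J ^ 2 * D b = aeval y d.J * D (aeval y d.J * b) - b * (aeval y d.J * D (aeval y d.J)) := by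
      rw [Derivation.leibniz, smul_eq_mul, smul_eq_mul]
      ring
    rw [h4]
    exact sub_mem h2 (mul_mem (hE1 b hb) h3)
  obtain ⟨b₁, b₂, h2, h3, h4, h5⟩ := hE2 a ha
  refine valAlg_of_mul E h4 ?_
  have h6 : aeval y d.J ^ 2 * D a * b₂ = aeval y d.J ^ 2 * D b₁ - a * (aeval y d.J ^ 2 * D b₂) := by
    rw [← h5, Derivation.leibniz, smul_eq_mul, smul_eq_mul]
    ring
  rw [h6]
  exact sub_mem (h1 _ h2) (mul_mem ha (h1 _ h3))

/-- A form `H (W dt)^M` which is regular along all prime divisors with `y i` in the local ring is regular where `J ≠ 0`. -/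
theorem Dat.reg {y : Fin r → K} (d : Dat y k) (hgen : IntermediateField.adjoin ℂ (Set.range y) = ⊤) {M : ℕ} {H W : K}
    (h : ∀ E : PrimeDivisorOver K k, (∀ i, 0 ≤ E.ord (y i)) → PoleAtMost 0 E M H (Form.mk W d.t)) :
    aeval y d.J ^ (2 * k * M + 1) * (H * W ^ M) ∈ Algebra.adjoin ℂ (Set.range y) := by
  classical
  obtain ⟨b, hb⟩ := Pool.Agent.H23.exists_basis_kaehler d.basis
  have hb' : ∀ j, b j = KaehlerDifferential.D ℂ K (d.t j) := hb
  have hDt : ∀ i j, dualDer b i (d.t j) ∈ Algebra.adjoin ℂ (Set.range y) := by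
    intro i j
    rw [dualDer_coord b hb' i j]
    split_ifs
    · exact one_mem _
    · exact zero_mem _
  have hint : IsIntegral (Algebra.adjoin ℂ (Set.range d.t)) (aeval y d.J ^ (2 * k * M) * (H * W ^ M)) := by
    refine isIntegral_of_ord d.basis (d.fin hgen) fun E hE1 hE2 => ?_
    obtain ⟨g, η, hη, hω, hord⟩ := h E fun i => hE1 _ (d.int i)
    -- the coefficient of a regular form
    have hreg : ∀ η ∈ regularForms k E.localRing, aeval y d.J ^ (2 * k) * fc b η ∈ valAlg E := by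
      intro η hη
      induction hη using AddSubgroup.closure_induction with
      | mem x hx =>
        obtain ⟨c, a, hc, ha, rfl⟩ := hx
        have h2 : (Form.mk c a : Form K k) = c • exteriorPower.ιMulti K k (fun i => KaehlerDifferential.D ℂ K (a i)) := rfl
        rw [h2, map_smul, Pool.Agent.H23.fc_ιMulti, smul_eq_mul, Module.Basis.det_apply, mul_left_comm]
        refine mul_mem hc ?_
        have h3 : aeval y d.J ^ (2 * k) * (b.toMatrix fun i => KaehlerDifferential.D ℂ K (a i)).det =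
            (aeval y d.J ^ 2 • (b.toMatrix fun i => KaehlerDifferential.D ℂ K (a i))).det := by
          rw [Matrix.det_smul, Fintype.card_fin, pow_mul]
        rw [h3]
        refine Pool.Agent.H23.det_mem (valAlg E) _ fun i j => ?_
        rw [Matrix.smul_apply, smul_eq_mul]
        exact d.der_val hgen E hE1 hE2 (dualDer b i) (hDt i) (ha j)
      | zero =>
        have h2 : aeval y d.J ^ (2 * k) * fc b (0 : Form K k) = 0 := (congrArg _ (map_zero (fc b))).trans (mul_zero _)
        exact h2 ▸ zero_mem _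
      | add x y' _ _ hx hy =>
        have h2 : aeval y d.J ^ (2 * k) * fc b (x + y') = aeval y d.J ^ (2 * k) * fc b x + aeval y d.J ^ (2 * k) * fc b y' :=
          (congrArg _ (map_add (fc b) x y')).trans (mul_add _ _ _)
        rw [h2]
        exact add_mem hx hy
      | neg x _ hx =>
        have h2 : aeval y d.J ^ (2 * k) * fc b (-x) = -(aeval y d.J ^ (2 * k) * fc b x) :=
          (congrArg _ (map_neg (fc b) x)).trans (mul_neg _ _)
        rw [h2]
        exact neg_mem hx
    have hW : W = g * fc b η := by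
      have h1 : fc b (Form.mk W d.t) = W := by
        have h2 : (Form.mk W d.t : Form K k) = W • exteriorPower.ιMulti K k (fun i => b i) := by
          have h3 : (fun i => b i) = fun i => Pool.Agent.H23.Fano.d (d.t i) := funext hb'
          rw [h3]
          rfl
        rw [h2, map_smul, Pool.Agent.H23.fc_self, smul_eq_mul, mul_one]
      rw [← h1, hω]
      exact (map_smul (fc b) g η)
    have h2 : aeval y d.J ^ (2 * k * M) * (H * W ^ M) = (H * g ^ M) * (aeval y d.J ^ (2 * k) * fc b η) ^ M := by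
      rw [hW, mul_pow, mul_pow, pow_mul]
      ring
    rw [← mem_valAlg, h2]
    refine mul_mem ?_ (pow_mem (hreg η hη) M)
    rw [mem_valAlg]
    simpa using hord
  have h1 := d.trace hgen hint
  rw [← mul_assoc, ← pow_succ'] at h1
  exact h1

end Pool.Agent.GG.Kd

end
end

section

/-!
# GA HPl: from the punctured disc to the half-plane and back

`exists_HCurve`: `H36.BP.lift_punct` with `r = 3 / 4`, `F w = G (exp (-w) / 2)`; values in the cone because `f z ∈ projVar P`.
`extends_of_lim`: the representative of `f z` with the coordinate `a` equal to `1` is a holomorphic function near `0`: removable singularity.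
-/

set_option autoImplicit false

open MvPolynomial Topology Filter Metric
open Pool.Agent.H13.SM (conTan cone)
open Pool.Agent.H17 (PN VanishesAt HolomorphicInto puncturedDisc)
open Pool.Agent.H17EF (projVar)
open Pool.Agent.H62.FC (Homog)
open Pool.Agent.GG

namespace Pool.Agent.GA

variable {N : ℕ} {P : Ideal (MvPolynomial (Fin (N + 1)) ℂ)}

private theorem hpl_mem {w : ℂ} (hw : w ∈ HP) : Complex.exp (-w) / 2 ∈ ball (0 : ℂ) (3 / 4) \ {0} := by
  have hw' : 0 < w.re := hw
  have h1 : ‖Complex.exp (-w)‖ < 1 := by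
    rw [Complex.norm_exp, Complex.neg_re]
    exact Real.exp_lt_one_iff.mpr (by linarith)
  refine ⟨?_, ?_⟩
  · rw [mem_ball_zero_iff, norm_div, Complex.norm_ofNat]
    linarith
  · exact div_ne_zero (Complex.exp_ne_zero _) two_ne_zero

theorem exists_HCurve (hP : Homog P) {f : ℂ → PN N} (hf : HolomorphicInto f puncturedDisc) (hX : ∀ z ∈ puncturedDisc, f z ∈ projVar P) :
    ∃ F : ℂ → Fin (N + 1) → ℂ, HCurve P F ∧ ∀ w ∈ HP, ∃ h : F w ≠ 0, f (Complex.exp (-w) / 2) = Projectivization.mk ℂ (F w) h := by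
  obtain ⟨G, hGd, hGf⟩ := Pool.Agent.H36.BP.lift_punct hf (r := 3 / 4) (by norm_num) (by norm_num)
  have hsub : ball (0 : ℂ) (3 / 4) \ {0} ⊆ puncturedDisc := Set.sdiff_subset_sdiff_left (ball_subset_ball (by norm_num))
  refine ⟨fun w => (G (Complex.exp (-w) / 2)).ofLp, ⟨?_, ?_, ?_⟩, ?_⟩
  · intro w hw
    have hO : IsOpen (ball (0 : ℂ) (3 / 4) \ {0}) := isOpen_ball.sdiff isClosed_singleton
    have h1 : AnalyticAt ℂ G (Complex.exp (-w) / 2) := hGd.analyticAt (hO.mem_nhds (hpl_mem hw))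
    have h2 : AnalyticAt ℂ (fun w : ℂ => Complex.exp (-w) / 2) w := by fun_prop
    have h3 : AnalyticAt ℂ (fun w : ℂ => G (Complex.exp (-w) / 2)) w := AnalyticAt.comp (g := G) h1 h2
    exact ((Pool.Agent.H17EF.LE N).symm.toContinuousLinearMap.analyticAt _).comp h3
  · intro w hw
    obtain ⟨h1, h2⟩ := hGf _ (hpl_mem hw)
    have h3 := hX _ (hsub (hpl_mem hw))
    rw [h2] at h3
    exact (Pool.Agent.H17EF.mk_mem_projVar hP h1).1 h3
  · intro w _
    have h1 : Complex.exp (-(w + per)) = Complex.exp (-w) := by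
      rw [neg_add, Complex.exp_add]
      have h2 : Complex.exp (-per) = 1 := by
        rw [Complex.exp_neg]
        unfold per
        rw [Complex.exp_two_pi_mul_I, inv_one]
      rw [h2, mul_one]
    simp only [h1]
  · intro w hw
    obtain ⟨h1, h2⟩ := hGf _ (hpl_mem hw)
    exact ⟨h1, h2⟩

/-- the representative whose coordinate `a` is `1` -/
private noncomputable def nrm (a : Fin (N + 1)) (p : PN N) : Fin (N + 1) → ℂ := (p.rep a)⁻¹ • p.rep

private theorem nrm_mk (a : Fin (N + 1)) {x : Fin (N + 1) → ℂ} (hx : x ≠ 0) : nrm a (Projectivization.mk ℂ x hx) = (x a)⁻¹ • x := by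
  obtain ⟨c, hc, hrep⟩ := Pool.Agent.H36.BP.rep_mk hx
  unfold nrm
  rw [hrep, Pi.smul_apply, smul_smul, smul_eq_mul, mul_inv]
  congr 1
  field_simp

private theorem mk_congr {x y : Fin (N + 1) → ℂ} (h : x = y) (hx : x ≠ 0) : ∃ hy : y ≠ 0, Projectivization.mk ℂ x hx = Projectivization.mk ℂ y hy := by
  subst h
  exact ⟨hx, rfl⟩

theorem extends_of_lim {f : ℂ → PN N} (hf : HolomorphicInto f puncturedDisc) {F : ℂ → Fin (N + 1) → ℂ}
    (hF : ∀ w ∈ HP, ∃ h : F w ≠ 0, f (Complex.exp (-w) / 2) = Projectivization.mk ℂ (F w) h)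
    {a : Fin (N + 1)} {L : Fin (N + 1) → ℂ} (ha : ∀ᶠ w in comap Complex.re atTop, F w a ≠ 0)
    (hL : Tendsto (fun w => (F w a)⁻¹ • F w) (comap Complex.re atTop) (𝓝 L)) :
    ∃ g : ℂ → PN N, HolomorphicInto g (ball 0 1) ∧ ∀ z ∈ puncturedDisc, g z = f z := by
  classical
  -- the inverse of `w ↦ exp (-w) / 2`
  set W : ℂ → ℂ := fun z => -Complex.log (2 * z) with hW
  have hWe : ∀ z : ℂ, z ≠ 0 → Complex.exp (-W z) / 2 = z := by
    intro z hz
    rw [hW]
    simp only [neg_neg]
    rw [Complex.exp_log (mul_ne_zero two_ne_zero hz), mul_div_cancel_left₀ _ two_ne_zero]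
  have hWt : Tendsto W (𝓝[≠] 0) (comap Complex.re atTop) := by
    rw [tendsto_comap_iff]
    have h1 : (Complex.re ∘ W) = fun z => -Real.log ‖2 * z‖ := by
      funext z
      simp only [hW, Function.comp_apply, Complex.neg_re, Complex.log_re]
    rw [h1]
    have h2 : Tendsto (fun z : ℂ => ‖2 * z‖) (𝓝[≠] 0) (𝓝[>] 0) := by
      rw [tendsto_nhdsWithin_iff]
      refine ⟨?_, ?_⟩
      · have h3 : ContinuousAt (fun z : ℂ => ‖2 * z‖) 0 := by fun_prop
        have h4 := h3.tendsto.mono_left (nhdsWithin_le_nhds (s := {(0 : ℂ)}ᶜ))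
        simpa using h4
      · filter_upwards [self_mem_nhdsWithin] with z hz
        have hz' : z ≠ 0 := hz
        exact norm_pos_iff.2 (mul_ne_zero two_ne_zero hz')
    exact tendsto_neg_atBot_atTop.comp (Real.tendsto_log_nhdsGT_zero.comp h2)
  have hWHP : ∀ᶠ z in 𝓝[≠] (0 : ℂ), W z ∈ HP :=
    hWt.eventually (show ∀ᶠ w in comap Complex.re atTop, w ∈ HP from (eventually_gt_atTop (0 : ℝ)).comap Complex.re)
  have hne : ∀ᶠ z in 𝓝[≠] (0 : ℂ), z ≠ 0 := self_mem_nhdsWithin
  have hball : ∀ᶠ z in 𝓝[≠] (0 : ℂ), z ∈ ball (0 : ℂ) 1 := nhdsWithin_le_nhds (ball_mem_nhds _ one_pos)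
  have hWa : ∀ᶠ z in 𝓝[≠] (0 : ℂ), F (W z) a ≠ 0 := hWt.eventually ha
  -- `f z` in the punctured neighbourhood
  have hfz : ∀ᶠ z in 𝓝[≠] (0 : ℂ), nrm a (f z) = (F (W z) a)⁻¹ • F (W z) ∧ nrm a (f z) a = 1 ∧
      ∃ h : nrm a (f z) ≠ 0, f z = Projectivization.mk ℂ (nrm a (f z)) h := by
    filter_upwards [hWHP, hne, hWa] with z h1 h2 h3
    obtain ⟨h4, h5⟩ := hF _ h1
    rw [hWe z h2] at h5
    have h6 : nrm a (f z) = (F (W z) a)⁻¹ • F (W z) := by rw [h5, nrm_mk]
    have h7 : nrm a (f z) a = 1 := by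
      rw [h6, Pi.smul_apply, smul_eq_mul, inv_mul_cancel₀ h3]
    have h8 : nrm a (f z) ≠ 0 := fun h9 => by
      rw [h9] at h7
      exact zero_ne_one h7
    have h9 : (F (W z) a)⁻¹ • F (W z) ≠ 0 := h6 ▸ h8
    have h10 : f z = Projectivization.mk ℂ ((F (W z) a)⁻¹ • F (W z)) h9 := by
      rw [h5, Projectivization.mk_eq_mk_iff']
      exact ⟨F (W z) a, by rw [smul_smul, mul_inv_cancel₀ h3, one_smul]⟩
    obtain ⟨h11, h12⟩ := mk_congr h6.symm h9
    exact ⟨h6, h7, h11, h10.trans h12⟩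
  have hlim : Tendsto (fun z => nrm a (f z)) (𝓝[≠] 0) (𝓝 L) := by
    refine (hL.comp hWt).congr' ?_
    filter_upwards [hfz] with z hz
    exact hz.1.symm
  have hLa : L a = 1 := by
    have h1 : Tendsto (fun z => nrm a (f z) a) (𝓝[≠] (0 : ℂ)) (𝓝 (L a)) := (tendsto_pi_nhds.1 hlim) a
    have h2 : Tendsto (fun z => nrm a (f z) a) (𝓝[≠] (0 : ℂ)) (𝓝 1) := by
      refine tendsto_const_nhds.congr' ?_
      filter_upwards [hfz] with z hz
      exact hz.2.1.symm
    exact tendsto_nhds_unique h1 h2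
  have hL0 : L ≠ 0 := fun h => by
    rw [h] at hLa
    exact zero_ne_one hLa
  -- the extension
  set φ : ℂ → Fin (N + 1) → ℂ := Function.update (fun z => nrm a (f z)) 0 L with hφ
  have hφe : ∀ z : ℂ, z ≠ 0 → φ z = nrm a (f z) := fun z hz => Function.update_of_ne hz _ _
  have hφ0 : φ 0 = L := Function.update_self _ _ _
  have hφc : ContinuousAt φ 0 := by
    rw [continuousAt_iff_punctured_nhds, hφ0]
    refine hlim.congr' ?_
    filter_upwards [hne] with z hz
    exact (hφe z hz).symm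
  have hφd : ∀ᶠ z in 𝓝[≠] (0 : ℂ), DifferentiableAt ℂ φ z := by
    filter_upwards [hne, hball, hfz] with z h1 h2 h4
    obtain ⟨ψ, hψ, hψf⟩ := hf z ⟨h2, h1⟩
    have h5 : ψ z a ≠ 0 := by
      obtain ⟨h6, h7⟩ := hψf.self_of_nhds
      intro h8
      have h9 := h4.2.1
      rw [h7, nrm_mk, Pi.smul_apply, h8, smul_zero] at h9
      exact zero_ne_one h9
    have h6 : DifferentiableAt ℂ (fun z => (ψ z a)⁻¹ • ψ z) z := by
      have h7 : DifferentiableAt ℂ (fun z => ψ z a) z := differentiableAt_pi.1 hψ.differentiableAt a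
      exact (h7.inv h5).smul hψ.differentiableAt
    refine h6.congr_of_eventuallyEq ?_
    filter_upwards [hψf, eventually_ne_nhds h1] with y h7 h8
    obtain ⟨h9, h10⟩ := h7
    rw [hφe y h8, h10, nrm_mk]
  have hφa : AnalyticAt ℂ φ 0 := Complex.analyticAt_of_differentiable_on_punctured_nhds_of_continuousAt hφd hφc
  refine ⟨fun z => if z = 0 then Projectivization.mk ℂ L hL0 else f z, ?_, ?_⟩
  · intro z₀ hz₀
    by_cases h0 : z₀ = 0
    · subst h0
      refine ⟨φ, hφa, ?_⟩
      have h1 : ∀ᶠ z in 𝓝 (0 : ℂ), z ≠ 0 → ∃ h : nrm a (f z) ≠ 0, f z = Projectivization.mk ℂ (nrm a (f z)) h :=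
        eventually_nhdsWithin_iff.1 (hfz.mono fun z hz => hz.2.2)
      filter_upwards [h1] with z hz
      by_cases h2 : z = 0
      · subst h2
        simp only [if_true]
        exact mk_congr hφ0.symm hL0
      · obtain ⟨h3, h4⟩ := hz h2
        simp only [if_neg h2]
        obtain ⟨h5, h6⟩ := mk_congr (hφe z h2).symm h3
        exact ⟨h5, h4.trans h6⟩
    · obtain ⟨ψ, hψ, hψf⟩ := hf z₀ ⟨hz₀, h0⟩
      refine ⟨ψ, hψ, ?_⟩
      filter_upwards [hψf, eventually_ne_nhds h0] with z h1 h2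
      simp only [if_neg h2]
      exact h1
  · intro z hz
    simp only [if_neg (show z ≠ 0 from hz.2)]

end Pool.Agent.GA

end

section

/-!
# GG Core: the points of the arcs of one type lie in a hypersurface

Suppose the `x`-parts of the initial vectors `(x, v)` of arcs (of the type given by the rows `I` and the coordinate `b` with `v_b ≠ 0`) are Zariski dense.  They contain a germ of a manifold `Y (u)` whose `x`-part has rank `n + 1` (`dichotomy`, `exists_germ`).  Choose `n` directions transverse to `v` (`exists_dirs`);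
the entire curves with these initial vectors form a holomorphic family (`exists_curves`), and the section of `K^M (-1)` vanishes at the point at time `0` (`one_var`), although the `n + 1` vectors are independent modulo `x`: a contradiction.
-/

set_option autoImplicit false

open MvPolynomial Topology Filter Metric
open Pool.Agent.H13.SM (conTan cone)
open Pool.Agent.H17 (PN)

namespace Pool.Agent.GG

variable {N : ℕ} {P : Ideal (MvPolynomial (Fin (N + 1)) ℂ)} {J : ℕ} {m : Fin J → ℕ} {θ : ∀ k, SymSec P (m k)}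

theorem exists_dirs {V W : Type} [AddCommGroup V] [Module ℂ V] [AddCommGroup W] [Module ℂ W] {n : ℕ} (E : V →ₗ[ℂ] W) (π : W →ₗ[ℂ] (Fin (n + 1) → ℂ))
    (h : Function.Surjective (π.comp E)) {v₀ : W} (hv : v₀ ≠ 0) :
    ∃ s : Fin n → V, ∀ (β : ℂ) (γ : Fin n → ℂ), β • v₀ + ∑ j, γ j • E (s j) = 0 → β = 0 ∧ γ = 0 := by
  classical
  have h0 : ∀ i : Fin (n + 1), ∃ t : V, π (E t) = Pi.single i 1 := fun i => h _
  choose t ht using h0
  obtain ⟨i, hi⟩ : ∃ i : Fin (n + 1), π v₀ = 0 ∨ π v₀ i ≠ 0 := by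
    by_cases h1 : π v₀ = 0
    · exact ⟨0, Or.inl h1⟩
    · obtain ⟨i, hi⟩ : ∃ i, π v₀ i ≠ 0 := by
        by_contra hcon
        push Not at hcon
        exact h1 (funext hcon)
      exact ⟨i, Or.inr hi⟩
  refine ⟨fun j => t (i.succAbove j), fun β γ hβ => ?_⟩
  have h1 : β • π v₀ + ∑ j, γ j • (Pi.single (i.succAbove j) 1 : Fin (n + 1) → ℂ) = 0 := by
    have := congrArg π hβ
    rw [map_add, map_smul, map_sum, map_zero] at this
    rw [← this]
    congr 1
    refine Finset.sum_congr rfl fun j _ => ?_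
    rw [map_smul, ht]
  have h2 : β = 0 ∨ π v₀ = 0 := by
    rcases hi with hi | hi
    · exact Or.inr hi
    · left
      have h3 := congrFun h1 i
      simp only [Pi.add_apply, Pi.smul_apply, smul_eq_mul, Finset.sum_apply, Pi.zero_apply] at h3
      rw [Finset.sum_eq_zero, add_zero] at h3
      · exact (mul_eq_zero.1 h3).resolve_right hi
      · intro j _
        rw [Pi.single_eq_of_ne (Fin.succAbove_ne i j).symm, mul_zero]
  have h3 : β • π v₀ = 0 := by
    rcases h2 with h2 | h2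
    · rw [h2, zero_smul]
    · rw [h2, smul_zero]
  have h4 : γ = 0 := by
    funext j
    rw [h3, zero_add] at h1
    have h5 := congrFun h1 (i.succAbove j)
    simp only [Pi.smul_apply, smul_eq_mul, Finset.sum_apply, Pi.zero_apply] at h5
    rw [Finset.sum_eq_single j] at h5
    · simpa using h5
    · intro k _ hk
      rw [Pi.single_eq_of_ne (fun h => hk (Fin.succAbove_right_injective h).symm), mul_zero]
    · simp
  refine ⟨?_, h4⟩
  rw [h4] at hβ
  simp only [Pi.zero_apply, zero_smul, Finset.sum_const_zero, add_zero] at hβ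
  exact (smul_eq_zero.1 hβ).resolve_right hv

end Pool.Agent.GG

end

section

/-!
# GT Res: the restriction of symmetric differentials to closed subvarieties

`Polar` and `Generated` are inherited: both speak about the vectors of the Zariski tangent spaces.
-/

set_option autoImplicit false

open MvPolynomial
open Pool.Agent.H13.SM (conTan cone)
open Pool.Agent.GG (SymSec)
open Pool.Agent.GB (Generated)

noncomputable section

namespace Pool.Agent.GT

variable {N : ℕ} {P Q : Ideal (MvPolynomial (Fin (N + 1)) ℂ)}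

theorem cone_mono (h : P ≤ Q) {x : Fin (N + 1) → ℂ} (hx : x ∈ cone Q) : x ∈ cone P := ⟨hx.1, fun R hR => hx.2 R (h hR)⟩

theorem conTan_mono (h : P ≤ Q) {x v : Fin (N + 1) → ℂ} (hv : v ∈ conTan Q x) : v ∈ conTan P x := fun R hR => hv R (h hR)

/-- the restriction of a symmetric differential -/
def res {m : ℕ} (h : P ≤ Q) (t : SymSec P m) : SymSec Q m where
  toFun := t.toFun
  regular i := by
    obtain ⟨e, A, hA⟩ := t.regular i
    exact ⟨e, A, fun x hx v hv => hA x (cone_mono h hx) v (conTan_mono h hv)⟩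
  add_smul x hx v hv a := t.add_smul x (cone_mono h hx) v (conTan_mono h hv) a
  smul x hx v hv a := t.smul x (cone_mono h hx) v (conTan_mono h hv) a
  scale x hx v hv c hc := t.scale x (cone_mono h hx) v (conTan_mono h hv) c hc

theorem generated_res (h : P ≤ Q) {J m : ℕ} {θ : Fin J → SymSec P m} (hθ : Generated θ) : Generated fun k => res h (θ k) := by
  intro x hx G hG hinv
  obtain ⟨c, hc⟩ := hθ x (cone_mono h hx) G hG hinv
  exact ⟨c, fun v hv => hc v (conTan_mono h hv)⟩

end Pool.Agent.GT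

end
end

section

/-!
# Qe Loc: a map which is etale over an open subset is a local homeomorphism over it (adapted from `Pool.Agent.H62.Et.Loc`)
-/

set_option autoImplicit false

open Topology Filter MvPolynomial

noncomputable section

namespace Pool.Agent.H62.Qe

open Pool.Agent.H17 (PN VanishesAt HolomorphicInto)
open Pool.Agent.H62.FC (Homog)
open Pool.Agent.H17EF (projVar LE)
open Pool.Agent.H7.Bir (vals rmap)
open Pool.Agent.H62.EF (MN pr)
open Pool.Agent.H62.SA (locVar)
open Pool.Agent.H62.Et (pn pn_mk pn_injective pn_near pn_continuousAt pn_continuous isCompact_pn)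

variable {N M : ℕ} {P : Ideal (MvPolynomial (Fin (N + 1)) ℂ)} {P' : Ideal (MvPolynomial (Fin (M + 1)) ℂ)} {p : PN M → PN N}

/-- the product of a matrix with a vector -/
private def mA (x₀ : Fin (N + 1) → ℂ) (m : MN N) : Fin (N + 1) → ℂ := fun i => ∑ j, m (i, j) * x₀ j

/-- the scalar product of `x₀` with the product of the matrix with `x₀` -/
private def mB (x₀ : Fin (N + 1) → ℂ) (m : MN N) : ℂ := ∑ i, (starRingEnd ℂ) (x₀ i) * mA x₀ m i

private def sA (x₀ x : Fin (N + 1) → ℂ) : ℂ := ∑ i, (starRingEnd ℂ) (x₀ i) * x i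

private theorem continuous_mA (x₀ : Fin (N + 1) → ℂ) : Continuous (mA x₀) := by
  refine continuous_pi fun i => ?_
  refine continuous_finsetSum _ fun j _ => ?_
  exact (PiLp.continuous_apply 2 _ (i, j)).mul continuous_const

private theorem continuous_mB (x₀ : Fin (N + 1) → ℂ) : Continuous (mB x₀) := by
  refine continuous_finsetSum _ fun i _ => ?_
  exact continuous_const.mul ((continuous_apply i).comp (continuous_mA x₀))

private theorem sA_self (x : Fin (N + 1) → ℂ) : sA x x = ((‖(LE N) x‖ ^ 2 : ℝ) : ℂ) := by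
  rw [EuclideanSpace.norm_sq_eq, sA, Complex.ofReal_sum]
  refine Finset.sum_congr rfl fun i _ => ?_
  rw [Complex.conj_mul']
  push_cast
  rfl

private theorem sA_self_ne {x : Fin (N + 1) → ℂ} (hx : x ≠ 0) : sA x x ≠ 0 := by
  rw [sA_self]
  have h1 : (LE N) x ≠ 0 := fun h => hx ((LE N).map_eq_zero_iff.mp h)
  have h2 : ‖(LE N) x‖ ≠ 0 := norm_ne_zero_iff.mpr h1
  exact_mod_cast pow_ne_zero 2 h2

private theorem mA_pr (x₀ x : Fin (N + 1) → ℂ) : mA x₀ (pr ((LE N) x)) = (sA x x₀ / sA x x) • x := by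
  funext i
  rw [sA_self]
  simp only [mA, Pi.smul_apply, smul_eq_mul]
  rw [div_mul_eq_mul_div, sA, Finset.sum_mul, Finset.sum_div]
  refine Finset.sum_congr rfl fun j _ => ?_
  have h1 : (pr ((LE N) x)) (i, j) = x i * (starRingEnd ℂ) (x j) / ((‖(LE N) x‖ ^ 2 : ℝ) : ℂ) := rfl
  rw [h1]
  ring

private theorem mB_pr (x₀ x : Fin (N + 1) → ℂ) : mB x₀ (pr ((LE N) x)) = sA x x₀ / sA x x * sA x₀ x := by
  rw [mB, mA_pr]
  rw [show sA x₀ x = ∑ i, (starRingEnd ℂ) (x₀ i) * x i from rfl, Finset.mul_sum]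
  refine Finset.sum_congr rfl fun i _ => ?_
  rw [Pi.smul_apply, smul_eq_mul]
  ring

/-- a representative of the line depending continuously on the matrix -/
private theorem exists_nu {x₀ : Fin (N + 1) → ℂ} (hx₀ : x₀ ≠ 0) : ∃ ν : MN N → Fin (N + 1) → ℂ,
    ν (pn (Projectivization.mk ℂ x₀ hx₀)) = x₀ ∧ ∀ᶠ m in 𝓝 (pn (Projectivization.mk ℂ x₀ hx₀)), ContinuousAt ν m ∧
      ∀ y : PN N, pn y = m → ∃ h : ν m ≠ 0, y = Projectivization.mk ℂ (ν m) h := by
  have hS := sA_self_ne hx₀
  refine ⟨fun m => (sA x₀ x₀ / mB x₀ m) • mA x₀ m, ?_, ?_⟩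
  · show (sA x₀ x₀ / mB x₀ _) • mA x₀ _ = x₀
    rw [pn_mk, mA_pr, mB_pr, div_self hS, one_mul, one_smul, div_self hS, one_smul]
  · have h1 : mB x₀ (pn (Projectivization.mk ℂ x₀ hx₀)) ≠ 0 := by
      rw [pn_mk, mB_pr, div_self hS, one_mul]
      exact hS
    filter_upwards [(continuous_mB x₀).continuousAt.eventually_ne h1] with m hm
    refine ⟨?_, fun y hy => ?_⟩
    · exact (continuousAt_const.div (continuous_mB x₀).continuousAt hm).smul (continuous_mA x₀).continuousAt
    · have h2 : m = pr ((LE N) y.rep) := hy.symm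
      have h3 : sA y.rep x₀ / sA y.rep y.rep ≠ 0 := by
        intro h
        rw [h2, mB_pr, h, zero_mul] at hm
        exact hm rfl
      have h5 : (sA x₀ x₀ / mB x₀ m) * (sA y.rep x₀ / sA y.rep y.rep) ≠ 0 := mul_ne_zero (div_ne_zero hS hm) h3
      have h6 : (sA x₀ x₀ / mB x₀ m) • mA x₀ m = ((sA x₀ x₀ / mB x₀ m) * (sA y.rep x₀ / sA y.rep y.rep)) • y.rep := by
        rw [mul_smul, ← mA_pr, ← h2]
      have h7 : (sA x₀ x₀ / mB x₀ m) • mA x₀ m ≠ 0 := by
        rw [h6]
        exact smul_ne_zero h5 y.rep_nonzero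
      refine ⟨h7, ?_⟩
      rw [← Projectivization.mk_rep y, Projectivization.mk_eq_mk_iff']
      refine ⟨((sA x₀ x₀ / mB x₀ m) * (sA y.rep x₀ / sA y.rep y.rep))⁻¹, ?_⟩
      show _ • ((sA x₀ x₀ / mB x₀ m) • mA x₀ m) = _
      rw [h6, smul_smul, inv_mul_cancel₀ h5, one_smul]

/-- the covering as a map of subsets of matrix spaces -/
theorem exists_hat {s s' : ℕ} {G : Fin s → MvPolynomial (Fin (N + 1)) ℂ} {G' : Fin s' → MvPolynomial (Fin (M + 1)) ℂ}
    (hp : IsEtaleOver P P' G G' p) : ∃ ph : (pn '' projVar P') → (pn '' projVar P),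
    (∀ (y : PN M) (hy : y ∈ projVar P'), ph ⟨pn y, Set.mem_image_of_mem pn hy⟩ = ⟨pn (p y), Set.mem_image_of_mem pn (hp.reg.maps y hy)⟩) ∧
      Continuous ph ∧ Function.Surjective ph ∧ ∀ e, (ph e : MN N) ∈ pn '' locVar P G →
        ∃ φ : OpenPartialHomeomorph (pn '' projVar P') (pn '' projVar P), e ∈ φ.source ∧ ph = φ := by
  classical
  -- the point of a matrix
  choose Y hY hYe using fun m : (pn '' projVar P') => m.2
  have hYpn : ∀ (y : PN M) (hy : y ∈ projVar P'), Y ⟨pn y, Set.mem_image_of_mem pn hy⟩ = y := fun y hy =>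
    pn_injective (hYe ⟨pn y, Set.mem_image_of_mem pn hy⟩)
  let ph : (pn '' projVar P') → (pn '' projVar P) := fun m => ⟨pn (p (Y m)), Set.mem_image_of_mem pn (hp.reg.maps _ (hY m))⟩
  have hph : ∀ (y : PN M) (hy : y ∈ projVar P'), ph ⟨pn y, Set.mem_image_of_mem pn hy⟩ = ⟨pn (p y), Set.mem_image_of_mem pn (hp.reg.maps y hy)⟩ := by
    intro y hy
    apply Subtype.ext
    show pn (p (Y _)) = pn (p y)
    rw [hYpn y hy]
  -- the representatives near a point of the covering
  have hνE : ∀ e : (pn '' projVar P'), ∃ ν : (pn '' projVar P') → Fin (M + 1) → ℂ, ν e = (Y e).rep ∧ ContinuousAt ν e ∧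
      ∀ᶠ b in 𝓝 e, ∃ h : ν b ≠ 0, Y b = Projectivization.mk ℂ (ν b) h := by
    intro e
    obtain ⟨ν, h1, h2⟩ := exists_nu (Y e).rep_nonzero
    rw [Projectivization.mk_rep, hYe e] at h1 h2
    refine ⟨fun b => ν b, h1, ?_, ?_⟩
    · exact ContinuousAt.comp (f := Subtype.val) (g := ν) h2.self_of_nhds.1 continuousAt_subtype_val
    · have h3 : Tendsto (Subtype.val : (pn '' projVar P') → MN M) (𝓝 e) (𝓝 (e : MN M)) := continuousAt_subtype_val
      filter_upwards [h3.eventually h2] with b hb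
      exact hb.2 (Y b) (hYe b)
  have hcont : Continuous ph := by
    · -- continuity
      rw [continuous_iff_continuousAt]
      intro e
      rw [Topology.IsInducing.subtypeVal.continuousAt_iff]
      obtain ⟨ν, h1, h2, h3⟩ := hνE e
      obtain ⟨D, γ, hγ, hγ0, hγe⟩ := hp.reg.regular (Y e) (hY e)
      have hc : Continuous fun x : Fin (M + 1) → ℂ => vals γ x := by
        refine continuous_pi fun i => ?_
        exact MvPolynomial.continuous_eval (γ i)
      have h4 : ContinuousAt (fun b => vals γ (ν b)) e := ContinuousAt.comp (g := vals γ) hc.continuousAt h2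
      have h5 : ∀ᶠ b in 𝓝 e, vals γ (ν b) ≠ 0 := h4.eventually_ne (by rw [h1]; exact hγ0)
      refine pn_continuousAt (f := fun b => p (Y b)) h4 ?_
      filter_upwards [h3, h5] with b hb1 hb2
      obtain ⟨hb3, hb4⟩ := hb1
      refine ⟨hb2, ?_⟩
      obtain ⟨a, ha⟩ := Projectivization.exists_smul_eq_mk_rep ℂ (ν b) hb3
      have h6 : vals γ (Y b).rep ≠ 0 := by
        rw [hb4, ← ha]
        show vals γ ((a : ℂ) • ν b) ≠ 0
        rw [Pool.Agent.H7.Bir.vals_smul hγ]
        exact smul_ne_zero (pow_ne_zero _ a.ne_zero) hb2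
      show p (Y b) = _
      rw [hγe (Y b) (hY b) h6, hb4, Pool.Agent.H7.Bir.rmap_mk hγ hb3 hb2]
  refine ⟨ph, hph, hcont, ?_, fun e he => ?_⟩
  rotate_left
  · have heU : Y e ∈ locVar P' G' := by
      refine (hp.inv _ (hY e)).1 ?_
      obtain ⟨x, hx, hxe⟩ := he
      have h1 : x = p (Y e) := pn_injective hxe
      rw [← h1]
      exact hx
    apply exists_localHomeo hcont
    · -- local injectivity
      obtain ⟨ν, h1, h2, h3⟩ := hνE e
      have hmem : Projectivization.mk ℂ (Y e).rep (Y e).rep_nonzero ∈ locVar P' G' := by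
        rw [Projectivization.mk_rep]
        exact heU
      have h4 := hp.locInj (Y e).rep (Y e).rep_nonzero hmem
      have h5 : Tendsto (fun q : (pn '' projVar P') × (pn '' projVar P') => (ν q.1, ν q.2)) (𝓝 (e, e)) (𝓝 ((Y e).rep, (Y e).rep)) := by
        have h6 : ContinuousAt (fun q : (pn '' projVar P') × (pn '' projVar P') => (ν q.1, ν q.2)) (e, e) := by
          refine ContinuousAt.prodMk ?_ ?_
          · exact ContinuousAt.comp (f := Prod.fst) (g := ν) (x := (e, e)) h2 continuousAt_fst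
          · exact ContinuousAt.comp (f := Prod.snd) (g := ν) (x := (e, e)) h2 continuousAt_snd
        have h7 := h6.tendsto
        simp only [h1] at h7
        exact h7
      have h8 : ∀ᶠ q : (pn '' projVar P') × (pn '' projVar P') in 𝓝 (e, e), ∃ h : ν q.1 ≠ 0, Y q.1 = Projectivization.mk ℂ (ν q.1) h :=
        (continuousAt_fst (p := ((e, e) : (pn '' projVar P') × (pn '' projVar P')))).tendsto.eventually h3
      have h9 : ∀ᶠ q : (pn '' projVar P') × (pn '' projVar P') in 𝓝 (e, e), ∃ h : ν q.2 ≠ 0, Y q.2 = Projectivization.mk ℂ (ν q.2) h :=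
        (continuousAt_snd (p := ((e, e) : (pn '' projVar P') × (pn '' projVar P')))).tendsto.eventually h3
      filter_upwards [h5.eventually h4, h8, h9] with q hq1 hq2 hq3 hq4
      obtain ⟨h10, h11⟩ := hq2
      obtain ⟨h12, h13⟩ := hq3
      have h14 : p (Y q.1) = p (Y q.2) := pn_injective (congrArg Subtype.val hq4)
      have h15 := hq1 h10 h12 (by rw [← h11]; exact hY q.1) (by rw [← h13]; exact hY q.2) (by rw [← h11, ← h13]; exact h14)
      apply Subtype.ext
      rw [← hYe q.1, ← hYe q.2, h11, h13]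
      exact congrArg pn h15
    · -- sections
      have hmem : Projectivization.mk ℂ (Y e).rep (Y e).rep_nonzero ∈ locVar P' G' := by
        rw [Projectivization.mk_rep]
        exact heU
      obtain ⟨x, hx, τ, h1, h2, h3, h4⟩ := hp.locSec (Y e).rep (Y e).rep_nonzero hmem
      rw [Projectivization.mk_rep] at h1
      obtain ⟨ν, h5, h6⟩ := exists_nu hx
      rw [← h1] at h5 h6
      -- near the image
      have hpe : (ph e : MN N) = pn (p (Y e)) := rfl
      have h7 : ∀ᶠ m in 𝓝 (ph e : MN N), ContinuousAt ν m ∧ (∀ y : PN N, pn y = m → ∃ h : ν m ≠ 0, y = Projectivization.mk ℂ (ν m) h) ∧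
          ContinuousAt τ (ν m) ∧ ∀ h : ν m ≠ 0, Projectivization.mk ℂ (ν m) h ∈ projVar P →
            ∃ h' : τ (ν m) ≠ 0, Projectivization.mk ℂ (τ (ν m)) h' ∈ projVar P' ∧ p (Projectivization.mk ℂ (τ (ν m)) h') = Projectivization.mk ℂ (ν m) h := by
        rw [hpe]
        have h8 : Tendsto ν (𝓝 (pn (p (Y e)))) (𝓝 x) := by
          have := h6.self_of_nhds.1.tendsto
          rw [h5] at this
          exact this
        filter_upwards [h6, h8.eventually h2.eventually_analyticAt, h8.eventually h4] with m hm1 hm2 hm3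
        exact ⟨hm1.1, hm1.2, hm2.continuousAt, hm3⟩
      -- the statement for the points of the image
      have h8 : ∀ᶠ b in 𝓝 (ph e), ContinuousAt (fun b : (pn '' projVar P) => τ (ν b)) b ∧
          ∃ h' : τ (ν b) ≠ 0, Projectivization.mk ℂ (τ (ν b)) h' ∈ projVar P' ∧ pn (p (Projectivization.mk ℂ (τ (ν b)) h')) = b := by
        have h9 : Tendsto (Subtype.val : (pn '' projVar P) → MN N) (𝓝 (ph e)) (𝓝 (ph e : MN N)) := continuousAt_subtype_val
        filter_upwards [h9.eventually h7] with b hb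
        obtain ⟨hb1, hb2, hb3, hb4⟩ := hb
        obtain ⟨y, hy, hyb⟩ := b.2
        obtain ⟨hb5, hb6⟩ := hb2 y hyb
        obtain ⟨hb7, hb8, hb9⟩ := hb4 hb5 (by rw [← hb6]; exact hy)
        refine ⟨?_, hb7, hb8, ?_⟩
        · have hb10 : ContinuousAt (fun b : (pn '' projVar P) => ν b) b := ContinuousAt.comp (f := Subtype.val) (g := ν) hb1 continuousAt_subtype_val
          exact ContinuousAt.comp (f := fun b : (pn '' projVar P) => ν b) (g := τ) hb3 hb10
        · rw [hb9, ← hb6]
          exact hyb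
      -- the section
      let s : (pn '' projVar P) → (pn '' projVar P') := fun b =>
        if h : ∃ h' : τ (ν b) ≠ 0, Projectivization.mk ℂ (τ (ν b)) h' ∈ projVar P' then
          ⟨pn (Projectivization.mk ℂ (τ (ν b)) h.choose), Set.mem_image_of_mem pn h.choose_spec⟩ else e
      have hs : ∀ b : (pn '' projVar P), ∀ (h : τ (ν b) ≠ 0) (h' : Projectivization.mk ℂ (τ (ν b)) h ∈ projVar P'),
          s b = ⟨pn (Projectivization.mk ℂ (τ (ν b)) h), Set.mem_image_of_mem pn h'⟩ := by
        intro b h h'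
        simp only [s]
        rw [dif_pos ⟨h, h'⟩]
      refine ⟨s, ?_, ?_⟩
      · have h10 : τ (ν (ph e)) = (Y e).rep := by
          rw [hpe, h5, h3]
        have h11 : τ (ν (ph e)) ≠ 0 := by
          rw [h10]
          exact (Y e).rep_nonzero
        have h12 : Projectivization.mk ℂ (τ (ν (ph e))) h11 = Y e := by
          rw [← Projectivization.mk_rep (Y e), Projectivization.mk_eq_mk_iff']
          exact ⟨1, by rw [one_smul, h10]⟩
        rw [hs (ph e) h11 (by rw [h12]; exact hY e)]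
        apply Subtype.ext
        show pn _ = (e : MN M)
        rw [h12, hYe e]
      · filter_upwards [h8.eventually_nhds] with b hb
        refine ⟨?_, ?_⟩
        · rw [Topology.IsInducing.subtypeVal.continuousAt_iff]
          obtain ⟨hb1, hb2, hb3, hb4⟩ := hb.self_of_nhds
          let F : (pn '' projVar P) → PN M := fun b' =>
            if h : ∃ h' : τ (ν b') ≠ 0, Projectivization.mk ℂ (τ (ν b')) h' ∈ projVar P' then Projectivization.mk ℂ (τ (ν b')) h.choose else Y e
          have hF : (Subtype.val ∘ s) = fun b' => pn (F b') := by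
            funext b'
            simp only [Function.comp, s, F]
            split_ifs with h
            · rfl
            · exact (hYe e).symm
          rw [hF]
          refine pn_continuousAt hb1 ?_
          filter_upwards [hb] with b' hb'
          obtain ⟨hb5, hb6, hb7, hb8⟩ := hb'
          refine ⟨hb6, ?_⟩
          simp only [F]
          rw [dif_pos ⟨hb6, hb7⟩]
        · obtain ⟨hb1, hb2, hb3, hb4⟩ := hb.self_of_nhds
          rw [hs b hb2 hb3, hph _ hb3]
          apply Subtype.ext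
          exact hb4
  · rintro ⟨m, x, hx, rfl⟩
    obtain ⟨y, hy, hyx⟩ := hp.reg.surj x hx
    refine ⟨⟨pn y, Set.mem_image_of_mem pn hy⟩, ?_⟩
    rw [hph y hy]
    apply Subtype.ext
    show pn (p y) = pn x
    rw [hyx]

end Pool.Agent.H62.Qe

end
end

section

/-!
# Qe Lift: entire curves and holomorphic maps of the punctured disc in `U` lift to a covering which is etale over `U`
-/

set_option autoImplicit false

open Topology Filter MvPolynomial

noncomputable section

namespace Pool.Agent.H62.Qe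

open Pool.Agent.H17 (PN VanishesAt HolomorphicInto puncturedDisc)
open Pool.Agent.H62.FC (Homog)
open Pool.Agent.H17EF (projVar)
open Pool.Agent.H62.EF (MN)
open Pool.Agent.H62.SA (locVar)
open Pool.Agent.H62.Et (pn pn_mk pn_injective pn_near pn_continuousAt pn_continuous isCompact_pn)

variable {N M : ℕ} {P : Ideal (MvPolynomial (Fin (N + 1)) ℂ)} {P' : Ideal (MvPolynomial (Fin (M + 1)) ℂ)} {p : PN M → PN N}
  {s s' : ℕ} {G : Fin s → MvPolynomial (Fin (N + 1)) ℂ} {G' : Fin s' → MvPolynomial (Fin (M + 1)) ℂ}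

/-- a continuous lift of a holomorphic map is holomorphic -/
theorem holomorphicAt_of_continuousAt (hp : IsEtaleOver P P' G G' p) {f : ℂ → PN N} {z₀ : ℂ}
    (hf : ∃ φ : ℂ → Fin (N + 1) → ℂ, AnalyticAt ℂ φ z₀ ∧ ∀ᶠ z in 𝓝 z₀, ∃ h : φ z ≠ 0, f z = Projectivization.mk ℂ (φ z) h)
    {g : ℂ → PN M} (hg : ContinuousAt (fun z => pn (g z)) z₀) (hgU : g z₀ ∈ locVar P' G') (hgX : ∀ᶠ z in 𝓝 z₀, g z ∈ projVar P')
    (hgf : ∀ᶠ z in 𝓝 z₀, p (g z) = f z) :
    ∃ φ : ℂ → Fin (M + 1) → ℂ, AnalyticAt ℂ φ z₀ ∧ ∀ᶠ z in 𝓝 z₀, ∃ h : φ z ≠ 0, g z = Projectivization.mk ℂ (φ z) h := by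
  have hy₀ : (g z₀).rep ≠ 0 := Projectivization.rep_nonzero _
  have hmk : Projectivization.mk ℂ (g z₀).rep hy₀ = g z₀ := Projectivization.mk_rep _
  obtain ⟨x, hx, τ, h1, hτ, hτx, hsec⟩ := hp.locSec (g z₀).rep hy₀ (by rw [hmk]; exact hgU)
  obtain ⟨φ, hφ, hφf⟩ := hf
  obtain ⟨hφ0, hφz⟩ := hφf.self_of_nhds
  have h2 : Projectivization.mk ℂ x hx = Projectivization.mk ℂ (φ z₀) hφ0 := by
    rw [← h1, hmk, hgf.self_of_nhds, hφz]
  rw [Projectivization.mk_eq_mk_iff'] at h2
  obtain ⟨c, hc⟩ := h2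
  have hc0 : c ≠ 0 := by
    rintro rfl
    rw [zero_smul] at hc
    exact hx hc.symm
  have hφ' : AnalyticAt ℂ (fun z => c • φ z) z₀ := AnalyticAt.fun_const_smul hφ
  have hφc : Tendsto (fun z => c • φ z) (𝓝 z₀) (𝓝 x) := by
    have h3 := hφ'.continuousAt.tendsto
    rwa [hc] at h3
  have hτc : Tendsto (fun z => τ (c • φ z)) (𝓝 z₀) (𝓝 (g z₀).rep) := by
    have h3 := hτ.continuousAt.tendsto
    rw [hτx] at h3
    exact h3.comp hφc
  refine ⟨fun z => τ (c • φ z), ?_, ?_⟩
  · exact hτ.fun_comp_of_eq hφ' hc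
  · have hinj := hp.locInj (g z₀).rep hy₀ (by rw [hmk]; exact hgU)
    rw [nhds_prod_eq, Filter.eventually_iff, Filter.mem_prod_self_iff] at hinj
    obtain ⟨U, hU, hUU⟩ := hinj
    obtain ⟨δ, hδ, hnear⟩ := pn_near hy₀ hU
    rw [hmk] at hnear
    have h4 : ∀ᶠ z in 𝓝 z₀, dist (pn (g z)) (pn (g z₀)) < δ :=
      hg.tendsto.eventually (Metric.ball_mem_nhds _ hδ)
    filter_upwards [hφf, hφc.eventually hsec, hτc.eventually hU, h4, hgX, hgf] with z h5 h6 h7 h8 hXz hfz
    obtain ⟨h9, h10⟩ := h5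
    have h11 : c • φ z ≠ 0 := smul_ne_zero hc0 h9
    have h12 : Projectivization.mk ℂ (c • φ z) h11 = f z := by
      rw [h10, Projectivization.mk_eq_mk_iff']
      exact ⟨c, rfl⟩
    obtain ⟨h13, h14, h15⟩ := h6 h11 (by rw [h12, ← hfz]; exact hp.reg.maps _ hXz)
    obtain ⟨x', hx'U, hx', hx'g⟩ := hnear (g z) h8
    refine ⟨h13, ?_⟩
    rw [hx'g]
    refine hUU (Set.mk_mem_prod hx'U h7) hx' h13 ?_ h14 ?_
    · rw [← hx'g]
      exact hXz
    · rw [← hx'g, hfz, h15, h12]

theorem lift_entire (hP' : Homog P') (hp : IsEtaleOver P P' G G' p) {f : ℂ → PN N} (hf : HolomorphicInto f Set.univ)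
    (hfU : ∀ z, f z ∈ locVar P G) : ∃ g : ℂ → PN M, HolomorphicInto g Set.univ ∧ (∀ z, g z ∈ locVar P' G') ∧ ∀ z, p (g z) = f z := by
  obtain ⟨ph, hph, hcont, hsurj, hloc⟩ := exists_hat hp
  have : CompactSpace (pn '' projVar P') := isCompact_iff_compactSpace.mp (isCompact_pn hP')
  have hfc : Continuous fun z : ℂ => (⟨pn (f z), Set.mem_image_of_mem pn (hfU z).1⟩ : pn '' projVar P) :=
    Continuous.subtype_mk (pn_continuous hf) _
  obtain ⟨e₀, he₀⟩ := hsurj ⟨pn (f 0), Set.mem_image_of_mem pn (hfU 0).1⟩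
  obtain ⟨g₁, hg₁, -, hg₁f⟩ := exists_lift_plane (s := {b : pn '' projVar P | (b : MN N) ∈ pn '' locVar P G}) hcont hloc hfc
    (fun z => Set.mem_image_of_mem pn (hfU z)) he₀
  have hex : ∀ z : ℂ, ∃ y : PN M, y ∈ projVar P' ∧ pn y = (g₁ z : MN M) := fun z => (g₁ z).2
  choose g hgX hgG using hex
  have hgf : ∀ z, p (g z) = f z := by
    intro z
    apply pn_injective
    have h1 := hph (g z) (hgX z)
    have h2 : (⟨pn (g z), Set.mem_image_of_mem pn (hgX z)⟩ : pn '' projVar P') = g₁ z := Subtype.ext (hgG z)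
    rw [h2, hg₁f z] at h1
    exact (congrArg Subtype.val h1).symm
  have hgU : ∀ z, g z ∈ locVar P' G' := fun z => (hp.inv _ (hgX z)).1 (by rw [hgf z]; exact hfU z)
  have hgc : Continuous fun z => pn (g z) := by
    have h3 : (fun z => pn (g z)) = fun z => (g₁ z : MN M) := funext hgG
    rw [h3]
    exact continuous_subtype_val.comp hg₁
  exact ⟨g, fun z₀ _ => holomorphicAt_of_continuousAt hp (hf z₀ (Set.mem_univ _)) hgc.continuousAt (hgU z₀) (Eventually.of_forall hgX)
    (Eventually.of_forall hgf), hgU, hgf⟩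

/-- the homeomorphism of the plane onto the left half plane -/
private def hp1 (w : ℂ) : ℂ := -Real.exp w.re + w.im * Complex.I

private def hp2 (v : ℂ) : ℂ := Real.log (-v.re) + v.im * Complex.I

private theorem hp1_re (w : ℂ) : (hp1 w).re = -Real.exp w.re := by
  unfold hp1
  rw [Complex.add_re, Complex.neg_re, Complex.ofReal_re, Complex.re_ofReal_mul, Complex.I_re, mul_zero, add_zero]

private theorem hp1_im (w : ℂ) : (hp1 w).im = w.im := by
  unfold hp1
  rw [Complex.add_im, Complex.neg_im, Complex.ofReal_im, Complex.im_ofReal_mul, Complex.I_im, mul_one, neg_zero, zero_add]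

private theorem hp1_hp2 {v : ℂ} (hv : v.re < 0) : hp1 (hp2 v) = v := by
  have h1 : (hp2 v).re = Real.log (-v.re) := by
    unfold hp2
    rw [Complex.add_re, Complex.ofReal_re, Complex.re_ofReal_mul, Complex.I_re, mul_zero, add_zero]
  have h2 : (hp2 v).im = v.im := by
    unfold hp2
    rw [Complex.add_im, Complex.ofReal_im, Complex.im_ofReal_mul, Complex.I_im, mul_one, zero_add]
  apply Complex.ext
  · rw [hp1_re, h1, Real.exp_log (by linarith), neg_neg]
  · rw [hp1_im, h2]

private theorem hp1_add (w : ℂ) : hp1 (w + 2 * Real.pi * Complex.I) = hp1 w + 2 * Real.pi * Complex.I := by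
  have h1 : (2 * Real.pi * Complex.I : ℂ).re = 0 := by simp
  apply Complex.ext
  · rw [hp1_re, Complex.add_re, Complex.add_re, h1, hp1_re, add_zero, add_zero]
  · rw [hp1_im, Complex.add_im, Complex.add_im, hp1_im]

private theorem hp2_add (v : ℂ) (n : ℤ) : hp2 (v + n * (2 * Real.pi * Complex.I)) = hp2 v + n * (2 * Real.pi * Complex.I) := by
  have h1 : (n * (2 * Real.pi * Complex.I) : ℂ).re = 0 := by simp
  unfold hp2
  rw [Complex.add_re, h1, add_zero, Complex.add_im]
  push_cast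
  have h2 : (((n * (2 * Real.pi * Complex.I) : ℂ).im : ℝ) : ℂ) * Complex.I = n * (2 * Real.pi * Complex.I) := by
    have h3 := Complex.re_add_im (n * (2 * Real.pi * Complex.I) : ℂ)
    rw [h1, Complex.ofReal_zero, zero_add] at h3
    exact h3
  rw [add_mul, h2]
  ring

private theorem continuous_hp1 : Continuous hp1 := by
  unfold hp1
  fun_prop

private theorem continuousAt_hp2 {v : ℂ} (hv : v.re < 0) : ContinuousAt hp2 v := by
  unfold hp2
  refine ContinuousAt.add ?_ ?_
  · refine Complex.continuous_ofReal.continuousAt.comp ?_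
    refine ContinuousAt.comp (f := fun v : ℂ => -v.re) (g := Real.log) (Real.continuousAt_log (by linarith)) ?_
    fun_prop
  · fun_prop

theorem pn_continuousOn {f : ℂ → PN N} {D : Set ℂ} (hf : HolomorphicInto f D) {z : ℂ} (hz : z ∈ D) : ContinuousAt (fun z => pn (f z)) z := by
  obtain ⟨φ, h1, h2⟩ := hf z hz
  exact pn_continuousAt h1.continuousAt h2

private theorem exp_mem {v : ℂ} (hv : v.re < 0) : Complex.exp v ∈ puncturedDisc := by
  refine ⟨?_, Complex.exp_ne_zero v⟩
  rw [mem_ball_zero_iff, Complex.norm_exp]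
  exact Real.exp_lt_one_iff.2 hv

theorem lift_punctured (hP' : Homog P') (hp : IsEtaleOver P P' G G' p) {f : ℂ → PN N} (hf : HolomorphicInto f puncturedDisc)
    (hfU : ∀ z ∈ puncturedDisc, f z ∈ locVar P G) : ∃ (k : ℕ) (g : ℂ → PN M), 1 ≤ k ∧ HolomorphicInto g puncturedDisc ∧
      (∀ z ∈ puncturedDisc, g z ∈ locVar P' G') ∧ ∀ z ∈ puncturedDisc, p (g z) = f (z ^ k) := by
  obtain ⟨ph, hph, hcont, hsurj, hloc⟩ := exists_hat hp
  have : CompactSpace (pn '' projVar P') := isCompact_iff_compactSpace.mp (isCompact_pn hP')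
  have hneg : ∀ w, (hp1 w).re < 0 := fun w => by
    rw [hp1_re]
    exact neg_lt_zero.2 (Real.exp_pos _)
  have hmem : ∀ w, Complex.exp (hp1 w) ∈ puncturedDisc := fun w => exp_mem (hneg w)
  have hFc : Continuous fun w : ℂ => pn (f (Complex.exp (hp1 w))) := by
    rw [continuous_iff_continuousAt]
    intro w
    exact ContinuousAt.comp (g := fun z => pn (f z)) (f := fun w => Complex.exp (hp1 w)) (pn_continuousOn hf (hmem w))
      (Complex.continuous_exp.comp continuous_hp1).continuousAt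
  have hfc : Continuous fun w : ℂ => (⟨pn (f (Complex.exp (hp1 w))), Set.mem_image_of_mem pn (hfU _ (hmem w)).1⟩ : pn '' projVar P) :=
    Continuous.subtype_mk hFc _
  have hper : ∀ w : ℂ, (⟨pn (f (Complex.exp (hp1 (w + 2 * Real.pi * Complex.I)))), Set.mem_image_of_mem pn (hfU _ (hmem _)).1⟩ : pn '' projVar P) =
      ⟨pn (f (Complex.exp (hp1 w))), Set.mem_image_of_mem pn (hfU _ (hmem w)).1⟩ := by
    intro w
    apply Subtype.ext
    show pn (f (Complex.exp (hp1 (w + 2 * Real.pi * Complex.I)))) = pn (f (Complex.exp (hp1 w)))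
    rw [hp1_add, Complex.exp_periodic]
  obtain ⟨g₁, k, hg₁, hg₁f, hk, hg₁k⟩ := exists_lift_periodic (s := {b : pn '' projVar P | (b : MN N) ∈ pn '' locVar P G}) hcont hsurj hloc hfc
    (fun w => Set.mem_image_of_mem pn (hfU _ (hmem w))) hper
  have hg₁p : ∀ (n : ℤ) (w : ℂ), g₁ (w + n * (k * (2 * Real.pi * Complex.I))) = g₁ w := fun n w =>
    Function.Periodic.int_mul (f := g₁) (c := k * (2 * Real.pi * Complex.I)) hg₁k n w
  have hex : ∀ w : ℂ, ∃ y : PN M, y ∈ projVar P' ∧ pn y = (g₁ w : MN M) := fun w => (g₁ w).2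
  choose g₂ hg₂X hg₂G using hex
  have hg₂f : ∀ w, p (g₂ w) = f (Complex.exp (hp1 w)) := by
    intro w
    apply pn_injective
    have h1 := hph (g₂ w) (hg₂X w)
    have h2 : (⟨pn (g₂ w), Set.mem_image_of_mem pn (hg₂X w)⟩ : pn '' projVar P') = g₁ w := Subtype.ext (hg₂G w)
    rw [h2, hg₁f w] at h1
    exact (congrArg Subtype.val h1).symm
  have hkr : (0 : ℝ) < k := by exact_mod_cast hk
  have hre : ∀ z ∈ puncturedDisc, (k * Complex.log z).re < 0 := by
    intro z hz
    have h1 : (k * Complex.log z).re = k * Real.log ‖z‖ := by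
      rw [← Complex.ofReal_natCast, Complex.re_ofReal_mul, Complex.log_re]
    rw [h1]
    have h2 : ‖z‖ < 1 := by
      rw [← mem_ball_zero_iff]
      exact hz.1
    have h3 : 0 < ‖z‖ := norm_pos_iff.2 hz.2
    exact mul_neg_of_pos_of_neg hkr (Real.log_neg h3 h2)
  have hgX : ∀ z, g₂ (hp2 (k * Complex.log z)) ∈ projVar P' := fun z => hg₂X _
  have hgf : ∀ z ∈ puncturedDisc, p (g₂ (hp2 (k * Complex.log z))) = f (z ^ k) := by
    intro z hz
    rw [hg₂f, hp1_hp2 (hre z hz), Complex.exp_nat_mul, Complex.exp_log hz.2]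
  have hpow : ∀ z ∈ puncturedDisc, z ^ k ∈ puncturedDisc := by
    intro z hz
    refine ⟨?_, pow_ne_zero k hz.2⟩
    rw [mem_ball_zero_iff, norm_pow]
    exact pow_lt_one₀ (norm_nonneg z) (by rw [← mem_ball_zero_iff]; exact hz.1) (by omega)
  have hgU : ∀ z ∈ puncturedDisc, g₂ (hp2 (k * Complex.log z)) ∈ locVar P' G' := fun z hz =>
    (hp.inv _ (hgX z)).1 (by rw [hgf z hz]; exact hfU _ (hpow z hz))
  have hopen : IsOpen puncturedDisc := Metric.isOpen_ball.sdiff isClosed_singleton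
  refine ⟨k, fun z => g₂ (hp2 (k * Complex.log z)), hk, fun z₀ hz₀ => ?_, hgU, hgf⟩
  have hz0 : z₀ ≠ 0 := hz₀.2
  refine holomorphicAt_of_continuousAt hp (f := fun z => f (z ^ k)) ?_ ?_ (hgU z₀ hz₀) (Eventually.of_forall hgX) ?_
  · obtain ⟨φ, h1, h2⟩ := hf (z₀ ^ k) (hpow z₀ hz₀)
    have h3 : AnalyticAt ℂ (fun z : ℂ => z ^ k) z₀ := analyticAt_id.pow k
    exact ⟨fun z => φ (z ^ k), AnalyticAt.comp (g := φ) (f := fun z : ℂ => z ^ k) h1 h3, h3.continuousAt.tendsto.eventually h2⟩
  · -- continuity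
    have h1 : (fun z => pn (g₂ (hp2 (k * Complex.log z)))) = fun z => (g₁ (hp2 (k * Complex.log z)) : MN M) := funext fun z => hg₂G _
    rw [h1]
    have h2 : ContinuousAt (fun z => (g₁ (hp2 (k * (Complex.log (z / z₀) + Complex.log z₀))) : MN M)) z₀ := by
      have h3 : ContinuousAt (fun z : ℂ => k * (Complex.log (z / z₀) + Complex.log z₀)) z₀ := by
        refine continuousAt_const.mul (ContinuousAt.add ?_ continuousAt_const)
        refine ContinuousAt.clog ?_ ?_
        · exact continuousAt_id.div continuousAt_const hz0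
        · rw [div_self hz0]
          exact Complex.one_mem_slitPlane
      have h4 : (k * (Complex.log (z₀ / z₀) + Complex.log z₀)).re < 0 := by
        rw [div_self hz0, Complex.log_one, zero_add]
        exact hre z₀ hz₀
      have h5 : ContinuousAt (fun z : ℂ => hp2 (k * (Complex.log (z / z₀) + Complex.log z₀))) z₀ :=
        ContinuousAt.comp (g := hp2) (f := fun z : ℂ => k * (Complex.log (z / z₀) + Complex.log z₀)) (continuousAt_hp2 h4) h3
      exact ContinuousAt.comp (g := fun w => (g₁ w : MN M)) (f := fun z : ℂ => hp2 (k * (Complex.log (z / z₀) + Complex.log z₀)))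
        (continuous_subtype_val.comp hg₁).continuousAt h5
    refine h2.congr ?_
    filter_upwards [isOpen_ne.mem_nhds hz0] with z hz
    have hz' : z ≠ 0 := hz
    have h3 : Complex.exp (Complex.log (z / z₀) + Complex.log z₀) = Complex.exp (Complex.log z) := by
      rw [Complex.exp_add, Complex.exp_log (div_ne_zero hz' hz0), Complex.exp_log hz0, Complex.exp_log hz', div_mul_cancel₀ _ hz0]
    obtain ⟨n, hn⟩ := Complex.exp_eq_exp_iff_exists_int.1 h3
    rw [hn, mul_add]
    have h4 : (k : ℂ) * (n * (2 * Real.pi * Complex.I)) = ((k * n : ℤ) : ℂ) * (2 * Real.pi * Complex.I) := by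
      push_cast
      ring
    rw [h4, hp2_add]
    have h5 : ((k * n : ℤ) : ℂ) * (2 * Real.pi * Complex.I) = n * (k * (2 * Real.pi * Complex.I)) := by
      push_cast
      ring
    rw [h5, hg₁p]
  · filter_upwards [hopen.mem_nhds hz₀] with z hz
    exact hgf z hz

end Pool.Agent.H62.Qe

end
end
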