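import Pool.Agent.H18.GGT.H23.Forms
import Pool.Agent.H18.GGT.M07
import Pool.Agent.H18.GGT.M11
import Pool.Agent.H18.GGT.M13

/-! The parts of this file: GTL.EtG, GTL.EtG2, GTL.EtDf, GTL.EtA, GTL.EtF, GTL.EtH, GTL.EtI2, H62.FC.PicardBrody. -/

section

/-!
# GTL EtG: the valuation ring of a prime divisor is a localization of a finitely generated algebra

PROOF.  `exists_gens`: `k = k' + 1`; `s i` as in `E.residue_trdeg`, `t` a uniformizer.  `κ := ℂ(s)` (`IntermediateField.adjoin ℂ (Set.range s)`): all its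
nonzero elements have order `0`.  `K / κ(t)` is finite; `B` := integral closure of `κ[t]` in `K` (Dedekind, a finite `κ[t]`-module, generated by `b 1 … b n`).
`q := {b ∈ B : E.ord b > 0}` is a prime `≠ 0`, and for every `f` one has `f y = x` or `f x = y` with `x ∈ B`, `y ∈ B ∖ q`; so every `f` with `E.ord f ≥ 0` is
`x / y`, `x, y ∈ B`, `E.ord y = 0`; `x = ∑ α l b l`, `y = ∑ β l b l`, `α l, β l ∈ κ[t]`; multiply with the common denominator `d ∈ ℂ[s]`, `E.ord d = 0`.
So `S = {s i, t, b l}`.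
-/

set_option autoImplicit false

open MvPolynomial
open Pool.Agent.H23.Fano (PrimeDivisorOver)

noncomputable section

namespace Pool.Agent.GTL

/-! ## one variable over a field -/

section Val

variable {F K : Type} [Field F] [Field K] [Algebra F K]

private theorem etG_pid (x : K) : IsPrincipalIdealRing (Algebra.adjoin F {x}) := by
  refine IsPrincipalIdealRing.of_surjective
    ((Polynomial.aeval (⟨x, Algebra.self_mem_adjoin_singleton F x⟩ : Algebra.adjoin F {x}) : Polynomial F →ₐ[F] Algebra.adjoin F {x}) :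
      Polynomial F →+* Algebra.adjoin F {x}) fun a => ?_
  obtain ⟨p, hp⟩ : (a : K) ∈ (Polynomial.aeval x : Polynomial F →ₐ[F] K).range := by
    rw [← Algebra.adjoin_singleton_eq_range_aeval]
    exact a.2
  refine ⟨p, Subtype.ext ?_⟩
  have h1 := (Polynomial.aeval_algebraMap_apply K (⟨x, Algebra.self_mem_adjoin_singleton F x⟩ : Algebra.adjoin F {x}) p).symm
  exact h1.trans hp

open scoped IntermediateField.algebraAdjoinAdjoin in
private theorem etG_val [CharZero F] (x : K) (hfin : FiniteDimensional (IntermediateField.adjoin F {x}) K) (ord : AddValuation K (WithTop ℤ))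
    (h0 : ∀ b, IsIntegral (Algebra.adjoin F {x}) b → 0 ≤ ord b) (hx : 0 < ord x) (hx0 : x ≠ 0) :
    (∀ f, 0 ≤ ord f → ∃ b₁ b₂, IsIntegral (Algebra.adjoin F {x}) b₁ ∧ IsIntegral (Algebra.adjoin F {x}) b₂ ∧ ord b₂ = 0 ∧ f * b₂ = b₁) ∧
    ∃ S : Finset K, (∀ b ∈ S, IsIntegral (Algebra.adjoin F {x}) b) ∧
      ∀ b, IsIntegral (Algebra.adjoin F {x}) b → b ∈ Submodule.span (Algebra.adjoin F {x}) (S : Set K) := by
  classical
  have hpid : IsPrincipalIdealRing (Algebra.adjoin F {x}) := etG_pid x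
  have hded : IsDedekindDomain (Algebra.adjoin F {x}) := inferInstance
  have hcz : CharZero (IntermediateField.adjoin F {x}) := charZero_of_injective_algebraMap (algebraMap F _).injective
  have hsep : Algebra.IsSeparable (IntermediateField.adjoin F {x}) K :=
    Algebra.IsAlgebraic.isSeparable_of_perfectField
  have hC : IsDedekindDomain (integralClosure (Algebra.adjoin F {x}) K) :=
    integralClosure.isDedekindDomain (Algebra.adjoin F {x}) (IntermediateField.adjoin F {x}) K
  have hfr : IsFractionRing (integralClosure (Algebra.adjoin F {x}) K) K :=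
    integralClosure.isFractionRing_of_finite_extension (IntermediateField.adjoin F {x}) K
  have hft : Module.Finite (Algebra.adjoin F {x}) (integralClosure (Algebra.adjoin F {x}) K) :=
    IsIntegralClosure.finite (Algebra.adjoin F {x}) (IntermediateField.adjoin F {x}) K (integralClosure (Algebra.adjoin F {x}) K)
  refine ⟨fun f hf => ?_, ?_⟩
  · -- the prime
    let q : Ideal (integralClosure (Algebra.adjoin F {x}) K) :=
      { carrier := {b | 0 < ord (b : K)}
        add_mem' := fun {a b} ha hb => ord.map_lt_add ha hb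
        zero_mem' := by
          show 0 < ord ((0 : integralClosure (Algebra.adjoin F {x}) K) : K)
          rw [ZeroMemClass.coe_zero, ord.map_zero]
          exact WithTop.coe_lt_top 0
        smul_mem' := fun c b hb => by
          show 0 < ord ((c * b : integralClosure (Algebra.adjoin F {x}) K) : K)
          rw [MulMemClass.coe_mul, ord.map_mul]
          exact lt_of_lt_of_le hb (le_add_of_nonneg_left (h0 _ c.2)) }
    have hqm : ∀ b, b ∈ q ↔ 0 < ord (b : K) := fun b => Iff.rfl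
    have hnot : ∀ b : integralClosure (Algebra.adjoin F {x}) K, b ∉ q → ord (b : K) = 0 := fun b hb =>
      le_antisymm (not_lt.1 fun h => hb h) (h0 _ b.2)
    have hprime : q.IsPrime := by
      refine ⟨?_, ?_⟩
      · rw [Ideal.ne_top_iff_one, hqm, OneMemClass.coe_one, ord.map_one]
        exact lt_irrefl _
      · intro a b hab
        by_contra hcon
        rw [not_or] at hcon
        rw [hqm, MulMemClass.coe_mul, ord.map_mul, hnot a hcon.1, hnot b hcon.2, add_zero] at hab
        exact lt_irrefl _ hab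
    have hxi : IsIntegral (Algebra.adjoin F {x}) x :=
      isIntegral_algebraMap (x := (⟨x, Algebra.self_mem_adjoin_singleton F x⟩ : Algebra.adjoin F {x}))
    have hne : q ≠ ⊥ := by
      intro hq
      have h1 : (⟨x, hxi⟩ : integralClosure (Algebra.adjoin F {x}) K) ∈ q := hx
      rw [hq, Ideal.mem_bot] at h1
      exact hx0 (congrArg Subtype.val h1)
    let v : IsDedekindDomain.HeightOneSpectrum (integralClosure (Algebra.adjoin F {x}) K) := ⟨q, hprime, hne⟩
    obtain ⟨n, d, h⟩ := v.exists_primeCompl_mul_eq_or_mul_eq f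
    have hd : ord ((d : integralClosure (Algebra.adjoin F {x}) K) : K) = 0 := hnot _ d.2
    rcases h with h | h
    · exact ⟨(n : K), ((d : integralClosure (Algebra.adjoin F {x}) K) : K), n.2, (d : integralClosure (Algebra.adjoin F {x}) K).2, hd, h⟩
    · refine ⟨((d : integralClosure (Algebra.adjoin F {x}) K) : K), (n : K), (d : integralClosure (Algebra.adjoin F {x}) K).2, n.2, ?_, h⟩
      have h1 : ord f + ord (n : K) = 0 := by
        rw [← ord.map_mul, ← hd]
        exact congrArg ord h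
      refine le_antisymm ?_ (h0 _ n.2)
      rw [← h1]
      exact le_add_of_nonneg_left hf
  · obtain ⟨S, hS⟩ := hft.fg_top
    refine ⟨S.image (fun b : integralClosure (Algebra.adjoin F {x}) K => (b : K)), fun b hb => ?_, fun b hb => ?_⟩
    · obtain ⟨c, -, rfl⟩ := Finset.mem_image.1 hb
      exact c.2
    · have h1 : (⟨b, hb⟩ : integralClosure (Algebra.adjoin F {x}) K) ∈ Submodule.span (Algebra.adjoin F {x}) (S : Set (integralClosure (Algebra.adjoin F {x}) K)) := by
        rw [hS]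
        trivial
      have h2 := Submodule.mem_map_of_mem (f := (integralClosure (Algebra.adjoin F {x}) K).val.toLinearMap) h1
      rw [Submodule.map_span] at h2
      rw [Finset.coe_image]
      exact h2

end Val

/-! ## finiteness -/

private theorem etG_fin {L K : Type} [Field L] [Field K] [Algebra L K] [Algebra ℂ K] [Algebra ℂ L] [IsScalarTower ℂ L K] [Algebra.EssFiniteType ℂ K]
    {ι : Type} (g : ι → K) (hg : ∀ i, ∃ y : L, algebraMap L K y = g i) (hb : IsTranscendenceBasis ℂ g) : FiniteDimensional L K := by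
  have hle : Algebra.adjoin ℂ (Set.range g) ≤ (IsScalarTower.toAlgHom ℂ L K).range := by
    rw [Algebra.adjoin_le_iff]
    rintro _ ⟨i, rfl⟩
    exact hg i
  let φ : Algebra.adjoin ℂ (Set.range g) →ₐ[ℂ] L :=
    (AlgEquiv.ofInjective (IsScalarTower.toAlgHom ℂ L K) (algebraMap L K).injective).symm.toAlgHom.comp (Subalgebra.inclusion hle)
  have hφ : ∀ a, algebraMap L K (φ a) = a := by
    intro a
    have h1 := (AlgEquiv.ofInjective (IsScalarTower.toAlgHom ℂ L K) (algebraMap L K).injective).apply_symm_apply (Subalgebra.inclusion hle a)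
    exact congrArg Subtype.val h1
  let _ : Algebra (Algebra.adjoin ℂ (Set.range g)) L := φ.toRingHom.toAlgebra
  have htow : IsScalarTower (Algebra.adjoin ℂ (Set.range g)) L K := IsScalarTower.of_algebraMap_eq fun a => (hφ a).symm
  have hinj : Function.Injective (algebraMap (Algebra.adjoin ℂ (Set.range g)) L) := fun a b h => by
    have h1 : φ a = φ b := h
    refine Subtype.ext ?_
    rw [← hφ a, ← hφ b, h1]
  have halg : Algebra.IsAlgebraic L K := ⟨fun f => (hb.isAlgebraic.isAlgebraic f).extendScalars hinj⟩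
  have : Algebra.EssFiniteType L K := Algebra.EssFiniteType.of_comp ℂ L K
  exact Algebra.finite_of_essFiniteType_of_isAlgebraic

private theorem etG_fin' {F K : Type} [Field F] [Field K] [Algebra F K] [Algebra ℂ K] [Algebra ℂ F] [IsScalarTower ℂ F K] [Algebra.EssFiniteType ℂ K]
    {n : ℕ} (s : Fin n → K) (t : K) (hs : ∀ i, ∃ y : F, algebraMap F K y = s i) (hb : IsTranscendenceBasis ℂ (Fin.cons t s : Fin (n + 1) → K)) :
    FiniteDimensional (IntermediateField.adjoin F {t}) K := by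
  let _ : Algebra ℂ (IntermediateField.adjoin F {t}) := ((algebraMap F (IntermediateField.adjoin F {t})).comp (algebraMap ℂ F)).toAlgebra
  have htow : IsScalarTower ℂ (IntermediateField.adjoin F {t}) K := IsScalarTower.of_algebraMap_eq fun c => IsScalarTower.algebraMap_apply ℂ F K c
  refine etG_fin (L := IntermediateField.adjoin F {t}) (Fin.cons t s : Fin (n + 1) → K) (fun i => ?_) hb
  refine Fin.cases ?_ (fun j => ?_) i
  · exact ⟨⟨t, IntermediateField.mem_adjoin_simple_self F t⟩, rfl⟩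
  · obtain ⟨y, hy⟩ := hs j
    exact ⟨⟨s j, hy ▸ (IntermediateField.adjoin F {t}).algebraMap_mem y⟩, rfl⟩

/-! ## denominators -/

section Den

variable {K : Type} [Field K] [Algebra ℂ K] {n : ℕ} (s : Fin n → K) (t : K)

private theorem etG_den_ki {a : K} (ha : a ∈ IntermediateField.adjoin ℂ (Set.range s)) :
    ∃ d ∈ Algebra.adjoin ℂ (Set.range s), d ≠ 0 ∧ a * d ∈ Algebra.adjoin ℂ (Set.range s) := by
  obtain ⟨u, hu, w, hw, rfl⟩ := IntermediateField.mem_adjoin_iff_div.1 ha
  rcases eq_or_ne w 0 with h0 | h0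
  · exact ⟨1, Subalgebra.one_mem _, one_ne_zero, by rw [h0, div_zero, zero_mul]; exact Subalgebra.zero_mem _⟩
  · exact ⟨w, hw, h0, by rw [div_mul_cancel₀ _ h0]; exact hu⟩

private theorem etG_den_A {S : Set K} (hs : Set.range s ⊆ S) (ht : t ∈ S) {a : K}
    (ha : a ∈ Algebra.adjoin (IntermediateField.adjoin ℂ (Set.range s)) {t}) :
    ∃ d ∈ Algebra.adjoin ℂ (Set.range s), d ≠ 0 ∧ a * d ∈ Algebra.adjoin ℂ S := by
  have hsub : Algebra.adjoin ℂ (Set.range s) ≤ Algebra.adjoin ℂ S := Algebra.adjoin_mono hs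
  induction ha using Algebra.adjoin_induction with
  | mem x hx =>
    rw [Set.mem_singleton_iff] at hx
    exact ⟨1, Subalgebra.one_mem _, one_ne_zero, by rw [mul_one, hx]; exact Algebra.subset_adjoin ht⟩
  | algebraMap r =>
    obtain ⟨d, hd, hd0, h⟩ := etG_den_ki s r.2
    exact ⟨d, hd, hd0, hsub h⟩
  | add x y _ _ hx hy =>
    obtain ⟨d, hd, hd0, h⟩ := hx
    obtain ⟨d', hd', hd0', h'⟩ := hy
    refine ⟨d * d', Subalgebra.mul_mem _ hd hd', mul_ne_zero hd0 hd0', ?_⟩
    have h1 : (x + y) * (d * d') = x * d * d' + y * d' * d := by ring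
    rw [h1]
    exact Subalgebra.add_mem _ (Subalgebra.mul_mem _ h (hsub hd')) (Subalgebra.mul_mem _ h' (hsub hd))
  | mul x y _ _ hx hy =>
    obtain ⟨d, hd, hd0, h⟩ := hx
    obtain ⟨d', hd', hd0', h'⟩ := hy
    refine ⟨d * d', Subalgebra.mul_mem _ hd hd', mul_ne_zero hd0 hd0', ?_⟩
    have h1 : x * y * (d * d') = x * d * (y * d') := by ring
    rw [h1]
    exact Subalgebra.mul_mem _ h h'

private theorem etG_den_span {S B : Set K} (hs : Set.range s ⊆ S) (ht : t ∈ S) (hB : B ⊆ S) {a : K}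
    (ha : a ∈ Submodule.span (Algebra.adjoin (IntermediateField.adjoin ℂ (Set.range s)) {t}) B) :
    ∃ d ∈ Algebra.adjoin ℂ (Set.range s), d ≠ 0 ∧ a * d ∈ Algebra.adjoin ℂ S := by
  have hsub : Algebra.adjoin ℂ (Set.range s) ≤ Algebra.adjoin ℂ S := Algebra.adjoin_mono hs
  induction ha using Submodule.span_induction with
  | mem x hx => exact ⟨1, Subalgebra.one_mem _, one_ne_zero, by rw [mul_one]; exact Algebra.subset_adjoin (hB hx)⟩
  | zero => exact ⟨1, Subalgebra.one_mem _, one_ne_zero, by rw [zero_mul]; exact Subalgebra.zero_mem _⟩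
  | add x y _ _ hx hy =>
    obtain ⟨d, hd, hd0, h⟩ := hx
    obtain ⟨d', hd', hd0', h'⟩ := hy
    refine ⟨d * d', Subalgebra.mul_mem _ hd hd', mul_ne_zero hd0 hd0', ?_⟩
    have h1 : (x + y) * (d * d') = x * d * d' + y * d' * d := by ring
    rw [h1]
    exact Subalgebra.add_mem _ (Subalgebra.mul_mem _ h (hsub hd')) (Subalgebra.mul_mem _ h' (hsub hd))
  | smul c x _ hx =>
    obtain ⟨d, hd, hd0, h⟩ := hx
    obtain ⟨d', hd', hd0', h'⟩ := etG_den_A s t hs ht c.2
    refine ⟨d * d', Subalgebra.mul_mem _ hd hd', mul_ne_zero hd0 hd0', ?_⟩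
    have h1 : c • x * (d * d') = (c : K) * d' * (x * d) := by
      rw [Algebra.smul_def]
      show (c : K) * x * (d * d') = _
      ring
    rw [h1]
    exact Subalgebra.mul_mem _ h' h

end Den

variable {K : Type} [Field K] [Algebra ℂ K] {k : ℕ}

/-- the valuation ring of a prime divisor is a localization of a finitely generated algebra -/
theorem exists_gens [Algebra.EssFiniteType ℂ K] (hk : 1 ≤ k) {z : Fin k → K} (hz : IsTranscendenceBasis ℂ z) (E : PrimeDivisorOver K k) :
    ∃ S : Finset K, (∀ f ∈ S, 0 ≤ E.ord f) ∧ ∀ f, 0 ≤ E.ord f →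
      ∃ a ∈ Algebra.adjoin ℂ (S : Set K), ∃ h ∈ Algebra.adjoin ℂ (S : Set K), E.ord h = 0 ∧ f * h = a := by
  classical
  obtain ⟨n, rfl⟩ : ∃ n, k = n + 1 := ⟨k - 1, by omega⟩
  obtain ⟨t, ht⟩ := E.exists_uniformizer
  obtain ⟨s, hs0, hs⟩ := E.residue_trdeg
  change Fin n → K at s
  change ∀ i : Fin n, 0 ≤ E.ord (s i) at hs0
  change ∀ p : MvPolynomial (Fin n) ℂ, p ≠ 0 → E.ord (MvPolynomial.aeval s p) = 0 at hs
  have ht0 : t ≠ 0 := by
    rintro rfl
    rw [E.ord.map_zero] at ht
    exact absurd ht (by simp)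
  -- the elements of `ℂ[s]`
  have hord : ∀ d ∈ Algebra.adjoin ℂ (Set.range s), d ≠ 0 → E.ord d = 0 := by
    intro d hd hd0
    rw [Algebra.adjoin_range_eq_range_aeval] at hd
    obtain ⟨p, rfl⟩ := hd
    refine hs p ?_
    rintro rfl
    exact hd0 (map_zero _)
  have hord' : ∀ d ∈ Algebra.adjoin ℂ (Set.range s), 0 ≤ E.ord d := by
    intro d hd
    rcases eq_or_ne d 0 with rfl | hd0
    · rw [E.ord.map_zero]; exact le_top
    · exact (hord d hd hd0).ge
  -- the transcendence basis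
  have hbasis : IsTranscendenceBasis ℂ (Fin.cons t s : Fin (n + 1) → K) := by
    have hind : AlgebraicIndependent ℂ (Fin.cons t s : Fin (n + 1) → K) := by
      rw [algebraicIndependent_iff_injective_aeval]
      have h1 : (MvPolynomial.aeval (Fin.cons t s : Fin (n + 1) → K) : MvPolynomial (Fin (n + 1)) ℂ → K) =
          Pool.Agent.H23.ev s t ∘ MvPolynomial.finSuccEquiv ℂ n := by
        funext p
        exact Pool.Agent.H23.aeval_cons s t p
      rw [h1]
      exact (Pool.Agent.H23.ev_injective E.ord hs ht).comp (MvPolynomial.finSuccEquiv ℂ n).injective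
    apply hind.isTranscendenceBasis_of_trdeg_le_of_finite
    rw [← hz.cardinalMk_eq_trdeg]
  have hcz : CharZero (IntermediateField.adjoin ℂ (Set.range s)) := charZero_of_injective_algebraMap (algebraMap ℂ _).injective
  -- finiteness
  have hfin : FiniteDimensional (IntermediateField.adjoin (IntermediateField.adjoin ℂ (Set.range s)) {t}) K :=
    etG_fin' s t (fun i => ⟨⟨s i, IntermediateField.subset_adjoin _ _ ⟨i, rfl⟩⟩, rfl⟩) hbasis
  -- the elements of `κ[t]`
  have hA : ∀ a ∈ Algebra.adjoin (IntermediateField.adjoin ℂ (Set.range s)) {t}, 0 ≤ E.ord a := by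
    intro a ha
    induction ha using Algebra.adjoin_induction with
    | mem x hx =>
      rw [Set.mem_singleton_iff.1 hx, ht]
      exact zero_le_one
    | algebraMap r =>
      obtain ⟨d, hd, hd0, h⟩ := etG_den_ki s r.2
      have h1 := hord' _ h
      rw [E.ord.map_mul, hord d hd hd0, add_zero] at h1
      exact h1
    | add x y _ _ hx hy => exact E.ord.map_le_add hx hy
    | mul x y _ _ hx hy => rw [E.ord.map_mul]; exact add_nonneg hx hy
  have hI : ∀ b, IsIntegral (Algebra.adjoin (IntermediateField.adjoin ℂ (Set.range s)) {t}) b → 0 ≤ E.ord b := by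
    intro b hb
    let φ : Algebra.adjoin (IntermediateField.adjoin ℂ (Set.range s)) {t} →+* (AddValuation.toValuation E.ord).integer :=
      (algebraMap (Algebra.adjoin (IntermediateField.adjoin ℂ (Set.range s)) {t}) K).codRestrict (AddValuation.toValuation E.ord).integer
        fun a => hA _ a.2
    have h1 : ((algebraMap (AddValuation.toValuation E.ord).integer K).comp φ).IsIntegralElem b := hb
    have h2 : IsIntegral (AddValuation.toValuation E.ord).integer b := h1.of_comp
    exact (Valuation.integer.integers (AddValuation.toValuation E.ord)).mem_of_integral h2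
  obtain ⟨h1, B, hB, hspan⟩ := etG_val t hfin E.ord hI (by rw [ht]; exact zero_lt_one) ht0
  -- the generators
  refine ⟨Finset.univ.image s ∪ {t} ∪ B, ?_, ?_⟩
  · intro f hf
    rw [Finset.mem_union, Finset.mem_union, Finset.mem_image, Finset.mem_singleton] at hf
    rcases hf with (⟨i, -, rfl⟩ | rfl) | hf
    · exact hs0 i
    · rw [ht]; exact zero_le_one
    · exact hI f (hB f hf)
  · intro f hf
    have hsS : Set.range s ⊆ ((Finset.univ.image s ∪ {t} ∪ B : Finset K) : Set K) := by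
      rintro _ ⟨i, rfl⟩
      simp
    have htS : t ∈ ((Finset.univ.image s ∪ {t} ∪ B : Finset K) : Set K) := by simp
    have hBS : (B : Set K) ⊆ ((Finset.univ.image s ∪ {t} ∪ B : Finset K) : Set K) := by
      intro b hb
      rw [Finset.coe_union]
      exact Or.inr hb
    obtain ⟨b₁, b₂, hb₁, hb₂, hb₀, hfb⟩ := h1 f hf
    obtain ⟨d₁, hd₁, hd₁0, h₁⟩ := etG_den_span s t hsS htS hBS (hspan b₁ hb₁)
    obtain ⟨d₂, hd₂, hd₂0, h₂⟩ := etG_den_span s t hsS htS hBS (hspan b₂ hb₂)
    have hsub : Algebra.adjoin ℂ (Set.range s) ≤ Algebra.adjoin ℂ ((Finset.univ.image s ∪ {t} ∪ B : Finset K) : Set K) := Algebra.adjoin_mono hsS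
    refine ⟨b₁ * d₁ * d₂, Subalgebra.mul_mem _ h₁ (hsub hd₂), b₂ * d₂ * d₁, Subalgebra.mul_mem _ h₂ (hsub hd₁), ?_, ?_⟩
    · rw [E.ord.map_mul, E.ord.map_mul, hb₀, hord d₁ hd₁ hd₁0, hord d₂ hd₂ hd₂0, add_zero, add_zero]
    · rw [← hfb]
      ring

end Pool.Agent.GTL

end
end

section

/-!
# GTL EtG2: finitely generated algebras which are stable under a derivation

PROOF.  `exists_stable`: `S` from `exists_gens`; the finitely many elements of `F`, `D S` are `a / h` with `a, h ∈ ℂ[S]`, `E.ord h = 0`, common denominator `h` (product); `A := ℂ[S, 1 / h]`, `D (1 / h) = - D h / h ^ 2`.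
`exists_stable_any`: `K = ℂ(η)`, the same with `S = η` and all `h ≠ 0`.
`exists_pt`: `q := {f ∈ A : E.ord f > 0}` is a prime ideal of `A`; `A ⧸ q` is a finitely generated `ℂ`-algebra `≠ 0`: it has a maximal ideal, with residue field `ℂ` (Nullstellensatz).
-/

set_option autoImplicit false

open MvPolynomial
open Pool.Agent.H23.Fano (PrimeDivisorOver)

noncomputable section

namespace Pool.Agent.GTL

variable {K : Type} [Field K] [Algebra ℂ K] {k : ℕ}

private theorem common_den (S : Finset K) (P : K → Prop) (h1 : P 1) (hmul : ∀ a b, P a → P b → P (a * b)) (G : Finset K)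
    (hG : ∀ f ∈ G, ∃ a ∈ Algebra.adjoin ℂ (S : Set K), ∃ h ∈ Algebra.adjoin ℂ (S : Set K), P h ∧ f * h = a) :
    ∃ h ∈ Algebra.adjoin ℂ (S : Set K), P h ∧ ∀ f ∈ G, f * h ∈ Algebra.adjoin ℂ (S : Set K) := by
  classical
  induction G using Finset.induction_on with
  | empty => exact ⟨1, one_mem _, h1, by simp⟩
  | insert g G hg ih =>
    obtain ⟨h, hh, hP, hf⟩ := ih fun f hf => hG f (Finset.mem_insert_of_mem hf)
    obtain ⟨a, ha, h', hh', hP', he⟩ := hG g (Finset.mem_insert_self g G)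
    refine ⟨h * h', mul_mem hh hh', hmul _ _ hP hP', fun f hfG => ?_⟩
    rcases Finset.mem_insert.1 hfG with rfl | hfG
    · rw [show f * (h * h') = h * (f * h') by ring, he]
      exact mul_mem hh ha
    · rw [← mul_assoc]
      exact mul_mem (hf f hfG) hh'

private theorem stable_aux (S : Finset K) (P : K → Prop) (h1 : P 1) (hmul : ∀ a b, P a → P b → P (a * b)) (hne : ∀ a, P a → a ≠ 0)
    (D : Derivation ℂ K K) (F : Finset K)
    (hF : ∀ f ∈ F, ∃ a ∈ Algebra.adjoin ℂ (S : Set K), ∃ h ∈ Algebra.adjoin ℂ (S : Set K), P h ∧ f * h = a)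
    (hS : ∀ s ∈ S, ∃ a ∈ Algebra.adjoin ℂ (S : Set K), ∃ h ∈ Algebra.adjoin ℂ (S : Set K), P h ∧ D s * h = a) :
    ∃ h ∈ Algebra.adjoin ℂ (S : Set K), P h ∧ (∀ f ∈ F, f ∈ Algebra.adjoin ℂ (insert h⁻¹ (S : Set K))) ∧
      ∀ f ∈ Algebra.adjoin ℂ (insert h⁻¹ (S : Set K)), D f ∈ Algebra.adjoin ℂ (insert h⁻¹ (S : Set K)) := by
  classical
  obtain ⟨h, hh, hP, hG⟩ := common_den S P h1 hmul (F ∪ S.image D) (by
    intro f hf
    rcases Finset.mem_union.1 hf with hf | hf
    · exact hF f hf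
    · obtain ⟨s, hs, rfl⟩ := Finset.mem_image.1 hf
      exact hS s hs)
  have hh0 := hne h hP
  have hle : Algebra.adjoin ℂ (S : Set K) ≤ Algebra.adjoin ℂ (insert h⁻¹ (S : Set K)) := Algebra.adjoin_mono (Set.subset_insert _ _)
  have hinv : h⁻¹ ∈ Algebra.adjoin ℂ (insert h⁻¹ (S : Set K)) := Algebra.subset_adjoin (Set.mem_insert _ _)
  have hGA : ∀ f ∈ F ∪ S.image D, f ∈ Algebra.adjoin ℂ (insert h⁻¹ (S : Set K)) := by
    intro f hf
    have := mul_mem (hle (hG f hf)) hinv
    rwa [mul_assoc, mul_inv_cancel₀ hh0, mul_one] at this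
  have hDS : ∀ f ∈ Algebra.adjoin ℂ (S : Set K), D f ∈ Algebra.adjoin ℂ (insert h⁻¹ (S : Set K)) := by
    intro f hf
    induction hf using Algebra.adjoin_induction with
    | mem x hx => exact hGA _ (Finset.mem_union_right _ (Finset.mem_image_of_mem _ hx))
    | algebraMap r => rw [Derivation.map_algebraMap]; exact zero_mem _
    | add x y _ _ hx hy => rw [map_add]; exact add_mem hx hy
    | mul x y hx' hy' hx hy =>
      rw [Derivation.leibniz, smul_eq_mul, smul_eq_mul]
      exact add_mem (mul_mem (hle hx') hy) (mul_mem (hle hy') hx)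
  refine ⟨h, hh, hP, fun f hf => hGA f (Finset.mem_union_left _ hf), fun f hf => ?_⟩
  induction hf using Algebra.adjoin_induction with
  | mem x hx =>
    rcases Set.mem_insert_iff.1 hx with rfl | hx
    · rw [Derivation.leibniz_inv, smul_eq_mul]
      exact mul_mem (neg_mem (pow_mem hinv 2)) (hDS h hh)
    · exact hGA _ (Finset.mem_union_right _ (Finset.mem_image_of_mem _ hx))
  | algebraMap r => rw [Derivation.map_algebraMap]; exact zero_mem _
  | add x y _ _ hx hy => rw [map_add]; exact add_mem hx hy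
  | mul x y hx' hy' hx hy =>
    rw [Derivation.leibniz, smul_eq_mul, smul_eq_mul]
    exact add_mem (mul_mem hx' hy) (mul_mem hy' hx)

private theorem fg_insert (S : Finset K) (x : K) : (Algebra.adjoin ℂ (insert x (S : Set K))).FG := by
  classical
  exact ⟨insert x S, by rw [Finset.coe_insert]⟩

theorem exists_stable [Algebra.EssFiniteType ℂ K] (hk : 1 ≤ k) {z : Fin k → K} (hz : IsTranscendenceBasis ℂ z) (E : PrimeDivisorOver K k)
    (D : Derivation ℂ K K) (hD : ∀ f, 0 ≤ E.ord f → 0 ≤ E.ord (D f)) (F : Finset K) (hF : ∀ f ∈ F, 0 ≤ E.ord f) :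
    ∃ A : Subalgebra ℂ K, A.FG ∧ (∀ f ∈ A, 0 ≤ E.ord f) ∧ (∀ f ∈ F, f ∈ A) ∧ ∀ f ∈ A, D f ∈ A := by
  obtain ⟨S, hS, hq⟩ := exists_gens hk hz E
  obtain ⟨h, hh, hP, hFA, hDA⟩ := stable_aux S (fun h => E.ord h = 0) E.ord.map_one
    (fun a b ha hb => by rw [E.ord.map_mul, ha, hb, add_zero])
    (fun a ha h0 => by rw [h0, E.ord.map_zero] at ha; exact absurd ha (by simp)) D F
    (fun f hf => by
      obtain ⟨a, ha, h, hh, h0, he⟩ := hq f (hF f hf)
      exact ⟨a, ha, h, hh, h0, he⟩)
    (fun s hs => by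
      obtain ⟨a, ha, h, hh, h0, he⟩ := hq (D s) (hD s (hS s hs))
      exact ⟨a, ha, h, hh, h0, he⟩)
  refine ⟨_, fg_insert S h⁻¹, fun f hf => ?_, hFA, hDA⟩
  have hh0 : h ≠ 0 := by
    rintro rfl
    rw [E.ord.map_zero] at hP
    exact absurd hP (by simp)
  induction hf using Algebra.adjoin_induction with
  | mem x hx =>
    rcases Set.mem_insert_iff.1 hx with rfl | hx
    · have h3 : E.ord h + E.ord h⁻¹ = 0 := by rw [← E.ord.map_mul, mul_inv_cancel₀ hh0, E.ord.map_one]
      rw [hP, zero_add] at h3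
      exact h3.ge
    · exact hS x hx
  | algebraMap r => exact E.ord_const r
  | add x y _ _ hx hy => exact E.ord.map_le_add hx hy
  | mul x y _ _ hx hy => rw [E.ord.map_mul]; exact add_nonneg hx hy

theorem exists_stable_any {M : ℕ} {η : Fin (M + 1) → K} (hη : IntermediateField.adjoin ℂ (Set.range η) = ⊤) (D : Derivation ℂ K K) (F : Finset K) :
    ∃ A : Subalgebra ℂ K, A.FG ∧ (∀ f ∈ F, f ∈ A) ∧ ∀ f ∈ A, D f ∈ A := by
  classical
  have hcoe : ((Finset.univ.image η : Finset K) : Set K) = Set.range η := by simp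
  have hq : ∀ f : K, ∃ a ∈ Algebra.adjoin ℂ ((Finset.univ.image η : Finset K) : Set K),
      ∃ h ∈ Algebra.adjoin ℂ ((Finset.univ.image η : Finset K) : Set K), h ≠ 0 ∧ f * h = a := by
    intro f
    rw [hcoe]
    have hf : f ∈ IntermediateField.adjoin ℂ (Set.range η) := by rw [hη]; exact IntermediateField.mem_top
    obtain ⟨r, hr, s, hs, he⟩ := IntermediateField.mem_adjoin_iff_div.1 hf
    by_cases h0 : s = 0
    · refine ⟨0, zero_mem _, 1, one_mem _, one_ne_zero, ?_⟩
      rw [he, h0, div_zero, zero_mul]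
    · exact ⟨r, hr, s, hs, h0, by rw [he, div_mul_cancel₀ _ h0]⟩
  obtain ⟨h, hh, hP, hFA, hDA⟩ := stable_aux (Finset.univ.image η) (fun h => h ≠ 0) one_ne_zero (fun a b ha hb => mul_ne_zero ha hb)
    (fun a ha => ha) D F (fun f _ => hq f) (fun s _ => hq (D s))
  exact ⟨_, fg_insert (Finset.univ.image η) h⁻¹, hFA, hDA⟩

private theorem exists_hom_of_ne_top {B : Type} [CommRing B] [Algebra ℂ B] [Algebra.FiniteType ℂ B] (q : Ideal B) (hq : q ≠ ⊤) :
    ∃ w : B →ₐ[ℂ] ℂ, ∀ f ∈ q, w f = 0 := by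
  obtain ⟨m, hm, hqm⟩ := Ideal.exists_le_maximal q hq
  let _ : Field (B ⧸ m) := Ideal.Quotient.field m
  have : Algebra.FiniteType ℂ (B ⧸ m) := Algebra.FiniteType.of_surjective (Ideal.Quotient.mkₐ ℂ m) (Ideal.Quotient.mkₐ_surjective ℂ m)
  have : Module.Finite ℂ (B ⧸ m) := finite_of_finite_type_of_isJacobsonRing ℂ (B ⧸ m)
  have hb := IsAlgClosed.algebraMap_bijective_of_isIntegral (k := ℂ) (K := B ⧸ m)
  let e : ℂ ≃ₐ[ℂ] (B ⧸ m) := AlgEquiv.ofBijective (Algebra.ofId ℂ (B ⧸ m)) hb
  refine ⟨e.symm.toAlgHom.comp (Ideal.Quotient.mkₐ ℂ m), fun f hf => ?_⟩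
  have h1 : Ideal.Quotient.mkₐ ℂ m f = 0 := Ideal.Quotient.eq_zero_iff_mem.2 (hqm hf)
  rw [AlgHom.comp_apply, h1, map_zero]

/-- a point of the centre of the prime divisor -/
theorem exists_pt (E : PrimeDivisorOver K k) (A : Subalgebra ℂ K) (hA : A.FG) (hE : ∀ f ∈ A, 0 ≤ E.ord f) :
    ∃ w : A →ₐ[ℂ] ℂ, ∀ f : A, 0 < E.ord (f : K) → w f = 0 := by
  have : Algebra.FiniteType ℂ A := A.fg_iff_finiteType.1 hA
  let q : Ideal A :=
    { carrier := {f | 0 < E.ord (f : K)}
      add_mem' := fun {a b} ha hb => E.ord.map_lt_add ha hb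
      zero_mem' := by
        show 0 < E.ord ((0 : A) : K)
        rw [ZeroMemClass.coe_zero, E.ord.map_zero]
        exact WithTop.coe_lt_top _
      smul_mem' := fun c x hx => by
        show 0 < E.ord ((c * x : A) : K)
        rw [MulMemClass.coe_mul, E.ord.map_mul]
        exact lt_of_lt_of_le hx (le_add_of_nonneg_left (hE c c.2)) }
  obtain ⟨w, hw⟩ := exists_hom_of_ne_top q (by
    intro h
    have h1 : (1 : A) ∈ q := by rw [h]; exact Submodule.mem_top
    have h2 : 0 < E.ord ((1 : A) : K) := h1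
    rw [OneMemClass.coe_one, E.ord.map_one] at h2
    exact lt_irrefl _ h2)
  exact ⟨w, fun f hf => hw f hf⟩

/-- any point -/
theorem exists_pt_any (A : Subalgebra ℂ K) (hA : A.FG) : Nonempty (A →ₐ[ℂ] ℂ) := by
  have : Algebra.FiniteType ℂ A := A.fg_iff_finiteType.1 hA
  obtain ⟨w, _⟩ := exists_hom_of_ne_top (⊥ : Ideal A) bot_ne_top
  exact ⟨w⟩

/-- the derivation induced on a stable subalgebra -/
def resDer (D : Derivation ℂ K K) (A : Subalgebra ℂ K) (hD : ∀ f ∈ A, D f ∈ A) : Derivation ℂ A A where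
  toFun f := ⟨D f, hD f f.2⟩
  map_add' f g := Subtype.ext (by simp)
  map_smul' c f := Subtype.ext (by simp)
  map_one_eq_zero' := Subtype.ext (by simp)
  leibniz' f g := Subtype.ext (by simp)

end Pool.Agent.GTL

end
end

section

/-!
# GTL EtDf: definitions for project ET (coverings `U' → U` and varieties of log general type)

`K ⊆ K'` are the function fields of `Z` and `Z'` (`Z' → Z` generically finite).
-/

set_option autoImplicit false

open Topology Filter MvPolynomial
open Pool.Agent.H17 (PN VanishesAt)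
open Pool.Agent.H17EF (projVar)
open Pool.Agent.H23.Fano (PrimeDivisorOver)
open Pool.Agent.H17LG.Variety (FunField ratio)
open Pool.Agent.H7.Bir (vals rmap)

noncomputable section

namespace Pool.Agent.GTL

/-- the prime divisor `E'` of `K'` lies over the prime divisor `E` of `K`, with ramification index `e` -/
def Over {K K' : Type} [Field K] [Algebra ℂ K] [Field K'] [Algebra ℂ K'] [Algebra K K'] {k : ℕ} (E : PrimeDivisorOver K k) (E' : PrimeDivisorOver K' k)
    (e : ℕ) : Prop :=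
  1 ≤ e ∧ ∀ x : K, E'.ord (algebraMap K K' x) = e • E.ord x

/-- the point `(y, x)` satisfies all the polynomial relations of the functions `(η, ξ)` -/
def Pt {L : Type} [Field L] [Algebra ℂ L] {M N : ℕ} (η : Fin (M + 1) → L) (ξ : Fin (N + 1) → L) (y : Fin (M + 1) → ℂ) (x : Fin (N + 1) → ℂ) : Prop :=
  ∀ F : MvPolynomial (Fin (M + 1) ⊕ Fin (N + 1)) ℂ, aeval (Sum.elim η ξ) F = 0 → eval (Sum.elim y x) F = 0

/-- the map `(y, x) ↦ x` is locally injective at the points `(y₀, x₀)` of the variety of `(η, ξ)` with `U y₀ ≠ 0` -/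
def LocInj {L : Type} [Field L] [Algebra ℂ L] {M N : ℕ} (η : Fin (M + 1) → L) (ξ : Fin (N + 1) → L) (U : MvPolynomial (Fin (M + 1)) ℂ) : Prop :=
  ∀ y₀ x₀, Pt η ξ y₀ x₀ → eval y₀ U ≠ 0 → ∀ᶠ q in 𝓝 (y₀, y₀), ∀ x, Pt η ξ q.1 x → Pt η ξ q.2 x → q.1 = q.2

/-- `Φ` is an integral curve of the derivation `D` on the spectrum of `A`, defined on the disc of radius `ρ` -/
def IsFlow {A : Type} [CommRing A] [Algebra ℂ A] (D : Derivation ℂ A A) (ρ : ℝ) (Φ : ℂ → A →ₐ[ℂ] ℂ) : Prop :=
  ∀ τ ∈ Metric.ball (0 : ℂ) ρ, ∀ f : A, HasDerivAt (fun σ => Φ σ f) (Φ τ (D f)) τ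

variable {N M : ℕ}

/-- `p` maps the variety of `Q'` onto a dense subset of the variety of `Q` -/
structure DomPair (Q : Ideal (MvPolynomial (Fin (N + 1)) ℂ)) (Q' : Ideal (MvPolynomial (Fin (M + 1)) ℂ)) (p : PN M → PN N) : Prop where
  maps : ∀ y ∈ projVar Q', p y ∈ projVar Q
  dense : ∀ (R : MvPolynomial (Fin (N + 1)) ℂ) (n : ℕ), R.IsHomogeneous n → R ∉ Q → ∃ y ∈ projVar Q', ¬ VanishesAt R (p y)

/-- the embedding `φ` of function fields is the one given by `p` -/
def Induces (Q : Ideal (MvPolynomial (Fin (N + 1)) ℂ)) [Q.IsPrime] (Q' : Ideal (MvPolynomial (Fin (M + 1)) ℂ)) [Q'.IsPrime] (p : PN M → PN N)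
    (φ : FunField Q →ₐ[ℂ] FunField Q') : Prop :=
  ∀ (D : ℕ) (γ : Fin (N + 1) → MvPolynomial (Fin (M + 1)) ℂ), (∀ i, (γ i).IsHomogeneous D) →
    (∀ y ∈ projVar Q', vals γ y.rep ≠ 0 → p y = rmap γ y) → ∀ i₁, γ i₁ ∉ Q' → ∀ j, X j ∉ Q' → ∀ i,
      φ (ratio Q i i₁) * aeval (fun l => ratio Q' l j) (γ i₁) = aeval (fun l => ratio Q' l j) (γ i)

end Pool.Agent.GTL

end
end

section

/-!
# GTL EtA: an element of `K'` which is regular at all prime divisors over `E` is integral at `E`

PROOF.  `A` = the valuation ring of `E` in `K`: a discrete valuation ring with fraction field `K`.  The integral closure `B` of `A` in `K'` is a Dedekind domain with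
fraction field `K'` (`integralClosure.isDedekindDomain`; `K' / K` is finite and separable).  Every height one prime `v` of `B` gives a prime divisor `E'` of `K'`
(`Place_add (v.valuation K')`): it is `≥ 0` on `B`, `> 0` on the uniformizer `t` of `E` (`v ∩ A` is a nonzero prime ideal of `A`, so the maximal ideal), so `Over E E' e`
with `e = ord' t ≥ 1`.  `residue_trdeg`: the images of the elements of `K` for `E`.  So if `ord' x ≥ 0` for all these `E'` then `x` is integral over `A`
(`HeightOneSpectrum.mem_integers_of_valuation_le_one`), and the coefficients of `minpoly K x` are in `A`.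
-/

set_option autoImplicit false

open Pool.Agent.H23.Fano (PrimeDivisorOver)
open Pool.Agent.H62.FC (Place_phi Place_phi_zero Place_phi_one Place_phi_exp Place_phi_mul Place_phi_nonneg_iff Place_add Place_add_apply)

noncomputable section

namespace Pool.Agent.GTL

section EtA

variable {K : Type} [Field K] [Algebra ℂ K] {k : ℕ}

private theorem etA_int (E : PrimeDivisorOver K k) {a : K} (ha : a ≠ 0) : ∃ n : ℤ, E.ord a = (n : WithTop ℤ) ∧ E.ord a⁻¹ = ((-n : ℤ) : WithTop ℤ) := by
  have h1 : E.ord a ≠ ⊤ := fun h => ha (E.ord.top_iff.1 h)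
  have h2 : E.ord a⁻¹ ≠ ⊤ := fun h => inv_ne_zero ha (E.ord.top_iff.1 h)
  obtain ⟨n, hn⟩ := WithTop.ne_top_iff_exists.1 h1
  obtain ⟨l, hl⟩ := WithTop.ne_top_iff_exists.1 h2
  have h3 : E.ord a + E.ord a⁻¹ = 0 := by rw [← AddValuation.map_mul, mul_inv_cancel₀ ha, AddValuation.map_one]
  rw [← hn, ← hl, ← WithTop.coe_add] at h3
  have h4 : n + l = 0 := by exact_mod_cast h3
  refine ⟨n, hn.symm, ?_⟩
  rw [← hl]
  congr 1
  omega

private theorem etA_pow (E : PrimeDivisorOver K k) {t : K} (ht : E.ord t = 1) (n : ℕ) : E.ord (t ^ n) = ((n : ℤ) : WithTop ℤ) := by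
  induction n with
  | zero => rw [pow_zero, AddValuation.map_one]; rfl
  | succ n ih =>
    rw [pow_succ, AddValuation.map_mul, ih, ht]
    push_cast
    rfl

private theorem etA_zpow (E : PrimeDivisorOver K k) {t : K} (ht0 : t ≠ 0) (ht : E.ord t = 1) (n : ℤ) : E.ord (t ^ n) = (n : WithTop ℤ) := by
  cases n with
  | ofNat n => rw [Int.ofNat_eq_natCast, zpow_natCast]; exact etA_pow E ht n
  | negSucc n =>
    rw [zpow_negSucc]
    obtain ⟨l, h1, h2⟩ := etA_int E (pow_ne_zero (n + 1) ht0)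
    rw [etA_pow E ht (n + 1)] at h1
    have h3 : ((n + 1 : ℕ) : ℤ) = l := by exact_mod_cast h1
    rw [h2, ← h3]
    rfl

/-- the valuation ring -/
private def etVr (E : PrimeDivisorOver K k) : ValuationSubring K where
  carrier := {a | 0 ≤ E.ord a}
  mul_mem' := by
    intro a b ha hb
    show 0 ≤ E.ord (a * b)
    rw [AddValuation.map_mul]
    exact add_nonneg ha hb
  one_mem' := by
    show 0 ≤ E.ord 1
    rw [AddValuation.map_one]
  add_mem' := by
    intro a b ha hb
    exact (le_min ha hb).trans (E.ord.map_add a b)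
  zero_mem' := by
    show 0 ≤ E.ord 0
    rw [AddValuation.map_zero]
    exact le_top
  neg_mem' := by
    intro a ha
    show 0 ≤ E.ord (-a)
    rw [AddValuation.map_neg]
    exact ha
  mem_or_inv_mem' := by
    intro a
    by_cases h0 : a = 0
    · left
      show 0 ≤ E.ord a
      rw [h0, AddValuation.map_zero]
      exact le_top
    · obtain ⟨n, h1, h2⟩ := etA_int E h0
      rcases le_total 0 n with h | h
      · left
        show 0 ≤ E.ord a
        rw [h1]
        exact_mod_cast h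
      · right
        show 0 ≤ E.ord a⁻¹
        rw [h2]
        have : 0 ≤ -n := by omega
        exact_mod_cast this

private theorem mem_etVr (E : PrimeDivisorOver K k) {a : K} : a ∈ etVr E ↔ 0 ≤ E.ord a := Iff.rfl

private theorem etA_unit (E : PrimeDivisorOver K k) (x : etVr E) (hx : (x : K) ≠ 0) : IsUnit x ↔ E.ord (x : K) = 0 := by
  obtain ⟨n, h1, h2⟩ := etA_int E hx
  constructor
  · rintro ⟨u, hu⟩
    have e : (x : K) * (((u⁻¹ : (etVr E)ˣ) : etVr E) : K) = 1 := by
      have h := congrArg Subtype.val u.mul_inv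
      rw [hu] at h
      exact h
    have e2 : (((u⁻¹ : (etVr E)ˣ) : etVr E) : K) = (x : K)⁻¹ := (inv_eq_of_mul_eq_one_right e).symm
    have h3 : 0 ≤ E.ord (x : K)⁻¹ := by
      rw [← e2]
      exact (mem_etVr E).1 ((u⁻¹ : (etVr E)ˣ) : etVr E).2
    have h4 : 0 ≤ E.ord (x : K) := (mem_etVr E).1 x.2
    rw [h1] at h4 ⊢
    rw [h2] at h3
    have h5 : 0 ≤ n := by exact_mod_cast h4
    have h6 : 0 ≤ -n := by exact_mod_cast h3
    have h7 : n = 0 := by omega
    rw [h7]
    rfl
  · intro h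
    rw [h1] at h
    have h3 : n = 0 := by exact_mod_cast h
    have hi : (x : K)⁻¹ ∈ etVr E := (mem_etVr E).2 (by rw [h2, h3]; simp)
    refine IsUnit.of_mul_eq_one ⟨(x : K)⁻¹, hi⟩ ?_
    apply Subtype.ext
    exact mul_inv_cancel₀ hx

private theorem etA_dvr (E : PrimeDivisorOver K k) {t : K} (ht0 : t ≠ 0) (ht : E.ord t = 1) : IsDiscreteValuationRing (etVr E) := by
  apply IsDiscreteValuationRing.ofHasUnitMulPowIrreducibleFactorization
  have htm : t ∈ etVr E := (mem_etVr E).2 (by rw [ht]; exact zero_le_one)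
  refine ⟨⟨t, htm⟩, ⟨?_, ?_⟩, ?_⟩
  · rw [etA_unit E _ ht0]
    change ¬ E.ord t = 0
    rw [ht]
    exact one_ne_zero
  · intro a b hab
    have hab' : t = (a : K) * (b : K) := congrArg Subtype.val hab
    have ha : (a : K) ≠ 0 := by
      intro h; apply ht0; rw [hab', h, zero_mul]
    have hb : (b : K) ≠ 0 := by
      intro h; apply ht0; rw [hab', h, mul_zero]
    have h2 : E.ord t = E.ord (a : K) + E.ord (b : K) := by rw [hab', AddValuation.map_mul]
    have h3 : 0 ≤ E.ord (a : K) := (mem_etVr E).1 a.2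
    have h4 : 0 ≤ E.ord (b : K) := (mem_etVr E).1 b.2
    rw [etA_unit E a ha, etA_unit E b hb]
    obtain ⟨n, hn, -⟩ := etA_int E ha
    obtain ⟨l, hl, -⟩ := etA_int E hb
    rw [ht, hn, hl] at h2
    rw [hn] at h3
    rw [hl] at h4
    have h5 : (1 : ℤ) = n + l := by exact_mod_cast h2
    have h6 : 0 ≤ n := by exact_mod_cast h3
    have h7 : 0 ≤ l := by exact_mod_cast h4
    rw [hn, hl]
    rcases (by omega : n = 0 ∨ l = 0) with h | h
    · left; rw [h]; rfl
    · right; rw [h]; rfl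
  · intro x hx
    have hx' : (x : K) ≠ 0 := fun h => hx (Subtype.ext h)
    obtain ⟨n, hn, hn'⟩ := etA_int E hx'
    have h3 : 0 ≤ E.ord (x : K) := (mem_etVr E).1 x.2
    rw [hn] at h3
    have h4 : 0 ≤ n := by exact_mod_cast h3
    obtain ⟨l, rfl⟩ := Int.eq_ofNat_of_zero_le h4
    refine ⟨l, ?_⟩
    have hp : t ^ l ≠ 0 := pow_ne_zero l ht0
    have hu0 : (x : K) * (t ^ l)⁻¹ ≠ 0 := mul_ne_zero hx' (inv_ne_zero hp)
    have hv0 : E.ord ((x : K) * (t ^ l)⁻¹) = 0 := by
      obtain ⟨j, h5, h6⟩ := etA_int E hp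
      rw [etA_pow E ht l] at h5
      have h7 : (l : ℤ) = j := by exact_mod_cast h5
      rw [AddValuation.map_mul, hn, h6, ← h7, ← WithTop.coe_add]
      simp
    have hum : (x : K) * (t ^ l)⁻¹ ∈ etVr E := (mem_etVr E).2 (by rw [hv0])
    obtain ⟨u, hu⟩ : IsUnit (⟨_, hum⟩ : etVr E) := (etA_unit E ⟨_, hum⟩ hu0).2 hv0
    refine ⟨u, ?_⟩
    apply Subtype.ext
    rw [hu]
    change t ^ l * ((x : K) * (t ^ l)⁻¹) = x
    field_simp

theorem integral_of_over {K K' : Type} [Field K] [Algebra ℂ K] [Field K'] [Algebra ℂ K'] [Algebra K K'] [IsScalarTower ℂ K K'] [FiniteDimensional K K'] {k : ℕ}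
    (E : PrimeDivisorOver K k) {x : K'} (h : ∀ (E' : PrimeDivisorOver K' k) (e : ℕ), Over E E' e → 0 ≤ E'.ord x) (j : ℕ) :
    0 ≤ E.ord ((minpoly K x).coeff j) := by
  obtain ⟨t, ht⟩ := E.exists_uniformizer
  have ht0 : t ≠ 0 := by
    rintro rfl
    rw [AddValuation.map_zero] at ht
    exact WithTop.top_ne_one ht
  have : CharZero K := charZero_of_injective_algebraMap (algebraMap ℂ K).injective
  have hd : IsDiscreteValuationRing (etVr E) := etA_dvr E ht0 ht
  have : IsDedekindDomain (integralClosure (etVr E) K') := integralClosure.isDedekindDomain (etVr E) K K'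
  have : IsFractionRing (integralClosure (etVr E) K') K' := IsIntegralClosure.isFractionRing_of_finite_extension (etVr E) K K' (integralClosure (etVr E) K')
  have key : ∀ a : etVr E, algebraMap (integralClosure (etVr E) K') K' (algebraMap (etVr E) (integralClosure (etVr E) K') a) = algebraMap K K' (a : K) := by
    intro a
    rw [← IsScalarTower.algebraMap_apply (etVr E) (integralClosure (etVr E) K') K', IsScalarTower.algebraMap_apply (etVr E) K K']
    rfl
  -- the places
  have hplace : ∀ P : IsDedekindDomain.HeightOneSpectrum (integralClosure (etVr E) K'), P.valuation K' x ≤ 1 := by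
    intro P
    have hne : ∀ x : K', x ≠ 0 → P.valuation K' x ≠ 0 := fun x hx => (Valuation.ne_zero_iff _).2 hx
    have hcomap : P.asIdeal.comap (algebraMap (etVr E) (integralClosure (etVr E) K')) = IsLocalRing.maximalIdeal (etVr E) := by
      have h1 : P.asIdeal.comap (algebraMap (etVr E) (integralClosure (etVr E) K')) ≠ ⊥ := by
        obtain ⟨b, hb, hb0⟩ := P.asIdeal.ne_bot_iff.1 P.ne_bot
        exact Ideal.comap_ne_bot_of_integral_mem hb0 hb (Algebra.IsIntegral.isIntegral b)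
      have h2 : (P.asIdeal.comap (algebraMap (etVr E) (integralClosure (etVr E) K'))).IsPrime := P.isPrime.comap _
      exact IsLocalRing.eq_maximalIdeal (h2.isMaximal h1)
    have htm : t ∈ etVr E := (mem_etVr E).2 (by rw [ht]; exact zero_le_one)
    have htQ : algebraMap (etVr E) (integralClosure (etVr E) K') ⟨t, htm⟩ ∈ P.asIdeal := by
      rw [← Ideal.mem_comap, hcomap, IsLocalRing.mem_maximalIdeal, mem_nonunits_iff, etA_unit E _ ht0]
      change ¬ E.ord t = 0
      rw [ht]
      exact one_ne_zero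
    have hle : ∀ a : K, 0 ≤ E.ord a → P.valuation K' (algebraMap K K' a) ≤ 1 := by
      intro a ha
      have h1 := key ⟨a, (mem_etVr E).2 ha⟩
      rw [show algebraMap K K' a = algebraMap K K' ((⟨a, (mem_etVr E).2 ha⟩ : etVr E) : K) from rfl, ← h1]
      exact P.valuation_le_one _
    have hun : ∀ a : K, E.ord a = 0 → P.valuation K' (algebraMap K K' a) = 1 := by
      intro a h0
      have ha : a ≠ 0 := by
        rintro rfl
        rw [AddValuation.map_zero] at h0
        exact WithTop.top_ne_zero h0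
      obtain ⟨n, h1, h2⟩ := etA_int E ha
      have h3 := hle a (by rw [h0])
      have h4 := hle a⁻¹ (by
        rw [h0] at h1
        have : n = 0 := by exact_mod_cast h1.symm
        rw [h2, this]
        simp)
      rw [map_inv₀, map_inv₀] at h4
      refine le_antisymm h3 ?_
      have h5 : P.valuation K' (algebraMap K K' a) ≠ 0 := hne _ (by simpa using ha)
      exact (inv_le_one₀ (zero_lt_iff.2 h5)).1 h4
    have hlt : P.valuation K' (algebraMap K K' t) < 1 := by
      have h1 := key ⟨t, htm⟩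
      rw [show algebraMap K K' t = algebraMap K K' ((⟨t, htm⟩ : etVr E) : K) from rfl, ← h1]
      exact (P.valuation_lt_one_iff_mem _).2 htQ
    have htK' : algebraMap K K' t ≠ 0 := by simpa using ht0
    obtain ⟨e, he1, he⟩ : ∃ e : ℕ, 1 ≤ e ∧ WithZero.log (P.valuation K' (algebraMap K K' t)) = -(e : ℤ) := by
      have h1 := (WithZero.log_lt_log (hne _ htK') one_ne_zero).2 hlt
      rw [WithZero.log_one] at h1
      refine ⟨(-WithZero.log (P.valuation K' (algebraMap K K' t))).toNat, ?_, ?_⟩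
      · omega
      · omega
    have hval : ∀ a : K, a ≠ 0 → ∀ n : ℤ, E.ord a = (n : WithTop ℤ) → Place_add (P.valuation K') (algebraMap K K' a) = (((e : ℤ) * n : ℤ) : WithTop ℤ) := by
      intro a ha n hn
      have h1 : a * (t ^ n)⁻¹ ≠ 0 := mul_ne_zero ha (inv_ne_zero (zpow_ne_zero _ ht0))
      have h2 : E.ord (a * (t ^ n)⁻¹) = 0 := by
        obtain ⟨l, h5, h6⟩ := etA_int E (zpow_ne_zero n ht0)
        rw [etA_zpow E ht0 ht n] at h5
        have h7 : n = l := by exact_mod_cast h5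
        rw [AddValuation.map_mul, hn, h6, ← h7, ← WithTop.coe_add]
        simp
      have h3 := hun _ h2
      have h4 : a = a * (t ^ n)⁻¹ * t ^ n := by
        rw [mul_assoc, inv_mul_cancel₀ (zpow_ne_zero _ ht0), mul_one]
      have h5 : P.valuation K' (algebraMap K K' a) = (P.valuation K' (algebraMap K K' t)) ^ n := by
        conv_lhs => rw [h4]
        rw [map_mul (algebraMap K K'), map_mul (P.valuation K'), h3, one_mul, map_zpow₀, map_zpow₀]
      rw [Place_add_apply, Place_phi, if_neg (hne _ (by simpa using ha)), h5, WithZero.log_zpow, he]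
      congr 1
      simp only [smul_eq_mul]
      ring
    -- the prime divisor
    have hE' : ∀ a : K, Place_add (P.valuation K') (algebraMap K K' a) = e • E.ord a := by
      intro a
      by_cases ha : a = 0
      · rw [ha, map_zero, AddValuation.map_zero, AddValuation.map_zero]
        obtain ⟨e', rfl⟩ : ∃ e', e = e' + 1 := ⟨e - 1, by omega⟩
        rw [succ_nsmul, WithTop.add_top]
      · obtain ⟨n, hn, -⟩ := etA_int E ha
        rw [hval a ha n hn, hn]
        have h1 : ∀ e : ℕ, e • (n : WithTop ℤ) = (((e : ℤ) * n : ℤ) : WithTop ℤ) := by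
          intro e
          induction e with
          | zero => simp
          | succ e ih =>
            rw [succ_nsmul, ih, ← WithTop.coe_add]
            congr 1
            push_cast
            ring
        rw [h1]
    have hconst : ∀ c : ℂ, 0 ≤ Place_add (P.valuation K') (algebraMap ℂ K' c) := by
      intro c
      rw [IsScalarTower.algebraMap_apply ℂ K K', Place_add_apply, Place_phi_nonneg_iff]
      exact hle _ (E.ord_const c)
    have hunif : ∃ u : K', Place_add (P.valuation K') u = 1 := by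
      obtain ⟨π, hπ⟩ := P.valuation_exists_uniformizer K'
      refine ⟨π, ?_⟩
      rw [Place_add_apply, hπ, Place_phi_exp]
      simp
    have hres : ∃ s : Fin (k - 1) → K', (∀ i, 0 ≤ Place_add (P.valuation K') (s i)) ∧
        ∀ p : MvPolynomial (Fin (k - 1)) ℂ, p ≠ 0 → Place_add (P.valuation K') (MvPolynomial.aeval s p) = 0 := by
      obtain ⟨s, hs1, hs2⟩ := E.residue_trdeg
      refine ⟨fun i => algebraMap K K' (s i), fun i => ?_, fun p hp => ?_⟩
      · rw [Place_add_apply, Place_phi_nonneg_iff]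
        exact hle _ (hs1 i)
      · have h1 : MvPolynomial.aeval (fun i => algebraMap K K' (s i)) p = algebraMap K K' (MvPolynomial.aeval s p) := by
          exact MvPolynomial.aeval_algebraMap_apply K' s p
        rw [h1, Place_add_apply, hun _ (hs2 p hp), Place_phi_one]
    have h1 := h ⟨Place_add (P.valuation K'), hconst, hunif, hres⟩ e ⟨he1, hE'⟩
    exact Place_phi_nonneg_iff.1 h1
  obtain ⟨y, hy⟩ := IsDedekindDomain.HeightOneSpectrum.mem_integers_of_valuation_le_one K' x hplace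
  have hint : IsIntegral (etVr E) x := by
    rw [← hy]
    exact y.2
  rw [minpoly.isIntegrallyClosed_eq_field_fractions' K hint, Polynomial.coeff_map]
  exact (mem_etVr E).1 ((minpoly (etVr E) x).coeff j).2

end EtA

end Pool.Agent.GTL

end
end

section

/-!
# GTL EtF: holomorphic flow of a derivation of a finitely generated algebra

PROOF.  `π : ℂ[X 1 … X n] → A` surjective, `D (π (X i)) = π (F i)`, `D̂ = ∑ F i ∂ i`, `π ∘ D̂ = D ∘ π`.  `x` = the holomorphic solution of `x' = F (x)`, `x 0 = (w (π (X i)))` (`G3/C/Ode`, `ode_hol`).  For `f ∈ ker π` the function `f (x τ)` has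
the derivative `(D̂ f) (x τ)`, and is `0` at `0`; so it has order `≥ n` at `0` for all `n`, and is `0`.  So the evaluation at `x τ` descends to `A`.
-/

set_option autoImplicit false

open Topology Filter MvPolynomial

noncomputable section

namespace Pool.Agent.GTL

/-- the derivative of a polynomial along an integral curve -/
private theorem flow_deriv {n : ℕ} {F : Fin n → MvPolynomial (Fin n) ℂ} {x : ℂ → Fin n → ℂ} {τ : ℂ} (hx : HasDerivAt x (fun i => eval (x τ) (F i)) τ)
    (f : MvPolynomial (Fin n) ℂ) : HasDerivAt (fun σ => eval (x σ) f) (eval (x τ) (mkDerivation ℂ F f)) τ := by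
  induction f using MvPolynomial.induction_on with
  | C a => simpa using hasDerivAt_const τ a
  | add p q hp hq =>
    have h1 := hp.add hq
    simp only [map_add]
    exact h1
  | mul_X p i hp =>
    have h1 : HasDerivAt (fun σ => x σ i) (eval (x τ) (F i)) τ := (hasDerivAt_pi.1 hx) i
    have h2 := hp.mul h1
    have e1 : (fun σ => eval (x σ) (p * X i)) = fun σ => eval (x σ) p * x σ i := by funext σ; simp
    rw [e1]
    refine h2.congr_deriv ?_
    simp only [Derivation.leibniz, mkDerivation_X, smul_eq_mul, map_add, map_mul, eval_X]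
    ring

theorem exists_flow {A : Type} [CommRing A] [Algebra ℂ A] [Algebra.FiniteType ℂ A] (D : Derivation ℂ A A) (w : A →ₐ[ℂ] ℂ) :
    ∃ (ρ : ℝ) (Φ : ℂ → A →ₐ[ℂ] ℂ), 0 < ρ ∧ Φ 0 = w ∧ IsFlow D ρ Φ := by
  obtain ⟨n, π, hπ⟩ := Algebra.FiniteType.iff_quotient_mvPolynomial''.1 (inferInstance : Algebra.FiniteType ℂ A)
  choose F hF using fun i => hπ (D (π (X i)))
  set D' : Derivation ℂ (MvPolynomial (Fin n) ℂ) (MvPolynomial (Fin n) ℂ) := mkDerivation ℂ F with hD'
  have hDD : ∀ f, π (D' f) = D (π f) := by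
    intro f
    induction f using MvPolynomial.induction_on with
    | C a =>
      have h1 : (C a : MvPolynomial (Fin n) ℂ) = algebraMap ℂ _ a := rfl
      rw [h1, AlgHom.commutes, Derivation.map_algebraMap, Derivation.map_algebraMap, map_zero]
    | add p q hp hq => rw [map_add, map_add, map_add, map_add, hp, hq]
    | mul_X p i hp =>
      rw [Derivation.leibniz, map_mul, Derivation.leibniz, hD', mkDerivation_X]
      simp only [smul_eq_mul, map_add, map_mul]
      rw [hF, ← hp, hD']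
  -- the starting point
  set y₀ : Fin n → ℂ := fun i => w (π (X i)) with hy₀
  have hev : ∀ f, w (π f) = eval y₀ f := by
    have h1 : w.comp π = aeval y₀ := by
      apply MvPolynomial.algHom_ext
      intro i
      simp [hy₀]
    intro f
    have h2 := congrArg (fun φ : MvPolynomial (Fin n) ℂ →ₐ[ℂ] ℂ => φ f) h1
    simpa [aeval_eq_eval] using h2
  -- the solution
  set V : ℂ × (Fin n → ℂ) → Fin n → ℂ := fun q i => eval q.2 (F i) with hV
  have hVd : Differentiable ℂ V := by
    rw [differentiable_pi]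
    intro i
    have h1 : Differentiable ℂ fun y : Fin n → ℂ => eval y (F i) := fun y => (AnalyticOnNhd.eval_mvPolynomial (F i) y (Set.mem_univ y)).differentiableAt
    exact h1.comp differentiable_snd
  obtain ⟨M, hM⟩ : ∃ M : ℝ, ∀ q ∈ Metric.closedBall ((0 : ℂ), y₀) 1, ‖V q‖ ≤ M := (isCompact_closedBall _ _).exists_bound_of_continuousOn hVd.continuous.continuousOn
  obtain ⟨ρ, hρ, -, hode⟩ := Pool.Agent.G3.C.ode_hol (n := n) (R := 1) (M := max M 1) one_pos (lt_of_lt_of_le one_pos (le_max_right _ _))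
  obtain ⟨x, hx0, hx⟩ := hode V 0 y₀ hVd.differentiableOn fun q hq => (hM q (Metric.ball_subset_closedBall hq)).trans (le_max_left _ _)
  have hxd : ∀ τ ∈ Metric.ball (0 : ℂ) ρ, ∀ f, HasDerivAt (fun σ => eval (x σ) f) (eval (x τ) (D' f)) τ := fun τ hτ f => flow_deriv (hx τ hτ).2 f
  have h0 : (0 : ℂ) ∈ Metric.ball (0 : ℂ) ρ := Metric.mem_ball_self hρ
  have han : ∀ f, AnalyticOnNhd ℂ (fun σ => eval (x σ) f) (Metric.ball (0 : ℂ) ρ) := fun f =>
    DifferentiableOn.analyticOnNhd (fun τ hτ => (hxd τ hτ f).differentiableAt.differentiableWithinAt) Metric.isOpen_ball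
  -- the relations stay zero
  have hord : ∀ (k : ℕ) f, π f = 0 → (k : ℕ∞) ≤ analyticOrderAt (fun σ => eval (x σ) f) 0 := by
    intro k
    induction k with
    | zero => intro f _; simp
    | succ k ih =>
      intro f hf
      have h1 := (han f 0 h0).analyticOrderAt_deriv_add_one
      have h2 : deriv (fun σ => eval (x σ) f) =ᶠ[𝓝 0] fun σ => eval (x σ) (D' f) := by
        filter_upwards [Metric.isOpen_ball.mem_nhds h0] with τ hτ
        exact (hxd τ hτ f).deriv
      have h3 : (fun σ => eval (x σ) f - eval (x 0) f) = fun σ => eval (x σ) f := by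
        funext σ
        rw [hx0, ← hev f, hf, map_zero, sub_zero]
      rw [analyticOrderAt_congr h2] at h1
      simp only [h3] at h1
      rw [← h1]
      have h4 := ih (D' f) (by rw [hDD, hf, map_zero])
      push_cast
      gcongr
  have hker : ∀ τ ∈ Metric.ball (0 : ℂ) ρ, ∀ f, π f = 0 → eval (x τ) f = 0 := by
    intro τ hτ f hf
    have h1 : analyticOrderAt (fun σ => eval (x σ) f) 0 = ⊤ := by
      rw [ENat.eq_top_iff_forall_ge]
      exact fun k => hord k f hf
    have h2 := analyticOrderAt_eq_top.1 h1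
    exact (han f).eqOn_zero_of_preconnected_of_eventuallyEq_zero (convex_ball _ _).isPreconnected h0 h2 hτ
  have hle : ∀ τ ∈ Metric.ball (0 : ℂ) ρ, RingHom.ker π.toRingHom ≤ RingHom.ker (aeval (x τ) : MvPolynomial (Fin n) ℂ →ₐ[ℂ] ℂ).toRingHom := by
    intro τ hτ f hf
    have h1 : π f = 0 := hf
    show (aeval (x τ) : MvPolynomial (Fin n) ℂ →ₐ[ℂ] ℂ) f = 0
    rw [aeval_eq_eval]
    exact hker τ hτ f h1
  classical
  set Φ : ℂ → A →ₐ[ℂ] ℂ := fun τ => if hτ : τ ∈ Metric.ball (0 : ℂ) ρ then AlgHom.liftOfSurjective π hπ (aeval (x τ)) (hle τ hτ) else w with hΦ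
  have hΦa : ∀ τ ∈ Metric.ball (0 : ℂ) ρ, ∀ f, Φ τ (π f) = eval (x τ) f := by
    intro τ hτ f
    rw [hΦ]
    simp only [hτ, dite_true]
    rw [AlgHom.liftOfSurjective_apply, aeval_eq_eval]
  refine ⟨ρ, Φ, hρ, ?_, ?_⟩
  · apply AlgHom.ext
    intro a
    obtain ⟨f, rfl⟩ := hπ a
    rw [hΦa 0 h0, hx0, hev]
  · intro τ hτ a
    obtain ⟨f, rfl⟩ := hπ a
    rw [← hDD, hΦa τ hτ]
    refine (hxd τ hτ f).congr_of_eventuallyEq ?_
    filter_upwards [Metric.isOpen_ball.mem_nhds hτ] with σ hσ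
    exact hΦa σ hσ f

end Pool.Agent.GTL

end
end

section

/-!
# GTL EtH: comparison of flows

PROOF of `flow_compare`: for `f : A₁` let `h f τ := Φ τ (ψ f) - Φ₁ (Φ τ (ψ t)) f`, defined near `0` (`Φ τ (ψ t)` is continuous at `0` with value `0`), differentiable near `0` (so analytic at `0`), `h f 0 = 0`, and
`h f' = Φ τ (D (ψ f)) - Φ₁ (…) (D₁ f) * Φ τ (D (ψ t)) = Φ τ g * h (D₁ f)`, since `D (ψ t) = g`.  By induction on `n`, `h f` has order `≥ n` at `0` for all `f` and all `n` (`analyticOrderAt`, order of the derivative);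
so `h f = 0` near `0`.
-/

set_option autoImplicit false

open Topology Filter Metric

noncomputable section

namespace Pool.Agent.GTL

/-- a function which is differentiable on a disc about `0` is analytic at `0` -/
private theorem EtH_an {h k : ℂ → ℂ} {r : ℝ} (hr : 0 < r) (h1 : ∀ τ ∈ ball (0 : ℂ) r, HasDerivAt h (k τ) τ) : AnalyticAt ℂ h 0 := by
  refine DifferentiableOn.analyticAt (s := ball (0 : ℂ) r) (fun τ hτ => (h1 τ hτ).differentiableAt.differentiableWithinAt) ?_
  exact ball_mem_nhds _ hr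

theorem flow_compare {A A₁ : Type} [CommRing A] [Algebra ℂ A] [CommRing A₁] [Algebra ℂ A₁] {D : Derivation ℂ A A} {D₁ : Derivation ℂ A₁ A₁}
    {ψ : A₁ →ₐ[ℂ] A} {g : A} (hD : ∀ f, D (ψ f) = g * ψ (D₁ f)) {t : A₁} (ht : D₁ t = 1) {ρ ρ₁ : ℝ} (hρ : 0 < ρ) (hρ₁ : 0 < ρ₁)
    {Φ : ℂ → A →ₐ[ℂ] ℂ} {Φ₁ : ℂ → A₁ →ₐ[ℂ] ℂ} (hΦ : IsFlow D ρ Φ) (hΦ₁ : IsFlow D₁ ρ₁ Φ₁) (h0 : Φ₁ 0 = (Φ 0).comp ψ)
    (ht0 : Φ 0 (ψ t) = 0) (f : A₁) : ∀ᶠ τ in 𝓝 (0 : ℂ), Φ τ (ψ f) = Φ₁ (Φ τ (ψ t)) f := by
  -- the inner function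
  have hc : ∀ τ ∈ ball (0 : ℂ) ρ, HasDerivAt (fun σ => Φ σ (ψ t)) (Φ τ g) τ := by
    intro τ hτ
    have h1 := hΦ τ hτ (ψ t)
    rwa [hD, ht, map_one, mul_one] at h1
  have hcont : ContinuousAt (fun σ => Φ σ (ψ t)) 0 := (hc 0 (mem_ball_self hρ)).continuousAt
  obtain ⟨ρ₂, hρ₂, hρ₂'⟩ : ∃ ρ₂ > 0, ∀ τ ∈ ball (0 : ℂ) ρ₂, τ ∈ ball (0 : ℂ) ρ ∧ Φ τ (ψ t) ∈ ball (0 : ℂ) ρ₁ := by
    have h1 : ∀ᶠ τ in 𝓝 (0 : ℂ), τ ∈ ball (0 : ℂ) ρ := ball_mem_nhds _ hρ
    have h2 : ∀ᶠ τ in 𝓝 (0 : ℂ), Φ τ (ψ t) ∈ ball (0 : ℂ) ρ₁ := by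
      refine hcont ?_
      simp only [ht0]
      exact ball_mem_nhds _ hρ₁
    obtain ⟨r, hr, h3⟩ := Metric.eventually_nhds_iff_ball.1 (h1.and h2)
    exact ⟨r, hr, h3⟩
  -- the difference and its derivative
  obtain ⟨h, hh⟩ : ∃ h : A₁ → ℂ → ℂ, ∀ f τ, h f τ = Φ τ (ψ f) - Φ₁ (Φ τ (ψ t)) f := ⟨_, fun _ _ => rfl⟩
  have hder : ∀ (f : A₁), ∀ τ ∈ ball (0 : ℂ) ρ₂, HasDerivAt (h f) (Φ τ g * h (D₁ f) τ) τ := by
    intro f τ hτ
    obtain ⟨h1, h2⟩ := hρ₂' τ hτ
    have h3 := hΦ τ h1 (ψ f)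
    have h4 : HasDerivAt (fun σ => Φ₁ (Φ σ (ψ t)) f) (Φ₁ (Φ τ (ψ t)) (D₁ f) * Φ τ g) τ :=
      HasDerivAt.comp (h₂ := fun s => Φ₁ s f) τ (hΦ₁ _ h2 f) (hc τ h1)
    have h5 := h3.sub h4
    have h6 : h f = fun σ => Φ σ (ψ f) - Φ₁ (Φ σ (ψ t)) f := funext fun σ => hh f σ
    rw [h6]
    refine h5.congr_deriv ?_
    rw [hD, map_mul, hh]
    ring
  have h00 : ∀ f, h f 0 = 0 := by
    intro f
    rw [hh, ht0, h0, AlgHom.comp_apply, sub_self]
  have han : ∀ f, AnalyticAt ℂ (h f) 0 := fun f => EtH_an hρ₂ (hder f)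
  have hG : AnalyticAt ℂ (fun τ => Φ τ g) 0 := EtH_an hρ fun τ hτ => hΦ τ hτ g
  -- the order
  have hord : ∀ (n : ℕ) (f : A₁), (n : ℕ∞) ≤ analyticOrderAt (h f) 0 := by
    intro n
    induction n with
    | zero => intro f; simp
    | succ n ih =>
      intro f
      have h1 := (han f).analyticOrderAt_deriv_add_one
      have h2 : (fun z => h f z - h f 0) = h f := by
        funext z
        rw [h00, sub_zero]
      rw [h2] at h1
      have h3 : deriv (h f) =ᶠ[𝓝 0] (fun τ => Φ τ g) * h (D₁ f) := by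
        filter_upwards [ball_mem_nhds (0 : ℂ) hρ₂] with τ hτ
        exact (hder f τ hτ).deriv
      rw [← h1, analyticOrderAt_congr h3, analyticOrderAt_mul hG (han _), Nat.cast_add, Nat.cast_one]
      gcongr
      exact (ih (D₁ f)).trans le_add_self
  have htop : analyticOrderAt (h f) 0 = ⊤ := ENat.eq_top_iff_forall_ge.2 fun n => hord n f
  rw [analyticOrderAt_eq_top] at htop
  filter_upwards [htop] with τ hτ
  rw [hh, sub_eq_zero] at hτ
  exact hτ

end Pool.Agent.GTL

end
end

section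

/-!
# GTL EtI2: local injectivity gives finiteness

PROOF.  `algebraic_of_locInj`: if `K' / K` is not algebraic, there is a derivation `D ≠ 0` of `K'` which is `0` on `K` (`K' / K` is essentially of finite type: `Algebra.FormallyUnramified.iff_isSeparable`, `Ω[K'⁄K] ≠ 0`), so `D (η l) ≠ 0` for some `l`.
`A` from `exists_stable_any` (contains `η`, `ξ`, `1 / U (η)`, `1 / D (η l)`), `w₀` (`exists_pt_any`), flow `Φ`: `Φ τ (ξ i)` is constant, `Φ τ (η l)` has derivative `≠ 0` at `0`: contradiction with `hLI`.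
-/

set_option autoImplicit false

open Topology Filter MvPolynomial
open Pool.Agent.H23.Fano (PrimeDivisorOver)

noncomputable section

namespace Pool.Agent.GTL

variable {K K' : Type} [Field K] [Algebra ℂ K] [Field K'] [Algebra ℂ K'] [Algebra K K'] [IsScalarTower ℂ K K'] {k M N : ℕ}

/-- a derivation which does not kill the generators, if the extension is not algebraic -/
private theorem exists_der {η : Fin (M + 1) → K'} (hη : IntermediateField.adjoin ℂ (Set.range η) = ⊤) (hna : ¬ Algebra.IsAlgebraic K K') :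
    ∃ (D : Derivation K K' K') (l : Fin (M + 1)), D (η l) ≠ 0 := by
  classical
  by_contra hcon
  push Not at hcon
  have hess0 : Algebra.EssFiniteType ℂ K' := by
    rw [← IntermediateField.fg_top_iff]
    exact ⟨Finset.univ.image η, by rw [Finset.coe_image, Finset.coe_univ, Set.image_univ]; exact hη⟩
  have hess : Algebra.EssFiniteType K K' := Algebra.EssFiniteType.of_comp ℂ K K'
  have hD0 : ∀ (D : Derivation K K' K') (a : K'), D a = 0 := by
    intro D a
    have ha : a ∈ IntermediateField.adjoin ℂ (Set.range η) := by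
      rw [hη]
      exact IntermediateField.mem_top
    induction ha using IntermediateField.adjoin_induction with
    | mem x hx =>
      obtain ⟨l, rfl⟩ := hx
      exact hcon D l
    | algebraMap x =>
      rw [IsScalarTower.algebraMap_apply ℂ K K', Derivation.map_algebraMap]
    | add x y _ _ h1 h2 => rw [map_add, h1, h2, add_zero]
    | inv x _ h1 => rw [Derivation.leibniz_inv, h1, smul_zero]
    | mul x y _ _ h1 h2 => rw [Derivation.leibniz, h1, h2, smul_zero, smul_zero, add_zero]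
  have hf : ∀ f : Ω[K'⁄K] →ₗ[K'] K', f = 0 := by
    intro f
    have h1 : f.compDer (KaehlerDifferential.D K K') = 0 := by
      ext a
      exact hD0 _ a
    have h2 : ∀ x ∈ Submodule.span K' (Set.range (KaehlerDifferential.D K K')), f x = 0 := by
      intro x hx
      induction hx using Submodule.span_induction with
      | mem x hx =>
        obtain ⟨a, rfl⟩ := hx
        exact congrArg (fun D : Derivation K K' K' => D a) h1
      | zero => exact map_zero f
      | add x y _ _ h1 h2 => rw [map_add, h1, h2, add_zero]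
      | smul c x _ h1 => rw [map_smul, h1, smul_zero]
    refine LinearMap.ext fun x => h2 x ?_
    rw [KaehlerDifferential.span_range_derivation]
    exact Submodule.mem_top
  have hsub : Subsingleton (Ω[K'⁄K]) := by
    refine ⟨fun x y => ?_⟩
    rw [← sub_eq_zero]
    exact (Module.forall_dual_apply_eq_zero_iff K' (x - y)).mp fun f => by rw [hf f]; rfl
  have hur : Algebra.FormallyUnramified K K' := ⟨hsub⟩
  have hsep := (Algebra.FormallyUnramified.iff_isSeparable K K').mp hur
  exact hna inferInstance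

theorem algebraic_of_locInj {η : Fin (M + 1) → K'} (hη : IntermediateField.adjoin ℂ (Set.range η) = ⊤) {ξ : Fin (N + 1) → K}
    {U : MvPolynomial (Fin (M + 1)) ℂ} (hU : aeval η U ≠ 0) (hLI : LocInj η (fun i => algebraMap K K' (ξ i)) U) : Algebra.IsAlgebraic K K' := by
  classical
  by_contra hna
  obtain ⟨D₀, l, hDl⟩ := exists_der hη hna
  let D : Derivation ℂ K' K' := D₀.restrictScalars ℂ
  have hDD : ∀ a, D a = D₀ a := fun _ => rfl
  have hDK : ∀ a : K, D (algebraMap K K' a) = 0 := fun a => by rw [hDD, Derivation.map_algebraMap]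
  obtain ⟨A, hA, hF, hst⟩ := exists_stable_any hη D
    (Finset.univ.image η ∪ Finset.univ.image (fun i => algebraMap K K' (ξ i)) ∪ {(aeval η U)⁻¹, (D (η l))⁻¹})
  have hηA : ∀ j, η j ∈ A := fun j => hF _ (by simp)
  have hξA : ∀ i, algebraMap K K' (ξ i) ∈ A := fun i => hF _ (by simp)
  have hUA : (aeval η U)⁻¹ ∈ A := hF _ (by simp)
  have hDA : (D (η l))⁻¹ ∈ A := hF _ (by simp)
  obtain ⟨w₀⟩ := exists_pt_any A hA
  haveI : Algebra.FiniteType ℂ A := (Subalgebra.fg_iff_finiteType A).mp hA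
  obtain ⟨ρ, Φ, hρ, hΦ0, hΦ⟩ := exists_flow (resDer D A hst) w₀
  -- the coordinates along the flow
  let y : ℂ → Fin (M + 1) → ℂ := fun τ j => Φ τ ⟨η j, hηA j⟩
  let x : ℂ → Fin (N + 1) → ℂ := fun τ i => Φ τ ⟨algebraMap K K' (ξ i), hξA i⟩
  have hyd : ∀ τ ∈ Metric.ball (0 : ℂ) ρ, ∀ j, HasDerivAt (fun σ => y σ j) (Φ τ (resDer D A hst ⟨η j, hηA j⟩)) τ := fun τ hτ j => hΦ τ hτ _
  have hxd : ∀ τ ∈ Metric.ball (0 : ℂ) ρ, ∀ i, HasDerivAt (fun σ => x σ i) 0 τ := fun τ hτ i => by
    have h1 := hΦ τ hτ ⟨algebraMap K K' (ξ i), hξA i⟩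
    have h2 : resDer D A hst ⟨algebraMap K K' (ξ i), hξA i⟩ = 0 := Subtype.ext (hDK (ξ i))
    rw [h2, map_zero] at h1
    exact h1
  have hxc : ∀ τ ∈ Metric.ball (0 : ℂ) ρ, x τ = x 0 := by
    intro τ hτ
    funext i
    exact (convex_ball (0 : ℂ) ρ).is_const_of_fderivWithin_eq_zero (𝕜 := ℂ) (f := fun σ => x σ i)
      (fun σ hσ => (hxd σ hσ i).differentiableAt.differentiableWithinAt)
      (fun σ hσ => by
        rw [fderivWithin_of_isOpen Metric.isOpen_ball hσ]
        have h1 := (hxd σ hσ i).hasFDerivAt.fderiv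
        rw [h1]
        ext
        simp) hτ (Metric.mem_ball_self hρ)
  have hPt : ∀ τ, Pt η (fun i => algebraMap K K' (ξ i)) (y τ) (x τ) := by
    intro τ F hF0
    have h1 : aeval (Sum.elim (fun j => (⟨η j, hηA j⟩ : A)) fun i => (⟨algebraMap K K' (ξ i), hξA i⟩ : A)) F = 0 := by
      apply Subtype.coe_injective
      show A.val (aeval _ F) = A.val 0
      rw [map_zero, ← hF0, ← AlgHom.comp_apply, comp_aeval]
      congr 2
      funext s
      rcases s with j | i <;> rfl
    have h2 : Φ τ (aeval (Sum.elim (fun j => (⟨η j, hηA j⟩ : A)) fun i => (⟨algebraMap K K' (ξ i), hξA i⟩ : A)) F) = 0 := by rw [h1, map_zero]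
    rw [← AlgHom.comp_apply, comp_aeval] at h2
    have h3 : eval (Sum.elim (y τ) (x τ)) F = aeval (Sum.elim (y τ) (x τ)) F :=
      (congrArg (fun φ : MvPolynomial (Fin (M + 1) ⊕ Fin (N + 1)) ℂ →+* ℂ => φ F) (coe_aeval_eq_eval (Sum.elim (y τ) (x τ)))).symm
    rw [h3, ← h2]
    congr 2
    funext s
    rcases s with j | i <;> rfl
  have hU0 : eval (y 0) U ≠ 0 := by
    have h1 : eval (y 0) U = Φ 0 (aeval (fun j => (⟨η j, hηA j⟩ : A)) U) := by
      rw [← AlgHom.comp_apply, comp_aeval]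
      exact (congrArg (fun φ : MvPolynomial (Fin (M + 1)) ℂ →+* ℂ => φ U) (coe_aeval_eq_eval (y 0))).symm
    have h2 : (aeval (fun j => (⟨η j, hηA j⟩ : A)) U) * (⟨(aeval η U)⁻¹, hUA⟩ : A) = 1 := by
      apply Subtype.coe_injective
      show A.val (aeval _ U) * (aeval η U)⁻¹ = 1
      rw [← AlgHom.comp_apply, comp_aeval]
      exact mul_inv_cancel₀ hU
    have h3 : Φ 0 (aeval (fun j => (⟨η j, hηA j⟩ : A)) U) * Φ 0 (⟨(aeval η U)⁻¹, hUA⟩ : A) = 1 := by
      rw [← map_mul, h2, map_one]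
    rw [h1]
    exact left_ne_zero_of_mul_eq_one h3
  have hD1 : Φ 0 (resDer D A hst ⟨η l, hηA l⟩) ≠ 0 := by
    have h2 : (resDer D A hst ⟨η l, hηA l⟩) * (⟨(D (η l))⁻¹, hDA⟩ : A) = 1 := by
      apply Subtype.coe_injective
      exact mul_inv_cancel₀ hDl
    have h3 : Φ 0 (resDer D A hst ⟨η l, hηA l⟩) * Φ 0 (⟨(D (η l))⁻¹, hDA⟩ : A) = 1 := by
      rw [← map_mul, h2, map_one]
    exact left_ne_zero_of_mul_eq_one h3
  -- local injectivity
  have h0 : (0 : ℂ) ∈ Metric.ball (0 : ℂ) ρ := Metric.mem_ball_self hρ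
  have hyc : ContinuousAt y 0 := continuousAt_pi.mpr fun j => (hyd 0 h0 j).continuousAt
  have hLI' := hLI (y 0) (x 0) (hPt 0) hU0
  have hq : Tendsto (fun τ => (y τ, y 0)) (𝓝 0) (𝓝 (y 0, y 0)) := hyc.tendsto.prodMk_nhds tendsto_const_nhds
  have hev : ∀ᶠ τ in 𝓝 (0 : ℂ), y τ = y 0 := by
    filter_upwards [hq.eventually hLI', Metric.ball_mem_nhds (0 : ℂ) hρ] with τ h1 h2
    refine h1 (x 0) ?_ (hPt 0)
    have h3 := hPt τ
    rwa [hxc τ h2] at h3
  have hc : HasDerivAt (fun σ => y σ l) 0 0 := (hasDerivAt_const (0 : ℂ) (y 0 l)).congr_of_eventuallyEq (hev.mono fun τ h => congrFun h l)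
  exact hD1 ((hyd 0 h0 l).unique hc)

end Pool.Agent.GTL

end
end

section

/-!
# Fermat covers: the big Picard theorem and the Brody statement outside the exceptional set
-/

noncomputable section

namespace Pool.Agent.H62.FC

open MvPolynomial Topology Filter
open Pool.Agent.H92.GGL (ordZ)
open Pool.Agent.H17 (PN VanishesAt zeroLocus ZariskiClosedIn HolomorphicInto puncturedDisc)
open Pool.Agent.H23.Fano (PrimeDivisorOver)

variable {N : ℕ} {κ : Type} {A : κ → MvPolynomial (Fin (N + 1)) ℂ} {e : κ → ℕ}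
  {O : Finset (Fin (N + 1))} {P : Ideal (MvPolynomial (Fin (N + 1)) ℂ)}

/-! ### Restriction of polynomials to some of the variables -/

open Classical in
/-- the part of `p` which only involves the variables in `T` -/
def restr (T : Finset (Fin (N + 1))) (p : MvPolynomial (Fin (N + 1)) ℂ) :
    MvPolynomial {i // i ∈ T} ℂ :=
  ∑ a ∈ p.support.filter (fun a => ∀ i, i ∉ T → a i = 0),
    monomial (a.subtypeDomain (fun i => i ∈ T)) (coeff a p)

theorem restr_support {T : Finset (Fin (N + 1))} {p : MvPolynomial (Fin (N + 1)) ℂ}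
    {b : {i // i ∈ T} →₀ ℕ} (hb : b ∈ (restr T p).support) :
    ∃ a ∈ p.support, (∀ i, i ∉ T → a i = 0) ∧ ∀ i : {i // i ∈ T}, b i = a i := by
  classical
  unfold restr at hb
  have h1 := MvPolynomial.support_sum hb
  rw [Finset.mem_biUnion] at h1
  obtain ⟨a, ha, hab⟩ := h1
  obtain ⟨ha1, ha2⟩ := Finset.mem_filter.mp ha
  have h2 := MvPolynomial.support_monomial_subset hab
  rw [Finset.mem_singleton] at h2
  refine ⟨a, ha1, ha2, fun i => ?_⟩
  rw [h2]
  rfl

theorem restr_card (T : Finset (Fin (N + 1))) (p : MvPolynomial (Fin (N + 1)) ℂ) :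
    (restr T p).support.card ≤ p.support.card := by
  classical
  have h : (restr T p).support ⊆
      p.support.image (fun a => a.subtypeDomain (fun i => i ∈ T)) := by
    intro b hb
    obtain ⟨a, ha, -, hab⟩ := restr_support hb
    rw [Finset.mem_image]
    refine ⟨a, ha, ?_⟩
    ext i
    rw [hab i]
    rfl
  exact (Finset.card_le_card h).trans Finset.card_image_le

theorem restr_sum {M : Type*} [AddCommMonoid M] {T : Finset (Fin (N + 1))}
    (a : Fin (N + 1) → M) (ha : ∀ i, i ∉ T → a i = 0) :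
    ∑ i : {i // i ∈ T}, a i = ∑ i, a i := by
  rw [Finset.sum_coe_sort T a]
  exact Finset.sum_subset (Finset.subset_univ T) fun i _ hi => ha i hi

private theorem restr_prod {M : Type*} [CommMonoid M] {T : Finset (Fin (N + 1))}
    (a : Fin (N + 1) → M) (ha : ∀ i, i ∉ T → a i = 1) :
    ∏ i : {i // i ∈ T}, a i = ∏ i, a i := by
  rw [Finset.prod_coe_sort T a]
  exact Finset.prod_subset (Finset.subset_univ T) fun i _ hi => ha i hi

theorem restr_homog {T : Finset (Fin (N + 1))} {p : MvPolynomial (Fin (N + 1)) ℂ} {m : ℕ}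
    (hp : p.IsHomogeneous m) : (restr T p).IsHomogeneous m := by
  classical
  unfold restr
  refine MvPolynomial.IsHomogeneous.sum _ _ _ fun a ha => ?_
  obtain ⟨ha1, ha2⟩ := Finset.mem_filter.mp ha
  refine MvPolynomial.isHomogeneous_monomial _ ?_
  have hdeg : a.degree = m := by
    by_contra hne
    exact (mem_support_iff.mp ha1) (hp.coeff_eq_zero hne)
  rw [← hdeg, Finsupp.degree_eq_sum, Finsupp.degree_eq_sum]
  exact restr_sum (fun i => a i) ha2

theorem restr_eval {T : Finset (Fin (N + 1))} (p : MvPolynomial (Fin (N + 1)) ℂ)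
    (g : Fin (N + 1) → ℂ) (hg : ∀ i, i ∉ T → g i = 0) :
    eval (fun i : {i // i ∈ T} => g i) (restr T p) = eval g p := by
  classical
  unfold restr
  rw [map_sum, MvPolynomial.eval_eq', Finset.sum_filter]
  refine Finset.sum_congr rfl fun a _ => ?_
  by_cases ha : ∀ i, i ∉ T → a i = 0
  · rw [if_pos ha, MvPolynomial.eval_monomial, Finsupp.prod_fintype _ _ (fun _ => pow_zero _)]
    congr 1
    exact restr_prod (fun i => g i ^ a i) fun i hi => by rw [ha i hi, pow_zero]
  · rw [if_neg ha]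
    push Not at ha
    obtain ⟨i, hi, hai⟩ := ha
    rw [Finset.prod_eq_zero (Finset.mem_univ i), mul_zero]
    rw [hg i hi, zero_pow hai]

/-! ### Level sums -/

theorem whc_homog {σ : Type} {p : MvPolynomial σ ℂ} {m : ℕ} (hp : p.IsHomogeneous m)
    (n : σ → ℤ) (v : ℤ) : (weightedHomogeneousComponent n v p).IsHomogeneous m := by
  classical
  intro a ha
  rw [coeff_weightedHomogeneousComponent] at ha
  split_ifs at ha with h
  · exact hp ha
  · exact absurd rfl ha

theorem eval_level {σ : Type} [Fintype σ] (p : MvPolynomial σ ℂ) (n : σ → ℤ) (a : σ → ℂ)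
    (h : ∀ v, eval a (weightedHomogeneousComponent n v p) = 0) {t : ℂ} (ht : t ≠ 0) :
    eval (fun i => a i * t ^ n i) p = 0 := by
  classical
  have h1 : ∀ d : σ →₀ ℕ, ∏ i, (a i * t ^ n i) ^ d i =
      (∏ i, a i ^ d i) * t ^ (Finsupp.weight n d) := by
    intro d
    rw [Finsupp.weight_apply, Finsupp.sum_fintype _ _ (by intro i; simp)]
    have h2 : t ^ (∑ i, d i • n i) = ∏ i, t ^ (d i • n i) := by
      refine Finset.induction_on (Finset.univ : Finset σ) (by simp) ?_
      intro i s hi ih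
      rw [Finset.sum_insert hi, Finset.prod_insert hi, zpow_add₀ ht, ih]
    rw [h2, ← Finset.prod_mul_distrib]
    refine Finset.prod_congr rfl fun i _ => ?_
    rw [mul_pow, nsmul_eq_mul, mul_comm (d i : ℤ) (n i), zpow_mul, zpow_natCast]
  rw [MvPolynomial.eval_eq']
  have h3 : ∀ d ∈ p.support, Finsupp.weight n d ∈ p.support.image (Finsupp.weight n) :=
    fun d hd => Finset.mem_image_of_mem _ hd
  rw [← Finset.sum_fiberwise_of_maps_to h3]
  refine Finset.sum_eq_zero fun v _ => ?_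
  have h4 : ∑ d ∈ p.support with Finsupp.weight n d = v, coeff d p * ∏ i, (a i * t ^ n i) ^ d i =
      t ^ v * eval a (weightedHomogeneousComponent n v p) := by
    rw [weightedHomogeneousComponent_apply, map_sum, Finset.mul_sum]
    refine Finset.sum_congr rfl fun d hd => ?_
    have hdv := (Finset.mem_filter.mp hd).2
    rw [h1 d, hdv, MvPolynomial.eval_monomial, Finsupp.prod_fintype _ _ (fun _ => pow_zero _)]
    ring
  rw [h4, h v, mul_zero]

/-! ### Holomorphic maps of the punctured disc -/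

private theorem preconnected_puncturedDisc : IsPreconnected puncturedDisc := by
  have h : puncturedDisc = Complex.exp '' {z : ℂ | z.re < 0} := by
    ext z
    constructor
    · rintro ⟨h1, h2⟩
      have h3 : z ≠ 0 := h2
      refine ⟨Complex.log z, ?_, Complex.exp_log h3⟩
      rw [mem_ball_zero_iff] at h1
      change (Complex.log z).re < 0
      rw [Complex.log_re]
      exact Real.log_neg (norm_pos_iff.mpr h3) h1
    · rintro ⟨w, hw, rfl⟩
      refine ⟨?_, Complex.exp_ne_zero w⟩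
      rw [mem_ball_zero_iff, Complex.norm_exp]
      have h1 := Real.exp_lt_exp.mpr hw
      rwa [Real.exp_zero] at h1
  rw [h]
  exact (convex_halfSpace_re_lt 0).isPreconnected.image _ Complex.continuous_exp.continuousOn

private theorem isOpen_puncturedDisc : IsOpen puncturedDisc :=
  Metric.isOpen_ball.sdiff isClosed_singleton

theorem mem_puncturedDisc {z : ℂ} : z ∈ puncturedDisc ↔ 0 < ‖z‖ ∧ ‖z‖ < 1 := by
  unfold puncturedDisc
  rw [Set.mem_sdiff, mem_ball_zero_iff, Set.mem_singleton_iff, norm_pos_iff]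
  exact and_comm

private theorem vanishesAt_X {x : PN N} {i : Fin (N + 1)} : VanishesAt (X i) x ↔ x.rep i = 0 := by
  unfold VanishesAt
  rw [eval_X]

theorem vanish_local {f : ℂ → PN N} {s : ℂ} {φ : ℂ → Fin (N + 1) → ℂ}
    (hφ : AnalyticAt ℂ φ s)
    (he : ∀ᶠ z in 𝓝 s, ∃ h : φ z ≠ 0, f z = Projectivization.mk ℂ (φ z) h)
    {Q : MvPolynomial (Fin (N + 1)) ℂ} {m : ℕ} (hQ : Q.IsHomogeneous m) :
    (∀ᶠ z in 𝓝 s, VanishesAt Q (f z)) ∨ (∀ᶠ z in 𝓝[≠] s, ¬ VanishesAt Q (f z)) := by
  have h1 : AnalyticAt ℂ (fun z => aeval (φ z) Q) s :=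
    AnalyticAt.aeval_mvPolynomial (fun i => analyticAt_pi_iff.mp hφ i) Q
  rcases h1.eventually_eq_zero_or_eventually_ne_zero with h | h
  · left
    filter_upwards [h, he] with z hz hfz
    obtain ⟨h2, h3⟩ := hfz
    rw [h3, Pool.Agent.H17.vanishesAt_mk_iff hQ]
    exact hz
  · right
    filter_upwards [h, he.filter_mono nhdsWithin_le_nhds] with z hz hfz
    obtain ⟨h2, h3⟩ := hfz
    rw [h3, Pool.Agent.H17.vanishesAt_mk_iff hQ]
    exact hz

/-- the identity principle -/
theorem vanish_dich {f : ℂ → PN N} (hf : HolomorphicInto f puncturedDisc)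
    {Q : MvPolynomial (Fin (N + 1)) ℂ} {m : ℕ} (hQ : Q.IsHomogeneous m) :
    (∀ s ∈ puncturedDisc, ∀ᶠ z in 𝓝 s, VanishesAt Q (f z)) ∨
      (∀ s ∈ puncturedDisc, ∀ᶠ z in 𝓝[≠] s, ¬ VanishesAt Q (f z)) := by
  have hou : IsOpen {s | ∀ᶠ z in 𝓝 s, VanishesAt Q (f z)} := isOpen_setOfPred_eventually_nhds
  have hov : IsOpen {s | ∀ᶠ z in 𝓝[≠] s, ¬ VanishesAt Q (f z)} :=
    isOpen_setOfPred_eventually_nhdsWithin
  have hd : Disjoint {s | ∀ᶠ z in 𝓝 s, VanishesAt Q (f z)}
      {s | ∀ᶠ z in 𝓝[≠] s, ¬ VanishesAt Q (f z)} := by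
    rw [Set.disjoint_left]
    intro s hs hs'
    have h1 : ∀ᶠ z in 𝓝 s, VanishesAt Q (f z) := hs
    have h2 : ∀ᶠ z in 𝓝[≠] s, ¬ VanishesAt Q (f z) := hs'
    obtain ⟨z, h3, h4⟩ := ((h1.filter_mono nhdsWithin_le_nhds).and h2).exists
    exact h4 h3
  have hsub : puncturedDisc ⊆ {s | ∀ᶠ z in 𝓝 s, VanishesAt Q (f z)} ∪
      {s | ∀ᶠ z in 𝓝[≠] s, ¬ VanishesAt Q (f z)} := by
    intro s hs
    obtain ⟨φ, hφ, he⟩ := hf s hs
    exact vanish_local hφ he hQ
  by_cases hne : (puncturedDisc ∩ {s | ∀ᶠ z in 𝓝 s, VanishesAt Q (f z)}).Nonempty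
  · left
    intro s hs
    exact (preconnected_puncturedDisc.subset_left_of_subset_union hou hov hd hsub hne) hs
  · right
    intro s hs
    rcases hsub hs with h | h
    · exact absurd ⟨s, hs, h⟩ hne
    · exact h

/-- lifts and representatives -/
private theorem exists_lift {f : ℂ → PN N} (hf : HolomorphicInto f puncturedDisc) {s : ℂ}
    (hs : s ∈ puncturedDisc) : ∃ φ : ℂ → Fin (N + 1) → ℂ, (∀ i, AnalyticAt ℂ (fun z => φ z i) s) ∧
      ∀ᶠ z in 𝓝 s, ∃ c : ℂ, c ≠ 0 ∧ ∀ i, (f z).rep i = c * φ z i := by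
  obtain ⟨φ, hφ, he⟩ := hf s hs
  refine ⟨φ, analyticAt_pi_iff.mp hφ, ?_⟩
  filter_upwards [he] with z hz
  obtain ⟨h1, h2⟩ := hz
  obtain ⟨a, ha, h3⟩ := Pool.Agent.H17.exists_smul_rep (φ z) h1
  refine ⟨a, ha, fun i => ?_⟩
  rw [h2, h3]
  rfl

private theorem ord_eq_zero_of_ne {g : ℂ → ℂ} {s : ℂ} (hg : AnalyticAt ℂ g s) (h : g s ≠ 0) :
    ordZ g s = 0 := by
  unfold ordZ
  rw [hg.meromorphicOrderAt_eq, hg.analyticOrderAt_eq_zero.mpr h]
  rfl

open Classical in
/-- the coordinates of `f` which are not identically zero -/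
def nzSet (f : ℂ → PN N) : Finset (Fin (N + 1)) :=
  Finset.univ.filter fun i => ∀ s ∈ puncturedDisc, ∀ᶠ z in 𝓝[≠] s, (f z).rep i ≠ 0

theorem nz_mem {f : ℂ → PN N} {i : Fin (N + 1)} (hi : i ∈ nzSet f) {s : ℂ}
    (hs : s ∈ puncturedDisc) : ∀ᶠ z in 𝓝[≠] s, (f z).rep i ≠ 0 := by
  unfold nzSet at hi
  simp only [Finset.mem_filter, Finset.mem_univ, true_and] at hi
  exact hi s hs

theorem nz_notMem {f : ℂ → PN N} (hf : HolomorphicInto f puncturedDisc)
    {i : Fin (N + 1)} (hi : i ∉ nzSet f) {s : ℂ} (hs : s ∈ puncturedDisc) : (f s).rep i = 0 := by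
  rcases vanish_dich hf (isHomogeneous_X ℂ i) with h | h
  · exact vanishesAt_X.mp (h s hs).self_of_nhds
  · exfalso
    apply hi
    unfold nzSet
    simp only [Finset.mem_filter, Finset.mem_univ, true_and]
    intro s hs
    filter_upwards [h s hs] with z hz hz'
    exact hz (vanishesAt_X.mpr hz')

private theorem quot_mero {f : ℂ → PN N} (hf : HolomorphicInto f puncturedDisc)
    (i i₀ : Fin (N + 1)) {s : ℂ} (hs : s ∈ puncturedDisc) :
    MeromorphicAt (fun z => (f z).rep i / (f z).rep i₀) s := by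
  obtain ⟨φ, hφ, he⟩ := exists_lift hf hs
  have h1 : MeromorphicAt (fun z => φ z i / φ z i₀) s :=
    (hφ i).meromorphicAt.fun_div (hφ i₀).meromorphicAt
  refine h1.congr ?_
  filter_upwards [he.filter_mono nhdsWithin_le_nhds] with z hz
  obtain ⟨c, hc, h2⟩ := hz
  rw [h2, h2, mul_div_mul_left _ _ hc]

theorem quot_meroPunct {f : ℂ → PN N} (hf : HolomorphicInto f puncturedDisc)
    {i i₀ : Fin (N + 1)} (hi : i ∈ nzSet f) (hi₀ : i₀ ∈ nzSet f) :
    MeroPunct 1 (fun z => (f z).rep i / (f z).rep i₀) where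
  mero z h1 h2 := quot_mero hf i i₀ (mem_puncturedDisc.mpr ⟨h1, h2⟩)
  ord z h1 h2 := by
    have hs := mem_puncturedDisc.mpr ⟨h1, h2⟩
    rw [meromorphicOrderAt_ne_top_iff_eventually_ne_zero (quot_mero hf i i₀ hs)]
    filter_upwards [nz_mem hi hs, nz_mem hi₀ hs] with w h3 h4
    exact div_ne_zero h3 h4

theorem ord_quot {f : ℂ → PN N} (hf : HolomorphicInto f puncturedDisc) {s : ℂ}
    (hs : s ∈ puncturedDisc) : ∃ o : Fin (N + 1) → ℤ, (∀ i, (f s).rep i ≠ 0 → o i = 0) ∧
      ∀ i ∈ nzSet f, ∀ i₀ ∈ nzSet f,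
        ordZ (fun z => (f z).rep i / (f z).rep i₀) s = o i - o i₀ := by
  obtain ⟨φ, hφ, he⟩ := exists_lift hf hs
  have hne : ∀ i ∈ nzSet f, ∀ᶠ z in 𝓝[≠] s, φ z i ≠ 0 := by
    intro i hi
    filter_upwards [he.filter_mono nhdsWithin_le_nhds, nz_mem hi hs] with z hz h1 h2
    obtain ⟨c, hc, h3⟩ := hz
    apply h1
    rw [h3, h2, mul_zero]
  have htop : ∀ i ∈ nzSet f, meromorphicOrderAt (fun z => φ z i) s ≠ ⊤ := fun i hi =>
    (meromorphicOrderAt_ne_top_iff_eventually_ne_zero (hφ i).meromorphicAt).mpr (hne i hi)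
  refine ⟨fun i => ordZ (fun z => φ z i) s, ?_, ?_⟩
  · intro i hi
    refine ord_eq_zero_of_ne (hφ i) fun h => hi ?_
    obtain ⟨c, hc, h2⟩ := he.self_of_nhds
    rw [h2, h, mul_zero]
  · intro i hi i₀ hi₀
    have h1 : (fun z => φ z i) =ᶠ[𝓝[≠] s]
        (fun z => ((f z).rep i / (f z).rep i₀) * φ z i₀) := by
      filter_upwards [he.filter_mono nhdsWithin_le_nhds, hne i₀ hi₀] with z hz h3
      obtain ⟨c, hc, h2⟩ := hz
      rw [h2, h2, mul_div_mul_left _ _ hc, div_mul_cancel₀ _ h3]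
    have h2 := meromorphicOrderAt_congr h1
    have h3 : meromorphicOrderAt (fun z => ((f z).rep i / (f z).rep i₀) * φ z i₀) s =
        meromorphicOrderAt (fun z => (f z).rep i / (f z).rep i₀) s +
          meromorphicOrderAt (fun z => φ z i₀) s :=
      fun_meromorphicOrderAt_mul (quot_mero hf i i₀ hs) (hφ i₀).meromorphicAt
    have h5 := mem_puncturedDisc.mp hs
    rw [h3, ← Pool.Agent.H92.GGL.ordZ_cast (htop i hi),
      ← Pool.Agent.H92.GGL.ordZ_cast (htop i₀ hi₀),
      ← Pool.Agent.H92.GGL.ordZ_cast ((quot_meroPunct hf hi hi₀).ord s h5.1 h5.2)] at h2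
    have h4 : ordZ (fun z => φ z i) s =
        ordZ (fun z => (f z).rep i / (f z).rep i₀) s + ordZ (fun z => φ z i₀) s := by
      exact_mod_cast h2
    change _ = ordZ (fun z => φ z i) s - ordZ (fun z => φ z i₀) s
    linarith

theorem eval_quot {T : Finset (Fin (N + 1))} {q : MvPolynomial {i // i ∈ T} ℂ} {m : ℕ}
    (hq : q.IsHomogeneous m) (x : Fin (N + 1) → ℂ) {i₀ : Fin (N + 1)} (h : x i₀ ≠ 0) :
    eval (fun i : {i // i ∈ T} => x i) q =
      x i₀ ^ m * eval (fun i : {i // i ∈ T} => x i / x i₀) q := by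
  rw [← Pool.Agent.H17.eval_smul_of_isHomogeneous hq]
  congr 1
  congr 1
  funext i
  field_simp

theorem eventually_mem_puncturedDisc {s : ℂ} (hs : s ∈ puncturedDisc) :
    ∀ᶠ z in 𝓝[≠] s, z ∈ puncturedDisc := by
  have h : ∀ᶠ z in 𝓝 s, z ∈ puncturedDisc := isOpen_puncturedDisc.mem_nhds hs
  exact h.filter_mono nhdsWithin_le_nhds

theorem eventually_puncturedDisc_zero : ∀ᶠ z in 𝓝[≠] (0 : ℂ), z ∈ puncturedDisc := by
  have h1 : ∀ᶠ z in 𝓝 (0 : ℂ), z ∈ Metric.ball (0 : ℂ) 1 :=
    Metric.ball_mem_nhds (0 : ℂ) one_pos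
  filter_upwards [h1.filter_mono nhdsWithin_le_nhds, self_mem_nhdsWithin] with z h2 h3
  exact ⟨h2, h3⟩

/-! D-C -/

theorem eq_of_sep {p q : PN N} (h : Pool.Agent.H17.sep p q = 0) : p = q := by
  have h1 := Pool.Agent.H17.eq_of_sepv_eq_zero p.rep_nonzero q.rep_nonzero h
  rwa [p.mk_rep, q.mk_rep] at h1

/-! D-D -/

end Pool.Agent.H62.FC

end
end
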