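import Pool.Agent.H18.GGT.M05
import Pool.Agent.H18.GGT.M19

/-! The parts of this file: GG.Kd.Lin, GG.Kd.Gch, GTL.EtH2, GTL.EtQ, H62.FC.Components. -/

section

/-!
# GG Kd Lin: Noether normalisation by linear forms, injective on a small subspace
-/

set_option autoImplicit false

open MvPolynomial

noncomputable section

namespace Pool.Agent.GG.Kd

variable {K : Type} [Field K] [Algebra ℂ K] {r k : ℕ}

namespace LinAux

theorem prod_aux {A : Type*} [CommRing A] {ι : Type*} (s : Finset ι) (f : ι → Polynomial A) (n : ι → ℕ) (h : ∀ i ∈ s, (f i).natDegree ≤ n i) :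
    (∏ i ∈ s, f i).natDegree ≤ ∑ i ∈ s, n i ∧ (∏ i ∈ s, f i).coeff (∑ i ∈ s, n i) = ∏ i ∈ s, (f i).coeff (n i) := by
  classical
  induction s using Finset.induction_on with
  | empty => simp
  | insert a s ha ih =>
    obtain ⟨h1, h2⟩ := ih fun i hi => h i (Finset.mem_insert_of_mem hi)
    have h3 := h a (Finset.mem_insert_self _ _)
    rw [Finset.prod_insert ha, Finset.sum_insert ha, Finset.prod_insert ha]
    refine ⟨Polynomial.natDegree_mul_le.trans (add_le_add h3 h1), ?_⟩
    rw [Polynomial.coeff_mul_add_eq_of_natDegree_le h3 h1, h2]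

theorem coeff_line {A : Type*} [CommRing A] [Algebra ℂ A] {n : ℕ} (s : Fin n → A) (w : Fin n → ℂ) (g : MvPolynomial (Fin n) ℂ) {d : ℕ}
    (hd : g.totalDegree ≤ d) :
    (aeval (fun j => Polynomial.C (s j) + Polynomial.C (algebraMap ℂ A (w j)) * Polynomial.X) g : Polynomial A).natDegree ≤ d ∧
      (aeval (fun j => Polynomial.C (s j) + Polynomial.C (algebraMap ℂ A (w j)) * Polynomial.X) g : Polynomial A).coeff d =
        algebraMap ℂ A (eval w (homogeneousComponent d g)) := by
  classical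
  have hm : ∀ m : Fin n →₀ ℕ, (∏ j, (Polynomial.C (s j) + Polynomial.C (algebraMap ℂ A (w j)) * Polynomial.X) ^ m j : Polynomial A).natDegree ≤ m.degree ∧
      (∏ j, (Polynomial.C (s j) + Polynomial.C (algebraMap ℂ A (w j)) * Polynomial.X) ^ m j : Polynomial A).coeff m.degree =
        algebraMap ℂ A (∏ j, w j ^ m j) := by
    intro m
    rw [Finsupp.degree_eq_sum]
    have h1 : ∀ j, (Polynomial.C (s j) + Polynomial.C (algebraMap ℂ A (w j)) * Polynomial.X : Polynomial A).natDegree ≤ 1 := fun j => by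
      compute_degree
    have h2 : ∀ j, (Polynomial.C (s j) + Polynomial.C (algebraMap ℂ A (w j)) * Polynomial.X : Polynomial A).coeff 1 = algebraMap ℂ A (w j) := fun j => by
      simp [Polynomial.coeff_C]
    have h3 : ∀ j ∈ Finset.univ, ((Polynomial.C (s j) + Polynomial.C (algebraMap ℂ A (w j)) * Polynomial.X) ^ m j : Polynomial A).natDegree ≤ m j := by
      intro j _
      have := Polynomial.natDegree_pow_le_of_le (m j) (h1 j)
      simpa using this
    obtain ⟨h4, h5⟩ := prod_aux Finset.univ _ _ h3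
    refine ⟨h4, ?_⟩
    rw [h5, map_prod]
    refine Finset.prod_congr rfl fun j _ => ?_
    have := Polynomial.coeff_pow_of_natDegree_le (m := m j) (h1 j)
    rw [mul_one] at this
    rw [this, h2, map_pow]
  have hdeg : ∀ m ∈ g.support, m.degree ≤ d := by
    intro m h
    refine le_trans ?_ hd
    have := le_totalDegree h
    rw [Finsupp.sum_fintype _ _ fun _ => rfl] at this
    rw [Finsupp.degree_eq_sum]
    exact this
  rw [aeval_def, eval₂_eq']
  constructor
  · refine Polynomial.natDegree_sum_le_of_forall_le _ _ fun m h => ?_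
    rw [Polynomial.algebraMap_apply]
    exact (Polynomial.natDegree_C_mul_le _ _).trans ((hm m).1.trans (hdeg m h))
  · rw [Polynomial.finsetSum_coeff, eval_eq', map_sum, support_homogeneousComponent, Finset.sum_filter]
    refine Finset.sum_congr rfl fun m h => ?_
    rw [Polynomial.algebraMap_apply, Polynomial.coeff_C_mul]
    split_ifs with h1
    · rw [coeff_homogeneousComponent, if_pos h1, map_mul, ← (hm m).2, h1]
    · rw [Polynomial.coeff_eq_zero_of_natDegree_lt (lt_of_le_of_lt (hm m).1 (lt_of_le_of_ne (hdeg m h) h1)), mul_zero]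

theorem homog_ne {n : ℕ} {g : MvPolynomial (Fin n) ℂ} (hg : g ≠ 0) : homogeneousComponent g.totalDegree g ≠ 0 := by
  classical
  obtain ⟨m, hm, h1⟩ := Finset.exists_mem_eq_sup g.support (support_nonempty.2 hg) fun m => m.sum fun _ e => e
  intro h
  have h2 := congrArg (coeff m) h
  rw [coeff_homogeneousComponent, if_pos, coeff_zero] at h2
  · exact (mem_support_iff.1 hm) h2
  · rw [totalDegree, h1, Finsupp.sum_fintype _ _ fun _ => rfl, Finsupp.degree_eq_sum]

theorem int_mono {S S' : Subalgebra ℂ K} (h : S ≤ S') {a : K} (ha : IsIntegral S a) : IsIntegral S' a := by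
  obtain ⟨p, hp, hpa⟩ := ha
  refine ⟨p.map (Subalgebra.inclusion h).toRingHom, hp.map _, ?_⟩
  rw [Polynomial.eval₂_map]
  exact hpa

theorem int_trans {S : Subalgebra ℂ K} {ι : Type} {t : ι → K} (ht : ∀ j, IsIntegral S (t j)) {a : K}
    (ha : IsIntegral (Algebra.adjoin ℂ (Set.range t)) a) : IsIntegral S a := by
  have h1 : Algebra.adjoin ℂ (Set.range t) ≤ (integralClosure S K).restrictScalars ℂ := by
    rw [Algebra.adjoin_le_iff]
    rintro _ ⟨j, rfl⟩
    exact ht j
  have h2 : IsIntegral (integralClosure S K) a := by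
    have := int_mono h1 ha
    exact this
  exact isIntegral_trans (R := S) (A := integralClosure S K) a h2

/-- one step -/
theorem step (y : Fin r → K) (hK : ∃ z : Fin k → K, IsTranscendenceBasis ℂ z) (T : Submodule ℂ (Fin r → ℂ)) (hT : Module.finrank ℂ T ≤ k) {m : ℕ} (hm : k ≤ m)
    (h : ∃ L : Fin (m + 1) → Fin r → ℂ, (∀ v ∈ T, (∀ j, ∑ i, L j i * v i = 0) → v = 0) ∧
      ∀ i, IsIntegral (Algebra.adjoin ℂ (Set.range fun j => aeval y (lf (L j)))) (y i)) :
    ∃ L : Fin m → Fin r → ℂ, (∀ v ∈ T, (∀ j, ∑ i, L j i * v i = 0) → v = 0) ∧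
      ∀ i, IsIntegral (Algebra.adjoin ℂ (Set.range fun j => aeval y (lf (L j)))) (y i) := by
  classical
  obtain ⟨L, hL, hint⟩ := h
  set t : Fin (m + 1) → K := fun j => aeval y (lf (L j)) with htdef
  -- an equation
  have hdep : ¬ AlgebraicIndependent ℂ t := by
    intro hi
    obtain ⟨z, hz⟩ := hK
    have h1 := hi.cardinalMk_le_trdeg
    rw [← hz.cardinalMk_eq_trdeg] at h1
    simp only [Cardinal.mk_fin, Nat.cast_le] at h1
    omega
  obtain ⟨g, hg, hg0⟩ : ∃ g : MvPolynomial (Fin (m + 1)) ℂ, aeval t g = 0 ∧ g ≠ 0 := by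
    rw [algebraicIndependent_iff] at hdep
    push Not at hdep
    exact hdep
  -- a linear form vanishing on the image of `T`
  let φ : (Fin r → ℂ) →ₗ[ℂ] (Fin (m + 1) → ℂ) := LinearMap.pi fun j => ∑ i, L j i • LinearMap.proj i
  have hφ : ∀ v j, φ v j = ∑ i, L j i * v i := by
    intro v j
    simp [φ]
  have hlt : T.map φ < ⊤ := by
    refine lt_top_iff_ne_top.2 fun htop => ?_
    have h1 : Module.finrank ℂ (T.map φ) ≤ k := (Submodule.finrank_map_le φ T).trans hT
    rw [htop, finrank_top, Module.finrank_fin_fun] at h1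
    omega
  obtain ⟨h, hh, hker⟩ := Submodule.exists_le_ker_of_lt_top _ hlt
  let H : MvPolynomial (Fin (m + 1)) ℂ := lf fun j => h (Pi.single j 1)
  have hH : ∀ w, eval w H = h w := by
    intro w
    rw [eval_lf]
    conv_rhs => rw [← Finset.univ_sum_single w, map_sum]
    refine Finset.sum_congr rfl fun j _ => ?_
    have : (Pi.single j (w j) : Fin (m + 1) → ℂ) = w j • Pi.single j 1 := by
      rw [← Pi.single_smul, smul_eq_mul, mul_one]
    rw [this, map_smul, smul_eq_mul, mul_comm]
  have hH0 : H ≠ 0 := by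
    intro h0
    refine hh (LinearMap.ext fun w => ?_)
    rw [← hH, h0, map_zero, LinearMap.zero_apply]
  obtain ⟨w, hw⟩ : ∃ w, eval w (homogeneousComponent g.totalDegree g * H) ≠ 0 := by
    by_contra hcon
    push Not at hcon
    refine mul_ne_zero (homog_ne hg0) hH0 (MvPolynomial.funext fun x => ?_)
    rw [hcon, map_zero]
  rw [map_mul] at hw
  have hw1 : eval w (homogeneousComponent g.totalDegree g) ≠ 0 := left_ne_zero_of_mul hw
  have hw2 : h w ≠ 0 := by
    rw [← hH]
    exact right_ne_zero_of_mul hw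
  have hw0 : w ≠ 0 := by
    rintro rfl
    exact hw2 (map_zero h)
  obtain ⟨i₀, hi₀⟩ : ∃ i₀, w i₀ ≠ 0 := by
    by_contra hcon
    push Not at hcon
    exact hw0 (funext hcon)
  -- the new forms
  refine ⟨fun j => L (i₀.succAbove j) - (w (i₀.succAbove j) / w i₀) • L i₀, ?_, ?_⟩
  · intro v hv h0
    have h1 : φ v = (φ v i₀ / w i₀) • w := by
      funext j
      rcases Fin.eq_self_or_eq_succAbove i₀ j with rfl | ⟨j', rfl⟩
      · rw [Pi.smul_apply, smul_eq_mul, div_mul_cancel₀ _ hi₀]
      · have h2 := h0 j'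
        simp only [Pi.sub_apply, Pi.smul_apply, smul_eq_mul, sub_mul, Finset.sum_sub_distrib, mul_assoc, ← Finset.mul_sum] at h2
        rw [← hφ, ← hφ, sub_eq_zero] at h2
        rw [h2, Pi.smul_apply, smul_eq_mul]
        ring
    have h2 : φ v i₀ / w i₀ = 0 := by
      have h3 : h (φ v) = 0 := hker (Submodule.mem_map_of_mem hv)
      rw [h1, map_smul, smul_eq_mul] at h3
      exact (mul_eq_zero.1 h3).resolve_right hw2
    rw [h2, zero_smul] at h1
    refine hL v hv fun j => ?_
    rw [← hφ, h1, Pi.zero_apply]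
  · -- integrality
    set s : Fin m → K := fun j => aeval y (lf (L (i₀.succAbove j) - (w (i₀.succAbove j) / w i₀) • L i₀)) with hsdef
    set S := Algebra.adjoin ℂ (Set.range s) with hS
    set x : K := (w i₀)⁻¹ • t i₀ with hx
    have hs : ∀ j, s j = t (i₀.succAbove j) - w (i₀.succAbove j) • x := by
      intro j
      simp only [hsdef, hx, htdef, aeval_lf, Pi.sub_apply, Pi.smul_apply, sub_smul, Finset.sum_sub_distrib, Finset.smul_sum, smul_smul, smul_eq_mul]
      congr 1
      refine Finset.sum_congr rfl fun i _ => ?_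
      congr 1
      ring
    let s' : Fin (m + 1) → S := i₀.insertNth 0 fun j => ⟨s j, Algebra.subset_adjoin ⟨j, rfl⟩⟩
    have hs' : ∀ j, t j = (s' j : K) + w j • x := by
      intro j
      rcases Fin.eq_self_or_eq_succAbove i₀ j with rfl | ⟨j', rfl⟩
      · simp only [s', Fin.insertNth_apply_same, hx, smul_smul, mul_inv_cancel₀ hi₀, one_smul]
        simp
      · simp only [s', Fin.insertNth_apply_succAbove, hs]
        simp
    have hxint : IsIntegral S x := by
      obtain ⟨h1, h2⟩ := coeff_line s' w g le_rfl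
      set p : Polynomial S := aeval (fun j => Polynomial.C (s' j) + Polynomial.C (algebraMap ℂ S (w j)) * Polynomial.X) g with hp
      have hu : IsUnit (p.coeff g.totalDegree) := by
        rw [h2]
        exact (isUnit_iff_ne_zero.2 hw1).map (algebraMap ℂ S)
      have hpx : Polynomial.aeval x p = 0 := by
        have h3 : (Polynomial.aeval x : Polynomial S →ₐ[S] K).restrictScalars ℂ p = aeval t g := by
          rw [hp, ← AlgHom.comp_apply]
          congr 1
          refine MvPolynomial.algHom_ext fun j => ?_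
          simp only [AlgHom.comp_apply, aeval_X, AlgHom.restrictScalars_apply, map_add, map_mul, Polynomial.aeval_C, Polynomial.aeval_X]
          rw [hs' j, Algebra.smul_def]
          rfl
        rw [hg] at h3
        exact h3
      obtain ⟨u, hu'⟩ := hu
      refine ⟨Polynomial.C (↑u⁻¹ : S) * p, ?_, ?_⟩
      · have h4 : (Polynomial.C (↑u⁻¹ : S) * p).natDegree ≤ g.totalDegree := (Polynomial.natDegree_C_mul_le _ _).trans h1
        refine Polynomial.monic_of_natDegree_le_of_coeff_eq_one _ h4 ?_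
        rw [Polynomial.coeff_C_mul, ← hu', Units.inv_mul]
      · rw [Polynomial.eval₂_mul, ← Polynomial.aeval_def x p, hpx, mul_zero]
    have htint : ∀ j, IsIntegral S (t j) := by
      intro j
      rw [hs' j, Algebra.smul_def]
      refine IsIntegral.add (isIntegral_algebraMap (x := s' j)) (IsIntegral.mul ?_ hxint)
      exact isIntegral_algebraMap (R := S) (x := algebraMap ℂ S (w j))
    exact fun i => int_trans htint (hint i)

theorem base (y : Fin r → K) (T : Submodule ℂ (Fin r → ℂ)) :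
    ∃ L : Fin (k + r) → Fin r → ℂ, (∀ v ∈ T, (∀ j, ∑ i, L j i * v i = 0) → v = 0) ∧
      ∀ i, IsIntegral (Algebra.adjoin ℂ (Set.range fun j => aeval y (lf (L j)))) (y i) := by
  classical
  refine ⟨Fin.append 0 fun i => Pi.single i 1, fun v _ h0 => ?_, fun i => ?_⟩
  · funext i
    have := h0 (Fin.natAdd k i)
    rw [Fin.append_right] at this
    simpa [Pi.single_apply] using this
  · have h1 : y i ∈ Algebra.adjoin ℂ (Set.range fun j => aeval y (lf ((Fin.append 0 fun i => Pi.single i 1 : Fin (k + r) → Fin r → ℂ) j))) := by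
      refine Algebra.subset_adjoin ⟨Fin.natAdd k i, ?_⟩
      simp only [Fin.append_right, aeval_lf]
      rw [Finset.sum_eq_single i]
      · simp
      · intro b _ hb
        simp [hb]
      · intro h
        exact absurd (Finset.mem_univ i) h
    exact isIntegral_algebraMap (R := Algebra.adjoin ℂ _) (x := ⟨y i, h1⟩)

end LinAux

/-- Noether normalisation by linear forms, injective on a subspace `T` of dimension `≤ k`. -/
theorem exists_lin (y : Fin r → K) (hK : ∃ z : Fin k → K, IsTranscendenceBasis ℂ z) (T : Submodule ℂ (Fin r → ℂ)) (hT : Module.finrank ℂ T ≤ k) :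
    ∃ L : Fin k → Fin r → ℂ, (∀ v ∈ T, (∀ j, ∑ i, L j i * v i = 0) → v = 0) ∧
      ∀ i, IsIntegral (Algebra.adjoin ℂ (Set.range fun j => aeval y (lf (L j)))) (y i) := by
  have h : ∀ e ≤ r, ∃ L : Fin (k + (r - e)) → Fin r → ℂ, (∀ v ∈ T, (∀ j, ∑ i, L j i * v i = 0) → v = 0) ∧
      ∀ i, IsIntegral (Algebra.adjoin ℂ (Set.range fun j => aeval y (lf (L j)))) (y i) := by
    intro e
    induction e with
    | zero => exact fun _ => LinAux.base y T
    | succ e ih =>
      intro he
      have h1 := ih (by omega)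
      have h2 : k + (r - e) = k + (r - (e + 1)) + 1 := by omega
      rw [h2] at h1
      exact LinAux.step y hK T hT (by omega) h1
  have h1 := h r le_rfl
  rw [Nat.sub_self, add_zero] at h1
  exact h1

end Pool.Agent.GG.Kd

end
end

section

/-!
# GG Kd Gch: a linear Noether normalisation with equations, adapted to a smooth point
-/

set_option autoImplicit false

open MvPolynomial

noncomputable section

namespace Pool.Agent.GG.Kd

variable {K : Type} [Field K] [Algebra ℂ K] {r k : ℕ}

/-- `K` is algebraic over `ℂ[t]` -/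
theorem Gch_isAlgebraic {y : Fin r → K} (hgen : IntermediateField.adjoin ℂ (Set.range y) = ⊤) {s : Set K}
    (h : ∀ i, IsIntegral (Algebra.adjoin ℂ s) (y i)) : Algebra.IsAlgebraic (Algebra.adjoin ℂ s) K := by
  refine ⟨fun x => ?_⟩
  have hx : x ∈ IntermediateField.adjoin ℂ (Set.range y) := by
    rw [hgen]
    exact IntermediateField.mem_top
  induction hx using IntermediateField.adjoin_induction with
  | mem x hx =>
    obtain ⟨i, rfl⟩ := hx
    exact (h i).isAlgebraic
  | algebraMap c =>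
    rw [IsScalarTower.algebraMap_apply ℂ (Algebra.adjoin ℂ s) K]
    exact isAlgebraic_algebraMap _
  | add x z _ _ hx hz => exact hx.add hz
  | inv x _ hx => exact hx.inv
  | mul x z _ _ hx hz => exact hx.mul hz

/-- At a smooth point `w` there is a linear Noether normalisation with `J (w) ≠ 0`. -/
theorem exists_dat (y : Fin r → K) (hK : ∃ z : Fin k → K, IsTranscendenceBasis ℂ z) (hgen : IntermediateField.adjoin ℂ (Set.range y) = ⊤)
    {w : Fin r → ℂ} (hs : Module.finrank ℂ (tan y w) ≤ k) : ∃ d : Dat y k, eval w d.J ≠ 0 := by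
  classical
  obtain ⟨L, hinj, hint⟩ := exists_lin y hK (tan y w) hs
  have hbasis : IsTranscendenceBasis ℂ (fun j => aeval y (lf (L j))) := by
    obtain ⟨z, hz⟩ := hK
    have := Gch_isAlgebraic hgen hint
    exact Algebra.IsAlgebraic.isTranscendenceBasis_of_lift_le_trdeg_of_finite ℂ _ hz.lift_cardinalMk_eq_trdeg.le
  set D : MvPolynomial (Fin r) ℂ → (Fin r → ℂ) := fun G i => eval w (pderiv i G) with hD
  set S : Set (MvPolynomial (Fin r) ℂ) := {G | (∃ j, G = lf (L j)) ∨ aeval y G = 0} with hS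
  have hspan : Submodule.span ℂ (D '' S) = ⊤ := by
    by_contra hne
    obtain ⟨φ, hφ0, hφ⟩ := Submodule.exists_le_ker_of_lt_top _ (lt_top_iff_ne_top.2 hne)
    have hφs : ∀ a : Fin r → ℂ, φ a = ∑ i, a i * φ (Pi.single i 1) := by
      intro a
      conv_lhs => rw [← Finset.univ_sum_single a]
      rw [map_sum]
      refine Finset.sum_congr rfl fun i _ => ?_
      have e : (Pi.single i (a i) : Fin r → ℂ) = a i • Pi.single i 1 := by
        rw [← Pi.single_smul, smul_eq_mul, mul_one]
      rw [e, map_smul, smul_eq_mul]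
    have hz : ∀ G ∈ S, ∑ i, D G i * φ (Pi.single i 1) = 0 := by
      intro G hG
      rw [← hφs]
      exact hφ (Submodule.subset_span ⟨G, hG, rfl⟩)
    have h1 : (fun i => φ (Pi.single i 1)) ∈ tan y w := fun G hG => hz G (Or.inr hG)
    have h2 : ∀ j, ∑ i, L j i * φ (Pi.single i 1) = 0 := by
      intro j
      rw [← hz (lf (L j)) (Or.inl ⟨j, rfl⟩)]
      refine Finset.sum_congr rfl fun i _ => ?_
      have : D (lf (L j)) i = L j i := by
        show eval w (pderiv i (lf (L j))) = L j i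
        rw [pderiv_lf, eval_C]
      rw [this]
    have h3 := hinj _ h1 h2
    apply hφ0
    have h4 : ∀ i, φ (Pi.single i 1) = 0 := fun i => congrFun h3 i
    refine LinearMap.ext fun a => ?_
    rw [hφs, Finset.sum_eq_zero fun i _ => by rw [h4, mul_zero]]
    rfl
  have hr : Module.finrank ℂ (Submodule.span ℂ (D '' S)) = r := by
    rw [hspan, finrank_top, Module.finrank_fin_fun]
  obtain ⟨f, hf1, -, hf3⟩ := Submodule.exists_fun_fin_finrank_span_eq ℂ (D '' S)
  choose G hG1 hG2 using fun i : Fin r => hf1 (Fin.cast hr.symm i)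
  refine ⟨⟨L, hbasis, hint, G, hG1⟩, ?_⟩
  have hdet : eval w (Matrix.det fun i j => pderiv j (G i)) = Matrix.det (Matrix.of fun i j => D (G i) j) := by
    rw [RingHom.map_det]
    rfl
  show eval w (Matrix.det fun i j => pderiv j (G i)) ≠ 0
  rw [hdet]
  have hli : LinearIndependent ℂ fun i : Fin r => D (G i) := by
    have : (fun i : Fin r => D (G i)) = f ∘ Fin.cast hr.symm := funext fun i => hG2 i
    rw [this]
    exact hf3.comp _ (Fin.cast_injective _)
  have hu : IsUnit (Matrix.of fun i j => D (G i) j) := Matrix.linearIndependent_rows_iff_isUnit.1 hli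
  exact ((Matrix.isUnit_iff_isUnit_det _).1 hu).ne_zero

end Pool.Agent.GG.Kd

end
end

section

/-!
# GTL EtH2: a function with a multiple zero is not injective

PROOF.  `u = v ^ e` near `0` with `v` analytic, `v 0 ≠ 0`; `ψ τ = τ v τ` is open at `0`; take `c ≠ 0` small, `ζ` a primitive `e`-th root of unity, `ψ τ₁ = c`, `ψ τ₂ = ζ c`.
-/

set_option autoImplicit false

open Topology Filter

noncomputable section

namespace Pool.Agent.GTL

theorem exists_eq_of_order {T u : ℂ → ℂ} {e : ℕ} (he : 2 ≤ e) (hu : AnalyticAt ℂ u 0) (hu0 : u 0 ≠ 0) (hT : ∀ᶠ τ in 𝓝 (0 : ℂ), T τ = τ ^ e * u τ)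
    {s : Set ℂ} (hs : s ∈ 𝓝 (0 : ℂ)) : ∃ τ₁ ∈ s, ∃ τ₂ ∈ s, τ₁ ≠ 0 ∧ τ₂ ≠ 0 ∧ τ₁ ≠ τ₂ ∧ T τ₁ = T τ₂ := by
  have he0 : e ≠ 0 := by omega
  have heC : (e : ℂ) ≠ 0 := Nat.cast_ne_zero.2 he0
  obtain ⟨c₀, hc₀⟩ : ∃ c₀ : ℂ, c₀ ^ e = u 0 := IsAlgClosed.exists_pow_nat_eq (u 0) (by omega)
  have hc₀0 : c₀ ≠ 0 := fun h => hu0 (by rw [← hc₀, h, zero_pow he0])
  obtain ⟨v, hv⟩ : ∃ v : ℂ → ℂ, v = fun τ => c₀ * Complex.exp (Complex.log (u τ / u 0) / e) := ⟨_, rfl⟩
  have hq : AnalyticAt ℂ (fun τ => u τ / u 0) 0 := hu.div_const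
  have hlog : AnalyticAt ℂ (fun τ => Complex.log (u τ / u 0)) 0 := hq.clog (by
    rw [div_self hu0]
    exact Complex.one_mem_slitPlane)
  have hva : AnalyticAt ℂ v 0 := by
    rw [hv]
    exact analyticAt_const.mul (hlog.div_const.cexp)
  have hv0 : v 0 = c₀ := by
    rw [hv]
    simp only
    rw [div_self hu0, Complex.log_one, zero_div, Complex.exp_zero, mul_one]
  have hve : ∀ᶠ τ in 𝓝 (0 : ℂ), v τ ^ e = u τ := by
    filter_upwards [hu.continuousAt.eventually_ne hu0] with τ h1
    rw [hv]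
    simp only
    rw [mul_pow, hc₀, ← Complex.exp_nat_mul, mul_div_cancel₀ _ heC, Complex.exp_log (div_ne_zero h1 hu0)]
    field_simp
  -- the map `ψ`
  have hψa : AnalyticAt ℂ (fun τ => τ * v τ) 0 := analyticAt_id.mul hva
  have hψd : HasStrictDerivAt (fun τ => τ * v τ) (v 0) 0 := by
    have h1 := hψa.hasStrictDerivAt
    have h2 : deriv (fun τ => τ * v τ) 0 = v 0 := by
      have h3 := (hasDerivAt_id (0 : ℂ)).mul hva.differentiableAt.hasDerivAt
      have h4 := h3.deriv
      simp only [id] at h4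
      rw [one_mul, zero_mul, add_zero] at h4
      exact h4
    rwa [h2] at h1
  have hmap : map (fun τ => τ * v τ) (𝓝 0) = 𝓝 (0 : ℂ) := by
    have h1 := hψd.map_nhds_eq (by rwa [hv0])
    simpa using h1
  have hs' : {τ | τ ∈ s ∧ T τ = τ ^ e * u τ ∧ v τ ^ e = u τ} ∈ 𝓝 (0 : ℂ) := by
    filter_upwards [hs, hT, hve] with τ h1 h2 h3
    exact ⟨h1, h2, h3⟩
  have himg : (fun τ => τ * v τ) '' {τ | τ ∈ s ∧ T τ = τ ^ e * u τ ∧ v τ ^ e = u τ} ∈ 𝓝 (0 : ℂ) := by
    rw [← hmap]
    exact image_mem_map hs'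
  -- a root of unity
  obtain ⟨ζ, hζ⟩ : ∃ ζ : ℂ, IsPrimitiveRoot ζ e := ⟨_, Complex.isPrimitiveRoot_exp e he0⟩
  have hζ1 : ζ ≠ 1 := hζ.ne_one (by omega)
  have h1 : ∀ᶠ c in 𝓝 (0 : ℂ), c ∈ (fun τ => τ * v τ) '' {τ | τ ∈ s ∧ T τ = τ ^ e * u τ ∧ v τ ^ e = u τ} ∧
      ζ * c ∈ (fun τ => τ * v τ) '' {τ | τ ∈ s ∧ T τ = τ ^ e * u τ ∧ v τ ^ e = u τ} := by
    have h2 : Tendsto (fun c : ℂ => ζ * c) (𝓝 0) (𝓝 0) := by
      have h3 : Continuous fun c : ℂ => ζ * c := by fun_prop
      have h4 := h3.tendsto 0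
      rwa [mul_zero] at h4
    filter_upwards [himg, h2.eventually himg] with c h3 h4
    exact ⟨h3, h4⟩
  obtain ⟨c, ⟨⟨τ₁, ⟨hs1, hT1, hv1⟩, hc1⟩, τ₂, ⟨hs2, hT2, hv2⟩, hc2⟩, hc0⟩ := ((h1.filter_mono nhdsWithin_le_nhds).and (self_mem_nhdsWithin : {(0 : ℂ)}ᶜ ∈ 𝓝[≠] 0)).exists
  have hc0' : c ≠ 0 := hc0
  simp only at hc1 hc2
  have e1 : T τ₁ = c ^ e := by rw [hT1, ← hv1, ← mul_pow, hc1]
  have e2 : T τ₂ = c ^ e := by rw [hT2, ← hv2, ← mul_pow, hc2, mul_pow, hζ.pow_eq_one, one_mul]
  have hne : ζ * c ≠ c := fun h => hζ1 (mul_right_cancel₀ hc0' (by rw [h, one_mul]))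
  refine ⟨τ₁, hs1, τ₂, hs2, ?_, ?_, ?_, e1.trans e2.symm⟩
  · rintro rfl
    rw [zero_mul] at hc1
    exact hc0' hc1.symm
  · rintro rfl
    rw [zero_mul] at hc2
    exact (mul_ne_zero (hζ.ne_zero he0) hc0') hc2.symm
  · rintro rfl
    rw [hc1] at hc2
    exact hne hc2.symm

end Pool.Agent.GTL

end
end

section

/-!
# GTL EtQ: the quotients of the coefficients of the minimal polynomials generate

PROOF.  `Ω` = algebraic closure of `K'`; `u := coeff 0 of minpoly (f 0)`, to the power `L / d 0`, is not `0`; `v ∈ Ω` with `v ^ L = u`.  `a i j := (coefficient of index d i - j of minpoly (f i)) / v ^ j`: its power `L / j` is in `F` (`hF`), so it is algebraic over `F`.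
`f i / v` is a root of the monic polynomial `X ^ (d i) + ∑ a i j X ^ (d i - j)`, so algebraic over `F`.  So `f i / f 0 = (f i / v) / (f 0 / v)` is algebraic over `F`; then `K'` (algebraic over `ℂ (f i / f 0)`) is, and `K` is.
(Use the intermediate field `algebraicClosure F Ω`.)
-/

set_option autoImplicit false

noncomputable section

namespace Pool.Agent.GTL

open Polynomial

theorem alg_descend {K K' : Type} [Field K] [Algebra ℂ K] [Field K'] [Algebra ℂ K'] [Algebra K K'] [IsScalarTower ℂ K K'] [Algebra.IsAlgebraic K K']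
    {r : ℕ} {f : Fin (r + 1) → K'} (hf0 : f 0 ≠ 0)
    (hf : Algebra.IsAlgebraic (IntermediateField.adjoin ℂ (Set.range fun i => f i / f 0)) K') {L : ℕ} (hL0 : 0 < L)
    (hL : ∀ i j, 1 ≤ j → j ≤ (minpoly K (f i)).natDegree → j ∣ L) (F : IntermediateField ℂ K)
    (hF : ∀ i j, 1 ≤ j → j ≤ (minpoly K (f i)).natDegree →
      (minpoly K (f i)).coeff ((minpoly K (f i)).natDegree - j) ^ (L / j) / (minpoly K (f 0)).coeff 0 ^ (L / (minpoly K (f 0)).natDegree) ∈ F) :
    Algebra.IsAlgebraic F K := by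
  set Ω := AlgebraicClosure K'
  have hint : ∀ i, IsIntegral K (f i) := fun i => (Algebra.IsAlgebraic.isAlgebraic (f i)).isIntegral
  set u : K := (minpoly K (f 0)).coeff 0 ^ (L / (minpoly K (f 0)).natDegree) with hu
  have hu0 : u ≠ 0 := pow_ne_zero _ (minpoly.coeff_zero_ne_zero (hint 0) hf0)
  obtain ⟨v, hv⟩ := IsAlgClosed.exists_pow_nat_eq (algebraMap K Ω u) hL0
  have hv0 : v ≠ 0 := by
    rintro rfl
    rw [zero_pow hL0.ne'] at hv
    exact hu0 ((map_eq_zero _).1 hv.symm)
  set E : IntermediateField F Ω := algebraicClosure F Ω with hE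
  have memE : ∀ {x : Ω}, IsAlgebraic F x → x ∈ E := fun {x} hx => mem_algebraicClosure_iff.2 hx
  -- the coefficients
  have key1 : ∀ i j, 1 ≤ j → j ≤ (minpoly K (f i)).natDegree →
      IsAlgebraic F (algebraMap K Ω ((minpoly K (f i)).coeff ((minpoly K (f i)).natDegree - j)) * (v⁻¹) ^ j) := by
    intro i j hj1 hj2
    have hjL := hL i j hj1 hj2
    have hpos : 0 < L / j := Nat.div_pos (Nat.le_of_dvd hL0 hjL) hj1
    refine IsAlgebraic.of_pow hpos ?_
    have e1 : (algebraMap K Ω ((minpoly K (f i)).coeff ((minpoly K (f i)).natDegree - j)) * (v⁻¹) ^ j) ^ (L / j) =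
        algebraMap K Ω ((minpoly K (f i)).coeff ((minpoly K (f i)).natDegree - j) ^ (L / j) / u) := by
      rw [mul_pow, ← pow_mul, Nat.mul_div_cancel' hjL, inv_pow, hv, ← map_pow, ← map_inv₀, ← map_mul, div_eq_mul_inv]
    rw [e1]
    exact isAlgebraic_algebraMap (⟨_, hF i j hj1 hj2⟩ : F)
  -- the roots
  have key2 : ∀ i, algebraMap K' Ω (f i) * v⁻¹ ∈ E := by
    intro i
    set p : K[X] := minpoly K (f i) with hp
    have hpm : p.Monic := minpoly.monic (hint i)
    set P : Polynomial Ω := p.map (algebraMap K Ω) with hP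
    have hPm : P.Monic := hpm.map _
    have hdeg : P.natDegree = p.natDegree := hpm.natDegree_map _
    set q : Polynomial Ω := P.scaleRoots v⁻¹ with hq
    have hqm : q.Monic := (monic_scaleRoots_iff _).2 hPm
    have hroot : q.eval (algebraMap K' Ω (f i) * v⁻¹) = 0 := by
      have h1 : P.eval (algebraMap K' Ω (f i)) = 0 := by
        have h2 : aeval (algebraMap K' Ω (f i)) p = 0 := by
          rw [aeval_algebraMap_apply, hp, minpoly.aeval, map_zero]
        rwa [hP, eval_map, ← aeval_def]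
      have h3 := scaleRoots_eval₂_eq_zero (RingHom.id Ω) (s := v⁻¹) (r := algebraMap K' Ω (f i)) (p := P) (by rwa [eval₂_id])
      rw [RingHom.id_apply, eval₂_id] at h3
      rwa [mul_comm]
    have hlift : q ∈ lifts (algebraMap E Ω) := by
      rw [lifts_iff_coeff_lifts]
      intro k
      rw [hq, coeff_scaleRoots, hdeg]
      rcases lt_trichotomy k p.natDegree with hk | hk | hk
      · have h4 := key1 i (p.natDegree - k) (by omega) (Nat.sub_le _ _)
        have h5 : p.natDegree - (p.natDegree - k) = k := by omega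
        rw [← hp, h5] at h4
        rw [hP, coeff_map]
        exact ⟨⟨_, memE h4⟩, rfl⟩
      · rw [hk, ← hdeg, hPm.coeff_natDegree, Nat.sub_self, pow_zero, mul_one]
        exact ⟨1, map_one _⟩
      · rw [coeff_eq_zero_of_natDegree_lt (by rw [hdeg]; exact hk), zero_mul]
        exact ⟨0, map_zero _⟩
    obtain ⟨Q, hQ, -, hQm⟩ := lifts_and_natDegree_eq_and_monic hlift hqm
    have h6 : IsIntegral E (algebraMap K' Ω (f i) * v⁻¹) := by
      refine ⟨Q, hQm, ?_⟩
      rw [eval₂_eq_eval_map, hQ]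
      exact hroot
    exact memE (IsAlgebraic.restrictScalars F h6.isAlgebraic)
  have key3 : ∀ i, algebraMap K' Ω (f i / f 0) ∈ E := by
    intro i
    have e1 : algebraMap K' Ω (f i / f 0) = (algebraMap K' Ω (f i) * v⁻¹) / (algebraMap K' Ω (f 0) * v⁻¹) := by
      rw [map_div₀, mul_div_mul_right _ _ (inv_ne_zero hv0)]
    rw [e1]
    exact div_mem (key2 i) (key2 0)
  -- the field of the quotients
  have key4 : IntermediateField.adjoin ℂ (Set.range fun i => f i / f 0) ≤
      (E.restrictScalars ℂ).comap (IsScalarTower.toAlgHom ℂ K' Ω) := by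
    rw [IntermediateField.adjoin_le_iff]
    rintro _ ⟨i, rfl⟩
    exact key3 i
  refine ⟨fun y => ?_⟩
  set A₀ := IntermediateField.adjoin ℂ (Set.range fun i => f i / f 0) with hA₀
  let g : A₀ →+* E := ((algebraMap K' Ω).comp (algebraMap A₀ K')).codRestrict E fun a => key4 a.2
  have h1 : IsAlgebraic E (algebraMap K' Ω (algebraMap K K' y)) :=
    IsAlgebraic.ringHom_of_comp_eq g (algebraMap K' Ω) (hf.isAlgebraic (algebraMap K K' y)) g.injective rfl
  have h2 : IsAlgebraic F (algebraMap K' Ω (algebraMap K K' y)) := IsAlgebraic.restrictScalars F h1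
  rw [← IsScalarTower.algebraMap_apply K K' Ω] at h2
  exact (isAlgebraic_algebraMap_iff (algebraMap K Ω).injective).1 h2

end Pool.Agent.GTL

end
end

section

/-! # Fermat covers: homogeneity and grading of minimal primes -/

noncomputable section

namespace Pool.Agent.H62.FC

open MvPolynomial

private lemma Components_core {M : Type} [AddCommMonoid M] [LinearOrder M]
    [IsOrderedCancelAddMonoid M] {σ : Type} (w : σ → M) {P : Ideal (MvPolynomial σ ℂ)}
    {G : Set (MvPolynomial σ ℂ)} (hP : P ∈ (Ideal.span G).minimalPrimes)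
    (hG : ∀ g ∈ G, ∀ m, weightedHomogeneousComponent w m g ∈ P) :
    ∀ p ∈ P, ∀ m, weightedHomogeneousComponent w m p ∈ P := by
  classical
  let _ : GradedAlgebra (weightedHomogeneousSubmodule ℂ w) := weightedGradedAlgebra ℂ w
  have hprime : P.IsPrime := hP.1.1
  set Q : Ideal (MvPolynomial σ ℂ) :=
    (P.homogeneousCore (weightedHomogeneousSubmodule ℂ w)).toIdeal with hQ
  have hQprime : Q.IsPrime := hprime.homogeneousCore
  have hQP : Q ≤ P := Ideal.toIdeal_homogeneousCore_le _ P
  have hGQ : Ideal.span G ≤ Q := by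
    rw [Ideal.span_le]
    intro g hg
    rw [← sum_weightedHomogeneousComponent w g,
      finsum_eq_sum _ (weightedHomogeneousComponent_finsupp g)]
    refine Q.sum_mem fun m _ => ?_
    exact Ideal.mem_homogeneousCore_of_homogeneous_of_mem
      ⟨m, weightedHomogeneousComponent_mem w g m⟩ (hG g hg m)
  have hPQ : P ≤ Q := hP.2 ⟨hQprime, hGQ⟩ hQP
  have heq : Q = P := le_antisymm hQP hPQ
  have hhom : P.IsHomogeneous (weightedHomogeneousSubmodule ℂ w) := by
    rw [← heq]
    exact HomogeneousIdeal.isHomogeneous _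
  intro p hp m
  exact weightedHomogeneousComponent_mem_of_mem ℂ w hhom hp m

variable {N : ℕ} {κ : Type} {A : κ → MvPolynomial (Fin (N + 1)) ℂ} {e : κ → ℕ}
  {P : Ideal (MvPolynomial (Fin (N + 1)) ℂ)}

theorem homog_of_minimal (hA : ∀ l, (A l).IsHomogeneous (e l))
    (hP : P ∈ (Ideal.span (Set.range A)).minimalPrimes) : Homog P := by
  classical
  intro p hp n
  refine Components_core (w := (1 : Fin (N + 1) → ℕ)) hP ?_ p hp n
  rintro g ⟨l, rfl⟩ m
  have h1 : A l ∈ P := hP.1.2 (Ideal.subset_span ⟨l, rfl⟩)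
  have h2 : weightedHomogeneousComponent (1 : Fin (N + 1) → ℕ) m (A l) =
      if m = e l then A l else 0 := by
    have h3 := homogeneousComponent_of_mem (m := m)
      ((mem_homogeneousSubmodule _ _).2 (hA l))
    rw [homogeneousComponent] at h3
    exact h3
  rw [h2]
  split_ifs
  · exact h1
  · exact P.zero_mem

end Pool.Agent.H62.FC

end
end
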