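import Pool.Agent.H18.GGT.M25
import Pool.Agent.H18.GGT.M45
import Pool.Agent.H18.GGT.M54
import Pool.Agent.H18.GGT.M66
import Pool.Agent.H18.GGT.M67

/-! The parts of this file: GTL.EtB, GTL.EtI0, GTL.EtI, GQ.Smt, GA.Ext0. -/

section

/-!
# GTL EtB: extension of logarithmic derivations

PROOF of `exists_ext_der`: `K' / K` is finite and separable (characteristic 0): Mathlib `Differential` (`differentialFiniteDimensional`), or a basis of `Ω[K⁄ℂ]` given by a transcendence basis of `K` is also one of `Ω[K'⁄ℂ]`, or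
`Algebra.FormallyEtale`.  (`D'` is `ℂ`-linear: `D' c = 0` for `c` in `ℂ ⊆ K`.)
`exists_coords`: `ov_coords` in `LT/Ov.lean` (private there; copy).
`lder_ext`: `k = k' + 1`.  `t` a uniformizer of `E` and `s i` as in `E.residue_trdeg`; `t'` a uniformizer of `E'`; `exists_coords` for `E'.ord`, `t'`, `algebraMap ∘ s`: dual basis `∂ 0, ∂ i` of `K'`.
Case `¬ Bd E`: `e = 1`, take `t' = t`: `D' = (D' t) ∂ 0 + ∑ D' (s i) ∂ i` with coefficients in `O'` (`D t, D (s i) ∈ O`).  Case `Bd E`: `D' = (D' t' / t') (t' ∂ 0) + ∑ D' (s i) ∂ i`; write `t = t' ^ e * w`, `E'.ord w = 0`: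
`D t / t = e (D' t' / t') + D' w / w = (D' t' / t') (e + t' ∂ 0 w / w) + ∑ D' (s i) ∂ i w / w`, where `e + t' ∂ 0 w / w` has order `0`; so `D' t' / t' ∈ O'`.  Now `D' f / f ∈ O'` for all `f ≠ 0` (the last two claims of
`exists_coords`).
-/

set_option autoImplicit false

open MvPolynomial
open Pool.Agent.H23 (dualDer)
open Pool.Agent.H23.Fano (PrimeDivisorOver)
open Pool.Agent.GBL (LDer)

noncomputable section

namespace Pool.Agent.GTL

section Coords

open Pool.Agent.H23 (dualDer_coord exists_int ev ev_injective aeval_cons exists_poly_of_basis exists_basis_kaehler der_nonneg)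

private lemma etb_val_zpow {L : Type} [Field L] (v : AddValuation L (WithTop ℤ)) {t : L} (ht : v t = 1) (n : ℤ) :
    v (t ^ n) = (n : WithTop ℤ) := by
  have h0 : ∀ m : ℕ, v (t ^ m) = ((m : ℤ) : WithTop ℤ) := by
    intro m
    rw [v.map_pow, ht]
    simp
  have ht0 : t ≠ 0 := by
    rintro rfl
    simp at ht
  obtain ⟨m, rfl | rfl⟩ := n.eq_nat_or_neg
  · rw [zpow_natCast]
    exact h0 m
  · have h1 : t ^ (-(m : ℤ)) * t ^ m = 1 := by
      rw [← zpow_natCast, ← zpow_add₀ ht0]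
      simp
    have h2 : v (t ^ (-(m : ℤ))) + v (t ^ m) = 0 := by
      rw [← v.map_mul, h1, v.map_one]
    obtain ⟨a, ha⟩ := exists_int v (zpow_ne_zero (-(m : ℤ)) ht0)
    rw [ha, h0] at h2
    rw [ha]
    have h3 : a + (m : ℤ) = 0 := by exact_mod_cast h2
    exact congrArg _ (by omega : a = -(m : ℤ))

private lemma etb_log {L : Type} [Field L] (v : AddValuation L (WithTop ℤ)) {t : L} (ht : v t = 1)
    (D : Derivation ℤ L L) (h : ∀ f, 0 ≤ v f → 0 ≤ v (D f)) (hDt : 1 ≤ v (D t)) (f : L) :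
    v f ≤ v (D f) := by
  have ht0 : t ≠ 0 := by
    rintro rfl
    simp at ht
  by_cases hf : f = 0
  · rw [hf, D.map_zero]
  obtain ⟨μ, hμ⟩ := exists_int v hf
  have hfu : f = t ^ μ * (t ^ (-μ) * f) := by
    rw [← mul_assoc, ← zpow_add₀ ht0]
    simp
  obtain ⟨u, hu⟩ : ∃ u, u = t ^ (-μ) * f := ⟨_, rfl⟩
  rw [← hu] at hfu
  have hvu : v u = 0 := by
    rw [hu, v.map_mul, etb_val_zpow v ht, hμ]
    have : ((-μ + μ : ℤ) : WithTop ℤ) = 0 := by
      rw [neg_add_cancel]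
      rfl
    exact_mod_cast this
  have hD : D f = t ^ μ * D u + u * (μ * (t ^ (μ - 1) * D t)) := by
    conv_lhs => rw [hfu]
    rw [D.leibniz, D.leibniz_zpow]
    simp only [smul_eq_mul, zsmul_eq_mul]
  rw [hD, hμ]
  apply v.map_le_add
  · rw [v.map_mul, etb_val_zpow v ht]
    exact le_add_of_nonneg_right (h u (by rw [hvu]))
  · have hμ0 : 0 ≤ v ((μ : ℤ) : L) := by
      have h0 : ∀ m : ℕ, 0 ≤ v ((m : ℕ) : L) := by
        intro m
        induction m with
        | zero => simp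
        | succ m ih =>
          push_cast
          exact v.map_le_add ih (by rw [v.map_one])
      obtain ⟨m, rfl | rfl⟩ := μ.eq_nat_or_neg
      · simpa using h0 m
      · simpa using h0 m
    rw [v.map_mul u, hvu, v.map_mul, v.map_mul, etb_val_zpow v ht, zero_add]
    have h1 : ((μ : ℤ) : WithTop ℤ) = ((μ - 1 : ℤ) : WithTop ℤ) + 1 := by
      have : (μ : ℤ) = (μ - 1) + 1 := by ring
      conv_lhs => rw [this]
      push_cast
      rfl
    rw [h1]
    exact le_trans (add_le_add le_rfl hDt) (le_add_of_nonneg_left hμ0)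

/-- the coordinates at a prime divisor for given `t`, `s` -/
theorem exists_coords {L : Type} [Field L] [Algebra ℂ L] [Algebra.EssFiniteType ℂ L] {k : ℕ} {z : Fin (k + 1) → L} (hz : IsTranscendenceBasis ℂ z)
    (w : AddValuation L (WithTop ℤ)) {t : L} (ht : w t = 1) {s : Fin k → L}
    (hs : ∀ p : MvPolynomial (Fin k) ℂ, p ≠ 0 → w (aeval s p) = 0) :
    ∃ b : Module.Basis (Fin (k + 1)) L Ω[L⁄ℂ],
      (∀ i, b i = KaehlerDifferential.D ℂ L ((Fin.cons t s : Fin (k + 1) → L) i)) ∧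
      (∀ i f, 0 ≤ w f → 0 ≤ w (dualDer b i f)) ∧
      (∀ i, i ≠ 0 → ∀ f, w f ≤ w (dualDer b i f)) ∧
      ∀ f, w f ≤ w (t * dualDer b 0 f) := by
  set g : Fin (k + 1) → L := Fin.cons t s with hg
  have hind : AlgebraicIndependent ℂ g := by
    rw [algebraicIndependent_iff_injective_aeval]
    have h1 : (MvPolynomial.aeval g : MvPolynomial (Fin (k + 1)) ℂ → L) =
        ev s t ∘ MvPolynomial.finSuccEquiv ℂ k := by
      funext p
      exact aeval_cons s t p
    rw [h1]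
    exact (ev_injective w hs ht).comp (MvPolynomial.finSuccEquiv ℂ k).injective
  have hbasis : IsTranscendenceBasis ℂ g := by
    apply hind.isTranscendenceBasis_of_trdeg_le_of_finite
    rw [← hz.cardinalMk_eq_trdeg]
  obtain ⟨b, hb⟩ := exists_basis_kaehler hbasis
  have h4 : ∀ i f, 0 ≤ w f → 0 ≤ w (dualDer b i f) := by
    intro i
    apply der_nonneg w hs ht
    · intro f
      obtain ⟨F, h1, h2⟩ := exists_poly_of_basis hbasis f
      refine ⟨F.map (MvPolynomial.finSuccEquiv ℂ k).toRingEquiv.toRingHom, ?_, ?_⟩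
      · rwa [Ne, Polynomial.map_eq_zero_iff]
        exact (MvPolynomial.finSuccEquiv ℂ k).injective
      · rw [Polynomial.eval₂_map]
        have h3 : (ev s t).comp (MvPolynomial.finSuccEquiv ℂ k).toRingEquiv.toRingHom =
            (MvPolynomial.aeval g).toRingHom :=
          RingHom.ext fun p => (aeval_cons s t p).symm
        rw [h3]
        exact h2
    · have := dualDer_coord b hb i 0
      rw [hg, Fin.cons_zero] at this
      rw [this]
      split_ifs <;> simp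
    · intro j
      have := dualDer_coord b hb i j.succ
      rw [hg, Fin.cons_succ] at this
      rw [this]
      split_ifs <;> simp
  have hg0 : g 0 = t := by rw [hg, Fin.cons_zero]
  refine ⟨b, hb, h4, ?_, ?_⟩
  · intro i hi
    refine etb_log w ht ((dualDer b i).restrictScalars ℤ) (h4 i) ?_
    change 1 ≤ w (dualDer b i t)
    rw [← hg0, dualDer_coord b hb, if_neg hi]
    simp
  · refine etb_log w ht ((t • dualDer b 0).restrictScalars ℤ) (fun f hf => ?_) ?_
    · change 0 ≤ w (t * dualDer b 0 f)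
      rw [w.map_mul, ht]
      exact add_nonneg (by norm_num) (h4 0 f hf)
    · change 1 ≤ w (t * dualDer b 0 t)
      have h5 : dualDer b 0 t = 1 := by
        rw [← hg0, dualDer_coord b hb, if_pos rfl]
      rw [h5, mul_one, ht]

end Coords

variable {K K' : Type} [Field K] [Algebra ℂ K] [Field K'] [Algebra ℂ K'] [Algebra K K'] [IsScalarTower ℂ K K'] {k : ℕ}

theorem exists_ext_der [FiniteDimensional K K'] (D : Derivation ℂ K K) :
    ∃ D' : Derivation ℂ K' K', ∀ x, D' (algebraMap K K' x) = algebraMap K K' (D x) := by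
  haveI : CharZero K := charZero_of_injective_algebraMap (algebraMap ℂ K).injective
  letI : Differential K := ⟨D.restrictScalars ℤ⟩
  letI : Differential K' := Differential.differentialFiniteDimensional K K'
  haveI : DifferentialAlgebra K K' := Differential.differentialAlgebraFiniteDimensional
  have h : ∀ x : K, Differential.deriv (algebraMap K K' x) = algebraMap K K' (D x) := fun x => DifferentialAlgebra.deriv_algebraMap x
  refine ⟨Derivation.mk' ⟨⟨fun x => Differential.deriv x, fun x y => map_add _ x y⟩, fun c x => ?_⟩ fun a b => ?_, h⟩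
  · change Differential.deriv (c • x) = c • Differential.deriv x
    rw [Algebra.smul_def, Algebra.smul_def, Derivation.leibniz, IsScalarTower.algebraMap_apply ℂ K K', h, D.map_algebraMap, map_zero, smul_zero, add_zero, smul_eq_mul]
  · exact Derivation.leibniz _ a b

/-- a quotient with a denominator of order `0` -/
private lemma etb_div {w : AddValuation K' (WithTop ℤ)} {a u : K'} (ha : 0 ≤ w a) (hu : w u = 0) : 0 ≤ w (a / u) := by
  rcases eq_or_ne u 0 with rfl | hu0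
  · rw [div_zero, w.map_zero]
    exact le_top
  · have h1 : w (a / u) + w u = w a := by
      rw [← w.map_mul, div_mul_cancel₀ _ hu0]
    rw [hu, add_zero] at h1
    rwa [h1]

private lemma etb_sum {w : AddValuation K' (WithTop ℤ)} {σ : Type} (s : Finset σ) (f : σ → K') (c : WithTop ℤ) (h : ∀ i ∈ s, c ≤ w (f i)) : c ≤ w (∑ i ∈ s, f i) := by
  classical
  induction s using Finset.induction_on with
  | empty => simp
  | insert a s ha ih =>
    rw [Finset.sum_insert ha]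
    exact w.map_le_add (h a (Finset.mem_insert_self _ _))
      (ih fun i hi => h i (Finset.mem_insert_of_mem hi))

/-- a derivation in coordinates -/
private lemma etb_der {n : ℕ} (b : Module.Basis (Fin n) K' Ω[K'⁄ℂ]) {g : Fin n → K'} (hb : ∀ i, b i = KaehlerDifferential.D ℂ K' (g i))
    (Δ : Derivation ℂ K' K') (a : K') : Δ a = ∑ l, Δ (g l) * dualDer b l a := by
  have h2 : KaehlerDifferential.D ℂ K' a = ∑ l, dualDer b l a • KaehlerDifferential.D ℂ K' (g l) := by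
    conv_lhs => rw [← b.sum_repr (KaehlerDifferential.D ℂ K' a)]
    refine Finset.sum_congr rfl fun l _ => ?_
    rw [hb]
    rfl
  have h3 := congrArg Δ.liftKaehlerDifferential h2
  rw [map_sum] at h3
  simp only [map_smul, Derivation.liftKaehlerDifferential_comp_D, smul_eq_mul] at h3
  rw [h3]
  exact Finset.sum_congr rfl fun l _ => mul_comm _ _

theorem lder_ext [Algebra.EssFiniteType ℂ K] [FiniteDimensional K K'] (hk : 1 ≤ k) {z : Fin k → K} (hz : IsTranscendenceBasis ℂ z)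
    {E : PrimeDivisorOver K k} {E' : PrimeDivisorOver K' k} {e : ℕ} (h : Over E E' e) {Bd : PrimeDivisorOver K k → Prop} {Bd' : PrimeDivisorOver K' k → Prop}
    (hB : Bd' E' → Bd E) (hU : ¬ Bd E → e = 1) {D : Derivation ℂ K K} (hD : LDer Bd E D) {D' : Derivation ℂ K' K'}
    (hD' : ∀ x, D' (algebraMap K K' x) = algebraMap K K' (D x)) : LDer Bd' E' D' := by
  obtain ⟨he, hE⟩ := h
  obtain ⟨k, rfl⟩ : ∃ k', k = k' + 1 := ⟨k - 1, by omega⟩
  obtain ⟨t, ht⟩ := E.exists_uniformizer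
  obtain ⟨s, hs0, hs⟩ := E.residue_trdeg
  change Fin k → K at s
  change ∀ i : Fin k, 0 ≤ E.ord (s i) at hs0
  change ∀ p : MvPolynomial (Fin k) ℂ, p ≠ 0 → E.ord (MvPolynomial.aeval s p) = 0 at hs
  have hEn : ∀ x : K, 0 ≤ E.ord x → 0 ≤ E'.ord (algebraMap K K' x) := fun x hx => by
    rw [hE]
    exact nsmul_nonneg hx e
  have hs' : ∀ p : MvPolynomial (Fin k) ℂ, p ≠ 0 → E'.ord (aeval (fun i => algebraMap K K' (s i)) p) = 0 := by
    intro p hp
    have h1 : aeval (fun i => algebraMap K K' (s i)) p = algebraMap K K' (aeval s p) := by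
      rw [← MvPolynomial.aeval_algebraMap_apply]
      rfl
    rw [h1, hE, hs p hp, smul_zero]
  haveI : Algebra.EssFiniteType ℂ K' := Algebra.EssFiniteType.comp ℂ K K'
  have hz' : IsTranscendenceBasis ℂ (algebraMap K K' ∘ z) := hz.algebraMap_comp
  by_cases hBd : Bd E
  · obtain ⟨τ, hτ⟩ := E'.exists_uniformizer
    obtain ⟨b, hb, h1, h2, h3⟩ := exists_coords hz' E'.ord hτ hs'
    have hτ0 : τ ≠ 0 := by
      rintro rfl
      rw [E'.ord.map_zero] at hτ
      exact absurd hτ (by decide)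
    have ht0 : t ≠ 0 := by
      rintro rfl
      rw [E.ord.map_zero] at ht
      exact absurd ht (by decide)
    have ht0' : algebraMap K K' t ≠ 0 := by simpa using ht0
    have hg : ∀ a : K', D' a = D' τ * dualDer b 0 a + ∑ i : Fin k, algebraMap K K' (D (s i)) * dualDer b i.succ a := by
      intro a
      rw [etb_der b hb D' a, Fin.sum_univ_succ, Fin.cons_zero]
      congr 1
      refine Finset.sum_congr rfl fun i _ => ?_
      rw [Fin.cons_succ, hD']
    -- the unit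
    obtain ⟨u, hu⟩ : ∃ u, u = algebraMap K K' t / τ ^ e := ⟨_, rfl⟩
    have htu : algebraMap K K' t = τ ^ e * u := by
      rw [hu, mul_div_cancel₀ _ (pow_ne_zero e hτ0)]
    have hu0 : u ≠ 0 := by
      rintro rfl
      rw [mul_zero] at htu
      exact ht0' htu
    have hwu : E'.ord u = 0 := by
      have h4 := E'.ord.map_mul (τ ^ e) u
      rw [← htu, hE, ht, E'.ord.map_pow, hτ] at h4
      obtain ⟨q, hq⟩ := Pool.Agent.H23.exists_int E'.ord hu0
      rw [hq] at h4 ⊢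
      have h5 : e • (1 : WithTop ℤ) = ((e : ℤ) : WithTop ℤ) := by
        rw [nsmul_one]
        rfl
      rw [h5] at h4
      have h6 : (e : ℤ) = (e : ℤ) + q := by exact_mod_cast h4
      have h7 : q = 0 := by omega
      rw [h7]
      rfl
    -- the coefficient
    have hcoef : ∀ i, 0 ≤ E'.ord (algebraMap K K' (D (s i))) := fun i => hEn _ (hD.1 _ (hs0 i))
    have hsum : ∀ a, E'.ord a ≤ E'.ord (∑ i : Fin k, algebraMap K K' (D (s i)) * dualDer b i.succ a) := by
      intro a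
      refine etb_sum _ _ _ fun i _ => ?_
      rw [E'.ord.map_mul]
      exact le_trans (h2 _ (Fin.succ_ne_zero i) a) (le_add_of_nonneg_left (hcoef i))
    have hdt : dualDer b 0 τ = 1 := by
      have h4 := Pool.Agent.H23.dualDer_coord b hb 0 0
      rw [Fin.cons_zero, if_pos rfl] at h4
      exact h4
    have hlog : 0 ≤ E'.ord (D' τ / τ) := by
      have h4 : D' τ / τ * ((e : K') + τ * dualDer b 0 u / u) = algebraMap K K' (D t / t) - (∑ i : Fin k, algebraMap K K' (D (s i)) * dualDer b i.succ u) / u := by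
        have h5 : algebraMap K K' (D t) = τ ^ e * D' u + u * ((e : K') * (τ ^ (e - 1) * D' τ)) := by
          rw [← hD', htu, D'.leibniz, D'.leibniz_pow]
          simp only [smul_eq_mul, nsmul_eq_mul]
        have h6 : τ ^ e = τ ^ (e - 1) * τ := by
          rw [← pow_succ]
          congr 1
          omega
        have h7 := hg u
        rw [map_div₀, h5, htu]
        rw [h7, h6]
        have h8 : τ ^ (e - 1) ≠ 0 := pow_ne_zero _ hτ0
        field_simp
        ring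
      have h5 : 0 ≤ E'.ord (algebraMap K K' (D t / t) - (∑ i : Fin k, algebraMap K K' (D (s i)) * dualDer b i.succ u) / u) := by
        rw [sub_eq_add_neg]
        refine E'.ord.map_le_add (hEn _ (hD.2 hBd t ht0)) ?_
        rw [E'.ord.map_neg]
        exact etb_div (le_trans hwu.ge (hsum u)) hwu
      have h6 : E'.ord ((e : K') + τ * dualDer b 0 u / u) = 0 := by
        have h7 : E'.ord (e : K') = 0 := by
          have h8 : ∀ c : ℂ, c ≠ 0 → E'.ord (algebraMap ℂ K' c) = 0 := by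
            intro c hc
            refine le_antisymm ?_ (E'.ord_const c)
            have h9 := E'.ord.map_mul (algebraMap ℂ K' c) (algebraMap ℂ K' c⁻¹)
            rw [← map_mul, mul_inv_cancel₀ hc, map_one, E'.ord.map_one] at h9
            rw [h9]
            exact le_add_of_nonneg_right (E'.ord_const _)
          have h9 := h8 (e : ℂ) (by exact_mod_cast (by omega : e ≠ 0))
          rwa [map_natCast] at h9
        have h8 : (0 : WithTop ℤ) < E'.ord (τ * dualDer b 0 u / u) := by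
          have h9 : τ * dualDer b 0 u / u = τ * (dualDer b 0 u / u) := by rw [mul_div_assoc]
          rw [h9, E'.ord.map_mul, hτ]
          exact lt_of_lt_of_le (by norm_num) (le_add_of_nonneg_right (etb_div (h1 0 u hwu.ge) hwu))
        rw [E'.ord.map_add_eq_of_lt_left, h7]
        rw [h7]
        exact h8
      rw [← h4, E'.ord.map_mul, h6, add_zero] at h5
      exact h5
    have hfin : ∀ a, E'.ord a ≤ E'.ord (D' a) := by
      intro a
      rw [hg a]
      refine E'.ord.map_le_add ?_ (hsum a)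
      have h4 : D' τ * dualDer b 0 a = D' τ / τ * (τ * dualDer b 0 a) := by
        field_simp
      rw [h4, E'.ord.map_mul]
      exact le_trans (h3 a) (le_add_of_nonneg_left hlog)
    refine ⟨fun f hf => le_trans hf (hfin f), fun _ f hf => ?_⟩
    obtain ⟨q, hq⟩ := Pool.Agent.H23.exists_int E'.ord hf
    have h4 : E'.ord (D' f / f) + E'.ord f = E'.ord (D' f) := by
      rw [← E'.ord.map_mul, div_mul_cancel₀ _ hf]
    have h5 := hfin f
    rw [← h4] at h5
    rw [hq] at h5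
    by_cases h6 : E'.ord (D' f / f) = ⊤
    · rw [h6]
      exact le_top
    · obtain ⟨r, hr⟩ := WithTop.ne_top_iff_exists.1 h6
      rw [← hr] at h5 ⊢
      have h7 : q ≤ r + q := by exact_mod_cast h5
      have h8 : 0 ≤ r := by omega
      exact_mod_cast h8
  · have he1 := hU hBd
    subst he1
    have hτ : E'.ord (algebraMap K K' t) = 1 := by rw [hE, ht, one_smul]
    obtain ⟨b, hb, h1, h2, h3⟩ := exists_coords hz' E'.ord hτ hs'
    refine ⟨fun f hf => ?_, fun h4 => absurd (hB h4) hBd⟩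
    rw [etb_der b hb D' f]
    refine etb_sum _ _ _ fun i _ => ?_
    rw [E'.ord.map_mul]
    refine add_nonneg ?_ (h1 i f hf)
    refine Fin.cases ?_ (fun j => ?_) i
    · rw [Fin.cons_zero, hD']
      refine hEn _ (hD.1 _ ?_)
      rw [ht]
      norm_num
    · rw [Fin.cons_succ, hD']
      exact hEn _ (hD.1 _ (hs0 j))

end Pool.Agent.GTL

end
end

section

/-!
# GTL EtI0: adapted derivations at `E` and `E'`

PROOF.  `k = k' + 1`; `s`, `t` for `E` (`residue_trdeg`, uniformizer), `t'` uniformizer of `E'`.  `exists_coords` for `E` (`t`, `s`): `D₁ := dualDer b 0` on `K` (`D₁ t = 1`, `D₁ (s i) = 0`, regular at `E`); for `E'` (`t'`, `algebraMap ∘ s`; `K'` is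
essentially of finite type over `ℂ`, `algebraMap ∘ z` is a transcendence basis, `IsTranscendenceBasis.algebraMap_comp`): `D := dualDer b' 0` on `K'`.  `D (algebraMap f) = D (algebraMap t) * algebraMap (D₁ f)` for `f ∈ K`: both sides are derivations
`K → K'` which agree on `t`, `s i` (`Derivation.liftKaehlerDifferential`, `b` is a basis of `Ω[K⁄ℂ]`).
-/

set_option autoImplicit false

open MvPolynomial
open Pool.Agent.H23 (dualDer)
open Pool.Agent.H23.Fano (PrimeDivisorOver)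

noncomputable section

namespace Pool.Agent.GTL

/-- a derivation in terms of a basis of differentials -/
private theorem eti0_expand {K : Type} [Field K] [Algebra ℂ K] {M : Type} [AddCommGroup M] [Module ℂ M] [Module K M] [IsScalarTower ℂ K M] {n : ℕ}
    (b : Module.Basis (Fin n) K Ω[K⁄ℂ]) {a : Fin n → K} (hb : ∀ i, b i = KaehlerDifferential.D ℂ K (a i)) (Δ : Derivation ℂ K M) (f : K) :
    Δ f = ∑ i, dualDer b i f • Δ (a i) := by
  have h1 : KaehlerDifferential.D ℂ K f = ∑ i, dualDer b i f • KaehlerDifferential.D ℂ K (a i) := by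
    conv_lhs => rw [← b.sum_repr (KaehlerDifferential.D ℂ K f)]
    refine Finset.sum_congr rfl fun i _ => ?_
    rw [hb, Pool.Agent.H23.dualDer_apply]
  have h2 : ∀ g, Δ g = Δ.liftKaehlerDifferential (KaehlerDifferential.D ℂ K g) := fun g => (Δ.liftKaehlerDifferential_comp_D g).symm
  rw [h2, h1, map_sum]
  refine Finset.sum_congr rfl fun i _ => ?_
  rw [map_smul, ← h2]

theorem exists_adapted {K K' : Type} [Field K] [Algebra ℂ K] [Field K'] [Algebra ℂ K'] [Algebra K K'] [IsScalarTower ℂ K K'] {k : ℕ} [Algebra.EssFiniteType ℂ K]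
    [FiniteDimensional K K'] (hk : 1 ≤ k) {z : Fin k → K} (hz : IsTranscendenceBasis ℂ z) {E : PrimeDivisorOver K k} {E' : PrimeDivisorOver K' k} {e : ℕ}
    (h : Over E E' e) :
    ∃ (D₁ : Derivation ℂ K K) (D : Derivation ℂ K' K') (t : K) (t' : K'), E.ord t = 1 ∧ E'.ord t' = 1 ∧ D₁ t = 1 ∧ D t' = 1 ∧
      (∀ f, 0 ≤ E.ord f → 0 ≤ E.ord (D₁ f)) ∧ (∀ f, 0 ≤ E'.ord f → 0 ≤ E'.ord (D f)) ∧
      ∀ f : K, D (algebraMap K K' f) = D (algebraMap K K' t) * algebraMap K K' (D₁ f) := by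
  obtain ⟨k', rfl⟩ : ∃ k', k = k' + 1 := ⟨k - 1, by omega⟩
  obtain ⟨s, -, hs⟩ := E.residue_trdeg
  obtain ⟨t, ht⟩ := E.exists_uniformizer
  obtain ⟨t', ht'⟩ := E'.exists_uniformizer
  obtain ⟨b, hb, hreg, -, -⟩ := exists_coords hz E.ord ht (s := s) hs
  have : Algebra.EssFiniteType ℂ K' := Algebra.EssFiniteType.comp ℂ K K'
  have hz' : IsTranscendenceBasis ℂ (algebraMap K K' ∘ z) := hz.algebraMap_comp
  have hs' : ∀ p : MvPolynomial (Fin k') ℂ, p ≠ 0 → E'.ord (aeval (algebraMap K K' ∘ s) p) = 0 := by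
    intro p hp
    have h1 : aeval (algebraMap K K' ∘ s) p = algebraMap K K' (aeval s p) := by
      rw [← IsScalarTower.toAlgHom_apply ℂ K K', ← AlgHom.comp_apply, comp_aeval]
      rfl
    rw [h1, h.2, hs p hp, smul_zero]
  obtain ⟨b', hb', hreg', -, -⟩ := exists_coords hz' E'.ord ht' (s := algebraMap K K' ∘ s) hs'
  refine ⟨dualDer b 0, dualDer b' 0, t, t', ht, ht', ?_, ?_, hreg 0, hreg' 0, ?_⟩
  · simpa using Pool.Agent.H23.dualDer_coord b hb 0 0
  · simpa using Pool.Agent.H23.dualDer_coord b' hb' 0 0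
  · intro f
    have h1 := eti0_expand b hb ((dualDer b' 0).compAlgebraMap K) f
    have h2 : ∀ g : K, (dualDer b' 0).compAlgebraMap K g = dualDer b' 0 (algebraMap K K' g) := fun g => rfl
    rw [h2, Fin.sum_univ_succ] at h1
    have h3 : ∀ i : Fin k', dualDer b i.succ f • (dualDer b' 0).compAlgebraMap K ((Fin.cons t s : Fin (k' + 1) → K) i.succ) = 0 := by
      intro i
      have h4 := Pool.Agent.H23.dualDer_coord b' hb' 0 i.succ
      rw [if_neg (Fin.succ_ne_zero i).symm, Fin.cons_succ] at h4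
      rw [Fin.cons_succ, h2, show algebraMap K K' (s i) = (algebraMap K K' ∘ s) i from rfl, h4, smul_zero]
    rw [Finset.sum_eq_zero (fun i _ => h3 i), add_zero, Fin.cons_zero, h2, Algebra.smul_def] at h1
    rw [h1, mul_comm]

end Pool.Agent.GTL

end
end

section

/-!
# GTL EtI: local injectivity gives unramifiedness at the prime divisors, and finiteness

PROOF of `unram_of_locInj`.  Suppose `e ≥ 2`.  `k = k' + 1`; `s`, `t` for `E` (`residue_trdeg`, uniformizer), `t'` uniformizer of `E'`.  `exists_coords` for `E` (`t`, `s`): `D₁ := dualDer b 0` on `K` (`D₁ t = 1`, `D₁ (s i) = 0`, regular);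
for `E'` (`t'`, `algebraMap ∘ s`): `D := dualDer b' 0` on `K'`.  `D (algebraMap f) = D (algebraMap t) * algebraMap (D₁ f)` for `f ∈ K`: both sides are derivations `K → K'` which agree on `t`, `s i` (`KaehlerDifferential`, basis `b`).
`t = t' ^ e * w`, `E'.ord w = 0`.  `t' = a / b` with `a`, `b` polynomials in the `η` (`hη`: `K' = ℂ(η)`); `b = t' ^ n * v`, `E'.ord v = 0`.
`A₁ ⊆ K` (`exists_stable` for `D₁`): contains `ξ i`, `t`.  `A ⊆ K'` (`exists_stable` for `D`): contains `η l`, the images of the generators of `A₁` (so `algebraMap` maps `A₁` to `A`), `t'`, `w`, `1/w`, `v`, `1/v`, `1 / U (η)`, `D (algebraMap t)`.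
`w₀ : A → ℂ` with `w₀ = 0` on the elements of positive order (`exists_pt`).  Flows `Φ` of `A` from `w₀` and `Φ₁` of `A₁` from `w₀ ∘ ψ` (`exists_flow`).  `Φ τ t' = τ` (derivative 1); `T τ := Φ τ (t) = τ ^ e * Φ τ w`, `Φ 0 w ≠ 0` (unit);
`flow_compare` for `ξ i`: `Φ τ (ξ i) = Φ₁ (T τ) (ξ i)` near `0`.  `exists_eq_of_order`: `τ₁ ≠ τ₂` near `0`, not `0`, with `T τ₁ = T τ₂`; `x i := Φ τ₁ (ξ i) = Φ τ₂ (ξ i)`; `y₁ = Φ τ₁ (η)`, `y₂ = Φ τ₂ (η)` are near `y₀ = Φ 0 (η)`, `U (y₀) ≠ 0` (unit);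
`Pt` since `Φ τ` is an algebra homomorphism.  By `hLI`: `y₁ = y₂`.  But `τ * b (Φ τ η) = a (Φ τ η)` and `b (Φ τ η) = τ ^ n * Φ τ v ≠ 0`, so `τ₁ = τ₂`, a contradiction.
-/

set_option autoImplicit false

open Topology Filter MvPolynomial
open Pool.Agent.H23.Fano (PrimeDivisorOver)

noncomputable section

namespace Pool.Agent.GTL

variable {K K' : Type} [Field K] [Algebra ℂ K] [Field K'] [Algebra ℂ K'] [Algebra K K'] [IsScalarTower ℂ K K'] {k M N : ℕ}

/-- values of an algebra homomorphism at a polynomial -/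
private theorem eti_eval {σ : Type} {A : Subalgebra ℂ K'} {η : σ → K'} (hη : ∀ l, η l ∈ A) (φ : A →ₐ[ℂ] ℂ) (F : MvPolynomial σ ℂ) :
    ∃ hF : aeval η F ∈ A, eval (fun l => φ ⟨η l, hη l⟩) F = φ ⟨aeval η F, hF⟩ := by
  have h0 : A.val (aeval (fun l => (⟨η l, hη l⟩ : A)) F) = aeval η F := by
    rw [← AlgHom.comp_apply, comp_aeval]
    rfl
  have hF : aeval η F ∈ A := by
    rw [← h0]
    exact (aeval (fun l => (⟨η l, hη l⟩ : A)) F).2
  refine ⟨hF, ?_⟩
  have h1 : (⟨aeval η F, hF⟩ : A) = aeval (fun l => (⟨η l, hη l⟩ : A)) F := Subtype.ext h0.symm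
  rw [h1, ← AlgHom.comp_apply, comp_aeval]
  exact (congrArg (fun ψ : MvPolynomial σ ℂ →+* ℂ => ψ F) (coe_aeval_eq_eval (fun l => φ ⟨η l, hη l⟩))).symm

/-- the order of a nonzero element is an integer -/
private theorem eti_ord (E : PrimeDivisorOver K k) {a : K} (ha : a ≠ 0) (h0 : 0 ≤ E.ord a) : ∃ n : ℕ, E.ord a = ((n : ℤ) : WithTop ℤ) := by
  have h1 : E.ord a ≠ ⊤ := fun h => ha (E.ord.top_iff.1 h)
  obtain ⟨n, hn⟩ := WithTop.ne_top_iff_exists.1 h1
  rw [← hn] at h0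
  have h2 : (0 : ℤ) ≤ n := by exact_mod_cast h0
  exact ⟨n.toNat, by rw [← hn, Int.toNat_of_nonneg h2]⟩

private theorem eti_pow (E : PrimeDivisorOver K k) {t : K} (ht : E.ord t = 1) (n : ℕ) : E.ord (t ^ n) = ((n : ℤ) : WithTop ℤ) := by
  rw [AddValuation.map_pow, ht]
  simp

/-- a quotient of two elements of the same finite order has order zero -/
private theorem eti_div (E : PrimeDivisorOver K k) {a b : K} (hb : b ≠ 0) (h : E.ord a = E.ord b) : E.ord (a / b) = 0 := by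
  have h1 : E.ord a = E.ord (a / b) + E.ord b := by rw [← AddValuation.map_mul, div_mul_cancel₀ _ hb]
  have h2 : E.ord b ≠ ⊤ := fun h => hb (E.ord.top_iff.1 h)
  obtain ⟨n, hn⟩ := WithTop.ne_top_iff_exists.1 h2
  rw [h, ← hn] at h1
  have h3 : E.ord (a / b) ≠ ⊤ := by
    intro h4
    rw [h4, top_add] at h1
    exact WithTop.coe_ne_top h1
  obtain ⟨m, hm⟩ := WithTop.ne_top_iff_exists.1 h3
  rw [← hm] at h1 ⊢
  have h5 : n = m + n := by exact_mod_cast h1
  have h6 : m = 0 := by omega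
  rw [h6]
  rfl

private theorem eti_inv (E : PrimeDivisorOver K k) {a : K} (h : E.ord a = 0) : E.ord a⁻¹ = 0 := by
  have h0 : a ≠ 0 := by
    rintro rfl
    rw [AddValuation.map_zero] at h
    exact WithTop.top_ne_coe (a := (0 : ℤ)) h
  have h1 := eti_div E (a := 1) (b := a) h0 (by rw [AddValuation.map_one, h])
  rwa [one_div] at h1

theorem unram_of_locInj [Algebra.EssFiniteType ℂ K] [FiniteDimensional K K'] (hk : 1 ≤ k) {z : Fin k → K} (hz : IsTranscendenceBasis ℂ z)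
    {E : PrimeDivisorOver K k} {E' : PrimeDivisorOver K' k} {e : ℕ} (h : Over E E' e) {η : Fin (M + 1) → K'} (hη0 : ∀ l, 0 ≤ E'.ord (η l))
    (hη : IntermediateField.adjoin ℂ (Set.range η) = ⊤) {ξ : Fin (N + 1) → K} (hξ0 : ∀ i, 0 ≤ E.ord (ξ i)) {U : MvPolynomial (Fin (M + 1)) ℂ}
    (hU : E'.ord (aeval η U) = 0) (hLI : LocInj η (fun i => algebraMap K K' (ξ i)) U) : e = 1 := by
  classical
  by_contra hne
  have he1 : 1 ≤ e := h.1
  have he2 : 2 ≤ e := by omega
  obtain ⟨D₁, D, t, t', ht, ht', hD₁t, hDt', hD₁, hD, hcomp⟩ := exists_adapted hk hz h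
  have ht'0 : t' ≠ 0 := by
    rintro rfl
    rw [AddValuation.map_zero] at ht'
    exact WithTop.top_ne_coe (a := (1 : ℤ)) ht'
  have : Algebra.EssFiniteType ℂ K' := Algebra.EssFiniteType.comp ℂ K K'
  have hz' : IsTranscendenceBasis ℂ (algebraMap K K' ∘ z) := hz.algebraMap_comp
  have hmap : ∀ f : K, 0 ≤ E.ord f → 0 ≤ E'.ord (algebraMap K K' f) := by
    intro f hf
    rw [h.2]
    exact nsmul_nonneg hf e
  -- the algebra on `Z`
  obtain ⟨A₁, hA₁, hA₁0, hF₁, hst₁⟩ := exists_stable hk hz E D₁ hD₁ (insert t (Finset.univ.image ξ)) (by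
    intro f hf
    rcases Finset.mem_insert.1 hf with rfl | hf
    · rw [ht]; exact zero_le_one
    · obtain ⟨i, -, rfl⟩ := Finset.mem_image.1 hf
      exact hξ0 i)
  have htA₁ : t ∈ A₁ := hF₁ _ (Finset.mem_insert_self _ _)
  have hξA₁ : ∀ i, ξ i ∈ A₁ := fun i => hF₁ _ (Finset.mem_insert_of_mem (Finset.mem_image_of_mem _ (Finset.mem_univ i)))
  obtain ⟨S₁, hS₁⟩ := hA₁
  have hS₁A : ∀ f ∈ S₁, f ∈ A₁ := fun f hf => by rw [← hS₁]; exact Algebra.subset_adjoin hf
  -- the unit `w`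
  obtain ⟨w, hw⟩ : ∃ w : K', w = algebraMap K K' t / t' ^ e := ⟨_, rfl⟩
  have hwt : algebraMap K K' t = t' ^ e * w := by rw [hw, mul_div_cancel₀ _ (pow_ne_zero _ ht'0)]
  have hw0 : E'.ord w = 0 := by
    rw [hw]
    refine eti_div E' (pow_ne_zero _ ht'0) ?_
    rw [h.2, ht, eti_pow E' ht']
    simp
  -- `t'` is a quotient of polynomials in `η`
  have hta : t' ∈ IntermediateField.adjoin ℂ (Set.range η) := by
    rw [hη]
    exact IntermediateField.mem_top
  obtain ⟨a, b, hab⟩ := (IntermediateField.mem_adjoin_range_iff ℂ η t').1 hta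
  have hb0 : aeval η b ≠ 0 := by
    intro h1
    rw [h1, div_zero] at hab
    exact ht'0 hab
  have hab' : t' * aeval η b = aeval η a := by rw [hab, div_mul_cancel₀ _ hb0]
  have hpoly : ∀ F : MvPolynomial (Fin (M + 1)) ℂ, 0 ≤ E'.ord (aeval η F) := by
    intro F
    induction F using MvPolynomial.induction_on with
    | C c => rw [aeval_C]; exact E'.ord_const c
    | add p q hp hq => rw [map_add]; exact (le_min hp hq).trans (E'.ord.map_add _ _)
    | mul_X p i hp => rw [map_mul, aeval_X, AddValuation.map_mul]; exact add_nonneg hp (hη0 i)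
  obtain ⟨n, hn⟩ := eti_ord E' hb0 (hpoly b)
  obtain ⟨v, hv⟩ : ∃ v : K', v = aeval η b / t' ^ n := ⟨_, rfl⟩
  have hvt : aeval η b = t' ^ n * v := by rw [hv, mul_div_cancel₀ _ (pow_ne_zero _ ht'0)]
  have hv0 : E'.ord v = 0 := by
    rw [hv]
    refine eti_div E' (pow_ne_zero _ ht'0) ?_
    rw [hn, eti_pow E' ht']
  -- the algebra on `Z'`
  obtain ⟨A, hA, hA0, hF, hst⟩ := exists_stable hk hz' E' D hD
    (Finset.univ.image η ∪ S₁.image (algebraMap K K') ∪ {t', w, w⁻¹, v, v⁻¹, (aeval η U)⁻¹}) (by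
    intro f hf
    rw [Finset.mem_union, Finset.mem_union] at hf
    rcases hf with (hf | hf) | hf
    · obtain ⟨i, -, rfl⟩ := Finset.mem_image.1 hf
      exact hη0 i
    · obtain ⟨g, hg, rfl⟩ := Finset.mem_image.1 hf
      exact hmap g (hA₁0 g (hS₁A g hg))
    · simp only [Finset.mem_insert, Finset.mem_singleton] at hf
      rcases hf with rfl | rfl | rfl | rfl | rfl | rfl
      · rw [ht']; exact zero_le_one
      · exact hw0.ge
      · exact (eti_inv E' hw0).ge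
      · exact hv0.ge
      · exact (eti_inv E' hv0).ge
      · exact (eti_inv E' hU).ge)
  have hηA : ∀ j, η j ∈ A := fun j => hF _ (by simp)
  have ht'A : t' ∈ A := hF _ (by simp)
  have hwA : w ∈ A := hF _ (by simp)
  have hwA' : w⁻¹ ∈ A := hF _ (by simp)
  have hvA : v ∈ A := hF _ (by simp)
  have hvA' : v⁻¹ ∈ A := hF _ (by simp)
  have hUA' : (aeval η U)⁻¹ ∈ A := hF _ (by simp)
  have hA₁A : ∀ f : K, f ∈ A₁ → algebraMap K K' f ∈ A := by
    intro f hf
    rw [← hS₁] at hf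
    have h1 : Algebra.adjoin ℂ (S₁ : Set K) ≤ A.comap (IsScalarTower.toAlgHom ℂ K K') := by
      refine Algebra.adjoin_le fun g hg => ?_
      rw [SetLike.mem_coe, Subalgebra.mem_comap, IsScalarTower.toAlgHom_apply]
      refine hF _ ?_
      rw [Finset.mem_union, Finset.mem_union]
      exact Or.inl (Or.inr (Finset.mem_image_of_mem _ hg))
    have h2 := h1 hf
    rwa [Subalgebra.mem_comap, IsScalarTower.toAlgHom_apply] at h2
  have hξA : ∀ i, algebraMap K K' (ξ i) ∈ A := fun i => hA₁A _ (hξA₁ i)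
  obtain ⟨ψ, hψ⟩ : ∃ ψ : A₁ →ₐ[ℂ] A, ∀ f : A₁, (ψ f : K') = algebraMap K K' f := by
    refine ⟨((IsScalarTower.toAlgHom ℂ K K').comp A₁.val).codRestrict A fun f => hA₁A _ f.2, fun f => rfl⟩
  -- a point of the centre of `E'`
  obtain ⟨w₀, hw₀⟩ := exists_pt E' A hA hA0
  have : Algebra.FiniteType ℂ A := (Subalgebra.fg_iff_finiteType A).mp hA
  have : Algebra.FiniteType ℂ A₁ := (Subalgebra.fg_iff_finiteType A₁).mp ⟨S₁, hS₁⟩
  obtain ⟨ρ, Φ, hρ, hΦ0, hΦ⟩ := exists_flow (resDer D A hst) w₀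
  obtain ⟨ρ₁, Φ₁, hρ₁, hΦ₁0, hΦ₁⟩ := exists_flow (resDer D₁ A₁ hst₁) (w₀.comp ψ)
  have h0 : (0 : ℂ) ∈ Metric.ball (0 : ℂ) ρ := Metric.mem_ball_self hρ
  -- comparison of the flows
  have hDtA : D (algebraMap K K' t) ∈ A := hst _ (hA₁A t htA₁)
  have hΦt0 : Φ 0 (ψ ⟨t, htA₁⟩) = 0 := by
    rw [hΦ0]
    refine hw₀ _ ?_
    rw [hψ, h.2, ht]
    have h1 : (0 : WithTop ℤ) < ((e : ℤ) : WithTop ℤ) := by exact_mod_cast (by omega : 0 < e)
    simpa using h1
  have hcmp : ∀ f : A₁, ∀ᶠ τ in 𝓝 (0 : ℂ), Φ τ (ψ f) = Φ₁ (Φ τ (ψ ⟨t, htA₁⟩)) f :=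
    flow_compare (D := resDer D A hst) (D₁ := resDer D₁ A₁ hst₁) (ψ := ψ) (g := ⟨D (algebraMap K K' t), hDtA⟩) (t := ⟨t, htA₁⟩)
      (fun f => Subtype.ext (by
        show D (ψ f : K') = D (algebraMap K K' t) * (ψ (resDer D₁ A₁ hst₁ f) : K')
        rw [hψ, hψ, hcomp]
        rfl))
      (Subtype.ext hD₁t) hρ hρ₁ hΦ hΦ₁ (by rw [hΦ₁0, hΦ0]) hΦt0
  -- `Φ τ t' = τ`
  have hτ : ∀ τ ∈ Metric.ball (0 : ℂ) ρ, Φ τ ⟨t', ht'A⟩ = τ := by
    intro τ hτ
    have h1 : Φ 0 ⟨t', ht'A⟩ = 0 := by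
      rw [hΦ0]
      exact hw₀ _ (by rw [ht']; exact zero_lt_one)
    have h2 : ∀ σ ∈ Metric.ball (0 : ℂ) ρ, HasDerivAt (fun σ => Φ σ ⟨t', ht'A⟩ - σ) 0 σ := by
      intro σ hσ
      have h3 := hΦ σ hσ ⟨t', ht'A⟩
      have h4 : resDer D A hst ⟨t', ht'A⟩ = 1 := Subtype.ext hDt'
      rw [h4, map_one] at h3
      have h5 := h3.sub (hasDerivAt_id σ)
      rw [sub_self] at h5
      exact h5
    have h3 := (convex_ball (0 : ℂ) ρ).is_const_of_fderivWithin_eq_zero (𝕜 := ℂ) (f := fun σ => Φ σ ⟨t', ht'A⟩ - σ)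
      (fun σ hσ => (h2 σ hσ).differentiableAt.differentiableWithinAt)
      (fun σ hσ => by
        rw [fderivWithin_of_isOpen Metric.isOpen_ball hσ]
        have h1 := (h2 σ hσ).hasFDerivAt.fderiv
        rw [h1]
        ext
        simp) hτ h0
    simp only [h1, sub_zero] at h3
    exact sub_eq_zero.1 h3
  -- the functions `T` and `u`
  have hT : ∀ τ ∈ Metric.ball (0 : ℂ) ρ, Φ τ (ψ ⟨t, htA₁⟩) = τ ^ e * Φ τ ⟨w, hwA⟩ := by
    intro τ hτ'
    have h1 : ψ ⟨t, htA₁⟩ = (⟨t', ht'A⟩ : A) ^ e * ⟨w, hwA⟩ := Subtype.ext (by rw [hψ]; exact hwt)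
    rw [h1, map_mul, map_pow, hτ τ hτ']
  have hunit : ∀ (φ : A →ₐ[ℂ] ℂ) (f : K') (hf : f ∈ A) (hf' : f⁻¹ ∈ A), f ≠ 0 → φ ⟨f, hf⟩ ≠ 0 := by
    intro φ f hf hf' hf0
    have h2 : (⟨f, hf⟩ : A) * (⟨f⁻¹, hf'⟩ : A) = 1 := Subtype.ext (mul_inv_cancel₀ hf0)
    have h3 : φ ⟨f, hf⟩ * φ ⟨f⁻¹, hf'⟩ = 1 := by rw [← map_mul, h2, map_one]
    exact left_ne_zero_of_mul_eq_one h3
  have hne0 : ∀ {f : K'}, E'.ord f = 0 → f ≠ 0 := by
    rintro f hf rfl
    rw [AddValuation.map_zero] at hf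
    exact WithTop.top_ne_coe (a := (0 : ℤ)) hf
  have hw00 : w ≠ 0 := hne0 hw0
  have hv00 : v ≠ 0 := hne0 hv0
  have hU00 : aeval η U ≠ 0 := hne0 hU
  have huan : AnalyticAt ℂ (fun τ => Φ τ ⟨w, hwA⟩) 0 := by
    refine DifferentiableOn.analyticAt (s := Metric.ball (0 : ℂ) ρ) (fun τ hτ' => (hΦ τ hτ' _).differentiableAt.differentiableWithinAt) ?_
    exact Metric.ball_mem_nhds _ hρ
  -- the coordinates along the flow
  obtain ⟨y, hy⟩ : ∃ y : ℂ → Fin (M + 1) → ℂ, y = fun τ j => Φ τ ⟨η j, hηA j⟩ := ⟨_, rfl⟩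
  obtain ⟨x, hx⟩ : ∃ x : ℂ → Fin (N + 1) → ℂ, x = fun τ i => Φ τ ⟨algebraMap K K' (ξ i), hξA i⟩ := ⟨_, rfl⟩
  have hPt : ∀ τ, Pt η (fun i => algebraMap K K' (ξ i)) (y τ) (x τ) := by
    intro τ F hF0
    have hmem : ∀ s, (Sum.elim η (fun i => algebraMap K K' (ξ i)) : Fin (M + 1) ⊕ Fin (N + 1) → K') s ∈ A := by
      rintro (j | i)
      · exact hηA j
      · exact hξA i
    obtain ⟨h1, h2⟩ := eti_eval (η := Sum.elim η (fun i => algebraMap K K' (ξ i))) hmem (Φ τ) F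
    have h3 : (Sum.elim (y τ) (x τ) : Fin (M + 1) ⊕ Fin (N + 1) → ℂ) = fun s => Φ τ ⟨Sum.elim η (fun i => algebraMap K K' (ξ i)) s, hmem s⟩ := by
      funext s
      rcases s with j | i
      · simp only [Sum.elim_inl, hy]
      · simp only [Sum.elim_inr, hx]
    have h4 : (⟨aeval (Sum.elim η (fun i => algebraMap K K' (ξ i))) F, h1⟩ : A) = 0 := Subtype.ext hF0
    rw [h3, h2, h4, map_zero]
  have hU0 : eval (y 0) U ≠ 0 := by
    obtain ⟨h1, h2⟩ := eti_eval hηA (Φ 0) U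
    rw [hy]
    show eval (fun j => Φ 0 ⟨η j, hηA j⟩) U ≠ 0
    rw [h2]
    exact hunit _ _ _ hUA' hU00
  have hyc : ContinuousAt y 0 := by
    rw [hy]
    exact continuousAt_pi.mpr fun j => (hΦ 0 h0 _).continuousAt
  have hLI' := hLI (y 0) (x 0) (hPt 0) hU0
  -- a neighbourhood of `0` on which everything happens
  have hq : Tendsto (fun p : ℂ × ℂ => (y p.1, y p.2)) (𝓝 (0, 0)) (𝓝 (y 0, y 0)) := by
    have h1 : Tendsto (fun p : ℂ × ℂ => y p.1) (𝓝 (0, 0)) (𝓝 (y 0)) := hyc.tendsto.comp continuousAt_fst.tendsto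
    have h2 : Tendsto (fun p : ℂ × ℂ => y p.2) (𝓝 (0, 0)) (𝓝 (y 0)) := hyc.tendsto.comp continuousAt_snd.tendsto
    exact h1.prodMk_nhds h2
  have hev := hq.eventually hLI'
  rw [nhds_prod_eq] at hev
  obtain ⟨p₁, hp₁, p₂, hp₂, hpp⟩ := eventually_prod_iff.1 hev
  have hxc : ∀ᶠ τ in 𝓝 (0 : ℂ), ∀ i, Φ τ (ψ ⟨ξ i, hξA₁ i⟩) = Φ₁ (Φ τ (ψ ⟨t, htA₁⟩)) ⟨ξ i, hξA₁ i⟩ :=
    eventually_all.2 fun i => hcmp ⟨ξ i, hξA₁ i⟩
  have hs : {τ : ℂ | (p₁ τ ∧ p₂ τ) ∧ τ ∈ Metric.ball (0 : ℂ) ρ ∧ ∀ i, Φ τ (ψ ⟨ξ i, hξA₁ i⟩) = Φ₁ (Φ τ (ψ ⟨t, htA₁⟩)) ⟨ξ i, hξA₁ i⟩} ∈ 𝓝 (0 : ℂ) :=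
    (hp₁.and hp₂).and (Filter.Eventually.and (Metric.ball_mem_nhds (0 : ℂ) hρ) hxc)
  have hTev : ∀ᶠ τ in 𝓝 (0 : ℂ), Φ τ (ψ ⟨t, htA₁⟩) = τ ^ e * Φ τ ⟨w, hwA⟩ := by
    filter_upwards [Metric.ball_mem_nhds (0 : ℂ) hρ] with τ hτ'
    exact hT τ hτ'
  obtain ⟨τ₁, hτ₁s, τ₂, hτ₂s, hτ₁0, hτ₂0, hτne, hTT⟩ :=
    exists_eq_of_order he2 huan (hunit (Φ 0) w hwA hwA' hw00) hTev hs
  obtain ⟨⟨hτ₁p, -⟩, hτ₁ρ, hτ₁x⟩ := hτ₁s
  obtain ⟨⟨-, hτ₂p⟩, hτ₂ρ, hτ₂x⟩ := hτ₂s
  have hxx : x τ₁ = x τ₂ := by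
    funext i
    have h1 : ∀ τ, x τ i = Φ τ (ψ ⟨ξ i, hξA₁ i⟩) := by
      intro τ
      rw [hx]
      exact congrArg (Φ τ) (Subtype.ext (hψ ⟨ξ i, hξA₁ i⟩).symm)
    rw [h1, h1, hτ₁x, hτ₂x, hTT]
  have hyy : y τ₁ = y τ₂ := by
    refine hpp hτ₁p hτ₂p (x τ₁) (hPt τ₁) ?_
    rw [hxx]
    exact hPt τ₂
  -- `τ` is determined by `y τ`
  have hdet : ∀ τ ∈ Metric.ball (0 : ℂ) ρ, τ ≠ 0 → τ * eval (y τ) b = eval (y τ) a ∧ eval (y τ) b ≠ 0 := by
    intro τ hτ' hτ0
    obtain ⟨h1, h2⟩ := eti_eval hηA (Φ τ) b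
    obtain ⟨h3, h4⟩ := eti_eval hηA (Φ τ) a
    have h5 : y τ = fun j => Φ τ ⟨η j, hηA j⟩ := by rw [hy]
    rw [h5, h2, h4]
    constructor
    · have h6 : (⟨aeval η a, h3⟩ : A) = ⟨t', ht'A⟩ * ⟨aeval η b, h1⟩ := Subtype.ext hab'.symm
      rw [h6, map_mul, hτ τ hτ']
    · have h6 : (⟨aeval η b, h1⟩ : A) = (⟨t', ht'A⟩ : A) ^ n * ⟨v, hvA⟩ := Subtype.ext hvt
      rw [h6, map_mul, map_pow, hτ τ hτ']
      exact mul_ne_zero (pow_ne_zero _ hτ0) (hunit _ _ _ hvA' hv00)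
  obtain ⟨h1, h2⟩ := hdet τ₁ hτ₁ρ hτ₁0
  obtain ⟨h3, h4⟩ := hdet τ₂ hτ₂ρ hτ₂0
  rw [← hyy, ← h1] at h3
  rw [← hyy] at h4
  exact hτne (mul_right_cancel₀ h4 h3).symm

end Pool.Agent.GTL

end
end

section

/-!
# GQ Smt: the generic point is smooth

PROOF.  `GG.exists_basis`: coordinates `y (b' i)` which are a transcendence basis, and for the other coordinates `l` relations `f l` with `∂_l (f l) ≠ 0` at the generic
point, `∂_l' (f l) = 0` for the other `l'`.  `g = ∏ ∂_l (f l)`: at a point `w` with `g (w) ≠ 0` a tangent vector with zero `b'`-coordinates is zero.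
-/

set_option autoImplicit false

open MvPolynomial Topology Filter Metric

noncomputable section

namespace Pool.Agent.GQ

/-- The generic point is smooth (`GG.Gen.exists_basis`, `GG.Gen.exists_rel`, or `GG.exists_basis` of GenA). -/
theorem exists_smooth {τ : Type} [Fintype τ] {L : Type} [Field L] [Algebra ℂ L] (y : τ → L) (hgen : IntermediateField.adjoin ℂ (Set.range y) = ⊤)
    {k : ℕ} (hk : ∃ z : Fin k → L, IsTranscendenceBasis ℂ z) : ∃ g ∉ rel y, g ∈ sgl (rel y) k := by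
  classical
  obtain ⟨z, hz⟩ := hk
  have h0 : AlgebraicIndependent ℂ fun i : Fin 0 => y ((Fin.elim0 : Fin 0 → τ) i) := by
    rw [algebraicIndependent_empty_type_iff]
    exact (algebraMap ℂ L).injective
  obtain ⟨d, b', hb', -, hbas, hrel⟩ := Pool.Agent.GG.exists_basis hgen (Fin.elim0 : Fin 0 → τ) h0
  have hd : d = k := by
    have h1 := hbas.cardinalMk_eq_trdeg
    rw [← hz.cardinalMk_eq_trdeg, Cardinal.mk_fintype, Cardinal.mk_fintype, Fintype.card_fin, Fintype.card_fin] at h1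
    exact_mod_cast h1
  subst hd
  have hrel' : ∀ l : {l : τ // l ∉ Set.range b'}, ∃ f : MvPolynomial τ ℂ, aeval y f = 0 ∧ aeval y (pderiv l.1 f) ≠ 0 ∧
      ∀ l' ∉ Set.range b', l' ≠ l.1 → pderiv l' f = 0 := fun l => hrel l.1 l.2
  choose f hf1 hf2 hf3 using hrel'
  refine ⟨∏ l, pderiv l.1 (f l), ?_, ?_⟩
  · rw [mem_rel, map_prod]
    exact Finset.prod_ne_zero_iff.2 fun l _ => hf2 l
  · intro w hw hlt
    by_contra hne
    rw [map_prod] at hne
    have hne' : ∀ l, eval w (pderiv l.1 (f l)) ≠ 0 := fun l => Finset.prod_ne_zero_iff.1 hne l (Finset.mem_univ l)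
    have hle : Module.finrank ℂ (Tn (rel y) w) ≤ d := by
      let φ : Tn (rel y) w →ₗ[ℂ] (Fin d → ℂ) := (LinearMap.funLeft ℂ ℂ b').comp (Tn (rel y) w).subtype
      have hφ : Function.Injective φ := by
        rw [injective_iff_map_eq_zero]
        rintro ⟨t, ht⟩ h
        apply Subtype.ext
        funext l
        show t l = 0
        have hb0 : ∀ i, t (b' i) = 0 := fun i => congrFun h i
        by_cases hl : l ∈ Set.range b'
        · obtain ⟨i, rfl⟩ := hl
          exact hb0 i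
        have h1 := ht (f ⟨l, hl⟩) (mem_rel.2 (hf1 ⟨l, hl⟩))
        rw [Finset.sum_eq_single l] at h1
        · exact (mul_eq_zero.1 h1).resolve_left (hne' ⟨l, hl⟩)
        · intro s _ hs
          by_cases hs' : s ∈ Set.range b'
          · obtain ⟨i, rfl⟩ := hs'
            rw [hb0 i, mul_zero]
          · rw [hf3 ⟨l, hl⟩ s hs' hs, map_zero, zero_mul]
        · intro h2
          exact absurd (Finset.mem_univ l) h2
      have h2 := LinearMap.finrank_le_finrank_of_injective hφ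
      rwa [Module.finrank_fin_fun] at h2
    exact absurd hlt (not_lt.2 hle)

end Pool.Agent.GQ

end
end

section

/-!
# GA Ext0: curves of finite area extend

The values `s_k` of the symmetric differentials are bounded on `Re w > 2` (`sml_area`), so they are holomorphic functions of `z = e^(-w)` at `z = 0`
(`Function.Periodic`), with the value `0` at `0` because the area is finite: `|s_k| ≤ C e^(-Re w)`, so `sp F w ≤ C e^(-δ Re w)` (`theta_bd`).
The derivative of `|F_a|² / ∑ |F_i|²` is at most `2 (N + 1)` times the speed, so there is an index `a` such that this quotient is at least `1 / (2 (N + 1))`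
for large `Re w`: the quotients `F_i / F_a` are bounded, and have limits by `Function.Periodic`.
-/

set_option autoImplicit false

open MvPolynomial Topology Filter Metric
open Pool.Agent.H13.SM (conTan cone)
open Pool.Agent.H62.FC (Homog)
open Pool.Agent.GG

namespace Pool.Agent.GA

variable {N : ℕ} {P : Ideal (MvPolynomial (Fin (N + 1)) ℂ)} {J : ℕ} {m : Fin J → ℕ} {θ : ∀ k, SymSec P (m k)} {F : ℂ → Fin (N + 1) → ℂ}

/-- bounded periodic holomorphic functions -/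
theorem ext0_cusp {f : ℂ → ℂ} {X₀ K : ℝ} (hd : ∀ w : ℂ, X₀ < w.re → DifferentiableAt ℂ f w) (hper : ∀ w : ℂ, X₀ < w.re → f (w + per) = f w)
    (hK : ∀ w : ℂ, X₀ < w.re → ‖f w‖ ≤ K) :
    ∃ c : ℂ, Tendsto f (comap Complex.re atTop) (𝓝 c) ∧ ∃ C X₁ : ℝ, ∀ w : ℂ, X₁ < w.re → ‖f w - c‖ ≤ C * Real.exp (-w.re) := by
  classical
  obtain ⟨g, hg⟩ : ∃ g : ℂ → ℂ, g = fun z => if X₀ < z.im then f (-Complex.I * z) else 0 := ⟨_, rfl⟩
  have hre : ∀ z : ℂ, (-Complex.I * z).re = z.im := by intro z; simp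
  have hgp : Function.Periodic g ((2 * Real.pi : ℝ) : ℂ) := by
    intro z
    rw [hg]
    have h1 : (z + ((2 * Real.pi : ℝ) : ℂ)).im = z.im := by simp
    simp only [h1]
    split_ifs with h
    · have h2 := hper (-Complex.I * (z + ((2 * Real.pi : ℝ) : ℂ))) (by rw [hre, h1]; exact h)
      rw [← h2]
      congr 1
      unfold per
      push_cast
      ring
    · rfl
  have hev : ∀ᶠ z in comap Complex.im atTop, X₀ < z.im := tendsto_comap.eventually (eventually_gt_atTop X₀)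
  have hgd : ∀ᶠ z in comap Complex.im atTop, DifferentiableAt ℂ g z := by
    filter_upwards [hev] with z hz
    have h1 : g =ᶠ[𝓝 z] fun z => f (-Complex.I * z) := by
      filter_upwards [(isOpen_lt continuous_const Complex.continuous_im).mem_nhds hz] with y hy
      rw [hg]
      exact if_pos hy
    refine DifferentiableAt.congr_of_eventuallyEq ?_ h1
    exact DifferentiableAt.comp (g := f) (f := fun z => -Complex.I * z) z (hd _ (by rw [hre]; exact hz)) (by fun_prop)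
  have hgb : BoundedAtFilter (comap Complex.im atTop) g := by
    refine Asymptotics.IsBigO.of_bound K ?_
    filter_upwards [hev] with z hz
    rw [hg]
    simp only [if_pos hz, Pi.one_apply, norm_one, mul_one]
    exact hK _ (by rw [hre]; exact hz)
  have h2π : 0 < 2 * Real.pi := Real.two_pi_pos
  have h1 := Function.Periodic.tendsto_at_I_inf h2π hgp hgd hgb
  have h2 := Function.Periodic.exp_decay_sub_of_bounded_at_inf h2π hgp hgd hgb
  set c := Function.Periodic.cuspFunction (2 * Real.pi) g 0 with hc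
  have hI : ∀ w : ℂ, (Complex.I * w).im = w.re := by intro w; simp
  have hIt : Tendsto (fun w : ℂ => Complex.I * w) (comap Complex.re atTop) (comap Complex.im atTop) := by
    rw [tendsto_comap_iff]
    have : (Complex.im ∘ fun w : ℂ => Complex.I * w) = Complex.re := funext hI
    rw [this]
    exact tendsto_comap
  have hgf : ∀ w : ℂ, X₀ < w.re → g (Complex.I * w) = f w := by
    intro w hw
    rw [hg]
    simp only [hI, if_pos hw]
    congr 1
    linear_combination (-w) * Complex.I_mul_I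
  refine ⟨c, ?_, ?_⟩
  · refine (h1.comp hIt).congr' ?_
    filter_upwards [tendsto_comap.eventually (eventually_gt_atTop X₀)] with w hw
    exact hgf w hw
  · obtain ⟨C, hC⟩ := h2.bound
    rw [eventually_comap] at hC
    obtain ⟨X₁, hX₁⟩ := hC.exists_forall_of_atTop
    refine ⟨C, max X₀ X₁, fun w hw => ?_⟩
    have h3 := hX₁ w.re ((le_max_right _ _).trans hw.le) (Complex.I * w) (hI w)
    rw [hgf w (lt_of_le_of_lt (le_max_left _ _) hw), hI, Real.norm_eq_abs, abs_of_pos (Real.exp_pos _)] at h3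
    have h4 : -2 * Real.pi * w.re / (2 * Real.pi) = -w.re := by
      field_simp
    rwa [h4] at h3

/-- the values of the differentials decay -/
theorem ext0_decay {s : ℂ → ℝ} (hs : Speed s) {g : ℂ → ℂ} (hg : ∀ w ∈ HP, AnalyticAt ℂ g w) (hper : ∀ w ∈ HP, g (w + per) = g w) {m : ℕ} (hm : 1 ≤ m)
    {C : ℝ} (hC : 0 < C) (hle : ∀ w ∈ HP, ‖g w‖ ≤ C * s w ^ m) {B : ℝ} (hB : ∀ X, AA s X ≤ B) :
    ∃ C' X₁ : ℝ, ∀ w : ℂ, X₁ < w.re → ‖g w‖ ≤ C' * Real.exp (-w.re) := by
  have hm0 : (0 : ℝ) < m := by exact_mod_cast hm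
  -- boundedness
  obtain ⟨p, hp⟩ : ∃ p : ℝ, p = 2 / m := ⟨_, rfl⟩
  have hp0 : 0 < p := by rw [hp]; positivity
  have hle2 : ∀ w ∈ HP, ‖g w‖ ^ p ≤ C ^ p * s w ^ 2 := by
    intro w hw
    have hsw := hs.nonneg w hw
    calc ‖g w‖ ^ p ≤ (C * s w ^ m) ^ p := Real.rpow_le_rpow (norm_nonneg _) (hle w hw) hp0.le
      _ = C ^ p * s w ^ 2 := by
        rw [Real.mul_rpow hC.le (pow_nonneg hsw _), ← Real.rpow_natCast (s w) m, ← Real.rpow_mul hsw, hp]
        rw [mul_div_cancel₀ _ hm0.ne']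
        norm_cast
  have hbd : ∀ w : ℂ, 2 < w.re → ‖g w‖ ≤ (C ^ p * B / Real.pi) ^ (1 / p) := by
    intro w hw
    have hw0 : w ∈ HP := by change 0 < w.re; linarith
    have h1 := sml_area hs hg hp0 (Real.rpow_nonneg hC.le p) hle2 (w := w) (h := 1) one_pos (by linarith [Real.pi_gt_three]) (by linarith)
    have h2 : ‖g w‖ ^ p ≤ C ^ p * B / Real.pi := by
      rw [le_div_iff₀ Real.pi_pos]
      have h3 := mul_le_mul_of_nonneg_left (hB (w.re + 1)) (Real.rpow_nonneg hC.le p)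
      linarith
    calc ‖g w‖ = (‖g w‖ ^ p) ^ (1 / p) := by
          rw [← Real.rpow_mul (norm_nonneg _), mul_one_div_cancel hp0.ne', Real.rpow_one]
      _ ≤ _ := Real.rpow_le_rpow (Real.rpow_nonneg (norm_nonneg _) _) h2 (by positivity)
  obtain ⟨c, hc, C', X₁, h1⟩ := ext0_cusp (f := g) (X₀ := 2) (fun w hw => (hg w (by change 0 < w.re; linarith)).differentiableAt)
    (fun w hw => hper w (by change 0 < w.re; linarith)) hbd
  -- the limit is `0`
  have hc0 : c = 0 := by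
    by_contra hc0
    have hcn : 0 < ‖c‖ := norm_pos_iff.2 hc0
    have h2 : ∀ᶠ w in comap Complex.re atTop, ‖c‖ / 2 < ‖g w‖ := hc.norm.eventually (lt_mem_nhds (by linarith))
    rw [eventually_comap] at h2
    obtain ⟨X₂, hX₂⟩ := h2.exists_forall_of_atTop
    obtain ⟨κ, hκ⟩ : ∃ κ : ℝ, κ = min (‖c‖ / (2 * C)) 1 := ⟨_, rfl⟩
    have hκ0 : 0 < κ := by rw [hκ]; exact lt_min (by positivity) one_pos
    have hκs : ∀ w : ℂ, max X₂ 1 ≤ w.re → κ ≤ s w := by
      intro w hw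
      have hw1 : 1 ≤ w.re := (le_max_right _ _).trans hw
      have hw0 : w ∈ HP := by change 0 < w.re; linarith
      by_contra hlt
      rw [not_le] at hlt
      have h3 : s w ≤ 1 := hlt.le.trans (by rw [hκ]; exact min_le_right _ _)
      have h4 : s w ^ m ≤ s w := by
        calc s w ^ m ≤ s w ^ 1 := pow_le_pow_of_le_one (hs.nonneg w hw0) h3 hm
          _ = s w := pow_one _
      have h5 := hX₂ w.re ((le_max_left _ _).trans hw) w rfl
      have h6 := hle w hw0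
      have h7 : κ ≤ ‖c‖ / (2 * C) := by rw [hκ]; exact min_le_left _ _
      have h8 : ‖c‖ / 2 < C * (‖c‖ / (2 * C)) := by
        calc ‖c‖ / 2 < ‖g w‖ := h5
          _ ≤ C * s w ^ m := h6
          _ ≤ C * s w := mul_le_mul_of_nonneg_left h4 hC.le
          _ ≤ C * κ := mul_le_mul_of_nonneg_left hlt.le hC.le
          _ ≤ _ := mul_le_mul_of_nonneg_left h7 hC.le
      have h9 : C * (‖c‖ / (2 * C)) = ‖c‖ / 2 := by field_simp
      linarith
    obtain ⟨Y, hY⟩ : ∃ Y : ℝ, Y = max X₂ 1 := ⟨_, rfl⟩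
    have hY1 : 1 ≤ Y := by rw [hY]; exact le_max_right _ _
    obtain ⟨X, hX⟩ : ∃ X : ℝ, X = Y + (|B| + 1) / (2 * Real.pi * κ ^ 2) := ⟨_, rfl⟩
    have hXY : Y ≤ X := by
      rw [hX]
      have : 0 ≤ (|B| + 1) / (2 * Real.pi * κ ^ 2) := by positivity
      linarith
    have hmc : ContinuousOn (mn fun w => s w ^ 2) (Set.Ioi 0) := sml_continuousOn_mn (hs.cont.pow 2)
    have hmn0 : ∀ x, 0 ≤ mn (fun w => s w ^ 2) x := fun x =>
      intervalIntegral.integral_nonneg (by positivity) fun y _ => sq_nonneg _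
    have hmi : ∀ a b : ℝ, 1 ≤ a → a ≤ b → IntervalIntegrable (mn fun w => s w ^ 2) MeasureTheory.volume a b := by
      intro a b ha hab
      refine (hmc.mono ?_).intervalIntegrable
      intro x hx
      rw [Set.uIcc_of_le hab] at hx
      change 0 < x
      linarith [hx.1]
    have h3 : ∀ t ∈ Set.Icc Y X, 2 * Real.pi * κ ^ 2 ≤ mn (fun w => s w ^ 2) t := by
      intro t ht
      have ht0 : 0 < t := by linarith [ht.1]
      have hcy : Continuous fun y : ℝ => s (t + y * Complex.I) ^ 2 := by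
        refine (hs.cont.pow 2).comp_continuous (by fun_prop) fun y => ?_
        simpa [HP] using ht0
      have h4 : ∫ y in (0 : ℝ)..2 * Real.pi, κ ^ 2 ≤ mn (fun w => s w ^ 2) t := by
        refine intervalIntegral.integral_mono_on Real.two_pi_pos.le intervalIntegrable_const (hcy.intervalIntegrable _ _) fun y _ => ?_
        refine pow_le_pow_left₀ hκ0.le (hκs _ ?_) 2
        rw [← hY]
        simpa using ht.1
      rw [intervalIntegral.integral_const, smul_eq_mul, sub_zero] at h4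
      exact h4
    have h4 : (X - Y) * (2 * Real.pi * κ ^ 2) ≤ AA s X := by
      calc (X - Y) * (2 * Real.pi * κ ^ 2) = ∫ t in Y..X, 2 * Real.pi * κ ^ 2 := by
            rw [intervalIntegral.integral_const, smul_eq_mul]
        _ ≤ ∫ t in Y..X, mn (fun w => s w ^ 2) t := intervalIntegral.integral_mono_on hXY intervalIntegrable_const (hmi _ _ hY1 hXY) h3
        _ ≤ AA s X := by
          rw [AA, max_eq_left (hY1.trans hXY)]
          exact intervalIntegral.integral_mono_interval hY1 hXY le_rfl (Eventually.of_forall fun x => hmn0 x) (hmi _ _ le_rfl (hY1.trans hXY))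
    have h5 : (X - Y) * (2 * Real.pi * κ ^ 2) = |B| + 1 := by
      rw [hX, add_sub_cancel_left]
      have := Real.pi_pos
      field_simp
    have h6 := hB X
    have h7 := le_abs_self B
    linarith
  refine ⟨C', X₁, fun w hw => ?_⟩
  have h2 := h1 w hw
  rwa [hc0, sub_zero] at h2

/-- the speed decays -/
theorem ext0_speed (hP : Homog P) (hθ : Polar θ) (hm : ∀ k, 1 ≤ m k) (hF : HCurve P F) {B : ℝ} (hB : ∀ X, AA (sp F) X ≤ B) :
    ∃ A δ X₁ : ℝ, 0 < A ∧ 0 < δ ∧ 1 ≤ X₁ ∧ ∀ w : ℂ, X₁ ≤ w.re → sp F w ≤ A * Real.exp (-(δ * w.re)) := by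
  obtain ⟨c, hc, C, hC, hbd⟩ := theta_bd (P := P) hP hθ hm
  have h1 : ∀ k, ∃ C' X₁ : ℝ, ∀ w : ℂ, X₁ < w.re → ‖sth θ F k w‖ ≤ C' * Real.exp (-w.re) := by
    intro k
    exact ext0_decay (HCurve.speed hF) (fun w hw => sth_an hF k hw) (fun w hw => sth_periodic hF k hw) (hm k) hC
      (fun w hw => (hbd (F w) (hF.cone w hw) (deriv F w) (hF.deriv_mem hw)).1 k) hB
  choose C' X' h2 using h1
  obtain ⟨Cm, hCm⟩ : ∃ Cm : ℝ, ∀ k, C' k ≤ Cm := by
    obtain ⟨Cm, h3⟩ := (Set.finite_range C').bddAbove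
    exact ⟨Cm, fun k => h3 ⟨k, rfl⟩⟩
  obtain ⟨Xm, hXm⟩ : ∃ Xm : ℝ, ∀ k, X' k ≤ Xm := by
    obtain ⟨Xm, h3⟩ := (Set.finite_range X').bddAbove
    exact ⟨Xm, fun k => h3 ⟨k, rfl⟩⟩
  obtain ⟨Mx, hMx⟩ : ∃ Mx : ℕ, ∀ k, m k ≤ Mx := by
    obtain ⟨Mx, h3⟩ := (Set.finite_range m).bddAbove
    exact ⟨Mx, fun k => h3 ⟨k, rfl⟩⟩
  have hM1 : (0 : ℝ) < (Mx : ℝ) + 1 := by positivity
  refine ⟨max 1 (Cm / c), 1 / ((Mx : ℝ) + 1), max 1 (Xm + 1), lt_of_lt_of_le one_pos (le_max_left _ _), by positivity, le_max_left _ _, fun w hw => ?_⟩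
  have hw1 : 1 ≤ w.re := (le_max_left _ _).trans hw
  have hw0 : w ∈ HP := by change 0 < w.re; linarith
  have hA1 : 1 ≤ max 1 (Cm / c) := le_max_left _ _
  have hs0 := (HCurve.speed hF).nonneg w hw0
  by_cases hsp : deriv F w ∈ Submodule.span ℂ {F w}
  · have h3 : sp F w = 0 := by
      obtain ⟨a, ha⟩ := Submodule.mem_span_singleton.1 hsp
      have h4 : (fun p : Fin (N + 1) × Fin (N + 1) => F w p.1 * deriv F w p.2 - F w p.2 * deriv F w p.1) = 0 := by
        funext p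
        rw [← ha]
        simp only [Pi.smul_apply, smul_eq_mul, Pi.zero_apply]
        ring
      rw [sp, wl, h4, norm_zero, zero_div]
    rw [h3]
    positivity
  · obtain ⟨k, hk⟩ := (hbd (F w) (hF.cone w hw0) (deriv F w) (hF.deriv_mem hw0)).2 hsp
    have h3 : ‖sth θ F k w‖ ≤ C' k * Real.exp (-w.re) := h2 k w (by
      have := (le_max_right _ _).trans hw
      linarith [hXm k])
    have he := Real.exp_pos (-w.re)
    have h4 : sp F w ^ m k ≤ Cm / c * Real.exp (-w.re) := by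
      have h5 : c * sp F w ^ m k ≤ Cm * Real.exp (-w.re) := (hk.trans h3).trans (mul_le_mul_of_nonneg_right (hCm k) he.le)
      rw [div_mul_eq_mul_div, le_div_iff₀ hc, mul_comm]
      exact h5
    have h5 : sp F w ^ m k ≤ (max 1 (Cm / c) * Real.exp (-(1 / ((Mx : ℝ) + 1) * w.re))) ^ m k := by
      rw [mul_pow, ← Real.exp_nat_mul]
      refine h4.trans (mul_le_mul ?_ ?_ he.le (by positivity))
      · calc Cm / c ≤ max 1 (Cm / c) := le_max_right _ _
          _ = max 1 (Cm / c) ^ 1 := (pow_one _).symm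
          _ ≤ _ := pow_le_pow_right₀ hA1 (hm k)
      · rw [Real.exp_le_exp]
        have h6 : (m k : ℝ) ≤ (Mx : ℝ) + 1 := by
          have : (m k : ℝ) ≤ Mx := by exact_mod_cast hMx k
          linarith
        have h7 : (m k : ℝ) * (1 / ((Mx : ℝ) + 1) * w.re) ≤ w.re := by
          rw [← mul_assoc, mul_one_div, div_mul_eq_mul_div, div_le_iff₀ hM1, mul_comm w.re]
          exact mul_le_mul_of_nonneg_right h6 (by linarith)
        linarith
    exact le_of_pow_le_pow_left₀ (by have := hm k; omega) (by positivity) h5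

/-! ## the share of a coordinate -/

/-- the derivative of the share of a coordinate along a real curve -/
theorem ext0_share {f : ℝ → Fin (N + 1) → ℂ} {f' : Fin (N + 1) → ℂ} {t : ℝ} (hf : HasDerivAt f f' t) (h0 : f t ≠ 0) (a : Fin (N + 1)) :
    ∃ d, HasDerivAt (fun t => ‖f t a‖ ^ 2 / ∑ i, ‖f t i‖ ^ 2) d t ∧ |d| ≤ 2 * ((N : ℝ) + 1) * wl (f t) f' := by
  have h1 : ∀ i, HasDerivAt (fun t => ‖f t i‖ ^ 2) (2 * inner ℝ (f t i) (f' i)) t := fun i => (hasDerivAt_pi.1 hf i).norm_sq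
  have h2 : HasDerivAt (fun t => ∑ i, ‖f t i‖ ^ 2) (∑ i, 2 * inner ℝ (f t i) (f' i)) t := HasDerivAt.fun_sum fun i _ => h1 i
  obtain ⟨k, hk⟩ : ∃ k, f t k ≠ 0 := by
    by_contra hcon
    push Not at hcon
    exact h0 (funext hcon)
  obtain ⟨S, hS⟩ : ∃ S : ℝ, S = ∑ i, ‖f t i‖ ^ 2 := ⟨_, rfl⟩
  have hle : ∀ i, ‖f t i‖ ^ 2 ≤ S := fun i => by
    rw [hS]
    exact Finset.single_le_sum (f := fun i => ‖f t i‖ ^ 2) (fun j _ => sq_nonneg _) (Finset.mem_univ i)
  have hS0 : 0 < S := lt_of_lt_of_le (pow_pos (norm_pos_iff.2 hk) 2) (hle k)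
  have h3 := (h1 a).div h2 (by rw [← hS]; exact hS0.ne')
  refine ⟨_, h3, ?_⟩
  rw [← hS]
  have hwl : ∀ i, ‖f t i * f' a - f t a * f' i‖ ≤ wl (f t) f' * S := by
    intro i
    have h4 : ‖f t i * f' a - f t a * f' i‖ ≤ ‖fun p : Fin (N + 1) × Fin (N + 1) => f t p.1 * f' p.2 - f t p.2 * f' p.1‖ :=
      norm_le_pi_norm (fun p : Fin (N + 1) × Fin (N + 1) => f t p.1 * f' p.2 - f t p.2 * f' p.1) (i, a)
    have hn0 : 0 < ‖f t‖ := norm_pos_iff.2 h0
    have h5 : ‖fun p : Fin (N + 1) × Fin (N + 1) => f t p.1 * f' p.2 - f t p.2 * f' p.1‖ = wl (f t) f' * ‖f t‖ ^ 2 := by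
      rw [wl, div_mul_cancel₀ _ (by positivity)]
    have h6 : ‖f t‖ ^ 2 ≤ S := by
      have h7 : ‖f t‖ ≤ Real.sqrt S := by
        rw [pi_norm_le_iff_of_nonneg (Real.sqrt_nonneg _)]
        intro i
        exact Real.le_sqrt_of_sq_le (hle i)
      calc ‖f t‖ ^ 2 ≤ Real.sqrt S ^ 2 := pow_le_pow_left₀ (norm_nonneg _) h7 2
        _ = S := Real.sq_sqrt hS0.le
    have hw0 : 0 ≤ wl (f t) f' := by
      rw [wl]
      positivity
    rw [h5] at h4
    exact h4.trans (mul_le_mul_of_nonneg_left h6 hw0)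
  have hterm : ∀ i, |2 * inner ℝ (f t a) (f' a) * ‖f t i‖ ^ 2 - ‖f t a‖ ^ 2 * (2 * inner ℝ (f t i) (f' i))| ≤ 2 * (wl (f t) f' * S ^ 2) := by
    intro i
    have e1 : 2 * inner ℝ (f t a) (f' a) * ‖f t i‖ ^ 2 - ‖f t a‖ ^ 2 * (2 * inner ℝ (f t i) (f' i)) =
        2 * ((starRingEnd ℂ) (f t a) * (starRingEnd ℂ) (f t i) * (f t i * f' a - f t a * f' i)).re := by
      rw [Complex.inner, Complex.inner, Complex.sq_norm, Complex.sq_norm, Complex.normSq_apply, Complex.normSq_apply]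
      simp only [Complex.mul_re, Complex.mul_im, Complex.sub_re, Complex.sub_im, Complex.conj_re, Complex.conj_im]
      ring
    rw [e1, abs_mul, abs_two]
    refine mul_le_mul_of_nonneg_left ?_ two_pos.le
    refine (Complex.abs_re_le_norm _).trans ?_
    rw [norm_mul, norm_mul, RCLike.norm_conj, RCLike.norm_conj]
    have h4 : ‖f t a‖ * ‖f t i‖ ≤ S := by nlinarith [hle a, hle i, sq_nonneg (‖f t a‖ - ‖f t i‖)]
    calc ‖f t a‖ * ‖f t i‖ * ‖f t i * f' a - f t a * f' i‖ ≤ S * (wl (f t) f' * S) :=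
          mul_le_mul h4 (hwl i) (norm_nonneg _) hS0.le
      _ = wl (f t) f' * S ^ 2 := by ring
  have e2 : 2 * inner ℝ (f t a) (f' a) * S - ‖f t a‖ ^ 2 * ∑ i, 2 * inner ℝ (f t i) (f' i) =
      ∑ i, (2 * inner ℝ (f t a) (f' a) * ‖f t i‖ ^ 2 - ‖f t a‖ ^ 2 * (2 * inner ℝ (f t i) (f' i))) := by
    rw [hS, Finset.mul_sum, Finset.mul_sum, ← Finset.sum_sub_distrib]
  rw [e2, abs_div, abs_of_pos (pow_pos hS0 2), div_le_iff₀ (pow_pos hS0 2)]
  calc |∑ i, (2 * inner ℝ (f t a) (f' a) * ‖f t i‖ ^ 2 - ‖f t a‖ ^ 2 * (2 * inner ℝ (f t i) (f' i)))|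
      ≤ ∑ i, |2 * inner ℝ (f t a) (f' a) * ‖f t i‖ ^ 2 - ‖f t a‖ ^ 2 * (2 * inner ℝ (f t i) (f' i))| := Finset.abs_sum_le_sum_abs _ _
    _ ≤ ∑ _i : Fin (N + 1), 2 * (wl (f t) f' * S ^ 2) := Finset.sum_le_sum fun i _ => hterm i
    _ = 2 * ((N : ℝ) + 1) * wl (f t) f' * S ^ 2 := by
      rw [Finset.sum_const, Finset.card_univ, Fintype.card_fin, nsmul_eq_mul]
      push_cast
      ring

/-- an exponentially small derivative on a ray -/
theorem ext0_ray {φ : ℝ → ℝ} {t₀ A δ : ℝ} (hδ : 0 < δ) (hφ : ∀ t, t₀ ≤ t → ∃ d, HasDerivAt φ d t ∧ |d| ≤ A * Real.exp (-(δ * t))) {t : ℝ} (ht : t₀ ≤ t) :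
    φ t₀ - A / δ * Real.exp (-(δ * t₀)) ≤ φ t := by
  have hA : 0 ≤ A := by
    obtain ⟨d, -, hd⟩ := hφ t₀ le_rfl
    have := (abs_nonneg d).trans hd
    exact nonneg_of_mul_nonneg_left this (Real.exp_pos _)
  choose! φ' h1 h2 using hφ
  have h3 : ∀ t, t₀ ≤ t → HasDerivAt (fun t => φ t - A / δ * Real.exp (-(δ * t))) (φ' t + A * Real.exp (-(δ * t))) t := by
    intro t ht
    have h4 : HasDerivAt (fun t : ℝ => Real.exp (-(δ * t))) (Real.exp (-(δ * t)) * (-(δ * 1))) t := ((hasDerivAt_id t).const_mul δ).neg.exp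
    refine ((h1 t ht).sub (h4.const_mul (A / δ))).congr_deriv ?_
    field_simp
    ring
  have h5 : MonotoneOn (fun t => φ t - A / δ * Real.exp (-(δ * t))) (Set.Ici t₀) := by
    refine monotoneOn_of_hasDerivWithinAt_nonneg (convex_Ici t₀) (f' := fun t => φ' t + A * Real.exp (-(δ * t)))
      (fun t ht => (h3 t ht).continuousAt.continuousWithinAt) ?_ ?_
    · intro t ht
      rw [interior_Ici] at ht
      exact (h3 t ht.le).hasDerivWithinAt
    · intro t ht
      rw [interior_Ici] at ht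
      have := (abs_le.1 (h2 t ht.le)).1
      linarith
  have h6 := h5 (Set.mem_Ici.2 le_rfl) (Set.mem_Ici.2 ht) ht
  have h7 : 0 ≤ A / δ * Real.exp (-(δ * t)) := by positivity
  simp only at h6
  linarith

/-- the share of one coordinate is bounded below -/
theorem ext0_coord (hF : HCurve P F) {A δ X₁ : ℝ} (hA : 0 < A) (hδ : 0 < δ) (hX₁ : 1 ≤ X₁)
    (hsp : ∀ w : ℂ, X₁ ≤ w.re → sp F w ≤ A * Real.exp (-(δ * w.re))) :
    ∃ (a : Fin (N + 1)) (κ X₂ : ℝ), 0 < κ ∧ 1 ≤ X₂ ∧ ∀ w : ℂ, X₂ ≤ w.re → κ * ∑ i, ‖F w i‖ ^ 2 ≤ ‖F w a‖ ^ 2 := by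
  have hN : (0 : ℝ) < (N : ℝ) + 1 := by positivity
  have hF0 : ∀ w ∈ HP, F w ≠ 0 := fun w hw => (hF.cone w hw).1
  have hS0 : ∀ w ∈ HP, 0 < ∑ i, ‖F w i‖ ^ 2 := by
    intro w hw
    obtain ⟨k, hk⟩ : ∃ k, F w k ≠ 0 := by
      by_contra hcon
      push Not at hcon
      exact hF0 w hw (funext hcon)
    exact Finset.sum_pos' (fun i _ => sq_nonneg _) ⟨k, Finset.mem_univ k, pow_pos (norm_pos_iff.2 hk) 2⟩
  -- the derivative along lines
  have hline : ∀ (a : Fin (N + 1)) (w₀ u : ℂ) (t : ℝ), ‖u‖ = 1 → X₁ ≤ (w₀ + t * u).re →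
      ∃ d, HasDerivAt (fun t : ℝ => ‖F (w₀ + t * u) a‖ ^ 2 / ∑ i, ‖F (w₀ + t * u) i‖ ^ 2) d t ∧
        |d| ≤ 2 * ((N : ℝ) + 1) * A * Real.exp (-(δ * (w₀ + t * u).re)) := by
    intro a w₀ u t hu ht
    have hw : w₀ + t * u ∈ HP := by change 0 < (w₀ + t * u).re; linarith
    have h1 : HasDerivAt (fun t : ℝ => w₀ + t * u) u t := by
      have := ((Complex.ofRealCLM.hasDerivAt (x := t)).mul_const u).const_add w₀
      simpa using this
    have h2 : HasDerivAt (fun t : ℝ => F (w₀ + t * u)) (u • deriv F (w₀ + t * u)) t :=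
      (hF.an _ hw).differentiableAt.hasDerivAt.scomp t h1
    obtain ⟨d, h3, h4⟩ := ext0_share h2 (hF0 _ hw) a
    refine ⟨d, h3, h4.trans ?_⟩
    have h5 : wl (F (w₀ + t * u)) (u • deriv F (w₀ + t * u)) = sp F (w₀ + t * u) := by
      rw [sp, wl, wl]
      congr 1
      have h6 : (fun p : Fin (N + 1) × Fin (N + 1) => F (w₀ + t * u) p.1 * (u • deriv F (w₀ + t * u)) p.2 -
          F (w₀ + t * u) p.2 * (u • deriv F (w₀ + t * u)) p.1) =
          u • fun p : Fin (N + 1) × Fin (N + 1) => F (w₀ + t * u) p.1 * deriv F (w₀ + t * u) p.2 - F (w₀ + t * u) p.2 * deriv F (w₀ + t * u) p.1 := by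
        funext p
        simp only [Pi.smul_apply, smul_eq_mul]
        ring
      rw [h6, norm_smul, hu, one_mul]
    rw [h5, mul_assoc (2 * ((N : ℝ) + 1))]
    exact mul_le_mul_of_nonneg_left (hsp _ ht) (by positivity)
  -- the choice of the level
  obtain ⟨K, hK⟩ : ∃ K : ℝ, K = 2 * ((N : ℝ) + 1) * A := ⟨_, rfl⟩
  have hK0 : 0 < K := by rw [hK]; positivity
  obtain ⟨X₂, hX₂, hsm⟩ : ∃ X₂ : ℝ, X₁ ≤ X₂ ∧ (K / δ + K * (2 * Real.pi)) * Real.exp (-(δ * X₂)) ≤ 1 / (2 * ((N : ℝ) + 1)) := by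
    have h1 : Tendsto (fun x : ℝ => (K / δ + K * (2 * Real.pi)) * Real.exp (-(δ * x))) atTop (𝓝 0) := by
      have h2 : Tendsto (fun x : ℝ => Real.exp (-(δ * x))) atTop (𝓝 0) :=
        Real.tendsto_exp_atBot.comp (tendsto_neg_atTop_atBot.comp (tendsto_id.const_mul_atTop hδ))
      simpa using h2.const_mul (K / δ + K * (2 * Real.pi))
    obtain ⟨X₂, h3, h4⟩ := ((eventually_ge_atTop X₁).and (h1.eventually (gt_mem_nhds (show (0 : ℝ) < 1 / (2 * ((N : ℝ) + 1)) by positivity)))).exists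
    exact ⟨X₂, h3, h4.le⟩
  have hX₂0 : (X₂ : ℂ) ∈ HP := by
    change 0 < ((X₂ : ℂ)).re
    rw [Complex.ofReal_re]
    linarith
  -- the choice of the coordinate
  obtain ⟨a, ha⟩ : ∃ a, 1 / ((N : ℝ) + 1) ≤ ‖F X₂ a‖ ^ 2 / ∑ i, ‖F X₂ i‖ ^ 2 := by
    by_contra hcon
    push Not at hcon
    have h1 : ∑ a, ‖F X₂ a‖ ^ 2 / ∑ i, ‖F X₂ i‖ ^ 2 < ∑ _a : Fin (N + 1), 1 / ((N : ℝ) + 1) :=
      Finset.sum_lt_sum_of_nonempty Finset.univ_nonempty fun a _ => hcon a
    rw [← Finset.sum_div, div_self (hS0 _ hX₂0).ne', Finset.sum_const, Finset.card_univ, Fintype.card_fin, nsmul_eq_mul] at h1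
    push_cast at h1
    rw [mul_one_div_cancel hN.ne'] at h1
    exact lt_irrefl _ h1
  refine ⟨a, 1 / (2 * ((N : ℝ) + 1)), X₂, by positivity, hX₁.trans hX₂, fun w hw => ?_⟩
  obtain ⟨h, hh⟩ : ∃ h : ℂ → ℝ, h = fun w => ‖F w a‖ ^ 2 / ∑ i, ‖F w i‖ ^ 2 := ⟨_, rfl⟩
  have hw0 : w ∈ HP := by change 0 < w.re; linarith
  suffices hgoal : 1 / (2 * ((N : ℝ) + 1)) ≤ h w by
    rw [hh] at hgoal
    simp only at hgoal
    rwa [le_div_iff₀ (hS0 w hw0)] at hgoal
  -- reduction to one period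
  have hper : Function.Periodic (fun y : ℝ => h (w.re + y * Complex.I)) (2 * Real.pi) := by
    intro y
    have h2 : (w.re + (y + 2 * Real.pi : ℝ) * Complex.I : ℂ) = (w.re + y * Complex.I) + per := by
      rw [per]
      push_cast
      ring
    have h3 : (w.re + y * Complex.I : ℂ) ∈ HP := by
      change 0 < (w.re + y * Complex.I : ℂ).re
      simpa using lt_of_lt_of_le one_pos (hX₁.trans (hX₂.trans hw))
    simp only
    rw [h2, hh]
    simp only [hF.periodic _ h3]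
  obtain ⟨y, hy, hyw⟩ := hper.exists_mem_Ico₀ Real.two_pi_pos w.im
  rw [Complex.re_add_im] at hyw
  rw [hyw]
  -- the vertical segment
  have h1 : ‖h (X₂ + y * Complex.I) - h X₂‖ ≤ K * Real.exp (-(δ * X₂)) * (2 * Real.pi) := by
    have h2 : ∀ t ∈ Set.univ, ∃ d, HasDerivAt (fun t : ℝ => h (X₂ + t * Complex.I)) d t ∧ |d| ≤ K * Real.exp (-(δ * X₂)) := by
      intro t _
      obtain ⟨d, h3, h4⟩ := hline a X₂ Complex.I t Complex.norm_I (by simpa using hX₂)
      refine ⟨d, by rw [hh]; exact h3, ?_⟩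
      rw [hK]
      refine h4.trans (le_of_eq ?_)
      congr 3
      simp
    choose! d h3 h4 using h2
    have h5 := Convex.norm_image_sub_le_of_norm_hasDerivWithin_le (f := fun t : ℝ => h (X₂ + t * Complex.I)) (f' := d) (s := Set.univ) (x := 0) (y := y)
      (fun t ht => (h3 t ht).hasDerivWithinAt) (fun t ht => h4 t ht) convex_univ (Set.mem_univ _) (Set.mem_univ _)
    simp only [Complex.ofReal_zero, zero_mul, add_zero, sub_zero] at h5
    refine h5.trans (mul_le_mul_of_nonneg_left ?_ (by positivity))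
    rw [Real.norm_eq_abs, abs_of_nonneg hy.1]
    exact hy.2.le
  -- the horizontal ray
  have h2 : h (X₂ + y * Complex.I) - K / δ * Real.exp (-(δ * X₂)) ≤ h (w.re + y * Complex.I) := by
    have h3 := ext0_ray (φ := fun t : ℝ => h ((y * Complex.I) + t * (1 : ℂ))) (t₀ := X₂) (A := K) hδ (fun t ht => by
      obtain ⟨d, h3, h4⟩ := hline a (y * Complex.I) 1 t norm_one (by simpa using hX₂.trans ht)
      refine ⟨d, by rw [hh]; exact h3, ?_⟩
      rw [hK]
      refine h4.trans (le_of_eq ?_)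
      congr 3
      simp) hw
    simp only [mul_one] at h3
    rw [add_comm (X₂ : ℂ), add_comm ((w.re : ℝ) : ℂ)]
    exact h3
  have h3 : 1 / ((N : ℝ) + 1) ≤ h X₂ := by rw [hh]; exact ha
  have h4 : h X₂ - K * Real.exp (-(δ * X₂)) * (2 * Real.pi) ≤ h (X₂ + y * Complex.I) := by
    have := (abs_le.1 h1).1
    linarith
  have h5 : 1 / ((N : ℝ) + 1) = 1 / (2 * ((N : ℝ) + 1)) + 1 / (2 * ((N : ℝ) + 1)) := by field_simp; norm_num
  have h6 : (K / δ + K * (2 * Real.pi)) * Real.exp (-(δ * X₂)) = K / δ * Real.exp (-(δ * X₂)) + K * Real.exp (-(δ * X₂)) * (2 * Real.pi) := by ring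
  linarith

theorem ext0 (hP : Homog P) (hθ : Polar θ) (hm : ∀ k, 1 ≤ m k) (hF : HCurve P F) {B : ℝ} (hB : ∀ X, AA (sp F) X ≤ B) :
    ∃ (a : Fin (N + 1)) (L : Fin (N + 1) → ℂ), (∀ᶠ w in comap Complex.re atTop, F w a ≠ 0) ∧
      Tendsto (fun w => (F w a)⁻¹ • F w) (comap Complex.re atTop) (𝓝 L) := by
  obtain ⟨A, δ, X₁, hA, hδ, hX₁, h1⟩ := ext0_speed hP hθ hm hF hB
  obtain ⟨a, κ, X₂, hκ, hX₂, h2⟩ := ext0_coord hF hA hδ hX₁ h1
  have hne : ∀ w : ℂ, X₂ < w.re → F w a ≠ 0 := by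
    intro w hw h0
    have hw0 : w ∈ HP := by change 0 < w.re; linarith
    have h3 := h2 w hw.le
    rw [h0, norm_zero, zero_pow two_ne_zero] at h3
    refine (hF.cone w hw0).1 (funext fun i => ?_)
    have h4 : ∑ i, ‖F w i‖ ^ 2 ≤ 0 := nonpos_of_mul_nonpos_right h3 hκ
    have h5 : ‖F w i‖ ^ 2 ≤ 0 := (Finset.single_le_sum (f := fun i => ‖F w i‖ ^ 2) (fun j _ => sq_nonneg _) (Finset.mem_univ i)).trans h4
    have h6 : ‖F w i‖ = 0 := by
      have := sq_nonneg ‖F w i‖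
      exact pow_eq_zero_iff two_ne_zero |>.1 (le_antisymm h5 this)
    exact norm_eq_zero.1 h6
  have hlim : ∀ i, ∃ c : ℂ, Tendsto (fun w => (F w a)⁻¹ * F w i) (comap Complex.re atTop) (𝓝 c) := by
    intro i
    have g1 : ∀ w : ℂ, X₂ < w.re → DifferentiableAt ℂ (fun w => (F w a)⁻¹ * F w i) w := by
      intro w hw
      have hw0 : w ∈ HP := by change 0 < w.re; linarith
      have h3 := differentiableAt_pi.1 (hF.an w hw0).differentiableAt
      exact ((h3 a).inv (hne w hw)).mul (h3 i)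
    have g2 : ∀ w : ℂ, X₂ < w.re → (fun w => (F w a)⁻¹ * F w i) (w + per) = (fun w => (F w a)⁻¹ * F w i) w := by
      intro w hw
      have hw0 : w ∈ HP := by change 0 < w.re; linarith
      simp only [hF.periodic w hw0]
    have g3 : ∀ w : ℂ, X₂ < w.re → ‖(fun w => (F w a)⁻¹ * F w i) w‖ ≤ Real.sqrt (1 / κ) := by
      intro w hw
      have h3 : 0 < ‖F w a‖ := norm_pos_iff.2 (hne w hw)
      refine Real.le_sqrt_of_sq_le ?_
      simp only
      have h4 : κ * ‖F w i‖ ^ 2 ≤ ‖F w a‖ ^ 2 :=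
        (mul_le_mul_of_nonneg_left (Finset.single_le_sum (f := fun i => ‖F w i‖ ^ 2) (fun j _ => sq_nonneg _) (Finset.mem_univ i)) hκ.le).trans (h2 w hw.le)
      have h5 : 0 < ‖F w a‖ ^ 2 := by positivity
      rw [norm_mul, norm_inv, mul_pow, inv_pow, le_div_iff₀ hκ]
      calc (‖F w a‖ ^ 2)⁻¹ * ‖F w i‖ ^ 2 * κ = (κ * ‖F w i‖ ^ 2) / ‖F w a‖ ^ 2 := by ring
        _ ≤ 1 := (div_le_one h5).2 h4
    obtain ⟨c, hc, -⟩ := ext0_cusp g1 g2 g3
    exact ⟨c, hc⟩
  choose L hL using hlim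
  refine ⟨a, L, ?_, ?_⟩
  · filter_upwards [tendsto_comap.eventually (eventually_gt_atTop X₂)] with w hw
    exact hne w hw
  · rw [tendsto_pi_nhds]
    exact hL

end Pool.Agent.GA

end
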