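import Pool.Agent.H18.GGT.GA.HorC1
import Pool.Agent.H18.GGT.M60
import Pool.Agent.H18.GGT.M62
import Pool.Agent.H18.GGT.M63
import Pool.Agent.H18.GGT.M64
import Pool.Agent.H18.GGT.M65
import Pool.Agent.H18.GGT.M68

/-! The parts of this file: GA.HorC, GA.Hor, GA.Fin. -/

section

/-!
# GA HorC: a variation field in a chart (HorC1 and HorC2)
-/

set_option autoImplicit false

open MvPolynomial Topology Filter Metric
open Pool.Agent.GG

noncomputable section

namespace Pool.Agent.GA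

variable {N : ℕ} {ι : Type} {U : Set ℂ} {OO : Subalgebra ℂ (ℂ → ℂ)}

/-- HorC1 + HorC2 -/
theorem hor_chart (hO : IsSmallRing OO U) (G : ι → MvPolynomial (Ph N) ℂ) (I : Fin (N + 1) → ι) {x : ℂ → Fin (N + 1) → ℂ} {z₁ : ℂ}
    (hU : IsOpen U) (hz : z₁ ∈ U) (hx : AnalyticAt ℂ x z₁) (hG : ∀ l, ∃ g ∈ OO, ∀ᶠ w in 𝓝 z₁, eval (pt (x w) (deriv x w)) (G l) = g w)
    (hI : ¬ ∀ᶠ w in 𝓝 z₁, eval (pt (x w) (deriv x w)) (vdet G I) = 0)
    (hT : ∃ c, ∀ p : Polynomial OO, (∀ᶠ w in 𝓝 z₁, p.eval₂ (ev0 OO w) (x w c) = 0) → ∀ n, ∀ᶠ w in 𝓝 z₁, ev0 OO w (p.coeff n) = 0) :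
    ∃ᶠ w₀ in 𝓝 z₁, ∃ V : ℂ → Fin (N + 1) → ℂ, AnalyticAt ℂ V w₀ ∧ V w₀ ≠ 0 ∧ RelP OO x V w₀ := by
  obtain ⟨r, σ, s, Y, C, h⟩ := exists_Dual hO G I hz hx hG hI hT
  exact exists_of_Dual hO hU hz hx h

end Pool.Agent.GA

end
end

section

/-!
# GA Hor: horizontal variation fields near a point

If the coordinates of the curve are not all algebraic over the small functions, there is a variation field (not zero) which comes from a derivation over the
small functions (`hor_chart` in the chart `a`; `relP_chart` for the other charts).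
-/

set_option autoImplicit false

open MvPolynomial Topology Filter Metric
open Pool.Agent.H13.SM (conTan cone)
open Pool.Agent.H62.FC (Homog)
open Pool.Agent.GG

namespace Pool.Agent.GA

variable {N : ℕ} {P : Ideal (MvPolynomial (Fin (N + 1)) ℂ)} {J : ℕ} {m : Fin J → ℕ} {θ : ∀ k, SymSec P (m k)} {F : ℂ → Fin (N + 1) → ℂ}
  {U : Set ℂ} {OO : Subalgebra ℂ (ℂ → ℂ)}

theorem xb_an {w : ℂ} {b : Fin (N + 1)} (hF : AnalyticAt ℂ F w) (hb : F w b ≠ 0) : AnalyticAt ℂ (xb F b) w :=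
  ((analyticAt_pi_iff.mp hF b).inv hb).smul hF

/-- the derivative in a chart -/
theorem xb_deriv {w : ℂ} {b : Fin (N + 1)} (hF : AnalyticAt ℂ F w) (hb : F w b ≠ 0) :
    deriv (xb F b) w = (F w b)⁻¹ • (deriv F w + (-(deriv F w b / F w b)) • F w) := by
  have h1 : HasDerivAt (fun w => F w b) (deriv F w b) w := (hasDerivAt_pi.mp hF.differentiableAt.hasDerivAt) b
  have h2 := (h1.fun_inv hb).fun_smul hF.differentiableAt.hasDerivAt
  have h3 := h2.deriv
  unfold xb
  rw [h3]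
  funext i
  simp only [Pi.add_apply, Pi.smul_apply, smul_eq_mul]
  field_simp

theorem cone_smul_mem (hP : Homog P) {x : Fin (N + 1) → ℂ} (hx : x ∈ cone P) {c : ℂ} (hc : c ≠ 0) : c • x ∈ cone P :=
  ⟨smul_ne_zero hc hx.1, Pool.Agent.H13.SM.cone_smul hP hx.2 _⟩

theorem IsCurve.deriv_mem (hF : IsCurve P F U) {w : ℂ} (hw : w ∈ U) : deriv F w ∈ conTan P (F w) :=
  Chart_tan (hF.an w hw).differentiableAt (by filter_upwards [hF.isOpen.mem_nhds hw] with s hs using hF.mem s hs)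

/-- the curve in a chart, with the values of the symmetric differentials -/
theorem IsCurve.isTan (hP : Homog P) (hF : IsCurve P F U) {w : ℂ} (hw : w ∈ U) {b : Fin (N + 1)} (hb : F w b ≠ 0) :
    IsTan θ b (fun k => (θ k).toFun (F w) (deriv F w)) (xb F b w) (deriv (xb F b) w) := by
  have hA := hF.an w hw
  have hc := hF.mem w hw
  have hself : F w ∈ conTan P (F w) := fun Q hQ => Pool.Agent.H13.SM.euler hP hc.2 hQ
  have hd := hF.deriv_mem hw
  have hd2 : deriv F w + (-(deriv F w b / F w b)) • F w ∈ conTan P (F w) := Submodule.add_mem _ hd (Submodule.smul_mem _ _ hself)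
  have hev : ∀ᶠ s in 𝓝 w, F s b ≠ 0 := (analyticAt_pi_iff.mp hA b).continuousAt.eventually_ne hb
  refine ⟨cone_smul_mem hP hc (inv_ne_zero hb), by simp [xb, inv_mul_cancel₀ hb], ?_, ?_, fun k => ?_⟩
  · refine Chart_tan (xb_an hA hb).differentiableAt ?_
    filter_upwards [hev, hF.isOpen.mem_nhds hw] with s hs hsU
    exact cone_smul_mem hP (hF.mem s hsU) (inv_ne_zero hs)
  · rw [xb_deriv hA hb]
    simp only [Pi.add_apply, Pi.smul_apply, smul_eq_mul]
    field_simp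
    ring
  · rw [xb_deriv hA hb]
    show (θ k).toFun ((F w b)⁻¹ • F w) _ = _
    rw [(θ k).scale _ hc _ hd2 _ (inv_ne_zero hb), (θ k).add_smul _ hc _ hd]

/-- the values of the family on the curve do not depend on the chart -/
theorem IsCurve.gval (hP : Homog P) (f : Frame θ) (hF : IsCurve P F U) {w : ℂ} (hw : w ∈ U) {b : Fin (N + 1)} (hb : F w b ≠ 0)
    (l : (Unit ⊕ Unit) ⊕ (Fin f.q ⊕ Fin f.q) ⊕ Fin J) :
    eval (pt (xb F b w) (deriv (xb F b) w)) (gfam f b l) = gvals (fun k => (θ k).toFun (F w) (deriv F w)) f.q l :=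
  gval_of_isTan f (hF.isTan hP hw hb) l

/-- the values are small functions -/
theorem gvals_mem (f : Frame θ) (hs : ∀ k, (fun w => (θ k).toFun (F w) (deriv F w)) ∈ OO) (l : (Unit ⊕ Unit) ⊕ (Fin f.q ⊕ Fin f.q) ⊕ Fin J) :
    (fun w => gvals (fun k => (θ k).toFun (F w) (deriv F w)) f.q l) ∈ OO := by
  rcases l with (_ | _) | (j | j) | k
  · exact OO.one_mem
  · exact OO.zero_mem
  · exact OO.zero_mem
  · exact OO.zero_mem
  · exact hs k

private theorem hor_lhs_congr {G : MvPolynomial (Ph N) ℂ} {x x' V V' : ℂ → Fin (N + 1) → ℂ} {w : ℂ} (hx : x =ᶠ[𝓝 w] x') (hV : V =ᶠ[𝓝 w] V') :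
    lhs G x V w = lhs G x' V' w := by
  unfold lhs
  rw [hx.eq_of_nhds, hx.deriv_eq, hV.eq_of_nhds, hV.deriv_eq]

theorem hor (hP : Homog P) (hθ : Polar θ) (f : Frame θ) (hF : IsCurve P F U) (hO : IsSmallRing OO U)
    (hs : ∀ k, (fun w => (θ k).toFun (F w) (deriv F w)) ∈ OO) {a : Fin (N + 1)} (ha : ∃ w ∈ U, F w a ≠ 0)
    (hT : ∃ c, ∀ (d : ℕ) (A : Fin (d + 1) → ℂ → ℂ), (∀ i, A i ∈ OO) →
      (∀ w ∈ U, ∑ i, A i w * F w c ^ (i : ℕ) * F w a ^ (d - i) = 0) → ∀ i, ∀ w ∈ U, A i w = 0) :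
    ∃ w₀ ∈ U, F w₀ a ≠ 0 ∧ ∃ Z : ℂ → Fin (N + 1) × Fin (N + 1) → ℂ, IsVar f F Z w₀ ∧ RelX OO (xb F a) (Vb F Z a) w₀ ∧ Z w₀ ≠ 0 := by
  classical
  have hU := hF.isOpen
  have hFan : ∀ i, AnalyticOnNhd ℂ (fun w => F w i) U := fun i w hw => analyticAt_pi_iff.mp (hF.an w hw) i
  -- a point in the chart where the derivative is not zero
  obtain ⟨z₁, hz₁, ha₁, hd₁⟩ : ∃ z₁ ∈ U, F z₁ a ≠ 0 ∧ deriv F z₁ ∉ Submodule.span ℂ {F z₁} := by
    obtain ⟨w₂, hw₂, hd₂⟩ := hF.ne
    have hne : F w₂ ≠ 0 := (hF.mem w₂ hw₂).1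
    obtain ⟨i, hi⟩ := Function.ne_iff.1 hne
    have h1 : ∃ j, F w₂ i * deriv F w₂ j - F w₂ j * deriv F w₂ i ≠ 0 := by
      by_contra hcon
      push Not at hcon
      apply hd₂
      rw [Submodule.mem_span_singleton]
      refine ⟨deriv F w₂ i / F w₂ i, ?_⟩
      funext j
      have hi' : F w₂ i ≠ 0 := hi
      have h2 := hcon j
      simp only [Pi.smul_apply, smul_eq_mul]
      field_simp
      linear_combination -h2
    obtain ⟨j, hj⟩ := h1
    have hdan : ∀ i, AnalyticOnNhd ℂ (fun w => deriv F w i) U := fun i w hw => analyticAt_pi_iff.mp (hF.an w hw).deriv i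
    have hWan : AnalyticOnNhd ℂ (fun w => F w i * deriv F w j - F w j * deriv F w i) U :=
      ((hFan i).mul (hdan j)).sub ((hFan j).mul (hdan i))
    by_contra hcon
    push Not at hcon
    have h3 : ∀ w ∈ U, F w a * (F w i * deriv F w j - F w j * deriv F w i) = 0 := by
      intro w hw
      by_cases h : F w a = 0
      · rw [h, zero_mul]
      · have h4 := hcon w hw h
        obtain ⟨c, hc⟩ := Submodule.mem_span_singleton.1 h4
        have hci := congrFun hc i
        have hcj := congrFun hc j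
        simp only [Pi.smul_apply, smul_eq_mul] at hci hcj
        rw [← hci, ← hcj]
        ring
    obtain ⟨w₃, hw₃, ha₃⟩ := ha
    have h5 : ∀ᶠ w in 𝓝 w₃, F w i * deriv F w j - F w j * deriv F w i = 0 := by
      filter_upwards [(hFan a w₃ hw₃).continuousAt.eventually_ne ha₃, hU.mem_nhds hw₃] with w hw hwU
      exact (mul_eq_zero.1 (h3 w hwU)).resolve_left hw
    exact hj (hWan.eqOn_zero_of_preconnected_of_eventuallyEq_zero hF.conn hw₃ h5 hw₂)
  have hx := xb_an (hF.an z₁ hz₁) ha₁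
  have hTan := hF.isTan (θ := θ) hP hz₁ ha₁
  have hv : deriv (xb F a) z₁ ≠ 0 := by
    intro h0
    rw [xb_deriv (hF.an z₁ hz₁) ha₁, smul_eq_zero] at h0
    rcases h0 with h0 | h0
    · exact inv_ne_zero ha₁ h0
    · apply hd₁
      rw [Submodule.mem_span_singleton]
      refine ⟨deriv F z₁ a / F z₁ a, ?_⟩
      rw [neg_smul, ← sub_eq_add_neg, sub_eq_zero] at h0
      exact h0.symm
  obtain ⟨I, hI⟩ := exists_row hθ f hTan hv
  have hane : ∀ᶠ w in 𝓝 z₁, F w a ≠ 0 := (hFan a z₁ hz₁).continuousAt.eventually_ne ha₁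
  have hUz : ∀ᶠ w in 𝓝 z₁, w ∈ U := hU.mem_nhds hz₁
  have hG : ∀ l, ∃ g ∈ OO, ∀ᶠ w in 𝓝 z₁, eval (pt (xb F a w) (deriv (xb F a) w)) (gfam f a l) = g w := by
    intro l
    refine ⟨_, gvals_mem f hs l, ?_⟩
    filter_upwards [hane, hUz] with w hw hwU
    exact hF.gval hP f hwU hw l
  have hT' : ∃ c, ∀ p : Polynomial OO, (∀ᶠ w in 𝓝 z₁, p.eval₂ (ev0 OO w) (xb F a w c) = 0) → ∀ n, ∀ᶠ w in 𝓝 z₁, ev0 OO w (p.coeff n) = 0 := by
    obtain ⟨c, hc⟩ := hT
    refine ⟨c, fun p hp n => ?_⟩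
    by_cases hn : p.natDegree < n
    · rw [Polynomial.coeff_eq_zero_of_natDegree_lt hn]
      exact Eventually.of_forall fun w => map_zero _
    have hn' : n < p.natDegree + 1 := by omega
    have h1 : ∀ w ∈ U, ∑ i : Fin (p.natDegree + 1), (p.coeff i : ℂ → ℂ) w * F w c ^ (i : ℕ) * F w a ^ (p.natDegree - i) = 0 := by
      have han : AnalyticOnNhd ℂ (fun w => ∑ i : Fin (p.natDegree + 1), (p.coeff i : ℂ → ℂ) w * F w c ^ (i : ℕ) * F w a ^ (p.natDegree - i)) U := by
        intro w hw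
        refine Finset.analyticAt_fun_sum _ fun i _ => ?_
        exact (((hO.an _ (p.coeff i).2 w hw).mul ((hFan c w hw).pow _)).mul ((hFan a w hw).pow _))
      have h2 : ∀ᶠ w in 𝓝 z₁, ∑ i : Fin (p.natDegree + 1), (p.coeff i : ℂ → ℂ) w * F w c ^ (i : ℕ) * F w a ^ (p.natDegree - i) = 0 := by
        filter_upwards [hane, hp] with w hw hpw
        rw [Polynomial.eval₂_eq_sum_range, ← Fin.sum_univ_eq_sum_range (fun i => (ev0 OO w) (p.coeff i) * xb F a w c ^ i)] at hpw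
        have h3 : ∑ i : Fin (p.natDegree + 1), (p.coeff i : ℂ → ℂ) w * F w c ^ (i : ℕ) * F w a ^ (p.natDegree - i) =
            F w a ^ p.natDegree * ∑ i : Fin (p.natDegree + 1), (ev0 OO w) (p.coeff i) * xb F a w c ^ (i : ℕ) := by
          rw [Finset.mul_sum]
          refine Finset.sum_congr rfl fun i _ => ?_
          have h4 : (i : ℕ) ≤ p.natDegree := by omega
          have h5 : F w a ^ p.natDegree = F w a ^ (p.natDegree - i) * F w a ^ (i : ℕ) := by
            rw [← pow_add, Nat.sub_add_cancel h4]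
          have h6 : xb F a w c ^ (i : ℕ) * F w a ^ (i : ℕ) = F w c ^ (i : ℕ) := by
            rw [← mul_pow]
            congr 1
            simp only [xb, Pi.smul_apply, smul_eq_mul]
            field_simp
          rw [h5, ← h6]
          show (p.coeff i : ℂ → ℂ) w * _ * _ = _ * ((p.coeff i : ℂ → ℂ) w * _)
          ring
        rw [h3, hpw, mul_zero]
      exact fun w hw => han.eqOn_zero_of_preconnected_of_eventuallyEq_zero hF.conn hz₁ h2 hw
    have h2 := hc p.natDegree (fun i => (p.coeff i : ℂ → ℂ)) (fun i => (p.coeff i).2) h1 ⟨n, hn'⟩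
    filter_upwards [hUz] with w hw
    exact h2 w hw
  have hfr := hor_chart hO (gfam f a) I hU hz₁ hx hG (fun h => hI h.self_of_nhds) hT'
  obtain ⟨w₀, ⟨V, hVan, hV0, hRel⟩, ha₀, hU₀⟩ := (hfr.and_eventually (hane.and hUz)).exists
  have hxw := xb_an (hF.an w₀ hU₀) ha₀
  have hane₀ : ∀ᶠ w in 𝓝 w₀, F w a ≠ 0 := (hFan a w₀ hU₀).continuousAt.eventually_ne ha₀
  have hUw : ∀ᶠ w in 𝓝 w₀, w ∈ U := hU.mem_nhds hU₀
  have hVan' : ∀ᶠ w in 𝓝 w₀, AnalyticAt ℂ V w := hVan.eventually_analyticAt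
  -- the normalisation of the field
  have hVa : ∀ᶠ w in 𝓝 w₀, V w a = 0 := by
    have h1 := hRel.lhs (G := X (Sum.inl a)) (g := 1) OO.one_mem (by
      filter_upwards [hane₀] with w hw
      simp [pt, xb, inv_mul_cancel₀ hw])
    filter_upwards [h1] with w hw
    unfold lhs at hw
    rw [Finset.sum_eq_single (Sum.inl a)] at hw
    · simpa using hw
    · intro s _ hs
      simp [pderiv_X, Pi.single_eq_of_ne' hs]
    · simp
  refine ⟨w₀, hU₀, ha₀, fun w p => F w a ^ 2 * (xb F a w p.1 * V w p.2 - xb F a w p.2 * V w p.1), ?_, ?_, ?_⟩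
  · refine ⟨?_, ?_⟩
    · rw [analyticAt_pi_iff]
      intro p
      exact ((hFan a w₀ hU₀).pow 2).mul (((analyticAt_pi_iff.mp hxw p.1).mul (analyticAt_pi_iff.mp hVan p.2)).sub
        ((analyticAt_pi_iff.mp hxw p.2).mul (analyticAt_pi_iff.mp hVan p.1)))
    · have hall : ∀ᶠ w in 𝓝 w₀, ∀ (b : Fin (N + 1)) (l : (Unit ⊕ Unit) ⊕ (Fin f.q ⊕ Fin f.q) ⊕ Fin J), xb F a w b ≠ 0 →
          lhs (gfam f b l) (fun w => (xb F a w b)⁻¹ • xb F a w) (fun w => (xb F a w b)⁻¹ • V w - (V w b / xb F a w b ^ 2) • xb F a w) w = 0 := by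
        rw [Filter.eventually_all]
        intro b
        rw [Filter.eventually_all]
        intro l
        refine relP_chart hxw hVan hRel b (gvals_mem f hs l) ?_
        filter_upwards [hane₀.eventually_nhds, hUw] with w hw hwU hb
        have hwa := hw.self_of_nhds
        have hb' : F w b ≠ 0 := by
          intro h0
          apply hb
          simp [xb, h0]
        have h1 : (fun w => (xb F a w b)⁻¹ • xb F a w) =ᶠ[𝓝 w] xb F b := by
          filter_upwards [hw] with u hu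
          simp only [xb, Pi.smul_apply, smul_eq_mul, smul_smul]
          congr 1
          rw [mul_inv, inv_inv, mul_comm (F u a), mul_assoc, mul_inv_cancel₀ hu, mul_one]
        have h2 : (xb F a w b)⁻¹ • xb F a w = xb F b w := h1.eq_of_nhds
        rw [h1.deriv_eq, h2]
        exact hF.gval hP f hwU hb' l
      filter_upwards [hane₀.eventually_nhds, hUw, hall, hVan'] with w hw hwU hw2 hwV b hb
      have hwa := hw.self_of_nhds
      have hbx : xb F a w b ≠ 0 := by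
        simp only [xb, Pi.smul_apply, smul_eq_mul]
        exact mul_ne_zero (inv_ne_zero hwa) hb
      refine ⟨fun i j => ?_, fun l => ?_⟩
      · simp only [Vb, xb, Pi.smul_apply, smul_eq_mul]
        field_simp
        ring
      · rw [← hw2 b l hbx]
        apply hor_lhs_congr
        · filter_upwards [hw] with u hu
          simp only [xb, Pi.smul_apply, smul_eq_mul, smul_smul]
          congr 1
          rw [mul_inv, inv_inv, mul_comm (F u a), mul_assoc, mul_inv_cancel₀ hu, mul_one]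
        · have hbe : ∀ᶠ u in 𝓝 w, F u b ≠ 0 := (hFan b w hwU).continuousAt.eventually_ne hb
          filter_upwards [hw, hbe] with u hu hub
          funext j
          simp only [Vb, xb, Pi.smul_apply, Pi.sub_apply, smul_eq_mul]
          field_simp
  · have h1 := hRel.relX
    intro R hR
    filter_upwards [h1 R hR, hane₀, hVa] with w hw hwa hwV
    rw [← hw]
    refine Finset.sum_congr rfl fun b _ => ?_
    congr 1
    simp only [Vb, xb, Pi.smul_apply, smul_eq_mul, hwV]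
    field_simp
    ring
  · obtain ⟨j, hj⟩ := Function.ne_iff.1 hV0
    intro h0
    apply hj
    have h1 := congrFun h0 (a, j)
    have h2 := hVa.self_of_nhds
    simp only [xb, Pi.smul_apply, smul_eq_mul, h2, mul_zero, sub_zero, inv_mul_cancel₀ ha₀, one_mul, Pi.zero_apply] at h1
    exact (mul_eq_zero.1 h1).resolve_left (pow_ne_zero 2 ha₀)

end Pool.Agent.GA

end

section

/-!
# GA Fin: all curves lie in the hypersurface section of the order two curves

`main_HP`: in the half-plane.  `main_punct`: a holomorphic map of the punctured disc to the variety whose image does not lie in `R = 0` extends.  `main_entire`: nonconstant entire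
curves lie in `R = 0`.  `R` is any form which vanishes at the points with a vector satisfying the algebraic criterion (`GG.exists_R`).
-/

set_option autoImplicit false

open MvPolynomial Topology Filter Metric
open Pool.Agent.H13.SM (conTan cone)
open Pool.Agent.H17 (PN VanishesAt HolomorphicInto puncturedDisc)
open Pool.Agent.H17BP (vanishesAt_mk)
open Pool.Agent.H17EF (projVar)
open Pool.Agent.H62.FC (Homog)
open Pool.Agent.GG

namespace Pool.Agent.GA

variable {N : ℕ} {P : Ideal (MvPolynomial (Fin (N + 1)) ℂ)} {J : ℕ} {m : Fin J → ℕ} {θ : ∀ k, SymSec P (m k)}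

/-! ## levels -/

theorem AA_continuous {s : ℂ → ℝ} (hs : Speed s) : Continuous (AA s) := by
  have hm : ContinuousOn (mn fun w => s w ^ 2) (Set.Ioi 0) := sml_continuousOn_mn (hs.cont.pow 2)
  have hK : Continuous fun t : ℝ => mn (fun w => s w ^ 2) (max t 1) :=
    hm.comp_continuous (by fun_prop) fun t => Set.mem_Ioi.2 (lt_of_lt_of_le one_pos (le_max_right t 1))
  have h1 : ∀ X, AA s X = ∫ t in (1 : ℝ)..max X 1, mn (fun w => s w ^ 2) (max t 1) := by
    intro X
    unfold AA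
    refine intervalIntegral.integral_congr fun t ht => ?_
    rw [Set.uIcc_of_le (le_max_right _ _)] at ht
    show _ = mn _ (max t 1)
    rw [max_eq_left ht.1]
  have h2 : Continuous fun X : ℝ => ∫ t in (1 : ℝ)..X, mn (fun w => s w ^ 2) (max t 1) :=
    intervalIntegral.continuous_primitive (fun a b => hK.intervalIntegrable a b) 1
  have h3 : AA s = (fun X : ℝ => ∫ t in (1 : ℝ)..X, mn (fun w => s w ^ 2) (max t 1)) ∘ fun X => max X 1 := by
    funext X
    exact h1 X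
  rw [h3]
  exact h2.comp (by fun_prop)

theorem exists_lev {s : ℂ → ℝ} (hs : Speed s) (hA : ¬ ∃ B, ∀ X, AA s X ≤ B) : ∃ X : ℕ → ℝ, Lev s X := by
  have h1 : Tendsto (AA s) atTop atTop := by
    refine tendsto_atTop_atTop_of_monotone (sml_AA_mono hs) fun b => ?_
    by_contra hcon
    push Not at hcon
    exact hA ⟨b, fun X => (hcon X).le⟩
  obtain ⟨X, h2, h3, h4, h5⟩ := sel (AA_continuous hs) (sml_AA_mono hs) h1
  exact ⟨X, h2, h3, h4, h5⟩

/-! ## the half-plane -/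

private theorem Fin_ne {F : ℂ → Fin (N + 1) → ℂ} (hA : ¬ ∃ B, ∀ X, AA (sp F) X ≤ B) : ∃ w ∈ HP, deriv F w ∉ Submodule.span ℂ {F w} := by
  by_contra hcon
  push Not at hcon
  apply hA
  refine ⟨0, fun X => le_of_eq ?_⟩
  have h0 : ∀ w ∈ HP, sp F w = 0 := by
    intro w hw
    obtain ⟨r, hr⟩ := Submodule.mem_span_singleton.1 (hcon w hw)
    unfold sp wl
    rw [← hr]
    have h1 : (fun p : Fin (N + 1) × Fin (N + 1) => F w p.1 * (r • F w) p.2 - F w p.2 * (r • F w) p.1) = 0 := by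
      funext p
      simp only [Pi.smul_apply, smul_eq_mul, Pi.zero_apply]
      ring
    rw [h1, norm_zero, zero_div]
  unfold AA
  have h2 : ∫ t in (1 : ℝ)..max X 1, mn (fun w => sp F w ^ 2) t = ∫ t in (1 : ℝ)..max X 1, (0 : ℝ) := by
    refine intervalIntegral.integral_congr fun t ht => ?_
    rw [Set.uIcc_of_le (le_max_right _ _)] at ht
    show mn (fun w => sp F w ^ 2) t = 0
    have h3 := mn_congr (g := fun w => sp F w ^ 2) (h := fun _ => (0 : ℝ)) (t := t) (fun w hw => by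
      show sp F w ^ 2 = 0
      rw [h0 w hw]
      norm_num) (lt_of_lt_of_le one_pos ht.1)
    rw [h3, mn_const, mul_zero]
  rw [h2]
  simp

private theorem Fin_relX {OO : Subalgebra ℂ (ℂ → ℂ)} {x V V' : ℂ → Fin (N + 1) → ℂ} {w₀ : ℂ} (h : RelX OO x V w₀) {l : ℂ → ℂ}
    (hV : ∀ᶠ w in 𝓝 w₀, V' w = l w • V w) : RelX OO x V' w₀ := by
  intro R hR
  filter_upwards [h R hR, hV] with w h1 h2
  rw [h2]
  simp only [Pi.smul_apply, smul_eq_mul]
  calc ∑ b, evO OO x (pderiv b R) w * (l w * V w b) = l w * ∑ b, evO OO x (pderiv b R) w * V w b := by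
        rw [Finset.mul_sum]
        exact Finset.sum_congr rfl fun b _ => by ring
    _ = 0 := by rw [h1, mul_zero]

private theorem Fin_cone (hP : Homog P) {x : Fin (N + 1) → ℂ} (hx : ∀ Q ∈ P, eval x Q = 0) (c : ℂ) {Q : MvPolynomial (Fin (N + 1)) ℂ} (hQ : Q ∈ P) :
    eval (c • x) Q = 0 := by
  rw [← sum_homogeneousComponent Q, map_sum]
  refine Finset.sum_eq_zero fun n _ => ?_
  have h7 := Pool.Agent.H92.GT.Proj.aeval_scale (K := ℂ) (homogeneousComponent_isHomogeneous n Q) c x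
  rw [aeval_def, aeval_def] at h7
  have h8 : eval (c • x) (homogeneousComponent n Q) = c ^ n * eval x (homogeneousComponent n Q) := h7
  rw [h8, hx _ (hP Q hQ n), mul_zero]

theorem main_HP (hP : Homog P) (hθ : Polar θ) (hm : ∀ k, 1 ≤ m k) {R : MvPolynomial (Fin (N + 1)) ℂ} {e : ℕ} (hR : R.IsHomogeneous e)
    (hRz : ∀ (f : Frame θ) (a : Fin (N + 1)) (I : Fin (N + 1) → (Unit ⊕ Unit) ⊕ (Fin f.q ⊕ Fin f.q) ⊕ Fin J) (c : Fin J → ℂ) (x v : Fin (N + 1) → ℂ),
      IsTan θ a c x v → v ≠ 0 → Crit (gfam f a) I (pt x v) → eval x R = 0)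
    {F : ℂ → Fin (N + 1) → ℂ} (hF : HCurve P F) (hA : ¬ ∃ B, ∀ X, AA (sp F) X ≤ B) : ∀ w ∈ HP, eval (F w) R = 0 := by
  classical
  have hs := hF.speed
  obtain ⟨X, hX⟩ := exists_lev hs hA
  obtain ⟨f, hf⟩ := exists_homFr θ
  have hC : IsCurve P F HP := hF.isCurve (Fin_ne hA)
  have hO : IsSmallRing (OO hX) HP := isSmallRing_OO hX
  have hOp : ∀ g ∈ OO hX, ∀ w ∈ HP, g (w + per) = g w := fun g hg => (mem_OO.1 hg).periodic
  have h1 : (1 : ℂ) ∈ HP := by
    show (0 : ℝ) < (1 : ℂ).re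
    norm_num
  obtain ⟨a, ha⟩ : ∃ a, F 1 a ≠ 0 := by
    by_contra hcon
    push Not at hcon
    exact (hF.cone 1 h1).1 (funext hcon)
  have hT := not_algebraic hF.an (fun w hw => (hF.cone w hw).1) hF.periodic hX ⟨1, h1, ha⟩
  obtain ⟨w₀, hw₀, h₀, Z₀, hZ₀, hR₀, hne₀⟩ := hor hP hθ f hC hO (fun k => mem_OO.2 (sth_small hP hθ hm hF hX k)) ⟨1, h1, ha⟩ hT
  obtain ⟨Z₁, hZ₁, hZe⟩ := exists_cont hP hθ hm f hf hC (convex_halfSpace_re_gt 0) hw₀ hZ₀
  have hR₁ : RelX (OO hX) (xb F a) (Vb F Z₁ a) w₀ := Fin_relX (l := fun _ => 1) hR₀ (by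
    filter_upwards [hZe] with w hw
    rw [one_smul]
    unfold Vb
    rw [hw])
  have hne₁ : Z₁ w₀ ≠ 0 := by
    rw [hZe.self_of_nhds]
    exact hne₀
  obtain ⟨Z, q, hZ, hRZ, hZ0, hq⟩ := exists_eigVar hP hθ hm f hf hC hF.periodic hO hOp hw₀ h₀ hZ₁ hR₁ hne₁
  obtain ⟨α, hα, hα'⟩ := exists_alpha hP f hC hZ
  have hxc : ∀ w ∈ HP, ∀ b, F w b ≠ 0 → xb F b w ∈ cone P := by
    intro w hw b hb
    obtain ⟨h2, h3⟩ := hF.cone w hw
    refine ⟨smul_ne_zero (inv_ne_zero hb) h2, fun Q hQ => ?_⟩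
    exact Fin_cone hP h3 _ hQ
  -- the functions `exp (-m q w) α` are small
  have hsm : ∀ k, (fun w => Complex.exp (-(m k * q * w)) * α w k) ∈ OO hX := by
    intro k
    obtain ⟨C, hC'⟩ := alpha_deriv hP hθ hm f hf
    have hb := hC' HP F Z α hC hZ hα fun w hw b hb => (hα' w hw b hb).2.2
    have hmk : m k ∣ ∏ i, m i := Finset.dvd_prod_of_mem m (Finset.mem_univ k)
    have hpos : 0 < ∏ i, m i := Finset.prod_pos fun i _ => hm i
    refine mem_OO.2 (gro_comp (n := J) (A := fun w k => α w k ^ ((∏ i, m i) / m k)) (k := k) (q := -((∏ i, m i : ℕ) * q)) (e := (∏ i, m i) / m k)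
      hs hX (fun w hw => ?_) hb (fun w hw => ?_) (fun w hw => ?_) ?_ fun w hw => le_of_eq ?_)
    · refine analyticAt_pi_iff.2 fun i => ?_
      exact ((analyticAt_pi_iff.1 (hα w hw)) i).pow _
    · have h2 : AnalyticAt ℂ (fun w : ℂ => Complex.exp (-(m k * q * w))) w := by fun_prop
      exact h2.mul ((analyticAt_pi_iff.1 (hα w hw)) k)
    · exact alpha_per hC hF.periodic hα' hxc hq hw k
    · exact Nat.div_pos (Nat.le_of_dvd hpos hmk) (hm k)
    · show ‖Complex.exp (-(m k * q * w)) * α w k‖ ^ ((∏ i, m i) / m k) = _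
      rw [norm_mul, mul_pow, norm_pow]
      congr 1
      rw [← norm_pow, ← Complex.exp_nat_mul]
      congr 2
      have h3 : (((∏ i, m i) / m k : ℕ) : ℂ) * (m k : ℂ) = ((∏ i, m i : ℕ) : ℂ) := by
        rw [← Nat.cast_mul, Nat.div_mul_cancel hmk]
      calc (((∏ i, m i) / m k : ℕ) : ℂ) * -(m k * q * w) = -(((((∏ i, m i) / m k : ℕ) : ℂ) * (m k : ℂ)) * q * w) := by ring
        _ = -((∏ i, m i : ℕ) * q) * w := by rw [h3]; ring
  -- the criterion
  have hpt : ∀ w ∈ HP, F w a ≠ 0 → eval (F w) R = 0 := by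
    intro w₁ hw₁ h₁
    have hRw : RelX (OO hX) (xb F a) (Vb F Z a) w₁ := relX_transport hC hO (fun w hw => (hZ w hw).1) hw₀ h₀ hw₁ h₁ hRZ
    have hFa : AnalyticAt ℂ F w₁ := hF.an w₁ hw₁
    have hFaa : AnalyticAt ℂ (fun w => F w a) w₁ := (analyticAt_pi_iff.1 hFa) a
    have hx : AnalyticAt ℂ (xb F a) w₁ := by
      refine analyticAt_pi_iff.2 fun i => ?_
      exact (hFaa.inv h₁).mul ((analyticAt_pi_iff.1 hFa) i)
    have hV0 : AnalyticAt ℂ (Vb F Z a) w₁ := by
      refine analyticAt_pi_iff.2 fun i => ?_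
      exact ((analyticAt_pi_iff.1 (hZ w₁ hw₁).1) (a, i)).div (hFaa.pow 2) (pow_ne_zero _ h₁)
    have hev : ∀ᶠ w in 𝓝 w₁, w ∈ HP ∧ F w a ≠ 0 := ((isOpen_HP.eventually_mem hw₁)).and (hFaa.continuousAt.eventually_ne h₁)
    have hexp : AnalyticAt ℂ (fun w : ℂ => Complex.exp (-(q * w))) w₁ := by fun_prop
    have hV : AnalyticAt ℂ (fun w => Complex.exp (-(q * w)) • Vb F Z a w) w₁ := hexp.smul hV0
    have hZ1 : Z w₁ ≠ 0 := fun h => hZ0 (isVar_zero hP hθ hm f hf hC hZ hw₁ h w₀ hw₀)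
    have hVne : Vb F Z a w₁ ≠ 0 := by
      intro h
      apply hZ1
      have h2 := ((hZ w₁ hw₁).2.self_of_nhds a h₁).1
      funext p
      rw [show p = (p.1, p.2) from rfl, h2 p.1 p.2, h]
      simp
    have hVne' : (fun w => Complex.exp (-(q * w)) • Vb F Z a w) w₁ ≠ 0 := smul_ne_zero (Complex.exp_ne_zero _) hVne
    obtain ⟨I, c, hTan, hCrit⟩ := crit_point hθ f hO (a := a) (x := xb F a) (V := fun w => Complex.exp (-(q * w)) • Vb F Z a w) hw₁ hx hV
      (by
        filter_upwards [hev] with w hw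
        refine ⟨hxc w hw.1 a hw.2, ?_⟩
        show (F w a)⁻¹ * F w a = 1
        exact inv_mul_cancel₀ hw.2)
      (Fin_relX (l := fun w => Complex.exp (-(q * w))) hRw (Eventually.of_forall fun _ => rfl))
      (fun k => ⟨_, hsm k, by
        filter_upwards [hev] with w hw
        obtain ⟨h3, -, h4⟩ := hα' w hw.1 a hw.2
        rw [(θ k).smul _ (hxc w hw.1 a hw.2) _ h3, h4 k, ← Complex.exp_nat_mul]
        congr 2
        ring⟩) hVne'
    have h5 := hRz f a I c _ _ hTan hVne' hCrit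
    have h6 : F w₁ = F w₁ a • xb F a w₁ := by
      unfold xb
      rw [smul_smul, mul_inv_cancel₀ h₁, one_smul]
    have h7 := Pool.Agent.H92.GT.Proj.aeval_scale (K := ℂ) hR (F w₁ a) (xb F a w₁)
    rw [aeval_def, aeval_def] at h7
    have h8 : eval (F w₁ a • xb F a w₁) R = F w₁ a ^ e * eval (xb F a w₁) R := h7
    rw [h6, h8, h5, mul_zero]
  intro w hw
  refine Tr0.cancel (f := fun w => eval (F w) R) (g := fun _ => 0) (h := fun w => F w a) ?_ continuousOn_const
    (fun w hw => (analyticAt_pi_iff.1 (hF.an w hw)) a) ⟨1, h1, ha⟩ (fun w hw => ?_) w hw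
  · exact (MvPolynomial.continuous_eval R).comp_continuousOn fun w hw => (hF.an w hw).continuousAt.continuousWithinAt
  · by_cases h : F w a = 0
    · simp only [h, mul_zero]
    · simp only [hpt w hw h, zero_mul]

/-! ## the punctured disc and the plane -/

theorem main_punct (hP : Homog P) (hθ : Polar θ) (hm : ∀ k, 1 ≤ m k) {R : MvPolynomial (Fin (N + 1)) ℂ} {e : ℕ} (hR : R.IsHomogeneous e)
    (hRz : ∀ (f : Frame θ) (a : Fin (N + 1)) (I : Fin (N + 1) → (Unit ⊕ Unit) ⊕ (Fin f.q ⊕ Fin f.q) ⊕ Fin J) (c : Fin J → ℂ) (x v : Fin (N + 1) → ℂ),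
      IsTan θ a c x v → v ≠ 0 → Crit (gfam f a) I (pt x v) → eval x R = 0)
    {f : ℂ → PN N} (hf : HolomorphicInto f puncturedDisc) (hX : ∀ z ∈ puncturedDisc, f z ∈ projVar P) (hne : ∃ z ∈ puncturedDisc, ¬ VanishesAt R (f z)) :
    ∃ g : ℂ → PN N, HolomorphicInto g (ball 0 1) ∧ ∀ z ∈ puncturedDisc, g z = f z := by
  obtain ⟨F, hF, hFf⟩ := exists_HCurve hP hf hX
  by_cases hA : ∃ B, ∀ X, AA (sp F) X ≤ B
  · obtain ⟨B, hB⟩ := hA
    obtain ⟨a, L, ha, hL⟩ := ext0 hP hθ hm hF hB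
    exact extends_of_lim hf hFf ha hL
  · exfalso
    have h := main_HP hP hθ hm hR hRz hF hA
    obtain ⟨z, hz, hzR⟩ := hne
    apply hzR
    have h4 : (1 / 4 : ℂ) ∈ puncturedDisc := by
      refine ⟨?_, ?_⟩
      · rw [mem_ball_zero_iff]
        norm_num
      · norm_num
    refine Pool.Agent.H36.BP.vanish_identity (S := {R}) Pool.Agent.H36.BP.preconnected_puncturedDisc hf (by rintro _ rfl; exact ⟨e, hR⟩) (z₀ := 1 / 4) h4 ?_ z hz R rfl
    have h5 : ∀ᶠ u in 𝓝 (1 / 4 : ℂ), u ≠ 0 ∧ ‖u‖ < 1 / 2 := by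
      refine (continuousAt_id.eventually_ne (by norm_num)).and ?_
      exact continuous_norm.continuousAt.eventually_lt continuousAt_const (by norm_num)
    filter_upwards [h5] with u hu Q hQ
    rw [Set.mem_singleton_iff.1 hQ]
    have h6 : Complex.exp (-(-Complex.log (2 * u))) / 2 = u := by
      rw [neg_neg, Complex.exp_log (mul_ne_zero two_ne_zero hu.1)]
      ring
    have h7 : -Complex.log (2 * u) ∈ HP := by
      show 0 < (-Complex.log (2 * u)).re
      rw [Complex.neg_re, Complex.log_re]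
      have h8 : ‖2 * u‖ < 1 := by
        rw [norm_mul, Complex.norm_ofNat]
        linarith [hu.2]
      have h9 : 0 < ‖2 * u‖ := norm_pos_iff.2 (mul_ne_zero two_ne_zero hu.1)
      linarith [Real.log_neg h9 h8]
    obtain ⟨h10, h11⟩ := hFf _ h7
    rw [h6] at h11
    rw [h11, vanishesAt_mk hR]
    exact h _ h7

theorem main_entire (hP : Homog P) (hθ : Polar θ) (hm : ∀ k, 1 ≤ m k) {R : MvPolynomial (Fin (N + 1)) ℂ} {e : ℕ} (hR : R.IsHomogeneous e)
    (hRz : ∀ (f : Frame θ) (a : Fin (N + 1)) (I : Fin (N + 1) → (Unit ⊕ Unit) ⊕ (Fin f.q ⊕ Fin f.q) ⊕ Fin J) (c : Fin J → ℂ) (x v : Fin (N + 1) → ℂ),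
      IsTan θ a c x v → v ≠ 0 → Crit (gfam f a) I (pt x v) → eval x R = 0)
    {f : ℂ → PN N} (hf : HolomorphicInto f Set.univ) (hX : ∀ z, f z ∈ projVar P) (hne : ∃ z w, f z ≠ f w) (z : ℂ) : VanishesAt R (f z) :=
  entire_of_punctured hP hθ hm hR (fun _ hf hX hne => main_punct hP hθ hm hR hRz hf hX hne) hf hX hne z

end Pool.Agent.GA

end
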