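import Pool.Agent.H18.GGT.M25
import Pool.Agent.H18.GGT.M45
import Pool.Agent.H18.GGT.M52
import Pool.Agent.H18.GGT.M54
import Pool.Agent.H18.GGT.M62
import Pool.Agent.H18.GGT.M66

/-! The parts of this file: GQ.Nmh, GG.Hom, GQ.Fdc, GQ.Rel, GG.Use, GT.NoExt, H23.GU.Up. -/

section

/-!
# GQ Nmh: changes of charts in the phase space, homogenisation
-/

set_option autoImplicit false

open MvPolynomial Topology Filter Metric
open Pool.Agent.H13.SM (conTan cone)
open Pool.Agent.H17 (PN VanishesAt)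
open Pool.Agent.H17LG.Variety (FunField ratio PoleAtMost IsLogGeneralType)
open Pool.Agent.H23.Fano (Form PrimeDivisorOver)
open Pool.Agent.H62.FC (Homog)
open Pool.Agent.GG

noncomputable section

namespace Pool.Agent.GQ

variable {N : ℕ} {P : Ideal (MvPolynomial (Fin (N + 1)) ℂ)}

/-- The homogenisation of `g`: `x_a^M g (x / x_a, (x / x_a)')`, a polynomial for `M > 2 deg g`, divisible by `x_a`. -/
theorem exists_hom (a : Fin (N + 1)) (g : MvPolynomial (Ph N) ℂ) : ∃ (M : ℕ) (Q : MvPolynomial (Ph N) ℂ),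
    (∀ (A : Type) [Field A] [Algebra ℂ A] (w : Ph N → A), w (Sum.inl a) ≠ 0 → aeval w Q = w (Sum.inl a) ^ M * aeval (nm a w) g) ∧
      ∀ (A : Type) [Field A] [Algebra ℂ A] (w : Ph N → A), w (Sum.inl a) = 0 → aeval w Q = 0 := by
  induction g using MvPolynomial.induction_on with
  | C c =>
    refine ⟨1, X (Sum.inl a) * C c, fun A _ _ w _ => ?_, fun A _ _ w hw => ?_⟩
    · simp only [map_mul, aeval_X, aeval_C, pow_one]
    · rw [map_mul, aeval_X, hw, zero_mul]
  | add p q hp hq =>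
    obtain ⟨M₁, Q₁, h1, h1'⟩ := hp
    obtain ⟨M₂, Q₂, h2, h2'⟩ := hq
    refine ⟨M₁ + M₂, X (Sum.inl a) ^ M₂ * Q₁ + X (Sum.inl a) ^ M₁ * Q₂, fun A _ _ w hw => ?_, fun A _ _ w hw => ?_⟩
    · rw [map_add, map_mul, map_mul, map_pow, map_pow, aeval_X, h1 A w hw, h2 A w hw, map_add]
      ring
    · rw [map_add, map_mul, map_mul, h1' A w hw, h2' A w hw, mul_zero, mul_zero, add_zero]
  | mul_X p s hp =>
    obtain ⟨M, Q, h1, h1'⟩ := hp
    rcases s with b | b
    · refine ⟨M + 1, Q * X (Sum.inl b), fun A _ _ w hw => ?_, fun A _ _ w hw => ?_⟩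
      · have h2 : nm a w (Sum.inl b) = w (Sum.inl b) / w (Sum.inl a) := rfl
        rw [map_mul, map_mul, aeval_X, aeval_X, h1 A w hw, h2]
        field_simp
        ring
      · rw [map_mul, h1' A w hw, zero_mul]
    · refine ⟨M + 2, Q * (X (Sum.inr b) * X (Sum.inl a) - X (Sum.inl b) * X (Sum.inr a)), fun A _ _ w hw => ?_, fun A _ _ w hw => ?_⟩
      · have h2 : nm a w (Sum.inr b) = w (Sum.inr b) / w (Sum.inl a) - w (Sum.inl b) * w (Sum.inr a) / w (Sum.inl a) ^ 2 := rfl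
        rw [map_mul, map_mul, map_sub, map_mul, map_mul, aeval_X, aeval_X, aeval_X, aeval_X, aeval_X, h1 A w hw, h2]
        field_simp
        ring
      · rw [map_mul, h1' A w hw, zero_mul]

section Sol

variable [P.IsPrime] {L : Type} [Field L] [Algebra ℂ L] [Algebra (FunField P) L]

private theorem Nmh_ratio {n : ℕ} (hdim : ∃ z : Fin (n + 1) → FunField P, IsTranscendenceBasis ℂ z) {a b : Fin (N + 1)} (ha : X a ∉ P)
    (hb : X b ∉ P) : ratio P b a ≠ 0 ∧ ∀ i, ratio P i a / ratio P b a = ratio P i b := by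
  obtain ⟨x, hxa, -, h2, h3⟩ := Kd.exists_gen hdim ha
  have hxb : x b ≠ 0 := by
    intro h
    refine hb ((h2 1 (X b) (isHomogeneous_X _ _)).1 ?_)
    rw [aeval_X]
    exact h
  refine ⟨?_, fun i => ?_⟩
  · rw [h3]
    exact div_ne_zero hxb hxa
  · rw [h3, h3, h3]
    field_simp

private theorem Nmh_self {n : ℕ} (hdim : ∃ z : Fin (n + 1) → FunField P, IsTranscendenceBasis ℂ z) {a : Fin (N + 1)} (ha : X a ∉ P) :
    ratio P a a = 1 := by
  obtain ⟨x, hxa, -, -, h3⟩ := Kd.exists_gen hdim ha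
  rw [h3, div_self hxa]

theorem nm_ph {n : ℕ} (hdim : ∃ z : Fin (n + 1) → FunField P, IsTranscendenceBasis ℂ z) (u : Derivation ℂ L L) {a b : Fin (N + 1)} (ha : X a ∉ P)
    (hb : X b ∉ P) : nm b (ph P u a) = ph P u b := by
  obtain ⟨h1, h2⟩ := Nmh_ratio hdim ha hb
  have h0 : algebraMap (FunField P) L (ratio P b a) ≠ 0 := (map_ne_zero _).2 h1
  have h3 : ∀ i, algebraMap (FunField P) L (ratio P i b) = algebraMap (FunField P) L (ratio P i a) / algebraMap (FunField P) L (ratio P b a) := fun i => by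
    rw [← h2 i, map_div₀]
  funext s
  rcases s with i | i
  · show algebraMap (FunField P) L (ratio P i a) / algebraMap (FunField P) L (ratio P b a) = algebraMap (FunField P) L (ratio P i b)
    rw [h3]
  · show u (algebraMap (FunField P) L (ratio P i a)) / algebraMap (FunField P) L (ratio P b a) -
      algebraMap (FunField P) L (ratio P i a) * u (algebraMap (FunField P) L (ratio P b a)) / algebraMap (FunField P) L (ratio P b a) ^ 2 =
        u (algebraMap (FunField P) L (ratio P i b))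
    rw [h3, Derivation.leibniz_div]
    simp only [smul_eq_mul]
    field_simp

/-- `nm` is its own inverse -/
theorem nm_nm {A : Type} [Field A] {a b : Fin (N + 1)} {w : Ph N → A} (ha : w (Sum.inl a) = 1) (ha' : w (Sum.inr a) = 0) (hb : w (Sum.inl b) ≠ 0) :
    nm a (nm b w) = w := by
  funext s
  rcases s with i | i
  · show w (Sum.inl i) / w (Sum.inl b) / (w (Sum.inl a) / w (Sum.inl b)) = w (Sum.inl i)
    rw [ha]
    field_simp
  · show (w (Sum.inr i) / w (Sum.inl b) - w (Sum.inl i) * w (Sum.inr b) / w (Sum.inl b) ^ 2) / (w (Sum.inl a) / w (Sum.inl b)) -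
      w (Sum.inl i) / w (Sum.inl b) * (w (Sum.inr a) / w (Sum.inl b) - w (Sum.inl a) * w (Sum.inr b) / w (Sum.inl b) ^ 2) /
        (w (Sum.inl a) / w (Sum.inl b)) ^ 2 = w (Sum.inr i)
    rw [ha, ha']
    field_simp
    ring

/-- A point of the chart `x_a = 1` is a point of the chart `x_b = 1` (`exists_hom`, `nm_ph`). -/
theorem pt_nm [IsScalarTower ℂ (FunField P) L] {n : ℕ} (hdim : ∃ z : Fin (n + 1) → FunField P, IsTranscendenceBasis ℂ z) (u : Derivation ℂ L L) {a b : Fin (N + 1)} (ha : X a ∉ P)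
    (hb : X b ∉ P) {w : Ph N → ℂ} (hw : Pt (rel (ph P u a)) w) (h : w (Sum.inl b) ≠ 0) : Pt (rel (ph P u b)) (nm b w) := by
  intro g hg
  obtain ⟨M, Q, h1, -⟩ := exists_hom b g
  have h0 : ph P u a (Sum.inl b) ≠ 0 := (map_ne_zero (algebraMap (FunField P) L)).2 (Nmh_ratio hdim ha hb).1
  have h2 : Q ∈ rel (ph P u a) := by
    rw [mem_rel, h1 L _ h0, nm_ph hdim u ha hb, mem_rel.1 hg, mul_zero]
  have h3 := hw Q h2
  rw [← aeval_eq_eval, h1 ℂ w h, mul_eq_zero] at h3
  rw [← aeval_eq_eval]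
  exact h3.resolve_left (pow_ne_zero _ h)

/-- the coordinates `x_a = 1`, `v_a = 0` -/
theorem pt_one [IsScalarTower ℂ (FunField P) L] {n : ℕ} (hdim : ∃ z : Fin (n + 1) → FunField P, IsTranscendenceBasis ℂ z) (u : Derivation ℂ L L) {a : Fin (N + 1)} (ha : X a ∉ P)
    {w : Ph N → ℂ} (hw : Pt (rel (ph P u a)) w) : w (Sum.inl a) = 1 ∧ w (Sum.inr a) = 0 := by
  have h1 : (X (Sum.inl a) - 1 : MvPolynomial (Ph N) ℂ) ∈ rel (ph P u a) := by
    rw [mem_rel, map_sub, aeval_X, map_one]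
    show algebraMap (FunField P) L (ratio P a a) - 1 = 0
    rw [Nmh_self hdim ha, map_one, sub_self]
  have h2 : (X (Sum.inr a) : MvPolynomial (Ph N) ℂ) ∈ rel (ph P u a) := by
    rw [mem_rel, aeval_X]
    show u (algebraMap (FunField P) L (ratio P a a)) = 0
    rw [Nmh_self hdim ha, map_one, Derivation.map_one_eq_zero]
  have h3 := hw _ h1
  have h4 := hw _ h2
  rw [map_sub, eval_X, map_one, sub_eq_zero] at h3
  rw [eval_X] at h4
  exact ⟨h3, h4⟩

end Sol

end Pool.Agent.GQ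

end
end

section

/-!
# GG Hom: the affine part of the variety

PROOF.  `a` with `X a ∉ P`; `𝔓` = the kernel of `ℂ[x] → FunField P`, `x_b ↦ x_b / x_a` (`coordFun`, `ratio`; equivalently the `q` whose homogenisation `R = x_a^D q (x / x_a)`, `D = totalDegree`, is in `P`).  The `x_b / x_a` generate the function field, which has transcendence degree `n`: `n` of them are algebraically independent.
For `q ∉ 𝔓` the homogenisation `R` is homogeneous, `R ∉ P`, `R (x) = x_a^D q (x / x_a)`.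
-/

set_option autoImplicit false

open MvPolynomial Topology Filter Metric
open Pool.Agent.H17GT (coordFun)
open Pool.Agent.H17LG.Variety (FunField ratio)

namespace Pool.Agent.GG

variable {N : ℕ} {P : Ideal (MvPolynomial (Fin (N + 1)) ℂ)}

/-- the homogenisation of `q` with respect to `x_a` -/
private noncomputable def hmg (a : Fin (N + 1)) (q : MvPolynomial (Fin (N + 1)) ℂ) : MvPolynomial (Fin (N + 1)) ℂ :=
  ∑ d ∈ Finset.range (q.totalDegree + 1), X a ^ (q.totalDegree - d) * homogeneousComponent d q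

private theorem hmg_hom (a : Fin (N + 1)) (q : MvPolynomial (Fin (N + 1)) ℂ) : (hmg a q).IsHomogeneous q.totalDegree := by
  unfold hmg
  refine IsHomogeneous.sum _ _ _ fun d hd => ?_
  have h1 := (isHomogeneous_X_pow (R := ℂ) a (q.totalDegree - d)).mul (homogeneousComponent_isHomogeneous d q)
  rwa [Nat.sub_add_cancel (Nat.lt_succ_iff.1 (Finset.mem_range.1 hd))] at h1

/-- If the variety has positive dimension some coordinate is not zero on it. -/
theorem exists_X_notMem [P.IsPrime] {n : ℕ} (hn : 1 ≤ n) (hdim : ∃ z : Fin n → FunField P, IsTranscendenceBasis ℂ z) : ∃ a, X a ∉ P := by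
  by_contra h
  push Not at h
  obtain ⟨z, hz⟩ := hdim
  have h0 : ∀ i, coordFun P i = 0 := fun i => not_not.1 fun h1 => Pool.Agent.H17R.coordFun_ne_zero_iff.1 h1 (h i)
  have h1 : ∀ y : FunField P, y ∈ (⊥ : IntermediateField ℂ (FunField P)) := by
    intro y
    obtain ⟨y, hy⟩ := y
    have h2 : y ∈ (⊥ : IntermediateField ℂ (FractionRing (MvPolynomial (Fin (N + 1)) ℂ ⧸ P))) := by
      refine (IntermediateField.adjoin_le_iff.2 ?_) hy
      rintro w ⟨i, j, rfl⟩
      rw [h0 i, zero_div]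
      exact zero_mem _
    obtain ⟨c, hc⟩ := IntermediateField.mem_bot.1 h2
    exact IntermediateField.mem_bot.2 ⟨c, Subtype.ext hc⟩
  have h3 := hz.1.transcendental ⟨0, hn⟩
  obtain ⟨c, hc⟩ := IntermediateField.mem_bot.1 (h1 (z ⟨0, hn⟩))
  rw [← hc] at h3
  exact h3 (isAlgebraic_algebraMap c)

end Pool.Agent.GG

end

section

/-!
# GQ Fdc: a solution in one chart is a solution in all charts
-/

set_option autoImplicit false

open MvPolynomial Topology Filter Metric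
open Pool.Agent.H13.SM (conTan cone)
open Pool.Agent.H17 (PN VanishesAt)
open Pool.Agent.H17LG.Variety (FunField ratio PoleAtMost IsLogGeneralType)
open Pool.Agent.H23.Fano (Form PrimeDivisorOver)
open Pool.Agent.H62.FC (Homog)
open Pool.Agent.GG

noncomputable section

namespace Pool.Agent.GQ

variable {N : ℕ} {P : Ideal (MvPolynomial (Fin (N + 1)) ℂ)} {J : ℕ} {m : Fin J → ℕ} {θ : ∀ k, SymSec P (m k)}

/-- Nullstellensatz for the variety of `y` -/
theorem aeval_eq_zero_of_pt {τ : Type} [Finite τ] {L : Type} [Field L] [Algebra ℂ L] {y : τ → L} {g : MvPolynomial τ ℂ}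
    (h : ∀ w, Pt (rel y) w → eval w g = 0) : aeval y g = 0 := by
  have h1 : g ∈ rel y := by
    rw [← (rel_prime y).radical, ← vanishingIdeal_zeroLocus_eq_radical (K := ℂ) (rel y), mem_vanishingIdeal_iff]
    intro w hw
    rw [aeval_eq_eval]
    refine h w fun q hq => ?_
    have := hw q hq
    rwa [aeval_eq_eval] at this
  exact mem_rel.1 h1

section Sol

variable [P.IsPrime] {L : Type} [Field L] [Algebra ℂ L] [Algebra (FunField P) L]

private theorem Fdc_ratio {n : ℕ} (hdim : ∃ z : Fin (n + 1) → FunField P, IsTranscendenceBasis ℂ z) {a b : Fin (N + 1)} (ha : X a ∉ P)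
    (hb : X b ∉ P) : ratio P b a ≠ 0 := by
  obtain ⟨x, hxa, -, h2, h3⟩ := Kd.exists_gen hdim ha
  have hxb : x b ≠ 0 := by
    intro h
    refine hb ((h2 1 (X b) (isHomogeneous_X _ _)).1 ?_)
    rw [aeval_X]
    exact h
  rw [h3]
  exact div_ne_zero hxb hxa

/-- the points of the variety of `ph P u a` are tangent vectors -/
theorem pt_tan [IsScalarTower ℂ (FunField P) L] (hP : Homog P) {n : ℕ} (hdim : ∃ z : Fin (n + 1) → FunField P, IsTranscendenceBasis ℂ z)
    (u : Derivation ℂ L L) {a : Fin (N + 1)} (ha : X a ∉ P) {w : Ph N → ℂ} (hw : Pt (rel (ph P u a)) w) :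
    (fun i => w (Sum.inl i)) ∈ cone P ∧ (fun i => w (Sum.inr i)) ∈ conTan P fun i => w (Sum.inl i) := by
  obtain ⟨y, hy⟩ : ∃ y : Fin (N + 1) → L, y = fun i => algebraMap (FunField P) L (ratio P i a) := ⟨_, rfl⟩
  have hq : ∀ q ∈ P, aeval y q = 0 := fun q hq => by
    have h1 : aeval (algebraMap (FunField P) L ∘ Kd.ya P a) q = algebraMap (FunField P) L (aeval (Kd.ya P a) q) := aeval_algebraMap_apply _ _ _
    rw [Kd.aeval_ya_mem hP hdim ha hq, map_zero] at h1
    rw [hy]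
    exact h1
  have hinl : ∀ q : MvPolynomial (Fin (N + 1)) ℂ, aeval (ph P u a) (rename Sum.inl q) = aeval y q := fun q => by
    rw [aeval_rename, hy]
    rfl
  have hinl' : ∀ q : MvPolynomial (Fin (N + 1)) ℂ, eval w (rename Sum.inl q) = eval (fun i => w (Sum.inl i)) q := fun q => by
    rw [eval_rename]
    rfl
  have hone := pt_one hdim u ha hw
  refine ⟨⟨fun h => ?_, fun q hqP => ?_⟩, fun q hqP => ?_⟩
  · have h1 : w (Sum.inl a) = 0 := congrFun h a
    rw [hone.1] at h1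
    exact one_ne_zero h1
  · rw [← hinl']
    exact hw _ (mem_rel.2 (by rw [hinl, hq q hqP]))
  · have h1 : ∑ j, rename Sum.inl (pderiv j q) * X (Sum.inr j) ∈ rel (ph P u a) := by
      rw [mem_rel, map_sum]
      have h2 := Kd.der_aeval u y q
      rw [hq q hqP, map_zero] at h2
      rw [h2]
      refine Finset.sum_congr rfl fun j _ => ?_
      rw [map_mul, hinl, aeval_X, hy]
      rfl
    have h2 := hw _ h1
    rw [map_sum] at h2
    rw [← h2]
    refine Finset.sum_congr rfl fun j _ => ?_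
    rw [map_mul, hinl', eval_X]
    ring

/-- the differentials have the same values in all charts -/
theorem aeval_A_eq [IsScalarTower ℂ (FunField P) L] (hP : Homog P) {n : ℕ} (hdim : ∃ z : Fin (n + 1) → FunField P, IsTranscendenceBasis ℂ z)
    (f : Frame θ) {a b : Fin (N + 1)} (ha : X a ∉ P) (hb : X b ∉ P) (u : Derivation ℂ L L) (k : Fin J) :
    aeval (ph P u b) (f.A b k) = aeval (ph P u a) (f.A a k) := by
  obtain ⟨M, Q, hQ, -⟩ := exists_hom b (f.A b k)
  have hyb : ph P u a (Sum.inl b) ≠ 0 := by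
    intro h
    have h1 : algebraMap (FunField P) L (ratio P b a) = 0 := h
    exact Fdc_ratio hdim ha hb ((map_eq_zero _).1 h1)
  have h1 : aeval (ph P u a) (X (Sum.inl b) * Q - X (Sum.inl b) ^ (M + 1) * f.A a k) = 0 := by
    refine aeval_eq_zero_of_pt fun w hw => ?_
    obtain ⟨hx, hv⟩ := pt_tan hP hdim u ha hw
    have hone := pt_one hdim u ha hw
    rw [map_sub, map_mul, map_mul, map_pow, eval_X]
    by_cases h0 : w (Sum.inl b) = 0
    · rw [h0]
      simp
    · have h2 := hQ ℂ w h0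
      rw [aeval_eq_eval, aeval_eq_eval] at h2
      have h3 : nm b w = pt ((w (Sum.inl b))⁻¹ • fun i => w (Sum.inl i)) (cst_nv (fun i => w (Sum.inl i)) (fun i => w (Sum.inr i)) b) := by
        funext s
        rcases s with c | c
        · simp only [nm, pt, Sum.elim_inl, Pi.smul_apply, smul_eq_mul]
          rw [div_eq_inv_mul]
        · simp only [nm, pt, cst_nv, Sum.elim_inr, Pi.smul_apply, Pi.add_apply, smul_eq_mul]
          field_simp
          ring
      have h4 := f.hA b k _ (Pool.Agent.AD.G.cone_smulC hP hx (inv_ne_zero h0)) (by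
        simp only [Pi.smul_apply, smul_eq_mul]
        exact inv_mul_cancel₀ h0) _ (SymSec.cst_nv_mem hP hx hv h0)
      have h5 := (θ k).cst_val hP hx hv h0
      have h6 := f.hA a k _ hx hone.1 _ hv
      have h7 : pt (fun i => w (Sum.inl i)) (fun i => w (Sum.inr i)) = w := by
        funext s
        rcases s with c | c <;> rfl
      rw [h7] at h6
      rw [h2, h3, ← h4, ← h5, h6]
      ring
  rw [map_sub, map_mul, map_mul, map_pow, aeval_X, hQ L _ hyb, nm_ph hdim u ha hb] at h1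
  have h2 : ph P u a (Sum.inl b) ^ (M + 1) * (aeval (ph P u b) (f.A b k) - aeval (ph P u a) (f.A a k)) = 0 := by
    rw [← h1]
    ring
  exact sub_eq_zero.1 ((mul_eq_zero.1 h2).resolve_left (pow_ne_zero _ hyb))

/-- The other charts. -/
theorem isSol_of_chart [IsScalarTower ℂ (FunField P) L] (hP : Homog P) {n : ℕ} (hdim : ∃ z : Fin (n + 1) → FunField P, IsTranscendenceBasis ℂ z)
    (f : Frame θ) {a : Fin (N + 1)} (ha : X a ∉ P) (u : Derivation ℂ L L) (halg : Algebra.IsAlgebraic (FunField P) L)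
    (hgen : IntermediateField.adjoin ℂ (Set.range (ph P u a)) = ⊤) (hA : ∀ k, u (aeval (ph P u a) (f.A a k)) = 0) : IsSol f u := by
  refine ⟨halg, fun b hb => ?_, fun b hb k => ?_⟩
  · rw [← top_le_iff, ← hgen, IntermediateField.adjoin_le_iff]
    have hmem : ∀ s, ph P u b s ∈ IntermediateField.adjoin ℂ (Set.range (ph P u b)) := fun s => IntermediateField.subset_adjoin _ _ ⟨s, rfl⟩
    rintro _ ⟨s, rfl⟩
    rw [SetLike.mem_coe, ← nm_ph hdim u hb ha]
    rcases s with c | c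
    · exact div_mem (hmem _) (hmem _)
    · exact sub_mem (div_mem (hmem _) (hmem _)) (div_mem (mul_mem (hmem _) (hmem _)) (pow_mem (hmem _) 2))
  · rw [aeval_A_eq hP hdim f ha hb u k, hA]

end Sol

end Pool.Agent.GQ

end
end

section

/-!
# GQ Rel: the vector field of the arcs is the derivation of the solution

PROOF of `aeval_Dt`.  `y = ph P u b`.  All functions of the family are constants for `u` (`Rel_gfam`): `x_b = 1`, `v_b = 0`, `Q_j (x) = 0`,
`dQ_j (x) v = u (Q_j (x)) = 0`, and the symmetric differentials.  So `∑_c ∂G_l/∂v_c u (v_c) = - ∑_c ∂G_l/∂x_c v_c`, and Cramer's rule for the rows `I` gives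
`fld_s (y) = vdet (y) u (y_s)` (`Rel_fld`).  Both sides of `aeval_Dt` are derivations in `g`.
-/

set_option autoImplicit false

open MvPolynomial Topology Filter Metric
open Pool.Agent.H13.SM (conTan cone)
open Pool.Agent.H17 (PN VanishesAt)
open Pool.Agent.H17LG.Variety (FunField ratio PoleAtMost IsLogGeneralType)
open Pool.Agent.H23.Fano (Form PrimeDivisorOver)
open Pool.Agent.H62.FC (Homog)
open Pool.Agent.GG

noncomputable section

namespace Pool.Agent.GQ

variable {N : ℕ} {P : Ideal (MvPolynomial (Fin (N + 1)) ℂ)} {J : ℕ} {m : Fin J → ℕ} {θ : ∀ k, SymSec P (m k)}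

/-- the chain rule for a derivation -/
private theorem Rel_chain {K τ : Type} [Fintype τ] [Field K] [Algebra ℂ K] (D : Derivation ℂ K K) (y : τ → K) (G : MvPolynomial τ ℂ) :
    D (aeval y G) = ∑ s, aeval y (pderiv s G) * D (y s) := by
  classical
  induction G using MvPolynomial.induction_on with
  | C c => simp
  | add p q hp hq =>
    rw [map_add, map_add, hp, hq, ← Finset.sum_add_distrib]
    refine Finset.sum_congr rfl fun l _ => ?_
    rw [map_add, map_add, add_mul]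
  | mul_X p i hp =>
    rw [map_mul, aeval_X, Derivation.leibniz, hp]
    have h1 : ∀ l, aeval y (pderiv l (p * X i)) * D (y l) =
        y i * (aeval y (pderiv l p) * D (y l)) + aeval y p * (aeval y (pderiv l (X i : MvPolynomial τ ℂ)) * D (y l)) := by
      intro l
      rw [Derivation.leibniz, map_add, smul_eq_mul, smul_eq_mul, map_mul, map_mul, aeval_X]
      ring
    simp only [h1, Finset.sum_add_distrib, ← Finset.mul_sum]
    rw [Finset.sum_eq_single (s := Finset.univ) (f := fun l => aeval y (pderiv l (X i : MvPolynomial τ ℂ)) * D (y l)) i]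
    · rw [pderiv_X_self, map_one, one_mul, smul_eq_mul, smul_eq_mul]
      exact add_comm _ _
    · intro j _ hj
      rw [pderiv_X_of_ne (Ne.symm hj), map_zero, zero_mul]
    · intro h
      exact absurd (Finset.mem_univ i) h

section Sol

variable [P.IsPrime] {L : Type} [Field L] [Algebra ℂ L] [Algebra (FunField P) L]

private theorem Rel_self {n : ℕ} (hdim : ∃ z : Fin (n + 1) → FunField P, IsTranscendenceBasis ℂ z) {a : Fin (N + 1)} (ha : X a ∉ P) :
    ratio P a a = 1 := by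
  obtain ⟨x, hxa, -, -, h3⟩ := Kd.exists_gen hdim ha
  rw [h3, div_self hxa]

/-- the functions of the family are constants -/
theorem Rel_gfam [IsScalarTower ℂ (FunField P) L] (hP : Homog P) {n : ℕ} (hdim : ∃ z : Fin (n + 1) → FunField P, IsTranscendenceBasis ℂ z) {f : Frame θ} {u : Derivation ℂ L L}
    (hs : IsSol f u) {b : Fin (N + 1)} (hb : X b ∉ P) (l : (Unit ⊕ Unit) ⊕ (Fin f.q ⊕ Fin f.q) ⊕ Fin J) :
    u (aeval (ph P u b) (gfam f b l)) = 0 := by
  obtain ⟨y, hy⟩ : ∃ y : Fin (N + 1) → L, y = fun i => algebraMap (FunField P) L (ratio P i b) := ⟨_, rfl⟩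
  have hq : ∀ q ∈ P, aeval y q = 0 := fun q hq => by
    have h1 : aeval (algebraMap (FunField P) L ∘ Kd.ya P b) q = algebraMap (FunField P) L (aeval (Kd.ya P b) q) := aeval_algebraMap_apply _ _ _
    rw [Kd.aeval_ya_mem hP hdim hb hq, map_zero] at h1
    rw [hy]
    exact h1
  have hinl : ∀ q : MvPolynomial (Fin (N + 1)) ℂ, aeval (ph P u b) (rename Sum.inl q) = aeval y q := fun q => by
    rw [aeval_rename, hy]
    rfl
  have hQ : ∀ j, f.Q j ∈ P := fun j => by
    have h1 : f.Q j ∈ Ideal.span (Set.range f.Q) := Ideal.subset_span ⟨j, rfl⟩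
    rwa [f.span] at h1
  have hone : algebraMap (FunField P) L (ratio P b b) = 1 := by rw [Rel_self hdim hb, map_one]
  rcases l with (_ | _) | ((j | j) | k)
  · show u (aeval (ph P u b) (X (Sum.inl b))) = 0
    rw [aeval_X]
    show u (algebraMap (FunField P) L (ratio P b b)) = 0
    rw [hone, Derivation.map_one_eq_zero]
  · show u (aeval (ph P u b) (X (Sum.inr b))) = 0
    rw [aeval_X]
    show u (u (algebraMap (FunField P) L (ratio P b b))) = 0
    rw [hone, Derivation.map_one_eq_zero, map_zero]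
  · show u (aeval (ph P u b) (rename Sum.inl (f.Q j))) = 0
    rw [hinl, hq _ (hQ j), map_zero]
  · show u (aeval (ph P u b) (∑ c, rename Sum.inl (pderiv c (f.Q j)) * X (Sum.inr c))) = 0
    have h2 := Kd.der_aeval u y (f.Q j)
    rw [hq _ (hQ j), map_zero] at h2
    have h3 : aeval (ph P u b) (∑ c, rename Sum.inl (pderiv c (f.Q j)) * X (Sum.inr c)) = 0 := by
      rw [map_sum, h2]
      refine Finset.sum_congr rfl fun c _ => ?_
      rw [map_mul, hinl, aeval_X, hy]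
      rfl
    rw [h3, map_zero]
  · exact hs.const b hb k

/-- the vector field at the generic point -/
theorem Rel_fld [IsScalarTower ℂ (FunField P) L] (hP : Homog P) {n : ℕ} (hdim : ∃ z : Fin (n + 1) → FunField P, IsTranscendenceBasis ℂ z) {f : Frame θ} {u : Derivation ℂ L L}
    (hs : IsSol f u) {b : Fin (N + 1)} (hb : X b ∉ P) (I : Fin (N + 1) → (Unit ⊕ Unit) ⊕ (Fin f.q ⊕ Fin f.q) ⊕ Fin J) (s : Ph N) :
    aeval (ph P u b) (fld (gfam f b) I s) = aeval (ph P u b) (vdet (gfam f b) I) * u (ph P u b s) := by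
  obtain ⟨A, hA⟩ : ∃ A : Matrix (Fin (N + 1)) (Fin (N + 1)) L, A = (vmat (gfam f b) I).map (aeval (ph P u b)) := ⟨_, rfl⟩
  have hdet : A.det = aeval (ph P u b) (vdet (gfam f b) I) := by
    rw [hA, vdet]
    exact ((aeval (ph P u b) : MvPolynomial (Ph N) ℂ →ₐ[ℂ] L).toRingHom.map_det _).symm
  have hrow : A.mulVec (fun c => u (ph P u b (Sum.inr c))) = fun l => aeval (ph P u b) (rhs (gfam f b) I l) := by
    funext l
    have h1 := Rel_chain u (ph P u b) (gfam f b (I l))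
    rw [Rel_gfam hP hdim hs hb, Fintype.sum_sum_type] at h1
    have h5 : A.mulVec (fun c => u (ph P u b (Sum.inr c))) l =
        ∑ c, aeval (ph P u b) (pderiv (Sum.inr c) (gfam f b (I l))) * u (ph P u b (Sum.inr c)) := by
      rw [hA]
      rfl
    have h6 : (∑ c, aeval (ph P u b) (pderiv (Sum.inl c) (gfam f b (I l)) * X (Sum.inr c))) =
        ∑ c, aeval (ph P u b) (pderiv (Sum.inl c) (gfam f b (I l))) * u (ph P u b (Sum.inl c)) := by
      refine Finset.sum_congr rfl fun c _ => ?_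
      rw [map_mul, aeval_X]
      rfl
    rw [h5, rhs, map_neg, map_sum, h6]
    exact eq_neg_of_add_eq_zero_right h1.symm
  rcases s with c | c
  · rw [fld, Sum.elim_inl, map_mul, aeval_X]
    rfl
  · rw [fld, Sum.elim_inr]
    have h3 : A.adjugate.mulVec (fun l => aeval (ph P u b) (rhs (gfam f b) I l)) = A.det • fun c => u (ph P u b (Sum.inr c)) := by
      rw [← hrow, Matrix.mulVec_mulVec, Matrix.adjugate_mul, Matrix.smul_mulVec, Matrix.one_mulVec]
    have h4 : (vmat (gfam f b) I).adjugate.map (aeval (ph P u b)) = A.adjugate := by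
      rw [hA]
      exact (aeval (ph P u b) : MvPolynomial (Ph N) ℂ →ₐ[ℂ] L).toRingHom.map_adjugate (vmat (gfam f b) I)
    have h5 : aeval (ph P u b) (((vmat (gfam f b) I).adjugate.mulVec (rhs (gfam f b) I)) c) =
        A.adjugate.mulVec (fun l => aeval (ph P u b) (rhs (gfam f b) I l)) c := by
      rw [← h4]
      exact (aeval (ph P u b) : MvPolynomial (Ph N) ℂ →ₐ[ℂ] L).toRingHom.map_mulVec _ _ c
    rw [h5, h3, Pi.smul_apply, hdet, smul_eq_mul]

/-- All functions `G_l` of the family are constants for `u` (`x_b = 1`, `v_b = 0`, `Q_j (x) = 0`, `dQ_j (x) v = u (Q_j (x)) = 0`, `θ`), so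
`∑_c ∂G_l/∂v_c u (v_c) = - ∑_c ∂G_l/∂x_c v_c`; Cramer's rule for the rows `I`. -/
theorem aeval_Dt [IsScalarTower ℂ (FunField P) L] (hP : Homog P) {n : ℕ} (hdim : ∃ z : Fin (n + 1) → FunField P, IsTranscendenceBasis ℂ z) {f : Frame θ} {u : Derivation ℂ L L}
    (hs : IsSol f u) {b : Fin (N + 1)} (hb : X b ∉ P) (I : Fin (N + 1) → (Unit ⊕ Unit) ⊕ (Fin f.q ⊕ Fin f.q) ⊕ Fin J) (g : MvPolynomial (Ph N) ℂ) :
    aeval (ph P u b) (Dt (gfam f b) I g) = aeval (ph P u b) (vdet (gfam f b) I) * u (aeval (ph P u b) g) := by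
  induction g using MvPolynomial.induction_on with
  | C a =>
    have h1 : Dt (gfam f b) I (C a) = 0 := by
      rw [← algebraMap_eq]
      exact Derivation.map_algebraMap _ _
    rw [h1, map_zero, aeval_C, Derivation.map_algebraMap, mul_zero]
  | add p q hp hq =>
    rw [map_add, map_add, map_add, map_add, hp, hq, mul_add]
  | mul_X p i hp =>
    have h3 : Dt (gfam f b) I (X i) = fld (gfam f b) I i := mkDerivation_X _ _ _
    rw [Derivation.leibniz, h3, map_add, smul_eq_mul, smul_eq_mul, map_mul, map_mul, map_mul, hp, Rel_fld hP hdim hs hb, aeval_X, Derivation.leibniz,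
      smul_eq_mul, smul_eq_mul]
    ring

/-- The points of the variety of `ph P u b` are initial vectors of arcs (where a determinant is not `0`). -/
theorem crit_of_pt [IsScalarTower ℂ (FunField P) L] (hP : Homog P) {n : ℕ} (hdim : ∃ z : Fin (n + 1) → FunField P, IsTranscendenceBasis ℂ z) {f : Frame θ} {u : Derivation ℂ L L}
    (hs : IsSol f u) {b : Fin (N + 1)} (hb : X b ∉ P) {I : Fin (N + 1) → (Unit ⊕ Unit) ⊕ (Fin f.q ⊕ Fin f.q) ⊕ Fin J} {w : Ph N → ℂ}
    (hw : Pt (rel (ph P u b)) w) (hI : eval w (vdet (gfam f b) I) ≠ 0) :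
    Crit (gfam f b) I w ∧ ∃ (x v : Fin (N + 1) → ℂ) (c : Fin J → ℂ), w = pt x v ∧ IsTan θ b c x v := by
  have h1 : ∀ (l : (Unit ⊕ Unit) ⊕ (Fin f.q ⊕ Fin f.q) ⊕ Fin J) (k : ℕ), aeval (ph P u b) ((⇑(Dt (gfam f b) I))^[k + 1] (gfam f b l)) = 0 := by
    intro l k
    induction k with
    | zero =>
      rw [zero_add, Function.iterate_one, aeval_Dt hP hdim hs hb, Rel_gfam hP hdim hs hb, mul_zero]
    | succ k ih =>
      rw [Function.iterate_succ_apply', aeval_Dt hP hdim hs hb, ih, map_zero, mul_zero]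
  refine ⟨⟨hI, fun l k => hw _ (mem_rel.2 (h1 l k))⟩, ?_⟩
  obtain ⟨hx, hv⟩ := pt_tan hP hdim u hb hw
  have hone := pt_one hdim u hb hw
  refine ⟨fun i => w (Sum.inl i), fun i => w (Sum.inr i), fun k => (θ k).toFun (fun i => w (Sum.inl i)) fun i => w (Sum.inr i), ?_,
    hx, hone.1, hv, hone.2, fun _ => rfl⟩
  funext s
  rcases s with c | c <;> rfl

end Sol

end Pool.Agent.GQ

end
end

section

/-!
# GG Use: the entire curves given by the algebraic criterion

PROOF.  As in the second half of `exists_R` (file `Fin`): `isInit_of_crit`, `nArc_of_const`, `arcAt_of_nArc`, `c ≠ 0` by `no_common_zero`; `unif` with the compact set `{c}` and `exists_entire` give an entire curve `g` with `ArcAt θ c g z` for all `z`, equal to the arc near `0`.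
`g` is holomorphic and in `projVar P`; `wl_bounds`: the Fubini–Study derivative is bounded, so `OrderTwo` (`H14.V.orderTwo_of`, a global lift exists by `H17.exists_global_lift`); `g` is not constant since `v ∉ ℂ x` (`v a = 0`, `x a = 1`, `v ≠ 0`).
-/

set_option autoImplicit false

open MvPolynomial Topology Filter Metric
open Pool.Agent.H13.SM (conTan cone)
open Pool.Agent.H17 (PN HolomorphicInto)
open Pool.Agent.H17EF (projVar)
open Pool.Agent.H13.OT (OrderTwo)
open Pool.Agent.H62.FC (Homog)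
open Pool.Agent.H36.BP (EN fs wd)

noncomputable section

namespace Pool.Agent.GG

variable {N : ℕ} {P : Ideal (MvPolynomial (Fin (N + 1)) ℂ)} {J : ℕ} {m : Fin J → ℕ} {θ : ∀ k, SymSec P (m k)}

/-- the Fubini–Study length is at most a multiple of `wl` -/
theorem use_fs_le_wl (x v : Fin (N + 1) → ℂ) (hx : x ≠ 0) : fs (WithLp.toLp 2 x : EN N) (WithLp.toLp 2 v) ≤ (N + 1) * wl x v := by
  obtain ⟨i, hi⟩ := cst_max_coord x
  have hx0 : x i ≠ 0 := norm_ne_zero_iff.1 (by rw [hi]; exact norm_ne_zero_iff.2 hx)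
  have hX0 : (WithLp.toLp 2 x : EN N) ≠ 0 := fun h => hx (WithLp.toLp_injective 2 h)
  have hnv := cst_nv_norm (v := v) hx hi
  have hc : (x i)⁻¹ ≠ 0 := inv_ne_zero hx0
  have h1 := Pool.Agent.H36.BP.fs_inv hX0 (WithLp.toLp 2 v : EN N) hc (-((x i)⁻¹ * (v i)) * (x i)⁻¹)
  have h2 : (x i)⁻¹ • (WithLp.toLp 2 v : EN N) + (-((x i)⁻¹ * (v i)) * (x i)⁻¹) • (WithLp.toLp 2 x : EN N) = WithLp.toLp 2 (cst_nv x v i) := by
    rw [mul_smul]
    rfl
  rw [← h1, h2]
  have h3 : 1 ≤ ‖(x i)⁻¹ • (WithLp.toLp 2 x : EN N)‖ := by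
    have h4 := PiLp.norm_apply_le ((x i)⁻¹ • (WithLp.toLp 2 x : EN N)) i
    have h5 : ((x i)⁻¹ • (WithLp.toLp 2 x : EN N)) i = 1 := by
      simp [hx0]
    rw [h5, norm_one] at h4
    exact h4
  have h6 : ‖(WithLp.toLp 2 (cst_nv x v i) : EN N)‖ ≤ (N + 1) * ‖cst_nv x v i‖ := by
    rw [EuclideanSpace.norm_eq]
    refine Real.sqrt_le_iff.2 ⟨by positivity, ?_⟩
    calc ∑ j, ‖(WithLp.toLp 2 (cst_nv x v i) : EN N) j‖ ^ 2 ≤ ∑ _j : Fin (N + 1), ‖cst_nv x v i‖ ^ 2 :=
          Finset.sum_le_sum fun j _ => pow_le_pow_left₀ (norm_nonneg _) (norm_le_pi_norm (cst_nv x v i) j) 2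
      _ = (N + 1) * ‖cst_nv x v i‖ ^ 2 := by simp
      _ ≤ ((N + 1) * ‖cst_nv x v i‖) ^ 2 := by
        have : (0 : ℝ) ≤ N := Nat.cast_nonneg N
        nlinarith [mul_nonneg this (sq_nonneg ‖cst_nv x v i‖), mul_nonneg (mul_nonneg this this) (sq_nonneg ‖cst_nv x v i‖)]
  unfold fs
  have h7 := Pool.Agent.H36.BP.wd_le ((x i)⁻¹ • (WithLp.toLp 2 x : EN N)) (WithLp.toLp 2 (cst_nv x v i))
  rw [div_le_iff₀ (by positivity)]
  have h8 : 0 ≤ wl x v := wl_nonneg _ _
  have h9 : ‖(WithLp.toLp 2 (cst_nv x v i) : EN N)‖ ≤ (N + 1) * wl x v := h6.trans (by gcongr)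
  set A := ‖(x i)⁻¹ • (WithLp.toLp 2 x : EN N)‖
  calc wd ((x i)⁻¹ • (WithLp.toLp 2 x : EN N)) (WithLp.toLp 2 (cst_nv x v i)) ≤ A * ‖(WithLp.toLp 2 (cst_nv x v i) : EN N)‖ := h7
    _ ≤ A * ((N + 1) * wl x v) := by gcongr
    _ ≤ (N + 1) * wl x v * A ^ 2 := by
      have h10 : 0 ≤ (N + 1) * wl x v := by positivity
      nlinarith [mul_nonneg h10 (mul_nonneg (zero_le_one.trans h3) (sub_nonneg.2 h3))]

/-- `wl` of the derivatives of proportional maps -/
theorem use_wl_par {G F : ℂ → Fin (N + 1) → ℂ} {z : ℂ} {g : ℂ → PN N} (hG : AnalyticAt ℂ G z) (hrG : Rep g G z) (hF : AnalyticAt ℂ F z)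
    (hrF : Rep g F z) : wl (G z) (deriv G z) = wl (F z) (deriv F z) := by
  have hF0 : F z ≠ 0 := hrF.self_of_nhds.1
  have hG0 : G z ≠ 0 := hrG.self_of_nhds.1
  obtain ⟨j, hj⟩ : ∃ j, F z j ≠ 0 := by
    by_contra h
    push Not at h
    exact hF0 (funext h)
  have hFc : ∀ i, AnalyticAt ℂ (fun w => F w i) z := fun i => (analyticAt_pi_iff.1 hF) i
  have hGc : ∀ i, AnalyticAt ℂ (fun w => G w i) z := fun i => (analyticAt_pi_iff.1 hG) i
  have hlam : AnalyticAt ℂ (fun w => G w j / F w j) z := (hGc j).div (hFc j) hj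
  have hne : ∀ᶠ w in 𝓝 z, F w j ≠ 0 := (hFc j).continuousAt.eventually_ne hj
  have heq : G =ᶠ[𝓝 z] fun w => (G w j / F w j) • F w := by
    filter_upwards [hrG, hrF, hne] with w hw hw' hw0
    obtain ⟨h1, h2⟩ := hw
    obtain ⟨h3, h4⟩ := hw'
    funext i
    rw [Pi.smul_apply, smul_eq_mul, div_mul_eq_mul_div, eq_div_iff hw0]
    rw [h2, Projectivization.mk_eq_mk_iff'] at h4
    obtain ⟨a, ha⟩ := h4
    rw [← ha]
    simp only [Pi.smul_apply, smul_eq_mul]
    ring
  have h1 : deriv G z = (G z j / F z j) • deriv F z + deriv (fun w => G w j / F w j) z • F z := by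
    rw [heq.deriv_eq]
    exact (hlam.differentiableAt.hasDerivAt.smul hF.differentiableAt.hasDerivAt).deriv
  have hl0 : G z j / F z j ≠ 0 := by
    intro h
    apply hG0
    rw [heq.eq_of_nhds, h, zero_smul]
  rw [h1]
  nth_rewrite 1 [heq.eq_of_nhds]
  have e : deriv (fun w => G w j / F w j) z • F z = (deriv (fun w => G w j / F w j) z / (G z j / F z j)) • ((G z j / F z j) • F z) := by
    rw [smul_smul, div_mul_cancel₀ _ hl0]
  rw [e, wl_add_smul, wl_smul hl0]

/-- entire arcs have order two -/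
theorem orderTwo_of_arcAt (hP : Homog P) (hθ : Polar θ) (hm : ∀ k, 1 ≤ m k) {c : Fin J → ℂ} (hc : c ≠ 0) {g : ℂ → PN N} (h : ∀ z, ArcAt θ c g z) :
    HolomorphicInto g Set.univ ∧ OrderTwo g ∧ (∀ z, g z ∈ projVar P) ∧ ∃ z w, g z ≠ g w := by
  have hhol : HolomorphicInto g Set.univ := by
    intro z _
    obtain ⟨F, hF, hr, -⟩ := h z
    exact ⟨F, hF, hr⟩
  refine ⟨hhol, ?_, ?_, ?_⟩
  · -- bounded Fubini–Study derivative
    obtain ⟨c₁, -, C₁, hC₁⟩ := wl_bounds hP hθ hm hc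
    obtain ⟨x, hx⟩ := Pool.Agent.H17.exists_global_lift hhol
    let G : ℂ → Fin (N + 1) → ℂ := fun z j => (x j : ℂ → ℂ) z
    have hGd : Differentiable ℂ G := differentiable_pi.2 fun j => (x j).2
    have hGr : ∀ z, Rep g G z := fun z => Eventually.of_forall fun w => hx w
    have hl : Pool.Agent.H14.V.IsLift (fun z => (WithLp.toLp 2 (G z) : EN N)) g :=
      ⟨(Pool.Agent.H17EF.LE N).differentiable.comp hGd, fun z => hx z⟩
    refine Pool.Agent.H14.V.orderTwo_of hl (L := (N + 1) * C₁) fun z => ?_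
    have hd : deriv (fun z => (WithLp.toLp 2 (G z) : EN N)) z = WithLp.toLp 2 (deriv G z) :=
      ((Pool.Agent.H17EF.LE N : (Fin (N + 1) → ℂ) →L[ℂ] EN N).hasFDerivAt.comp_hasDerivAt z (hGd z).hasDerivAt).deriv
    rw [hd]
    refine (use_fs_le_wl (G z) (deriv G z) (hx z).1).trans ?_
    obtain ⟨F, hF, hr, hcF⟩ := h z
    rw [use_wl_par (hGd.analyticAt z) (hGr z) hF hr]
    have h1 := (hC₁ (F z) hcF.self_of_nhds.1 (deriv F z) (cst_deriv_mem hF.differentiableAt (hcF.mono fun w hw => hw.1)) hcF.self_of_nhds.2).2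
    gcongr
  · intro z
    obtain ⟨F, hF, hr, hcF⟩ := h z
    obtain ⟨h0, h1⟩ := hr.self_of_nhds
    rw [h1, Pool.Agent.H17EF.mk_mem_projVar hP h0]
    exact hcF.self_of_nhds.1
  · by_contra hcon
    push Not at hcon
    obtain ⟨a, x, hx, hr, -⟩ := exists_nArc hP (h 0)
    have hT := (Chart_isTan hx).self_of_nhds
    refine ne_zero_of_isTan hm hT hc ?_
    have hxc : x =ᶠ[𝓝 0] fun _ => x 0 := by
      obtain ⟨h0, h1⟩ := hr.self_of_nhds
      filter_upwards [hr, hx.2] with w hw hw'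
      obtain ⟨h2, h3⟩ := hw
      have h4 := hcon w 0
      rw [h3, h1, Projectivization.mk_eq_mk_iff'] at h4
      obtain ⟨b, hb⟩ := h4
      have h5 := congrFun hb a
      rw [Pi.smul_apply, smul_eq_mul, hx.2.self_of_nhds.2.1, hw'.2.1, mul_one] at h5
      rw [← hb, h5, one_smul]
    rw [hxc.deriv_eq]
    simp

end Pool.Agent.GG

end
end

section

/-!
# GT NoExt: an entire curve in a variety with polar symmetric differentials does not extend to `∞`

The proof is that of `GA.entire_of_punctured` (file `GA/Ent` of helper66).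
-/

set_option autoImplicit false

open MvPolynomial Topology Filter Metric
open Pool.Agent.H13.SM (conTan cone)
open Pool.Agent.H17 (PN VanishesAt HolomorphicInto puncturedDisc)
open Pool.Agent.H17EF (projVar)
open Pool.Agent.H62.FC (Homog)
open Pool.Agent.H36.BP (EN fs wd)
open Pool.Agent.GG

namespace Pool.Agent.GT

variable {N : ℕ} {P : Ideal (MvPolynomial (Fin (N + 1)) ℂ)} {J : ℕ} {m : Fin J → ℕ} {θ : ∀ k, SymSec P (m k)}

/-- the values of a symmetric differential in the coordinates `z` and `u = 1 / z` -/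
private theorem ent_val (hP : Homog P) {n : ℕ} (t : SymSec P n) {F φ : ℂ → Fin (N + 1) → ℂ} (hF : Differentiable ℂ F) (hFX : ∀ z, F z ∈ cone P)
    {u : ℂ} (hu : u ≠ 0) (hφ : DifferentiableAt ℂ φ u) (hφ0 : φ u ≠ 0)
    (hr : ∀ᶠ v in 𝓝 u, ∀ i j, φ v i * F v⁻¹ j - φ v j * F v⁻¹ i = 0) :
    t.toFun (φ u) (deriv φ u) = (-(u ^ 2)⁻¹) ^ n * t.toFun (F u⁻¹) (deriv F u⁻¹) := by
  obtain ⟨x, hx⟩ : ∃ x, x = F u⁻¹ := ⟨_, rfl⟩
  obtain ⟨v, hv⟩ : ∃ v, v = deriv F u⁻¹ := ⟨_, rfl⟩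
  have hxP : x ∈ cone P := hx ▸ hFX _
  have hvP : v ∈ conTan P x := by
    rw [hv, hx]
    exact cst_deriv_mem (hF _) (Eventually.of_forall hFX)
  -- a coordinate
  obtain ⟨j, hj⟩ : ∃ j, x j ≠ 0 := by
    by_contra hcon
    push Not at hcon
    exact hxP.1 (funext hcon)
  -- the lift near `u`
  have hFi : HasDerivAt (fun v : ℂ => F v⁻¹) ((-(u ^ 2)⁻¹) • v) u := by
    rw [hv]
    exact (hF u⁻¹).hasDerivAt.scomp u (hasDerivAt_inv hu)
  have hFj : ∀ᶠ w in 𝓝 u, F w⁻¹ j ≠ 0 := by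
    have h1 : ContinuousAt (fun w : ℂ => F w⁻¹ j) u := (hasDerivAt_pi.1 hFi j).continuousAt
    refine h1.eventually_ne ?_
    rw [← hx]
    exact hj
  obtain ⟨c, hc⟩ : ∃ c : ℂ → ℂ, c = fun w => φ w j / F w⁻¹ j := ⟨_, rfl⟩
  have hcd : DifferentiableAt ℂ c u := by
    rw [hc]
    refine DifferentiableAt.div (differentiableAt_pi.1 hφ j) (hasDerivAt_pi.1 hFi j).differentiableAt ?_
    rw [← hx]
    exact hj
  have hφc : φ =ᶠ[𝓝 u] fun w => c w • F w⁻¹ := by
    filter_upwards [hr, hFj] with w h1 h2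
    funext i
    rw [hc]
    simp only [Pi.smul_apply, smul_eq_mul]
    rw [div_mul_eq_mul_div, eq_div_iff h2]
    linear_combination h1 i j
  have hφu : φ u = c u • x := by
    rw [hx]
    exact hφc.self_of_nhds
  have hcu : c u ≠ 0 := by
    intro h
    rw [h, zero_smul] at hφu
    exact hφ0 hφu
  have hdφ : deriv φ u = c u • ((-(u ^ 2)⁻¹) • v + ((c u)⁻¹ * deriv c u) • x) := by
    rw [hφc.deriv_eq]
    have h1 := (hcd.hasDerivAt.smul hFi).deriv
    have h2 : deriv (fun w => c w • F w⁻¹) u = c u • (-(u ^ 2)⁻¹) • v + deriv c u • F u⁻¹ := h1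
    rw [h2, smul_add, smul_smul (c u) ((c u)⁻¹ * deriv c u) x, ← mul_assoc, mul_inv_cancel₀ hcu, one_mul, ← hx]
  have hvP' : (-(u ^ 2)⁻¹) • v ∈ conTan P x := (conTan P x).smul_mem _ hvP
  have hw : (-(u ^ 2)⁻¹) • v + ((c u)⁻¹ * deriv c u) • x ∈ conTan P x :=
    (conTan P x).add_mem hvP' ((conTan P x).smul_mem _ (Pool.Agent.AD.G.self_mem_conTan hP hxP))
  rw [hφu, hdφ, t.scale x hxP _ hw _ hcu, t.add_smul x hxP _ hvP', t.smul x hxP _ hvP, ← hx, ← hv]

/-- a curve with `θ (f') = 0` is constant -/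
private theorem ent_const (hθ : Polar θ) (hm : ∀ k, 1 ≤ m k) {f : ℂ → PN N} {F : ℂ → Fin (N + 1) → ℂ} (hF : Differentiable ℂ F)
    (hFf : ∀ z, ∃ h : F z ≠ 0, f z = Projectivization.mk ℂ (F z) h) (hFX : ∀ z, F z ∈ cone P)
    (h : ∀ k z, (θ k).toFun (F z) (deriv F z) = 0) (z w : ℂ) : f z = f w := by
  have h0 : ∀ z, F z ≠ 0 := fun z => (hFX z).1
  have hl : Pool.Agent.H14.V.IsLift (fun z => (WithLp.toLp 2 (F z) : EN N)) f :=
    ⟨(Pool.Agent.H17EF.LE N).differentiable.comp hF, fun z => hFf z⟩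
  have hd : ∀ z, deriv (fun z => (WithLp.toLp 2 (F z) : EN N)) z = WithLp.toLp 2 (deriv F z) := by
    intro z
    exact ((Pool.Agent.H17EF.LE N : (Fin (N + 1) → ℂ) →L[ℂ] EN N).hasFDerivAt.comp_hasDerivAt z (hF z).hasDerivAt).deriv
  have hfs : ∀ z, fs (WithLp.toLp 2 (F z) : EN N) (deriv (fun z => (WithLp.toLp 2 (F z) : EN N)) z) = 0 := by
    intro z
    rw [hd]
    have h1 := no_common_zero hθ hm (hFX z) (cst_deriv_mem (hF z) (Eventually.of_forall hFX)) (fun k => h k z)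
    obtain ⟨a, ha⟩ := Submodule.mem_span_singleton.1 h1
    unfold fs
    rw [(Pool.Agent.H36.BP.wd_eq_zero (fun h => h0 z (WithLp.toLp_injective 2 h))).2 ⟨a, by rw [← ha]; rfl⟩, zero_div]
  apply Pool.Agent.H17EF.prP_injective
  rw [hl.prP, hl.prP]
  exact Pool.Agent.H14.V.pr_const hl.1 (fun z => hl.ne_zero z) hfs z w

/-- **Rational curves.**  A nonconstant entire curve `f` does not extend holomorphically to infinity. -/
theorem no_extend (hP : Homog P) (hθ : Polar θ) (hm : ∀ k, 1 ≤ m k) {f : ℂ → PN N} (hf : HolomorphicInto f Set.univ) (hX : ∀ z, f z ∈ projVar P)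
    (hne : ∃ z w, f z ≠ f w) {G : ℂ → PN N} (hG : HolomorphicInto G (ball 0 1)) (hGf : ∀ z ∈ puncturedDisc, G z = f z⁻¹) : False := by
  classical
  -- a global lift
  obtain ⟨x, hx⟩ := Pool.Agent.H17.exists_global_lift hf
  obtain ⟨F, hFx⟩ : ∃ F : ℂ → Fin (N + 1) → ℂ, F = fun z j => (x j : ℂ → ℂ) z := ⟨_, rfl⟩
  have hF : Differentiable ℂ F := by
    rw [hFx]
    exact differentiable_pi.2 fun j => (x j).diff
  have hFf : ∀ z, ∃ h : F z ≠ 0, f z = Projectivization.mk ℂ (F z) h := by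
    intro z
    rw [hFx]
    exact hx z
  have hFX : ∀ z, F z ∈ cone P := by
    intro z
    obtain ⟨h, e⟩ := hFf z
    have h1 := hX z
    rw [e] at h1
    exact (Pool.Agent.H17EF.mk_mem_projVar hP h).1 h1
  -- the curve on the punctured disc
  obtain ⟨g, hg⟩ : ∃ g : ℂ → PN N, g = fun z => f z⁻¹ := ⟨_, rfl⟩
  have hgh : HolomorphicInto g puncturedDisc := by
    intro z hz
    have hz0 : z ≠ 0 := hz.2
    refine ⟨fun w => F w⁻¹, ?_, Eventually.of_forall fun w => ?_⟩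
    · exact (hF.analyticAt z⁻¹).fun_comp (analyticAt_inv hz0)
    · rw [hg]
      exact hFf w⁻¹
  have hGg : ∀ z ∈ puncturedDisc, G z = g z := by
    intro z hz
    rw [hGf z hz, hg]
  obtain ⟨φ, hφ, hφG⟩ := hG 0 (mem_ball_self one_pos)
  have hφ0 : φ 0 ≠ 0 := hφG.self_of_nhds.1
  -- near `0`
  have hnear : ∀ᶠ u in 𝓝 (0 : ℂ), u ≠ 0 → ∀ i j, φ u i * F u⁻¹ j - φ u j * F u⁻¹ i = 0 := by
    filter_upwards [hφG, ball_mem_nhds (0 : ℂ) one_pos] with u h1 h2 h3
    obtain ⟨h4, h5⟩ := h1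
    obtain ⟨h6, h7⟩ := hFf u⁻¹
    have h8 := hGg u ⟨h2, h3⟩
    rw [h5, hg] at h8
    have h9 : Projectivization.mk ℂ (φ u) h4 = Projectivization.mk ℂ (F u⁻¹) h6 := by
      rw [h8, ← h7]
    rw [Projectivization.mk_eq_mk_iff'] at h9
    obtain ⟨a, ha⟩ := h9
    intro i j
    rw [← ha]
    simp only [Pi.smul_apply, smul_eq_mul]
    ring
  have hcone' : ∀ᶠ u in 𝓝 (0 : ℂ), u ≠ 0 → φ u ∈ cone P := by
    filter_upwards [hφG, ball_mem_nhds (0 : ℂ) one_pos] with u h1 h2 h3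
    obtain ⟨h4, h5⟩ := h1
    have h8 := hGg u ⟨h2, h3⟩
    rw [h5, hg] at h8
    have h9 := hX u⁻¹
    rw [← (show _ = f u⁻¹ from h8)] at h9
    exact (Pool.Agent.H17EF.mk_mem_projVar hP h4).1 h9
  have hcone : ∀ᶠ u in 𝓝 (0 : ℂ), φ u ∈ cone P := by
    filter_upwards [hcone'] with u h1
    rcases eq_or_ne u 0 with h2 | h2
    · rw [h2]
      refine ⟨hφ0, fun Q hQ => ?_⟩
      have h3 : Tendsto (fun u => eval (φ u) Q) (𝓝[≠] 0) (𝓝 (eval (φ 0) Q)) :=
        ((MvPolynomial.continuous_eval Q).continuousAt.comp hφ.continuousAt).tendsto.mono_left nhdsWithin_le_nhds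
      have h4 : Tendsto (fun u => eval (φ u) Q) (𝓝[≠] 0) (𝓝 0) := by
        refine tendsto_const_nhds.congr' ?_
        filter_upwards [nhdsWithin_le_nhds hcone', self_mem_nhdsWithin] with u h5 h6
        exact ((h5 h6).2 Q hQ).symm
      exact tendsto_nhds_unique h3 h4
    · exact h1 h2
  -- the symmetric differentials vanish along the curve
  have hzero : ∀ k z, (θ k).toFun (F z) (deriv F z) = 0 := by
    intro k
    have hent : Differentiable ℂ fun z => (θ k).toFun (F z) (deriv F z) := fun z =>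
      ((θ k).analyticAt_curve (hF.analyticAt z) (Eventually.of_forall hFX)).differentiableAt
    have hφa := ((θ k).analyticAt_curve hφ hcone).continuousAt
    have hlim : Tendsto (fun z => (θ k).toFun (F z) (deriv F z)) (cocompact ℂ) (𝓝 0) := by
      have h1 : Tendsto (fun u : ℂ => (-1) ^ (m k) * u ^ (2 * m k) * (θ k).toFun (φ u) (deriv φ u)) (𝓝 0) (𝓝 0) := by
        have h2 : ContinuousAt (fun u : ℂ => (-1) ^ (m k) * u ^ (2 * m k) * (θ k).toFun (φ u) (deriv φ u)) 0 :=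
          (by fun_prop : ContinuousAt (fun u : ℂ => (-1) ^ (m k) * u ^ (2 * m k)) 0).mul hφa
        have h3 := h2.tendsto
        have h4 : (2 * m k) ≠ 0 := by
          have := hm k
          omega
        rw [zero_pow h4, mul_zero, zero_mul] at h3
        exact h3
      have h2 : ∀ᶠ u in 𝓝[≠] (0 : ℂ), (-1) ^ (m k) * u ^ (2 * m k) * (θ k).toFun (φ u) (deriv φ u) = (θ k).toFun (F u⁻¹) (deriv F u⁻¹) := by
        filter_upwards [nhdsWithin_le_nhds hnear.eventually_nhds, nhdsWithin_le_nhds hφ.eventually_analyticAt, nhdsWithin_le_nhds hφG, self_mem_nhdsWithin] with u h3 h4 h5 h6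
        have hu : u ≠ 0 := h6
        have h7 : ∀ᶠ v in 𝓝 u, ∀ i j, φ v i * F v⁻¹ j - φ v j * F v⁻¹ i = 0 := by
          filter_upwards [h3, isOpen_ne.mem_nhds hu] with v h8 h9 using h8 h9
        rw [ent_val hP (θ k) hF hFX hu h4.differentiableAt h5.1 h7]
        have h10 : (-1) ^ (m k) * u ^ (2 * m k) * (-(u ^ 2)⁻¹) ^ (m k) = 1 := by
          rw [pow_mul, ← mul_pow, ← mul_pow]
          have h11 : -1 * u ^ 2 * -(u ^ 2)⁻¹ = 1 := by field_simp
          rw [h11, one_pow]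
        rw [← mul_assoc, h10, one_mul]
      have h3 : Tendsto (fun u : ℂ => (θ k).toFun (F u⁻¹) (deriv F u⁻¹)) (𝓝[≠] 0) (𝓝 0) :=
        (h1.mono_left nhdsWithin_le_nhds).congr' h2
      have h4 := h3.comp Filter.tendsto_inv₀_cobounded'
      rw [← Metric.cobounded_eq_cocompact]
      refine h4.congr fun z => ?_
      simp
    exact fun z => hent.apply_eq_of_tendsto_cocompact z hlim
  obtain ⟨z, w, hzw⟩ := hne
  exact hzw (ent_const hθ hm hF hFf hFX hzero z w)

end Pool.Agent.GT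

end

section

/-!
# GU Up: the properties `GGLC` go up along dominant rational maps of projective varieties of the same dimension

`gglc_up`: let `P` and `P'` be homogeneous prime ideals, whose varieties `X` and `X'` have the same dimension, and let the function field of `X` be
embedded in the function field of `X'` (this is a dominant rational map from `X'` to `X`).  If `X` has the properties `GGLC` (with an exceptional set
`Ξ`), then so has `X'`.
-/

set_option autoImplicit false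

open Topology Filter MvPolynomial

noncomputable section

namespace Pool.Agent.H23.GU

open Pool.Agent.H17 (PN VanishesAt HolomorphicInto puncturedDisc vanishesAt_mk_iff ZariskiClosedIn)
open Pool.Agent.H17GT (coordFun)
open Pool.Agent.H17LG.Variety (FunField IsLogGeneralType ratio)
open Pool.Agent.H62.FC (Homog)
open Pool.Agent.H17R (coordFun_ne_zero_iff gen_eq_zero_iff ratio_self adjoin_ratio)
open Pool.Agent.H17EF (projVar)
open Pool.Agent.H7.Bir (vals rmap vanishesAt_rmap pn_identity punctured_open exists_quot aeval_comp aeval_div rmap_mk vals_smul eval_comp exists_comp)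
open Pool.Agent.H7.Qup (const_of_root root_bound vals_rep_ne)

variable {N M : ℕ}

/-- An embedding of function fields is given by forms. -/
theorem exists_rat {P : Ideal (MvPolynomial (Fin (N + 1)) ℂ)} [P.IsPrime] {P' : Ideal (MvPolynomial (Fin (M + 1)) ℂ)}
    [P'.IsPrime] (e : FunField P →ₐ[ℂ] FunField P') {j : Fin (N + 1)} (hj : coordFun P j ≠ 0) {j' : Fin (M + 1)}
    (hj' : coordFun P' j' ≠ 0) :
    ∃ (D : ℕ) (γ : Fin (N + 1) → MvPolynomial (Fin (M + 1)) ℂ), (∀ i, (γ i).IsHomogeneous D) ∧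
      (∀ n R, R.IsHomogeneous n → (aeval γ R ∈ P' ↔ R ∈ P)) ∧ γ j ∉ P' := by
  set ξ : Fin (N + 1) → FunField P := fun i => ratio P i j with hξ
  set η : Fin (M + 1) → FunField P' := fun i => ratio P' i j' with hη
  have hξ1 : ξ j = 1 := ratio_self hj
  have hη1 : η j' = 1 := ratio_self hj'
  obtain ⟨D, γ, hγ, hγ0, hγ1⟩ := exists_quot hη1 (adjoin_ratio hj') (fun i => e (ξ i)) (j' := j) (by simp only [hξ1, map_one])
  have h1 : (fun i => aeval η (γ i) / aeval η (γ j)) = fun i => e (ξ i) := by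
    funext i
    rw [← hγ1, mul_div_cancel_right₀ _ hγ0]
  have hsymm : ∀ R : MvPolynomial (Fin (N + 1)) ℂ, aeval (fun i => e (ξ i)) R = e (aeval ξ R) := by
    intro R
    have h2 := DFunLike.congr_fun (MvPolynomial.comp_aeval ξ e) R
    exact h2.symm
  have h2 : ∀ (n : ℕ) (R : MvPolynomial (Fin (N + 1)) ℂ), R.IsHomogeneous n →
      aeval η (aeval γ R) = aeval η (γ j) ^ n * e (aeval ξ R) := by
    intro n R hR
    rw [aeval_comp, aeval_div hR hγ0, h1, hsymm]
  refine ⟨D, γ, hγ, ?_, ?_⟩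
  · intro n R hR
    have h3 : (aeval γ R).IsHomogeneous (D * n) := hR.aeval γ hγ
    rw [← gen_eq_zero_iff hj' h3, ← gen_eq_zero_iff hj hR]
    change aeval η (aeval γ R) = 0 ↔ aeval ξ R = 0
    rw [h2 n R hR, mul_eq_zero, map_eq_zero_iff e e.injective]
    exact ⟨fun h => h.resolve_left (pow_ne_zero _ hγ0), Or.inr⟩
  · intro h
    exact hγ0 ((gen_eq_zero_iff hj' (hγ j)).2 h)

theorem eval_smul {n : ℕ} {Q : MvPolynomial (Fin (N + 1)) ℂ} (hQ : Q.IsHomogeneous n) (c : ℂ) (x : Fin (N + 1) → ℂ) :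
    eval (c • x) Q = c ^ n * eval x Q :=
  Pool.Agent.H17BP.eval_smul_form hQ c x

/-- The equation of the coordinate `i`. -/
def rel {m : ℕ} (α : Fin (m + 1) → MvPolynomial (Fin (N + 1)) ℂ) (i j : Fin (M + 1)) (x : Fin (N + 1) → ℂ) (y : Fin (M + 1) → ℂ) : ℂ :=
  ∑ l : Fin (m + 1), eval x (α l) * y i ^ (l : ℕ) * y j ^ (m - (l : ℕ))

theorem rel_smul {m D₁ : ℕ} {α : Fin (m + 1) → MvPolynomial (Fin (N + 1)) ℂ} (hα : ∀ l, (α l).IsHomogeneous D₁) (i j : Fin (M + 1))
    (a b : ℂ) (x : Fin (N + 1) → ℂ) (y : Fin (M + 1) → ℂ) : rel α i j (a • x) (b • y) = a ^ D₁ * b ^ m * rel α i j x y := by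
  unfold rel
  rw [Finset.mul_sum]
  refine Finset.sum_congr rfl fun l _ => ?_
  have h1 : (l : ℕ) ≤ m := Nat.lt_succ_iff.1 l.2
  have h2 : b ^ m = b ^ (l : ℕ) * b ^ (m - (l : ℕ)) := by rw [← pow_add, Nat.add_sub_cancel' h1]
  rw [eval_smul (hα l), h2, Pi.smul_apply, Pi.smul_apply, smul_eq_mul, smul_eq_mul, mul_pow, mul_pow]
  ring

theorem rel_vals {m : ℕ} (α : Fin (m + 1) → MvPolynomial (Fin (N + 1)) ℂ) (i j : Fin (M + 1))
    (γ : Fin (N + 1) → MvPolynomial (Fin (M + 1)) ℂ) (y : Fin (M + 1) → ℂ) :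
    rel α i j (vals γ y) y = eval y (∑ l : Fin (m + 1), aeval γ (α l) * X i ^ (l : ℕ) * X j ^ (m - (l : ℕ))) := by
  unfold rel
  rw [map_sum]
  refine Finset.sum_congr rfl fun l _ => ?_
  rw [map_mul, map_mul, map_pow, map_pow, eval_X, eval_X, eval_comp]

theorem rel_continuousAt {m : ℕ} (α : Fin (m + 1) → MvPolynomial (Fin (N + 1)) ℂ) (i j : Fin (M + 1)) {ψ : ℂ → Fin (N + 1) → ℂ}
    {φ : ℂ → Fin (M + 1) → ℂ} {z : ℂ} (hψ : AnalyticAt ℂ ψ z) (hφ : AnalyticAt ℂ φ z) :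
    ContinuousAt (fun w => rel α i j (ψ w) (φ w)) z := by
  unfold rel
  have h1 : ∀ Q : MvPolynomial (Fin (N + 1)) ℂ, ContinuousAt (fun w => eval (ψ w) Q) z := by
    intro Q
    have h1 : AnalyticAt ℂ (fun w => MvPolynomial.aeval (ψ w) Q) z := AnalyticAt.aeval_mvPolynomial (fun i => analyticAt_pi_iff.mp hψ i) Q
    exact h1.continuousAt
  have h2 : ∀ i, ContinuousAt (fun w => φ w i) z := fun i => (continuous_apply i).continuousAt.comp hφ.continuousAt
  have h3 : ContinuousAt (fun w => ∑ l : Fin (m + 1), eval (ψ w) (α l) * φ w i ^ (l : ℕ) * φ w j ^ (m - (l : ℕ))) z := by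
    refine tendsto_finsetSum _ fun l _ => ?_
    exact ((h1 _).mul ((h2 i).pow _)).mul ((h2 j).pow _)
  exact h3

/-- `g` is the composition of `f` with the rational map (in a weak sense): the equations between the coordinates hold. -/
def Rel {m : ℕ} (α : Fin (m + 1) → MvPolynomial (Fin (N + 1)) ℂ) (i j : Fin (M + 1)) (p : PN N) (q : PN M) : Prop :=
  ∀ (y : Fin (M + 1) → ℂ) (hy : y ≠ 0) (x : Fin (N + 1) → ℂ) (hx : x ≠ 0), q = Projectivization.mk ℂ y hy → p = Projectivization.mk ℂ x hx →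
    rel α i j x y = 0

theorem Rel_of {m D₁ : ℕ} {α : Fin (m + 1) → MvPolynomial (Fin (N + 1)) ℂ} (hα : ∀ l, (α l).IsHomogeneous D₁) {i j : Fin (M + 1)}
    {x : Fin (N + 1) → ℂ} (hx : x ≠ 0) {y : Fin (M + 1) → ℂ} (hy : y ≠ 0) (h : rel α i j x y = 0) :
    Rel α i j (Projectivization.mk ℂ x hx) (Projectivization.mk ℂ y hy) := by
  intro y' hy' x' hx' h1 h2
  rw [eq_comm, Projectivization.mk_eq_mk_iff'] at h1 h2
  obtain ⟨b, hb⟩ := h1
  obtain ⟨a, ha⟩ := h2
  rw [← hb, ← ha, rel_smul hα, h, mul_zero]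

/-- **The composition with the rational map.** -/
theorem exists_lift {P : Ideal (MvPolynomial (Fin (N + 1)) ℂ)} {P' : Ideal (MvPolynomial (Fin (M + 1)) ℂ)} {D : ℕ}
    {γ : Fin (N + 1) → MvPolynomial (Fin (M + 1)) ℂ} (hγ : ∀ i, (γ i).IsHomogeneous D)
    (hmaps : ∀ n R, R.IsHomogeneous n → (aeval γ R ∈ P' ↔ R ∈ P)) {f : ℂ → PN M} {U : Set ℂ} (hUo : IsOpen U) (hUc : IsPreconnected U)
    (hf : HolomorphicInto f U) (hfX : ∀ z ∈ U, f z ∈ projVar P') {z₀ : ℂ} (hz₀ : z₀ ∈ U) {i₀ : Fin (N + 1)} (h : ¬ VanishesAt (γ i₀) (f z₀)) :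
    ∃ g : ℂ → PN N, HolomorphicInto g U ∧ (∀ z ∈ U, g z ∈ projVar P) ∧ g z₀ = rmap γ (f z₀) ∧
      ∀ (m D₁ : ℕ) (α : Fin (m + 1) → MvPolynomial (Fin (N + 1)) ℂ) (i j : Fin (M + 1)), (∀ l, (α l).IsHomogeneous D₁) →
        ∑ l : Fin (m + 1), aeval γ (α l) * X i ^ (l : ℕ) * X j ^ (m - (l : ℕ)) ∈ P' → ∀ z ∈ U, Rel α i j (g z) (f z) := by
  obtain ⟨g, hg, hg1, hg2⟩ := exists_comp hγ hUo hUc hf hz₀ h
  -- the values near a point
  have hnear : ∀ z ∈ U, ∀ (φ : ℂ → Fin (M + 1) → ℂ) (ψ : ℂ → Fin (N + 1) → ℂ), AnalyticAt ℂ φ z → AnalyticAt ℂ ψ z →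
      (∀ᶠ w in 𝓝 z, ∃ h : φ w ≠ 0, f w = Projectivization.mk ℂ (φ w) h) → (∀ᶠ w in 𝓝 z, ∃ h : ψ w ≠ 0, g w = Projectivization.mk ℂ (ψ w) h) →
      ∀ᶠ w in 𝓝[≠] z, f w ∈ projVar P' ∧ φ w ≠ 0 ∧ (∃ h : φ w ≠ 0, f w = Projectivization.mk ℂ (φ w) h) ∧ vals γ (f w).rep ≠ 0 ∧ g w = rmap γ (f w) ∧
        ∃ c : ℂ, ψ w = c • vals γ (φ w) := by
    intro z hz φ ψ hφ hψ he he'
    filter_upwards [hg2 z hz, he.filter_mono nhdsWithin_le_nhds, he'.filter_mono nhdsWithin_le_nhds,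
      mem_nhdsWithin_of_mem_nhds (hUo.mem_nhds hz)] with w h1 h2 h3 h4
    obtain ⟨h5, h6⟩ := h1
    obtain ⟨h7, h8⟩ := h2
    obtain ⟨h9, h10⟩ := h3
    have h11 : vals γ (φ w) ≠ 0 := by
      rw [h8] at h5
      exact (vals_rep_ne hγ h7).1 h5
    refine ⟨hfX w h4, h7, ⟨h7, h8⟩, h5, h6, ?_⟩
    have h12 : Projectivization.mk ℂ (ψ w) h9 = Projectivization.mk ℂ (vals γ (φ w)) h11 := by
      rw [← h10, h6, h8, rmap_mk hγ h7 h11]
    rw [Projectivization.mk_eq_mk_iff'] at h12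
    obtain ⟨c, hc⟩ := h12
    exact ⟨c, hc.symm⟩
  refine ⟨g, hg, ?_, hg1 z₀ hz₀ fun h0 => h (congrFun h0 i₀), ?_⟩
  · intro z hz R hR n hRn
    obtain ⟨φ, hφ, he⟩ := hf z hz
    obtain ⟨ψ, hψ, he'⟩ := hg z hz
    obtain ⟨h1, h2⟩ := he'.self_of_nhds
    rw [h2, vanishesAt_mk_iff hRn]
    have hcont : ContinuousAt (fun w => eval (ψ w) R) z := by
      have h1 : AnalyticAt ℂ (fun w => MvPolynomial.aeval (ψ w) R) z := AnalyticAt.aeval_mvPolynomial (fun i => analyticAt_pi_iff.mp hψ i) R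
      exact h1.continuousAt
    have h0 : ∀ᶠ w in 𝓝[≠] z, eval (ψ w) R = 0 := by
      filter_upwards [hnear z hz φ ψ hφ hψ he he', he'.filter_mono nhdsWithin_le_nhds] with w h3 h4
      obtain ⟨h5, h6, h7, h8, h9, h10⟩ := h3
      obtain ⟨h11, h12⟩ := h4
      have h13 : VanishesAt R (g w) := by
        rw [h9, vanishesAt_rmap h8 hRn]
        exact h5 _ ((hmaps n R hRn).2 hR) _ (hRn.aeval γ hγ)
      rwa [h12, vanishesAt_mk_iff hRn] at h13
    exact tendsto_nhds_unique (hcont.tendsto.mono_left nhdsWithin_le_nhds) (tendsto_const_nhds.congr' (h0.mono fun w hw => hw.symm))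
  · intro m D₁ α i j hα hmem z hz
    obtain ⟨φ, hφ, he⟩ := hf z hz
    obtain ⟨ψ, hψ, he'⟩ := hg z hz
    obtain ⟨h1, h2⟩ := he'.self_of_nhds
    obtain ⟨h3, h4⟩ := he.self_of_nhds
    rw [h2, h4]
    refine Rel_of hα h1 h3 ?_
    have hGhom : (∑ l : Fin (m + 1), aeval γ (α l) * X i ^ (l : ℕ) * X j ^ (m - (l : ℕ)) : MvPolynomial (Fin (M + 1)) ℂ).IsHomogeneous
        (D * D₁ + m) := by
      refine IsHomogeneous.sum _ _ _ fun l _ => ?_
      have h1 := ((((hα l).aeval γ hγ).mul ((isHomogeneous_X ℂ i).pow (l : ℕ))).mul ((isHomogeneous_X ℂ j).pow (m - l)))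
      have h2 : D * D₁ + 1 * (l : ℕ) + 1 * (m - l) = D * D₁ + m := by
        have h3 : (l : ℕ) ≤ m := Nat.lt_succ_iff.1 l.2
        omega
      rw [h2] at h1
      exact h1
    have h0 : ∀ᶠ w in 𝓝[≠] z, rel α i j (ψ w) (φ w) = 0 := by
      filter_upwards [hnear z hz φ ψ hφ hψ he he'] with w h5
      obtain ⟨h6, h7, ⟨h8, h9⟩, h10, h11, c, hc⟩ := h5
      have h12 : rel α i j (c • vals γ (φ w)) ((1 : ℂ) • φ w) = 0 := by
        rw [rel_smul hα, rel_vals]
        have h13 : VanishesAt _ (f w) := h6 _ hmem _ hGhom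
        rw [h9, vanishesAt_mk_iff hGhom] at h13
        rw [h13, mul_zero]
      rwa [one_smul, ← hc] at h12
    exact tendsto_nhds_unique ((rel_continuousAt α i j hψ hφ).tendsto.mono_left nhdsWithin_le_nhds)
      (tendsto_const_nhds.congr' (h0.mono fun w hw => hw.symm))

/-- If the image is constant near a point then so is `f`. -/
theorem const_near {j : Fin (M + 1)} {m : Fin (M + 1) → ℕ} {α : ∀ i, Fin (m i + 1) → MvPolynomial (Fin (N + 1)) ℂ}
    {f : ℂ → PN M} {g : ℂ → PN N} {z₀ : ℂ} (hrel : ∀ i, ∀ᶠ z in 𝓝 z₀, Rel (α i) i j (g z) (f z))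
    {φ : ℂ → Fin (M + 1) → ℂ} (hφ : AnalyticAt ℂ φ z₀)
    (he : ∀ᶠ z in 𝓝 z₀, ∃ h : φ z ≠ 0, f z = Projectivization.mk ℂ (φ z) h)
    (hj : φ z₀ j ≠ 0) {x : Fin (N + 1) → ℂ} (hx : x ≠ 0) (hα : ∀ i, eval x (α i (Fin.last (m i))) ≠ 0)
    (hg : ∀ᶠ z in 𝓝 z₀, g z = Projectivization.mk ℂ x hx) : ∀ᶠ z in 𝓝 z₀, f z = f z₀ := by
  have hcj : ContinuousAt (fun z => φ z j) z₀ := (continuous_apply j).continuousAt.comp hφ.continuousAt
  obtain ⟨r, hr, hball⟩ := Metric.eventually_nhds_iff_ball.1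
    ((((he.and (eventually_all.2 hrel)).and hg).and (hcj.eventually_ne hj)).and hφ.eventually_analyticAt)
  have hz₀ : z₀ ∈ Metric.ball z₀ r := Metric.mem_ball_self hr
  have hconst : ∀ i, ∀ z ∈ Metric.ball z₀ r, φ z i / φ z j = φ z₀ i / φ z₀ j := by
    intro i
    refine const_of_root (b := fun l => eval x (α i l)) (hα i) (ρ := fun z => φ z i / φ z j) (fun z hz => ?_) fun z hz => ?_
    · have h1 := (hball z hz).2.continuousAt
      exact (((continuous_apply i).continuousAt.comp h1).div ((continuous_apply j).continuousAt.comp h1) (hball z hz).1.2).continuousWithinAt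
    · obtain ⟨⟨⟨⟨h1, h2⟩, h3⟩, h4⟩, -⟩ := hball z hz
      obtain ⟨h5, h6⟩ := h1
      have h7 := h2 i (φ z) h5 x hx h6 h3
      unfold rel at h7
      have h8 : ∀ l : Fin (m i + 1), eval x (α i l) * φ z i ^ (l : ℕ) * φ z j ^ (m i - (l : ℕ)) =
          φ z j ^ m i * (eval x (α i l) * (φ z i / φ z j) ^ (l : ℕ)) := by
        intro l
        have h9 : (l : ℕ) ≤ m i := Nat.lt_succ_iff.1 l.2
        have h10 : φ z j ^ m i = φ z j ^ (l : ℕ) * φ z j ^ (m i - (l : ℕ)) := by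
          rw [← pow_add, Nat.add_sub_cancel' h9]
        rw [h10, div_pow]
        field_simp
      rw [Finset.sum_congr rfl fun l _ => h8 l, ← Finset.mul_sum, mul_eq_zero] at h7
      exact h7.resolve_left (pow_ne_zero _ h4)
  filter_upwards [Metric.ball_mem_nhds z₀ hr] with z hz
  obtain ⟨⟨⟨⟨⟨h5, h6⟩, h2⟩, h3⟩, h4⟩, -⟩ := hball z hz
  obtain ⟨⟨⟨⟨⟨h5', h6'⟩, h2'⟩, h3'⟩, h4'⟩, -⟩ := hball z₀ hz₀
  rw [h6, h6', Projectivization.mk_eq_mk_iff']
  refine ⟨φ z j / φ z₀ j, ?_⟩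
  funext i
  have h7 := hconst i z hz
  change φ z j / φ z₀ j * φ z₀ i = φ z i
  rw [div_eq_div_iff h4 h4'] at h7
  field_simp
  linear_combination -h7

/-- **Extension over the puncture.** -/
theorem extend_of_alg {j : Fin (M + 1)} {m : Fin (M + 1) → ℕ} {α : ∀ i, Fin (m i + 1) → MvPolynomial (Fin (N + 1)) ℂ}
    {f : ℂ → PN M} {g : ℂ → PN N} (hrel : ∀ i, ∀ z ∈ puncturedDisc, Rel (α i) i j (g z) (f z)) (hf : HolomorphicInto f puncturedDisc)
    {ψ : ℂ → Fin (N + 1) → ℂ} (hψ : AnalyticAt ℂ ψ 0)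
    (hpf : ∀ᶠ z in 𝓝 (0 : ℂ), z ≠ 0 → ∃ h : ψ z ≠ 0, g z = Projectivization.mk ℂ (ψ z) h)
    (hα : ∀ i, ¬ ∀ᶠ z in 𝓝 (0 : ℂ), eval (ψ z) (α i (Fin.last (m i))) = 0) :
    ∃ g : ℂ → PN M, HolomorphicInto g (Metric.ball 0 1) ∧ ∀ z ∈ puncturedDisc, g z = f z := by
  classical
  have han : ∀ Q : MvPolynomial (Fin (N + 1)) ℂ, AnalyticAt ℂ (fun z => eval (ψ z) Q) 0 := by
    intro Q
    have h1 : AnalyticAt ℂ (fun w => MvPolynomial.aeval (ψ w) Q) 0 :=
      AnalyticAt.aeval_mvPolynomial (fun i => analyticAt_pi_iff.mp hψ i) Q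
    exact h1
  set a : Fin (M + 1) → ℂ → ℂ := fun i z => eval (ψ z) (α i (Fin.last (m i))) with ha
  have hane : ∀ i, ∀ᶠ z in 𝓝[≠] (0 : ℂ), a i z ≠ 0 := by
    intro i
    exact (han _).eventually_eq_zero_or_eventually_ne_zero.resolve_left (hα i)
  -- bounds of the coefficients
  have hbd : ∀ i, ∃ C : ℝ, ∀ᶠ z in 𝓝 (0 : ℂ), ∀ l, ‖eval (ψ z) (α i l)‖ ≤ C := by
    intro i
    have h1 : ∀ l, ∃ C : ℝ, ∀ᶠ z in 𝓝 (0 : ℂ), ‖eval (ψ z) (α i l)‖ ≤ C := fun l =>
      ⟨‖eval (ψ 0) (α i l)‖ + 1, ((han (α i l)).continuousAt.norm.eventually_lt continuousAt_const (lt_add_one _)).mono fun z hz => hz.le⟩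
    choose C hC using h1
    refine ⟨∑ l, |C l|, ?_⟩
    filter_upwards [eventually_all.2 hC] with z hz l
    exact ((hz l).trans (le_abs_self _)).trans (Finset.single_le_sum (f := fun l => |C l|) (fun l _ => abs_nonneg _) (Finset.mem_univ l))
  choose C hC using hbd
  have hev : ∀ᶠ z in 𝓝[≠] (0 : ℂ), z ∈ puncturedDisc ∧ (∃ h : ψ z ≠ 0, g z = Projectivization.mk ℂ (ψ z) h) ∧
      (∀ i l, ‖eval (ψ z) (α i l)‖ ≤ C i) ∧ ∀ i, a i z ≠ 0 := by
    have h1 : ∀ᶠ z in 𝓝[≠] (0 : ℂ), z ∈ puncturedDisc := by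
      have h4 : Metric.ball (0 : ℂ) 1 \ {0} ∈ 𝓝[≠] (0 : ℂ) := sdiff_mem_nhdsWithin_compl (Metric.ball_mem_nhds _ one_pos) _
      exact h4
    have h2 : ∀ᶠ z in 𝓝[≠] (0 : ℂ), ∃ h : ψ z ≠ 0, g z = Projectivization.mk ℂ (ψ z) h :=
      eventually_nhdsWithin_iff.2 (hpf.mono fun z hz h => hz h)
    filter_upwards [h1, h2, (eventually_all.2 hC).filter_mono nhdsWithin_le_nhds, eventually_all.2 hane] with z h3 h4 h5 h6
    exact ⟨h3, h4, h5, h6⟩
  obtain ⟨r, hr, hball⟩ : ∃ r > 0, ∀ z ∈ Metric.ball (0 : ℂ) r \ {0}, z ∈ puncturedDisc ∧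
      (∃ h : ψ z ≠ 0, g z = Projectivization.mk ℂ (ψ z) h) ∧ (∀ i l, ‖eval (ψ z) (α i l)‖ ≤ C i) ∧ ∀ i, a i z ≠ 0 := by
    obtain ⟨r, hr, h1⟩ := Metric.eventually_nhds_iff_ball.1 (eventually_nhdsWithin_iff.1 hev)
    exact ⟨r, hr, fun z hz => h1 z hz.1 hz.2⟩
  -- the coordinate `j` does not vanish
  have hj : ∀ z ∈ Metric.ball (0 : ℂ) r \ {0}, (f z).rep j ≠ 0 := by
    intro z hz h0
    obtain ⟨h1, ⟨h2, h3⟩, -, h5⟩ := hball z hz
    apply (f z).rep_nonzero
    funext i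
    have h6 := hrel i z h1 (f z).rep (f z).rep_nonzero (ψ z) h2 (f z).mk_rep.symm h3
    unfold rel at h6
    rw [Fin.sum_univ_castSucc] at h6
    have h7 : ∀ l : Fin (m i), eval (ψ z) (α i l.castSucc) * (f z).rep i ^ ((l.castSucc : Fin (m i + 1)) : ℕ) *
        (f z).rep j ^ (m i - ((l.castSucc : Fin (m i + 1)) : ℕ)) = 0 := by
      intro l
      have h8 : m i - ((l.castSucc : Fin (m i + 1)) : ℕ) ≠ 0 := by
        have := l.2
        rw [Fin.val_castSucc]
        omega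
      rw [h0, zero_pow h8, mul_zero]
    rw [Finset.sum_eq_zero fun l _ => h7 l, zero_add, Fin.val_last, Nat.sub_self, pow_zero, mul_one, mul_eq_zero] at h6
    exact eq_zero_of_pow_eq_zero (h6.resolve_left (h5 i))
  -- the normalized lift
  set S : ℂ → Fin (M + 1) → ℂ := fun w => ((f w).rep j)⁻¹ • (f w).rep with hS
  have hSmk : ∀ (w : ℂ) (x : Fin (M + 1) → ℂ) (hx : x ≠ 0), f w = Projectivization.mk ℂ x hx → S w = (x j)⁻¹ • x := by
    intro w x hx h
    obtain ⟨a, ha⟩ := Projectivization.exists_smul_eq_mk_rep ℂ x hx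
    have h1 : (f w).rep = (a : ℂ) • x := by rw [h]; exact ha.symm
    rw [hS]
    simp only [h1, Pi.smul_apply, smul_eq_mul]
    rw [smul_smul, mul_inv, mul_comm (a : ℂ)⁻¹, mul_assoc, inv_mul_cancel₀ a.ne_zero, mul_one]
  set A : ℂ → ℂ := fun z => ∏ i, a i z with hA
  have hAan : AnalyticAt ℂ A 0 := by
    have h1 : AnalyticAt ℂ (fun z => ∏ i, a i z) 0 := Finset.analyticAt_fun_prod _ fun i _ => han _
    exact h1
  -- the function is bounded and holomorphic
  obtain ⟨r', hr', hr'r, haball⟩ : ∃ r' > 0, r' ≤ r ∧ ∀ z ∈ Metric.ball (0 : ℂ) r', AnalyticAt ℂ A z := by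
    obtain ⟨ρ, hρ, h1⟩ := Metric.eventually_nhds_iff_ball.1 hAan.eventually_analyticAt
    exact ⟨min ρ r, lt_min hρ hr, min_le_right _ _, fun z hz => h1 z (Metric.ball_subset_ball (min_le_left _ _) hz)⟩
  have hsub : ∀ z ∈ Metric.ball (0 : ℂ) r' \ {0}, z ∈ Metric.ball (0 : ℂ) r \ {0} := fun z hz =>
    ⟨Metric.ball_subset_ball hr'r hz.1, hz.2⟩
  have hd : DifferentiableOn ℂ (fun z => A z • S z) (Metric.ball (0 : ℂ) r' \ {0}) := by
    intro w hw
    obtain ⟨φ, h4, h5⟩ := hf w (hball w (hsub w hw)).1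
    have h6 : φ w j ≠ 0 := by
      obtain ⟨h7, h8⟩ := h5.self_of_nhds
      obtain ⟨a, ha⟩ := Projectivization.exists_smul_eq_mk_rep ℂ (φ w) h7
      have h9 : (f w).rep = (a : ℂ) • φ w := by rw [h8]; exact ha.symm
      have h10 := hj w (hsub w hw)
      rw [h9] at h10
      exact right_ne_zero_of_mul h10
    have h7 : AnalyticAt ℂ (fun z => (φ z j)⁻¹ • φ z) w := by
      have h8 : AnalyticAt ℂ (fun z => φ z j) w := analyticAt_pi_iff.1 h4 j
      exact (h8.inv h6).smul h4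
    have h8 : AnalyticAt ℂ (fun z => A z • ((φ z j)⁻¹ • φ z)) w := (haball w hw.1).smul h7
    refine DifferentiableAt.differentiableWithinAt (h8.differentiableAt.congr_of_eventuallyEq ?_)
    filter_upwards [h5] with z hz
    obtain ⟨h8, h9⟩ := hz
    rw [hSmk z _ h8 h9]
  have hratio : ∀ z ∈ Metric.ball (0 : ℂ) r \ {0}, ∀ i, ‖a i z * S z i‖ ≤ C i * (m i + 1) := by
    intro z hz i
    obtain ⟨h1, ⟨h2, h3⟩, h4, h5⟩ := hball z hz
    have h6 := hrel i z h1 (f z).rep (f z).rep_nonzero (ψ z) h2 (f z).mk_rep.symm h3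
    unfold rel at h6
    have hjz := hj z hz
    have h8 : ∀ l : Fin (m i + 1), eval (ψ z) (α i l) * (f z).rep i ^ (l : ℕ) * (f z).rep j ^ (m i - (l : ℕ)) =
        (f z).rep j ^ m i * (eval (ψ z) (α i l) * (S z i) ^ (l : ℕ)) := by
      intro l
      have h9 : (l : ℕ) ≤ m i := Nat.lt_succ_iff.1 l.2
      have h10 : (f z).rep j ^ m i = (f z).rep j ^ (l : ℕ) * (f z).rep j ^ (m i - (l : ℕ)) := by
        rw [← pow_add, Nat.add_sub_cancel' h9]
      have h11 : S z i = (f z).rep i / (f z).rep j := by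
        change ((f z).rep j)⁻¹ * (f z).rep i = _
        rw [div_eq_inv_mul]
      rw [h10, h11, div_pow]
      field_simp
    rw [Finset.sum_congr rfl fun l _ => h8 l, ← Finset.mul_sum, mul_eq_zero] at h6
    exact root_bound (h4 i) (h6.resolve_left (pow_ne_zero _ hjz))
  have hb : BddAbove (norm ∘ (fun z => A z • S z) '' (Metric.ball (0 : ℂ) r' \ {0})) := by
    refine ⟨∑ i, (C i * (m i + 1)) * ∏ i' ∈ Finset.univ.erase i, C i', ?_⟩
    rintro _ ⟨w, hw, rfl⟩
    have hw' := hsub w hw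
    obtain ⟨-, -, h4, -⟩ := hball w hw'
    have hC0 : ∀ i, 0 ≤ C i := fun i => (norm_nonneg _).trans (h4 i 0)
    have hterm : ∀ i, 0 ≤ (C i * (m i + 1)) * ∏ i' ∈ Finset.univ.erase i, C i' := fun i =>
      mul_nonneg (mul_nonneg (hC0 i) (by positivity)) (Finset.prod_nonneg fun i' _ => hC0 i')
    change ‖A w • S w‖ ≤ _
    rw [pi_norm_le_iff_of_nonneg (Finset.sum_nonneg fun i _ => hterm i)]
    intro i
    refine le_trans ?_ (Finset.single_le_sum (f := fun i => (C i * (m i + 1)) * ∏ i' ∈ Finset.univ.erase i, C i')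
      (fun i _ => hterm i) (Finset.mem_univ i))
    change ‖A w * S w i‖ ≤ _
    have h5 : A w * S w i = (a i w * S w i) * ∏ i' ∈ Finset.univ.erase i, a i' w := by
      rw [hA]
      simp only
      rw [← Finset.mul_prod_erase Finset.univ (fun i => a i w) (Finset.mem_univ i)]
      ring
    rw [h5, norm_mul, norm_prod]
    refine mul_le_mul (hratio w hw' i) (Finset.prod_le_prod (fun i' _ => norm_nonneg _) fun i' _ => h4 i' _)
      (Finset.prod_nonneg fun i' _ => norm_nonneg _) (mul_nonneg (hC0 i) (by positivity))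
  have hu := Complex.differentiableOn_update_limUnder_of_bddAbove (Metric.ball_mem_nhds (0 : ℂ) hr') hd hb
  set S' : ℂ → Fin (M + 1) → ℂ := Function.update (fun z => A z • S z) 0 (limUnder (𝓝[≠] 0) fun z => A z • S z) with hS'
  have hS'a : AnalyticAt ℂ S' 0 := hu.analyticAt (Metric.ball_mem_nhds (0 : ℂ) hr')
  have hS'eq : ∀ w, w ≠ 0 → S' w = A w • S w := fun w hw => Function.update_of_ne hw _ _
  have hAne : ∀ z ∈ Metric.ball (0 : ℂ) r \ {0}, A z ≠ 0 := fun z hz => Finset.prod_ne_zero_iff.2 fun i _ => (hball z hz).2.2.2 i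
  have hSj : ∀ z ∈ Metric.ball (0 : ℂ) r \ {0}, S z j = 1 := fun z hz => inv_mul_cancel₀ (hj z hz)
  have hS'ne : ∀ z ∈ Metric.ball (0 : ℂ) r \ {0}, S' z ≠ 0 := by
    intro z hz h0
    have h1 := congrFun h0 j
    rw [hS'eq z hz.2] at h1
    change A z * S z j = 0 at h1
    rw [hSj z hz, mul_one] at h1
    exact hAne z hz h1
  have hnz : ¬ ∀ᶠ z in 𝓝 (0 : ℂ), S' z = 0 := by
    intro h0
    have h1 : ∀ᶠ z in 𝓝[≠] (0 : ℂ), z ∈ Metric.ball (0 : ℂ) r \ {0} :=
      sdiff_mem_nhdsWithin_compl (Metric.ball_mem_nhds _ hr) _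
    obtain ⟨z, h2, h3⟩ := ((h0.filter_mono nhdsWithin_le_nhds).and h1).exists
    exact hS'ne z h3 h2
  obtain ⟨n, Φ, hΦ, hΦ0, hΦe⟩ := (hS'a.exists_eventuallyEq_pow_smul_nonzero_iff).2 hnz
  refine Pool.Agent.H62.Qe.extend_of_pow hf le_rfl hΦ.continuousAt hΦ0 ?_
  filter_upwards [hΦe, Metric.ball_mem_nhds (0 : ℂ) hr] with z h1 h2 h3
  have h4 : z ∈ Metric.ball (0 : ℂ) r \ {0} := ⟨h2, h3⟩
  have h5 := hS'ne z h4
  have h6 : Φ z ≠ 0 := by
    intro h7
    rw [h7, smul_zero] at h1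
    exact h5 h1
  refine ⟨h6, ?_⟩
  rw [pow_one, ← (f z).mk_rep, Projectivization.mk_eq_mk_iff']
  rw [hS'eq z h3, sub_zero] at h1
  have h7 : A z ≠ 0 := hAne z h4
  have h8 : (f z).rep j ≠ 0 := hj z h4
  refine ⟨(f z).rep j * (A z)⁻¹ * z ^ n, ?_⟩
  rw [mul_smul, ← h1, smul_smul, mul_assoc, inv_mul_cancel₀ h7, mul_one]
  change (f z).rep j • (((f z).rep j)⁻¹ • (f z).rep) = _
  rw [smul_smul, mul_inv_cancel₀ h8, one_smul]

end Pool.Agent.H23.GU

end
end
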