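import Pool.Agent.H18.GGT.M26
import Pool.Agent.H18.GGT.M53
import Pool.Agent.H18.GGT.M54

/-! The parts of this file: GQ.Flr, GQ.Fmx, GQ.Prp, GQ.Low. -/

section

/-!
# GQ Flr: flow boxes of uniform size with a row whose determinant is bounded below

PROOF.  As `GG.unif`: at the centre `(0, Y)` of the flow box of `exists_Flow` the determinant of the row of `exists_row` is `≠ 0`, and it is a continuous function of
`q`, so it is bounded below on a smaller box.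
-/

set_option autoImplicit false

open MvPolynomial Topology Filter Metric
open Pool.Agent.H13.SM (conTan cone)
open Pool.Agent.GG

noncomputable section

namespace Pool.Agent.GQ

variable {N : ℕ} {P : Ideal (MvPolynomial (Fin (N + 1)) ℂ)} {J : ℕ} {m : Fin J → ℕ} {θ : ∀ k, SymSec P (m k)}

/-- the determinant of the row is bounded below near the centre of a flow box -/
private theorem Flr_near {ι : Type} {G : ι → MvPolynomial (Ph N) ℂ} {I : Fin (N + 1) → ι} {Y : Ph N → ℂ} {r K : ℝ} {H : ℂ × (Ph N → ℂ) → Fin (N + 1) → ℂ}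
    (hr : 0 < r) (hH : Flow G Y r r K H) (hI : eval Y (vdet G I) ≠ 0) :
    ∃ ρ > 0, ρ ≤ r ∧ ∀ q ∈ ball (0 : ℂ) ρ ×ˢ ball Y ρ,
      ‖eval Y (vdet G I)‖ / 2 ≤ ‖eval (pt (H q) (deriv (fun z => H (z, q.2)) q.1)) (vdet G I)‖ := by
  have hmem : ((0 : ℂ), Y) ∈ ball (0 : ℂ) r ×ˢ ball Y r := ⟨mem_ball_self hr, mem_ball_self hr⟩
  have hnhds : ball (0 : ℂ) r ×ˢ ball Y r ∈ 𝓝 ((0 : ℂ), Y) := (isOpen_ball.prod isOpen_ball).mem_nhds hmem
  -- the derivative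
  have hder : ∀ᶠ q in 𝓝 ((0 : ℂ), Y), deriv (fun z => H (z, q.2)) q.1 = fderiv ℂ H q (1, 0) := by
    filter_upwards [hnhds] with q hq
    have h1 : HasFDerivAt H (fderiv ℂ H q) q := (hH.an q hq).differentiableAt.hasFDerivAt
    have h2 : HasDerivAt (fun z : ℂ => (z, q.2)) ((1 : ℂ), (0 : Ph N → ℂ)) q.1 := (hasDerivAt_id q.1).prodMk (hasDerivAt_const q.1 q.2)
    exact (h1.comp_hasDerivAt q.1 h2).deriv
  have hcd : ContinuousAt (fun q : ℂ × (Ph N → ℂ) => deriv (fun z => H (z, q.2)) q.1) ((0 : ℂ), Y) := by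
    refine ContinuousAt.congr ?_ (hder.mono fun q hq => hq.symm)
    exact ((hH.an _ hmem).fderiv.continuousAt).clm_apply continuousAt_const
  have hcH : ContinuousAt H ((0 : ℂ), Y) := (hH.an _ hmem).continuousAt
  have hpt : ContinuousAt (fun q : ℂ × (Ph N → ℂ) => (pt (H q) (deriv (fun z => H (z, q.2)) q.1) : Ph N → ℂ)) ((0 : ℂ), Y) := by
    rw [continuousAt_pi]
    rintro (b | b)
    · exact (continuous_apply b).continuousAt.comp hcH
    · exact (continuous_apply b).continuousAt.comp hcd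
  have hcont : ContinuousAt (fun q : ℂ × (Ph N → ℂ) => ‖eval (pt (H q) (deriv (fun z => H (z, q.2)) q.1)) (vdet G I)‖) ((0 : ℂ), Y) :=
    ((MvPolynomial.continuous_eval (vdet G I)).continuousAt.comp hpt).norm
  have hval : eval (pt (H ((0 : ℂ), Y)) (deriv (fun z => H (z, Y)) 0)) (vdet G I) = eval Y (vdet G I) := by
    rw [hH.zero Y (mem_ball_self hr), hH.der Y (mem_ball_self hr)]
    have h1 : (pt (fun b => Y (Sum.inl b)) fun b => Y (Sum.inr b) : Ph N → ℂ) = Y := by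
      funext s
      rcases s with b | b <;> rfl
    rw [h1]
  have hpos : 0 < ‖eval Y (vdet G I)‖ := norm_pos_iff.2 hI
  have hev : ∀ᶠ q in 𝓝 ((0 : ℂ), Y), ‖eval Y (vdet G I)‖ / 2 < ‖eval (pt (H q) (deriv (fun z => H (z, q.2)) q.1)) (vdet G I)‖ := by
    refine hcont.eventually (lt_mem_nhds ?_)
    show _ < ‖eval (pt (H ((0 : ℂ), Y)) (deriv (fun z => H (z, Y)) 0)) (vdet G I)‖
    rw [hval]
    linarith
  obtain ⟨ρ, hρ, h⟩ := Metric.eventually_nhds_iff.1 hev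
  refine ⟨min ρ r, lt_min hρ hr, min_le_right _ _, fun q hq => (h ?_).le⟩
  rw [Prod.dist_eq]
  exact max_lt (lt_of_lt_of_le hq.1 (min_le_left _ _)) (lt_of_lt_of_le hq.2 (min_le_left _ _))

/-- Flow boxes of uniform size with rows whose determinant is bounded below (`exists_row`, `exists_Flow`, continuity at the centre, `Flow.anti`, compactness as
in `GG.unif`). -/
theorem unifR (hθ : Polar θ) (hm : ∀ k, 1 ≤ m k) (f : Frame θ) {C : Set (Fin J → ℂ)} (hC : IsCompact C) (h0 : (0 : Fin J → ℂ) ∉ C) :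
    ∃ r > 0, ∃ (K δ : ℝ), 0 < δ ∧ ∀ a, ∀ Y ∈ Kset θ a C, ∃ ε > 0, ∃ (H : ℂ × (Ph N → ℂ) → Fin (N + 1) → ℂ)
      (I : Fin (N + 1) → (Unit ⊕ Unit) ⊕ (Fin f.q ⊕ Fin f.q) ⊕ Fin J), Flow (gfam f a) Y r ε K H ∧
        ∀ q ∈ ball (0 : ℂ) r ×ˢ ball Y ε, δ ≤ ‖eval (pt (H q) (deriv (fun z => H (z, q.2)) q.1)) (vdet (gfam f a) I)‖ := by
  have key : ∀ a : Fin (N + 1), ∃ r > 0, ∃ (K δ : ℝ), 0 < δ ∧ ∀ Y ∈ Kset θ a C, ∃ ε > 0, ∃ (H : ℂ × (Ph N → ℂ) → Fin (N + 1) → ℂ)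
      (I : Fin (N + 1) → (Unit ⊕ Unit) ⊕ (Fin f.q ⊕ Fin f.q) ⊕ Fin J), Flow (gfam f a) Y r ε K H ∧
        ∀ q ∈ ball (0 : ℂ) r ×ˢ ball Y ε, δ ≤ ‖eval (pt (H q) (deriv (fun z => H (z, q.2)) q.1)) (vdet (gfam f a) I)‖ := by
    intro a
    refine (isCompact_Kset hθ hm a hC).induction_on (p := fun S => ∃ r > 0, ∃ (K δ : ℝ), 0 < δ ∧ ∀ Y ∈ S, ∃ ε > 0,
      ∃ (H : ℂ × (Ph N → ℂ) → Fin (N + 1) → ℂ) (I : Fin (N + 1) → (Unit ⊕ Unit) ⊕ (Fin f.q ⊕ Fin f.q) ⊕ Fin J), Flow (gfam f a) Y r ε K H ∧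
        ∀ q ∈ ball (0 : ℂ) r ×ˢ ball Y ε, δ ≤ ‖eval (pt (H q) (deriv (fun z => H (z, q.2)) q.1)) (vdet (gfam f a) I)‖) ?_ ?_ ?_ ?_
    · exact ⟨1, one_pos, 0, 1, one_pos, fun Y hY => absurd hY (Set.notMem_empty Y)⟩
    · rintro S T hST ⟨r, hr, K, δ, hδ, h⟩
      exact ⟨r, hr, K, δ, hδ, fun Y hY => h Y (hST hY)⟩
    · rintro S T ⟨r, hr, K, δ, hδ, h⟩ ⟨r', hr', K', δ', hδ', h'⟩
      refine ⟨min r r', lt_min hr hr', max K K', min δ δ', lt_min hδ hδ', ?_⟩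
      rintro Y (hY | hY)
      · obtain ⟨ε, hε, H, I, hH, hI⟩ := h Y hY
        exact ⟨ε, hε, H, I, hH.anti (min_le_left _ _) subset_rfl (le_max_left _ _), fun q hq =>
          (min_le_left _ _).trans (hI q ⟨ball_subset_ball (min_le_left _ _) hq.1, hq.2⟩)⟩
      · obtain ⟨ε, hε, H, I, hH, hI⟩ := h' Y hY
        exact ⟨ε, hε, H, I, hH.anti (min_le_right _ _) subset_rfl (le_max_right _ _), fun q hq =>
          (min_le_right _ _).trans (hI q ⟨ball_subset_ball (min_le_right _ _) hq.1, hq.2⟩)⟩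
    · rintro Y ⟨x, v, c, rfl, hT, -, hc⟩
      have hc0 : c ≠ 0 := fun h => h0 (h ▸ hc)
      obtain ⟨I, hI⟩ := exists_row hθ f hT (ne_zero_of_isTan hm hT hc0)
      obtain ⟨r, hr, K, H, hH⟩ := exists_Flow hI
      obtain ⟨ρ, hρ, hρr, hlow⟩ := Flr_near hr hH hI
      refine ⟨ball (pt x v) (ρ / 2), mem_nhdsWithin_of_mem_nhds (ball_mem_nhds _ (by positivity)), ρ, hρ, K, _,
        half_pos (norm_pos_iff.2 hI), fun Y' hY' => ?_⟩
      have h1 : dist Y' (pt x v) < ρ / 2 := hY'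
      have hsub : ball Y' (ρ / 2) ⊆ ball (pt x v) ρ := ball_subset_ball' (by linarith)
      refine ⟨ρ / 2, by positivity, H, I, hH.anti hρr (hsub.trans (ball_subset_ball hρr)) le_rfl, fun q hq => ?_⟩
      exact hlow q ⟨hq.1, hsub hq.2⟩
  choose ra hra Ka δa hδa hKa using key
  have hne : (Finset.univ : Finset (Fin (N + 1))).Nonempty := ⟨0, Finset.mem_univ 0⟩
  refine ⟨Finset.univ.inf' hne ra, (Finset.lt_inf'_iff hne).2 fun a _ => hra a, Finset.univ.sup' hne Ka, Finset.univ.inf' hne δa,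
    (Finset.lt_inf'_iff hne).2 fun a _ => hδa a, fun a Y hY => ?_⟩
  obtain ⟨ε, hε, H, I, hH, hI⟩ := hKa a Y hY
  exact ⟨ε, hε, H, I, hH.anti (Finset.inf'_le ra (Finset.mem_univ a)) subset_rfl (Finset.le_sup' Ka (Finset.mem_univ a)), fun q hq =>
    (Finset.inf'_le δa (Finset.mem_univ a)).trans (hI q ⟨ball_subset_ball (Finset.inf'_le ra (Finset.mem_univ a)) hq.1, hq.2⟩)⟩

end Pool.Agent.GQ

end
end

section

/-!
# GQ Fmx: the holomorphic family of entire curves, with the whole induction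

`GG.exists_Phi`, `GG.fam_start`, `GG.unif`, `GG.fam_step` as in `GG.exists_curves`.  `c s = θ (Y s)` for `s` near `0` (`nArc_of_arcAt`), continuous at `0`.
-/

set_option autoImplicit false

open MvPolynomial Topology Filter Metric
open Pool.Agent.H13.SM (conTan cone)
open Pool.Agent.H17 (PN)
open Pool.Agent.H62.FC (Homog)
open Pool.Agent.GG

noncomputable section

namespace Pool.Agent.GQ

variable {N : ℕ} {P : Ideal (MvPolynomial (Fin (N + 1)) ℂ)} {J : ℕ} {m : Fin J → ℕ} {θ : ∀ k, SymSec P (m k)}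

/-- the constants of a family are near `c 0` -/
private theorem fmx_near (hP : Homog P) (f : Frame θ) {d : ℕ} {a : Fin (N + 1)} {Y : (Fin d → ℂ) → Ph N → ℂ} {Φ : ℂ × (Fin d → ℂ) → PN N}
    {c : (Fin d → ℂ) → Fin J → ℂ} (hc : c 0 ≠ 0) (hΦ : ∀ s z, ArcAt θ (c s) (fun w => Φ (w, s)) z) (hF : FamAt θ Φ a Y 0) :
    ∀ᶠ s in 𝓝 (0 : Fin d → ℂ), c s ∈ closedBall (c 0) (‖c 0‖ / 2) := by
  have hcont : ContinuousAt (fun s : Fin d → ℂ => fun k => eval (Y s) (f.A a k)) 0 := by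
    rw [continuousAt_pi]
    intro k
    exact (AnalyticAt.comp (g := fun y : Ph N → ℂ => eval y (f.A a k)) (f := Y)
      (AnalyticOnNhd.eval_mvPolynomial (f.A a k) (Y 0) (Set.mem_univ _)) hF.1).continuousAt
  have hval : ∀ᶠ s in 𝓝 (0 : Fin d → ℂ), c s = fun k => eval (Y s) (f.A a k) := by
    filter_upwards [hF.2] with s hs
    obtain ⟨c', x, hx, hr, hY⟩ := hs
    obtain ⟨-, hT⟩ := arcV_of_nArc f (Fam1Aux.nArc_of_arcAt hP (hΦ s 0) hx hr)
    funext k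
    rw [← hT.2.2.2.2 k, f.hA a k (x 0) hT.1 hT.2.1 (deriv x 0) hT.2.2.1, hY]
  have h0 := hval.self_of_nhds
  have hpos : 0 < ‖c 0‖ := norm_pos_iff.2 hc
  have h1 : ∀ᶠ s in 𝓝 (0 : Fin d → ℂ), (fun k => eval (Y s) (f.A a k)) ∈ closedBall (c 0) (‖c 0‖ / 2) := by
    refine hcont.eventually ?_
    have h2 : (fun s : Fin d → ℂ => fun k => eval (Y s) (f.A a k)) 0 = c 0 := h0.symm
    rw [h2]
    exact closedBall_mem_nhds _ (by positivity)
  filter_upwards [hval, h1] with s hs hs1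
  rw [hs]
  exact hs1

/-- The proof of `GG.exists_curves` (Fam3) with more of the induction in the conclusion; `c s = θ (Y s)` is continuous at `0`. -/
theorem exists_fam (hP : Homog P) (hθ : Polar θ) (hm : ∀ k, 1 ≤ m k) (f : Frame θ) {d : ℕ} {a : Fin (N + 1)} {Y : (Fin d → ℂ) → Ph N → ℂ}
    (hY : AnalyticAt ℂ Y 0) (hI : ∀ᶠ s in 𝓝 (0 : Fin d → ℂ), ∃ x v c, Y s = pt x v ∧ IsTan θ a c x v ∧ c ≠ 0 ∧ IsInit (gfam f a) (Y s)) :
    ∃ (Φ : ℂ × (Fin d → ℂ) → PN N) (c : (Fin d → ℂ) → Fin J → ℂ), c 0 ≠ 0 ∧ (∀ s z, ArcAt θ (c s) (fun w => Φ (w, s)) z) ∧ FamAt θ Φ a Y 0 ∧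
      (∀ᶠ s in 𝓝 (0 : Fin d → ℂ), c s ∈ closedBall (c 0) (‖c 0‖ / 2)) ∧ (∀ z, ∃ F, RepN P Φ F (z, 0)) ∧
      ∃ C : ℝ, ∀ z, ∃ (a' : Fin (N + 1)) (Y' : (Fin d → ℂ) → Ph N → ℂ), FamAt θ Φ a' Y' z ∧ (∀ b, ‖Y' 0 (Sum.inl b)‖ ≤ 1) ∧
        ‖fderiv ℂ Y' 0‖ ≤ C * Real.exp (C * ‖z‖) := by
  obtain ⟨Φ, c, hc, hΦ, hFam⟩ := exists_Phi hP hθ hm f hY hI
  obtain ⟨⟨a₁, Y₁, hF₁, hb₁⟩, -⟩ := fam_start hP hθ hm f hc hΦ hFam
  obtain ⟨r, hr, K, hU⟩ := unif hθ hm f (isCompact_singleton (x := c 0)) (fun h => hc (Set.mem_singleton_iff.1 h).symm)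
  obtain ⟨K', hK', hstep⟩ := fam_step hP f hr hU
  have hK0 : 0 < K' := lt_of_lt_of_le one_pos hK'
  have step := hstep d Φ c (Set.mem_singleton _) hΦ
  have ind : ∀ (k : ℕ) (z : ℂ), ‖z‖ ≤ k * (r / 2) → ∃ (a' : Fin (N + 1)) (Y' : (Fin d → ℂ) → Ph N → ℂ),
      FamAt θ Φ a' Y' z ∧ (∀ b, ‖Y' 0 (Sum.inl b)‖ ≤ 1) ∧ ‖fderiv ℂ Y' 0‖ ≤ K' ^ k * ‖fderiv ℂ Y₁ 0‖ := by
    intro k
    induction k with
    | zero =>
      intro z hz
      have hz0 : z = 0 := by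
        rw [← norm_le_zero_iff]
        simpa using hz
      subst hz0
      exact ⟨a₁, Y₁, hF₁, hb₁, by simp⟩
    | succ k ih =>
      intro z hz
      have hk1 : (0 : ℝ) < k + 1 := by positivity
      have hz' : ‖z‖ ≤ (k + 1) * (r / 2) := by
        rw [Nat.cast_add_one] at hz
        exact hz
      obtain ⟨a₂, Y₂, hF₂, hb₂, hd₂⟩ := ih (((k / (k + 1) : ℝ) : ℂ) * z) (by
        rw [norm_mul, Complex.norm_real, Real.norm_of_nonneg (by positivity)]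
        calc (k / (k + 1) : ℝ) * ‖z‖ ≤ (k / (k + 1) : ℝ) * ((k + 1) * (r / 2)) := by
              apply mul_le_mul_of_nonneg_left hz' (by positivity)
          _ = k * (r / 2) := by field_simp)
      obtain ⟨-, a₃, Y₃, hF₃, hb₃, hd₃⟩ := step _ a₂ Y₂ hF₂ hb₂ z (by
        have h1 : z - ((k / (k + 1) : ℝ) : ℂ) * z = ((1 / (k + 1) : ℝ) : ℂ) * z := by
          have h2 : ((1 / (k + 1) : ℝ) : ℂ) = 1 - ((k / (k + 1) : ℝ) : ℂ) := by
            rw [← Complex.ofReal_one, ← Complex.ofReal_sub]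
            congr 1
            field_simp
            ring
          rw [h2]
          ring
        rw [h1, norm_mul, Complex.norm_real, Real.norm_of_nonneg (by positivity)]
        calc (1 / (k + 1) : ℝ) * ‖z‖ ≤ (1 / (k + 1) : ℝ) * ((k + 1) * (r / 2)) := by
              apply mul_le_mul_of_nonneg_left hz' (by positivity)
          _ = r / 2 := by field_simp
          _ < r := by linarith)
      refine ⟨a₃, Y₃, hF₃, hb₃, hd₃.trans ?_⟩
      calc K' * ‖fderiv ℂ Y₂ 0‖ ≤ K' * (K' ^ k * ‖fderiv ℂ Y₁ 0‖) := mul_le_mul_of_nonneg_left hd₂ hK0.le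
        _ = K' ^ (k + 1) * ‖fderiv ℂ Y₁ 0‖ := by ring
  have hk : ∀ z : ℂ, ‖z‖ ≤ (⌈‖z‖ / (r / 2)⌉₊ : ℝ) * (r / 2) := by
    intro z
    have h1 := Nat.le_ceil (‖z‖ / (r / 2))
    rwa [div_le_iff₀ (by positivity)] at h1
  refine ⟨Φ, c, hc, hΦ, hFam, fmx_near hP f hc hΦ hFam, fun z => ?_, K' * ‖fderiv ℂ Y₁ 0‖ + Real.log K' * (2 / r), fun z => ?_⟩
  · obtain ⟨a', Y', hF', hb', -⟩ := ind _ z (hk z)
    exact (step z a' Y' hF' hb' z (by simpa using hr)).1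
  · obtain ⟨a', Y', hF', hb', hd'⟩ := ind _ z (hk z)
    refine ⟨a', Y', hF', hb', ?_⟩
    have hlog : 0 ≤ Real.log K' := Real.log_nonneg hK'
    have hD : 0 ≤ ‖fderiv ℂ Y₁ 0‖ := norm_nonneg _
    have h2 : K' ^ ⌈‖z‖ / (r / 2)⌉₊ ≤ K' * Real.exp (Real.log K' * (2 / r) * ‖z‖) := by
      have h3 : (⌈‖z‖ / (r / 2)⌉₊ : ℝ) ≤ ‖z‖ / (r / 2) + 1 := (Nat.ceil_lt_add_one (by positivity)).le
      calc K' ^ ⌈‖z‖ / (r / 2)⌉₊ = Real.exp (Real.log K' * (⌈‖z‖ / (r / 2)⌉₊ : ℝ)) := by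
            rw [← Real.rpow_def_of_pos hK0, Real.rpow_natCast]
        _ ≤ Real.exp (Real.log K' * (‖z‖ / (r / 2) + 1)) := by
            apply Real.exp_le_exp.2
            exact mul_le_mul_of_nonneg_left h3 hlog
        _ = K' * Real.exp (Real.log K' * (2 / r) * ‖z‖) := by
            rw [mul_add, mul_one, Real.exp_add, Real.exp_log hK0, mul_comm]
            congr 2
            field_simp
    have h4 : Real.exp (Real.log K' * (2 / r) * ‖z‖) ≤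
        Real.exp ((K' * ‖fderiv ℂ Y₁ 0‖ + Real.log K' * (2 / r)) * ‖z‖) := by
      apply Real.exp_le_exp.2
      apply mul_le_mul_of_nonneg_right _ (norm_nonneg z)
      have : 0 ≤ K' * ‖fderiv ℂ Y₁ 0‖ := by positivity
      linarith
    have h5 : (0 : ℝ) ≤ Real.log K' * (2 / r) := by positivity
    calc ‖fderiv ℂ Y' 0‖ ≤ K' ^ ⌈‖z‖ / (r / 2)⌉₊ * ‖fderiv ℂ Y₁ 0‖ := hd'
      _ ≤ K' * Real.exp (Real.log K' * (2 / r) * ‖z‖) * ‖fderiv ℂ Y₁ 0‖ := mul_le_mul_of_nonneg_right h2 hD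
      _ = K' * ‖fderiv ℂ Y₁ 0‖ * Real.exp (Real.log K' * (2 / r) * ‖z‖) := by ring
      _ ≤ K' * ‖fderiv ℂ Y₁ 0‖ * Real.exp ((K' * ‖fderiv ℂ Y₁ 0‖ + Real.log K' * (2 / r)) * ‖z‖) :=
          mul_le_mul_of_nonneg_left h4 (by positivity)
      _ ≤ (K' * ‖fderiv ℂ Y₁ 0‖ + Real.log K' * (2 / r)) * Real.exp ((K' * ‖fderiv ℂ Y₁ 0‖ + Real.log K' * (2 / r)) * ‖z‖) := by
          apply mul_le_mul_of_nonneg_right _ (Real.exp_pos _).le
          linarith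

end Pool.Agent.GQ

end
end

section

/-!
# GQ Prp: one step of the propagation

`unifR` gives a flow box at `z'` in the good chart `a'`, of uniform size, with a row `I` whose determinant is bounded below.  Along the curve in the flow box (`flow_rep`) the generators `q a' j` satisfy
`q' = (A / vdet_I) q` (`arc_ode`, `hasDerivAt_eval`) with bounded coefficients: `gronwall_seg`.  At `z` the chart `a'` is compared with the good chart `a` by `hch` (`|w_a| ≥ 1`).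
-/

set_option autoImplicit false

open MvPolynomial Topology Filter Metric
open Pool.Agent.H13.SM (conTan cone)
open Pool.Agent.H17 (PN VanishesAt)
open Pool.Agent.H62.FC (Homog)
open Pool.Agent.GG

noncomputable section

namespace Pool.Agent.GQ

variable {N : ℕ} {P : Ideal (MvPolynomial (Fin (N + 1)) ℂ)} {J : ℕ} {m : Fin J → ℕ} {θ : ∀ k, SymSec P (m k)}

/-- a finite family of polynomials is bounded on a ball -/
private theorem prp_bdd {σ ι : Type} [Fintype σ] [Finite ι] (p : ι → MvPolynomial σ ℂ) (R : ℝ) :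
    ∃ C : ℝ, 0 ≤ C ∧ ∀ i, ∀ w : σ → ℂ, ‖w‖ ≤ R → ‖eval w (p i)‖ ≤ C := by
  have := Fintype.ofFinite ι
  have key : ∀ i, ∃ C : ℝ, ∀ w : σ → ℂ, ‖w‖ ≤ R → ‖eval w (p i)‖ ≤ C := fun i => by
    obtain ⟨C, hC⟩ := (isCompact_closedBall (0 : σ → ℂ) R).exists_bound_of_continuousOn (f := fun w => eval w (p i))
      (MvPolynomial.continuous_eval (p i)).continuousOn
    exact ⟨C, fun w hw => hC w (mem_closedBall_zero_iff.2 hw)⟩
  choose C hC using key
  refine ⟨∑ i, |C i|, Finset.sum_nonneg fun i _ => abs_nonneg _, fun i w hw => ?_⟩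
  exact (hC i w hw).trans ((le_abs_self _).trans
    (Finset.single_le_sum (f := fun i => |C i|) (fun i _ => abs_nonneg _) (Finset.mem_univ i)))

/-- position and velocity from a representative with `x_a = 1` -/
private theorem prp_ps {g : ℂ → PN N} {a : Fin (N + 1)} {x : ℂ → Fin (N + 1) → ℂ} {z : ℂ} (hr : Rep g x z) (hx : ∀ᶠ w in 𝓝 z, x w a = 1) :
    (g z).rep a ≠ 0 ∧ ps g a z = pt (x z) (deriv x z) := by
  have h1 : ∀ᶠ w in 𝓝 z, (g w).rep a ≠ 0 ∧ (fun i => (g w).rep i / (g w).rep a) = x w := by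
    filter_upwards [hr, hx] with w hw hxa
    obtain ⟨h, hg⟩ := hw
    obtain ⟨c, hc⟩ := Projectivization.exists_smul_eq_mk_rep ℂ (x w) h
    rw [← hg] at hc
    have h2 : ∀ i, (g w).rep i = (c : ℂ) * x w i := fun i => by
      rw [← hc]
      rfl
    have h3 : (g w).rep a = (c : ℂ) := by rw [h2, hxa, mul_one]
    refine ⟨?_, ?_⟩
    · rw [h3]
      exact c.ne_zero
    · funext i
      rw [h3, h2, mul_div_cancel_left₀ _ c.ne_zero]
  refine ⟨h1.self_of_nhds.1, ?_⟩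
  have h2 : (fun w i => (g w).rep i / (g w).rep a) =ᶠ[𝓝 z] x := h1.mono fun w hw => hw.2
  unfold ps
  rw [h2.deriv_eq]
  have h3 := h2.self_of_nhds
  simp only at h3
  rw [h3]

private theorem prp_gd {g : ℂ → PN N} {a : Fin (N + 1)} {z : ℂ} (h : Gd g a z) : (g z).rep a ≠ 0 := by
  intro h0
  refine (g z).rep_nonzero (funext fun b => ?_)
  have h1 := h b
  rw [h0, norm_zero] at h1
  exact norm_le_zero_iff.1 h1

private theorem prp_norm {x v : Fin (N + 1) → ℂ} {K : ℝ} (hx : ‖x‖ ≤ K) (hv : ‖v‖ ≤ K) : ‖(pt x v : Ph N → ℂ)‖ ≤ K := by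
  refine (pi_norm_le_iff_of_nonneg ((norm_nonneg _).trans hx)).2 ?_
  rintro (b | b)
  · exact (norm_le_pi_norm x b).trans hx
  · exact (norm_le_pi_norm v b).trans hv

/-- a sum with bounded coefficients -/
private theorem prp_sum {k S : ℕ} (hk : k ≤ S) {A x : Fin k → ℂ} {C : ℝ} (hC : 0 ≤ C) (hA : ∀ i, ‖A i‖ ≤ C) : ‖∑ i, A i * x i‖ ≤ S * C * ‖x‖ := by
  calc ‖∑ i, A i * x i‖ ≤ ∑ i, ‖A i * x i‖ := norm_sum_le _ _
    _ ≤ ∑ _i : Fin k, C * ‖x‖ := by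
        refine Finset.sum_le_sum fun i _ => ?_
        rw [norm_mul]
        exact mul_le_mul (hA i) (norm_le_pi_norm x i) (norm_nonneg _) hC
    _ = k * (C * ‖x‖) := by
        rw [Finset.sum_const, Finset.card_univ, Fintype.card_fin, nsmul_eq_mul]
    _ ≤ S * (C * ‖x‖) := by
        have h1 : (k : ℝ) ≤ S := by exact_mod_cast hk
        exact mul_le_mul_of_nonneg_right h1 (mul_nonneg hC (norm_nonneg _))
    _ = S * C * ‖x‖ := by ring

/-- One step: in the flow box at `z` (chart `a`, `GG.Fam1Aux.flow_rep`) the generators `q a j` of the ideal `𝔞 a` satisfy the linear equation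
`q' = (A / vdet_I) q` with bounded coefficients; `hch` compares the charts `a` and `a'` at `z'`. -/
theorem prop_step (hP : Homog P) (hθ : Polar θ) (hm : ∀ k, 1 ≤ m k) (f : Frame θ) {C : Set (Fin J → ℂ)} (hC : IsCompact C) (h0 : (0 : Fin J → ℂ) ∉ C)
    (𝔞 : Fin (N + 1) → Ideal (MvPolynomial (Ph N) ℂ)) (hst : ∀ a, X a ∉ P → ∀ I, ∀ g ∈ 𝔞 a, Dt (gfam f a) I g ∈ 𝔞 a)
    (hch : ∀ a b, X a ∉ P → X b ∉ P → ∀ g ∈ 𝔞 a, ∃ (M : ℕ), ∃ Q ∈ 𝔞 b, ∀ w : Ph N → ℂ, w (Sum.inl b) = 1 → w (Sum.inr b) = 0 →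
      w (Sum.inl a) ≠ 0 → eval w Q = w (Sum.inl a) ^ M * eval (nm a w) g)
    {s : Fin (N + 1) → ℕ} (q : ∀ a, Fin (s a) → MvPolynomial (Ph N) ℂ) (hq : ∀ a, Ideal.span (Set.range (q a)) = 𝔞 a) :
    ∃ r > 0, ∃ K ≥ 1, ∀ c ∈ C, ∀ g : ℂ → PN N, (∀ z, ArcAt θ c g z) → ∀ (z z' : ℂ) (a a' : Fin (N + 1)), Gd g a z → Gd g a' z' → ‖z' - z‖ < r →
      ‖fun j => eval (ps g a z) (q a j)‖ ≤ K * ‖fun j => eval (ps g a' z') (q a' j)‖ := by
  classical
  obtain ⟨r, hr, K₀, δ, hδ, hU⟩ := unifR hθ hm f hC h0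
  -- the matrices of the vector fields
  have hA : ∀ p : Σ a : Fin (N + 1), ((Fin (N + 1) → (Unit ⊕ Unit) ⊕ (Fin f.q ⊕ Fin f.q) ⊕ Fin J) × Fin (s a)),
      ∃ A : Fin (s p.1) → MvPolynomial (Ph N) ℂ, X p.1 ∉ P → Dt (gfam f p.1) p.2.1 (q p.1 p.2.2) = ∑ k, A k * q p.1 k := by
    rintro ⟨a, I, j⟩
    by_cases ha : X a ∈ P
    · exact ⟨0, fun h => absurd ha h⟩
    · have h1 := hst a ha I (q a j) (by rw [← hq a]; exact Ideal.subset_span ⟨j, rfl⟩)
      rw [← hq a] at h1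
      obtain ⟨A, hA⟩ := (Ideal.mem_span_range_iff_exists_fun).1 h1
      exact ⟨A, fun _ => hA.symm⟩
  choose A hA using hA
  obtain ⟨CA, hCA, hAb⟩ := prp_bdd (fun p : Σ p : (Σ a : Fin (N + 1), ((Fin (N + 1) → (Unit ⊕ Unit) ⊕ (Fin f.q ⊕ Fin f.q) ⊕ Fin J) × Fin (s a))), Fin (s p.1) =>
    A p.1 p.2) K₀
  -- the changes of the charts
  have hB : ∀ p : Σ a : Fin (N + 1), (Fin (N + 1) × Fin (s a)), ∃ (M : ℕ) (B : Fin (s p.2.1) → MvPolynomial (Ph N) ℂ), X p.1 ∉ P → X p.2.1 ∉ P →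
      ∀ w : Ph N → ℂ, w (Sum.inl p.2.1) = 1 → w (Sum.inr p.2.1) = 0 → w (Sum.inl p.1) ≠ 0 →
        ∑ k, eval w (B k) * eval w (q p.2.1 k) = w (Sum.inl p.1) ^ M * eval (nm p.1 w) (q p.1 p.2.2) := by
    rintro ⟨a, a', j⟩
    by_cases ha : X a ∈ P
    · exact ⟨0, 0, fun h => absurd ha h⟩
    by_cases ha' : X a' ∈ P
    · exact ⟨0, 0, fun _ h => absurd ha' h⟩
    obtain ⟨M, Q, hQ, h1⟩ := hch a a' ha ha' (q a j) (by rw [← hq a]; exact Ideal.subset_span ⟨j, rfl⟩)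
    rw [← hq a'] at hQ
    obtain ⟨B, hB⟩ := (Ideal.mem_span_range_iff_exists_fun).1 hQ
    refine ⟨M, B, fun _ _ w hw1 hw2 hw3 => ?_⟩
    rw [← h1 w hw1 hw2 hw3, ← hB, map_sum]
    exact Finset.sum_congr rfl fun k _ => (map_mul _ _ _).symm
  choose M B hB using hB
  obtain ⟨CB, hCB, hBb⟩ := prp_bdd (fun p : Σ p : (Σ a : Fin (N + 1), (Fin (N + 1) × Fin (s a))), Fin (s p.2.1) => B p.1 p.2) K₀
  obtain ⟨S, hS⟩ : ∃ S : ℕ, ∀ a, s a ≤ S := ⟨∑ a, s a, fun a => Finset.single_le_sum (f := s) (fun _ _ => Nat.zero_le _) (Finset.mem_univ a)⟩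
  obtain ⟨B₀, hB₀⟩ : ∃ B₀ : ℝ, B₀ = S * CA / δ := ⟨_, rfl⟩
  refine ⟨r, hr, max 1 (S * CB * Real.exp (|B₀| * r)), le_max_left _ _, ?_⟩
  intro c hc g hg z z' a a' hga hga' hzz
  have hra := prp_gd hga
  have hra' := prp_gd hga'
  obtain ⟨hN, hR, hXa', hT, -⟩ := ps_arc hP (hg z') hra'
  obtain ⟨-, -, hXa, -, -⟩ := ps_arc hP (hg z) hra
  obtain ⟨Y, hY⟩ : ∃ Y : Ph N → ℂ, Y = ps g a' z' := ⟨_, rfl⟩
  have hYK : Y ∈ Kset θ a' C := by
    refine ⟨_, _, c, hY, hT, fun b => ?_, hc⟩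
    rw [norm_div]
    exact (div_le_one (norm_pos_iff.2 hra')).2 (hga' b)
  obtain ⟨ε, hε, H, I, hF, hdet⟩ := hU a' Y hYK
  have hfl : ∀ w ∈ ball z' r, NArc θ a' c (fun w' => H (w' - z', Y)) w ∧ Rep g (fun w' => H (w' - z', Y)) w := by
    have h1 := Fam1Aux.flow_rep f hg hN hR hr hF (by
      rw [hY]
      exact mem_ball_self hε)
    intro w hw
    have h2 := h1 w hw
    rw [hY]
    exact h2
  obtain ⟨x, hx⟩ : ∃ x : ℂ → Fin (N + 1) → ℂ, x = fun w' => H (w' - z', Y) := ⟨_, rfl⟩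
  rw [← hx] at hfl
  obtain ⟨y, hy⟩ : ∃ y : ℂ → Ph N → ℂ, y = fun w => pt (x w) (deriv x w) := ⟨_, rfl⟩
  have hyw : ∀ w, y w = pt (H (w - z', Y)) (deriv (fun z => H (z, Y)) (w - z')) := by
    intro w
    have h1 : deriv x w = deriv (fun z => H (z, Y)) (w - z') := by
      rw [hx]
      exact deriv_comp_sub_const (f := fun z => H (z, Y)) z' w
    rw [hy]
    show pt (x w) (deriv x w) = _
    rw [h1, hx]
  have hbox : ∀ w ∈ ball z' r, ((w - z', Y) : ℂ × (Ph N → ℂ)) ∈ ball (0 : ℂ) r ×ˢ ball Y ε := by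
    intro w hw
    refine ⟨?_, mem_ball_self hε⟩
    rw [mem_ball_zero_iff, ← dist_eq_norm]
    exact mem_ball.1 hw
  have hyb : ∀ w ∈ ball z' r, ‖y w‖ ≤ K₀ := by
    intro w hw
    obtain ⟨h1, h2, -⟩ := hF.bound _ (hbox w hw)
    rw [hyw]
    exact prp_norm h1 h2
  have hyd : ∀ w ∈ ball z' r, δ ≤ ‖eval (y w) (vdet (gfam f a') I)‖ := by
    intro w hw
    have h1 := hdet _ (hbox w hw)
    rw [hyw]
    exact h1
  have hode : ∀ w ∈ ball z' r, HasDerivAt y (W (gfam f a') I (y w)) w := by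
    intro w hw
    have h1 : eval (pt (x w) (deriv x w)) (vdet (gfam f a') I) ≠ 0 := by
      have h2 := hyd w hw
      rw [hy] at h2
      intro h3
      have h4 : eval ((fun w => pt (x w) (deriv x w)) w) (vdet (gfam f a') I) = 0 := h3
      rw [h4, norm_zero] at h2
      linarith
    have h2 := (arc_ode (arcV_of_nArc f (hfl w hw).1).1 h1).self_of_nhds
    rw [hy]
    exact h2
  have hqd : ∀ w ∈ ball z' r, ∀ j, HasDerivAt (fun w => eval (y w) (q a' j))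
      ((∑ k, eval (y w) (A ⟨a', I, j⟩ k) * eval (y w) (q a' k)) / eval (y w) (vdet (gfam f a') I)) w := by
    intro w hw j
    have h1 := hasDerivAt_eval (hode w hw) (q a' j)
    have h2 := hA ⟨a', I, j⟩ hXa'
    rw [h2, map_sum] at h1
    simpa only [map_mul] using h1
  have hQd : ∀ w ∈ ball z' r, HasDerivAt (fun w j => eval (y w) (q a' j))
      (fun j => (∑ k, eval (y w) (A ⟨a', I, j⟩ k) * eval (y w) (q a' k)) / eval (y w) (vdet (gfam f a') I)) w := by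
    intro w hw
    rw [hasDerivAt_pi]
    exact hqd w hw
  have hgr := gronwall_seg (q := fun w j => eval (y w) (q a' j)) (z₀ := z') (r := r) (B := B₀) (fun w hw => (hQd w hw).differentiableAt) (by
    intro w hw
    rw [(hQd w hw).deriv]
    have hB₀' : 0 ≤ B₀ := by rw [hB₀]; positivity
    refine (pi_norm_le_iff_of_nonneg (mul_nonneg hB₀' (norm_nonneg _))).2 fun j => ?_
    rw [norm_div, div_le_iff₀ (lt_of_lt_of_le hδ (hyd w hw))]
    have h1 := prp_sum (hS a') (A := fun k => eval (y w) (A ⟨a', I, j⟩ k)) (x := fun k => eval (y w) (q a' k)) hCA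
      (fun k => hAb ⟨⟨a', I, j⟩, k⟩ (y w) (hyb w hw))
    refine h1.trans ?_
    have h2 : (S : ℝ) * CA * ‖fun k => eval (y w) (q a' k)‖ = B₀ * ‖fun k => eval (y w) (q a' k)‖ * δ := by
      rw [hB₀]
      field_simp
    rw [h2]
    exact mul_le_mul_of_nonneg_left (hyd w hw) (mul_nonneg hB₀' (norm_nonneg _))) (z := z') (z' := z) (mem_ball_self hr) (by
      rw [mem_ball, dist_eq_norm, norm_sub_rev]
      exact hzz)
  have hzb : z ∈ ball z' r := by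
    rw [mem_ball, dist_eq_norm, norm_sub_rev]
    exact hzz
  have hps : ∀ w ∈ ball z' r, (g w).rep a' ≠ 0 ∧ ps g a' w = y w := by
    intro w hw
    have h1 := prp_ps (hfl w hw).2 ((hfl w hw).1.2.mono fun w' hw' => hw'.2.1)
    rw [hy]
    exact h1
  obtain ⟨hza', hpsz⟩ := hps z hzb
  have hchg := ps_chg hP (hg z) hza' hra
  obtain ⟨-, hx1, -, hv0, -⟩ := (arcV_of_nArc f (hfl z hzb).1).2
  have hw1 : y z (Sum.inl a') = 1 := by rw [hy]; exact hx1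
  have hw2 : y z (Sum.inr a') = 0 := by rw [hy]; exact hv0
  have hwa : 1 ≤ ‖y z (Sum.inl a)‖ := by
    rw [← hpsz]
    show 1 ≤ ‖(g z).rep a / (g z).rep a'‖
    rw [norm_div, one_le_div (norm_pos_iff.2 hza')]
    exact hga a'
  have hwa0 : y z (Sum.inl a) ≠ 0 := norm_pos_iff.1 (lt_of_lt_of_le one_pos hwa)
  have hfin : ‖fun j => eval (ps g a z) (q a j)‖ ≤ S * CB * ‖fun j => eval (y z) (q a' j)‖ := by
    refine (pi_norm_le_iff_of_nonneg (by positivity)).2 fun j => ?_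
    have h1 := hB ⟨a, a', j⟩ hXa hXa' (y z) hw1 hw2 hwa0
    have h2 := prp_sum (hS a') (A := fun k => eval (y z) (B ⟨a, a', j⟩ k)) (x := fun k => eval (y z) (q a' k)) hCB
      (fun k => hBb ⟨⟨a, a', j⟩, k⟩ (y z) (hyb z hzb))
    rw [hchg, hpsz]
    refine le_trans ?_ h2
    have h3 : ‖∑ k, eval (y z) (B ⟨a, a', j⟩ k) * eval (y z) (q a' k)‖ = ‖y z (Sum.inl a)‖ ^ M ⟨a, a', j⟩ * ‖eval (nm a (y z)) (q a j)‖ := by
      rw [← norm_pow, ← norm_mul]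
      exact congrArg _ h1
    rw [h3]
    exact le_mul_of_one_le_left (norm_nonneg _) (one_le_pow₀ hwa)
  rw [(hps z' (mem_ball_self hr)).2]
  have hexp : Real.exp (|B₀| * ‖z - z'‖) ≤ Real.exp (|B₀| * r) := by
    refine Real.exp_le_exp.2 (mul_le_mul_of_nonneg_left ?_ (abs_nonneg _))
    rw [norm_sub_rev]
    exact hzz.le
  calc ‖fun j => eval (ps g a z) (q a j)‖ ≤ S * CB * ‖fun j => eval (y z) (q a' j)‖ := hfin
    _ ≤ S * CB * (Real.exp (|B₀| * ‖z - z'‖) * ‖fun j => eval (y z') (q a' j)‖) := mul_le_mul_of_nonneg_left hgr (by positivity)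
    _ ≤ S * CB * (Real.exp (|B₀| * r) * ‖fun j => eval (y z') (q a' j)‖) :=
        mul_le_mul_of_nonneg_left (mul_le_mul_of_nonneg_right hexp (norm_nonneg _)) (by positivity)
    _ = S * CB * Real.exp (|B₀| * r) * ‖fun j => eval (y z') (q a' j)‖ := by ring
    _ ≤ max 1 (S * CB * Real.exp (|B₀| * r)) * ‖fun j => eval (y z') (q a' j)‖ := mul_le_mul_of_nonneg_right (le_max_right _ _) (norm_nonneg _)

end Pool.Agent.GQ

end
end

section

/-!
# GQ Low: propagation of zeros and the lower bound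

`prop_zero` and `prop_low`, from `prop_step`.
-/

set_option autoImplicit false

open MvPolynomial Topology Filter Metric
open Pool.Agent.H13.SM (conTan cone)
open Pool.Agent.H17 (PN VanishesAt)
open Pool.Agent.H17LG.Variety (FunField ratio PoleAtMost IsLogGeneralType)
open Pool.Agent.H23.Fano (Form PrimeDivisorOver)
open Pool.Agent.H62.FC (Homog)
open Pool.Agent.GG

noncomputable section

namespace Pool.Agent.GQ

variable {N : ℕ} {P : Ideal (MvPolynomial (Fin (N + 1)) ℂ)} {J : ℕ} {m : Fin J → ℕ} {θ : ∀ k, SymSec P (m k)}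

namespace LowAux

/-- there is a good chart -/
theorem exists_Gd (g : ℂ → PN N) (z : ℂ) : ∃ a, Gd g a z :=
  Finite.exists_max fun b : Fin (N + 1) => ‖(g z).rep b‖

theorem Gd_ne {g : ℂ → PN N} {a : Fin (N + 1)} {z : ℂ} (h : Gd g a z) : (g z).rep a ≠ 0 := by
  intro h0
  apply (g z).rep_nonzero
  funext b
  have h1 := h b
  rw [h0, norm_zero] at h1
  exact norm_le_zero_iff.mp h1

/-- zeros of the ideals in two charts -/
theorem pt_chg (hP : Homog P) {𝔞 : Fin (N + 1) → Ideal (MvPolynomial (Ph N) ℂ)}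
    (hch : ∀ a b, X a ∉ P → X b ∉ P → ∀ g ∈ 𝔞 a, ∃ (M : ℕ), ∃ Q ∈ 𝔞 b, ∀ w : Ph N → ℂ, w (Sum.inl b) = 1 → w (Sum.inr b) = 0 →
      w (Sum.inl a) ≠ 0 → eval w Q = w (Sum.inl a) ^ M * eval (nm a w) g)
    {c : Fin J → ℂ} {g : ℂ → PN N} {z : ℂ} (hg : ArcAt θ c g z) {a b : Fin (N + 1)} (ha : (g z).rep a ≠ 0) (hb : (g z).rep b ≠ 0)
    (h : Pt (𝔞 a) (ps g a z)) : Pt (𝔞 b) (ps g b z) := by
  intro q hq
  obtain ⟨-, -, hXa, htan, -⟩ := ps_arc hP hg ha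
  obtain ⟨-, -, hXb, -, -⟩ := ps_arc hP hg hb
  obtain ⟨M, Q, hQ, hw⟩ := hch b a hXb hXa q hq
  have h1 : ps g a z (Sum.inl a) = 1 := div_self ha
  have h2 : ps g a z (Sum.inr a) = 0 := htan.2.2.2.1
  have h3 : ps g a z (Sum.inl b) ≠ 0 := div_ne_zero hb ha
  have h4 := hw (ps g a z) h1 h2 h3
  rw [h Q hQ, ← ps_chg hP hg ha hb] at h4
  exact (mul_eq_zero.mp h4.symm).resolve_left (pow_ne_zero M h3)

/-- the size of the generators vanishes exactly at the zeros of the ideal -/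
theorem norm_zero_iff {s : ℕ} {q : Fin s → MvPolynomial (Ph N) ℂ} {I : Ideal (MvPolynomial (Ph N) ℂ)} (hq : Ideal.span (Set.range q) = I) {w : Ph N → ℂ} :
    ‖fun j => eval w (q j)‖ = 0 ↔ Pt I w := by
  rw [norm_eq_zero]
  constructor
  · intro h
    have h1 : I ≤ RingHom.ker (eval w) := by
      rw [← hq, Ideal.span_le]
      rintro _ ⟨j, rfl⟩
      exact RingHom.mem_ker.mpr (congrFun h j)
    intro g hg
    exact RingHom.mem_ker.mp (h1 hg)
  · intro h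
    funext j
    refine h (q j) ?_
    rw [← hq]
    exact Ideal.subset_span ⟨j, rfl⟩

/-- finitely many steps -/
theorem chain {g : ℂ → PN N} {F : Fin (N + 1) → ℂ → ℝ} {r K : ℝ} (hr : 0 < r) (hK : 0 ≤ K)
    (hs : ∀ (z z' : ℂ) (a a' : Fin (N + 1)), Gd g a z → Gd g a' z' → ‖z' - z‖ < r → F a z ≤ K * F a' z') (n : ℕ) :
    ∀ (z z' : ℂ) (a a' : Fin (N + 1)), Gd g a z → Gd g a' z' → ‖z' - z‖ < ((n : ℝ) + 1) * r → F a z ≤ K ^ (n + 1) * F a' z' := by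
  induction n with
  | zero =>
    intro z z' a a' ha ha' h
    have h1 : ‖z' - z‖ < r := by simpa using h
    simpa using hs z z' a a' ha ha' h1
  | succ n ih =>
    intro z z' a a' ha ha' h
    have hn : (0 : ℝ) < (n : ℝ) + 1 := by positivity
    have hn2 : (0 : ℝ) < (n : ℝ) + 1 + 1 := by positivity
    push_cast at h
    set t : ℝ := ((n : ℝ) + 1) / ((n : ℝ) + 1 + 1) with ht
    have ht0 : 0 < t := div_pos hn hn2
    have ht1 : 1 - t = 1 / ((n : ℝ) + 1 + 1) := by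
      rw [ht]
      field_simp
      ring
    obtain ⟨b, hb⟩ := exists_Gd g (z + (t : ℂ) * (z' - z))
    have h1 : ‖z + (t : ℂ) * (z' - z) - z‖ < ((n : ℝ) + 1) * r := by
      rw [add_sub_cancel_left, norm_mul, Complex.norm_real, Real.norm_of_nonneg ht0.le]
      calc t * ‖z' - z‖ < t * (((n : ℝ) + 1 + 1) * r) := mul_lt_mul_of_pos_left h ht0
        _ = ((n : ℝ) + 1) * r := by
          rw [ht]
          field_simp
    have h2 : ‖z' - (z + (t : ℂ) * (z' - z))‖ < r := by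
      have h3 : z' - (z + (t : ℂ) * (z' - z)) = ((1 - t : ℝ) : ℂ) * (z' - z) := by
        push_cast
        ring
      have h4 : 0 < 1 - t := by
        rw [ht1]
        positivity
      rw [h3, norm_mul, Complex.norm_real, Real.norm_of_nonneg h4.le]
      calc (1 - t) * ‖z' - z‖ < (1 - t) * (((n : ℝ) + 1 + 1) * r) := mul_lt_mul_of_pos_left h h4
        _ = r := by
          rw [ht1]
          field_simp
    have h5 := ih z _ a b ha hb h1
    have h6 := hs _ z' b a' hb ha' h2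
    calc F a z ≤ K ^ (n + 1) * F b (z + (t : ℂ) * (z' - z)) := h5
      _ ≤ K ^ (n + 1) * (K * F a' z') := mul_le_mul_of_nonneg_left h6 (pow_nonneg hK _)
      _ = K ^ (n + 1 + 1) * F a' z' := by ring

/-- generators of the ideals -/
theorem exists_gen (𝔞 : Fin (N + 1) → Ideal (MvPolynomial (Ph N) ℂ)) :
    ∃ (s : Fin (N + 1) → ℕ) (q : ∀ a, Fin (s a) → MvPolynomial (Ph N) ℂ), ∀ a, Ideal.span (Set.range (q a)) = 𝔞 a := by
  have h1 : ∀ a, ∃ (s : ℕ) (q : Fin s → MvPolynomial (Ph N) ℂ), Ideal.span (Set.range q) = 𝔞 a := fun a => by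
    obtain ⟨n, q, hq⟩ := Submodule.fg_iff_exists_fin_generating_family.mp ((isNoetherianRing_iff_ideal_fg _).mp inferInstance (𝔞 a))
    exact ⟨n, q, hq⟩
  choose s q hq using h1
  exact ⟨s, q, hq⟩

end LowAux

open LowAux

/-- Zeros of the ideals propagate (`prop_step`, induction over the steps; to and from the charts which are not good with `hch`). -/
theorem prop_zero (hP : Homog P) (hθ : Polar θ) (hm : ∀ k, 1 ≤ m k) (f : Frame θ) (𝔞 : Fin (N + 1) → Ideal (MvPolynomial (Ph N) ℂ))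
    (hst : ∀ a, X a ∉ P → ∀ I, ∀ g ∈ 𝔞 a, Dt (gfam f a) I g ∈ 𝔞 a)
    (hch : ∀ a b, X a ∉ P → X b ∉ P → ∀ g ∈ 𝔞 a, ∃ (M : ℕ), ∃ Q ∈ 𝔞 b, ∀ w : Ph N → ℂ, w (Sum.inl b) = 1 → w (Sum.inr b) = 0 →
      w (Sum.inl a) ≠ 0 → eval w Q = w (Sum.inl a) ^ M * eval (nm a w) g)
    {c : Fin J → ℂ} (hc : c ≠ 0) {g : ℂ → PN N} (hg : ∀ z, ArcAt θ c g z) {z₀ : ℂ} {a₀ : Fin (N + 1)} (ha₀ : (g z₀).rep a₀ ≠ 0)
    (h : Pt (𝔞 a₀) (ps g a₀ z₀)) (z : ℂ) (a : Fin (N + 1)) (ha : (g z).rep a ≠ 0) : Pt (𝔞 a) (ps g a z) := by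
  obtain ⟨s, q, hq⟩ := exists_gen 𝔞
  obtain ⟨r, hr, K, hK, hstep⟩ := prop_step hP hθ hm f (isCompact_singleton (x := c)) (fun h0 => hc (Set.mem_singleton_iff.mp h0).symm) 𝔞 hst hch q hq
  obtain ⟨b, hb⟩ := exists_Gd g z
  obtain ⟨b₀, hb₀⟩ := exists_Gd g z₀
  have h1 : ‖fun j => eval (ps g b₀ z₀) (q b₀ j)‖ = 0 := (norm_zero_iff (hq b₀)).mpr (pt_chg hP hch (hg z₀) ha₀ (Gd_ne hb₀) h)
  obtain ⟨n, hn⟩ := exists_nat_gt (‖z₀ - z‖ / r)
  have h2 : ‖z₀ - z‖ < ((n : ℝ) + 1) * r := by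
    have h3 := (div_lt_iff₀ hr).mp hn
    nlinarith
  have h4 := chain (F := fun a z => ‖fun j => eval (ps g a z) (q a j)‖) hr (le_trans zero_le_one hK)
    (fun z z' a a' => hstep c rfl g hg z z' a a') n z z₀ b b₀ hb hb₀ h2
  simp only [h1, mul_zero] at h4
  exact pt_chg hP hch (hg z) (Gd_ne hb) ha ((norm_zero_iff (hq b)).mp (le_antisymm h4 (norm_nonneg _)))

/-- The lower bound. -/
theorem prop_low (hP : Homog P) (hθ : Polar θ) (hm : ∀ k, 1 ≤ m k) (f : Frame θ) (𝔞 : Fin (N + 1) → Ideal (MvPolynomial (Ph N) ℂ))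
    (hst : ∀ a, X a ∉ P → ∀ I, ∀ g ∈ 𝔞 a, Dt (gfam f a) I g ∈ 𝔞 a)
    (hch : ∀ a b, X a ∉ P → X b ∉ P → ∀ g ∈ 𝔞 a, ∃ (M : ℕ), ∃ Q ∈ 𝔞 b, ∀ w : Ph N → ℂ, w (Sum.inl b) = 1 → w (Sum.inr b) = 0 →
      w (Sum.inl a) ≠ 0 → eval w Q = w (Sum.inl a) ^ M * eval (nm a w) g)
    {s : Fin (N + 1) → ℕ} (q : ∀ a, Fin (s a) → MvPolynomial (Ph N) ℂ) (hq : ∀ a, Ideal.span (Set.range (q a)) = 𝔞 a)
    {c : Fin J → ℂ} (hc : c ≠ 0) {g : ℂ → PN N} (hg : ∀ z, ArcAt θ c g z) {a₀ : Fin (N + 1)} (ha₀ : (g 0).rep a₀ ≠ 0)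
    (h : ∃ j, eval (ps g a₀ 0) (q a₀ j) ≠ 0) :
    ∃ C > 0, ∀ (z : ℂ) (a : Fin (N + 1)), Gd g a z → ∃ j, Real.exp (-(C * (‖z‖ + 1))) ≤ ‖eval (ps g a z) (q a j)‖ := by
  obtain ⟨r, hr, K, hK, hstep⟩ := prop_step hP hθ hm f (isCompact_singleton (x := c)) (fun h0 => hc (Set.mem_singleton_iff.mp h0).symm) 𝔞 hst hch q hq
  obtain ⟨b, hb⟩ := exists_Gd g 0
  have hK0 : 0 < K := lt_of_lt_of_le one_pos hK
  have hδ : 0 < ‖fun j => eval (ps g b 0) (q b j)‖ := by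
    refine lt_of_le_of_ne (norm_nonneg _) fun h0 => ?_
    obtain ⟨j, hj⟩ := h
    refine hj (pt_chg hP hch (hg 0) (Gd_ne hb) ha₀ ((norm_zero_iff (hq b)).mp h0.symm) (q a₀ j) ?_)
    rw [← hq a₀]
    exact Ideal.subset_span ⟨j, rfl⟩
  set δ : ℝ := ‖fun j => eval (ps g b 0) (q b j)‖ with hδ'
  have hlK : 0 ≤ Real.log K := Real.log_nonneg hK
  have hC0 : 0 ≤ |Real.log δ| + Real.log K * (1 / r + 1) := by positivity
  refine ⟨|Real.log δ| + Real.log K * (1 / r + 1) + 1, by positivity, fun z a ha => ?_⟩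
  set n : ℕ := ⌊‖z‖ / r⌋₊ with hn
  have h1 : ‖z - 0‖ < ((n : ℝ) + 1) * r := by
    rw [sub_zero]
    exact (div_lt_iff₀ hr).mp (Nat.lt_floor_add_one _)
  have h2 : (n : ℝ) ≤ ‖z‖ / r := Nat.floor_le (by positivity)
  have h4 := chain (F := fun a z => ‖fun j => eval (ps g a z) (q a j)‖) hr hK0.le
    (fun z z' a a' => hstep c rfl g hg z z' a a') n 0 z b a hb ha h1
  simp only [← hδ'] at h4
  have h5 : Real.exp (-((|Real.log δ| + Real.log K * (1 / r + 1) + 1) * (‖z‖ + 1))) ≤ ‖fun j => eval (ps g a z) (q a j)‖ := by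
    have h6 : δ / K ^ (n + 1) ≤ ‖fun j => eval (ps g a z) (q a j)‖ := by
      rw [div_le_iff₀ (pow_pos hK0 _), mul_comm]
      exact h4
    refine le_trans ?_ h6
    have h7 : Real.exp (Real.log δ - ((n : ℝ) + 1) * Real.log K) = δ / K ^ (n + 1) := by
      rw [Real.exp_sub, Real.exp_log hδ]
      congr 1
      rw [← Real.exp_log (pow_pos hK0 (n + 1)), Real.log_pow]
      push_cast
      rfl
    rw [← h7]
    apply Real.exp_le_exp.mpr
    have h8 : -|Real.log δ| ≤ Real.log δ := neg_abs_le _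
    have h9 : ((n : ℝ) + 1) * Real.log K ≤ (‖z‖ / r + 1) * Real.log K := mul_le_mul_of_nonneg_right (by linarith) hlK
    have h10 : 0 ≤ ‖z‖ := norm_nonneg z
    have h11 : 0 ≤ 1 / r := by positivity
    have h12 : (‖z‖ / r + 1) * Real.log K ≤ Real.log K * (1 / r + 1) * (‖z‖ + 1) := by
      have h13 : ‖z‖ / r = ‖z‖ * (1 / r) := by ring
      rw [h13]
      have h14 : ‖z‖ * (1 / r) + 1 ≤ (1 / r + 1) * (‖z‖ + 1) := by nlinarith
      calc (‖z‖ * (1 / r) + 1) * Real.log K ≤ ((1 / r + 1) * (‖z‖ + 1)) * Real.log K := mul_le_mul_of_nonneg_right h14 hlK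
        _ = Real.log K * (1 / r + 1) * (‖z‖ + 1) := by ring
    have h15 : |Real.log δ| ≤ |Real.log δ| * (‖z‖ + 1) := by
      have := abs_nonneg (Real.log δ)
      nlinarith
    nlinarith
  -- the norm is attained
  have h16 : 0 < ‖fun j => eval (ps g a z) (q a j)‖ := lt_of_lt_of_le (Real.exp_pos _) h5
  by_contra hcon
  push Not at hcon
  have h17 : ‖fun j => eval (ps g a z) (q a j)‖ < Real.exp (-((|Real.log δ| + Real.log K * (1 / r + 1) + 1) * (‖z‖ + 1))) := by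
    rw [pi_norm_lt_iff (Real.exp_pos _)]
    exact hcon
  exact absurd h5 (not_le.mpr h17)

end Pool.Agent.GQ

end
end
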