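import Pool.Agent.H18.GGT.GBL.Lfr
import Pool.Agent.H18.GGT.M26
import Pool.Agent.H18.GGT.M52
import Pool.Agent.H18.GGT.M65
import Pool.Agent.H18.GGT.M68

/-! The parts of this file: GTL.EtC, GTL.EtD, H62.Qe.Dom, GTL.EtIm, GTL.EtL, H23.GU.Down. -/

section

/-!
# GTL EtC: pluricanonical forms and logarithmic frames

PROOF.  `exists_smul_mk`: `H23.exists_basis_kaehler`, `H23.eq_fc_smul`.  `regL_of_pole`: the converse of `GBL.pole_of_regL`: let `e` be a frame at `E`, `b`, `g` as in `LFr`; `PoleAtMost`: `ω = g₀ • η`, `η` regular at `E`, so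
`fc b η ∈ O` (`H23.mem_regularForms_iff`, or closure induction: `fc b (mk c a) = c * det (dualDer b i (a j))`), `fc b ω = c * jac z b`; so `f (c * jac z b) ^ m = (f g₀ ^ m) (fc b η) ^ m`; on the boundary
`jacL z e = g i₀ * jac z b` with `E.ord (g i₀) = 1`, and the power of `g i₀` compensates the pole.
`regL_ldet`: `exists_lfr` gives a frame `e` at `E`; `D i = ∑ l, D i (g l) • dualDer b l = ∑ l, a i l • e l` with `a i l ∈ O` (`D i (g l)`, resp. `D i (g i₀) / g i₀`); `det (D i (z j)) = det a * jacL z e`.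
-/

set_option autoImplicit false

open Pool.Agent.H23.Fano (PrimeDivisorOver Form)
open Pool.Agent.H17LG.Variety (PoleAtMost)
open Pool.Agent.GBL (LDer LFr RegL jacL)
open Pool.Agent.H23 (dualDer)
open Pool.Agent.GB (jac)

noncomputable section

namespace Pool.Agent.GTL

variable {K : Type} [Field K] [Algebra ℂ K] {k : ℕ} {Bd : PrimeDivisorOver K k → Prop}

private lemma mk_one (z : Fin k → K) : (Form.mk 1 z : Form K k) = exteriorPower.ιMulti K k fun i => KaehlerDifferential.D ℂ K (z i) := by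
  change (1 : K) • (exteriorPower.ιMulti K k fun i => KaehlerDifferential.D ℂ K (z i)) = _
  rw [one_smul]

theorem exists_smul_mk {z : Fin k → K} (hz : IsTranscendenceBasis ℂ z) (ω : Form K k) : ∃ c : K, ω = c • Form.mk 1 z := by
  obtain ⟨b, hb⟩ := Pool.Agent.H23.exists_basis_kaehler hz
  refine ⟨Pool.Agent.H23.fc b ω, ?_⟩
  have h1 := Pool.Agent.H23.eq_fc_smul b ω
  simp only [hb] at h1
  rw [mk_one]
  exact h1

theorem mk_ne_zero {z : Fin k → K} (hz : IsTranscendenceBasis ℂ z) : (Form.mk 1 z : Form K k) ≠ 0 := by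
  obtain ⟨b, hb⟩ := Pool.Agent.H23.exists_basis_kaehler hz
  intro h
  have h1 := Pool.Agent.H23.fc_self b
  have h2 : (exteriorPower.ιMulti K k fun i => b i) = Form.mk 1 z := by
    rw [mk_one]
    simp only [hb]
  rw [h2, h] at h1
  have h3 : Pool.Agent.H23.fc b (0 : Form K k) = 0 := map_zero (Pool.Agent.H23.fc b)
  rw [h3] at h1
  exact one_ne_zero h1.symm

private lemma jacL_scale' {e : Fin k → Derivation ℂ K K} {b : Module.Basis (Fin k) K Ω[K⁄ℂ]} {u : Fin k → K} (he : ∀ i, e i = u i • dualDer b i) (z : Fin k → K) :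
    jacL z e = (∏ i, u i) * jac z b := by
  classical
  have hm : (Matrix.of fun i j => e i (z j)) = Matrix.diagonal u * (Matrix.of fun i j => dualDer b i (z j)) := by
    ext i j
    rw [Matrix.diagonal_mul, Matrix.of_apply, Matrix.of_apply, he i, Derivation.smul_apply, smul_eq_mul]
  unfold jacL jac
  rw [hm, Matrix.det_mul, Matrix.det_diagonal]

theorem regL_of_pole {z : Fin k → K} (hz : IsTranscendenceBasis ℂ z) {m : ℕ} {f c : K} {ω : Form K k} (hω : ω = c • Form.mk 1 z)
    (h : ∀ E : PrimeDivisorOver K k, (¬ Bd E → PoleAtMost 0 E m f ω) ∧ (Bd E → PoleAtMost m E m f ω)) : RegL Bd z m (f * c ^ m) := by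
  classical
  intro E e hL
  obtain ⟨g, b, hb, hg, hreg, hcase⟩ := hL
  -- the coordinate of the form
  have hfc : Pool.Agent.H23.fc b ω = c * jac z b := by
    have h1 : Pool.Agent.H23.fc b (Form.mk 1 z : Form K k) = jac z b := by
      rw [mk_one, Pool.Agent.H23.fc_ιMulti, Module.Basis.det_apply]
      rfl
    rw [hω]
    have h2 : Pool.Agent.H23.fc b (c • (Form.mk 1 z : Form K k)) = c • Pool.Agent.H23.fc b (Form.mk 1 z : Form K k) :=
      map_smul (Pool.Agent.H23.fc b) c _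
    rw [h2, h1, smul_eq_mul]
  -- the regular form
  have key : ∀ (g₀ : K) (η : Form K k), η ∈ Pool.Agent.H23.Fano.regularForms k E.localRing → ω = g₀ • η →
      ∃ v : K, 0 ≤ E.ord v ∧ c * jac z b = g₀ * v := by
    intro g₀ η hη hωη
    refine ⟨Pool.Agent.H23.fc b η, ?_, ?_⟩
    · have h1 := (Pool.Agent.H23.mem_regularForms_iff (Pool.Agent.H23.ofFano E).localRing b (a := g) hb hg hreg η).1 hη
      exact h1
    · rw [← hfc, hωη]
      have h2 : Pool.Agent.H23.fc b (g₀ • η) = g₀ • Pool.Agent.H23.fc b η := map_smul (Pool.Agent.H23.fc b) g₀ _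
      rw [h2, smul_eq_mul]
  rcases hcase with ⟨hB, he⟩ | ⟨hB, i₀, ht, he⟩
  · obtain ⟨g₀, η, hη, hωη, hord⟩ := (h E).1 hB
    obtain ⟨v, hv, hcv⟩ := key g₀ η hη hωη
    have hj : jacL z e = jac z b := by
      rw [jacL_scale' (b := b) (u := fun _ => 1) (fun i => by rw [he i, one_smul])]
      simp
    have h1 : f * c ^ m * jacL z e ^ m = (f * g₀ ^ m) * v ^ m := by
      rw [hj, mul_assoc, ← mul_pow, hcv, mul_pow, mul_assoc]
    rw [h1, E.ord.map_mul, E.ord.map_pow]
    have h2 : 0 ≤ E.ord (f * g₀ ^ m) := by simpa using hord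
    exact add_nonneg h2 (nsmul_nonneg hv m)
  · obtain ⟨g₀, η, hη, hωη, hord⟩ := (h E).2 hB
    obtain ⟨v, hv, hcv⟩ := key g₀ η hη hωη
    have hj : jacL z e = g i₀ * jac z b := by
      rw [jacL_scale' (b := b) (u := fun i => if i = i₀ then g i₀ else 1)]
      · rw [Finset.prod_ite_eq' Finset.univ i₀ (fun _ => g i₀), if_pos (Finset.mem_univ _)]
      · intro i
        rw [he i]
        split_ifs with hi
        · rw [hi]
        · rw [one_smul]
    have h1 : f * c ^ m * jacL z e ^ m = (f * g₀ ^ m) * g i₀ ^ m * v ^ m := by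
      have h2 : c * (g i₀ * jac z b) = g₀ * g i₀ * v := by
        rw [mul_left_comm, hcv]
        ring
      rw [hj, mul_assoc, ← mul_pow, h2]
      ring
    rw [h1, E.ord.map_mul, E.ord.map_mul, E.ord.map_pow, E.ord.map_pow, ht, nsmul_one]
    exact add_nonneg hord (nsmul_nonneg hv m)

private lemma der_expand (b : Module.Basis (Fin k) K Ω[K⁄ℂ]) {g : Fin k → K} (hb : ∀ i, b i = KaehlerDifferential.D ℂ K (g i)) (D : Derivation ℂ K K) (x : K) :
    D x = ∑ l, D (g l) * dualDer b l x := by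
  have h1 : D x = D.liftKaehlerDifferential (KaehlerDifferential.D ℂ K x) := by
    rw [Derivation.liftKaehlerDifferential_comp_D]
  rw [h1, ← b.sum_repr (KaehlerDifferential.D ℂ K x), map_sum]
  refine Finset.sum_congr rfl fun l _ => ?_
  rw [map_smul, hb l, Derivation.liftKaehlerDifferential_comp_D, smul_eq_mul, mul_comm, Pool.Agent.H23.dualDer_apply]

private lemma det_nonneg' (E : PrimeDivisorOver K k) (A : Matrix (Fin k) (Fin k) K) (hA : ∀ i j, 0 ≤ E.ord (A i j)) : 0 ≤ E.ord A.det :=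
  Pool.Agent.H23.det_mem (Pool.Agent.H23.ofFano E).localRing A hA

theorem regL_ldet [Algebra.EssFiniteType ℂ K] (hk : 1 ≤ k) {z : Fin k → K} (hz : IsTranscendenceBasis ℂ z) {m : ℕ} {f : K} (h : RegL Bd z m f)
    {E : PrimeDivisorOver K k} {D : Fin k → Derivation ℂ K K} (hD : ∀ i, LDer Bd E (D i)) :
    0 ≤ E.ord (f * (Matrix.of fun i j => D i (z j)).det ^ m) := by
  classical
  obtain ⟨e, hL⟩ := Pool.Agent.GBL.exists_lfr hk hz Bd E
  have hf := h E e hL
  obtain ⟨g, b, hb, hg, hreg, hcase⟩ := hL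
  have key : ∃ A : Matrix (Fin k) (Fin k) K, (∀ i j, 0 ≤ E.ord (A i j)) ∧ (Matrix.of fun i j => D i (z j)) = A * (Matrix.of fun i j => e i (z j)) := by
    rcases hcase with ⟨hB, he⟩ | ⟨hB, i₀, ht, he⟩
    · refine ⟨Matrix.of fun i l => D i (g l), fun i l => ?_, ?_⟩
      · rw [Matrix.of_apply]
        exact (hD i).1 _ (hg l)
      · ext i j
        rw [Matrix.mul_apply, Matrix.of_apply, der_expand b hb (D i) (z j)]
        refine Finset.sum_congr rfl fun l _ => ?_
        rw [Matrix.of_apply, Matrix.of_apply, he l]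
    · have ht0 : g i₀ ≠ 0 := by
        intro h0
        rw [h0, E.ord.map_zero] at ht
        exact absurd ht (by decide)
      refine ⟨Matrix.of fun i l => if l = i₀ then D i (g i₀) / g i₀ else D i (g l), fun i l => ?_, ?_⟩
      · rw [Matrix.of_apply]
        split_ifs with hl
        · exact (hD i).2 hB _ ht0
        · exact (hD i).1 _ (hg l)
      · ext i j
        rw [Matrix.mul_apply, Matrix.of_apply, der_expand b hb (D i) (z j)]
        refine Finset.sum_congr rfl fun l _ => ?_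
        rw [Matrix.of_apply, Matrix.of_apply, he l]
        split_ifs with hl
        · rw [hl, Derivation.smul_apply, smul_eq_mul]
          field_simp
        · rfl
  obtain ⟨A, hA, hAe⟩ := key
  have h1 : f * (Matrix.of fun i j => D i (z j)).det ^ m = (f * jacL z e ^ m) * A.det ^ m := by
    rw [hAe, Matrix.det_mul, mul_pow]
    unfold jacL
    ring
  rw [h1, E.ord.map_mul, E.ord.map_pow]
  exact add_nonneg hf (nsmul_nonneg (det_nonneg' E A hA) m)

end Pool.Agent.GTL

end
end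

section

/-!
# GTL EtD: log general type descends to `K` from a finite extension `K'` which is unramified off the boundary

PROOF.  `regL_coeff`: `E`, `e` with `LFr Bd E e`, `J := jacL z e ≠ 0` (`LFr.jac_ne`).  `y := f * (algebraMap J) ^ m`.  For `E'` over `E`: extensions `D' i` of `e i` (`exists_ext_der`), `LDer Bd' E' (D' i)` (`LFr.lDer`, `lder_ext`),
`det (D' i (z' j)) = algebraMap J`; so `0 ≤ E'.ord y` (`regL_ldet`).  So `minpoly K y` has coefficients regular at `E` (`integral_of_over`), and `minpoly K y = (minpoly K f).scaleRoots (J ^ m)` (`IsIntegrallyClosed.minpoly_smul`).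
`lgt_descend`: from `IsLogGeneralType Bd'`: `m`, `ω = c • Form.mk 1 z'` (`exists_smul_mk`), `RegL Bd' z' m (f i * c ^ m)` (`regL_of_pole`); replace `f i` by `g i := f i * c ^ m` (the quotients are the same).  `L := (max degree)!`.
Forms over `K`, of weight `L * m`: `(coefficient of index d i - j of minpoly (g i)) ^ (L / j)`, first `(minpoly (g 0)).coeff 0 ^ (L / d 0) ≠ 0`; `RegL` (powers), `pole_of_regL`, `alg_descend`.
-/

set_option autoImplicit false

open Pool.Agent.H23.Fano (PrimeDivisorOver Form)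
open Pool.Agent.H17LG.Variety (IsLogGeneralType)
open Pool.Agent.GBL (LDer LFr RegL jacL)

noncomputable section

namespace Pool.Agent.GTL

variable {K K' : Type} [Field K] [Algebra ℂ K] [Field K'] [Algebra ℂ K'] [Algebra K K'] [IsScalarTower ℂ K K'] {k : ℕ}

theorem regL_coeff [Algebra.EssFiniteType ℂ K] [FiniteDimensional K K'] (hk : 1 ≤ k) {z : Fin k → K} (hz : IsTranscendenceBasis ℂ z)
    {Bd : PrimeDivisorOver K k → Prop} {Bd' : PrimeDivisorOver K' k → Prop}
    (hB : ∀ (E : PrimeDivisorOver K k) (E' : PrimeDivisorOver K' k) (e : ℕ), Over E E' e → (Bd E ↔ Bd' E'))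
    (hU : ∀ (E : PrimeDivisorOver K k) (E' : PrimeDivisorOver K' k) (e : ℕ), Over E E' e → ¬ Bd E → e = 1) {m : ℕ} {f : K'}
    (hf : RegL Bd' (fun i => algebraMap K K' (z i)) m f) {j : ℕ} (hj : j ≤ (minpoly K f).natDegree) :
    RegL Bd z (j * m) ((minpoly K f).coeff ((minpoly K f).natDegree - j)) := by
  intro E e he
  have : Algebra.EssFiniteType ℂ K' := Algebra.EssFiniteType.comp ℂ K K'
  have hz' : IsTranscendenceBasis ℂ (fun i => algebraMap K K' (z i)) := hz.algebraMap_comp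
  have hJ : jacL z e ≠ 0 := LFr.jac_ne hz he
  have hJm : jacL z e ^ m ≠ 0 := pow_ne_zero m hJ
  have hint : IsIntegral K f := Algebra.IsIntegral.isIntegral f
  choose D' hD' using fun i => exists_ext_der (K' := K') (e i)
  have hall : ∀ (E' : PrimeDivisorOver K' k) (e' : ℕ), Over E E' e' → 0 ≤ E'.ord ((jacL z e ^ m) • f) := by
    intro E' e' hO
    have h1 := regL_ldet hk hz' hf (E := E') (D := D') fun i =>
      lder_ext hk hz hO (hB E E' e' hO).2 (hU E E' e' hO) (he.lDer i) (hD' i)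
    have h2 : (Matrix.of fun i j => D' i (algebraMap K K' (z j))).det = algebraMap K K' (jacL z e) := by
      rw [jacL, RingHom.map_det]
      congr 1
      ext i j
      rw [Matrix.of_apply, hD', RingHom.mapMatrix_apply, Matrix.map_apply, Matrix.of_apply]
    rw [h2] at h1
    rwa [Algebra.smul_def, map_pow, mul_comm]
  have h3 := integral_of_over E hall ((minpoly K f).natDegree - j)
  rw [IsIntegrallyClosed.minpoly_smul hJm hint, Polynomial.coeff_scaleRoots, Nat.sub_sub_self hj, ← pow_mul, mul_comm m j] at h3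
  exact h3

private lemma regL_pow {Bd : PrimeDivisorOver K k → Prop} {z : Fin k → K} {l : ℕ} {f : K} (h : RegL Bd z l f) (a : ℕ) :
    RegL Bd z (a * l) (f ^ a) := by
  intro E e he
  have h1 : f ^ a * jacL z e ^ (a * l) = (f * jacL z e ^ l) ^ a := by
    rw [mul_pow, ← pow_mul, mul_comm a l]
  rw [h1, E.ord.map_pow]
  exact nsmul_nonneg (h E e he) a

theorem lgt_descend [Algebra.EssFiniteType ℂ K] [FiniteDimensional K K'] (hk : 1 ≤ k) {z : Fin k → K} (hz : IsTranscendenceBasis ℂ z)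
    {Bd : PrimeDivisorOver K k → Prop} {Bd' : PrimeDivisorOver K' k → Prop}
    (hB : ∀ (E : PrimeDivisorOver K k) (E' : PrimeDivisorOver K' k) (e : ℕ), Over E E' e → (Bd E ↔ Bd' E'))
    (hU : ∀ (E : PrimeDivisorOver K k) (E' : PrimeDivisorOver K' k) (e : ℕ), Over E E' e → ¬ Bd E → e = 1)
    (h : IsLogGeneralType Bd') : IsLogGeneralType Bd := by
  classical
  obtain ⟨m, hm, ω, hω0, r, f, hf0, hpole, halg⟩ := h
  have : Algebra.EssFiniteType ℂ K' := Algebra.EssFiniteType.comp ℂ K K'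
  have hz' : IsTranscendenceBasis ℂ (fun i => algebraMap K K' (z i)) := hz.algebraMap_comp
  obtain ⟨c, hc⟩ := exists_smul_mk hz' ω
  have hc0 : c ≠ 0 := by
    rintro rfl
    exact hω0 (by rw [hc, zero_smul])
  have hcm : c ^ m ≠ 0 := pow_ne_zero m hc0
  obtain ⟨g, hg⟩ : ∃ g : Fin (r + 1) → K', ∀ i, g i = f i * c ^ m := ⟨fun i => f i * c ^ m, fun _ => rfl⟩
  have hg0 : g 0 ≠ 0 := by
    rw [hg]
    exact mul_ne_zero hf0 hcm
  have hgr : ∀ i, RegL Bd' (fun i => algebraMap K K' (z i)) m (g i) := fun i => by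
    rw [hg]
    exact regL_of_pole hz' hc (hpole i)
  have hgq : (fun i => g i / g 0) = fun i => f i / f 0 := by
    funext i
    rw [hg, hg, mul_div_mul_right _ _ hcm]
  have halg' : Algebra.IsAlgebraic (IntermediateField.adjoin ℂ (Set.range fun i => g i / g 0)) K' := by
    rw [hgq]
    exact halg
  have hint : ∀ i, IsIntegral K (g i) := fun i => Algebra.IsIntegral.isIntegral (g i)
  obtain ⟨L, hLe⟩ : ∃ L, L = (∑ i, (minpoly K (g i)).natDegree).factorial := ⟨_, rfl⟩
  have hL0 : 0 < L := by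
    rw [hLe]
    exact Nat.factorial_pos _
  have hL : ∀ i j, 1 ≤ j → j ≤ (minpoly K (g i)).natDegree → j ∣ L := by
    intro i j h1 h2
    rw [hLe]
    exact Nat.dvd_factorial h1 (le_trans h2 (Finset.single_le_sum (f := fun i => (minpoly K (g i)).natDegree) (fun _ _ => Nat.zero_le _) (Finset.mem_univ i)))
  -- the forms
  obtain ⟨a, ha⟩ : ∃ a : Fin (r + 1) → ℕ → K, ∀ i j, a i j = (minpoly K (g i)).coeff ((minpoly K (g i)).natDegree - j) ^ (L / j) := ⟨_, fun _ _ => rfl⟩
  have har : ∀ i j, 1 ≤ j → j ≤ (minpoly K (g i)).natDegree → RegL Bd z (L * m) (a i j) := by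
    intro i j h1 h2
    have h3 := regL_pow (regL_coeff hk hz hB hU (hgr i) h2) (L / j)
    rw [← mul_assoc, Nat.div_mul_cancel (hL i j h1 h2)] at h3
    rw [ha]
    exact h3
  have hd0 : 1 ≤ (minpoly K (g 0)).natDegree := minpoly.natDegree_pos (hint 0)
  have ha0 : a 0 (minpoly K (g 0)).natDegree = (minpoly K (g 0)).coeff 0 ^ (L / (minpoly K (g 0)).natDegree) := by
    rw [ha, Nat.sub_self]
  obtain ⟨F, hF0, hFs⟩ : ∃ F : Fin (Fintype.card (Σ i : Fin (r + 1), Fin (minpoly K (g i)).natDegree) + 1) → K,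
      F 0 = a 0 (minpoly K (g 0)).natDegree ∧
      ∀ t, F (Fin.succ t) = a ((Fintype.equivFin (Σ i : Fin (r + 1), Fin (minpoly K (g i)).natDegree)).symm t).1
        (((Fintype.equivFin (Σ i : Fin (r + 1), Fin (minpoly K (g i)).natDegree)).symm t).2 + 1) :=
    ⟨Fin.cons (a 0 (minpoly K (g 0)).natDegree) fun t =>
      a ((Fintype.equivFin (Σ i : Fin (r + 1), Fin (minpoly K (g i)).natDegree)).symm t).1
        (((Fintype.equivFin (Σ i : Fin (r + 1), Fin (minpoly K (g i)).natDegree)).symm t).2 + 1), Fin.cons_zero _ _, fun t => Fin.cons_succ _ _ t⟩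
  have hFr : ∀ t, RegL Bd z (L * m) (F t) := by
    intro t
    refine Fin.cases ?_ (fun t => ?_) t
    · rw [hF0]
      exact har 0 _ hd0 le_rfl
    · rw [hFs]
      exact har _ _ (Nat.le_add_left 1 _) (Nat.succ_le_of_lt (Fin.is_lt _))
  have hF0' : F 0 ≠ 0 := by
    rw [hF0, ha0]
    exact pow_ne_zero _ (minpoly.coeff_zero_ne_zero (hint 0) hg0)
  refine ⟨L * m, Nat.mul_pos hL0 hm, Form.mk 1 z, mk_ne_zero hz, _, F, hF0', fun t E => Pool.Agent.GBL.pole_of_regL hk hz (hFr t) E, ?_⟩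
  refine alg_descend hg0 halg' hL0 hL _ fun i j h1 h2 => ?_
  apply IntermediateField.subset_adjoin
  obtain ⟨j, rfl⟩ : ∃ j', j = j' + 1 := ⟨j - 1, by omega⟩
  refine ⟨Fin.succ (Fintype.equivFin (Σ i : Fin (r + 1), Fin (minpoly K (g i)).natDegree) ⟨i, ⟨j, h2⟩⟩), ?_⟩
  change F _ / F 0 = _
  rw [hFs, hF0, ha0, Equiv.symm_apply_apply, ha]

end Pool.Agent.GTL

end
end

section

/-!
# Qe Dom: the forms which define a regular map (adapted from `Pool.Agent.H62.Et.Dom`)
-/

set_option autoImplicit false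

open Topology Filter MvPolynomial

noncomputable section

namespace Pool.Agent.H62.Qe

open Pool.Agent.H17 (PN VanishesAt HolomorphicInto)
open Pool.Agent.H62.FC (Homog)
open Pool.Agent.H17EF (projVar)
open Pool.Agent.H62.EF (MN)
open Pool.Agent.H62.Et (pn pn_mk pn_injective pn_near pn_continuousAt pn_continuous isCompact_pn)
open Pool.Agent.H17LG.Variety (FunField)
open Pool.Agent.H17 (vanishesAt_mk_iff)
open Pool.Agent.H7.Bir (vals rmap)

variable {N M : ℕ} {P : Ideal (MvPolynomial (Fin (N + 1)) ℂ)} {P' : Ideal (MvPolynomial (Fin (M + 1)) ℂ)} {p : PN M → PN N}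

private theorem Dom_aeval_homog {γ : Fin (N + 1) → MvPolynomial (Fin (M + 1)) ℂ} {D : ℕ} (hγ : ∀ i, (γ i).IsHomogeneous D) {n : ℕ}
    {Q : MvPolynomial (Fin (N + 1)) ℂ} (hQ : Q.IsHomogeneous n) : (aeval γ Q).IsHomogeneous (D * n) :=
  hQ.aeval _ hγ

private theorem Dom_smul {n : ℕ} {Q : MvPolynomial (Fin (N + 1)) ℂ} (hQ : Q.IsHomogeneous n) (c : ℂ) (x : Fin (N + 1) → ℂ) :
    eval (c • x) Q = c ^ n * eval x Q :=
  Pool.Agent.H17BP.eval_smul_form hQ c x

/-- two systems of forms which represent `p` are proportional at every point -/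
private theorem Dom_prop {γ γ' : Fin (N + 1) → MvPolynomial (Fin (M + 1)) ℂ}
    (hrep : ∀ y ∈ projVar P', vals γ y.rep ≠ 0 → p y = rmap γ y) (hrep' : ∀ y ∈ projVar P', vals γ' y.rep ≠ 0 → p y = rmap γ' y)
    {y : PN M} (hy : y ∈ projVar P') (i j : Fin (N + 1)) :
    eval y.rep (γ i) * eval y.rep (γ' j) = eval y.rep (γ j) * eval y.rep (γ' i) := by
  by_cases h1 : vals γ y.rep = 0
  · have h2 : ∀ i, eval y.rep (γ i) = 0 := fun i => congrFun h1 i
    rw [h2 i, h2 j]
    ring
  by_cases h3 : vals γ' y.rep = 0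
  · have h2 : ∀ i, eval y.rep (γ' i) = 0 := fun i => congrFun h3 i
    rw [h2 i, h2 j]
    ring
  have h4 : rmap γ y = rmap γ' y := by
    rw [← hrep y hy h1, ← hrep' y hy h3]
  unfold Pool.Agent.H7.Bir.rmap at h4
  rw [dif_pos h1, dif_pos h3, Projectivization.mk_eq_mk_iff'] at h4
  obtain ⟨a, ha⟩ := h4
  have h5 : ∀ i, eval y.rep (γ i) = a * eval y.rep (γ' i) := fun i => (congrFun ha i).symm
  rw [h5 i, h5 j]
  ring

/-- forms which represent `p` near some point define a dominant rational map -/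
theorem dominant [P.IsPrime] [P'.IsPrime] (hP : Homog P) (hP' : Homog P') (hX : ∃ i, (X i : MvPolynomial (Fin (N + 1)) ℂ) ∉ P)
    (hp : IsReg P P' p) {D : ℕ} {γ : Fin (N + 1) → MvPolynomial (Fin (M + 1)) ℂ} (hγ : ∀ i, (γ i).IsHomogeneous D)
    (hrep : ∀ y ∈ projVar P', vals γ y.rep ≠ 0 → p y = rmap γ y) (hne : ∃ y ∈ projVar P', vals γ y.rep ≠ 0) (n : ℕ)
    (Q : MvPolynomial (Fin (N + 1)) ℂ) (hQ : Q.IsHomogeneous n) : aeval γ Q ∈ P' ↔ Q ∈ P := by
  obtain ⟨y₀, hy₀, hne⟩ := hne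
  have hX' := Pool.Agent.H17EF.exists_coord hy₀
  constructor
  · intro h
    by_contra hQP
    obtain ⟨x, hx, hxQ⟩ := Pool.Agent.H17EF.exists_point hP hX hQP hQ
    obtain ⟨y', hy', rfl⟩ := hp.surj x hx
    obtain ⟨D', γ', hγ', hne', hrep'⟩ := hp.regular y' hy'
    obtain ⟨j, hj⟩ : ∃ j, eval y₀.rep (γ j) ≠ 0 := by
      by_contra hcon
      push Not at hcon
      exact hne (funext hcon)
    have hjP : γ j ∉ P' := fun h1 => hj (hy₀ _ h1 D (hγ j))
    have hmem : γ j ^ n * aeval γ' Q ∈ P' := by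
      by_contra h1
      have h2 : (γ j ^ n * aeval γ' Q).IsHomogeneous (D * n + D' * n) := ((hγ j).pow n).mul (Dom_aeval_homog hγ' hQ)
      obtain ⟨y, hy, hyn⟩ := Pool.Agent.H17EF.exists_point hP' hX' h1 h2
      apply hyn
      have h3 : eval y.rep (aeval γ Q) = 0 := hy _ h _ (Dom_aeval_homog hγ hQ)
      unfold VanishesAt
      rw [map_mul, map_pow, Pool.Agent.H7.Bir.eval_comp, ← Dom_smul hQ]
      have h4 : eval y.rep (γ j) • vals γ' y.rep = eval y.rep (γ' j) • vals γ y.rep := by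
        funext i
        have h5 := Dom_prop hrep hrep' hy j i
        change eval y.rep (γ j) * eval y.rep (γ' i) = eval y.rep (γ' j) * eval y.rep (γ i)
        rw [h5, mul_comm]
      rw [h4, Dom_smul hQ, ← Pool.Agent.H7.Bir.eval_comp, h3, mul_zero]
    rcases Ideal.IsPrime.mem_or_mem inferInstance hmem with h1 | h1
    · exact hjP (Ideal.IsPrime.mem_of_pow_mem inferInstance n h1)
    · apply hxQ
      rw [hrep' y' hy' hne', Pool.Agent.H7.Bir.vanishesAt_rmap hne' hQ]
      exact hy' _ h1 _ (Dom_aeval_homog hγ' hQ)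
  · intro h
    by_contra hcon
    obtain ⟨y, hy, hyn⟩ := Pool.Agent.H17EF.exists_point hP' hX' hcon (Dom_aeval_homog hγ hQ)
    apply hyn
    by_cases h1 : vals γ y.rep = 0
    · unfold VanishesAt
      rw [Pool.Agent.H7.Bir.eval_comp, h1]
      have h2 : eval (p y).rep Q = 0 := hp.maps y hy Q h n hQ
      have h3 := Dom_smul hQ 0 (p y).rep
      rw [zero_smul, h2, mul_zero] at h3
      exact h3
    · rw [← Pool.Agent.H7.Bir.vanishesAt_rmap h1 hQ, ← hrep y hy h1]
      exact hp.maps y hy Q h n hQ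

/-- finitely many systems of forms represent `p` -/
theorem exists_cover (hP' : Homog P') (hp : IsReg P P' p) : ∃ (n : ℕ) (D : Fin n → ℕ) (γ : Fin n → Fin (N + 1) → MvPolynomial (Fin (M + 1)) ℂ),
    (∀ k i, (γ k i).IsHomogeneous (D k)) ∧ (∀ k, ∃ y ∈ projVar P', vals (γ k) y.rep ≠ 0) ∧
    (∀ k, ∀ y ∈ projVar P', vals (γ k) y.rep ≠ 0 → p y = rmap (γ k) y) ∧ ∀ y ∈ projVar P', ∃ k, vals (γ k) y.rep ≠ 0 := by
  have hloc : ∀ m ∈ pn '' projVar P', ∃ (D : ℕ) (γ : Fin (N + 1) → MvPolynomial (Fin (M + 1)) ℂ) (δ : ℝ), (∀ i, (γ i).IsHomogeneous D) ∧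
      (∃ y ∈ projVar P', vals γ y.rep ≠ 0) ∧ (∀ y ∈ projVar P', vals γ y.rep ≠ 0 → p y = rmap γ y) ∧ 0 < δ ∧
      ∀ y : PN M, dist (pn y) m < δ → vals γ y.rep ≠ 0 := by
    rintro _ ⟨y, hy, rfl⟩
    obtain ⟨D, γ, hγ, hne, hrep⟩ := hp.regular y hy
    have hU : {x : Fin (M + 1) → ℂ | vals γ x ≠ 0} ∈ 𝓝 y.rep := by
      have hc : Continuous (vals γ) := continuous_pi fun i => MvPolynomial.continuous_eval (γ i)
      exact (isOpen_ne.preimage hc).mem_nhds hne
    obtain ⟨δ, hδ, hnear⟩ := pn_near y.rep_nonzero hU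
    refine ⟨D, γ, δ, hγ, ⟨y, hy, hne⟩, hrep, hδ, fun y' hy' => ?_⟩
    have hmk : Projectivization.mk ℂ y.rep y.rep_nonzero = y := Projectivization.mk_rep y
    obtain ⟨x', hx', hx0, rfl⟩ := hnear y' (by rw [hmk]; exact hy')
    obtain ⟨a, ha⟩ := Projectivization.exists_smul_eq_mk_rep ℂ x' hx0
    have h1 : (Projectivization.mk ℂ x' hx0).rep = (a : ℂ) • x' := ha.symm
    rw [h1, Pool.Agent.H7.Bir.vals_smul hγ]
    exact smul_ne_zero (pow_ne_zero _ a.ne_zero) hx'
  choose! D γ δ h1 h2 h3 h4 h5 using hloc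
  obtain ⟨t, ht, hcov⟩ := (isCompact_pn hP').elim_nhds_subcover (fun m => Metric.ball m (δ m)) fun m hm => Metric.ball_mem_nhds m (h4 m hm)
  refine ⟨t.card, fun k => D (t.equivFin.symm k : MN M), fun k => γ (t.equivFin.symm k : MN M), fun k i => h1 _ (ht _ (t.equivFin.symm k).2) i,
    fun k => h2 _ (ht _ (t.equivFin.symm k).2), fun k => h3 _ (ht _ (t.equivFin.symm k).2), fun y hy => ?_⟩
  have h6 := hcov (Set.mem_image_of_mem pn hy)
  rw [Set.mem_iUnion₂] at h6
  obtain ⟨m, hm, hmy⟩ := h6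
  refine ⟨t.equivFin ⟨m, hm⟩, ?_⟩
  change vals (γ (t.equivFin.symm (t.equivFin ⟨m, hm⟩) : MN M)) y.rep ≠ 0
  rw [Equiv.symm_apply_apply]
  exact h5 m (ht m hm) y hmy

/-- The forms with `T (x) = 0` for all `x = p y` with `R' (y) = 0`. -/
theorem exists_image_form {P : Ideal (MvPolynomial (Fin (N + 1)) ℂ)} [P.IsPrime] {P' : Ideal (MvPolynomial (Fin (M + 1)) ℂ)} [P'.IsPrime]
    (hP : Homog P) (hP' : Homog P') (hX : ∃ i, (X i : MvPolynomial (Fin (N + 1)) ℂ) ∉ P) (hz : ∃ z : Fin 2 → FunField P, IsTranscendenceBasis ℂ z)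
    (hz' : ∃ z' : Fin 2 → FunField P', IsTranscendenceBasis ℂ z') {p : PN M → PN N} (hp : IsReg P P' p) {n' : ℕ}
    {R' : MvPolynomial (Fin (M + 1)) ℂ} (hR' : R'.IsHomogeneous n') (hRP' : R' ∉ P') :
    ∃ (T : MvPolynomial (Fin (N + 1)) ℂ) (n : ℕ), T.IsHomogeneous n ∧ T ∉ P ∧ ∀ y ∈ projVar P', VanishesAt R' y → VanishesAt T (p y) := by
  classical
  obtain ⟨n, D, γ, hγ, hγne, hrep, hcov⟩ := exists_cover hP' hp
  choose R m hR hRP hRev using fun k => Pool.Agent.H19OL.exists_norm_form hz hz' (hγ k)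
    (dominant hP hP' hX hp (hγ k) (hrep k) (hγne k)) hR' hRP'
  refine ⟨∏ k, R k, ∑ k, m k, MvPolynomial.IsHomogeneous.prod _ _ _ fun k _ => hR k, ?_, ?_⟩
  · intro h
    obtain ⟨k, -, hk⟩ := ((inferInstance : P.IsPrime).prod_mem_iff).1 h
    exact hRP k hk
  · intro y hy hyR
    obtain ⟨k, hk⟩ := hcov y hy
    have h1 : VanishesAt (R k) (p y) := by
      rw [hrep k y hy hk]
      unfold Pool.Agent.H7.Bir.rmap
      rw [dif_pos hk, vanishesAt_mk_iff (hR k)]
      refine hRev k y.rep y.rep_nonzero (fun Q hQ => ?_) hyR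
      rw [← MvPolynomial.sum_homogeneousComponent Q, map_sum]
      exact Finset.sum_eq_zero fun i _ => hy _ (hP' Q hQ i) i (homogeneousComponent_isHomogeneous i Q)
    unfold VanishesAt at h1 ⊢
    rw [map_prod]
    exact Finset.prod_eq_zero (Finset.mem_univ k) h1

end Pool.Agent.H62.Qe

end
end

section

/-!
# GTL EtIm: the image of a hypersurface under a surjective regular map of varieties of the same dimension
-/

set_option autoImplicit false

open MvPolynomial
open Pool.Agent.H17 (PN VanishesAt vanishesAt_mk_iff)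
open Pool.Agent.H17LG.Variety (FunField)
open Pool.Agent.H62.FC (Homog)
open Pool.Agent.H17EF (projVar)
open Pool.Agent.H62.Qe (IsReg exists_cover dominant)

noncomputable section

namespace Pool.Agent.GTL

variable {N M : ℕ}

/-- A form `R'` which does not vanish on `X'`: the image of `R' = 0` is contained in `T = 0` for a form `T` which does not vanish on `X`. -/
theorem exists_image_form_all {P : Ideal (MvPolynomial (Fin (N + 1)) ℂ)} [P.IsPrime] {P' : Ideal (MvPolynomial (Fin (M + 1)) ℂ)} [P'.IsPrime]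
    (hP : Homog P) (hP' : Homog P') (hX : ∃ i, (X i : MvPolynomial (Fin (N + 1)) ℂ) ∉ P) {k : ℕ}
    (hz : ∃ z : Fin (k + 1) → FunField P, IsTranscendenceBasis ℂ z)
    (hz' : ∃ z' : Fin (k + 1) → FunField P', IsTranscendenceBasis ℂ z') {p : PN M → PN N} (hp : IsReg P P' p) {n' : ℕ}
    {R' : MvPolynomial (Fin (M + 1)) ℂ} (hR' : R'.IsHomogeneous n') (hRP' : R' ∉ P') :
    ∃ (T : MvPolynomial (Fin (N + 1)) ℂ) (n : ℕ), T.IsHomogeneous n ∧ T ∉ P ∧ ∀ y ∈ projVar P', VanishesAt R' y → VanishesAt T (p y) := by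
  classical
  obtain ⟨n, D, γ, hγ, hγne, hrep, hcov⟩ := exists_cover hP' hp
  choose R m hR hRP hRev using fun k => Pool.Agent.H19OL.exists_norm_form hz hz' (hγ k)
    (dominant hP hP' hX hp (hγ k) (hrep k) (hγne k)) hR' hRP'
  refine ⟨∏ k, R k, ∑ k, m k, MvPolynomial.IsHomogeneous.prod _ _ _ fun k _ => hR k, ?_, ?_⟩
  · intro h
    obtain ⟨k, -, hk⟩ := ((inferInstance : P.IsPrime).prod_mem_iff).1 h
    exact hRP k hk
  · intro y hy hyR
    obtain ⟨k, hk⟩ := hcov y hy
    have h1 : VanishesAt (R k) (p y) := by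
      rw [hrep k y hy hk]
      unfold Pool.Agent.H7.Bir.rmap
      rw [dif_pos hk, vanishesAt_mk_iff (hR k)]
      refine hRev k y.rep y.rep_nonzero (fun Q hQ => ?_) hyR
      rw [← MvPolynomial.sum_homogeneousComponent Q, map_sum]
      exact Finset.sum_eq_zero fun i _ => hy _ (hP' Q hQ i) i (homogeneousComponent_isHomogeneous i Q)
    unfold VanishesAt at h1 ⊢
    rw [map_prod]
    exact Finset.prod_eq_zero (Finset.mem_univ k) h1

end Pool.Agent.GTL

end
end

section

/-!
# GTL EtL: components of the inverse image of a closed subvariety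

PROOF.  `domPair_self`: `reg.maps`, `reg.surj`, `H17EF.exists_point`.  `exists_pair`: let `I'` be the ideal generated by the forms which vanish at all points `y`
of `projVar P'` with `p y ∈ projVar Q`.  A point `y` of `projVar P'` is a zero of `I'` iff `p y ∈ projVar Q` (`Qe.exists_cover`, the forms `R (γ k)`, `R ∈ Q`).
The minimal primes `Q' i` of `I'` are finitely many and homogeneous.  If for every `i` there is a form `R i ∉ Q` which vanishes at all `p y`,
`y ∈ projVar (Q' i)`: `∏ R i ∉ Q` vanishes at `p y` for all `y` with `p y ∈ projVar Q` (`y` lies in some `projVar (Q' i)`), so on `projVar Q` (`reg.surj`),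
so it is in `Q` (`H17EF.exists_point`), a contradiction.  So some `Q' i` has `DomPair.dense`.
-/

set_option autoImplicit false

open MvPolynomial
open Pool.Agent.H17 (PN VanishesAt)
open Pool.Agent.H17EF (projVar)
open Pool.Agent.H62.FC (Homog)
open Pool.Agent.H62.Qe (IsReg)
open Pool.Agent.H7.Bir (vals rmap)

noncomputable section

namespace Pool.Agent.GTL

variable {N M : ℕ} {P Q : Ideal (MvPolynomial (Fin (N + 1)) ℂ)} {P' : Ideal (MvPolynomial (Fin (M + 1)) ℂ)}

theorem domPair_self [P.IsPrime] (hP : Homog P) (hX : ∃ i, X i ∉ P) {p : PN M → PN N} (hp : IsReg P P' p) : DomPair P P' p := by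
  refine ⟨hp.maps, fun R n hR hRP => ?_⟩
  obtain ⟨x, hx, hxR⟩ := Pool.Agent.H17EF.exists_point hP hX hRP hR
  obtain ⟨y, hy, rfl⟩ := hp.surj x hx
  exact ⟨y, hy, hxR⟩

/-- the composition of a form of `Q` with forms which represent `p` vanishes at the points over `projVar Q` -/
private theorem EtL_comp {p : PN M → PN N} {γ : Fin (N + 1) → MvPolynomial (Fin (M + 1)) ℂ}
    (hrep : ∀ y ∈ projVar P', vals γ y.rep ≠ 0 → p y = rmap γ y) {R : MvPolynomial (Fin (N + 1)) ℂ} {n : ℕ} (hR : R.IsHomogeneous n) (hRQ : R ∈ Q)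
    {y : PN M} (hy : y ∈ projVar P') (hpy : p y ∈ projVar Q) : VanishesAt (aeval γ R) y := by
  by_cases h1 : vals γ y.rep = 0
  · unfold VanishesAt
    rw [Pool.Agent.H7.Bir.eval_comp, h1]
    have h2 : eval (p y).rep R = 0 := hpy R hRQ n hR
    have h3 := Pool.Agent.H17BP.eval_smul_form hR 0 (p y).rep
    rw [zero_smul, h2, mul_zero] at h3
    exact h3
  · rw [← Pool.Agent.H7.Bir.vanishesAt_rmap h1 hR, ← hrep y hy h1]
    exact hpy R hRQ n hR

theorem exists_pair [P'.IsPrime] [Q.IsPrime] (hP' : Homog P') (hQ : Homog Q) (hX : ∃ i, X i ∉ Q) {p : PN M → PN N} (hp : IsReg P P' p) (hle : P ≤ Q) :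
    ∃ (Q' : Ideal (MvPolynomial (Fin (M + 1)) ℂ)) (_ : Q'.IsPrime), Homog Q' ∧ P' ≤ Q' ∧ DomPair Q Q' p := by
  obtain ⟨r, D, γ, hγ, -, hrep, hcov⟩ := Pool.Agent.H62.Qe.exists_cover hP' hp
  obtain ⟨κ, A, e, hA, hAv, hAe⟩ : ∃ (κ : Type) (A : κ → MvPolynomial (Fin (M + 1)) ℂ) (e : κ → ℕ), (∀ l, (A l).IsHomogeneous (e l)) ∧
      (∀ l, ∀ y ∈ projVar P', p y ∈ projVar Q → VanishesAt (A l) y) ∧
      ∀ (T : MvPolynomial (Fin (M + 1)) ℂ) (n : ℕ), T.IsHomogeneous n → (∀ y ∈ projVar P', p y ∈ projVar Q → VanishesAt T y) → ∃ l, A l = T :=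
    ⟨{l : MvPolynomial (Fin (M + 1)) ℂ × ℕ // l.1.IsHomogeneous l.2 ∧ ∀ y ∈ projVar P', p y ∈ projVar Q → VanishesAt l.1 y},
      fun l => l.1.1, fun l => l.1.2, fun l => l.2.1, fun l => l.2.2, fun T n hT h => ⟨⟨(T, n), hT, h⟩, rfl⟩⟩
  have hfin := Ideal.finite_minimalPrimes_of_isNoetherianRing _ (Ideal.span (Set.range A))
  have hmem : ∀ (T : MvPolynomial (Fin (M + 1)) ℂ) (n : ℕ), T.IsHomogeneous n → (∀ y ∈ projVar P', p y ∈ projVar Q → VanishesAt T y) →
      T ∈ Ideal.span (Set.range A) := by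
    intro T n hT h
    obtain ⟨l, rfl⟩ := hAe T n hT h
    exact Ideal.subset_span ⟨l, rfl⟩
  have hPI : P' ≤ Ideal.span (Set.range A) := by
    intro q hq
    rw [← MvPolynomial.sum_homogeneousComponent q]
    refine Ideal.sum_mem _ fun i _ => hmem _ i (homogeneousComponent_isHomogeneous i q) fun y hy _ => ?_
    exact hy _ (hP' q hq i) i (homogeneousComponent_isHomogeneous i q)
  by_contra hcon
  push Not at hcon
  have hbad : ∀ J ∈ (Ideal.span (Set.range A)).minimalPrimes, ∃ (R : MvPolynomial (Fin (N + 1)) ℂ) (n : ℕ), R.IsHomogeneous n ∧ R ∉ Q ∧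
      ∀ x ∈ p '' projVar J, VanishesAt R x := by
    intro J hJ
    have hJp : J.IsPrime := hJ.1.1
    have hJh : Homog J := Pool.Agent.H62.FC.homog_of_minimal hA hJ
    have hPJ : P' ≤ J := hPI.trans hJ.1.2
    by_contra hcon2
    push Not at hcon2
    refine hcon J hJp hJh hPJ ⟨fun y hy => ?_, fun R n hR hRQ => ?_⟩
    · have hyP : y ∈ projVar P' := fun T hT n hTn => hy T (hPJ hT) n hTn
      obtain ⟨k, hk⟩ := hcov y hyP
      intro R hR n hRn
      rw [hrep k y hyP hk, Pool.Agent.H7.Bir.vanishesAt_rmap hk hRn]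
      have h1 : (aeval (γ k) R).IsHomogeneous (D k * n) := hRn.aeval _ (hγ k)
      refine hy _ (hJ.1.2 (hmem _ _ h1 fun y' hy' hpy' => ?_)) _ h1
      exact EtL_comp (hrep k) hRn hR hy' hpy'
    · obtain ⟨x, ⟨y, hy, rfl⟩, hx⟩ := hcon2 R n hR hRQ
      exact ⟨y, hy, hx⟩
  obtain ⟨S, m, hS, hSQ, hSv⟩ := Pool.Agent.H17EF.exists_prod (P := Q) hfin (A := fun J => p '' projVar J) hbad
  obtain ⟨x, hx, hSx⟩ := Pool.Agent.H17EF.exists_point hQ hX hSQ hS
  have hxP : x ∈ projVar P := fun T hT n hTn => hx T (hle hT) n hTn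
  obtain ⟨y, hy, rfl⟩ := hp.surj x hxP
  have hker : Ideal.span (Set.range A) ≤ RingHom.ker (eval y.rep : MvPolynomial (Fin (M + 1)) ℂ →+* ℂ) := by
    rw [Ideal.span_le]
    rintro _ ⟨l, rfl⟩
    exact hAv l y hy hx
  have hkp : (RingHom.ker (eval y.rep : MvPolynomial (Fin (M + 1)) ℂ →+* ℂ)).IsPrime := RingHom.ker_isPrime _
  obtain ⟨J, hJ, hJle⟩ := Ideal.exists_minimalPrimes_le hker
  apply hSx
  refine hSv _ ?_
  simp only [Set.mem_iUnion]
  exact ⟨J, hJ, y, fun T hT n _ => hJle hT, rfl⟩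

end Pool.Agent.GTL

end
end

section

/-!
# GU Down: the properties `GGLC` descend along finite étale coverings of projective varieties; varieties which virtually dominate `X`

`gglc_down`: let `X' → X` be a finite étale covering of projective varieties, `X` of general type.  If `X'` has the properties `GGLC` (with an exceptional set),
then so has `X`.
`gglc_virtual`: let `Y` be a projective variety of general type with a finite étale covering `Y' → Y` such that `Y'` has the dimension of `X` and a dominant rational map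
to `X`.  If `X` has the properties `GGLC` then so has `Y`.
-/

set_option autoImplicit false

open Topology Filter MvPolynomial

noncomputable section

namespace Pool.Agent.H23.GU

open Pool.Agent.H17 (PN VanishesAt HolomorphicInto puncturedDisc vanishesAt_mk_iff ZariskiClosedIn)
open Pool.Agent.H17LG.Variety (FunField IsLogGeneralType)
open Pool.Agent.H62.FC (Homog)
open Pool.Agent.H62.SA (locVar)
open Pool.Agent.H62.Qe (IsReg IsEtaleOver exists_cover dominant)
open Pool.Agent.H17EF (projVar)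
open Pool.Agent.H7.Bir (vals rmap)

variable {N M L : ℕ}

variable {P : Ideal (MvPolynomial (Fin (N + 1)) ℂ)} {P' : Ideal (MvPolynomial (Fin (M + 1)) ℂ)} {p : PN M → PN N}

/-- The image of a hypersurface lies in a hypersurface. -/
theorem exists_image_form [P.IsPrime] [P'.IsPrime] (hP : Homog P) (hP' : Homog P') (hX : ∃ i, (X i : MvPolynomial (Fin (N + 1)) ℂ) ∉ P) {k : ℕ}
    (hz : ∃ z : Fin (k + 1) → FunField P, IsTranscendenceBasis ℂ z)
    (hz' : ∃ z' : Fin (k + 1) → FunField P', IsTranscendenceBasis ℂ z') (hp : IsReg P P' p) {n' : ℕ}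
    {R' : MvPolynomial (Fin (M + 1)) ℂ} (hR' : R'.IsHomogeneous n') (hRP' : R' ∉ P') :
    ∃ (T : MvPolynomial (Fin (N + 1)) ℂ) (n : ℕ), T.IsHomogeneous n ∧ T ∉ P ∧ ∀ y ∈ projVar P', VanishesAt R' y → VanishesAt T (p y) := by
  classical
  obtain ⟨n, D, γ, hγ, hγne, hrep, hcov⟩ := exists_cover hP' hp
  choose R m hR hRP hRev using fun k => Pool.Agent.H19OL.exists_norm_form hz hz' (hγ k)
    (dominant hP hP' hX hp (hγ k) (hrep k) (hγne k)) hR' hRP'
  refine ⟨∏ k, R k, ∑ k, m k, MvPolynomial.IsHomogeneous.prod _ _ _ fun k _ => hR k, ?_, ?_⟩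
  · intro h
    obtain ⟨k, -, hk⟩ := ((inferInstance : P.IsPrime).prod_mem_iff).1 h
    exact hRP k hk
  · intro y hy hyR
    obtain ⟨k, hk⟩ := hcov y hy
    have h1 : VanishesAt (R k) (p y) := by
      rw [hrep k y hy hk]
      unfold Pool.Agent.H7.Bir.rmap
      rw [dif_pos hk, vanishesAt_mk_iff (hR k)]
      refine hRev k y.rep y.rep_nonzero (fun Q hQ => ?_) hyR
      rw [← MvPolynomial.sum_homogeneousComponent Q, map_sum]
      exact Finset.sum_eq_zero fun i _ => hy _ (hP' Q hQ i) i (homogeneousComponent_isHomogeneous i Q)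
    unfold VanishesAt at h1 ⊢
    rw [map_prod]
    exact Finset.prod_eq_zero (Finset.mem_univ k) h1

end Pool.Agent.H23.GU

end
end
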