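import Pool.Agent.H18.GGT.M11
import Pool.Agent.H18.GGT.M19

/-! The parts of this file: H13.SM.Pts, H13.SM.Noether, H13.SM.Bdd, H13.SM.Lift, H13.SM.Open, H13.SM.Dense, H13.SM.Aff, GG.Gen. -/

section

/-!
# The complex points of an affine variety with generic point `a`

`a : ι → K` generates the field `K` over `ℂ`.  The affine variety is the spectrum of
`A = Algebra.adjoin ℂ (Set.range a)`; its points are the `w : ι → ℂ` at which all polynomials which
vanish at `a` vanish.

PROOF of `isClosed_pts`.  Intersection of the closed sets `eval w Q = 0`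
(`MvPolynomial.continuous_eval`).

PROOF of `pts_of_algHom`.  `eval (fun i => φ ⟨a i, _⟩) Q = φ ⟨aeval a Q, _⟩` (both sides are algebra
homs of `Q`, or induction on `Q`), and `φ 0 = 0`.

PROOF of `root_at`.  Let `M : Polynomial (MvPolynomial (Fin n) ℂ) →+* MvPolynomial ι ℂ` be
`Polynomial.eval₂RingHom (aeval B).toRingHom Z`.  Then `aeval a (M p) = (p.map (aeval b)).eval (aeval a
Z)` since `aeval a (B j) = b j`, and `eval w (M p) = (p.map (eval (fun j => eval w (B j)))).eval
(eval w Z)` (both by `Polynomial.hom_eval₂` and `MvPolynomial.comp_aeval` / `ringHom_ext`).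
-/

open MvPolynomial

noncomputable section

namespace Pool.Agent.H13.SM

variable {ι K : Type} [Field K] [Algebra ℂ K]

/-- The complex points of the affine variety with generic point `a`. -/
def pts (a : ι → K) : Set (ι → ℂ) :=
  {w | ∀ Q : MvPolynomial ι ℂ, aeval a Q = 0 → eval w Q = 0}

theorem isClosed_pts [Finite ι] (a : ι → K) : IsClosed (pts a) := by
  have h : pts a = ⋂ Q ∈ {Q : MvPolynomial ι ℂ | aeval a Q = 0}, {w : ι → ℂ | eval w Q = 0} := by
    ext w
    simp only [pts, Set.mem_ofPred_eq, Set.mem_iInter]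
  rw [h]
  exact isClosed_biInter fun Q _ => isClosed_eq (MvPolynomial.continuous_eval Q) continuous_const

theorem aeval_mem_adjoin (a : ι → K) (Q : MvPolynomial ι ℂ) :
    aeval a Q ∈ Algebra.adjoin ℂ (Set.range a) := by
  rw [Algebra.adjoin_range_eq_range_aeval]
  exact ⟨Q, rfl⟩

/-- An algebra hom from the ring of functions to `ℂ` is the evaluation at a point. -/
theorem exists_pt_of_algHom (a : ι → K) (φ : Algebra.adjoin ℂ (Set.range a) →ₐ[ℂ] ℂ) :
    ∃ w ∈ pts a, ∀ Q : MvPolynomial ι ℂ, eval w Q = φ ⟨aeval a Q, aeval_mem_adjoin a Q⟩ := by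
  have key : ∀ Q : MvPolynomial ι ℂ,
      eval (fun i => φ ⟨a i, Algebra.subset_adjoin (Set.mem_range_self i)⟩) Q =
        φ ⟨aeval a Q, aeval_mem_adjoin a Q⟩ := by
    intro Q
    have h1 := MvPolynomial.comp_aeval_apply
      (fun i => (⟨a i, Algebra.subset_adjoin (Set.mem_range_self i)⟩ : Algebra.adjoin ℂ (Set.range a)))
      φ Q
    have h2 := MvPolynomial.comp_aeval_apply
      (fun i => (⟨a i, Algebra.subset_adjoin (Set.mem_range_self i)⟩ : Algebra.adjoin ℂ (Set.range a)))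
      (Algebra.adjoin ℂ (Set.range a)).val Q
    have h3 : aeval (fun i => (⟨a i, Algebra.subset_adjoin (Set.mem_range_self i)⟩ :
        Algebra.adjoin ℂ (Set.range a))) Q = ⟨aeval a Q, aeval_mem_adjoin a Q⟩ := by
      apply Subtype.ext
      exact h2
    rw [← h3, h1, MvPolynomial.aeval_eq_eval]
  refine ⟨fun i => φ ⟨a i, Algebra.subset_adjoin (Set.mem_range_self i)⟩, ?_, key⟩
  intro Q hQ
  rw [key Q]
  have h4 : (⟨aeval a Q, aeval_mem_adjoin a Q⟩ : Algebra.adjoin ℂ (Set.range a)) = 0 :=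
    Subtype.ext hQ
  rw [h4, map_zero]

/-- If `Z` is a root of `p` on the variety, with coefficients functions of the `b j = aeval a (B j)`,
then this holds at each point. -/
theorem root_at {n : ℕ} {a : ι → K} {b : Fin n → K} {B : Fin n → MvPolynomial ι ℂ}
    (hB : ∀ j, aeval a (B j) = b j) {Z : MvPolynomial ι ℂ}
    {p : Polynomial (MvPolynomial (Fin n) ℂ)}
    (hp : (p.map (aeval b : MvPolynomial (Fin n) ℂ →ₐ[ℂ] K).toRingHom).eval (aeval a Z) = 0)
    {w : ι → ℂ} (hw : w ∈ pts a) :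
    (p.map (eval fun j => eval w (B j))).eval (eval w Z) = 0 := by
  have h1 : aeval a (p.eval₂ (aeval B : MvPolynomial (Fin n) ℂ →ₐ[ℂ] MvPolynomial ι ℂ).toRingHom Z)
      = 0 := by
    have e1 := Polynomial.hom_eval₂ p
      (aeval B : MvPolynomial (Fin n) ℂ →ₐ[ℂ] MvPolynomial ι ℂ).toRingHom
      (aeval a : MvPolynomial ι ℂ →ₐ[ℂ] K).toRingHom Z
    have e2 : (aeval a : MvPolynomial ι ℂ →ₐ[ℂ] K).toRingHom.comp
        (aeval B : MvPolynomial (Fin n) ℂ →ₐ[ℂ] MvPolynomial ι ℂ).toRingHom =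
        (aeval b : MvPolynomial (Fin n) ℂ →ₐ[ℂ] K).toRingHom := by
      have e3 : (aeval a : MvPolynomial ι ℂ →ₐ[ℂ] K).comp
          (aeval B : MvPolynomial (Fin n) ℂ →ₐ[ℂ] MvPolynomial ι ℂ) = aeval b := by
        apply MvPolynomial.algHom_ext
        intro j
        rw [AlgHom.comp_apply, aeval_X, aeval_X]
        exact hB j
      rw [← e3]
      rfl
    rw [e2] at e1
    rw [Polynomial.eval_map] at hp
    exact e1.trans hp
  have h2 := hw _ h1
  have e4 := Polynomial.hom_eval₂ p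
    (aeval B : MvPolynomial (Fin n) ℂ →ₐ[ℂ] MvPolynomial ι ℂ).toRingHom (eval w) Z
  have e5 : (eval w).comp (aeval B : MvPolynomial (Fin n) ℂ →ₐ[ℂ] MvPolynomial ι ℂ).toRingHom =
      eval fun j => eval w (B j) := by
    apply MvPolynomial.ringHom_ext
    · intro r
      simp
    · intro j
      simp
  rw [e5] at e4
  rw [Polynomial.eval_map, ← e4]
  exact h2

end Pool.Agent.H13.SM

end
end

section

/-!
# Noether normalisation

PROOF.  `A = Algebra.adjoin ℂ (Set.range a)` is an algebra of finite type (`Subalgebra.fg_adjoin_...`,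
`Subalgebra.fg_iff_finiteType`) and is nontrivial, so by `exists_finite_inj_algHom_of_fg` there are
`s` and `g : MvPolynomial (Fin s) ℂ →ₐ[ℂ] A` injective and finite.  Let `b' j = g (X j)`, an
algebraically independent family of `K` (`g` and the inclusion are injective).  Each element of `A` is
integral over the range of `g`, the algebra generated by the `b' j` (`RingHom.Finite.to_isIntegral`).
`K = IntermediateField.adjoin ℂ (Set.range a)` is algebraic over `IntermediateField.adjoin ℂ (Set.range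
b')`, since all `a i` are.  So `b'` is a transcendence basis of `K` and `s = n` by
`IsTranscendenceBasis.cardinalMk_eq` (or `lift_cardinalMk_eq_trdeg`).  Write `b' j = aeval a (B j)`.
-/

open MvPolynomial

noncomputable section

namespace Pool.Agent.H13.SM

variable {ι K : Type} [Field K] [Algebra ℂ K]

/-- The surjection from polynomials to the adjoined algebra. -/
private def Noether_phi {n : ℕ} (b : Fin n → K) :
    MvPolynomial (Fin n) ℂ →ₐ[ℂ] Algebra.adjoin ℂ (Set.range b) :=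
  (aeval b : MvPolynomial (Fin n) ℂ →ₐ[ℂ] K).codRestrict (Algebra.adjoin ℂ (Set.range b)) (by
    intro x
    rw [Algebra.adjoin_range_eq_range_aeval]
    exact ⟨x, rfl⟩)

private theorem Noether_phi_coe {n : ℕ} (b : Fin n → K) (x : MvPolynomial (Fin n) ℂ) :
    (Noether_phi b x : K) = aeval b x := rfl

private theorem Noether_phi_surj {n : ℕ} (b : Fin n → K) : Function.Surjective (Noether_phi b) := by
  rintro ⟨y, hy⟩
  have h := hy
  rw [Algebra.adjoin_range_eq_range_aeval] at h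
  obtain ⟨x, hx⟩ := h
  exact ⟨x, Subtype.ext hx⟩

private theorem Noether_algebraic [Finite ι] {a : ι → K}
    (ha : IntermediateField.adjoin ℂ (Set.range a) = ⊤) {s : ℕ} (b : Fin s → K)
    (hb : ∀ i, IsIntegral (Algebra.adjoin ℂ (Set.range b)) (a i)) :
    Algebra.IsAlgebraic (Algebra.adjoin ℂ (Set.range b)) K := by
  constructor
  intro x
  have hx : x ∈ IntermediateField.adjoin ℂ (Set.range a) := by
    rw [ha]; exact IntermediateField.mem_top
  induction hx using IntermediateField.adjoin_induction with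
  | mem y hy =>
    obtain ⟨i, rfl⟩ := hy
    exact (hb i).isAlgebraic
  | algebraMap y =>
    have h1 : algebraMap ℂ K y =
        algebraMap (Algebra.adjoin ℂ (Set.range b)) K (algebraMap ℂ (Algebra.adjoin ℂ (Set.range b)) y) := rfl
    rw [h1]
    exact isAlgebraic_algebraMap _
  | add y z _ _ hy hz => exact hy.add hz
  | inv y _ hy => exact hy.inv
  | mul y z _ _ hy hz => exact hy.mul hz

theorem exists_noether [Finite ι] {a : ι → K}
    (ha : IntermediateField.adjoin ℂ (Set.range a) = ⊤) {n : ℕ} {z : Fin n → K}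
    (hz : IsTranscendenceBasis ℂ z) :
    ∃ (b : Fin n → K) (B : Fin n → MvPolynomial ι ℂ), AlgebraicIndependent ℂ b ∧
      (∀ j, aeval a (B j) = b j) ∧ ∀ i, IsIntegral (Algebra.adjoin ℂ (Set.range b)) (a i) := by
  set A := Algebra.adjoin ℂ (Set.range a) with hA
  have : Algebra.FiniteType ℂ A := by
    refine (Subalgebra.fg_iff_finiteType _).1 ?_
    have h := Subalgebra.fg_adjoin_finset (R := ℂ) (Set.finite_range a).toFinset
    rwa [Set.Finite.coe_toFinset] at h
  obtain ⟨s, g, ginj, gint⟩ := exists_integral_inj_algHom_of_fg ℂ A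
  set b' : Fin s → K := fun j => (g (X j) : K) with hb'
  have haev : (aeval b' : MvPolynomial (Fin s) ℂ →ₐ[ℂ] K) = A.val.comp g := by
    refine MvPolynomial.algHom_ext fun j => ?_
    rw [aeval_X]; rfl
  have hind : AlgebraicIndependent ℂ b' := by
    show Function.Injective (aeval b' : MvPolynomial (Fin s) ℂ →ₐ[ℂ] K)
    rw [haev]
    exact Subtype.val_injective.comp ginj
  have hint : ∀ i, IsIntegral (Algebra.adjoin ℂ (Set.range b')) (a i) := by
    intro i
    have hai : a i ∈ A := Algebra.subset_adjoin ⟨i, rfl⟩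
    obtain ⟨p, hp1, hp2⟩ := gint ⟨a i, hai⟩
    refine ⟨p.map (Noether_phi b').toRingHom, hp1.map _, ?_⟩
    rw [Polynomial.eval₂_map]
    have h1 := congrArg (fun x : A => (x : K)) hp2
    have h2 : A.val.toRingHom (Polynomial.eval₂ g.toRingHom ⟨a i, hai⟩ p) = 0 := h1
    rw [Polynomial.hom_eval₂] at h2
    have h3 : A.val.toRingHom.comp g.toRingHom =
        (algebraMap (Algebra.adjoin ℂ (Set.range b')) K).comp (Noether_phi b').toRingHom := by
      refine RingHom.ext fun x => ?_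
      have h4 : (aeval b' x : K) = A.val (g x) := by rw [haev]; rfl
      show A.val (g x) = (Noether_phi b' x : K)
      rw [Noether_phi_coe, h4]
    rw [← h3]
    exact h2
  have hbas : IsTranscendenceBasis ℂ b' :=
    hind.isTranscendenceBasis_iff_isAlgebraic.2 (Noether_algebraic ha b' hint)
  have hsn : s = n := by
    have h1 := hbas.cardinalMk_eq hz
    simpa using h1
  subst hsn
  have hB : ∀ j, ∃ Q : MvPolynomial ι ℂ, aeval a Q = b' j := by
    intro j
    have h1 : b' j ∈ A := (g (X j)).2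
    rw [hA, Algebra.adjoin_range_eq_range_aeval] at h1
    exact h1
  choose B hB using hB
  exact ⟨b', B, hind, hB, hint⟩

/-- The polynomial form of integrality: `aeval a Z` is a root of a monic polynomial whose
coefficients are polynomials in `b`. -/
theorem exists_monic {a : ι → K} {n : ℕ} {b : Fin n → K}
    (hint : ∀ i, IsIntegral (Algebra.adjoin ℂ (Set.range b)) (a i)) (Z : MvPolynomial ι ℂ) :
    ∃ p : Polynomial (MvPolynomial (Fin n) ℂ), p.Monic ∧
      (p.map (aeval b : MvPolynomial (Fin n) ℂ →ₐ[ℂ] K).toRingHom).eval (aeval a Z) = 0 := by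
  set C₀ := Algebra.adjoin ℂ (Set.range b) with hC₀
  have hZ : IsIntegral C₀ (aeval a Z) := by
    have h1 : aeval a Z ∈ Algebra.adjoin ℂ (Set.range a) := aeval_mem_adjoin a Z
    have h2 : Algebra.adjoin ℂ (Set.range a) ≤ (integralClosure C₀ K).restrictScalars ℂ := by
      refine Algebra.adjoin_le ?_
      rintro _ ⟨i, rfl⟩
      exact hint i
    exact h2 h1
  obtain ⟨p, hp1, hp2⟩ := hZ
  have hlift : p ∈ Polynomial.lifts (Noether_phi b).toRingHom := by
    rw [Polynomial.lifts_iff_coeff_lifts]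
    intro k
    exact Noether_phi_surj b (p.coeff k)
  obtain ⟨P, hP1, -, hP2⟩ := Polynomial.lifts_and_natDegree_eq_and_monic hlift hp1
  refine ⟨P, hP2, ?_⟩
  have h3 : (aeval b : MvPolynomial (Fin n) ℂ →ₐ[ℂ] K).toRingHom =
      (algebraMap C₀ K).comp (Noether_phi b).toRingHom := rfl
  rw [h3, ← Polynomial.map_map, hP1, Polynomial.eval_map]
  exact hp2

end Pool.Agent.H13.SM

end
end

section

/-!
# The projection is proper with finite fibres

PROOF.  For every `i` let `p i` be the monic polynomial of `exists_monic hint (X i)`.  By `root_at` (with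
`Z = X i`), for every point `w` of the variety `w i` is a root of `(p i).map (eval y)`, `y j = eval w (B
j)`, a monic polynomial.

`finite_fiber`: for fixed `y` there are finitely many roots for each `i` (`Set.Finite.pi`,
`Polynomial.finite_setOf_isRoot` or `Multiset`/`rootSet`).

`bdd_near`: a root `t` of a monic polynomial `t^d + c_{d-1} t^{d-1} + ... + c_0` satisfies `‖t‖ ≤ 1 +
∑ ‖c_k‖` (if `‖t‖ > 1` divide `t^d = -∑ c_k t^k` by `t^{d-1}`; or `Polynomial.IsRoot.norm_lt_cauchyBound`),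
and the `c_k` are continuous functions of `y`, so they are bounded near `y₀`; take the maximum over `i`.
-/

open MvPolynomial Topology

noncomputable section

namespace Pool.Agent.H13.SM

variable {ι K : Type} [Field K] [Algebra ℂ K]

private theorem Bdd_root {q : Polynomial ℂ} (hq : q.Monic) {t : ℂ} (ht : q.eval t = 0) :
    ‖t‖ ≤ ∑ k ∈ Finset.range q.natDegree, ‖q.coeff k‖ + 1 := by
  have h1 := Polynomial.IsRoot.norm_lt_cauchyBound hq.ne_zero ht
  have h2 : Polynomial.cauchyBound q ≤ ∑ k ∈ Finset.range q.natDegree, ‖q.coeff k‖₊ + 1 := by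
    unfold Polynomial.cauchyBound
    rw [hq.leadingCoeff, nnnorm_one, div_one]
    gcongr
    exact Finset.sup_le fun k hk => Finset.single_le_sum (f := fun k => ‖q.coeff k‖₊) (fun _ _ => zero_le) hk
  have h3 : ‖t‖₊ ≤ ∑ k ∈ Finset.range q.natDegree, ‖q.coeff k‖₊ + 1 := h1.le.trans h2
  have h4 : (‖t‖₊ : ℝ) ≤ ((∑ k ∈ Finset.range q.natDegree, ‖q.coeff k‖₊ + 1 : NNReal) : ℝ) := by
    exact_mod_cast h3
  rw [NNReal.coe_add, NNReal.coe_sum, NNReal.coe_one] at h4
  exact h4

theorem finite_fiber [Finite ι] {a : ι → K} {n : ℕ} {b : Fin n → K}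
    {B : Fin n → MvPolynomial ι ℂ} (hB : ∀ j, aeval a (B j) = b j)
    (hint : ∀ i, IsIntegral (Algebra.adjoin ℂ (Set.range b)) (a i)) (y₀ : Fin n → ℂ) :
    {w | w ∈ pts a ∧ ∀ j, eval w (B j) = y₀ j}.Finite := by
  choose p hpm hp using fun i => exists_monic hint (X i : MvPolynomial ι ℂ)
  have hfin : {w : ι → ℂ | ∀ i, w i ∈ {t : ℂ | ((p i).map (eval y₀)).IsRoot t}}.Finite :=
    Set.Finite.pi' fun i => Polynomial.finite_setOfPred_isRoot ((hpm i).map _).ne_zero
  refine hfin.subset ?_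
  rintro w ⟨hw, hwy⟩ i
  have h1 := root_at hB (hp i) hw
  rw [eval_X] at h1
  have h2 : (fun j => eval w (B j)) = y₀ := funext hwy
  rw [h2] at h1
  exact h1

theorem bdd_near [Finite ι] {a : ι → K} {n : ℕ} {b : Fin n → K}
    {B : Fin n → MvPolynomial ι ℂ} (hB : ∀ j, aeval a (B j) = b j)
    (hint : ∀ i, IsIntegral (Algebra.adjoin ℂ (Set.range b)) (a i)) (y₀ : Fin n → ℂ) :
    ∃ C : ℝ, ∀ᶠ y in 𝓝 y₀, ∀ w ∈ pts a, (∀ j, eval w (B j) = y j) → ∀ i, ‖w i‖ ≤ C := by
  choose p hpm hp using fun i => exists_monic hint (X i : MvPolynomial ι ℂ)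
  cases nonempty_fintype ι
  have hcont : ∀ i, Continuous fun y : Fin n → ℂ =>
      ∑ k ∈ Finset.range (p i).natDegree, ‖eval y ((p i).coeff k)‖ + 1 := by
    intro i
    exact (continuous_finsetSum _ fun k _ => (MvPolynomial.continuous_eval _).norm).add continuous_const
  have hS : ∀ i, 0 ≤ ∑ k ∈ Finset.range (p i).natDegree, ‖eval y₀ ((p i).coeff k)‖ + 1 := by
    intro i
    positivity
  refine ⟨∑ i, (∑ k ∈ Finset.range (p i).natDegree, ‖eval y₀ ((p i).coeff k)‖ + 1 + 1), ?_⟩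
  have hev : ∀ᶠ y in 𝓝 y₀, ∀ i, ∑ k ∈ Finset.range (p i).natDegree, ‖eval y ((p i).coeff k)‖ + 1 <
      ∑ k ∈ Finset.range (p i).natDegree, ‖eval y₀ ((p i).coeff k)‖ + 1 + 1 := by
    rw [Filter.eventually_all]
    intro i
    exact (hcont i).continuousAt.eventually_lt continuousAt_const (by simp)
  filter_upwards [hev] with y hy w hw hwy i
  have h1 := root_at hB (hp i) hw
  rw [eval_X] at h1
  have h2 : (fun j => eval w (B j)) = y := funext hwy
  rw [h2] at h1
  have h3 := Bdd_root ((hpm i).map (eval y)) h1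
  rw [(hpm i).natDegree_map] at h3
  simp only [Polynomial.coeff_map] at h3
  refine (h3.trans (hy i).le).trans ?_
  exact Finset.single_le_sum (f := fun i => ∑ k ∈ Finset.range (p i).natDegree, ‖eval y₀ ((p i).coeff k)‖ + 1 + 1)
    (fun i _ => by have := hS i; positivity) (Finset.mem_univ i)

end Pool.Agent.H13.SM

end
end

section

/-!
# Lying over

PROOF of `exists_lift`.  Let `R = MvPolynomial (Fin n) ℂ`, which maps to
`A = Algebra.adjoin ℂ (Set.range a)` by `X j ↦ b j`; this map is injective and integral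
(`exists_monic`).  `ζ = aeval a Z` is an element of `A`, `μ = minpoly R ζ`: it is monic and, `R` being
integrally closed, it divides each polynomial with root `ζ`, so `AdjoinRoot μ → A` is injective.

Let `y', T'` satisfy `(μ.map (eval y')).eval T' = 0`.  `AdjoinRoot.lift` gives a ring hom
`χ : AdjoinRoot μ →+* ℂ` with `χ (X j) = y' j`, `χ root = T'` and which is the identity on `ℂ`.  It is
surjective, so its kernel `M` is a maximal ideal.  By `Ideal.exists_ideal_over_maximal_of_isIntegral`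
there is a maximal ideal `Q` of `A` over `M`.  `A ⧸ Q` is a field and a `ℂ`-algebra of finite type, so
it is finite over `ℂ` and `algebraMap ℂ (A ⧸ Q)` is bijective.  This gives `φ : A →ₐ[ℂ] ℂ` with kernel
`Q`, and `φ s = χ s` for `s` in `AdjoinRoot μ`.  The point of `φ` (`exists_pt_of_algHom`) has
`eval w (B j) = φ (b j) = y' j` and `eval w Z = φ ζ = T'`.
-/

open MvPolynomial

noncomputable section

namespace Pool.Agent.H13.SM

variable {ι K : Type} [Field K] [Algebra ℂ K]

/-- A maximal ideal of a `ℂ`-algebra of finite type is the kernel of an algebra hom to `ℂ`. -/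
private theorem Lift_exists_algHom {A : Type} [CommRing A] [Algebra ℂ A] [Algebra.FiniteType ℂ A]
    (Q : Ideal A) [hQ : Q.IsMaximal] : ∃ φ : A →ₐ[ℂ] ℂ, ∀ x, φ x = 0 ↔ x ∈ Q := by
  let : Field (A ⧸ Q) := Ideal.Quotient.field Q
  have : Module.Finite ℂ (A ⧸ Q) := finite_of_finite_type_of_isJacobsonRing ℂ (A ⧸ Q)
  have : Algebra.IsIntegral ℂ (A ⧸ Q) := Algebra.IsIntegral.of_finite ℂ (A ⧸ Q)
  have hbij : Function.Bijective (algebraMap ℂ (A ⧸ Q)) :=
    IsAlgClosed.algebraMap_bijective_of_isIntegral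
  let e : ℂ ≃ₐ[ℂ] (A ⧸ Q) := AlgEquiv.ofBijective (Algebra.ofId ℂ (A ⧸ Q)) hbij
  refine ⟨(e.symm : (A ⧸ Q) →ₐ[ℂ] ℂ).comp (Ideal.Quotient.mkₐ ℂ Q), fun x => ?_⟩
  have h1 : ((e.symm : (A ⧸ Q) →ₐ[ℂ] ℂ).comp (Ideal.Quotient.mkₐ ℂ Q)) x
      = e.symm (Ideal.Quotient.mk Q x) := rfl
  rw [h1, map_eq_zero_iff _ e.symm.injective, Ideal.Quotient.eq_zero_iff_mem]

/-- There is a monic polynomial `μ` for `Z` such that each root of a specialisation of `μ` is
attained at a point of the variety. -/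
theorem exists_lift [Finite ι] {a : ι → K} {n : ℕ} {b : Fin n → K} (hb : AlgebraicIndependent ℂ b)
    {B : Fin n → MvPolynomial ι ℂ} (hB : ∀ j, aeval a (B j) = b j)
    (hint : ∀ i, IsIntegral (Algebra.adjoin ℂ (Set.range b)) (a i)) (Z : MvPolynomial ι ℂ) :
    ∃ μ : Polynomial (MvPolynomial (Fin n) ℂ), μ.Monic ∧
      (μ.map (aeval b : MvPolynomial (Fin n) ℂ →ₐ[ℂ] K).toRingHom).eval (aeval a Z) = 0 ∧
      ∀ (y' : Fin n → ℂ) (T' : ℂ), (μ.map (eval y')).eval T' = 0 →
        ∃ w ∈ pts a, (∀ j, eval w (B j) = y' j) ∧ eval w Z = T' := by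
  classical
  have hbA : ∀ j, b j ∈ Algebra.adjoin ℂ (Set.range a) := fun j => by
    rw [← hB j]; exact aeval_mem_adjoin a (B j)
  -- the ring hom from R to A
  let ρ : MvPolynomial (Fin n) ℂ →ₐ[ℂ] Algebra.adjoin ℂ (Set.range a) :=
    aeval (fun j => (⟨b j, hbA j⟩ : Algebra.adjoin ℂ (Set.range a)))
  have hρ : (Algebra.adjoin ℂ (Set.range a)).val.comp ρ = aeval b := by
    apply MvPolynomial.algHom_ext
    intro j
    simp [ρ]
  have hρ' : ∀ q, ((ρ q : Algebra.adjoin ℂ (Set.range a)) : K) = aeval b q := fun q => by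
    rw [← hρ]; rfl
  have hinj : Function.Injective ρ := by
    intro q q' h
    apply hb
    rw [← hρ' q, ← hρ' q', h]
  let alg : Algebra (MvPolynomial (Fin n) ℂ) (Algebra.adjoin ℂ (Set.range a)) :=
    ρ.toRingHom.toAlgebra
  have halg : ∀ q, algebraMap (MvPolynomial (Fin n) ℂ) (Algebra.adjoin ℂ (Set.range a)) q = ρ q :=
    fun q => rfl
  have : FaithfulSMul (MvPolynomial (Fin n) ℂ) (Algebra.adjoin ℂ (Set.range a)) :=
    (faithfulSMul_iff_algebraMap_injective _ _).2 hinj
  -- integrality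
  have hI : ∀ x : Algebra.adjoin ℂ (Set.range a), IsIntegral (MvPolynomial (Fin n) ℂ) x := by
    intro x
    obtain ⟨x, hx⟩ := x
    obtain ⟨Q, hQ⟩ : ∃ Q : MvPolynomial ι ℂ, aeval a Q = x := by
      rw [Algebra.adjoin_range_eq_range_aeval] at hx
      exact hx
    obtain ⟨p, hp, hp0⟩ := exists_monic hint Q
    refine ⟨p, hp, ?_⟩
    apply Subtype.coe_injective
    have h1 := Polynomial.hom_eval₂ p (algebraMap (MvPolynomial (Fin n) ℂ)
      (Algebra.adjoin ℂ (Set.range a))) (Algebra.adjoin ℂ (Set.range a)).val.toRingHom ⟨x, hx⟩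
    have h2 : (Algebra.adjoin ℂ (Set.range a)).val.toRingHom.comp
        (algebraMap (MvPolynomial (Fin n) ℂ) (Algebra.adjoin ℂ (Set.range a)))
        = (aeval b : MvPolynomial (Fin n) ℂ →ₐ[ℂ] K).toRingHom := by
      ext q
      · exact hρ' _
      · exact hρ' _
    rw [h2] at h1
    rw [Polynomial.eval_map, hQ] at hp0
    exact h1.trans hp0
  have : Algebra.IsIntegral (MvPolynomial (Fin n) ℂ) (Algebra.adjoin ℂ (Set.range a)) := ⟨hI⟩
  let ζ : Algebra.adjoin ℂ (Set.range a) := ⟨aeval a Z, aeval_mem_adjoin a Z⟩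
  let μ : Polynomial (MvPolynomial (Fin n) ℂ) := minpoly (MvPolynomial (Fin n) ℂ) ζ
  have hμ : μ.Monic := minpoly.monic (hI ζ)
  have hμ0 : μ.eval₂ (algebraMap (MvPolynomial (Fin n) ℂ) (Algebra.adjoin ℂ (Set.range a))) ζ = 0 :=
    minpoly.aeval (MvPolynomial (Fin n) ℂ) ζ
  refine ⟨μ, hμ, ?_, ?_⟩
  · have h1 := Polynomial.hom_eval₂ μ (algebraMap (MvPolynomial (Fin n) ℂ)
      (Algebra.adjoin ℂ (Set.range a))) (Algebra.adjoin ℂ (Set.range a)).val.toRingHom ζ
    have h2 : (Algebra.adjoin ℂ (Set.range a)).val.toRingHom.comp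
        (algebraMap (MvPolynomial (Fin n) ℂ) (Algebra.adjoin ℂ (Set.range a)))
        = (aeval b : MvPolynomial (Fin n) ℂ →ₐ[ℂ] K).toRingHom := by
      ext q
      · exact hρ' _
      · exact hρ' _
    rw [h2, hμ0, map_zero] at h1
    rw [Polynomial.eval_map]
    exact h1.symm
  · intro y' T' hT
    rw [Polynomial.eval_map] at hT
    let χ : AdjoinRoot μ →+* ℂ := AdjoinRoot.lift (eval y') T' hT
    let θ : AdjoinRoot μ →+* Algebra.adjoin ℂ (Set.range a) :=
      AdjoinRoot.lift (algebraMap (MvPolynomial (Fin n) ℂ) (Algebra.adjoin ℂ (Set.range a))) ζ hμ0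
    have hχof : ∀ q, χ (AdjoinRoot.of μ q) = eval y' q := fun q => AdjoinRoot.lift_of hT
    have hχroot : χ (AdjoinRoot.root μ) = T' := AdjoinRoot.lift_root hT
    have hθof : ∀ q, θ (AdjoinRoot.of μ q) = ρ q := fun q => AdjoinRoot.lift_of hμ0
    have hθroot : θ (AdjoinRoot.root μ) = ζ := AdjoinRoot.lift_root hμ0
    have hsurj : Function.Surjective χ := by
      intro c
      refine ⟨AdjoinRoot.of μ (C c), ?_⟩
      rw [hχof, eval_C]
    have hM : (RingHom.ker χ).IsMaximal := RingHom.ker_isMaximal_of_surjective χ hsurj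
    let algθ : Algebra (AdjoinRoot μ) (Algebra.adjoin ℂ (Set.range a)) := θ.toAlgebra
    have : IsScalarTower (MvPolynomial (Fin n) ℂ) (AdjoinRoot μ)
        (Algebra.adjoin ℂ (Set.range a)) := by
      apply IsScalarTower.of_algebraMap_eq
      intro q
      exact (hθof q).symm
    have : Algebra.IsIntegral (AdjoinRoot μ) (Algebra.adjoin ℂ (Set.range a)) :=
      Algebra.IsIntegral.tower_top (MvPolynomial (Fin n) ℂ)
    have hker : RingHom.ker (algebraMap (AdjoinRoot μ) (Algebra.adjoin ℂ (Set.range a)))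
        ≤ RingHom.ker χ := by
      intro s hs
      obtain ⟨p, rfl⟩ := AdjoinRoot.mk_surjective s
      have h1 : Polynomial.aeval ζ p = 0 := by
        have h2 : θ (AdjoinRoot.mk μ p) = 0 := hs
        rwa [AdjoinRoot.lift_mk] at h2
      have h3 : μ ∣ p := minpoly.isIntegrallyClosed_dvd (hI ζ) h1
      have h4 : AdjoinRoot.mk μ p = 0 := AdjoinRoot.mk_eq_zero.2 h3
      rw [h4]
      exact Ideal.zero_mem _
    obtain ⟨Q, hQ, hQM⟩ := Ideal.exists_ideal_over_maximal_of_isIntegral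
      (S := Algebra.adjoin ℂ (Set.range a)) (RingHom.ker χ) hker
    have := hQ
    have : Algebra.FiniteType ℂ (Algebra.adjoin ℂ (Set.range a)) :=
      (Subalgebra.fg_iff_finiteType _).1 (Subalgebra.fg_def.2 ⟨_, Set.finite_range a, rfl⟩)
    obtain ⟨φ, hφ⟩ := Lift_exists_algHom (A := Algebra.adjoin ℂ (Set.range a)) Q
    have hφθ : ∀ s : AdjoinRoot μ, φ (θ s) = χ s := by
      intro s
      have h1 : s - AdjoinRoot.of μ (C (χ s)) ∈ RingHom.ker χ := by
        rw [RingHom.mem_ker, map_sub, hχof, eval_C, sub_self]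
      rw [← hQM, Ideal.mem_comap] at h1
      have h2 := (hφ _).2 h1
      have h3 : algebraMap (AdjoinRoot μ) (Algebra.adjoin ℂ (Set.range a))
          (s - AdjoinRoot.of μ (C (χ s))) = θ s - algebraMap ℂ _ (χ s) := by
        show θ _ = _
        rw [map_sub, hθof]
        congr 1
        show ρ (C (χ s)) = _
        rw [← MvPolynomial.algebraMap_eq, AlgHom.commutes]
      rw [h3, map_sub, AlgHom.commutes, sub_eq_zero] at h2
      exact h2
    obtain ⟨w, hw, hwφ⟩ := exists_pt_of_algHom a φ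
    refine ⟨w, hw, fun j => ?_, ?_⟩
    · rw [hwφ]
      have h1 : (⟨aeval a (B j), aeval_mem_adjoin a (B j)⟩ : Algebra.adjoin ℂ (Set.range a))
          = θ (AdjoinRoot.of μ (X j)) := by
        rw [hθof]
        apply Subtype.coe_injective
        show aeval a (B j) = ((ρ (X j) : Algebra.adjoin ℂ (Set.range a)) : K)
        rw [hρ', aeval_X]
        exact hB j
      rw [h1, hφθ, hχof, eval_X]
    · rw [hwφ]
      have h1 : (⟨aeval a Z, aeval_mem_adjoin a Z⟩ : Algebra.adjoin ℂ (Set.range a))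
          = θ (AdjoinRoot.root μ) := hθroot.symm
      rw [h1, hφθ, hχroot]

end Pool.Agent.H13.SM

end
end

section

/-!
# The projection is open

PROOF of `exists_small_root`.  All roots with `ε ≤ ‖t‖` would give `ε ^ d ≤ ∏ ‖t‖ = ‖p.coeff 0‖`
(`Polynomial.coeff_zero_eq_prod_roots_of_monic_of_splits` or similar, `d = p.natDegree`).

PROOF of `exists_separating`.  For every point `w'` of the finite set `F` with `w' ≠ w` choose `i` with
`w' i ≠ w i` and let `u w' = C (w i - w' i)⁻¹ * (X i - C (w' i))`: it is `1` at `w` and `0` at `w'`.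
`Z = 1 - ∏_{w' ∈ F, w' ≠ w} u w'`.

PROOF of `open_at`.  Let `y₀ j = eval w (B j)`.  Let `Z` be separating for the fibre over `y₀`
(`finite_fiber`) and let `μ` be as in `exists_lift` for `Z`.  `U` contains an open `U₀ ∋ w`.  Let `C` be
as in `bdd_near`.  The set `L = {w' ∈ pts a | w' ∉ U₀, ∀ i, ‖w' i‖ ≤ C}` is compact
(`isClosed_pts`, bounded), and the continuous function
`w' ↦ ∑ j, ‖eval w' (B j) - y₀ j‖ + ‖eval w' Z‖` is positive on it (a zero would be a point of the
fibre with `Z = 0`, so it would be `w ∈ U₀`), so it is `≥ δ > 0` on `L` (if `L` is empty take `δ = 1`).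
`(μ.map (eval y₀)).eval 0 = 0` by `root_at` (`eval w Z = 0`), so the coefficient
`eval y (μ.coeff 0)` tends to `0` as `y → y₀` and `1 ≤ μ.natDegree` (`μ` is monic and a specialisation
has a root).  So for `y` near `y₀`: `∑ j, ‖y j - y₀ j‖ < δ / 2`, the bound of `bdd_near` holds and
`‖eval y (μ.coeff 0)‖ < (δ / 2) ^ μ.natDegree`.  By `exists_small_root` there is a root `T` of
`μ.map (eval y)` (monic of the same degree) with `‖T‖ < δ / 2`, and by `exists_lift` a point
`w' ∈ pts a` with `eval w' (B j) = y j`, `eval w' Z = T`.  It is not in `L`, so it is in `U₀`.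
-/

open MvPolynomial Topology

noncomputable section

namespace Pool.Agent.H13.SM

variable {ι K : Type} [Field K] [Algebra ℂ K]

private theorem pow_le_prod_norm {ε : ℝ} (hε : 0 < ε) (s : Multiset ℂ) :
    (∀ t ∈ s, ε ≤ ‖t‖) → ε ^ s.card ≤ ‖s.prod‖ := by
  induction s using Multiset.induction_on with
  | empty => intro _; simp
  | cons a s ih =>
    intro h
    rw [Multiset.card_cons, Multiset.prod_cons, norm_mul, pow_succ']
    exact mul_le_mul (h a (Multiset.mem_cons_self a s))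
      (ih fun t ht => h t (Multiset.mem_cons_of_mem ht)) (by positivity) (norm_nonneg _)

theorem exists_small_root {p : Polynomial ℂ} (hp : p.Monic) (hd : 1 ≤ p.natDegree) {ε : ℝ}
    (hε : 0 < ε) (h : ‖p.coeff 0‖ < ε ^ p.natDegree) : ∃ t : ℂ, p.eval t = 0 ∧ ‖t‖ < ε := by
  have _ := hd
  by_contra hcon
  push Not at hcon
  have hs : p.Splits := IsAlgClosed.splits p
  have h1 : p.coeff 0 = (-1) ^ p.natDegree * p.roots.prod :=
    hs.coeff_zero_eq_prod_roots_of_monic hp
  have h2 : ε ^ p.roots.card ≤ ‖p.roots.prod‖ :=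
    pow_le_prod_norm hε _ fun t ht => hcon t (Polynomial.isRoot_of_mem_roots ht)
  rw [← hs.natDegree_eq_card_roots] at h2
  rw [h1, norm_mul, norm_pow, norm_neg, norm_one, one_pow, one_mul] at h
  exact absurd h2 (not_le.2 h)

theorem exists_separating {F : Set (ι → ℂ)} (hF : F.Finite) (w : ι → ℂ) :
    ∃ Z : MvPolynomial ι ℂ, eval w Z = 0 ∧ ∀ w' ∈ F, w' ≠ w → eval w' Z ≠ 0 := by
  classical
  have h1 : ∀ w' : ι → ℂ, w' ≠ w → ∃ Y : MvPolynomial ι ℂ, eval w Y = 1 ∧ eval w' Y = 0 := by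
    intro w' hne
    obtain ⟨i, hi⟩ := Function.ne_iff.1 hne
    refine ⟨C (w i - w' i)⁻¹ * (X i - C (w' i)), ?_, ?_⟩
    · have h3 : w i - w' i ≠ 0 := sub_ne_zero.2 (Ne.symm hi)
      simp [h3]
    · simp
  choose! u hu1 hu0 using h1
  refine ⟨1 - ∏ w' ∈ hF.toFinset.filter (fun w' => w' ≠ w), u w', ?_, ?_⟩
  · rw [map_sub, map_one, map_prod, Finset.prod_eq_one, sub_self]
    intro w' hw'
    exact hu1 w' (Finset.mem_filter.1 hw').2
  · intro w' hw' hne
    rw [map_sub, map_one, map_prod,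
      Finset.prod_eq_zero (Finset.mem_filter.2 ⟨hF.mem_toFinset.2 hw', hne⟩) (hu0 w' hne), sub_zero]
    exact one_ne_zero

/-- The finite projection `w ↦ (B j)(w)` is open. -/
theorem open_at [Finite ι] {a : ι → K} {n : ℕ} {b : Fin n → K} (hb : AlgebraicIndependent ℂ b)
    {B : Fin n → MvPolynomial ι ℂ} (hB : ∀ j, aeval a (B j) = b j)
    (hint : ∀ i, IsIntegral (Algebra.adjoin ℂ (Set.range b)) (a i)) {w : ι → ℂ} (hw : w ∈ pts a)
    {U : Set (ι → ℂ)} (hU : U ∈ 𝓝 w) :
    (fun w' j => eval w' (B j)) '' (pts a ∩ U) ∈ 𝓝 (fun j => eval w (B j)) := by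
  have hF := finite_fiber hB hint (fun j => eval w (B j))
  obtain ⟨Z, hZw, hZ⟩ := exists_separating hF w
  obtain ⟨μ, hμm, hμr, hμl⟩ := exists_lift hb hB hint Z
  obtain ⟨U₀, hU₀U, hU₀o, hwU₀⟩ := mem_nhds_iff.1 hU
  obtain ⟨C, hC⟩ := bdd_near hB hint (fun j => eval w (B j))
  have hroot := root_at hB hμr hw
  rw [hZw] at hroot
  have hdeg : 1 ≤ μ.natDegree := by
    by_contra hlt
    have h0 : μ = 1 := by
      rw [Nat.not_le, Nat.lt_one_iff] at hlt
      exact Polynomial.eq_one_of_monic_natDegree_zero hμm hlt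
    rw [h0, Polynomial.map_one, Polynomial.eval_one] at hroot
    exact one_ne_zero hroot
  -- the compact set of the points outside `U₀`
  have hLc : IsCompact ({w' : ι → ℂ | w' ∈ pts a ∧ w' ∉ U₀ ∧ ∀ i, ‖w' i‖ ≤ C}) := by
    have hK : IsCompact (Set.pi Set.univ fun _ : ι => Metric.closedBall (0 : ℂ) C) :=
      isCompact_univ_pi fun _ => isCompact_closedBall _ _
    refine hK.of_isClosed_subset ?_ ?_
    · have e1 : {w' : ι → ℂ | w' ∈ pts a ∧ w' ∉ U₀ ∧ ∀ i, ‖w' i‖ ≤ C} =
          pts a ∩ (U₀ᶜ ∩ ⋂ i, {w' : ι → ℂ | ‖w' i‖ ≤ C}) := by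
        ext w'
        simp only [Set.mem_ofPred_eq, Set.mem_inter_iff, Set.mem_compl_iff, Set.mem_iInter]
      rw [e1]
      refine (isClosed_pts a).inter (hU₀o.isClosed_compl.inter (isClosed_iInter fun i => ?_))
      exact isClosed_le ((continuous_apply i).norm) continuous_const
    · intro w' hw' i _
      rw [mem_closedBall_zero_iff]
      exact hw'.2.2 i
  have hgc : Continuous fun w' : ι → ℂ =>
      (∑ j, ‖eval w' (B j) - eval w (B j)‖) + ‖eval w' Z‖ :=
    (continuous_finsetSum _ fun j _ =>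
      ((MvPolynomial.continuous_eval (B j)).sub continuous_const).norm).add
      (MvPolynomial.continuous_eval Z).norm
  have hδ : ∃ δ : ℝ, 0 < δ ∧ ∀ w' ∈ {w' : ι → ℂ | w' ∈ pts a ∧ w' ∉ U₀ ∧ ∀ i, ‖w' i‖ ≤ C},
      δ ≤ (∑ j, ‖eval w' (B j) - eval w (B j)‖) + ‖eval w' Z‖ := by
    rcases Set.eq_empty_or_nonempty
      {w' : ι → ℂ | w' ∈ pts a ∧ w' ∉ U₀ ∧ ∀ i, ‖w' i‖ ≤ C} with he | hne
    · refine ⟨1, one_pos, fun w' hw' => ?_⟩
      rw [he] at hw'
      exact absurd hw' (Set.notMem_empty _)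
    · obtain ⟨w₁, hw₁, hmin⟩ := hLc.exists_isMinOn hne hgc.continuousOn
      refine ⟨_, ?_, fun w' hw' => hmin hw'⟩
      by_contra hle
      have hs0 : 0 ≤ ∑ j, ‖eval w₁ (B j) - eval w (B j)‖ :=
        Finset.sum_nonneg fun _ _ => norm_nonneg _
      have hz0 : 0 ≤ ‖eval w₁ Z‖ := norm_nonneg _
      have hs : ∑ j, ‖eval w₁ (B j) - eval w (B j)‖ = 0 := by linarith [not_lt.1 hle]
      have hz : ‖eval w₁ Z‖ = 0 := by linarith [not_lt.1 hle]
      rw [Finset.sum_eq_zero_iff_of_nonneg fun _ _ => norm_nonneg _] at hs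
      have hfib : ∀ j, eval w₁ (B j) = eval w (B j) := fun j =>
        sub_eq_zero.1 (norm_eq_zero.1 (hs j (Finset.mem_univ j)))
      have hww : w₁ = w := by
        by_contra hne1
        exact hZ w₁ ⟨hw₁.1, hfib⟩ hne1 (norm_eq_zero.1 hz)
      exact hw₁.2.1 (hww ▸ hwU₀)
  obtain ⟨δ, hδ0, hδL⟩ := hδ
  have hev2 : ∀ᶠ y : Fin n → ℂ in 𝓝 (fun j => eval w (B j)),
      ∑ j, ‖y j - eval w (B j)‖ < δ / 2 := by
    have hc : Continuous fun y : Fin n → ℂ => ∑ j, ‖y j - eval w (B j)‖ :=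
      continuous_finsetSum _ fun j _ => ((continuous_apply j).sub continuous_const).norm
    have h0 : ∑ j, ‖(fun j => eval w (B j)) j - eval w (B j)‖ < δ / 2 := by
      have : ∑ j, ‖(fun j => eval w (B j)) j - eval w (B j)‖ = 0 :=
        Finset.sum_eq_zero fun j _ => by rw [sub_self, norm_zero]
      rw [this]
      linarith
    exact hc.continuousAt.eventually (gt_mem_nhds h0)
  have hev3 : ∀ᶠ y : Fin n → ℂ in 𝓝 (fun j => eval w (B j)),
      ‖eval y (μ.coeff 0)‖ < (δ / 2) ^ μ.natDegree := by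
    have hc : Continuous fun y : Fin n → ℂ => ‖eval y (μ.coeff 0)‖ :=
      (MvPolynomial.continuous_eval (μ.coeff 0)).norm
    have h0 : ‖eval (fun j => eval w (B j)) (μ.coeff 0)‖ < (δ / 2) ^ μ.natDegree := by
      have h1 : eval (fun j => eval w (B j)) (μ.coeff 0) = 0 := by
        rw [← Polynomial.coeff_map, Polynomial.coeff_zero_eq_eval_zero]
        exact hroot
      rw [h1, norm_zero]
      positivity
    exact hc.continuousAt.eventually (gt_mem_nhds h0)
  filter_upwards [hC, hev2, hev3] with y hy1 hy2 hy3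
  have hnd : (μ.map (eval y)).natDegree = μ.natDegree := hμm.natDegree_map _
  obtain ⟨T, hT0, hTs⟩ := exists_small_root (hμm.map (eval y)) (by rw [hnd]; exact hdeg)
    (half_pos hδ0) (by rw [hnd, Polynomial.coeff_map]; exact hy3)
  obtain ⟨w', hw'a, hw'B, hw'Z⟩ := hμl y T hT0
  have hin : w' ∈ U₀ := by
    by_contra hout
    have h1 := hδL w' ⟨hw'a, hout, hy1 w' hw'a hw'B⟩
    have h2 : ∑ j, ‖eval w' (B j) - eval w (B j)‖ = ∑ j, ‖y j - eval w (B j)‖ :=
      Finset.sum_congr rfl fun j _ => by rw [hw'B j]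
    rw [h2, hw'Z] at h1
    linarith
  exact ⟨w', ⟨hw'a, hU₀U hin⟩, _root_.funext fun j => hw'B j⟩

end Pool.Agent.H13.SM

end
end

section

/-!
# A function which is not zero does not vanish near a point

PROOF of `not_eventually_zero`.  Take `b, B` as in `exists_noether`.  Let `ζ = aeval a Q ≠ 0`, integral
over `R' = Algebra.adjoin ℂ (Set.range b) ≃ MvPolynomial (Fin n) ℂ`, hence algebraic, so there is
`q : Polynomial R'` with `q.coeff 0 ≠ 0` and `aeval ζ q = 0`
(`IsAlgebraic.exists_nonzero_coeff_and_aeval_eq_zero`); transport it to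
`q : Polynomial (MvPolynomial (Fin n) ℂ)` with `q.coeff 0 ≠ 0` and `(q.map (aeval b)).eval ζ = 0`.
(Or take `μ` of `exists_monic`, `μ = X ^ k * q` with `q.coeff 0 ≠ 0`; `ζ ^ k * q(ζ) = 0`.)
If `Q = 0` on the points of the variety in the neighbourhood `U` of `w` then by `root_at`
`eval y (q.coeff 0) = 0` for all `y` in the image of `pts a ∩ U`, a neighbourhood of `y₀` by `open_at`.
A polynomial which vanishes in a neighbourhood of a point is zero (identity theorem
`AnalyticOnNhd.eq_of_eventuallyEq` and `MvPolynomial.funext`), contradiction.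
-/

open MvPolynomial Topology

noncomputable section

namespace Pool.Agent.H13.SM

variable {ι K : Type} [Field K] [Algebra ℂ K]

theorem eq_zero_of_eventually {n : ℕ} {p : MvPolynomial (Fin n) ℂ} {y₀ : Fin n → ℂ}
    (h : ∀ᶠ y in 𝓝 y₀, eval y p = 0) : p = 0 := by
  have h1 : (fun y : Fin n → ℂ => eval y p) = fun y => eval y (0 : MvPolynomial (Fin n) ℂ) := by
    refine AnalyticOnNhd.eq_of_eventuallyEq (AnalyticOnNhd.eval_mvPolynomial p)
      (AnalyticOnNhd.eval_mvPolynomial 0) (z₀ := y₀) ?_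
    filter_upwards [h] with y hy
    rw [hy, map_zero]
  exact MvPolynomial.funext fun x => congrFun h1 x

theorem not_eventually_zero [Finite ι] {a : ι → K}
    (ha : IntermediateField.adjoin ℂ (Set.range a) = ⊤) {n : ℕ} {z : Fin n → K}
    (hz : IsTranscendenceBasis ℂ z) {w : ι → ℂ} (hw : w ∈ pts a) {Q : MvPolynomial ι ℂ}
    (hQ : aeval a Q ≠ 0) : ¬ ∀ᶠ y in 𝓝 w, y ∈ pts a → eval y Q = 0 := by
  intro h
  obtain ⟨b, B, hb, hB, hint⟩ := exists_noether ha hz
  obtain ⟨p, hp, hp0⟩ := exists_monic hint Q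
  have hpne : p ≠ 0 := hp.ne_zero
  obtain ⟨q, hq⟩ : (Polynomial.X : Polynomial (MvPolynomial (Fin n) ℂ)) ^ p.natTrailingDegree ∣ p := by
    rw [Polynomial.X_pow_dvd_iff]
    intro d hd
    exact Polynomial.coeff_eq_zero_of_lt_natTrailingDegree hd
  have hq0 : q.coeff 0 ≠ 0 := by
    have h1 : p.coeff p.natTrailingDegree ≠ 0 :=
      Polynomial.coeff_natTrailingDegree_ne_zero.mpr hpne
    intro h2
    apply h1
    have h3 : p.coeff (0 + p.natTrailingDegree) =
        (Polynomial.X ^ p.natTrailingDegree * q).coeff (0 + p.natTrailingDegree) := by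
      rw [← hq]
    rw [Polynomial.coeff_X_pow_mul, h2, zero_add] at h3
    exact h3
  have hqroot : (q.map (aeval b : MvPolynomial (Fin n) ℂ →ₐ[ℂ] K).toRingHom).eval (aeval a Q) = 0 := by
    rw [hq, Polynomial.map_mul, Polynomial.map_pow, Polynomial.map_X, Polynomial.eval_mul,
      Polynomial.eval_pow, Polynomial.eval_X] at hp0
    exact (mul_eq_zero.mp hp0).resolve_left (pow_ne_zero _ hQ)
  apply hq0
  apply eq_zero_of_eventually (y₀ := fun j => eval w (B j))
  have hU : {y : ι → ℂ | y ∈ pts a → eval y Q = 0} ∈ 𝓝 w := h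
  filter_upwards [open_at hb hB hint hw hU] with y hy
  obtain ⟨w', ⟨hw', hU'⟩, rfl⟩ := hy
  have h1 := root_at hB hqroot hw'
  rw [hU' hw', ← Polynomial.coeff_zero_eq_eval_zero, Polynomial.coeff_map] at h1
  exact h1

end Pool.Agent.H13.SM

end
end

section

/-!
# A chart at a smooth point of an affine variety

PROOF.  Let `I, σ` be as in `exists_implicit` (the `f j` vanish at `w` since `w ∈ pts a`).  Only
`∀ᶠ u in 𝓝 0, σ u ∈ pts a` is left, and the last clause.

The ideal `{Q | aeval a Q = 0}` is generated by finitely many `g 1, ..., g r` (noetherian).  Suppose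
that `h u = eval (σ u) (g k)` is not eventually `0` near `0` for some `k`; `h` is analytic at `0` and
`h 0 = eval w (g k) = 0`.  Let `W` be as in `exists_null`; shrink it to an open neighbourhood of `0` on
which `σ` is analytic.  The points `y ∈ pts a` near `w`, say `y ∈ U`, are `σ (u y)` with
`u y k = y (I k) - w (I k)`, `u y ∈ W`, and `h (u y) = eval y (g k) = 0`.  So with `b, B` of
`exists_noether` the image of `pts a ∩ U` under `y ↦ (eval y (B j))_j` is contained in the image of the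
null set `{u ∈ W | h u = 0}` under the map `u ↦ (eval (σ u) (B j))_j`, which is differentiable on `W`:
it is null (`MeasureTheory.addHaar_image_eq_zero_of_differentiableOn_of_addHaar_eq_zero`, over `ℝ`).  But
it is a neighbourhood of a point by `open_at`, so it has positive measure (`IsOpen.measure_pos`).
So all `g k` vanish on `σ u` for `u` near `0`, hence all `Q` with `aeval a Q = 0` do (`Q = ∑ c_k g k`,
`Submodule.span_induction` or `Ideal.mem_span_range_iff_exists_fun`).

Last clause: if `eval (σ u) Q = 0` for `u` near `0` then, as `u y → 0` for `y → w`, `eval y Q = 0` for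
`y ∈ pts a` near `w`, against `not_eventually_zero`.
-/

open MvPolynomial Topology

noncomputable section

namespace Pool.Agent.H13.SM

variable {ι K : Type} [Field K] [Algebra ℂ K]

/-- A polynomial which vanishes at the generic point vanishes along the chart. -/
private theorem Aff_key [Fintype ι] {a : ι → K}
    (ha : IntermediateField.adjoin ℂ (Set.range a) = ⊤)
    {n : ℕ} {z : Fin n → K} (hz : IsTranscendenceBasis ℂ z)
    {w : ι → ℂ} (hw : w ∈ pts a) {I : Fin n → ι} {σ : (Fin n → ℂ) → ι → ℂ}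
    (hσ : AnalyticAt ℂ σ 0) (hσ0 : σ 0 = w)
    (hpt : ∀ᶠ y in 𝓝 w, y ∈ pts a → y = σ (fun k => y (I k) - w (I k)))
    (Q : MvPolynomial ι ℂ) (hQ : aeval a Q = 0) : ∀ᶠ u in 𝓝 0, eval (σ u) Q = 0 := by
  classical
  by_contra hne
  obtain ⟨b, B, hb, hB, hint⟩ := exists_noether ha hz
  have hcont : ∀ R : MvPolynomial ι ℂ, AnalyticAt ℂ (fun y : ι → ℂ => eval y R) (σ 0) := by
    intro R
    exact AnalyticOnNhd.eval_mvPolynomial R (σ 0) (Set.mem_univ _)
  have hh : AnalyticAt ℂ (fun u => eval (σ u) Q) 0 :=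
    AnalyticAt.fun_comp (f := σ) (g := fun y : ι → ℂ => eval y Q) (hcont Q) hσ
  have h0 : eval (σ 0) Q = 0 := by
    rw [hσ0]
    exact hw Q hQ
  obtain ⟨W, hW, hnull⟩ := exists_null hh h0 hne
  -- an open neighbourhood on which `σ` is analytic
  have hWσ : ∀ᶠ u in 𝓝 (0 : Fin n → ℂ), u ∈ W ∧ AnalyticAt ℂ σ u :=
    (Filter.eventually_of_mem hW fun u hu => hu).and hσ.eventually_analyticAt
  obtain ⟨W', hW'sub, hW'open, hW'0⟩ := mem_nhds_iff.1 hWσ
  have hκ : Filter.Tendsto (fun (y : ι → ℂ) (k : Fin n) => y (I k) - w (I k)) (𝓝 w) (𝓝 0) := by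
    have hc : Continuous fun (y : ι → ℂ) (k : Fin n) => y (I k) - w (I k) := by fun_prop
    have := hc.tendsto w
    have h00 : (fun k : Fin n => w (I k) - w (I k)) = 0 := by
      ext k
      simp
    rwa [h00] at this
  have hU : {y : ι → ℂ | (y ∈ pts a → y = σ (fun k => y (I k) - w (I k))) ∧
      (fun k => y (I k) - w (I k)) ∈ W'} ∈ 𝓝 w :=
    hpt.and (hκ (hW'open.mem_nhds hW'0))
  have himg := open_at hb hB hint hw hU
  set N : Set (Fin n → ℂ) := {u | u ∈ W' ∧ eval (σ u) Q = 0} with hN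
  have hNnull : MeasureTheory.volume N = 0 := by
    refine MeasureTheory.measure_mono_null ?_ hnull
    rintro u ⟨hu, hu'⟩
    exact ⟨(hW'sub hu).1, hu'⟩
  have hdiff : DifferentiableOn ℝ (fun (u : Fin n → ℂ) (j : Fin n) => eval (σ u) (B j)) N := by
    intro u hu
    have hσu : AnalyticAt ℂ σ u := (hW'sub hu.1).2
    have hF : AnalyticAt ℂ (fun (u : Fin n → ℂ) (j : Fin n) => eval (σ u) (B j)) u := by
      refine analyticAt_pi_iff.2 fun j => ?_
      exact AnalyticAt.fun_comp (f := σ) (g := fun y : ι → ℂ => eval y (B j))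
        (AnalyticOnNhd.eval_mvPolynomial (B j) (σ u) (Set.mem_univ _)) hσu
    exact (hF.differentiableAt.restrictScalars ℝ).differentiableWithinAt
  have h1 := MeasureTheory.addHaar_image_eq_zero_of_differentiableOn_of_addHaar_eq_zero
    MeasureTheory.volume hdiff hNnull
  have h2 : (fun (w' : ι → ℂ) (j : Fin n) => eval w' (B j)) '' (pts a ∩
      {y : ι → ℂ | (y ∈ pts a → y = σ (fun k => y (I k) - w (I k))) ∧
      (fun k => y (I k) - w (I k)) ∈ W'}) ⊆
      (fun (u : Fin n → ℂ) (j : Fin n) => eval (σ u) (B j)) '' N := by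
    rintro _ ⟨y, ⟨hya, hy1, hy2⟩, rfl⟩
    have hy := hy1 hya
    refine ⟨fun k => y (I k) - w (I k), ⟨hy2, ?_⟩, ?_⟩
    · rw [← hy]
      exact hya Q hQ
    · simp only
      rw [← hy]
  have h3 : MeasureTheory.volume ((fun (w' : ι → ℂ) (j : Fin n) => eval w' (B j)) '' (pts a ∩
      {y : ι → ℂ | (y ∈ pts a → y = σ (fun k => y (I k) - w (I k))) ∧
      (fun k => y (I k) - w (I k)) ∈ W'})) = 0 :=
    MeasureTheory.measure_mono_null h2 h1
  exact (MeasureTheory.Measure.measure_pos_of_mem_nhds MeasureTheory.volume himg).ne' h3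

theorem exists_chart [Fintype ι] {a : ι → K} (ha : IntermediateField.adjoin ℂ (Set.range a) = ⊤)
    {n : ℕ} {z : Fin n → K} (hz : IsTranscendenceBasis ℂ z) {c : ℕ}
    (hcn : c + n = Fintype.card ι) {f : Fin c → MvPolynomial ι ℂ} (hf : ∀ j, aeval a (f j) = 0)
    {w : ι → ℂ} (hw : w ∈ pts a)
    (hli : LinearIndependent ℂ fun (j : Fin c) (i : ι) => eval w (pderiv i (f j))) :
    ∃ (I : Fin n → ι) (σ : (Fin n → ℂ) → ι → ℂ), AnalyticAt ℂ σ 0 ∧ σ 0 = w ∧
      (∀ᶠ u in 𝓝 0, σ u ∈ pts a ∧ ∀ k, σ u (I k) = w (I k) + u k) ∧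
      (∀ᶠ y in 𝓝 w, y ∈ pts a → y = σ (fun k => y (I k) - w (I k))) ∧
      ∀ Q : MvPolynomial ι ℂ, aeval a Q ≠ 0 → ¬ ∀ᶠ u in 𝓝 0, eval (σ u) Q = 0 := by
  obtain ⟨I, σ, hσ, hσ0, hev, hnear⟩ := exists_implicit hcn (fun j => hw (f j) (hf j)) hli
  have hpt : ∀ᶠ y in 𝓝 w, y ∈ pts a → y = σ (fun k => y (I k) - w (I k)) := by
    filter_upwards [hnear] with y hy hya
    exact hy fun j => hya (f j) (hf j)
  have key := Aff_key ha hz hw hσ hσ0 hpt
  have hall : ∀ᶠ u in 𝓝 (0 : Fin n → ℂ), σ u ∈ pts a := by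
    obtain ⟨S, hS⟩ := IsNoetherian.noetherian
      (RingHom.ker ((aeval a : MvPolynomial ι ℂ →ₐ[ℂ] K) : MvPolynomial ι ℂ →+* K))
    have h1 : ∀ᶠ u in 𝓝 (0 : Fin n → ℂ), ∀ g ∈ S, eval (σ u) g = 0 := by
      rw [Filter.eventually_all_finset]
      intro g hg
      refine key g ?_
      have : g ∈ RingHom.ker ((aeval a : MvPolynomial ι ℂ →ₐ[ℂ] K) : MvPolynomial ι ℂ →+* K) := by
        rw [← hS]
        exact Submodule.subset_span hg
      simpa [RingHom.mem_ker] using this
    filter_upwards [h1] with u hu Q hQ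
    have hle : RingHom.ker ((aeval a : MvPolynomial ι ℂ →ₐ[ℂ] K) : MvPolynomial ι ℂ →+* K) ≤
        RingHom.ker (eval (σ u)) := by
      rw [← hS]
      refine Ideal.span_le.2 fun g hg => ?_
      exact hu g hg
    exact hle (by simpa [RingHom.mem_ker] using hQ)
  refine ⟨I, σ, hσ, hσ0, ?_, hpt, ?_⟩
  · filter_upwards [hall, hev] with u hu1 hu2
    exact ⟨hu1, hu2.2⟩
  · intro Q hQ hz0
    refine not_eventually_zero ha hz hw hQ ?_
    have hκ : Filter.Tendsto (fun (y : ι → ℂ) (k : Fin n) => y (I k) - w (I k)) (𝓝 w) (𝓝 0) := by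
      have hc : Continuous fun (y : ι → ℂ) (k : Fin n) => y (I k) - w (I k) := by fun_prop
      have := hc.tendsto w
      have h00 : (fun k : Fin n => w (I k) - w (I k)) = 0 := by
        ext k
        simp
      rwa [h00] at this
    filter_upwards [hpt, hκ.eventually hz0] with y hy1 hy2 hya
    have hy := hy1 hya
    rw [hy]
    exact hy2

end Pool.Agent.H13.SM

end
end

section

/-!
# GG Gen: a germ of an analytic map with values in the variety of a prime ideal, with independent coordinates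

PROOF.  Let `K` be the fraction field of `ℂ[y]/𝔮`.  The `y_(b i)` are algebraically independent in `K`; extend them to a transcendence basis `y_(b' i)`, `i < d`, of coordinates.  The other coordinates `y_l` have minimal polynomials `f_l` over `ℂ(y_(b'))`, `∂f_l/∂y_l ≠ 0` in `K`; clear denominators.
There is a zero `w` of `𝔮` with `Δ (w) ∏ ∂f_l/∂y_l (w) ≠ 0` (Nullstellensatz).  The gradients of the `f_l` at `w` are independent: `H13.SM.exists_chart` (file `H13/SM/Aff.lean`, `pts a` = zeros of `𝔮`) gives a chart `σ`; the derivative of `σ` at `0` is injective with image the kernel of the gradients, on which the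
`b'`-coordinates are coordinates.
-/

set_option autoImplicit false

open MvPolynomial Topology Filter

noncomputable section

namespace Pool.Agent.GG.Gen

open Pool.Agent.H13.SM (pts)

variable {ι : Type} [Fintype ι]

/-- the field of fractions -/
abbrev FF (q : Ideal (MvPolynomial ι ℂ)) : Type := FractionRing (MvPolynomial ι ℂ ⧸ q)

/-- the generic point -/
def gp (q : Ideal (MvPolynomial ι ℂ)) (i : ι) : FF q := algebraMap (MvPolynomial ι ℂ ⧸ q) (FF q) (Ideal.Quotient.mk q (X i))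

omit [Fintype ι] in
theorem aeval_gp (q : Ideal (MvPolynomial ι ℂ)) (Q : MvPolynomial ι ℂ) :
    aeval (gp q) Q = algebraMap (MvPolynomial ι ℂ ⧸ q) (FF q) (Ideal.Quotient.mk q Q) := by
  have h : (aeval (gp q) : MvPolynomial ι ℂ →ₐ[ℂ] FF q) =
      (IsScalarTower.toAlgHom ℂ (MvPolynomial ι ℂ ⧸ q) (FF q)).comp (Ideal.Quotient.mkₐ ℂ q) := by
    apply MvPolynomial.algHom_ext
    intro i
    rw [aeval_X]
    rfl
  rw [h]
  rfl

omit [Fintype ι] in
theorem aeval_gp_eq_zero (q : Ideal (MvPolynomial ι ℂ)) [q.IsPrime] (Q : MvPolynomial ι ℂ) : aeval (gp q) Q = 0 ↔ Q ∈ q := by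
  rw [aeval_gp, IsFractionRing.to_map_eq_zero_iff, Ideal.Quotient.eq_zero_iff_mem]

omit [Fintype ι] in
theorem exists_frac (q : Ideal (MvPolynomial ι ℂ)) [q.IsPrime] (y : FF q) :
    ∃ A B : MvPolynomial ι ℂ, aeval (gp q) B ≠ 0 ∧ y = aeval (gp q) A / aeval (gp q) B := by
  obtain ⟨r, s, hs, h⟩ := IsFractionRing.div_surjective (A := MvPolynomial ι ℂ ⧸ q) y
  obtain ⟨A, rfl⟩ := Ideal.Quotient.mk_surjective r
  obtain ⟨B, rfl⟩ := Ideal.Quotient.mk_surjective s
  refine ⟨A, B, ?_, ?_⟩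
  · rw [aeval_gp]
    intro h0
    exact nonZeroDivisors.ne_zero hs ((IsFractionRing.to_map_eq_zero_iff (K := FF q)).1 h0)
  · rw [aeval_gp, aeval_gp, h]

omit [Fintype ι] in
theorem adjoin_gp (q : Ideal (MvPolynomial ι ℂ)) [q.IsPrime] : IntermediateField.adjoin ℂ (Set.range (gp q)) = ⊤ := by
  rw [eq_top_iff]
  intro y _
  obtain ⟨A, B, -, rfl⟩ := exists_frac q y
  have h : ∀ Q : MvPolynomial ι ℂ, aeval (gp q) Q ∈ IntermediateField.adjoin ℂ (Set.range (gp q)) := fun Q =>
    IntermediateField.algebra_adjoin_le_adjoin ℂ _ (Pool.Agent.H13.SM.aeval_mem_adjoin (gp q) Q)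
  exact div_mem (h A) (h B)

omit [Fintype ι] in
theorem alg_gp (q : Ideal (MvPolynomial ι ℂ)) [q.IsPrime] : Algebra.IsAlgebraic (Algebra.adjoin ℂ (Set.range (gp q))) (FF q) := by
  refine ⟨fun y => ?_⟩
  obtain ⟨A, B, hB, rfl⟩ := exists_frac q y
  have h : ∀ Q : MvPolynomial ι ℂ, IsAlgebraic (Algebra.adjoin ℂ (Set.range (gp q))) (aeval (gp q) Q) := fun Q =>
    isAlgebraic_algebraMap (⟨aeval (gp q) Q, Pool.Agent.H13.SM.aeval_mem_adjoin (gp q) Q⟩ : Algebra.adjoin ℂ (Set.range (gp q)))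
  rw [div_eq_mul_inv]
  exact (h A).mul (h B).inv

/-- a point of `V(q)` where `D ≠ 0` -/
theorem exists_point (q : Ideal (MvPolynomial ι ℂ)) [hq : q.IsPrime] {D : MvPolynomial ι ℂ} (hD : D ∉ q) :
    ∃ w : ι → ℂ, (∀ Q ∈ q, eval w Q = 0) ∧ eval w D ≠ 0 := by
  by_contra h
  push Not at h
  apply hD
  rw [← hq.radical, ← vanishingIdeal_zeroLocus_eq_radical (K := ℂ) q, mem_vanishingIdeal_iff]
  intro w hw
  rw [mem_zeroLocus_iff] at hw
  have h1 := h w fun Q hQ => by
    have := hw Q hQ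
    rwa [← MvPolynomial.coe_aeval_eq_eval]
  rwa [← MvPolynomial.coe_aeval_eq_eval] at h1

/-- a transcendence basis of coordinates which contains given ones -/
theorem exists_basis (q : Ideal (MvPolynomial ι ℂ)) [q.IsPrime] {n : ℕ} (J : Fin n → ι)
    (hJ : ∀ p : MvPolynomial (Fin n) ℂ, rename J p ∈ q → p = 0) :
    ∃ (m : ℕ) (B : Fin m → ι) (e : Fin n → Fin m), IsTranscendenceBasis ℂ (fun j => gp q (B j)) ∧ ∀ k, B (e k) = J k := by
  classical
  have hind : AlgebraicIndependent ℂ (fun k => gp q (J k)) := by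
    rw [algebraicIndependent_iff]
    intro p hp
    apply hJ p
    rw [← aeval_gp_eq_zero, aeval_rename]
    exact hp
  have hinj : Function.Injective (fun k => gp q (J k)) := hind.injective
  have halg := alg_gp q
  obtain ⟨u, hu1, hu2, hu3⟩ := exists_isTranscendenceBasis_between (R := ℂ) (A := FF q) (Set.range fun k => gp q (J k)) (Set.range (gp q))
    (by rintro _ ⟨k, rfl⟩; exact ⟨J k, rfl⟩) hind.coe_range
  have hfin : Finite u := Set.Finite.to_subtype ((Set.finite_range (gp q)).subset hu2)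
  have := Fintype.ofFinite u
  let e₀ : Fin (Fintype.card u) ≃ u := (Fintype.equivFin u).symm
  have hidx : ∀ y : u, ∃ i : ι, gp q i = y ∧ ∀ k, gp q (J k) = y → i = J k := by
    intro y
    by_cases h : ∃ k, gp q (J k) = y
    · obtain ⟨k, hk⟩ := h
      refine ⟨J k, hk, fun k' hk' => ?_⟩
      rw [hinj (hk.trans hk'.symm)]
    · obtain ⟨i, hi⟩ := hu2 y.2
      exact ⟨i, hi, fun k hk => absurd ⟨k, hk⟩ h⟩
  choose idx hidx1 hidx2 using hidx
  refine ⟨Fintype.card u, fun j => idx (e₀ j), fun k => e₀.symm ⟨gp q (J k), hu1 ⟨k, rfl⟩⟩, ?_, fun k => ?_⟩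
  · have h : (fun j => gp q (idx (e₀ j))) = (fun y : u => (y : FF q)) ∘ e₀ := by
      funext j
      exact hidx1 (e₀ j)
    rw [h]
    exact hu3.comp_equiv e₀
  · simp only [Equiv.apply_symm_apply]
    exact hidx2 _ k rfl

/-- the map from polynomials in one variable over the polynomials in the basis -/
def Mm {m : ℕ} (B : Fin m → ι) (b : ι) : Polynomial (MvPolynomial (Fin m) ℂ) →+* MvPolynomial ι ℂ :=
  Polynomial.eval₂RingHom ((rename B : MvPolynomial (Fin m) ℂ →ₐ[ℂ] MvPolynomial ι ℂ) : MvPolynomial (Fin m) ℂ →+* MvPolynomial ι ℂ) (X b)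

omit [Fintype ι] in
theorem aeval_Mm (q : Ideal (MvPolynomial ι ℂ)) {m : ℕ} (B : Fin m → ι) (b : ι) (p : Polynomial (MvPolynomial (Fin m) ℂ)) :
    aeval (gp q) (Mm B b p) =
      p.eval₂ ((aeval (fun j => gp q (B j)) : MvPolynomial (Fin m) ℂ →ₐ[ℂ] FF q) : MvPolynomial (Fin m) ℂ →+* FF q) (gp q b) := by
  unfold Mm
  rw [Polynomial.coe_eval₂RingHom, ← AlgHom.coe_toRingHom, Polynomial.hom_eval₂]
  congr 1
  · apply RingHom.ext
    intro x
    show aeval (gp q) (rename B x) = aeval (fun j => gp q (B j)) x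
    rw [aeval_rename]
    rfl
  · show aeval (gp q) (X b) = gp q b
    rw [aeval_X]

omit [Fintype ι] in
theorem pderiv_Mm {m : ℕ} {B : Fin m → ι} {b : ι} (hb : b ∉ Set.range B) (p : Polynomial (MvPolynomial (Fin m) ℂ)) :
    pderiv b (Mm B b p) = Mm B b (Polynomial.derivative p) := by
  classical
  have h0 : ∀ c : MvPolynomial (Fin m) ℂ, pderiv b (rename B c) = 0 := by
    intro c
    apply pderiv_eq_zero_of_notMem_vars
    intro h
    have h1 := vars_rename B c h
    obtain ⟨j, -, hj⟩ := Finset.mem_image.1 h1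
    exact hb ⟨j, hj⟩
  induction p using Polynomial.induction_on' with
  | add p q hp hq => rw [map_add, map_add, hp, hq, Polynomial.derivative_add, map_add]
  | monomial k c =>
    unfold Mm
    rw [Polynomial.coe_eval₂RingHom, Polynomial.eval₂_monomial, Polynomial.derivative_monomial, Polynomial.eval₂_monomial]
    show pderiv b (rename B c * X b ^ k) = rename B (c * (k : MvPolynomial (Fin m) ℂ)) * X b ^ (k - 1)
    rw [Derivation.leibniz, h0 c, Derivation.leibniz_pow, pderiv_X_self, map_mul, map_natCast]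
    simp only [smul_eq_mul, mul_zero, add_zero, nsmul_eq_mul, mul_one]
    ring

omit [Fintype ι] in
theorem pderiv_Mm_of_ne {m : ℕ} {B : Fin m → ι} {b b' : ι} (hb' : b' ∉ Set.range B) (hne : b' ≠ b) (p : Polynomial (MvPolynomial (Fin m) ℂ)) :
    pderiv b' (Mm B b p) = 0 := by
  classical
  have h0 : ∀ c : MvPolynomial (Fin m) ℂ, pderiv b' (rename B c) = 0 := by
    intro c
    apply pderiv_eq_zero_of_notMem_vars
    intro h
    have h1 := vars_rename B c h
    obtain ⟨j, -, hj⟩ := Finset.mem_image.1 h1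
    exact hb' ⟨j, hj⟩
  induction p using Polynomial.induction_on' with
  | add p q hp hq => rw [map_add, map_add, hp, hq, add_zero]
  | monomial k c =>
    unfold Mm
    rw [Polynomial.coe_eval₂RingHom, Polynomial.eval₂_monomial]
    show pderiv b' (rename B c * X b ^ k) = 0
    rw [Derivation.leibniz, h0 c, Derivation.leibniz_pow, pderiv_X_of_ne hne.symm]
    simp

omit [Fintype ι] in
/-- the relation of a coordinate outside the basis -/
theorem exists_rel (q : Ideal (MvPolynomial ι ℂ)) [q.IsPrime] {m : ℕ} {B : Fin m → ι} (hB : IsTranscendenceBasis ℂ (fun j => gp q (B j))) {b : ι}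
    (hb : b ∉ Set.range B) :
    ∃ f : MvPolynomial ι ℂ, f ∈ q ∧ pderiv b f ∉ q ∧ ∀ b', b' ∉ Set.range B → b' ≠ b → pderiv b' f = 0 := by
  classical
  obtain ⟨z, hz⟩ : ∃ z : Fin m → FF q, z = fun j => gp q (B j) := ⟨_, rfl⟩
  rw [← hz] at hB
  have hinj : Function.Injective (aeval z : MvPolynomial (Fin m) ℂ →ₐ[ℂ] FF q) := hB.1
  let φ : MvPolynomial (Fin m) ℂ →+* FF q := ((aeval z : MvPolynomial (Fin m) ℂ →ₐ[ℂ] FF q) : MvPolynomial (Fin m) ℂ →+* FF q)
  have hφ : Function.Injective φ := hinj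
  -- some relation
  have hex : ∃ p : Polynomial (MvPolynomial (Fin m) ℂ), p ≠ 0 ∧ p.eval₂ φ (gp q b) = 0 := by
    have h1 : Algebra.IsAlgebraic (Algebra.adjoin ℂ (Set.range z)) (FF q) := hB.isAlgebraic
    obtain ⟨p₀, hp₀, hp₀0⟩ := h1.isAlgebraic (gp q b)
    let E := hB.1.aevalEquiv
    refine ⟨p₀.map (E.symm : Algebra.adjoin ℂ (Set.range z) →+* MvPolynomial (Fin m) ℂ), ?_, ?_⟩
    · intro h
      apply hp₀
      apply Polynomial.map_injective (E.symm : Algebra.adjoin ℂ (Set.range z) →+* MvPolynomial (Fin m) ℂ) E.symm.injective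
      rw [h, Polynomial.map_zero]
    · have hcomp : φ.comp (E.symm : Algebra.adjoin ℂ (Set.range z) →+* MvPolynomial (Fin m) ℂ) =
          algebraMap (Algebra.adjoin ℂ (Set.range z)) (FF q) := by
        refine RingHom.ext fun x => ?_
        have h2 := hB.1.algebraMap_aevalEquiv (E.symm x)
        have h3 : hB.1.aevalEquiv (E.symm x) = x := AlgEquiv.apply_symm_apply _ _
        rw [h3] at h2
        exact h2.symm
      rw [Polynomial.eval₂_map, hcomp]
      exact hp₀0
  -- a relation of minimal degree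
  have hex' : ∃ k : ℕ, ∃ p : Polynomial (MvPolynomial (Fin m) ℂ), p ≠ 0 ∧ p.eval₂ φ (gp q b) = 0 ∧ p.natDegree = k := by
    obtain ⟨p, h1, h2⟩ := hex
    exact ⟨_, p, h1, h2, rfl⟩
  obtain ⟨p, hp, hp0, hpd⟩ := Nat.find_spec hex'
  have hmin : ∀ r : Polynomial (MvPolynomial (Fin m) ℂ), r ≠ 0 → r.eval₂ φ (gp q b) = 0 → p.natDegree ≤ r.natDegree := by
    intro r h1 h2
    rw [hpd]
    exact Nat.find_min' hex' ⟨r, h1, h2, rfl⟩
  have hdeg : p.natDegree ≠ 0 := by
    intro h
    rw [Polynomial.eq_C_of_natDegree_eq_zero h, Polynomial.eval₂_C] at hp0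
    have h1 : p.coeff 0 = 0 := hφ (by rw [hp0, map_zero])
    apply hp
    rw [Polynomial.eq_C_of_natDegree_eq_zero h, h1, Polynomial.C_0]
  have hder : (Polynomial.derivative p).eval₂ φ (gp q b) ≠ 0 := by
    intro h
    have h1 : Polynomial.derivative p ≠ 0 := by
      intro h2
      exact hdeg (Polynomial.derivative_eq_zero.1 h2)
    have h2 := hmin _ h1 h
    have h3 := Polynomial.natDegree_derivative_lt hdeg
    omega
  refine ⟨Mm B b p, ?_, ?_, fun b' h1 h2 => pderiv_Mm_of_ne h1 h2 p⟩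
  · rw [← aeval_gp_eq_zero, aeval_Mm, ← hz]
    exact hp0
  · rw [pderiv_Mm hb, ← aeval_gp_eq_zero, aeval_Mm, ← hz]
    exact hder

/-- the analytic inverse function theorem -/
theorem exists_inverse {m : ℕ} {β : (Fin m → ℂ) → (Fin m → ℂ)} (hβ : AnalyticAt ℂ β 0) (h0 : β 0 = 0)
    (hinj : ∀ ξ, fderiv ℂ β 0 ξ = 0 → ξ = 0) :
    ∃ ψ : (Fin m → ℂ) → (Fin m → ℂ), AnalyticAt ℂ ψ 0 ∧ ψ 0 = 0 ∧ ∀ᶠ u in 𝓝 0, β (ψ u) = u := by
  have hL : HasFDerivAt β (fderiv ℂ β 0) 0 := hβ.differentiableAt.hasFDerivAt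
  have hLinj : Function.Injective (fderiv ℂ β 0 : (Fin m → ℂ) →ₗ[ℂ] (Fin m → ℂ)) := by
    rw [injective_iff_map_eq_zero]
    exact hinj
  let Le : (Fin m → ℂ) ≃ₗ[ℂ] (Fin m → ℂ) := LinearEquiv.ofInjectiveEndo (fderiv ℂ β 0 : (Fin m → ℂ) →ₗ[ℂ] (Fin m → ℂ)) hLinj
  let Lc : (Fin m → ℂ) ≃L[ℂ] (Fin m → ℂ) := Le.toContinuousLinearEquiv
  have hLc : (Lc : (Fin m → ℂ) →L[ℂ] (Fin m → ℂ)) = fderiv ℂ β 0 := by
    ext1 v; rfl
  have hL' : HasFDerivAt β (Lc : (Fin m → ℂ) →L[ℂ] (Fin m → ℂ)) 0 := by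
    rw [hLc]; exact hL
  have hcd : ContDiffAt ℂ ⊤ β 0 := hβ.contDiffAt
  have hs := hcd.hasStrictFDerivAt' hL' (by simp)
  let Ψ := hs.localInverse β Lc 0
  have hΨan : AnalyticAt ℂ Ψ 0 := by
    have h1 : ContDiffAt ℂ ⊤ (hcd.localInverse hL' (by simp)) (β 0) := hcd.to_localInverse hL' (by simp)
    rw [h0] at h1
    have h2 := contDiffWithinAt_omega_iff_analyticWithinAt.1 (contDiffWithinAt_univ.2 h1)
    exact analyticWithinAt_univ.1 h2
  have hright : ∀ᶠ y in 𝓝 (0 : Fin m → ℂ), β (Ψ y) = y := by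
    have := hs.eventually_right_inverse
    rwa [h0] at this
  have hleft : ∀ᶠ y in 𝓝 (0 : Fin m → ℂ), Ψ (β y) = y := hs.eventually_left_inverse
  refine ⟨Ψ, hΨan, ?_, hright⟩
  have := hleft.self_of_nhds
  rwa [h0] at this

/-- **Analytic families in `V(q)` with given free coordinates.** -/
theorem exists_germ (q : Ideal (MvPolynomial ι ℂ)) [q.IsPrime] {D : MvPolynomial ι ℂ} (hD : D ∉ q) {n : ℕ} (J : Fin n → ι)
    (hJ : ∀ p : MvPolynomial (Fin n) ℂ, rename J p ∈ q → p = 0) :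
    ∃ γ : (Fin n → ℂ) → (ι → ℂ), AnalyticAt ℂ γ 0 ∧ (∀ᶠ u in 𝓝 0, ∀ Q ∈ q, eval (γ u) Q = 0) ∧ eval (γ 0) D ≠ 0 ∧
      ∀ᶠ u in 𝓝 0, ∀ k, γ u (J k) = γ 0 (J k) + u k := by
  classical
  obtain ⟨m, B, e, hB, he⟩ := exists_basis q J hJ
  have hBinj : Function.Injective B := by
    intro i j hij
    apply hB.1.injective
    show gp q (B i) = gp q (B j)
    rw [hij]
  -- the relations
  have hrel : ∀ b : {b : ι // b ∉ Set.range B}, ∃ f : MvPolynomial ι ℂ, f ∈ q ∧ pderiv b.1 f ∉ q ∧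
      ∀ b', b' ∉ Set.range B → b' ≠ b.1 → pderiv b' f = 0 := fun b => exists_rel q hB b.2
  choose F hF1 hF2 hF3 using hrel
  -- the point
  have hprod : (∏ b, pderiv b.1 (F b)) * D ∉ q := by
    intro h
    rcases (inferInstance : q.IsPrime).mem_or_mem h with h | h
    · obtain ⟨b, -, hb⟩ := (Ideal.IsPrime.prod_mem_iff).1 h
      exact hF2 b hb
    · exact hD h
  obtain ⟨w, hwq, hw⟩ := exists_point q hprod
  rw [map_mul, map_prod] at hw
  have hwD : eval w D ≠ 0 := right_ne_zero_of_mul hw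
  have hwF : ∀ b, eval w (pderiv b.1 (F b)) ≠ 0 := fun b => (Finset.prod_ne_zero_iff.1 (left_ne_zero_of_mul hw)) b (Finset.mem_univ b)
  -- the number of the relations
  obtain ⟨c, hc⟩ : ∃ c, c = Fintype.card {b : ι // b ∉ Set.range B} := ⟨_, rfl⟩
  have e' : Fin c ≃ {b : ι // b ∉ Set.range B} := hc ▸ (Fintype.equivFin _).symm
  have hcm : c + m = Fintype.card ι := by
    have h1 := Fintype.card_subtype_compl (fun b : ι => b ∈ Set.range B)
    have h2 : Fintype.card {b : ι // b ∈ Set.range B} = m := by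
      have h3 := Fintype.card_congr (Equiv.ofInjective B hBinj)
      rw [Fintype.card_fin] at h3
      exact (Fintype.card_congr (Equiv.refl _)).trans h3.symm
    have h4 : Fintype.card {b : ι // b ∈ Set.range B} ≤ Fintype.card ι := Fintype.card_subtype_le _
    have h5 : Fintype.card {b : ι // b ∉ Set.range B} = Fintype.card ι - Fintype.card {b : ι // b ∈ Set.range B} := by
      rw [← h1]
    rw [hc, h5]
    omega
  have hli : LinearIndependent ℂ fun (j : Fin c) (i : ι) => eval w (pderiv i (F (e' j))) := by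
    rw [Fintype.linearIndependent_iff]
    intro a ha j
    have h1 := congrFun ha (e' j).1
    rw [Finset.sum_apply, Finset.sum_eq_single j] at h1
    · rcases mul_eq_zero.1 h1 with h2 | h2
      · exact h2
      · exact absurd h2 (hwF (e' j))
    · intro j' _ hj'
      have h2 : pderiv (e' j).1 (F (e' j')) = 0 := hF3 (e' j') (e' j).1 (e' j).2 fun h => hj' (e'.injective (Subtype.ext h.symm))
      show a j' • eval w (pderiv (e' j).1 (F (e' j'))) = 0
      rw [h2, map_zero, smul_zero]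
    · intro h
      exact absurd (Finset.mem_univ j) h
  obtain ⟨I, σ, hσ, hσ0, hσ1, -, -⟩ := Pool.Agent.H13.SM.exists_chart (adjoin_gp q) hB hcm (f := fun j => F (e' j))
    (fun j => (aeval_gp_eq_zero q _).2 (hF1 _)) (w := w) (fun Q hQ => hwq Q ((aeval_gp_eq_zero q Q).1 hQ)) hli
  -- the coordinates of the basis
  have hσd : DifferentiableAt ℂ σ 0 := hσ.differentiableAt
  obtain ⟨β, hβ⟩ : ∃ β : (Fin m → ℂ) → (Fin m → ℂ), β = fun u j => σ u (B j) - w (B j) := ⟨_, rfl⟩
  have hβan : AnalyticAt ℂ β 0 := by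
    rw [hβ, analyticAt_pi_iff]
    intro j
    exact (((ContinuousLinearMap.proj (B j) : (ι → ℂ) →L[ℂ] ℂ).analyticAt (σ 0)).comp hσ).sub analyticAt_const
  have hβ0 : β 0 = 0 := by
    rw [hβ]
    funext j
    show σ 0 (B j) - w (B j) = 0
    rw [hσ0, sub_self]
  have hcoord : ∀ (i : ι) (ξ : Fin m → ℂ), fderiv ℂ (fun u => σ u i) 0 ξ = (fderiv ℂ σ 0 ξ) i := by
    intro i ξ
    have h1 : HasFDerivAt (fun u => σ u i) ((ContinuousLinearMap.proj i : (ι → ℂ) →L[ℂ] ℂ).comp (fderiv ℂ σ 0)) 0 :=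
      (ContinuousLinearMap.proj i : (ι → ℂ) →L[ℂ] ℂ).hasFDerivAt.comp 0 hσd.hasFDerivAt
    rw [h1.fderiv]
    rfl
  have hβinj : ∀ ξ, fderiv ℂ β 0 ξ = 0 → ξ = 0 := by
    intro ξ hξ
    have h1 : ∀ j, (fderiv ℂ σ 0 ξ) (B j) = 0 := by
      intro j
      have h2 : HasFDerivAt β (ContinuousLinearMap.pi fun j => (ContinuousLinearMap.proj (B j) : (ι → ℂ) →L[ℂ] ℂ).comp (fderiv ℂ σ 0)) 0 := by
        rw [hβ, hasFDerivAt_pi]
        intro j
        exact ((ContinuousLinearMap.proj (B j) : (ι → ℂ) →L[ℂ] ℂ).hasFDerivAt.comp 0 hσd.hasFDerivAt).sub_const _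
      rw [h2.fderiv] at hξ
      exact congrFun hξ j
    have h3 : fderiv ℂ σ 0 ξ = 0 := by
      funext i
      by_cases hi : i ∈ Set.range B
      · obtain ⟨j, rfl⟩ := hi
        exact h1 j
      · -- differentiate the relation
        have h4 : HasFDerivAt (fun u => eval (σ u) (F ⟨i, hi⟩))
            ((∑ i', eval (σ 0) (pderiv i' (F ⟨i, hi⟩)) • (ContinuousLinearMap.proj i' : (ι → ℂ) →L[ℂ] ℂ)).comp (fderiv ℂ σ 0)) 0 :=
          (Pool.Agent.H13.SM.Inv_hasFDerivAt_eval (F ⟨i, hi⟩) (σ 0)).comp 0 hσd.hasFDerivAt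
        have h5 : HasFDerivAt (fun u => eval (σ u) (F ⟨i, hi⟩)) (0 : (Fin m → ℂ) →L[ℂ] ℂ) 0 := by
          refine (hasFDerivAt_const (0 : ℂ) (0 : Fin m → ℂ)).congr_of_eventuallyEq ?_
          filter_upwards [hσ1] with u hu
          exact hu.1 _ ((aeval_gp_eq_zero q _).2 (hF1 _))
        have h6 := congrArg (fun L : (Fin m → ℂ) →L[ℂ] ℂ => L ξ) (h4.unique h5)
        have h7 : ∑ i', eval w (pderiv i' (F ⟨i, hi⟩)) * (fderiv ℂ σ 0 ξ) i' = 0 := by
          have h8 := h6
          simp only [ContinuousLinearMap.comp_apply, _root_.sum_apply, _root_.smul_apply,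
            ContinuousLinearMap.proj_apply, smul_eq_mul, _root_.zero_apply, hσ0] at h8
          exact h8
        rw [Finset.sum_eq_single i] at h7
        · rcases mul_eq_zero.1 h7 with h8 | h8
          · exact absurd h8 (hwF ⟨i, hi⟩)
          · exact h8
        · intro i' _ hi'
          by_cases h8 : i' ∈ Set.range B
          · obtain ⟨j, rfl⟩ := h8
            rw [h1 j, mul_zero]
          · rw [hF3 ⟨i, hi⟩ i' h8 hi', map_zero, zero_mul]
        · intro h8
          exact absurd (Finset.mem_univ i) h8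
    funext k
    have h9 : HasFDerivAt (fun u => σ u (I k)) (ContinuousLinearMap.proj k : (Fin m → ℂ) →L[ℂ] ℂ) 0 := by
      refine ((hasFDerivAt_apply (𝕜 := ℂ) k (0 : Fin m → ℂ)).const_add (w (I k))).congr_of_eventuallyEq ?_
      filter_upwards [hσ1] with u hu
      exact hu.2 k
    have h10 := hcoord (I k) ξ
    rw [h9.fderiv, h3] at h10
    exact h10
  obtain ⟨ψ, hψ, hψ0, hψ1⟩ := exists_inverse hβan hβ0 hβinj
  -- the restriction to the given coordinates
  have heinj : Function.Injective e := by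
    intro i j hij
    have h1 : AlgebraicIndependent ℂ (fun k => gp q (J k)) := by
      rw [algebraicIndependent_iff]
      intro p hp
      apply hJ p
      rw [← aeval_gp_eq_zero, aeval_rename]
      exact hp
    apply h1.injective
    show gp q (J i) = gp q (J j)
    rw [← he i, ← he j, hij]
  obtain ⟨E, hE⟩ : ∃ E : (Fin n → ℂ) →L[ℂ] (Fin m → ℂ),
      E = ContinuousLinearMap.pi fun j => ∑ k, if e k = j then (ContinuousLinearMap.proj k : (Fin n → ℂ) →L[ℂ] ℂ) else 0 := ⟨_, rfl⟩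
  have hEe : ∀ (u : Fin n → ℂ) (k : Fin n), E u (e k) = u k := by
    intro u k
    rw [hE]
    show (∑ k', if e k' = e k then (ContinuousLinearMap.proj k' : (Fin n → ℂ) →L[ℂ] ℂ) else 0) u = u k
    rw [_root_.sum_apply, Finset.sum_eq_single k]
    · rw [if_pos rfl]
      rfl
    · intro k' _ hk'
      rw [if_neg fun h => hk' (heinj h)]
      rfl
    · intro h
      exact absurd (Finset.mem_univ k) h
  have hE0 : E 0 = 0 := map_zero E
  have hEan : AnalyticAt ℂ (fun u => ψ (E u)) 0 := by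
    refine AnalyticAt.fun_comp (g := ψ) ?_ (E.analyticAt 0)
    rw [hE0]
    exact hψ
  have hEt : Tendsto E (𝓝 0) (𝓝 0) := by
    have := E.continuous.tendsto 0
    rwa [hE0] at this
  have hψt : Tendsto (fun u => ψ (E u)) (𝓝 0) (𝓝 0) := by
    have h1 := hEan.continuousAt.tendsto
    rwa [hE0, hψ0] at h1
  refine ⟨fun u => σ (ψ (E u)), ?_, ?_, ?_, ?_⟩
  · refine AnalyticAt.fun_comp (g := σ) ?_ hEan
    rw [hE0, hψ0]
    exact hσ
  · filter_upwards [hψt.eventually hσ1] with u hu Q hQ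
    exact hu.1 Q ((aeval_gp_eq_zero q Q).2 hQ)
  · show eval (σ (ψ (E 0))) D ≠ 0
    rw [hE0, hψ0, hσ0]
    exact hwD
  · filter_upwards [hEt.eventually hψ1] with u hu k
    show σ (ψ (E u)) (J k) = σ (ψ (E 0)) (J k) + u k
    rw [hE0, hψ0, hσ0]
    have h1 := congrFun hu (e k)
    rw [hβ] at h1
    have h2 : σ (ψ (E u)) (B (e k)) - w (B (e k)) = E u (e k) := h1
    rw [hEe, he] at h2
    rw [← h2]
    ring

end Pool.Agent.GG.Gen

namespace Pool.Agent.GG

theorem exists_germ {τ : Type} [Fintype τ] {𝔮 : Ideal (MvPolynomial τ ℂ)} (h𝔮 : 𝔮.IsPrime) {Δ : MvPolynomial τ ℂ} (hΔ : Δ ∉ 𝔮) {n : ℕ} (b : Fin n → τ)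
    (hb : ∀ p : MvPolynomial (Fin n) ℂ, rename b p ∈ 𝔮 → p = 0) :
    ∃ (d : ℕ) (Y : (Fin d → ℂ) → τ → ℂ), AnalyticAt ℂ Y 0 ∧ (∀ᶠ u in 𝓝 (0 : Fin d → ℂ), ∀ g ∈ 𝔮, eval (Y u) g = 0) ∧ eval (Y 0) Δ ≠ 0 ∧
      Function.Surjective (fderiv ℂ (fun (u : Fin d → ℂ) (j : Fin n) => Y u (b j)) 0) := by
  obtain ⟨Y, h1, h2, h3, h4⟩ := Gen.exists_germ 𝔮 hΔ b hb
  refine ⟨n, Y, h1, h2, h3, ?_⟩
  have h5 : HasFDerivAt (fun (u : Fin n → ℂ) (j : Fin n) => Y u (b j)) (ContinuousLinearMap.id ℂ (Fin n → ℂ)) 0 := by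
    refine ((hasFDerivAt_id (𝕜 := ℂ) (0 : Fin n → ℂ)).const_add (fun j => Y 0 (b j))).congr_of_eventuallyEq ?_
    filter_upwards [h4] with u hu
    funext j
    exact hu j
  rw [h5.fderiv]
  exact Function.surjective_id

end Pool.Agent.GG

end
end
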