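import Pool.Agent.H18.GGT.M18
import Pool.Agent.H18.GGT.M24
import Pool.Agent.H18.GGT.M54
import Pool.Agent.H18.GGT.M57
import Pool.Agent.H18.GGT.M75

/-! The parts of this file: GQ.Slice, GQ.SliceA. -/

section

/-!
# GQ Slice: an invariant prime ideal which is algebraic over the base

`D` is a derivation of `ℂ[τ]`, `S` a set whose ideal is stable under `D`, `𝔓` a prime ideal of `ℂ[σ]` of dimension `n` (the coordinates `b` are a transcendence basis), `φ : σ → τ`.  If there is a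
prime ideal `𝔮₀ ⊇ S` with `Δ ∉ 𝔮₀` which dominates `𝔓`, there is one, `𝔮`, which is stable under `D` and such that every constant `t` of `D` modulo `𝔮` is algebraic over the functions of the
coordinates `φ s`.

PROOF.  `𝔮` maximal among the stable ones.  If `t` is a transcendental constant, the map `(b, t)` has rank `n + 1` at a point of `V (𝔮)`, so for `λ` = the value of `t` there no `q ∉ 𝔓` vanishes on
the slice `t = λ`; by `dichotomy` and `flat` there is a larger one.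
-/

set_option autoImplicit false

open MvPolynomial Topology Filter
open Pool.Agent.GG Pool.Agent.GG.Gen

noncomputable section

namespace Pool.Agent.GQ

variable {σ τ : Type} [Fintype τ]

/-- the data of the slices -/
structure Good (D : Derivation ℂ (MvPolynomial τ ℂ) (MvPolynomial τ ℂ)) (S : Set (MvPolynomial τ ℂ)) (Δ : MvPolynomial τ ℂ) (φ : σ → τ)
    (𝔓 : Ideal (MvPolynomial σ ℂ)) (𝔮 : Ideal (MvPolynomial τ ℂ)) : Prop where
  prime : 𝔮.IsPrime
  sub : S ⊆ 𝔮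
  notMem : Δ ∉ 𝔮
  dom : ∀ q : MvPolynomial σ ℂ, rename φ q ∈ 𝔮 → q ∈ 𝔓
  stable : ∀ g ∈ 𝔮, D g ∈ 𝔮

omit [Fintype τ] in
theorem span_stable {D : Derivation ℂ (MvPolynomial τ ℂ) (MvPolynomial τ ℂ)} {S : Set (MvPolynomial τ ℂ)} (hS : ∀ g ∈ S, D g ∈ Ideal.span S) {g : MvPolynomial τ ℂ}
    (hg : g ∈ Ideal.span S) : D g ∈ Ideal.span S := by
  induction hg using Submodule.span_induction with
  | mem g hg => exact hS g hg
  | zero => rw [map_zero]; exact Ideal.zero_mem _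
  | add p q _ _ hp hq => rw [map_add]; exact Ideal.add_mem _ hp hq
  | smul c p hp hpD =>
    rw [smul_eq_mul, Derivation.leibniz, smul_eq_mul, smul_eq_mul]
    exact Ideal.add_mem _ (Ideal.mul_mem_left _ _ hpD) (Ideal.mul_mem_right _ _ hp)

omit [Fintype τ] in
/-- a stable ideal in a good position can be made prime and stable -/
theorem Good.of_prime {D : Derivation ℂ (MvPolynomial τ ℂ) (MvPolynomial τ ℂ)} {S S' : Set (MvPolynomial τ ℂ)} {Δ : MvPolynomial τ ℂ} {φ : σ → τ}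
    {𝔓 : Ideal (MvPolynomial σ ℂ)} (hSS : S ⊆ Ideal.span S') (hS : ∀ g ∈ S', D g ∈ Ideal.span S') {𝔮 : Ideal (MvPolynomial τ ℂ)} (h1 : 𝔮.IsPrime) (h2 : S' ⊆ 𝔮) (h3 : Δ ∉ 𝔮)
    (h4 : ∀ q : MvPolynomial σ ℂ, rename φ q ∈ 𝔮 → q ∈ 𝔓) : Good D S Δ φ 𝔓 (flat D 𝔮) ∧ Ideal.span S' ≤ flat D 𝔮 := by
  have h5 : Ideal.span S' ≤ flat D 𝔮 := le_flat (Ideal.span_le.2 h2) fun g hg => span_stable hS hg
  exact ⟨⟨inferInstance, fun g hg => h5 (hSS hg), fun h => h3 (flat_le D 𝔮 h), fun q hq => h4 q (flat_le D 𝔮 hq), fun g hg => D_mem_flat hg⟩, h5⟩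

/-- the graph of `t` -/
def graph (𝔮 : Ideal (MvPolynomial τ ℂ)) [𝔮.IsPrime] (t : MvPolynomial τ ℂ) : MvPolynomial (Option τ) ℂ →ₐ[ℂ] FF 𝔮 :=
  aeval fun o : Option τ => o.elim (aeval (gp 𝔮) t) (gp 𝔮)

/-- the slice: a germ with values in `V (𝔮)` along which `t` is constant and the coordinates `b` are free -/
theorem exists_slice_germ {𝔮 : Ideal (MvPolynomial τ ℂ)} [h𝔮 : 𝔮.IsPrime] {Δ t : MvPolynomial τ ℂ} (hΔ : Δ ∉ 𝔮) {n : ℕ} (B : Fin n → τ)
    (hB : AlgebraicIndependent ℂ (Fin.cons (aeval (gp 𝔮) t) fun j => gp 𝔮 (B j) : Fin (n + 1) → FF 𝔮)) :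
    ∃ (y : (Fin n → ℂ) → τ → ℂ) (lam : ℂ), ContinuousAt y 0 ∧ (∀ᶠ u in 𝓝 0, ∀ g ∈ 𝔮, eval (y u) g = 0) ∧ eval (y 0) Δ ≠ 0 ∧
      (∀ᶠ u in 𝓝 0, eval (y u) t = lam) ∧ ∀ᶠ u in 𝓝 0, ∀ k, y u (B k) = y 0 (B k) + u k := by
  classical
  have hgr : ∀ g : MvPolynomial τ ℂ, graph 𝔮 t (rename some g) = aeval (gp 𝔮) g := by
    intro g
    unfold graph
    rw [aeval_rename]
    rfl
  have hΔ' : rename some Δ ∉ RingHom.ker (graph 𝔮 t) := by
    rw [RingHom.mem_ker, hgr, aeval_gp_eq_zero]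
    exact hΔ
  have hpr : (RingHom.ker (graph 𝔮 t)).IsPrime := RingHom.ker_isPrime _
  obtain ⟨γ, h1, h2, h3, h4⟩ := Gen.exists_germ (RingHom.ker (graph 𝔮 t)) hΔ' (n := n + 1) (Fin.cons none fun j => some (B j)) (by
    intro p hp
    rw [RingHom.mem_ker] at hp
    unfold graph at hp
    rw [aeval_rename] at hp
    apply (algebraicIndependent_iff.1 hB) p
    rw [← hp]
    congr 2
    funext j
    refine Fin.cases rfl (fun i => rfl) j)
  have hc : ContinuousAt (fun u : Fin n → ℂ => (Fin.cons 0 u : Fin (n + 1) → ℂ)) 0 := by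
    refine Continuous.continuousAt ?_
    refine continuous_pi fun j => ?_
    refine Fin.cases ?_ (fun i => ?_) j
    · exact continuous_const
    · exact continuous_apply i
  have h0 : (Fin.cons 0 (0 : Fin n → ℂ) : Fin (n + 1) → ℂ) = 0 := by
    funext j
    refine Fin.cases rfl (fun i => rfl) j
  have ht : Tendsto (fun u : Fin n → ℂ => (Fin.cons 0 u : Fin (n + 1) → ℂ)) (𝓝 0) (𝓝 0) := by
    have := hc.tendsto
    rwa [h0] at this
  have hev : ∀ u (g : MvPolynomial τ ℂ), eval (fun s => γ u (some s)) g = eval (γ u) (rename some g) := by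
    intro u g
    rw [eval_rename]
    rfl
  refine ⟨fun u s => γ (Fin.cons 0 u) (some s), γ 0 none, ?_, ?_, ?_, ?_, ?_⟩
  · have h5 : ContinuousAt γ (Fin.cons 0 (0 : Fin n → ℂ)) := by
      rw [h0]
      exact h1.continuousAt
    have h6 : ContinuousAt (fun u : Fin n → ℂ => γ (Fin.cons 0 u)) 0 := ContinuousAt.comp (g := γ) (f := fun u : Fin n → ℂ => (Fin.cons 0 u : Fin (n + 1) → ℂ)) h5 hc
    exact continuousAt_pi.2 fun s => (continuousAt_pi.1 h6) (some s)
  · filter_upwards [ht.eventually h2] with u hu g hg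
    rw [hev]
    refine hu _ ?_
    rw [RingHom.mem_ker, hgr, aeval_gp_eq_zero]
    exact hg
  · show eval (fun s => γ (Fin.cons 0 0) (some s)) Δ ≠ 0
    rw [h0, hev]
    exact h3
  · filter_upwards [ht.eventually h2, ht.eventually h4] with u hu1 hu2
    rw [hev]
    have h5 : X none - rename some t ∈ RingHom.ker (graph 𝔮 t) := by
      rw [RingHom.mem_ker, map_sub, hgr]
      unfold graph
      rw [aeval_X]
      exact sub_self _
    have h6 := hu1 _ h5
    rw [map_sub, eval_X, sub_eq_zero] at h6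
    rw [← h6]
    have h7 := hu2 0
    simpa using h7
  · filter_upwards [ht.eventually h4] with u hu k
    have h7 := hu k.succ
    simp only [Fin.cons_succ] at h7
    rw [h7]
    show _ = γ (Fin.cons 0 0) (some (B k)) + u k
    rw [h0]

theorem exists_slice {D : Derivation ℂ (MvPolynomial τ ℂ) (MvPolynomial τ ℂ)} {S : Set (MvPolynomial τ ℂ)} (hS : ∀ g ∈ S, D g ∈ Ideal.span S) {Δ : MvPolynomial τ ℂ}
    {φ : σ → τ} {𝔓 : Ideal (MvPolynomial σ ℂ)} [𝔓.IsPrime] {n : ℕ} (b : Fin n → σ) (hb : ∀ p : MvPolynomial (Fin n) ℂ, rename b p ∈ 𝔓 → p = 0)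
    (hdim : ∀ q ∉ 𝔓, ∃ (p : MvPolynomial (Fin n) ℂ) (g : MvPolynomial σ ℂ), p ≠ 0 ∧ rename b p - g * q ∈ 𝔓)
    (h𝔓 : ∀ y : τ → ℂ, (∀ g ∈ S, eval y g = 0) → eval y Δ ≠ 0 → ∀ p ∈ 𝔓, eval (fun s => y (φ s)) p = 0)
    {𝔮₀ : Ideal (MvPolynomial τ ℂ)} (h1 : 𝔮₀.IsPrime) (h2 : S ⊆ 𝔮₀) (h3 : Δ ∉ 𝔮₀) (h4 : ∀ q : MvPolynomial σ ℂ, rename φ q ∈ 𝔮₀ → q ∈ 𝔓) :
    ∃ (𝔮 : Ideal (MvPolynomial τ ℂ)), Good D S Δ φ 𝔓 𝔮 ∧
      ∀ [𝔮.IsPrime], ∀ t : MvPolynomial τ ℂ, D t ∈ 𝔮 → IsAlgebraic (IntermediateField.adjoin ℂ (Set.range fun s => gp 𝔮 (φ s))) (aeval (gp 𝔮) t) := by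
  classical
  have hne : {𝔮 | Good D S Δ φ 𝔓 𝔮}.Nonempty := ⟨_, (Good.of_prime Ideal.subset_span hS h1 h2 h3 h4).1⟩
  obtain ⟨𝔮, h𝔮, hmax⟩ := WellFounded.has_min (wellFounded_gt : WellFounded ((· > ·) : Ideal (MvPolynomial τ ℂ) → Ideal (MvPolynomial τ ℂ) → Prop)) _ hne
  refine ⟨𝔮, h𝔮, fun t ht => ?_⟩
  by_contra hal
  have htr : Transcendental (IntermediateField.adjoin ℂ (Set.range fun s => gp 𝔮 (φ s))) (aeval (gp 𝔮) t) := hal
  -- the coordinates `b` and `t` are independent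
  have hBi : AlgebraicIndependent ℂ fun j => gp 𝔮 (φ (b j)) := by
    rw [algebraicIndependent_iff]
    intro p hp
    apply hb p
    apply h𝔮.dom
    rw [rename_rename, ← aeval_gp_eq_zero, aeval_rename]
    exact hp
  have hB : AlgebraicIndependent ℂ (Fin.cons (aeval (gp 𝔮) t) fun j => gp 𝔮 (φ (b j)) : Fin (n + 1) → FF 𝔮) := by
    have h5 : Transcendental (Algebra.adjoin ℂ (Set.range fun j => gp 𝔮 (φ (b j)))) (aeval (gp 𝔮) t) := by
      intro h6
      apply htr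
      obtain ⟨p, hp, hp0⟩ := h6
      have hle : Algebra.adjoin ℂ (Set.range fun j => gp 𝔮 (φ (b j))) ≤ (IntermediateField.adjoin ℂ (Set.range fun s => gp 𝔮 (φ s))).toSubalgebra := by
        rw [Algebra.adjoin_le_iff]
        rintro _ ⟨j, rfl⟩
        exact IntermediateField.subset_adjoin ℂ _ ⟨b j, rfl⟩
      refine ⟨p.map (Subalgebra.inclusion hle).toRingHom, ?_, ?_⟩
      · intro h7
        apply hp
        exact Polynomial.map_injective _ (Subalgebra.inclusion_injective hle) (by rw [Polynomial.map_zero]; exact h7)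
      · rw [Polynomial.aeval_def, Polynomial.eval₂_map] 
        rw [Polynomial.aeval_def] at hp0
        exact hp0
    have h6 := ((hBi.option_iff_transcendental (aeval (gp 𝔮) t)).2 h5).comp _ (finSuccEquiv n).injective
    have h7 : (Fin.cons (aeval (gp 𝔮) t) fun j => gp 𝔮 (φ (b j)) : Fin (n + 1) → FF 𝔮) =
        (fun o : Option (Fin n) => o.elim (aeval (gp 𝔮) t) fun j => gp 𝔮 (φ (b j))) ∘ finSuccEquiv n := by
      funext j
      refine Fin.cases ?_ (fun i => ?_) j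
      · rw [Function.comp_apply, finSuccEquiv_zero]
        rfl
      · rw [Function.comp_apply, finSuccEquiv_succ]
        rfl
    rw [h7]
    exact h6
  obtain ⟨y, lam, hyc, hy, hyΔ, hyt, hyb⟩ := exists_slice_germ (t := t) h𝔮.notMem (fun j => φ (b j)) hB
  rcases dichotomy ((𝔮 : Set (MvPolynomial τ ℂ)) ∪ {t - C lam}) Δ φ 𝔓 with ⟨q, hq, h⟩ | ⟨𝔮', h1', h2', h3', h4'⟩
  · obtain ⟨p, g, hp, hpg⟩ := hdim q hq
    apply hp
    refine Pool.Agent.H13.SM.eq_zero_of_eventually (y₀ := fun j => y 0 (φ (b j))) ?_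
    have hΔc : ∀ᶠ u in 𝓝 (0 : Fin n → ℂ), eval (y u) Δ ≠ 0 := by
      have hc : ContinuousAt (fun u => eval (y u) Δ) 0 := (MvPolynomial.continuous_eval _).continuousAt.comp hyc
      exact hc.eventually_ne hyΔ
    have h5 : ∀ᶠ u in 𝓝 (0 : Fin n → ℂ), eval (fun j => y 0 (φ (b j)) + u j) p = 0 := by
      filter_upwards [hy, hΔc, hyt, hyb] with u hu hΔu htu hbu
      have h6 : eval (fun s => y u (φ s)) q = 0 := by
        refine h (y u) ?_ hΔu
        rintro g (hg | rfl)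
        · exact hu g hg
        · rw [map_sub, eval_C, htu, sub_self]
      have h7 := h𝔓 (y u) (fun g hg => hu g (h𝔮.sub hg)) hΔu _ hpg
      rw [map_sub, map_mul, h6, mul_zero, sub_zero, eval_rename] at h7
      rw [← h7]
      congr 2
      funext j
      exact (hbu j).symm
    have h6 : Tendsto (fun z : Fin n → ℂ => fun j => z j - y 0 (φ (b j))) (𝓝 fun j => y 0 (φ (b j))) (𝓝 0) := by
      have h7 : ContinuousAt (fun z : Fin n → ℂ => fun j => z j - y 0 (φ (b j))) fun j => y 0 (φ (b j)) :=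
        continuousAt_pi.2 fun j => (continuous_apply j).continuousAt.sub continuousAt_const
      have h8 := h7.tendsto
      have h9 : (fun j : Fin n => y 0 (φ (b j)) - y 0 (φ (b j))) = 0 := by
        funext j
        exact sub_self _
      rwa [h9] at h8
    filter_upwards [h6.eventually h5] with z hz
    rw [← hz]
    congr 2
    funext j
    ring
  · have hst : ∀ g ∈ (𝔮 : Set (MvPolynomial τ ℂ)) ∪ {t - C lam}, D g ∈ Ideal.span ((𝔮 : Set (MvPolynomial τ ℂ)) ∪ {t - C lam}) := by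
      rintro g (hg | rfl)
      · exact Ideal.subset_span (Or.inl (h𝔮.stable g hg))
      · refine Ideal.subset_span (Or.inl ?_)
        rw [map_sub, MvPolynomial.derivation_C, sub_zero]
        exact ht
    obtain ⟨h5, h6⟩ := Good.of_prime (S := S) (Δ := Δ) (φ := φ) (𝔓 := 𝔓) (fun g hg => Ideal.subset_span (Or.inl (h𝔮.sub hg))) hst h1' h2' h3' h4'
    refine hmax _ h5 ?_
    refine lt_of_le_of_ne (fun g hg => h6 (Ideal.subset_span (Or.inl hg))) fun h7 => ?_
    have h8 : t - C lam ∈ 𝔮 := by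
      rw [h7]
      exact h6 (Ideal.subset_span (Or.inr rfl))
    apply hal
    have h9 : aeval (gp 𝔮) t = algebraMap ℂ (FF 𝔮) lam := by
      have := (aeval_gp_eq_zero 𝔮 _).2 h8
      rw [map_sub, aeval_C, sub_eq_zero] at this
      exact this
    rw [h9]
    exact isAlgebraic_algebraMap (algebraMap ℂ (IntermediateField.adjoin ℂ (Set.range fun s => gp 𝔮 (φ s))) lam)

end Pool.Agent.GQ

end
end

section

/-!
# GQ SliceA: the vectors of the arcs form a variety which is generically finite over the base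

`exists_slice` for the family `gfam f a` and the rows `I`: either the base points of the vectors with `Crit` and `Δ₀ ≠ 0` lie in a hypersurface, or there is a prime ideal `𝔮` of `ℂ[x, v]`, stable
under the derivation `Dt`, which contains the equations of the criterion, does not contain `vdet * Δ₀`, dominates the variety, and whose function field is algebraic over the function field of the
variety.
-/

set_option autoImplicit false

open MvPolynomial Topology Filter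
open Pool.Agent.H13.SM (conTan cone)
open Pool.Agent.H17LG.Variety (FunField ratio)
open Pool.Agent.H17GT (coordFun)
open Pool.Agent.GG Pool.Agent.GG.Gen

noncomputable section

namespace Pool.Agent.GQ

variable {N : ℕ} {P : Ideal (MvPolynomial (Fin (N + 1)) ℂ)} {J : ℕ} {m : Fin J → ℕ} {θ : ∀ k, SymSec P (m k)}

/-- If the family has algebraic values at the generic point, everything is algebraic (Jacobian criterion). -/
theorem alg_all {ι : Type} {𝔮 : Ideal (MvPolynomial (Ph N) ℂ)} [𝔮.IsPrime] (G : ι → MvPolynomial (Ph N) ℂ) (I : Fin (N + 1) → ι) (hI : vdet G I ∉ 𝔮)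
    (hG : ∀ r, IsAlgebraic (IntermediateField.adjoin ℂ (Set.range fun b : Fin (N + 1) => gp 𝔮 (Sum.inl b : Ph N))) (aeval (gp 𝔮) (G (I r)))) (s : Ph N) :
    IsAlgebraic (IntermediateField.adjoin ℂ (Set.range fun b : Fin (N + 1) => gp 𝔮 (Sum.inl b : Ph N))) (gp 𝔮 s) := by
  classical
  set K₁ := IntermediateField.adjoin ℂ (Set.range fun b : Fin (N + 1) => gp 𝔮 (Sum.inl b : Ph N)) with hK₁
  rcases s with b | b
  · exact isAlgebraic_algebraMap (⟨gp 𝔮 (Sum.inl b), IntermediateField.subset_adjoin ℂ _ ⟨b, rfl⟩⟩ : K₁)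
  by_contra hcon
  have hind : AlgebraicIndependent K₁ fun _ : Unit => gp 𝔮 (Sum.inr b : Ph N) := algebraicIndependent_unique_type_iff.2 hcon
  have : CharZero K₁ := charZero_of_injective_algebraMap (algebraMap ℂ K₁).injective
  obtain ⟨D, hD⟩ := Pool.Agent.GA.AlgD.exists_derivation hind fun _ => (1 : FF 𝔮)
  have hDb := hD ()
  have hDx : ∀ c, D (gp 𝔮 (Sum.inl c : Ph N)) = 0 := by
    intro c
    have h1 : gp 𝔮 (Sum.inl c : Ph N) = algebraMap K₁ (FF 𝔮) ⟨gp 𝔮 (Sum.inl c), IntermediateField.subset_adjoin ℂ _ ⟨c, rfl⟩⟩ := rfl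
    rw [h1]
    exact D.map_algebraMap _
  -- as a derivation over `ℂ`
  let E : Derivation ℂ (FF 𝔮) (FF 𝔮) := D.restrictScalars ℂ
  have hE : ∀ z, E z = D z := fun z => rfl
  have hz : ∀ r, E (aeval (gp 𝔮) (G (I r))) = 0 := by
    intro r
    have h1 : IsIntegral K₁ (aeval (gp 𝔮) (G (I r))) := (hG r).isIntegral
    have h2 : (minpoly K₁ (aeval (gp 𝔮) (G (I r)))).Separable := (minpoly.irreducible h1).separable
    have h3 := D.map_aeval (minpoly K₁ (aeval (gp 𝔮) (G (I r)))) (aeval (gp 𝔮) (G (I r)))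
    rw [minpoly.aeval, map_zero] at h3
    have h4 := h2.aeval_derivative_ne_zero (minpoly.aeval _ (aeval (gp 𝔮) (G (I r))))
    exact (smul_eq_zero.1 h3.symm).resolve_left h4
  have hmat : (Matrix.of fun l c : Fin (N + 1) => aeval (gp 𝔮) (vmat G I l c)).mulVec (fun c => E (gp 𝔮 (Sum.inr c : Ph N))) = 0 := by
    funext r
    have h1 := Pool.Agent.GA.AlgD.der_aeval E (gp 𝔮) (G (I r))
    rw [hz r, Fintype.sum_sum_type] at h1
    have h2 : ∑ c : Fin (N + 1), aeval (gp 𝔮) (pderiv (Sum.inl c) (G (I r))) * E (gp 𝔮 (Sum.inl c : Ph N)) = 0 :=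
      Finset.sum_eq_zero fun c _ => by rw [hE, hDx c, mul_zero]
    rw [h2, zero_add] at h1
    exact h1.symm
  have hdet : (Matrix.of fun l c : Fin (N + 1) => aeval (gp 𝔮) (vmat G I l c)).det ≠ 0 := by
    have h1 : (Matrix.of fun l c : Fin (N + 1) => aeval (gp 𝔮) (vmat G I l c)).det = aeval (gp 𝔮) (vdet G I) := by
      unfold vdet
      rw [AlgHom.map_det]
      rfl
    rw [h1, Ne, aeval_gp_eq_zero]
    exact hI
  have h3 := Matrix.eq_zero_of_mulVec_eq_zero hdet hmat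
  have h4 := congrFun h3 b
  rw [hE, hDb] at h4
  exact one_ne_zero h4

/-- the ideal of the affine part -/
abbrev aff (P : Ideal (MvPolynomial (Fin (N + 1)) ℂ)) [P.IsPrime] (a : Fin (N + 1)) : Ideal (MvPolynomial (Fin (N + 1)) ℂ) :=
  RingHom.ker (aeval (fun i => ratio P i a) : MvPolynomial (Fin (N + 1)) ℂ →ₐ[ℂ] FunField P)

/-- the equations of the criterion -/
def CS (f : Frame θ) (a : Fin (N + 1)) (I : Fin (N + 1) → (Unit ⊕ Unit) ⊕ (Fin f.q ⊕ Fin f.q) ⊕ Fin J) : Set (MvPolynomial (Ph N) ℂ) :=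
  {g | g = X (Sum.inl a) - 1 ∨ g = X (Sum.inr a) ∨ (∃ j, g = rename Sum.inl (f.Q j)) ∨
    (∃ j, g = ∑ b, rename Sum.inl (pderiv b (f.Q j)) * X (Sum.inr b)) ∨ ∃ l k, g = (⇑(Dt (gfam f a) I))^[k + 1] (gfam f a l)}

theorem CS_stable (f : Frame θ) (a : Fin (N + 1)) (I : Fin (N + 1) → (Unit ⊕ Unit) ⊕ (Fin f.q ⊕ Fin f.q) ⊕ Fin J) {g : MvPolynomial (Ph N) ℂ}
    (hg : g ∈ CS f a I) : Dt (gfam f a) I g ∈ Ideal.span (CS f a I) := by
  have h1 : ∀ l, Dt (gfam f a) I (gfam f a l) ∈ Ideal.span (CS f a I) := fun l =>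
    Ideal.subset_span (Or.inr (Or.inr (Or.inr (Or.inr ⟨l, 0, rfl⟩))))
  rcases hg with rfl | rfl | ⟨j, rfl⟩ | ⟨j, rfl⟩ | ⟨l, k, rfl⟩
  · rw [map_sub, Derivation.map_one_eq_zero, sub_zero]
    exact h1 (Sum.inl (Sum.inl ()))
  · exact h1 (Sum.inl (Sum.inr ()))
  · exact h1 (Sum.inr (Sum.inl (Sum.inl j)))
  · exact h1 (Sum.inr (Sum.inl (Sum.inr j)))
  · refine Ideal.subset_span (Or.inr (Or.inr (Or.inr (Or.inr ⟨l, k + 1, ?_⟩))))
    rw [Function.iterate_succ_apply' _ (k + 1)]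

theorem eval_pt_inl (x v : Fin (N + 1) → ℂ) (g : MvPolynomial (Fin (N + 1)) ℂ) : eval (pt x v) (rename Sum.inl g) = eval x g := by
  rw [eval_rename]
  rfl

/-- the zeros of the equations of the criterion -/
theorem isTan_of_CS (f : Frame θ) {a : Fin (N + 1)} {I : Fin (N + 1) → (Unit ⊕ Unit) ⊕ (Fin f.q ⊕ Fin f.q) ⊕ Fin J} {x v : Fin (N + 1) → ℂ}
    (h : ∀ g ∈ CS f a I, eval (pt x v) g = 0) : x ∈ cone P ∧ x a = 1 ∧ v ∈ conTan P x ∧ v a = 0 := by
  have h1 : x a = 1 := by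
    have := h _ (Or.inl rfl)
    rw [map_sub, eval_X, map_one] at this
    exact sub_eq_zero.1 this
  have h2 : v a = 0 := by
    have := h _ (Or.inr (Or.inl rfl))
    rwa [eval_X] at this
  have h3 : ∀ j, eval x (f.Q j) = 0 := by
    intro j
    have := h _ (Or.inr (Or.inr (Or.inl ⟨j, rfl⟩)))
    rwa [eval_pt_inl] at this
  have h4 : ∀ j, ∑ i, eval x (pderiv i (f.Q j)) * v i = 0 := by
    intro j
    have := h _ (Or.inr (Or.inr (Or.inr (Or.inl ⟨j, rfl⟩))))
    rw [map_sum] at this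
    rw [← this]
    refine Finset.sum_congr rfl fun i _ => ?_
    rw [map_mul, eval_pt_inl, eval_X]
    rfl
  have h5 : x ≠ 0 := by
    rintro rfl
    exact zero_ne_one h1
  have h6 : x ∈ cone P := by
    refine ⟨h5, fun R hR => ?_⟩
    rw [← f.span] at hR
    have : Ideal.span (Set.range f.Q) ≤ RingHom.ker (eval x : MvPolynomial (Fin (N + 1)) ℂ →+* ℂ) := by
      rw [Ideal.span_le]
      rintro _ ⟨j, rfl⟩
      exact h3 j
    exact this hR
  refine ⟨h6, h1, ?_, h2⟩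
  intro Q hQ
  rw [← f.span] at hQ
  induction hQ using Submodule.span_induction with
  | mem Q hQ =>
    obtain ⟨j, rfl⟩ := hQ
    rw [← h4 j]
    exact Finset.sum_congr rfl fun b _ => mul_comm _ _
  | zero => simp
  | add Q R _ _ hQ hR => simp only [map_add, mul_add, Finset.sum_add_distrib, hQ, hR, add_zero]
  | smul g Q hQm hQ =>
    have hQ0 : eval x Q = 0 := by
      apply h6.2
      rw [← f.span]
      exact hQm
    simp only [smul_eq_mul, Derivation.leibniz, map_add, map_mul, hQ0, zero_mul, add_zero]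
    rw [show (∑ i, v i * (eval x g * eval x (pderiv i Q))) = eval x g * ∑ i, v i * eval x (pderiv i Q) by
      rw [Finset.mul_sum]; exact Finset.sum_congr rfl fun b _ => by ring]
    rw [hQ, mul_zero]

/-- the homogenisation of `q` with respect to `x_a` -/
def hmg (a : Fin (N + 1)) (q : MvPolynomial (Fin (N + 1)) ℂ) : MvPolynomial (Fin (N + 1)) ℂ :=
  ∑ d ∈ Finset.range (q.totalDegree + 1), X a ^ (q.totalDegree - d) * homogeneousComponent d q

theorem hmg_hom (a : Fin (N + 1)) (q : MvPolynomial (Fin (N + 1)) ℂ) : (hmg a q).IsHomogeneous q.totalDegree := by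
  unfold hmg
  refine IsHomogeneous.sum _ _ _ fun d hd => ?_
  have h1 := (isHomogeneous_X_pow (R := ℂ) a (q.totalDegree - d)).mul (homogeneousComponent_isHomogeneous d q)
  rwa [Nat.sub_add_cancel (Nat.lt_succ_iff.1 (Finset.mem_range.1 hd))] at h1

theorem eval_hmg_one (a : Fin (N + 1)) (q : MvPolynomial (Fin (N + 1)) ℂ) {x : Fin (N + 1) → ℂ} (h : x a = 1) : eval x (hmg a q) = eval x q := by
  conv_rhs => rw [← sum_homogeneousComponent q]
  unfold hmg
  rw [map_sum, map_sum]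
  refine Finset.sum_congr rfl fun d _ => ?_
  rw [map_mul, map_pow, eval_X, h, one_pow, one_mul]

/-- the elements of the ideal of the affine part vanish at the points of the cone with `x_a = 1` -/
theorem eval_aff [P.IsPrime] {a : Fin (N + 1)} (ha : X a ∉ P) {x : Fin (N + 1) → ℂ} (hx : x ∈ cone P) (hxa : x a = 1) {q : MvPolynomial (Fin (N + 1)) ℂ}
    (hq : q ∈ aff P a) : eval x q = 0 := by
  have hc : coordFun P a ≠ 0 := Pool.Agent.H17R.coordFun_ne_zero_iff.2 ha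
  have h2 : Pool.Agent.H17R.gen P a (hmg a q) = aeval (fun i => ratio P i a) q := by
    unfold Pool.Agent.H17R.gen hmg
    conv_rhs => rw [← sum_homogeneousComponent q]
    rw [map_sum, map_sum]
    refine Finset.sum_congr rfl fun d _ => ?_
    rw [map_mul, map_pow, aeval_X, Pool.Agent.H17R.ratio_self hc, one_pow, one_mul]
  have h1 : Pool.Agent.H17R.gen P a (hmg a q) = 0 := by
    rw [h2]
    exact RingHom.mem_ker.1 hq
  have h3 := (Pool.Agent.H17R.gen_eq_zero_iff hc (hmg_hom a q)).1 h1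
  rw [← eval_hmg_one a q hxa]
  exact hx.2 _ h3

/-- a multiple of `q ∉ 𝔓` is a nonzero polynomial in the coordinates `b` -/
theorem exists_mul {K : Type} [Field K] [Algebra ℂ K] {σ : Type} (y : σ → K) {n : ℕ} {b : Fin n → σ} (hb : IsTranscendenceBasis ℂ fun j => y (b j))
    {q : MvPolynomial σ ℂ} (hq : aeval y q ≠ 0) : ∃ (p : MvPolynomial (Fin n) ℂ) (g : MvPolynomial σ ℂ), p ≠ 0 ∧ aeval y (rename b p - g * q) = 0 := by
  have h1 : IsAlgebraic (Algebra.adjoin ℂ (Set.range fun j => y (b j))) (aeval y q) := hb.isAlgebraic.isAlgebraic _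
  obtain ⟨p, hp0, hp⟩ := h1.exists_nonzero_coeff_and_aeval_eq_zero (mem_nonZeroDivisors_iff_ne_zero.2 hq)
  have h2 : ∀ c : Algebra.adjoin ℂ (Set.range fun j => y (b j)), ∃ r : MvPolynomial (Fin n) ℂ, aeval (fun j => y (b j)) r = (c : K) := by
    intro c
    have h3 : (c : K) ∈ (aeval (fun j => y (b j)) : MvPolynomial (Fin n) ℂ →ₐ[ℂ] K).range := by
      rw [← Algebra.adjoin_range_eq_range_aeval]
      exact c.2
    exact h3
  obtain ⟨r, hr⟩ := h2 (p.coeff 0)
  choose s hs using h2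
  refine ⟨r, -∑ i ∈ Finset.range p.natDegree, rename b (s (p.coeff (i + 1))) * q ^ i, ?_, ?_⟩
  · rintro rfl
    rw [map_zero] at hr
    exact hp0 (Subtype.ext hr.symm)
  · have h3 : aeval y (rename b r) = (p.coeff 0 : K) := by
      rw [aeval_rename]
      exact hr
    have h4 : ∀ i, aeval y (rename b (s (p.coeff (i + 1)))) = (p.coeff (i + 1) : K) := by
      intro i
      rw [aeval_rename]
      exact hs _
    rw [Polynomial.aeval_eq_sum_range, Finset.sum_range_succ'] at hp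
    rw [map_sub, map_mul, map_neg, map_sum, h3, neg_mul, sub_neg_eq_add, Finset.sum_mul, ← hp, add_comm]
    congr 1
    · refine Finset.sum_congr rfl fun i _ => ?_
      rw [map_mul, map_pow, h4, pow_succ]
      show _ = (p.coeff (i + 1) : K) * (aeval y q ^ i * aeval y q)
      ring
    · show _ = (p.coeff 0 : K) * aeval y q ^ 0
      rw [pow_zero, mul_one]

/-- **The variety of the vectors of the arcs**, from a prime ideal which contains the equations of the criterion. -/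
theorem exists_slice_of [P.IsPrime] (f : Frame θ) {n : ℕ} (hdim : ∃ z : Fin n → FunField P, IsTranscendenceBasis ℂ z) {a : Fin (N + 1)} (ha : X a ∉ P)
    (I : Fin (N + 1) → (Unit ⊕ Unit) ⊕ (Fin f.q ⊕ Fin f.q) ⊕ Fin J) (Δ₀ : MvPolynomial (Ph N) ℂ) {𝔮₀ : Ideal (MvPolynomial (Ph N) ℂ)} (h1 : 𝔮₀.IsPrime)
    (h2 : CS f a I ⊆ 𝔮₀) (h3 : vdet (gfam f a) I * Δ₀ ∉ 𝔮₀) (h4 : ∀ q, rename Sum.inl q ∈ 𝔮₀ → q ∈ aff P a) :
    ∃ (𝔮 : Ideal (MvPolynomial (Ph N) ℂ)) (_ : 𝔮.IsPrime), CS f a I ⊆ 𝔮 ∧ vdet (gfam f a) I * Δ₀ ∉ 𝔮 ∧ (∀ q, rename Sum.inl q ∈ 𝔮 ↔ q ∈ aff P a) ∧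
      (∀ g ∈ 𝔮, Dt (gfam f a) I g ∈ 𝔮) ∧
      ∀ s, IsAlgebraic (IntermediateField.adjoin ℂ (Set.range fun b : Fin (N + 1) => gp 𝔮 (Sum.inl b : Ph N))) (gp 𝔮 s) := by
  classical
  have hpt : ∀ y : Ph N → ℂ, pt (fun i => y (Sum.inl i)) (fun i => y (Sum.inr i)) = y := by
    intro y
    funext s
    cases s <;> rfl
  have hpr : (aff P a).IsPrime := RingHom.ker_isPrime _
  have hc : coordFun P a ≠ 0 := Pool.Agent.H17R.coordFun_ne_zero_iff.2 ha
  have h𝔓 : ∀ y : Ph N → ℂ, (∀ g ∈ CS f a I, eval y g = 0) → eval y (vdet (gfam f a) I * Δ₀) ≠ 0 → ∀ p ∈ aff P a, eval (fun s => y (Sum.inl s)) p = 0 := by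
    intro y hy _ p hp
    rw [← hpt y] at hy
    obtain ⟨h1, h2, -, -⟩ := isTan_of_CS f hy
    exact eval_aff ha h1 h2 hp
  obtain ⟨z, hz⟩ := hdim
  have halg : Algebra.IsAlgebraic (IntermediateField.adjoin ℂ (Set.range fun i => ratio P i a)) (FunField P) := by
    refine ⟨fun y => ?_⟩
    have h1 : y ∈ IntermediateField.adjoin ℂ (Set.range fun i => ratio P i a) := by
      rw [Pool.Agent.H17R.adjoin_ratio hc]
      exact IntermediateField.mem_top
    exact isAlgebraic_algebraMap (⟨y, h1⟩ : IntermediateField.adjoin ℂ (Set.range fun i => ratio P i a))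
  obtain ⟨b, hb⟩ := Pool.Agent.H92.GT.exists_index halg hz
  obtain ⟨𝔮, h𝔮, hal⟩ := exists_slice (D := Dt (gfam f a) I) (S := CS f a I) (fun g hg => CS_stable f a I hg) (Δ := vdet (gfam f a) I * Δ₀) (φ := (Sum.inl : Fin (N + 1) → Ph N))
    (𝔓 := aff P a) b (fun p hp => by
      have h5 : aeval (fun i => ratio P (b i) a) p = 0 := by
        have h6 := RingHom.mem_ker.1 hp
        rw [aeval_rename] at h6
        exact h6
      exact (algebraicIndependent_iff.1 hb.1) p h5) (fun q hq => by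
      obtain ⟨p, g, hp, hpg⟩ := exists_mul (fun i => ratio P i a) hb (q := q) fun h => hq (RingHom.mem_ker.2 h)
      exact ⟨p, g, hp, RingHom.mem_ker.2 hpg⟩) h𝔓 h1 h2 h3 h4
  have hpq := h𝔮.prime
  refine ⟨𝔮, hpq, h𝔮.sub, h𝔮.notMem, fun q => ⟨h𝔮.dom q, fun hq => ?_⟩, h𝔮.stable, ?_⟩
  · by_contra hcon
    have h5 : vdet (gfam f a) I * Δ₀ * rename Sum.inl q ∉ 𝔮 := fun h => (hpq.mem_or_mem h).elim h𝔮.notMem hcon
    obtain ⟨y, hy, hy0⟩ := exists_point 𝔮 h5
    rw [map_mul] at hy0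
    apply right_ne_zero_of_mul hy0
    rw [eval_rename]
    exact h𝔓 y (fun g hg => hy g (h𝔮.sub hg)) (left_ne_zero_of_mul hy0) q hq
  · refine alg_all (gfam f a) I (fun h => h𝔮.notMem (Ideal.mul_mem_right _ _ h)) fun r => ?_
    refine hal _ ?_
    exact h𝔮.sub (Or.inr (Or.inr (Or.inr (Or.inr ⟨I r, 0, rfl⟩))))

end Pool.Agent.GQ

end
end
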