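import Pool.Agent.H18.GGT.M50
import Pool.Agent.H18.GGT.M52
import Pool.Agent.H18.GGT.M58

/-! The parts of this file: H7.Qup.Bd, GT.Up. -/

section

/-!
# Qup Bd: the boundary and dominant regular maps

`exists_compat`: a dominant regular map `p : U' → U` gives an embedding `e` of the function field of `U` in the function field of `U'`.  `onBd_over`: if the
prime divisor `E` over `U'` lies over the prime divisor `D` over `U` and `D` is centred on the boundary of `U`, then `E` is centred on the boundary of `U'`.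
`logGT_up`: if `U` is of log general type, and `U'` has the same dimension, then `U'` is of log general type.
-/

set_option autoImplicit false

open MvPolynomial

noncomputable section

namespace Pool.Agent.H7.Qup

open Pool.Agent.H17 (PN VanishesAt vanishesAt_mk_iff)
open Pool.Agent.H17GT (coordFun)
open Pool.Agent.H17LG.Variety (FunField ratio IsLogGeneralType)
open Pool.Agent.H23.Fano (PrimeDivisorOver)
open Pool.Agent.H62.FC (Homog)
open Pool.Agent.H62.SA (locVar OnBd)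
open Pool.Agent.H17R (gen gen_eq_zero_iff ratio_self coordFun_ne_zero_iff gen_change exists_center ord_gen_nonneg ratio_ne_zero_iff)
open Pool.Agent.H7.Bir (vals rmap mem_of_open)

variable {N M : ℕ} {P : Ideal (MvPolynomial (Fin (N + 1)) ℂ)} {P' : Ideal (MvPolynomial (Fin (M + 1)) ℂ)} {s s' : ℕ}
  {G : Fin s → MvPolynomial (Fin (N + 1)) ℂ} {G' : Fin s' → MvPolynomial (Fin (M + 1)) ℂ} {p : PN M → PN N}

theorem ratio_change' [P.IsPrime] {i i₀ i₁ : Fin (N + 1)} (h₁ : coordFun P i₁ ≠ 0) :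
    ratio P i i₀ = ratio P i₁ i₀ * ratio P i i₁ := by
  apply Subtype.ext
  change coordFun P i / coordFun P i₀ =
    coordFun P i₁ / coordFun P i₀ * (coordFun P i / coordFun P i₁)
  rw [div_mul_div_comm, mul_comm (coordFun P i₁) (coordFun P i), mul_div_mul_right _ _ h₁]

theorem exists_coord {y : PN M} (hy : y ∈ locVar P' G') : ∃ j, (X j : MvPolynomial (Fin (M + 1)) ℂ) ∉ P' := by
  by_contra hcon
  push Not at hcon
  have h1 : ∀ i, y.rep i = 0 := by
    intro i
    have h2 := hy.1 _ (hcon i) 1 (isHomogeneous_X ℂ i)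
    unfold VanishesAt at h2
    rwa [eval_X] at h2
  exact y.rep_nonzero (funext h1)

/-- The embedding of the function fields corresponds to the map `p`. -/
def Compat (P : Ideal (MvPolynomial (Fin (N + 1)) ℂ)) [P.IsPrime] (P' : Ideal (MvPolynomial (Fin (M + 1)) ℂ)) [P'.IsPrime]
    (G' : Fin s' → MvPolynomial (Fin (M + 1)) ℂ) (p : PN M → PN N) (e : FunField P →ₐ[ℂ] FunField P') : Prop :=
  ∀ (D : ℕ) (γ : Fin (N + 1) → MvPolynomial (Fin (M + 1)) ℂ), Rep P' G' p D γ → (∃ y ∈ locVar P' G', vals γ y.rep ≠ 0) →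
    ∀ j', X j' ∉ P' → ∀ i₀, X i₀ ∉ P → ∀ i, e (ratio P i i₀) * gen P' j' (γ i₀) = gen P' j' (γ i)

theorem exists_compat [P.IsPrime] [P'.IsPrime] (hp : IsDominantMap P P' G G' p) (hP' : Homog P')
    (hG' : ∀ m, ∃ n, (G' m).IsHomogeneous n) (hne : (locVar P' G').Nonempty) :
    ∃ e : FunField P →ₐ[ℂ] FunField P', Compat P P' G' p e := by
  obtain ⟨y₀, hy₀⟩ := hne
  have hne : (locVar P' G').Nonempty := ⟨y₀, hy₀⟩
  obtain ⟨j₁, hj₁⟩ := exists_coord hy₀
  obtain ⟨i₁, hi₁⟩ := exists_coord (hp.maps y₀ hy₀)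
  obtain ⟨D₁, γ₁, hγ₁, hv₁⟩ := hp.exists_rep hy₀
  have hcj : coordFun P' j₁ ≠ 0 := coordFun_ne_zero_iff.2 hj₁
  have hci : coordFun P i₁ ≠ 0 := coordFun_ne_zero_iff.2 hi₁
  have hmaps := hp.maps_iff hP' hG' hγ₁ ⟨y₀, hy₀, hv₁⟩
  have hγi : ∀ i, X i ∉ P → γ₁ i ∉ P' := by
    intro i hi h
    apply hi
    rw [← hmaps 1 _ (isHomogeneous_X ℂ i), aeval_X]
    exact h
  have hc : gen P' j₁ (γ₁ i₁) ≠ 0 := fun h0 => hγi i₁ hi₁ ((gen_eq_zero_iff hcj (hγ₁.hom i₁)).1 h0)
  set x : Fin (N + 1) → FunField P' := fun i => gen P' j₁ (γ₁ i) / gen P' j₁ (γ₁ i₁) with hx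
  have hx1 : x i₁ = 1 := div_self hc
  have hker : ∀ (n : ℕ) (R : MvPolynomial (Fin (N + 1)) ℂ), R.IsHomogeneous n → (aeval x R = 0 ↔ R ∈ P) := by
    intro n R hR
    rw [← hmaps n R hR, ← gen_eq_zero_iff hcj (aeval_homog hγ₁.hom hR)]
    have h1 : gen P' j₁ (aeval γ₁ R) = gen P' j₁ (γ₁ i₁) ^ n * aeval x R := by
      unfold gen
      rw [Pool.Agent.H7.Bir.aeval_comp]
      exact Pool.Agent.H7.Bir.aeval_div hR hc _
    rw [h1, mul_eq_zero]
    exact ⟨Or.inr, fun h => h.resolve_left (pow_ne_zero _ hc)⟩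
  obtain ⟨e, he⟩ := exists_hom_val hci hx1 hker
  refine ⟨e, ?_⟩
  intro D γ hγ hγne j' hj' i₀ hi₀ i
  have hcj' : coordFun P' j' ≠ 0 := coordFun_ne_zero_iff.2 hj'
  have hci' : coordFun P i₀ ≠ 0 := coordFun_ne_zero_iff.2 hi₀
  -- change of the tuple
  have hrel : ∀ k l, gen P' j' (γ₁ k) * gen P' j' (γ l) = gen P' j' (γ₁ l) * gen P' j' (γ k) := by
    intro k l
    have h1 : γ₁ k * γ l - γ₁ l * γ k ∈ P' := by
      have hhom : (γ₁ k * γ l - γ₁ l * γ k).IsHomogeneous (D₁ + D) := ((hγ₁.hom k).mul (hγ.hom l)).sub ((hγ₁.hom l).mul (hγ.hom k))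
      refine mem_of_open hP' hG' hne hhom fun y hy => ?_
      unfold VanishesAt
      rw [map_sub, map_mul, map_mul, hγ₁.prop hγ hy k l, sub_self]
    have hhom : (γ₁ k * γ l - γ₁ l * γ k).IsHomogeneous (D₁ + D) := ((hγ₁.hom k).mul (hγ.hom l)).sub ((hγ₁.hom l).mul (hγ.hom k))
    have h2 := (gen_eq_zero_iff hcj' hhom).2 h1
    unfold gen at h2 ⊢
    rw [map_sub, map_mul, map_mul] at h2
    exact sub_eq_zero.1 h2
  -- change of the coordinate
  have hch : ∀ k, gen P' j₁ (γ₁ k) = ratio P' j' j₁ ^ D₁ * gen P' j' (γ₁ k) := fun k => gen_change hcj' (hγ₁.hom k)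
  have hr0 : ratio P' j' j₁ ≠ 0 := (ratio_ne_zero_iff hcj).2 hcj'
  have hg0 : gen P' j' (γ₁ i₀) ≠ 0 := fun h0 => hγi i₀ hi₀ ((gen_eq_zero_iff hcj' (hγ₁.hom i₀)).1 h0)
  have h3 : e (ratio P i i₁) = e (ratio P i₀ i₁) * e (ratio P i i₀) := by
    rw [← map_mul, ← ratio_change' hci']
  have h4 : gen P' j₁ (γ₁ i) = gen P' j₁ (γ₁ i₀) * e (ratio P i i₀) := by
    rw [he, he] at h3
    change gen P' j₁ (γ₁ i) / gen P' j₁ (γ₁ i₁) = gen P' j₁ (γ₁ i₀) / gen P' j₁ (γ₁ i₁) * e (ratio P i i₀) at h3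
    rw [div_mul_eq_mul_div, div_left_inj' hc] at h3
    exact h3
  have h5 : gen P' j' (γ₁ i) = gen P' j' (γ₁ i₀) * e (ratio P i i₀) := by
    rw [hch, hch, mul_assoc] at h4
    exact mul_left_cancel₀ (pow_ne_zero _ hr0) h4
  have h6 := hrel i i₀
  rw [h5, mul_assoc] at h6
  exact mul_left_cancel₀ hg0 h6

/-- The polynomials which vanish at the centre of `E`. -/
def ctr [P.IsPrime] {w : ℕ} (E : PrimeDivisorOver (FunField P) w) {j : Fin (N + 1)} (h : ∀ i, 0 ≤ E.ord (ratio P i j)) :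
    Ideal (MvPolynomial (Fin (N + 1)) ℂ) where
  carrier := {R | 0 < E.ord (gen P j R)}
  add_mem' := by
    intro a b ha hb
    change 0 < E.ord (aeval _ (a + b))
    rw [map_add]
    exact (lt_min ha hb).trans_le (E.ord.map_add _ _)
  zero_mem' := by
    change 0 < E.ord (aeval _ 0)
    rw [map_zero, E.ord.map_zero]
    exact WithTop.coe_lt_top 0
  smul_mem' := by
    intro c x hx
    change 0 < E.ord (aeval _ (c * x))
    rw [map_mul, E.ord.map_mul]
    exact lt_of_lt_of_le hx (le_add_of_nonneg_left (ord_gen_nonneg E h c))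

theorem mem_ctr [P.IsPrime] {w : ℕ} {E : PrimeDivisorOver (FunField P) w} {j : Fin (N + 1)} {h : ∀ i, 0 ≤ E.ord (ratio P i j)}
    {R : MvPolynomial (Fin (N + 1)) ℂ} : R ∈ ctr E h ↔ 0 < E.ord (gen P j R) := Iff.rfl

theorem notMem_ctr [P.IsPrime] {w : ℕ} {E : PrimeDivisorOver (FunField P) w} {j : Fin (N + 1)} {h : ∀ i, 0 ≤ E.ord (ratio P i j)}
    {R : MvPolynomial (Fin (N + 1)) ℂ} : R ∉ ctr E h ↔ E.ord (gen P j R) = 0 := by
  rw [mem_ctr, not_lt]
  exact ⟨fun h1 => le_antisymm h1 (ord_gen_nonneg E h R), fun h1 => h1.le⟩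

instance ctr_isPrime [P.IsPrime] {w : ℕ} (E : PrimeDivisorOver (FunField P) w) {j : Fin (N + 1)} (h : ∀ i, 0 ≤ E.ord (ratio P i j)) :
    (ctr E h).IsPrime where
  ne_top' := by
    rw [Ideal.ne_top_iff_one, notMem_ctr]
    unfold gen
    rw [map_one, E.ord.map_one]
  mem_or_mem' := by
    intro a b hab
    by_contra hcon
    rw [not_or, notMem_ctr, notMem_ctr] at hcon
    rw [mem_ctr] at hab
    unfold gen at hab hcon
    rw [map_mul, E.ord.map_mul, hcon.1, hcon.2, add_zero] at hab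
    exact lt_irrefl _ hab

/-- Points of the centre. -/
theorem exists_ctr_point [P.IsPrime] {w : ℕ} (E : PrimeDivisorOver (FunField P) w) {j : Fin (N + 1)} (hj : coordFun P j ≠ 0)
    (h : ∀ i, 0 ≤ E.ord (ratio P i j)) {R : MvPolynomial (Fin (N + 1)) ℂ} (hR : R ∉ ctr E h) :
    ∃ v : Fin (N + 1) → ℂ, v ≠ 0 ∧ (∀ Q ∈ ctr E h, eval v Q = 0) ∧ eval v R ≠ 0 := by
  rw [← MvPolynomial.IsPrime.vanishingIdeal_zeroLocus (K := ℂ) (ctr E h), MvPolynomial.mem_vanishingIdeal_iff] at hR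
  push Not at hR
  obtain ⟨v, hv, hvR⟩ := hR
  rw [MvPolynomial.aeval_eq_eval] at hvR
  have hv' : ∀ Q ∈ ctr E h, eval v Q = 0 := fun Q hQ => by
    have h1 := hv Q hQ
    rwa [MvPolynomial.aeval_eq_eval] at h1
  refine ⟨v, ?_, hv', hvR⟩
  rintro rfl
  have h1 : (X j - 1 : MvPolynomial (Fin (N + 1)) ℂ) ∈ ctr E h := by
    rw [mem_ctr]
    unfold gen
    rw [map_sub, aeval_X, ratio_self hj, map_one, sub_self, E.ord.map_zero]
    exact WithTop.coe_lt_top 0
  have h2 := hv' _ h1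
  rw [map_sub, eval_X, map_one] at h2
  norm_num at h2

theorem le_ctr [P.IsPrime] {w : ℕ} {E : PrimeDivisorOver (FunField P) w} {j : Fin (N + 1)} (hj : coordFun P j ≠ 0)
    {h : ∀ i, 0 ≤ E.ord (ratio P i j)} {n : ℕ} {R : MvPolynomial (Fin (N + 1)) ℂ} (hR : R.IsHomogeneous n) (hRP : R ∈ P) : R ∈ ctr E h := by
  rw [mem_ctr, (gen_eq_zero_iff hj hR).2 hRP, E.ord.map_zero]
  exact WithTop.coe_lt_top 0

end Pool.Agent.H7.Qup

end
end

section

/-!
# GT Up: the four properties go up along dominant rational maps of the same dimension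

`ggl_up`: let the function field of the projective variety `X` be embedded in that of the projective variety `X'` of the same dimension.  If `X` has the four
properties, then so has `X'` (all of them, with the fourth one for subvarieties of every dimension).  `open_up`: so has every nonempty Zariski open subset of `X'`.
-/

set_option autoImplicit false

open Topology Filter MvPolynomial

noncomputable section

namespace Pool.Agent.GT

open Pool.Agent.H17 (PN VanishesAt HolomorphicInto puncturedDisc vanishesAt_mk_iff ZariskiClosedIn)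
open Pool.Agent.H17GT (coordFun)
open Pool.Agent.H17LG.Variety (FunField IsLogGeneralType ratio)
open Pool.Agent.H17R (gen gen_eq_zero_iff ratio_self adjoin_ratio coordFun_ne_zero_iff)
open Pool.Agent.H62.FC (Homog)
open Pool.Agent.H62.SA (locVar OnBd)
open Pool.Agent.H17EF (projVar)
open Pool.Agent.H7.Bir (vals rmap vanishesAt_rmap eval_comp mem_of_open GGL)
open Pool.Agent.H7.Qup (IsDominantMap Rep exists_compat isLGT_of_algebraic aeval_homog)

variable {N M : ℕ}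

theorem comp_component {D : ℕ} (hD : 0 < D) {γ : Fin (N + 1) → MvPolynomial (Fin (M + 1)) ℂ} (hγ : ∀ i, (γ i).IsHomogeneous D) (F : MvPolynomial (Fin (N + 1)) ℂ) (n : ℕ) :
    homogeneousComponent (D * n) (aeval γ F) = aeval γ (homogeneousComponent n F) := by
  have h1 : ∀ m, homogeneousComponent (D * n) (aeval γ (homogeneousComponent m F)) = if m = n then aeval γ (homogeneousComponent n F) else 0 := by
    intro m
    have h2 : (aeval γ (homogeneousComponent m F)).IsHomogeneous (D * m) := aeval_homog hγ (homogeneousComponent_isHomogeneous m F)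
    rw [homogeneousComponent_of_mem (n := D * m) ((mem_homogeneousSubmodule _ _).2 h2)]
    by_cases h3 : m = n
    · rw [if_pos h3, if_pos (by rw [h3]), h3]
    · rw [if_neg h3, if_neg fun h4 => h3 (Nat.eq_of_mul_eq_mul_left hD h4).symm]
  conv_lhs => rw [← sum_homogeneousComponent F, map_sum, map_sum]
  simp only [h1]
  rw [Finset.sum_ite_eq' (Finset.range (F.totalDegree + 1)) n]
  split_ifs with h3
  · rfl
  · rw [homogeneousComponent_eq_zero _ _ (by rw [Finset.mem_range] at h3; omega), map_zero]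

/-- the ideal of the closure of the image of a subvariety -/
def imI (γ : Fin (N + 1) → MvPolynomial (Fin (M + 1)) ℂ) (Q' : Ideal (MvPolynomial (Fin (M + 1)) ℂ)) : Ideal (MvPolynomial (Fin (N + 1)) ℂ) :=
  Q'.comap (aeval γ : MvPolynomial (Fin (N + 1)) ℂ →ₐ[ℂ] MvPolynomial (Fin (M + 1)) ℂ)

theorem mem_imI {γ : Fin (N + 1) → MvPolynomial (Fin (M + 1)) ℂ} {Q' : Ideal (MvPolynomial (Fin (M + 1)) ℂ)} {F : MvPolynomial (Fin (N + 1)) ℂ} :
    F ∈ imI γ Q' ↔ aeval γ F ∈ Q' := Iff.rfl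

instance {γ : Fin (N + 1) → MvPolynomial (Fin (M + 1)) ℂ} {Q' : Ideal (MvPolynomial (Fin (M + 1)) ℂ)} [Q'.IsPrime] : (imI γ Q').IsPrime :=
  Ideal.IsPrime.comap _

theorem imI_homog {D : ℕ} (hD : 0 < D) {γ : Fin (N + 1) → MvPolynomial (Fin (M + 1)) ℂ} (hγ : ∀ i, (γ i).IsHomogeneous D)
    {Q' : Ideal (MvPolynomial (Fin (M + 1)) ℂ)} (hQ' : Homog Q') : Homog (imI γ Q') := by
  intro F hF n
  rw [mem_imI] at hF ⊢
  rw [← comp_component hD hγ]
  exact hQ' _ hF _

/-- the map to the closure of the image -/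
theorem imI_dom {D : ℕ} {γ : Fin (N + 1) → MvPolynomial (Fin (M + 1)) ℂ} (hγ : ∀ i, (γ i).IsHomogeneous D)
    {Q' : Ideal (MvPolynomial (Fin (M + 1)) ℂ)} [Q'.IsPrime] (hQ' : Homog Q') {i₀ : Fin (N + 1)} (hne : (locVar Q' fun _ : Fin 1 => γ i₀).Nonempty) :
    IsDominantMap (imI γ Q') Q' (fun _ : Fin 1 => X i₀) (fun _ : Fin 1 => γ i₀) (rmap γ) := by
  have hv : ∀ y ∈ locVar Q' fun _ : Fin 1 => γ i₀, vals γ y.rep ≠ 0 := by
    rintro y ⟨-, l, hy⟩ h0
    exact hy (congrFun h0 i₀)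
  refine ⟨?_, ?_, ?_⟩
  · intro y hy
    refine ⟨fun F hF n hn => ?_, 0, ?_⟩
    · rw [vanishesAt_rmap (hv y hy) hn]
      exact hy.1 _ hF _ (aeval_homog hγ hn)
    · rw [vanishesAt_rmap (hv y hy) (isHomogeneous_X ℂ i₀), aeval_X]
      obtain ⟨-, l, h⟩ := hy
      exact h
  · exact fun y hy => ⟨D, γ, hγ, hv y hy, fun _ _ _ => rfl⟩
  · intro F n hF h
    rw [mem_imI]
    refine mem_of_open hQ' (fun _ => ⟨D, hγ i₀⟩) hne (aeval_homog hγ hF) fun y hy => ?_
    rw [← vanishesAt_rmap (hv y hy) hF]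
    exact h y hy

/-- If the coordinates satisfy the equations, then the function field of the subvariety is an algebraic extension of the function field of its image, and
general type goes up. -/
theorem gt_of_image {D : ℕ} {γ : Fin (N + 1) → MvPolynomial (Fin (M + 1)) ℂ} (hγ : ∀ i, (γ i).IsHomogeneous D)
    {Q' : Ideal (MvPolynomial (Fin (M + 1)) ℂ)} [Q'.IsPrime] (hQ' : Homog Q') {i₀ : Fin (N + 1)} (hi₀ : γ i₀ ∉ Q') {j : Fin (M + 1)} (hj : X j ∉ Q')
    (halg : ∀ i : Fin (M + 1), ∃ (m D₁ : ℕ) (α : Fin (m + 1) → MvPolynomial (Fin (N + 1)) ℂ), (∀ l, (α l).IsHomogeneous D₁) ∧ α (Fin.last m) ∉ imI γ Q' ∧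
      ∑ l : Fin (m + 1), aeval γ (α l) * X i ^ (l : ℕ) * X j ^ (m - (l : ℕ)) ∈ Q')
    {w : ℕ} (hz' : ∃ z' : Fin w → FunField Q', IsTranscendenceBasis ℂ z')
    (hgt : (∃ z : Fin w → FunField (imI γ Q'), IsTranscendenceBasis ℂ z) → IsLogGeneralType (K := FunField (imI γ Q')) (k := w) fun _ => False) :
    IsLogGeneralType (K := FunField Q') (k := w) fun _ => False := by
  obtain ⟨y₁, hy₁, hy₁γ⟩ := Pool.Agent.H17EF.exists_point hQ' ⟨j, hj⟩ hi₀ (hγ i₀)
  have hne : (locVar Q' fun _ : Fin 1 => γ i₀).Nonempty := ⟨y₁, hy₁, 0, hy₁γ⟩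
  have hp := imI_dom hγ hQ' hne
  obtain ⟨e, he⟩ := exists_compat hp hQ' (fun _ => ⟨D, hγ i₀⟩) hne
  have hcj : coordFun Q' j ≠ 0 := coordFun_ne_zero_iff.2 hj
  have hXi : (X i₀ : MvPolynomial (Fin (N + 1)) ℂ) ∉ imI γ Q' := by
    rw [mem_imI, aeval_X]
    exact hi₀
  have hci : coordFun (imI γ Q') i₀ ≠ 0 := coordFun_ne_zero_iff.2 hXi
  have hc : gen Q' j (γ i₀) ≠ 0 := fun h0 => hi₀ ((gen_eq_zero_iff hcj (hγ i₀)).1 h0)
  have hcomp := he D γ ⟨hγ, fun _ _ _ => rfl⟩ ⟨y₁, ⟨hy₁, 0, hy₁γ⟩, fun h0 => hy₁γ (congrFun h0 i₀)⟩ j hj i₀ hXi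
  let _ : Algebra (FunField (imI γ Q')) (FunField Q') := e.toRingHom.toAlgebra
  have _ : IsScalarTower ℂ (FunField (imI γ Q')) (FunField Q') := IsScalarTower.of_algebraMap_eq fun c => (e.commutes c).symm
  have halg' : ∀ i, IsAlgebraic (FunField (imI γ Q')) (ratio Q' i j) := by
    intro i
    obtain ⟨m, D₁, α, hα, hαP, hrel⟩ := halg i
    set Fi : MvPolynomial (Fin (M + 1)) ℂ := ∑ l : Fin (m + 1), aeval γ (α l) * X i ^ (l : ℕ) * X j ^ (m - (l : ℕ)) with hFi
    have hFhom : Fi.IsHomogeneous (D * D₁ + m) := by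
      refine IsHomogeneous.sum _ _ _ fun l _ => ?_
      have h1 := ((aeval_homog hγ (hα l)).mul ((isHomogeneous_X ℂ i).pow (l : ℕ))).mul ((isHomogeneous_X ℂ j).pow (m - (l : ℕ)))
      have h2 : D * D₁ + 1 * (l : ℕ) + 1 * (m - (l : ℕ)) = D * D₁ + m := by
        have := l.2
        omega
      rw [h2] at h1
      exact h1
    have hgen := (gen_eq_zero_iff hcj hFhom).2 hrel
    have hterm : ∀ l, gen Q' j (aeval γ (α l)) = gen Q' j (γ i₀) ^ D₁ * e (gen (imI γ Q') i₀ (α l)) := by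
      intro l
      unfold gen at hc hcomp ⊢
      rw [Pool.Agent.H7.Bir.aeval_comp, Pool.Agent.H7.Bir.aeval_div (hα l) hc]
      congr 1
      have h6 : (fun i => aeval (fun i => ratio Q' i j) (γ i) / aeval (fun i => ratio Q' i j) (γ i₀)) = fun i => e (ratio (imI γ Q') i i₀) := by
        funext i
        rw [div_eq_iff hc, hcomp]
      rw [h6]
      exact (MvPolynomial.comp_aeval_apply (φ := e) (f := fun i => ratio (imI γ Q') i i₀) (α l)).symm
    have hsum : ∑ l : Fin (m + 1), e (gen (imI γ Q') i₀ (α l)) * ratio Q' i j ^ (l : ℕ) = 0 := by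
      have h6 : gen Q' j Fi = gen Q' j (γ i₀) ^ D₁ * ∑ l : Fin (m + 1), e (gen (imI γ Q') i₀ (α l)) * ratio Q' i j ^ (l : ℕ) := by
        have h8 : gen Q' j (γ i₀) ^ D₁ * ∑ l : Fin (m + 1), e (gen (imI γ Q') i₀ (α l)) * ratio Q' i j ^ (l : ℕ) =
            ∑ l : Fin (m + 1), gen Q' j (γ i₀) ^ D₁ * (e (gen (imI γ Q') i₀ (α l)) * ratio Q' i j ^ (l : ℕ)) :=
          Finset.mul_sum _ _ _
        refine Eq.trans ?_ h8.symm
        rw [hFi]
        unfold gen at hterm ⊢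
        rw [map_sum]
        refine Finset.sum_congr rfl fun l _ => ?_
        rw [map_mul, map_mul, map_pow, map_pow, aeval_X, aeval_X, ratio_self hcj, one_pow, mul_one, hterm, mul_assoc]
      rw [h6] at hgen
      exact (mul_eq_zero.1 hgen).resolve_left (pow_ne_zero _ hc)
    refine ⟨∑ l : Fin (m + 1), Polynomial.C (gen (imI γ Q') i₀ (α l)) * Polynomial.X ^ (l : ℕ), fun h0 => ?_, ?_⟩
    · have h7 := congrArg (fun q : Polynomial (FunField (imI γ Q')) => q.coeff m) h0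
      simp only [Polynomial.finsetSum_coeff, Polynomial.coeff_C_mul_X_pow, Polynomial.coeff_zero] at h7
      rw [Finset.sum_eq_single (Fin.last m)] at h7
      · rw [if_pos (by simp)] at h7
        exact hαP ((gen_eq_zero_iff hci (hα _)).1 h7)
      · intro l _ hl
        rw [if_neg]
        intro h8
        exact hl (Fin.ext (by rw [Fin.val_last]; exact h8.symm))
      · intro h8
        exact absurd (Finset.mem_univ _) h8
    · rw [map_sum]
      refine Eq.trans (Finset.sum_congr rfl fun l _ => ?_) hsum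
      rw [map_mul, map_pow, Polynomial.aeval_C, Polynomial.aeval_X]
      rfl
  have _ : Algebra.IsAlgebraic (FunField (imI γ Q')) (FunField Q') := by
    have h1 : IntermediateField.adjoin ℂ (Set.range fun i => ratio Q' i j) ≤ (algebraicClosure (FunField (imI γ Q')) (FunField Q')).restrictScalars ℂ := by
      rw [IntermediateField.adjoin_le_iff]
      rintro _ ⟨i, rfl⟩
      exact mem_algebraicClosure_iff.2 (halg' i)
    rw [adjoin_ratio hcj] at h1
    exact ⟨fun x => mem_algebraicClosure_iff.1 (h1 IntermediateField.mem_top)⟩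
  have hz : ∃ z : Fin w → FunField (imI γ Q'), IsTranscendenceBasis ℂ z := by
    obtain ⟨z', hz'⟩ := hz'
    have h1 := trdeg_add_eq ℂ (FunField (imI γ Q')) (A := FunField Q')
    rw [trdeg_eq_zero_iff.2 (inferInstance : Algebra.IsAlgebraic (FunField (imI γ Q')) (FunField Q')), add_zero, ← hz'.cardinalMk_eq_trdeg] at h1
    obtain ⟨ι, z, hz⟩ := exists_isTranscendenceBasis' ℂ (FunField (imI γ Q'))
    rw [← hz.cardinalMk_eq_trdeg] at h1
    obtain ⟨φ⟩ := Cardinal.eq.1 h1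
    exact ⟨z ∘ φ.symm, hz.comp_equiv φ.symm⟩
  exact isLGT_of_algebraic hz (fun _ _ _ _ h => h) (hgt hz)

theorem aeval_mul {n : ℕ} {R : MvPolynomial (Fin (N + 1)) ℂ} (hR : R.IsHomogeneous n) (a : MvPolynomial (Fin (M + 1)) ℂ)
    (γ : Fin (N + 1) → MvPolynomial (Fin (M + 1)) ℂ) : aeval (fun i => a * γ i) R = a ^ n * aeval γ R := by
  rw [aeval_def, aeval_def, eval₂_eq', eval₂_eq', Finset.mul_sum]
  refine Finset.sum_congr rfl fun d hd => ?_
  have h1 : ∑ i, d i = n := by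
    have h2 := hR (mem_support_iff.1 hd)
    rw [Finsupp.weight_apply, Finsupp.sum_fintype _ _ (by simp)] at h2
    simpa using h2
  simp only [mul_pow, Finset.prod_mul_distrib, Finset.prod_pow_eq_pow_sum, h1]
  ring

/-- a form vanishing on a proper closed subset -/
theorem exists_form {P : Ideal (MvPolynomial (Fin (N + 1)) ℂ)} {Ξ : Set (PN N)} (hc : ZariskiClosedIn (projVar P) Ξ) (hp : Ξ ≠ projVar P) :
    ∃ (R : MvPolynomial (Fin (N + 1)) ℂ) (n : ℕ), R.IsHomogeneous n ∧ R ∉ P ∧ ∀ x ∈ Ξ, VanishesAt R x := by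
  obtain ⟨S, hS, hΞS⟩ := hc
  obtain ⟨x₁, hx₁, R, hRS, hRx₁⟩ : ∃ x ∈ projVar P, ∃ R ∈ S, ¬ VanishesAt R x := by
    by_contra hcon
    push Not at hcon
    apply hp
    rw [hΞS]
    ext y
    exact ⟨fun hy => hy.1, fun hy => ⟨hy, fun R hR => hcon y hy R hR⟩⟩
  obtain ⟨nR, hnR⟩ := hS R hRS
  refine ⟨R, nR, hnR, fun h1 => hRx₁ (hx₁ R h1 nR hnR), fun x hx => ?_⟩
  rw [hΞS] at hx
  exact hx.2 R hRS

/-- the zero set of a form -/
theorem closed_form {P : Ideal (MvPolynomial (Fin (N + 1)) ℂ)} {T : MvPolynomial (Fin (N + 1)) ℂ} {e : ℕ} (hT : T.IsHomogeneous e) :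
    ZariskiClosedIn (projVar P) {x | x ∈ projVar P ∧ VanishesAt T x} := by
  refine ⟨{T}, fun R hR => ?_, ?_⟩
  · rw [Set.mem_singleton_iff.1 hR]
    exact ⟨_, hT⟩
  · ext x
    constructor
    · rintro ⟨h1, h2⟩
      refine ⟨h1, fun R hR => ?_⟩
      rw [Set.mem_singleton_iff.1 hR]
      exact h2
    · rintro ⟨h1, h2⟩
      exact ⟨h1, h2 T rfl⟩

theorem proper_form {P : Ideal (MvPolynomial (Fin (N + 1)) ℂ)} [P.IsPrime] (hP : Homog P) (hX : ∃ i, (X i : MvPolynomial (Fin (N + 1)) ℂ) ∉ P)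
    {T : MvPolynomial (Fin (N + 1)) ℂ} {e : ℕ} (hT : T.IsHomogeneous e) (hTP : T ∉ P) : {x | x ∈ projVar P ∧ VanishesAt T x} ≠ projVar P := by
  intro heq
  obtain ⟨y, hy, hyT⟩ := Pool.Agent.H17EF.exists_point hP hX hTP hT
  rw [← heq] at hy
  exact hyT hy.2

/-- a closed subvariety which is not contained in the zero set -/
theorem not_mem_of_not_subset {P Q : Ideal (MvPolynomial (Fin (N + 1)) ℂ)} (hPQ : P ≤ Q) {T : MvPolynomial (Fin (N + 1)) ℂ} {e : ℕ} (hT : T.IsHomogeneous e)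
    (h : ¬ projVar Q ⊆ {x | x ∈ projVar P ∧ VanishesAt T x}) : T ∉ Q := by
  intro hTQ
  exact h fun x hx => ⟨fun R hR n hn => hx R (hPQ hR) n hn, hx T hTQ e hT⟩

end Pool.Agent.GT

end
end
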