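import Pool.Agent.H18.GGT.M53
import Pool.Agent.H18.GGT.M60
import Pool.Agent.H18.GGT.M63
import Pool.Agent.H18.GGT.M70
import Pool.Agent.H18.GGT.M77

/-! The parts of this file: GB.Fin, GTL.EtJ, GTL.EtK0, GTL.EtK, GTL.EtK2, GB.Use. -/

section

/-!
# GB Fin: Theorem B, algebraic form

PROOF.  `Asm.exists_field_point`, `Vd.exists_vdet_ne`, `Pt.aeval_iter`, and `Trf.transfer` (contraposition) for `S` = the equations of the tangent vectors of the variety of `Q` in the chart and all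
`(Dt G K)^[n + 1] (G l)`, and the polynomial `vdet · q · X (inr b)`.
-/

set_option autoImplicit false

open MvPolynomial
open Pool.Agent.H13.SM (conTan cone)
open Pool.Agent.H17LG.Variety (FunField ratio IsLogGeneralType)
open Pool.Agent.H62.FC (Homog)

namespace Pool.Agent.GB

open Pool.Agent.GG

variable {N : ℕ} {P Q : Ideal (MvPolynomial (Fin (N + 1)) ℂ)} {J m : ℕ} {θ : Fin J → SymSec P m}

/-- **Theorem B.**  If `Q` gives a closed subvariety `Y`, of dimension `k ≥ 1`, which is not of general type, and `q` is a form which is not zero on it, then there is a tangent vector `(x, v)`, `v ≠ 0`, at a point `x`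
of `Y` with `q (x) ≠ 0`, which satisfies the criterion `Crit`, and the criterion for `x (z) ∈ Y`. -/
theorem exists_crit_inv [P.IsPrime] (hP : Homog P) (hm : 1 ≤ m) (hgen : Generated θ) (f : Frame (m := fun _ => m) θ) [Q.IsPrime] (hQ : Homog Q)
    (hPQ : P ≤ Q) {k : ℕ} (hk : 1 ≤ k) (hz : ∃ z : Fin k → FunField Q, IsTranscendenceBasis ℂ z)
    (hn : ¬ IsLogGeneralType (K := FunField Q) (k := k) fun _ => False) {q : MvPolynomial (Fin (N + 1)) ℂ} {n : ℕ} (hq : q.IsHomogeneous n) (hqQ : q ∉ Q) :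
    ∃ (a : Fin (N + 1)) (K : Fin (N + 1) → (Unit ⊕ Unit) ⊕ (Fin f.q ⊕ Fin f.q) ⊕ Fin J) (x v : Fin (N + 1) → ℂ),
      x ∈ cone Q ∧ x a = 1 ∧ v ∈ conTan Q x ∧ v a = 0 ∧ v ≠ 0 ∧ eval x q ≠ 0 ∧ Crit (gfam f a) K (pt x v) ∧
        ∀ p ∈ Q, ∀ n, eval (pt x v) ((⇑(Dt (gfam f a) K))^[n] (rename Sum.inl p)) = 0 := by
  obtain ⟨z, hz⟩ := hz
  -- a chart
  obtain ⟨a, ha⟩ : ∃ a, X a ∉ Q := by
    obtain ⟨k', rfl⟩ : ∃ k', k = k' + 1 := ⟨k - 1, by omega⟩
    obtain ⟨a, ha⟩ := Pool.Agent.H92.GT.Proj.exists_coordFun_ne_zero Q z hz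
    exact ⟨a, Pool.Agent.H17R.coordFun_ne_zero_iff.1 ha⟩
  obtain ⟨F, _, _, D, y, hx, hG, h1, h2, h3, h4, h5, b, hb⟩ := exists_field_point hP hm hgen f hQ hPQ ha hk hz hn
  obtain ⟨K, hK⟩ := exists_vdet_ne (F := F) hP (polar_of_generated hm hgen) f a h1 h2 (fun p hp => h3 p (hPQ hp)) (fun p hp => h4 p (hPQ hp)) ⟨b, hb⟩
  set T : MvPolynomial (Fin (N + 1)) ℂ → MvPolynomial (Ph N) ℂ := fun p => ∑ b, rename Sum.inl (pderiv b p) * X (Sum.inr b) with hT
  set S : Set (MvPolynomial (Ph N) ℂ) := ({X (Sum.inl a) - 1, X (Sum.inr a)} ∪ (rename Sum.inl '' (Q : Set (MvPolynomial (Fin (N + 1)) ℂ)))) ∪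
    ((T '' (Q : Set (MvPolynomial (Fin (N + 1)) ℂ))) ∪ ({s | ∃ l n, s = (⇑(Dt (gfam f a) K))^[n + 1] (gfam f a l)} ∪
      {s | ∃ p ∈ Q, ∃ n, s = (⇑(Dt (gfam f a) K))^[n] (rename Sum.inl p)})) with hS
  have hyS : ∀ s ∈ S, aeval y s = 0 := by
    rintro s ((hs | ⟨p, hp, rfl⟩) | (⟨p, hp, rfl⟩ | (⟨l, n, rfl⟩ | ⟨p, hp, n, rfl⟩)))
    · rcases hs with rfl | hs
      · rw [map_sub, aeval_X, h1, map_one, sub_self]
      · rw [Set.mem_singleton_iff.1 hs, aeval_X, h2]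
    · exact h3 p hp
    · exact h4 p hp
    · exact aeval_iter (gfam f a) K D hx hG l n
    · exact aeval_iter_zero (gfam f a) K D hx hG (h3 p hp) n
  have hyG : aeval y (vdet (gfam f a) K * (rename Sum.inl q * X (Sum.inr b))) ≠ 0 := by
    rw [map_mul, map_mul, aeval_X]
    exact mul_ne_zero hK (mul_ne_zero (h5 q n hq hqQ) hb)
  by_contra hcon
  refine hyG (transfer (S := S) ?_ y hyS)
  intro w hw
  by_contra hne
  refine hcon ⟨a, K, fun b => w (Sum.inl b), fun b => w (Sum.inr b), ?_⟩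
  have hpt : pt (fun b => w (Sum.inl b)) (fun b => w (Sum.inr b)) = w := by
    funext s
    rcases s with s | s <;> rfl
  have hwa : w (Sum.inl a) = 1 := by
    have := hw _ (Or.inl (Or.inl (Or.inl rfl)))
    rw [map_sub, eval_X, map_one] at this
    exact sub_eq_zero.1 this
  have hren : ∀ p : MvPolynomial (Fin (N + 1)) ℂ, eval w (rename Sum.inl p) = eval (fun b => w (Sum.inl b)) p := fun p => by
    rw [eval_rename]
    rfl
  rw [map_mul, map_mul, eval_X, hren] at hne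
  have hne1 := left_ne_zero_of_mul hne
  have hne2 := left_ne_zero_of_mul (right_ne_zero_of_mul hne)
  have hne3 := right_ne_zero_of_mul (right_ne_zero_of_mul hne)
  refine ⟨⟨fun h => ?_, fun p hp => ?_⟩, hwa, ?_, ?_, fun h => hne3 (congrFun h b), hne2, ⟨?_, ?_⟩, ?_⟩
  · have := congrFun h a
    simp only [hwa, Pi.zero_apply, one_ne_zero] at this
  · rw [← hren]
    exact hw _ (Or.inl (Or.inr ⟨p, hp, rfl⟩))
  · intro p hp
    have h6 := hw _ (Or.inr (Or.inl ⟨p, hp, rfl⟩))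
    simp only [hT, map_sum, map_mul, eval_X, hren] at h6
    rw [← h6]
    exact Finset.sum_congr rfl fun i _ => mul_comm _ _
  · have := hw _ (Or.inl (Or.inl (Or.inr rfl)))
    rwa [eval_X] at this
  · rw [hpt]
    exact hne1
  · intro l n
    rw [hpt]
    exact hw _ (Or.inr (Or.inr (Or.inl ⟨l, n, rfl⟩)))
  · intro p hp n
    rw [hpt]
    exact hw _ (Or.inr (Or.inr (Or.inr ⟨p, hp, n, rfl⟩)))

theorem exists_crit [P.IsPrime] (hP : Homog P) (hm : 1 ≤ m) (hgen : Generated θ) (f : Frame (m := fun _ => m) θ) [Q.IsPrime] (hQ : Homog Q)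
    (hPQ : P ≤ Q) {k : ℕ} (hk : 1 ≤ k) (hz : ∃ z : Fin k → FunField Q, IsTranscendenceBasis ℂ z)
    (hn : ¬ IsLogGeneralType (K := FunField Q) (k := k) fun _ => False) {q : MvPolynomial (Fin (N + 1)) ℂ} {n : ℕ} (hq : q.IsHomogeneous n) (hqQ : q ∉ Q) :
    ∃ (a : Fin (N + 1)) (K : Fin (N + 1) → (Unit ⊕ Unit) ⊕ (Fin f.q ⊕ Fin f.q) ⊕ Fin J) (x v : Fin (N + 1) → ℂ),
      x ∈ cone Q ∧ x a = 1 ∧ v ∈ conTan Q x ∧ v a = 0 ∧ v ≠ 0 ∧ eval x q ≠ 0 ∧ Crit (gfam f a) K (pt x v) := by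
  obtain ⟨a, K, x, v, h1, h2, h3, h4, h5, h6, h7, -⟩ := exists_crit_inv hP hm hgen f hQ hPQ hk hz hn hq hqQ
  exact ⟨a, K, x, v, h1, h2, h3, h4, h5, h6, h7⟩

end Pool.Agent.GB

end

section

/-!
# GTL EtJ: the embedding of function fields given by `p`

PROOF.  `IsReg` gives forms `γ` which represent `p` near a point of the variety of `Q'` (`reg.regular`), so (`Qe/Dom.lean`, `exists_cover`, `Dom_prop`: two systems are proportional at all points of the variety of `Q'`, so `γ i * γ' j - γ j * γ' i ∈ Q'`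
by the Nullstellensatz `H17EF.exists_point`).  `aeval γ R ∈ Q' ↔ R ∈ Q` for forms `R` (`dom.maps`, `dom.dense`; as in `Qe/Dom.lean`, `dominant`, which uses surjectivity only to get a point where `R ∘ p` does not vanish).  The homomorphism `φ`: as in
`H19OL/Norm.lean`, `exists_hom` (`funIso`), with its formula `φ (ratio Q i i₀) = γ i (η) / γ i₀ (η)`; the other systems and the other indices follow from the proportionality, and `ratio Q i i₁ = ratio Q i i₀ / ratio Q i₁ i₀`;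
change of `j`: `aeval (ratio · j') γ = (ratio j j') ^ D * aeval (ratio · j) γ`.
-/

set_option autoImplicit false

open MvPolynomial
open Pool.Agent.H17 (PN VanishesAt)
open Pool.Agent.H17EF (projVar)
open Pool.Agent.H17LG.Variety (FunField ratio)
open Pool.Agent.H62.FC (Homog)
open Pool.Agent.H62.Qe (IsReg)

noncomputable section

namespace Pool.Agent.GTL

variable {N M : ℕ} {P Q : Ideal (MvPolynomial (Fin (N + 1)) ℂ)} {P' Q' : Ideal (MvPolynomial (Fin (M + 1)) ℂ)}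

open Pool.Agent.H17GT (coordFun)
open Pool.Agent.H17R (gen gen_eq_zero_iff ratio_self coordFun_ne_zero_iff gen_change ratio_ne_zero_iff)
open Pool.Agent.H7.Qup (exists_hom_val ratio_change')
open Pool.Agent.H7.Bir (vals rmap)

/-- two systems of forms which represent `p` are proportional at every point -/
private theorem EtJ_prop {γ γ' : Fin (N + 1) → MvPolynomial (Fin (M + 1)) ℂ} {p : PN M → PN N}
    (hrep : ∀ y ∈ projVar Q', vals γ y.rep ≠ 0 → p y = rmap γ y) (hrep' : ∀ y ∈ projVar Q', vals γ' y.rep ≠ 0 → p y = rmap γ' y)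
    {y : PN M} (hy : y ∈ projVar Q') (i j : Fin (N + 1)) :
    eval y.rep (γ i) * eval y.rep (γ' j) = eval y.rep (γ j) * eval y.rep (γ' i) := by
  by_cases h1 : vals γ y.rep = 0
  · have h2 : ∀ i, eval y.rep (γ i) = 0 := fun i => congrFun h1 i
    rw [h2 i, h2 j]
    ring
  by_cases h3 : vals γ' y.rep = 0
  · have h2 : ∀ i, eval y.rep (γ' i) = 0 := fun i => congrFun h3 i
    rw [h2 i, h2 j]
    ring
  have h4 : rmap γ y = rmap γ' y := by
    rw [← hrep y hy h1, ← hrep' y hy h3]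
  unfold Pool.Agent.H7.Bir.rmap at h4
  rw [dif_pos h1, dif_pos h3, Projectivization.mk_eq_mk_iff'] at h4
  obtain ⟨a, ha⟩ := h4
  have h5 : ∀ i, eval y.rep (γ i) = a * eval y.rep (γ' i) := fun i => (congrFun ha i).symm
  rw [h5 i, h5 j]
  ring

/-- two systems of forms which represent `p` are proportional modulo the ideal -/
private theorem EtJ_mem [Q'.IsPrime] (hQ' : Homog Q') (hX' : ∃ i, (X i : MvPolynomial (Fin (M + 1)) ℂ) ∉ Q')
    {γ γ' : Fin (N + 1) → MvPolynomial (Fin (M + 1)) ℂ} {D D' : ℕ} (hγ : ∀ i, (γ i).IsHomogeneous D) (hγ' : ∀ i, (γ' i).IsHomogeneous D')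
    {p : PN M → PN N} (hrep : ∀ y ∈ projVar Q', vals γ y.rep ≠ 0 → p y = rmap γ y) (hrep' : ∀ y ∈ projVar Q', vals γ' y.rep ≠ 0 → p y = rmap γ' y)
    (i j : Fin (N + 1)) : γ i * γ' j - γ j * γ' i ∈ Q' := by
  by_contra hcon
  obtain ⟨y, hy, hyn⟩ := Pool.Agent.H17EF.exists_point hQ' hX' hcon (((hγ i).mul (hγ' j)).sub ((hγ j).mul (hγ' i)))
  apply hyn
  unfold VanishesAt
  rw [map_sub, map_mul, map_mul, EtJ_prop hrep hrep' hy i j, sub_self]

private theorem EtJ_smul {n : ℕ} {R : MvPolynomial (Fin (N + 1)) ℂ} (hR : R.IsHomogeneous n) (c : ℂ) (x : Fin (N + 1) → ℂ) :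
    eval (c • x) R = c ^ n * eval x R :=
  Pool.Agent.H17BP.eval_smul_form hR c x

/-- forms which represent `p` near some point of the variety of `Q'` -/
private theorem EtJ_dom [Q.IsPrime] [Q'.IsPrime] (hQ' : Homog Q') {p : PN M → PN N} (hp : IsReg P P' p) (hle : ∀ y ∈ projVar Q', y ∈ projVar P')
    (hd : DomPair Q Q' p) {D : ℕ} {γ : Fin (N + 1) → MvPolynomial (Fin (M + 1)) ℂ} (hγ : ∀ i, (γ i).IsHomogeneous D)
    (hrep : ∀ y ∈ projVar Q', vals γ y.rep ≠ 0 → p y = rmap γ y) (hne : ∃ y ∈ projVar Q', vals γ y.rep ≠ 0) (n : ℕ)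
    (R : MvPolynomial (Fin (N + 1)) ℂ) (hR : R.IsHomogeneous n) : aeval γ R ∈ Q' ↔ R ∈ Q := by
  obtain ⟨y₀, hy₀, hne⟩ := hne
  have hX' := Pool.Agent.H17EF.exists_coord hy₀
  have hah : ∀ {γ' : Fin (N + 1) → MvPolynomial (Fin (M + 1)) ℂ} {D' : ℕ}, (∀ i, (γ' i).IsHomogeneous D') → (aeval γ' R).IsHomogeneous (D' * n) :=
    fun hγ' => hR.aeval _ hγ'
  constructor
  · intro h
    by_contra hRQ
    obtain ⟨y', hy', hxR⟩ := hd.dense R n hR hRQ
    obtain ⟨D', γ', hγ', hne', hrep₁⟩ := hp.regular y' (hle y' hy')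
    have hrep' : ∀ y ∈ projVar Q', vals γ' y.rep ≠ 0 → p y = rmap γ' y := fun y hy => hrep₁ y (hle y hy)
    obtain ⟨j, hj⟩ : ∃ j, eval y₀.rep (γ j) ≠ 0 := by
      by_contra hcon
      push Not at hcon
      exact hne (funext hcon)
    have hjP : γ j ∉ Q' := fun h1 => hj (hy₀ _ h1 D (hγ j))
    have hmem : γ j ^ n * aeval γ' R ∈ Q' := by
      by_contra h1
      have h2 : (γ j ^ n * aeval γ' R).IsHomogeneous (D * n + D' * n) := ((hγ j).pow n).mul (hah hγ')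
      obtain ⟨y, hy, hyn⟩ := Pool.Agent.H17EF.exists_point hQ' hX' h1 h2
      apply hyn
      have h3 : eval y.rep (aeval γ R) = 0 := hy _ h _ (hah hγ)
      unfold VanishesAt
      rw [map_mul, map_pow, Pool.Agent.H7.Bir.eval_comp, ← EtJ_smul hR]
      have h4 : eval y.rep (γ j) • vals γ' y.rep = eval y.rep (γ' j) • vals γ y.rep := by
        funext i
        have h5 := EtJ_prop hrep hrep' hy j i
        change eval y.rep (γ j) * eval y.rep (γ' i) = eval y.rep (γ' j) * eval y.rep (γ i)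
        rw [h5, mul_comm]
      rw [h4, EtJ_smul hR, ← Pool.Agent.H7.Bir.eval_comp, h3, mul_zero]
    rcases Ideal.IsPrime.mem_or_mem inferInstance hmem with h1 | h1
    · exact hjP (Ideal.IsPrime.mem_of_pow_mem inferInstance n h1)
    · apply hxR
      rw [hrep' y' hy' hne', Pool.Agent.H7.Bir.vanishesAt_rmap hne' hR]
      exact hy' _ h1 _ (hah hγ')
  · intro h
    by_contra hcon
    obtain ⟨y, hy, hyn⟩ := Pool.Agent.H17EF.exists_point hQ' hX' hcon (hah hγ)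
    apply hyn
    by_cases h1 : vals γ y.rep = 0
    · unfold VanishesAt
      rw [Pool.Agent.H7.Bir.eval_comp, h1]
      have h2 : eval (p y).rep R = 0 := hd.maps y hy R h n hR
      have h3 := EtJ_smul hR 0 (p y).rep
      rw [zero_smul, h2, mul_zero] at h3
      exact h3
    · rw [← Pool.Agent.H7.Bir.vanishesAt_rmap h1 hR, ← hrep y hy h1]
      exact hd.maps y hy R h n hR

theorem exists_induces [Q.IsPrime] [Q'.IsPrime] (hQ : Homog Q) (hQ' : Homog Q') {p : PN M → PN N} (hp : IsReg P P' p) (hle : P' ≤ Q')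
    (hne : (projVar Q').Nonempty) (hd : DomPair Q Q' p) : ∃ φ : FunField Q →ₐ[ℂ] FunField Q', Induces Q Q' p φ := by
  have _ := hQ
  have hle' : ∀ y ∈ projVar Q', y ∈ projVar P' := fun y hy R hR n hn => hy R (hle hR) n hn
  obtain ⟨y₀, hy₀⟩ := hne
  obtain ⟨D, γ, hγ, hγ0, hrep₀⟩ := hp.regular y₀ (hle' y₀ hy₀)
  have hrep : ∀ y ∈ projVar Q', vals γ y.rep ≠ 0 → p y = rmap γ y := fun y hy => hrep₀ y (hle' y hy)
  have hX' := Pool.Agent.H17EF.exists_coord hy₀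
  have hmaps := EtJ_dom (Q := Q) hQ' hp hle' hd hγ hrep ⟨y₀, hy₀, hγ0⟩
  have hgm : ∀ i, γ i ∈ Q' ↔ (X i : MvPolynomial (Fin (N + 1)) ℂ) ∈ Q := fun i => by
    rw [← hmaps 1 _ (isHomogeneous_X ℂ i), aeval_X]
  obtain ⟨i₀, hi₀⟩ := Pool.Agent.H17EF.exists_coord (hd.maps y₀ hy₀)
  obtain ⟨j₁, hj₁⟩ := hX'
  have hcj : coordFun Q' j₁ ≠ 0 := coordFun_ne_zero_iff.2 hj₁
  have hci : coordFun Q i₀ ≠ 0 := coordFun_ne_zero_iff.2 hi₀
  have hc : gen Q' j₁ (γ i₀) ≠ 0 := fun h0 => hi₀ ((hgm i₀).1 ((gen_eq_zero_iff hcj (hγ i₀)).1 h0))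
  obtain ⟨x, hx⟩ : ∃ x : Fin (N + 1) → FunField Q', x = fun i => gen Q' j₁ (γ i) / gen Q' j₁ (γ i₀) := ⟨_, rfl⟩
  have hx1 : x i₀ = 1 := by rw [hx]; exact div_self hc
  have hker : ∀ (n : ℕ) (R : MvPolynomial (Fin (N + 1)) ℂ), R.IsHomogeneous n → (aeval x R = 0 ↔ R ∈ Q) := by
    intro n R hR
    rw [← hmaps n R hR, ← gen_eq_zero_iff hcj (hR.aeval _ hγ)]
    have h1 : gen Q' j₁ (aeval γ R) = gen Q' j₁ (γ i₀) ^ n * aeval x R := by
      rw [hx]
      unfold Pool.Agent.H17R.gen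
      rw [Pool.Agent.H7.Bir.aeval_comp]
      exact Pool.Agent.H7.Bir.aeval_div hR hc _
    rw [h1, mul_eq_zero]
    exact ⟨Or.inr, fun h => h.resolve_left (pow_ne_zero _ hc)⟩
  obtain ⟨φ, hφ⟩ := exists_hom_val hci hx1 hker
  refine ⟨φ, ?_⟩
  intro D' γ' hγ' hrep' i₁ hi₁ j hj i
  have hcj' : coordFun Q' j ≠ 0 := coordFun_ne_zero_iff.2 hj
  have hprop := EtJ_mem hQ' ⟨j₁, hj₁⟩ hγ hγ' hrep hrep'
  -- the index `i₁` is admissible
  have hXi₁ : (X i₁ : MvPolynomial (Fin (N + 1)) ℂ) ∉ Q := by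
    intro h
    have h1 : γ i₁ ∈ Q' := (hgm i₁).2 h
    apply hi₀
    rw [← hgm i₀]
    have h2 : γ i₀ * γ' i₁ ∈ Q' := by
      have h3 := Q'.add_mem (hprop i₀ i₁) (Q'.mul_mem_right (γ' i₀) h1)
      rwa [sub_add_cancel] at h3
    exact (Ideal.IsPrime.mem_or_mem inferInstance h2).resolve_right hi₁
  have hci' : coordFun Q i₁ ≠ 0 := coordFun_ne_zero_iff.2 hXi₁
  have hch : ∀ k, gen Q' j₁ (γ k) = ratio Q' j j₁ ^ D * gen Q' j (γ k) := fun k => gen_change hcj' (hγ k)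
  have hr0 : ratio Q' j j₁ ≠ 0 := (ratio_ne_zero_iff hcj).2 hcj'
  have h3 : φ (ratio Q i i₀) = φ (ratio Q i₁ i₀) * φ (ratio Q i i₁) := by
    rw [← map_mul, ← ratio_change' hci']
  have h4 : gen Q' j₁ (γ i) = gen Q' j₁ (γ i₁) * φ (ratio Q i i₁) := by
    rw [hφ, hφ, hx] at h3
    change gen Q' j₁ (γ i) / gen Q' j₁ (γ i₀) = gen Q' j₁ (γ i₁) / gen Q' j₁ (γ i₀) * φ (ratio Q i i₁) at h3
    rw [div_mul_eq_mul_div, div_left_inj' hc] at h3
    exact h3
  have h5 : gen Q' j (γ i) = gen Q' j (γ i₁) * φ (ratio Q i i₁) := by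
    rw [hch, hch, mul_assoc] at h4
    exact mul_left_cancel₀ (pow_ne_zero _ hr0) h4
  have hg1 : gen Q' j (γ i₁) ≠ 0 := fun h0 => hXi₁ ((hgm i₁).1 ((gen_eq_zero_iff hcj' (hγ i₁)).1 h0))
  -- the proportionality in the function field
  have h6 : gen Q' j (γ i) * gen Q' j (γ' i₁) = gen Q' j (γ i₁) * gen Q' j (γ' i) := by
    have h7 := (gen_eq_zero_iff hcj' (((hγ i).mul (hγ' i₁)).sub ((hγ i₁).mul (hγ' i)))).2 (hprop i i₁)
    unfold Pool.Agent.H17R.gen at h7 ⊢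
    rw [map_sub, map_mul, map_mul, sub_eq_zero] at h7
    exact h7
  change φ (ratio Q i i₁) * gen Q' j (γ' i₁) = gen Q' j (γ' i)
  rw [h5, mul_assoc] at h6
  exact mul_left_cancel₀ hg1 h6

end Pool.Agent.GTL

end
end

section

/-!
# GTL EtK0: the centre of a prime divisor

PROOF.  `exists_center_pt`: the polynomials `S` with `0 < E'.ord (S (η))` (or `S (η) = 0`), `η = ratio Q' · j`, form the prime ideal `H7.Qup.ctr` which contains the forms of `Q'` and does not contain `R`;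
`exists_ctr_point` gives a zero of it at which `R` does not vanish.
`exists_center_rep`: `exists_center_pt` for `R = 1` gives `y`, `hp.regular y` gives `γ`, `γ i₁ (y) ≠ 0` for some `i₁`, so `E'.ord (γ i₁ (η))` is not positive, and it is `≥ 0` (`H17R.ord_gen_nonneg`).
-/

set_option autoImplicit false

open MvPolynomial
open Pool.Agent.H17 (PN VanishesAt vanishesAt_mk_iff)
open Pool.Agent.H17EF (projVar)
open Pool.Agent.H23.Fano (PrimeDivisorOver)
open Pool.Agent.H17LG.Variety (FunField ratio)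
open Pool.Agent.H17R (gen ord_gen_nonneg coordFun_ne_zero_iff)
open Pool.Agent.H62.FC (Homog)
open Pool.Agent.H62.Qe (IsReg)
open Pool.Agent.H7.Bir (vals rmap)
open Pool.Agent.H7.Qup (ctr mem_ctr notMem_ctr exists_ctr_point le_ctr)

noncomputable section

namespace Pool.Agent.GTL

variable {N M : ℕ} {P : Ideal (MvPolynomial (Fin (N + 1)) ℂ)} {P' Q' : Ideal (MvPolynomial (Fin (M + 1)) ℂ)}

theorem exists_center_pt [Q'.IsPrime] (hQ' : Homog Q') {k : ℕ} (E' : PrimeDivisorOver (FunField Q') k) {j : Fin (M + 1)} (hj : X j ∉ Q')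
    (hreg : ∀ l, 0 ≤ E'.ord (ratio Q' l j)) {R : MvPolynomial (Fin (M + 1)) ℂ} {n : ℕ} (hR : R.IsHomogeneous n) (hRo : E'.ord (aeval (fun l => ratio Q' l j) R) = 0) :
    ∃ y ∈ projVar Q', ¬ VanishesAt R y ∧ ∀ (S : MvPolynomial (Fin (M + 1)) ℂ) (m : ℕ), S.IsHomogeneous m → 0 < E'.ord (aeval (fun l => ratio Q' l j) S) →
      VanishesAt S y := by
  have hj' := coordFun_ne_zero_iff.2 hj
  obtain ⟨v, hv0, hv, hvR⟩ := exists_ctr_point E' hj' hreg (R := R) (notMem_ctr.2 hRo)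
  refine ⟨Projectivization.mk ℂ v hv0, fun F hF d hd => ?_, ?_, fun S d hd hS => ?_⟩
  · rw [vanishesAt_mk_iff hd]
    exact hv F (le_ctr hj' hd hF)
  · rw [vanishesAt_mk_iff hR]
    exact hvR
  · rw [vanishesAt_mk_iff hd]
    exact hv S (mem_ctr.2 hS)

theorem exists_center_rep [Q'.IsPrime] (hQ' : Homog Q') {p : PN M → PN N} (hp : IsReg P P' p) (hle' : P' ≤ Q') {k : ℕ} (E' : PrimeDivisorOver (FunField Q') k)
    {j : Fin (M + 1)} (hj : X j ∉ Q') (hreg : ∀ l, 0 ≤ E'.ord (ratio Q' l j)) :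
    ∃ (D : ℕ) (γ : Fin (N + 1) → MvPolynomial (Fin (M + 1)) ℂ) (i₁ : Fin (N + 1)), (∀ i, (γ i).IsHomogeneous D) ∧
      (∀ y ∈ projVar P', vals γ y.rep ≠ 0 → p y = rmap γ y) ∧ E'.ord (aeval (fun l => ratio Q' l j) (γ i₁)) = 0 := by
  obtain ⟨y, hy, -, hyS⟩ := exists_center_pt hQ' E' hj hreg (R := 1) (isHomogeneous_one _ _) (by rw [map_one, E'.ord.map_one])
  obtain ⟨D, γ, hγ, hv, hrep⟩ := hp.regular y fun F hF n hn => hy F (hle' hF) n hn
  obtain ⟨i₁, hi₁⟩ : ∃ i, eval y.rep (γ i) ≠ 0 := by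
    by_contra hcon
    push Not at hcon
    exact hv (funext hcon)
  refine ⟨D, γ, i₁, hγ, hrep, ?_⟩
  by_contra hcon
  have h1 : 0 ≤ E'.ord (aeval (fun l => ratio Q' l j) (γ i₁)) := ord_gen_nonneg E' hreg (γ i₁)
  exact hi₁ (hyS _ D (hγ i₁) (lt_of_le_of_ne h1 (Ne.symm hcon)))

end Pool.Agent.GTL

end
end

section

/-!
# GTL EtK: the boundary and local injectivity in terms of the function fields

PROOF.  Let `η l = ratio Q' l j`, all regular at `E'` (`H17R.exists_center`).  Let `γ` represent `p` near a point of the centre of `E'` (`exists_center_rep`), so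
`E'.ord (γ i₁ (η)) = 0` for some `i₁`.  `φ (ratio Q i i₁) = γ i (η) / γ i₁ (η)` (`Induces`), so all `ratio Q i i₁` are regular at `E`, and for a form `R` of degree `n`: `φ (R (ratio Q · i₁)) = R (γ) (η) / γ i₁ (η) ^ n`.
If all `G' m` have positive order at `E'` and `G l (γ)` has order `0`, there is a point `y` of the centre (`exists_center_pt`) at which `G l (γ)` and `γ i₁` do not vanish and all `G' m` vanish, so `y ∉ locVar P' G'` and `p y ∈ locVar P G`.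
Conversely if `G' m` has order `0`, there is a point `y` of the centre with `G' m (y) ≠ 0`, `γ i₁ (y) ≠ 0`: `p y ∈ locVar P G`, so `G l (γ)` has not a positive order for some `l`.  These orders do not depend on the choice of `i₁` with all `ratio Q i i₁` regular.
-/

set_option autoImplicit false

open MvPolynomial
open Pool.Agent.H17 (PN VanishesAt)
open Pool.Agent.H17EF (projVar)
open Pool.Agent.H23.Fano (PrimeDivisorOver)
open Pool.Agent.H17LG.Variety (FunField ratio)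
open Pool.Agent.H62.FC (Homog)
open Pool.Agent.H62.SA (locVar OnBd)
open Pool.Agent.H62.Qe (IsEtaleOver)

noncomputable section

namespace Pool.Agent.GTL

variable {N M : ℕ} {P Q : Ideal (MvPolynomial (Fin (N + 1)) ℂ)} {P' Q' : Ideal (MvPolynomial (Fin (M + 1)) ℂ)} {s s' : ℕ}
  {G : Fin s → MvPolynomial (Fin (N + 1)) ℂ} {G' : Fin s' → MvPolynomial (Fin (M + 1)) ℂ}

open Pool.Agent.H17R (gen gen_change ratio_self ord_gen_nonneg gen_eq_zero_iff exists_center coordFun_ne_zero_iff)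
open Pool.Agent.H17GT (coordFun)
open Pool.Agent.H7.Bir (vals rmap)

/-- the order of a form does not depend on the affine coordinates -/
private theorem ord_change [Q.IsPrime] {k : ℕ} (E : PrimeDivisorOver (FunField Q) k) {i₀ i₁ : Fin (N + 1)} (h0 : coordFun Q i₀ ≠ 0) (h1 : coordFun Q i₁ ≠ 0)
    (r0 : ∀ i, 0 ≤ E.ord (ratio Q i i₀)) (r1 : ∀ i, 0 ≤ E.ord (ratio Q i i₁)) {R : MvPolynomial (Fin (N + 1)) ℂ} {n : ℕ} (hR : R.IsHomogeneous n) :
    E.ord (gen Q i₀ R) = E.ord (gen Q i₁ R) := by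
  have e1 : ratio Q i₁ i₀ * ratio Q i₀ i₁ = 1 := by
    apply Subtype.ext
    change coordFun Q i₁ / coordFun Q i₀ * (coordFun Q i₀ / coordFun Q i₁) = 1
    rw [div_mul_div_comm, mul_comm (coordFun Q i₁), div_self (mul_ne_zero h0 h1)]
  have e2 : E.ord (ratio Q i₁ i₀) = 0 := by
    have e3 : E.ord (ratio Q i₁ i₀) + E.ord (ratio Q i₀ i₁) = 0 := by
      rw [← E.ord.map_mul, e1, E.ord.map_one]
    refine le_antisymm ?_ (r0 i₁)
    rw [← e3]
    exact le_add_of_nonneg_right (r1 i₀)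
  rw [gen_change h1 hR, E.ord.map_mul, E.ord.map_pow, e2, smul_zero, zero_add]

private theorem onBd_at [Q.IsPrime] {k : ℕ} (E : PrimeDivisorOver (FunField Q) k) (hG : ∀ l, ∃ e, (G l).IsHomogeneous e) {i₁ : Fin (N + 1)} (h1 : coordFun Q i₁ ≠ 0)
    (r1 : ∀ i, 0 ≤ E.ord (ratio Q i i₁)) : OnBd Q G E ↔ ∀ l, 0 < E.ord (gen Q i₁ (G l)) := by
  constructor
  · rintro ⟨j, hj, rj, h⟩ l
    obtain ⟨n, hn⟩ := hG l
    rw [← ord_change E hj h1 rj r1 hn]
    exact h l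
  · intro h
    exact ⟨i₁, h1, r1, h⟩

private theorem smul_nonneg_iff' {e : ℕ} (he : 1 ≤ e) {a : WithTop ℤ} (h : 0 ≤ e • a) : 0 ≤ a := by
  by_contra hcon
  push Not at hcon
  obtain ⟨z, rfl⟩ := WithTop.ne_top_iff_exists.1 (ne_top_of_lt hcon)
  rw [← WithTop.coe_nsmul, ← WithTop.coe_zero, WithTop.coe_le_coe] at h
  rw [← WithTop.coe_zero, WithTop.coe_lt_coe] at hcon
  rw [nsmul_eq_mul] at h
  have h1 : (0 : ℤ) < e := by exact_mod_cast he
  nlinarith

private theorem smul_pos_iff' {e : ℕ} (he : 1 ≤ e) {a : WithTop ℤ} : 0 < e • a ↔ 0 < a := by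
  constructor
  · intro h
    refine lt_of_le_of_ne (smul_nonneg_iff' he h.le) fun h0 => ?_
    rw [← h0, smul_zero] at h
    exact lt_irrefl _ h
  · intro h
    obtain ⟨d, rfl⟩ := Nat.exists_eq_add_of_le' he
    rw [succ_nsmul]
    refine lt_of_lt_of_le h (le_add_of_nonneg_left ?_)
    exact nsmul_nonneg h.le d

theorem onBd_iff [Q.IsPrime] [Q'.IsPrime] (hQ : Homog Q) (hQ' : Homog Q') (hG : ∀ l, ∃ e, (G l).IsHomogeneous e) (hG' : ∀ l, ∃ e, (G' l).IsHomogeneous e)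
    {p : PN M → PN N} (hp : IsEtaleOver P P' G G' p) (hle : P ≤ Q) (hle' : P' ≤ Q') (hd : DomPair Q Q' p) {φ : FunField Q →ₐ[ℂ] FunField Q'} (hφ : Induces Q Q' p φ)
    {k : ℕ} {E : PrimeDivisorOver (FunField Q) k} {E' : PrimeDivisorOver (FunField Q') k} {e : ℕ} (he : 1 ≤ e) (hE : ∀ x, E'.ord (φ x) = e • E.ord x)
    (hne : (projVar Q').Nonempty) : OnBd Q G E ↔ OnBd Q' G' E' := by
  obtain ⟨y₀, hy₀⟩ := hne
  obtain ⟨j₀, hj₀⟩ := Pool.Agent.H17EF.exists_coord hy₀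
  obtain ⟨j, hj, rj⟩ := exists_center E' (coordFun_ne_zero_iff.2 hj₀)
  have hjX : X j ∉ Q' := coordFun_ne_zero_iff.1 hj
  obtain ⟨D, γ, i₁, hγ, hrep, hord⟩ := exists_center_rep hQ' hp.reg hle' E' hjX rj
  have hsub : ∀ y ∈ projVar Q', y ∈ projVar P' := fun y hy R hR n hn => hy R (hle' hR) n hn
  have hu0 : gen Q' j (γ i₁) ≠ 0 := by
    intro h0
    have h1 : E'.ord (gen Q' j (γ i₁)) = 0 := hord
    rw [h0, E'.ord.map_zero] at h1
    exact WithTop.top_ne_zero h1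
  have hγQ : γ i₁ ∉ Q' := fun h => hu0 ((gen_eq_zero_iff hj (hγ i₁)).2 h)
  have hind : ∀ i, φ (ratio Q i i₁) * gen Q' j (γ i₁) = gen Q' j (γ i) :=
    fun i => hφ D γ hγ (fun y hy h => hrep y (hsub y hy) h) i₁ hγQ j hjX i
  have hc1 : coordFun Q i₁ ≠ 0 := by
    intro h0
    have h1 : ratio Q i₁ i₁ = 0 := by
      apply Subtype.ext
      change coordFun Q i₁ / coordFun Q i₁ = 0
      rw [h0, div_zero]
    have h2 := hind i₁
    rw [h1, map_zero, zero_mul] at h2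
    exact hu0 h2.symm
  have ho : E'.ord (gen Q' j (γ i₁)) = 0 := hord
  have r1 : ∀ i, 0 ≤ E.ord (ratio Q i i₁) := by
    intro i
    refine smul_nonneg_iff' he ?_
    rw [← hE]
    have h1 : E'.ord (φ (ratio Q i i₁)) = E'.ord (gen Q' j (γ i)) := by
      rw [← hind i, E'.ord.map_mul, ho, add_zero]
    rw [h1]
    exact ord_gen_nonneg E' rj _
  -- the value of a form
  have hval : ∀ (R : MvPolynomial (Fin (N + 1)) ℂ) (n : ℕ), R.IsHomogeneous n → e • E.ord (gen Q i₁ R) = E'.ord (gen Q' j (aeval γ R)) := by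
    intro R n hR
    have h1 : gen Q' j (aeval γ R) = gen Q' j (γ i₁) ^ n * φ (gen Q i₁ R) := by
      have h2 : gen Q' j (aeval γ R) = aeval (fun i => gen Q' j (γ i)) R := by
        unfold gen
        rw [MvPolynomial.comp_aeval_apply]
      have h3 : φ (gen Q i₁ R) = aeval (fun i => φ (ratio Q i i₁)) R := by
        unfold gen
        rw [MvPolynomial.comp_aeval_apply]
      rw [h2, h3, ← Pool.Agent.H92.GT.Proj.aeval_scale hR]
      congr 2
      funext i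
      rw [← hind i, mul_comm]
    rw [← hE, h1, E'.ord.map_mul, E'.ord.map_pow, ho, smul_zero, zero_add]
  have hpy : ∀ y ∈ projVar Q', ¬ VanishesAt (γ i₁) y → ∀ (R : MvPolynomial (Fin (N + 1)) ℂ) (n : ℕ), R.IsHomogeneous n →
      (VanishesAt R (p y) ↔ VanishesAt (aeval γ R) y) := by
    intro y hy hyγ R n hR
    have h1 : vals γ y.rep ≠ 0 := fun h => hyγ (congrFun h i₁)
    rw [hrep y (hsub y hy) h1]
    unfold rmap
    rw [dif_pos h1, Pool.Agent.H17.vanishesAt_mk_iff hR]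
    unfold VanishesAt
    have h2 : eval y.rep (aeval γ R) = eval (vals γ y.rep) R := by
      rw [← MvPolynomial.aeval_eq_eval, ← MvPolynomial.aeval_eq_eval, MvPolynomial.comp_aeval_apply]
      rfl
    rw [h2]
  rw [onBd_at E hG hc1 r1, onBd_at E' hG' hj rj]
  have hhom : ∀ l, ∃ m, (aeval γ (G l)).IsHomogeneous m := by
    intro l
    obtain ⟨n, hn⟩ := hG l
    exact ⟨D * n, hn.aeval γ hγ⟩
  constructor
  · intro h m
    by_contra hcon
    have h0 : E'.ord (gen Q' j (G' m)) = 0 := le_antisymm (not_lt.1 hcon) (ord_gen_nonneg E' rj _)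
    obtain ⟨n, hn⟩ := hG' m
    have h1 : E'.ord (aeval (fun l => ratio Q' l j) (G' m * γ i₁)) = 0 := by
      rw [map_mul, E'.ord.map_mul]
      change E'.ord (gen Q' j (G' m)) + E'.ord (gen Q' j (γ i₁)) = 0
      rw [h0, ho, add_zero]
    obtain ⟨y, hy, hyR, hyS⟩ := exists_center_pt hQ' E' hjX rj (hn.mul (hγ i₁)) h1
    have h2 : ¬ VanishesAt (G' m) y := fun h3 => hyR (by unfold VanishesAt at h3 ⊢; rw [map_mul, h3, zero_mul])
    have h3 : ¬ VanishesAt (γ i₁) y := fun h3 => hyR (by unfold VanishesAt at h3 ⊢; rw [map_mul, h3, mul_zero])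
    have h4 : p y ∈ locVar P G := (hp.inv y (hsub y hy)).2 ⟨hsub y hy, m, h2⟩
    obtain ⟨l, hl⟩ := h4.2
    obtain ⟨n', hn'⟩ := hG l
    apply hl
    rw [hpy y hy h3 _ n' hn']
    obtain ⟨m', hm'⟩ := hhom l
    refine hyS _ m' hm' ?_
    have h5 := hval (G l) n' hn'
    change 0 < E'.ord (gen Q' j (aeval γ (G l)))
    rw [← h5]
    exact (smul_pos_iff' he).2 (h l)
  · intro h l
    by_contra hcon
    obtain ⟨n', hn'⟩ := hG l
    obtain ⟨m', hm'⟩ := hhom l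
    have h0 : E'.ord (gen Q' j (aeval γ (G l))) = 0 := by
      refine le_antisymm (not_lt.1 fun h1 => hcon ?_) (ord_gen_nonneg E' rj _)
      rw [← hval (G l) n' hn'] at h1
      exact (smul_pos_iff' he).1 h1
    have h1 : E'.ord (aeval (fun l => ratio Q' l j) (aeval γ (G l) * γ i₁)) = 0 := by
      rw [map_mul, E'.ord.map_mul]
      change E'.ord (gen Q' j (aeval γ (G l))) + E'.ord (gen Q' j (γ i₁)) = 0
      rw [h0, ho, add_zero]
    obtain ⟨y, hy, hyR, hyS⟩ := exists_center_pt hQ' E' hjX rj (hm'.mul (hγ i₁)) h1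
    have h2 : ¬ VanishesAt (aeval γ (G l)) y := fun h3 => hyR (by unfold VanishesAt at h3 ⊢; rw [map_mul, h3, zero_mul])
    have h3 : ¬ VanishesAt (γ i₁) y := fun h3 => hyR (by unfold VanishesAt at h3 ⊢; rw [map_mul, h3, mul_zero])
    have h4 : p y ∈ locVar P G := by
      refine ⟨hp.reg.maps y (hsub y hy), l, ?_⟩
      rw [hpy y hy h3 _ n' hn']
      exact h2
    obtain ⟨m, hm⟩ := ((hp.inv y (hsub y hy)).1 h4).2
    obtain ⟨n, hn⟩ := hG' m
    exact hm (hyS _ n hn (h m))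

end Pool.Agent.GTL

end
end

section

/-!
# GTL EtK2: local injectivity in terms of the function fields

PROOF.  `exists_locInj`: `j` from `H17R.exists_center`, `γ`, `i₁` from `exists_center_rep`, `m` with `E'.ord (G' m (η)) = 0` (`hB`), `U := γ i₁ * G' m`.  `φ (ratio Q i i₁) = γ i (η) / γ i₁ (η)` (`Induces`), so `ratio Q i i₁` is regular at `E`.
`LocInj`: if `Pt η ξ y x` then `y j = 1`, `mk y ∈ projVar Q'` (`R (y) = 0` for `R ∈ Q'`), `x i * γ i₁ (y) = γ i (y)`; for `y` near `y₀`: `γ i₁ (y) ≠ 0`, so `p (mk y) = rmap γ (mk y) = mk x`; so `p (mk q.1) = p (mk q.2)`, and `hp.locInj` gives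
`mk q.1 = mk q.2`, `q.1 = q.2` since `q.1 j = q.2 j = 1`.  `exists_locInj_gen`: the same for any `γ`, `i₁`, `m` with `γ i₁ * G' m ∉ Q'` (a point of `locVar Q' G'`, `hp.reg.regular`).
-/

set_option autoImplicit false

open Topology Filter MvPolynomial
open Pool.Agent.H17 (PN VanishesAt vanishesAt_mk_iff)
open Pool.Agent.H17GT (coordFun)
open Pool.Agent.H17EF (projVar mk_mem_projVar exists_coord)
open Pool.Agent.H17R (gen gen_eq_zero_iff ratio_self coordFun_ne_zero_iff exists_center ord_gen_nonneg)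
open Pool.Agent.H23.Fano (PrimeDivisorOver)
open Pool.Agent.H17LG.Variety (FunField ratio)
open Pool.Agent.H62.FC (Homog)
open Pool.Agent.H62.SA (locVar OnBd)
open Pool.Agent.H62.Qe (IsEtaleOver)
open Pool.Agent.H7.Bir (vals rmap)

noncomputable section

namespace Pool.Agent.GTL

variable {N M : ℕ} {P Q : Ideal (MvPolynomial (Fin (N + 1)) ℂ)} {P' Q' : Ideal (MvPolynomial (Fin (M + 1)) ℂ)} {s s' : ℕ}
  {G : Fin s → MvPolynomial (Fin (N + 1)) ℂ} {G' : Fin s' → MvPolynomial (Fin (M + 1)) ℂ}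

private theorem EtK2_projVar_le {P₁ P₂ : Ideal (MvPolynomial (Fin (M + 1)) ℂ)} (h : P₁ ≤ P₂) {y : PN M} (hy : y ∈ projVar P₂) : y ∈ projVar P₁ :=
  fun R hR n hRn => hy R (h hR) n hRn

/-- the value of a relation at a point -/
private theorem EtK2_pt_coord [Q'.IsPrime] {ξ : Fin (N + 1) → FunField Q'} {j : Fin (M + 1)} (hj : X j ∉ Q') {y : Fin (M + 1) → ℂ} {x : Fin (N + 1) → ℂ}
    (h : Pt (fun l => ratio Q' l j) ξ y x) : y j = 1 := by
  have h1 := h (X (Sum.inl j) - 1) (by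
    rw [map_sub, aeval_X, map_one, Sum.elim_inl, ratio_self (coordFun_ne_zero_iff.2 hj), sub_self])
  rw [map_sub, eval_X, map_one, Sum.elim_inl] at h1
  exact sub_eq_zero.1 h1

private theorem EtK2_pt_rel [Q'.IsPrime] {η : Fin (M + 1) → FunField Q'} {ξ : Fin (N + 1) → FunField Q'} {y : Fin (M + 1) → ℂ} {x : Fin (N + 1) → ℂ}
    (h : Pt η ξ y x) {R : MvPolynomial (Fin (M + 1)) ℂ} (hR : aeval η R = 0) : eval y R = 0 := by
  have h1 := h (rename Sum.inl R) (by rw [aeval_rename, Sum.elim_comp_inl, hR])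
  rwa [eval_rename, Sum.elim_comp_inl] at h1

private theorem EtK2_pt_form [Q'.IsPrime] {η : Fin (M + 1) → FunField Q'} {ξ : Fin (N + 1) → FunField Q'} {y : Fin (M + 1) → ℂ} {x : Fin (N + 1) → ℂ}
    (h : Pt η ξ y x) {i : Fin (N + 1)} {A B : MvPolynomial (Fin (M + 1)) ℂ} (hR : ξ i * aeval η A = aeval η B) : x i * eval y A = eval y B := by
  have h1 := h (X (Sum.inr i) * rename Sum.inl A - rename Sum.inl B) (by
    rw [map_sub, map_mul, aeval_X, aeval_rename, aeval_rename, Sum.elim_comp_inl, Sum.elim_inr, hR, sub_self])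
  rw [map_sub, map_mul, eval_X, eval_rename, eval_rename, Sum.elim_comp_inl, Sum.elim_inr] at h1
  exact sub_eq_zero.1 h1

private theorem EtK2_pt_mem [Q'.IsPrime] (hQ' : Homog Q') {ξ : Fin (N + 1) → FunField Q'} {j : Fin (M + 1)} (hj : X j ∉ Q') {y : Fin (M + 1) → ℂ}
    {x : Fin (N + 1) → ℂ} (h : Pt (fun l => ratio Q' l j) ξ y x) (hy : y ≠ 0) : Projectivization.mk ℂ y hy ∈ projVar Q' := by
  refine (mk_mem_projVar hQ' hy).2 ⟨hy, fun R hR => ?_⟩
  rw [← MvPolynomial.sum_homogeneousComponent R, map_sum]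
  refine Finset.sum_eq_zero fun i _ => EtK2_pt_rel h ?_
  exact (gen_eq_zero_iff (coordFun_ne_zero_iff.2 hj) (homogeneousComponent_isHomogeneous i R)).2 (hQ' R hR i)

/-- the image of a point -/
private theorem EtK2_image [Q'.IsPrime] (hQ' : Homog Q') {p : PN M → PN N} {ξ : Fin (N + 1) → FunField Q'} {j : Fin (M + 1)} (hj : X j ∉ Q') {D : ℕ}
    {γ : Fin (N + 1) → MvPolynomial (Fin (M + 1)) ℂ} (hγ : ∀ i, (γ i).IsHomogeneous D) (hrep : ∀ y ∈ projVar Q', vals γ y.rep ≠ 0 → p y = rmap γ y)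
    {i₁ : Fin (N + 1)} (hξ : ∀ i, ξ i * aeval (fun l => ratio Q' l j) (γ i₁) = aeval (fun l => ratio Q' l j) (γ i))
    {y : Fin (M + 1) → ℂ} {x : Fin (N + 1) → ℂ} (h : Pt (fun l => ratio Q' l j) ξ y x) (hy : y ≠ 0) (hy1 : eval y (γ i₁) ≠ 0) :
    ∃ hx : x ≠ 0, p (Projectivization.mk ℂ y hy) = Projectivization.mk ℂ x hx := by
  have h1 : vals γ y = eval y (γ i₁) • x := by
    funext i
    change eval y (γ i) = eval y (γ i₁) * x i
    rw [← EtK2_pt_form h (hξ i), mul_comm]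
  have h2 : vals γ y ≠ 0 := fun h3 => hy1 (congrFun h3 i₁)
  have hx : x ≠ 0 := by
    rintro rfl
    rw [smul_zero] at h1
    exact h2 h1
  refine ⟨hx, ?_⟩
  have h3 : vals γ (Projectivization.mk ℂ y hy).rep ≠ 0 := by
    obtain ⟨a, ha⟩ := Projectivization.exists_smul_eq_mk_rep ℂ y hy
    have h4 : (Projectivization.mk ℂ y hy).rep = (a : ℂ) • y := ha.symm
    rw [h4, Pool.Agent.H7.Bir.vals_smul hγ]
    exact smul_ne_zero (pow_ne_zero _ a.ne_zero) h2
  rw [hrep _ (EtK2_pt_mem hQ' hj h hy) h3, Pool.Agent.H7.Bir.rmap_mk hγ hy h2, Projectivization.mk_eq_mk_iff']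
  exact ⟨eval y (γ i₁), h1.symm⟩

/-- local injectivity for any system of forms which represents `p` -/
private theorem EtK2_main [Q.IsPrime] [Q'.IsPrime] (hQ' : Homog Q') (hG' : ∀ l, ∃ e, (G' l).IsHomogeneous e)
    {p : PN M → PN N} (hp : IsEtaleOver P P' G G' p) (hle' : P' ≤ Q') {φ : FunField Q →ₐ[ℂ] FunField Q'} (hφ : Induces Q Q' p φ)
    {j : Fin (M + 1)} (hj : X j ∉ Q') {D : ℕ} {γ : Fin (N + 1) → MvPolynomial (Fin (M + 1)) ℂ} (hγ : ∀ i, (γ i).IsHomogeneous D)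
    (hrep : ∀ y ∈ projVar P', vals γ y.rep ≠ 0 → p y = rmap γ y) {i₁ : Fin (N + 1)} (hi₁ : γ i₁ ∉ Q') (m : Fin s') :
    LocInj (fun l => ratio Q' l j) (fun i => φ (ratio Q i i₁)) (γ i₁ * G' m) := by
  have hrep' : ∀ y ∈ projVar Q', vals γ y.rep ≠ 0 → p y = rmap γ y := fun y hy => hrep y (EtK2_projVar_le hle' hy)
  have hξ := hφ D γ hγ hrep' i₁ hi₁ j hj
  intro y₀ x₀ hpt hU
  rw [map_mul] at hU
  have hU1 : eval y₀ (γ i₁) ≠ 0 := left_ne_zero_of_mul hU
  have hU2 : eval y₀ (G' m) ≠ 0 := right_ne_zero_of_mul hU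
  have hy0 : y₀ ≠ 0 := by
    rintro rfl
    have h1 := EtK2_pt_coord hj hpt
    simp at h1
  have hloc : Projectivization.mk ℂ y₀ hy0 ∈ locVar P' G' := by
    refine ⟨EtK2_projVar_le hle' (EtK2_pt_mem hQ' hj hpt hy0), m, ?_⟩
    obtain ⟨e, he⟩ := hG' m
    rwa [vanishesAt_mk_iff he]
  have h1 := hp.locInj y₀ hy0 hloc
  have h2 : ∀ᶠ y in 𝓝 y₀, eval y (γ i₁) ≠ 0 := (MvPolynomial.continuous_eval (γ i₁)).continuousAt.eventually_ne hU1
  have h3 : ∀ᶠ q in 𝓝 (y₀, y₀), eval (q : (Fin (M + 1) → ℂ) × (Fin (M + 1) → ℂ)).1 (γ i₁) ≠ 0 :=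
    (continuous_fst.tendsto' (y₀, y₀) y₀ rfl).eventually h2
  have h4 : ∀ᶠ q in 𝓝 (y₀, y₀), eval (q : (Fin (M + 1) → ℂ) × (Fin (M + 1) → ℂ)).2 (γ i₁) ≠ 0 :=
    (continuous_snd.tendsto' (y₀, y₀) y₀ rfl).eventually h2
  filter_upwards [h1, h3, h4] with q hq hq1 hq2 x hx1 hx2
  have hn : ∀ {y : Fin (M + 1) → ℂ}, Pt (fun l => ratio Q' l j) (fun i => φ (ratio Q i i₁)) y x → y ≠ 0 := by
    rintro y hy rfl
    have h5 := EtK2_pt_coord hj hy
    simp at h5
  obtain ⟨hx, he1⟩ := EtK2_image hQ' hj hγ hrep' hξ hx1 (hn hx1) hq1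
  obtain ⟨_, he2⟩ := EtK2_image hQ' hj hγ hrep' hξ hx2 (hn hx2) hq2
  have h5 := hq (hn hx1) (hn hx2) (EtK2_projVar_le hle' (EtK2_pt_mem hQ' hj hx1 (hn hx1))) (EtK2_projVar_le hle' (EtK2_pt_mem hQ' hj hx2 (hn hx2)))
    (he1.trans he2.symm)
  rw [Projectivization.mk_eq_mk_iff'] at h5
  obtain ⟨a, ha⟩ := h5
  have h6 := congrFun ha j
  rw [Pi.smul_apply, EtK2_pt_coord hj hx1, EtK2_pt_coord hj hx2, smul_eq_mul, mul_one] at h6
  rw [← ha, h6, one_smul]

private theorem EtK2_coord [Q.IsPrime] [Q'.IsPrime] {φ : FunField Q →ₐ[ℂ] FunField Q'} {i₁ : Fin (N + 1)} {g : FunField Q'} (hg : g ≠ 0)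
    (h : φ (ratio Q i₁ i₁) * g = g) : X i₁ ∉ Q := by
  rw [← coordFun_ne_zero_iff]
  intro h0
  have h1 : ratio Q i₁ i₁ = 0 := by
    apply Subtype.ext
    change coordFun Q i₁ / coordFun Q i₁ = 0
    rw [h0, div_zero]
  rw [h1, map_zero, zero_mul] at h
  exact hg h.symm

theorem exists_locInj [Q.IsPrime] [Q'.IsPrime] (hQ : Homog Q) (hQ' : Homog Q') (hG : ∀ l, ∃ e, (G l).IsHomogeneous e) (hG' : ∀ l, ∃ e, (G' l).IsHomogeneous e)
    {p : PN M → PN N} (hp : IsEtaleOver P P' G G' p) (hle : P ≤ Q) (hle' : P' ≤ Q') (hd : DomPair Q Q' p) {φ : FunField Q →ₐ[ℂ] FunField Q'} (hφ : Induces Q Q' p φ)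
    {k : ℕ} {E : PrimeDivisorOver (FunField Q) k} {E' : PrimeDivisorOver (FunField Q') k} {e : ℕ} (he : 1 ≤ e) (hE : ∀ x, E'.ord (φ x) = e • E.ord x)
    (hne : (projVar Q').Nonempty) (hB : ¬ OnBd Q' G' E') :
    ∃ (i₁ : Fin (N + 1)) (j : Fin (M + 1)) (U : MvPolynomial (Fin (M + 1)) ℂ), X i₁ ∉ Q ∧ X j ∉ Q' ∧ (∀ l, 0 ≤ E'.ord (ratio Q' l j)) ∧ (∀ i, 0 ≤ E.ord (ratio Q i i₁)) ∧
      E'.ord (aeval (fun l => ratio Q' l j) U) = 0 ∧ LocInj (fun l => ratio Q' l j) (fun i => φ (ratio Q i i₁)) U := by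
  obtain ⟨y, hy⟩ := hne
  obtain ⟨i₀, hi₀⟩ := exists_coord hy
  obtain ⟨j, hj', hreg⟩ := exists_center E' (coordFun_ne_zero_iff.2 hi₀)
  have hj : X j ∉ Q' := coordFun_ne_zero_iff.1 hj'
  obtain ⟨D, γ, i₁, hγ, hrep, hord⟩ := exists_center_rep hQ' hp.reg hle' E' hj hreg
  have hγ0 : aeval (fun l => ratio Q' l j) (γ i₁) ≠ 0 := by
    intro h
    rw [h, E'.ord.map_zero] at hord
    exact WithTop.top_ne_zero hord
  have hγ1 : γ i₁ ∉ Q' := fun h => hγ0 ((gen_eq_zero_iff hj' (hγ i₁)).2 h)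
  obtain ⟨m, hm⟩ : ∃ m, ¬ 0 < E'.ord (aeval (fun i => ratio Q' i j) (G' m)) := by
    by_contra hcon
    push Not at hcon
    exact hB ⟨j, hj', hreg, hcon⟩
  have hm0 : E'.ord (aeval (fun i => ratio Q' i j) (G' m)) = 0 := le_antisymm (not_lt.1 hm) (ord_gen_nonneg E' hreg (G' m))
  have hrep' : ∀ y ∈ projVar Q', vals γ y.rep ≠ 0 → p y = rmap γ y := fun y hy => hrep y (EtK2_projVar_le hle' hy)
  have hξ := hφ D γ hγ hrep' i₁ hγ1 j hj
  refine ⟨i₁, j, γ i₁ * G' m, EtK2_coord hγ0 (hξ i₁), hj, hreg, fun i => ?_, ?_, EtK2_main hQ' hG' hp hle' hφ hj hγ hrep hγ1 m⟩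
  · have h1 : E'.ord (φ (ratio Q i i₁)) = E'.ord (aeval (fun l => ratio Q' l j) (γ i)) := by
      rw [← hξ i, E'.ord.map_mul, hord, add_zero]
    have h2 : 0 ≤ e • E.ord (ratio Q i i₁) := by
      rw [← hE, h1]
      exact ord_gen_nonneg E' hreg (γ i)
    by_contra hcon
    push Not at hcon
    have h3 : e • E.ord (ratio Q i i₁) < 0 := by
      obtain ⟨a, ha⟩ := WithTop.ne_top_iff_exists.1 (ne_top_of_lt hcon)
      rw [← ha] at hcon ⊢
      have h4 : a < 0 := by exact_mod_cast hcon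
      have h5 : e • a < 0 := by
        rw [nsmul_eq_mul]
        exact mul_neg_of_pos_of_neg (by exact_mod_cast he) h4
      exact_mod_cast h5
    exact absurd h2 (not_le.2 h3)
  · rw [map_mul, E'.ord.map_mul, hord, zero_add]
    exact hm0

theorem exists_locInj_gen [Q.IsPrime] [Q'.IsPrime] (hQ : Homog Q) (hQ' : Homog Q') (hG' : ∀ l, ∃ e, (G' l).IsHomogeneous e)
    {p : PN M → PN N} (hp : IsEtaleOver P P' G G' p) (hle : P ≤ Q) (hle' : P' ≤ Q') (hd : DomPair Q Q' p) {φ : FunField Q →ₐ[ℂ] FunField Q'} (hφ : Induces Q Q' p φ)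
    (hne : (locVar Q' G').Nonempty) :
    ∃ (i₁ : Fin (N + 1)) (j : Fin (M + 1)) (U : MvPolynomial (Fin (M + 1)) ℂ), X i₁ ∉ Q ∧ X j ∉ Q' ∧
      aeval (fun l => ratio Q' l j) U ≠ 0 ∧ LocInj (fun l => ratio Q' l j) (fun i => φ (ratio Q i i₁)) U := by
  obtain ⟨y, hy, m, hm⟩ := hne
  obtain ⟨j, hj⟩ := exists_coord (P := Q') hy
  have hj' : coordFun Q' j ≠ 0 := coordFun_ne_zero_iff.2 hj
  obtain ⟨D, γ, hγ, hv, hrep⟩ := hp.reg.regular y (EtK2_projVar_le hle' hy)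
  obtain ⟨i₁, hi₁⟩ : ∃ i, eval y.rep (γ i) ≠ 0 := by
    by_contra hcon
    push Not at hcon
    exact hv (funext hcon)
  have hγ1 : γ i₁ ∉ Q' := fun h => hi₁ (hy _ h D (hγ i₁))
  obtain ⟨e, he⟩ := hG' m
  have hm1 : G' m ∉ Q' := fun h => hm (hy _ h e he)
  have hγ0 : aeval (fun l => ratio Q' l j) (γ i₁) ≠ 0 := fun h => hγ1 ((gen_eq_zero_iff hj' (hγ i₁)).1 h)
  have hm0 : aeval (fun l => ratio Q' l j) (G' m) ≠ 0 := fun h => hm1 ((gen_eq_zero_iff hj' he).1 h)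
  have hrep' : ∀ y ∈ projVar Q', vals γ y.rep ≠ 0 → p y = rmap γ y := fun y hy => hrep y (EtK2_projVar_le hle' hy)
  have hξ := hφ D γ hγ hrep' i₁ hγ1 j hj
  refine ⟨i₁, j, γ i₁ * G' m, EtK2_coord hγ0 (hξ i₁), hj, ?_, EtK2_main hQ' hG' hp hle' hφ hj hγ hrep hγ1 m⟩
  rw [map_mul]
  exact mul_ne_zero hγ0 hm0

end Pool.Agent.GTL

end
end

section

/-!
# GB Use: Theorem B for entire curves

PROOF.  `exists_crit_inv`; the family `G' = G ∪ {p (x) | p ∈ Q}` has the same vector field, so its arc (`isInit_of_crit`) lies in the variety of `Q`; `exists_entire` (as in `GG.entire_of_crit`) and the identity theorem.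
-/

set_option autoImplicit false

open MvPolynomial Topology Filter Metric
open Pool.Agent.H13.SM (conTan cone)
open Pool.Agent.H17 (PN HolomorphicInto VanishesAt EntFun)
open Pool.Agent.H17BP (vanishesAt_mk)
open Pool.Agent.H17EF (projVar)
open Pool.Agent.H13.OT (OrderTwo)
open Pool.Agent.H17LG.Variety (FunField ratio IsLogGeneralType)
open Pool.Agent.H62.FC (Homog)

namespace Pool.Agent.GB

open Pool.Agent.GG

variable {N : ℕ} {P Q : Ideal (MvPolynomial (Fin (N + 1)) ℂ)}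

/-- the family with the equations of the subvariety -/
private noncomputable def Use_fam {ι : Type} (G : ι → MvPolynomial (Ph N) ℂ) (Q : Ideal (MvPolynomial (Fin (N + 1)) ℂ)) : ι ⊕ Q → MvPolynomial (Ph N) ℂ :=
  Sum.elim G fun p => rename Sum.inl p.1

private theorem Use_arc {ι : Type} {G : ι → MvPolynomial (Ph N) ℂ} {K : Fin (N + 1) → ι} {y₀ : Ph N → ℂ} (hc : Crit G K y₀)
    (hQ : ∀ p ∈ Q, ∀ n, eval y₀ ((⇑(Dt G K))^[n] (rename Sum.inl p)) = 0) :
    ∃ x : ℂ → Fin (N + 1) → ℂ, ArcV G x 0 ∧ pt (x 0) (deriv x 0) = y₀ ∧ ∀ p ∈ Q, ∀ᶠ s in 𝓝 (0 : ℂ), eval (x s) p = 0 := by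
  have h1 : Crit (Use_fam G Q) (fun b => Sum.inl (K b)) y₀ := by
    refine ⟨hc.1, ?_⟩
    rintro (l | p) n
    · exact hc.2 l n
    · exact hQ p.1 p.2 (n + 1)
  obtain ⟨x, ⟨hx, hxG⟩, hx0⟩ := isInit_of_crit h1
  refine ⟨x, ⟨hx, fun l => hxG (Sum.inl l)⟩, hx0, fun p hp => ?_⟩
  have h2 : ∀ s, eval (pt (x s) (deriv x s)) (rename Sum.inl p) = eval (x s) p := fun s => by
    rw [eval_rename]
    rfl
  filter_upwards [hxG (Sum.inr ⟨p, hp⟩)] with s hs
  have h3 : eval (pt (x s) (deriv x s)) (rename Sum.inl p) = eval (pt (x 0) (deriv x 0)) (rename Sum.inl p) := hs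
  rw [← h2, h3, hx0]
  exact hQ p hp 0

private theorem Use_ident {g : ℂ → PN N} (hg : HolomorphicInto g Set.univ) {p : MvPolynomial (Fin (N + 1)) ℂ} {n : ℕ} (hp : p.IsHomogeneous n)
    (h : ∀ᶠ s in 𝓝 (0 : ℂ), VanishesAt p (g s)) (z : ℂ) : VanishesAt p (g z) := by
  obtain ⟨x, hx⟩ := Pool.Agent.H17.exists_global_lift hg
  have hxa : ∀ w, AnalyticAt ℂ (fun z => eval (fun j => (x j : ℂ → ℂ) z) p) w := by
    intro w
    have h1 : AnalyticAt ℂ (fun z => fun j => (x j : ℂ → ℂ) z) w := by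
      rw [analyticAt_pi_iff]
      intro j
      exact (x j).2.analyticAt w
    exact AnalyticAt.comp (g := fun y : Fin (N + 1) → ℂ => eval y p) (f := fun z => fun j => (x j : ℂ → ℂ) z)
      (AnalyticOnNhd.eval_mvPolynomial p _ (Set.mem_univ _)) h1
  have h2 : (fun z => eval (fun j => (x j : ℂ → ℂ) z) p) = fun _ => 0 := by
    refine AnalyticOnNhd.eq_of_eventuallyEq (𝕜 := ℂ) (fun w _ => hxa w) (fun w _ => analyticAt_const) (z₀ := 0) ?_
    filter_upwards [h] with s hs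
    obtain ⟨h0, h1⟩ := hx s
    rw [h1, vanishesAt_mk hp h0] at hs
    exact hs
  obtain ⟨h0, h1⟩ := hx z
  rw [h1, vanishesAt_mk hp h0]
  exact congrFun h2 z

variable {J m : ℕ} {θ : Fin J → SymSec P m}

/-- **Theorem B** for entire curves: if the closed subvariety `Y` given by `Q`, of dimension `k ≥ 1`, is not of general type, and `q` is a form which is not zero on it, then there is a nonconstant entire curve in `Y`, of order two,
which is not in the zero set of `q`. -/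
theorem exists_entire_sub [P.IsPrime] (hP : Homog P) (hm : 1 ≤ m) (hgen : Generated θ) [Q.IsPrime] (hQ : Homog Q)
    (hPQ : P ≤ Q) {k : ℕ} (hk : 1 ≤ k) (hz : ∃ z : Fin k → FunField Q, IsTranscendenceBasis ℂ z)
    (hn : ¬ IsLogGeneralType (K := FunField Q) (k := k) fun _ => False) {q : MvPolynomial (Fin (N + 1)) ℂ} {n : ℕ} (hq : q.IsHomogeneous n) (hqQ : q ∉ Q) :
    ∃ (g : ℂ → PN N) (c : Fin J → ℂ), HolomorphicInto g Set.univ ∧ OrderTwo g ∧ (∀ z, g z ∈ projVar Q) ∧ (∃ z w, g z ≠ g w) ∧ ¬ VanishesAt q (g 0) ∧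
      c ≠ 0 ∧ ∀ z, ArcAt (m := fun _ => m) θ c g z := by
  classical
  obtain ⟨f⟩ := exists_frame (m := fun _ => m) θ
  have hθ := polar_of_generated hm hgen
  obtain ⟨a, K, x, v, hx, hxa, hv, hva, hv0, hxq, hcr, hinv⟩ := exists_crit_inv hP hm hgen f hQ hPQ hk hz hn hq hqQ
  have hxP : x ∈ cone P := ⟨hx.1, fun p hp => hx.2 p (hPQ hp)⟩
  have hvP : v ∈ conTan P x := fun p hp => hv p (hPQ hp)
  have hT : IsTan (m := fun _ => m) θ a (fun k => (θ k).toFun x v) x v := ⟨hxP, hxa, hvP, hva, fun k => rfl⟩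
  set c : Fin J → ℂ := fun k => (θ k).toFun x v with hc
  obtain ⟨y, hy, hy0, hyQ⟩ := Use_arc hcr hinv
  have hyx : y 0 = x := by
    funext i
    exact congrFun hy0 (Sum.inl i)
  have hN : NArc (m := fun _ => m) θ a c y 0 := nArc_of_const f hT hy.1 fun l => by
    filter_upwards [hy.2 l] with w hw
    rw [hw, hy0]
  have hx0 : x ≠ 0 := hx.1
  have hc0 : c ≠ 0 := by
    intro h0
    rw [h0] at hT
    obtain ⟨r, hr⟩ := Submodule.mem_span_singleton.1 (no_common_zero hθ (fun _ => hm) hT.1 hT.2.2.1 hT.2.2.2.2)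
    have h5 : r * x a = v a := congrFun hr a
    rw [hxa, hva, mul_one] at h5
    rw [h5, zero_smul] at hr
    exact hv0 hr.symm
  set g : ℂ → PN N := fun w => if h : y w ≠ 0 then Projectivization.mk ℂ (y w) h else Projectivization.mk ℂ x hx0 with hg
  have hr : Rep g y 0 := by
    filter_upwards [hN.2] with w hw
    exact ⟨hw.1.1, dif_pos hw.1.1⟩
  have hA : ArcAt (m := fun _ => m) θ c g 0 := arcAt_of_nArc hN hr
  obtain ⟨r, hr0, K', hU⟩ := unif hθ (fun _ => hm) f (C := {c}) isCompact_singleton (by simpa using hc0.symm)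
  obtain ⟨g', hg', he⟩ := exists_entire hP f hr0 hU hA
  obtain ⟨hhol, hord, -, hne⟩ := orderTwo_of_arcAt hP hθ (fun _ => hm) hc0 hg'
  refine ⟨g', c, hhol, hord, ?_, hne, ?_, hc0, hg'⟩
  · intro z p hp n hpn
    refine Use_ident hhol hpn ?_ z
    filter_upwards [he, hr, hyQ p hp] with s h1 h2 h3
    obtain ⟨h4, h5⟩ := h2
    rw [h1, h5, vanishesAt_mk hpn h4]
    exact h3
  · rw [he.self_of_nhds]
    obtain ⟨h0, h1⟩ := hr.self_of_nhds
    rw [h1, vanishesAt_mk hq h0, hyx]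
    exact hxq

end Pool.Agent.GB

end
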