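import Pool.Agent.H18.GGT.M05
import Pool.Agent.H18.GGT.M09
import Pool.Agent.H18.GGT.M19

/-! The parts of this file: H68.KR.CB3, H68.KR.CB4, H68.KR.T1, H68.KR.T2, H68.KR.CB5, H68.KR.HD, H68.KR.PD, H68.KR.JF. -/

section

/-!
# KR CB3: extension of a quotient which has no poles on many slices

* `exists_quotient`: for every `y ∈ U` choose `q_y`; put `q y = q_y y`.  Near `y` (punctured neighbourhood) `b z ≠ 0`
  (isolated zeros: `AnalyticAt.eventually_eq_zero_or_eventually_ne_zero`), so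
  `q_y z = a z / b z = q_z z = q z`; hence `q = q_y` near `y` (also at `y`), analytic, and `a y = b y * q y`.
* `extend_of_slices`: Let `A, B` be analytic on the polydisc `|x| < r, |y| < r` (`ℂ × ℂ` has the sup norm, so it is
  `ball 0 r`).  `B (0, ·)` is not `0` near `0`: choose `0 < ρ < min r ρ₀` (`ρ₀` the radius of `h`) with `B (0, y) ≠ 0`
  for `0 < |y| ≤ ρ`, so on `|y| = ρ`.  Let `Φ` be given by `exists_cauchy`.  For `x` near `0`: `|x| < r`,
  `B (x, ζ) ≠ 0` for `|ζ| = ρ` (compactness: tube lemma), and the statement of `exists_cauchy`.  For those `x` with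
  `LD A B x y` for all `|y| < ρ₀`: let `ρ' = min r ρ₀ > ρ`; `B (x, ·)` is analytic on the ball of radius `ρ'` and not
  identically `0`, so not `0` near any point of it (identity theorem,
  `AnalyticOnNhd.eqOn_zero_of_preconnected_of_eventuallyEq_zero`); `exists_quotient` on `U = ball 0 ρ'` gives `q`, and
  `Φ (x, y) = q y`, hence `A (x, y) = B (x, y) Φ (x, y)` for `|y| < ρ`.
  Now let `r₁ ≤ ρ` be such that `Φ` is analytic on `|x| < r₁, |y| < r₁` (as `Φ` is analytic at `0`).  For fixed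
  `|y| < r₁` the function `x ↦ A (x, y) - B (x, y) Φ (x, y)` is analytic on `|x| < r₁` and frequently `0` near `0`,
  so it is `0` (`AnalyticOnNhd.eqOn_zero_of_preconnected_of_frequently_eq_zero`).
-/

set_option autoImplicit false

open Topology Filter Metric

noncomputable section

namespace Pool.Agent.H68.KR

/-- On the slice through `x` the function `A` is divisible by `B` near `y`. -/
def LD (A B : ℂ × ℂ → ℂ) (x y : ℂ) : Prop :=
  ∃ q : ℂ → ℂ, AnalyticAt ℂ q y ∧ ∀ᶠ z in 𝓝 y, A (x, z) = B (x, z) * q z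

theorem exists_quotient {a b : ℂ → ℂ} {U : Set ℂ} (hU : IsOpen U) (hb : ∀ y ∈ U, AnalyticAt ℂ b y)
    (hb0 : ∀ y ∈ U, ¬ ∀ᶠ z in 𝓝 y, b z = 0)
    (h : ∀ y ∈ U, ∃ q : ℂ → ℂ, AnalyticAt ℂ q y ∧ ∀ᶠ z in 𝓝 y, a z = b z * q z) :
    ∃ q : ℂ → ℂ, (∀ y ∈ U, AnalyticAt ℂ q y) ∧ ∀ y ∈ U, a y = b y * q y := by
  classical
  choose! Q hQa hQe using h
  refine ⟨fun y => Q y y, fun y hy => ?_, fun y hy => (hQe y hy).self_of_nhds⟩
  refine (hQa y hy).congr ?_
  have hb1 : ∀ᶠ z in 𝓝[≠] y, b z ≠ 0 :=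
    ((hb y hy).eventually_eq_zero_or_eventually_ne_zero).resolve_left (hb0 y hy)
  have h1 : ∀ᶠ z in 𝓝[≠] y, Q y z = Q z z := by
    filter_upwards [hb1, nhdsWithin_le_nhds (hQe y hy), nhdsWithin_le_nhds (hU.mem_nhds hy)] with z hz1 hz2 hz3
    have h3 := (hQe z hz3).self_of_nhds
    exact mul_left_cancel₀ hz1 (hz2.symm.trans h3)
  filter_upwards [eventually_nhdsWithin_iff.1 h1] with z hz
  by_cases hzy : z = y
  · rw [hzy]
  · exact hz hzy

/-- If `A / B` has no poles in a fixed disc for arbitrarily small `x ≠ 0`, then it is analytic at `0`. -/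
theorem extend_of_slices {A B : ℂ × ℂ → ℂ} (hA : AnalyticAt ℂ A 0) (hB : AnalyticAt ℂ B 0)
    (hB0 : ¬ ∀ᶠ y in 𝓝 (0 : ℂ), B (0, y) = 0) {ρ₀ : ℝ} (hρ₀ : 0 < ρ₀)
    (h : ∃ᶠ x in 𝓝[≠] (0 : ℂ), ∀ y ∈ ball (0 : ℂ) ρ₀, LD A B x y) :
    ∃ Φ : ℂ × ℂ → ℂ, AnalyticAt ℂ Φ 0 ∧ ∀ᶠ u in 𝓝 (0 : ℂ × ℂ), A u = B u * Φ u := by
  classical
  -- a polydisc on which both functions are analytic
  obtain ⟨r, hr, hAB⟩ := Metric.eventually_nhds_iff_ball.1 (hA.eventually_analyticAt.and hB.eventually_analyticAt)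
  have hmem : ∀ {s : ℝ} {x y : ℂ}, ‖x‖ < s → ‖y‖ < s → ((x, y) : ℂ × ℂ) ∈ ball (0 : ℂ × ℂ) s := by
    intro s x y hx hy
    rw [mem_ball_zero_iff, Prod.norm_def]
    exact max_lt hx hy
  have hslx : ∀ {F : ℂ × ℂ → ℂ} {x y : ℂ}, AnalyticAt ℂ F (x, y) → AnalyticAt ℂ (fun z => F (x, z)) y :=
    fun {F x y} hF => AnalyticAt.fun_comp (g := F) (f := fun z : ℂ => ((x, z) : ℂ × ℂ)) hF
      (analyticAt_const.prod analyticAt_id)
  have hsly : ∀ {F : ℂ × ℂ → ℂ} {x y : ℂ}, AnalyticAt ℂ F (x, y) → AnalyticAt ℂ (fun z => F (z, y)) x :=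
    fun {F x y} hF => AnalyticAt.fun_comp (g := F) (f := fun z : ℂ => ((z, y) : ℂ × ℂ)) hF
      (analyticAt_id.prod analyticAt_const)
  -- isolated zeros of the central slice
  have hb : AnalyticAt ℂ (fun y => B (0, y)) 0 := hslx hB
  have hb1 : ∀ᶠ y in 𝓝[≠] (0 : ℂ), B (0, y) ≠ 0 :=
    (hb.eventually_eq_zero_or_eventually_ne_zero).resolve_left hB0
  obtain ⟨ρ₁, hρ₁, hb2⟩ := Metric.eventually_nhds_iff_ball.1 (eventually_nhdsWithin_iff.1 hb1)
  obtain ⟨R, hR, hRr, hRρ₀, hRρ₁⟩ : ∃ R : ℝ, 0 < R ∧ R ≤ r ∧ R ≤ ρ₀ ∧ R ≤ ρ₁ :=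
    ⟨min r (min ρ₀ ρ₁), lt_min hr (lt_min hρ₀ hρ₁), min_le_left _ _,
      (min_le_right _ _).trans (min_le_left _ _), (min_le_right _ _).trans (min_le_right _ _)⟩
  obtain ⟨ρ, hρ, hρR⟩ : ∃ ρ : ℝ, 0 < ρ ∧ ρ < R := ⟨R / 2, by positivity, by linarith⟩
  have hsph : ∀ ζ ∈ sphere (0 : ℂ) ρ, ‖ζ‖ = ρ := fun ζ hζ => by simpa using hζ
  have hABs : ∀ ζ ∈ sphere (0 : ℂ) ρ, AnalyticAt ℂ A (0, ζ) ∧ AnalyticAt ℂ B (0, ζ) := fun ζ hζ =>
    hAB _ (hmem (by simpa using hr) (by rw [hsph ζ hζ]; linarith))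
  have hBs : ∀ ζ ∈ sphere (0 : ℂ) ρ, B (0, ζ) ≠ 0 := fun ζ hζ =>
    hb2 ζ (by rw [mem_ball_zero_iff, hsph ζ hζ]; linarith) (by
      intro h0
      have := hsph ζ hζ
      rw [h0, norm_zero] at this
      linarith)
  obtain ⟨Φ, hΦa, hΦe⟩ := exists_cauchy hρ (fun ζ hζ => (hABs ζ hζ).1) (fun ζ hζ => (hABs ζ hζ).2) hBs
  have h00 : ((0 : ℂ), (0 : ℂ)) = (0 : ℂ × ℂ) := rfl
  have hΦ0 : AnalyticAt ℂ Φ 0 := h00 ▸ hΦa 0 (by simpa using hρ)
  refine ⟨Φ, hΦ0, ?_⟩
  -- a point of the circle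
  obtain ⟨ζ₀, hζ₀⟩ : ∃ ζ₀ : ℂ, ‖ζ₀‖ = ρ := ⟨(ρ : ℂ), by rw [Complex.norm_real, Real.norm_eq_abs, abs_of_pos hρ]⟩
  have hζ₀s : ζ₀ ∈ sphere (0 : ℂ) ρ := by simpa using hζ₀
  have hBx : ∀ᶠ x in 𝓝 (0 : ℂ), B (x, ζ₀) ≠ 0 := by
    have h1 : ContinuousAt (fun x : ℂ => B (x, ζ₀)) 0 := (hsly (hABs ζ₀ hζ₀s).2).continuousAt
    exact h1.eventually_ne (hBs ζ₀ hζ₀s)
  have hxr : ∀ᶠ x in 𝓝 (0 : ℂ), ‖x‖ < r := by
    filter_upwards [Metric.ball_mem_nhds (0 : ℂ) hr] with x hx
    simpa using hx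
  -- the good slices
  have hgood : ∃ᶠ x in 𝓝[≠] (0 : ℂ), ∀ y ∈ ball (0 : ℂ) ρ, A (x, y) = B (x, y) * Φ (x, y) := by
    refine (h.and_eventually (nhdsWithin_le_nhds (hBx.and (hxr.and hΦe)))).mono ?_
    rintro x ⟨hx1, hx2, hx3, hx4⟩
    have hBa : ∀ y ∈ ball (0 : ℂ) R, AnalyticAt ℂ (fun z => B (x, z)) y := fun y hy =>
      hslx (hAB _ (hmem hx3 (lt_of_lt_of_le (by simpa using hy) hRr))).2
    obtain ⟨q, hqa, hqe⟩ := exists_quotient (a := fun z => A (x, z)) (b := fun z => B (x, z))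
      (U := ball (0 : ℂ) R) isOpen_ball hBa (fun y hy hz => by
        have h2 : Set.EqOn (fun z => B (x, z)) 0 (ball (0 : ℂ) R) :=
          AnalyticOnNhd.eqOn_zero_of_preconnected_of_eventuallyEq_zero hBa
            (convex_ball (0 : ℂ) R).isPreconnected hy hz
        exact hx2 (h2 (by rw [mem_ball_zero_iff, hζ₀]; exact hρR)))
      (fun y hy => hx1 y (ball_subset_ball hRρ₀ hy))
    have h3 := hx4 q (fun y hy => hqa y (closedBall_subset_ball hρR hy))
      (fun y hy => hqe y (closedBall_subset_ball hρR (sphere_subset_closedBall hy)))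
    intro y hy
    rw [h3 y hy]
    exact hqe y (ball_subset_ball hρR.le hy)
  -- analytic continuation in the first variable
  obtain ⟨r₂, hr₂, hΦb⟩ := Metric.eventually_nhds_iff_ball.1 hΦ0.eventually_analyticAt
  obtain ⟨r₁, hr₁, hr₁ρ, hr₁r, hr₁r₂⟩ : ∃ r₁ : ℝ, 0 < r₁ ∧ r₁ ≤ ρ ∧ r₁ ≤ r ∧ r₁ ≤ r₂ :=
    ⟨min ρ (min r r₂), lt_min hρ (lt_min hr hr₂), min_le_left _ _,
      (min_le_right _ _).trans (min_le_left _ _), (min_le_right _ _).trans (min_le_right _ _)⟩
  filter_upwards [Metric.ball_mem_nhds (0 : ℂ × ℂ) hr₁] with u hu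
  obtain ⟨x, y⟩ := u
  rw [mem_ball_zero_iff, Prod.norm_def] at hu
  have hx : ‖x‖ < r₁ := (le_max_left _ _).trans_lt hu
  have hy : ‖y‖ < r₁ := (le_max_right _ _).trans_lt hu
  have han : AnalyticOnNhd ℂ (fun z => A (z, y) - B (z, y) * Φ (z, y)) (ball (0 : ℂ) r₁) := by
    intro z hz
    have hz' : ‖z‖ < r₁ := by simpa using hz
    have h1 := hAB _ (hmem (hz'.trans_le hr₁r) (hy.trans_le hr₁r))
    have h2 := hΦb _ (hmem (hz'.trans_le hr₁r₂) (hy.trans_le hr₁r₂))
    exact (hsly h1.1).sub ((hsly h1.2).mul (hsly h2))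
  have hfr : ∃ᶠ z in 𝓝[≠] (0 : ℂ), A (z, y) - B (z, y) * Φ (z, y) = 0 :=
    hgood.mono fun z hz => sub_eq_zero.2 (hz y (by rw [mem_ball_zero_iff]; exact hy.trans_le hr₁ρ))
  have h0 := AnalyticOnNhd.eqOn_zero_of_preconnected_of_frequently_eq_zero han
    (convex_ball (0 : ℂ) r₁).isPreconnected (by simpa using hr₁ : (0 : ℂ) ∈ ball (0 : ℂ) r₁) hfr
  exact sub_eq_zero.1 (h0 (by simpa using hx : x ∈ ball (0 : ℂ) r₁))

end Pool.Agent.H68.KR

end
end

section

/-!
# KR CB4: tools for the pole curve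

* `exists_direction`: `B` analytic on `ball 0 r` (sup norm).  If for every `m : ℂ` the function `y ↦ B (m y, y)` is
  `0` near `0`, then for `|m| < 1` it is `0` for `|y| < r` (identity theorem).  So `B` vanishes on the open set
  `{(x, y) | |x| < |y| < r}` (`m = x / y`), which is not empty, hence on `ball 0 r`
  (`AnalyticOnNhd.eqOn_zero_of_preconnected_of_eventuallyEq_zero` in `ℂ × ℂ`).
* `ld_of_vanish`: by `iterate_dy_slice` (valid at the point `(x, y)`) the function `a = A (x, ·)` has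
  `iteratedDeriv i a y = 0` for `i < k`, and `b = B (x, ·)` has `iteratedDeriv i b y = 0` for `i < k`,
  `iteratedDeriv k b y ≠ 0`.  So `b z = (z - y)^k b₁ z`, `b₁ y ≠ 0` and `a z = (z - y)^k a₁ z`
  (`natCast_le_analyticOrderAt`, the relation of the order and the derivatives:
  `natCast_le_analyticOrderAt_iff_iteratedDeriv_eq_zero` or the Taylor series), `q = a₁ / b₁`.
* `ld_of_ne_zero`: `q = A / B`.
* `exists_implicit`: implicit function theorem for `G : ℂ × ℂ → ℂ` analytic at `(x₁, y₁)`, `G (x₁, y₁) = 0`,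
  `dy G (x₁, y₁) ≠ 0`: the map `F (x, y) = (x, G (x, y))` is analytic with invertible derivative at `(x₁, y₁)`
  (`(a, b) ↦ (a, G_x a + G_y b)`), so it has a local inverse which is analytic: e.g. `HasStrictFDerivAt` +
  `ContDiffAt.to_localInverse` with smoothness `ω` (`AnalyticAt.contDiffAt`, `ContDiffAt.analyticAt` for `n = ω`),
  or `OpenPartialHomeomorph.analyticAt_symm`/`hasFPowerSeriesAt_symm`.  `c x = (F⁻¹ (x, 0)).2`.
-/

set_option autoImplicit false

open Topology Filter Metric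

noncomputable section

namespace Pool.Agent.H68.KR

private lemma CB4_slice {B : ℂ × ℂ → ℂ} {x y : ℂ} (hB : AnalyticAt ℂ B (x, y)) :
    AnalyticAt ℂ (fun z => B (x, z)) y := by
  have h : AnalyticAt ℂ (fun z : ℂ => ((x, z) : ℂ × ℂ)) y := analyticAt_const.prod analyticAt_id
  exact AnalyticAt.comp (g := B) (f := fun z : ℂ => ((x, z) : ℂ × ℂ)) hB h

theorem exists_direction {B : ℂ × ℂ → ℂ} (hB : AnalyticAt ℂ B 0)
    (h : ¬ ∀ᶠ u in 𝓝 (0 : ℂ × ℂ), B u = 0) :
    ∃ m : ℂ, ¬ ∀ᶠ y in 𝓝 (0 : ℂ), B (m * y, y) = 0 := by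
  by_contra hcon
  push Not at hcon
  obtain ⟨r, hr, hBr⟩ := Metric.eventually_nhds_iff_ball.mp hB.eventually_analyticAt
  have key : ∀ x y : ℂ, ‖x‖ < ‖y‖ → ‖y‖ < r → B (x, y) = 0 := by
    intro x y hxy hy
    have hy0 : y ≠ 0 := by
      intro h0
      rw [h0, norm_zero] at hxy
      exact absurd hxy (not_lt.mpr (norm_nonneg x))
    have hm : ‖x / y‖ < 1 := by
      rw [norm_div, div_lt_one (norm_pos_iff.mpr hy0)]
      exact hxy
    have han : AnalyticOnNhd ℂ (fun z : ℂ => B (x / y * z, z)) (ball 0 r) := by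
      intro z hz
      have h1 : AnalyticAt ℂ (fun z : ℂ => ((x / y * z, z) : ℂ × ℂ)) z :=
        (analyticAt_const.mul analyticAt_id).prod analyticAt_id
      have h2 : ((x / y * z, z) : ℂ × ℂ) ∈ ball (0 : ℂ × ℂ) r := by
        rw [mem_ball_zero_iff] at hz ⊢
        rw [Prod.norm_mk, norm_mul]
        refine max_lt (lt_of_le_of_lt ?_ hz) hz
        have := norm_nonneg z
        nlinarith
      exact AnalyticAt.comp (g := B) (f := fun z : ℂ => ((x / y * z, z) : ℂ × ℂ)) (hBr _ h2) h1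
    have hz := han.eqOn_zero_of_preconnected_of_eventuallyEq_zero
      (convex_ball (0 : ℂ) r).isPreconnected (mem_ball_self hr) (hcon (x / y))
    have h3 := hz (mem_ball_zero_iff.mpr hy)
    simp only [Pi.zero_apply] at h3
    rwa [div_mul_cancel₀ _ hy0] at h3
  apply h
  have han : AnalyticOnNhd ℂ B (ball 0 r) := fun u hu => hBr u hu
  have hr2 : ‖((r / 2 : ℝ) : ℂ)‖ = r / 2 := by
    rw [Complex.norm_real, Real.norm_of_nonneg (by linarith)]
  have hp : (((0 : ℂ), ((r / 2 : ℝ) : ℂ)) : ℂ × ℂ) ∈ ball (0 : ℂ × ℂ) r := by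
    rw [mem_ball_zero_iff, Prod.norm_mk, norm_zero, hr2]
    exact max_lt hr (by linarith)
  have hev : B =ᶠ[𝓝 (((0 : ℂ), ((r / 2 : ℝ) : ℂ)) : ℂ × ℂ)] 0 := by
    have ho : IsOpen {u : ℂ × ℂ | ‖u.1‖ < ‖u.2‖ ∧ ‖u.2‖ < r} := by
      apply IsOpen.inter
      · exact isOpen_lt continuous_fst.norm continuous_snd.norm
      · exact isOpen_lt continuous_snd.norm continuous_const
    have hm : (((0 : ℂ), ((r / 2 : ℝ) : ℂ)) : ℂ × ℂ) ∈
        {u : ℂ × ℂ | ‖u.1‖ < ‖u.2‖ ∧ ‖u.2‖ < r} := by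
      refine ⟨?_, ?_⟩
      · show ‖(0 : ℂ)‖ < ‖((r / 2 : ℝ) : ℂ)‖
        rw [hr2, norm_zero]
        linarith
      · show ‖((r / 2 : ℝ) : ℂ)‖ < r
        rw [hr2]
        linarith
    filter_upwards [ho.mem_nhds hm] with u hu
    exact key u.1 u.2 hu.1 hu.2
  have hz := han.eqOn_zero_of_preconnected_of_eventuallyEq_zero
    (convex_ball (0 : ℂ × ℂ) r).isPreconnected hp hev
  filter_upwards [ball_mem_nhds (0 : ℂ × ℂ) hr] with u hu
  exact hz hu

theorem ld_of_vanish {A B : ℂ × ℂ → ℂ} {x y : ℂ} (hA : AnalyticAt ℂ A (x, y))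
    (hB : AnalyticAt ℂ B (x, y)) {k : ℕ} (h1 : ∀ i < k, (dy^[i] A) (x, y) = 0)
    (h2 : ∀ i < k, (dy^[i] B) (x, y) = 0) (h3 : (dy^[k] B) (x, y) ≠ 0) : LD A B x y := by
  have ha := CB4_slice hA
  have hb := CB4_slice hB
  have e1 : ∀ i < k, iteratedDeriv i (fun z => A (x, z)) y = 0 := by
    intro i hi
    rw [← iterate_dy_slice hA i]
    exact h1 i hi
  have e2 : ∀ i < k, iteratedDeriv i (fun z => B (x, z)) y = 0 := by
    intro i hi
    rw [← iterate_dy_slice hB i]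
    exact h2 i hi
  have e3 : iteratedDeriv k (fun z => B (x, z)) y ≠ 0 := by
    have := iterate_dy_slice hB k
    simp only at this
    rw [← this]
    exact h3
  have oa : (k : ℕ∞) ≤ analyticOrderAt (fun z => A (x, z)) y :=
    (natCast_le_analyticOrderAt_iff_iteratedDeriv_eq_zero ha).mpr e1
  have ob : (k : ℕ∞) ≤ analyticOrderAt (fun z => B (x, z)) y :=
    (natCast_le_analyticOrderAt_iff_iteratedDeriv_eq_zero hb).mpr e2
  have ob' : ¬ ((k + 1 : ℕ) : ℕ∞) ≤ analyticOrderAt (fun z => B (x, z)) y := by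
    intro hle
    exact e3 ((natCast_le_analyticOrderAt_iff_iteratedDeriv_eq_zero hb).mp hle k (Nat.lt_succ_self k))
  obtain ⟨a1, ha1, hea⟩ := (natCast_le_analyticOrderAt ha).mp oa
  obtain ⟨b1, hb1, heb⟩ := (natCast_le_analyticOrderAt hb).mp ob
  have hb1y : b1 y ≠ 0 := by
    intro h0
    apply ob'
    have ho1 : ((1 : ℕ) : ℕ∞) ≤ analyticOrderAt b1 y := by
      apply (natCast_le_analyticOrderAt_iff_iteratedDeriv_eq_zero hb1).mpr
      intro i hi
      have hi0 : i = 0 := by omega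
      subst hi0
      simpa using h0
    obtain ⟨b2, hb2, heb2⟩ := (natCast_le_analyticOrderAt hb1).mp ho1
    refine (natCast_le_analyticOrderAt hb).mpr ⟨b2, hb2, ?_⟩
    filter_upwards [heb, heb2] with z hz hz2
    rw [hz, hz2, smul_smul, ← pow_add]
  refine ⟨fun z => a1 z / b1 z, ha1.div hb1 hb1y, ?_⟩
  filter_upwards [hea, heb, hb1.continuousAt.eventually_ne hb1y] with z hza hzb hz1
  rw [hza, hzb, smul_eq_mul, smul_eq_mul]
  field_simp

/-- If `B (x, ·)` is not `0` near `y`, there is a first derivative which does not vanish. -/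
theorem exists_order {B : ℂ × ℂ → ℂ} {x y : ℂ} (hB : AnalyticAt ℂ B (x, y))
    (h : ¬ ∀ᶠ z in 𝓝 y, B (x, z) = 0) :
    ∃ k : ℕ, (∀ i < k, (dy^[i] B) (x, y) = 0) ∧ (dy^[k] B) (x, y) ≠ 0 := by
  have hb := CB4_slice hB
  have hne : analyticOrderAt (fun z => B (x, z)) y ≠ ⊤ := by
    intro h0
    exact h (analyticOrderAt_eq_top.mp h0)
  obtain ⟨k, hk⟩ := ENat.ne_top_iff_exists.mp hne
  refine ⟨k, ?_, ?_⟩
  · intro i hi
    rw [iterate_dy_slice hB i]
    exact (natCast_le_analyticOrderAt_iff_iteratedDeriv_eq_zero hb).mp hk.le i hi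
  · intro h0
    rw [iterate_dy_slice hB k] at h0
    have hle : ((k + 1 : ℕ) : ℕ∞) ≤ analyticOrderAt (fun z => B (x, z)) y := by
      apply (natCast_le_analyticOrderAt_iff_iteratedDeriv_eq_zero hb).mpr
      intro i hi
      rcases Nat.lt_succ_iff_lt_or_eq.mp hi with h1 | h1
      · exact (natCast_le_analyticOrderAt_iff_iteratedDeriv_eq_zero hb).mp hk.le i h1
      · rw [h1]
        exact h0
    rw [← hk] at hle
    have : k + 1 ≤ k := by exact_mod_cast hle
    omega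

theorem exists_implicit {G : ℂ × ℂ → ℂ} {x₁ y₁ : ℂ} (hG : AnalyticAt ℂ G (x₁, y₁))
    (h0 : G (x₁, y₁) = 0) (h1 : dy G (x₁, y₁) ≠ 0) :
    ∃ c : ℂ → ℂ, AnalyticAt ℂ c x₁ ∧ c x₁ = y₁ ∧
      ∀ᶠ u in 𝓝 ((x₁, y₁) : ℂ × ℂ), G u = 0 → u.2 = c u.1 := by
  set p : ℂ × ℂ := (x₁, y₁) with hp
  set F : ℂ × ℂ → ℂ × ℂ := fun u => (u.1, G u) with hF
  have hFa : AnalyticAt ℂ F p := analyticAt_fst.prod hG
  set L := fderiv ℂ G p with hL
  have hLy : L (0, 1) ≠ 0 := h1
  have hFd : HasFDerivAt F ((ContinuousLinearMap.fst ℂ ℂ ℂ).prod L) p :=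
    hasFDerivAt_fst.prodMk hG.differentiableAt.hasFDerivAt
  have hLab : ∀ a b : ℂ, L (a, b) = a * L (1, 0) + b * L (0, 1) := by
    intro a b
    have : ((a, b) : ℂ × ℂ) = a • ((1, 0) : ℂ × ℂ) + b • ((0, 1) : ℂ × ℂ) := by
      ext <;> simp
    rw [this, map_add, map_smul, map_smul, smul_eq_mul, smul_eq_mul]
  let e0 : (ℂ × ℂ) ≃ₗ[ℂ] (ℂ × ℂ) :=
    { toFun := fun u => (u.1, L u)
      invFun := fun v => (v.1, (v.2 - v.1 * L (1, 0)) / L (0, 1))
      map_add' := by
        intro u v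
        simp
      map_smul' := by
        intro c u
        simp
      left_inv := by
        intro u
        obtain ⟨a, b⟩ := u
        ext
        · rfl
        · simp only
          rw [hLab a b]
          field_simp
          ring
      right_inv := by
        intro v
        obtain ⟨a, b⟩ := v
        ext
        · rfl
        · simp only
          rw [hLab]
          field_simp
          ring }
  let e : (ℂ × ℂ) ≃L[ℂ] (ℂ × ℂ) := e0.toContinuousLinearEquiv
  have he : (e : (ℂ × ℂ) →L[ℂ] (ℂ × ℂ)) = (ContinuousLinearMap.fst ℂ ℂ ℂ).prod L := by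
    ext <;> rfl
  have hFd' : HasFDerivAt F (e : (ℂ × ℂ) →L[ℂ] (ℂ × ℂ)) p := by
    rw [he]
    exact hFd
  have hc : ContDiffAt ℂ (⊤ : WithTop ℕ∞) F p := hFa.contDiffAt
  have hn : (⊤ : WithTop ℕ∞) ≠ 0 := by
    simp
  have hFp : F p = (x₁, 0) := by
    simp only [hF, hp]
    rw [h0]
  have hinv : AnalyticAt ℂ (hc.localInverse hFd' hn) (x₁, 0) := by
    rw [← hFp]
    exact (hc.to_localInverse hFd' hn).analyticAt
  have hmap : AnalyticAt ℂ (fun x : ℂ => ((x, 0) : ℂ × ℂ)) x₁ := analyticAt_id.prod analyticAt_const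
  have hcomp : AnalyticAt ℂ (fun x : ℂ => hc.localInverse hFd' hn (x, 0)) x₁ :=
    AnalyticAt.comp (g := hc.localInverse hFd' hn) (f := fun x : ℂ => ((x, 0) : ℂ × ℂ)) hinv hmap
  refine ⟨fun x => (hc.localInverse hFd' hn (x, 0)).2, ?_, ?_, ?_⟩
  · exact analyticAt_snd.comp hcomp
  · have := hc.localInverse_apply_image hFd' hn
    rw [hFp] at this
    simp only
    rw [this]
  · have hleft : ∀ᶠ u in 𝓝 p, hc.localInverse hFd' hn (F u) = u :=
      (hc.hasStrictFDerivAt' hFd' hn).eventually_left_inverse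
    filter_upwards [hleft] with u hu hGu
    have h5 : F u = (u.1, 0) := by
      simp only [hF]
      rw [hGu]
    rw [h5] at hu
    rw [hu]

end Pool.Agent.H68.KR

end
end

section

/-!
# KR T1: the Taylor series of a function of one variable

`t1 f = ∑ f^(n)(0) / n! X^n`.

Proofs.
* `t1_congr`: `Filter.EventuallyEq.iteratedDeriv_eq`.
* `constantCoeff_t1`, `t1_const`, `t1_id`, `t1_add`: coefficients (`iteratedDeriv_add`, `iteratedDeriv_const`; for
  `t1_id` it is enough to know `iteratedDeriv (n + 2) (fun x => x) 0 = 0`, from `iteratedDeriv_succ'` and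
  `deriv_id''`).
* `t1_deriv`: `iteratedDeriv_succ'`: `iteratedDeriv (n + 1) f = iteratedDeriv n (deriv f)`.
* `t1_mul`: for all `n` and all `f, g`: `coeff n (t1 (f g)) = coeff n (t1 f * t1 g)`, by induction on `n`.
  `n = 0`: `constantCoeff_t1`. Step: `(n + 1) coeff (n + 1) F = coeff n F'`, and by `t1_deriv`, `t1_add`, `t1_congr` and the
  induction hypothesis `(t1 (f g))' = t1 (f' g + f g')` has the same `n`-th coefficient as
  `t1 f' t1 g + t1 f t1 g' = (t1 f t1 g)'`.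
  (Or directly: `iteratedDeriv_mul`.)
* `t1_eq_zero_iff`: `AnalyticAt` with all derivatives `0` at `0`: e.g. `HasFPowerSeriesAt` with
  `FormalMultilinearSeries.coeff`, or `analyticOrderAt` (`analyticOrderAt_eq_top`, if the order were the finite number
  `n` then `f = x^n g`, `g 0 ≠ 0` and the `n`-th derivative is `n! g 0`), or `AnalyticAt.hasFPowerSeriesAt`
  (`f` has the power series with the coefficients `iteratedDeriv n f 0 / n!`).
-/

set_option autoImplicit false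

open Topology Filter

noncomputable section

namespace Pool.Agent.H68.KR

/-- The Taylor series at `0` of a function of one variable. -/
def t1 (f : ℂ → ℂ) : PowerSeries ℂ :=
  PowerSeries.mk fun n => iteratedDeriv n f 0 / (n.factorial : ℂ)

private theorem T1_coeff (f : ℂ → ℂ) (n : ℕ) :
    PowerSeries.coeff n (t1 f) = iteratedDeriv n f 0 / (n.factorial : ℂ) := by
  unfold t1
  rw [PowerSeries.coeff_mk]

theorem t1_congr {f g : ℂ → ℂ} (h : ∀ᶠ x in 𝓝 (0 : ℂ), f x = g x) : t1 f = t1 g := by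
  ext n
  have h1 : iteratedDeriv n f 0 = iteratedDeriv n g 0 := Filter.EventuallyEq.iteratedDeriv_eq n h
  rw [T1_coeff, T1_coeff, h1]

theorem t1_const (c : ℂ) : t1 (fun _ => c) = PowerSeries.C c := by
  ext n
  rw [T1_coeff, iteratedDeriv_const, PowerSeries.coeff_C]
  by_cases h : n = 0
  · rw [if_pos h, h, Nat.factorial_zero, Nat.cast_one, div_one]
  · rw [if_neg h, zero_div]

theorem t1_id : t1 (fun x => x) = PowerSeries.X := by
  ext n
  rw [T1_coeff, iteratedDeriv_fun_id_zero, PowerSeries.coeff_X]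
  by_cases h : n = 1
  · rw [if_pos h, h, Nat.factorial_one, Nat.cast_one, div_one]
  · rw [if_neg h, zero_div]

theorem t1_add {f g : ℂ → ℂ} (hf : AnalyticAt ℂ f 0) (hg : AnalyticAt ℂ g 0) :
    t1 (fun x => f x + g x) = t1 f + t1 g := by
  ext n
  rw [map_add, T1_coeff, T1_coeff, T1_coeff, iteratedDeriv_fun_add hf.contDiffAt hg.contDiffAt,
    add_div]

theorem t1_deriv {f : ℂ → ℂ} (hf : AnalyticAt ℂ f 0) :
    PowerSeries.derivative ℂ (t1 f) = t1 (deriv f) := by
  ext n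
  rw [PowerSeries.coeff_derivative, T1_coeff, T1_coeff, iteratedDeriv_succ', Nat.factorial_succ]
  have h1 : (n.factorial : ℂ) ≠ 0 := by exact_mod_cast n.factorial_ne_zero
  have h2 : ((n : ℂ) + 1) ≠ 0 := by exact_mod_cast n.succ_ne_zero
  push_cast
  field_simp

theorem t1_mul {f g : ℂ → ℂ} (hf : AnalyticAt ℂ f 0) (hg : AnalyticAt ℂ g 0) :
    t1 (fun x => f x * g x) = t1 f * t1 g := by
  ext n
  rw [PowerSeries.coeff_mul, T1_coeff, iteratedDeriv_fun_mul hf.contDiffAt hg.contDiffAt,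
    Finset.Nat.sum_antidiagonal_eq_sum_range_succ
      (fun i j => PowerSeries.coeff i (t1 f) * PowerSeries.coeff j (t1 g)) n, Finset.sum_div]
  refine Finset.sum_congr rfl fun i hi => ?_
  have hi' : i ≤ n := Nat.lt_succ_iff.1 (Finset.mem_range.1 hi)
  rw [T1_coeff, T1_coeff]
  have h1 : (n.factorial : ℂ) ≠ 0 := by exact_mod_cast n.factorial_ne_zero
  have h2 : (i.factorial : ℂ) ≠ 0 := by exact_mod_cast i.factorial_ne_zero
  have h3 : ((n - i).factorial : ℂ) ≠ 0 := by exact_mod_cast (n - i).factorial_ne_zero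
  have h4 : ((n.choose i : ℂ)) * i.factorial * (n - i).factorial = n.factorial := by
    exact_mod_cast Nat.choose_mul_factorial_mul_factorial hi'
  rw [← h4]
  rw [← h4] at h1
  have h5 : ((n.choose i : ℂ)) ≠ 0 := by
    intro h
    rw [h, zero_mul, zero_mul] at h1
    exact h1 rfl
  field_simp

theorem t1_eq_zero_iff {f : ℂ → ℂ} (hf : AnalyticAt ℂ f 0) :
    t1 f = 0 ↔ ∀ᶠ x in 𝓝 (0 : ℂ), f x = 0 := by
  constructor
  · intro h
    have h1 := hasFPowerSeriesAt_iff.1 hf.hasFPowerSeriesAt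
    filter_upwards [h1] with z hz
    have h2 : (fun n => z ^ n • (FormalMultilinearSeries.ofScalars ℂ
        (fun n => iteratedDeriv n f 0 / (n.factorial : ℂ))).coeff n) = fun _ => (0 : ℂ) := by
      funext n
      rw [FormalMultilinearSeries.coeff_ofScalars, ← T1_coeff, h]
      simp
    rw [h2, zero_add] at hz
    exact hz.unique hasSum_zero
  · intro h
    rw [t1_congr h, t1_const, map_zero]

end Pool.Agent.H68.KR

end
end

section

/-!
# KR T2: the Taylor series of a function of two variables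

`t2 f ∈ ℂ⟦X⟧⟦T⟧`: the coefficient of `T^n` is `1/n!` times the Taylor series in `x` of `(∂/∂y)^n f (x, 0)`.

Proofs.
* `t2_congr`: `iterate_dy_congr` along `x ↦ (x, 0)` and `t1_congr`.
* `t2_add`, `t2_mul`: for all `n` and all `f, g` analytic at `0`:
  `coeff n (t2 (f g)) = coeff n (t2 f * t2 g)` by induction on `n`.  `n = 0`: `coeff 0` is
  `t1 (fun x => f (x, 0))` (`Nat.factorial 0 = 1`), so `t1_mul`.  Step: `(n + 1) coeff (n + 1) F = coeff n F'`, and by
  `t2_dy`, `t2_add`, `t2_congr`, `dy_mul` and the induction hypothesis `(t2 (f g))' = t2 (dy f g + f dy g)` has the same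
  `n`-th coefficient as `(t2 f t2 g)'`.  `t2_add`: the same or directly.
* `t2_dy`: `coeff n (F') = (n + 1) coeff (n + 1) F` (`PowerSeries.coeff_derivative`), `dy^[n + 1] f = dy^[n] (dy f)`
  (`Function.iterate_succ_apply`), `(n + 1) / (n + 1)! = 1 / n!`.
* `t2_dx`: `dx_iterate_dy_comm` and `t1_deriv`, `deriv_slice_x` (at the points `(x, 0)`, `x` near `0`:
  `deriv (fun x => g (x, 0)) x = dx g (x, 0)` with `g = dy^[n] f`).
* `t2_of_fst`: `dy (fun u => f u.1) = 0` near `0`.  `t2_snd`: `dy (fun u => u.2) = 1`, `dy (1) = 0`.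
* `t2_eq_zero_iff` (`→`): let `f` be analytic at all points of the polydisc `|x| < r, |y| < r`
  (`AnalyticAt.eventually_analyticAt`, `Metric.nhds_basis_ball`, the sup norm of `ℂ × ℂ`).  By `t1_eq_zero_iff`
  `dy^[n] f (x, 0) = 0` for `x` near `0`, hence for all `|x| < r` (identity theorem in the connected ball,
  `AnalyticOnNhd.eqOn_zero_of_preconnected_of_eventuallyEq_zero`).  By `iterate_dy_slice` all derivatives of
  `y ↦ f (x, y)` vanish at `0`, hence it vanishes near `0` (e.g. `t1_eq_zero_iff`) and for `|y| < r` (identity theorem).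
* `t2_eval`: `MvPolynomial.induction_on`.
-/

set_option autoImplicit false

open Topology Filter

noncomputable section

namespace Pool.Agent.H68.KR

/-- The Taylor series at `0` of a function of two variables, as a power series in the second variable whose
coefficients are power series in the first variable. -/
def t2 (f : ℂ × ℂ → ℂ) : PowerSeries (PowerSeries ℂ) :=
  PowerSeries.mk fun n => PowerSeries.C ((n.factorial : ℂ)⁻¹) * t1 (fun x => (dy^[n] f) (x, 0))

/-- The derivative in the first variable of a power series in two variables. -/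
def pX (F : PowerSeries (PowerSeries ℂ)) : PowerSeries (PowerSeries ℂ) :=
  PowerSeries.mk fun n => PowerSeries.derivative ℂ (PowerSeries.coeff n F)

private theorem T2_slice_tendsto :
    Tendsto (fun x : ℂ => (x, (0 : ℂ))) (𝓝 0) (𝓝 (0 : ℂ × ℂ)) := by
  have h : ContinuousAt (fun x : ℂ => (x, (0 : ℂ))) 0 := by fun_prop
  exact h

private theorem T2_slice {f : ℂ × ℂ → ℂ} {x : ℂ} (hf : AnalyticAt ℂ f (x, 0)) :
    AnalyticAt ℂ (fun x : ℂ => f (x, 0)) x := by
  have h : AnalyticAt ℂ (fun x : ℂ => (x, (0 : ℂ))) x := analyticAt_id.prod analyticAt_const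
  exact AnalyticAt.comp (g := f) (f := fun x : ℂ => (x, (0 : ℂ))) hf h

private theorem T2_slice_y {f : ℂ × ℂ → ℂ} {x y : ℂ} (hf : AnalyticAt ℂ f (x, y)) :
    AnalyticAt ℂ (fun y : ℂ => f (x, y)) y := by
  have h : AnalyticAt ℂ (fun y : ℂ => (x, y)) y := analyticAt_const.prod analyticAt_id
  exact AnalyticAt.comp (g := f) (f := fun y : ℂ => (x, y)) hf h

private theorem T2_coeff (f : ℂ × ℂ → ℂ) (n : ℕ) : PowerSeries.coeff n (t2 f) =
    PowerSeries.C ((n.factorial : ℂ)⁻¹) * t1 (fun x => (dy^[n] f) (x, 0)) := by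
  unfold t2
  rw [PowerSeries.coeff_mk]

private theorem T2_der_mul {R : Type*} [CommRing R] (F G : PowerSeries R) :
    PowerSeries.derivative R (F * G) =
      PowerSeries.derivative R F * G + F * PowerSeries.derivative R G := by
  rw [Derivation.leibniz, smul_eq_mul, smul_eq_mul, mul_comm G, add_comm]

private theorem T2_cast_ne (n : ℕ) : ((n : PowerSeries ℂ) + 1) ≠ 0 := by
  have h1 : ((n : PowerSeries ℂ) + 1) = PowerSeries.C ((n : ℂ) + 1) := by
    rw [map_add, map_natCast, map_one]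
  rw [h1]
  intro h3
  rw [map_eq_zero_iff _ PowerSeries.C_injective] at h3
  exact Nat.cast_add_one_ne_zero n h3

private theorem T2_ext {F G : PowerSeries (PowerSeries ℂ)}
    (hD : PowerSeries.derivative (PowerSeries ℂ) F = PowerSeries.derivative (PowerSeries ℂ) G)
    (hc : PowerSeries.constantCoeff F = PowerSeries.constantCoeff G) : F = G := by
  refine PowerSeries.ext fun n => ?_
  rcases n with - | n
  · rw [PowerSeries.coeff_zero_eq_constantCoeff_apply, PowerSeries.coeff_zero_eq_constantCoeff_apply]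
    exact hc
  · have h := congrArg (PowerSeries.coeff n) hD
    rw [PowerSeries.coeff_derivative, PowerSeries.coeff_derivative] at h
    exact mul_right_cancel₀ (T2_cast_ne n) h

theorem t2_congr {f g : ℂ × ℂ → ℂ} (h : ∀ᶠ u in 𝓝 (0 : ℂ × ℂ), f u = g u) : t2 f = t2 g := by
  unfold t2
  congr 1
  funext n
  congr 1
  exact t1_congr (T2_slice_tendsto.eventually (iterate_dy_congr h n))

theorem constantCoeff_t2 (f : ℂ × ℂ → ℂ) :
    PowerSeries.constantCoeff (t2 f) = t1 (fun x => f (x, 0)) := by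
  rw [← PowerSeries.coeff_zero_eq_constantCoeff_apply, T2_coeff]
  simp

theorem t2_add {f g : ℂ × ℂ → ℂ} (hf : AnalyticAt ℂ f 0) (hg : AnalyticAt ℂ g 0) :
    t2 (fun u => f u + g u) = t2 f + t2 g := by
  have key : ∀ (n : ℕ) (f g : ℂ × ℂ → ℂ), AnalyticAt ℂ f 0 → AnalyticAt ℂ g 0 →
      ∀ᶠ u in 𝓝 (0 : ℂ × ℂ), (dy^[n] fun u => f u + g u) u = (dy^[n] f) u + (dy^[n] g) u := by
    intro n
    induction n with
    | zero => intro f g _ _; exact Filter.Eventually.of_forall fun u => rfl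
    | succ n ih =>
      intro f g hf hg
      have h1 := iterate_dy_congr (dy_add hf hg) n
      have h2 := ih (dy f) (dy g) (analyticAt_dy hf) (analyticAt_dy hg)
      filter_upwards [h1, h2] with u hu1 hu2
      rw [Function.iterate_succ_apply, Function.iterate_succ_apply, Function.iterate_succ_apply]
      exact hu1.trans hu2
  refine PowerSeries.ext fun n => ?_
  rw [map_add, T2_coeff, T2_coeff, T2_coeff, ← mul_add]
  congr 1
  rw [← t1_add (T2_slice (analyticAt_iterate_dy hf n)) (T2_slice (analyticAt_iterate_dy hg n))]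
  exact t1_congr (T2_slice_tendsto.eventually (key n f g hf hg))

theorem t2_dy {f : ℂ × ℂ → ℂ} (hf : AnalyticAt ℂ f 0) :
    PowerSeries.derivative (PowerSeries ℂ) (t2 f) = t2 (dy f) := by
  refine PowerSeries.ext fun n => ?_
  rw [PowerSeries.coeff_derivative, T2_coeff, T2_coeff, Function.iterate_succ_apply]
  have h1 : ((n : PowerSeries ℂ) + 1) = PowerSeries.C ((n : ℂ) + 1) := by
    rw [map_add, map_natCast, map_one]
  have h2 : PowerSeries.C (((n + 1).factorial : ℂ)⁻¹) * PowerSeries.C ((n : ℂ) + 1) =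
      PowerSeries.C ((n.factorial : ℂ)⁻¹) := by
    rw [← map_mul]
    congr 1
    rw [Nat.factorial_succ, Nat.cast_mul, Nat.cast_add, Nat.cast_one, mul_inv]
    have h3 : (n : ℂ) + 1 ≠ 0 := by exact_mod_cast Nat.succ_ne_zero n
    field_simp
  rw [h1, mul_right_comm, h2]

theorem t2_dx {f : ℂ × ℂ → ℂ} (hf : AnalyticAt ℂ f 0) : pX (t2 f) = t2 (dx f) := by
  refine PowerSeries.ext fun n => ?_
  unfold pX
  rw [PowerSeries.coeff_mk, T2_coeff, T2_coeff, ← PowerSeries.smul_eq_C_mul, ← PowerSeries.smul_eq_C_mul,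
    Derivation.map_smul]
  congr 1
  rw [t1_deriv (T2_slice (analyticAt_iterate_dy hf n))]
  refine t1_congr ?_
  have h1 := T2_slice_tendsto.eventually (dx_iterate_dy_comm hf n)
  have h2 := T2_slice_tendsto.eventually (analyticAt_iterate_dy hf n).eventually_analyticAt
  filter_upwards [h1, h2] with x hx1 hx2
  rw [← hx1]
  exact deriv_slice_x (p := (x, 0)) hx2

theorem t2_mul {f g : ℂ × ℂ → ℂ} (hf : AnalyticAt ℂ f 0) (hg : AnalyticAt ℂ g 0) :
    t2 (fun u => f u * g u) = t2 f * t2 g := by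
  have key : ∀ (n : ℕ) (f g : ℂ × ℂ → ℂ), AnalyticAt ℂ f 0 → AnalyticAt ℂ g 0 →
      PowerSeries.coeff n (t2 fun u => f u * g u) = PowerSeries.coeff n (t2 f * t2 g) := by
    intro n
    induction n with
    | zero =>
      intro f g hf hg
      rw [PowerSeries.coeff_zero_eq_constantCoeff_apply, PowerSeries.coeff_zero_eq_constantCoeff_apply,
        map_mul, constantCoeff_t2, constantCoeff_t2, constantCoeff_t2]
      exact t1_mul (T2_slice hf) (T2_slice hg)
    | succ n ih =>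
      intro f g hf hg
      have h1 : PowerSeries.derivative (PowerSeries ℂ) (t2 fun u => f u * g u) =
          t2 (fun u => dy f u * g u) + t2 (fun u => f u * dy g u) := by
        have hfg : AnalyticAt ℂ (fun u => f u * g u) 0 := hf.mul hg
        rw [t2_dy hfg, t2_congr (dy_mul hf hg)]
        exact t2_add ((analyticAt_dy hf).mul hg) (hf.mul (analyticAt_dy hg))
      have h2 : PowerSeries.derivative (PowerSeries ℂ) (t2 f * t2 g) =
          t2 (dy f) * t2 g + t2 f * t2 (dy g) := by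
        rw [T2_der_mul, t2_dy hf, t2_dy hg]
      have h3 : PowerSeries.coeff n (PowerSeries.derivative (PowerSeries ℂ) (t2 fun u => f u * g u)) =
          PowerSeries.coeff n (PowerSeries.derivative (PowerSeries ℂ) (t2 f * t2 g)) := by
        rw [h1, h2, map_add, map_add, ih _ _ (analyticAt_dy hf) hg, ih _ _ hf (analyticAt_dy hg)]
      rw [PowerSeries.coeff_derivative, PowerSeries.coeff_derivative] at h3
      exact mul_right_cancel₀ (T2_cast_ne n) h3
  exact PowerSeries.ext fun n => key n f g hf hg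

private theorem T2_zero : t2 (fun _ => (0 : ℂ)) = 0 := by
  have h1 : dy (fun _ => (0 : ℂ)) = fun _ => (0 : ℂ) := by
    funext u
    unfold dy
    simp
  refine PowerSeries.ext fun n => ?_
  rw [T2_coeff, Function.iterate_fixed h1 n, t1_const, map_zero, mul_zero, map_zero]

/-- Functions of the first variable. -/
theorem t2_of_fst {f : ℂ → ℂ} (hf : AnalyticAt ℂ f 0) :
    t2 (fun u => f u.1) = PowerSeries.C (t1 f) := by
  refine T2_ext ?_ ?_
  · have hF : AnalyticAt ℂ (fun u : ℂ × ℂ => f u.1) 0 := by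
      have h : AnalyticAt ℂ (fun u : ℂ × ℂ => u.1) 0 := analyticAt_fst
      exact AnalyticAt.comp (g := f) (f := fun u : ℂ × ℂ => u.1) hf h
    have h1 : ∀ᶠ u in 𝓝 (0 : ℂ × ℂ), dy (fun u => f u.1) u = (fun _ => (0 : ℂ)) u := by
      filter_upwards [hF.eventually_analyticAt] with u hu
      have h5 := deriv_slice_y hu
      have h6 : deriv (fun _ : ℂ => f u.1) u.2 = 0 := deriv_const _ _
      exact h5.symm.trans h6
    rw [t2_dy hF, t2_congr h1, T2_zero, PowerSeries.derivative_C]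
  · rw [constantCoeff_t2, PowerSeries.constantCoeff_C]

theorem t2_const (c : ℂ) : t2 (fun _ => c) = PowerSeries.C (PowerSeries.C c) := by
  have h := t2_of_fst (f := fun _ => c) analyticAt_const
  rw [h, t1_const]

theorem t2_eq_zero_iff {f : ℂ × ℂ → ℂ} (hf : AnalyticAt ℂ f 0) :
    t2 f = 0 ↔ ∀ᶠ u in 𝓝 (0 : ℂ × ℂ), f u = 0 := by
  constructor
  · intro h
    obtain ⟨r, hr, hball⟩ := Metric.eventually_nhds_iff_ball.1 hf.eventually_analyticAt
    have hmem : ∀ x y : ℂ, x ∈ Metric.ball (0 : ℂ) r → y ∈ Metric.ball (0 : ℂ) r →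
        (x, y) ∈ Metric.ball (0 : ℂ × ℂ) r := by
      intro x y hx hy
      rw [Metric.mem_ball, Prod.dist_eq]
      exact max_lt hx hy
    have hpre : IsPreconnected (Metric.ball (0 : ℂ) r) := (convex_ball _ _).isPreconnected
    have h0 : (0 : ℂ) ∈ Metric.ball (0 : ℂ) r := Metric.mem_ball_self hr
    have hcoef : ∀ n : ℕ, ∀ᶠ x in 𝓝 (0 : ℂ), (dy^[n] f) (x, 0) = 0 := by
      intro n
      have h1 : PowerSeries.C ((n.factorial : ℂ)⁻¹) * t1 (fun x => (dy^[n] f) (x, 0)) = 0 := by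
        rw [← T2_coeff, h, map_zero]
      have h2 : PowerSeries.C ((n.factorial : ℂ)⁻¹) ≠ 0 := by
        intro h3
        rw [map_eq_zero_iff _ PowerSeries.C_injective, inv_eq_zero] at h3
        exact Nat.factorial_ne_zero n (by exact_mod_cast h3)
      have h3 := (mul_eq_zero.1 h1).resolve_left h2
      exact (t1_eq_zero_iff (T2_slice (analyticAt_iterate_dy hf n))).1 h3
    have haxis : ∀ n : ℕ, ∀ x ∈ Metric.ball (0 : ℂ) r, (dy^[n] f) (x, 0) = 0 := by
      intro n x hx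
      have h1 : AnalyticOnNhd ℂ (fun x : ℂ => (dy^[n] f) (x, 0)) (Metric.ball 0 r) := by
        intro x hx
        exact T2_slice (analyticAt_iterate_dy (hball _ (hmem x 0 hx h0)) n)
      exact h1.eqOn_zero_of_preconnected_of_eventuallyEq_zero hpre h0 (hcoef n) hx
    have hall : ∀ x ∈ Metric.ball (0 : ℂ) r, ∀ y ∈ Metric.ball (0 : ℂ) r, f (x, y) = 0 := by
      intro x hx y hy
      have h1 : AnalyticOnNhd ℂ (fun y : ℂ => f (x, y)) (Metric.ball 0 r) := by
        intro y hy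
        exact T2_slice_y (hball _ (hmem x y hx hy))
      have h2 : t1 (fun y : ℂ => f (x, y)) = 0 := by
        refine PowerSeries.ext fun n => ?_
        unfold t1
        rw [PowerSeries.coeff_mk, map_zero]
        have h3 := iterate_dy_slice (p := (x, 0)) (hball _ (hmem x 0 hx h0)) n
        rw [haxis n x hx] at h3
        rw [← h3, zero_div]
      have h3 := (t1_eq_zero_iff (h1 0 h0)).1 h2
      exact h1.eqOn_zero_of_preconnected_of_eventuallyEq_zero hpre h0 h3 hy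
    filter_upwards [Metric.ball_mem_nhds (0 : ℂ × ℂ) hr] with u hu
    rw [Metric.mem_ball, Prod.dist_eq, max_lt_iff] at hu
    exact hall u.1 hu.1 u.2 hu.2
  · intro h
    have h1 : ∀ᶠ u in 𝓝 (0 : ℂ × ℂ), f u = (fun _ => (0 : ℂ)) u := h
    rw [t2_congr h1, T2_zero]

theorem t2_pow {f : ℂ × ℂ → ℂ} (hf : AnalyticAt ℂ f 0) (n : ℕ) :
    t2 (fun u => f u ^ n) = t2 f ^ n := by
  induction n with
  | zero =>
    simp only [pow_zero]
    rw [t2_const, map_one, map_one]
  | succ n ih =>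
    have h1 : (fun u => f u ^ (n + 1)) = fun u => f u ^ n * f u := by
      funext u
      rw [pow_succ]
    have hn : AnalyticAt ℂ (fun u => f u ^ n) 0 := hf.pow n
    rw [h1, t2_mul hn hf, ih, pow_succ]

theorem t2_eval {n : ℕ} {ψ : ℂ × ℂ → Fin n → ℂ} (hψ : AnalyticAt ℂ ψ 0) (Q : MvPolynomial (Fin n) ℂ) :
    t2 (fun u => MvPolynomial.eval (ψ u) Q) =
      MvPolynomial.eval₂ ((PowerSeries.C : PowerSeries ℂ →+* PowerSeries (PowerSeries ℂ)).comp
        (PowerSeries.C : ℂ →+* PowerSeries ℂ)) (fun i => t2 (fun u => ψ u i)) Q := by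
  have hi : ∀ i, AnalyticAt ℂ (fun u => ψ u i) 0 := fun i => analyticAt_pi_iff.1 hψ i
  have key : ∀ Q : MvPolynomial (Fin n) ℂ, AnalyticAt ℂ (fun u => MvPolynomial.eval (ψ u) Q) 0 ∧
      t2 (fun u => MvPolynomial.eval (ψ u) Q) =
      MvPolynomial.eval₂ ((PowerSeries.C : PowerSeries ℂ →+* PowerSeries (PowerSeries ℂ)).comp
        (PowerSeries.C : ℂ →+* PowerSeries ℂ)) (fun i => t2 (fun u => ψ u i)) Q := by
    intro Q
    induction Q using MvPolynomial.induction_on with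
    | C a =>
      simp only [MvPolynomial.eval_C]
      refine ⟨analyticAt_const, ?_⟩
      rw [t2_const, MvPolynomial.eval₂_C]
      rfl
    | add p q hp hq =>
      simp only [map_add]
      refine ⟨hp.1.add hq.1, ?_⟩
      rw [t2_add hp.1 hq.1, hp.2, hq.2, MvPolynomial.eval₂_add]
    | mul_X p i hp =>
      simp only [map_mul, MvPolynomial.eval_X]
      refine ⟨hp.1.mul (hi i), ?_⟩
      rw [t2_mul hp.1 (hi i), hp.2, MvPolynomial.eval₂_mul, MvPolynomial.eval₂_X]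
  exact (key Q).2

end Pool.Agent.H68.KR

end
end

section

/-!
# KR CB5: a curve of poles

Proof of `exists_pole_curve` (`A / B` with `B (0, ·) ≠ 0`, no extension at `0`; `U` a neighbourhood of `0`).
Let `r > 0` with `ball 0 r ⊆ U` and `A, B` analytic on `ball 0 r`; `0 < ρ < r` with `B (0, y) ≠ 0` for `0 < |y| ≤ ρ`;
`0 < δ < r` with `B (x, y) ≠ 0` for `|x| < δ, |y| = ρ` (compactness).  For `|x| < δ` the function `B (x, ·)` is analytic
on `|y| < r`, not `0` on the circle `|y| = ρ`, so it does not vanish identically near any `y`, `|y| < r`.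
Let `Bad = {(x, y) | |x| < δ, |y| < ρ, ¬ LD A B x y}` and for `(x, y) ∈ Bad` let `k (x, y)` be the order of
`exists_order`.  `Bad` is not empty: otherwise `extend_of_slices` with `ρ₀ = ρ` applies.  Let `k` be the minimum of the
orders over `Bad`, attained at `(x₁, y₁)`: `dy^[i] B (x₁, y₁) = 0` for `i < k`, `dy^[k] B (x₁, y₁) ≠ 0`, and for every
`(x, y) ∈ Bad`: `dy^[i] B (x, y) = 0` for all `i < k`.  `k ≥ 1`: if `k = 0` then `ld_of_vanish` with `k = 0` says
`LD A B x₁ y₁`.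
Let `G = dy^[k-1] B`, `G (x₁, y₁) = 0`, `dy G (x₁, y₁) = dy^[k] B (x₁, y₁) ≠ 0`: `exists_implicit` gives `c₁`.
Put `c x = c₁ (x₁ + x)`.
Claim: for `x` near `0`, `x ≠ 0`: `(x₁ + x, c x) ∈ Bad`.  The pair `A (x₁ + ·, y₁ + ·), B (x₁ + ·, y₁ + ·)` has no
extension at `0` (otherwise `LD A B x₁ y₁`, `q z = Φ (0, z - y₁)`), so by `extend_of_slices` (contrapositive) for every
`ρ' > 0` and all `x ≠ 0` near `0` there is `y` with `|y - y₁| < ρ'` and `¬ LD A B (x₁ + x) y` (translate `LD`).  With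
`ρ'` and `x` so small that `|x₁ + x| < δ`, `|y| < ρ` and that the point is in the neighbourhood of `exists_implicit`:
`(x₁ + x, y) ∈ Bad`, `G (x₁ + x, y) = 0`, `y = c₁ (x₁ + x) = c x`.
The conclusions: `(x₁, c 0) = (x₁, y₁) ∈ U`; for `i < k`: `dy^[i] B (x₁ + x, c x) = 0` for `x ≠ 0` near `0` (and for
`x = 0`); `dy^[k] B (x₁, c 0) ≠ 0`; if for all `i < k` `dy^[i] A (x₁ + x, c x) = 0` for `x` near `0`, then take one
`x ≠ 0` near `0` for which all hold and `dy^[k] B (x₁ + x, c x) ≠ 0`: `ld_of_vanish` contradicts `Bad`.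

Proof of `exists_curve`.  `m` from `exists_direction`.  `A' (x, y) = A (x + m y, y)`, `B'` similarly; no extension
`Φ'` at `0` (otherwise `Φ (x, y) = Φ' (x - m y, y)`).  Apply `exists_pole_curve` to `A', B'` and the preimage of `U`.
For `θ = shear m x₁ c` and `f' (x, y) = f (x + m y, y)`: `f (θ u) = f' (x₁ + u.1, c u.1 + u.2)`, and for `x` near `0`
`dy^[i] (f ∘ θ) (x, 0) = (dy^[i] f') (x₁ + x, c x)` (`iterate_dy_slice` for both sides, `iteratedDeriv_comp_const_add`;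
the hypothesis of `iterate_dy_slice` holds at `(x, 0)` and `(x₁ + x, c x)` for `x` near `0`).
The `i`-th coefficient of `t2 (f ∘ θ)` is `C (1/i!) * t1 (fun x => dy^[i] (f ∘ θ) (x, 0))`, `0` iff the function is `0`
near `0` (`t1_congr`, `t1_eq_zero_iff`).  So `t2 (B ∘ θ)` has order `k` and `t2 (A ∘ θ)` has a non-zero coefficient of
index `< k` (`PowerSeries.order_eq_nat`, `PowerSeries.order_le`).
-/

set_option autoImplicit false

open Topology Filter Metric

noncomputable section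

namespace Pool.Agent.H68.KR

theorem analyticAt_shift (x₁ y₁ : ℂ) (p : ℂ × ℂ) :
    AnalyticAt ℂ (fun u : ℂ × ℂ => ((x₁ + u.1, y₁ + u.2) : ℂ × ℂ)) p :=
  AnalyticAt.prod (analyticAt_const.add analyticAt_fst) (analyticAt_const.add analyticAt_snd)

theorem ld_shift_of {A B : ℂ × ℂ → ℂ} {x₁ y₁ x y : ℂ}
    (h : LD A B (x₁ + x) (y₁ + y)) :
    LD (fun u => A (x₁ + u.1, y₁ + u.2)) (fun u => B (x₁ + u.1, y₁ + u.2)) x y := by
  obtain ⟨q, hq, he⟩ := h
  refine ⟨fun z => q (y₁ + z), ?_, ?_⟩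
  · have h1 : AnalyticAt ℂ q ((fun z => y₁ + z) y) := hq
    exact AnalyticAt.fun_comp h1 (by fun_prop)
  · have hc : ContinuousAt (fun z : ℂ => y₁ + z) y := by fun_prop
    have ht : Tendsto (fun z : ℂ => y₁ + z) (𝓝 y) (𝓝 (y₁ + y)) := hc
    filter_upwards [ht.eventually he] with z hz
    simpa using hz

theorem ld_of_ext {A B Φ : ℂ × ℂ → ℂ} {x₁ y₁ : ℂ} (hΦ : AnalyticAt ℂ Φ 0)
    (h : ∀ᶠ u in 𝓝 (0 : ℂ × ℂ), A (x₁ + u.1, y₁ + u.2) = B (x₁ + u.1, y₁ + u.2) * Φ u) :
    LD A B x₁ y₁ := by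
  refine ⟨fun z => Φ (0, z - y₁), ?_, ?_⟩
  · have h1 : AnalyticAt ℂ Φ ((fun z : ℂ => ((0 : ℂ), z - y₁)) y₁) := by
      simpa [Prod.zero_eq_mk] using hΦ
    exact AnalyticAt.fun_comp h1 (by fun_prop)
  · have hc : ContinuousAt (fun z : ℂ => ((0 : ℂ), z - y₁)) y₁ := by fun_prop
    have ht : Tendsto (fun z : ℂ => ((0 : ℂ), z - y₁)) (𝓝 y₁) (𝓝 0) := by
      have h2 := hc.tendsto
      simpa [Prod.zero_eq_mk] using h2
    filter_upwards [ht.eventually h] with z hz
    simpa using hz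

theorem eventually_of_punctured {P : ℂ → Prop} (h : ∀ᶠ x in 𝓝[≠] (0 : ℂ), P x) (h0 : P 0) :
    ∀ᶠ x in 𝓝 (0 : ℂ), P x := by
  rw [eventually_nhdsWithin_iff] at h
  filter_upwards [h] with x hx
  by_cases hx0 : x = 0
  · rw [hx0]; exact h0
  · exact hx hx0

/-- The point of minimal order and the implicit function. -/
theorem exists_min {A B : ℂ × ℂ → ℂ} (hA : AnalyticAt ℂ A 0) (hB : AnalyticAt ℂ B 0)
    (hB0 : ¬ ∀ᶠ y in 𝓝 (0 : ℂ), B (0, y) = 0)
    (hne : ¬ ∃ Φ : ℂ × ℂ → ℂ, AnalyticAt ℂ Φ 0 ∧ ∀ᶠ u in 𝓝 (0 : ℂ × ℂ), A u = B u * Φ u)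
    {U : Set (ℂ × ℂ)} (hU : U ∈ 𝓝 (0 : ℂ × ℂ)) :
    ∃ (V : Set (ℂ × ℂ)) (k : ℕ) (x₁ y₁ : ℂ), IsOpen V ∧ ((x₁, y₁) : ℂ × ℂ) ∈ V ∧
      (∀ u ∈ V, AnalyticAt ℂ A u ∧ AnalyticAt ℂ B u ∧ u ∈ U) ∧
      (∀ x y : ℂ, (x, y) ∈ V → ¬ LD A B x y → ∀ i < k, (dy^[i] B) (x, y) = 0) ∧
      ¬ LD A B x₁ y₁ ∧ (dy^[k] B) (x₁, y₁) ≠ 0 ∧ 0 < k ∧
      ¬ ∀ᶠ z in 𝓝 y₁, B (x₁, z) = 0 := by
  obtain ⟨r, hr0, hr⟩ : ∃ r > 0, ∀ u ∈ ball (0 : ℂ × ℂ) r, AnalyticAt ℂ A u ∧ AnalyticAt ℂ B u ∧ u ∈ U := by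
    have h := (hA.eventually_analyticAt.and hB.eventually_analyticAt).and hU
    obtain ⟨r, hr0, hr⟩ := Metric.eventually_nhds_iff_ball.1 h
    exact ⟨r, hr0, fun u hu => ⟨(hr u hu).1.1, (hr u hu).1.2, (hr u hu).2⟩⟩
  have hrr : ∀ x y : ℂ, ‖x‖ < r → ‖y‖ < r → ((x, y) : ℂ × ℂ) ∈ ball (0 : ℂ × ℂ) r := by
    intro x y hx hy
    rw [mem_ball_zero_iff, Prod.norm_def]
    exact max_lt hx hy
  have hb0 : AnalyticAt ℂ (fun y : ℂ => B (0, y)) 0 := by
    have h1 : AnalyticAt ℂ B ((fun y : ℂ => ((0 : ℂ), y)) 0) := by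
      simpa [Prod.zero_eq_mk] using hB
    exact AnalyticAt.fun_comp h1 (by fun_prop)
  obtain ⟨ε, hε0, hε⟩ : ∃ ε > 0, ∀ y : ℂ, ‖y‖ < ε → y ≠ 0 → B (0, y) ≠ 0 := by
    rcases hb0.eventually_eq_zero_or_eventually_ne_zero with h | h
    · exact absurd h hB0
    · rw [eventually_nhdsWithin_iff, Metric.eventually_nhds_iff_ball] at h
      obtain ⟨ε, hε0, hε⟩ := h
      exact ⟨ε, hε0, fun y hy hy0 => hε y (mem_ball_zero_iff.2 hy) hy0⟩
  set ρ : ℝ := min ε r / 2 with hρdef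
  have hm0 : 0 < min ε r := lt_min hε0 hr0
  have hρ0 : 0 < ρ := by positivity
  have hρε : ρ < ε := lt_of_lt_of_le (by rw [hρdef]; linarith) (min_le_left ε r)
  have hρr : ρ < r := lt_of_lt_of_le (by rw [hρdef]; linarith) (min_le_right ε r)
  obtain ⟨δ₀, hδ0, hδ⟩ : ∃ δ₀ > 0, ∀ x : ℂ, ‖x‖ < δ₀ → ∀ y ∈ sphere (0 : ℂ) ρ, B (x, y) ≠ 0 := by
    have h := (isCompact_sphere (0 : ℂ) ρ).eventually_forall_of_forall_eventually
      (x₀ := (0 : ℂ)) (P := fun x y => B (x, y) ≠ 0) (by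
        intro y hy
        have hy' : ‖y‖ = ρ := by simpa using hy
        have hne0 : y ≠ 0 := by
          rintro rfl
          rw [norm_zero] at hy'
          linarith
        have h1 : B (0, y) ≠ 0 := hε y (by rw [hy']; exact hρε) hne0
        have h2 : AnalyticAt ℂ B (0, y) := (hr _ (hrr 0 y (by simpa using hr0) (by rw [hy']; exact hρr))).2.1
        have h3 : ∀ᶠ z in 𝓝 ((0, y) : ℂ × ℂ), B z ≠ 0 := h2.continuousAt.eventually_ne h1
        filter_upwards [h3] with z hz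
        exact hz)
    rw [Metric.eventually_nhds_iff_ball] at h
    obtain ⟨δ₀, hδ0, hδ⟩ := h
    exact ⟨δ₀, hδ0, fun x hx => hδ x (mem_ball_zero_iff.2 hx)⟩
  set δ : ℝ := min δ₀ r with hδdef
  have hδp : 0 < δ := lt_min hδ0 hr0
  have hδr : δ ≤ r := min_le_right _ _
  have hδδ : δ ≤ δ₀ := min_le_left _ _
  have hnz : ∀ x y : ℂ, ‖x‖ < δ → ‖y‖ < r → ¬ ∀ᶠ z in 𝓝 y, B (x, z) = 0 := by
    intro x y hx hy h
    have han : AnalyticOnNhd ℂ (fun z : ℂ => B (x, z)) (ball (0 : ℂ) r) := by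
      intro z hz
      have h1 : AnalyticAt ℂ B ((fun z : ℂ => (x, z)) z) :=
        (hr _ (hrr x z (lt_of_lt_of_le hx hδr) (mem_ball_zero_iff.1 hz))).2.1
      exact AnalyticAt.fun_comp h1 (by fun_prop)
    have h2 := han.eqOn_zero_of_preconnected_of_eventuallyEq_zero
      (convex_ball (0 : ℂ) r).isPreconnected (mem_ball_zero_iff.2 hy) h
    have hρn : ‖(ρ : ℂ)‖ = ρ := by
      rw [Complex.norm_real, Real.norm_of_nonneg hρ0.le]
    have h3 := h2 (x := (ρ : ℂ)) (mem_ball_zero_iff.2 (by rw [hρn]; exact hρr))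
    exact hδ x (lt_of_lt_of_le hx hδδ) (ρ : ℂ) (by simp [hρ0.le]) h3
  have hex : ∃ x y : ℂ, ‖x‖ < δ ∧ ‖y‖ < ρ ∧ ¬ LD A B x y := by
    by_contra hcon
    push Not at hcon
    apply hne
    apply extend_of_slices hA hB hB0 hρ0
    apply Eventually.frequently
    rw [eventually_nhdsWithin_iff, Metric.eventually_nhds_iff_ball]
    exact ⟨δ, hδp, fun x hx _ y hy => hcon x y (mem_ball_zero_iff.1 hx) (mem_ball_zero_iff.1 hy)⟩
  have hord : ∀ x y : ℂ, ‖x‖ < δ → ‖y‖ < ρ →
      ∃ k : ℕ, (∀ i < k, (dy^[i] B) (x, y) = 0) ∧ (dy^[k] B) (x, y) ≠ 0 := by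
    intro x y hx hy
    exact exists_order (hr _ (hrr x y (lt_of_lt_of_le hx hδr) (hy.trans hρr))).2.1
      (hnz x y hx (hy.trans hρr))
  have hK : ∃ k : ℕ, ∃ x y : ℂ, ‖x‖ < δ ∧ ‖y‖ < ρ ∧ ¬ LD A B x y ∧
      (∀ i < k, (dy^[i] B) (x, y) = 0) ∧ (dy^[k] B) (x, y) ≠ 0 := by
    obtain ⟨x, y, hx, hy, hL⟩ := hex
    obtain ⟨k, hk⟩ := hord x y hx hy
    exact ⟨k, x, y, hx, hy, hL, hk⟩
  classical
  set k := Nat.find hK with hkdef
  obtain ⟨x₁, y₁, hx₁, hy₁, hL₁, hk1, hk2⟩ := Nat.find_spec hK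
  rw [← hkdef] at hk1 hk2
  have hmin : ∀ x y : ℂ, ‖x‖ < δ → ‖y‖ < ρ → ¬ LD A B x y → ∀ i < k, (dy^[i] B) (x, y) = 0 := by
    intro x y hx hy hL i hi
    obtain ⟨j, hj1, hj2⟩ := hord x y hx hy
    have hkj : k ≤ j := Nat.find_min' hK ⟨x, y, hx, hy, hL, hj1, hj2⟩
    exact hj1 i (lt_of_lt_of_le hi hkj)
  have hpt := hr _ (hrr x₁ y₁ (lt_of_lt_of_le hx₁ hδr) (hy₁.trans hρr))
  refine ⟨ball (0 : ℂ) δ ×ˢ ball (0 : ℂ) ρ, k, x₁, y₁, isOpen_ball.prod isOpen_ball, ?_, ?_, ?_,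
    hL₁, hk2, ?_, hnz x₁ y₁ hx₁ (hy₁.trans hρr)⟩
  · exact ⟨mem_ball_zero_iff.2 hx₁, mem_ball_zero_iff.2 hy₁⟩
  · intro u hu
    exact hr _ (hrr u.1 u.2 (lt_of_lt_of_le (mem_ball_zero_iff.1 hu.1) hδr)
      ((mem_ball_zero_iff.1 hu.2).trans hρr))
  · intro x y hxy hL
    exact hmin x y (mem_ball_zero_iff.1 hxy.1) (mem_ball_zero_iff.1 hxy.2) hL
  · by_contra h0
    have hk0 : k = 0 := by omega
    apply hL₁
    apply ld_of_vanish hpt.1 hpt.2.1 (k := k)
    · intro i hi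
      omega
    · exact hk1
    · exact hk2

theorem exists_pole_curve {A B : ℂ × ℂ → ℂ} (hA : AnalyticAt ℂ A 0) (hB : AnalyticAt ℂ B 0)
    (hB0 : ¬ ∀ᶠ y in 𝓝 (0 : ℂ), B (0, y) = 0)
    (hne : ¬ ∃ Φ : ℂ × ℂ → ℂ, AnalyticAt ℂ Φ 0 ∧ ∀ᶠ u in 𝓝 (0 : ℂ × ℂ), A u = B u * Φ u)
    {U : Set (ℂ × ℂ)} (hU : U ∈ 𝓝 (0 : ℂ × ℂ)) :
    ∃ (x₁ : ℂ) (c : ℂ → ℂ) (k : ℕ), AnalyticAt ℂ c 0 ∧ ((x₁, c 0) : ℂ × ℂ) ∈ U ∧
      AnalyticAt ℂ A (x₁, c 0) ∧ AnalyticAt ℂ B (x₁, c 0) ∧
      (∀ i < k, ∀ᶠ x in 𝓝 (0 : ℂ), (dy^[i] B) (x₁ + x, c x) = 0) ∧ (dy^[k] B) (x₁, c 0) ≠ 0 ∧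
      ∃ i < k, ¬ ∀ᶠ x in 𝓝 (0 : ℂ), (dy^[i] A) (x₁ + x, c x) = 0 := by
  obtain ⟨V, k, x₁, y₁, hVo, hV1, hV, hmin, hL₁, hk2, hk0, hnz⟩ := exists_min hA hB hB0 hne hU
  obtain ⟨n, rfl⟩ : ∃ n, k = n + 1 := ⟨k - 1, by omega⟩
  have hA1 : AnalyticAt ℂ A (x₁, y₁) := (hV _ hV1).1
  have hB1 : AnalyticAt ℂ B (x₁, y₁) := (hV _ hV1).2.1
  have hG : AnalyticAt ℂ (dy^[n] B) (x₁, y₁) := analyticAt_iterate_dy hB1 n
  have hk1 := hmin x₁ y₁ hV1 hL₁
  have hG1 : dy (dy^[n] B) (x₁, y₁) ≠ 0 := by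
    rw [Function.iterate_succ_apply'] at hk2
    exact hk2
  obtain ⟨c₁, hc₁, hc₁0, hc₁e⟩ := exists_implicit hG (hk1 n (Nat.lt_succ_self n)) hG1
  have hc : AnalyticAt ℂ (fun x : ℂ => c₁ (x₁ + x)) 0 := by
    have h1 : AnalyticAt ℂ c₁ ((fun x : ℂ => x₁ + x) 0) := by simpa using hc₁
    exact AnalyticAt.fun_comp h1 (by fun_prop)
  have hc0 : (fun x : ℂ => c₁ (x₁ + x)) 0 = y₁ := by simpa using hc₁0
  have hA2 : AnalyticAt ℂ (fun u : ℂ × ℂ => A (x₁ + u.1, y₁ + u.2)) 0 := by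
    have h1 : AnalyticAt ℂ A ((fun u : ℂ × ℂ => (x₁ + u.1, y₁ + u.2)) 0) := by simpa using hA1
    exact AnalyticAt.fun_comp h1 (analyticAt_shift x₁ y₁ 0)
  have hB2 : AnalyticAt ℂ (fun u : ℂ × ℂ => B (x₁ + u.1, y₁ + u.2)) 0 := by
    have h1 : AnalyticAt ℂ B ((fun u : ℂ × ℂ => (x₁ + u.1, y₁ + u.2)) 0) := by simpa using hB1
    exact AnalyticAt.fun_comp h1 (analyticAt_shift x₁ y₁ 0)
  have hB3 : ¬ ∀ᶠ y in 𝓝 (0 : ℂ), (fun u : ℂ × ℂ => B (x₁ + u.1, y₁ + u.2)) (0, y) = 0 := by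
    intro h
    apply hnz
    have hcs : ContinuousAt (fun z : ℂ => z - y₁) y₁ := by fun_prop
    have ht : Tendsto (fun z : ℂ => z - y₁) (𝓝 y₁) (𝓝 0) := by
      have h2 := hcs.tendsto
      simpa using h2
    filter_upwards [ht.eventually h] with z hz
    simpa using hz
  have hne2 : ¬ ∃ Φ : ℂ × ℂ → ℂ, AnalyticAt ℂ Φ 0 ∧ ∀ᶠ u in 𝓝 (0 : ℂ × ℂ),
      (fun u : ℂ × ℂ => A (x₁ + u.1, y₁ + u.2)) u = (fun u : ℂ × ℂ => B (x₁ + u.1, y₁ + u.2)) u * Φ u := by
    rintro ⟨Φ, hΦ, he⟩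
    exact hL₁ (ld_of_ext hΦ he)
  obtain ⟨ε, hε0, hε⟩ : ∃ ε > 0, ∀ u ∈ ball ((x₁, y₁) : ℂ × ℂ) ε,
      u ∈ V ∧ ((dy^[n] B) u = 0 → u.2 = c₁ u.1) := by
    have h := (hVo.mem_nhds hV1 : V ∈ 𝓝 ((x₁, y₁) : ℂ × ℂ))
    have h2 : ∀ᶠ u in 𝓝 ((x₁, y₁) : ℂ × ℂ), u ∈ V ∧ ((dy^[n] B) u = 0 → u.2 = c₁ u.1) :=
      Filter.Eventually.and h hc₁e
    exact Metric.eventually_nhds_iff_ball.1 h2
  have hbad : ∀ᶠ x in 𝓝[≠] (0 : ℂ), ((x₁ + x, c₁ (x₁ + x)) : ℂ × ℂ) ∈ V ∧
      ¬ LD A B (x₁ + x) (c₁ (x₁ + x)) := by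
    have h1 : ¬ ∃ᶠ x in 𝓝[≠] (0 : ℂ), ∀ y ∈ ball (0 : ℂ) ε,
        LD (fun u : ℂ × ℂ => A (x₁ + u.1, y₁ + u.2)) (fun u : ℂ × ℂ => B (x₁ + u.1, y₁ + u.2)) x y := by
      intro h
      exact hne2 (extend_of_slices hA2 hB2 hB3 hε0 h)
    rw [Filter.not_frequently] at h1
    have h2 : ∀ᶠ x in 𝓝[≠] (0 : ℂ), x ∈ ball (0 : ℂ) ε :=
      mem_nhdsWithin_of_mem_nhds (ball_mem_nhds 0 hε0)
    filter_upwards [h1, h2] with x hx hxε
    push Not at hx
    obtain ⟨y, hy, hLy⟩ := hx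
    have hmem : ((x₁ + x, y₁ + y) : ℂ × ℂ) ∈ ball ((x₁, y₁) : ℂ × ℂ) ε := by
      rw [mem_ball, Prod.dist_eq]
      simp only [dist_eq_norm, add_sub_cancel_left]
      exact max_lt (mem_ball_zero_iff.1 hxε) (mem_ball_zero_iff.1 hy)
    obtain ⟨hv, himp⟩ := hε _ hmem
    have hLD : ¬ LD A B (x₁ + x) (y₁ + y) := fun h => hLy (ld_shift_of h)
    have hG0 := hmin _ _ hv hLD n (Nat.lt_succ_self n)
    have hy2 : y₁ + y = c₁ (x₁ + x) := himp hG0
    rw [← hy2]
    exact ⟨hv, hLD⟩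
  refine ⟨x₁, fun x => c₁ (x₁ + x), n + 1, hc, ?_, ?_, ?_, ?_, ?_, ?_⟩
  · rw [hc0]; exact (hV _ hV1).2.2
  · rw [hc0]; exact hA1
  · rw [hc0]; exact hB1
  · intro i hi
    apply eventually_of_punctured
    · filter_upwards [hbad] with x hx
      exact hmin _ _ hx.1 hx.2 i hi
    · rw [add_zero, hc0]
      exact hk1 i hi
  · rw [hc0]; exact hk2
  · by_contra hcon
    push Not at hcon
    have h1 : ∀ᶠ x in 𝓝 (0 : ℂ), ∀ i ∈ Finset.range (n + 1), (dy^[i] A) (x₁ + x, c₁ (x₁ + x)) = 0 := by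
      rw [Filter.eventually_all_finset]
      intro i hi
      exact hcon i (Finset.mem_range.1 hi)
    have h2 : ∀ᶠ x in 𝓝 (0 : ℂ), (dy^[n + 1] B) (x₁ + x, c₁ (x₁ + x)) ≠ 0 := by
      have h3 : AnalyticAt ℂ (dy^[n + 1] B) ((fun x : ℂ => (x₁ + x, c₁ (x₁ + x))) 0) := by
        have h4 : ((fun x : ℂ => (x₁ + x, c₁ (x₁ + x))) 0 : ℂ × ℂ) = (x₁, y₁) := by
          simp [hc₁0]
        rw [h4]
        exact analyticAt_iterate_dy hB1 (n + 1)
      have h5 : AnalyticAt ℂ (fun x : ℂ => ((x₁ + x, c₁ (x₁ + x)) : ℂ × ℂ)) 0 :=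
        AnalyticAt.prod (by fun_prop) hc
      have h6 : AnalyticAt ℂ (fun x : ℂ => (dy^[n + 1] B) ((fun x : ℂ => (x₁ + x, c₁ (x₁ + x))) x)) 0 :=
        AnalyticAt.fun_comp (f := fun x : ℂ => ((x₁ + x, c₁ (x₁ + x)) : ℂ × ℂ)) h3 h5
      exact h6.continuousAt.eventually_ne (by simpa [hc₁0] using hk2)
    have h3 : ∀ᶠ x in 𝓝[≠] (0 : ℂ), False := by
      filter_upwards [hbad, nhdsWithin_le_nhds h1, nhdsWithin_le_nhds h2] with x hx1 hx2 hx3
      apply hx1.2
      apply ld_of_vanish (hV _ hx1.1).1 (hV _ hx1.1).2.1 (k := n + 1)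
      · intro i hi
        exact hx2 i (Finset.mem_range.2 hi)
      · intro i hi
        exact hmin _ _ hx1.1 hx1.2 i hi
      · exact hx3
    simpa using h3.exists

/-- The coordinate change `(x, y) ↦ (x₁ + x + m (c x + y), c x + y)`. -/
def shear (m x₁ : ℂ) (c : ℂ → ℂ) (u : ℂ × ℂ) : ℂ × ℂ :=
  (x₁ + u.1 + m * (c u.1 + u.2), c u.1 + u.2)

theorem iterate_dy_shift {f : ℂ × ℂ → ℂ} {c : ℂ → ℂ} {x₁ : ℂ} (hc : AnalyticAt ℂ c 0)
    (hf : AnalyticAt ℂ f (x₁, c 0)) (i : ℕ) :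
    AnalyticAt ℂ (fun u : ℂ × ℂ => f (x₁ + u.1, c u.1 + u.2)) 0 ∧
    ∀ᶠ x in 𝓝 (0 : ℂ), (dy^[i] fun u : ℂ × ℂ => f (x₁ + u.1, c u.1 + u.2)) (x, 0) =
      (dy^[i] f) (x₁ + x, c x) := by
  have hσ : AnalyticAt ℂ (fun u : ℂ × ℂ => ((x₁ + u.1, c u.1 + u.2) : ℂ × ℂ)) 0 := by
    have h1 : AnalyticAt ℂ (fun u : ℂ × ℂ => c u.1) 0 :=
      AnalyticAt.fun_comp (f := fun u : ℂ × ℂ => u.1) hc analyticAt_fst
    exact AnalyticAt.prod (analyticAt_const.add analyticAt_fst) (h1.add analyticAt_snd)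
  have hfσ : AnalyticAt ℂ (fun u : ℂ × ℂ => f (x₁ + u.1, c u.1 + u.2)) 0 :=
    AnalyticAt.fun_comp (f := fun u : ℂ × ℂ => ((x₁ + u.1, c u.1 + u.2) : ℂ × ℂ))
      (by simpa using hf) hσ
  refine ⟨hfσ, ?_⟩
  have ht1 : Tendsto (fun x : ℂ => ((x, 0) : ℂ × ℂ)) (𝓝 0) (𝓝 0) := by
    have h1 : ContinuousAt (fun x : ℂ => ((x, 0) : ℂ × ℂ)) 0 := by fun_prop
    simpa [Prod.zero_eq_mk] using h1.tendsto
  have ht2 : Tendsto (fun x : ℂ => ((x₁ + x, c x) : ℂ × ℂ)) (𝓝 0) (𝓝 (x₁, c 0)) := by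
    have h0 : ContinuousAt c 0 := hc.continuousAt
    have h1 : ContinuousAt (fun x : ℂ => ((x₁ + x, c x) : ℂ × ℂ)) 0 := by fun_prop
    simpa using h1.tendsto
  filter_upwards [ht1.eventually hfσ.eventually_analyticAt, ht2.eventually hf.eventually_analyticAt]
    with x hx1 hx2
  rw [iterate_dy_slice hx1 i, iterate_dy_slice hx2 i]
  have h3 := congrFun (iteratedDeriv_comp_const_add i (fun y : ℂ => f (x₁ + x, y)) (c x)) 0
  rw [add_zero] at h3
  exact h3

theorem coeff_t2_iff {g : ℂ × ℂ → ℂ} (hg : AnalyticAt ℂ g 0) (i : ℕ) :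
    PowerSeries.coeff i (t2 g) = 0 ↔ ∀ᶠ x in 𝓝 (0 : ℂ), (dy^[i] g) (x, 0) = 0 := by
  have h1 : AnalyticAt ℂ (fun x : ℂ => (dy^[i] g) (x, 0)) 0 :=
    AnalyticAt.fun_comp (f := fun x : ℂ => ((x, 0) : ℂ × ℂ))
      (by simpa [Prod.zero_eq_mk] using analyticAt_iterate_dy hg i)
      (AnalyticAt.prod analyticAt_id analyticAt_const)
  rw [← t1_eq_zero_iff h1, t2, PowerSeries.coeff_mk, mul_eq_zero]
  constructor
  · rintro (h | h)
    · exfalso
      have h2 := congrArg PowerSeries.constantCoeff h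
      rw [PowerSeries.constantCoeff_C, map_zero, inv_eq_zero, Nat.cast_eq_zero] at h2
      exact Nat.factorial_ne_zero i h2
    · exact h
  · exact Or.inr

theorem coeff_shear_iff {f : ℂ × ℂ → ℂ} {c : ℂ → ℂ} (m x₁ : ℂ) (hc : AnalyticAt ℂ c 0)
    (hf : AnalyticAt ℂ (fun u : ℂ × ℂ => f (u.1 + m * u.2, u.2)) (x₁, c 0)) (i : ℕ) :
    PowerSeries.coeff i (t2 fun u => f (shear m x₁ c u)) = 0 ↔
      ∀ᶠ x in 𝓝 (0 : ℂ), (dy^[i] fun u : ℂ × ℂ => f (u.1 + m * u.2, u.2)) (x₁ + x, c x) = 0 := by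
  obtain ⟨h1, h2⟩ := iterate_dy_shift (f := fun u : ℂ × ℂ => f (u.1 + m * u.2, u.2)) hc hf i
  have h3 : (fun u => f (shear m x₁ c u)) = fun u : ℂ × ℂ =>
      (fun u : ℂ × ℂ => f (u.1 + m * u.2, u.2)) (x₁ + u.1, c u.1 + u.2) := rfl
  rw [h3, coeff_t2_iff h1 i]
  exact Filter.eventually_congr (h2.mono fun x hx => by rw [hx])

/-- If `A / B` has no analytic extension at `0`, there are coordinates near a point close to `0` in which `B` is
divisible by a higher power of the second coordinate than `A`. -/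
theorem exists_curve {A B : ℂ × ℂ → ℂ} (hA : AnalyticAt ℂ A 0) (hB : AnalyticAt ℂ B 0)
    (hB0 : ¬ ∀ᶠ u in 𝓝 (0 : ℂ × ℂ), B u = 0)
    (hne : ¬ ∃ Φ : ℂ × ℂ → ℂ, AnalyticAt ℂ Φ 0 ∧ ∀ᶠ u in 𝓝 (0 : ℂ × ℂ), A u = B u * Φ u)
    {U : Set (ℂ × ℂ)} (hU : U ∈ 𝓝 (0 : ℂ × ℂ)) :
    ∃ (m x₁ : ℂ) (c : ℂ → ℂ) (j k : ℕ), AnalyticAt ℂ c 0 ∧ shear m x₁ c 0 ∈ U ∧
      (t2 fun u => A (shear m x₁ c u)).order = j ∧ (t2 fun u => B (shear m x₁ c u)).order = k ∧
      j < k := by
  obtain ⟨m, hm⟩ := exists_direction hB hB0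
  have hτ : ∀ p : ℂ × ℂ, AnalyticAt ℂ (fun u : ℂ × ℂ => ((u.1 + m * u.2, u.2) : ℂ × ℂ)) p := fun p =>
    AnalyticAt.prod (analyticAt_fst.add (analyticAt_const.mul analyticAt_snd)) analyticAt_snd
  have hτ' : ∀ p : ℂ × ℂ, AnalyticAt ℂ (fun u : ℂ × ℂ => ((u.1 - m * u.2, u.2) : ℂ × ℂ)) p := fun p =>
    AnalyticAt.prod (analyticAt_fst.sub (analyticAt_const.mul analyticAt_snd)) analyticAt_snd
  have hA' : AnalyticAt ℂ (fun u : ℂ × ℂ => A (u.1 + m * u.2, u.2)) 0 :=
    AnalyticAt.fun_comp (f := fun u : ℂ × ℂ => ((u.1 + m * u.2, u.2) : ℂ × ℂ))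
      (by simpa [Prod.zero_eq_mk] using hA) (hτ 0)
  have hB' : AnalyticAt ℂ (fun u : ℂ × ℂ => B (u.1 + m * u.2, u.2)) 0 :=
    AnalyticAt.fun_comp (f := fun u : ℂ × ℂ => ((u.1 + m * u.2, u.2) : ℂ × ℂ))
      (by simpa [Prod.zero_eq_mk] using hB) (hτ 0)
  have hB0' : ¬ ∀ᶠ y in 𝓝 (0 : ℂ), (fun u : ℂ × ℂ => B (u.1 + m * u.2, u.2)) (0, y) = 0 := by
    intro h
    apply hm
    filter_upwards [h] with y hy
    simpa using hy
  have hne' : ¬ ∃ Φ : ℂ × ℂ → ℂ, AnalyticAt ℂ Φ 0 ∧ ∀ᶠ u in 𝓝 (0 : ℂ × ℂ),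
      (fun u : ℂ × ℂ => A (u.1 + m * u.2, u.2)) u = (fun u : ℂ × ℂ => B (u.1 + m * u.2, u.2)) u * Φ u := by
    rintro ⟨Φ, hΦ, he⟩
    apply hne
    refine ⟨fun u => Φ (u.1 - m * u.2, u.2), ?_, ?_⟩
    · exact AnalyticAt.fun_comp (f := fun u : ℂ × ℂ => ((u.1 - m * u.2, u.2) : ℂ × ℂ))
        (by simpa [Prod.zero_eq_mk] using hΦ) (hτ' 0)
    · have ht : Tendsto (fun u : ℂ × ℂ => ((u.1 - m * u.2, u.2) : ℂ × ℂ)) (𝓝 0) (𝓝 0) := by
        have h2 := (hτ' 0).continuousAt.tendsto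
        simpa [Prod.zero_eq_mk] using h2
      filter_upwards [ht.eventually he] with u hu
      simpa using hu
  have hU' : (fun u : ℂ × ℂ => ((u.1 + m * u.2, u.2) : ℂ × ℂ)) ⁻¹' U ∈ 𝓝 (0 : ℂ × ℂ) := by
    apply (hτ 0).continuousAt.preimage_mem_nhds
    simpa [Prod.zero_eq_mk] using hU
  obtain ⟨x₁, c, k, hc, hmem, hA1, hB1, hv, hnv, i, hi, hiA⟩ := exists_pole_curve hA' hB' hB0' hne' hU'
  have hcoefA := coeff_shear_iff m x₁ hc hA1
  have hcoefB := coeff_shear_iff m x₁ hc hB1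
  have hex : ∃ i, PowerSeries.coeff i (t2 fun u => A (shear m x₁ c u)) ≠ 0 :=
    ⟨i, fun h => hiA ((hcoefA i).1 h)⟩
  classical
  refine ⟨m, x₁, c, Nat.find hex, k, hc, ?_, ?_, ?_, ?_⟩
  · have h : shear m x₁ c 0 = (x₁ + m * c 0, c 0) := by
      simp [shear]
    rw [h]
    exact hmem
  · rw [PowerSeries.order_eq_nat]
    refine ⟨Nat.find_spec hex, fun l hl => ?_⟩
    have := Nat.find_min hex hl
    push Not at this
    exact this
  · rw [PowerSeries.order_eq_nat]
    refine ⟨fun h => ?_, fun l hl => (hcoefB l).2 (hv l hl)⟩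
    have h2 := ((hcoefB k).1 h).self_of_nhds
    rw [add_zero] at h2
    exact hnv h2
  · exact lt_of_le_of_lt (Nat.find_min' hex fun h => hiA ((hcoefA i).1 h)) hi

end Pool.Agent.H68.KR

end
end

section

/-!
# KR HD: Laurent series with coefficients in Laurent series, their derivations

`LL = ℂ((X))((T))`.  `emb` embeds `ℂ⟦X⟧⟦T⟧`.  `vT` is the order in `T`.  (Do not use `Algebra ℂ LL` or
`Derivation`, there are several instances; derivations are additive maps with the Leibniz rule.)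

Proofs.
* `exists_mapD` (coefficientwise `a_n ↦ δ a_n`, the support gets smaller).  Leibniz: `HahnSeries.coeff_mul_left'`,
  `HahnSeries.coeff_mul_right'` (sum over the antidiagonal of larger well-founded sets),
  `δ (∑ a_i b_j) = ∑ (δ a_i b_j + a_i δ b_j)`.
* `exists_deriv`.  First the Euler derivation `θ : a_n ↦ n a_n` in the same way (`n = i + j` on the antidiagonal),
  then `D F = single (-1) 1 * θ F` (`HahnSeries.coeff_single_mul_add`: `(single (-1) 1 * G).coeff n = G.coeff (n + 1)`).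
* `DT_emb`, `DX_emb`: compare coefficients (`HahnSeries.ofPowerSeries_apply`, `LaurentSeries.coeff_coe`,
  `PowerSeries.coeff_derivative`; indices `n < -1`: both sides `0`; `n = -1`: the factor `n + 1` is `0`).
* `vT_nonneg_iff`: `HahnSeries.addVal_apply`, `HahnSeries.orderTop`.  `vT_DT_nonneg`, `vT_DX_nonneg` follow.
* `vT_emb`: the least index with a non-zero coefficient.
-/

set_option autoImplicit false

open Topology Filter

noncomputable section

namespace Pool.Agent.H68.KR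

section

variable {R : Type} [CommRing R]

/-- The derivation of `R((T))` given by a derivation of `R`. -/
theorem exists_mapD (δ : R →+ R) (hδ : ∀ a b, δ (a * b) = a * δ b + b * δ a) :
    ∃ D : HahnSeries ℤ R →+ HahnSeries ℤ R, (∀ F n, (D F).coeff n = δ (F.coeff n)) ∧
      ∀ F G, D (F * G) = F * D G + G * D F := by
  refine ⟨{ toFun := fun F => F.map δ, map_zero' := ?_, map_add' := ?_ }, fun F n => ?_,
    fun F G => ?_⟩
  · ext n
    simp
  · intro F G
    ext n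
    simp
  · rfl
  · have hs : ∀ H : HahnSeries ℤ R, (H.map δ).support ⊆ H.support := by
      intro H n hn
      rw [HahnSeries.mem_support] at hn ⊢
      intro h0
      apply hn
      rw [HahnSeries.map_coeff, h0, map_zero]
    ext n
    have h1 : (F * G.map δ).coeff n = _ :=
      HahnSeries.coeff_mul_right' (x := F) (a := n) G.isPWO_support (hs G)
    have h2 : (F.map δ * G).coeff n = _ :=
      HahnSeries.coeff_mul_left' (y := G) (a := n) F.isPWO_support (hs F)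
    change ((F * G).map δ).coeff n = (F * G.map δ + G * F.map δ).coeff n
    rw [mul_comm G (F.map δ), HahnSeries.coeff_add, h1, h2, HahnSeries.map_coeff,
      HahnSeries.coeff_mul, map_sum, ← Finset.sum_add_distrib]
    refine Finset.sum_congr rfl fun ij _ => ?_
    rw [hδ, HahnSeries.map_coeff, HahnSeries.map_coeff, mul_comm (G.coeff ij.2)]

/-- The Euler derivation. -/
private theorem X_euler : ∃ D : HahnSeries ℤ R →+ HahnSeries ℤ R,
    (∀ F (n : ℤ), (D F).coeff n = ((n : ℤ) : R) * F.coeff n) ∧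
      ∀ F G, D (F * G) = F * D G + G * D F := by
  have hp : ∀ F : HahnSeries ℤ R, (Function.support fun n : ℤ => ((n : ℤ) : R) * F.coeff n).IsPWO := by
    intro F
    refine F.isPWO_support.mono fun n hn => ?_
    rw [HahnSeries.mem_support]
    intro h0
    apply hn
    change ((n : ℤ) : R) * F.coeff n = 0
    rw [h0, mul_zero]
  refine ⟨AddMonoidHom.mk' (fun F => HahnSeries.mk (fun n : ℤ => ((n : ℤ) : R) * F.coeff n) (hp F))
    ?_, fun F n => rfl, fun F G => ?_⟩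
  · intro F G
    ext n
    simp [mul_add]
  · set θ : HahnSeries ℤ R → HahnSeries ℤ R := fun F => ⟨fun n : ℤ => ((n : ℤ) : R) * F.coeff n, hp F⟩
      with hθ
    have hc : ∀ F n, (θ F).coeff n = ((n : ℤ) : R) * F.coeff n := fun F n => rfl
    have hs : ∀ H : HahnSeries ℤ R, (θ H).support ⊆ H.support := by
      intro H n hn
      rw [HahnSeries.mem_support] at hn ⊢
      intro h0
      apply hn
      rw [hc, h0, mul_zero]
    ext n
    have h1 : (F * θ G).coeff n = _ :=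
      HahnSeries.coeff_mul_right' (x := F) (a := n) G.isPWO_support (hs G)
    have h2 : (θ F * G).coeff n = _ :=
      HahnSeries.coeff_mul_left' (y := G) (a := n) F.isPWO_support (hs F)
    change (θ (F * G)).coeff n = (F * θ G + G * θ F).coeff n
    rw [mul_comm G (θ F), HahnSeries.coeff_add, h1, h2, hc, HahnSeries.coeff_mul, Finset.mul_sum,
      ← Finset.sum_add_distrib]
    refine Finset.sum_congr rfl fun ij hij => ?_
    have hn : ij.1 + ij.2 = n := (Finset.mem_antidiagonal.1 hij).2.2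
    rw [hc, hc, ← hn]
    push_cast
    ring

/-- The derivation `d/dT` of `R((T))`. -/
theorem exists_deriv : ∃ D : HahnSeries ℤ R →+ HahnSeries ℤ R,
    (∀ F (n : ℤ), (D F).coeff n = ((n + 1 : ℤ) : R) * F.coeff (n + 1)) ∧
      ∀ F G, D (F * G) = F * D G + G * D F := by
  obtain ⟨θ, hθ, hθm⟩ := X_euler (R := R)
  refine ⟨(AddMonoidHom.mulLeft (HahnSeries.single (-1 : ℤ) (1 : R))).comp θ, fun F n => ?_,
    fun F G => ?_⟩
  · change (HahnSeries.single (-1 : ℤ) (1 : R) * θ F).coeff n = _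
    have h := HahnSeries.coeff_single_mul_add (r := (1 : R)) (x := θ F) (a := n + 1) (b := (-1 : ℤ))
    rw [show n + 1 + (-1 : ℤ) = n by ring] at h
    rw [h, hθ, one_mul]
  · change HahnSeries.single (-1 : ℤ) (1 : R) * θ (F * G) =
      F * (HahnSeries.single (-1 : ℤ) (1 : R) * θ G) + G * (HahnSeries.single (-1 : ℤ) (1 : R) * θ F)
    rw [hθm]
    ring

end

/-- Laurent series in `X`. -/
abbrev L1 : Type := HahnSeries ℤ ℂ

/-- Laurent series in `T` whose coefficients are Laurent series in `X`. -/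
abbrev LL : Type := HahnSeries ℤ L1

/-- The embedding `ℂ⟦X⟧⟦T⟧ → ℂ((X))((T))`. -/
def emb : PowerSeries (PowerSeries ℂ) →+* LL :=
  (HahnSeries.ofPowerSeries ℤ L1).comp (PowerSeries.map (HahnSeries.ofPowerSeries ℤ ℂ))

/-- The constants. -/
def cst : ℂ →+* LL := (HahnSeries.C : L1 →+* LL).comp (HahnSeries.C : ℂ →+* L1)

/-- The first variable `X`. -/
def xx : LL := HahnSeries.C (HahnSeries.single 1 1)

/-- The order in `T`. -/
def vT : AddValuation LL (WithTop ℤ) := HahnSeries.addVal ℤ L1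

/-- The derivation `d/dT`. -/
def DT : LL →+ LL := (exists_deriv (R := L1)).choose

/-- The derivation `d/dX`. -/
def DX : LL →+ LL :=
  (exists_mapD (R := L1) (exists_deriv (R := ℂ)).choose (exists_deriv (R := ℂ)).choose_spec.2).choose

theorem DT_coeff (F : LL) (n : ℤ) : (DT F).coeff n = ((n + 1 : ℤ) : L1) * F.coeff (n + 1) :=
  (exists_deriv (R := L1)).choose_spec.1 F n

theorem DT_mul (F G : LL) : DT (F * G) = F * DT G + G * DT F :=
  (exists_deriv (R := L1)).choose_spec.2 F G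

theorem DX_coeff (F : LL) (n k : ℤ) :
    ((DX F).coeff n).coeff k = ((k + 1 : ℤ) : ℂ) * (F.coeff n).coeff (k + 1) := by
  have h1 := (exists_mapD (R := L1) (exists_deriv (R := ℂ)).choose
    (exists_deriv (R := ℂ)).choose_spec.2).choose_spec.1 F n
  have h2 := (exists_deriv (R := ℂ)).choose_spec.1 (F.coeff n) k
  rw [← h2, ← h1]
  rfl

theorem DX_mul (F G : LL) : DX (F * G) = F * DX G + G * DX F :=
  (exists_mapD (R := L1) (exists_deriv (R := ℂ)).choose
    (exists_deriv (R := ℂ)).choose_spec.2).choose_spec.2 F G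

private theorem X_coeff_of {R : Type} [CommRing R] (F : PowerSeries R) (n : ℤ) :
    (HahnSeries.ofPowerSeries ℤ R F).coeff n = if n < 0 then 0 else PowerSeries.coeff n.natAbs F :=
  PowerSeries.coeff_coe F n

private theorem X_coeff_emb (F : PowerSeries (PowerSeries ℂ)) (n : ℤ) :
    (emb F).coeff n = if n < 0 then 0 else
      HahnSeries.ofPowerSeries ℤ ℂ (PowerSeries.coeff n.natAbs F) := by
  change (HahnSeries.ofPowerSeries ℤ L1 (PowerSeries.map (HahnSeries.ofPowerSeries ℤ ℂ) F)).coeff n = _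
  rw [X_coeff_of, PowerSeries.coeff_map]

theorem emb_injective : Function.Injective emb := by
  have h1 : Function.Injective (HahnSeries.ofPowerSeries ℤ L1) := HahnSeries.ofPowerSeries_injective
  have h2 : Function.Injective (HahnSeries.ofPowerSeries ℤ ℂ) := HahnSeries.ofPowerSeries_injective
  have h3 : Function.Injective (PowerSeries.map (HahnSeries.ofPowerSeries ℤ ℂ)) := by
    intro F G h
    ext n : 1
    apply h2
    have := congrArg (PowerSeries.coeff n) h
    rwa [PowerSeries.coeff_map, PowerSeries.coeff_map] at this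
  exact h1.comp h3

theorem emb_C_C (c : ℂ) : emb (PowerSeries.C (PowerSeries.C c)) = cst c := by
  change HahnSeries.ofPowerSeries ℤ L1 (PowerSeries.map (HahnSeries.ofPowerSeries ℤ ℂ)
    (PowerSeries.C (PowerSeries.C c))) = HahnSeries.C (HahnSeries.C c)
  rw [PowerSeries.map_C, HahnSeries.ofPowerSeries_C, HahnSeries.ofPowerSeries_C]

theorem emb_C_X : emb (PowerSeries.C PowerSeries.X) = xx := by
  change HahnSeries.ofPowerSeries ℤ L1 (PowerSeries.map (HahnSeries.ofPowerSeries ℤ ℂ)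
    (PowerSeries.C PowerSeries.X)) = HahnSeries.C (HahnSeries.single 1 1)
  rw [PowerSeries.map_C, HahnSeries.ofPowerSeries_C, HahnSeries.ofPowerSeries_X]

private theorem X_coeff_cst (c : ℂ) (n : ℤ) :
    (cst c).coeff n = if n = 0 then HahnSeries.C c else 0 := by
  change (HahnSeries.single (0 : ℤ) (HahnSeries.single (0 : ℤ) c)).coeff n = _
  rw [HahnSeries.coeff_single]
  split_ifs <;> rfl

theorem DT_cst (c : ℂ) : DT (cst c) = 0 := by
  refine HahnSeries.ext (funext fun n => ?_)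
  rw [DT_coeff, X_coeff_cst, HahnSeries.coeff_zero]
  split_ifs with h
  · rw [h, Int.cast_zero, zero_mul]
  · rw [mul_zero]

theorem DX_cst (c : ℂ) : DX (cst c) = 0 := by
  refine HahnSeries.ext (funext fun n => HahnSeries.ext (funext fun k => ?_))
  rw [DX_coeff, X_coeff_cst, HahnSeries.coeff_zero, HahnSeries.coeff_zero]
  split_ifs with h
  · change _ * (HahnSeries.single (0 : ℤ) c).coeff (k + 1) = 0
    rw [HahnSeries.coeff_single]
    split_ifs with h'
    · rw [h', Int.cast_zero, zero_mul]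
    · rw [mul_zero]
  · rw [HahnSeries.coeff_zero, mul_zero]

theorem DT_emb (F : PowerSeries (PowerSeries ℂ)) :
    DT (emb F) = emb (PowerSeries.derivative (PowerSeries ℂ) F) := by
  refine HahnSeries.ext (funext fun n => ?_)
  rw [DT_coeff, X_coeff_emb, X_coeff_emb]
  rcases lt_trichotomy n (-1) with h | h | h
  · rw [if_pos (by omega), if_pos (by omega), mul_zero]
  · subst h
    rw [if_pos (by omega : (-1 : ℤ) < 0)]
    norm_num
  · obtain ⟨m, rfl⟩ := Int.eq_ofNat_of_zero_le (by omega : 0 ≤ n)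
    rw [if_neg (by omega), if_neg (by omega)]
    have e1 : ((m : ℤ) + 1).natAbs = m + 1 := by omega
    have e2 : ((m : ℤ)).natAbs = m := by omega
    rw [e1, e2, PowerSeries.coeff_derivative, map_mul, mul_comm]
    congr 1
    push_cast
    rw [map_natCast]

theorem DX_emb (F : PowerSeries (PowerSeries ℂ)) : DX (emb F) = emb (pX F) := by
  refine HahnSeries.ext (funext fun n => HahnSeries.ext (funext fun k => ?_))
  rw [DX_coeff, X_coeff_emb, X_coeff_emb]
  split_ifs with h0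
  · rw [HahnSeries.coeff_zero, HahnSeries.coeff_zero, mul_zero]
  rw [pX, PowerSeries.coeff_mk, X_coeff_of, X_coeff_of]
  rcases lt_trichotomy k (-1) with h | h | h
  · rw [if_pos (by omega), if_pos (by omega), mul_zero]
  · subst h
    rw [if_pos (by omega : (-1 : ℤ) < 0)]
    norm_num
  · obtain ⟨m, rfl⟩ := Int.eq_ofNat_of_zero_le (by omega : 0 ≤ k)
    rw [if_neg (by omega), if_neg (by omega)]
    have e1 : ((m : ℤ) + 1).natAbs = m + 1 := by omega
    have e2 : ((m : ℤ)).natAbs = m := by omega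
    rw [e1, e2, PowerSeries.coeff_derivative, mul_comm]
    push_cast
    ring

theorem vT_nonneg_iff (F : LL) : 0 ≤ vT F ↔ ∀ n : ℤ, n < 0 → F.coeff n = 0 := by
  rw [vT, HahnSeries.addVal_apply]
  constructor
  · intro h n hn
    by_contra hc
    have h1 : F.orderTop ≤ (n : WithTop ℤ) := HahnSeries.orderTop_le_of_coeff_ne_zero hc
    have h2 : (0 : WithTop ℤ) ≤ (n : WithTop ℤ) := h.trans h1
    have h3 : (0 : ℤ) ≤ n := by exact_mod_cast h2
    omega
  · intro h
    by_cases hF : F = 0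
    · subst hF
      rw [HahnSeries.orderTop_zero]
      exact le_top
    · rw [HahnSeries.orderTop_of_ne_zero hF]
      by_contra hc
      rw [not_le] at hc
      have h3 : F.isWF_support.min (HahnSeries.support_nonempty_iff.2 hF) < (0 : ℤ) := by
        exact_mod_cast hc
      exact (Set.IsWF.min_mem F.isWF_support (HahnSeries.support_nonempty_iff.2 hF)) (h _ h3)

theorem vT_DT_nonneg {F : LL} (h : 0 ≤ vT F) : 0 ≤ vT (DT F) := by
  rw [vT_nonneg_iff] at h ⊢
  intro n hn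
  rw [DT_coeff]
  rcases lt_or_eq_of_le (by omega : n + 1 ≤ 0) with h1 | h1
  · rw [h _ h1, mul_zero]
  · rw [h1, Int.cast_zero, zero_mul]

theorem vT_DX_nonneg {F : LL} (h : 0 ≤ vT F) : 0 ≤ vT (DX F) := by
  rw [vT_nonneg_iff] at h ⊢
  intro n hn
  refine HahnSeries.ext (funext fun k => ?_)
  rw [DX_coeff, h n hn, HahnSeries.coeff_zero, HahnSeries.coeff_zero, mul_zero]

theorem vT_C {a : L1} (ha : a ≠ 0) : vT (HahnSeries.C a) = 0 := by
  rw [vT, HahnSeries.addVal_apply]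
  exact HahnSeries.orderTop_single ha

theorem vT_emb {F : PowerSeries (PowerSeries ℂ)} {n : ℕ} (h : F.order = n) : vT (emb F) = (n : ℤ) := by
  rw [PowerSeries.order_eq_nat] at h
  obtain ⟨h1, h2⟩ := h
  have hinj : Function.Injective (HahnSeries.ofPowerSeries ℤ ℂ) := HahnSeries.ofPowerSeries_injective
  have hc : (emb F).coeff (n : ℤ) ≠ 0 := by
    rw [X_coeff_emb, if_neg (by omega), Int.natAbs_natCast]
    exact (map_ne_zero_iff _ hinj).2 h1
  rw [vT, HahnSeries.addVal_apply]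
  apply le_antisymm
  · exact HahnSeries.orderTop_le_of_coeff_ne_zero hc
  · have hF : emb F ≠ 0 := by
      intro h0
      apply hc
      rw [h0, HahnSeries.coeff_zero]
    rw [HahnSeries.orderTop_of_ne_zero hF]
    by_contra hlt
    rw [not_le] at hlt
    have h3 : (emb F).isWF_support.min (HahnSeries.support_nonempty_iff.2 hF) < (n : ℤ) := by
      exact_mod_cast hlt
    have h4 := Set.IsWF.min_mem (emb F).isWF_support (HahnSeries.support_nonempty_iff.2 hF)
    apply h4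
    rw [X_coeff_emb]
    split_ifs with h5
    · rfl
    · rw [h2 _ (by omega), map_zero]

end Pool.Agent.H68.KR

end
end

section

set_option autoImplicit false

open Pool.Agent.H23.Fano (Form regularForms PrimeDivisorOver)

noncomputable section

namespace Pool.Agent.H68.KR

private def PD_phi : Polynomial ℂ →+* L1 :=
  (HahnSeries.ofPowerSeries ℤ ℂ).comp Polynomial.coeToPowerSeries.ringHom

private theorem PD_phi_C (c : ℂ) : PD_phi (Polynomial.C c) = HahnSeries.C c := by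
  simp [PD_phi]

private theorem PD_phi_X : PD_phi Polynomial.X = HahnSeries.single 1 1 := by
  simp [PD_phi]

private theorem PD_phi_injective : Function.Injective PD_phi := by
  intro p q h
  have h1 := HahnSeries.ofPowerSeries_injective (Γ := ℤ) (R := ℂ) h
  exact Polynomial.coe_injective ℂ h1

private theorem PD_eval_ne (a : ℂ) (p : MvPolynomial (Fin (2 - 1)) ℂ) (hp : p ≠ 0) :
    MvPolynomial.eval₂ (HahnSeries.C : ℂ →+* L1) (fun _ => HahnSeries.C a + HahnSeries.single 1 1) p ≠ 0 := by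
  set P : Polynomial ℂ := MvPolynomial.aeval (fun _ => Polynomial.X) p with hP
  have hback : Polynomial.aeval (MvPolynomial.X (R := ℂ) (0 : Fin (2 - 1))) P = p := by
    have : (Polynomial.aeval (MvPolynomial.X (R := ℂ) (0 : Fin (2 - 1)))).comp
        (MvPolynomial.aeval (fun _ : Fin (2 - 1) => (Polynomial.X : Polynomial ℂ))) =
        AlgHom.id ℂ (MvPolynomial (Fin (2 - 1)) ℂ) := by
      apply MvPolynomial.algHom_ext
      intro i
      have hi : i = 0 := Subsingleton.elim (α := Fin 1) _ _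
      simp [hi]
    exact congrArg (fun f => f p) this
  have hP0 : P ≠ 0 := by
    intro h
    rw [h, map_zero] at hback
    exact hp hback.symm
  have hT : Polynomial.taylor a P ≠ 0 := by
    intro h
    exact hP0 (Polynomial.taylor_injective a (by rw [h, map_zero]))
  have hmain : MvPolynomial.eval₂ (HahnSeries.C : ℂ →+* L1)
      (fun _ => HahnSeries.C a + HahnSeries.single 1 1) p = PD_phi (Polynomial.taylor a P) := by
    have h1 : ∀ q : MvPolynomial (Fin (2 - 1)) ℂ, MvPolynomial.eval₂Hom (HahnSeries.C : ℂ →+* L1)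
        (fun _ => HahnSeries.C a + HahnSeries.single 1 1) q =
        (PD_phi.comp ((Polynomial.taylorAlgHom a : Polynomial ℂ →ₐ[ℂ] Polynomial ℂ).toRingHom.comp
          (MvPolynomial.aeval (fun _ : Fin (2 - 1) => (Polynomial.X : Polynomial ℂ))).toRingHom)) q := by
      intro q
      congr 1
      apply MvPolynomial.ringHom_ext
      · intro c
        simp [PD_phi_C]
      · intro i
        simp [PD_phi_C, PD_phi_X, add_comm]
    have := h1 p
    simpa [hP] using this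
  rw [hmain]
  intro h
  exact hT (PD_phi_injective (by rw [h, map_zero]))

theorem exists_primeDivisor {K : Type} [Field K] [Algebra ℂ K] (E : K →+* LL)
    (hE : ∀ c : ℂ, E (algebraMap ℂ K c) = cst c) (s : K) (a : ℂ) (hs : E s = cst a + xx)
    (hneg : ∃ f : K, vT (E f) < 0) :
    ∃ D : PrimeDivisorOver K 2, ∀ f : K, 0 ≤ D.ord f ↔ 0 ≤ vT (E f) := by
  classical
  set v : AddValuation K (WithTop ℤ) := vT.comap E with hv
  have hvE : ∀ f, v f = vT (E f) := fun f => rfl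
  -- integer values
  have hex : ∀ f : K, f ≠ 0 → ∃ n : ℤ, v f = (n : WithTop ℤ) := by
    intro f hf
    have h : v f ≠ ⊤ := by
      intro h
      exact hf (v.top_iff.mp h)
    exact ⟨(v f).untop h, (WithTop.coe_untop _ _).symm⟩
  choose! val hval using hex
  have hval_mul : ∀ f g : K, f ≠ 0 → g ≠ 0 → val (f * g) = val f + val g := by
    intro f g hf hg
    have h := v.map_mul f g
    rw [hval f hf, hval g hg, hval (f * g) (mul_ne_zero hf hg)] at h
    exact_mod_cast h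
  have hval_one : val 1 = 0 := by
    have h := v.map_one
    rw [hval 1 one_ne_zero] at h
    exact_mod_cast h
  have hval_inv : ∀ f : K, f ≠ 0 → val f⁻¹ = - val f := by
    intro f hf
    have h := hval_mul f f⁻¹ hf (inv_ne_zero hf)
    rw [mul_inv_cancel₀ hf, hval_one] at h
    omega
  have hval_pow : ∀ (f : K) (n : ℕ), f ≠ 0 → val (f ^ n) = n * val f := by
    intro f n hf
    induction n with
    | zero => simp [hval_one]
    | succ n ih =>
      rw [pow_succ, hval_mul _ _ (pow_ne_zero n hf) hf, ih]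
      push_cast
      ring
  have hval_zpow : ∀ (f : K) (n : ℤ), f ≠ 0 → val (f ^ n) = n * val f := by
    intro f n hf
    obtain ⟨m, rfl | rfl⟩ := n.eq_nat_or_neg
    · rw [zpow_natCast, hval_pow f m hf]
    · rw [zpow_neg, zpow_natCast, hval_inv _ (pow_ne_zero m hf), hval_pow f m hf]
      ring
  -- minimal positive value
  have hpos : ∃ n : ℕ, 0 < n ∧ ∃ t : K, t ≠ 0 ∧ val t = n := by
    obtain ⟨f, hf⟩ := hneg
    have hf0 : f ≠ 0 := by
      rintro rfl
      simp at hf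
    have h1 : val f < 0 := by
      have h := hval f hf0
      rw [hvE] at h
      rw [h] at hf
      exact_mod_cast hf
    refine ⟨(-val f).toNat, by omega, f⁻¹, inv_ne_zero hf0, ?_⟩
    rw [hval_inv f hf0]
    omega
  set e := Nat.find hpos with he
  obtain ⟨he0, t, ht0, htv⟩ := Nat.find_spec hpos
  rw [← he] at he0 htv
  have hmin : ∀ (n : ℕ) (f : K), 0 < n → f ≠ 0 → val f = n → e ≤ n :=
    fun n f hn hf h => Nat.find_min' hpos ⟨hn, f, hf, h⟩
  have heZ : (0 : ℤ) < e := by exact_mod_cast he0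
  have hdvd : ∀ f : K, f ≠ 0 → val f = e * (val f / e) := by
    intro f hf
    have h1 : val (f * t ^ (-(val f / e))) = val f - (val f / e) * e := by
      rw [hval_mul _ _ hf (zpow_ne_zero _ ht0), hval_zpow t _ ht0, htv]
      ring
    have h2 : val f - (val f / e) * e = val f % e := by
      have := Int.emod_add_mul_ediv (val f) e
      linarith
    have h3 : 0 ≤ val f % e := Int.emod_nonneg _ (ne_of_gt heZ)
    have h4 : val f % e < e := Int.emod_lt_of_pos _ heZ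
    rcases h3.eq_or_lt with h5 | h5
    · have := Int.emod_add_mul_ediv (val f) e
      omega
    · exfalso
      have h6 := hmin (val f % e).toNat (f * t ^ (-(val f / e))) (by omega)
        (mul_ne_zero hf (zpow_ne_zero _ ht0)) (by rw [h1, h2]; omega)
      omega
  set w : K → WithTop ℤ := fun f => if f = 0 then ⊤ else ((val f / e : ℤ) : WithTop ℤ) with hw
  have hw0 : w 0 = ⊤ := by simp [hw]
  have hwn : ∀ f : K, f ≠ 0 → w f = ((val f / e : ℤ) : WithTop ℤ) := by
    intro f hf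
    simp [hw, hf]
  let ord : AddValuation K (WithTop ℤ) := AddValuation.of w hw0
    (by rw [hwn 1 one_ne_zero, hval_one]; simp)
    (by
      intro f g
      by_cases hf : f = 0
      · subst hf
        rw [zero_add, hw0]
        simp
      by_cases hg : g = 0
      · subst hg
        rw [add_zero, hw0]
        simp
      by_cases hfg : f + g = 0
      · rw [hfg, hw0]
        exact le_top
      have h := v.map_add f g
      rw [hval f hf, hval g hg, hval (f + g) hfg] at h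
      rw [hwn f hf, hwn g hg, hwn _ hfg]
      have h' : min (val f) (val g) ≤ val (f + g) := by exact_mod_cast h
      have h1 := hdvd f hf
      have h2 := hdvd g hg
      have h3 := hdvd (f + g) hfg
      have : min (val f / e) (val g / e) ≤ val (f + g) / e := by
        rcases min_le_iff.mp h' with h4 | h4
        · exact le_trans (min_le_left _ _) (Int.ediv_le_ediv heZ h4)
        · exact le_trans (min_le_right _ _) (Int.ediv_le_ediv heZ h4)
      exact_mod_cast this)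
    (by
      intro f g
      by_cases hf : f = 0
      · subst hf
        rw [zero_mul, hw0]
        simp
      by_cases hg : g = 0
      · subst hg
        rw [mul_zero, hw0]
        simp
      rw [hwn _ (mul_ne_zero hf hg), hwn f hf, hwn g hg, hval_mul f g hf hg]
      have h1 := hdvd f hf
      have h2 : (val f + val g) / (e : ℤ) = val f / e + val g / e := by
        rw [Int.add_ediv_of_dvd_left ⟨_, h1⟩]
      rw [h2]
      push_cast
      rfl)
  have hord : ∀ f, ord f = w f := fun f => rfl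
  have hnn : ∀ f : K, 0 ≤ ord f ↔ 0 ≤ vT (E f) := by
    intro f
    rw [hord, ← hvE]
    by_cases hf : f = 0
    · subst hf
      rw [hw0, v.map_zero]
    rw [hwn f hf, hval f hf]
    have h1 := hdvd f hf
    constructor
    · intro h
      have h' : 0 ≤ val f / (e : ℤ) := by exact_mod_cast h
      have : 0 ≤ val f := by rw [h1]; positivity
      exact_mod_cast this
    · intro h
      have h' : 0 ≤ val f := by exact_mod_cast h
      have : 0 ≤ val f / (e : ℤ) := Int.ediv_nonneg h' heZ.le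
      exact_mod_cast this
  have hC : ∀ f : K, ∀ b : L1, b ≠ 0 → E f = HahnSeries.C b → ord f = 0 := by
    intro f b hb hf
    have h1 : v f = 0 := by rw [hvE, hf, vT_C hb]
    have hf0 : f ≠ 0 := by
      rintro rfl
      rw [v.map_zero] at h1
      exact WithTop.top_ne_zero h1
    rw [hord, hwn f hf0]
    rw [hval f hf0] at h1
    have h2 : val f = 0 := by exact_mod_cast h1
    rw [h2]
    simp
  refine ⟨⟨ord, ?_, ⟨t, ?_⟩, ⟨fun _ => s, ?_, ?_⟩⟩, hnn⟩
  · intro c
    rw [hnn, hE]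
    by_cases hc : c = 0
    · subst hc
      simp
    · have : vT (cst c) = 0 := vT_C (a := HahnSeries.C c) (by simpa using hc)
      rw [this]
  · rw [hord, hwn t ht0, htv, Int.ediv_self (ne_of_gt heZ)]
    rfl
  · intro i
    have : ord s = 0 := by
      apply hC s (HahnSeries.C a + HahnSeries.single 1 1)
      · have h := PD_eval_ne a (MvPolynomial.X 0) (MvPolynomial.X_ne_zero 0)
        simpa using h
      · rw [hs, map_add]
        rfl
    exact this.ge
  · intro p hp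
    apply hC _ _ (PD_eval_ne a p hp)
    clear hp
    induction p using MvPolynomial.induction_on with
    | C c => simp [hE, cst]
    | add p q hp' hq' =>
      rw [map_add, map_add, hp', hq', ← map_add, MvPolynomial.eval₂_add]
    | mul_X p i hp' =>
      rw [map_mul, map_mul, hp', MvPolynomial.aeval_X, MvPolynomial.eval₂_mul, map_mul,
        MvPolynomial.eval₂_X, hs, map_add]
      rfl

end Pool.Agent.H68.KR

end
end

section

/-!
# KR JF: the Jacobian of a rational `2`-form and its order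

Proof of `exists_jac`.  `F` is a `K`-module through `E` (inside the proof: `letI := E.toAlgebra`,
`letI : Algebra ℂ F := (E.comp (algebraMap ℂ K)).toAlgebra`, `IsScalarTower.of_algebraMap_eq`).  `δ_i = D_i ∘ E` is a
derivation `Derivation ℂ K F` (`Derivation.mk'` or by hand; `ℂ`-linear by the Leibniz rule and `hc`).  Let
`l_i = (δ_i).liftKaehlerDifferential : Ω[K⁄ℂ] →ₗ[K] F`, `l_i (d a) = D_i (E a)`.  The map
`(v, w) ↦ l_1 v * l_2 w - l_1 w * l_2 v` is alternating (as an `AlternatingMap K Ω F (Fin 2)`; e.g.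
`MultilinearMap.alternatization` or by hand, `Matrix.det` of the `2 × 2` matrix `(l_i (v j))`:
`(Matrix.detRowAlternating).compLinearMap` with `LinearMap.pi ![l_1, l_2]`, then `Matrix.det_fin_two`), lift it to
`⋀[K]^2 Ω` with `exteriorPower.alternatingMapLinearEquiv`; `J` is this map as additive homomorphism; `Form.mk c a` is
`c • ιMulti (fun i => D (a i))` (see `Pool/Agent/H23/Fano.lean`, `Form.mk`, `ExtPow.wedge`, `d`).

Proof of `pole_free`.  Let `J` be the map of `exists_jac` for `DX`, `DT` (`DX_cst`, `DT_cst`).  The element in question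
is `m = E H * (J ω) ^ M`, `ω = Form.mk W a`.
(1) For `f` with `0 ≤ vT (E f)`: `0 ≤ vT (DX (E f)), vT (DT (E f))`.
(2) If `0 ≤ vT (E f)` for all `f : K`, all factors have order `≥ 0` (`AddValuation.map_mul`, `map_sub`, `map_pow`).
(3) Otherwise let `D` be the prime divisor of `exists_primeDivisor`.  `hpole D` gives `g`, `η` with
`ω = g • η`, `0 ≤ D.ord (H * g ^ M)`.  `vT (J η) ≥ 0`: `AddSubgroup.closure_induction` (generators by (1)).
`m = E H * (E g * J η) ^ M = E (H * g ^ M) * (J η) ^ M`.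
-/

set_option autoImplicit false

open Pool.Agent.H23.Fano (Form regularForms PrimeDivisorOver)
open Pool.Agent.H17LG.Variety (PoleAtMost)

noncomputable section

namespace Pool.Agent.H68.KR

theorem exists_jac {K F : Type} [Field K] [Algebra ℂ K] [Field F] (E : K →+* F) (D₁ D₂ : F →+ F)
    (h₁ : ∀ a b, D₁ (a * b) = a * D₁ b + b * D₁ a) (h₂ : ∀ a b, D₂ (a * b) = a * D₂ b + b * D₂ a)
    (hc₁ : ∀ c : ℂ, D₁ (E (algebraMap ℂ K c)) = 0) (hc₂ : ∀ c : ℂ, D₂ (E (algebraMap ℂ K c)) = 0) :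
    ∃ J : Form K 2 →+ F, (∀ (g : K) (η : Form K 2), J (g • η) = E g * J η) ∧
      ∀ (c : K) (a : Fin 2 → K), J (Form.mk c a) =
        E c * (D₁ (E (a 0)) * D₂ (E (a 1)) - D₁ (E (a 1)) * D₂ (E (a 0))) := by
  let algKF : Algebra K F := E.toAlgebra
  let algCF : Algebra ℂ F := (E.comp (algebraMap ℂ K)).toAlgebra
  have tow : IsScalarTower ℂ K F := IsScalarTower.of_algebraMap_eq (fun _ => rfl)
  have hsmulK : ∀ (k : K) (x : F), k • x = E k * x := fun k x => rfl
  have hsmulC : ∀ (c : ℂ) (x : F), c • x = E (algebraMap ℂ K c) * x := fun c x => rfl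
  have main : ∀ D : F →+ F, (∀ a b, D (a * b) = a * D b + b * D a) →
      (∀ c : ℂ, D (E (algebraMap ℂ K c)) = 0) → ∃ l : Ω[K⁄ℂ] →ₗ[K] F,
        ∀ x : K, l (KaehlerDifferential.D ℂ K x) = D (E x) := by
    intro D h hc
    let δ : Derivation ℂ K F := Derivation.mk'
      { toFun := fun x => D (E x)
        map_add' := fun x y => by rw [map_add, map_add]
        map_smul' := fun c x => by
          rw [Algebra.smul_def, map_mul, h, hc, mul_zero, add_zero, RingHom.id_apply, hsmulC] }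
      (fun x y => by
        change D (E (x * y)) = x • D (E y) + y • D (E x)
        rw [map_mul, h, hsmulK, hsmulK])
    exact ⟨δ.liftKaehlerDifferential, fun x => δ.liftKaehlerDifferential_comp_D x⟩
  obtain ⟨l₁, hl₁⟩ := main D₁ h₁ hc₁
  obtain ⟨l₂, hl₂⟩ := main D₂ h₂ hc₂
  let A : AlternatingMap K Ω[K⁄ℂ] F (Fin 2) :=
    { toFun := fun v => l₁ (v 0) * l₂ (v 1) - l₁ (v 1) * l₂ (v 0)
      map_update_add' := by
        intro _ v i x y
        fin_cases i
        · simp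
          ring
        · simp
          ring
      map_update_smul' := by
        intro _ v i c x
        fin_cases i
        · simp [hsmulK]
          ring
        · simp [hsmulK]
          ring
      map_eq_zero_of_eq' := by
        intro v i j hij hne
        fin_cases i <;> fin_cases j
        · exact absurd rfl hne
        · have h : v 0 = v 1 := hij
          simp only [h]
          ring
        · have h : v 1 = v 0 := hij
          simp only [h]
          ring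
        · exact absurd rfl hne }
  let J₀ : (⋀[K]^2 Ω[K⁄ℂ]) →ₗ[K] F := exteriorPower.alternatingMapLinearEquiv A
  have hJ₀ : ∀ v : Fin 2 → Ω[K⁄ℂ], J₀ (exteriorPower.ιMulti K 2 v) =
      l₁ (v 0) * l₂ (v 1) - l₁ (v 1) * l₂ (v 0) := fun v =>
    exteriorPower.alternatingMapLinearEquiv_apply_ιMulti A v
  let J : Form K 2 →+ F := J₀.toAddMonoidHom
  have hJs : ∀ (g : K) (η : Form K 2), J (g • η) = E g * J η := fun g η => J₀.map_smul g η
  refine ⟨J, hJs, fun c a => ?_⟩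
  have h1 : J (Form.mk c a) = E c * J₀ (exteriorPower.ιMulti K 2 fun i => KaehlerDifferential.D ℂ K (a i)) :=
    J₀.map_smul c _
  rw [h1, hJ₀, hl₁, hl₁, hl₂, hl₂]

private theorem JF_mul {x y : LL} (hx : 0 ≤ vT x) (hy : 0 ≤ vT y) : 0 ≤ vT (x * y) := by
  rw [AddValuation.map_mul]
  exact add_nonneg hx hy

private theorem JF_add {x y : LL} (hx : 0 ≤ vT x) (hy : 0 ≤ vT y) : 0 ≤ vT (x + y) :=
  (le_min hx hy).trans (vT.map_add x y)

private theorem JF_neg {x : LL} (hx : 0 ≤ vT x) : 0 ≤ vT (-x) := by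
  rw [AddValuation.map_neg]
  exact hx

private theorem JF_sub {x y : LL} (hx : 0 ≤ vT x) (hy : 0 ≤ vT y) : 0 ≤ vT (x - y) := by
  have h : x - y = x + -y := sub_eq_add_neg x y
  rw [h]
  exact JF_add hx (JF_neg hy)

private theorem JF_pow {x : LL} (hx : 0 ≤ vT x) (n : ℕ) : 0 ≤ vT (x ^ n) := by
  rw [AddValuation.map_pow]
  exact nsmul_nonneg hx n

private theorem JF_zero : 0 ≤ vT (0 : LL) := by
  rw [AddValuation.map_zero]
  exact le_top

private theorem JF_jac {x y : LL} (hx : 0 ≤ vT x) (hy : 0 ≤ vT y) :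
    0 ≤ vT (DX x * DT y - DX y * DT x) :=
  JF_sub (JF_mul (vT_DX_nonneg hx) (vT_DT_nonneg hy)) (JF_mul (vT_DX_nonneg hy) (vT_DT_nonneg hx))

theorem pole_free {K : Type} [Field K] [Algebra ℂ K] (E : K →+* LL)
    (hE : ∀ c : ℂ, E (algebraMap ℂ K c) = cst c) (s : K) (b : ℂ) (hs : E s = cst b + xx)
    (M : ℕ) (H W : K) (a : Fin 2 → K)
    (hpole : ∀ D : PrimeDivisorOver K 2, PoleAtMost 0 D M H (Form.mk W a)) :
    0 ≤ vT (E H * (E W * (DX (E (a 0)) * DT (E (a 1)) - DX (E (a 1)) * DT (E (a 0)))) ^ M) := by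
  by_cases hall : ∀ f : K, 0 ≤ vT (E f)
  · exact JF_mul (hall H) (JF_pow (JF_mul (hall W) (JF_jac (hall (a 0)) (hall (a 1)))) M)
  · push Not at hall
    obtain ⟨D, hD⟩ := exists_primeDivisor E hE s b hs hall
    have hX : ∀ c : ℂ, DX (E (algebraMap ℂ K c)) = 0 := fun c => by rw [hE]; exact DX_cst c
    have hT : ∀ c : ℂ, DT (E (algebraMap ℂ K c)) = 0 := fun c => by rw [hE]; exact DT_cst c
    obtain ⟨J, hJs, hJm⟩ := exists_jac (F := LL) E DX DT (fun a b => DX_mul a b)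
      (fun a b => DT_mul a b) hX hT
    obtain ⟨g, η, hη, hω, hord⟩ := hpole D
    have hord' : 0 ≤ D.ord (H * g ^ M) := by
      simpa using hord
    have h1 : 0 ≤ vT (E (H * g ^ M)) := (hD _).1 hord'
    have hgen : ∀ ξ : Form K 2, ξ ∈ regularForms 2 D.localRing → 0 ≤ vT (J ξ) := by
      intro ξ hξ
      unfold regularForms at hξ
      induction hξ using AddSubgroup.closure_induction with
      | mem x hx =>
        obtain ⟨c, b', hc, hb', rfl⟩ := hx
        rw [hJm]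
        exact JF_mul ((hD c).1 hc) (JF_jac ((hD _).1 (hb' 0)) ((hD _).1 (hb' 1)))
      | zero => rw [map_zero]; exact JF_zero
      | add x y _ _ hx hy => rw [map_add]; exact JF_add hx hy
      | neg x _ hx => rw [map_neg]; exact JF_neg hx
    have h2 : 0 ≤ vT (J η) := hgen η hη
    rw [← hJm, hω, hJs]
    have h3 : E H * (E g * J η) ^ M = E (H * g ^ M) * J η ^ M := by
      rw [map_mul, map_pow]
      ring
    rw [h3]
    exact JF_mul h1 (JF_pow h2 M)

end Pool.Agent.H68.KR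

end
end
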