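import Pool.Agent.H18.GGT.M25
import Pool.Agent.H18.GGT.M39
import Pool.Agent.H18.GGT.M50
import Pool.Agent.H18.GGT.M55
import Pool.Agent.H18.GGT.M79

/-! The parts of this file: H68.KR.EM, H68.KR.EXT, H68.KR.Main, GQ.Up. -/

section

/-!
# KR EM: the embedding of the function field given by an analytic map into the cone

Proof of `exists_embedding`.  Let `y i = emb (t2 (φ · i))`.  For every polynomial `Q`:
`eval₂ cst y Q = emb (t2 (fun u => eval (φ u) Q))` (`t2_eval`, `MvPolynomial.hom_eval₂`,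
`emb.comp (C.comp C) = cst` by `emb_C_C`).  So for homogeneous `Q`: `eval₂ cst y Q = 0 ↔ Q ∈ P` by `hmem`, `hnd`
(`emb_injective`, `t2_eq_zero_iff`, `analyticAt_eval`).  `exists_eval` gives `E` with `E (ratio i j) = y i / y j`.
Third statement: choose `l` with `X l ∉ P` (`exists_point`: some `x i ≠ 0`), then `y l ≠ 0`, and use `eval_hom_rep`.
Fourth statement: `y (s 0) ≠ 0`.  For an additive map `D` of the field `LL` with the Leibniz rule:
`D (a / b) = (D a * b - a * D b) / b ^ 2` for `b ≠ 0` (from `a = (a / b) * b`).  So the left hand side is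
`(1 / y₀^4) ((DX y₁ y₀ - y₁ DX y₀) (DT y₂ y₀ - y₂ DT y₀) - (DX y₂ y₀ - y₂ DX y₀) (DT y₁ y₀ - y₁ DT y₀))
  = D3 s y (DX ∘ y) (DT ∘ y) / y₀ ^ 3` (`field_simp; ring`),
and `DX (y i) = emb (pX (t2 (φ · i))) = emb (t2 (dx (φ · i))) = emb (t2 (d1 φ · i))` (`DX_emb`, `t2_dx`, `d1_apply`,
`t2_congr`), similarly `DT`; finally `D3 s y … = emb (t2 (D3 s φ (d1 φ) (d2 φ)))` by `t2_mul`, `t2_add` (and the
consequence `t2_sub`, e.g. from `t2_add`, `t2_mul`, `t2_const (-1)`).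
-/

set_option autoImplicit false

open MvPolynomial Topology Filter
open Pool.Agent.H17LG.Variety (FunField ratio)

noncomputable section

namespace Pool.Agent.H68.KR

private theorem EM_div {F : Type} [Field F] {D : F → F} (hD : ∀ a b, D (a * b) = a * D b + b * D a) (a b : F)
    (hb : b ≠ 0) : D (a / b) = (D a * b - a * D b) / b ^ 2 := by
  have h1 : D a = D (a / b * b) := by rw [div_mul_cancel₀ a hb]
  rw [hD] at h1
  rw [h1, eq_div_iff (pow_ne_zero 2 hb)]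
  field_simp
  ring

private theorem EM_jac {F : Type} [Field F] {D D' : F → F} (hD : ∀ a b, D (a * b) = a * D b + b * D a)
    (hD' : ∀ a b, D' (a * b) = a * D' b + b * D' a) (a b c : F) (ha : a ≠ 0) :
    D (b / a) * D' (c / a) - D (c / a) * D' (b / a) =
      (a * (D b * D' c - D c * D' b) - b * (D a * D' c - D c * D' a) + c * (D a * D' b - D b * D' a)) /
        a ^ 3 := by
  rw [EM_div hD _ _ ha, EM_div hD _ _ ha, EM_div hD' _ _ ha, EM_div hD' _ _ ha]
  field_simp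
  ring

private theorem EM_sub {f g : ℂ × ℂ → ℂ} (hf : AnalyticAt ℂ f 0) (hg : AnalyticAt ℂ g 0) :
    t2 (fun u => f u - g u) = t2 f - t2 g := by
  have h1 : t2 (fun u => (-1 : ℂ) * g u) = - t2 g := by
    rw [t2_mul analyticAt_const hg, t2_const]
    simp
  have h2 := t2_add hf (g := fun u => (-1 : ℂ) * g u) (analyticAt_const.mul hg)
  rw [h1] at h2
  rw [sub_eq_add_neg, ← h2]
  congr 1
  funext u
  ring

private theorem EM_comp {n : ℕ} {ψ : ℂ × ℂ → Fin n → ℂ} (h : AnalyticAt ℂ ψ 0) (i : Fin n) :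
    AnalyticAt ℂ (fun u => ψ u i) 0 :=
  (analyticAt_pi_iff.1 h) i

private theorem EM_DX {n : ℕ} {φ : ℂ × ℂ → Fin (n + 1) → ℂ} (hφ : AnalyticAt ℂ φ 0) (i : Fin (n + 1)) :
    DX (emb (t2 fun u => φ u i)) = emb (t2 fun u => d1 φ u i) := by
  rw [DX_emb, t2_dx (EM_comp hφ i)]
  congr 1
  refine t2_congr ?_
  filter_upwards [hφ.eventually_analyticAt] with u hu
  exact (d1_apply hu i).symm

private theorem EM_DT {n : ℕ} {φ : ℂ × ℂ → Fin (n + 1) → ℂ} (hφ : AnalyticAt ℂ φ 0) (i : Fin (n + 1)) :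
    DT (emb (t2 fun u => φ u i)) = emb (t2 fun u => d2 φ u i) := by
  rw [DT_emb, t2_dy (EM_comp hφ i)]
  congr 1
  refine t2_congr ?_
  filter_upwards [hφ.eventually_analyticAt] with u hu
  exact (d2_apply hu i).symm

private theorem EM_D3 {n : ℕ} {φ ψ χ : ℂ × ℂ → Fin (n + 1) → ℂ} (hφ : AnalyticAt ℂ φ 0)
    (hψ : AnalyticAt ℂ ψ 0) (hχ : AnalyticAt ℂ χ 0) (s : Fin 3 → Fin (n + 1)) :
    emb (t2 fun u => D3 s (φ u) (ψ u) (χ u)) =
      D3 s (fun i => emb (t2 fun u => φ u i)) (fun i => emb (t2 fun u => ψ u i))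
        (fun i => emb (t2 fun u => χ u i)) := by
  have hm : ∀ i j, AnalyticAt ℂ (fun u => ψ u i * χ u j) 0 := fun i j =>
    (EM_comp hψ i).mul (EM_comp hχ j)
  have hd : ∀ i j, AnalyticAt ℂ (fun u => ψ u i * χ u j - ψ u j * χ u i) 0 := fun i j =>
    (hm i j).sub (hm j i)
  have ht : ∀ k i j, AnalyticAt ℂ (fun u => φ u k * (ψ u i * χ u j - ψ u j * χ u i)) 0 := fun k i j =>
    (EM_comp hφ k).mul (hd i j)
  have h1 : ∀ i j, emb (t2 fun u => ψ u i * χ u j - ψ u j * χ u i) =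
      emb (t2 fun u => ψ u i) * emb (t2 fun u => χ u j) -
        emb (t2 fun u => ψ u j) * emb (t2 fun u => χ u i) := by
    intro i j
    rw [EM_sub (hm i j) (hm j i), t2_mul (EM_comp hψ i) (EM_comp hχ j),
      t2_mul (EM_comp hψ j) (EM_comp hχ i), map_sub, map_mul, map_mul]
  have h2 : ∀ k i j, emb (t2 fun u => φ u k * (ψ u i * χ u j - ψ u j * χ u i)) =
      emb (t2 fun u => φ u k) * (emb (t2 fun u => ψ u i) * emb (t2 fun u => χ u j) -
        emb (t2 fun u => ψ u j) * emb (t2 fun u => χ u i)) := by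
    intro k i j
    rw [t2_mul (EM_comp hφ k) (hd i j), map_mul, h1]
  have h3 : (fun u => D3 s (φ u) (ψ u) (χ u)) = fun u =>
      (φ u (s 0) * (ψ u (s 1) * χ u (s 2) - ψ u (s 2) * χ u (s 1)) -
        φ u (s 1) * (ψ u (s 0) * χ u (s 2) - ψ u (s 2) * χ u (s 0))) +
      φ u (s 2) * (ψ u (s 0) * χ u (s 1) - ψ u (s 1) * χ u (s 0)) := rfl
  have h4 : t2 (fun u => D3 s (φ u) (ψ u) (χ u)) =
      t2 (fun u => φ u (s 0) * (ψ u (s 1) * χ u (s 2) - ψ u (s 2) * χ u (s 1))) -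
        t2 (fun u => φ u (s 1) * (ψ u (s 0) * χ u (s 2) - ψ u (s 2) * χ u (s 0))) +
      t2 (fun u => φ u (s 2) * (ψ u (s 0) * χ u (s 1) - ψ u (s 1) * χ u (s 0))) := by
    rw [h3, ← EM_sub (ht (s 0) (s 1) (s 2)) (ht (s 1) (s 0) (s 2))]
    exact t2_add ((ht (s 0) (s 1) (s 2)).sub (ht (s 1) (s 0) (s 2))) (ht (s 2) (s 0) (s 1))
  rw [h4, map_add, map_sub, h2, h2, h2]
  rfl

theorem exists_embedding {N : ℕ} (P : Ideal (MvPolynomial (Fin (N + 1)) ℂ)) [P.IsPrime] {k : ℕ}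
    (z : Fin (k + 1) → FunField P) (hz : IsTranscendenceBasis ℂ z) {φ : ℂ × ℂ → Fin (N + 1) → ℂ}
    (hφ : AnalyticAt ℂ φ 0) (hmem : ∀ᶠ u in 𝓝 (0 : ℂ × ℂ), ∀ Q ∈ P, eval (φ u) Q = 0)
    (hnd : ∀ (d : ℕ) (Q : MvPolynomial (Fin (N + 1)) ℂ), Q.IsHomogeneous d → Q ∉ P →
      ¬ ∀ᶠ u in 𝓝 (0 : ℂ × ℂ), eval (φ u) Q = 0) :
    ∃ E : FunField P →+* LL, (∀ c : ℂ, E (algebraMap ℂ (FunField P) c) = cst c) ∧
      (∀ i j, E (ratio P i j) = emb (t2 fun u => φ u i) / emb (t2 fun u => φ u j)) ∧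
      (∀ (d : ℕ) (A B : MvPolynomial (Fin (N + 1)) ℂ) (f : FunField P), A.IsHomogeneous d →
        B.IsHomogeneous d →
        (∀ l, X l ∉ P → f * aeval (fun i => ratio P i l) B = aeval (fun i => ratio P i l) A) →
        E f * emb (t2 fun u => eval (φ u) B) = emb (t2 fun u => eval (φ u) A)) ∧
      ∀ s : Fin 3 → Fin (N + 1), X (s 0) ∉ P →
        DX (E (ratio P (s 1) (s 0))) * DT (E (ratio P (s 2) (s 0))) -
            DX (E (ratio P (s 2) (s 0))) * DT (E (ratio P (s 1) (s 0))) =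
          emb (t2 fun u => D3 s (φ u) (d1 φ u) (d2 φ u)) / emb (t2 fun u => φ u (s 0)) ^ 3 := by
  classical
  set y : Fin (N + 1) → LL := fun i => emb (t2 fun u => φ u i) with hy0
  have key : ∀ Q : MvPolynomial (Fin (N + 1)) ℂ,
      eval₂ cst y Q = emb (t2 fun u => eval (φ u) Q) := by
    intro Q
    have h1 := MvPolynomial.hom_eval₂ (S₂ := LL) Q ((PowerSeries.C : PowerSeries ℂ →+* PowerSeries (PowerSeries ℂ)).comp
        (PowerSeries.C : ℂ →+* PowerSeries ℂ)) emb (fun i => t2 (fun u => φ u i))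
    have h2 : emb.comp ((PowerSeries.C : PowerSeries ℂ →+* PowerSeries (PowerSeries ℂ)).comp
        (PowerSeries.C : ℂ →+* PowerSeries ℂ)) = cst := RingHom.ext fun c => (emb_C_C c)
    rw [h2] at h1
    rw [t2_eval hφ Q]
    exact h1.symm
  have hy : ∀ (d : ℕ) (Q : MvPolynomial (Fin (N + 1)) ℂ), Q.IsHomogeneous d →
      (eval₂ cst y Q = 0 ↔ Q ∈ P) := by
    intro d Q hQ
    rw [key, map_eq_zero_iff emb emb_injective, t2_eq_zero_iff (analyticAt_eval hφ Q)]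
    constructor
    · intro h
      by_contra hc
      exact hnd d Q hQ hc h
    · intro h
      exact hmem.mono fun u hu => hu Q h
  have hyl : ∀ l, X l ∉ P → y l ≠ 0 := by
    intro l hl h0
    apply hl
    rw [← hy 1 (X l) (isHomogeneous_X ℂ l), eval₂_X, h0]
  obtain ⟨l, hl⟩ : ∃ l, X l ∉ P := by
    obtain ⟨x, hx0, -, -, -, hx, -⟩ := exists_point P z hz
    by_contra hc
    push Not at hc
    apply hx0
    funext i
    exact (hx i).2 ((coordFun_eq_zero_iff P i).2 (hc i))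
  obtain ⟨E, hE, hr⟩ := exists_eval P z hz cst y hy
  refine ⟨E, hE, hr, ?_, ?_⟩
  · intro d A B f hA hB hf
    have h1 := eval_hom_rep (F := LL) P cst y E hE hr (hyl l hl) hA hB (hf l hl)
    rw [key, key] at h1
    exact h1
  · intro s hs
    have h0 : y (s 0) ≠ 0 := hyl _ hs
    have hd1 : AnalyticAt ℂ (d1 φ) 0 := analyticAt_d1 hφ
    have hd2 : AnalyticAt ℂ (d2 φ) 0 := analyticAt_d2 hφ
    have hx : ∀ i, emb (t2 fun u => d1 φ u i) = DX (y i) := fun i => (EM_DX hφ i).symm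
    have ht : ∀ i, emb (t2 fun u => d2 φ u i) = DT (y i) := fun i => (EM_DT hφ i).symm
    rw [EM_D3 hφ hd1 hd2 s, hr (s 1) (s 0), hr (s 2) (s 0)]
    have h1 := EM_jac (F := LL) (D := DX) (D' := DT) DX_mul DT_mul (y (s 0)) (y (s 1)) (y (s 2)) h0
    rw [← hx, ← hx, ← hx, ← ht, ← ht, ← ht] at h1
    exact h1

end Pool.Agent.H68.KR

end
end

section

/-!
# KR EXT: the canonical form extends to all charts

Proof of `exists_ext`.  Let `A' u = eval (σ u) A * D3 t₀ (σ u) (d1 σ u) (d2 σ u) ^ M`, `B' u = eval (σ u) (B * X (t₀ 0) ^ (3 M + 1))`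
(analytic at `0`; `B'` is not `0` near `0`, `nd`).  Assume that there is no extension.  Let `U` be the set of the `p` such that
`σ` is analytic at `p`, near `p` the conditions `mem, c0, c1, c2` hold, and `nd_near` at `p`.  `exists_curve` gives
`m, x₁, c, j < k`; let `θ = shear m x₁ c`, `ψ = σ ∘ θ`.  `θ` is analytic at `0`, and has the continuous inverse
`η v = (v.1 - m v.2 - x₁, v.2 - c (v.1 - m v.2 - x₁))` near `θ 0` (`θ (η v) = v`, `η (θ 0) = 0`); so
`eval (ψ u) Q = 0` near `0` implies `eval (σ v) Q = 0` near `θ 0`: `ψ` satisfies the hypotheses of `exists_embedding`.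
Let `E` be the embedding, `y i = emb (t2 (ψ · i))`, `l = t 0`, `x = σ 0`.  `y l = cst (x l)`,
`y (t 1) = cst (x (t 1)) + cst (x l) * emb (t2 θ₁)`, `y (t 2) = …`; with
`s = ratio (t 1) l - m * ratio (t 2) l`: `E s = cst b + xx` because `θ₁ - m θ₂ = x₁ + u.1`.
`X l ∉ P` because `x l ≠ 0` and `x` is in the zero set.
`pole_free` with `H * ratio P l o`: `0 ≤ vT (E (H * ratio P l o) * (E W * J) ^ M)`, where
`J = emb (t2 (D3 t₀ ψ (d1 ψ) (d2 ψ))) / y (t₀ 0) ^ 3`.
Put `F = H * ratio P (t₀ 0) o * W ^ M`: `E F * emb (t2 (eval ψ B)) = emb (t2 (eval ψ A))`.  In `LL` (a field; `y o`,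
`y (t₀ 0)`, `y l`, `emb (t2 (eval ψ B))` are not `0`, the forms `X o`, … are not in `P`):
`E (H * ratio P l o) * (E W) ^ M = E F * (y l / y (t₀ 0))`, so
`E (H * ratio P l o) * (E W * J) ^ M * emb (t2 (eval ψ B)) * y (t₀ 0) ^ (3 M + 1) = y l * emb (t2 (eval ψ A)) * emb (t2 (D3 …)) ^ M`.
`D3 t₀ (ψ …) = jac θ * D3 t₀ (σ …) ∘ θ` (`D3_comp` with `c = 1`) and `jac θ = 1` near `0`.  So the right side is
`y l * emb (t2 (A' ∘ θ))` and `emb (t2 (eval ψ B)) * y (t₀ 0) ^ (3 M + 1) = emb (t2 (B' ∘ θ))`.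
Orders: `vT (y l) = 0`, `vT (emb (t2 (A' ∘ θ))) = j`, `vT (emb (t2 (B' ∘ θ))) = k`: `k ≤ 0 + j`, against `j < k`.

Proof of `exists_jacobian`.  `ratio (t₀ 1) (t₀ 0), ratio (t₀ 2) (t₀ 0)`: by `exists_form_mk` for the transcendence basis
`ratio (t 1) (t 0), ratio (t 2) (t 0)`: `Form.mk 1 ![ratio (t₀ 1) (t₀ 0), ratio (t₀ 2) (t₀ 0)] = Form.mk f ![ratio (t 1) (t 0), …]`.
Let `A, B` be the representation of `f` (`exists_hom_rep`).  For a chart `σ` at `x` with the triple `t`: the embedding `E` of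
`φ = σ` and the Jacobian functional (`exists_jac` with `DX`, `DT`) give
`emb (t2 D3 t₀) / y (t₀ 0) ^ 3 = E f * emb (t2 D3 t) / y (t 0) ^ 3`, and `D3 t = x (t 0) ^ 3`, `y (t 0) = cst (x (t 0))`.  So
`emb (t2 (D3 t₀ …)) * emb (t2 (eval σ B)) = y (t₀ 0) ^ 3 * emb (t2 (eval σ A))`; `emb`, `t2` are injective: the functions
`D3 t₀ (…) * eval (σ u) B` and `(σ u (t₀ 0)) ^ 3 * eval (σ u) A` agree near `0`; take `u = 0`.
`f ≠ 0`: `Form.mk 1 ![…] ≠ 0` because the family `ratio (t₀ 1) (t₀ 0), …` is a transcendence basis (its image under the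
Jacobian functional is `emb (t2 D3 t₀) / … ≠ 0` for a chart with the triple `t₀`; or: if `Form.mk 1 ![…] = 0` then
`exists_form_mk` gives that all forms are `0`, but `Form.mk 1` of the basis `t` is not `0` as `D3 t = x (t 0) ^ 3 ≠ 0`).
So `A ∉ P` (last but one clause of `exists_hom_rep`; this uses the existence of a chart, therefore `A ∉ P` is inside).

Proof of `CChart.isTranscendenceBasis`.  `X (t 0) ∉ P` because `x` is a zero of `P` with `x (t 0) ≠ 0`.  Let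
`p : MvPolynomial (Fin 2) ℂ` with `aeval ![ratio (t 1) (t 0), ratio (t 2) (t 0)] p = 0` and
`G = aeval ![X (t 1), X (t 2)] p`, so `aeval (ratio · (t 0)) G = 0`.  By `eval_eq_zero_of_relation` at the points `σ u`
(`σ u (t 0) = x (t 0) ≠ 0`) and `c0, c1, c2`: `eval ![x (t 1) / x (t 0) + u.1, x (t 2) / x (t 0) + u.2] p = 0` for `u` near `0`,
so `p = 0` (`MvPolynomial.funext_set` on a product of two small discs).  So the family is algebraically independent, and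
it has as many elements as the transcendence basis `z` (`AlgebraicIndependent.isTranscendenceBasis_of_…`, `Algebra.trdeg`
finite, `IsTranscendenceBasis.lift_cardinalMk_eq_trdeg`).
-/

set_option autoImplicit false

open MvPolynomial Topology Filter
open Pool.Agent.H23.Fano (Form regularForms PrimeDivisorOver)
open Pool.Agent.H17LG.Variety (FunField ratio PoleAtMost)

noncomputable section

namespace Pool.Agent.H68.KR

variable {N : ℕ} (P : Ideal (MvPolynomial (Fin (N + 1)) ℂ)) [P.IsPrime]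

private theorem EXT_an_snd {c : ℂ → ℂ} (hc : AnalyticAt ℂ c 0) :
    AnalyticAt ℂ (fun u : ℂ × ℂ => c u.1 + u.2) 0 := by
  have h1 : AnalyticAt ℂ (fun u : ℂ × ℂ => u.1) 0 := analyticAt_fst
  have h2 : AnalyticAt ℂ (fun u : ℂ × ℂ => c u.1) 0 :=
    AnalyticAt.fun_comp (g := c) (f := fun u : ℂ × ℂ => u.1) hc h1
  exact h2.add analyticAt_snd

private theorem EXT_an_shear {m x₁ : ℂ} {c : ℂ → ℂ} (hc : AnalyticAt ℂ c 0) :
    AnalyticAt ℂ (shear m x₁ c) 0 := by
  have h2 := EXT_an_snd hc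
  have h1 : AnalyticAt ℂ (fun u : ℂ × ℂ => x₁ + u.1 + m * (c u.1 + u.2)) 0 :=
    (analyticAt_const.add analyticAt_fst).add (analyticAt_const.mul h2)
  exact h1.prod h2

private theorem EXT_jac_shear {m x₁ : ℂ} {c : ℂ → ℂ} {u : ℂ × ℂ}
    (hc : DifferentiableAt ℂ c u.1) : jac (shear m x₁ c) u = 1 := by
  have h2 : HasFDerivAt (fun v : ℂ × ℂ => c v.1 + v.2)
      (deriv c u.1 • ContinuousLinearMap.fst ℂ ℂ ℂ + ContinuousLinearMap.snd ℂ ℂ ℂ) u := by
    exact (hc.hasDerivAt.comp_hasFDerivAt u hasFDerivAt_fst).add hasFDerivAt_snd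
  have h1 : HasFDerivAt (fun v : ℂ × ℂ => x₁ + v.1 + m * (c v.1 + v.2))
      (ContinuousLinearMap.fst ℂ ℂ ℂ + m • (deriv c u.1 • ContinuousLinearMap.fst ℂ ℂ ℂ +
        ContinuousLinearMap.snd ℂ ℂ ℂ)) u := by
    exact (hasFDerivAt_fst.const_add x₁).add (h2.const_mul m)
  simp only [jac, shear, dx, dy]
  rw [h1.fderiv, h2.fderiv]
  simp

/-- Non-degeneracy is preserved by the shear. -/
private theorem EXT_nd {m x₁ : ℂ} {c : ℂ → ℂ} (hc : AnalyticAt ℂ c 0) {g : ℂ × ℂ → ℂ}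
    (hg : ∀ᶠ u in 𝓝 (0 : ℂ × ℂ), g (shear m x₁ c u) = 0) :
    ∀ᶠ v in 𝓝 (shear m x₁ c 0), g v = 0 := by
  have h0 : (shear m x₁ c 0).1 - m * (shear m x₁ c 0).2 - x₁ = 0 := by
    simp only [shear, Prod.fst_zero, Prod.snd_zero]
    ring
  have hcont : ContinuousAt (fun v : ℂ × ℂ => ((v.1 - m * v.2 - x₁, v.2 - c (v.1 - m * v.2 - x₁)) : ℂ × ℂ))
      (shear m x₁ c 0) := by
    have ha : ContinuousAt (fun v : ℂ × ℂ => v.1 - m * v.2 - x₁) (shear m x₁ c 0) := by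
      fun_prop
    have hb : ContinuousAt (fun v : ℂ × ℂ => c (v.1 - m * v.2 - x₁)) (shear m x₁ c 0) :=
      ContinuousAt.comp' (f := fun v : ℂ × ℂ => v.1 - m * v.2 - x₁) (g := c)
        (by rw [h0]; exact hc.continuousAt) ha
    exact ha.prodMk (continuousAt_snd.sub hb)
  have heta : ((fun v : ℂ × ℂ => ((v.1 - m * v.2 - x₁, v.2 - c (v.1 - m * v.2 - x₁)) : ℂ × ℂ))
      (shear m x₁ c 0)) = 0 := by
    simp only [h0]
    simp [shear]
  have h1 : ∀ᶠ v in 𝓝 (shear m x₁ c 0), g (shear m x₁ c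
      ((fun v : ℂ × ℂ => ((v.1 - m * v.2 - x₁, v.2 - c (v.1 - m * v.2 - x₁)) : ℂ × ℂ)) v)) = 0 := by
    have h3 := hcont.tendsto
    have h4 : (((shear m x₁ c 0).1 - m * (shear m x₁ c 0).2 - x₁,
        (shear m x₁ c 0).2 - c ((shear m x₁ c 0).1 - m * (shear m x₁ c 0).2 - x₁)) : ℂ × ℂ) = 0 := heta
    rw [h4] at h3
    exact h3.eventually hg
  refine h1.mono fun v hv => ?_
  have h2 : shear m x₁ c (v.1 - m * v.2 - x₁, v.2 - c (v.1 - m * v.2 - x₁)) = v := by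
    simp only [shear]
    ext
    · simp only
      ring
    · simp only
      ring
  simpa only [h2] using hv

private theorem EXT_alg {F : Type} [Field F] (EH EW e1 e2 y0 yo yl : F) (h0 : y0 ≠ 0)
    (ho : yo ≠ 0) (M : ℕ) :
    EH * (yl / yo) * (EW * (e1 / y0 ^ 3)) ^ M * (e2 * y0 ^ (3 * M + 1)) =
      yl * (EH * (y0 / yo) * EW ^ M * e2 * e1 ^ M) := by
  have h1 : (y0 ^ 3) ^ M ≠ 0 := pow_ne_zero _ (pow_ne_zero _ h0)
  have h2 : y0 ^ (3 * M + 1) = (y0 ^ 3) ^ M * y0 := by rw [pow_succ, pow_mul]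
  rw [mul_pow, div_pow, h2]
  field_simp

theorem exists_ext {k : ℕ} (z : Fin (k + 1) → FunField P) (hz : IsTranscendenceBasis ℂ z)
    {t₀ : Fin 3 → Fin (N + 1)} (ht₀ : X (t₀ 0) ∉ P) {o : Fin (N + 1)} (ho : X o ∉ P) {M : ℕ}
    {H W : FunField P}
    (hpole : ∀ l, X l ∉ P → ∀ D : PrimeDivisorOver (FunField P) 2, PoleAtMost 0 D M (H * ratio P l o)
      (Form.mk W ![ratio P (t₀ 1) (t₀ 0), ratio P (t₀ 2) (t₀ 0)]))
    {d : ℕ} {A B : MvPolynomial (Fin (N + 1)) ℂ} (hA : A.IsHomogeneous d) (hB : B.IsHomogeneous d)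
    (hBP : B ∉ P)
    (hrep : ∀ l, X l ∉ P → (H * ratio P (t₀ 0) o * W ^ M) * aeval (fun i => ratio P i l) B =
      aeval (fun i => ratio P i l) A)
    {x : Fin (N + 1) → ℂ} {t : Fin 3 → Fin (N + 1)} {σ : ℂ × ℂ → Fin (N + 1) → ℂ}
    (h : CChart P x t σ) : ∃ Φ, Ext M t₀ A (B * X (t₀ 0) ^ (3 * M + 1)) σ Φ 0 := by
  classical
  by_contra hne
  have hBX : (B * X (t₀ 0) ^ (3 * M + 1)).IsHomogeneous (d + (3 * M + 1)) :=
    hB.mul (isHomogeneous_X_pow _ _)
  have hBXP : B * X (t₀ 0) ^ (3 * M + 1) ∉ P := by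
    intro hmem
    rcases (inferInstance : P.IsPrime).mem_or_mem hmem with h1 | h1
    · exact hBP h1
    · exact ht₀ ((inferInstance : P.IsPrime).mem_of_pow_mem _ h1)
  have hA'an : AnalyticAt ℂ
      (fun u => eval (σ u) A * D3 t₀ (σ u) (d1 σ u) (d2 σ u) ^ M) 0 :=
    (analyticAt_eval h.an A).mul ((analyticAt_D3 t₀ h.an).pow M)
  have hB'an : AnalyticAt ℂ (fun u => eval (σ u) (B * X (t₀ 0) ^ (3 * M + 1))) 0 :=
    analyticAt_eval h.an _
  have hB'0 : ¬ ∀ᶠ u in 𝓝 (0 : ℂ × ℂ), eval (σ u) (B * X (t₀ 0) ^ (3 * M + 1)) = 0 :=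
    h.nd _ _ hBX hBXP
  have hne' : ¬ ∃ Φ : ℂ × ℂ → ℂ, AnalyticAt ℂ Φ 0 ∧ ∀ᶠ u in 𝓝 (0 : ℂ × ℂ),
      (fun u => eval (σ u) A * D3 t₀ (σ u) (d1 σ u) (d2 σ u) ^ M) u =
        (fun u => eval (σ u) (B * X (t₀ 0) ^ (3 * M + 1))) u * Φ u := by
    rintro ⟨Φ, hΦ, hΦ'⟩
    exact hne ⟨Φ, hΦ, hΦ'.mono fun u hu => hu.symm⟩
  have hU : {p : ℂ × ℂ | AnalyticAt ℂ σ p ∧ (∀ᶠ u in 𝓝 p, ∀ Q ∈ P, eval (σ u) Q = 0) ∧
      (∀ᶠ u in 𝓝 p, σ u (t 0) = x (t 0)) ∧ (∀ᶠ u in 𝓝 p, σ u (t 1) = x (t 1) + x (t 0) * u.1) ∧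
      (∀ᶠ u in 𝓝 p, σ u (t 2) = x (t 2) + x (t 0) * u.2) ∧
      ∀ (d : ℕ) (Q : MvPolynomial (Fin (N + 1)) ℂ), Q.IsHomogeneous d → Q ∉ P →
        ¬ ∀ᶠ u in 𝓝 p, eval (σ u) Q = 0} ∈ 𝓝 (0 : ℂ × ℂ) :=
    h.an.eventually_analyticAt.and (h.mem.eventually_nhds.and (h.c0.eventually_nhds.and
      (h.c1.eventually_nhds.and (h.c2.eventually_nhds.and h.nd_near))))
  obtain ⟨m, x₁, c, j, k', hc, ⟨hσ, hmem, hc0, hc1, hc2, hnd⟩, hordA, hordB, hjk⟩ :=
    exists_curve hA'an hB'an hB'0 hne' hU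
  have hθ : AnalyticAt ℂ (shear m x₁ c) 0 := EXT_an_shear hc
  have hψ : AnalyticAt ℂ (fun u => σ (shear m x₁ c u)) 0 :=
    AnalyticAt.fun_comp (g := σ) (f := shear m x₁ c) hσ hθ
  have hmemψ : ∀ᶠ u in 𝓝 (0 : ℂ × ℂ), ∀ Q ∈ P, eval (σ (shear m x₁ c u)) Q = 0 :=
    hθ.continuousAt.eventually hmem
  have hndψ : ∀ (d : ℕ) (Q : MvPolynomial (Fin (N + 1)) ℂ), Q.IsHomogeneous d → Q ∉ P →
      ¬ ∀ᶠ u in 𝓝 (0 : ℂ × ℂ), eval (σ (shear m x₁ c u)) Q = 0 := fun d Q hQ hQP hQ0 =>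
    hnd d Q hQ hQP (EXT_nd hc hQ0)
  have hψi : ∀ i, AnalyticAt ℂ (fun u => σ (shear m x₁ c u) i) 0 := fun i => by
    have h1 := analyticAt_eval hψ (X i)
    simpa only [eval_X] using h1
  have hψ0 : ∀ᶠ u in 𝓝 (0 : ℂ × ℂ), σ (shear m x₁ c u) (t 0) = x (t 0) :=
    hθ.continuousAt.eventually hc0
  have hψ1 : ∀ᶠ u in 𝓝 (0 : ℂ × ℂ), σ (shear m x₁ c u) (t 1) =
      x (t 1) + x (t 0) * (shear m x₁ c u).1 := hθ.continuousAt.eventually hc1
  have hψ2 : ∀ᶠ u in 𝓝 (0 : ℂ × ℂ), σ (shear m x₁ c u) (t 2) =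
      x (t 2) + x (t 0) * (shear m x₁ c u).2 := hθ.continuousAt.eventually hc2
  obtain ⟨E, hE1, hE2, hE3, hE4⟩ := exists_embedding P z hz hψ hmemψ hndψ
  have hy : ∀ i, X i ∉ P → emb (t2 fun u => σ (shear m x₁ c u) i) ≠ 0 := by
    intro i hi h0
    have h1 : t2 (fun u => σ (shear m x₁ c u) i) = 0 := by
      apply emb_injective
      rw [h0, map_zero]
    rw [t2_eq_zero_iff (hψi i)] at h1
    refine hndψ 1 (X i) (isHomogeneous_X _ _) hi (h1.mono fun u hu => ?_)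
    rw [eval_X]
    exact hu
  have hl : X (t 0) ∉ P := by
    intro hmem0
    have h1 := h.mem.self_of_nhds (X (t 0)) hmem0
    rw [eval_X, h.zero] at h1
    exact h.ne h1
  have hcst : ∀ a : ℂ, emb (t2 fun _ => a) = cst a := fun a => by
    rw [t2_const, emb_C_C]
  have hyl : emb (t2 fun u => σ (shear m x₁ c u) (t 0)) = cst (x (t 0)) := by
    rw [t2_congr hψ0, hcst]
  have hxl : cst (x (t 0)) ≠ 0 := by
    rw [← hyl]
    exact hy _ hl
  -- the coordinate function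
  have hs : E (ratio P (t 1) (t 0) - algebraMap ℂ (FunField P) m * ratio P (t 2) (t 0)) =
      cst ((x (t 1) - m * x (t 2)) / x (t 0) + x₁) + xx := by
    have h1 : t2 (fun u => σ (shear m x₁ c u) (t 1)) =
        t2 (fun u => m * σ (shear m x₁ c u) (t 2) +
          ((x (t 1) - m * x (t 2) + x (t 0) * x₁) + x (t 0) * u.1)) := by
      apply t2_congr
      filter_upwards [hψ1, hψ2] with u h1 h2
      rw [h1, h2]
      simp only [shear]
      ring
    have hfst : AnalyticAt ℂ (fun u : ℂ × ℂ => u.1) 0 := analyticAt_fst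
    have h2 : t2 (fun u : ℂ × ℂ => u.1) = PowerSeries.C PowerSeries.X := by
      have := t2_of_fst (f := fun a : ℂ => a) analyticAt_id
      rw [this, t1_id]
    have h3 : emb (t2 fun u => σ (shear m x₁ c u) (t 1)) =
        cst m * emb (t2 fun u => σ (shear m x₁ c u) (t 2)) +
          (cst (x (t 1) - m * x (t 2) + x (t 0) * x₁) + cst (x (t 0)) * xx) := by
      have h4 : AnalyticAt ℂ (fun u => m * σ (shear m x₁ c u) (t 2)) 0 :=
        analyticAt_const.fun_mul (hψi (t 2))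
      have h5 : AnalyticAt ℂ (fun u : ℂ × ℂ => x (t 0) * u.1) 0 := analyticAt_const.fun_mul hfst
      have h6 : AnalyticAt ℂ (fun u : ℂ × ℂ =>
          (x (t 1) - m * x (t 2) + x (t 0) * x₁) + x (t 0) * u.1) 0 := analyticAt_const.fun_add h5
      rw [h1, t2_add h4 h6, t2_mul analyticAt_const (hψi (t 2)),
        t2_add analyticAt_const h5, t2_mul analyticAt_const hfst, h2]
      simp only [map_add, map_mul, hcst, emb_C_X]
    have h7 : cst ((x (t 1) - m * x (t 2)) / x (t 0) + x₁) * cst (x (t 0)) =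
        cst (x (t 1) - m * x (t 2) + x (t 0) * x₁) := by
      rw [← map_mul]
      congr 1
      have := h.ne
      field_simp
    rw [map_sub, map_mul, hE1, hE2, hE2, h3, hyl, ← h7]
    field_simp
    ring
  have hpf := pole_free E hE1 _ _ hs M (H * ratio P (t 0) o) W
    ![ratio P (t₀ 1) (t₀ 0), ratio P (t₀ 2) (t₀ 0)] (hpole (t 0) hl)
  have hJ := hE4 t₀ ht₀
  simp only [Matrix.cons_val_zero, Matrix.cons_val_one] at hpf
  rw [hJ] at hpf
  have hrepE := hE3 d A B _ hA hB hrep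
  -- the Jacobian
  have hD3 : t2 (fun u => D3 t₀ (σ (shear m x₁ c u)) (d1 (fun u => σ (shear m x₁ c u)) u)
      (d2 (fun u => σ (shear m x₁ c u)) u)) =
      t2 (fun u => D3 t₀ (σ (shear m x₁ c u)) (d1 σ (shear m x₁ c u)) (d2 σ (shear m x₁ c u))) := by
    apply t2_congr
    have h1 := D3_comp t₀ (φ := fun u => σ (shear m x₁ c u)) (c := fun _ => (1 : ℂ))
      (analyticAt_const (x := (0 : ℂ × ℂ))) hθ hσ (Filter.Eventually.of_forall fun u => (one_smul ℂ _).symm)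
    have h2 : ∀ᶠ u in 𝓝 (0 : ℂ × ℂ), DifferentiableAt ℂ c u.1 := by
      have h3 : ∀ᶠ a in 𝓝 ((0 : ℂ × ℂ).1), DifferentiableAt ℂ c a :=
        hc.eventually_analyticAt.mono fun a ha => ha.differentiableAt
      exact continuousAt_fst.eventually h3
    filter_upwards [h1, h2] with u h1 h2
    rw [h1, EXT_jac_shear h2]
    ring
  have hD3an : AnalyticAt ℂ (fun u => D3 t₀ (σ (shear m x₁ c u)) (d1 σ (shear m x₁ c u))
      (d2 σ (shear m x₁ c u))) 0 :=
    AnalyticAt.fun_comp (g := fun v => D3 t₀ (σ v) (d1 σ v) (d2 σ v)) (f := shear m x₁ c)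
      (analyticAt_D3 t₀ hσ) hθ
  have hAan : AnalyticAt ℂ (fun u => eval (σ (shear m x₁ c u)) A) 0 := analyticAt_eval hψ A
  have hBan : AnalyticAt ℂ (fun u => eval (σ (shear m x₁ c u)) B) 0 := analyticAt_eval hψ B
  have hA2 : t2 (fun u => (fun u => eval (σ u) A * D3 t₀ (σ u) (d1 σ u) (d2 σ u) ^ M)
      (shear m x₁ c u)) = t2 (fun u => eval (σ (shear m x₁ c u)) A) *
        t2 (fun u => D3 t₀ (σ (shear m x₁ c u)) (d1 σ (shear m x₁ c u))
          (d2 σ (shear m x₁ c u))) ^ M := by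
    rw [← t2_pow hD3an, ← t2_mul hAan (hD3an.fun_pow M)]
  have hB2 : t2 (fun u => (fun u => eval (σ u) (B * X (t₀ 0) ^ (3 * M + 1))) (shear m x₁ c u)) =
      t2 (fun u => eval (σ (shear m x₁ c u)) B) *
        t2 (fun u => σ (shear m x₁ c u) (t₀ 0)) ^ (3 * M + 1) := by
    rw [← t2_pow (hψi (t₀ 0)), ← t2_mul hBan ((hψi (t₀ 0)).fun_pow _)]
    simp only [map_mul, map_pow, eval_X]
  have hvA : vT (emb (t2 fun u => eval (σ (shear m x₁ c u)) A) *
      emb (t2 (fun u => D3 t₀ (σ (shear m x₁ c u)) (d1 σ (shear m x₁ c u))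
          (d2 σ (shear m x₁ c u)))) ^ M) = (j : ℤ) := by
    rw [← map_pow, ← map_mul, ← hA2]
    exact vT_emb hordA
  have hvB : vT (emb (t2 fun u => eval (σ (shear m x₁ c u)) B) *
      emb (t2 fun u => σ (shear m x₁ c u) (t₀ 0)) ^ (3 * M + 1)) = (k' : ℤ) := by
    rw [← map_pow, ← map_mul, ← hB2]
    exact vT_emb hordB
  have hvl : vT (cst (x (t 0))) = 0 := by
    change vT (HahnSeries.C (HahnSeries.C (x (t 0)))) = 0
    apply vT_C
    intro h0
    apply hxl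
    change HahnSeries.C (HahnSeries.C (x (t 0))) = 0
    rw [h0, map_zero]
  have hyo := hy o ho
  have hyt := hy (t₀ 0) ht₀
  -- the identity
  have hid : (E (H * ratio P (t 0) o) * (E W * (emb (t2 fun u =>
      D3 t₀ (σ (shear m x₁ c u)) (d1 (fun u => σ (shear m x₁ c u)) u)
        (d2 (fun u => σ (shear m x₁ c u)) u)) / emb (t2 fun u => σ (shear m x₁ c u) (t₀ 0)) ^ 3)) ^ M) *
      (emb (t2 fun u => eval (σ (shear m x₁ c u)) B) *
        emb (t2 fun u => σ (shear m x₁ c u) (t₀ 0)) ^ (3 * M + 1)) =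
      cst (x (t 0)) * (emb (t2 fun u => eval (σ (shear m x₁ c u)) A) *
        emb (t2 (fun u => D3 t₀ (σ (shear m x₁ c u)) (d1 σ (shear m x₁ c u))
          (d2 σ (shear m x₁ c u)))) ^ M) := by
    rw [← hrepE, hD3]
    simp only [map_mul, map_pow, hE2, hyl]
    exact EXT_alg (F := LL) (E H) (E W) _ _ _ _ _ hyt hyo M
  have hv := congrArg vT hid
  rw [AddValuation.map_mul vT (E (H * ratio P (t 0) o) * _) _,
    AddValuation.map_mul vT (cst (x (t 0))) _, hvA, hvB, hvl, zero_add] at hv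
  have h1 : ((k' : ℤ) : WithTop ℤ) ≤ ((j : ℤ) : WithTop ℤ) := by
    rw [← hv]
    exact le_add_of_nonneg_left hpf
  have h2 : (k' : ℤ) ≤ (j : ℤ) := WithTop.coe_le_coe.1 h1
  have h3 : k' ≤ j := by exact_mod_cast h2
  omega

private theorem EXTb_sub {f g : ℂ × ℂ → ℂ} (hf : AnalyticAt ℂ f 0) (hg : AnalyticAt ℂ g 0)
    (h : t2 f = t2 g) : f 0 = g 0 := by
  have hg' : AnalyticAt ℂ (fun u => (-1 : ℂ) * g u) 0 := analyticAt_const.mul hg
  have hfg : AnalyticAt ℂ (fun u => f u + (-1 : ℂ) * g u) 0 := hf.add hg'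
  have hc : AnalyticAt ℂ (fun _ : ℂ × ℂ => (-1 : ℂ)) 0 := analyticAt_const
  have h1 : t2 (fun u => f u + (-1 : ℂ) * g u) = 0 := by
    rw [t2_add hf hg', t2_mul hc hg, t2_const, h, map_neg, map_neg, map_one, map_one, neg_one_mul,
      add_neg_cancel]
  have h2 := (t2_eq_zero_iff hfg).1 h1
  have h3 : f 0 + (-1) * g 0 = 0 := h2.self_of_nhds
  linear_combination h3

private theorem EXTb_apply {φ : ℂ × ℂ → Fin (N + 1) → ℂ} (h : AnalyticAt ℂ φ 0) (i : Fin (N + 1)) :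
    AnalyticAt ℂ (fun u => φ u i) 0 := by
  have h1 := analyticAt_eval h (X i : MvPolynomial (Fin (N + 1)) ℂ)
  simpa using h1

private theorem EXTb_ne {x : Fin (N + 1) → ℂ} {t : Fin 3 → Fin (N + 1)} {σ : ℂ × ℂ → Fin (N + 1) → ℂ}
    (h : CChart P x t σ) {i : Fin (N + 1)} (hi : X i ∉ P) : emb (t2 fun u => σ u i) ≠ 0 := by
  intro h0
  have h1 : t2 (fun u => σ u i) = 0 := emb_injective (by rw [h0, map_zero])
  have h2 := (t2_eq_zero_iff (EXTb_apply h.an i)).1 h1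
  refine h.nd 1 (X i) (isHomogeneous_X _ _) hi ?_
  filter_upwards [h2] with u hu
  rw [eval_X]
  exact hu

private theorem EXTb_mk_smul {K : Type} [Field K] [Algebra ℂ K] (c : K) (a : Fin 2 → K) :
    Form.mk c a = c • Form.mk (1 : K) a := by
  have h1 : ∀ v : Form K 2, c • v = c • (1 : K) • v := fun v => by rw [one_smul]
  exact h1 _

private theorem EXTb_one {F : Type} [Field F] {y : F} (h : y ≠ 0) : y ^ 3 / y ^ 3 = 1 :=
  div_self (pow_ne_zero 3 h)

private theorem EXTb_mo {F : Type} [Field F] (a : F) : a * 1 = a := mul_one a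

private theorem EXTb_mz {F : Type} [Field F] (a : F) : a * 0 = 0 := mul_zero a

private theorem EXTb_ne1 {F : Type} [Field F] {a : F} (h1 : a = 1) (h0 : a = 0) : False :=
  one_ne_zero (h1.symm.trans h0)

private theorem EXTb_fld {F : Type} [Field F] {D y e a b : F} (h : y ≠ 0) (h1 : e = D / y ^ 3)
    (h2 : e * b = a) : D * b = y ^ 3 * a := by
  rw [← h2, h1]
  field_simp

/-- The embedding and the Jacobian functional of a chart. -/
private theorem EXTb_chart {k : ℕ} (z : Fin (k + 1) → FunField P) (hz : IsTranscendenceBasis ℂ z)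
    {t : Fin 3 → Fin (N + 1)} (ht : X (t 0) ∉ P) {x : Fin (N + 1) → ℂ} {σ : ℂ × ℂ → Fin (N + 1) → ℂ}
    (h : CChart P x t σ) :
    ∃ (E : FunField P →+* LL) (J : Form (FunField P) 2 →+ LL),
      (∀ (g : FunField P) (η : Form (FunField P) 2), J (g • η) = E g * J η) ∧
      (∀ (d : ℕ) (A B : MvPolynomial (Fin (N + 1)) ℂ) (f : FunField P), A.IsHomogeneous d →
        B.IsHomogeneous d →
        (∀ l, X l ∉ P → f * aeval (fun i => ratio P i l) B = aeval (fun i => ratio P i l) A) →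
        E f * emb (t2 fun u => eval (σ u) B) = emb (t2 fun u => eval (σ u) A)) ∧
      (∀ s : Fin 3 → Fin (N + 1), X (s 0) ∉ P →
        J (Form.mk 1 ![ratio P (s 1) (s 0), ratio P (s 2) (s 0)]) =
          emb (t2 fun u => D3 s (σ u) (d1 σ u) (d2 σ u)) / emb (t2 fun u => σ u (s 0)) ^ 3) ∧
      J (Form.mk 1 ![ratio P (t 1) (t 0), ratio P (t 2) (t 0)]) = 1 := by
  obtain ⟨E, hE, -, hrep, hjac⟩ := exists_embedding P z hz h.an h.mem h.nd
  have hX : ∀ c : ℂ, DX (E (algebraMap ℂ (FunField P) c)) = 0 := fun c => by rw [hE]; exact DX_cst c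
  have hT : ∀ c : ℂ, DT (E (algebraMap ℂ (FunField P) c)) = 0 := fun c => by rw [hE]; exact DT_cst c
  obtain ⟨J, hJs, hJm⟩ := exists_jac (F := LL) E DX DT (fun a b => DX_mul a b)
    (fun a b => DT_mul a b) hX hT
  have hJ : ∀ s : Fin 3 → Fin (N + 1), X (s 0) ∉ P →
      J (Form.mk 1 ![ratio P (s 1) (s 0), ratio P (s 2) (s 0)]) =
        emb (t2 fun u => D3 s (σ u) (d1 σ u) (d2 σ u)) / emb (t2 fun u => σ u (s 0)) ^ 3 := by
    intro s hs
    refine (hJm 1 _).trans ?_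
    rw [map_one]
    exact (one_mul _).trans (hjac s hs)
  refine ⟨E, J, hJs, hrep, hJ, ?_⟩
  have h1 : t2 (fun u => D3 t (σ u) (d1 σ u) (d2 σ u)) = t2 (fun _ => x (t 0) ^ 3) :=
    t2_congr h.D3_eq
  have h2 : t2 (fun u => σ u (t 0)) = t2 (fun _ => x (t 0)) := t2_congr h.c0
  have h3 : (cst (x (t 0)) : LL) ≠ 0 := by
    have h4 := EXTb_ne P h ht
    rw [h2, t2_const, emb_C_C] at h4
    exact h4
  rw [hJ t ht, h1, h2, t2_const, t2_const, emb_C_C, emb_C_C, map_pow]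
  exact EXTb_one (F := LL) h3

theorem exists_jacobian {k : ℕ} (z : Fin (k + 1) → FunField P) (hz : IsTranscendenceBasis ℂ z)
    {t₀ t : Fin 3 → Fin (N + 1)} (ht₀ : X (t₀ 0) ∉ P) (ht : X (t 0) ∉ P)
    (hb₀ : IsTranscendenceBasis ℂ ![ratio P (t₀ 1) (t₀ 0), ratio P (t₀ 2) (t₀ 0)])
    (hb : IsTranscendenceBasis ℂ ![ratio P (t 1) (t 0), ratio P (t 2) (t 0)]) :
    ∃ (e : ℕ) (A B : MvPolynomial (Fin (N + 1)) ℂ), A.IsHomogeneous e ∧ B.IsHomogeneous e ∧
      B ∉ P ∧ ∀ (x : Fin (N + 1) → ℂ) (σ : ℂ × ℂ → Fin (N + 1) → ℂ), CChart P x t σ →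
        A ∉ P ∧ D3 t₀ x (d1 σ 0) (d2 σ 0) * eval x B = x (t₀ 0) ^ 3 * eval x A := by
  obtain ⟨f, hf⟩ := exists_form_mk hb
    (Form.mk 1 ![ratio P (t₀ 1) (t₀ 0), ratio P (t₀ 2) (t₀ 0)])
  obtain ⟨e, A, B, hA, hB, hBP, hfA, hrep⟩ := exists_hom_rep P z hz f
  refine ⟨e, A, B, hA, hB, hBP, fun x σ h => ?_⟩
  obtain ⟨E, J, hJs, hE, hJ, hJt⟩ := EXTb_chart P z hz ht h
  have hf1 : J (Form.mk 1 ![ratio P (t₀ 1) (t₀ 0), ratio P (t₀ 2) (t₀ 0)]) = E f := by
    rw [hf, EXTb_mk_smul, hJs, hJt]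
    exact EXTb_mo (F := LL) (E f)
  have hf0 : f ≠ 0 := by
    intro h0
    obtain ⟨W, hW⟩ := exists_form_mk hb₀ (Form.mk 1 ![ratio P (t 1) (t 0), ratio P (t 2) (t 0)])
    have h1 : J (Form.mk 1 ![ratio P (t 1) (t 0), ratio P (t 2) (t 0)]) = 0 := by
      rw [hW, EXTb_mk_smul, hJs, hf1, h0, map_zero]
      exact EXTb_mz (F := LL) (E W)
    exact EXTb_ne1 (F := LL) hJt h1
  refine ⟨hfA hf0, ?_⟩
  have hy := EXTb_ne P h ht₀
  have h1 := hE e A B f hA hB hrep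
  have h2 := hJ t₀ ht₀
  rw [hf1] at h2
  have h1' := EXTb_fld (F := LL) hy h2 h1
  have hD := analyticAt_D3 t₀ h.an
  have hsa := EXTb_apply h.an (t₀ 0)
  have hs3 : AnalyticAt ℂ (fun u => σ u (t₀ 0) ^ 3) 0 := hsa.pow 3
  have hAa := analyticAt_eval h.an A
  have hBa := analyticAt_eval h.an B
  have h3 : t2 (fun u => D3 t₀ (σ u) (d1 σ u) (d2 σ u) * eval (σ u) B) =
      t2 (fun u => σ u (t₀ 0) ^ 3 * eval (σ u) A) := by
    apply emb_injective
    rw [t2_mul hD hBa, t2_mul hs3 hAa, t2_pow hsa, map_mul, map_mul, map_pow]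
    exact h1'
  have h4 := EXTb_sub (hD.mul hBa) (hs3.mul hAa) h3
  simp only [Pi.mul_apply, h.zero] at h4
  exact h4

/-- The coordinate ratios of a chart are a transcendence basis. -/
theorem CChart.isTranscendenceBasis {z : Fin 2 → FunField P} (hz : IsTranscendenceBasis ℂ z)
    {x : Fin (N + 1) → ℂ} {t : Fin 3 → Fin (N + 1)} {σ : ℂ × ℂ → Fin (N + 1) → ℂ}
    (h : CChart P x t σ) : X (t 0) ∉ P ∧
      IsTranscendenceBasis ℂ ![ratio P (t 1) (t 0), ratio P (t 2) (t 0)] := by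
  have hxP : ∀ Q ∈ P, eval x Q = 0 := by
    have h1 := h.mem.self_of_nhds
    rw [h.zero] at h1
    exact h1
  have ht : X (t 0) ∉ P := by
    intro h1
    have h2 := hxP _ h1
    rw [eval_X] at h2
    exact h.ne h2
  refine ⟨ht, ?_⟩
  have hind : AlgebraicIndependent ℂ ![ratio P (t 1) (t 0), ratio P (t 2) (t 0)] := by
    rw [algebraicIndependent_iff]
    intro p hp
    let G : MvPolynomial (Fin (N + 1)) ℂ := aeval ![X (t 1), X (t 2)] p
    have hG : aeval (fun i => ratio P i (t 0)) G = 0 := by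
      have h1 := comp_aeval_apply (f := ![X (t 1), X (t 2)])
        (aeval (fun i => ratio P i (t 0)) : MvPolynomial (Fin (N + 1)) ℂ →ₐ[ℂ] FunField P) p
      refine h1.trans ?_
      rw [← hp]
      congr 2
      funext i
      fin_cases i
      · simp
      · simp
    have hev : ∀ y : Fin (N + 1) → ℂ, eval y G = eval ![y (t 1), y (t 2)] p := by
      intro y
      have h1 := comp_aeval_apply (f := ![X (t 1), X (t 2)])
        (aeval y : MvPolynomial (Fin (N + 1)) ℂ →ₐ[ℂ] ℂ) p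
      have h2 : eval y G = aeval y G := rfl
      have h3 : eval ![y (t 1), y (t 2)] p = aeval ![y (t 1), y (t 2)] p := rfl
      rw [h2, h3]
      refine h1.trans ?_
      congr 2
      funext i
      fin_cases i
      · simp
      · simp
    have hnear : ∀ᶠ u in 𝓝 (0 : ℂ × ℂ),
        eval ![x (t 1) / x (t 0) + u.1, x (t 2) / x (t 0) + u.2] p = 0 := by
      filter_upwards [h.mem, h.c0, h.c1, h.c2] with u hm h0 h1 h2
      have h3 : σ u (t 0) ≠ 0 := by
        rw [h0]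
        exact h.ne
      have h4 := eval_eq_zero_of_relation P (k := 1) z hz ht hG hm h3
      rw [hev, h0, h1, h2, add_div, add_div, mul_div_cancel_left₀ _ h.ne,
        mul_div_cancel_left₀ _ h.ne] at h4
      exact h4
    obtain ⟨r, hr, hball⟩ := Metric.eventually_nhds_iff_ball.1 hnear
    refine funext_set (fun i : Fin 2 => Metric.ball (![x (t 1) / x (t 0), x (t 2) / x (t 0)] i) r)
      (fun i => ?_) (fun v hv => ?_)
    · exact infinite_of_mem_nhds _ (Metric.ball_mem_nhds _ hr)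
    · have hv0 := hv 0 (Set.mem_univ _)
      have hv1 := hv 1 (Set.mem_univ _)
      have h1 := hball (v 0 - x (t 1) / x (t 0), v 1 - x (t 2) / x (t 0)) (by
        rw [mem_ball_zero_iff, Prod.norm_def, max_lt_iff]
        exact ⟨by simpa [dist_eq_norm] using hv0, by simpa [dist_eq_norm] using hv1⟩)
      rw [map_zero]
      refine Eq.trans ?_ h1
      congr 2
      funext i
      fin_cases i
      · simp
      · simp
  refine hind.isTranscendenceBasis_of_trdeg_le_of_finite ?_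
  rw [← hz.cardinalMk_eq_trdeg]

end Pool.Agent.H68.KR

end
end

section

/-!
# KR Main: surfaces of general type carry a holomorphic section of `M K - H`
-/

set_option autoImplicit false

open MvPolynomial Topology Filter
open Pool.Agent.H23.Fano (Form regularForms PrimeDivisorOver)
open Pool.Agent.H17LG.Variety (FunField ratio PoleAtMost IsLogGeneralType)
open Pool.Agent.H17BP (Tan IsForm NoZeros)
open Pool.Agent.H17GT (coordFun)

noncomputable section

namespace Pool.Agent.H68.KR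

variable {N : ℕ} (P : Ideal (MvPolynomial (Fin (N + 1)) ℂ)) [P.IsPrime]

theorem ratio_ne_zero {i j : Fin (N + 1)} (hi : X i ∉ P) (hj : X j ∉ P) : ratio P i j ≠ 0 := by
  intro h
  have h1 : coordFun P i / coordFun P j = 0 := congrArg Subtype.val h
  rcases div_eq_zero_iff.1 h1 with h2 | h2
  · exact hi ((coordFun_eq_zero_iff P i).1 h2)
  · exact hj ((coordFun_eq_zero_iff P j).1 h2)

/-- The Jacobian of a chart with respect to the fixed pair of coordinate ratios is the quotient of two forms. -/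
theorem exists_jacobian_form {z : Fin 2 → FunField P} (hz : IsTranscendenceBasis ℂ z)
    {t₀ : Fin 3 → Fin (N + 1)} (ht₀ : X (t₀ 0) ∉ P)
    (hb₀ : IsTranscendenceBasis ℂ ![ratio P (t₀ 1) (t₀ 0), ratio P (t₀ 2) (t₀ 0)])
    (t : Fin 3 → Fin (N + 1)) :
    ∃ (e : ℕ) (R : MvPolynomial (Fin (N + 1)) ℂ), R.IsHomogeneous e ∧ R ∉ P ∧
      ∀ (x : Fin (N + 1) → ℂ) (σ : ℂ × ℂ → Fin (N + 1) → ℂ), CChart P x t σ → x (t₀ 0) ≠ 0 →
        eval x R ≠ 0 → D3 t₀ x (d1 σ 0) (d2 σ 0) ≠ 0 := by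
  by_cases hex : ∃ x σ, CChart P x t σ
  · obtain ⟨x, σ, hσ⟩ := hex
    obtain ⟨ht, hb⟩ := hσ.isTranscendenceBasis P hz
    obtain ⟨e, A, B, hA, hB, hBP, hmain⟩ := exists_jacobian P z hz ht₀ ht hb₀ hb
    have hAP : A ∉ P := (hmain x σ hσ).1
    refine ⟨e + e, A * B, hA.mul hB, fun h => ?_, fun y τ hτ hy hR hD => ?_⟩
    · rcases Ideal.IsPrime.mem_or_mem inferInstance h with h1 | h1
      · exact hAP h1
      · exact hBP h1
    · have h1 := (hmain y τ hτ).2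
      rw [hD, zero_mul] at h1
      rw [map_mul] at hR
      have h2 : eval y A ≠ 0 := left_ne_zero_of_mul hR
      exact (mul_ne_zero (pow_ne_zero 3 hy) h2) h1.symm
  · exact ⟨0, 1, isHomogeneous_one _ _, fun h => (Ideal.ne_top_iff_one P).1 Ideal.IsPrime.ne_top' h,
      fun x σ hσ => absurd ⟨x, σ, hσ⟩ hex⟩

theorem exists_form (hP : ∀ p ∈ P, ∀ n, homogeneousComponent n p ∈ P) {z : Fin 2 → FunField P}
    (hz : IsTranscendenceBasis ℂ z)
    (hgt : IsLogGeneralType (K := FunField P) (k := 2) fun _ => False)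
    (hsm : ∀ x ∈ cone P, ∃ t σ, CChart P x t σ) :
    ∃ (M : ℕ) (Om : (Fin (N + 1) → ℂ) → (Fin (N + 1) → ℂ) → (Fin (N + 1) → ℂ) → ℂ) (D₀ : ℕ)
      (Q₀ : MvPolynomial (Fin (N + 1)) ℂ), 1 ≤ M ∧ Q₀.IsHomogeneous D₀ ∧ Q₀ ∉ P ∧
      IsForm (cone P) M 1 Om ∧ NoZeros (cone P) {x | x ∈ cone P ∧ eval x Q₀ = 0} Om := by
  by_cases hne : (cone P).Nonempty
  swap
  · have hemp : ∀ x, x ∉ cone P := fun x hx => hne ⟨x, hx⟩
    refine ⟨1, fun _ _ _ => 0, 0, 1, le_rfl, isHomogeneous_one _ _,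
      fun h => (Ideal.ne_top_iff_one P).1 Ideal.IsPrime.ne_top' h, ⟨?_, ?_, ?_, ?_⟩, ?_⟩
    · exact fun x hx => absurd hx (hemp x)
    · exact fun x hx => absurd hx (hemp x)
    · exact fun x hx => absurd hx (hemp x)
    · exact fun φ p _ h => absurd h.self_of_nhds (hemp _)
    · exact fun x hx => absurd hx (hemp x)
  obtain ⟨x₀, hx₀⟩ := hne
  obtain ⟨t₀, σ₀, hσ₀⟩ := hsm x₀ hx₀
  obtain ⟨ht₀, hb₀⟩ := hσ₀.isTranscendenceBasis P hz
  obtain ⟨ω, hω, M, H, o, hM, hH, ho, hpole⟩ := kodaira P z hz hgt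
  obtain ⟨W, rfl⟩ := exists_form_mk hb₀ ω
  have hW : W ≠ 0 := by
    rintro rfl
    apply hω
    unfold Form.mk
    exact zero_smul _ _
  obtain ⟨d, A, B, hA, hB, hBP, hAP, hrep⟩ :=
    exists_hom_rep P z hz (H * ratio P (t₀ 0) o * W ^ M)
  have hAP' : A ∉ P := hAP (mul_ne_zero (mul_ne_zero hH (ratio_ne_zero P ht₀ ho)) (pow_ne_zero _ hW))
  have hext : ∀ x t σ, CChart P x t σ → ∃ Φ, Ext M t₀ A (B * X (t₀ 0) ^ (3 * M + 1)) σ Φ 0 :=
    fun x t σ h => exists_ext P z hz ht₀ ho hpole hA hB hBP hrep h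
  have hB' : (B * X (t₀ 0) ^ (3 * M + 1)).IsHomogeneous (d + 3 * M + 1) := by
    have := hB.mul (isHomogeneous_X_pow (R := ℂ) (t₀ 0) (3 * M + 1))
    rwa [← add_assoc] at this
  have hBP' : B * X (t₀ 0) ^ (3 * M + 1) ∉ P := by
    intro h
    rcases Ideal.IsPrime.mem_or_mem inferInstance h with h1 | h1
    · exact hBP h1
    · exact ht₀ (Ideal.IsPrime.mem_of_pow_mem inferInstance _ h1)
  obtain ⟨Om, h1, h2⟩ := exists_om (P := P) hA hB' hsm hext
  have hform : IsForm (cone P) M 1 Om := isForm_om hP hA hB' hBP' hsm hext h1 h2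
  choose e R hR hRP hRne using exists_jacobian_form P hz ht₀ hb₀
  set B' := B * X (t₀ 0) ^ (3 * M + 1) with hB'def
  have hprod : (∏ t, R t).IsHomogeneous (∑ t, e t) := IsHomogeneous.prod _ _ _ fun t _ => hR t
  have hprodP : (∏ t, R t) ∉ P := by
    intro h
    obtain ⟨t, -, ht⟩ := (Ideal.IsPrime.prod_mem_iff (p := P)).1 h
    exact hRP t ht
  refine ⟨M, Om, (d + (d + 3 * M + 1)) + 1 + ∑ t, e t, A * B' * X (t₀ 0) * ∏ t, R t, hM,
    ((hA.mul hB').mul (isHomogeneous_X _ _)).mul hprod, fun h => ?_, hform, ?_⟩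
  · rcases Ideal.IsPrime.mem_or_mem inferInstance h with h3 | h3
    · rcases Ideal.IsPrime.mem_or_mem inferInstance h3 with h4 | h4
      · rcases Ideal.IsPrime.mem_or_mem inferInstance h4 with h5 | h5
        · exact hAP' h5
        · exact hBP' h5
      · exact ht₀ h4
    · exact hprodP h3
  · intro x hx hxB v hv w hw hind
    have hQ : eval x (A * B' * X (t₀ 0) * ∏ t, R t) ≠ 0 := fun h => hxB ⟨hx, h⟩
    rw [map_mul, map_mul, map_mul, eval_X, map_prod] at hQ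
    have hQR := right_ne_zero_of_mul hQ
    have hQ1 := left_ne_zero_of_mul hQ
    have hx0 := right_ne_zero_of_mul hQ1
    have hQ2 := left_ne_zero_of_mul hQ1
    have hxA := left_ne_zero_of_mul hQ2
    have hxB' := right_ne_zero_of_mul hQ2
    rw [Finset.prod_ne_zero_iff] at hQR
    obtain ⟨t, σ, hσ⟩ := hsm x hx
    obtain ⟨Φ, hΦ⟩ := hext x t σ hσ
    have hD := hRne t x σ hσ hx0 (hQR t (Finset.mem_univ t))
    have hnd : ¬ ∀ᶠ u in 𝓝 (0 : ℂ × ℂ), eval (σ u) B' = 0 := hσ.nd _ _ hB' hBP'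
    have h3 : Om x (d1 σ 0) (d2 σ 0) = Φ 0 := h1 x hx σ 0 Φ hσ.an hσ.mem hσ.zero hΦ hnd
    have h4 := hΦ.2.self_of_nhds
    rw [hσ.zero] at h4
    have hΦ0 : Φ 0 ≠ 0 := by
      intro h0
      rw [h0, mul_zero] at h4
      exact (mul_ne_zero hxA (pow_ne_zero M hD)) h4.symm
    obtain ⟨a, b, c, hvv⟩ := hσ.tan hv
    obtain ⟨a', b', c', hww⟩ := hσ.tan hw
    obtain ⟨s, C, hC⟩ := h2 x hx
    have h5 : Om x v w = (a * b' - b * a') ^ M * Om x (d1 σ 0) (d2 σ 0) := by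
      rw [hC, hC, hvv, hww, D3_add_smul, D3_det, mul_pow]
      ring
    rw [h5, h3]
    refine mul_ne_zero (pow_ne_zero M fun hdet => ?_) hΦ0
    -- a linear relation
    rw [Fintype.linearIndependent_iff] at hind
    by_cases hab : a = 0 ∧ b = 0
    · have h6 := hind ![-c, 1, 0] (by
        simp [Fin.sum_univ_three, hvv, hab.1, hab.2]) 1
      simp at h6
    · have h6 := hind ![-(c * b' - c' * b), b', -b] (by
        simp only [Fin.sum_univ_three, Matrix.cons_val_zero, Matrix.cons_val_one,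
          Matrix.cons_val_two, Matrix.head_cons, Matrix.tail_cons]
        rw [hvv, hww]
        ext i
        simp only [Pi.add_apply, Pi.smul_apply, smul_eq_mul, Pi.zero_apply]
        linear_combination (d1 σ 0 i) * hdet)
      have h7 := hind ![-(c' * a - c * a'), -a', a] (by
        simp only [Fin.sum_univ_three, Matrix.cons_val_zero, Matrix.cons_val_one,
          Matrix.cons_val_two, Matrix.head_cons, Matrix.tail_cons]
        rw [hvv, hww]
        ext i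
        simp only [Pi.add_apply, Pi.smul_apply, smul_eq_mul, Pi.zero_apply]
        linear_combination (d2 σ 0 i) * hdet)
      apply hab
      have h8 := h6 2
      have h9 := h7 2
      simp at h8 h9
      exact ⟨h9, h8⟩

end Pool.Agent.H68.KR

end
end

section

/-!
# GQ Up: a section of `K^M (-1)` on an algebraic extension of the function field

The pluricanonical forms `H ratio P b o ω^M` of `kodaira` are pulled back to `L` (`Gtu.exists_formMap`, `Gtu.exists_under`, `Gtu.formMap_regular`); see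
`Gtu.isGT_of_algebraic`.
-/

set_option autoImplicit false

open MvPolynomial Topology Filter Metric
open Pool.Agent.H13.SM (conTan cone)
open Pool.Agent.H17 (PN)
open Pool.Agent.H17LG.Variety (FunField ratio PoleAtMost IsLogGeneralType)
open Pool.Agent.H23.Fano (Form PrimeDivisorOver)
open Pool.Agent.H7.Gtu
open Pool.Agent.GG

noncomputable section

namespace Pool.Agent.GQ

/-- A pluricanonical form regular along all prime divisors stays so on an algebraic extension. -/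
theorem poleAtMost_map {K L : Type} [Field K] [Algebra ℂ K] [Field L] [Algebra ℂ L] [Algebra K L] [IsScalarTower ℂ K L] [Algebra.IsAlgebraic K L]
    {k M : ℕ} {Φ : Form K k →+ Form L k} (hsm : ∀ (c : K) ω, Φ (c • ω) = algebraMap K L c • Φ ω)
    (hmk : ∀ (c : K) a, Φ (Form.mk c a) = Form.mk (algebraMap K L c) fun i => algebraMap K L (a i)) {f : K} {ω : Form K k}
    (h : ∀ D : PrimeDivisorOver K k, PoleAtMost 0 D M f ω) (E : PrimeDivisorOver L k) : PoleAtMost 0 E M (algebraMap K L f) (Φ ω) := by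
  obtain ⟨D, e, he, hD⟩ := exists_under (K := K) E
  have heZ : (0 : ℤ) ≤ e := by positivity
  have hnn : ∀ x : K, 0 ≤ D.ord x → 0 ≤ E.ord (algebraMap K L x) := by
    intro x hx
    by_cases hx0 : x = 0
    · rw [hx0, map_zero, E.ord.map_zero]
      exact le_top
    · obtain ⟨n, hn, hn'⟩ := hD x hx0
      rw [hn']
      rw [hn] at hx
      have h1 : (0 : ℤ) ≤ n := by exact_mod_cast hx
      have h2 : (0 : ℤ) ≤ e * n := mul_nonneg heZ h1
      exact_mod_cast h2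
  obtain ⟨g, η, hη, hωg, hord⟩ := h D
  refine ⟨algebraMap K L g, Φ η, formMap_regular hmk hnn hη, ?_, ?_⟩
  · rw [hωg, hsm]
  · have h1 : algebraMap K L f * algebraMap K L g ^ M = algebraMap K L (f * g ^ M) := by
      rw [map_mul, map_pow]
    rw [h1]
    have h2 : (0 : WithTop ℤ) ≤ D.ord (f * g ^ M) := by simpa using hord
    simpa using hnn _ h2

variable {N : ℕ} {P : Ideal (MvPolynomial (Fin (N + 1)) ℂ)} [P.IsPrime] {L : Type} [Field L] [Algebra ℂ L] [Algebra (FunField P) L]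
  [IsScalarTower ℂ (FunField P) L]

/-- `H68.KR.kodaira` (as in `GG.exists_canSec`), `Gtu.exists_formMap`, `Gtu.exists_under`, `Gtu.formMap_regular`; see `Gtu.isGT_of_algebraic`. -/
theorem exists_sec {n : ℕ} (hdim : ∃ z : Fin (n + 1) → FunField P, IsTranscendenceBasis ℂ z)
    (hgt : IsLogGeneralType (K := FunField P) (k := n + 1) fun _ => False) (halg : Algebra.IsAlgebraic (FunField P) L) :
    ∃ M : ℕ, 1 ≤ M ∧ Nonempty (Sec P L (n + 1) M) := by
  obtain ⟨z, hz⟩ := id hdim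
  obtain ⟨ω, hω, M, H, o, hM, hH, ho, hpole⟩ := Pool.Agent.H68.KR.kodaira (P := P) z hz hgt
  obtain ⟨Φ, hsm, hmk⟩ := exists_formMap (K := FunField P) (L := L) (n + 1)
  have hinj : Function.Injective (algebraMap (FunField P) L) := (algebraMap (FunField P) L).injective
  obtain ⟨x, hxo, -, -, hr⟩ := Kd.exists_gen hdim ho
  have hne : ∀ b, X b ∉ P → ratio P b o ≠ 0 := fun b hb => Pool.Agent.H68.KR.ratio_ne_zero P hb ho
  refine ⟨M, hM, ⟨⟨Φ ω, formMap_ne_zero hz hsm hmk hω, fun b => algebraMap (FunField P) L (H * ratio P b o), fun b hb h0 => ?_,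
    fun a b ha hb => ?_, fun b hb E => poleAtMost_map hsm hmk (hpole b hb) E⟩⟩⟩
  · exact mul_ne_zero hH (hne b hb) ((map_eq_zero_iff _ hinj).1 h0)
  · rw [← map_mul]
    congr 1
    obtain ⟨y, hya, -, -, hy⟩ := Kd.exists_gen hdim ha
    have hyo : y o ≠ 0 := by
      intro h
      have h1 := hne a ha
      have h2 := Pool.Agent.H68.KR.ratio_ne_zero P ho ha
      rw [hy, h, zero_div] at h2
      exact h2 rfl
    rw [hy b o, hy b a, hy a o]
    field_simp

theorem exists_tb {n : ℕ} (hdim : ∃ z : Fin (n + 1) → FunField P, IsTranscendenceBasis ℂ z) (halg : Algebra.IsAlgebraic (FunField P) L) :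
    ∃ z : Fin (n + 1) → L, IsTranscendenceBasis ℂ z := by
  obtain ⟨z, hz⟩ := hdim
  exact ⟨algebraMap (FunField P) L ∘ z, hz.algebraMap_comp⟩

end Pool.Agent.GQ

end
end
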