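import Pool.Agent.H18.GGT.M64
import Pool.Agent.H18.GGT.M73
import Pool.Agent.H18.GGT.M74
import Pool.Agent.H18.GGT.M76
import Pool.Agent.H18.GGT.M78
import Pool.Agent.H18.GGT.M80

/-! The parts of this file: GQ.Nmt, GQ.Chg, GQ.Val, GQ.Den, GQ.Ent, GQ.One, GQ.Vne, GQ.Slv, GTL.EtP, GTL.Et, GTL.EtDn, GQ.Fbd, GQ.Tvb, GQ.Cor, GQ.Fin. -/

section

/-!
# GQ Nmt: changes of charts in the phase space, tangent vectors
-/

set_option autoImplicit false

open MvPolynomial Topology Filter Metric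
open Pool.Agent.H13.SM (conTan cone)
open Pool.Agent.H17 (PN VanishesAt)
open Pool.Agent.H17LG.Variety (FunField ratio PoleAtMost IsLogGeneralType)
open Pool.Agent.H23.Fano (Form PrimeDivisorOver)
open Pool.Agent.H62.FC (Homog)
open Pool.Agent.GG

noncomputable section

namespace Pool.Agent.GQ

variable {N : ℕ} {P : Ideal (MvPolynomial (Fin (N + 1)) ℂ)}

/-- the change of charts is differentiable -/
theorem nm_diff {b : Fin (N + 1)} {w : Ph N → ℂ} (h : w (Sum.inl b) ≠ 0) : DifferentiableAt ℂ (nm b : (Ph N → ℂ) → Ph N → ℂ) w := by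
  have h1 : ∀ s : Ph N, DifferentiableAt ℂ (fun p : Ph N → ℂ => p s) w := fun s => differentiableAt_apply s w
  rw [differentiableAt_pi]
  intro s
  rcases s with i | i
  · show DifferentiableAt ℂ (fun p : Ph N → ℂ => p (Sum.inl i) / p (Sum.inl b)) w
    simp only [div_eq_mul_inv]
    exact (h1 (Sum.inl i)).mul ((h1 (Sum.inl b)).inv h)
  · show DifferentiableAt ℂ (fun p : Ph N → ℂ => p (Sum.inr i) / p (Sum.inl b) - p (Sum.inl i) * p (Sum.inr b) / p (Sum.inl b) ^ 2) w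
    simp only [div_eq_mul_inv]
    exact ((h1 (Sum.inr i)).mul ((h1 (Sum.inl b)).inv h)).sub
      (((h1 (Sum.inl i)).mul (h1 (Sum.inr b))).mul (((h1 (Sum.inl b)).pow 2).inv (pow_ne_zero 2 h)))

/-- The derivatives of `nm a` and `nm b` are inverse to each other. -/
theorem nm_inv {a b : Fin (N + 1)} {w t : Ph N → ℂ} (ha : w (Sum.inl a) = 1) (ha' : w (Sum.inr a) = 0) (hb : w (Sum.inl b) ≠ 0)
    (hta : t (Sum.inl a) = 0) (hta' : t (Sum.inr a) = 0) : fderiv ℂ (nm a) (nm b w) (fderiv ℂ (nm b) w t) = t := by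
  have h0 : HasDerivAt (fun s : ℂ => w + s • t) t 0 := by
    have h1 := ((hasDerivAt_id (0 : ℂ)).smul_const t).const_add w
    rwa [one_smul] at h1
  have hw0 : w + (0 : ℂ) • t = w := by rw [zero_smul, add_zero]
  have h2 : HasFDerivAt (nm b : (Ph N → ℂ) → Ph N → ℂ) (fderiv ℂ (nm b) w) (w + (0 : ℂ) • t) := by
    rw [hw0]
    exact (nm_diff hb).hasFDerivAt
  have h3 := h2.comp_hasDerivAt (0 : ℂ) h0
  have h4 : (nm b w) (Sum.inl a) ≠ 0 := by
    show w (Sum.inl a) / w (Sum.inl b) ≠ 0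
    rw [ha]
    exact div_ne_zero one_ne_zero hb
  have h5 : HasFDerivAt (nm a : (Ph N → ℂ) → Ph N → ℂ) (fderiv ℂ (nm a) (nm b w)) ((nm b ∘ fun s : ℂ => w + s • t) 0) := by
    show HasFDerivAt (nm a : (Ph N → ℂ) → Ph N → ℂ) (fderiv ℂ (nm a) (nm b w)) (nm b (w + (0 : ℂ) • t))
    rw [hw0]
    exact (nm_diff h4).hasFDerivAt
  have h6 := h5.comp_hasDerivAt (0 : ℂ) h3
  have h7 : ∀ᶠ s : ℂ in 𝓝 0, (w + s • t) (Sum.inl b) ≠ 0 := by
    have h8 : ContinuousAt (fun s : ℂ => (w + s • t) (Sum.inl b)) 0 := by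
      have h9 : Continuous fun s : ℂ => w (Sum.inl b) + s * t (Sum.inl b) := by fun_prop
      exact h9.continuousAt
    refine h8.eventually_ne ?_
    rw [hw0]
    exact hb
  have h8 : (nm a ∘ nm b ∘ fun s : ℂ => w + s • t) =ᶠ[𝓝 0] fun s : ℂ => w + s • t := by
    filter_upwards [h7] with s hs
    show nm a (nm b (w + s • t)) = w + s • t
    refine nm_nm ?_ ?_ hs
    · show w (Sum.inl a) + s * t (Sum.inl a) = 1
      rw [ha, hta, mul_zero, add_zero]
    · show w (Sum.inr a) + s * t (Sum.inr a) = 0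
      rw [ha', hta', mul_zero, add_zero]
  exact (h6.congr_of_eventuallyEq h8.symm).unique h0

section Sol

variable [P.IsPrime] {L : Type} [Field L] [Algebra ℂ L] [Algebra (FunField P) L]

/-- the same for tangent vectors (differentiate along `w + ε t`, or use dual numbers / `Kd.dpl`) -/
theorem tn_nm [IsScalarTower ℂ (FunField P) L] {n : ℕ} (hdim : ∃ z : Fin (n + 1) → FunField P, IsTranscendenceBasis ℂ z) (u : Derivation ℂ L L) {a b : Fin (N + 1)} (ha : X a ∉ P)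
    (hb : X b ∉ P) {w : Ph N → ℂ} (hw : Pt (rel (ph P u a)) w) (h : w (Sum.inl b) ≠ 0) {t : Ph N → ℂ} (ht : t ∈ Tn (rel (ph P u a)) w) :
    fderiv ℂ (nm b) w t ∈ Tn (rel (ph P u b)) (nm b w) := by
  intro g hg
  obtain ⟨M, Q, h1, h1'⟩ := exists_hom b g
  have h2 : Q ∈ rel (ph P u a) := by
    rw [mem_rel]
    by_cases h0 : ph P u a (Sum.inl b) = 0
    · exact h1' L _ h0
    · rw [h1 L _ h0, nm_ph hdim u ha hb, mem_rel.1 hg, mul_zero]
  have h3 := ht Q h2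
  have h4 := Pool.Agent.H13.SM.Inv_hasFDerivAt_eval Q w
  have h5 := (Pool.Agent.H13.SM.Inv_hasFDerivAt_eval g (nm b w)).comp w (nm_diff h).hasFDerivAt
  have h6 : HasFDerivAt (fun y : Ph N → ℂ => y (Sum.inl b) ^ M) (((M : ℂ) * w (Sum.inl b) ^ (M - 1)) •
      (ContinuousLinearMap.proj (R := ℂ) (φ := fun _ : Ph N => ℂ) (Sum.inl b))) w := by
    have h7 : HasDerivAt (fun z : ℂ => z ^ M) ((M : ℂ) * w (Sum.inl b) ^ (M - 1)) (w (Sum.inl b)) := hasDerivAt_pow M _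
    exact h7.comp_hasFDerivAt w (hasFDerivAt_apply (𝕜 := ℂ) (Sum.inl b : Ph N) w)
  have h7 := h6.mul h5
  have h8 : (fun y : Ph N → ℂ => eval y Q) =ᶠ[𝓝 w] fun y => y (Sum.inl b) ^ M * eval (nm b y) g := by
    have h9 : ∀ᶠ y : Ph N → ℂ in 𝓝 w, y (Sum.inl b) ≠ 0 := (continuous_apply (Sum.inl b : Ph N)).continuousAt.eventually_ne h
    filter_upwards [h9] with y hy
    have h10 := h1 ℂ y hy
    rwa [aeval_eq_eval, aeval_eq_eval] at h10
  have h9 := (h4.congr_of_eventuallyEq h8.symm).unique h7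
  have h10 := congrArg (fun f : (Ph N → ℂ) →L[ℂ] ℂ => f t) h9
  have h11 : eval (nm b w) g = 0 := pt_nm hdim u ha hb hw h g hg
  simp only [FunLike.coe_add, FunLike.coe_smul, Pi.add_apply, Pi.smul_apply, smul_eq_mul, sum_apply, ContinuousLinearMap.proj_apply,
    ContinuousLinearMap.comp_apply, Function.comp_apply, h11, zero_mul, add_zero] at h10
  rw [h3] at h10
  exact (mul_eq_zero.1 h10.symm).resolve_left (pow_ne_zero _ h)

private theorem Nmt_zero [IsScalarTower ℂ (FunField P) L] {n : ℕ} (hdim : ∃ z : Fin (n + 1) → FunField P, IsTranscendenceBasis ℂ z) (u : Derivation ℂ L L)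
    {a : Fin (N + 1)} (ha : X a ∉ P) {w t : Ph N → ℂ} (ht : t ∈ Tn (rel (ph P u a)) w) : t (Sum.inl a) = 0 ∧ t (Sum.inr a) = 0 := by
  classical
  have h0 : ratio P a a = 1 := by
    obtain ⟨x, hxa, -, -, h3⟩ := Kd.exists_gen hdim ha
    rw [h3, div_self hxa]
  have h1 : (X (Sum.inl a) - 1 : MvPolynomial (Ph N) ℂ) ∈ rel (ph P u a) := by
    rw [mem_rel, map_sub, aeval_X, map_one]
    show algebraMap (FunField P) L (ratio P a a) - 1 = 0
    rw [h0, map_one, sub_self]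
  have h2 : (X (Sum.inr a) : MvPolynomial (Ph N) ℂ) ∈ rel (ph P u a) := by
    rw [mem_rel, aeval_X]
    show u (algebraMap (FunField P) L (ratio P a a)) = 0
    rw [h0, map_one, Derivation.map_one_eq_zero]
  have h3 := ht _ h1
  have h4 := ht _ h2
  have h5 : ∀ s r : Ph N, eval w (pderiv s (X r : MvPolynomial (Ph N) ℂ)) * t s = if s = r then t r else 0 := fun s r => by
    rw [pderiv_X]
    by_cases hs : s = r
    · rw [hs, Pi.single_eq_same, map_one, one_mul, if_pos rfl]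
    · rw [Pi.single_eq_of_ne (Ne.symm hs), map_zero, zero_mul, if_neg hs]
  simp only [map_sub, Derivation.map_one_eq_zero, sub_zero, h5, Finset.sum_ite_eq', Finset.mem_univ, if_true] at h3
  simp only [h5, Finset.sum_ite_eq', Finset.mem_univ, if_true] at h4
  exact ⟨h3, h4⟩

private theorem Nmt_le [IsScalarTower ℂ (FunField P) L] {n : ℕ} (hdim : ∃ z : Fin (n + 1) → FunField P, IsTranscendenceBasis ℂ z) (u : Derivation ℂ L L)
    {a b : Fin (N + 1)} (ha : X a ∉ P) (hb : X b ∉ P) {w : Ph N → ℂ} (hw : Pt (rel (ph P u a)) w) (h : w (Sum.inl b) ≠ 0) :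
    Module.finrank ℂ (Tn (rel (ph P u a)) w) ≤ Module.finrank ℂ (Tn (rel (ph P u b)) (nm b w)) := by
  obtain ⟨h1, h1'⟩ := pt_one hdim u ha hw
  let f : Tn (rel (ph P u a)) w →ₗ[ℂ] Tn (rel (ph P u b)) (nm b w) :=
    (fderiv ℂ (nm b : (Ph N → ℂ) → Ph N → ℂ) w).toLinearMap.restrict fun t ht => tn_nm hdim u ha hb hw h ht
  refine LinearMap.finrank_le_finrank_of_injective (f := f) ?_
  intro t t' htt
  have h2 : fderiv ℂ (nm b) w (t : Ph N → ℂ) = fderiv ℂ (nm b) w (t' : Ph N → ℂ) := congrArg Subtype.val htt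
  have h3 := nm_inv h1 h1' h (Nmt_zero hdim u ha t.2).1 (Nmt_zero hdim u ha t.2).2
  have h4 := nm_inv h1 h1' h (Nmt_zero hdim u ha t'.2).1 (Nmt_zero hdim u ha t'.2).2
  refine Subtype.ext ?_
  rw [← h3, h2, h4]

/-- the two maps are inverse to each other, so the dimensions of the tangent spaces are equal -/
theorem finrank_nm [IsScalarTower ℂ (FunField P) L] {n : ℕ} (hdim : ∃ z : Fin (n + 1) → FunField P, IsTranscendenceBasis ℂ z) (u : Derivation ℂ L L) {a b : Fin (N + 1)} (ha : X a ∉ P)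
    (hb : X b ∉ P) {w : Ph N → ℂ} (hw : Pt (rel (ph P u a)) w) (h : w (Sum.inl b) ≠ 0) :
    Module.finrank ℂ (Tn (rel (ph P u b)) (nm b w)) = Module.finrank ℂ (Tn (rel (ph P u a)) w) := by
  obtain ⟨h1, h1'⟩ := pt_one hdim u ha hw
  refine le_antisymm ?_ (Nmt_le hdim u ha hb hw h)
  have h4 : (nm b w) (Sum.inl a) ≠ 0 := by
    show w (Sum.inl a) / w (Sum.inl b) ≠ 0
    rw [h1]
    exact div_ne_zero one_ne_zero h
  have h5 := Nmt_le hdim u hb ha (pt_nm hdim u ha hb hw h) h4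
  rwa [nm_nm h1 h1' h] at h5

end Sol

end Pool.Agent.GQ

end
end

section

/-!
# GQ Chg: the equations and the equations of the singular points in another chart

Both are homogenisations (`exists_hom`): `Q (w) = w_a^M g (nm a w)` if `w_a ≠ 0`, and `Q (w) = 0` if `w_a = 0`.
-/

set_option autoImplicit false

open MvPolynomial Topology Filter Metric
open Pool.Agent.H13.SM (conTan cone)
open Pool.Agent.H17 (PN VanishesAt)
open Pool.Agent.H17LG.Variety (FunField ratio PoleAtMost IsLogGeneralType)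
open Pool.Agent.H23.Fano (Form PrimeDivisorOver)
open Pool.Agent.H62.FC (Homog)
open Pool.Agent.GG

noncomputable section

namespace Pool.Agent.GQ

variable {N : ℕ} {P : Ideal (MvPolynomial (Fin (N + 1)) ℂ)} [P.IsPrime] {L : Type} [Field L] [Algebra ℂ L] [Algebra (FunField P) L]

theorem rel_chg [IsScalarTower ℂ (FunField P) L] {n : ℕ} (hdim : ∃ z : Fin (n + 1) → FunField P, IsTranscendenceBasis ℂ z) (u : Derivation ℂ L L) {a b : Fin (N + 1)} (ha : X a ∉ P)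
    (hb : X b ∉ P) : ∀ g ∈ rel (ph P u a), ∃ (M : ℕ), ∃ Q ∈ rel (ph P u b), ∀ w : Ph N → ℂ, w (Sum.inl b) = 1 → w (Sum.inr b) = 0 →
      w (Sum.inl a) ≠ 0 → eval w Q = w (Sum.inl a) ^ M * eval (nm a w) g := by
  intro g hg
  obtain ⟨M, Q, h1, h2⟩ := exists_hom a g
  refine ⟨M, Q, ?_, fun w _ _ hw => ?_⟩
  · rw [mem_rel]
    by_cases h0 : ph P u b (Sum.inl a) = 0
    · exact h2 L _ h0
    · rw [h1 L _ h0, nm_ph hdim u hb ha, mem_rel.1 hg, mul_zero]
  · rw [← aeval_eq_eval, ← aeval_eq_eval]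
    exact h1 ℂ w hw

theorem sgl_chg [IsScalarTower ℂ (FunField P) L] {n : ℕ} (hdim : ∃ z : Fin (n + 1) → FunField P, IsTranscendenceBasis ℂ z) (u : Derivation ℂ L L) {a b : Fin (N + 1)} (ha : X a ∉ P)
    (hb : X b ∉ P) (k : ℕ) : ∀ g ∈ sgl (rel (ph P u a)) k, ∃ (M : ℕ), ∃ Q ∈ sgl (rel (ph P u b)) k, ∀ w : Ph N → ℂ, w (Sum.inl b) = 1 →
      w (Sum.inr b) = 0 → w (Sum.inl a) ≠ 0 → eval w Q = w (Sum.inl a) ^ M * eval (nm a w) g := by
  intro g hg
  obtain ⟨M, Q, h1, h2⟩ := exists_hom a g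
  have h1' : ∀ w : Ph N → ℂ, w (Sum.inl a) ≠ 0 → eval w Q = w (Sum.inl a) ^ M * eval (nm a w) g := fun w hw => by
    rw [← aeval_eq_eval, ← aeval_eq_eval]
    exact h1 ℂ w hw
  refine ⟨M, Q, fun w hw hk => ?_, fun w _ _ hw => h1' w hw⟩
  by_cases h0 : w (Sum.inl a) = 0
  · rw [← aeval_eq_eval]
    exact h2 ℂ w h0
  · rw [h1' w h0, hg (nm a w) (pt_nm hdim u hb ha hw h0) (by rwa [finrank_nm hdim u hb ha hw h0]), mul_zero]

end Pool.Agent.GQ

end
end

section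

/-!
# GQ Val: the values of the section at the smooth points of the phase space
-/

set_option autoImplicit false

open MvPolynomial Topology Filter Metric
open Pool.Agent.H13.SM (conTan cone)
open Pool.Agent.H17 (PN VanishesAt)
open Pool.Agent.H17LG.Variety (FunField ratio PoleAtMost IsLogGeneralType)
open Pool.Agent.H23.Fano (Form PrimeDivisorOver)
open Pool.Agent.H62.FC (Homog)
open Pool.Agent.GG

noncomputable section

namespace Pool.Agent.GQ

variable {N : ℕ} {P : Ideal (MvPolynomial (Fin (N + 1)) ℂ)} {J : ℕ} {m : Fin J → ℕ} {θ : ∀ k, SymSec P (m k)}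

/-! ## the index sets -/

/-- the renaming of the variables -/
def rn (G : MvPolynomial (Fin ((N + 1) + (N + 1))) ℂ) : MvPolynomial (Ph N) ℂ := rename finSumFinEquiv.symm G

theorem eval_rn (w : Ph N → ℂ) (G : MvPolynomial (Fin ((N + 1) + (N + 1))) ℂ) : eval w (rn G) = eval (fr w) G := by
  rw [rn, eval_rename]
  rfl

theorem aeval_rn {A : Type} [CommRing A] [Algebra ℂ A] (w : Ph N → A) (G : MvPolynomial (Fin ((N + 1) + (N + 1))) ℂ) :
    aeval w (rn G) = aeval (fr w) G := by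
  rw [rn, aeval_rename]
  rfl

theorem fr_apply {A : Type} (p : Ph N → A) (s : Ph N) : fr p (finSumFinEquiv s) = p s := by
  rw [fr, Equiv.symm_apply_apply]

theorem sum_fr (f : Fin ((N + 1) + (N + 1)) → ℂ) : ∑ j, f j = ∑ s : Ph N, f (finSumFinEquiv s) :=
  (Equiv.sum_comp (finSumFinEquiv : Ph N ≃ Fin ((N + 1) + (N + 1))) f).symm

section Pts

variable {L : Type} [Field L] [Algebra ℂ L]

theorem isPt_fr {y : Ph N → L} {w : Ph N → ℂ} (hw : Pt (rel y) w) : Kd.IsPt (fr y) (fr w) := by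
  intro G hG
  rw [← eval_rn]
  exact hw _ (mem_rel.2 (by rw [aeval_rn, hG]))

theorem dpl_rn (w t : Ph N → ℂ) (G : MvPolynomial (Fin ((N + 1) + (N + 1))) ℂ) :
    ∑ j, eval (fr w) (pderiv j G) * fr t j = ∑ s, eval w (pderiv s (rn G)) * t s := by
  rw [sum_fr]
  refine Finset.sum_congr rfl fun s _ => ?_
  have h1 : pderiv s (rn G) = rn (pderiv (finSumFinEquiv s) G) := by
    have h2 := pderiv_rename (R := ℂ) (f := (finSumFinEquiv.symm : Fin ((N + 1) + (N + 1)) → Ph N)) finSumFinEquiv.symm.injective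
      (finSumFinEquiv s) G
    rw [Equiv.symm_apply_apply] at h2
    exact h2
  rw [h1, eval_rn, fr_apply]

theorem tan_fr {y : Ph N → L} {w t : Ph N → ℂ} (ht : t ∈ Tn (rel y) w) : fr t ∈ Kd.tan (fr y) (fr w) := by
  intro G hG
  rw [dpl_rn]
  exact ht _ (mem_rel.2 (by rw [aeval_rn, hG]))

theorem tan_of_fr {y : Ph N → L} {w t : Ph N → ℂ} (ht : fr t ∈ Kd.tan (fr y) (fr w)) : t ∈ Tn (rel y) w := by
  intro G hG
  have h1 : rn (rename finSumFinEquiv G) = G := by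
    rw [rn, rename_rename]
    have h2 : (finSumFinEquiv.symm ∘ finSumFinEquiv : Ph N → Ph N) = id := funext fun s => Equiv.symm_apply_apply _ _
    rw [h2, rename_id_apply]
  rw [← h1, ← dpl_rn]
  exact ht _ (by rw [← aeval_rn, h1, mem_rel.1 hG])

theorem finrank_fr (y : Ph N → L) (w : Ph N → ℂ) : Module.finrank ℂ (Kd.tan (fr y) (fr w)) = Module.finrank ℂ (Tn (rel y) w) := by
  let e : Tn (rel y) w ≃ₗ[ℂ] Kd.tan (fr y) (fr w) :=
    { toFun := fun t => ⟨fr (t : Ph N → ℂ), tan_fr t.2⟩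
      map_add' := fun _ _ => rfl
      map_smul' := fun _ _ => rfl
      invFun := fun t => ⟨fun s => (t : Fin ((N + 1) + (N + 1)) → ℂ) (finSumFinEquiv s), tan_of_fr (by
        have h1 : fr (fun s => (t : Fin ((N + 1) + (N + 1)) → ℂ) (finSumFinEquiv s)) = (t : Fin ((N + 1) + (N + 1)) → ℂ) :=
          funext fun i => by rw [fr, Equiv.apply_symm_apply]
        rw [h1]
        exact t.2)⟩
      left_inv := fun t => Subtype.ext (funext fun s => fr_apply _ s)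
      right_inv := fun t => Subtype.ext (funext fun i => by
        show (t : Fin ((N + 1) + (N + 1)) → ℂ) (finSumFinEquiv (finSumFinEquiv.symm i)) = _
        rw [Equiv.apply_symm_apply]) }
  exact e.finrank_eq.symm

omit [Field L] [Algebra ℂ L] in
theorem range_fr (y : Ph N → L) : Set.range (fr y) = Set.range y := by
  ext x
  constructor
  · rintro ⟨i, rfl⟩
    exact ⟨_, rfl⟩
  · rintro ⟨s, rfl⟩
    exact ⟨finSumFinEquiv s, fr_apply y s⟩

theorem ev_fr {A : Type} [CommRing A] [Algebra ℂ A] (y : Ph N → L) (w : Ph N → A) (s : Ph N) : Kd.Ev (fr y) (fr w) (y s) (w s) := by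
  have h1 := Kd.Ev.var (fr y) (fr w) (finSumFinEquiv s)
  rwa [fr_apply, fr_apply] at h1

end Pts

/-! ## the change of charts over a ring -/

/-- position and velocity of `x / x_b`, `uu` the inverse of `x_b` -/
def nmB {A : Type} [CommRing A] (b : Fin (N + 1)) (uu : A) (p : Ph N → A) : Ph N → A :=
  Sum.elim (fun i => p (Sum.inl i) * uu) fun i => p (Sum.inr i) * uu - p (Sum.inl i) * p (Sum.inr b) * (uu * uu)

theorem ev_nmB {L : Type} [Field L] [Algebra ℂ L] {A : Type} [CommRing A] [Algebra ℂ A] [Nontrivial A] {y : Ph N → L} {w : Ph N → A}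
    (hw : Kd.IsPtB (fr y) (fr w)) {b : Fin (N + 1)} {uu : A} (hu : w (Sum.inl b) * uu = 1) (s : Ph N) :
    Kd.Ev (fr y) (fr w) (nm b y s) (nmB b uu w s) := by
  rcases s with i | i
  · exact (ev_fr y w (Sum.inl i)).div hw (ev_fr y w (Sum.inl b)) hu
  · refine ((ev_fr y w (Sum.inr i)).div hw (ev_fr y w (Sum.inl b)) hu).sub ?_
    refine ((ev_fr y w (Sum.inl i)).mul (ev_fr y w (Sum.inr b))).div hw ((ev_fr y w (Sum.inl b)).pow 2) ?_
    calc w (Sum.inl b) ^ 2 * (uu * uu) = (w (Sum.inl b) * uu) * (w (Sum.inl b) * uu) := by ring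
      _ = 1 := by rw [hu, one_mul]

theorem nmB_eq {b : Fin (N + 1)} {w : Ph N → ℂ} (hb : w (Sum.inl b) ≠ 0) (s : Ph N) : nmB b (w (Sum.inl b))⁻¹ w s = nm b w s := by
  rcases s with i | i
  · show w (Sum.inl i) * (w (Sum.inl b))⁻¹ = w (Sum.inl i) / w (Sum.inl b)
    rw [div_eq_mul_inv]
  · show w (Sum.inr i) * (w (Sum.inl b))⁻¹ - w (Sum.inl i) * w (Sum.inr b) * ((w (Sum.inl b))⁻¹ * (w (Sum.inl b))⁻¹) =
      w (Sum.inr i) / w (Sum.inl b) - w (Sum.inl i) * w (Sum.inr b) / w (Sum.inl b) ^ 2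
    field_simp

/-- the dual number `w + ε t` -/
def dq (w t : Ph N → ℂ) (s : Ph N) : DualNumber ℂ := TrivSqZeroExt.inl (w s) + TrivSqZeroExt.inr (t s)

/-- the derivative of `nm` -/
theorem nmB_dq {b : Fin (N + 1)} {w : Ph N → ℂ} (hb : w (Sum.inl b) ≠ 0) (t : Ph N → ℂ) (s : Ph N) :
    nmB b (TrivSqZeroExt.inl (w (Sum.inl b))⁻¹ + TrivSqZeroExt.inr (-(t (Sum.inl b) / w (Sum.inl b) ^ 2)) : DualNumber ℂ) (dq w t) s =
      dq (nm b w) (fderiv ℂ (nm b) w t) s := by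
  have h0 : HasDerivAt (fun ε : ℂ => w + ε • t) t 0 := by
    have h1 := ((hasDerivAt_id (0 : ℂ)).smul_const t).const_add w
    rwa [one_smul] at h1
  have hw0 : w + (0 : ℂ) • t = w := by rw [zero_smul, add_zero]
  have h2 : HasFDerivAt (nm b : (Ph N → ℂ) → Ph N → ℂ) (fderiv ℂ (nm b) w) (w + (0 : ℂ) • t) := by
    rw [hw0]
    exact (nm_diff hb).hasFDerivAt
  have h3 := hasDerivAt_pi.1 (h2.comp_hasDerivAt (0 : ℂ) h0) s
  have hl : ∀ r : Ph N, HasDerivAt (fun ε : ℂ => w r + ε * t r) (t r) 0 := by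
    intro r
    have := ((hasDerivAt_id (0 : ℂ)).mul_const (t r)).const_add (w r)
    rwa [one_mul] at this
  have hb0 : w (Sum.inl b) + (0 : ℂ) * t (Sum.inl b) ≠ 0 := by rwa [zero_mul, add_zero]
  rcases s with i | i
  · have h4 : HasDerivAt (fun ε : ℂ => (w (Sum.inl i) + ε * t (Sum.inl i)) / (w (Sum.inl b) + ε * t (Sum.inl b)))
        ((t (Sum.inl i) * (w (Sum.inl b) + 0 * t (Sum.inl b)) - (w (Sum.inl i) + 0 * t (Sum.inl i)) * t (Sum.inl b)) /
          (w (Sum.inl b) + 0 * t (Sum.inl b)) ^ 2) 0 := (hl _).div (hl _) hb0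
    have h5 := h3.unique h4
    simp only [zero_mul, add_zero] at h5
    show (dq w t (Sum.inl i)) * (TrivSqZeroExt.inl (w (Sum.inl b))⁻¹ + TrivSqZeroExt.inr (-(t (Sum.inl b) / w (Sum.inl b) ^ 2)) : DualNumber ℂ) =
      TrivSqZeroExt.inl (nm b w (Sum.inl i)) + TrivSqZeroExt.inr (fderiv ℂ (nm b) w t (Sum.inl i))
    rw [h5]
    show (dq w t (Sum.inl i)) * (TrivSqZeroExt.inl (w (Sum.inl b))⁻¹ + TrivSqZeroExt.inr (-(t (Sum.inl b) / w (Sum.inl b) ^ 2)) : DualNumber ℂ) =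
      TrivSqZeroExt.inl (w (Sum.inl i) / w (Sum.inl b)) + TrivSqZeroExt.inr _
    ext
    · simp [dq, div_eq_mul_inv]
    · simp [dq, TrivSqZeroExt.snd_mul]
      field_simp
      ring
  · have h4 : HasDerivAt (fun ε : ℂ => (w (Sum.inr i) + ε * t (Sum.inr i)) / (w (Sum.inl b) + ε * t (Sum.inl b)) -
        (w (Sum.inl i) + ε * t (Sum.inl i)) * (w (Sum.inr b) + ε * t (Sum.inr b)) / (w (Sum.inl b) + ε * t (Sum.inl b)) ^ 2) _ 0 :=
      ((hl _).div (hl _) hb0).sub ((((hl _).mul (hl _))).div ((hl _).pow 2) (pow_ne_zero 2 hb0))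
    have h5 := h3.unique h4
    simp only [zero_mul, add_zero] at h5
    show (dq w t (Sum.inr i)) * (TrivSqZeroExt.inl (w (Sum.inl b))⁻¹ + TrivSqZeroExt.inr (-(t (Sum.inl b) / w (Sum.inl b) ^ 2)) : DualNumber ℂ) -
      (dq w t (Sum.inl i)) * (dq w t (Sum.inr b)) *
        ((TrivSqZeroExt.inl (w (Sum.inl b))⁻¹ + TrivSqZeroExt.inr (-(t (Sum.inl b) / w (Sum.inl b) ^ 2)) : DualNumber ℂ) *
          (TrivSqZeroExt.inl (w (Sum.inl b))⁻¹ + TrivSqZeroExt.inr (-(t (Sum.inl b) / w (Sum.inl b) ^ 2)) : DualNumber ℂ)) =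
      TrivSqZeroExt.inl (nm b w (Sum.inr i)) + TrivSqZeroExt.inr (fderiv ℂ (nm b) w t (Sum.inr i))
    rw [h5]
    show (dq w t (Sum.inr i)) * (TrivSqZeroExt.inl (w (Sum.inl b))⁻¹ + TrivSqZeroExt.inr (-(t (Sum.inl b) / w (Sum.inl b) ^ 2)) : DualNumber ℂ) -
      (dq w t (Sum.inl i)) * (dq w t (Sum.inr b)) *
        ((TrivSqZeroExt.inl (w (Sum.inl b))⁻¹ + TrivSqZeroExt.inr (-(t (Sum.inl b) / w (Sum.inl b) ^ 2)) : DualNumber ℂ) *
          (TrivSqZeroExt.inl (w (Sum.inl b))⁻¹ + TrivSqZeroExt.inr (-(t (Sum.inl b) / w (Sum.inl b) ^ 2)) : DualNumber ℂ)) =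
      TrivSqZeroExt.inl (w (Sum.inr i) / w (Sum.inl b) - w (Sum.inl i) * w (Sum.inr b) / w (Sum.inl b) ^ 2) + TrivSqZeroExt.inr _
    ext
    · simp [dq]
      field_simp
    · simp [dq, TrivSqZeroExt.snd_mul]
      field_simp
      ring

theorem dq_inv {b : Fin (N + 1)} {w : Ph N → ℂ} (hb : w (Sum.inl b) ≠ 0) (t : Ph N → ℂ) :
    dq w t (Sum.inl b) * (TrivSqZeroExt.inl (w (Sum.inl b))⁻¹ + TrivSqZeroExt.inr (-(t (Sum.inl b) / w (Sum.inl b) ^ 2)) : DualNumber ℂ) = 1 := by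
  ext
  · simp [dq, hb]
  · simp [dq, TrivSqZeroExt.snd_mul]
    field_simp
    ring

/-! ## the values -/

section Val

variable [P.IsPrime] {L : Type} [Field L] [Algebra ℂ L] [Algebra (FunField P) L] [IsScalarTower ℂ (FunField P) L]

variable {n M : ℕ} (hdim : ∃ z : Fin (n + 1) → FunField P, IsTranscendenceBasis ℂ z) {f : Frame θ} {u : Derivation ℂ L L} (hs : IsSol f u)
  (S : Sec P L (n + 1) M)

include hdim hs

/-- `Kd.Dat.compare` with `φ = 1`, as in `Kd.Plc.IsVal.unique`. -/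
theorem VL.unique {b : Fin (N + 1)} (hb : X b ∉ P) {w : Ph N → ℂ} (hw : Pt (rel (ph P u b)) w) {T : Fin (n + 1) → Ph N → ℂ}
    (hT : ∀ l, T l ∈ Tn (rel (ph P u b)) w) {s s' : ℂ} (h : S.VL u b w T s) (h' : S.VL u b w T s') : s = s' := by
  obtain ⟨d, W, c, hJ, hω, hc, rfl⟩ := h
  obtain ⟨d', W', c', hJ', hω', hc', rfl⟩ := h'
  have h1 := d.compare (isPt_fr hw) hJ d' (w' := fr w) (v := fun l => fr (T l)) (v' := fun l => fr (T l))
    (fun i => Kd.Ev.var _ _ i) (fun l => tan_fr (hT l)) (fun l i => Kd.Ev.var _ _ i) (H := S.h b) (H' := S.h b) (φ := 1) (by rw [one_mul])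
    (hω.symm.trans hω') hc hc' (Kd.Ev.one _ _)
  rw [one_mul] at h1
  exact h1

/-- `Kd.Dat.compare` with `φ = x_b / x_a`. -/
theorem VL.change {a b : Fin (N + 1)} (ha : X a ∉ P) (hb : X b ∉ P) {w : Ph N → ℂ} (hw : Pt (rel (ph P u a)) w) (hwb : w (Sum.inl b) ≠ 0)
    {T : Fin (n + 1) → Ph N → ℂ} (hT : ∀ l, T l ∈ Tn (rel (ph P u a)) w) {s s' : ℂ} (h : S.VL u a w T s)
    (h' : S.VL u b (nm b w) (fun l => fderiv ℂ (nm b) w (T l)) s') : s' = w (Sum.inl b) * s := by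
  obtain ⟨d, W, c, hJ, hω, hc, rfl⟩ := h
  obtain ⟨d', W', c', hJ', hω', hc', rfl⟩ := h'
  have hy : nm b (ph P u a) = ph P u b := nm_ph hdim u ha hb
  have hB : Kd.IsPtB (fr (ph P u a)) (fr w) := Kd.isPtB_iff.2 (isPt_fr hw)
  have h0 : ∀ i, Kd.Ev (fr (ph P u a)) (fr w) (fr (ph P u b) i) (fr (nm b w) i) := by
    intro i
    have h1 := ev_nmB hB (mul_inv_cancel₀ hwb) (finSumFinEquiv.symm i)
    rw [nmB_eq hwb, hy] at h1
    exact h1
  have h2 : ∀ l i, Kd.Ev (fr (ph P u a)) (Kd.dp (fr w) (fr (T l))) (fr (ph P u b) i) (Kd.dp (fr (nm b w)) (fr (fderiv ℂ (nm b) w (T l))) i) := by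
    intro l i
    have hB' : Kd.IsPtB (fr (ph P u a)) (fr (dq w (T l))) := Kd.isPtB_dp.2 ⟨isPt_fr hw, tan_fr (hT l)⟩
    have h1 := ev_nmB hB' (dq_inv hwb (T l)) (finSumFinEquiv.symm i)
    rw [nmB_dq hwb, hy] at h1
    exact h1
  exact (d.compare (isPt_fr hw) hJ d' h0 (fun l => tan_fr (hT l)) h2 (S.h_ch a b ha hb) (hω.symm.trans hω') hc hc'
    (ev_fr (ph P u a) w (Sum.inl b))).symm

/-- Near a smooth point the value is given by a formula (`Kd.exists_dat`, `Kd.exists_mk`, `Kd.Dat.reg`, as in `Kd.Plc.exists_rep`, `isVal_of_rep`). -/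
theorem VL.formula {b : Fin (N + 1)} (hb : X b ∉ P) {w₀ : Ph N → ℂ} (hw₀ : Pt (rel (ph P u b)) w₀)
    (hsm : Module.finrank ℂ (Tn (rel (ph P u b)) w₀) ≤ n + 1) :
    ∃ (g A : MvPolynomial (Ph N) ℂ) (l : Fin (n + 1) → Ph N → ℂ), eval w₀ g ≠ 0 ∧ ∀ w, Pt (rel (ph P u b)) w → eval w g ≠ 0 →
      ∀ T : Fin (n + 1) → Ph N → ℂ, S.VL u b w T (eval w A / eval w g * (Matrix.of fun i j => ∑ s, l j s * T i s).det ^ M) := by
  have hgen : IntermediateField.adjoin ℂ (Set.range (fr (ph P u b))) = ⊤ := by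
    rw [range_fr]
    exact hs.gen b hb
  have hK : ∃ z : Fin (n + 1) → L, IsTranscendenceBasis ℂ z := by
    obtain ⟨z, hz⟩ := hdim
    have := hs.alg
    exact ⟨_, hz.algebraMap_comp (A := L)⟩
  obtain ⟨d, hJ⟩ := Kd.exists_dat (fr (ph P u b)) hK hgen (w := fr w₀) (by rw [finrank_fr]; exact hsm)
  obtain ⟨W, hW⟩ := Kd.exists_mk d S.ω
  have h1 := d.reg hgen (M := M) (H := S.h b) (W := W) fun E _ => by
    rw [← hW]
    exact S.pole b hb E
  rw [Algebra.adjoin_range_eq_range_aeval] at h1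
  obtain ⟨A, hA⟩ := h1
  refine ⟨rn (d.J ^ (2 * (n + 1) * M + 1)), rn A, fun j s => d.L j (finSumFinEquiv s), ?_, ?_⟩
  · rw [eval_rn, map_pow]
    exact pow_ne_zero _ hJ
  · intro w hw hg T
    rw [eval_rn, map_pow] at hg
    have hJw : eval (fr w) d.J ≠ 0 := fun h => hg (by rw [h, zero_pow (Nat.succ_ne_zero _)])
    have hp := isPt_fr hw
    have hJy : aeval (fr (ph P u b)) d.J ≠ 0 := fun h => hJw (hp _ h)
    refine ⟨d, W, eval w (rn A) / eval w (rn (d.J ^ (2 * (n + 1) * M + 1))), hJw, hW, ?_, ?_⟩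
    · have e1 : S.h b * W ^ M = aeval (fr (ph P u b)) A / aeval (fr (ph P u b)) d.J ^ (2 * (n + 1) * M + 1) := by
        have hA' : aeval (fr (ph P u b)) A = aeval (fr (ph P u b)) d.J ^ (2 * (n + 1) * M + 1) * (S.h b * W ^ M) := hA
        rw [hA', mul_div_cancel_left₀ _ (pow_ne_zero _ hJy)]
      rw [e1]
      have h2 := Kd.Ev.poly (fr (ph P u b)) (fr w) A
      have h3 := (Kd.Ev.poly (fr (ph P u b)) (fr w) d.J).pow (2 * (n + 1) * M + 1)
      rw [MvPolynomial.aeval_eq_eval] at h2 h3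
      have h4 := h2.div (Kd.isPtB_iff.2 hp) h3 (mul_inv_cancel₀ hg)
      rw [← div_eq_mul_inv] at h4
      rw [eval_rn, eval_rn, map_pow]
      exact h4
    · congr 3
      ext i j
      rw [Matrix.of_apply, Matrix.of_apply, Kd.Dat.tau, sum_fr]
      exact Finset.sum_congr rfl fun s _ => by rw [fr_apply]

end Val

end Pool.Agent.GQ

end
end

section

/-!
# GQ Den: the values of the section are bounded, up to a power of an equation of the singular points
-/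

set_option autoImplicit false

open MvPolynomial Topology Filter Metric
open Pool.Agent.H13.SM (conTan cone)
open Pool.Agent.H17 (PN)
open Pool.Agent.H17LG.Variety (FunField ratio PoleAtMost IsLogGeneralType)
open Pool.Agent.H23.Fano (Form PrimeDivisorOver)
open Pool.Agent.H62.FC (Homog)
open Pool.Agent.GG

noncomputable section

namespace Pool.Agent.GQ

/-- the determinant of linear forms of vectors -/
private theorem den_det {σ : Type} [Fintype σ] {k : ℕ} (l : Fin k → σ → ℂ) :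
    ∃ C : ℝ, 0 ≤ C ∧ ∀ T : Fin k → σ → ℂ, ‖(Matrix.of fun i j => ∑ s, l j s * T i s).det‖ ≤ C * ∏ i, ‖T i‖ := by
  obtain ⟨Λ, hΛ⟩ : ∃ Λ : ℝ, Λ = ∑ j, ∑ s, ‖l j s‖ := ⟨_, rfl⟩
  have hΛ0 : 0 ≤ Λ := by rw [hΛ]; positivity
  have hent : ∀ (T : Fin k → σ → ℂ) (i j : Fin k), ‖∑ s, l j s * T i s‖ ≤ Λ * ‖T i‖ := by
    intro T i j
    calc ‖∑ s, l j s * T i s‖ ≤ ∑ s, ‖l j s * T i s‖ := norm_sum_le _ _
      _ ≤ ∑ s, ‖l j s‖ * ‖T i‖ := Finset.sum_le_sum fun s _ => by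
          rw [norm_mul]
          exact mul_le_mul_of_nonneg_left (norm_le_pi_norm (T i) s) (norm_nonneg _)
      _ = (∑ s, ‖l j s‖) * ‖T i‖ := by rw [Finset.sum_mul]
      _ ≤ Λ * ‖T i‖ := by
          refine mul_le_mul_of_nonneg_right ?_ (norm_nonneg _)
          rw [hΛ]
          exact Finset.single_le_sum (f := fun j => ∑ s, ‖l j s‖) (fun j _ => Finset.sum_nonneg fun s _ => norm_nonneg _) (Finset.mem_univ j)
  refine ⟨(Fintype.card (Equiv.Perm (Fin k)) : ℝ) * Λ ^ k, by positivity, fun T => ?_⟩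
  rw [Matrix.det_apply']
  refine (norm_sum_le _ _).trans ?_
  have h1 : ∀ σ' ∈ (Finset.univ : Finset (Equiv.Perm (Fin k))), ‖((Equiv.Perm.sign σ' : ℤ) : ℂ) * ∏ i, (Matrix.of fun i j => ∑ s, l j s * T i s) (σ' i) i‖ ≤
      Λ ^ k * ∏ i, ‖T i‖ := by
    intro σ' _
    rw [norm_mul]
    have h2 : ‖((Equiv.Perm.sign σ' : ℤ) : ℂ)‖ = 1 := by
      rcases Int.units_eq_one_or (Equiv.Perm.sign σ') with h | h <;> rw [h] <;> simp
    rw [h2, one_mul, norm_prod]
    calc ∏ i, ‖(Matrix.of fun i j => ∑ s, l j s * T i s) (σ' i) i‖ ≤ ∏ i, (Λ * ‖T (σ' i)‖) :=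
          Finset.prod_le_prod (fun i _ => norm_nonneg _) fun i _ => hent T (σ' i) i
      _ = Λ ^ k * ∏ i, ‖T i‖ := by
          rw [Finset.prod_mul_distrib, Finset.prod_const, Finset.card_univ, Fintype.card_fin, Equiv.prod_comp σ' fun i => ‖T i‖]
  refine (Finset.sum_le_sum h1).trans (le_of_eq ?_)
  rw [Finset.sum_const, Finset.card_univ, nsmul_eq_mul, mul_assoc]

/-- polynomials are bounded on compact sets -/
private theorem den_bdd {σ : Type} [Fintype σ] {K : Set (σ → ℂ)} (hK : IsCompact K) (A : MvPolynomial σ ℂ) :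
    ∃ C : ℝ, 0 ≤ C ∧ ∀ w ∈ K, ‖eval w A‖ ≤ C := by
  obtain ⟨C, hC⟩ := hK.exists_bound_of_continuousOn (f := fun w => eval w A) (MvPolynomial.continuous_eval A).continuousOn
  exact ⟨max C 0, le_max_right _ _, fun w hw => (hC w hw).trans (le_max_left _ _)⟩

variable {N : ℕ} {P : Ideal (MvPolynomial (Fin (N + 1)) ℂ)} {J : ℕ} {m : Fin J → ℕ} {θ : ∀ k, SymSec P (m k)}
variable [P.IsPrime] {L : Type} [Field L] [Algebra ℂ L] [Algebra (FunField P) L]

/-- the ideal of the functions `h` with `h s` bounded on `K` -/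
private def den {n M : ℕ} (S : Sec P L (n + 1) M) (u : Derivation ℂ L L) (b : Fin (N + 1)) {K : Set (Ph N → ℂ)} (hK : IsCompact K) :
    Ideal (MvPolynomial (Ph N) ℂ) where
  carrier := {h | ∃ C : ℝ, 0 ≤ C ∧ ∀ w ∈ K, Pt (rel (ph P u b)) w → ∀ T : Fin (n + 1) → Ph N → ℂ, (∀ l, T l ∈ Tn (rel (ph P u b)) w) →
    ∀ s, S.VL u b w T s → ‖eval w h‖ * ‖s‖ ≤ C * (∏ l, ‖T l‖) ^ M}
  add_mem' := by
    rintro h h' ⟨C, hC, h1⟩ ⟨C', hC', h2⟩
    refine ⟨C + C', add_nonneg hC hC', fun w hw hp T hT s hs => ?_⟩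
    rw [map_add, add_mul]
    exact (mul_le_mul_of_nonneg_right (norm_add_le _ _) (norm_nonneg _)).trans
      (by rw [add_mul]; exact add_le_add (h1 w hw hp T hT s hs) (h2 w hw hp T hT s hs))
  zero_mem' := by
    refine ⟨0, le_rfl, fun w _ _ T _ s _ => ?_⟩
    rw [map_zero, norm_zero, zero_mul, zero_mul]
  smul_mem' := by
    rintro c h ⟨C, hC, h1⟩
    obtain ⟨C', hC', h2⟩ := den_bdd hK c
    refine ⟨C' * C, mul_nonneg hC' hC, fun w hw hp T hT s hs => ?_⟩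
    rw [smul_eq_mul, map_mul, norm_mul, mul_assoc, mul_assoc]
    exact mul_le_mul (h2 w hw) (h1 w hw hp T hT s hs) (by positivity) hC'

variable [IsScalarTower ℂ (FunField P) L] {n M : ℕ} (hdim : ∃ z : Fin (n + 1) → FunField P, IsTranscendenceBasis ℂ z) {f : Frame θ}
  {u : Derivation ℂ L L} (hs : IsSol f u) (S : Sec P L (n + 1) M)

include hdim hs

/-- On a compact set, with the factor `g^e`, `g` in the ideal of the singular points. -/
theorem VL.bound (hM : 1 ≤ M) {b : Fin (N + 1)} (hb : X b ∉ P) {K : Set (Ph N → ℂ)} (hK : IsCompact K) {g : MvPolynomial (Ph N) ℂ}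
    (hg : g ∈ sgl (rel (ph P u b)) (n + 1)) : ∃ (e : ℕ) (C : ℝ), ∀ w ∈ K, Pt (rel (ph P u b)) w → Module.finrank ℂ (Tn (rel (ph P u b)) w) ≤ n + 1 →
      ∀ T : Fin (n + 1) → Ph N → ℂ, (∀ l, T l ∈ Tn (rel (ph P u b)) w) → ∀ s, S.VL u b w T s → ‖eval w g‖ ^ e * ‖s‖ ≤ C * (∏ l, ‖T l‖) ^ M := by
  have hrad : g ∈ (den S u b hK).radical := by
    rw [← MvPolynomial.vanishingIdeal_zeroLocus_eq_radical (K := ℂ) (den S u b hK), MvPolynomial.mem_vanishingIdeal_iff]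
    intro w₀ hw₀
    rw [MvPolynomial.aeval_eq_eval]
    have hval : ∀ h ∈ den S u b hK, eval w₀ h = 0 := by
      intro h hh
      have h1 := hw₀ h hh
      rwa [MvPolynomial.aeval_eq_eval] at h1
    -- a point of the variety
    have hpt : Pt (rel (ph P u b)) w₀ := by
      intro h hh
      refine hval h ⟨0, le_rfl, fun w _ hp T _ s _ => ?_⟩
      rw [hp h hh, norm_zero, zero_mul, zero_mul]
    refine hg w₀ hpt ?_
    by_contra hcon
    push Not at hcon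
    obtain ⟨g', A, l, hg', hA⟩ := VL.formula hdim hs S hb hpt hcon
    obtain ⟨C₁, hC₁, h1⟩ := den_det l
    obtain ⟨C₂, hC₂, h2⟩ := den_bdd hK A
    refine hg' (hval g' ⟨C₂ * C₁ ^ M, by positivity, fun w hw hp T hT s hs' => ?_⟩)
    by_cases h0 : eval w g' = 0
    · rw [h0, norm_zero, zero_mul]
      positivity
    · have h3 := VL.unique hdim hs S hb hp hT hs' (hA w hp h0 T)
      rw [h3, ← norm_mul, ← mul_assoc, mul_div_cancel₀ _ h0, norm_mul, norm_pow]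
      calc ‖eval w A‖ * ‖(Matrix.of fun i j => ∑ s, l j s * T i s).det‖ ^ M ≤ C₂ * (C₁ * ∏ i, ‖T i‖) ^ M :=
            mul_le_mul (h2 w hw) (pow_le_pow_left₀ (norm_nonneg _) (h1 T) M) (by positivity) hC₂
        _ = C₂ * C₁ ^ M * (∏ i, ‖T i‖) ^ M := by rw [mul_pow]; ring
  obtain ⟨e, C, hC, h⟩ := hrad
  refine ⟨e, C, fun w hw hp _ T hT s hs' => ?_⟩
  have h1 := h w hw hp T hT s hs'
  rwa [map_pow, norm_pow] at h1

end Pool.Agent.GQ

end
end

section

/-!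
# GQ Ent: the value of the section along the curve, divided by `x_a`, is an entire function

It exists by `VL.formula`, does not depend on the chart by `VL.change` (`psi Φ b = nm b ∘ psi Φ a`, chain rule), and near `z₀` it is given by `VL.formula` in one chart (`VL.unique`), so it is differentiable.
-/

set_option autoImplicit false

open MvPolynomial Topology Filter Metric
open Pool.Agent.H13.SM (conTan cone)
open Pool.Agent.H17 (PN VanishesAt)
open Pool.Agent.H17LG.Variety (FunField ratio PoleAtMost IsLogGeneralType)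
open Pool.Agent.H62.FC (Homog)
open Pool.Agent.GG

noncomputable section

namespace Pool.Agent.GQ

variable {N : ℕ} {P : Ideal (MvPolynomial (Fin (N + 1)) ℂ)} {J : ℕ} {m : Fin J → ℕ} {θ : ∀ k, SymSec P (m k)}

private theorem ent_rep {p : PN N} {x : Fin (N + 1) → ℂ} (h : ∃ h : x ≠ 0, p = Projectivization.mk ℂ x h) : ∃ c : ℂ, c ≠ 0 ∧ ∀ b, p.rep b = c * x b := by
  obtain ⟨h0, he⟩ := h
  obtain ⟨c, hc⟩ := Projectivization.exists_smul_eq_mk_rep ℂ x h0
  rw [← he] at hc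
  refine ⟨c, c.ne_zero, fun b => ?_⟩
  rw [← hc]
  rfl

private theorem ent_mem {n : ℕ} {Φ : ℂ × (Fin n → ℂ) → PN N} {z : ℂ} (hR : ∃ F, RepN P Φ F (z, 0)) {a : Fin (N + 1)} (ha : (Φ (z, 0)).rep a ≠ 0) :
    X a ∉ P := by
  intro h
  obtain ⟨F, hF⟩ := hR
  obtain ⟨hc, h0, he⟩ := hF.2.self_of_nhds
  obtain ⟨c, -, hb⟩ := ent_rep ⟨h0, he⟩
  apply ha
  have h1 := hc.2 (X a) h
  rw [eval_X] at h1
  rw [hb, h1, mul_zero]

private theorem ent_diff {b : Fin (N + 1)} {w : Ph N → ℂ} (h : w (Sum.inl b) ≠ 0) : DifferentiableAt ℂ (nm b : (Ph N → ℂ) → Ph N → ℂ) w := by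
  have h1 : ∀ s : Ph N, DifferentiableAt ℂ (fun p : Ph N → ℂ => p s) w := fun s => differentiableAt_apply s w
  rw [differentiableAt_pi]
  intro s
  rcases s with i | i
  · show DifferentiableAt ℂ (fun p : Ph N → ℂ => p (Sum.inl i) / p (Sum.inl b)) w
    simp only [div_eq_mul_inv]
    exact (h1 (Sum.inl i)).mul ((h1 (Sum.inl b)).inv h)
  · show DifferentiableAt ℂ (fun p : Ph N → ℂ => p (Sum.inr i) / p (Sum.inl b) - p (Sum.inl i) * p (Sum.inr b) / p (Sum.inl b) ^ 2) w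
    simp only [div_eq_mul_inv]
    exact ((h1 (Sum.inr i)).mul ((h1 (Sum.inl b)).inv h)).sub
      (((h1 (Sum.inl i)).mul (h1 (Sum.inr b))).mul (((h1 (Sum.inl b)).pow 2).inv (pow_ne_zero 2 h)))

/-- the derivatives of a map to the variety of `I` are tangent vectors -/
private theorem ent_tan {n : ℕ} {Ψ : ℂ × (Fin n → ℂ) → Ph N → ℂ} {p : ℂ × (Fin n → ℂ)} (hd : DifferentiableAt ℂ Ψ p) {I : Ideal (MvPolynomial (Ph N) ℂ)}
    (h : ∀ᶠ q in 𝓝 p, Pt I (Ψ q)) (v : ℂ × (Fin n → ℂ)) : fderiv ℂ Ψ p v ∈ Tn I (Ψ p) := by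
  intro g hg
  have h0 : p + (0 : ℂ) • v = p := by rw [zero_smul, add_zero]
  have h1 : HasDerivAt (fun t : ℂ => p + t • v) v 0 := by
    have h1 := ((hasDerivAt_id (0 : ℂ)).smul_const v).const_add p
    rwa [one_smul] at h1
  have h2 : HasDerivAt (fun t : ℂ => Ψ (p + t • v)) (fderiv ℂ Ψ p v) 0 :=
    HasFDerivAt.comp_hasDerivAt_of_eq (0 : ℂ) (f := fun t : ℂ => p + t • v) hd.hasFDerivAt h1 h0.symm
  have h3 := Chart_hasDerivAt g h2
  have h4 : (fun t : ℂ => eval (Ψ (p + t • v)) g) =ᶠ[𝓝 0] fun _ => 0 := by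
    have h5 : Tendsto (fun t : ℂ => p + t • v) (𝓝 0) (𝓝 p) := by
      have h6 := h1.continuousAt.tendsto
      rwa [h0] at h6
    filter_upwards [h5.eventually h] with t ht
    exact ht g hg
  have h5 := h3.unique ((hasDerivAt_const (0 : ℂ) (0 : ℂ)).congr_of_eventuallyEq h4)
  rw [h0] at h5
  rw [← h5]
  exact Finset.sum_congr rfl fun s _ => mul_comm _ _

/-- The value of the section along the curve, divided by `x_a`, is an entire function (it does not depend on the chart by `VL.change`; near `z₀` it is given by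
`VL.formula`). -/
theorem exists_W [P.IsPrime] {L : Type} [Field L] [Algebra ℂ L] [Algebra (FunField P) L] [IsScalarTower ℂ (FunField P) L] {n M : ℕ} (hP : Homog P)
    (hdim : ∃ z : Fin (n + 1) → FunField P, IsTranscendenceBasis ℂ z) {f : Frame θ} {u : Derivation ℂ L L} (hs : IsSol f u) (S : Sec P L (n + 1) M)
    {Φ : ℂ × (Fin n → ℂ) → PN N} (hR : ∀ z, ∃ F, RepN P Φ F (z, 0)) {G₀ : ℂ → Fin (N + 1) → ℂ} (hG₀ : Differentiable ℂ G₀)
    (hG₀' : ∀ z, ∃ h : G₀ z ≠ 0, Φ (z, 0) = Projectivization.mk ℂ (G₀ z) h)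
    (hpt : ∀ z a, (Φ (z, 0)).rep a ≠ 0 → ∀ᶠ p in 𝓝 (z, (0 : Fin n → ℂ)), Pt (rel (ph P u a)) (psi Φ a p))
    (hsm : ∀ z a, (Φ (z, 0)).rep a ≠ 0 → Module.finrank ℂ (Tn (rel (ph P u a)) (psi Φ a (z, 0))) ≤ n + 1) :
    ∃ W : ℂ → ℂ, Differentiable ℂ W ∧ ∀ z a, (Φ (z, 0)).rep a ≠ 0 → (∀ j, tvs Φ a z j ∈ Tn (rel (ph P u a)) (psi Φ a (z, 0))) ∧
      S.VL u a (psi Φ a (z, 0)) (tvs Φ a z) (W z * G₀ z a) := by
  classical
  have hmem : ∀ z a, (Φ (z, 0)).rep a ≠ 0 → X a ∉ P := fun z a ha => ent_mem (hR z) ha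
  have hrep : ∀ z, ∃ c : ℂ, c ≠ 0 ∧ ∀ b, (Φ (z, 0)).rep b = c * G₀ z b := fun z => ent_rep (hG₀' z)
  have hG0 : ∀ z a, (Φ (z, 0)).rep a ≠ 0 → G₀ z a ≠ 0 := by
    intro z a ha h
    obtain ⟨c, -, hc⟩ := hrep z
    exact ha (by rw [hc, h, mul_zero])
  have htan : ∀ z a, (Φ (z, 0)).rep a ≠ 0 → ∀ j, tvs Φ a z j ∈ Tn (rel (ph P u a)) (psi Φ a (z, 0)) := fun z a ha j =>
    ent_tan (psi_an (hR z) ha).differentiableAt (hpt z a ha) (dir n j)
  have hval : ∀ z a, (Φ (z, 0)).rep a ≠ 0 → ∃ s, S.VL u a (psi Φ a (z, 0)) (tvs Φ a z) s := by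
    intro z a ha
    obtain ⟨g, A, l, hg, h1⟩ := VL.formula hdim hs S (hmem z a ha) (hpt z a ha).self_of_nhds (hsm z a ha)
    exact ⟨_, h1 _ (hpt z a ha).self_of_nhds hg _⟩
  have hch : ∀ z, ∃ a, (Φ (z, 0)).rep a ≠ 0 := by
    intro z
    by_contra h
    push Not at h
    exact (Φ (z, 0)).rep_nonzero (funext h)
  choose a₀ ha₀ using hch
  choose s hs' using hval
  -- the comparison of two charts
  have hcomp : ∀ z a (ha : (Φ (z, 0)).rep a ≠ 0) b (hb : (Φ (z, 0)).rep b ≠ 0), s z b hb * G₀ z a = s z a ha * G₀ z b := by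
    intro z a ha b hb
    have h1 := psi_chg (P := P) (hR z) ha hb
    have h2 : psi Φ b =ᶠ[𝓝 (z, (0 : Fin n → ℂ))] fun p => nm b (psi Φ a p) := h1.mono fun p hp => hp.2.2
    have h3 : psi Φ b (z, 0) = nm b (psi Φ a (z, 0)) := h2.self_of_nhds
    have h4 : psi Φ a (z, 0) (Sum.inl b) = (Φ (z, 0)).rep b / (Φ (z, 0)).rep a := rfl
    have h5 : psi Φ a (z, 0) (Sum.inl b) ≠ 0 := by
      rw [h4]
      exact div_ne_zero hb ha
    have h6 : ∀ l, tvs Φ b z l = fderiv ℂ (nm b) (psi Φ a (z, 0)) (tvs Φ a z l) := by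
      intro l
      show fderiv ℂ (psi Φ b) (z, 0) (dir n l) = fderiv ℂ (nm b) (psi Φ a (z, 0)) (fderiv ℂ (psi Φ a) (z, 0) (dir n l))
      rw [h2.fderiv_eq, fderiv_fun_comp (z, (0 : Fin n → ℂ)) (ent_diff h5) (psi_an (hR z) ha).differentiableAt]
      rfl
    have h7 := hs' z b hb
    have h8 : tvs Φ b z = fun l => fderiv ℂ (nm b) (psi Φ a (z, 0)) (tvs Φ a z l) := funext h6
    rw [h3, h8] at h7
    have h9 := VL.change hdim hs S (hmem z a ha) (hmem z b hb) (hpt z a ha).self_of_nhds h5 (htan z a ha) (hs' z a ha) h7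
    obtain ⟨c, hc, hcb⟩ := hrep z
    have h10 : (Φ (z, 0)).rep b / (Φ (z, 0)).rep a = G₀ z b / G₀ z a := by
      rw [hcb, hcb]
      exact mul_div_mul_left _ _ hc
    rw [h9, h4, h10]
    have h11 := hG0 z a ha
    field_simp
  refine ⟨fun z => s z (a₀ z) (ha₀ z) / G₀ z (a₀ z), ?_, ?_⟩
  · intro z₀
    obtain ⟨a, haa⟩ : ∃ a, a = a₀ z₀ := ⟨_, rfl⟩
    have ha : (Φ (z₀, 0)).rep a ≠ 0 := by
      rw [haa]
      exact ha₀ z₀
    obtain ⟨g, A, l, hg, hform⟩ := VL.formula hdim hs S (hmem z₀ a ha) (hpt z₀ a ha).self_of_nhds (hsm z₀ a ha)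
    have hpa := psi_an (hR z₀) ha
    have hι : AnalyticAt ℂ (fun z : ℂ => (z, (0 : Fin n → ℂ))) z₀ := analyticAt_id.prod analyticAt_const
    have hw : AnalyticAt ℂ (fun z : ℂ => psi Φ a (z, 0)) z₀ := AnalyticAt.comp_of_eq (f := fun z : ℂ => (z, (0 : Fin n → ℂ))) hpa hι rfl
    have hT : ∀ j, DifferentiableAt ℂ (fun z : ℂ => tvs Φ a z j) z₀ := by
      intro j
      have h1 : AnalyticAt ℂ (fun z : ℂ => fderiv ℂ (psi Φ a) (z, 0)) z₀ :=
        AnalyticAt.comp_of_eq (f := fun z : ℂ => (z, (0 : Fin n → ℂ))) hpa.fderiv hι rfl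
      exact h1.differentiableAt.clm_apply (differentiableAt_const _)
    have hpoly : ∀ p : MvPolynomial (Ph N) ℂ, DifferentiableAt ℂ (fun z : ℂ => eval (psi Φ a (z, 0)) p) z₀ := fun p =>
      (Chart_hasDerivAt p hw.differentiableAt.hasDerivAt).differentiableAt
    have hG : DifferentiableAt ℂ (fun z => G₀ z a) z₀ := differentiableAt_pi.1 (hG₀ z₀) a
    have hdet : DifferentiableAt ℂ (fun z => (Matrix.of fun i j => ∑ s, l j s * tvs Φ a z i s).det) z₀ := by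
      simp only [Matrix.det_apply']
      refine DifferentiableAt.fun_sum fun σ _ => ?_
      refine (differentiableAt_const _).mul ?_
      refine DifferentiableAt.fun_finsetProd fun i _ => ?_
      show DifferentiableAt ℂ (fun z => ∑ s, l i s * tvs Φ a z (σ i) s) z₀
      refine DifferentiableAt.fun_sum fun s _ => ?_
      exact (differentiableAt_const _).mul (differentiableAt_pi.1 (hT _) s)
    have hmain : DifferentiableAt ℂ (fun z => eval (psi Φ a (z, 0)) A / eval (psi Φ a (z, 0)) g *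
        (Matrix.of fun i j => ∑ s, l j s * tvs Φ a z i s).det ^ M / G₀ z a) z₀ :=
      (((hpoly A).div (hpoly g) hg).mul (hdet.pow M)).div hG (hG0 z₀ a ha)
    refine hmain.congr_of_eventuallyEq ?_
    have e1 : ∀ᶠ z in 𝓝 z₀, (Φ (z, 0)).rep a ≠ 0 := by
      have h1 := psi_chg (P := P) (hR z₀) ha ha
      have h2 : Tendsto (fun z : ℂ => (z, (0 : Fin n → ℂ))) (𝓝 z₀) (𝓝 (z₀, 0)) := hι.continuousAt.tendsto
      exact (h2.eventually h1).mono fun z hz => hz.1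
    have e2 : ∀ᶠ z in 𝓝 z₀, eval (psi Φ a (z, 0)) g ≠ 0 := (hpoly g).continuousAt.eventually_ne hg
    filter_upwards [e1, e2] with z hz1 hz2
    have h1 := VL.unique hdim hs S (hmem z a hz1) (hpt z a hz1).self_of_nhds (htan z a hz1) (hs' z a hz1)
      (hform _ (hpt z a hz1).self_of_nhds hz2 (tvs Φ a z))
    rw [← h1, div_eq_div_iff (hG0 z _ (ha₀ z)) (hG0 z a hz1)]
    exact hcomp z a hz1 (a₀ z) (ha₀ z)
  · intro z a ha
    refine ⟨htan z a ha, ?_⟩
    have h1 : s z (a₀ z) (ha₀ z) / G₀ z (a₀ z) * G₀ z a = s z a ha := by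
      rw [div_mul_eq_mul_div, div_eq_iff (hG0 z _ (ha₀ z))]
      exact hcomp z a ha (a₀ z) (ha₀ z)
    show S.VL u a (psi Φ a (z, 0)) (tvs Φ a z) (s z (a₀ z) (ha₀ z) / G₀ z (a₀ z) * G₀ z a)
    rw [h1]
    exact hs' z a ha

end Pool.Agent.GQ

end
end

section

/-!
# GQ One: the one-variable end of the proof, singular case (helper92)

`f = Φ (·, 0)` has an entire lift `G₀` without zeros; `W z` = the value of the section divided by `G₀ z a` is entire (`exists_W`);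
`|W z| ‖G₀ z‖ ≤ C exp (C |z|)` (`VL.bound`, the lower bound of the generators of the singular ideal); the speed of `G₀` is bounded below.
-/

set_option autoImplicit false

open MvPolynomial Topology Filter Metric
open Pool.Agent.H13.SM (conTan cone Inv_hasFDerivAt_eval)
open Pool.Agent.H17 (PN VanishesAt)
open Pool.Agent.H17LG.Variety (FunField ratio PoleAtMost IsLogGeneralType)
open Pool.Agent.H23.Fano (Form PrimeDivisorOver)
open Pool.Agent.H62.FC (Homog)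
open Pool.Agent.GG

noncomputable section

namespace Pool.Agent.GQ

variable {N : ℕ} {P : Ideal (MvPolynomial (Fin (N + 1)) ℂ)} {J : ℕ} {m : Fin J → ℕ} {θ : ∀ k, SymSec P (m k)}

/-- two lifts of a map to projective space differ by a holomorphic factor -/
private theorem oneS_ratio {E : Type*} [NormedAddCommGroup E] [NormedSpace ℂ E] {Φ : E → PN N} {F G : E → Fin (N + 1) → ℂ} {q : E} (hF : AnalyticAt ℂ F q)
    (hF' : ∀ᶠ p in 𝓝 q, ∃ h : F p ≠ 0, Φ p = Projectivization.mk ℂ (F p) h) (hG : AnalyticAt ℂ G q)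
    (hG' : ∀ᶠ p in 𝓝 q, ∃ h : G p ≠ 0, Φ p = Projectivization.mk ℂ (G p) h) :
    ∃ h : E → ℂ, AnalyticAt ℂ h q ∧ h q ≠ 0 ∧ ∀ᶠ p in 𝓝 q, F p = h p • G p := by
  obtain ⟨hF0, hF1⟩ := hF'.self_of_nhds
  obtain ⟨hG0, hG1⟩ := hG'.self_of_nhds
  obtain ⟨b, hb⟩ : ∃ b, G q b ≠ 0 := by
    by_contra h
    push Not at h
    exact hG0 (funext h)
  have hFb : AnalyticAt ℂ (fun p => F p b) q := (analyticAt_pi_iff.1 hF) b
  have hGb : AnalyticAt ℂ (fun p => G p b) q := (analyticAt_pi_iff.1 hG) b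
  refine ⟨fun p => F p b / G p b, hFb.div hGb hb, ?_, ?_⟩
  · obtain ⟨c, hc, h⟩ := Pool.Agent.H17.mk_eq_mk_cross (hF1.symm.trans hG1)
    show F q b / G q b ≠ 0
    rw [h b]
    exact div_ne_zero (mul_ne_zero hc hb) hb
  · filter_upwards [hF', hG', hGb.continuousAt.eventually_ne hb] with p h1 h2 h3
    obtain ⟨h4, h5⟩ := h1
    obtain ⟨h6, h7⟩ := h2
    obtain ⟨c, hc, h⟩ := Pool.Agent.H17.mk_eq_mk_cross (h5.symm.trans h7)
    have h8 : F p b / G p b = c := by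
      rw [h b]
      field_simp
    funext j
    show F p j = (F p b / G p b) * G p j
    rw [h8, h j]

private theorem oneS_tan {F : ℂ → Fin (N + 1) → ℂ} {q : ℂ} (hF : DifferentiableAt ℂ F q) (hc : ∀ᶠ p in 𝓝 q, F p ∈ cone P) :
    deriv F q ∈ conTan P (F q) := by
  intro Q hQ
  have h1 := (Inv_hasFDerivAt_eval Q (F q)).comp q hF.hasFDerivAt
  have h2 : HasFDerivAt ((fun y : Fin (N + 1) → ℂ => eval y Q) ∘ F) (0 : ℂ →L[ℂ] ℂ) q := by
    refine (hasFDerivAt_const (0 : ℂ) q).congr_of_eventuallyEq ?_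
    filter_upwards [hc] with z hz
    exact hz.2 Q hQ
  have h3 := h1.unique h2
  have h4 := congrArg (fun L : ℂ →L[ℂ] ℂ => L 1) h3
  simp only [ContinuousLinearMap.comp_apply, sum_apply, FunLike.coe_smul, Pi.smul_apply, ContinuousLinearMap.proj_apply, smul_eq_mul, zero_apply] at h4
  rw [← h4]
  exact Finset.sum_congr rfl fun i _ => mul_comm _ _

private theorem oneS_theta (hP : Homog P) {k : ℕ} (σ : SymSec P k) {F G : ℂ → Fin (N + 1) → ℂ} {h : ℂ → ℂ} {z : ℂ} (hh : DifferentiableAt ℂ h z)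
    (h0 : h z ≠ 0) (hG : DifferentiableAt ℂ G z) (hc : ∀ᶠ p in 𝓝 z, G p ∈ cone P) (he : ∀ᶠ p in 𝓝 z, F p = h p • G p) :
    σ.toFun (F z) (deriv F z) = σ.toFun (G z) (deriv G z) := by
  have hx : G z ∈ cone P := hc.self_of_nhds
  have hx' : h z • G z ∈ cone P := Pool.Agent.AD.G.cone_smulC hP hx h0
  have hv : deriv G z ∈ conTan P (G z) := oneS_tan hG hc
  have h1 : deriv F z = h z • deriv G z + ((h z)⁻¹ * deriv h z) • (h z • G z) := by
    have h2 : deriv F z = h z • deriv G z + (deriv h z) • G z := by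
      have h3 : F =ᶠ[𝓝 z] fun p => h p • G p := he
      rw [h3.deriv_eq]
      exact (hh.hasDerivAt.smul hG.hasDerivAt).deriv
    rw [h2, smul_smul ((h z)⁻¹ * deriv h z)]
    congr 2
    field_simp
  rw [he.self_of_nhds, h1, σ.add_smul _ hx' _ (Pool.Agent.AD.G.conTan_smulC hP hv _), σ.scale _ hx _ hv _ h0]

private theorem oneS_norm_le (x : Fin (N + 1) → ℂ) : ‖(WithLp.toLp 2 x : Pool.Agent.H36.BP.EN N)‖ ^ 2 ≤ (N + 1) * ‖x‖ ^ 2 := by
  rw [EuclideanSpace.norm_sq_eq]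
  calc ∑ i, ‖(WithLp.toLp 2 x : Pool.Agent.H36.BP.EN N) i‖ ^ 2 ≤ ∑ _i : Fin (N + 1), ‖x‖ ^ 2 :=
        Finset.sum_le_sum fun i _ => pow_le_pow_left₀ (norm_nonneg _) (norm_le_pi_norm x i) 2
    _ = (N + 1) * ‖x‖ ^ 2 := by simp

/-- comparison of the lengths -/
private theorem oneS_fs (x v : Fin (N + 1) → ℂ) (hx : x ≠ 0) :
    wl x v / (N + 1) ≤ Pool.Agent.H36.BP.fs (N := N) (WithLp.toLp 2 x) (WithLp.toLp 2 v) := by
  have hxn : 0 < ‖x‖ := norm_pos_iff.2 hx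
  have hN : (0 : ℝ) < N + 1 := by positivity
  have hx2 : 0 < ‖(WithLp.toLp 2 x : Pool.Agent.H36.BP.EN N)‖ := by
    rw [norm_pos_iff]
    intro h
    apply hx
    funext i
    have := congrArg (fun y : Pool.Agent.H36.BP.EN N => y i) h
    simpa using this
  have h1 : ‖fun p : Fin (N + 1) × Fin (N + 1) => x p.1 * v p.2 - x p.2 * v p.1‖ ≤
      Pool.Agent.H36.BP.wd (WithLp.toLp 2 x : Pool.Agent.H36.BP.EN N) (WithLp.toLp 2 v) := by
    rw [pi_norm_le_iff_of_nonneg (Pool.Agent.H36.BP.wd_nonneg _ _)]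
    intro p
    by_cases hp : p.1 = p.2
    · rw [hp, sub_self, norm_zero]
      exact Pool.Agent.H36.BP.wd_nonneg _ _
    · have h2 := Pool.Agent.H36.BP.gram_proj (a := (EuclideanSpace.single p.1 (1 : ℂ) : Pool.Agent.H36.BP.EN N))
        (b := (EuclideanSpace.single p.2 (1 : ℂ) : Pool.Agent.H36.BP.EN N)) (by simp) (by simp)
        (by rw [EuclideanSpace.inner_single_left]; simp [hp]) (WithLp.toLp 2 x) (WithLp.toLp 2 v)
      simpa [EuclideanSpace.inner_single_left] using h2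
  have h3 := oneS_norm_le x
  unfold wl Pool.Agent.H36.BP.fs
  rw [div_div, mul_comm (‖x‖ ^ 2)]
  exact (div_le_div_of_nonneg_left (norm_nonneg _) (by positivity) h3).trans (div_le_div_of_nonneg_right h1 (by positivity))

/-- `|t| ^ e * σ ≤ B`, `t` not small -/
private theorem oneS_div {t σ B x : ℝ} {e E : ℕ} (hσ : 0 ≤ σ) (hx : 0 ≤ x) (he : e ≤ E) (ht : Real.exp (-x) ≤ t) (h : t ^ e * σ ≤ B) : σ ≤ B * Real.exp (E * x) := by
  have h1 : Real.exp (-(e * x)) ≤ t ^ e := by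
    calc Real.exp (-(e * x)) = Real.exp (-x) ^ e := by rw [← Real.exp_nat_mul]; congr 1; ring
      _ ≤ t ^ e := pow_le_pow_left₀ (Real.exp_pos _).le ht e
  have h2 : Real.exp (-(e * x)) * σ ≤ B := (mul_le_mul_of_nonneg_right h1 hσ).trans h
  have hB : 0 ≤ B := le_trans (by positivity) h2
  calc σ = Real.exp (e * x) * (Real.exp (-(e * x)) * σ) := by rw [← mul_assoc, ← Real.exp_add]; simp
    _ ≤ Real.exp (e * x) * B := mul_le_mul_of_nonneg_left h2 (Real.exp_pos _).le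
    _ ≤ Real.exp (E * x) * B := mul_le_mul_of_nonneg_right (Real.exp_le_exp.2 (mul_le_mul_of_nonneg_right (Nat.cast_le.2 he) hx)) hB
    _ = B * Real.exp (E * x) := mul_comm _ _

/-- **The value of the section is zero along the curve.** -/
theorem one_sing [P.IsPrime] {L : Type} [Field L] [Algebra ℂ L] [Algebra (FunField P) L] [IsScalarTower ℂ (FunField P) L] {n M : ℕ} (hP : Homog P)
    (hθ : Polar θ) (hm : ∀ k, 1 ≤ m k) (hdim : ∃ z : Fin (n + 1) → FunField P, IsTranscendenceBasis ℂ z) {f : Frame θ} {u : Derivation ℂ L L}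
    (hs : IsSol f u) (hM : 1 ≤ M) (S : Sec P L (n + 1) M) {Φ : ℂ × (Fin n → ℂ) → PN N} {c : Fin J → ℂ} (hc : c ≠ 0)
    (hΦ : ∀ z, ArcAt θ c (fun w => Φ (w, 0)) z) (hR : ∀ z, ∃ F, RepN P Φ F (z, 0))
    (hpt : ∀ z a, (Φ (z, 0)).rep a ≠ 0 → ∀ᶠ p in 𝓝 (z, (0 : Fin n → ℂ)), Pt (rel (ph P u a)) (psi Φ a p))
    {s : Fin (N + 1) → ℕ} (q : ∀ a, Fin (s a) → MvPolynomial (Ph N) ℂ) (hq : ∀ a, Ideal.span (Set.range (q a)) = sgl (rel (ph P u a)) (n + 1))
    (hlow : ∃ C > 0, ∀ (z : ℂ) (a : Fin (N + 1)), Gd (fun w => Φ (w, 0)) a z → ∃ j, Real.exp (-(C * (‖z‖ + 1))) ≤ ‖eval (psi Φ a (z, 0)) (q a j)‖)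
    (htan : ∃ C : ℝ, ∀ z, ∃ a, Gd (fun w => Φ (w, 0)) a z ∧ ∀ j, ‖tvs Φ a z j‖ ≤ C * Real.exp (C * ‖z‖))
    {a : Fin (N + 1)} (ha : (Φ (0, 0)).rep a ≠ 0) {v : ℂ} (hv : S.VL u a (psi Φ a (0, 0)) (tvs Φ a 0) v) : v = 0 := by
  obtain ⟨C₁, hC₁, hlow⟩ := hlow
  obtain ⟨C₂, htan⟩ := htan
  -- the entire lift
  have hf : Pool.Agent.H17.HolomorphicInto (fun w => Φ (w, 0)) Set.univ := by
    intro z _
    obtain ⟨F, hF, hR, -⟩ := hΦ z
    exact ⟨F, hF, hR⟩
  obtain ⟨x, hx⟩ := Pool.Agent.H17.exists_global_lift hf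
  obtain ⟨G₀, hG₀⟩ : ∃ G₀ : ℂ → Fin (N + 1) → ℂ, G₀ = fun z j => (x j : ℂ → ℂ) z := ⟨_, rfl⟩
  have hG₀d : Differentiable ℂ G₀ := by
    rw [hG₀]
    exact differentiable_pi.2 fun j => (x j).diff
  have hG₀l : ∀ z, ∃ h : G₀ z ≠ 0, Φ (z, 0) = Projectivization.mk ℂ (G₀ z) h := by
    rw [hG₀]
    exact hx
  have hcone : ∀ z, G₀ z ∈ cone P := fun z => by
    obtain ⟨F, hF⟩ := hR z
    obtain ⟨h1, h2, h3⟩ := hF.2.self_of_nhds
    obtain ⟨h4, h5⟩ := hG₀l z
    obtain ⟨c', hc', h6⟩ := Pool.Agent.H17.mk_eq_mk_cross (h5.symm.trans h3)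
    have h7 : G₀ z = c' • F (z, 0) := funext h6
    rw [h7]
    exact Pool.Agent.AD.G.cone_smulC hP h1 hc'
  have hth : ∀ z k, (θ k).toFun (G₀ z) (deriv G₀ z) = c k := fun z k => by
    obtain ⟨F, hF, hR, hc⟩ := hΦ z
    obtain ⟨g, hg, hg0, hge⟩ := oneS_ratio (Φ := fun w => Φ (w, 0)) (hG₀d.analyticAt z) (Eventually.of_forall hG₀l) hF hR
    rw [oneS_theta hP (θ k) hg.differentiableAt hg0 hF.differentiableAt (hc.mono fun w hw => hw.1) hge]
    exact hc.self_of_nhds.2 k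
  -- the point is smooth
  have hex : ∀ z, ∃ a', Gd (fun w => Φ (w, 0)) a' z := fun z => ⟨_, (htan z).choose_spec.1⟩
  have hrep0 : ∀ z a', Gd (fun w => Φ (w, 0)) a' z → (Φ (z, 0)).rep a' ≠ 0 := by
    intro z a' h h0
    apply (Φ (z, 0)).rep_nonzero
    funext b
    have h1 := h b
    simp only [h0, norm_zero] at h1
    exact norm_le_zero_iff.1 h1
  have hsmG : ∀ z a', Gd (fun w => Φ (w, 0)) a' z → Module.finrank ℂ (Tn (rel (ph P u a')) (psi Φ a' (z, 0))) ≤ n + 1 := by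
    intro z a' h
    by_contra hcon
    rw [not_le] at hcon
    obtain ⟨j, hj⟩ := hlow z a' h
    have h1 : q a' j ∈ sgl (rel (ph P u a')) (n + 1) := by
      rw [← hq a']
      exact Ideal.subset_span ⟨j, rfl⟩
    have h2 := h1 (psi Φ a' (z, 0)) (hpt z a' (hrep0 z a' h)).self_of_nhds hcon
    rw [h2, norm_zero] at hj
    exact absurd hj (not_le.2 (Real.exp_pos _))
  have hXa : ∀ z a', (Φ (z, 0)).rep a' ≠ 0 → X a' ∉ P := fun z a' h => (ps_arc hP (hΦ z) h).2.2.1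
  have hsm : ∀ z a', (Φ (z, 0)).rep a' ≠ 0 → Module.finrank ℂ (Tn (rel (ph P u a')) (psi Φ a' (z, 0))) ≤ n + 1 := by
    intro z a' h
    obtain ⟨b, hb⟩ := hex z
    have hb0 := hrep0 z b hb
    have h1 := (psi_chg (hR z) hb0 h).self_of_nhds
    have h2 : psi Φ b (z, 0) (Sum.inl a') ≠ 0 := by
      show (Φ (z, 0)).rep a' / (Φ (z, 0)).rep b ≠ 0
      exact div_ne_zero h hb0
    rw [h1.2.2, finrank_nm hdim u (hXa z b hb0) (hXa z a' h) (hpt z b hb0).self_of_nhds h2]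
    exact hsmG z b hb
  obtain ⟨W, hWd, hW⟩ := exists_W hP hdim hs S hR hG₀d hG₀l hpt hsm
  -- the bound
  have hbd : ∀ a' : Fin (N + 1), ∃ (e : Fin (s a') → ℕ) (Cb : Fin (s a') → ℝ), X a' ∉ P → ∀ j, ∀ w ∈ Kset θ a' {c}, Pt (rel (ph P u a')) w →
      Module.finrank ℂ (Tn (rel (ph P u a')) w) ≤ n + 1 → ∀ T : Fin (n + 1) → Ph N → ℂ, (∀ l, T l ∈ Tn (rel (ph P u a')) w) → ∀ s', S.VL u a' w T s' →
        ‖eval w (q a' j)‖ ^ e j * ‖s'‖ ≤ Cb j * (∏ l, ‖T l‖) ^ M := by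
    intro a'
    by_cases hX : X a' ∈ P
    · exact ⟨fun _ => 0, fun _ => 0, fun h => absurd hX h⟩
    · have h1 : ∀ j, ∃ (e : ℕ) (C : ℝ), ∀ w ∈ Kset θ a' {c}, Pt (rel (ph P u a')) w → Module.finrank ℂ (Tn (rel (ph P u a')) w) ≤ n + 1 →
          ∀ T : Fin (n + 1) → Ph N → ℂ, (∀ l, T l ∈ Tn (rel (ph P u a')) w) → ∀ s', S.VL u a' w T s' → ‖eval w (q a' j)‖ ^ e * ‖s'‖ ≤ C * (∏ l, ‖T l‖) ^ M := by
        intro j
        refine VL.bound hdim hs S hM hX (isCompact_Kset hθ hm a' isCompact_singleton) ?_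
        rw [← hq a']
        exact Ideal.subset_span ⟨j, rfl⟩
      choose e Cb h2 using h1
      exact ⟨e, Cb, fun _ => h2⟩
  choose e Cb hbd using hbd
  obtain ⟨c₁, hc₁, C₃, hw⟩ := wl_bounds hP hθ hm hc
  obtain ⟨E, hE⟩ : ∃ E : ℕ, E = ∑ a', ∑ j, e a' j := ⟨_, rfl⟩
  obtain ⟨D, hD⟩ : ∃ D : ℝ, D = ∑ a', ∑ j, |Cb a' j| := ⟨_, rfl⟩
  have heE : ∀ a' j, e a' j ≤ E := by
    intro a' j
    rw [hE]
    exact (Finset.single_le_sum (f := fun j => e a' j) (fun _ _ => Nat.zero_le _) (Finset.mem_univ j)).trans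
      (Finset.single_le_sum (f := fun a' => ∑ j, e a' j) (fun _ _ => Nat.zero_le _) (Finset.mem_univ a'))
  have hDD : ∀ a' j, Cb a' j ≤ D := by
    intro a' j
    rw [hD]
    exact (le_abs_self _).trans ((Finset.single_le_sum (f := fun j => |Cb a' j|) (fun _ _ => abs_nonneg _) (Finset.mem_univ j)).trans
      (Finset.single_le_sum (f := fun a' => ∑ j, |Cb a' j|) (fun _ _ => Finset.sum_nonneg fun _ _ => abs_nonneg _) (Finset.mem_univ a')))
  have hD0 : 0 ≤ D := by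
    rw [hD]
    exact Finset.sum_nonneg fun _ _ => Finset.sum_nonneg fun _ _ => abs_nonneg _
  obtain ⟨B, hB⟩ : ∃ B, B = max C₂ 1 := ⟨_, rfl⟩
  have hB1 : 1 ≤ B := by rw [hB]; exact le_max_right _ _
  have hB2 : C₂ ≤ B := by rw [hB]; exact le_max_left _ _
  have key : ∀ z, ‖W z‖ * ‖G₀ z‖ ≤ D * (B ^ (n + 1)) ^ M * Real.exp (E * C₁) * Real.exp ((M * ((n + 1) * B) + E * C₁) * ‖z‖) := by
    intro z
    obtain ⟨a', ha', ht⟩ := htan z
    have ha0 := hrep0 z a' ha'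
    obtain ⟨j, hj⟩ := hlow z a' ha'
    obtain ⟨hT, hVL⟩ := hW z a' ha0
    obtain ⟨-, -, hX, hIT, -⟩ := ps_arc hP (hΦ z) ha0
    have hK : psi Φ a' (z, 0) ∈ Kset θ a' {c} := by
      refine ⟨_, _, c, rfl, hIT, fun b => ?_, rfl⟩
      show ‖(Φ (z, 0)).rep b / (Φ (z, 0)).rep a'‖ ≤ 1
      rw [norm_div]
      exact div_le_one_of_le₀ (ha' b) (norm_nonneg _)
    have h1 := hbd a' hX j _ hK (hpt z a' ha0).self_of_nhds (hsm z a' ha0) _ hT _ hVL
    have h2 : ‖G₀ z‖ = ‖G₀ z a'‖ := by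
      refine le_antisymm ?_ (norm_le_pi_norm _ _)
      rw [pi_norm_le_iff_of_nonneg (norm_nonneg _)]
      intro b
      obtain ⟨h3, h4⟩ := hG₀l z
      obtain ⟨c', hc', h5⟩ := Pool.Agent.H17.mk_eq_mk_cross (v := G₀ z) (w := (Φ (z, 0)).rep) (hv := h3) (hw := (Φ (z, 0)).rep_nonzero)
        (h4.symm.trans (Φ (z, 0)).mk_rep.symm)
      rw [h5 b, h5 a', norm_mul, norm_mul]
      exact mul_le_mul_of_nonneg_left (ha' b) (norm_nonneg _)
    have h3 : (∏ l, ‖tvs Φ a' z l‖) ^ M ≤ (B ^ (n + 1)) ^ M * Real.exp (M * ((n + 1) * B) * ‖z‖) := by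
      have hexp : C₂ * Real.exp (C₂ * ‖z‖) ≤ B * Real.exp (B * ‖z‖) := by
        have h6 : Real.exp (C₂ * ‖z‖) ≤ Real.exp (B * ‖z‖) := Real.exp_le_exp.2 (mul_le_mul_of_nonneg_right hB2 (norm_nonneg z))
        calc C₂ * Real.exp (C₂ * ‖z‖) ≤ B * Real.exp (C₂ * ‖z‖) := mul_le_mul_of_nonneg_right hB2 (Real.exp_pos _).le
          _ ≤ B * Real.exp (B * ‖z‖) := mul_le_mul_of_nonneg_left h6 (by linarith)
      calc (∏ l, ‖tvs Φ a' z l‖) ^ M ≤ ((B * Real.exp (B * ‖z‖)) ^ (n + 1)) ^ M := by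
            refine pow_le_pow_left₀ (Finset.prod_nonneg fun _ _ => norm_nonneg _) ?_ M
            calc ∏ l, ‖tvs Φ a' z l‖ ≤ ∏ _l : Fin (n + 1), (B * Real.exp (B * ‖z‖)) :=
                  Finset.prod_le_prod (fun _ _ => norm_nonneg _) fun l _ => (ht l).trans hexp
              _ = (B * Real.exp (B * ‖z‖)) ^ (n + 1) := by simp
        _ = (B ^ (n + 1)) ^ M * Real.exp (M * ((n + 1) * B) * ‖z‖) := by
            rw [mul_pow, mul_pow, ← Real.exp_nat_mul, ← Real.exp_nat_mul]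
            congr 2
            push_cast
            ring
    have h4 : ‖eval (psi Φ a' (z, 0)) (q a' j)‖ ^ e a' j * ‖W z * G₀ z a'‖ ≤ D * ((B ^ (n + 1)) ^ M * Real.exp (M * ((n + 1) * B) * ‖z‖)) := by
      refine h1.trans ((mul_le_mul_of_nonneg_right (hDD a' j) (pow_nonneg (Finset.prod_nonneg fun _ _ => norm_nonneg _) M)).trans ?_)
      exact mul_le_mul_of_nonneg_left h3 hD0
    have h5 := oneS_div (norm_nonneg _) (mul_nonneg hC₁.le (by positivity)) (heE a' j) hj h4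
    rw [norm_mul, ← h2] at h5
    refine h5.trans (le_of_eq ?_)
    rw [show (M * ((n + 1) * B) + E * C₁) * ‖z‖ = M * ((n + 1) * B) * ‖z‖ + E * C₁ * ‖z‖ by ring,
      show (E : ℝ) * (C₁ * (‖z‖ + 1)) = E * C₁ * ‖z‖ + E * C₁ by ring, Real.exp_add, Real.exp_add]
    ring
  have hW0 : W 0 = 0 := by
    by_contra hne
    have hN : (0 : ℝ) < N + 1 := by positivity
    obtain ⟨A, hA⟩ : ∃ A : ℝ, A = (D * (B ^ (n + 1)) ^ M * Real.exp (E * C₁)) * (N + 1) := ⟨_, rfl⟩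
    obtain ⟨A', hA'⟩ : ∃ A' : ℝ, A' = M * ((n + 1) * B) + E * C₁ := ⟨_, rfl⟩
    have hA0 : 0 ≤ A := by
      rw [hA]
      have := pow_nonneg (pow_nonneg (zero_le_one.trans hB1) (n + 1)) M
      positivity
    refine growth_contra (F := fun z => (WithLp.toLp 2 (G₀ z) : Pool.Agent.H36.BP.EN N)) (w := W) (j := 1) (c := c₁ / (N + 1)) (C := max A A')
      ?_ ?_ hWd hne le_rfl (div_pos hc₁ hN) ?_ ?_
    · exact (PiLp.continuousLinearEquiv 2 ℂ (fun _ : Fin (N + 1) => ℂ)).symm.differentiable.comp hG₀d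
    · intro z h
      apply (hG₀l z).1
      funext i
      have := congrArg (fun y : Pool.Agent.H36.BP.EN N => y i) h
      simpa using this
    · intro z
      have h4 : deriv (fun z => (WithLp.toLp 2 (G₀ z) : Pool.Agent.H36.BP.EN N)) z = WithLp.toLp 2 (deriv G₀ z) := by
        have h5 : HasDerivAt G₀ (deriv G₀ z) z := (hG₀d z).hasDerivAt
        exact (((PiLp.continuousLinearEquiv 2 ℂ (fun _ : Fin (N + 1) => ℂ)).symm :
          (Fin (N + 1) → ℂ) →L[ℂ] Pool.Agent.H36.BP.EN N).hasFDerivAt.comp_hasDerivAt z h5).deriv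
      rw [h4]
      refine le_trans ?_ (oneS_fs (G₀ z) (deriv G₀ z) (hG₀l z).1)
      exact div_le_div_of_nonneg_right (hw (G₀ z) (hcone z) (deriv G₀ z) (oneS_tan (hG₀d z) (Eventually.of_forall hcone)) (hth z)).1 hN.le
    · intro z
      have h8 : ‖(WithLp.toLp 2 (G₀ z) : Pool.Agent.H36.BP.EN N)‖ ≤ (N + 1) * ‖G₀ z‖ := by
        have h9 := oneS_norm_le (G₀ z)
        have h10 : (N + 1 : ℝ) * ‖G₀ z‖ ^ 2 ≤ ((N + 1) * ‖G₀ z‖) ^ 2 := by
          rw [mul_pow]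
          refine mul_le_mul_of_nonneg_right ?_ (by positivity)
          have h11 : (1 : ℝ) ≤ N + 1 := by
            have := Nat.cast_nonneg (α := ℝ) N
            linarith
          nlinarith
        exact le_of_sq_le_sq (h9.trans h10) (by positivity)
      calc ‖W z‖ * ‖(WithLp.toLp 2 (G₀ z) : Pool.Agent.H36.BP.EN N)‖ ^ 1 ≤ ‖W z‖ * ((N + 1) * ‖G₀ z‖) := by
            rw [pow_one]
            exact mul_le_mul_of_nonneg_left h8 (norm_nonneg _)
        _ = (‖W z‖ * ‖G₀ z‖) * (N + 1) := by ring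
        _ ≤ (D * (B ^ (n + 1)) ^ M * Real.exp (E * C₁) * Real.exp (A' * ‖z‖)) * (N + 1) := by
            rw [hA']
            exact mul_le_mul_of_nonneg_right (key z) hN.le
        _ = A * Real.exp (A' * ‖z‖) := by rw [hA]; ring
        _ ≤ max A A' * Real.exp (max A A' * ‖z‖) := by
            refine mul_le_mul (le_max_left _ _) (Real.exp_le_exp.2 (mul_le_mul_of_nonneg_right (le_max_right _ _) (norm_nonneg z))) (Real.exp_pos _).le
              (hA0.trans (le_max_left _ _))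
  obtain ⟨hT, hVL⟩ := hW 0 a ha
  rw [hW0, zero_mul] at hVL
  exact VL.unique hdim hs S (hXa 0 a ha) (hpt 0 a ha).self_of_nhds hT hv hVL

end Pool.Agent.GQ

end
end

section

/-!
# GQ Vne: the value of the section is not `0` at a general point

`exists_smooth` gives a smooth point `w₀` of the variety with the generic point `y = ph P u b`; `Kd.exists_dat` at `w₀`, `ω = W dt`, `J^e (h b W^M) = aeval y A` (`Kd.Dat.reg`); `Δ = J A`.  At the points with
`Δ ≠ 0` the value computed with these coordinates is `A / J^e det ^ M ≠ 0` (`Kd.Dat.det_ne`), and it is the value by `VL.unique`.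
-/

set_option autoImplicit false

open MvPolynomial Topology Filter Metric
open Pool.Agent.H13.SM (conTan cone)
open Pool.Agent.H17 (PN VanishesAt)
open Pool.Agent.H17LG.Variety (FunField ratio PoleAtMost IsLogGeneralType)
open Pool.Agent.H23.Fano (Form PrimeDivisorOver)
open Pool.Agent.H62.FC (Homog)
open Pool.Agent.GG

noncomputable section

namespace Pool.Agent.GQ

variable {N : ℕ} {P : Ideal (MvPolynomial (Fin (N + 1)) ℂ)} {J : ℕ} {m : Fin J → ℕ} {θ : ∀ k, SymSec P (m k)}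

private theorem vn_aeval {A : Type} [Field A] [Algebra ℂ A] (y : Ph N → A) (G : MvPolynomial (Fin ((N + 1) + (N + 1))) ℂ) :
    aeval (fr y) G = aeval y (rename finSumFinEquiv.symm G) := by
  rw [aeval_rename]
  rfl

private theorem vn_eval (w : Ph N → ℂ) (G : MvPolynomial (Fin ((N + 1) + (N + 1))) ℂ) : eval (fr w) G = eval w (rename finSumFinEquiv.symm G) := by
  rw [eval_rename]
  rfl

private theorem vn_isPt {L : Type} [Field L] [Algebra ℂ L] {y : Ph N → L} {w : Ph N → ℂ} (hw : Pt (rel y) w) : Kd.IsPt (fr y) (fr w) := by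
  intro G hG
  rw [vn_aeval] at hG
  rw [vn_eval]
  exact hw _ (mem_rel.2 hG)

private theorem vn_tan {L : Type} [Field L] [Algebra ℂ L] {y : Ph N → L} {w T : Ph N → ℂ} (hT : T ∈ Tn (rel y) w) : fr T ∈ Kd.tan (fr y) (fr w) := by
  intro G hG
  rw [vn_aeval] at hG
  have h1 := hT _ (mem_rel.2 hG)
  rw [← h1, ← Equiv.sum_comp finSumFinEquiv.symm]
  refine Finset.sum_congr rfl fun j _ => ?_
  rw [vn_eval, pderiv_rename finSumFinEquiv.symm.injective]
  rfl

/-- the other direction, as a linear map -/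
private theorem vn_finrank {L : Type} [Field L] [Algebra ℂ L] {y : Ph N → L} {w : Ph N → ℂ} :
    Module.finrank ℂ (Kd.tan (fr y) (fr w)) ≤ Module.finrank ℂ (Tn (rel y) w) := by
  have key : ∀ T ∈ Kd.tan (fr y) (fr w), (LinearEquiv.funCongrLeft ℂ ℂ (finSumFinEquiv : Ph N ≃ _)) T ∈ Tn (rel y) w := by
    intro T hT g hg
    have h1 := hT (rename finSumFinEquiv g) (by
      rw [vn_aeval, rename_rename]
      have e : (finSumFinEquiv.symm ∘ finSumFinEquiv : Ph N → Ph N) = id := by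
        funext s
        exact finSumFinEquiv.symm_apply_apply s
      rw [e, rename_id_apply]
      exact mem_rel.1 hg)
    rw [← h1, ← Equiv.sum_comp finSumFinEquiv]
    refine Finset.sum_congr rfl fun s _ => ?_
    rw [pderiv_rename finSumFinEquiv.injective, vn_eval, rename_rename]
    have e : (finSumFinEquiv.symm ∘ finSumFinEquiv : Ph N → Ph N) = id := by
      funext s
      exact finSumFinEquiv.symm_apply_apply s
    rw [e, rename_id_apply]
    rfl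
  let φ : Kd.tan (fr y) (fr w) →ₗ[ℂ] Tn (rel y) w :=
    LinearMap.restrict (LinearEquiv.funCongrLeft ℂ ℂ (finSumFinEquiv : Ph N ≃ _)).toLinearMap key
  refine LinearMap.finrank_le_finrank_of_injective (f := φ) ?_
  intro a b hab
  have h1 := congrArg Subtype.val hab
  exact Subtype.ext ((LinearEquiv.funCongrLeft ℂ ℂ (finSumFinEquiv : Ph N ≃ _)).injective h1)

private theorem vn_range {L : Type} (y : Ph N → L) : Set.range (fun i : Fin ((N + 1) + (N + 1)) => y (finSumFinEquiv.symm i)) = Set.range y := by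
  ext x
  constructor
  · rintro ⟨i, rfl⟩
    exact ⟨_, rfl⟩
  · rintro ⟨s, rfl⟩
    exact ⟨finSumFinEquiv s, congrArg y (finSumFinEquiv.symm_apply_apply s)⟩

section Val

variable [P.IsPrime] {L : Type} [Field L] [Algebra ℂ L] [Algebra (FunField P) L] [IsScalarTower ℂ (FunField P) L]

variable {n M : ℕ} (hdim : ∃ z : Fin (n + 1) → FunField P, IsTranscendenceBasis ℂ z) {f : Frame θ} {u : Derivation ℂ L L} (hs : IsSol f u)
  (S : Sec P L (n + 1) M)

include hdim hs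

/-- The value is not `0` at a general point, for linearly independent tangent vectors (`Kd.Dat.det_ne`). -/
theorem VL.ne {b : Fin (N + 1)} (hb : X b ∉ P) : ∃ Δ ∉ rel (ph P u b), ∀ w, Pt (rel (ph P u b)) w → eval w Δ ≠ 0 →
    ∀ T : Fin (n + 1) → Ph N → ℂ, (∀ l, T l ∈ Tn (rel (ph P u b)) w) → LinearIndependent ℂ T → ∀ s, S.VL u b w T s → s ≠ 0 := by
  have hgen := hs.gen b hb
  have hk : ∃ z : Fin (n + 1) → L, IsTranscendenceBasis ℂ z := by
    obtain ⟨z, hz⟩ := hdim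
    have := hs.alg
    exact ⟨_, hz.algebraMap_comp (A := L)⟩
  have hgen' : IntermediateField.adjoin ℂ (Set.range (fr (ph P u b))) = ⊤ := by
    have h1 : Set.range (fr (ph P u b)) = Set.range (ph P u b) := vn_range _
    rw [h1, hgen]
  obtain ⟨g, hg, hgs⟩ := exists_smooth (ph P u b) hgen hk
  obtain ⟨w₀, hw₀, hgw⟩ := Gen.exists_point (rel (ph P u b)) hg
  have hfin : Module.finrank ℂ (Tn (rel (ph P u b)) w₀) ≤ n + 1 := by
    by_contra h
    exact hgw (hgs w₀ hw₀ (not_le.1 h))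
  obtain ⟨d, hJ₀⟩ := Kd.exists_dat (fr (ph P u b)) hk hgen' (w := fr w₀) (vn_finrank.trans hfin)
  obtain ⟨W, hW⟩ := Kd.exists_mk d S.ω
  have h1 := d.reg hgen' (M := M) (H := S.h b) (W := W) fun E _ => by
    rw [← hW]
    exact S.pole b hb E
  rw [Algebra.adjoin_range_eq_range_aeval] at h1
  obtain ⟨A, hA⟩ := h1
  have hJy : aeval (fr (ph P u b)) d.J ≠ 0 := fun h => hJ₀ (vn_isPt hw₀ _ h)
  have hWne : W ≠ 0 := by
    rintro rfl
    apply S.ne
    rw [hW]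
    exact zero_smul _ _
  have hAy : aeval (fr (ph P u b)) A ≠ 0 := by
    have h2 : aeval (fr (ph P u b)) A = _ := hA
    rw [h2]
    exact mul_ne_zero (pow_ne_zero _ hJy) (mul_ne_zero (S.h_ne b hb) (pow_ne_zero _ hWne))
  refine ⟨rename finSumFinEquiv.symm (d.J * A), ?_, ?_⟩
  · rw [mem_rel, ← vn_aeval, map_mul]
    exact mul_ne_zero hJy hAy
  · intro w hw hΔ T hT hind s hsv
    rw [← vn_eval, map_mul] at hΔ
    have hJw : eval (fr w) d.J ≠ 0 := fun h => hΔ (by rw [h, zero_mul])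
    have hAw : eval (fr w) A ≠ 0 := fun h => hΔ (by rw [h, mul_zero])
    have hpt := vn_isPt hw
    have hval : S.VL u b w T (eval (fr w) A * (eval (fr w) d.J ^ (2 * (n + 1) * M + 1))⁻¹ * (Matrix.of fun l j => d.tau (fr (T l)) j).det ^ M) := by
      refine ⟨d, W, _, hJw, hW, ?_, rfl⟩
      have e1 : S.h b * W ^ M = aeval (fr (ph P u b)) A / aeval (fr (ph P u b)) d.J ^ (2 * (n + 1) * M + 1) := by
        have h2 : aeval (fr (ph P u b)) A = _ := hA
        rw [h2]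
        field_simp
      rw [e1]
      have h2 := Kd.Ev.poly (fr (ph P u b)) (fr w) A
      have h3 := (Kd.Ev.poly (fr (ph P u b)) (fr w) d.J).pow (2 * (n + 1) * M + 1)
      rw [MvPolynomial.aeval_eq_eval] at h2 h3
      exact h2.div (Kd.isPtB_iff.2 hpt) h3 (mul_inv_cancel₀ (pow_ne_zero _ hJw))
    rw [VL.unique hdim hs S hb hw hT hsv hval]
    refine mul_ne_zero (mul_ne_zero hAw (inv_ne_zero (pow_ne_zero _ hJw))) (pow_ne_zero _ ?_)
    refine d.det_ne hpt hJw (fun l => vn_tan (hT l)) ?_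
    exact hind.map' (LinearEquiv.funCongrLeft ℂ ℂ (finSumFinEquiv.symm : _ ≃ Ph N)).toLinearMap (LinearEquiv.ker _)

end Val

end Pool.Agent.GQ

end
end

section

/-!
# GQ Slv: the second possibility of the dichotomy gives a solution
-/

set_option autoImplicit false

open MvPolynomial Topology Filter Metric
open Pool.Agent.H13.SM (conTan cone)
open Pool.Agent.H17LG.Variety (FunField ratio)
open Pool.Agent.H62.FC (Homog)
open Pool.Agent.GG

noncomputable section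

namespace Pool.Agent.GQ

variable {N : ℕ} {P : Ideal (MvPolynomial (Fin (N + 1)) ℂ)} {J : ℕ} {m : Fin J → ℕ} {θ : ∀ k, SymSec P (m k)}

open scoped IntermediateField.algebraAdjoinAdjoin in
/-- clearing denominators -/
theorem exists_poly_of_alg {σ τ : Type} [Fintype τ] {𝔮 : Ideal (MvPolynomial τ ℂ)} [𝔮.IsPrime] (φ : σ → τ) {c : MvPolynomial τ ℂ}
    (h : IsAlgebraic (IntermediateField.adjoin ℂ (Set.range fun s => Gen.gp 𝔮 (φ s))) (aeval (Gen.gp 𝔮) c)) :
    ∃ p : Polynomial (MvPolynomial σ ℂ), (∃ i, rename φ (p.coeff i) ∉ 𝔮) ∧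
      Polynomial.eval₂ ((rename φ : MvPolynomial σ ℂ →ₐ[ℂ] MvPolynomial τ ℂ) : MvPolynomial σ ℂ →+* MvPolynomial τ ℂ) c p ∈ 𝔮 := by
  classical
  have h1 : IsAlgebraic (Algebra.adjoin ℂ (Set.range fun s => Gen.gp 𝔮 (φ s))) (aeval (Gen.gp 𝔮) c) :=
    (IsFractionRing.isAlgebraic_iff (Algebra.adjoin ℂ (Set.range fun s => Gen.gp 𝔮 (φ s)))
      (IntermediateField.adjoin ℂ (Set.range fun s => Gen.gp 𝔮 (φ s))) (Gen.FF 𝔮)).2 h
  obtain ⟨p, hp0, hp⟩ := h1
  have h2 : ∀ c : Algebra.adjoin ℂ (Set.range fun s => Gen.gp 𝔮 (φ s)), ∃ r : MvPolynomial σ ℂ, aeval (fun s => Gen.gp 𝔮 (φ s)) r = (c : Gen.FF 𝔮) := by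
    intro c
    have h3 : (c : Gen.FF 𝔮) ∈ (aeval (fun s => Gen.gp 𝔮 (φ s)) : MvPolynomial σ ℂ →ₐ[ℂ] Gen.FF 𝔮).range := by
      rw [← Algebra.adjoin_range_eq_range_aeval]
      exact c.2
    exact h3
  choose r hr using h2
  obtain ⟨i, hi⟩ : ∃ i, p.coeff i ≠ 0 := by
    by_contra hcon
    push Not at hcon
    exact hp0 (Polynomial.ext hcon)
  have hi' : i ∈ Finset.range (p.natDegree + 1) := by
    rw [Finset.mem_range, Nat.lt_succ_iff]
    exact Polynomial.le_natDegree_of_ne_zero hi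
  refine ⟨∑ j ∈ Finset.range (p.natDegree + 1), Polynomial.monomial j (r (p.coeff j)), ⟨i, ?_⟩, ?_⟩
  · rw [Polynomial.finsetSum_coeff, Finset.sum_eq_single i]
    · rw [Polynomial.coeff_monomial_same, ← Gen.aeval_gp_eq_zero, aeval_rename]
      intro h3
      apply hi
      apply Subtype.ext
      rw [← hr]
      exact h3
    · intro j _ hj
      rw [Polynomial.coeff_monomial, if_neg hj]
    · intro h3
      exact absurd hi' h3
  · rw [← Gen.aeval_gp_eq_zero, Polynomial.eval₂_finsetSum, map_sum]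
    rw [Polynomial.aeval_eq_sum_range] at hp
    rw [← hp]
    refine Finset.sum_congr rfl fun j _ => ?_
    rw [Polynomial.eval₂_monomial, map_mul, map_pow]
    show aeval (Gen.gp 𝔮) (rename φ (r (p.coeff j))) * _ = (p.coeff j : Gen.FF 𝔮) * _
    rw [aeval_rename, ← hr]
    rfl

/-- The alternative of the second possibility of `GG.dichotomy`. -/
theorem exists_sol [P.IsPrime] (hP : Homog P) {n : ℕ} (hdim : ∃ z : Fin (n + 1) → FunField P, IsTranscendenceBasis ℂ z) (f : Frame θ)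
    {a : Fin (N + 1)} (ha : X a ∉ P) (I : Fin (N + 1) → (Unit ⊕ Unit) ⊕ (Fin f.q ⊕ Fin f.q) ⊕ Fin J) (Δ : MvPolynomial (Ph N) ℂ)
    (𝔮 : Ideal (MvPolynomial (Ph N) ℂ)) (h𝔮 : 𝔮.IsPrime) (h1 : X (Sum.inl a) - 1 ∈ 𝔮) (h2 : X (Sum.inr a) ∈ 𝔮) (h3 : ∀ j, rename Sum.inl (f.Q j) ∈ 𝔮)
    (h4 : ∀ j, ∑ b, rename Sum.inl (pderiv b (f.Q j)) * X (Sum.inr b) ∈ 𝔮) (h5 : ∀ l k, (⇑(Dt (gfam f a) I))^[k + 1] (gfam f a l) ∈ 𝔮)
    (hΔ : vdet (gfam f a) I * Δ ∉ 𝔮) (hc : ∀ q, rename Sum.inl q ∈ 𝔮 → aeval (fun i => ratio P i a) q = 0) :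
    ∃ (L : Type) (_ : Field L) (_ : Algebra ℂ L) (_ : Algebra (FunField P) L) (_ : IsScalarTower ℂ (FunField P) L) (u : Derivation ℂ L L),
      IsSol f u ∧ aeval (ph P u a) (vdet (gfam f a) I * Δ) ≠ 0 := by
  classical
  obtain ⟨𝔯, h𝔯, hS, hΔ', hdom, hst, hal⟩ := exists_slice_of f hdim ha I Δ h𝔮 (by
    rintro g (rfl | rfl | ⟨j, rfl⟩ | ⟨j, rfl⟩ | ⟨l, k, rfl⟩)
    · exact h1
    · exact h2
    · exact h3 j
    · exact h4 j
    · exact h5 l k) hΔ fun q hq => RingHom.mem_ker.2 (hc q hq)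
  have hδ : vdet (gfam f a) I ∉ 𝔯 := fun h => hΔ' (Ideal.mul_mem_right _ _ h)
  obtain ⟨L, _, _, _, _, u, y, hy0, hgen, hy, hu⟩ := exists_field hdim ha 𝔯 (Dt (gfam f a) I) hst hδ fun q => (hdom q).trans RingHom.mem_ker
  have hpoly : ∀ q : MvPolynomial (Fin (N + 1)) ℂ, aeval y (rename Sum.inl q) = algebraMap (FunField P) L (aeval (fun i => ratio P i a) q) := by
    intro q
    rw [aeval_rename, ← MvPolynomial.aeval_algebraMap_apply]
    congr 2
    funext i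
    exact hy i
  have halg : ∀ k, IsAlgebraic (FunField P) (aeval y (f.A a k)) := by
    intro k
    have h6 : IsAlgebraic (IntermediateField.adjoin ℂ (Set.range fun b : Fin (N + 1) => Gen.gp 𝔯 (Sum.inl b : Ph N))) (aeval (Gen.gp 𝔯) (f.A a k)) := by
      have h7 : ∀ g : MvPolynomial (Ph N) ℂ, IsAlgebraic (IntermediateField.adjoin ℂ (Set.range fun b : Fin (N + 1) => Gen.gp 𝔯 (Sum.inl b : Ph N))) (aeval (Gen.gp 𝔯) g) := by
        intro g
        induction g using MvPolynomial.induction_on with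
        | C c =>
          rw [aeval_C]
          exact isAlgebraic_algebraMap (algebraMap ℂ (IntermediateField.adjoin ℂ (Set.range fun b : Fin (N + 1) => Gen.gp 𝔯 (Sum.inl b : Ph N))) c)
        | add p q hp hq =>
          rw [map_add]
          exact hp.add hq
        | mul_X p i hp =>
          rw [map_mul, aeval_X]
          exact hp.mul (hal i)
      exact h7 _
    obtain ⟨p, ⟨i, hi⟩, hp⟩ := exists_poly_of_alg (𝔮 := 𝔯) (Sum.inl : Fin (N + 1) → Ph N) h6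
    refine ⟨p.map (aeval fun i => ratio P i a : MvPolynomial (Fin (N + 1)) ℂ →ₐ[ℂ] FunField P).toRingHom, ?_, ?_⟩
    · intro h7
      apply hi
      rw [← hy0, hpoly]
      have h8 := congrArg (fun q => Polynomial.coeff q i) h7
      simp only [Polynomial.coeff_map, Polynomial.coeff_zero] at h8
      have h9 : aeval (fun i => ratio P i a) (p.coeff i) = 0 := h8
      rw [h9, map_zero]
    · have h7 := (hy0 _).2 hp
      rw [Polynomial.aeval_def, Polynomial.eval₂_map]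
      rw [Polynomial.eval₂_eq_sum_range, map_sum] at h7
      rw [Polynomial.eval₂_eq_sum_range, ← h7]
      refine Finset.sum_congr rfl fun j _ => ?_
      rw [map_mul, map_pow]
      congr 1
      exact (hpoly _).symm
  have hph := alg_of f ha I u y hgen hy (fun h => hδ ((hy0 _).1 h)) hu ((by
    have := (hy0 _).2 (hS (Or.inr (Or.inl rfl)))
    rwa [aeval_X] at this)) (fun j => (hy0 _).2 (hS (Or.inr (Or.inr (Or.inr (Or.inl ⟨j, rfl⟩)))))) halg
  obtain ⟨hyph, hLalg⟩ := hph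
  refine ⟨L, _, _, _, inferInstance, u, ?_, ?_⟩
  · refine isSol_of_chart hP hdim f ha u hLalg (by rw [← hyph]; exact hgen) fun k => ?_
    rw [← hyph]
    have h6 := hu (f.A a k)
    have h7 : aeval y (Dt (gfam f a) I (f.A a k)) = 0 := by
      rw [hy0]
      exact hS (Or.inr (Or.inr (Or.inr (Or.inr ⟨Sum.inr (Sum.inr k), 0, rfl⟩))))
    rw [h7] at h6
    exact (mul_eq_zero.1 h6).resolve_left fun h => hδ ((hy0 _).1 h)
  · rw [← hyph]
    exact fun h => hΔ' ((hy0 _).1 h)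

end Pool.Agent.GQ

end
end

section

/-!
# GTL EtP: log general type for pairs of closed subvarieties of `U'` and `U`
-/

set_option autoImplicit false

open MvPolynomial
open Pool.Agent.H17 (PN VanishesAt)
open Pool.Agent.H17EF (projVar)
open Pool.Agent.H23.Fano (PrimeDivisorOver)
open Pool.Agent.H17LG.Variety (FunField ratio IsLogGeneralType)
open Pool.Agent.H62.FC (Homog)
open Pool.Agent.H62.SA (locVar OnBd)
open Pool.Agent.H62.Qe (IsEtaleOver)

noncomputable section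

namespace Pool.Agent.GTL

variable {N M : ℕ} {P Q : Ideal (MvPolynomial (Fin (N + 1)) ℂ)} {P' Q' : Ideal (MvPolynomial (Fin (M + 1)) ℂ)} {s s' : ℕ}
  {G : Fin s → MvPolynomial (Fin (N + 1)) ℂ} {G' : Fin s' → MvPolynomial (Fin (M + 1)) ℂ}

theorem pair_nonempty [Q.IsPrime] {p : PN M → PN N} (hd : DomPair Q Q' p) : (projVar Q').Nonempty := by
  obtain ⟨y, hy, -⟩ := hd.dense 1 0 (isHomogeneous_one _ _) fun h => (Ideal.ne_top_iff_one Q).1 (Ideal.IsPrime.ne_top inferInstance) h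
  exact ⟨y, hy⟩

/-- a form which does not vanish on `Z` does not vanish at some point of `Z' ∩ U'` over it -/
theorem pair_point [Q.IsPrime] (hG : ∀ l, ∃ e, (G l).IsHomogeneous e) {p : PN M → PN N} (hp : IsEtaleOver P P' G G' p) (hle' : P' ≤ Q')
    (hd : DomPair Q Q' p) (hne : (locVar Q G).Nonempty) {R : MvPolynomial (Fin (N + 1)) ℂ} {n : ℕ} (hR : R.IsHomogeneous n) (hRQ : R ∉ Q) :
    ∃ y ∈ locVar Q' G', ¬ VanishesAt R (p y) := by
  obtain ⟨x, hx, l, hl⟩ := hne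
  obtain ⟨e, he⟩ := hG l
  have hGQ : G l ∉ Q := fun h => hl (hx _ h e he)
  have h1 : R * G l ∉ Q := fun h => (Ideal.IsPrime.mem_or_mem inferInstance h).elim hRQ hGQ
  obtain ⟨y, hy, hyn⟩ := hd.dense (R * G l) (n + e) (hR.mul he) h1
  unfold VanishesAt at hyn
  rw [map_mul] at hyn
  have h2 : ¬ VanishesAt R (p y) := fun h => hyn (by rw [show eval (p y).rep R = 0 from h, zero_mul])
  have h3 : ¬ VanishesAt (G l) (p y) := fun h => hyn (by rw [show eval (p y).rep (G l) = 0 from h, mul_zero])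
  have hyP' : y ∈ projVar P' := fun S hS m hm => hy S (hle' hS) m hm
  have h4 : p y ∈ locVar P G := ⟨hp.reg.maps y hyP', l, h3⟩
  have h5 := (hp.inv y hyP').1 h4
  exact ⟨y, ⟨hy, h5.2⟩, h2⟩

/-- `EtD`, `EtI`, `EtI2` for a homomorphism `φ : K → K'` -/
theorem descend_hom {K K' : Type} [Field K] [Algebra ℂ K] [Field K'] [Algebra ℂ K'] [Algebra.EssFiniteType ℂ K] [Algebra.EssFiniteType ℂ K'] (φ : K →ₐ[ℂ] K')
    {k : ℕ} (hk : 1 ≤ k) {z : Fin k → K} (hz : IsTranscendenceBasis ℂ z) {M N : ℕ} {η₀ : Fin (M + 1) → K'} (hη₀ : IntermediateField.adjoin ℂ (Set.range η₀) = ⊤)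
    {ξ₀ : Fin (N + 1) → K} {U₀ : MvPolynomial (Fin (M + 1)) ℂ} (hU₀ : aeval η₀ U₀ ≠ 0) (hLI₀ : LocInj η₀ (fun i => φ (ξ₀ i)) U₀)
    {Bd : PrimeDivisorOver K k → Prop} {Bd' : PrimeDivisorOver K' k → Prop}
    (hB : ∀ (E : PrimeDivisorOver K k) (E' : PrimeDivisorOver K' k) (e : ℕ), 1 ≤ e → (∀ x, E'.ord (φ x) = e • E.ord x) → (Bd E ↔ Bd' E'))
    (hU : ∀ (E : PrimeDivisorOver K k) (E' : PrimeDivisorOver K' k) (e : ℕ), 1 ≤ e → (∀ x, E'.ord (φ x) = e • E.ord x) → ¬ Bd E →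
      ∃ (η : Fin (M + 1) → K') (ξ : Fin (N + 1) → K) (U : MvPolynomial (Fin (M + 1)) ℂ), (∀ l, 0 ≤ E'.ord (η l)) ∧ IntermediateField.adjoin ℂ (Set.range η) = ⊤ ∧
        (∀ i, 0 ≤ E.ord (ξ i)) ∧ E'.ord (aeval η U) = 0 ∧ LocInj η (fun i => φ (ξ i)) U) :
    (∃ z' : Fin k → K', IsTranscendenceBasis ℂ z') ∧ (IsLogGeneralType Bd' → IsLogGeneralType Bd) := by
  let _ : Algebra K K' := φ.toRingHom.toAlgebra
  have hmap : ∀ x, algebraMap K K' x = φ x := fun _ => rfl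
  have : IsScalarTower ℂ K K' := IsScalarTower.of_algebraMap_eq fun c => by
    rw [hmap, φ.commutes]
  have hessK : Algebra.EssFiniteType K K' := Algebra.EssFiniteType.of_comp ℂ K K'
  have halg : Algebra.IsAlgebraic K K' := algebraic_of_locInj hη₀ hU₀ hLI₀
  have hfin : FiniteDimensional K K' := Algebra.finite_of_essFiniteType_of_isAlgebraic
  refine ⟨⟨algebraMap K K' ∘ z, hz.algebraMap_comp⟩, fun h => ?_⟩
  refine lgt_descend hk hz (fun E E' e hE => hB E E' e hE.1 hE.2) (fun E E' e hE hEB => ?_) h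
  obtain ⟨η, ξ, U, h1, h2, h3, h4, h5⟩ := hU E E' e hE.1 hE.2 hEB
  exact unram_of_locInj hk hz hE h1 h2 h3 h4 h5

/-- **Log general type goes down from `Z' ∩ U'` to `Z ∩ U`**, and the dimensions are equal. -/
theorem lgt_pair [Q.IsPrime] [Q'.IsPrime] (hQ : Homog Q) (hQ' : Homog Q') (hG : ∀ l, ∃ e, (G l).IsHomogeneous e) (hG' : ∀ l, ∃ e, (G' l).IsHomogeneous e)
    {p : PN M → PN N} (hp : IsEtaleOver P P' G G' p) (hle : P ≤ Q) (hle' : P' ≤ Q') (hd : DomPair Q Q' p) (hne : (locVar Q G).Nonempty) {k : ℕ} (hk : 1 ≤ k)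
    (hz : ∃ z : Fin k → FunField Q, IsTranscendenceBasis ℂ z) :
    (∃ z' : Fin k → FunField Q', IsTranscendenceBasis ℂ z') ∧ (IsLogGeneralType (OnBd Q' G' (k := k)) → IsLogGeneralType (OnBd Q G (k := k))) := by
  have hneP : (projVar Q').Nonempty := pair_nonempty hd
  have hne' : (locVar Q' G').Nonempty := by
    obtain ⟨y, hy, -⟩ := pair_point hG hp hle' hd hne (R := 1) (isHomogeneous_one _ _)
      fun h => (Ideal.ne_top_iff_one Q).1 (Ideal.IsPrime.ne_top inferInstance) h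
    exact ⟨y, hy⟩
  obtain ⟨φ, hφ⟩ := exists_induces hQ hQ' hp.reg hle' hneP hd
  have hess : Algebra.EssFiniteType ℂ (FunField Q) := H17GT.essFiniteType_functionField Q
  have hess' : Algebra.EssFiniteType ℂ (FunField Q') := H17GT.essFiniteType_functionField Q'
  obtain ⟨i₁, j, U, hi₁, hj, hU, hLI⟩ := exists_locInj_gen hQ hQ' hG' hp hle hle' hd hφ hne'
  obtain ⟨z, hz⟩ := hz
  have hB : ∀ (E : PrimeDivisorOver (FunField Q) k) (E' : PrimeDivisorOver (FunField Q') k) (e : ℕ), 1 ≤ e → (∀ x, E'.ord (φ x) = e • E.ord x) →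
      (OnBd Q G E ↔ OnBd Q' G' E') := fun E E' e he hE => onBd_iff hQ hQ' hG hG' hp hle hle' hd hφ he hE hneP
  refine descend_hom φ hk hz (Pool.Agent.H17R.adjoin_ratio (Pool.Agent.H17R.coordFun_ne_zero_iff.2 hj)) hU hLI hB (fun E E' e he hE hEB => ?_)
  have hEB' : ¬ OnBd Q' G' E' := fun h1 => hEB ((hB E E' e he hE).2 h1)
  obtain ⟨i₁, j, U, hi₁, hj, hη0, hξ0, hU, hLI⟩ := exists_locInj hQ hQ' hG hG' hp hle hle' hd hφ he hE hneP hEB'
  exact ⟨_, _, U, hη0, Pool.Agent.H17R.adjoin_ratio (Pool.Agent.H17R.coordFun_ne_zero_iff.2 hj), hξ0, hU, hLI⟩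

end Pool.Agent.GTL

end
end

section

/-!
# GTL Et: the four properties go down along finite etale coverings (owner: helper12)
-/

set_option autoImplicit false

open MvPolynomial
open Pool.Agent.H17 (PN VanishesAt ZariskiClosedIn HolomorphicInto puncturedDisc)
open Pool.Agent.H17EF (projVar)
open Pool.Agent.H17LG.Variety (FunField ratio IsLogGeneralType)
open Pool.Agent.H62.FC (Homog)
open Pool.Agent.H62.SA (locVar OnBd)
open Pool.Agent.H62.Qe (IsEtaleOver lift_entire lift_punctured extend_of_lift)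
open Pool.Agent.H7.Bir (GGLOpen mem_of_open)

noncomputable section

namespace Pool.Agent.GTL

variable {N M : ℕ} {P : Ideal (MvPolynomial (Fin (N + 1)) ℂ)} {P' : Ideal (MvPolynomial (Fin (M + 1)) ℂ)} {s s' : ℕ}
  {G : Fin s → MvPolynomial (Fin (N + 1)) ℂ} {G' : Fin s' → MvPolynomial (Fin (M + 1)) ℂ}

private theorem etale_both [P.IsPrime] [P'.IsPrime] (hP : Homog P) (hP' : Homog P') (hG : ∀ l, ∃ e, (G l).IsHomogeneous e) (hG' : ∀ l, ∃ e, (G' l).IsHomogeneous e)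
    (hne : (locVar P G).Nonempty) {k : ℕ} (hz : ∃ z : Fin (k + 1) → FunField P, IsTranscendenceBasis ℂ z) {p : PN M → PN N} (hp : IsEtaleOver P P' G G' p) :
    (∃ z : Fin (k + 1) → FunField P', IsTranscendenceBasis ℂ z) ∧
      (IsLogGeneralType (OnBd P' G' (k := k + 1)) → IsLogGeneralType (OnBd P G (k := k + 1))) := by
  have hX : ∃ i, X i ∉ P := by
    obtain ⟨x, hx⟩ := hne
    exact Pool.Agent.H17EF.exists_coord (P := P) hx.1
  exact lgt_pair hP hP' hG hG' hp le_rfl le_rfl (domPair_self hP hX hp.reg) hne (Nat.succ_le_succ (Nat.zero_le k)) hz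

theorem basis_etale [P.IsPrime] [P'.IsPrime] (hP : Homog P) (hP' : Homog P') (hG : ∀ l, ∃ e, (G l).IsHomogeneous e) (hG' : ∀ l, ∃ e, (G' l).IsHomogeneous e)
    (hne : (locVar P G).Nonempty) {k : ℕ} (hz : ∃ z : Fin (k + 1) → FunField P, IsTranscendenceBasis ℂ z) {p : PN M → PN N} (hp : IsEtaleOver P P' G G' p) :
    ∃ z : Fin (k + 1) → FunField P', IsTranscendenceBasis ℂ z := (etale_both hP hP' hG hG' hne hz hp).1

theorem logGT_etale [P.IsPrime] [P'.IsPrime] (hP : Homog P) (hP' : Homog P') (hG : ∀ l, ∃ e, (G l).IsHomogeneous e) (hG' : ∀ l, ∃ e, (G' l).IsHomogeneous e)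
    (hne : (locVar P G).Nonempty) {k : ℕ} (hz : ∃ z : Fin (k + 1) → FunField P, IsTranscendenceBasis ℂ z) {p : PN M → PN N} (hp : IsEtaleOver P P' G G' p)
    (h : IsLogGeneralType (OnBd P' G' (k := k + 1))) : IsLogGeneralType (OnBd P G (k := k + 1)) := (etale_both hP hP' hG hG' hne hz hp).2 h

theorem ggl_etale [P.IsPrime] [P'.IsPrime] (hP : Homog P) (hP' : Homog P') (hG : ∀ l, ∃ e, (G l).IsHomogeneous e) (hG' : ∀ l, ∃ e, (G' l).IsHomogeneous e)
    (hne : (locVar P G).Nonempty) {k : ℕ} (hz : ∃ z : Fin (k + 1) → FunField P, IsTranscendenceBasis ℂ z) {p : PN M → PN N} (hp : IsEtaleOver P P' G G' p)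
    {Ξ' : Set (PN M)} (h : GGLOpen P' G' Ξ') : ∃ Ξ : Set (PN N), GGLOpen P G Ξ := by
  have hz' := basis_etale hP hP' hG hG' hne hz hp
  -- a form which vanishes on the exceptional set
  obtain ⟨S, hS, hΞS⟩ := h.closed
  obtain ⟨y₀, hy₀, R', hR'S, hR'y₀⟩ : ∃ y ∈ locVar P' G', ∃ R ∈ S, ¬ VanishesAt R y := by
    by_contra hcon
    push Not at hcon
    apply h.proper
    rw [hΞS]
    ext y
    exact ⟨fun hy => hy.1, fun hy => ⟨hy, fun R hR => hcon y hy R hR⟩⟩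
  obtain ⟨n', hn'⟩ := hS R' hR'S
  have hR'P : R' ∉ P' := fun h1 => hR'y₀ (hy₀.1 R' h1 n' hn')
  have hR'v : ∀ y ∈ Ξ', VanishesAt R' y := by
    intro y hy
    rw [hΞS] at hy
    exact hy.2 R' hR'S
  have hX : ∃ i, X i ∉ P := by
    obtain ⟨x, hx⟩ := hne
    exact Pool.Agent.H17EF.exists_coord (P := P) hx.1
  obtain ⟨T, n, hT, hTP, hTv⟩ := exists_image_form_all hP hP' hX hz hz' hp.reg hn' hR'P
  -- the exceptional set
  refine ⟨{x | x ∈ locVar P G ∧ VanishesAt T x}, ?_⟩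
  have hclosed : ZariskiClosedIn (locVar P G) {x | x ∈ locVar P G ∧ VanishesAt T x} := by
    refine ⟨{T}, fun R hR => ?_, ?_⟩
    · rw [Set.mem_singleton_iff.1 hR]
      exact ⟨n, hT⟩
    · ext x
      constructor
      · rintro ⟨h1, h2⟩
        refine ⟨h1, fun R hR => ?_⟩
        rw [Set.mem_singleton_iff.1 hR]
        exact h2
      · rintro ⟨h1, h2⟩
        exact ⟨h1, h2 T rfl⟩
  have hbrody : ∀ f : ℂ → PN N, HolomorphicInto f Set.univ → (∀ z, f z ∈ locVar P G) → (∃ z w, f z ≠ f w) →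
      ∀ z, f z ∈ {x | x ∈ locVar P G ∧ VanishesAt T x} := by
    intro f hf hfU hfn z
    obtain ⟨g, hg, hgU, hgf⟩ := lift_entire hP' hp hf hfU
    have hgn : ∃ z w, g z ≠ g w := by
      obtain ⟨a, b, hab⟩ := hfn
      refine ⟨a, b, fun h1 => hab ?_⟩
      rw [← hgf a, ← hgf b, h1]
    refine ⟨hfU z, ?_⟩
    rw [← hgf z]
    exact hTv _ (hgU z).1 (hR'v _ (h.brody g hg hgU hgn z))
  refine ⟨hclosed, ?_, ?_, ?_, hbrody, ?_⟩
  · intro heq
    apply hTP
    refine mem_of_open hP hG hne hT fun x hx => ?_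
    rw [← heq] at hx
    exact hx.2
  · intro w hw hzw
    obtain ⟨k', rfl⟩ : ∃ k', w = k' + 1 := ⟨w - 1, by omega⟩
    have hb := etale_both hP hP' hG hG' hne hzw hp
    exact hb.2 (h.logGeneralType _ hw hb.1)
  · intro f hf hfU hfΞ
    obtain ⟨k, g, hk, hg, hgU, hgf⟩ := lift_punctured hP' hp hf hfU
    have hgΞ : ∃ z ∈ puncturedDisc, g z ∉ Ξ' := by
      by_contra hcon
      push Not at hcon
      obtain ⟨w, hw, hwΞ⟩ := hfΞ
      apply hwΞ
      refine ⟨hfU w hw, ?_⟩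
      obtain ⟨z, hz⟩ := IsAlgClosed.exists_pow_nat_eq w (by omega : 0 < k)
      have hzD : z ∈ puncturedDisc := by
        refine ⟨?_, ?_⟩
        · rw [mem_ball_zero_iff]
          by_contra h1
          push Not at h1
          have h2 : 1 ≤ ‖z‖ ^ k := one_le_pow₀ h1
          rw [← norm_pow, hz] at h2
          have h3 : ‖w‖ < 1 := by
            rw [← mem_ball_zero_iff]
            exact hw.1
          linarith
        · rintro rfl
          apply hw.2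
          rw [Set.mem_singleton_iff, ← hz, zero_pow (by omega)]
      rw [← hz, ← hgf z hzD]
      exact hTv _ (hgU z hzD).1 (hR'v _ (hcon z hzD))
    obtain ⟨ĝ, hĝ, hgg⟩ := h.picard g hg hgU hgΞ
    exact extend_of_lift hp.reg hf hk (fun z hz => (hgU z hz).1) hgf hĝ hgg
  · intro Q _ hQ hPQ hsub w hw hzw
    -- a point of `Z ∩ U` off the exceptional set
    obtain ⟨x, hxQ, hxT⟩ : ∃ x ∈ locVar Q G, ¬ VanishesAt T x := by
      by_contra hcon
      push Not at hcon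
      exact hsub fun x hx => ⟨⟨fun R hR m hm => hx.1 R (hPQ hR) m hm, hx.2⟩, hcon x hx⟩
    have hTQ : T ∉ Q := fun h1 => hxT (hxQ.1 T h1 n hT)
    have hneQ : (locVar Q G).Nonempty := ⟨x, hxQ⟩
    obtain ⟨Q', hQ'p, hQ', hle', hd⟩ := exists_pair hP' hQ (Pool.Agent.H17EF.exists_coord (P := Q) hxQ.1) hp.reg hPQ
    have hb := lgt_pair hQ hQ' hG hG' hp hPQ hle' hd hneQ hw hzw
    refine hb.2 (h.strongly Q' hQ' hle' ?_ w hw hb.1)
    intro hsub'
    obtain ⟨y, hy, hyT⟩ := pair_point hG hp hle' hd hneQ hT hTQ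
    exact hyT (hTv y (fun S hS m hm => hy.1 S (hle' hS) m hm) (hR'v y (hsub' hy)))

end Pool.Agent.GTL

end
end

section

/-!
# GTL EtDn: entire curves in finite etale coverings

`dense_etale`: a form `R'` on `X'`; the image of `R' = 0` is contained in `R = 0` for a form `R` (`H62.Qe.exists_image_form`); lift an entire curve in `U` with `R (f 0) ≠ 0` (`H62.Qe.lift_entire`).
`noext_etale`: `p ∘ f` is an entire curve in `U`, nonconstant (locally injective); if `f (1 / z)` extends then so does `p (f (1 / z))` (the value of the extension at `0` lies in the projective variety of `P'`, and `p` is regular there).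
-/

set_option autoImplicit false

open MvPolynomial Topology Filter
open Pool.Agent.H17 (PN VanishesAt HolomorphicInto puncturedDisc)
open Pool.Agent.H17EF (projVar)
open Pool.Agent.H7.Bir (vals rmap)
open Pool.Agent.H17LG.Variety (FunField)
open Pool.Agent.H62.FC (Homog)
open Pool.Agent.H62.SA (locVar OnBd)
open Pool.Agent.H62.Qe (IsReg IsEtaleOver lift_entire extend_of_lift)

noncomputable section

namespace Pool.Agent.GTL

variable {N M : ℕ} {P : Ideal (MvPolynomial (Fin (N + 1)) ℂ)} {P' : Ideal (MvPolynomial (Fin (M + 1)) ℂ)} {s s' : ℕ}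
  {G : Fin s → MvPolynomial (Fin (N + 1)) ℂ} {G' : Fin s' → MvPolynomial (Fin (M + 1)) ℂ}

/-- the nonconstant entire curves are Zariski dense -/
def DenseEntire (P : Ideal (MvPolynomial (Fin (N + 1)) ℂ)) {s : ℕ} (G : Fin s → MvPolynomial (Fin (N + 1)) ℂ) : Prop :=
  ∀ (R : MvPolynomial (Fin (N + 1)) ℂ) (e : ℕ), R.IsHomogeneous e → R ∉ P →
    ∃ f : ℂ → PN N, HolomorphicInto f Set.univ ∧ (∀ z, f z ∈ locVar P G) ∧ (∃ z w, f z ≠ f w) ∧ ¬ VanishesAt R (f 0)

/-- no nonconstant entire curve extends to `∞` -/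
def NoExtend (P : Ideal (MvPolynomial (Fin (N + 1)) ℂ)) {s : ℕ} (G : Fin s → MvPolynomial (Fin (N + 1)) ℂ) : Prop :=
  ∀ f : ℂ → PN N, HolomorphicInto f Set.univ → (∀ z, f z ∈ locVar P G) → (∃ z w, f z ≠ f w) → ∀ g : ℂ → PN N, HolomorphicInto g (Metric.ball 0 1) →
    ¬ ∀ z ∈ puncturedDisc, g z = f z⁻¹

/-- The composition of a holomorphic map with a regular map is holomorphic. -/
theorem comp_reg {p : PN M → PN N} (hp : IsReg P P' p) {g : ℂ → PN M} {U : Set ℂ} (hU : IsOpen U) (hg : HolomorphicInto g U)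
    (hgX : ∀ z ∈ U, g z ∈ projVar P') : HolomorphicInto (fun z => p (g z)) U := by
  intro z₀ hz₀
  obtain ⟨D, γ, hγ, hne, hrep⟩ := hp.regular (g z₀) (hgX z₀ hz₀)
  obtain ⟨φ, hφ, he⟩ := hg z₀ hz₀
  obtain ⟨h0, h0'⟩ := he.self_of_nhds
  have hmk : ∀ (y : Fin (M + 1) → ℂ) (hy : y ≠ 0), vals γ y ≠ 0 ↔ vals γ (Projectivization.mk ℂ y hy).rep ≠ 0 := by
    intro y hy
    obtain ⟨a, ha⟩ := Projectivization.exists_smul_eq_mk_rep ℂ y hy
    have h1 : (Projectivization.mk ℂ y hy).rep = (a : ℂ) • y := ha.symm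
    rw [h1, Pool.Agent.H7.Bir.vals_smul hγ, Ne, Ne, smul_eq_zero, not_or]
    exact ⟨fun h => ⟨pow_ne_zero _ a.ne_zero, h⟩, fun h => h.2⟩
  have hvan : AnalyticAt ℂ (fun w => vals γ (φ w)) z₀ := by
    rw [analyticAt_pi_iff]
    intro i
    have h1 : AnalyticAt ℂ (fun w => MvPolynomial.aeval (φ w) (γ i)) z₀ :=
      AnalyticAt.aeval_mvPolynomial (fun i => analyticAt_pi_iff.mp hφ i) (γ i)
    exact h1
  have hv0 : vals γ (φ z₀) ≠ 0 := by
    rw [hmk _ h0, ← h0']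
    exact hne
  refine ⟨fun w => vals γ (φ w), hvan, ?_⟩
  filter_upwards [he, hvan.continuousAt.eventually_ne hv0, hU.mem_nhds hz₀] with w h1 h2 h3
  obtain ⟨h4, h5⟩ := h1
  refine ⟨h2, ?_⟩
  have h6 : vals γ (g w).rep ≠ 0 := by
    rw [h5, ← hmk _ h4]
    exact h2
  rw [hrep _ (hgX w h3) h6, h5, Pool.Agent.H7.Bir.rmap_mk hγ h4 h2]

/-- A holomorphic map into `U'` whose image in `U` is constant is constant. -/
theorem const_of_comp {p : PN M → PN N} (hp : IsEtaleOver P P' G G' p) {f : ℂ → PN M} (hf : HolomorphicInto f Set.univ)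
    (hfU : ∀ z, f z ∈ locVar P' G') (hc : ∀ z w, p (f z) = p (f w)) (z w : ℂ) : f z = f w := by
  have hl : IsLocallyConstant f := by
    rw [IsLocallyConstant.iff_eventually_eq]
    intro z₀
    obtain ⟨φ, hφ, he⟩ := hf z₀ (Set.mem_univ _)
    obtain ⟨h0, h0'⟩ := he.self_of_nhds
    have h1 := hp.locInj (φ z₀) h0 (by rw [← h0']; exact hfU z₀)
    have h2 : Tendsto (fun z => (φ z, φ z₀)) (𝓝 z₀) (𝓝 (φ z₀, φ z₀)) :=
      (hφ.continuousAt.prodMk continuousAt_const).tendsto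
    filter_upwards [h2.eventually h1, he] with z h3 h4
    obtain ⟨h5, h6⟩ := h4
    rw [h6, h0']
    refine h3 h5 h0 ?_ ?_ ?_
    · show Projectivization.mk ℂ (φ z) h5 ∈ projVar P'
      rw [← h6]
      exact (hfU z).1
    · show Projectivization.mk ℂ (φ z₀) h0 ∈ projVar P'
      rw [← h0']
      exact (hfU z₀).1
    · show p (Projectivization.mk ℂ (φ z) h5) = p (Projectivization.mk ℂ (φ z₀) h0)
      rw [← h6, ← h0']
      exact hc z z₀
  exact hl.apply_eq_of_isPreconnected isPreconnected_univ (Set.mem_univ z) (Set.mem_univ w)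

theorem dense_etale [P.IsPrime] [P'.IsPrime] (hP : Homog P) (hP' : Homog P') (hG : ∀ l, ∃ e, (G l).IsHomogeneous e) (hG' : ∀ l, ∃ e, (G' l).IsHomogeneous e)
    (hne : (locVar P G).Nonempty) {k : ℕ} (hz : ∃ z : Fin (k + 1) → FunField P, IsTranscendenceBasis ℂ z) {p : PN M → PN N} (hp : IsEtaleOver P P' G G' p)
    (hd : DenseEntire P G) : DenseEntire P' G' := by
  have hz' := basis_etale hP hP' hG hG' hne hz hp
  obtain ⟨x₀, hx₀⟩ := hne
  intro R' e hR' hR'P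
  obtain ⟨T, n, hT, hTP, hTv⟩ := Pool.Agent.H23.GU.exists_image_form hP hP' (Pool.Agent.H17EF.exists_coord hx₀.1) hz hz' hp.reg hR' hR'P
  obtain ⟨f, hf, hfU, hfn, hfT⟩ := hd T n hT hTP
  obtain ⟨g, hg, hgU, hgf⟩ := lift_entire hP' hp hf hfU
  refine ⟨g, hg, hgU, ?_, fun h => hfT ?_⟩
  · obtain ⟨a, b, hab⟩ := hfn
    refine ⟨a, b, fun h1 => hab ?_⟩
    rw [← hgf a, ← hgf b, h1]
  · rw [← hgf 0]
    exact hTv _ (hgU 0).1 h

theorem noext_etale [P.IsPrime] [P'.IsPrime] (hP : Homog P) (hP' : Homog P') {p : PN M → PN N} (hp : IsEtaleOver P P' G G' p)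
    (hno : NoExtend P G) : NoExtend P' G' := by
  intro f hf hfU hfn g hg hgf
  have hF : HolomorphicInto (fun z => p (f z)) Set.univ := comp_reg hp.reg isOpen_univ hf fun z _ => (hfU z).1
  have hFU : ∀ z, p (f z) ∈ locVar P G := fun z => (hp.inv _ (hfU z).1).2 (hfU z)
  have hFn : ∃ z w, p (f z) ≠ p (f w) := by
    by_contra hcon
    push Not at hcon
    obtain ⟨a, b, hab⟩ := hfn
    exact hab (const_of_comp hp hf hfU hcon a b)
  have hFi : HolomorphicInto (fun z => p (f z⁻¹)) puncturedDisc := by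
    intro z hz
    have hz0 : z ≠ 0 := hz.2
    obtain ⟨φ, hφ, he⟩ := hF z⁻¹ (Set.mem_univ _)
    have hs : AnalyticAt ℂ (fun w : ℂ => w⁻¹) z := analyticAt_inv hz0
    exact ⟨fun w => φ w⁻¹, AnalyticAt.comp (g := φ) (f := fun w : ℂ => w⁻¹) hφ hs, hs.continuousAt.tendsto.eventually he⟩
  obtain ⟨g₀, hg₀, hg₀f⟩ := extend_of_lift hp.reg (f := fun z => p (f z⁻¹)) hFi le_rfl (g := fun z => f z⁻¹) (ĝ := g)
    (fun z _ => (hfU z⁻¹).1) (fun z _ => by rw [pow_one]) hg hgf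
  exact hno (fun z => p (f z)) hF hFU hFn g₀ hg₀ hg₀f

end Pool.Agent.GTL

end
end

section

/-!
# GQ Fbd: a bound of the field

`unif` gives flow boxes `H` of uniform size `r` with a uniform bound `K`.  For an arc `x` with `(x, x') (z) = Y ∈ Kset` one has `x s = H (s - z, Y)` near `z`
(`Flow.uniq`), so the derivative of `(x, x')` at `z` is `fderiv (H, ∂H/∂z) (0, Y) (1, 0)`, of norm `≤ K` (`Flow.bound`).
-/

set_option autoImplicit false

open MvPolynomial Topology Filter Metric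
open Pool.Agent.H13.SM (conTan cone)
open Pool.Agent.H17 (PN VanishesAt)
open Pool.Agent.H62.FC (Homog)
open Pool.Agent.GG

noncomputable section

namespace Pool.Agent.GQ

variable {N : ℕ} {P : Ideal (MvPolynomial (Fin (N + 1)) ℂ)} {J : ℕ} {m : Fin J → ℕ} {θ : ∀ k, SymSec P (m k)}

/-- The first derivatives at the points of `Kset`: for an arc `x` with `(x, x') ∈ Kset` the vector `(x', x'')` is bounded. -/
theorem field_bound (hθ : Polar θ) (hm : ∀ k, 1 ≤ m k) (f : Frame θ) {C : Set (Fin J → ℂ)} (hC : IsCompact C) (h0 : (0 : Fin J → ℂ) ∉ C) :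
    ∃ B : ℝ, ∀ (a : Fin (N + 1)) (c : Fin J → ℂ) (x : ℂ → Fin (N + 1) → ℂ) (z : ℂ), NArc θ a c x z → c ∈ C → (∀ b, ‖x z b‖ ≤ 1) →
      ‖deriv (fun w => pt (x w) (deriv x w)) z‖ ≤ B := by
  obtain ⟨r, hr, K, hU⟩ := unif hθ hm f hC h0
  refine ⟨K, fun a c x z hx hc hb => ?_⟩
  obtain ⟨hA, hT⟩ := arcV_of_nArc f hx
  obtain ⟨Y, hY⟩ : ∃ Y : Ph N → ℂ, Y = pt (x z) (deriv x z) := ⟨_, rfl⟩
  have hYK : Y ∈ Kset θ a C := ⟨x z, deriv x z, c, hY, hT, hb, hc⟩
  obtain ⟨ε, hε, H, hF⟩ := hU a Y hYK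
  have huniq : ∀ᶠ s in 𝓝 z, x s = H (s - z, Y) := by
    have h1 := hF.uniq x z hA (by rw [← hY]; exact mem_ball_self hε)
    rwa [← hY] at h1
  have hq : ((0 : ℂ), Y) ∈ ball (0 : ℂ) r ×ˢ ball Y ε := ⟨mem_ball_self hr, mem_ball_self hε⟩
  have hHan : AnalyticAt ℂ H ((0 : ℂ), Y) := hF.an _ hq
  obtain ⟨Ψ, hΨ⟩ : ∃ Ψ : ℂ × (Ph N → ℂ) → Ph N → ℂ, Ψ = fun q => pt (H q) (deriv (fun z => H (z, q.2)) q.1) := ⟨_, rfl⟩
  -- the velocity is analytic
  have hdan : DifferentiableAt ℂ (fun q : ℂ × (Ph N → ℂ) => deriv (fun z => H (z, q.2)) q.1) ((0 : ℂ), Y) := by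
    have h1 : DifferentiableAt ℂ (fun q : ℂ × (Ph N → ℂ) => fderiv ℂ H q (1, 0)) ((0 : ℂ), Y) :=
      hHan.fderiv.differentiableAt.clm_apply (differentiableAt_const _)
    refine h1.congr_of_eventuallyEq ?_
    filter_upwards [hHan.eventually_analyticAt] with q hqa
    have h2 : HasDerivAt (fun w : ℂ => ((w, q.2) : ℂ × (Ph N → ℂ))) (1, 0) q.1 := (hasDerivAt_id q.1).prodMk (hasDerivAt_const q.1 q.2)
    exact (HasFDerivAt.comp_hasDerivAt q.1 (f := fun w : ℂ => ((w, q.2) : ℂ × (Ph N → ℂ))) hqa.differentiableAt.hasFDerivAt h2).deriv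
  have hΨd : DifferentiableAt ℂ Ψ ((0 : ℂ), Y) := by
    rw [hΨ, differentiableAt_pi]
    rintro (b | b)
    · exact differentiableAt_pi.1 hHan.differentiableAt b
    · exact differentiableAt_pi.1 hdan b
  have h1 : HasDerivAt (fun w : ℂ => Ψ (w - z, Y)) (fderiv ℂ Ψ ((0 : ℂ), Y) (1, 0)) z := by
    have h2 : HasDerivAt (fun w : ℂ => ((w - z, Y) : ℂ × (Ph N → ℂ))) (1, 0) z := ((hasDerivAt_id z).sub_const z).prodMk (hasDerivAt_const z Y)
    refine HasFDerivAt.comp_hasDerivAt_of_eq z (f := fun w : ℂ => ((w - z, Y) : ℂ × (Ph N → ℂ))) hΨd.hasFDerivAt h2 ?_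
    rw [sub_self]
  have h2 : (fun w => pt (x w) (deriv x w)) =ᶠ[𝓝 z] fun w => Ψ (w - z, Y) := by
    filter_upwards [huniq.eventually_nhds] with w hw
    have e1 := hw.self_of_nhds
    have e2 : deriv x w = deriv (fun s => H (s, Y)) (w - z) := by
      rw [Filter.EventuallyEq.deriv_eq hw]
      exact deriv_comp_sub_const (f := fun s => H (s, Y)) z w
    rw [hΨ, e2]
    show pt (x w) _ = pt (H (w - z, Y)) _
    rw [e1]
  rw [h2.deriv_eq, h1.deriv]
  have h3 : ‖fderiv ℂ Ψ ((0 : ℂ), Y)‖ ≤ K := by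
    rw [hΨ]
    exact (hF.bound _ hq).2.2
  have h4 : ‖((1 : ℂ), (0 : Ph N → ℂ))‖ = 1 := by
    rw [Prod.norm_def, norm_one, norm_zero]
    exact max_eq_left zero_le_one
  calc ‖fderiv ℂ Ψ ((0 : ℂ), Y) (1, 0)‖ ≤ ‖fderiv ℂ Ψ ((0 : ℂ), Y)‖ * ‖((1 : ℂ), (0 : Ph N → ℂ))‖ := ContinuousLinearMap.le_opNorm _ _
    _ ≤ K := by rw [h4, mul_one]; exact h3

end Pool.Agent.GQ

end
end

section

/-!
# GQ Tvb: the tangent vectors of a family of arcs

At the time `z` the position and velocity of `Φ (w, s)` in a good chart `a` is `psi Φ a (w, s)`.  Its derivative in `w` at `s = 0` is bounded by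
`field_bound`; its derivative in `s` at `w = z` is `fderiv Y'` (`psi_fam`).
-/

set_option autoImplicit false

open MvPolynomial Topology Filter Metric
open Pool.Agent.H13.SM (conTan cone)
open Pool.Agent.H17 (PN VanishesAt)
open Pool.Agent.H62.FC (Homog)
open Pool.Agent.GG

noncomputable section

namespace Pool.Agent.GQ

variable {N : ℕ} {P : Ideal (MvPolynomial (Fin (N + 1)) ℂ)} {J : ℕ} {m : Fin J → ℕ} {θ : ∀ k, SymSec P (m k)}

/-- the derivative in the direction of the time -/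
theorem tvs_time {n : ℕ} {Φ : ℂ × (Fin n → ℂ) → PN N} {a : Fin (N + 1)} {z : ℂ} (hd : DifferentiableAt ℂ (psi Φ a) (z, 0)) :
    HasDerivAt (fun w : ℂ => psi Φ a (w, (0 : Fin n → ℂ))) (tvs Φ a z 0) z := by
  have h2 : HasDerivAt (fun w : ℂ => ((w, (0 : Fin n → ℂ)) : ℂ × (Fin n → ℂ))) (1, 0) z := (hasDerivAt_id z).prodMk (hasDerivAt_const z _)
  exact HasFDerivAt.comp_hasDerivAt (f := fun w : ℂ => ((w, (0 : Fin n → ℂ)) : ℂ × (Fin n → ℂ))) z hd.hasFDerivAt h2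

/-- the derivatives in the directions of the parameters -/
theorem tvs_par {n : ℕ} {Φ : ℂ × (Fin n → ℂ) → PN N} {a : Fin (N + 1)} {z : ℂ} (hd : DifferentiableAt ℂ (psi Φ a) (z, 0))
    {Y : (Fin n → ℂ) → Ph N → ℂ} (h : ∀ᶠ s in 𝓝 (0 : Fin n → ℂ), psi Φ a (z, s) = Y s) (j : Fin n) :
    tvs Φ a z j.succ = fderiv ℂ Y 0 (Pi.single j 1) := by
  have h2 : HasFDerivAt (fun s : Fin n → ℂ => ((z, s) : ℂ × (Fin n → ℂ))) (ContinuousLinearMap.inr ℂ ℂ (Fin n → ℂ)) 0 :=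
    hasFDerivAt_prodMk_right z 0
  have h3 : HasFDerivAt (fun s : Fin n → ℂ => psi Φ a (z, s)) ((fderiv ℂ (psi Φ a) (z, 0)).comp (ContinuousLinearMap.inr ℂ ℂ (Fin n → ℂ))) 0 :=
    HasFDerivAt.comp (f := fun s : Fin n → ℂ => ((z, s) : ℂ × (Fin n → ℂ))) 0 hd.hasFDerivAt h2
  have h4 : (fun s : Fin n → ℂ => psi Φ a (z, s)) =ᶠ[𝓝 0] Y := h
  rw [← h4.fderiv_eq, h3.fderiv]
  rfl

/-- The bound of the tangent vectors from the bound of `fderiv Y'` and `field_bound`. -/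
theorem tvs_bound (hP : Homog P) (hθ : Polar θ) (hm : ∀ k, 1 ≤ m k) (f : Frame θ) {n : ℕ} {Φ : ℂ × (Fin n → ℂ) → PN N} {c : Fin J → ℂ} (hc : c ≠ 0)
    (hΦ : ∀ z, ArcAt θ c (fun w => Φ (w, 0)) z) (hR : ∀ z, ∃ F, RepN P Φ F (z, 0))
    (h : ∃ C : ℝ, ∀ z, ∃ (a' : Fin (N + 1)) (Y' : (Fin n → ℂ) → Ph N → ℂ), FamAt θ Φ a' Y' z ∧ (∀ b, ‖Y' 0 (Sum.inl b)‖ ≤ 1) ∧
        ‖fderiv ℂ Y' 0‖ ≤ C * Real.exp (C * ‖z‖)) :
    ∃ C : ℝ, ∀ z, ∃ a, Gd (fun w => Φ (w, 0)) a z ∧ ∀ j, ‖tvs Φ a z j‖ ≤ C * Real.exp (C * ‖z‖) := by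
  obtain ⟨C, hC⟩ := h
  obtain ⟨B, hB⟩ := field_bound hθ hm f (isCompact_singleton (x := c)) (fun h => hc (Set.mem_singleton_iff.1 h).symm)
  refine ⟨|B| + |C|, fun z => ?_⟩
  obtain ⟨a, Y, hY, hY1, hY2⟩ := hC z
  obtain ⟨ha, hpsi⟩ := (psi_fam hY).self_of_nhds
  have hev : ∀ᶠ s in 𝓝 (0 : Fin n → ℂ), psi Φ a (z, s) = Y s := (psi_fam hY).mono fun s hs => hs.2
  have hd : DifferentiableAt ℂ (psi Φ a) (z, 0) := (psi_an (hR z) ha).differentiableAt
  have hle : ∀ b, ‖(Φ (z, 0)).rep b / (Φ (z, 0)).rep a‖ ≤ 1 := by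
    intro b
    have h1 : psi Φ a (z, 0) (Sum.inl b) = (Φ (z, 0)).rep b / (Φ (z, 0)).rep a := rfl
    rw [← h1, hpsi]
    exact hY1 b
  have hexp : (1 : ℝ) ≤ Real.exp ((|B| + |C|) * ‖z‖) := Real.one_le_exp (mul_nonneg (add_nonneg (abs_nonneg _) (abs_nonneg _)) (norm_nonneg _))
  refine ⟨a, fun b => ?_, fun j => ?_⟩
  · have h1 := hle b
    rw [norm_div, div_le_one (norm_pos_iff.2 ha)] at h1
    exact h1
  · induction j using Fin.cases with
    | zero =>
      have h1 := (tvs_time hd).deriv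
      have h2 := hB a c (fun w i => (Φ (w, 0)).rep i / (Φ (w, 0)).rep a) z (ps_arc hP (hΦ z) ha).1 rfl hle
      rw [← h1]
      have h3 : (fun w : ℂ => psi Φ a (w, (0 : Fin n → ℂ))) =
          fun w => pt ((fun w i => (Φ (w, 0)).rep i / (Φ (w, 0)).rep a) w) (deriv (fun w i => (Φ (w, 0)).rep i / (Φ (w, 0)).rep a) w) := rfl
      rw [h3]
      refine h2.trans ((le_abs_self B).trans ?_)
      have h4 : |B| ≤ |B| + |C| := le_add_of_nonneg_right (abs_nonneg _)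
      have h5 : 0 ≤ |B| + |C| := add_nonneg (abs_nonneg _) (abs_nonneg _)
      nlinarith
    | succ i =>
      rw [tvs_par hd hev i]
      have h1 : ‖fderiv ℂ Y 0 (Pi.single i 1)‖ ≤ ‖fderiv ℂ Y 0‖ * ‖(Pi.single i (1 : ℂ) : Fin n → ℂ)‖ := ContinuousLinearMap.le_opNorm _ _
      have h2 : ‖(Pi.single i (1 : ℂ) : Fin n → ℂ)‖ ≤ 1 := by
        rw [pi_norm_le_iff_of_nonneg zero_le_one]
        intro k
        by_cases hk : k = i
        · subst hk
          rw [Pi.single_eq_same, norm_one]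
        · rw [Pi.single_eq_of_ne hk, norm_zero]
          exact zero_le_one
      have h3 : ‖fderiv ℂ Y 0 (Pi.single i 1)‖ ≤ ‖fderiv ℂ Y 0‖ := h1.trans (mul_le_of_le_one_right (norm_nonneg _) h2)
      refine h3.trans (hY2.trans ?_)
      have h4 : C * ‖z‖ ≤ (|B| + |C|) * ‖z‖ :=
        mul_le_mul_of_nonneg_right ((le_abs_self C).trans (le_add_of_nonneg_left (abs_nonneg _))) (norm_nonneg _)
      have h5 : C ≤ |B| + |C| := (le_abs_self C).trans (le_add_of_nonneg_left (abs_nonneg _))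
      calc C * Real.exp (C * ‖z‖) ≤ (|B| + |C|) * Real.exp (C * ‖z‖) := mul_le_mul_of_nonneg_right h5 (Real.exp_pos _).le
        _ ≤ (|B| + |C|) * Real.exp ((|B| + |C|) * ‖z‖) :=
          mul_le_mul_of_nonneg_left (Real.exp_le_exp.2 h4) (add_nonneg (abs_nonneg _) (abs_nonneg _))

/-- The tangent vectors at time `0`: `v₀` with its acceleration, and the derivatives of `Y`. -/
theorem tvs_zero (hP : Homog P) {n : ℕ} {Φ : ℂ × (Fin n → ℂ) → PN N} (hR : ∃ F, RepN P Φ F (0, 0)) {a : Fin (N + 1)}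
    {Y : (Fin n → ℂ) → Ph N → ℂ} (h : FamAt θ Φ a Y 0) :
    (∀ i, tvs Φ a 0 0 (Sum.inl i) = Y 0 (Sum.inr i)) ∧ ∀ j : Fin n, tvs Φ a 0 j.succ = fderiv ℂ Y 0 (Pi.single j 1) := by
  obtain ⟨ha, hpsi⟩ := (psi_fam h).self_of_nhds
  have hev : ∀ᶠ s in 𝓝 (0 : Fin n → ℂ), psi Φ a (0, s) = Y s := (psi_fam h).mono fun s hs => hs.2
  have hd : DifferentiableAt ℂ (psi Φ a) (0, 0) := (psi_an hR ha).differentiableAt
  have hT := tvs_time hd
  refine ⟨fun i => ?_, fun j => tvs_par hd hev j⟩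
  rw [← hpsi]
  have h1 : psi Φ a (0, 0) (Sum.inr i) = deriv (fun w i => (Φ (w, 0)).rep i / (Φ (w, 0)).rep a) 0 i := rfl
  have h2 : ∀ k, HasDerivAt (fun w : ℂ => (Φ (w, 0)).rep k / (Φ (w, 0)).rep a) (tvs Φ a 0 0 (Sum.inl k)) 0 := fun k =>
    (hasDerivAt_pi.1 hT) (Sum.inl k)
  have h3 : HasDerivAt (fun (w : ℂ) (k : Fin (N + 1)) => (Φ (w, 0)).rep k / (Φ (w, 0)).rep a) (fun k => tvs Φ a 0 0 (Sum.inl k)) 0 :=
    hasDerivAt_pi.2 h2
  rw [h1, h3.deriv]

end Pool.Agent.GQ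

end
end

section

/-!
# GQ Cor: the points of the arcs of one type lie in a hypersurface, for singular varieties of general type

As `GG.core`.  If the `x`-parts of the initial vectors of arcs (rows `I`, `v_b ≠ 0`) are Zariski dense there is a solution field `L` (`exists_sol`), with a
section `S` of `K^M (-1)` (`exists_sec`).  A germ of the variety of the generic point `ph P u a` at a general point gives a family of entire curves
(`exists_fam`), which stays in it (`prop_zero`) and exponentially far from its singular points (`prop_low`); the value of `S` at time `0` is `0`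
(`one_sing`), although the tangent vectors are independent (`VL.ne`): a contradiction.
-/

set_option autoImplicit false

open MvPolynomial Topology Filter Metric
open Pool.Agent.H13.SM (conTan cone)
open Pool.Agent.H17 (PN VanishesAt)
open Pool.Agent.H17LG.Variety (FunField ratio PoleAtMost IsLogGeneralType)
open Pool.Agent.H23.Fano (Form PrimeDivisorOver)
open Pool.Agent.H62.FC (Homog)
open Pool.Agent.GG

noncomputable section

namespace Pool.Agent.GQ

variable {N : ℕ} {P : Ideal (MvPolynomial (Fin (N + 1)) ℂ)} {J : ℕ} {m : Fin J → ℕ} {θ : ∀ k, SymSec P (m k)}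

/-- the derivatives of a map to the variety of `I` are tangent vectors -/
private theorem cor_tan {n : ℕ} {Ψ : ℂ × (Fin n → ℂ) → Ph N → ℂ} {p : ℂ × (Fin n → ℂ)} (hd : DifferentiableAt ℂ Ψ p) {I : Ideal (MvPolynomial (Ph N) ℂ)}
    (h : ∀ᶠ q in 𝓝 p, Pt I (Ψ q)) (v : ℂ × (Fin n → ℂ)) : fderiv ℂ Ψ p v ∈ Tn I (Ψ p) := by
  intro g hg
  have h0 : p + (0 : ℂ) • v = p := by rw [zero_smul, add_zero]
  have h1 : HasDerivAt (fun t : ℂ => p + t • v) v 0 := by
    have h1 := ((hasDerivAt_id (0 : ℂ)).smul_const v).const_add p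
    rwa [one_smul] at h1
  have h2 : HasDerivAt (fun t : ℂ => Ψ (p + t • v)) (fderiv ℂ Ψ p v) 0 :=
    HasFDerivAt.comp_hasDerivAt_of_eq (0 : ℂ) (f := fun t : ℂ => p + t • v) hd.hasFDerivAt h1 h0.symm
  have h3 := Chart_hasDerivAt g h2
  have h4 : (fun t : ℂ => eval (Ψ (p + t • v)) g) =ᶠ[𝓝 0] fun _ => 0 := by
    have h5 : Tendsto (fun t : ℂ => p + t • v) (𝓝 0) (𝓝 p) := by
      have h6 := h1.continuousAt.tendsto
      rwa [h0] at h6
    filter_upwards [h5.eventually h] with t ht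
    exact ht g hg
  have h5 := h3.unique ((hasDerivAt_const (0 : ℂ) (0 : ℂ)).congr_of_eventuallyEq h4)
  rw [h0] at h5
  rw [← h5]
  exact Finset.sum_congr rfl fun s _ => mul_comm _ _

/-- coordinates which are algebraically independent -/
theorem exists_coord [P.IsPrime] {n : ℕ} (hdim : ∃ z : Fin n → FunField P, IsTranscendenceBasis ℂ z) {a : Fin (N + 1)} (ha : X a ∉ P) :
    ∃ b : Fin n → Fin (N + 1), ∀ p : MvPolynomial (Fin n) ℂ, aeval (fun i => ratio P i a) (rename b p) = 0 → p = 0 := by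
  obtain ⟨z, hz⟩ := hdim
  have hc : Pool.Agent.H17GT.coordFun P a ≠ 0 := Pool.Agent.H17R.coordFun_ne_zero_iff.2 ha
  have halg : Algebra.IsAlgebraic (IntermediateField.adjoin ℂ (Set.range fun i => ratio P i a)) (FunField P) := by
    refine ⟨fun y => ?_⟩
    have h1 : y ∈ IntermediateField.adjoin ℂ (Set.range fun i => ratio P i a) := by
      rw [Pool.Agent.H17R.adjoin_ratio hc]
      exact IntermediateField.mem_top
    exact isAlgebraic_algebraMap (⟨y, h1⟩ : IntermediateField.adjoin ℂ (Set.range fun i => ratio P i a))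
  obtain ⟨J, hJ⟩ := Pool.Agent.H92.GT.exists_index halg hz
  refine ⟨J, fun p hp => ?_⟩
  rw [aeval_rename] at hp
  exact (algebraicIndependent_iff.1 hJ.1) p hp

/-- the contradiction -/
theorem core_false [P.IsPrime] (hP : Homog P) (hθ : Polar θ) (hm : ∀ k, 1 ≤ m k) (f : Frame θ) {n : ℕ}
    (hdim : ∃ z : Fin (n + 1) → FunField P, IsTranscendenceBasis ℂ z) (hgt : IsLogGeneralType (K := FunField P) (k := n + 1) fun _ => False)
    {a : Fin (N + 1)} (ha : X a ∉ P) (I : Fin (N + 1) → (Unit ⊕ Unit) ⊕ (Fin f.q ⊕ Fin f.q) ⊕ Fin J) (b : Fin (N + 1))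
    {L : Type} [Field L] [Algebra ℂ L] [Algebra (FunField P) L] [IsScalarTower ℂ (FunField P) L] {u : Derivation ℂ L L} (hs : IsSol f u)
    (hne : aeval (ph P u a) (vdet (gfam f a) I * X (Sum.inr b)) ≠ 0) : False := by
  classical
  obtain ⟨M, hM, ⟨S⟩⟩ := exists_sec (L := L) hdim hgt hs.alg
  obtain ⟨Δ₁, hΔ₁, hne₁⟩ := VL.ne hdim hs S ha
  obtain ⟨g₁, hg₁, hg₁'⟩ := exists_smooth (ph P u a) (hs.gen a ha) (exists_tb hdim hs.alg)
  obtain ⟨b', hb'⟩ := exists_coord hdim ha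
  have hΔ : vdet (gfam f a) I * X (Sum.inr b) * Δ₁ * g₁ ∉ rel (ph P u a) := by
    intro h
    rcases (rel_prime (ph P u a)).mem_or_mem h with h | h
    · rcases (rel_prime (ph P u a)).mem_or_mem h with h | h
      · exact hne (mem_rel.1 h)
      · exact hΔ₁ h
    · exact hg₁ h
  obtain ⟨d, Y, hY, hY0, hYΔ, hsurj⟩ := exists_germ (rel_prime (ph P u a)) hΔ (fun i => (Sum.inl (b' i) : Ph N)) fun p hp => by
    refine hb' p ?_
    have h1 := mem_rel.1 hp
    rw [aeval_rename] at h1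
    have h2 : (ph P u a ∘ fun i => (Sum.inl (b' i) : Ph N)) = fun i => algebraMap (FunField P) L (ratio P (b' i) a) := rfl
    rw [h2] at h1
    have h3 : aeval (fun i => algebraMap (FunField P) L (ratio P (b' i) a)) p = algebraMap (FunField P) L (aeval (fun i => ratio P (b' i) a) p) := by
      rw [← MvPolynomial.aeval_algebraMap_apply]
      rfl
    rw [h3] at h1
    rw [aeval_rename]
    exact (algebraMap (FunField P) L).injective (h1.trans (map_zero _).symm)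
  -- the points of the germ
  have hcontΔ : ∀ᶠ s in 𝓝 (0 : Fin d → ℂ), eval (Y s) (vdet (gfam f a) I * X (Sum.inr b) * Δ₁ * g₁) ≠ 0 := by
    have hc : ContinuousAt (fun s => eval (Y s) (vdet (gfam f a) I * X (Sum.inr b) * Δ₁ * g₁)) 0 :=
      (MvPolynomial.continuous_eval _).continuousAt.comp hY.continuousAt
    exact hc.eventually_ne hYΔ
  have hgood : ∀ w : Ph N → ℂ, Pt (rel (ph P u a)) w → eval w (vdet (gfam f a) I * X (Sum.inr b) * Δ₁ * g₁) ≠ 0 →
      ∃ x v c, w = pt x v ∧ IsTan θ a c x v ∧ c ≠ 0 ∧ IsInit (gfam f a) w := by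
    intro w hw hΔw
    rw [map_mul, map_mul, map_mul, eval_X] at hΔw
    have h1 : eval w (vdet (gfam f a) I) ≠ 0 := left_ne_zero_of_mul (left_ne_zero_of_mul (left_ne_zero_of_mul hΔw))
    have h2 : w (Sum.inr b) ≠ 0 := right_ne_zero_of_mul (left_ne_zero_of_mul (left_ne_zero_of_mul hΔw))
    obtain ⟨hcr, x, v, c, hwx, hT⟩ := crit_of_pt hP hdim hs ha hw h1
    refine ⟨x, v, c, hwx, hT, ?_, isInit_of_crit hcr⟩
    rintro rfl
    have h4 := no_common_zero hθ hm hT.1 hT.2.2.1 fun k => hT.2.2.2.2 k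
    obtain ⟨r, hr⟩ := Submodule.mem_span_singleton.1 h4
    have h5 : r * x a = v a := congrFun hr a
    rw [hT.2.1, hT.2.2.2.1, mul_one] at h5
    rw [h5, zero_smul] at hr
    apply h2
    rw [hwx, ← hr]
    rfl
  have hw₀ : Pt (rel (ph P u a)) (Y 0) := hY0.self_of_nhds
  have hΔ0 := hYΔ
  rw [map_mul, map_mul, map_mul, eval_X] at hΔ0
  have hg0 : eval (Y 0) g₁ ≠ 0 := right_ne_zero_of_mul hΔ0
  have hD0 : eval (Y 0) Δ₁ ≠ 0 := right_ne_zero_of_mul (left_ne_zero_of_mul hΔ0)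
  have hvb : Y 0 (Sum.inr b) ≠ 0 := right_ne_zero_of_mul (left_ne_zero_of_mul (left_ne_zero_of_mul hΔ0))
  -- the derivative of the germ in the `x`-part
  set D : (Fin d → ℂ) →L[ℂ] (Ph N → ℂ) := fderiv ℂ Y 0 with hD
  have hYd : HasFDerivAt Y D 0 := hY.differentiableAt.hasFDerivAt
  set E : (Fin d → ℂ) →ₗ[ℂ] (Fin (N + 1) → ℂ) := LinearMap.pi fun i => (LinearMap.proj (Sum.inl i : Ph N)).comp (D : (Fin d → ℂ) →ₗ[ℂ] (Ph N → ℂ)) with hE
  have hEa : ∀ s i, E s i = D s (Sum.inl i) := fun s i => rfl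
  set v₀ : Fin (N + 1) → ℂ := fun i => Y 0 (Sum.inr i) with hv₀
  have hv0 : v₀ ≠ 0 := fun h => hvb (congrFun h b)
  obtain ⟨s, hsi⟩ : ∃ s : Fin n → Fin d → ℂ, ∀ (β : ℂ) (γ : Fin n → ℂ), β • v₀ + ∑ j, γ j • E (s j) = 0 → β = 0 ∧ γ = 0 := by
    refine exists_dirs E (LinearMap.pi fun j => LinearMap.proj (b' j)) ?_ hv0
    intro y
    obtain ⟨t, ht⟩ := hsurj y
    refine ⟨t, ?_⟩
    rw [← ht]
    have h1 : HasFDerivAt (fun (u : Fin d → ℂ) (j : Fin (n + 1)) => Y u (Sum.inl (b' j)))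
        (ContinuousLinearMap.pi fun j => (ContinuousLinearMap.proj (Sum.inl (b' j))).comp D) 0 :=
      hasFDerivAt_pi.2 fun j => hasFDerivAt_pi'.1 hYd (Sum.inl (b' j))
    rw [h1.fderiv]
    rfl
  -- the family of curves
  set Ls : (Fin n → ℂ) →L[ℂ] (Fin d → ℂ) := ∑ i, (ContinuousLinearMap.proj i : (Fin n → ℂ) →L[ℂ] ℂ).smulRight (s i) with hLs
  have hLsi : ∀ i, Ls (Pi.single i 1) = s i := by
    intro i
    rw [hLs, _root_.sum_apply, Finset.sum_eq_single i]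
    · simp
    · intro j _ hj
      simp [Pi.single_eq_of_ne hj]
    · simp
  have hL0 : Tendsto Ls (𝓝 0) (𝓝 0) := by
    have := Ls.continuous.tendsto 0
    rwa [map_zero] at this
  have hYL : AnalyticAt ℂ (fun u => Y (Ls u)) 0 := by
    refine AnalyticAt.fun_comp (g := Y) (f := Ls) ?_ (Ls.analyticAt 0)
    rw [map_zero]
    exact hY
  have hYLd : HasFDerivAt (fun u => Y (Ls u)) (D.comp Ls) 0 := by
    refine HasFDerivAt.comp (g := Y) (f := Ls) 0 ?_ Ls.hasFDerivAt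
    rw [map_zero]
    exact hYd
  obtain ⟨Φ, c, hc0, hΦ, hFam, hcs, hR, hbd⟩ := exists_fam hP hθ hm f (a := a) hYL (by
    filter_upwards [hL0.eventually hY0, hL0.eventually hcontΔ] with u hu1 hu2
    exact hgood _ hu1 hu2)
  have hY00 : Y (Ls 0) = Y 0 := by rw [map_zero]
  have hpf := psi_fam hFam
  obtain ⟨hra, hpsi0⟩ := hpf.self_of_nhds
  rw [hY00] at hpsi0
  have hc0' : ∀ᶠ s in 𝓝 (0 : Fin n → ℂ), c s ≠ 0 := by
    filter_upwards [hcs] with s hs' h0
    rw [h0, mem_closedBall, dist_eq_norm, zero_sub, norm_neg] at hs'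
    have := norm_pos_iff.2 hc0
    linarith
  -- the ideals
  have hst : ∀ a, X a ∉ P → ∀ I, ∀ g ∈ rel (ph P u a), Dt (gfam f a) I g ∈ rel (ph P u a) := by
    intro a' ha' I' g hg
    rw [mem_rel, aeval_Dt hP hdim hs ha', mem_rel.1 hg, map_zero, mul_zero]
  have hst' : ∀ a, X a ∉ P → ∀ I, ∀ g ∈ sgl (rel (ph P u a)) (n + 1), Dt (gfam f a) I g ∈ sgl (rel (ph P u a)) (n + 1) := fun a' ha' I' =>
    sgl_stable (rel (ph P u a')) (Dt (gfam f a') I') (hst a' ha' I') (n + 1)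
  have hpt : ∀ z a, (Φ (z, 0)).rep a ≠ 0 → ∀ᶠ p in 𝓝 (z, (0 : Fin n → ℂ)), Pt (rel (ph P u a)) (psi Φ a p) := by
    intro z a' ha'
    have h1 : ∀ᶠ s in 𝓝 (0 : Fin n → ℂ), c s ≠ 0 ∧ (Φ (0, s)).rep a ≠ 0 ∧ Pt (rel (ph P u a)) (psi Φ a (0, s)) := by
      filter_upwards [hc0', hpf, hL0.eventually hY0] with s h1 h2 h3
      refine ⟨h1, h2.1, ?_⟩
      rw [h2.2]
      exact h3
    have h2 : ∀ᶠ p in 𝓝 (z, (0 : Fin n → ℂ)), c p.2 ≠ 0 ∧ (Φ (0, p.2)).rep a ≠ 0 ∧ Pt (rel (ph P u a)) (psi Φ a (0, p.2)) := by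
      have h3 : Tendsto (fun p : ℂ × (Fin n → ℂ) => p.2) (𝓝 (z, 0)) (𝓝 0) := continuousAt_snd
      exact h3.eventually h1
    filter_upwards [h2, psi_chg (hR z) ha' ha'] with p h4 h5
    exact prop_zero hP hθ hm f (fun a => rel (ph P u a)) hst (fun a b ha hb => rel_chg hdim u ha hb) h4.1 (g := fun w => Φ (w, p.2)) (hΦ p.2)
      (z₀ := 0) (a₀ := a) h4.2.1 h4.2.2 p.1 a' h5.1
  obtain ⟨t, q, hq⟩ := LowAux.exists_gen fun a => sgl (rel (ph P u a)) (n + 1)
  have hlow := prop_low hP hθ hm f (fun a => sgl (rel (ph P u a)) (n + 1)) hst' (fun a b ha hb => sgl_chg hdim u ha hb (n + 1)) q hq hc0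
    (g := fun w => Φ (w, 0)) (hΦ 0) (a₀ := a) hra (by
      by_contra hcon
      push Not at hcon
      apply hg0
      have h1 : Ideal.span (Set.range (q a)) ≤ RingHom.ker (eval (Y 0) : MvPolynomial (Ph N) ℂ →+* ℂ) := by
        rw [Ideal.span_le]
        rintro _ ⟨j, rfl⟩
        have h2 := hcon j
        have h3 : ps (fun w => Φ (w, 0)) a 0 = Y 0 := hpsi0
        rw [h3] at h2
        exact h2
      rw [hq a] at h1
      exact h1 hg₁')
  have htan := tvs_bound hP hθ hm f hc0 (hΦ 0) hR hbd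
  -- the tangent vectors at time `0`
  have hT : ∀ j, tvs Φ a 0 j ∈ Tn (rel (ph P u a)) (Y 0) := by
    intro j
    have h1 := cor_tan (psi_an (hR 0) hra).differentiableAt (hpt 0 a hra) (dir n j)
    rw [hpsi0] at h1
    exact h1
  have hsm : Module.finrank ℂ (Tn (rel (ph P u a)) (Y 0)) ≤ n + 1 := by
    by_contra hcon
    push Not at hcon
    exact hg0 (hg₁' (Y 0) hw₀ hcon)
  obtain ⟨g, A, l, hg, hA⟩ := VL.formula hdim hs S ha hw₀ hsm
  have hval := hA (Y 0) hw₀ hg (tvs Φ a 0)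
  have hzero := one_sing hP hθ hm hdim hs hM S hc0 (hΦ 0) hR hpt q hq hlow htan hra (by rw [hpsi0]; exact hval)
  refine hne₁ (Y 0) hw₀ hD0 (tvs Φ a 0) hT ?_ _ hval hzero
  obtain ⟨ht0, ht1⟩ := tvs_zero hP (hR 0) hFam
  rw [Fintype.linearIndependent_iff]
  intro γ hγ
  have h1 : γ 0 • v₀ + ∑ j : Fin n, γ j.succ • E (s j) = 0 := by
    funext i
    have h2 := congrFun hγ (Sum.inl i)
    rw [Finset.sum_apply, Fin.sum_univ_succ] at h2
    simp only [Pi.smul_apply, smul_eq_mul, ht0, ht1, Pi.zero_apply] at h2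
    rw [hYLd.fderiv, hY00] at h2
    simp only [ContinuousLinearMap.comp_apply, hLsi] at h2
    rw [Pi.add_apply, Pi.smul_apply, smul_eq_mul, Finset.sum_apply, Pi.zero_apply]
    simp only [Pi.smul_apply, smul_eq_mul, hEa]
    exact h2
  obtain ⟨h2, h3⟩ := hsi (γ 0) (fun j => γ j.succ) h1
  intro j
  refine Fin.cases h2 (fun i => ?_) j
  exact congrFun h3 i

/-- As `GG.core`. -/
theorem core_sing [P.IsPrime] (hP : Homog P) (hθ : Polar θ) (hm : ∀ k, 1 ≤ m k) (f : Frame θ) {n : ℕ}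
    (hdim : ∃ z : Fin (n + 1) → FunField P, IsTranscendenceBasis ℂ z) (hgt : IsLogGeneralType (K := FunField P) (k := n + 1) fun _ => False)
    {a : Fin (N + 1)} (ha : X a ∉ P) (I : Fin (N + 1) → (Unit ⊕ Unit) ⊕ (Fin f.q ⊕ Fin f.q) ⊕ Fin J) (b : Fin (N + 1)) :
    ∃ q : MvPolynomial (Fin (N + 1)) ℂ, aeval (fun i => ratio P i a) q ≠ 0 ∧
      ∀ x v c, IsTan θ a c x v → Crit (gfam f a) I (pt x v) → v b ≠ 0 → eval x q = 0 := by
  classical
  set G := gfam f a with hG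
  set S : Set (MvPolynomial (Ph N) ℂ) := {g | g = X (Sum.inl a) - 1 ∨ g = X (Sum.inr a) ∨ (∃ j, g = rename Sum.inl (f.Q j)) ∨
    (∃ j, g = ∑ b, rename Sum.inl (pderiv b (f.Q j)) * X (Sum.inr b)) ∨ ∃ l k, g = (⇑(Dt G I))^[k + 1] (G l)} with hS
  have hev : ∀ (x v : Fin (N + 1) → ℂ) (g : MvPolynomial (Fin (N + 1)) ℂ), eval (pt x v) (rename Sum.inl g) = eval x g := by
    intro x v g
    rw [eval_rename]
    rfl
  have hdv : ∀ (x v : Fin (N + 1) → ℂ) j, eval (pt x v) (∑ b, rename Sum.inl (pderiv b (f.Q j)) * X (Sum.inr b)) =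
      ∑ i, v i * eval x (pderiv i (f.Q j)) := by
    intro x v j
    rw [map_sum]
    refine Finset.sum_congr rfl fun i _ => ?_
    rw [map_mul, hev, eval_X]
    exact mul_comm _ _
  rcases dichotomy S (vdet G I * X (Sum.inr b)) (Sum.inl : Fin (N + 1) → Ph N) (rel fun i => ratio P i a) with ⟨q, hq, h⟩ | ⟨𝔮, h𝔮, hS𝔮, hΔ, hcomap⟩
  · refine ⟨q, fun h0 => hq (mem_rel.2 h0), fun x v c ht hc hv => ?_⟩
    refine h (pt x v) ?_ ?_
    · rintro g (rfl | rfl | ⟨j, rfl⟩ | ⟨j, rfl⟩ | ⟨l, k, rfl⟩)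
      · rw [map_sub, eval_X, map_one]
        exact sub_eq_zero.2 ht.2.1
      · rw [eval_X]
        exact ht.2.2.2.1
      · rw [hev]
        exact ht.1.2 _ (f.span.le (Ideal.subset_span ⟨j, rfl⟩))
      · rw [hdv]
        exact ht.2.2.1 _ (f.span.le (Ideal.subset_span ⟨j, rfl⟩))
      · exact hc.2 l k
    · rw [map_mul, eval_X]
      exact mul_ne_zero hc.1 hv
  exfalso
  obtain ⟨L, _, _, _, _, u, hs, hne⟩ := exists_sol hP hdim f ha I (X (Sum.inr b)) 𝔮 h𝔮 (hS𝔮 (Or.inl rfl)) (hS𝔮 (Or.inr (Or.inl rfl)))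
    (fun j => hS𝔮 (Or.inr (Or.inr (Or.inl ⟨j, rfl⟩)))) (fun j => hS𝔮 (Or.inr (Or.inr (Or.inr (Or.inl ⟨j, rfl⟩)))))
    (fun l k => hS𝔮 (Or.inr (Or.inr (Or.inr (Or.inr ⟨l, k, rfl⟩))))) hΔ (fun q hq => mem_rel.1 (hcomap q hq))
  exact core_false hP hθ hm f hdim hgt ha I b hs hne

end Pool.Agent.GQ

end
end

section

/-!
# GQ Fin: the theorem for singular varieties of general type

`exists_R_sing`: for every projective variety of general type, singular allowed, with symmetric differentials in polar position, one hypersurface section contains all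
arcs with constants `c ≠ 0`.
-/

set_option autoImplicit false

open MvPolynomial Topology Filter Metric
open Pool.Agent.H13.SM (conTan cone)
open Pool.Agent.H17 (PN VanishesAt)
open Pool.Agent.H17BP (vanishesAt_mk)
open Pool.Agent.H17LG.Variety (FunField ratio PoleAtMost IsLogGeneralType)
open Pool.Agent.H62.FC (Homog)
open Pool.Agent.H68.KR (hmz hmz_isHomogeneous)
open Pool.Agent.GG

noncomputable section

namespace Pool.Agent.GQ

variable {N : ℕ} {P : Ideal (MvPolynomial (Fin (N + 1)) ℂ)} {J : ℕ} {m : Fin J → ℕ} {θ : ∀ k, SymSec P (m k)}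

/-- The arcs with constants `c ≠ 0` lie in one hypersurface section. -/
theorem exists_R_sing [P.IsPrime] (hP : Homog P) (θ : ∀ k, SymSec P (m k)) (hθ : Polar θ) (hm : ∀ k, 1 ≤ m k) {n : ℕ}
    (hdim : ∃ z : Fin (n + 1) → FunField P, IsTranscendenceBasis ℂ z) (hgt : IsLogGeneralType (K := FunField P) (k := n + 1) fun _ => False) :
    ∃ (R : MvPolynomial (Fin (N + 1)) ℂ) (e : ℕ), R.IsHomogeneous e ∧ R ∉ P ∧
      (∀ (c : Fin J → ℂ) (g : ℂ → PN N) (z : ℂ), c ≠ 0 → ArcAt θ c g z → VanishesAt R (g z)) ∧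
      ∀ (f : Frame θ) (a : Fin (N + 1)) (I : Fin (N + 1) → (Unit ⊕ Unit) ⊕ (Fin f.q ⊕ Fin f.q) ⊕ Fin J) (c : Fin J → ℂ) (x v : Fin (N + 1) → ℂ),
        IsTan θ a c x v → v ≠ 0 → Crit (gfam f a) I (pt x v) → eval x R = 0 := by
  classical
  obtain ⟨a, ha⟩ := exists_X_notMem (Nat.succ_le_succ (Nat.zero_le n)) hdim
  obtain ⟨f⟩ := exists_frame θ
  have h1 : ∀ p : (Fin (N + 1) → (Unit ⊕ Unit) ⊕ (Fin f.q ⊕ Fin f.q) ⊕ Fin J) × Fin (N + 1), ∃ (D : ℕ) (R : MvPolynomial (Fin (N + 1)) ℂ),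
      R.IsHomogeneous D ∧ R ∉ P ∧ ∀ y : Fin (N + 1) → ℂ, y a ≠ 0 → ∀ v c, IsTan θ a c ((y a)⁻¹ • y) v → Crit (gfam f a) p.1 (pt ((y a)⁻¹ • y) v) →
        v p.2 ≠ 0 → eval y R = 0 := by
    rintro ⟨I, b⟩
    obtain ⟨q, hq, h⟩ := core_sing hP hθ hm f hdim hgt ha I b
    refine ⟨q.totalDegree, hmz a q.totalDegree q, hmz_isHomogeneous a _ q, fun hR => hq ((Kd.hmz_mem hdim ha le_rfl).2 hR), fun y hy v c h1 h2 h3 => ?_⟩
    have h4 := Kd.aeval_hmz (G := q) (le_refl q.totalDegree) (y := y) (l := a) (mul_inv_cancel₀ hy)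
    rw [MvPolynomial.aeval_eq_eval, MvPolynomial.aeval_eq_eval] at h4
    have h5 : eval (fun i => (y a)⁻¹ * y i) q = 0 := h _ v c h1 h2 h3
    rw [h4, h5, mul_zero]
  choose D Rp hD hRP hRz using h1
  have hRh : (X a * ∏ p, Rp p).IsHomogeneous (1 + ∑ p, D p) :=
    (isHomogeneous_X ℂ a).mul (IsHomogeneous.prod _ _ _ fun p _ => hD p)
  have hRn : X a * ∏ p, Rp p ∉ P := by
    intro h
    rcases Ideal.IsPrime.mem_or_mem ‹P.IsPrime› h with h | h
    · exact ha h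
    · obtain ⟨p, -, hp⟩ := (Ideal.IsPrime.prod_mem_iff (p := P)).1 h
      exact hRP p hp
  have harc : ∀ (c : Fin J → ℂ) (g : ℂ → PN N) (z : ℂ), c ≠ 0 → ArcAt θ c g z → VanishesAt (X a * ∏ p, Rp p) (g z) := by
    intro c g z hc hg
    obtain ⟨F, hF, hr, -⟩ := id hg
    obtain ⟨hF0, hgz⟩ := hr.self_of_nhds
    rw [hgz, vanishesAt_mk hRh hF0, map_mul, eval_X]
    by_cases h1 : F z a = 0
    · rw [h1, zero_mul]
    obtain ⟨h3, h4⟩ := nArc_of_lift hP hg hF hr h1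
    obtain ⟨h5, h6⟩ := arcV_of_nArc f h3
    set v := deriv (fun w => (F w a)⁻¹ • F w) z with hv
    have hv0 : v ≠ 0 := ne_zero_of_isTan hm h6 hc
    obtain ⟨b, hb⟩ : ∃ b, v b ≠ 0 := by
      by_contra hcon
      push Not at hcon
      exact hv0 (funext hcon)
    obtain ⟨I, hI⟩ := exists_row hθ f h6 hv0
    have hcr : Crit (gfam f a) I (pt ((F z a)⁻¹ • F z) v) :=
      crit_of_arc (x := fun w => (F w a)⁻¹ • F w) (t := z) h5 hI
    have h7 : eval (F z) (Rp (I, b)) = 0 := hRz (I, b) (F z) h1 v c h6 hcr hb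
    rw [map_prod, Finset.prod_eq_zero (Finset.mem_univ (I, b)) h7, mul_zero]
  refine ⟨_, _, hRh, hRn, harc, fun f' a' I c x v hT hv hcr => ?_⟩
  obtain ⟨y, hy, hy0⟩ := isInit_of_crit hcr
  have hyx : y 0 = x := by
    funext i
    exact congrFun hy0 (Sum.inl i)
  have hN : NArc θ a' c y 0 := nArc_of_const f' hT hy.1 fun l => by
    filter_upwards [hy.2 l] with w hw
    rw [hw, hy0]
  have hx0 : x ≠ 0 := hT.1.1
  have hc : c ≠ 0 := by
    rintro rfl
    obtain ⟨r, hr⟩ := Submodule.mem_span_singleton.1 (no_common_zero hθ hm hT.1 hT.2.2.1 hT.2.2.2.2)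
    have h5 : r * x a' = v a' := congrFun hr a'
    rw [hT.2.1, hT.2.2.2.1, mul_one] at h5
    rw [h5, zero_smul] at hr
    exact hv hr.symm
  set g : ℂ → PN N := fun w => if h : y w ≠ 0 then Projectivization.mk ℂ (y w) h else Projectivization.mk ℂ x hx0 with hg
  have hr : Rep g y 0 := by
    filter_upwards [hN.2] with w hw
    exact ⟨hw.1.1, dif_pos hw.1.1⟩
  have hvan := harc c g 0 hc (arcAt_of_nArc hN hr)
  obtain ⟨h0, hg0⟩ := hr.self_of_nhds
  rw [hg0, vanishesAt_mk hRh h0, hyx] at hvan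
  exact hvan

end Pool.Agent.GQ

end
end
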