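import Pool.Agent.H18.GGT.M14

/-! The parts of this file: GBL.Defs, GTL.Defs. -/

section

/-!
# GBL Defs: Theorem B in the logarithmic case (see GB Defs, and the note with the plan)

`K` is the function field of a variety `Z` of dimension `k`, `Bd` the set of the prime divisors on the boundary.

* `LFr Bd E e`: the derivations `e` are a logarithmic frame at `E`: the dual derivations of coordinates at `E`, where the derivation of the uniformizer `t` is multiplied with `t` if `E` is on the boundary.
* `RegL Bd z l f`: the form `f (dz_1 ∧ … ∧ dz_k)^l` is regular along all prime divisors off `Bd` and has at most poles of order `l` along those in `Bd`.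
* `LDer Bd E e`: `e` is a logarithmic derivation at `E`.
* `SymFamL`: families of logarithmic symmetric differentials.
-/

set_option autoImplicit false

open MvPolynomial
open Pool.Agent.H13.SM (conTan cone)
open Pool.Agent.GL

noncomputable section

namespace Pool.Agent.GBL

/-- The logarithmic symmetric differentials `θ k` of degree `m` generate the homogeneous polynomials of degree `m` on the logarithmic tangent spaces. -/
def LogGenerated {N : ℕ} {P : Ideal (MvPolynomial (Fin (N + 1)) ℂ)} {B : Finset (Fin (N + 1))} {J m : ℕ} (θ : Fin J → LogSec P B m) : Prop :=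
  ∀ x ∈ cone P, ∀ G : MvPolynomial (Fin (N + 1)) ℂ, G.IsHomogeneous m →
    (∀ (ξ : Fin (N + 1) → ℂ) (a : ℂ), eval (ξ + a • eul B x) G = eval ξ G) →
      ∃ c : Fin J → ℂ, ∀ ξ, act B x ξ ∈ conTan P x → eval ξ G = ∑ k, c k * (θ k).toFun x ξ

section

end

section

end

end Pool.Agent.GBL

end
end

section

/-!
# GTL Defs: strictly rational maps, the four properties for quasi-projective varieties, and the conclusion of the theorem

`locVar P G` is the quasi-projective variety of the points of the projective variety of `P` at which some form `G l` is not `0`.  A dominant rational map `V ⇢ U` of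
quasi-projective varieties is strictly rational (Iitaka) if all points `(y, x)` of the closure of its graph with `y ∈ V` have `x ∈ U` (so the graph is proper over `V`).
Examples: dominant regular maps; all dominant rational maps if `U` is projective.
-/

set_option autoImplicit false

open MvPolynomial
open Pool.Agent.H17 (PN VanishesAt HolomorphicInto puncturedDisc ZariskiClosedIn)
open Pool.Agent.H17EF (projVar)
open Pool.Agent.H13.OT (OrderTwo)
open Pool.Agent.H17LG.Variety (FunField IsLogGeneralType)
open Pool.Agent.H62.FC (Homog)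
open Pool.Agent.H62.SA (locVar OnBd)
open Pool.Agent.H62.Qe (IsEtaleOver)
open Pool.Agent.H7.Bir (GGLOpen)

namespace Pool.Agent.GTL

variable {N M : ℕ}

/-- the equation of the union of the hyperplane sections `x i = 0`, `i ∈ B` -/
noncomputable def bdy (B : Finset (Fin (N + 1))) : Fin 1 → MvPolynomial (Fin (N + 1)) ℂ := fun _ => ∏ i ∈ B, X i

/-- The point `(y, x)` lies in the closure of the graph of the rational map from the projective variety of `P'` to `ℙ^N` given by the forms `γ i`: all bihomogeneous
polynomials which vanish on the graph vanish at `(y, x)`. -/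
def InGraph (P' : Ideal (MvPolynomial (Fin (M + 1)) ℂ)) (γ : Fin (N + 1) → MvPolynomial (Fin (M + 1)) ℂ) (y : PN M) (x : PN N) : Prop :=
  ∀ (a b : ℕ) (S : MvPolynomial (Fin (M + 1) ⊕ Fin (N + 1)) ℂ),
    IsWeightedHomogeneous (Sum.elim (fun _ => 1) fun _ => 0 : Fin (M + 1) ⊕ Fin (N + 1) → ℕ) S a →
    IsWeightedHomogeneous (Sum.elim (fun _ => 0) fun _ => 1 : Fin (M + 1) ⊕ Fin (N + 1) → ℕ) S b →
    aeval (Sum.elim X γ) S ∈ P' → eval (Sum.elim y.rep x.rep) S = 0

/-- The forms `γ i`, all of degree `D`, give a dominant strictly rational map from the quasi-projective variety `V = locVar P' G'` to the quasi-projective variety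
`U = locVar P G`. -/
structure StrictMap (P : Ideal (MvPolynomial (Fin (N + 1)) ℂ)) (P' : Ideal (MvPolynomial (Fin (M + 1)) ℂ)) {s s' : ℕ}
    (G : Fin s → MvPolynomial (Fin (N + 1)) ℂ) (G' : Fin s' → MvPolynomial (Fin (M + 1)) ℂ) (D : ℕ) (γ : Fin (N + 1) → MvPolynomial (Fin (M + 1)) ℂ) : Prop where
  /-- the `γ i` are forms of degree `D` -/
  hom : ∀ i, (γ i).IsHomogeneous D
  /-- the image is contained in the projective variety of `P`, and dense in it -/
  maps : ∀ (n : ℕ) (R : MvPolynomial (Fin (N + 1)) ℂ), R.IsHomogeneous n → (aeval γ R ∈ P' ↔ R ∈ P)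
  /-- the points of the closure of the graph over `V` are mapped into `U` -/
  into : ∀ y ∈ locVar P' G', ∀ x : PN N, InGraph P' γ y x → x ∈ locVar P G

/-- The quasi-projective variety `V = locVar P' G'` virtually dominates the quasi-projective variety `U = locVar P G`: some finite étale covering of `V` has a dominant strictly
rational map to `U`. -/
def VirtDominates (P : Ideal (MvPolynomial (Fin (N + 1)) ℂ)) (P' : Ideal (MvPolynomial (Fin (M + 1)) ℂ)) {s s' : ℕ}
    (G : Fin s → MvPolynomial (Fin (N + 1)) ℂ) (G' : Fin s' → MvPolynomial (Fin (M + 1)) ℂ) : Prop :=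
  ∃ (L : ℕ) (P₁ : Ideal (MvPolynomial (Fin (L + 1)) ℂ)) (_ : P₁.IsPrime) (s₁ : ℕ) (G₁ : Fin s₁ → MvPolynomial (Fin (L + 1)) ℂ) (p : PN L → PN M) (D : ℕ)
    (γ : Fin (N + 1) → MvPolynomial (Fin (L + 1)) ℂ), Homog P₁ ∧ (∀ l, ∃ e, (G₁ l).IsHomogeneous e) ∧ IsEtaleOver P' P₁ G' G₁ p ∧ StrictMap P P₁ G G₁ D γ

/-- (i) The quasi-projective variety `locVar P G`, of dimension `n`, is of log general type. -/
def GeneralType (P : Ideal (MvPolynomial (Fin (N + 1)) ℂ)) [P.IsPrime] {s : ℕ} (G : Fin s → MvPolynomial (Fin (N + 1)) ℂ) (n : ℕ) : Prop :=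
  IsLogGeneralType (OnBd P G (k := n))

/-- (ii) All holomorphic maps of the punctured disc to the variety whose image is not contained in a certain proper closed subset extend to holomorphic maps of the disc to `ℙ^N`. -/
def PseudoPicard (P : Ideal (MvPolynomial (Fin (N + 1)) ℂ)) {s : ℕ} (G : Fin s → MvPolynomial (Fin (N + 1)) ℂ) : Prop :=
  ∃ Ξ : Set (PN N), ZariskiClosedIn (locVar P G) Ξ ∧ Ξ ≠ locVar P G ∧
    ∀ f : ℂ → PN N, HolomorphicInto f puncturedDisc → (∀ z ∈ puncturedDisc, f z ∈ locVar P G) → (∃ z ∈ puncturedDisc, f z ∉ Ξ) →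
      ∃ g : ℂ → PN N, HolomorphicInto g (Metric.ball 0 1) ∧ ∀ z ∈ puncturedDisc, g z = f z

/-- (iii) All nonconstant entire curves in the variety are contained in a certain proper closed subset. -/
def PseudoBrody (P : Ideal (MvPolynomial (Fin (N + 1)) ℂ)) {s : ℕ} (G : Fin s → MvPolynomial (Fin (N + 1)) ℂ) : Prop :=
  ∃ Ξ : Set (PN N), ZariskiClosedIn (locVar P G) Ξ ∧ Ξ ≠ locVar P G ∧
    ∀ f : ℂ → PN N, HolomorphicInto f Set.univ → (∀ z, f z ∈ locVar P G) → (∃ z w, f z ≠ f w) → ∀ z, f z ∈ Ξ

/-- (iv) All closed subvarieties of positive dimension which are not contained in a certain proper closed subset are of log general type. -/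
def StronglyGeneralType (P : Ideal (MvPolynomial (Fin (N + 1)) ℂ)) {s : ℕ} (G : Fin s → MvPolynomial (Fin (N + 1)) ℂ) : Prop :=
  ∃ Ξ : Set (PN N), ZariskiClosedIn (locVar P G) Ξ ∧ Ξ ≠ locVar P G ∧
    ∀ (Q : Ideal (MvPolynomial (Fin (N + 1)) ℂ)) [Q.IsPrime], Homog Q → P ≤ Q → ¬ locVar Q G ⊆ Ξ →
      ∀ w, 1 ≤ w → (∃ z : Fin w → FunField Q, IsTranscendenceBasis ℂ z) → GeneralType Q G w

/-- The four properties are equivalent. -/
def AllEquiv (P : Ideal (MvPolynomial (Fin (N + 1)) ℂ)) [P.IsPrime] {s : ℕ} (G : Fin s → MvPolynomial (Fin (N + 1)) ℂ) (n : ℕ) : Prop :=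
  (GeneralType P G n ↔ PseudoPicard P G) ∧ (GeneralType P G n ↔ PseudoBrody P G) ∧ (GeneralType P G n ↔ StronglyGeneralType P G)

/-- The conclusion, for the quasi-projective variety `U = locVar P G` of dimension `n`. -/
structure Conclusion (P : Ideal (MvPolynomial (Fin (N + 1)) ℂ)) [P.IsPrime] {s : ℕ} (G : Fin s → MvPolynomial (Fin (N + 1)) ℂ) (n : ℕ) : Prop where
  /-- The four properties are equivalent for `U`. -/
  self : AllEquiv P G n
  /-- They are equivalent for every quasi-projective variety `V` of the same dimension such that `V` and `U` virtually dominate each other, in particular for all `V` which are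
  properly birational to `U`. -/
  equiv : ∀ (M : ℕ) (P' : Ideal (MvPolynomial (Fin (M + 1)) ℂ)) [P'.IsPrime], Homog P' → (∃ z : Fin n → FunField P', IsTranscendenceBasis ℂ z) →
    ∀ (s' : ℕ) (G' : Fin s' → MvPolynomial (Fin (M + 1)) ℂ), (∀ l, ∃ e, (G' l).IsHomogeneous e) → (locVar P' G').Nonempty →
      VirtDominates P P' G G' → VirtDominates P' P G' G → AllEquiv P' G' n
  /-- If `U` is of log general type, then every quasi-projective variety of the same dimension which virtually dominates `U` has the four properties, with one exceptional set. -/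
  up : GeneralType P G n → ∀ (M : ℕ) (P' : Ideal (MvPolynomial (Fin (M + 1)) ℂ)) [P'.IsPrime], Homog P' → (∃ z : Fin n → FunField P', IsTranscendenceBasis ℂ z) →
    ∀ (s' : ℕ) (G' : Fin s' → MvPolynomial (Fin (M + 1)) ℂ), (∀ l, ∃ e, (G' l).IsHomogeneous e) → (locVar P' G').Nonempty → VirtDominates P P' G G' →
      ∃ Ξ : Set (PN M), GGLOpen P' G' Ξ
  /-- If `U` is not of log general type, then the nonconstant entire curves of order at most two in `U` are Zariski dense in `U`. -/
  dense : ¬ GeneralType P G n → ∀ (R : MvPolynomial (Fin (N + 1)) ℂ) (e : ℕ), R.IsHomogeneous e → R ∉ P →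
    ∃ f : ℂ → PN N, HolomorphicInto f Set.univ ∧ OrderTwo f ∧ (∀ z, f z ∈ locVar P G) ∧ (∃ z w, f z ≠ f w) ∧ ¬ VanishesAt R (f 0)

end Pool.Agent.GTL

end
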