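import Pool.Agent.H18.GGT.M17
import Pool.Agent.H18.GGT.M45
import Pool.Agent.H18.GGT.M86

/-! The parts of this file: GLS.FdA, GLS.FdB, GLS.FdC, GLS.FdD, GTL.Defs_1, GBL.Pol, GL.EmpA, GLS.Defs, GLS.Avd, GLS.Fd, GLS.Fxi, GLS.Mul, GLS.OrbA. -/

section

/-!
# GLS FdA: the trace of a finite extension of an integrally closed domain
-/

set_option autoImplicit false

open Polynomial

noncomputable section

namespace Pool.Agent.GLS

variable {R A : Type} [CommRing R] [IsDomain R] [IsIntegrallyClosed R] [CharZero R] [CommRing A] [IsDomain A] [Algebra R A] [Module.Finite R A] [FaithfulSMul R A]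

theorem exists_trace_aux (F L : Type) [Field F] [Algebra R F] [IsFractionRing R F] [Field L] [Algebra A L] [IsFractionRing A L] [Algebra R L] [IsScalarTower R A L]
    [Algebra F L] [IsScalarTower R F L] : ∃ (D : ℕ) (e : Fin D → A) (T : A →ₗ[R] R), (∀ x, (∀ i, T (x * e i) = 0) → x = 0) ∧
      ∀ x, ∃ k : ℕ, T x = -((k : R) * (minpoly R x).nextCoeff) := by
  classical
  have hint : Algebra.IsIntegral R A := inferInstance
  have halg : Algebra.IsAlgebraic F L := isAlgebraic_of_isFractionRing R A F L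
  have hinjF : Function.Injective (algebraMap R F) := IsFractionRing.injective R F
  have hinjL : Function.Injective (algebraMap A L) := IsFractionRing.injective A L
  have : CharZero F := charZero_of_injective_algebraMap hinjF
  obtain ⟨D, e, he⟩ := Module.Finite.exists_fin (R := R) (M := A)
  -- `L` is finite
  have hfin : FiniteDimensional F L := by
    have h1 : FiniteDimensional F (IntermediateField.adjoin F (Set.range fun i => algebraMap A L (e i))) := by
      have : Finite (Set.range fun i => algebraMap A L (e i)) := (Set.finite_range _).to_subtype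
      exact IntermediateField.finiteDimensional_adjoin fun x _ => (halg.isAlgebraic x).isIntegral
    have h2 : IntermediateField.adjoin F (Set.range fun i => algebraMap A L (e i)) = ⊤ := by
      rw [eq_top_iff]
      have h3 : ∀ a : A, algebraMap A L a ∈ IntermediateField.adjoin F (Set.range fun i => algebraMap A L (e i)) := by
        intro a
        have ha : a ∈ Submodule.span R (Set.range e) := by rw [he]; exact Submodule.mem_top
        induction ha using Submodule.span_induction with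
        | mem y hy =>
          obtain ⟨i, rfl⟩ := hy
          exact IntermediateField.subset_adjoin _ _ ⟨i, rfl⟩
        | zero => rw [map_zero]; exact zero_mem _
        | add y z _ _ hy hz => rw [map_add]; exact add_mem hy hz
        | smul r y _ hy =>
          have h4 : algebraMap A L (r • y) = algebraMap F L (algebraMap R F r) * algebraMap A L y := by
            rw [Algebra.smul_def, map_mul, ← IsScalarTower.algebraMap_apply, ← IsScalarTower.algebraMap_apply]
          rw [h4]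
          exact mul_mem (IntermediateField.algebraMap_mem _ _) hy
      intro y _
      obtain ⟨a, b, -, rfl⟩ := IsFractionRing.div_surjective (A := A) y
      exact div_mem (h3 a) (h3 b)
    rw [h2] at h1
    exact IntermediateField.topEquiv.toLinearEquiv.finiteDimensional
  have hsep : Algebra.IsSeparable F L := inferInstance
  -- the trace is in `R`
  have key : ∀ x : A, ∃ t : R, algebraMap R F t = Algebra.trace F L (algebraMap A L x) ∧ ∃ k : ℕ, t = -((k : R) * (minpoly R x).nextCoeff) := by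
    intro x
    have hx : IsIntegral R x := hint.isIntegral x
    have hx' : IsIntegral R (algebraMap A L x) := hx.map (IsScalarTower.toAlgHom R A L)
    have h1 : minpoly F (algebraMap A L x) = (minpoly R (algebraMap A L x)).map (algebraMap R F) := minpoly.isIntegrallyClosed_eq_field_fractions' F hx'
    have h2 : minpoly R (algebraMap A L x) = minpoly R x := minpoly.algebraMap_eq hinjL x
    refine ⟨_, ?_, Module.finrank (IntermediateField.adjoin F {algebraMap A L x}) L, rfl⟩
    rw [trace_eq_finrank_mul_minpoly_nextCoeff, h1, h2, Polynomial.nextCoeff_map hinjF, map_neg, map_mul, map_natCast]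
    ring
  choose t ht k hk using key
  have hadd : ∀ x y, t (x + y) = t x + t y := fun x y => hinjF (by rw [map_add, ht, ht, ht, map_add, map_add])
  have hsmul : ∀ (r : R) x, t (r • x) = r • t x := fun r x => hinjF (by
    rw [ht, smul_eq_mul, map_mul, ht, Algebra.smul_def, map_mul, ← IsScalarTower.algebraMap_apply R A L, IsScalarTower.algebraMap_apply R F L, ← Algebra.smul_def,
      map_smul, smul_eq_mul])
  refine ⟨D, e, ⟨⟨t, hadd⟩, hsmul⟩, fun x hx => ?_, fun x => ⟨k x, hk x⟩⟩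
  have h1 : ∀ a : A, t (x * a) = 0 := by
    intro a
    have ha : a ∈ Submodule.span R (Set.range e) := by rw [he]; exact Submodule.mem_top
    induction ha using Submodule.span_induction with
    | mem y hy =>
      obtain ⟨i, rfl⟩ := hy
      exact hx i
    | zero => 
      have := hsmul 0 (x * 0)
      rw [zero_smul, zero_smul] at this
      rw [mul_zero]
      exact this
    | add y z _ _ hy hz => rw [mul_add, hadd, hy, hz, add_zero]
    | smul r y _ hy => rw [mul_smul_comm, hsmul, hy, smul_zero]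
  have h2 : ∀ l : L, Algebra.trace F L (algebraMap A L x * l) = 0 := by
    intro l
    obtain ⟨a, s, hs, rfl⟩ := IsFractionRing.div_surjective (A := A) l
    -- clear the denominator by a nonzero element of `R`
    have hs0 : s ≠ 0 := nonZeroDivisors.ne_zero hs
    obtain ⟨b, r, hr, h3⟩ := ((hint.isAlgebraic).isAlgebraic s).exists_smul_eq_mul a hs
    have h4 : algebraMap A L a / algebraMap A L s = (algebraMap R F r)⁻¹ • algebraMap A L b := by
      have h5 : algebraMap A L s ≠ 0 := fun h => hs0 (hinjL (by rw [h, map_zero]))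
      have h6 : algebraMap R F r ≠ 0 := fun h => hr (hinjF (by rw [h, map_zero]))
      have h7 : algebraMap F L (algebraMap R F r) ≠ 0 := by
        rw [Ne, map_eq_zero]
        exact h6
      have h8 : algebraMap F L (algebraMap R F r) * algebraMap A L a = algebraMap A L s * algebraMap A L b := by
        rw [← IsScalarTower.algebraMap_apply, IsScalarTower.algebraMap_apply R A L, ← map_mul, ← map_mul, ← Algebra.smul_def, h3]
      rw [Algebra.smul_def, map_inv₀]
      field_simp
      rw [mul_comm]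
      exact h8
    rw [h4, mul_smul_comm, map_smul, ← map_mul, ← ht, h1, map_zero, smul_zero]
  have h3 := (traceForm_nondegenerate F L).1 (algebraMap A L x) fun l => h2 l
  exact hinjL (by rw [h3, map_zero])

theorem exists_trace (R A : Type) [CommRing R] [IsDomain R] [IsIntegrallyClosed R] [CharZero R] [CommRing A] [IsDomain A] [Algebra R A] [Module.Finite R A]
    [FaithfulSMul R A] : ∃ (D : ℕ) (e : Fin D → A) (T : A →ₗ[R] R), (∀ x, (∀ i, T (x * e i) = 0) → x = 0) ∧
      ∀ x, ∃ k : ℕ, T x = -((k : R) * (minpoly R x).nextCoeff) := by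
  let : Algebra (FractionRing R) (FractionRing A) := FractionRing.liftAlgebra R (FractionRing A)
  have : IsScalarTower R (FractionRing R) (FractionRing A) := FractionRing.isScalarTower_liftAlgebra R (FractionRing A)
  exact exists_trace_aux (FractionRing R) (FractionRing A)

end Pool.Agent.GLS

end
end

section

/-!
# GLS FdB: the roots of the minimal polynomial are values at points
-/

set_option autoImplicit false

open MvPolynomial

noncomputable section

namespace Pool.Agent.GLS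

variable {τ : Type} [Finite τ] {R A : Type} [CommRing R] [IsDomain R] [IsIntegrallyClosed R] [CommRing A] [IsDomain A] [Algebra R A] [Module.Finite R A] [FaithfulSMul R A]

/-- the point over a root -/
theorem exists_pt {π : MvPolynomial τ ℂ →+* A} (hπ : Function.Surjective π) {ι : ℂ →+* R} (hι : ∀ c, π (C c) = algebraMap R A (ι c)) {ε : R →+* ℂ} (hε : ∀ c, ε (ι c) = c)
    (x : A) {t₀ : ℂ} (ht : ((minpoly R x).map ε).IsRoot t₀) :
    ∃ w : τ → ℂ, (∀ (r : R) (q : MvPolynomial τ ℂ), π q = algebraMap R A r → eval w q = ε r) ∧ ∀ q, π q = x → eval w q = t₀ := by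
  classical
  have hint : Algebra.IsIntegral R A := inferInstance
  have hx : IsIntegral R x := hint.isIntegral x
  obtain ⟨ψ, hψ⟩ : ∃ ψ : AdjoinRoot (minpoly R x) →+* ℂ, ψ = AdjoinRoot.lift ε t₀ (by
    rw [← Polynomial.eval_map]
    exact ht) := ⟨_, rfl⟩
  obtain ⟨φ, hφ⟩ : ∃ φ : Algebra.adjoin R {x} →+* ℂ, φ = ψ.comp ((minpoly.equivAdjoin hx).symm : Algebra.adjoin R {x} →+* AdjoinRoot (minpoly R x)) := ⟨_, rfl⟩
  have hφr : ∀ r, φ (algebraMap R _ r) = ε r := by
    intro r
    have h1 : (minpoly.equivAdjoin hx).symm (algebraMap R _ r) = algebraMap R _ r := AlgEquiv.commutes _ _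
    rw [hφ]
    show ψ ((minpoly.equivAdjoin hx).symm (algebraMap R _ r)) = _
    rw [h1, hψ]
    exact AdjoinRoot.lift_of _
  have hφx : ∀ h, φ ⟨x, h⟩ = t₀ := by
    intro h
    have h1 : (minpoly.equivAdjoin hx).symm ⟨x, h⟩ = AdjoinRoot.root _ := by
      rw [AlgEquiv.symm_apply_eq]
      apply Subtype.ext
      rw [minpoly.coe_equivAdjoin]
      simp [AdjoinRoot.Minpoly.toAdjoin]
    rw [hφ]
    show ψ ((minpoly.equivAdjoin hx).symm ⟨x, h⟩) = _
    rw [h1, hψ]
    exact AdjoinRoot.lift_root _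
  have hsurj : Function.Surjective φ := fun c => ⟨algebraMap R _ (ι c), by rw [hφr, hε]⟩
  have hmax : (RingHom.ker φ).IsMaximal := RingHom.ker_isMaximal_of_surjective φ hsurj
  have hint2 : Algebra.IsIntegral (Algebra.adjoin R {x}) A := Algebra.IsIntegral.tower_top (R := R)
  obtain ⟨Q, hQ, hQc⟩ := Ideal.exists_ideal_over_maximal_of_isIntegral (S := A) (RingHom.ker φ) (by
    have h1 : Function.Injective (algebraMap (Algebra.adjoin R {x}) A) := Subtype.val_injective
    rw [(RingHom.injective_iff_ker_eq_bot _).1 h1]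
    exact bot_le)
  have hM : (Q.comap π).IsMaximal := Ideal.comap_isMaximal_of_surjective _ hπ
  obtain ⟨w, hw⟩ := isMaximal_iff_eq_vanishingIdeal_singleton.1 hM
  have hmem : ∀ q : MvPolynomial τ ℂ, π q ∈ Q → eval w q = 0 := by
    intro q hq
    have h1 : q ∈ vanishingIdeal ℂ {w} := by
      rw [← hw]
      exact hq
    have h2 := (mem_vanishingIdeal_singleton_iff _ _).1 h1
    exact h2
  have hQm : ∀ y : Algebra.adjoin R {x}, φ y = 0 → (y : A) ∈ Q := by
    intro y hy
    have h1 : y ∈ Q.comap (algebraMap (Algebra.adjoin R {x}) A) := by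
      rw [hQc]
      exact hy
    exact h1
  refine ⟨w, fun r q hq => ?_, fun q hq => ?_⟩
  · have h2 := hQm (algebraMap R _ (r - ι (ε r))) (by rw [hφr, map_sub, hε, sub_self])
    have h3 : π (q - C (ε r)) = ((algebraMap R (Algebra.adjoin R {x}) (r - ι (ε r)) : Algebra.adjoin R {x}) : A) := by
      rw [map_sub, hq, hι, ← map_sub]
      rfl
    have h4 := hmem (q - C (ε r)) (by rw [h3]; exact h2)
    rw [map_sub, eval_C] at h4
    exact sub_eq_zero.1 h4
  · have hxm : x ∈ Algebra.adjoin R {x} := Algebra.subset_adjoin (Set.mem_singleton x)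
    have h2 := hQm (⟨x, hxm⟩ - algebraMap R _ (ι t₀)) (by rw [map_sub, hφx, hφr, hε, sub_self])
    have h3 : π (q - C t₀) = ((⟨x, hxm⟩ - algebraMap R (Algebra.adjoin R {x}) (ι t₀) : Algebra.adjoin R {x}) : A) := by
      rw [map_sub, hq, hι]
      rfl
    have h4 := hmem (q - C t₀) (by rw [h3]; exact h2)
    rw [map_sub, eval_C] at h4
    exact sub_eq_zero.1 h4

end Pool.Agent.GLS

end
end

section

/-!
# GLS FdC: growth and degree; `deg_le_of_growth` is by helper98
-/

set_option autoImplicit false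

open MvPolynomial

noncomputable section

namespace Pool.Agent.GLS.FdC

/-- scaling a homogeneous polynomial -/
theorem eval_smul_homog {σ : Type} {p : MvPolynomial σ ℂ} {n : ℕ} (hp : p.IsHomogeneous n) (c : ℂ) (b : σ → ℂ) :
    eval (c • b) p = c ^ n * eval b p := by
  rw [eval_eq, eval_eq, Finset.mul_sum]
  refine Finset.sum_congr rfl fun m hm => ?_
  have hdeg : (∑ i ∈ m.support, m i) = n := by
    have := hp (mem_support_iff.1 hm)
    rw [Finsupp.weight_apply] at this
    simpa [Finsupp.sum] using this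
  have : (∏ i ∈ m.support, (c • b) i ^ m i) = c ^ n * ∏ i ∈ m.support, b i ^ m i := by
    rw [← hdeg, ← Finset.prod_pow_eq_pow_sum, ← Finset.prod_mul_distrib]
    refine Finset.prod_congr rfl fun i _ => ?_
    rw [Pi.smul_apply, smul_eq_mul, mul_pow]
  rw [this]
  ring

/-- a polynomial of growth `κ` has degree at most `κ` -/
theorem deg_le_of_growth {σ : Type} [Fintype σ] (p : MvPolynomial σ ℂ) {C : ℝ} {κ : ℕ}
    (h : ∀ b : σ → ℂ, ‖eval b p‖ ≤ C * (1 + ‖b‖) ^ κ) : p.totalDegree ≤ κ := by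
  by_contra hlt
  push Not at hlt
  set D := p.totalDegree with hD
  have hp0 : p ≠ 0 := by
    rintro rfl
    rw [totalDegree_zero] at hD
    omega
  -- the leading form
  have hlead : homogeneousComponent D p ≠ 0 := by
    obtain ⟨m, hm, hmd⟩ := Finset.exists_mem_eq_sup p.support (support_nonempty.2 hp0) (fun s => s.sum fun _ e => e)
    intro h0
    have h1 : coeff m (homogeneousComponent D p) = coeff m p := by
      rw [coeff_homogeneousComponent, if_pos]
      rw [hD, totalDegree, hmd]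
      simp only [Finsupp.degree, Finsupp.sum]
      rfl
    rw [h0, coeff_zero] at h1
    exact mem_support_iff.1 hm h1.symm
  obtain ⟨b, hb⟩ : ∃ b : σ → ℂ, eval b (homogeneousComponent D p) ≠ 0 := by
    by_contra hcon
    push Not at hcon
    exact hlead (MvPolynomial.funext fun x => by rw [hcon x, map_zero])
  set a : ℕ → ℂ := fun i => eval b (homogeneousComponent i p) with ha
  have hexp : ∀ s : ℂ, eval (s • b) p = ∑ i ∈ Finset.range (D + 1), s ^ i * a i := by
    intro s
    conv_lhs => rw [← sum_homogeneousComponent p]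
    rw [map_sum]
    exact Finset.sum_congr rfl fun i _ => eval_smul_homog (homogeneousComponent_isHomogeneous i p) s b
  -- bound
  have hC : 0 ≤ C := by
    have := h 0
    have h2 : (0 : ℝ) ≤ C * (1 + ‖(0 : σ → ℂ)‖) ^ κ := (norm_nonneg _).trans this
    simpa using h2
  obtain ⟨D', hD'⟩ : ∃ D', D = D' + 1 := ⟨D - 1, by omega⟩
  have hkey : ∀ t : ℝ, 1 ≤ t → ‖a D‖ * t ≤ C * (1 + ‖b‖) ^ κ + ∑ i ∈ Finset.range D, ‖a i‖ := by
    intro t ht
    have ht0 : 0 < t := by linarith
    have hn : ‖(t : ℂ)‖ = t := by simp [abs_of_pos ht0]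
    have e1 := hexp (t : ℂ)
    rw [Finset.sum_range_succ] at e1
    have e2 : (t : ℂ) ^ D * a D = eval ((t : ℂ) • b) p - ∑ i ∈ Finset.range D, (t : ℂ) ^ i * a i := by
      rw [e1]; ring
    have e3 : t ^ D * ‖a D‖ ≤ C * (1 + ‖(t : ℂ) • b‖) ^ κ + ∑ i ∈ Finset.range D, t ^ i * ‖a i‖ := by
      calc t ^ D * ‖a D‖ = ‖(t : ℂ) ^ D * a D‖ := by rw [norm_mul, norm_pow, hn]
        _ ≤ ‖eval ((t : ℂ) • b) p‖ + ‖∑ i ∈ Finset.range D, (t : ℂ) ^ i * a i‖ := by
            rw [e2]; exact norm_sub_le _ _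
        _ ≤ C * (1 + ‖(t : ℂ) • b‖) ^ κ + ∑ i ∈ Finset.range D, t ^ i * ‖a i‖ := by
            refine add_le_add (h _) ((norm_sum_le _ _).trans (le_of_eq ?_))
            refine Finset.sum_congr rfl fun i _ => ?_
            rw [norm_mul, norm_pow, hn]
    have e4 : (1 + ‖(t : ℂ) • b‖) ^ κ ≤ t ^ D' * (1 + ‖b‖) ^ κ := by
      have h1 : 1 + ‖(t : ℂ) • b‖ ≤ t * (1 + ‖b‖) := by
        rw [norm_smul, hn]
        nlinarith [norm_nonneg b]
      calc (1 + ‖(t : ℂ) • b‖) ^ κ ≤ (t * (1 + ‖b‖)) ^ κ := pow_le_pow_left₀ (by positivity) h1 _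
        _ = t ^ κ * (1 + ‖b‖) ^ κ := mul_pow _ _ _
        _ ≤ t ^ D' * (1 + ‖b‖) ^ κ := by
            refine mul_le_mul_of_nonneg_right (pow_le_pow_right₀ ht (by omega)) (by positivity)
    have e5 : ∑ i ∈ Finset.range D, t ^ i * ‖a i‖ ≤ t ^ D' * ∑ i ∈ Finset.range D, ‖a i‖ := by
      rw [Finset.mul_sum]
      refine Finset.sum_le_sum fun i hi => mul_le_mul_of_nonneg_right (pow_le_pow_right₀ ht ?_) (norm_nonneg _)
      have := Finset.mem_range.1 hi
      omega
    have e6 : t ^ D' * (‖a D‖ * t) ≤ t ^ D' * (C * (1 + ‖b‖) ^ κ + ∑ i ∈ Finset.range D, ‖a i‖) := by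
      calc t ^ D' * (‖a D‖ * t) = t ^ D * ‖a D‖ := by rw [hD', pow_succ]; ring
        _ ≤ C * (1 + ‖(t : ℂ) • b‖) ^ κ + ∑ i ∈ Finset.range D, t ^ i * ‖a i‖ := e3
        _ ≤ C * (t ^ D' * (1 + ‖b‖) ^ κ) + t ^ D' * ∑ i ∈ Finset.range D, ‖a i‖ := by gcongr
        _ = t ^ D' * (C * (1 + ‖b‖) ^ κ + ∑ i ∈ Finset.range D, ‖a i‖) := by ring
    exact le_of_mul_le_mul_left e6 (pow_pos ht0 _)
  have hpos : 0 < ‖a D‖ := norm_pos_iff.2 hb
  set R := C * (1 + ‖b‖) ^ κ + ∑ i ∈ Finset.range D, ‖a i‖ with hR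
  have := hkey (max 1 ((R + 1) / ‖a D‖)) (le_max_left _ _)
  have h2 : R + 1 ≤ ‖a D‖ * max 1 ((R + 1) / ‖a D‖) := by
    calc R + 1 = ‖a D‖ * ((R + 1) / ‖a D‖) := by field_simp
      _ ≤ _ := mul_le_mul_of_nonneg_left (le_max_right _ _) hpos.le
  linarith

/-- polynomial growth -/
theorem grow {σ : Type} [Fintype σ] (q : MvPolynomial σ ℂ) :
    ∃ C : ℝ, 0 ≤ C ∧ ∀ ξ : σ → ℂ, ‖eval ξ q‖ ≤ C * (1 + ‖ξ‖) ^ q.totalDegree := by
  refine ⟨∑ d ∈ q.support, ‖q.coeff d‖, Finset.sum_nonneg fun _ _ => norm_nonneg _, fun ξ => ?_⟩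
  rw [eval_eq', Finset.sum_mul]
  refine (norm_sum_le _ _).trans (Finset.sum_le_sum fun d hd => ?_)
  rw [norm_mul, norm_prod]
  refine mul_le_mul_of_nonneg_left ?_ (norm_nonneg _)
  have h1 : (1 : ℝ) ≤ 1 + ‖ξ‖ := by linarith [norm_nonneg ξ]
  calc ∏ i, ‖ξ i ^ d i‖ ≤ ∏ i, (1 + ‖ξ‖) ^ d i := by
        refine Finset.prod_le_prod (fun _ _ => norm_nonneg _) fun i _ => ?_
        rw [norm_pow]
        exact pow_le_pow_left₀ (norm_nonneg _) ((norm_le_pi_norm ξ i).trans (by linarith)) _
    _ = (1 + ‖ξ‖) ^ ∑ i, d i := Finset.prod_pow_eq_pow_sum _ _ _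
    _ ≤ (1 + ‖ξ‖) ^ q.totalDegree := by
        refine pow_le_pow_right₀ h1 ?_
        have h2 := le_totalDegree hd
        rwa [Finsupp.sum_fintype _ _ (fun _ => rfl)] at h2

/-- larger exponents -/
theorem grow_mono {σ : Type} [Fintype σ] {q : MvPolynomial σ ℂ} {C : ℝ} {k l : ℕ} (hC : 0 ≤ C) (hkl : k ≤ l)
    (h : ∀ ξ : σ → ℂ, ‖eval ξ q‖ ≤ C * (1 + ‖ξ‖) ^ k) (ξ : σ → ℂ) : ‖eval ξ q‖ ≤ C * (1 + ‖ξ‖) ^ l :=
  (h ξ).trans (mul_le_mul_of_nonneg_left (pow_le_pow_right₀ (by linarith [norm_nonneg ξ]) hkl) hC)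

/-- the roots of a monic polynomial have polynomial growth -/
theorem root_bd {σ : Type} [Fintype σ] {p : Polynomial (MvPolynomial σ ℂ)} (hp : p.Monic) :
    ∃ (C : ℝ) (k : ℕ), 0 ≤ C ∧ ∀ (ξ : σ → ℂ) (t : ℂ), (p.map (eval ξ)).IsRoot t → ‖t‖ ≤ C * (1 + ‖ξ‖) ^ k := by
  choose C hC hg using fun i : ℕ => grow (p.coeff i)
  obtain ⟨k, hk⟩ : ∃ k : ℕ, ∀ i ∈ Finset.range p.natDegree, (p.coeff i).totalDegree ≤ k :=
    ⟨(Finset.range p.natDegree).sup fun i => (p.coeff i).totalDegree, fun i hi => Finset.le_sup (f := fun i => (p.coeff i).totalDegree) hi⟩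
  have hS : 0 ≤ ∑ i ∈ Finset.range p.natDegree, C i := Finset.sum_nonneg fun i _ => hC i
  refine ⟨∑ i ∈ Finset.range p.natDegree, C i + 1, k, by linarith, fun ξ t ht => ?_⟩
  have h1 : (1 : ℝ) ≤ 1 + ‖ξ‖ := by linarith [norm_nonneg ξ]
  have hP : (p.map (eval ξ)).Monic := hp.map _
  have hb := Polynomial.IsRoot.norm_lt_cauchyBound hP.ne_zero ht
  have h2 : (‖t‖₊ : ℝ) < ((Polynomial.cauchyBound (p.map (eval ξ)) : NNReal) : ℝ) := by exact_mod_cast hb
  rw [Polynomial.cauchyBound, hP.leadingCoeff, nnnorm_one, div_one, hp.natDegree_map, NNReal.coe_add, NNReal.coe_one, coe_nnnorm] at h2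
  have h3 : ((Finset.range p.natDegree).sup fun i => ‖(p.map (eval ξ)).coeff i‖₊) ≤ Real.toNNReal ((∑ i ∈ Finset.range p.natDegree, C i) * (1 + ‖ξ‖) ^ k) := by
    refine Finset.sup_le fun i hi => ?_
    rw [← NNReal.coe_le_coe, Real.coe_toNNReal _ (by positivity), coe_nnnorm, Polynomial.coeff_map]
    refine (grow_mono (hC i) (hk i hi) (hg i) ξ).trans (mul_le_mul_of_nonneg_right ?_ (by positivity))
    exact Finset.single_le_sum (f := C) (fun i _ => hC i) hi
  have h4 := (NNReal.coe_le_coe.2 h3)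
  rw [Real.coe_toNNReal _ (by positivity)] at h4
  have h5 : (1 : ℝ) ≤ (1 + ‖ξ‖) ^ k := one_le_pow₀ h1
  nlinarith

end Pool.Agent.GLS.FdC

end
end

section

/-!
# GLS FdD: polynomials of bounded growth on an affine variety: the finite dimension

`π : ℂ[τ] → A` surjective, `A` finite over `R = ℂ[s]`.
-/

set_option autoImplicit false

open MvPolynomial

noncomputable section

namespace Pool.Agent.GLS.FdD

/-- `w` lies over `ξ` -/
def Over {τ : Type} {s : ℕ} {A : Type} [CommRing A] [Algebra (MvPolynomial (Fin s) ℂ) A] (π : MvPolynomial τ ℂ →+* A) (ξ : Fin s → ℂ) (w : τ → ℂ) : Prop :=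
  ∀ (r : MvPolynomial (Fin s) ℂ) (q : MvPolynomial τ ℂ), π q = algebraMap (MvPolynomial (Fin s) ℂ) A r → eval w q = eval ξ r

variable {τ : Type} {s : ℕ} {A : Type} [CommRing A] [IsDomain A] [Algebra (MvPolynomial (Fin s) ℂ) A] [Module.Finite (MvPolynomial (Fin s) ℂ) A]
  [FaithfulSMul (MvPolynomial (Fin s) ℂ) A] {π : MvPolynomial τ ℂ →+* A}

omit [IsDomain A] [FaithfulSMul (MvPolynomial (Fin s) ℂ) A] [Module.Finite (MvPolynomial (Fin s) ℂ) A] in
/-- the coordinates of a point over `ξ` are roots -/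
theorem over_root (hπ : Function.Surjective π) (x : A) {q : MvPolynomial τ ℂ} (hq : π q = x) {ξ : Fin s → ℂ} {w : τ → ℂ} (h : Over π ξ w) :
    ((minpoly (MvPolynomial (Fin s) ℂ) x).map (eval ξ)).IsRoot (eval w q) := by
  choose l hl using fun r : MvPolynomial (Fin s) ℂ => hπ (algebraMap (MvPolynomial (Fin s) ℂ) A r)
  have h1 : Polynomial.aeval x (minpoly (MvPolynomial (Fin s) ℂ) x) = 0 := minpoly.aeval _ _
  rw [Polynomial.aeval_eq_sum_range] at h1
  have h2 := h 0 (∑ i ∈ Finset.range ((minpoly (MvPolynomial (Fin s) ℂ) x).natDegree + 1), l ((minpoly (MvPolynomial (Fin s) ℂ) x).coeff i) * q ^ i) (by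
    rw [map_sum, map_zero, ← h1]
    refine Finset.sum_congr rfl fun i _ => ?_
    rw [map_mul, map_pow, hl, hq, Algebra.smul_def])
  rw [map_sum, map_zero] at h2
  rw [Polynomial.IsRoot.def, Polynomial.eval_map, Polynomial.eval₂_eq_sum_range]
  rw [← h2]
  refine Finset.sum_congr rfl fun i _ => ?_
  rw [map_mul, map_pow, h _ _ (hl _)]

omit [IsDomain A] [FaithfulSMul (MvPolynomial (Fin s) ℂ) A] in
/-- the points over `ξ` have polynomial growth -/
theorem over_bd [Fintype τ] (hπ : Function.Surjective π) : ∃ (C : ℝ) (k : ℕ), 0 ≤ C ∧ ∀ (ξ : Fin s → ℂ) (w : τ → ℂ), Over π ξ w → 1 + ‖w‖ ≤ C * (1 + ‖ξ‖) ^ k := by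
  have hint : Algebra.IsIntegral (MvPolynomial (Fin s) ℂ) A := inferInstance
  choose C k hC hg using fun j : τ => FdC.root_bd (minpoly.monic (hint.isIntegral (π (X j))))
  obtain ⟨K, hK⟩ : ∃ K : ℕ, ∀ j, k j ≤ K := ⟨Finset.univ.sup k, fun j => Finset.le_sup (Finset.mem_univ j)⟩
  have hS : 0 ≤ ∑ j, C j := Finset.sum_nonneg fun i _ => hC i
  refine ⟨∑ j, C j + 1, K, by linarith, fun ξ w hw => ?_⟩
  have h1 : (1 : ℝ) ≤ 1 + ‖ξ‖ := by linarith [norm_nonneg ξ]
  have h5 : (1 : ℝ) ≤ (1 + ‖ξ‖) ^ K := one_le_pow₀ h1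
  have h2 : ‖w‖ ≤ (∑ j, C j) * (1 + ‖ξ‖) ^ K := by
    refine (pi_norm_le_iff_of_nonneg (by positivity)).2 fun j => ?_
    have h3 := hg j ξ (eval w (X j)) (over_root hπ _ rfl hw)
    rw [eval_X] at h3
    refine h3.trans ?_
    have h4 : C j ≤ ∑ j, C j := Finset.single_le_sum (f := C) (fun i _ => hC i) (Finset.mem_univ j)
    exact mul_le_mul h4 (pow_le_pow_right₀ h1 (hK j)) (by positivity) hS
  nlinarith

/-- growth of the second coefficient of the minimal polynomial -/
theorem next_bd [Finite τ] (hπ : Function.Surjective π) (hC : ∀ c, π (C c) = algebraMap (MvPolynomial (Fin s) ℂ) A (C c)) {q : MvPolynomial τ ℂ} {C : ℝ} {k : ℕ}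
    (h : ∀ (ξ : Fin s → ℂ) (w : τ → ℂ), Over π ξ w → ‖eval w q‖ ≤ C * (1 + ‖ξ‖) ^ k) : (minpoly (MvPolynomial (Fin s) ℂ) (π q)).nextCoeff.totalDegree ≤ k := by
  have hint : Algebra.IsIntegral (MvPolynomial (Fin s) ℂ) A := inferInstance
  have hm := minpoly.monic (hint.isIntegral (π q))
  refine FdC.deg_le_of_growth _ (C := (minpoly (MvPolynomial (Fin s) ℂ) (π q)).natDegree * C) fun ξ => ?_
  have hm2 : ((minpoly (MvPolynomial (Fin s) ℂ) (π q)).map (eval ξ)).Monic := hm.map _
  have h1 : ((minpoly (MvPolynomial (Fin s) ℂ) (π q)).map (eval ξ)).nextCoeff = eval ξ (minpoly (MvPolynomial (Fin s) ℂ) (π q)).nextCoeff :=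
    Polynomial.nextCoeff_map_of_leadingCoeff_ne_zero _ (by rw [hm.leadingCoeff, map_one]; exact one_ne_zero)
  rw [← h1, (IsAlgClosed.splits _).nextCoeff_eq_neg_sum_roots_of_monic hm2, norm_neg]
  refine (norm_multiset_sum_le _).trans ?_
  have h2 : ∀ y ∈ (((minpoly (MvPolynomial (Fin s) ℂ) (π q)).map (eval ξ)).roots.map fun x => ‖x‖), y ≤ C * (1 + ‖ξ‖) ^ k := by
    intro y hy
    obtain ⟨t, ht, rfl⟩ := Multiset.mem_map.1 hy
    have h3 := (Polynomial.mem_roots hm2.ne_zero).1 ht
    obtain ⟨w, hw1, hw2⟩ := exists_pt hπ (ι := MvPolynomial.C) hC (ε := eval ξ) (fun c => eval_C c) (π q) h3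
    rw [← hw2 q rfl]
    exact h ξ w hw1
  refine (Multiset.sum_le_card_nsmul _ _ h2).trans ?_
  rw [Multiset.card_map, IsAlgClosed.card_roots_eq_natDegree, hm.natDegree_map, nsmul_eq_mul, mul_assoc]

/-- the main statement -/
theorem core [Fintype τ] (hπ : Function.Surjective π) (hC : ∀ c, π (C c) = algebraMap (MvPolynomial (Fin s) ℂ) A (C c)) (κ : ℕ) :
    ∃ n : ℕ, ∀ g : Fin (n + 1) → MvPolynomial τ ℂ,
    (∀ i, ∃ C : ℝ, ∀ w : τ → ℂ, (∀ q, π q = 0 → eval w q = 0) → ‖eval w (g i)‖ ≤ C * (1 + ‖w‖) ^ κ) →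
      ∃ a : Fin (n + 1) → ℂ, a ≠ 0 ∧ π (∑ i, MvPolynomial.C (a i) * g i) = 0 := by
  classical
  obtain ⟨D, e, T, hT0, hT⟩ := exists_trace (MvPolynomial (Fin s) ℂ) A
  obtain ⟨C₁, k₁, hC₁, h₁⟩ := over_bd (s := s) hπ
  choose u hu using fun i => hπ (e i)
  obtain ⟨K, hK⟩ : ∃ K : ℕ, ∀ i, (u i).totalDegree ≤ K := ⟨Finset.univ.sup fun i => (u i).totalDegree, fun j => Finset.le_sup (f := fun i => (u i).totalDegree) (Finset.mem_univ j)⟩
  have hfin : {m : Fin s →₀ ℕ | m.degree ≤ k₁ * (κ + K)}.Finite := Finsupp.finite_of_degree_le _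
  have hdeg : ∀ g : MvPolynomial τ ℂ, (∃ C : ℝ, ∀ w : τ → ℂ, (∀ q, π q = 0 → eval w q = 0) → ‖eval w g‖ ≤ C * (1 + ‖w‖) ^ κ) →
      ∀ i, (T (π g * e i)).totalDegree ≤ k₁ * (κ + K) := by
    rintro g ⟨C₂, hC₂⟩ i
    obtain ⟨C₃, hC₃, h₃⟩ := FdC.grow (u i)
    obtain ⟨k, hk⟩ := hT (π g * e i)
    have h4 : (minpoly (MvPolynomial (Fin s) ℂ) (π (g * u i))).nextCoeff.totalDegree ≤ k₁ * (κ + K) := by
      refine next_bd hπ hC (C := |C₂| * C₃ * C₁ ^ (κ + K)) fun ξ w hw => ?_
      have h5 : ∀ q, π q = 0 → eval w q = 0 := by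
        intro q hq
        have := hw 0 q (by rw [hq, map_zero])
        rwa [map_zero] at this
      have h6 : (1 : ℝ) ≤ 1 + ‖w‖ := by linarith [norm_nonneg w]
      have h7 : ‖eval w g‖ ≤ |C₂| * (1 + ‖w‖) ^ κ := (hC₂ w h5).trans (mul_le_mul_of_nonneg_right (le_abs_self _) (by positivity))
      have h8 := FdC.grow_mono hC₃ (hK i) h₃ w
      calc ‖eval w (g * u i)‖ = ‖eval w g‖ * ‖eval w (u i)‖ := by rw [map_mul, norm_mul]
        _ ≤ (|C₂| * (1 + ‖w‖) ^ κ) * (C₃ * (1 + ‖w‖) ^ K) := mul_le_mul h7 h8 (norm_nonneg _) (by positivity)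
        _ = |C₂| * C₃ * (1 + ‖w‖) ^ (κ + K) := by rw [pow_add]; ring
        _ ≤ |C₂| * C₃ * (C₁ * (1 + ‖ξ‖) ^ k₁) ^ (κ + K) := by
            refine mul_le_mul_of_nonneg_left (pow_le_pow_left₀ (by positivity) (h₁ ξ w hw) _) (by positivity)
        _ = _ := by rw [mul_pow, ← pow_mul]; ring
    rw [map_mul, hu] at h4
    rw [hk, totalDegree_neg]
    refine (totalDegree_mul _ _).trans ?_
    have h9 : ((k : MvPolynomial (Fin s) ℂ)).totalDegree = 0 := by
      rw [← map_natCast (MvPolynomial.C (σ := Fin s) (R := ℂ)), totalDegree_C]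
    rw [h9, zero_add]
    exact h4
  let S := hfin.toFinset
  refine ⟨Fintype.card (Fin D × S), fun g hg => ?_⟩
  let L : (Fin (Fintype.card (Fin D × S) + 1) → ℂ) →ₗ[ℂ] (Fin D × S → ℂ) :=
    { toFun := fun a p => ∑ i, a i * coeff (p.2 : Fin s →₀ ℕ) (T (π (g i) * e p.1))
      map_add' := fun a b => by
        funext p
        simp only [Pi.add_apply, add_mul, Finset.sum_add_distrib]
      map_smul' := fun c a => by
        funext p
        simp only [Pi.smul_apply, smul_eq_mul, RingHom.id_apply, Finset.mul_sum, mul_assoc] }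
  have hker : LinearMap.ker L ≠ ⊥ := L.ker_ne_bot_of_finrank_lt (by simp)
  obtain ⟨a, haL, ha0⟩ := Submodule.exists_mem_ne_zero_of_ne_bot hker
  refine ⟨a, ha0, hT0 _ fun j => ?_⟩
  have hlin : T (π (∑ i, MvPolynomial.C (a i) * g i) * e j) = ∑ i, MvPolynomial.C (a i) * T (π (g i) * e j) := by
    rw [map_sum, Finset.sum_mul, map_sum]
    refine Finset.sum_congr rfl fun i _ => ?_
    have h1 : π (MvPolynomial.C (a i) * g i) * e j = (MvPolynomial.C (a i) : MvPolynomial (Fin s) ℂ) • (π (g i) * e j) := by rw [π.map_mul, hC, Algebra.smul_def, mul_assoc]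
    rw [h1, map_smul, smul_eq_mul]
  rw [hlin]
  ext m
  rw [coeff_sum, coeff_zero]
  simp only [coeff_C_mul]
  by_cases hm : m.degree ≤ k₁ * (κ + K)
  · have h1 := congrFun (LinearMap.mem_ker.1 haL) (j, ⟨m, hfin.mem_toFinset.2 hm⟩)
    exact h1
  · refine Finset.sum_eq_zero fun i _ => ?_
    rw [coeff_eq_zero_of_totalDegree_lt, mul_zero]
    refine (hdeg (g i) (hg i) j).trans_lt ?_
    rw [not_le] at hm
    refine hm.trans_le (le_of_eq ?_)
    rfl

end Pool.Agent.GLS.FdD

end
end

section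

/-!
# GTL Defs: strictly rational maps, the four properties for quasi-projective varieties, and the conclusion of the theorem

`locVar P G` is the quasi-projective variety of the points of the projective variety of `P` at which some form `G l` is not `0`.  A dominant rational map `V ⇢ U` of
quasi-projective varieties is strictly rational (Iitaka) if all points `(y, x)` of the closure of its graph with `y ∈ V` have `x ∈ U` (so the graph is proper over `V`).
Examples: dominant regular maps; all dominant rational maps if `U` is projective.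
-/

set_option autoImplicit false

open MvPolynomial

namespace Pool.Agent.GTL

variable {N M : ℕ}

/-- bihomogeneous polynomials -/
theorem eval_bihom {a b : ℕ} {S : MvPolynomial (Fin (M + 1) ⊕ Fin (N + 1)) ℂ}
    (ha : IsWeightedHomogeneous (Sum.elim (fun _ => 1) fun _ => 0 : Fin (M + 1) ⊕ Fin (N + 1) → ℕ) S a)
    (hb : IsWeightedHomogeneous (Sum.elim (fun _ => 0) fun _ => 1 : Fin (M + 1) ⊕ Fin (N + 1) → ℕ) S b) {R : Type*} [CommRing R] [Algebra ℂ R] (c d : R)
    (y : Fin (M + 1) → R) (x : Fin (N + 1) → R) : aeval (Sum.elim (c • y) (d • x)) S = c ^ a * d ^ b * aeval (Sum.elim y x) S := by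
  rw [aeval_def, aeval_def, eval₂_eq', eval₂_eq', Finset.mul_sum]
  refine Finset.sum_congr rfl fun e he => ?_
  have h1 := ha (mem_support_iff.1 he)
  have h2 := hb (mem_support_iff.1 he)
  rw [Finsupp.weight_apply, Finsupp.sum_fintype _ _ (by simp), Fintype.sum_sum_type] at h1 h2
  simp only [Sum.elim_inl, Sum.elim_inr, smul_eq_mul, mul_one, mul_zero, Finset.sum_const_zero, add_zero, zero_add] at h1 h2
  rw [Fintype.prod_sum_type, Fintype.prod_sum_type]
  simp only [Sum.elim_inl, Sum.elim_inr, Pi.smul_apply, smul_eq_mul, mul_pow, Finset.prod_mul_distrib, Finset.prod_pow_eq_pow_sum, h1, h2]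
  ring

theorem eval_bihom' {a b : ℕ} {S : MvPolynomial (Fin (M + 1) ⊕ Fin (N + 1)) ℂ}
    (ha : IsWeightedHomogeneous (Sum.elim (fun _ => 1) fun _ => 0 : Fin (M + 1) ⊕ Fin (N + 1) → ℕ) S a)
    (hb : IsWeightedHomogeneous (Sum.elim (fun _ => 0) fun _ => 1 : Fin (M + 1) ⊕ Fin (N + 1) → ℕ) S b) (c d : ℂ)
    (y : Fin (M + 1) → ℂ) (x : Fin (N + 1) → ℂ) : eval (Sum.elim (c • y) (d • x)) S = c ^ a * d ^ b * eval (Sum.elim y x) S := by
  have h := eval_bihom ha hb c d y x
  rwa [MvPolynomial.aeval_eq_eval, MvPolynomial.aeval_eq_eval] at h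

end Pool.Agent.GTL

end

section

/-!
# GBL Pol: generated logarithmic symmetric differentials are in polar position

As `GB/Pol`.  (`eul B x ≠ 0` because `x ≠ 0`.)
-/

set_option autoImplicit false

open MvPolynomial
open Pool.Agent.H13.SM (conTan cone)
open Pool.Agent.GL

namespace Pool.Agent.GBL

variable {N : ℕ} {P : Ideal (MvPolynomial (Fin (N + 1)) ℂ)} {B : Finset (Fin (N + 1))} {J m : ℕ} {θ : Fin J → LogSec P B m}

/-- the polynomial of a linear form -/
private noncomputable def lf (l : (Fin (N + 1) → ℂ) →ₗ[ℂ] ℂ) : MvPolynomial (Fin (N + 1)) ℂ := ∑ i, C (l (Pi.single i 1)) * X i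

private theorem eval_lf (l : (Fin (N + 1) → ℂ) →ₗ[ℂ] ℂ) (y : Fin (N + 1) → ℂ) : eval y (lf l) = l y := by
  rw [lf, map_sum]
  conv_rhs => rw [pi_eq_sum_univ' y, map_sum]
  refine Finset.sum_congr rfl fun i _ => ?_
  rw [map_mul, eval_C, eval_X, map_smul, smul_eq_mul, mul_comm]

private theorem lf_hom (l : (Fin (N + 1) → ℂ) →ₗ[ℂ] ℂ) : (lf l).IsHomogeneous 1 := by
  refine IsHomogeneous.sum _ _ _ fun i _ => ?_
  simpa using (isHomogeneous_C (Fin (N + 1)) (l (Pi.single i 1))).mul (isHomogeneous_X ℂ i)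

theorem logPolar_of_generated (hm : 1 ≤ m) (h : LogGenerated θ) : LogPolar (m := fun _ => m) θ := by
  intro x hx v hv w hw hvx hwx
  by_contra hne
  simp only [not_exists, not_not] at hne
  obtain ⟨a, ha⟩ : ∃ a, x a ≠ 0 := by
    by_contra h0
    simp only [not_exists, not_not] at h0
    exact hx.1 (funext h0)
  have hlin : ∀ t : ℂ, act B x (v + t • w) = act B x v + t • act B x w := fun t => by
    funext i
    simp only [act, Pi.add_apply, Pi.smul_apply, smul_eq_mul]
    split_ifs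
    · ring
    · rfl
  have hT : ∀ t : ℂ, act B x (v + t • w) ∈ conTan P x := fun t => by
    rw [hlin]
    exact (conTan P x).add_mem hv ((conTan P x).smul_mem t hw)
  -- the functions are differentiable
  have hd : ∀ k, HasDerivAt (fun t : ℂ => (θ k).toFun x (v + t • w)) 0 0 := by
    intro k
    obtain ⟨e, A, hA⟩ := (θ k).regular a
    have h1 : (fun t : ℂ => (θ k).toFun x (v + t • w)) = fun t : ℂ => (x a ^ e)⁻¹ * eval (Pool.Agent.GG.pt x (v + t • w)) A := by
      funext t
      rw [← hA x hx _ (hT t), inv_mul_cancel_left₀ (pow_ne_zero e ha)]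
    have h2 : DifferentiableAt ℂ (fun t : ℂ => (θ k).toFun x (v + t • w)) 0 := by
      rw [h1]
      exact ((Pool.Agent.GG.hasDerivAt_evalV A x v w).differentiableAt).const_mul _
    have h3 := h2.hasDerivAt
    rwa [hne k] at h3
  -- every admissible polynomial has derivative `0`
  have key : ∀ G : MvPolynomial (Fin (N + 1)) ℂ, G.IsHomogeneous m → (∀ (u : Fin (N + 1) → ℂ) (a : ℂ), eval (u + a • eul B x) G = eval u G) →
      HasDerivAt (fun t : ℂ => eval (v + t • w) G) 0 0 := by
    intro G hG hinv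
    obtain ⟨c, hc⟩ := h x hx G hG hinv
    have h1 : (fun t : ℂ => eval (v + t • w) G) = fun t : ℂ => ∑ k, c k * (θ k).toFun x (v + t • w) := by
      funext t
      exact hc (v + t • w) (hT t)
    rw [h1]
    have h3 : ∀ k ∈ (Finset.univ : Finset (Fin J)), HasDerivAt (fun t : ℂ => c k * (θ k).toFun x (v + t • w)) (c k * 0) 0 :=
      fun k _ => (hd k).const_mul (c k)
    have h4 := HasDerivAt.fun_sum h3
    have h5 : (∑ k : Fin J, c k * (0 : ℂ)) = 0 := Finset.sum_eq_zero fun k _ => mul_zero _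
    rw [h5] at h4
    exact h4
  -- the product of two linear forms
  have main : ∀ l₁ l₂ : (Fin (N + 1) → ℂ) →ₗ[ℂ] ℂ, l₁ (eul B x) = 0 → l₂ (eul B x) = 0 →
      HasDerivAt (fun t : ℂ => (l₁ v + t * l₁ w) ^ (m - 1) * (l₂ v + t * l₂ w)) 0 0 := by
    intro l₁ l₂ h1 h2
    have h3 := key (lf l₁ ^ (m - 1) * lf l₂) (by
      have h4 := ((lf_hom l₁).pow (m - 1)).mul (lf_hom l₂)
      rwa [one_mul, Nat.sub_add_cancel hm] at h4) (fun u a => by
        rw [map_mul, map_pow, map_mul, map_pow, eval_lf, eval_lf, eval_lf, eval_lf, map_add, map_add, map_smul, map_smul, h1, h2,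
          smul_zero, add_zero, add_zero])
    have h5 : (fun t : ℂ => eval (v + t • w) (lf l₁ ^ (m - 1) * lf l₂)) = fun t : ℂ => (l₁ v + t * l₁ w) ^ (m - 1) * (l₂ v + t * l₂ w) := by
      funext t
      rw [map_mul, map_pow, eval_lf, eval_lf, map_add, map_add, map_smul, map_smul, smul_eq_mul, smul_eq_mul]
    rwa [h5] at h3
  have lin : ∀ l : (Fin (N + 1) → ℂ) →ₗ[ℂ] ℂ, HasDerivAt (fun t : ℂ => l v + t * l w) (l w) 0 := fun l => by
    simpa using ((hasDerivAt_id (0 : ℂ)).mul_const (l w)).const_add (l v)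
  -- a linear form which kills a subspace
  have ex : ∀ (p : Submodule ℂ (Fin (N + 1) → ℂ)) (u : Fin (N + 1) → ℂ), u ∉ p → ∃ l : (Fin (N + 1) → ℂ) →ₗ[ℂ] ℂ, l u ≠ 0 ∧ ∀ y ∈ p, l y = 0 := by
    intro p u hu
    obtain ⟨l, h1, h2⟩ := Submodule.exists_dual_map_eq_bot_of_notMem hu inferInstance
    refine ⟨l, h1, fun y hy => ?_⟩
    have h3 : l y ∈ p.map l := Submodule.mem_map_of_mem hy
    rw [h2] at h3
    exact (Submodule.mem_bot ℂ).1 h3
  obtain ⟨l₁, h1v, h1x⟩ := ex _ v hvx
  have h1x' : l₁ (eul B x) = 0 := h1x (eul B x) (Submodule.mem_span_singleton_self _)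
  by_cases hsp : w ∈ Submodule.span ℂ {eul B x, v}
  · obtain ⟨b, c, hbc⟩ := Submodule.mem_span_pair.1 hsp
    have hc : c ≠ 0 := by
      rintro rfl
      rw [zero_smul, add_zero] at hbc
      exact hwx (Submodule.mem_span_singleton.2 ⟨b, hbc⟩)
    have hw1 : l₁ w = c * l₁ v := by
      rw [← hbc, map_add, map_smul, map_smul, h1x', smul_zero, zero_add, smul_eq_mul]
    have h2 := main l₁ l₁ h1x' h1x'
    have h3 : (fun t : ℂ => (l₁ v + t * l₁ w) ^ (m - 1) * (l₁ v + t * l₁ w)) = fun t : ℂ => (l₁ v + t * l₁ w) ^ m := by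
      funext t
      rw [← pow_succ, Nat.sub_add_cancel hm]
    rw [h3] at h2
    have h4 := ((lin l₁).fun_pow m).unique h2
    rw [zero_mul, add_zero, hw1] at h4
    have h5 : (m : ℂ) * l₁ v ^ (m - 1) * (c * l₁ v) ≠ 0 :=
      mul_ne_zero (mul_ne_zero (by exact_mod_cast (by omega : m ≠ 0)) (pow_ne_zero _ h1v)) (mul_ne_zero hc h1v)
    exact h5 h4
  · obtain ⟨l₂, h2w, h2⟩ := ex _ w hsp
    have h2x : l₂ (eul B x) = 0 := h2 (eul B x) (Submodule.subset_span (by simp))
    have h2v : l₂ v = 0 := h2 v (Submodule.subset_span (by simp))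
    have h3 := main l₁ l₂ h1x' h2x
    have h4 := (((lin l₁).fun_pow (m - 1)).mul (lin l₂)).unique h3
    simp only [zero_mul, add_zero, h2v, mul_zero, zero_add] at h4
    exact (mul_ne_zero (pow_ne_zero _ h1v) h2w) h4

end Pool.Agent.GBL

end

section

/-!
# GL EmpA: the case without boundary

For `B = ∅` the logarithmic symmetric differentials are the symmetric differentials of `GG.Defs`, and so on.
-/

set_option autoImplicit false

open MvPolynomial Topology Filter Metric
open Pool.Agent.H13.SM (conTan cone)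
open Pool.Agent.H17 (PN VanishesAt)
open Pool.Agent.GG

noncomputable section

namespace Pool.Agent.GL

variable {N : ℕ} {P : Ideal (MvPolynomial (Fin (N + 1)) ℂ)}

theorem act_empty (x ξ : Fin (N + 1) → ℂ) : act ∅ x ξ = ξ := by
  funext i
  simp [act]

theorem eul_empty (x : Fin (N + 1) → ℂ) : eul ∅ x = x := by
  funext i
  simp [eul]

theorem lsc_empty (c : ℂ) (ξ : Fin (N + 1) → ℂ) : lsc ∅ c ξ = c • ξ := by
  funext i
  simp [lsc]

/-- a logarithmic symmetric differential without poles -/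
def toSym {m : ℕ} (t : LogSec P ∅ m) : SymSec P m where
  toFun := t.toFun
  regular := by
    intro i
    obtain ⟨e, A, h⟩ := t.regular i
    exact ⟨e, A, fun x hx v hv => h x hx v (by rwa [act_empty])⟩
  add_smul := by
    intro x hx v hv a
    have := t.add_smul x hx v (by rwa [act_empty]) a
    rwa [eul_empty] at this
  smul := fun x hx v hv a => t.smul x hx v (by rwa [act_empty]) a
  scale := by
    intro x hx v hv c hc
    have := t.scale x hx v (by rwa [act_empty]) c hc
    rwa [lsc_empty] at this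

theorem polar_toSym {J : ℕ} {m : Fin J → ℕ} {θ : ∀ k, LogSec P ∅ (m k)} (hθ : LogPolar θ) : Polar fun k => toSym (θ k) := by
  intro x hx v hv w hw hvx hwx
  exact hθ x hx v (by rwa [act_empty]) w (by rwa [act_empty]) (by rwa [eul_empty]) (by rwa [eul_empty])

end Pool.Agent.GL

end
end

section

/-!
# GLS Defs: logarithmic symmetric differentials on singular varieties (PROJECT GLS, note 4687)

`P` a homogeneous prime ideal, `Z` its projective variety (singular allowed), `B ≠ ∅`, `U` the complement of the hyperplane sections `x i = 0`, `i ∈ B`.  If the initial vectors of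
the curves with constant `θ` are dense over `Z ∩ U`, there is a prime ideal `𝔯` of the phase space `Ph (N + 1)` with `LSol f 𝔯`, whose field is algebraic over the function field of
`Z`.  All curves have order one, so the derivation is locally finite over its constants; the eigenvalues grade the field.
-/

set_option autoImplicit false

open MvPolynomial Topology Filter Metric
open Pool.Agent.GG Pool.Agent.GA Pool.Agent.GL

noncomputable section

namespace Pool.Agent.GLS

/-! ## algebra -/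

/-- The Hankel determinant `det (D^(i+j) g)`, `0 ≤ i, j ≤ n`. -/
def hk {A : Type} [CommRing A] [Algebra ℂ A] (D : Derivation ℂ A A) (n : ℕ) (g : A) : A := (Matrix.of fun i j : Fin (n + 1) => (⇑D)^[(i : ℕ) + j] g).det

/-- `e` is a generalized eigenvector of `D` with the eigenvalue `lam`. -/
def Gev {M : Type} [Field M] [Algebra ℂ M] (D : Derivation ℂ M M) (lam e : M) : Prop := ∃ k : ℕ, (fun x => D x - lam * x)^[k] e = 0

/-- Linear equation with constant coefficients. -/
def ConstRel {M : Type} [Field M] [Algebra ℂ M] (D : Derivation ℂ M M) (y : M) : Prop :=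
  ∃ (n : ℕ) (a : Fin (n + 1) → M), a ≠ 0 ∧ (∀ j, D (a j) = 0) ∧ ∑ j, a j * (⇑D)^[(j : ℕ)] y = 0

/-- The polynomial relations of the `e i` are graded by the weights `ν i`. -/
def Graded {M : Type} [Field M] [Algebra ℂ M] {Γ : Type} [AddCommGroup Γ] {p : ℕ} (e : Fin p → M) (ν : Fin p → Γ) : Prop :=
  ∀ G : MvPolynomial (Fin p) ℂ, aeval e G = 0 → ∀ v : Γ, aeval e (weightedHomogeneousComponent ν v G) = 0

/-! ## orbits -/

section

variable {τ : Type} [Fintype τ]

omit [Fintype τ] in
/-- `w` is a zero of the ideal -/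
def Zr (I : Ideal (MvPolynomial τ ℂ)) (w : τ → ℂ) : Prop := ∀ g ∈ I, eval w g = 0

/-- `D` preserves `𝔯`, `c` and the `h k` are constants modulo `𝔯`; for all points `w` of `V (𝔯)`, `c (w) ≠ 0`, with given values of `c` and the `h k`, the orbits of the
vector field `D` through `w` exist for `‖z‖ < r`, and are bounded by `C (1 + ‖w‖) ^ κ`. -/
structure Orbs (𝔯 : Ideal (MvPolynomial τ ℂ)) (D : Derivation ℂ (MvPolynomial τ ℂ) (MvPolynomial τ ℂ)) (c : MvPolynomial τ ℂ) {J : ℕ} (h : Fin J → MvPolynomial τ ℂ) : Prop where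
  stable : ∀ g ∈ 𝔯, D g ∈ 𝔯
  constc : D c ∈ 𝔯
  const : ∀ k, D (h k) ∈ 𝔯
  orbit : ∀ w₀, Zr 𝔯 w₀ → eval w₀ c ≠ 0 → ∃ (r C : ℝ) (κ : ℕ), 0 < r ∧ ∀ w, Zr 𝔯 w → eval w c = eval w₀ c → (∀ k, eval w (h k) = eval w₀ (h k)) →
    ∃ Y : ℂ → τ → ℂ, Y 0 = w ∧ (∀ z ∈ ball (0 : ℂ) r, HasDerivAt Y (fun s => eval (Y z) (D (X s))) z) ∧ ∀ z ∈ ball (0 : ℂ) r, ‖Y z‖ ≤ C * (1 + ‖w‖) ^ κ

end

/-! ## the logarithmic phase space -/

variable {N : ℕ} {P : Ideal (MvPolynomial (Fin (N + 1)) ℂ)} {B : Finset (Fin (N + 1))} {J : ℕ} {m : Fin J → ℕ} {θ : ∀ k, LogSec P B (m k)} {b : Fin (N + 1)}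

/-- the members of the family with fixed values: `x_b`, `v_b`, `Q_j (x)`, `dQ_j (x) v`, `y ∏ x_i`, `d (y ∏ x_i)` -/
def feq (f : LFrame θ b) : ((Unit ⊕ Unit) ⊕ (Fin f.q ⊕ Fin f.q)) ⊕ (Unit ⊕ Unit) → MvPolynomial (Ph (N + 1)) ℂ :=
  Sum.elim (fun l => gfamL f (Sum.inl l) - C (gval (q := f.q) (0 : Fin J → ℂ) (Sum.inl l)))
    fun l => gfamL f (Sum.inr (Sum.inl l)) - C (gval (q := f.q) (0 : Fin J → ℂ) (Sum.inr (Sum.inl l)))

/-- `θ k` as a polynomial on the phase space -/
def tht (f : LFrame θ b) (k : Fin J) : MvPolynomial (Ph (N + 1)) ℂ := gfamL f (Sum.inr (Sum.inr k))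

/-- the equations of the criterion -/
def CSL (f : LFrame θ b) (I : Fin (N + 2) → GIx f.q J) : Set (MvPolynomial (Ph (N + 1)) ℂ) :=
  {g | (∃ l, g = feq f l) ∨ ∃ l k, g = (⇑(Dt (gfamL f) I))^[k + 1] (gfamL f l)}

/-- the position of a point of the logarithmic phase space, without the additional coordinate -/
def ix (i : Fin (N + 1)) : Ph (N + 1) := Sum.inl i.castSucc

/-- A family of curves with constant `θ`: `𝔯` is prime, contains the equations, is preserved by all `Dt K`; the `Dt K` are proportional, and `0` on the family. -/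
structure LSol (f : LFrame θ b) (𝔯 : Ideal (MvPolynomial (Ph (N + 1)) ℂ)) : Prop where
  prime : 𝔯.IsPrime
  eqs : ∀ l, feq f l ∈ 𝔯
  stable : ∀ K, ∀ g ∈ 𝔯, Dt (gfamL f) K g ∈ 𝔯
  crit : ∀ K l, Dt (gfamL f) K (gfamL f l) ∈ 𝔯
  cross : ∀ K K' g, vdet (gfamL f) K * Dt (gfamL f) K' g - vdet (gfamL f) K' * Dt (gfamL f) K g ∈ 𝔯
  ne : ∃ i, X (Sum.inr (Fin.castSucc i)) ∉ 𝔯

/-- the derivation `∑ β K • Dt K` of the polynomial ring -/
def DD (f : LFrame θ b) (β : (Fin (N + 2) → GIx f.q J) → MvPolynomial (Ph (N + 1)) ℂ) :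
    Derivation ℂ (MvPolynomial (Ph (N + 1)) ℂ) (MvPolynomial (Ph (N + 1)) ℂ) := ∑ K, β K • Dt (gfamL f) K

/-- `θ k ^ p = ∑ β K vdet K` modulo `𝔯` -/
def Bez (f : LFrame θ b) (𝔯 : Ideal (MvPolynomial (Ph (N + 1)) ℂ)) (k : Fin J) (p : ℕ) (β : (Fin (N + 2) → GIx f.q J) → MvPolynomial (Ph (N + 1)) ℂ) : Prop :=
  tht f k ^ p - ∑ K, β K * vdet (gfamL f) K ∈ 𝔯

end Pool.Agent.GLS

end
end

section

/-!
# GLS Avd: a point which avoids countably many hypersurfaces

PROOF (helper59).  The Nullstellensatz in countably many variables: a field which is a countably generated `ℂ`-algebra has countable dimension; a transcendental element `x` would give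
the uncountable independent family `1 / (x - a)`.  Applied to the kernel of `ℂ[τ, (Y_n)] → Frac (ℂ[τ] / 𝔯)`, `Y_n ↦ 1 / f_n`.
-/

set_option autoImplicit false

open MvPolynomial Topology Filter Metric
open Pool.Agent.H13.SM (conTan cone)
open Pool.Agent.H17 (PN VanishesAt HolomorphicInto puncturedDisc)
open Pool.Agent.GG Pool.Agent.GA Pool.Agent.GL

namespace Pool.Agent.GLS

/-- Nullstellensatz in countably many variables over `ℂ`. -/
theorem exists_zero_of_ne_top {τ : Type} [Countable τ] (J : Ideal (MvPolynomial τ ℂ))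
    (hJ : J ≠ ⊤) : ∃ w : τ → ℂ, ∀ f ∈ J, eval w f = 0 := by
  classical
  obtain ⟨M, hM, hJM⟩ := Ideal.exists_le_maximal _ hJ
  let _ : Field (MvPolynomial τ ℂ ⧸ M) := Ideal.Quotient.field M
  have hrank : Module.rank ℂ (MvPolynomial τ ℂ ⧸ M) ≤ Cardinal.aleph0 := by
    refine (LinearMap.rank_le_of_surjective (Ideal.Quotient.mkₐ ℂ M).toLinearMap
      (Ideal.Quotient.mkₐ_surjective ℂ M)).trans ?_
    rw [MvPolynomial.rank_eq]
    exact Cardinal.mk_le_aleph0
  have halg : ∀ x : MvPolynomial τ ℂ ⧸ M, ∃ z : ℂ, algebraMap ℂ (MvPolynomial τ ℂ ⧸ M) z = x := by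
    intro x
    have hx : IsAlgebraic ℂ x := by
      by_contra hx
      have h1 := (show Transcendental ℂ x from hx).linearIndependent_sub_inv.cardinal_le_rank
      have h2 := h1.trans hrank
      rw [Cardinal.mk_complex] at h2
      exact absurd h2 (not_le.2 Cardinal.aleph0_lt_continuum)
    have hint : IsIntegral ℂ x := hx.isIntegral
    have h3 := IsAlgClosed.degree_eq_one_of_irreducible ℂ (minpoly.irreducible hint)
    have h4 := minpoly.mem_range_of_degree_eq_one ℂ x h3
    exact h4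
  choose w hw using fun s : τ => halg (Ideal.Quotient.mkₐ ℂ M (X s))
  have hφ : ∀ f : MvPolynomial τ ℂ, Ideal.Quotient.mkₐ ℂ M f =
      algebraMap ℂ (MvPolynomial τ ℂ ⧸ M) (eval w f) := by
    intro f
    have h : Ideal.Quotient.mkₐ ℂ M = (Algebra.ofId ℂ (MvPolynomial τ ℂ ⧸ M)).comp (aeval w) := by
      apply MvPolynomial.algHom_ext
      intro s
      rw [← hw, AlgHom.comp_apply, aeval_X]
      rfl
    have := DFunLike.congr_fun h f
    rw [this, AlgHom.comp_apply, MvPolynomial.aeval_eq_eval]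
    rfl
  refine ⟨w, fun f hf => ?_⟩
  apply (algebraMap ℂ (MvPolynomial τ ℂ ⧸ M)).injective
  rw [← hφ, map_zero]
  exact Ideal.Quotient.eq_zero_iff_mem.2 (hJM hf)

/-- countable avoidance -/
theorem exists_avoid_countable {σ : Type} [Countable σ] (r : Ideal (MvPolynomial σ ℂ)) [hr : r.IsPrime]
    (g : ℕ → MvPolynomial σ ℂ) (hg : ∀ n, g n ∉ r) :
    ∃ w : σ → ℂ, (∀ f ∈ r, eval w f = 0) ∧ ∀ n, eval w (g n) ≠ 0 := by
  classical
  let q : MvPolynomial σ ℂ →ₐ[ℂ] FractionRing (MvPolynomial σ ℂ ⧸ r) :=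
    (IsScalarTower.toAlgHom ℂ (MvPolynomial σ ℂ ⧸ r) _).comp (Ideal.Quotient.mkₐ ℂ r)
  have hq : ∀ f, q f = 0 ↔ f ∈ r := by
    intro f
    show algebraMap (MvPolynomial σ ℂ ⧸ r) (FractionRing (MvPolynomial σ ℂ ⧸ r))
      (Ideal.Quotient.mk r f) = 0 ↔ _
    rw [FaithfulSMul.algebraMap_eq_zero_iff, Ideal.Quotient.eq_zero_iff_mem]
  let ψ : MvPolynomial (σ ⊕ ℕ) ℂ →ₐ[ℂ] FractionRing (MvPolynomial σ ℂ ⧸ r) :=
    aeval (Sum.elim (fun s => q (X s)) (fun n => (q (g n))⁻¹))
  have hψ1 : ∀ f : MvPolynomial σ ℂ, ψ (rename Sum.inl f) = q f := by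
    intro f
    have h : ψ.comp (rename Sum.inl) = q := by
      apply MvPolynomial.algHom_ext
      intro s
      rw [AlgHom.comp_apply, rename_X, aeval_X]
      rfl
    exact DFunLike.congr_fun h f
  obtain ⟨v, hv⟩ := exists_zero_of_ne_top (RingHom.ker ψ) (RingHom.ker_ne_top _)
  have hev : ∀ f : MvPolynomial σ ℂ, eval v (rename Sum.inl f) = eval (fun s => v (Sum.inl s)) f := by
    intro f
    rw [eval_rename]
    rfl
  refine ⟨fun s => v (Sum.inl s), fun f hf => ?_, fun n h0 => ?_⟩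
  · rw [← hev]
    apply hv
    rw [RingHom.mem_ker, hψ1]
    exact (hq f).2 hf
  · have h1 : X (Sum.inr n) * rename Sum.inl (g n) - 1 ∈ RingHom.ker ψ := by
      rw [RingHom.mem_ker, map_sub, map_mul, hψ1, map_one, aeval_X, Sum.elim_inr,
        inv_mul_cancel₀, sub_self]
      intro h
      exact hg n ((hq _).1 h)
    have h2 := hv _ h1
    rw [map_sub, map_mul, hev, h0, mul_zero, map_one, zero_sub, neg_eq_zero] at h2
    exact one_ne_zero h2

/-- MODULE Avd -/
theorem exists_avoid {τ : Type} [Finite τ] (𝔯 : Ideal (MvPolynomial τ ℂ)) [𝔯.IsPrime] (f : ℕ → MvPolynomial τ ℂ) (hf : ∀ j, f j ∉ 𝔯) :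
    ∃ w : τ → ℂ, Zr 𝔯 w ∧ ∀ j, eval w (f j) ≠ 0 := by
  obtain ⟨w, h1, h2⟩ := exists_avoid_countable 𝔯 f hf
  exact ⟨w, h1, h2⟩

end Pool.Agent.GLS

end

section

/-!
# GLS Fd: polynomials of bounded growth form a finite dimensional space

PROOF.  `A = ℂ[τ] / V`, `R = ℂ[t] ⊆ A` finite (`exists_finite_inj_algHom_of_fg`), `exists_trace` (FdA): elements `e_i` of `A` and an `R`-linear `T : A → R`, `T x = - k nextCoeff (minpoly R x)`, with
`T (x e_i) = 0` for all `i` only for `x = 0`.  `T (g e_i)` is a polynomial of degree `≤ k₁ (κ + K)` (`exists_pt`: the roots of the specialised minimal polynomial are values at points of `V`), so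
`g ↦ (T (g e_i))_i` is a linear map to a finite dimensional space, injective modulo `V`.
-/

set_option autoImplicit false

open MvPolynomial Topology Filter Metric
open Pool.Agent.H13.SM (conTan cone)
open Pool.Agent.H17 (PN VanishesAt HolomorphicInto puncturedDisc)
open Pool.Agent.GG Pool.Agent.GA Pool.Agent.GL

namespace Pool.Agent.GLS

theorem fd {τ : Type} [Fintype τ] (V : Ideal (MvPolynomial τ ℂ)) [V.IsPrime] (κ : ℕ) : ∃ n : ℕ, ∀ g : Fin (n + 1) → MvPolynomial τ ℂ,
    (∀ i, ∃ C : ℝ, ∀ w : τ → ℂ, Zr V w → ‖eval w (g i)‖ ≤ C * (1 + ‖w‖) ^ κ) → ∃ a : Fin (n + 1) → ℂ, a ≠ 0 ∧ ∑ i, C (a i) * g i ∈ V := by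
  obtain ⟨s, φ, hφ, hfin⟩ := exists_finite_inj_algHom_of_fg ℂ (MvPolynomial τ ℂ ⧸ V)
  algebraize [φ.toRingHom]
  have h1 : Module.Finite (MvPolynomial (Fin s) ℂ) (MvPolynomial τ ℂ ⧸ V) := hfin
  have h2 : FaithfulSMul (MvPolynomial (Fin s) ℂ) (MvPolynomial τ ℂ ⧸ V) := (faithfulSMul_iff_algebraMap_injective _ _).2 hφ
  obtain ⟨n, hn⟩ := FdD.core (s := s) (π := Ideal.Quotient.mk V) Ideal.Quotient.mk_surjective (fun c => (φ.commutes c).symm) κ
  refine ⟨n, fun g hg => ?_⟩
  obtain ⟨a, ha, h3⟩ := hn g (fun i => by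
    obtain ⟨C₂, hC₂⟩ := hg i
    refine ⟨C₂, fun w hw => hC₂ w fun q hq => hw q (Ideal.Quotient.eq_zero_iff_mem.2 hq)⟩)
  exact ⟨a, ha, Ideal.Quotient.eq_zero_iff_mem.1 h3⟩

end Pool.Agent.GLS

end

section

/-!
# GLS Fxi: the field is generated by one element over the field of the elements of degree zero

PROOF.  As in `H62.FC.GradedField` (`not_logGeneralType_of_graded`): `I` = the `i` with `e i ≠ 0`; `g` = gcd of the `ν i`, `i ∈ I` (`≠ 0`), `t = ∏ e i ^ c i`, `∑ c i ν i = g`; `ν i = g k i`; `F` = the field generated by the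
`e i * t ^ (- k i)`.  `t` is transcendental over `F`: the automorphism `e i ↦ 2 ^ (ν i) e i` of `K₂` (it exists because the relations are graded) is the identity on `F` and maps `t` to `2 ^ g t`.
-/

set_option autoImplicit false

open MvPolynomial Topology Filter Metric
open Pool.Agent.H13.SM (conTan cone)
open Pool.Agent.H17 (PN VanishesAt HolomorphicInto puncturedDisc)
open Pool.Agent.GG Pool.Agent.GA Pool.Agent.GL

namespace Pool.Agent.GLS

variable {p : ℕ}

/-- The substitution `X i ↦ μ ^ (ν i) X i`. -/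
private noncomputable def Fxi_phi (ν : Fin p → ℤ) (μ : ℂ) : MvPolynomial (Fin p) ℂ →ₐ[ℂ] MvPolynomial (Fin p) ℂ :=
  aeval fun i => C (μ ^ ν i) * X i

private lemma Fxi_zpow_sum {μ : ℂ} (hμ : μ ≠ 0) (ν : Fin p → ℤ) (s : Finset (Fin p)) (d : Fin p → ℕ) :
    ∏ i ∈ s, (μ ^ ν i) ^ d i = μ ^ (∑ i ∈ s, d i • ν i) := by
  classical
  induction s using Finset.induction with
  | empty => simp
  | insert a s ha ih =>
    rw [Finset.prod_insert ha, Finset.sum_insert ha, ih, zpow_add₀ hμ, nsmul_eq_mul, mul_comm _ (ν a), zpow_mul, zpow_natCast]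

private lemma Fxi_phi_monomial {μ : ℂ} (hμ : μ ≠ 0) (ν : Fin p → ℤ) (d : Fin p →₀ ℕ) (c : ℂ) :
    Fxi_phi ν μ (monomial d c) = C (μ ^ (Finsupp.weight ν d)) * monomial d c := by
  rw [Fxi_phi, aeval_monomial, monomial_eq]
  simp only [mul_pow]
  rw [Finsupp.prod_mul]
  have h1 : (d.prod fun i k => (C (μ ^ ν i) : MvPolynomial (Fin p) ℂ) ^ k) = C (μ ^ (Finsupp.weight ν d)) := by
    rw [Finsupp.weight_apply, Finsupp.sum, ← Fxi_zpow_sum hμ ν d.support d, Finsupp.prod, map_prod]
    exact Finset.prod_congr rfl fun i _ => by rw [map_pow]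
  rw [h1]
  change C c * _ = _
  ring

private lemma Fxi_phi_weighted {μ : ℂ} (hμ : μ ≠ 0) (ν : Fin p → ℤ) {v : ℤ} {q : MvPolynomial (Fin p) ℂ} (hq : IsWeightedHomogeneous ν q v) :
    Fxi_phi ν μ q = C (μ ^ v) * q := by
  conv_lhs => rw [q.as_sum]
  conv_rhs => rw [q.as_sum]
  rw [map_sum, Finset.mul_sum]
  refine Finset.sum_congr rfl fun d hd => ?_
  rw [Fxi_phi_monomial hμ, hq (mem_support_iff.1 hd)]

private lemma Fxi_phi_mem {K₂ : Type} [Field K₂] [Algebra ℂ K₂] {e : Fin p → K₂} {μ : ℂ} (hμ : μ ≠ 0) {ν : Fin p → ℤ} (hg : Graded e ν)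
    {q : MvPolynomial (Fin p) ℂ} (hq : aeval e q = 0) : aeval e (Fxi_phi ν μ q) = 0 := by
  rw [← sum_weightedHomogeneousComponent ν q, finsum_eq_sum _ (weightedHomogeneousComponent_finsupp q), map_sum, map_sum]
  refine Finset.sum_eq_zero fun v _ => ?_
  rw [Fxi_phi_weighted hμ ν (weightedHomogeneousComponent_isWeightedHomogeneous v q), map_mul, hg q hq v, mul_zero]

private lemma Fxi_phi_phi {μ : ℂ} (hμ : μ ≠ 0) (ν : Fin p → ℤ) (q : MvPolynomial (Fin p) ℂ) : Fxi_phi ν μ⁻¹ (Fxi_phi ν μ q) = q := by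
  have h : (Fxi_phi ν μ⁻¹).comp (Fxi_phi ν μ) = AlgHom.id ℂ (MvPolynomial (Fin p) ℂ) := by
    apply MvPolynomial.algHom_ext
    intro i
    rw [AlgHom.comp_apply, AlgHom.id_apply, Fxi_phi, Fxi_phi, aeval_X, map_mul, aeval_X, aeval_C]
    change C (μ ^ ν i) * _ = _
    rw [← mul_assoc, ← C_mul, inv_zpow, mul_inv_cancel₀ (zpow_ne_zero _ hμ), C_1, one_mul]
  exact congrArg (fun f : MvPolynomial (Fin p) ℂ →ₐ[ℂ] MvPolynomial (Fin p) ℂ => f q) h

/-- The automorphism of the field. -/
private lemma Fxi_exists_sigma {K₂ : Type} [Field K₂] [Algebra ℂ K₂] {e : Fin p → K₂} (hgen : IntermediateField.adjoin ℂ (Set.range e) = ⊤) {μ : ℂ}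
    (hμ : μ ≠ 0) {ν : Fin p → ℤ} (hg : Graded e ν) : ∃ σ : K₂ →ₐ[ℂ] K₂, ∀ i, σ (e i) = algebraMap ℂ K₂ (μ ^ ν i) * e i := by
  let φ : MvPolynomial (Fin p) ℂ →ₐ[ℂ] K₂ := aeval e
  let Q : Type := MvPolynomial (Fin p) ℂ ⧸ RingHom.ker φ
  let κ : Q →ₐ[ℂ] K₂ := Ideal.kerLiftAlg φ
  have hκ : Function.Injective κ := Ideal.kerLiftAlg_injective φ
  let _ : Algebra Q K₂ := κ.toRingHom.toAlgebra
  have halg : ∀ x : Q, algebraMap Q K₂ x = κ x := fun x => rfl
  have : IsScalarTower ℂ Q K₂ := IsScalarTower.of_algebraMap_eq (R := ℂ) (S := Q) (A := K₂) fun x => (κ.commutes x).symm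
  have : FaithfulSMul Q K₂ := (faithfulSMul_iff_algebraMap_injective Q K₂).2 hκ
  have : IsFractionRing Q K₂ := by
    refine IsFractionRing.of_field Q K₂ fun z => ?_
    have hz : z ∈ IntermediateField.adjoin ℂ (Set.range e) := by
      rw [hgen]
      exact IntermediateField.mem_top
    obtain ⟨r, s, h⟩ := (IntermediateField.mem_adjoin_range_iff ℂ e z).1 hz
    exact ⟨Ideal.Quotient.mk _ r, Ideal.Quotient.mk _ s, h⟩
  have h1 : RingHom.ker φ ≤ (RingHom.ker φ).comap (Fxi_phi ν μ) := fun q hq => by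
    rw [Ideal.mem_comap, RingHom.mem_ker]
    exact Fxi_phi_mem hμ hg ((RingHom.mem_ker).1 hq)
  let f : Q →ₐ[ℂ] Q := Ideal.quotientMapₐ (RingHom.ker φ) (Fxi_phi ν μ) h1
  have hf : Function.Injective f := by
    apply Ideal.quotientMap_injective' (H := h1)
    intro q hq
    have h2 := Fxi_phi_mem (inv_ne_zero hμ) hg ((RingHom.mem_ker).1 (show Fxi_phi ν μ q ∈ RingHom.ker φ from hq))
    rw [Fxi_phi_phi hμ] at h2
    exact (RingHom.mem_ker).2 h2
  let g : Q →ₐ[ℂ] K₂ := κ.comp f
  have hg' : Function.Injective g := hκ.comp hf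
  refine ⟨IsFractionRing.liftAlgHom (K := K₂) hg', fun i => ?_⟩
  have hei : e i = algebraMap Q K₂ (Ideal.Quotient.mk (RingHom.ker φ) (X i)) := (aeval_X e i).symm
  conv_lhs => rw [hei]
  rw [IsFractionRing.liftAlgHom_apply, IsFractionRing.lift_algebraMap]
  change aeval e (Fxi_phi ν μ (X i)) = _
  rw [Fxi_phi, aeval_X, map_mul, aeval_X, aeval_C]

/-- Bezout's identity for a family of integers. -/
private lemma Fxi_bezout {ι : Type} [Fintype ι] (m : ι → ℤ) (hm : ∃ i, m i ≠ 0) :
    ∃ (g : ℤ) (c k : ι → ℤ), g ≠ 0 ∧ ∑ i, c i * m i = g ∧ ∀ i, m i = g * k i := by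
  classical
  obtain ⟨g, hg⟩ := IsPrincipalIdealRing.principal (Ideal.span (Set.range m))
  have h1 : ∀ i, ∃ k, m i = g * k := by
    intro i
    have h2 : m i ∈ Ideal.span (Set.range m) := Ideal.subset_span ⟨i, rfl⟩
    rw [hg] at h2
    obtain ⟨a, ha⟩ := Submodule.mem_span_singleton.1 h2
    exact ⟨a, by rw [← ha, smul_eq_mul, mul_comm]⟩
  have h3 : g ∈ Ideal.span (Set.range m) := by
    rw [hg]
    exact Submodule.mem_span_singleton_self g
  obtain ⟨c, hc⟩ := Submodule.mem_span_range_iff_exists_fun ℤ |>.1 h3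
  choose k hk using h1
  refine ⟨g, c, k, fun h0 => ?_, by simpa using hc, hk⟩
  obtain ⟨i, hi⟩ := hm
  apply hi
  rw [hk i, h0, zero_mul]

/-- A polynomial with coefficients fixed by `σ` has infinitely many zeros if `σ` multiplies one of
them by a constant which is not a root of unity. -/
private lemma Fxi_transc {F L : Type*} [Field F] [Field L] [Algebra ℂ F] (ι : L →+* F)
    (σ : F →ₐ[ℂ] F) (hσ : ∀ l, σ (ι l) = ι l) {t : F} (ht : t ≠ 0) {a : ℂ}
    (ha : Function.Injective fun k : ℕ => a ^ k)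
    (hat : σ t = algebraMap ℂ F a * t) (q : Polynomial L) (hq : (q.map ι).eval t = 0) : q = 0 := by
  by_contra hp0
  have hq0 : q.map ι ≠ 0 := (Polynomial.map_ne_zero_iff ι.injective).2 hp0
  have hroot : ∀ k : ℕ, (q.map ι).eval (algebraMap ℂ F (a ^ k) * t) = 0 := by
    intro k
    induction k with
    | zero => rw [pow_zero, map_one, one_mul, hq]
    | succ k ih =>
      have h1 : σ ((q.map ι).eval (algebraMap ℂ F (a ^ k) * t)) = 0 := by rw [ih, map_zero]
      have h2 : (σ : F →+* F).comp ι = ι := RingHom.ext hσ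
      have h3 : σ ((q.map ι).eval (algebraMap ℂ F (a ^ k) * t)) =
          (q.map ι).eval (σ (algebraMap ℂ F (a ^ k) * t)) := by
        conv_rhs => rw [← h2, ← Polynomial.map_map]
        exact (Polynomial.eval_map_apply (σ : F →+* F) (algebraMap ℂ F (a ^ k) * t)).symm
      rw [h3, map_mul, AlgHom.commutes, hat, ← mul_assoc, ← map_mul, ← pow_succ] at h1
      exact h1
  have hinj : Function.Injective fun k : ℕ => algebraMap ℂ F (a ^ k) * t := by
    intro b c hbc
    exact ha ((algebraMap ℂ F).injective (mul_right_cancel₀ ht hbc))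
  have hfin : {x | (q.map ι).IsRoot x}.Finite := Polynomial.finite_setOfPred_isRoot hq0
  exact Set.infinite_of_injective_forall_mem hinj (fun k => hroot k) hfin

private lemma Fxi_two_pow {g : ℤ} (hg : g ≠ 0) : Function.Injective fun k : ℕ => ((2 : ℂ) ^ g) ^ k := by
  intro a b hab
  have h1 : ((2 : ℝ) ^ g) ^ a = ((2 : ℝ) ^ g) ^ b := by
    have h2 := congrArg (fun z : ℂ => ‖z‖) hab
    simpa using h2
  rw [← zpow_natCast, ← zpow_natCast, ← zpow_mul, ← zpow_mul] at h1
  have h3 := zpow_right_injective₀ (by norm_num : (0 : ℝ) < 2) (by norm_num) h1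
  have h4 := mul_left_cancel₀ hg h3
  exact_mod_cast h4

theorem exists_xi {K₂ : Type} [Field K₂] [Algebra ℂ K₂] {p : ℕ} {e : Fin p → K₂} (hgen : IntermediateField.adjoin ℂ (Set.range e) = ⊤) {ν : Fin p → ℤ}
    (hne : ∃ i, e i ≠ 0 ∧ ν i ≠ 0) (hg : Graded e ν) :
    ∃ (F : IntermediateField ℂ K₂) (t : K₂), Transcendental F t ∧ IntermediateField.adjoin F {t} = ⊤ ∧ ∀ i, ∃ (f : F) (k : ℤ), e i = f * t ^ k := by
  classical
  obtain ⟨i₀, hi₀, hν₀⟩ := hne
  set y : Fin p → K₂ := fun i => if e i = 0 then 1 else e i with hy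
  set m : Fin p → ℤ := fun i => if e i = 0 then 0 else ν i with hm
  have hy0 : ∀ i, y i ≠ 0 := by
    intro i
    rw [hy]
    by_cases h : e i = 0
    · simp only [h, if_true]
      exact one_ne_zero
    · simp only [h, if_false]
      exact h
  obtain ⟨g, c, k, hg0, hgc, hk⟩ := Fxi_bezout m ⟨i₀, by
    rw [hm]
    simp only [hi₀, if_false]
    exact hν₀⟩
  set t : K₂ := ∏ i, y i ^ c i with ht
  have ht0 : t ≠ 0 := Finset.prod_ne_zero_iff.2 fun i _ => zpow_ne_zero _ (hy0 i)
  set l : Fin p → K₂ := fun i => y i * (t ^ k i)⁻¹ with hl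
  have hyl : ∀ i, y i = l i * t ^ k i := by
    intro i
    rw [hl]
    simp only
    rw [mul_assoc, inv_mul_cancel₀ (zpow_ne_zero _ ht0), mul_one]
  set L : IntermediateField ℂ K₂ := IntermediateField.adjoin ℂ (Set.range l) with hL
  have hlL : ∀ i, l i ∈ L := fun i => IntermediateField.subset_adjoin _ _ ⟨i, rfl⟩
  have hfk : ∀ i, ∃ (f : L) (k : ℤ), e i = f * t ^ k := by
    intro i
    by_cases h : e i = 0
    · exact ⟨0, 0, by rw [h, ZeroMemClass.coe_zero, zero_mul]⟩
    · refine ⟨⟨l i, hlL i⟩, k i, ?_⟩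
      have h1 : y i = e i := by
        rw [hy]
        simp only [h, if_false]
      rw [← h1]
      exact hyl i
  refine ⟨L, t, ?_, ?_, hfk⟩
  · -- `t` is transcendental over `L`
    obtain ⟨σ, hσ⟩ := Fxi_exists_sigma hgen (two_ne_zero (α := ℂ)) hg
    have hσy : ∀ i, σ (y i) = algebraMap ℂ _ ((2 : ℂ) ^ m i) * y i := by
      intro i
      by_cases hi : e i = 0
      · have h1 : y i = 1 := by rw [hy]; simp only [hi, if_true]
        have h2 : m i = 0 := by rw [hm]; simp only [hi, if_true]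
        rw [h1, h2, map_one, zpow_zero, map_one, one_mul]
      · have h1 : y i = e i := by rw [hy]; simp only [hi, if_false]
        have h2 : m i = ν i := by rw [hm]; simp only [hi, if_false]
        rw [h1, h2, hσ]
    have hσt : σ t = algebraMap ℂ _ ((2 : ℂ) ^ g) * t := by
      rw [ht, map_prod]
      simp only [map_zpow₀, hσy, mul_zpow]
      rw [Finset.prod_mul_distrib]
      congr 1
      rw [← hgc]
      have h3 : ∀ s : Finset (Fin p), ∏ i ∈ s, (algebraMap ℂ K₂ 2 ^ m i) ^ c i = algebraMap ℂ _ 2 ^ (∑ i ∈ s, c i * m i) := by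
        intro s
        induction s using Finset.induction with
        | empty => simp
        | insert a s ha ih =>
          rw [Finset.prod_insert ha, Finset.sum_insert ha, ih, zpow_add₀ (by
            rw [map_ne_zero]; exact two_ne_zero), mul_comm (c a), zpow_mul]
      exact h3 Finset.univ
    have hσL : ∀ x : L, σ (x : K₂) = x := by
      rintro ⟨x, hx⟩
      change σ x = x
      rw [hL] at hx
      induction hx using IntermediateField.adjoin_induction with
      | mem x hx =>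
        obtain ⟨i, rfl⟩ := hx
        have h4 : l i = y i * (t ^ k i)⁻¹ := rfl
        rw [h4, map_mul, map_inv₀, map_zpow₀, hσy, hσt, mul_zpow, hk i, zpow_mul, map_zpow₀, mul_inv, ← map_zpow₀]
        have h5 : algebraMap ℂ K₂ (((2 : ℂ) ^ g) ^ k i) ≠ 0 := by
          rw [map_ne_zero]
          exact zpow_ne_zero _ (zpow_ne_zero _ two_ne_zero)
        field_simp
      | algebraMap x => rw [AlgHom.commutes]
      | add x z _ _ hx hz => rw [map_add, hx, hz]
      | inv x _ hx => rw [map_inv₀, hx]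
      | mul x z _ _ hx hz => rw [map_mul, hx, hz]
    rw [transcendental_iff]
    intro q hq
    refine Fxi_transc (algebraMap L K₂) σ hσL (t := t) ht0 (Fxi_two_pow hg0) hσt q ?_
    rw [Polynomial.eval_map_algebraMap]
    exact hq
  · have hymem : ∀ i, e i ∈ IntermediateField.adjoin L {t} := by
      intro i
      obtain ⟨f, k, h⟩ := hfk i
      rw [h]
      refine mul_mem ?_ (zpow_mem (IntermediateField.mem_adjoin_simple_self L t) _)
      exact (IntermediateField.adjoin L {t}).algebraMap_mem f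
    rw [← IntermediateField.restrictScalars_eq_top_iff (K := ℂ), eq_top_iff, ← hgen, IntermediateField.adjoin_le_iff]
    rintro _ ⟨i, rfl⟩
    exact hymem i

end Pool.Agent.GLS

end

section

/-!
# GLS Mul: sums, products and independence of generalized eigenvectors

PROOF.  `D - lam - mu` on a product: Leibniz, `(D - lam - mu)^n (a b) = ∑ C(n,k) (D - lam)^k a (D - mu)^(n-k) b`.  Independence: `D - lam` is `k`-linear over the constants `k`; or directly by induction on the number of the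
eigenvalues (apply `(D - lam)^n`, which is injective on the generalized eigenvectors for `mu ≠ lam`).
-/

set_option autoImplicit false

open MvPolynomial Topology Filter Metric
open Pool.Agent.H13.SM (conTan cone)
open Pool.Agent.H17 (PN VanishesAt HolomorphicInto puncturedDisc)
open Pool.Agent.GG Pool.Agent.GA Pool.Agent.GL

namespace Pool.Agent.GLS

variable {M : Type} [Field M] [Algebra ℂ M] {D : Derivation ℂ M M}

/-- the operator `D - lam` -/
private def tw (D : Derivation ℂ M M) (lam : M) : Module.End ℂ M := (D : M →ₗ[ℂ] M) - LinearMap.mulLeft ℂ lam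

private theorem tw_apply (D : Derivation ℂ M M) (lam x : M) : tw D lam x = D x - lam * x := rfl

private theorem tw_it (D : Derivation ℂ M M) (lam : M) (k : ℕ) (x : M) : (fun x => D x - lam * x)^[k] x = (tw D lam ^ k) x := by
  rw [Module.End.pow_apply]
  rfl

private theorem gev_iff {lam x : M} : Gev D lam x ↔ ∃ k, (tw D lam ^ k) x = 0 :=
  exists_congr fun k => by rw [tw_it]

private theorem tw_comm {lam mu : M} (hl : D lam = 0) (hm : D mu = 0) : Commute (tw D lam) (tw D mu) := by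
  refine LinearMap.ext fun x => ?_
  rw [Module.End.mul_apply, Module.End.mul_apply, tw_apply, tw_apply, tw_apply, tw_apply, map_sub, map_sub, Derivation.leibniz, Derivation.leibniz, hl, hm]
  simp only [smul_eq_mul]
  ring

private theorem tw_mul (lam mu a b : M) : tw D (lam + mu) (a * b) = tw D lam a * b + a * tw D mu b := by
  rw [tw_apply, tw_apply, tw_apply, Derivation.leibniz]
  simp only [smul_eq_mul]
  ring

private theorem tw_pow_mul (lam mu : M) (n : ℕ) : ∀ (k l : ℕ) (a b : M), k + l ≤ n → (tw D lam ^ k) a = 0 → (tw D mu ^ l) b = 0 → (tw D (lam + mu) ^ n) (a * b) = 0 := by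
  induction n with
  | zero =>
    intro k l a b h ha _
    obtain rfl : k = 0 := by omega
    rw [pow_zero, Module.End.one_apply] at ha
    rw [ha, zero_mul, map_zero]
  | succ n ih =>
    intro k l a b h ha hb
    rcases Nat.eq_zero_or_pos k with rfl | hk
    · rw [pow_zero, Module.End.one_apply] at ha
      rw [ha, zero_mul, map_zero]
    rcases Nat.eq_zero_or_pos l with rfl | hl
    · rw [pow_zero, Module.End.one_apply] at hb
      rw [hb, mul_zero, map_zero]
    obtain ⟨k, rfl⟩ : ∃ k', k = k' + 1 := ⟨k - 1, by omega⟩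
    obtain ⟨l, rfl⟩ : ∃ l', l = l' + 1 := ⟨l - 1, by omega⟩
    rw [pow_succ, Module.End.mul_apply, tw_mul, map_add, ih k (l + 1) _ _ (by omega) (by rw [← Module.End.mul_apply, ← pow_succ]; exact ha) hb,
      ih (k + 1) l _ _ (by omega) ha (by rw [← Module.End.mul_apply, ← pow_succ]; exact hb), add_zero]

theorem Gev.mul {lam mu a b : M} (hl : D lam = 0) (hm : D mu = 0) (ha : Gev D lam a) (hb : Gev D mu b) : Gev D (lam + mu) (a * b) := by
  rw [gev_iff] at ha hb ⊢
  obtain ⟨k, hk⟩ := ha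
  obtain ⟨l, hl⟩ := hb
  exact ⟨k + l, tw_pow_mul lam mu (k + l) k l a b le_rfl hk hl⟩

theorem Gev.add {lam a b : M} (hl : D lam = 0) (ha : Gev D lam a) (hb : Gev D lam b) : Gev D lam (a + b) := by
  rw [gev_iff] at ha hb ⊢
  obtain ⟨k, hk⟩ := ha
  obtain ⟨l, hl⟩ := hb
  refine ⟨k + l, ?_⟩
  have h1 : (tw D lam ^ (k + l)) a = 0 := by rw [add_comm, pow_add, Module.End.mul_apply, hk, map_zero]
  have h2 : (tw D lam ^ (k + l)) b = 0 := by rw [pow_add, Module.End.mul_apply, hl, map_zero]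
  rw [map_add, h1, h2, add_zero]

theorem Gev.const {a : M} (ha : D a = 0) : Gev D 0 a := by
  refine ⟨1, ?_⟩
  simp [ha]

private theorem tw_eig {lam mu x : M} (hl : D lam = 0) (hm : D mu = 0) (hne : lam ≠ mu) (hx : tw D lam x = 0) {k : ℕ} (hk : (tw D mu ^ k) x = 0) : x = 0 := by
  have h1 : ∀ k : ℕ, (tw D mu ^ k) x = (lam - mu) ^ k * x := by
    intro k
    induction k with
    | zero => simp
    | succ k ih =>
      have h2 : D ((lam - mu) ^ k) = 0 := by rw [Derivation.leibniz_pow, map_sub, hl, hm, sub_zero, smul_zero, smul_zero]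
      have h3 : D x = lam * x := by
        rw [tw_apply] at hx
        exact sub_eq_zero.1 hx
      rw [pow_succ', Module.End.mul_apply, ih, tw_apply, Derivation.leibniz, h2, h3]
      simp only [smul_eq_mul]
      ring
  rw [h1] at hk
  exact (mul_eq_zero.1 hk).resolve_left (pow_ne_zero _ (sub_ne_zero.2 hne))

private theorem tw_inj {lam mu : M} (hl : D lam = 0) (hm : D mu = 0) (hne : lam ≠ mu) (n : ℕ) : ∀ x : M, (tw D lam ^ n) x = 0 → (∃ k, (tw D mu ^ k) x = 0) → x = 0 := by
  induction n with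
  | zero =>
    intro x hx _
    rwa [pow_zero, Module.End.one_apply] at hx
  | succ n ih =>
    intro x hx hk
    obtain ⟨k, hk⟩ := hk
    refine tw_eig hl hm hne (ih (tw D lam x) (by rw [← Module.End.mul_apply, ← pow_succ]; exact hx) ⟨k, ?_⟩) hk
    have h1 : (tw D mu ^ k * tw D lam) x = (tw D lam * tw D mu ^ k) x := by rw [((tw_comm hm hl).pow_left k).eq]
    rw [Module.End.mul_apply, Module.End.mul_apply, hk, map_zero] at h1
    exact h1

theorem Gev.indep {s : Finset M} {x : M → M} (hs : ∀ μ ∈ s, D μ = 0) (hx : ∀ μ ∈ s, Gev D μ (x μ)) (h : ∑ μ ∈ s, x μ = 0) : ∀ μ ∈ s, x μ = 0 := by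
  classical
  induction s using Finset.induction_on generalizing x with
  | empty =>
    intro μ hμ
    exact absurd hμ (Finset.notMem_empty μ)
  | insert lam s hlam ih =>
    have hl : D lam = 0 := hs lam (Finset.mem_insert_self lam s)
    have hs' : ∀ μ ∈ s, D μ = 0 := fun μ hμ => hs μ (Finset.mem_insert_of_mem hμ)
    have hx' : ∀ μ ∈ s, ∃ k, (tw D μ ^ k) (x μ) = 0 := fun μ hμ => gev_iff.1 (hx μ (Finset.mem_insert_of_mem hμ))
    obtain ⟨n, hn⟩ := gev_iff.1 (hx lam (Finset.mem_insert_self lam s))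
    have h1 : ∀ μ ∈ s, (tw D lam ^ n) (x μ) = 0 := by
      refine ih (x := fun μ => (tw D lam ^ n) (x μ)) hs' (fun μ hμ => gev_iff.2 ?_) ?_
      · obtain ⟨k, hk⟩ := hx' μ hμ
        refine ⟨k, ?_⟩
        have h2 : (tw D μ ^ k * tw D lam ^ n) (x μ) = (tw D lam ^ n * tw D μ ^ k) (x μ) := by rw [((tw_comm (hs' μ hμ) hl).pow_pow k n).eq]
        rw [Module.End.mul_apply, Module.End.mul_apply, hk, map_zero] at h2
        exact h2
      · have h2 := congrArg (tw D lam ^ n) h
        rw [Finset.sum_insert hlam, map_add, hn, zero_add, map_sum, map_zero] at h2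
        exact h2
    have h2 : ∀ μ ∈ s, x μ = 0 := fun μ hμ => tw_inj hl (hs' μ hμ) (fun h3 => hlam (h3 ▸ hμ)) n _ (h1 μ hμ) (hx' μ hμ)
    intro μ hμ
    rcases Finset.mem_insert.1 hμ with rfl | hμ
    · rw [Finset.sum_insert hlam, Finset.sum_eq_zero h2, add_zero] at h
      exact h
    · exact h2 μ hμ

end Pool.Agent.GLS

end

section

/-!
# GLS OrbA: polynomials along the orbits, and the growth of the orbits

`dt_along`: along a curve on which the family `G` is constant, `(Dt G I g) (Y) = vdet G I (Y) * d/dt g (Y)` for all `I` and `g` (also if the determinant is `0`).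
`stays`: an orbit which starts at a zero of a stable ideal stays in its zero set.
`exists_orbit`: the orbits, with a polynomial bound in the initial point for `‖t‖ ≤ 1`.
-/

set_option autoImplicit false

open MvPolynomial Topology Filter Metric
open Pool.Agent.H13.SM (conTan cone)
open Pool.Agent.GG

namespace Pool.Agent.GLS

section

variable {N : ℕ} {ι : Type} {G : ι → MvPolynomial (Ph N) ℂ}

/-- the chain rule for polynomials -/
private theorem orb_chain {σ : Type*} [Fintype σ] [DecidableEq σ] {y : ℂ → σ → ℂ} {y' : σ → ℂ} {s : ℂ} (hy : HasDerivAt y y' s)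
    (g : MvPolynomial σ ℂ) : HasDerivAt (fun s => eval (y s) g) (∑ i, eval (y s) (pderiv i g) * y' i) s := by
  induction g using MvPolynomial.induction_on with
  | C a =>
    simp only [eval_C, pderiv_C, map_zero, zero_mul, Finset.sum_const_zero]
    exact hasDerivAt_const s a
  | add p q hp hq =>
    simp only [map_add, add_mul, Finset.sum_add_distrib]
    exact hp.add hq
  | mul_X p i hp =>
    have h1 : HasDerivAt (fun s => y s i) (y' i) s := hasDerivAt_pi.1 hy i
    have h2 := hp.mul h1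
    have h3 : (∑ j, eval (y s) (pderiv j (p * X i)) * y' j) = (∑ j, eval (y s) (pderiv j p) * y' j) * y s i + eval (y s) p * y' i := by
      have h4 : ∀ j, eval (y s) (pderiv j (p * X i)) * y' j =
          eval (y s) (pderiv j p) * y' j * y s i + (if j = i then eval (y s) p * y' j else 0) := by
        intro j
        rw [Derivation.leibniz, pderiv_X]
        by_cases hj : j = i
        · subst hj
          simp
          ring
        · rw [Pi.single_eq_of_ne (Ne.symm hj)]
          simp [hj]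
          ring
      rw [Finset.sum_congr rfl fun j _ => h4 j, Finset.sum_add_distrib, ← Finset.sum_mul]
      simp
    rw [h3]
    have h5 : (fun s => eval (y s) (p * X i)) = (fun s => eval (y s) p) * fun s => y s i := by
      funext s
      simp
    rw [h5]
    exact h2

/-- the path in the phase space -/
theorem orb_path {x : ℂ → Fin (N + 1) → ℂ} {s : ℂ} (h : AnalyticAt ℂ x s) :
    HasDerivAt (fun s => pt (x s) (deriv x s)) (pt (deriv x s) (deriv (deriv x) s)) s := by
  rw [hasDerivAt_pi]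
  rintro (b | b)
  · exact hasDerivAt_pi.1 h.differentiableAt.hasDerivAt b
  · exact hasDerivAt_pi.1 h.deriv.differentiableAt.hasDerivAt b

/-- the derivation along a path with the velocity `fld / vdet` -/
private theorem orb_along {I : Fin (N + 1) → ι} {y : ℂ → Ph N → ℂ} {y' : Ph N → ℂ} {s : ℂ} (hy : HasDerivAt y y' s)
    (h : ∀ i, eval (y s) (vdet G I) * y' i = eval (y s) (fld G I i)) (g : MvPolynomial (Ph N) ℂ) :
    ∃ d, HasDerivAt (fun s => eval (y s) g) d s ∧ eval (y s) (vdet G I) * d = eval (y s) (Dt G I g) := by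
  induction g using MvPolynomial.induction_on with
  | C a =>
    have h1 : Dt G I (C a) = 0 := by
      rw [← algebraMap_eq]
      exact Derivation.map_algebraMap _ _
    refine ⟨0, ?_, ?_⟩
    · simp only [eval_C]
      exact hasDerivAt_const s a
    · rw [h1, map_zero, mul_zero]
  | add p q hp hq =>
    obtain ⟨d, h1, h2⟩ := hp
    obtain ⟨e, h3, h4⟩ := hq
    refine ⟨d + e, ?_, ?_⟩
    · simp only [map_add]
      exact h1.add h3
    · rw [map_add, map_add, mul_add, h2, h4]
  | mul_X p i hp =>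
    obtain ⟨d, h1, h2⟩ := hp
    have h3 : HasDerivAt (fun s => y s i) (y' i) s := hasDerivAt_pi.1 hy i
    have h5 : (fun s => eval (y s) (p * X i)) = (fun s => eval (y s) p) * fun s => y s i := by
      funext s
      simp
    refine ⟨d * y s i + eval (y s) p * y' i, ?_, ?_⟩
    · rw [h5]
      exact h1.mul h3
    · have h4 : Dt G I (X i) = fld G I i := mkDerivation_X _ _ _
      rw [Derivation.leibniz, h4, smul_eq_mul, smul_eq_mul, map_add, map_mul, map_mul, eval_X, ← h, ← h2]
      ring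

/-- **The derivations along an arc**, with the determinant multiplied out. -/
theorem dt_along {x : ℂ → Fin (N + 1) → ℂ} {t : ℂ} (h : ArcV G x t) (I : Fin (N + 1) → ι) (g : MvPolynomial (Ph N) ℂ) :
    ∃ d, HasDerivAt (fun s => eval (pt (x s) (deriv x s)) g) d t ∧
      eval (pt (x t) (deriv x t)) (vdet G I) * d = eval (pt (x t) (deriv x t)) (Dt G I g) := by
  obtain ⟨hx, hc⟩ := h
  have hy := orb_path hx
  refine orb_along hy ?_ g
  obtain ⟨A, hA⟩ : ∃ A : Matrix (Fin (N + 1)) (Fin (N + 1)) ℂ, A = (vmat G I).map (eval (pt (x t) (deriv x t))) := ⟨_, rfl⟩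
  have h2 : A.mulVec (deriv (deriv x) t) = (eval (pt (x t) (deriv x t))) ∘ rhs G I := by
    funext l
    have h3 := orb_chain hy (G (I l))
    have h4 := h3.unique ((hasDerivAt_const t (eval (pt (x t) (deriv x t)) (G (I l)))).congr_of_eventuallyEq (hc (I l)))
    rw [Fintype.sum_sum_type] at h4
    have h5 : A.mulVec (deriv (deriv x) t) l =
        ∑ b, eval (pt (x t) (deriv x t)) (pderiv (Sum.inr b) (G (I l))) * deriv (deriv x) t b := by
      rw [hA]
      rfl
    rw [h5, Function.comp_apply, rhs, map_neg, map_sum]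
    have h6 : (∑ b, eval (pt (x t) (deriv x t)) (pderiv (Sum.inl b) (G (I l)) * X (Sum.inr b))) =
        ∑ b, eval (pt (x t) (deriv x t)) (pderiv (Sum.inl b) (G (I l))) * deriv x t b := by
      refine Finset.sum_congr rfl fun b _ => ?_
      rw [map_mul, eval_X]
      rfl
    rw [h6]
    exact eq_neg_of_add_eq_zero_right h4
  have hdet : A.det = eval (pt (x t) (deriv x t)) (vdet G I) := by
    rw [hA, vdet]
    exact ((eval (pt (x t) (deriv x t))).map_det (vmat G I)).symm
  have h3 : A.adjugate.mulVec ((eval (pt (x t) (deriv x t))) ∘ rhs G I) = A.det • deriv (deriv x) t := by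
    rw [← h2, Matrix.mulVec_mulVec, Matrix.adjugate_mul, Matrix.smul_mulVec, Matrix.one_mulVec]
  rintro (b | b)
  · show _ * deriv x t b = _
    rw [fld, Sum.elim_inl, map_mul, eval_X]
    rfl
  · show _ * deriv (deriv x) t b = _
    rw [fld, Sum.elim_inr, RingHom.map_mulVec]
    have h4 : (vmat G I).adjugate.map (eval (pt (x t) (deriv x t))) = A.adjugate := by
      rw [hA]
      exact (eval (pt (x t) (deriv x t))).map_adjugate (vmat G I)
    rw [h4, h3, Pi.smul_apply, hdet, smul_eq_mul]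

/-- a polynomial along an analytic curve -/
theorem orb_an {σ : Type*} [Fintype σ] {y : ℂ → σ → ℂ} {s : ℂ} (hy : AnalyticAt ℂ y s) (g : MvPolynomial σ ℂ) : AnalyticAt ℂ (fun s => eval (y s) g) s := by
  have h2 : AnalyticAt ℂ (fun w => aeval (fun i => y w i) g) s := AnalyticAt.aeval_mvPolynomial (fun i => (analyticAt_pi_iff.1 hy) i) g
  simpa only [MvPolynomial.aeval_eq_eval] using h2

/-- the phase curve is analytic -/
theorem orb_pt_an {x : ℂ → Fin (N + 1) → ℂ} {s : ℂ} (h : AnalyticAt ℂ x s) : AnalyticAt ℂ (fun s => pt (x s) (deriv x s)) s := by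
  rw [analyticAt_pi_iff]
  rintro (b | b)
  · exact (analyticAt_pi_iff.1 h) b
  · exact (analyticAt_pi_iff.1 h.deriv) b

/-- an orbit which starts in the zero set of a stable ideal stays in it -/
theorem stays {x : ℂ → Fin (N + 1) → ℂ} (h : ∀ t, ArcV G x t) {I : Fin (N + 1) → ι} (hI : eval (pt (x 0) (deriv x 0)) (vdet G I) ≠ 0)
    {r : Ideal (MvPolynomial (Ph N) ℂ)} (hr : ∀ g ∈ r, Dt G I g ∈ r) (h0 : ∀ g ∈ r, eval (pt (x 0) (deriv x 0)) g = 0) {g : MvPolynomial (Ph N) ℂ}
    (hg : g ∈ r) (t : ℂ) : eval (pt (x t) (deriv x t)) g = 0 := by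
  have han : ∀ g : MvPolynomial (Ph N) ℂ, ∀ t, AnalyticAt ℂ (fun s => eval (pt (x s) (deriv x s)) g) t := fun g t => orb_an (orb_pt_an (h t).1) g
  have hne : ∀ᶠ s in 𝓝 (0 : ℂ), eval (pt (x s) (deriv x s)) (vdet G I) ≠ 0 := (han _ 0).continuousAt.eventually_ne hI
  -- the derivatives
  have hd : ∀ g : MvPolynomial (Ph N) ℂ, ∀ᶠ s in 𝓝 (0 : ℂ),
      deriv (fun s => eval (pt (x s) (deriv x s)) g) s = (eval (pt (x s) (deriv x s)) (vdet G I))⁻¹ * eval (pt (x s) (deriv x s)) (Dt G I g) := by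
    intro g
    filter_upwards [hne] with s hs
    obtain ⟨d, h1, h2⟩ := dt_along (h s) I g
    rw [h1.deriv, ← h2, inv_mul_cancel_left₀ hs]
  -- the order of vanishing at `0`
  have key : ∀ n : ℕ, ∀ g ∈ r, (n : ℕ∞) ≤ analyticOrderAt (fun s => eval (pt (x s) (deriv x s)) g) 0 := by
    intro n
    induction n with
    | zero => exact fun g _ => by simp
    | succ n ih =>
      intro g hg
      have h1 := ih _ (hr g hg)
      have h2 : (n : ℕ∞) ≤ analyticOrderAt (deriv fun s => eval (pt (x s) (deriv x s)) g) 0 := by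
        have h3 : (deriv fun s => eval (pt (x s) (deriv x s)) g) =ᶠ[𝓝 0]
            (fun s => (eval (pt (x s) (deriv x s)) (vdet G I))⁻¹) * fun s => eval (pt (x s) (deriv x s)) (Dt G I g) := hd g
        have h5 : AnalyticAt ℂ (fun s => (eval (pt (x s) (deriv x s)) (vdet G I))⁻¹) 0 := (han _ 0).inv hI
        rw [analyticOrderAt_congr h3, analyticOrderAt_mul h5 (han _ 0)]
        exact h1.trans le_add_self
      have h4 := h0 g hg
      rw [Nat.cast_succ]
      exact (analyticOrderAt_deriv_ge_iff (han g 0) h4).1 h2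
  have h1 : analyticOrderAt (fun s => eval (pt (x s) (deriv x s)) g) 0 = ⊤ := by
    rw [ENat.eq_top_iff_forall_ge]
    exact fun n => key n g hg
  have h2 : AnalyticOnNhd ℂ (fun s => eval (pt (x s) (deriv x s)) g) Set.univ := fun t _ => han g t
  have h3 := h2.eqOn_zero_of_preconnected_of_eventuallyEq_zero isPreconnected_univ (Set.mem_univ (0 : ℂ)) (analyticOrderAt_eq_top.1 h1)
  exact h3 (Set.mem_univ t)

end

end Pool.Agent.GLS

end
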