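import Pool.Agent.H18.GGT.M17
import Pool.Agent.H18.GGT.M44
import Pool.Agent.H18.GGT.M57
import Pool.Agent.H18.GGT.M59

/-! The parts of this file: GL.SpA, GL.SpC, GL.AvX, GL.Av. -/

section

/-!
# GL SpA: derivations of a finitely generated field extension, pure algebra

`K (y)` over `K`: a transcendence basis `y (σ m)` among the generators; for every `s` a relation `R_s` in the variables `σ m`, `s` with `∂_s R_s (y) ≠ 0` (minimal polynomial, characteristic `0`);
the derivation `D m` of `K (y)` over `K` with `D m (y (σ l)) = δ`, `A m s = D m (y s)`.  Last claim: the relation `R_s` determines `D s`.  (Compare GA/AlgD: `exists_dual`.)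
-/

set_option autoImplicit false

open MvPolynomial

open scoped TensorProduct

namespace Pool.Agent.GL

private theorem spA_smooth {k A E : Type*} [Field k] [CharZero k] [CommRing A] [IsDomain A] [Field E] [Algebra k A] [Algebra k E] [Algebra A E] [IsScalarTower k A E]
    (hinj : Function.Injective (algebraMap A E)) : Algebra.FormallySmooth A E := by
  have : FaithfulSMul A E := (faithfulSMul_iff_algebraMap_injective A E).2 hinj
  let K := FractionRing A
  let _ : Algebra K E := FractionRing.liftAlgebra A E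
  have : IsScalarTower A K E := FractionRing.isScalarTower_liftAlgebra A E
  have : CharZero E := charZero_of_injective_algebraMap (algebraMap k E).injective
  have : CharZero A := charZero_of_injective_algebraMap (algebraMap k A).injective
  have : CharZero K := charZero_of_injective_algebraMap (FaithfulSMul.algebraMap_injective A K)
  have h1 : Algebra.FormallySmooth A K := .of_isLocalization (nonZeroDivisors A)
  obtain ⟨s, hs⟩ := exists_isTranscendenceBasis K E
  have h2 : Algebra.IsAlgebraic (IntermediateField.adjoin K (Set.range ((↑) : s → E))) E := hs.isAlgebraic_field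
  have h3 : Algebra.IsSeparable (IntermediateField.adjoin K (Set.range ((↑) : s → E))) E := inferInstance
  have h4 : Algebra.FormallySmooth K E := .of_algebraicIndependent_of_isSeparable hs.1
  exact .comp A K E

private theorem spA_ext {k A E : Type*} [Field k] [CharZero k] [CommRing A] [IsDomain A] [Field E] [Algebra k A] [Algebra k E] [Algebra A E] [IsScalarTower k A E]
    (hinj : Function.Injective (algebraMap A E)) (d : Derivation k A E) : ∃ D : Derivation k E E, ∀ a, D (algebraMap A E a) = d a := by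
  have := spA_smooth (k := k) (A := A) (E := E) hinj
  have h1 : Function.Injective (KaehlerDifferential.mapBaseChange k A E) := by
    rw [← LinearMap.ker_eq_bot, LinearMap.ker_eq_bot']
    intro x hx
    obtain ⟨y, hy⟩ := (Algebra.H1Cotangent.exact_δ_mapBaseChange k A E x).1 hx
    rw [← hy, Subsingleton.elim y 0, map_zero]
  obtain ⟨p, hp⟩ := LinearMap.exists_leftInverse_of_injective (KaehlerDifferential.mapBaseChange k A E) (LinearMap.ker_eq_bot.2 h1)
  let l : Ω[A⁄k] →ₗ[A] E := d.liftKaehlerDifferential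
  let l' : Ω[E⁄k] →ₗ[E] E := (l.liftBaseChange E).comp p
  refine ⟨l'.compDer (KaehlerDifferential.D k E), fun a => ?_⟩
  have h2 : p (KaehlerDifferential.D k E (algebraMap A E a)) = 1 ⊗ₜ[A] KaehlerDifferential.D k A a := by
    have h3 := LinearMap.congr_fun hp (1 ⊗ₜ[A] KaehlerDifferential.D k A a)
    rw [LinearMap.comp_apply, KaehlerDifferential.mapBaseChange_tmul, one_smul, KaehlerDifferential.map_D, LinearMap.id_apply] at h3
    exact h3
  change l.liftBaseChange E (p (KaehlerDifferential.D k E (algebraMap A E a))) = _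
  rw [h2, LinearMap.liftBaseChange_tmul, one_smul]
  exact Derivation.liftKaehlerDifferential_comp_D d a

/-- If `V` satisfies the linearised equation of every algebraic relation of `x` over `k`, then there is a derivation over `k` with `D (x b) = V b`. -/
theorem spA_der {k σ E : Type*} [Fintype σ] [Field k] [CharZero k] [Field E] [Algebra k E] (x V : σ → E)
    (h : ∀ R : MvPolynomial σ k, aeval x R = 0 → ∑ b, aeval x (pderiv b R) * V b = 0) :
    ∃ D : Derivation k E E, ∀ b, D (x b) = V b := by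
  classical
  let ψ : MvPolynomial σ k →ₐ[k] E := aeval x
  let δ : MvPolynomial σ k → E := fun R => ∑ b, ψ (pderiv b R) * V b
  have hδ : ∀ R R', ψ R = ψ R' → δ R = δ R' := by
    intro R R' hRR
    have h1 := h (R - R') (by
      show ψ (R - R') = 0
      rw [map_sub, hRR, sub_self])
    have h2 : δ R - δ R' = 0 := by
      rw [← h1, ← Finset.sum_sub_distrib]
      refine Finset.sum_congr rfl fun b _ => ?_
      show ψ (pderiv b R) * V b - ψ (pderiv b R') * V b = ψ (pderiv b (R - R')) * V b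
      rw [map_sub, map_sub, sub_mul]
    exact sub_eq_zero.1 h2
  have hadd : ∀ R R', δ (R + R') = δ R + δ R' := by
    intro R R'
    rw [← Finset.sum_add_distrib]
    refine Finset.sum_congr rfl fun b _ => ?_
    rw [map_add, map_add, add_mul]
  have hmul : ∀ R R', δ (R * R') = ψ R * δ R' + ψ R' * δ R := by
    intro R R'
    rw [Finset.mul_sum, Finset.mul_sum, ← Finset.sum_add_distrib]
    refine Finset.sum_congr rfl fun b _ => ?_
    rw [Derivation.leibniz, smul_eq_mul, smul_eq_mul, map_add, map_mul, map_mul]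
    ring
  have hX : ∀ b, δ (X b) = V b := by
    intro b
    show ∑ b', ψ (pderiv b' (X b)) * V b' = V b
    rw [Finset.sum_eq_single b]
    · rw [pderiv_X_self, map_one, one_mul]
    · intro b' _ hb
      rw [pderiv_X_of_ne hb.symm, map_zero, zero_mul]
    · intro hb
      exact absurd (Finset.mem_univ b) hb
  have hsmul : ∀ (c : k) R, δ (c • R) = c • δ R := by
    intro c R
    rw [Finset.smul_sum]
    refine Finset.sum_congr rfl fun b _ => ?_
    rw [(pderiv b).map_smul, map_smul, smul_mul_assoc]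
  let A : Subalgebra k E := ψ.range
  let r : A → MvPolynomial σ k := fun a => a.2.choose
  have hr : ∀ a : A, ψ (r a) = a := fun a => a.2.choose_spec
  let d : Derivation k A E := Derivation.mk'
    { toFun := fun a => δ (r a)
      map_add' := fun a b => by
        rw [← hadd]
        refine hδ _ _ ?_
        rw [map_add, hr, hr, hr]
        rfl
      map_smul' := fun c a => by
        rw [RingHom.id_apply, ← hsmul]
        refine hδ _ _ ?_
        rw [map_smul, hr, hr]
        rfl }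
    (fun a b => by
      show δ (r (a * b)) = (a : E) * δ (r b) + (b : E) * δ (r a)
      rw [← hr a, ← hr b, ← hmul]
      refine hδ _ _ ?_
      rw [map_mul, hr, hr, hr]
      rfl)
  have hd : ∀ R, d ⟨ψ R, R, rfl⟩ = δ R := fun R => hδ _ _ (hr ⟨ψ R, R, rfl⟩)
  obtain ⟨D, hD⟩ := spA_ext (A := A) (E := E) Subtype.val_injective d
  have hD' : ∀ R, D (ψ R) = δ R := fun R => (hD ⟨ψ R, R, rfl⟩).trans (hd R)
  refine ⟨D, fun b => ?_⟩
  have h1 := hD' (X b)
  rw [hX] at h1
  have h2 : ψ (X b) = x b := aeval_X x b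
  rw [h2] at h1
  exact h1

open Pool.Agent.GA in
theorem exists_dualP {M : Type*} [Field M] [CharZero M] (K : Subfield M) {τ : Type} [Fintype τ] (y : τ → M) :
    ∃ (r : ℕ) (σ : Fin r → τ) (A : Fin r → τ → M), (∀ m s, A m s ∈ IntermediateField.adjoin K (Set.range y)) ∧ (∀ m l, A m (σ l) = if m = l then 1 else 0) ∧
      (∀ m (R : MvPolynomial τ K), aeval y R = 0 → ∑ s, aeval y (pderiv s R) * A m s = 0) ∧
      ∀ D : τ → M, (∀ R : MvPolynomial τ K, aeval y R = 0 → ∑ s, aeval y (pderiv s R) * D s = 0) → ∀ s, D s = ∑ m, D (σ m) * A m s := by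
  classical
  have : CharZero K := (algebraMap K M).charZero
  obtain ⟨s, hs⟩ := (AlgebraicIndependent.matroid K M).exists_isBasis (Set.range y)
  obtain ⟨hs1, hs2, hs3⟩ := AlgebraicIndependent.matroid_isBasis_iff.1 hs
  have hfin : s.Finite := (Set.finite_range y).subset hs2
  have := hfin.fintype
  let e : Fin (Fintype.card s) ≃ s := (Fintype.equivFin s).symm
  choose σ hσ using fun l : Fin (Fintype.card s) => hs2 (e l).2
  have ha : AlgebraicIndependent K fun l => y (σ l) := by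
    have h3 : AlgebraicIndependent K ((↑) : s → M) := hs1
    have h4 := h3.comp e e.injective
    have h5 : (fun l => y (σ l)) = ((↑) : s → M) ∘ e := funext fun l => hσ l
    rw [h5]
    exact h4
  let L : IntermediateField K M := IntermediateField.adjoin K (Set.range y)
  let y' : τ → L := fun t => ⟨y t, IntermediateField.subset_adjoin K _ ⟨t, rfl⟩⟩
  have hyy : ∀ R : MvPolynomial τ K, ((aeval y' R : L) : M) = aeval y R := by
    intro R
    have h1 := MvPolynomial.aeval_algebraMap_apply (B := M) y' R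
    exact h1.symm
  have ha' : AlgebraicIndependent K fun l => y' (σ l) := AlgebraicIndependent.of_comp L.val ha
  choose D hD using fun m : Fin (Fintype.card s) => AlgD.exists_derivation ha' fun l => if m = l then (1 : L) else 0
  have hDR : ∀ m (R : MvPolynomial τ K), aeval y R = 0 → ∑ t, aeval y (pderiv t R) * (D m (y' t) : M) = 0 := by
    intro m R hR
    have h1 : (aeval y' R : L) = 0 := Subtype.ext ((hyy R).trans hR)
    have h2 := AlgD.der_aeval (D m) y' R
    rw [h1, map_zero] at h2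
    have h3 := congrArg (fun z : L => (z : M)) h2
    simp only [ZeroMemClass.coe_zero, AddSubmonoidClass.coe_finsetSum, MulMemClass.coe_mul, hyy] at h3
    exact h3.symm
  have hδ : ∀ m l, ((D m (y' (σ l)) : L) : M) = if m = l then 1 else 0 := by
    intro m l
    rw [hD]
    split_ifs <;> rfl
  refine ⟨Fintype.card s, σ, fun m t => (D m (y' t) : M), fun m t => (D m (y' t)).2, hδ, hDR, fun E hE t => ?_⟩
  let E₀ : τ → M := fun t => E t - ∑ m, E (σ m) * (D m (y' t) : M)
  obtain ⟨F, hF⟩ := spA_der (k := K) y E₀ (by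
    intro R hR
    have h1 : ∑ b, aeval y (pderiv b R) * E₀ b = ∑ b, aeval y (pderiv b R) * E b -
        ∑ m, E (σ m) * ∑ b, aeval y (pderiv b R) * (D m (y' b) : M) := by
      simp only [E₀, mul_sub, Finset.sum_sub_distrib, Finset.mul_sum]
      congr 1
      rw [Finset.sum_comm]
      refine Finset.sum_congr rfl fun m _ => Finset.sum_congr rfl fun b _ => ?_
      ring
    rw [h1, hE R hR, zero_sub, neg_eq_zero]
    exact Finset.sum_eq_zero fun m _ => by rw [hDR m R hR, mul_zero])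
  have hE0 : ∀ l, E₀ (σ l) = 0 := by
    intro l
    show E (σ l) - ∑ m, E (σ m) * (D m (y' (σ l)) : M) = 0
    rw [Finset.sum_eq_single l]
    · rw [hδ, if_pos rfl, mul_one, sub_self]
    · intro m _ hm
      rw [hδ, if_neg hm, mul_zero]
    · intro h
      exact absurd (Finset.mem_univ l) h
  let F' : Derivation ℤ M M := F.restrictScalars ℤ
  have hF' : ∀ x, F' x = F x := fun _ => rfl
  have hA : ∀ x ∈ Algebra.adjoin K s, F' x = 0 := by
    intro x hx
    induction hx using Algebra.adjoin_induction with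
    | mem x hx =>
      have h3 : y (σ (e.symm ⟨x, hx⟩)) = x := by
        rw [hσ, Equiv.apply_symm_apply]
      rw [← h3, hF', hF]
      exact hE0 _
    | algebraMap c => exact F.map_algebraMap c
    | add x z _ _ hx hz => rw [map_add, hx, hz, add_zero]
    | mul x z _ _ hx hz => rw [F'.leibniz, hx, hz, smul_zero, smul_zero, add_zero]
  have h3 : F' (y t) = 0 :=
    AlgD.eq_zero_of_isAlgebraic F' (A := Algebra.adjoin K s) (fun a => hA a a.2) Subtype.val_injective (hs3 _ ⟨_, rfl⟩)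
  rw [hF', hF] at h3
  exact sub_eq_zero.1 h3

end Pool.Agent.GL

end

section

/-!
# GL SpC: a polynomial vector field over `OO` which is tangent to all relations, with the value `(V, V')` at `w₁`

`M = Gm z₁`, `K` = the subfield generated by the germs of `OO`, `y` = the germs of `(x, x')` (`gm_evO`, `gm_inj`); `exists_dualP`; `(V, V')` satisfies the linearised relations over `OO` (`RelP`), so over `K`.  Common denominator: `A m s = A' m s (y) / q (y)`,
`q`, `A' m s : MvPolynomial (Ph N) OO`, `q (y) ≠ 0` near `z₁` off `z₁`.  So `q (V, V')_s = ∑ m, (V, V')_(σ m) A' m s (y)` near `z₁`.  For `w₁` near `z₁` with `q (y (w₁)) ≠ 0`: `A s = ∑ m, C (c m) * A' m s`, `c m = (V, V')_(σ m) (w₁) / q (y (w₁)) ∈ ℂ`.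
A relation near `w₁` holds on a ball around `z₁` (fixed ball where `x` is analytic, contained in `U`; identity theorem), so near `z₁`, and its linearisation by `A` holds near `z₁`, so on the ball.
-/

set_option autoImplicit false

open MvPolynomial Topology Filter Metric
open Pool.Agent.GG Pool.Agent.GA

namespace Pool.Agent.GL

/-! ## denominators -/

section

variable {M : Type*} [Field M] {A : Type*} [CommRing A] (φ : A →+* M)

private theorem spc_den (s : Finset (Subfield.closure (Set.range φ))) : ∃ b : A, φ b ≠ 0 ∧ ∀ c ∈ s, ∃ a : A, φ b * c = φ a := by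
  classical
  induction s using Finset.induction_on with
  | empty => exact ⟨1, by rw [map_one]; exact one_ne_zero, fun c hc => absurd hc (Finset.notMem_empty c)⟩
  | insert c s hc ih =>
    obtain ⟨b, hb, hbs⟩ := ih
    obtain ⟨u, hu, v, hv, huv⟩ := Subfield.mem_closure_iff.1 c.2
    have hr : Subring.closure (Set.range φ) = φ.range := by
      rw [← RingHom.coe_range, Subring.closure_eq]
    rw [hr] at hu hv
    obtain ⟨u', rfl⟩ := hu
    obtain ⟨v', rfl⟩ := hv
    by_cases hv0 : φ v' = 0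
    · refine ⟨b, hb, fun c' hc' => ?_⟩
      rcases Finset.mem_insert.1 hc' with rfl | hc'
      · refine ⟨0, ?_⟩
        rw [← huv, hv0, div_zero, mul_zero, map_zero]
      · exact hbs c' hc'
    · refine ⟨b * v', by rw [map_mul]; exact mul_ne_zero hb hv0, fun c' hc' => ?_⟩
      rcases Finset.mem_insert.1 hc' with rfl | hc'
      · refine ⟨b * u', ?_⟩
        rw [← huv, map_mul, map_mul]
        field_simp
      · obtain ⟨a, ha⟩ := hbs c' hc'
        refine ⟨a * v', ?_⟩
        rw [map_mul, map_mul, ← ha]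
        ring

/-- the corestriction of `φ` -/
private def cor : A →+* Subfield.closure (Set.range φ) := φ.codRestrict _ fun a => Subfield.subset_closure ⟨a, rfl⟩

private theorem cor_comp : (algebraMap (Subfield.closure (Set.range φ)) M).comp (cor φ) = φ := RingHom.ext fun _ => rfl

private theorem aeval_cor {τ : Type} (y : τ → M) (R : MvPolynomial τ A) : aeval y (map (cor φ) R) = eval₂ φ y R := by
  rw [aeval_def, eval₂_map, cor_comp]

private theorem spc_clear {τ : Type} (R : MvPolynomial τ (Subfield.closure (Set.range φ))) :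
    ∃ (b : A) (R₀ : MvPolynomial τ A), φ b ≠ 0 ∧ map (cor φ) R₀ = C (cor φ b) * R := by
  classical
  obtain ⟨b, hb, h⟩ := spc_den φ (R.support.image R.coeff)
  have h' : ∀ m, ∃ a : A, φ b * ((coeff m R : Subfield.closure (Set.range φ)) : M) = φ a := by
    intro m
    by_cases hm : m ∈ R.support
    · exact h _ (Finset.mem_image_of_mem _ hm)
    · refine ⟨0, ?_⟩
      rw [notMem_support_iff.1 hm]
      simp
  choose a ha using h'
  refine ⟨b, ∑ m ∈ R.support, monomial m (a m), hb, ?_⟩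
  ext m
  rw [coeff_map, coeff_C_mul, coeff_sum]
  simp only [coeff_monomial]
  rw [Finset.sum_ite_eq' R.support m]
  by_cases hm : m ∈ R.support
  · rw [if_pos hm]
    exact (ha m).symm
  · rw [if_neg hm, notMem_support_iff.1 hm]
    simp

/-- the linearised relations over the subfield -/
private theorem spc_lin {τ : Type} [Fintype τ] (y D : τ → M) (h : ∀ R : MvPolynomial τ A, eval₂ φ y R = 0 → ∑ s, eval₂ φ y (pderiv s R) * D s = 0)
    (R : MvPolynomial τ (Subfield.closure (Set.range φ))) (hR : aeval y R = 0) : ∑ s, aeval y (pderiv s R) * D s = 0 := by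
  obtain ⟨b, R₀, hb, hR₀⟩ := spc_clear φ R
  have h1 : eval₂ φ y R₀ = 0 := by
    rw [← aeval_cor, hR₀, map_mul, hR, mul_zero]
  have h2 := h R₀ h1
  have h3 : ∀ s, eval₂ φ y (pderiv s R₀) * D s = φ b * (aeval y (pderiv s R) * D s) := by
    intro s
    have h4 : map (cor φ) (pderiv s R₀) = C (cor φ b) * pderiv s R := by
      rw [← pderiv_map, hR₀, pderiv_C_mul]
    rw [← aeval_cor, h4, map_mul, aeval_C, mul_assoc]
    rfl
  rw [Finset.sum_congr rfl fun s _ => h3 s, ← Finset.mul_sum] at h2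
  exact (mul_eq_zero.1 h2).resolve_left hb

private theorem spc_frac {τ : Type} (y : τ → M) {x : M} (hx : x ∈ IntermediateField.adjoin (Subfield.closure (Set.range φ)) (Set.range y)) :
    ∃ P Q : MvPolynomial τ A, eval₂ φ y Q ≠ 0 ∧ x * eval₂ φ y Q = eval₂ φ y P := by
  obtain ⟨r, s, rfl⟩ := (IntermediateField.mem_adjoin_range_iff _ _ _).1 hx
  by_cases hs : aeval y s = 0
  · refine ⟨0, 1, by rw [eval₂_one]; exact one_ne_zero, ?_⟩
    rw [hs, div_zero, zero_mul, eval₂_zero]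
  obtain ⟨b, R₀, hb, hR⟩ := spc_clear φ r
  obtain ⟨c, S₀, hc, hS⟩ := spc_clear φ s
  have h1 : eval₂ φ y R₀ = φ b * aeval y r := by
    rw [← aeval_cor, hR, map_mul, aeval_C]
    rfl
  have h2 : eval₂ φ y S₀ = φ c * aeval y s := by
    rw [← aeval_cor, hS, map_mul, aeval_C]
    rfl
  refine ⟨R₀ * C c, S₀ * C b, ?_, ?_⟩
  · rw [eval₂_mul, eval₂_C, h2]
    exact mul_ne_zero (mul_ne_zero hc hs) hb
  · rw [eval₂_mul, eval₂_C, eval₂_mul, eval₂_C, h1, h2]
    field_simp

private theorem spc_common {τ κ : Type} [Fintype κ] (y : τ → M) {x : κ → M}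
    (hx : ∀ i, x i ∈ IntermediateField.adjoin (Subfield.closure (Set.range φ)) (Set.range y)) :
    ∃ (Q : MvPolynomial τ A) (P : κ → MvPolynomial τ A), eval₂ φ y Q ≠ 0 ∧ ∀ i, x i * eval₂ φ y Q = eval₂ φ y (P i) := by
  classical
  choose P Q hQ hP using fun i => spc_frac φ y (hx i)
  refine ⟨∏ i, Q i, fun i => P i * ∏ j ∈ Finset.univ.erase i, Q j, ?_, fun i => ?_⟩
  · have h1 : eval₂ φ y (∏ i, Q i) = ∏ i, eval₂ φ y (Q i) := map_prod (eval₂Hom φ y) _ _
    rw [h1]
    exact Finset.prod_ne_zero_iff.2 fun i _ => hQ i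
  · rw [eval₂_mul, ← hP i, ← Finset.mul_prod_erase Finset.univ Q (Finset.mem_univ i), eval₂_mul]
    ring

end

variable {N : ℕ} {OO : Subalgebra ℂ (ℂ → ℂ)} {U : Set ℂ}

private theorem gm_eq_zero {z₀ : ℂ} {f : ℂ → ℂ} (hf : AnalyticAt ℂ f z₀) : gm z₀ f hf = 0 ↔ ∀ᶠ z in 𝓝 z₀, f z = 0 := by
  have h1 : gm z₀ (fun _ => 0) analyticAt_const = 0 := by
    rw [gm_const 0 analyticAt_const (Eventually.of_forall fun _ => rfl), map_zero]
  rw [← h1, gm_inj]
  rfl

private theorem gm_sum {z₀ : ℂ} {κ : Type*} (s : Finset κ) {f : κ → ℂ → ℂ} (hf : ∀ i, AnalyticAt ℂ (f i) z₀) (h : AnalyticAt ℂ (fun z => ∑ i ∈ s, f i z) z₀) :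
    gm z₀ (fun z => ∑ i ∈ s, f i z) h = ∑ i ∈ s, gm z₀ (f i) (hf i) := by
  classical
  induction s using Finset.induction_on with
  | empty =>
    rw [Finset.sum_empty, gm_eq_zero]
    exact Eventually.of_forall fun z => Finset.sum_empty
  | insert a s ha ih =>
    have h1 : AnalyticAt ℂ (fun z => ∑ i ∈ s, f i z) z₀ := Finset.analyticAt_fun_sum _ fun i _ => hf i
    rw [Finset.sum_insert ha, ← ih h1]
    exact gm_add (hf a) h1 h (Eventually.of_forall fun z => Finset.sum_insert ha)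

theorem exists_vf (hO : IsSmallRing OO U) (hU : IsOpen U) {x V : ℂ → Fin (N + 1) → ℂ} {z₁ : ℂ} (hz : z₁ ∈ U) (hx : AnalyticAt ℂ x z₁) (hV : AnalyticAt ℂ V z₁)
    (hR : RelP OO x V z₁) :
    ∀ᶠ w₁ in 𝓝[≠] z₁, ∃ A : Ph N → MvPolynomial (Ph N) OO,
      (∀ R : MvPolynomial (Ph N) OO, (∀ᶠ w in 𝓝 w₁, evO OO (fun w => pt (x w) (deriv x w)) R w = 0) →
        ∀ᶠ w in 𝓝 w₁, ∑ i, evO OO (fun w => pt (x w) (deriv x w)) (pderiv i R) w * evO OO (fun w => pt (x w) (deriv x w)) (A i) w = 0) ∧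
      ∀ s, evO OO (fun w => pt (x w) (deriv x w)) (A s) w₁ = pt (V w₁) (deriv V w₁) s := by
  classical
  -- the ball
  have hU1 : ∀ᶠ w in 𝓝 z₁, w ∈ U := hU.mem_nhds hz
  obtain ⟨δ, hδ, hball⟩ := Metric.eventually_nhds_iff_ball.1 (hU1.and hx.eventually_analyticAt)
  set Y : ℂ → Ph N → ℂ := fun w => pt (x w) (deriv x w) with hYdef
  have hYan : ∀ w, AnalyticAt ℂ x w → AnalyticAt ℂ Y w := by
    intro w hw
    rw [analyticAt_pi_iff]
    rintro (b | b)
    · exact (analyticAt_pi_iff.1 hw) b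
    · exact (analyticAt_pi_iff.1 hw.deriv) b
  have hev : ∀ R : MvPolynomial (Ph N) OO, AnalyticOnNhd ℂ (evO OO Y R) (ball z₁ δ) := by
    intro R w hw
    obtain ⟨φ, -, h⟩ := gm_evO (OO := OO) (fun g hg => hO.an g hg w (hball w hw).1) (hYan w (hball w hw).2)
    exact (h R).choose
  -- the identity theorem on the ball
  have hid : ∀ f : ℂ → ℂ, AnalyticOnNhd ℂ f (ball z₁ δ) → ∀ a ∈ ball z₁ δ, ∀ b ∈ ball z₁ δ, (∀ᶠ w in 𝓝 a, f w = 0) → ∀ᶠ w in 𝓝 b, f w = 0 := by
    intro f hf a ha b hb h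
    have h1 := hf.eqOn_zero_of_preconnected_of_eventuallyEq_zero (convex_ball z₁ δ).isPreconnected ha h
    filter_upwards [isOpen_ball.mem_nhds hb] with w hw
    exact h1 hw
  have hz1 : z₁ ∈ ball z₁ δ := mem_ball_self hδ
  have hO' : ∀ g ∈ OO, AnalyticAt ℂ g z₁ := fun g hg => hO.an g hg z₁ hz
  have hy : AnalyticAt ℂ Y z₁ := hYan z₁ hx
  have hv : AnalyticAt ℂ (fun w => pt (V w) (deriv V w)) z₁ := by
    rw [analyticAt_pi_iff]
    rintro (b | b)
    · exact (analyticAt_pi_iff.1 hV) b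
    · exact (analyticAt_pi_iff.1 hV.deriv) b
  obtain ⟨φ, hφ, hφR⟩ := gm_evO (OO := OO) hO' hy
  set y : Ph N → Gm z₁ := fun s => gm z₁ (fun z => Y z s) ((analyticAt_pi_iff.mp hy) s) with hydef
  set D : Ph N → Gm z₁ := fun s => gm z₁ (fun z => pt (V z) (deriv V z) s) ((analyticAt_pi_iff.mp hv) s) with hDdef
  have hchar : CharZero (Gm z₁) := charZero_of_injective_algebraMap (algebraMap ℂ (Gm z₁)).injective
  have hzero : ∀ R : MvPolynomial (Ph N) OO, eval₂ φ y R = 0 ↔ ∀ᶠ w in 𝓝 z₁, evO OO Y R w = 0 := by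
    intro R
    obtain ⟨h1, h2⟩ := hφR R
    rw [h2, gm_eq_zero]
  obtain ⟨r, σ, A, hA1, hA2, hA3, hA4⟩ := exists_dualP (Subfield.closure (Set.range φ)) y
  -- `D` satisfies the linearised relations
  have hD : ∀ R : MvPolynomial (Ph N) (Subfield.closure (Set.range φ)), aeval y R = 0 → ∑ s, aeval y (pderiv s R) * D s = 0 := by
    refine spc_lin φ y D fun R₀ h1 => ?_
    have h2 := hR R₀ ((hzero R₀).1 h1)
    have h5 : ∀ s, AnalyticAt ℂ (fun w => evO OO Y (pderiv s R₀) w * pt (V w) (deriv V w) s) z₁ :=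
      fun s => (hev _ z₁ hz1).mul ((analyticAt_pi_iff.mp hv) s)
    have h6 : ∀ s, eval₂ φ y (pderiv s R₀) * D s = gm z₁ (fun w => evO OO Y (pderiv s R₀) w * pt (V w) (deriv V w) s) (h5 s) := by
      intro s
      obtain ⟨h7, h8⟩ := hφR (pderiv s R₀)
      rw [h8]
      exact (gm_mul h7 ((analyticAt_pi_iff.mp hv) s) (h5 s) (Eventually.of_forall fun _ => rfl)).symm
    rw [Finset.sum_congr rfl fun s _ => h6 s, ← gm_sum Finset.univ h5 (Finset.analyticAt_fun_sum _ fun s _ => h5 s), gm_eq_zero]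
    exact h2
  have hDA := hA4 D hD
  -- the common denominator
  obtain ⟨Q, P, hQ, hP⟩ := spc_common φ y (κ := Fin r × Ph N) (x := fun i => A i.1 i.2) fun i => hA1 i.1 i.2
  have hQ' : ∀ᶠ w in 𝓝[≠] z₁, evO OO Y Q w ≠ 0 := by
    rcases (hev Q z₁ hz1).eventually_eq_zero_or_eventually_ne_zero with h | h
    · exact absurd ((hzero Q).2 h) hQ
    · exact h
  -- the values
  have hval : ∀ s, ∀ᶠ w in 𝓝 z₁, evO OO Y Q w * pt (V w) (deriv V w) s = ∑ m, pt (V w) (deriv V w) (σ m) * evO OO Y (P (m, s)) w := by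
    intro s
    have h1 : D s * eval₂ φ y Q = ∑ m, D (σ m) * eval₂ φ y (P (m, s)) := by
      rw [hDA s, Finset.sum_mul]
      refine Finset.sum_congr rfl fun m _ => ?_
      rw [← hP (m, s), mul_assoc]
    have hl : AnalyticAt ℂ (fun w => evO OO Y Q w * pt (V w) (deriv V w) s) z₁ := (hev Q z₁ hz1).mul ((analyticAt_pi_iff.mp hv) s)
    have h2 : ∀ m, AnalyticAt ℂ (fun w => pt (V w) (deriv V w) (σ m) * evO OO Y (P (m, s)) w) z₁ :=
      fun m => ((analyticAt_pi_iff.mp hv) (σ m)).mul (hev _ z₁ hz1)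
    have h3 : gm z₁ _ hl = gm z₁ (fun w => ∑ m, pt (V w) (deriv V w) (σ m) * evO OO Y (P (m, s)) w) (Finset.analyticAt_fun_sum _ fun m _ => h2 m) := by
      rw [gm_sum Finset.univ h2]
      obtain ⟨h7, h8⟩ := hφR Q
      rw [gm_mul h7 ((analyticAt_pi_iff.mp hv) s) hl (Eventually.of_forall fun _ => rfl), ← h8, mul_comm]
      rw [show gm z₁ (fun z => pt (V z) (deriv V z) s) ((analyticAt_pi_iff.mp hv) s) = D s from rfl, h1]
      refine Finset.sum_congr rfl fun m _ => ?_
      obtain ⟨h9, h10⟩ := hφR (P (m, s))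
      rw [h10]
      exact (gm_mul ((analyticAt_pi_iff.mp hv) (σ m)) h9 (h2 m) (Eventually.of_forall fun _ => rfl)).symm
    exact gm_inj.1 h3
  have hball0 : ∀ᶠ w in 𝓝 z₁, w ∈ ball z₁ δ := isOpen_ball.mem_nhds hz1
  have hball' : ∀ᶠ w in 𝓝[≠] z₁, w ∈ ball z₁ δ := hball0.filter_mono nhdsWithin_le_nhds
  filter_upwards [hQ', (eventually_all.2 hval).filter_mono nhdsWithin_le_nhds, hball'] with w₁ hQw hvw hw₁
  refine ⟨fun s => ∑ m, C (algebraMap ℂ OO (pt (V w₁) (deriv V w₁) (σ m) / evO OO Y Q w₁)) * P (m, s), ?_, ?_⟩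
  · intro R hR0
    have h1 := hid _ (hev R) w₁ hw₁ z₁ hz1 hR0
    have h2 : aeval y (map (cor φ) R) = 0 := by
      rw [aeval_cor]
      exact (hzero R).2 h1
    -- the relation for the coefficients
    have h3 : ∀ m, ∀ᶠ w in 𝓝 z₁, evO OO Y (∑ s, pderiv s R * P (m, s)) w = 0 := by
      intro m
      rw [← hzero]
      have h4 := hA3 m _ h2
      have h5 : eval₂ φ y (∑ s, pderiv s R * P (m, s)) = ∑ s, eval₂ φ y (pderiv s R) * eval₂ φ y (P (m, s)) := by
        have h6 : eval₂ φ y (∑ s, pderiv s R * P (m, s)) = ∑ s, eval₂ φ y (pderiv s R * P (m, s)) := map_sum (eval₂Hom φ y) _ _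
        rw [h6]
        exact Finset.sum_congr rfl fun s _ => eval₂_mul _ _
      rw [h5]
      have h7 : ∀ s, eval₂ φ y (pderiv s R) * eval₂ φ y (P (m, s)) = aeval y (pderiv s (map (cor φ) R)) * A m s * eval₂ φ y Q := by
        intro s
        rw [← hP (m, s), pderiv_map, aeval_cor]
        ring
      rw [Finset.sum_congr rfl fun s _ => h7 s, ← Finset.sum_mul, h4, zero_mul]
    have hlin : ∀ w, (∑ i, evO OO Y (pderiv i R) w * evO OO Y (∑ m, C (algebraMap ℂ OO (pt (V w₁) (deriv V w₁) (σ m) / evO OO Y Q w₁)) * P (m, i)) w) =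
        ∑ m, (pt (V w₁) (deriv V w₁) (σ m) / evO OO Y Q w₁) * evO OO Y (∑ s, pderiv s R * P (m, s)) w := by
      intro w
      have h8 : ∀ (κ : Type) [Fintype κ] (f : κ → MvPolynomial (Ph N) OO), evO OO Y (∑ i, f i) w = ∑ i, evO OO Y (f i) w := by
        intro κ _ f
        exact map_sum (eval₂Hom (ev0 OO w) (Y w)) _ _
      have h9 : ∀ f g : MvPolynomial (Ph N) OO, evO OO Y (f * g) w = evO OO Y f w * evO OO Y g w := fun f g => eval₂_mul _ _
      have h10 : ∀ c : ℂ, evO OO Y (C (algebraMap ℂ OO c)) w = c := by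
        intro c
        show eval₂ (ev0 OO w) (Y w) (C (algebraMap ℂ OO c)) = c
        rw [eval₂_C]
        rfl
      simp only [h8, h9, h10]
      simp only [Finset.mul_sum]
      rw [Finset.sum_comm]
      refine Finset.sum_congr rfl fun m _ => Finset.sum_congr rfl fun s _ => ?_
      ring
    have h4 : ∀ᶠ w in 𝓝 w₁, ∀ m, evO OO Y (∑ s, pderiv s R * P (m, s)) w = 0 :=
      eventually_all.2 fun m => hid _ (hev _) z₁ hz1 w₁ hw₁ (h3 m)
    filter_upwards [h4] with w h5
    rw [hlin w]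
    exact Finset.sum_eq_zero fun m _ => by rw [h5 m, mul_zero]
  · intro s
    have h8 : ∀ (κ : Type) [Fintype κ] (f : κ → MvPolynomial (Ph N) OO), evO OO Y (∑ i, f i) w₁ = ∑ i, evO OO Y (f i) w₁ := by
      intro κ _ f
      exact map_sum (eval₂Hom (ev0 OO w₁) (Y w₁)) _ _
    have h9 : ∀ f g : MvPolynomial (Ph N) OO, evO OO Y (f * g) w₁ = evO OO Y f w₁ * evO OO Y g w₁ := fun f g => eval₂_mul _ _
    have h10 : ∀ c : ℂ, evO OO Y (C (algebraMap ℂ OO c)) w₁ = c := by
      intro c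
      show eval₂ (ev0 OO w₁) (Y w₁) (C (algebraMap ℂ OO c)) = c
      rw [eval₂_C]
      rfl
    simp only [h8, h9, h10]
    have h11 := hvw s
    have h12 : evO OO Y Q w₁ * ∑ m, pt (V w₁) (deriv V w₁) (σ m) / evO OO Y Q w₁ * evO OO Y (P (m, s)) w₁ = evO OO Y Q w₁ * pt (V w₁) (deriv V w₁) s := by
      rw [h11, Finset.mul_sum]
      refine Finset.sum_congr rfl fun m _ => ?_
      field_simp
    exact mul_left_cancel₀ hQw h12

end Pool.Agent.GL

end

section

/-!
# GL AvX: the potential `κ² + κ + ∑ (log |F i|)²`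

`κ = log ‖F‖` (Euclidean norm).  Its Laplacian is at least a multiple of the square of the logarithmic length.
-/

set_option autoImplicit false

open Topology Filter Metric Complex Laplacian MeasureTheory
open Pool.Agent.MQ
open Pool.Agent.H30M (gg)
open Pool.Agent.H36.BP (EN)

noncomputable section

namespace Pool.Agent.GL

variable {N : ℕ}

/-- the curve in the Euclidean space -/
def avG (F : ℂ → Fin (N + 1) → ℂ) (z : ℂ) : EN N := WithLp.toLp 2 (F z)

theorem avG_an {F : ℂ → Fin (N + 1) → ℂ} {z : ℂ} (hF : AnalyticAt ℂ F z) : AnalyticAt ℂ (avG F) z :=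
  ((PiLp.continuousLinearEquiv 2 ℂ (fun _ : Fin (N + 1) => ℂ)).symm.toContinuousLinearMap.analyticAt _).comp hF

theorem avG_deriv {F : ℂ → Fin (N + 1) → ℂ} {z : ℂ} (hF : AnalyticAt ℂ F z) : deriv (avG F) z = WithLp.toLp 2 (deriv F z) :=
  ((PiLp.continuousLinearEquiv 2 ℂ (fun _ : Fin (N + 1) => ℂ)).symm.toContinuousLinearMap.hasFDerivAt.comp_hasDerivAt z
    hF.differentiableAt.hasDerivAt).deriv

theorem avG_ne {F : ℂ → Fin (N + 1) → ℂ} {z : ℂ} (hF : F z ≠ 0) : avG F z ≠ 0 := fun h => hF (WithLp.toLp_injective 2 h)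

/-- the potential -/
def avPhi (B : Finset (Fin (N + 1))) (F : ℂ → Fin (N + 1) → ℂ) (z : ℂ) : ℝ :=
  (Real.log ‖avG F z‖ ^ 2 + Real.log ‖avG F z‖) + ∑ i ∈ B, Real.log ‖F z i‖ ^ 2

variable {B : Finset (Fin (N + 1))} {F : ℂ → Fin (N + 1) → ℂ} {z : ℂ}

theorem contDiffAt_logi {h : ℂ → ℂ} (hh : AnalyticAt ℂ h z) (h0 : h z ≠ 0) : ContDiffAt ℝ 2 (fun w => Real.log ‖h w‖) z :=
  contDiffAt_log_norm hh h0

theorem contDiffAt_avPhi (hF : AnalyticAt ℂ F z) (h0 : F z ≠ 0) (hi : ∀ i ∈ B, F z i ≠ 0) : ContDiffAt ℝ 2 (avPhi B F) z := by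
  have h1 : ContDiffAt ℝ 2 (fun w => Real.log ‖avG F w‖) z := contDiffAt_log_norm (avG_an hF) (avG_ne h0)
  unfold avPhi
  refine ((h1.pow 2).add h1).add (ContDiffAt.sum fun i hiB => ?_)
  exact (contDiffAt_logi ((analyticAt_pi_iff.1 hF) i) (hi i hiB)).pow 2

/-- the Laplacian of the square of the logarithm of the modulus -/
theorem lap_sq_log {h : ℂ → ℂ} (hh : AnalyticAt ℂ h z) (h0 : h z ≠ 0) : Δ (fun w => Real.log ‖h w‖ ^ 2) z = 2 * (‖deriv h z‖ / ‖h z‖) ^ 2 := by
  have hu : ContDiffAt ℝ 2 (fun w => Real.log ‖h w‖) z := contDiffAt_log_norm hh h0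
  have d1 : deriv (fun t : ℝ => t ^ 2) = fun t => 2 * t := by
    funext t
    simp
  have d2 : deriv (deriv (fun t : ℝ => t ^ 2)) (Real.log ‖h z‖) = 2 := by
    rw [d1]
    simp
  have hl : Δ (fun w => Real.log ‖h w‖) z = 0 := by
    rw [lap_log_normV hh h0]
    unfold fsd
    have : ‖inner ℂ (h z) (deriv h z)‖ = ‖h z‖ * ‖deriv h z‖ := by
      rw [RCLike.inner_apply, norm_mul, RCLike.norm_conj, mul_comm]
    rw [this]
    ring_nf
  rw [Pool.Agent.H30M.lap_comp (φ := fun t : ℝ => t ^ 2) (by fun_prop) hu, d2, hl, gg_self, gr_log_norm hh.differentiableAt h0]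
  rw [RCLike.norm_conj, norm_div]
  ring

theorem lap_kap (hF : AnalyticAt ℂ F z) (h0 : F z ≠ 0) (hk : 0 ≤ Real.log ‖avG F z‖) :
    2 * (‖deriv (avG F) z‖ / ‖avG F z‖) ^ 2 ≤ Δ (fun w => Real.log ‖avG F w‖ ^ 2 + Real.log ‖avG F w‖) z := by
  have hG := avG_an hF
  have hG0 := avG_ne h0
  have hn : 0 < ‖avG F z‖ := norm_pos_iff.2 hG0
  have hu : ContDiffAt ℝ 2 (fun w => Real.log ‖avG F w‖) z := contDiffAt_log_norm hG hG0
  have d1 : deriv (fun t : ℝ => t ^ 2 + t) = fun t => 2 * t + 1 := by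
    funext t
    have : HasDerivAt (fun t : ℝ => t ^ 2 + t) (2 * t + 1) t :=
      ((hasDerivAt_pow 2 t).fun_add (hasDerivAt_id' t)).congr_deriv (by norm_num)
    exact this.deriv
  have d2 : deriv (deriv (fun t : ℝ => t ^ 2 + t)) (Real.log ‖avG F z‖) = 2 := by
    rw [d1]
    have : HasDerivAt (fun t : ℝ => 2 * t + 1) 2 (Real.log ‖avG F z‖) := by
      have := ((hasDerivAt_id (Real.log ‖avG F z‖)).const_mul 2).add_const (1 : ℝ)
      simpa using this
    exact this.deriv
  rw [Pool.Agent.H30M.lap_comp (φ := fun t : ℝ => t ^ 2 + t) (by fun_prop) hu, d2, d1, gg_self, gr_log_normV hG.differentiableAt.hasDerivAt hG0,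
    lap_log_normV hG hG0]
  have e1 : ‖((((‖avG F z‖ ^ 2)⁻¹ : ℝ) : ℂ)) * (starRingEnd ℂ) (inner ℂ (avG F z) (deriv (avG F) z))‖ ^ 2 =
      ‖inner ℂ (avG F z) (deriv (avG F) z)‖ ^ 2 / ‖avG F z‖ ^ 4 := by
    rw [norm_mul, RCLike.norm_conj, Complex.norm_real, Real.norm_eq_abs, abs_of_nonneg (by positivity)]
    field_simp
  have e2 : 2 * (‖deriv (avG F) z‖ / ‖avG F z‖) ^ 2 = fsd (avG F z) (deriv (avG F) z) + 2 * (‖inner ℂ (avG F z) (deriv (avG F) z)‖ ^ 2 / ‖avG F z‖ ^ 4) := by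
    unfold fsd
    field_simp
    ring
  have e3 : 0 ≤ Real.log ‖avG F z‖ * fsd (avG F z) (deriv (avG F) z) := mul_nonneg hk (fsd_nonneg _ _)
  rw [e1, e2]
  nlinarith

theorem lap_avPhi (hF : AnalyticAt ℂ F z) (h0 : F z ≠ 0) (hi : ∀ i ∈ B, F z i ≠ 0) (hk : 0 ≤ Real.log ‖avG F z‖) :
    2 * (‖deriv (avG F) z‖ / ‖avG F z‖) ^ 2 + ∑ i ∈ B, 2 * (‖deriv F z i‖ / ‖F z i‖) ^ 2 ≤ Δ (avPhi B F) z := by
  have h1 : ContDiffAt ℝ 2 (fun w => Real.log ‖avG F w‖) z := contDiffAt_log_norm (avG_an hF) (avG_ne h0)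
  have h2 : ContDiffAt ℝ 2 (fun w => Real.log ‖avG F w‖ ^ 2 + Real.log ‖avG F w‖) z := (h1.pow 2).add h1
  have h3 : ∀ i ∈ B, ContDiffAt ℝ 2 (fun w => Real.log ‖F w i‖ ^ 2) z := fun i hiB =>
    (contDiffAt_logi ((analyticAt_pi_iff.1 hF) i) (hi i hiB)).pow 2
  have e1 : avPhi B F = (fun w => Real.log ‖avG F w‖ ^ 2 + Real.log ‖avG F w‖) + ∑ i ∈ B, fun w => Real.log ‖F w i‖ ^ 2 := by
    funext w
    simp [avPhi]
  have e2 : Δ (∑ i ∈ B, fun w => Real.log ‖F w i‖ ^ 2) z = ∑ i ∈ B, Δ (fun w => Real.log ‖F w i‖ ^ 2) z := by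
    clear e1 h2 hk
    induction B using Finset.induction_on with
    | empty =>
      have h9 : Δ (0 : ℂ → ℝ) z = 0 := by
        rw [Pool.Agent.H30M.lap_eq (u := (0 : ℂ → ℝ)) contDiffAt_const]
        simp
      simpa using h9
    | insert i B hiB ih =>
      rw [Finset.sum_insert hiB, Finset.sum_insert hiB]
      have h4 : ContDiffAt ℝ 2 (∑ i ∈ B, fun w => Real.log ‖F w i‖ ^ 2) z := by
        have : (∑ i ∈ B, fun w : ℂ => Real.log ‖F w i‖ ^ 2) = fun w => ∑ i ∈ B, Real.log ‖F w i‖ ^ 2 := by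
          funext w
          simp
        rw [this]
        exact ContDiffAt.sum fun i hi' => h3 i (Finset.mem_insert_of_mem hi')
      rw [ContDiffAt.laplacian_add (h3 i (Finset.mem_insert_self _ _)) h4,
        ih (fun j hj => hi j (Finset.mem_insert_of_mem hj)) (fun j hj => h3 j (Finset.mem_insert_of_mem hj))]
  have h5 : ContDiffAt ℝ 2 (∑ i ∈ B, fun w => Real.log ‖F w i‖ ^ 2) z := by
    have : (∑ i ∈ B, fun w : ℂ => Real.log ‖F w i‖ ^ 2) = fun w => ∑ i ∈ B, Real.log ‖F w i‖ ^ 2 := by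
      funext w
      simp
    rw [this]
    exact ContDiffAt.sum fun i hi' => h3 i hi'
  rw [e1, ContDiffAt.laplacian_add h2 h5, e2]
  refine add_le_add (lap_kap hF h0 hk) (Finset.sum_le_sum fun i hiB => ?_)
  have h6 := lap_sq_log ((analyticAt_pi_iff.1 hF) i) (hi i hiB)
  have h7 : deriv (fun w => F w i) z = deriv F z i := by
    have := (hasDerivAt_pi.1 hF.differentiableAt.hasDerivAt i)
    exact this.deriv
  rw [h6, h7]

end Pool.Agent.GL

end
end

section

/-!
# GL Av: the averaging lemma (AV)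

Let `F` be holomorphic near the disc `closedBall a R`, with `F b = 1`, `F i ≠ 0` for `i ∈ B`, and height `≤ M`.  With the Euclidean norm, `κ = log ‖F‖ ≥ 0` and `φ = κ² + κ + ∑ (log |F i|)²`:
`Δ φ ≥ c LL²` (`AvX`), `0 ≤ φ ≤ C (M + 1)²`, so the integral of `LL²` over `closedBall a (R / 2)` is `≤ C (M + 1)²` (cut-off function).  If `|g| ≤ C LL (F, F')^k` then `|g|^(2/k) ≤ C' LL²`, and `|g (a)|^(2/k)` is
at most the mean of `|g|^(2/k)` over a disc (`GA/SmlCore`: `rpow_le_area`), so `|g (a)| ≤ C (K (M + 1) / R)^k`.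
-/

set_option autoImplicit false

open MvPolynomial Topology Filter Metric
open Pool.Agent.GG Pool.Agent.GA

namespace Pool.Agent.GL

variable {N : ℕ}

open Laplacian MeasureTheory in
private theorem av_unit (B : Finset (Fin (N + 1))) (b : Fin (N + 1)) : ∃ K > 0, ∀ (F : ℂ → Fin (N + 1) → ℂ) (M : ℝ),
    (∀ z ∈ closedBall (0 : ℂ) 1, AnalyticAt ℂ F z) → (∀ z ∈ closedBall (0 : ℂ) 1, F z b = 1) → (∀ z ∈ closedBall (0 : ℂ) 1, ∀ i ∈ B, F z i ≠ 0) →
    (∀ z ∈ closedBall (0 : ℂ) 1, Rho B (F z) ≤ M) → ∀ (g : ℂ → ℂ) (C : ℝ) (k : ℕ), (∀ z ∈ closedBall (0 : ℂ) 1, AnalyticAt ℂ g z) → 0 ≤ C →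
    (∀ z ∈ closedBall (0 : ℂ) 1, ‖g z‖ ≤ C * LL B (F z) (deriv F z) ^ k) → ‖g 0‖ ≤ C * (K * (M + 1)) ^ k := by
  classical
  -- the cut-off function
  let χ : ContDiffBump (0 : ℂ) := ⟨1 / 2, 3 / 4, by norm_num, by norm_num⟩
  have hχc : HasCompactSupport (fun z => χ z) := χ.hasCompactSupport
  have hχd : ContDiff ℝ 2 (fun z => χ z) := χ.contDiff
  have hχs : tsupport (fun z => χ z) = closedBall 0 (3 / 4) := χ.tsupport_eq
  set D : ℝ := ∫ z, ‖Δ (fun z => χ z) z‖ with hD
  have hD0 : 0 ≤ D := integral_nonneg fun z => norm_nonneg _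
  set A : ℝ := (1 + B.card) * (N + 1) with hA
  have hA0 : 0 < A := by positivity
  set E : ℝ := 2 * (N + 1) ^ 2 + B.card with hE
  have hE0 : 0 < E := by positivity
  refine ⟨Real.sqrt (4 / Real.pi * (A * (D * E)) + 1), Real.sqrt_pos.2 (by positivity), ?_⟩
  intro F M hF hFb hFi hFM g C k hg hC hgC
  set K : ℝ := Real.sqrt (4 / Real.pi * (A * (D * E)) + 1) with hK
  have hK2 : K ^ 2 = 4 / Real.pi * (A * (D * E)) + 1 := Real.sq_sqrt (by positivity)
  have hK0 : 0 ≤ K := Real.sqrt_nonneg _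
  have h00 : (0 : ℂ) ∈ closedBall (0 : ℂ) 1 := by simp
  -- the height
  have hFn : ∀ z ∈ closedBall (0 : ℂ) 1, 1 ≤ ‖F z‖ := fun z hz => by
    have := norm_le_pi_norm (F z) b
    rwa [hFb z hz, norm_one] at this
  have hF0 : ∀ z ∈ closedBall (0 : ℂ) 1, F z ≠ 0 := fun z hz h => by
    have := hFn z hz
    rw [h, norm_zero] at this
    linarith
  have hlF : ∀ z ∈ closedBall (0 : ℂ) 1, 0 ≤ Real.log ‖F z‖ := fun z hz => Real.log_nonneg (hFn z hz)
  have hli : ∀ z ∈ closedBall (0 : ℂ) 1, ∀ i ∈ B, 0 ≤ Real.log ‖F z‖ - Real.log ‖F z i‖ := by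
    intro z hz i hi
    have h1 : ‖F z i‖ ≤ ‖F z‖ := norm_le_pi_norm _ _
    have := Real.log_le_log (norm_pos_iff.2 (hFi z hz i hi)) h1
    linarith
  have hlM : ∀ z ∈ closedBall (0 : ℂ) 1, Real.log ‖F z‖ ≤ M := by
    intro z hz
    have h1 := hFM z hz
    unfold Rho at h1
    have h2 : 0 ≤ ∑ i ∈ B, (Real.log ‖F z‖ - Real.log ‖F z i‖) := Finset.sum_nonneg fun i hi => hli z hz i hi
    linarith
  have hliM : ∀ z ∈ closedBall (0 : ℂ) 1, ∀ i ∈ B, Real.log ‖F z‖ - Real.log ‖F z i‖ ≤ M := by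
    intro z hz i hi
    have h1 := hFM z hz
    unfold Rho at h1
    have h2 : Real.log ‖F z‖ - Real.log ‖F z i‖ ≤ ∑ i ∈ B, (Real.log ‖F z‖ - Real.log ‖F z i‖) :=
      Finset.single_le_sum (f := fun i => Real.log ‖F z‖ - Real.log ‖F z i‖) (fun i hi => hli z hz i hi) hi
    linarith [hlF z hz]
  have hM : 0 ≤ M := (hlF 0 h00).trans (hlM 0 h00)
  -- the Euclidean norm
  have hGle : ∀ z, ‖F z‖ ≤ ‖avG F z‖ := fun z => by
    refine (pi_norm_le_iff_of_nonneg (norm_nonneg _)).2 fun i => ?_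
    exact PiLp.norm_apply_le (avG F z) i
  have hGge : ∀ z, ‖avG F z‖ ^ 2 ≤ (N + 1) * ‖F z‖ ^ 2 := fun z => by
    rw [EuclideanSpace.norm_sq_eq]
    calc ∑ i, ‖avG F z i‖ ^ 2 ≤ ∑ _i : Fin (N + 1), ‖F z‖ ^ 2 := by
          refine Finset.sum_le_sum fun i _ => pow_le_pow_left₀ (norm_nonneg _) ?_ 2
          exact norm_le_pi_norm (F z) i
      _ = (N + 1) * ‖F z‖ ^ 2 := by simp
  have hkap0 : ∀ z ∈ closedBall (0 : ℂ) 1, 0 ≤ Real.log ‖avG F z‖ := fun z hz => Real.log_nonneg ((hFn z hz).trans (hGle z))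
  have hkapM : ∀ z ∈ closedBall (0 : ℂ) 1, Real.log ‖avG F z‖ ≤ (N + 1) * (M + 1) := by
    intro z hz
    have hFp : 0 < ‖F z‖ := norm_pos_iff.2 (hF0 z hz)
    have h1 : Real.log (‖avG F z‖ ^ 2) ≤ Real.log ((N + 1) * ‖F z‖ ^ 2) :=
      Real.log_le_log (by have := norm_pos_iff.2 (avG_ne (hF0 z hz)); positivity) (hGge z)
    rw [Real.log_mul (by positivity) (by positivity), Real.log_pow, Real.log_pow] at h1
    have h2 : Real.log ((N : ℝ) + 1) ≤ N := by
      have := Real.log_le_sub_one_of_pos (show (0 : ℝ) < N + 1 by positivity)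
      linarith
    have h3 := hlM z hz
    have h4 : (0 : ℝ) ≤ N := Nat.cast_nonneg N
    push_cast at h1
    nlinarith [mul_nonneg h4 hM]
  -- the bound of the potential
  have hφ0 : ∀ z ∈ closedBall (0 : ℂ) 1, 0 ≤ avPhi B F z := fun z hz => by
    have := hkap0 z hz
    unfold avPhi
    positivity
  have hφ : ∀ z ∈ closedBall (0 : ℂ) 1, avPhi B F z ≤ E * (M + 1) ^ 2 := by
    intro z hz
    have h1 := hkap0 z hz
    have h2 := hkapM z hz
    have h3 : ∑ i ∈ B, Real.log ‖F z i‖ ^ 2 ≤ B.card * (M + 1) ^ 2 := by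
      rw [← nsmul_eq_mul]
      refine Finset.sum_le_card_nsmul _ _ _ fun i hi => ?_
      have h4 := hliM z hz i hi
      have h5 := hli z hz i hi
      have h6 := hlM z hz
      have h7 := hlF z hz
      apply sq_le_sq'
      · linarith
      · linarith
    unfold avPhi
    have h8 : Real.log ‖avG F z‖ ^ 2 ≤ ((N + 1) * (M + 1)) ^ 2 := pow_le_pow_left₀ h1 h2 2
    have h9 : (N + 1 : ℝ) * (M + 1) ≤ ((N + 1) * (M + 1)) ^ 2 := by
      have h10 : (1 : ℝ) ≤ (N + 1) * (M + 1) := by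
        have : (0 : ℝ) ≤ N := Nat.cast_nonneg N
        nlinarith [mul_nonneg this hM]
      nlinarith
    calc _ ≤ (((N + 1) * (M + 1)) ^ 2 + ((N + 1) * (M + 1)) ^ 2) + B.card * (M + 1) ^ 2 := by linarith
      _ = E * (M + 1) ^ 2 := by rw [hE]; ring
  -- `LL² ≤ A Δ φ`
  have hsub : closedBall (0 : ℂ) (3 / 4) ⊆ closedBall 0 1 := closedBall_subset_closedBall (by norm_num)
  have hLL : ∀ z ∈ closedBall (0 : ℂ) 1, LL B (F z) (deriv F z) ^ 2 ≤ A * Δ (avPhi B F) z := by
    intro z hz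
    have h1 := lap_avPhi (hF z hz) (hF0 z hz) (hFi z hz) (hkap0 z hz)
    have hFp : 0 < ‖F z‖ := norm_pos_iff.2 (hF0 z hz)
    have hGp : 0 < ‖avG F z‖ := norm_pos_iff.2 (avG_ne (hF0 z hz))
    have h2 : (‖deriv F z‖ / ‖F z‖) ^ 2 ≤ (N + 1) * (‖deriv (avG F) z‖ / ‖avG F z‖) ^ 2 := by
      have h3 : ‖deriv F z‖ ≤ ‖deriv (avG F) z‖ := by
        rw [avG_deriv (hF z hz)]
        refine (pi_norm_le_iff_of_nonneg (norm_nonneg _)).2 fun i => ?_
        exact PiLp.norm_apply_le (WithLp.toLp 2 (deriv F z) : Pool.Agent.H36.BP.EN N) i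
      rw [div_pow, div_pow, mul_div_assoc', div_le_div_iff₀ (by positivity) (by positivity)]
      have h4 : ‖deriv F z‖ ^ 2 ≤ ‖deriv (avG F) z‖ ^ 2 := pow_le_pow_left₀ (norm_nonneg _) h3 2
      calc ‖deriv F z‖ ^ 2 * ‖avG F z‖ ^ 2 ≤ ‖deriv (avG F) z‖ ^ 2 * ((N + 1) * ‖F z‖ ^ 2) :=
            mul_le_mul h4 (hGge z) (by positivity) (by positivity)
        _ = (N + 1) * ‖deriv (avG F) z‖ ^ 2 * ‖F z‖ ^ 2 := by ring
    have h5 : LL B (F z) (deriv F z) ^ 2 ≤ (1 + B.card) * ((‖deriv F z‖ / ‖F z‖) ^ 2 + ∑ i ∈ B, (‖deriv F z i‖ / ‖F z i‖) ^ 2) := by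
      unfold LL
      have h6 := sq_sum_le_card_mul_sum_sq (s := B) (f := fun i => ‖deriv F z i‖ / ‖F z i‖)
      set u := ‖deriv F z‖ / ‖F z‖
      set S := ∑ i ∈ B, ‖deriv F z i‖ / ‖F z i‖
      set Q := ∑ i ∈ B, (‖deriv F z i‖ / ‖F z i‖) ^ 2
      have hQ : 0 ≤ Q := Finset.sum_nonneg fun i _ => sq_nonneg _
      rcases Finset.eq_empty_or_nonempty B with hB | hB
      · have hS : S = 0 := by simp [S, hB]
        have hc : (B.card : ℝ) = 0 := by simp [hB]
        rw [hS, hc]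
        nlinarith
      · have hc : (1 : ℝ) ≤ B.card := by exact_mod_cast hB.card_pos
        have hc0 : (0 : ℝ) < B.card := by linarith
        -- `2 u S ≤ card u² + S² / card`
        have h7 : 2 * u * S ≤ B.card * u ^ 2 + S ^ 2 / B.card := by
          have h8 : 0 ≤ (B.card * u - S) ^ 2 / B.card := by positivity
          have h9 : (B.card * u - S) ^ 2 / B.card = B.card * u ^ 2 - 2 * u * S + S ^ 2 / B.card := by
            field_simp
            ring
          linarith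
        have h10 : S ^ 2 / B.card ≤ Q := by
          rw [div_le_iff₀ hc0]
          linarith
        nlinarith
    have h11 : ∑ i ∈ B, (‖deriv F z i‖ / ‖F z i‖) ^ 2 ≤ (N + 1) * ∑ i ∈ B, (‖deriv F z i‖ / ‖F z i‖) ^ 2 := by
      have : 0 ≤ ∑ i ∈ B, (‖deriv F z i‖ / ‖F z i‖) ^ 2 := Finset.sum_nonneg fun i _ => sq_nonneg _
      have h12 : (0 : ℝ) ≤ N := Nat.cast_nonneg N
      nlinarith
    have h13 : ∑ i ∈ B, 2 * (‖deriv F z i‖ / ‖F z i‖) ^ 2 = 2 * ∑ i ∈ B, (‖deriv F z i‖ / ‖F z i‖) ^ 2 := by rw [Finset.mul_sum]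
    rw [h13] at h1
    have h14 : 0 ≤ (‖deriv (avG F) z‖ / ‖avG F z‖) ^ 2 := sq_nonneg _
    have h15 : 0 ≤ ∑ i ∈ B, (‖deriv F z i‖ / ‖F z i‖) ^ 2 := Finset.sum_nonneg fun i _ => sq_nonneg _
    calc LL B (F z) (deriv F z) ^ 2 ≤ (1 + B.card) * ((‖deriv F z‖ / ‖F z‖) ^ 2 + ∑ i ∈ B, (‖deriv F z i‖ / ‖F z i‖) ^ 2) := h5
      _ ≤ (1 + B.card) * ((N + 1) * ((‖deriv (avG F) z‖ / ‖avG F z‖) ^ 2 + ∑ i ∈ B, (‖deriv F z i‖ / ‖F z i‖) ^ 2)) := by
        gcongr
        linarith
      _ ≤ (1 + B.card) * ((N + 1) * Δ (avPhi B F) z) := by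
        gcongr
        linarith
      _ = A * Δ (avPhi B F) z := by rw [hA]; ring
  -- Green's identity
  have hcd : ∀ z ∈ closedBall (0 : ℂ) 1, ContDiffAt ℝ 2 (avPhi B F) z := fun z hz => contDiffAt_avPhi (hF z hz) (hF0 z hz) (hFi z hz)
  have hgreen := Pool.Agent.H30M.green2 hχd hχc (u := avPhi B F) (fun z hz => hcd z (hsub (by rwa [hχs] at hz)))
  have hlapc : ∀ z ∈ tsupport (fun z => χ z), ContinuousAt (Δ (avPhi B F)) z := by
    intro z hz
    rw [hχs] at hz
    have hz1 : z ∈ ball (0 : ℂ) 1 := closedBall_subset_ball (by norm_num) hz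
    have h1 : (fun w => fderiv ℝ (fun v => fderiv ℝ (avPhi B F) v 1) w 1 + fderiv ℝ (fun v => fderiv ℝ (avPhi B F) v Complex.I) w Complex.I) =ᶠ[𝓝 z]
        Δ (avPhi B F) := by
      filter_upwards [isOpen_ball.mem_nhds hz1] with w hw
      rw [Pool.Agent.H30M.lap_eq (hcd w (ball_subset_closedBall hw))]
    have h2 := hcd z (hsub hz)
    have h3 : ∀ v : ℂ, ContinuousAt (fun w => fderiv ℝ (fun u => fderiv ℝ (avPhi B F) u v) w v) z := fun v =>
      (((Pool.Agent.H30M.contDiffAt_d h2 v).fderiv_right (m := 0) (by norm_num)).clm_apply contDiffAt_const).continuousAt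
    exact ((h3 1).add (h3 Complex.I)).congr h1
  have hint : Integrable (fun z => χ z * Δ (avPhi B F) z) := by
    have hs : tsupport (fun z => χ z * Δ (avPhi B F) z) ⊆ tsupport (fun z => χ z) :=
      tsupport_mul_subset_left (f := fun z => χ z) (g := Δ (avPhi B F))
    exact Pool.Agent.H30M.integrable_of_ts (fun z hz => hχd.continuous.continuousAt.mul (hlapc z (hs hz))) (Pool.Agent.H30M.hcs_of_sub hχc hs)
  have hlap0 : ∀ z ∈ closedBall (0 : ℂ) 1, 0 ≤ Δ (avPhi B F) z := fun z hz => by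
    have := (sq_nonneg _).trans (hLL z hz)
    exact (mul_nonneg_iff_of_pos_left hA0).1 this
  have hup : ∫ z, χ z * Δ (avPhi B F) z ≤ D * (E * (M + 1) ^ 2) := by
    rw [hgreen, hD, ← integral_mul_const]
    have hcL : Continuous (Δ (fun z => χ z)) := by
      rw [continuous_iff_continuousAt]
      intro z
      have h1 : (fun w => fderiv ℝ (fun v => fderiv ℝ (fun z => χ z) v 1) w 1 + fderiv ℝ (fun v => fderiv ℝ (fun z => χ z) v Complex.I) w Complex.I) =ᶠ[𝓝 z]
          Δ (fun z => χ z) := by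
        filter_upwards with w
        rw [Pool.Agent.H30M.lap_eq hχd.contDiffAt]
      have h3 : ∀ v : ℂ, ContinuousAt (fun w => fderiv ℝ (fun u => fderiv ℝ (fun z => χ z) u v) w v) z := fun v =>
        (((Pool.Agent.H30M.contDiffAt_d hχd.contDiffAt v).fderiv_right (m := 0) (by norm_num)).clm_apply contDiffAt_const).continuousAt
      exact ((h3 1).add (h3 Complex.I)).congr h1
    have hts : tsupport (Δ (fun z => χ z)) ⊆ tsupport (fun z => χ z) := by
      refine closure_minimal (fun z hz => ?_) (isClosed_tsupport _)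
      by_contra hcon
      exact hz (Pool.Agent.H30M.lap_of_not_ts hcon)
    have hcs : HasCompactSupport (Δ (fun z => χ z)) := Pool.Agent.H30M.hcs_of_sub hχc hts
    have hi1 : Integrable (fun z => ‖Δ (fun z => χ z) z‖ * (E * (M + 1) ^ 2)) := (hcL.integrable_of_hasCompactSupport hcs).norm.mul_const _
    have hi0 : Integrable (fun z => Δ (fun z => χ z) z * avPhi B F z) := by
      have hs : tsupport (fun z => Δ (fun z => χ z) z * avPhi B F z) ⊆ tsupport (fun z => χ z) :=
        (tsupport_mul_subset_left (f := Δ (fun z => χ z)) (g := avPhi B F)).trans ((closure_minimal (fun z hz => by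
          by_contra hcon
          exact hz (Pool.Agent.H30M.lap_of_not_ts hcon)) (isClosed_tsupport _)))
      refine Pool.Agent.H30M.integrable_of_ts (fun z hz => ?_) (Pool.Agent.H30M.hcs_of_sub hχc hs)
      have hz' := hs hz
      rw [hχs] at hz'
      exact hcL.continuousAt.mul (hcd z (hsub hz')).continuousAt
    refine integral_mono hi0 hi1 fun z => ?_
    by_cases hz : z ∈ closedBall (0 : ℂ) 1
    · calc Δ (fun z => χ z) z * avPhi B F z ≤ ‖Δ (fun z => χ z) z‖ * avPhi B F z :=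
            mul_le_mul_of_nonneg_right (Real.le_norm_self _) (hφ0 z hz)
        _ ≤ _ := mul_le_mul_of_nonneg_left (hφ z hz) (norm_nonneg _)
    · have h1 : Δ (fun z => χ z) z = 0 := by
        apply Pool.Agent.H30M.lap_of_not_ts
        rw [hχs]
        exact fun h => hz (hsub h)
      simp only [h1, zero_mul, norm_zero, le_refl]
  rcases Nat.eq_zero_or_pos k with hk | hk
  · have := hgC 0 h00
    simpa [hk] using this
  have hkp : (0 : ℝ) < k := by exact_mod_cast hk
  have hp : (0 : ℝ) < 2 / k := by positivity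
  have hLLn : ∀ z, 0 ≤ LL B (F z) (deriv F z) := fun z => by unfold LL; positivity
  have hb : ball (0 : ℂ) (1 / 2) ⊆ closedBall 0 1 := (ball_subset_ball (by norm_num)).trans ball_subset_closedBall
  have harea := rpow_le_area (s := g) (c := 0) (h := 1 / 2) (p := 2 / k) (by norm_num) hp
    (fun z hz => hg z (closedBall_subset_closedBall (by norm_num) hz))
  have hmono : ∫ z in ball (0 : ℂ) (1 / 2), ‖g z‖ ^ (2 / k : ℝ) ≤ ∫ z in ball (0 : ℂ) (1 / 2), C ^ (2 / k : ℝ) * A * (χ z * Δ (avPhi B F) z) := by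
    refine setIntegral_mono_on ?_ (hint.const_mul _).integrableOn measurableSet_ball fun z hz => ?_
    · have h1 : ContinuousOn (fun z => ‖g z‖ ^ (2 / k : ℝ)) (closedBall (0 : ℂ) 1) :=
        ContinuousOn.rpow_const (fun z hz => (hg z hz).continuousAt.norm.continuousWithinAt) fun z _ => Or.inr hp.le
      exact (h1.integrableOn_compact (isCompact_closedBall _ _)).mono_set hb
    · have h1 : χ z = 1 := χ.one_of_mem_closedBall (ball_subset_closedBall hz)
      rw [h1, one_mul]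
      have h2 : ‖g z‖ ^ (2 / k : ℝ) ≤ (C * LL B (F z) (deriv F z) ^ k) ^ (2 / k : ℝ) :=
        Real.rpow_le_rpow (norm_nonneg _) (hgC z (hb hz)) hp.le
      refine h2.trans ?_
      rw [Real.mul_rpow hC (pow_nonneg (hLLn z) _), ← Real.rpow_natCast, ← Real.rpow_mul (hLLn z)]
      have h3 : (k : ℝ) * (2 / k) = 2 := by field_simp
      rw [h3, mul_assoc]
      refine mul_le_mul_of_nonneg_left ?_ (Real.rpow_nonneg hC _)
      have h4 := hLL z (hb hz)
      rwa [← Real.rpow_natCast _ 2, Nat.cast_ofNat] at h4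
  have hset : ∫ z in ball (0 : ℂ) (1 / 2), C ^ (2 / k : ℝ) * A * (χ z * Δ (avPhi B F) z) ≤ C ^ (2 / k : ℝ) * A * (D * (E * (M + 1) ^ 2)) := by
    rw [integral_const_mul]
    refine mul_le_mul_of_nonneg_left ?_ (by have := Real.rpow_nonneg hC (2 / k : ℝ); positivity)
    refine (setIntegral_le_integral hint (Eventually.of_forall fun z => ?_)).trans hup
    by_cases hz : z ∈ closedBall (0 : ℂ) 1
    · exact mul_nonneg χ.nonneg (hlap0 z hz)
    · have h1 : χ z = 0 := by
        have : z ∉ tsupport (fun z => χ z) := by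
          rw [hχs]
          exact fun h => hz (hsub h)
        exact image_eq_zero_of_notMem_tsupport this
      simp only [h1, zero_mul, Pi.zero_apply, le_refl]
  have hchain := harea.trans (hmono.trans hset)
  have hM1 : 0 ≤ M + 1 := by linarith
  have hfin : ‖g 0‖ ^ (2 / k : ℝ) ≤ (C * (K * (M + 1)) ^ k) ^ (2 / k : ℝ) := by
    rw [Real.mul_rpow hC (by positivity), ← Real.rpow_natCast _ k, ← Real.rpow_mul (by positivity)]
    have h3 : (k : ℝ) * (2 / k) = 2 := by field_simp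
    rw [h3]
    have h4 : (K * (M + 1)) ^ (2 : ℝ) = K ^ 2 * (M + 1) ^ 2 := by
      rw [Real.rpow_two]
      ring
    rw [h4, hK2]
    have hCp : 0 ≤ C ^ (2 / k : ℝ) := Real.rpow_nonneg hC _
    have h5 : ‖g 0‖ ^ (2 / k : ℝ) ≤ C ^ (2 / k : ℝ) * (4 / Real.pi * (A * (D * E)) * (M + 1) ^ 2) := by
      have h6 : Real.pi * (1 / 2) ^ 2 * ‖g 0‖ ^ (2 / k : ℝ) ≤ C ^ (2 / k : ℝ) * A * (D * (E * (M + 1) ^ 2)) := hchain
      have h7 : Real.pi * (1 / 2) ^ 2 * (C ^ (2 / k : ℝ) * (4 / Real.pi * (A * (D * E)) * (M + 1) ^ 2)) = C ^ (2 / k : ℝ) * A * (D * (E * (M + 1) ^ 2)) := by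
        field_simp
        ring
      rw [← h7] at h6
      exact le_of_mul_le_mul_left h6 (by positivity)
    refine h5.trans (mul_le_mul_of_nonneg_left ?_ hCp)
    nlinarith [sq_nonneg (M + 1)]
  exact (Real.rpow_le_rpow_iff (norm_nonneg _) (by positivity) hp).1 hfin

theorem exists_av (B : Finset (Fin (N + 1))) (b : Fin (N + 1)) : ∃ K > 0, ∀ (F : ℂ → Fin (N + 1) → ℂ) (a : ℂ) (R M : ℝ), 0 < R →
    (∀ z ∈ closedBall a R, AnalyticAt ℂ F z) → (∀ z ∈ closedBall a R, F z b = 1) → (∀ z ∈ closedBall a R, ∀ i ∈ B, F z i ≠ 0) →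
    (∀ z ∈ closedBall a R, Rho B (F z) ≤ M) → ∀ (g : ℂ → ℂ) (C : ℝ) (k : ℕ), (∀ z ∈ closedBall a R, AnalyticAt ℂ g z) → 0 ≤ C →
    (∀ z ∈ closedBall a R, ‖g z‖ ≤ C * LL B (F z) (deriv F z) ^ k) → ‖g a‖ ≤ C * (K * (M + 1) / R) ^ k := by
  obtain ⟨K, hK, h⟩ := av_unit B b
  refine ⟨K, hK, fun F a R M hR hF hFb hFi hFM g C k hg hC hgC => ?_⟩
  have hmem : ∀ w ∈ closedBall (0 : ℂ) 1, a + (R : ℂ) * w ∈ closedBall a R := by
    intro w hw
    rw [mem_closedBall, dist_eq_norm] at hw ⊢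
    rw [sub_zero] at hw
    rw [add_sub_cancel_left, norm_mul, Complex.norm_real, Real.norm_eq_abs, abs_of_pos hR]
    calc R * ‖w‖ ≤ R * 1 := by gcongr
      _ = R := mul_one R
  have han : ∀ w : ℂ, AnalyticAt ℂ (fun w : ℂ => a + (R : ℂ) * w) w := fun w => by fun_prop
  have hdF : ∀ w ∈ closedBall (0 : ℂ) 1, deriv (fun w : ℂ => F (a + (R : ℂ) * w)) w = (R : ℂ) • deriv F (a + (R : ℂ) * w) := by
    intro w hw
    have h1 : HasDerivAt (fun w : ℂ => a + (R : ℂ) * w) (R : ℂ) w := by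
      simpa using ((hasDerivAt_id w).const_mul (R : ℂ)).const_add a
    exact ((hF _ (hmem w hw)).differentiableAt.hasDerivAt.scomp w h1).deriv
  have hR' : (R : ℝ) ≠ 0 := hR.ne'
  have h1 := h (fun w => F (a + (R : ℂ) * w)) M (fun w hw => (hF _ (hmem w hw)).comp (f := fun w : ℂ => a + (R : ℂ) * w) (han w))
    (fun w hw => hFb _ (hmem w hw)) (fun w hw => hFi _ (hmem w hw)) (fun w hw => hFM _ (hmem w hw))
    (fun w => g (a + (R : ℂ) * w)) (C / R ^ k) k (fun w hw => (hg _ (hmem w hw)).comp (f := fun w : ℂ => a + (R : ℂ) * w) (han w)) (by positivity) (by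
      intro w hw
      have h2 := hgC _ (hmem w hw)
      have h3 : LL B (F (a + (R : ℂ) * w)) (deriv (fun w : ℂ => F (a + (R : ℂ) * w)) w) = R * LL B (F (a + (R : ℂ) * w)) (deriv F (a + (R : ℂ) * w)) := by
        rw [hdF w hw]
        unfold LL
        rw [norm_smul, Complex.norm_real, Real.norm_eq_abs, abs_of_pos hR, mul_add, Finset.mul_sum, mul_div_assoc]
        congr 1
        refine Finset.sum_congr rfl fun i _ => ?_
        rw [Pi.smul_apply, smul_eq_mul, norm_mul, Complex.norm_real, Real.norm_eq_abs, abs_of_pos hR, mul_div_assoc]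
      rw [h3, mul_pow]
      calc ‖g (a + (R : ℂ) * w)‖ ≤ C * LL B (F (a + (R : ℂ) * w)) (deriv F (a + (R : ℂ) * w)) ^ k := h2
        _ = C / R ^ k * (R ^ k * LL B (F (a + (R : ℂ) * w)) (deriv F (a + (R : ℂ) * w)) ^ k) := by field_simp)
  simp only [mul_zero, add_zero] at h1
  refine h1.trans (le_of_eq ?_)
  rw [div_pow]
  ring

end Pool.Agent.GL

end
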