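import Pool.Agent.H18.GGT.M17
import Pool.Agent.H18.GGT.M18
import Pool.Agent.H18.GGT.M24
import Pool.Agent.H18.GGT.M86

/-! The parts of this file: GBL.Prd, GBL.Psi, GBL.Spn, LG.Up. -/

section

/-!
# GBL Prd: products

As `GB.exists_prdFam`.
-/

set_option autoImplicit false

open MvPolynomial
open Pool.Agent.H23.Fano (PrimeDivisorOver)

namespace Pool.Agent.GBL

theorem exists_prdFamL {K : Type} [Field K] [Algebra ℂ K] {k d M : ℕ} {Bd : PrimeDivisorOver K k → Prop} {ι : Type} (Ψ : SymFamL K k Bd d M ι) :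
    ∃ Ψ₂ : SymFamL K k Bd d (M + M) (ι × ι), ∀ i e, Ψ₂.fn i e = Ψ.fn i.1 e * Ψ.fn i.2 e := by
  refine ⟨⟨fun i e => Ψ.fn i.1 e * Ψ.fn i.2 e, fun i e => (Ψ.hom i.1 e).mul (Ψ.hom i.2 e), fun i e g => ?_, fun i e E he α => ?_⟩, fun i e => rfl⟩
  · rw [Ψ.subst, Ψ.subst, map_mul]
  · rw [coeff_mul]
    have h : ∀ s : Finset ((Fin d →₀ ℕ) × (Fin d →₀ ℕ)), 0 ≤ E.ord (∑ x ∈ s, coeff x.1 (Ψ.fn i.1 e) * coeff x.2 (Ψ.fn i.2 e)) := by
      intro s
      induction s using Finset.cons_induction with
      | empty => simp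
      | cons a s ha ih =>
        rw [Finset.sum_cons]
        refine le_trans (le_min ?_ ih) (E.ord.map_add _ _)
        rw [AddValuation.map_mul]
        exact add_nonneg (Ψ.reg i.1 e E he _) (Ψ.reg i.2 e E he _)
    exact h _

end Pool.Agent.GBL

end

section

/-!
# GBL Psi: the polynomials of logarithmic symmetric differentials in a frame

As `GB/Psi`, with the logarithmic coordinates `ξ_i = e (x_i) / x_i`, `i ∈ B`.
`eqsL`: the equations of the logarithmic tangent vectors (`act B x ξ ∈ conTan P x`, `x_b = 1`, `ξ_b = 0`) at `tvL`: `H17R.gen_eq_zero_iff` and a derivation applied to `Q_j (x) = 0`.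
`hom`: `θ (x, s ξ) = s^m θ (x, ξ)` at complex points and `Trf.transfer`.  `subst`: composition of `aeval`s.
`reg`: `H17R.exists_center`: a chart `c` with `E.ord (x_i / x_c) ≥ 0` for all `i`.  There the entries of `tvL P B c e` have `E.ord ≥ 0` for logarithmic derivations: if `BdB P B E` by `LDer`; if not then `E.ord (x_i / x_c) = 0` for
`i ∈ B` by the definition of `BdB` (with `j = c`).  With the polynomial `A` of `(θ i).regular c`: `aeval (tvL P B c e) A = psiL f P i e`, by `Trf.transfer` for the identity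
`A (y x, lsc B y (ξ - ξ'_c eul B x)) = A_b (x, ξ)` on `x_b = 1`, `x_c y = 1`, where `ξ'_c = ξ_c` if `c ∈ B` and `y ξ_c` otherwise (`LogSec.scale`, `add_smul`).
-/

set_option autoImplicit false

open MvPolynomial
open Pool.Agent.H17LG.Variety (FunField ratio)
open Pool.Agent.H62.FC (Homog)
open Pool.Agent.GL
open Pool.Agent.H13.SM (conTan cone)
open Pool.Agent.H17GT (coordFun)
open Pool.Agent.H23.Fano (PrimeDivisorOver)
open Pool.Agent.GB (transfer sbs)

namespace Pool.Agent.GBL

variable {N : ℕ} {P : Ideal (MvPolynomial (Fin (N + 1)) ℂ)} {B : Finset (Fin (N + 1))} {J m : ℕ} {θ : Fin J → LogSec P B m} {b : Fin (N + 1)}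

/-! ## auxiliary facts -/

/-- the chain rule -/
private theorem Psi_chain {σ : Type} [Fintype σ] {K : Type} [Field K] [Algebra ℂ K] (D : Derivation ℂ K K) (y : σ → K) (p : MvPolynomial σ ℂ) :
    D (aeval y p) = ∑ b, aeval y (pderiv b p) * D (y b) := by
  classical
  induction p using MvPolynomial.induction_on with
  | C a =>
    rw [aeval_C, D.map_algebraMap]
    refine (Finset.sum_eq_zero fun b _ => ?_).symm
    rw [pderiv_C, map_zero, zero_mul]
  | add p q hp hq =>
    rw [map_add, map_add, hp, hq, ← Finset.sum_add_distrib]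
    refine Finset.sum_congr rfl fun b _ => ?_
    rw [map_add, map_add, add_mul]
  | mul_X p i hp =>
    have h : ∀ b, aeval y (pderiv b (p * X i)) * D (y b) = (if b = i then aeval y p * D (y b) else 0) + y i * (aeval y (pderiv b p) * D (y b)) := by
      intro b
      rw [pderiv_mul, pderiv_X, map_add, map_mul, map_mul, aeval_X]
      by_cases hb : b = i
      · subst hb
        rw [if_pos rfl, Pi.single_eq_same, map_one]
        ring
      · rw [if_neg hb, Pi.single_eq_of_ne (Ne.symm hb), map_zero]
        ring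
    rw [map_mul, aeval_X, D.leibniz, hp, Finset.sum_congr rfl fun b _ => h b, Finset.sum_add_distrib, Finset.sum_ite_eq' Finset.univ i,
      if_pos (Finset.mem_univ _), ← Finset.mul_sum, smul_eq_mul, smul_eq_mul]

/-- the coefficients of the values of polynomials over `ℂ` -/
private theorem Psi_coeff {K : Type} [Field K] [Algebra ℂ K] {w d : ℕ} (E : PrimeDivisorOver K w) {σ : Type} (y : σ → MvPolynomial (Fin d) K)
    (hy : ∀ s α, 0 ≤ E.ord (coeff α (y s))) (p : MvPolynomial σ ℂ) : ∀ α, 0 ≤ E.ord (coeff α (aeval y p)) := by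
  classical
  induction p using MvPolynomial.induction_on with
  | C a =>
    intro α
    rw [aeval_C, IsScalarTower.algebraMap_apply ℂ K (MvPolynomial (Fin d) K), algebraMap_eq, coeff_C]
    split_ifs
    · exact E.ord_const a
    · rw [E.ord.map_zero]
      exact le_top
  | add p q hp hq =>
    intro α
    rw [map_add, coeff_add]
    exact (le_min (hp α) (hq α)).trans (E.ord.map_add _ _)
  | mul_X p i hp =>
    intro α
    rw [map_mul, aeval_X, coeff_mul]
    refine E.ord.map_le_sum fun β _ => ?_
    rw [E.ord.map_mul]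
    exact add_nonneg (hp _) (hy _ _)

/-- the substitution `X ↦ c X` -/
private theorem Psi_scale {K : Type} [Field K] {d : ℕ} (c : K) (p : MvPolynomial (Fin d) K) (α : Fin d →₀ ℕ) :
    coeff α (aeval (fun j => C c * X j : Fin d → MvPolynomial (Fin d) K) p) = c ^ (∑ j, α j) * coeff α p := by
  classical
  induction p using MvPolynomial.induction_on' with
  | monomial β r =>
    have h1 : aeval (fun j => C c * X j : Fin d → MvPolynomial (Fin d) K) (monomial β r) = monomial β (c ^ (∑ j, β j) * r) := by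
      rw [aeval_monomial, algebraMap_eq, Finsupp.prod_fintype _ _ (fun i => pow_zero _), monomial_eq (s := β) (a := c ^ (∑ j, β j) * r),
        Finsupp.prod_fintype _ _ (fun i => pow_zero _)]
      simp only [mul_pow, Finset.prod_mul_distrib]
      rw [Finset.prod_pow_eq_pow_sum, C_mul, C_pow]
      ring
    rw [h1, coeff_monomial, coeff_monomial]
    split_ifs with h
    · rw [h]
    · rw [mul_zero]
  | add p q hp hq => rw [map_add, coeff_add, coeff_add, hp, hq, mul_add]

private theorem Psi_hg {d : ℕ} {G : MvPolynomial (Fin (N + 1)) ℂ} (hG : G.IsHomogeneous d) (c : ℂ) (x : Fin (N + 1) → ℂ) :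
    eval (c • x) G = c ^ d * eval x G := by
  rw [eval_eq', eval_eq', Finset.mul_sum]
  refine Finset.sum_congr rfl fun m hm => ?_
  have h1 : ∏ i, (c • x) i ^ m i = c ^ d * ∏ i, x i ^ m i := by
    simp only [Pi.smul_apply, smul_eq_mul, mul_pow, Finset.prod_mul_distrib]
    rw [Finset.prod_pow_eq_pow_sum]
    have h2 := hG (mem_support_iff.1 hm)
    rw [Finsupp.weight_apply, Finsupp.sum_fintype _ _ (by simp)] at h2
    simp only [Pi.one_apply, smul_eq_mul, mul_one] at h2
    rw [h2]
  rw [h1]
  ring

private theorem Psi_conTan (hP : Homog P) (c : ℂ) (x : Fin (N + 1) → ℂ) : conTan P x ≤ conTan P (c • x) := by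
  intro v hv G hG
  have h1 : ∀ d, ∑ i, v i * eval (c • x) (pderiv i (homogeneousComponent d G)) = 0 := by
    intro d
    have h2 := hv _ (hP G hG d)
    have h4 : ∑ i, v i * eval (c • x) (pderiv i (homogeneousComponent d G)) =
        c ^ (d - 1) * ∑ i, v i * eval x (pderiv i (homogeneousComponent d G)) := by
      rw [Finset.mul_sum]
      refine Finset.sum_congr rfl fun i _ => ?_
      rw [Psi_hg ((homogeneousComponent_isHomogeneous d G).pderiv)]
      ring
    rw [h4, h2, mul_zero]
  have h5 : ∀ i, eval (c • x) (pderiv i G) = ∑ d ∈ Finset.range (G.totalDegree + 1),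
      eval (c • x) (pderiv i (homogeneousComponent d G)) := by
    intro i
    conv_lhs => rw [← sum_homogeneousComponent G]
    rw [map_sum, map_sum]
  simp only [h5, Finset.mul_sum]
  rw [Finset.sum_comm]
  exact Finset.sum_eq_zero fun d _ => h1 d

private theorem Psi_eval {σ τ : Type} (y : τ → ℂ) (g : σ → MvPolynomial τ ℂ) (p : MvPolynomial σ ℂ) :
    eval y (aeval g p) = eval (fun s => eval y (g s)) p := by
  induction p using MvPolynomial.induction_on with
  | C a => rw [aeval_C, algebraMap_eq, eval_C, eval_C]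
  | add p q hp hq => rw [map_add, map_add, map_add, hp, hq]
  | mul_X p i hp => rw [map_mul, map_mul, map_mul, hp, aeval_X, eval_X]

private theorem Psi_act_smul (x ξ : Fin (N + 1) → ℂ) (c : ℂ) : act B x (c • ξ) = c • act B x ξ := by
  funext i
  show (if i ∈ B then x i * (c * ξ i) else c * ξ i) = c * (if i ∈ B then x i * ξ i else ξ i)
  split_ifs
  · ring
  · rfl

private theorem Psi_act_lsc (x ξ : Fin (N + 1) → ℂ) (c : ℂ) : act B (c • x) (lsc B c ξ) = c • act B x ξ := by
  funext i
  show (if i ∈ B then c * x i * (if i ∈ B then ξ i else c * ξ i) else (if i ∈ B then ξ i else c * ξ i)) = c * (if i ∈ B then x i * ξ i else ξ i)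
  split_ifs
  · ring
  · rfl

private theorem Psi_act_eul (x ξ : Fin (N + 1) → ℂ) (a : ℂ) : act B x (ξ + a • eul B x) = act B x ξ + a • x := by
  funext i
  show (if i ∈ B then x i * (ξ i + a * (if i ∈ B then 1 else x i)) else ξ i + a * (if i ∈ B then 1 else x i)) = (if i ∈ B then x i * ξ i else ξ i) + a * x i
  split_ifs
  · ring
  · rfl

/-! ## the equations -/

private theorem Psi_inl [P.IsPrime] {a : Fin (N + 1)} {d : ℕ} (e : Fin d → Derivation ℂ (FunField P) (FunField P)) (q : MvPolynomial (Fin (N + 1)) ℂ) :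
    aeval (tvL P B a e) (rename Sum.inl q) = C (aeval (fun b => ratio P b a) q) := by
  rw [aeval_rename]
  induction q using MvPolynomial.induction_on with
  | C r => rw [aeval_C, aeval_C, IsScalarTower.algebraMap_apply ℂ (FunField P) (MvPolynomial (Fin d) (FunField P)), algebraMap_eq]
  | add p q hp hq => rw [map_add, map_add, map_add, hp, hq]
  | mul_X p i hp =>
    rw [map_mul, map_mul, map_mul, hp, aeval_X, aeval_X]
    rfl

private theorem Psi_zero [P.IsPrime] (hP : Homog P) {a : Fin (N + 1)} (ha : X a ∉ P) {q : MvPolynomial (Fin (N + 1)) ℂ} (hq : q ∈ P) :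
    aeval (fun b => ratio P b a) q = 0 := by
  have hc : coordFun P a ≠ 0 := Pool.Agent.H17R.coordFun_ne_zero_iff.2 ha
  rw [← sum_homogeneousComponent q, map_sum]
  refine Finset.sum_eq_zero fun n _ => ?_
  exact (Pool.Agent.H17R.gen_eq_zero_iff hc (homogeneousComponent_isHomogeneous n q)).2 (hP q hq n)

private theorem Psi_rne [P.IsPrime] {a i : Fin (N + 1)} (ha : X a ∉ P) (hi : X i ∉ P) : ratio P i a ≠ 0 := by
  intro h
  have h1 : coordFun P i / coordFun P a = 0 := congrArg Subtype.val h
  rcases div_eq_zero_iff.1 h1 with h2 | h2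
  · exact Pool.Agent.H17R.coordFun_ne_zero_iff.2 hi h2
  · exact Pool.Agent.H17R.coordFun_ne_zero_iff.2 ha h2

private theorem Psi_eqs [P.IsPrime] (hP : Homog P) (hB : ∀ i ∈ B, X i ∉ P) {a : Fin (N + 1)} (ha : X a ∉ P) {d : ℕ}
    (e : Fin d → Derivation ℂ (FunField P) (FunField P)) :
    tvL P B a e (Sum.inl a) = 1 ∧ tvL P B a e (Sum.inr a) = 0 ∧ (∀ q ∈ P, aeval (tvL P B a e) (rename Sum.inl q) = 0) ∧
      ∀ q ∈ P, aeval (tvL P B a e) (∑ i, rename Sum.inl (pderiv i q) * (if i ∈ B then X (Sum.inl i) * X (Sum.inr i) else X (Sum.inr i)) :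
        MvPolynomial (Pool.Agent.GG.Ph N) ℂ) = 0 := by
  have hc : coordFun P a ≠ 0 := Pool.Agent.H17R.coordFun_ne_zero_iff.2 ha
  have h1 : ratio P a a = 1 := Pool.Agent.H17R.ratio_self hc
  refine ⟨?_, ?_, fun q hq => ?_, fun q hq => ?_⟩
  · show C (ratio P a a) = _
    rw [h1, C_1]
  · show ∑ j, X j * C (if a ∈ B then (ratio P a a)⁻¹ * e j (ratio P a a) else e j (ratio P a a)) = _
    rw [h1]
    refine Finset.sum_eq_zero fun j _ => ?_
    rw [(e j).map_one_eq_zero, mul_zero, ite_self, C_0, mul_zero]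
  · rw [Psi_inl, Psi_zero hP ha hq, C_0]
  · rw [map_sum]
    have h2 : ∀ i, aeval (tvL P B a e) (rename Sum.inl (pderiv i q) * (if i ∈ B then X (Sum.inl i) * X (Sum.inr i) else X (Sum.inr i)) :
        MvPolynomial (Pool.Agent.GG.Ph N) ℂ) =
        ∑ j, X j * C (aeval (fun b => ratio P b a) (pderiv i q) * e j (ratio P i a)) := by
      intro i
      rw [map_mul, Psi_inl]
      by_cases hi : i ∈ B
      · rw [if_pos hi, map_mul, aeval_X, aeval_X]
        show C _ * (C (ratio P i a) * ∑ j, X j * C (if i ∈ B then (ratio P i a)⁻¹ * e j (ratio P i a) else e j (ratio P i a))) = _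
        have hr := Psi_rne ha (hB i hi)
        rw [Finset.mul_sum, Finset.mul_sum]
        refine Finset.sum_congr rfl fun j _ => ?_
        rw [if_pos hi]
        have h3 : C (ratio P i a) * (X j * C ((ratio P i a)⁻¹ * e j (ratio P i a))) = (X j * C (e j (ratio P i a)) : MvPolynomial (Fin d) (FunField P)) := by
          rw [C_mul]
          have h4 : (C (ratio P i a) * C (ratio P i a)⁻¹ : MvPolynomial (Fin d) (FunField P)) = 1 := by
            rw [← C_mul, mul_inv_cancel₀ hr, C_1]
          linear_combination (X j * C (e j (ratio P i a))) * h4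
        rw [h3, C_mul]
        ring
      · rw [if_neg hi, aeval_X]
        show C _ * ∑ j, X j * C (if i ∈ B then (ratio P i a)⁻¹ * e j (ratio P i a) else e j (ratio P i a)) = _
        rw [Finset.mul_sum]
        refine Finset.sum_congr rfl fun j _ => ?_
        rw [if_neg hi, C_mul]
        ring
    rw [Finset.sum_congr rfl fun b _ => h2 b, Finset.sum_comm]
    refine Finset.sum_eq_zero fun j _ => ?_
    rw [← Finset.mul_sum, ← map_sum, ← Psi_chain (e j) (fun b => ratio P b a) q, Psi_zero hP ha hq, map_zero, C_0, mul_zero]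

/-- the equations of the logarithmic tangent vectors in the chart `x_c = 1` -/
private def Eqs (P : Ideal (MvPolynomial (Fin (N + 1)) ℂ)) (B : Finset (Fin (N + 1))) (c : Fin (N + 1)) : Set (MvPolynomial (Pool.Agent.GG.Ph N) ℂ) :=
  {s | s = X (Sum.inl c) - 1 ∨ (∃ q ∈ P, s = rename Sum.inl q) ∨
    ∃ q ∈ P, s = ∑ i, rename Sum.inl (pderiv i q) * (if i ∈ B then X (Sum.inl i) * X (Sum.inr i) else X (Sum.inr i))}

private theorem Eqs_complex {c : Fin (N + 1)} {y : Pool.Agent.GG.Ph N → ℂ} (hy : ∀ s ∈ Eqs P B c, eval y s = 0) :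
    (fun b => y (Sum.inl b)) ∈ cone P ∧ y (Sum.inl c) = 1 ∧ act B (fun b => y (Sum.inl b)) (fun b => y (Sum.inr b)) ∈ conTan P fun b => y (Sum.inl b) := by
  have h1 : y (Sum.inl c) = 1 := by
    have := hy _ (Or.inl rfl)
    rw [map_sub, eval_X, map_one] at this
    exact sub_eq_zero.1 this
  refine ⟨⟨fun h => ?_, fun q hq => ?_⟩, h1, fun q hq => ?_⟩
  · have := congrFun h c
    simp only [h1, Pi.zero_apply] at this
    exact one_ne_zero this
  · have := hy _ (Or.inr (Or.inl ⟨q, hq, rfl⟩))
    rw [eval_rename] at this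
    exact this
  · have := hy _ (Or.inr (Or.inr ⟨q, hq, rfl⟩))
    rw [map_sum] at this
    rw [← this]
    refine Finset.sum_congr rfl fun i _ => ?_
    rw [map_mul, eval_rename]
    show (if i ∈ B then y (Sum.inl i) * y (Sum.inr i) else y (Sum.inr i)) * _ = _
    rw [mul_comm]
    by_cases hi : i ∈ B
    · rw [if_pos hi, if_pos hi, map_mul, eval_X, eval_X]
      rfl
    · rw [if_neg hi, if_neg hi, eval_X]
      rfl

private theorem Eqs_tv [P.IsPrime] (hP : Homog P) (hB : ∀ i ∈ B, X i ∉ P) {c : Fin (N + 1)} (hc : X c ∉ P) {d : ℕ}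
    (e : Fin d → Derivation ℂ (FunField P) (FunField P)) : ∀ s ∈ Eqs P B c, aeval (tvL P B c e) s = 0 := by
  obtain ⟨h1, -, h2, h3⟩ := Psi_eqs hP hB hc e
  rintro s (rfl | ⟨q, hq, rfl⟩ | ⟨q, hq, rfl⟩)
  · rw [map_sub, aeval_X, h1, map_one, sub_self]
  · exact h2 q hq
  · exact h3 q hq

/-! ## homogeneity -/

private theorem Psi_hom [P.IsPrime] (hP : Homog P) (f : LFrame (m := fun _ => m) θ b) (hb : b ∈ B) (hB : ∀ i ∈ B, X i ∉ P)
    {d : ℕ} (i : Fin J) (e : Fin d → Derivation ℂ (FunField P) (FunField P)) : (psiL f P i e).IsHomogeneous m := by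
  set g : Pool.Agent.GG.Ph N → MvPolynomial (Pool.Agent.GG.Ph N) ℂ := Sum.elim (fun b => X (Sum.inl b)) (fun b => C 2 * X (Sum.inr b)) with hg
  have key : aeval (tvL P B b e) (aeval g (f.A i) - C (2 ^ m) * f.A i) = 0 := by
    refine transfer (S := Eqs P B b) (fun y hy => ?_) _ (Eqs_tv hP hB (hB b hb) e)
    obtain ⟨h1, h2, h3⟩ := Eqs_complex hy
    have h4 := f.hA i _ h1 h2 _ h3
    have h3' : act B (fun b => y (Sum.inl b)) ((2 : ℂ) • fun b => y (Sum.inr b)) ∈ conTan P fun b => y (Sum.inl b) := by
      rw [Psi_act_smul]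
      exact (conTan P _).smul_mem 2 h3
    have h5 := f.hA i _ h1 h2 _ h3'
    rw [(θ i).smul _ h1 _ h3 2, h4] at h5
    have h6 : eval y (aeval g (f.A i)) = eval (Pool.Agent.GG.pt (fun b => y (Sum.inl b)) ((2 : ℂ) • fun b => y (Sum.inr b))) (f.A i) := by
      rw [Psi_eval]
      congr 2
      funext s
      cases s with
      | inl b => rw [hg, Sum.elim_inl, eval_X]; rfl
      | inr b => rw [hg, Sum.elim_inr, map_mul, eval_C, eval_X]; rfl
    have h7 : eval y (f.A i) = eval (Pool.Agent.GG.pt (fun b => y (Sum.inl b)) fun b => y (Sum.inr b)) (f.A i) := by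
      congr 2
      funext s
      cases s <;> rfl
    rw [map_sub, map_mul, eval_C, h6, h7, ← h5, sub_self]
  have h2 : aeval (fun j => C 2 * X j : Fin d → MvPolynomial (Fin d) (FunField P)) (psiL f P i e) = C (2 ^ m) * psiL f P i e := by
    have h3 : aeval (tvL P B b e) (aeval g (f.A i)) =
        aeval (fun j => C 2 * X j : Fin d → MvPolynomial (Fin d) (FunField P)) (psiL f P i e) := by
      have h4 : ∀ p : MvPolynomial (Pool.Agent.GG.Ph N) ℂ, aeval (fun j => C 2 * X j : Fin d → MvPolynomial (Fin d) (FunField P)) (aeval (tvL P B b e) p) =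
          aeval (fun s => aeval (fun j => C 2 * X j : Fin d → MvPolynomial (Fin d) (FunField P)) (tvL P B b e s)) p := by
        intro p
        exact DFunLike.congr_fun (comp_aeval (tvL P B b e) ((aeval (fun j => C 2 * X j : Fin d → MvPolynomial (Fin d) (FunField P))).restrictScalars ℂ)) p
      unfold psiL
      rw [h4, ← AlgHom.comp_apply, comp_aeval]
      congr 2
      funext s
      cases s with
      | inl c =>
        rw [hg, Sum.elim_inl, aeval_X]
        show C (ratio P c b) = aeval _ (C (ratio P c b))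
        rw [aeval_C, algebraMap_eq]
      | inr c =>
        rw [hg, Sum.elim_inr, map_mul, aeval_C, aeval_X]
        show _ * ∑ j, X j * C (if c ∈ B then (ratio P c b)⁻¹ * e j (ratio P c b) else e j (ratio P c b)) =
          aeval _ (∑ j, X j * C (if c ∈ B then (ratio P c b)⁻¹ * e j (ratio P c b) else e j (ratio P c b)))
        rw [map_sum, Finset.mul_sum]
        refine Finset.sum_congr rfl fun j _ => ?_
        rw [map_mul, aeval_X, aeval_C, algebraMap_eq, IsScalarTower.algebraMap_apply ℂ (FunField P) (MvPolynomial (Fin d) (FunField P)), algebraMap_eq,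
          map_ofNat]
        ring
    rw [← h3]
    rw [map_sub, map_mul, sub_eq_zero] at key
    rw [key, aeval_C, IsScalarTower.algebraMap_apply ℂ (FunField P) (MvPolynomial (Fin d) (FunField P)), algebraMap_eq, map_pow, map_ofNat]
    rfl
  intro α hα
  have h3 := congrArg (coeff α) h2
  rw [Psi_scale, coeff_C_mul] at h3
  have h4 : (2 : FunField P) ^ (∑ j, α j) = 2 ^ m := mul_right_cancel₀ hα h3
  have h5 : CharZero (FunField P) := charZero_of_injective_algebraMap (algebraMap ℂ (FunField P)).injective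
  have h6 : ∑ j, α j = m := by
    have : (2 : ℕ) ^ (∑ j, α j) = 2 ^ m := by exact_mod_cast h4
    exact Nat.pow_right_injective le_rfl this
  rw [Finsupp.weight_apply, Finsupp.sum_fintype _ _ (by simp)]
  simpa using h6

/-! ## substitutions -/

private theorem Psi_subst [P.IsPrime] (f : LFrame (m := fun _ => m) θ b) {d : ℕ} (i : Fin J)
    (e : Fin d → Derivation ℂ (FunField P) (FunField P)) (g : Matrix (Fin d) (Fin d) (FunField P)) :
    psiL f P i (fun r => ∑ s, g r s • e s) = sbs g (psiL f P i e) := by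
  have h4 : ∀ p : MvPolynomial (Pool.Agent.GG.Ph N) ℂ, sbs g (aeval (tvL P B b e) p) = aeval (fun s => sbs g (tvL P B b e s)) p := by
    intro p
    exact DFunLike.congr_fun (comp_aeval (tvL P B b e) ((sbs g).restrictScalars ℂ)) p
  unfold psiL
  rw [h4]
  congr 2
  funext s
  cases s with
  | inl c =>
    show C (ratio P c b) = sbs g (C (ratio P c b))
    unfold sbs
    rw [aeval_C, algebraMap_eq]
  | inr c =>
    show ∑ r, X r * C (if c ∈ B then (ratio P c b)⁻¹ * (∑ s, g r s • e s) (ratio P c b) else (∑ s, g r s • e s) (ratio P c b)) =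
      sbs g (∑ j, X j * C (if c ∈ B then (ratio P c b)⁻¹ * e j (ratio P c b) else e j (ratio P c b)))
    unfold sbs
    have h5 : ∀ r, X r * C (if c ∈ B then (ratio P c b)⁻¹ * (∑ s, g r s • e s) (ratio P c b) else (∑ s, g r s • e s) (ratio P c b)) =
        ∑ s, C (g r s) * X r * C (if c ∈ B then (ratio P c b)⁻¹ * e s (ratio P c b) else e s (ratio P c b)) := by
      intro r
      have h6 : (∑ s, g r s • e s) (ratio P c b) = ∑ s, g r s * e s (ratio P c b) := by
        rw [← Derivation.coeFnAddMonoidHom_apply, map_sum, Finset.sum_apply]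
        rfl
      have h7 : (if c ∈ B then (ratio P c b)⁻¹ * (∑ s, g r s • e s) (ratio P c b) else (∑ s, g r s • e s) (ratio P c b)) =
          ∑ s, g r s * (if c ∈ B then (ratio P c b)⁻¹ * e s (ratio P c b) else e s (ratio P c b)) := by
        rw [h6]
        split_ifs
        · refine (Finset.mul_sum _ _ _).trans (Finset.sum_congr rfl fun s _ => ?_)
          ring
        · rfl
      rw [h7, map_sum, Finset.mul_sum]
      refine Finset.sum_congr rfl fun s _ => ?_
      rw [C_mul]
      ring
    rw [Finset.sum_congr rfl fun r _ => h5 r, Finset.sum_comm, map_sum]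
    refine Finset.sum_congr rfl fun j _ => ?_
    rw [map_mul, aeval_X, aeval_C, algebraMap_eq, Finset.sum_mul]

/-! ## change of the chart -/

private theorem Psi_change [P.IsPrime] (hP : Homog P) (f : LFrame (m := fun _ => m) θ b) (hb : b ∈ B) (hB : ∀ i ∈ B, X i ∉ P) {c : Fin (N + 1)}
    (hc : X c ∉ P) {d : ℕ} (i : Fin J) {n : ℕ} {A : MvPolynomial (Pool.Agent.GG.Ph N) ℂ}
    (hA : ∀ x ∈ cone P, ∀ ξ, act B x ξ ∈ conTan P x → x c ^ n * (θ i).toFun x ξ = eval (Sum.elim x ξ) A)
    (e : Fin d → Derivation ℂ (FunField P) (FunField P)) : psiL f P i e = aeval (tvL P B c e) A := by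
  set g : Pool.Agent.GG.Ph N → MvPolynomial (Pool.Agent.GG.Ph N ⊕ Unit) ℂ := Sum.elim (fun j => X (Sum.inr ()) * X (Sum.inl (Sum.inl j)))
    (fun j => if j ∈ B then X (Sum.inl (Sum.inr j)) + -X (Sum.inl (Sum.inr b)) else
      X (Sum.inr ()) * X (Sum.inl (Sum.inr j)) + -X (Sum.inl (Sum.inr b)) * (X (Sum.inr ()) * X (Sum.inl (Sum.inl j)))) with hg
  have hb' : X b ∉ P := hB b hb
  have hcb : coordFun P b ≠ 0 := Pool.Agent.H17R.coordFun_ne_zero_iff.2 hb'
  have hcc : coordFun P c ≠ 0 := Pool.Agent.H17R.coordFun_ne_zero_iff.2 hc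
  have hra : ∀ j, ratio P j b = ratio P c b * ratio P j c := by
    intro j
    apply Subtype.ext
    change coordFun P j / coordFun P b = coordFun P c / coordFun P b * (coordFun P j / coordFun P c)
    rw [div_mul_div_comm, mul_comm (coordFun P c) (coordFun P j), mul_div_mul_right _ _ hcc]
  have hrr : ratio P c b * ratio P b c = 1 := by rw [← hra b, Pool.Agent.H17R.ratio_self hcb]
  have hbc : ratio P b c ≠ 0 := right_ne_zero_of_mul_eq_one hrr
  set Y : Pool.Agent.GG.Ph N ⊕ Unit → MvPolynomial (Fin d) (FunField P) := Sum.elim (tvL P B c e) (fun _ => C (ratio P c b)) with hY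
  have key : aeval Y (rename Sum.inl A - aeval g (f.A i)) = 0 := by
    refine transfer (S := {s | s = X (Sum.inr ()) * X (Sum.inl (Sum.inl b)) - 1 ∨ ∃ t ∈ Eqs P B c, s = rename Sum.inl t}) (fun y hy => ?_) _ ?_
    · have hy1 : ∀ s ∈ Eqs P B c, eval (fun s => y (Sum.inl s)) s = 0 := by
        intro s hs
        have := hy _ (Or.inr ⟨s, hs, rfl⟩)
        rw [eval_rename] at this
        exact this
      obtain ⟨h1, h2, h3⟩ := Eqs_complex hy1
      have h0 : y (Sum.inr ()) * y (Sum.inl (Sum.inl b)) = 1 := by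
        have := hy _ (Or.inl rfl)
        rw [map_sub, map_mul, eval_X, eval_X, map_one] at this
        exact sub_eq_zero.1 this
      obtain ⟨t, ht⟩ : ∃ t : ℂ, t = y (Sum.inr ()) := ⟨_, rfl⟩
      obtain ⟨x, hx⟩ : ∃ x : Fin (N + 1) → ℂ, x = fun j => y (Sum.inl (Sum.inl j)) := ⟨_, rfl⟩
      obtain ⟨ξ, hξ⟩ : ∃ ξ : Fin (N + 1) → ℂ, ξ = fun j => y (Sum.inl (Sum.inr j)) := ⟨_, rfl⟩
      have h1' : x ∈ cone P := by rw [hx]; exact h1
      have h2' : x c = 1 := by rw [hx]; exact h2
      have h3' : act B x ξ ∈ conTan P x := by rw [hx, hξ]; exact h3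
      have h0' : t * x b = 1 := by rw [hx, ht]; exact h0
      have ht0 : t ≠ 0 := left_ne_zero_of_mul_eq_one h0'
      have hx' : t • x ∈ cone P := ⟨smul_ne_zero ht0 h1'.1, Pool.Agent.H13.SM.cone_smul hP h1'.2 t⟩
      have hv' : act B (t • x) (lsc B t ξ) ∈ conTan P (t • x) := by
        rw [Psi_act_lsc]
        exact (conTan P _).smul_mem t (Psi_conTan hP t x h3')
      have hxx : t • x ∈ conTan P (t • x) := fun _ h => Pool.Agent.H13.SM.euler hP hx'.2 h
      have hw' : act B (t • x) (lsc B t ξ + (-ξ b) • eul B (t • x)) ∈ conTan P (t • x) := by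
        rw [Psi_act_eul]
        exact (conTan P _).add_mem hv' ((conTan P _).smul_mem _ hxx)
      have e1 : (θ i).toFun (t • x) (lsc B t ξ + (-ξ b) • eul B (t • x)) = (θ i).toFun x ξ := by
        rw [(θ i).add_smul _ hx' _ hv', (θ i).scale _ h1' _ h3' _ ht0]
      have e2 := f.hA i _ hx' (by rw [Pi.smul_apply, smul_eq_mul]; exact h0') _ hw'
      have e3 := hA _ h1' _ h3'
      rw [h2', one_pow, one_mul] at e3
      have h6 : eval y (aeval g (f.A i)) = eval (Pool.Agent.GG.pt (t • x) (lsc B t ξ + (-ξ b) • eul B (t • x))) (f.A i) := by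
        rw [Psi_eval]
        congr 2
        funext s
        cases s with
        | inl j =>
          rw [hg, Sum.elim_inl, map_mul, eval_X, eval_X, ht, hx]
          rfl
        | inr j =>
          rw [hg, Sum.elim_inr]
          show _ = (if j ∈ B then ξ j else t * ξ j) + (-ξ b) * (if j ∈ B then 1 else t * x j)
          by_cases hj : j ∈ B
          · rw [if_pos hj, if_pos hj, if_pos hj, map_add, map_neg, eval_X, eval_X, hξ, mul_one]
          · rw [if_neg hj, if_neg hj, if_neg hj, map_add, map_mul, map_mul, map_neg, map_mul, eval_X, eval_X, eval_X, eval_X, ht, hx, hξ]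
      have h7 : eval y (rename Sum.inl A) = eval (Sum.elim x ξ) A := by
        rw [eval_rename]
        congr 2
        funext s
        cases s with
        | inl j => rw [hx]; rfl
        | inr j => rw [hξ]; rfl
      rw [map_sub, h6, h7, ← e2, ← e3, e1, sub_self]
    · rintro s (rfl | ⟨t, ht, rfl⟩)
      · rw [map_sub, map_mul, aeval_X, aeval_X, map_one]
        show C (ratio P c b) * C (ratio P b c) - 1 = 0
        rw [← C_mul, hrr, C_1, sub_self]
      · rw [aeval_rename]
        exact Eqs_tv hP hB hc e t ht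
  rw [map_sub, sub_eq_zero, aeval_rename] at key
  have h1 : aeval (tvL P B c e) A = aeval (Y ∘ Sum.inl) A := rfl
  rw [h1, key, ← AlgHom.comp_apply, comp_aeval]
  unfold psiL
  congr 2
  funext s
  cases s with
  | inl j =>
    rw [hg, Sum.elim_inl, map_mul, aeval_X, aeval_X]
    show C (ratio P j b) = C (ratio P c b) * C (ratio P j c)
    rw [← C_mul, ← hra]
  | inr j =>
    have hy : ∀ l, Y (Sum.inl (Sum.inr l)) = ∑ r, X r * C (if l ∈ B then (ratio P l c)⁻¹ * e r (ratio P l c) else e r (ratio P l c)) := fun l => rfl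
    have hyb : Y (Sum.inl (Sum.inr b)) = ∑ r, X r * C ((ratio P b c)⁻¹ * e r (ratio P b c)) := by
      rw [hy]
      refine Finset.sum_congr rfl fun r _ => ?_
      rw [if_pos hb]
    have hcb' : ∀ r, e r (ratio P c b) = -((ratio P b c)⁻¹ * e r (ratio P b c)) * ratio P c b := by
      intro r
      have h4 := (e r).leibniz (ratio P c b) (ratio P b c)
      rw [hrr, (e r).map_one_eq_zero, smul_eq_mul, smul_eq_mul] at h4
      apply mul_right_cancel₀ hbc
      rw [neg_mul, neg_mul, mul_assoc, hrr]
      have h5 : (ratio P b c)⁻¹ = ratio P c b := (eq_inv_of_mul_eq_one_left hrr).symm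
      rw [h5]
      linear_combination -h4
    show ∑ r, X r * C (if j ∈ B then (ratio P j b)⁻¹ * e r (ratio P j b) else e r (ratio P j b)) = aeval Y (g (Sum.inr j))
    rw [hg, Sum.elim_inr]
    have hl : ∀ r, e r (ratio P j b) = ratio P c b * e r (ratio P j c) + ratio P j c * e r (ratio P c b) := by
      intro r
      have h3 := (e r).leibniz (ratio P c b) (ratio P j c)
      rw [← hra j, smul_eq_mul, smul_eq_mul] at h3
      exact h3
    by_cases hj : j ∈ B
    · rw [if_pos hj, map_add, map_neg, aeval_X, aeval_X, hyb, hy, ← Finset.sum_neg_distrib, ← Finset.sum_add_distrib]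
      refine Finset.sum_congr rfl fun r _ => ?_
      have hjc : ratio P j c ≠ 0 := Psi_rne hc (hB j hj)
      have hcb0 : ratio P c b ≠ 0 := left_ne_zero_of_mul_eq_one hrr
      have h2 : (ratio P j b)⁻¹ * e r (ratio P j b) = (ratio P j c)⁻¹ * e r (ratio P j c) + -((ratio P b c)⁻¹ * e r (ratio P b c)) := by
        rw [hl, hcb', hra j]
        field_simp
      rw [if_pos hj, if_pos hj, h2, C_add, C_neg]
      ring
    · rw [if_neg hj, map_add, map_mul, map_mul, map_neg, map_mul, aeval_X, aeval_X, aeval_X, aeval_X, hyb, hy]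
      show _ = C (ratio P c b) * _ + -_ * (C (ratio P c b) * C (ratio P j c))
      rw [Finset.mul_sum, ← Finset.sum_neg_distrib, Finset.sum_mul, ← Finset.sum_add_distrib]
      refine Finset.sum_congr rfl fun r _ => ?_
      have h2 : e r (ratio P j b) = ratio P c b * e r (ratio P j c) + -((ratio P b c)⁻¹ * e r (ratio P b c)) * (ratio P c b * ratio P j c) := by
        rw [hl, hcb']
        ring
      rw [if_neg hj, if_neg hj, h2]
      simp only [C_add, C_mul, C_neg]
      ring

private theorem Psi_reg [P.IsPrime] (hP : Homog P) (f : LFrame (m := fun _ => m) θ b) (hb : b ∈ B) (hB : ∀ i ∈ B, X i ∉ P)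
    {k d : ℕ} (i : Fin J) (e : Fin d → Derivation ℂ (FunField P) (FunField P)) (E : PrimeDivisorOver (FunField P) k)
    (he : ∀ j, LDer (BdB P B) E (e j)) : ∀ α, 0 ≤ E.ord (coeff α (psiL f P i e)) := by
  classical
  obtain ⟨c, hc, h⟩ := Pool.Agent.H17R.exists_center E (Pool.Agent.H17R.coordFun_ne_zero_iff.2 (hB b hb))
  have hc' : X c ∉ P := Pool.Agent.H17R.coordFun_ne_zero_iff.1 hc
  obtain ⟨n, A, hA⟩ := (θ i).regular c
  rw [Psi_change hP f hb hB hc' i hA e]
  refine Psi_coeff E _ (fun s α => ?_) _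
  cases s with
  | inl j =>
    show 0 ≤ E.ord (coeff α (C (ratio P j c)))
    rw [coeff_C]
    split_ifs
    · exact h j
    · rw [E.ord.map_zero]
      exact le_top
  | inr j =>
    show 0 ≤ E.ord (coeff α (∑ r, X r * C (if j ∈ B then (ratio P j c)⁻¹ * e r (ratio P j c) else e r (ratio P j c))))
    rw [coeff_sum]
    refine E.ord.map_le_sum fun r _ => ?_
    rw [mul_comm, coeff_C_mul, coeff_X]
    by_cases hα : Finsupp.single r 1 = α
    · rw [if_pos hα, mul_one]
      by_cases hj : j ∈ B
      · rw [if_pos hj]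
        have hne := Psi_rne hc' (hB j hj)
        by_cases hbd : BdB P B E
        · have h1 := (he r).2 hbd _ hne
          rwa [div_eq_inv_mul] at h1
        · have h0 : E.ord (ratio P j c) = 0 := by
            refine le_antisymm (not_lt.1 fun h2 => hbd ⟨c, hc, h, j, hj, h2⟩) (h j)
          have h3 : E.ord (ratio P j c)⁻¹ = 0 := by
            have h4 : E.ord ((ratio P j c)⁻¹ * ratio P j c) = 0 := by rw [inv_mul_cancel₀ hne, E.ord.map_one]
            rwa [E.ord.map_mul, h0, add_zero] at h4
          rw [E.ord.map_mul, h3, zero_add]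
          exact (he r).1 _ (h j)
      · rw [if_neg hj]
        exact (he r).1 _ (h j)
    · rw [if_neg hα, mul_zero, E.ord.map_zero]
      exact le_top

theorem exists_psiFamL [P.IsPrime] (hP : Homog P) (f : LFrame (m := fun _ => m) θ b) (hb : b ∈ B) (hB : ∀ i ∈ B, X i ∉ P) (k d : ℕ) :
    ∃ Ψ : SymFamL (FunField P) k (BdB P B) d m (Fin J), ∀ i e, Ψ.fn i e = psiL f P i e :=
  ⟨{ fn := fun i e => psiL f P i e
     hom := fun i e => Psi_hom hP f hb hB i e
     subst := fun i e g => Psi_subst f i e g
     reg := fun i e E he => Psi_reg hP f hb hB i e E he }, fun _ _ => rfl⟩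

end Pool.Agent.GBL

end

section

/-!
# GBL Spn: the logarithmic symmetric differentials span over the function field

As `GB/Spn`, with `act B x u_j ∈ conTan P x`, `x_b = 1`, `(u_j)_b = 0`, `LogGenerated` and linear forms which kill `eul B x` (whose coordinate `b ∈ B` is `1`).
-/

set_option autoImplicit false

open MvPolynomial
open Pool.Agent.H17LG.Variety (FunField ratio)
open Pool.Agent.H62.FC (Homog)
open Pool.Agent.H13.SM (conTan cone)
open Pool.Agent.GL
open Pool.Agent.GB (Mon cdet transfer)

namespace Pool.Agent.GBL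

/-- a spanning family of vectors contains a basis -/
private theorem exists_det {F ι n : Type} [Field F] [Fintype n] [DecidableEq n] (w : ι → n → F)
    (hs : Submodule.span F (Set.range w) = ⊤) : ∃ I : n → ι, (Matrix.of fun α β => w (I α) β).det ≠ 0 := by
  obtain ⟨κ, a, -, hsp, hli⟩ := exists_linearIndependent' F w
  have hsp' : ⊤ ≤ Submodule.span F (Set.range (w ∘ a)) := by rw [hsp, hs]
  let b : Module.Basis κ F (n → F) := Module.Basis.mk hli hsp'
  let e : κ ≃ n := b.indexEquiv (Pi.basisFun F n)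
  refine ⟨fun α => a (e.symm α), ?_⟩
  have h1 : LinearIndependent F (Matrix.of fun α β => w (a (e.symm α)) β).row :=
    hli.comp e.symm e.symm.injective
  rw [Matrix.linearIndependent_rows_iff_isUnit, Matrix.isUnit_iff_isUnit_det] at h1
  exact h1.ne_zero

private theorem lin_apply {F n W : Type} [Field F] [Fintype n] [DecidableEq n] [AddCommGroup W] [Module F W] (φ : (n → F) →ₗ[F] W)
    (v : n → F) : φ v = ∑ j, v j • φ (Pi.single j 1) := by
  have h1 : v = ∑ j, v j • Pi.single j (1 : F) := by
    funext i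
    simp [Finset.sum_apply, Pi.single_apply]
  conv_lhs => rw [h1]
  rw [map_sum]
  exact Finset.sum_congr rfl fun j _ => map_smul _ _ _

/-- the chain rule -/
private theorem der_aeval {K : Type} [Field K] [Algebra ℂ K] {n : ℕ} (D : Derivation ℂ K K) (x : Fin n → K) (q : MvPolynomial (Fin n) ℂ) :
    D (aeval x q) = ∑ i, D (x i) * aeval x (pderiv i q) := by
  induction q using MvPolynomial.induction_on with
  | C c =>
    simp
  | add p q hp hq =>
    simp only [map_add, mul_add, Finset.sum_add_distrib, hp, hq]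
  | mul_X p i hp =>
    rw [map_mul, aeval_X, Derivation.leibniz, hp, smul_eq_mul, smul_eq_mul]
    have h4 : ∀ j, D (x j) * aeval x (pderiv j (p * X i)) =
        x i * (D (x j) * aeval x (pderiv j p)) + (if j = i then aeval x p * D (x j) else 0) := by
      intro j
      rw [Derivation.leibniz, pderiv_X]
      by_cases hj : j = i
      · subst hj
        simp
        ring
      · rw [Pi.single_eq_of_ne (Ne.symm hj)]
        simp [hj]
        ring
    rw [Finset.sum_congr rfl fun j _ => h4 j, Finset.sum_add_distrib, ← Finset.mul_sum]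
    simp
    ring

/-- independent rows: a minor is not zero -/
private theorem exists_minor {F : Type} [Field F] {d n : ℕ} {r : Fin d → Fin n → F} (hr : LinearIndependent F r) :
    ∃ μ : Fin d → Fin n, (Matrix.of fun j l => r j (μ l)).det ≠ 0 := by
  have hs : Submodule.span F (Set.range fun (b : Fin n) (j : Fin d) => r j b) = ⊤ := by
    by_contra hne
    obtain ⟨φ, hφ, hle⟩ := Submodule.exists_le_ker_of_lt_top _ (lt_top_iff_ne_top.2 hne)
    apply hφ
    have h1 : ∀ v : Fin d → F, φ v = ∑ j, v j * φ (Pi.single j 1) := fun v => by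
      rw [lin_apply φ v]
      simp only [smul_eq_mul]
    have h2 : ∑ j, φ (Pi.single j 1) • r j = 0 := by
      funext b
      have h3 : φ (fun j => r j b) = 0 := hle (Submodule.subset_span ⟨b, rfl⟩)
      rw [h1] at h3
      rw [Finset.sum_apply, Pi.zero_apply, ← h3]
      refine Finset.sum_congr rfl fun j _ => ?_
      rw [Pi.smul_apply, smul_eq_mul, mul_comm]
    have h3 := Fintype.linearIndependent_iff.1 hr _ h2
    refine LinearMap.ext fun v => ?_
    rw [h1, LinearMap.zero_apply]
    exact Finset.sum_eq_zero fun j _ => by rw [h3 j, mul_zero]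
  obtain ⟨μ, hμ⟩ := exists_det _ hs
  refine ⟨μ, ?_⟩
  rw [← Matrix.det_transpose]
  exact hμ

/-- a derivation which kills generators is zero -/
private theorem der_eq_zero {K : Type} [Field K] [Algebra ℂ K] {s : Set K} (hs : IntermediateField.adjoin ℂ s = ⊤) {D : Derivation ℂ K K}
    (hD : ∀ x ∈ s, D x = 0) : D = 0 := by
  ext x
  have hx : x ∈ IntermediateField.adjoin ℂ s := by
    rw [hs]
    trivial
  rw [Derivation.coe_zero, Pi.zero_apply]
  induction hx using IntermediateField.adjoin_induction with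
  | mem x hx => exact hD x hx
  | algebraMap x => exact D.map_algebraMap x
  | add x y _ _ hx hy => rw [map_add, hx, hy, add_zero]
  | inv x _ hx => rw [Derivation.leibniz_inv, hx, smul_zero]
  | mul x y _ _ hx hy => rw [Derivation.leibniz, hx, hy, smul_zero, smul_zero, add_zero]

private theorem rows_li {K : Type} [Field K] [Algebra ℂ K] {n d : ℕ} {x : Fin n → K} (hx : IntermediateField.adjoin ℂ (Set.range x) = ⊤)
    {e : Fin d → Derivation ℂ K K} (he : LinearIndependent K e) : LinearIndependent K fun (j : Fin d) (b : Fin n) => e j (x b) := by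
  rw [Fintype.linearIndependent_iff]
  intro c hc
  refine Fintype.linearIndependent_iff.1 he c ?_
  refine der_eq_zero hx ?_
  rintro _ ⟨b, rfl⟩
  have h1 := congrFun hc b
  have h2 : (∑ i, c i • e i) (x b) = ∑ i, c i * e i (x b) := by
    have h3 := map_sum (Derivation.coeFnAddMonoidHom : Derivation ℂ K K →+ (K → K)) (fun i => c i • e i) Finset.univ
    have h4 := congrFun h3 (x b)
    rw [Finset.sum_apply] at h4
    exact h4
  rw [h2]
  rw [Finset.sum_apply] at h1
  exact h1

section

variable {N : ℕ} {d : ℕ}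

/-- the variables `x_b`, `u_(j b)` -/
private abbrev Vr (N d : ℕ) : Type := Fin (N + 1) ⊕ Fin d × Fin (N + 1)

/-- the polynomial `A (x, ∑ t_j u_j)` in `t` -/
private noncomputable def gp {F : Type} [CommRing F] [Algebra ℂ F] (A : MvPolynomial (Pool.Agent.GG.Ph N) ℂ) (y : Vr N d → F) :
    MvPolynomial (Fin d) F :=
  aeval (Sum.elim (fun b => C (y (Sum.inl b))) fun b => ∑ j, X j * C (y (Sum.inr (j, b)))) A

/-- the generic one -/
private theorem gp_map {F : Type} [CommRing F] [Algebra ℂ F] (A : MvPolynomial (Pool.Agent.GG.Ph N) ℂ) (y : Vr N d → F) :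
    map (aeval y : MvPolynomial (Vr N d) ℂ →ₐ[ℂ] F).toRingHom (gp A (X : Vr N d → MvPolynomial (Vr N d) ℂ)) = gp A y := by
  have h1 : map (aeval y : MvPolynomial (Vr N d) ℂ →ₐ[ℂ] F).toRingHom (gp A (X : Vr N d → MvPolynomial (Vr N d) ℂ)) =
      mapAlgHom (aeval y : MvPolynomial (Vr N d) ℂ →ₐ[ℂ] F) (gp A (X : Vr N d → MvPolynomial (Vr N d) ℂ)) := rfl
  rw [h1]
  unfold gp
  rw [← AlgHom.comp_apply, comp_aeval]
  congr 2
  funext i
  rcases i with b | b
  · simp
  · simp [map_sum]

/-- the determinant of the coefficients -/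
private noncomputable def dt {J m : ℕ} (A : Fin J → MvPolynomial (Pool.Agent.GG.Ph N) ℂ) (I : Mon d m → Fin J) : MvPolynomial (Vr N d) ℂ :=
  (Matrix.of fun α β : Mon d m => coeff β.1 (gp (A (I α)) (X : Vr N d → MvPolynomial (Vr N d) ℂ))).det

private theorem aeval_dt {J m : ℕ} (A : Fin J → MvPolynomial (Pool.Agent.GG.Ph N) ℂ) (I : Mon d m → Fin J) {F : Type} [CommRing F] [Algebra ℂ F]
    (y : Vr N d → F) : aeval y (dt A I) = (Matrix.of fun α β : Mon d m => coeff β.1 (gp (A (I α)) y)).det := by
  unfold dt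
  have h1 := (aeval y : MvPolynomial (Vr N d) ℂ →ₐ[ℂ] F).toRingHom.map_det
    (Matrix.of fun α β : Mon d m => coeff β.1 (gp (A (I α)) (X : Vr N d → MvPolynomial (Vr N d) ℂ)))
  refine h1.trans ?_
  congr 1
  ext α β
  rw [RingHom.mapMatrix_apply, Matrix.map_apply, Matrix.of_apply, Matrix.of_apply, ← gp_map (A (I α)) y, coeff_map]

private theorem eval_gp (A : MvPolynomial (Pool.Agent.GG.Ph N) ℂ) (y : Vr N d → ℂ) (t : Fin d → ℂ) :
    eval t (gp A y) = eval (Pool.Agent.GG.pt (fun b => y (Sum.inl b)) (∑ j, t j • fun b => y (Sum.inr (j, b)))) A := by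
  unfold gp
  have h1 : eval t (aeval (Sum.elim (fun b => C (y (Sum.inl b))) fun b => ∑ j, X j * C (y (Sum.inr (j, b)))) A) =
      (aeval t : MvPolynomial (Fin d) ℂ →ₐ[ℂ] ℂ) (aeval (Sum.elim (fun b => C (y (Sum.inl b))) fun b => ∑ j, X j * C (y (Sum.inr (j, b)))) A) := rfl
  have h2 : eval (Pool.Agent.GG.pt (fun b => y (Sum.inl b)) (∑ j, t j • fun b => y (Sum.inr (j, b)))) A =
      (aeval (Pool.Agent.GG.pt (fun b => y (Sum.inl b)) (∑ j, t j • fun b => y (Sum.inr (j, b)))) :
        MvPolynomial (Pool.Agent.GG.Ph N) ℂ →ₐ[ℂ] ℂ) A := rfl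
  rw [h1, h2, ← AlgHom.comp_apply, comp_aeval]
  congr 2
  funext i
  rcases i with b | b
  · simp
  · simp [Finset.sum_apply]

end

/-- independent rows stay independent if the columns are scaled -/
private theorem rows_scale {K : Type} [Field K] {n d : ℕ} {r : Fin d → Fin n → K} (hr : LinearIndependent K r) {s : Fin n → K} (hs : ∀ i, s i ≠ 0) :
    LinearIndependent K fun (j : Fin d) (i : Fin n) => s i * r j i := by
  rw [Fintype.linearIndependent_iff]
  intro c hc
  refine Fintype.linearIndependent_iff.1 hr c ?_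
  funext i
  have h1 := congrFun hc i
  rw [Finset.sum_apply, Pi.zero_apply] at h1 ⊢
  simp only [Pi.smul_apply, smul_eq_mul] at h1 ⊢
  have h2 : s i * ∑ j, c j * r j i = 0 := by
    rw [Finset.mul_sum, ← h1]
    exact Finset.sum_congr rfl fun j _ => by ring
  exact (mul_eq_zero.1 h2).resolve_left (hs i)

private theorem act_lin {N d : ℕ} (B : Finset (Fin (N + 1))) (x : Fin (N + 1) → ℂ) (u : Fin d → Fin (N + 1) → ℂ) (t : Fin d → ℂ) :
    act B x (∑ j, t j • u j) = ∑ j, t j • act B x (u j) := by
  funext i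
  rw [Finset.sum_apply]
  unfold act
  by_cases hi : i ∈ B
  · simp only [hi, if_true, Finset.sum_apply, Pi.smul_apply, smul_eq_mul, Finset.mul_sum]
    exact Finset.sum_congr rfl fun j _ => by ring
  · simp only [hi, if_false, Finset.sum_apply, Pi.smul_apply, smul_eq_mul]

variable {N : ℕ} {P : Ideal (MvPolynomial (Fin (N + 1)) ℂ)} {B : Finset (Fin (N + 1))} {J m : ℕ} {θ : Fin J → LogSec P B m} {b : Fin (N + 1)}

/-- the complex points: the polynomials span if the vectors are independent -/
private theorem complex_point (hgen : LogGenerated θ) (f : LFrame (m := fun _ => m) θ b) (hb : b ∈ B) {d : ℕ} (y : Vr N d → ℂ)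
    (h1 : y (Sum.inl b) = 1) (h2 : ∀ j, y (Sum.inr (j, b)) = 0) (h3 : ∀ q ∈ P, eval (fun i => y (Sum.inl i)) q = 0)
    (h4 : ∀ j, act B (fun i => y (Sum.inl i)) (fun i => y (Sum.inr (j, i))) ∈ conTan P fun i => y (Sum.inl i))
    (hu : LinearIndependent ℂ fun (j : Fin d) (i : Fin (N + 1)) => y (Sum.inr (j, i))) :
    ∃ I : Mon d m → Fin J, aeval y (dt f.A I) ≠ 0 := by
  obtain ⟨x, hx⟩ : ∃ x : Fin (N + 1) → ℂ, x = fun i => y (Sum.inl i) := ⟨_, rfl⟩
  obtain ⟨u, hudef⟩ : ∃ u : Fin d → Fin (N + 1) → ℂ, u = fun j i => y (Sum.inr (j, i)) := ⟨_, rfl⟩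
  have hxa : x b = 1 := by rw [hx]; exact h1
  have hua : ∀ j, u j b = 0 := fun j => by rw [hudef]; exact h2 j
  have hxc : x ∈ cone P := by
    refine ⟨fun h => ?_, fun q hq => by rw [hx]; exact h3 q hq⟩
    rw [h] at hxa
    exact zero_ne_one hxa
  have huc : ∀ j, act B x (u j) ∈ conTan P x := fun j => by
    rw [hx, hudef]
    exact h4 j
  have hee : eul B x b = 1 := by
    unfold eul
    rw [if_pos hb]
  rw [← hudef] at hu
  -- dual forms
  obtain ⟨w, hw⟩ : ∃ w : Unit ⊕ Fin d → Fin (N + 1) → ℂ, w = Sum.elim (fun _ => eul B x) u := ⟨_, rfl⟩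
  have hwli : LinearIndependent ℂ w := by
    rw [Fintype.linearIndependent_iff]
    intro g hg
    rw [Fintype.sum_sum_type, hw] at hg
    simp only [Sum.elim_inl, Sum.elim_inr, Finset.univ_unique, Finset.sum_singleton] at hg
    have h5 : g (Sum.inl default) = 0 := by
      have h6 := congrFun hg b
      rw [Pi.add_apply, Finset.sum_apply, Pi.smul_apply, hee, smul_eq_mul, mul_one] at h6
      rw [Finset.sum_eq_zero fun j _ => by rw [Pi.smul_apply, hua, smul_zero], add_zero] at h6
      exact h6
    rw [h5, zero_smul, zero_add] at hg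
    have h6 := Fintype.linearIndependent_iff.1 hu _ hg
    rintro (i | i)
    · exact h5
    · exact h6 i
  obtain ⟨g, hg⟩ := LinearMap.exists_leftInverse_of_injective (Fintype.linearCombination ℂ w)
    (LinearMap.ker_eq_bot.2 (linearIndependent_iff_injective_fintypeLinearCombination.1 hwli))
  have hgw : ∀ i, g (w i) = Pi.single i 1 := by
    intro i
    have h5 := LinearMap.congr_fun hg (Pi.single i 1)
    rw [LinearMap.comp_apply, Fintype.linearCombination_apply_single, one_smul, LinearMap.id_apply] at h5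
    exact h5
  obtain ⟨L, hL⟩ : ∃ L : Fin d → MvPolynomial (Fin (N + 1)) ℂ, L = fun j => ∑ i, C (g (Pi.single i 1) (Sum.inr j)) * X i := ⟨_, rfl⟩
  have hLe : ∀ j v, eval v (L j) = g v (Sum.inr j) := by
    intro j v
    have h5 : g v = ∑ i, v i • g (Pi.single i 1) := lin_apply g v
    rw [hL, h5, Finset.sum_apply]
    simp only [map_sum, map_mul, eval_C, eval_X]
    refine Finset.sum_congr rfl fun i _ => ?_
    rw [Pi.smul_apply, smul_eq_mul, mul_comm]
  have hLh : ∀ j, (L j).IsHomogeneous 1 := by
    intro j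
    rw [hL]
    exact IsHomogeneous.sum _ _ _ fun i _ => isHomogeneous_C_mul_X _ _
  -- the coefficients
  obtain ⟨p, hp⟩ : ∃ p : Fin J → MvPolynomial (Fin d) ℂ, p = fun k => gp (f.A k) y := ⟨_, rfl⟩
  have key : ∀ α : Mon d m, ∃ c : Fin J → ℂ, ∀ β : Mon d m, (if α = β then (1 : ℂ) else 0) = ∑ k, c k * coeff β.1 (p k) := by
    intro α
    have hα : (∑ j, α.1 j) = m := (Finset.mem_finsuppAntidiag.1 α.2).1
    obtain ⟨c, hc⟩ := hgen x hxc (∏ j, L j ^ α.1 j) (by
      have h5 := IsHomogeneous.prod Finset.univ (fun j => L j ^ α.1 j) (fun j => 1 * α.1 j) fun j _ => (hLh j).pow _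
      simp only [one_mul] at h5
      rw [hα] at h5
      exact h5) (by
      intro v s
      rw [map_prod, map_prod]
      refine Finset.prod_congr rfl fun j _ => ?_
      rw [map_pow, map_pow, hLe, hLe, map_add, map_smul]
      have h5 : g (eul B x) = Pi.single (Sum.inl ()) 1 := by
        have h6 := hgw (Sum.inl ())
        rw [hw] at h6
        exact h6
      rw [h5]
      simp)
    refine ⟨c, fun β => ?_⟩
    have h5 : monomial α.1 (1 : ℂ) = ∑ k, C (c k) * p k := by
      refine MvPolynomial.funext fun t => ?_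
      have h6 : act B x (∑ j, t j • u j) ∈ conTan P x := by
        rw [act_lin]
        exact Submodule.sum_mem _ fun j _ => Submodule.smul_mem _ _ (huc j)
      have h7 := hc _ h6
      have h8 : ∀ j, g (∑ i, t i • u i) (Sum.inr j) = t j := by
        intro j
        rw [map_sum, Finset.sum_apply, Finset.sum_eq_single j]
        · have h9 := hgw (Sum.inr j)
          rw [hw, Sum.elim_inr] at h9
          rw [map_smul, h9, Pi.smul_apply, Pi.single_eq_same, smul_eq_mul, mul_one]
        · intro i _ hi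
          have h9 := hgw (Sum.inr i)
          rw [hw, Sum.elim_inr] at h9
          rw [map_smul, h9, Pi.smul_apply, Pi.single_eq_of_ne (fun h => hi (Sum.inr.inj h).symm), smul_zero]
        · intro h
          exact absurd (Finset.mem_univ j) h
      rw [map_prod] at h7
      simp only [map_pow, hLe, h8] at h7
      rw [map_sum]
      simp only [map_mul, eval_C]
      have h9 : ∀ k, eval t (p k) = (θ k).toFun x (∑ j, t j • u j) := by
        intro k
        rw [f.hA k x hxc hxa _ h6, hp, hx, hudef]
        exact eval_gp _ _ _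
      simp only [h9]
      rw [← h7, eval_monomial, one_mul, Finsupp.prod_fintype]
      intro i
      exact pow_zero _
    have h6 := congrArg (coeff β.1) h5
    rw [coeff_monomial, coeff_sum] at h6
    simp only [coeff_C_mul] at h6
    rw [← h6]
    by_cases h : α = β
    · rw [if_pos h, if_pos (congrArg Subtype.val h)]
    · rw [if_neg h, if_neg fun h7 => h (Subtype.ext h7)]
  have hs : Submodule.span ℂ (Set.range fun (k : Fin J) (β : Mon d m) => coeff β.1 (p k)) = ⊤ := by
    rw [eq_top_iff, ← (Pi.basisFun ℂ (Mon d m)).span_eq, Submodule.span_le]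
    rintro _ ⟨α, rfl⟩
    obtain ⟨c, hc⟩ := key α
    have h5 : (Pi.basisFun ℂ (Mon d m)) α = ∑ k, c k • fun β : Mon d m => coeff β.1 (p k) := by
      funext β
      rw [Pi.basisFun_apply, Finset.sum_apply]
      simp only [Pi.smul_apply, smul_eq_mul]
      rw [← hc β, Pi.single_apply]
      exact if_congr eq_comm rfl rfl
    rw [h5]
    exact Submodule.sum_mem _ fun k _ => Submodule.smul_mem _ _ (Submodule.subset_span ⟨k, rfl⟩)
  obtain ⟨I, hI⟩ := exists_det _ hs
  refine ⟨I, ?_⟩
  rw [aeval_dt]
  rw [hp] at hI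
  exact hI

theorem exists_index_psiL [P.IsPrime] (hP : Homog P) (hgen : LogGenerated θ) (f : LFrame (m := fun _ => m) θ b) (hb : b ∈ B) (hB : ∀ i ∈ B, X i ∉ P)
    {d : ℕ} {e : Fin d → Derivation ℂ (FunField P) (FunField P)} (he : LinearIndependent (FunField P) e) :
    ∃ I : Mon d m → Fin J, cdet (fun α => psiL f P (I α) e) ≠ 0 := by
  by_contra hcon
  push Not at hcon
  have hb' : Pool.Agent.H17GT.coordFun P b ≠ 0 := Pool.Agent.H17R.coordFun_ne_zero_iff.2 (hB b hb)
  have hr0 : ∀ i ∈ B, ratio P i b ≠ 0 := fun i hi =>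
    (Pool.Agent.H17R.ratio_ne_zero_iff hb').2 (Pool.Agent.H17R.coordFun_ne_zero_iff.2 (hB i hi))
  obtain ⟨y, hy⟩ : ∃ y : Vr N d → FunField P, y = Sum.elim (fun i => ratio P i b) fun p =>
      if p.2 ∈ B then (ratio P p.2 b)⁻¹ * e p.1 (ratio P p.2 b) else e p.1 (ratio P p.2 b) := ⟨_, rfl⟩
  have hyl : ∀ i, y (Sum.inl i) = ratio P i b := fun i => by rw [hy]; rfl
  have hyr : ∀ j i, y (Sum.inr (j, i)) = if i ∈ B then (ratio P i b)⁻¹ * e j (ratio P i b) else e j (ratio P i b) := fun j i => by rw [hy]; rfl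
  have hgp : ∀ k, gp (f.A k) y = psiL f P k e := by
    intro k
    unfold gp psiL tvL
    simp only [hyl, hyr]
  have hgen0 : ∀ q ∈ P, aeval (fun i => ratio P i b) q = 0 := by
    intro q hq
    rw [← sum_homogeneousComponent q, map_sum]
    refine Finset.sum_eq_zero fun n _ => ?_
    exact (Pool.Agent.H17R.gen_eq_zero_iff hb' (homogeneousComponent_isHomogeneous n q)).2 (hP q hq n)
  have hder : ∀ (D : Derivation ℂ (FunField P) (FunField P)) (q : MvPolynomial (Fin (N + 1)) ℂ),
      D (aeval (fun i => ratio P i b) q) = ∑ i, D (ratio P i b) * aeval (fun i => ratio P i b) (pderiv i q) := fun D q => der_aeval D _ q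
  -- the transfer
  have hmin : ∀ μ : Fin d → Fin (N + 1), (Matrix.of fun j l => y (Sum.inr (j, μ l))).det = 0 := by
    intro μ
    obtain ⟨S, hS⟩ : ∃ S : Set (MvPolynomial (Vr N d) ℂ), S = {X (Sum.inl b) - 1} ∪ (Set.range fun j : Fin d => X (Sum.inr (j, b))) ∪
        (rename Sum.inl '' (P : Set (MvPolynomial (Fin (N + 1)) ℂ))) ∪
        (⋃ j : Fin d, (fun q => ∑ i, (if i ∈ B then X (Sum.inl i) * X (Sum.inr (j, i)) else X (Sum.inr (j, i))) * rename Sum.inl (pderiv i q)) ''
          (P : Set (MvPolynomial (Fin (N + 1)) ℂ))) ∪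
        Set.range fun I : Mon d m → Fin J => dt f.A I := ⟨_, rfl⟩
    obtain ⟨G, hG⟩ : ∃ G : MvPolynomial (Vr N d) ℂ, G = (Matrix.of fun j l : Fin d => X (Sum.inr (j, μ l))).det := ⟨_, rfl⟩
    have hGe : ∀ {F : Type} [CommRing F] [Algebra ℂ F] (z : Vr N d → F), aeval z G = (Matrix.of fun j l : Fin d => z (Sum.inr (j, μ l))).det := by
      intro F _ _ z
      rw [hG]
      have h1 := (aeval z : MvPolynomial (Vr N d) ℂ →ₐ[ℂ] F).toRingHom.map_det (Matrix.of fun j l : Fin d => X (Sum.inr (j, μ l)))
      refine h1.trans ?_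
      congr 1
      ext j l
      rw [RingHom.mapMatrix_apply, Matrix.map_apply, Matrix.of_apply, Matrix.of_apply]
      exact aeval_X _ _
    have h1 := transfer (S := S) (G := G) (fun z hz => ?_) y (fun s hs => ?_)
    · rw [hGe] at h1
      exact h1
    · -- complex points
      by_contra hne
      rw [← coe_aeval_eq_eval] at hne
      have hne' : (Matrix.of fun j l : Fin d => z (Sum.inr (j, μ l))).det ≠ 0 := by
        rw [← hGe]
        exact hne
      have hu : LinearIndependent ℂ fun (j : Fin d) (i : Fin (N + 1)) => z (Sum.inr (j, i)) := by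
        have h2 : IsUnit (Matrix.of fun j l : Fin d => z (Sum.inr (j, μ l))) := by
          rw [Matrix.isUnit_iff_isUnit_det]
          exact isUnit_iff_ne_zero.2 hne'
        rw [← Matrix.linearIndependent_rows_iff_isUnit] at h2
        exact LinearIndependent.of_comp (LinearMap.funLeft ℂ ℂ μ) h2
      have e1 : z (Sum.inl b) = 1 := by
        have h2 := hz (X (Sum.inl b) - 1) (by rw [hS]; simp)
        rw [map_sub, eval_X, map_one, sub_eq_zero] at h2
        exact h2
      have e2 : ∀ j, z (Sum.inr (j, b)) = 0 := by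
        intro j
        have h2 := hz (X (Sum.inr (j, b))) (by
          rw [hS]
          exact Or.inl (Or.inl (Or.inl (Or.inr ⟨j, rfl⟩))))
        rw [eval_X] at h2
        exact h2
      have e3 : ∀ q ∈ P, eval (fun i => z (Sum.inl i)) q = 0 := by
        intro q hq
        have h2 := hz (rename Sum.inl q) (by
          rw [hS]
          exact Or.inl (Or.inl (Or.inr ⟨q, hq, rfl⟩)))
        rw [eval_rename] at h2
        exact h2
      have e4 : ∀ j, act B (fun i => z (Sum.inl i)) (fun i => z (Sum.inr (j, i))) ∈ conTan P fun i => z (Sum.inl i) := by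
        intro j q hq
        have h2 := hz (∑ i, (if i ∈ B then X (Sum.inl i) * X (Sum.inr (j, i)) else X (Sum.inr (j, i))) * rename Sum.inl (pderiv i q)) (by
          rw [hS]
          exact Or.inl (Or.inr (Set.mem_iUnion.2 ⟨j, q, hq, rfl⟩)))
        rw [map_sum] at h2
        rw [← h2]
        refine Finset.sum_congr rfl fun i _ => ?_
        rw [map_mul, eval_rename]
        congr 1
        unfold act
        by_cases hi : i ∈ B
        · rw [if_pos hi, if_pos hi, map_mul, eval_X, eval_X]
        · rw [if_neg hi, if_neg hi, eval_X]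
      obtain ⟨I, hI⟩ := complex_point hgen f hb z e1 e2 e3 e4 hu
      apply hI
      have h2 := hz (dt f.A I) (by
        rw [hS]
        exact Or.inr ⟨I, rfl⟩)
      rw [← coe_aeval_eq_eval] at h2
      exact h2
    · -- the point of the function field
      rw [hS] at hs
      rcases hs with (((hs | hs) | hs) | hs) | hs
      · rw [Set.mem_singleton_iff] at hs
        rw [hs, map_sub, aeval_X, map_one, hyl, Pool.Agent.H17R.ratio_self hb', sub_self]
      · obtain ⟨j, rfl⟩ := hs
        rw [aeval_X, hyr, if_pos hb, Pool.Agent.H17R.ratio_self hb', Derivation.map_one_eq_zero, mul_zero]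
      · obtain ⟨q, hq, rfl⟩ := hs
        rw [aeval_rename]
        have h2 : y ∘ Sum.inl = fun i => ratio P i b := funext hyl
        rw [h2]
        exact hgen0 q hq
      · obtain ⟨j, q, hq, rfl⟩ := Set.mem_iUnion.1 hs
        have h2 : y ∘ Sum.inl = fun i => ratio P i b := funext hyl
        have h3 : e j (aeval (fun i => ratio P i b) q) = 0 := by rw [hgen0 q hq, map_zero]
        rw [map_sum, ← h3, hder]
        refine Finset.sum_congr rfl fun i _ => ?_
        rw [map_mul, aeval_rename, h2]
        congr 1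
        by_cases hi : i ∈ B
        · rw [if_pos hi, map_mul, aeval_X, aeval_X, hyl, hyr, if_pos hi, ← mul_assoc, mul_inv_cancel₀ (hr0 i hi), one_mul]
        · rw [if_neg hi, aeval_X, hyr, if_neg hi]
      · obtain ⟨I, rfl⟩ := hs
        rw [aeval_dt]
        simp only [hgp]
        have h2 := hcon I
        unfold cdet at h2
        convert h2
  -- dependence
  have hrow : LinearIndependent (FunField P) fun (j : Fin d) (i : Fin (N + 1)) => y (Sum.inr (j, i)) := by
    have h1 := rows_scale (rows_li (Pool.Agent.H17R.adjoin_ratio hb') he) (s := fun i => if i ∈ B then (ratio P i b)⁻¹ else 1) (fun i => by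
      by_cases hi : i ∈ B
      · simp only [if_pos hi]
        exact inv_ne_zero (hr0 i hi)
      · simp only [if_neg hi]
        exact one_ne_zero)
    have h2 : (fun (j : Fin d) (i : Fin (N + 1)) => y (Sum.inr (j, i))) =
        fun (j : Fin d) (i : Fin (N + 1)) => (if i ∈ B then (ratio P i b)⁻¹ else 1) * e j (ratio P i b) := by
      funext j i
      rw [hyr]
      by_cases hi : i ∈ B
      · rw [if_pos hi, if_pos hi]
      · rw [if_neg hi, if_neg hi, one_mul]
    rw [h2]
    exact h1
  obtain ⟨μ, hμ⟩ := exists_minor hrow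
  exact hμ (hmin μ)

end Pool.Agent.GBL

end

section

/-!
# LG Up: property (iv) goes up along dominant regular maps

`strongly_up`: let `p : U' → U` be a dominant regular map of quasi-projective varieties of the same dimension.  If all closed subvarieties of `U` of positive dimension on which a form `R` is not identically `0` are of log general type, then
all closed subvarieties of `U'` of positive dimension on which a certain form `R'` is not identically `0` are of log general type.
The closure in `U` of the image of the subvariety `Z'` of `U'` given by `Q'` is given by the ideal `Q'.comap (aeval γ)`, where the forms `γ` represent the map `p`; if `R'` is not `0` on `Z'` then it has the same dimension as `Z'`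
(equations of the coordinates, `exists_eq`), and `logGT_up` applies.
-/

set_option autoImplicit false

open MvPolynomial

noncomputable section

namespace Pool.Agent.LG

open Pool.Agent.H17GT (coordFun)
open Pool.Agent.H17LG.Variety (FunField ratio IsLogGeneralType)
open Pool.Agent.H17R (gen gen_eq_zero_iff ratio_self coordFun_ne_zero_iff adjoin_ratio)

variable {N M : ℕ} {P : Ideal (MvPolynomial (Fin (N + 1)) ℂ)} {P' Q' : Ideal (MvPolynomial (Fin (M + 1)) ℂ)} {s s' : ℕ}
  {G : Fin s → MvPolynomial (Fin (N + 1)) ℂ} {G' : Fin s' → MvPolynomial (Fin (M + 1)) ℂ}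

/-- a transcendence basis of a subfield over which the field is algebraic -/
theorem exists_basis_down {K K' : Type} [Field K] [Algebra ℂ K] [Field K'] [Algebra ℂ K'] [Algebra K K'] [IsScalarTower ℂ K K'] [Algebra.IsAlgebraic K K'] {w : ℕ} {z' : Fin w → K'}
    (hz' : IsTranscendenceBasis ℂ z') : ∃ z : Fin w → K, IsTranscendenceBasis ℂ z := by
  obtain ⟨ι, x, hx⟩ := exists_isTranscendenceBasis' ℂ K
  have h1 := trdeg_add_eq ℂ K (A := K')
  rw [← hx.cardinalMk_eq_trdeg, ← hz'.cardinalMk_eq_trdeg, trdeg_eq_zero_iff.2 inferInstance, add_zero] at h1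
  obtain ⟨f⟩ := Cardinal.eq.1 h1
  exact ⟨x ∘ f.symm, hx.comp_equiv f.symm⟩

/-- If the coordinates of a variety are algebraic over a field, then the function field is. -/
theorem isAlgebraic_of_ratio {Q : Ideal (MvPolynomial (Fin (N + 1)) ℂ)} [Q.IsPrime] [Q'.IsPrime] (e : FunField Q →ₐ[ℂ] FunField Q') {j : Fin (M + 1)} (hj : X j ∉ Q')
    (h : letI := e.toRingHom.toAlgebra; ∀ i, IsAlgebraic (FunField Q) (ratio Q' i j)) :
    letI := e.toRingHom.toAlgebra; Algebra.IsAlgebraic (FunField Q) (FunField Q') := by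
  let _ : Algebra (FunField Q) (FunField Q') := e.toRingHom.toAlgebra
  have _ : IsScalarTower ℂ (FunField Q) (FunField Q') := IsScalarTower.of_algebraMap_eq fun c => (e.commutes c).symm
  have hcj : coordFun Q' j ≠ 0 := coordFun_ne_zero_iff.2 hj
  have h1 : (⊤ : IntermediateField ℂ (FunField Q')) ≤ (algebraicClosure (FunField Q) (FunField Q')).restrictScalars ℂ := by
    rw [← adjoin_ratio hcj, IntermediateField.adjoin_le_iff]
    rintro _ ⟨i, rfl⟩
    exact (h i).isIntegral
  refine ⟨fun x => ?_⟩
  have h2 : x ∈ (algebraicClosure (FunField Q) (FunField Q')).restrictScalars ℂ := h1 (IntermediateField.mem_top)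
  exact (mem_algebraicClosure_iff.1 h2)

end Pool.Agent.LG

end
end
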