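import Pool.Agent.H18.GGT.M17
import Pool.Agent.H18.GGT.M46

/-! The parts of this file: GL.CmpX, GL.Grow, GL.NaA, GL.NaB. -/

section

/-!
# GL CmpX: compactness for `Cmp`
-/

set_option autoImplicit false

open MvPolynomial Topology Filter Metric
open Pool.Agent.H13.SM (conTan cone)
open Pool.Agent.H62.FC (Homog)
open Pool.Agent.GG Pool.Agent.GA

noncomputable section

namespace Pool.Agent.GL.CX

variable {N : ℕ} {P : Ideal (MvPolynomial (Fin (N + 1)) ℂ)} {B : Finset (Fin (N + 1))} {J : ℕ} {m : Fin J → ℕ} {θ : ∀ k, LogSec P B (m k)} {b : Fin (N + 1)}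

theorem two_bounds {Y : Type} [TopologicalSpace Y] {S : Set Y} (hS : IsCompact S) {J : ℕ} {g : Fin J → Y → ℝ} (hg : ∀ k, Continuous (g k))
    (h0 : ∀ k y, 0 ≤ g k y) (hpos : ∀ y ∈ S, ∃ k, g k y ≠ 0) :
    ∃ δ > 0, ∃ C > 0, ∀ y ∈ S, (∀ k, g k y ≤ C) ∧ ∃ k, δ ≤ g k y := by
  obtain ⟨G, hG⟩ : ∃ G : Y → ℝ, G = fun y => ∑ k, g k y := ⟨_, rfl⟩
  have hcont : Continuous G := by
    rw [hG]
    exact continuous_finsetSum _ fun k _ => hg k
  have hle : ∀ k y, g k y ≤ G y := by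
    intro k y
    rw [hG]
    exact Finset.single_le_sum (f := fun k => g k y) (fun k _ => h0 k y) (Finset.mem_univ k)
  have hGpos : ∀ y ∈ S, 0 < G y := by
    intro y hy
    obtain ⟨k, hk⟩ := hpos y hy
    exact lt_of_lt_of_le (lt_of_le_of_ne (h0 k y) (Ne.symm hk)) (hle k y)
  obtain ⟨C, hC⟩ := hS.exists_bound_of_continuousOn hcont.continuousOn
  obtain ⟨δ, hδ, h1⟩ : ∃ δ > 0, ∀ y ∈ S, δ ≤ G y := by
    rcases S.eq_empty_or_nonempty with h | h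
    · exact ⟨1, one_pos, fun y hy => by rw [h] at hy; exact hy.elim⟩
    · obtain ⟨z, hz, hmin⟩ := hS.exists_isMinOn h hcont.continuousOn
      exact ⟨G z, hGpos z hz, fun y hy => hmin hy⟩
  refine ⟨δ / (J + 1), by positivity, |C| + 1, by positivity, fun y hy => ⟨fun k => ?_, ?_⟩⟩
  · have h2 := (hle k y).trans ((le_abs_self _).trans (hC y hy))
    linarith [le_abs_self C]
  · by_contra hcon
    push Not at hcon
    have h2 : G y ≤ J * (δ / (J + 1)) := by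
      rw [hG]
      calc ∑ k, g k y ≤ ∑ _k : Fin J, δ / (J + 1) := Finset.sum_le_sum fun k _ => (hcon k).le
        _ = J * (δ / (J + 1)) := by simp
    have h3 := h1 y hy
    have h4 : (J : ℝ) * (δ / (J + 1)) < δ := by
      rw [mul_div_assoc', div_lt_iff₀ (by positivity)]
      nlinarith
    linarith

/-- the unit logarithmic vectors in the chart of the largest coordinate `a` -/
def US (P : Ideal (MvPolynomial (Fin (N + 1)) ℂ)) (B : Finset (Fin (N + 1))) (b a : Fin (N + 1)) : Set (Ph N → ℂ) :=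
  {z | ‖z (Sum.inl a)‖ = 1 ∧ (∀ c, ‖z (Sum.inl c)‖ ≤ 1) ∧ z (Sum.inr b) = 0 ∧ ‖fun c => z (Sum.inr c)‖ = 1 ∧
    (∀ Q ∈ P, eval (fun c => z (Sum.inl c)) Q = 0) ∧
    ∀ Q ∈ P, ∑ i, act B (fun c => z (Sum.inl c)) (fun c => z (Sum.inr c)) i * eval (fun c => z (Sum.inl c)) (pderiv i Q) = 0}

theorem isCompact_US (P : Ideal (MvPolynomial (Fin (N + 1)) ℂ)) (B : Finset (Fin (N + 1))) (b a : Fin (N + 1)) : IsCompact (US P B b a) := by
  have hc : ∀ Q : MvPolynomial (Fin (N + 1)) ℂ, Continuous fun y : Ph N → ℂ => eval (fun b => y (Sum.inl b)) Q := fun Q =>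
    (MvPolynomial.continuous_eval Q).comp (continuous_pi fun b => continuous_apply _)
  have ha : ∀ i, Continuous fun z : Ph N → ℂ => act B (fun c => z (Sum.inl c)) (fun c => z (Sum.inr c)) i := by
    intro i
    unfold act
    by_cases hi : i ∈ B
    · simp only [hi, if_true]
      exact (continuous_apply _).mul (continuous_apply _)
    · simp only [hi, if_false]
      exact continuous_apply _
  have h1 : IsClosed {z : Ph N → ℂ | ‖z (Sum.inl a)‖ = 1} := isClosed_eq (continuous_apply _).norm continuous_const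
  have h2 : IsClosed {z : Ph N → ℂ | z (Sum.inr b) = 0} := isClosed_eq (continuous_apply _) continuous_const
  have h3 : IsClosed {z : Ph N → ℂ | ∀ c, ‖z (Sum.inl c)‖ ≤ 1} := by
    simp only [Set.ofPred_forall]
    exact isClosed_iInter fun b => isClosed_le (continuous_apply _).norm continuous_const
  have h4 : IsClosed {z : Ph N → ℂ | ∀ Q ∈ P, eval (fun c => z (Sum.inl c)) Q = 0} := by
    simp only [Set.ofPred_forall]
    exact isClosed_iInter fun Q => isClosed_iInter fun _ => isClosed_eq (hc Q) continuous_const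
  have h5 : IsClosed {z : Ph N → ℂ | ∀ Q ∈ P, ∑ i, act B (fun c => z (Sum.inl c)) (fun c => z (Sum.inr c)) i *
      eval (fun c => z (Sum.inl c)) (pderiv i Q) = 0} := by
    simp only [Set.ofPred_forall]
    refine isClosed_iInter fun Q => isClosed_iInter fun _ => isClosed_eq ?_ continuous_const
    exact continuous_finsetSum _ fun i _ => (ha i).mul (hc _)
  have h6 : IsClosed {z : Ph N → ℂ | ‖fun c : Fin (N + 1) => z (Sum.inr c)‖ = 1} :=
    isClosed_eq (continuous_pi fun b => continuous_apply (Sum.inr b)).norm continuous_const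
  have hcl : IsClosed (US P B b a) := h1.inter (h3.inter (h2.inter (h6.inter (h4.inter h5))))
  refine Metric.isCompact_of_isClosed_isBounded hcl ?_
  refine (isBounded_closedBall (x := (0 : Ph N → ℂ)) (r := 1)).subset ?_
  rintro y ⟨_, h3, _, h6, _⟩
  rw [mem_closedBall_zero_iff, pi_norm_le_iff_of_nonneg zero_le_one]
  rintro (c | c)
  · exact h3 c
  · rw [← h6]
    exact norm_le_pi_norm (fun c : Fin (N + 1) => y (Sum.inr c)) c

theorem not_mem_span (hb : b ∈ B) {y ξ : Fin (N + 1) → ℂ} (h : ξ b = 0) (h0 : ξ ≠ 0) : ξ ∉ Submodule.span ℂ {eul B y} := by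
  intro hs
  obtain ⟨c, rfl⟩ := Submodule.mem_span_singleton.1 hs
  have h1 : c * 1 = 0 := by
    have : (c • eul B y) b = c * 1 := by
      rw [Pi.smul_apply, smul_eq_mul, eul, if_pos hb]
    rw [← this]; exact h
  rw [mul_one] at h1
  rw [h1, zero_smul] at h0
  exact h0 rfl

theorem exists_ne (hθ : LogPolar θ) (hb : b ∈ B) {y ξ : Fin (N + 1) → ℂ} (hy : y ∈ cone P) (hξ : act B y ξ ∈ conTan P y) (h : ξ b = 0) (h0 : ξ ≠ 0) :
    ∃ k, (θ k).toFun y ξ ≠ 0 := by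
  obtain ⟨k, hk⟩ := hθ y hy ξ hξ ξ hξ (not_mem_span hb h h0) (not_mem_span hb h h0)
  refine ⟨k, fun hz => hk ?_⟩
  have h1 : (fun t : ℂ => (θ k).toFun y (ξ + t • ξ)) = fun _ => 0 := by
    funext t
    have h2 : ξ + t • ξ = (1 + t) • ξ := by rw [add_smul, one_smul]
    rw [h2, (θ k).smul y hy ξ hξ, hz, mul_zero]
  rw [h1]
  simp

/-- the bounds on the unit vectors in one chart -/
theorem unit_one (hθ : LogPolar θ) (hb : b ∈ B) (a : Fin (N + 1)) : ∃ δ > 0, ∃ C > 0, ∀ y ξ : Fin (N + 1) → ℂ, y ∈ cone P → ‖y a‖ = 1 → (∀ c, ‖y c‖ ≤ 1) →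
    act B y ξ ∈ conTan P y → ξ b = 0 → ‖ξ‖ = 1 → (∀ k, ‖(θ k).toFun y ξ‖ ≤ C) ∧ ∃ k, δ ≤ ‖(θ k).toFun y ξ‖ := by
  choose e A hA using fun k => (θ k).regular a
  have key : ∀ y ξ : Fin (N + 1) → ℂ, y ∈ cone P → ‖y a‖ = 1 → act B y ξ ∈ conTan P y → ∀ k, ‖(θ k).toFun y ξ‖ = ‖eval (pt y ξ) (A k)‖ := by
    intro y ξ hy hya hξ k
    have h1 := congrArg norm (hA k y hy ξ hξ)
    rw [norm_mul, norm_pow, hya, one_pow, one_mul] at h1
    exact h1
  obtain ⟨δ, hδ, C, hC, h⟩ := two_bounds (isCompact_US P B b a) (g := fun k z => ‖eval z (A k)‖) (fun k => (MvPolynomial.continuous_eval (A k)).norm)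
    (fun k y => norm_nonneg _) (fun z hz => by
      obtain ⟨z1, z2, z3, z4, z5, z6⟩ := hz
      have hpt : pt (fun c => z (Sum.inl c)) (fun c => z (Sum.inr c)) = z := by
        funext s
        rcases s with s | s <;> rfl
      have hy : (fun c => z (Sum.inl c)) ∈ cone P := ⟨fun h0 => by
        have h1 := congrFun h0 a
        simp only [Pi.zero_apply] at h1
        rw [h1, norm_zero] at z1
        exact zero_ne_one z1, z5⟩
      have h0 : (fun c => z (Sum.inr c)) ≠ 0 := fun h0 => by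
        rw [h0, norm_zero] at z4
        exact zero_ne_one z4
      obtain ⟨k, hk⟩ := exists_ne hθ hb hy z6 z3 h0
      refine ⟨k, ?_⟩
      have h2 := key _ _ hy z1 z6 k
      rw [hpt] at h2
      rw [← h2]
      exact norm_ne_zero_iff.2 hk)
  refine ⟨δ, hδ, C, hC, fun y ξ hy hya hyc hξ hξb hξ1 => ?_⟩
  obtain ⟨h1, k, h2⟩ := h (pt y ξ) ⟨hya, hyc, hξb, hξ1, hy.2, hξ⟩
  refine ⟨fun k => ?_, k, ?_⟩
  · rw [key y ξ hy hya hξ k]
    exact h1 k
  · rw [key y ξ hy hya hξ k]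
    exact h2

theorem unit_bd (hθ : LogPolar θ) (hb : b ∈ B) : ∃ δ > 0, ∃ C > 0, ∀ y ξ : Fin (N + 1) → ℂ, y ∈ cone P → ‖y‖ = 1 →
    act B y ξ ∈ conTan P y → ξ b = 0 → ‖ξ‖ = 1 → (∀ k, ‖(θ k).toFun y ξ‖ ≤ C) ∧ ∃ k, δ ≤ ‖(θ k).toFun y ξ‖ := by
  choose δ hδ C hC h using fun a => unit_one (θ := θ) (P := P) hθ hb a
  refine ⟨(∑ a, (δ a)⁻¹)⁻¹, inv_pos.2 (Finset.sum_pos (fun a _ => inv_pos.2 (hδ a)) ⟨b, Finset.mem_univ b⟩), ∑ a, C a,
    Finset.sum_pos (fun a _ => hC a) ⟨b, Finset.mem_univ b⟩, fun y ξ hy hy1 hξ hξb hξ1 => ?_⟩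
  obtain ⟨a, -, ha⟩ := Finset.exists_max_image Finset.univ (fun b => ‖y b‖) ⟨b, Finset.mem_univ _⟩
  have hya : ‖y a‖ = 1 := by
    rw [← hy1]
    exact le_antisymm (norm_le_pi_norm y a) ((pi_norm_le_iff_of_nonneg (norm_nonneg _)).2 fun b => ha b (Finset.mem_univ b))
  obtain ⟨h1, k, h2⟩ := h a y ξ hy hya (fun c => by rw [← hy1]; exact norm_le_pi_norm y c) hξ hξb hξ1
  refine ⟨fun k => (h1 k).trans (Finset.single_le_sum (fun a _ => (hC a).le) (Finset.mem_univ a)), k, le_trans ?_ h2⟩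
  rw [inv_le_comm₀ (Finset.sum_pos (fun a _ => inv_pos.2 (hδ a)) ⟨b, Finset.mem_univ b⟩) (hδ a)]
  exact Finset.single_le_sum (f := fun a => (δ a)⁻¹) (fun a _ => (inv_pos.2 (hδ a)).le) (Finset.mem_univ a)

/-! ## scaling of the tangent spaces -/

theorem hg {d : ℕ} {Q : MvPolynomial (Fin (N + 1)) ℂ} (hQ : Q.IsHomogeneous d) (c : ℂ)
    (x : Fin (N + 1) → ℂ) : eval (c • x) Q = c ^ d * eval x Q := by
  rw [eval_eq', eval_eq', Finset.mul_sum]
  refine Finset.sum_congr rfl fun m hm => ?_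
  have h1 : ∏ i, (c • x) i ^ m i = c ^ d * ∏ i, x i ^ m i := by
    simp only [Pi.smul_apply, smul_eq_mul, mul_pow, Finset.prod_mul_distrib]
    rw [Finset.prod_pow_eq_pow_sum]
    have h2 := hQ (mem_support_iff.1 hm)
    rw [Finsupp.weight_apply, Finsupp.sum_fintype _ _ (by simp)] at h2
    simp only [Pi.one_apply, smul_eq_mul, mul_one] at h2
    rw [h2]
  rw [h1]
  ring

theorem conTan_le (hP : Homog P) {c : ℂ} (x : Fin (N + 1) → ℂ) : conTan P x ≤ conTan P (c • x) := by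
  intro v hv Q hQ
  have h1 : ∀ d, ∑ i, v i * eval (c • x) (pderiv i (homogeneousComponent d Q)) = 0 := by
    intro d
    have h2 := hv _ (hP Q hQ d)
    have h3 : ∀ i, eval (c • x) (pderiv i (homogeneousComponent d Q)) =
        c ^ (d - 1) * eval x (pderiv i (homogeneousComponent d Q)) := fun i =>
      hg ((homogeneousComponent_isHomogeneous d Q).pderiv) c x
    have h4 : ∑ i, v i * eval (c • x) (pderiv i (homogeneousComponent d Q)) =
        c ^ (d - 1) * ∑ i, v i * eval x (pderiv i (homogeneousComponent d Q)) := by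
      rw [Finset.mul_sum]
      refine Finset.sum_congr rfl fun i _ => ?_
      rw [h3]
      ring
    rw [h4, h2, mul_zero]
  have h5 : ∀ i, eval (c • x) (pderiv i Q) = ∑ d ∈ Finset.range (Q.totalDegree + 1),
      eval (c • x) (pderiv i (homogeneousComponent d Q)) := by
    intro i
    conv_lhs => rw [← sum_homogeneousComponent Q]
    rw [map_sum, map_sum]
  simp only [h5, Finset.mul_sum]
  rw [Finset.sum_comm]
  exact Finset.sum_eq_zero fun d _ => h1 d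

end Pool.Agent.GL.CX

end
end

section

/-!
# GL Grow: the height

`log ‖x‖ ≥ 0` as `x b = 1`.  `rho_path`: on the segment `|log ‖x‖|' ≤ ‖x'‖ / ‖x‖` (Gronwall: `GA.norm_le_exp` in `GA/GroCore`, or `‖x (z)‖ ≤ ‖x (z')‖ exp (Λ |z - z'|)` by a differential inequality) and
`|log |x i||' ≤ |x i'| / |x i|` in both directions; sum up.
-/

set_option autoImplicit false

open MvPolynomial Topology Filter Metric
open Pool.Agent.H13.SM (conTan cone)
open Pool.Agent.GG Pool.Agent.GA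

namespace Pool.Agent.GL

variable {N : ℕ} {P : Ideal (MvPolynomial (Fin (N + 1)) ℂ)} {B : Finset (Fin (N + 1))} {b : Fin (N + 1)}

private theorem one_le_norm {x : Fin (N + 1) → ℂ} (hx : x ∈ Uc P B b) : 1 ≤ ‖x‖ := by
  have h := norm_le_pi_norm x b
  rwa [hx.2.1, norm_one] at h

private theorem term_nonneg {x : Fin (N + 1) → ℂ} (hx : x ∈ Uc P B b) {i : Fin (N + 1)} (hi : i ∈ B) : 0 ≤ Real.log ‖x‖ - Real.log ‖x i‖ :=
  sub_nonneg.2 (Real.log_le_log (norm_pos_iff.2 (hx.2.2 i hi)) (norm_le_pi_norm x i))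

private theorem log_le_rho {x : Fin (N + 1) → ℂ} (hx : x ∈ Uc P B b) : Real.log ‖x‖ ≤ Rho B x :=
  le_add_of_nonneg_right (Finset.sum_nonneg fun _ hi => term_nonneg hx hi)

theorem rho_nonneg {x : Fin (N + 1) → ℂ} (hx : x ∈ Uc P B b) : 0 ≤ Rho B x :=
  (Real.log_nonneg (one_le_norm hx)).trans (log_le_rho hx)

theorem norm_le_rho {x : Fin (N + 1) → ℂ} (hx : x ∈ Uc P B b) : ‖x‖ ≤ Real.exp (Rho B x) := by
  rw [← Real.log_le_iff_le_exp (zero_lt_one.trans_le (one_le_norm hx))]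
  exact log_le_rho hx

theorem inv_le_rho {x : Fin (N + 1) → ℂ} (hx : x ∈ Uc P B b) {i : Fin (N + 1)} (hi : i ∈ B) : ‖x i‖⁻¹ ≤ Real.exp (Rho B x) := by
  have h0 : 0 < ‖x i‖ := norm_pos_iff.2 (hx.2.2 i hi)
  rw [← Real.log_le_iff_le_exp (inv_pos.2 h0), Real.log_inv]
  have h1 : Real.log ‖x‖ - Real.log ‖x i‖ ≤ ∑ i ∈ B, (Real.log ‖x‖ - Real.log ‖x i‖) :=
    Finset.single_le_sum (f := fun i => Real.log ‖x‖ - Real.log ‖x i‖) (fun j hj => term_nonneg hx hj) hi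
  have h2 := Real.log_nonneg (one_le_norm hx)
  unfold Rho
  linarith

theorem LL_nonneg (x v : Fin (N + 1) → ℂ) : 0 ≤ LL B x v :=
  add_nonneg (div_nonneg (norm_nonneg _) (norm_nonneg _)) (Finset.sum_nonneg fun _ _ => div_nonneg (norm_nonneg _) (norm_nonneg _))

private theorem norm_div_le_LL (x v : Fin (N + 1) → ℂ) : ‖v‖ / ‖x‖ ≤ LL B x v :=
  le_add_of_nonneg_right (Finset.sum_nonneg fun _ _ => div_nonneg (norm_nonneg _) (norm_nonneg _))

private theorem sum_le_LL (x v : Fin (N + 1) → ℂ) : ∑ i ∈ B, ‖v i‖ / ‖x i‖ ≤ LL B x v :=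
  le_add_of_nonneg_left (div_nonneg (norm_nonneg _) (norm_nonneg _))

theorem norm_le_LL {x : Fin (N + 1) → ℂ} (hx : x ∈ Uc P B b) (v : Fin (N + 1) → ℂ) : ‖v‖ ≤ LL B x v * Real.exp (Rho B x) := by
  have h0 : 0 < ‖x‖ := zero_lt_one.trans_le (one_le_norm hx)
  calc ‖v‖ = ‖v‖ / ‖x‖ * ‖x‖ := (div_mul_cancel₀ _ h0.ne').symm
    _ ≤ LL B x v * Real.exp (Rho B x) := mul_le_mul (norm_div_le_LL x v) (norm_le_rho hx) h0.le (LL_nonneg x v)

/-- the points of the phase space with bounded height and length are in a compact set -/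
theorem ePt_bound (B : Finset (Fin (N + 1))) (R L : ℝ) : ∃ M : ℝ, ∀ (P : Ideal (MvPolynomial (Fin (N + 1)) ℂ)) (b : Fin (N + 1)), ∀ x ∈ Uc P B b, ∀ v : Fin (N + 1) → ℂ,
    Rho B x ≤ R → LL B x v ≤ L → ‖ePt B x v‖ ≤ M := by
  refine ⟨Real.exp R + Real.exp R ^ B.card + |L| * Real.exp R + Real.exp R ^ B.card * |L|, fun P b x hx v hR hL => ?_⟩
  have hE := Real.exp_pos R
  have hE' : 0 < Real.exp R ^ B.card := pow_pos hE _
  have hL0 : 0 ≤ |L| := abs_nonneg L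
  have a1 : 0 ≤ |L| * Real.exp R := by positivity
  have a2 : 0 ≤ Real.exp R ^ B.card * |L| := by positivity
  have hRR : Real.exp (Rho B x) ≤ Real.exp R := Real.exp_le_exp.2 hR
  have hLL : LL B x v ≤ |L| := hL.trans (le_abs_self L)
  have h1 : ∀ i, ‖x i‖ ≤ Real.exp R := fun i => (norm_le_pi_norm x i).trans ((norm_le_rho hx).trans hRR)
  have h2 : ‖(∏ i ∈ B, x i)⁻¹‖ ≤ Real.exp R ^ B.card := by
    rw [norm_inv, norm_prod, ← Finset.prod_inv_distrib]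
    refine (Finset.prod_le_prod (fun i _ => inv_nonneg.2 (norm_nonneg _)) fun i hi => (inv_le_rho hx hi).trans hRR).trans (le_of_eq ?_)
    rw [Finset.prod_const]
  have h3 : ∀ i, ‖v i‖ ≤ |L| * Real.exp R := fun i =>
    (norm_le_pi_norm v i).trans ((norm_le_LL hx v).trans (mul_le_mul hLL hRR (Real.exp_pos _).le hL0))
  have h4 : ‖-((∏ i ∈ B, x i)⁻¹ * ∑ i ∈ B, (x i)⁻¹ * v i)‖ ≤ Real.exp R ^ B.card * |L| := by
    rw [norm_neg, norm_mul]
    refine mul_le_mul h2 ?_ (norm_nonneg _) hE'.le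
    refine (norm_sum_le _ _).trans (le_trans (le_of_eq (Finset.sum_congr rfl fun i _ => ?_)) ((sum_le_LL x v).trans hLL))
    rw [norm_mul, norm_inv, div_eq_inv_mul]
  rw [pi_norm_le_iff_of_nonneg (by linarith)]
  rintro (i | i)
  · show ‖emb B x i‖ ≤ _
    unfold emb
    refine Fin.lastCases ?_ (fun i => ?_) i
    · rw [Fin.snoc_last]
      linarith
    · rw [Fin.snoc_castSucc]
      linarith [h1 i]
  · show ‖embV B x v i‖ ≤ _
    unfold embV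
    refine Fin.lastCases ?_ (fun i => ?_) i
    · rw [Fin.snoc_last]
      linarith
    · rw [Fin.snoc_castSucc]
      linarith [h3 i]

private theorem seg_le {E : Type*} [NormedAddCommGroup E] [NormedSpace ℂ E] {X : ℂ → E} {W : Set ℂ} (hW : Convex ℝ W)
    (hX : ∀ z ∈ W, DifferentiableAt ℂ X z) {Λ : ℝ} (h : ∀ z ∈ W, ‖deriv X z‖ ≤ Λ * ‖X z‖) {z z' : ℂ} (hz : z ∈ W) (hz' : z' ∈ W) :
    ‖X z‖ ≤ ‖X z'‖ * Real.exp (Λ * ‖z - z'‖) := by
  have hmem : ∀ t ∈ Set.Icc (0 : ℝ) 1, z' + t * (z - z') ∈ W := by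
    intro t ht
    have h1 := hW.add_smul_sub_mem hz' hz ht
    rwa [Complex.real_smul] at h1
  have hγ : ∀ t : ℝ, HasDerivAt (fun t : ℝ => z' + t * (z - z')) (z - z') t := by
    intro t
    have h1 : HasDerivAt (fun t : ℝ => (t : ℂ)) 1 t := Complex.ofRealCLM.hasDerivAt
    have h2 := (h1.mul_const (z - z')).const_add z'
    rwa [one_mul] at h2
  have h1 := norm_le_exp (E := E) (f := fun t : ℝ => X (z' + t * (z - z'))) (f' := fun t : ℝ => (z - z') • deriv X (z' + t * (z - z')))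
    (k := fun _ => Λ * ‖z - z'‖) zero_le_one (fun t ht => HasDerivAt.scomp (𝕜' := ℂ) t (hX _ (hmem t ht)).hasDerivAt (hγ t)) continuousOn_const (by
      intro t ht
      rw [norm_smul]
      have h2 := mul_le_mul_of_nonneg_left (h _ (hmem t ht)) (norm_nonneg (z - z'))
      linarith [h2, mul_comm (‖z - z'‖) (Λ * ‖X (z' + t * (z - z'))‖)])
  simpa using h1

theorem rho_path {x : ℂ → Fin (N + 1) → ℂ} {W : Set ℂ} (hW : Convex ℝ W) (hx : ∀ z ∈ W, AnalyticAt ℂ x z ∧ x z ∈ Uc P B b) {Λ : ℝ}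
    (hΛ : ∀ z ∈ W, LL B (x z) (deriv x z) ≤ Λ) {z z' : ℂ} (hz : z ∈ W) (hz' : z' ∈ W) : Rho B (x z) ≤ Rho B (x z') + (B.card + 2) * Λ * ‖z - z'‖ := by
  have hn : ∀ z ∈ W, 0 < ‖x z‖ := fun z hz => zero_lt_one.trans_le (one_le_norm (hx z hz).2)
  have h1 : Real.log ‖x z‖ ≤ Real.log ‖x z'‖ + Λ * ‖z - z'‖ := by
    have h2 := seg_le hW (fun z hz => (hx z hz).1.differentiableAt) (Λ := Λ) (fun z hz => by
      rw [← div_le_iff₀ (hn z hz)]
      exact (norm_div_le_LL _ _).trans (hΛ z hz)) hz hz'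
    have h3 := Real.log_le_log (hn z hz) h2
    rwa [Real.log_mul (hn z' hz').ne' (Real.exp_pos _).ne', Real.log_exp] at h3
  -- the product of the coordinates
  set PR : ℂ → ℂ := fun z => ∏ i ∈ B, x z i with hPR
  have hP0 : ∀ z ∈ W, PR z ≠ 0 := fun z hz => Finset.prod_ne_zero_iff.2 fun i hi => (hx z hz).2.2.2 i hi
  have hd : ∀ z ∈ W, ∀ i, HasDerivAt (fun w => x w i) (deriv x z i) z := fun z hz i =>
    (hasDerivAt_pi.1 (hx z hz).1.differentiableAt.hasDerivAt) i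
  have hPd : ∀ z ∈ W, HasDerivAt PR (PR z * ∑ i ∈ B, deriv x z i / x z i) z := by
    intro z hz
    have h2 := HasDerivAt.fun_finsetProd (u := B) (f := fun i w => x w i) (f' := fun i => deriv x z i) (x := z) fun i _ => hd z hz i
    refine h2.congr_deriv ?_
    rw [Finset.mul_sum]
    refine Finset.sum_congr rfl fun i hi => ?_
    rw [hPR, smul_eq_mul]
    simp only
    rw [← Finset.mul_prod_erase B (fun i => x z i) hi]
    field_simp [(hx z hz).2.2.2 i hi]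
  have h2 : Real.log ‖PR z'‖ ≤ Real.log ‖PR z‖ + Λ * ‖z - z'‖ := by
    have h3 := seg_le hW (X := PR) (fun z hz => (hPd z hz).differentiableAt) (Λ := Λ) (fun z hz => by
      rw [(hPd z hz).deriv, norm_mul, mul_comm]
      refine mul_le_mul_of_nonneg_right ?_ (norm_nonneg _)
      refine (norm_sum_le _ _).trans (le_trans (le_of_eq (Finset.sum_congr rfl fun i _ => ?_)) ((sum_le_LL _ _).trans (hΛ z hz)))
      rw [norm_div]) hz' hz
    have h4 := Real.log_le_log (norm_pos_iff.2 (hP0 z' hz')) h3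
    rwa [Real.log_mul (norm_pos_iff.2 (hP0 z hz)).ne' (Real.exp_pos _).ne', Real.log_exp, norm_sub_rev z' z] at h4
  have hR : ∀ z ∈ W, Rho B (x z) = (B.card + 1) * Real.log ‖x z‖ - Real.log ‖PR z‖ := by
    intro z hz
    rw [hPR]
    simp only
    rw [norm_prod, Real.log_prod fun i hi => (norm_pos_iff.2 ((hx z hz).2.2.2 i hi)).ne']
    unfold Rho
    rw [Finset.sum_sub_distrib, Finset.sum_const, nsmul_eq_mul]
    ring
  rw [hR z hz, hR z' hz']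
  have h3 : ((B.card : ℝ) + 1) * Real.log ‖x z‖ ≤ (B.card + 1) * (Real.log ‖x z'‖ + Λ * ‖z - z'‖) := mul_le_mul_of_nonneg_left h1 (by positivity)
  linarith

end Pool.Agent.GL

end

section

/-!
# GL NaA: nonautonomous holomorphic equations with parameters, local and uniform

`G_l (x, x') = C_l (z, s)` for all `l` (overdetermined).  If `det ∂_v G_I ≠ 0` at a point then `x'' = (∂_v G_I)⁻¹ (∂_z C_I - ∂_x G_I x')`: a vector field on the space of the `(z, s, x, v)` (`z' = 1`, `s' = 0`),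
`GG.exists_flowG`, `GG.ode_uniqueG`.  Compactness of `{(z, s, y) : z ∈ closure Ω, ‖s‖ ≤ ρ, y ∈ K, G (y) = C (z, s)}`: one radius `r` for all points.  A solution at `q` is, near `q`, the flow of its initial values
(`(Φ (q.1, s), ∂Φ)` for `s` near `q.2`), the flow extends it to `|z - q.1| < r`, and all equations `G_l = C_l` hold there by the identity theorem in `z`.
-/

set_option autoImplicit false

open MvPolynomial Topology Filter Metric
open Pool.Agent.GG Pool.Agent.GA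

namespace Pool.Agent.GL

variable {N d : ℕ} {ι : Type}

/-! ## the extended phase space -/

private abbrev Ex (N d : ℕ) : Type := Unit ⊕ (Fin d ⊕ Ph N)

private def pk (z : ℂ) (s : Fin d → ℂ) (y : Ph N → ℂ) : Ex N d → ℂ := Sum.elim (fun _ => z) (Sum.elim s y)

private def prq (Y : Ex N d → ℂ) : ℂ × (Fin d → ℂ) := (Y (Sum.inl ()), fun j => Y (Sum.inr (Sum.inl j)))

private def pry (Y : Ex N d → ℂ) : Ph N → ℂ := fun a => Y (Sum.inr (Sum.inr a))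

private noncomputable def Dz (C : ℂ × (Fin d → ℂ) → ℂ) (q : ℂ × (Fin d → ℂ)) : ℂ := fderiv ℂ C q ((1 : ℂ), (0 : Fin d → ℂ))

private noncomputable def accN (G : ι → MvPolynomial (Ph N) ℂ) (C : ι → ℂ × (Fin d → ℂ) → ℂ) (I : Fin (N + 1) → ι) (q : ℂ × (Fin d → ℂ)) (y : Ph N → ℂ) :
    Fin (N + 1) → ℂ :=
  fun b => (∑ l, eval y ((vmat G I).adjugate b l) * (eval y (rhs G I l) + Dz (C (I l)) q)) / eval y (vdet G I)

private noncomputable def Wn (G : ι → MvPolynomial (Ph N) ℂ) (C : ι → ℂ × (Fin d → ℂ) → ℂ) (I : Fin (N + 1) → ι) (Y : Ex N d → ℂ) : Ex N d → ℂ :=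
  Sum.elim (fun _ => 1) (Sum.elim (fun _ => 0) (Sum.elim (fun b => pry Y (Sum.inr b)) (accN G C I (prq Y) (pry Y))))

private theorem dist_pk {z z' : ℂ} {s s' : Fin d → ℂ} {y y' : Ph N → ℂ} {r : ℝ} (hr : 0 < r) (h1 : dist z z' < r) (h2 : dist s s' < r)
    (h3 : dist y y' < r) : dist (pk z s y : Ex N d → ℂ) (pk z' s' y') < r := by
  rw [dist_pi_lt_iff hr]
  rintro (a | a | a)
  · exact h1
  · exact (dist_pi_lt_iff hr).1 h2 a
  · exact (dist_pi_lt_iff hr).1 h3 a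

private theorem dist_pry (Y Y' : Ex N d → ℂ) : dist (pry Y) (pry Y') ≤ dist Y Y' := by
  rw [dist_pi_le_iff dist_nonneg]
  intro a
  exact dist_le_pi_dist Y Y' (Sum.inr (Sum.inr a))

private theorem pry_an (Y : Ex N d → ℂ) : AnalyticAt ℂ (pry : (Ex N d → ℂ) → Ph N → ℂ) Y := by
  rw [analyticAt_pi_iff]
  intro a
  exact (ContinuousLinearMap.proj (R := ℂ) (φ := fun _ : Ex N d => ℂ) (Sum.inr (Sum.inr a))).analyticAt Y

private theorem prq_an (Y : Ex N d → ℂ) : AnalyticAt ℂ (prq : (Ex N d → ℂ) → ℂ × (Fin d → ℂ)) Y := by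
  refine AnalyticAt.prod ?_ ?_
  · exact (ContinuousLinearMap.proj (R := ℂ) (φ := fun _ : Ex N d => ℂ) (Sum.inl ())).analyticAt Y
  · rw [analyticAt_pi_iff]
    intro a
    exact (ContinuousLinearMap.proj (R := ℂ) (φ := fun _ : Ex N d => ℂ) (Sum.inr (Sum.inl a))).analyticAt Y

private theorem eval_an {E : Type*} [NormedAddCommGroup E] [NormedSpace ℂ E] {σ : Type*} [Fintype σ] {y : E → σ → ℂ} {t : E} (hy : AnalyticAt ℂ y t)
    (g : MvPolynomial σ ℂ) : AnalyticAt ℂ (fun s => eval (y s) g) t :=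
  AnalyticAt.comp (g := fun y : σ → ℂ => eval y g) (f := y) (AnalyticOnNhd.eval_mvPolynomial g (y t) (Set.mem_univ _)) hy

private theorem Dz_an {C : ℂ × (Fin d → ℂ) → ℂ} {q : ℂ × (Fin d → ℂ)} (hC : AnalyticAt ℂ C q) : AnalyticAt ℂ (Dz C) q :=
  AnalyticAt.comp (g := fun L : (ℂ × (Fin d → ℂ)) →L[ℂ] ℂ => L ((1 : ℂ), (0 : Fin d → ℂ))) (f := fderiv ℂ C)
    ((ContinuousLinearMap.apply ℂ ℂ ((1 : ℂ), (0 : Fin d → ℂ))).analyticAt _) hC.fderiv

private theorem Wn_an {G : ι → MvPolynomial (Ph N) ℂ} {C : ι → ℂ × (Fin d → ℂ) → ℂ} {I : Fin (N + 1) → ι} {Y : Ex N d → ℂ}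
    (hC : ∀ l, AnalyticAt ℂ (C l) (prq Y)) (hI : eval (pry Y) (vdet G I) ≠ 0) : AnalyticAt ℂ (Wn G C I) Y := by
  rw [analyticAt_pi_iff]
  rintro (a | a | a | b)
  · exact analyticAt_const
  · exact analyticAt_const
  · exact (ContinuousLinearMap.proj (R := ℂ) (φ := fun _ : Ex N d => ℂ) (Sum.inr (Sum.inr (Sum.inr a)))).analyticAt Y
  · have h1 : ∀ g : MvPolynomial (Ph N) ℂ, AnalyticAt ℂ (fun Y : Ex N d → ℂ => eval (pry Y) g) Y := fun g => eval_an (pry_an Y) g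
    have h2 : ∀ l, AnalyticAt ℂ (fun Y : Ex N d → ℂ => Dz (C (I l)) (prq Y)) Y := fun l =>
      AnalyticAt.comp (g := Dz (C (I l))) (f := prq) (Dz_an (hC (I l))) (prq_an Y)
    show AnalyticAt ℂ (fun Y : Ex N d → ℂ => (∑ l, eval (pry Y) ((vmat G I).adjugate b l) * (eval (pry Y) (rhs G I l) + Dz (C (I l)) (prq Y))) /
      eval (pry Y) (vdet G I)) Y
    refine AnalyticAt.div ?_ (h1 _) hI
    refine Finset.analyticAt_fun_sum _ fun l _ => ?_
    exact (h1 _).mul ((h1 _).add (h2 l))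

/-! ## solutions of the equations solve the differential equation -/

/-- the chain rule for polynomials -/
private theorem hasDerivAt_evalN {σ : Type*} [Fintype σ] [DecidableEq σ] {y : ℂ → σ → ℂ} {y' : σ → ℂ} {s : ℂ} (hy : HasDerivAt y y' s)
    (g : MvPolynomial σ ℂ) : HasDerivAt (fun s => eval (y s) g) (∑ i, eval (y s) (pderiv i g) * y' i) s := by
  induction g using MvPolynomial.induction_on with
  | C a =>
    simp only [eval_C, pderiv_C, map_zero, zero_mul, Finset.sum_const_zero]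
    exact hasDerivAt_const s a
  | add p q hp hq =>
    simp only [map_add, add_mul, Finset.sum_add_distrib]
    exact hp.add hq
  | mul_X p i hp =>
    have h1 : HasDerivAt (fun s => y s i) (y' i) s := hasDerivAt_pi.1 hy i
    have h2 := hp.mul h1
    have h3 : (∑ j, eval (y s) (pderiv j (p * X i)) * y' j) = (∑ j, eval (y s) (pderiv j p) * y' j) * y s i + eval (y s) p * y' i := by
      have h4 : ∀ j, eval (y s) (pderiv j (p * X i)) * y' j =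
          eval (y s) (pderiv j p) * y' j * y s i + (if j = i then eval (y s) p * y' j else 0) := by
        intro j
        rw [Derivation.leibniz, pderiv_X]
        by_cases hj : j = i
        · subst hj
          simp
          ring
        · rw [Pi.single_eq_of_ne (Ne.symm hj)]
          simp [hj]
          ring
      rw [Finset.sum_congr rfl fun j _ => h4 j, Finset.sum_add_distrib, ← Finset.sum_mul]
      simp
    rw [h3]
    have h5 : (fun s => eval (y s) (p * X i)) = (fun s => eval (y s) p) * fun s => y s i := by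
      funext s
      simp
    rw [h5]
    exact h2

private theorem path_der {x : ℂ → Fin (N + 1) → ℂ} {s : ℂ} (h : AnalyticAt ℂ x s) :
    HasDerivAt (fun s => pt (x s) (deriv x s)) (pt (deriv x s) (deriv (deriv x) s)) s := by
  rw [hasDerivAt_pi]
  rintro (b | b)
  · exact hasDerivAt_pi.1 h.differentiableAt.hasDerivAt b
  · exact hasDerivAt_pi.1 h.deriv.differentiableAt.hasDerivAt b

/-- the acceleration -/
private theorem acc_of_eq {G : ι → MvPolynomial (Ph N) ℂ} {C : ι → ℂ × (Fin d → ℂ) → ℂ} {I : Fin (N + 1) → ι} {x : ℂ → Fin (N + 1) → ℂ} {z : ℂ}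
    {s : Fin d → ℂ} (hx : AnalyticAt ℂ x z) (hC : ∀ l, AnalyticAt ℂ (C l) (z, s))
    (he : ∀ᶠ w in 𝓝 z, ∀ l, eval (pt (x w) (deriv x w)) (G l) = C l (w, s)) (hI : eval (pt (x z) (deriv x z)) (vdet G I) ≠ 0) :
    deriv (deriv x) z = accN G C I (z, s) (pt (x z) (deriv x z)) := by
  obtain ⟨A, hA⟩ : ∃ A : Matrix (Fin (N + 1)) (Fin (N + 1)) ℂ, A = (vmat G I).map (eval (pt (x z) (deriv x z))) := ⟨_, rfl⟩
  have hy := path_der hx
  have h2 : A.mulVec (deriv (deriv x) z) = fun l => eval (pt (x z) (deriv x z)) (rhs G I l) + Dz (C (I l)) (z, s) := by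
    funext l
    have h3 := hasDerivAt_evalN hy (G (I l))
    have hline : HasDerivAt (fun w : ℂ => (w, s)) ((1 : ℂ), (0 : Fin d → ℂ)) z := (hasDerivAt_id z).prodMk (hasDerivAt_const z s)
    have hc : HasDerivAt (fun w => C (I l) (w, s)) (Dz (C (I l)) (z, s)) z := by
      have h5 := (hC (I l)).differentiableAt.hasFDerivAt.comp_hasDerivAt z hline
      exact h5
    have h4 := h3.unique (hc.congr_of_eventuallyEq (he.mono fun w hw => hw (I l)))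
    rw [Fintype.sum_sum_type] at h4
    have h5 : A.mulVec (deriv (deriv x) z) l =
        ∑ b, eval (pt (x z) (deriv x z)) (pderiv (Sum.inr b) (G (I l))) * deriv (deriv x) z b := by
      rw [hA]
      rfl
    have h6 : (∑ b, eval (pt (x z) (deriv x z)) (pderiv (Sum.inl b) (G (I l)) * X (Sum.inr b))) =
        ∑ b, eval (pt (x z) (deriv x z)) (pderiv (Sum.inl b) (G (I l))) * deriv x z b := by
      refine Finset.sum_congr rfl fun b _ => ?_
      rw [map_mul, eval_X]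
      rfl
    rw [h5, rhs, map_neg, map_sum, h6]
    have h7 : (∑ b, eval (pt (x z) (deriv x z)) (pderiv (Sum.inl b) (G (I l))) * deriv x z b) +
        ∑ b, eval (pt (x z) (deriv x z)) (pderiv (Sum.inr b) (G (I l))) * deriv (deriv x) z b = Dz (C (I l)) (z, s) := h4
    rw [← h7]
    ring
  have hdet : A.det = eval (pt (x z) (deriv x z)) (vdet G I) := by
    rw [hA, vdet]
    exact ((eval (pt (x z) (deriv x z))).map_det (vmat G I)).symm
  have h3 : A.adjugate.mulVec (fun l => eval (pt (x z) (deriv x z)) (rhs G I l) + Dz (C (I l)) (z, s)) = A.det • deriv (deriv x) z := by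
    rw [← h2, Matrix.mulVec_mulVec, Matrix.adjugate_mul, Matrix.smul_mulVec, Matrix.one_mulVec]
  funext b
  have h4 : (vmat G I).adjugate.map (eval (pt (x z) (deriv x z))) = A.adjugate := by
    rw [hA]
    exact (eval (pt (x z) (deriv x z))).map_adjugate (vmat G I)
  have h5 := congrFun h3 b
  have h6 : A.adjugate.mulVec (fun l => eval (pt (x z) (deriv x z)) (rhs G I l) + Dz (C (I l)) (z, s)) b =
      ∑ l, eval (pt (x z) (deriv x z)) ((vmat G I).adjugate b l) * (eval (pt (x z) (deriv x z)) (rhs G I l) + Dz (C (I l)) (z, s)) := by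
    rw [← h4]
    rfl
  rw [h6] at h5
  show deriv (deriv x) z b = (∑ l, eval (pt (x z) (deriv x z)) ((vmat G I).adjugate b l) * (eval (pt (x z) (deriv x z)) (rhs G I l) + Dz (C (I l)) (z, s))) /
    eval (pt (x z) (deriv x z)) (vdet G I)
  rw [h5, hdet, Pi.smul_apply, smul_eq_mul, mul_div_cancel_left₀ _ hI]

/-- the lifted curve solves the differential equation -/
private theorem lift_ode {G : ι → MvPolynomial (Ph N) ℂ} {C : ι → ℂ × (Fin d → ℂ) → ℂ} {I : Fin (N + 1) → ι} {x : ℂ → Fin (N + 1) → ℂ} {z : ℂ}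
    {s : Fin d → ℂ} (hx : AnalyticAt ℂ x z) (hC : ∀ l, AnalyticAt ℂ (C l) (z, s))
    (he : ∀ᶠ w in 𝓝 z, ∀ l, eval (pt (x w) (deriv x w)) (G l) = C l (w, s)) (hI : eval (pt (x z) (deriv x z)) (vdet G I) ≠ 0) :
    HasDerivAt (fun w => pk w s (pt (x w) (deriv x w))) (Wn G C I (pk z s (pt (x z) (deriv x z)))) z := by
  rw [hasDerivAt_pi]
  rintro (a | a | a | b)
  · exact hasDerivAt_id z
  · exact hasDerivAt_const z (s a)
  · exact hasDerivAt_pi.1 hx.differentiableAt.hasDerivAt a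
  · show HasDerivAt (fun w => deriv x w b) (accN G C I (z, s) (pt (x z) (deriv x z)) b) z
    rw [← acc_of_eq hx hC he hI]
    exact hasDerivAt_pi.1 hx.deriv.differentiableAt.hasDerivAt b

/-- the partial derivative in `z` -/
private theorem dz_an {Φ : ℂ × (Fin d → ℂ) → Fin (N + 1) → ℂ} {q : ℂ × (Fin d → ℂ)} (h : AnalyticAt ℂ Φ q) :
    AnalyticAt ℂ (fun p => deriv (fun z => Φ (z, p.2)) p.1) q := by
  have h1 : (fun p => fderiv ℂ Φ p ((1 : ℂ), (0 : Fin d → ℂ))) =ᶠ[𝓝 q] fun p => deriv (fun z => Φ (z, p.2)) p.1 := by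
    filter_upwards [h.eventually_analyticAt] with p hp
    have hline : HasDerivAt (fun w : ℂ => (w, p.2)) ((1 : ℂ), (0 : Fin d → ℂ)) p.1 := (hasDerivAt_id p.1).prodMk (hasDerivAt_const p.1 p.2)
    have h2 : HasFDerivAt Φ (fderiv ℂ Φ p) (p.1, p.2) := hp.differentiableAt.hasFDerivAt
    exact (h2.comp_hasDerivAt p.1 hline).deriv.symm
  refine AnalyticAt.congr ?_ h1
  exact AnalyticAt.comp (g := fun L : (ℂ × (Fin d → ℂ)) →L[ℂ] (Fin (N + 1) → ℂ) => L ((1 : ℂ), (0 : Fin d → ℂ))) (f := fderiv ℂ Φ)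
    ((ContinuousLinearMap.apply ℂ (Fin (N + 1) → ℂ) ((1 : ℂ), (0 : Fin d → ℂ))).analyticAt _) h.fderiv

private theorem slice_an {E F : Type*} [NormedAddCommGroup E] [NormedSpace ℂ E] [NormedAddCommGroup F] [NormedSpace ℂ F] {Φ : ℂ × E → F} {z : ℂ} {s : E}
    (h : AnalyticAt ℂ Φ (z, s)) : AnalyticAt ℂ (fun w => Φ (w, s)) z :=
  AnalyticAt.comp (g := Φ) (f := fun w : ℂ => (w, s)) h (analyticAt_id.prod analyticAt_const)

/-- a box around one point -/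
private theorem box [Finite ι] (G : ι → MvPolynomial (Ph N) ℂ) (C : ι → ℂ × (Fin d → ℂ) → ℂ) {q₀ : ℂ × (Fin d → ℂ)} {y₀ : Ph N → ℂ}
    (hC : ∀ l, AnalyticAt ℂ (C l) q₀) {I : Fin (N + 1) → ι} (hI : eval y₀ (vdet G I) ≠ 0) :
    ∃ r > 0, ∀ q, dist q q₀ < r → ∀ Φ : ℂ × (Fin d → ℂ) → Fin (N + 1) → ℂ, NSol G C Φ q →
      dist (pt (Φ q) (deriv (fun z => Φ (z, q.2)) q.1)) y₀ < r →
      ∃ Ψ : ℂ × (Fin d → ℂ) → Fin (N + 1) → ℂ, (∀ᶠ p in 𝓝 q, Ψ p = Φ p) ∧ ∃ δ > 0, ∀ p : ℂ × (Fin d → ℂ), dist p.1 q.1 < r → dist p.2 q.2 < δ → NSol G C Ψ p := by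
  obtain ⟨r₀, hr₀, H, hHa, hH0, hHd⟩ := exists_flowG (Wn_an (G := G) (C := C) (I := I) (Y := pk q₀.1 q₀.2 y₀) hC hI)
  obtain ⟨r₁, hr₁, hB₁⟩ : ∃ r₁ > 0, ∀ q ∈ ball q₀ r₁, ∀ l, AnalyticAt ℂ (C l) q := by
    have h1 : ∀ᶠ q in 𝓝 q₀, ∀ l, AnalyticAt ℂ (C l) q := eventually_all.2 fun l => (hC l).eventually_analyticAt
    exact Metric.eventually_nhds_iff_ball.1 h1
  obtain ⟨r₂, hr₂, hB₂⟩ : ∃ r₂ > 0, ∀ y ∈ ball y₀ r₂, eval y (vdet G I) ≠ 0 := by
    have h1 : ContinuousAt (fun y : Ph N → ℂ => eval y (vdet G I)) y₀ := (AnalyticOnNhd.eval_mvPolynomial (vdet G I) y₀ (Set.mem_univ _)).continuousAt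
    exact Metric.eventually_nhds_iff_ball.1 (h1.eventually_ne hI)
  obtain ⟨r, hr⟩ : ∃ r : ℝ, r = min r₀ (min (r₁ / 2) r₂) := ⟨_, rfl⟩
  have hr0 : 0 < r := by rw [hr]; exact lt_min hr₀ (lt_min (half_pos hr₁) hr₂)
  have hrr₀ : r ≤ r₀ := by rw [hr]; exact min_le_left _ _
  have hrr₁ : r ≤ r₁ / 2 := by rw [hr]; exact (min_le_right _ _).trans (min_le_left _ _)
  have hrr₂ : r ≤ r₂ := by rw [hr]; exact (min_le_right _ _).trans (min_le_right _ _)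
  refine ⟨r, hr0, fun q hq Φ hΦ hy => ?_⟩
  rw [Prod.dist_eq, max_lt_iff] at hq
  -- the initial values
  obtain ⟨Yi, hYi⟩ : ∃ Yi : (Fin d → ℂ) → Ex N d → ℂ, Yi = fun s => pk q.1 s (pt (Φ (q.1, s)) (deriv (fun z => Φ (z, s)) q.1)) := ⟨_, rfl⟩
  have hΦa : ∀ᶠ p in 𝓝 q, AnalyticAt ℂ Φ p := hΦ.1.eventually_analyticAt
  have hYan : AnalyticAt ℂ Yi q.2 := by
    have h1 : AnalyticAt ℂ (fun s : Fin d → ℂ => (q.1, s)) q.2 := analyticAt_const.prod analyticAt_id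
    have h2 : AnalyticAt ℂ (fun s => Φ (q.1, s)) q.2 := AnalyticAt.comp (g := Φ) (f := fun s : Fin d → ℂ => (q.1, s)) hΦ.1 h1
    have h3 : AnalyticAt ℂ (fun s => deriv (fun z => Φ (z, s)) q.1) q.2 :=
      AnalyticAt.comp (g := fun p : ℂ × (Fin d → ℂ) => deriv (fun z => Φ (z, p.2)) p.1) (f := fun s : Fin d → ℂ => (q.1, s)) (dz_an hΦ.1) h1
    rw [hYi, analyticAt_pi_iff]
    rintro (a | a | a | b)
    · exact analyticAt_const
    · exact (ContinuousLinearMap.proj (R := ℂ) (φ := fun _ : Fin d => ℂ) a).analyticAt q.2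
    · exact (analyticAt_pi_iff.1 h2) a
    · exact (analyticAt_pi_iff.1 h3) b
  have hYq : Yi q.2 ∈ ball (pk q₀.1 q₀.2 y₀) r := by
    rw [hYi]
    exact dist_pk hr0 hq.1 hq.2 hy
  obtain ⟨δ₁, hδ₁, hδY⟩ : ∃ δ₁ > 0, ∀ s, dist s q.2 < δ₁ → Yi s ∈ ball (pk q₀.1 q₀.2 y₀) r ∧ AnalyticAt ℂ Yi s := by
    have h1 : ∀ᶠ s in 𝓝 q.2, Yi s ∈ ball (pk q₀.1 q₀.2 y₀) r := hYan.continuousAt.eventually_mem (isOpen_ball.mem_nhds hYq)
    obtain ⟨δ, hδ, h⟩ := Metric.eventually_nhds_iff_ball.1 (h1.and hYan.eventually_analyticAt)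
    exact ⟨δ, hδ, fun s hs => h s hs⟩
  obtain ⟨δ₂, hδ₂, hδΦ⟩ : ∃ δ₂ > 0, ∀ p : ℂ × (Fin d → ℂ), dist p.1 q.1 < δ₂ → dist p.2 q.2 < δ₂ →
      AnalyticAt ℂ Φ p ∧ ∀ l, eval (pt (Φ p) (deriv (fun z => Φ (z, p.2)) p.1)) (G l) = C l p := by
    obtain ⟨δ, hδ, h⟩ := Metric.eventually_nhds_iff_ball.1 (hΦa.and hΦ.2)
    refine ⟨δ, hδ, fun p h1 h2 => h p ?_⟩
    rw [mem_ball, Prod.dist_eq]
    exact max_lt h1 h2
  obtain ⟨δ, hδdef⟩ : ∃ δ : ℝ, δ = min (min δ₁ δ₂) r := ⟨_, rfl⟩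
  have hδ : 0 < δ := by rw [hδdef]; exact lt_min (lt_min hδ₁ hδ₂) hr0
  have hδ1 : δ ≤ δ₁ := by rw [hδdef]; exact (min_le_left _ _).trans (min_le_left _ _)
  have hδ2 : δ ≤ δ₂ := by rw [hδdef]; exact (min_le_left _ _).trans (min_le_right _ _)
  have hδr : δ ≤ r := by rw [hδdef]; exact min_le_right _ _
  -- the flow
  obtain ⟨Fl, hFl⟩ : ∃ Fl : ℂ × (Fin d → ℂ) → Ex N d → ℂ, Fl = fun p => H (p.1 - q.1, Yi p.2) := ⟨_, rfl⟩
  have hsh : ∀ z : ℂ, dist z q.1 < r → z - q.1 ∈ ball (0 : ℂ) r₀ := by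
    intro z hz
    rw [mem_ball_zero_iff, ← dist_eq_norm]
    exact hz.trans_le hrr₀
  have hYb : ∀ s, dist s q.2 < δ → Yi s ∈ ball (pk q₀.1 q₀.2 y₀) r₀ := fun s hs => ball_subset_ball hrr₀ (hδY s (hs.trans_le hδ1)).1
  have hFla : ∀ p : ℂ × (Fin d → ℂ), dist p.1 q.1 < r → dist p.2 q.2 < δ → AnalyticAt ℂ Fl p := by
    intro p h1 h2
    have h3 : AnalyticAt ℂ H (p.1 - q.1, Yi p.2) := hHa _ ⟨hsh _ h1, hYb _ h2⟩
    have h4 : AnalyticAt ℂ (fun p : ℂ × (Fin d → ℂ) => Yi p.2) p :=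
      AnalyticAt.comp (g := Yi) (f := fun p : ℂ × (Fin d → ℂ) => p.2) (hδY p.2 (h2.trans_le hδ1)).2 analyticAt_snd
    have h5 : AnalyticAt ℂ (fun p : ℂ × (Fin d → ℂ) => (p.1 - q.1, Yi p.2)) p := (analyticAt_fst.sub analyticAt_const).prod h4
    rw [hFl]
    exact AnalyticAt.comp (g := H) (f := fun p : ℂ × (Fin d → ℂ) => (p.1 - q.1, Yi p.2)) h3 h5
  have hFld : ∀ (z : ℂ) (s : Fin d → ℂ), dist z q.1 < r → dist s q.2 < δ → HasDerivAt (fun w => Fl (w, s)) (Wn G C I (Fl (z, s))) z := by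
    intro z s h1 h2
    have h3 := (hHd (Yi s) (hYb s h2) (z - q.1) (hsh z h1)).2
    have h4 : HasDerivAt (fun w : ℂ => w - q.1) 1 z := (hasDerivAt_id z).sub_const q.1
    have h5 := HasDerivAt.scomp z (h := fun w : ℂ => w - q.1) (g₁ := fun t => H (t, Yi s)) h3 h4
    rw [one_smul] at h5
    rw [hFl]
    exact h5
  have hFl0 : ∀ s, dist s q.2 < δ → Fl (q.1, s) = Yi s := by
    intro s hs
    rw [hFl]
    show H (q.1 - q.1, Yi s) = Yi s
    rw [sub_self]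
    exact hH0 _ (hYb s hs)
  obtain ⟨Ψ, hΨ⟩ : ∃ Ψ : ℂ × (Fin d → ℂ) → Fin (N + 1) → ℂ, Ψ = fun p b => Fl p (Sum.inr (Sum.inr (Sum.inl b))) := ⟨_, rfl⟩
  have hΨd : ∀ (z : ℂ) (s : Fin d → ℂ), dist z q.1 < r → dist s q.2 < δ →
      HasDerivAt (fun w => Ψ (w, s)) (fun b => Fl (z, s) (Sum.inr (Sum.inr (Sum.inr b)))) z := by
    intro z s h1 h2
    rw [hΨ, hasDerivAt_pi]
    intro b
    exact hasDerivAt_pi.1 (hFld z s h1 h2) (Sum.inr (Sum.inr (Sum.inl b)))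
  have hΨpt : ∀ p : ℂ × (Fin d → ℂ), dist p.1 q.1 < r → dist p.2 q.2 < δ → pt (Ψ p) (deriv (fun z => Ψ (z, p.2)) p.1) = pry (Fl p) := by
    intro p h1 h2
    rw [(hΨd p.1 p.2 h1 h2).deriv, hΨ]
    funext c
    rcases c with b | b
    · rfl
    · rfl
  have hΨa : ∀ p : ℂ × (Fin d → ℂ), dist p.1 q.1 < r → dist p.2 q.2 < δ → AnalyticAt ℂ Ψ p := by
    intro p h1 h2
    rw [hΨ, analyticAt_pi_iff]
    intro b
    exact (analyticAt_pi_iff.1 (hFla p h1 h2)) (Sum.inr (Sum.inr (Sum.inl b)))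
  -- uniqueness near the line `z = q.1`
  have hun : ∀ s, dist s q.2 < δ → ∀ᶠ z in 𝓝 q.1, pk z s (pt (Φ (z, s)) (deriv (fun z => Φ (z, s)) z)) = Fl (z, s) := by
    intro s hs
    have hs2 : dist s q.2 < δ₂ := hs.trans_le hδ2
    have hV := (hHd (Yi s) (hYb s hs) 0 (mem_ball_self hr₀)).1
    rw [hH0 _ (hYb s hs)] at hV
    have hYs : pk q.1 s (pt (Φ (q.1, s)) (deriv (fun z => Φ (z, s)) q.1)) = Yi s := by rw [hYi]
    have hvd : eval (pt (Φ (q.1, s)) (deriv (fun z => Φ (z, s)) q.1)) (vdet G I) ≠ 0 := by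
      refine hB₂ _ ?_
      have h1 : dist (pry (Yi s)) (pry (pk q₀.1 q₀.2 y₀ : Ex N d → ℂ)) < r := (dist_pry _ _).trans_lt (hδY s (hs.trans_le hδ1)).1
      rw [← hYs] at h1
      exact lt_of_lt_of_le h1 hrr₂
    have hx : AnalyticAt ℂ (fun z => Φ (z, s)) q.1 := slice_an (hδΦ (q.1, s) (by rw [dist_self]; exact hδ₂) hs2).1
    have hvn : ∀ᶠ z in 𝓝 q.1, eval (pt (Φ (z, s)) (deriv (fun z => Φ (z, s)) z)) (vdet G I) ≠ 0 :=
      (hasDerivAt_evalN (path_der hx) (vdet G I)).continuousAt.eventually_ne hvd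
    refine ode_uniqueG (V := Wn G C I) (y₁ := fun z => pk z s (pt (Φ (z, s)) (deriv (fun z => Φ (z, s)) z))) (y₂ := fun z => Fl (z, s)) (t := q.1) ?_ ?_ ?_ ?_
    · show AnalyticAt ℂ (Wn G C I) (pk q.1 s (pt (Φ (q.1, s)) (deriv (fun z => Φ (z, s)) q.1)))
      rw [hYs]
      exact hV
    · show pk q.1 s (pt (Φ (q.1, s)) (deriv (fun z => Φ (z, s)) q.1)) = Fl (q.1, s)
      rw [hYs, hFl0 s hs]
    · filter_upwards [hvn, ball_mem_nhds q.1 (lt_min hδ₂ hr0)] with z h1 h2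
      have hz2 : dist z q.1 < δ₂ := lt_of_lt_of_le h2 (min_le_left _ _)
      have hzr : dist z q.1 < r := lt_of_lt_of_le h2 (min_le_right _ _)
      refine lift_ode (x := fun z => Φ (z, s)) (slice_an (hδΦ (z, s) hz2 hs2).1) ?_ ?_ h1
      · intro l
        refine hB₁ (z, s) ?_ l
        rw [mem_ball, Prod.dist_eq]
        refine max_lt ?_ ?_
        · calc dist z q₀.1 ≤ dist z q.1 + dist q.1 q₀.1 := dist_triangle _ _ _
            _ < r₁ := by linarith [hq.1]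
        · calc dist s q₀.2 ≤ dist s q.2 + dist q.2 q₀.2 := dist_triangle _ _ _
            _ < r₁ := by linarith [hq.2, hs.trans_le hδr]
      · filter_upwards [isOpen_ball.mem_nhds (show z ∈ ball q.1 δ₂ from hz2)] with w hw l
        exact (hδΦ (w, s) hw hs2).2 l
    · filter_upwards [ball_mem_nhds q.1 hr0] with z hz
      exact hFld z s hz hs
  -- identity theorem
  have hcb : IsPreconnected (ball q.1 (min δ r)) := (convex_ball _ _).isPreconnected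
  have hΨΦ : ∀ (z : ℂ) (s : Fin d → ℂ), dist z q.1 < δ → dist s q.2 < δ → Ψ (z, s) = Φ (z, s) := by
    intro z s hz hs
    have h1 : AnalyticOnNhd ℂ (fun w => Ψ (w, s)) (ball q.1 δ) := fun w hw => slice_an (hΨa (w, s) (lt_of_lt_of_le hw hδr) hs)
    have h2 : AnalyticOnNhd ℂ (fun w => Φ (w, s)) (ball q.1 δ) := fun w hw =>
      slice_an (hδΦ (w, s) (lt_of_lt_of_le hw hδ2) (hs.trans_le hδ2)).1
    have h3 : (fun w => Ψ (w, s)) =ᶠ[𝓝 q.1] fun w => Φ (w, s) := by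
      filter_upwards [hun s hs] with w hw
      rw [hΨ]
      funext b
      show Fl (w, s) (Sum.inr (Sum.inr (Sum.inl b))) = Φ (w, s) b
      rw [← hw]
      rfl
    exact h1.eqOn_of_preconnected_of_eventuallyEq h2 (convex_ball _ _).isPreconnected (mem_ball_self hδ) h3 hz
  refine ⟨Ψ, ?_, δ, hδ, fun p h1 h2 => ⟨hΨa p h1 h2, ?_⟩⟩
  · filter_upwards [ball_mem_nhds q hδ] with p hp
    rw [mem_ball, Prod.dist_eq, max_lt_iff] at hp
    exact hΨΦ p.1 p.2 hp.1 hp.2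
  · have hopen : ∀ᶠ p' in 𝓝 p, dist p'.1 q.1 < r ∧ dist p'.2 q.2 < δ := by
      have h3 : ContinuousAt (fun p' : ℂ × (Fin d → ℂ) => dist p'.1 q.1) p := by fun_prop
      have h4 : ContinuousAt (fun p' : ℂ × (Fin d → ℂ) => dist p'.2 q.2) p := by fun_prop
      exact (h3.eventually_lt continuousAt_const h1).and (h4.eventually_lt continuousAt_const h2)
    filter_upwards [hopen] with p' hp' l
    rw [hΨpt p' hp'.1 hp'.2]
    have h3 : AnalyticOnNhd ℂ (fun w => eval (pry (Fl (w, p'.2))) (G l)) (ball q.1 r) := by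
      intro w hw
      have h5 : AnalyticAt ℂ (fun w => Fl (w, p'.2)) w := slice_an (hFla (w, p'.2) hw hp'.2)
      exact eval_an (AnalyticAt.comp (g := pry) (f := fun w => Fl (w, p'.2)) (pry_an _) h5) (G l)
    have h4 : AnalyticOnNhd ℂ (fun w => C l (w, p'.2)) (ball q.1 r) := by
      intro w hw
      refine slice_an (hB₁ (w, p'.2) ?_ l)
      rw [mem_ball, Prod.dist_eq]
      refine max_lt ?_ ?_
      · calc dist w q₀.1 ≤ dist w q.1 + dist q.1 q₀.1 := dist_triangle _ _ _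
          _ < r₁ := by linarith [hq.1, mem_ball.1 hw]
      · calc dist p'.2 q₀.2 ≤ dist p'.2 q.2 + dist q.2 q₀.2 := dist_triangle _ _ _
          _ < r₁ := by linarith [hq.2, hp'.2.trans_le hδr]
    have h5 : (fun w => eval (pry (Fl (w, p'.2))) (G l)) =ᶠ[𝓝 q.1] fun w => C l (w, p'.2) := by
      filter_upwards [hun p'.2 hp'.2, ball_mem_nhds q.1 hδ₂] with w hw hwb
      rw [← hw]
      exact (hδΦ (w, p'.2) hwb (hp'.2.trans_le hδ2)).2 l
    exact h3.eqOn_of_preconnected_of_eventuallyEq h4 (convex_ball _ _).isPreconnected (mem_ball_self hr0) h5 hp'.1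

theorem unif_box [Finite ι] (G : ι → MvPolynomial (Ph N) ℂ) (C : ι → ℂ × (Fin d → ℂ) → ℂ) {Ω : Set ℂ} (hbd : Bornology.IsBounded Ω) {ρ : ℝ}
    (hC : ∀ l, ∀ q : ℂ × (Fin d → ℂ), q.1 ∈ closure Ω → ‖q.2‖ ≤ ρ → AnalyticAt ℂ (C l) q) {K : Set (Ph N → ℂ)} (hK : IsCompact K)
    (hreg : ∀ q : ℂ × (Fin d → ℂ), q.1 ∈ closure Ω → ‖q.2‖ ≤ ρ → ∀ y ∈ K, (∀ l, eval y (G l) = C l q) → ∃ I : Fin (N + 1) → ι, eval y (vdet G I) ≠ 0) :
    ∃ r > 0, ∀ q : ℂ × (Fin d → ℂ), q.1 ∈ closure Ω → ‖q.2‖ < ρ → ∀ Φ : ℂ × (Fin d → ℂ) → Fin (N + 1) → ℂ, NSol G C Φ q →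
      pt (Φ q) (deriv (fun z => Φ (z, q.2)) q.1) ∈ K →
      ∃ Ψ : ℂ × (Fin d → ℂ) → Fin (N + 1) → ℂ, (∀ᶠ p in 𝓝 q, Ψ p = Φ p) ∧ ∃ δ > 0, ∀ p : ℂ × (Fin d → ℂ), dist p.1 q.1 < r → dist p.2 q.2 < δ → NSol G C Ψ p := by
  classical
  obtain ⟨Q, hQ⟩ : ∃ Q : Set (ℂ × (Fin d → ℂ)), Q = closure Ω ×ˢ closedBall 0 ρ := ⟨_, rfl⟩
  have hQc : IsCompact Q := by rw [hQ]; exact (hbd.isCompact_closure).prod (isCompact_closedBall 0 ρ)
  have hQm : ∀ q : ℂ × (Fin d → ℂ), q ∈ Q ↔ q.1 ∈ closure Ω ∧ ‖q.2‖ ≤ ρ := by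
    intro q
    rw [hQ, Set.mem_prod, mem_closedBall_zero_iff]
  have hQK : IsCompact (Q ×ˢ K) := hQc.prod hK
  have hcompact : IsCompact {p : (ℂ × (Fin d → ℂ)) × (Ph N → ℂ) | p ∈ Q ×ˢ K ∧ ∀ l, eval p.2 (G l) = C l p.1} := by
    have h1 : ∀ l, ContinuousOn (fun p : (ℂ × (Fin d → ℂ)) × (Ph N → ℂ) => eval p.2 (G l) - C l p.1) (Q ×ˢ K) := by
      intro l
      refine ContinuousOn.sub ?_ ?_
      · have h2 : Continuous fun y : Ph N → ℂ => eval y (G l) := by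
          exact MvPolynomial.continuous_eval (G l)
        exact (h2.comp continuous_snd).continuousOn
      · have h2 : ContinuousOn (C l) Q := fun q hq => ((hC l q ((hQm q).1 hq).1 ((hQm q).1 hq).2).continuousAt).continuousWithinAt
        exact h2.comp continuous_fst.continuousOn fun p hp => hp.1
    have h2 : {p : (ℂ × (Fin d → ℂ)) × (Ph N → ℂ) | p ∈ Q ×ˢ K ∧ ∀ l, eval p.2 (G l) = C l p.1} =
        Q ×ˢ K ∩ ⋂ l, (Q ×ˢ K ∩ (fun p : (ℂ × (Fin d → ℂ)) × (Ph N → ℂ) => eval p.2 (G l) - C l p.1) ⁻¹' {0}) := by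
      ext p
      simp only [Set.mem_ofPred_eq, Set.mem_inter_iff, Set.mem_iInter, Set.mem_preimage, Set.mem_singleton_iff, sub_eq_zero]
      constructor
      · rintro ⟨h3, h4⟩
        exact ⟨h3, fun l => ⟨h3, h4 l⟩⟩
      · rintro ⟨h3, h4⟩
        exact ⟨h3, fun l => (h4 l).2⟩
    rw [h2]
    refine hQK.inter_right (isClosed_iInter fun l => ?_)
    exact (h1 l).preimage_isClosed_of_isClosed hQK.isClosed isClosed_singleton
  have key : ∃ r > 0, ∀ p ∈ {p : (ℂ × (Fin d → ℂ)) × (Ph N → ℂ) | p ∈ Q ×ˢ K ∧ ∀ l, eval p.2 (G l) = C l p.1},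
      ∀ Φ : ℂ × (Fin d → ℂ) → Fin (N + 1) → ℂ, NSol G C Φ p.1 → pt (Φ p.1) (deriv (fun z => Φ (z, p.1.2)) p.1.1) = p.2 →
      ∃ Ψ : ℂ × (Fin d → ℂ) → Fin (N + 1) → ℂ, (∀ᶠ p' in 𝓝 p.1, Ψ p' = Φ p') ∧
        ∃ δ > 0, ∀ p' : ℂ × (Fin d → ℂ), dist p'.1 p.1.1 < r → dist p'.2 p.1.2 < δ → NSol G C Ψ p' := by
    refine hcompact.induction_on (p := fun S => ∃ r > 0, ∀ p ∈ S,
      ∀ Φ : ℂ × (Fin d → ℂ) → Fin (N + 1) → ℂ, NSol G C Φ p.1 → pt (Φ p.1) (deriv (fun z => Φ (z, p.1.2)) p.1.1) = p.2 →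
      ∃ Ψ : ℂ × (Fin d → ℂ) → Fin (N + 1) → ℂ, (∀ᶠ p' in 𝓝 p.1, Ψ p' = Φ p') ∧
        ∃ δ > 0, ∀ p' : ℂ × (Fin d → ℂ), dist p'.1 p.1.1 < r → dist p'.2 p.1.2 < δ → NSol G C Ψ p') ?_ ?_ ?_ ?_
    · exact ⟨1, one_pos, fun p hp => absurd hp (Set.notMem_empty p)⟩
    · rintro S T hST ⟨r, hr, h⟩
      exact ⟨r, hr, fun p hp => h p (hST hp)⟩
    · rintro S T ⟨r, hr, h⟩ ⟨r', hr', h'⟩
      refine ⟨min r r', lt_min hr hr', fun p hp Φ h1 h2 => ?_⟩
      rcases hp with hp | hp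
      · obtain ⟨Ψ, e1, δ, hδ, e2⟩ := h p hp Φ h1 h2
        exact ⟨Ψ, e1, δ, hδ, fun p' h3 h4 => e2 p' (h3.trans_le (min_le_left _ _)) h4⟩
      · obtain ⟨Ψ, e1, δ, hδ, e2⟩ := h' p hp Φ h1 h2
        exact ⟨Ψ, e1, δ, hδ, fun p' h3 h4 => e2 p' (h3.trans_le (min_le_right _ _)) h4⟩
    · rintro ⟨q₀, y₀⟩ ⟨⟨hq, hy⟩, he⟩
      have hq1 := (hQm q₀).1 hq
      obtain ⟨I, hI⟩ := hreg q₀ hq1.1 hq1.2 y₀ hy he
      obtain ⟨r, hr, h⟩ := box G C (fun l => hC l q₀ hq1.1 hq1.2) hI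
      refine ⟨ball q₀ r ×ˢ ball y₀ r, mem_nhdsWithin_of_mem_nhds (prod_mem_nhds (ball_mem_nhds _ hr) (ball_mem_nhds _ hr)), r, hr, ?_⟩
      rintro ⟨q, y⟩ ⟨h1, h2⟩ Φ h3 h4
      refine h q h1 Φ h3 ?_
      show dist (pt (Φ q) (deriv (fun z => Φ (z, q.2)) q.1)) y₀ < r
      have h5 : pt (Φ q) (deriv (fun z => Φ (z, q.2)) q.1) = y := h4
      rw [h5]
      exact h2
  obtain ⟨r, hr, h⟩ := key
  refine ⟨r, hr, fun q hq1 hq2 Φ h1 h2 => ?_⟩
  refine h (q, pt (Φ q) (deriv (fun z => Φ (z, q.2)) q.1)) ⟨⟨(hQm q).2 ⟨hq1, hq2.le⟩, h2⟩, fun l => ?_⟩ Φ h1 rfl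
  exact h1.2.self_of_nhds l

end Pool.Agent.GL

end

section

/-!
# GL NaB: continuation of families of solutions on a bounded convex domain

For fixed `s₀` let `W_R = Ω ∩ ball w₀ R`.  By `unif_box` at `(w₀, s₀)` there is a family on `W_r × ball s₀ δ` (`Fam`).  If there is one on `W_R` then by `hin` (`W = W_R`) the values stay in `K`, so
`unif_box` gives solutions on the balls of radius `r` around finitely many points of `W_R`, for `s` near `s₀`; they fit together: if two balls meet, the middle of the centres is in `W_R` and in both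
balls.  So there is a family on `W_(R + r / 8)` (`fam_step`), and after finitely many steps on `Ω`.  The families for different `s₀` are equal by the identity theorem in `z`.
-/

set_option autoImplicit false

open MvPolynomial Topology Filter Metric
open Pool.Agent.GG Pool.Agent.GA

namespace Pool.Agent.GL

variable {N d : ℕ} {ι : Type}

private theorem NaB_slice {Φ : ℂ × (Fin d → ℂ) → Fin (N + 1) → ℂ} {z : ℂ} {s : Fin d → ℂ} (h : AnalyticAt ℂ Φ (z, s)) :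
    AnalyticAt ℂ (fun z => Φ (z, s)) z :=
  AnalyticAt.fun_comp (g := Φ) (f := fun z : ℂ => (z, s)) h (analyticAt_id.prod analyticAt_const)

private theorem NaB_congr {G : ι → MvPolynomial (Ph N) ℂ} {C : ι → ℂ × (Fin d → ℂ) → ℂ} {Φ Ψ : ℂ × (Fin d → ℂ) → Fin (N + 1) → ℂ} {q : ℂ × (Fin d → ℂ)}
    (h : NSol G C Φ q) (hΨ : ∀ᶠ p in 𝓝 q, Ψ p = Φ p) : NSol G C Ψ q := by
  have hΨ' : Φ =ᶠ[𝓝 q] Ψ := hΨ.mono fun p hp => hp.symm
  refine ⟨h.1.congr hΨ', ?_⟩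
  filter_upwards [h.2, hΨ.eventually_nhds] with p h1 h2 l
  have h3 : Tendsto (fun z : ℂ => (z, p.2)) (𝓝 p.1) (𝓝 p) := by
    have h4 : ContinuousAt (fun z : ℂ => (z, p.2)) p.1 := by fun_prop
    exact h4.tendsto
  have h5 : (fun z => Ψ (z, p.2)) =ᶠ[𝓝 p.1] fun z => Φ (z, p.2) := h3.eventually h2
  rw [h5.deriv_eq, h2.self_of_nhds]
  exact h1 l

private theorem NaB_eq {x y : ℂ → Fin (N + 1) → ℂ} {U : Set ℂ} (hU : Convex ℝ U) (hx : ∀ z ∈ U, AnalyticAt ℂ x z) (hy : ∀ z ∈ U, AnalyticAt ℂ y z) {a : ℂ}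
    (ha : a ∈ U) (h : ∀ᶠ z in 𝓝 a, x z = y z) {z : ℂ} (hz : z ∈ U) : x z = y z :=
  AnalyticOnNhd.eqOn_of_preconnected_of_eventuallyEq (f := x) (g := y) (U := U) hx hy hU.isPreconnected ha h hz

/-- a family of solutions on `W`, for the parameters near `s₀` -/
private def Fam (G : ι → MvPolynomial (Ph N) ℂ) (C : ι → ℂ × (Fin d → ℂ) → ℂ) (Φ₀ : ℂ × (Fin d → ℂ) → Fin (N + 1) → ℂ) (w₀ : ℂ) (s₀ : Fin d → ℂ)
    (W : Set ℂ) : Prop :=
  ∃ (Φ : ℂ × (Fin d → ℂ) → Fin (N + 1) → ℂ) (δ : ℝ), 0 < δ ∧ (∀ z ∈ W, ∀ s, dist s s₀ < δ → NSol G C Φ (z, s)) ∧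
    ∀ s, dist s s₀ < δ → ∀ᶠ z in 𝓝 w₀, Φ (z, s) = Φ₀ (z, s)

private theorem NaB_ev {Φ Ψ : ℂ × (Fin d → ℂ) → Fin (N + 1) → ℂ} {a : ℂ} {s₀ : Fin d → ℂ} (h : ∀ᶠ p in 𝓝 (a, s₀), Ψ p = Φ p) :
    ∃ δ > 0, ∀ s, dist s s₀ < δ → ∀ᶠ z in 𝓝 a, Ψ (z, s) = Φ (z, s) := by
  obtain ⟨ε, hε, h1⟩ := Metric.eventually_nhds_iff_ball.1 h
  refine ⟨ε, hε, fun s hs => ?_⟩
  filter_upwards [ball_mem_nhds a hε] with z hz
  refine h1 (z, s) ?_
  rw [mem_ball, Prod.dist_eq]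
  exact max_lt hz hs

private theorem fam_step {G : ι → MvPolynomial (Ph N) ℂ} {C : ι → ℂ × (Fin d → ℂ) → ℂ} {Φ₀ : ℂ × (Fin d → ℂ) → Fin (N + 1) → ℂ} {w₀ : ℂ}
    {s₀ : Fin d → ℂ} {r : ℝ} (hr : 0 < r) {W W' : Set ℂ} (hW : IsOpen W) (hWc : Convex ℝ W) (hWb : Bornology.IsBounded W) (hw : w₀ ∈ W) (hW' : IsOpen W')
    (hWW' : W ⊆ W') (hnear : ∀ z' ∈ W', ∃ z ∈ W, dist z' z < r / 4)
    (hbox : ∀ Φ : ℂ × (Fin d → ℂ) → Fin (N + 1) → ℂ, ∀ δ : ℝ, 0 < δ → (∀ z ∈ W, ∀ s, dist s s₀ < δ → NSol G C Φ (z, s)) →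
      (∀ s, dist s s₀ < δ → ∀ᶠ z in 𝓝 w₀, Φ (z, s) = Φ₀ (z, s)) → ∀ a ∈ W,
      ∃ Ψ : ℂ × (Fin d → ℂ) → Fin (N + 1) → ℂ, (∀ᶠ p in 𝓝 (a, s₀), Ψ p = Φ p) ∧ ∃ δ' > 0, ∀ p : ℂ × (Fin d → ℂ), dist p.1 a < r → dist p.2 s₀ < δ' →
        NSol G C Ψ p)
    (h : Fam G C Φ₀ w₀ s₀ W) : Fam G C Φ₀ w₀ s₀ W' := by
  obtain ⟨Φ, δ, hδ, hΦ, hΦ0⟩ := h
  have hex : ∀ a ∈ W, ∃ (Ψ : ℂ × (Fin d → ℂ) → Fin (N + 1) → ℂ) (δ' : ℝ), 0 < δ' ∧
      (∀ s, dist s s₀ < δ' → ∀ᶠ z in 𝓝 a, Ψ (z, s) = Φ (z, s)) ∧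
      ∀ p : ℂ × (Fin d → ℂ), dist p.1 a < r → dist p.2 s₀ < δ' → NSol G C Ψ p := by
    intro a ha
    obtain ⟨Ψ, h1, δ₁, hδ₁, h2⟩ := hbox Φ δ hδ hΦ hΦ0 a ha
    obtain ⟨δ₂, hδ₂, h3⟩ := NaB_ev h1
    exact ⟨Ψ, min δ₁ δ₂, lt_min hδ₁ hδ₂, fun s hs => h3 s (lt_of_lt_of_le hs (min_le_right _ _)),
      fun p hp hp' => h2 p hp (lt_of_lt_of_le hp' (min_le_left _ _))⟩
  choose! Ψ δ' hδ' hΨΦ hΨ using hex
  obtain ⟨t, htW, htf, htc⟩ := Metric.finite_approx_of_totallyBounded (hWb.isCompact_closure.totallyBounded.subset subset_closure) (r / 4) (by positivity)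
  have hcov : ∀ z ∈ W', ∃ a, a ∈ t ∧ dist z a < r / 2 := by
    intro z hz
    obtain ⟨z₁, hz₁, h1⟩ := hnear z hz
    obtain ⟨a, ha, h2⟩ := Set.mem_iUnion₂.1 (htc hz₁)
    refine ⟨a, ha, ?_⟩
    have h3 : dist z₁ a < r / 4 := h2
    have h4 := dist_triangle z z₁ a
    linarith
  choose! a hat had using hcov
  obtain ⟨ε, hε, hεδ, hεt⟩ : ∃ ε : ℝ, 0 < ε ∧ ε ≤ δ ∧ ∀ b ∈ t, ε ≤ δ' b := by
    have h1 : ∀ b ∈ t, ∀ᶠ ε in 𝓝[>] (0 : ℝ), ε ≤ δ' b := fun b hb =>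
      (eventually_le_nhds (hδ' b (htW hb))).filter_mono nhdsWithin_le_nhds
    have h2 : ∀ᶠ ε in 𝓝[>] (0 : ℝ), ∀ b ∈ t, ε ≤ δ' b := (eventually_all_finite htf).2 h1
    have h3 : ∀ᶠ ε in 𝓝[>] (0 : ℝ), ε ≤ δ := (eventually_le_nhds hδ).filter_mono nhdsWithin_le_nhds
    have h4 : ∀ᶠ ε in 𝓝[>] (0 : ℝ), 0 < ε := eventually_mem_nhdsWithin
    obtain ⟨ε, h5, h6, h7⟩ := (h4.and (h3.and h2)).exists
    exact ⟨ε, h5, h6, h7⟩
  -- `Ψ b = Φ` on `W`
  have hA : ∀ b ∈ t, ∀ s, dist s s₀ < ε → ∀ z ∈ W, dist z b < r → Ψ b (z, s) = Φ (z, s) := by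
    intro b hb s hs z hz hzb
    have hbW := htW hb
    exact NaB_eq (x := fun z => Ψ b (z, s)) (y := fun z => Φ (z, s)) (U := W ∩ ball b r) (hWc.inter (convex_ball b r))
      (fun w hw => NaB_slice (hΨ b hbW (w, s) hw.2 (lt_of_lt_of_le hs (hεt b hb))).1)
      (fun w hw => NaB_slice (hΦ w hw.1 s (lt_of_lt_of_le hs hεδ)).1) (a := b) ⟨hbW, mem_ball_self hr⟩
      (hΨΦ b hbW s (lt_of_lt_of_le hs (hεt b hb))) ⟨hz, hzb⟩
  -- compatibility
  have hB : ∀ b ∈ t, ∀ c ∈ t, ∀ s, dist s s₀ < ε → ∀ z, dist z b < r / 2 → dist z c < r / 2 → Ψ b (z, s) = Ψ c (z, s) := by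
    intro b hb c hc s hs z hzb hzc
    have hbc : dist b c < r := by
      have := dist_triangle_left b c z
      linarith
    have hm : midpoint ℝ b c ∈ W := hWc.midpoint_mem (htW hb) (htW hc)
    have hmb : dist (midpoint ℝ b c) b < r := by
      rw [dist_midpoint_left (𝕜 := ℝ)]
      norm_num
      linarith [dist_nonneg (x := b) (y := c)]
    have hmc : dist (midpoint ℝ b c) c < r := by
      rw [dist_midpoint_right (𝕜 := ℝ)]
      norm_num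
      linarith [dist_nonneg (x := b) (y := c)]
    refine NaB_eq (x := fun z => Ψ b (z, s)) (y := fun z => Ψ c (z, s)) (U := ball b r ∩ ball c r) ((convex_ball b r).inter (convex_ball c r))
      (fun w hw => NaB_slice (hΨ b (htW hb) (w, s) hw.1 (lt_of_lt_of_le hs (hεt b hb))).1)
      (fun w hw => NaB_slice (hΨ c (htW hc) (w, s) hw.2 (lt_of_lt_of_le hs (hεt c hc))).1) (a := midpoint ℝ b c) ⟨hmb, hmc⟩ ?_
      ⟨mem_ball.2 (by linarith), mem_ball.2 (by linarith)⟩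
    filter_upwards [hW.mem_nhds hm, isOpen_ball.mem_nhds (mem_ball.2 hmb), isOpen_ball.mem_nhds (mem_ball.2 hmc)] with w h1 h2 h3
    show Ψ b (w, s) = Ψ c (w, s)
    rw [hA b hb s hs w h1 h2, hA c hc s hs w h1 h3]
  have hloc : ∀ z ∈ W', ∀ s, dist s s₀ < ε → ∀ᶠ p in 𝓝 (z, s), Ψ (a p.1) p = Ψ (a z) p := by
    intro z hz s hs
    have h1 : ∀ᶠ p in 𝓝 ((z, s) : ℂ × (Fin d → ℂ)), p.1 ∈ W' ∧ dist p.1 (a z) < r / 2 := by
      have h2 : ∀ᶠ w in 𝓝 z, w ∈ W' ∧ dist w (a z) < r / 2 :=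
        (hW'.eventually_mem hz).and ((isOpen_ball.eventually_mem (mem_ball.2 (had z hz))).mono fun w h => h)
      exact (continuous_fst.tendsto ((z, s) : ℂ × (Fin d → ℂ))).eventually h2
    have h3 : ∀ᶠ p in 𝓝 ((z, s) : ℂ × (Fin d → ℂ)), dist p.2 s₀ < ε := by
      have h4 : ∀ᶠ u in 𝓝 s, dist u s₀ < ε := (isOpen_ball.eventually_mem (mem_ball.2 hs)).mono fun w h => h
      exact (continuous_snd.tendsto ((z, s) : ℂ × (Fin d → ℂ))).eventually h4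
    filter_upwards [h1, h3] with p h5 h6
    exact hB _ (hat _ h5.1) _ (hat z hz) p.2 h6 p.1 (had _ h5.1) h5.2
  refine ⟨fun p => Ψ (a p.1) p, ε, hε, fun z hz s hs => ?_, fun s hs => ?_⟩
  · refine NaB_congr (hΨ (a z) (htW (hat z hz)) (z, s) ?_ (lt_of_lt_of_le hs (hεt _ (hat z hz)))) (hloc z hz s hs)
    have := had z hz
    show dist z (a z) < r
    linarith
  · have hw' := hWW' hw
    filter_upwards [hΦ0 s (lt_of_lt_of_le hs hεδ), hW.mem_nhds hw] with z h1 h2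
    have h3 := had z (hWW' h2)
    show Ψ (a z) (z, s) = Φ₀ (z, s)
    rw [hA (a z) (hat z (hWW' h2)) s hs z h2 (by linarith), h1]

theorem na [Finite ι] (G : ι → MvPolynomial (Ph N) ℂ) (C : ι → ℂ × (Fin d → ℂ) → ℂ) {Ω : Set ℂ} (hΩ : IsOpen Ω) (hc : Convex ℝ Ω) (hbd : Bornology.IsBounded Ω)
    {w₀ : ℂ} (hw : w₀ ∈ Ω) {ρ : ℝ} (hρ : 0 < ρ)
    (hC : ∀ l, ∀ q : ℂ × (Fin d → ℂ), q.1 ∈ closure Ω → ‖q.2‖ ≤ ρ → AnalyticAt ℂ (C l) q) {K : Set (Ph N → ℂ)} (hK : IsCompact K)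
    (hreg : ∀ q : ℂ × (Fin d → ℂ), q.1 ∈ closure Ω → ‖q.2‖ ≤ ρ → ∀ y ∈ K, (∀ l, eval y (G l) = C l q) → ∃ I : Fin (N + 1) → ι, eval y (vdet G I) ≠ 0)
    {Φ₀ : ℂ × (Fin d → ℂ) → Fin (N + 1) → ℂ} (h₀ : ∀ s, ‖s‖ < ρ → NSol G C Φ₀ (w₀, s))
    (hin : ∀ s, ‖s‖ < ρ → ∀ W : Set ℂ, IsOpen W → Convex ℝ W → w₀ ∈ W → W ⊆ Ω → ∀ x : ℂ → Fin (N + 1) → ℂ,
      (∀ z ∈ W, AnalyticAt ℂ x z ∧ ∀ l, eval (pt (x z) (deriv x z)) (G l) = C l (z, s)) → (∀ᶠ z in 𝓝 w₀, x z = Φ₀ (z, s)) →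
      ∀ z ∈ W, pt (x z) (deriv x z) ∈ K) :
    ∃ Φ : ℂ × (Fin d → ℂ) → Fin (N + 1) → ℂ, (∀ q : ℂ × (Fin d → ℂ), q.1 ∈ Ω → ‖q.2‖ < ρ → NSol G C Φ q) ∧ ∀ s, ‖s‖ < ρ → ∀ᶠ z in 𝓝 w₀, Φ (z, s) = Φ₀ (z, s) := by
  obtain ⟨r, hr, hbox⟩ := unif_box G C hbd hC hK hreg
  have hfam : ∀ s₀ : Fin d → ℂ, ‖s₀‖ < ρ → Fam G C Φ₀ w₀ s₀ Ω := by
    intro s₀ hs₀
    -- the first family
    have hstart : Fam G C Φ₀ w₀ s₀ (Ω ∩ ball w₀ (r + ((0 : ℕ) : ℝ) * (r / 8))) := by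
      have h1 := h₀ s₀ hs₀
      have h2 : ∀ᶠ z in 𝓝 w₀, AnalyticAt ℂ (fun z => Φ₀ (z, s₀)) z ∧ ∀ l, eval (pt (Φ₀ (z, s₀)) (deriv (fun z => Φ₀ (z, s₀)) z)) (G l) = C l (z, s₀) := by
        have h3 : Tendsto (fun z : ℂ => (z, s₀)) (𝓝 w₀) (𝓝 (w₀, s₀)) := by
          have h4 : ContinuousAt (fun z : ℂ => (z, s₀)) w₀ := by fun_prop
          exact h4.tendsto
        exact (NaB_slice h1.1).eventually_analyticAt.and (h3.eventually h1.2)
      obtain ⟨ε, hε, h3⟩ := Metric.eventually_nhds_iff_ball.1 (h2.and (hΩ.mem_nhds hw : ∀ᶠ z in 𝓝 w₀, z ∈ Ω))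
      have h4 := hin s₀ hs₀ (ball w₀ ε) isOpen_ball (convex_ball _ _) (mem_ball_self hε) (fun z hz => (h3 z hz).2) (fun z => Φ₀ (z, s₀))
        (fun z hz => (h3 z hz).1) (Eventually.of_forall fun z => rfl) w₀ (mem_ball_self hε)
      obtain ⟨Ψ, h5, δ₁, hδ₁, h6⟩ := hbox (w₀, s₀) (subset_closure hw) hs₀ Φ₀ h1 h4
      obtain ⟨δ₂, hδ₂, h7⟩ := NaB_ev h5
      refine ⟨Ψ, min δ₁ δ₂, lt_min hδ₁ hδ₂, fun z hz s hs => ?_, fun s hs => h7 s (lt_of_lt_of_le hs (min_le_right _ _))⟩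
      have hz2 := mem_ball.1 hz.2
      exact h6 (z, s) (by simpa using hz2) (lt_of_lt_of_le hs (min_le_left _ _))
    have hsteps : ∀ k : ℕ, Fam G C Φ₀ w₀ s₀ (Ω ∩ ball w₀ (r + (k : ℝ) * (r / 8))) := by
      intro k
      induction k with
      | zero => exact hstart
      | succ k ih =>
        obtain ⟨R, hR⟩ : ∃ R : ℝ, R = r + (k : ℝ) * (r / 8) := ⟨_, rfl⟩
        have hRr : r ≤ R := by
          rw [hR]
          have : 0 ≤ (k : ℝ) * (r / 8) := by positivity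
          linarith
        have hR' : r + ((k + 1 : ℕ) : ℝ) * (r / 8) = R + r / 8 := by
          rw [hR]
          push_cast
          ring
        rw [hR']
        rw [← hR] at ih
        have hR0 : 0 < R := lt_of_lt_of_le hr hRr
        refine fam_step (W := Ω ∩ ball w₀ R) hr (hΩ.inter isOpen_ball) (hc.inter (convex_ball _ _)) (hbd.subset Set.inter_subset_left)
          ⟨hw, mem_ball_self hR0⟩ (hΩ.inter isOpen_ball) (Set.inter_subset_inter_right _ (ball_subset_ball (by linarith))) (fun z' hz' => ?_)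
          (fun Φ δ hδ h1 h2 a ha => ?_) ih
        · have hz1 : dist z' w₀ < R + r / 8 := mem_ball.1 hz'.2
          by_cases h1 : dist z' w₀ < R
          · exact ⟨z', ⟨hz'.1, mem_ball.2 h1⟩, by rw [dist_self]; positivity⟩
          · have hD : 0 < dist z' w₀ := by linarith
            obtain ⟨t, ht⟩ : ∃ t : ℝ, t = (R - r / 16) / dist z' w₀ := ⟨_, rfl⟩
            have ht0 : 0 ≤ t := by
              rw [ht]
              exact div_nonneg (by linarith) hD.le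
            have ht1 : t ≤ 1 := by
              rw [ht, div_le_one hD]
              linarith
            have hpt : w₀ + (t : ℂ) * (z' - w₀) ∈ Ω := by
              have h2 := hc.add_smul_sub_mem hw hz'.1 ⟨ht0, ht1⟩
              rwa [Complex.real_smul] at h2
            have htD : t * dist z' w₀ = R - r / 16 := by
              rw [ht]
              field_simp
            refine ⟨w₀ + (t : ℂ) * (z' - w₀), ⟨hpt, ?_⟩, ?_⟩
            · rw [mem_ball, dist_eq_norm, add_sub_cancel_left, norm_mul, Complex.norm_real, Real.norm_of_nonneg ht0, ← dist_eq_norm, htD]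
              linarith
            · have h3 : z' - (w₀ + (t : ℂ) * (z' - w₀)) = ((1 - t : ℝ) : ℂ) * (z' - w₀) := by
                push_cast
                ring
              rw [dist_eq_norm, h3, norm_mul, Complex.norm_real, Real.norm_of_nonneg (by linarith), ← dist_eq_norm, sub_mul, one_mul, htD]
              linarith
        · have h3 : ∀ z ∈ Ω ∩ ball w₀ R, AnalyticAt ℂ (fun z => Φ (z, s₀)) z ∧
              ∀ l, eval (pt (Φ (z, s₀)) (deriv (fun z => Φ (z, s₀)) z)) (G l) = C l (z, s₀) := fun z hz =>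
            ⟨NaB_slice (h1 z hz s₀ (by rwa [dist_self])).1, (h1 z hz s₀ (by rwa [dist_self])).2.self_of_nhds⟩
          have h4 := hin s₀ hs₀ (Ω ∩ ball w₀ R) (hΩ.inter isOpen_ball) (hc.inter (convex_ball _ _)) ⟨hw, mem_ball_self hR0⟩ Set.inter_subset_left
            (fun z => Φ (z, s₀)) h3 (h2 s₀ (by rwa [dist_self])) a ha
          exact hbox (a, s₀) (subset_closure ha.1) hs₀ Φ (h1 a ha s₀ (by rwa [dist_self])) h4
    obtain ⟨D, hD⟩ := hbd.subset_ball w₀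
    obtain ⟨k, hk⟩ := exists_nat_gt (D / (r / 8))
    have h1 : D ≤ r + (k : ℝ) * (r / 8) := by
      have h2 : D < k * (r / 8) := (div_lt_iff₀ (by positivity)).1 hk
      linarith
    have h2 : Ω ∩ ball w₀ (r + (k : ℝ) * (r / 8)) = Ω := Set.inter_eq_left.2 (hD.trans (ball_subset_ball h1))
    have h3 := hsteps k
    rwa [h2] at h3
  choose! Φ δ hδ hΦ hΦ0 using hfam
  have heq : ∀ s₀ s : Fin d → ℂ, ‖s₀‖ < ρ → ‖s‖ < ρ → dist s s₀ < δ s₀ → ∀ z ∈ Ω, Φ s (z, s) = Φ s₀ (z, s) := by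
    intro s₀ s hs₀ hs hss z hz
    have hself : dist s s < δ s := by
      rw [dist_self]
      exact hδ s hs
    refine NaB_eq (x := fun z => Φ s (z, s)) (y := fun z => Φ s₀ (z, s)) (U := Ω) hc (fun w hw => NaB_slice (hΦ s hs w hw s hself).1)
      (fun w hw => NaB_slice (hΦ s₀ hs₀ w hw s hss).1) (a := w₀) hw ?_ hz
    filter_upwards [hΦ0 s hs s hself, hΦ0 s₀ hs₀ s hss] with w h1 h2
    rw [h1, h2]
  refine ⟨fun p => Φ p.2 p, fun q hq hqρ => ?_, fun s hs => hΦ0 s hs s (by rw [dist_self]; exact hδ s hs)⟩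
  obtain ⟨z, s₀⟩ := q
  refine NaB_congr (hΦ s₀ hqρ z hq s₀ (by rw [dist_self]; exact hδ s₀ hqρ)) ?_
  have h1 : ∀ᶠ p in 𝓝 ((z, s₀) : ℂ × (Fin d → ℂ)), p.1 ∈ Ω := (continuous_fst.tendsto ((z, s₀) : ℂ × (Fin d → ℂ))).eventually (hΩ.mem_nhds hq)
  have h2 : ∀ᶠ p in 𝓝 ((z, s₀) : ℂ × (Fin d → ℂ)), dist p.2 s₀ < δ s₀ ∧ ‖p.2‖ < ρ := by
    have h3 : ∀ᶠ s in 𝓝 s₀, dist s s₀ < δ s₀ ∧ ‖s‖ < ρ := by
      have h4 : ∀ᶠ s in 𝓝 s₀, ‖s‖ < ρ := continuous_norm.continuousAt.eventually_lt continuousAt_const hqρ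
      exact ((isOpen_ball.eventually_mem (mem_ball_self (hδ s₀ hqρ))).mono fun w h => h).and h4
    exact (continuous_snd.tendsto ((z, s₀) : ℂ × (Fin d → ℂ))).eventually h3
  filter_upwards [h1, h2] with p h3 h4
  exact heq s₀ p.2 hqρ h4.2 h4.1 p.1 h3

end Pool.Agent.GL

end
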