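import Pool.Agent.H18.GGT.GL.ChA
import Pool.Agent.H18.GGT.M25
import Pool.Agent.H18.GGT.M45
import Pool.Agent.H18.GGT.M90

/-! The parts of this file: GL.ChB, GL.ChC, GL.Cmp, GL.Row, GL.MnU, GL.Tau. -/

section

/-!
# GL ChB: the family `gfamL`, second part

`of_gval`: from `y ∏ x_i = 1` the coordinates `x i`, `i ∈ B`, are not `0`, and `y` is the last coordinate of `emb`; the derivative of this equation gives the last coordinate of `embV`; then `eval_gfamL`.  `analyticAt_thv`: `LFrame.hA` (`exists_lframe`).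
-/

set_option autoImplicit false

open MvPolynomial Topology Filter Metric
open Pool.Agent.H13.SM (conTan cone)
open Pool.Agent.H62.FC (Homog)
open Pool.Agent.GG Pool.Agent.GA

namespace Pool.Agent.GL

variable {N : ℕ} {P : Ideal (MvPolynomial (Fin (N + 1)) ℂ)} {B : Finset (Fin (N + 1))} {J : ℕ} {m : Fin J → ℕ} {θ : ∀ k, LogSec P B (m k)} {b : Fin (N + 1)}

/-- a point of the cone, by generators of the ideal -/
theorem chB_cone {q : ℕ} {Q : Fin q → MvPolynomial (Fin (N + 1)) ℂ} (hspan : Ideal.span (Set.range Q) = P) {x : Fin (N + 1) → ℂ}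
    (h0 : x ≠ 0) (h : ∀ j, eval x (Q j) = 0) : x ∈ cone P := by
  refine ⟨h0, fun R hR => ?_⟩
  rw [← hspan] at hR
  have : Ideal.span (Set.range Q) ≤ RingHom.ker (eval x : MvPolynomial (Fin (N + 1)) ℂ →+* ℂ) := by
    rw [Ideal.span_le]
    rintro _ ⟨j, rfl⟩
    exact h j
  exact this hR

/-- a tangent vector of the cone, by generators of the ideal -/
theorem chB_tan {q : ℕ} {Q : Fin q → MvPolynomial (Fin (N + 1)) ℂ} (hspan : Ideal.span (Set.range Q) = P) {x v : Fin (N + 1) → ℂ}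
    (h : ∀ j, eval x (Q j) = 0) (h' : ∀ j, ∑ i, v i * eval x (pderiv i (Q j)) = 0) : v ∈ conTan P x := by
  intro R hR
  rw [← hspan] at hR
  have key : eval x R = 0 ∧ ∑ i, v i * eval x (pderiv i R) = 0 := by
    refine Submodule.span_induction (p := fun R _ => eval x R = 0 ∧ ∑ i, v i * eval x (pderiv i R) = 0) ?_ ?_ ?_ ?_ hR
    · rintro _ ⟨j, rfl⟩
      exact ⟨h j, h' j⟩
    · simp
    · rintro p q - - ⟨h1, h2⟩ ⟨h3, h4⟩
      refine ⟨by rw [map_add, h1, h3, add_zero], ?_⟩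
      simp only [map_add, mul_add, Finset.sum_add_distrib, h2, h4, add_zero]
    · rintro p q - ⟨h1, h2⟩
      refine ⟨by rw [smul_eq_mul, map_mul, h1, mul_zero], ?_⟩
      have : ∀ i, v i * eval x (pderiv i (p • q)) = eval x p * (v i * eval x (pderiv i q)) + (v i * eval x (pderiv i p)) * eval x q := by
        intro i
        rw [smul_eq_mul, Derivation.leibniz, map_add, smul_eq_mul, smul_eq_mul, map_mul, map_mul]
        ring
      simp only [this, h1, mul_zero, add_zero, ← Finset.mul_sum, h2]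
  exact key.2

/-- `∏_(l ≠ i) x_l = (x_i)⁻¹ ∏ x_l` -/
theorem chB_erase {x : Fin (N + 1) → ℂ} {i : Fin (N + 1)} (hi : i ∈ B) (h : x i ≠ 0) : ∏ l ∈ B.erase i, x l = (x i)⁻¹ * ∏ l ∈ B, x l := by
  rw [← Finset.mul_prod_erase B x hi, ← mul_assoc, inv_mul_cancel₀ h, one_mul]

theorem of_gval (f : LFrame θ b) {c : Fin J → ℂ} {y : Ph (N + 1) → ℂ} (h : ∀ l, eval y (gfamL f l) = gval c l) :
    ∃ x v, y = ePt B x v ∧ x ∈ Uc P B b ∧ v ∈ Tc P b x ∧ thv θ x v = c := by
  obtain ⟨x, hx⟩ : ∃ x : Fin (N + 1) → ℂ, x = fun i => y (Sum.inl i.castSucc) := ⟨_, rfl⟩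
  obtain ⟨v, hv⟩ : ∃ v : Fin (N + 1) → ℂ, v = fun i => y (Sum.inr i.castSucc) := ⟨_, rfl⟩
  obtain ⟨s, hs⟩ : ∃ s : ℂ, s = y (Sum.inl (Fin.last (N + 1))) := ⟨_, rfl⟩
  obtain ⟨t, ht⟩ : ∃ t : ℂ, t = y (Sum.inr (Fin.last (N + 1))) := ⟨_, rfl⟩
  have hxi : ∀ i : Fin (N + 1), y (Sum.inl i.castSucc) = x i := fun i => by rw [hx]
  have hvi : ∀ i : Fin (N + 1), y (Sum.inr i.castSucc) = v i := fun i => by rw [hv]
  have h1 : x b = 1 := by
    have := h (Sum.inl (Sum.inl (Sum.inl ())))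
    simpa [gfamL, gval, hxi] using this
  have h2 : v b = 0 := by
    have := h (Sum.inl (Sum.inl (Sum.inr ())))
    simpa [gfamL, gval, hvi] using this
  have hco : (y ∘ fun i : Fin (N + 1) => (Sum.inl i.castSucc : Ph (N + 1))) = x := by
    funext i
    exact hxi i
  have h3 : ∀ j, eval x (f.Q j) = 0 := fun j => by
    have := h (Sum.inl (Sum.inr (Sum.inl j)))
    simp only [gfamL, gval, Sum.elim_inl, Sum.elim_inr, eval_rename, hco] at this
    exact this
  have h4 : ∀ j, ∑ i, v i * eval x (pderiv i (f.Q j)) = 0 := fun j => by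
    have := h (Sum.inl (Sum.inr (Sum.inr j)))
    simp only [gfamL, gval, Sum.elim_inl, Sum.elim_inr, map_sum, map_mul, eval_rename, hco, eval_X, hvi] at this
    rw [← this]
    exact Finset.sum_congr rfl fun i _ => mul_comm _ _
  have h5 : s * ∏ l ∈ B, x l = 1 := by
    have := h (Sum.inr (Sum.inl (Sum.inl ())))
    simp only [gfamL, gval, Sum.elim_inl, Sum.elim_inr, map_mul, map_prod, eval_X, hxi, ← hs] at this
    exact this
  have h6 : t * ∏ l ∈ B, x l + s * ∑ i ∈ B, v i * ∏ l ∈ B.erase i, x l = 0 := by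
    have := h (Sum.inr (Sum.inl (Sum.inr ())))
    simp only [gfamL, gval, Sum.elim_inl, Sum.elim_inr, map_add, map_sum, map_mul, map_prod, eval_X, hxi, hvi, ← hs, ← ht] at this
    exact this
  have hp : ∏ l ∈ B, x l ≠ 0 := by
    intro h0
    rw [h0, mul_zero] at h5
    exact zero_ne_one h5
  have hne : ∀ i ∈ B, x i ≠ 0 := fun i hi => (Finset.prod_ne_zero_iff.1 hp) i hi
  have hsi : s = (∏ l ∈ B, x l)⁻¹ := eq_inv_of_mul_eq_one_left h5
  have hx0 : x ≠ 0 := by
    intro h0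
    rw [h0] at h1
    exact zero_ne_one h1
  have hsum : ∑ i ∈ B, v i * ∏ l ∈ B.erase i, x l = (∏ l ∈ B, x l) * ∑ i ∈ B, (x i)⁻¹ * v i := by
    rw [Finset.mul_sum]
    refine Finset.sum_congr rfl fun i hi => ?_
    rw [chB_erase hi (hne i hi)]
    ring
  have hti : t = -((∏ l ∈ B, x l)⁻¹ * ∑ i ∈ B, (x i)⁻¹ * v i) := by
    rw [hsum, ← mul_assoc, h5, one_mul] at h6
    have h7 : t = -(∑ i ∈ B, (x i)⁻¹ * v i) * (∏ l ∈ B, x l)⁻¹ := by
      rw [eq_mul_inv_iff_mul_eq₀ hp]
      exact eq_neg_of_add_eq_zero_left h6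
    rw [h7]
    ring
  have hy : y = ePt B x v := by
    funext p
    rcases p with i | i
    · refine Fin.lastCases ?_ (fun i => ?_) i
      · show y (Sum.inl (Fin.last (N + 1))) = emb B x (Fin.last (N + 1))
        unfold emb
        rw [Fin.snoc_last, ← hs, hsi]
      · show y (Sum.inl i.castSucc) = emb B x i.castSucc
        unfold emb
        rw [Fin.snoc_castSucc, hxi]
    · refine Fin.lastCases ?_ (fun i => ?_) i
      · show y (Sum.inr (Fin.last (N + 1))) = embV B x v (Fin.last (N + 1))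
        unfold embV
        rw [Fin.snoc_last, ← ht, hti]
      · show y (Sum.inr i.castSucc) = embV B x v i.castSucc
        unfold embV
        rw [Fin.snoc_castSucc, hvi]
  have hU : x ∈ Uc P B b := ⟨chB_cone f.span hx0 h3, h1, hne⟩
  have hT : v ∈ Tc P b x := ⟨chB_tan f.span h3 h4, h2⟩
  refine ⟨x, v, hy, hU, hT, ?_⟩
  funext k
  have h7 := h (Sum.inr (Sum.inr k))
  rw [hy, eval_gfamL f hU hT] at h7
  exact h7

theorem analyticAt_emb {x : ℂ → Fin (N + 1) → ℂ} {z : ℂ} (hx : AnalyticAt ℂ x z) (h : ∀ i ∈ B, x z i ≠ 0) : AnalyticAt ℂ (fun w => emb B (x w)) z := by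
  have hi : ∀ i, AnalyticAt ℂ (fun w => x w i) z := fun i => (analyticAt_pi_iff.1 hx) i
  refine AnalyticAt.pi fun j => ?_
  refine Fin.lastCases ?_ (fun i => ?_) j
  · have e : (fun w => emb B (x w) (Fin.last (N + 1))) = fun w => (∏ i ∈ B, x w i)⁻¹ := by
      funext w
      unfold emb
      rw [Fin.snoc_last]
    rw [e]
    exact (Finset.analyticAt_fun_prod B fun i _ => hi i).inv (Finset.prod_ne_zero_iff.2 h)
  · have e : (fun w => emb B (x w) i.castSucc) = fun w => x w i := by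
      funext w
      unfold emb
      rw [Fin.snoc_castSucc]
    rw [e]
    exact hi i

theorem deriv_emb {x : ℂ → Fin (N + 1) → ℂ} {z : ℂ} (hx : AnalyticAt ℂ x z) (h : ∀ i ∈ B, x z i ≠ 0) :
    deriv (fun w => emb B (x w)) z = embV B (x z) (deriv x z) := by
  have hi : ∀ i, HasDerivAt (fun w => x w i) (deriv x z i) z := fun i => (hasDerivAt_pi.1 hx.differentiableAt.hasDerivAt) i
  have hp : ∏ i ∈ B, x z i ≠ 0 := Finset.prod_ne_zero_iff.2 h
  refine (hasDerivAt_pi.2 fun j => ?_).deriv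
  refine Fin.lastCases ?_ (fun i => ?_) j
  · have e : (fun w => emb B (x w) (Fin.last (N + 1))) = fun w => (∏ i ∈ B, x w i)⁻¹ := by
      funext w
      unfold emb
      rw [Fin.snoc_last]
    have e2 : embV B (x z) (deriv x z) (Fin.last (N + 1)) = -(∑ i ∈ B, (∏ l ∈ B.erase i, x z l) • deriv x z i) / (∏ i ∈ B, x z i) ^ 2 := by
      unfold embV
      rw [Fin.snoc_last]
      have hsum : ∑ i ∈ B, (∏ l ∈ B.erase i, x z l) • deriv x z i = (∏ l ∈ B, x z l) * ∑ i ∈ B, (x z i)⁻¹ * deriv x z i := by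
        rw [Finset.mul_sum]
        refine Finset.sum_congr rfl fun i hi' => ?_
        rw [chB_erase hi' (h i hi'), smul_eq_mul]
        ring
      rw [hsum]
      field_simp
    rw [e, e2]
    exact (HasDerivAt.fun_finsetProd fun i _ => hi i).fun_inv hp
  · have e : (fun w => emb B (x w) i.castSucc) = fun w => x w i := by
      funext w
      unfold emb
      rw [Fin.snoc_castSucc]
    have e2 : embV B (x z) (deriv x z) i.castSucc = deriv x z i := by
      unfold embV
      rw [Fin.snoc_castSucc]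
    rw [e, e2]
    exact hi i

/-- a curve in the chart is tangent to it -/
theorem deriv_mem_Tc {x : ℂ → Fin (N + 1) → ℂ} {z : ℂ} (hx : AnalyticAt ℂ x z) (h : ∀ᶠ w in 𝓝 z, x w ∈ Uc P B b) : deriv x z ∈ Tc P b (x z) := by
  refine ⟨Chart_tan hx.differentiableAt (h.mono fun w hw => hw.1), ?_⟩
  have h1 : HasDerivAt (fun w => x w b) (deriv x z b) z := (hasDerivAt_pi.1 hx.differentiableAt.hasDerivAt) b
  have h2 : HasDerivAt (fun w => x w b) 0 z := by
    refine (hasDerivAt_const z (1 : ℂ)).congr_of_eventuallyEq ?_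
    filter_upwards [h] with w hw using hw.2.1
  exact h1.unique h2

/-- evaluation of a polynomial along analytic functions -/
theorem chB_eval {ι : Type} {g : ι → ℂ → ℂ} {z : ℂ} (hg : ∀ i, AnalyticAt ℂ (g i) z) (Q : MvPolynomial ι ℂ) : AnalyticAt ℂ (fun w => eval (fun i => g i w) Q) z := by
  induction Q using MvPolynomial.induction_on with
  | C a =>
    simp only [eval_C]
    exact analyticAt_const
  | add p q hp hq =>
    simp only [map_add]
    exact hp.add hq
  | mul_X p i hp =>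
    simp only [map_mul, eval_X]
    exact hp.mul (hg i)

theorem analyticAt_thv {x v : ℂ → Fin (N + 1) → ℂ} {z : ℂ} (hx : AnalyticAt ℂ x z) (hv : AnalyticAt ℂ v z) (h : ∀ᶠ w in 𝓝 z, x w ∈ Uc P B b ∧ v w ∈ Tc P b (x w))
    (k : Fin J) : AnalyticAt ℂ (fun w => thv θ (x w) (v w) k) z := by
  obtain ⟨f⟩ := exists_lframe θ b
  have hxi : ∀ i, AnalyticAt ℂ (fun w => x w i) z := fun i => (analyticAt_pi_iff.1 hx) i
  have hvi : ∀ i, AnalyticAt ℂ (fun w => v w i) z := fun i => (analyticAt_pi_iff.1 hv) i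
  have hz := h.self_of_nhds.1.2.2
  have h1 : AnalyticAt ℂ (fun w => eval (fun p : Ph N => pt (x w) (lv B (x w) (v w)) p) (f.A k)) z := by
    refine chB_eval (g := fun p w => pt (x w) (lv B (x w) (v w)) p) (fun p => ?_) _
    rcases p with i | i
    · exact hxi i
    · show AnalyticAt ℂ (fun w => lv B (x w) (v w) i) z
      unfold lv
      by_cases hi : i ∈ B
      · simp only [if_pos hi]
        exact ((hxi i).inv (hz i hi)).mul (hvi i)
      · simp only [if_neg hi]
        exact hvi i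
  refine h1.congr ?_
  filter_upwards [h] with w hw
  obtain ⟨⟨h2, h3, h4⟩, h5, h6⟩ := hw
  show eval (pt (x w) (lv B (x w) (v w))) (f.A k) = (θ k).toFun (x w) (lv B (x w) (v w))
  rw [f.hA k (x w) h2 h3]
  rw [act_lv h4]
  exact h5

end Pool.Agent.GL

end

section

/-!
# GL ChC: the family `gfamL`, third part

`lFam_iff`, `lFam_of_nSol`: `of_gval`, `eval_gfamL`, `deriv_emb` at the points near `q` (`z ↦ Φ (z, p.2)` is analytic).  `of_lhs`: `lhs (gfamL f l) = 0` for the first families of the index gives `V_b = 0`, `V ∈ conTan`, and the last coordinate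
(`x_b = 1`: `V_b`; `Q_j`: `conTan` by the generators; `y ∏ x_i`: the last coordinate).
-/

set_option autoImplicit false

open MvPolynomial Topology Filter Metric
open Pool.Agent.H13.SM (conTan cone)
open Pool.Agent.H62.FC (Homog)
open Pool.Agent.GG Pool.Agent.GA

namespace Pool.Agent.GL

variable {N : ℕ} {P : Ideal (MvPolynomial (Fin (N + 1)) ℂ)} {B : Finset (Fin (N + 1))} {J : ℕ} {m : Fin J → ℕ} {θ : ∀ k, LogSec P B (m k)} {b : Fin (N + 1)}

/-! ### the additional coordinate -/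

private theorem emb_castSucc (x : Fin (N + 1) → ℂ) (i : Fin (N + 1)) : emb B x i.castSucc = x i := by
  simp [emb]

private theorem emb_last (x : Fin (N + 1) → ℂ) : emb B x (Fin.last (N + 1)) = (∏ i ∈ B, x i)⁻¹ := by
  simp [emb]

private theorem embV_castSucc (x v : Fin (N + 1) → ℂ) (i : Fin (N + 1)) : embV B x v i.castSucc = v i := by
  simp [embV]

private theorem slice {d : ℕ} (p : ℂ × (Fin d → ℂ)) : AnalyticAt ℂ (fun z : ℂ => ((z, p.2) : ℂ × (Fin d → ℂ))) p.1 :=
  analyticAt_id.prod analyticAt_const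

theorem lFam_of_nSol (f : LFrame θ b) {d : ℕ} {c : ℂ × (Fin d → ℂ) → Fin J → ℂ} {Ψ : ℂ × (Fin d → ℂ) → Fin (N + 2) → ℂ} {q : ℂ × (Fin d → ℂ)}
    (h : NSol (gfamL f) (fun l p => gval (c p) l) Ψ q) : LFam θ b c (fun p i => Ψ p i.castSucc) q ∧ ∀ᶠ p in 𝓝 q, Ψ p = emb B (fun i => Ψ p i.castSucc) := by
  have hc : ∀ i, AnalyticAt ℂ (fun p => Ψ p i) q := fun i => (analyticAt_pi_iff.1 h.1) i
  have key : ∀ᶠ p in 𝓝 q, (fun i => Ψ p (Fin.castSucc i)) ∈ Uc P B b ∧ thv θ (fun i => Ψ p (Fin.castSucc i)) (deriv (fun z i => Ψ (z, p.2) (Fin.castSucc i)) p.1) = c p ∧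
      Ψ p = emb B (fun i => Ψ p i.castSucc) := by
    filter_upwards [h.2, h.1.eventually_analyticAt] with p hp ha
    obtain ⟨x, v, h1, h2, h3, h4⟩ := of_gval f hp
    have e1 : Ψ p = emb B x := funext fun j => congrFun h1 (Sum.inl j)
    have e2 : deriv (fun z => Ψ (z, p.2)) p.1 = embV B x v := funext fun j => congrFun h1 (Sum.inr j)
    have e3 : (fun i => Ψ p (Fin.castSucc i)) = x := funext fun i => by rw [e1, emb_castSucc]
    have hx : AnalyticAt ℂ (fun z => Ψ (z, p.2)) p.1 := ha.comp_of_eq (slice p) rfl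
    have hd : ∀ j, DifferentiableAt ℂ (fun z => Ψ (z, p.2) j) p.1 := fun j => ((analyticAt_pi_iff.1 hx) j).differentiableAt
    have e4 : deriv (fun z i => Ψ (z, p.2) (Fin.castSucc i)) p.1 = v := by
      rw [deriv_pi fun i => hd _]
      funext i
      have e5 := congrFun e2 i.castSucc
      rw [deriv_pi hd, embV_castSucc] at e5
      exact e5
    refine ⟨e3 ▸ h2, ?_, ?_⟩
    · rw [e3, e4, h4]
    · rw [e3, e1]
  refine ⟨⟨?_, key.mono fun p hp => ⟨hp.1, hp.2.1⟩⟩, key.mono fun p hp => hp.2.2⟩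
  rw [analyticAt_pi_iff]
  exact fun i => hc i.castSucc

/-! ### the linearised equations -/

section

variable {σ : Type} [Fintype σ]

/-- the derivative of `G` in the direction `W` at `y` -/
private noncomputable def dl (y W : σ → ℂ) (G : MvPolynomial σ ℂ) : ℂ := ∑ s, eval y (pderiv s G) * W s

private theorem dl_C (y W : σ → ℂ) (a : ℂ) : dl y W (C a) = 0 := by
  simp [dl]

private theorem dl_add (y W : σ → ℂ) (G H : MvPolynomial σ ℂ) : dl y W (G + H) = dl y W G + dl y W H := by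
  simp only [dl, map_add, add_mul, Finset.sum_add_distrib]

private theorem dl_mul (y W : σ → ℂ) (G H : MvPolynomial σ ℂ) : dl y W (G * H) = eval y G * dl y W H + eval y H * dl y W G := by
  simp only [dl, Derivation.leibniz, map_add, smul_eq_mul, map_mul, Finset.mul_sum, ← Finset.sum_add_distrib]
  refine Finset.sum_congr rfl fun s _ => ?_
  ring

private theorem dl_X (y W : σ → ℂ) (s : σ) : dl y W (X s) = W s := by
  classical
  simp only [dl, pderiv_X]
  rw [Finset.sum_eq_single s]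
  · simp
  · intro t _ ht
    rw [Pi.single_eq_of_ne (Ne.symm ht)]
    simp
  · intro h
    exact absurd (Finset.mem_univ _) h

private theorem dl_rename {τ : Type} [Fintype τ] (φ : τ → σ) (y W : σ → ℂ) (G : MvPolynomial τ ℂ) :
    dl y W (rename φ G) = dl (fun i => y (φ i)) (fun i => W (φ i)) G := by
  induction G using MvPolynomial.induction_on with
  | C a => rw [rename_C, dl_C, dl_C]
  | add p q hp hq => rw [map_add, dl_add, dl_add, hp, hq]
  | mul_X p i hp =>
    rw [map_mul, rename_X, dl_mul, dl_mul, hp, dl_X, dl_X, eval_X, eval_X, eval_rename]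
    rfl

private theorem dl_prod {τ : Type} (φ : τ → σ) (y W : σ → ℂ) (B : Finset τ) (h : ∀ i ∈ B, y (φ i) ≠ 0) :
    dl y W (∏ l ∈ B, X (φ l)) = (∏ l ∈ B, y (φ l)) * ∑ l ∈ B, (y (φ l))⁻¹ * W (φ l) := by
  classical
  induction B using Finset.induction_on with
  | empty => simp [dl]
  | insert a s ha ih =>
    have h1 : y (φ a) ≠ 0 := h a (Finset.mem_insert_self _ _)
    rw [Finset.prod_insert ha, Finset.prod_insert ha, Finset.sum_insert ha, dl_mul, dl_X, ih fun i hi => h i (Finset.mem_insert_of_mem hi), eval_X, map_prod]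
    simp only [eval_X]
    field_simp
    ring

end

private theorem lhs_eq (G : MvPolynomial (Ph (N + 1)) ℂ) (x V : ℂ → Fin (N + 2) → ℂ) (z : ℂ) :
    lhs G x V z = dl (pt (x z) (deriv x z)) (pt (V z) (deriv V z)) G := rfl

private theorem mem_conTan_gen {q : ℕ} {Q : Fin q → MvPolynomial (Fin (N + 1)) ℂ} (hspan : Ideal.span (Set.range Q) = P) {x v : Fin (N + 1) → ℂ}
    (h : ∀ j, eval x (Q j) = 0) (h' : ∀ j, ∑ i, v i * eval x (pderiv i (Q j)) = 0) : v ∈ conTan P x := by
  intro R hR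
  rw [← hspan] at hR
  have key : eval x R = 0 ∧ ∑ i, v i * eval x (pderiv i R) = 0 := by
    refine Submodule.span_induction (p := fun R _ => eval x R = 0 ∧ ∑ i, v i * eval x (pderiv i R) = 0) ?_ ?_ ?_ ?_ hR
    · rintro _ ⟨j, rfl⟩
      exact ⟨h j, h' j⟩
    · simp
    · rintro p q - - ⟨h1, h2⟩ ⟨h3, h4⟩
      refine ⟨by rw [map_add, h1, h3, add_zero], ?_⟩
      simp only [map_add, mul_add, Finset.sum_add_distrib, h2, h4, add_zero]
    · rintro p q - ⟨h1, h2⟩
      refine ⟨by rw [smul_eq_mul, map_mul, h1, mul_zero], ?_⟩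
      have : ∀ i, v i * eval x (pderiv i (p • q)) = eval x p * (v i * eval x (pderiv i q)) + (v i * eval x (pderiv i p)) * eval x q := by
        intro i
        rw [smul_eq_mul, Derivation.leibniz, map_add, smul_eq_mul, smul_eq_mul, map_mul, map_mul]
        ring
      simp only [this, h1, mul_zero, add_zero, ← Finset.mul_sum, h2]
  exact key.2

/-- a variation of the curve `emb B (F w)` comes from a variation of `F` -/
theorem of_lhs (f : LFrame θ b) {F : ℂ → Fin (N + 1) → ℂ} {V : ℂ → Fin (N + 2) → ℂ} {w : ℂ} (hF : AnalyticAt ℂ F w) (hU : ∀ᶠ z in 𝓝 w, F z ∈ Uc P B b)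
    (h : ∀ᶠ z in 𝓝 w, ∀ l, lhs (gfamL f l) (eF B F) V z = 0) :
    ∀ᶠ z in 𝓝 w, (fun i => V z (Fin.castSucc i)) ∈ Tc P b (F z) ∧ V z = embV B (F z) (fun i => V z (Fin.castSucc i)) := by
  have hQ : ∀ j, f.Q j ∈ P := by
    intro j
    have h1 : f.Q j ∈ Ideal.span (Set.range f.Q) := Ideal.subset_span ⟨j, rfl⟩
    rwa [f.span] at h1
  filter_upwards [hU, h] with z hz hl
  refine ⟨⟨?_, ?_⟩, ?_⟩
  · refine mem_conTan_gen f.span (fun j => hz.1.2 _ (hQ j)) fun j => ?_
    have h1 := hl (Sum.inl (Sum.inr (Sum.inl j)))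
    rw [lhs_eq] at h1
    have h2 : gfamL f (Sum.inl (Sum.inr (Sum.inl j))) = rename (fun i : Fin (N + 1) => (Sum.inl i.castSucc : Ph (N + 1))) (f.Q j) := rfl
    rw [h2, dl_rename] at h1
    rw [← h1, dl]
    refine Finset.sum_congr rfl fun i _ => ?_
    rw [mul_comm]
    congr 2
    congr 1
    funext i
    exact (emb_castSucc (B := B) (F z) i).symm
  · have h1 := hl (Sum.inl (Sum.inl (Sum.inl ())))
    rw [lhs_eq] at h1
    have h2 : gfamL f (Sum.inl (Sum.inl (Sum.inl ()))) = X (Sum.inl b.castSucc) := rfl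
    rw [h2, dl_X] at h1
    exact h1
  · have h1 := hl (Sum.inr (Sum.inl (Sum.inl ())))
    rw [lhs_eq] at h1
    have h2 : gfamL f (Sum.inr (Sum.inl (Sum.inl ()))) = X (Sum.inl (Fin.last (N + 1))) * ∏ l ∈ B, X (Sum.inl l.castSucc) := rfl
    have h3 : ∀ i : Fin (N + 1), (pt (eF B F z) (deriv (eF B F) z) : Ph (N + 1) → ℂ) (Sum.inl i.castSucc) = F z i := fun i => emb_castSucc (B := B) (F z) i
    have h4 : (pt (eF B F z) (deriv (eF B F) z) : Ph (N + 1) → ℂ) (Sum.inl (Fin.last (N + 1))) = (∏ i ∈ B, F z i)⁻¹ := emb_last (B := B) (F z)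
    have h5 : ∀ i ∈ B, (pt (eF B F z) (deriv (eF B F) z) : Ph (N + 1) → ℂ) (Sum.inl i.castSucc) ≠ 0 := fun i hi => by
      rw [h3]
      exact hz.2.2 i hi
    rw [h2, dl_mul, dl_X, dl_prod (fun l : Fin (N + 1) => (Sum.inl l.castSucc : Ph (N + 1))) _ _ B h5, map_prod, eval_X, h4] at h1
    simp only [eval_X, h3] at h1
    have h6 : ∏ i ∈ B, F z i ≠ 0 := Finset.prod_ne_zero_iff.2 hz.2.2
    funext j
    refine Fin.lastCases ?_ (fun i => ?_) j
    · rw [embV, Fin.snoc_last]
      have h7 : (pt (V z) (deriv V z) : Ph (N + 1) → ℂ) (Sum.inl (Fin.last (N + 1))) = V z (Fin.last (N + 1)) := rfl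
      have h8 : ∀ i : Fin (N + 1), (pt (V z) (deriv V z) : Ph (N + 1) → ℂ) (Sum.inl i.castSucc) = V z i.castSucc := fun i => rfl
      rw [h7] at h1
      simp only [h8] at h1
      rw [inv_mul_cancel_left₀ h6] at h1
      have h9 : V z (Fin.last (N + 1)) = (∏ i ∈ B, F z i)⁻¹ * ((∏ i ∈ B, F z i) * V z (Fin.last (N + 1))) := by
        rw [inv_mul_cancel_left₀ h6]
      rw [h9, eq_neg_of_add_eq_zero_right h1, mul_neg]
    · rw [embV_castSucc]

end Pool.Agent.GL

end

section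

/-!
# GL Cmp: the logarithmic symmetric differentials define the logarithmic length

Scale `x` to norm `1`: with `y = ‖x‖⁻¹ • x`, `ξ = lsc B ‖x‖⁻¹ (lv B x v)` one has `θ_k (x, lv v) = θ_k (y, ξ)` (`LogSec.scale`), `ξ_b = 0`, `act B y ξ ∈ conTan P y`, and `‖ξ‖ ≤ LL B x v ≤ (N + 2) * ‖ξ‖ …`
(`|ξ i| = |v i / x i|` for `i ∈ B`, `|ξ j| = |v j| / ‖x‖` otherwise, and `|v i| / ‖x‖ ≤ |v i / x i|`).  On the compact set of the `(y, ξ)` with `y ∈ cone P`, `‖y‖ = 1`, `act B y ξ ∈ conTan P y`, `ξ_b = 0`,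
`‖ξ‖ = 1` (points on `D` included!) the maximum of the `‖θ_k‖` is positive: `LogPolar` with `ξ = η` and `d/dt θ_k (ξ + t ξ) = m_k θ_k (ξ)`; `ξ ∉ span (eul B y)` as `eul` has the coordinate `1` at `b`.
-/

set_option autoImplicit false

open MvPolynomial Topology Filter Metric
open Pool.Agent.H13.SM (conTan cone)
open Pool.Agent.H62.FC (Homog)
open Pool.Agent.GG Pool.Agent.GA

namespace Pool.Agent.GL

variable {N : ℕ} {P : Ideal (MvPolynomial (Fin (N + 1)) ℂ)} {B : Finset (Fin (N + 1))} {J : ℕ} {m : Fin J → ℕ} {θ : ∀ k, LogSec P B (m k)} {b : Fin (N + 1)}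

/-- a normalized tangent vector -/
theorem CX.exists_unit (hP : Homog P) (hb : b ∈ B) {x : Fin (N + 1) → ℂ} (hx : x ∈ Uc P B b) {v : Fin (N + 1) → ℂ} (hv : v ∈ Tc P b x) (h0 : v ≠ 0) :
    ∃ y ξ : Fin (N + 1) → ℂ, ∃ t : ℂ, y ∈ cone P ∧ ‖y‖ = 1 ∧ act B y ξ ∈ conTan P y ∧ ξ b = 0 ∧ ‖ξ‖ = 1 ∧
      (∀ (n : ℕ) (τ : LogSec P B n), τ.toFun x (lv B x v) = t ^ n * τ.toFun y ξ) ∧ ‖t‖ ≤ LL B x v ∧ LL B x v ≤ (B.card + 1) * ‖t‖ := by
  classical
  obtain ⟨hxc, hxb, hxB⟩ := hx
  obtain ⟨hvt, hvb⟩ := hv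
  have hx0 : 0 < ‖x‖ := norm_pos_iff.2 hxc.1
  obtain ⟨ρ, hρ⟩ : ∃ ρ : ℂ, ρ = ((‖x‖⁻¹ : ℝ) : ℂ) := ⟨_, rfl⟩
  have hρn : ‖ρ‖ = ‖x‖⁻¹ := by rw [hρ, Complex.norm_real, Real.norm_of_nonneg (by positivity)]
  have hρ0 : ρ ≠ 0 := by
    rw [← norm_ne_zero_iff, hρn]
    positivity
  have hlv : act B x (lv B x v) = v := act_lv hxB v
  obtain ⟨η, hη⟩ : ∃ η : Fin (N + 1) → ℂ, η = lsc B ρ (lv B x v) := ⟨_, rfl⟩
  have hηB : ∀ i ∈ B, ‖η i‖ = ‖v i‖ / ‖x i‖ := by
    intro i hi
    rw [hη, lsc, if_pos hi, lv, if_pos hi, norm_mul, norm_inv]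
    field_simp
  have hηN : ∀ i, i ∉ B → ‖η i‖ = ‖v i‖ / ‖x‖ := by
    intro i hi
    rw [hη, lsc, if_neg hi, lv, if_neg hi, norm_mul, hρn]
    field_simp
  have hact : act B (ρ • x) η = ρ • v := by
    funext i
    by_cases hi : i ∈ B
    · have hxi : x i ≠ 0 := hxB i hi
      rw [hη, act, if_pos hi, lsc, if_pos hi, lv, if_pos hi, Pi.smul_apply, Pi.smul_apply, smul_eq_mul, smul_eq_mul]
      field_simp
    · rw [hη, act, if_neg hi, lsc, if_neg hi, lv, if_neg hi, Pi.smul_apply, smul_eq_mul]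
  have hLLB : ∀ i ∈ B, ‖v i‖ / ‖x i‖ ≤ ∑ i ∈ B, ‖v i‖ / ‖x i‖ := fun i hi =>
    Finset.single_le_sum (f := fun i => ‖v i‖ / ‖x i‖) (fun i _ => by positivity) hi
  have hS : 0 ≤ ∑ i ∈ B, ‖v i‖ / ‖x i‖ := Finset.sum_nonneg fun i _ => by positivity
  have h1 : ‖η‖ ≤ LL B x v := by
    rw [pi_norm_le_iff_of_nonneg (by unfold LL; positivity)]
    intro i
    unfold LL
    by_cases hi : i ∈ B
    · rw [hηB i hi]
      have h2 : 0 ≤ ‖v‖ / ‖x‖ := by positivity
      linarith [hLLB i hi]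
    · rw [hηN i hi]
      have h2 : ‖v i‖ / ‖x‖ ≤ ‖v‖ / ‖x‖ := by
        gcongr
        exact norm_le_pi_norm v i
      linarith
  have h2 : LL B x v ≤ (B.card + 1) * ‖η‖ := by
    have h3 : ‖v‖ / ‖x‖ ≤ ‖η‖ := by
      rw [div_le_iff₀ hx0, pi_norm_le_iff_of_nonneg (by positivity)]
      intro i
      rw [← div_le_iff₀ hx0]
      by_cases hi : i ∈ B
      · have hxi : 0 < ‖x i‖ := norm_pos_iff.2 (hxB i hi)
        calc ‖v i‖ / ‖x‖ ≤ ‖v i‖ / ‖x i‖ := by
              gcongr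
              exact norm_le_pi_norm x i
          _ = ‖η i‖ := (hηB i hi).symm
          _ ≤ ‖η‖ := norm_le_pi_norm η i
      · rw [← hηN i hi]
        exact norm_le_pi_norm η i
    have h4 : ∑ i ∈ B, ‖v i‖ / ‖x i‖ ≤ B.card * ‖η‖ := by
      calc ∑ i ∈ B, ‖v i‖ / ‖x i‖ ≤ ∑ _i ∈ B, ‖η‖ := Finset.sum_le_sum fun i hi => by
            rw [← hηB i hi]
            exact norm_le_pi_norm η i
        _ = B.card * ‖η‖ := by rw [Finset.sum_const, nsmul_eq_mul]
    unfold LL
    linarith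
  have hη0 : η ≠ 0 := by
    intro h3
    apply h0
    have h4 : ρ • v = 0 := by
      rw [← hact, h3]
      funext i
      unfold act
      split_ifs
      · rw [Pi.zero_apply, mul_zero]
      · rfl
    exact (smul_eq_zero.1 h4).resolve_left hρ0
  have hη1 : 0 < ‖η‖ := norm_pos_iff.2 hη0
  obtain ⟨t, ht⟩ : ∃ t : ℂ, t = ((‖η‖ : ℝ) : ℂ) := ⟨_, rfl⟩
  have htn : ‖t‖ = ‖η‖ := by rw [ht, Complex.norm_real, norm_norm]
  have ht0 : t ≠ 0 := by
    rw [← norm_ne_zero_iff, htn]
    exact hη1.ne'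
  have hyc : ρ • x ∈ cone P := ⟨smul_ne_zero hρ0 hxc.1, Pool.Agent.H13.SM.cone_smul hP hxc.2 ρ⟩
  have hηt : act B (ρ • x) η ∈ conTan P (ρ • x) := by
    rw [hact]
    exact Submodule.smul_mem _ _ (CX.conTan_le hP x hvt)
  have hacts : act B (ρ • x) (t⁻¹ • η) = t⁻¹ • act B (ρ • x) η := by
    funext i
    unfold act
    simp only [Pi.smul_apply, smul_eq_mul]
    split_ifs
    · ring
    · rfl
  have hξt : act B (ρ • x) (t⁻¹ • η) ∈ conTan P (ρ • x) := by
    rw [hacts]
    exact Submodule.smul_mem _ _ hηt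
  refine ⟨ρ • x, t⁻¹ • η, t, hyc, ?_, hξt, ?_, ?_, ?_, ?_, ?_⟩
  · rw [norm_smul, hρn, inv_mul_cancel₀ hx0.ne']
  · rw [Pi.smul_apply, smul_eq_mul]
    have h3 : η b = 0 := by
      rw [hη, lsc, if_pos hb, lv, if_pos hb, hvb, mul_zero]
    rw [h3, mul_zero]
  · rw [norm_smul, norm_inv, htn, inv_mul_cancel₀ hη1.ne']
  · intro n τ
    have h3 := τ.smul (ρ • x) hyc (t⁻¹ • η) hξt t
    rw [smul_smul, mul_inv_cancel₀ ht0, one_smul] at h3
    rw [← h3, hη]
    exact (τ.scale x hxc (lv B x v) (by rw [hlv]; exact hvt) ρ hρ0).symm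
  · rw [htn]
    exact h1
  · rw [htn]
    exact h2

theorem CX.thv_zero (hm : ∀ k, 1 ≤ m k) {x : Fin (N + 1) → ℂ} (hx : x ∈ Uc P B b) (k : Fin J) : thv θ x 0 k = 0 := by
  have h1 : lv B x 0 = (0 : ℂ) • (0 : Fin (N + 1) → ℂ) := by
    funext i
    unfold lv
    split_ifs
    · simp
    · simp
  have h2 : act B x 0 ∈ conTan P x := by
    have h3 : act B x 0 = 0 := by
      funext i
      unfold act
      split_ifs
      · simp
      · simp
    rw [h3]
    exact Submodule.zero_mem _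
  unfold thv
  rw [h1, (θ k).smul x hx.1 0 h2, zero_pow (by have := hm k; omega), zero_mul]

theorem CX.LL_nonneg (x v : Fin (N + 1) → ℂ) : 0 ≤ LL B x v := by
  unfold LL
  positivity

theorem theta_bdL (hP : Homog P) (hθ : LogPolar θ) (hm : ∀ k, 1 ≤ m k) (hb : b ∈ B) : ∃ c > 0, ∃ C > 0, ∀ x ∈ Uc P B b, ∀ v ∈ Tc P b x,
    (∀ k, ‖thv θ x v k‖ ≤ C * LL B x v ^ m k) ∧ (v ≠ 0 → ∃ k, c * LL B x v ^ m k ≤ ‖thv θ x v k‖) := by
  classical
  obtain ⟨δ, hδ, C, hC, h⟩ := CX.unit_bd (P := P) hθ hb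
  have hK : (1 : ℝ) ≤ B.card + 1 := by
    have : (0 : ℝ) ≤ B.card := Nat.cast_nonneg _
    linarith
  refine ⟨δ / ((B.card : ℝ) + 1) ^ ∑ k, m k, by positivity, C, hC, fun x hx v hv => ?_⟩
  have hL := CX.LL_nonneg (B := B) x v
  by_cases h0 : v = 0
  · refine ⟨fun k => ?_, fun h1 => (h1 h0).elim⟩
    rw [h0, CX.thv_zero hm hx k, norm_zero, ← h0]
    positivity
  obtain ⟨y, ξ, t, hy, hy1, hξ, hξb, hξ1, hτ, ht1, ht2⟩ := CX.exists_unit hP hb hx hv h0
  obtain ⟨h1, k, h2⟩ := h y ξ hy hy1 hξ hξb hξ1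
  have h3 : ∀ k, ‖thv θ x v k‖ = ‖t‖ ^ m k * ‖(θ k).toFun y ξ‖ := by
    intro k
    unfold thv
    rw [hτ, norm_mul, norm_pow]
  refine ⟨fun k => ?_, fun _ => ⟨k, ?_⟩⟩
  · rw [h3, mul_comm]
    exact mul_le_mul (h1 k) (pow_le_pow_left₀ (norm_nonneg _) ht1 _) (by positivity) hC.le
  · rw [h3]
    have h4 : LL B x v ^ m k ≤ ((B.card : ℝ) + 1) ^ (∑ k, m k) * ‖t‖ ^ m k := by
      calc LL B x v ^ m k ≤ (((B.card : ℝ) + 1) * ‖t‖) ^ m k := pow_le_pow_left₀ hL ht2 _
        _ = ((B.card : ℝ) + 1) ^ m k * ‖t‖ ^ m k := mul_pow _ _ _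
        _ ≤ ((B.card : ℝ) + 1) ^ (∑ k, m k) * ‖t‖ ^ m k := by
          refine mul_le_mul_of_nonneg_right (pow_le_pow_right₀ hK ?_) (by positivity)
          exact Finset.single_le_sum (f := m) (fun _ _ => Nat.zero_le _) (Finset.mem_univ k)
    rw [div_mul_eq_mul_div, div_le_iff₀ (by positivity)]
    calc δ * LL B x v ^ m k ≤ ‖(θ k).toFun y ξ‖ * (((B.card : ℝ) + 1) ^ (∑ k, m k) * ‖t‖ ^ m k) :=
          mul_le_mul h2 h4 (by positivity) (norm_nonneg _)
      _ = ‖t‖ ^ m k * ‖(θ k).toFun y ξ‖ * ((B.card : ℝ) + 1) ^ (∑ k, m k) := by ring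

/-- a bound of the length by the values -/
theorem exists_LL_bound (hP : Homog P) (hθ : LogPolar θ) (hm : ∀ k, 1 ≤ m k) (hb : b ∈ B) : ∃ C > 0, ∀ x ∈ Uc P B b, ∀ v ∈ Tc P b x, ∀ M : ℝ, 1 ≤ M →
    (∀ k, ‖thv θ x v k‖ ≤ M) → LL B x v ≤ C * M := by
  obtain ⟨c, hc, C, hC, h⟩ := theta_bdL (P := P) hP hθ hm hb
  refine ⟨1 + 1 / c, by positivity, fun x hx v hv M hM hk => ?_⟩
  have hL := CX.LL_nonneg (B := B) x v
  by_cases h0 : v = 0
  · have h1 : LL B x v = 0 := by
      rw [h0]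
      unfold LL
      simp
    rw [h1]
    positivity
  obtain ⟨k, h2⟩ := (h x hx v hv).2 h0
  have h3 : LL B x v ≤ 1 + LL B x v ^ m k := by
    rcases le_total (LL B x v) 1 with h4 | h4
    · have : 0 ≤ LL B x v ^ m k := by positivity
      linarith
    · have := le_self_pow₀ h4 (show m k ≠ 0 by have := hm k; omega)
      linarith
  have h5 : LL B x v ^ m k ≤ M / c := by
    rw [le_div_iff₀ hc, mul_comm]
    exact h2.trans (hk k)
  have h6 : 1 + M / c ≤ (1 + 1 / c) * M := by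
    have : (1 + 1 / c) * M = M + M / c := by ring
    linarith
  linarith

end Pool.Agent.GL

end

section

/-!
# GL Row: a minor of the family is not zero

As `GG.row_zero`, `GG.exists_row`: if `w : Fin (N + 2) → ℂ` is killed by all `∂_v G_l` at `ePt B x v` then `w_b = 0`, `w = embV B x w'` with `w' ∈ conTan P x` (from `dQ_j` and from `d (y ∏ x_i)`), and the
derivative of `θ_k (x, lv (v + t w'))` at `t = 0` is `0` for all `k`; `lv B x v` and `lv B x w'` are not in the span of `eul B x` (their coordinate `b` is `0`), so `w' = 0` by `LogPolar`.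
-/

set_option autoImplicit false

open MvPolynomial Topology Filter Metric
open Pool.Agent.H13.SM (conTan cone)
open Pool.Agent.GG Pool.Agent.GA

namespace Pool.Agent.GL

variable {N : ℕ} {P : Ideal (MvPolynomial (Fin (N + 1)) ℂ)} {B : Finset (Fin (N + 1))} {J : ℕ} {m : Fin J → ℕ} {θ : ∀ k, LogSec P B (m k)} {b : Fin (N + 1)}

private theorem row_aff {g : ℂ → ℂ} {a c : ℂ} (h : HasDerivAt g 0 0) (hg : ∀ t, g t = a + t * c) : c = 0 := by
  have h1 : HasDerivAt g (1 * c) 0 := by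
    have h2 : g = fun t => a + t * c := funext hg
    rw [h2]
    exact ((hasDerivAt_id (0 : ℂ)).mul_const c).const_add a
  have h3 := h1.unique h
  rwa [one_mul] at h3

private theorem row_minor {ι : Type} {M : ℕ} (r : ι → Fin M → ℂ) (h : ∀ w : Fin M → ℂ, (∀ l, ∑ b, r l b * w b = 0) → w = 0) :
    ∃ I : Fin M → ι, LinearIndependent ℂ (r ∘ I) := by
  classical
  have hspan : Submodule.span ℂ (Set.range r) = ⊤ := by
    by_contra hne
    obtain ⟨φ, hφ, hle⟩ := Submodule.exists_le_ker_of_lt_top _ (lt_top_iff_ne_top.mpr hne)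
    apply hφ
    have h1 : (fun b => φ (Pi.single b 1)) = (0 : Fin M → ℂ) := by
      apply h
      intro l
      have h2 : φ (r l) = 0 := hle (Submodule.subset_span ⟨l, rfl⟩)
      rw [← h2]
      conv_rhs => rw [pi_eq_sum_univ' (r l), map_sum]
      exact Finset.sum_congr rfl fun b _ => by
        rw [map_smul, smul_eq_mul]
    refine LinearMap.pi_ext' fun b => ?_
    ext
    simpa using congrFun h1 b
  obtain ⟨κ, g, -, hg, hli⟩ := exists_linearIndependent' ℂ r
  have : Finite κ := hli.finite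
  have : Fintype κ := Fintype.ofFinite κ
  rw [hspan] at hg
  have hcard : Fintype.card κ = M := by
    have hb := Module.finrank_eq_card_basis (Module.Basis.mk hli hg.ge)
    simpa using hb.symm
  let e : Fin M ≃ κ := (Fintype.equivFinOfCardEq hcard).symm
  exact ⟨g ∘ e, hli.comp e e.injective⟩

private theorem row_lv_add (x v w : Fin (N + 1) → ℂ) (t : ℂ) : lv B x (v + t • w) = lv B x v + t • lv B x w := by
  funext i
  simp only [lv, Pi.add_apply, Pi.smul_apply, smul_eq_mul]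
  split_ifs
  · ring
  · rfl

private theorem row_act_lv {x : Fin (N + 1) → ℂ} (h : ∀ i ∈ B, x i ≠ 0) (v : Fin (N + 1) → ℂ) : act B x (lv B x v) = v := by
  funext i
  simp only [act, lv]
  split_ifs with hi
  · rw [mul_inv_cancel_left₀ (h i hi)]
  · rfl

private theorem row_not_span {x v : Fin (N + 1) → ℂ} (h : ∀ i ∈ B, x i ≠ 0) (hb : b ∈ B) (hvb : v b = 0) (hv : v ≠ 0) :
    lv B x v ∉ Submodule.span ℂ {eul B x} := by
  intro hs
  obtain ⟨s, hs⟩ := Submodule.mem_span_singleton.mp hs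
  have h1 := congrFun hs b
  simp only [Pi.smul_apply, eul, lv, if_pos hb, smul_eq_mul, mul_one, hvb, mul_zero] at h1
  rw [h1, zero_smul] at hs
  apply hv
  rw [← row_act_lv h v, ← hs]
  funext i
  simp [act]

private theorem row_eval_lsub {x : Fin (N + 1) → ℂ} (h : ∀ i ∈ B, x i ≠ 0) (V : Fin (N + 2) → ℂ) (A : MvPolynomial (Ph N) ℂ) :
    eval (pt (emb B x) V) (aeval (lsub B) A) = eval (pt x (lv B x fun i => V i.castSucc)) A := by
  classical
  have h1 : ∀ A : MvPolynomial (Ph N) ℂ, eval (pt (emb B x) V) (aeval (lsub B) A) = eval (fun s => eval (pt (emb B x) V) (lsub B s)) A := by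
    intro A
    induction A using MvPolynomial.induction_on with
    | C a => simp only [algHom_C, algebraMap_eq, eval_C]
    | add p q hp hq => rw [map_add, map_add, hp, hq, map_add]
    | mul_X p s hp => rw [map_mul, map_mul, hp, map_mul, aeval_X, eval_X]
  rw [h1]
  congr 2
  funext s
  rcases s with j | i
  · simp only [lsub, Sum.elim_inl, eval_X, pt, emb, Fin.snoc_castSucc]
  · simp only [lsub, Sum.elim_inr, pt, lv]
    by_cases hi : i ∈ B
    · rw [if_pos hi, if_pos hi]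
      simp only [map_mul, map_prod, eval_X, Sum.elim_inl, Sum.elim_inr, emb, Fin.snoc_castSucc, Fin.snoc_last]
      rw [← Finset.mul_prod_erase B (fun i => x i) hi, mul_inv, mul_assoc, inv_mul_cancel₀, mul_one, mul_comm]
      exact Finset.prod_ne_zero_iff.2 fun l hl => h l (Finset.mem_of_mem_erase hl)
    · rw [if_neg hi, if_neg hi]
      simp only [eval_X, Sum.elim_inr]

/-- the rows span -/
theorem rowL_zero (hθ : LogPolar θ) (f : LFrame θ b) (hb : b ∈ B) {x v : Fin (N + 1) → ℂ} (hx : x ∈ Uc P B b) (hv : v ∈ Tc P b x) (h0 : v ≠ 0)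
    (w : Fin (N + 2) → ℂ) (hw : ∀ l, ∑ i, eval (ePt B x v) (pderiv (Sum.inr i) (gfamL f l)) * w i = 0) : w = 0 := by
  classical
  obtain ⟨hxc, hxb, hxB⟩ := hx
  obtain ⟨hvT, hvb⟩ := hv
  have hD : ∀ l, HasDerivAt (fun t : ℂ => eval (pt (emb B x) (embV B x v + t • w)) (gfamL f l)) 0 0 := by
    intro l
    have h1 := hasDerivAt_evalV (gfamL f l) (emb B x) (embV B x v) w
    have h2 := hw l
    rw [ePt] at h2
    rwa [h2] at h1
  set w' : Fin (N + 1) → ℂ := fun i => w i.castSucc with hw'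
  have hV : ∀ (t : ℂ) (i : Fin (N + 1)), (embV B x v + t • w) i.castSucc = v i + t * w' i := by
    intro t i
    simp only [Pi.add_apply, Pi.smul_apply, smul_eq_mul, embV, Fin.snoc_castSucc, hw']
  have hwb : w' b = 0 := by
    refine row_aff (a := v b) (hD (Sum.inl (Sum.inl (Sum.inr ())))) fun t => ?_
    simp only [gfamL, Sum.elim_inl, Sum.elim_inr, eval_X, pt]
    exact hV t b
  have hwQ : ∀ j, ∑ i, w' i * eval x (pderiv i (f.Q j)) = 0 := by
    intro j
    refine row_aff (a := ∑ i, v i * eval x (pderiv i (f.Q j))) (hD (Sum.inl (Sum.inr (Sum.inr j)))) fun t => ?_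
    simp only [gfamL, Sum.elim_inl, Sum.elim_inr, map_sum, map_mul, eval_X, pt]
    rw [Finset.mul_sum, ← Finset.sum_add_distrib]
    refine Finset.sum_congr rfl fun i _ => ?_
    rw [hV, eval_rename]
    have h1 : (Sum.elim (emb B x) (embV B x v + t • w) ∘ fun i : Fin (N + 1) => (Sum.inl i.castSucc : Ph (N + 1))) = x := by
      funext i
      simp only [Function.comp_apply, Sum.elim_inl, emb, Fin.snoc_castSucc]
    rw [h1]
    ring
  have hwT : w' ∈ conTan P x := by
    intro Q hQ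
    rw [← f.span] at hQ
    induction hQ using Submodule.span_induction with
    | mem Q hQ =>
      obtain ⟨j, rfl⟩ := hQ
      exact hwQ j
    | zero => simp
    | add Q R _ _ hQ hR =>
      simp only [map_add, mul_add, Finset.sum_add_distrib, hQ, hR, add_zero]
    | smul g Q hQm hQ =>
      have hQ0 : eval x Q = 0 := by
        apply hxc.2
        rw [← f.span]
        exact hQm
      simp only [smul_eq_mul, Derivation.leibniz, map_add, map_mul, hQ0, zero_mul, add_zero]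
      rw [show (∑ i, w' i * (eval x g * eval x (pderiv i Q))) = eval x g * ∑ i, w' i * eval x (pderiv i Q) by
        rw [Finset.mul_sum]; exact Finset.sum_congr rfl fun b _ => by ring]
      rw [hQ, mul_zero]
  have hw0 : w' = 0 := by
    by_contra hne
    obtain ⟨k, hk⟩ := hθ x hxc (lv B x v) (by rw [row_act_lv hxB]; exact hvT) (lv B x w') (by rw [row_act_lv hxB]; exact hwT)
      (row_not_span hxB hb hvb h0) (row_not_span hxB hb hwb hne)
    apply hk
    have h1 : (fun t : ℂ => (θ k).toFun x (lv B x v + t • lv B x w')) = fun t : ℂ => eval (pt (emb B x) (embV B x v + t • w)) (gfamL f (Sum.inr (Sum.inr k))) := by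
      funext t
      have h2 : gfamL f (Sum.inr (Sum.inr k)) = aeval (lsub B) (f.A k) := rfl
      rw [h2, row_eval_lsub hxB, ← row_lv_add]
      have h3 : (fun i : Fin (N + 1) => (embV B x v + t • w) i.castSucc) = v + t • w' := by
        funext i
        rw [hV]
        rfl
      rw [h3]
      exact f.hA k x hxc hxb _ (by
        rw [row_act_lv hxB]
        exact (conTan P x).add_mem hvT ((conTan P x).smul_mem t hwT))
    rw [h1]
    exact (hD (Sum.inr (Sum.inr k))).deriv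
  have hlast : w (Fin.last (N + 1)) * ∏ l ∈ B, x l = 0 := by
    have h1 := row_aff (a := (embV B x v (Fin.last (N + 1))) * (∏ l ∈ B, x l) + (∏ l ∈ B, x l)⁻¹ * ∑ i ∈ B, v i * ∏ l ∈ B.erase i, x l)
      (c := w (Fin.last (N + 1)) * (∏ l ∈ B, x l) + (∏ l ∈ B, x l)⁻¹ * ∑ i ∈ B, w' i * ∏ l ∈ B.erase i, x l)
      (hD (Sum.inr (Sum.inl (Sum.inr ())))) fun t => by
        simp only [gfamL, Sum.elim_inl, Sum.elim_inr, map_add, map_sum, map_mul, map_prod, eval_X, pt, hV]
        have e1 : ∀ l : Fin (N + 1), emb B x l.castSucc = x l := fun l => by simp only [emb, Fin.snoc_castSucc]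
        have e2 : emb B x (Fin.last (N + 1)) = (∏ l ∈ B, x l)⁻¹ := by simp only [emb, Fin.snoc_last]
        simp only [e1, e2, Pi.add_apply, Pi.smul_apply, smul_eq_mul, add_mul, Finset.sum_add_distrib, mul_assoc, ← Finset.mul_sum]
        ring
    rw [hw0] at h1
    simpa using h1
  have hprod : ∏ l ∈ B, x l ≠ 0 := Finset.prod_ne_zero_iff.2 hxB
  have hl : w (Fin.last (N + 1)) = 0 := (mul_eq_zero.1 hlast).resolve_right hprod
  funext i
  induction i using Fin.lastCases with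
  | last => exact hl
  | cast i => exact congrFun hw0 i

theorem exists_rowL (hθ : LogPolar θ) (f : LFrame θ b) (hb : b ∈ B) {x v : Fin (N + 1) → ℂ} (hx : x ∈ Uc P B b) (hv : v ∈ Tc P b x) (h0 : v ≠ 0) :
    ∃ I : Fin (N + 2) → GIx f.q J, eval (ePt B x v) (vdet (gfamL f) I) ≠ 0 := by
  classical
  obtain ⟨I, hI⟩ := row_minor (fun l i => eval (ePt B x v) (pderiv (Sum.inr i) (gfamL f l))) fun w hw => rowL_zero hθ f hb hx hv h0 w hw
  refine ⟨I, ?_⟩
  have h2 : LinearIndependent ℂ ((vmat (gfamL f) I).map (eval (ePt B x v))).row := hI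
  have h4 := Matrix.linearIndependent_rows_iff_isUnit.mp h2
  rw [vdet, RingHom.map_det]
  exact ((Matrix.isUnit_iff_isUnit_det _).mp h4).ne_zero

end Pool.Agent.GL

end

section

/-!
# GL MnU: the upper bound for the means of `log ‖F‖`

`GA/Strip.strip` for `u = log ‖F‖` (Euclidean norm, `F` has no zeros), base level `a = 1`: the mean at `t` is affine in `t` plus
`∫ (t - s) mn (Δ u) s ds`, and `Δ u ≤ C (sp F)²` (subtract from `F'` the multiple of `F` which makes the largest coordinate `0`).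
`∫_1^t (t - s) mn ((sp F)²) s ds = TT (AA (sp F)) t`.
-/

set_option autoImplicit false

open Topology Filter Metric
open Pool.Agent.GG Pool.Agent.GA

namespace Pool.Agent.GL

variable {N : ℕ} {F : ℂ → Fin (N + 1) → ℂ}

open Set Laplacian MeasureTheory
open Pool.Agent.MQ (fsd fsd_smul contDiffAt_log_norm lap_log_normV)
open Pool.Agent.GA.StripN

/-- the Fubini–Study density is at most a multiple of `wl ^ 2` -/
private theorem fsd_le_wl (x v : Fin (N + 1) → ℂ) (hx : x ≠ 0) :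
    fsd (WithLp.toLp 2 x : EuclideanSpace ℂ (Fin (N + 1))) (WithLp.toLp 2 v) ≤ 2 * (N + 1) * wl x v ^ 2 := by
  obtain ⟨i, hi⟩ : ∃ i, ‖x i‖ = ‖x‖ := by
    obtain ⟨i, -, hi⟩ := Finset.exists_max_image Finset.univ (fun i => ‖x i‖) ⟨0, Finset.mem_univ _⟩
    exact ⟨i, le_antisymm (norm_le_pi_norm x i) ((pi_norm_le_iff_of_nonneg (norm_nonneg _)).2 fun j => hi j (Finset.mem_univ _))⟩
  have hn : 0 < ‖x‖ := norm_pos_iff.2 hx
  have hxi : x i ≠ 0 := norm_pos_iff.1 (by rw [hi]; exact hn)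
  set X : EuclideanSpace ℂ (Fin (N + 1)) := WithLp.toLp 2 x with hX
  set V : EuclideanSpace ℂ (Fin (N + 1)) := WithLp.toLp 2 v with hV
  have h1 := fsd_smul X V 1 (-(v i / x i)) one_ne_zero
  rw [one_smul, one_smul] at h1
  rw [← h1]
  set Y : EuclideanSpace ℂ (Fin (N + 1)) := V + -(v i / x i) • X with hY
  set M : ℝ := ‖fun p : Fin (N + 1) × Fin (N + 1) => x p.1 * v p.2 - x p.2 * v p.1‖ with hM
  have hXn : ‖x‖ ≤ ‖X‖ := by
    have h2 := PiLp.norm_apply_le X i
    rw [← hi]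
    exact h2
  have hX0 : 0 < ‖X‖ := hn.trans_le hXn
  have hYn : ‖Y‖ ^ 2 ≤ (N + 1) * (M / ‖x‖) ^ 2 := by
    rw [EuclideanSpace.norm_sq_eq]
    have h3 : ∀ j ∈ Finset.univ, ‖Y j‖ ^ 2 ≤ (M / ‖x‖) ^ 2 := by
      intro j _
      have h4 : Y j = (x i * v j - x j * v i) / x i := by
        show v j + -(v i / x i) * x j = _
        field_simp
        ring
      rw [h4, norm_div, hi]
      have h5 : ‖x i * v j - x j * v i‖ ≤ M := norm_le_pi_norm (fun p : Fin (N + 1) × Fin (N + 1) => x p.1 * v p.2 - x p.2 * v p.1) (i, j)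
      gcongr
    refine (Finset.sum_le_sum h3).trans (le_of_eq ?_)
    rw [Finset.sum_const, Finset.card_univ, Fintype.card_fin, nsmul_eq_mul]
    push_cast
    ring
  have h6 : fsd X Y ≤ 2 * ‖Y‖ ^ 2 / ‖X‖ ^ 2 := by
    unfold fsd
    rw [div_le_div_iff₀ (by positivity) (by positivity)]
    have h7 : 0 ≤ ‖inner ℂ X Y‖ ^ 2 * ‖X‖ ^ 2 := by positivity
    nlinarith
  calc fsd X Y ≤ 2 * ‖Y‖ ^ 2 / ‖X‖ ^ 2 := h6
    _ ≤ 2 * ((N + 1) * (M / ‖x‖) ^ 2) / ‖x‖ ^ 2 := by gcongr
    _ = 2 * (N + 1) * wl x v ^ 2 := by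
      unfold wl
      rw [← hM]
      field_simp

section V

variable {V : Type*} [NormedAddCommGroup V] [InnerProductSpace ℂ V] [CompleteSpace V] {G : ℂ → V}

/-- the formula for the mean of `log ‖G‖` -/
private theorem mn_formula (hG : ∀ w : ℂ, 0 < w.re → AnalyticAt ℂ G w) (h0 : ∀ w : ℂ, 0 < w.re → G w ≠ 0)
    (hp : ∀ w : ℂ, 0 < w.re → G (w + 2 * Real.pi * Complex.I) = G w) :
    ∃ A B : ℝ, ∀ t : ℝ, 1 ≤ t → mn (fun w => Real.log ‖G w‖) t = A + (t - 1) * B + ∫ s in (1 : ℝ)..t, (t - s) * mn (fun w => fsd (G w) (deriv G w)) s := by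
  have hu : ∀ w : ℂ, 0 < w.re → ContDiffAt ℝ 2 (fun w => Real.log ‖G w‖) w := fun w hw => contDiffAt_log_norm (hG w hw) (h0 w hw)
  have hup : ∀ w : ℂ, 0 < w.re → (fun w => Real.log ‖G w‖) (w + 2 * Real.pi * Complex.I) = (fun w => Real.log ‖G w‖) w := fun w hw => by
    simp only [hp w hw]
  refine ⟨∫ y in (0 : ℝ)..2 * Real.pi, Real.log ‖G (pp 1 y)‖, ∫ y in (0 : ℝ)..2 * Real.pi, fderiv ℝ (fun w => Real.log ‖G w‖) (pp 1 y) 1, fun t ht => ?_⟩
  have hs := strip hu hup one_pos ht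
  have e1 : mn (fun w => Real.log ‖G w‖) t = ∫ y in (0 : ℝ)..2 * Real.pi, Real.log ‖G (pp t y)‖ := rfl
  rw [e1, hs]
  congr 1
  refine intervalIntegral.integral_congr fun s hs => ?_
  rw [uIcc_of_le ht] at hs
  have e2 : ∫ y in (0 : ℝ)..2 * Real.pi, Δ (fun w => Real.log ‖G w‖) (pp s y) = mn (fun w => fsd (G w) (deriv G w)) s := by
    refine intervalIntegral.integral_congr fun y _ => ?_
    have hre : 0 < (pp s y).re := by rw [pp_re]; linarith [hs.1]
    exact lap_log_normV (hG _ hre) (h0 _ hre)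
  simp only [e2]

private theorem cont_fsd (hG : ∀ w : ℂ, 0 < w.re → AnalyticAt ℂ G w) (h0 : ∀ w : ℂ, 0 < w.re → G w ≠ 0) (w : ℂ) (hw : 0 < w.re) :
    ContinuousAt (fun w => fsd (G w) (deriv G w)) w := by
  have h1 := (hG w hw).continuousAt
  have h2 := (hG w hw).deriv.continuousAt
  have h3 : ‖G w‖ ^ 4 ≠ 0 := by have := norm_pos_iff.2 (h0 w hw); positivity
  unfold fsd
  exact (continuousAt_const.mul (((h1.norm.pow 2).mul (h2.norm.pow 2)).sub ((ContinuousAt.inner (𝕜 := ℂ) h1 h2).norm.pow 2))).div (h1.norm.pow 4) h3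

end V

theorem mn_upper (hF : ∀ w ∈ HP, AnalyticAt ℂ F w) (hF0 : ∀ w ∈ HP, F w ≠ 0) (hFp : ∀ w ∈ HP, F (w + per) = F w) :
    ∃ C : ℝ, ∀ t : ℝ, 1 ≤ t → mn (fun w => Real.log ‖F w‖) t ≤ C * (t + TT (AA (sp F)) t) := by
  let G : ℂ → EuclideanSpace ℂ (Fin (N + 1)) := fun w => WithLp.toLp 2 (F w)
  have hG : ∀ w : ℂ, 0 < w.re → AnalyticAt ℂ G w := fun w hw =>
    ((PiLp.continuousLinearEquiv 2 ℂ (fun _ : Fin (N + 1) => ℂ)).symm.toContinuousLinearMap.analyticAt _).comp (hF w hw)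
  have hG' : ∀ w : ℂ, 0 < w.re → deriv G w = WithLp.toLp 2 (deriv F w) := fun w hw =>
    ((PiLp.continuousLinearEquiv 2 ℂ (fun _ : Fin (N + 1) => ℂ)).symm.toContinuousLinearMap.hasFDerivAt.comp_hasDerivAt w
      (hF w hw).differentiableAt.hasDerivAt).deriv
  have hG0 : ∀ w : ℂ, 0 < w.re → G w ≠ 0 := fun w hw h => hF0 w hw (WithLp.toLp_injective 2 h)
  have hGp : ∀ w : ℂ, 0 < w.re → G (w + 2 * Real.pi * Complex.I) = G w := fun w hw => by
    show WithLp.toLp 2 (F (w + per)) = WithLp.toLp 2 (F w)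
    rw [hFp w hw]
  have hspc : ∀ w : ℂ, 0 < w.re → ContinuousAt (sp F) w := fun w hw => psh_continuousAt_sp (hF w hw) (hF0 w hw)
  obtain ⟨A, B, hAB⟩ := mn_formula hG hG0 hGp
  have h2π : (0 : ℝ) ≤ 2 * Real.pi := by positivity
  refine ⟨|A| + |B| + 2 * (N + 1), fun t ht => ?_⟩
  have ht0 : 0 < t := by linarith
  have hpos : ∀ s ∈ uIcc 1 t, 0 < s := fun s hs => by rw [uIcc_of_le ht] at hs; linarith [hs.1]
  have hcf := cont_fsd hG hG0
  have hcs : ∀ w : ℂ, 0 < w.re → ContinuousAt (fun w => sp F w ^ 2) w := fun w hw => (hspc w hw).pow 2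
  -- the Euclidean norm is larger
  have b1 : mn (fun w => Real.log ‖F w‖) t ≤ mn (fun w => Real.log ‖G w‖) t := by
    refine intervalIntegral.integral_mono_on h2π ?_ ?_ fun y _ => ?_
    · exact vint (φ := fun w => Real.log ‖F w‖) (fun w hw => ((hF w hw).continuousAt.norm).log (norm_ne_zero_iff.2 (hF0 w hw))) ht0 _ _
    · exact vint (φ := fun w => Real.log ‖G w‖) (fun w hw => ((hG w hw).continuousAt.norm).log (norm_ne_zero_iff.2 (hG0 w hw))) ht0 _ _
    · have hre : 0 < (pp t y).re := by rw [pp_re]; exact ht0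
      refine Real.log_le_log (norm_pos_iff.2 (hF0 _ hre)) ?_
      exact (pi_norm_le_iff_of_nonneg (norm_nonneg _)).2 fun j => PiLp.norm_apply_le (G (pp t y)) j
  -- the integral
  have b2 : ∫ s in (1 : ℝ)..t, (t - s) * mn (fun w => fsd (G w) (deriv G w)) s ≤ 2 * (N + 1) * TT (AA (sp F)) t := by
    rw [psh_TT_AA hspc ht, ← intervalIntegral.integral_const_mul]
    have c1 : ContinuousOn (fun s => mn (fun w => fsd (G w) (deriv G w)) s) (uIcc 1 t) := (continuousOn_vint hcf 0 (2 * Real.pi)).mono hpos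
    have c2 : ContinuousOn (fun s => mn (fun w => sp F w ^ 2) s) (uIcc 1 t) := (continuousOn_vint hcs 0 (2 * Real.pi)).mono hpos
    refine intervalIntegral.integral_mono_on ht ?_ ?_ fun s hs => ?_
    · exact (ContinuousOn.mul (by fun_prop) c1).intervalIntegrable
    · exact (ContinuousOn.mul continuousOn_const (ContinuousOn.mul (by fun_prop) c2)).intervalIntegrable
    · have hs0 : 0 < s := by linarith [hs.1]
      have e1 : mn (fun w => fsd (G w) (deriv G w)) s ≤ 2 * (N + 1) * mn (fun w => sp F w ^ 2) s := by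
        unfold mn
        rw [← intervalIntegral.integral_const_mul]
        refine intervalIntegral.integral_mono_on h2π (vint hcf hs0 _ _) ((vint hcs hs0 _ _).const_mul _) fun y _ => ?_
        have hre : 0 < (pp s y).re := by rw [pp_re]; exact hs0
        show fsd (G (pp s y)) (deriv G (pp s y)) ≤ _
        rw [hG' _ hre]
        exact fsd_le_wl _ _ (hF0 _ hre)
      have e2 := mul_le_mul_of_nonneg_left e1 (sub_nonneg.2 hs.2)
      linarith
  have h0T : 0 ≤ TT (AA (sp F)) t := by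
    rw [psh_TT_AA hspc ht]
    refine intervalIntegral.integral_nonneg ht fun s hs => mul_nonneg (sub_nonneg.2 hs.2) (intervalIntegral.integral_nonneg h2π fun y _ => sq_nonneg _)
  rw [hAB t ht] at b1
  have h3 : A ≤ |A| := le_abs_self A
  have h4 : (t - 1) * B ≤ |B| * t := by
    have := mul_le_mul_of_nonneg_left (le_abs_self B) (sub_nonneg.2 ht)
    nlinarith [abs_nonneg B]
  have h5 : |A| ≤ |A| * t := le_mul_of_one_le_right (abs_nonneg A) ht
  have h6 : 0 ≤ (|A| + |B|) * TT (AA (sp F)) t := by positivity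
  have h7 : 0 ≤ 2 * ((N : ℝ) + 1) * t := by positivity
  nlinarith

/-- the case of one function without zeros, both signs -/
theorem mn_log_lower {g : ℂ → ℂ} (hg : ∀ w ∈ HP, AnalyticAt ℂ g w) (hg0 : ∀ w ∈ HP, g w ≠ 0) (hgp : ∀ w ∈ HP, g (w + per) = g w) :
    ∃ C : ℝ, ∀ t : ℝ, 1 ≤ t → -(C * t) ≤ mn (fun w => Real.log ‖g w‖) t := by
  obtain ⟨A, B, hAB⟩ := mn_formula (V := ℂ) (G := g) (fun w hw => hg w hw) (fun w hw => hg0 w hw) (fun w hw => hgp w hw)
  refine ⟨|A| + |B|, fun t ht => ?_⟩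
  rw [hAB t ht]
  have h1 : 0 ≤ ∫ s in (1 : ℝ)..t, (t - s) * mn (fun w => fsd (g w) (deriv g w)) s :=
    intervalIntegral.integral_nonneg ht fun s hs => mul_nonneg (sub_nonneg.2 hs.2)
      (intervalIntegral.integral_nonneg (by positivity) fun y _ => Pool.Agent.MQ.fsd_nonneg _ _)
  have h3 : -|A| ≤ A := neg_abs_le A
  have h4 : -(|B| * t) ≤ (t - 1) * B := by
    have := mul_le_mul_of_nonneg_left (neg_abs_le B) (sub_nonneg.2 ht)
    nlinarith [abs_nonneg B]
  have h5 : |A| ≤ |A| * t := le_mul_of_one_le_right (abs_nonneg A) ht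
  linarith

end Pool.Agent.GL

end

section

/-!
# GL Tau: the height is at most a power of the characteristic at the levels

`Rho B (F w) = (1 + |B|) log ‖F‖ - ∑ log |F i|` is continuous, `≥ 0` and has the sub-mean value property (`log ‖F‖` is the maximum of the `log |F j|`, `log |F i|` is harmonic, `i ∈ B`).  Its mean at the level `t` is `≤ C (t + TT t)` (`mn_upper`,
`mn_log_lower`).  Disc of radius `h = 1 / (4 τ_n)` around `w`: `Rho ≤ (1 / (π h²)) ∫ mn Rho ≤ C (X_n + τ_n) / h ≤ K τ_n ^ 3` (the disc lies in a strip of width `2 h` and one period; `X_n ≤ τ_n`; `GA/RCore`, `GA/SmlCore` have such estimates).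
For `1 ≤ Re w ≤ 2` also by continuity, periodicity and compactness.
-/

set_option autoImplicit false

open Topology Filter Metric MvPolynomial
open Pool.Agent.GG Pool.Agent.GA

namespace Pool.Agent.GL

variable {N : ℕ} {P : Ideal (MvPolynomial (Fin (N + 1)) ℂ)} {B : Finset (Fin (N + 1))} {b : Fin (N + 1)} {F : ℂ → Fin (N + 1) → ℂ} {X : ℕ → ℝ}

private theorem tau_mem (hF : LCurve P B b F) {w : ℂ} (hw : w ∈ HP) : F w ∈ Uc P B b := ⟨hF.curve.cone w hw, hF.one w, hF.ne w hw⟩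

private theorem tau_ne (hF : LCurve P B b F) {w : ℂ} (hw : w ∈ HP) : F w ≠ 0 := (hF.curve.cone w hw).1

private theorem tau_an (hF : LCurve P B b F) {w : ℂ} (hw : w ∈ HP) (j : Fin (N + 1)) : AnalyticAt ℂ (fun w => F w j) w :=
  (analyticAt_pi_iff.1 (hF.curve.an w hw)) j

private theorem tau_cont1 (hF : LCurve P B b F) : ContinuousOn (fun w => Real.log ‖F w‖) HP := fun w hw =>
  ((hF.curve.an w hw).continuousAt.norm.log (norm_ne_zero_iff.2 (tau_ne hF hw))).continuousWithinAt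

private theorem tau_cont2 (hF : LCurve P B b F) {i : Fin (N + 1)} (hi : i ∈ B) : ContinuousOn (fun w => Real.log ‖F w i‖) HP := fun w hw =>
  ((tau_an hF hw i).continuousAt.norm.log (norm_ne_zero_iff.2 (hF.ne w hw i hi))).continuousWithinAt

private theorem tau_rho (x : Fin (N + 1) → ℂ) : Rho B x = (1 + B.card) * Real.log ‖x‖ - ∑ i ∈ B, Real.log ‖x i‖ := by
  unfold Rho
  rw [Finset.sum_sub_distrib, Finset.sum_const, nsmul_eq_mul]
  ring

private theorem tau_cont (hF : LCurve P B b F) : ContinuousOn (fun w => Rho B (F w)) HP := by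
  simp only [tau_rho]
  exact (continuousOn_const.mul (tau_cont1 hF)).sub (continuousOn_finsetSum _ fun i hi => tau_cont2 hF hi)

private theorem tau_line {t : ℝ} (ht : 0 < t) (y : ℝ) : ((t : ℂ) + y * Complex.I) ∈ HP := by
  simpa [HP] using ht

private theorem tau_lineC {u : ℂ → ℝ} (hu : ContinuousOn u HP) {t : ℝ} (ht : 0 < t) : Continuous fun y : ℝ => u (t + y * Complex.I) :=
  hu.comp_continuous (by fun_prop) (tau_line ht)

/-- the mean of the height -/
theorem mn_rho (hF : LCurve P B b F) : ∃ C : ℝ, ∀ t : ℝ, 1 ≤ t → mn (fun w => Rho B (F w)) t ≤ C * (t + TT (AA (sp F)) t) := by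
  obtain ⟨C, hC⟩ := mn_upper (F := F) (fun w hw => hF.curve.an w hw) (fun w hw => tau_ne hF hw) hF.curve.periodic
  have hlow : ∀ i, i ∈ B → ∃ D : ℝ, ∀ t : ℝ, 1 ≤ t → -(D * t) ≤ mn (fun w => Real.log ‖F w i‖) t := fun i hi =>
    mn_log_lower (g := fun w => F w i) (fun w hw => tau_an hF hw i) (fun w hw => hF.ne w hw i hi)
      (fun w hw => by rw [hF.curve.periodic w hw])
  choose! D hD using hlow
  refine ⟨(1 + B.card) * |C| + ∑ i ∈ B, |D i|, fun t ht => ?_⟩
  have ht0 : 0 < t := by linarith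
  have e : mn (fun w => Rho B (F w)) t = (1 + B.card) * mn (fun w => Real.log ‖F w‖) t - ∑ i ∈ B, mn (fun w => Real.log ‖F w i‖) t := by
    unfold mn
    simp only [tau_rho]
    rw [intervalIntegral.integral_sub, intervalIntegral.integral_const_mul, intervalIntegral.integral_finsetSum]
    · exact fun i hi => (tau_lineC (tau_cont2 hF hi) ht0).intervalIntegrable _ _
    · exact ((tau_lineC (tau_cont1 hF) ht0).const_mul _).intervalIntegrable _ _
    · exact (continuous_finsetSum _ fun i hi => tau_lineC (tau_cont2 hF hi) ht0).intervalIntegrable _ _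
  have hAA : ∀ x, 0 ≤ AA (sp F) x := fun x =>
    intervalIntegral.integral_nonneg (le_max_right _ _) fun x _ => intervalIntegral.integral_nonneg (by positivity) fun y _ => sq_nonneg _
  have hTT : 0 ≤ TT (AA (sp F)) t := intervalIntegral.integral_nonneg ht fun x _ => hAA x
  have h1 := hC t ht
  have h2 : ∑ i ∈ B, -(D i * t) ≤ ∑ i ∈ B, mn (fun w => Real.log ‖F w i‖) t := Finset.sum_le_sum fun i hi => hD i hi t ht
  have h3 : ∑ i ∈ B, -(D i * t) = -((∑ i ∈ B, D i) * t) := by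
    rw [Finset.sum_neg_distrib, Finset.sum_mul]
  have h4 : ∑ i ∈ B, D i ≤ ∑ i ∈ B, |D i| := Finset.sum_le_sum fun i _ => le_abs_self _
  have h5 : 0 ≤ ∑ i ∈ B, |D i| := Finset.sum_nonneg fun i _ => abs_nonneg _
  have h6 : mn (fun w => Real.log ‖F w‖) t ≤ |C| * (t + TT (AA (sp F)) t) := h1.trans (mul_le_mul_of_nonneg_right (le_abs_self _) (by linarith))
  have h7 : (0 : ℝ) ≤ 1 + B.card := by positivity
  rw [e]
  calc (1 + B.card) * mn (fun w => Real.log ‖F w‖) t - ∑ i ∈ B, mn (fun w => Real.log ‖F w i‖) t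
      ≤ (1 + B.card) * (|C| * (t + TT (AA (sp F)) t)) + (∑ i ∈ B, D i) * t := by
        have := mul_le_mul_of_nonneg_left h6 h7
        linarith
    _ ≤ (1 + B.card) * (|C| * (t + TT (AA (sp F)) t)) + (∑ i ∈ B, |D i|) * (t + TT (AA (sp F)) t) := by
        have h8 : (∑ i ∈ B, D i) * t ≤ (∑ i ∈ B, |D i|) * t := mul_le_mul_of_nonneg_right h4 ht0.le
        have h9 : (∑ i ∈ B, |D i|) * t ≤ (∑ i ∈ B, |D i|) * (t + TT (AA (sp F)) t) := mul_le_mul_of_nonneg_left (by linarith) h5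
        linarith
    _ = ((1 + B.card) * |C| + ∑ i ∈ B, |D i|) * (t + TT (AA (sp F)) t) := by ring

/-- the sub-mean value property -/
private theorem tau_submean (hF : LCurve P B b F) {w : ℂ} {ρ : ℝ} (hρ : 0 < ρ) (hball : closedBall w ρ ⊆ HP) :
    Rho B (F w) ≤ Real.circleAverage (fun z => Rho B (F z)) w ρ := by
  have hw : w ∈ HP := hball (mem_closedBall_self hρ.le)
  obtain ⟨j, hj⟩ : ∃ j, ‖F w‖ = ‖F w j‖ := by
    obtain ⟨j, -, hj⟩ := Finset.exists_mem_eq_sup' (s := (Finset.univ : Finset (Fin (N + 1)))) ⟨0, Finset.mem_univ 0⟩ fun j => ‖F w j‖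
    refine ⟨j, le_antisymm ?_ (norm_le_pi_norm _ _)⟩
    rw [pi_norm_le_iff_of_nonneg (norm_nonneg _)]
    intro l
    rw [← hj]
    exact Finset.le_sup' (fun j => ‖F w j‖) (Finset.mem_univ l)
  obtain ⟨g, hg⟩ : ∃ g : ℂ → ℂ, g = fun z => F z j ^ (1 + B.card) * (∏ i ∈ B, F z i)⁻¹ := ⟨_, rfl⟩
  have hgan : AnalyticOnNhd ℂ g (closedBall w ρ) := by
    intro z hz
    have hz' := hball hz
    rw [hg]
    refine ((tau_an hF hz' j).pow _).mul (AnalyticAt.inv ?_ ?_)
    · exact Finset.analyticAt_fun_prod _ fun i _ => tau_an hF hz' i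
    · exact Finset.prod_ne_zero_iff.2 fun i hi => hF.ne z hz' i hi
  have hlog : ∀ z ∈ HP, F z j ≠ 0 → Real.log ‖g z‖ = (1 + B.card) * Real.log ‖F z j‖ - ∑ i ∈ B, Real.log ‖F z i‖ := by
    intro z hz hzj
    have h1 : ∏ i ∈ B, F z i ≠ 0 := Finset.prod_ne_zero_iff.2 fun i hi => hF.ne z hz i hi
    rw [hg]
    simp only
    rw [norm_mul, norm_pow, norm_inv, Real.log_mul (by positivity) (by positivity), Real.log_pow, Real.log_inv, norm_prod,
      Real.log_prod fun i hi => norm_ne_zero_iff.2 (hF.ne z hz i hi)]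
    push_cast
    ring
  have hle : ∀ z ∈ HP, Real.posLog ‖g z‖ ≤ Rho B (F z) := by
    intro z hz
    have h0 : 0 ≤ Rho B (F z) := rho_nonneg (tau_mem hF hz)
    by_cases hzj : F z j = 0
    · have : g z = 0 := by
        rw [hg]
        simp only
        rw [hzj, zero_pow (by omega), zero_mul]
      rw [this, norm_zero, Real.posLog_zero]
      exact h0
    · refine max_le h0 ?_
      rw [hlog z hz hzj, tau_rho]
      have h2 : Real.log ‖F z j‖ ≤ Real.log ‖F z‖ := Real.log_le_log (norm_pos_iff.2 hzj) (norm_le_pi_norm _ _)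
      have h3 : (0 : ℝ) ≤ 1 + B.card := by positivity
      nlinarith
  have heq : Rho B (F w) ≤ Real.posLog ‖g w‖ := by
    have hj0 : F w j ≠ 0 := by
      rw [← norm_ne_zero_iff, ← hj, norm_ne_zero_iff]
      exact tau_ne hF hw
    refine le_trans (le_of_eq ?_) (le_max_right _ _)
    rw [hlog w hw hj0, tau_rho, hj]
  refine heq.trans ((posLog_le_circleAverage hρ hgan).trans (Real.circleAverage_mono ?_ ?_ fun z hz => ?_))
  · exact (Real.continuous_posLog.comp_continuousOn ((hgan.continuousOn.mono sphere_subset_closedBall).norm)).circleIntegrable hρ.le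
  · exact ((tau_cont hF).mono (sphere_subset_closedBall.trans hball)).circleIntegrable hρ.le
  · rw [abs_of_pos hρ] at hz
    exact hle z (hball (sphere_subset_closedBall hz))

open MeasureTheory Set in
private theorem tau_square {e : ℂ → ℝ} {c : ℂ} {h : ℝ} (hh : 0 < h)
    (he : ContinuousOn e (Icc (c.re - h) (c.re + h) ×ℂ Icc (c.im - h) (c.im + h))) (he0 : ∀ z ∈ Icc (c.re - h) (c.re + h) ×ℂ Icc (c.im - h) (c.im + h), 0 ≤ e z)
    (hle : ∀ r, 0 < r → r < h → e c ≤ Real.circleAverage e c r) :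
    Real.pi * h ^ 2 * e c ≤ ∫ x in (c.re - h)..(c.re + h), ∫ y in (c.im - h)..(c.im + h), e (x + y * Complex.I) := by
  have hsub' : closedBall c h ⊆ Icc (c.re - h) (c.re + h) ×ℂ Icc (c.im - h) (c.im + h) := by
    intro z hz
    have h1 : ‖z - c‖ ≤ h := by simpa [dist_eq_norm] using hz
    have h2 := (Complex.abs_re_le_norm (z - c)).trans h1
    have h3 := (Complex.abs_im_le_norm (z - c)).trans h1
    rw [Complex.sub_re, abs_le] at h2
    rw [Complex.sub_im, abs_le] at h3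
    exact ⟨⟨by linarith, by linarith⟩, ⟨by linarith, by linarith⟩⟩
  have hsub : ball c h ⊆ Icc (c.re - h) (c.re + h) ×ℂ Icc (c.im - h) (c.im + h) := ball_subset_closedBall.trans hsub'
  have hK : IsCompact (Icc (c.re - h) (c.re + h) ×ℂ Icc (c.im - h) (c.im + h)) := isCompact_Icc.reProdIm isCompact_Icc
  have hei : IntegrableOn e (Icc (c.re - h) (c.re + h) ×ℂ Icc (c.im - h) (c.im + h)) := he.integrableOn_compact hK
  have h1 := area_mean hh (he.mono hsub') hle
  have h3 : ∫ z in ball c h, e z ≤ ∫ z in Icc (c.re - h) (c.re + h) ×ℂ Icc (c.im - h) (c.im + h), e z := by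
    refine setIntegral_mono_set hei ?_ (LE.le.eventuallyLE hsub)
    exact (ae_restrict_iff' hK.measurableSet).2 (Eventually.of_forall fun z hz => he0 z hz)
  have h4 : ∫ z in Icc (c.re - h) (c.re + h) ×ℂ Icc (c.im - h) (c.im + h), e z =
      ∫ x in (c.re - h)..(c.re + h), ∫ y in (c.im - h)..(c.im + h), e (x + y * Complex.I) := by
    have h5 := (Complex.volume_preserving_equiv_real_prod.symm).setIntegral_preimage_emb Complex.measurableEquivRealProd.symm.measurableEmbedding e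
      (Icc (c.re - h) (c.re + h) ×ℂ Icc (c.im - h) (c.im + h))
    have h6 : Complex.measurableEquivRealProd.symm ⁻¹' (Icc (c.re - h) (c.re + h) ×ℂ Icc (c.im - h) (c.im + h)) =
        Icc (c.re - h) (c.re + h) ×ˢ Icc (c.im - h) (c.im + h) := by
      ext p
      simp [Complex.mem_reProdIm, Complex.measurableEquivRealProd, Prod.le_def]
      tauto
    rw [h6] at h5
    rw [← h5]
    have h7 : IntegrableOn (fun p : ℝ × ℝ => e (Complex.measurableEquivRealProd.symm p)) (Icc (c.re - h) (c.re + h) ×ˢ Icc (c.im - h) (c.im + h))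
        (volume.prod volume) := by
      have := ((Complex.volume_preserving_equiv_real_prod.symm).integrableOn_comp_preimage Complex.measurableEquivRealProd.symm.measurableEmbedding
        (f := e) (s := Icc (c.re - h) (c.re + h) ×ℂ Icc (c.im - h) (c.im + h))).2 hei
      rw [h6] at this
      exact this
    have h8 := setIntegral_prod (fun p : ℝ × ℝ => e (Complex.measurableEquivRealProd.symm p)) h7
    have h9 : ∀ x y : ℝ, Complex.measurableEquivRealProd.symm (x, y) = x + y * Complex.I := fun x y => by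
      exact Complex.equivRealProdCLM_symm_apply (x, y)
    refine h8.trans ?_
    simp only [h9]
    rw [integral_Icc_eq_integral_Ioc, ← intervalIntegral.integral_of_le (by linarith)]
    refine intervalIntegral.integral_congr fun x _ => ?_
    rw [integral_Icc_eq_integral_Ioc, ← intervalIntegral.integral_of_le (by linarith)]
  rw [← h4]
  exact h1.trans h3

/-- the height at a point is at most the mean over a disc -/
theorem rho_area (hF : LCurve P B b F) {w : ℂ} {h T : ℝ} (h0 : 0 < h) (h1 : h ≤ 1 / 2) (hw : 1 + h ≤ w.re) (hT : ∀ t ∈ Set.Icc (w.re - h) (w.re + h), mn (fun w => Rho B (F w)) t ≤ T) :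
    Rho B (F w) ≤ T / h := by
  have hpi := Real.pi_gt_three
  have hcont := tau_cont hF
  have hnn : ∀ z ∈ HP, 0 ≤ Rho B (F z) := fun z hz => rho_nonneg (tau_mem hF hz)
  have hball : closedBall w h ⊆ HP := by
    intro z hz
    have h2 : ‖z - w‖ ≤ h := by simpa [dist_eq_norm] using hz
    have h3 := (Complex.abs_re_le_norm (z - w)).trans h2
    rw [Complex.sub_re, abs_le] at h3
    change 0 < z.re
    linarith [h3.1]
  have hsq : (Set.Icc (w.re - h) (w.re + h) ×ℂ Set.Icc (w.im - h) (w.im + h)) ⊆ HP := by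
    intro z hz
    have h1 : w.re - h ≤ z.re := hz.1.1
    change 0 < z.re
    linarith
  have h2 := tau_square (e := fun z => Rho B (F z)) (c := w) h0 (hcont.mono hsq) (fun z hz => hnn z (hsq hz))
    fun r hr hrh => tau_submean hF hr ((closedBall_subset_closedBall hrh.le).trans hball)
  have hin : ∀ x : ℝ, 0 < x → (∫ y in (w.im - h)..(w.im + h), Rho B (F (x + y * Complex.I))) ≤ mn (fun w => Rho B (F w)) x := by
    intro x hx
    have hper : Function.Periodic (fun y : ℝ => Rho B (F (x + y * Complex.I))) (2 * Real.pi) := by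
      intro y
      have h2 : (x + (y + 2 * Real.pi : ℝ) * Complex.I : ℂ) = (x + y * Complex.I) + per := by
        rw [per]
        push_cast
        ring
      simp only
      rw [h2, hF.curve.periodic _ (tau_line hx y)]
    have h3 : mn (fun w => Rho B (F w)) x = ∫ y in (w.im - Real.pi)..(w.im + Real.pi), Rho B (F (x + y * Complex.I)) := by
      have := hper.intervalIntegral_add_eq 0 (w.im - Real.pi)
      rw [zero_add, show w.im - Real.pi + 2 * Real.pi = w.im + Real.pi by ring] at this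
      exact this
    rw [h3]
    refine intervalIntegral.integral_mono_interval (by linarith) (by linarith) (by linarith) (Eventually.of_forall fun y => hnn _ (tau_line hx y))
      ((tau_lineC hcont hx).intervalIntegrable _ _)
  have h3 : (∫ x in (w.re - h)..(w.re + h), ∫ y in (w.im - h)..(w.im + h), Rho B (F (x + y * Complex.I))) ≤ ∫ _ in (w.re - h)..(w.re + h), T := by
    refine intervalIntegral.integral_mono_on (by linarith) ?_ intervalIntegrable_const fun x hx => (hin x (by linarith [hx.1])).trans (hT x hx)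
    refine ((sml_continuousOn_int hcont (w.im - h) (w.im + h)).mono ?_).intervalIntegrable
    intro x hx
    rw [Set.uIcc_of_le (by linarith)] at hx
    change 0 < x
    linarith [hx.1]
  rw [intervalIntegral.integral_const, smul_eq_mul] at h3
  have h4 : Real.pi * h ^ 2 * Rho B (F w) ≤ 2 * h * T := by
    have := h2.trans h3
    linarith
  have hwHP : w ∈ HP := hball (mem_closedBall_self h0.le)
  have hR := hnn w hwHP
  rw [le_div_iff₀ h0]
  have h5 : h * (Real.pi * h * Rho B (F w)) ≤ h * (2 * T) := by nlinarith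
  have h6 : Real.pi * h * Rho B (F w) ≤ 2 * T := le_of_mul_le_mul_left h5 h0
  have h7 : 0 ≤ h * Rho B (F w) := by positivity
  nlinarith

theorem rho_levels (hF : LCurve P B b F) (hX : Lev (sp F) X) : ∃ (K : ℝ) (k : ℕ), ∀ (n : ℕ) (w : ℂ), 1 ≤ w.re → w.re ≤ X n - 1 / (2 * tau (sp F) X n) →
    Rho B (F w) ≤ K * tau (sp F) X n ^ k := by
  obtain ⟨C, hC⟩ := mn_rho hF
  -- the compact part
  obtain ⟨K₀, hK₀⟩ : ∃ K₀ : ℝ, ∀ w : ℂ, 1 ≤ w.re → w.re ≤ 2 → Rho B (F w) ≤ K₀ := by
    have hcpt : IsCompact (Set.Icc (1 : ℝ) 2 ×ℂ Set.Icc (0 : ℝ) (2 * Real.pi)) := isCompact_Icc.reProdIm isCompact_Icc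
    have hsub : (Set.Icc (1 : ℝ) 2 ×ℂ Set.Icc (0 : ℝ) (2 * Real.pi)) ⊆ HP := by
      intro z hz
      have h1 : 1 ≤ z.re := hz.1.1
      change 0 < z.re
      linarith
    obtain ⟨K₀, hK₀⟩ := hcpt.bddAbove_image ((tau_cont hF).mono hsub)
    refine ⟨K₀, fun w hw1 hw2 => ?_⟩
    have hline : w = (w.re : ℂ) + w.im * Complex.I := (Complex.re_add_im w).symm
    have hw0 : 0 < w.re := by linarith
    have hper : Function.Periodic (fun y : ℝ => Rho B (F (w.re + y * Complex.I))) (2 * Real.pi) := by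
      intro y
      have h2 : (w.re + (y + 2 * Real.pi : ℝ) * Complex.I : ℂ) = (w.re + y * Complex.I) + per := by
        rw [per]
        push_cast
        ring
      simp only
      rw [h2, hF.curve.periodic _ (tau_line hw0 y)]
    obtain ⟨y, hy, hyw⟩ := hper.exists_mem_Ico₀ Real.two_pi_pos w.im
    have h3 : Rho B (F w) = Rho B (F (w.re + y * Complex.I)) := by
      conv_lhs => rw [hline]
      exact hyw
    rw [h3]
    refine hK₀ ⟨_, ⟨?_, ?_⟩, rfl⟩
    · simpa using ⟨hw1, hw2⟩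
    · simpa using ⟨hy.1, hy.2.le⟩
  have hAA : ∀ x, 0 ≤ AA (sp F) x := fun x =>
    intervalIntegral.integral_nonneg (le_max_right _ _) fun x _ => intervalIntegral.integral_nonneg (by positivity) fun y _ => sq_nonneg _
  refine ⟨max K₀ (8 * |C|), 2, fun n w hw1 hw2 => ?_⟩
  have hτ4 := hX.tau_ge' n
  have hτ : 4 ≤ tau (sp F) X n := by linarith [(Nat.cast_nonneg n : (0 : ℝ) ≤ n)]
  have hτ0 : 0 < tau (sp F) X n := by linarith
  have hτ1 : 1 ≤ tau (sp F) X n ^ 2 := by nlinarith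
  set h : ℝ := 1 / (4 * tau (sp F) X n) with hh
  have hh0 : 0 < h := by positivity
  have hh1 : h ≤ 1 / 2 := by
    rw [hh, div_le_div_iff₀ (by positivity) two_pos]
    linarith
  rcases le_total w.re 2 with hle | hge
  · have h1 := hK₀ w hw1 hle
    have h2 : 0 ≤ Rho B (F w) := rho_nonneg (tau_mem hF (show 0 < w.re by linarith))
    calc Rho B (F w) ≤ K₀ := h1
      _ ≤ K₀ * tau (sp F) X n ^ 2 := le_mul_of_one_le_right (h2.trans h1) hτ1
      _ ≤ _ := mul_le_mul_of_nonneg_right (le_max_left _ _) (by positivity)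
  · have hXτ : X n ≤ tau (sp F) X n := by
      have h1 := hX.sub n
      have h2 := hX.big n
      have h3 : (0 : ℝ) ≤ n := Nat.cast_nonneg n
      nlinarith
    have h2h : 1 / (2 * tau (sp F) X n) = 2 * h := by
      rw [hh]
      field_simp
      norm_num
    have h1 := rho_area hF (w := w) (h := h) (T := |C| * (2 * tau (sp F) X n)) hh0 hh1 (by linarith) fun t ht => ?_
    · have h2 : |C| * (2 * tau (sp F) X n) / h = 8 * |C| * tau (sp F) X n ^ 2 := by
        rw [hh]
        field_simp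
        ring
      rw [h2] at h1
      exact h1.trans (mul_le_mul_of_nonneg_right (le_max_right _ _) (by positivity))
    · have ht1 : 1 ≤ t := by linarith [ht.1]
      have htX : t ≤ X n := by
        have := ht.2
        rw [h2h] at hw2
        linarith
      have hTT : TT (AA (sp F)) t ≤ tau (sp F) X n := by
        unfold tau TT
        exact intervalIntegral.integral_mono_interval le_rfl ht1 htX (Eventually.of_forall fun x => hAA x)
          (sml_AA_mono hF.curve.speed).intervalIntegrable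
      have hTT0 : 0 ≤ TT (AA (sp F)) t := intervalIntegral.integral_nonneg ht1 fun x _ => hAA x
      calc mn (fun w => Rho B (F w)) t ≤ C * (t + TT (AA (sp F)) t) := hC t ht1
        _ ≤ |C| * (t + TT (AA (sp F)) t) := mul_le_mul_of_nonneg_right (le_abs_self _) (by linarith)
        _ ≤ |C| * (2 * tau (sp F) X n) := mul_le_mul_of_nonneg_left (by linarith) (abs_nonneg _)

end Pool.Agent.GL

end
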