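import Pool.Agent.H18.GGT.GBL.Lfr
import Pool.Agent.H18.GGT.M46
import Pool.Agent.H18.GGT.M57

/-! The parts of this file: GL.Conc, GBL.Lat, GBL.Max, GBL.Reg, GL.Disc. -/

section

/-!
# GL Conc: the conclusion of the theorem
-/

set_option autoImplicit false

open MvPolynomial Topology Filter Metric
open Pool.Agent.H17 (PN VanishesAt HolomorphicInto puncturedDisc)
open Pool.Agent.H17EF (projVar)

namespace Pool.Agent.GL

variable {N : ℕ}

/-- the open subset `X \ D` of the projective variety `X` of `P`, where `D` is the union of the hyperplane sections `x i = 0`, `i ∈ B` -/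
def openPart (P : Ideal (MvPolynomial (Fin (N + 1)) ℂ)) (B : Finset (Fin (N + 1))) : Set (PN N) :=
  {x | x ∈ projVar P ∧ ∀ i ∈ B, ¬ VanishesAt (X i) x}

/-- the conclusion, for the hypersurface `R = 0` -/
structure ConclusionL (P : Ideal (MvPolynomial (Fin (N + 1)) ℂ)) (B : Finset (Fin (N + 1))) (R : MvPolynomial (Fin (N + 1)) ℂ) : Prop where
  /-- the form `R` is not `0` on `X` -/
  form : (∃ e, R.IsHomogeneous e) ∧ R ∉ P
  /-- a holomorphic map from the punctured disc to `X \ D` with a value off `R = 0` extends to a holomorphic map from the disc to the projective space -/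
  disc : ∀ f : ℂ → PN N, HolomorphicInto f puncturedDisc → (∀ z ∈ puncturedDisc, f z ∈ openPart P B) → (∃ z ∈ puncturedDisc, ¬ VanishesAt R (f z)) →
    ∃ g : ℂ → PN N, HolomorphicInto g (ball 0 1) ∧ ∀ z ∈ puncturedDisc, g z = f z
  /-- a nonconstant entire curve in `X \ D` lies in `R = 0` -/
  entire : ∀ f : ℂ → PN N, HolomorphicInto f Set.univ → (∀ z, f z ∈ openPart P B) → (∃ z w, f z ≠ f w) → ∀ z, VanishesAt R (f z)

end Pool.Agent.GL

end

section

/-!
# GBL Lat: adapted frames at a prime divisor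

As `GB/Lat` (`exists_rows`, minimal minor, Cramer), for an arbitrary frame `D` instead of `dualDer b`.
-/

set_option autoImplicit false

open Pool.Agent.H23.Fano (PrimeDivisorOver Form)

namespace Pool.Agent.GBL

/-- independent rows of a matrix with independent columns -/
private theorem exists_rows {K : Type} [Field K] {k d κ : ℕ} (hk : d + κ = k) (A : Fin k → Fin κ → K)
    (hA : LinearIndependent K fun l i => A i l) :
    ∃ σ : Fin d ⊕ Fin κ ≃ Fin k, (Matrix.of fun i l => A (σ (Sum.inr i)) l).det ≠ 0 := by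
  classical
  -- the rows span
  have hrank : (Matrix.of A).rank = κ := by
    have h1 : LinearIndependent K (Matrix.of A).col := hA
    simpa using h1.rank_matrix
  have hspan : Submodule.span K (Set.range A) = ⊤ := by
    apply Submodule.eq_top_of_finrank_eq
    have h2 := Matrix.rank_eq_finrank_span_row (Matrix.of A)
    rw [hrank] at h2
    have h3 : Module.finrank K (Fin κ → K) = κ := by simp
    rw [h3]
    exact h2.symm
  obtain ⟨ι, a, ha, hs, hli⟩ := exists_linearIndependent' K A
  have hsp : ⊤ ≤ Submodule.span K (Set.range (A ∘ a)) := by rw [hs, hspan]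
  let b := Module.Basis.mk hli hsp
  have : Finite ι := Finite.of_injective a ha
  have : Fintype ι := Fintype.ofFinite ι
  have hcard : Fintype.card ι = κ := by
    have := Module.finrank_eq_card_basis b
    simpa using this.symm
  let e : Fin κ ≃ ι := (Fintype.equivFinOfCardEq hcard).symm
  -- the injection of the indices
  let r : Fin κ → Fin k := fun i => a (e i)
  have hr : Function.Injective r := ha.comp e.injective
  have hli' : LinearIndependent K fun i => A (r i) := hli.comp e e.injective
  -- extend it to a bijection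
  have hc : Fintype.card {x : Fin k // x ∉ Set.range r} = d := by
    have h1 : Fintype.card {x : Fin k // x ∈ Set.range r} = κ := by
      rw [← Fintype.card_congr (Equiv.ofInjective r hr)]
      simp
    have h2 := Fintype.card_subtype_compl (fun x : Fin k => x ∈ Set.range r)
    rw [h1, Fintype.card_fin] at h2
    rw [h2]
    omega
  let e₁ : Fin κ ≃ {x : Fin k // x ∈ Set.range r} := Equiv.ofInjective r hr
  let e₂ : Fin d ≃ {x : Fin k // x ∉ Set.range r} := (Fintype.equivFinOfCardEq hc).symm
  let σ : Fin d ⊕ Fin κ ≃ Fin k :=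
    ((Equiv.sumCongr e₂ e₁).trans (Equiv.sumComm _ _)).trans (Equiv.sumCompl fun x => x ∈ Set.range r)
  refine ⟨σ, ?_⟩
  have hσ : ∀ i, σ (Sum.inr i) = r i := fun i => rfl
  have h1 : (Matrix.of fun i l => A (σ (Sum.inr i)) l) = Matrix.of fun i l => A (r i) l := by
    ext i l
    simp only [Matrix.of_apply, hσ]
  rw [h1]
  intro h0
  have h2 : LinearIndependent K (Matrix.of fun i l => A (r i) l).row := hli'
  rw [Matrix.linearIndependent_rows_iff_isUnit, Matrix.isUnit_iff_isUnit_det, isUnit_iff_ne_zero] at h2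
  exact h2 h0

theorem exists_latL {K : Type} [Field K] [Algebra ℂ K] {k d κ : ℕ} (hk : d + κ = k) {E : PrimeDivisorOver K k} {D : Fin k → Derivation ℂ K K}
    {φ : Fin κ → K} (hA : LinearIndependent K fun (l : Fin κ) (i : Fin k) => D i (φ l)) :
    ∃ (σ : Fin d ⊕ Fin κ ≃ Fin k) (n : Fin d → Fin κ → K), (∀ j i, 0 ≤ E.ord (n j i)) ∧
      (Matrix.of fun i l => D (σ (Sum.inr i)) (φ l)).det ≠ 0 ∧
      ∀ j l, D (σ (Sum.inl j)) (φ l) = ∑ i, n j i * D (σ (Sum.inr i)) (φ l) := by
  classical
  obtain ⟨σ₀, hσ₀⟩ := exists_rows hk (fun i l => D i (φ l)) hA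
  -- the choice of a minimal minor
  let S : Finset (Fin d ⊕ Fin κ ≃ Fin k) :=
    Finset.univ.filter fun σ => (Matrix.of fun i l => D (σ (Sum.inr i)) (φ l)).det ≠ 0
  obtain ⟨σ, hσS, hmin⟩ := S.exists_min_image
    (fun σ => E.ord (Matrix.of fun i l => D (σ (Sum.inr i)) (φ l)).det)
    ⟨σ₀, Finset.mem_filter.2 ⟨Finset.mem_univ _, hσ₀⟩⟩
  have hσ : (Matrix.of fun i l => D (σ (Sum.inr i)) (φ l)).det ≠ 0 := (Finset.mem_filter.1 hσS).2
  set B : Matrix (Fin κ) (Fin κ) K := Matrix.of fun i l => D (σ (Sum.inr i)) (φ l) with hB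
  refine ⟨σ, fun j i => (B.updateRow i fun l => D (σ (Sum.inl j)) (φ l)).det / B.det, ?_, hσ, ?_⟩
  · intro j i
    by_cases h0 : (B.updateRow i fun l => D (σ (Sum.inl j)) (φ l)).det = 0
    · show 0 ≤ E.ord (_ / B.det)
      rw [h0, zero_div, AddValuation.map_zero]
      exact le_top
    · have h1 : (Matrix.of fun i' l => D ((Equiv.swap (Sum.inl j) (Sum.inr i)).trans σ (Sum.inr i')) (φ l)) =
          B.updateRow i fun l => D (σ (Sum.inl j)) (φ l) := by
        ext i' l
        rw [Matrix.updateRow_apply, Matrix.of_apply, Equiv.trans_apply]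
        by_cases hi : i' = i
        · subst hi
          rw [Equiv.swap_apply_right, if_pos rfl]
        · rw [if_neg hi, Equiv.swap_apply_of_ne_of_ne (by simp) (by simpa using hi), hB, Matrix.of_apply]
      have h2 := hmin ((Equiv.swap (Sum.inl j) (Sum.inr i)).trans σ)
        (Finset.mem_filter.2 ⟨Finset.mem_univ _, by rw [h1]; exact h0⟩)
      simp only [h1] at h2
      have h3 : E.ord ((B.updateRow i fun l => D (σ (Sum.inl j)) (φ l)).det / B.det) + E.ord B.det =
          E.ord (B.updateRow i fun l => D (σ (Sum.inl j)) (φ l)).det := by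
        rw [← AddValuation.map_mul, div_mul_cancel₀ _ hσ]
      have h4 : E.ord B.det ≠ ⊤ := by
        intro h
        exact hσ ((AddValuation.top_iff _).1 h)
      have h5 : (0 : WithTop ℤ) + E.ord B.det ≤
          E.ord ((B.updateRow i fun l => D (σ (Sum.inl j)) (φ l)).det / B.det) + E.ord B.det := by
        rw [h3, zero_add]
        exact h2
      exact (WithTop.add_le_add_iff_right h4).1 h5
  · intro j l
    have h1 := congrFun (Matrix.mulVec_cramer B.transpose fun l => D (σ (Sum.inl j)) (φ l)) l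
    rw [Matrix.mulVec, dotProduct, Matrix.det_transpose, Pi.smul_apply, smul_eq_mul] at h1
    have h2 : D (σ (Sum.inl j)) (φ l) = (∑ i, B.transpose l i *
        (Matrix.cramer B.transpose fun l => D (σ (Sum.inl j)) (φ l)) i) / B.det := by
      rw [h1, mul_div_cancel_left₀ _ hσ]
    rw [h2, Finset.sum_div]
    refine Finset.sum_congr rfl fun i _ => ?_
    rw [Matrix.cramer_transpose_apply, Matrix.transpose_apply, hB, Matrix.of_apply]
    ring

end Pool.Agent.GBL

end

section

/-!
# GBL Max: the field of the quotients of logarithmic pluricanonical forms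

As `GB/Max` (same proof), with `RegL` instead of `RegF` and `Lfr.pole_of_regL`.
-/

set_option autoImplicit false

open MvPolynomial
open Pool.Agent.H23 (dualDer)
open Pool.Agent.H23.Fano (PrimeDivisorOver Form)
open Pool.Agent.H17LG.Variety (IsLogGeneralType)

namespace Pool.Agent.GBL

variable {K : Type} [Field K] [Algebra ℂ K] {k : ℕ} {Bd : PrimeDivisorOver K k → Prop}

theorem regL_one (z : Fin k → K) : RegL Bd z 0 1 := by
  intro E b _
  rw [pow_zero, mul_one, E.ord.map_one]

private lemma max_regL_mul {z : Fin k → K} {l l' : ℕ} {f f' : K} (h : RegL Bd z l f) (h' : RegL Bd z l' f') : RegL Bd z (l + l') (f * f') := by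
  intro E b hb
  have h1 : f * f' * jacL z b ^ (l + l') = (f * jacL z b ^ l) * (f' * jacL z b ^ l') := by
    rw [pow_add]; ring
  rw [h1, E.ord.map_mul]
  exact add_nonneg (h E b hb) (h' E b hb)

/-- the subfield of the constants of a derivation -/
private def cst (D : Derivation ℂ K K) : IntermediateField ℂ K where
  carrier := {f | D f = 0}
  mul_mem' := by
    intro a b ha hb
    simp only [Set.mem_ofPred_eq] at ha hb ⊢
    rw [Derivation.leibniz, ha, hb, smul_zero, smul_zero, add_zero]
  add_mem' := by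
    intro a b ha hb
    simp only [Set.mem_ofPred_eq] at ha hb ⊢
    rw [map_add, ha, hb, add_zero]
  algebraMap_mem' := by
    intro c
    simp only [Set.mem_ofPred_eq]
    exact D.map_algebraMap c
  inv_mem' := by
    intro a ha
    simp only [Set.mem_ofPred_eq] at ha ⊢
    rw [Derivation.leibniz_inv, ha, smul_zero]

/-- a derivation kills the elements which are algebraic over its field of constants -/
private lemma max_der_alg {D : Derivation ℂ K K} {x : K} (hx : IsAlgebraic (cst D) x) : D x = 0 := by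
  let D' : Derivation (cst D) K K := Derivation.mk' (R := cst D) (M := K)
    { toFun := fun f => D f
      map_add' := fun a b => map_add D a b
      map_smul' := by
        intro c f
        rw [RingHom.id_apply, Algebra.smul_def, Algebra.smul_def, Derivation.leibniz]
        have : D (algebraMap (cst D) K c) = 0 := c.2
        rw [this, smul_zero, add_zero, smul_eq_mul] }
    (fun a b => D.leibniz a b)
  have hD' : ∀ f, D' f = D f := fun f => rfl
  have : CharZero (cst D) := charZero_of_injective_algebraMap (algebraMap ℂ (cst D)).injective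
  have hint : IsIntegral (cst D) x := hx.isIntegral
  have hsep : IsSeparable (cst D) x := (minpoly.irreducible hint).separable
  have h1 := Derivation.map_aeval (minpoly (cst D) x) x (D := D')
  rw [minpoly.aeval, map_zero, hD', smul_eq_mul] at h1
  rcases mul_eq_zero.1 h1.symm with h2 | h2
  · exact absurd h2 (hsep.aeval_derivative_ne_zero (minpoly.aeval _ _))
  · exact h2

private lemma max_form_ne {z : Fin k → K} (hz : IsTranscendenceBasis ℂ z) : (Form.mk 1 z : Form K k) ≠ 0 := by
  obtain ⟨b, hb⟩ := Pool.Agent.H23.exists_basis_kaehler hz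
  intro h0
  have h1 : (1 : K) • (exteriorPower.ιMulti K k fun i => KaehlerDifferential.D ℂ K (z i)) = 0 := h0
  have h2 := Pool.Agent.H23.fc_self b
  simp only [hb] at h2
  rw [one_smul] at h1
  rw [h1, map_zero] at h2
  exact zero_ne_one h2

/-- there are `κ + 1` forms of the same weight with algebraically independent quotients -/
private def MaxP (Bd : PrimeDivisorOver K k → Prop) (z : Fin k → K) (κ : ℕ) : Prop :=
  ∃ (l : ℕ) (s : Fin (κ + 1) → K), s 0 ≠ 0 ∧ (∀ i, RegL Bd z l (s i)) ∧ AlgebraicIndependent ℂ (fun i : Fin κ => s i.succ / s 0)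

private lemma maxP_zero (Bd : PrimeDivisorOver K k → Prop) (z : Fin k → K) : MaxP Bd z 0 :=
  ⟨0, fun _ => 1, one_ne_zero, fun _ => regL_one z, algebraicIndependent_empty_type⟩

private lemma maxP_le {z : Fin k → K} (hz : IsTranscendenceBasis ℂ z) {κ : ℕ} (h : MaxP Bd z κ) : κ ≤ k := by
  obtain ⟨l, s, -, -, h⟩ := h
  have h1 := h.cardinalMk_le_trdeg
  rw [← hz.cardinalMk_eq_trdeg] at h1
  simpa using h1

theorem exists_maxL [Algebra.EssFiniteType ℂ K] (hk : 1 ≤ k) {z : Fin k → K} (hz : IsTranscendenceBasis ℂ z)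
    (hn : ¬ IsLogGeneralType (K := K) (k := k) Bd) {M : ℕ} {u : K} (hM : 1 ≤ M) (hu : RegL Bd z M u) (hu0 : u ≠ 0) :
    ∃ (κ l : ℕ) (s : Fin (κ + 1) → K), κ < k ∧ s 0 ≠ 0 ∧ (∀ i, RegL Bd z l (s i)) ∧
      AlgebraicIndependent ℂ (fun i : Fin κ => s i.succ / s 0) ∧
      ∀ (M' : ℕ) (u' v' : K), RegL Bd z M' u' → RegL Bd z M' v' → v' ≠ 0 →
        ∀ D : Derivation ℂ K K, (∀ i : Fin κ, D (s i.succ / s 0) = 0) → D (u' / v') = 0 := by
  classical
  set κ := Nat.findGreatest (MaxP Bd z) k with hκ
  have hP : MaxP Bd z κ := Nat.findGreatest_spec (P := MaxP Bd z) (m := 0) (Nat.zero_le _) (maxP_zero Bd z)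
  have hmax : ∀ κ', κ < κ' → ¬ MaxP Bd z κ' := by
    intro κ' h h'
    exact Nat.findGreatest_is_greatest h (maxP_le hz h') h'
  have hle : κ ≤ k := maxP_le hz hP
  obtain ⟨l, s, hs0, hs, hind⟩ := hP
  refine ⟨κ, l, s, lt_of_le_of_ne hle ?_, hs0, hs, hind, ?_⟩
  · intro hκk
    apply hn
    refine ⟨M + l, by omega, Form.mk 1 z, max_form_ne hz, κ, fun i => u * s i, mul_ne_zero hu0 hs0, ?_, ?_⟩
    · intro i E
      exact pole_of_regL hk hz (max_regL_mul hu (hs i)) E
    · have hb : IsTranscendenceBasis ℂ (fun i : Fin κ => s i.succ / s 0) := by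
        apply hind.isTranscendenceBasis_of_trdeg_le_of_finite
        rw [← hz.cardinalMk_eq_trdeg]
        simp [hκk]
      have hq : ∀ i, u * s i / (u * s 0) = s i / s 0 := fun i => mul_div_mul_left _ _ hu0
      have hsub : IntermediateField.adjoin ℂ (Set.range fun i : Fin κ => s i.succ / s 0) ≤
          IntermediateField.adjoin ℂ (Set.range fun i => u * s i / (u * s 0)) := by
        rw [IntermediateField.adjoin_le_iff]
        rintro _ ⟨i, rfl⟩
        apply IntermediateField.subset_adjoin
        exact ⟨i.succ, hq _⟩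
      refine ⟨fun x => ?_⟩
      obtain ⟨p, hp0, hp⟩ := (hb.isAlgebraic_field).isAlgebraic x
      letI : Algebra (IntermediateField.adjoin ℂ (Set.range fun i : Fin κ => s i.succ / s 0))
        (IntermediateField.adjoin ℂ (Set.range fun i => u * s i / (u * s 0))) := (IntermediateField.inclusion hsub).toRingHom.toAlgebra
      refine ⟨p.map (IntermediateField.inclusion hsub).toRingHom, ?_, ?_⟩
      · rwa [Ne, Polynomial.map_eq_zero_iff (IntermediateField.inclusion hsub).toRingHom.injective]
      · rw [Polynomial.aeval_def, Polynomial.eval₂_map]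
        exact hp
  · intro M' u' v' hu' hv' hv0 D hD
    by_cases halg : IsAlgebraic (Algebra.adjoin ℂ (Set.range fun i : Fin κ => s i.succ / s 0)) (u' / v')
    · apply max_der_alg
      obtain ⟨p, hp0, hp⟩ := halg
      have hsub : Algebra.adjoin ℂ (Set.range fun i : Fin κ => s i.succ / s 0) ≤ (cst D).toSubalgebra := by
        rw [Algebra.adjoin_le_iff]
        rintro _ ⟨i, rfl⟩
        exact hD i
      refine ⟨p.map (Subalgebra.inclusion hsub).toRingHom, ?_, ?_⟩
      · rwa [Ne, Polynomial.map_eq_zero_iff]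
        exact Subalgebra.inclusion_injective hsub
      · rw [Polynomial.aeval_def]
        erw [Polynomial.eval₂_map]
        exact hp
    · exfalso
      have h1 := (hind.option_iff_transcendental (u' / v')).2 halg
      apply hmax (κ + 1) (Nat.lt_succ_self _)
      let s' : Fin (κ + 1 + 1) → K := Fin.snoc (fun i => s i * v') (s 0 * u')
      have hs'0 : s' 0 = s 0 * v' := by
        have : (0 : Fin (κ + 1 + 1)) = Fin.castSucc 0 := rfl
        rw [this]
        exact Fin.snoc_castSucc (α := fun _ => K) _ _ _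
      refine ⟨l + M', s', ?_, ?_, ?_⟩
      · rw [hs'0]; exact mul_ne_zero hs0 hv0
      · intro i
        refine Fin.lastCases ?_ (fun j => ?_) i
        · have : s' (Fin.last _) = s 0 * u' := Fin.snoc_last (α := fun _ => K) _ _
          rw [this]
          exact max_regL_mul (hs 0) hu'
        · have : s' (Fin.castSucc j) = s j * v' := Fin.snoc_castSucc (α := fun _ => K) _ _ _
          rw [this]
          exact max_regL_mul (hs j) hv'
      · refine (algebraicIndependent_equiv' (finSuccEquivLast (n := κ)) (f := fun o : Option (Fin κ) => o.elim (u' / v') fun i => s i.succ / s 0) ?_).2 h1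
        funext i
        refine Fin.lastCases ?_ (fun j => ?_) i
        · rw [Function.comp_apply, finSuccEquivLast_last, Option.elim_none, hs'0]
          have : s' (Fin.last κ).succ = s 0 * u' := Fin.snoc_last (α := fun _ => K) _ _
          rw [this, mul_div_mul_left _ _ hs0]
        · rw [Function.comp_apply, finSuccEquivLast_castSucc, Option.elim_some, hs'0]
          have : s' (Fin.castSucc j).succ = s j.succ * v' := by
            rw [Fin.succ_castSucc]
            exact Fin.snoc_castSucc (α := fun _ => K) _ _ _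
          rw [this, mul_div_mul_right _ _ hv0]

end Pool.Agent.GBL

end

section

/-!
# GBL Reg: the determinants are logarithmic pluricanonical forms

As `GB/Reg` (same proof), with a logarithmic frame `D` at `E` instead of `dualDer b`: `Lat.exists_latL` (with `LFr.indep`), `e'_j = D (σ (inl j)) - ∑ i, n j i • D (σ (inr i))` and `h'_i = D (σ (inr i))` are
logarithmic derivations (`LFr.lDer`, `LDer.sub`, `LDer.sum`, `LDer.smul`), `vol z ε e' h' = ± jacL z D`, `GB.exists_change`.
-/

set_option autoImplicit false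

open MvPolynomial
open Pool.Agent.H23.Fano (PrimeDivisorOver Form)
open Pool.Agent.GB (Mon cdet sbs IsWeight vol dph exists_change)

namespace Pool.Agent.GBL

private theorem reg_det_mem {K : Type} [Field K] [Algebra ℂ K] {ν : Type*} [Fintype ν] [DecidableEq ν] (O : Subalgebra ℂ K) (A : Matrix ν ν K)
    (hA : ∀ i j, A i j ∈ O) : A.det ∈ O := by
  rw [Matrix.det_apply]
  refine sum_mem fun σ _ => ?_
  rw [Units.smul_def, zsmul_eq_mul]
  exact mul_mem (intCast_mem O _) (prod_mem fun i _ => hA _ _)

private theorem reg_der_sum {K : Type} [Field K] [Algebra ℂ K] {ν : Type*} (t : Finset ν) (D : ν → Derivation ℂ K K) (f : K) :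
    (∑ i ∈ t, D i) f = ∑ i ∈ t, D i f := by
  classical
  induction t using Finset.induction_on with
  | empty => simp
  | insert i t hi ih => rw [Finset.sum_insert hi, Finset.sum_insert hi, Derivation.add_apply, ih]

theorem reg_cdetL {K : Type} [Field K] [Algebra ℂ K] {k d κ M a l : ℕ} {ι : Type} {Bd : PrimeDivisorOver K k → Prop} {z : Fin k → K}
    (hz : IsTranscendenceBasis ℂ z) (Ψ : SymFamL K k Bd d M ι) (ha : IsWeight d M a) {s : Fin (κ + 1) → K} (hs0 : s 0 ≠ 0) (hs : ∀ i, RegL Bd z l (s i))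
    (hφ : LinearIndependent K fun i : Fin κ => KaehlerDifferential.D ℂ K (s i.succ / s 0))
    {ε : Fin d ⊕ Fin κ ≃ Fin k} {e : Fin d → Derivation ℂ K K} {h : Fin κ → Derivation ℂ K K}
    (he : ∀ (j : Fin d) (i : Fin κ), e j (s i.succ / s 0) = 0) (hv : vol z ε e h ≠ 0) (I : Mon d M → ι) :
    RegL Bd z (a + 2 * κ * a * l)
      (cdet (fun α => Ψ.fn (I α) e) * (dph (fun i : Fin κ => s i.succ / s 0) h / vol z ε e h) ^ a * s 0 ^ (2 * κ * a)) := by
  classical
  have : CharZero K := charZero_of_injective_algebraMap (algebraMap ℂ K).injective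
  intro E D hD
  set φ : Fin κ → K := fun i => s i.succ / s 0 with hφdef
  have hk : d + κ = k := by simpa using Fintype.card_congr ε
  obtain ⟨σ, n, hn, hdet, hrel⟩ := exists_latL hk (E := E) (D := D) (hD.indep hφ)
  have hγ : jacL z D ≠ 0 := hD.jac_ne hz
  set γ : K := jacL z D with hγdef
  let O : Subalgebra ℂ K := Pool.Agent.H23.valRing E.ord E.ord_const
  have hO : ∀ f : K, f ∈ O ↔ 0 ≤ E.ord f := fun f => Iff.rfl
  -- the frame at `E`
  let h' : Fin κ → Derivation ℂ K K := fun i => D (σ (Sum.inr i))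
  let e' : Fin d → Derivation ℂ K K := fun j => D (σ (Sum.inl j)) - ∑ i, n j i • D (σ (Sum.inr i))
  have e'_apply : ∀ j f, e' j f = D (σ (Sum.inl j)) f - ∑ i, n j i * D (σ (Sum.inr i)) f := by
    intro j f
    simp only [e', Derivation.coe_sub, Pi.sub_apply, reg_der_sum, Derivation.coe_smul, Pi.smul_apply, smul_eq_mul]
  have hh'O : ∀ i f, f ∈ O → h' i f ∈ O := fun i f hf => (hD.lDer _).1 f hf
  have he'L : ∀ j, LDer Bd E (e' j) := fun j => (hD.lDer _).sub (LDer.sum fun i => (hD.lDer _).smul (hn j i))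
  have he' : ∀ (j : Fin d) (i : Fin κ), e' j (φ i) = 0 := by
    intro j i
    rw [e'_apply, hrel j i, sub_self]
  -- `vol z ε e' h' = ± jacL z D`
  obtain ⟨u, hu, hu2, huO⟩ : ∃ u : K, vol z ε e' h' = u * γ ∧ u * u = 1 ∧ u ∈ O := by
    have hm : (Matrix.of fun r s : Fin d ⊕ Fin κ => (Sum.elim e' h' r) (z (ε s))) =
        Matrix.fromBlocks 1 (-(Matrix.of n)) 0 1 * (Matrix.of fun i j => D i (z j)).submatrix σ ε := by
      ext r s
      rw [Matrix.mul_apply, Fintype.sum_sum_type]
      rcases r with j | i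
      · simp only [Matrix.of_apply, Sum.elim_inl, Matrix.fromBlocks_apply₁₁, Matrix.fromBlocks_apply₁₂, Matrix.submatrix_apply, Matrix.neg_apply,
          e'_apply, Matrix.one_apply, ite_mul, one_mul, zero_mul, Finset.sum_ite_eq, Finset.mem_univ, if_true, neg_mul, Finset.sum_neg_distrib]
        ring
      · simp only [Matrix.of_apply, Sum.elim_inr, Matrix.fromBlocks_apply₂₁, Matrix.fromBlocks_apply₂₂, Matrix.submatrix_apply, Matrix.zero_apply,
          Matrix.one_apply, ite_mul, one_mul, zero_mul, Finset.sum_ite_eq, Finset.mem_univ, if_true, Finset.sum_const_zero, zero_add]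
        rfl
    have hσ : ((Matrix.of fun i j => D i (z j)).submatrix σ ε).det = (Equiv.Perm.sign (σ.symm.trans ε) : ℤ) * γ := by
      have h1 : (Matrix.of fun i j => D i (z j)).submatrix σ ε =
          ((Matrix.of fun i j => D i (z j)).submatrix id (σ.symm.trans ε)).submatrix σ σ := by
        ext r s
        simp
      rw [h1, Matrix.det_submatrix_equiv_self, Matrix.det_permute']
      rfl
    refine ⟨((Equiv.Perm.sign (σ.symm.trans ε) : ℤ) : K), ?_, ?_, intCast_mem O _⟩
    · unfold vol
      rw [hm, Matrix.det_mul, Matrix.det_fromBlocks_zero₂₁, Matrix.det_one, Matrix.det_one, one_mul, one_mul, hσ]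
    · rcases Int.units_eq_one_or (Equiv.Perm.sign (σ.symm.trans ε)) with h1 | h1 <;> rw [h1] <;> simp
  have hu0 : u ≠ 0 := by
    rintro rfl
    simp at hu2
  have hv' : vol z ε e' h' ≠ 0 := by
    rw [hu]
    exact mul_ne_zero hu0 hγ
  obtain ⟨G, hG0, hGe, hGd⟩ := exists_change hz hφ he he' hv hv'
  -- change of the frame in `Ψ`
  have hcd : cdet (fun α => Ψ.fn (I α) e') = G.det ^ a * cdet (fun α => Ψ.fn (I α) e) := by
    rw [← ha K G hG0 (fun α => Ψ.fn (I α) e) fun α => Ψ.hom _ _]
    congr 1
    funext α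
    rw [← Ψ.subst]
    congr 1
    funext r
    exact hGe r
  have hcO : cdet (fun α => Ψ.fn (I α) e') ∈ O := by
    unfold cdet
    refine reg_det_mem O _ fun α β => ?_
    exact Ψ.reg (I α) e' E he'L _
  -- the functions `τ`
  have hτ : ∀ i, s i * γ ^ l ∈ O := fun i => hs i E D hD
  have hrow : ∀ (i j : Fin κ), (s 0 * γ ^ l) ^ 2 * h' i (φ j) ∈ O := by
    intro i j
    have hτ0 : s 0 * γ ^ l ≠ 0 := mul_ne_zero hs0 (pow_ne_zero _ hγ)
    have e1 : φ j = s j.succ * γ ^ l / (s 0 * γ ^ l) := by
      rw [mul_div_mul_right _ _ (pow_ne_zero _ hγ)]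
    have e2 : (s 0 * γ ^ l) ^ 2 * h' i (φ j) = (s 0 * γ ^ l) * h' i (s j.succ * γ ^ l) - (s j.succ * γ ^ l) * h' i (s 0 * γ ^ l) := by
      rw [e1, Derivation.leibniz_div]
      simp only [smul_eq_mul]
      field_simp
    rw [e2]
    exact sub_mem (mul_mem (hτ 0) (hh'O i _ (hτ _))) (mul_mem (hτ _) (hh'O i _ (hτ 0)))
  have hdph : (s 0 * γ ^ l) ^ (2 * κ) * dph φ h' ∈ O := by
    have e1 : (s 0 * γ ^ l) ^ (2 * κ) * dph φ h' = (Matrix.of fun i j : Fin κ => (s 0 * γ ^ l) ^ 2 * h' i (φ j)).det := by
      unfold dph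
      have e2 : (Matrix.of fun i j : Fin κ => (s 0 * γ ^ l) ^ 2 * h' i (φ j)) = ((s 0 * γ ^ l) ^ 2) • (Matrix.of fun i j : Fin κ => h' i (φ j)) := by
        ext i j
        simp
      rw [e2, Matrix.det_smul, Fintype.card_fin, pow_mul]
    rw [e1]
    exact reg_det_mem O _ fun i j => hrow i j
  -- the end
  rw [← hO]
  have hfin : cdet (fun α => Ψ.fn (I α) e) * (dph φ h / vol z ε e h) ^ a * s 0 ^ (2 * κ * a) * γ ^ (a + 2 * κ * a * l) =
      cdet (fun α => Ψ.fn (I α) e') * ((s 0 * γ ^ l) ^ (2 * κ) * dph φ h') ^ a * u ^ a := by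
    have h1 : dph φ h / vol z ε e h = dph φ h' * u / γ * G.det := by
      rw [eq_div_iff hG0] at hGd
      rw [← hGd, hu]
      field_simp
      rw [pow_two, hu2, one_mul]
    have hq : (dph φ h' * u / γ * G.det) ^ a * γ ^ a = (dph φ h' * u * G.det) ^ a := by
      rw [← mul_pow]
      congr 1
      field_simp
    rw [h1, hcd]
    calc cdet (fun α => Ψ.fn (I α) e) * (dph φ h' * u / γ * G.det) ^ a * s 0 ^ (2 * κ * a) * γ ^ (a + 2 * κ * a * l) =
          cdet (fun α => Ψ.fn (I α) e) * ((dph φ h' * u / γ * G.det) ^ a * γ ^ a) * (s 0 ^ (2 * κ * a) * γ ^ (2 * κ * a * l)) := by ring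
      _ = cdet (fun α => Ψ.fn (I α) e) * (dph φ h' * u * G.det) ^ a * (s 0 ^ (2 * κ * a) * γ ^ (2 * κ * a * l)) := by rw [hq]
      _ = _ := by ring
  rw [hfin]
  exact mul_mem (mul_mem hcO (pow_mem hdph _)) (pow_mem huO _)

end Pool.Agent.GBL

end

section

/-!
# GL Disc: the flow of a polynomial vector field which is tangent to all relations

`Z' = a (Z)`, `Z 0 = y w₁`, `a s = A s` with the coefficients evaluated at `w₁` (`GG.exists_flowG`).  For a relation `R` the derivative of `t ↦ R (w₁; Z t)`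
is `(A R) (w₁; Z t)`, where `A R = ∑ i, pderiv i R * A i` is a relation by `hA`.  A relation with a function of finite order at `0` is impossible, by induction
on the order.
-/

set_option autoImplicit false

open MvPolynomial Topology Filter Metric
open Pool.Agent.GG Pool.Agent.GA

namespace Pool.Agent.GL

private theorem disc_deriv {σ : Type} [Fintype σ] {Z : ℂ → σ → ℂ} {Z' : σ → ℂ} {t : ℂ} (hZ : HasDerivAt Z Z' t)
    (g : MvPolynomial σ ℂ) : HasDerivAt (fun t => eval (Z t) g) (∑ i, eval (Z t) (pderiv i g) * Z' i) t := by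
  classical
  induction g using MvPolynomial.induction_on with
  | C a => simpa using hasDerivAt_const t a
  | add p q hp hq =>
    have h := hp.add hq
    simp only [map_add, add_mul, Finset.sum_add_distrib]
    exact h
  | mul_X p j hp =>
    have hj : HasDerivAt (fun t => Z t j) (Z' j) t := (hasDerivAt_pi.1 hZ) j
    have h := hp.mul hj
    have h1 : ∑ i, eval (Z t) (pderiv i (p * X j)) * Z' i = (∑ i, eval (Z t) (pderiv i p) * Z' i) * Z t j + eval (Z t) p * Z' j := by
      have h2 : ∀ i, eval (Z t) (pderiv i (p * X j)) * Z' i = eval (Z t) (pderiv i p) * Z' i * Z t j + if i = j then eval (Z t) p * Z' i else 0 := by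
        intro i
        rw [Derivation.leibniz, pderiv_X]
        by_cases hij : i = j
        · subst hij
          simp
          ring
        · have : j ≠ i := fun h => hij h.symm
          rw [Pi.single_eq_of_ne this]
          simp [hij]
          ring
      rw [Finset.sum_congr rfl fun i _ => h2 i, Finset.sum_add_distrib, ← Finset.sum_mul, Finset.sum_ite_eq' Finset.univ j]
      simp
    rw [h1]
    have h5 : (fun t => eval (Z t) (p * X j)) = (fun t => eval (Z t) p) * fun t => Z t j := by
      funext t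
      simp
    rw [h5]
    exact h

private theorem disc_eval₂ {σ : Type} (OO : Subalgebra ℂ (ℂ → ℂ)) (w : ℂ) (x : σ → ℂ) (R : MvPolynomial σ OO) :
    eval₂ (ev0 OO w) x R = eval x (map (ev0 OO w) R) := by
  rw [eval_map]

theorem exists_disc {σ : Type} [Fintype σ] {OO : Subalgebra ℂ (ℂ → ℂ)} {y : ℂ → σ → ℂ} {w₁ : ℂ} (A : σ → MvPolynomial σ OO)
    (hA : ∀ R : MvPolynomial σ OO, (∀ᶠ w in 𝓝 w₁, evO OO y R w = 0) → ∀ᶠ w in 𝓝 w₁, ∑ i, evO OO y (pderiv i R) w * evO OO y (A i) w = 0) :
    ∃ Z : ℂ → σ → ℂ, AnalyticAt ℂ Z 0 ∧ Z 0 = y w₁ ∧ (∀ s, deriv Z 0 s = evO OO y (A s) w₁) ∧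
      ∀ R : MvPolynomial σ OO, (∀ᶠ w in 𝓝 w₁, evO OO y R w = 0) → ∀ᶠ t in 𝓝 (0 : ℂ), eval₂ (ev0 OO w₁) (Z t) R = 0 := by
  classical
  -- the vector field
  set V : (σ → ℂ) → σ → ℂ := fun x s => eval₂ (ev0 OO w₁) x (A s) with hV
  have hVan : AnalyticAt ℂ V (y w₁) := by
    refine AnalyticAt.pi fun s => ?_
    simp only [disc_eval₂]
    have h1 := AnalyticAt.aeval_mvPolynomial (𝕜 := ℂ) (f := fun x : σ → ℂ => x) (z := y w₁)
      (fun i => (ContinuousLinearMap.proj (R := ℂ) (φ := fun _ : σ => ℂ) i).analyticAt _) (map (ev0 OO w₁) (A s))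
    simpa only [aeval_eq_eval] using h1
  obtain ⟨r, hr, H, hHa, hH0, hHd⟩ := exists_flowG hVan
  have hy : y w₁ ∈ ball (y w₁) r := mem_ball_self hr
  set Z : ℂ → σ → ℂ := fun t => H (t, y w₁) with hZ
  have hZan : ∀ t ∈ ball (0 : ℂ) r, AnalyticAt ℂ Z t := fun t ht =>
    AnalyticAt.comp_of_eq (g := H) (hHa (t, y w₁) ⟨ht, hy⟩) (analyticAt_id.prod analyticAt_const) rfl
  have hZd : ∀ t ∈ ball (0 : ℂ) r, HasDerivAt Z (V (Z t)) t := fun t ht => (hHd _ hy t ht).2
  have hZ0 : Z 0 = y w₁ := hH0 _ hy
  have h0 : (0 : ℂ) ∈ ball (0 : ℂ) r := mem_ball_self hr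
  -- the derivative of a relation along the flow
  have hder : ∀ (R : MvPolynomial σ OO), ∀ t ∈ ball (0 : ℂ) r, HasDerivAt (fun t => eval₂ (ev0 OO w₁) (Z t) R)
      (eval₂ (ev0 OO w₁) (Z t) (∑ i, pderiv i R * A i)) t := by
    intro R t ht
    have h1 := disc_deriv (hZd t ht) (map (ev0 OO w₁) R)
    simp only [disc_eval₂] at h1 ⊢
    convert h1 using 1
    rw [map_sum, map_sum]
    refine Finset.sum_congr rfl fun i _ => ?_
    rw [map_mul, map_mul, ← pderiv_map]
    congr 1
    exact (disc_eval₂ OO w₁ (Z t) (A i)).symm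
  have han : ∀ R : MvPolynomial σ OO, AnalyticAt ℂ (fun t => eval₂ (ev0 OO w₁) (Z t) R) 0 := by
    intro R
    refine (DifferentiableOn.analyticAt (s := ball (0 : ℂ) r) (fun t ht => (hder R t ht).differentiableAt.differentiableWithinAt) ?_)
    exact isOpen_ball.mem_nhds h0
  -- no finite order
  have hord : ∀ n : ℕ, ∀ R : MvPolynomial σ OO, (∀ᶠ w in 𝓝 w₁, evO OO y R w = 0) → analyticOrderAt (fun t => eval₂ (ev0 OO w₁) (Z t) R) 0 ≠ n := by
    intro n
    induction n with
    | zero =>
      intro R hR h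
      have h1 : eval₂ (ev0 OO w₁) (Z 0) R = 0 := by
        rw [hZ0]
        exact hR.self_of_nhds
      exact ((han R).analyticOrderAt_eq_zero.1 (by simpa using h)) h1
    | succ n ih =>
      intro R hR h
      have hR' : ∀ᶠ w in 𝓝 w₁, evO OO y (∑ i, pderiv i R * A i) w = 0 := by
        filter_upwards [hA R hR] with w hw
        simp only [evO, eval₂_sum, eval₂_mul] at hw ⊢
        exact hw
      have h1 : eval₂ (ev0 OO w₁) (Z 0) R = 0 := by
        rw [hZ0]
        exact hR.self_of_nhds
      have h2 := (han R).analyticOrderAt_deriv_add_one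
      simp only [h1, sub_zero] at h2
      rw [h] at h2
      have h3 : deriv (fun t => eval₂ (ev0 OO w₁) (Z t) R) =ᶠ[𝓝 0] fun t => eval₂ (ev0 OO w₁) (Z t) (∑ i, pderiv i R * A i) := by
        filter_upwards [isOpen_ball.mem_nhds h0] with t ht
        exact (hder R t ht).deriv
      rw [analyticOrderAt_congr h3] at h2
      refine ih _ hR' ?_
      have h4 : ((n : ℕ∞) + 1) = ((n + 1 : ℕ) : ℕ∞) := by push_cast; rfl
      rw [← h4] at h2
      exact ENat.add_left_injective_of_ne_top ENat.one_ne_top h2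
  refine ⟨Z, hZan 0 h0, hZ0, fun s => ?_, fun R hR => ?_⟩
  · rw [(hZd 0 h0).deriv, hZ0]
    rfl
  · rw [← analyticOrderAt_eq_top]
    by_contra hne
    obtain ⟨n, hn⟩ := ENat.ne_top_iff_exists.1 hne
    exact hord n R hR hn.symm

end Pool.Agent.GL

end
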