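import Pool.Agent.H18.GGT.M26
import Pool.Agent.H18.GGT.M53
import Pool.Agent.H18.GGT.M60
import Pool.Agent.H18.GGT.M63
import Pool.Agent.H18.GGT.M68
import Pool.Agent.H18.GGT.M70
import Pool.Agent.H18.GGT.M77
import Pool.Agent.H18.GGT.M87
import Pool.Agent.H18.GGT.M89
import Pool.Agent.H18.GGT.M91
import Pool.Agent.H18.GGT.M92

/-! The parts of this file: GL.E2A, GL.EntL, GBL.Vd, GLS.Der, GBL.Asm, GBL.Fin, GL.CntL, GTL.NoE, GTL.Bd, GTL.Str, GL.ExtL, GL.Dir, GL.EndL, GL.Crv, GL.Ent1, GBL.Use, GL.VbB, GLS.Orb. -/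

section

/-!
# GL E2A: polynomial curves in the chart are constant

Liouville: the `F j` are polynomials; for `i ∈ B` without zeros, so constant.  `LL B (F z) (F' z) = ‖F' z‖ / ‖F z‖ → 0` for `z → ∞` (degrees), so the entire functions `thv θ (F z) (F' z) k` tend to `0` (`theta_bdL`) and are `0`; then `F' = 0` by
`theta_bdL`.  (`analyticAt_thv`, `deriv_mem_Tc` of `GL/Chart`.)
-/

set_option autoImplicit false

open MvPolynomial Topology Filter Metric
open Pool.Agent.H13.SM (conTan cone)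
open Pool.Agent.H62.FC (Homog)
open Pool.Agent.GG Pool.Agent.GA

namespace Pool.Agent.GL

variable {N : ℕ} {P : Ideal (MvPolynomial (Fin (N + 1)) ℂ)} {B : Finset (Fin (N + 1))} {J : ℕ} {m : Fin J → ℕ} {θ : ∀ k, LogSec P B (m k)} {b : Fin (N + 1)}

/-- an entire function of polynomial growth is a polynomial -/
private theorem E2A_poly : ∀ (e : ℕ) {f : ℂ → ℂ}, Differentiable ℂ f → ∀ {C : ℝ}, (∀ z, ‖f z‖ ≤ C * (1 + ‖z‖) ^ e) → ∃ p : Polynomial ℂ, ∀ z, f z = p.eval z := by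
  intro e
  induction e with
  | zero =>
    intro f hf C hC
    refine ⟨Polynomial.C (f 0), fun z => ?_⟩
    rw [Polynomial.eval_C]
    refine hf.apply_eq_apply_of_bounded ?_ z 0
    rw [isBounded_iff_forall_norm_le]
    refine ⟨C, ?_⟩
    rintro _ ⟨z, rfl⟩
    simpa using hC z
  | succ e ih =>
    intro f hf C hC
    have hC0 : 0 ≤ C := by
      have := (norm_nonneg _).trans (hC 0)
      simpa using this
    have hg : Differentiable ℂ (dslope f 0) := by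
      have := (Complex.differentiableOn_dslope (s := Set.univ) (c := (0 : ℂ)) (f := f) Filter.univ_mem).2 hf.differentiableOn
      exact differentiableOn_univ.1 this
    obtain ⟨K, hK⟩ := (isCompact_closedBall (0 : ℂ) 1).exists_bound_of_continuousOn hg.continuous.continuousOn
    obtain ⟨p, hp⟩ := ih hg (C := |K| + 4 * C) (by
      intro z
      have h1 : 1 ≤ (1 + ‖z‖) ^ e := one_le_pow₀ (by linarith [norm_nonneg z])
      by_cases hz : ‖z‖ ≤ 1
      · have h2 := (hK z (by simpa using hz)).trans (le_abs_self K)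
        have h3 : 0 ≤ |K| := abs_nonneg K
        nlinarith
      · have hz' : 1 < ‖z‖ := not_le.1 hz
        have hz0 : z ≠ 0 := norm_pos_iff.1 (by linarith)
        have h2 : dslope f 0 z = (f z - f 0) / z := by
          rw [dslope_of_ne _ hz0, slope_def_field, sub_zero]
        rw [h2, norm_div, div_le_iff₀ (by linarith)]
        have h3 := hC z
        have h4 := hC 0
        rw [norm_zero, add_zero, one_pow, mul_one] at h4
        have h5 : (1 + ‖z‖) ^ (e + 1) ≤ 2 * (1 + ‖z‖) ^ e * ‖z‖ := by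
          rw [pow_succ]
          nlinarith
        have h6 : C ≤ C * ((1 + ‖z‖) ^ e * ‖z‖) := by
          have : 1 ≤ (1 + ‖z‖) ^ e * ‖z‖ := by nlinarith
          nlinarith
        have h7 : 0 ≤ |K| * ((1 + ‖z‖) ^ e * ‖z‖) := by positivity
        calc ‖f z - f 0‖ ≤ ‖f z‖ + ‖f 0‖ := norm_sub_le _ _
          _ ≤ C * (2 * (1 + ‖z‖) ^ e * ‖z‖) + C * ((1 + ‖z‖) ^ e * ‖z‖) :=
            add_le_add (h3.trans (mul_le_mul_of_nonneg_left h5 hC0)) (h4.trans h6)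
          _ ≤ (|K| + 4 * C) * (1 + ‖z‖) ^ e * ‖z‖ := by
            have h8 : 0 ≤ C * ((1 + ‖z‖) ^ e * ‖z‖) := by positivity
            nlinarith)
    refine ⟨Polynomial.C (f 0) + Polynomial.X * p, fun z => ?_⟩
    rw [Polynomial.eval_add, Polynomial.eval_mul, Polynomial.eval_X, Polynomial.eval_C, ← hp]
    have h1 := sub_smul_dslope f 0 z
    rw [sub_zero, smul_eq_mul] at h1
    rw [h1]
    ring

/-- a polynomial curve in the chart with `θ = const` is constant (also used in `EntL`) -/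
theorem poly_curve (hP : Homog P) (hθ : LogPolar θ) (hm : ∀ k, 1 ≤ m k) (hb : b ∈ B) {F : ℂ → Fin (N + 1) → ℂ} (hF : ∀ z, AnalyticAt ℂ F z) (hU : ∀ z, F z ∈ Uc P B b)
    {C : ℝ} {e : ℕ} (hC : ∀ z, ‖F z‖ ≤ C * (1 + ‖z‖) ^ e) : ∀ z, deriv F z = 0 := by
  obtain ⟨c₀, hc₀, C₁, hC₁, hbd⟩ := theta_bdL hP hθ hm hb
  have hFi : ∀ j z, AnalyticAt ℂ (fun z => F z j) z := fun j z => (analyticAt_pi_iff.1 (hF z)) j
  choose p hp using fun j => E2A_poly e (f := fun z => F z j) (fun z => (hFi j z).differentiableAt) (C := C) fun z => (norm_le_pi_norm (F z) j).trans (hC z)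
  have hd : ∀ z j, deriv F z j = (p j).derivative.eval z := fun z j => by
    have h1 : HasDerivAt (fun z => F z j) (deriv F z j) z := (hasDerivAt_pi.1 (hF z).differentiableAt.hasDerivAt) j
    have h2 : HasDerivAt (fun z => F z j) ((p j).derivative.eval z) z := by
      rw [funext (hp j)]
      exact (p j).hasDerivAt z
    exact h1.unique h2
  have hF1 : ∀ z, 1 ≤ ‖F z‖ := fun z => by
    have h1 := norm_le_pi_norm (F z) b
    rw [(hU z).2.1, norm_one] at h1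
    exact h1
  -- the derivative is small
  have hlo : (fun z => deriv F z) =o[Bornology.cobounded ℂ] fun z => ‖F z‖ := by
    rw [Asymptotics.isLittleO_pi]
    intro j
    by_cases h0 : p j = 0
    · have h1 : (fun z => deriv F z j) = fun _ => 0 := by
        funext z
        rw [hd, h0, Polynomial.derivative_zero, Polynomial.eval_zero]
      rw [h1]
      exact Asymptotics.isLittleO_zero _ _
    · have h1 : (p j).derivative.eval =o[Bornology.cobounded ℂ] (p j).eval :=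
        Polynomial.isLittleO_cobounded_of_degree_lt (Polynomial.degree_derivative_lt h0)
      have h2 : (p j).eval =O[Bornology.cobounded ℂ] fun z => ‖F z‖ := by
        refine Asymptotics.IsBigO.of_bound 1 (Eventually.of_forall fun z => ?_)
        rw [one_mul, norm_norm, ← hp]
        exact norm_le_pi_norm (F z) j
      have h3 : (fun z => deriv F z j) = (p j).derivative.eval := by
        funext z
        rw [hd]
      rw [h3]
      exact h1.trans_isBigO h2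
  have hB : ∀ i ∈ B, ∀ z, deriv F z i = 0 := fun i hi z => by
    have h2 : (p i).degree = 0 := by
      by_contra h
      obtain ⟨x, hx⟩ := IsAlgClosed.exists_root (p i) h
      exact (hU x).2.2 i hi ((hp i x).trans hx)
    rw [hd, Polynomial.eq_C_of_degree_eq_zero h2, Polynomial.derivative_C, Polynomial.eval_zero]
  have hLL : ∀ z, LL B (F z) (deriv F z) = ‖deriv F z‖ / ‖F z‖ := fun z => by
    have h1 : ∑ i ∈ B, ‖deriv F z i‖ / ‖F z i‖ = 0 := Finset.sum_eq_zero fun i hi => by rw [hB i hi, norm_zero, zero_div]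
    unfold LL
    rw [h1, add_zero]
  have hLt : Tendsto (fun z => LL B (F z) (deriv F z)) (Bornology.cobounded ℂ) (𝓝 0) := by
    have h1 := hlo.norm_left.tendsto_div_nhds_zero
    simp only [hLL]
    exact h1
  have hT : ∀ z, deriv F z ∈ Tc P b (F z) := fun z => deriv_mem_Tc (hF z) (Eventually.of_forall hU)
  have hg : ∀ k z, thv θ (F z) (deriv F z) k = 0 := fun k => by
    have h1 : Differentiable ℂ fun z => thv θ (F z) (deriv F z) k := fun z =>
      (analyticAt_thv (hF z) (hF z).deriv (Eventually.of_forall fun w => ⟨hU w, hT w⟩) k).differentiableAt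
    have h2 : Tendsto (fun z => thv θ (F z) (deriv F z) k) (cocompact ℂ) (𝓝 0) := by
      rw [← Metric.cobounded_eq_cocompact, tendsto_zero_iff_norm_tendsto_zero]
      have h3 : Tendsto (fun z => C₁ * LL B (F z) (deriv F z) ^ m k) (Bornology.cobounded ℂ) (𝓝 0) := by
        have h4 := (hLt.pow (m k)).const_mul C₁
        rw [zero_pow (by have := hm k; omega), mul_zero] at h4
        exact h4
      exact squeeze_zero (fun z => norm_nonneg _) (fun z => (hbd (F z) (hU z) (deriv F z) (hT z)).1 k) h3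
    exact fun z => h1.apply_eq_of_tendsto_cocompact z h2
  intro z
  by_contra hne
  obtain ⟨k, hk⟩ := (hbd (F z) (hU z) (deriv F z) (hT z)).2 hne
  rw [hg k z, norm_zero, hLL] at hk
  have h1 : 0 < ‖deriv F z‖ / ‖F z‖ := div_pos (norm_pos_iff.2 hne) (lt_of_lt_of_le one_pos (hF1 z))
  have h2 : 0 < c₀ * (‖deriv F z‖ / ‖F z‖) ^ m k := mul_pos hc₀ (pow_pos h1 _)
  linarith

end Pool.Agent.GL

end

section

/-!
# GL EntL: from the punctured disc to entire curves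

As `GA/Ent` (`entire_of_punctured`): `f (1 / z)` on the punctured disc.  If `R (f z) ≠ 0` for some `z` then `R (f z) ≠ 0` for some `|z| > 1` (identity theorem), so `f (1 / z)` extends; with the lift `F` of `f` in the chart `F b = 1` (entire, as `f z` is off
`x b = 0`): `‖F z‖ ≤ C (1 + |z|) ^ e`, and `poly_curve` (GL/E2A) says that `f` is constant.
-/

set_option autoImplicit false

open MvPolynomial Topology Filter Metric
open Pool.Agent.H13.SM (conTan cone)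
open Pool.Agent.H17 (PN VanishesAt HolomorphicInto puncturedDisc)
open Pool.Agent.H17EF (projVar)
open Pool.Agent.H62.FC (Homog)
open Pool.Agent.GG Pool.Agent.GA

namespace Pool.Agent.GL

variable {N : ℕ} {P : Ideal (MvPolynomial (Fin (N + 1)) ℂ)} {B : Finset (Fin (N + 1))} {J : ℕ} {m : Fin J → ℕ} {θ : ∀ k, LogSec P B (m k)} {b : Fin (N + 1)}

/-- an entire function with a meromorphic extension to `∞` has polynomial growth -/
private theorem entL_growth {F φ : ℂ → Fin (N + 1) → ℂ} (hF : ∀ z, AnalyticAt ℂ F z) (hφ : AnalyticAt ℂ φ 0)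
    (h : ∀ᶠ u in 𝓝[≠] (0 : ℂ), φ u b ≠ 0 ∧ φ u = φ u b • F u⁻¹) : ∃ (C : ℝ) (e : ℕ), ∀ z, ‖F z‖ ≤ C * (1 + ‖z‖) ^ e := by
  have hφb : AnalyticAt ℂ (fun u => φ u b) 0 := (analyticAt_pi_iff.1 hφ) b
  obtain ⟨n, ψ, hψ, hψ0, hψe⟩ := hφb.exists_eventuallyEq_pow_smul_nonzero_iff.2 (by
    intro h0
    obtain ⟨u, h1, h2⟩ := (h.and (h0.filter_mono nhdsWithin_le_nhds)).exists
    exact h1.1 h2)
  -- the bound near `∞`
  have h1 : ∀ᶠ u in 𝓝[≠] (0 : ℂ), ‖F u⁻¹‖ ≤ ((‖φ 0‖ + 1) * 2 / ‖ψ 0‖) * ‖u⁻¹‖ ^ n := by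
    have hp : 0 < ‖ψ 0‖ := norm_pos_iff.2 hψ0
    have h2 : ∀ᶠ u in 𝓝 (0 : ℂ), ‖φ u‖ < ‖φ 0‖ + 1 := hφ.continuousAt.norm.tendsto.eventually (gt_mem_nhds (by linarith))
    have h3 : ∀ᶠ u in 𝓝 (0 : ℂ), ‖ψ 0‖ / 2 < ‖ψ u‖ := hψ.continuousAt.norm.tendsto.eventually (lt_mem_nhds (by linarith))
    filter_upwards [h, hψe.filter_mono nhdsWithin_le_nhds, h2.filter_mono nhdsWithin_le_nhds, h3.filter_mono nhdsWithin_le_nhds, self_mem_nhdsWithin] with u h4 h5 h6 h7 h8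
    have hu : u ≠ 0 := h8
    have hup : 0 < ‖u‖ := norm_pos_iff.2 hu
    have h9 : ‖φ u b‖ = ‖u‖ ^ n * ‖ψ u‖ := by
      have h10 : φ u b = (u - 0) ^ n • ψ u := h5
      rw [h10, sub_zero, norm_smul, norm_pow]
    have h10 : ‖φ u b‖ * ‖F u⁻¹‖ ≤ ‖φ 0‖ + 1 := by
      rw [← norm_smul, ← h4.2]
      exact h6.le
    have h11 : ‖u‖ ^ n * (‖ψ 0‖ / 2) * ‖F u⁻¹‖ ≤ ‖φ 0‖ + 1 := by
      refine le_trans ?_ h10
      rw [h9]
      gcongr
    rw [norm_inv, inv_pow, div_mul_eq_mul_div, le_div_iff₀ hp, ← div_eq_mul_inv, le_div_iff₀ (by positivity)]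
    nlinarith
  -- on a neighbourhood of `∞`
  rw [eventually_nhdsWithin_iff, Metric.eventually_nhds_iff] at h1
  obtain ⟨r, hr, h1⟩ := h1
  obtain ⟨B₁, hB₁⟩ := (isCompact_closedBall (0 : ℂ) r⁻¹).exists_bound_of_continuousOn (f := F) fun z _ => (hF z).continuousAt.continuousWithinAt
  refine ⟨max ((‖φ 0‖ + 1) * 2 / ‖ψ 0‖) B₁, n, fun z => ?_⟩
  have hp : 0 < ‖ψ 0‖ := norm_pos_iff.2 hψ0
  have hK : 0 ≤ (‖φ 0‖ + 1) * 2 / ‖ψ 0‖ := by positivity
  by_cases hz : ‖z‖ ≤ r⁻¹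
  · have h2 := hB₁ z (mem_closedBall_zero_iff.2 hz)
    have h3 : 0 ≤ B₁ := (norm_nonneg _).trans h2
    have h4 : (1 : ℝ) ≤ (1 + ‖z‖) ^ n := one_le_pow₀ (by linarith [norm_nonneg z])
    calc ‖F z‖ ≤ B₁ := h2
      _ ≤ max ((‖φ 0‖ + 1) * 2 / ‖ψ 0‖) B₁ * 1 := by rw [mul_one]; exact le_max_right _ _
      _ ≤ _ := mul_le_mul_of_nonneg_left h4 (hK.trans (le_max_left _ _))
  · push Not at hz
    have hz0 : 0 < ‖z‖ := (inv_pos.2 hr).trans hz
    have hz1 : z ≠ 0 := norm_pos_iff.1 hz0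
    have h2 := h1 (y := z⁻¹) (by
      rw [dist_zero_right, norm_inv]
      exact inv_lt_of_inv_lt₀ hr hz) (inv_ne_zero hz1)
    rw [inv_inv] at h2
    calc ‖F z‖ ≤ ((‖φ 0‖ + 1) * 2 / ‖ψ 0‖) * ‖z‖ ^ n := h2
      _ ≤ max ((‖φ 0‖ + 1) * 2 / ‖ψ 0‖) B₁ * (1 + ‖z‖) ^ n := by
        refine mul_le_mul (le_max_left _ _) (pow_le_pow_left₀ (norm_nonneg _) (by linarith) n) (by positivity) (hK.trans (le_max_left _ _))

theorem entire_of_puncturedL (hP : Homog P) (hθ : LogPolar θ) (hm : ∀ k, 1 ≤ m k) (hb : b ∈ B) {R : MvPolynomial (Fin (N + 1)) ℂ} {e : ℕ} (hR : R.IsHomogeneous e)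
    (hD : ∀ f : ℂ → PN N, HolomorphicInto f puncturedDisc → (∀ z ∈ puncturedDisc, f z ∈ openPart P B) → (∃ z ∈ puncturedDisc, ¬ VanishesAt R (f z)) →
      ∃ g : ℂ → PN N, HolomorphicInto g (ball 0 1) ∧ ∀ z ∈ puncturedDisc, g z = f z)
    {f : ℂ → PN N} (hf : HolomorphicInto f Set.univ) (hX : ∀ z, f z ∈ openPart P B) (hne : ∃ z w, f z ≠ f w) (z : ℂ) : VanishesAt R (f z) := by
  classical
  -- a global lift
  obtain ⟨x, hx⟩ := Pool.Agent.H17.exists_global_lift hf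
  obtain ⟨F₀, hFx⟩ : ∃ F : ℂ → Fin (N + 1) → ℂ, F = fun z j => (x j : ℂ → ℂ) z := ⟨_, rfl⟩
  have hF₀ : Differentiable ℂ F₀ := by
    rw [hFx]
    exact differentiable_pi.2 fun j => (x j).diff
  have hFf₀ : ∀ z, ∃ h : F₀ z ≠ 0, f z = Projectivization.mk ℂ (F₀ z) h := by
    intro z
    rw [hFx]
    exact hx z
  have hXi : ∀ i ∈ B, ∀ z, F₀ z i ≠ 0 := by
    intro i hi z h0
    obtain ⟨h, h1⟩ := hFf₀ z
    have h2 := (hX z).2 i hi
    rw [h1, Pool.Agent.H17.vanishesAt_mk_iff (isHomogeneous_X ℂ i), eval_X] at h2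
    exact h2 h0
  -- the lift in the chart
  obtain ⟨F, hFe⟩ : ∃ F : ℂ → Fin (N + 1) → ℂ, F = fun z => (F₀ z b)⁻¹ • F₀ z := ⟨_, rfl⟩
  have hF : ∀ z, AnalyticAt ℂ F z := by
    intro z
    rw [hFe]
    exact (((analyticAt_pi_iff.1 (hF₀.analyticAt z)) b).inv (hXi b hb z)).smul (hF₀.analyticAt z)
  have hF1 : ∀ z, F z b = 1 := by
    intro z
    rw [hFe]
    simp [hXi b hb z]
  have hFf : ∀ z, ∃ h : F z ≠ 0, f z = Projectivization.mk ℂ (F z) h := by
    intro z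
    obtain ⟨h, h1⟩ := hFf₀ z
    have h2 : F z = (F₀ z b)⁻¹ • F₀ z := by rw [hFe]
    have h3 : F z ≠ 0 := by
      rw [h2]
      exact smul_ne_zero (inv_ne_zero (hXi b hb z)) h
    refine ⟨h3, ?_⟩
    rw [h1, Projectivization.mk_eq_mk_iff']
    refine ⟨F₀ z b, ?_⟩
    rw [h2, smul_inv_smul₀ (hXi b hb z)]
  have hFU : ∀ z, F z ∈ Uc P B b := by
    intro z
    obtain ⟨h, h1⟩ := hFf z
    have h2 := hX z
    refine ⟨?_, hF1 z, fun i hi => ?_⟩
    · have h3 := h2.1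
      rw [h1] at h3
      exact (Pool.Agent.H17EF.mk_mem_projVar hP h).1 h3
    · have h4 : F z i = (F₀ z b)⁻¹ * F₀ z i := by
        rw [hFe]
        rfl
      rw [h4]
      exact mul_ne_zero (inv_ne_zero (hXi b hb z)) (hXi i hi z)
  -- the curve on the punctured disc
  obtain ⟨g, hg⟩ : ∃ g : ℂ → PN N, g = fun z => f z⁻¹ := ⟨_, rfl⟩
  have hgh : HolomorphicInto g puncturedDisc := by
    intro z hz
    have hz0 : z ≠ 0 := hz.2
    refine ⟨fun w => F w⁻¹, ?_, Eventually.of_forall fun w => ?_⟩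
    · exact (hF z⁻¹).fun_comp (analyticAt_inv hz0)
    · rw [hg]
      exact hFf w⁻¹
  by_cases hcase : ∃ z ∈ puncturedDisc, ¬ VanishesAt R (g z)
  · exfalso
    obtain ⟨G, hG, hGg⟩ := hD g hgh (fun z _ => by rw [hg]; exact hX _) hcase
    obtain ⟨φ, hφ, hφG⟩ := hG 0 (mem_ball_self one_pos)
    have hnear : ∀ᶠ u in 𝓝[≠] (0 : ℂ), φ u b ≠ 0 ∧ φ u = φ u b • F u⁻¹ := by
      filter_upwards [hφG.filter_mono nhdsWithin_le_nhds, nhdsWithin_le_nhds (ball_mem_nhds (0 : ℂ) one_pos), self_mem_nhdsWithin] with u h1 h2 h3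
      obtain ⟨h4, h5⟩ := h1
      obtain ⟨h6, h7⟩ := hFf u⁻¹
      have h8 := hGg u ⟨h2, h3⟩
      rw [h5, hg] at h8
      have h9 : Projectivization.mk ℂ (φ u) h4 = Projectivization.mk ℂ (F u⁻¹) h6 := by
        rw [h8, ← h7]
      rw [Projectivization.mk_eq_mk_iff'] at h9
      obtain ⟨a, ha⟩ := h9
      have h10 : φ u b = a := by
        rw [← ha, Pi.smul_apply, smul_eq_mul, hF1, mul_one]
      rw [h10]
      refine ⟨?_, ha.symm⟩
      intro h0
      rw [h0, zero_smul] at ha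
      exact h4 ha.symm
    obtain ⟨C, e', hC⟩ := entL_growth hF hφ hnear
    have hd := poly_curve hP hθ hm hb hF hFU hC
    have hFd : Differentiable ℂ F := fun z => (hF z).differentiableAt
    obtain ⟨z, w, hzw⟩ := hne
    apply hzw
    have h1 : F z = F w := is_const_of_deriv_eq_zero hFd hd z w
    obtain ⟨h2, h3⟩ := hFf z
    obtain ⟨h4, h5⟩ := hFf w
    rw [h3, h5]
    simp only [h1]
  · push Not at hcase
    have han : AnalyticOnNhd ℂ (fun z => eval (F₀ z) R) Set.univ := by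
      intro z _
      have h2 : AnalyticAt ℂ (fun w => aeval (fun s => F₀ w s) R) z :=
        AnalyticAt.aeval_mvPolynomial (fun s => (analyticAt_pi_iff.1 (hF₀.analyticAt z)) s) R
      simpa only [MvPolynomial.aeval_eq_eval] using h2
    have hev : ∀ᶠ z in 𝓝 (2 : ℂ), eval (F₀ z) R = 0 := by
      have h1 : {z : ℂ | 1 < ‖z‖} ∈ 𝓝 (2 : ℂ) := by
        refine (isOpen_lt continuous_const continuous_norm).mem_nhds ?_
        show (1 : ℝ) < ‖(2 : ℂ)‖
        norm_num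
      filter_upwards [h1] with z hz
      have hz1 : (1 : ℝ) < ‖z‖ := hz
      have hz0 : z ≠ 0 := by
        intro h
        rw [h, norm_zero] at hz1
        linarith
      have h2 : z⁻¹ ∈ puncturedDisc := by
        refine ⟨?_, inv_ne_zero hz0⟩
        rw [mem_ball_zero_iff, norm_inv]
        exact inv_lt_one_of_one_lt₀ hz1
      have h3 := hcase _ h2
      rw [hg] at h3
      simp only [inv_inv] at h3
      obtain ⟨h4, h5⟩ := hFf₀ z
      rw [h5, Pool.Agent.H17.vanishesAt_mk_iff hR] at h3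
      exact h3
    have h0 := han.eqOn_zero_of_preconnected_of_eventuallyEq_zero isPreconnected_univ (Set.mem_univ (2 : ℂ)) hev
    obtain ⟨h4, h5⟩ := hFf₀ z
    rw [h5, Pool.Agent.H17.vanishesAt_mk_iff hR]
    exact h0 (Set.mem_univ z)

end Pool.Agent.GL

end

section

/-!
# GBL Vd: some minor is not zero

As `GB/Vd`, with `GL.exists_rowL`: a complex point `w` with these equations is `ePt B x v`, `x ∈ Uc P B b`, `v ∈ Tc P b x` (`GL.of_gval`).
-/

set_option autoImplicit false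

open MvPolynomial
open Pool.Agent.H62.FC (Homog)
open Pool.Agent.GL

namespace Pool.Agent.GBL

open Pool.Agent.GG

variable {N : ℕ} {P : Ideal (MvPolynomial (Fin (N + 1)) ℂ)} {B : Finset (Fin (N + 1))} {J : ℕ} {m : Fin J → ℕ} {θ : ∀ k, LogSec P B (m k)} {b : Fin (N + 1)}

theorem exists_vdetL_ne (hpol : LogPolar θ) (f : LFrame θ b) (hb : b ∈ B) {F : Type} [Field F] [Algebra ℂ F] {y : Ph (N + 1) → F}
    (h1 : y (Sum.inl b.castSucc) = 1) (h2 : y (Sum.inr b.castSucc) = 0)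
    (h3 : ∀ q ∈ P, aeval y (rename (fun i : Fin (N + 1) => (Sum.inl i.castSucc : Ph (N + 1))) q) = 0)
    (h4 : ∀ q ∈ P, aeval y (∑ i, rename (fun i : Fin (N + 1) => (Sum.inl i.castSucc : Ph (N + 1))) (pderiv i q) * X (Sum.inr i.castSucc)) = 0)
    (h5 : y (Sum.inl (Fin.last (N + 1))) * ∏ l ∈ B, y (Sum.inl l.castSucc) = 1)
    (h6 : y (Sum.inr (Fin.last (N + 1))) * ∏ l ∈ B, y (Sum.inl l.castSucc) +
      y (Sum.inl (Fin.last (N + 1))) * ∑ i ∈ B, y (Sum.inr i.castSucc) * ∏ l ∈ B.erase i, y (Sum.inl l.castSucc) = 0)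
    (h7 : ∃ i : Fin (N + 1), y (Sum.inr i.castSucc) ≠ 0) :
    ∃ K : Fin (N + 2) → GIx f.q J, aeval y (vdet (gfamL f) K) ≠ 0 := by
  by_contra hne
  obtain ⟨i₀, hi₀⟩ := h7
  apply hi₀
  -- the equations of the tangent vectors with vanishing minors
  let S : Set (MvPolynomial (Ph (N + 1)) ℂ) := {s | s = X (Sum.inl b.castSucc) - 1 ∨ s = X (Sum.inr b.castSucc) ∨
    (∃ q ∈ P, s = rename (fun i : Fin (N + 1) => (Sum.inl i.castSucc : Ph (N + 1))) q) ∨
    (∃ q ∈ P, s = ∑ i, rename (fun i : Fin (N + 1) => (Sum.inl i.castSucc : Ph (N + 1))) (pderiv i q) * X (Sum.inr i.castSucc)) ∨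
    s = X (Sum.inl (Fin.last (N + 1))) * ∏ l ∈ B, X (Sum.inl l.castSucc) - 1 ∨
    s = X (Sum.inr (Fin.last (N + 1))) * ∏ l ∈ B, X (Sum.inl l.castSucc) +
      X (Sum.inl (Fin.last (N + 1))) * ∑ i ∈ B, X (Sum.inr i.castSucc) * ∏ l ∈ B.erase i, X (Sum.inl l.castSucc) ∨ ∃ K, s = vdet (gfamL f) K}
  have hQ : ∀ j, f.Q j ∈ P := fun j => by
    have h1 : f.Q j ∈ Ideal.span (Set.range f.Q) := Ideal.subset_span ⟨j, rfl⟩
    rwa [f.span] at h1
  have hC : ∀ z : Ph (N + 1) → ℂ, (∀ s ∈ S, eval z s = 0) → eval z (X (Sum.inr i₀.castSucc) : MvPolynomial (Ph (N + 1)) ℂ) = 0 := by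
    intro z hz
    have e1 : eval z (X (Sum.inl b.castSucc) : MvPolynomial (Ph (N + 1)) ℂ) = 1 := by
      have h := hz _ (Or.inl rfl)
      rw [map_sub, map_one, sub_eq_zero] at h
      exact h
    have e2 := hz _ (Or.inr (Or.inl rfl))
    have e3 : ∀ q ∈ P, eval z (rename (fun i : Fin (N + 1) => (Sum.inl i.castSucc : Ph (N + 1))) q) = 0 := fun q hq =>
      hz _ (Or.inr (Or.inr (Or.inl ⟨q, hq, rfl⟩)))
    have e4 : ∀ q ∈ P, eval z (∑ i, rename (fun i : Fin (N + 1) => (Sum.inl i.castSucc : Ph (N + 1))) (pderiv i q) * X (Sum.inr i.castSucc)) = 0 := fun q hq =>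
      hz _ (Or.inr (Or.inr (Or.inr (Or.inl ⟨q, hq, rfl⟩))))
    have e5 : eval z (X (Sum.inl (Fin.last (N + 1))) * ∏ l ∈ B, X (Sum.inl l.castSucc) : MvPolynomial (Ph (N + 1)) ℂ) = 1 := by
      have h := hz _ (Or.inr (Or.inr (Or.inr (Or.inr (Or.inl rfl)))))
      rw [map_sub, map_one, sub_eq_zero] at h
      exact h
    have e6 := hz _ (Or.inr (Or.inr (Or.inr (Or.inr (Or.inr (Or.inl rfl))))))
    have e7 : ∀ K, eval z (vdet (gfamL f) K) = 0 := fun K => hz _ (Or.inr (Or.inr (Or.inr (Or.inr (Or.inr (Or.inr ⟨K, rfl⟩))))))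
    obtain ⟨x, v, hxv, hx, hv, -⟩ := of_gval f (c := fun k => eval z (gfamL f (Sum.inr (Sum.inr k)))) (y := z) (by
      rintro (((l | l) | (j | j)) | ((l | l) | k))
      · exact e1
      · exact e2
      · exact e3 _ (hQ j)
      · exact e4 _ (hQ j)
      · exact e5
      · exact e6
      · rfl)
    rw [eval_X]
    by_contra hzb
    have hv0 : v ≠ 0 := fun h0 => hzb (by
      rw [hxv, h0]
      simp [ePt, embV])
    obtain ⟨K, hK⟩ := exists_rowL hpol f hb hx hv hv0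
    rw [← hxv] at hK
    exact hK (e7 K)
  have h := Pool.Agent.GB.transfer hC y (by
    rintro s (rfl | rfl | ⟨q, hq, rfl⟩ | ⟨q, hq, rfl⟩ | rfl | rfl | ⟨K, rfl⟩)
    · rw [map_sub, aeval_X, h1, map_one, sub_self]
    · rw [aeval_X, h2]
    · exact h3 q hq
    · exact h4 q hq
    · simp only [map_sub, map_mul, map_prod, aeval_X, map_one, h5, sub_self]
    · simp only [map_add, map_sum, map_mul, map_prod, aeval_X, h6]
    · by_contra hK
      exact hne ⟨K, hK⟩)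
  rwa [aeval_X] at h

end Pool.Agent.GBL

end

section

/-!
# GLS Der: the derivation of the polynomial ring

PROOF.  At a zero `w` of `𝔯` the equations give `w = ePt B x v` (`GL.of_gval`).  If all `vdet K (w) = 0` then `v = 0` (`GL.exists_rowL`), so all `θ_k` vanish (`CX.thv_zero`).  `exists_tht`: `v ≠ 0` at some zero of `𝔯`
(`LSol.ne`; a nonzero element of the domain `ℂ[Ph] / 𝔯` is `≠ 0` at some zero), and there some `θ_k ≠ 0` (`theta_bdL`; `LL ≠ 0`).  `exists_bez`: Nullstellensatz for `𝔯 + (vdet K)_K`.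
-/

set_option autoImplicit false

open MvPolynomial Topology Filter Metric
open Pool.Agent.H13.SM (conTan cone)
open Pool.Agent.H17 (PN VanishesAt HolomorphicInto puncturedDisc)
open Pool.Agent.H62.FC (Homog)
open Pool.Agent.GG Pool.Agent.GA Pool.Agent.GL

namespace Pool.Agent.GLS

variable {N : ℕ} {P : Ideal (MvPolynomial (Fin (N + 1)) ℂ)} {B : Finset (Fin (N + 1))} {J : ℕ} {m : Fin J → ℕ} {θ : ∀ k, LogSec P B (m k)} {b : Fin (N + 1)}

/-- Hilbert's Nullstellensatz -/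
theorem Der_mem_radical {σ : Type} [Finite σ] {I : Ideal (MvPolynomial σ ℂ)} {g : MvPolynomial σ ℂ} (h : ∀ w, Zr I w → eval w g = 0) : g ∈ I.radical := by
  have h0 : ∀ (x : σ → ℂ) (g : MvPolynomial σ ℂ), aeval x g = eval x g := fun x g => by rw [← coe_aeval_eq_eval]; rfl
  rw [← MvPolynomial.vanishingIdeal_zeroLocus_eq_radical (K := ℂ), MvPolynomial.mem_vanishingIdeal_iff]
  intro x hx
  rw [h0]
  refine h x fun q hq => ?_
  rw [← h0]
  exact hx q hq

/-- the zeros of the equations -/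
theorem LSol.pt {f : LFrame θ b} {𝔯 : Ideal (MvPolynomial (Ph (N + 1)) ℂ)} (h : LSol f 𝔯) {w : Ph (N + 1) → ℂ} (hw : Zr 𝔯 w) :
    ∃ x v, w = ePt B x v ∧ x ∈ Uc P B b ∧ v ∈ Tc P b x ∧ ∀ k, thv θ x v k = eval w (tht f k) := by
  obtain ⟨x, v, h1, h2, h3, h4⟩ := of_gval f (c := fun k => eval w (gfamL f (Sum.inr (Sum.inr k)))) (y := w) (by
    rintro (l | (l | l))
    · have h := hw _ (h.eqs (Sum.inl l))
      simp only [feq, Sum.elim_inl, map_sub, eval_C, sub_eq_zero] at h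
      rw [h]
      rcases l with ((_ | _) | (_ | _)) <;> rfl
    · have h := hw _ (h.eqs (Sum.inr l))
      simp only [feq, Sum.elim_inr, map_sub, eval_C, sub_eq_zero] at h
      rw [h]
      rcases l with (_ | _) <;> rfl
    · rfl)
  exact ⟨x, v, h1, h2, h3, fun k => by rw [h4]; rfl⟩

theorem LSol.exists_tht (hP : Homog P) (hθ : LogPolar θ) (hm : ∀ k, 1 ≤ m k) (hb : b ∈ B) {f : LFrame θ b} {𝔯 : Ideal (MvPolynomial (Ph (N + 1)) ℂ)} (h : LSol f 𝔯) :
    ∃ k, tht f k ∉ 𝔯 := by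
  classical
  by_contra! hcon
  have := h.prime
  obtain ⟨i, hi⟩ := h.ne
  apply hi
  rw [← h.prime.radical]
  refine Der_mem_radical fun w hw => ?_
  obtain ⟨x, v, h1, h2, h3, h4⟩ := h.pt hw
  rw [eval_X]
  by_contra hne
  have hv : v ≠ 0 := fun h0 => hne (by
    rw [h1, h0]
    simp [ePt, embV])
  obtain ⟨c, hc, C, hC, hbd⟩ := theta_bdL (P := P) hP hθ hm hb
  obtain ⟨k, hk⟩ := (hbd x h2 v h3).2 hv
  rw [h4 k, hw _ (hcon k), norm_zero] at hk
  have hx0 : x ≠ 0 := fun h0 => by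
    have := h2.2.1
    rw [h0] at this
    exact zero_ne_one this
  have hL : 0 < LL B x v := by
    unfold LL
    have h5 : 0 < ‖v‖ / ‖x‖ := div_pos (norm_pos_iff.2 hv) (norm_pos_iff.2 hx0)
    have h6 : 0 ≤ ∑ i ∈ B, ‖v i‖ / ‖x i‖ := Finset.sum_nonneg fun i _ => by positivity
    linarith
  have h7 : 0 < c * LL B x v ^ m k := by positivity
  linarith

theorem LSol.exists_bez (hθ : LogPolar θ) (hm : ∀ k, 1 ≤ m k) (hb : b ∈ B) {f : LFrame θ b} {𝔯 : Ideal (MvPolynomial (Ph (N + 1)) ℂ)} (h : LSol f 𝔯) (k : Fin J) :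
    ∃ p β, Bez f 𝔯 k p β := by
  classical
  have h1 : tht f k ∈ (𝔯 ⊔ Ideal.span (Set.range fun K => vdet (gfamL f) K)).radical := by
    refine Der_mem_radical fun w hw => ?_
    obtain ⟨x, v, h1, h2, h3, h4⟩ := h.pt (w := w) fun g hg => hw g (Ideal.mem_sup_left hg)
    have hv : v = 0 := by
      by_contra hv
      obtain ⟨K, hK⟩ := exists_rowL hθ f hb h2 h3 hv
      apply hK
      rw [← h1]
      exact hw _ (Ideal.mem_sup_right (Ideal.subset_span ⟨K, rfl⟩))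
    rw [← h4 k, hv]
    exact CX.thv_zero hm h2 k
  obtain ⟨p, hp⟩ := h1
  obtain ⟨r, hr, s, hs, hrs⟩ := Submodule.mem_sup.1 hp
  obtain ⟨β, hβ⟩ := Ideal.mem_span_range_iff_exists_fun.1 hs
  refine ⟨p, β, ?_⟩
  unfold Bez
  rw [hβ, ← hrs, add_sub_cancel_right]
  exact hr

end Pool.Agent.GLS

end

section

/-!
# GBL Asm: a tangent vector with values in a field

As `GB/Asm`.  `x_i = ratio P i b` in `F = FractionRing (MvPolynomial (Fin d) K)`, `D` as in `GB/Asm`, `y (inl i) = x_i`, `y (inl last) = (∏ i ∈ B, x_i)⁻¹`, `y (inr s) = D (y (inl s))`.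
-/

set_option autoImplicit false

open MvPolynomial
open Pool.Agent.H17LG.Variety (FunField ratio IsLogGeneralType)
open Pool.Agent.H23.Fano (PrimeDivisorOver Form)
open Pool.Agent.H62.FC (Homog)
open Pool.Agent.GL
open Pool.Agent.GB (Mon cdet sbs IsWeight Rel vol dph exists_weight exists_frame_ker indep_of_vol linearIndependent_D dph_ne exists_rel exists_prd_index Asm_der Asm_der_eq_zero)

namespace Pool.Agent.GBL

open Pool.Agent.GG

section Field

variable {K : Type} [Field K] [Algebra ℂ K] {k d κ M l : ℕ} {ι : Type} {z : Fin k → K} {Bd : PrimeDivisorOver K k → Prop}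

private theorem Asm_first (hz : IsTranscendenceBasis ℂ z) (hk : 1 ≤ k) (hM : 1 ≤ M) (Ψ : SymFamL K k Bd k M ι)
    (hI : ∀ e : Fin k → Derivation ℂ K K, LinearIndependent K e → ∃ I : Mon k M → ι, cdet (fun α => Ψ.fn (I α) e) ≠ 0) :
    ∃ (M' : ℕ) (u : K), 1 ≤ M' ∧ RegL Bd z M' u ∧ u ≠ 0 := by
  obtain ⟨a, ha, haw⟩ := exists_weight hk hM
  have hφ : AlgebraicIndependent ℂ (fun i : Fin 0 => ((fun _ : Fin 1 => (1 : K)) i.succ / (fun _ : Fin 1 => (1 : K)) 0)) := by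
    rw [algebraicIndependent_empty_type_iff]
    exact (algebraMap ℂ K).injective
  obtain ⟨e, h, he, hv⟩ := exists_frame_ker (d := k) (Nat.add_zero k) hz hφ
  have ε : Fin k ⊕ Fin 0 ≃ Fin k := Equiv.sumEmpty _ _
  obtain ⟨I, hI⟩ := hI e (indep_of_vol (hv ε))
  refine ⟨_, _, ?_, reg_cdetL hz Ψ haw (s := fun _ => 1) (l := 0) one_ne_zero (fun _ => regL_one z) (linearIndependent_D hφ) he (hv ε) I, ?_⟩
  · omega
  · refine mul_ne_zero (mul_ne_zero hI (pow_ne_zero _ (div_ne_zero ?_ (hv ε)))) (pow_ne_zero _ one_ne_zero)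
    exact dph_ne hz (linearIndependent_D hφ) he (hv ε)

private theorem Asm_rel (hz : IsTranscendenceBasis ℂ z) (hd : 1 ≤ d) (hM : 1 ≤ M) (Ψ : SymFamL K k Bd d M ι) {s : Fin (κ + 1) → K} (hs0 : s 0 ≠ 0)
    (hs : ∀ i, RegL Bd z l (s i)) (hφ : LinearIndependent K fun i : Fin κ => KaehlerDifferential.D ℂ K (s i.succ / s 0))
    {ε : Fin d ⊕ Fin κ ≃ Fin k} {e : Fin d → Derivation ℂ K K} {h : Fin κ → Derivation ℂ K K}
    (he : ∀ (j : Fin d) (i : Fin κ), e j (s i.succ / s 0) = 0) (hv : vol z ε e h ≠ 0)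
    (hmax : ∀ (M' : ℕ) (u' v' : K), RegL Bd z M' u' → RegL Bd z M' v' → v' ≠ 0 →
        ∀ D : Derivation ℂ K K, (∀ i : Fin κ, D (s i.succ / s 0) = 0) → D (u' / v') = 0)
    {I : Mon d M → ι} (hI : cdet (fun α => Ψ.fn (I α) e) ≠ 0) : ∃ c : ι → Mon d M → K, Rel e (fun i => Ψ.fn i e) I c := by
  obtain ⟨a, -, haw⟩ := exists_weight hd hM
  refine exists_rel (fun i => Ψ.hom i e) hI fun I' j => ?_
  have hw : (dph (fun i : Fin κ => s i.succ / s 0) h / vol z ε e h) ^ a ≠ 0 := pow_ne_zero _ (div_ne_zero (dph_ne hz hφ he hv) hv)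
  have hs' : s 0 ^ (2 * κ * a) ≠ 0 := pow_ne_zero _ hs0
  have h1 := hmax _ _ _ (reg_cdetL hz Ψ haw hs0 hs hφ he hv I') (reg_cdetL hz Ψ haw hs0 hs hφ he hv I) (mul_ne_zero (mul_ne_zero hI hw) hs') (e j) (he j)
  rwa [mul_div_mul_right _ _ hs', mul_div_mul_right _ _ hw] at h1

private theorem Asm_prod {F : Type} [Field F] [Algebra ℂ F] (D : Derivation ℂ F F) {ι : Type} [DecidableEq ι] (x : ι → F) (s : Finset ι) :
    D (∏ l ∈ s, x l) = ∑ i ∈ s, D (x i) * ∏ l ∈ s.erase i, x l := by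
  induction s using Finset.induction_on with
  | empty => simp
  | insert a s ha ih =>
    rw [Finset.prod_insert ha, Derivation.leibniz, ih, Finset.sum_insert ha, Finset.erase_insert ha, smul_eq_mul, smul_eq_mul, Finset.mul_sum, add_comm,
      mul_comm (∏ l ∈ s, x l)]
    congr 1
    refine Finset.sum_congr rfl fun i hi => ?_
    have h1 : (insert a s).erase i = insert a (s.erase i) := Finset.erase_insert_of_ne fun h => ha (h ▸ hi)
    rw [h1, Finset.prod_insert (fun h => ha (Finset.mem_of_mem_erase h))]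
    ring

end Field

variable {N : ℕ} {P : Ideal (MvPolynomial (Fin (N + 1)) ℂ)} {B : Finset (Fin (N + 1))} {J m : ℕ} {θ : Fin J → LogSec P B m} {b : Fin (N + 1)}

theorem exists_field_pointL [P.IsPrime] (hP : Homog P) (hm : 1 ≤ m) (hgen : LogGenerated θ) (f : LFrame (m := fun _ => m) θ b) (hb : b ∈ B)
    (hB : ∀ i ∈ B, X i ∉ P) {k : ℕ} (hk : 1 ≤ k) {z : Fin k → FunField P} (hz : IsTranscendenceBasis ℂ z)
    (hn : ¬ IsLogGeneralType (K := FunField P) (k := k) (BdB P B)) :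
    ∃ (F : Type) (_ : Field F) (_ : Algebra ℂ F) (D : Derivation ℂ F F) (y : Ph (N + 1) → F), (∀ i, D (y (Sum.inl i)) = y (Sum.inr i)) ∧
      (∀ l, D (aeval y (gfamL f l)) = 0) ∧ y (Sum.inl b.castSucc) = 1 ∧
      (∀ q ∈ P, aeval y (rename (fun i : Fin (N + 1) => (Sum.inl i.castSucc : Ph (N + 1))) q) = 0) ∧
      y (Sum.inl (Fin.last (N + 1))) * ∏ l ∈ B, y (Sum.inl l.castSucc) = 1 ∧
      (∀ (q : MvPolynomial (Fin (N + 1)) ℂ) (n : ℕ), q.IsHomogeneous n → q ∉ P →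
        aeval y (rename (fun i : Fin (N + 1) => (Sum.inl i.castSucc : Ph (N + 1))) q) ≠ 0) ∧ ∃ i : Fin (N + 1), y (Sum.inr i.castSucc) ≠ 0 := by
  classical
  haveI : Algebra.EssFiniteType ℂ (FunField P) := Pool.Agent.H17GT.essFiniteType_functionField P
  have ha := hB b hb
  have hac := Pool.Agent.H17R.coordFun_ne_zero_iff.2 ha
  -- a nonzero pluricanonical form
  obtain ⟨Ψ₀, hΨ₀⟩ := exists_psiFamL hP f hb hB k k
  obtain ⟨M', u, hM', hu, hu0⟩ := Asm_first hz hk hm Ψ₀ fun e he => by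
    simp only [hΨ₀]
    exact exists_index_psiL hP hgen f hb hB he
  obtain ⟨κ, l, s, hκ, hs0, hs, hφa, hmax⟩ := exists_maxL hk hz hn hM' hu hu0
  obtain ⟨d, hd⟩ : ∃ d, d + κ = k := ⟨k - κ, by omega⟩
  have hd1 : 1 ≤ d := by omega
  obtain ⟨e, h, he, hv⟩ := exists_frame_ker hd hz hφa
  have hφ := linearIndependent_D hφa
  have ε : Fin d ⊕ Fin κ ≃ Fin k := finSumFinEquiv.trans (finCongr hd)
  obtain ⟨Ψ, hΨ⟩ := exists_psiFamL hP f hb hB k d
  obtain ⟨Ψ₂, hΨ₂⟩ := exists_prdFamL Ψ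
  have hei := indep_of_vol (hv ε)
  obtain ⟨I, hI⟩ := exists_index_psiL hP hgen f hb hB hei
  simp only [← hΨ] at hI
  obtain ⟨I₂, hI₂⟩ := exists_prd_index (fun i => Ψ.hom i e) hI
  simp only [← hΨ₂] at hI₂
  obtain ⟨c, hc⟩ := Asm_rel hz hd1 hm Ψ hs0 hs hφ he (hv ε) hmax hI
  obtain ⟨c₂, hc₂⟩ := Asm_rel hz hd1 (by omega) Ψ₂ hs0 hs hφ he (hv ε) hmax hI₂
  simp only [hΨ₂] at hc₂
  obtain ⟨D, hD, hDp⟩ := Asm_der hz hm hc hc₂
  simp only [hΨ] at hDp
  set F := FractionRing (MvPolynomial (Fin d) (FunField P)) with hF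
  set x : Fin (N + 1) → F := fun i => algebraMap (FunField P) F (ratio P i b) with hx
  let φ : MvPolynomial (Fin d) (FunField P) →ₐ[ℂ] F := IsScalarTower.toAlgHom ℂ _ _
  have hφv : ∀ x, φ x = algebraMap (MvPolynomial (Fin d) (FunField P)) F x := fun _ => rfl
  have hφC : ∀ c : FunField P, φ (C c) = algebraMap (FunField P) F c := fun c => by
    rw [hφv, IsScalarTower.algebraMap_apply (FunField P) (MvPolynomial (Fin d) (FunField P)) F, MvPolynomial.algebraMap_eq]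
  have hφi : ∀ x, φ x = 0 → x = 0 := fun x hx0 => by
    rw [hφv] at hx0
    exact (map_eq_zero_iff _ (IsFractionRing.injective (MvPolynomial (Fin d) (FunField P)) F)).1 hx0
  have hDx : ∀ i, D (x i) = ∑ j, φ (X j * C (e j (ratio P i b))) := by
    intro i
    rw [hx]
    show D (algebraMap (FunField P) F (ratio P i b)) = _
    rw [hD]
    refine Finset.sum_congr rfl fun j _ => ?_
    rw [map_mul, hφC, hφv]
  have hxB : ∀ i ∈ B, x i ≠ 0 := fun i hi => by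
    have h1 : ratio P i b ≠ 0 := (Pool.Agent.H17R.ratio_ne_zero_iff hac).2 (Pool.Agent.H17R.coordFun_ne_zero_iff.2 (hB i hi))
    rw [hx]
    exact (map_ne_zero _).2 h1
  have hprod : ∏ i ∈ B, x i ≠ 0 := Finset.prod_ne_zero_iff.2 hxB
  set y₁ : Fin (N + 2) → F := Fin.snoc (α := fun _ => F) x (∏ i ∈ B, x i)⁻¹ with hy₁
  have hy₁c : ∀ i : Fin (N + 1), y₁ i.castSucc = x i := fun i => by rw [hy₁, Fin.snoc_castSucc]
  have hy₁l : y₁ (Fin.last (N + 1)) = (∏ i ∈ B, x i)⁻¹ := by rw [hy₁, Fin.snoc_last]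
  set y : Ph (N + 1) → F := Sum.elim y₁ fun i => D (y₁ i) with hy
  have hyl : ∀ i, y (Sum.inl i) = y₁ i := fun i => rfl
  have hyr : ∀ i, y (Sum.inr i) = D (y₁ i) := fun i => rfl
  have hren : ∀ q : MvPolynomial (Fin (N + 1)) ℂ, aeval y (rename (fun i : Fin (N + 1) => (Sum.inl i.castSucc : Ph (N + 1))) q) =
      algebraMap (FunField P) F (aeval (fun i => ratio P i b) q) := by
    intro q
    rw [aeval_rename, ← MvPolynomial.aeval_algebraMap_apply]
    congr 1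
    congr 1
    funext i
    exact hy₁c i
  have hq0 : ∀ q ∈ P, aeval (fun i => ratio P i b) q = 0 := by
    intro q hq
    rw [← sum_homogeneousComponent q, map_sum]
    refine Finset.sum_eq_zero fun n _ => ?_
    exact (Pool.Agent.H17R.gen_eq_zero_iff hac (homogeneousComponent_isHomogeneous n q)).2 (hP q hq n)
  have hx1 : x b = 1 := by
    rw [hx]
    show algebraMap (FunField P) F (ratio P b b) = 1
    rw [Pool.Agent.H17R.ratio_self hac, map_one]
  have h5 : y (Sum.inl (Fin.last (N + 1))) * ∏ l ∈ B, y (Sum.inl l.castSucc) = 1 := by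
    simp only [hyl, hy₁c, hy₁l]
    exact inv_mul_cancel₀ hprod
  refine ⟨F, inferInstance, inferInstance, D, y, fun i => rfl, ?_, ?_, ?_, h5, ?_, ?_⟩
  · have hfQ : ∀ j, f.Q j ∈ P := fun j => f.span.le (Ideal.subset_span ⟨j, rfl⟩)
    rintro (((_ | _) | (j | j)) | ((_ | u₀) | k))
    · simp only [gfamL, Sum.elim_inl, aeval_X, hyl, hy₁c, hx1, Derivation.map_one_eq_zero]
    · simp only [gfamL, Sum.elim_inl, Sum.elim_inr, aeval_X, hyr, hy₁c, hx1, Derivation.map_one_eq_zero, map_zero]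
    · simp only [gfamL, Sum.elim_inl, Sum.elim_inr]
      rw [hren, hq0 _ (hfQ j), map_zero, map_zero]
    · have h4 : aeval y (∑ i, rename (fun i : Fin (N + 1) => (Sum.inl i.castSucc : Ph (N + 1))) (pderiv i (f.Q j)) * X (Sum.inr i.castSucc)) = 0 := by
        have h := Pool.Agent.GB.der_aeval D (y ∘ fun i : Fin (N + 1) => (Sum.inl i.castSucc : Ph (N + 1))) (f.Q j)
        rw [← aeval_rename, hren, hq0 _ (hfQ j), map_zero, map_zero] at h
        rw [map_sum, h]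
        refine Finset.sum_congr rfl fun i _ => ?_
        rw [map_mul, aeval_rename, aeval_X]
        rfl
      simp only [gfamL, Sum.elim_inl, Sum.elim_inr]
      rw [h4, map_zero]
    · simp only [gfamL, Sum.elim_inl, Sum.elim_inr, map_mul, map_prod, aeval_X, h5, Derivation.map_one_eq_zero]
    · have h6 : y (Sum.inr (Fin.last (N + 1))) * ∏ l ∈ B, y (Sum.inl l.castSucc) +
          y (Sum.inl (Fin.last (N + 1))) * ∑ i ∈ B, y (Sum.inr i.castSucc) * ∏ l ∈ B.erase i, y (Sum.inl l.castSucc) = 0 := by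
        have h := congrArg D h5
        rw [Derivation.leibniz, Asm_prod, Derivation.map_one_eq_zero, smul_eq_mul, smul_eq_mul] at h
        rw [← h]
        simp only [hyr, hyl]
        ring
      have h7 : aeval y (gfamL f (Sum.inr (Sum.inl (Sum.inr u₀)))) = 0 := by
        simp only [gfamL, Sum.elim_inl, Sum.elim_inr, map_add, map_mul, map_prod, map_sum, aeval_X]
        exact h6
      rw [h7, map_zero]
    · have h8 : ∀ s, aeval y (lsub B s) = φ (tvL P B b e s) := by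
        rintro (i | i)
        · simp only [lsub, tvL, Sum.elim_inl, aeval_X, hφC, hyl, hy₁c, hx]
        · by_cases hi : i ∈ B
          · simp only [lsub, tvL, Sum.elim_inr, if_pos hi, map_mul, map_prod, aeval_X, map_sum, hφC, hyl, hyr, hy₁c, hy₁l, hDx]
            have h9 : (∏ l ∈ B, x l)⁻¹ * ∏ l ∈ B.erase i, x l = (x i)⁻¹ := by
              rw [← Finset.mul_prod_erase B x hi, mul_inv, mul_assoc, inv_mul_cancel₀, mul_one]
              exact Finset.prod_ne_zero_iff.2 fun l hl => hxB l (Finset.mem_of_mem_erase hl)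
            rw [h9, Finset.sum_mul]
            refine Finset.sum_congr rfl fun j _ => ?_
            rw [map_inv₀]
            ring
          · simp only [lsub, tvL, Sum.elim_inr, if_neg hi, aeval_X, map_sum, map_mul, hφC, hyr, hy₁c, hDx]
      have h10 : aeval y (gfamL f (Sum.inr (Sum.inr k))) = φ (psiL f P k e) := by
        show aeval y (aeval (lsub B) (f.A k)) = φ (aeval (tvL P B b e) (f.A k))
        rw [MvPolynomial.comp_aeval_apply (lsub B) (aeval y : MvPolynomial (Ph (N + 1)) ℂ →ₐ[ℂ] F), MvPolynomial.comp_aeval_apply (tvL P B b e) φ]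
        congr 1
        congr 1
        funext s
        exact h8 s
      rw [h10]
      exact hDp k
  · rw [hyl, hy₁c, hx1]
  · intro q hq
    rw [hren, hq0 q hq, map_zero]
  · intro q n hqn hq h0
    rw [hren] at h0
    exact hq ((Pool.Agent.H17R.gen_eq_zero_iff hac hqn).1 ((map_eq_zero _).1 h0))
  · by_contra hcon
    push Not at hcon
    have h1 : ∀ i j, e j (ratio P i b) = 0 := by
      intro i j
      have h2 := hcon i
      rw [hyr, hy₁c, hDx, ← map_sum] at h2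
      have h2 := hφi _ h2
      have h3 : coeff (Finsupp.single j 1) (∑ j, (X j : MvPolynomial (Fin d) (FunField P)) * C (e j (ratio P i b))) = e j (ratio P i b) := by
        rw [coeff_sum, Finset.sum_eq_single j]
        · rw [mul_comm, coeff_C_mul, coeff_X', if_pos rfl, mul_one]
        · intro i _ hi
          rw [mul_comm, coeff_C_mul, coeff_X', if_neg fun h => hi (Finsupp.single_left_injective one_ne_zero h), mul_zero]
        · intro h
          exact absurd (Finset.mem_univ j) h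
      rw [← h3, h2, coeff_zero]
    refine hei.ne_zero ⟨0, by omega⟩ (Asm_der_eq_zero (Pool.Agent.H17R.adjoin_ratio hac) ?_)
    rintro _ ⟨i, rfl⟩
    exact h1 i _

end Pool.Agent.GBL

end

section

/-!
# GBL Fin: Theorem B, logarithmic case, algebraic form

As `GB/Fin`.
-/

set_option autoImplicit false

open MvPolynomial
open Pool.Agent.H17LG.Variety (FunField ratio IsLogGeneralType)
open Pool.Agent.H62.FC (Homog)
open Pool.Agent.GL

namespace Pool.Agent.GBL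

open Pool.Agent.GG

variable {N : ℕ} {P : Ideal (MvPolynomial (Fin (N + 1)) ℂ)} {B : Finset (Fin (N + 1))} {J m : ℕ} {θ : Fin J → LogSec P B m} {b : Fin (N + 1)}

private theorem Fin_prod {F : Type} [Field F] [Algebra ℂ F] (D : Derivation ℂ F F) {ι : Type} [DecidableEq ι] (x : ι → F) (s : Finset ι) :
    D (∏ l ∈ s, x l) = ∑ i ∈ s, D (x i) * ∏ l ∈ s.erase i, x l := by
  induction s using Finset.induction_on with
  | empty => simp
  | insert a s ha ih =>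
    rw [Finset.prod_insert ha, Derivation.leibniz, ih, Finset.sum_insert ha, Finset.erase_insert ha, smul_eq_mul, smul_eq_mul, Finset.mul_sum, add_comm,
      mul_comm (∏ l ∈ s, x l)]
    congr 1
    refine Finset.sum_congr rfl fun i hi => ?_
    have h1 : (insert a s).erase i = insert a (s.erase i) := Finset.erase_insert_of_ne fun h => ha (h ▸ hi)
    rw [h1, Finset.prod_insert (fun h => ha (Finset.mem_of_mem_erase h))]
    ring

/-- **Theorem B**, logarithmic case. -/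
theorem exists_critL [P.IsPrime] (hP : Homog P) (hm : 1 ≤ m) (hgen : LogGenerated θ) (f : LFrame (m := fun _ => m) θ b) (hb : b ∈ B)
    (hB : ∀ i ∈ B, X i ∉ P) {k : ℕ} (hk : 1 ≤ k) (hz : ∃ z : Fin k → FunField P, IsTranscendenceBasis ℂ z)
    (hn : ¬ IsLogGeneralType (K := FunField P) (k := k) (BdB P B)) {q : MvPolynomial (Fin (N + 1)) ℂ} {n : ℕ} (hq : q.IsHomogeneous n) (hqP : q ∉ P) :
    ∃ (K : Fin (N + 2) → GIx f.q J) (x v : Fin (N + 1) → ℂ), x ∈ Uc P B b ∧ v ∈ Tc P b x ∧ v ≠ 0 ∧ eval x q ≠ 0 ∧ Crit (gfamL f) K (ePt B x v) := by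
  classical
  obtain ⟨z, hz⟩ := hz
  obtain ⟨F, _, _, D, y, hx, hG, h1, h3, h5, hq0, i, hi⟩ := exists_field_pointL hP hm hgen f hb hB hk hz hn
  set r : Fin (N + 1) → Ph (N + 1) := fun i => Sum.inl i.castSucc with hr
  have h2 : y (Sum.inr b.castSucc) = 0 := by
    rw [← hx, h1, Derivation.map_one_eq_zero]
  have h4 : ∀ q ∈ P, aeval y (∑ i, rename r (pderiv i q) * X (Sum.inr i.castSucc)) = 0 := by
    intro p hp
    have h := h3 p hp
    rw [aeval_rename] at h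
    have h' := Pool.Agent.GB.der_aeval D (y ∘ r) p
    rw [h, map_zero] at h'
    rw [map_sum, h']
    refine Finset.sum_congr rfl fun i _ => ?_
    rw [map_mul, aeval_rename, aeval_X]
    congr 1
    exact (hx i.castSucc).symm
  have h6 : y (Sum.inr (Fin.last (N + 1))) * ∏ l ∈ B, y (Sum.inl l.castSucc) +
      y (Sum.inl (Fin.last (N + 1))) * ∑ i ∈ B, y (Sum.inr i.castSucc) * ∏ l ∈ B.erase i, y (Sum.inl l.castSucc) = 0 := by
    have h := congrArg D h5
    rw [Derivation.leibniz, Fin_prod, Derivation.map_one_eq_zero, hx, smul_eq_mul, smul_eq_mul] at h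
    simp only [hx] at h
    rw [← h]
    ring
  obtain ⟨K, hK⟩ := exists_vdetL_ne (F := F) (logPolar_of_generated hm hgen) f hb h1 h2 h3 h4 h5 h6 ⟨i, hi⟩
  have hfQ : ∀ j, f.Q j ∈ P := fun j => f.span.le (Ideal.subset_span ⟨j, rfl⟩)
  -- the values of the family
  set S : Set (MvPolynomial (Ph (N + 1)) ℂ) := {s | ∃ l, s = gfamL f (Sum.inl l) - C (gval (J := J) 0 (Sum.inl l))} ∪
    ({s | ∃ l, s = gfamL f (Sum.inr (Sum.inl l)) - C (gval (q := f.q) (J := J) 0 (Sum.inr (Sum.inl l)))} ∪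
      {s | ∃ l n, s = (⇑(Dt (gfamL f) K))^[n + 1] (gfamL f l)}) with hS
  have hyS : ∀ s ∈ S, aeval y s = 0 := by
    rintro s (⟨((_ | _) | (j | j)), rfl⟩ | (⟨(_ | _), rfl⟩ | ⟨l, n, rfl⟩))
    · simp only [gfamL, gval, Sum.elim_inl, map_sub, aeval_X, h1, map_one, sub_self]
    · simp only [gfamL, gval, Sum.elim_inl, Sum.elim_inr, map_sub, aeval_X, h2, map_zero, sub_self]
    · simp only [gfamL, gval, Sum.elim_inl, Sum.elim_inr, map_sub, map_zero, sub_zero]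
      exact h3 _ (hfQ j)
    · simp only [gfamL, gval, Sum.elim_inl, Sum.elim_inr, map_sub, map_zero, sub_zero]
      exact h4 _ (hfQ j)
    · simp only [gfamL, gval, Sum.elim_inl, Sum.elim_inr, map_sub, map_one, map_mul, map_prod, aeval_X, h5, sub_self]
    · simp only [gfamL, gval, Sum.elim_inl, Sum.elim_inr, map_sub, map_zero, sub_zero, map_add, map_mul, map_prod, map_sum, aeval_X]
      exact h6
    · exact Pool.Agent.GB.aeval_iter (gfamL f) K D hx hG l n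
  have hyG : aeval y (vdet (gfamL f) K * (rename r q * X (Sum.inr i.castSucc))) ≠ 0 := by
    rw [map_mul, map_mul, aeval_X]
    exact mul_ne_zero hK (mul_ne_zero (hq0 q n hq hqP) hi)
  by_contra hcon
  refine hyG (Pool.Agent.GB.transfer (S := S) ?_ y hyS)
  intro w hw
  by_contra hne
  rw [map_mul, map_mul, eval_X] at hne
  obtain ⟨x, v, e1, e2, e3, -⟩ := of_gval f (c := fun k => eval w (gfamL f (Sum.inr (Sum.inr k)))) (y := w) (by
    rintro (l | (l | l))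
    · have h := hw _ (Or.inl ⟨l, rfl⟩)
      rw [map_sub, eval_C, sub_eq_zero] at h
      rw [h]
      rcases l with ((_ | _) | (_ | _)) <;> rfl
    · have h := hw _ (Or.inr (Or.inl ⟨l, rfl⟩))
      rw [map_sub, eval_C, sub_eq_zero] at h
      rw [h]
      rcases l with (_ | _) <;> rfl
    · rfl)
  have hxw : ∀ j : Fin (N + 1), w (Sum.inl j.castSucc) = x j := fun j => by
    rw [e1]
    simp only [ePt, emb, Sum.elim_inl, Fin.snoc_castSucc]
  have hvw : ∀ j : Fin (N + 1), w (Sum.inr j.castSucc) = v j := fun j => by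
    rw [e1]
    simp only [ePt, embV, Sum.elim_inr, Fin.snoc_castSucc]
  refine hcon ⟨K, x, v, e2, e3, fun h => right_ne_zero_of_mul (right_ne_zero_of_mul hne) (by rw [hvw, h]; rfl), ?_, ?_, ?_⟩
  · intro h
    apply left_ne_zero_of_mul (right_ne_zero_of_mul hne)
    rw [eval_rename, ← h]
    congr 1
    congr 1
    funext j
    exact hxw j
  · rw [← e1]
    exact left_ne_zero_of_mul hne
  · intro l n
    rw [← e1]
    exact hw _ (Or.inr (Or.inr ⟨l, n, rfl⟩))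

end Pool.Agent.GBL

end

section

/-!
# GL CntL: continuation of the variation field

`exists_linL`: near `z₁` write `F' = (z - z₁) ^ p h`, `h (z₁) ≠ 0` (`F' ≠ 0` somewhere, so not identically `0` near `z₁`), and `(eF B F)' = embV B F F' = (z - z₁) ^ p embV B F h`, `h (z) ∈ Tc P b (F z)`; `exists_rowL` at `(F z₁, h z₁)`; by
homogeneity (`hom_gfamL`) `∂_v G_l (x, t^p h) = t^(p (e_l - 1)) ∂_v G_l (x, h)`, `∂_x G_l (x, t^p h) = t^(p e_l) ∂_x G_l (x, h)`, and `e_l ≥ 1` for the rows of a nonzero minor; divide and solve for `V'` (as GA/Lin0).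
`contL`, `detL`: see `CntM`.
-/

set_option autoImplicit false

open MvPolynomial Topology Filter Metric
open Pool.Agent.H13.SM (conTan cone)
open Pool.Agent.GG Pool.Agent.GA

namespace Pool.Agent.GL

variable {N : ℕ} {P : Ideal (MvPolynomial (Fin (N + 1)) ℂ)} {B : Finset (Fin (N + 1))} {J : ℕ} {m : Fin J → ℕ} {θ : ∀ k, LogSec P B (m k)} {b : Fin (N + 1)}
  {F : ℂ → Fin (N + 1) → ℂ} {OO : Subalgebra ℂ (ℂ → ℂ)}

private theorem CntL_eval {y : ℂ → Ph N → ℂ} {t : ℂ} (hy : AnalyticAt ℂ y t) (g : MvPolynomial (Ph N) ℂ) :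
    AnalyticAt ℂ (fun s => eval (y s) g) t :=
  AnalyticAt.comp (g := fun y : Ph N → ℂ => eval y g) (f := y) (AnalyticOnNhd.eval_mvPolynomial g (y t) (Set.mem_univ _)) hy

/-- the linear differential equation of the variations of a curve with `x' = (w - z₁) ^ p h`, for a family which is homogeneous in `v` -/
theorem lin_core {ι : Type} {G : ι → MvPolynomial (Ph N) ℂ} (hG : ∀ l, ∃ e, IsWeightedHomogeneous (wv N) (G l) e) {x h : ℂ → Fin (N + 1) → ℂ} {z₁ : ℂ}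
    {p : ℕ} {U : Set ℂ} (hU : U ∈ 𝓝 z₁) (hx : AnalyticAt ℂ x z₁) (hh : AnalyticAt ℂ h z₁) (hxh : ∀ᶠ w in 𝓝 z₁, deriv x w = (w - z₁) ^ p • h w)
    {I : Fin (N + 1) → ι} (hI : eval (pt (x z₁) (h z₁)) (vdet G I) ≠ 0) :
    ∃ ρ > 0, ball z₁ ρ ⊆ U ∧ ∃ A : ℂ → (Fin (N + 1) → ℂ) →L[ℂ] (Fin (N + 1) → ℂ), (∀ w ∈ ball z₁ ρ, AnalyticAt ℂ A w) ∧
      ∀ z₂ ∈ ball z₁ ρ, ∀ V : ℂ → Fin (N + 1) → ℂ, AnalyticAt ℂ V z₂ → (∀ᶠ w in 𝓝 z₂, ∀ l, lhs (G l) x V w = 0) →
        ∀ᶠ w in 𝓝 z₂, deriv V w = A w (V w) := by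
  set y : ℂ → Ph N → ℂ := fun w => pt (x w) (h w) with hy
  have hya : ∀ w, AnalyticAt ℂ x w → AnalyticAt ℂ h w → AnalyticAt ℂ y w := by
    intro w h1 h2
    rw [analyticAt_pi_iff]
    rintro (i | i)
    · exact (analyticAt_pi_iff.mp h1) i
    · exact (analyticAt_pi_iff.mp h2) i
  have hdet : ∀ᶠ w in 𝓝 z₁, eval (y w) (vdet G I) ≠ 0 := (CntL_eval (hya z₁ hx hh) (vdet G I)).continuousAt.eventually_ne hI
  have hUe : ∀ᶠ w in 𝓝 z₁, w ∈ U := hU
  obtain ⟨ρ, hρ, hB⟩ := Metric.eventually_nhds_iff_ball.1 (hUe.and (hx.eventually_analyticAt.and (hh.eventually_analyticAt.and (hdet.and hxh))))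
  have hy' : ∀ w ∈ ball z₁ ρ, AnalyticAt ℂ y w := fun w hw => hya w (hB w hw).2.1 (hB w hw).2.2.1
  set β : ℂ → Fin (N + 1) → Fin (N + 1) → ℂ := fun w i j =>
    -(w - z₁) ^ p * (eval (y w) (vdet G I))⁻¹ * eval (y w) (∑ k, (vmat G I).adjugate i k * pderiv (Sum.inl j) (G (I k))) with hβ
  have hβa : ∀ w ∈ ball z₁ ρ, AnalyticAt ℂ (fun w => linMap (β w)) w := by
    intro w hw
    refine analyticAt_linMap fun i j => ?_
    have h1 : AnalyticAt ℂ (fun w : ℂ => -(w - z₁) ^ p) w := ((analyticAt_id.sub analyticAt_const).pow p).neg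
    exact (h1.mul ((CntL_eval (hy' w hw) _).inv (hB w hw).2.2.2.1)).mul (CntL_eval (hy' w hw) _)
  refine ⟨ρ, hρ, fun w hw => (hB w hw).1, fun w => linMap (β w), hβa, fun z₂ hz₂ V hV hl => ?_⟩
  have hcont : ContinuousAt (deriv V) z₂ := hV.deriv.continuousAt
  have hcont' : ContinuousAt (fun w => linMap (β w) (V w)) z₂ := (hβa z₂ hz₂).continuousAt.clm_apply hV.continuousAt
  have hne : ∀ᶠ w in 𝓝[≠] z₂, w ≠ z₁ := by
    rcases eq_or_ne z₂ z₁ with h1 | h1
    · rw [h1]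
      exact self_mem_nhdsWithin
    · exact (continuousAt_id.eventually_ne h1).filter_mono nhdsWithin_le_nhds
  have key : ∀ᶠ w in 𝓝[≠] z₂, deriv V w = linMap (β w) (V w) := by
    filter_upwards [hne, (isOpen_ball.eventually_mem hz₂).filter_mono nhdsWithin_le_nhds, hl.filter_mono nhdsWithin_le_nhds] with w hw hwB hwl
    have ht : (w - z₁) ^ p ≠ 0 := pow_ne_zero _ (sub_ne_zero.2 hw)
    have h1 : ∀ l, (w - z₁) ^ p * ∑ c, eval (y w) (pderiv (Sum.inl c) (G (I l))) * V w c +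
        ∑ c, eval (y w) (pderiv (Sum.inr c) (G (I l))) * deriv V w c = 0 := by
      intro l
      obtain ⟨e, he⟩ := hG (I l)
      refine lin_row he ht ?_
      have h2 := hwl (I l)
      rw [lhs, (hB w hwB).2.2.2.2] at h2
      exact h2
    funext i
    rw [linMap_apply, lin_solve (hB w hwB).2.2.2.1 h1 i]
  exact (hcont.eventuallyEq_nhds_iff_eventuallyEq_nhdsNE hcont').1 key

private theorem CntL_embV_smul (x v : Fin (N + 1) → ℂ) (c : ℂ) : embV B x (c • v) = c • embV B x v := by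
  funext j
  refine Fin.lastCases ?_ (fun i => ?_) j
  · have h1 : ∀ v : Fin (N + 1) → ℂ, embV B x v (Fin.last (N + 1)) = -((∏ i ∈ B, x i)⁻¹ * ∑ i ∈ B, (x i)⁻¹ * v i) := fun v => Fin.snoc_last _ _
    rw [Pi.smul_apply, h1, h1, smul_eq_mul, mul_neg, ← mul_assoc c, mul_comm c, mul_assoc _ c, Finset.mul_sum (a := c)]
    refine congrArg (fun s => -((∏ i ∈ B, x i)⁻¹ * s)) (Finset.sum_congr rfl fun i _ => ?_)
    rw [Pi.smul_apply, smul_eq_mul]
    ring
  · have h1 : ∀ v : Fin (N + 1) → ℂ, embV B x v i.castSucc = v i := fun v => Fin.snoc_castSucc _ _ _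
    rw [Pi.smul_apply, h1, h1, Pi.smul_apply]

private theorem CntL_embV_an {x h : ℂ → Fin (N + 1) → ℂ} {z : ℂ} (hx : AnalyticAt ℂ x z) (hh : AnalyticAt ℂ h z) (h0 : ∀ i ∈ B, x z i ≠ 0) :
    AnalyticAt ℂ (fun w => embV B (x w) (h w)) z := by
  have hxi : ∀ i, AnalyticAt ℂ (fun w => x w i) z := fun i => (analyticAt_pi_iff.1 hx) i
  have hhi : ∀ i, AnalyticAt ℂ (fun w => h w i) z := fun i => (analyticAt_pi_iff.1 hh) i
  refine AnalyticAt.pi fun j => ?_
  refine Fin.lastCases ?_ (fun i => ?_) j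
  · have e : (fun w => embV B (x w) (h w) (Fin.last (N + 1))) = fun w => -((∏ i ∈ B, x w i)⁻¹ * ∑ i ∈ B, (x w i)⁻¹ * h w i) := by
      funext w
      exact Fin.snoc_last _ _
    rw [e]
    refine ((((Finset.analyticAt_fun_prod _ fun i _ => hxi i).inv (Finset.prod_ne_zero_iff.2 h0))).mul ?_).neg
    exact Finset.analyticAt_fun_sum _ fun i hi => ((hxi i).inv (h0 i hi)).mul (hhi i)
  · have e : (fun w => embV B (x w) (h w) i.castSucc) = fun w => h w i := by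
      funext w
      exact Fin.snoc_castSucc _ _ _
    rw [e]
    exact hhi i

theorem exists_linL (hθ : LogPolar θ) (hm : ∀ k, 1 ≤ m k) (hb : b ∈ B) (f : LFrame θ b) (hF : LCurve P B b F) (hne : ∃ w ∈ HP, deriv F w ≠ 0) {z₁ : ℂ} (hz : z₁ ∈ HP) :
    ∃ ρ > 0, ball z₁ ρ ⊆ HP ∧ ∃ A : ℂ → (Fin (N + 2) → ℂ) →L[ℂ] (Fin (N + 2) → ℂ), (∀ w ∈ ball z₁ ρ, AnalyticAt ℂ A w) ∧
      ∀ z₂ ∈ ball z₁ ρ, ∀ V : ℂ → Fin (N + 2) → ℂ, AnalyticAt ℂ V z₂ → (∀ᶠ w in 𝓝 z₂, ∀ l, lhs (gfamL f l) (eF B F) V w = 0) →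
        ∀ᶠ w in 𝓝 z₂, deriv V w = A w (V w) := by
  have hHo : IsOpen HP := isOpen_lt continuous_const Complex.continuous_re
  have hHP : ∀ᶠ w in 𝓝 z₁, w ∈ HP := hHo.mem_nhds hz
  have hU : ∀ w ∈ HP, F w ∈ Uc P B b := fun w hw => ⟨hF.curve.cone w hw, hF.one w, hF.ne w hw⟩
  have hFa := hF.curve.an
  have hnz : ¬ ∀ᶠ w in 𝓝 z₁, deriv F w = 0 := by
    intro h
    obtain ⟨w, hw, hw0⟩ := hne
    have h1 : AnalyticOnNhd ℂ (deriv F) HP := fun w hw => (hFa w hw).deriv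
    have h2 : IsPreconnected HP := (convex_halfSpace_re_gt 0).isPreconnected
    exact hw0 (h1.eqOn_zero_of_preconnected_of_eventuallyEq_zero h2 hz h hw)
  obtain ⟨p, h, hha, hh0, hhx⟩ := ((hFa z₁ hz).deriv.exists_eventuallyEq_pow_smul_nonzero_iff).2 hnz
  have hdx : ∀ᶠ w in 𝓝 z₁, deriv F w ∈ Tc P b (F w) := by
    filter_upwards [hHP] with w hw
    exact deriv_mem_Tc (hFa w hw) ((hHo.eventually_mem hw).mono hU)
  have hnz' : ∀ᶠ w in 𝓝[≠] z₁, (w - z₁) ^ p ≠ 0 := by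
    filter_upwards [self_mem_nhdsWithin] with w hw
    exact pow_ne_zero _ (sub_ne_zero.2 hw)
  have hhT : h z₁ ∈ Tc P b (F z₁) := by
    refine ⟨fun Q hQ => ?_, ?_⟩
    · have h1 : ContinuousAt (fun w => ∑ i, h w i * eval (F w) (pderiv i Q)) z₁ := by
        refine tendsto_finsetSum _ fun i _ => ?_
        refine ((continuousAt_pi.1 hha.continuousAt) i).mul ?_
        exact ContinuousAt.comp (g := fun y : Fin (N + 1) → ℂ => eval y (pderiv i Q)) (MvPolynomial.continuous_eval _).continuousAt (hFa z₁ hz).continuousAt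
      have h2 : Tendsto (fun w => ∑ i, h w i * eval (F w) (pderiv i Q)) (𝓝[≠] z₁) (𝓝 0) := by
        refine tendsto_const_nhds.congr' ?_
        filter_upwards [hnz', hdx.filter_mono nhdsWithin_le_nhds, hhx.filter_mono nhdsWithin_le_nhds] with w hw hw' hw''
        have h3 := hw'.1 Q hQ
        rw [hw''] at h3
        simp only [Pi.smul_apply, smul_eq_mul, mul_assoc, ← Finset.mul_sum] at h3
        exact ((mul_eq_zero.1 h3).resolve_left hw).symm
      exact tendsto_nhds_unique (h1.tendsto.mono_left nhdsWithin_le_nhds) h2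
    · have h1 : ContinuousAt (fun w => h w b) z₁ := (continuousAt_pi.1 hha.continuousAt) b
      have h2 : Tendsto (fun w => h w b) (𝓝[≠] z₁) (𝓝 0) := by
        refine tendsto_const_nhds.congr' ?_
        filter_upwards [hnz', hdx.filter_mono nhdsWithin_le_nhds, hhx.filter_mono nhdsWithin_le_nhds] with w hw hw' hw''
        have h3 := hw'.2
        rw [hw''] at h3
        simp only [Pi.smul_apply, smul_eq_mul] at h3
        exact ((mul_eq_zero.1 h3).resolve_left hw).symm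
      exact tendsto_nhds_unique (h1.tendsto.mono_left nhdsWithin_le_nhds) h2
  obtain ⟨I, hI⟩ := exists_rowL hθ f hb (hU z₁ hz) hhT hh0
  have hxh : ∀ᶠ w in 𝓝 z₁, deriv (eF B F) w = (w - z₁) ^ p • embV B (F w) (h w) := by
    filter_upwards [hHP, hhx] with w hw hw'
    have h1 : deriv (eF B F) w = embV B (F w) (deriv F w) := deriv_emb (hFa w hw) (hF.ne w hw)
    rw [h1, hw', CntL_embV_smul]
  exact lin_core (fun l => ⟨_, hom_gfamL f l⟩) hHP (analyticAt_emb (hFa z₁ hz) (hF.ne z₁ hz)) (CntL_embV_an (hFa z₁ hz) hha (hF.ne z₁ hz)) hxh hI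

end Pool.Agent.GL

end

section

/-!
# GTL NoE: an entire curve in `X \ D` does not extend to `∞`

PROOF.  `B = ∅`: `GT.no_extend` with `toSym` (EmpA).  `b ∈ B`: the lift `F` of `f` in the chart `F b = 1` has polynomial growth, so it is constant (`poly_curve`), as in the proof of
`entire_of_puncturedL` (GL/EntL of helper12).
-/

set_option autoImplicit false

open MvPolynomial Topology Filter Metric
open Pool.Agent.H17 (PN VanishesAt HolomorphicInto puncturedDisc)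
open Pool.Agent.H62.FC (Homog)
open Pool.Agent.GL

namespace Pool.Agent.GTL

variable {N : ℕ} {P : Ideal (MvPolynomial (Fin (N + 1)) ℂ)} {B : Finset (Fin (N + 1))} {J : ℕ} {m : Fin J → ℕ} {θ : ∀ k, LogSec P B (m k)}

/-- an entire function with a meromorphic extension to `∞` has polynomial growth -/
private theorem noE_growth {b : Fin (N + 1)} {F φ : ℂ → Fin (N + 1) → ℂ} (hF : ∀ z, AnalyticAt ℂ F z) (hφ : AnalyticAt ℂ φ 0)
    (h : ∀ᶠ u in 𝓝[≠] (0 : ℂ), φ u b ≠ 0 ∧ φ u = φ u b • F u⁻¹) : ∃ (C : ℝ) (e : ℕ), ∀ z, ‖F z‖ ≤ C * (1 + ‖z‖) ^ e := by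
  have hφb : AnalyticAt ℂ (fun u => φ u b) 0 := (analyticAt_pi_iff.1 hφ) b
  obtain ⟨n, ψ, hψ, hψ0, hψe⟩ := hφb.exists_eventuallyEq_pow_smul_nonzero_iff.2 (by
    intro h0
    obtain ⟨u, h1, h2⟩ := (h.and (h0.filter_mono nhdsWithin_le_nhds)).exists
    exact h1.1 h2)
  -- the bound near `∞`
  have h1 : ∀ᶠ u in 𝓝[≠] (0 : ℂ), ‖F u⁻¹‖ ≤ ((‖φ 0‖ + 1) * 2 / ‖ψ 0‖) * ‖u⁻¹‖ ^ n := by
    have hp : 0 < ‖ψ 0‖ := norm_pos_iff.2 hψ0
    have h2 : ∀ᶠ u in 𝓝 (0 : ℂ), ‖φ u‖ < ‖φ 0‖ + 1 := hφ.continuousAt.norm.tendsto.eventually (gt_mem_nhds (by linarith))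
    have h3 : ∀ᶠ u in 𝓝 (0 : ℂ), ‖ψ 0‖ / 2 < ‖ψ u‖ := hψ.continuousAt.norm.tendsto.eventually (lt_mem_nhds (by linarith))
    filter_upwards [h, hψe.filter_mono nhdsWithin_le_nhds, h2.filter_mono nhdsWithin_le_nhds, h3.filter_mono nhdsWithin_le_nhds, self_mem_nhdsWithin] with u h4 h5 h6 h7 h8
    have hu : u ≠ 0 := h8
    have hup : 0 < ‖u‖ := norm_pos_iff.2 hu
    have h9 : ‖φ u b‖ = ‖u‖ ^ n * ‖ψ u‖ := by
      have h10 : φ u b = (u - 0) ^ n • ψ u := h5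
      rw [h10, sub_zero, norm_smul, norm_pow]
    have h10 : ‖φ u b‖ * ‖F u⁻¹‖ ≤ ‖φ 0‖ + 1 := by
      rw [← norm_smul, ← h4.2]
      exact h6.le
    have h11 : ‖u‖ ^ n * (‖ψ 0‖ / 2) * ‖F u⁻¹‖ ≤ ‖φ 0‖ + 1 := by
      refine le_trans ?_ h10
      rw [h9]
      gcongr
    rw [norm_inv, inv_pow, div_mul_eq_mul_div, le_div_iff₀ hp, ← div_eq_mul_inv, le_div_iff₀ (by positivity)]
    nlinarith
  -- on a neighbourhood of `∞`
  rw [eventually_nhdsWithin_iff, Metric.eventually_nhds_iff] at h1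
  obtain ⟨r, hr, h1⟩ := h1
  obtain ⟨B₁, hB₁⟩ := (isCompact_closedBall (0 : ℂ) r⁻¹).exists_bound_of_continuousOn (f := F) fun z _ => (hF z).continuousAt.continuousWithinAt
  refine ⟨max ((‖φ 0‖ + 1) * 2 / ‖ψ 0‖) B₁, n, fun z => ?_⟩
  have hp : 0 < ‖ψ 0‖ := norm_pos_iff.2 hψ0
  have hK : 0 ≤ (‖φ 0‖ + 1) * 2 / ‖ψ 0‖ := by positivity
  by_cases hz : ‖z‖ ≤ r⁻¹
  · have h2 := hB₁ z (mem_closedBall_zero_iff.2 hz)
    have h3 : 0 ≤ B₁ := (norm_nonneg _).trans h2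
    have h4 : (1 : ℝ) ≤ (1 + ‖z‖) ^ n := one_le_pow₀ (by linarith [norm_nonneg z])
    calc ‖F z‖ ≤ B₁ := h2
      _ ≤ max ((‖φ 0‖ + 1) * 2 / ‖ψ 0‖) B₁ * 1 := by rw [mul_one]; exact le_max_right _ _
      _ ≤ _ := mul_le_mul_of_nonneg_left h4 (hK.trans (le_max_left _ _))
  · push Not at hz
    have hz0 : 0 < ‖z‖ := (inv_pos.2 hr).trans hz
    have hz1 : z ≠ 0 := norm_pos_iff.1 hz0
    have h2 := h1 (y := z⁻¹) (by
      rw [dist_zero_right, norm_inv]
      exact inv_lt_of_inv_lt₀ hr hz) (inv_ne_zero hz1)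
    rw [inv_inv] at h2
    calc ‖F z‖ ≤ ((‖φ 0‖ + 1) * 2 / ‖ψ 0‖) * ‖z‖ ^ n := h2
      _ ≤ max ((‖φ 0‖ + 1) * 2 / ‖ψ 0‖) B₁ * (1 + ‖z‖) ^ n := by
        refine mul_le_mul (le_max_left _ _) (pow_le_pow_left₀ (norm_nonneg _) (by linarith) n) (by positivity) (hK.trans (le_max_left _ _))

/-- **Rational curves.**  A nonconstant entire curve in `X \ D` does not extend holomorphically to infinity. -/
theorem no_extendL (hP : Homog P) (hθ : LogPolar θ) (hm : ∀ k, 1 ≤ m k) {f : ℂ → PN N} (hf : HolomorphicInto f Set.univ) (hX : ∀ z, f z ∈ openPart P B)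
    (hne : ∃ z w, f z ≠ f w) {G : ℂ → PN N} (hG : HolomorphicInto G (ball 0 1)) (hGf : ∀ z ∈ puncturedDisc, G z = f z⁻¹) : False := by
  classical
  rcases B.eq_empty_or_nonempty with hB | ⟨b, hb⟩
  · subst hB
    exact Pool.Agent.GT.no_extend hP (polar_toSym hθ) hm hf (fun z => (hX z).1) hne hG hGf
  -- a global lift
  obtain ⟨x, hx⟩ := Pool.Agent.H17.exists_global_lift hf
  obtain ⟨F₀, hFx⟩ : ∃ F : ℂ → Fin (N + 1) → ℂ, F = fun z j => (x j : ℂ → ℂ) z := ⟨_, rfl⟩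
  have hF₀ : Differentiable ℂ F₀ := by
    rw [hFx]
    exact differentiable_pi.2 fun j => (x j).diff
  have hFf₀ : ∀ z, ∃ h : F₀ z ≠ 0, f z = Projectivization.mk ℂ (F₀ z) h := by
    intro z
    rw [hFx]
    exact hx z
  have hXi : ∀ i ∈ B, ∀ z, F₀ z i ≠ 0 := by
    intro i hi z h0
    obtain ⟨h, h1⟩ := hFf₀ z
    have h2 := (hX z).2 i hi
    rw [h1, Pool.Agent.H17.vanishesAt_mk_iff (isHomogeneous_X ℂ i), eval_X] at h2
    exact h2 h0
  -- the lift in the chart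
  obtain ⟨F, hFe⟩ : ∃ F : ℂ → Fin (N + 1) → ℂ, F = fun z => (F₀ z b)⁻¹ • F₀ z := ⟨_, rfl⟩
  have hF : ∀ z, AnalyticAt ℂ F z := by
    intro z
    rw [hFe]
    exact (((analyticAt_pi_iff.1 (hF₀.analyticAt z)) b).inv (hXi b hb z)).smul (hF₀.analyticAt z)
  have hF1 : ∀ z, F z b = 1 := by
    intro z
    rw [hFe]
    simp [hXi b hb z]
  have hFf : ∀ z, ∃ h : F z ≠ 0, f z = Projectivization.mk ℂ (F z) h := by
    intro z
    obtain ⟨h, h1⟩ := hFf₀ z
    have h2 : F z = (F₀ z b)⁻¹ • F₀ z := by rw [hFe]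
    have h3 : F z ≠ 0 := by
      rw [h2]
      exact smul_ne_zero (inv_ne_zero (hXi b hb z)) h
    refine ⟨h3, ?_⟩
    rw [h1, Projectivization.mk_eq_mk_iff']
    refine ⟨F₀ z b, ?_⟩
    rw [h2, smul_inv_smul₀ (hXi b hb z)]
  have hFU : ∀ z, F z ∈ Uc P B b := by
    intro z
    obtain ⟨h, h1⟩ := hFf z
    have h2 := hX z
    refine ⟨?_, hF1 z, fun i hi => ?_⟩
    · have h3 := h2.1
      rw [h1] at h3
      exact (Pool.Agent.H17EF.mk_mem_projVar hP h).1 h3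
    · have h4 : F z i = (F₀ z b)⁻¹ * F₀ z i := by
        rw [hFe]
        rfl
      rw [h4]
      exact mul_ne_zero (inv_ne_zero (hXi b hb z)) (hXi i hi z)
  obtain ⟨φ, hφ, hφG⟩ := hG 0 (mem_ball_self one_pos)
  have hnear : ∀ᶠ u in 𝓝[≠] (0 : ℂ), φ u b ≠ 0 ∧ φ u = φ u b • F u⁻¹ := by
    filter_upwards [hφG.filter_mono nhdsWithin_le_nhds, nhdsWithin_le_nhds (ball_mem_nhds (0 : ℂ) one_pos), self_mem_nhdsWithin] with u h1 h2 h3
    obtain ⟨h4, h5⟩ := h1
    obtain ⟨h6, h7⟩ := hFf u⁻¹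
    have h8 := hGf u ⟨h2, h3⟩
    rw [h5] at h8
    have h9 : Projectivization.mk ℂ (φ u) h4 = Projectivization.mk ℂ (F u⁻¹) h6 := by
      rw [h8, ← h7]
    rw [Projectivization.mk_eq_mk_iff'] at h9
    obtain ⟨a, ha⟩ := h9
    have h10 : φ u b = a := by
      rw [← ha, Pi.smul_apply, smul_eq_mul, hF1, mul_one]
    rw [h10]
    refine ⟨?_, ha.symm⟩
    intro h0
    rw [h0, zero_smul] at ha
    exact h4 ha.symm
  obtain ⟨C, e', hC⟩ := noE_growth hF hφ hnear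
  have hd := poly_curve hP hθ hm hb hF hFU hC
  have hFd : Differentiable ℂ F := fun z => (hF z).differentiableAt
  obtain ⟨z, w, hzw⟩ := hne
  apply hzw
  have h1 : F z = F w := is_const_of_deriv_eq_zero hFd hd z w
  obtain ⟨h2, h3⟩ := hFf z
  obtain ⟨h4, h5⟩ := hFf w
  rw [h3, h5]
  simp only [h1]

end Pool.Agent.GTL

end

section

/-!
# GTL Bd: log general type goes up along dominant strictly rational maps of varieties of the same dimension

`exists_embed`: as `H7.Qup.exists_compat` (only one tuple `γ`).  `onBd_strict`: the analogue of `H7.Qup.onBd_over`.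

PROOF of `onBd_strict`.  Let `j'` be a coordinate with all `ratio P' i j'` of order `≥ 0` along `E` (`exists_center`), and `j` the one of `OnBd P G E₀`.  Let
`Φ : MvPolynomial (Fin (M + 1) ⊕ Fin (N + 1)) ℂ → FunField P'` be given by `ratio P' i j'` and `e (ratio P i j)`; all values have order `≥ 0`; `𝔭 = {S | 0 < E.ord (Φ S)}` is a
prime ideal (as `ctr`).  If `G' m (ratio)` has order `0`, then there is a point `(v, u)` of the zero locus of `𝔭` with `G' m (v) ≠ 0` (as `exists_ctr_point`);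
`v j' = 1`, `u j = 1`; so `y = [v] ∈ locVar P' G'`.  `InGraph P' γ y [u]`: let `S` be bihomogeneous of degree `(a, b)` with `aeval (Sum.elim X γ) S ∈ P'`; with `c = gen P' j' (γ j) ≠ 0`:
`c ^ b Φ S = gen P' j' (aeval (Sum.elim X γ) S) = 0` (`eval_bihom`), so `Φ S = 0`, `S ∈ 𝔭`, `S (v, u) = 0`; then `eval_bihom'` for the representatives.  So `[u] ∈ locVar P G` by `into`, some `G l (u) ≠ 0`; but
`G l ∈ 𝔭` as `0 < E₀.ord`, a contradiction.
-/

set_option autoImplicit false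

open MvPolynomial
open Pool.Agent.H17 (PN VanishesAt vanishesAt_mk_iff)
open Pool.Agent.H17GT (coordFun)
open Pool.Agent.H17LG.Variety (FunField ratio IsLogGeneralType)
open Pool.Agent.H23.Fano (PrimeDivisorOver)
open Pool.Agent.H62.FC (Homog)
open Pool.Agent.H62.SA (locVar OnBd)
open Pool.Agent.H17R (gen gen_eq_zero_iff ratio_self coordFun_ne_zero_iff gen_change exists_center ord_gen_nonneg ratio_ne_zero_iff)
open Pool.Agent.H7.Qup (exists_hom_val aeval_homog ratio_change' isLGT_of_algebraic)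

noncomputable section

namespace Pool.Agent.GTL

variable {N M : ℕ} {P : Ideal (MvPolynomial (Fin (N + 1)) ℂ)} {P' : Ideal (MvPolynomial (Fin (M + 1)) ℂ)} {s s' D : ℕ}
  {G : Fin s → MvPolynomial (Fin (N + 1)) ℂ} {G' : Fin s' → MvPolynomial (Fin (M + 1)) ℂ} {γ : Fin (N + 1) → MvPolynomial (Fin (M + 1)) ℂ}

private theorem Bd_notMem (h : StrictMap P P' G G' D γ) {i : Fin (N + 1)} (hi : X i ∉ P) : γ i ∉ P' := by
  intro h1
  apply hi
  rw [← h.maps 1 _ (isHomogeneous_X ℂ i), aeval_X]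
  exact h1

/-- the degree of the forms is positive -/
theorem StrictMap.pos [P.IsPrime] [P'.IsPrime] (h : StrictMap P P' G G' D γ) {k : ℕ} (hz : ∃ z : Fin (k + 1) → FunField P, IsTranscendenceBasis ℂ z) : 1 ≤ D := by
  by_contra hcon
  have hD : D = 0 := by omega
  subst hD
  obtain ⟨j, hj⟩ := Pool.Agent.GG.exists_X_notMem (Nat.succ_le_succ (Nat.zero_le k)) hz
  have hc : ∀ i, γ i = C (coeff 0 (γ i)) := fun i => totalDegree_eq_zero_iff_eq_C.1 ((totalDegree_zero_iff_isHomogeneous _).2 (h.hom i))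
  have hcj : coeff 0 (γ j) ≠ 0 := by
    intro h0
    apply Bd_notMem h hj
    rw [hc j, h0, map_zero]
    exact P'.zero_mem
  have hcf : coordFun P j ≠ 0 := coordFun_ne_zero_iff.2 hj
  have hr : ∀ i, ratio P i j = algebraMap ℂ (FunField P) (coeff 0 (γ i) / coeff 0 (γ j)) := by
    intro i
    have h1 : (C (coeff 0 (γ j)) * X i - C (coeff 0 (γ i)) * X j : MvPolynomial (Fin (N + 1)) ℂ).IsHomogeneous 1 := by
      have h2 := ((isHomogeneous_C (Fin (N + 1)) (coeff 0 (γ j))).mul (isHomogeneous_X ℂ i)).sub ((isHomogeneous_C (Fin (N + 1)) (coeff 0 (γ i))).mul (isHomogeneous_X ℂ j))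
      simpa using h2
    have h2 : (C (coeff 0 (γ j)) * X i - C (coeff 0 (γ i)) * X j : MvPolynomial (Fin (N + 1)) ℂ) ∈ P := by
      rw [← h.maps 1 _ h1, map_sub, map_mul, map_mul, aeval_X, aeval_X, aeval_C, aeval_C]
      have h3 : (algebraMap ℂ (MvPolynomial (Fin (M + 1)) ℂ) (coeff 0 (γ j)) * γ i - algebraMap ℂ (MvPolynomial (Fin (M + 1)) ℂ) (coeff 0 (γ i)) * γ j) = 0 := by
        rw [MvPolynomial.algebraMap_eq, ← hc j, ← hc i]
        ring
      rw [h3]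
      exact P'.zero_mem
    have h3 := (gen_eq_zero_iff hcf h1).2 h2
    unfold gen at h3
    rw [map_sub, map_mul, map_mul, aeval_X, aeval_X, aeval_C, aeval_C, ratio_self hcf, mul_one, sub_eq_zero] at h3
    rw [map_div₀, eq_div_iff ((map_ne_zero _).2 hcj), mul_comm]
    exact h3
  have htop := Pool.Agent.H17R.adjoin_ratio hcf
  obtain ⟨z, hz⟩ := hz
  have h1 : z 0 ∈ IntermediateField.adjoin ℂ (Set.range fun i => ratio P i j) := by rw [htop]; trivial
  have h2 : IntermediateField.adjoin ℂ (Set.range fun i => ratio P i j) = ⊥ := by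
    rw [eq_bot_iff, IntermediateField.adjoin_le_iff]
    rintro w ⟨i, rfl⟩
    change ratio P i j ∈ (⊥ : IntermediateField ℂ (FunField P))
    rw [hr i]
    exact IntermediateField.algebraMap_mem _ _
  rw [h2] at h1
  obtain ⟨c, hc'⟩ := IntermediateField.mem_bot.1 h1
  have h3 := hz.1.transcendental 0
  apply h3
  rw [← hc']
  exact isAlgebraic_algebraMap c

/-- The embedding of the function fields which corresponds to the forms `γ`. -/
def CompatF (P : Ideal (MvPolynomial (Fin (N + 1)) ℂ)) [P.IsPrime] (P' : Ideal (MvPolynomial (Fin (M + 1)) ℂ)) [P'.IsPrime]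
    (γ : Fin (N + 1) → MvPolynomial (Fin (M + 1)) ℂ) (e : FunField P →ₐ[ℂ] FunField P') : Prop :=
  ∀ j', X j' ∉ P' → ∀ i₀, X i₀ ∉ P → ∀ i, e (ratio P i i₀) * gen P' j' (γ i₀) = gen P' j' (γ i)

theorem exists_embed [P.IsPrime] [P'.IsPrime] (h : StrictMap P P' G G' D γ) (hi : ∃ i, X i ∉ P) (hj : ∃ j, X j ∉ P') :
    ∃ e : FunField P →ₐ[ℂ] FunField P', CompatF P P' γ e := by
  obtain ⟨i₁, hi₁⟩ := hi
  obtain ⟨j₁, hj₁⟩ := hj
  have hcj : coordFun P' j₁ ≠ 0 := coordFun_ne_zero_iff.2 hj₁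
  have hci : coordFun P i₁ ≠ 0 := coordFun_ne_zero_iff.2 hi₁
  have hc : gen P' j₁ (γ i₁) ≠ 0 := fun h0 => Bd_notMem h hi₁ ((gen_eq_zero_iff hcj (h.hom i₁)).1 h0)
  obtain ⟨x, hx⟩ : ∃ x : Fin (N + 1) → FunField P', x = fun i => gen P' j₁ (γ i) / gen P' j₁ (γ i₁) := ⟨_, rfl⟩
  have hx1 : x i₁ = 1 := by rw [hx]; exact div_self hc
  have hker : ∀ (n : ℕ) (R : MvPolynomial (Fin (N + 1)) ℂ), R.IsHomogeneous n → (aeval x R = 0 ↔ R ∈ P) := by
    intro n R hR
    rw [← h.maps n R hR, ← gen_eq_zero_iff hcj (aeval_homog h.hom hR)]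
    have h1 : gen P' j₁ (aeval γ R) = gen P' j₁ (γ i₁) ^ n * aeval x R := by
      rw [hx]
      unfold gen
      rw [Pool.Agent.H7.Bir.aeval_comp]
      exact Pool.Agent.H7.Bir.aeval_div hR hc _
    rw [h1, mul_eq_zero]
    exact ⟨Or.inr, fun h => h.resolve_left (pow_ne_zero _ hc)⟩
  obtain ⟨e, he⟩ := exists_hom_val hci hx1 hker
  refine ⟨e, ?_⟩
  intro j' hj' i₀ hi₀ i
  have hcj' : coordFun P' j' ≠ 0 := coordFun_ne_zero_iff.2 hj'
  have hci' : coordFun P i₀ ≠ 0 := coordFun_ne_zero_iff.2 hi₀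
  have hch : ∀ k, gen P' j₁ (γ k) = ratio P' j' j₁ ^ D * gen P' j' (γ k) := fun k => gen_change hcj' (h.hom k)
  have hr0 : ratio P' j' j₁ ≠ 0 := (ratio_ne_zero_iff hcj).2 hcj'
  have h3 : e (ratio P i i₁) = e (ratio P i₀ i₁) * e (ratio P i i₀) := by
    rw [← map_mul, ← ratio_change' hci']
  have h4 : gen P' j₁ (γ i) = gen P' j₁ (γ i₀) * e (ratio P i i₀) := by
    rw [he, he, hx] at h3
    change gen P' j₁ (γ i) / gen P' j₁ (γ i₁) = gen P' j₁ (γ i₀) / gen P' j₁ (γ i₁) * e (ratio P i i₀) at h3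
    rw [div_mul_eq_mul_div, div_left_inj' hc] at h3
    exact h3
  have h5 : gen P' j' (γ i) = gen P' j' (γ i₀) * e (ratio P i i₀) := by
    rw [hch, hch, mul_assoc] at h4
    exact mul_left_cancel₀ (pow_ne_zero _ hr0) h4
  rw [h5, mul_comm]

/-- polynomials in elements of order `≥ 0` -/
private theorem Bd_nonneg {K : Type} [Field K] [Algebra ℂ K] {σ : Type} {w : ℕ} (E : PrimeDivisorOver K w) {x : σ → K} (h : ∀ i, 0 ≤ E.ord (x i))
    (Q : MvPolynomial σ ℂ) : 0 ≤ E.ord (aeval x Q) := by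
  induction Q using MvPolynomial.induction_on with
  | C a =>
    rw [aeval_C]
    exact E.ord_const a
  | add p q hp hq =>
    rw [map_add]
    exact (le_min hp hq).trans (E.ord.map_add _ _)
  | mul_X p i hp =>
    rw [map_mul, aeval_X, E.ord.map_mul]
    exact add_nonneg hp (h i)

/-- The polynomials which vanish at the centre of `E` in the coordinates `x`. -/
private def Bd_ctr {K : Type} [Field K] [Algebra ℂ K] {σ : Type} {w : ℕ} (E : PrimeDivisorOver K w) {x : σ → K} (h : ∀ i, 0 ≤ E.ord (x i)) :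
    Ideal (MvPolynomial σ ℂ) where
  carrier := {R | 0 < E.ord (aeval x R)}
  add_mem' := by
    intro a b ha hb
    change 0 < E.ord (aeval _ (a + b))
    rw [map_add]
    exact (lt_min ha hb).trans_le (E.ord.map_add _ _)
  zero_mem' := by
    change 0 < E.ord (aeval _ 0)
    rw [map_zero, E.ord.map_zero]
    exact WithTop.coe_lt_top 0
  smul_mem' := by
    intro c y hy
    change 0 < E.ord (aeval _ (c * y))
    rw [map_mul, E.ord.map_mul]
    exact lt_of_lt_of_le hy (le_add_of_nonneg_left (Bd_nonneg E h c))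

private theorem Bd_point {K : Type} [Field K] [Algebra ℂ K] {σ : Type} [Finite σ] {w : ℕ} (E : PrimeDivisorOver K w) {x : σ → K} (h : ∀ i, 0 ≤ E.ord (x i))
    {R : MvPolynomial σ ℂ} (hR : ¬ 0 < E.ord (aeval x R)) : ∃ v : σ → ℂ, (∀ Q, 0 < E.ord (aeval x Q) → eval v Q = 0) ∧ eval v R ≠ 0 := by
  have h0 : ∀ {Q : MvPolynomial σ ℂ}, Q ∉ Bd_ctr E h ↔ E.ord (aeval x Q) = 0 := by
    intro Q
    change ¬ 0 < E.ord (aeval x Q) ↔ _
    rw [not_lt]
    exact ⟨fun h1 => le_antisymm h1 (Bd_nonneg E h Q), fun h1 => h1.le⟩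
  have hp : (Bd_ctr E h).IsPrime :=
    { ne_top' := by
        rw [Ideal.ne_top_iff_one, h0, map_one, E.ord.map_one]
      mem_or_mem' := by
        intro a b hab
        by_contra hcon
        rw [not_or, h0, h0] at hcon
        change 0 < E.ord (aeval x (a * b)) at hab
        rw [map_mul, E.ord.map_mul, hcon.1, hcon.2, add_zero] at hab
        exact lt_irrefl _ hab }
  have hR' : R ∉ Bd_ctr E h := hR
  rw [← MvPolynomial.IsPrime.vanishingIdeal_zeroLocus (K := ℂ) (Bd_ctr E h), MvPolynomial.mem_vanishingIdeal_iff] at hR'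
  push Not at hR'
  obtain ⟨v, hv, hvR⟩ := hR'
  rw [MvPolynomial.aeval_eq_eval] at hvR
  refine ⟨v, fun Q hQ => ?_, hvR⟩
  have h1 := hv Q hQ
  rwa [MvPolynomial.aeval_eq_eval] at h1

/-- `gen` vanishes on the ideal -/
private theorem Bd_gen [P'.IsPrime] (hP' : Homog P') {j : Fin (M + 1)} (hj : coordFun P' j ≠ 0) {Q : MvPolynomial (Fin (M + 1)) ℂ} (hQ : Q ∈ P') : gen P' j Q = 0 := by
  unfold gen
  rw [← sum_homogeneousComponent Q, map_sum]
  exact Finset.sum_eq_zero fun n _ => (gen_eq_zero_iff hj (homogeneousComponent_isHomogeneous n Q)).2 (hP' Q hQ n)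

theorem onBd_strict [P.IsPrime] [P'.IsPrime] (h : StrictMap P P' G G' D γ) (hP' : Homog P')
    (hG : ∀ m, ∃ n, (G m).IsHomogeneous n) (hG' : ∀ m, ∃ n, (G' m).IsHomogeneous n)
    {e : FunField P →ₐ[ℂ] FunField P'} (he : CompatF P P' γ e) {k : ℕ} {E₀ : PrimeDivisorOver (FunField P) k}
    {E : PrimeDivisorOver (FunField P') k} {r : ℕ} (hr : 0 < r)
    (hDE : ∀ f : FunField P, f ≠ 0 → ∃ n : ℤ, E₀.ord f = n ∧ E.ord (e f) = ((r * n : ℤ) : WithTop ℤ)) (hj : ∃ j, X j ∉ P')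
    (hE₀ : OnBd P G E₀) : OnBd P' G' E := by
  obtain ⟨j₁, hj₁⟩ := hj
  obtain ⟨j', hj', hE⟩ := exists_center E (coordFun_ne_zero_iff.2 hj₁)
  obtain ⟨j, hj, hDj, hDG⟩ := hE₀
  refine ⟨j', hj', hE, fun m => ?_⟩
  by_contra hcon
  -- orders of `e f`
  have hnn : ∀ f : FunField P, 0 ≤ E₀.ord f → 0 ≤ E.ord (e f) := by
    intro f hf
    by_cases hf0 : f = 0
    · rw [hf0, map_zero, E.ord.map_zero]
      exact le_top
    · obtain ⟨n, hn, hn'⟩ := hDE f hf0
      rw [hn] at hf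
      rw [hn']
      have h2 : (0 : ℤ) ≤ n := by exact_mod_cast hf
      have h3 : (0 : ℤ) ≤ r * n := mul_nonneg (by positivity) h2
      exact_mod_cast h3
  have hpp : ∀ f : FunField P, 0 < E₀.ord f → 0 < E.ord (e f) := by
    intro f hf
    by_cases hf0 : f = 0
    · rw [hf0, map_zero, E.ord.map_zero]
      exact WithTop.coe_lt_top 0
    · obtain ⟨n, hn, hn'⟩ := hDE f hf0
      rw [hn] at hf
      rw [hn']
      have h2 : (0 : ℤ) < n := by exact_mod_cast hf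
      have h3 : (0 : ℤ) < r * n := mul_pos (by exact_mod_cast hr) h2
      exact_mod_cast h3
  obtain ⟨x, hx⟩ : ∃ x : Fin (M + 1) ⊕ Fin (N + 1) → FunField P', x = Sum.elim (fun i => ratio P' i j') fun i => e (ratio P i j) := ⟨_, rfl⟩
  have hx0 : ∀ i, 0 ≤ E.ord (x i) := by
    rw [hx]
    rintro (i | i)
    · exact hE i
    · exact hnn _ (hDj i)
  have hxl : ∀ Q : MvPolynomial (Fin (M + 1)) ℂ, aeval x (rename Sum.inl Q) = gen P' j' Q := by
    intro Q
    rw [aeval_rename, hx, Sum.elim_comp_inl]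
    rfl
  have hxr : ∀ Q : MvPolynomial (Fin (N + 1)) ℂ, aeval x (rename Sum.inr Q) = e (aeval (fun i => ratio P i j) Q) := by
    intro Q
    rw [aeval_rename, hx, Sum.elim_comp_inr, ← AlgHom.comp_apply, MvPolynomial.comp_aeval]
  obtain ⟨w, hw, hwG⟩ := Bd_point E hx0 (R := rename Sum.inl (G' m)) (by rw [hxl]; exact hcon)
  have hel : ∀ Q : MvPolynomial (Fin (M + 1)) ℂ, eval w (rename Sum.inl Q) = eval (w ∘ Sum.inl) Q := fun Q => eval_rename _ _ _
  have her : ∀ Q : MvPolynomial (Fin (N + 1)) ℂ, eval w (rename Sum.inr Q) = eval (w ∘ Sum.inr) Q := fun Q => eval_rename _ _ _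
  have hv0 : w ∘ Sum.inl ≠ 0 := by
    intro h0
    have h1 := hw (X (Sum.inl j') - 1) (by
      rw [map_sub, aeval_X, map_one, hx]
      change 0 < E.ord (ratio P' j' j' - 1)
      rw [ratio_self hj', sub_self, E.ord.map_zero]
      exact WithTop.coe_lt_top 0)
    rw [map_sub, eval_X, map_one] at h1
    have h2 : w (Sum.inl j') = 0 := congrFun h0 j'
    rw [h2] at h1
    norm_num at h1
  have hu0 : w ∘ Sum.inr ≠ 0 := by
    intro h0
    have h1 := hw (X (Sum.inr j) - 1) (by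
      rw [map_sub, aeval_X, map_one, hx]
      change 0 < E.ord (e (ratio P j j) - 1)
      rw [ratio_self hj, map_one, sub_self, E.ord.map_zero]
      exact WithTop.coe_lt_top 0)
    rw [map_sub, eval_X, map_one] at h1
    have h2 : w (Sum.inr j) = 0 := congrFun h0 j
    rw [h2] at h1
    norm_num at h1
  have hyU : Projectivization.mk ℂ (w ∘ Sum.inl) hv0 ∈ locVar P' G' := by
    refine ⟨fun Q hQ n hn => ?_, m, ?_⟩
    · rw [vanishesAt_mk_iff hn, ← hel]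
      apply hw
      rw [hxl, (gen_eq_zero_iff hj' hn).2 hQ, E.ord.map_zero]
      exact WithTop.coe_lt_top 0
    · obtain ⟨d, hd⟩ := hG' m
      rw [vanishesAt_mk_iff hd, ← hel]
      exact hwG
  have hXj : X j ∉ P := coordFun_ne_zero_iff.1 hj
  have hXj' : X j' ∉ P' := coordFun_ne_zero_iff.1 hj'
  have hc : gen P' j' (γ j) ≠ 0 := fun h0 => Bd_notMem h hXj ((gen_eq_zero_iff hj' (h.hom j)).1 h0)
  have hgr : InGraph P' γ (Projectivization.mk ℂ (w ∘ Sum.inl) hv0) (Projectivization.mk ℂ (w ∘ Sum.inr) hu0) := by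
    intro a b S ha hb hS
    have h1 := Bd_gen hP' hj' hS
    have h2 : gen P' j' (aeval (Sum.elim X γ) S) = gen P' j' (γ j) ^ b * aeval x S := by
      have h3 := eval_bihom ha hb (1 : FunField P') (gen P' j' (γ j)) (fun i => ratio P' i j') fun i => e (ratio P i j)
      rw [one_pow, one_mul, one_smul, ← hx] at h3
      rw [← h3]
      unfold gen
      rw [← AlgHom.comp_apply, MvPolynomial.comp_aeval]
      congr 2
      funext i
      rcases i with i | i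
      · simp
      · have h4 := he j' hXj' j hXj i
        simp only [Sum.elim_inr, Pi.smul_apply, smul_eq_mul]
        rw [mul_comm]
        exact h4.symm
    rw [h1] at h2
    have h3 : aeval x S = 0 := (mul_eq_zero.1 h2.symm).resolve_left (pow_ne_zero _ hc)
    have h4 : eval w S = 0 := hw S (by
      rw [h3, E.ord.map_zero]
      exact WithTop.coe_lt_top 0)
    obtain ⟨c, -, hc'⟩ := Pool.Agent.H17.exists_smul_rep (w ∘ Sum.inl) hv0
    obtain ⟨d, -, hd'⟩ := Pool.Agent.H17.exists_smul_rep (w ∘ Sum.inr) hu0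
    rw [hc', hd', eval_bihom' ha hb]
    have h5 : Sum.elim (w ∘ Sum.inl) (w ∘ Sum.inr) = w := Sum.elim_comp_inl_inr w
    rw [h5, h4, mul_zero]
  obtain ⟨-, l, hl⟩ := h.into _ hyU _ hgr
  obtain ⟨d, hd⟩ := hG l
  apply hl
  rw [vanishesAt_mk_iff hd, ← her]
  apply hw
  rw [hxr]
  exact hpp _ (hDG l)

/-- **Log general type goes up.** -/
theorem logGT_strict [P.IsPrime] [P'.IsPrime] (h : StrictMap P P' G G' D γ) (hP' : Homog P')
    (hG : ∀ m, ∃ n, (G m).IsHomogeneous n) (hG' : ∀ m, ∃ n, (G' m).IsHomogeneous n) {k : ℕ}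
    (hi : ∃ i, X i ∉ P) (hj : ∃ j, X j ∉ P') (hz : ∃ z : Fin k → FunField P, IsTranscendenceBasis ℂ z) (hz' : ∃ z : Fin k → FunField P', IsTranscendenceBasis ℂ z)
    (hgt : IsLogGeneralType (OnBd P G (k := k))) : IsLogGeneralType (OnBd P' G' (k := k)) := by
  obtain ⟨e, he⟩ := exists_embed h hi hj
  let _ : Algebra (FunField P) (FunField P') := e.toRingHom.toAlgebra
  have _ : IsScalarTower ℂ (FunField P) (FunField P') := IsScalarTower.of_algebraMap_eq fun c => (e.commutes c).symm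
  have _ : Algebra.IsAlgebraic (FunField P) (FunField P') := by
    obtain ⟨z, hz⟩ := hz
    obtain ⟨z', hz'⟩ := hz'
    have h1 := trdeg_add_eq ℂ (FunField P) (A := FunField P')
    rw [← hz.cardinalMk_eq_trdeg, ← hz'.cardinalMk_eq_trdeg] at h1
    rw [← trdeg_eq_zero_iff]
    have h2 : Cardinal.mk (Fin k) < Cardinal.aleph0 := Cardinal.mk_lt_aleph0
    have h3 : Cardinal.mk (Fin k) + Algebra.trdeg (FunField P) (FunField P') = Cardinal.mk (Fin k) + 0 := by rw [h1, add_zero]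
    exact Cardinal.eq_of_add_eq_add_left h3 h2
  exact isLGT_of_algebraic hz (fun E₀ E r hDE hD => onBd_strict h hP' hG hG' he hDE.1 hDE.2 hj hD) hgt

end Pool.Agent.GTL

end
end

section

/-!
# GTL Str: property (iv) goes up along dominant strictly rational maps of varieties of the same dimension

PROOF.  As `LG.strongly_up` (file LG/Up) and `GT.ggl_up`, part `strongly`: for `Q'` let `Q = imI γ Q'` (GT/Up: `imI_homog`); `StrictMap Q Q' G G' D γ` (`strict_image`: more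
relations on `Q'`, so `InGraph Q' ⊆ InGraph P'`; `x ∈ projVar Q` by the relations `rename Sum.inr R`, `R ∈ Q`); the function field of `Q'` is algebraic over that of `Q` by the equations
`exists_eq_aux` (`R' = aeval γ (R * ∏ i, α i (Fin.last (m i))) * γ i₀ * X j`), so the dimensions are equal; then `logGT_strict`.
-/

set_option autoImplicit false

open MvPolynomial
open Pool.Agent.H17 (PN VanishesAt vanishesAt_mk_iff)
open Pool.Agent.H17GT (coordFun)
open Pool.Agent.H17R (gen gen_eq_zero_iff ratio_self coordFun_ne_zero_iff)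
open Pool.Agent.H17LG.Variety (FunField ratio IsLogGeneralType)
open Pool.Agent.H62.FC (Homog)
open Pool.Agent.H62.SA (locVar OnBd)
open Pool.Agent.H7.Bir (vals)
open Pool.Agent.H7.Qup (aeval_homog exists_eq_aux)
open Pool.Agent.GT (imI mem_imI imI_homog)

noncomputable section

namespace Pool.Agent.GTL

variable {N M : ℕ} {P : Ideal (MvPolynomial (Fin (N + 1)) ℂ)} {P' Q' : Ideal (MvPolynomial (Fin (M + 1)) ℂ)} {s s' D : ℕ}
  {G : Fin s → MvPolynomial (Fin (N + 1)) ℂ} {G' : Fin s' → MvPolynomial (Fin (M + 1)) ℂ} {γ : Fin (N + 1) → MvPolynomial (Fin (M + 1)) ℂ}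

theorem strict_image (h : StrictMap P P' G G' D γ) (hPQ' : P' ≤ Q') : StrictMap (imI γ Q') Q' G G' D γ := by
  refine ⟨h.hom, fun n R _ => Iff.rfl, fun y hy x hx => ?_⟩
  have h1 : x ∈ locVar P G := h.into y ⟨fun F hF n hn => hy.1 F (hPQ' hF) n hn, hy.2⟩ x fun a b S ha hb hS => hx a b S ha hb (hPQ' hS)
  refine ⟨fun F hF n hn => ?_, h1.2⟩
  have ha : IsWeightedHomogeneous (Sum.elim (fun _ => 1) fun _ => 0 : Fin (M + 1) ⊕ Fin (N + 1) → ℕ) (rename Sum.inr F) 0 := by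
    intro d hd
    obtain ⟨u, rfl, -⟩ := coeff_rename_ne_zero _ _ _ hd
    rw [Finsupp.weight_apply, Finsupp.sum_fintype _ _ (by simp), Fintype.sum_sum_type]
    simp [Finsupp.mapDomain_of_notMem_range]
  have hb : IsWeightedHomogeneous (Sum.elim (fun _ => 0) fun _ => 1 : Fin (M + 1) ⊕ Fin (N + 1) → ℕ) (rename Sum.inr F) n := by
    intro d hd
    obtain ⟨u, rfl, hu⟩ := coeff_rename_ne_zero _ _ _ hd
    have h2 := hn hu
    rw [Finsupp.weight_apply, Finsupp.sum_fintype _ _ (by simp)] at h2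
    rw [Finsupp.weight_apply, Finsupp.sum_fintype _ _ (by simp), Fintype.sum_sum_type]
    simp only [Sum.elim_inl, Sum.elim_inr, smul_eq_mul, mul_zero, Finset.sum_const_zero, zero_add, mul_one]
    simp only [Pi.one_apply, smul_eq_mul, mul_one] at h2
    rw [← h2]
    exact Finset.sum_congr rfl fun i _ => Finsupp.mapDomain_apply Sum.inr_injective u i
  have h3 := hx 0 n (rename Sum.inr F) ha hb (by
    rw [aeval_rename, Sum.elim_comp_inr]
    exact hF)
  rw [eval_rename, Sum.elim_comp_inr] at h3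
  exact h3

/-- a point of the graph -/
theorem inGraph_mk {y : PN M} (hQ' : Homog Q') (hy : y ∈ Pool.Agent.H17EF.projVar Q') (hv : vals γ y.rep ≠ 0) :
    InGraph Q' γ y (Projectivization.mk ℂ (vals γ y.rep) hv) := by
  intro a b S ha hb hS
  obtain ⟨d, -, hd⟩ := Pool.Agent.H17.exists_smul_rep (vals γ y.rep) hv
  have h2 : eval (Sum.elim ((1 : ℂ) • y.rep) (d • vals γ y.rep)) S = (1 : ℂ) ^ a * d ^ b * eval (Sum.elim y.rep (vals γ y.rep)) S := eval_bihom' ha hb 1 d _ _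
  rw [one_smul, ← hd] at h2
  rw [h2]
  have h3 : eval (Sum.elim y.rep (vals γ y.rep)) S = eval y.rep (aeval (Sum.elim X γ) S) := by
    rw [← MvPolynomial.aeval_eq_eval, ← MvPolynomial.aeval_eq_eval, ← AlgHom.comp_apply, MvPolynomial.comp_aeval]
    congr 2
    funext i
    rcases i with i | i
    · simp
    · simp [vals, MvPolynomial.aeval_eq_eval]
  rw [h3, ← sum_homogeneousComponent (aeval (Sum.elim X γ) S), map_sum, Finset.sum_eq_zero, mul_zero]
  intro n _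
  exact hy _ (hQ' _ hS n) n (homogeneousComponent_isHomogeneous n _)

/-- the value of a form at the image of the generic point -/
theorem gen_aevalF {Q : Ideal (MvPolynomial (Fin (N + 1)) ℂ)} [Q.IsPrime] [Q'.IsPrime] {e : FunField Q →ₐ[ℂ] FunField Q'} (he : CompatF Q Q' γ e)
    {j : Fin (M + 1)} (hj : X j ∉ Q') {i₁ : Fin (N + 1)} (hi : X i₁ ∉ Q)
    {D₁ : ℕ} {F : MvPolynomial (Fin (N + 1)) ℂ} (hF : F.IsHomogeneous D₁) : gen Q' j (aeval γ F) = gen Q' j (γ i₁) ^ D₁ * e (gen Q i₁ F) := by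
  have h1 : gen Q' j (aeval γ F) = aeval (fun k => gen Q' j (γ k)) F := Pool.Agent.H7.Bir.aeval_comp _ _ _
  have h2 : (fun k => gen Q' j (γ k)) = fun k => gen Q' j (γ i₁) * e (ratio Q k i₁) := by
    funext k
    rw [← he j hj i₁ hi k, mul_comm]
  rw [h1, h2, Pool.Agent.H92.GT.Proj.aeval_scale hF]
  congr 1
  exact (MvPolynomial.comp_aeval_apply _ _ _).symm

private theorem Str_alg {K L : Type} [Field K] [Field L] [Algebra K L] {m : ℕ} {c : Fin (m + 1) → K} (hcl : c (Fin.last m) ≠ 0) {r g : L} (hg : g ≠ 0)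
    (h : ∑ l : Fin (m + 1), g * algebraMap K L (c l) * r ^ (l : ℕ) = 0) : IsAlgebraic K r := by
  have h2 : ∑ l : Fin (m + 1), algebraMap K L (c l) * r ^ (l : ℕ) = 0 := by
    have h1 : g * ∑ l : Fin (m + 1), algebraMap K L (c l) * r ^ (l : ℕ) = 0 := by
      rw [← h, Finset.mul_sum]
      exact Finset.sum_congr rfl fun l _ => (mul_assoc _ _ _).symm
    exact (mul_eq_zero.1 h1).resolve_left hg
  refine ⟨∑ l : Fin (m + 1), Polynomial.C (c l) * Polynomial.X ^ (l : ℕ), fun h3 => hcl ?_, ?_⟩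
  · have h4 := congrArg (fun q => Polynomial.coeff q m) h3
    simp only [Polynomial.finsetSum_coeff, Polynomial.coeff_C_mul, Polynomial.coeff_X_pow, Polynomial.coeff_zero] at h4
    rw [Finset.sum_eq_single (Fin.last m)] at h4
    · simpa using h4
    · intro l _ hl
      have h5 : (l : ℕ) ≠ m := fun h6 => hl (Fin.ext h6)
      rw [if_neg (Ne.symm h5), mul_zero]
    · intro h5
      exact absurd (Finset.mem_univ _) h5
  · rw [map_sum, ← h2]
    refine Finset.sum_congr rfl fun l _ => ?_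
    rw [map_mul, map_pow, Polynomial.aeval_C, Polynomial.aeval_X]

/-- the equation of a coordinate -/
theorem isAlgebraic_ratioF {Q : Ideal (MvPolynomial (Fin (N + 1)) ℂ)} [Q.IsPrime] [Q'.IsPrime] {e : FunField Q →ₐ[ℂ] FunField Q'} (he : CompatF Q Q' γ e)
    (hγ : ∀ i, (γ i).IsHomogeneous D) {j : Fin (M + 1)} (hj : X j ∉ Q') {i₁ : Fin (N + 1)} (hi : X i₁ ∉ Q)
    (hi' : γ i₁ ∉ Q') {i : Fin (M + 1)} {m D₁ : ℕ} {α : Fin (m + 1) → MvPolynomial (Fin (N + 1)) ℂ} (hα : ∀ l, (α l).IsHomogeneous D₁) (hlast : α (Fin.last m) ∉ Q)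
    (hmem : ∑ l : Fin (m + 1), aeval γ (α l) * X i ^ (l : ℕ) * X j ^ (m - (l : ℕ)) ∈ Q') :
    letI := e.toRingHom.toAlgebra; IsAlgebraic (FunField Q) (ratio Q' i j) := by
  let _ : Algebra (FunField Q) (FunField Q') := e.toRingHom.toAlgebra
  have hcj : coordFun Q' j ≠ 0 := coordFun_ne_zero_iff.2 hj
  have hci : coordFun Q i₁ ≠ 0 := coordFun_ne_zero_iff.2 hi
  set c : Fin (m + 1) → FunField Q := fun l => gen Q i₁ (α l) with hc
  have hcl : c (Fin.last m) ≠ 0 := fun h0 => hlast ((gen_eq_zero_iff hci (hα _)).1 h0)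
  have hg : gen Q' j (γ i₁) ≠ 0 := fun h0 => hi' ((gen_eq_zero_iff hcj (hγ i₁)).1 h0)
  -- the equation in the function field
  have hhom : (∑ l : Fin (m + 1), aeval γ (α l) * X i ^ (l : ℕ) * X j ^ (m - (l : ℕ))).IsHomogeneous (D * D₁ + m) := by
    refine IsHomogeneous.sum _ _ _ fun l _ => ?_
    have h1 := ((aeval_homog hγ (hα l)).mul ((isHomogeneous_X ℂ i).pow (l : ℕ))).mul ((isHomogeneous_X ℂ j).pow (m - (l : ℕ)))
    have h2 : D * D₁ + 1 * (l : ℕ) + 1 * (m - (l : ℕ)) = D * D₁ + m := by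
      have := l.is_le
      omega
    rwa [h2] at h1
  have h0 : gen Q' j (∑ l : Fin (m + 1), aeval γ (α l) * X i ^ (l : ℕ) * X j ^ (m - (l : ℕ))) = 0 := (gen_eq_zero_iff hcj hhom).2 hmem
  refine Str_alg (c := c) hcl (g := gen Q' j (γ i₁) ^ D₁) (pow_ne_zero _ hg) ?_
  rw [← h0]
  unfold gen
  rw [map_sum]
  refine Finset.sum_congr rfl fun l _ => ?_
  rw [map_mul, map_mul, map_pow, map_pow, aeval_X, aeval_X, ratio_self hcj, one_pow, mul_one]
  have h2 := gen_aevalF he hj hi (hα l)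
  unfold gen at h2
  rw [h2]
  rfl

theorem strongly_strict [P.IsPrime] [P'.IsPrime] (hP : Homog P) (hG : ∀ m, ∃ n, (G m).IsHomogeneous n)
    (hG' : ∀ m, ∃ n, (G' m).IsHomogeneous n) {k : ℕ} (hz : ∃ z : Fin (k + 1) → FunField P, IsTranscendenceBasis ℂ z)
    (hz' : ∃ z : Fin (k + 1) → FunField P', IsTranscendenceBasis ℂ z) (h : StrictMap P P' G G' D γ) {R : MvPolynomial (Fin (N + 1)) ℂ} {r : ℕ} (hR : R.IsHomogeneous r) (hRP : R ∉ P)
    (hst : ∀ (Q : Ideal (MvPolynomial (Fin (N + 1)) ℂ)) [Q.IsPrime], Homog Q → P ≤ Q → R ∉ Q → (locVar Q G).Nonempty → ∀ w, 1 ≤ w → (∃ z : Fin w → FunField Q, IsTranscendenceBasis ℂ z) →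
      IsLogGeneralType (OnBd Q G (k := w))) :
    ∃ (R' : MvPolynomial (Fin (M + 1)) ℂ) (r' : ℕ), R'.IsHomogeneous r' ∧ R' ∉ P' ∧
      ∀ (Q' : Ideal (MvPolynomial (Fin (M + 1)) ℂ)) [Q'.IsPrime], Homog Q' → P' ≤ Q' → R' ∉ Q' → (locVar Q' G').Nonempty → ∀ w, 1 ≤ w → (∃ z : Fin w → FunField Q', IsTranscendenceBasis ℂ z) →
        IsLogGeneralType (OnBd Q' G' (k := w)) := by
  have hD : 1 ≤ D := h.pos hz
  obtain ⟨z, hz1⟩ := hz
  obtain ⟨z', hz1'⟩ := hz'
  obtain ⟨i₀, hi₀⟩ := Pool.Agent.H92.GT.Proj.exists_coordFun_ne_zero P z hz1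
  obtain ⟨j, hj⟩ := Pool.Agent.H92.GT.Proj.exists_coordFun_ne_zero P' z' hz1'
  have hiP : X i₀ ∉ P := coordFun_ne_zero_iff.1 hi₀
  have hjP : X j ∉ P' := coordFun_ne_zero_iff.1 hj
  choose m D₁ α hα hαP hrel using exists_eq_aux hz1 hz1' h.hom h.maps hiP hjP
  have hkP : γ i₀ ∉ P' := by
    intro h1
    apply hiP
    rw [← h.maps 1 _ (isHomogeneous_X ℂ i₀), aeval_X]
    exact h1
  set B : MvPolynomial (Fin (N + 1)) ℂ := R * ∏ i, α i (Fin.last (m i)) with hB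
  have hBhom : B.IsHomogeneous (r + ∑ i, D₁ i) := hR.mul (IsHomogeneous.prod _ _ _ fun i _ => hα i _)
  have hBP : B ∉ P := by
    intro h1
    rcases Ideal.IsPrime.mem_or_mem inferInstance h1 with h2 | h2
    · exact hRP h2
    · obtain ⟨i, -, h3⟩ := (Ideal.IsPrime.prod_mem_iff (p := P)).1 h2
      exact hαP i h3
  set T : MvPolynomial (Fin (M + 1)) ℂ := aeval γ B * γ i₀ * X j with hT
  have hThom : T.IsHomogeneous (D * (r + ∑ i, D₁ i) + D + 1) := ((aeval_homog h.hom hBhom).mul (h.hom i₀)).mul (isHomogeneous_X ℂ j)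
  have hTP : T ∉ P' := by
    intro h1
    rcases Ideal.IsPrime.mem_or_mem inferInstance h1 with h2 | h2
    · rcases Ideal.IsPrime.mem_or_mem inferInstance h2 with h3 | h3
      · exact hBP ((h.maps _ B hBhom).1 h3)
      · exact hkP h3
    · exact hjP h2
  refine ⟨T, _, hThom, hTP, fun Q' _ hQ' hPQ' hTQ' hne' w hw hzw => ?_⟩
  have hjQ : X j ∉ Q' := fun h => hTQ' (Ideal.mul_mem_left _ _ h)
  have hkQ : γ i₀ ∉ Q' := fun h => hTQ' (Ideal.mul_mem_right _ _ (Ideal.mul_mem_left _ _ h))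
  have hBQ : aeval γ B ∉ Q' := fun h => hTQ' (Ideal.mul_mem_right _ _ (Ideal.mul_mem_right _ _ h))
  have hQ : Homog (imI γ Q') := imI_homog hD h.hom hQ'
  have hPQ : P ≤ imI γ Q' := by
    intro F hF
    rw [mem_imI, ← sum_homogeneousComponent F, map_sum]
    exact Ideal.sum_mem _ fun n _ => hPQ' ((h.maps n _ (homogeneousComponent_isHomogeneous n F)).2 (hP F hF n))
  have hBQ' : B ∉ imI γ Q' := hBQ
  have hRQ : R ∉ imI γ Q' := fun h => hBQ' (Ideal.mul_mem_right _ _ h)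
  have hαQ : ∀ i, α i (Fin.last (m i)) ∉ imI γ Q' := by
    intro i h
    apply hBQ'
    rw [hB]
    refine Ideal.mul_mem_left _ _ ?_
    exact (Ideal.IsPrime.prod_mem_iff (p := imI γ Q')).2 ⟨i, Finset.mem_univ i, h⟩
  have hS : StrictMap (imI γ Q') Q' G G' D γ := strict_image h hPQ'
  have hiQ : (X i₀ : MvPolynomial (Fin (N + 1)) ℂ) ∉ imI γ Q' := by
    rw [mem_imI, aeval_X]
    exact hkQ
  -- a point of the image
  have hneQ : (locVar (imI γ Q') G).Nonempty := by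
    have h1 : ∃ y ∈ locVar Q' G', ¬ VanishesAt (γ i₀) y := by
      by_contra hcon
      push Not at hcon
      exact hkQ (Pool.Agent.H7.Bir.mem_of_open hQ' hG' hne' (h.hom i₀) hcon)
    obtain ⟨y, hy, hyγ⟩ := h1
    have hv : vals γ y.rep ≠ 0 := fun h0 => hyγ (congrFun h0 i₀)
    exact ⟨_, hS.into y hy _ (inGraph_mk hQ' hy.1 hv)⟩
  -- the dimensions
  obtain ⟨e, he⟩ := exists_embed hS ⟨i₀, hiQ⟩ ⟨j, hjQ⟩
  have hzQ : ∃ z : Fin w → FunField (imI γ Q'), IsTranscendenceBasis ℂ z := by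
    obtain ⟨zw, hzw⟩ := hzw
    let _ : Algebra (FunField (imI γ Q')) (FunField Q') := e.toRingHom.toAlgebra
    have _ : IsScalarTower ℂ (FunField (imI γ Q')) (FunField Q') := IsScalarTower.of_algebraMap_eq fun c => (e.commutes c).symm
    have _ : Algebra.IsAlgebraic (FunField (imI γ Q')) (FunField Q') :=
      Pool.Agent.LG.isAlgebraic_of_ratio e hjQ fun i => isAlgebraic_ratioF he h.hom hjQ hiQ hkQ (hα i) (hαQ i) (hPQ' (hrel i))
    exact Pool.Agent.LG.exists_basis_down hzw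
  exact logGT_strict hS hQ' hG hG' ⟨i₀, hiQ⟩ ⟨j, hjQ⟩ hzQ hzw (hst _ hQ hPQ hRQ hneQ w hw hzQ)

end Pool.Agent.GTL

end
end

section

/-!
# GL ExtL: curves of finite area extend to `X`

`AA` bounded: `TT t ≤ B t`, so the mean of the height at the level `t` is `≤ C t` (`mn_rho`) and `log ‖F w‖ ≤ Rho ≤ C (1 + Re w)` (`rho_area` with `h = 1 / 2`): the functions `F j` (remember `F b = 1`) are holomorphic functions of
`z = exp (-w)` on a punctured disc with at most a pole at `0`.  Take the smallest `k` such that all `exp (-k w) F j` are bounded: they have limits, which are not all `0`.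
-/

set_option autoImplicit false

open Topology Filter Metric MvPolynomial
open Pool.Agent.GG Pool.Agent.GA

namespace Pool.Agent.GL

variable {N : ℕ} {P : Ideal (MvPolynomial (Fin (N + 1)) ℂ)} {B : Finset (Fin (N + 1))} {b : Fin (N + 1)} {F : ℂ → Fin (N + 1) → ℂ}

private theorem AA_nonneg' (s : ℂ → ℝ) (X : ℝ) : 0 ≤ AA s X :=
  intervalIntegral.integral_nonneg (le_max_right _ _) fun t _ =>
    intervalIntegral.integral_nonneg (by positivity) fun y _ => sq_nonneg _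

/-- the growth -/
private theorem growth_ext (hF : LCurve P B b F) {T : ℝ} (hT : ∀ X, AA (sp F) X ≤ T) :
    ∃ k : ℕ, ∀ w : ℂ, 2 < w.re → ‖F w‖ ≤ Real.exp (k * w.re) := by
  have hT0 : 0 ≤ T := (AA_nonneg' _ 1).trans (hT 1)
  obtain ⟨C, hC⟩ := mn_rho hF
  have h1 : ∀ t : ℝ, 1 ≤ t → mn (fun w => Rho B (F w)) t ≤ |C| * (1 + T) * t := by
    intro t ht
    have h2 : TT (AA (sp F)) t ≤ T * t := by
      have h3 : ‖∫ x in (1 : ℝ)..t, AA (sp F) x‖ ≤ T * |t - 1| := by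
        refine intervalIntegral.norm_integral_le_of_norm_le_const fun x _ => ?_
        rw [Real.norm_of_nonneg (AA_nonneg' _ _)]
        exact hT x
      have h4 : |t - 1| ≤ t := by
        rw [abs_of_nonneg (by linarith)]
        linarith
      exact (Real.le_norm_self _).trans (h3.trans (mul_le_mul_of_nonneg_left h4 hT0))
    have h5 : 0 ≤ TT (AA (sp F)) t := intervalIntegral.integral_nonneg ht fun x _ => AA_nonneg' _ _
    have h6 : C * (t + TT (AA (sp F)) t) ≤ |C| * (t + TT (AA (sp F)) t) := mul_le_mul_of_nonneg_right (le_abs_self C) (by linarith)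
    have h7 : |C| * (t + TT (AA (sp F)) t) ≤ |C| * (t + T * t) := mul_le_mul_of_nonneg_left (by linarith) (abs_nonneg C)
    calc mn (fun w => Rho B (F w)) t ≤ |C| * (t + T * t) := (hC t ht).trans (h6.trans h7)
      _ = |C| * (1 + T) * t := by ring
  set D : ℝ := |C| * (1 + T) with hD
  have hD0 : 0 ≤ D := by positivity
  refine ⟨⌈3 * D⌉₊, fun w hw => ?_⟩
  have hwU : F w ∈ Uc P B b := ⟨hF.curve.cone w (by show 0 < w.re; linarith), hF.one w, hF.ne w (by show 0 < w.re; linarith)⟩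
  have h2 := rho_area hF (w := w) (h := 1 / 2) (T := D * (w.re + 1 / 2)) (by norm_num) le_rfl (by linarith) (fun t ht =>
    (h1 t (by linarith [ht.1])).trans (mul_le_mul_of_nonneg_left ht.2 hD0))
  have h3 : Rho B (F w) ≤ 3 * D * w.re := by
    refine h2.trans ?_
    rw [div_le_iff₀ (by norm_num)]
    nlinarith
  refine (norm_le_rho hwU).trans (Real.exp_le_exp.2 (h3.trans ?_))
  exact mul_le_mul_of_nonneg_right (Nat.le_ceil _) (by linarith)

private theorem exp_per (k : ℕ) (w : ℂ) : Complex.exp (-(k * (w + per))) = Complex.exp (-(k * w)) := by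
  rw [Complex.exp_eq_exp_iff_exists_int]
  refine ⟨-k, ?_⟩
  unfold per
  push_cast
  ring

theorem ext0L (hF : LCurve P B b F) {T : ℝ} (hT : ∀ X, AA (sp F) X ≤ T) :
    ∃ (a : Fin (N + 1)) (L : Fin (N + 1) → ℂ), (∀ᶠ w in comap Complex.re atTop, F w a ≠ 0) ∧
      Tendsto (fun w => (F w a)⁻¹ • F w) (comap Complex.re atTop) (𝓝 L) := by
  classical
  -- the smallest exponent
  have hex : ∃ k : ℕ, ∃ X₀ K : ℝ, ∀ (j : Fin (N + 1)) (w : ℂ), X₀ < w.re → ‖Complex.exp (-(k * w)) * F w j‖ ≤ K := by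
    obtain ⟨k, hk⟩ := growth_ext hF hT
    refine ⟨k, 2, 1, fun j w hw => ?_⟩
    rw [norm_mul, Complex.norm_exp]
    have h1 : (-((k : ℂ) * w)).re = -(k * w.re) := by
      rw [Complex.neg_re, Complex.mul_re, Complex.natCast_re, Complex.natCast_im, zero_mul, sub_zero]
    rw [h1]
    have h2 := (norm_le_pi_norm (F w) j).trans (hk w hw)
    calc Real.exp (-(k * w.re)) * ‖F w j‖ ≤ Real.exp (-(k * w.re)) * Real.exp (k * w.re) := mul_le_mul_of_nonneg_left h2 (Real.exp_pos _).le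
      _ = 1 := by rw [← Real.exp_add, neg_add_cancel, Real.exp_zero]
  obtain ⟨X₀, K, hK⟩ := Nat.find_spec hex
  have hmin : ∀ l : ℕ, l < Nat.find hex → ¬ _ := fun l hl => Nat.find_min hex hl
  set k : ℕ := Nat.find hex with hk
  -- the limits
  have hlim : ∀ j, ∃ c : ℂ, Tendsto (fun w => Complex.exp (-(k * w)) * F w j) (comap Complex.re atTop) (𝓝 c) ∧
      ∃ C X₁ : ℝ, ∀ w : ℂ, X₁ < w.re → ‖Complex.exp (-(k * w)) * F w j - c‖ ≤ C * Real.exp (-w.re) := by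
    intro j
    refine ext0_cusp (X₀ := max X₀ 0) (K := K) (fun w hw => ?_) (fun w hw => ?_) fun w hw => ?_
    · have hw0 : w ∈ HP := lt_of_le_of_lt (le_max_right _ _) hw
      have h1 : DifferentiableAt ℂ (fun w => F w j) w := (analyticAt_pi_iff.1 (hF.curve.an w hw0) j).differentiableAt
      have h2 : DifferentiableAt ℂ (fun w : ℂ => Complex.exp (-(k * w))) w := by fun_prop
      exact h2.mul h1
    · have hw0 : w ∈ HP := lt_of_le_of_lt (le_max_right _ _) hw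
      show Complex.exp (-(k * (w + per))) * F (w + per) j = Complex.exp (-(k * w)) * F w j
      rw [exp_per, hF.curve.periodic w hw0]
    · exact hK j w (lt_of_le_of_lt (le_max_left _ _) hw)
  choose c hc hcb using hlim
  have hne : ∃ a, c a ≠ 0 := by
    by_contra hcon
    push Not at hcon
    rcases Nat.eq_zero_or_pos k with h0 | h0
    · have h1 := hc b
      rw [hcon b] at h1
      have h2 : (fun w : ℂ => Complex.exp (-(k * w)) * F w b) = fun _ => 1 := by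
        funext w
        rw [h0, hF.one w]
        simp
      rw [h2] at h1
      have : NeBot (comap Complex.re atTop) := by
        refine comap_neBot fun s hs => ?_
        obtain ⟨r, hr⟩ := (mem_atTop_sets.1 hs)
        exact ⟨(r : ℂ), by simpa using hr r le_rfl⟩
      exact one_ne_zero (tendsto_nhds_unique tendsto_const_nhds h1)
    · choose C X₁ hCX using hcb
      refine hmin (k - 1) (by omega) ⟨(∑ j, |X₁ j|), ∑ j, |C j|, fun j w hw => ?_⟩
      have h1 : X₁ j < w.re := (le_abs_self _).trans_lt ((Finset.single_le_sum (f := fun j => |X₁ j|) (fun _ _ => abs_nonneg _) (Finset.mem_univ j)).trans_lt hw)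
      have h2 := hCX j w h1
      rw [hcon j, sub_zero] at h2
      have h3 : Complex.exp (-(((k - 1 : ℕ) : ℂ) * w)) = Complex.exp w * Complex.exp (-(k * w)) := by
        rw [← Complex.exp_add]
        congr 1
        rw [Nat.cast_sub (by omega)]
        push_cast
        ring
      rw [h3, mul_assoc, norm_mul, Complex.norm_exp]
      have h4 : C j ≤ ∑ j, |C j| := (le_abs_self _).trans (Finset.single_le_sum (f := fun j => |C j|) (fun _ _ => abs_nonneg _) (Finset.mem_univ j))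
      calc Real.exp w.re * ‖Complex.exp (-(k * w)) * F w j‖ ≤ Real.exp w.re * (C j * Real.exp (-w.re)) := mul_le_mul_of_nonneg_left h2 (Real.exp_pos _).le
        _ = C j := by
          rw [mul_comm (C j), ← mul_assoc, ← Real.exp_add, add_neg_cancel, Real.exp_zero, one_mul]
        _ ≤ _ := h4
  obtain ⟨a, ha⟩ := hne
  have hev : ∀ᶠ w in comap Complex.re atTop, F w a ≠ 0 := by
    filter_upwards [(hc a).eventually_ne ha] with w hw h0
    exact hw (by rw [h0, mul_zero])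
  refine ⟨a, fun j => (c a)⁻¹ * c j, hev, ?_⟩
  rw [tendsto_pi_nhds]
  intro j
  refine (((hc a).inv₀ ha).mul (hc j)).congr fun w => ?_
  show (Complex.exp (-(k * w)) * F w a)⁻¹ * (Complex.exp (-(k * w)) * F w j) = (F w a)⁻¹ * F w j
  have hE := Complex.exp_ne_zero (-(k * w))
  rw [mul_inv, mul_mul_mul_comm, inv_mul_cancel₀ hE, one_mul]

end Pool.Agent.GL

end

section

/-!
# GL Dir: the derivative of a family of solutions in the direction of `s`

`V₁ (z) = fderiv ℂ Φ (z, 0) (0, 1)` satisfies `lhs (G l) (Φ (·, 0)) V₁ z = 0` (derivative in `s` of `G_l (Φ, ∂Φ/∂z) = g_l (z)`; `∂_s ∂_z Φ = ∂_z ∂_s Φ`).  Near `w₁` both are solutions of the same linear equation `V' = A V` (the minor `I` of the matrix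
`∂_(v b) G_l` is not `0`), so they are equal near `w₁` (`GA.linear_unique_nhds`, GA/CntB), so on `Ω`.
-/

set_option autoImplicit false

open MvPolynomial Topology Filter Metric
open Pool.Agent.GG Pool.Agent.GA

namespace Pool.Agent.GL

variable {N : ℕ} {ι : Type}

private theorem Dir_eval {E : Type*} [NormedAddCommGroup E] [NormedSpace ℂ E] {y : E → Ph N → ℂ} {t : E} (hy : AnalyticAt ℂ y t) (g : MvPolynomial (Ph N) ℂ) :
    AnalyticAt ℂ (fun s => eval (y s) g) t :=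
  AnalyticAt.comp (g := fun y : Ph N → ℂ => eval y g) (f := y) (AnalyticOnNhd.eval_mvPolynomial g (y t) (Set.mem_univ _)) hy

/-- the derivative of `z ↦ Φ (z, s)` -/
private theorem Dir_dz {Φ : ℂ × (Fin 1 → ℂ) → Fin (N + 1) → ℂ} {p : ℂ × (Fin 1 → ℂ)} (h : AnalyticAt ℂ Φ p) : deriv (fun z => Φ (z, p.2)) p.1 = fderiv ℂ Φ p (1, 0) := by
  have h1 : HasDerivAt (fun z : ℂ => (z, p.2)) ((1 : ℂ), (0 : Fin 1 → ℂ)) p.1 := (hasDerivAt_id p.1).prodMk (hasDerivAt_const p.1 p.2)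
  exact (HasFDerivAt.comp_hasDerivAt (l := Φ) (f := fun z : ℂ => (z, p.2)) p.1 h.differentiableAt.hasFDerivAt h1).deriv

/-- the variation satisfies the linearised equations -/
private theorem Dir_lhs (G : ι → MvPolynomial (Ph N) ℂ) {g : ι → ℂ → ℂ} {Φ : ℂ × (Fin 1 → ℂ) → Fin (N + 1) → ℂ} {z : ℂ}
    (hΦ : NSol G (fun l q => g l q.1) Φ (z, 0)) (l : ι) : lhs (G l) (fun z => Φ (z, 0)) (fun z => fderiv ℂ Φ (z, 0) (0, 1)) z = 0 := by
  obtain ⟨ha, hev⟩ := hΦ
  -- the map `(Φ, ∂Φ/∂z)`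
  set H : ℂ × (Fin 1 → ℂ) → Ph N → ℂ := fun p => pt (Φ p) (fderiv ℂ Φ p (1, 0)) with hH
  have hfa : AnalyticAt ℂ (fderiv ℂ Φ) (z, 0) := ha.fderiv
  have hfa1 : AnalyticAt ℂ (fun p => fderiv ℂ Φ p (1, 0)) (z, 0) :=
    ((ContinuousLinearMap.apply ℂ (Fin (N + 1) → ℂ) ((1 : ℂ), (0 : Fin 1 → ℂ))).analyticAt _).comp hfa
  have hHa : AnalyticAt ℂ H (z, 0) := by
    rw [analyticAt_pi_iff]
    rintro (i | i)
    · exact (analyticAt_pi_iff.1 ha) i
    · exact (analyticAt_pi_iff.1 hfa1) i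
  -- the curve in the direction of `s`
  have hline : HasDerivAt (fun t : ℂ => (z, t • (1 : Fin 1 → ℂ))) ((0 : ℂ), (1 : Fin 1 → ℂ)) 0 := by
    refine (hasDerivAt_const (0 : ℂ) z).prodMk ?_
    have := (hasDerivAt_id (0 : ℂ)).smul_const (1 : Fin 1 → ℂ)
    simpa using this
  have hline0 : (fun t : ℂ => (z, t • (1 : Fin 1 → ℂ))) 0 = (z, 0) := by simp
  have hHd : HasDerivAt (fun t : ℂ => H (z, t • (1 : Fin 1 → ℂ))) (fderiv ℂ H (z, 0) (0, 1)) 0 := by
    have h1 : HasFDerivAt H (fderiv ℂ H (z, 0)) ((fun t : ℂ => (z, t • (1 : Fin 1 → ℂ))) 0) := by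
      rw [hline0]
      exact hHa.differentiableAt.hasFDerivAt
    exact HasFDerivAt.comp_hasDerivAt (l := H) (f := fun t : ℂ => (z, t • (1 : Fin 1 → ℂ))) 0 h1 hline
  have hconst : (fun t : ℂ => eval (H (z, t • (1 : Fin 1 → ℂ))) (G l)) =ᶠ[𝓝 0] fun _ => g l z := by
    have h1 : Tendsto (fun t : ℂ => (z, t • (1 : Fin 1 → ℂ))) (𝓝 0) (𝓝 (z, 0)) := by
      have := hline.continuousAt.tendsto
      rwa [zero_smul] at this
    filter_upwards [h1.eventually hev, h1.eventually ha.eventually_analyticAt] with t h2 h3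
    have h4 := h2 l
    rw [Dir_dz h3] at h4
    exact h4
  have hcomp : HasDerivAt (fun t : ℂ => eval (H (z, t • (1 : Fin 1 → ℂ))) (G l))
      (∑ s, eval (H (z, 0)) (pderiv s (G l)) * fderiv ℂ H (z, 0) (0, 1) s) 0 := by
    have h1 := Pool.Agent.H13.SM.Inv_hasFDerivAt_eval (G l) (H (z, 0))
    have h2 : HasFDerivAt (fun y : Ph N → ℂ => eval y (G l)) (∑ s, eval (H (z, 0)) (pderiv s (G l)) • ContinuousLinearMap.proj (R := ℂ) (φ := fun _ : Ph N => ℂ) s)
        ((fun t : ℂ => H (z, t • (1 : Fin 1 → ℂ))) 0) := by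
      show HasFDerivAt _ _ (H (z, (0 : ℂ) • (1 : Fin 1 → ℂ)))
      rw [zero_smul]
      exact h1
    have h3 := HasFDerivAt.comp_hasDerivAt (l := fun y : Ph N → ℂ => eval y (G l)) (f := fun t : ℂ => H (z, t • (1 : Fin 1 → ℂ))) 0 h2 hHd
    have e : (∑ s, eval (H (z, 0)) (pderiv s (G l)) • ContinuousLinearMap.proj (R := ℂ) (φ := fun _ : Ph N => ℂ) s) (fderiv ℂ H (z, 0) (0, 1)) =
        ∑ s, eval (H (z, 0)) (pderiv s (G l)) * fderiv ℂ H (z, 0) (0, 1) s := by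
      rw [_root_.sum_apply]
      rfl
    rw [e] at h3
    exact h3
  have hzero := hcomp.unique (hconst.hasDerivAt_iff.2 (hasDerivAt_const (0 : ℂ) (g l z)))
  -- the components
  have hinl : ∀ b, fderiv ℂ H (z, 0) (0, 1) (Sum.inl b) = fderiv ℂ Φ (z, 0) (0, 1) b := by
    intro b
    have h1 := hasFDerivAt_pi'.1 hHa.differentiableAt.hasFDerivAt (Sum.inl b)
    have h2 := hasFDerivAt_pi'.1 ha.differentiableAt.hasFDerivAt b
    have h3 := h1.unique h2
    exact congrArg (fun L : ℂ × (Fin 1 → ℂ) →L[ℂ] ℂ => L (0, 1)) h3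
  have hVd : deriv (fun z => fderiv ℂ Φ (z, 0) (0, 1)) z = fderiv ℂ (fderiv ℂ Φ) (z, 0) (1, 0) (0, 1) := by
    have h1 : HasDerivAt (fun z : ℂ => (z, (0 : Fin 1 → ℂ))) ((1 : ℂ), (0 : Fin 1 → ℂ)) z := (hasDerivAt_id z).prodMk (hasDerivAt_const z (0 : Fin 1 → ℂ))
    have h2 := HasFDerivAt.comp_hasDerivAt (l := fderiv ℂ Φ) (f := fun z : ℂ => (z, (0 : Fin 1 → ℂ))) z hfa.differentiableAt.hasFDerivAt h1
    have h3 := HasFDerivAt.comp_hasDerivAt (l := ContinuousLinearMap.apply ℂ (Fin (N + 1) → ℂ) ((0 : ℂ), (1 : Fin 1 → ℂ)))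
      (f := fun z : ℂ => fderiv ℂ Φ (z, 0)) z (ContinuousLinearMap.hasFDerivAt _) h2
    exact h3.deriv
  have hinr : ∀ b, fderiv ℂ H (z, 0) (0, 1) (Sum.inr b) = deriv (fun z => fderiv ℂ Φ (z, 0) (0, 1)) z b := by
    intro b
    have h1 := hasFDerivAt_pi'.1 hHa.differentiableAt.hasFDerivAt (Sum.inr b)
    have h2 : HasFDerivAt (fun p => fderiv ℂ Φ p (1, 0)) ((ContinuousLinearMap.apply ℂ (Fin (N + 1) → ℂ) ((1 : ℂ), (0 : Fin 1 → ℂ))).comp (fderiv ℂ (fderiv ℂ Φ) (z, 0)))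
        (z, 0) := (ContinuousLinearMap.hasFDerivAt (ContinuousLinearMap.apply ℂ (Fin (N + 1) → ℂ) ((1 : ℂ), (0 : Fin 1 → ℂ)))).comp (z, 0) hfa.differentiableAt.hasFDerivAt
    have h3 := hasFDerivAt_pi'.1 h2 b
    have h4 := congrArg (fun L : ℂ × (Fin 1 → ℂ) →L[ℂ] ℂ => L (0, 1)) (h1.unique h3)
    have h5 : IsSymmSndFDerivAt ℂ Φ (z, 0) := ContDiffAt.isSymmSndFDerivAt_of_omega ha.contDiffAt
    have h6 := h5.eq (0, 1) (1, 0)
    rw [hVd, ← h6]
    exact h4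
  show ∑ s, eval (pt (Φ (z, 0)) (deriv (fun z => Φ (z, 0)) z)) (pderiv s (G l)) * pt (fderiv ℂ Φ (z, 0) (0, 1)) (deriv (fun z => fderiv ℂ Φ (z, 0) (0, 1)) z) s = 0
  have e1 : deriv (fun z => Φ (z, 0)) z = fderiv ℂ Φ (z, 0) (1, 0) := Dir_dz (p := (z, 0)) ha
  rw [e1]
  refine Eq.trans ?_ hzero
  refine Finset.sum_congr rfl fun s _ => ?_
  rcases s with b | b
  · rw [hinl b]
    rfl
  · rw [hinr b]
    rfl

theorem dir_eq {Ω : Set ℂ} (hΩ : IsOpen Ω) (hc : IsPreconnected Ω) (G : ι → MvPolynomial (Ph N) ℂ) {g : ι → ℂ → ℂ} {Φ : ℂ × (Fin 1 → ℂ) → Fin (N + 1) → ℂ}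
    (hΦ : ∀ z ∈ Ω, NSol G (fun l q => g l q.1) Φ (z, 0)) {V : ℂ → Fin (N + 1) → ℂ} (hV : ∀ z ∈ Ω, AnalyticAt ℂ V z)
    (hl : ∀ z ∈ Ω, ∀ l, lhs (G l) (fun z => Φ (z, 0)) V z = 0) {w₁ : ℂ} (hw : w₁ ∈ Ω) (I : Fin (N + 1) → ι)
    (hI : eval (pt (Φ (w₁, 0)) (deriv (fun z => Φ (z, 0)) w₁)) (vdet G I) ≠ 0) (h1 : V w₁ = fderiv ℂ Φ (w₁, 0) (0, 1)) :
    ∀ z ∈ Ω, V z = fderiv ℂ Φ (z, 0) (0, 1) := by
  have hx : ∀ z ∈ Ω, AnalyticAt ℂ (fun z => Φ (z, 0)) z := by
    intro z hz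
    exact AnalyticAt.comp (g := Φ) (f := fun z : ℂ => (z, (0 : Fin 1 → ℂ))) (hΦ z hz).1 (analyticAt_id.prod analyticAt_const)
  have hV₁ : ∀ z ∈ Ω, AnalyticAt ℂ (fun z => fderiv ℂ Φ (z, 0) (0, 1)) z := by
    intro z hz
    have h2 : AnalyticAt ℂ (fun z : ℂ => fderiv ℂ Φ (z, 0)) z :=
      AnalyticAt.comp (g := fderiv ℂ Φ) (f := fun z : ℂ => (z, (0 : Fin 1 → ℂ))) (hΦ z hz).1.fderiv (analyticAt_id.prod analyticAt_const)
    exact ((ContinuousLinearMap.apply ℂ (Fin (N + 1) → ℂ) ((0 : ℂ), (1 : Fin 1 → ℂ))).analyticAt _).comp h2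
  set y : ℂ → Ph N → ℂ := fun w => pt (Φ (w, 0)) (deriv (fun z => Φ (z, 0)) w) with hy
  have hya : ∀ w ∈ Ω, AnalyticAt ℂ y w := by
    intro w hw
    rw [analyticAt_pi_iff]
    rintro (i | i)
    · exact (analyticAt_pi_iff.mp (hx w hw)) i
    · exact (analyticAt_pi_iff.mp (hx w hw).deriv) i
  have hdet : ∀ᶠ w in 𝓝 w₁, eval (y w) (vdet G I) ≠ 0 := (Dir_eval (hya w₁ hw) (vdet G I)).continuousAt.eventually_ne hI
  set β : ℂ → Fin (N + 1) → Fin (N + 1) → ℂ := fun w i j =>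
    -(1 : ℂ) * (eval (y w) (vdet G I))⁻¹ * eval (y w) (∑ k, (vmat G I).adjugate i k * pderiv (Sum.inl j) (G (I k))) with hβ
  have hβa : AnalyticAt ℂ (fun w => linMap (β w)) w₁ := by
    refine analyticAt_linMap fun i j => ?_
    exact (analyticAt_const.mul ((Dir_eval (hya w₁ hw) _).inv hI)).mul (Dir_eval (hya w₁ hw) _)
  have key : ∀ W : ℂ → Fin (N + 1) → ℂ, (∀ z ∈ Ω, AnalyticAt ℂ W z) → (∀ z ∈ Ω, ∀ l, lhs (G l) (fun z => Φ (z, 0)) W z = 0) →
      ∀ᶠ s in 𝓝 w₁, HasDerivAt W (linMap (β s) (W s)) s := by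
    intro W hW hWl
    filter_upwards [hΩ.eventually_mem hw, hdet] with s hs hds
    have h2 : deriv W s = linMap (β s) (W s) := by
      funext i
      rw [linMap_apply]
      refine lin_solve hds (t := 1) (fun l => ?_) i
      have h3 := hWl s hs (I l)
      rw [lhs, Fintype.sum_sum_type] at h3
      rw [one_mul]
      exact h3
    rw [← h2]
    exact (hW s hs).differentiableAt.hasDerivAt
  have hnear : V =ᶠ[𝓝 w₁] fun z => fderiv ℂ Φ (z, 0) (0, 1) :=
    linear_unique_nhds hβa h1 (key V hV hl) (key _ hV₁ fun z hz l => Dir_lhs G (hΦ z hz) l)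
  have hVan : AnalyticOnNhd ℂ V Ω := fun z hz => hV z hz
  have hVan₁ : AnalyticOnNhd ℂ (fun z => fderiv ℂ Φ (z, 0) (0, 1)) Ω := fun z hz => hV₁ z hz
  exact fun z hz => hVan.eqOn_of_preconnected_of_eventuallyEq hVan₁ hc hw hnear hz

end Pool.Agent.GL

end

section

/-!
# GL EndL: the values of the variation field are initial vectors of arcs

At the points `w` near `w₀`: `exists_rowL` at `(F w, V w)`, `crit_of_rel` (GA) for `G = gfamL f`, `x = eF B F` (`eval_gfamL`: the values are `gval (thv θ F V)`, in `OO`), `GG.isInit_of_crit`.  `V w ≠ 0` in `ℂ^(N + 2)` implies `V ≠ 0` in `ℂ^(N + 1)` by `embV`.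
-/

set_option autoImplicit false

open MvPolynomial Topology Filter Metric
open Pool.Agent.H13.SM (conTan cone)
open Pool.Agent.GG Pool.Agent.GA

namespace Pool.Agent.GL

variable {N : ℕ} {P : Ideal (MvPolynomial (Fin (N + 1)) ℂ)} {B : Finset (Fin (N + 1))} {J : ℕ} {m : Fin J → ℕ} {θ : ∀ k, LogSec P B (m k)} {b : Fin (N + 1)}
  {F : ℂ → Fin (N + 1) → ℂ} {OO : Subalgebra ℂ (ℂ → ℂ)}

theorem endL (hθ : LogPolar θ) (hb : b ∈ B) (f : LFrame θ b) (hF : LCurve P B b F) (hO : IsSmallRing OO HP) {V : ℂ → Fin (N + 2) → ℂ} (hV : ∀ w ∈ HP, AnalyticAt ℂ V w)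
    (hR : ∀ w ∈ HP, RelX OO (eF B F) V w)
    (hT : ∀ w ∈ HP, (fun j => V w (Fin.castSucc j)) ∈ Tc P b (F w) ∧ V w = embV B (F w) (fun j => V w (Fin.castSucc j)))
    (hα : ∀ k, (fun w => thv θ (F w) (fun j => V w (Fin.castSucc j)) k) ∈ OO) {w₀ : ℂ} (hw : w₀ ∈ HP) (h0 : V w₀ ≠ 0) :
    ∀ᶠ w in 𝓝 w₀, (fun j => V w (Fin.castSucc j)) ≠ 0 ∧ IsInit (gfamL f) (ePt B (F w) fun j => V w (Fin.castSucc j)) := by
  have hopen : IsOpen HP := isOpen_lt continuous_const Complex.continuous_re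
  have hUc : ∀ w ∈ HP, F w ∈ Uc P B b := fun w hw => ⟨hF.curve.cone w hw, hF.one w, hF.ne w hw⟩
  have hV0 : ∀ᶠ w in 𝓝 w₀, V w ≠ 0 := (hV w₀ hw).continuousAt.eventually_ne h0
  filter_upwards [hV0, hopen.mem_nhds hw] with w hw1 hwH
  obtain ⟨hTw, hVw⟩ := hT w hwH
  have hne : (fun j => V w (Fin.castSucc j)) ≠ 0 := by
    intro h
    apply hw1
    rw [hVw, h]
    unfold embV
    funext i
    refine Fin.lastCases ?_ (fun j => ?_) i
    · rw [Fin.snoc_last]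
      simp
    · rw [Fin.snoc_castSucc]
      rfl
  refine ⟨hne, ?_⟩
  obtain ⟨I, hI⟩ := exists_rowL hθ f hb (hUc w hwH) hTw hne
  have hpt : ∀ u ∈ HP, pt (eF B F u) (V u) = ePt B (F u) (fun j => V u (Fin.castSucc j)) := by
    intro u hu
    unfold ePt
    rw [← (hT u hu).2]
    rfl
  have h1 : (fun _ : ℂ => (1 : ℂ)) ∈ OO := OO.one_mem
  have h2 : (fun _ : ℂ => (0 : ℂ)) ∈ OO := OO.zero_mem
  have hcr : Crit (gfamL f) I (pt (eF B F w) (V w)) := by
    refine crit_of_rel hO (gfamL f) I hwH (analyticAt_emb (hF.curve.an w hwH) (hF.ne w hwH)) (hV w hwH) (hR w hwH) (fun l => ?_) ?_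
    · refine ⟨fun u => gval (thv θ (F u) (fun j => V u (Fin.castSucc j))) l, ?_, ?_⟩
      · rcases l with ((_ | _) | (_ | _)) | ((_ | _) | k)
        · exact h1
        · exact h2
        · exact h2
        · exact h2
        · exact h1
        · exact h2
        · exact hα k
      · filter_upwards [hopen.mem_nhds hwH] with u hu
        rw [hpt u hu]
        exact eval_gfamL f (hUc u hu) (hT u hu).1 l
    · rw [hpt w hwH]
      exact hI
  have h3 := isInit_of_crit hcr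
  rw [hpt w hwH] at h3
  exact h3

end Pool.Agent.GL

end

section

/-!
# GL Crv: families of entire curves with constant `θ`

`Y s = ePt B x v` is the initial vector of an arc (`IsInit`), `c s = thv θ x v`.  `GG.exists_Flow` at `Y 0` (a minor is `≠ 0` by `exists_rowL`) gives the family near `z = 0`, `‖s‖` small: `Φ₀ (z, s) = H (z, Y s)`.  Choose `ρ` such
that `Y`, `c` are analytic on `‖s‖ < 2 ρ`, `Y s` stays in a compact set, `c s ≠ 0`.  `GL.na` on `Ω = ball 0 R` for every `R = n`: `thv = c s` is bounded, so `LL ≤ Λ` (`exists_LL_bound`), `Rho ≤ Rho₀ + (|B| + 2) Λ R` by `rho_path`;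
`K` = the closed set of the `y` with norm at most the bound of `ePt_bound`; regularity by `of_gval`, `exists_rowL` (`v ≠ 0` as `c s ≠ 0`).  The solutions for different `R` agree: one `Φ` on `ℂ`.  `lFam_of_nSol`.
-/

set_option autoImplicit false

open MvPolynomial Topology Filter Metric
open Pool.Agent.H13.SM (conTan cone)
open Pool.Agent.H62.FC (Homog)
open Pool.Agent.GG Pool.Agent.GA

namespace Pool.Agent.GL

variable {N : ℕ} {P : Ideal (MvPolynomial (Fin (N + 1)) ℂ)} {B : Finset (Fin (N + 1))} {J : ℕ} {m : Fin J → ℕ} {θ : ∀ k, LogSec P B (m k)} {b : Fin (N + 1)}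

private theorem Crv_emb (x : Fin (N + 1) → ℂ) (i : Fin (N + 1)) : emb B x i.castSucc = x i := by
  unfold emb
  exact Fin.snoc_castSucc (α := fun _ => ℂ) _ _ _

private theorem Crv_embV (x v : Fin (N + 1) → ℂ) (i : Fin (N + 1)) : embV B x v i.castSucc = v i := by
  unfold embV
  exact Fin.snoc_castSucc (α := fun _ => ℂ) _ _ _

private theorem Crv_split {y : Ph (N + 1) → ℂ} {x v : Fin (N + 1) → ℂ} (h : y = ePt B x v) :
    (fun i : Fin (N + 1) => y (Sum.inl i.castSucc)) = x ∧ (fun i : Fin (N + 1) => y (Sum.inr i.castSucc)) = v := by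
  subst h
  exact ⟨funext fun i => Crv_emb x i, funext fun i => Crv_embV x v i⟩

private theorem Crv_congr {M d : ℕ} {ι : Type} {G : ι → MvPolynomial (Ph M) ℂ} {C : ι → ℂ × (Fin d → ℂ) → ℂ} {Φ Φ' : ℂ × (Fin d → ℂ) → Fin (M + 1) → ℂ}
    {q : ℂ × (Fin d → ℂ)} (h : NSol G C Φ q) (he : Φ =ᶠ[𝓝 q] Φ') : NSol G C Φ' q := by
  refine ⟨h.1.congr he, ?_⟩
  filter_upwards [h.2, he.eventuallyEq_nhds] with p h1 h2 l
  have h3 : (fun z => Φ' (z, p.2)) =ᶠ[𝓝 p.1] fun z => Φ (z, p.2) := by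
    have h4 : Tendsto (fun z : ℂ => (z, p.2)) (𝓝 p.1) (𝓝 p) := (continuous_id.prodMk continuous_const).tendsto' _ _ rfl
    filter_upwards [h4.eventually h2] with z hz using hz.symm
  rw [← h2.self_of_nhds, h3.deriv_eq]
  exact h1 l

/-- the curve of a family -/
private theorem Crv_slice {M d : ℕ} {ι : Type} {G : ι → MvPolynomial (Ph M) ℂ} {C : ι → ℂ × (Fin d → ℂ) → ℂ} {Φ : ℂ × (Fin d → ℂ) → Fin (M + 1) → ℂ}
    {z : ℂ} {s : Fin d → ℂ} (h : NSol G C Φ (z, s)) : AnalyticAt ℂ (fun w => Φ (w, s)) z ∧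
      ∀ l, eval (pt (Φ (z, s)) (deriv (fun w => Φ (w, s)) z)) (G l) = C l (z, s) := by
  refine ⟨?_, fun l => h.2.self_of_nhds l⟩
  exact AnalyticAt.comp_of_eq (f := fun w : ℂ => (w, s)) h.1 (analyticAt_id.prod analyticAt_const) rfl

private theorem Crv_deriv {M : ℕ} {x : ℂ → Fin (M + 2) → ℂ} {z : ℂ} (hx : AnalyticAt ℂ x z) :
    AnalyticAt ℂ (fun w (i : Fin (M + 1)) => x w i.castSucc) z ∧
      deriv (fun w (i : Fin (M + 1)) => x w i.castSucc) z = fun i => deriv x z i.castSucc := by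
  have h1 : AnalyticAt ℂ (fun w (i : Fin (M + 1)) => x w i.castSucc) z := by
    rw [analyticAt_pi_iff]
    exact fun i => analyticAt_pi_iff.1 hx i.castSucc
  refine ⟨h1, ?_⟩
  have h2 := hasDerivAt_pi.1 hx.differentiableAt.hasDerivAt
  exact (hasDerivAt_pi.2 fun i : Fin (M + 1) => h2 i.castSucc).deriv

/-- a solution is a curve in the chart -/
private theorem Crv_of (f : LFrame θ b) {x : ℂ → Fin (N + 2) → ℂ} {z : ℂ} (hx : AnalyticAt ℂ x z) {c : Fin J → ℂ}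
    (h : ∀ l, eval (pt (x z) (deriv x z)) (gfamL f l) = gval c l) :
    (fun i : Fin (N + 1) => x z i.castSucc) ∈ Uc P B b ∧ deriv (fun w (i : Fin (N + 1)) => x w i.castSucc) z ∈ Tc P b (fun i : Fin (N + 1) => x z i.castSucc) ∧
      thv θ (fun i : Fin (N + 1) => x z i.castSucc) (deriv (fun w (i : Fin (N + 1)) => x w i.castSucc) z) = c ∧
      pt (x z) (deriv x z) = ePt B (fun i : Fin (N + 1) => x z i.castSucc) (deriv (fun w (i : Fin (N + 1)) => x w i.castSucc) z) := by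
  obtain ⟨x', v', h1, h2, h3, h4⟩ := of_gval f h
  obtain ⟨h5, h6⟩ := Crv_split h1
  have h7 : (fun i : Fin (N + 1) => x z i.castSucc) = x' := h5
  have h8 : deriv (fun w (i : Fin (N + 1)) => x w i.castSucc) z = v' := by
    rw [(Crv_deriv hx).2]
    exact h6
  rw [h7, h8]
  exact ⟨h2, h3, h4, h1⟩

private theorem Crv_thv0 (hm : ∀ k, 1 ≤ m k) {x v : Fin (N + 1) → ℂ} (hx : x ∈ Uc P B b) (hv : v ∈ Tc P b x) {c : Fin J → ℂ} (h : thv θ x v = c)
    (hc : c ≠ 0) : v ≠ 0 := by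
  intro h0
  apply hc
  rw [← h]
  funext k
  have h1 := thv_smul (θ := θ) hx hv 0 k
  rw [zero_smul] at h1
  rw [h0, h1, zero_pow (by have := hm k; omega), zero_mul]
  rfl

private theorem Crv_gval {d : ℕ} {q J : ℕ} {c : (Fin d → ℂ) → Fin J → ℂ} {p : ℂ × (Fin d → ℂ)} (h : ∀ k, AnalyticAt ℂ (fun s => c s k) p.2) (l : GIx q J) :
    AnalyticAt ℂ (fun p : ℂ × (Fin d → ℂ) => gval (c p.2) l) p := by
  rcases l with (((_ | _) | (_ | _)) | ((_ | _) | k))
  · exact analyticAt_const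
  · exact analyticAt_const
  · exact analyticAt_const
  · exact analyticAt_const
  · exact analyticAt_const
  · exact analyticAt_const
  · exact AnalyticAt.comp_of_eq (f := fun p : ℂ × (Fin d → ℂ) => p.2) (h k) analyticAt_snd rfl

/-- the families on the discs fit together -/
private theorem Crv_glue {M d : ℕ} {ι : Type} {G : ι → MvPolynomial (Ph M) ℂ} {C : ι → ℂ × (Fin d → ℂ) → ℂ} {ρ : ℝ}
    {Φ₀ : ℂ × (Fin d → ℂ) → Fin (M + 1) → ℂ}
    (h : ∀ n : ℕ, ∃ Φ : ℂ × (Fin d → ℂ) → Fin (M + 1) → ℂ, (∀ q : ℂ × (Fin d → ℂ), q.1 ∈ ball (0 : ℂ) (n + 1) → ‖q.2‖ < ρ → NSol G C Φ q) ∧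
      ∀ s, ‖s‖ < ρ → ∀ᶠ z in 𝓝 (0 : ℂ), Φ (z, s) = Φ₀ (z, s)) :
    ∃ Φ : ℂ × (Fin d → ℂ) → Fin (M + 1) → ℂ, (∀ q : ℂ × (Fin d → ℂ), ‖q.2‖ < ρ → NSol G C Φ q) ∧
      ∀ s, ‖s‖ < ρ → ∀ᶠ z in 𝓝 (0 : ℂ), Φ (z, s) = Φ₀ (z, s) := by
  choose Ψ h1 h2 using h
  have hag : ∀ n n' : ℕ, n ≤ n' → ∀ z ∈ ball (0 : ℂ) (n + 1), ∀ s : Fin d → ℂ, ‖s‖ < ρ → Ψ n (z, s) = Ψ n' (z, s) := by
    intro n n' hn z hz s hs
    have hsub : ball (0 : ℂ) (n + 1) ⊆ ball (0 : ℂ) (n' + 1) := ball_subset_ball (by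
      have : (n : ℝ) ≤ n' := Nat.cast_le.2 hn
      linarith)
    have ha : AnalyticOnNhd ℂ (fun w => Ψ n (w, s)) (ball (0 : ℂ) (n + 1)) := fun w hw => (Crv_slice (h1 n (w, s) hw hs)).1
    have hb : AnalyticOnNhd ℂ (fun w => Ψ n' (w, s)) (ball (0 : ℂ) (n + 1)) := fun w hw => (Crv_slice (h1 n' (w, s) (hsub hw) hs)).1
    have he : (fun w => Ψ n (w, s)) =ᶠ[𝓝 0] fun w => Ψ n' (w, s) := by
      filter_upwards [h2 n s hs, h2 n' s hs] with w e1 e2
      rw [e1, e2]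
    exact ha.eqOn_of_preconnected_of_eventuallyEq hb (convex_ball (0 : ℂ) (n + 1)).isPreconnected (mem_ball_self (by positivity)) he hz
  have hnear : ∀ q : ℂ × (Fin d → ℂ), ‖q.2‖ < ρ → ∀ᶠ p in 𝓝 q, Ψ (⌈‖q.1‖⌉₊ + 1) p = Ψ ⌈‖p.1‖⌉₊ p := by
    intro q hq
    have e1 : ∀ᶠ p in 𝓝 q, p.1 ∈ ball q.1 1 := (continuous_fst.continuousAt (x := q)).eventually (ball_mem_nhds _ one_pos)
    have e2 : ∀ᶠ p in 𝓝 q, ‖p.2‖ < ρ := (continuous_snd.norm.continuousAt (x := q)).eventually (gt_mem_nhds hq)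
    filter_upwards [e1, e2] with p h3 h4
    have h5 : ‖p.1‖ ≤ ‖q.1‖ + 1 := by
      rw [mem_ball, dist_eq_norm] at h3
      have := norm_sub_norm_le p.1 q.1
      linarith
    have h6 : ⌈‖p.1‖⌉₊ ≤ ⌈‖q.1‖⌉₊ + 1 := by
      rw [Nat.ceil_le]
      push_cast
      have := Nat.le_ceil ‖q.1‖
      linarith
    have h7 : p.1 ∈ ball (0 : ℂ) (⌈‖p.1‖⌉₊ + 1) := by
      rw [mem_ball_zero_iff]
      have := Nat.le_ceil ‖p.1‖
      linarith
    exact (hag _ _ h6 p.1 h7 p.2 h4).symm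
  refine ⟨fun p => Ψ ⌈‖p.1‖⌉₊ p, fun q hq => ?_, fun s hs => ?_⟩
  · refine Crv_congr (h1 (⌈‖q.1‖⌉₊ + 1) q ?_ hq) (hnear q hq)
    rw [mem_ball_zero_iff]
    push_cast
    have := Nat.le_ceil ‖q.1‖
    linarith
  · have h3 := hnear (0, s) hs
    have h4 : Tendsto (fun z : ℂ => (z, s)) (𝓝 0) (𝓝 ((0 : ℂ), s)) := (continuous_id.prodMk continuous_const).tendsto' _ _ rfl
    filter_upwards [h4.eventually h3, h2 (⌈‖(0 : ℂ)‖⌉₊ + 1) s hs] with z e1 e2
    show Ψ ⌈‖z‖⌉₊ (z, s) = _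
    rw [← e2]
    exact e1.symm

theorem exists_famL (hP : Homog P) (hθ : LogPolar θ) (hm : ∀ k, 1 ≤ m k) (hb : b ∈ B) (f : LFrame θ b) {d : ℕ} {Y : (Fin d → ℂ) → Ph (N + 1) → ℂ}
    (hY : AnalyticAt ℂ Y 0) (hI : ∀ᶠ s in 𝓝 (0 : Fin d → ℂ), ∃ x v, Y s = ePt B x v ∧ x ∈ Uc P B b ∧ v ∈ Tc P b x ∧ v ≠ 0 ∧ IsInit (gfamL f) (Y s)) :
    ∃ ρ > 0, ∃ (Φ : ℂ × (Fin d → ℂ) → Fin (N + 1) → ℂ) (c : (Fin d → ℂ) → Fin J → ℂ), c 0 ≠ 0 ∧
      (∀ q : ℂ × (Fin d → ℂ), ‖q.2‖ < ρ → LFam θ b (fun p => c p.2) Φ q) ∧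
      (∀ s, ‖s‖ < ρ → Y s = ePt B (Φ (0, s)) (deriv (fun z => Φ (z, s)) 0)) ∧ ∃ C : ℝ, ∀ z s, ‖s‖ < ρ → Rho B (Φ (z, s)) ≤ C * (1 + ‖z‖) := by
  classical
  -- the constants
  obtain ⟨c, hc⟩ : ∃ c : (Fin d → ℂ) → Fin J → ℂ, c = fun s k => eval (Y s) (gfamL f (Sum.inr (Sum.inr k))) := ⟨_, rfl⟩
  have hcY : ∀ s x v, Y s = ePt B x v → x ∈ Uc P B b → v ∈ Tc P b x → c s = thv θ x v ∧ ∀ l, eval (Y s) (gfamL f l) = gval (c s) l := by
    intro s x v h1 h2 h3
    have h4 : c s = thv θ x v := by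
      rw [hc]
      funext k
      show eval (Y s) (gfamL f (Sum.inr (Sum.inr k))) = _
      rw [h1, eval_gfamL f h2 h3]
      rfl
    refine ⟨h4, fun l => ?_⟩
    rw [h4, h1, eval_gfamL f h2 h3]
  obtain ⟨x₀, v₀, h01, h02, h03, h04, h05⟩ := hI.self_of_nhds
  have hc0 : c 0 ≠ 0 := by
    rw [(hcY 0 x₀ v₀ h01 h02 h03).1]
    obtain ⟨c', hc', C', -, h6⟩ := theta_bdL hP hθ hm hb
    obtain ⟨k, hk⟩ := (h6 x₀ h02 v₀ h03).2 h04
    intro h7
    rw [h7, Pi.zero_apply, norm_zero] at hk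
    have h8 : 0 < LL B x₀ v₀ := by
      unfold LL
      have h9 : x₀ ≠ 0 := h02.1.1
      have h10 : 0 < ‖v₀‖ / ‖x₀‖ := div_pos (norm_pos_iff.2 h04) (norm_pos_iff.2 h9)
      have h11 : 0 ≤ ∑ i ∈ B, ‖v₀ i‖ / ‖x₀ i‖ := Finset.sum_nonneg fun i _ => by positivity
      linarith
    have h9 : 0 < c' * LL B x₀ v₀ ^ m k := by positivity
    linarith
  -- the flow
  obtain ⟨I, hIdet⟩ := exists_rowL hθ f hb h02 h03 h04
  rw [← h01] at hIdet
  obtain ⟨r, hr, K₀, H, hH⟩ := exists_Flow hIdet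
  -- a common bound
  obtain ⟨CL, hCL, hLL⟩ := exists_LL_bound (θ := θ) hP hθ hm hb
  obtain ⟨M, hM⟩ : ∃ M : ℝ, M = ‖c 0‖ + 1 := ⟨_, rfl⟩
  have hM1 : 1 ≤ M := by rw [hM]; linarith [norm_nonneg (c 0)]
  have hcan : ∀ᶠ s in 𝓝 (0 : Fin d → ℂ), ∀ k, AnalyticAt ℂ (fun s => c s k) s := by
    filter_upwards [hY.eventually_analyticAt] with s hs k
    rw [hc]
    exact AnalyticAt.comp (g := fun y : Ph (N + 1) → ℂ => eval y (gfamL f (Sum.inr (Sum.inr k)))) (f := Y)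
      (AnalyticOnNhd.eval_mvPolynomial _ (Y s) (Set.mem_univ _)) hs
  have hccont : ContinuousAt c 0 := (analyticAt_pi_iff.2 fun k => hcan.self_of_nhds k).continuousAt
  obtain ⟨xs, hxs⟩ : ∃ xs : (Fin d → ℂ) → Fin (N + 1) → ℂ, xs = fun s i => Y s (Sum.inl i.castSucc) := ⟨_, rfl⟩
  have hxcont : ContinuousAt xs 0 := by
    rw [hxs, continuousAt_pi]
    exact fun i => (analyticAt_pi_iff.1 hY (Sum.inl i.castSucc)).continuousAt
  have hx0 : xs 0 = x₀ := by rw [hxs]; exact (Crv_split h01).1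
  have hRcont : ContinuousAt (fun s => Rho B (xs s)) 0 := by
    unfold Rho
    have h1 : ‖xs 0‖ ≠ 0 := by rw [hx0]; exact norm_ne_zero_iff.2 h02.1.1
    have h2 : ContinuousAt (fun s => Real.log ‖xs s‖) 0 := hxcont.norm.log h1
    refine h2.add (tendsto_finsetSum _ fun i hi => ?_)
    have h3 : ‖xs 0 i‖ ≠ 0 := by rw [hx0]; exact norm_ne_zero_iff.2 (h02.2.2 i hi)
    exact h2.sub (((continuousAt_pi.1 hxcont) i).norm.log h3)
  obtain ⟨R₀, hR₀⟩ : ∃ R₀ : ℝ, R₀ = max 0 (Rho B (xs 0) + 1) := ⟨_, rfl⟩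
  -- the radius
  have hall : ∀ᶠ s in 𝓝 (0 : Fin d → ℂ), (∃ x v, Y s = ePt B x v ∧ x ∈ Uc P B b ∧ v ∈ Tc P b x ∧ v ≠ 0 ∧ IsInit (gfamL f) (Y s)) ∧
      AnalyticAt ℂ Y s ∧ (∀ k, AnalyticAt ℂ (fun s => c s k) s) ∧ Y s ∈ ball (Y 0) r ∧ c s ≠ 0 ∧ ‖c s‖ < M ∧ Rho B (xs s) < Rho B (xs 0) + 1 := by
    refine hI.and (hY.eventually_analyticAt.and (hcan.and ?_))
    refine (hY.continuousAt.eventually (ball_mem_nhds _ hr)).and ((hccont.eventually_ne hc0).and ?_)
    refine (hccont.norm.eventually_lt continuousAt_const ?_).and (hRcont.eventually_lt continuousAt_const (lt_add_one _))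
    rw [hM]
    exact lt_add_one _
  obtain ⟨ρ', hρ', hball⟩ := Metric.eventually_nhds_iff_ball.1 hall
  obtain ⟨ρ, hρ⟩ : ∃ ρ : ℝ, ρ = ρ' / 2 := ⟨_, rfl⟩
  have hρ0 : 0 < ρ := by rw [hρ]; positivity
  have hin' : ∀ s : Fin d → ℂ, ‖s‖ ≤ ρ → s ∈ ball (0 : Fin d → ℂ) ρ' := by
    intro s hs
    rw [mem_ball_zero_iff]
    linarith [hρ]
  have hgood := fun s hs => hball s (hin' s hs)
  -- the first family
  have hY0 : ∀ s : Fin d → ℂ, ‖s‖ ≤ ρ → H (0, Y s) = fun i => Y s (Sum.inl i) := fun s hs => hH.zero _ (hgood s hs).2.2.2.1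
  have hN0 : ∀ s : Fin d → ℂ, ‖s‖ < ρ → NSol (gfamL f) (fun l p => gval (c p.2) l) (fun p => H (p.1, Y p.2)) (0, s) := by
    intro s hs
    have hq : ((0 : ℂ), Y s) ∈ ball (0 : ℂ) r ×ˢ ball (Y 0) r := ⟨mem_ball_self hr, (hgood s hs.le).2.2.2.1⟩
    refine ⟨?_, ?_⟩
    · have h1 : AnalyticAt ℂ (fun p : ℂ × (Fin d → ℂ) => (p.1, Y p.2)) (0, s) := by
        refine analyticAt_fst.prod ?_
        exact AnalyticAt.comp_of_eq (f := fun p : ℂ × (Fin d → ℂ) => p.2) (hgood s hs.le).2.1 analyticAt_snd rfl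
      exact AnalyticAt.comp_of_eq (f := fun p : ℂ × (Fin d → ℂ) => (p.1, Y p.2)) (hH.an _ hq) h1 rfl
    · have e1 : ∀ᶠ p in 𝓝 ((0 : ℂ), s), p.1 ∈ ball (0 : ℂ) r :=
        (continuous_fst.continuousAt (x := ((0 : ℂ), s))).eventually (ball_mem_nhds _ hr)
      have e2 : ∀ᶠ p in 𝓝 ((0 : ℂ), s), ‖p.2‖ < ρ := (continuous_snd.norm.continuousAt (x := ((0 : ℂ), s))).eventually (gt_mem_nhds hs)
      filter_upwards [e1, e2] with p h1 h2 l
      obtain ⟨⟨x, v, g1, g2, g3, g4, g5⟩, -, -, g6, -⟩ := hgood p.2 h2.le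
      have h3 := hH.const (Y p.2) g6 g5 p.1 h1 l
      rw [(hcY p.2 x v g1 g2 g3).2 l] at h3
      exact h3
  -- the length of the curves
  obtain ⟨Λ, hΛ⟩ : ∃ Λ : ℝ, Λ = CL * M := ⟨_, rfl⟩
  have hΛ0 : 0 ≤ Λ := by rw [hΛ]; positivity
  have hcard0 : (0 : ℝ) ≤ (B.card + 2) * Λ := mul_nonneg (by linarith [Nat.cast_nonneg (α := ℝ) B.card]) hΛ0
  have hlen : ∀ s : Fin d → ℂ, ‖s‖ ≤ ρ → ∀ x ∈ Uc P B b, ∀ v ∈ Tc P b x, thv θ x v = c s → LL B x v ≤ Λ := by
    intro s hs x hx v hv h1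
    rw [hΛ]
    refine hLL x hx v hv M hM1 fun k => ?_
    rw [h1]
    exact (norm_le_pi_norm _ k).trans (hgood s hs).2.2.2.2.2.1.le
  have hheight : ∀ s : Fin d → ℂ, ‖s‖ ≤ ρ → ∀ W : Set ℂ, Convex ℝ W → (0 : ℂ) ∈ W → ∀ x : ℂ → Fin (N + 2) → ℂ,
      (∀ z ∈ W, AnalyticAt ℂ x z ∧ ∀ l, eval (pt (x z) (deriv x z)) (gfamL f l) = gval (c s) l) → x 0 = (fun i => Y s (Sum.inl i)) →
      ∀ z ∈ W, Rho B (fun i : Fin (N + 1) => x z i.castSucc) ≤ R₀ + (B.card + 2) * Λ * ‖z‖ := by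
    intro s hs W hWc h0W x hx hx0' z hz
    have h1 := rho_path (P := P) (b := b) (B := B) (x := fun w (i : Fin (N + 1)) => x w i.castSucc) hWc (fun w hw => by
      obtain ⟨g1, g2⟩ := hx w hw
      exact ⟨(Crv_deriv g1).1, (Crv_of f g1 g2).1⟩) (Λ := Λ) (fun w hw => by
      obtain ⟨g1, g2⟩ := hx w hw
      obtain ⟨g3, g4, g5, -⟩ := Crv_of f g1 g2
      exact hlen s hs _ g3 _ g4 g5) hz h0W
    have h2 : (fun i : Fin (N + 1) => x 0 i.castSucc) = xs s := by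
      rw [hxs, hx0']
    have h3 := (hgood s hs).2.2.2.2.2.2
    have h4 : Rho B (fun i : Fin (N + 1) => x 0 i.castSucc) ≤ R₀ := by
      rw [h2, hR₀]
      exact h3.le.trans (le_max_right _ _)
    rw [sub_zero] at h1
    linarith
  -- the families on the discs
  have hfam : ∀ n : ℕ, ∃ Φ : ℂ × (Fin d → ℂ) → Fin (N + 2) → ℂ,
      (∀ q : ℂ × (Fin d → ℂ), q.1 ∈ ball (0 : ℂ) (n + 1) → ‖q.2‖ < ρ → NSol (gfamL f) (fun l p => gval (c p.2) l) Φ q) ∧
      ∀ s, ‖s‖ < ρ → ∀ᶠ z in 𝓝 (0 : ℂ), Φ (z, s) = H (z, Y s) := by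
    intro n
    obtain ⟨Mn, hMn⟩ := ePt_bound B (R₀ + (B.card + 2) * Λ * (n + 1)) Λ
    refine na (gfamL f) (fun l p => gval (c p.2) l) isOpen_ball (convex_ball (0 : ℂ) (n + 1)) isBounded_ball (mem_ball_self (by positivity)) hρ0
      (fun l q _ hq => Crv_gval (hgood q.2 hq).2.2.1 l) (isCompact_closedBall (0 : Ph (N + 1) → ℂ) Mn) ?_ (Φ₀ := fun p => H (p.1, Y p.2)) hN0 ?_
    · intro q _ hq y _ hy
      obtain ⟨x, v, h1, h2, h3, h4⟩ := of_gval f hy
      rw [h1]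
      exact exists_rowL hθ f hb h2 h3 (Crv_thv0 hm h2 h3 h4 (hgood q.2 hq).2.2.2.2.1)
    · intro s hs W hWo hWc h0W hWsub x hx hx0 z hz
      obtain ⟨g1, g2⟩ := hx z hz
      obtain ⟨g3, g4, g5, g6⟩ := Crv_of f g1 g2
      rw [mem_closedBall_zero_iff, g6]
      refine hMn P b _ g3 _ ?_ (hlen s hs.le _ g3 _ g4 g5)
      have h1 := hheight s hs.le W hWc h0W x hx (by
        have h2 : x 0 = H (0, Y s) := hx0.self_of_nhds
        rw [h2, hY0 s hs.le]) z hz
      have h2 : ‖z‖ ≤ n + 1 := (mem_ball_zero_iff.1 (hWsub hz)).le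
      have h3 : (B.card + 2) * Λ * ‖z‖ ≤ (B.card + 2) * Λ * (n + 1) := mul_le_mul_of_nonneg_left h2 hcard0
      linarith
  obtain ⟨Ψ, hΨ, hΨ0⟩ := Crv_glue (Φ₀ := fun p => H (p.1, Y p.2)) hfam
  refine ⟨ρ, hρ0, fun p i => Ψ p i.castSucc, c, hc0, fun q hq => ?_, fun s hs => ?_, ⟨max R₀ ((B.card + 2) * Λ), fun z s hs => ?_⟩⟩
  · exact (lFam_of_nSol f (c := fun p => c p.2) (hΨ q hq)).1
  · obtain ⟨⟨x, v, g1, g2, g3, g4, g5⟩, -, -, g6, -⟩ := hgood s hs.le
    obtain ⟨h1, h2⟩ := Crv_split g1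
    have h3 : (fun z => Ψ (z, s)) =ᶠ[𝓝 0] fun z => H (z, Y s) := hΨ0 s hs
    have h4 : Ψ (0, s) = fun i => Y s (Sum.inl i) := by
      have := h3.self_of_nhds
      rw [← hY0 s hs.le]
      exact this
    have h5 : deriv (fun z => Ψ (z, s)) 0 = fun i => Y s (Sum.inr i) := by
      rw [h3.deriv_eq]
      exact hH.der _ g6
    have h6 : (fun i : Fin (N + 1) => Ψ (0, s) i.castSucc) = x := by
      rw [h4]
      exact h1
    have h7 : deriv (fun z (i : Fin (N + 1)) => Ψ (z, s) i.castSucc) 0 = v := by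
      rw [(Crv_deriv (Crv_slice (hΨ (0, s) hs)).1).2, h5]
      exact h2
    rw [g1]
    show ePt B x v = ePt B (fun i : Fin (N + 1) => Ψ (0, s) i.castSucc) (deriv (fun z (i : Fin (N + 1)) => Ψ (z, s) i.castSucc) 0)
    rw [h6, h7]
  · have h1 := hheight s hs.le Set.univ convex_univ (Set.mem_univ _) (fun z => Ψ (z, s)) (fun w _ => Crv_slice (hΨ (w, s) hs)) (by
      have h3 : Ψ (0, s) = H (0, Y s) := (hΨ0 s hs).self_of_nhds
      rw [← hY0 s hs.le]
      exact h3) z (Set.mem_univ _)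
    have h2 : R₀ ≤ max R₀ ((B.card + 2) * Λ) := le_max_left _ _
    have h3 : (B.card + 2) * Λ ≤ max R₀ ((B.card + 2) * Λ) := le_max_right _ _
    have h4 := mul_le_mul_of_nonneg_right h3 (norm_nonneg z)
    show Rho B (fun i : Fin (N + 1) => Ψ (z, s) i.castSucc) ≤ _
    calc Rho B (fun i : Fin (N + 1) => Ψ (z, s) i.castSucc) ≤ R₀ + (B.card + 2) * Λ * ‖z‖ := h1
      _ ≤ max R₀ ((B.card + 2) * Λ) * (1 + ‖z‖) := by linarith

end Pool.Agent.GL

end

section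

/-!
# GL Ent1: an initial vector with constant `θ` gives an entire curve

`exists_famL` for `d = 0`: `Y` constant.
-/

set_option autoImplicit false

open MvPolynomial Topology Filter Metric
open Pool.Agent.H13.SM (conTan cone)
open Pool.Agent.H62.FC (Homog)
open Pool.Agent.GG Pool.Agent.GA

namespace Pool.Agent.GL

variable {N : ℕ} {P : Ideal (MvPolynomial (Fin (N + 1)) ℂ)} {B : Finset (Fin (N + 1))} {J : ℕ} {m : Fin J → ℕ} {θ : ∀ k, LogSec P B (m k)} {b : Fin (N + 1)}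

private theorem Ent1_split {x v x' v' : Fin (N + 1) → ℂ} (h : ePt B x v = ePt B x' v') : x = x' ∧ v = v' := by
  constructor
  · funext i
    have h1 := congrFun h (Sum.inl i.castSucc)
    have h2 : ∀ x : Fin (N + 1) → ℂ, emb B x i.castSucc = x i := fun x => by
      unfold emb
      exact Fin.snoc_castSucc (α := fun _ => ℂ) _ _ _
    exact (h2 x).symm.trans (h1.trans (h2 x'))
  · funext i
    have h1 := congrFun h (Sum.inr i.castSucc)
    have h2 : ∀ x v : Fin (N + 1) → ℂ, embV B x v i.castSucc = v i := fun x v => by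
      unfold embV
      exact Fin.snoc_castSucc (α := fun _ => ℂ) _ _ _
    exact (h2 x v).symm.trans (h1.trans (h2 x' v'))

/-- The entire curve with a given initial vector. -/
theorem exists_entire (hP : Homog P) (hθ : LogPolar θ) (hm : ∀ k, 1 ≤ m k) (hb : b ∈ B) (f : LFrame θ b) {x v : Fin (N + 1) → ℂ} (hx : x ∈ Uc P B b)
    (hv : v ∈ Tc P b x) (h0 : v ≠ 0) (hi : IsInit (gfamL f) (ePt B x v)) :
    ∃ F : ℂ → Fin (N + 1) → ℂ, (∀ z, AnalyticAt ℂ F z) ∧ (∀ z, F z ∈ Uc P B b) ∧ F 0 = x ∧ deriv F 0 = v ∧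
      (∃ c : Fin J → ℂ, c ≠ 0 ∧ ∀ z, thv θ (F z) (deriv F z) = c) ∧ ∃ C : ℝ, ∀ z, Rho B (F z) ≤ C * (1 + ‖z‖) := by
  obtain ⟨ρ, hρ, Φ, c, hc, hΦ, hY, C, hC⟩ := exists_famL (Y := fun _ : Fin 0 → ℂ => ePt B x v) hP hθ hm hb f analyticAt_const
    (Eventually.of_forall fun s => ⟨x, v, rfl, hx, hv, h0, hi⟩)
  have hn : ‖(0 : Fin 0 → ℂ)‖ < ρ := by rwa [norm_zero]
  obtain ⟨h1, h2⟩ := Ent1_split (hY 0 hn)
  refine ⟨fun z => Φ (z, 0), fun z => ?_, fun z => ?_, h1.symm, h2.symm, ⟨c 0, hc, fun z => ?_⟩, C, fun z => hC z 0 hn⟩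
  · exact AnalyticAt.comp_of_eq (f := fun w : ℂ => (w, (0 : Fin 0 → ℂ))) (hΦ (z, 0) hn).1 (analyticAt_id.prod analyticAt_const) rfl
  · exact (hΦ (z, 0) hn).2.self_of_nhds.1
  · exact (hΦ (z, 0) hn).2.self_of_nhds.2

/-- The entire curve through a point, with the algebraic criterion. -/
theorem exists_entire_of_crit (hP : Homog P) (hθ : LogPolar θ) (hm : ∀ k, 1 ≤ m k) (hb : b ∈ B) (f : LFrame θ b) {K : Fin (N + 2) → GIx f.q J}
    {x v : Fin (N + 1) → ℂ} (hx : x ∈ Uc P B b) (hv : v ∈ Tc P b x) (h0 : v ≠ 0) (hc : Crit (gfamL f) K (ePt B x v)) :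
    ∃ F : ℂ → Fin (N + 1) → ℂ, (∀ z, AnalyticAt ℂ F z) ∧ (∀ z, F z ∈ Uc P B b) ∧ F 0 = x ∧ deriv F 0 = v ∧
      (∃ c : Fin J → ℂ, c ≠ 0 ∧ ∀ z, thv θ (F z) (deriv F z) = c) ∧ ∃ C : ℝ, ∀ z, Rho B (F z) ≤ C * (1 + ‖z‖) :=
  exists_entire hP hθ hm hb f hx hv h0 (isInit_of_crit hc)

end Pool.Agent.GL

end

section

/-!
# GBL Use: Theorem B, logarithmic case, for entire curves

PROOF.  `exists_critL`, `GL.exists_entire_of_crit`.  `bdB_iff`: the set of the prime divisors on the boundary is the one of the hand-ins, for the forms `x i`, `i ∈ B`, and `1`.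
-/

set_option autoImplicit false

open MvPolynomial Topology Filter Metric
open Pool.Agent.H13.SM (conTan cone)
open Pool.Agent.H17 (PN HolomorphicInto VanishesAt)
open Pool.Agent.H17BP (vanishesAt_mk)
open Pool.Agent.H17LG.Variety (FunField ratio IsLogGeneralType OnBoundary)
open Pool.Agent.H23.Fano (PrimeDivisorOver Form)
open Pool.Agent.H62.FC (Homog)
open Pool.Agent.GL

namespace Pool.Agent.GBL

open Pool.Agent.GG

variable {N : ℕ} {P : Ideal (MvPolynomial (Fin (N + 1)) ℂ)} {B : Finset (Fin (N + 1))}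

theorem bdB_iff [P.IsPrime] {k : ℕ} (E : PrimeDivisorOver (FunField P) k) :
    BdB P B E ↔ OnBoundary P (fun i : Fin (N + 1) => if i ∈ B then X i else 1) E := by
  unfold BdB OnBoundary
  refine exists_congr fun j => and_congr_right fun _ => and_congr_right fun _ => exists_congr fun i => ?_
  by_cases hi : i ∈ B
  · simp only [hi, if_true, aeval_X, true_and]
  · simp only [hi, if_false, false_and, map_one, false_iff, not_lt]
    exact (E.ord.map_one).le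

theorem bdB_eq [P.IsPrime] (k : ℕ) : BdB P B (k := k) = OnBoundary P (fun i : Fin (N + 1) => if i ∈ B then X i else 1) (k := k) :=
  funext fun E => propext (bdB_iff E)

variable {J m : ℕ} {θ : Fin J → LogSec P B m}

/-- **Theorem B**, logarithmic case, for entire curves: if `U = X \ D`, of dimension `k ≥ 1`, is not of log general type, and `q` is a form which is not zero on `X`, then there is a nonconstant entire curve in `U`,
which is not in the zero set of `q`; it has bounded logarithmic derivatives. -/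
theorem exists_entireL [P.IsPrime] (hP : Homog P) (hm : 1 ≤ m) (hgen : LogGenerated θ) {b : Fin (N + 1)} (hb : b ∈ B) (hB : ∀ i ∈ B, X i ∉ P) {k : ℕ} (hk : 1 ≤ k)
    (hz : ∃ z : Fin k → FunField P, IsTranscendenceBasis ℂ z)
    (hn : ¬ IsLogGeneralType (K := FunField P) (k := k) (OnBoundary P (fun i : Fin (N + 1) => if i ∈ B then X i else 1)))
    {q : MvPolynomial (Fin (N + 1)) ℂ} {n : ℕ} (hq : q.IsHomogeneous n) (hqP : q ∉ P) :
    ∃ F : ℂ → Fin (N + 1) → ℂ, (∀ z, AnalyticAt ℂ F z) ∧ (∀ z, F z ∈ Uc P B b) ∧ eval (F 0) q ≠ 0 ∧ deriv F 0 ≠ 0 ∧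
      (∃ c : Fin J → ℂ, c ≠ 0 ∧ ∀ z, thv (m := fun _ => m) θ (F z) (deriv F z) = c) ∧ ∃ C : ℝ, ∀ z, Rho B (F z) ≤ C * (1 + ‖z‖) := by
  obtain ⟨f⟩ := exists_lframe (m := fun _ => m) θ b
  rw [← bdB_eq] at hn
  obtain ⟨K, x, v, hx, hv, hv0, hxq, hcr⟩ := exists_critL hP hm hgen f hb hB hk hz hn hq hqP
  obtain ⟨F, h1, h2, h3, h4, h5, h6⟩ := exists_entire_of_crit hP (logPolar_of_generated hm hgen) (fun _ => hm) hb f hx hv hv0 hcr
  exact ⟨F, h1, h2, by rw [h3]; exact hxq, by rw [h4]; exact hv0, h5, h6⟩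

end Pool.Agent.GBL

end

section

/-!
# GL VbB: continuation of the family on a convex domain without zeros of `F'`

`GL.na` for `G = gfamL f`, `C l (z, s) = gval (thv θ (F z) (F' z)) l` (analytic on `HP`), `d = 1`.  For a solution `x` over `W ⊆ Ω` (`W` convex, `w₁ ∈ W`) with the values of `Φ₀ (·, s)` near `w₁`: `of_gval` (`lFam_of_nSol`): `x = emb B x'`,
`x' ∈ Uc`, `thv θ x' (x'') = thv θ F F'` of size `≤ T`, so `LL ≤ C T` (`exists_LL_bound`), `Rho (x' z) ≤ M + (|B| + 2) C T D` (`rho_path`).  `K` = the closed ball of the radius of `ePt_bound` for these bounds.  Regularity: `of_gval`, `exists_rowL`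
(`v ≠ 0`: else `thv θ F F' = 0` at a point of the closure and `F' = 0` there by `theta_bdL`).  `Φ (z, 0) = eF B F z`: identity theorem.  `dir_eq` (the value of `∂Φ/∂s` at `(w₁, 0)` is that of `Φ₀`: `Φ (w₁, s) = Φ₀ (w₁, s)` for all `s`).
-/

set_option autoImplicit false

open MvPolynomial Topology Filter Metric
open Pool.Agent.H13.SM (conTan cone)
open Pool.Agent.H62.FC (Homog)
open Pool.Agent.GG Pool.Agent.GA

namespace Pool.Agent.GL

variable {N : ℕ} {P : Ideal (MvPolynomial (Fin (N + 1)) ℂ)} {B : Finset (Fin (N + 1))} {J : ℕ} {m : Fin J → ℕ} {θ : ∀ k, LogSec P B (m k)} {b : Fin (N + 1)}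

private theorem vbB_isOpen_HP : IsOpen HP := isOpen_lt continuous_const Complex.continuous_re

private theorem vbB_ev {w : ℂ} (hw : w ∈ HP) : ∀ᶠ z in 𝓝 w, z ∈ HP := vbB_isOpen_HP.mem_nhds hw

private theorem vbB_mem_Uc {F : ℂ → Fin (N + 1) → ℂ} (hF : LCurve P B b F) {w : ℂ} (hw : w ∈ HP) : F w ∈ Uc P B b :=
  ⟨hF.curve.cone w hw, hF.one w, hF.ne w hw⟩

private theorem vbB_deriv_mem {F : ℂ → Fin (N + 1) → ℂ} (hF : LCurve P B b F) {w : ℂ} (hw : w ∈ HP) : deriv F w ∈ Tc P b (F w) :=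
  deriv_mem_Tc (hF.curve.an w hw) ((vbB_ev hw).mono fun _ hz => vbB_mem_Uc hF hz)

/-- a nonzero vector has a nonzero value -/
private theorem vbB_ne (hP : Homog P) (hθ : LogPolar θ) (hm : ∀ k, 1 ≤ m k) (hb : b ∈ B) {x v x' v' : Fin (N + 1) → ℂ} (hx : x ∈ Uc P B b) (hv : v ∈ Tc P b x)
    (h0 : v ≠ 0) (hx' : x' ∈ Uc P B b) (hv' : v' ∈ Tc P b x') (h : thv θ x' v' = thv θ x v) : v' ≠ 0 := by
  intro h1
  obtain ⟨c, hc, C, hC, H⟩ := theta_bdL hP hθ hm hb
  obtain ⟨k, hk⟩ := (H x hx v hv).2 h0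
  have h2 : thv θ x' v' k = 0 := by
    have h3 := thv_smul (θ := θ) hx' hv' 0 k
    rw [zero_smul, zero_pow (by have := hm k; omega), zero_mul] at h3
    rw [h1]
    exact h3
  rw [← h, h2, norm_zero] at hk
  have hx0 : 0 < ‖x‖ := norm_pos_iff.2 fun h4 => by
    have h5 := hx.2.1
    rw [h4] at h5
    exact zero_ne_one h5
  have h6 : 0 < LL B x v := add_pos_of_pos_of_nonneg (div_pos (norm_pos_iff.2 h0) hx0) (Finset.sum_nonneg fun _ _ => div_nonneg (norm_nonneg _) (norm_nonneg _))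
  have h7 : 0 < c * LL B x v ^ m k := mul_pos hc (pow_pos h6 _)
  linarith

/-- the data of the values of the family -/
private theorem vbB_gval_an {F : ℂ → Fin (N + 1) → ℂ} (hF : LCurve P B b F) {q : ℕ} (l : GIx q J) {p : ℂ × (Fin 1 → ℂ)} (hp : p.1 ∈ HP) :
    AnalyticAt ℂ (fun q : ℂ × (Fin 1 → ℂ) => gval (thv θ (F q.1) (deriv F q.1)) l) p := by
  rcases l with ((_ | _) | (_ | _)) | ((_ | _) | k)
  · exact analyticAt_const
  · exact analyticAt_const
  · exact analyticAt_const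
  · exact analyticAt_const
  · exact analyticAt_const
  · exact analyticAt_const
  · have h1 : AnalyticAt ℂ (fun w => thv θ (F w) (deriv F w) k) p.1 :=
      analyticAt_thv (hF.curve.an _ hp) (hF.curve.an _ hp).deriv ((vbB_ev hp).mono fun w hw => ⟨vbB_mem_Uc hF hw, vbB_deriv_mem hF hw⟩) k
    exact AnalyticAt.comp (f := fun q : ℂ × (Fin 1 → ℂ) => q.1) h1 analyticAt_fst

/-- a solution of the equations of the family over an open set is a curve in `U` -/
private theorem vbB_sol (f : LFrame θ b) {F : ℂ → Fin (N + 1) → ℂ} {W : Set ℂ} {x : ℂ → Fin (N + 2) → ℂ}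
    (hx : ∀ z ∈ W, AnalyticAt ℂ x z ∧ ∀ l, eval (pt (x z) (deriv x z)) (gfamL f l) = gval (thv θ (F z) (deriv F z)) l) :
    ∀ z ∈ W, AnalyticAt ℂ (fun w i => x w (Fin.castSucc i)) z ∧ (fun i => x z (Fin.castSucc i)) ∈ Uc P B b ∧
      deriv (fun w i => x w (Fin.castSucc i)) z ∈ Tc P b (fun i => x z (Fin.castSucc i)) ∧
      thv θ (fun i => x z (Fin.castSucc i)) (deriv (fun w i => x w (Fin.castSucc i)) z) = thv θ (F z) (deriv F z) ∧
      pt (x z) (deriv x z) = ePt B (fun i => x z (Fin.castSucc i)) (deriv (fun w i => x w (Fin.castSucc i)) z) := by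
  intro z hz
  obtain ⟨h1, h2⟩ := hx z hz
  have h3 : ∀ i, AnalyticAt ℂ (fun w => x w i) z := fun i => (analyticAt_pi_iff.1 h1) i
  have h4 : AnalyticAt ℂ (fun w (i : Fin (N + 1)) => x w (Fin.castSucc i)) z := AnalyticAt.pi fun i => h3 _
  have h5 : deriv (fun w (i : Fin (N + 1)) => x w (Fin.castSucc i)) z = fun i => deriv x z (Fin.castSucc i) := by
    refine (hasDerivAt_pi.2 fun i => ?_).deriv
    exact (hasDerivAt_pi.1 h1.differentiableAt.hasDerivAt) (Fin.castSucc i)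
  obtain ⟨a, v, e1, e2, e3, e4⟩ := of_gval f h2
  have e5 : a = fun i => x z (Fin.castSucc i) := by
    funext i
    have e6 := congrFun e1 (Sum.inl (Fin.castSucc i))
    have e7 : ePt B a v (Sum.inl (Fin.castSucc i)) = a i := by
      show emb B a (Fin.castSucc i) = a i
      unfold emb
      rw [Fin.snoc_castSucc]
    rw [e7] at e6
    exact e6.symm
  have e8 : v = deriv (fun w (i : Fin (N + 1)) => x w (Fin.castSucc i)) z := by
    rw [h5]
    funext i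
    have e6 := congrFun e1 (Sum.inr (Fin.castSucc i))
    have e7 : ePt B a v (Sum.inr (Fin.castSucc i)) = v i := by
      show embV B a v (Fin.castSucc i) = v i
      unfold embV
      rw [Fin.snoc_castSucc]
    rw [e7] at e6
    exact e6.symm
  rw [e5, e8] at e1
  rw [e5] at e2
  rw [e5, e8] at e3
  rw [e5, e8] at e4
  exact ⟨h4, e2, e3, e4, e1⟩

private theorem vbB_eval_curve {F : ℂ → Fin (N + 1) → ℂ} (hF : LCurve P B b F) {w : ℂ} (hw : w ∈ HP) :
    AnalyticAt ℂ (eF B F) w ∧ deriv (eF B F) w = embV B (F w) (deriv F w) :=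
  ⟨analyticAt_emb (hF.curve.an w hw) (hF.ne w hw), deriv_emb (hF.curve.an w hw) (hF.ne w hw)⟩

theorem vb_leg (hP : Homog P) (hθ : LogPolar θ) (hm : ∀ k, 1 ≤ m k) (hb : b ∈ B) (f : LFrame θ b) : ∃ C > 0, ∀ F : ℂ → Fin (N + 1) → ℂ, LCurve P B b F →
    ∀ Ω : Set ℂ, IsOpen Ω → Convex ℝ Ω → Bornology.IsBounded Ω → closure Ω ⊆ HP → (∀ z ∈ closure Ω, deriv F z ≠ 0) →
    ∀ T : ℝ, 1 ≤ T → (∀ z ∈ Ω, ∀ k, ‖thv θ (F z) (deriv F z) k‖ ≤ T) → ∀ D : ℝ, (∀ z ∈ Ω, ∀ z' ∈ Ω, ‖z - z'‖ ≤ D) →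
    ∀ w₁ ∈ Ω, ∀ ρ > 0, ∀ (Φ₀ : ℂ × (Fin 1 → ℂ) → Fin (N + 2) → ℂ) (M : ℝ),
      (∀ s : Fin 1 → ℂ, ‖s‖ < ρ → NSol (gfamL f) (fun l q => gval (thv θ (F q.1) (deriv F q.1)) l) Φ₀ (w₁, s)) → (∀ᶠ z in 𝓝 w₁, Φ₀ (z, 0) = eF B F z) →
      (∀ s : Fin 1 → ℂ, ‖s‖ < ρ → Rho B (fun i => Φ₀ (w₁, s) (Fin.castSucc i)) ≤ M) →
      ∃ Φ : ℂ × (Fin 1 → ℂ) → Fin (N + 2) → ℂ,
        (∀ q : ℂ × (Fin 1 → ℂ), q.1 ∈ Ω → ‖q.2‖ < ρ → NSol (gfamL f) (fun l q => gval (thv θ (F q.1) (deriv F q.1)) l) Φ q) ∧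
        (∀ z ∈ Ω, Φ (z, 0) = eF B F z) ∧ (∀ z ∈ Ω, ∀ s : Fin 1 → ℂ, ‖s‖ < ρ → Rho B (fun i => Φ (z, s) (Fin.castSucc i)) ≤ M + C * T * D) ∧
        ∀ V : ℂ → Fin (N + 2) → ℂ, (∀ z ∈ Ω, AnalyticAt ℂ V z) → (∀ z ∈ Ω, ∀ l, lhs (gfamL f l) (eF B F) V z = 0) → V w₁ = fderiv ℂ Φ₀ (w₁, 0) (0, 1) →
          ∀ z ∈ Ω, V z = fderiv ℂ Φ (z, 0) (0, 1) := by
  obtain ⟨C₁, hC₁, HC⟩ := exists_LL_bound hP hθ hm hb
  refine ⟨(B.card + 2) * C₁, by positivity, ?_⟩
  intro F hF Ω hΩ hc hbd hcl hF' T hT hTh D hD w₁ hw₁ ρ hρ Φ₀ M h₀ h₀F h₀M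
  have hΩHP : ∀ z ∈ Ω, z ∈ HP := fun z hz => hcl (subset_closure hz)
  have hD0 : 0 ≤ D := (norm_nonneg _).trans (hD w₁ hw₁ w₁ hw₁)
  -- the bounds for a solution
  have key : ∀ s : Fin 1 → ℂ, ‖s‖ < ρ → ∀ W : Set ℂ, IsOpen W → Convex ℝ W → w₁ ∈ W → W ⊆ Ω → ∀ x : ℂ → Fin (N + 2) → ℂ,
      (∀ z ∈ W, AnalyticAt ℂ x z ∧ ∀ l, eval (pt (x z) (deriv x z)) (gfamL f l) = gval (thv θ (F z) (deriv F z)) l) → x w₁ = Φ₀ (w₁, s) →
      ∀ z ∈ W, Rho B (fun i => x z (Fin.castSucc i)) ≤ M + (B.card + 2) * C₁ * T * D ∧ LL B (fun i => x z (Fin.castSucc i)) (deriv (fun w i => x w (Fin.castSucc i)) z) ≤ C₁ * T ∧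
        (fun i => x z (Fin.castSucc i)) ∈ Uc P B b ∧ pt (x z) (deriv x z) = ePt B (fun i => x z (Fin.castSucc i)) (deriv (fun w i => x w (Fin.castSucc i)) z) := by
    intro s hs W hW hWc hwW hWΩ x hx hx0 z hz
    have h1 := vbB_sol f hx
    have h2 : ∀ z ∈ W, LL B (fun i => x z (Fin.castSucc i)) (deriv (fun w i => x w (Fin.castSucc i)) z) ≤ C₁ * T := by
      intro z hz
      obtain ⟨_, a2, a3, a4, _⟩ := h1 z hz
      refine HC _ a2 _ a3 T hT fun k => ?_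
      rw [a4]
      exact hTh z (hWΩ hz) k
    have h3 := rho_path (B := B) (b := b) (P := P) hWc (fun z hz => ⟨(h1 z hz).1, (h1 z hz).2.1⟩) h2 hz hwW
    refine ⟨h3.trans ?_, h2 z hz, (h1 z hz).2.1, (h1 z hz).2.2.2.2⟩
    have h4 : Rho B (fun i => x w₁ (Fin.castSucc i)) ≤ M := by
      rw [hx0]
      exact h₀M s hs
    have h5 : (B.card + 2) * (C₁ * T) * ‖z - w₁‖ ≤ (B.card + 2) * (C₁ * T) * D := by
      refine mul_le_mul_of_nonneg_left (hD z (hWΩ hz) w₁ hw₁) ?_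
      have : 0 ≤ T := zero_le_one.trans hT
      positivity
    have h6 : (B.card + 2) * (C₁ * T) * D = (B.card + 2) * C₁ * T * D := by ring
    linarith
  obtain ⟨Mb, hMb⟩ := ePt_bound B (M + (B.card + 2) * C₁ * T * D) (C₁ * T)
  obtain ⟨Φ, hΦ, hΦ₀⟩ := na (gfamL f) (fun l q => gval (thv θ (F q.1) (deriv F q.1)) l) hΩ hc hbd hw₁ hρ
    (fun l q hq _ => vbB_gval_an hF l (hcl hq)) (isCompact_closedBall (0 : Ph (N + 1) → ℂ) Mb)
    (fun q hq _ y _ hy => by
      obtain ⟨x, v, e1, e2, e3, e4⟩ := of_gval f hy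
      obtain ⟨I, hI⟩ := exists_rowL hθ f hb e2 e3 (vbB_ne hP hθ hm hb (vbB_mem_Uc hF (hcl hq)) (vbB_deriv_mem hF (hcl hq)) (hF' _ hq) e2 e3 e4)
      exact ⟨I, by rw [e1]; exact hI⟩) h₀
    (fun s hs W hW hWc hwW hWΩ x hx hx0 z hz => by
      obtain ⟨a1, a2, a3, a4⟩ := key s hs W hW hWc hwW hWΩ x hx hx0.self_of_nhds z hz
      rw [a4, mem_closedBall_zero_iff]
      exact hMb P b _ a3 _ a1 a2)
  have hsol : ∀ s : Fin 1 → ℂ, ‖s‖ < ρ → ∀ z ∈ Ω, AnalyticAt ℂ (fun z => Φ (z, s)) z ∧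
      ∀ l, eval (pt (Φ (z, s)) (deriv (fun z => Φ (z, s)) z)) (gfamL f l) = gval (thv θ (F z) (deriv F z)) l := by
    intro s hs z hz
    obtain ⟨a1, a2⟩ := hΦ (z, s) hz hs
    refine ⟨?_, fun l => a2.self_of_nhds l⟩
    exact AnalyticAt.comp (f := fun z : ℂ => ((z, s) : ℂ × (Fin 1 → ℂ))) a1 (analyticAt_id.prod analyticAt_const)
  have h0ρ : ‖(0 : Fin 1 → ℂ)‖ < ρ := by rwa [norm_zero]
  have hF0 : ∀ z ∈ Ω, Φ (z, 0) = eF B F z := by
    have b1 : AnalyticOnNhd ℂ (fun z => Φ (z, 0)) Ω := fun z hz => (hsol 0 h0ρ z hz).1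
    have b2 : AnalyticOnNhd ℂ (eF B F) Ω := fun z hz => (vbB_eval_curve hF (hΩHP z hz)).1
    have b3 : (fun z => Φ (z, 0)) =ᶠ[𝓝 w₁] eF B F := by
      filter_upwards [hΦ₀ 0 h0ρ, h₀F] with z hz hz'
      rw [hz, hz']
    exact fun z hz => b1.eqOn_of_preconnected_of_eventuallyEq b2 hc.isPreconnected hw₁ b3 hz
  refine ⟨Φ, hΦ, hF0, fun z hz s hs => (key s hs Ω hΩ hc hw₁ subset_rfl _ (hsol s hs) (hΦ₀ s hs).self_of_nhds z hz).1, ?_⟩
  intro V hV hl hV₁ z hz
  obtain ⟨I, hI⟩ := exists_rowL hθ f hb (vbB_mem_Uc hF (hΩHP w₁ hw₁)) (vbB_deriv_mem hF (hΩHP w₁ hw₁)) (hF' _ (subset_closure hw₁))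
  have hev : ∀ z ∈ Ω, (fun z => Φ (z, 0)) =ᶠ[𝓝 z] eF B F := fun z hz => by
    filter_upwards [hΩ.mem_nhds hz] with w hw using hF0 w hw
  refine dir_eq hΩ hc.isPreconnected (gfamL f) (g := fun l z => gval (thv θ (F z) (deriv F z)) l) (Φ := Φ) (fun z hz => hΦ (z, 0) hz h0ρ) hV
    (fun z hz l => ?_) hw₁ I ?_ ?_ z hz
  · have c1 := hl z hz l
    unfold lhs at c1 ⊢
    rw [(hev z hz).deriv_eq]
    show ∑ s, eval (pt (Φ (z, 0)) (deriv (eF B F) z)) (pderiv s (gfamL f l)) * pt (V z) (deriv V z) s = 0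
    rw [hF0 z hz]
    exact c1
  · rw [hF0 w₁ hw₁, (hev w₁ hw₁).deriv_eq, (vbB_eval_curve hF (hΩHP w₁ hw₁)).2]
    exact hI
  · rw [hV₁]
    have d1 : DifferentiableAt ℂ Φ₀ (w₁, 0) := (h₀ 0 h0ρ).1.differentiableAt
    have d2 : DifferentiableAt ℂ Φ (w₁, 0) := (hΦ (w₁, 0) hw₁ h0ρ).1.differentiableAt
    have hline : HasDerivAt (fun t : ℂ => ((w₁, t • (1 : Fin 1 → ℂ)) : ℂ × (Fin 1 → ℂ))) (0, 1) 0 := by
      have e1 : HasDerivAt (fun t : ℂ => t • (1 : Fin 1 → ℂ)) ((1 : ℂ) • (1 : Fin 1 → ℂ)) 0 := (hasDerivAt_id (0 : ℂ)).smul_const _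
      rw [one_smul] at e1
      exact (hasDerivAt_const 0 w₁).prodMk e1
    have d1' : HasDerivAt (fun t : ℂ => Φ₀ (w₁, t • (1 : Fin 1 → ℂ))) (fderiv ℂ Φ₀ (w₁, 0) (0, 1)) 0 := by
      have e2 : HasFDerivAt Φ₀ (fderiv ℂ Φ₀ (w₁, 0)) ((w₁, (0 : ℂ) • (1 : Fin 1 → ℂ)) : ℂ × (Fin 1 → ℂ)) := by
        rw [zero_smul]
        exact d1.hasFDerivAt
      exact e2.comp_hasDerivAt 0 hline
    have d2' : HasDerivAt (fun t : ℂ => Φ (w₁, t • (1 : Fin 1 → ℂ))) (fderiv ℂ Φ (w₁, 0) (0, 1)) 0 := by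
      have e2 : HasFDerivAt Φ (fderiv ℂ Φ (w₁, 0)) ((w₁, (0 : ℂ) • (1 : Fin 1 → ℂ)) : ℂ × (Fin 1 → ℂ)) := by
        rw [zero_smul]
        exact d2.hasFDerivAt
      exact e2.comp_hasDerivAt 0 hline
    refine d1'.unique (d2'.congr_of_eventuallyEq ?_)
    have e3 : Tendsto (fun t : ℂ => ‖t • (1 : Fin 1 → ℂ)‖) (𝓝 0) (𝓝 0) := by
      have e4 : Continuous fun t : ℂ => ‖t • (1 : Fin 1 → ℂ)‖ := (continuous_id.smul continuous_const).norm
      have e5 := e4.tendsto 0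
      rwa [zero_smul, norm_zero] at e5
    filter_upwards [e3.eventually (gt_mem_nhds hρ)] with t ht
    exact (hΦ₀ _ ht).self_of_nhds.symm

end Pool.Agent.GL

end

section

/-!
# GLS Orb: the orbits

PROOF.  `w ∈ Zr 𝔯`, `tht f k (w) ≠ 0`: `w = ePt B x v` (`GL.of_gval`, `c` = the values of the `tht`), `v ≠ 0`; `K` with `vdet K (w) ≠ 0` (`exists_rowL`), `Crit (gfamL f) K w` (`LSol.crit`, `LSol.stable`): the entire curve `F`
(`GL.exists_entire_of_crit`), `y z = ePt B (F z) (F' z)`.  `dt_along`: `vdet K (y) d/dz g (y) = (Dt K g) (y)` for all `K`; `stays`: `y z ∈ Zr 𝔯` for all `z`; with `Bez`: `(tht f k (w)) ^ p d/dz eval (y z) g = eval (y z) (DD f β g)`.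
`Y t = y ((tht f k (w)) ^ p t)`.
Growth: `LL (F z) (F' z) ≤ C max (1, ‖θ‖)` (`exists_LL_bound`), `Rho (F z) ≤ Rho x + (card + 2) Λ ‖z‖` (`rho_path`), `‖ePt B x v‖ ≤ C (1 + LL) exp ((card + 1) Rho)`, `exp (Rho x) ≤ (1 + ‖w‖) ^ (card + 2)`.
-/

set_option autoImplicit false

open MvPolynomial Topology Filter Metric
open Pool.Agent.H13.SM (conTan cone)
open Pool.Agent.H17 (PN VanishesAt HolomorphicInto puncturedDisc)
open Pool.Agent.H62.FC (Homog)
open Pool.Agent.GG Pool.Agent.GA Pool.Agent.GL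

namespace Pool.Agent.GLS

variable {N : ℕ} {P : Ideal (MvPolynomial (Fin (N + 1)) ℂ)} {B : Finset (Fin (N + 1))} {J : ℕ} {m : Fin J → ℕ} {θ : ∀ k, LogSec P B (m k)} {b : Fin (N + 1)}

/-- the values of the family at a zero of `𝔯` -/
theorem LSol.gval {f : LFrame θ b} {𝔯 : Ideal (MvPolynomial (Ph (N + 1)) ℂ)} (h : LSol f 𝔯) {w : Ph (N + 1) → ℂ} (hw : Zr 𝔯 w) (l : GIx f.q J) :
    eval w (gfamL f l) = Pool.Agent.GL.gval (fun k => eval w (tht f k)) l := by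
  rcases l with l | l | l
  · have h1 := hw _ (h.eqs (Sum.inl l))
    rw [feq, Sum.elim_inl, map_sub, eval_C, sub_eq_zero] at h1
    rw [h1]
    rfl
  · have h1 := hw _ (h.eqs (Sum.inr l))
    rw [feq, Sum.elim_inr, map_sub, eval_C, sub_eq_zero] at h1
    rw [h1]
    rfl
  · rfl

/-- the criterion at a zero of `𝔯` -/
theorem LSol.crit' {f : LFrame θ b} {𝔯 : Ideal (MvPolynomial (Ph (N + 1)) ℂ)} (h : LSol f 𝔯) (K : Fin (N + 2) → GIx f.q J) (l : GIx f.q J) (n : ℕ) :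
    (⇑(Dt (gfamL f) K))^[n + 1] (gfamL f l) ∈ 𝔯 := by
  induction n with
  | zero => exact h.crit K l
  | succ n ih =>
    rw [Function.iterate_succ_apply']
    exact h.stable K _ ih

/-- the orbit of a point: an entire curve in the phase space -/
theorem LSol.exists_curve (hP : Homog P) (hθ : LogPolar θ) (hm : ∀ k, 1 ≤ m k) (hb : b ∈ B) {f : LFrame θ b} {𝔯 : Ideal (MvPolynomial (Ph (N + 1)) ℂ)} (h : LSol f 𝔯)
    {w : Ph (N + 1) → ℂ} (hw : Zr 𝔯 w) {k : Fin J} (hk : eval w (tht f k) ≠ 0) :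
    ∃ F : ℂ → Fin (N + 1) → ℂ, (∀ z, AnalyticAt ℂ F z) ∧ (∀ z, F z ∈ Uc P B b) ∧ ePt B (F 0) (deriv F 0) = w ∧
      (∀ z, thv θ (F z) (deriv F z) = fun k => eval w (tht f k)) ∧ ∀ z, Zr 𝔯 (ePt B (F z) (deriv F z)) ∧ ∀ K g, ∃ d,
        HasDerivAt (fun s => eval (ePt B (F s) (deriv F s)) g) d z ∧ eval (ePt B (F z) (deriv F z)) (vdet (gfamL f) K) * d = eval (ePt B (F z) (deriv F z)) (Dt (gfamL f) K g) := by
  obtain ⟨x, v, hxv, hx, hv, hc⟩ := of_gval f (h.gval hw)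
  have hv0 : v ≠ 0 := by
    intro h0
    apply hk
    have h1 := congrFun hc k
    rw [h0, CX.thv_zero hm hx k] at h1
    exact h1.symm
  obtain ⟨K, hK⟩ := exists_rowL hθ f hb hx hv hv0
  have hcr : Crit (gfamL f) K (ePt B x v) := ⟨hK, fun l n => by rw [← hxv]; exact hw _ (h.crit' K l n)⟩
  obtain ⟨F, hF, hU, h0, h1, ⟨c, -, hcc⟩, -⟩ := exists_entire_of_crit hP hθ hm hb f hx hv hv0 hcr
  have hc' : c = fun k => eval w (tht f k) := by
    rw [← hcc 0, h0, h1, hc]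
  have hemb : ∀ z, AnalyticAt ℂ (fun s => emb B (F s)) z := fun z => analyticAt_emb (hF z) (hU z).2.2
  have hd : ∀ z, deriv (fun s => emb B (F s)) z = embV B (F z) (deriv F z) := fun z => deriv_emb (hF z) (hU z).2.2
  have hT : ∀ z, deriv F z ∈ Tc P b (F z) := fun z => deriv_mem_Tc (hF z) (Eventually.of_forall hU)
  have hpt : ∀ z, Pool.Agent.GG.pt (emb B (F z)) (deriv (fun s => emb B (F s)) z) = ePt B (F z) (deriv F z) := fun z => by
    rw [hd, ePt]
  have harc : ∀ z, ArcV (gfamL f) (fun s => emb B (F s)) z := by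
    intro z
    refine ⟨hemb z, fun l => Eventually.of_forall fun s => ?_⟩
    rw [hpt, hpt, eval_gfamL f (hU s) (hT s), eval_gfamL f (hU z) (hT z), hcc, hcc]
  have h00 : ePt B (F 0) (deriv F 0) = w := by rw [h0, h1, hxv]
  refine ⟨F, hF, hU, h00, fun z => by rw [hcc, hc'], fun z => ⟨fun g hg => ?_, fun K' g => ?_⟩⟩
  · have h2 := stays harc (I := K) (r := 𝔯) (by rw [hpt, h00, hxv]; exact hK) (fun g hg => h.stable K g hg) (fun g hg => by rw [hpt, h00]; exact hw g hg) hg z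
    rw [hpt] at h2
    exact h2
  · obtain ⟨d, h2, h3⟩ := dt_along (harc z) K' g
    rw [hpt] at h3
    simp only [hpt] at h2
    exact ⟨d, h2, h3⟩

/-- a sum of derivations -/
private theorem orb_sum {R κ : Type} [CommRing R] [Algebra ℂ R] (β : κ → R) (D : κ → Derivation ℂ R R) (s : Finset κ) (g : R) :
    (∑ K ∈ s, β K • D K) g = ∑ K ∈ s, β K * D K g := by
  classical
  induction s using Finset.induction_on with
  | empty => rw [Finset.sum_empty, Finset.sum_empty, Derivation.zero_apply]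
  | insert a s ha ih => rw [Finset.sum_insert ha, Finset.sum_insert ha, Derivation.add_apply, ih, Derivation.smul_apply, smul_eq_mul]

/-- the norm of a point of the phase space -/
private theorem orb_ePt {x v : Fin (N + 1) → ℂ} (hx : x ∈ Uc P B b) {L : ℝ} (hL : LL B x v ≤ L) : ‖ePt B x v‖ ≤ (1 + L) * Real.exp (Rho B x) ^ (B.card + 1) := by
  have hE : 1 ≤ Real.exp (Rho B x) := Real.one_le_exp (rho_nonneg hx)
  have hE0 := Real.exp_pos (Rho B x)
  have hL0 : 0 ≤ L := (Pool.Agent.GL.LL_nonneg x v).trans hL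
  have hEc : 1 ≤ Real.exp (Rho B x) ^ B.card := one_le_pow₀ hE
  have hE1 : Real.exp (Rho B x) ≤ Real.exp (Rho B x) ^ (B.card + 1) := le_self_pow₀ hE (by omega)
  have hE2 : Real.exp (Rho B x) ^ B.card ≤ Real.exp (Rho B x) ^ (B.card + 1) := pow_le_pow_right₀ hE (by omega)
  have h1 : ∀ i, ‖x i‖ ≤ Real.exp (Rho B x) := fun i => (norm_le_pi_norm x i).trans (norm_le_rho hx)
  have h2 : ‖(∏ i ∈ B, x i)⁻¹‖ ≤ Real.exp (Rho B x) ^ B.card := by
    rw [norm_inv, norm_prod, ← Finset.prod_inv_distrib]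
    refine (Finset.prod_le_prod (fun i _ => inv_nonneg.2 (norm_nonneg _)) fun i hi => inv_le_rho hx hi).trans (le_of_eq ?_)
    rw [Finset.prod_const]
  have h3 : ∀ i, ‖v i‖ ≤ L * Real.exp (Rho B x) := fun i =>
    (norm_le_pi_norm v i).trans ((norm_le_LL hx v).trans (mul_le_mul_of_nonneg_right hL hE0.le))
  have h4 : ‖-((∏ i ∈ B, x i)⁻¹ * ∑ i ∈ B, (x i)⁻¹ * v i)‖ ≤ Real.exp (Rho B x) ^ B.card * L := by
    rw [norm_neg, norm_mul]
    refine mul_le_mul h2 ?_ (norm_nonneg _) (by positivity)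
    have h5 : ∑ i ∈ B, ‖v i‖ / ‖x i‖ ≤ LL B x v := by
      unfold LL
      have : 0 ≤ ‖v‖ / ‖x‖ := by positivity
      linarith
    refine (norm_sum_le _ _).trans (le_trans (le_of_eq (Finset.sum_congr rfl fun i _ => ?_)) (h5.trans hL))
    rw [norm_mul, norm_inv, div_eq_inv_mul]
  have hb : ∀ a : ℝ, a ≤ Real.exp (Rho B x) ^ (B.card + 1) → a ≤ (1 + L) * Real.exp (Rho B x) ^ (B.card + 1) := fun a ha => by
    have : 0 ≤ L * Real.exp (Rho B x) ^ (B.card + 1) := by positivity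
    linarith
  have hb' : ∀ a : ℝ, a ≤ L * Real.exp (Rho B x) ^ (B.card + 1) → a ≤ (1 + L) * Real.exp (Rho B x) ^ (B.card + 1) := fun a ha => by
    have : 0 ≤ Real.exp (Rho B x) ^ (B.card + 1) := by positivity
    linarith
  rw [pi_norm_le_iff_of_nonneg (by positivity)]
  rintro (i | i)
  · show ‖emb B x i‖ ≤ _
    unfold emb
    refine Fin.lastCases ?_ (fun i => ?_) i
    · rw [Fin.snoc_last]
      exact hb _ (h2.trans hE2)
    · rw [Fin.snoc_castSucc]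
      exact hb _ ((h1 i).trans hE1)
  · show ‖embV B x v i‖ ≤ _
    unfold embV
    refine Fin.lastCases ?_ (fun i => ?_) i
    · rw [Fin.snoc_last]
      refine hb' _ (h4.trans ?_)
      rw [mul_comm]
      exact mul_le_mul_of_nonneg_left hE2 hL0
    · rw [Fin.snoc_castSucc]
      exact hb' _ ((h3 i).trans (mul_le_mul_of_nonneg_left hE1 hL0))

/-- the height of a point is bounded by the norm in the phase space -/
private theorem orb_rho {x v : Fin (N + 1) → ℂ} (hx : x ∈ Uc P B b) : Real.exp (Rho B x) ≤ (1 + ‖ePt B x v‖) ^ (B.card + 2) := by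
  have hx0 : 0 < ‖x‖ := by
    have h := norm_le_pi_norm x b
    rw [hx.2.1, norm_one] at h
    linarith
  have hw : 0 ≤ ‖ePt B x v‖ := norm_nonneg _
  have h1 : ‖x‖ ≤ 1 + ‖ePt B x v‖ := by
    refine (pi_norm_le_iff_of_nonneg (by linarith)).2 fun i => ?_
    have h2 : ePt B x v (Sum.inl i.castSucc) = x i := by
      show emb B x i.castSucc = x i
      unfold emb
      exact Fin.snoc_castSucc (α := fun _ => ℂ) _ _ _
    have h3 := norm_le_pi_norm (ePt B x v) (Sum.inl i.castSucc)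
    rw [h2] at h3
    linarith
  have hne : ∀ i ∈ B, ‖x i‖ ≠ 0 := fun i hi => norm_ne_zero_iff.2 (hx.2.2 i hi)
  have h4 : (∏ i ∈ B, ‖x i‖)⁻¹ ≤ 1 + ‖ePt B x v‖ := by
    have h2 : ePt B x v (Sum.inl (Fin.last (N + 1))) = (∏ i ∈ B, x i)⁻¹ := by
      show emb B x (Fin.last (N + 1)) = _
      unfold emb
      exact Fin.snoc_last (α := fun _ => ℂ) _ _
    have h3 := norm_le_pi_norm (ePt B x v) (Sum.inl (Fin.last (N + 1)))
    rw [h2, norm_inv, norm_prod] at h3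
    linarith
  have h5 : Real.exp (Rho B x) = ‖x‖ ^ (B.card + 1) * (∏ i ∈ B, ‖x i‖)⁻¹ := by
    unfold Rho
    rw [Real.exp_add, Real.exp_log hx0, Real.exp_sum, ← Finset.prod_inv_distrib]
    have h6 : ∏ i ∈ B, Real.exp (Real.log ‖x‖ - Real.log ‖x i‖) = ∏ i ∈ B, (‖x‖ * ‖x i‖⁻¹) := by
      refine Finset.prod_congr rfl fun i hi => ?_
      rw [Real.exp_sub, Real.exp_log hx0, Real.exp_log (norm_pos_iff.2 (hx.2.2 i hi)), div_eq_mul_inv]
    rw [h6, Finset.prod_mul_distrib, Finset.prod_const]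
    ring
  rw [h5]
  calc ‖x‖ ^ (B.card + 1) * (∏ i ∈ B, ‖x i‖)⁻¹ ≤ (1 + ‖ePt B x v‖) ^ (B.card + 1) * (1 + ‖ePt B x v‖) := by
        refine mul_le_mul (pow_le_pow_left₀ hx0.le h1 _) h4 ?_ (by positivity)
        exact inv_nonneg.2 (Finset.prod_nonneg fun i _ => norm_nonneg _)
    _ = (1 + ‖ePt B x v‖) ^ (B.card + 2) := by ring

theorem LSol.orbs (hP : Homog P) (hθ : LogPolar θ) (hm : ∀ k, 1 ≤ m k) (hb : b ∈ B) {f : LFrame θ b} {𝔯 : Ideal (MvPolynomial (Ph (N + 1)) ℂ)} (h : LSol f 𝔯) {k : Fin J} {p : ℕ}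
    {β : (Fin (N + 2) → GIx f.q J) → MvPolynomial (Ph (N + 1)) ℂ} (hβ : Bez f 𝔯 k p β) : Orbs 𝔯 (DD f β) (tht f k) (tht f) := by
  have hDD : ∀ g, DD f β g = ∑ K, β K * Dt (gfamL f) K g := by
    intro g
    unfold DD
    exact orb_sum β _ _ g
  refine ⟨fun g hg => ?_, ?_, fun k => ?_, ?_⟩
  · rw [hDD]
    exact Ideal.sum_mem _ fun K _ => Ideal.mul_mem_left _ _ (h.stable K g hg)
  · rw [hDD]
    exact Ideal.sum_mem _ fun K _ => Ideal.mul_mem_left _ _ (h.crit K _)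
  · rw [hDD]
    exact Ideal.sum_mem _ fun K _ => Ideal.mul_mem_left _ _ (h.crit K _)
  intro w₀ hw₀ hk₀
  obtain ⟨C₁, hC₁, hLL⟩ := exists_LL_bound (P := P) hP hθ hm hb
  obtain ⟨M, hM1, hM⟩ : ∃ M : ℝ, 1 ≤ M ∧ ∀ k, ‖eval w₀ (tht f k)‖ ≤ M := by
    refine ⟨1 + ∑ k, ‖eval w₀ (tht f k)‖, ?_, fun k => ?_⟩
    · have : 0 ≤ ∑ k, ‖eval w₀ (tht f k)‖ := Finset.sum_nonneg fun _ _ => norm_nonneg _
      linarith
    · have : ‖eval w₀ (tht f k)‖ ≤ ∑ k, ‖eval w₀ (tht f k)‖ := Finset.single_le_sum (f := fun k => ‖eval w₀ (tht f k)‖) (fun _ _ => norm_nonneg _) (Finset.mem_univ k)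
      linarith
  set Λ : ℝ := C₁ * M with hΛ
  have hΛ0 : 0 ≤ Λ := by positivity
  set c₀ : ℂ := eval w₀ (tht f k) ^ p with hc₀
  have hc₀0 : c₀ ≠ 0 := pow_ne_zero _ hk₀
  have hcp : 0 < ‖c₀‖ := norm_pos_iff.2 hc₀0
  set A : ℝ := Real.exp ((B.card + 2) * Λ) with hA
  refine ⟨‖c₀‖⁻¹, (1 + Λ) * A ^ (B.card + 1), (B.card + 2) * (B.card + 1), inv_pos.2 hcp, fun w hw hwk hwθ => ?_⟩
  obtain ⟨F, hF, hU, h0, hc, hZ⟩ := h.exists_curve hP hθ hm hb hw (k := k) (by rw [hwk]; exact hk₀)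
  -- the values of `θ`
  have hthv : ∀ z, thv θ (F z) (deriv F z) = fun k => eval w₀ (tht f k) := fun z => by
    rw [hc z]
    funext k
    exact hwθ k
  have hT : ∀ z, deriv F z ∈ Tc P b (F z) := fun z => deriv_mem_Tc (hF z) (Eventually.of_forall hU)
  have hLLz : ∀ z, LL B (F z) (deriv F z) ≤ Λ := fun z => hLL (F z) (hU z) (deriv F z) (hT z) M hM1 fun k => by
    rw [hthv z]
    exact hM k
  -- the point
  have hY0 : ePt B (F 0) (deriv F 0) = w := h0
  -- the values of `tht f k` along the curve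
  have hthk : ∀ z, eval (ePt B (F z) (deriv F z)) (tht f k) = eval w₀ (tht f k) := fun z => by
    have h1 := eval_gfamL f (hU z) (hT z) (Sum.inr (Sum.inr k))
    have h2 : eval (ePt B (F z) (deriv F z)) (tht f k) = thv θ (F z) (deriv F z) k := h1
    rw [h2, hthv z]
  refine ⟨fun z => ePt B (F (c₀ * z)) (deriv F (c₀ * z)), ?_, ?_, ?_⟩
  · simp only [mul_zero]
    exact h0
  · intro z _
    -- the derivative
    have hlin : HasDerivAt (fun z : ℂ => c₀ * z) c₀ z := by simpa using (hasDerivAt_id z).const_mul c₀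
    rw [hasDerivAt_pi]
    intro s
    obtain ⟨u, hu⟩ : ∃ u, u = c₀ * z := ⟨_, rfl⟩
    have hall := (hZ u).2
    choose d hd1 hd2 using fun K => hall K (X s)
    have hdd : ∀ K K', d K = d K' := fun K K' => (hd1 K).unique (hd1 K')
    obtain ⟨K₀⟩ : Nonempty (Fin (N + 2) → GIx f.q J) := ⟨fun _ => Sum.inl (Sum.inl (Sum.inl ()))⟩
    have h1 : c₀ * d K₀ = eval (ePt B (F u) (deriv F u)) (DD f β (X s)) := by
      have h2 := (hZ u).1 _ hβ
      rw [map_sub, map_pow, hthk u, sub_eq_zero] at h2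
      rw [hc₀, h2, map_sum, hDD, map_sum, Finset.sum_mul]
      refine Finset.sum_congr rfl fun K _ => ?_
      rw [map_mul, map_mul, ← hd2 K, hdd K₀ K]
      ring
    have h3 : HasDerivAt (fun t => ePt B (F t) (deriv F t) s) (d K₀) u := by
      have := hd1 K₀
      simpa only [eval_X] using this
    rw [hu] at h3
    have h4 := h3.comp z hlin
    rw [hu] at h1
    rw [← h1, mul_comm]
    exact h4
  · intro z hz
    have hz1 : ‖c₀ * z‖ ≤ 1 := by
      rw [norm_mul]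
      have h1 : ‖z‖ < ‖c₀‖⁻¹ := mem_ball_zero_iff.1 hz
      calc ‖c₀‖ * ‖z‖ ≤ ‖c₀‖ * ‖c₀‖⁻¹ := mul_le_mul_of_nonneg_left h1.le hcp.le
        _ = 1 := mul_inv_cancel₀ hcp.ne'
    have h1 := orb_ePt (hU (c₀ * z)) (hLLz (c₀ * z))
    have h2 := rho_path (W := Set.univ) convex_univ (fun z _ => ⟨hF z, hU z⟩) (fun z _ => hLLz z) (Set.mem_univ (c₀ * z)) (Set.mem_univ (0 : ℂ))
    have h3 : Real.exp (Rho B (F (c₀ * z))) ≤ A * (1 + ‖w‖) ^ (B.card + 2) := by
      have h4 : Rho B (F (c₀ * z)) ≤ Rho B (F 0) + (B.card + 2) * Λ := by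
        refine h2.trans ?_
        rw [sub_zero]
        have h5 : (B.card + 2) * Λ * ‖c₀ * z‖ ≤ (B.card + 2) * Λ * 1 := mul_le_mul_of_nonneg_left hz1 (by positivity)
        linarith
      calc Real.exp (Rho B (F (c₀ * z))) ≤ Real.exp (Rho B (F 0) + (B.card + 2) * Λ) := Real.exp_le_exp.2 h4
        _ = A * Real.exp (Rho B (F 0)) := by rw [Real.exp_add, hA, mul_comm]
        _ ≤ A * (1 + ‖w‖) ^ (B.card + 2) := by
          refine mul_le_mul_of_nonneg_left ?_ (Real.exp_pos _).le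
          rw [← hY0]
          exact orb_rho (hU 0)
    calc ‖ePt B (F (c₀ * z)) (deriv F (c₀ * z))‖ ≤ (1 + Λ) * Real.exp (Rho B (F (c₀ * z))) ^ (B.card + 1) := h1
      _ ≤ (1 + Λ) * (A * (1 + ‖w‖) ^ (B.card + 2)) ^ (B.card + 1) :=
          mul_le_mul_of_nonneg_left (pow_le_pow_left₀ (Real.exp_pos _).le h3 _) (by positivity)
      _ = (1 + Λ) * A ^ (B.card + 1) * (1 + ‖w‖) ^ ((B.card + 2) * (B.card + 1)) := by
          rw [mul_pow, ← pow_mul, mul_assoc]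

end Pool.Agent.GLS

end
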