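import Pool.Agent.H18.GGT.M26
import Pool.Agent.H18.GGT.M50
import Pool.Agent.H18.GGT.M65
import Pool.Agent.H18.GGT.M70
import Pool.Agent.H18.GGT.M87
import Pool.Agent.H18.GGT.M92

/-! The parts of this file: GL.Top, GLS.Dec, GLS.FldL, GLS.Hnk, GLS.Fam, GLS.Grd, GLS.Wrn, GTL.ResL, GLS.Lgt, GTL.Loc, GTL.Cmp, GTL.Crv. -/

section

/-!
# GL Top: the theorem

`disc_of_half`: `GA.exists_HCurve` (values in `X \ D`), divide by the coordinate `b` (`≠ 0` on `HP`; value `1` off `HP` by definition of the new function): `LCurve`; `finL`; `extends_of_lim`; `R (f z) = 0` for `|z| < 1 / 2` gives `R (f z) = 0` for all `z` (identity theorem).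
`topL`: `exists_lframe`, `exists_RL`, `disc_of_half`, `entire_of_puncturedL`.
-/

set_option autoImplicit false

open MvPolynomial Topology Filter Metric
open Pool.Agent.H13.SM (conTan cone)
open Pool.Agent.H17 (PN VanishesAt HolomorphicInto puncturedDisc)
open Pool.Agent.H17EF (projVar)
open Pool.Agent.H62.FC (Homog)
open Pool.Agent.GG Pool.Agent.GA

namespace Pool.Agent.GL

variable {N : ℕ} {P : Ideal (MvPolynomial (Fin (N + 1)) ℂ)} {B : Finset (Fin (N + 1))} {J : ℕ} {m : Fin J → ℕ} {θ : ∀ k, LogSec P B (m k)} {b : Fin (N + 1)}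

private theorem top_mk_congr {x y : Fin (N + 1) → ℂ} (h : x = y) (hx : x ≠ 0) :
    ∃ hy : y ≠ 0, Projectivization.mk ℂ x hx = Projectivization.mk ℂ y hy := by
  subst h
  exact ⟨hx, rfl⟩

private theorem top_isOpen_HP : IsOpen HP := isOpen_lt continuous_const Complex.continuous_re

private theorem top_mem {w : ℂ} (hw : w ∈ HP) : Complex.exp (-w) / 2 ∈ puncturedDisc := by
  have hw' : 0 < w.re := hw
  have h1 : ‖Complex.exp (-w)‖ < 1 := by
    rw [Complex.norm_exp, Complex.neg_re]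
    exact Real.exp_lt_one_iff.mpr (by linarith)
  refine ⟨?_, ?_⟩
  · rw [mem_ball_zero_iff, norm_div, Complex.norm_ofNat]
    linarith
  · exact div_ne_zero (Complex.exp_ne_zero _) two_ne_zero

theorem disc_of_half (hP : Homog P) (hb : b ∈ B) {R : MvPolynomial (Fin (N + 1)) ℂ} {e : ℕ} (hR : R.IsHomogeneous e)
    (h : ∀ F : ℂ → Fin (N + 1) → ℂ, LCurve P B b F →
      (∃ (a : Fin (N + 1)) (L : Fin (N + 1) → ℂ), (∀ᶠ w in comap Complex.re atTop, F w a ≠ 0) ∧
        Tendsto (fun w => (F w a)⁻¹ • F w) (comap Complex.re atTop) (𝓝 L)) ∨ ∀ w ∈ HP, eval (F w) R = 0)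
    {f : ℂ → PN N} (hf : HolomorphicInto f puncturedDisc) (hX : ∀ z ∈ puncturedDisc, f z ∈ openPart P B) (hne : ∃ z ∈ puncturedDisc, ¬ VanishesAt R (f z)) :
    ∃ g : ℂ → PN N, HolomorphicInto g (ball 0 1) ∧ ∀ z ∈ puncturedDisc, g z = f z := by
  classical
  obtain ⟨F, hF, hFf⟩ := exists_HCurve hP hf fun z hz => (hX z hz).1
  have hFB : ∀ w ∈ HP, ∀ i ∈ B, F w i ≠ 0 := by
    intro w hw i hi h0
    obtain ⟨h1, h2⟩ := hFf w hw
    have h3 := (hX _ (top_mem hw)).2 i hi
    rw [h2, Pool.Agent.H17BP.vanishesAt_mk (isHomogeneous_X ℂ i) h1, eval_X] at h3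
    exact h3 h0
  -- the curve in the chart `b`
  set G : ℂ → Fin (N + 1) → ℂ := fun w => if w ∈ HP then (F w b)⁻¹ • F w else fun _ => 1 with hG
  have hGw : ∀ w ∈ HP, G w = (F w b)⁻¹ • F w := fun w hw => if_pos hw
  have hcurve : LCurve P B b G := by
    refine ⟨⟨fun w hw => ?_, fun w hw => ?_, fun w hw => ?_⟩, fun w => ?_, fun w hw i hi => ?_⟩
    · have h1 : AnalyticAt ℂ (fun w => (F w b)⁻¹ • F w) w :=
        ((analyticAt_pi_iff.1 (hF.an w hw) b).inv (hFB w hw b hb)).smul (hF.an w hw)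
      refine h1.congr ?_
      filter_upwards [top_isOpen_HP.mem_nhds hw] with y hy
      exact (hGw y hy).symm
    · rw [hGw w hw]
      exact ⟨smul_ne_zero (inv_ne_zero (hFB w hw b hb)) (hF.cone w hw).1, Pool.Agent.H13.SM.cone_smul hP (hF.cone w hw).2 _⟩
    · have h1 : w + per ∈ HP := by
        have hw' : 0 < w.re := hw
        show 0 < (w + per).re
        have h2 : per.re = 0 := by simp [per]
        rw [Complex.add_re, h2, add_zero]
        exact hw'
      rw [hGw w hw, hGw _ h1, hF.periodic w hw]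
    · by_cases hw : w ∈ HP
      · rw [hGw w hw, Pi.smul_apply, smul_eq_mul, inv_mul_cancel₀ (hFB w hw b hb)]
      · show (if w ∈ HP then (F w b)⁻¹ • F w else fun _ => 1) b = 1
        rw [if_neg hw]
    · rw [hGw w hw, Pi.smul_apply, smul_eq_mul]
      exact mul_ne_zero (inv_ne_zero (hFB w hw b hb)) (hFB w hw i hi)
  have hGf : ∀ w ∈ HP, ∃ h : G w ≠ 0, f (Complex.exp (-w) / 2) = Projectivization.mk ℂ (G w) h := by
    intro w hw
    obtain ⟨h1, h2⟩ := hFf w hw
    have h3 : (F w b)⁻¹ • F w ≠ 0 := smul_ne_zero (inv_ne_zero (hFB w hw b hb)) h1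
    have h4 : Projectivization.mk ℂ (F w) h1 = Projectivization.mk ℂ ((F w b)⁻¹ • F w) h3 := by
      rw [Projectivization.mk_eq_mk_iff']
      exact ⟨F w b, by rw [smul_smul, mul_inv_cancel₀ (hFB w hw b hb), one_smul]⟩
    obtain ⟨h5, h6⟩ := top_mk_congr (hGw w hw).symm h3
    exact ⟨h5, h2.trans (h4.trans h6)⟩
  rcases h G hcurve with ⟨a, L, ha, hL⟩ | h0
  · exact extends_of_lim hf hGf ha hL
  · exfalso
    obtain ⟨z, hz, hzR⟩ := hne
    apply hzR
    have h4 : (1 / 4 : ℂ) ∈ puncturedDisc := by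
      refine ⟨?_, ?_⟩
      · rw [mem_ball_zero_iff]
        norm_num
      · norm_num
    refine Pool.Agent.H36.BP.vanish_identity (S := {R}) Pool.Agent.H36.BP.preconnected_puncturedDisc hf (by rintro _ rfl; exact ⟨e, hR⟩)
      (z₀ := 1 / 4) h4 ?_ z hz R rfl
    have h5 : ∀ᶠ u in 𝓝 (1 / 4 : ℂ), u ≠ 0 ∧ ‖u‖ < 1 / 2 := by
      refine (continuousAt_id.eventually_ne (by norm_num)).and ?_
      exact continuous_norm.continuousAt.eventually_lt continuousAt_const (by norm_num)
    filter_upwards [h5] with u hu Q hQ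
    rw [Set.mem_singleton_iff.1 hQ]
    have h6 : Complex.exp (-(-Complex.log (2 * u))) / 2 = u := by
      rw [neg_neg, Complex.exp_log (mul_ne_zero two_ne_zero hu.1)]
      ring
    have h7 : -Complex.log (2 * u) ∈ HP := by
      show 0 < (-Complex.log (2 * u)).re
      rw [Complex.neg_re, Complex.log_re]
      have h8 : ‖2 * u‖ < 1 := by
        rw [norm_mul, Complex.norm_ofNat]
        linarith [hu.2]
      have h9 : 0 < ‖2 * u‖ := norm_pos_iff.2 (mul_ne_zero two_ne_zero hu.1)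
      linarith [Real.log_neg h9 h8]
    obtain ⟨h10, h11⟩ := hGf _ h7
    rw [h6] at h11
    rw [h11, Pool.Agent.H17BP.vanishesAt_mk hR]
    exact h0 _ h7

end Pool.Agent.GL

end

section

/-!
# GLS Dec: decomposition into generalized eigenvectors

PROOF.  The constants `k = {D a = 0}` of `M` are algebraically closed; induction on the degree of the polynomial `p` over `k` with `p (D) y = 0` (`Polynomial.sup_ker_aeval_eq_ker_aeval_mul_of_coprime`).
`exists_der_bar`: `GA.exists_ext` (GA/DerExt).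
-/

set_option autoImplicit false

open Polynomial

namespace Pool.Agent.GLS

section

variable {M : Type} [Field M] [Algebra ℂ M] (D : Derivation ℂ M M)

/-- the field of the constants -/
private def Dec_C : Subfield M where
  carrier := {x | D x = 0}
  mul_mem' := fun {a b} ha hb => by
    change D (a * b) = 0
    have ha' : D a = 0 := ha
    have hb' : D b = 0 := hb
    rw [D.leibniz, ha', hb', smul_zero, smul_zero, add_zero]
  one_mem' := D.map_one_eq_zero
  add_mem' := fun {a b} ha hb => by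
    change D (a + b) = 0
    have ha' : D a = 0 := ha
    have hb' : D b = 0 := hb
    rw [map_add, ha', hb', add_zero]
  zero_mem' := map_zero D
  neg_mem' := fun {a} ha => by
    change D (-a) = 0
    have ha' : D a = 0 := ha
    rw [map_neg, ha', neg_zero]
  inv_mem' := fun a ha => by
    change D a⁻¹ = 0
    have ha' : D a = 0 := ha
    rw [Derivation.leibniz_inv, ha', smul_zero]

private theorem Dec_mem (c : Dec_C D) : D (c : M) = 0 := c.2

/-- `D` as a linear map over the constants -/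
private def Dec_L : Module.End (Dec_C D) M where
  toFun := D
  map_add' := map_add D
  map_smul' := fun c x => by
    rw [RingHom.id_apply, Subfield.smul_def, smul_eq_mul, D.leibniz, Dec_mem D c, smul_zero, add_zero, smul_eq_mul]
    rfl

/-- elements algebraic over the constants are constants -/
private theorem Dec_alg {μ : M} (hμ : IsIntegral (Dec_C D) μ) : D μ = 0 := by
  have hz : ∀ p : (Dec_C D)[X], D (aeval μ p) = aeval μ (derivative p) * D μ := by
    intro p
    induction p using Polynomial.induction_on' with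
    | add p q hp hq => rw [map_add, map_add, hp, hq, derivative_add, map_add, add_mul]
    | monomial n a =>
      rw [aeval_monomial, derivative_monomial, aeval_monomial, D.leibniz, D.leibniz_pow]
      change _ + μ ^ n • D (a : M) = _
      rw [Dec_mem D a, smul_zero, add_zero, map_mul, map_natCast, smul_eq_mul, smul_eq_mul, nsmul_eq_mul]
      ring
  have h1 := hz (minpoly (Dec_C D) μ)
  rw [minpoly.aeval, map_zero] at h1
  have h2 : aeval μ (derivative (minpoly (Dec_C D) μ)) ≠ 0 := by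
    have _ : CharZero M := charZero_of_injective_algebraMap (algebraMap ℂ M).injective
    have _ : CharZero (Dec_C D) := (algebraMap (Dec_C D) M).charZero
    exact (minpoly.irreducible hμ).separable.aeval_derivative_ne_zero (minpoly.aeval _ _)
  exact (mul_eq_zero.1 h1.symm).resolve_left h2

private theorem Dec_gev {lam : Dec_C D} {k : ℕ} {e : M} (h : aeval (Dec_L D) ((X - C lam) ^ k) e = 0) : Gev D (lam : M) e := by
  refine ⟨k, ?_⟩
  rw [map_pow, map_sub, aeval_X, aeval_C, Module.End.pow_apply] at h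
  exact h

/-- the decomposition -/
private theorem Dec_ind [IsAlgClosed M] (n : ℕ) : ∀ p : (Dec_C D)[X], p.natDegree ≤ n → p ≠ 0 → ∀ y : M, aeval (Dec_L D) p y = 0 →
    ∃ (q : ℕ) (lam e : Fin q → M), (∀ i, D (lam i) = 0) ∧ (∀ i, Gev D (lam i) (e i)) ∧ y = ∑ i, e i := by
  induction n with
  | zero =>
    intro p hp hp0 y hy
    refine ⟨0, Fin.elim0, Fin.elim0, fun i => i.elim0, fun i => i.elim0, ?_⟩
    rw [Finset.univ_eq_empty, Finset.sum_empty]
    rw [eq_C_of_natDegree_le_zero hp, aeval_C, Module.algebraMap_end_apply] at hy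
    rcases smul_eq_zero.1 hy with h1 | h1
    · exfalso
      apply hp0
      rw [eq_C_of_natDegree_le_zero hp, h1, C_0]
    · exact h1
  | succ n ih =>
    intro p hp hp0 y hy
    by_cases hd : p.natDegree ≤ n
    · exact ih p hd hp0 y hy
    -- a root
    have hdeg : p.degree ≠ 0 := by
      intro h1
      have h2 : p.natDegree = 0 := natDegree_eq_of_degree_eq_some h1
      omega
    obtain ⟨μ, hμ⟩ := IsAlgClosed.exists_aeval_eq_zero M p hdeg
    have hμD : D μ = 0 := by
      refine Dec_alg D ?_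
      exact isAlgebraic_iff_isIntegral.1 ⟨p, hp0, hμ⟩
    set lam : Dec_C D := ⟨μ, hμD⟩ with hlam
    have hroot : p.IsRoot lam := by
      have h1 : algebraMap (Dec_C D) M (eval lam p) = 0 := by
        rw [← aeval_algebraMap_apply_eq_algebraMap_eval]
        exact hμ
      exact (map_eq_zero _).1 h1
    obtain ⟨q, hq, hqr⟩ := exists_eq_pow_rootMultiplicity_mul_and_not_dvd p hp0 lam
    set k := rootMultiplicity lam p with hk
    have hk0 : 0 < k := (rootMultiplicity_pos hp0).2 hroot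
    have hcop : IsCoprime ((X - C lam) ^ k) q := ((irreducible_X_sub_C lam).coprime_iff_not_dvd.2 hqr).pow_left
    have hq0 : q ≠ 0 := by
      rintro rfl
      exact hqr (dvd_zero _)
    have hqd : q.natDegree ≤ n := by
      have h1 : p.natDegree = k + q.natDegree := by
        conv_lhs => rw [hq]
        rw [natDegree_mul (pow_ne_zero _ (X_sub_C_ne_zero lam)) hq0, natDegree_pow, natDegree_X_sub_C, mul_one]
      omega
    have hker : y ∈ LinearMap.ker (aeval (Dec_L D) ((X - C lam) ^ k * q)) := by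
      rw [LinearMap.mem_ker, ← hq]
      exact hy
    rw [← Polynomial.sup_ker_aeval_eq_ker_aeval_mul_of_coprime _ hcop, Submodule.mem_sup] at hker
    obtain ⟨y₁, hy₁, y₂, hy₂, hyy⟩ := hker
    obtain ⟨r, l, e, hl, he, hs⟩ := ih q hqd hq0 y₂ (LinearMap.mem_ker.1 hy₂)
    refine ⟨r + 1, Fin.cons (lam : M) l, Fin.cons y₁ e, ?_, ?_, ?_⟩
    · intro i
      refine Fin.cases ?_ (fun i => ?_) i
      · rw [Fin.cons_zero]
        exact hμD
      · rw [Fin.cons_succ]
        exact hl i
    · intro i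
      refine Fin.cases ?_ (fun i => ?_) i
      · rw [Fin.cons_zero, Fin.cons_zero]
        exact Dec_gev D (LinearMap.mem_ker.1 hy₁)
      · rw [Fin.cons_succ, Fin.cons_succ]
        exact he i
    · rw [Fin.sum_univ_succ, Fin.cons_zero]
      simp only [Fin.cons_succ]
      rw [← hs, hyy]

end

theorem exists_der_bar {L : Type} [Field L] [Algebra ℂ L] (D : Derivation ℂ L L) : ∃ D' : Derivation ℂ (AlgebraicClosure L) (AlgebraicClosure L),
    ∀ x, D' (algebraMap L (AlgebraicClosure L) x) = algebraMap L (AlgebraicClosure L) (D x) := by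
  obtain ⟨D', hD'⟩ := Pool.Agent.GA.exists_ext (A := L) (E := AlgebraicClosure L) (algebraMap L (AlgebraicClosure L)).injective
    ((Algebra.linearMap L (AlgebraicClosure L)).compDer D)
  exact ⟨D', fun x => hD' x⟩

theorem exists_dec {M : Type} [Field M] [Algebra ℂ M] [IsAlgClosed M] (D : Derivation ℂ M M) {y : M} (hy : ConstRel D y) :
    ∃ (p : ℕ) (e lam : Fin p → M), (∀ i, D (lam i) = 0) ∧ (∀ i, Gev D (lam i) (e i)) ∧ y = ∑ i, e i := by
  obtain ⟨n, a, ha, hD, h⟩ := hy
  set b : Fin (n + 1) → Dec_C D := fun j => ⟨a j, hD j⟩ with hb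
  set p : (Dec_C D)[X] := ∑ j : Fin (n + 1), C (b j) * X ^ (j : ℕ) with hp
  have hcoef : ∀ j : Fin (n + 1), p.coeff (j : ℕ) = b j := by
    intro j
    rw [hp, finsetSum_coeff]
    simp only [coeff_C_mul, coeff_X_pow]
    rw [Finset.sum_eq_single j]
    · simp
    · intro i _ hij
      rw [if_neg (fun h => hij (Fin.ext h.symm)), mul_zero]
    · intro h
      exact absurd (Finset.mem_univ j) h
  have hp0 : p ≠ 0 := by
    intro h0
    apply ha
    funext j
    have h1 := hcoef j
    rw [h0, coeff_zero] at h1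
    exact (congrArg Subtype.val h1).symm
  suffices hs : aeval (Dec_L D) p y = 0 by
    obtain ⟨q, lam, e, h1, h2, h3⟩ := Dec_ind D p.natDegree p le_rfl hp0 y hs
    exact ⟨q, e, lam, h1, h2, h3⟩
  rw [hp, map_sum, LinearMap.sum_apply, ← h]
  refine Finset.sum_congr rfl fun j _ => ?_
  rw [map_mul, aeval_C, map_pow, aeval_X, Module.End.mul_apply, Module.algebraMap_end_apply, Module.End.pow_apply]
  rfl

end Pool.Agent.GLS

end

section

/-!
# GLS FldL: the vector fields are proportional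

PROOF.  Without fractions: modulo `𝔯` the vector `a = Dt I (v)` satisfies `vmat K · a = vdet I • rhs K` for every `K`, because `Dt I (G_l) ∈ CSL ⊆ 𝔯`; multiply by the adjugate
of `vmat K`: `vdet K • a = vdet I • Dt K (v)`.  So `vdet K • Dt I - vdet I • Dt K` is a derivation with values in `𝔯`, and `vdet I ∉ 𝔯`.
-/

set_option autoImplicit false

open MvPolynomial Topology Filter Metric
open Pool.Agent.H13.SM (conTan cone)
open Pool.Agent.H17 (PN VanishesAt HolomorphicInto puncturedDisc)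
open Pool.Agent.GG Pool.Agent.GA Pool.Agent.GL

namespace Pool.Agent.GLS

/-- a derivation is in the ideal as soon as it is on the variables -/
private theorem FldL_der {σ : Type} {I : Ideal (MvPolynomial σ ℂ)} (D : Derivation ℂ (MvPolynomial σ ℂ) (MvPolynomial σ ℂ)) (h : ∀ s, D (X s) ∈ I)
    (g : MvPolynomial σ ℂ) : D g ∈ I := by
  induction g using MvPolynomial.induction_on with
  | C a =>
    have h1 : D (C a) = 0 := by
      rw [← MvPolynomial.algebraMap_eq]
      exact D.map_algebraMap a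
    rw [h1]
    exact I.zero_mem
  | add p q hp hq =>
    rw [map_add]
    exact I.add_mem hp hq
  | mul_X p s hp =>
    rw [Derivation.leibniz, smul_eq_mul, smul_eq_mul]
    exact I.add_mem (I.mul_mem_left _ (h s)) (I.mul_mem_left _ hp)

private theorem FldL_sum {σ τ : Type} [Fintype τ] (D : τ → Derivation ℂ (MvPolynomial σ ℂ) (MvPolynomial σ ℂ)) (p : MvPolynomial σ ℂ) :
    (∑ s, D s) p = ∑ s, D s p := by
  have h := map_sum (Derivation.coeFnAddMonoidHom (R := ℂ) (A := MvPolynomial σ ℂ) (M := MvPolynomial σ ℂ)) D Finset.univ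
  have h1 := congrFun h p
  rw [Finset.sum_apply] at h1
  exact h1

/-- the derivative of a polynomial along a derivation -/
private theorem FldL_apply {σ : Type} [Fintype σ] (D : Derivation ℂ (MvPolynomial σ ℂ) (MvPolynomial σ ℂ)) (g : MvPolynomial σ ℂ) :
    D g = ∑ s, pderiv s g * D (X s) := by
  classical
  have h : D = ∑ s, D (X s) • pderiv (R := ℂ) s := by
    refine MvPolynomial.derivation_ext fun i => ?_
    rw [FldL_sum]
    simp only [Derivation.smul_apply, pderiv_X, smul_eq_mul]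
    rw [Finset.sum_eq_single i]
    · rw [Pi.single_eq_same, mul_one]
    · intro s _ hs
      rw [Pi.single_eq_of_ne (Ne.symm hs), mul_zero]
    · intro h
      exact absurd (Finset.mem_univ i) h
  have h2 : D g = (∑ s, D (X s) • pderiv (R := ℂ) s) g := congrArg (fun E : Derivation ℂ (MvPolynomial σ ℂ) (MvPolynomial σ ℂ) => E g) h
  rw [h2, FldL_sum]
  exact Finset.sum_congr rfl fun s _ => by rw [Derivation.smul_apply, smul_eq_mul, mul_comm]

section

variable {n : ℕ} {ι : Type} {G : ι → MvPolynomial (Ph n) ℂ} {I : Fin (n + 1) → ι} {𝔯 : Ideal (MvPolynomial (Ph n) ℂ)}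

private theorem FldL_inl (J : Fin (n + 1) → ι) (i : Fin (n + 1)) : Dt G J (X (Sum.inl i)) = vdet G J * X (Sum.inr i) := mkDerivation_X ℂ _ _

private theorem FldL_inr (J : Fin (n + 1) → ι) (i : Fin (n + 1)) : Dt G J (X (Sum.inr i)) = ((vmat G J).adjugate.mulVec (rhs G J)) i := mkDerivation_X ℂ _ _

/-- modulo `𝔯` the accelerations are proportional -/
private theorem FldL_acc (h : ∀ l, Dt G I (G l) ∈ 𝔯) (K : Fin (n + 1) → ι) (i : Fin (n + 1)) :
    vdet G K * Dt G I (X (Sum.inr i)) - vdet G I * Dt G K (X (Sum.inr i)) ∈ 𝔯 := by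
  -- the rows
  have h1 : ∀ l, (vmat G K).mulVec (fun i => Dt G I (X (Sum.inr i))) l - vdet G I * rhs G K l ∈ 𝔯 := by
    intro l
    have h2 : Dt G I (G (K l)) = (vmat G K).mulVec (fun i => Dt G I (X (Sum.inr i))) l - vdet G I * rhs G K l := by
      rw [FldL_apply, Fintype.sum_sum_type, Matrix.mulVec, dotProduct, rhs]
      have h3 : ∑ x, pderiv (Sum.inl x : Ph n) (G (K l)) * Dt G I (X (Sum.inl x)) = vdet G I * ∑ b, pderiv (Sum.inl b : Ph n) (G (K l)) * X (Sum.inr b) := by
        rw [Finset.mul_sum]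
        refine Finset.sum_congr rfl fun x _ => ?_
        rw [FldL_inl]
        ring
      rw [h3]
      have h4 : ∀ x, vmat G K l x = pderiv (Sum.inr x : Ph n) (G (K l)) := fun _ => rfl
      simp only [h4]
      ring
    rw [← h2]
    exact h _
  -- the adjugate
  have h5 : ((vmat G K).adjugate.mulVec ((vmat G K).mulVec (fun i => Dt G I (X (Sum.inr i))))) i = vdet G K * Dt G I (X (Sum.inr i)) := by
    rw [Matrix.mulVec_mulVec, Matrix.adjugate_mul, Matrix.smul_mulVec, Matrix.one_mulVec]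
    rfl
  rw [← h5, FldL_inr K, Matrix.mulVec, Matrix.mulVec, dotProduct, dotProduct, Finset.mul_sum, ← Finset.sum_sub_distrib]
  refine Ideal.sum_mem _ fun l _ => ?_
  have h6 : (vmat G K).adjugate i l * (vmat G K).mulVec (fun i => Dt G I (X (Sum.inr i))) l - vdet G I * ((vmat G K).adjugate i l * rhs G K l) =
      (vmat G K).adjugate i l * ((vmat G K).mulVec (fun i => Dt G I (X (Sum.inr i))) l - vdet G I * rhs G K l) := by ring
  rw [h6]
  exact 𝔯.mul_mem_left _ (h1 l)

private theorem FldL_cross (h : ∀ l, Dt G I (G l) ∈ 𝔯) (K : Fin (n + 1) → ι) (g : MvPolynomial (Ph n) ℂ) :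
    vdet G K * Dt G I g - vdet G I * Dt G K g ∈ 𝔯 := by
  refine FldL_der (vdet G K • Dt G I - vdet G I • Dt G K) (fun s => ?_) g
  rw [Derivation.sub_apply, Derivation.smul_apply, Derivation.smul_apply, smul_eq_mul, smul_eq_mul]
  rcases s with s | s
  · rw [FldL_inl, FldL_inl]
    have h1 : vdet G K * (vdet G I * X (Sum.inr s)) - vdet G I * (vdet G K * X (Sum.inr s)) = (0 : MvPolynomial (Ph n) ℂ) := by ring
    rw [h1]
    exact 𝔯.zero_mem
  · exact FldL_acc h K s

end

variable {N : ℕ} {P : Ideal (MvPolynomial (Fin (N + 1)) ℂ)} {B : Finset (Fin (N + 1))} {J : ℕ} {m : Fin J → ℕ} {θ : ∀ k, LogSec P B (m k)} {b : Fin (N + 1)}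

theorem lsol_of_slice (f : LFrame θ b) {I : Fin (N + 2) → GIx f.q J} {𝔯 : Ideal (MvPolynomial (Ph (N + 1)) ℂ)} (h𝔯 : 𝔯.IsPrime) (hC : CSL f I ⊆ 𝔯) {i₀ : Fin (N + 1)}
    (hv : vdet (gfamL f) I * X (Sum.inr i₀.castSucc) ∉ 𝔯) (hst : ∀ g ∈ 𝔯, Dt (gfamL f) I g ∈ 𝔯) : LSol f 𝔯 := by
  have h0 : ∀ l, Dt (gfamL f) I (gfamL f l) ∈ 𝔯 := fun l => hC (Or.inr ⟨l, 0, rfl⟩)
  have hI : vdet (gfamL f) I ∉ 𝔯 := fun h => hv (𝔯.mul_mem_right _ h)
  have hc := FldL_cross (I := I) h0
  have hd : ∀ (K : Fin (N + 2) → GIx f.q J) (g : MvPolynomial (Ph (N + 1)) ℂ), Dt (gfamL f) I g ∈ 𝔯 → Dt (gfamL f) K g ∈ 𝔯 := by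
    intro K g hg
    have h1 : vdet (gfamL f) I * Dt (gfamL f) K g ∈ 𝔯 := by
      have h2 := 𝔯.sub_mem (𝔯.mul_mem_left (vdet (gfamL f) K) hg) (hc K g)
      rwa [sub_sub_cancel] at h2
    exact (h𝔯.mem_or_mem h1).resolve_left hI
  refine ⟨h𝔯, fun l => hC (Or.inl ⟨l, rfl⟩), fun K g hg => hd K g (hst g hg), fun K l => hd K _ (h0 l), fun K K' g => ?_, i₀, fun h => hv (𝔯.mul_mem_left _ h)⟩
  have h1 : vdet (gfamL f) I * (vdet (gfamL f) K * Dt (gfamL f) K' g - vdet (gfamL f) K' * Dt (gfamL f) K g) ∈ 𝔯 := by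
    have h2 := 𝔯.sub_mem (𝔯.mul_mem_left (vdet (gfamL f) K') (hc K g)) (𝔯.mul_mem_left (vdet (gfamL f) K) (hc K' g))
    have e : vdet (gfamL f) I * (vdet (gfamL f) K * Dt (gfamL f) K' g - vdet (gfamL f) K' * Dt (gfamL f) K g) =
        vdet (gfamL f) K' * (vdet (gfamL f) K * Dt (gfamL f) I g - vdet (gfamL f) I * Dt (gfamL f) K g) -
          vdet (gfamL f) K * (vdet (gfamL f) K' * Dt (gfamL f) I g - vdet (gfamL f) I * Dt (gfamL f) K' g) := by ring
    rw [e]
    exact h2
  exact (h𝔯.mem_or_mem h1).resolve_left hI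

end Pool.Agent.GLS

end

section

/-!
# GLS Hnk: the Hankel determinants vanish

PROOF.  Fix `w₀`, `𝔪` = the ideal of `w₀`, `V = flat D 𝔪` (`GQ.Flat`: prime, stable; contains `𝔯`, `c - c (w₀)`, `h k - h k (w₀)`).  For `w ∈ Zr V` the orbit `Y` and the Cauchy estimate on `‖z‖ < r / 2` give
`‖eval w (D^k g)‖ ≤ k! (2 / r)^k C' (1 + ‖w‖) ^ κ'`, with `κ'` independent of `k` (`eval w (D^k g)` is the `k`-th derivative of `eval (Y z) g` at `0`).  `fd`: `∑_(j ≤ n) a_j D^j g ∈ V`, `a ≠ 0`; apply `D^i` and evaluate at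
`w₀`: the matrix `(D^(i+j) g) (w₀)` is singular.  `exists_hk_mem`: `exists_avoid` for `f_j = c * hk D j g`.
-/

set_option autoImplicit false

open MvPolynomial Topology Filter Metric
open Pool.Agent.H13.SM (conTan cone)
open Pool.Agent.H17 (PN VanishesAt HolomorphicInto puncturedDisc)
open Pool.Agent.GG Pool.Agent.GA Pool.Agent.GL Pool.Agent.GQ

namespace Pool.Agent.GLS

variable {τ : Type} [Fintype τ]

omit [Fintype τ] in
/-- the derivative of a polynomial along an orbit -/
private theorem Hnk_deriv {D : Derivation ℂ (MvPolynomial τ ℂ) (MvPolynomial τ ℂ)} {Y : ℂ → τ → ℂ} {z : ℂ}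
    (hY : HasDerivAt Y (fun s => eval (Y z) (D (X s))) z) (g : MvPolynomial τ ℂ) : HasDerivAt (fun z => eval (Y z) g) (eval (Y z) (D g)) z := by
  induction g using MvPolynomial.induction_on with
  | C a =>
    have h1 : D (C a) = 0 := by
      rw [← algebraMap_eq]
      exact Derivation.map_algebraMap _ _
    simp only [eval_C, h1, map_zero]
    exact hasDerivAt_const z a
  | add p q hp hq =>
    simp only [map_add]
    exact hp.add hq
  | mul_X p i hp =>
    have h1 : HasDerivAt (fun z => Y z i) (eval (Y z) (D (X i))) z := hasDerivAt_pi.1 hY i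
    have h2 := hp.mul h1
    have h4 : eval (Y z) (D (p * X i)) = eval (Y z) (D p) * Y z i + eval (Y z) p * eval (Y z) (D (X i)) := by
      rw [Derivation.leibniz, smul_eq_mul, smul_eq_mul, map_add, map_mul, map_mul, eval_X]
      ring
    rw [h4]
    have h5 : (fun z => eval (Y z) (p * X i)) = (fun z => eval (Y z) p) * fun z => Y z i := by
      funext s
      simp
    rw [h5]
    exact h2

omit [Fintype τ] in
/-- the iterated derivatives along an orbit -/
private theorem Hnk_iter {D : Derivation ℂ (MvPolynomial τ ℂ) (MvPolynomial τ ℂ)} {Y : ℂ → τ → ℂ} {r : ℝ}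
    (hY : ∀ z ∈ ball (0 : ℂ) r, HasDerivAt Y (fun s => eval (Y z) (D (X s))) z) (g : MvPolynomial τ ℂ) (k : ℕ) :
    ∀ z ∈ ball (0 : ℂ) r, iteratedDeriv k (fun z => eval (Y z) g) z = eval (Y z) ((⇑D)^[k] g) := by
  induction k with
  | zero =>
    intro z _
    simp
  | succ k ih =>
    intro z hz
    have h1 : iteratedDeriv k (fun z => eval (Y z) g) =ᶠ[𝓝 z] fun z => eval (Y z) ((⇑D)^[k] g) := by
      filter_upwards [isOpen_ball.mem_nhds hz] with w hw
      exact ih w hw
    rw [iteratedDeriv_succ, h1.deriv_eq, Function.iterate_succ_apply']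
    exact (Hnk_deriv (hY z hz) _).deriv

/-- polynomials have polynomial growth -/
private theorem Hnk_growth (g : MvPolynomial τ ℂ) : ∃ (C : ℝ) (e : ℕ), 0 ≤ C ∧ ∀ y : τ → ℂ, ‖eval y g‖ ≤ C * (1 + ‖y‖) ^ e := by
  induction g using MvPolynomial.induction_on with
  | C a => exact ⟨‖a‖, 0, norm_nonneg _, fun y => by simp⟩
  | add p q hp hq =>
    obtain ⟨C₁, e₁, h1, h1'⟩ := hp
    obtain ⟨C₂, e₂, h2, h2'⟩ := hq
    refine ⟨C₁ + C₂, e₁ + e₂, by positivity, fun y => ?_⟩
    have hy : (1 : ℝ) ≤ 1 + ‖y‖ := by linarith [norm_nonneg y]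
    have h3 : (1 + ‖y‖) ^ e₁ ≤ (1 + ‖y‖) ^ (e₁ + e₂) := pow_le_pow_right₀ hy (by omega)
    have h4 : (1 + ‖y‖) ^ e₂ ≤ (1 + ‖y‖) ^ (e₁ + e₂) := pow_le_pow_right₀ hy (by omega)
    rw [map_add]
    calc ‖eval y p + eval y q‖ ≤ ‖eval y p‖ + ‖eval y q‖ := norm_add_le _ _
      _ ≤ C₁ * (1 + ‖y‖) ^ e₁ + C₂ * (1 + ‖y‖) ^ e₂ := add_le_add (h1' y) (h2' y)
      _ ≤ C₁ * (1 + ‖y‖) ^ (e₁ + e₂) + C₂ * (1 + ‖y‖) ^ (e₁ + e₂) := by gcongr
      _ = (C₁ + C₂) * (1 + ‖y‖) ^ (e₁ + e₂) := by ring
  | mul_X p i hp =>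
    obtain ⟨C₁, e₁, h1, h1'⟩ := hp
    refine ⟨C₁, e₁ + 1, h1, fun y => ?_⟩
    rw [map_mul, eval_X, norm_mul, pow_succ]
    have h2 : ‖y i‖ ≤ 1 + ‖y‖ := by linarith [norm_le_pi_norm y i]
    calc ‖eval y p‖ * ‖y i‖ ≤ C₁ * (1 + ‖y‖) ^ e₁ * (1 + ‖y‖) := mul_le_mul (h1' y) h2 (norm_nonneg _) (by positivity)
      _ = C₁ * ((1 + ‖y‖) ^ e₁ * (1 + ‖y‖)) := by ring

theorem exists_hk_eval {𝔯 : Ideal (MvPolynomial τ ℂ)} {D : Derivation ℂ (MvPolynomial τ ℂ) (MvPolynomial τ ℂ)} {c : MvPolynomial τ ℂ} {J : ℕ} {h : Fin J → MvPolynomial τ ℂ}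
    (H : Orbs 𝔯 D c h) (g : MvPolynomial τ ℂ) {w₀ : τ → ℂ} (hw : Zr 𝔯 w₀) (hc : eval w₀ c ≠ 0) : ∃ n, eval w₀ (hk D n g) = 0 := by
  classical
  obtain ⟨𝔪, h𝔪⟩ : ∃ 𝔪 : Ideal (MvPolynomial τ ℂ), 𝔪 = RingHom.ker (eval w₀) := ⟨_, rfl⟩
  have hm : ∀ p, p ∈ 𝔪 ↔ eval w₀ p = 0 := fun p => by rw [h𝔪, RingHom.mem_ker]
  have hprime : 𝔪.IsPrime := by
    rw [h𝔪]
    exact RingHom.ker_isPrime _
  have hr𝔪 : 𝔯 ≤ 𝔪 := fun p hp => (hm p).2 (hw p hp)
  have hr : 𝔯 ≤ flat D 𝔪 := le_flat hr𝔪 H.stable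
  have hcst : ∀ p : MvPolynomial τ ℂ, D p ∈ 𝔯 → p - C (eval w₀ p) ∈ flat D 𝔪 := by
    intro p hp n
    cases n with
    | zero =>
      rw [Function.iterate_zero, id_eq, hm]
      simp
    | succ n =>
      rw [Function.iterate_succ_apply]
      have h1 : D (p - C (eval w₀ p)) = D p := by
        rw [map_sub, ← algebraMap_eq, Derivation.map_algebraMap, sub_zero]
      rw [h1]
      exact hr hp n
  obtain ⟨r, K, κ, hr0, horb⟩ := H.orbit w₀ hw hc
  obtain ⟨A, e, hA, hgr⟩ := Hnk_growth g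
  have key : ∀ k : ℕ, ∃ C : ℝ, ∀ w : τ → ℂ, Zr (flat D 𝔪) w → ‖eval w ((⇑D)^[k] g)‖ ≤ C * (1 + ‖w‖) ^ (κ * e) := by
    intro k
    refine ⟨k.factorial * (A * (1 + |K|) ^ e) / (r / 2) ^ k, fun w hw' => ?_⟩
    have h1 : Zr 𝔯 w := fun p hp => hw' p (hr hp)
    have h2 : ∀ p : MvPolynomial τ ℂ, D p ∈ 𝔯 → eval w p = eval w₀ p := by
      intro p hp
      have := hw' _ (hcst p hp)
      rw [map_sub, eval_C] at this
      exact sub_eq_zero.1 this
    obtain ⟨Y, hY0, hYd, hYb⟩ := horb w h1 (h2 c H.constc) fun k => h2 _ (H.const k)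
    have hw1 : (1 : ℝ) ≤ (1 + ‖w‖) ^ κ := one_le_pow₀ (by linarith [norm_nonneg w])
    have hbd : ∀ z ∈ ball (0 : ℂ) r, ‖eval (Y z) g‖ ≤ A * (1 + |K|) ^ e * (1 + ‖w‖) ^ (κ * e) := by
      intro z hz
      have h3 : 1 + ‖Y z‖ ≤ (1 + |K|) * (1 + ‖w‖) ^ κ := by
        have h4 := hYb z hz
        have h5 : K * (1 + ‖w‖) ^ κ ≤ |K| * (1 + ‖w‖) ^ κ := mul_le_mul_of_nonneg_right (le_abs_self K) (by positivity)
        linarith
      calc ‖eval (Y z) g‖ ≤ A * (1 + ‖Y z‖) ^ e := hgr _
        _ ≤ A * ((1 + |K|) * (1 + ‖w‖) ^ κ) ^ e := by gcongr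
        _ = A * (1 + |K|) ^ e * (1 + ‖w‖) ^ (κ * e) := by rw [mul_pow, ← pow_mul, mul_assoc]
    have hd : DifferentiableOn ℂ (fun z => eval (Y z) g) (ball 0 r) := fun z hz => (Hnk_deriv (hYd z hz) g).differentiableAt.differentiableWithinAt
    have hsub : closedBall (0 : ℂ) (r / 2) ⊆ ball 0 r := closedBall_subset_ball (by linarith)
    have hdc : DiffContOnCl ℂ (fun z => eval (Y z) g) (ball 0 (r / 2)) := by
      refine DifferentiableOn.diffContOnCl (hd.mono ?_)
      rw [closure_ball _ (by positivity)]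
      exact hsub
    have h3 := Complex.norm_iteratedDeriv_le_of_forall_mem_sphere_norm_le (c := (0 : ℂ)) (R := r / 2)
      (C := A * (1 + |K|) ^ e * (1 + ‖w‖) ^ (κ * e)) k (by positivity) hdc fun z hz => hbd z (hsub (sphere_subset_closedBall hz))
    rw [Hnk_iter hYd g k 0 (mem_ball_self hr0), hY0] at h3
    refine h3.trans (le_of_eq ?_)
    ring
  obtain ⟨n, hn⟩ := fd (flat D 𝔪) (κ * e)
  obtain ⟨a, ha, hsum⟩ := hn (fun i => (⇑D)^[(i : ℕ)] g) fun i => key i
  refine ⟨n, ?_⟩
  rw [hk, RingHom.map_det]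
  refine Matrix.exists_mulVec_eq_zero_iff.1 ⟨a, ha, ?_⟩
  funext i
  have h1 : (⇑D)^[(i : ℕ)] (∑ j, C (a j) * (⇑D)^[(j : ℕ)] g) ∈ 𝔪 := hsum i
  rw [hm] at h1
  have h2 : ∀ (k : ℕ) (x : ℂ) (p : MvPolynomial τ ℂ), (⇑D)^[k] (C x * p) = C x * (⇑D)^[k] p := by
    intro k x p
    induction k with
    | zero => rfl
    | succ k ih =>
      rw [Function.iterate_succ_apply', ih, Function.iterate_succ_apply', ← smul_eq_C_mul, Derivation.map_smul, smul_eq_C_mul]
  have h3 : (⇑D)^[(i : ℕ)] (∑ j, C (a j) * (⇑D)^[(j : ℕ)] g) = ∑ j, C (a j) * (⇑D)^[(i : ℕ) + j] g := by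
    have h4 : ∀ (k : ℕ) (s : Finset (Fin (n + 1))) (F : Fin (n + 1) → MvPolynomial τ ℂ), (⇑D)^[k] (∑ j ∈ s, F j) = ∑ j ∈ s, (⇑D)^[k] (F j) := by
      intro k s F
      induction k with
      | zero => rfl
      | succ k ih =>
        rw [Function.iterate_succ_apply', ih, map_sum]
        exact Finset.sum_congr rfl fun j _ => by rw [Function.iterate_succ_apply']
    rw [h4]
    refine Finset.sum_congr rfl fun j _ => ?_
    rw [h2, Function.iterate_add_apply]
  rw [h3, map_sum] at h1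
  rw [Pi.zero_apply, ← h1]
  simp only [Matrix.mulVec, dotProduct]
  refine Finset.sum_congr rfl fun j _ => ?_
  rw [map_mul, eval_C, mul_comm]
  rfl

theorem exists_hk_mem {𝔯 : Ideal (MvPolynomial τ ℂ)} [𝔯.IsPrime] {D : Derivation ℂ (MvPolynomial τ ℂ) (MvPolynomial τ ℂ)} {c : MvPolynomial τ ℂ} {J : ℕ} {h : Fin J → MvPolynomial τ ℂ}
    (H : Orbs 𝔯 D c h) (hc : c ∉ 𝔯) (g : MvPolynomial τ ℂ) : ∃ n, hk D n g ∈ 𝔯 := by
  by_contra hcon
  push Not at hcon
  obtain ⟨w, hw, hne⟩ := exists_avoid 𝔯 (fun j => c * hk D j g) fun j hj => by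
    rcases Ideal.IsPrime.mem_or_mem inferInstance hj with h1 | h1
    · exact hc h1
    · exact hcon j h1
  have hcw : eval w c ≠ 0 := by
    intro h0
    apply hne 0
    rw [map_mul, h0, zero_mul]
  obtain ⟨n, hn⟩ := exists_hk_eval H g hw hcw
  apply hne n
  rw [map_mul, hn, mul_zero]

end Pool.Agent.GLS

end

section

/-!
# GLS Fam: a finite family of generalized eigenvectors

`Dec.exists_dec` for every coordinate; if all `e i` with `lam i ≠ 0` are `0`, then every coordinate is killed by a power of `D`.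
-/

set_option autoImplicit false

open MvPolynomial Topology Filter Metric

namespace Pool.Agent.GLS

theorem exists_family {M : Type} [Field M] [Algebra ℂ M] [IsAlgClosed M] (D : Derivation ℂ M M) {τ : Type} [Fintype τ] (y : τ → M) (h : ∀ s, ConstRel D (y s)) (hn : ∃ s, ∀ n, (⇑D)^[n] (y s) ≠ 0) :
    ∃ (p : ℕ) (lam e : Fin p → M), (∀ i, D (lam i) = 0) ∧ (∀ i, Gev D (lam i) (e i)) ∧ (∀ s, y s ∈ Submodule.span ℂ (Set.range e)) ∧ ∃ i, e i ≠ 0 ∧ lam i ≠ 0 := by
  classical
  choose q e lam h1 h2 h3 using fun s => exists_dec D (h s)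
  let ε : (Σ s : τ, Fin (q s)) ≃ Fin (Fintype.card (Σ s : τ, Fin (q s))) := Fintype.equivFin _
  let E : (Σ s : τ, Fin (q s)) → M := fun x => e x.1 x.2
  let L : (Σ s : τ, Fin (q s)) → M := fun x => lam x.1 x.2
  have hE : ∀ x, E (ε.symm (ε x)) = E x := fun x => congrArg E (ε.symm_apply_apply x)
  have hL : ∀ x, L (ε.symm (ε x)) = L x := fun x => congrArg L (ε.symm_apply_apply x)
  refine ⟨Fintype.card (Σ s : τ, Fin (q s)), fun j => L (ε.symm j), fun j => E (ε.symm j), fun j => h1 _ _, fun j => h2 _ _, ?_, ?_⟩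
  · intro s
    rw [h3 s]
    exact Submodule.sum_mem _ fun i _ => Submodule.subset_span ⟨ε ⟨s, i⟩, hE ⟨s, i⟩⟩
  · by_contra hcon
    obtain ⟨s, hs⟩ := hn
    have h4 : ∀ i : Fin (q s), Gev D 0 (e s i) := by
      intro i
      by_cases h0 : e s i = 0
      · rw [h0]
        exact Gev.const (map_zero D)
      · have h5 : lam s i = 0 := by
          by_contra h6
          apply hcon
          refine ⟨ε ⟨s, i⟩, ?_, ?_⟩
          · exact fun h10 => h0 ((hE ⟨s, i⟩).symm.trans h10)
          · exact fun h10 => h6 ((hL ⟨s, i⟩).symm.trans h10)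
        have h7 := h2 s i
        rwa [h5] at h7
    have h8 : ∀ t : Finset (Fin (q s)), Gev D 0 (∑ i ∈ t, e s i) := by
      intro t
      induction t using Finset.induction with
      | empty =>
        rw [Finset.sum_empty]
        exact Gev.const (map_zero D)
      | insert a t ha ih =>
        rw [Finset.sum_insert ha]
        exact Gev.add (map_zero D) (h4 a) ih
    obtain ⟨n, hn⟩ := h8 Finset.univ
    rw [← h3 s] at hn
    apply hs n
    have h9 : (fun x => D x - 0 * x) = (⇑D) := by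
      funext x
      rw [zero_mul, sub_zero]
    rw [h9] at hn
    exact hn

end Pool.Agent.GLS

end

section

/-!
# GLS Grd: the relations are graded

PROOF.  `aeval e (weightedHomogeneousComponent lam μ G)` is a generalized eigenvector with the eigenvalue `μ` (`Gev.mul`, `Gev.add`), the sum over `μ` is `aeval e G = 0`: `Gev.indep`.  Integer weights: a `ℚ`-linear functional
`φ : M → ℚ` with `φ (lam i₀) ≠ 0`, times a common denominator of the `φ (lam i)`; a component for `ν` is a sum of components for `lam`.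
-/

set_option autoImplicit false

open MvPolynomial Topology Filter Metric
open Pool.Agent.H13.SM (conTan cone)
open Pool.Agent.H17 (PN VanishesAt HolomorphicInto puncturedDisc)
open Pool.Agent.GG Pool.Agent.GA Pool.Agent.GL

namespace Pool.Agent.GLS

variable {M : Type} [Field M] [Algebra ℂ M] {D : Derivation ℂ M M} {p : ℕ} {e lam : Fin p → M}

private theorem gev_alg (D : Derivation ℂ M M) (c : ℂ) : Gev D 0 (algebraMap ℂ M c) := ⟨1, by simp⟩

private theorem gev_zero (D : Derivation ℂ M M) (lam : M) : Gev D lam 0 := ⟨0, rfl⟩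

private theorem gev_pow {lam a : M} (hl : D lam = 0) (ha : Gev D lam a) (n : ℕ) : Gev D (n • lam) (a ^ n) := by
  induction n with
  | zero =>
    have h := gev_alg D 1
    rw [map_one] at h
    simpa using h
  | succ n ih =>
    rw [pow_succ, succ_nsmul]
    exact ih.mul (by simp [hl]) hl ha

private theorem deriv_weight (hlam : ∀ i, D (lam i) = 0) (d : Fin p →₀ ℕ) : D (Finsupp.weight lam d) = 0 := by
  rw [Finsupp.weight_apply, Finsupp.sum, map_sum]
  refine Finset.sum_eq_zero fun i _ => ?_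
  rw [map_nsmul, hlam, smul_zero]

private theorem gev_prod (hlam : ∀ i, D (lam i) = 0) (he : ∀ i, Gev D (lam i) (e i)) (d : Fin p →₀ ℕ) :
    Gev D (Finsupp.weight lam d) (d.prod fun i k => e i ^ k) := by
  classical
  rw [Finsupp.weight_apply]
  unfold Finsupp.sum Finsupp.prod
  have key : ∀ T : Finset (Fin p), Gev D (∑ i ∈ T, d i • lam i) (∏ i ∈ T, e i ^ d i) ∧ D (∑ i ∈ T, d i • lam i) = 0 := by
    intro T
    induction T using Finset.induction_on with
    | empty =>
      have h := gev_alg D 1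
      rw [map_one] at h
      simpa using h
    | insert i T hi ih =>
      rw [Finset.sum_insert hi, Finset.prod_insert hi]
      have h1 : D (d i • lam i) = 0 := by rw [map_nsmul, hlam, smul_zero]
      exact ⟨(gev_pow (hlam i) (he i) _).mul h1 ih.2 ih.1, by rw [map_add, h1, ih.2, add_zero]⟩
  exact (key _).1

private theorem gev_component (hlam : ∀ i, D (lam i) = 0) (he : ∀ i, Gev D (lam i) (e i)) (G : MvPolynomial (Fin p) ℂ) (μ : M) :
    Gev D μ (aeval e (weightedHomogeneousComponent lam μ G)) := by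
  classical
  rw [weightedHomogeneousComponent_apply, map_sum]
  have key : ∀ T : Finset (Fin p →₀ ℕ), (∀ d ∈ T, Finsupp.weight lam d = μ) → Gev D μ (∑ d ∈ T, aeval e (monomial d (coeff d G))) := by
    intro T
    induction T using Finset.induction_on with
    | empty =>
      intro _
      simpa using gev_zero D μ
    | insert d T hd ih =>
      intro hT
      rw [Finset.sum_insert hd]
      have h0 : D μ = 0 := by
        rw [← hT d (Finset.mem_insert_self _ _)]
        exact deriv_weight hlam d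
      refine Gev.add h0 ?_ (ih fun d' hd' => hT d' (Finset.mem_insert_of_mem hd'))
      rw [aeval_monomial]
      have h1 := (gev_alg D (coeff d G)).mul (by simp) (deriv_weight hlam d) (gev_prod hlam he d)
      rwa [zero_add, hT d (Finset.mem_insert_self _ _)] at h1
  exact key _ fun d hd => (Finset.mem_filter.1 hd).2

/-- the sum over the weights of a finite set -/
private theorem sum_component {W : Type} [AddCommMonoid W] [DecidableEq W] (w : Fin p → W) (G : MvPolynomial (Fin p) ℂ) :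
    ∑ μ ∈ G.support.image (Finsupp.weight w), weightedHomogeneousComponent w μ G = G := by
  classical
  ext d
  rw [coeff_sum]
  simp only [coeff_weightedHomogeneousComponent]
  rw [Finset.sum_ite_eq]
  by_cases hd : d ∈ G.support
  · rw [if_pos (Finset.mem_image_of_mem _ hd)]
  · rw [notMem_support_iff.1 hd, ite_self]

/-- the relations are graded by the eigenvalues -/
private theorem rel_graded (hlam : ∀ i, D (lam i) = 0) (he : ∀ i, Gev D (lam i) (e i)) {G : MvPolynomial (Fin p) ℂ} (hG : aeval e G = 0) (μ : M) :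
    aeval e (weightedHomogeneousComponent lam μ G) = 0 := by
  classical
  by_cases hμ : μ ∈ G.support.image (Finsupp.weight lam)
  · have h1 : ∑ μ ∈ G.support.image (Finsupp.weight lam), aeval e (weightedHomogeneousComponent lam μ G) = 0 := by
      rw [← map_sum, sum_component, hG]
    refine Gev.indep (D := D) (x := fun μ => aeval e (weightedHomogeneousComponent lam μ G)) (fun ν hν => ?_) (fun ν _ => gev_component hlam he G ν) h1 μ hμ
    obtain ⟨d, -, rfl⟩ := Finset.mem_image.1 hν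
    exact deriv_weight hlam d
  · rw [weightedHomogeneousComponent_eq_zero' μ G fun d hd h => hμ (Finset.mem_image.2 ⟨d, hd, h⟩), map_zero]

/-- integer weights -/
private theorem exists_int0 (lam : Fin p → M) {i₀ : Fin p} (h0 : lam i₀ ≠ 0) :
    ∃ (φ : M →+ ℚ) (c : ℚ) (ν : Fin p → ℤ), ν i₀ ≠ 0 ∧ ∀ i, (ν i : ℚ) = c * φ (lam i) := by
  have : CharZero M := charZero_of_injective_algebraMap (algebraMap ℂ M).injective
  obtain ⟨f, hf⟩ : ∃ f : Module.Dual ℚ M, f (lam i₀) ≠ 0 := by
    by_contra hcon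
    push Not at hcon
    exact h0 ((Module.forall_dual_apply_eq_zero_iff ℚ (lam i₀)).1 hcon)
  have key : ∀ i, ∃ n : ℤ, (n : ℚ) = (∏ l, ((f (lam l)).den : ℚ)) * f (lam i) := by
    intro i
    refine ⟨(∏ l ∈ Finset.univ.erase i, ((f (lam l)).den : ℤ)) * (f (lam i)).num, ?_⟩
    rw [← Finset.mul_prod_erase Finset.univ _ (Finset.mem_univ i)]
    push_cast
    have h1 : ((f (lam i)).den : ℚ) * f (lam i) = (f (lam i)).num := by
      rw [mul_comm]
      exact Rat.mul_den_eq_num _
    rw [← h1]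
    ring
  choose ν hν using key
  refine ⟨f.toAddMonoidHom, ∏ l, ((f (lam l)).den : ℚ), ν, fun h => ?_, hν⟩
  have h1 := hν i₀
  rw [h] at h1
  push_cast at h1
  rcases mul_eq_zero.1 h1.symm with h2 | h2
  · obtain ⟨l, -, hl⟩ := Finset.prod_eq_zero_iff.1 h2
    exact (f (lam l)).den_nz (by exact_mod_cast hl)
  · exact hf h2

/-- the relations are graded by integers -/
private theorem rel_int (hG' : ∀ (G : MvPolynomial (Fin p) ℂ), aeval e G = 0 → ∀ μ : M, aeval e (weightedHomogeneousComponent lam μ G) = 0)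
    {φ : M →+ ℚ} {c : ℚ} {ν : Fin p → ℤ} (hν : ∀ i, (ν i : ℚ) = c * φ (lam i)) {G : MvPolynomial (Fin p) ℂ} (hG : aeval e G = 0) (n : ℤ) :
    aeval e (weightedHomogeneousComponent ν n G) = 0 := by
  classical
  have hw : ∀ d : Fin p →₀ ℕ, ((Finsupp.weight ν d : ℤ) : ℚ) = c * φ (Finsupp.weight lam d) := by
    intro d
    rw [Finsupp.weight_apply, Finsupp.weight_apply, Finsupp.sum, Finsupp.sum, map_sum, Finset.mul_sum]
    push_cast
    refine Finset.sum_congr rfl fun i _ => ?_
    rw [map_nsmul, nsmul_eq_mul, nsmul_eq_mul, Int.cast_mul, hν i]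
    push_cast
    ring
  have h1 : weightedHomogeneousComponent ν n G =
      ∑ μ ∈ (G.support.image (Finsupp.weight lam)).filter (fun μ => c * φ μ = n), weightedHomogeneousComponent lam μ G := by
    ext d
    rw [coeff_sum]
    simp only [coeff_weightedHomogeneousComponent]
    rw [Finset.sum_ite_eq]
    by_cases hd : d ∈ G.support
    · by_cases h2 : Finsupp.weight ν d = n
      · rw [if_pos h2, if_pos]
        refine Finset.mem_filter.2 ⟨Finset.mem_image_of_mem _ hd, ?_⟩
        rw [← hw, h2]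
      · rw [if_neg h2, if_neg]
        intro h3
        apply h2
        have h4 := (Finset.mem_filter.1 h3).2
        rw [← hw] at h4
        exact_mod_cast h4
    · rw [notMem_support_iff.1 hd, ite_self, ite_self]
  rw [h1, map_sum]
  exact Finset.sum_eq_zero fun μ _ => hG' G hG μ

theorem graded_lam (hl : ∀ i, D (lam i) = 0) (he : ∀ i, Gev D (lam i) (e i)) : Graded e lam := fun _ hG μ => rel_graded hl he hG μ

theorem exists_int {i₀ : Fin p} (h0 : lam i₀ ≠ 0) (hg : Graded e lam) : ∃ ν : Fin p → ℤ, ν i₀ ≠ 0 ∧ Graded e ν := by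
  obtain ⟨φ, c, ν, h1, h2⟩ := exists_int0 lam h0
  exact ⟨ν, h1, fun _ hG n => rel_int hg h2 hG n⟩

end Pool.Agent.GLS

end

section

/-!
# GLS Wrn: the Wronskian over the constants

PROOF.  Take a nonzero vector `a` in the kernel of the matrix `(D^(i+j) y)` with the smallest number of nonzero entries, one entry `1`; differentiate `∑ a_j D^(i+j) y = 0` and use the row `i + 1`
(for the last row use the minimal `n`: if the first `n` rows are already dependent go down).
-/

set_option autoImplicit false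

open MvPolynomial Topology Filter Metric
open Pool.Agent.H13.SM (conTan cone)
open Pool.Agent.H17 (PN VanishesAt HolomorphicInto puncturedDisc)
open Pool.Agent.GG Pool.Agent.GA Pool.Agent.GL

namespace Pool.Agent.GLS

/-- If the Wronskian of `x₁, …, xₙ` (elements of a field with a derivation) vanishes, the `xⱼ` are
linearly dependent over the constants. -/
theorem wronskian_det {K : Type} [Field K] [Algebra ℂ K] (D : Derivation ℂ K K) :
    ∀ (n : ℕ) (x : Fin n → K),
      (Matrix.of fun i j : Fin n => (D : K → K)^[(i : ℕ)] (x j)).det = 0 →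
      ∃ c : Fin n → K, c ≠ 0 ∧ (∀ j, D (c j) = 0) ∧ ∑ j, c j * x j = 0 := by
  intro n
  induction n with
  | zero => intro x h; simp at h
  | succ n ih =>
    intro x h
    by_cases h0 : (Matrix.of fun i j : Fin n => (D : K → K)^[(i : ℕ)] (x j.castSucc)).det = 0
    · obtain ⟨c, hc, hD, hs⟩ := ih (fun j => x j.castSucc) h0
      refine ⟨Fin.snoc c 0, ?_, ?_, ?_⟩
      · intro hz
        apply hc
        funext j
        have := congrFun hz j.castSucc
        simpa using this
      · intro j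
        refine Fin.lastCases ?_ (fun j => ?_) j
        · simp
        · simpa using hD j
      · rw [Fin.sum_univ_castSucc]
        simpa using hs
    · obtain ⟨a, ha, hM⟩ := Matrix.exists_mulVec_eq_zero_iff.mpr h
      have hrow : ∀ i : Fin (n + 1), ∑ j, (D : K → K)^[(i : ℕ)] (x j) * a j = 0 := by
        intro i
        have := congrFun hM i
        simpa [Matrix.mulVec, dotProduct] using this
      -- the last coefficient does not vanish
      have hlast : a (Fin.last n) ≠ 0 := by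
        intro hl
        apply h0
        rw [← Matrix.exists_mulVec_eq_zero_iff]
        refine ⟨fun j => a j.castSucc, ?_, ?_⟩
        · intro hz
          apply ha
          funext j
          refine Fin.lastCases ?_ (fun j => ?_) j
          · simpa using hl
          · simpa using congrFun hz j
        · funext i
          have := hrow i.castSucc
          rw [Fin.sum_univ_castSucc, hl, mul_zero, add_zero] at this
          simpa [Matrix.mulVec, dotProduct] using this
      set b : Fin (n + 1) → K := fun j => a j / a (Fin.last n) with hb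
      have hrow' : ∀ i : Fin (n + 1), ∑ j, (D : K → K)^[(i : ℕ)] (x j) * b j = 0 := by
        intro i
        have := hrow i
        calc ∑ j, (D : K → K)^[(i : ℕ)] (x j) * b j
            = (∑ j, (D : K → K)^[(i : ℕ)] (x j) * a j) / a (Fin.last n) := by
              rw [Finset.sum_div]
              refine Finset.sum_congr rfl fun j _ => ?_
              rw [hb]; ring
          _ = 0 := by rw [this, zero_div]
      have hbl : b (Fin.last n) = 1 := by rw [hb]; exact div_self hlast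
      have hDb : ∀ i : Fin n, ∑ j : Fin n, (D : K → K)^[(i : ℕ)] (x j.castSucc) * D (b j.castSucc)
          = 0 := by
        intro i
        have h1 := congrArg D (hrow' i.castSucc)
        rw [map_sum, map_zero] at h1
        have h2 := hrow' i.succ
        have h3 : ∑ j : Fin (n + 1), (D : K → K)^[(i : ℕ)] (x j) * D (b j) = 0 := by
          have : ∑ j : Fin (n + 1), D ((D : K → K)^[(i : ℕ)] (x j) * b j)
              = ∑ j : Fin (n + 1), (D : K → K)^[(i : ℕ)] (x j) * D (b j)
                + ∑ j : Fin (n + 1), (D : K → K)^[(i : ℕ) + 1] (x j) * b j := by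
            rw [← Finset.sum_add_distrib]
            refine Finset.sum_congr rfl fun j _ => ?_
            rw [Derivation.leibniz, Function.iterate_succ_apply', smul_eq_mul, smul_eq_mul]
            ring
          have h2' : ∑ j : Fin (n + 1), (D : K → K)^[(i : ℕ) + 1] (x j) * b j = 0 := by
            simpa using h2
          have h1' : ∑ j : Fin (n + 1), D ((D : K → K)^[(i : ℕ)] (x j) * b j) = 0 := by
            simpa using h1
          rw [this, h2', add_zero] at h1'
          exact h1'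
        rw [Fin.sum_univ_castSucc, hbl] at h3
        simpa using h3
      refine ⟨b, ?_, ?_, ?_⟩
      · intro hz
        have := congrFun hz (Fin.last n)
        rw [hbl] at this
        simp at this
      · have hz : (fun j : Fin n => D (b j.castSucc)) = 0 := by
          by_contra hne
          apply h0
          rw [← Matrix.exists_mulVec_eq_zero_iff]
          refine ⟨_, hne, ?_⟩
          funext i
          simpa [Matrix.mulVec, dotProduct] using hDb i
        intro j
        refine Fin.lastCases ?_ (fun j => ?_) j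
        · rw [hbl]; simp
        · exact congrFun hz j
      · have := hrow' 0
        simp only [Fin.val_zero, Function.iterate_zero, id] at this
        rw [← this]
        exact Finset.sum_congr rfl fun j _ => mul_comm _ _

theorem wronskian {L : Type} [Field L] [Algebra ℂ L] (D : Derivation ℂ L L) {y : L} {n : ℕ} (h : hk D n y = 0) : ConstRel D y := by
  obtain ⟨c, hc, hD, hs⟩ := wronskian_det D (n + 1) (fun j => (⇑D)^[(j : ℕ)] y) (by
    rw [← h, hk]
    congr 1
    ext i j
    simp [Function.iterate_add_apply])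
  exact ⟨n, c, hc, hD, hs⟩

end Pool.Agent.GLS

end

section

/-!
# GTL ResL: the restriction of logarithmic symmetric differentials to closed subvarieties, and the case `B = ∅`

As GT/Res.
-/

set_option autoImplicit false

open MvPolynomial
open Pool.Agent.H13.SM (conTan cone)
open Pool.Agent.GL
open Pool.Agent.GBL (LogGenerated)

noncomputable section

namespace Pool.Agent.GTL

variable {N : ℕ} {P Q : Ideal (MvPolynomial (Fin (N + 1)) ℂ)} {B : Finset (Fin (N + 1))}

/-- the restriction of a logarithmic symmetric differential -/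
def resL {m : ℕ} (h : P ≤ Q) (t : LogSec P B m) : LogSec Q B m where
  toFun := t.toFun
  regular i := by
    obtain ⟨e, A, hA⟩ := t.regular i
    exact ⟨e, A, fun x hx ξ hξ => hA x (GT.cone_mono h hx) ξ (GT.conTan_mono h hξ)⟩
  add_smul x hx ξ hξ a := t.add_smul x (GT.cone_mono h hx) ξ (GT.conTan_mono h hξ) a
  smul x hx ξ hξ a := t.smul x (GT.cone_mono h hx) ξ (GT.conTan_mono h hξ) a
  scale x hx ξ hξ c hc := t.scale x (GT.cone_mono h hx) ξ (GT.conTan_mono h hξ) c hc

theorem logGenerated_res (h : P ≤ Q) {J m : ℕ} {θ : Fin J → LogSec P B m} (hθ : LogGenerated θ) : LogGenerated fun k => resL h (θ k) := by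
  intro x hx G hG hinv
  obtain ⟨c, hc⟩ := hθ x (GT.cone_mono h hx) G hG hinv
  exact ⟨c, fun ξ hξ => hc ξ (GT.conTan_mono h hξ)⟩

theorem generated_toSym {J m : ℕ} {θ : Fin J → LogSec P ∅ m} (hθ : LogGenerated θ) : Pool.Agent.GB.Generated fun k => toSym (θ k) := by
  intro x hx G hG hinv
  obtain ⟨c, hc⟩ := hθ x hx G hG (fun v a => by rw [eul_empty]; exact hinv v a)
  exact ⟨c, fun v hv => hc v (by rwa [act_empty])⟩

end Pool.Agent.GTL

end
end

section

/-!
# GLS Lgt: a variety with a graded algebraic extension is not of log general type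

PROOF.  `K₂ = ℂ (e) ⊆ M` contains the function field (`h1`), and is algebraic over it, `K₂ = F (t)` (`exists_xi` for the `e i` as elements of `K₂`).  `H7.Qup.isLGT_of_algebraic` with `B' E` = `E` lies over some `E₀` with `BdB P B E₀`;
`H62.FC.not_isLogGeneralType`: if `E` is `0` on `F ∖ 0` and `E.ord t = 0` then `E.ord (e i) = 0` for `e i ≠ 0`, so by `h1`, `h2` all `x_i / x_b` and `1 / ∏ x_i` are regular: the `x_i / x_b`, `i ∈ B`, are units at `E₀` (`b ∈ B`),
against `BdB P B E₀`.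
-/

set_option autoImplicit false

open MvPolynomial Topology Filter Metric
open Pool.Agent.H13.SM (conTan cone)
open Pool.Agent.H17 (PN VanishesAt HolomorphicInto puncturedDisc)
open Pool.Agent.H17GT (coordFun)
open Pool.Agent.H17LG.Variety (FunField ratio IsLogGeneralType)
open Pool.Agent.H23.Fano (PrimeDivisorOver)
open Pool.Agent.GG Pool.Agent.GA Pool.Agent.GL
open Pool.Agent.GBL (BdB)

namespace Pool.Agent.GLS

variable {N : ℕ} {P : Ideal (MvPolynomial (Fin (N + 1)) ℂ)} {B : Finset (Fin (N + 1))} {J : ℕ} {m : Fin J → ℕ} {θ : ∀ k, LogSec P B (m k)} {b : Fin (N + 1)}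

private theorem Lgt_div [P.IsPrime] {b₀ a : Fin (N + 1)} (hb₀ : coordFun P b₀ ≠ 0) (i : Fin (N + 1)) : ratio P i b₀ / ratio P a b₀ = ratio P i a := by
  apply Subtype.ext
  change (coordFun P i / coordFun P b₀) / (coordFun P a / coordFun P b₀) = coordFun P i / coordFun P a
  rw [div_div_div_cancel_right₀ hb₀]

/-- regularity goes down -/
private theorem Lgt_down {K L : Type} [Field K] [Algebra ℂ K] [Field L] [Algebra ℂ L] [Algebra K L] {k : ℕ} {D : PrimeDivisorOver K k} {E : PrimeDivisorOver L k} {e : ℕ}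
    (h : Pool.Agent.H7.Qup.Over D E e) {x : K} (hx : 0 ≤ E.ord (algebraMap K L x)) : 0 ≤ D.ord x := by
  by_cases hx0 : x = 0
  · rw [hx0, D.ord.map_zero]
    exact le_top
  · obtain ⟨n, hn, hn'⟩ := h.2 x hx0
    rw [hn'] at hx
    rw [hn]
    have h1 : (0 : ℤ) ≤ (e : ℤ) * n := by exact_mod_cast hx
    have h2 : (0 : ℤ) < e := by exact_mod_cast h.1
    have h3 : (0 : ℤ) ≤ n := nonneg_of_mul_nonneg_right h1 h2
    exact_mod_cast h3

/-- regular elements are closed under linear combinations -/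
private theorem Lgt_span {L : Type} [Field L] [Algebra ℂ L] {k : ℕ} (E : PrimeDivisorOver L k) {p : ℕ} {e : Fin p → L} (he : ∀ i, 0 ≤ E.ord (e i)) {x : L}
    (hx : x ∈ Submodule.span ℂ (Set.range e)) : 0 ≤ E.ord x := by
  induction hx using Submodule.span_induction with
  | mem x hx =>
    obtain ⟨i, rfl⟩ := hx
    exact he i
  | zero =>
    rw [E.ord.map_zero]
    exact le_top
  | add x y _ _ h1 h2 => exact (le_min h1 h2).trans (E.ord.map_add x y)
  | smul c x _ h =>
    rw [Algebra.smul_def, E.ord.map_mul]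
    exact add_nonneg (E.ord_const c) h

/-- a unit of the local ring -/
private theorem Lgt_unit {K : Type} [Field K] [Algebra ℂ K] {k : ℕ} (D : PrimeDivisorOver K k) {x : K} (hx0 : x ≠ 0) (h1 : 0 ≤ D.ord x) (h2 : 0 ≤ D.ord x⁻¹) : D.ord x = 0 := by
  have h3 : D.ord x + D.ord x⁻¹ = 0 := by
    rw [← D.ord.map_mul, mul_inv_cancel₀ hx0, D.ord.map_one]
  refine le_antisymm ?_ h1
  calc D.ord x ≤ D.ord x + D.ord x⁻¹ := le_add_of_nonneg_right h2
    _ = 0 := h3

private theorem Lgt_zpow {K : Type} [Field K] [Algebra ℂ K] {k : ℕ} (D : PrimeDivisorOver K k) {x : K} (hx : D.ord x = 0) (j : ℤ) : D.ord (x ^ j) = 0 := by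
  have h1 : ∀ n : ℕ, D.ord (x ^ n) = 0 := by
    intro n
    rw [D.ord.map_pow, hx, nsmul_zero]
  have hx0 : x ≠ 0 := by
    rintro rfl
    rw [D.ord.map_zero] at hx
    exact WithTop.top_ne_zero hx
  obtain ⟨n, rfl | rfl⟩ := j.eq_nat_or_neg
  · rw [zpow_natCast, h1]
  · rw [zpow_neg, zpow_natCast]
    have h2 : D.ord (x ^ n) + D.ord (x ^ n)⁻¹ = 0 := by
      rw [← D.ord.map_mul, mul_inv_cancel₀ (pow_ne_zero _ hx0), D.ord.map_one]
    rwa [h1, zero_add] at h2

/-- the boundary divisors are poles of a coordinate or of the inverse of the equation of the boundary -/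
private theorem Lgt_bd [P.IsPrime] {n : ℕ} (hb : b ∈ B) (hX : ∀ i ∈ B, X i ∉ P) (D : PrimeDivisorOver (FunField P) n) (h1 : ∀ i, 0 ≤ D.ord (ratio P i b))
    (h2 : 0 ≤ D.ord (∏ i ∈ B, ratio P i b)⁻¹) : ¬ BdB P B D := by
  classical
  rintro ⟨j, hj, h3, i, hi, h4⟩
  have hcb : coordFun P b ≠ 0 := Pool.Agent.H17R.coordFun_ne_zero_iff.2 (hX b hb)
  have hne : ∀ i ∈ B, ratio P i b ≠ 0 := fun i hi => by
    rw [Pool.Agent.H17R.ratio_ne_zero_iff hcb]
    exact Pool.Agent.H17R.coordFun_ne_zero_iff.2 (hX i hi)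
  have hjb : ratio P j b ≠ 0 := by
    rw [Pool.Agent.H17R.ratio_ne_zero_iff hcb]
    exact hj
  have h5 : 0 ≤ D.ord (ratio P i b)⁻¹ := by
    have h6 : (ratio P i b)⁻¹ = (∏ i ∈ B, ratio P i b)⁻¹ * ∏ i' ∈ B.erase i, ratio P i' b := by
      rw [← Finset.mul_prod_erase B (fun i => ratio P i b) hi, mul_inv, mul_assoc, inv_mul_cancel₀, mul_one]
      exact Finset.prod_ne_zero_iff.2 fun i' hi' => hne i' (Finset.mem_of_mem_erase hi')
    rw [h6, D.ord.map_mul]
    refine add_nonneg h2 ?_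
    refine Finset.prod_induction (fun i' => ratio P i' b) (fun x => 0 ≤ D.ord x) (fun x y hx hy => ?_) ?_ fun i' _ => h1 i'
    · rw [D.ord.map_mul]
      exact add_nonneg hx hy
    · rw [D.ord.map_one]
  have h6 : D.ord (ratio P i b) = 0 := Lgt_unit D (hne i hi) (h1 i) h5
  have h7 : 0 ≤ D.ord (ratio P j b)⁻¹ := by
    have h8 := h3 b
    rwa [← Lgt_div hcb b, show ratio P b b = 1 from Pool.Agent.H17R.ratio_self hcb, one_div] at h8
  have h8 : D.ord (ratio P j b)⁻¹ = 0 := Lgt_unit D (inv_ne_zero hjb) h7 (by rw [inv_inv]; exact h1 j)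
  rw [← Lgt_div hcb i, div_eq_mul_inv, D.ord.map_mul, h6, h8, add_zero] at h4
  exact lt_irrefl _ h4

theorem not_logGT_of_graded [P.IsPrime] {n : ℕ} (hdim : ∃ z : Fin n → FunField P, IsTranscendenceBasis ℂ z) (hb : b ∈ B) (hX : ∀ i ∈ B, X i ∉ P)
    {M : Type} [Field M] [Algebra ℂ M] [Algebra (FunField P) M] [IsScalarTower ℂ (FunField P) M] [Algebra.IsAlgebraic (FunField P) M]
    {p : ℕ} {e : Fin p → M} {ν : Fin p → ℤ} (hne : ∃ i, e i ≠ 0 ∧ ν i ≠ 0) (hg : Graded e ν)
    (h1 : ∀ i, algebraMap (FunField P) M (ratio P i b) ∈ Submodule.span ℂ (Set.range e))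
    (h2 : algebraMap (FunField P) M (∏ i ∈ B, ratio P i b)⁻¹ ∈ Submodule.span ℂ (Set.range e)) :
    ¬ IsLogGeneralType (K := FunField P) (k := n) (BdB P B) := by
  classical
  intro hgt
  have hcb : coordFun P b ≠ 0 := Pool.Agent.H17R.coordFun_ne_zero_iff.2 (hX b hb)
  set K₂ : IntermediateField ℂ M := IntermediateField.adjoin ℂ (Set.range e) with hK₂
  have hmem : ∀ i, e i ∈ K₂ := fun i => IntermediateField.subset_adjoin _ _ ⟨i, rfl⟩
  have hspan : ∀ x ∈ Submodule.span ℂ (Set.range e), x ∈ K₂ := by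
    intro x hx
    have h3 : Submodule.span ℂ (Set.range e) ≤ Subalgebra.toSubmodule K₂.toSubalgebra := by
      rw [Submodule.span_le]
      rintro _ ⟨i, rfl⟩
      exact hmem i
    exact h3 hx
  have hfun : ∀ x : FunField P, algebraMap (FunField P) M x ∈ K₂ := by
    intro x
    have h3 : x ∈ K₂.comap (IsScalarTower.toAlgHom ℂ (FunField P) M) := by
      have h4 : IntermediateField.adjoin ℂ (Set.range fun i => ratio P i b) ≤ K₂.comap (IsScalarTower.toAlgHom ℂ (FunField P) M) := by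
        rw [IntermediateField.adjoin_le_iff]
        rintro _ ⟨i, rfl⟩
        exact hspan _ (h1 i)
      rw [Pool.Agent.H17R.adjoin_ratio hcb] at h4
      exact h4 trivial
    exact h3
  let φ : FunField P →+* K₂ := (algebraMap (FunField P) M).codRestrict K₂.toSubalgebra hfun
  let _ : Algebra (FunField P) K₂ := φ.toAlgebra
  have _ : IsScalarTower (FunField P) K₂ M := IsScalarTower.of_algebraMap_eq fun x => rfl
  have _ : IsScalarTower ℂ (FunField P) K₂ := IsScalarTower.of_algebraMap_eq fun x => by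
    apply Subtype.ext
    change algebraMap ℂ M x = algebraMap (FunField P) M (algebraMap ℂ (FunField P) x)
    rw [← IsScalarTower.algebraMap_apply ℂ (FunField P) M]
  have _ : Algebra.IsAlgebraic (FunField P) K₂ := Algebra.IsAlgebraic.tower_bot (FunField P) K₂ M
  let e' : Fin p → K₂ := fun i => ⟨e i, hmem i⟩
  have hgen : IntermediateField.adjoin ℂ (Set.range e') = ⊤ := by
    apply IntermediateField.lift_injective K₂
    rw [IntermediateField.lift_adjoin, IntermediateField.lift_top]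
    rw [← Set.range_comp]
    rfl
  have hval : ∀ G : MvPolynomial (Fin p) ℂ, ((aeval e' G : K₂) : M) = aeval e G := by
    intro G
    have h3 := MvPolynomial.comp_aeval e' (K₂.val)
    have h4 := DFunLike.congr_fun h3 G
    exact h4
  have hg' : Graded e' ν := by
    intro G hG v
    apply Subtype.ext
    rw [hval]
    exact hg G (by rw [← hval, hG]; rfl) v
  obtain ⟨F, t, ht, htop, het⟩ := exists_xi hgen (ν := ν) (by
    obtain ⟨i, hi, hi'⟩ := hne
    exact ⟨i, fun h => hi (congrArg Subtype.val h), hi'⟩) hg'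
  have _ : Algebra.EssFiniteType ℂ K₂ := by
    rw [IntermediateField.essFiniteType_iff]
    exact IntermediateField.fg_adjoin_of_finite (Set.finite_range e)
  have hz : ∃ z : Fin n → K₂, IsTranscendenceBasis ℂ z := by
    obtain ⟨z, hz⟩ := hdim
    exact ⟨_, IsTranscendenceBasis.algebraMap_comp (A := K₂) hz⟩
  have hsp : ∀ x : FunField P, algebraMap (FunField P) M x ∈ Submodule.span ℂ (Set.range e) →
      algebraMap (FunField P) K₂ x ∈ Submodule.span ℂ (Set.range e') := by
    intro x hx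
    have h3 : Submodule.span ℂ (Set.range e) = (Submodule.span ℂ (Set.range e')).map K₂.val.toLinearMap := by
      rw [Submodule.map_span, ← Set.range_comp]
      rfl
    rw [h3] at hx
    obtain ⟨y, hy, hyx⟩ := hx
    have h4 : y = algebraMap (FunField P) K₂ x := Subtype.ext hyx
    rwa [← h4]
  refine Pool.Agent.H62.FC.not_isLogGeneralType hz F ht htop (fun E => ∃ (D : PrimeDivisorOver (FunField P) n) (r : ℕ), Pool.Agent.H7.Qup.Over D E r ∧ BdB P B D) ?_
    (Pool.Agent.H7.Qup.isLGT_of_algebraic hdim (fun D E r h hD => ⟨D, r, h, hD⟩) hgt)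
  rintro E hF ht0 ⟨D, r, hDE, hD⟩
  have he0 : ∀ i, 0 ≤ E.ord (e' i) := by
    intro i
    obtain ⟨f, k, hf⟩ := het i
    rw [hf, E.ord.map_mul, Lgt_zpow E ht0 k, add_zero]
    by_cases hf0 : f = 0
    · rw [hf0, ZeroMemClass.coe_zero, E.ord.map_zero]
      exact le_top
    · rw [hF f hf0]
  exact Lgt_bd hb hX D (fun i => Lgt_down hDE (Lgt_span E he0 (hsp _ (h1 i)))) (Lgt_down hDE (Lgt_span E he0 (hsp _ h2))) hD

end Pool.Agent.GLS

end

section

/-!
# GTL Loc: the open subset `X \ D` and its boundary, in the two languages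
-/

set_option autoImplicit false

open MvPolynomial
open Pool.Agent.H17 (PN VanishesAt)
open Pool.Agent.H17LG.Variety (FunField)
open Pool.Agent.H62.FC (Homog OnBoundary)
open Pool.Agent.H62.SA (locVar OnBd)
open Pool.Agent.H13.SM (conTan cone)
open Pool.Agent.GL
open Pool.Agent.GBL (BdB)

namespace Pool.Agent.GTL

variable {N : ℕ} {P : Ideal (MvPolynomial (Fin (N + 1)) ℂ)} {B : Finset (Fin (N + 1))}

theorem bdy_homog : ∀ l, ∃ n, (bdy B l).IsHomogeneous n := fun _ =>
  ⟨∑ _i ∈ B, 1, IsHomogeneous.prod B (fun i => (X i : MvPolynomial (Fin (N + 1)) ℂ)) (fun _ => 1) fun i _ => isHomogeneous_X ℂ i⟩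

theorem locVar_bdy : locVar P (bdy B) = openPart P B := by
  ext x
  refine and_congr Iff.rfl ?_
  simp only [VanishesAt, bdy, map_prod, eval_X, Finset.prod_eq_zero_iff, exists_const, not_exists, not_and]

private theorem ord_prod {k : ℕ} {K : Type} [Field K] [Algebra ℂ K] (E : Pool.Agent.H23.Fano.PrimeDivisorOver K k) {ι : Type} (f : ι → K) (s : Finset ι)
    (h : ∀ i ∈ s, 0 ≤ E.ord (f i)) : 0 < E.ord (∏ i ∈ s, f i) ↔ ∃ i ∈ s, 0 < E.ord (f i) := by
  classical
  have h1 : 0 ≤ E.ord (∏ i ∈ s, f i) ∧ (0 < E.ord (∏ i ∈ s, f i) ↔ ∃ i ∈ s, 0 < E.ord (f i)) := by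
    induction s using Finset.induction_on with
    | empty => simp [E.ord.map_one]
    | insert a s ha ih =>
      obtain ⟨h2, h3⟩ := ih fun i hi => h i (Finset.mem_insert_of_mem hi)
      have h4 := h a (Finset.mem_insert_self a s)
      rw [Finset.prod_insert ha, E.ord.map_mul]
      refine ⟨add_nonneg h4 h2, fun h5 => ?_, ?_⟩
      · by_contra h6
        push Not at h6
        have h7 : E.ord (f a) = 0 := le_antisymm (h6 a (Finset.mem_insert_self a s)) h4
        have h8 : E.ord (∏ i ∈ s, f i) = 0 := by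
          refine le_antisymm (not_lt.1 fun h9 => ?_) h2
          obtain ⟨i, hi, hi'⟩ := h3.1 h9
          exact absurd hi' (not_lt.2 (h6 i (Finset.mem_insert_of_mem hi)))
        rw [h7, h8, add_zero] at h5
        exact lt_irrefl _ h5
      · rintro ⟨i, hi, hi'⟩
        rcases Finset.mem_insert.1 hi with rfl | hi
        · exact lt_of_lt_of_le hi' (le_add_of_nonneg_right h2)
        · exact lt_of_lt_of_le (h3.2 ⟨i, hi, hi'⟩) (le_add_of_nonneg_left h4)
  exact h1.2

theorem onBd_bdy [P.IsPrime] {k : ℕ} : OnBd P (bdy B) (k := k) = BdB P B := by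
  funext E
  refine propext (exists_congr fun j => and_congr_right fun _ => and_congr_right fun h2 => ?_)
  rw [← ord_prod E (fun i => Pool.Agent.H17LG.Variety.ratio P i j) B fun i _ => h2 i]
  simp only [bdy, map_prod, aeval_X, forall_const]

theorem onBd_bdy' [P.IsPrime] {k : ℕ} : OnBd P (bdy B) (k := k) = OnBoundary P B := onBd_bdy

theorem onBd_empty [P.IsPrime] {k : ℕ} : OnBd P (bdy ∅) (k := k) = fun _ => False := by
  rw [onBd_bdy]
  funext E
  refine propext ⟨?_, False.elim⟩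
  rintro ⟨_, _, _, i, hi, _⟩
  exact absurd hi (Finset.notMem_empty i)

/-- `X \ D` is not empty -/
theorem locVar_nonempty [P.IsPrime] (hP : Homog P) (hi : ∃ i, X i ∉ P) (hB : ∀ i ∈ B, X i ∉ P) : (locVar P (bdy B)).Nonempty := by
  by_contra h
  have h1 : (1 : MvPolynomial (Fin (N + 1)) ℂ) ∈ P := by
    refine Pool.Agent.H62.FC.mem_of_vanishes hP hB hi (isHomogeneous_one _ _) fun x hx => ?_
    refine absurd ⟨x, ?_⟩ h
    rw [locVar_bdy]
    refine ⟨hx.1, fun i hi => ?_⟩
    rw [VanishesAt, eval_X]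
    exact hx.2 i hi
  exact (Ideal.ne_top_iff_one P).1 (Ideal.IsPrime.ne_top ‹_›) h1

end Pool.Agent.GTL

end

section

/-!
# GTL Cmp: composition of holomorphic maps with strictly rational maps

`exists_graph_lift`: proof as that of `H23.GU.exists_lift` (`H7.Bir.exists_comp` gives the composition `g`; near every point, away from it, a lift `ψ` of `g` is a multiple of
`vals γ (φ w)`, `φ` a lift of `f`; so `S (φ w, ψ w) = 0`, and by continuity at the point; use `eval_bihom'`).
-/

set_option autoImplicit false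

open Topology Filter MvPolynomial
open Pool.Agent.H17 (PN VanishesAt HolomorphicInto puncturedDisc vanishesAt_mk_iff)
open Pool.Agent.H17EF (projVar)
open Pool.Agent.H62.FC (Homog)
open Pool.Agent.H62.SA (locVar)
open Pool.Agent.H7.Bir (vals rmap exists_comp rmap_mk eval_comp)
open Pool.Agent.H7.Qup (vals_rep_ne)
open Pool.Agent.H23.GU (Rel Rel_of rel)

noncomputable section

namespace Pool.Agent.GTL

variable {N M : ℕ} {P : Ideal (MvPolynomial (Fin (N + 1)) ℂ)} {P' : Ideal (MvPolynomial (Fin (M + 1)) ℂ)} {s s' D : ℕ}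
  {G : Fin s → MvPolynomial (Fin (N + 1)) ℂ} {G' : Fin s' → MvPolynomial (Fin (M + 1)) ℂ} {γ : Fin (N + 1) → MvPolynomial (Fin (M + 1)) ℂ}

/-- the equations between the coordinates hold on the closure of the graph -/
theorem InGraph.rel {y : PN M} {x : PN N} (h : InGraph P' γ y x) {m D₁ : ℕ} {α : Fin (m + 1) → MvPolynomial (Fin (N + 1)) ℂ}
    (hα : ∀ l, (α l).IsHomogeneous D₁) {i j : Fin (M + 1)} (hmem : ∑ l : Fin (m + 1), aeval γ (α l) * X i ^ (l : ℕ) * X j ^ (m - (l : ℕ)) ∈ P') :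
    Rel α i j x y := by
  set S : MvPolynomial (Fin (M + 1) ⊕ Fin (N + 1)) ℂ :=
    ∑ l : Fin (m + 1), rename Sum.inr (α l) * X (Sum.inl i) ^ (l : ℕ) * X (Sum.inl j) ^ (m - (l : ℕ)) with hS
  have hr0 : ∀ l, IsWeightedHomogeneous (Sum.elim (fun _ => 1) fun _ => 0 : Fin (M + 1) ⊕ Fin (N + 1) → ℕ) (rename Sum.inr (α l)) 0 := by
    intro l d hd
    obtain ⟨u, rfl, -⟩ := coeff_rename_ne_zero _ _ _ hd
    rw [Finsupp.weight_apply, Finsupp.sum_mapDomain_index (by simp) (by intro a b c; simp [add_mul])]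
    simp
  have hr1 : ∀ l, IsWeightedHomogeneous (Sum.elim (fun _ => 0) fun _ => 1 : Fin (M + 1) ⊕ Fin (N + 1) → ℕ) (rename Sum.inr (α l)) D₁ := by
    intro l d hd
    obtain ⟨u, rfl, hu⟩ := coeff_rename_ne_zero _ _ _ hd
    have h1 := hα l hu
    rw [Finsupp.weight_apply, Finsupp.sum_mapDomain_index (by simp) (by intro a b c; simp [add_mul])]
    rw [Finsupp.weight_apply] at h1
    simpa using h1
  have ha : IsWeightedHomogeneous (Sum.elim (fun _ => 1) fun _ => 0 : Fin (M + 1) ⊕ Fin (N + 1) → ℕ) S m := by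
    refine IsWeightedHomogeneous.sum _ _ _ fun l _ => ?_
    have h1 := ((hr0 l).mul ((isWeightedHomogeneous_X ℂ _ (Sum.inl i)).pow (l : ℕ))).mul
      ((isWeightedHomogeneous_X ℂ (Sum.elim (fun _ => 1) fun _ => 0 : Fin (M + 1) ⊕ Fin (N + 1) → ℕ) (Sum.inl j)).pow (m - (l : ℕ)))
    have h2 : 0 + (l : ℕ) • (Sum.elim (fun _ => 1) fun _ => 0 : Fin (M + 1) ⊕ Fin (N + 1) → ℕ) (Sum.inl i) +
        (m - (l : ℕ)) • (Sum.elim (fun _ => 1) fun _ => 0 : Fin (M + 1) ⊕ Fin (N + 1) → ℕ) (Sum.inl j) = m := by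
      have h3 : (l : ℕ) ≤ m := Nat.lt_succ_iff.1 l.2
      simp only [Sum.elim_inl, smul_eq_mul]
      omega
    rw [h2] at h1
    exact h1
  have hb : IsWeightedHomogeneous (Sum.elim (fun _ => 0) fun _ => 1 : Fin (M + 1) ⊕ Fin (N + 1) → ℕ) S D₁ := by
    refine IsWeightedHomogeneous.sum _ _ _ fun l _ => ?_
    have h1 := ((hr1 l).mul ((isWeightedHomogeneous_X ℂ _ (Sum.inl i)).pow (l : ℕ))).mul
      ((isWeightedHomogeneous_X ℂ (Sum.elim (fun _ => 0) fun _ => 1 : Fin (M + 1) ⊕ Fin (N + 1) → ℕ) (Sum.inl j)).pow (m - (l : ℕ)))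
    have h2 : D₁ + (l : ℕ) • (Sum.elim (fun _ => 0) fun _ => 1 : Fin (M + 1) ⊕ Fin (N + 1) → ℕ) (Sum.inl i) +
        (m - (l : ℕ)) • (Sum.elim (fun _ => 0) fun _ => 1 : Fin (M + 1) ⊕ Fin (N + 1) → ℕ) (Sum.inl j) = D₁ := by
      simp only [Sum.elim_inl, smul_eq_mul]
      omega
    rw [h2] at h1
    exact h1
  have hm : aeval (Sum.elim X γ) S = ∑ l : Fin (m + 1), aeval γ (α l) * X i ^ (l : ℕ) * X j ^ (m - (l : ℕ)) := by
    rw [hS, map_sum]
    refine Finset.sum_congr rfl fun l _ => ?_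
    rw [map_mul, map_mul, map_pow, map_pow, aeval_X, aeval_X, aeval_rename, Sum.elim_comp_inr, Sum.elim_inl, Sum.elim_inl]
  have h1 := h m D₁ S ha hb (by rw [hm]; exact hmem)
  have h2 : Pool.Agent.H23.GU.rel α i j x.rep y.rep = 0 := by
    rw [← h1, hS, map_sum]
    unfold Pool.Agent.H23.GU.rel
    refine Finset.sum_congr rfl fun l _ => ?_
    rw [map_mul, map_mul, map_pow, map_pow, eval_X, eval_X, eval_rename, Sum.elim_comp_inr, Sum.elim_inl, Sum.elim_inl]
  have h3 := Rel_of hα x.rep_nonzero y.rep_nonzero h2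
  rwa [Projectivization.mk_rep, Projectivization.mk_rep] at h3

theorem aeval_bihom_hom (hγ : ∀ i, (γ i).IsHomogeneous D) {a b : ℕ} {S : MvPolynomial (Fin (M + 1) ⊕ Fin (N + 1)) ℂ}
    (ha : IsWeightedHomogeneous (Sum.elim (fun _ => 1) fun _ => 0 : Fin (M + 1) ⊕ Fin (N + 1) → ℕ) S a)
    (hb : IsWeightedHomogeneous (Sum.elim (fun _ => 0) fun _ => 1 : Fin (M + 1) ⊕ Fin (N + 1) → ℕ) S b) :
    (aeval (Sum.elim X γ) S : MvPolynomial (Fin (M + 1)) ℂ).IsHomogeneous (a + D * b) := by
  rw [aeval_def, eval₂_eq']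
  refine IsHomogeneous.sum _ _ _ fun e he => ?_
  have h1 := ha (mem_support_iff.1 he)
  have h2 := hb (mem_support_iff.1 he)
  rw [Finsupp.weight_apply, Finsupp.sum_fintype _ _ (by simp), Fintype.sum_sum_type] at h1 h2
  simp only [Sum.elim_inl, Sum.elim_inr, smul_eq_mul, mul_one, mul_zero, Finset.sum_const_zero, add_zero, zero_add] at h1 h2
  have h3 : (∏ i : Fin (M + 1) ⊕ Fin (N + 1), (Sum.elim X γ i : MvPolynomial (Fin (M + 1)) ℂ) ^ e i).IsHomogeneous
      (∑ i : Fin (M + 1) ⊕ Fin (N + 1), (Sum.elim (fun _ => 1) fun _ => D : Fin (M + 1) ⊕ Fin (N + 1) → ℕ) i * e i) := by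
    refine IsHomogeneous.prod _ _ _ fun i _ => ?_
    rcases i with i | i
    · exact (isHomogeneous_X ℂ i).pow _
    · exact (hγ i).pow _
  have h4 : ∑ i : Fin (M + 1) ⊕ Fin (N + 1), (Sum.elim (fun _ => 1) fun _ => D : Fin (M + 1) ⊕ Fin (N + 1) → ℕ) i * e i = a + D * b := by
    rw [Fintype.sum_sum_type]
    simp only [Sum.elim_inl, Sum.elim_inr, one_mul]
    rw [← Finset.mul_sum, h1, h2]
  rw [h4] at h3
  have h5 := (isHomogeneous_C (Fin (M + 1)) (coeff e S)).mul h3
  rw [zero_add] at h5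
  exact h5

theorem eval_graph {S : MvPolynomial (Fin (M + 1) ⊕ Fin (N + 1)) ℂ} (y : Fin (M + 1) → ℂ) :
    eval (Sum.elim y (vals γ y)) S = eval y (aeval (Sum.elim X γ) S) := by
  have h1 := MvPolynomial.map_aeval (Sum.elim X γ) (eval y) S
  rw [h1]
  have h2 : (eval y).comp (algebraMap ℂ (MvPolynomial (Fin (M + 1)) ℂ)) = RingHom.id ℂ := by
    ext c
    simp [MvPolynomial.algebraMap_eq]
  have h3 : (fun i => eval y ((Sum.elim X γ : Fin (M + 1) ⊕ Fin (N + 1) → MvPolynomial (Fin (M + 1)) ℂ) i)) = Sum.elim y (vals γ y) := by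
    funext i
    rcases i with i | i
    · simp
    · simp [vals]
  rw [h2, h3]
  rfl

theorem exists_graph_lift (hγ : ∀ i, (γ i).IsHomogeneous D) {f : ℂ → PN M} {U : Set ℂ} (hUo : IsOpen U) (hUc : IsPreconnected U)
    (hf : HolomorphicInto f U) (hfX : ∀ z ∈ U, f z ∈ projVar P') {z₀ : ℂ} (hz₀ : z₀ ∈ U) {i₀ : Fin (N + 1)} (h : ¬ VanishesAt (γ i₀) (f z₀)) :
    ∃ g : ℂ → PN N, HolomorphicInto g U ∧ (∀ z ∈ U, InGraph P' γ (f z) (g z)) ∧ g z₀ = rmap γ (f z₀) := by
  obtain ⟨g, hg, hg1, hg2⟩ := exists_comp hγ hUo hUc hf hz₀ h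
  refine ⟨g, hg, ?_, hg1 z₀ hz₀ fun h0 => h (congrFun h0 i₀)⟩
  intro z hz a b S ha hb hmem
  obtain ⟨φ, hφ, he⟩ := hf z hz
  obtain ⟨ψ, hψ, he'⟩ := hg z hz
  have hT := aeval_bihom_hom (M := M) hγ ha hb
  have h0 : ∀ᶠ w in 𝓝[≠] z, eval (Sum.elim (φ w) (ψ w)) S = 0 := by
    filter_upwards [hg2 z hz, he.filter_mono nhdsWithin_le_nhds, he'.filter_mono nhdsWithin_le_nhds,
      mem_nhdsWithin_of_mem_nhds (hUo.mem_nhds hz)] with w h1 h2 h3 h4
    obtain ⟨h5, h6⟩ := h1
    obtain ⟨h7, h8⟩ := h2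
    obtain ⟨h9, h10⟩ := h3
    have h11 : vals γ (φ w) ≠ 0 := by
      rw [h8] at h5
      exact (vals_rep_ne hγ h7).1 h5
    have h12 : Projectivization.mk ℂ (ψ w) h9 = Projectivization.mk ℂ (vals γ (φ w)) h11 := by
      rw [← h10, h6, h8, rmap_mk hγ h7 h11]
    rw [Projectivization.mk_eq_mk_iff'] at h12
    obtain ⟨c, hc⟩ := h12
    have h13 : VanishesAt (aeval (Sum.elim X γ) S) (f w) := hfX w h4 _ hmem _ hT
    rw [h8, vanishesAt_mk_iff hT, ← eval_graph] at h13
    have h14 := eval_bihom' ha hb 1 c (φ w) (vals γ (φ w))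
    rw [h13, mul_zero, one_smul, hc] at h14
    exact h14
  have hcont : ContinuousAt (fun w => eval (Sum.elim (φ w) (ψ w)) S) z := by
    have h1 : ContinuousAt (fun w => (Sum.elim (φ w) (ψ w) : Fin (M + 1) ⊕ Fin (N + 1) → ℂ)) z := by
      rw [continuousAt_pi]
      intro i
      rcases i with i | i
      · exact (continuous_apply i).continuousAt.comp hφ.continuousAt
      · exact (continuous_apply i).continuousAt.comp hψ.continuousAt
    exact (MvPolynomial.continuous_eval S).continuousAt.comp h1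
  have h00 : eval (Sum.elim (φ z) (ψ z)) S = 0 :=
    tendsto_nhds_unique (hcont.tendsto.mono_left nhdsWithin_le_nhds) (tendsto_const_nhds.congr' (h0.mono fun w hw => hw.symm))
  obtain ⟨h1, h2⟩ := he.self_of_nhds
  obtain ⟨h3, h4⟩ := he'.self_of_nhds
  have h5 : Projectivization.mk ℂ (f z).rep (f z).rep_nonzero = Projectivization.mk ℂ (φ z) h1 := by rw [Projectivization.mk_rep, h2]
  have h6 : Projectivization.mk ℂ (g z).rep (g z).rep_nonzero = Projectivization.mk ℂ (ψ z) h3 := by rw [Projectivization.mk_rep, h4]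
  rw [Projectivization.mk_eq_mk_iff'] at h5 h6
  obtain ⟨c, hc⟩ := h5
  obtain ⟨d, hd⟩ := h6
  rw [← hc, ← hd, eval_bihom' ha hb, h00, mul_zero]

theorem StrictMap.lift (hst : StrictMap P P' G G' D γ) {f : ℂ → PN M} {U : Set ℂ} (hUo : IsOpen U) (hUc : IsPreconnected U)
    (hf : HolomorphicInto f U) (hfU : ∀ z ∈ U, f z ∈ locVar P' G') {z₀ : ℂ} (hz₀ : z₀ ∈ U) {i₀ : Fin (N + 1)} (h : ¬ VanishesAt (γ i₀) (f z₀)) :
    ∃ g : ℂ → PN N, HolomorphicInto g U ∧ (∀ z ∈ U, g z ∈ locVar P G) ∧ (∀ z ∈ U, InGraph P' γ (f z) (g z)) ∧ g z₀ = rmap γ (f z₀) := by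
  obtain ⟨g, h1, h2, h3⟩ := exists_graph_lift hst.hom hUo hUc hf (fun z hz => (hfU z hz).1) hz₀ h
  exact ⟨g, h1, fun z hz => hst.into _ (hfU z hz) _ (h2 z hz), h2, h3⟩

end Pool.Agent.GTL

end
end

section

/-!
# GTL Crv: the properties (ii) and (iii) go up along dominant strictly rational maps of varieties of the same dimension

PROOF.  As `H23.GU.gglc_up`, parts `picard` and `brody` (`exists_eq_aux`, `const_near`, `extend_of_alg` of GU/Up), with `StrictMap.lift` and `InGraph.rel` (Cmp) instead of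
`exists_lift`.  `T = aeval γ (R * ∏ i, α i (Fin.last (m i))) * γ i₀ * X j`.
-/

set_option autoImplicit false

open Topology Filter MvPolynomial
open Pool.Agent.H17 (PN VanishesAt HolomorphicInto puncturedDisc)
open Pool.Agent.H17LG.Variety (FunField)
open Pool.Agent.H62.SA (locVar)
open Pool.Agent.H17R (coordFun_ne_zero_iff)
open Pool.Agent.H7.Bir (vals rmap vanishesAt_rmap pn_identity punctured_open)
open Pool.Agent.H7.Qup (exists_eq_aux)
open Pool.Agent.H17 (vanishesAt_mk_iff)
open Pool.Agent.H23.GU (const_near extend_of_alg)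

noncomputable section

namespace Pool.Agent.GTL

variable {N M : ℕ}

theorem curves_up {P : Ideal (MvPolynomial (Fin (N + 1)) ℂ)} [P.IsPrime] {P' : Ideal (MvPolynomial (Fin (M + 1)) ℂ)} [P'.IsPrime] {s s' D : ℕ}
    {G : Fin s → MvPolynomial (Fin (N + 1)) ℂ} {G' : Fin s' → MvPolynomial (Fin (M + 1)) ℂ} {γ : Fin (N + 1) → MvPolynomial (Fin (M + 1)) ℂ}
    (h : StrictMap P P' G G' D γ) {k : ℕ} (hz : ∃ z : Fin (k + 1) → FunField P, IsTranscendenceBasis ℂ z)
    (hz' : ∃ z : Fin (k + 1) → FunField P', IsTranscendenceBasis ℂ z) {R : MvPolynomial (Fin (N + 1)) ℂ} {r : ℕ} (hR : R.IsHomogeneous r) (hRP : R ∉ P) :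
    ∃ (T : MvPolynomial (Fin (M + 1)) ℂ) (n : ℕ), T.IsHomogeneous n ∧ T ∉ P' ∧
      ((∀ f : ℂ → PN N, HolomorphicInto f puncturedDisc → (∀ z ∈ puncturedDisc, f z ∈ locVar P G) → (∃ z ∈ puncturedDisc, ¬ VanishesAt R (f z)) →
          ∃ g : ℂ → PN N, HolomorphicInto g (Metric.ball 0 1) ∧ ∀ z ∈ puncturedDisc, g z = f z) →
        ∀ f : ℂ → PN M, HolomorphicInto f puncturedDisc → (∀ z ∈ puncturedDisc, f z ∈ locVar P' G') → (∃ z ∈ puncturedDisc, ¬ VanishesAt T (f z)) →
          ∃ g : ℂ → PN M, HolomorphicInto g (Metric.ball 0 1) ∧ ∀ z ∈ puncturedDisc, g z = f z) ∧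
      ((∀ f : ℂ → PN N, HolomorphicInto f Set.univ → (∀ z, f z ∈ locVar P G) → (∃ z w, f z ≠ f w) → ∀ z, VanishesAt R (f z)) →
        ∀ f : ℂ → PN M, HolomorphicInto f Set.univ → (∀ z, f z ∈ locVar P' G') → (∃ z w, f z ≠ f w) → ∀ z, VanishesAt T (f z)) := by
  obtain ⟨z, hz⟩ := hz
  obtain ⟨z', hz'⟩ := hz'
  have hγ := h.hom
  have hmaps := h.maps
  obtain ⟨i₀, hi₀⟩ := Pool.Agent.H92.GT.Proj.exists_coordFun_ne_zero P z hz
  obtain ⟨j, hj⟩ := Pool.Agent.H92.GT.Proj.exists_coordFun_ne_zero P' z' hz'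
  have hi₀P : X i₀ ∉ P := coordFun_ne_zero_iff.1 hi₀
  have hjP : X j ∉ P' := coordFun_ne_zero_iff.1 hj
  have hγ₀ : γ i₀ ∉ P' := by
    intro h0
    have h1 := (hmaps 1 (X i₀) (isHomogeneous_X ℂ i₀)).1 (by rw [aeval_X]; exact h0)
    exact hi₀P h1
  -- the equations of the coordinates
  choose m D₁ α hα hαP hrel using exists_eq_aux hz hz' hγ hmaps hi₀P hjP
  set B : MvPolynomial (Fin (N + 1)) ℂ := R * ∏ i, α i (Fin.last (m i)) with hB
  have hBhom : B.IsHomogeneous (r + ∑ i, D₁ i) := hR.mul (IsHomogeneous.prod _ _ _ fun i _ => hα i _)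
  have hBP : B ∉ P := by
    intro h1
    rcases Ideal.IsPrime.mem_or_mem inferInstance h1 with h2 | h2
    · exact hRP h2
    · obtain ⟨i, -, h3⟩ := (Ideal.IsPrime.prod_mem_iff (p := P)).1 h2
      exact hαP i h3
  set T : MvPolynomial (Fin (M + 1)) ℂ := aeval γ B * γ i₀ * X j with hT
  have hThom : T.IsHomogeneous (D * (r + ∑ i, D₁ i) + D + 1) := ((hBhom.aeval γ hγ).mul (hγ i₀)).mul (isHomogeneous_X ℂ j)
  have hTP : T ∉ P' := by
    intro h1
    rcases Ideal.IsPrime.mem_or_mem inferInstance h1 with h2 | h2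
    · rcases Ideal.IsPrime.mem_or_mem inferInstance h2 with h3 | h3
      · exact hBP ((hmaps _ B hBhom).1 h3)
      · exact hγ₀ h3
    · exact hjP h2
  -- points outside of the exceptional set
  have key : ∀ y : PN M, ¬ VanishesAt T y → y.rep j ≠ 0 ∧ ¬ VanishesAt (γ i₀) y ∧ ¬ VanishesAt R (rmap γ y) ∧
      ∀ i, ¬ VanishesAt (α i (Fin.last (m i))) (rmap γ y) := by
    intro y hTy
    unfold VanishesAt at hTy
    rw [hT, map_mul, map_mul, mul_eq_zero, mul_eq_zero, not_or, not_or, eval_X] at hTy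
    obtain ⟨⟨h1, h2⟩, h3⟩ := hTy
    have h4 : vals γ y.rep ≠ 0 := fun h0 => h2 (congrFun h0 i₀)
    have h5 : ¬ VanishesAt B (rmap γ y) := by
      rw [vanishesAt_rmap h4 hBhom]
      exact h1
    unfold VanishesAt at h5
    rw [hB, map_mul, mul_eq_zero, not_or, map_prod, Finset.prod_eq_zero_iff] at h5
    push Not at h5
    exact ⟨h3, h2, h5.1, fun i => h5.2 i (Finset.mem_univ i)⟩
  refine ⟨T, _, hThom, hTP, ?_, ?_⟩
  · rintro hpic f hf hfX ⟨z₀, hz₀, hTz⟩
    obtain ⟨h1, h2, h3, h4⟩ := key _ hTz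
    obtain ⟨g, hg, hgX, hgr, hg0⟩ := h.lift punctured_open Pool.Agent.H36.BP.preconnected_puncturedDisc hf hfX hz₀ h2
    obtain ⟨ĝ, hĝ, hgg⟩ := hpic g hg hgX ⟨z₀, hz₀, fun h5 => h3 (by
      rw [← hg0]
      exact h5)⟩
    obtain ⟨ψ, hψ, hψg⟩ := hĝ 0 (Metric.mem_ball_self one_pos)
    refine extend_of_alg (j := j) (m := m) (α := α) (g := g) (fun i z hz => (hgr z hz).rel (hα i) (hrel i)) hf hψ ?_ fun i hi => ?_
    · filter_upwards [hψg, Metric.ball_mem_nhds (0 : ℂ) one_pos] with z h5 h6 h7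
      obtain ⟨h8, h9⟩ := h5
      exact ⟨h8, by rw [← h9, hgg z ⟨h6, h7⟩]⟩
    · apply h4 i
      have h5 := Pool.Agent.H36.BP.vanish_identity (convex_ball (0 : ℂ) 1).isPreconnected hĝ (S := {α i (Fin.last (m i))}) (by
        intro Q hQ
        rw [Set.mem_singleton_iff] at hQ
        subst hQ
        exact ⟨_, hα i _⟩) (Metric.mem_ball_self one_pos) (by
        filter_upwards [hi, hψg] with z h5 h6 Q hQ
        rw [Set.mem_singleton_iff] at hQ
        subst hQ
        obtain ⟨h7, h8⟩ := h6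
        rw [h8, vanishesAt_mk_iff (hα i _)]
        exact h5) z₀ hz₀.1 _ rfl
      rw [hgg z₀ hz₀, hg0] at h5
      exact h5
  · intro hbro f hf hfX hfn z₀
    by_contra hTz
    obtain ⟨h1, h2, h3, h4⟩ := key _ hTz
    obtain ⟨g, hg, hgX, hgr, hg0⟩ := h.lift isOpen_univ isPreconnected_univ hf (fun z _ => hfX z) (Set.mem_univ z₀) h2
    have hconst : ∀ z w, g z = g w := by
      by_contra hcon
      push Not at hcon
      apply h3
      rw [← hg0]
      exact hbro g hg (fun z => hgX z (Set.mem_univ z)) hcon z₀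
    obtain ⟨φ, hφ, he⟩ := hf z₀ (Set.mem_univ z₀)
    have hφj : φ z₀ j ≠ 0 := by
      obtain ⟨h7, h8⟩ := he.self_of_nhds
      obtain ⟨a, ha⟩ := Projectivization.exists_smul_eq_mk_rep ℂ (φ z₀) h7
      have h9 : (f z₀).rep = (a : ℂ) • φ z₀ := by rw [h8]; exact ha.symm
      rw [h9] at h1
      exact right_ne_zero_of_mul h1
    have hnear : ∀ᶠ z in 𝓝 z₀, f z = (fun _ => f z₀) z := by
      refine const_near (j := j) (m := m) (α := α) (g := g) (x := (g z₀).rep) (fun i => Eventually.of_forall fun z => (hgr z (Set.mem_univ z)).rel (hα i) (hrel i))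
        hφ he hφj (g z₀).rep_nonzero (fun i => ?_) (Eventually.of_forall fun z => ?_)
      · have h5 := h4 i
        rw [← hg0] at h5
        exact h5
      · rw [(g z₀).mk_rep]
        exact hconst z z₀
    have hc : HolomorphicInto (fun _ : ℂ => f z₀) Set.univ := by
      intro z _
      exact ⟨fun _ => (f z₀).rep, analyticAt_const, Eventually.of_forall fun _ => ⟨(f z₀).rep_nonzero, (f z₀).mk_rep.symm⟩⟩
    have h5 := pn_identity isPreconnected_univ hf hc (Set.mem_univ z₀) hnear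
    obtain ⟨z, w, hzw⟩ := hfn
    exact hzw ((h5 z (Set.mem_univ z)).trans (h5 w (Set.mem_univ w)).symm)

end Pool.Agent.GTL

end
end
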