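import Pool.Agent.H18.GGT.M46
import Pool.Agent.H18.GGT.M62

/-! The parts of this file: GL.SolX, GL.Sol. -/

section

/-!
# GL SolX: differential equations with coefficients in a ring of functions

`y' = (evO y NN_s / δ (y))_s`, `NN` polynomials over `OO`.  `Sol_flow`: the local flow, with the time as an additional coordinate.  `Sol_dz`: the derivative of a
polynomial over `OO` along a curve.  `Sol_order`: the argument of `GG.const_of_crit`.
-/

set_option autoImplicit false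

open MvPolynomial Topology Filter Metric
open Pool.Agent.GG Pool.Agent.GA

namespace Pool.Agent.GL

variable {OO : Subalgebra ℂ (ℂ → ℂ)} {U : Set ℂ}

/-- a sequence of functions, each the derivative of the previous one up to a unit, all zero at `t` -/
theorem Sol_order {h : ℕ → ℂ → ℂ} {d : ℂ → ℂ} {t : ℂ} (ha : ∀ k, AnalyticAt ℂ (h k) t) (h0 : ∀ k, h k t = 0) (hda : AnalyticAt ℂ d t)
    (hd0 : d t ≠ 0) (hder : ∀ k, deriv (h k) =ᶠ[𝓝 t] fun s => h (k + 1) s * (d s)⁻¹) : ∀ᶠ s in 𝓝 t, h 0 s = 0 := by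
  have hord : ∀ k, analyticOrderAt (h k) t = analyticOrderAt (h (k + 1)) t + 1 := by
    intro k
    have h1 := (ha k).analyticOrderAt_deriv_add_one
    simp only [h0 k, sub_zero] at h1
    have h2 : analyticOrderAt (deriv (h k)) t = analyticOrderAt (h (k + 1)) t := by
      rw [analyticOrderAt_congr (hder k)]
      have h3 : AnalyticAt ℂ (fun s => (d s)⁻¹) t := hda.inv hd0
      have h4 : analyticOrderAt (fun s => (d s)⁻¹) t = 0 := by
        rw [h3.analyticOrderAt_eq_zero]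
        exact inv_ne_zero hd0
      have h5 := analyticOrderAt_mul (ha (k + 1)) h3
      rw [h4, add_zero] at h5
      exact h5
    rw [← h2, h1]
  have hiter : ∀ n : ℕ, analyticOrderAt (h 0) t = analyticOrderAt (h n) t + n := by
    intro n
    induction n with
    | zero => simp
    | succ n ih =>
      rw [ih, hord n]
      push_cast
      rw [add_assoc, add_comm (1 : ℕ∞) (n : ℕ∞)]
  have htop : analyticOrderAt (h 0) t = ⊤ := by
    by_contra hne
    obtain ⟨n, hn⟩ := ENat.ne_top_iff_exists.1 hne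
    have h1 := hiter (n + 1)
    rw [← hn] at h1
    have h2 : ((n + 1 : ℕ) : ℕ∞) ≤ (n : ℕ∞) := by
      rw [h1]
      exact le_add_self
    have h3 : n + 1 ≤ n := by exact_mod_cast h2
    omega
  rwa [analyticOrderAt_eq_top] at htop

/-- polynomials over `OO` along analytic maps -/
theorem Sol_an {σ : Type} [Fintype σ] {E : Type*} [NormedAddCommGroup E] [NormedSpace ℂ E] {a : E → ℂ} {y : E → σ → ℂ} {q : E}
    (ha : AnalyticAt ℂ a q) (hy : AnalyticAt ℂ y q) (hO : ∀ f ∈ OO, AnalyticAt ℂ f (a q)) (R : MvPolynomial σ OO) :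
    AnalyticAt ℂ (fun p => eval₂ (ev0 OO (a p)) (y p) R) q := by
  induction R using MvPolynomial.induction_on with
  | C c =>
    simp only [eval₂_C]
    exact AnalyticAt.comp (g := (c : ℂ → ℂ)) (f := a) (hO c.1 c.2) ha
  | add p q hp hq =>
    simp only [eval₂_add]
    exact hp.add hq
  | mul_X p i hp =>
    simp only [eval₂_mul, eval₂_X]
    exact hp.mul (analyticAt_pi_iff.1 hy i)

/-- the derivative of a polynomial over `OO` along a curve -/
theorem Sol_dz (hO : IsSmallRing OO U) {w₁ : ℂ} (hw : w₁ ∈ U) {σ : Type} [Fintype σ] [DecidableEq σ] (R : MvPolynomial σ OO) :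
    ∃ R' : MvPolynomial σ OO, ∀ᶠ z in 𝓝 w₁, ∀ (y : ℂ → σ → ℂ) (y' : σ → ℂ), HasDerivAt y y' z →
      HasDerivAt (fun z => evO OO y R z) (evO OO y R' z + ∑ i, evO OO y (pderiv i R) z * y' i) z := by
  induction R using MvPolynomial.induction_on with
  | C a =>
    refine ⟨C ⟨deriv a, hO.deriv_mem _ a.2⟩, ?_⟩
    filter_upwards [(hO.an a.1 a.2 w₁ hw).eventually_analyticAt] with z hz y y' hy
    have h1 : (fun z => evO OO y (C a) z) = (a : ℂ → ℂ) := by
      funext z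
      rw [evO, eval₂_C]
      rfl
    have h2 : evO OO y (C (⟨deriv a, hO.deriv_mem _ a.2⟩ : OO)) z + ∑ i, evO OO y (pderiv i (C a)) z * y' i = deriv (a : ℂ → ℂ) z := by
      have h3 : ∀ i, evO OO y (pderiv i (C a)) z * y' i = 0 := fun i => by rw [pderiv_C, evO, eval₂_zero, zero_mul]
      rw [Finset.sum_congr rfl fun i _ => h3 i, Finset.sum_const_zero, add_zero, evO, eval₂_C]
      rfl
    rw [h1, h2]
    exact hz.differentiableAt.hasDerivAt
  | add p q hp hq =>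
    obtain ⟨p', hp⟩ := hp
    obtain ⟨q', hq⟩ := hq
    refine ⟨p' + q', ?_⟩
    filter_upwards [hp, hq] with z h1 h2 y y' hy
    have h3 := (h1 y y' hy).add (h2 y y' hy)
    have h4 : (fun z => evO OO y (p + q) z) = (fun z => evO OO y p z) + fun z => evO OO y q z := by
      funext z
      simp only [Pi.add_apply, evO, eval₂_add]
    rw [h4]
    refine h3.congr_deriv ?_
    simp only [map_add, evO, eval₂_add, add_mul, Finset.sum_add_distrib]
    ring
  | mul_X p i hp =>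
    obtain ⟨p', hp⟩ := hp
    refine ⟨p' * X i, ?_⟩
    filter_upwards [hp] with z h0 y y' hy
    have h1 : HasDerivAt (fun s => y s i) (y' i) z := hasDerivAt_pi.1 hy i
    have h2 := (h0 y y' hy).mul h1
    have h3 : (∑ j, evO OO y (pderiv j (p * X i)) z * y' j) = (∑ j, evO OO y (pderiv j p) z * y' j) * y z i + evO OO y p z * y' i := by
      have h4 : ∀ j, evO OO y (pderiv j (p * X i)) z * y' j =
          evO OO y (pderiv j p) z * y' j * y z i + (if j = i then evO OO y p z * y' j else 0) := by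
        intro j
        rw [Derivation.leibniz, pderiv_X]
        by_cases hj : j = i
        · subst hj
          simp [evO, eval₂_add, eval₂_mul]
          ring
        · rw [Pi.single_eq_of_ne (Ne.symm hj)]
          simp [hj, evO, eval₂_mul]
          ring
      rw [Finset.sum_congr rfl fun j _ => h4 j, Finset.sum_add_distrib, ← Finset.sum_mul]
      simp
    have h5 : (fun s => evO OO y (p * X i) s) = (fun s => evO OO y p s) * fun s => y s i := by
      funext s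
      simp only [Pi.mul_apply, evO, eval₂_mul, eval₂_X]
    rw [h3, h5]
    refine h2.congr_deriv ?_
    have h6 : evO OO y (p' * X i) z = evO OO y p' z * y z i := by
      simp only [evO, eval₂_mul, eval₂_X]
    rw [h6]
    ring

/-- the right side of the equation -/
noncomputable def SolV {σ : Type} (OO : Subalgebra ℂ (ℂ → ℂ)) (NN : σ → MvPolynomial σ OO) (δ : MvPolynomial σ ℂ) (z : ℂ) (y : σ → ℂ) : σ → ℂ :=
  fun s => eval₂ (ev0 OO z) y (NN s) / eval y δ

/-- the vector field, with the time as an additional coordinate -/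
noncomputable def SolF {σ : Type} (OO : Subalgebra ℂ (ℂ → ℂ)) (NN : σ → MvPolynomial σ OO) (δ : MvPolynomial σ ℂ) (q : Option σ → ℂ) : Option σ → ℂ :=
  fun o => o.elim 1 (SolV OO NN δ (q none) fun s => q (some s))

/-- the point `(z, y)` -/
def SolP {σ : Type} (z : ℂ) (y : σ → ℂ) : Option σ → ℂ := fun o => o.elim z y

theorem SolF_an {σ : Type} [Fintype σ] {NN : σ → MvPolynomial σ OO} {δ : MvPolynomial σ ℂ} {w₁ : ℂ} (hO : ∀ f ∈ OO, AnalyticAt ℂ f w₁)
    {y₀ : σ → ℂ} (h0 : eval y₀ δ ≠ 0) : AnalyticAt ℂ (SolF OO NN δ) (SolP w₁ y₀) := by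
  rw [analyticAt_pi_iff]
  have h1 : ∀ o : Option σ, AnalyticAt ℂ (fun q : Option σ → ℂ => q o) (SolP w₁ y₀) := fun o =>
    (ContinuousLinearMap.proj (R := ℂ) (φ := fun _ : Option σ => ℂ) o).analyticAt _
  have h2 : AnalyticAt ℂ (fun q : Option σ → ℂ => fun s : σ => q (some s)) (SolP w₁ y₀) := analyticAt_pi_iff.2 fun s => h1 (some s)
  intro o
  cases o with
  | none => exact analyticAt_const
  | some s =>
    refine AnalyticAt.div (f := fun q : Option σ → ℂ => eval₂ (ev0 OO (q none)) (fun s => q (some s)) (NN s))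
      (g := fun q : Option σ → ℂ => eval (fun s => q (some s)) δ) ?_ ?_ h0
    · exact Sol_an (a := fun q : Option σ → ℂ => q none) (y := fun q : Option σ → ℂ => fun s => q (some s)) (h1 none) h2 hO (NN s)
    · exact AnalyticAt.comp (g := fun y : σ → ℂ => eval y δ) (f := fun q : Option σ → ℂ => fun s : σ => q (some s))
        (AnalyticOnNhd.eval_mvPolynomial δ _ (Set.mem_univ _)) h2

/-- the local flow -/
theorem Sol_flow {σ : Type} [Fintype σ] {NN : σ → MvPolynomial σ OO} {δ : MvPolynomial σ ℂ} {w₁ : ℂ} (hO : ∀ f ∈ OO, AnalyticAt ℂ f w₁)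
    {y₀ : σ → ℂ} (h0 : eval y₀ δ ≠ 0) : ∃ r > 0, ∃ H : ℂ × (σ → ℂ) → σ → ℂ, (∀ q ∈ ball w₁ r ×ˢ ball y₀ r, AnalyticAt ℂ H q) ∧
      (∀ y ∈ ball y₀ r, H (w₁, y) = y) ∧
      ∀ y ∈ ball y₀ r, ∀ z ∈ ball w₁ r, HasDerivAt (fun z => H (z, y)) (SolV OO NN δ z (H (z, y))) z := by
  obtain ⟨r, hr, H, hHa, hH0, hHd⟩ := exists_flowG (SolF_an (NN := NN) hO h0)
  have hmem : ∀ y ∈ ball y₀ r, SolP w₁ y ∈ ball (SolP w₁ y₀) r := by
    intro y hy
    rw [mem_ball] at hy ⊢
    rw [dist_pi_lt_iff hr]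
    intro o
    cases o with
    | none => simpa [SolP] using hr
    | some s => exact (dist_le_pi_dist y y₀ s).trans_lt hy
  -- the time coordinate
  have htime : ∀ y ∈ ball y₀ r, ∀ z ∈ ball (0 : ℂ) r, H (z, SolP w₁ y) none = w₁ + z := by
    intro y hy z hz
    have h1 : ∀ z ∈ ball (0 : ℂ) r, HasDerivAt (fun z => H (z, SolP w₁ y) none - z) 0 z := by
      intro z hz
      have h2 := hasDerivAt_pi.1 (hHd _ (hmem y hy) z hz).2 none
      have h3 : HasDerivAt (fun z => H (z, SolP w₁ y) none) 1 z := h2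
      have h4 := h3.sub (hasDerivAt_id z)
      rw [sub_self] at h4
      exact h4
    have h2 := isOpen_ball.is_const_of_deriv_eq_zero (convex_ball (0 : ℂ) r).isPreconnected
      (fun z hz => (h1 z hz).differentiableAt.differentiableWithinAt) (fun z hz => (h1 z hz).deriv) hz (mem_ball_self hr)
    simp only [hH0 _ (hmem y hy)] at h2
    have h3 : SolP w₁ y none = w₁ := rfl
    rw [h3, sub_zero] at h2
    linear_combination h2
  refine ⟨r, hr, fun q => fun s => H (q.1 - w₁, SolP w₁ q.2) (some s), ?_, ?_, ?_⟩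
  · rintro ⟨z, y⟩ ⟨hz, hy⟩
    have hz' : z - w₁ ∈ ball (0 : ℂ) r := by
      rw [mem_ball_zero_iff, ← dist_eq_norm]
      exact hz
    have h1 : AnalyticAt ℂ H (z - w₁, SolP w₁ y) := hHa _ ⟨hz', hmem y hy⟩
    have h2 : AnalyticAt ℂ (fun q : ℂ × (σ → ℂ) => SolP w₁ q.2) (z, y) := by
      rw [analyticAt_pi_iff]
      intro o
      cases o with
      | none => exact analyticAt_const
      | some s => exact ((ContinuousLinearMap.proj (R := ℂ) (φ := fun _ : σ => ℂ) s).comp (ContinuousLinearMap.snd ℂ ℂ (σ → ℂ))).analyticAt _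
    have h3 : AnalyticAt ℂ (fun q : ℂ × (σ → ℂ) => (q.1 - w₁, SolP w₁ q.2)) (z, y) := (analyticAt_fst.sub analyticAt_const).prod h2
    have h4 : AnalyticAt ℂ (fun q : ℂ × (σ → ℂ) => H (q.1 - w₁, SolP w₁ q.2)) (z, y) :=
      AnalyticAt.comp (g := H) (f := fun q : ℂ × (σ → ℂ) => (q.1 - w₁, SolP w₁ q.2)) h1 h3
    rw [analyticAt_pi_iff]
    exact fun s => analyticAt_pi_iff.1 h4 (some s)
  · intro y hy
    funext s
    show H (w₁ - w₁, SolP w₁ y) (some s) = y s
    rw [sub_self, hH0 _ (hmem y hy)]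
    rfl
  · intro y hy z hz
    have hz' : z - w₁ ∈ ball (0 : ℂ) r := by
      rw [mem_ball_zero_iff, ← dist_eq_norm]
      exact hz
    have h1 := (hHd _ (hmem y hy) _ hz').2
    have h2 : HasDerivAt (fun z => H (z - w₁, SolP w₁ y)) (SolF OO NN δ (H (z - w₁, SolP w₁ y))) z := by
      have h3 := HasDerivAt.scomp (𝕜 := ℂ) z (g₁ := fun z => H (z, SolP w₁ y)) (h := fun z => z - w₁) h1 ((hasDerivAt_id z).sub_const w₁)
      rw [one_smul] at h3
      exact h3
    rw [hasDerivAt_pi]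
    intro s
    have h3 := hasDerivAt_pi.1 h2 (some s)
    refine h3.congr_deriv ?_
    show SolV OO NN δ (H (z - w₁, SolP w₁ y) none) (fun s => H (z - w₁, SolP w₁ y) (some s)) s = _
    rw [htime y hy _ hz']
    have h4 : w₁ + (z - w₁) = z := by ring
    rw [h4]

/-- uniqueness of the solutions -/
theorem Sol_uniq {σ : Type} [Fintype σ] {NN : σ → MvPolynomial σ OO} {δ : MvPolynomial σ ℂ} {w₁ : ℂ} (hO : ∀ f ∈ OO, AnalyticAt ℂ f w₁)
    {y₁ y₂ : ℂ → σ → ℂ} (h0 : eval (y₁ w₁) δ ≠ 0) (h12 : y₁ w₁ = y₂ w₁) (h1 : ∀ᶠ z in 𝓝 w₁, HasDerivAt y₁ (SolV OO NN δ z (y₁ z)) z)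
    (h2 : ∀ᶠ z in 𝓝 w₁, HasDerivAt y₂ (SolV OO NN δ z (y₂ z)) z) : ∀ᶠ z in 𝓝 w₁, y₁ z = y₂ z := by
  have key : ∀ y : ℂ → σ → ℂ, (∀ᶠ z in 𝓝 w₁, HasDerivAt y (SolV OO NN δ z (y z)) z) →
      ∀ᶠ z in 𝓝 w₁, HasDerivAt (fun z => SolP z (y z)) (SolF OO NN δ (SolP z (y z))) z := by
    intro y hy
    filter_upwards [hy] with z hz
    rw [hasDerivAt_pi]
    intro o
    cases o with
    | none => exact hasDerivAt_id z
    | some s => exact hasDerivAt_pi.1 hz s
  have h3 := ode_uniqueG (V := SolF OO NN δ) (y₁ := fun z => SolP z (y₁ z)) (y₂ := fun z => SolP z (y₂ z)) (t := w₁)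
    (SolF_an hO h0) (by rw [h12]) (key y₁ h1) (key y₂ h2)
  filter_upwards [h3] with z hz
  funext s
  exact congrFun hz (some s)

/-- the local flow, where the denominator is not zero -/
theorem Sol_flow' {σ : Type} [Fintype σ] {NN : σ → MvPolynomial σ OO} {δ : MvPolynomial σ ℂ} {w₁ : ℂ} (hO : ∀ f ∈ OO, AnalyticAt ℂ f w₁)
    {y₀ : σ → ℂ} (h0 : eval y₀ δ ≠ 0) {p : ℂ → Prop} (hp : ∀ᶠ z in 𝓝 w₁, p z) : ∃ r > 0, ∃ H : ℂ × (σ → ℂ) → σ → ℂ,
      (∀ q ∈ ball w₁ r ×ˢ ball y₀ r, AnalyticAt ℂ H q ∧ eval (H q) δ ≠ 0) ∧ (∀ z ∈ ball w₁ r, p z) ∧ (∀ y ∈ ball y₀ r, H (w₁, y) = y) ∧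
      ∀ y ∈ ball y₀ r, ∀ z ∈ ball w₁ r, HasDerivAt (fun z => H (z, y)) (SolV OO NN δ z (H (z, y))) z := by
  obtain ⟨r, hr, H, hHa, hH0, hHd⟩ := Sol_flow (NN := NN) hO h0
  have h1 : ContinuousAt (fun q => eval (H q) δ) (w₁, y₀) :=
    ContinuousAt.comp (g := fun y : σ → ℂ => eval y δ) (f := H) (AnalyticOnNhd.eval_mvPolynomial δ _ (Set.mem_univ _)).continuousAt
      (hHa (w₁, y₀) ⟨mem_ball_self hr, mem_ball_self hr⟩).continuousAt
  have h2 : ∀ᶠ q in 𝓝 (w₁, y₀), eval (H q) δ ≠ 0 := h1.eventually_ne (by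
    show eval (H (w₁, y₀)) δ ≠ 0
    rw [hH0 y₀ (mem_ball_self hr)]
    exact h0)
  obtain ⟨ε, hε, hball⟩ := Metric.eventually_nhds_iff_ball.1 h2
  obtain ⟨ε', hε', hball'⟩ := Metric.eventually_nhds_iff_ball.1 hp
  refine ⟨min r (min ε ε'), lt_min hr (lt_min hε hε'), H, ?_, ?_, ?_, ?_⟩
  · rintro ⟨z, y⟩ ⟨hz, hy⟩
    refine ⟨hHa _ ⟨ball_subset_ball (min_le_left _ _) hz, ball_subset_ball (min_le_left _ _) hy⟩, hball _ ?_⟩
    rw [mem_ball, Prod.dist_eq]
    exact max_lt ((mem_ball.1 hz).trans_le ((min_le_right _ _).trans (min_le_left _ _))) ((mem_ball.1 hy).trans_le ((min_le_right _ _).trans (min_le_left _ _)))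
  · exact fun z hz => hball' z (ball_subset_ball ((min_le_right _ _).trans (min_le_right _ _)) hz)
  · exact fun y hy => hH0 y (ball_subset_ball (min_le_left _ _) hy)
  · exact fun y hy z hz => hHd y (ball_subset_ball (min_le_left _ _) hy) z (ball_subset_ball (min_le_left _ _) hz)

end Pool.Agent.GL

end

section

/-!
# GL Sol: the family of solutions with the initial values `Z (s)`

`δ = vdet G I`.  Cramer: `x'' = N (z, x, x') / δ`, `N` over `OO` (derivative of `G_(I j) (x, x') = g_(I j)`: `∂_v G_I x'' = g_I' - ∂_x G_I x'`, `deriv g ∈ OO`).  The operator `D R = δ (R_z + ∑ ∂_(x b) R v_b) + ∑ ∂_(v b) R N_b` on `MvPolynomial (Ph N) OO`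
(`R_z`: derivative of the coefficients) sends relations to relations (as `(x, x')` satisfies the equation near `w₁`, `δ ≠ 0`).  `Φ (z, s)` = the first half of the solution with the value `Z (s 0)` at `z = w₁` (`GG.exists_flowG` for the
vector field on the space of the `(z, y)`).  For a relation `R` and a fixed small `s` put `h (z) = R (z; Φ, Φ')`; then `h' δ = (D R) (z; Φ, Φ')`, and `(D^j R) (w₁; Z (s 0)) = 0` for all `j` by `hZR` (identity theorem in `s 0` on a disc where `Z` is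
analytic: one `ρ` for all relations), so `h = 0` near `w₁`; as in `GG.const_of_crit`.  Use `R = G_l - g_l`.
-/

set_option autoImplicit false

open MvPolynomial Topology Filter Metric
open Pool.Agent.GG Pool.Agent.GA

namespace Pool.Agent.GL

variable {N : ℕ} {ι : Type} {OO : Subalgebra ℂ (ℂ → ℂ)} {U : Set ℂ}

/-- the numerators of the vector field -/
private noncomputable def SolN (G : ι → MvPolynomial (Ph N) ℂ) (I : Fin (N + 1) → ι) (dg : Fin (N + 1) → OO) : Ph N → MvPolynomial (Ph N) OO :=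
  fun s => map (algebraMap ℂ OO) (fld G I s) +
    Sum.elim (fun _ => 0) (fun b => ∑ l, map (algebraMap ℂ OO) ((vmat G I).adjugate b l) * C (dg l)) s

private theorem SolN_inl (G : ι → MvPolynomial (Ph N) ℂ) (I : Fin (N + 1) → ι) (dg : Fin (N + 1) → OO) (z : ℂ) (y : Ph N → ℂ)
    (hy : eval y (vdet G I) ≠ 0) (b : Fin (N + 1)) : SolV OO (SolN G I dg) (vdet G I) z y (Sum.inl b) = y (Sum.inr b) := by
  have h1 : eval₂ (ev0 OO z) y (map (algebraMap ℂ OO) (fld G I (Sum.inl b))) = eval y (fld G I (Sum.inl b)) := evO_map (OO := OO) (fun _ => y) _ z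
  rw [SolV, SolN, eval₂_add, h1, Sum.elim_inl, eval₂_zero, add_zero, fld, Sum.elim_inl, map_mul, eval_X, mul_div_cancel_left₀ _ hy]

private theorem SolN_inr (G : ι → MvPolynomial (Ph N) ℂ) (I : Fin (N + 1) → ι) (dg : Fin (N + 1) → OO) (z : ℂ) (y : Ph N → ℂ)
    (b : Fin (N + 1)) : SolV OO (SolN G I dg) (vdet G I) z y (Sum.inr b) =
      ((vmat G I).map (eval y)).adjugate.mulVec (fun l => eval y (rhs G I l) + (dg l : ℂ → ℂ) z) b / eval y (vdet G I) := by
  have h1 : eval₂ (ev0 OO z) y (map (algebraMap ℂ OO) (fld G I (Sum.inr b))) = eval y (fld G I (Sum.inr b)) := evO_map (OO := OO) (fun _ => y) _ z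
  have h2 : (vmat G I).adjugate.map (eval y) = ((vmat G I).map (eval y)).adjugate := (eval y).map_adjugate (vmat G I)
  have h3 : ∀ l, eval₂ (ev0 OO z) y (map (algebraMap ℂ OO) ((vmat G I).adjugate b l) * C (dg l)) =
      ((vmat G I).map (eval y)).adjugate b l * (dg l : ℂ → ℂ) z := by
    intro l
    have h4 : eval₂ (ev0 OO z) y (map (algebraMap ℂ OO) ((vmat G I).adjugate b l)) = eval y ((vmat G I).adjugate b l) :=
      evO_map (OO := OO) (fun _ => y) _ z
    rw [eval₂_mul, h4, eval₂_C, ← h2]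
    rfl
  rw [SolV, SolN, eval₂_add, h1, Sum.elim_inr, eval₂_sum, Finset.sum_congr rfl fun l _ => h3 l, fld, Sum.elim_inr]
  congr 1
  have h5 : eval y ((vmat G I).adjugate.mulVec (rhs G I) b) = ∑ l, ((vmat G I).map (eval y)).adjugate b l * eval y (rhs G I l) := by
    rw [← h2]
    simp [Matrix.mulVec, dotProduct, map_sum, map_mul]
  rw [h5, ← Finset.sum_add_distrib]
  simp only [Matrix.mulVec, dotProduct, mul_add]

/-- the path in the phase space -/
private theorem Sol_path {x : ℂ → Fin (N + 1) → ℂ} {s : ℂ} (h : AnalyticAt ℂ x s) :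
    HasDerivAt (fun s => pt (x s) (deriv x s)) (pt (deriv x s) (deriv (deriv x) s)) s := by
  rw [hasDerivAt_pi]
  rintro (b | b)
  · exact hasDerivAt_pi.1 h.differentiableAt.hasDerivAt b
  · exact hasDerivAt_pi.1 h.deriv.differentiableAt.hasDerivAt b

/-- the curve satisfies the equation -/
private theorem Sol_x (G : ι → MvPolynomial (Ph N) ℂ) {g : ι → ℂ → ℂ} {x : ℂ → Fin (N + 1) → ℂ} {w₁ : ℂ} (hx : AnalyticAt ℂ x w₁)
    (I : Fin (N + 1) → ι) (hG : ∀ᶠ w in 𝓝 w₁, ∀ l, eval (pt (x w) (deriv x w)) (G (I l)) = g (I l) w)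
    (hI : eval (pt (x w₁) (deriv x w₁)) (vdet G I) ≠ 0) (dg : Fin (N + 1) → OO) (hdg : ∀ l, (dg l : ℂ → ℂ) = deriv (g (I l))) :
    ∀ᶠ w in 𝓝 w₁, HasDerivAt (fun w => pt (x w) (deriv x w)) (SolV OO (SolN G I dg) (vdet G I) w (pt (x w) (deriv x w))) w ∧
      eval (pt (x w) (deriv x w)) (vdet G I) ≠ 0 := by
  have h0 : ContinuousAt (fun w => eval (pt (x w) (deriv x w)) (vdet G I)) w₁ :=
    ContinuousAt.comp (g := fun y : Ph N → ℂ => eval y (vdet G I)) (f := fun w => pt (x w) (deriv x w))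
      (AnalyticOnNhd.eval_mvPolynomial _ _ (Set.mem_univ _)).continuousAt (Sol_path hx).continuousAt
  filter_upwards [hx.eventually_analyticAt, hG.eventually_nhds, h0.eventually_ne hI] with s hs hcs hΔs
  have hy := Sol_path hs
  refine ⟨hy.congr_deriv ?_, hΔs⟩
  obtain ⟨A, hA⟩ : ∃ A : Matrix (Fin (N + 1)) (Fin (N + 1)) ℂ, A = (vmat G I).map (eval (pt (x s) (deriv x s))) := ⟨_, rfl⟩
  have h2 : A.mulVec (deriv (deriv x) s) = fun l => eval (pt (x s) (deriv x s)) (rhs G I l) + (dg l : ℂ → ℂ) s := by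
    funext l
    have h3 := Chart_hasDerivAt (G (I l)) hy
    have h3' : (fun w => eval (pt (x w) (deriv x w)) (G (I l))) =ᶠ[𝓝 s] g (I l) := hcs.mono fun w hw => hw l
    have h4 : ∑ i, pt (deriv x s) (deriv (deriv x) s) i * eval (pt (x s) (deriv x s)) (pderiv i (G (I l))) = deriv (g (I l)) s := by
      rw [← h3'.deriv_eq]
      exact h3.deriv.symm
    rw [Fintype.sum_sum_type] at h4
    have h5 : A.mulVec (deriv (deriv x) s) l =
        ∑ b, deriv (deriv x) s b * eval (pt (x s) (deriv x s)) (pderiv (Sum.inr b) (G (I l))) := by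
      rw [hA]
      simp only [Matrix.mulVec, dotProduct, Matrix.map_apply, vmat]
      exact Finset.sum_congr rfl fun b _ => mul_comm _ _
    rw [h5, hdg, rhs, map_neg, map_sum, ← h4]
    have h6 : (∑ b, eval (pt (x s) (deriv x s)) (pderiv (Sum.inl b) (G (I l)) * X (Sum.inr b))) =
        ∑ b, deriv x s b * eval (pt (x s) (deriv x s)) (pderiv (Sum.inl b) (G (I l))) := by
      refine Finset.sum_congr rfl fun b _ => ?_
      rw [map_mul, eval_X, mul_comm]
      rfl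
    rw [h6]
    simp only [pt, Sum.elim_inl, Sum.elim_inr]
    ring
  have hdet : A.det = eval (pt (x s) (deriv x s)) (vdet G I) := by
    rw [hA, vdet]
    exact ((eval (pt (x s) (deriv x s))).map_det (vmat G I)).symm
  have h3 : A.adjugate.mulVec (fun l => eval (pt (x s) (deriv x s)) (rhs G I l) + (dg l : ℂ → ℂ) s) = A.det • deriv (deriv x) s := by
    rw [← h2, Matrix.mulVec_mulVec, Matrix.adjugate_mul, Matrix.smul_mulVec, Matrix.one_mulVec]
  funext i
  rcases i with b | b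
  · rw [SolN_inl G I dg s _ hΔs]
    rfl
  · rw [SolN_inr, ← hA, h3, Pi.smul_apply, hdet, smul_eq_mul, mul_div_cancel_left₀ _ hΔs]
    rfl

theorem exists_sol [Finite ι] (hO : IsSmallRing OO U) (G : ι → MvPolynomial (Ph N) ℂ) {g : ι → ℂ → ℂ} (hg : ∀ l, g l ∈ OO) {x : ℂ → Fin (N + 1) → ℂ} {w₁ : ℂ} (hw : w₁ ∈ U)
    (hx : AnalyticAt ℂ x w₁) (hG : ∀ᶠ w in 𝓝 w₁, ∀ l, eval (pt (x w) (deriv x w)) (G l) = g l w) (I : Fin (N + 1) → ι)
    (hI : eval (pt (x w₁) (deriv x w₁)) (vdet G I) ≠ 0) {Z : ℂ → Ph N → ℂ} (hZ : AnalyticAt ℂ Z 0) (hZ0 : Z 0 = pt (x w₁) (deriv x w₁))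
    (hZR : ∀ R : MvPolynomial (Ph N) OO, (∀ᶠ w in 𝓝 w₁, evO OO (fun w => pt (x w) (deriv x w)) R w = 0) → ∀ᶠ t in 𝓝 (0 : ℂ), eval₂ (ev0 OO w₁) (Z t) R = 0) :
    ∃ ρ > 0, ∃ Φ : ℂ × (Fin 1 → ℂ) → Fin (N + 1) → ℂ, (∀ s : Fin 1 → ℂ, ‖s‖ < ρ → NSol G (fun l q => g l q.1) Φ (w₁, s)) ∧
      (∀ s : Fin 1 → ℂ, ‖s‖ < ρ → pt (Φ (w₁, s)) (deriv (fun z => Φ (z, s)) w₁) = Z (s 0)) ∧ ∀ᶠ z in 𝓝 w₁, Φ (z, 0) = x z := by
  classical
  obtain ⟨dg, hdg⟩ : ∃ dg : Fin (N + 1) → OO, ∀ l, (dg l : ℂ → ℂ) = deriv (g (I l)) := ⟨fun l => ⟨_, hO.deriv_mem _ (hg (I l))⟩, fun l => rfl⟩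
  obtain ⟨NN, hNN⟩ : ∃ NN : Ph N → MvPolynomial (Ph N) OO, NN = SolN G I dg := ⟨_, rfl⟩
  obtain ⟨δ, hδ⟩ : ∃ δ : MvPolynomial (Ph N) ℂ, δ = vdet G I := ⟨_, rfl⟩
  have hOw : ∀ f ∈ OO, AnalyticAt ℂ f w₁ := fun f hf => hO.an f hf w₁ hw
  have hxs := Sol_x (OO := OO) G hx I (hG.mono fun w h l => h (I l)) hI dg hdg
  rw [← hNN, ← hδ] at hxs
  rw [← hδ] at hI
  -- the flow
  have hga : ∀ᶠ z in 𝓝 w₁, ∀ l, AnalyticAt ℂ (g l) z := by
    rw [eventually_all]
    exact fun l => (hOw _ (hg l)).eventually_analyticAt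
  obtain ⟨r, hr, H, hHa, hgr, hH0, hHd⟩ := Sol_flow' (NN := NN) hOw hI hga
  have hZmem : ∀ᶠ t in 𝓝 (0 : ℂ), AnalyticAt ℂ Z t ∧ Z t ∈ ball (pt (x w₁) (deriv x w₁)) r := by
    refine hZ.eventually_analyticAt.and (hZ.continuousAt.eventually_mem ?_)
    rw [hZ0]
    exact ball_mem_nhds _ hr
  obtain ⟨ρ, hρ, hZρ⟩ := Metric.eventually_nhds_iff_ball.1 hZmem
  -- the derivation
  choose Dz hDz using fun R : MvPolynomial (Ph N) OO => Sol_dz hO hw R
  obtain ⟨D, hD⟩ : ∃ D : MvPolynomial (Ph N) OO → MvPolynomial (Ph N) OO,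
      D = fun R => map (algebraMap ℂ OO) δ * Dz R + ∑ s, pderiv s R * NN s := ⟨_, rfl⟩
  have hDy : ∀ (y : ℂ → Ph N → ℂ), (∀ᶠ z in 𝓝 w₁, HasDerivAt y (SolV OO NN δ z (y z)) z ∧ eval (y z) δ ≠ 0) →
      ∀ R, ∀ᶠ z in 𝓝 w₁, HasDerivAt (fun z => evO OO y R z) (evO OO y (D R) z * (eval (y z) δ)⁻¹) z := by
    intro y hy R
    filter_upwards [hy, hDz R] with z h1 h2
    refine (h2 y _ h1.1).congr_deriv ?_
    have h3 : evO OO y (D R) z = eval (y z) δ * evO OO y (Dz R) z + ∑ s, evO OO y (pderiv s R) z * evO OO y (NN s) z := by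
      rw [hD]
      show evO OO y (map (algebraMap ℂ OO) δ * Dz R + ∑ s, pderiv s R * NN s) z = _
      have h4 := evO_map (OO := OO) y δ z
      simp only [evO] at h4 ⊢
      rw [eval₂_add, eval₂_mul, h4, eval₂_sum]
      congr 1
      exact Finset.sum_congr rfl fun s _ => eval₂_mul _ _
    rw [h3, add_mul, mul_comm (eval (y z) δ), mul_assoc, mul_inv_cancel₀ h1.2, mul_one, Finset.sum_mul]
    congr 1
    refine Finset.sum_congr rfl fun s _ => ?_
    show _ * (eval₂ (ev0 OO z) (y z) (NN s) / eval (y z) δ) = _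
    rw [div_eq_mul_inv, mul_assoc]
    rfl
  -- relations go to relations
  have hDrel : ∀ R : MvPolynomial (Ph N) OO, (∀ᶠ w in 𝓝 w₁, evO OO (fun w => pt (x w) (deriv x w)) R w = 0) →
      ∀ᶠ w in 𝓝 w₁, evO OO (fun w => pt (x w) (deriv x w)) (D R) w = 0 := by
    intro R hR
    filter_upwards [hR.eventually_nhds, hxs, hDy _ hxs R] with w h1 h2 h3
    have h4 : (fun z => evO OO (fun w => pt (x w) (deriv x w)) R z) =ᶠ[𝓝 w] fun _ => 0 := h1
    have h5 := h3.unique ((hasDerivAt_const w (0 : ℂ)).congr_of_eventuallyEq h4)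
    exact (mul_eq_zero.1 h5).resolve_right (inv_ne_zero h2.2)
  have hDk : ∀ (R : MvPolynomial (Ph N) OO), (∀ᶠ w in 𝓝 w₁, evO OO (fun w => pt (x w) (deriv x w)) R w = 0) → ∀ k : ℕ,
      ∀ᶠ w in 𝓝 w₁, evO OO (fun w => pt (x w) (deriv x w)) (D^[k] R) w = 0 := by
    intro R hR k
    induction k with
    | zero => exact hR
    | succ k ih =>
      rw [Function.iterate_succ_apply']
      exact hDrel _ ih
  -- the initial values satisfy the relations
  have hZrel : ∀ R : MvPolynomial (Ph N) OO, (∀ᶠ w in 𝓝 w₁, evO OO (fun w => pt (x w) (deriv x w)) R w = 0) → ∀ t ∈ ball (0 : ℂ) ρ,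
      eval₂ (ev0 OO w₁) (Z t) R = 0 := by
    intro R hR t ht
    have h1 : AnalyticOnNhd ℂ (fun t => eval₂ (ev0 OO w₁) (Z t) R) (ball 0 ρ) := fun t ht =>
      Sol_an (a := fun _ : ℂ => w₁) (y := Z) analyticAt_const (hZρ t ht).1 hOw R
    exact h1.eqOn_zero_of_preconnected_of_eventuallyEq_zero (convex_ball (0 : ℂ) ρ).isPreconnected (mem_ball_self hρ) (hZR R hR) ht
  have hs0 : ∀ s : Fin 1 → ℂ, ‖s‖ < ρ → s 0 ∈ ball (0 : ℂ) ρ := fun s hs => by
    rw [mem_ball_zero_iff]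
    exact (norm_le_pi_norm s 0).trans_lt hs
  -- the solutions
  have hy : ∀ t ∈ ball (0 : ℂ) ρ, ∀ z ∈ ball w₁ r, HasDerivAt (fun z => H (z, Z t)) (SolV OO NN δ z (H (z, Z t))) z ∧ eval (H (z, Z t)) δ ≠ 0 :=
    fun t ht z hz => ⟨hHd _ (hZρ t ht).2 z hz, (hHa (z, Z t) ⟨hz, (hZρ t ht).2⟩).2⟩
  have hysol : ∀ t ∈ ball (0 : ℂ) ρ, ∀ l, ∀ z ∈ ball w₁ r, eval (H (z, Z t)) (G l) = g l z := by
    intro t ht l
    obtain ⟨R, hR⟩ : ∃ R : MvPolynomial (Ph N) OO, R = map (algebraMap ℂ OO) (G l) - C ⟨g l, hg l⟩ := ⟨_, rfl⟩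
    have hev : ∀ (y : ℂ → Ph N → ℂ) z, evO OO y R z = eval (y z) (G l) - g l z := by
      intro y z
      have h4 := evO_map (OO := OO) y (G l) z
      simp only [evO] at h4 ⊢
      rw [hR, eval₂_sub, h4, eval₂_C]
      rfl
    have hRrel : ∀ᶠ w in 𝓝 w₁, evO OO (fun w => pt (x w) (deriv x w)) R w = 0 := by
      filter_upwards [hG] with w h1
      rw [hev, h1 l, sub_self]
    have hya : ∀ z ∈ ball w₁ r, AnalyticAt ℂ (fun z => H (z, Z t)) z := fun z hz =>
      AnalyticAt.comp (g := H) (f := fun z : ℂ => (z, Z t)) (hHa (z, Z t) ⟨hz, (hZρ t ht).2⟩).1 (analyticAt_id.prod analyticAt_const)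
    have h1 : ∀ᶠ z in 𝓝 w₁, evO OO (fun z => H (z, Z t)) (D^[0] R) z = 0 := by
      refine Sol_order (h := fun k z => evO OO (fun z => H (z, Z t)) (D^[k] R) z) (d := fun z => eval (H (z, Z t)) δ) (t := w₁) ?_ ?_ ?_ ?_ ?_
      · exact fun k => Sol_an (a := fun z : ℂ => z) (y := fun z => H (z, Z t)) analyticAt_id (hya _ (mem_ball_self hr)) hOw _
      · intro k
        have h2 := hZrel _ (hDk R hRrel k) t ht
        show eval₂ (ev0 OO w₁) (H (w₁, Z t)) (D^[k] R) = 0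
        rw [hH0 _ (hZρ t ht).2]
        exact h2
      · exact AnalyticAt.comp (g := fun y : Ph N → ℂ => eval y δ) (f := fun z => H (z, Z t))
          (AnalyticOnNhd.eval_mvPolynomial δ _ (Set.mem_univ _)) (hya _ (mem_ball_self hr))
      · exact (hy t ht w₁ (mem_ball_self hr)).2
      · intro k
        filter_upwards [hDy (fun z => H (z, Z t)) (Filter.mem_of_superset (ball_mem_nhds w₁ hr) fun z hz => hy t ht z hz) (D^[k] R)] with z hz
        rw [hz.deriv, Function.iterate_succ_apply']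
    have h2 : AnalyticOnNhd ℂ (fun z => eval (H (z, Z t)) (G l) - g l z) (ball w₁ r) := fun z hz =>
      (AnalyticAt.comp (g := fun y : Ph N → ℂ => eval y (G l)) (f := fun z => H (z, Z t))
        (AnalyticOnNhd.eval_mvPolynomial (G l) _ (Set.mem_univ _)) (hya z hz)).sub (hgr z hz l)
    have h3 : (fun z => eval (H (z, Z t)) (G l) - g l z) =ᶠ[𝓝 w₁] 0 := by
      filter_upwards [h1] with z hz
      exact (hev (fun z => H (z, Z t)) z).symm.trans hz
    intro z hz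
    exact sub_eq_zero.1 (h2.eqOn_zero_of_preconnected_of_eventuallyEq_zero (convex_ball w₁ r).isPreconnected (mem_ball_self hr) h3 hz)
  -- the first half
  have hder : ∀ t ∈ ball (0 : ℂ) ρ, ∀ z ∈ ball w₁ r, HasDerivAt (fun z => fun b => H (z, Z t) (Sum.inl b)) (fun b => H (z, Z t) (Sum.inr b)) z := by
    intro t ht z hz
    obtain ⟨h1, h2⟩ := hy t ht z hz
    rw [hasDerivAt_pi]
    intro b
    have h3 := hasDerivAt_pi.1 h1 (Sum.inl b)
    refine h3.congr_deriv ?_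
    rw [hNN, hδ]
    exact SolN_inl G I dg z _ (by rwa [← hδ]) b
  have hpt : ∀ s : Fin 1 → ℂ, ‖s‖ < ρ → ∀ z ∈ ball w₁ r,
      pt (fun b => H (z, Z (s 0)) (Sum.inl b)) (deriv (fun z => fun b => H (z, Z (s 0)) (Sum.inl b)) z) = H (z, Z (s 0)) := by
    intro s hs z hz
    rw [(hder _ (hs0 s hs) z hz).deriv]
    funext i
    rcases i with b | b <;> rfl
  refine ⟨ρ, hρ, fun q b => H (q.1, Z (q.2 0)) (Sum.inl b), fun s hs => ⟨?_, ?_⟩, fun s hs => ?_, ?_⟩
  · have h1 : AnalyticAt ℂ (fun q : ℂ × (Fin 1 → ℂ) => Z (q.2 0)) (w₁, s) := by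
      have h2 : AnalyticAt ℂ (fun q : ℂ × (Fin 1 → ℂ) => q.2 0) (w₁, s) :=
        ((ContinuousLinearMap.proj (R := ℂ) (φ := fun _ : Fin 1 => ℂ) 0).comp (ContinuousLinearMap.snd ℂ ℂ (Fin 1 → ℂ))).analyticAt _
      exact AnalyticAt.comp (g := Z) (f := fun q : ℂ × (Fin 1 → ℂ) => q.2 0) (hZρ _ (hs0 s hs)).1 h2
    have h2 : AnalyticAt ℂ (fun q : ℂ × (Fin 1 → ℂ) => H (q.1, Z (q.2 0))) (w₁, s) :=
      AnalyticAt.comp (g := H) (f := fun q : ℂ × (Fin 1 → ℂ) => (q.1, Z (q.2 0))) (hHa (w₁, Z (s 0)) ⟨mem_ball_self hr, (hZρ _ (hs0 s hs)).2⟩).1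
        (analyticAt_fst.prod h1)
    rw [analyticAt_pi_iff]
    exact fun b => analyticAt_pi_iff.1 h2 (Sum.inl b)
  · have h1 : ∀ᶠ p in 𝓝 ((w₁, s) : ℂ × (Fin 1 → ℂ)), p.1 ∈ ball w₁ r := continuousAt_fst.eventually_mem (ball_mem_nhds _ hr)
    have h2 : ∀ᶠ p in 𝓝 ((w₁, s) : ℂ × (Fin 1 → ℂ)), ‖p.2‖ < ρ := (continuousAt_snd.norm (a := ((w₁, s) : ℂ × (Fin 1 → ℂ)))).eventually_lt_const hs
    filter_upwards [h1, h2] with p h3 h4 l
    have h5 := hpt p.2 h4 p.1 h3
    show eval (pt (fun b => H (p.1, Z (p.2 0)) (Sum.inl b)) (deriv (fun z => fun b => H (z, Z (p.2 0)) (Sum.inl b)) p.1)) (G l) = g l p.1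
    rw [h5]
    exact hysol _ (hs0 _ h4) l _ h3
  · show pt (fun b => H (w₁, Z (s 0)) (Sum.inl b)) (deriv (fun z => fun b => H (z, Z (s 0)) (Sum.inl b)) w₁) = Z (s 0)
    rw [hpt s hs w₁ (mem_ball_self hr)]
    exact hH0 _ (hZρ _ (hs0 s hs)).2
  · have h0 : (0 : ℂ) ∈ ball (0 : ℂ) ρ := mem_ball_self hρ
    have h1 : H (w₁, Z 0) = pt (x w₁) (deriv x w₁) := by
      rw [hH0 _ (hZρ _ h0).2, hZ0]
    have h2 := Sol_uniq (NN := NN) (δ := δ) hOw (y₁ := fun w => pt (x w) (deriv x w)) (y₂ := fun z => H (z, Z 0)) hI h1.symm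
      (hxs.mono fun w h => h.1) (Filter.mem_of_superset (ball_mem_nhds w₁ hr) fun z hz => (hy 0 h0 z hz).1)
    filter_upwards [h2] with z hz
    funext b
    exact (congrFun hz (Sum.inl b)).symm

end Pool.Agent.GL

end
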