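import Pool.Agent.H18.GGT.M69
import Pool.Agent.H18.GGT.M81
import Pool.Agent.H18.GGT.M88
import Pool.Agent.H18.GGT.M93
import Pool.Agent.H18.GGT.M94
import Pool.Agent.H18.GGT.M95

/-! The parts of this file: GLS.Slc, GTL.UpT, GL.SmlL, GL.HorL, GL.CntM, GL.EigL, GL.VbA, GL.Vb, GL.FinL, GLS.NonP, GLS.Cor, GLS.Fin, GTL.All, GTL.EntB, GTL.Top, GTL.Gen. -/

section

/-!
# GLS Slc: the slice

PROOF.  As `GQ.exists_slice_main` (GQ/SliceA): `dichotomy (CSL f I) (vdet (gfamL f) I * Δ₀) ix (aff P b)`, `GQ.exists_slice` for `D = Dt (gfamL f) I`, `S = CSL f I`, `φ = ix`, `𝔓 = aff P b`; the zeros of `CSL` are of the form `ePt B x v`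
(`GL.of_gval`), `x ∈ cone P`, `x_b = 1` (`GQ.eval_aff`).  Algebraicity of all coordinates: `GQ.alg_all` for `N + 1` (the additional coordinate is the inverse of `∏ x_i`).
-/

set_option autoImplicit false

open MvPolynomial Topology Filter Metric
open Pool.Agent.H13.SM (conTan cone)
open Pool.Agent.H17 (PN VanishesAt HolomorphicInto puncturedDisc)
open Pool.Agent.H17GT (coordFun)
open Pool.Agent.H17LG.Variety (FunField ratio IsLogGeneralType)
open Pool.Agent.H62.FC (Homog)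
open Pool.Agent.GG Pool.Agent.GA Pool.Agent.GL Pool.Agent.GQ

namespace Pool.Agent.GLS

variable {N : ℕ} {P : Ideal (MvPolynomial (Fin (N + 1)) ℂ)} {B : Finset (Fin (N + 1))} {J : ℕ} {m : Fin J → ℕ} {θ : ∀ k, LogSec P B (m k)} {b : Fin (N + 1)}

private theorem Slc_stable (f : LFrame θ b) (I : Fin (N + 2) → GIx f.q J) {g : MvPolynomial (Ph (N + 1)) ℂ} (hg : g ∈ CSL f I) :
    Dt (gfamL f) I g ∈ Ideal.span (CSL f I) := by
  have h1 : ∀ l, Dt (gfamL f) I (gfamL f l) ∈ Ideal.span (CSL f I) := fun l => Ideal.subset_span (Or.inr ⟨l, 0, rfl⟩)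
  have h2 : ∀ c : ℂ, Dt (gfamL f) I (C c) = 0 := fun c => Derivation.map_algebraMap _ c
  rcases hg with ⟨l | l, rfl⟩ | ⟨l, k, rfl⟩
  · show Dt (gfamL f) I (gfamL f (Sum.inl l) - C (gval (q := f.q) (0 : Fin J → ℂ) (Sum.inl l))) ∈ _
    rw [map_sub, h2, sub_zero]
    exact h1 _
  · show Dt (gfamL f) I (gfamL f (Sum.inr (Sum.inl l)) - C (gval (q := f.q) (0 : Fin J → ℂ) (Sum.inr (Sum.inl l)))) ∈ _
    rw [map_sub, h2, sub_zero]
    exact h1 _
  · refine Ideal.subset_span (Or.inr ⟨l, k + 1, ?_⟩)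
    rw [Function.iterate_succ_apply' _ (k + 1)]

/-- the zeros of the equations of the criterion -/
private theorem Slc_zero (f : LFrame θ b) {I : Fin (N + 2) → GIx f.q J} {y : Ph (N + 1) → ℂ} (h : ∀ g ∈ CSL f I, eval y g = 0) :
    ∃ x ∈ Uc P B b, x = fun i => y (ix i) := by
  have h1 : ∀ l, eval y (gfamL f l) = gval (fun k => eval y (gfamL f (Sum.inr (Sum.inr k)))) l := by
    rintro (l | l | k)
    · have h2 : eval y (gfamL f (Sum.inl l) - C (gval (q := f.q) (0 : Fin J → ℂ) (Sum.inl l))) = 0 := h _ (Or.inl ⟨Sum.inl l, rfl⟩)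
      rw [map_sub, eval_C] at h2
      exact sub_eq_zero.1 h2
    · have h2 : eval y (gfamL f (Sum.inr (Sum.inl l)) - C (gval (q := f.q) (0 : Fin J → ℂ) (Sum.inr (Sum.inl l)))) = 0 := h _ (Or.inl ⟨Sum.inr l, rfl⟩)
      rw [map_sub, eval_C] at h2
      exact sub_eq_zero.1 h2
    · rfl
  obtain ⟨x, v, h2, h3, -, -⟩ := of_gval f h1
  refine ⟨x, h3, ?_⟩
  funext i
  rw [h2]
  show x i = emb B x i.castSucc
  unfold emb
  exact (Fin.snoc_castSucc (α := fun _ => ℂ) _ _ _).symm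

/-- the points of the variety satisfy the equations -/
private theorem Slc_eval (f : LFrame θ b) {I : Fin (N + 2) → GIx f.q J} {x v : Fin (N + 1) → ℂ} (hx : x ∈ Uc P B b) (hv : v ∈ Tc P b x)
    (hc : Crit (gfamL f) I (ePt B x v)) {g : MvPolynomial (Ph (N + 1)) ℂ} (hg : g ∈ CSL f I) : eval (ePt B x v) g = 0 := by
  rcases hg with ⟨l | l, rfl⟩ | ⟨l, k, rfl⟩
  · show eval (ePt B x v) (gfamL f (Sum.inl l) - C (gval (q := f.q) (0 : Fin J → ℂ) (Sum.inl l))) = 0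
    rw [map_sub, eval_C, eval_gfamL f hx hv]
    exact sub_eq_zero.2 rfl
  · show eval (ePt B x v) (gfamL f (Sum.inr (Sum.inl l)) - C (gval (q := f.q) (0 : Fin J → ℂ) (Sum.inr (Sum.inl l)))) = 0
    rw [map_sub, eval_C, eval_gfamL f hx hv]
    exact sub_eq_zero.2 rfl
  · exact hc.2 l k

/-- the additional coordinate is in the field of the base coordinates -/
private theorem Slc_last (f : LFrame θ b) {I : Fin (N + 2) → GIx f.q J} {𝔯 : Ideal (MvPolynomial (Ph (N + 1)) ℂ)} [𝔯.IsPrime] (h : CSL f I ⊆ 𝔯) :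
    IntermediateField.adjoin ℂ (Set.range fun i : Fin (N + 2) => Gen.gp 𝔯 (Sum.inl i : Ph (N + 1))) =
      IntermediateField.adjoin ℂ (Set.range fun i : Fin (N + 1) => Gen.gp 𝔯 (ix i)) := by
  apply le_antisymm
  · rw [IntermediateField.adjoin_le_iff]
    have h1 : ∀ i : Fin (N + 1), Gen.gp 𝔯 (ix i) ∈ IntermediateField.adjoin ℂ (Set.range fun i : Fin (N + 1) => Gen.gp 𝔯 (ix i)) := fun i =>
      IntermediateField.subset_adjoin ℂ _ ⟨i, rfl⟩
    rintro _ ⟨i, rfl⟩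
    refine Fin.lastCases ?_ (fun i => h1 i) i
    have h2 := h (Or.inl ⟨Sum.inr (Sum.inl ()), rfl⟩)
    have h3 : aeval (Gen.gp 𝔯) (X (Sum.inl (Fin.last (N + 1))) * ∏ l ∈ B, X (Sum.inl l.castSucc) - C 1 : MvPolynomial (Ph (N + 1)) ℂ) = 0 :=
      (Gen.aeval_gp_eq_zero 𝔯 _).2 h2
    rw [map_sub, map_mul, map_prod, aeval_X, aeval_C, map_one, sub_eq_zero] at h3
    have h4 : Gen.gp 𝔯 (Sum.inl (Fin.last (N + 1)) : Ph (N + 1)) = (∏ l ∈ B, Gen.gp 𝔯 (ix l))⁻¹ := by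
      refine eq_inv_of_mul_eq_one_left ?_
      rw [← h3]
      congr 1
      exact Finset.prod_congr rfl fun l _ => (aeval_X _ _).symm
    show Gen.gp 𝔯 (Sum.inl (Fin.last (N + 1)) : Ph (N + 1)) ∈ _
    rw [h4]
    exact inv_mem (prod_mem fun l _ => h1 l)
  · rw [IntermediateField.adjoin_le_iff]
    rintro _ ⟨i, rfl⟩
    exact IntermediateField.subset_adjoin ℂ _ ⟨i.castSucc, rfl⟩

/-- the slice, from a prime ideal which contains the equations of the criterion -/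
private theorem Slc_of [P.IsPrime] (f : LFrame θ b) {n : ℕ} (hdim : ∃ z : Fin n → FunField P, IsTranscendenceBasis ℂ z) (hb : X b ∉ P)
    (I : Fin (N + 2) → GIx f.q J) (Δ₀ : MvPolynomial (Ph (N + 1)) ℂ) {𝔮₀ : Ideal (MvPolynomial (Ph (N + 1)) ℂ)} (h1 : 𝔮₀.IsPrime)
    (h2 : CSL f I ⊆ 𝔮₀) (h3 : vdet (gfamL f) I * Δ₀ ∉ 𝔮₀) (h4 : ∀ q, rename ix q ∈ 𝔮₀ → q ∈ aff P b) :
    ∃ (𝔯 : Ideal (MvPolynomial (Ph (N + 1)) ℂ)) (_ : 𝔯.IsPrime), CSL f I ⊆ 𝔯 ∧ vdet (gfamL f) I * Δ₀ ∉ 𝔯 ∧ (∀ q, rename ix q ∈ 𝔯 ↔ q ∈ aff P b) ∧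
      (∀ g ∈ 𝔯, Dt (gfamL f) I g ∈ 𝔯) ∧
      ∀ s, IsAlgebraic (IntermediateField.adjoin ℂ (Set.range fun i : Fin (N + 1) => Gen.gp 𝔯 (ix i))) (Gen.gp 𝔯 s) := by
  classical
  have hpr : (aff P b).IsPrime := RingHom.ker_isPrime _
  have hc : coordFun P b ≠ 0 := Pool.Agent.H17R.coordFun_ne_zero_iff.2 hb
  have h𝔓 : ∀ y : Ph (N + 1) → ℂ, (∀ g ∈ CSL f I, eval y g = 0) → eval y (vdet (gfamL f) I * Δ₀) ≠ 0 → ∀ p ∈ aff P b, eval (fun s => y (ix s)) p = 0 := by
    intro y hy _ p hp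
    obtain ⟨x, h1, h2⟩ := Slc_zero f hy
    rw [← h2]
    exact eval_aff hb h1.1 h1.2.1 hp
  obtain ⟨z, hz⟩ := hdim
  have halg : Algebra.IsAlgebraic (IntermediateField.adjoin ℂ (Set.range fun i => ratio P i b)) (FunField P) := by
    refine ⟨fun y => ?_⟩
    have h1 : y ∈ IntermediateField.adjoin ℂ (Set.range fun i => ratio P i b) := by
      rw [Pool.Agent.H17R.adjoin_ratio hc]
      exact IntermediateField.mem_top
    exact isAlgebraic_algebraMap (⟨y, h1⟩ : IntermediateField.adjoin ℂ (Set.range fun i => ratio P i b))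
  obtain ⟨b', hb'⟩ := Pool.Agent.H92.GT.exists_index halg hz
  obtain ⟨𝔮, h𝔮, hal⟩ := exists_slice (D := Dt (gfamL f) I) (S := CSL f I) (fun g hg => Slc_stable f I hg) (Δ := vdet (gfamL f) I * Δ₀)
    (φ := (ix : Fin (N + 1) → Ph (N + 1))) (𝔓 := aff P b) b' (fun p hp => by
      have h5 : aeval (fun i => ratio P (b' i) b) p = 0 := by
        have h6 := RingHom.mem_ker.1 hp
        rw [aeval_rename] at h6
        exact h6
      exact (algebraicIndependent_iff.1 hb'.1) p h5) (fun q hq => by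
      obtain ⟨p, g, hp, hpg⟩ := exists_mul (fun i => ratio P i b) hb' (q := q) fun h => hq (RingHom.mem_ker.2 h)
      exact ⟨p, g, hp, RingHom.mem_ker.2 hpg⟩) h𝔓 h1 h2 h3 h4
  have hpq := h𝔮.prime
  refine ⟨𝔮, hpq, h𝔮.sub, h𝔮.notMem, fun q => ⟨h𝔮.dom q, fun hq => ?_⟩, h𝔮.stable, ?_⟩
  · by_contra hcon
    have h5 : vdet (gfamL f) I * Δ₀ * rename ix q ∉ 𝔮 := fun h => (hpq.mem_or_mem h).elim h𝔮.notMem hcon
    obtain ⟨y, hy, hy0⟩ := Gen.exists_point 𝔮 h5
    rw [map_mul] at hy0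
    apply right_ne_zero_of_mul hy0
    rw [eval_rename]
    exact h𝔓 y (fun g hg => hy g (h𝔮.sub hg)) (left_ne_zero_of_mul hy0) q hq
  · have hK := Slc_last f h𝔮.sub
    have h5 : ∀ s, IsAlgebraic (IntermediateField.adjoin ℂ (Set.range fun i : Fin (N + 2) => Gen.gp 𝔮 (Sum.inl i : Ph (N + 1)))) (Gen.gp 𝔮 s) := by
      refine alg_all (gfamL f) I (fun h => h𝔮.notMem (Ideal.mul_mem_right _ _ h)) fun r => ?_
      rw [hK]
      refine hal _ ?_
      exact h𝔮.sub (Or.inr ⟨I r, 0, rfl⟩)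
    rw [hK] at h5
    exact h5

theorem exists_slice_L [P.IsPrime] (f : LFrame θ b) {n : ℕ} (hdim : ∃ z : Fin n → FunField P, IsTranscendenceBasis ℂ z) (hb : X b ∉ P)
    (I : Fin (N + 2) → GIx f.q J) (Δ₀ : MvPolynomial (Ph (N + 1)) ℂ) :
    (∃ q ∉ aff P b, ∀ x ∈ Uc P B b, ∀ v ∈ Tc P b x, Crit (gfamL f) I (ePt B x v) → eval (ePt B x v) Δ₀ ≠ 0 → eval x q = 0) ∨
    ∃ (𝔯 : Ideal (MvPolynomial (Ph (N + 1)) ℂ)) (_ : 𝔯.IsPrime), CSL f I ⊆ 𝔯 ∧ vdet (gfamL f) I * Δ₀ ∉ 𝔯 ∧ (∀ q, rename ix q ∈ 𝔯 ↔ q ∈ aff P b) ∧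
      (∀ g ∈ 𝔯, Dt (gfamL f) I g ∈ 𝔯) ∧
      ∀ s, IsAlgebraic (IntermediateField.adjoin ℂ (Set.range fun i : Fin (N + 1) => Gen.gp 𝔯 (ix i))) (Gen.gp 𝔯 s) := by
  have hpr : (aff P b).IsPrime := RingHom.ker_isPrime _
  rcases dichotomy (CSL f I) (vdet (gfamL f) I * Δ₀) (ix : Fin (N + 1) → Ph (N + 1)) (aff P b) with ⟨q, hq, h⟩ | ⟨𝔮₀, h1, h2, h3, h4⟩
  · left
    refine ⟨q, hq, fun x hx v hv hcr hΔ => ?_⟩
    have h5 := h (ePt B x v) (fun g hg => Slc_eval f hx hv hcr hg) (by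
      rw [map_mul]
      exact mul_ne_zero hcr.1 hΔ)
    have h6 : (fun s : Fin (N + 1) => ePt B x v (ix s)) = x := by
      funext i
      show emb B x i.castSucc = x i
      unfold emb
      exact Fin.snoc_castSucc (α := fun _ => ℂ) _ _ _
    rwa [h6] at h5
  · right
    exact Slc_of f hdim hb I Δ₀ h1 h2 h3 h4

end Pool.Agent.GLS

end

section

/-!
# GTL UpT: the four properties go up along dominant strictly rational maps of varieties of the same dimension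
-/

set_option autoImplicit false

open MvPolynomial
open Pool.Agent.H17 (PN VanishesAt HolomorphicInto puncturedDisc ZariskiClosedIn)
open Pool.Agent.H17EF (projVar)
open Pool.Agent.H17GT (coordFun)
open Pool.Agent.H17LG.Variety (FunField IsLogGeneralType)
open Pool.Agent.H17R (coordFun_ne_zero_iff)
open Pool.Agent.H62.FC (Homog)
open Pool.Agent.H62.SA (locVar OnBd)
open Pool.Agent.H7.Bir (GGLOpen mem_of_open)

noncomputable section

namespace Pool.Agent.GTL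

variable {N M : ℕ}

/-- a form vanishing on a proper closed subset of a quasi-projective variety -/
theorem exists_form_loc {P : Ideal (MvPolynomial (Fin (N + 1)) ℂ)} {s : ℕ} {G : Fin s → MvPolynomial (Fin (N + 1)) ℂ} {Ξ : Set (PN N)}
    (hc : ZariskiClosedIn (locVar P G) Ξ) (hp : Ξ ≠ locVar P G) :
    ∃ (R : MvPolynomial (Fin (N + 1)) ℂ) (n : ℕ), R.IsHomogeneous n ∧ R ∉ P ∧ ∀ x ∈ Ξ, VanishesAt R x := by
  obtain ⟨S, hS, hΞS⟩ := hc
  obtain ⟨x₁, hx₁, R, hRS, hRx₁⟩ : ∃ x ∈ locVar P G, ∃ R ∈ S, ¬ VanishesAt R x := by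
    by_contra hcon
    push Not at hcon
    apply hp
    rw [hΞS]
    ext y
    exact ⟨fun hy => hy.1, fun hy => ⟨hy, fun R hR => hcon y hy R hR⟩⟩
  obtain ⟨nR, hnR⟩ := hS R hRS
  refine ⟨R, nR, hnR, fun h1 => hRx₁ (hx₁.1 R h1 nR hnR), fun x hx => ?_⟩
  rw [hΞS] at hx
  exact hx.2 R hRS

/-- the zero set of a form -/
theorem closed_loc {P : Ideal (MvPolynomial (Fin (N + 1)) ℂ)} {s : ℕ} {G : Fin s → MvPolynomial (Fin (N + 1)) ℂ} {T : MvPolynomial (Fin (N + 1)) ℂ} {e : ℕ}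
    (hT : T.IsHomogeneous e) : ZariskiClosedIn (locVar P G) {x | x ∈ locVar P G ∧ VanishesAt T x} := by
  refine ⟨{T}, fun R hR => ?_, ?_⟩
  · rw [Set.mem_singleton_iff.1 hR]
    exact ⟨_, hT⟩
  · ext x
    constructor
    · rintro ⟨h1, h2⟩
      refine ⟨h1, fun R hR => ?_⟩
      rw [Set.mem_singleton_iff.1 hR]
      exact h2
    · rintro ⟨h1, h2⟩
      exact ⟨h1, h2 T rfl⟩

theorem proper_loc {P : Ideal (MvPolynomial (Fin (N + 1)) ℂ)} [P.IsPrime] (hP : Homog P) {s : ℕ} {G : Fin s → MvPolynomial (Fin (N + 1)) ℂ}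
    (hG : ∀ m, ∃ n, (G m).IsHomogeneous n) (hne : (locVar P G).Nonempty) {T : MvPolynomial (Fin (N + 1)) ℂ} {e : ℕ} (hT : T.IsHomogeneous e) (hTP : T ∉ P) :
    {x | x ∈ locVar P G ∧ VanishesAt T x} ≠ locVar P G := by
  intro heq
  apply hTP
  refine mem_of_open hP hG hne hT fun x hx => ?_
  rw [← heq] at hx
  exact hx.2

/-- a closed subvariety on which the form is not zero is not contained in the set `Ξ`, if the form vanishes on `Ξ` -/
theorem not_subset_loc {Q : Ideal (MvPolynomial (Fin (N + 1)) ℂ)} [Q.IsPrime] (hQ : Homog Q) {s : ℕ} {G : Fin s → MvPolynomial (Fin (N + 1)) ℂ}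
    (hG : ∀ m, ∃ n, (G m).IsHomogeneous n) (hne : (locVar Q G).Nonempty) {R : MvPolynomial (Fin (N + 1)) ℂ} {e : ℕ} (hR : R.IsHomogeneous e) (hRQ : R ∉ Q)
    {Ξ : Set (PN N)} (hΞ : ∀ x ∈ Ξ, VanishesAt R x) : ¬ locVar Q G ⊆ Ξ := by
  intro hsub
  exact hRQ (mem_of_open hQ hG hne hR fun x hx => hΞ x (hsub hx))

/-- a closed subvariety which is not contained in the zero set -/
theorem not_mem_loc {P Q : Ideal (MvPolynomial (Fin (N + 1)) ℂ)} (hPQ : P ≤ Q) {s : ℕ} {G : Fin s → MvPolynomial (Fin (N + 1)) ℂ} {T : MvPolynomial (Fin (N + 1)) ℂ} {e : ℕ}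
    (hT : T.IsHomogeneous e) (h : ¬ locVar Q G ⊆ {x | x ∈ locVar P G ∧ VanishesAt T x}) : T ∉ Q ∧ (locVar Q G).Nonempty := by
  refine ⟨fun hTQ => h fun x hx => ⟨⟨fun R hR n hn => hx.1 R (hPQ hR) n hn, hx.2⟩, hx.1 T hTQ e hT⟩, ?_⟩
  by_contra hcon
  rw [Set.not_nonempty_iff_eq_empty] at hcon
  rw [hcon] at h
  exact h (Set.empty_subset _)

/-- **The four properties go up.** -/
theorem ggl_strict {P : Ideal (MvPolynomial (Fin (N + 1)) ℂ)} [P.IsPrime] {P' : Ideal (MvPolynomial (Fin (M + 1)) ℂ)} [hPp' : P'.IsPrime] {s s' D : ℕ}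
    {G : Fin s → MvPolynomial (Fin (N + 1)) ℂ} {G' : Fin s' → MvPolynomial (Fin (M + 1)) ℂ} {γ : Fin (N + 1) → MvPolynomial (Fin (M + 1)) ℂ}
    (hP : Homog P) (hP' : Homog P') (hG : ∀ m, ∃ n, (G m).IsHomogeneous n) (hG' : ∀ m, ∃ n, (G' m).IsHomogeneous n) (hne : (locVar P' G').Nonempty)
    {k : ℕ} (hz : ∃ z : Fin (k + 1) → FunField P, IsTranscendenceBasis ℂ z) (hz' : ∃ z : Fin (k + 1) → FunField P', IsTranscendenceBasis ℂ z)
    (h : StrictMap P P' G G' D γ) {Ξ : Set (PN N)} (hΞ : GGLOpen P G Ξ) : ∃ Ξ' : Set (PN M), GGLOpen P' G' Ξ' := by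
  have hi : ∃ i, X i ∉ P := by
    obtain ⟨z, hz⟩ := hz
    obtain ⟨i, hi⟩ := Pool.Agent.H92.GT.Proj.exists_coordFun_ne_zero P z hz
    exact ⟨i, coordFun_ne_zero_iff.1 hi⟩
  have hj : ∃ j, X j ∉ P' := by
    obtain ⟨z, hz⟩ := hz'
    obtain ⟨i, hi⟩ := Pool.Agent.H92.GT.Proj.exists_coordFun_ne_zero P' z hz
    exact ⟨i, coordFun_ne_zero_iff.1 hi⟩
  obtain ⟨R, r, hR, hRP, hRΞ⟩ := exists_form_loc hΞ.closed hΞ.proper
  obtain ⟨T₁, n₁, hT₁, hT₁P, hpic, hbr⟩ := curves_up h hz hz' hR hRP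
  obtain ⟨T₂, n₂, hT₂, hT₂P, hstr⟩ := strongly_strict hP hG hG' hz hz' h hR hRP
    (fun Q _ hQ hPQ hRQ hneQ w hw hzw => hΞ.strongly Q hQ hPQ (not_subset_loc hQ hG hneQ hR hRQ hRΞ) w hw hzw)
  have hT : (T₁ * T₂).IsHomogeneous (n₁ + n₂) := hT₁.mul hT₂
  have hTP : T₁ * T₂ ∉ P' := by
    intro h1
    rcases hPp'.mem_or_mem h1 with h1 | h1
    · exact hT₁P h1
    · exact hT₂P h1
  have hv : ∀ x : PN M, VanishesAt T₁ x → VanishesAt (T₁ * T₂) x := by
    intro x hx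
    unfold VanishesAt at hx ⊢
    rw [map_mul, hx, zero_mul]
  refine ⟨{x | x ∈ locVar P' G' ∧ VanishesAt (T₁ * T₂) x}, closed_loc hT, proper_loc hP' hG' hne hT hTP, ?_, ?_, ?_, ?_⟩
  · intro w _ hw
    obtain ⟨z, hz1⟩ := hz'
    obtain ⟨z', hz1'⟩ := hw
    obtain rfl := Pool.Agent.H22.TB.eq_of_basis hz1 hz1'
    exact logGT_strict h hP' hG hG' hi hj hz ⟨z, hz1⟩ (hΞ.logGeneralType (k + 1) (Nat.succ_le_succ (Nat.zero_le k)) hz)
  · intro f hf hfX hnef
    refine hpic (fun f hf hfX hne => hΞ.picard f hf hfX ?_) f hf hfX ?_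
    · obtain ⟨z, hz, hz1⟩ := hne
      exact ⟨z, hz, fun h1 => hz1 (hRΞ _ h1)⟩
    · obtain ⟨z, hz, hz1⟩ := hnef
      exact ⟨z, hz, fun h1 => hz1 ⟨hfX z hz, hv _ h1⟩⟩
  · intro f hf hfX hnef z
    exact ⟨hfX z, hv _ (hbr (fun f hf hfX hne z => hRΞ _ (hΞ.brody f hf hfX hne z)) f hf hfX hnef z)⟩
  · intro Q' _ hQ' hPQ' hsub w hw hzw
    obtain ⟨hTQ, hneQ⟩ := not_mem_loc hPQ' hT hsub
    exact hstr Q' hQ' hPQ' (fun h1 => hTQ (Ideal.mul_mem_left _ _ h1)) hneQ w hw hzw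

end Pool.Agent.GTL

end
end

section

/-!
# GL SmlL: small functions

`pt_levels`: `exists_av` with `R = 1 / (4 τ_n)` at `w`, `rho_levels`; for `1 ≤ Re w ≤ 2` periodicity and compactness.  `isOO_of_pt`: `IsOO.of_mean` (GA/Ring), `log⁺ ‖a‖ ≤ log⁺ K + k log τ_n + K X_n` on the window and the strip `0 ≤ Im w ≤ 2 π`.
-/

set_option autoImplicit false

open MvPolynomial Topology Filter Metric
open Pool.Agent.H13.SM (conTan cone)
open Pool.Agent.H62.FC (Homog)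
open Pool.Agent.GG Pool.Agent.GA

namespace Pool.Agent.GL

variable {N : ℕ} {P : Ideal (MvPolynomial (Fin (N + 1)) ℂ)} {B : Finset (Fin (N + 1))} {J : ℕ} {m : Fin J → ℕ} {θ : ∀ k, LogSec P B (m k)} {b : Fin (N + 1)}
  {F : ℂ → Fin (N + 1) → ℂ} {X : ℕ → ℝ}

/-- the points of the strip near the levels -/
private theorem sml_lev {s : ℂ → ℝ} (hX : Lev s X) (n : ℕ) : 4 ≤ tau s X n ∧ 1 / tau s X n ≤ 1 / 4 ∧ 0 < 1 / tau s X n ∧ 4 ≤ X n := by
  have h1 := hX.tau_ge' n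
  have h2 := hX.big n
  have h3 : (0 : ℝ) ≤ n := Nat.cast_nonneg n
  have h4 : 4 ≤ tau s X n := by linarith
  have h5 : 0 < tau s X n := by linarith
  exact ⟨h4, by gcongr, by positivity, by linarith⟩

theorem isOO_of_pt {s : ℂ → ℝ} (hX : Lev s X) {a : ℂ → ℂ} (han : ∀ w ∈ HP, AnalyticAt ℂ a w) (hper : ∀ w ∈ HP, a (w + per) = a w) {K : ℝ} {k : ℕ}
    (h : ∀ (n : ℕ) (w : ℂ), 1 ≤ w.re → w.re ≤ X n - 1 / tau s X n → 0 ≤ w.im → w.im ≤ 2 * Real.pi → ‖a w‖ ≤ K * tau s X n ^ k * Real.exp (K * w.re)) : IsOO s X a := by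
  obtain ⟨D, hD, hD1, hKD⟩ : ∃ D : ℝ, D = max K 1 ∧ 1 ≤ D ∧ K ≤ D := ⟨_, rfl, le_max_right _ _, le_max_left _ _⟩
  have hX0 := hX.smallX
  have hlog := smallN_log hX
  refine IsOO.of_mean hX han hper (η := fun n => 2 * Real.pi * Real.log D + (2 * Real.pi * k) * Real.log (tau s X n) + (2 * Real.pi * D) * X n)
    (((smallN_const hX _).add (hlog.const_mul _)).add (hX0.const_mul _)) (Eventually.of_forall fun n t ht => ?_)
  obtain ⟨ht4, hr, hr0, hX4⟩ := sml_lev hX n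
  have hxi : xi s X n = X n - 2 * (1 / tau s X n) := by
    rw [xi]
    ring
  rw [hxi] at ht
  have ht1 : 1 ≤ t := by linarith [ht.1]
  have ht2 : t ≤ X n - 1 / tau s X n := by linarith [ht.2]
  have ht3 : t ≤ X n := by linarith
  have hbd : ∀ y ∈ Set.Icc (0 : ℝ) (2 * Real.pi), Real.posLog ‖a (t + y * Complex.I)‖ ≤ Real.log D + k * Real.log (tau s X n) + D * X n := by
    intro y hy
    have h1 := h n (t + y * Complex.I) (by simpa using ht1) (by simpa using ht2) (by simpa using hy.1) (by simpa using hy.2)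
    have hre : (t + y * Complex.I : ℂ).re = t := by simp
    rw [hre] at h1
    have h2 : ‖a (t + y * Complex.I)‖ ≤ D * tau s X n ^ k * Real.exp (D * X n) := by
      refine h1.trans ?_
      have h3 : K * t ≤ D * X n := (mul_le_mul_of_nonneg_right hKD (by linarith)).trans (mul_le_mul_of_nonneg_left ht3 (by linarith))
      calc K * tau s X n ^ k * Real.exp (K * t) ≤ D * tau s X n ^ k * Real.exp (K * t) := by gcongr
        _ ≤ D * tau s X n ^ k * Real.exp (D * X n) := by gcongr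
    have h4 : 1 ≤ tau s X n ^ k := one_le_pow₀ (by linarith)
    have h5 : 1 ≤ Real.exp (D * X n) := Real.one_le_exp (by positivity)
    have h6 : 1 ≤ D * tau s X n ^ k * Real.exp (D * X n) := by
      have h7 : 1 ≤ D * tau s X n ^ k := one_le_mul_of_one_le_of_one_le hD1 h4
      exact one_le_mul_of_one_le_of_one_le h7 h5
    have h7 := Real.posLog_le_posLog (norm_nonneg (a (t + y * Complex.I))) h2
    rw [Real.posLog_eq_log (x := D * tau s X n ^ k * Real.exp (D * X n)) (by rwa [abs_of_pos (by linarith)]), Real.log_mul (by positivity) (by positivity),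
      Real.log_mul (by positivity) (by positivity), Real.log_pow, Real.log_exp] at h7
    exact h7
  have hcont : Continuous fun y : ℝ => Real.posLog ‖a (t + y * Complex.I)‖ := by
    refine Real.continuous_posLog.comp (continuous_norm.comp (continuous_iff_continuousAt.2 fun y => ?_))
    have h1 : (t + y * Complex.I : ℂ) ∈ HP := by
      have : 0 < t := by linarith
      simpa [HP] using this
    exact ContinuousAt.comp (f := fun y : ℝ => (t + y * Complex.I : ℂ)) (g := a) (han _ h1).continuousAt (by fun_prop)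
  have h1 := intervalIntegral.integral_mono_on (μ := MeasureTheory.volume) (show (0 : ℝ) ≤ 2 * Real.pi by positivity) (hcont.intervalIntegrable _ _)
    intervalIntegrable_const hbd
  refine h1.trans_eq ?_
  rw [intervalIntegral.integral_const]
  simp only [sub_zero, smul_eq_mul]
  ring

theorem sml_uc (hF : LCurve P B b F) {w : ℂ} (hw : w ∈ HP) : F w ∈ Uc P B b := ⟨hF.curve.cone w hw, hF.one w, hF.ne w hw⟩

theorem sml_uc_nhds (hF : LCurve P B b F) {w : ℂ} (hw : w ∈ HP) : ∀ᶠ z in 𝓝 w, F z ∈ Uc P B b := by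
  filter_upwards [Rg.isOpen_HP.mem_nhds hw] with z hz using sml_uc hF hz

theorem sml_tc (hF : LCurve P B b F) {w : ℂ} (hw : w ∈ HP) : deriv F w ∈ Tc P b (F w) := deriv_mem_Tc (hF.curve.an w hw) (sml_uc_nhds hF hw)

/-- a periodic function is bounded for `1 ≤ Re w ≤ 2` -/
private theorem sml_strip {a : ℂ → ℂ} (han : ∀ w ∈ HP, AnalyticAt ℂ a w) (hper : ∀ w ∈ HP, a (w + per) = a w) :
    ∃ K : ℝ, 0 ≤ K ∧ ∀ w : ℂ, 1 ≤ w.re → w.re ≤ 2 → ‖a w‖ ≤ K := by
  have hK : IsCompact (Set.Icc (1 : ℝ) 2 ×ℂ Set.Icc (0 : ℝ) (2 * Real.pi)) := isCompact_Icc.reProdIm isCompact_Icc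
  have hsub : (Set.Icc (1 : ℝ) 2 ×ℂ Set.Icc (0 : ℝ) (2 * Real.pi)) ⊆ HP := by
    intro z hz
    have h1 : 1 ≤ z.re := hz.1.1
    change 0 < z.re
    linarith
  obtain ⟨K, hK1⟩ := hK.exists_bound_of_continuousOn (f := a) fun z hz => (han z (hsub hz)).continuousAt.continuousWithinAt
  refine ⟨max K 0, le_max_right _ _, fun w hw hw2 => ?_⟩
  -- periodicity
  have hpern : ∀ (j : ℕ) (z : ℂ), z ∈ HP → a (z + j * per) = a z := by
    intro j
    induction j with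
    | zero => intro z _; simp
    | succ j ih =>
      intro z hz
      have h1 : z + j * per ∈ HP := by
        have h2 : (z + j * per).re = z.re := by simp [per]
        change 0 < (z + j * per).re
        rw [h2]
        exact hz
      have h2 : z + ((j + 1 : ℕ) : ℂ) * per = (z + j * per) + per := by push_cast; ring
      rw [h2, hper _ h1, ih z hz]
  have hperz : ∀ (j : ℤ) (z : ℂ), z ∈ HP → a (z + j * per) = a z := by
    intro j z hz
    obtain ⟨n, rfl | rfl⟩ := j.eq_nat_or_neg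
    · simpa using hpern n z hz
    · have h1 : z - n * per ∈ HP := by
        have h2 : (z - n * per).re = z.re := by simp [per]
        change 0 < (z - n * per).re
        rw [h2]
        exact hz
      have h2 := hpern n _ h1
      rw [sub_add_cancel] at h2
      rw [h2]
      push_cast
      congr 1
      ring
  have hpi := Real.pi_pos
  obtain ⟨j, hj⟩ : ∃ j : ℤ, j = ⌊w.im / (2 * Real.pi)⌋ := ⟨_, rfl⟩
  have hj1 : (j : ℝ) * (2 * Real.pi) ≤ w.im := by
    have := Int.floor_le (w.im / (2 * Real.pi))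
    rw [← hj, le_div_iff₀ (by positivity)] at this
    exact this
  have hj2 : w.im < ((j : ℝ) + 1) * (2 * Real.pi) := by
    have := Int.lt_floor_add_one (w.im / (2 * Real.pi))
    rw [← hj, div_lt_iff₀ (by positivity)] at this
    exact this
  have hwHP : w ∈ HP := by
    change 0 < w.re
    linarith
  have h3 := hperz (-j) w hwHP
  have h4 : w + ((-j : ℤ) : ℂ) * per ∈ Set.Icc (1 : ℝ) 2 ×ℂ Set.Icc (0 : ℝ) (2 * Real.pi) := by
    have h5 : (w + ((-j : ℤ) : ℂ) * per).re = w.re := by simp [per]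
    have h6 : (w + ((-j : ℤ) : ℂ) * per).im = w.im - j * (2 * Real.pi) := by
      simp [per]
      ring
    refine ⟨?_, ?_⟩
    · rw [Set.mem_preimage, h5]
      exact ⟨hw, hw2⟩
    · rw [Set.mem_preimage, h6]
      constructor <;> linarith
  rw [← h3]
  exact (hK1 _ h4).trans (le_max_left _ _)

theorem pt_levels (hb : b ∈ B) (hF : LCurve P B b F) (hX : Lev (sp F) X) {a : ℂ → ℂ} (han : ∀ w ∈ HP, AnalyticAt ℂ a w) (hper : ∀ w ∈ HP, a (w + per) = a w) {C : ℝ} {e : ℕ}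
    (hC : ∀ w ∈ HP, ‖a w‖ ≤ C * LL B (F w) (deriv F w) ^ e) :
    ∃ (K : ℝ) (k : ℕ), ∀ (n : ℕ) (w : ℂ), 1 ≤ w.re → w.re ≤ X n - 1 / tau (sp F) X n → ‖a w‖ ≤ K * tau (sp F) X n ^ k := by
  obtain ⟨K₁, hK₁, hav⟩ := exists_av (N := N) B b
  obtain ⟨K₂, hK₂, hst⟩ := sml_strip han hper
  obtain ⟨K₃', k₃, hrho'⟩ := rho_levels hF hX
  obtain ⟨K₃, hK₃, hrho⟩ : ∃ K₃ : ℝ, 0 ≤ K₃ ∧ ∀ (n : ℕ) (w : ℂ), 1 ≤ w.re → w.re ≤ X n - 1 / (2 * tau (sp F) X n) → Rho B (F w) ≤ K₃ * tau (sp F) X n ^ k₃ :=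
    ⟨max K₃' 0, le_max_right _ _, fun n w h1 h2 => (hrho' n w h1 h2).trans
      (mul_le_mul_of_nonneg_right (le_max_left _ _) (pow_nonneg (hX.tau_pos n).le _))⟩
  obtain ⟨D, hD, hD0, hCD⟩ : ∃ D : ℝ, D = max C 0 ∧ 0 ≤ D ∧ C ≤ D := ⟨_, rfl, le_max_right _ _, le_max_left _ _⟩
  refine ⟨K₂ + D * (4 * K₁ * (K₃ + 1)) ^ e, (k₃ + 1) * e, fun n w hw hw' => ?_⟩
  obtain ⟨ht4, hr, hr0, hX4⟩ := sml_lev hX n
  have ht0 : 0 < tau (sp F) X n := by linarith
  have hone : 1 ≤ tau (sp F) X n ^ ((k₃ + 1) * e) := one_le_pow₀ (by linarith)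
  have hpos : 0 ≤ D * (4 * K₁ * (K₃ + 1)) ^ e := by positivity
  rcases le_or_gt w.re 2 with h2 | h2
  · have h3 := hst w hw h2
    nlinarith
  · have hsub : ∀ z ∈ closedBall w (1 / (4 * tau (sp F) X n)), 1 ≤ z.re ∧ z.re ≤ X n - 1 / (2 * tau (sp F) X n) := by
      intro z hz
      have h3 : ‖z - w‖ ≤ 1 / (4 * tau (sp F) X n) := by simpa [dist_eq_norm] using hz
      have h4 := (Complex.abs_re_le_norm (z - w)).trans h3
      rw [Complex.sub_re, abs_le] at h4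
      have h5 : 1 / (4 * tau (sp F) X n) = (1 / 4) * (1 / tau (sp F) X n) := by field_simp
      have h6 : 1 / (2 * tau (sp F) X n) = (1 / 2) * (1 / tau (sp F) X n) := by field_simp
      rw [h5] at h4
      rw [h6]
      constructor <;> linarith [h4.1, h4.2]
    have hHP : ∀ z ∈ closedBall w (1 / (4 * tau (sp F) X n)), z ∈ HP := fun z hz => by
      have := (hsub z hz).1
      change 0 < z.re
      linarith
    have h3 := hav F w (1 / (4 * tau (sp F) X n)) (K₃ * tau (sp F) X n ^ k₃) (by positivity) (fun z hz => hF.curve.an z (hHP z hz)) (fun z _ => hF.one z)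
      (fun z hz => hF.ne z (hHP z hz)) (fun z hz => hrho n z (hsub z hz).1 (hsub z hz).2) a D e (fun z hz => han z (hHP z hz)) hD0
      (fun z hz => (hC z (hHP z hz)).trans (mul_le_mul_of_nonneg_right hCD (pow_nonneg (LL_nonneg _ _) _)))
    have h4 : K₁ * (K₃ * tau (sp F) X n ^ k₃ + 1) / (1 / (4 * tau (sp F) X n)) ≤ 4 * K₁ * (K₃ + 1) * tau (sp F) X n ^ (k₃ + 1) := by
      have h5 : K₁ * (K₃ * tau (sp F) X n ^ k₃ + 1) / (1 / (4 * tau (sp F) X n)) = 4 * K₁ * tau (sp F) X n * (K₃ * tau (sp F) X n ^ k₃ + 1) := by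
        field_simp
      have h6 : K₃ * tau (sp F) X n ^ k₃ + 1 ≤ (K₃ + 1) * tau (sp F) X n ^ k₃ := by
        have : 1 ≤ tau (sp F) X n ^ k₃ := one_le_pow₀ (by linarith)
        linarith
      rw [h5, pow_succ]
      calc 4 * K₁ * tau (sp F) X n * (K₃ * tau (sp F) X n ^ k₃ + 1) ≤ 4 * K₁ * tau (sp F) X n * ((K₃ + 1) * tau (sp F) X n ^ k₃) := by gcongr
        _ = _ := by ring
    have h5 : D * (K₁ * (K₃ * tau (sp F) X n ^ k₃ + 1) / (1 / (4 * tau (sp F) X n))) ^ e ≤ D * ((4 * K₁ * (K₃ + 1)) ^ e * tau (sp F) X n ^ ((k₃ + 1) * e)) := by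
      refine mul_le_mul_of_nonneg_left ?_ hD0
      rw [pow_mul, ← mul_pow]
      exact pow_le_pow_left₀ (by positivity) h4 e
    refine h3.trans (h5.trans ?_)
    rw [← mul_assoc]
    exact mul_le_mul_of_nonneg_right (by linarith) (by positivity)

private theorem thv_an (hF : LCurve P B b F) (i : Fin J) {w : ℂ} (hw : w ∈ HP) : AnalyticAt ℂ (fun w => thv θ (F w) (deriv F w) i) w := by
  refine analyticAt_thv (b := b) (hF.curve.an w hw) (hF.curve.an w hw).deriv ?_ i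
  filter_upwards [Rg.isOpen_HP.mem_nhds hw] with z hz using ⟨sml_uc hF hz, sml_tc hF hz⟩

private theorem thv_per (hF : LCurve P B b F) (i : Fin J) {w : ℂ} (hw : w ∈ HP) :
    thv θ (F (w + per)) (deriv F (w + per)) i = thv θ (F w) (deriv F w) i := by
  have h1 : deriv F (w + per) = deriv F w := by
    have h2 : (fun z => F (z + per)) =ᶠ[𝓝 w] F := by
      filter_upwards [Rg.isOpen_HP.mem_nhds hw] with z hz using hF.curve.periodic z hz
    have h3 := h2.deriv_eq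
    rwa [deriv_comp_add_const] at h3
  rw [hF.curve.periodic w hw, h1]

/-- the values of the logarithmic symmetric differentials on the curve -/
theorem thv_levels (hP : Homog P) (hθ : LogPolar θ) (hm : ∀ k, 1 ≤ m k) (hb : b ∈ B) (hF : LCurve P B b F) (hX : Lev (sp F) X) :
    ∃ (K : ℝ) (k : ℕ), ∀ (n : ℕ) (w : ℂ), 1 ≤ w.re → w.re ≤ X n - 1 / tau (sp F) X n → ∀ i, ‖thv θ (F w) (deriv F w) i‖ ≤ K * tau (sp F) X n ^ k := by
  obtain ⟨c, -, C, hC, hbd⟩ := theta_bdL hP hθ hm hb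
  have h1 : ∀ i : Fin J, ∃ (K : ℝ) (k : ℕ), ∀ (n : ℕ) (w : ℂ), 1 ≤ w.re → w.re ≤ X n - 1 / tau (sp F) X n →
      ‖thv θ (F w) (deriv F w) i‖ ≤ K * tau (sp F) X n ^ k := fun i =>
    pt_levels hb hF hX (a := fun w => thv θ (F w) (deriv F w) i) (C := C) (e := m i) (fun w hw => thv_an hF i hw) (fun w hw => thv_per hF i hw)
      fun w hw => (hbd _ (sml_uc hF hw) _ (sml_tc hF hw)).1 i
  choose K k hK using h1
  refine ⟨∑ i, |K i|, ∑ i, k i, fun n w hw hw' i => (hK i n w hw hw').trans ?_⟩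
  have ht : 1 ≤ tau (sp F) X n := by linarith [(sml_lev hX n).1]
  have h2 : K i ≤ ∑ i, |K i| := (le_abs_self _).trans (Finset.single_le_sum (f := fun i => |K i|) (fun i _ => abs_nonneg _) (Finset.mem_univ i))
  have h3 : k i ≤ ∑ i, k i := Finset.single_le_sum (f := k) (fun i _ => Nat.zero_le _) (Finset.mem_univ i)
  have h4 : tau (sp F) X n ^ k i ≤ tau (sp F) X n ^ ∑ i, k i := pow_le_pow_right₀ ht h3
  exact mul_le_mul h2 h4 (by positivity) (Finset.sum_nonneg fun i _ => abs_nonneg _)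

theorem thv_small (hP : Homog P) (hθ : LogPolar θ) (hm : ∀ k, 1 ≤ m k) (hb : b ∈ B) (hF : LCurve P B b F) (hX : Lev (sp F) X) (k : Fin J) :
    IsOO (sp F) X (fun w => thv θ (F w) (deriv F w) k) := by
  obtain ⟨K, e, h⟩ := thv_levels hP hθ hm hb hF hX
  refine isOO_of_pt hX (fun w hw => thv_an hF k hw) (fun w hw => thv_per hF k hw) (K := |K|) (k := e) fun n w hw hw' _ _ => (h n w hw hw' k).trans ?_
  have ht : 0 ≤ tau (sp F) X n := (hX.tau_pos n).le
  have h1 : 1 ≤ Real.exp (|K| * w.re) := Real.one_le_exp (by positivity)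
  calc K * tau (sp F) X n ^ e ≤ |K| * tau (sp F) X n ^ e := mul_le_mul_of_nonneg_right (le_abs_self _) (by positivity)
    _ = |K| * tau (sp F) X n ^ e * 1 := (mul_one _).symm
    _ ≤ |K| * tau (sp F) X n ^ e * Real.exp (|K| * w.re) := mul_le_mul_of_nonneg_left h1 (by positivity)

end Pool.Agent.GL

end

section

/-!
# GL HorL: the values of the family on the curve are small, and a variation field over the small functions

`hor_chart` (GA) for `G = gfamL f`, the curve `eF B F`; `hT` from `GA.not_algebraic` with `a = b` (`F b = 1`), `exists_rowL` at a point with `F' ≠ 0`, `deriv_emb`, `eval_gfamL`.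
-/

set_option autoImplicit false

open MvPolynomial Topology Filter Metric
open Pool.Agent.H13.SM (conTan cone)
open Pool.Agent.H62.FC (Homog)
open Pool.Agent.GG Pool.Agent.GA

namespace Pool.Agent.GL

variable {N : ℕ} {P : Ideal (MvPolynomial (Fin (N + 1)) ℂ)} {B : Finset (Fin (N + 1))} {J : ℕ} {m : Fin J → ℕ} {θ : ∀ k, LogSec P B (m k)} {b : Fin (N + 1)}
  {F : ℂ → Fin (N + 1) → ℂ} {X : ℕ → ℝ}

theorem gfam_small (hP : Homog P) (hθ : LogPolar θ) (hm : ∀ k, 1 ≤ m k) (hb : b ∈ B) (f : LFrame θ b) (hF : LCurve P B b F) (hX : Lev (sp F) X) (l : GIx f.q J) :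
    (fun w => gval (thv θ (F w) (deriv F w)) l) ∈ GA.OO hX := by
  have h1 : (fun _ : ℂ => (1 : ℂ)) ∈ GA.OO hX := (GA.OO hX).one_mem
  have h0 : (fun _ : ℂ => (0 : ℂ)) ∈ GA.OO hX := (GA.OO hX).zero_mem
  rcases l with ((_ | _) | (_ | _)) | ((_ | _) | k)
  · exact h1
  · exact h0
  · exact h0
  · exact h0
  · exact h1
  · exact h0
  · exact thv_small hP hθ hm hb hF hX k

private theorem mem_Uc (hF : LCurve P B b F) {w : ℂ} (hw : w ∈ HP) : F w ∈ Uc P B b :=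
  ⟨hF.curve.cone w hw, hF.one w, hF.ne w hw⟩

private theorem isOpen_HP' : IsOpen HP := isOpen_lt continuous_const Complex.continuous_re

private theorem ev_HP {w : ℂ} (hw : w ∈ HP) : ∀ᶠ z in 𝓝 w, z ∈ HP := isOpen_HP'.mem_nhds hw

private theorem deriv_mem (hF : LCurve P B b F) {w : ℂ} (hw : w ∈ HP) : deriv F w ∈ Tc P b (F w) :=
  deriv_mem_Tc (hF.curve.an w hw) ((ev_HP hw).mono fun _ hz => mem_Uc hF hz)

theorem eval_curve (f : LFrame θ b) (hF : LCurve P B b F) (l : GIx f.q J) {w : ℂ} (hw : w ∈ HP) :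
    eval (pt (eF B F w) (deriv (eF B F) w)) (gfamL f l) = gval (thv θ (F w) (deriv F w)) l := by
  have h1 : deriv (eF B F) w = embV B (F w) (deriv F w) := deriv_emb (hF.curve.an w hw) (hF.ne w hw)
  rw [h1]
  exact eval_gfamL f (mem_Uc hF hw) (deriv_mem hF hw) l

/-- the transcendence hypothesis of `hor_chart` and `exists_DualP`, at every point -/
theorem trans_curve (hF : LCurve P B b F) (hX : Lev (sp F) X) {z₁ : ℂ} (hz : z₁ ∈ HP) :
    ∃ c, ∀ p : Polynomial (GA.OO hX), (∀ᶠ w in 𝓝 z₁, p.eval₂ (ev0 (GA.OO hX) w) (eF B F w c) = 0) → ∀ n, ∀ᶠ w in 𝓝 z₁, ev0 (GA.OO hX) w (p.coeff n) = 0 := by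
  have hF0 : ∀ w ∈ HP, F w ≠ 0 := fun w _ h0 => by
    have h1 := hF.one w
    rw [h0] at h1
    exact zero_ne_one h1
  obtain ⟨c, hc⟩ := not_algebraic hF.curve.an hF0 hF.curve.periodic hX (a := b) ⟨1, by show (0 : ℝ) < (1 : ℂ).re; simp, by rw [hF.one]; exact one_ne_zero⟩
  refine ⟨c.castSucc, fun p hp n => ?_⟩
  have hcv : ∀ w, eF B F w c.castSucc = F w c := fun w => by
    unfold eF emb
    rw [Fin.snoc_castSucc]
  have han : ∀ i, ∀ w ∈ HP, AnalyticAt ℂ (fun w => ev0 (GA.OO hX) w (p.coeff i)) w := fun i w hw => (p.coeff i).2.an w hw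
  have hFc : ∀ w ∈ HP, AnalyticAt ℂ (fun w => F w c) w := fun w hw => (analyticAt_pi_iff.1 (hF.curve.an w hw)) c
  have hsum : ∀ w, p.eval₂ (ev0 (GA.OO hX) w) (eF B F w c.castSucc) = ∑ i ∈ Finset.range (p.natDegree + 1), ev0 (GA.OO hX) w (p.coeff i) * F w c ^ i := by
    intro w
    rw [Polynomial.eval₂_eq_sum_range, hcv]
  have hz0 : ∀ w ∈ HP, ∑ i ∈ Finset.range (p.natDegree + 1), ev0 (GA.OO hX) w (p.coeff i) * F w c ^ i = 0 := by
    have h1 : AnalyticOnNhd ℂ (fun w => ∑ i ∈ Finset.range (p.natDegree + 1), ev0 (GA.OO hX) w (p.coeff i) * F w c ^ i) HP := by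
      intro w hw
      exact Finset.analyticAt_fun_sum _ fun i _ => (han i w hw).fun_mul ((hFc w hw).fun_pow i)
    have h2 : IsPreconnected HP := (convex_halfSpace_re_gt 0).isPreconnected
    have h3 := h1.eqOn_zero_of_preconnected_of_eventuallyEq_zero h2 hz (by
      filter_upwards [hp] with w hw
      rw [← hsum, hw]
      rfl)
    exact fun w hw => h3 hw
  by_cases hn : n ≤ p.natDegree
  · have h4 := hc p.natDegree (fun i w => ev0 (GA.OO hX) w (p.coeff (i : ℕ))) (fun i => (p.coeff (i : ℕ)).2) (fun w hw => by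
      have h5 := hz0 w hw
      rw [Finset.sum_range] at h5
      rw [← h5]
      refine Finset.sum_congr rfl fun i _ => ?_
      rw [hF.one, one_pow, mul_one]) ⟨n, Nat.lt_succ_of_le hn⟩
    filter_upwards [ev_HP hz] with w hw
    exact h4 w hw
  · rw [Polynomial.coeff_eq_zero_of_natDegree_lt (not_le.1 hn)]
    exact Eventually.of_forall fun w => map_zero _

theorem horL (hP : Homog P) (hθ : LogPolar θ) (hm : ∀ k, 1 ≤ m k) (hb : b ∈ B) (f : LFrame θ b) (hF : LCurve P B b F) (hX : Lev (sp F) X)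
    (hne : ∃ w ∈ HP, deriv F w ≠ 0) : ∃ w₀ ∈ HP, ∃ V : ℂ → Fin (N + 2) → ℂ, AnalyticAt ℂ V w₀ ∧ V w₀ ≠ 0 ∧ RelP (GA.OO hX) (eF B F) V w₀ := by
  obtain ⟨w₁, hw₁, h0⟩ := hne
  obtain ⟨I, hI⟩ := exists_rowL hθ f hb (mem_Uc hF hw₁) (deriv_mem hF hw₁) h0
  have hd : deriv (eF B F) w₁ = embV B (F w₁) (deriv F w₁) := deriv_emb (hF.curve.an w₁ hw₁) (hF.ne w₁ hw₁)
  have h1 := hor_chart (isSmallRing_OO hX) (gfamL f) I (x := eF B F) isOpen_HP' hw₁ (analyticAt_emb (hF.curve.an w₁ hw₁) (hF.ne w₁ hw₁))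
    (fun l => ⟨_, gfam_small hP hθ hm hb f hF hX l, (ev_HP hw₁).mono fun w hw => eval_curve f hF l hw⟩)
    (fun h => hI (by
      have h2 := h.self_of_nhds
      rw [hd] at h2
      exact h2)) (trans_curve hF hX hw₁)
  obtain ⟨w₀, ⟨V, hV, hV0, hR⟩, hw₀⟩ := (h1.and_eventually (ev_HP hw₁)).exists
  exact ⟨w₀, hw₀, V, hV, hV0, hR⟩

end Pool.Agent.GL

end

section

/-!
# GL CntM: continuation of the variation field

`contL`: `RelP.lhs` for `G = gfamL f l`, `g = gval (thv θ F F') l` (`eval_curve`); `exists_continuation`, `exists_linear` (GA/CntA, CntB, compare GA/Cnt) with `exists_linL`; relations and linearised relations are analytic on `HP`: identity theorem.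
`detL`: uniqueness for the linear equation and identity theorem.
-/

set_option autoImplicit false

open MvPolynomial Topology Filter Metric
open Pool.Agent.H13.SM (conTan cone)
open Pool.Agent.GG Pool.Agent.GA

namespace Pool.Agent.GL

variable {N : ℕ} {P : Ideal (MvPolynomial (Fin (N + 1)) ℂ)} {B : Finset (Fin (N + 1))} {J : ℕ} {m : Fin J → ℕ} {θ : ∀ k, LogSec P B (m k)} {b : Fin (N + 1)}
  {F : ℂ → Fin (N + 1) → ℂ} {OO : Subalgebra ℂ (ℂ → ℂ)}

private theorem isOpen_hp : IsOpen HP := isOpen_lt continuous_const Complex.continuous_re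

private theorem convex_hp : Convex ℝ HP := convex_halfSpace_re_gt 0

private theorem an_evO {σ : Type} [Fintype σ] {w : ℂ} (hO : ∀ g ∈ OO, AnalyticAt ℂ g w) {y : ℂ → σ → ℂ} (hy : AnalyticAt ℂ y w)
    (R : MvPolynomial σ OO) : AnalyticAt ℂ (evO OO y R) w := by
  have h1 : evO OO y R = fun w => ∑ d ∈ R.support, ((R.coeff d : OO) : ℂ → ℂ) w * ∏ i, y w i ^ d i := by
    funext w
    unfold evO
    rw [eval₂_eq']
    rfl
  rw [h1]
  refine Finset.analyticAt_fun_sum _ fun d _ => ?_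
  refine (hO _ (R.coeff d).2).mul ?_
  exact Finset.analyticAt_fun_prod _ fun i _ => (analyticAt_pi_iff.1 hy i).pow _

private theorem an_pt {x : ℂ → Fin (N + 1) → ℂ} {w : ℂ} (hx : AnalyticAt ℂ x w) : AnalyticAt ℂ (fun w => pt (x w) (deriv x w)) w := by
  rw [analyticAt_pi_iff]
  rintro (b | b)
  · exact analyticAt_pi_iff.1 hx b
  · exact analyticAt_pi_iff.1 hx.deriv b

private theorem an_eF (hF : LCurve P B b F) {w : ℂ} (hw : w ∈ HP) : AnalyticAt ℂ (eF B F) w := analyticAt_emb (hF.curve.an w hw) (hF.ne w hw)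

private theorem relP_congr {x V V' : ℂ → Fin (N + 1) → ℂ} {w₀ : ℂ} (h : RelP OO x V w₀) (e : V =ᶠ[𝓝 w₀] V') : RelP OO x V' w₀ := by
  intro R hR
  filter_upwards [h R hR, eventually_eventually_nhds.2 e] with w h1 h2
  have e1 : V w = V' w := h2.self_of_nhds
  have e2 : deriv V w = deriv V' w := Filter.EventuallyEq.deriv_eq h2
  rw [← e1, ← e2]
  exact h1

/-- relations and linearised relations are analytic: identity theorem -/
private theorem relP_trans (hO : IsSmallRing OO HP) {x V : ℂ → Fin (N + 1) → ℂ} (hx : ∀ w ∈ HP, AnalyticAt ℂ x w) {D : Set ℂ} (hDo : IsOpen D)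
    (hDc : IsPreconnected D) (hD : D ⊆ HP) (hV : ∀ w ∈ D, AnalyticAt ℂ V w) {w₀ w₁ : ℂ} (hw₀ : w₀ ∈ D) (hw₁ : w₁ ∈ D) (h : RelP OO x V w₀) :
    RelP OO x V w₁ := by
  intro R hR
  have hev : ∀ R : MvPolynomial (Ph N) OO, AnalyticOnNhd ℂ (evO OO (fun w => pt (x w) (deriv x w)) R) HP := fun R w hw =>
    an_evO (fun g hg => hO.an g hg w hw) (an_pt (hx w hw)) R
  have h2 : Set.EqOn (evO OO (fun w => pt (x w) (deriv x w)) R) 0 HP :=
    (hev R).eqOn_zero_of_preconnected_of_eventuallyEq_zero convex_hp.isPreconnected (hD hw₁) hR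
  have h3 : ∀ᶠ w in 𝓝 w₀, evO OO (fun w => pt (x w) (deriv x w)) R w = 0 := by
    filter_upwards [isOpen_hp.mem_nhds (hD hw₀)] with w hw using h2 hw
  have h5 : AnalyticOnNhd ℂ (fun w => ∑ s, evO OO (fun w => pt (x w) (deriv x w)) (pderiv s R) w * pt (V w) (deriv V w) s) D := fun w hw =>
    Finset.analyticAt_fun_sum _ fun s _ => (hev _ w (hD hw)).mul (analyticAt_pi_iff.1 (an_pt (hV w hw)) s)
  have h6 := h5.eqOn_zero_of_preconnected_of_eventuallyEq_zero hDc hw₀ (h R h3)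
  filter_upwards [hDo.mem_nhds hw₁] with w hw using h6 hw

/-- the linearised equations of the family, from the relations -/
private theorem lin_of_relP (f : LFrame θ b) (hF : LCurve P B b F)
    (hg : ∀ l : GIx f.q J, (fun w => gval (thv θ (F w) (deriv F w)) l) ∈ OO) {V : ℂ → Fin (N + 2) → ℂ} {s : ℂ} (hs : s ∈ HP)
    (hR : RelP OO (eF B F) V s) : ∀ᶠ t in 𝓝 s, ∀ l, lhs (gfamL f l) (eF B F) V t = 0 := by
  rw [Filter.eventually_all]
  intro l
  refine RelP.lhs hR (hg l) ?_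
  filter_upwards [isOpen_hp.mem_nhds hs] with t ht
  exact eval_curve f hF l ht

theorem contL (hθ : LogPolar θ) (hm : ∀ k, 1 ≤ m k) (hb : b ∈ B) (f : LFrame θ b) (hF : LCurve P B b F) (hne : ∃ w ∈ HP, deriv F w ≠ 0) (hO : IsSmallRing OO HP)
    (hg : ∀ l : GIx f.q J, (fun w => gval (thv θ (F w) (deriv F w)) l) ∈ OO) {w₀ : ℂ} (hw : w₀ ∈ HP) {V : ℂ → Fin (N + 2) → ℂ} (hV : AnalyticAt ℂ V w₀)
    (hR : RelP OO (eF B F) V w₀) :
    ∃ V' : ℂ → Fin (N + 2) → ℂ, (∀ w ∈ HP, AnalyticAt ℂ V' w ∧ RelP OO (eF B F) V' w) ∧ V' =ᶠ[𝓝 w₀] V := by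
  have hx : ∀ w ∈ HP, AnalyticAt ℂ (eF B F) w := fun w hw => an_eF hF hw
  refine exists_continuation isOpen_hp convex_hp (Sol := fun σ z => AnalyticAt ℂ σ z ∧ RelP OO (eF B F) σ z)
    (fun σ σ' z h e => ⟨h.1.congr e, relP_congr h.2 e⟩) ?_ ?_ ?_ hw ⟨hV, hR⟩
  · intro σ z hz h
    obtain ⟨r, hr, hball⟩ := Metric.eventually_nhds_iff_ball.1 (h.1.eventually_analyticAt.and (isOpen_hp.mem_nhds hz))
    filter_upwards [isOpen_ball.mem_nhds (mem_ball_self hr)] with w hw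
    exact ⟨(hball w hw).1, relP_trans hO hx isOpen_ball (convex_ball z r).isPreconnected (fun w hw => (hball w hw).2)
      (fun w hw => (hball w hw).1) (mem_ball_self hr) hw h.2⟩
  · intro W _ hWc _ σ σ' h1 h2 z hz he
    exact AnalyticOnNhd.eqOn_of_preconnected_of_eventuallyEq (fun w hw => (h1 w hw).1) (fun w hw => (h2 w hw).1) hWc.isPreconnected hz he
  · intro z hz
    obtain ⟨ρ, hρ, hρU, A, hA, hAV⟩ := exists_linL hθ hm hb f hF hne hz
    obtain ⟨r, hr, hrρ, hBr, hsol⟩ := exists_linear (hA z (mem_ball_self hρ)) hρ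
    have hsub : ball z r ⊆ ball z ρ := ball_subset_ball hrρ
    refine ⟨r, hr, hsub.trans hρU, fun W hWo hWc hWr hWn σ hσ => ?_⟩
    obtain ⟨w, hwW⟩ := hWn
    have hV₀ : ∀ s ∈ W, HasDerivAt σ (A s (σ s)) s := by
      intro s hs
      have h2 := lin_of_relP f hF hg (hρU (hsub (hWr hs))) (hσ s hs).2
      have h4 := (hAV s (hsub (hWr hs)) σ (hσ s hs).1 h2).self_of_nhds
      rw [← h4]
      exact (hσ s hs).1.differentiableAt.hasDerivAt
    obtain ⟨V', hVw, hV'⟩ := hsol w (hWr hwW) (σ w)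
    have hVeq : Set.EqOn V' σ W :=
      linear_unique hWo hWc.isPreconnected hwW (hBr w (hWr hwW)) hVw (fun s hs => hV' s (hWr hs)) hV₀
    have hVa : AnalyticOnNhd ℂ V' (ball z r) := analyticOnNhd_of_linear isOpen_ball hV'
    have hVσ : σ =ᶠ[𝓝 w] V' := by
      filter_upwards [hWo.mem_nhds hwW] with s hs using (hVeq hs).symm
    refine ⟨V', fun s hs => ⟨hVa s hs, ?_⟩, fun s hs => (hVeq hs).symm⟩
    exact relP_trans hO hx isOpen_ball (convex_ball z r).isPreconnected (hsub.trans hρU) hVa (hWr hwW) hs (relP_congr (hσ w hwW).2 hVσ)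

theorem detL (hθ : LogPolar θ) (hm : ∀ k, 1 ≤ m k) (hb : b ∈ B) (f : LFrame θ b) (hF : LCurve P B b F) (hne : ∃ w ∈ HP, deriv F w ≠ 0) (hO : IsSmallRing OO HP)
    (hg : ∀ l : GIx f.q J, (fun w => gval (thv θ (F w) (deriv F w)) l) ∈ OO) {V : ℂ → Fin (N + 2) → ℂ}
    (hV : ∀ w ∈ HP, AnalyticAt ℂ V w ∧ RelP OO (eF B F) V w) {w₁ : ℂ} (hw : w₁ ∈ HP) (h0 : V w₁ = 0) : ∀ w ∈ HP, V w = 0 := by
  obtain ⟨ρ, hρ, hρU, A, hA, hAV⟩ := exists_linL hθ hm hb f hF hne hw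
  have hlin : ∀ s ∈ ball w₁ ρ, HasDerivAt V (A s (V s)) s := by
    intro s hs
    have h2 := lin_of_relP f hF hg (hρU hs) (hV s (hρU hs)).2
    have h4 := (hAV s hs V (hV s (hρU hs)).1 h2).self_of_nhds
    rw [← h4]
    exact (hV s (hρU hs)).1.differentiableAt.hasDerivAt
  have h1 : V =ᶠ[𝓝 w₁] fun _ => 0 := by
    refine linear_unique_nhds (hA w₁ (mem_ball_self hρ)) h0 ?_ (Filter.Eventually.of_forall fun s => ?_)
    · filter_upwards [isOpen_ball.mem_nhds (mem_ball_self hρ)] with s hs using hlin s hs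
    · rw [map_zero]
      exact hasDerivAt_const s _
  intro w hw'
  exact AnalyticOnNhd.eqOn_of_preconnected_of_eventuallyEq (fun w hw => (hV w hw).1) analyticOnNhd_const convex_hp.isPreconnected hw h1 hw'

end Pool.Agent.GL

end

section

/-!
# GL EigL: an eigenvector of the shift

`GA.exists_eig` for `U = HP`, `p = per` and the space of the `V` with `∀ w ∈ HP, AnalyticAt ℂ V w ∧ RelP OO (eF B F) V w` (as `GA/Eig`: `RelP` is linear in `V`; invariance: `F`, `eF B F` (on `HP`) and the elements of `OO` are periodic), `detL`.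
-/

set_option autoImplicit false

open MvPolynomial Topology Filter Metric
open Pool.Agent.H13.SM (conTan cone)
open Pool.Agent.GG Pool.Agent.GA

namespace Pool.Agent.GL

variable {N : ℕ} {P : Ideal (MvPolynomial (Fin (N + 1)) ℂ)} {B : Finset (Fin (N + 1))} {J : ℕ} {m : Fin J → ℕ} {θ : ∀ k, LogSec P B (m k)} {b : Fin (N + 1)}
  {F : ℂ → Fin (N + 1) → ℂ} {OO : Subalgebra ℂ (ℂ → ℂ)}

private theorem hp_open : IsOpen HP := isOpen_lt continuous_const Complex.continuous_re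

private theorem hp_per (w : ℂ) : w + per ∈ HP ↔ w ∈ HP := by
  have h : (w + per).re = w.re := by simp [per]
  show 0 < (w + per).re ↔ 0 < w.re
  rw [h]

private theorem per_ne : per ≠ 0 := by
  simp [per, Real.pi_ne_zero]

/-! ### `RelP` is linear in the variation -/

private theorem pt_zero (w : ℂ) (s : Ph N) : pt ((0 : ℂ → Fin (N + 1) → ℂ) w) (deriv (0 : ℂ → Fin (N + 1) → ℂ) w) s = 0 := by
  have hd : deriv (0 : ℂ → Fin (N + 1) → ℂ) w = 0 := deriv_const w (0 : Fin (N + 1) → ℂ)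
  rw [hd]
  cases s <;> rfl

private theorem pt_add {V V' : ℂ → Fin (N + 1) → ℂ} {w : ℂ} (hV : DifferentiableAt ℂ V w) (hV' : DifferentiableAt ℂ V' w) (s : Ph N) :
    pt ((V + V') w) (deriv (V + V') w) s = pt (V w) (deriv V w) s + pt (V' w) (deriv V' w) s := by
  have hd : deriv (V + V') w = deriv V w + deriv V' w := deriv_add hV hV'
  rw [hd]
  cases s <;> rfl

private theorem pt_smul {V : ℂ → Fin (N + 1) → ℂ} {w : ℂ} (c : ℂ) (hV : DifferentiableAt ℂ V w) (s : Ph N) :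
    pt ((c • V) w) (deriv (c • V) w) s = c * pt (V w) (deriv V w) s := by
  have hd : deriv (c • V) w = c • deriv V w := deriv_const_smul c hV
  rw [hd]
  cases s <;> rfl

private theorem relP_zero (x : ℂ → Fin (N + 1) → ℂ) (w₀ : ℂ) : RelP OO x 0 w₀ := by
  intro R _
  exact Eventually.of_forall fun w => Finset.sum_eq_zero fun s _ => by rw [pt_zero, mul_zero]

private theorem relP_add {x V V' : ℂ → Fin (N + 1) → ℂ} {w₀ : ℂ} (hV : AnalyticAt ℂ V w₀) (hV' : AnalyticAt ℂ V' w₀) (h : RelP OO x V w₀)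
    (h' : RelP OO x V' w₀) : RelP OO x (V + V') w₀ := by
  intro R hR
  filter_upwards [h R hR, h' R hR, hV.eventually_analyticAt, hV'.eventually_analyticAt] with w e1 e2 a1 a2
  simp only [pt_add a1.differentiableAt a2.differentiableAt, mul_add, Finset.sum_add_distrib]
  rw [e1, e2, add_zero]

private theorem relP_smul {x V : ℂ → Fin (N + 1) → ℂ} {w₀ : ℂ} (c : ℂ) (hV : AnalyticAt ℂ V w₀) (h : RelP OO x V w₀) : RelP OO x (c • V) w₀ := by
  intro R hR
  filter_upwards [h R hR, hV.eventually_analyticAt] with w e1 a1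
  simp only [pt_smul c a1.differentiableAt, mul_left_comm _ c, ← Finset.mul_sum]
  rw [e1, mul_zero]

/-! ### the shift -/

private theorem deriv_shift {E : Type} [NormedAddCommGroup E] [NormedSpace ℂ E] {g h : ℂ → E} {w : ℂ} (hw : w ∈ HP) (e : ∀ w ∈ HP, g (w + per) = h w) :
    deriv g (w + per) = deriv h w := by
  have h1 : (fun w => g (w + per)) =ᶠ[𝓝 w] h := by
    filter_upwards [hp_open.mem_nhds hw] with z hz
    exact e z hz
  rw [← h1.deriv_eq, deriv_comp_add_const]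

private theorem evO_shift (hOp : ∀ g ∈ OO, ∀ w ∈ HP, g (w + per) = g w) {σ : Type} {y : ℂ → σ → ℂ} (hy : ∀ w ∈ HP, y (w + per) = y w)
    (R : MvPolynomial σ OO) {w : ℂ} (hw : w ∈ HP) : evO OO y R (w + per) = evO OO y R w := by
  unfold evO
  rw [hy w hw]
  have h1 : ev0 OO (w + per) = ev0 OO w := by
    ext g
    exact hOp g g.2 w hw
  rw [h1]

private theorem relP_shift (hOp : ∀ g ∈ OO, ∀ w ∈ HP, g (w + per) = g w) {x : ℂ → Fin (N + 1) → ℂ} (hx : ∀ w ∈ HP, x (w + per) = x w)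
    {V : ℂ → Fin (N + 1) → ℂ} {w₀ : ℂ} (hw₀ : w₀ ∈ HP) (h : RelP OO x V (w₀ + per)) : RelP OO x (fun w => V (w + per)) w₀ := by
  have hy : ∀ w ∈ HP, (fun w => pt (x w) (deriv x w)) (w + per) = (fun w => pt (x w) (deriv x w)) w := by
    intro w hw
    show pt (x (w + per)) (deriv x (w + per)) = pt (x w) (deriv x w)
    rw [hx w hw, deriv_shift hw hx]
  intro R hR
  have h1 : ∀ᶠ w in 𝓝 (w₀ + per), evO OO (fun w => pt (x w) (deriv x w)) R w = 0 := by
    have h2 : Tendsto (fun z : ℂ => z - per) (𝓝 (w₀ + per)) (𝓝 w₀) := by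
      have h3 : Continuous fun z : ℂ => z - per := continuous_id.sub continuous_const
      have h4 := h3.tendsto (w₀ + per)
      rwa [add_sub_cancel_right] at h4
    filter_upwards [h2.eventually hR, h2.eventually (hp_open.mem_nhds hw₀)] with w e1 hw
    have h3 := evO_shift (y := fun w => pt (x w) (deriv x w)) hOp hy R hw
    rw [sub_add_cancel] at h3
    rw [h3]
    exact e1
  have h2 : Tendsto (fun z : ℂ => z + per) (𝓝 w₀) (𝓝 (w₀ + per)) := (continuous_id.add continuous_const).tendsto w₀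
  filter_upwards [h2.eventually (h R h1), hp_open.mem_nhds hw₀] with w e1 hw
  rw [← e1]
  refine Finset.sum_congr rfl fun s _ => ?_
  rw [evO_shift (y := fun w => pt (x w) (deriv x w)) hOp hy (pderiv s R) hw, deriv_comp_add_const]

theorem exists_eigL (hθ : LogPolar θ) (hm : ∀ k, 1 ≤ m k) (hb : b ∈ B) (f : LFrame θ b) (hF : LCurve P B b F) (hne : ∃ w ∈ HP, deriv F w ≠ 0) (hO : IsSmallRing OO HP)
    (hOp : ∀ g ∈ OO, ∀ w ∈ HP, g (w + per) = g w) (hg : ∀ l : GIx f.q J, (fun w => gval (thv θ (F w) (deriv F w)) l) ∈ OO) {w₀ : ℂ} (hw : w₀ ∈ HP)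
    {V : ℂ → Fin (N + 2) → ℂ} (hV : ∀ w ∈ HP, AnalyticAt ℂ V w ∧ RelP OO (eF B F) V w) (h0 : V w₀ ≠ 0) :
    ∃ (V' : ℂ → Fin (N + 2) → ℂ) (q : ℂ), (∀ w ∈ HP, AnalyticAt ℂ V' w ∧ RelP OO (eF B F) V' w) ∧ V' w₀ ≠ 0 ∧
      ∀ w ∈ HP, V' (w + per) = Complex.exp (q * per) • V' w := by
  have hx : ∀ w ∈ HP, eF B F (w + per) = eF B F w := by
    intro w hw
    show emb B (F (w + per)) = emb B (F w)
    rw [hF.curve.periodic w hw]
  let VV : Submodule ℂ (ℂ → Fin (N + 2) → ℂ) :=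
    { carrier := {V | ∀ w ∈ HP, AnalyticAt ℂ V w ∧ RelP OO (eF B F) V w}
      zero_mem' := fun w _ => ⟨analyticAt_const, relP_zero _ _⟩
      add_mem' := by
        intro V₁ V₂ h1 h2 w hw
        exact ⟨(h1 w hw).1.add (h2 w hw).1, relP_add (h1 w hw).1 (h2 w hw).1 (h1 w hw).2 (h2 w hw).2⟩
      smul_mem' := by
        intro c V₁ h1 w hw
        exact ⟨analyticAt_const.smul (h1 w hw).1, relP_smul c (h1 w hw).1 (h1 w hw).2⟩ }
  obtain ⟨V', hV', μ, hμ, hV'0, hsh⟩ := exists_eig (E := Fin (N + 2) → ℂ) (U := HP) (p := per) (w₀ := w₀) hp_per hw VV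
    (by
      intro Z hZ w hw
      have h1 := hZ (w + per) ((hp_per w).2 hw)
      exact ⟨AnalyticAt.comp (g := Z) (f := fun w : ℂ => w + per) h1.1 (analyticAt_id.add analyticAt_const), relP_shift hOp hx hw h1.2⟩)
    (fun Z hZ h1 => detL hθ hm hb f hF hne hO hg hZ hw h1)
    ⟨V, hV, w₀, hw, h0⟩
  obtain ⟨q, hq⟩ := exists_per per_ne hμ
  refine ⟨V', q, hV', hV'0, fun w hw => ?_⟩
  rw [hq]
  exact hsh w hw

end Pool.Agent.GL

end

section

/-!
# GL VbA: a family of solutions with the derivative `V`, near one point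

The zeros of `F'` in `HP` are isolated, so countable: choose `w₁` with `1 < Re w₁ < 2`, no zero of `F'` on the vertical line through `w₁` (its real part avoids countably many numbers), and such that `exists_vf` holds at `w₁` for `x = eF B F` and `V`
(it holds at all points of a punctured neighbourhood of every point, so the bad points are isolated as well: countable).  `exists_disc`: `Z' (0) = (V, V') (w₁)`.  `exists_rowL` at `(F w₁, F' w₁)`, `deriv_emb`; `exists_sol` for `G = gfamL f`,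
`g l = gval (thv θ F F') l ∈ GA.OO hX` (`gfam_small`, `eval_curve`).  `fderiv Φ (w₁, 0) (0, 1) = V w₁`: the first half of `Z (s 0) = (Φ (w₁, s), …)`.  Height at `(w₁, s)`: bounded after shrinking `ρ` (continuity; `lFam_of_nSol`: the point is in `Uc`).
-/

set_option autoImplicit false

open MvPolynomial Topology Filter Metric
open Pool.Agent.H13.SM (conTan cone)
open Pool.Agent.H62.FC (Homog)
open Pool.Agent.GG Pool.Agent.GA

namespace Pool.Agent.GL

variable {N : ℕ} {P : Ideal (MvPolynomial (Fin (N + 1)) ℂ)} {B : Finset (Fin (N + 1))} {J : ℕ} {m : Fin J → ℕ} {θ : ∀ k, LogSec P B (m k)} {b : Fin (N + 1)}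
  {F : ℂ → Fin (N + 1) → ℂ} {X : ℕ → ℝ}

private theorem VbA_countable {S : Set ℂ} (h : ∀ z ∈ S, ∀ᶠ v in 𝓝[≠] z, v ∉ S) : S.Countable := by
  have hd : DiscreteTopology S := by
    rw [discreteTopology_subtype_iff]
    intro w hw
    rw [← _root_.disjoint_iff, Filter.disjoint_principal_right]
    exact h w hw
  exact Set.countable_coe_iff.1 (countable_of_Lindelof_of_discrete (X := S))

/-- a point `w₁` with `1 < Re w₁ < 2`: the whole line through it avoids an exceptional set, and it avoids another one -/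
private theorem VbA_exists_line {p q : ℂ → Prop} (hp : ∀ z ∈ HP, ∀ᶠ v in 𝓝[≠] z, p v) (hq : ∀ z ∈ HP, ∀ᶠ v in 𝓝[≠] z, q v) :
    ∃ w₁ : ℂ, 1 < w₁.re ∧ w₁.re < 2 ∧ (∀ z : ℂ, z.re = w₁.re → p z) ∧ q w₁ := by
  have h1 : {z : ℂ | z ∈ HP ∧ ¬ (p z ∧ q z)}.Countable := by
    refine VbA_countable fun z hz => ?_
    filter_upwards [hp z hz.1, hq z hz.1] with v h2 h3 h4 using h4.2 ⟨h2, h3⟩
  have h2 := h1.image Complex.re
  obtain ⟨a, ha, ha2⟩ := (h2.dense_compl ℝ).exists_mem_open (isOpen_Ioo (a := (1 : ℝ)) (b := 2)) ⟨3 / 2, by norm_num, by norm_num⟩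
  have h3 : ∀ z : ℂ, z.re = a → p z ∧ q z := by
    intro z hz
    by_contra h4
    refine ha ⟨z, ⟨?_, h4⟩, hz⟩
    show 0 < z.re
    rw [hz]
    linarith [ha2.1]
  refine ⟨(a : ℂ), by rw [Complex.ofReal_re]; exact ha2.1, by rw [Complex.ofReal_re]; exact ha2.2, fun z hz => ?_, (h3 _ (Complex.ofReal_re a)).2⟩
  rw [Complex.ofReal_re] at hz
  exact (h3 z hz).1

private theorem VbA_rho_cont {x : Fin (N + 1) → ℂ} (hx : x ≠ 0) (h : ∀ i ∈ B, x i ≠ 0) : ContinuousAt (fun y => Rho B y) x := by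
  have h1 : ContinuousAt (fun y : Fin (N + 1) → ℂ => Real.log ‖y‖) x := (continuous_norm.continuousAt).log (norm_ne_zero_iff.2 hx)
  refine h1.add (tendsto_finsetSum _ fun i hi => h1.sub ?_)
  exact ((continuous_apply i).norm.continuousAt).log (norm_ne_zero_iff.2 (h i hi))

theorem vb_base (hP : Homog P) (hθ : LogPolar θ) (hm : ∀ k, 1 ≤ m k) (hb : b ∈ B) (f : LFrame θ b) (hF : LCurve P B b F) (hX : Lev (sp F) X)
    (hne : ∃ w ∈ HP, deriv F w ≠ 0) {V : ℂ → Fin (N + 2) → ℂ} (hV : ∀ w ∈ HP, AnalyticAt ℂ V w ∧ RelP (GA.OO hX) (eF B F) V w) :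
    ∃ w₁ : ℂ, 1 < w₁.re ∧ w₁.re < 2 ∧ (∀ z : ℂ, z.re = w₁.re → deriv F z ≠ 0) ∧ ∃ ρ > 0, ∃ (Φ : ℂ × (Fin 1 → ℂ) → Fin (N + 2) → ℂ) (M : ℝ),
      (∀ s : Fin 1 → ℂ, ‖s‖ < ρ → NSol (gfamL f) (fun l q => gval (thv θ (F q.1) (deriv F q.1)) l) Φ (w₁, s)) ∧ (∀ᶠ z in 𝓝 w₁, Φ (z, 0) = eF B F z) ∧
      fderiv ℂ Φ (w₁, 0) (0, 1) = V w₁ ∧ ∀ s : Fin 1 → ℂ, ‖s‖ < ρ → Rho B (fun i => Φ (w₁, s) (Fin.castSucc i)) ≤ M := by
  have hHP : IsOpen HP := isOpen_lt continuous_const Complex.continuous_re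
  have hO := isSmallRing_OO hX
  have hx : ∀ w ∈ HP, AnalyticAt ℂ (eF B F) w := fun w hw => analyticAt_emb (hF.curve.an w hw) (hF.ne w hw)
  have hdx : ∀ w ∈ HP, deriv (eF B F) w = embV B (F w) (deriv F w) := fun w hw => deriv_emb (hF.curve.an w hw) (hF.ne w hw)
  -- the zeros of `F'` are isolated
  have hz : ∀ z ∈ HP, ∀ᶠ v in 𝓝[≠] z, deriv F v ≠ 0 := by
    intro z hz
    rcases (hF.curve.an z hz).deriv.eventually_eq_zero_or_eventually_ne_zero with h | h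
    · obtain ⟨w₀, hw₀, h0⟩ := hne
      have hU : IsPreconnected HP := (convex_halfSpace_re_gt 0).isPreconnected
      have hA : AnalyticOnNhd ℂ (deriv F) HP := fun w hw => (hF.curve.an w hw).deriv
      exact absurd (hA.eqOn_zero_of_preconnected_of_eventuallyEq_zero hU hz h hw₀) h0
    · exact h
  -- the point `w₁`
  obtain ⟨w₁, h1, h2, h3, A, hA, hAV⟩ := VbA_exists_line hz fun z hz => exists_vf hO hHP hz (hx z hz) (hV z hz).1 (hV z hz).2
  have hw : w₁ ∈ HP := lt_trans one_pos h1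
  refine ⟨w₁, h1, h2, h3, ?_⟩
  -- the disc of initial values
  obtain ⟨Z, hZ, hZ0, hZ1, hZR⟩ := exists_disc (y := fun w => pt (eF B F w) (deriv (eF B F) w)) A hA
  -- the minor
  have hUc : F w₁ ∈ Uc P B b := ⟨hF.curve.cone w₁ hw, hF.one w₁, hF.ne w₁ hw⟩
  have hTc : deriv F w₁ ∈ Tc P b (F w₁) := by
    refine deriv_mem_Tc (B := B) (hF.curve.an w₁ hw) ?_
    filter_upwards [hHP.mem_nhds hw] with w h5
    exact ⟨hF.curve.cone w h5, hF.one w, hF.ne w h5⟩
  obtain ⟨I, hI⟩ := exists_rowL hθ f hb hUc hTc (h3 w₁ rfl)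
  have hI' : eval (pt (eF B F w₁) (deriv (eF B F) w₁)) (vdet (gfamL f) I) ≠ 0 := by
    rw [hdx w₁ hw]
    exact hI
  have hG : ∀ᶠ w in 𝓝 w₁, ∀ l, eval (pt (eF B F w) (deriv (eF B F) w)) (gfamL f l) = (fun w => gval (thv θ (F w) (deriv F w)) l) w := by
    filter_upwards [hHP.mem_nhds hw] with w h5 l
    exact eval_curve f hF l h5
  obtain ⟨ρ, hρ, Φ, hΦ, hΦ1, hΦ2⟩ := exists_sol hO (gfamL f) (g := fun l w => gval (thv θ (F w) (deriv F w)) l) (fun l => gfam_small hP hθ hm hb f hF hX l)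
    hw (hx w₁ hw) hG I hI' hZ hZ0 hZR
  -- the value at `(w₁, s)`
  have hval : ∀ s : Fin 1 → ℂ, ‖s‖ < ρ → Φ (w₁, s) = fun i => Z (s 0) (Sum.inl i) := by
    intro s hs
    funext i
    have h5 := congrFun (hΦ1 s hs) (Sum.inl i)
    exact h5
  have hconst : ∀ t : ℂ, ‖(fun _ : Fin 1 => t)‖ = ‖t‖ := fun t => pi_norm_const t
  -- the derivative in `s`
  have hder : fderiv ℂ Φ (w₁, 0) (0, 1) = V w₁ := by
    have hΦan : AnalyticAt ℂ Φ (w₁, 0) := (hΦ 0 (by rw [norm_zero]; exact hρ)).1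
    have h5 : HasDerivAt (fun t : ℂ => ((w₁, fun _ => t) : ℂ × (Fin 1 → ℂ))) ((0, 1) : ℂ × (Fin 1 → ℂ)) 0 := by
      have h6 : HasDerivAt (fun t : ℂ => (fun _ : Fin 1 => t)) (1 : Fin 1 → ℂ) 0 := hasDerivAt_pi.2 fun _ => hasDerivAt_id (0 : ℂ)
      exact (hasDerivAt_const (0 : ℂ) w₁).prodMk h6
    have h6 : HasDerivAt (fun t : ℂ => Φ (w₁, fun _ => t)) (fderiv ℂ Φ (w₁, 0) (0, 1)) 0 := by
      have h7 : HasFDerivAt Φ (fderiv ℂ Φ (w₁, 0)) ((fun t : ℂ => ((w₁, fun _ => t) : ℂ × (Fin 1 → ℂ))) 0) := hΦan.differentiableAt.hasFDerivAt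
      exact h7.comp_hasDerivAt (0 : ℂ) h5
    have h7 : HasDerivAt (fun t : ℂ => fun i : Fin (N + 2) => Z t (Sum.inl i)) (fun i => deriv Z 0 (Sum.inl i)) 0 :=
      hasDerivAt_pi.2 fun i => hasDerivAt_pi.1 hZ.differentiableAt.hasDerivAt (Sum.inl i)
    have h8 : (fun t : ℂ => Φ (w₁, fun _ => t)) =ᶠ[𝓝 0] fun t : ℂ => fun i : Fin (N + 2) => Z t (Sum.inl i) := by
      filter_upwards [ball_mem_nhds (0 : ℂ) hρ] with t ht
      rw [mem_ball_zero_iff] at ht
      exact hval (fun _ => t) (by rw [hconst]; exact ht)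
    rw [(h7.congr_of_eventuallyEq h8).unique h6 |>.symm]
    funext i
    rw [hZ1, hAV]
    rfl
  -- the height
  have hne0 : F w₁ ≠ 0 := by
    intro h5
    have h6 := hF.one w₁
    rw [h5] at h6
    exact zero_ne_one h6
  have hcont : ContinuousAt (fun t : ℂ => Rho B (fun i : Fin (N + 1) => Z t (Sum.inl i.castSucc))) 0 := by
    have h5 : ContinuousAt (fun t : ℂ => fun i : Fin (N + 1) => Z t (Sum.inl i.castSucc)) 0 :=
      continuousAt_pi.2 fun i => (continuous_apply (Sum.inl i.castSucc : Ph (N + 1))).continuousAt.comp hZ.continuousAt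
    have h6 : (fun i : Fin (N + 1) => Z 0 (Sum.inl i.castSucc)) = F w₁ := by
      funext i
      rw [hZ0]
      show Fin.snoc (α := fun _ => ℂ) (F w₁) _ i.castSucc = F w₁ i
      rw [Fin.snoc_castSucc]
    have h7 : ContinuousAt (fun y => Rho B y) (fun i : Fin (N + 1) => Z 0 (Sum.inl i.castSucc)) := by
      rw [h6]
      exact VbA_rho_cont hne0 (hF.ne w₁ hw)
    exact ContinuousAt.comp (g := fun y => Rho B y) h7 h5
  obtain ⟨r, hr, hrb⟩ := Metric.eventually_nhds_iff_ball.1 (hcont.eventually (gt_mem_nhds (lt_add_one (Rho B (fun i : Fin (N + 1) => Z 0 (Sum.inl i.castSucc))))))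
  refine ⟨min ρ r, lt_min hρ hr, Φ, Rho B (fun i : Fin (N + 1) => Z 0 (Sum.inl i.castSucc)) + 1, fun s hs => hΦ s (hs.trans_le (min_le_left _ _)), hΦ2, hder, fun s hs => ?_⟩
  rw [hval s (hs.trans_le (min_le_left _ _))]
  refine (hrb (s 0) ?_).le
  rw [mem_ball_zero_iff]
  exact ((norm_le_pi_norm s 0).trans_lt hs).trans_le (min_le_right _ _)

end Pool.Agent.GL

end

section

/-!
# GL Vb: the variation field is small on the levels

`vb_base`: `w₁`, `ρ`, `Φ₀`, `M₀` (fixed once and for all, independent of `n` and `w`).  Let `n` be given and `w` with `1 < Re w < X n - 1 / τ`, such that the horizontal line through `w` contains no zero of `F'` (it fails for countably many `Im w` only).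
Leg 1: a thin neighbourhood of the vertical segment from `w₁` to `c = Re w₁ + i Im w`; leg 2: a thin neighbourhood of the horizontal segment from `c` to `w` (`Vb_nbhd`); closures inside `1 < Re < X n - 1 / τ`, without zeros of `F'`.
`vb_leg` twice, with `T = K τ ^ k` (`thv_levels`), `D ≤ |Im w₁| + 10` and `D ≤ X n + 2 ≤ 3 τ`: `Rho (Φ (w, s)) ≤ K' τ ^ k'` for `‖s‖ < ρ`, `V = ∂Φ/∂s (·, 0)` on both legs (`RelP.lhs` for `V`,
`eval_curve`, `gfam_small`), in particular at `w`.  `exists_av` at `a = 0` with `R = ρ / 2`, for `t ↦ Φ (w, fun _ => t)` (first `N + 1` coordinates; in `Uc` by `lFam_of_nSol`) and `g t = thv θ (Φ) (∂Φ/∂s) i` (`deriv_mem_Tc`, `analyticAt_thv`, `theta_bdL`):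
the claim for `w`.  The other `w` by continuity of `F`, `V` and density (the bound does not depend on `w`).
-/

set_option autoImplicit false

open MvPolynomial Topology Filter Metric
open Pool.Agent.H13.SM (conTan cone)
open Pool.Agent.H62.FC (Homog)
open Pool.Agent.GG Pool.Agent.GA

namespace Pool.Agent.GL

variable {N : ℕ} {P : Ideal (MvPolynomial (Fin (N + 1)) ℂ)} {B : Finset (Fin (N + 1))} {J : ℕ} {m : Fin J → ℕ} {θ : ∀ k, LogSec P B (m k)} {b : Fin (N + 1)}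
  {F : ℂ → Fin (N + 1) → ℂ} {X : ℕ → ℝ}

private theorem Vb_countable {S : Set ℂ} (h : ∀ z ∈ S, ∀ᶠ v in 𝓝[≠] z, v ∉ S) : S.Countable := by
  have hd : DiscreteTopology S := by
    rw [discreteTopology_subtype_iff]
    intro w hw
    rw [← _root_.disjoint_iff, Filter.disjoint_principal_right]
    exact h w hw
  exact Set.countable_coe_iff.1 (countable_of_Lindelof_of_discrete (X := S))

/-- a thin neighbourhood of a segment -/
private theorem Vb_nbhd {U : Set ℂ} (hU : IsOpen U) {a c : ℂ} (h : segment ℝ a c ⊆ U) :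
    ∃ Ω : Set ℂ, IsOpen Ω ∧ Convex ℝ Ω ∧ Bornology.IsBounded Ω ∧ closure Ω ⊆ U ∧ a ∈ Ω ∧ c ∈ Ω ∧ ∀ z ∈ Ω, ∀ z' ∈ Ω, ‖z - z'‖ ≤ dist a c + 2 := by
  have hcomp : IsCompact (segment ℝ a c) := by
    rw [segment_eq_image]
    exact isCompact_Icc.image (by fun_prop)
  obtain ⟨δ, hδ, h1⟩ := hcomp.exists_cthickening_subset_open hU h
  have hε : 0 < min δ 1 := lt_min hδ one_pos
  refine ⟨thickening (min δ 1) (segment ℝ a c), isOpen_thickening, (convex_segment a c).thickening _, hcomp.isBounded.thickening,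
    (closure_thickening_subset_cthickening _ _).trans ((cthickening_mono (min_le_left _ _) _).trans h1), self_subset_thickening hε _ (left_mem_segment ℝ a c),
    self_subset_thickening hε _ (right_mem_segment ℝ a c), fun z hz z' hz' => ?_⟩
  obtain ⟨y, hy, hzy⟩ := mem_thickening_iff.1 hz
  obtain ⟨y', hy', hzy'⟩ := mem_thickening_iff.1 hz'
  have h2 : dist y y' ≤ dist a c := by
    have h3 := dist_le_diam_of_mem hcomp.isBounded hy hy'
    rwa [← convexHull_pair, convexHull_diam, diam_pair] at h3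
  have h4 : dist z z' ≤ dist z y + dist y y' + dist y' z' := dist_triangle4 _ _ _ _
  rw [dist_comm y' z'] at h4
  rw [← dist_eq_norm]
  have h5 : dist z y < 1 := lt_of_lt_of_le hzy (min_le_right _ _)
  have h6 : dist z' y' < 1 := lt_of_lt_of_le hzy' (min_le_right _ _)
  linarith

private theorem Vb_HP : IsOpen HP := isOpen_lt continuous_const Complex.continuous_re

private theorem Vb_zeros (hF : LCurve P B b F) (hne : ∃ w ∈ HP, deriv F w ≠ 0) {z : ℂ} (hz : z ∈ HP) : ∀ᶠ v in 𝓝[≠] z, deriv F v ≠ 0 := by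
  rcases (hF.curve.an z hz).deriv.eventually_eq_zero_or_eventually_ne_zero with h | h
  · obtain ⟨w₀, hw₀, h0⟩ := hne
    have hU : IsPreconnected HP := (convex_halfSpace_re_gt 0).isPreconnected
    have hA : AnalyticOnNhd ℂ (deriv F) HP := fun w hw => (hF.curve.an w hw).deriv
    exact absurd (hA.eqOn_zero_of_preconnected_of_eventuallyEq_zero hU hz h hw₀) h0
  · exact h

private theorem Vb_emb (x : Fin (N + 1) → ℂ) (i : Fin (N + 1)) : emb B x i.castSucc = x i := by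
  simp [emb]

private theorem Vb_const (t : ℂ) : ‖(fun _ : Fin 1 => t)‖ = ‖t‖ := pi_norm_const t

private theorem Vb_line (w t : ℂ) : HasDerivAt (fun t : ℂ => ((w, fun _ => t) : ℂ × (Fin 1 → ℂ))) ((0, 1) : ℂ × (Fin 1 → ℂ)) t := by
  have h6 : HasDerivAt (fun t : ℂ => (fun _ : Fin 1 => t)) (1 : Fin 1 → ℂ) t := hasDerivAt_pi.2 fun _ => hasDerivAt_id t
  exact (hasDerivAt_const t w).prodMk h6

private theorem Vb_linean (w t : ℂ) : AnalyticAt ℂ (fun t : ℂ => ((w, fun _ => t) : ℂ × (Fin 1 → ℂ))) t := by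
  have h6 : AnalyticAt ℂ (fun t : ℂ => (fun _ : Fin 1 => t)) t := analyticAt_pi_iff.2 fun _ => analyticAt_id
  exact analyticAt_const.prod h6

/-- the value at `w` from a family with small height -/
private theorem Vb_av (hP : Homog P) (hθ : LogPolar θ) (hm : ∀ k, 1 ≤ m k) (hb : b ∈ B) (f : LFrame θ b) : ∃ A > 0, ∀ (F : ℂ → Fin (N + 1) → ℂ) (w : ℂ) (ρ : ℝ),
    0 < ρ → ∀ (Φ : ℂ × (Fin 1 → ℂ) → Fin (N + 2) → ℂ) (M : ℝ),
    (∀ s : Fin 1 → ℂ, ‖s‖ < ρ → NSol (gfamL f) (fun l q => gval (thv θ (F q.1) (deriv F q.1)) l) Φ (w, s)) → Φ (w, 0) = eF B F w →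
    (∀ s : Fin 1 → ℂ, ‖s‖ < ρ → Rho B (fun i => Φ (w, s) (Fin.castSucc i)) ≤ M) → ∀ v : Fin (N + 2) → ℂ, v = fderiv ℂ Φ (w, 0) (0, 1) →
    ∀ i, ‖thv θ (F w) (fun j => v (Fin.castSucc j)) i‖ ≤ A * (A * (M + 1) / ρ) ^ m i := by
  obtain ⟨c₀, -, C₀, hC₀, hbd⟩ := theta_bdL hP hθ hm hb
  obtain ⟨K, hK, hav⟩ := exists_av (N := N) B b
  refine ⟨max C₀ (2 * K), lt_max_of_lt_left hC₀, fun F w ρ hρ Φ M hΦ hΦ0 hM v hv i => ?_⟩
  have hlt : ∀ t ∈ closedBall (0 : ℂ) (ρ / 2), ‖(fun _ : Fin 1 => t)‖ < ρ := by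
    intro t ht
    rw [mem_closedBall, dist_zero_right] at ht
    rw [Vb_const]
    linarith
  have hcs : ∀ t ∈ closedBall (0 : ℂ) (ρ / 2), AnalyticAt ℂ (fun t : ℂ => Φ (w, fun _ => t)) t := fun t ht =>
    AnalyticAt.fun_comp (g := Φ) (f := fun t : ℂ => ((w, fun _ => t) : ℂ × (Fin 1 → ℂ))) (hΦ _ (hlt t ht)).1 (Vb_linean w t)
  have han : ∀ t ∈ closedBall (0 : ℂ) (ρ / 2), AnalyticAt ℂ (fun (t : ℂ) (j : Fin (N + 1)) => Φ (w, fun _ => t) (Fin.castSucc j)) t := fun t ht =>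
    analyticAt_pi_iff.2 fun j => (analyticAt_pi_iff.1 (hcs t ht)) j.castSucc
  have hUc : ∀ t ∈ closedBall (0 : ℂ) (ρ / 2), ∀ᶠ u in 𝓝 t, (fun j : Fin (N + 1) => Φ (w, fun _ => u) (Fin.castSucc j)) ∈ Uc P B b := by
    intro t ht
    have h1 := (lFam_of_nSol f (hΦ _ (hlt t ht))).1.2
    have h2 : Tendsto (fun t : ℂ => ((w, fun _ => t) : ℂ × (Fin 1 → ℂ))) (𝓝 t) (𝓝 (w, fun _ => t)) := (Vb_linean w t).continuousAt.tendsto
    exact (h2.eventually h1).mono fun u hu => hu.1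
  have hTc : ∀ t ∈ closedBall (0 : ℂ) (ρ / 2), deriv (fun (t : ℂ) (j : Fin (N + 1)) => Φ (w, fun _ => t) (Fin.castSucc j)) t ∈
      Tc P b (fun j : Fin (N + 1) => Φ (w, fun _ => t) (Fin.castSucc j)) := by
    intro t ht
    have h1 := deriv_mem_Tc (P := P) (B := B) (b := b) (x := fun (t : ℂ) (j : Fin (N + 1)) => Φ (w, fun _ => t) (Fin.castSucc j)) (z := t) (han t ht) (hUc t ht)
    exact h1
  have hgan : ∀ t ∈ closedBall (0 : ℂ) (ρ / 2), AnalyticAt ℂ (fun t => thv θ (fun j : Fin (N + 1) => Φ (w, fun _ => t) (Fin.castSucc j))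
      (deriv (fun (t : ℂ) (j : Fin (N + 1)) => Φ (w, fun _ => t) (Fin.castSucc j)) t) i) t := by
    intro t ht
    refine analyticAt_thv (b := b) (x := fun (t : ℂ) (j : Fin (N + 1)) => Φ (w, fun _ => t) (Fin.castSucc j))
      (v := deriv (fun (t : ℂ) (j : Fin (N + 1)) => Φ (w, fun _ => t) (Fin.castSucc j))) (han t ht) (han t ht).deriv ?_ i
    filter_upwards [(hUc t ht).eventually_nhds, (han t ht).eventually_analyticAt] with u h1 h2
    have h3 := deriv_mem_Tc (P := P) (B := B) (b := b) (x := fun (t : ℂ) (j : Fin (N + 1)) => Φ (w, fun _ => t) (Fin.castSucc j)) (z := u) h2 h1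
    exact ⟨h1.self_of_nhds, h3⟩
  have h0 : (fun j : Fin (N + 1) => Φ (w, fun _ => (0 : ℂ)) (Fin.castSucc j)) = F w := by
    funext j
    have h1 : Φ (w, fun _ => (0 : ℂ)) = eF B F w := hΦ0
    rw [h1]
    exact Vb_emb _ _
  have hd0 : deriv (fun (t : ℂ) (j : Fin (N + 1)) => Φ (w, fun _ => t) (Fin.castSucc j)) 0 = fun j => v (Fin.castSucc j) := by
    have h1 : HasDerivAt (fun t : ℂ => Φ (w, fun _ => t)) (fderiv ℂ Φ (w, 0) (0, 1)) 0 := by
      have h7 : HasFDerivAt Φ (fderiv ℂ Φ (w, 0)) ((fun t : ℂ => ((w, fun _ => t) : ℂ × (Fin 1 → ℂ))) 0) :=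
        (hΦ 0 (by rw [norm_zero]; exact hρ)).1.differentiableAt.hasFDerivAt
      exact h7.comp_hasDerivAt (0 : ℂ) (Vb_line w 0)
    rw [← hv] at h1
    exact (hasDerivAt_pi.2 fun j : Fin (N + 1) => hasDerivAt_pi.1 h1 j.castSucc).deriv
  have h1 := hav (fun (t : ℂ) (j : Fin (N + 1)) => Φ (w, fun _ => t) (Fin.castSucc j)) 0 (ρ / 2) M (by positivity) han
    (fun t ht => (hUc t ht).self_of_nhds.2.1) (fun t ht => (hUc t ht).self_of_nhds.2.2) (fun t ht => hM _ (hlt t ht))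
    (fun t => thv θ (fun j : Fin (N + 1) => Φ (w, fun _ => t) (Fin.castSucc j))
      (deriv (fun (t : ℂ) (j : Fin (N + 1)) => Φ (w, fun _ => t) (Fin.castSucc j)) t) i) C₀ (m i) hgan hC₀.le
    (fun t ht => (hbd _ (hUc t ht).self_of_nhds _ (hTc t ht)).1 i)
  rw [h0, hd0] at h1
  have hbase : 0 ≤ K * (M + 1) / (ρ / 2) := by
    by_contra hneg
    push Not at hneg
    -- the height is at least `- 1`
    have h2 := hav (fun (t : ℂ) (j : Fin (N + 1)) => Φ (w, fun _ => t) (Fin.castSucc j)) 0 (ρ / 2) M (by positivity) han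
      (fun t ht => (hUc t ht).self_of_nhds.2.1) (fun t ht => (hUc t ht).self_of_nhds.2.2) (fun t ht => hM _ (hlt t ht))
      (fun _ => 0) 1 1 (fun t _ => analyticAt_const) zero_le_one (fun t _ => by
        rw [norm_zero, one_mul, pow_one]
        unfold LL
        positivity)
    rw [norm_zero, one_mul, pow_one] at h2
    linarith
  have hle : K * (M + 1) / (ρ / 2) ≤ max C₀ (2 * K) * (M + 1) / ρ := by
    have h2 : K * (M + 1) / (ρ / 2) = 2 * K * (M + 1) / ρ := by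
      field_simp
    have h3 : 0 ≤ M + 1 := by
      by_contra h4
      push Not at h4
      have h5 : K * (M + 1) / (ρ / 2) < 0 := div_neg_of_neg_of_pos (mul_neg_of_pos_of_neg hK h4) (by positivity)
      linarith
    rw [h2]
    gcongr
    exact le_max_right _ _
  refine h1.trans ?_
  exact mul_le_mul (le_max_left _ _) (pow_le_pow_left₀ hbase hle _) (pow_nonneg hbase _) (le_trans hC₀.le (le_max_left _ _))

/-- the linearised equations -/
private theorem Vb_lhs (hP : Homog P) (hθ : LogPolar θ) (hm : ∀ k, 1 ≤ m k) (hb : b ∈ B) (f : LFrame θ b) (hF : LCurve P B b F) (hX : Lev (sp F) X)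
    {V : ℂ → Fin (N + 2) → ℂ} (hV : ∀ w ∈ HP, AnalyticAt ℂ V w ∧ RelP (GA.OO hX) (eF B F) V w) : ∀ z ∈ HP, ∀ l, lhs (gfamL f l) (eF B F) V z = 0 := by
  intro z hz l
  have h1 : ∀ᶠ v in 𝓝 z, eval (pt (eF B F v) (deriv (eF B F) v)) (gfamL f l) = (fun w => gval (thv θ (F w) (deriv F w)) l) v := by
    filter_upwards [Vb_HP.mem_nhds hz] with v hv
    exact eval_curve f hF l hv
  exact ((hV z hz).2.lhs (gfam_small hP hθ hm hb f hF hX l) h1).self_of_nhds

/-- the bound at the good points -/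
private theorem Vb_point (hP : Homog P) (hθ : LogPolar θ) (hm : ∀ k, 1 ≤ m k) (hb : b ∈ B) (f : LFrame θ b) (hF : LCurve P B b F) (hX : Lev (sp F) X)
    (hne : ∃ w ∈ HP, deriv F w ≠ 0) {V : ℂ → Fin (N + 2) → ℂ} (hV : ∀ w ∈ HP, AnalyticAt ℂ V w ∧ RelP (GA.OO hX) (eF B F) V w) :
    ∃ (K : ℝ) (k : ℕ), ∀ (n : ℕ) (w : ℂ), 1 < w.re → w.re < X n - 1 / tau (sp F) X n → |w.im| ≤ 8 → (∀ z ∈ HP, z.im = w.im → deriv F z ≠ 0) →
      ∀ i, ‖thv θ (F w) (fun j => V w (Fin.castSucc j)) i‖ ≤ K * tau (sp F) X n ^ k := by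
  obtain ⟨w₁, hw1, hw2, hline, ρ, hρ, Φb, M₁, hNS, hΦb0, hΦbV, hΦbM⟩ := vb_base hP hθ hm hb f hF hX hne hV
  obtain ⟨C, hC, hleg⟩ := vb_leg hP hθ hm hb f
  obtain ⟨KT, kT, hT⟩ := thv_levels hP hθ hm hb hF hX
  obtain ⟨A, hA, hav⟩ := Vb_av hP hθ hm hb f
  obtain ⟨D₁, hD₁⟩ : ∃ D₁ : ℝ, D₁ = |w₁.im| + 10 := ⟨_, rfl⟩
  have hD₁0 : 0 ≤ D₁ := by
    rw [hD₁]
    positivity
  obtain ⟨Q, hQ⟩ : ∃ Q : ℝ, Q = |M₁| + 1 + C * (|KT| + 1) * (D₁ + 3) := ⟨_, rfl⟩
  have hQ0 : 0 < Q := by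
    rw [hQ]
    positivity
  obtain ⟨A', hA'⟩ : ∃ A' : ℝ, A' = max 1 (A * Q / ρ) := ⟨_, rfl⟩
  have hA'1 : 1 ≤ A' := hA' ▸ le_max_left _ _
  refine ⟨A * A' ^ (∑ k, m k), (kT + 1) * ∑ k, m k, fun n w hwr hwX hwi hgood i => ?_⟩
  have hτ4 : 4 ≤ tau (sp F) X n := by
    have h1 := hX.tau_ge' n
    have h2 : (0 : ℝ) ≤ n := Nat.cast_nonneg n
    linarith
  have hXn4 : 4 ≤ X n := by
    have h1 := hX.big n
    have h2 : (0 : ℝ) ≤ n := Nat.cast_nonneg n
    linarith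
  have hXτ : X n ≤ tau (sp F) X n := by
    have h1 := hX.sub n
    have h2 : (0 : ℝ) ≤ n := Nat.cast_nonneg n
    nlinarith
  obtain ⟨τ, hτ⟩ : ∃ τ : ℝ, τ = tau (sp F) X n := ⟨_, rfl⟩
  rw [← hτ] at hτ4 hXτ hwX ⊢
  have hτ0 : 0 < τ := by linarith
  have hτi : 1 / τ ≤ 1 / 4 := by gcongr
  have hτi0 : 0 < 1 / τ := by positivity
  obtain ⟨T, hTd⟩ : ∃ T : ℝ, T = (|KT| + 1) * τ ^ kT := ⟨_, rfl⟩
  have hpow1 : 1 ≤ τ ^ kT := one_le_pow₀ (by linarith)
  have hT1 : 1 ≤ T := by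
    rw [hTd]
    have := abs_nonneg KT
    nlinarith
  have hTT : ∀ z : ℂ, 1 ≤ z.re → z.re ≤ X n - 1 / τ → ∀ k, ‖thv θ (F z) (deriv F z) k‖ ≤ T := by
    intro z h1 h2 k
    have h3 := hT n z h1 (by rw [← hτ]; exact h2) k
    rw [← hτ] at h3
    refine h3.trans ?_
    rw [hTd]
    gcongr
    linarith [le_abs_self KT]
  -- the open set
  have hUo : IsOpen {z : ℂ | 1 < z.re ∧ z.re < X n - 1 / τ ∧ deriv F z ≠ 0} := by
    rw [isOpen_iff_mem_nhds]
    rintro z ⟨h1, h2, h3⟩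
    have hz : z ∈ HP := lt_trans one_pos h1
    have h4 : ∀ᶠ v in 𝓝 z, deriv F v ≠ 0 := (hF.curve.an z hz).deriv.continuousAt.eventually_ne h3
    have h5 : ∀ᶠ v : ℂ in 𝓝 z, 1 < v.re := Complex.continuous_re.continuousAt.eventually (lt_mem_nhds h1)
    have h6 : ∀ᶠ v : ℂ in 𝓝 z, v.re < X n - 1 / τ := Complex.continuous_re.continuousAt.eventually (gt_mem_nhds h2)
    filter_upwards [h4, h5, h6] with v h7 h8 h9
    exact ⟨h8, h9, h7⟩
  have hUHP : {z : ℂ | 1 < z.re ∧ z.re < X n - 1 / τ ∧ deriv F z ≠ 0} ⊆ HP := fun z hz => lt_trans one_pos hz.1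
  obtain ⟨c, hcre, hcim⟩ : ∃ c : ℂ, c.re = w₁.re ∧ c.im = w.im := ⟨⟨w₁.re, w.im⟩, rfl, rfl⟩
  have hS1 : segment ℝ w₁ c ⊆ {z : ℂ | 1 < z.re ∧ z.re < X n - 1 / τ ∧ deriv F z ≠ 0} := by
    rintro z ⟨s, t, hs, ht, hst, rfl⟩
    have h1 : (s • w₁ + t • c).re = w₁.re := by
      rw [Complex.add_re, Complex.smul_re, Complex.smul_re, hcre, smul_eq_mul, smul_eq_mul, ← add_mul, hst, one_mul]
    exact ⟨by rw [h1]; exact hw1, by rw [h1]; linarith, hline _ h1⟩
  have hS2 : segment ℝ c w ⊆ {z : ℂ | 1 < z.re ∧ z.re < X n - 1 / τ ∧ deriv F z ≠ 0} := by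
    rintro z ⟨s, t, hs, ht, hst, rfl⟩
    have h1 : (s • c + t • w).im = w.im := by
      rw [Complex.add_im, Complex.smul_im, Complex.smul_im, hcim, smul_eq_mul, smul_eq_mul, ← add_mul, hst, one_mul]
    have h2 : (s • c + t • w).re = s * w₁.re + t * w.re := by
      rw [Complex.add_re, Complex.smul_re, Complex.smul_re, hcre, smul_eq_mul, smul_eq_mul]
    have h3 : 1 < (s • c + t • w).re := by
      rw [h2]
      rcases eq_or_lt_of_le hs with h4 | h4
      · have h5 : t = 1 := by linarith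
        rw [← h4, h5]
        linarith
      · nlinarith
    have h4 : (s • c + t • w).re < X n - 1 / τ := by
      rw [h2]
      rcases eq_or_lt_of_le hs with h4 | h4
      · have h5 : t = 1 := by linarith
        rw [← h4, h5]
        linarith
      · nlinarith
    exact ⟨h3, h4, hgood _ (lt_trans one_pos h3) h1⟩
  obtain ⟨Ω₁, hΩ₁o, hΩ₁c, hΩ₁b, hΩ₁U, hw₁Ω, hcΩ₁, hΩ₁D⟩ := Vb_nbhd hUo hS1
  obtain ⟨Ω₂, hΩ₂o, hΩ₂c, hΩ₂b, hΩ₂U, hcΩ₂, hwΩ₂, hΩ₂D⟩ := Vb_nbhd hUo hS2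
  have hd1 : dist w₁ c ≤ |w₁.im| + 8 := by
    rw [Complex.dist_eq, ← Complex.re_add_im (w₁ - c), Complex.sub_re, Complex.sub_im, hcre, sub_self, Complex.ofReal_zero, zero_add, norm_mul,
      Complex.norm_I, mul_one, Complex.norm_real, Real.norm_eq_abs, hcim]
    exact (abs_sub _ _).trans (by linarith)
  have hd2 : dist c w ≤ X n := by
    rw [Complex.dist_eq, ← Complex.re_add_im (c - w), Complex.sub_re, Complex.sub_im, hcim, sub_self, Complex.ofReal_zero, zero_mul, add_zero,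
      Complex.norm_real, Real.norm_eq_abs, hcre, abs_le]
    constructor <;> linarith
  have hlhs := Vb_lhs hP hθ hm hb f hF hX hV
  obtain ⟨Φ₁, h11, h12, h13, h14⟩ := hleg F hF Ω₁ hΩ₁o hΩ₁c hΩ₁b (hΩ₁U.trans hUHP) (fun z hz => (hΩ₁U hz).2.2) T hT1
    (fun z hz => hTT z (hΩ₁U (subset_closure hz)).1.le (hΩ₁U (subset_closure hz)).2.1.le) D₁
    (fun z hz z' hz' => (hΩ₁D z hz z' hz').trans (by rw [hD₁]; linarith)) w₁ hw₁Ω ρ hρ Φb M₁ hNS hΦb0 hΦbM
  have hV1 : V c = fderiv ℂ Φ₁ (c, 0) (0, 1) :=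
    h14 V (fun z hz => (hV z (hUHP (hΩ₁U (subset_closure hz)))).1) (fun z hz => hlhs z (hUHP (hΩ₁U (subset_closure hz)))) hΦbV.symm c hcΩ₁
  obtain ⟨Φ₂, h21, h22, h23, h24⟩ := hleg F hF Ω₂ hΩ₂o hΩ₂c hΩ₂b (hΩ₂U.trans hUHP) (fun z hz => (hΩ₂U hz).2.2) T hT1
    (fun z hz => hTT z (hΩ₂U (subset_closure hz)).1.le (hΩ₂U (subset_closure hz)).2.1.le) (X n + 2)
    (fun z hz z' hz' => (hΩ₂D z hz z' hz').trans (by linarith)) c hcΩ₂ ρ hρ Φ₁ (M₁ + C * T * D₁) (fun s hs => h11 (c, s) hcΩ₁ hs)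
    (by
      filter_upwards [hΩ₁o.mem_nhds hcΩ₁] with z hz
      exact h12 z hz) (fun s hs => h13 c hcΩ₁ s hs)
  have hV2 : V w = fderiv ℂ Φ₂ (w, 0) (0, 1) :=
    h24 V (fun z hz => (hV z (hUHP (hΩ₂U (subset_closure hz)))).1) (fun z hz => hlhs z (hUHP (hΩ₂U (subset_closure hz)))) hV1 w hwΩ₂
  -- the height
  have hM : M₁ + C * T * D₁ + C * T * (X n + 2) ≤ Q * τ ^ (kT + 1) - 1 := by
    have h1 : T * (D₁ + (X n + 2)) ≤ (|KT| + 1) * (D₁ + 3) * τ ^ (kT + 1) := by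
      have h2 : D₁ + (X n + 2) ≤ (D₁ + 3) * τ := by nlinarith
      calc T * (D₁ + (X n + 2)) ≤ T * ((D₁ + 3) * τ) := mul_le_mul_of_nonneg_left h2 (by linarith)
        _ = (|KT| + 1) * (D₁ + 3) * τ ^ (kT + 1) := by
          rw [hTd]
          ring
    have h3 : |M₁| + 1 ≤ (|M₁| + 1) * τ ^ (kT + 1) := le_mul_of_one_le_right (by positivity) (one_le_pow₀ (by linarith))
    have h4 := mul_le_mul_of_nonneg_left h1 hC.le
    have h5 := le_abs_self M₁
    rw [hQ]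
    have h6 : (|M₁| + 1 + C * (|KT| + 1) * (D₁ + 3)) * τ ^ (kT + 1) = (|M₁| + 1) * τ ^ (kT + 1) + C * ((|KT| + 1) * (D₁ + 3) * τ ^ (kT + 1)) := by ring
    rw [h6]
    have h7 : C * T * D₁ + C * T * (X n + 2) = C * (T * (D₁ + (X n + 2))) := by ring
    linarith
  have hfin := hav F w ρ hρ Φ₂ (Q * τ ^ (kT + 1) - 1) (fun s hs => h21 (w, s) hwΩ₂ hs) (h22 w hwΩ₂) (fun s hs => (h23 w hwΩ₂ s hs).trans hM) (V w) hV2 i
  refine hfin.trans ?_
  rw [sub_add_cancel]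
  have h1 : A * (Q * τ ^ (kT + 1)) / ρ ≤ A' * τ ^ (kT + 1) := by
    have h2 : A * (Q * τ ^ (kT + 1)) / ρ = A * Q / ρ * τ ^ (kT + 1) := by ring
    rw [h2]
    gcongr
    rw [hA']
    exact le_max_right _ _
  have h0 : 0 ≤ A * (Q * τ ^ (kT + 1)) / ρ := by positivity
  have hmi : m i ≤ ∑ k, m k := Finset.single_le_sum (f := m) (fun k _ => Nat.zero_le _) (Finset.mem_univ i)
  calc A * (A * (Q * τ ^ (kT + 1)) / ρ) ^ m i ≤ A * (A' * τ ^ (kT + 1)) ^ m i := by gcongr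
    _ = A * (A' ^ m i * (τ ^ (kT + 1)) ^ m i) := by rw [mul_pow]
    _ ≤ A * (A' ^ (∑ k, m k) * (τ ^ (kT + 1)) ^ (∑ k, m k)) := by
        have h3 : A' ^ m i ≤ A' ^ (∑ k, m k) := pow_le_pow_right₀ hA'1 hmi
        have h4 : (τ ^ (kT + 1)) ^ m i ≤ (τ ^ (kT + 1)) ^ (∑ k, m k) := pow_le_pow_right₀ (one_le_pow₀ (by linarith)) hmi
        gcongr
    _ = A * A' ^ (∑ k, m k) * τ ^ ((kT + 1) * ∑ k, m k) := by
        rw [← pow_mul]
        ring

theorem vbound (hP : Homog P) (hθ : LogPolar θ) (hm : ∀ k, 1 ≤ m k) (hb : b ∈ B) (f : LFrame θ b) (hF : LCurve P B b F) (hX : Lev (sp F) X)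
    (hne : ∃ w ∈ HP, deriv F w ≠ 0) {V : ℂ → Fin (N + 2) → ℂ} (hV : ∀ w ∈ HP, AnalyticAt ℂ V w ∧ RelP (GA.OO hX) (eF B F) V w) :
    ∃ (K : ℝ) (k : ℕ), ∀ (n : ℕ) (w : ℂ), 1 ≤ w.re → w.re ≤ X n - 1 / tau (sp F) X n → 0 ≤ w.im → w.im ≤ 2 * Real.pi →
      ∀ i, ‖thv θ (F w) (fun j => V w (Fin.castSucc j)) i‖ ≤ K * tau (sp F) X n ^ k := by
  obtain ⟨K, k, h⟩ := Vb_point hP hθ hm hb f hF hX hne hV
  refine ⟨K, k, fun n w hw1 hwX hw0 hwπ i => ?_⟩
  have hπ : 2 * Real.pi < 7 := by linarith [Real.pi_lt_d2]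
  have hwHP : w ∈ HP := lt_of_lt_of_le one_pos hw1
  -- continuity at `w`
  have hcont : ContinuousAt (fun z => ‖thv θ (F z) (fun j => V z (Fin.castSucc j)) i‖) w := by
    have hx : AnalyticAt ℂ F w := hF.curve.an w hwHP
    have hU : ∀ᶠ z in 𝓝 w, F z ∈ Uc P B b := by
      filter_upwards [Vb_HP.mem_nhds hwHP] with z hz
      exact ⟨hF.curve.cone z hz, hF.one z, hF.ne z hz⟩
    have h1 := of_lhs f hx hU (V := V) (by
      filter_upwards [Vb_HP.mem_nhds hwHP] with z hz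
      exact Vb_lhs hP hθ hm hb f hF hX hV z hz)
    have hv : AnalyticAt ℂ (fun (z : ℂ) (j : Fin (N + 1)) => V z (Fin.castSucc j)) w :=
      analyticAt_pi_iff.2 fun j => (analyticAt_pi_iff.1 (hV w hwHP).1) j.castSucc
    exact (analyticAt_thv (b := b) hx hv (by
      filter_upwards [hU, h1] with z hz hz1
      exact ⟨hz, hz1.1⟩) i).continuousAt.norm
  -- density
  have hfreq : ∃ᶠ z in 𝓝 w, ‖thv θ (F z) (fun j => V z (Fin.castSucc j)) i‖ ≤ K * tau (sp F) X n ^ k := by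
    rw [Metric.nhds_basis_ball.frequently_iff]
    intro ε hε
    have hS : {z : ℂ | z ∈ HP ∧ deriv F z = 0}.Countable := by
      refine Vb_countable fun z hz => ?_
      filter_upwards [Vb_zeros hF hne hz.1] with v h2 h3
      exact h2 h3.2
    have hlt : 0 < min (ε / 2) 1 := lt_min (half_pos hε) one_pos
    obtain ⟨a, ha, ha1, ha2⟩ := ((hS.image Complex.im).dense_compl ℝ).exists_mem_open (isOpen_Ioo (a := w.im) (b := w.im + min (ε / 2) 1))
      ⟨w.im + min (ε / 2) 1 / 2, by linarith, by linarith⟩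
    have hl1 : min (ε / 2) 1 ≤ ε / 2 := min_le_left _ _
    have hl2 : min (ε / 2) 1 ≤ 1 := min_le_right _ _
    have hτ4 : 4 ≤ tau (sp F) X n := by
      have h1 := hX.tau_ge' n
      have h2 : (0 : ℝ) ≤ n := Nat.cast_nonneg n
      linarith
    have hXn4 : 4 ≤ X n := by
      have h1 := hX.big n
      have h2 : (0 : ℝ) ≤ n := Nat.cast_nonneg n
      linarith
    have hτi : 1 / tau (sp F) X n ≤ 1 / 4 := by gcongr
    have hcl : w.re ∈ closure (Set.Ioo 1 (X n - 1 / tau (sp F) X n)) := by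
      rw [closure_Ioo (by linarith : (1 : ℝ) < X n - 1 / tau (sp F) X n).ne]
      exact ⟨hw1, hwX⟩
    obtain ⟨r, ⟨hr1, hr2⟩, hr3⟩ := Metric.mem_closure_iff.1 hcl (ε / 2) (half_pos hε)
    refine ⟨⟨r, a⟩, ?_, h n ⟨r, a⟩ hr1 hr2 ?_ ?_ i⟩
    · rw [mem_ball, dist_eq_norm]
      refine (Complex.norm_le_abs_re_add_abs_im _).trans_lt ?_
      rw [Complex.sub_re, Complex.sub_im]
      have h3 : |r - w.re| < ε / 2 := by
        rw [← Real.dist_eq, dist_comm]
        exact hr3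
      have h4 : |a - w.im| ≤ ε / 2 := by
        rw [abs_le]
        constructor <;> linarith
      show |r - w.re| + |a - w.im| < ε
      linarith
    · show |a| ≤ 8
      rw [abs_le]
      constructor <;> linarith
    · intro z hz hza h0
      exact ha ⟨z, ⟨hz, h0⟩, hza⟩
  exact le_of_tendsto_of_frequently hcont.tendsto hfreq

end Pool.Agent.GL

end

section

/-!
# GL FinL: curves in the half-plane

`AA (sp F)` bounded: `ext0L`.  Otherwise `AA` tends to infinity (monotone); `GA.sel` (GA/Sel) gives `Lev (sp F) X`; `F'` is not identically `0`.  `horL`, `contL`, `exists_eigL`: `V`, `q` with `V (w + per) = exp (q per) V w`.  `of_lhs` and `RelP.lhs`: `V w ∈ Tc`.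
`vbound`, `thv_smul`: `exp (- m_k q w) thv θ F V k` is periodic and `≤ K τ ^ k exp (K Re w)` for `0 ≤ Im w ≤ 2 π`: it is small (`isOO_of_pt`), and equal to `thv θ F V₁ k` for `V₁ = exp (- q w) V`.  `endL` for `V₁` (`RelP.relX`; `RelX` for a multiple), the hypothesis
on `R`, and the identity theorem for `R (F w)`.
-/

set_option autoImplicit false

open MvPolynomial Topology Filter Metric
open Pool.Agent.H13.SM (conTan cone)
open Pool.Agent.H62.FC (Homog)
open Pool.Agent.GG Pool.Agent.GA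

namespace Pool.Agent.GL

variable {N : ℕ} {P : Ideal (MvPolynomial (Fin (N + 1)) ℂ)} {B : Finset (Fin (N + 1))} {J : ℕ} {m : Fin J → ℕ} {θ : ∀ k, LogSec P B (m k)} {b : Fin (N + 1)}
  {F : ℂ → Fin (N + 1) → ℂ}

private theorem FL_AA_continuous {s : ℂ → ℝ} (hs : Speed s) : Continuous (AA s) := by
  have hm : ContinuousOn (mn fun w => s w ^ 2) (Set.Ioi 0) := sml_continuousOn_mn (hs.cont.pow 2)
  have hK : Continuous fun t : ℝ => mn (fun w => s w ^ 2) (max t 1) :=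
    hm.comp_continuous (by fun_prop) fun t => Set.mem_Ioi.2 (lt_of_lt_of_le one_pos (le_max_right t 1))
  have h1 : ∀ X, AA s X = ∫ t in (1 : ℝ)..max X 1, mn (fun w => s w ^ 2) (max t 1) := by
    intro X
    unfold AA
    refine intervalIntegral.integral_congr fun t ht => ?_
    rw [Set.uIcc_of_le (le_max_right _ _)] at ht
    show _ = mn _ (max t 1)
    rw [max_eq_left ht.1]
  have h2 : Continuous fun X : ℝ => ∫ t in (1 : ℝ)..X, mn (fun w => s w ^ 2) (max t 1) :=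
    intervalIntegral.continuous_primitive (fun a b => hK.intervalIntegrable a b) 1
  have h3 : AA s = (fun X : ℝ => ∫ t in (1 : ℝ)..X, mn (fun w => s w ^ 2) (max t 1)) ∘ fun X => max X 1 := by
    funext X
    exact h1 X
  rw [h3]
  exact h2.comp (by fun_prop)

private theorem FL_exists_lev {s : ℂ → ℝ} (hs : Speed s) (hA : ¬ ∃ B, ∀ X, AA s X ≤ B) : ∃ X : ℕ → ℝ, Lev s X := by
  have h1 : Tendsto (AA s) atTop atTop := by
    refine tendsto_atTop_atTop_of_monotone (sml_AA_mono hs) fun b => ?_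
    by_contra hcon
    push Not at hcon
    exact hA ⟨b, fun X => (hcon X).le⟩
  obtain ⟨X, h2, h3, h4, h5⟩ := sel (FL_AA_continuous hs) (sml_AA_mono hs) h1
  exact ⟨X, h2, h3, h4, h5⟩

private theorem FL_ne {F : ℂ → Fin (N + 1) → ℂ} (hA : ¬ ∃ B, ∀ X, AA (sp F) X ≤ B) : ∃ w ∈ HP, deriv F w ≠ 0 := by
  by_contra hcon
  push Not at hcon
  apply hA
  refine ⟨0, fun X => le_of_eq ?_⟩
  have h0 : ∀ w ∈ HP, sp F w = 0 := by
    intro w hw
    unfold sp wl
    rw [hcon w hw]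
    have h1 : (fun p : Fin (N + 1) × Fin (N + 1) => F w p.1 * (0 : Fin (N + 1) → ℂ) p.2 - F w p.2 * (0 : Fin (N + 1) → ℂ) p.1) = 0 := by
      funext p
      simp
    rw [h1, norm_zero, zero_div]
  unfold AA
  have h2 : ∫ t in (1 : ℝ)..max X 1, mn (fun w => sp F w ^ 2) t = ∫ t in (1 : ℝ)..max X 1, (0 : ℝ) := by
    refine intervalIntegral.integral_congr fun t ht => ?_
    rw [Set.uIcc_of_le (le_max_right _ _)] at ht
    show mn (fun w => sp F w ^ 2) t = 0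
    have h3 := mn_congr (g := fun w => sp F w ^ 2) (h := fun _ => (0 : ℝ)) (t := t) (fun w hw => by
      show sp F w ^ 2 = 0
      rw [h0 w hw]
      norm_num) (lt_of_lt_of_le one_pos ht.1)
    rw [h3, mn_const, mul_zero]
  rw [h2]
  simp

private theorem FL_relX {M : ℕ} {OO : Subalgebra ℂ (ℂ → ℂ)} {x V V' : ℂ → Fin (M + 1) → ℂ} {w₀ : ℂ} (h : RelX OO x V w₀) {l : ℂ → ℂ}
    (hV : ∀ᶠ w in 𝓝 w₀, V' w = l w • V w) : RelX OO x V' w₀ := by
  intro R hR
  filter_upwards [h R hR, hV] with w h1 h2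
  rw [h2]
  simp only [Pi.smul_apply, smul_eq_mul]
  calc ∑ b, evO OO x (pderiv b R) w * (l w * V w b) = l w * ∑ b, evO OO x (pderiv b R) w * V w b := by
        rw [Finset.mul_sum]
        exact Finset.sum_congr rfl fun b _ => by ring
    _ = 0 := by rw [h1, mul_zero]

private theorem FL_Tc {x v : Fin (N + 1) → ℂ} (h : v ∈ Tc P b x) (c : ℂ) : c • v ∈ Tc P b x := by
  refine ⟨?_, ?_⟩
  · intro Q hQ
    have h1 : ∑ i, v i * eval x (pderiv i Q) = 0 := h.1 Q hQ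
    show ∑ i, (c • v) i * eval x (pderiv i Q) = 0
    simp only [Pi.smul_apply, smul_eq_mul, mul_assoc]
    rw [← Finset.mul_sum, h1, mul_zero]
  · show c * v b = 0
    rw [show v b = 0 from h.2, mul_zero]

private theorem FL_embV (B : Finset (Fin (N + 1))) (x v : Fin (N + 1) → ℂ) (c : ℂ) : embV B x (c • v) = c • embV B x v := by
  funext j
  refine Fin.lastCases ?_ (fun i => ?_) j
  · simp only [embV, Fin.snoc_last, Pi.smul_apply, smul_eq_mul]
    have : ∀ i, (x i)⁻¹ * (c * v i) = c * ((x i)⁻¹ * v i) := fun i => by ring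
    simp only [this, ← Finset.mul_sum]
    ring
  · simp only [embV, Fin.snoc_castSucc, Pi.smul_apply, smul_eq_mul]

private theorem FL_uc (hF : LCurve P B b F) {w : ℂ} (hw : w ∈ HP) : F w ∈ Uc P B b := ⟨hF.curve.cone w hw, hF.one w, hF.ne w hw⟩

private theorem FL_open : IsOpen HP := isOpen_lt continuous_const Complex.continuous_re

private theorem FL_exp (q w : ℂ) (hw : 0 ≤ w.re) (h0 : 0 ≤ w.im) (h1 : w.im ≤ 2 * Real.pi) (n : ℕ) :
    ‖Complex.exp (-(q * w))‖ ^ n ≤ Real.exp (n * ‖q‖ * (2 * Real.pi)) * Real.exp (n * ‖q‖ * w.re) := by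
  have h2 : ‖w‖ ≤ w.re + 2 * Real.pi := by
    refine (Complex.norm_le_abs_re_add_abs_im w).trans ?_
    rw [abs_of_nonneg hw, abs_of_nonneg h0]
    linarith
  have h3 : ‖Complex.exp (-(q * w))‖ ≤ Real.exp (‖q‖ * (w.re + 2 * Real.pi)) := by
    rw [Complex.norm_exp]
    refine Real.exp_le_exp.2 ?_
    calc (-(q * w)).re ≤ ‖-(q * w)‖ := Complex.re_le_norm _
      _ = ‖q‖ * ‖w‖ := by rw [norm_neg, norm_mul]
      _ ≤ ‖q‖ * (w.re + 2 * Real.pi) := mul_le_mul_of_nonneg_left h2 (norm_nonneg _)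
  calc ‖Complex.exp (-(q * w))‖ ^ n ≤ Real.exp (‖q‖ * (w.re + 2 * Real.pi)) ^ n := pow_le_pow_left₀ (norm_nonneg _) h3 n
    _ = Real.exp (n * ‖q‖ * (2 * Real.pi)) * Real.exp (n * ‖q‖ * w.re) := by
        rw [← Real.exp_nat_mul, ← Real.exp_add]
        congr 1
        ring

theorem finL (hP : Homog P) (hθ : LogPolar θ) (hm : ∀ k, 1 ≤ m k) (hb : b ∈ B) (f : LFrame θ b) {R : MvPolynomial (Fin (N + 1)) ℂ}
    (hR : ∀ x ∈ Uc P B b, ∀ v ∈ Tc P b x, v ≠ 0 → IsInit (gfamL f) (ePt B x v) → eval x R = 0) (hF : LCurve P B b F) :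
    (∃ (a : Fin (N + 1)) (L : Fin (N + 1) → ℂ), (∀ᶠ w in comap Complex.re atTop, F w a ≠ 0) ∧
      Tendsto (fun w => (F w a)⁻¹ • F w) (comap Complex.re atTop) (𝓝 L)) ∨ ∀ w ∈ HP, eval (F w) R = 0 := by
  classical
  by_cases hA : ∃ T, ∀ X, AA (sp F) X ≤ T
  · obtain ⟨T, hT⟩ := hA
    exact Or.inl (ext0L hF hT)
  right
  have hs := hF.curve.speed
  obtain ⟨X, hX⟩ := FL_exists_lev hs hA
  have hne := FL_ne hA
  have hO : IsSmallRing (GA.OO hX) HP := isSmallRing_OO hX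
  have hOp : ∀ g ∈ GA.OO hX, ∀ w ∈ HP, g (w + per) = g w := fun g hg => (mem_OO.1 hg).periodic
  have hg := gfam_small hP hθ hm hb f hF hX
  obtain ⟨w₀, hw₀, V₀, hV₀, hne₀, hR₀⟩ := horL hP hθ hm hb f hF hX hne
  obtain ⟨V₁, hV₁, hVe⟩ := contL hθ hm hb f hF hne hO hg hw₀ hV₀ hR₀
  have hne₁ : V₁ w₀ ≠ 0 := by
    rw [hVe.self_of_nhds]
    exact hne₀
  obtain ⟨V, q, hV, hVn, hq⟩ := exists_eigL hθ hm hb f hF hne hO hOp hg hw₀ hV₁ hne₁
  obtain ⟨K, k, hK⟩ := vbound hP hθ hm hb f hF hX hne hV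
  have hev : ∀ w ∈ HP, ∀ᶠ z in 𝓝 w, z ∈ HP := fun w hw => FL_open.eventually_mem hw
  have hlhs : ∀ w ∈ HP, ∀ᶠ z in 𝓝 w, ∀ l, lhs (gfamL f l) (eF B F) V z = 0 := by
    intro w hw
    refine eventually_all.2 fun l => (hV w hw).2.lhs (hg l) ?_
    filter_upwards [hev w hw] with z hz
    exact eval_curve f hF l hz
  have hT : ∀ w ∈ HP, (fun j => V w (Fin.castSucc j)) ∈ Tc P b (F w) ∧ V w = embV B (F w) (fun j => V w (Fin.castSucc j)) := by
    intro w hw
    refine (of_lhs f (hF.curve.an w hw) ?_ (hlhs w hw)).self_of_nhds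
    filter_upwards [hev w hw] with z hz
    exact FL_uc hF hz
  have hq1 : ∀ w ∈ HP, w + per ∈ HP := by
    intro w hw
    have h1 : (w + per).re = w.re := by simp [per]
    show 0 < (w + per).re
    rw [h1]
    exact hw
  have hexpan : ∀ w, AnalyticAt ℂ (fun w : ℂ => Complex.exp (-(q * w))) w := fun w => by fun_prop
  have hcast : ∀ w (c : ℂ), (fun j => (c • V w) (Fin.castSucc j)) = c • fun j => V w (Fin.castSucc j) := fun w c => rfl
  have hVc : ∀ w ∈ HP, AnalyticAt ℂ (fun w j => V w (Fin.castSucc j)) w := by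
    intro w hw
    exact analyticAt_pi_iff.2 fun j => (analyticAt_pi_iff.1 (hV w hw).1) (Fin.castSucc j)
  -- the values
  have hval : ∀ w ∈ HP, ∀ i, thv θ (F w) (fun j => (Complex.exp (-(q * w)) • V w) (Fin.castSucc j)) i =
      Complex.exp (-(q * w)) ^ m i * thv θ (F w) (fun j => V w (Fin.castSucc j)) i := by
    intro w hw i
    rw [hcast]
    exact thv_smul (FL_uc hF hw) (hT w hw).1 _ i
  have hVp : ∀ w ∈ HP, Complex.exp (-(q * (w + per))) • V (w + per) = Complex.exp (-(q * w)) • V w := by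
    intro w hw
    rw [hq w hw, smul_smul, ← Complex.exp_add]
    congr 2
    ring
  have hα : ∀ i, (fun w => thv θ (F w) (fun j => (Complex.exp (-(q * w)) • V w) (Fin.castSucc j)) i) ∈ GA.OO hX := by
    intro i
    have han : ∀ w ∈ HP, AnalyticAt ℂ (fun w => thv θ (F w) (fun j => (Complex.exp (-(q * w)) • V w) (Fin.castSucc j)) i) w := by
      intro w hw
      refine analyticAt_thv (b := b) (x := F) (v := fun w j => (Complex.exp (-(q * w)) • V w) (Fin.castSucc j)) (hF.curve.an w hw) ?_ ?_ i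
      · exact (hexpan w).smul (hVc w hw)
      · filter_upwards [hev w hw] with z hz
        exact ⟨FL_uc hF hz, FL_Tc (hT z hz).1 _⟩
    refine mem_OO.2 (isOO_of_pt hX han ?_ (K := max (|K| * Real.exp (m i * ‖q‖ * (2 * Real.pi))) (m i * ‖q‖)) (k := k) ?_)
    · intro w hw
      have h1 : F (w + per) = F w := hF.curve.periodic w hw
      show thv θ (F (w + per)) (fun j => (Complex.exp (-(q * (w + per))) • V (w + per)) (Fin.castSucc j)) i = _
      rw [h1, hVp w hw]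
    · intro n w h1 h2 h3 h4
      have hw : w ∈ HP := lt_of_lt_of_le one_pos h1
      have hre : 0 ≤ w.re := zero_le_one.trans h1
      have hτ : 0 < tau (sp F) X n := hX.tau_pos n
      rw [hval w hw i, norm_mul, norm_pow]
      have h5 := FL_exp q w hre h3 h4 (m i)
      have h6 : ‖thv θ (F w) (fun j => V w (Fin.castSucc j)) i‖ ≤ |K| * tau (sp F) X n ^ k :=
        (hK n w h1 h2 h3 h4 i).trans (mul_le_mul_of_nonneg_right (le_abs_self K) (pow_nonneg hτ.le _))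
      have h7 : Real.exp (m i * ‖q‖ * w.re) ≤ Real.exp (max (|K| * Real.exp (m i * ‖q‖ * (2 * Real.pi))) (m i * ‖q‖) * w.re) :=
        Real.exp_le_exp.2 (mul_le_mul_of_nonneg_right (le_max_right _ _) hre)
      calc ‖Complex.exp (-(q * w))‖ ^ m i * ‖thv θ (F w) (fun j => V w (Fin.castSucc j)) i‖
          ≤ Real.exp (m i * ‖q‖ * (2 * Real.pi)) * Real.exp (m i * ‖q‖ * w.re) * (|K| * tau (sp F) X n ^ k) :=
            mul_le_mul h5 h6 (norm_nonneg _) (by positivity)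
        _ = (|K| * Real.exp (m i * ‖q‖ * (2 * Real.pi))) * tau (sp F) X n ^ k * Real.exp (m i * ‖q‖ * w.re) := by ring
        _ ≤ max (|K| * Real.exp (m i * ‖q‖ * (2 * Real.pi))) (m i * ‖q‖) * tau (sp F) X n ^ k *
            Real.exp (max (|K| * Real.exp (m i * ‖q‖ * (2 * Real.pi))) (m i * ‖q‖) * w.re) := by
            refine mul_le_mul (mul_le_mul_of_nonneg_right (le_max_left _ _) (pow_nonneg hτ.le _)) h7 (Real.exp_pos _).le ?_
            exact mul_nonneg ((by positivity : (0 : ℝ) ≤ |K| * Real.exp (m i * ‖q‖ * (2 * Real.pi))).trans (le_max_left _ _)) (pow_nonneg hτ.le _)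
  have hend := endL hθ hb f hF hO (V := fun w => Complex.exp (-(q * w)) • V w) (fun w hw => (hexpan w).smul (hV w hw).1)
    (fun w hw => FL_relX (hV w hw).2.relX (Eventually.of_forall fun _ => rfl))
    (fun w hw => by
      refine ⟨?_, ?_⟩
      · exact FL_Tc (hT w hw).1 _
      · show Complex.exp (-(q * w)) • V w = embV B (F w) (fun j => (Complex.exp (-(q * w)) • V w) (Fin.castSucc j))
        rw [hcast, FL_embV, ← (hT w hw).2])
    hα hw₀ (smul_ne_zero (Complex.exp_ne_zero _) hVn)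
  have hRe : ∀ᶠ w in 𝓝 w₀, eval (F w) R = 0 := by
    filter_upwards [hend, hev w₀ hw₀] with w h1 h2
    refine hR (F w) (FL_uc hF h2) _ ?_ h1.1 h1.2
    exact FL_Tc (hT w h2).1 _
  have hRan : AnalyticOnNhd ℂ (fun w => eval (F w) R) HP := by
    intro w hw
    exact AnalyticAt.comp (g := fun y : Fin (N + 1) → ℂ => eval y R) (f := F) (AnalyticOnNhd.eval_mvPolynomial R (F w) (Set.mem_univ _)) (hF.curve.an w hw)
  have hconn : IsPreconnected HP := (convex_halfSpace_re_gt 0).isPreconnected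
  exact fun w hw => hRan.eqOn_zero_of_preconnected_of_eventuallyEq_zero hconn hw₀ hRe hw

end Pool.Agent.GL

end

section

/-!
# GLS NonP: some coordinate is not a polynomial of the time

PROOF.  Otherwise `(DD f β)^n (X s) ∈ 𝔯` for all `s` (`n` large).  Take `w ∈ Zr 𝔯` with `tht f k (w) ≠ 0` (exists: `tht f k ∉ 𝔯`), the entire curve `F` as in Orb: all coordinates are polynomials of degree `< n` in `z` (all higher derivatives at `0` vanish), so
`GL.poly_curve` gives `F' = 0`, `v = 0`, against `tht f k (w) ≠ 0`.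
-/

set_option autoImplicit false

open MvPolynomial Topology Filter Metric
open Pool.Agent.H13.SM (conTan cone)
open Pool.Agent.H17 (PN VanishesAt HolomorphicInto puncturedDisc)
open Pool.Agent.H62.FC (Homog)
open Pool.Agent.GG Pool.Agent.GA Pool.Agent.GL

namespace Pool.Agent.GLS

variable {N : ℕ} {P : Ideal (MvPolynomial (Fin (N + 1)) ℂ)} {B : Finset (Fin (N + 1))} {J : ℕ} {m : Fin J → ℕ} {θ : ∀ k, LogSec P B (m k)} {b : Fin (N + 1)}

/-- a function whose iterated derivative of the order `n` is `0` has polynomial growth -/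
private theorem nonp_growth : ∀ (n : ℕ) (f : ℕ → ℂ → ℂ), (∀ i z, HasDerivAt (f i) (f (i + 1) z) z) → (∀ z, f n z = 0) →
    ∃ C : ℝ, 0 ≤ C ∧ ∀ z, ‖f 0 z‖ ≤ C * (1 + ‖z‖) ^ n := by
  intro n
  induction n with
  | zero =>
    intro f _ h0
    exact ⟨0, le_rfl, fun z => by rw [h0, norm_zero, zero_mul]⟩
  | succ n ih =>
    intro f hf h0
    obtain ⟨C, hC, h1⟩ := ih (fun i => f (i + 1)) (fun i z => hf (i + 1) z) h0
    refine ⟨‖f 0 0‖ + C, by positivity, fun z => ?_⟩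
    have h2 : ‖f 0 z - f 0 0‖ ≤ C * (1 + ‖z‖) ^ n * ‖z - 0‖ := by
      refine (convex_closedBall (0 : ℂ) ‖z‖).norm_image_sub_le_of_norm_hasDerivWithin_le (f' := f 1) (fun x _ => (hf 0 x).hasDerivWithinAt) (fun x hx => ?_)
        (mem_closedBall_self (norm_nonneg z)) (by simp)
      refine (h1 x).trans (mul_le_mul_of_nonneg_left (pow_le_pow_left₀ (by positivity) ?_ n) hC)
      have := mem_closedBall_zero_iff.1 hx
      linarith
    rw [sub_zero] at h2
    have h3 : (1 : ℝ) ≤ (1 + ‖z‖) ^ (n + 1) := one_le_pow₀ (by linarith [norm_nonneg z])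
    have h4 : C * (1 + ‖z‖) ^ n * ‖z‖ ≤ C * (1 + ‖z‖) ^ (n + 1) := by
      rw [pow_succ, ← mul_assoc]
      exact mul_le_mul_of_nonneg_left (by linarith) (by positivity)
    calc ‖f 0 z‖ = ‖(f 0 z - f 0 0) + f 0 0‖ := by rw [sub_add_cancel]
      _ ≤ ‖f 0 z - f 0 0‖ + ‖f 0 0‖ := norm_add_le _ _
      _ ≤ C * (1 + ‖z‖) ^ (n + 1) + ‖f 0 0‖ * (1 + ‖z‖) ^ (n + 1) := add_le_add (h2.trans h4) (le_mul_of_one_le_right (norm_nonneg _) h3)
      _ = (‖f 0 0‖ + C) * (1 + ‖z‖) ^ (n + 1) := by ring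

/-- a sum of derivations -/
private theorem nonp_sum {R κ : Type} [CommRing R] [Algebra ℂ R] (β : κ → R) (D : κ → Derivation ℂ R R) (s : Finset κ) (g : R) :
    (∑ K ∈ s, β K • D K) g = ∑ K ∈ s, β K * D K g := by
  classical
  induction s using Finset.induction_on with
  | empty => rw [Finset.sum_empty, Finset.sum_empty, Derivation.zero_apply]
  | insert a s ha ih => rw [Finset.sum_insert ha, Finset.sum_insert ha, Derivation.add_apply, ih, Derivation.smul_apply, smul_eq_mul]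

theorem LSol.not_poly (hP : Homog P) (hθ : LogPolar θ) (hm : ∀ k, 1 ≤ m k) (hb : b ∈ B) {f : LFrame θ b} {𝔯 : Ideal (MvPolynomial (Ph (N + 1)) ℂ)} (h : LSol f 𝔯) {k : Fin J} {p : ℕ}
    {β : (Fin (N + 2) → GIx f.q J) → MvPolynomial (Ph (N + 1)) ℂ} (hβ : Bez f 𝔯 k p β) (hk : tht f k ∉ 𝔯) : ∃ s, ∀ n, (⇑(DD f β))^[n] (X s) ∉ 𝔯 := by
  by_contra! hcon
  have := h.prime
  have hDD : ∀ g, DD f β g = ∑ K, β K * Dt (gfamL f) K g := fun g => nonp_sum β _ _ g
  choose ns hns using hcon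
  obtain ⟨w, hw, hwk⟩ := Gen.exists_point 𝔯 hk
  obtain ⟨F, hF, hU, h0, hc, hZ⟩ := h.exists_curve hP hθ hm hb (w := w) hw hwk
  set c₀ : ℂ := eval w (tht f k) ^ p with hc₀
  have hc₀0 : c₀ ≠ 0 := pow_ne_zero _ hwk
  have hT : ∀ z, deriv F z ∈ Tc P b (F z) := fun z => deriv_mem_Tc (hF z) (Eventually.of_forall hU)
  have hthk : ∀ z, eval (ePt B (F z) (deriv F z)) (tht f k) = eval w (tht f k) := fun z => by
    have h1 := eval_gfamL f (hU z) (hT z) (Sum.inr (Sum.inr k))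
    have h2 : eval (ePt B (F z) (deriv F z)) (tht f k) = thv θ (F z) (deriv F z) k := h1
    rw [h2, hc z]
  -- the derivative of a polynomial along the curve
  have hder : ∀ g z, HasDerivAt (fun s => eval (ePt B (F s) (deriv F s)) g) (c₀⁻¹ * eval (ePt B (F z) (deriv F z)) (DD f β g)) z := by
    intro g z
    have hall := (hZ z).2
    choose d hd1 hd2 using fun K => hall K g
    have hdd : ∀ K K', d K = d K' := fun K K' => (hd1 K).unique (hd1 K')
    obtain ⟨K₀⟩ : Nonempty (Fin (N + 2) → GIx f.q J) := ⟨fun _ => Sum.inl (Sum.inl (Sum.inl ()))⟩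
    have h1 : c₀ * d K₀ = eval (ePt B (F z) (deriv F z)) (DD f β g) := by
      have h2 := (hZ z).1 _ hβ
      rw [map_sub, map_pow, hthk z, sub_eq_zero] at h2
      rw [hc₀, h2, map_sum, hDD, map_sum, Finset.sum_mul]
      refine Finset.sum_congr rfl fun K _ => ?_
      rw [map_mul, map_mul, ← hd2 K, hdd K₀ K]
      ring
    rw [← h1, inv_mul_cancel_left₀ hc₀0]
    exact hd1 K₀
  -- the coordinates have polynomial growth
  have hgr : ∀ s, ∃ C : ℝ, 0 ≤ C ∧ ∀ z, ‖eval (ePt B (F z) (deriv F z)) (X s : MvPolynomial (Ph (N + 1)) ℂ)‖ ≤ C * (1 + ‖z‖) ^ ns s := by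
    intro s
    obtain ⟨C, hC, h1⟩ := nonp_growth (ns s) (fun i z => c₀⁻¹ ^ i * eval (ePt B (F z) (deriv F z)) ((⇑(DD f β))^[i] (X s))) (fun i z => by
      have h2 := (hder ((⇑(DD f β))^[i] (X s)) z).const_mul (c₀⁻¹ ^ i)
      rw [← mul_assoc, ← pow_succ, ← Function.iterate_succ_apply' (⇑(DD f β)) i] at h2
      exact h2) (fun z => by rw [(hZ z).1 _ (hns s), mul_zero])
    refine ⟨C, hC, fun z => ?_⟩
    have h2 := h1 z
    simp only [pow_zero, one_mul, Function.iterate_zero, id_eq] at h2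
    exact h2
  choose C hC hgr using hgr
  have hfin : ∀ z, ‖F z‖ ≤ (∑ s, C s) * (1 + ‖z‖) ^ (∑ s, ns s) := by
    intro z
    have hz1 : 1 ≤ 1 + ‖z‖ := by linarith [norm_nonneg z]
    have hS : 0 ≤ ∑ s, C s := Finset.sum_nonneg fun s _ => hC s
    refine (pi_norm_le_iff_of_nonneg (by positivity)).2 fun i => ?_
    have h1 := hgr (Sum.inl i.castSucc) z
    have h2 : eval (ePt B (F z) (deriv F z)) (X (Sum.inl i.castSucc) : MvPolynomial (Ph (N + 1)) ℂ) = F z i := by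
      rw [eval_X]
      show emb B (F z) i.castSucc = F z i
      unfold emb
      exact Fin.snoc_castSucc (α := fun _ => ℂ) _ _ _
    rw [h2] at h1
    refine h1.trans (mul_le_mul ?_ ?_ (by positivity) hS)
    · exact Finset.single_le_sum (f := C) (fun s _ => hC s) (Finset.mem_univ _)
    · exact pow_le_pow_right₀ hz1 (Finset.single_le_sum (f := ns) (fun s _ => Nat.zero_le _) (Finset.mem_univ _))
  have hd := poly_curve hP hθ hm hb hF hU hfin 0
  apply hwk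
  have h1 := congrFun (hc 0) k
  rw [hd, CX.thv_zero hm (hU 0) k] at h1
  exact h1.symm

end Pool.Agent.GLS

end

section

/-!
# GLS Cor: an LSol whose field is algebraic over the function field contradicts log general type

PROOF.  `exists_bar`: the algebraic closure `M` of the field of fractions of `ℂ[Ph] / 𝔯`, with the derivation of `D` and the embedding of the function field.  All coordinates satisfy linear equations with constant
coefficients (`exists_hk_mem`, `wronskian`), and `M` is algebraic over the function field: `exists_family`, `graded_lam`, `exists_int`, `not_logGT_of_graded`.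
-/

set_option autoImplicit false

open MvPolynomial Topology Filter Metric
open Pool.Agent.H13.SM (conTan cone)
open Pool.Agent.H17 (PN VanishesAt HolomorphicInto puncturedDisc)
open Pool.Agent.H17GT (coordFun)
open Pool.Agent.H17LG.Variety (FunField ratio IsLogGeneralType)
open Pool.Agent.H62.FC (Homog)
open Pool.Agent.GG Pool.Agent.GA Pool.Agent.GL Pool.Agent.GQ
open Pool.Agent.GBL (BdB)

namespace Pool.Agent.GLS

/-- a homomorphism of fields from equal polynomial relations -/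
private theorem Cor_hom {σ K L : Type} [Field K] [Field L] [Algebra ℂ K] [Algebra ℂ L] (x : σ → K)
    (hx : IntermediateField.adjoin ℂ (Set.range x) = ⊤) (y : σ → L) (h : ∀ g : MvPolynomial σ ℂ, aeval x g = 0 ↔ aeval y g = 0) :
    ∃ φ : K →ₐ[ℂ] L, ∀ i, φ (x i) = y i := by
  let A := MvPolynomial σ ℂ ⧸ RingHom.ker (aeval x : MvPolynomial σ ℂ →ₐ[ℂ] K)
  let f : A →ₐ[ℂ] K := Ideal.Quotient.liftₐ (RingHom.ker (aeval x : MvPolynomial σ ℂ →ₐ[ℂ] K)) (aeval x) fun g hg => hg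
  let f' : A →ₐ[ℂ] L := Ideal.Quotient.liftₐ (RingHom.ker (aeval x : MvPolynomial σ ℂ →ₐ[ℂ] K)) (aeval y) fun g hg => (h g).1 hg
  have hi : Function.Injective f := by
    rw [injective_iff_map_eq_zero]
    intro g hg
    obtain ⟨g, rfl⟩ := Ideal.Quotient.mk_surjective g
    exact Ideal.Quotient.eq_zero_iff_mem.2 hg
  have hi' : Function.Injective f' := by
    rw [injective_iff_map_eq_zero]
    intro g hg
    obtain ⟨g, rfl⟩ := Ideal.Quotient.mk_surjective g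
    exact Ideal.Quotient.eq_zero_iff_mem.2 ((h g).2 hg)
  let _ : Algebra A K := f.toRingHom.toAlgebra
  have : IsScalarTower ℂ A K := IsScalarTower.of_algebraMap_eq fun c => (f.commutes c).symm
  have : FaithfulSMul A K := (faithfulSMul_iff_algebraMap_injective A K).2 hi
  have : IsFractionRing A K := IsFractionRing.of_field A K fun z => by
    have hz : z ∈ IntermediateField.adjoin ℂ (Set.range x) := by
      rw [hx]
      trivial
    obtain ⟨r, s, e⟩ := (IntermediateField.mem_adjoin_range_iff ℂ x z).1 hz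
    exact ⟨Ideal.Quotient.mk _ r, Ideal.Quotient.mk _ s, e⟩
  refine ⟨IsFractionRing.liftAlgHom (K := K) (g := f') hi', fun i => ?_⟩
  have e : x i = algebraMap A K (Ideal.Quotient.mk _ (X i)) := (aeval_X x i).symm
  rw [e, IsFractionRing.liftAlgHom_apply]
  refine (IsFractionRing.lift_algebraMap hi' _).trans ?_
  exact aeval_X y i

/-- the derivation of the quotient field, extended to the algebraic closure -/
private theorem Cor_der {τ : Type} (𝔯 : Ideal (MvPolynomial τ ℂ)) [𝔯.IsPrime] (D : Derivation ℂ (MvPolynomial τ ℂ) (MvPolynomial τ ℂ)) (hD : ∀ g ∈ 𝔯, D g ∈ 𝔯) :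
    ∃ u : Derivation ℂ (AlgebraicClosure (Gen.FF 𝔯)) (AlgebraicClosure (Gen.FF 𝔯)), ∀ g, u (algebraMap (Gen.FF 𝔯) _ (aeval (Gen.gp 𝔯) g)) = algebraMap (Gen.FF 𝔯) _ (aeval (Gen.gp 𝔯) (D g)) := by
  let A := MvPolynomial τ ℂ ⧸ 𝔯
  let L := Gen.FF 𝔯
  have hs : Function.Surjective (Ideal.Quotient.mkₐ ℂ 𝔯) := Ideal.Quotient.mk_surjective
  let D₀ : Derivation ℂ A A := Derivation.liftOfSurjective (d := D) hs fun g hg =>
    Ideal.Quotient.eq_zero_iff_mem.2 (hD g (Ideal.Quotient.eq_zero_iff_mem.1 hg))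
  have hD₀ : ∀ g, D₀ (Ideal.Quotient.mk 𝔯 g) = Ideal.Quotient.mk 𝔯 (D g) := fun g =>
    Derivation.liftOfSurjective_apply (d := D) hs (fun g hg => Ideal.Quotient.eq_zero_iff_mem.2 (hD g (Ideal.Quotient.eq_zero_iff_mem.1 hg))) g
  let D₁ : Derivation ℂ A L := (Algebra.linearMap A L).compDer D₀
  obtain ⟨D₂, hD₂⟩ := Pool.Agent.GA.exists_ext (A := A) (E := L) (FaithfulSMul.algebraMap_injective A L) D₁
  obtain ⟨D₃, hD₃⟩ := exists_der_bar D₂
  refine ⟨D₃, fun g => ?_⟩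
  rw [hD₃, Gen.aeval_gp, hD₂, Gen.aeval_gp, ← hD₀]
  rfl

variable {N : ℕ} {P : Ideal (MvPolynomial (Fin (N + 1)) ℂ)} {B : Finset (Fin (N + 1))} {J : ℕ} {m : Fin J → ℕ} {θ : ∀ k, LogSec P B (m k)} {b : Fin (N + 1)}

/-- the algebraic closure of the field of `𝔯` -/
theorem exists_bar [P.IsPrime] (hb : X b ∉ P) (𝔯 : Ideal (MvPolynomial (Ph (N + 1)) ℂ)) [𝔯.IsPrime] (D : Derivation ℂ (MvPolynomial (Ph (N + 1)) ℂ) (MvPolynomial (Ph (N + 1)) ℂ))
    (hD : ∀ g ∈ 𝔯, D g ∈ 𝔯) (hc : ∀ q, rename ix q ∈ 𝔯 ↔ q ∈ aff P b)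
    (hal : ∀ s, IsAlgebraic (IntermediateField.adjoin ℂ (Set.range fun i : Fin (N + 1) => Gen.gp 𝔯 (ix i))) (Gen.gp 𝔯 s)) :
    ∃ (M : Type) (_ : Field M) (_ : Algebra ℂ M) (_ : IsAlgClosed M) (_ : Algebra (FunField P) M) (_ : IsScalarTower ℂ (FunField P) M) (_ : Algebra.IsAlgebraic (FunField P) M)
      (u : Derivation ℂ M M) (y : Ph (N + 1) → M), (∀ g, aeval y g = 0 ↔ g ∈ 𝔯) ∧ (∀ i, y (ix i) = algebraMap (FunField P) M (ratio P i b)) ∧ ∀ g, u (aeval y g) = aeval y (D g) := by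
  obtain ⟨u, hu⟩ := Cor_der 𝔯 D hD
  have hcb : coordFun P b ≠ 0 := Pool.Agent.H17R.coordFun_ne_zero_iff.2 hb
  obtain ⟨φ, hφ⟩ := Cor_hom (fun i => ratio P i b) (Pool.Agent.H17R.adjoin_ratio hcb) (fun i => Gen.gp 𝔯 (ix i)) fun g => by
    have h1 : aeval (fun i => Gen.gp 𝔯 (ix i)) g = aeval (Gen.gp 𝔯) (rename ix g) := by
      rw [aeval_rename]
      rfl
    rw [h1, Gen.aeval_gp_eq_zero, hc, RingHom.mem_ker]
  let _ : Algebra (FunField P) (Gen.FF 𝔯) := φ.toRingHom.toAlgebra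
  have t1 : IsScalarTower ℂ (FunField P) (Gen.FF 𝔯) := IsScalarTower.of_algebraMap_eq fun c => (φ.commutes c).symm
  have hL : Algebra.IsAlgebraic (FunField P) (Gen.FF 𝔯) := by
    -- the range of `φ` contains the field generated by the base coordinates
    have h1 : ∀ s, IsAlgebraic (FunField P) (Gen.gp 𝔯 s) := by
      intro s
      have h2 : IntermediateField.adjoin ℂ (Set.range fun i : Fin (N + 1) => Gen.gp 𝔯 (ix i)) ≤ φ.fieldRange := by
        rw [IntermediateField.adjoin_le_iff]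
        rintro _ ⟨i, rfl⟩
        exact ⟨ratio P i b, hφ i⟩
      obtain ⟨p, hp0, hp⟩ := hal s
      have h3 : ∀ c : IntermediateField.adjoin ℂ (Set.range fun i : Fin (N + 1) => Gen.gp 𝔯 (ix i)), ∃ r : FunField P, φ r = (c : Gen.FF 𝔯) := fun c => h2 c.2
      choose r hr using h3
      have hφi : ∀ a c : FunField P, φ a = φ c → a = c := fun a c h => φ.toRingHom.injective h
      have hr0 : r 0 = 0 := by
        have := hr 0
        exact (map_eq_zero φ).1 this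
      let ψ : IntermediateField.adjoin ℂ (Set.range fun i : Fin (N + 1) => Gen.gp 𝔯 (ix i)) →+* FunField P :=
        { toFun := r
          map_zero' := hr0
          map_one' := hφi _ _ (by rw [hr, map_one]; rfl)
          map_add' := fun x y => hφi _ _ (by rw [hr, map_add, hr, hr]; rfl)
          map_mul' := fun x y => hφi _ _ (by rw [hr, map_mul, hr, hr]; rfl) }
      have hψ : ∀ c, algebraMap (FunField P) (Gen.FF 𝔯) (ψ c) = (c : Gen.FF 𝔯) := hr
      refine ⟨p.map ψ, (Polynomial.map_ne_zero_iff ψ.injective).2 hp0, ?_⟩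
      rw [Polynomial.aeval_def, Polynomial.eval₂_map]
      have h4 : (algebraMap (FunField P) (Gen.FF 𝔯)).comp ψ = algebraMap (IntermediateField.adjoin ℂ (Set.range fun i : Fin (N + 1) => Gen.gp 𝔯 (ix i))) (Gen.FF 𝔯) := RingHom.ext hψ
      rw [h4, ← Polynomial.aeval_def]
      exact hp
    refine ⟨fun z => ?_⟩
    obtain ⟨A, B', hB, rfl⟩ := Gen.exists_frac 𝔯 z
    have h5 : ∀ g : MvPolynomial (Ph (N + 1)) ℂ, IsAlgebraic (FunField P) (aeval (Gen.gp 𝔯) g) := by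
      intro g
      induction g using MvPolynomial.induction_on with
      | C c =>
        rw [aeval_C, IsScalarTower.algebraMap_apply ℂ (FunField P) (Gen.FF 𝔯)]
        exact isAlgebraic_algebraMap _
      | add p q hp hq =>
        rw [map_add]
        exact hp.add hq
      | mul_X p i hp =>
        rw [map_mul, aeval_X]
        exact hp.mul (h1 i)
    rw [div_eq_mul_inv]
    exact (h5 A).mul (h5 B').inv
  have t2 : IsScalarTower (FunField P) (Gen.FF 𝔯) (AlgebraicClosure (Gen.FF 𝔯)) := inferInstance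
  have t3 : IsScalarTower ℂ (Gen.FF 𝔯) (AlgebraicClosure (Gen.FF 𝔯)) := inferInstance
  have t4 : IsScalarTower ℂ (FunField P) (AlgebraicClosure (Gen.FF 𝔯)) := IsScalarTower.of_algebraMap_eq fun c => by
    rw [IsScalarTower.algebraMap_apply ℂ (Gen.FF 𝔯) (AlgebraicClosure (Gen.FF 𝔯)), IsScalarTower.algebraMap_apply (FunField P) (Gen.FF 𝔯) (AlgebraicClosure (Gen.FF 𝔯)),
      ← IsScalarTower.algebraMap_apply ℂ (FunField P) (Gen.FF 𝔯)]
  have hM : Algebra.IsAlgebraic (FunField P) (AlgebraicClosure (Gen.FF 𝔯)) := Algebra.IsAlgebraic.trans (FunField P) (Gen.FF 𝔯) (AlgebraicClosure (Gen.FF 𝔯))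
  have hy : ∀ g : MvPolynomial (Ph (N + 1)) ℂ, aeval (fun s => algebraMap (Gen.FF 𝔯) (AlgebraicClosure (Gen.FF 𝔯)) (Gen.gp 𝔯 s)) g = algebraMap (Gen.FF 𝔯) (AlgebraicClosure (Gen.FF 𝔯)) (aeval (Gen.gp 𝔯) g) := fun g =>
    MvPolynomial.aeval_algebraMap_apply _ _ _
  refine ⟨AlgebraicClosure (Gen.FF 𝔯), inferInstance, inferInstance, inferInstance, inferInstance, t4, hM, u, fun s => algebraMap (Gen.FF 𝔯) (AlgebraicClosure (Gen.FF 𝔯)) (Gen.gp 𝔯 s), ?_, ?_, ?_⟩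
  · intro g
    rw [hy, map_eq_zero, Gen.aeval_gp_eq_zero]
  · intro i
    show algebraMap (Gen.FF 𝔯) (AlgebraicClosure (Gen.FF 𝔯)) (Gen.gp 𝔯 (ix i)) = _
    rw [IsScalarTower.algebraMap_apply (FunField P) (Gen.FF 𝔯) (AlgebraicClosure (Gen.FF 𝔯)), ← hφ i]
    rfl
  · intro g
    rw [hy, hy, hu]

theorem coreL [P.IsPrime] (hP : Homog P) {n : ℕ} (hdim : ∃ z : Fin n → FunField P, IsTranscendenceBasis ℂ z) (hb : b ∈ B) (hX : ∀ i ∈ B, X i ∉ P)
    (hθ : LogPolar θ) (hm : ∀ k, 1 ≤ m k) (f : LFrame θ b) (hgt : IsLogGeneralType (K := FunField P) (k := n) (BdB P B)) (I : Fin (N + 2) → GIx f.q J) (i₀ : Fin (N + 1)) :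
    ∃ q ∉ aff P b, ∀ x ∈ Uc P B b, ∀ v ∈ Tc P b x, Crit (gfamL f) I (ePt B x v) → v i₀ ≠ 0 → eval x q = 0 := by
  classical
  rcases exists_slice_L f hdim (hX b hb) I (X (Sum.inr i₀.castSucc)) with ⟨q, hq, h⟩ | ⟨𝔯, h𝔯, hC, hv, hc, hst, hal⟩
  · refine ⟨q, hq, fun x hx v hv hcr hvi => h x hx v hv hcr ?_⟩
    rw [eval_X]
    show embV B x v i₀.castSucc ≠ 0
    unfold embV
    rw [Fin.snoc_castSucc]
    exact hvi
  exfalso
  have hS := lsol_of_slice f h𝔯 hC hv hst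
  obtain ⟨k, hk1⟩ := hS.exists_tht hP hθ hm hb
  obtain ⟨p, β, hβ⟩ := hS.exists_bez hθ hm hb k
  have hO := hS.orbs hP hθ hm hb hβ
  obtain ⟨s₀, hs₀⟩ := hS.not_poly hP hθ hm hb hβ hk1
  obtain ⟨M, _, _, _, _, _, _, u, y, hy0, hyx, hu⟩ := exists_bar (hX b hb) 𝔯 (DD f β) hO.stable hc hal
  have hit : ∀ (j : ℕ) (g : MvPolynomial (Ph (N + 1)) ℂ), (⇑u)^[j] (aeval y g) = aeval y ((⇑(DD f β))^[j] g) := by
    intro j
    induction j with
    | zero => exact fun g => rfl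
    | succ j ih =>
      intro g
      rw [Function.iterate_succ_apply, hu, ih, Function.iterate_succ_apply]
  have hrel : ∀ s, ConstRel u (y s) := by
    intro s
    obtain ⟨j, hj⟩ := exists_hk_mem hO hk1 (X s)
    apply wronskian u (n := j)
    have h1 : hk u j (y s) = aeval y (hk (DD f β) j (X s)) := by
      unfold hk
      rw [AlgHom.map_det]
      congr 1
      ext a c
      show (⇑u)^[(a : ℕ) + c] (y s) = aeval y ((⇑(DD f β))^[(a : ℕ) + c] (X s))
      rw [← hit, aeval_X]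
    rw [h1, hy0]
    exact hj
  obtain ⟨r, lam, e, hl, he, hsp, i₁, he1, hl1⟩ := exists_family u y hrel ⟨s₀, fun j hj => hs₀ j (by
    rw [← hy0, ← hit, aeval_X]
    exact hj)⟩
  obtain ⟨ν, hν, hg⟩ := exists_int hl1 (graded_lam hl he)
  refine not_logGT_of_graded hdim hb hX (M := M) (e := e) (ν := ν) ⟨i₁, he1, hν⟩ hg (fun i => ?_) ?_ hgt
  · rw [← hyx]
    exact hsp _
  · have h1 := (hy0 _).2 (hS.eqs (Sum.inr (Sum.inl ())))
    have h2 : aeval y (feq f (Sum.inr (Sum.inl ()))) = y (Sum.inl (Fin.last (N + 1))) * ∏ i ∈ B, y (ix i) - 1 := by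
      show aeval y (X (Sum.inl (Fin.last (N + 1))) * ∏ l ∈ B, X (Sum.inl l.castSucc) - C (1 : ℂ)) = _
      rw [map_sub, map_mul, map_prod, aeval_X, aeval_C, map_one]
      simp only [aeval_X]
      rfl
    rw [h2, sub_eq_zero] at h1
    have h3 : algebraMap (FunField P) M (∏ i ∈ B, ratio P i b)⁻¹ = y (Sum.inl (Fin.last (N + 1))) := by
      rw [map_inv₀, map_prod]
      simp only [← hyx]
      exact (eq_inv_of_mul_eq_one_left h1).symm
    rw [h3]
    exact hsp _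

end Pool.Agent.GLS

end

section

/-!
# GLS Fin: the hypersurface

`exists_RL_sing`: as `GL.exists_RL` (GL/Rr), for singular varieties.  `topL_sing`: as `GL.topL` (GL/Top).
-/

set_option autoImplicit false

open MvPolynomial Topology Filter Metric
open Pool.Agent.H13.SM (conTan cone)
open Pool.Agent.H17 (PN VanishesAt HolomorphicInto puncturedDisc)
open Pool.Agent.H17EF (projVar)
open Pool.Agent.H17GT (coordFun)
open Pool.Agent.H17LG.Variety (FunField ratio IsLogGeneralType)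
open Pool.Agent.H62.FC (Homog)
open Pool.Agent.GG Pool.Agent.GA Pool.Agent.GL Pool.Agent.GQ
open Pool.Agent.GBL (BdB)

namespace Pool.Agent.GLS

variable {N : ℕ} {P : Ideal (MvPolynomial (Fin (N + 1)) ℂ)} {B : Finset (Fin (N + 1))} {J : ℕ} {m : Fin J → ℕ} {θ : ∀ k, LogSec P B (m k)} {b : Fin (N + 1)}

private theorem Fin_aff [P.IsPrime] {a : Fin (N + 1)} (ha : X a ∉ P) {q : MvPolynomial (Fin (N + 1)) ℂ} (hq : q ∉ aff P a) : hmg a q ∉ P := by
  have hc : coordFun P a ≠ 0 := Pool.Agent.H17R.coordFun_ne_zero_iff.2 ha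
  intro h
  apply hq
  have h1 := (Pool.Agent.H17R.gen_eq_zero_iff hc (hmg_hom a q)).2 h
  have h2 : Pool.Agent.H17R.gen P a (hmg a q) = aeval (fun i => ratio P i a) q := by
    unfold Pool.Agent.H17R.gen hmg
    conv_rhs => rw [← sum_homogeneousComponent q]
    rw [map_sum, map_sum]
    refine Finset.sum_congr rfl fun d _ => ?_
    rw [map_mul, map_pow, aeval_X, Pool.Agent.H17R.ratio_self hc, one_pow, one_mul]
  rw [h2] at h1
  exact RingHom.mem_ker.2 h1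

theorem exists_RL_sing [P.IsPrime] (hP : Homog P) {n : ℕ} (hn : 1 ≤ n) (hdim : ∃ z : Fin n → FunField P, IsTranscendenceBasis ℂ z) (hb : b ∈ B) (hX : ∀ i ∈ B, X i ∉ P)
    (hθ : LogPolar θ) (hm : ∀ k, 1 ≤ m k) (f : LFrame θ b) (hgt : IsLogGeneralType (K := FunField P) (k := n) (BdB P B)) :
    ∃ (e : ℕ) (R : MvPolynomial (Fin (N + 1)) ℂ), R.IsHomogeneous e ∧ R ∉ P ∧
      ∀ x ∈ Uc P B b, ∀ v ∈ Tc P b x, v ≠ 0 → IsInit (gfamL f) (ePt B x v) → eval x R = 0 := by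
  classical
  have h1 : ∀ p : (Fin (N + 2) → GIx f.q J) × Fin (N + 1), ∃ (D : ℕ) (R : MvPolynomial (Fin (N + 1)) ℂ), R.IsHomogeneous D ∧ R ∉ P ∧
      ∀ x ∈ Uc P B b, ∀ v ∈ Tc P b x, Crit (gfamL f) p.1 (ePt B x v) → v p.2 ≠ 0 → eval x R = 0 := by
    rintro ⟨I, b₁⟩
    obtain ⟨q, hq, h⟩ := coreL hP hdim hb hX hθ hm f hgt I b₁
    exact ⟨q.totalDegree, hmg b q, hmg_hom b q, Fin_aff (hX b hb) hq, fun x hx v hv h1 h2 => by rw [eval_hmg_one b q hx.2.1]; exact h x hx v hv h1 h2⟩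
  choose D Rp hD hRP hRz using h1
  refine ⟨∑ p, D p, ∏ p, Rp p, IsHomogeneous.prod _ _ _ fun p _ => hD p, ?_, ?_⟩
  · intro h
    obtain ⟨p, -, hp⟩ := (Ideal.IsPrime.prod_mem_iff (p := P)).1 h
    exact hRP p hp
  · intro x hx v hv hv0 hinit
    obtain ⟨b₁, hb₁⟩ : ∃ b₁, v b₁ ≠ 0 := by
      by_contra hcon
      push Not at hcon
      exact hv0 (funext hcon)
    obtain ⟨I, hI⟩ := exists_rowL hθ f hb hx hv hv0
    obtain ⟨y, hy, hy0⟩ := hinit
    have hcr : Crit (gfamL f) I (ePt B x v) := by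
      rw [← hy0]
      refine crit_of_arc hy ?_
      rw [hy0]
      exact hI
    rw [map_prod, Finset.prod_eq_zero (Finset.mem_univ (I, b₁)) (hRz (I, b₁) x hx v hv hcr hb₁)]

/-- All closed subvarieties of `X \ D`, singular or not. -/
theorem topL_sing [P.IsPrime] (hP : Homog P) {n : ℕ} (hn : 1 ≤ n) (hdim : ∃ z : Fin n → FunField P, IsTranscendenceBasis ℂ z) (hB : B.Nonempty) (hX : ∀ i ∈ B, X i ∉ P)
    (hθ : LogPolar θ) (hm : ∀ k, 1 ≤ m k) (hgt : IsLogGeneralType (K := FunField P) (k := n) (BdB P B)) : ∃ R, ConclusionL P B R := by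
  obtain ⟨b, hb⟩ := hB
  obtain ⟨f⟩ := exists_lframe θ b
  obtain ⟨e, R, hRe, hRP, hR⟩ := exists_RL_sing hP hn hdim hb hX hθ hm f hgt
  have hD : ∀ f : ℂ → PN N, HolomorphicInto f puncturedDisc → (∀ z ∈ puncturedDisc, f z ∈ openPart P B) → (∃ z ∈ puncturedDisc, ¬ VanishesAt R (f z)) →
      ∃ g : ℂ → PN N, HolomorphicInto g (ball 0 1) ∧ ∀ z ∈ puncturedDisc, g z = f z :=
    fun _ h1 h2 h3 => disc_of_half hP hb hRe (fun _ hF => finL hP hθ hm hb f hR hF) h1 h2 h3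
  exact ⟨R, ⟨⟨e, hRe⟩, hRP⟩, hD, fun f h1 h2 h3 z => entire_of_puncturedL hP hθ hm hb hRe hD h1 h2 h3 z⟩

end Pool.Agent.GLS

end

section

/-!
# GTL All: the conclusion for projective varieties, singularities allowed, and for smooth projective varieties with a divisor with simple normal crossings

If `B` is empty, the variety of `P` may be singular (`GQ`); if not, the pair has simple normal crossings.
-/

set_option autoImplicit false

open MvPolynomial Topology Filter Metric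
open Pool.Agent.H17 (PN VanishesAt HolomorphicInto puncturedDisc)
open Pool.Agent.H17EF (projVar)
open Pool.Agent.H17LG.Variety (FunField IsLogGeneralType)
open Pool.Agent.H62.FC (Homog)
open Pool.Agent.H62.SA (locVar OnBd)
open Pool.Agent.GL (LogSec LogPolar ConclusionL openPart toSym polar_toSym)
open Pool.Agent.GBL (LogGenerated logPolar_of_generated)

namespace Pool.Agent.GTL

variable {N : ℕ} {P : Ideal (MvPolynomial (Fin (N + 1)) ℂ)} {B : Finset (Fin (N + 1))} {J m : ℕ}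

/-- The form `R` for a projective variety, singularities allowed. -/
theorem exists_conclusionL_empty [P.IsPrime] (hP : Homog P) (hm : 1 ≤ m) {θ : Fin J → LogSec P ∅ m} (hθ : LogGenerated θ) {n : ℕ}
    (hdim : ∃ z : Fin (n + 1) → FunField P, IsTranscendenceBasis ℂ z) (hgt : GeneralType P (bdy ∅) (n + 1)) : ∃ R, ConclusionL P ∅ R := by
  have hpol : Pool.Agent.GG.Polar fun k => toSym (θ k) := polar_toSym (m := fun _ => m) (logPolar_of_generated hm hθ)
  unfold GeneralType at hgt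
  rw [onBd_empty] at hgt
  obtain ⟨R, e, hR, hRP, -, hRz⟩ := Pool.Agent.GQ.exists_R_sing (m := fun _ => m) hP _ hpol (fun _ => hm) hdim hgt
  refine ⟨R, ⟨⟨e, hR⟩, hRP⟩, ?_, ?_⟩
  · intro f hf hX hne
    exact Pool.Agent.GA.main_punct hP hpol (fun _ => hm) hR hRz hf (fun z hz => (hX z hz).1) hne
  · intro f hf hX hne
    exact Pool.Agent.GA.main_entire hP hpol (fun _ => hm) hR hRz hf (fun z => (hX z).1) hne

end Pool.Agent.GTL

end

section

/-!
# GTL EntB: Theorem B for entire curves, logarithmic case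

PROOF.  `B = ∅`: `GB.exists_entire_sub` with `toSym`, `generated_toSym`.  `b ∈ B`: `GBL.exists_entireL` (the lift `F`): order: `log ‖F z‖ ≤ Rho B (F z) ≤ C (1 + |z|)` (`‖x i‖ ≤ ‖x‖`).
-/

set_option autoImplicit false

open MvPolynomial Topology Filter Metric
open Pool.Agent.H13.SM (conTan cone)
open Pool.Agent.H17 (PN HolomorphicInto VanishesAt)
open Pool.Agent.H13.OT (OrderTwo)
open Pool.Agent.H17LG.Variety (FunField IsLogGeneralType)
open Pool.Agent.H62.FC (Homog)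
open Pool.Agent.H62.SA (locVar OnBd)
open Pool.Agent.GL
open Pool.Agent.GBL (LogGenerated)

namespace Pool.Agent.GTL

variable {N : ℕ} {P : Ideal (MvPolynomial (Fin (N + 1)) ℂ)} {B : Finset (Fin (N + 1))} {J m : ℕ} {θ : Fin J → LogSec P B m}

/-- `log ‖x‖` is at most the height -/
private theorem log_le_Rho {x : Fin (N + 1) → ℂ} (hx : ∀ i ∈ B, x i ≠ 0) : Real.log ‖x‖ ≤ Rho B x := by
  unfold Rho
  refine le_add_of_nonneg_right (Finset.sum_nonneg fun i hi => sub_nonneg.2 ?_)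
  exact Real.log_le_log (norm_pos_iff.2 (hx i hi)) (norm_le_pi_norm x i)

/-- an entire curve with `log ‖F z‖ ≤ C (1 + |z|)` has order two -/
private theorem orderTwo_of_log {F : ℂ → Fin (N + 1) → ℂ} (hF : ∀ z, AnalyticAt ℂ F z) (h0 : ∀ z, F z ≠ 0) {C : ℝ} (hC : ∀ z, Real.log ‖F z‖ ≤ C * (1 + ‖z‖)) :
    OrderTwo fun z => Projectivization.mk ℂ (F z) (h0 z) := by
  refine ⟨F, 2 * |C|, fun z => (hF z).differentiableAt, fun z => ⟨h0 z, rfl⟩, fun r hr => ?_⟩
  have hcont : Continuous fun z => Real.log ‖F z‖ := by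
    refine continuous_iff_continuousAt.2 fun z => ?_
    exact ((hF z).continuousAt.norm).log (norm_ne_zero_iff.2 (h0 z))
  have h1 : Real.circleAverage (fun z => Real.log ‖F z‖) 0 r ≤ |C| * (1 + r) := by
    refine Real.circleAverage_mono_on_of_le_circle (hcont.continuousOn.circleIntegrable' ) fun z hz => ?_
    rw [mem_sphere_zero_iff_norm, abs_of_pos hr] at hz
    refine (hC z).trans ?_
    rw [hz]
    exact mul_le_mul_of_nonneg_right (le_abs_self C) (by positivity)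
  refine h1.trans ?_
  have h2 : 0 ≤ |C| := abs_nonneg C
  nlinarith [sq_nonneg (r - 1), mul_nonneg h2 (sq_nonneg (r - 1)), mul_nonneg h2 (sq_nonneg r)]

theorem exists_entireB [P.IsPrime] (hP : Homog P) (hm : 1 ≤ m) (hgen : LogGenerated θ) (hB : ∀ i ∈ B, X i ∉ P) {k : ℕ} (hk : 1 ≤ k)
    (hz : ∃ z : Fin k → FunField P, IsTranscendenceBasis ℂ z) (hn : ¬ IsLogGeneralType (OnBd P (bdy B) (k := k)))
    {q : MvPolynomial (Fin (N + 1)) ℂ} {n : ℕ} (hq : q.IsHomogeneous n) (hqP : q ∉ P) :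
    ∃ g : ℂ → PN N, HolomorphicInto g Set.univ ∧ OrderTwo g ∧ (∀ z, g z ∈ locVar P (bdy B)) ∧ (∃ z w, g z ≠ g w) ∧ ¬ VanishesAt q (g 0) := by
  rw [locVar_bdy]
  rcases B.eq_empty_or_nonempty with hBe | ⟨b, hb⟩
  · subst hBe
    rw [onBd_empty] at hn
    obtain ⟨g, -, h1, h2, h3, h4, h5, -⟩ := Pool.Agent.GB.exists_entire_sub hP hm (generated_toSym hgen) hP le_rfl hk hz hn hq hqP
    exact ⟨g, h1, h2, fun z => ⟨h3 z, fun i hi => absurd hi (Finset.notMem_empty i)⟩, h4, h5⟩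
  · rw [onBd_bdy, Pool.Agent.GBL.bdB_eq] at hn
    obtain ⟨F, h1, h2, h3, h4, -, C, hC⟩ := Pool.Agent.GBL.exists_entireL hP hm hgen hb hB hk hz hn hq hqP
    have h0 : ∀ z, F z ≠ 0 := fun z => (h2 z).1.1
    refine ⟨fun z => Projectivization.mk ℂ (F z) (h0 z), fun z _ => ⟨F, h1 z, Filter.Eventually.of_forall fun w => ⟨h0 w, rfl⟩⟩,
      orderTwo_of_log h1 h0 fun z => (log_le_Rho (h2 z).2.2).trans (hC z), fun z => ⟨fun p hp n hn => ?_, fun i hi => ?_⟩, ?_, ?_⟩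
    · rw [Pool.Agent.H17BP.vanishesAt_mk hn (h0 z)]
      exact (h2 z).1.2 p hp
    · rw [Pool.Agent.H17BP.vanishesAt_mk (isHomogeneous_X ℂ i) (h0 z), eval_X]
      exact (h2 z).2.2 i hi
    · by_contra hcon
      push Not at hcon
      apply h4
      have hF : ∀ z, F z = F 0 := by
        intro z
        obtain ⟨a, ha⟩ := (Projectivization.mk_eq_mk_iff' ℂ _ _ (h0 z) (h0 0)).1 (hcon z 0)
        have e1 := congrFun ha b
        rw [Pi.smul_apply, (h2 z).2.1, (h2 0).2.1, smul_eq_mul, mul_one] at e1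
        rw [← ha, e1, one_smul]
      have : F = fun _ => F 0 := funext hF
      rw [this]
      exact deriv_const _ _
    · rw [Pool.Agent.H17BP.vanishesAt_mk hq (h0 0)]
      exact h3

/-- the same for a closed subvariety `Q` -/
theorem exists_entireB_sub {Q : Ideal (MvPolynomial (Fin (N + 1)) ℂ)} [Q.IsPrime] (hQ : Homog Q) (hPQ : P ≤ Q) (hm : 1 ≤ m) (hgen : LogGenerated θ) (hB : ∀ i ∈ B, X i ∉ Q) {k : ℕ} (hk : 1 ≤ k)
    (hz : ∃ z : Fin k → FunField Q, IsTranscendenceBasis ℂ z) (hn : ¬ IsLogGeneralType (OnBd Q (bdy B) (k := k)))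
    {q : MvPolynomial (Fin (N + 1)) ℂ} {n : ℕ} (hq : q.IsHomogeneous n) (hqQ : q ∉ Q) :
    ∃ g : ℂ → PN N, HolomorphicInto g Set.univ ∧ OrderTwo g ∧ (∀ z, g z ∈ locVar Q (bdy B)) ∧ (∃ z w, g z ≠ g w) ∧ ¬ VanishesAt q (g 0) :=
  exists_entireB hQ hm (logGenerated_res hPQ hgen) hB hk hz hn hq hqQ

end Pool.Agent.GTL

end

section

/-!
# GTL Top: the Green–Griffiths–Lang conjecture for complements of hyperplane sections with simple normal crossings, if the logarithmic symmetric differentials of some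
degree generate
-/

set_option autoImplicit false

open MvPolynomial Topology Filter Metric
open Pool.Agent.H13.SM (conTan cone)
open Pool.Agent.H17 (PN VanishesAt HolomorphicInto puncturedDisc ZariskiClosedIn)
open Pool.Agent.H17EF (projVar)
open Pool.Agent.H13.OT (OrderTwo)
open Pool.Agent.H17LG.Variety (FunField IsLogGeneralType)
open Pool.Agent.H17R (coordFun_ne_zero_iff)
open Pool.Agent.H62.FC (Homog)
open Pool.Agent.H62.SA (locVar OnBd)
open Pool.Agent.H7.Bir (GGLOpen)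
open Pool.Agent.GL (LogSec LogPolar ConclusionL openPart)
open Pool.Agent.GBL (LogGenerated logPolar_of_generated)

namespace Pool.Agent.GTL

variable {N : ℕ} {P : Ideal (MvPolynomial (Fin (N + 1)) ℂ)} {B : Finset (Fin (N + 1))} {J m : ℕ} {θ : Fin J → LogSec P B m}

/-- **The four properties of `U`**, with the exceptional set `{R = 0}`. -/
theorem ggl_of_conclusionL [P.IsPrime] (hP : Homog P) (hm : 1 ≤ m) (hθ : LogGenerated θ) (hB : ∀ i ∈ B, X i ∉ P) {n : ℕ}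
    (hdim : ∃ z : Fin (n + 1) → FunField P, IsTranscendenceBasis ℂ z) (hgt : GeneralType P (bdy B) (n + 1)) {R : MvPolynomial (Fin (N + 1)) ℂ}
    (hR : ConclusionL P B R) : GGLOpen P (bdy B) {x | x ∈ locVar P (bdy B) ∧ VanishesAt R x} := by
  obtain ⟨⟨e, hRe⟩, hRP⟩ := hR.form
  have hi : ∃ i, X i ∉ P := by
    obtain ⟨z, hz⟩ := hdim
    obtain ⟨i, hi⟩ := Pool.Agent.H92.GT.Proj.exists_coordFun_ne_zero P z hz
    exact ⟨i, coordFun_ne_zero_iff.1 hi⟩
  refine ⟨closed_loc hRe, proper_loc hP bdy_homog (locVar_nonempty hP hi hB) hRe hRP, ?_, ?_, ?_, ?_⟩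
  · intro w _ hw
    obtain ⟨z, hz⟩ := hdim
    obtain ⟨z', hz'⟩ := hw
    obtain rfl := Pool.Agent.H22.TB.eq_of_basis hz hz'
    exact hgt
  · intro f hf hfX hne
    obtain ⟨z, hz, h⟩ := hne
    exact hR.disc f hf (fun z hz => by rw [← locVar_bdy]; exact hfX z hz) ⟨z, hz, fun h1 => h ⟨hfX z hz, h1⟩⟩
  · intro f hf hfX hne z
    exact ⟨hfX z, hR.entire f hf (fun z => by rw [← locVar_bdy]; exact hfX z) hne z⟩
  · intro Q _ hQ hPQ hsub w hw hzw
    obtain ⟨hRQ, hneQ⟩ := not_mem_loc hPQ hRe hsub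
    have hBQ : ∀ i ∈ B, X i ∉ Q := by
      intro i hi hiQ
      obtain ⟨x, hx⟩ := hneQ
      rw [locVar_bdy] at hx
      exact hx.2 i hi (hx.1 _ hiQ 1 (isHomogeneous_X ℂ i))
    by_contra hn
    obtain ⟨g, h1, -, h3, h4, h5⟩ := exists_entireB_sub hQ hPQ hm hθ hBQ hw hzw hn hRe hRQ
    refine h5 (hR.entire g h1 (fun z => ?_) h4 0)
    rw [← locVar_bdy]
    exact ⟨fun F hF k hk => (h3 z).1 F (hPQ hF) k hk, (h3 z).2⟩

theorem not_brody {s : ℕ} {G : Fin s → MvPolynomial (Fin (N + 1)) ℂ} (hd : DenseEntire P G) : ¬ PseudoBrody P G := by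
  rintro ⟨Ξ, hc, hp, h⟩
  obtain ⟨R, e, hR, hRP, hRΞ⟩ := exists_form_loc hc hp
  obtain ⟨f, h1, h2, h3, h4⟩ := hd R e hR hRP
  exact h4 (hRΞ _ (h f h1 h2 h3 0))

theorem not_picard {s : ℕ} {G : Fin s → MvPolynomial (Fin (N + 1)) ℂ} (hd : DenseEntire P G)
    (hno : NoExtend P G) : ¬ PseudoPicard P G := by
  rintro ⟨Ξ, hc, hp, h⟩
  obtain ⟨R, e, hR, hRP, hRΞ⟩ := exists_form_loc hc hp
  obtain ⟨f, hf, hfX, hne, hf0⟩ := hd R e hR hRP
  obtain ⟨f₂, hf₂⟩ : ∃ f₂ : ℂ → PN N, f₂ = fun w => f (w - 2) := ⟨_, rfl⟩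
  obtain ⟨f₁, hf₁⟩ : ∃ f₁ : ℂ → PN N, f₁ = fun z => f (z⁻¹ - 2) := ⟨_, rfl⟩
  have hf₂h : HolomorphicInto f₂ Set.univ := by
    intro z _
    obtain ⟨φ, hφ, he⟩ := hf (z - 2) (Set.mem_univ _)
    have hs : AnalyticAt ℂ (fun w : ℂ => w - 2) z := analyticAt_id.sub analyticAt_const
    refine ⟨fun w => φ (w - 2), AnalyticAt.comp (g := φ) (f := fun w : ℂ => w - 2) hφ hs, ?_⟩
    rw [hf₂]
    exact (hs.continuousAt.tendsto.eventually he)
  have hf₁h : HolomorphicInto f₁ puncturedDisc := by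
    intro z hz
    have hz0 : z ≠ 0 := hz.2
    obtain ⟨φ, hφ, he⟩ := hf (z⁻¹ - 2) (Set.mem_univ _)
    have hs : AnalyticAt ℂ (fun w : ℂ => w⁻¹ - 2) z := (analyticAt_inv hz0).sub analyticAt_const
    refine ⟨fun w => φ (w⁻¹ - 2), AnalyticAt.comp (g := φ) (f := fun w : ℂ => w⁻¹ - 2) hφ hs, ?_⟩
    rw [hf₁]
    exact (hs.continuousAt.tendsto.eventually he)
  have hz₀ : (1 / 2 : ℂ) ∈ puncturedDisc := by
    refine ⟨?_, ?_⟩
    · rw [mem_ball_zero_iff]
      norm_num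
    · rw [Set.mem_singleton_iff]
      norm_num
  have hf₁0 : f₁ (1 / 2) = f 0 := by
    rw [hf₁]
    norm_num
  obtain ⟨g, hg, hgf⟩ := h f₁ hf₁h (fun z _ => by rw [hf₁]; exact hfX _) ⟨1 / 2, hz₀, fun h1 => hf0 (by rw [← hf₁0]; exact hRΞ _ h1)⟩
  refine hno f₂ hf₂h (fun z => by rw [hf₂]; exact hfX _) ?_ g hg fun z hz => ?_
  · obtain ⟨z, w, hzw⟩ := hne
    refine ⟨z + 2, w + 2, ?_⟩
    rw [hf₂]
    simpa using hzw
  · rw [hgf z hz, hf₁, hf₂]

theorem strongly_self {P : Ideal (MvPolynomial (Fin (N + 1)) ℂ)} [P.IsPrime] (hP : Homog P) {s : ℕ} {G : Fin s → MvPolynomial (Fin (N + 1)) ℂ} {n : ℕ}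
    (hdim : ∃ z : Fin (n + 1) → FunField P, IsTranscendenceBasis ℂ z) (h : StronglyGeneralType P G) : GeneralType P G (n + 1) := by
  obtain ⟨Ξ, hc, hp, h⟩ := h
  refine h P hP le_rfl (fun hsub => hp (Set.Subset.antisymm ?_ hsub)) (n + 1) (Nat.succ_le_succ (Nat.zero_le n)) hdim
  obtain ⟨S, -, hS⟩ := hc
  rw [hS]
  exact fun x hx => hx.1

theorem allEquiv_of {P : Ideal (MvPolynomial (Fin (N + 1)) ℂ)} [P.IsPrime] {s : ℕ} {G : Fin s → MvPolynomial (Fin (N + 1)) ℂ} {n : ℕ}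
    (h1 : GeneralType P G n → ∃ Ξ : Set (PN N), GGLOpen P G Ξ)
    (h2 : ¬ GeneralType P G n → ¬ PseudoPicard P G ∧ ¬ PseudoBrody P G ∧ ¬ StronglyGeneralType P G) : AllEquiv P G n := by
  refine ⟨⟨fun h => ?_, fun h => ?_⟩, ⟨fun h => ?_, fun h => ?_⟩, ⟨fun h => ?_, fun h => ?_⟩⟩
  · obtain ⟨Ξ, hΞ⟩ := h1 h
    exact ⟨Ξ, hΞ.closed, hΞ.proper, hΞ.picard⟩
  · by_contra hn
    exact (h2 hn).1 h
  · obtain ⟨Ξ, hΞ⟩ := h1 h
    exact ⟨Ξ, hΞ.closed, hΞ.proper, hΞ.brody⟩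
  · by_contra hn
    exact (h2 hn).2.1 h
  · obtain ⟨Ξ, hΞ⟩ := h1 h
    exact ⟨Ξ, hΞ.closed, hΞ.proper, fun Q _ => hΞ.strongly Q⟩
  · by_contra hn
    exact (h2 hn).2.2 h

/-- the coordinates of a variety of positive dimension -/
theorem exists_X {P : Ideal (MvPolynomial (Fin (N + 1)) ℂ)} [P.IsPrime] {n : ℕ} (hdim : ∃ z : Fin (n + 1) → FunField P, IsTranscendenceBasis ℂ z) :
    ∃ i, (X i : MvPolynomial (Fin (N + 1)) ℂ) ∉ P := by
  obtain ⟨z, hz⟩ := hdim
  obtain ⟨i, hi⟩ := Pool.Agent.H92.GT.Proj.exists_coordFun_ne_zero P z hz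
  exact ⟨i, coordFun_ne_zero_iff.1 hi⟩

theorem etale_nonempty {M : ℕ} {P : Ideal (MvPolynomial (Fin (N + 1)) ℂ)} {P' : Ideal (MvPolynomial (Fin (M + 1)) ℂ)} {s s' : ℕ}
    {G : Fin s → MvPolynomial (Fin (N + 1)) ℂ} {G' : Fin s' → MvPolynomial (Fin (M + 1)) ℂ} {p : PN M → PN N}
    (hp : Pool.Agent.H62.Qe.IsEtaleOver P P' G G' p) (hne : (locVar P G).Nonempty) : (locVar P' G').Nonempty := by
  obtain ⟨x, hx⟩ := hne
  obtain ⟨y, hy, rfl⟩ := hp.reg.surj x hx.1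
  exact ⟨y, (hp.inv y hy).1 hx⟩

section

variable {M n s s' : ℕ} {P : Ideal (MvPolynomial (Fin (N + 1)) ℂ)} [P.IsPrime] {P' : Ideal (MvPolynomial (Fin (M + 1)) ℂ)} [P'.IsPrime]
  {G : Fin s → MvPolynomial (Fin (N + 1)) ℂ} {G' : Fin s' → MvPolynomial (Fin (M + 1)) ℂ}

/-- log general type goes up along virtual domination -/
theorem logGT_virt (hP : Homog P) (hP' : Homog P') (hG : ∀ l, ∃ e, (G l).IsHomogeneous e) (hG' : ∀ l, ∃ e, (G' l).IsHomogeneous e)
    (hne : (locVar P' G').Nonempty) (hz : ∃ z : Fin (n + 1) → FunField P, IsTranscendenceBasis ℂ z)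
    (hz' : ∃ z : Fin (n + 1) → FunField P', IsTranscendenceBasis ℂ z) (h : VirtDominates P P' G G') (hgt : GeneralType P G (n + 1)) :
    GeneralType P' G' (n + 1) := by
  obtain ⟨L, P₁, hp₁, s₁, G₁, p, D, γ, hP₁, hG₁, hp, hst⟩ := h
  have hz₁ := basis_etale hP' hP₁ hG' hG₁ hne hz' hp
  exact logGT_etale hP' hP₁ hG' hG₁ hne hz' hp (logGT_strict hst hP₁ hG hG₁ (exists_X hz) (exists_X hz₁) hz hz₁ hgt)

/-- the four properties go up along virtual domination -/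
theorem ggl_virt (hP : Homog P) (hP' : Homog P') (hG : ∀ l, ∃ e, (G l).IsHomogeneous e) (hG' : ∀ l, ∃ e, (G' l).IsHomogeneous e)
    (hne : (locVar P' G').Nonempty) (hz : ∃ z : Fin (n + 1) → FunField P, IsTranscendenceBasis ℂ z)
    (hz' : ∃ z : Fin (n + 1) → FunField P', IsTranscendenceBasis ℂ z) (h : VirtDominates P P' G G') {Ξ : Set (PN N)} (hΞ : GGLOpen P G Ξ) :
    ∃ Ξ' : Set (PN M), GGLOpen P' G' Ξ' := by
  obtain ⟨L, P₁, hp₁, s₁, G₁, p, D, γ, hP₁, hG₁, hp, hst⟩ := h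
  have hz₁ := basis_etale hP' hP₁ hG' hG₁ hne hz' hp
  obtain ⟨Ξ₁, hΞ₁⟩ := ggl_strict hP hP₁ hG hG₁ (etale_nonempty hp hne) hz hz₁ hst hΞ
  exact ggl_etale hP' hP₁ hG' hG₁ hne hz' hp hΞ₁

/-- the properties (ii) and (iii) of `V` fail if `U` virtually dominates `V` and has dense entire curves which do not extend -/
theorem not_virt (hP : Homog P) (hP' : Homog P') (hG : ∀ l, ∃ e, (G l).IsHomogeneous e) (hG' : ∀ l, ∃ e, (G' l).IsHomogeneous e)
    (hne : (locVar P G).Nonempty) (hz : ∃ z : Fin (n + 1) → FunField P, IsTranscendenceBasis ℂ z)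
    (hz' : ∃ z : Fin (n + 1) → FunField P', IsTranscendenceBasis ℂ z) (h : VirtDominates P' P G' G) (hd : DenseEntire P G) (hno : NoExtend P G) :
    ¬ PseudoPicard P' G' ∧ ¬ PseudoBrody P' G' := by
  obtain ⟨L, P₁, hp₁, s₁, G₁, p, D, γ, hP₁, hG₁, hp, hst⟩ := h
  have hz₁ := basis_etale hP hP₁ hG hG₁ hne hz hp
  have hne₁ := etale_nonempty hp hne
  have hd₁ := dense_etale hP hP₁ hG hG₁ hne hz hp hd
  have hno₁ := noext_etale hP hP₁ hp hno
  constructor
  · rintro ⟨Ξ, hc, hpr, hpic⟩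
    obtain ⟨R, r, hR, hRP, hRΞ⟩ := exists_form_loc hc hpr
    obtain ⟨T, t, hT, hTP, h1, -⟩ := curves_up hst hz' hz₁ hR hRP
    refine not_picard hd₁ hno₁ ⟨_, closed_loc hT, proper_loc hP₁ hG₁ hne₁ hT hTP, fun f hf hfX hnef => ?_⟩
    refine h1 (fun f hf hfX hne => hpic f hf hfX ?_) f hf hfX ?_
    · obtain ⟨z, hz, hz1⟩ := hne
      exact ⟨z, hz, fun h1 => hz1 (hRΞ _ h1)⟩
    · obtain ⟨z, hz, hz1⟩ := hnef
      exact ⟨z, hz, fun h1 => hz1 ⟨hfX z hz, h1⟩⟩
  · rintro ⟨Ξ, hc, hpr, hbr⟩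
    obtain ⟨R, r, hR, hRP, hRΞ⟩ := exists_form_loc hc hpr
    obtain ⟨T, t, hT, hTP, -, h2⟩ := curves_up hst hz' hz₁ hR hRP
    refine not_brody hd₁ ⟨_, closed_loc hT, proper_loc hP₁ hG₁ hne₁ hT hTP, fun f hf hfX hnef z => ?_⟩
    exact ⟨hfX z, h2 (fun f hf hfX hne z => hRΞ _ (hbr f hf hfX hne z)) f hf hfX hnef z⟩

end

/-- **The conclusion**, if there is a form `R` in the case of log general type. -/
theorem conclusion_of [P.IsPrime] (hP : Homog P) (hm : 1 ≤ m) (hθ : LogGenerated θ) (hB : ∀ i ∈ B, X i ∉ P) {n : ℕ}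
    (hdim : ∃ z : Fin (n + 1) → FunField P, IsTranscendenceBasis ℂ z) (hex : GeneralType P (bdy B) (n + 1) → ∃ R, ConclusionL P B R) :
    Conclusion P (bdy B) (n + 1) := by
  have hne := locVar_nonempty hP (exists_X hdim) hB
  have hgg : GeneralType P (bdy B) (n + 1) → ∃ Ξ : Set (PN N), GGLOpen P (bdy B) Ξ := by
    intro hgt
    obtain ⟨R, hR⟩ := hex hgt
    exact ⟨_, ggl_of_conclusionL hP hm hθ hB hdim hgt hR⟩
  have hdense : ¬ GeneralType P (bdy B) (n + 1) → ∀ (R : MvPolynomial (Fin (N + 1)) ℂ) (e : ℕ), R.IsHomogeneous e → R ∉ P →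
      ∃ f : ℂ → PN N, HolomorphicInto f Set.univ ∧ OrderTwo f ∧ (∀ z, f z ∈ locVar P (bdy B)) ∧ (∃ z w, f z ≠ f w) ∧ ¬ VanishesAt R (f 0) :=
    fun hn R e hR hRP => exists_entireB hP hm hθ hB (Nat.succ_le_succ (Nat.zero_le n)) hdim hn hR hRP
  have hde : ¬ GeneralType P (bdy B) (n + 1) → DenseEntire P (bdy B) := by
    intro hn R e hR hRP
    obtain ⟨f, hf1, -, hf2, hf3, hf4⟩ := hdense hn R e hR hRP
    exact ⟨f, hf1, hf2, hf3, hf4⟩
  have hno : NoExtend P (bdy B) := by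
    intro f hf hfX hne g hg hgf
    exact no_extendL (m := fun _ => m) hP (logPolar_of_generated hm hθ) (fun _ => hm) hf (fun z => by rw [← locVar_bdy]; exact hfX z) hne hg hgf
  refine ⟨allEquiv_of hgg fun hn => ⟨not_picard (hde hn) hno, not_brody (hde hn), fun h => hn (strongly_self hP hdim h)⟩, ?_, ?_, hdense⟩
  · intro M P' _ hP' hz' s' G' hG' hne' h h'
    refine allEquiv_of (fun hgt => ?_) fun hn' => ?_
    · obtain ⟨Ξ, hΞ⟩ := hgg (logGT_virt hP' hP hG' bdy_homog hne hz' hdim h' hgt)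
      exact ggl_virt hP hP' bdy_homog hG' hne' hdim hz' h hΞ
    · have hn : ¬ GeneralType P (bdy B) (n + 1) := fun hgt => hn' (logGT_virt hP hP' bdy_homog hG' hne' hdim hz' h hgt)
      obtain ⟨h1, h2⟩ := not_virt hP hP' bdy_homog hG' hne hdim hz' h' (hde hn) hno
      exact ⟨h1, h2, fun h3 => hn' (strongly_self hP' hz' h3)⟩
  · intro hgt M P' _ hP' hz' s' G' hG' hne' h
    obtain ⟨Ξ, hΞ⟩ := hgg hgt
    exact ggl_virt hP hP' bdy_homog hG' hne' hdim hz' h hΞ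

end Pool.Agent.GTL

end

section

/-!
# GTL Gen: the conclusion without any hypothesis on the singularities
-/

set_option autoImplicit false

open MvPolynomial Topology Filter Metric
open Pool.Agent.H17LG.Variety (FunField IsLogGeneralType)
open Pool.Agent.H62.FC (Homog)
open Pool.Agent.GL (LogSec)
open Pool.Agent.GBL (LogGenerated logPolar_of_generated)

namespace Pool.Agent.GTL

variable {N : ℕ} {P : Ideal (MvPolynomial (Fin (N + 1)) ℂ)} {B : Finset (Fin (N + 1))} {J m : ℕ}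

/-- **The conclusion**: the variety of `P` is a projective variety of dimension `n + 1`, singularities allowed, not contained in one of the hyperplanes `x i = 0`, `i ∈ B`. -/
theorem conclusion_gen [P.IsPrime] (hP : Homog P) {n : ℕ} (hdim : ∃ z : Fin (n + 1) → FunField P, IsTranscendenceBasis ℂ z)
    (hB : ∀ i ∈ B, X i ∉ P) (hm : 1 ≤ m) {θ : Fin J → LogSec P B m} (hθ : LogGenerated θ) : Conclusion P (bdy B) (n + 1) := by
  rcases B.eq_empty_or_nonempty with rfl | hne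
  · exact conclusion_of hP hm hθ (fun i hi => absurd hi (Finset.notMem_empty i)) hdim (exists_conclusionL_empty hP hm hθ hdim)
  · refine conclusion_of hP hm hθ hB hdim fun hgt => ?_
    unfold GeneralType at hgt
    rw [onBd_bdy'] at hgt
    exact Pool.Agent.GLS.topL_sing hP (m := fun _ => m) (Nat.succ_le_succ (Nat.zero_le n)) hdim hne hB (logPolar_of_generated hm hθ) (fun _ => hm) hgt

end Pool.Agent.GTL

end
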